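import Pool.Agent.H94.LP7.H51.TB.Sys

/-! The parts of this file: V7.AL.TDefs, V7.BE.Defs, V7.BE.Proj. -/

section

/-!
# V7, tensor systems: definitions (used by the blocks ALPHA and BETA)

Slots `ι`, every slot has dimension `c`.  A tensor is a function `F : (ι → Fin c) → ℂ`.  A point of
kind `S : Finset ι` is a family of vectors `y j ∈ ℂ^c` (`j : ι`; only `j ∈ S` are used); it imposes the
conditions `∑_{e = w off S} (∏_{j ∈ S} y j (e j)) F e = 0` for all `w`, i.e. the contraction of `F`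
with the pure tensor of the `y j`, `j ∈ S`, vanishes.
-/

namespace Pool.Agent.V7

open Finset MvPolynomial Pool.Agent.H51.TB

/-- The tensor system. -/
noncomputable def TSys (ι : Type) [Fintype ι] [DecidableEq ι] (c : ℕ) :
    Sys (ι → Fin c) (ι × Fin c) (Finset ι) where
  R := fun _ => ι → Fin c
  fin := fun _ => inferInstance
  co := fun S w e => if ∀ j, j ∉ S → e j = w j then ∏ j ∈ S, X (j, e j) else 0

variable {ι : Type} [Fintype ι] [DecidableEq ι] {c : ℕ}

/-- The contraction of a tensor with the pure tensor of the `y j`, `j ∈ S`, at the index `w`. -/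
noncomputable def ctr (S : Finset ι) (y : ι × Fin c → ℂ) (F : (ι → Fin c) → ℂ) (w : ι → Fin c) : ℂ :=
  ∑ e : ι → Fin c, if ∀ j, j ∉ S → e j = w j then (∏ j ∈ S, y (j, e j)) * F e else 0

theorem mem_TSys {κ : Type} (m : κ → Finset ι) (p : κ → ι × Fin c → ℂ) (F : (ι → Fin c) → ℂ) :
    F ∈ (TSys ι c).V m p ↔ ∀ i w, ctr (m i) (p i) F w = 0 := by
  rw [Sys.mem_V]
  refine forall_congr' fun i => forall_congr' fun w => ?_
  have h : ∑ e, eval (p i) ((TSys ι c).co (m i) w e) * F e = ctr (m i) (p i) F w := by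
    unfold ctr
    refine sum_congr rfl fun e _ => ?_
    show eval (p i) (if ∀ j, j ∉ m i → e j = w j then ∏ j ∈ m i, X (j, e j) else 0) * F e = _
    split_ifs
    · rw [map_prod]
      simp
    · simp
  rw [h]

/-- The kinds with weights `w`, total weight `W`: `w S * c ^ |S| / W` points of kind `S`. -/
abbrev TIdx (ι : Type) (c W : ℕ) (w : Finset ι → ℕ) : Type :=
  Σ S : Finset ι, Fin (w S * c ^ S.card / W)

/-- An intersecting weight function. -/
def Inter (w : Finset ι → ℕ) : Prop :=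
  ∀ S S', w S ≠ 0 → w S' ≠ 0 → (S ∩ S').Nonempty ∨ (S = ∅ ∧ S' = ∅)

end Pool.Agent.V7

end

section

/-!
# V7, block BETA: definitions of the tensor part

Slots `Fin k ⊕ Fin M` (`k = M - 1` in the application): the first `k` are the factors of
`B = (ℂ^c)^{⊗ k}`, the last `M` are `M` different blocks of `z`-variables.  `lam M c = c^M / C`,
`C = binom(2M-1, M)`.  The kinds are the `M`-subsets `S` of the slots; `S₀` is the set of the
`z`-slots.  A configuration `ω : Pts k M c` gives `lam` points for every `S` (only `|S| = M`,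
`S ≠ S₀` are used by `KE`).
-/

namespace Pool.Agent.V7.BE

open Finset MvPolynomial Pool.Agent.H51.TB Pool.Agent.V7

/-- The number of points of every kind. -/
def lam (M c : ℕ) : ℕ := c ^ M / (2 * M - 1).choose M

/-- The slots. -/
abbrev Slot (k M : ℕ) : Type := Fin k ⊕ Fin M

/-- The kind `S₀` of the type `[k]` points. -/
def S0 (k M : ℕ) : Finset (Slot k M) := univ.filter fun j => j.isRight

/-- Configurations of points. -/
abbrev Pts (k M c : ℕ) : Type := Finset (Slot k M) → Fin (lam M c) → Slot k M × Fin c → ℂ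

/-- The tensors with first index in `E` killed by all points of `ω` of the kinds `S ≠ S₀`. -/
noncomputable def KE {k M c : ℕ} (ω : Pts k M c) (E : Submodule ℂ ((Fin k → Fin c) → ℂ)) :
    Submodule ℂ ((Slot k M → Fin c) → ℂ) where
  carrier := {G | (∀ u : Fin M → Fin c, (fun s => G (Sum.elim s u)) ∈ E) ∧
    ∀ S : Finset (Slot k M), S.card = M → S ≠ S0 k M → ∀ t w, ctr S (ω S t) G w = 0}
  zero_mem' := by
    refine ⟨fun u => ?_, fun S _ _ t w => ?_⟩
    · exact E.zero_mem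
    · unfold ctr
      simp
  add_mem' := by
    rintro a b ⟨ha, ha'⟩ ⟨hb, hb'⟩
    refine ⟨fun u => E.add_mem (ha u) (hb u), fun S h1 h2 t w => ?_⟩
    have e : ctr S (ω S t) (a + b) w = ctr S (ω S t) a w + ctr S (ω S t) b w := by
      unfold ctr
      rw [← sum_add_distrib]
      refine sum_congr rfl fun e _ => ?_
      split_ifs
      · rw [Pi.add_apply, mul_add]
      · rw [add_zero]
    rw [e, ha' S h1 h2 t w, hb' S h1 h2 t w, add_zero]
  smul_mem' := by
    rintro x a ⟨ha, ha'⟩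
    refine ⟨fun u => E.smul_mem x (ha u), fun S h1 h2 t w => ?_⟩
    have e : ctr S (ω S t) (x • a) w = x * ctr S (ω S t) a w := by
      unfold ctr
      rw [mul_sum]
      refine sum_congr rfl fun e _ => ?_
      split_ifs
      · rw [Pi.smul_apply, smul_eq_mul]
        ring
      · rw [mul_zero]
    rw [e, ha' S h1 h2 t w, mul_zero]

/-- Configurations for `q` blocks: `lam` points for every set of `x`- and `z`-blocks. -/
abbrev PtsQ (k M c q : ℕ) : Type :=
  Finset (Fin k ⊕ Fin q) → Fin (lam M c) → (Fin k ⊕ Fin q) × Fin c → ℂ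

/-- The configuration induced on the blocks `α 0 < α 1 < ...`. -/
def res {k M c q : ℕ} (Ω : PtsQ k M c q) (α : Fin M ↪o Fin q) : Pts k M c :=
  fun S t x => Ω (S.map ((Function.Embedding.refl (Fin k)).sumMap α.toEmbedding)) t
    (Sum.map id α x.1, x.2)

end Pool.Agent.V7.BE

end

section

/-!
# V7, block BETA: semicontinuity and compactness

`Kx A σ E` is the space of `G : J → ℂ` with `A G = 0` all of whose slices `i ↦ G (σ u i)` lie in the
subspace `E` of `ι → ℂ`.  Its dimension is upper semicontinuous in `(A, E)`, and the subspaces `E` of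
dimension `e` are parametrised by the compact set of orthonormal `e`-frames.  Consequences:

* `Kx_near`: if `dim Kx (A x₀) σ E ≤ b (dim E)` for all `E` then this holds for all `x` near `x₀`;
* `Kx_cover`: if for every `E` there is an `x` with `dim Kx (A x) σ E ≤ b (dim E)`, then finitely many
  nonempty open sets of `x` suffice;
* `Gn.near`: a general statement holds at points arbitrarily near to a given one.
-/

namespace Pool.Agent.V7.BE

open Finset Matrix Topology

section Semi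

variable {X : Type*} [TopologicalSpace X] {J R : Type*} [Fintype J] [Fintype R]

/-- The dimension of the kernel is upper semicontinuous. -/
theorem ker_near (B : X → (J → ℂ) →ₗ[ℂ] (R → ℂ)) (hB : ∀ v, Continuous fun x => B x v) (x₀ : X) :
    ∀ᶠ x in 𝓝 x₀, Module.finrank ℂ (LinearMap.ker (B x)) ≤
      Module.finrank ℂ (LinearMap.ker (B x₀)) := by
  classical
  let b := Module.finBasis ℂ (LinearMap.range (B x₀))
  have hex : ∀ i, ∃ v, B x₀ v = (b i : R → ℂ) := fun i => (b i).2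
  choose v hv using hex
  have hli : LinearIndependent ℂ fun i => B x₀ (v i) := by
    have h1 : (fun i => B x₀ (v i)) = fun i => ((b i : LinearMap.range (B x₀)) : R → ℂ) :=
      funext hv
    rw [h1]
    exact b.linearIndependent.map' (LinearMap.range (B x₀)).subtype (Submodule.ker_subtype _)
  have hopen := isOpen_setOfPred_linearIndependent (𝕜 := ℂ) (E := R → ℂ)
    (ι := Fin (Module.finrank ℂ (LinearMap.range (B x₀))))
  have hcont : Continuous fun x => fun i => B x (v i) := continuous_pi fun i => hB (v i)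
  have hev : ∀ᶠ x in 𝓝 x₀, LinearIndependent ℂ fun i => B x (v i) :=
    hcont.continuousAt.eventually (hopen.mem_nhds hli)
  refine hev.mono fun x hx => ?_
  have h2 : Module.finrank ℂ (LinearMap.range (B x₀)) ≤ Module.finrank ℂ (LinearMap.range (B x)) := by
    have h3 : LinearIndependent ℂ fun i => (⟨B x (v i), v i, rfl⟩ : LinearMap.range (B x)) :=
      LinearIndependent.of_comp (LinearMap.range (B x)).subtype hx
    simpa using h3.fintype_card_le_finrank
  have h4 := LinearMap.finrank_range_add_finrank_ker (B x)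
  have h5 := LinearMap.finrank_range_add_finrank_ker (B x₀)
  omega

end Semi

section Frames

variable {ι : Type*} [Fintype ι]

/-- Orthonormal frames. -/
def Fr (ι : Type*) [Fintype ι] (e : ℕ) : Set (Matrix ι (Fin e) ℂ) := {Q | Qᴴ * Q = 1}

theorem Fr_compact (e : ℕ) : IsCompact (Fr ι e) := by
  have hcl : IsClosed (Fr ι e) := by
    refine isClosed_eq ?_ continuous_const
    exact (continuous_id.matrix_conjTranspose).matrix_mul continuous_id
  have hK : IsCompact (Set.pi Set.univ fun _ : ι => Set.pi Set.univ fun _ : Fin e =>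
      Metric.closedBall (0 : ℂ) 1) :=
    isCompact_univ_pi fun _ => isCompact_univ_pi fun _ => isCompact_closedBall _ _
  refine IsCompact.of_isClosed_subset (X := Matrix ι (Fin e) ℂ) hK hcl fun Q hQ i _ l _ => ?_
  have h1 : (Qᴴ * Q) l l = 1 := by
    have h2 : Qᴴ * Q = 1 := hQ
    rw [h2, Matrix.one_apply_eq]
  rw [Matrix.mul_apply] at h1
  have h3 : ∑ i, ‖Q i l‖ ^ 2 = (1 : ℝ) := by
    have h4 : ((∑ i, ‖Q i l‖ ^ 2 : ℝ) : ℂ) = 1 := by
      rw [← h1]
      push_cast
      refine Finset.sum_congr rfl fun j _ => ?_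
      rw [Matrix.conjTranspose_apply]
      exact (Complex.conj_mul' (Q j l)).symm
    exact_mod_cast h4
  rw [mem_closedBall_zero_iff]
  have h5 : ‖Q i l‖ ^ 2 ≤ 1 := by
    rw [← h3]
    exact Finset.single_le_sum (f := fun i => ‖Q i l‖ ^ 2) (fun j _ => by positivity)
      (Finset.mem_univ i)
  nlinarith [norm_nonneg (Q i l)]

/-- The subspace spanned by the columns of a frame. -/
def Fr.sp {e : ℕ} (Q : Matrix ι (Fin e) ℂ) : Submodule ℂ (ι → ℂ) := LinearMap.range Q.mulVecLin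

theorem Fr.finrank_sp {e : ℕ} {Q : Matrix ι (Fin e) ℂ} (hQ : Q ∈ Fr ι e) :
    Module.finrank ℂ (Fr.sp Q) = e := by
  have hinj : Function.Injective Q.mulVecLin := by
    intro v w hvw
    have h1 : Qᴴ *ᵥ (Q *ᵥ v) = Qᴴ *ᵥ (Q *ᵥ w) := by
      have : Q *ᵥ v = Q *ᵥ w := hvw
      rw [this]
    rw [Matrix.mulVec_mulVec, Matrix.mulVec_mulVec, show Qᴴ * Q = 1 from hQ, Matrix.one_mulVec,
      Matrix.one_mulVec] at h1
    exact h1
  unfold Fr.sp
  rw [LinearMap.finrank_range_of_inj hinj]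
  simp

theorem Fr.mem_sp {e : ℕ} {Q : Matrix ι (Fin e) ℂ} (hQ : Q ∈ Fr ι e) (v : ι → ℂ) :
    v ∈ Fr.sp Q ↔ Q *ᵥ (Qᴴ *ᵥ v) = v := by
  constructor
  · rintro ⟨w, rfl⟩
    show Q *ᵥ (Qᴴ *ᵥ (Q *ᵥ w)) = Q *ᵥ w
    rw [Matrix.mulVec_mulVec w Qᴴ Q, show Qᴴ * Q = 1 from hQ, Matrix.one_mulVec]
  · intro h
    exact ⟨Qᴴ *ᵥ v, h⟩

/-- Every subspace has an orthonormal frame. -/
theorem Fr.exists_frame (E : Submodule ℂ (ι → ℂ)) :
    ∃ Q ∈ Fr ι (Module.finrank ℂ E), Fr.sp Q = E := by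
  classical
  let φ : EuclideanSpace ℂ ι ≃ₗ[ℂ] (ι → ℂ) := WithLp.linearEquiv 2 ℂ (ι → ℂ)
  let E' : Submodule ℂ (EuclideanSpace ℂ ι) := E.comap φ.toLinearMap
  have hE' : Module.finrank ℂ E' = Module.finrank ℂ E := by
    have h1 : E' = E.map φ.symm.toLinearMap := by
      ext v
      constructor
      · intro hv
        exact ⟨φ v, hv, by simp⟩
      · rintro ⟨w, hw, rfl⟩
        show φ (φ.symm w) ∈ E
        rw [φ.apply_symm_apply]
        exact hw
    rw [h1]
    exact LinearEquiv.finrank_map_eq φ.symm E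
  let b0 := stdOrthonormalBasis ℂ E'
  let b := b0.reindex (finCongr hE')
  refine ⟨Matrix.of fun i l => φ (b l : EuclideanSpace ℂ ι) i, ?_, ?_⟩
  · show (Matrix.of fun i l => φ (b l : EuclideanSpace ℂ ι) i)ᴴ *
      (Matrix.of fun i l => φ (b l : EuclideanSpace ℂ ι) i) = 1
    ext l l'
    rw [Matrix.mul_apply]
    have h1 := b.orthonormal
    rw [orthonormal_iff_ite] at h1
    have h2 := h1 l l'
    rw [Submodule.coe_inner, PiLp.inner_apply] at h2
    rw [Matrix.one_apply, ← h2]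
    refine Finset.sum_congr rfl fun i _ => ?_
    rw [Matrix.conjTranspose_apply, Matrix.of_apply, Matrix.of_apply]
    show star _ * _ = _
    rw [mul_comm]
    rfl
  · apply le_antisymm
    · rintro _ ⟨w, rfl⟩
      have h3 : (Matrix.of fun i l => φ (b l : EuclideanSpace ℂ ι) i).mulVecLin w =
          ∑ l, w l • φ (b l : EuclideanSpace ℂ ι) := by
        ext i
        rw [Matrix.mulVecLin_apply, Matrix.mulVec, dotProduct, Finset.sum_apply]
        refine Finset.sum_congr rfl fun l _ => ?_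
        rw [Matrix.of_apply, Pi.smul_apply, smul_eq_mul, mul_comm]
      rw [h3]
      exact E.sum_mem fun l _ => E.smul_mem _ (b l).2
    · intro v hv
      have hv' : φ.symm v ∈ E' := by
        show φ (φ.symm v) ∈ E
        rw [φ.apply_symm_apply]
        exact hv
      have h4 := b.sum_repr ⟨φ.symm v, hv'⟩
      refine ⟨fun l => b.repr ⟨φ.symm v, hv'⟩ l, ?_⟩
      ext i
      rw [Matrix.mulVecLin_apply, Matrix.mulVec, dotProduct]
      have h5 := congrArg (fun x : E' => φ (x : EuclideanSpace ℂ ι) i) h4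
      simp only [Submodule.coe_sum, Submodule.coe_smul, map_sum, map_smul, Finset.sum_apply,
        Pi.smul_apply, smul_eq_mul, LinearEquiv.apply_symm_apply] at h5
      rw [← h5]
      refine Finset.sum_congr rfl fun l _ => ?_
      rw [Matrix.of_apply, mul_comm]

end Frames

section Kx

variable {X : Type*} [TopologicalSpace X] {J R U ι : Type*} [Fintype J]

/-- The `G : J → ℂ` with `A G = 0` and all slices in `E`. -/
def Kx (A : Matrix R J ℂ) (σ : U → ι → J) (E : Submodule ℂ (ι → ℂ)) : Submodule ℂ (J → ℂ) :=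
  (⨅ u, E.comap (LinearMap.funLeft ℂ ℂ (σ u))) ⊓ LinearMap.ker A.mulVecLin

theorem mem_Kx (A : Matrix R J ℂ) (σ : U → ι → J) (E : Submodule ℂ (ι → ℂ)) (G : J → ℂ) :
    G ∈ Kx A σ E ↔ (∀ u, (fun i => G (σ u i)) ∈ E) ∧ A *ᵥ G = 0 := by
  unfold Kx
  rw [Submodule.mem_inf, Submodule.mem_iInf, LinearMap.mem_ker, Matrix.mulVecLin_apply]
  rfl

variable [Fintype ι]

/-- The conditions for a frame. -/
noncomputable def Kmap {e : ℕ} (A : Matrix R J ℂ) (σ : U → ι → J) (Q : Matrix ι (Fin e) ℂ) :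
    (J → ℂ) →ₗ[ℂ] (R ⊕ (U × ι) → ℂ) where
  toFun G := Sum.elim (A *ᵥ G) fun x => (Q *ᵥ (Qᴴ *ᵥ fun i => G (σ x.1 i))) x.2 - G (σ x.1 x.2)
  map_add' G H := by
    funext x
    rcases x with ρ | ⟨u, i⟩
    · simp [Matrix.mulVec_add]
    · have h : (fun i => (G + H) (σ u i)) = (fun i => G (σ u i)) + fun i => H (σ u i) := rfl
      show (Q *ᵥ (Qᴴ *ᵥ fun i => (G + H) (σ u i))) i - (G (σ u i) + H (σ u i)) =
        ((Q *ᵥ (Qᴴ *ᵥ fun i => G (σ u i))) i - G (σ u i)) +
          ((Q *ᵥ (Qᴴ *ᵥ fun i => H (σ u i))) i - H (σ u i))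
      rw [h, Matrix.mulVec_add, Matrix.mulVec_add, Pi.add_apply]
      ring
  map_smul' c G := by
    funext x
    rcases x with ρ | ⟨u, i⟩
    · simp [Matrix.mulVec_smul]
    · have h : (fun i => (c • G) (σ u i)) = c • fun i => G (σ u i) := rfl
      show (Q *ᵥ (Qᴴ *ᵥ fun i => (c • G) (σ u i))) i - c * G (σ u i) =
        c * ((Q *ᵥ (Qᴴ *ᵥ fun i => G (σ u i))) i - G (σ u i))
      rw [h, Matrix.mulVec_smul, Matrix.mulVec_smul, Pi.smul_apply, smul_eq_mul]
      ring

theorem Kx_eq_ker {e : ℕ} (A : Matrix R J ℂ) (σ : U → ι → J) {Q : Matrix ι (Fin e) ℂ}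
    (hQ : Q ∈ Fr ι e) : Kx A σ (Fr.sp Q) = LinearMap.ker (Kmap A σ Q) := by
  ext G
  rw [mem_Kx, LinearMap.mem_ker]
  constructor
  · rintro ⟨h1, h2⟩
    funext x
    rcases x with ρ | ⟨u, i⟩
    · show (A *ᵥ G) ρ = 0
      rw [h2]
      rfl
    · show (Q *ᵥ (Qᴴ *ᵥ fun i => G (σ u i))) i - G (σ u i) = 0
      rw [(Fr.mem_sp hQ _).1 (h1 u), sub_self]
  · intro h
    refine ⟨fun u => (Fr.mem_sp hQ _).2 (funext fun i => ?_), funext fun ρ => ?_⟩
    · have h1 := congrFun h (Sum.inr (u, i))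
      exact sub_eq_zero.1 h1
    · exact congrFun h (Sum.inl ρ)

theorem Kmap_continuous {e : ℕ} (A : X → Matrix R J ℂ) (hA : Continuous A) (σ : U → ι → J)
    (G : J → ℂ) : Continuous fun x : X × Matrix ι (Fin e) ℂ => Kmap (A x.1) σ x.2 G := by
  refine continuous_pi fun y => ?_
  rcases y with ρ | ⟨u, i⟩
  · show Continuous fun x : X × Matrix ι (Fin e) ℂ => (A x.1 *ᵥ G) ρ
    have h1 : Continuous fun x : X × Matrix ι (Fin e) ℂ => A x.1 *ᵥ G :=
      (hA.comp continuous_fst).matrix_mulVec continuous_const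
    exact (continuous_apply ρ).comp h1
  · show Continuous fun x : X × Matrix ι (Fin e) ℂ =>
      (x.2 *ᵥ (x.2ᴴ *ᵥ fun i => G (σ u i))) i - G (σ u i)
    have h1 : Continuous fun x : X × Matrix ι (Fin e) ℂ => x.2 *ᵥ (x.2ᴴ *ᵥ fun i => G (σ u i)) :=
      continuous_snd.matrix_mulVec ((continuous_snd.matrix_conjTranspose).matrix_mulVec
        continuous_const)
    exact ((continuous_apply i).comp h1).sub continuous_const

variable [Fintype R] [Fintype U]

theorem Kx_near_frame {e : ℕ} (A : X → Matrix R J ℂ) (hA : Continuous A) (σ : U → ι → J) (b : ℕ)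
    (x₀ : X) {Q₀ : Matrix ι (Fin e) ℂ} (hQ₀ : Q₀ ∈ Fr ι e)
    (h : Module.finrank ℂ (Kx (A x₀) σ (Fr.sp Q₀)) ≤ b) :
    ∀ᶠ z : X × Matrix ι (Fin e) ℂ in 𝓝 (x₀, Q₀), z.2 ∈ Fr ι e →
      Module.finrank ℂ (Kx (A z.1) σ (Fr.sp z.2)) ≤ b := by
  have h1 := ker_near (fun z : X × Matrix ι (Fin e) ℂ => Kmap (A z.1) σ z.2)
    (fun G => Kmap_continuous A hA σ G) (x₀, Q₀)
  refine h1.mono fun z hz hzF => ?_
  rw [Kx_eq_ker _ _ hzF]
  rw [Kx_eq_ker _ _ hQ₀] at h
  exact hz.trans h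

/-- Openness of a bound for all subspaces. -/
theorem Kx_near (A : X → Matrix R J ℂ) (hA : Continuous A) (σ : U → ι → J) (b : ℕ → ℕ)
    (x₀ : X) (h : ∀ E : Submodule ℂ (ι → ℂ),
      Module.finrank ℂ (Kx (A x₀) σ E) ≤ b (Module.finrank ℂ E)) :
    ∀ᶠ x in 𝓝 x₀, ∀ E : Submodule ℂ (ι → ℂ),
      Module.finrank ℂ (Kx (A x) σ E) ≤ b (Module.finrank ℂ E) := by
  have h1 : ∀ e ∈ Finset.range (Fintype.card ι + 1), ∀ᶠ x in 𝓝 x₀, ∀ Q ∈ Fr ι e,
      Q ∈ Fr ι e → Module.finrank ℂ (Kx (A x) σ (Fr.sp Q)) ≤ b e := by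
    intro e _
    refine IsCompact.eventually_forall_of_forall_eventually (Y := Matrix ι (Fin e) ℂ)
      (P := fun x Q => Q ∈ Fr ι e → Module.finrank ℂ (Kx (A x) σ (Fr.sp Q)) ≤ b e)
      (Fr_compact e) fun Q hQ => ?_
    have h2 := h (Fr.sp Q)
    rw [Fr.finrank_sp hQ] at h2
    exact Kx_near_frame A hA σ (b e) x₀ hQ h2
  have h3 := (Finset.eventually_all _).2 h1
  refine h3.mono fun x hx E => ?_
  obtain ⟨Q, hQ, hQE⟩ := Fr.exists_frame E
  have h4 : Module.finrank ℂ E ∈ Finset.range (Fintype.card ι + 1) := by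
    rw [Finset.mem_range, Nat.lt_succ_iff]
    have := Submodule.finrank_le E
    simpa using this
  have h5 := hx _ h4 Q hQ hQ
  rwa [hQE] at h5

/-- Finitely many open sets suffice for all subspaces. -/
theorem Kx_cover (A : X → Matrix R J ℂ) (hA : Continuous A) (σ : U → ι → J) (b : ℕ → ℕ)
    (h : ∀ E : Submodule ℂ (ι → ℂ), ∃ x,
      Module.finrank ℂ (Kx (A x) σ E) ≤ b (Module.finrank ℂ E)) :
    ∃ r : ℕ, 0 < r ∧ ∃ W : Fin r → Set X, (∀ s, IsOpen (W s) ∧ (W s).Nonempty) ∧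
      ∀ E : Submodule ℂ (ι → ℂ), ∃ s, ∀ x ∈ W s,
        Module.finrank ℂ (Kx (A x) σ E) ≤ b (Module.finrank ℂ E) := by
  classical
  -- one dimension
  have h1 : ∀ e : ℕ, ∃ F : Set (Set X), F.Finite ∧ (∀ W ∈ F, IsOpen W ∧ W.Nonempty) ∧
      ∀ Q ∈ Fr ι e, ∃ W ∈ F, ∀ x ∈ W, Module.finrank ℂ (Kx (A x) σ (Fr.sp Q)) ≤ b e := by
    intro e
    have h2 : ∀ Q : Matrix ι (Fin e) ℂ, ∃ W : Set X, ∃ V : Set (Matrix ι (Fin e) ℂ),
        IsOpen W ∧ W.Nonempty ∧ (Q ∈ Fr ι e → V ∈ 𝓝 Q) ∧ ∀ x ∈ W, ∀ Q' ∈ V, Q' ∈ Fr ι e →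
          Module.finrank ℂ (Kx (A x) σ (Fr.sp Q')) ≤ b e := by
      intro Q
      by_cases hQ : Q ∈ Fr ι e
      · obtain ⟨x, hx⟩ := h (Fr.sp Q)
        rw [Fr.finrank_sp hQ] at hx
        have h3 := Kx_near_frame A hA σ (b e) x hQ hx
        rw [nhds_prod_eq] at h3
        obtain ⟨pa, hpa, pb, hpb, hab⟩ := Filter.eventually_prod_iff.1 h3
        obtain ⟨W, hW1, hW2, hW3⟩ := eventually_nhds_iff.1 hpa
        refine ⟨W, {Q' | pb Q'}, hW2, ⟨x, hW3⟩, fun _ => hpb, fun y hy Q' hQ' hF => ?_⟩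
        exact hab (hW1 y hy) hQ' hF
      · obtain ⟨x, hx⟩ := h ⊥
        exact ⟨Set.univ, ∅, isOpen_univ, ⟨x, trivial⟩, fun hQ' => absurd hQ' hQ,
          fun _ _ Q' hQ' => absurd hQ' (Set.notMem_empty _)⟩
    choose W V hW1 hW2 hV hWV using h2
    obtain ⟨t, ht1, ht2⟩ := IsCompact.elim_nhds_subcover (X := Matrix ι (Fin e) ℂ)
      (Fr_compact e) V fun Q hQ => hV Q hQ
    refine ⟨W '' (t : Set (Matrix ι (Fin e) ℂ)), t.finite_toSet.image _, ?_, fun Q hQ => ?_⟩
    · rintro _ ⟨Q, _, rfl⟩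
      exact ⟨hW1 Q, hW2 Q⟩
    · obtain ⟨Q₁, hQ₁, hQV⟩ := Set.mem_iUnion₂.1 (ht2 hQ)
      exact ⟨W Q₁, ⟨Q₁, hQ₁, rfl⟩, fun x hx => hWV Q₁ x hx Q hQV hQ⟩
  choose F hF1 hF2 hF3 using h1
  let G : Set (Set X) := ⋃ e ∈ Finset.range (Fintype.card ι + 1), F e
  have hG : G.Finite := Set.Finite.biUnion (Finset.finite_toSet _) fun e _ => hF1 e
  have hcov : ∀ E : Submodule ℂ (ι → ℂ), ∃ W ∈ G, ∀ x ∈ W,
      Module.finrank ℂ (Kx (A x) σ E) ≤ b (Module.finrank ℂ E) := by
    intro E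
    obtain ⟨Q, hQ, hQE⟩ := Fr.exists_frame E
    have h4 : Module.finrank ℂ E ∈ Finset.range (Fintype.card ι + 1) := by
      rw [Finset.mem_range, Nat.lt_succ_iff]
      have := Submodule.finrank_le E
      simpa using this
    obtain ⟨W, hW, h5⟩ := hF3 _ Q hQ
    rw [hQE] at h5
    exact ⟨W, Set.mem_iUnion₂.2 ⟨_, h4, hW⟩, h5⟩
  have hGne : G.Nonempty := by
    obtain ⟨W, hW, _⟩ := hcov ⊥
    exact ⟨W, hW⟩
  have := hG.fintype
  have hne : Nonempty G := hGne.to_subtype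
  refine ⟨Fintype.card G, Fintype.card_pos, fun s => ((Fintype.equivFin G).symm s : Set X),
    fun s => ?_, fun E => ?_⟩
  · obtain ⟨e, _, he⟩ := Set.mem_iUnion₂.1 ((Fintype.equivFin G).symm s).2
    exact hF2 e _ he
  · obtain ⟨W, hW, h5⟩ := hcov E
    refine ⟨Fintype.equivFin G ⟨W, hW⟩, fun x hx => h5 x ?_⟩
    have h6 : (Fintype.equivFin G).symm (Fintype.equivFin G ⟨W, hW⟩) = ⟨W, hW⟩ :=
      Equiv.symm_apply_apply _ _
    have h7 : x ∈ (((Fintype.equivFin G).symm (Fintype.equivFin G ⟨W, hW⟩) : G) : Set X) := hx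
    rwa [h6] at h7

end Kx

section Near

open Pool.Agent.H51.TB MvPolynomial

/-- A general statement holds at points arbitrarily near to any given point. -/
theorem Gn.near {κ ν : Type} [Finite κ] [Finite ν] {P : (κ → ν → ℂ) → Prop} (h : Gn κ ν P)
    (p₀ : κ → ν → ℂ) (U : Set (κ → ν → ℂ)) (hU : U ∈ 𝓝 p₀) : ∃ p ∈ U, P p := by
  obtain ⟨G, hG0, hG⟩ := h
  obtain ⟨a, ha⟩ : ∃ a : κ × ν → ℂ, eval a G ≠ 0 := by
    by_contra hcon
    push Not at hcon
    exact hG0 (MvPolynomial.funext fun a => by rw [hcon a, map_zero])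
  -- the polynomial on the line
  let g : Polynomial ℂ := aeval (fun x : κ × ν =>
    Polynomial.C (p₀ x.1 x.2) + Polynomial.X * Polynomial.C (a x - p₀ x.1 x.2)) G
  have hg : ∀ t : ℂ, g.eval t = eval (fun x => p₀ x.1 x.2 + t * (a x - p₀ x.1 x.2)) G := by
    intro t
    have h1 : g.eval t = (Polynomial.evalRingHom t) (aeval (fun x : κ × ν =>
      Polynomial.C (p₀ x.1 x.2) + Polynomial.X * Polynomial.C (a x - p₀ x.1 x.2)) G) := rfl
    rw [h1, aeval_def, hom_eval₂]
    rw [show (Polynomial.evalRingHom t).comp (algebraMap ℂ (Polynomial ℂ)) = RingHom.id ℂ by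
      ext x
      · simp
      ]
    rw [← eval₂_id]
    congr 1
    funext x
    simp
  have hg0 : g ≠ 0 := by
    intro h0
    have h1 := hg 1
    rw [h0, Polynomial.eval_zero] at h1
    apply ha
    rw [show a = fun x => p₀ x.1 x.2 + 1 * (a x - p₀ x.1 x.2) by funext x; ring]
    exact h1.symm
  have hline : Continuous fun t : ℂ => fun i j => p₀ i j + t * (a (i, j) - p₀ i j) :=
    continuous_pi fun i => continuous_pi fun j => by fun_prop
  have hev : ∀ᶠ t in 𝓝 (0 : ℂ), (fun i j => p₀ i j + t * (a (i, j) - p₀ i j)) ∈ U := by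
    refine hline.continuousAt.eventually ?_
    simpa using hU
  have hroots : ∀ᶠ t in 𝓝[≠] (0 : ℂ), g.eval t ≠ 0 := by
    have hfin : {t : ℂ | g.eval t = 0}.Finite := by
      refine (g.roots.toFinset.finite_toSet).subset fun t ht => ?_
      simp only [Finset.mem_coe, Multiset.mem_toFinset, Polynomial.mem_roots hg0]
      exact ht
    have h2 : ∀ᶠ t in 𝓝[≠] (0 : ℂ), t ∉ {t : ℂ | g.eval t = 0} \ {0} := by
      have h3 : IsOpen (({t : ℂ | g.eval t = 0} \ {0})ᶜ) := (hfin.sdiff).isClosed.isOpen_compl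
      exact Filter.Eventually.filter_mono nhdsWithin_le_nhds (h3.mem_nhds (by simp))
    refine (h2.and self_mem_nhdsWithin).mono fun t ht ht0 => ht.1 ⟨ht0, ht.2⟩
  obtain ⟨t, ht1, ht2⟩ := ((Filter.Eventually.filter_mono nhdsWithin_le_nhds hev).and hroots).exists
  refine ⟨_, ht1, hG _ ?_⟩
  rw [hg t] at ht2
  exact ht2

end Near

end Pool.Agent.V7.BE

end
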