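import Mathlib

/-! The parts of this file: H21.HD.Defs, H21.HD.Defs2. -/

section

/-!
Project HD (general fat points in high dimension): definitions, part 1.
-/

namespace Pool.Agent.H21.HD

open MvPolynomial
open scoped Classical

/-- The linear form with coefficient vector `v`. -/
noncomputable def lin {σ : Type*} [Fintype σ] (v : σ → ℂ) : MvPolynomial σ ℂ :=
  ∑ s, C (v s) * X s

/-- The degree `d` part of the ideal generated by the powers `lin (v p) ^ e p`. -/
noncomputable def powSpan {σ P : Type*} [Fintype σ] (d : ℕ) (v : P → σ → ℂ) (e : P → ℕ) :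
    Submodule ℂ (MvPolynomial σ ℂ) :=
  Submodule.span ℂ {F | ∃ p, ∃ g : MvPolynomial σ ℂ, e p ≤ d ∧ g.IsHomogeneous (d - e p) ∧
    F = g * lin (v p) ^ e p}

/-- The powers `lin (v p) ^ e p` are independent in degree `d`. -/
def Indep {σ P : Type*} [Fintype σ] [Fintype P] (d : ℕ) (v : P → σ → ℂ) (e : P → ℕ) : Prop :=
  ∀ g : P → MvPolynomial σ ℂ, (∀ p, (g p).IsHomogeneous (d - e p)) →
    ∑ p, g p * lin (v p) ^ e p = 0 → ∀ p, g p = 0

/-- `φ_0 = 1` and `φ_{j+1} = φ_j - ∑_{e ≤ j} κ_{e+1} binom(j, e) φ_{j-e}`; thus `φ_j / j!` is the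
coefficient of `t^j` in `exp (t - ∑_e κ_e t^e / e!)`. -/
noncomputable def phi (κ : ℕ → ℝ) : ℕ → ℝ
  | 0 => 1
  | (j + 1) => phi κ j - ∑ e : Fin (j + 1), κ (e + 1) * (j.choose e : ℝ) * phi κ (j - e)

/-- `fro r e I j = ∑_{T ⊆ I} (-1)^{|T|} binom(r + j - ∑_T e, r)`, the coefficient of `t^j` in
`∏_{i ∈ I} (1 - t^{e i}) / (1 - t)^{r+1}`. -/
def fro {P : Type*} (r : ℕ) (e : P → ℕ) (I : Finset P) (j : ℕ) : ℤ :=
  ∑ T ∈ I.powerset, (-1) ^ T.card *
    (if ∑ i ∈ T, e i ≤ j then ((r + j - ∑ i ∈ T, e i).choose r : ℤ) else 0)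

/-- The load of the exponent `i`. -/
noncomputable def load {P : Type} (r : ℕ) (e : P → ℕ) (I : Finset P) (i : ℕ) : ℝ :=
  (i.factorial : ℝ) * ((I.filter (fun p => e p = i)).card : ℝ) / ((r : ℝ) + 1) ^ i

/-- The function `f` depends only on the coordinates in `T`. -/
def DepOn {ι : Type*} {B : ι → Type*} (T : Finset ι) (f : (∀ i, B i) → ℂ) : Prop :=
  ∀ x y, (∀ i ∈ T, x i = y i) → f x = f y

/-- The function `F` is polynomial in the parameters. -/
def PolyFun {σ : Type*} (F : (σ → ℂ) → ℂ) : Prop := ∃ N : MvPolynomial σ ℂ, ∀ x, F x = eval x N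

theorem PolyFun.const {σ : Type*} (c : ℂ) : PolyFun (fun _ : σ → ℂ => c) := ⟨C c, by simp⟩

theorem PolyFun.coord {σ : Type*} (s : σ) : PolyFun (fun x : σ → ℂ => x s) := ⟨X s, by simp⟩

theorem PolyFun.add {σ : Type*} {F G : (σ → ℂ) → ℂ} (hF : PolyFun F) (hG : PolyFun G) :
    PolyFun (fun x => F x + G x) := by
  obtain ⟨M, hM⟩ := hF
  obtain ⟨N, hN⟩ := hG
  exact ⟨M + N, fun x => by simp only [map_add, hM, hN]⟩

theorem PolyFun.mul {σ : Type*} {F G : (σ → ℂ) → ℂ} (hF : PolyFun F) (hG : PolyFun G) :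
    PolyFun (fun x => F x * G x) := by
  obtain ⟨M, hM⟩ := hF
  obtain ⟨N, hN⟩ := hG
  exact ⟨M * N, fun x => by simp only [map_mul, hM, hN]⟩

theorem PolyFun.sum {σ κ : Type*} (S : Finset κ) (F : κ → (σ → ℂ) → ℂ)
    (hF : ∀ k ∈ S, PolyFun (F k)) : PolyFun (fun x => ∑ k ∈ S, F k x) := by
  classical
  induction S using Finset.induction_on with
  | empty => simpa using PolyFun.const (σ := σ) 0
  | insert a s ha ih =>
    have h1 := hF a (Finset.mem_insert_self a s)
    have h2 := ih fun k hk => hF k (Finset.mem_insert_of_mem hk)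
    have h3 := h1.add h2
    have h4 : (fun x => ∑ k ∈ insert a s, F k x) = fun x => F a x + ∑ k ∈ s, F k x := by
      funext x
      rw [Finset.sum_insert ha]
    rw [h4]
    exact h3

theorem PolyFun.prod {σ κ : Type*} (S : Finset κ) (F : κ → (σ → ℂ) → ℂ)
    (hF : ∀ k ∈ S, PolyFun (F k)) : PolyFun (fun x => ∏ k ∈ S, F k x) := by
  classical
  induction S using Finset.induction_on with
  | empty => simpa using PolyFun.const (σ := σ) 1
  | insert a s ha ih =>
    have h1 := hF a (Finset.mem_insert_self a s)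
    have h2 := ih fun k hk => hF k (Finset.mem_insert_of_mem hk)
    have h3 := h1.mul h2
    have h4 : (fun x => ∏ k ∈ insert a s, F k x) = fun x => F a x * ∏ k ∈ s, F k x := by
      funext x
      rw [Finset.prod_insert ha]
    rw [h4]
    exact h3

/-- Finitely many nonzero polynomials have a common point of nonvanishing. -/
theorem exists_common {σ κ : Type*} (S : Finset κ) (G : κ → MvPolynomial σ ℂ)
    (hG : ∀ i ∈ S, G i ≠ 0) : ∃ x : σ → ℂ, ∀ i ∈ S, eval x (G i) ≠ 0 := by
  classical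
  have h1 : ∏ i ∈ S, G i ≠ 0 := Finset.prod_ne_zero_iff.2 hG
  obtain ⟨x, hx⟩ : ∃ x : σ → ℂ, eval x (∏ i ∈ S, G i) ≠ 0 := by
    by_contra hcon
    push Not at hcon
    apply h1
    apply MvPolynomial.funext
    intro x
    rw [hcon x, map_zero]
  refine ⟨x, fun i hi => ?_⟩
  rw [map_prod] at hx
  exact Finset.prod_ne_zero_iff.1 hx i hi

end Pool.Agent.H21.HD

end

section

/-!
Project HD: definitions, part 2 (set functionals, product functions).
-/

namespace Pool.Agent.H21.HD

open MvPolynomial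
open scoped Classical

section

variable {ι : Type*}

/-- The subsets of `Q` that contain `p`. -/
noncomputable def subs (Q : Finset ι) (p : ι) : Finset (Finset ι) :=
  Q.powerset.filter (fun T => p ∈ T)

lemma mem_subs {Q : Finset ι} {p : ι} {T : Finset ι} : T ∈ subs Q p ↔ T ⊆ Q ∧ p ∈ T := by
  unfold subs
  rw [Finset.mem_filter, Finset.mem_powerset]

lemma card_sdiff_lt' {Q T : Finset ι} {p : ι} (hT : T ⊆ Q) (hp : p ∈ T) :
    (Q \ T).card < Q.card :=
  Finset.card_lt_card (Finset.sdiff_ssubset hT ⟨p, hp⟩)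

/-- Sum over set partitions of the products of the weights of the parts. -/
noncomputable def EEr (W : Finset ι → ℝ) (Q : Finset ι) : ℝ :=
  if h : Q.Nonempty then
    ∑ T : {T : Finset ι // T ∈ subs Q h.choose}, W T.1 * EEr W (Q \ T.1)
  else 1
termination_by Q.card
decreasing_by exact card_sdiff_lt' (mem_subs.mp T.2).1 (mem_subs.mp T.2).2

/-- The functional `FF`. -/
noncomputable def FF (lam : Finset ι → ℝ) (J : Finset ι) : ℝ :=
  EEr (fun T => (if T.card = 1 then 1 else 0) - lam T) J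

end

/-- Every function of the coordinates in `J` is a sum of multiples of the products
`∏_{i ∈ c p} v p i (y i)`, the multipliers depending only on the other coordinates in `J`. -/
def SpanGood {ι A α : Type} (J : Finset ι) (P : Finset α) (c : α → Finset ι)
    (v : α → ι → A → ℂ) : Prop :=
  ∀ f : (ι → A) → ℂ, DepOn J f → ∃ κ : α → (ι → A) → ℂ,
    (∀ p ∈ P, DepOn (J \ c p) (κ p)) ∧
      ∀ y, f y = ∑ p ∈ P, (∏ i ∈ c p, v p i (y i)) * κ p y

/-- The data: `P` ordinary points with types `c p`, `Q` special points with types `c q`, thresholds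
`f q` and reference points `ref q`. For an ordinary point the function `κ p` does not depend on
the coordinates in `c p`; for a special point `κ q y ≠ 0` only if at least `f q` of the coordinates
`y i`, `i ∈ c q`, equal the reference value `pt i (ref q i)`. -/
def Good {ι A α : Type} {B : ι → Type} (pt : ∀ i, A → B i) (N : ∀ i, B i → MvPolynomial A ℂ)
    (J : Finset ι) (P Q : Finset α) (c : α → Finset ι) (f : α → ℕ) (ref : α → ι → A)
    (v : α → ι → A → ℂ) : Prop :=
  ∀ κ : α → (∀ i, B i) → ℂ, (∀ p ∈ P, DepOn (J \ c p) (κ p)) → (∀ q ∈ Q, DepOn J (κ q)) →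
    (∀ q ∈ Q, ∀ y, κ q y ≠ 0 → f q ≤ ((c q).filter (fun i => y i = pt i (ref q i))).card) →
    (∀ y, ∑ p ∈ P, (∏ i ∈ c p, eval (v p i) (N i (y i))) * κ p y + ∑ q ∈ Q, κ q y = 0) →
    (∀ p ∈ P, κ p = 0) ∧ ∀ q ∈ Q, κ q = 0

end Pool.Agent.H21.HD

end
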