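import Pool.Agent.H94.LP7.H51.TB.Sys
import Pool.Agent.H94.LP7.M05

/-! The parts of this file: H21.HD.FFl, H51.TB.Gn, H51.TB.Gd. -/

section

/-!
The functional FF.
-/

namespace Pool.Agent.H21.HD

open scoped Classical

variable {ι : Type*}

lemma FFlX.EEr_empty (W : Finset ι → ℝ) : EEr W ∅ = 1 := by
  rw [EEr]
  simp

lemma FFlX.EEr_choose (W : Finset ι → ℝ) (Q : Finset ι) (h : Q.Nonempty) :
    EEr W Q = ∑ T ∈ subs Q h.choose, W T * EEr W (Q \ T) := by
  rw [EEr, dif_pos h]
  exact Finset.sum_coe_sort (subs Q h.choose) (fun T => W T * EEr W (Q \ T))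

/-- The recursion holds for every element. -/
lemma FFlX.EEr_rec (W : Finset ι → ℝ) : ∀ (n : ℕ) (Q : Finset ι), Q.card = n → ∀ p ∈ Q,
    EEr W Q = ∑ T ∈ subs Q p, W T * EEr W (Q \ T) := by
  intro n
  induction n using Nat.strong_induction_on with
  | _ n ih =>
    intro Q hQ p hp
    have hne : Q.Nonempty := ⟨p, hp⟩
    rw [FFlX.EEr_choose W Q hne]
    set q := hne.choose with hq
    have hqQ : q ∈ Q := hne.choose_spec
    have key : ∀ a ∈ Q, ∀ b ∈ Q, ∑ T ∈ subs Q a, W T * EEr W (Q \ T) =
        ∑ T ∈ (subs Q a).filter (fun T => b ∈ T), W T * EEr W (Q \ T) +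
        ∑ T ∈ (subs Q a).filter (fun T => b ∉ T), ∑ T' ∈ subs (Q \ T) b,
          W T * (W T' * EEr W ((Q \ T) \ T')) := by
      intro a ha b hb
      rw [← Finset.sum_filter_add_sum_filter_not (subs Q a) (fun T => b ∈ T)]
      congr 1
      refine Finset.sum_congr rfl fun T hT => ?_
      rw [Finset.mem_filter, mem_subs] at hT
      rw [ih _ (by rw [← hQ]; exact card_sdiff_lt' hT.1.1 hT.1.2) (Q \ T) rfl b
        (Finset.mem_sdiff.mpr ⟨hb, hT.2⟩), Finset.mul_sum]
    rw [key q hqQ p hp, key p hp q hqQ]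
    congr 1
    · refine Finset.sum_congr ?_ fun _ _ => rfl
      ext T
      rw [Finset.mem_filter, Finset.mem_filter, mem_subs, mem_subs]
      tauto
    · rw [Finset.sum_sigma', Finset.sum_sigma']
      refine Finset.sum_nbij' (fun x => ⟨x.2, x.1⟩) (fun x => ⟨x.2, x.1⟩) ?_ ?_ ?_ ?_ ?_
      · rintro ⟨T, T'⟩ hx
        rw [Finset.mem_sigma, Finset.mem_filter, mem_subs, mem_subs] at hx
        obtain ⟨⟨⟨h1, h2⟩, h3⟩, h4, h5⟩ := hx
        simp only at h1 h2 h3 h4 h5
        rw [Finset.mem_sigma, Finset.mem_filter, mem_subs, mem_subs]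
        have hdisj : Disjoint T T' := by
          rw [Finset.disjoint_right]
          intro y hy hyT
          exact (Finset.mem_sdiff.mp (h4 hy)).2 hyT
        refine ⟨⟨⟨h4.trans Finset.sdiff_subset, h5⟩, ?_⟩, ?_, h2⟩
        · intro hqT'
          exact (Finset.disjoint_left.mp hdisj h2) hqT'
        · intro y hy
          exact Finset.mem_sdiff.mpr ⟨h1 hy, fun h => (Finset.disjoint_left.mp hdisj hy) h⟩
      · rintro ⟨T, T'⟩ hx
        rw [Finset.mem_sigma, Finset.mem_filter, mem_subs, mem_subs] at hx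
        obtain ⟨⟨⟨h1, h2⟩, h3⟩, h4, h5⟩ := hx
        simp only at h1 h2 h3 h4 h5
        rw [Finset.mem_sigma, Finset.mem_filter, mem_subs, mem_subs]
        have hdisj : Disjoint T T' := by
          rw [Finset.disjoint_right]
          intro y hy hyT
          exact (Finset.mem_sdiff.mp (h4 hy)).2 hyT
        refine ⟨⟨⟨h4.trans Finset.sdiff_subset, h5⟩, ?_⟩, ?_, h2⟩
        · intro hqT'
          exact (Finset.disjoint_left.mp hdisj h2) hqT'
        · intro y hy
          exact Finset.mem_sdiff.mpr ⟨h1 hy, fun h => (Finset.disjoint_left.mp hdisj hy) h⟩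
      · rintro ⟨T, T'⟩ _; rfl
      · rintro ⟨T, T'⟩ _; rfl
      · rintro ⟨T, T'⟩ _
        simp only
        rw [sdiff_sdiff_comm]
        ring

lemma FFlX.EEr_rec' (W : Finset ι → ℝ) (Q : Finset ι) (p : ι) (hp : p ∈ Q) :
    EEr W Q = ∑ T ∈ subs Q p, W T * EEr W (Q \ T) :=
  FFlX.EEr_rec W _ Q rfl p hp

lemma FFlX.EEr_congr {W W' : Finset ι → ℝ} : ∀ (n : ℕ) (Q : Finset ι), Q.card = n →
    (∀ T ⊆ Q, T.Nonempty → W T = W' T) → EEr W Q = EEr W' Q := by
  intro n
  induction n using Nat.strong_induction_on with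
  | _ n ih =>
    intro Q hQ h
    by_cases hne : Q.Nonempty
    · obtain ⟨p, hp⟩ := hne
      rw [FFlX.EEr_rec' W Q p hp, FFlX.EEr_rec' W' Q p hp]
      refine Finset.sum_congr rfl fun T hT => ?_
      rw [mem_subs] at hT
      rw [h T hT.1 ⟨p, hT.2⟩, ih _ (by rw [← hQ]; exact card_sdiff_lt' hT.1 hT.2) (Q \ T) rfl
        (fun T' hT' => h T' (hT'.trans Finset.sdiff_subset))]
    · rw [Finset.not_nonempty_iff_eq_empty] at hne
      rw [hne, FFlX.EEr_empty, FFlX.EEr_empty]

lemma FF_empty (lam : Finset ι → ℝ) : FF lam ∅ = 1 := by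
  unfold FF
  exact FFlX.EEr_empty _

/-- The recursion, for every element `i` of `J`. -/
lemma FF_rec (lam : Finset ι → ℝ) (J : Finset ι) (i : ι) (hi : i ∈ J) :
    FF lam J = FF lam (J.erase i) - ∑ T ∈ subs J i, lam T * FF lam (J \ T) := by
  have h1 : FF lam J = ∑ T ∈ subs J i, ((if T.card = 1 then 1 else 0) - lam T) *
      FF lam (J \ T) := by
    unfold FF
    exact FFlX.EEr_rec' _ J i hi
  rw [h1]
  simp only [sub_mul, Finset.sum_sub_distrib]
  congr 1
  have h2 : ∑ T ∈ subs J i, (if T.card = 1 then (1 : ℝ) else 0) * FF lam (J \ T) =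
      ∑ T ∈ subs J i, if T = {i} then FF lam (J \ {i}) else 0 := by
    refine Finset.sum_congr rfl fun T hT => ?_
    rw [mem_subs] at hT
    by_cases hc : T.card = 1
    · obtain ⟨j, rfl⟩ := Finset.card_eq_one.mp hc
      have hij : i = j := Finset.mem_singleton.mp hT.2
      subst hij
      simp
    · have hne : T ≠ {i} := by
        rintro rfl
        exact hc (Finset.card_singleton i)
      rw [if_neg hc, if_neg hne, zero_mul]
  rw [h2, Finset.sum_ite_eq', if_pos]
  · rw [Finset.sdiff_singleton_eq_erase]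
  · rw [mem_subs]
    exact ⟨Finset.singleton_subset_iff.mpr hi, Finset.mem_singleton_self i⟩

lemma FF_congr {lam lam' : Finset ι → ℝ} (J : Finset ι)
    (h : ∀ T ⊆ J, T.Nonempty → lam T = lam' T) : FF lam J = FF lam' J := by
  unfold FF
  exact FFlX.EEr_congr _ J rfl fun T hT hne => by rw [h T hT hne]

/-- `FF` is affine in each of its arguments. -/
lemma FF_add {lam lam' : Finset ι → ℝ} (J T₀ : Finset ι) (hT₀ : T₀.Nonempty) (hJ : T₀ ⊆ J)
    (μ : ℝ) (h1 : lam' T₀ = lam T₀ + μ) (h2 : ∀ T, T ≠ T₀ → lam' T = lam T) :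
    FF lam' J = FF lam J - μ * FF lam (J \ T₀) := by
  obtain ⟨p, hp⟩ := hT₀
  rw [FF_rec lam' J p (hJ hp), FF_rec lam J p (hJ hp)]
  have e1 : FF lam' (J.erase p) = FF lam (J.erase p) := by
    refine FF_congr _ fun T hT _ => h2 T ?_
    rintro rfl
    exact (Finset.notMem_erase p J) (hT hp)
  have e2 : ∑ T ∈ subs J p, lam' T * FF lam' (J \ T) =
      ∑ T ∈ subs J p, (lam T * FF lam (J \ T) + if T = T₀ then μ * FF lam (J \ T₀) else 0) := by
    refine Finset.sum_congr rfl fun T hT => ?_
    rw [mem_subs] at hT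
    have e3 : FF lam' (J \ T) = FF lam (J \ T) := by
      refine FF_congr _ fun T' hT' _ => h2 T' ?_
      rintro rfl
      exact (Finset.mem_sdiff.mp (hT' hp)).2 hT.2
    rw [e3]
    by_cases hc : T = T₀
    · rw [if_pos hc, hc, h1]
      ring
    · rw [if_neg hc, h2 T hc]
      ring
  rw [e1, e2, Finset.sum_add_distrib, Finset.sum_ite_eq', if_pos (mem_subs.mpr ⟨hJ, hp⟩)]
  ring

/-- For loads that depend only on the cardinality the functional is `phi`. -/
lemma FF_card (κ : ℕ → ℝ) (J : Finset ι) (lam : Finset ι → ℝ)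
    (h : ∀ T ⊆ J, T.Nonempty → lam T = κ T.card) : FF lam J = phi κ J.card := by
  have main : ∀ (n : ℕ) (J : Finset ι), J.card = n →
      (∀ T ⊆ J, T.Nonempty → lam T = κ T.card) → FF lam J = phi κ n := by
    intro n
    induction n using Nat.strong_induction_on with
    | _ n ih =>
      intro J hJ h
      by_cases hne : J.Nonempty
      · obtain ⟨i, hi⟩ := hne
        obtain ⟨m, rfl⟩ : ∃ m, n = m + 1 :=
          Nat.exists_eq_succ_of_ne_zero (by rw [← hJ]; exact Finset.card_ne_zero_of_mem hi)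
        have hce : (J.erase i).card = m := by
          rw [Finset.card_erase_of_mem hi, hJ]; rfl
        rw [FF_rec lam J i hi, phi]
        congr 1
        · exact ih m (Nat.lt_succ_self m) _ hce
            fun T hT hT' => h T (hT.trans (Finset.erase_subset i J)) hT'
        · have e1 : ∑ T ∈ subs J i, lam T * FF lam (J \ T) =
              ∑ U ∈ (J.erase i).powerset, κ (U.card + 1) * phi κ (m - U.card) := by
            symm
            refine Finset.sum_bij' (fun U _ => insert i U) (fun T _ => T.erase i) ?_ ?_ ?_ ?_ ?_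
            · intro U hU
              rw [Finset.mem_powerset] at hU
              rw [mem_subs]
              exact ⟨Finset.insert_subset hi (hU.trans (Finset.erase_subset i J)),
                Finset.mem_insert_self i U⟩
            · intro T hT
              rw [mem_subs] at hT
              rw [Finset.mem_powerset]
              exact Finset.erase_subset_erase i hT.1
            · intro U hU
              rw [Finset.mem_powerset] at hU
              exact Finset.erase_insert fun hiU => Finset.notMem_erase i J (hU hiU)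
            · intro T hT
              rw [mem_subs] at hT
              exact Finset.insert_erase hT.2
            · intro U hU
              rw [Finset.mem_powerset] at hU
              have hiU : i ∉ U := fun hiU => Finset.notMem_erase i J (hU hiU)
              have hsub : insert i U ⊆ J :=
                Finset.insert_subset hi (hU.trans (Finset.erase_subset i J))
              have hcU : (insert i U).card = U.card + 1 := Finset.card_insert_of_notMem hiU
              have hcd : (J \ insert i U).card = m - U.card := by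
                rw [Finset.card_sdiff_of_subset hsub, hJ, hcU]
                omega
              rw [h _ hsub ⟨i, Finset.mem_insert_self i U⟩, hcU]
              congr 1
              symm
              refine ih (m - U.card) (by omega) _ hcd fun T hT hT' =>
                h T (hT.trans Finset.sdiff_subset) hT'
          rw [e1, Finset.sum_powerset_apply_card (fun k => κ (k + 1) * phi κ (m - k)) , hce,
            Finset.sum_range]
          refine Finset.sum_congr rfl fun e _ => ?_
          rw [nsmul_eq_mul]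
          ring
      · rw [Finset.not_nonempty_iff_eq_empty] at hne
        rw [hne, FF_empty]
        rw [hne, Finset.card_empty] at hJ
        rw [← hJ, phi]
  exact main _ J rfl h

end Pool.Agent.H21.HD

end

section

/-!
# Module A1 (TB): general positions

Everything is as in `Pool/Agent/H21/NX/GenA.lean` (with `Fin (r + 1)` replaced by `ν`), and
`SwapX.gen_fix` of `Pool/Agent/H21/NX/Swap.lean` for the last statement.
-/

namespace Pool.Agent.H51.TB

open Finset MvPolynomial

variable {κ κ' ν : Type}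

private theorem GnX.eval_aeval {σ τ : Type*} (a : τ → ℂ) (g : σ → MvPolynomial τ ℂ)
    (G : MvPolynomial σ ℂ) : eval a (aeval g G) = eval (fun x => eval a (g x)) G := by
  induction G using MvPolynomial.induction_on with
  | C c => simp
  | add p q hp hq => rw [map_add, map_add, map_add, hp, hq]
  | mul_X p i hp => rw [map_mul, map_mul, map_mul, hp, aeval_X, eval_X]

private theorem GnX.exists_eval_ne_zero {τ : Type*} {G : MvPolynomial τ ℂ} (hG : G ≠ 0) :
    ∃ a, eval a G ≠ 0 := by
  by_contra hcon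
  push Not at hcon
  exact hG (MvPolynomial.funext fun a => by rw [hcon a, map_zero])

theorem Gn.mono {P Q : (κ → ν → ℂ) → Prop} (h : Gn κ ν P) (hPQ : ∀ p, P p → Q p) : Gn κ ν Q := by
  obtain ⟨G, hG, h⟩ := h
  exact ⟨G, hG, fun p hp => hPQ p (h p hp)⟩

theorem Gn.and {P Q : (κ → ν → ℂ) → Prop} (h : Gn κ ν P) (h' : Gn κ ν Q) :
    Gn κ ν fun p => P p ∧ Q p := by
  obtain ⟨G, hG, h⟩ := h
  obtain ⟨G', hG', h'⟩ := h'
  refine ⟨G * G', mul_ne_zero hG hG', fun p hp => ?_⟩
  rw [map_mul] at hp
  exact ⟨h p (left_ne_zero_of_mul hp), h' p (right_ne_zero_of_mul hp)⟩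

/-- A nonzero polynomial over `ℂ` has a non-root (`MvPolynomial.funext`). -/
theorem Gn.exists {P : (κ → ν → ℂ) → Prop} (h : Gn κ ν P) : ∃ p, P p := by
  obtain ⟨G, hG, h⟩ := h
  obtain ⟨a, ha⟩ := GnX.exists_eval_ne_zero hG
  exact ⟨fun i j => a (i, j), h (fun i j => a (i, j)) ha⟩

theorem Gn.all {α : Type} (s : Finset α) {P : α → (κ → ν → ℂ) → Prop}
    (h : ∀ a ∈ s, Gn κ ν (P a)) : Gn κ ν fun p => ∀ a ∈ s, P a p := by
  classical
  induction s using Finset.induction_on with
  | empty => exact ⟨1, one_ne_zero, fun p _ a ha => absurd ha (Finset.notMem_empty a)⟩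
  | insert a s has ih =>
    have h1 := h a (Finset.mem_insert_self a s)
    have h2 := ih fun b hb => h b (Finset.mem_insert_of_mem hb)
    refine (h1.and h2).mono fun p hp b hb => ?_
    rcases Finset.mem_insert.mp hb with rfl | hb
    · exact hp.1
    · exact hp.2 b hb

/-- Use `MvPolynomial.rename` with the injective map `(i, j) ↦ (φ i, j)`. -/
theorem Gn.comap (φ : κ' → κ) (hφ : Function.Injective φ) {P : (κ' → ν → ℂ) → Prop}
    (h : Gn κ' ν P) : Gn κ ν fun p => P fun i => p (φ i) := by
  obtain ⟨G, hG, h⟩ := h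
  have hinj : Function.Injective (fun x : κ' × ν => (φ x.1, x.2)) := by
    intro x y hxy
    have h1 := congrArg Prod.fst hxy
    have h2 := congrArg Prod.snd hxy
    exact Prod.ext (hφ h1) h2
  refine ⟨rename (fun x : κ' × ν => (φ x.1, x.2)) G, ?_, fun p hp => ?_⟩
  · intro h0
    apply hG
    apply rename_injective _ hinj
    rw [h0, map_zero]
  · apply h
    rw [eval_rename] at hp
    exact hp

/-- Fixing some of the points at (general) positions. -/
theorem Gn.fix {P : (κ ⊕ κ' → ν → ℂ) → Prop} (h : Gn (κ ⊕ κ') ν P) :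
    ∃ p₀ : κ → ν → ℂ, Gn κ' ν fun q => P (Sum.elim p₀ q) := by
  obtain ⟨G, hG0, hG⟩ := h
  obtain ⟨a, ha⟩ := GnX.exists_eval_ne_zero hG0
  let p₀ : κ → ν → ℂ := fun i j => a (Sum.inl i, j)
  let G' : MvPolynomial (κ' × ν) ℂ := aeval (fun x : (κ ⊕ κ') × ν =>
    Sum.elim (fun i => (C (p₀ i x.2) : MvPolynomial (κ' × ν) ℂ)) (fun k => X (k, x.2)) x.1) G
  have hG' : ∀ y : κ' → ν → ℂ, eval (fun x => y x.1 x.2) G' =
      eval (fun x : (κ ⊕ κ') × ν => Sum.elim p₀ y x.1 x.2) G := by
    intro y
    simp only [G']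
    rw [GnX.eval_aeval]
    refine congrArg (fun f : (κ ⊕ κ') × ν → ℂ => eval f G) (funext fun x => ?_)
    obtain ⟨i | u, j⟩ := x
    · simp
    · simp
  refine ⟨p₀, G', ?_, fun y hy => ?_⟩
  · intro h0
    have h1 := hG' fun k j => a (Sum.inr k, j)
    rw [h0, map_zero] at h1
    apply ha
    have h2 : a = fun x : (κ ⊕ κ') × ν => Sum.elim p₀ (fun k j => a (Sum.inr k, j)) x.1 x.2 := by
      funext x
      obtain ⟨i | k, j⟩ := x <;> rfl
    rw [h2]
    exact h1.symm
  · exact hG _ (by rw [← hG']; exact hy)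

end Pool.Agent.H51.TB

end

section

/-!
# Module A2 (TB): the general dimension, first facts

As in `Pool/Agent/H21/NX/GenB.lean` and `SwapX.fat_elim`, `SwapX.finrank_sup` in
`Pool/Agent/H21/NX/Swap.lean`.  For `gn_gd`: the matrix of all conditions (rows `Σ i, S.R (m i)`,
columns `E`, entries `rename (fun v => (i, v)) (S.co (m i) r e)`) and `exists_poly_rank`
(`Pool/Agent/H18/FatToric.lean`): the rank at general positions is at least the rank at a
position where the minimum `gd m` is attained; `finrank ker + finrank range = card E`.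
-/

namespace Pool.Agent.H51.TB

open Finset MvPolynomial

variable {E ν T : Type} [Fintype E] (S : Sys E ν T) {κ κ' : Type}

/-- The values of the conditions as polynomials in the position. -/
private noncomputable def GdX.lam {E ν : Type} [Fintype E] (c : E → MvPolynomial ν ℂ) :
    (E → ℂ) →ₗ[ℂ] MvPolynomial ν ℂ where
  toFun w := ∑ e, w e • c e
  map_add' := fun w w' => by
    simp only [Pi.add_apply, add_smul, sum_add_distrib]
  map_smul' := fun a w => by
    simp only [Pi.smul_apply, smul_eq_mul, mul_smul, smul_sum, RingHom.id_apply]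

private theorem GdX.eval_lam {E ν : Type} [Fintype E] (c : E → MvPolynomial ν ℂ) (q : ν → ℂ)
    (w : E → ℂ) : eval q (GdX.lam c w) = ∑ e, eval q (c e) * w e := by
  unfold GdX.lam
  simp only [LinearMap.coe_mk, AddHom.coe_mk]
  rw [map_sum]
  refine sum_congr rfl fun e _ => ?_
  rw [smul_eval, mul_comm]

private theorem GdX.mem_V_lam (m : κ → T) (p : κ → ν → ℂ) (f : E → ℂ) :
    f ∈ S.V m p ↔ ∀ i (r : S.R (m i)), eval (p i) (GdX.lam (S.co (m i) r) f) = 0 := by
  rw [S.mem_V]
  constructor
  · intro h i r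
    rw [GdX.eval_lam]
    exact h i r
  · intro h i r
    have := h i r
    rwa [GdX.eval_lam] at this

/-- Points of a family with independent values. -/
private theorem GdX.exists_det_ne_zero {ι X : Type} [Fintype ι] [DecidableEq ι] (v : X → ι → ℂ)
    (h : ∀ c : ι → ℂ, (∀ x, ∑ τ, c τ * v x τ = 0) → c = 0) :
    ∃ x : ι → X, (Matrix.of fun τ τ' => v (x τ) τ').det ≠ 0 := by
  classical
  have hspan : Submodule.span ℂ (Set.range v) = ⊤ := by
    by_contra hne
    obtain ⟨f, hf0, hf⟩ := Submodule.exists_le_ker_of_lt_top _ (lt_top_iff_ne_top.mpr hne)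
    have hfe : ∀ w : ι → ℂ, f w = ∑ τ, f (Pi.single τ 1) * w τ := by
      intro w
      conv_lhs => rw [← Finset.univ_sum_single w]
      rw [map_sum]
      refine Finset.sum_congr rfl fun τ _ => ?_
      have : (Pi.single τ (w τ) : ι → ℂ) = w τ • Pi.single τ 1 := by
        rw [← Pi.single_smul, smul_eq_mul, mul_one]
      rw [this, map_smul, smul_eq_mul, mul_comm]
    have hc := h (fun τ => f (Pi.single τ 1)) (fun x => by
      rw [← hfe]
      exact LinearMap.mem_ker.mp (hf (Submodule.subset_span ⟨x, rfl⟩)))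
    apply hf0
    ext w
    have := congrFun hc w
    simpa using this
  obtain ⟨b, hb, hbs, hbl⟩ := exists_linearIndependent ℂ (Set.range v)
  rw [hspan] at hbs
  let B : Module.Basis b ℂ (ι → ℂ) := Module.Basis.mk hbl (by
    rw [Subtype.range_coe_subtype, Set.ofPred_mem_eq, hbs])
  have hfin : Finite b := Module.Finite.finite_basis B
  let _ : Fintype b := Fintype.ofFinite b
  have hcard : Fintype.card ι = Fintype.card b := by
    rw [← Module.finrank_eq_card_basis B, Module.finrank_fintype_fun_eq_card]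
  let e : ι ≃ b := Fintype.equivOfCardEq hcard
  have hx : ∀ τ : ι, ∃ x : X, v x = (e τ : ι → ℂ) := fun τ => hb (e τ).2
  choose x hx using hx
  refine ⟨x, ?_⟩
  have hli : LinearIndependent ℂ (Matrix.of fun τ τ' => v (x τ) τ').row := by
    have : (Matrix.of fun τ τ' => v (x τ) τ').row = fun τ => (e τ : ι → ℂ) := by
      funext τ
      exact hx τ
    rw [this]
    exact hbl.comp e e.injective
  rw [Matrix.linearIndependent_rows_iff_isUnit, Matrix.isUnit_iff_isUnit_det] at hli
  exact hli.ne_zero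

/-- Semicontinuity. -/
private theorem GdX.gn_finrank_le (m : κ → T) (p₀ : κ → ν → ℂ) :
    Gn κ ν fun p => Module.finrank ℂ (S.V m p) ≤ Module.finrank ℂ (S.V m p₀) := by
  classical
  obtain ⟨W', hW'⟩ := Submodule.exists_isCompl (S.V m p₀)
  let b := Module.finBasis ℂ W'
  let v : (Σ a, S.R (m a)) → Fin (Module.finrank ℂ W') → ℂ := fun x τ =>
    eval (p₀ x.1) (GdX.lam (S.co (m x.1) x.2) (b τ : E → ℂ))
  obtain ⟨x, hx⟩ := GdX.exists_det_ne_zero v (by
    intro c hc
    have h1 : ((∑ τ, c τ • b τ : W') : E → ℂ) ∈ S.V m p₀ := by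
      rw [GdX.mem_V_lam]
      intro a s
      have h2 := hc ⟨a, s⟩
      rw [Submodule.coe_sum, map_sum, map_sum, ← h2]
      refine Finset.sum_congr rfl fun τ _ => ?_
      rw [Submodule.coe_smul, map_smul, smul_eval]
    have h3 : ((∑ τ, c τ • b τ : W') : E → ℂ) = 0 := by
      have := Submodule.disjoint_def.mp hW'.disjoint _ h1 (∑ τ, c τ • b τ : W').2
      exact this
    have h4 : (∑ τ, c τ • b τ : W') = 0 := Subtype.ext h3
    have h5 := Fintype.linearIndependent_iff.mp b.linearIndependent c h4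
    exact funext h5)
  let M : Matrix (Fin (Module.finrank ℂ W')) (Fin (Module.finrank ℂ W')) (MvPolynomial (κ × ν) ℂ) :=
    Matrix.of fun τ τ' => rename (fun j => ((x τ).1, j))
      (GdX.lam (S.co (m (x τ).1) (x τ).2) (b τ' : E → ℂ))
  have hM : ∀ p : κ → ν → ℂ, eval (fun x => p x.1 x.2) M.det =
      (Matrix.of fun τ τ' => eval (p (x τ).1)
        (GdX.lam (S.co (m (x τ).1) (x τ).2) (b τ' : E → ℂ))).det := by
    intro p
    rw [RingHom.map_det]
    congr 1
    ext τ τ'
    rw [RingHom.mapMatrix_apply, Matrix.map_apply]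
    simp only [M, Matrix.of_apply]
    rw [eval_rename]
    rfl
  refine ⟨M.det, ?_, fun p hp => ?_⟩
  · intro h0
    apply hx
    have := hM p₀
    rw [h0, map_zero] at this
    exact this.symm
  · rw [hM] at hp
    let Φ : (E → ℂ) →ₗ[ℂ] (Fin (Module.finrank ℂ W') → ℂ) :=
      LinearMap.pi fun τ => (aeval (p (x τ).1)).toLinearMap ∘ₗ GdX.lam (S.co (m (x τ).1) (x τ).2)
    have hΦ : ∀ w τ, Φ w τ = eval (p (x τ).1) (GdX.lam (S.co (m (x τ).1) (x τ).2) w) := by
      intro w τ
      simp only [Φ, LinearMap.pi_apply, LinearMap.comp_apply, AlgHom.toLinearMap_apply]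
      rw [aeval_eq_eval]
    have hle : S.V m p ≤ LinearMap.ker Φ := by
      intro w hw
      rw [LinearMap.mem_ker]
      funext τ
      rw [hΦ]
      exact (GdX.mem_V_lam S m p w).mp hw (x τ).1 (x τ).2
    have hsurj : LinearMap.range Φ = ⊤ := by
      rw [LinearMap.range_eq_top]
      intro y
      rw [← isUnit_iff_ne_zero, ← Matrix.isUnit_iff_isUnit_det] at hp
      obtain ⟨c, hc⟩ := (Matrix.mulVec_surjective_iff_isUnit.mpr hp) y
      refine ⟨∑ τ', c τ' • (b τ' : E → ℂ), ?_⟩
      rw [← hc]
      funext τ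
      rw [hΦ, map_sum, map_sum, Matrix.mulVec, dotProduct]
      refine Finset.sum_congr rfl fun τ' _ => ?_
      rw [map_smul, smul_eval, Matrix.of_apply, mul_comm]
    have h1 := LinearMap.finrank_range_add_finrank_ker Φ
    rw [hsurj, finrank_top, Module.finrank_fintype_fun_eq_card, Fintype.card_fin] at h1
    have h2 := Submodule.finrank_add_eq_of_isCompl hW'
    have h3 := Submodule.finrank_mono hle
    omega

/-- The conditions of two families of points. -/
theorem V_elim (m : κ → T) (n : κ' → T) (p : κ → ν → ℂ) (q : κ' → ν → ℂ) :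
    S.V (Sum.elim m n) (Sum.elim p q) = S.V m p ⊓ S.V n q := by
  ext f
  rw [Submodule.mem_inf, S.mem_V, S.mem_V, S.mem_V]
  constructor
  · intro h
    exact ⟨fun i => h (Sum.inl i), fun i => h (Sum.inr i)⟩
  · rintro ⟨h1, h2⟩ (i | i)
    · exact h1 i
    · exact h2 i

theorem finrank_V_sup (m : κ → T) (n : κ' → T) (p : κ → ν → ℂ) (q : κ' → ν → ℂ) :
    Module.finrank ℂ (S.V m p ⊔ S.V n q : Submodule ℂ (E → ℂ)) +
      Module.finrank ℂ (S.V (Sum.elim m n) (Sum.elim p q)) =
      Module.finrank ℂ (S.V m p) + Module.finrank ℂ (S.V n q) := by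
  rw [V_elim]
  exact Submodule.finrank_sup_add_finrank_inf_eq _ _

theorem gd_le (m : κ → T) (p : κ → ν → ℂ) : S.gd m ≤ Module.finrank ℂ (S.V m p) := by
  exact Nat.sInf_le ⟨p, rfl⟩

theorem gd_attained (m : κ → T) : ∃ p : κ → ν → ℂ, Module.finrank ℂ (S.V m p) = S.gd m := by
  obtain ⟨p, hp⟩ := Nat.sInf_mem (Set.range_nonempty
    fun p : κ → ν → ℂ => Module.finrank ℂ (S.V m p))
  exact ⟨p, hp⟩

theorem gd_le_card (m : κ → T) : S.gd m ≤ Fintype.card E := by
  obtain ⟨p, hp⟩ := gd_attained S m
  rw [← hp]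
  have := Submodule.finrank_le (S.V m p)
  rwa [Module.finrank_fintype_fun_eq_card] at this

/-- The minimal dimension is attained at general positions. -/
theorem gn_gd [Fintype κ] (m : κ → T) :
    Gn κ ν fun p => Module.finrank ℂ (S.V m p) = S.gd m := by
  obtain ⟨p₀, hp₀⟩ := gd_attained S m
  refine (GdX.gn_finrank_le S m p₀).mono fun p hp => ?_
  rw [hp₀] at hp
  exact le_antisymm hp (gd_le S m p)

theorem gd_comp_equiv (e : κ' ≃ κ) (m : κ → T) : S.gd (fun i => m (e i)) = S.gd m := by
  have key : ∀ p : κ → ν → ℂ, S.V (fun i => m (e i)) (fun i => p (e i)) = S.V m p := by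
    intro p
    ext f
    rw [S.mem_V, S.mem_V]
    constructor
    · intro h i
      obtain ⟨j, rfl⟩ := e.surjective i
      exact h j
    · intro h i
      exact h (e i)
  apply le_antisymm
  · obtain ⟨p₀, hp₀⟩ := gd_attained S m
    rw [← hp₀, ← key p₀]
    exact gd_le S _ _
  · obtain ⟨p₀, hp₀⟩ := gd_attained S (fun i => m (e i))
    have h1 := key fun j => p₀ (e.symm j)
    simp only [Equiv.symm_apply_apply] at h1
    rw [← hp₀, h1]
    exact gd_le S _ _

/-- Fewer points: the dimension is larger. -/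
theorem gd_elim_le [Fintype κ] [Fintype κ'] (m : κ → T) (n : κ' → T) :
    S.gd (Sum.elim m n) ≤ S.gd m := by
  obtain ⟨p₀, hp₀⟩ := gd_attained S m
  rw [← hp₀]
  refine (gd_le S (Sum.elim m n) (Sum.elim p₀ 0)).trans (Submodule.finrank_mono ?_)
  rw [V_elim]
  exact inf_le_left

theorem gd_empty [IsEmpty κ] (m : κ → T) : S.gd m = Fintype.card E := by
  obtain ⟨p₀, hp₀⟩ := gd_attained S m
  have h : S.V m p₀ = ⊤ := by
    rw [eq_top_iff]
    intro f _
    rw [S.mem_V]
    exact fun i => isEmptyElim i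
  rw [← hp₀, h, finrank_top, Module.finrank_fintype_fun_eq_card]

theorem gd_unit (t : T) : S.gd (fun _ : Unit => t) + S.size t = Fintype.card E := by
  have h1 := gd_le_card S fun _ : Unit => t
  unfold Sys.size
  omega

end Pool.Agent.H51.TB

end
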