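import Mathlib

/-! The parts of this file: H18.Ex.Defs, H21.NX.Defs, H54.V7.DH, XD.Defs. -/

section

/-!
# Horace-type induction for forms with prescribed exponents: definitions

`ι` is the finite set of (homogeneous) variables.  A form is given by its coefficient function
`f : (ι → ℕ) → R`, of which only the values on a finite set `A` of exponents matter.
-/

namespace Pool.Agent.H18.Ex

open Finset

/-! ### Geometry -/

section

variable {ι : Type} [Fintype ι] [DecidableEq ι]

/-- The `b`-th Taylor (Hasse) coefficient of the monomial `x^a` at the point `q`. -/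
def tcr {R : Type*} [CommRing R] (q : ι → R) (a b : ι → ℕ) : R :=
  ∏ i, (((a i).choose (b i) : ℕ) : R) * q i ^ (a i - b i)

end

section

variable {ι : Type} [Fintype ι] [DecidableEq ι]

end

section

variable {ι : Type}

end

/-! ### Configurations -/

section

variable {ι : Type}

end

/-! ### Regions -/

section

variable {ι : Type} [Fintype ι] [DecidableEq ι]

/-- The region `{x ∈ ℕ^ι : |x| = σ, x ≤ w}`. -/
def Rg (σ : ℕ) (w : ι → ℕ) : Finset (ι → ℕ) :=
  (Fintype.piFinset fun i => range (w i + 1)).filter fun a => ∑ i, a i = σ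

/-- The region `Rg σ w` has dimension `n` (that is, `n + 1` active coordinates) and all its
widths are at least `D`. -/
def Fat (n D σ : ℕ) (w : ι → ℕ) : Prop :=
  (univ.filter fun i => 0 < w i).card = n + 1 ∧ D ≤ σ ∧ (∀ i, 0 < w i → D ≤ w i) ∧
    σ + D ≤ ∑ i, w i

end

end Pool.Agent.H18.Ex

end

section

/-!
# Project NX: exactness in high dimension, definitions

`ell n m = binom(m + n - 1, n)` is the length of a point of multiplicity `m` in dimension `n`.
Forms of degree `σ` in `s + 2` variables (dimension `s + 1`): `ell (s + 1) (σ + 1)` exponents;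
the exponents with `a l = 0` (dimension `s`): `ell s (σ + 1)`.
-/

namespace Pool.Agent.H21.NX

open Finset MvPolynomial

/-- All exponent vectors of degree `σ`. -/
def Sx (ι : Type) [Fintype ι] [DecidableEq ι] (σ : ℕ) : Finset (ι → ℕ) :=
  (Fintype.piFinset fun _ => range (σ + 1)).filter fun a => ∑ i, a i = σ

theorem mem_Sx {ι : Type} [Fintype ι] [DecidableEq ι] {σ : ℕ} {a : ι → ℕ} :
    a ∈ Sx ι σ ↔ ∑ i, a i = σ := by
  unfold Sx
  rw [mem_filter, Fintype.mem_piFinset]
  constructor
  · exact fun h => h.2
  · intro h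
    refine ⟨fun i => ?_, h⟩
    rw [mem_range, Nat.lt_succ_iff, ← h]
    exact single_le_sum (fun j _ => Nat.zero_le (a j)) (mem_univ i)

/-- General points, for a finite index type. -/
def Gen (r : ℕ) (κ : Type) (P : (κ → Fin (r + 1) → ℂ) → Prop) : Prop :=
  ∃ G : MvPolynomial (κ × Fin (r + 1)) ℂ, G ≠ 0 ∧
    ∀ p : κ → Fin (r + 1) → ℂ, eval (fun x => p x.1 x.2) G ≠ 0 → P p

end Pool.Agent.H21.NX

end

section

/-!
# Taylor coefficients at a moving point; the differential lemma for a subspace of any codimension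

`tcr q a b` is the `b`-th Taylor (Hasse) coefficient of the monomial `x^a` at the point `q`.
-/

namespace Pool.Agent.H54.V7

open Finset

/-! ### Composition of Taylor expansions -/

section

set_option linter.unusedSectionVars false

variable {ι : Type} [Fintype ι] [DecidableEq ι]

/-- The box of exponents below `N`. -/
def bx (ι : Type) [Fintype ι] [DecidableEq ι] (N : ℕ) : Finset (ι → ℕ) :=
  Fintype.piFinset fun _ => range N

theorem mem_bx {N : ℕ} {e : ι → ℕ} : e ∈ bx ι N ↔ ∀ i, e i < N := by
  unfold bx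
  rw [Fintype.mem_piFinset]
  simp only [mem_range]

/-! ### A form depending on `t` which vanishes to order `M` at the moving point `p + t v` -/

open Polynomial

variable {K : Type*} [CommRing K] {E : Type*}

/-- The exponents of total degree `M` in the box. -/
def bxd (ι : Type) [Fintype ι] [DecidableEq ι] (N M : ℕ) : Finset (ι → ℕ) :=
  (bx ι N).filter fun e => ∑ i, e i = M

/-! ### A form which vanishes to order `M` in `t` on the subspace `x_i = 0` (`i ∈ B`) -/

end

end Pool.Agent.H54.V7

end

section

/-!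
# Project XD: the exact dimension off the layer, any number of large points (definitions)

Exponents `e t ≥ 1` (`t = 0, 1, …`), `m` variables, degree `j`:

* `A e m t j` is the coefficient of `t^j` in `∏_{i < t} (1 - t^{e i}) / (1 - t)^m`;
* `FF e m t j` is the dimension of the degree `j` part of `ℂ[x_1..x_m]/(L_s^{e s}, s < t)`, general `L_s`;
* monomials are multisets of indices of variables `0, …, m - 1`; `lay N i j` are the monomials of
  degree `j` of `N` in the variables `< i`;
* `Stair m d N f`: `N` is closed under divisors and under the moves `a → b`, `a < b < m`, and has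
  `f i j` elements of degree `j ≤ d` in the variables `< i`, `i ≤ m`;
* `Sys d e F`: what the algebra gives for `F = FF e`.
-/

set_option autoImplicit false

namespace Pool.Agent.XD

open Finset

/-! ### Numbers -/

/-! ### Combinatorics -/

/-- The multisets of `N` with `j` elements, all `< i`. -/
def lay (N : Finset (Multiset ℕ)) (i j : ℕ) : Finset (Multiset ℕ) :=
  N.filter fun v => Multiset.card v = j ∧ ∀ x ∈ v, x < i

theorem mem_lay {N : Finset (Multiset ℕ)} {i j : ℕ} {v : Multiset ℕ} :
    v ∈ lay N i j ↔ v ∈ N ∧ Multiset.card v = j ∧ ∀ x ∈ v, x < i := by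
  unfold lay
  rw [mem_filter]

/-- `N` is the set of standard monomials of a Borel fixed ideal, with the numbers `f i j`. -/
structure Stair (m d : ℕ) (N : Finset (Multiset ℕ)) (f : ℕ → ℕ → ℕ) : Prop where
  /-- the variables are `0, …, m - 1` -/
  lt : ∀ v ∈ N, ∀ x ∈ v, x < m
  /-- closed under divisors -/
  div : ∀ v ∈ N, ∀ u, u ≤ v → u ∈ N
  /-- closed under the moves `a → b`, `a < b` -/
  up : ∀ v ∈ N, ∀ a ∈ v, ∀ b, a < b → b < m → b ::ₘ v.erase a ∈ N
  /-- the numbers -/
  cnt : ∀ i ≤ m, ∀ j ≤ d, (lay N i j).card = f i j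

/-- The thresholds. -/
structure Thr (m d : ℕ) (f : ℕ → ℕ → ℕ) (τ : ℕ → ℕ) (ε : ℝ) : Prop where
  lt : ∀ j, 1 ≤ j → j < d → τ j < m
  mono : ∀ j, 1 ≤ j → j + 1 < d → τ j ≤ τ (j + 1)
  recu : ∀ j, j + 1 < d → ∀ i, τ (j + 1) ≤ i → i < m → f (i + 1) (j + 1) = f i (j + 1) + f (i + 1) j
  ratio : ∀ j, 1 ≤ j → j + 1 < d → (f (τ j) j : ℝ) ≤ ε * f (τ (j + 1)) j
  last : ∀ j, 1 ≤ j → j < d → (f (τ j) j : ℝ) ≤ ε * f (m - 1) j
  small : ∀ j, j + 1 < d → (f (m - 1) j : ℝ) ≤ ε * f (m - 1) (j + 1)
  pos : ∀ j, j < d → 0 < f (m - 1) j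

end Pool.Agent.XD

end
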