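import Pool.Agent.H94.LP7.H51.TB.Sys
import Pool.Agent.H94.LP7.M01

/-! The parts of this file: H18.Ex.Defs_1, H18.Ex.Gen, GD.TTDefs, GD.BE.Defs. -/

section

/-!
# Horace-type induction for forms with prescribed exponents: definitions

`ι` is the finite set of (homogeneous) variables.  A form is given by its coefficient function
`f : (ι → ℕ) → R`, of which only the values on a finite set `A` of exponents matter.
-/

namespace Pool.Agent.H18.Ex

open Finset

/-! ### Geometry -/

/-- `binom(m + n - 1, n)`, the length of a point of multiplicity `m` in dimension `n`. -/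
def ell (n m : ℕ) : ℕ := (m + n - 1).choose n

section

variable {ι : Type} [Fintype ι] [DecidableEq ι]

end

/-- The kinds of conditions.  `free m`: vanishing to order `m` at a general point.
`forced l c e`: the conditions with multi-index `b`, `|b| < c`, `b l + e ≤ c` at a general point
of the hyperplane `x_l = 0` (for `e = 1` this is vanishing to order `c` there). -/
inductive Kind (ι : Type) : Type where
  | free (m : ℕ) : Kind ι
  | forced (l : ι) (c e : ℕ) : Kind ι

section

variable {ι : Type} [Fintype ι] [DecidableEq ι]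

/-- The actual point of a condition: for `forced l` the `l`-th coordinate is replaced by `0`. -/
def Kind.pt {R : Type*} [Zero R] (k : Kind ι) (q : ι → R) : ι → R :=
  match k with
  | .free _ => q
  | .forced l _ _ => Function.update q l 0

/-- The multi-indices of a condition. -/
def Kind.Idx (k : Kind ι) (b : ι → ℕ) : Prop :=
  match k with
  | .free m => ∑ i, b i < m
  | .forced l c e => ∑ i, b i < c ∧ b l + e ≤ c

/-- The form with coefficients `f` (on `A`) satisfies the condition `k` at the point `q`. -/
def Sat {R : Type*} [CommRing R] (A : Finset (ι → ℕ)) (f : (ι → ℕ) → R) (k : Kind ι)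
    (q : ι → R) : Prop :=
  ∀ b, k.Idx b → ∑ a ∈ A, f a * tcr (k.pt q) a b = 0

/-- At the positions `pos` only the zero form satisfies all conditions. -/
def InjAt {κ : Type} (A : Finset (ι → ℕ)) (k : κ → Kind ι) (pos : κ → ι → ℂ) : Prop :=
  ∀ f : (ι → ℕ) → ℂ, (∀ i, Sat A f (k i) (pos i)) → ∀ a ∈ A, f a = 0

/-- At some (equivalently, at general) positions only the zero form satisfies all conditions. -/
def GI {κ : Type} (A : Finset (ι → ℕ)) (k : κ → Kind ι) : Prop :=
  ∃ pos : κ → ι → ℂ, InjAt A k pos

/-- The same for a multiset of conditions. -/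
def GM (A : Finset (ι → ℕ)) (S : Multiset (Kind ι)) : Prop :=
  ∃ (n : ℕ) (k : Fin n → Kind ι), (univ : Finset (Fin n)).val.map k = S ∧ GI A k

/-- `A` (of dimension `n`) is exact for multiplicities up to `M`: any points of multiplicity at
most `M` with total length at least `|A|` kill all forms with exponents in `A`. -/
def Exa (n M : ℕ) (A : Finset (ι → ℕ)) : Prop :=
  ∀ G : Multiset ℕ, (∀ m ∈ G, m ≤ M) → A.card ≤ (G.map (ell n)).sum → GM A (G.map Kind.free)

/-- The condition is not forced to the hyperplane `x_l = 0`. -/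
def Kind.NotAt (l : ι) (k : Kind ι) : Prop :=
  match k with
  | .free _ => True
  | .forced l' _ _ => l' ≠ l

/-- Passing to the residual along `x_l = 0` when no new point is put on the hyperplane. -/
def Kind.dn (l : ι) (k : Kind ι) : Kind ι :=
  match k with
  | .free m => .free m
  | .forced l' c e => if l' = l then .forced l' (c - 1) e else .forced l' c e

end

/-- The role of a condition in a Horace step along `x_l = 0`. -/
inductive Role (ι : Type) : Type where
  | stay (k : Kind ι) : Role ι
  | here (c e : ℕ) : Role ι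
  | ord (m : ℕ) : Role ι
  | dif : Role ι

section

variable {ι : Type}

/-- The condition before the step; `μ` is the common multiplicity of the differential points. -/
def Role.before (l : ι) (μ : ℕ) (r : Role ι) : Kind ι :=
  match r with
  | .stay k => k
  | .here c e => .forced l c e
  | .ord m => .free m
  | .dif => .free μ

/-- The multiplicity of the trace on the hyperplane. -/
def Role.layer (r : Role ι) : ℕ :=
  match r with
  | .stay _ => 0
  | .here c e => if e ≤ c then c else 0
  | .ord m => m
  | .dif => 1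

/-- The residual condition. -/
def Role.after (l : ι) (μ : ℕ) (r : Role ι) : Kind ι :=
  match r with
  | .stay k => k
  | .here c e => .forced l (c - 1) e
  | .ord m => .forced l (m - 1) 1
  | .dif => .forced l μ 2

end

/-! ### Configurations -/

/-- `N` is the multiset of the multiplicities (at least two) of the free points, `s` is the number
of the free simple points, `Φ l` is the multiset of the pairs `(c, e)` of the forced conditions on
`x_l = 0`. -/
structure Cfg (ι : Type) : Type where
  /-- multiplicities of the free points of multiplicity at least two -/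
  N : Multiset ℕ
  /-- number of the free simple points -/
  s : ℕ
  /-- forced conditions -/
  Φ : ι → Multiset (ℕ × ℕ)

/-- One step down of the forced conditions. -/
def shf (S : Multiset (ℕ × ℕ)) : Multiset (ℕ × ℕ) :=
  (S.map fun x => (x.1 - 1, x.2)).filter fun x => x.2 ≤ x.1

/-- `M * binom(M + n - 1, n)`. -/
def g0 (n M : ℕ) : ℕ := M * ell n M

section

variable {ι : Type}

/-- Validity of a configuration. -/
structure Cfg.OK (M : ℕ) (c : Cfg ι) : Prop where
  hN : ∀ m ∈ c.N, 2 ≤ m ∧ m ≤ M
  hΦ : ∀ l, ∀ x ∈ c.Φ l, 1 ≤ x.2 ∧ x.2 ≤ 2 ∧ x.2 ≤ x.1 ∧ x.1 ≤ M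

/-- Total length of the traces of the forced conditions on `x_l = 0` (region of dimension
`n + 1`, hyperplanes of dimension `n`). -/
def Cfg.tr (n : ℕ) (c : Cfg ι) (l : ι) : ℕ := ((c.Φ l).map fun x => ell n x.1).sum

/-- Total length of the forced conditions on `x_l = 0`. -/
def Cfg.fl (n : ℕ) (c : Cfg ι) (l : ι) : ℕ :=
  ((c.Φ l).map fun x => ell (n + 1) x.1 + 1 - x.2).sum

/-- Total length of the free points. -/
def Cfg.nsz (n : ℕ) (c : Cfg ι) : ℕ := (c.N.map (ell (n + 1))).sum + c.s

/-- Total length. -/
def Cfg.sz [Fintype ι] (n : ℕ) (c : Cfg ι) : ℕ := c.nsz n + ∑ l, c.fl n l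

/-- The conditions of a configuration. -/
def Cfg.kinds [Fintype ι] (c : Cfg ι) : Multiset (Kind ι) :=
  c.N.map Kind.free + Multiset.replicate c.s (Kind.free 1) +
    ∑ l, (c.Φ l).map fun x => Kind.forced l x.1 x.2

end

/-! ### Regions -/

section

variable {ι : Type} [Fintype ι] [DecidableEq ι]

theorem mem_Rg {σ : ℕ} {w : ι → ℕ} {a : ι → ℕ} :
    a ∈ Rg σ w ↔ (∀ i, a i ≤ w i) ∧ ∑ i, a i = σ := by
  unfold Rg
  rw [mem_filter, Fintype.mem_piFinset]
  simp only [mem_range, Nat.lt_succ_iff]

/-- The number of exponents of the region with `x_l = 0`. -/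
def fc (σ : ℕ) (w : ι → ℕ) (l : ι) : ℕ := (Rg σ (Function.update w l 0)).card

/-- Normalised regions of dimension `n`. -/
structure Nrm (n D : ℕ) (o : ι) (σ : ℕ) (w : ι → ℕ) : Prop where
  hcard : (univ.filter fun i => 0 < w i).card = n + 1
  ho : 0 < w o
  hwo : ∀ i, w i ≤ w o
  hwσ : ∀ i, w i ≤ σ
  hσ : 2 * σ ≤ ∑ i, w i
  hD : ∀ i, 0 < w i → D ≤ w i

/-- The new bound for the traces of the forced conditions after a step with layer of size `f`. -/
def nphi (n M f : ℕ) : ℕ := (M - 1) * f / M + ell n M ^ 2

/-- A list of directions along which the region can be peeled (region of dimension `n + 1`,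
layers of dimension `n`); `X` is the property required of the layers, `φ` bounds the traces of
the forced conditions. -/
def Good (n M : ℕ) (X : ℕ → (ι → ℕ) → Prop) : List ι → ℕ → (ι → ℕ) → (ι → ℕ) → Prop
  | [], _, _, _ => True
  | l :: L, σ, w, φ =>
    1 ≤ σ ∧ 1 ≤ w l ∧ X σ (Function.update w l 0) ∧
    φ l + g0 n M * ell n M ≤ fc σ w l ∧
    M * ∑ i, φ i + ell (n + 1) M * (fc σ w l + g0 n M) + fc σ w l ≤ (Rg σ w).card ∧
    Good n M X L (σ - 1) (Function.update w l (w l - 1))
      (Function.update φ l (nphi n M (fc σ w l)))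

/-- The bounds at the end of a list of directions. -/
def eph (n M : ℕ) : List ι → ℕ → (ι → ℕ) → (ι → ℕ) → (ι → ℕ)
  | [], _, _, φ => φ
  | l :: L, σ, w, φ => eph n M L (σ - 1) (Function.update w l (w l - 1))
      (Function.update φ l (nphi n M (fc σ w l)))

/-- The widths at the end of a list of directions. -/
def ew (L : List ι) (w : ι → ℕ) : ι → ℕ := fun i => w i - L.count i

end

end Pool.Agent.H18.Ex

end

section

/-!
# Module Gen: injectivity is an open condition on the positions
-/

namespace Pool.Agent.H18.Ex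

open Finset

variable {ι : Type} [Fintype ι] [DecidableEq ι]

/-- A bound for the multi-indices of a condition. -/
def Kind.bd (k : Kind ι) : ℕ :=
  match k with
  | .free m => m
  | .forced _ c _ => c

omit [DecidableEq ι] in
theorem Kind.Idx.lt {k : Kind ι} {b : ι → ℕ} (h : k.Idx b) (i : ι) : b i < k.bd := by
  have hle : b i ≤ ∑ j, b j := single_le_sum (fun j _ => Nat.zero_le (b j)) (mem_univ i)
  cases k with
  | free m => exact lt_of_le_of_lt hle h
  | forced l c e => exact lt_of_le_of_lt hle h.1

open Classical in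
/-- The finite set of the multi-indices of a condition. -/
noncomputable def Kind.idxs (k : Kind ι) : Finset (ι → ℕ) :=
  (Fintype.piFinset fun _ => range k.bd).filter fun b => k.Idx b

open Classical in
theorem Kind.mem_idxs {k : Kind ι} {b : ι → ℕ} : b ∈ k.idxs ↔ k.Idx b := by
  unfold Kind.idxs
  rw [mem_filter, Fintype.mem_piFinset]
  constructor
  · exact fun h => h.2
  · exact fun h => ⟨fun i => mem_range.2 (h.lt i), h⟩

/-- The matrix of the conditions. -/
noncomputable def cmat {R : Type} [CommRing R] {κ : Type} (A : Finset (ι → ℕ)) (k : κ → Kind ι)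
    (pos : κ → ι → R) : Matrix (Σ i : κ, {b // b ∈ (k i).idxs}) A R :=
  fun x a => tcr ((k x.1).pt (pos x.1)) a.1 x.2.1

theorem ker_cmat {κ : Type} (A : Finset (ι → ℕ)) (k : κ → Kind ι) (pos : κ → ι → ℂ) :
    LinearMap.ker (cmat A k pos).mulVecLin = ⊥ ↔ InjAt A k pos := by
  classical
  rw [LinearMap.ker_eq_bot']
  constructor
  · intro h f hf a ha
    have h1 := h (fun a : A => f a.1) ?_
    · exact congrFun h1 ⟨a, ha⟩
    · rw [Matrix.mulVecLin_apply]
      funext x
      have h2 := hf x.1 x.2.1 (Kind.mem_idxs.1 x.2.2)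
      rw [← sum_coe_sort A (fun a => f a * tcr ((k x.1).pt (pos x.1)) a x.2.1)] at h2
      show ∑ a : A, tcr ((k x.1).pt (pos x.1)) a.1 x.2.1 * f a.1 = 0
      rw [← h2]
      exact sum_congr rfl fun a _ => mul_comm _ _
  · intro h f hf
    rw [Matrix.mulVecLin_apply] at hf
    have h1 := h (fun a => if ha : a ∈ A then f ⟨a, ha⟩ else 0) ?_
    · funext a
      have h2 := h1 a.1 a.2
      rw [dif_pos a.2] at h2
      exact h2
    · intro i b hb
      have h2 := congrFun hf ⟨i, b, Kind.mem_idxs.2 hb⟩
      rw [← sum_coe_sort A]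
      have h3 : ∑ a : A, tcr ((k i).pt (pos i)) a.1 b * f a = 0 := h2
      refine Eq.trans (sum_congr rfl fun a _ => ?_) h3
      beta_reduce
      rw [dif_pos a.2]
      exact mul_comm _ _

omit [DecidableEq ι] in
theorem tcr_map {R S : Type} [CommRing R] [CommRing S] (φ : R →+* S) (q : ι → R) (a b : ι → ℕ) :
    φ (tcr q a b) = tcr (fun i => φ (q i)) a b := by
  unfold tcr
  rw [map_prod]
  refine prod_congr rfl fun i _ => ?_
  rw [map_mul, map_natCast, map_pow]

omit [Fintype ι] in
theorem pt_map {R S : Type} [CommRing R] [CommRing S] (φ : R →+* S) (k : Kind ι) (q : ι → R) :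
    (fun i => φ (k.pt q i)) = k.pt fun i => φ (q i) := by
  cases k with
  | free m => rfl
  | forced l c e =>
    funext i
    show φ (Function.update q l 0 i) = Function.update (fun i => φ (q i)) l 0 i
    by_cases hi : i = l
    · subst hi
      rw [Function.update_self, Function.update_self, map_zero]
    · rw [Function.update_of_ne hi, Function.update_of_ne hi]

/-- The general matrix. -/
noncomputable def gmat {κ : Type} (A : Finset (ι → ℕ)) (k : κ → Kind ι) :
    Matrix (Σ i : κ, {b // b ∈ (k i).idxs}) A (MvPolynomial (κ × ι) ℂ) :=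
  cmat A k fun i j => MvPolynomial.X (i, j)

theorem gmat_map {κ : Type} (A : Finset (ι → ℕ)) (k : κ → Kind ι) (x : κ × ι → ℂ) :
    (gmat A k).map (MvPolynomial.eval x) = cmat A k fun i j => x (i, j) := by
  ext r a
  show MvPolynomial.eval x (tcr ((k r.1).pt fun j => MvPolynomial.X (r.1, j)) a.1 r.2.1) =
    tcr ((k r.1).pt fun j => x (r.1, j)) a.1 r.2.1
  rw [tcr_map, pt_map]
  simp only [MvPolynomial.eval_X]

end Pool.Agent.H18.Ex

end

section

/-!
# General d, tensor systems with slots of different dimensions: definitions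

Slots `ι`, the slot `i` has dimension `c i`.  A tensor is a function `F : (∀ i, Fin (c i)) → ℂ`.  A
point of kind `S : Finset ι` is a family of vectors `y i ∈ ℂ^(c i)` (only `i ∈ S` are used); it imposes
the conditions `∑_{e = w off S} (∏_{i ∈ S} y i (e i)) F e = 0` for all `w`, i.e. the contraction of
`F` with the pure tensor of the `y i`, `i ∈ S`, vanishes.

`IsF κ F`: `F I` is the (normalized) virtual dimension of the system on the slots `I` with
`κ S * ∏_{i ∈ S} c i` points of kind `S`, divided by `∏_{i ∈ I} c i`.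
-/

set_option autoImplicit false

namespace Pool.Agent.GD

open Finset MvPolynomial Pool.Agent.H51.TB

/-- The tensor system. -/
noncomputable def TS (ι : Type) [Fintype ι] [DecidableEq ι] (c : ι → ℕ) :
    Sys (∀ i, Fin (c i)) (Σ i, Fin (c i)) (Finset ι) where
  R := fun _ => ∀ i, Fin (c i)
  fin := fun _ => inferInstance
  co := fun S w e => if ∀ j, j ∉ S → e j = w j then ∏ j ∈ S, X ⟨j, e j⟩ else 0

variable {ι : Type} [Fintype ι] [DecidableEq ι] {c : ι → ℕ}

/-- The contraction of a tensor with the pure tensor of the `y j`, `j ∈ S`, at the index `w`. -/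
noncomputable def ctr (S : Finset ι) (y : (Σ i, Fin (c i)) → ℂ) (F : (∀ i, Fin (c i)) → ℂ)
    (w : ∀ i, Fin (c i)) : ℂ :=
  ∑ e : ∀ i, Fin (c i), if ∀ j, j ∉ S → e j = w j then (∏ j ∈ S, y ⟨j, e j⟩) * F e else 0

theorem mem_TS {κ : Type} (m : κ → Finset ι) (p : κ → (Σ i, Fin (c i)) → ℂ)
    (F : (∀ i, Fin (c i)) → ℂ) : F ∈ (TS ι c).V m p ↔ ∀ i w, ctr (m i) (p i) F w = 0 := by
  rw [Sys.mem_V]
  refine forall_congr' fun i => forall_congr' fun w => ?_
  have h : ∑ e, eval (p i) ((TS ι c).co (m i) w e) * F e = ctr (m i) (p i) F w := by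
    unfold ctr
    refine sum_congr rfl fun e _ => ?_
    show eval (p i) (if ∀ j, j ∉ m i → e j = w j then ∏ j ∈ m i, X ⟨j, e j⟩ else 0) * F e = _
    split_ifs
    · rw [map_prod]
      simp
    · simp
  rw [h]

/-- The normalized virtual dimensions: `κ S` is the density of the points of kind `S`. -/
structure IsF (κ F : Finset ι → ℚ) : Prop where
  empty : F ∅ = 1
  step : ∀ (I : Finset ι) (i : ι), i ∉ I →
    F (insert i I) = F I - ∑ B ∈ I.powerset, κ (insert i B) * F (I \ B)

end Pool.Agent.GD

end

section

/-!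
# General d, block BETA (strictness of the tensor systems): definitions

All slots are the elements of `ι` (dimensions `c i`), `T : Finset ι` are the base slots, `Tᶜ` the
`e` slots of the variables `W`.  `E` is a space of tensors which depend only on the coordinates in
`I ⊆ T` (the *active* base slots).

* `mix T w u`: the coordinates of `w` on `T` and of `u` off `T`;
* `Dep c I`: the tensors which depend only on the coordinates in `I`;
* `KE T m p E`: the tensors killed by the points all of whose slices along `T` lie in `E`;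
* `Adm T I κ`: the densities `κ` are admissible for the active slots `I`; `lam c T I κ` is the number of
  further units (points of kind `Tᶜ`) for which the system becomes critical.
-/

set_option autoImplicit false

namespace Pool.Agent.GD.BE

open Finset MvPolynomial Module Pool.Agent.H51.TB

variable {ι : Type} [Fintype ι] [DecidableEq ι] {c : ι → ℕ}

/-- The coordinates of `w` on `T` and of `u` off `T`. -/
def mix (T : Finset ι) (w u : ∀ i, Fin (c i)) : ∀ i, Fin (c i) := fun i =>
  if i ∈ T then w i else u i

/-- The tensors which depend only on the coordinates in `I`. -/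
def Dep (c : ι → ℕ) (I : Finset ι) : Submodule ℂ ((∀ i, Fin (c i)) → ℂ) where
  carrier := {G | ∀ w w' : ∀ i, Fin (c i), (∀ i ∈ I, w i = w' i) → G w = G w'}
  zero_mem' := fun _ _ _ => rfl
  add_mem' := fun {a b} ha hb w w' h => by
    show a w + b w = a w' + b w'
    rw [ha w w' h, hb w w' h]
  smul_mem' := fun x a ha w w' h => by
    show x * a w = x * a w'
    rw [ha w w' h]

/-- The tensors killed by the points all of whose slices along `T` lie in `E`. -/
noncomputable def KE (T : Finset ι) {P : Type} (m : P → Finset ι) (p : P → (Σ i, Fin (c i)) → ℂ)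
    (E : Submodule ℂ ((∀ i, Fin (c i)) → ℂ)) : Submodule ℂ ((∀ i, Fin (c i)) → ℂ) :=
  (⨅ u : ∀ i, Fin (c i), E.comap (LinearMap.funLeft ℂ ℂ fun w => mix T w u)) ⊓ (TS ι c).V m p

theorem mem_KE (T : Finset ι) {P : Type} (m : P → Finset ι) (p : P → (Σ i, Fin (c i)) → ℂ)
    (E : Submodule ℂ ((∀ i, Fin (c i)) → ℂ)) (G : (∀ i, Fin (c i)) → ℂ) :
    G ∈ KE T m p E ↔ (∀ u, (fun w => G (mix T w u)) ∈ E) ∧ ∀ i w, ctr (m i) (p i) G w = 0 := by
  unfold KE
  rw [Submodule.mem_inf, Submodule.mem_iInf, mem_TS]
  rfl

/-- The product of the dimensions. -/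
def pc (c : ι → ℕ) (S : Finset ι) : ℚ := ∏ i ∈ S, (c i : ℚ)

/-- A configuration: `P₀` are base points (kinds inside `I`), `P₁` additional points (kinds which
meet `Tᶜ`), with exactly the numbers given by the densities. -/
structure Cfg (c : ι → ℕ) (T I : Finset ι) (κ : Finset ι → ℚ) {P₀ P₁ : Type} (m₀ : P₀ → Finset ι)
    (m₁ : P₁ → Finset ι) : Prop where
  base : ∀ i, m₀ i ⊆ I ∧ m₀ i ≠ ∅
  add : ∀ i, m₁ i ⊆ I ∪ Tᶜ ∧ ¬ m₁ i ⊆ T
  card₀ : ∀ S ⊆ I, S ≠ ∅ → (Nat.card {x // m₀ x = S} : ℚ) = κ S * pc c S
  card₁ : ∀ S ⊆ I ∪ Tᶜ, ¬ S ⊆ T → (Nat.card {x // m₁ x = S} : ℚ) = κ S * pc c S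

/-- Algebraically independent positions. -/
def AI {P X : Type} (r : P → X → ℂ) : Prop := AlgebraicIndependent ℚ fun x : P × X => r x.1 x.2

end Pool.Agent.GD.BE

end
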