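import Mathlib

/-! The parts of this file: H18.Ex.OnePar, H54.V7.Lim_1. -/

section

/-!
# Module OnePar: solutions of a linear system depending polynomially on one parameter
-/

namespace Pool.Agent.H18.Ex

open Finset

/-- Division by the largest possible power of `X`. -/
theorem exists_eval_ne {α ρ : Type} (A : Finset α) (Mx : ρ → α → Polynomial ℂ) (a₀ : α)
    (ha₀ : a₀ ∈ A) : ∀ (n : ℕ) (F : α → Polynomial ℂ), (F a₀).natDegree = n → F a₀ ≠ 0 →
      (∀ r, ∑ a ∈ A, F a * Mx r a = 0) →
      ∃ F : α → Polynomial ℂ, (∀ r, ∑ a ∈ A, F a * Mx r a = 0) ∧ ∃ a ∈ A, (F a).eval 0 ≠ 0 := by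
  intro n
  induction n with
  | zero =>
    intro F hd hne hF
    refine ⟨F, hF, a₀, ha₀, ?_⟩
    rw [Polynomial.eq_C_of_natDegree_eq_zero hd] at hne ⊢
    rw [Polynomial.eval_C]
    intro h
    rw [h, Polynomial.C_0] at hne
    exact hne rfl
  | succ n ih =>
    intro F hd hne hF
    by_cases hz : ∃ a ∈ A, (F a).eval 0 ≠ 0
    · exact ⟨F, hF, hz⟩
    · push Not at hz
      have hdiv : ∀ a ∈ A, F a = (F a).divX * Polynomial.X := by
        intro a ha
        have h := hz a ha
        rw [← Polynomial.coeff_zero_eq_eval_zero] at h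
        conv_lhs => rw [← Polynomial.divX_mul_X_add (F a), h, Polynomial.C_0, add_zero]
      refine ih (fun a => (F a).divX) ?_ ?_ ?_
      · show (F a₀).divX.natDegree = n
        rw [Polynomial.natDegree_divX_eq_natDegree_tsub_one, hd]
        omega
      · intro h
        apply hne
        rw [hdiv a₀ ha₀]
        show (F a₀).divX * Polynomial.X = 0
        have h' : (F a₀).divX = 0 := h
        rw [h', zero_mul]
      · intro r
        have h := hF r
        have h2 : (∑ a ∈ A, (F a).divX * Mx r a) * Polynomial.X = 0 := by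
          rw [sum_mul, ← h]
          refine sum_congr rfl fun a ha => ?_
          conv_rhs => rw [hdiv a ha]
          ring
        rcases mul_eq_zero.1 h2 with h3 | h3
        · exact h3
        · exact absurd h3 Polynomial.X_ne_zero

/-- If a linear system with coefficients in `ℂ[t]` has a nonzero solution for every value of `t`,
then it has a polynomial solution which does not vanish at `t = 0`.

Proof.  Let `Frac` be the fraction field of `ℂ[X]`.  Case 1: the matrix `(r, a) ↦ Mx r a`
(`r : ρ`, `a : A`) has trivial kernel over `Frac`.  Then it has a left inverse `B` over `Frac`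
(`LinearMap.exists_leftInverse_of_injective`); clearing denominators gives a matrix `B'` over
`ℂ[X]` and `δ ≠ 0` with `B' * Mx = δ • 1`.  Take `t` with `δ.eval t ≠ 0` (`ℂ` is infinite):
then the system at `t` has only the zero solution, a contradiction.  Case 2: there is a nonzero
solution over `Frac`; clear denominators to get a nonzero solution `F` over `ℂ[X]`
(e.g. `IsLocalization.exist_integer_multiples_of_finset`).  Divide by the largest power of `X`
dividing all `F a`, `a ∈ A` (strong induction on the minimum, or on the sum, of the `natDegree`s of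
the nonzero `F a`: if all `F a`, `a ∈ A`, vanish at `0` replace `F a` by `(F a).divX`). -/
theorem exists_poly_solution {α ρ : Type} [Fintype ρ] (A : Finset α)
    (Mx : ρ → α → Polynomial ℂ)
    (h : ∀ t : ℂ, ∃ f : α → ℂ, (∀ r, ∑ a ∈ A, f a * (Mx r a).eval t = 0) ∧ ∃ a ∈ A, f a ≠ 0) :
    ∃ F : α → Polynomial ℂ, (∀ r, ∑ a ∈ A, F a * Mx r a = 0) ∧ ∃ a ∈ A, (F a).eval 0 ≠ 0 := by
  classical
  let K := FractionRing (Polynomial ℂ)
  let φ : Polynomial ℂ →+* K := algebraMap (Polynomial ℂ) K
  have hφ : Function.Injective φ := IsFractionRing.injective (Polynomial ℂ) K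
  let Mk : Matrix ρ A K := fun r a => φ (Mx r a.1)
  by_cases hker : LinearMap.ker Mk.mulVecLin = ⊥
  · exfalso
    obtain ⟨g, hg⟩ := LinearMap.exists_leftInverse_of_injective Mk.mulVecLin hker
    let B : Matrix A ρ K := LinearMap.toMatrix' g
    have hB : B * Mk = 1 := by
      have h1 : LinearMap.toMatrix' (g ∘ₗ Mk.mulVecLin) = 1 := by
        rw [hg, LinearMap.toMatrix'_id]
      rw [LinearMap.toMatrix'_comp] at h1
      rw [← h1]
      congr 1
      rw [← Matrix.toLin'_apply', LinearMap.toMatrix'_toLin']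
    obtain ⟨δ, hδ⟩ := IsLocalization.exist_integer_multiples_of_finite
      (nonZeroDivisors (Polynomial ℂ)) (fun x : A × ρ => B x.1 x.2)
    choose B' hB' using hδ
    have hδ0 : (δ : Polynomial ℂ) ≠ 0 := nonZeroDivisors.coe_ne_zero δ
    have key : ∀ a a' : A, ∑ r, B' (a, r) * Mx r a'.1 = if a = a' then (δ : Polynomial ℂ) else 0 := by
      intro a a'
      apply hφ
      rw [map_sum]
      have h1 : ∀ r, φ (B' (a, r) * Mx r a'.1) = φ δ * (B a r * Mk r a') := by
        intro r
        rw [map_mul]
        have h2 := hB' (a, r)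
        rw [Algebra.smul_def] at h2
        rw [show φ (B' (a, r)) = φ δ * B a r from h2]
        show φ δ * B a r * φ (Mx r a'.1) = φ δ * (B a r * φ (Mx r a'.1))
        ring
      rw [sum_congr rfl fun r _ => h1 r, ← mul_sum]
      have h3 : ∑ r, B a r * Mk r a' = (B * Mk) a a' := rfl
      rw [h3, hB, Matrix.one_apply]
      split_ifs with hh
      · rw [mul_one]
      · rw [mul_zero, map_zero]
    obtain ⟨t, ht⟩ : ∃ t : ℂ, (δ : Polynomial ℂ).eval t ≠ 0 := by
      by_contra hcon
      push Not at hcon
      apply hδ0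
      exact Polynomial.funext fun t => by rw [hcon t, Polynomial.eval_zero]
    obtain ⟨f, hf, a, ha, hfa⟩ := h t
    apply hfa
    have h4 : (δ : Polynomial ℂ).eval t * f a = 0 := by
      have h5 : ∑ a' : A, (∑ r, (B' (⟨a, ha⟩, r)).eval t * (Mx r a'.1).eval t) * f a'.1 = 0 := by
        simp only [sum_mul]
        rw [sum_comm]
        refine sum_eq_zero fun r _ => ?_
        have h6 := hf r
        rw [← sum_coe_sort A (fun a => f a * (Mx r a).eval t)] at h6
        have h7 : ∑ a' : A, (B' (⟨a, ha⟩, r)).eval t * (Mx r a'.1).eval t * f a'.1 =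
            (B' (⟨a, ha⟩, r)).eval t * ∑ a' : A, f a'.1 * (Mx r a'.1).eval t := by
          rw [mul_sum]
          exact sum_congr rfl fun a' _ => by ring
        rw [h7, h6, mul_zero]
      have h8 : ∀ a' : A, (∑ r, (B' (⟨a, ha⟩, r)).eval t * (Mx r a'.1).eval t) =
          if (⟨a, ha⟩ : A) = a' then (δ : Polynomial ℂ).eval t else 0 := by
        intro a'
        have h9 := congrArg (Polynomial.eval t) (key ⟨a, ha⟩ a')
        rw [Polynomial.eval_finsetSum] at h9
        simp only [Polynomial.eval_mul] at h9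
        rw [h9]
        split_ifs
        · rfl
        · exact Polynomial.eval_zero
      rw [sum_congr rfl fun a' _ => by rw [h8 a']] at h5
      rw [Finset.sum_eq_single (⟨a, ha⟩ : A)] at h5
      · rw [if_pos rfl] at h5
        exact h5
      · intro b _ hb
        rw [if_neg (fun h => hb h.symm), zero_mul]
      · intro hh
        exact absurd (mem_univ _) hh
    rcases mul_eq_zero.1 h4 with h5 | h5
    · exact absurd h5 ht
    · exact h5
  · obtain ⟨v, hv, hv0⟩ := (Submodule.ne_bot_iff _).1 hker
    rw [LinearMap.mem_ker, Matrix.mulVecLin_apply] at hv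
    obtain ⟨a₀, ha₀⟩ : ∃ a, v a ≠ 0 := by
      by_contra hcon
      push Not at hcon
      exact hv0 (funext hcon)
    obtain ⟨δ, hδ⟩ := IsLocalization.exist_integer_multiples_of_finite
      (nonZeroDivisors (Polynomial ℂ)) v
    choose F' hF' using hδ
    have hδ0 : (δ : Polynomial ℂ) ≠ 0 := nonZeroDivisors.coe_ne_zero δ
    let F : α → Polynomial ℂ := fun a => if ha : a ∈ A then F' ⟨a, ha⟩ else 0
    have hFa : ∀ a : A, φ (F a.1) = φ δ * v a := by
      intro a
      have h2 := hF' a
      rw [Algebra.smul_def] at h2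
      show φ (if ha : a.1 ∈ A then F' ⟨a.1, ha⟩ else 0) = φ δ * v a
      rw [dif_pos a.2]
      exact h2
    refine exists_eval_ne A Mx a₀.1 a₀.2 _ F rfl ?_ ?_
    · intro hz
      have h1 := hFa a₀
      rw [hz, map_zero] at h1
      rcases mul_eq_zero.1 h1.symm with h2 | h2
      · apply hδ0
        apply hφ
        rw [h2, map_zero]
      · exact ha₀ h2
    · intro r
      apply hφ
      rw [map_zero, map_sum, ← sum_coe_sort A (fun a => φ (F a * Mx r a))]
      have h1 : ∑ a : A, φ (F a.1 * Mx r a.1) = φ δ * ∑ a : A, Mk r a * v a := by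
        rw [mul_sum]
        refine sum_congr rfl fun a _ => ?_
        rw [map_mul, hFa a]
        show φ δ * v a * φ (Mx r a.1) = φ δ * (φ (Mx r a.1) * v a)
        ring
      rw [h1]
      have h2 : ∑ a : A, Mk r a * v a = Mk.mulVec v r := rfl
      rw [h2, hv]
      show φ δ * 0 = 0
      rw [mul_zero]

end Pool.Agent.H18.Ex

end

section

/-!
# The limit of the solution spaces of a linear system depending on one parameter
-/

namespace Pool.Agent.H54.V7

open Finset Polynomial Pool.Agent.H18.Ex

/-- A subspace is cut out by finitely many linear equations. -/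
theorem exists_eqns {E : Type} [Fintype E] (W : Submodule ℂ (E → ℂ)) :
    ∃ (k : ℕ) (c : Fin k → E → ℂ), ∀ f : E → ℂ, f ∈ W ↔ ∀ r, ∑ e, c r e * f e = 0 := by
  classical
  obtain ⟨k, b⟩ : ∃ k, Nonempty (((E → ℂ) ⧸ W) ≃ₗ[ℂ] (Fin k → ℂ)) :=
    ⟨Module.finrank ℂ ((E → ℂ) ⧸ W), ⟨(Module.finBasis ℂ ((E → ℂ) ⧸ W)).equivFun⟩⟩
  obtain ⟨b⟩ := b
  let L : (E → ℂ) →ₗ[ℂ] (Fin k → ℂ) := b.toLinearMap ∘ₗ W.mkQ
  refine ⟨k, fun r e => L (Pi.single e 1) r, fun f => ?_⟩
  have h1 : ∀ r, ∑ e, L (Pi.single e 1) r * f e = L f r := by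
    intro r
    have h2 : f = ∑ e, f e • (Pi.single e (1 : ℂ) : E → ℂ) := by
      funext x
      rw [Finset.sum_apply]
      simp [Pi.single_apply]
    conv_rhs => rw [h2, map_sum]
    rw [Finset.sum_apply]
    refine sum_congr rfl fun e _ => ?_
    rw [map_smul, Pi.smul_apply, smul_eq_mul, mul_comm]
  simp only [h1]
  constructor
  · intro hf r
    have h3 : L f = 0 := by
      show b (W.mkQ f) = 0
      rw [(Submodule.Quotient.mk_eq_zero W).2 hf |> fun h => (show W.mkQ f = 0 from h), map_zero]
    rw [h3]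
    rfl
  · intro h
    have h3 : L f = 0 := funext h
    have h4 : W.mkQ f = 0 := by
      apply b.injective
      rw [map_zero]
      exact h3
    exact (Submodule.Quotient.mk_eq_zero W).1 h4

/-- Finitely many linear forms which are injective on a subspace. -/
theorem exists_coords {E : Type} [Fintype E] (R : Submodule ℂ (E → ℂ)) :
    ∃ c : Fin (Module.finrank ℂ R) → E → ℂ,
      ∀ f ∈ R, (∀ r, ∑ e, c r e * f e = 0) → f = 0 := by
  classical
  obtain ⟨g, hg⟩ := LinearMap.exists_leftInverse_of_injective R.subtype (by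
    rw [Submodule.ker_subtype])
  let L : (E → ℂ) →ₗ[ℂ] (Fin (Module.finrank ℂ R) → ℂ) :=
    (Module.finBasis ℂ R).equivFun.toLinearMap ∘ₗ g
  refine ⟨fun r e => L (Pi.single e 1) r, fun f hf h => ?_⟩
  have h1 : ∀ r, ∑ e, L (Pi.single e 1) r * f e = L f r := by
    intro r
    have h2 : f = ∑ e, f e • (Pi.single e (1 : ℂ) : E → ℂ) := by
      funext x
      rw [Finset.sum_apply]
      simp [Pi.single_apply]
    conv_rhs => rw [h2, map_sum]
    rw [Finset.sum_apply]
    refine sum_congr rfl fun e _ => ?_
    rw [map_smul, Pi.smul_apply, smul_eq_mul, mul_comm]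
  have h3 : L f = 0 := by
    funext r
    rw [← h1 r]
    exact h r
  have h4 : g f = 0 := by
    apply (Module.finBasis ℂ R).equivFun.injective
    rw [map_zero]
    exact h3
  have h5 : g f = ⟨f, hf⟩ := by
    have h6 := LinearMap.congr_fun hg ⟨f, hf⟩
    exact h6
  rw [h5] at h4
  exact congrArg Subtype.val h4

/-- The solutions of a linear system at the value `t` of the parameter. -/
noncomputable def solAt {E ρ : Type} [Fintype E] (Mx : ρ → E → ℂ[X]) (t : ℂ) :
    Submodule ℂ (E → ℂ) where
  carrier := {f | ∀ r, ∑ e, f e * (Mx r e).eval t = 0}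
  zero_mem' := fun r => by simp
  add_mem' := by
    intro f g hf hg r
    have h1 := hf r
    have h2 := hg r
    simp only [Pi.add_apply, add_mul, sum_add_distrib]
    rw [h1, h2, add_zero]
  smul_mem' := by
    intro c f hf r
    have h1 := hf r
    have h2 : ∑ e, (c • f) e * (Mx r e).eval t = c * ∑ e, f e * (Mx r e).eval t := by
      rw [mul_sum]
      exact sum_congr rfl fun e _ => by rw [Pi.smul_apply, smul_eq_mul, mul_assoc]
    rw [h2, h1, mul_zero]

theorem mem_solAt {E ρ : Type} [Fintype E] (Mx : ρ → E → ℂ[X]) (t : ℂ) (f : E → ℂ) :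
    f ∈ solAt Mx t ↔ ∀ r, ∑ e, f e * (Mx r e).eval t = 0 := Iff.rfl

/-- If the values at `t = 0` of all polynomial solutions lie in `R`, then for some `t` the space
of solutions at `t` has at most the dimension of `R`. -/
theorem poly_limit {E ρ : Type} [Fintype E] [Fintype ρ] (Mx : ρ → E → ℂ[X])
    (R : Submodule ℂ (E → ℂ))
    (hR : ∀ F : E → ℂ[X], (∀ r, ∑ e, F e * Mx r e = 0) → (fun e => (F e).eval 0) ∈ R) :
    ∃ t : ℂ, Module.finrank ℂ (solAt Mx t) ≤ Module.finrank ℂ R := by
  classical
  by_contra hcon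
  push Not at hcon
  obtain ⟨c, hc⟩ := exists_coords R
  let Mx' : ρ ⊕ Fin (Module.finrank ℂ R) → E → ℂ[X] :=
    Sum.elim Mx fun r e => C (c r e)
  obtain ⟨F, hF, e, _, he⟩ := exists_poly_solution (univ : Finset E) Mx' (by
    intro t
    let L : (E → ℂ) →ₗ[ℂ] (Fin (Module.finrank ℂ R) → ℂ) :=
      LinearMap.pi fun r => ∑ e, c r e • LinearMap.proj e
    have hL : ∀ f r, L f r = ∑ e, c r e * f e := by
      intro f r
      simp [L]
    let L' : solAt Mx t →ₗ[ℂ] (Fin (Module.finrank ℂ R) → ℂ) := L ∘ₗ (solAt Mx t).subtype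
    have h1 : LinearMap.ker L' ≠ ⊥ := by
      intro h
      have h2 := LinearMap.finrank_le_finrank_of_injective (LinearMap.ker_eq_bot.1 h)
      rw [Module.finrank_fin_fun] at h2
      exact absurd h2 (not_le.2 (hcon t))
    obtain ⟨f, hf, hf0⟩ := (Submodule.ne_bot_iff _).1 h1
    refine ⟨f.1, ?_, ?_⟩
    · rintro (r | r)
      · exact f.2 r
      · have h3 : L f.1 = 0 := hf
        have h4 := congrFun h3 r
        rw [hL] at h4
        show ∑ e, f.1 e * (C (c r e)).eval t = 0
        rw [Pi.zero_apply] at h4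
        rw [← h4]
        exact sum_congr rfl fun e _ => by rw [eval_C, mul_comm]
    · by_contra h3
      push Not at h3
      apply hf0
      apply Subtype.ext
      funext e
      exact h3 e (mem_univ e))
  have h1 : (fun e => (F e).eval 0) ∈ R := hR F fun r => hF (Sum.inl r)
  have h2 := hc _ h1 (by
    intro r
    have h3 := congrArg (Polynomial.eval 0) (hF (Sum.inr r))
    rw [eval_finsetSum, eval_zero] at h3
    refine Eq.trans ?_ h3
    refine sum_congr rfl fun e _ => ?_
    show c r e * (F e).eval 0 = (F e * C (c r e)).eval 0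
    rw [eval_mul, eval_C, mul_comm])
  exact he (congrFun h2 e)

section

set_option linter.unusedSectionVars false

variable {ι : Type} [Fintype ι] [DecidableEq ι] {E : Type} [Fintype E]

end

end Pool.Agent.H54.V7

end
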