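import Pool.Agent.H94.LP7.M06
import Pool.Agent.H94.LP7.M09
import Pool.Agent.H94.LP7.M10
import Pool.Agent.H94.LP7.M27

/-! The parts of this file: H21.HD.NonSq, GD.ExF, GD.BE.MixA, GD.TT, GD.BE.Defs_1, GD.AL.Lin. -/

section

/-!
Monomials that are not squarefree in the blocks.
-/

namespace Pool.Agent.H21.HD

open MvPolynomial
open scoped Classical

private theorem NonSqX_interp {σ : Type} (β γ : σ →₀ ℕ) (hβ : β ≤ γ) (k : ℕ)
    (h1 : β.degree ≤ k) (h2 : k ≤ γ.degree) : ∃ δ, β ≤ δ ∧ δ ≤ γ ∧ δ.degree = k := by
  induction k, h1 using Nat.le_induction with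
  | base => exact ⟨β, le_refl β, hβ, rfl⟩
  | succ k hk ih =>
    obtain ⟨δ, hδ1, hδ2, hδ3⟩ := ih (by omega)
    have hne : ∃ s, δ s < γ s := by
      by_contra hcon
      push Not at hcon
      have h3 : γ ≤ δ := hcon
      have h4 : γ = δ := le_antisymm h3 hδ2
      rw [h4, hδ3] at h2
      omega
    obtain ⟨s, hs⟩ := hne
    refine ⟨δ + Finsupp.single s 1, ?_, ?_, ?_⟩
    · exact hδ1.trans (le_add_of_nonneg_right (zero_le))
    · intro t
      rw [Finsupp.add_apply]
      by_cases hts : t = s
      · rw [hts, Finsupp.single_eq_same]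
        omega
      · rw [Finsupp.single_eq_of_ne hts, add_zero]
        exact hδ2 t
    · rw [map_add, hδ3, Finsupp.degree_single]

private theorem NonSqX_deg {N : ℕ} {A : Type} [Fintype A] (γ : Fin N × A →₀ ℕ) :
    ∑ i, bdegB γ i = γ.degree := by
  unfold bdegB
  rw [Finsupp.degree_eq_sum, Fintype.sum_prod_type]

/-- The monomials that are not squarefree in the blocks, from the powers spanning the forms of
degree `e₀` in each set of `e₀ - 1` blocks. -/
theorem nonsquarefree_of_blocks {N : ℕ} {A R : Type} [Fintype A] (d e₀ : ℕ) (h2 : 2 ≤ e₀)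
    (hd : e₀ ≤ d) (hN : e₀ ≤ N) (w : R → Fin N × A → ℂ) (e : R → ℕ)
    (h : ∀ b : Finset (Fin N), b.card = e₀ - 1 → ∀ F : MvPolynomial (Fin N × A) ℂ,
      F.IsHomogeneous e₀ → (∀ γ ∈ F.support, ∀ x, γ x ≠ 0 → x.1 ∈ b) → F ∈ powSpan e₀ w e)
    (γ : Fin N × A →₀ ℕ) (hγ : γ.degree = d) (hi : ∃ i, 2 ≤ bdegB γ i) :
    monomial γ (1 : ℂ) ∈ powSpan d w e := by
  obtain ⟨i, hi⟩ := hi
  -- the part of `γ` in the block `i`
  set γi : Fin N × A →₀ ℕ := γ.filter (fun x => x.1 = i) with hγi
  have hγile : γi ≤ γ := by
    intro x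
    rw [hγi, Finsupp.filter_apply]
    split_ifs
    · exact le_refl _
    · exact Nat.zero_le _
  have hγideg : 2 ≤ γi.degree := by
    rw [← NonSqX_deg]
    calc 2 ≤ bdegB γ i := hi
      _ = bdegB γi i := by
        unfold bdegB
        apply Finset.sum_congr rfl
        intro a _
        rw [hγi, Finsupp.filter_apply, if_pos rfl]
      _ ≤ _ := Finset.single_le_sum (f := fun j => bdegB γi j) (fun _ _ => Nat.zero_le _)
        (Finset.mem_univ i)
  obtain ⟨β₀, -, hβ₀le, hβ₀deg⟩ := NonSqX_interp 0 γi (zero_le) 2 (by simp) hγideg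
  have hβ₀i : bdegB β₀ i = 2 := by
    rw [← hβ₀deg, ← NonSqX_deg]
    symm
    apply Finset.sum_eq_single i
    · intro j _ hji
      unfold bdegB
      apply Finset.sum_eq_zero
      intro a _
      have h3 := hβ₀le (j, a)
      rw [hγi, Finsupp.filter_apply, if_neg (by exact hji)] at h3
      exact Nat.le_zero.1 h3
    · intro h3
      exact absurd (Finset.mem_univ i) h3
  obtain ⟨β, hβ1, hβ2, hβ3⟩ := NonSqX_interp β₀ γ (hβ₀le.trans hγile) e₀ (by omega) (by omega)
  have hβi : 2 ≤ bdegB β i := by
    rw [← hβ₀i]
    exact Finset.sum_le_sum fun a _ => hβ1 (i, a)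
  -- the blocks that `β` meets
  set b₀ : Finset (Fin N) := Finset.univ.filter (fun j => bdegB β j ≠ 0) with hb₀
  have hib₀ : i ∈ b₀ := by
    rw [hb₀, Finset.mem_filter]
    exact ⟨Finset.mem_univ i, by omega⟩
  have hb₀card : b₀.card ≤ e₀ - 1 := by
    have h3 : ∑ j ∈ b₀, bdegB β j ≤ e₀ := by
      rw [← hβ3, ← NonSqX_deg]
      exact Finset.sum_le_sum_of_subset (Finset.subset_univ _)
    rw [← Finset.add_sum_erase _ _ hib₀] at h3
    have h4 : (b₀.erase i).card ≤ ∑ j ∈ b₀.erase i, bdegB β j := by
      calc (b₀.erase i).card = ∑ j ∈ b₀.erase i, 1 := by simp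
        _ ≤ _ := by
          apply Finset.sum_le_sum
          intro j hj
          have h5 := Finset.mem_of_mem_erase hj
          rw [hb₀, Finset.mem_filter] at h5
          omega
    rw [Finset.card_erase_of_mem hib₀] at h4
    omega
  obtain ⟨b, hb₀b, hbcard⟩ := Finset.exists_superset_card_eq hb₀card
    (by rw [Fintype.card_fin]; omega)
  have hmem : monomial β (1 : ℂ) ∈ powSpan e₀ w e := by
    apply h b hbcard
    · exact isHomogeneous_monomial _ hβ3
    · intro γ' hγ' x hx
      have h3 := support_monomial_subset hγ'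
      rw [Finset.mem_singleton] at h3
      rw [h3] at hx
      apply hb₀b
      rw [hb₀, Finset.mem_filter]
      refine ⟨Finset.mem_univ _, fun h4 => ?_⟩
      unfold bdegB at h4
      rw [Finset.sum_eq_zero_iff] at h4
      exact hx (h4 x.2 (Finset.mem_univ _))
  have hmul : monomial γ (1 : ℂ) = monomial (γ - β) 1 * monomial β 1 := by
    rw [monomial_mul, one_mul, tsub_add_cancel_of_le hβ2]
  have hdeg : (γ - β).degree = d - e₀ := by
    have h3 : (γ - β + β).degree = γ.degree := by rw [tsub_add_cancel_of_le hβ2]
    rw [map_add, hβ3, hγ] at h3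
    omega
  rw [hmul]
  have hhom : (monomial (γ - β) (1 : ℂ)).IsHomogeneous (d - e₀) :=
    isHomogeneous_monomial _ hdeg
  generalize monomial (γ - β) (1 : ℂ) = G at hhom ⊢
  generalize monomial β (1 : ℂ) = F at hmem ⊢
  unfold powSpan at hmem
  induction hmem using Submodule.span_induction with
  | mem x hx =>
    obtain ⟨p, g, hp, hg, rfl⟩ := hx
    apply Submodule.subset_span
    refine ⟨p, G * g, hp.trans hd, ?_, by ring⟩
    have h3 := hhom.mul hg
    have h4 : d - e₀ + (e₀ - e p) = d - e p := by omega
    rwa [h4] at h3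
  | zero =>
    rw [mul_zero]
    exact Submodule.zero_mem _
  | add x y _ _ hx hy =>
    rw [mul_add]
    exact Submodule.add_mem _ hx hy
  | smul t x _ hx =>
    rw [mul_smul_comm]
    exact Submodule.smul_mem _ _ hx

end Pool.Agent.H21.HD

end

section

/-!
# General d: the virtual dimensions exist

`FF κ I` = sum over the families of pairwise disjoint nonempty subsets of `I` of the products of the `-κ S`.
-/

set_option autoImplicit false

namespace Pool.Agent.GD

open Finset

variable {ι : Type} [DecidableEq ι]

/-- the families of pairwise disjoint nonempty subsets of `I` -/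
def Dj (I : Finset ι) : Finset (Finset (Finset ι)) :=
  I.powerset.powerset.filter fun P => ∅ ∉ P ∧ ∀ S ∈ P, ∀ T ∈ P, S ≠ T → Disjoint S T

theorem mem_Dj {I : Finset ι} {P : Finset (Finset ι)} : P ∈ Dj I ↔
    (∀ S ∈ P, S ⊆ I) ∧ ∅ ∉ P ∧ ∀ S ∈ P, ∀ T ∈ P, S ≠ T → Disjoint S T := by
  unfold Dj
  rw [Finset.mem_filter, Finset.mem_powerset]
  refine and_congr ?_ Iff.rfl
  constructor
  · exact fun h S hS => Finset.mem_powerset.1 (h hS)
  · exact fun h S hS => Finset.mem_powerset.2 (h S hS)

/-- the virtual dimensions -/
def FF (κ : Finset ι → ℚ) (I : Finset ι) : ℚ := ∑ P ∈ Dj I, ∏ S ∈ P, -κ S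

theorem isF_FF (κ : Finset ι → ℚ) : IsF κ (FF κ) := by
  classical
  constructor
  · unfold FF
    have h1 : Dj (∅ : Finset ι) = {∅} := by
      ext P
      rw [mem_Dj, Finset.mem_singleton]
      constructor
      · rintro ⟨h1, h2, _⟩
        rw [Finset.eq_empty_iff_forall_notMem]
        intro S hS
        have h3 := Finset.subset_empty.1 (h1 S hS)
        exact h2 (h3 ▸ hS)
      · rintro rfl
        simp
    rw [h1, Finset.sum_singleton, Finset.prod_empty]
  · intro I i hi
    unfold FF
    rw [← Finset.sum_filter_add_sum_filter_not (Dj (insert i I)) (fun P => ∃ S ∈ P, i ∈ S)]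
    have h1 : (Dj (insert i I)).filter (fun P => ¬ ∃ S ∈ P, i ∈ S) = Dj I := by
      ext P
      rw [Finset.mem_filter, mem_Dj, mem_Dj]
      constructor
      · rintro ⟨⟨h1, h2⟩, h3⟩
        refine ⟨fun S hS => ?_, h2⟩
        have h4 := h1 S hS
        intro x hx
        rcases Finset.mem_insert.1 (h4 hx) with h5 | h5
        · subst h5
          exact absurd ⟨S, hS, hx⟩ h3
        · exact h5
      · rintro ⟨h1, h2⟩
        refine ⟨⟨fun S hS => (h1 S hS).trans (Finset.subset_insert _ _), h2⟩, ?_⟩
        rintro ⟨S, hS, h3⟩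
        exact hi (h1 S hS h3)
    rw [h1]
    have h2 : ∑ P ∈ (Dj (insert i I)).filter (fun P => ∃ S ∈ P, i ∈ S), ∏ S ∈ P, -κ S =
        ∑ x ∈ I.powerset.sigma fun B => Dj (I \ B), -κ (insert i x.1) * ∏ S ∈ x.2, -κ S := by
      symm
      have hni : ∀ x : (Σ _ : Finset ι, Finset (Finset ι)),
          x ∈ (I.powerset.sigma fun B => Dj (I \ B)) → ∀ T ∈ x.2, i ∉ T := by
        intro x hx T hT h
        rw [Finset.mem_sigma, Finset.mem_powerset, mem_Dj] at hx
        exact hi (Finset.mem_sdiff.1 (hx.2.1 T hT h)).1
      have hnm : ∀ x : (Σ _ : Finset ι, Finset (Finset ι)),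
          x ∈ (I.powerset.sigma fun B => Dj (I \ B)) → insert i x.1 ∉ x.2 := by
        intro x hx h
        exact hni x hx _ h (Finset.mem_insert_self _ _)
      refine Finset.sum_bij (fun x _ => insert (insert i x.1) x.2) ?_ ?_ ?_ ?_
      · intro x hx
        have hx' := hx
        rw [Finset.mem_sigma, Finset.mem_powerset, mem_Dj] at hx'
        obtain ⟨h3, h4, h5, h6⟩ := hx'
        rw [Finset.mem_filter, mem_Dj]
        refine ⟨⟨?_, ?_, ?_⟩, ⟨_, Finset.mem_insert_self _ _, Finset.mem_insert_self _ _⟩⟩
        · intro S hS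
          rcases Finset.mem_insert.1 hS with rfl | hS
          · exact Finset.insert_subset_insert _ h3
          · exact ((h4 S hS).trans Finset.sdiff_subset).trans (Finset.subset_insert _ _)
        · intro h
          rcases Finset.mem_insert.1 h with h | h
          · have : i ∈ (∅ : Finset ι) := by rw [h]; exact Finset.mem_insert_self _ _
            exact absurd this (Finset.notMem_empty _)
          · exact h5 h
        · have hd : ∀ T ∈ x.2, Disjoint (insert i x.1) T := by
            intro T hT
            rw [Finset.disjoint_left]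
            intro y hy hyT
            rcases Finset.mem_insert.1 hy with rfl | hy
            · exact hni x hx T hT hyT
            · exact (Finset.mem_sdiff.1 (h4 T hT hyT)).2 hy
          intro S hS T hT hST
          rcases Finset.mem_insert.1 hS with hS | hS
          · rcases Finset.mem_insert.1 hT with hT | hT
            · exact absurd (hS.trans hT.symm) hST
            · rw [hS]; exact hd T hT
          · rcases Finset.mem_insert.1 hT with hT | hT
            · rw [hT]; exact (hd S hS).symm
            · exact h6 S hS T hT hST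
      · rintro ⟨B, P⟩ hx ⟨B', P'⟩ hx' h
        have h3 : insert i B ∈ insert (insert i B') P' := by
          have h4 : insert i B ∈ insert (insert i B) P := Finset.mem_insert_self _ _
          rw [show insert (insert i B) P = insert (insert i B') P' from h] at h4
          exact h4
        have hxB := (Finset.mem_sigma.1 hx).1
        have hxB' := (Finset.mem_sigma.1 hx').1
        rw [Finset.mem_powerset] at hxB hxB'
        have h4 : insert i B = insert i B' := by
          rcases Finset.mem_insert.1 h3 with h4 | h4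
          · exact h4
          · exact absurd (Finset.mem_insert_self i B) (hni _ hx' _ h4)
        have h5 : B = B' := by
          have h6 := congrArg (fun T => T.erase i) h4
          simp only [Finset.erase_insert (fun h => hi (hxB h) : i ∉ B),
            Finset.erase_insert (fun h => hi (hxB' h) : i ∉ B')] at h6
          exact h6
        subst h5
        have h6 : P = P' := by
          have h7 := congrArg (fun T => T.erase (insert i B)) h
          simp only [Finset.erase_insert (hnm _ hx : insert i B ∉ P),
            Finset.erase_insert (hnm _ hx' : insert i B ∉ P')] at h7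
          exact h7
        rw [h6]
      · intro P hP
        rw [Finset.mem_filter, mem_Dj] at hP
        obtain ⟨⟨h3, h4, h5⟩, S, hS, hiS⟩ := hP
        refine ⟨⟨S.erase i, P.erase S⟩, ?_, ?_⟩
        · rw [Finset.mem_sigma, Finset.mem_powerset, mem_Dj]
          refine ⟨?_, ?_, ?_, ?_⟩
          · exact Finset.subset_insert_iff.1 (h3 S hS)
          · intro T hT
            have hTP := Finset.mem_of_mem_erase hT
            have hd := h5 T hTP S hS (Finset.ne_of_mem_erase hT)
            rw [Finset.disjoint_left] at hd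
            intro x hx
            refine Finset.mem_sdiff.2 ⟨?_, fun h => hd hx (Finset.mem_of_mem_erase h)⟩
            rcases Finset.mem_insert.1 (h3 T hTP hx) with rfl | h
            · exact absurd hiS (hd hx)
            · exact h
          · exact fun h => h4 (Finset.mem_of_mem_erase h)
          · exact fun T hT T' hT' => h5 T (Finset.mem_of_mem_erase hT) T' (Finset.mem_of_mem_erase hT')
        · show insert (insert i (S.erase i)) (P.erase S) = P
          rw [Finset.insert_erase hiS, Finset.insert_erase hS]
      · intro x hx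
        rw [Finset.prod_insert (hnm x hx)]
    rw [h2, Finset.sum_sigma]
    have h3 : ∀ B ∈ I.powerset, ∑ P ∈ Dj (I \ B), -κ (insert i B) * ∏ S ∈ P, -κ S =
        -(κ (insert i B) * ∑ P ∈ Dj (I \ B), ∏ S ∈ P, -κ S) := by
      intro B _
      rw [← Finset.mul_sum, neg_mul]
    rw [Finset.sum_congr rfl h3, Finset.sum_neg_distrib]
    ring

/-- the virtual dimensions are unique -/
theorem IsF.unique {κ F F' : Finset ι → ℚ} (h : IsF κ F) (h' : IsF κ F') : F = F' := by
  funext I
  induction I using Finset.strongInduction with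
  | H I ih =>
    rcases I.eq_empty_or_nonempty with rfl | ⟨i, hi⟩
    · rw [h.empty, h'.empty]
    · have h1 : I = insert i (I.erase i) := (Finset.insert_erase hi).symm
      rw [h1, h.step _ _ (Finset.notMem_erase _ _), h'.step _ _ (Finset.notMem_erase _ _),
        ih _ (Finset.erase_ssubset hi)]
      congr 1
      refine Finset.sum_congr rfl fun B _ => ?_
      rw [ih _ (Finset.sdiff_subset.trans_ssubset (Finset.erase_ssubset hi))]

end Pool.Agent.GD

end

section

/-!
# General d, block BETA, module MixA: the mean of the virtual dimensions over the corners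

`FR` is helper84's `FF` with real densities.  The corner seen by `α` has the densities `kcor`, the mean
densities are `kmix`.  `mixA`: for every family `P ∈ Dj univ` the product of the densities of the kinds
`S ∈ P` which are not base kinds depends on the residues of `α (min (rt S))`, different slots for
different `S`, so `cnt` applies with `w h x` = the density of the `S ∈ P` with `min (rt S) = h` (or `1`).
`used`: the number of the points of the kinds `(K, a)` (`#rt = a`), `cnt` with `e := a`.
-/

set_option autoImplicit false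

namespace Pool.Agent.GD.BE

open Finset

variable {ι : Type} [Fintype ι] [DecidableEq ι]

/-- The virtual dimensions with real densities. -/
noncomputable def FR (κ : Finset ι → ℝ) (I : Finset ι) : ℝ := ∑ P ∈ Dj I, ∏ S ∈ P, -κ S

theorem FR_cast (κ : Finset ι → ℚ) (I : Finset ι) : FR (fun S => (κ S : ℝ)) I = (FF κ I : ℝ) := by
  unfold FR FF
  push_cast
  rfl

variable {J e q : ℕ}

end Pool.Agent.GD.BE

end

section

/-!
# General d, the critical tensor lemma (T'')

`critical`: if the virtual dimension is positive for the slot sets strictly inside `I` and zero for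
`I`, and all dimensions are divisible enough, then general points kill all tensors.

Proof: one slot `i₀` of `I` at a time.  The points whose kind contains `i₀` get coordinate vectors
in this slot; every coordinate (*line*) gets points of one kind `insert i₀ B` only, namely
`σ B * ∏_{i ∈ B} c i` of them, `σ B = F (I - i₀) / F (I - i₀ - B)`.  The slice at such a line is the system on
`I - i₀` with these points as additional points of kind `B`, it is critical again (`modF`).  Its virtual
dimensions are nonnegative (`IsF.mono`), a minimal zero set takes the place of `I`.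
-/

set_option autoImplicit false

namespace Pool.Agent.GD

open Finset MvPolynomial Pool.Agent.H51.TB

variable {ι : Type} [Fintype ι] [DecidableEq ι] {c : ι → ℕ}

section virt

variable {κ F : Finset ι → ℚ}

omit [Fintype ι] in
private theorem tt_R (hκ : ∀ S, 0 ≤ κ S) (hF : IsF κ F) {J K : Finset ι} (hJK : J ⊆ K) {a : ι}
    (ha : a ∉ K) (hJ : 0 < F J) (hK : ∀ B ⊆ K, 0 ≤ F (K \ B))
    (h : ∀ B ⊆ J, F K * F (J \ B) ≤ F J * F (K \ B)) :
    F (insert a K) * F J ≤ F (insert a J) * F K := by
  rw [hF.step K a ha, hF.step J a fun h' => ha (hJK h')]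
  have h1 : (∑ B ∈ J.powerset, κ (insert a B) * F (J \ B)) * F K ≤
      (∑ B ∈ K.powerset, κ (insert a B) * F (K \ B)) * F J := by
    rw [Finset.sum_mul, Finset.sum_mul]
    have h2 : ∑ B ∈ J.powerset, κ (insert a B) * F (J \ B) * F K ≤
        ∑ B ∈ J.powerset, κ (insert a B) * F (K \ B) * F J := by
      refine Finset.sum_le_sum fun B hB => ?_
      rw [Finset.mem_powerset] at hB
      rw [mul_assoc, mul_assoc]
      refine mul_le_mul_of_nonneg_left ?_ (hκ _)
      have := h B hB
      linarith [mul_comm (F (J \ B)) (F K), mul_comm (F (K \ B)) (F J)]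
    refine h2.trans (Finset.sum_le_sum_of_subset_of_nonneg (Finset.powerset_mono.2 hJK) ?_)
    intro B hB _
    exact mul_nonneg (mul_nonneg (hκ _) (hK B (Finset.mem_powerset.1 hB))) hJ.le
  nlinarith [h1]

omit [Fintype ι] in
/-- `F K / F (K - A) ≤ F J / F (J - A)` for `A ⊆ J ⊆ K`. -/
theorem IsF.mono (hκ : ∀ S, 0 ≤ κ S) (hF : IsF κ F) {I : Finset ι} (hpos : ∀ J ⊆ I, 0 < F J) :
    ∀ (n : ℕ) (K : Finset ι), K ⊆ I → K.card ≤ n → ∀ J ⊆ K, ∀ A ⊆ J,
      F K * F (J \ A) ≤ F J * F (K \ A) := by
  intro n
  induction n with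
  | zero =>
    intro K _ hK J hJ A hA
    have h1 : K = ∅ := Finset.card_eq_zero.1 (Nat.le_zero.1 hK)
    subst h1
    have h2 : J = ∅ := Finset.subset_empty.1 hJ
    subst h2
    have h3 : A = ∅ := Finset.subset_empty.1 hA
    subst h3
    exact le_rfl
  | succ n ih =>
    intro K hKI hK J hJ A
    induction A using Finset.induction_on with
    | empty =>
      intro _
      rw [Finset.sdiff_empty, Finset.sdiff_empty, mul_comm]
    | insert a A ha ihA =>
      intro hA
      have haJ : a ∈ J := hA (Finset.mem_insert_self a A)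
      have hAJ : A ⊆ J := fun x hx => hA (Finset.mem_insert_of_mem hx)
      have h1 := ihA hAJ
      have eK : K \ A = insert a (K \ insert a A) := by
        ext x
        simp only [Finset.mem_sdiff, Finset.mem_insert, not_or]
        constructor
        · rintro ⟨h2, h3⟩
          by_cases h4 : x = a
          · exact Or.inl h4
          · exact Or.inr ⟨h2, h4, h3⟩
        · rintro (h2 | ⟨h2, _, h3⟩)
          · subst h2; exact ⟨hJ haJ, ha⟩
          · exact ⟨h2, h3⟩
      have eJ : J \ A = insert a (J \ insert a A) := by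
        ext x
        simp only [Finset.mem_sdiff, Finset.mem_insert, not_or]
        constructor
        · rintro ⟨h2, h3⟩
          by_cases h4 : x = a
          · exact Or.inl h4
          · exact Or.inr ⟨h2, h4, h3⟩
        · rintro (h2 | ⟨h2, _, h3⟩)
          · subst h2; exact ⟨haJ, ha⟩
          · exact ⟨h2, h3⟩
      have hcard : (K \ insert a A).card ≤ n := by
        have h2 : K \ insert a A ⊂ K := by
          refine Finset.ssubset_iff_subset_ne.2 ⟨Finset.sdiff_subset, fun h3 => ?_⟩
          have h4 : a ∈ K \ insert a A := by rw [h3]; exact hJ haJ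
          exact (Finset.mem_sdiff.1 h4).2 (Finset.mem_insert_self a A)
        have h3 := Finset.card_lt_card h2
        omega
      have hK' : K \ insert a A ⊆ I := Finset.sdiff_subset.trans hKI
      have hJ' : J \ insert a A ⊆ K \ insert a A := Finset.sdiff_subset_sdiff hJ (subset_refl _)
      have h2 : F (K \ A) * F (J \ insert a A) ≤ F (J \ A) * F (K \ insert a A) := by
        rw [eK, eJ]
        refine tt_R hκ hF hJ' (by simp) (hpos _ (hJ'.trans hK'))
          (fun B _ => (hpos _ (Finset.sdiff_subset.trans hK')).le) fun B hB => ?_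
        exact ih _ hK' hcard _ hJ' B hB
      have p1 : 0 < F (K \ A) := hpos _ (Finset.sdiff_subset.trans hKI)
      have p2 : 0 < F (J \ A) := hpos _ (Finset.sdiff_subset.trans (hJ.trans hKI))
      have p3 : 0 < F K := hpos _ hKI
      have p4 : 0 < F J := hpos _ (hJ.trans hKI)
      have p5 : 0 < F (J \ insert a A) := hpos _ (hJ'.trans hK')
      have p6 : 0 < F (K \ insert a A) := hpos _ hK'
      have h3 : (F K * F (J \ A)) * (F (K \ A) * F (J \ insert a A)) ≤
          (F J * F (K \ A)) * (F (J \ A) * F (K \ insert a A)) :=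
        mul_le_mul h1 h2 (by positivity) (by positivity)
      have h4 : (F (J \ A) * F (K \ A)) * (F K * F (J \ insert a A)) ≤
          (F (J \ A) * F (K \ A)) * (F J * F (K \ insert a A)) := by
        calc (F (J \ A) * F (K \ A)) * (F K * F (J \ insert a A))
            = (F K * F (J \ A)) * (F (K \ A) * F (J \ insert a A)) := by ring
          _ ≤ (F J * F (K \ A)) * (F (J \ A) * F (K \ insert a A)) := h3
          _ = (F (J \ A) * F (K \ A)) * (F J * F (K \ insert a A)) := by ring
      exact le_of_mul_le_mul_left h4 (by positivity)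

/-- the densities with `σ` more points of kind `A` -/
def modK (κ : Finset ι → ℚ) (A : Finset ι) (σ : ℚ) (S : Finset ι) : ℚ :=
  κ S + if S = A then σ else 0

/-- the virtual dimensions with `σ` more points of kind `A` -/
def modF (F : Finset ι → ℚ) (A : Finset ι) (σ : ℚ) (J : Finset ι) : ℚ :=
  F J - if A ⊆ J then σ * F (J \ A) else 0

omit [Fintype ι] in
theorem IsF.mod (hF : IsF κ F) {A : Finset ι} (hA : A ≠ ∅) (σ : ℚ) :
    IsF (modK κ A σ) (modF F A σ) := by
  constructor
  · unfold modF
    rw [if_neg fun h => hA (Finset.subset_empty.1 h), sub_zero, hF.empty]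
  · intro I i hi
    by_cases hiA : i ∈ A
    · have hAI : ∀ B, ¬ A ⊆ I \ B := fun B h => hi (Finset.mem_sdiff.1 (h hiA)).1
      have hAI' : ¬ A ⊆ I := fun h => hi (h hiA)
      have e1 : (insert i I) \ A = I \ A.erase i := by
        ext x
        simp only [Finset.mem_sdiff, Finset.mem_insert, Finset.mem_erase, not_and]
        constructor
        · rintro ⟨h1 | h1, h2⟩
          · subst h1; exact absurd hiA h2
          · exact ⟨h1, fun _ => h2⟩
        · rintro ⟨h1, h2⟩
          have h3 : x ≠ i := fun h => hi (h ▸ h1)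
          exact ⟨Or.inr h1, h2 h3⟩
      have e2 : A ⊆ insert i I ↔ A.erase i ⊆ I := by
        rw [Finset.subset_insert_iff]
      have e3 : ∀ B ∈ I.powerset, modK κ A σ (insert i B) * modF F A σ (I \ B) =
          κ (insert i B) * F (I \ B) + if B = A.erase i then σ * F (I \ B) else 0 := by
        intro B hB
        have hiB : i ∉ B := fun h => hi (Finset.mem_powerset.1 hB h)
        have e4 : insert i B = A ↔ B = A.erase i := by
          constructor
          · rintro rfl; rw [Finset.erase_insert hiB]
          · rintro rfl; rw [Finset.insert_erase hiA]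
        unfold modK modF
        rw [if_neg (hAI B), sub_zero]
        by_cases h : B = A.erase i
        · rw [if_pos (e4.2 h), if_pos h]; ring
        · rw [if_neg fun h' => h (e4.1 h'), if_neg h]; ring
      rw [Finset.sum_congr rfl e3, Finset.sum_add_distrib, Finset.sum_ite_eq']
      unfold modF
      rw [if_neg hAI', sub_zero, hF.step I i hi, e1]
      simp only [e2, Finset.mem_powerset]
      ring
    · have e2 : A ⊆ insert i I ↔ A ⊆ I := by
        rw [Finset.subset_insert_iff, Finset.erase_eq_of_notMem hiA]
      have e3 : ∀ B ∈ I.powerset, modK κ A σ (insert i B) * modF F A σ (I \ B) =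
          κ (insert i B) * F (I \ B) -
            if A ⊆ I \ B then σ * (κ (insert i B) * F ((I \ B) \ A)) else 0 := by
        intro B _
        unfold modK modF
        rw [if_neg (fun h : insert i B = A => hiA (by rw [← h]; exact Finset.mem_insert_self i B)),
          add_zero]
        split_ifs
        · ring
        · ring
      rw [Finset.sum_congr rfl e3, Finset.sum_sub_distrib]
      unfold modF
      rw [hF.step I i hi]
      by_cases hAI : A ⊆ I
      · rw [if_pos (e2.2 hAI), if_pos hAI]
        have e4 : insert i I \ A = insert i (I \ A) := Finset.insert_sdiff_of_notMem _ hiA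
        have hi' : i ∉ I \ A := fun h => hi (Finset.mem_sdiff.1 h).1
        rw [e4, hF.step _ i hi']
        have e5 : ∑ B ∈ I.powerset, (if A ⊆ I \ B then σ * (κ (insert i B) * F ((I \ B) \ A)) else 0)
            = σ * ∑ B ∈ (I \ A).powerset, κ (insert i B) * F ((I \ A) \ B) := by
          rw [← Finset.sum_filter, Finset.mul_sum]
          refine Finset.sum_congr ?_ fun B _ => ?_
          · ext B
            simp only [Finset.mem_filter, Finset.mem_powerset]
            constructor
            · rintro ⟨h1, h2⟩ x hx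
              exact Finset.mem_sdiff.2 ⟨h1 hx, fun h => (Finset.mem_sdiff.1 (h2 h)).2 hx⟩
            · intro h1
              exact ⟨fun x hx => (Finset.mem_sdiff.1 (h1 hx)).1, fun x hx =>
                Finset.mem_sdiff.2 ⟨hAI hx, fun h => (Finset.mem_sdiff.1 (h1 h)).2 hx⟩⟩
          · rw [sdiff_right_comm]
        rw [e5]
        ring
      · rw [if_neg fun h => hAI (e2.1 h), if_neg hAI]
        have e5 : ∑ B ∈ I.powerset, (if A ⊆ I \ B then σ * (κ (insert i B) * F ((I \ B) \ A)) else 0)
            = 0 := by
          refine Finset.sum_eq_zero fun B _ => if_neg fun h => hAI (h.trans Finset.sdiff_subset)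
        rw [e5]
        ring

end virt

section cut

theorem ctr_slice (S : Finset ι) (y : (Σ i, Fin (c i)) → ℂ) (F : (∀ i, Fin (c i)) → ℂ) (i₀ : ι)
    (x : Fin (c i₀)) (h₀ : i₀ ∉ S) (w : ∀ i, Fin (c i)) :
    ctr S y (fun e => F (Function.update e i₀ x)) w = ctr S y F (Function.update w i₀ x) := by
  unfold ctr
  rw [← Finset.sum_filter, ← Finset.sum_filter]
  refine Finset.sum_nbij' (fun e => Function.update e i₀ x) (fun e => Function.update e i₀ (w i₀))
    ?_ ?_ ?_ ?_ ?_
  · intro e he
    simp only [Finset.mem_filter, Finset.mem_univ, true_and] at he ⊢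
    intro j hj
    by_cases h : j = i₀
    · subst h; simp
    · rw [Function.update_of_ne h, Function.update_of_ne h, he j hj]
  · intro e he
    simp only [Finset.mem_filter, Finset.mem_univ, true_and] at he ⊢
    intro j hj
    by_cases h : j = i₀
    · subst h; simp
    · rw [Function.update_of_ne h, he j hj, Function.update_of_ne h]
  · intro e he
    simp only [Finset.mem_filter, Finset.mem_univ, true_and] at he
    rw [Function.update_idem, ← he i₀ h₀, Function.update_eq_self]
  · intro e he
    simp only [Finset.mem_filter, Finset.mem_univ, true_and] at he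
    have h1 := he i₀ h₀
    rw [Function.update_self] at h1
    rw [Function.update_idem, ← h1, Function.update_eq_self]
  · intro e _
    congr 1
    refine Finset.prod_congr rfl fun j hj => ?_
    have h : j ≠ i₀ := fun h => h₀ (h ▸ hj)
    rw [Function.update_of_ne h]

theorem ctr_erase (S : Finset ι) (y : (Σ i, Fin (c i)) → ℂ) (F : (∀ i, Fin (c i)) → ℂ) (i₀ : ι)
    (x : Fin (c i₀)) (h₀ : i₀ ∈ S) (hy : ∀ x', y ⟨i₀, x'⟩ = if x' = x then 1 else 0)
    (w : ∀ i, Fin (c i)) :
    ctr (S.erase i₀) y (fun e => F (Function.update e i₀ x)) w = ctr S y F w := by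
  unfold ctr
  rw [← Finset.sum_filter, ← Finset.sum_filter]
  have h1 : ∑ e ∈ Finset.univ.filter (fun e : ∀ i, Fin (c i) => ∀ j, j ∉ S → e j = w j),
      (∏ j ∈ S, y ⟨j, e j⟩) * F e =
      ∑ e ∈ (Finset.univ.filter (fun e : ∀ i, Fin (c i) => ∀ j, j ∉ S → e j = w j)).filter
        (fun e => e i₀ = x), (∏ j ∈ S.erase i₀, y ⟨j, e j⟩) * F e := by
    rw [Finset.sum_filter (s := Finset.univ.filter
      (fun e : ∀ i, Fin (c i) => ∀ j, j ∉ S → e j = w j))]
    refine Finset.sum_congr rfl fun e _ => ?_
    rw [← Finset.mul_prod_erase S _ h₀, hy]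
    by_cases h : e i₀ = x
    · rw [if_pos h, if_pos h, one_mul]
    · rw [if_neg h, if_neg h, zero_mul, zero_mul]
  rw [h1]
  refine Finset.sum_nbij' (fun e => Function.update e i₀ x) (fun e => Function.update e i₀ (w i₀))
    ?_ ?_ ?_ ?_ ?_
  · intro e he
    simp only [Finset.mem_filter, Finset.mem_univ, true_and] at he ⊢
    refine ⟨fun j hj => ?_, by simp⟩
    have h : j ≠ i₀ := fun h => hj (h ▸ h₀)
    rw [Function.update_of_ne h]
    exact he j fun h' => hj (Finset.mem_of_mem_erase h')
  · intro e he
    simp only [Finset.mem_filter, Finset.mem_univ, true_and] at he ⊢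
    intro j hj
    by_cases h : j = i₀
    · subst h; simp
    · rw [Function.update_of_ne h]
      exact he.1 j fun h' => hj (Finset.mem_erase.2 ⟨h, h'⟩)
  · intro e he
    simp only [Finset.mem_filter, Finset.mem_univ, true_and] at he
    rw [Function.update_idem, ← he i₀ (Finset.notMem_erase i₀ S), Function.update_eq_self]
  · intro e he
    simp only [Finset.mem_filter, Finset.mem_univ, true_and] at he
    rw [Function.update_idem, ← he.2, Function.update_eq_self]
  · intro e _
    congr 1
    refine Finset.prod_congr rfl fun j hj => ?_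
    rw [Function.update_of_ne (Finset.ne_of_mem_erase hj)]

/-- The slot step: if all slices are killed, everything is killed. -/
theorem tt_step (i₀ : ι) {κ : Type} [Fintype κ] (m : κ → Finset ι) (line : κ → Fin (c i₀))
    (h : ∀ x : Fin (c i₀), (TS ι c).gd (fun i : {i // i₀ ∉ m i ∨ line i = x} =>
      (m i.1).erase i₀) = 0) : (TS ι c).gd m = 0 := by
  classical
  have h1 : ∀ x ∈ (Finset.univ : Finset (Fin (c i₀))), Gn κ (Σ i, Fin (c i)) fun p =>
      Module.finrank ℂ ((TS ι c).V (fun i : {i // i₀ ∉ m i ∨ line i = x} =>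
        (m i.1).erase i₀) fun i => p i.1) = 0 := by
    intro x _
    have h2 := gn_gd (TS ι c) fun i : {i // i₀ ∉ m i ∨ line i = x} => (m i.1).erase i₀
    have h3 := Gn.comap (κ := κ) (fun i : {i // i₀ ∉ m i ∨ line i = x} => i.1)
      Subtype.val_injective h2
    refine h3.mono fun p hp => ?_
    rw [h x] at hp
    exact hp
  obtain ⟨p, hp⟩ := (Gn.all Finset.univ h1).exists
  let P : κ → (Σ i, Fin (c i)) → ℂ := fun i z =>
    if z.1 = i₀ then (if z = ⟨i₀, line i⟩ then 1 else 0) else p i z
  have hP1 : ∀ i x', P i ⟨i₀, x'⟩ = if x' = line i then 1 else 0 := by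
    intro i x'
    simp only [P, if_true]
    by_cases hx : x' = line i
    · subst hx; simp
    · rw [if_neg hx, if_neg]
      intro h'
      apply hx
      simpa using h'
  have hP2 : ∀ (i : κ) (S : Finset ι) (F : (∀ i, Fin (c i)) → ℂ) (w : ∀ i, Fin (c i)), i₀ ∉ S →
      ctr S (P i) F w = ctr S (p i) F w := by
    intro i S F w hS
    unfold ctr
    refine Finset.sum_congr rfl fun e _ => ?_
    have : ∏ j ∈ S, P i ⟨j, e j⟩ = ∏ j ∈ S, p i ⟨j, e j⟩ := by
      refine Finset.prod_congr rfl fun j hj => ?_
      have : j ≠ i₀ := fun h' => hS (h' ▸ hj)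
      simp only [P, if_neg this]
    rw [this]
  have hV : (TS ι c).V m P = ⊥ := by
    rw [Submodule.eq_bot_iff]
    intro F hF
    rw [mem_TS] at hF
    have h3 : ∀ x : Fin (c i₀), (fun e : ∀ i, Fin (c i) => F (Function.update e i₀ x)) = 0 := by
      intro x
      have h4 : (TS ι c).V (fun i : {i // i₀ ∉ m i ∨ line i = x} =>
          (m i.1).erase i₀) (fun i => p i.1) = ⊥ := Submodule.finrank_eq_zero.1 (hp x (mem_univ x))
      have h5 : (fun e : ∀ i, Fin (c i) => F (Function.update e i₀ x)) ∈
          (TS ι c).V (fun i : {i // i₀ ∉ m i ∨ line i = x} =>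
            (m i.1).erase i₀) (fun i => p i.1) := by
        rw [mem_TS]
        rintro ⟨i, hi⟩ w
        rw [← hP2 i _ _ w (Finset.notMem_erase i₀ (m i))]
        by_cases hn : i₀ ∈ m i
        · have hl : line i = x := hi.resolve_left fun h' => h' hn
          rw [ctr_erase (m i) (P i) F i₀ x hn (fun x' => by rw [hP1, hl]) w]
          exact hF i w
        · show ctr ((m i).erase i₀) (P i) _ w = 0
          rw [Finset.erase_eq_of_notMem hn, ctr_slice (m i) (P i) F i₀ x hn w]
          exact hF i _
      rw [h4, Submodule.mem_bot] at h5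
      exact h5
    funext e
    have h4 := congrFun (h3 (e i₀)) e
    simpa using h4
  have h4 := gd_le (TS ι c) m P
  rw [hV, finrank_bot] at h4
  omega

end cut

section count

/-- An embedding over a base, from the numbers of elements of the fibers. -/
theorem exists_fib_emb {X Y K : Type} [Fintype X] [Fintype Y] (f : X → K) (g : Y → K)
    (h : ∀ k, Nat.card {x // f x = k} ≤ Nat.card {y // g y = k}) :
    ∃ e : X → Y, Function.Injective e ∧ ∀ x, g (e x) = f x := by
  classical
  have h1 : ∀ k, Nonempty ({x // f x = k} ↪ {y // g y = k}) := by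
    intro k
    refine Function.Embedding.nonempty_of_card_le ?_
    have := h k
    rwa [Nat.card_eq_fintype_card, Nat.card_eq_fintype_card] at this
  let E : ∀ k, {x // f x = k} ↪ {y // g y = k} := fun k => (h1 k).some
  refine ⟨fun x => (E (f x) ⟨x, rfl⟩).1, ?_, fun x => (E (f x) ⟨x, rfl⟩).2⟩
  intro x x' hxx
  have h2 : f x = f x' := by
    have h3 := (E (f x) ⟨x, rfl⟩).2
    have h4 := (E (f x') ⟨x', rfl⟩).2
    rw [← h3, ← h4]
    exact congrArg g hxx
  have h3 : ∀ (k : K) (hk : f x = k) (hk' : f x' = k),
      ((E k ⟨x, hk⟩).1 = (E k ⟨x', hk'⟩).1) → x = x' := by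
    intro k hk hk' h4
    have h5 := (E k).injective (Subtype.ext h4)
    exact congrArg Subtype.val h5
  refine h3 (f x) rfl h2.symm ?_
  have h4 : ∀ (k k' : K) (hkk : k = k') (hk : f x' = k) (hk' : f x' = k'),
      (E k ⟨x', hk⟩).1 = (E k' ⟨x', hk'⟩).1 := by
    rintro k _ rfl hk hk'
    rfl
  exact hxx.trans (h4 (f x') (f x) h2.symm rfl h2.symm)

/-- More points, smaller system. -/
theorem gd_mono {E ν T : Type} [Fintype E] (S : Sys E ν T) {κ κ' : Type} (m : κ → T) (m' : κ' → T)
    (e : κ' → κ) (he : Function.Injective e) (hm : ∀ i, m (e i) = m' i) : S.gd m ≤ S.gd m' := by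
  classical
  obtain ⟨p, hp⟩ := gd_attained S m'
  let P : κ → ν → ℂ := fun i => if h : ∃ j, e j = i then p h.choose else 0
  have hP : ∀ j, P (e j) = p j := by
    intro j
    have h : ∃ j', e j' = e j := ⟨j, rfl⟩
    simp only [P, dif_pos h]
    rw [he h.choose_spec]
  refine (gd_le S m P).trans ?_
  rw [← hp]
  refine Submodule.finrank_mono fun F hF => ?_
  rw [Sys.mem_V] at hF ⊢
  have h1 : ∀ (t : T) (j : κ') (ht : m (e j) = t) (r : S.R t),
      ∑ x, eval (p j) (S.co t r x) * F x = 0 := by
    rintro t j rfl r
    have := hF (e j) r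
    rwa [hP] at this
  intro j r
  exact h1 (m' j) j (hm j) r

theorem exists_nat_mul {q : ℚ} (hq : 0 ≤ q) {c : ℕ} (h : q.den ∣ c) : ∃ n : ℕ, (n : ℚ) = c * q := by
  obtain ⟨k, rfl⟩ := h
  refine ⟨k * q.num.toNat, ?_⟩
  have h1 : ((q.num.toNat : ℕ) : ℚ) = q.num := by
    have := Int.toNat_of_nonneg (Rat.num_nonneg.2 hq)
    exact_mod_cast this
  have h2 : (q.den : ℚ) * q = q.num := Rat.den_mul_eq_num q
  push_cast
  rw [h1, ← h2]
  ring

end count

omit [Fintype ι] in
private theorem tt_zero {κ F : Finset ι → ℚ} (hF : IsF κ F) {I' : Finset ι} {i₀ : ι} (hi : i₀ ∉ I')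
    (hz : F (insert i₀ I') = 0) (hI' : 0 < F I') :
    ∑ B ∈ I'.powerset, κ (insert i₀ B) * (F (I' \ B) / F I') = 1 := by
  have h1 := hF.step I' i₀ hi
  rw [hz] at h1
  have h2 : ∑ B ∈ I'.powerset, κ (insert i₀ B) * (F (I' \ B) / F I') =
      (∑ B ∈ I'.powerset, κ (insert i₀ B) * F (I' \ B)) / F I' := by
    rw [Finset.sum_div]
    exact Finset.sum_congr rfl fun B _ => (mul_div_assoc _ _ _).symm
  rw [h2, div_eq_one_iff_eq hI'.ne']
  linarith

/-- THE CRITICAL TENSOR LEMMA. -/
theorem critical : ∀ (n : ℕ) (κ F : Finset ι → ℚ) (_ : ∀ S, 0 ≤ κ S) (_ : IsF κ F) (I : Finset ι)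
    (_ : I.card ≤ n) (_ : ∀ J, J ⊂ I → 0 < F J) (_ : F I = 0),
    ∃ N : ℕ, 0 < N ∧ ∀ c : ι → ℕ, (∀ i, 0 < c i ∧ N ∣ c i) →
      ∀ (P : Type) [Fintype P] (m : P → Finset ι),
        (∀ S ⊆ I, κ S * ∏ i ∈ S, (c i : ℚ) ≤ Nat.card {x // m x = S}) → (TS ι c).gd m = 0 := by
  classical
  intro n
  induction n with
  | zero =>
    intro κ F _ hF I hI _ hz
    have h1 : I = ∅ := Finset.card_eq_zero.1 (Nat.le_zero.1 hI)
    rw [h1, hF.empty] at hz
    exact absurd hz one_ne_zero
  | succ n ih =>
    intro κ F hκ hF I hI hpos hz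
    have hne : I.Nonempty := by
      rw [Finset.nonempty_iff_ne_empty]
      rintro rfl
      rw [hF.empty] at hz
      exact one_ne_zero hz
    obtain ⟨i₀, hi₀⟩ := hne
    obtain ⟨I', hi', rfl⟩ : ∃ I', i₀ ∉ I' ∧ I = insert i₀ I' :=
      ⟨I.erase i₀, Finset.notMem_erase _ _, (Finset.insert_erase hi₀).symm⟩
    have hcard : I'.card ≤ n := by
      rw [Finset.card_insert_of_notMem hi'] at hI
      omega
    have hsub : ∀ J ⊆ I', J ⊂ insert i₀ I' := fun J hJ =>
      (Finset.ssubset_insert hi').trans_le' hJ
    have hpos' : ∀ J ⊆ I', 0 < F J := fun J hJ => hpos J (hsub J hJ)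
    have hI' : 0 < F I' := hpos' I' (subset_refl _)
    let σ : Finset ι → ℚ := fun B => F I' / F (I' \ B)
    have hσ : ∀ B, 0 < σ B := fun B => div_pos hI' (hpos' _ Finset.sdiff_subset)
    -- the slices
    have hsl : ∀ B : Finset ι, ∃ N : ℕ, 0 < N ∧ (B ⊆ I' → B ≠ ∅ →
        ∀ c : ι → ℕ, (∀ i, 0 < c i ∧ N ∣ c i) →
        ∀ (P : Type) [Fintype P] (m : P → Finset ι),
          (∀ S ⊆ I', modK κ B (σ B) S * ∏ i ∈ S, (c i : ℚ) ≤ Nat.card {x // m x = S}) →
            (TS ι c).gd m = 0) := by
      intro B
      by_cases hB : B ⊆ I' ∧ B ≠ ∅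
      swap
      · exact ⟨1, one_pos, fun h1 h2 => absurd ⟨h1, h2⟩ hB⟩
      obtain ⟨hBI, hB0⟩ := hB
      have hF' := hF.mod hB0 (σ B)
      have hz' : modF F B (σ B) I' = 0 := by
        unfold modF
        rw [if_pos hBI]
        show F I' - F I' / F (I' \ B) * F (I' \ B) = 0
        rw [div_mul_cancel₀ _ (hpos' _ Finset.sdiff_subset).ne', sub_self]
      have hnn : ∀ J ⊆ I', 0 ≤ modF F B (σ B) J := by
        intro J hJ
        unfold modF
        split_ifs with h
        · have h1 := IsF.mono hκ hF hpos' _ I' (subset_refl _) le_rfl J hJ B h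
          have h2 : 0 < F (I' \ B) := hpos' _ Finset.sdiff_subset
          show 0 ≤ F J - F I' / F (I' \ B) * F (J \ B)
          rw [sub_nonneg, div_mul_eq_mul_div, div_le_iff₀ h2]
          exact h1
        · rw [sub_zero]
          exact (hpos' J hJ).le
      -- a minimal zero set
      obtain ⟨J, hJmem, hJmin⟩ := (I'.powerset.filter fun J => modF F B (σ B) J = 0).exists_minimal
        ⟨I', Finset.mem_filter.2 ⟨Finset.mem_powerset.2 (subset_refl _), hz'⟩⟩
      rw [Finset.mem_filter, Finset.mem_powerset] at hJmem
      obtain ⟨N, hN, h⟩ := ih (modK κ B (σ B)) (modF F B (σ B)) (fun S => by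
        unfold modK
        split_ifs
        · exact add_nonneg (hκ S) (hσ B).le
        · rw [add_zero]; exact hκ S) hF' J
        ((Finset.card_le_card hJmem.1).trans hcard)
        (fun K hK => by
          refine lt_of_le_of_ne (hnn K (hK.subset.trans hJmem.1)) fun h0 => ?_
          have h1 : K ∈ I'.powerset.filter fun J => modF F B (σ B) J = 0 :=
            Finset.mem_filter.2 ⟨Finset.mem_powerset.2 (hK.subset.trans hJmem.1), h0.symm⟩
          exact hK.not_subset (hJmin h1 hK.subset)) hJmem.2
      exact ⟨N, hN, fun _ _ c hc P _ m hm => h c hc P m fun S hS => hm S (hS.trans hJmem.1)⟩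
    choose Nf hNf hsl using hsl
    let N : ℕ := ∏ B ∈ I'.powerset, (Nf B * ((κ (insert i₀ B) * (F (I' \ B) / F I')).den *
      (σ B).den))
    have hN : 0 < N := Finset.prod_pos fun B _ =>
      Nat.mul_pos (hNf B) (Nat.mul_pos (Rat.den_pos _) (Rat.den_pos _))
    have hdv : ∀ B ∈ I'.powerset, Nf B * ((κ (insert i₀ B) * (F (I' \ B) / F I')).den *
        (σ B).den) ∣ N := fun B hB => Finset.dvd_prod_of_mem _ hB
    refine ⟨N, hN, fun c hc P _ m hm => ?_⟩
    -- the numbers of lines of every kind
    have hn : ∀ B : Finset ι, ∃ k : ℕ, B ∈ I'.powerset →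
        (k : ℚ) = c i₀ * (κ (insert i₀ B) * (F (I' \ B) / F I')) := by
      intro B
      by_cases hB : B ∈ I'.powerset
      · obtain ⟨k, hk⟩ := exists_nat_mul (q := κ (insert i₀ B) * (F (I' \ B) / F I'))
          (mul_nonneg (hκ _) (div_nonneg (hpos' _ Finset.sdiff_subset).le hI'.le)) (c := c i₀)
          (((Dvd.intro _ rfl).trans (Dvd.intro_left _ rfl)).trans
            ((hdv B hB).trans (hc i₀).2))
        exact ⟨k, fun _ => hk⟩
      · exact ⟨0, fun h => absurd h hB⟩
    choose nl hnl using hn
    -- the numbers of points on a line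
    have hs : ∀ B : Finset ι, ∃ k : ℕ, B ∈ I'.powerset → (k : ℚ) = σ B * ∏ i ∈ B, (c i : ℚ) := by
      intro B
      by_cases hB : B ∈ I'.powerset
      · rcases B.eq_empty_or_nonempty with rfl | ⟨j, hj⟩
        · refine ⟨1, fun _ => ?_⟩
          show ((1 : ℕ) : ℚ) = F I' / F (I' \ ∅) * _
          rw [Finset.sdiff_empty, div_self hI'.ne', Finset.prod_empty]
          norm_num
        · have h1 : (σ B).den ∣ ∏ i ∈ B, c i :=
            (((Dvd.intro_left _ rfl).trans (Dvd.intro_left _ rfl)).trans
              ((hdv B hB).trans (hc j).2)).trans (Finset.dvd_prod_of_mem _ hj)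
          obtain ⟨k, hk⟩ := exists_nat_mul (hσ B).le h1
          refine ⟨k, fun _ => ?_⟩
          rw [hk]
          push_cast
          ring
      · exact ⟨0, fun h => absurd h hB⟩
    choose s hs using hs
    -- the kinds of the lines
    have hcardl : Fintype.card (Fin (c i₀)) = Fintype.card (Σ B : I'.powerset, Fin (nl B.1)) := by
      rw [Fintype.card_fin, Fintype.card_sigma]
      simp only [Fintype.card_fin]
      have h1 : ((∑ B : I'.powerset, nl B.1 : ℕ) : ℚ) = c i₀ := by
        rw [Finset.sum_coe_sort I'.powerset fun B => nl B]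
        push_cast
        rw [Finset.sum_congr rfl hnl, ← Finset.mul_sum, tt_zero hF hi' hz hI', mul_one]
      exact_mod_cast h1.symm
    let eq := Fintype.equivOfCardEq hcardl
    let Bl : Fin (c i₀) → Finset ι := fun x => (eq x).1.1
    have hBl : ∀ x, Bl x ⊆ I' := fun x => Finset.mem_powerset.1 (eq x).1.2
    -- the points on the lines
    obtain ⟨e, he, hme⟩ := exists_fib_emb
      (fun z : (Σ x : Fin (c i₀), Fin (s (Bl x))) => insert i₀ (Bl z.1)) m (by
        intro S
        by_cases hS : ∃ B ⊆ I', S = insert i₀ B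
        · obtain ⟨B, hBI, rfl⟩ := hS
          have hBp := Finset.mem_powerset.2 hBI
          have hiB : i₀ ∉ B := fun h => hi' (hBI h)
          have h1 : Nat.card {z : (Σ x : Fin (c i₀), Fin (s (Bl x))) //
              insert i₀ (Bl z.1) = insert i₀ B} ≤ nl B * s B := by
            let g : {z : (Σ x : Fin (c i₀), Fin (s (Bl x))) //
                insert i₀ (Bl z.1) = insert i₀ B} → Fin (nl B) × Fin (s B) := fun z =>
              have hz : Bl z.1.1 = B := by
                have h2 := congrArg (fun T => T.erase i₀) z.2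
                simp only [Finset.erase_insert hiB,
                  Finset.erase_insert (fun h => hi' (hBl _ h) : i₀ ∉ Bl z.1.1)] at h2
                exact h2
              (Fin.cast (congrArg nl hz) (eq z.1.1).2, Fin.cast (congrArg s hz) z.1.2)
            have hg : Function.Injective g := by
              rintro ⟨⟨x, a⟩, hx⟩ ⟨⟨y, b⟩, hy⟩ hxy
              have hxB : Bl x = B := by
                have h2 := congrArg (fun T => T.erase i₀) hx
                simp only [Finset.erase_insert hiB,
                  Finset.erase_insert (fun h => hi' (hBl _ h) : i₀ ∉ Bl x)] at h2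
                exact h2
              have hyB : Bl y = B := by
                have h2 := congrArg (fun T => T.erase i₀) hy
                simp only [Finset.erase_insert hiB,
                  Finset.erase_insert (fun h => hi' (hBl _ h) : i₀ ∉ Bl y)] at h2
                exact h2
              have h3 : ((eq x).2 : ℕ) = (eq y).2 := by
                have := congrArg (fun t => (t.1 : ℕ)) hxy
                simpa [g] using this
              have h4 : (a : ℕ) = b := by
                have := congrArg (fun t => (t.2 : ℕ)) hxy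
                simpa [g] using this
              have h5 : x = y := by
                apply eq.injective
                have h6 : (eq x).1 = (eq y).1 := Subtype.ext (hxB.trans hyB.symm)
                exact Sigma.ext h6 ((Fin.heq_ext_iff (congrArg (fun B => nl B.1) h6)).2 h3)
              subst h5
              have h6 : a = b := Fin.ext h4
              subst h6
              rfl
            have := Nat.card_le_card_of_injective g hg
            rwa [Nat.card_prod, Nat.card_fin, Nat.card_fin] at this
          refine h1.trans ?_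
          have h2 := hm (insert i₀ B) (Finset.insert_subset_insert i₀ hBI)
          rw [Finset.prod_insert hiB] at h2
          have h3 : ((nl B * s B : ℕ) : ℚ) = κ (insert i₀ B) * (c i₀ * ∏ i ∈ B, (c i : ℚ)) := by
            push_cast
            rw [hnl B hBp, hs B hBp]
            show _ * (κ (insert i₀ B) * (F (I' \ B) / F I')) * (F I' / F (I' \ B) * _) = _
            have p1 : F I' ≠ 0 := hI'.ne'
            have p2 : F (I' \ B) ≠ 0 := (hpos' _ Finset.sdiff_subset).ne'
            field_simp
          rw [← h3] at h2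
          exact_mod_cast h2
        · have : IsEmpty {z : (Σ x : Fin (c i₀), Fin (s (Bl x))) // insert i₀ (Bl z.1) = S} :=
            ⟨fun z => hS ⟨Bl z.1.1, hBl _, z.2.symm⟩⟩
          rw [Nat.card_of_isEmpty]
          exact Nat.zero_le _)
    have hc0 : 0 < c i₀ := (hc i₀).1
    let line : P → Fin (c i₀) := fun i => if h : ∃ z, e z = i then h.choose.1 else ⟨0, hc0⟩
    have hline : ∀ z, line (e z) = z.1 := by
      intro z
      have h : ∃ z', e z' = e z := ⟨z, rfl⟩
      simp only [line, dif_pos h]
      rw [he h.choose_spec]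
    refine tt_step i₀ m line fun x => ?_
    by_cases hB : Bl x = ∅
    · -- dead line
      have h1 : s (Bl x) = 1 := by
        have h2 := hs (Bl x) (Finset.mem_powerset.2 (hBl x))
        rw [hB] at h2
        rw [hB]
        have h3 : (s ∅ : ℚ) = 1 := by
          rw [h2]
          show F I' / F (I' \ ∅) * _ = 1
          rw [Finset.sdiff_empty, div_self hI'.ne', Finset.prod_empty, mul_one]
        exact_mod_cast h3
      let z : (Σ x : Fin (c i₀), Fin (s (Bl x))) := ⟨x, ⟨0, by omega⟩⟩
      have h2 : (TS ι c).gd (fun i : {i // i₀ ∉ m i ∨ line i = x} => (m i.1).erase i₀) ≤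
          (TS ι c).gd fun _ : Unit => (∅ : Finset ι) := by
        refine gd_mono (TS ι c) _ _ (fun _ => ⟨e z, Or.inr (hline z)⟩) (fun _ _ _ => rfl) ?_
        intro _
        show (m (e z)).erase i₀ = ∅
        rw [hme z]
        show (insert i₀ (Bl x)).erase i₀ = ∅
        rw [hB, Finset.erase_insert (Finset.notMem_empty _)]
      have h3 : (TS ι c).gd (fun _ : Unit => (∅ : Finset ι)) = 0 := by
        have h4 := gd_le (TS ι c) (fun _ : Unit => (∅ : Finset ι)) fun _ _ => 0
        have h5 : (TS ι c).V (fun _ : Unit => (∅ : Finset ι)) (fun _ _ => 0) = ⊥ := by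
          rw [Submodule.eq_bot_iff]
          intro F hF
          rw [mem_TS] at hF
          funext w
          have h6 := hF () w
          unfold ctr at h6
          rw [Finset.sum_eq_single w] at h6
          · simpa using h6
          · intro e' _ he'
            refine if_neg fun h => he' (funext fun j => h j (Finset.notMem_empty j))
          · exact fun h => absurd (mem_univ w) h
        rw [h5, finrank_bot] at h4
        omega
      omega
    · refine hsl (Bl x) (hBl x) hB c (fun i => ⟨(hc i).1, ?_⟩) _ _ fun S hS => ?_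
      · exact ((Dvd.intro _ rfl).trans (hdv (Bl x) (Finset.mem_powerset.2 (hBl x)))).trans (hc i).2
      · have hiS : i₀ ∉ S := fun h => hi' (hS h)
        have hmS := hm S (hS.trans (Finset.subset_insert _ _))
        -- the points of kind `S`
        let f1 : {x // m x = S} → {y : {i // i₀ ∉ m i ∨ line i = x} // (m y.1).erase i₀ = S} :=
          fun y => ⟨⟨y.1, Or.inl (by rw [y.2]; exact hiS)⟩, by
            show (m y.1).erase i₀ = S
            rw [y.2, Finset.erase_eq_of_notMem hiS]⟩
        have hf1 : Function.Injective f1 := by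
          intro y y' h
          exact Subtype.ext (congrArg (fun t => t.1.1) h)
        unfold modK
        by_cases hSB : S = Bl x
        · rw [if_pos hSB]
          subst hSB
          let f2 : Fin (s (Bl x)) → {y : {i // i₀ ∉ m i ∨ line i = x} // (m y.1).erase i₀ = Bl x} :=
            fun a => ⟨⟨e ⟨x, a⟩, Or.inr (hline ⟨x, a⟩)⟩, by
              show (m (e ⟨x, a⟩)).erase i₀ = Bl x
              rw [hme]
              exact Finset.erase_insert hiS⟩
          have hf2 : Function.Injective f2 := by
            intro a b h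
            have h1 : (⟨x, a⟩ : (Σ x : Fin (c i₀), Fin (s (Bl x)))) = ⟨x, b⟩ :=
              he (congrArg (fun t => t.1.1) h)
            simpa using h1
          have hf12 : Function.Injective (Sum.elim f1 f2) := by
            refine hf1.sumElim hf2 fun y a h => ?_
            have h1 : y.1 = e ⟨x, a⟩ := congrArg (fun t => t.1.1) h
            have h2 := y.2
            rw [h1, hme] at h2
            exact hiS (by rw [← h2]; exact Finset.mem_insert_self _ _)
          have h1 := Nat.card_le_card_of_injective _ hf12
          rw [Nat.card_sum] at h1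
          have h2 : (Nat.card (Fin (s (Bl x))) : ℚ) = σ (Bl x) * ∏ i ∈ Bl x, (c i : ℚ) := by
            rw [Nat.card_eq_fintype_card, Fintype.card_fin]
            exact hs _ (Finset.mem_powerset.2 hS)
          have h3 : ((Nat.card {x_1 // m x_1 = Bl x} + Nat.card (Fin (s (Bl x))) : ℕ) : ℚ) ≤
              Nat.card {y : {i // i₀ ∉ m i ∨ line i = x} // (m y.1).erase i₀ = Bl x} := by
            exact_mod_cast h1
          push_cast at h3
          rw [h2] at h3
          refine le_trans ?_ h3
          rw [add_mul]
          linarith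
        · rw [if_neg hSB, add_zero]
          refine hmS.trans ?_
          exact_mod_cast Nat.card_le_card_of_injective f1 hf1

end Pool.Agent.GD

end

section

/-!
# General d, block BETA (strictness of the tensor systems): definitions

All slots are the elements of `ι` (dimensions `c i`), `T : Finset ι` are the base slots, `Tᶜ` the
`e` slots of the variables `W`.  `E` is a space of tensors which depend only on the coordinates in
`I ⊆ T` (the *active* base slots).

* `mix T w u`: the coordinates of `w` on `T` and of `u` off `T`;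
* `Dep c I`: the tensors which depend only on the coordinates in `I`;
* `KE T m p E`: the tensors killed by the points all of whose slices along `T` lie in `E`;
* `Adm T I κ`: the densities `κ` are admissible for the active slots `I`; `lam c T I κ` is the number of
  further units (points of kind `Tᶜ`) for which the system becomes critical.
-/

set_option autoImplicit false

namespace Pool.Agent.GD.BE

open Finset MvPolynomial Module Pool.Agent.H51.TB

variable {ι : Type} [Fintype ι] [DecidableEq ι] {c : ι → ℕ}

/-- The densities `κ` are admissible for the active base slots `I` (before the units). -/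
structure Adm (T I : Finset ι) (κ : Finset ι → ℚ) : Prop where
  nonneg : ∀ S, 0 ≤ κ S
  pos : ∀ S ⊆ I ∪ Tᶜ, S.card = Tᶜ.card → S ≠ Tᶜ → 0 < κ S
  F : ∀ J ⊆ I ∪ Tᶜ, 0 < FF κ J

/-- The dimension of the base space on the active slots `I`. -/
def bI (c : ι → ℕ) (I : Finset ι) (κ : Finset ι → ℚ) : ℚ := pc c I * FF κ I

/-- The critical number of units. -/
def lam (c : ι → ℕ) (T I : Finset ι) (κ : Finset ι → ℚ) : ℚ :=
  pc c Tᶜ * (FF κ (I ∪ Tᶜ) / FF κ I)

/-- Strictness for the base position `r`. -/
def Str (T I : Finset ι) (κ : Finset ι → ℚ) {P₀ P₁ : Type} (m₀ : P₀ → Finset ι)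
    (m₁ : P₁ → Finset ι) (r : P₀ → (Σ i, Fin (c i)) → ℂ) : Prop :=
  ∀ E : Submodule ℂ ((∀ i, Fin (c i)) → ℂ), E ≤ Dep c I → E ≠ ⊥ →
    (finrank ℂ E : ℚ) < bI c I κ → ∃ y : P₁ → (Σ i, Fin (c i)) → ℂ,
      (finrank ℂ (KE T (Sum.elim m₀ m₁) (Sum.elim r y) E) : ℚ) < lam c T I κ * finrank ℂ E

end Pool.Agent.GD.BE

end

section

/-!
# General d, ALPHA: linear algebra

`first_order`: if the dimension of the kernel of `A(t) = ∑ t^k A_k` is the smallest one at `t = 0`, then
`A_1` maps the kernel of `A_0` into the range of `A_0`.  `limit_sub`: the limit of the kernels.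
`indep`: subspaces `B_0, …, B_(n-1)` of independent codimensions.
-/

set_option autoImplicit false

namespace Pool.Agent.GD.AL

open Finset

section

variable {V W : Type} [AddCommGroup V] [Module ℂ V] [AddCommGroup W] [Module ℂ W]

/-- The value at `t` of the family with the coefficients `A 0, …, A N`. -/
def fam (N : ℕ) (A : ℕ → V →ₗ[ℂ] W) (t : ℂ) : V →ₗ[ℂ] W := ∑ k ∈ range (N + 1), t ^ k • A k

theorem fam_apply (N : ℕ) (A : ℕ → V →ₗ[ℂ] W) (t : ℂ) (f : V) :
    fam N A t f = ∑ k ∈ range (N + 1), t ^ k • A k f := by
  unfold fam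
  rw [LinearMap.sum_apply]
  rfl

/-- Coordinates on the ranges of finitely many maps from a space of finite dimension. -/
theorem exists_co [Module.Finite ℂ V] (N : ℕ) (A : ℕ → V →ₗ[ℂ] W) :
    ∃ (n : ℕ) (c : W →ₗ[ℂ] (Fin n → ℂ)),
      ∀ w ∈ (⨆ k ∈ range (N + 1), LinearMap.range (A k)), c w = 0 → w = 0 := by
  classical
  set U : Submodule ℂ W := ⨆ k ∈ range (N + 1), LinearMap.range (A k) with hU
  have hfin : Module.Finite ℂ U := by
    have h1 : ∀ k, Module.Finite ℂ (LinearMap.range (A k)) := fun k => inferInstance
    rw [hU, ← Finset.sup_eq_iSup]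
    exact Submodule.finiteDimensional_finset_sup _ _
  obtain ⟨g, hg⟩ := LinearMap.exists_leftInverse_of_injective U.subtype (by
    rw [Submodule.ker_subtype])
  refine ⟨Module.finrank ℂ U, (Module.finBasis ℂ U).equivFun.toLinearMap ∘ₗ g, fun w hw h => ?_⟩
  have h1 : g w = ⟨w, hw⟩ := LinearMap.congr_fun hg ⟨w, hw⟩
  have h2 : (Module.finBasis ℂ U).equivFun (g w) = 0 := h
  have h3 : g w = 0 := (Module.finBasis ℂ U).equivFun.injective (h2.trans (map_zero _).symm)
  rw [h1] at h3
  exact congrArg Subtype.val h3

theorem fam_mem (N : ℕ) (A : ℕ → V →ₗ[ℂ] W) (t : ℂ) (f : V) :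
    fam N A t f ∈ (⨆ k ∈ range (N + 1), LinearMap.range (A k)) := by
  rw [fam_apply]
  refine Submodule.sum_mem _ fun k hk => Submodule.smul_mem _ _ ?_
  exact Submodule.mem_iSup_of_mem k (Submodule.mem_iSup_of_mem hk ⟨f, rfl⟩)

theorem coef_mem {N : ℕ} (A : ℕ → V →ₗ[ℂ] W) {k : ℕ} (hk : k ≤ N) (f : V) :
    A k f ∈ (⨆ k ∈ range (N + 1), LinearMap.range (A k)) :=
  Submodule.mem_iSup_of_mem k (Submodule.mem_iSup_of_mem (mem_range.2 (Nat.lt_succ_of_le hk))
    ⟨f, rfl⟩)

/-- **The limit of the kernels.** -/
theorem limit_sub [Module.Finite ℂ V] {N : ℕ} (A : ℕ → V →ₗ[ℂ] W) (hA : ∀ k, N < k → A k = 0)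
    (R : Submodule ℂ V)
    (hR : ∀ F : ℕ → V, (∀ n, ∑ x ∈ antidiagonal n, A x.1 (F x.2) = 0) → F 0 ∈ R) :
    ∃ t : ℂ, Module.finrank ℂ (LinearMap.ker (fam N A t)) ≤ Module.finrank ℂ R := by
  classical
  obtain ⟨n, c, hc⟩ := exists_co N A
  let b := Module.finBasis ℂ V
  let m := Module.finrank ℂ V
  let Mx : Fin n → Fin m → Polynomial ℂ := fun r e =>
    ∑ k ∈ range (N + 1), Polynomial.monomial k (c (A k (b e)) r)
  let R' : Submodule ℂ (Fin m → ℂ) := R.map b.equivFun.toLinearMap
  obtain ⟨t, ht⟩ := Pool.Agent.H54.V7.poly_limit Mx R' (by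
    intro F hF
    let G : ℕ → V := fun k => b.equivFun.symm fun e => (F e).coeff k
    have hG : ∀ k, G k = ∑ e, (F e).coeff k • b e := by
      intro k
      exact b.equivFun_symm_apply _
    refine ⟨G 0, hR G fun l => ?_, ?_⟩
    · refine hc _ (Submodule.sum_mem _ fun x _ => ?_) ?_
      · by_cases hx : x.1 ≤ N
        · exact coef_mem A hx _
        · rw [hA x.1 (not_le.1 hx), LinearMap.zero_apply]
          exact Submodule.zero_mem _
      · funext r
        have h1 := congrArg (fun q : Polynomial ℂ => q.coeff l) (hF r)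
        rw [Polynomial.coeff_zero, Polynomial.finsetSum_coeff] at h1
        rw [map_sum, Finset.sum_apply, Pi.zero_apply, ← h1]
        have h2 : ∀ x ∈ antidiagonal l, (c (A x.1 (G x.2))) r =
            ∑ e, (F e).coeff x.2 * (c (A x.1 (b e)) r) := by
          intro x _
          rw [hG, map_sum, map_sum, Finset.sum_apply]
          refine sum_congr rfl fun e _ => ?_
          rw [map_smul, map_smul, Pi.smul_apply, smul_eq_mul]
        rw [sum_congr rfl h2, sum_comm]
        refine sum_congr rfl fun e _ => ?_
        rw [mul_comm (F e), Polynomial.coeff_mul]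
        refine sum_congr rfl fun x _ => ?_
        have h3 : (Mx r e).coeff x.1 = c (A x.1 (b e)) r := by
          rw [Polynomial.finsetSum_coeff]
          by_cases hx : x.1 ∈ range (N + 1)
          · rw [sum_eq_single x.1]
            · rw [Polynomial.coeff_monomial, if_pos rfl]
            · intro k _ hk
              rw [Polynomial.coeff_monomial, if_neg hk]
            · intro h3
              exact absurd hx h3
          · rw [sum_eq_zero]
            · rw [mem_range, not_lt] at hx
              rw [hA x.1 hx, LinearMap.zero_apply, map_zero, Pi.zero_apply]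
            · intro k hk
              rw [Polynomial.coeff_monomial, if_neg]
              rintro rfl
              exact hx hk
        rw [h3, mul_comm]
    · funext e
      show b.equivFun (G 0) e = _
      rw [show b.equivFun (G 0) = _ from b.equivFun.apply_symm_apply _]
      exact Polynomial.coeff_zero_eq_eval_zero _)
  refine ⟨t, ?_⟩
  have h1 : Module.finrank ℂ R' = Module.finrank ℂ R :=
    (Submodule.equivMapOfInjective _ b.equivFun.injective R).finrank_eq.symm
  rw [h1] at ht
  refine le_trans (le_of_eq ?_) ht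
  have h2 : Pool.Agent.H54.V7.solAt Mx t = (LinearMap.ker (fam N A t)).map
      b.equivFun.toLinearMap := by
    ext f
    rw [Pool.Agent.H54.V7.mem_solAt]
    have h3 : ∀ r, ∑ e, f e * (Mx r e).eval t = c (fam N A t (b.equivFun.symm f)) r := by
      intro r
      rw [b.equivFun_symm_apply, map_sum, map_sum, Finset.sum_apply]
      refine sum_congr rfl fun e _ => ?_
      rw [map_smul, map_smul, Pi.smul_apply, smul_eq_mul]
      congr 1
      rw [fam_apply, map_sum, Finset.sum_apply, Polynomial.eval_finsetSum]
      refine sum_congr rfl fun k _ => ?_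
      rw [Polynomial.eval_monomial, map_smul, Pi.smul_apply, smul_eq_mul, mul_comm]
    constructor
    · intro h
      refine ⟨b.equivFun.symm f, ?_, b.equivFun.apply_symm_apply f⟩
      refine hc _ (fam_mem N A t _) ?_
      funext r
      rw [← h3 r, h r, Pi.zero_apply]
    · rintro ⟨x, hx, rfl⟩ r
      rw [h3 r]
      have h4 : b.equivFun.symm (b.equivFun.toLinearMap x) = x := b.equivFun.symm_apply_apply x
      rw [h4]
      have h5 : fam N A t x = 0 := hx
      rw [h5, map_zero, Pi.zero_apply]
  rw [h2]
  exact (Submodule.equivMapOfInjective _ b.equivFun.injective _).finrank_eq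

end

section

variable {M : Type} [AddCommGroup M] [Module ℂ M]

end

end Pool.Agent.GD.AL

end
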