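import Mathlib

/-! The parts of this file: GD.VT.Alg, GD.VT.Ty, H21.HD.LoadEst, H54.V7.Cnt, H72.SB.Aut, XD.Lead. -/

section

/-!
# General d, VT: inclusion-exclusion

PROOF of `inc_exc`: expand the products (`Finset.prod_add` / `Finset.prod_one_add`), exchange the sums; for a
set `Y` of objects the sum of the signs over the `I' ⊆ I` disjoint from all `sp x`, `x ∈ Y`, is `0` unless
`I ⊆ Y.biUnion sp`, when it is `1` (`Finset.sum_powerset_neg_one_pow_card`).
-/

set_option autoImplicit false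

namespace Pool.Agent.GD.VT

open Finset

theorem inc_exc {R X : Type} [CommRing R] [DecidableEq X] (s : Finset X) (sp : X → Finset ℕ)
    (g : X → R) (I : Finset ℕ) :
    ∑ I' ∈ I.powerset, (-1) ^ I'.card *
        ∏ x ∈ s, (if Disjoint (sp x) I' then 1 + g x else 1) =
      ∑ Y ∈ s.powerset.filter (fun Y => I ⊆ Y.biUnion sp), ∏ x ∈ Y, g x := by
  have h1 : ∀ I' : Finset ℕ, ∏ x ∈ s, (if Disjoint (sp x) I' then 1 + g x else 1) =
      ∑ Y ∈ s.powerset, if Disjoint (Y.biUnion sp) I' then ∏ x ∈ Y, g x else 0 := by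
    intro I'
    have h2 : ∀ x, (if Disjoint (sp x) I' then 1 + g x else 1) =
        1 + if Disjoint (sp x) I' then g x else 0 := by
      intro x
      split_ifs
      · rfl
      · rw [add_zero]
    rw [prod_congr rfl fun x _ => h2 x, prod_one_add]
    refine sum_congr rfl fun Y _ => ?_
    by_cases h : Disjoint (Y.biUnion sp) I'
    · rw [if_pos h]
      exact prod_congr rfl fun x hx => if_pos ((disjoint_biUnion_left _ _ _).1 h x hx)
    · rw [if_neg h]
      rw [disjoint_biUnion_left] at h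
      push Not at h
      obtain ⟨x, hx, hd⟩ := h
      exact prod_eq_zero hx (if_neg hd)
  calc ∑ I' ∈ I.powerset, (-1) ^ I'.card *
        ∏ x ∈ s, (if Disjoint (sp x) I' then 1 + g x else 1) =
      ∑ I' ∈ I.powerset, ∑ Y ∈ s.powerset,
        (if Disjoint (Y.biUnion sp) I' then (-1) ^ I'.card else 0) * ∏ x ∈ Y, g x := by
        refine sum_congr rfl fun I' _ => ?_
        rw [h1, mul_sum]
        refine sum_congr rfl fun Y _ => ?_
        split_ifs
        · rfl
        · rw [mul_zero, zero_mul]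
    _ = ∑ Y ∈ s.powerset, (if I ⊆ Y.biUnion sp then 1 else 0) * ∏ x ∈ Y, g x := by
        rw [sum_comm]
        refine sum_congr rfl fun Y _ => ?_
        rw [← sum_mul]
        congr 1
        rw [← sum_filter]
        have h3 : I.powerset.filter (fun I' => Disjoint (Y.biUnion sp) I') =
            (I \ Y.biUnion sp).powerset := by
          ext I'
          rw [mem_filter, mem_powerset, mem_powerset, subset_sdiff, disjoint_comm]
        have h4 := sum_powerset_neg_one_pow_card (x := I \ Y.biUnion sp)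
        rw [h3]
        have h5 : (∑ I' ∈ (I \ Y.biUnion sp).powerset, (-1 : R) ^ I'.card) =
            ((∑ I' ∈ (I \ Y.biUnion sp).powerset, (-1 : ℤ) ^ I'.card : ℤ) : R) := by
          push_cast
          rfl
        rw [h5, h4]
        by_cases h : I ⊆ Y.biUnion sp
        · rw [if_pos h, if_pos (sdiff_eq_empty_iff_subset.2 h), Int.cast_one]
        · rw [if_neg h, if_neg (fun h6 => h (sdiff_eq_empty_iff_subset.1 h6)), Int.cast_zero]
    _ = _ := by
        rw [sum_filter]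
        refine sum_congr rfl fun Y _ => ?_
        split_ifs
        · rw [one_mul]
        · rw [zero_mul]

end Pool.Agent.GD.VT

end

section

/-!
# General d, VT: the calculus of types

A power series `A` (depending on `n`) has the type `s` (with the constant `C`, up to degree `d`) if
`|[t^D] A| ≤ C n ^ (D - s)` for `D ≤ d` (integer powers, `n ≥ 1`).
-/

set_option autoImplicit false

namespace Pool.Agent.GD.VT

open Finset PowerSeries

/-- Type `s` with the constant `C`. -/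
def Ty (d n : ℕ) (s : ℤ) (C : ℝ) (A : PowerSeries ℝ) : Prop :=
  ∀ D ≤ d, |coeff D A| ≤ C * (n : ℝ) ^ ((D : ℤ) - s)

/-- `exp (a t^b)`. -/
noncomputable def ex (a : ℝ) (b : ℕ) : PowerSeries ℝ :=
  PowerSeries.mk fun D => if b ∣ D then a ^ (D / b) / (D / b).factorial else 0

/-- `(1 - t)^(-N)`. -/
noncomputable def hr (N : ℕ) : PowerSeries ℝ := PowerSeries.mk fun k => (Nat.multichoose N k : ℝ)

theorem Ty.mono {d n : ℕ} (hn : 1 ≤ n) {s s' : ℤ} {C C' : ℝ} {A : PowerSeries ℝ} (hs : s' ≤ s)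
    (hC : C ≤ C') (hC0 : 0 ≤ C) (h : Ty d n s C A) : Ty d n s' C' A := by
  intro D hD
  have h1 : (1 : ℝ) ≤ n := by exact_mod_cast hn
  have h2 : (n : ℝ) ^ ((D : ℤ) - s) ≤ (n : ℝ) ^ ((D : ℤ) - s') :=
    zpow_le_zpow_right₀ h1 (by omega)
  exact (h D hD).trans (mul_le_mul hC h2 (zpow_nonneg (by positivity) _) (hC0.trans hC))

theorem Ty.add {d n : ℕ} {s : ℤ} {C C' : ℝ} {A B : PowerSeries ℝ} (h : Ty d n s C A)
    (h' : Ty d n s C' B) : Ty d n s (C + C') (A + B) := by
  intro D hD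
  rw [map_add, add_mul]
  exact (abs_add_le _ _).trans (add_le_add (h D hD) (h' D hD))

theorem Ty.neg {d n : ℕ} {s : ℤ} {C : ℝ} {A : PowerSeries ℝ} (h : Ty d n s C A) :
    Ty d n s C (-A) := by
  intro D hD
  rw [map_neg, abs_neg]
  exact h D hD

theorem Ty.mul {d n : ℕ} (hn : 1 ≤ n) {s s' : ℤ} {C C' : ℝ} (hC : 0 ≤ C) (hC' : 0 ≤ C')
    {A B : PowerSeries ℝ} (h : Ty d n s C A) (h' : Ty d n s' C' B) :
    Ty d n (s + s') ((d + 1) * C * C') (A * B) := by
  intro D hD
  have h1 : (0 : ℝ) < n := by exact_mod_cast hn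
  rw [PowerSeries.coeff_mul]
  have h2 : ∀ ij ∈ antidiagonal D, |coeff ij.1 A * coeff ij.2 B| ≤
      C * C' * (n : ℝ) ^ ((D : ℤ) - (s + s')) := by
    intro ij hij
    have h3 := mem_antidiagonal.1 hij
    rw [abs_mul]
    have h4 := mul_le_mul (h ij.1 (by omega)) (h' ij.2 (by omega)) (abs_nonneg _)
      (mul_nonneg hC (zpow_nonneg h1.le _))
    refine h4.trans (le_of_eq ?_)
    have h5 : (n : ℝ) ^ ((ij.1 : ℤ) - s) * (n : ℝ) ^ ((ij.2 : ℤ) - s') =
        (n : ℝ) ^ ((D : ℤ) - (s + s')) := by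
      rw [← zpow_add₀ h1.ne']
      congr 1
      omega
    rw [← h5]
    ring
  refine (abs_sum_le_sum_abs _ _).trans ((sum_le_card_nsmul _ _ _ h2).trans ?_)
  rw [Nat.card_antidiagonal, nsmul_eq_mul]
  have h6 : ((D + 1 : ℕ) : ℝ) ≤ d + 1 := by
    push_cast
    have : (D : ℝ) ≤ d := by exact_mod_cast hD
    linarith only [this]
  calc ((D + 1 : ℕ) : ℝ) * (C * C' * (n : ℝ) ^ ((D : ℤ) - (s + s'))) ≤
      (d + 1) * (C * C' * (n : ℝ) ^ ((D : ℤ) - (s + s'))) :=
        mul_le_mul_of_nonneg_right h6 (mul_nonneg (mul_nonneg hC hC') (zpow_nonneg h1.le _))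
    _ = _ := by ring

theorem Ty.one {d n : ℕ} (hn : 1 ≤ n) : Ty d n 0 1 1 := by
  intro D _
  rw [PowerSeries.coeff_one]
  split_ifs with h
  · subst h
    simp
  · rw [abs_zero, one_mul]
    positivity

private theorem Ty.zero {d n : ℕ} (s : ℤ) {C : ℝ} (hC : 0 ≤ C) : Ty d n s C 0 := by
  intro D _
  rw [map_zero, abs_zero]
  positivity

private theorem Ty.congr {d n : ℕ} {s s' : ℤ} {C C' : ℝ} {A A' : PowerSeries ℝ}
    (h : Ty d n s C A) (hs : s = s') (hC : C = C') (hA : A = A') : Ty d n s' C' A' := by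
  subst hs hC hA
  exact h

/-- Products: type of the product, and the product changes by the next type if the factors do. -/
theorem Ty.prod {X : Type} {d : ℕ} (s : Finset X) (ty : X → ℤ) (C : ℝ) (hC : 1 ≤ C) :
    ∃ C' : ℝ, 1 ≤ C' ∧ ∀ n, 1 ≤ n → ∀ A B : X → PowerSeries ℝ,
      (∀ x ∈ s, Ty d n (ty x) C (A x)) → (∀ x ∈ s, Ty d n (ty x + 1) C (A x - B x)) →
      Ty d n (∑ x ∈ s, ty x) C' (∏ x ∈ s, A x) ∧
        Ty d n (∑ x ∈ s, ty x + 1) C' (∏ x ∈ s, A x - ∏ x ∈ s, B x) := by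
  classical
  induction s using Finset.induction_on with
  | empty =>
    refine ⟨1, le_refl _, fun n hn A B _ _ => ⟨?_, ?_⟩⟩
    · rw [sum_empty, prod_empty]
      exact Ty.one hn
    · rw [prod_empty, prod_empty, sub_self]
      exact Ty.zero _ zero_le_one
  | insert a s ha ih =>
    obtain ⟨C', hC', h⟩ := ih
    have hC0 : 0 ≤ C := zero_le_one.trans hC
    have hC0' : 0 ≤ C' := zero_le_one.trans hC'
    have hd : (1 : ℝ) ≤ d + 1 := by
      have : (0 : ℝ) ≤ d := Nat.cast_nonneg d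
      linarith
    refine ⟨(d + 1) * C * C' + (d + 1) * C * (C' + C'), ?_, fun n hn A B hA hB => ?_⟩
    · have h1 : 1 ≤ (d + 1) * C * C' := one_le_mul_of_one_le_of_one_le
        (one_le_mul_of_one_le_of_one_le hd hC) hC'
      have h2 : 0 ≤ (d + 1) * C * (C' + C') := by positivity
      linarith only [h1]
    · obtain ⟨h1, h2⟩ := h n hn A B (fun x hx => hA x (mem_insert_of_mem hx))
        (fun x hx => hB x (mem_insert_of_mem hx))
      rw [sum_insert ha, prod_insert ha, prod_insert ha]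
      have e1 := hA a (mem_insert_self _ _)
      have e2 := hB a (mem_insert_self _ _)
      have hBp : Ty d n (∑ x ∈ s, ty x) (C' + C') (∏ x ∈ s, B x) := by
        have h3 : Ty d n (∑ x ∈ s, ty x) C' (-(∏ x ∈ s, A x - ∏ x ∈ s, B x)) :=
          (h2.mono hn (by omega) le_rfl hC0').neg
        exact (h1.add h3).congr rfl rfl (by ring)
      constructor
      · refine (Ty.mul hn hC0 hC0' e1 h1).mono hn le_rfl ?_ (by positivity)
        have : 0 ≤ (d + 1) * C * (C' + C') := by positivity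
        linarith only [this]
      · have h4 := Ty.mul hn hC0 hC0' e1 h2
        have h5 := Ty.mul hn hC0 (by linarith) e2 hBp
        refine ((h4.congr (by ring) rfl rfl).add (h5.congr (by ring) rfl rfl)).congr rfl rfl ?_
        ring

/-! ### Series in `t^x` -/

/-- `∑ c m t^(x m)` -/
private noncomputable def spr (x : ℕ) (c : ℕ → ℝ) : PowerSeries ℝ :=
  PowerSeries.mk fun D => if x ∣ D then c (D / x) else 0

private theorem spr_sub (x : ℕ) (c c' : ℕ → ℝ) : spr x c - spr x c' = spr x fun m => c m - c' m := by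
  ext D
  rw [map_sub, spr, spr, spr, coeff_mk, coeff_mk, coeff_mk]
  split_ifs
  · rfl
  · rw [sub_zero]

private theorem spr_one (x : ℕ) (hx : 1 ≤ x) : spr x (fun m => if m = 0 then 1 else 0) = 1 := by
  ext D
  rw [spr, coeff_mk, PowerSeries.coeff_one]
  by_cases hD : D = 0
  · subst hD
    simp
  · rw [if_neg hD]
    by_cases h : x ∣ D
    · rw [if_pos h, if_neg]
      intro h0
      obtain ⟨m, rfl⟩ := h
      rw [Nat.mul_div_cancel_left m (by omega)] at h0
      apply hD
      rw [h0, mul_zero]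
    · rw [if_neg h]

private theorem ty_spr {d n x : ℕ} {s : ℤ} {C : ℝ} (hx : 1 ≤ x) (hC : 0 ≤ C) {c : ℕ → ℝ}
    (h : ∀ m, x * m ≤ d → |c m| ≤ C * (n : ℝ) ^ (((x * m : ℕ) : ℤ) - s)) :
    Ty d n s C (spr x c) := by
  intro D hD
  rw [spr, coeff_mk]
  split_ifs with hxD
  · obtain ⟨m, rfl⟩ := hxD
    rw [Nat.mul_div_cancel_left m (by omega)]
    exact h m hD
  · rw [abs_zero]
    positivity

private theorem X_pow_mul_spr (x : ℕ) (hx : 1 ≤ x) (c : ℕ → ℝ) :
    (X ^ x : PowerSeries ℝ) * spr x c = spr x fun m => if m = 0 then 0 else c (m - 1) := by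
  ext D
  simp only [PowerSeries.coeff_X_pow_mul', spr, coeff_mk]
  by_cases h : x ∣ D
  · obtain ⟨m, rfl⟩ := h
    rw [if_pos (Dvd.intro _ rfl), Nat.mul_div_cancel_left m (by omega)]
    rcases m with _ | m
    · rw [mul_zero, if_neg (by omega), if_pos rfl]
    · have e : x * (m + 1) - x = x * m := by
        rw [mul_add, mul_one, Nat.add_sub_cancel]
      rw [if_pos (Nat.le_mul_of_pos_right x (Nat.succ_pos m)), e,
        if_pos (Dvd.intro _ rfl), Nat.mul_div_cancel_left m (by omega), if_neg (Nat.succ_ne_zero m),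
        Nat.add_sub_cancel]
  · rw [if_neg h]
    by_cases hle : x ≤ D
    · rw [if_pos hle, if_neg]
      intro h1
      apply h
      have h2 := (Nat.dvd_add_self_right (m := x) (n := D - x)).2 h1
      rwa [Nat.sub_add_cancel hle] at h2
    · rw [if_neg hle]

private theorem pow_eq_spr (x : ℕ) (hx : 1 ≤ x) (N : ℕ) :
    ((1 - X ^ x) ^ N : PowerSeries ℝ) = spr x fun m => (-1) ^ m * (Nat.choose N m : ℝ) := by
  induction N with
  | zero =>
    rw [pow_zero, ← spr_one x hx]
    congr 1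
    funext m
    rcases m with _ | m
    · simp
    · simp
  | succ N ih =>
    rw [pow_succ', sub_mul, one_mul, ih, X_pow_mul_spr x hx, spr_sub]
    congr 1
    funext m
    rcases m with _ | m
    · simp
    · rw [if_neg (Nat.succ_ne_zero m), Nat.add_sub_cancel, Nat.choose_succ_succ]
      push_cast
      ring

private theorem inv_spr (x N : ℕ) (hx : 1 ≤ x) : ((1 - X ^ x) ^ N : PowerSeries ℝ) *
    spr x (fun m => (Nat.multichoose N m : ℝ)) = 1 := by
  induction N with
  | zero =>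
    rw [pow_zero, one_mul, ← spr_one x hx]
    congr 1
    funext m
    rcases m with _ | m
    · simp
    · rw [Nat.multichoose_zero_succ, if_neg (Nat.succ_ne_zero m), Nat.cast_zero]
  | succ N ih =>
    rw [pow_succ, mul_assoc]
    have e : (1 - X ^ x : PowerSeries ℝ) * spr x (fun m => (Nat.multichoose (N + 1) m : ℝ)) =
        spr x (fun m => (Nat.multichoose N m : ℝ)) := by
      rw [sub_mul, one_mul, X_pow_mul_spr x hx, spr_sub]
      congr 1
      funext m
      rcases m with _ | m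
      · simp
      · rw [if_neg (Nat.succ_ne_zero m), Nat.add_sub_cancel, Nat.multichoose_succ_succ]
        push_cast
        ring
    rw [e, ih]

/-- telescoping -/
private theorem tele (z : ℕ → ℝ) (y M c : ℝ) (m : ℕ) (hM : 0 ≤ M) (hc : 0 ≤ c) (hy : |y| ≤ M)
    (hz : ∀ i < m, |z i| ≤ M) (hzy : ∀ i < m, |z i - y| ≤ c) :
    |∏ i ∈ range m, z i| ≤ M ^ m ∧ M * |∏ i ∈ range m, z i - y ^ m| ≤ m * c * M ^ m := by
  induction m with
  | zero => simp
  | succ m ih =>
    obtain ⟨h1, h2⟩ := ih (fun i hi => hz i (by omega)) (fun i hi => hzy i (by omega))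
    rw [prod_range_succ]
    constructor
    · rw [abs_mul, pow_succ]
      exact mul_le_mul h1 (hz m (by omega)) (abs_nonneg _) (pow_nonneg hM _)
    · have e : (∏ i ∈ range m, z i) * z m - y ^ (m + 1) =
          (∏ i ∈ range m, z i) * (z m - y) + (∏ i ∈ range m, z i - y ^ m) * y := by ring
      rw [e]
      have h3 : |(∏ i ∈ range m, z i) * (z m - y)| ≤ M ^ m * c := by
        rw [abs_mul]
        exact mul_le_mul h1 (hzy m (by omega)) (abs_nonneg _) (pow_nonneg hM _)
      have h4 : M * |(∏ i ∈ range m, z i - y ^ m) * y| ≤ m * c * M ^ m * M := by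
        rw [abs_mul, ← mul_assoc]
        exact mul_le_mul h2 hy (abs_nonneg _) (by positivity)
      calc M * |(∏ i ∈ range m, z i) * (z m - y) + (∏ i ∈ range m, z i - y ^ m) * y| ≤
          M * (|(∏ i ∈ range m, z i) * (z m - y)| + |(∏ i ∈ range m, z i - y ^ m) * y|) :=
            mul_le_mul_of_nonneg_left (abs_add_le _ _) hM
        _ = M * |(∏ i ∈ range m, z i) * (z m - y)| + M * |(∏ i ∈ range m, z i - y ^ m) * y| := by
            ring
        _ ≤ M * (M ^ m * c) + m * c * M ^ m * M :=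
            add_le_add (mul_le_mul_of_nonneg_left h3 hM) h4
        _ = _ := by
            push_cast
            ring

private theorem fact_div {a b : ℝ} {m : ℕ} (h : |a| ≤ b) : |a / (m.factorial : ℝ)| ≤ b := by
  have h1 : (1 : ℝ) ≤ (m.factorial : ℝ) := by
    exact_mod_cast Nat.one_le_iff_ne_zero.2 m.factorial_ne_zero
  rw [abs_div, abs_of_pos (by linarith : (0 : ℝ) < (m.factorial : ℝ))]
  exact (div_le_self (abs_nonneg _) h1).trans h

private theorem choose_near (N m : ℕ) (M : ℝ) (hM : (N : ℝ) ≤ M) :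
    |(Nat.choose N m : ℝ)| ≤ M ^ m ∧
      M * |(Nat.choose N m : ℝ) - (N : ℝ) ^ m / (m.factorial : ℝ)| ≤ m * m * M ^ m := by
  have hN : (0 : ℝ) ≤ N := Nat.cast_nonneg N
  have hM0 : 0 ≤ M := hN.trans hM
  have hf : (m.factorial : ℝ) ≠ 0 := by exact_mod_cast m.factorial_ne_zero
  obtain ⟨h1, h2⟩ := tele (fun i => ((N - i : ℕ) : ℝ)) N M m m hM0 (Nat.cast_nonneg m)
    (by rw [abs_of_nonneg hN]; exact hM)
    (fun i _ => by
      rw [abs_of_nonneg (Nat.cast_nonneg _)]
      exact (by exact_mod_cast Nat.sub_le N i : ((N - i : ℕ) : ℝ) ≤ N).trans hM)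
    (fun i hi => by
      have h3 : ((N - i : ℕ) : ℝ) ≤ N := by exact_mod_cast Nat.sub_le N i
      have h4 : (N : ℝ) ≤ ((N - i : ℕ) : ℝ) + i := by exact_mod_cast (by omega : N ≤ N - i + i)
      have h5 : (i : ℝ) ≤ m := by exact_mod_cast hi.le
      rw [abs_le]
      constructor <;> linarith)
  have e : (∏ i ∈ range m, ((N - i : ℕ) : ℝ)) = m.factorial * (Nat.choose N m : ℝ) := by
    rw [← Nat.cast_prod, ← Nat.descFactorial_eq_prod_range, Nat.descFactorial_eq_factorial_mul_choose]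
    push_cast
    ring
  rw [e] at h1 h2
  constructor
  · have h3 := fact_div (m := m) h1
    rwa [mul_div_cancel_left₀ _ hf] at h3
  · have h3 : |M * (m.factorial * (Nat.choose N m : ℝ) - (N : ℝ) ^ m)| ≤ m * m * M ^ m := by
      rw [abs_mul, abs_of_nonneg hM0]
      exact h2
    have h4 := fact_div (m := m) h3
    rw [mul_div_assoc, sub_div, mul_div_cancel_left₀ _ hf, abs_mul, abs_of_nonneg hM0] at h4
    exact h4

private theorem multi_near (N m : ℕ) (y M c : ℝ) (hy : |y| ≤ M) (hc : 0 ≤ c)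
    (hM : (N : ℝ) + m ≤ M) (h : ∀ i < m, |(N : ℝ) + i - y| ≤ c) :
    |(Nat.multichoose N m : ℝ)| ≤ M ^ m ∧
      M * |(Nat.multichoose N m : ℝ) - y ^ m / (m.factorial : ℝ)| ≤ m * c * M ^ m := by
  have hN : (0 : ℝ) ≤ N := Nat.cast_nonneg N
  have hm : (0 : ℝ) ≤ m := Nat.cast_nonneg m
  have hM0 : 0 ≤ M := by linarith
  have hf : (m.factorial : ℝ) ≠ 0 := by exact_mod_cast m.factorial_ne_zero
  obtain ⟨h1, h2⟩ := tele (fun i => ((N + i : ℕ) : ℝ)) y M c m hM0 hc hy
    (fun i hi => by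
      have h5 : (i : ℝ) ≤ m := by exact_mod_cast hi.le
      rw [abs_of_nonneg (Nat.cast_nonneg _)]
      push_cast
      linarith only [hM, h5])
    (fun i hi => by
      push_cast
      exact h i hi)
  have e : (∏ i ∈ range m, ((N + i : ℕ) : ℝ)) = m.factorial * (Nat.multichoose N m : ℝ) := by
    rw [← Nat.cast_prod, ← Nat.ascFactorial_eq_prod_range, Nat.ascFactorial_eq_factorial_mul_choose',
      Nat.multichoose_eq]
    push_cast
    ring
  rw [e] at h1 h2
  constructor
  · have h3 := fact_div (m := m) h1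
    rwa [mul_div_cancel_left₀ _ hf] at h3
  · have h3 : |M * (m.factorial * (Nat.multichoose N m : ℝ) - y ^ m)| ≤ m * c * M ^ m := by
      rw [abs_mul, abs_of_nonneg hM0]
      exact h2
    have h4 := fact_div (m := m) h3
    rw [mul_div_assoc, sub_div, mul_div_cancel_left₀ _ hf, abs_mul, abs_of_nonneg hM0] at h4
    exact h4

/-- division by `n` -/
private theorem le_zpow {n : ℕ} (hn : 1 ≤ n) {t K : ℝ} {m : ℕ} (h : n * t ≤ K * (n : ℝ) ^ m) :
    t ≤ K * (n : ℝ) ^ ((m : ℤ) - 1) := by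
  have h1 : (0 : ℝ) < n := by exact_mod_cast hn
  rw [zpow_sub₀ h1.ne', zpow_one, zpow_natCast, ← mul_div_assoc, le_div_iff₀ h1, mul_comm]
  exact h

private theorem pw {d m : ℕ} {B q : ℝ} (hB : 1 ≤ B) (hq : 0 ≤ q) (hm : m ≤ d) :
    (B * q) ^ m ≤ B ^ d * q ^ m := by
  rw [mul_pow]
  exact mul_le_mul_of_nonneg_right (pow_le_pow_right₀ hB hm) (pow_nonneg hq _)

private theorem npow_le {n : ℕ} (hn : 1 ≤ n) {q : ℕ} {e : ℤ} (h : (q : ℤ) ≤ e) :
    (n : ℝ) ^ q ≤ (n : ℝ) ^ e := by
  rw [← zpow_natCast]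
  exact zpow_le_zpow_right₀ (by exact_mod_cast hn) h

private theorem spr_add (x : ℕ) (c c' : ℕ → ℝ) : spr x c + spr x c' = spr x fun m => c m + c' m := by
  ext D
  rw [map_add, spr, spr, spr, coeff_mk, coeff_mk, coeff_mk]
  split_ifs
  · rfl
  · rw [add_zero]

private theorem C_mul_X_pow (x : ℕ) (hx : 1 ≤ x) (a : ℝ) :
    PowerSeries.C a * X ^ x = spr x fun m => if m = 1 then a else 0 := by
  ext D
  rw [PowerSeries.coeff_C_mul, PowerSeries.coeff_X_pow, spr, coeff_mk]
  by_cases h : x ∣ D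
  · obtain ⟨m, rfl⟩ := h
    rw [if_pos (Dvd.intro _ rfl), Nat.mul_div_cancel_left m (by omega)]
    by_cases hm : m = 1
    · rw [if_pos hm, hm, mul_one, if_pos rfl, mul_one]
    · rw [if_neg hm, if_neg, mul_zero]
      intro h1
      apply hm
      exact Nat.eq_of_mul_eq_mul_left (by omega : 0 < x) (h1.trans (mul_one x).symm)
  · rw [if_neg h, if_neg, mul_zero]
    rintro rfl
    exact h (dvd_refl _)

private theorem hr_eq (N : ℕ) : hr N = spr 1 fun m => (Nat.multichoose N m : ℝ) := by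
  ext D
  rw [hr, spr, coeff_mk, coeff_mk, if_pos (one_dvd D), Nat.div_one]

/-- The variables: `(1 - t)^(-(n - a))` is `exp (n t)` modulo the type `1`. -/
theorem ty_hr (d a : ℕ) : ∃ C : ℝ, 1 ≤ C ∧ ∀ n, 1 ≤ n → a ≤ n →
    Ty d n 0 C (hr (n - a)) ∧ Ty d n 1 C (hr (n - a) - ex n 1) := by
  have hd0 : (0 : ℝ) ≤ d := Nat.cast_nonneg d
  have ha0 : (0 : ℝ) ≤ a := Nat.cast_nonneg a
  have hB : (1 : ℝ) ≤ 1 + d := by linarith
  have hq : (0 : ℝ) ≤ d * (a + d) := by positivity
  have hp : (1 : ℝ) ≤ (1 + d) ^ d := one_le_pow₀ hB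
  refine ⟨(1 + d * (a + d)) * (1 + d) ^ d,
    one_le_mul_of_one_le_of_one_le (by linarith only [hq]) hp, fun n hn han => ?_⟩
  have hn1 : (1 : ℝ) ≤ n := by exact_mod_cast hn
  have hn0 : (0 : ℝ) ≤ n := by linarith
  have key : ∀ m ≤ d, |(Nat.multichoose (n - a) m : ℝ)| ≤ ((1 + d) * n) ^ m ∧
      (1 + d) * n * |(Nat.multichoose (n - a) m : ℝ) - (n : ℝ) ^ m / (m.factorial : ℝ)| ≤
        m * (a + d) * ((1 + d) * n) ^ m := by
    intro m hm
    have hmd : (m : ℝ) ≤ d := by exact_mod_cast hm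
    have hsub : ((n - a : ℕ) : ℝ) = n - a := Nat.cast_sub han
    refine multi_near (n - a) m n ((1 + d) * n) (a + d) ?_ (by positivity) ?_ ?_
    · rw [abs_of_nonneg hn0]
      nlinarith only
    · rw [hsub]
      nlinarith only [hmd, hn1]
    · intro i hi
      have hid : (i : ℝ) ≤ d := by
        have : (i : ℝ) ≤ m := by exact_mod_cast hi.le
        linarith
      have hi0 : (0 : ℝ) ≤ i := Nat.cast_nonneg i
      rw [hsub, abs_le]
      constructor <;> linarith only [hid]
  constructor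
  · rw [hr_eq]
    refine ty_spr le_rfl (by positivity) fun m hm => ?_
    rw [one_mul] at hm ⊢
    refine ((key m hm).1.trans (pw hB hn0 hm)).trans ?_
    rw [sub_zero, zpow_natCast]
    refine mul_le_mul_of_nonneg_right ?_ (by positivity)
    nlinarith only [hq, hp]
  · have e2 : ex n 1 = spr 1 fun m => (n : ℝ) ^ m / (m.factorial : ℝ) := rfl
    rw [hr_eq, e2, spr_sub]
    refine ty_spr le_rfl (by positivity) fun m hm => ?_
    rw [one_mul] at hm ⊢
    refine le_zpow hn ?_
    have hmd : (m : ℝ) ≤ d := by exact_mod_cast hm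
    have h1 := (key m hm).2
    have h2 : (n : ℝ) * |(Nat.multichoose (n - a) m : ℝ) - (n : ℝ) ^ m / (m.factorial : ℝ)| ≤
        (1 + d) * n * |(Nat.multichoose (n - a) m : ℝ) - (n : ℝ) ^ m / (m.factorial : ℝ)| :=
      mul_le_mul_of_nonneg_right (by nlinarith only) (abs_nonneg _)
    have h3 : (m : ℝ) * (a + d) * ((1 + d) * n) ^ m ≤ d * (a + d) * ((1 + d) ^ d * n ^ m) :=
      mul_le_mul (mul_le_mul_of_nonneg_right hmd (by positivity)) (pw hB hn0 hm)
        (by positivity) (by positivity)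
    calc _ ≤ _ := h2.trans (h1.trans h3)
      _ = d * (a + d) * (1 + d) ^ d * n ^ m := by ring
      _ ≤ _ := by
        refine mul_le_mul_of_nonneg_right ?_ (by positivity)
        nlinarith only [hp]

/-- The variables of a block: `(1 - t)^(-c) - 1` is `c t` modulo the type `2`. -/
theorem ty_blk (d c : ℕ) : ∃ C : ℝ, 1 ≤ C ∧ ∀ n, 1 ≤ n →
    Ty d n 1 C (hr c - 1) ∧ Ty d n 2 C (hr c - 1 - PowerSeries.C (c : ℝ) * X) := by
  have hd0 : (0 : ℝ) ≤ d := Nat.cast_nonneg d
  have hc0 : (0 : ℝ) ≤ c := Nat.cast_nonneg c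
  have hB : (1 : ℝ) ≤ 1 + c + d := by linarith
  refine ⟨(1 + c + d) ^ d, one_le_pow₀ hB, fun n hn => ?_⟩
  have hn1 : (1 : ℝ) ≤ n := by exact_mod_cast hn
  have key : ∀ m ≤ d, |(Nat.multichoose c m : ℝ)| ≤ (1 + c + d) ^ d := by
    intro m hm
    have hmd : (m : ℝ) ≤ d := by exact_mod_cast hm
    refine (multi_near c m c (1 + c + d) d ?_ hd0 (by linarith only [hmd]) ?_).1.trans
      (pow_le_pow_right₀ hB hm)
    · rw [abs_of_nonneg hc0]
      linarith
    · intro i hi
      have hid : (i : ℝ) ≤ d := by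
        have : (i : ℝ) ≤ m := by exact_mod_cast hi.le
        linarith
      rw [add_sub_cancel_left, abs_of_nonneg (Nat.cast_nonneg i)]
      exact hid
  have hge : ∀ e : ℤ, 0 ≤ e → (1 : ℝ) ≤ (n : ℝ) ^ e := fun e he => one_le_zpow₀ hn1 he
  have e1 : hr c - 1 = spr 1 fun m => (Nat.multichoose c m : ℝ) - if m = 0 then 1 else 0 := by
    rw [hr_eq, ← spr_one 1 le_rfl, spr_sub]
  constructor
  · rw [e1]
    refine ty_spr le_rfl (by positivity) fun m hm => ?_
    rw [one_mul] at hm ⊢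
    rcases m with _ | m
    · rw [Nat.multichoose_zero_right, if_pos rfl, Nat.cast_one, sub_self, abs_zero]
      positivity
    · rw [if_neg (Nat.succ_ne_zero m), sub_zero]
      refine (key _ hm).trans (le_mul_of_one_le_right (by positivity) (hge _ ?_))
      push_cast
      omega
  · have e2 : hr c - 1 - PowerSeries.C (c : ℝ) * X = spr 1 fun m =>
        (Nat.multichoose c m : ℝ) - (if m = 0 then 1 else 0) - if m = 1 then (c : ℝ) else 0 := by
      have h1 := C_mul_X_pow 1 le_rfl (c : ℝ)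
      rw [pow_one] at h1
      rw [e1, h1, spr_sub]
    rw [e2]
    refine ty_spr le_rfl (by positivity) fun m hm => ?_
    rw [one_mul] at hm ⊢
    rcases m with _ | _ | m
    · simp only [Nat.multichoose_zero_right, if_true, Nat.cast_one, sub_self, zero_ne_one,
        if_false, abs_zero]
      positivity
    · simp only [zero_add, Nat.multichoose_one_right, one_ne_zero, if_false, if_true, sub_zero,
        sub_self, abs_zero]
      positivity
    · rw [if_neg (by omega), if_neg (by omega), sub_zero, sub_zero]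
      refine (key _ hm).trans (le_mul_of_one_le_right (by positivity) (hge _ ?_))
      push_cast
      omega

private theorem abs_sgn (m : ℕ) (a : ℝ) : |(-1) ^ m * a| = |a| := by
  rw [abs_mul, abs_pow, abs_neg, abs_one, one_pow, one_mul]

/-- Many points of exponent `x ≥ 1` of the support `∅`: `(1 - t^x)^N` is `exp (-N t^x)` modulo the type
`1`, if `N ≤ C₀ n^x`. -/
theorem ty_pts (d x : ℕ) (hx : 1 ≤ x) (C₀ : ℝ) : ∃ C : ℝ, 1 ≤ C ∧ ∀ n N : ℕ, 1 ≤ n →
    (N : ℝ) ≤ C₀ * (n : ℝ) ^ x →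
      Ty d n 0 C ((1 - X ^ x) ^ N) ∧ Ty d n 1 C ((1 - X ^ x) ^ N - ex (-(N : ℝ)) x) := by
  have hd0 : (0 : ℝ) ≤ d := Nat.cast_nonneg d
  have hB : (1 : ℝ) ≤ 1 + |C₀| := by linarith only [abs_nonneg C₀]
  have hp : (1 : ℝ) ≤ (1 + |C₀|) ^ d := one_le_pow₀ hB
  refine ⟨(1 + d * d) * (1 + |C₀|) ^ d,
    one_le_mul_of_one_le_of_one_le (by nlinarith only) hp, fun n N hn hN => ?_⟩
  have hn1 : (1 : ℝ) ≤ n := by exact_mod_cast hn
  have hnx : (n : ℝ) ≤ (n : ℝ) ^ x := le_self_pow₀ hn1 (by omega)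
  have hq : (0 : ℝ) ≤ (n : ℝ) ^ x := by positivity
  have hM : (N : ℝ) ≤ (1 + |C₀|) * (n : ℝ) ^ x := by
    refine hN.trans (mul_le_mul_of_nonneg_right ?_ hq)
    linarith only [le_abs_self C₀]
  have hmd : ∀ m, x * m ≤ d → m ≤ d := fun m hm => (Nat.le_mul_of_pos_left m hx).trans hm
  constructor
  · rw [pow_eq_spr x hx]
    refine ty_spr hx (by positivity) fun m hm => ?_
    rw [abs_sgn, sub_zero, zpow_natCast, pow_mul]
    refine ((choose_near N m _ hM).1.trans (pw hB hq (hmd m hm))).trans ?_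
    refine mul_le_mul_of_nonneg_right ?_ (by positivity)
    nlinarith only [hp]
  · have e2 : ex (-(N : ℝ)) x = spr x fun m => (-(N : ℝ)) ^ m / (m.factorial : ℝ) := rfl
    rw [pow_eq_spr x hx, e2, spr_sub]
    refine ty_spr hx (by positivity) fun m hm => ?_
    refine le_zpow hn ?_
    have e3 : (-1 : ℝ) ^ m * (Nat.choose N m : ℝ) - (-(N : ℝ)) ^ m / (m.factorial : ℝ) =
        (-1) ^ m * ((Nat.choose N m : ℝ) - (N : ℝ) ^ m / (m.factorial : ℝ)) := by
      rw [neg_pow (N : ℝ) m]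
      ring
    rw [e3, abs_sgn]
    have hm' : (m : ℝ) ≤ d := by exact_mod_cast hmd m hm
    have h1 := (choose_near N m _ hM).2
    have h2 : (n : ℝ) * |(Nat.choose N m : ℝ) - (N : ℝ) ^ m / (m.factorial : ℝ)| ≤
        (1 + |C₀|) * (n : ℝ) ^ x * |(Nat.choose N m : ℝ) - (N : ℝ) ^ m / (m.factorial : ℝ)| :=
      mul_le_mul_of_nonneg_right (by nlinarith only [hnx, hB]) (abs_nonneg _)
    have h3 : (m : ℝ) * m * ((1 + |C₀|) * (n : ℝ) ^ x) ^ m ≤
        d * d * ((1 + |C₀|) ^ d * ((n : ℝ) ^ x) ^ m) :=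
      mul_le_mul (mul_le_mul hm' hm' (Nat.cast_nonneg m) hd0) (pw hB hq (hmd m hm))
        (by positivity) (by positivity)
    rw [pow_mul]
    calc _ ≤ _ := h2.trans (h1.trans h3)
      _ = d * d * (1 + |C₀|) ^ d * ((n : ℝ) ^ x) ^ m := by ring
      _ ≤ _ := by
        refine mul_le_mul_of_nonneg_right ?_ (by positivity)
        nlinarith only [hp]

private theorem pt_near (d x w : ℕ) (hw : w < x) (C₀ : ℝ) : ∃ C : ℝ, 1 ≤ C ∧ ∀ n N : ℕ, 1 ≤ n →
    (N : ℝ) ≤ C₀ * (n : ℝ) ^ w →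
      Ty d n ((x : ℤ) - w) C ((1 - X ^ x) ^ N - 1) ∧
        Ty d n (2 * ((x : ℤ) - w)) C ((1 - X ^ x) ^ N - 1 + PowerSeries.C (N : ℝ) * X ^ x) ∧
        Ty d n ((x : ℤ) - w) C (spr x (fun m => (Nat.multichoose N m : ℝ)) - 1) := by
  have hx : 1 ≤ x := by omega
  have hd0 : (0 : ℝ) ≤ d := Nat.cast_nonneg d
  have hB : (1 : ℝ) ≤ 1 + |C₀| + d := by linarith only [abs_nonneg C₀]
  refine ⟨(1 + |C₀| + d) ^ d, one_le_pow₀ hB, fun n N hn hN => ?_⟩
  have hn1 : (1 : ℝ) ≤ n := by exact_mod_cast hn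
  have hq : (0 : ℝ) ≤ (n : ℝ) ^ w := by positivity
  have hq1 : (1 : ℝ) ≤ (n : ℝ) ^ w := one_le_pow₀ hn1
  have hN0 : (0 : ℝ) ≤ N := Nat.cast_nonneg N
  have hMd : (N : ℝ) + d ≤ (1 + |C₀| + d) * (n : ℝ) ^ w := by
    have h1 : C₀ * (n : ℝ) ^ w ≤ |C₀| * (n : ℝ) ^ w :=
      mul_le_mul_of_nonneg_right (le_abs_self C₀) hq
    nlinarith only [hN, hq1, h1]
  have hM : (N : ℝ) ≤ (1 + |C₀| + d) * (n : ℝ) ^ w := by linarith only [hMd]
  have hmd : ∀ m, x * m ≤ d → m ≤ d := fun m hm => (Nat.le_mul_of_pos_left m hx).trans hm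
  have hb : ∀ m, x * m ≤ d → ((1 + |C₀| + d) * (n : ℝ) ^ w) ^ m ≤
      (1 + |C₀| + d) ^ d * (n : ℝ) ^ (w * m) := by
    intro m hm
    rw [pow_mul]
    exact pw hB hq (hmd m hm)
  have e1 : ((1 - X ^ x) ^ N - 1 : PowerSeries ℝ) = spr x fun m =>
      (-1) ^ m * (Nat.choose N m : ℝ) - if m = 0 then 1 else 0 := by
    rw [pow_eq_spr x hx, ← spr_one x hx, spr_sub]
  -- the exponents
  have hex : ∀ m j : ℕ, j ≤ m → ((w * m : ℕ) : ℤ) ≤ ((x * m : ℕ) : ℤ) - j * ((x : ℤ) - w) := by
    intro m j hj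
    have h1 : (0 : ℤ) ≤ ((m : ℤ) - j) * ((x : ℤ) - w) :=
      mul_nonneg (by omega) (by omega)
    push_cast
    nlinarith only [h1]
  refine ⟨?_, ?_, ?_⟩
  · rw [e1]
    refine ty_spr hx (by positivity) fun m hm => ?_
    rcases m with _ | m
    · rw [Nat.choose_zero_right, if_pos rfl, Nat.cast_one, pow_zero, one_mul, sub_self, abs_zero]
      positivity
    · rw [if_neg (Nat.succ_ne_zero m), sub_zero, abs_sgn]
      refine ((choose_near N _ _ hM).1.trans (hb _ hm)).trans ?_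
      refine mul_le_mul_of_nonneg_left (npow_le hn ?_) (by positivity)
      have h1 := hex (m + 1) 1 (by omega)
      push_cast at h1 ⊢
      linarith only [h1]
  · have e2 : ((1 - X ^ x) ^ N - 1 + PowerSeries.C (N : ℝ) * X ^ x : PowerSeries ℝ) =
        spr x fun m => (-1) ^ m * (Nat.choose N m : ℝ) - (if m = 0 then 1 else 0) +
          if m = 1 then (N : ℝ) else 0 := by
      rw [e1, C_mul_X_pow x hx, spr_add]
    rw [e2]
    refine ty_spr hx (by positivity) fun m hm => ?_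
    rcases m with _ | _ | m
    · simp only [Nat.choose_zero_right, if_true, Nat.cast_one, pow_zero, one_mul, sub_self,
        zero_ne_one, if_false, add_zero, abs_zero]
      positivity
    · simp only [zero_add, Nat.choose_one_right, one_ne_zero, if_false, if_true, sub_zero,
        pow_one, neg_mul, one_mul, neg_add_cancel, abs_zero]
      positivity
    · rw [if_neg (by omega), if_neg (by omega), sub_zero, add_zero, abs_sgn]
      refine ((choose_near N _ _ hM).1.trans (hb _ hm)).trans ?_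
      refine mul_le_mul_of_nonneg_left (npow_le hn ?_) (by positivity)
      have h1 := hex (m + 1 + 1) 2 (by omega)
      push_cast at h1 ⊢
      linarith only [h1]
  · rw [← spr_one x hx, spr_sub]
    refine ty_spr hx (by positivity) fun m hm => ?_
    rcases m with _ | m
    · rw [Nat.multichoose_zero_right, if_pos rfl, Nat.cast_one, sub_self, abs_zero]
      positivity
    · rw [if_neg (Nat.succ_ne_zero m), sub_zero]
      have hm1 : ((m + 1 : ℕ) : ℝ) ≤ d := by exact_mod_cast hmd _ hm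
      refine ((multi_near N (m + 1) N _ d (by rw [abs_of_nonneg hN0]; exact hM) hd0
        (by linarith) (fun i hi => ?_)).1.trans (hb _ hm)).trans ?_
      · have h5 : (i : ℝ) ≤ ((m + 1 : ℕ) : ℝ) := by exact_mod_cast hi.le
        rw [add_sub_cancel_left, abs_of_nonneg (Nat.cast_nonneg i)]
        linarith
      · refine mul_le_mul_of_nonneg_left (npow_le hn ?_) (by positivity)
        have h1 := hex (m + 1) 1 (by omega)
        push_cast at h1 ⊢
        linarith

private theorem kind_one (d k a : ℕ) (hk : 1 ≤ k) (ha : 1 ≤ a) (had : a ≤ d) (C₀ : ℝ) :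
    ∃ C : ℝ, 1 ≤ C ∧ ∀ (n : ℕ) (N : ℕ → ℕ), 1 ≤ n →
    (∀ x, x < k → N x = 0) → (∀ x, k ≤ x → x ≤ d → (N x : ℝ) ≤ C₀ * (n : ℝ) ^ (x - k)) →
      Ty d n k C ((1 - X ^ a) ^ N a - 1) ∧
        Ty d n (k + 1) C ((1 - X ^ a) ^ N a - 1 + PowerSeries.C (N a : ℝ) * X ^ a) := by
  by_cases hak : a < k
  · refine ⟨1, le_rfl, fun n N hn h0 _ => ?_⟩
    rw [h0 a hak, pow_zero, sub_self, Nat.cast_zero, map_zero, zero_mul, add_zero]
    exact ⟨Ty.zero _ zero_le_one, Ty.zero _ zero_le_one⟩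
  · obtain ⟨C, hC, h⟩ := pt_near d a (a - k) (by omega) C₀
    refine ⟨C, hC, fun n N hn _ hN => ?_⟩
    obtain ⟨h1, h2, _⟩ := h n (N a) hn (hN a (by omega) had)
    have hC0 : 0 ≤ C := by linarith only [hC]
    exact ⟨h1.mono hn (by omega) le_rfl hC0, h2.mono hn (by omega) le_rfl hC0⟩

private theorem kind_aux (d k : ℕ) (hk : 1 ≤ k) (C₀ : ℝ) (s : Finset ℕ)
    (hs : ∀ x ∈ s, 1 ≤ x ∧ x ≤ d) : ∃ C : ℝ, 1 ≤ C ∧ ∀ (n : ℕ) (N : ℕ → ℕ), 1 ≤ n →
    (∀ x, x < k → N x = 0) → (∀ x, k ≤ x → x ≤ d → (N x : ℝ) ≤ C₀ * (n : ℝ) ^ (x - k)) →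
      Ty d n k C (∏ x ∈ s, (1 - X ^ x) ^ N x - 1) ∧
        Ty d n (k + 1) C (∏ x ∈ s, (1 - X ^ x) ^ N x - 1 +
          ∑ x ∈ s, PowerSeries.C (N x : ℝ) * X ^ x) := by
  classical
  induction s using Finset.induction_on with
  | empty =>
    refine ⟨1, le_rfl, fun n N _ _ _ => ?_⟩
    rw [prod_empty, sub_self, sum_empty, add_zero]
    exact ⟨Ty.zero _ zero_le_one, Ty.zero _ zero_le_one⟩
  | insert a s ha ih =>
    obtain ⟨C, hC, h⟩ := ih fun x hx => hs x (mem_insert_of_mem hx)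
    obtain ⟨Ca, hCa, h'⟩ := kind_one d k a hk (hs a (mem_insert_self _ _)).1
      (hs a (mem_insert_self _ _)).2 C₀
    have hC0 : 0 ≤ C := by linarith only [hC]
    have hCa0 : 0 ≤ Ca := by linarith
    have hp : 0 ≤ (d + 1) * Ca * C := by positivity
    refine ⟨C + Ca + (d + 1) * Ca * C, by linarith only [hC, hCa, hp], fun n N hn h0 hN => ?_⟩
    obtain ⟨h1, h2⟩ := h n N hn h0 hN
    obtain ⟨h3, h4⟩ := h' n N hn h0 hN
    have h5 := Ty.mul hn hCa0 hC0 h3 h1
    rw [prod_insert ha, sum_insert ha]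
    constructor
    · refine ((h1.add h3).add (h5.mono hn (by omega) le_rfl hp)).congr rfl rfl ?_
      ring
    · refine ((h2.add h4).add (h5.mono hn (by omega) le_rfl hp)).congr rfl rfl ?_
      ring

/-- The points of a support `K ≠ ∅`, `k = |K|`: numbers `N x ≤ C₀ n ^ (x - k)` for `x ≥ k`, `N x = 0` for
`x < k` or `x > d`. -/
theorem ty_kind (d k : ℕ) (hk : 1 ≤ k) (C₀ : ℝ) : ∃ C : ℝ, 1 ≤ C ∧ ∀ (n : ℕ) (N : ℕ → ℕ), 1 ≤ n →
    (∀ x, x < k → N x = 0) → (∀ x, k ≤ x → x ≤ d → (N x : ℝ) ≤ C₀ * (n : ℝ) ^ (x - k)) →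
      Ty d n k C (∏ x ∈ Icc 1 d, (1 - X ^ x) ^ N x - 1) ∧
        Ty d n (k + 1) C (∏ x ∈ Icc 1 d, (1 - X ^ x) ^ N x - 1 +
          ∑ x ∈ Icc 1 d, PowerSeries.C (N x : ℝ) * X ^ x) :=
  kind_aux d k hk C₀ (Icc 1 d) fun _ hx => mem_Icc.1 hx

/-- A cluster type: `N ≤ C₀ n^w`, `w < x`. -/
theorem ty_cl (d x w : ℕ) (hw : w < x) (C₀ : ℝ) : ∃ C : ℝ, 1 ≤ C ∧ ∀ n N : ℕ, 1 ≤ n →
    (N : ℝ) ≤ C₀ * (n : ℝ) ^ w →
      Ty d n ((x : ℤ) - w) C ((1 - X ^ x) ^ N - 1) ∧
        Ty d n ((x : ℤ) - w) C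
          ((PowerSeries.mk fun D => if x ∣ D then (Nat.multichoose N (D / x) : ℝ) else 0) - 1) := by
  obtain ⟨C, hC, h⟩ := pt_near d x w hw C₀
  exact ⟨C, hC, fun n N hn hN => ⟨(h n N hn hN).1, (h n N hn hN).2.2⟩⟩

/-- The inverse of `(1 - t^x)^N`. -/
theorem inv_pts (x N : ℕ) (hx : 1 ≤ x) : ((1 - X ^ x) ^ N : PowerSeries ℝ) *
    (PowerSeries.mk fun D => if x ∣ D then (Nat.multichoose N (D / x) : ℝ) else 0) = 1 :=
  inv_spr x N hx

theorem hr_add (a b : ℕ) : hr (a + b) = hr a * hr b := by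
  have h : ∀ N, ((1 - X ^ 1) ^ N : PowerSeries ℝ) * hr N = 1 := fun N => by
    rw [hr_eq]
    exact inv_spr 1 N le_rfl
  calc hr (a + b) = ((1 - X ^ 1) ^ a * hr a) * ((1 - X ^ 1) ^ b * hr b) * hr (a + b) := by
        rw [h a, h b, one_mul, one_mul]
    _ = ((1 - X ^ 1) ^ (a + b) * hr (a + b)) * (hr a * hr b) := by
        rw [pow_add]
        ring
    _ = _ := by rw [h (a + b), one_mul]

end Pool.Agent.GD.VT

end

section

/-!
Numerical estimate.
-/

namespace Pool.Agent.H21.HD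

open scoped Classical

/-- Numerical estimate: the load of a set of `d` blocks. -/
theorem load_estimate (d h : ℕ) (hd : 1 ≤ d) (hh : 1 ≤ h) (ε : ℝ) (hε : 0 < ε) :
    ∃ r₀ : ℕ, ∀ r : ℕ, r₀ ≤ r → ∀ N : ℕ, r + 1 < (N + 1) * h + h ^ d → 
      d ≤ N ∧ ∀ e : ℕ, 1 ≤ e → e ≤ d →
        (d.choose e : ℝ) / ((N.choose e : ℝ) * (h : ℝ) ^ e) ≤
          (1 + ε) * ((r + (d - e)).choose r : ℝ) / ((r + d).choose r : ℝ) := by
  -- the limit
  set K : ℕ := d + h ^ d + d * h with hK
  have hlim : Filter.Tendsto (fun x : ℕ => (1 + (K : ℝ) / (x : ℝ)) ^ d) Filter.atTop (nhds 1) := by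
    have h1 : Filter.Tendsto (fun x : ℕ => (K : ℝ) / (x : ℝ)) Filter.atTop (nhds 0) :=
      tendsto_const_div_atTop_nhds_zero_nat _
    have h2 := (h1.const_add 1).pow d
    simpa using h2
  have hev := hlim.eventually (gt_mem_nhds (show (1 : ℝ) < 1 + ε by linarith))
  obtain ⟨x₀, hx₀⟩ := Filter.eventually_atTop.1 hev
  refine ⟨x₀ + (d + 1) * h + h ^ d + d * h + d, fun r hr N hN => ?_⟩
  have hdN : d ≤ N := by
    by_contra hcon
    push Not at hcon
    have h1 : (N + 1) * h ≤ d * h := Nat.mul_le_mul_right h hcon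
    have h2 : (d + 1) * h = d * h + h := by ring
    omega
  refine ⟨hdN, fun e he1 hed => ?_⟩
  -- set x = r + 1 - h ^ d - d * h
  obtain ⟨x, hx⟩ : ∃ x, r + 1 = x + (h ^ d + d * h) := ⟨r + 1 - (h ^ d + d * h), by omega⟩
  have hxx : x₀ ≤ x := by
    have h2 : (d + 1) * h = d * h + h := by ring
    omega
  have hx1 : 1 ≤ x := by
    have h2 : (d + 1) * h = d * h + h := by ring
    omega
  have hxpos : (0 : ℝ) < x := by exact_mod_cast hx1
  have hlt := hx₀ x hxx
  -- (N - e + 1) * h ≥ x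
  obtain ⟨M, hM⟩ : ∃ M, N = M + e := ⟨N - e, by omega⟩
  have hMx : x ≤ (M + 1) * h := by
    have h1 : (N + 1) * h = (M + 1) * h + e * h := by rw [hM]; ring
    have h2 : e * h ≤ d * h := Nat.mul_le_mul_right h hed
    omega
  -- lower bound for N.choose e
  have hchoose : ((M + 1 : ℕ) : ℝ) ^ e ≤ (N.choose e : ℝ) * (e.factorial : ℝ) := by
    have h1 : (M + 1) ^ e ≤ N.descFactorial e := by
      have h2 := Nat.pow_sub_le_descFactorial N e
      have h3 : N + 1 - e = M + 1 := by omega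
      rw [h3] at h2
      exact h2
    have h2 : N.descFactorial e = N.choose e * e.factorial := by
      rw [Nat.descFactorial_eq_factorial_mul_choose]; ring
    rw [h2] at h1
    exact_mod_cast h1
  have hNpos : (0 : ℝ) < (N.choose e : ℝ) := by
    have : 0 < N.choose e := Nat.choose_pos (by omega)
    exact_mod_cast this
  have hhpos : (0 : ℝ) < (h : ℝ) := by exact_mod_cast hh
  have hefpos : (0 : ℝ) < (e.factorial : ℝ) := by exact_mod_cast e.factorial_pos
  -- binomial ratio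
  obtain ⟨f, hf⟩ : ∃ f, d = f + e := ⟨d - e, by omega⟩
  have hde : d - e = f := by omega
  rw [hde]
  have hrpos : (0 : ℝ) < ((r + d).choose r : ℝ) := by
    have : 0 < (r + d).choose r := Nat.choose_pos (by omega)
    exact_mod_cast this
  -- (r+d).choose r * d! = (r+d)! / r!
  have e1 : ((r + d).choose r : ℝ) * (r.factorial : ℝ) * (d.factorial : ℝ) =
      ((r + d).factorial : ℝ) := by
    have h1 := Nat.choose_mul_factorial_mul_factorial (show r ≤ r + d by omega)
    have h2 : r + d - r = d := by omega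
    rw [h2] at h1
    exact_mod_cast h1
  have e2 : ((r + f).choose r : ℝ) * (r.factorial : ℝ) * (f.factorial : ℝ) =
      ((r + f).factorial : ℝ) := by
    have h1 := Nat.choose_mul_factorial_mul_factorial (show r ≤ r + f by omega)
    have h2 : r + f - r = f := by omega
    rw [h2] at h1
    exact_mod_cast h1
  have e3 : ((r + d).factorial : ℝ) ≤ ((r + f).factorial : ℝ) * ((r + d : ℕ) : ℝ) ^ e := by
    have h1 := Nat.factorial_mul_pow_le_factorial (m := r + f) (n := e)
    have h2 : (r + d).descFactorial e ≤ (r + d) ^ e := Nat.descFactorial_le_pow _ _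
    have h3 := Nat.factorial_mul_descFactorial (show e ≤ r + d by omega)
    have h4 : r + d - e = r + f := by omega
    rw [h4] at h3
    have h5 : (r + d).factorial ≤ (r + f).factorial * (r + d) ^ e := by
      rw [← h3]
      exact Nat.mul_le_mul_left _ h2
    exact_mod_cast h5
  have e4 : (d.choose e : ℝ) * (e.factorial : ℝ) * (f.factorial : ℝ) = (d.factorial : ℝ) := by
    have h1 := Nat.choose_mul_factorial_mul_factorial hed
    rw [hde] at h1
    exact_mod_cast h1
  have hffpos : (0 : ℝ) < (f.factorial : ℝ) := by exact_mod_cast f.factorial_pos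
  have hrfpos : (0 : ℝ) < (r.factorial : ℝ) := by exact_mod_cast r.factorial_pos
  have hdfpos : (0 : ℝ) < (d.factorial : ℝ) := by exact_mod_cast d.factorial_pos
  -- (r + d) ^ e ≤ (1 + ε) * x ^ e
  have e5 : ((r + d : ℕ) : ℝ) ^ e ≤ (1 + ε) * (x : ℝ) ^ e := by
    have h1 : ((r + d : ℕ) : ℝ) ≤ (x : ℝ) + K := by
      have : r + d ≤ x + K := by omega
      exact_mod_cast this
    have h2 : ((r + d : ℕ) : ℝ) ≤ (x : ℝ) * (1 + (K : ℝ) / (x : ℝ)) := by
      have : (x : ℝ) * (1 + (K : ℝ) / (x : ℝ)) = (x : ℝ) + K := by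
        field_simp
      rw [this]; exact h1
    have h3 : ((r + d : ℕ) : ℝ) ^ e ≤ ((x : ℝ) * (1 + (K : ℝ) / (x : ℝ))) ^ e :=
      pow_le_pow_left₀ (Nat.cast_nonneg _) h2 e
    rw [mul_pow] at h3
    have h4 : (1 + (K : ℝ) / (x : ℝ)) ^ e ≤ (1 + (K : ℝ) / (x : ℝ)) ^ d := by
      apply pow_le_pow_right₀ _ hed
      have : (0 : ℝ) ≤ (K : ℝ) / (x : ℝ) := by positivity
      linarith
    have h5 : (0 : ℝ) < (x : ℝ) ^ e := by positivity
    calc ((r + d : ℕ) : ℝ) ^ e ≤ (x : ℝ) ^ e * (1 + (K : ℝ) / (x : ℝ)) ^ e := h3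
      _ ≤ (x : ℝ) ^ e * (1 + ε) := by
          apply mul_le_mul_of_nonneg_left _ h5.le
          linarith
      _ = (1 + ε) * (x : ℝ) ^ e := by ring
  have e6 : (x : ℝ) ^ e ≤ ((M + 1 : ℕ) : ℝ) ^ e * (h : ℝ) ^ e := by
    rw [← mul_pow]
    apply pow_le_pow_left₀ hxpos.le
    exact_mod_cast hMx
  -- conclusion
  rw [div_le_div_iff₀ (by positivity) hrpos]
  -- d.choose e * (r+d).choose r ≤ (1+ε) * (r+f).choose r * (N.choose e * h^e)
  have key : (d.choose e : ℝ) * ((r + d).choose r : ℝ) *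
      ((e.factorial : ℝ) * (f.factorial : ℝ) * (r.factorial : ℝ) * (d.factorial : ℝ)) ≤
      (1 + ε) * ((r + f).choose r : ℝ) * ((N.choose e : ℝ) * (h : ℝ) ^ e) *
      ((e.factorial : ℝ) * (f.factorial : ℝ) * (r.factorial : ℝ) * (d.factorial : ℝ)) := by
    have l1 : (d.choose e : ℝ) * ((r + d).choose r : ℝ) *
      ((e.factorial : ℝ) * (f.factorial : ℝ) * (r.factorial : ℝ) * (d.factorial : ℝ)) =
      ((d.choose e : ℝ) * (e.factorial : ℝ) * (f.factorial : ℝ)) *
        (((r + d).choose r : ℝ) * (r.factorial : ℝ) * (d.factorial : ℝ)) := by ring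
    have l2 : (1 + ε) * ((r + f).choose r : ℝ) * ((N.choose e : ℝ) * (h : ℝ) ^ e) *
      ((e.factorial : ℝ) * (f.factorial : ℝ) * (r.factorial : ℝ) * (d.factorial : ℝ)) =
      (1 + ε) * (((r + f).choose r : ℝ) * (r.factorial : ℝ) * (f.factorial : ℝ)) *
        (((N.choose e : ℝ) * (e.factorial : ℝ)) * (h : ℝ) ^ e) * (d.factorial : ℝ) := by ring
    rw [l1, l2, e1, e2, e4]
    have hrf : (0 : ℝ) < ((r + f).factorial : ℝ) := by exact_mod_cast (r + f).factorial_pos
    have m1 : ((r + d).factorial : ℝ) ≤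
        (1 + ε) * ((r + f).factorial : ℝ) * (((N.choose e : ℝ) * (e.factorial : ℝ)) * (h : ℝ) ^ e) := by
      calc ((r + d).factorial : ℝ) ≤ ((r + f).factorial : ℝ) * ((r + d : ℕ) : ℝ) ^ e := e3
        _ ≤ ((r + f).factorial : ℝ) * ((1 + ε) * (x : ℝ) ^ e) :=
            mul_le_mul_of_nonneg_left e5 hrf.le
        _ ≤ ((r + f).factorial : ℝ) * ((1 + ε) * (((M + 1 : ℕ) : ℝ) ^ e * (h : ℝ) ^ e)) := by
            apply mul_le_mul_of_nonneg_left _ hrf.le
            apply mul_le_mul_of_nonneg_left e6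
            linarith
        _ ≤ ((r + f).factorial : ℝ) * ((1 + ε) *
              (((N.choose e : ℝ) * (e.factorial : ℝ)) * (h : ℝ) ^ e)) := by
            apply mul_le_mul_of_nonneg_left _ hrf.le
            apply mul_le_mul_of_nonneg_left _ (by linarith)
            exact mul_le_mul_of_nonneg_right hchoose (by positivity)
        _ = _ := by ring
    calc (d.factorial : ℝ) * ((r + d).factorial : ℝ) = ((r + d).factorial : ℝ) * (d.factorial : ℝ) := by
          ring
      _ ≤ _ := mul_le_mul_of_nonneg_right m1 hdfpos.le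
  have hpos : (0 : ℝ) < (e.factorial : ℝ) * (f.factorial : ℝ) * (r.factorial : ℝ) *
      (d.factorial : ℝ) := by positivity
  exact le_of_mul_le_mul_right key hpos

end Pool.Agent.H21.HD

end

section

/-!
# Counting the conditions
-/

namespace Pool.Agent.H54.V7

open Finset

/-- The number of exponents of degree `s` in `n` variables which meet `k` given disjoint blocks of
size `c`. -/
def bbc (c s : ℕ) : ℕ → ℕ → ℕ
  | 0, n => (n + s - 1).choose s
  | k + 1, n => bbc c s k n - bbc c s k (n - c)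

section

set_option linter.unusedSectionVars false

variable {ι : Type} [Fintype ι] [DecidableEq ι] {κ : Type} [DecidableEq κ]

/-- The exponents of degree `s` in the variables of `S` which meet the blocks of `I`. -/
def mset (blk : κ → Finset ι) (S : Finset ι) (I : Finset κ) (s : ℕ) : Finset (ι → ℕ) :=
  (piAntidiag S s).filter fun b => ∀ i ∈ I, ¬ ∀ x ∈ blk i, b x = 0

theorem mem_mset {blk : κ → Finset ι} {S : Finset ι} {I : Finset κ} {s : ℕ} {b : ι → ℕ} :
    b ∈ mset blk S I s ↔ (∑ x, b x = s ∧ ∀ x, b x ≠ 0 → x ∈ S) ∧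
      ∀ i ∈ I, ¬ ∀ x ∈ blk i, b x = 0 := by
  unfold mset
  rw [mem_filter, mem_piAntidiag]
  constructor
  · rintro ⟨⟨h1, h2⟩, h3⟩
    refine ⟨⟨?_, h2⟩, h3⟩
    rw [← h1]
    symm
    refine sum_subset (subset_univ S) fun x _ hx => ?_
    by_contra h
    exact hx (h2 x h)
  · rintro ⟨⟨h1, h2⟩, h3⟩
    refine ⟨⟨?_, h2⟩, h3⟩
    rw [← h1]
    refine sum_subset (subset_univ S) fun x _ hx => ?_
    by_contra h
    exact hx (h2 x h)

theorem mset_mono (blk : κ → Finset ι) {S S' : Finset ι} (h : S ⊆ S') (I : Finset κ) (s : ℕ) :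
    mset blk S I s ⊆ mset blk S' I s := by
  intro b hb
  rw [mem_mset] at hb ⊢
  exact ⟨⟨hb.1.1, fun x hx => h (hb.1.2 x hx)⟩, hb.2⟩

theorem card_mset_insert (blk : κ → Finset ι) (S : Finset ι) (I : Finset κ) (i : κ) (s : ℕ) :
    (mset blk S (insert i I) s).card + (mset blk (S \ blk i) I s).card =
      (mset blk S I s).card := by
  have h1 : mset blk S I s = mset blk S (insert i I) s ∪ mset blk (S \ blk i) I s := by
    ext b
    rw [mem_union, mem_mset, mem_mset, mem_mset]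
    constructor
    · rintro ⟨⟨h1, h2⟩, h3⟩
      by_cases h4 : ∀ x ∈ blk i, b x = 0
      · right
        refine ⟨⟨h1, fun x hx => ?_⟩, h3⟩
        rw [mem_sdiff]
        exact ⟨h2 x hx, fun h => hx (h4 x h)⟩
      · left
        refine ⟨⟨h1, h2⟩, fun k hk => ?_⟩
        rcases mem_insert.1 hk with h5 | h5
        · rw [h5]
          exact h4
        · exact h3 k h5
    · rintro (⟨⟨h1, h2⟩, h3⟩ | ⟨⟨h1, h2⟩, h3⟩)
      · exact ⟨⟨h1, h2⟩, fun k hk => h3 k (mem_insert_of_mem hk)⟩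
      · exact ⟨⟨h1, fun x hx => (mem_sdiff.1 (h2 x hx)).1⟩, h3⟩
  have h2 : Disjoint (mset blk S (insert i I) s) (mset blk (S \ blk i) I s) := by
    rw [disjoint_left]
    intro b hb hb'
    rw [mem_mset] at hb hb'
    refine hb.2 i (mem_insert_self i I) fun x hx => ?_
    by_contra h
    exact (mem_sdiff.1 (hb'.1.2 x h)).2 hx
  rw [h1, card_union_of_disjoint h2]

theorem card_piAnti (S : Finset ι) (s : ℕ) :
    (piAntidiag S s).card = (S.card + s - 1).choose s := by
  rw [← card_finsuppAntidiag_nat_eq_choose]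
  refine card_bij (fun b _ => Finsupp.equivFunOnFinite.symm b) ?_ ?_ ?_
  · intro b hb
    rw [mem_piAntidiag] at hb
    rw [mem_finsuppAntidiag]
    refine ⟨hb.1, fun x hx => ?_⟩
    rw [Finsupp.mem_support_iff] at hx
    exact hb.2 x hx
  · intro b _ b' _ h
    exact Finsupp.equivFunOnFinite.symm.injective h
  · intro b hb
    rw [mem_finsuppAntidiag] at hb
    refine ⟨Finsupp.equivFunOnFinite b, ?_, Finsupp.equivFunOnFinite.symm_apply_apply b⟩
    rw [mem_piAntidiag]
    refine ⟨hb.1, fun x hx => hb.2 ?_⟩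
    rw [Finsupp.mem_support_iff]
    exact hx

theorem card_mset (blk : κ → Finset ι) (c s : ℕ) (I : Finset κ) :
    ∀ S : Finset ι, (∀ i ∈ I, blk i ⊆ S ∧ (blk i).card = c) →
      (∀ i ∈ I, ∀ k ∈ I, i ≠ k → Disjoint (blk i) (blk k)) →
      (mset blk S I s).card = bbc c s I.card S.card := by
  induction I using Finset.induction_on with
  | empty =>
    intro S _ _
    have h1 : mset blk S ∅ s = piAntidiag S s := by
      unfold mset
      rw [filter_true_of_mem]
      intro b _ i hi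
      exact absurd hi (notMem_empty i)
    rw [h1, card_piAnti, card_empty]
    rfl
  | insert i I hi ih =>
    intro S hS hd
    have h1 := card_mset_insert blk S I i s
    rw [ih S (fun k hk => hS k (mem_insert_of_mem hk))
      (fun k hk l hl => hd k (mem_insert_of_mem hk) l (mem_insert_of_mem hl)),
      ih (S \ blk i) (fun k hk => ⟨fun x hx => mem_sdiff.2 ⟨(hS k (mem_insert_of_mem hk)).1 hx,
        fun h => disjoint_left.1 (hd k (mem_insert_of_mem hk) i (mem_insert_self i I)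
          (fun h => hi (h ▸ hk))) hx h⟩, (hS k (mem_insert_of_mem hk)).2⟩)
      (fun k hk l hl => hd k (mem_insert_of_mem hk) l (mem_insert_of_mem hl))] at h1
    rw [card_sdiff_of_subset (hS i (mem_insert_self i I)).1,
      (hS i (mem_insert_self i I)).2] at h1
    rw [card_insert_of_notMem hi]
    show _ = bbc c s I.card S.card - bbc c s I.card (S.card - c)
    omega

end

end Pool.Agent.H54.V7

end

section

/-!
# Automorphisms of algebraically closed fields

Proof plan: `Ω` is an algebraic closure of `Algebra.adjoin L (range x)`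
(`IsAlgClosed.isAlgClosure_of_transcendence_basis`, see the definition of
`IsAlgClosed.equivOfTranscendenceBasis` in `Mathlib.FieldTheory.IsAlgClosed.Classification`), and the
same for `y`. The isomorphism of the two polynomial algebras (`AlgebraicIndependent.aevalEquiv`)
extends to `Ω` by `IsAlgClosure.equivOfEquiv` (with `IsAlgClosure.equivOfEquiv_algebraMap`).

`exists_embedding`: take transcendence bases `x` of `F` and `z` of `Ω` over `k`, both of cardinality
`D`, so a bijection of the index sets; extend `k[x] → Ω`, `x i ↦ z i`, to the algebraic extension `F`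
of the fraction field of `k[x]` (`IsAlgClosed.lift`).

`exists_omega`: `Ω = AlgebraicClosure (FractionRing (MvPolynomial (Fin D) k))`.
-/

namespace Pool.Agent.H72.SB

theorem exists_aut {L Ω ι : Type*} [Field L] [Field Ω] [Algebra L Ω] [IsAlgClosed Ω]
    {x y : ι → Ω} (hx : IsTranscendenceBasis L x) (hy : IsTranscendenceBasis L y) :
    ∃ σ : Ω ≃ₐ[L] Ω, ∀ i, σ (x i) = y i := by
  let := IsAlgClosed.isAlgClosure_of_transcendence_basis x hx
  let := IsAlgClosed.isAlgClosure_of_transcendence_basis y hy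
  let e : Algebra.adjoin L (Set.range x) ≃ₐ[L] Algebra.adjoin L (Set.range y) :=
    hx.1.aevalEquiv.symm.trans hy.1.aevalEquiv
  have he : ∀ i, e ⟨x i, Algebra.subset_adjoin ⟨i, rfl⟩⟩ =
      ⟨y i, Algebra.subset_adjoin ⟨i, rfl⟩⟩ := by
    intro i
    have h1 : hx.1.aevalEquiv (MvPolynomial.X i) =
        ⟨x i, Algebra.subset_adjoin ⟨i, rfl⟩⟩ := by
      apply Subtype.ext
      simp
    have h2 : hx.1.aevalEquiv.symm ⟨x i, Algebra.subset_adjoin ⟨i, rfl⟩⟩ = MvPolynomial.X i := by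
      rw [← h1, AlgEquiv.symm_apply_apply]
    show hy.1.aevalEquiv (hx.1.aevalEquiv.symm _) = _
    rw [h2]
    apply Subtype.ext
    simp
  let τ : Ω ≃+* Ω := IsAlgClosure.equivOfEquiv Ω Ω e.toRingEquiv
  have hτ : ∀ a : Algebra.adjoin L (Set.range x), τ (a : Ω) = (e a : Ω) := fun a =>
    IsAlgClosure.equivOfEquiv_algebraMap Ω Ω e.toRingEquiv a
  refine ⟨AlgEquiv.ofRingEquiv (f := τ) fun c => ?_, fun i => ?_⟩
  · have h1 := hτ (algebraMap L _ c)
    rw [AlgEquiv.commutes] at h1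
    exact h1
  · have h1 := hτ ⟨x i, Algebra.subset_adjoin ⟨i, rfl⟩⟩
    rw [he] at h1
    exact h1

end Pool.Agent.H72.SB

end

section

/-!
# Project XD: leading positions of a space of functions

`Lead W` is the set of the highest positions of the support of the functions in `W`.
-/

set_option autoImplicit false

namespace Pool.Agent.XD

open Finset

section

variable {E : Type} [Fintype E] [LinearOrder E]

open Classical in
/-- The highest positions of the functions in `W`. -/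
noncomputable def Lead (W : Submodule ℂ (E → ℂ)) : Finset E :=
  univ.filter fun v => ∃ f ∈ W, f v ≠ 0 ∧ ∀ u, v < u → f u = 0

theorem mem_Lead {W : Submodule ℂ (E → ℂ)} {v : E} :
    v ∈ Lead W ↔ ∃ f ∈ W, f v ≠ 0 ∧ ∀ u, v < u → f u = 0 := by
  classical
  unfold Lead
  simp only [mem_filter, mem_univ, true_and]

/-- The number of leading positions is the dimension. -/
theorem card_Lead (W : Submodule ℂ (E → ℂ)) : (Lead W).card = Module.finrank ℂ W := by
  classical
  apply le_antisymm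
  · -- independent functions
    have h1 : ∀ v : Lead W, ∃ f : W, f.1 v.1 ≠ 0 ∧ ∀ u, v.1 < u → f.1 u = 0 := by
      intro v
      obtain ⟨f, hf, h⟩ := mem_Lead.1 v.2
      exact ⟨⟨f, hf⟩, h⟩
    choose F hF0 hF using h1
    have hli : LinearIndependent ℂ F := by
      rw [Fintype.linearIndependent_iff]
      intro c hc
      by_contra hcon
      push Not at hcon
      obtain ⟨v₀, hv₀⟩ := hcon
      -- the highest nonzero coefficient
      obtain ⟨v, hv, hmax⟩ := exists_max_image (univ.filter fun v : Lead W => c v ≠ 0)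
        (fun v => v.1) ⟨v₀, mem_filter.2 ⟨mem_univ _, hv₀⟩⟩
      rw [mem_filter] at hv
      have h2 := congrFun (congrArg Subtype.val hc) v.1
      rw [Submodule.coe_sum, Finset.sum_apply, sum_eq_single v] at h2
      · have h3 : c v * (F v).1 v.1 = 0 := h2
        rcases mul_eq_zero.1 h3 with h4 | h4
        · exact hv.2 h4
        · exact hF0 v h4
      · intro w _ hwv
        show c w * (F w).1 v.1 = 0
        by_cases hw : c w = 0
        · rw [hw, zero_mul]
        · have h4 := hmax w (mem_filter.2 ⟨mem_univ _, hw⟩)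
          have h5 : w.1 < v.1 := lt_of_le_of_ne h4 fun h => hwv (Subtype.ext h)
          rw [hF w v.1 h5, mul_zero]
      · intro h
        exact absurd (mem_univ _) h
    have h2 := hli.fintype_card_le_finrank
    rwa [Fintype.card_coe] at h2
  · -- restriction to the leading positions is injective
    let R : W →ₗ[ℂ] (Lead W → ℂ) :=
      { toFun := fun f v => f.1 v.1
        map_add' := fun f g => rfl
        map_smul' := fun c f => rfl }
    have hinj : Function.Injective R := by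
      rw [← LinearMap.ker_eq_bot, LinearMap.ker_eq_bot']
      intro f hf
      by_contra hne
      have h1 : ∃ v, f.1 v ≠ 0 := by
        by_contra hcon
        push Not at hcon
        exact hne (Subtype.ext (funext hcon))
      obtain ⟨v₀, hv₀⟩ := h1
      obtain ⟨v, hv, hmax⟩ := exists_max_image (univ.filter fun v : E => f.1 v ≠ 0)
        (fun v => v) ⟨v₀, mem_filter.2 ⟨mem_univ _, hv₀⟩⟩
      rw [mem_filter] at hv
      have h2 : v ∈ Lead W := by
        rw [mem_Lead]
        refine ⟨f.1, f.2, hv.2, fun u hu => ?_⟩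
        by_contra h3
        exact absurd (hmax u (mem_filter.2 ⟨mem_univ _, h3⟩)) (not_le.2 hu)
      exact hv.2 (congrFun hf ⟨v, h2⟩)
    have h2 := LinearMap.finrank_le_finrank_of_injective hinj
    rwa [Module.finrank_fintype_fun_eq_card, Fintype.card_coe] at h2

/-- The functions in `W` vanishing outside `L`. -/
def Rst (W : Submodule ℂ (E → ℂ)) (L : Finset E) : Submodule ℂ (E → ℂ) where
  carrier := {f | f ∈ W ∧ ∀ u, u ∉ L → f u = 0}
  zero_mem' := ⟨W.zero_mem, fun u _ => rfl⟩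
  add_mem' := fun {f g} hf hg => ⟨W.add_mem hf.1 hg.1, fun u hu => by
    rw [Pi.add_apply, hf.2 u hu, hg.2 u hu, add_zero]⟩
  smul_mem' := fun c f hf => ⟨W.smul_mem c hf.1, fun u hu => by
    rw [Pi.smul_apply, hf.2 u hu, smul_zero]⟩

/-- The leading positions in an initial segment. -/
theorem card_Lead_inter (W : Submodule ℂ (E → ℂ)) (L : Finset E)
    (hL : ∀ v ∈ L, ∀ u, u ≤ v → u ∈ L) :
    ((Lead W).filter fun v => v ∈ L).card = Module.finrank ℂ (Rst W L) := by
  rw [← card_Lead]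
  congr 1
  ext v
  rw [mem_filter, mem_Lead, mem_Lead]
  constructor
  · rintro ⟨⟨f, hf, h1, h2⟩, hv⟩
    refine ⟨f, ⟨hf, fun u hu => h2 u ?_⟩, h1, h2⟩
    by_contra h3
    exact hu (hL v hv u (not_lt.1 h3))
  · rintro ⟨f, ⟨hf, h0⟩, h1, h2⟩
    refine ⟨⟨f, hf, h1, h2⟩, ?_⟩
    by_contra h3
    exact h1 (h0 v h3)

end

end Pool.Agent.XD

end
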