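import Pool.Agent.H94.LP7.M01

/-! The parts of this file: GD.ST.Fn, H54.V7.DH_1, H54.V7.DH_2, H54.V7.Eul, GD.ST.Fn_1. -/

section

/-!
# General d: forms as functionals on the polynomial ring

`Fn φ` is the functional on `MvPolynomial ν R` with the value `a! φ(a)` on the monomial `X^a`.
All Taylor coefficients are values of it: `Fn φ (lf p ^ m * X^b) = m! b! ∑ φ(g) tcr p g b`.
-/

set_option autoImplicit false
set_option linter.unusedSectionVars false

namespace Pool.Agent.GD

open Finset MvPolynomial

section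

variable {ν : Type} [Fintype ν] [DecidableEq ν] {R : Type} [CommRing R]

/-- The product of the factorials. -/
def fac (a : ν → ℕ) : ℕ := ∏ s, (a s).factorial

theorem fac_pos (a : ν → ℕ) : 0 < fac a := prod_pos fun s _ => Nat.factorial_pos (a s)

theorem fac_single (a : ν → ℕ) (l : ν) : fac (a + Pi.single l 1) = (a l + 1) * fac a := by
  unfold fac
  refine (mul_prod_erase univ (fun s => ((a + Pi.single l 1 : ν → ℕ) s).factorial)
    (mem_univ l)).symm.trans ?_
  refine Eq.trans ?_ (congrArg (fun x => (a l + 1) * x)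
    (mul_prod_erase univ (fun s => (a s).factorial) (mem_univ l)))
  have h1 : (a + Pi.single l 1 : ν → ℕ) l = a l + 1 := by simp
  have h2 : ∏ i ∈ univ.erase l, ((a + Pi.single l 1 : ν → ℕ) i).factorial =
      ∏ i ∈ univ.erase l, (a i).factorial := by
    refine prod_congr rfl fun i hi => ?_
    rw [Pi.add_apply, Pi.single_eq_of_ne (ne_of_mem_erase hi), Nat.add_zero]
  show ((a + Pi.single l 1 : ν → ℕ) l).factorial * _ = (a l + 1) * ((a l).factorial * _)
  rw [h1, h2, Nat.factorial_succ, mul_assoc]

/-- The functional with the values `a! φ(a)` on the monomials. -/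
noncomputable def Fn (φ : (ν → ℕ) → R) : MvPolynomial ν R →ₗ[R] R :=
  (basisMonomials ν R).constr R fun a : ν →₀ ℕ => (fac (a : ν → ℕ) : R) * φ a

/-- The monomial with the exponent `b`. -/
noncomputable def mon (R : Type) [CommRing R] (b : ν → ℕ) : MvPolynomial ν R := ∏ s, X s ^ b s

/-- The linear form with the coefficients `p`. -/
noncomputable def lf (p : ν → R) : MvPolynomial ν R := ∑ s, C (p s) * X s

theorem mon_eq (b : ν → ℕ) :
    mon R b = monomial (Finsupp.equivFunOnFinite.symm b) (1 : R) := by
  unfold mon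
  rw [monomial_eq, C_1, one_mul, Finsupp.prod_fintype _ _ fun i => pow_zero _]
  rfl

theorem mon_add (a b : ν → ℕ) : mon R (a + b) = mon R a * mon R b := by
  unfold mon
  rw [← prod_mul_distrib]
  exact prod_congr rfl fun s _ => pow_add _ _ _

theorem mon_single (l : ν) : mon R (Pi.single l 1 : ν → ℕ) = X l := by
  unfold mon
  rw [prod_eq_single l]
  · simp
  · intro i _ hi
    rw [Pi.single_eq_of_ne hi, pow_zero]
  · intro h
    exact absurd (mem_univ l) h

theorem Fn_mon (φ : (ν → ℕ) → R) (b : ν → ℕ) : Fn φ (mon R b) = (fac b : R) * φ b := by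
  unfold Fn
  rw [mon_eq]
  have h := (basisMonomials ν R).constr_basis R
    (fun a : ν →₀ ℕ => (fac (a : ν → ℕ) : R) * φ a) (Finsupp.equivFunOnFinite.symm b)
  rw [coe_basisMonomials] at h
  rw [h]
  rfl

theorem C_mul_eq_smul (c : R) (P : MvPolynomial ν R) : C c * P = c • P := by
  rw [smul_eq_C_mul]

/-- Monomials span. -/
theorem mon_span (L : MvPolynomial ν R →ₗ[R] R) (h : ∀ b, L (mon R b) = 0) : L = 0 := by
  refine (basisMonomials ν R).ext fun a => ?_
  rw [coe_basisMonomials, LinearMap.zero_apply]
  have h1 := h (a : ν → ℕ)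
  rw [mon_eq, Finsupp.equivFunOnFinite_symm_coe] at h1
  exact h1

theorem mon_ext {L L' : MvPolynomial ν R →ₗ[R] R} (h : ∀ b, L (mon R b) = L' (mon R b)) :
    L = L' := by
  rw [← sub_eq_zero]
  refine mon_span _ fun b => ?_
  rw [LinearMap.sub_apply, h b, sub_self]

theorem sum_add_single (b : ν → ℕ) (l : ν) : ∑ s, (b + Pi.single l 1 : ν → ℕ) s = ∑ s, b s + 1 := by
  simp [sum_add_distrib]

end

end Pool.Agent.GD

end

section

/-!
# Taylor coefficients at a moving point; the differential lemma for a subspace of any codimension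

`tcr q a b` is the `b`-th Taylor (Hasse) coefficient of the monomial `x^a` at the point `q`.
-/

namespace Pool.Agent.H54.V7

open Finset Pool.Agent.H18.Ex

/-! ### Composition of Taylor expansions -/

section

set_option linter.unusedSectionVars false

variable {ι : Type} [Fintype ι] [DecidableEq ι]

theorem tcr_self {R : Type*} [CommRing R] (r : ι → R) (e b : ι → ℕ) (h : ∀ i, b i ≤ e i)
    (h2 : ∑ i, e i ≤ ∑ i, b i) : tcr r e b = if e = b then 1 else 0 := by
  have h3 : e = b := by
    have h4 : ∑ i, b i ≤ ∑ i, e i := sum_le_sum fun i _ => h i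
    have h5 : ∀ i ∈ (univ : Finset ι), b i = e i :=
      (sum_eq_sum_iff_of_le fun i _ => h i).1 (le_antisymm h4 h2)
    exact funext fun i => (h5 i (mem_univ i)).symm
  rw [if_pos h3, h3]
  unfold tcr
  refine prod_eq_one fun i _ => ?_
  rw [Nat.choose_self, Nat.cast_one, Nat.sub_self, pow_zero, one_mul]

/-! ### A form depending on `t` which vanishes to order `M` at the moving point `p + t v` -/

open Polynomial

variable {K : Type*} [CommRing K] {E : Type*}

/-! ### A form which vanishes to order `M` in `t` on the subspace `x_i = 0` (`i ∈ B`) -/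

end

end Pool.Agent.H54.V7

end

section

/-!
# Taylor coefficients at a moving point; the differential lemma for a subspace of any codimension

`tcr q a b` is the `b`-th Taylor (Hasse) coefficient of the monomial `x^a` at the point `q`.
-/

namespace Pool.Agent.H54.V7

open Finset Pool.Agent.H18.Ex

/-! ### Composition of Taylor expansions -/

section

set_option linter.unusedSectionVars false

variable {ι : Type} [Fintype ι] [DecidableEq ι]

theorem tcr_eq_zero {R : Type*} [CommRing R] (r : ι → R) (e b : ι → ℕ) (h : ¬ ∀ i, b i ≤ e i) :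
    tcr r e b = 0 := by
  push Not at h
  obtain ⟨i, hi⟩ := h
  unfold tcr
  refine prod_eq_zero (mem_univ i) ?_
  rw [Nat.choose_eq_zero_of_lt hi, Nat.cast_zero, zero_mul]

/-! ### A form depending on `t` which vanishes to order `M` at the moving point `p + t v` -/

open Polynomial

variable {K : Type*} [CommRing K] {E : Type*}

/-! ### A form which vanishes to order `M` in `t` on the subspace `x_i = 0` (`i ∈ B`) -/

end

end Pool.Agent.H54.V7

end

section

/-!
# Euler relations for Taylor coefficients and for the swapped conditions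
-/

namespace Pool.Agent.H54.V7

open Finset Pool.Agent.H18.Ex

section

set_option linter.unusedSectionVars false

variable {ι : Type} [Fintype ι] [DecidableEq ι] {E : Type} [Fintype E] (ex : E → ι → ℕ)

theorem tcr_split {R : Type*} [CommRing R] (q : ι → R) (a b : ι → ℕ) (l : ι) :
    tcr q a b = (((a l).choose (b l) : ℕ) : R) * q l ^ (a l - b l) *
      ∏ i ∈ univ.erase l, (((a i).choose (b i) : ℕ) : R) * q i ^ (a i - b i) := by
  unfold tcr
  rw [mul_prod_erase univ (fun i => (((a i).choose (b i) : ℕ) : R) * q i ^ (a i - b i))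
    (mem_univ l)]

theorem eul_num {R : Type*} [CommRing R] (A B : ℕ) (x : R) :
    ((B + 1 : ℕ) : R) * x * (((A.choose (B + 1) : ℕ) : R) * x ^ (A - (B + 1))) =
      ((A : R) - (B : R)) * (((A.choose B : ℕ) : R) * x ^ (A - B)) := by
  rcases lt_trichotomy B A with h | h | h
  · have h1 : A - B = (A - (B + 1)) + 1 := by omega
    have h2 := Nat.choose_succ_right_eq A B
    have h3 : ((A.choose (B + 1) : ℕ) : R) * ((B + 1 : ℕ) : R) =
        ((A.choose B : ℕ) : R) * ((A : R) - (B : R)) := by
      rw [← Nat.cast_sub h.le, ← Nat.cast_mul, ← Nat.cast_mul, h2]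
    rw [h1, pow_succ]
    calc ((B + 1 : ℕ) : R) * x * (((A.choose (B + 1) : ℕ) : R) * x ^ (A - (B + 1))) =
        (((A.choose (B + 1) : ℕ) : R) * ((B + 1 : ℕ) : R)) * (x ^ (A - (B + 1)) * x) := by ring
      _ = _ := by
        rw [h3]
        ring
  · subst h
    rw [Nat.choose_succ_self, Nat.cast_zero, zero_mul, mul_zero, sub_self, zero_mul]
  · rw [Nat.choose_eq_zero_of_lt h, Nat.choose_eq_zero_of_lt (h.trans (Nat.lt_succ_self B)),
      Nat.cast_zero]
    ring

theorem eul_one {R : Type*} [CommRing R] (q : ι → R) (α β : ι → ℕ) (l : ι) :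
    ((β l + 1 : ℕ) : R) * q l * tcr q α (β + Pi.single l 1) =
      ((α l : R) - (β l : R)) * tcr q α β := by
  rw [tcr_split q α (β + Pi.single l 1) l, tcr_split q α β l]
  have h1 : (β + Pi.single l 1 : ι → ℕ) l = β l + 1 := by simp
  have h2 : ∏ i ∈ univ.erase l, (((α i).choose ((β + Pi.single l 1 : ι → ℕ) i) : ℕ) : R) *
      q i ^ (α i - (β + Pi.single l 1 : ι → ℕ) i) =
      ∏ i ∈ univ.erase l, (((α i).choose (β i) : ℕ) : R) * q i ^ (α i - β i) := by
    refine prod_congr rfl fun i hi => ?_
    rw [Pi.add_apply, Pi.single_eq_of_ne (ne_of_mem_erase hi), Nat.add_zero]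
  rw [h2, h1]
  have h3 := eul_num (α l) (β l) (q l)
  linear_combination (∏ i ∈ univ.erase l, (((α i).choose (β i) : ℕ) : R) * q i ^ (α i - β i)) * h3

end

end Pool.Agent.H54.V7

end

section

/-!
# General d: forms as functionals on the polynomial ring

`Fn φ` is the functional on `MvPolynomial ν R` with the value `a! φ(a)` on the monomial `X^a`.
All Taylor coefficients are values of it: `Fn φ (lf p ^ m * X^b) = m! b! ∑ φ(g) tcr p g b`.
-/

set_option autoImplicit false
set_option linter.unusedSectionVars false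

namespace Pool.Agent.GD

open Finset MvPolynomial Pool.Agent.H54.V7
open Pool.Agent.H18.Ex (tcr)
open Pool.Agent.H21.NX (Sx mem_Sx)

section

variable {ν : Type} [Fintype ν] [DecidableEq ν] {R : Type} [CommRing R]

/-- The values on the products of a power of a linear form and a monomial. -/
theorem Fn_lf (φ : (ν → ℕ) → R) (p : ν → R) (m : ℕ) (b : ν → ℕ) :
    Fn φ (lf p ^ m * mon R b) =
      ((m.factorial * fac b : ℕ) : R) * ∑ g ∈ Sx ν (m + ∑ s, b s), φ g * tcr p g b := by
  induction m generalizing b with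
  | zero =>
    rw [pow_zero, one_mul, Fn_mon, Nat.factorial_zero, one_mul, zero_add, sum_eq_single b]
    · rw [tcr_self p b b (fun _ => le_rfl) le_rfl, if_pos rfl, mul_one]
    · intro g hg hgb
      rw [mem_Sx] at hg
      by_cases h : ∀ i, b i ≤ g i
      · rw [tcr_self p g b h (by omega), if_neg hgb, mul_zero]
      · rw [tcr_eq_zero _ _ _ h, mul_zero]
    · intro h
      exact absurd (mem_Sx.2 rfl) h
  | succ m ih =>
    have h1 : lf p ^ (m + 1) * mon R b =
        ∑ l, C (p l) * (lf p ^ m * mon R (b + Pi.single l 1)) := by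
      rw [pow_succ]
      conv_lhs => rw [lf]
      rw [mul_sum, sum_mul]
      refine sum_congr rfl fun l _ => ?_
      rw [mon_add, mon_single]
      show lf p ^ m * (C (p l) * X l) * mon R b = _
      ring
    rw [h1, map_sum]
    have h2 : ∀ l, Fn φ (C (p l) * (lf p ^ m * mon R (b + Pi.single l 1))) =
        ((m.factorial * fac b : ℕ) : R) * ∑ g ∈ Sx ν (m + 1 + ∑ s, b s),
          φ g * ((((g l : ℕ) : R) - ((b l : ℕ) : R)) * tcr p g b) := by
      intro l
      rw [C_mul_eq_smul, map_smul, smul_eq_mul, ih, sum_add_single, fac_single]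
      have e : m + (∑ s, b s + 1) = m + 1 + ∑ s, b s := by ring
      rw [e]
      simp only [mul_sum]
      refine sum_congr rfl fun g _ => ?_
      rw [← eul_one p g b l]
      push_cast
      ring
    rw [sum_congr rfl fun l _ => h2 l, ← mul_sum, sum_comm]
    have h3 : ∀ g ∈ Sx ν (m + 1 + ∑ s, b s),
        ∑ l, φ g * ((((g l : ℕ) : R) - ((b l : ℕ) : R)) * tcr p g b) =
          ((m + 1 : ℕ) : R) * (φ g * tcr p g b) := by
      intro g hg
      rw [mem_Sx] at hg
      rw [← mul_sum, ← sum_mul, sum_sub_distrib, ← Nat.cast_sum, ← Nat.cast_sum, hg]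
      push_cast
      ring
    rw [sum_congr rfl h3, ← mul_sum, Nat.factorial_succ]
    push_cast
    ring

/-- Contraction. -/
noncomputable def ctn (u : ν → R) (m : ℕ) (φ : (ν → ℕ) → R) (g : ν → ℕ) : R :=
  (m.factorial : R) * ∑ a ∈ Sx ν (m + ∑ s, g s), φ a * tcr u a g

theorem Fn_ctn (u : ν → R) (m : ℕ) (φ : (ν → ℕ) → R) (P : MvPolynomial ν R) :
    Fn (ctn u m φ) P = Fn φ (lf u ^ m * P) := by
  have h : Fn (ctn u m φ) = (Fn φ).comp (LinearMap.mulLeft R (lf u ^ m)) := by
    refine mon_ext fun b => ?_
    rw [Fn_mon, LinearMap.comp_apply, LinearMap.mulLeft_apply, Fn_lf]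
    unfold ctn
    push_cast
    ring
  rw [h]
  rfl

/-- The values on the products of powers of two linear forms and a monomial. -/
theorem Fn_lf2 (φ : (ν → ℕ) → R) (u z : ν → R) (m κ : ℕ) (b : ν → ℕ) :
    Fn φ (lf u ^ m * (lf z ^ κ * mon R b)) =
      ((m.factorial * (κ.factorial * fac b) : ℕ) : R) * ∑ g ∈ Sx ν (κ + ∑ s, b s),
        (∑ a ∈ Sx ν (m + ∑ s, g s), φ a * tcr u a g) * tcr z g b := by
  rw [← Fn_ctn, Fn_lf]
  simp only [ctn, mul_sum]
  refine sum_congr rfl fun g _ => ?_
  rw [sum_mul, sum_mul, mul_sum, mul_sum]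
  refine sum_congr rfl fun a _ => ?_
  push_cast
  ring

end

end Pool.Agent.GD

end
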