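import Pool.Agent.H94.LP7.M02
import Pool.Agent.H94.LP7.M03
import Pool.Agent.H94.LP7.M09
import Pool.Agent.H94.LP7.M10

/-! The parts of this file: H51.TB.Gs, GD.ST.Sat, GD.ST.Sat_1, V7.ST.Ms_1. -/

section

/-!
# Module A3 (TB): the general dimension, adding points

As in `Pool/Agent/H21/NX/GenB.lean` (`le_gdim_elim`, `gdim_submod`, `gdim_simple`).
-/

namespace Pool.Agent.H51.TB

open Finset MvPolynomial

variable {E ν T : Type} [Fintype E] (S : Sys E ν T) {κ : Type}

private theorem GsX.comp_elim {α β γ : Type} (p : β → γ) (f : α → β) (b : β) :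
    (fun i => p (Sum.elim f (fun _ : Unit => b) i)) =
      Sum.elim (fun i => p (f i)) fun _ : Unit => p b := by
  funext i
  rcases i with i | i <;> rfl

private theorem GsX.elim_inj {α β : Type} (f : α → β) (b : β) (hf : Function.Injective f)
    (hb : ∀ a, f a ≠ b) : Function.Injective (Sum.elim f fun _ : Unit => b) := by
  rintro (x | x) (y | y) h
  · exact congrArg Sum.inl (hf h)
  · exact absurd h (hb x)
  · exact absurd h.symm (hb y)
  · rfl

/-- One more point imposes at most `size t` conditions: at general positions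
`finrank (V m ⊓ V t) ≥ finrank V m + finrank V t - card E`. -/
theorem gd_le_ad [Fintype κ] (m : κ → T) (t : T) : S.gd m ≤ S.gd (ad m t) + S.size t := by
  obtain ⟨P, hP1, hP2⟩ := ((gn_gd S (ad m t)).and ((gn_gd S fun _ : Unit => t).comap
    (fun _ : Unit => (Sum.inr () : κ ⊕ Unit)) (fun _ _ _ => rfl))).exists
  have e : P = Sum.elim (fun i => P (Sum.inl i)) fun _ : Unit => P (Sum.inr ()) := by
    funext x
    rcases x with i | i <;> rfl
  have h1 := finrank_V_sup S m (fun _ : Unit => t) (fun i => P (Sum.inl i))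
    (fun _ : Unit => P (Sum.inr ()))
  rw [← e] at h1
  change _ + Module.finrank ℂ (S.V (ad m t) P) = _ at h1
  rw [hP1, hP2] at h1
  have h2 := Submodule.finrank_le (S.V m (fun i => P (Sum.inl i)) ⊔
    S.V (fun _ : Unit => t) fun _ : Unit => P (Sum.inr ()))
  rw [Module.finrank_fintype_fun_eq_card] at h2
  have h3 := gd_le S m fun i => P (Sum.inl i)
  have h4 := gd_unit S t
  omega

theorem gd_ad_le [Fintype κ] (m : κ → T) (t : T) : S.gd (ad m t) ≤ S.gd m := by
  exact gd_elim_le S m fun _ : Unit => t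

/-- Submodularity: at general positions `V(m, t)` and `V(m, u)` are subspaces of `V(m)` with
intersection `V(m, t, u)`. -/
theorem gd_submod [Fintype κ] (m : κ → T) (t u : T) :
    S.gd (ad m t) + S.gd (ad m u) ≤ S.gd m + S.gd (ad (ad m t) u) := by
  have hinj : Function.Injective (fun i : κ => (Sum.inl (Sum.inl i) : (κ ⊕ Unit) ⊕ Unit)) :=
    fun a b h => Sum.inl_injective (Sum.inl_injective h)
  obtain ⟨P, hP1, hP2⟩ := ((gn_gd S (ad (ad m t) u)).and
    ((gn_gd S m).comap (fun i : κ => (Sum.inl (Sum.inl i) : (κ ⊕ Unit) ⊕ Unit)) hinj)).exists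
  let P₁ : κ ⊕ Unit → ν → ℂ := fun i => P (Sum.inl i)
  let P₂ : κ ⊕ Unit → ν → ℂ :=
    Sum.elim (fun i => P (Sum.inl (Sum.inl i))) fun j => P (Sum.inr j)
  let P₀ : κ → ν → ℂ := fun i => P (Sum.inl (Sum.inl i))
  have h1 := Submodule.finrank_sup_add_finrank_inf_eq (S.V (ad m t) P₁) (S.V (ad m u) P₂)
  have h2 : S.V (ad m t) P₁ ⊔ S.V (ad m u) P₂ ≤ S.V m P₀ := by
    refine sup_le (fun w hw => ?_) (fun w hw => ?_)
    · rw [S.mem_V] at hw ⊢
      exact fun i => hw (Sum.inl i)
    · rw [S.mem_V] at hw ⊢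
      exact fun i => hw (Sum.inl i)
  have h3 : S.V (ad m t) P₁ ⊓ S.V (ad m u) P₂ = S.V (ad (ad m t) u) P := by
    ext w
    rw [Submodule.mem_inf, S.mem_V, S.mem_V, S.mem_V]
    constructor
    · rintro ⟨hF1, hF2⟩ (i | j)
      · exact hF1 i
      · exact hF2 (Sum.inr j)
    · intro hF
      refine ⟨fun i => hF (Sum.inl i), ?_⟩
      rintro (i | j)
      · exact hF (Sum.inl (Sum.inl i))
      · exact hF (Sum.inr j)
  have h4 := Submodule.finrank_mono h2
  have h5 := gd_le S (ad m t) P₁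
  have h6 := gd_le S (ad m u) P₂
  rw [h3, hP1] at h1
  have hP2' : Module.finrank ℂ (S.V m P₀) = S.gd m := hP2
  omega

/-- If a further point (of positive size) imposes no condition then the dimension is `0`: for
general positions `V m p ≤ V t q`; fix a general `q` (`Gn.fix`), then `V t q ≠ ⊤`, so there is a
functional `φ ≠ 0` with `V t q ≤ ker φ`; apply `hS`. -/
theorem gd_simple (hS : S.Span) [Fintype κ] (m : κ → T) (t : T) (ht : 1 ≤ S.size t)
    (h : S.gd (ad m t) = S.gd m) : S.gd m = 0 := by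
  have c1 : Gn (Unit ⊕ κ) ν fun p => Module.finrank ℂ (S.V (ad m t)
      (Sum.elim (fun a => p (Sum.inr a)) fun _ : Unit => p (Sum.inl ()))) = S.gd (ad m t) := by
    have h1 := (gn_gd S (ad m t)).comap
      (Sum.elim (Sum.inr : κ → Unit ⊕ κ) fun _ : Unit => Sum.inl ())
      (GsX.elim_inj _ _ Sum.inr_injective fun a ha => by cases ha)
    refine h1.mono fun p hp => ?_
    rwa [GsX.comp_elim] at hp
  have c2 : Gn (Unit ⊕ κ) ν fun p =>
      Module.finrank ℂ (S.V m (fun a => p (Sum.inr a))) = S.gd m :=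
    (gn_gd S m).comap (Sum.inr : κ → Unit ⊕ κ) Sum.inr_injective
  have c3 : Gn (Unit ⊕ κ) ν fun p =>
      Module.finrank ℂ (S.V (fun _ : Unit => t) (fun u : Unit => p (Sum.inl u))) =
        S.gd fun _ : Unit => t :=
    (gn_gd S fun _ : Unit => t).comap (Sum.inl : Unit → Unit ⊕ κ) Sum.inl_injective
  obtain ⟨p₀, hfix⟩ := ((c1.and c2).and c3).fix
  have hX : S.V (fun _ : Unit => t) p₀ < ⊤ := by
    rw [lt_top_iff_ne_top]
    intro htop
    obtain ⟨y, hy⟩ := hfix.exists
    have h1 := hy.2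
    change Module.finrank ℂ (S.V (fun _ : Unit => t) p₀) = _ at h1
    rw [htop, finrank_top, Module.finrank_fintype_fun_eq_card] at h1
    have h2 := gd_unit S t
    omega
  obtain ⟨φ, hφ0, hφ⟩ := Submodule.exists_le_ker_of_lt_top _ hX
  refine hS κ m φ hφ0 (hfix.mono fun y hy => ?_)
  obtain ⟨⟨h1, h2⟩, -⟩ := hy
  change Module.finrank ℂ (S.V (Sum.elim m fun _ : Unit => t) (Sum.elim y p₀)) = _ at h1
  change Module.finrank ℂ (S.V m y) = _ at h2
  rw [V_elim, h, ← h2] at h1
  exact (inf_eq_left.mp (Submodule.eq_of_le_of_finrank_eq inf_le_left h1)).trans hφ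

end Pool.Agent.H51.TB

end

section

/-!
# General d: the conditions of the objects for functionals

`Sat d β I k q Φ`: the functional `Φ` on the polynomial ring satisfies the conditions of the object `k` at
the position `q`.  `mem_LSA`: the solution space of a configuration.  Everything over any domain `R`
over `ℂ` (for `ℂ` and `ℂ[t]`).
-/

set_option autoImplicit false
set_option linter.unusedSectionVars false

namespace Pool.Agent.GD

open Finset MvPolynomial Pool.Agent.H54.V7
open Pool.Agent.H18.Ex (tcr tcr_map)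
open Pool.Agent.H21.NX (Sx mem_Sx)

section

variable {ν : Type} [Fintype ν] [DecidableEq ν] {R : Type} [CommRing R] {d : ℕ}

/-- Extension of the coefficients by `0`. -/
def ext0 (A : Finset (ν → ℕ)) (f : {a // a ∈ A} → R) (a : ν → ℕ) : R :=
  if h : a ∈ A then f ⟨a, h⟩ else 0

theorem ext0_mem {A : Finset (ν → ℕ)} (f : {a // a ∈ A} → R) (a : {a // a ∈ A}) :
    ext0 A f a.1 = f a := by
  unfold ext0
  rw [dif_pos a.2]

theorem ext0_not {A : Finset (ν → ℕ)} (f : {a // a ∈ A} → R) {a : ν → ℕ} (h : a ∉ A) :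
    ext0 A f a = 0 := by
  unfold ext0
  rw [dif_neg h]

/-! ### Naturality -/

section nat

variable {S : Type} [CommRing S]

end nat

/-! ### Sums over the exponents -/

theorem sum_ext0 {D : ℕ} {A : Finset (ν → ℕ)} (hA : ∀ a ∈ A, ∑ s, a s = D)
    (f : {a // a ∈ A} → R) (w : (ν → ℕ) → R) :
    ∑ g ∈ Sx ν D, ext0 A f g * w g = ∑ e : {a // a ∈ A}, f e * w e.1 := by
  have h1 : ∑ e : {a // a ∈ A}, f e * w e.1 = ∑ a ∈ A, ext0 A f a * w a := by
    rw [← sum_coe_sort A fun a => ext0 A f a * w a]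
    exact sum_congr rfl fun e _ => by rw [ext0_mem]
  rw [h1]
  symm
  refine sum_subset (fun a ha => mem_Sx.2 (hA a ha)) fun a _ ha => ?_
  rw [ext0_not f ha, zero_mul]

theorem sum_ext0_ne {D m : ℕ} {A : Finset (ν → ℕ)} (hA : ∀ a ∈ A, ∑ s, a s = D) (hm : m ≠ D)
    (f : {a // a ∈ A} → R) (w : (ν → ℕ) → R) :
    ∑ g ∈ Sx ν m, ext0 A f g * w g = 0 := by
  refine sum_eq_zero fun a ha => ?_
  rw [ext0_not f, zero_mul]
  intro h
  rw [mem_Sx] at ha
  exact hm (ha.symm.trans (hA a h))

variable [IsDomain R] [CharZero R]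

theorem cast_fac_ne (m : ℕ) (b : ν → ℕ) : ((m.factorial * fac b : ℕ) : R) ≠ 0 :=
  Nat.cast_ne_zero.2 (Nat.mul_ne_zero (Nat.factorial_ne_zero m) (fac_pos b).ne')

theorem sata_iff {D : ℕ} {A : Finset (ν → ℕ)} (hA : ∀ a ∈ A, ∑ s, a s = D) (p : ν → R)
    (F : {a // a ∈ A} → R) (e : ℕ) :
    (∀ b : ν → ℕ, ∑ s, b s + e ≤ D → ∑ a, F a * tcr p a.1 b = 0) ↔
      ∀ y, Fn (ext0 A F) (lf p ^ e * y) = 0 := by
  constructor
  · intro h
    have h1 : (Fn (ext0 A F)).comp (LinearMap.mulLeft R (lf p ^ e)) = 0 := by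
      refine mon_span _ fun b => ?_
      rw [LinearMap.comp_apply, LinearMap.mulLeft_apply, Fn_lf]
      by_cases hb : e + ∑ s, b s = D
      · rw [hb, sum_ext0 hA F fun g => tcr p g b, h b (by omega), mul_zero]
      · rw [sum_ext0_ne hA hb F fun g => tcr p g b, mul_zero]
    intro y
    exact LinearMap.congr_fun h1 y
  · intro h b hb
    have h1 := h (lf p ^ (D - ∑ s, b s - e) * mon R b)
    rw [← mul_assoc, ← pow_add] at h1
    have h2 : e + (D - ∑ s, b s - e) = D - ∑ s, b s := by omega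
    have h3 : D - ∑ s, b s + ∑ s, b s = D := by omega
    rw [h2, Fn_lf, h3, sum_ext0 hA F fun g => tcr p g b] at h1
    exact (mul_eq_zero.1 h1).resolve_left (cast_fac_ne _ b)

variable [Algebra ℂ R]

theorem aeval_tcr {σ : Type} (q : σ → R) (p : ν → MvPolynomial σ ℂ) (e b : ν → ℕ) :
    aeval q (tcr p e b) = tcr (fun s => aeval q (p s)) e b :=
  tcr_map (aeval q : MvPolynomial σ ℂ →ₐ[ℂ] R).toRingHom p e b

end

section

variable {ν : Type} [Fintype ν] [DecidableEq ν] {d : ℕ}

end

end Pool.Agent.GD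

end

section

/-!
# General d: the conditions of the objects for functionals

`Sat d β I k q Φ`: the functional `Φ` on the polynomial ring satisfies the conditions of the object `k` at
the position `q`.  `mem_LSA`: the solution space of a configuration.  Everything over any domain `R`
over `ℂ` (for `ℂ` and `ℂ[t]`).
-/

set_option autoImplicit false
set_option linter.unusedSectionVars false

namespace Pool.Agent.GD

open Finset MvPolynomial Pool.Agent.H51.TB Pool.Agent.H54.V7
open Pool.Agent.H18.Ex (tcr tcr_map)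
open Pool.Agent.H21.NX (Sx mem_Sx)
open Pool.Agent.V7 (msk)

section

variable {ν : Type} [Fintype ν] [DecidableEq ν] {R : Type} [CommRing R] {d : ℕ}

/-- The additional conditions of a cluster. -/
def Sb (β : ν → ℕ) (I : Finset ℕ) : Kd → (ν × Fin (d + 1) → R) → (MvPolynomial ν R →ₗ[R] R) → Prop
  | .ord _ _, _, _ => True
  | .cl e dl i As, q, Φ => i ∈ I → ∀ κ : ℕ, 1 ≤ κ → κ ≤ dl → ∀ b : ν → ℕ, (∀ s, β s = i → b s = 0) →
      Φ (lf (uu β (.cl e dl i As) q) ^ (As.length * (e - 1)) * (lf (zz β i q) ^ κ * mon R b)) = 0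

/-- The conditions of an object. -/
def Sat (β : ν → ℕ) (I : Finset ℕ) (k : Kd) (q : ν × Fin (d + 1) → R)
    (Φ : MvPolynomial ν R →ₗ[R] R) : Prop :=
  (∀ x : Fin (d + 1), x.1 < k.nm → ∀ y, Φ (lf (pt β k x q) ^ k.ex * y) = 0) ∧ Sb β I k q Φ

/-! ### Naturality -/

section nat

variable {S : Type} [CommRing S]

theorem pt_map (g : R →+* S) (β : ν → ℕ) (k : Kd) (x : Fin (d + 1)) (q : ν × Fin (d + 1) → R)
    (s : ν) : g (pt β k x q s) = pt β k x (fun z => g (q z)) s := by
  rcases k with ⟨e, A⟩ | ⟨e, dl, i, As⟩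
  · simp only [pt, msk]
    split_ifs
    · exact map_zero g
    · rfl
  · simp only [pt, msk]
    split_ifs
    · exact map_zero g
    · rw [map_neg, map_sum]
      congr 1
      refine sum_congr rfl fun y _ => ?_
      split_ifs
      · rfl
      · exact map_zero g
    · rfl

theorem uu_map (g : R →+* S) (β : ν → ℕ) (k : Kd) (q : ν × Fin (d + 1) → R)
    (s : ν) : g (uu β k q s) = uu β k (fun z => g (q z)) s := by
  unfold uu
  rw [map_sum]
  refine sum_congr rfl fun y _ => ?_
  split_ifs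
  · exact pt_map g β k y q s
  · exact map_zero g

theorem zz_map (g : R →+* S) (β : ν → ℕ) (i : ℕ) (q : ν × Fin (d + 1) → R)
    (s : ν) : g (zz β i q s) = zz β i (fun z => g (q z)) s := by
  unfold zz
  split_ifs
  · rfl
  · exact map_zero g

end nat

/-! ### Sums over the exponents -/

variable [IsDomain R] [CharZero R]

variable [Algebra ℂ R]

theorem aeval_pt (β : ν → ℕ) (k : Kd) (x : Fin (d + 1)) (q : ν × Fin (d + 1) → R) (s : ν) :
    aeval q (pt β k x (fun s => (X s : MvPolynomial (ν × Fin (d + 1)) ℂ)) s) = pt β k x q s := by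
  refine (pt_map (aeval q : MvPolynomial (ν × Fin (d + 1)) ℂ →ₐ[ℂ] R).toRingHom β k x _ s).trans ?_
  congr 1
  funext z
  exact aeval_X q z

theorem aeval_uu (β : ν → ℕ) (k : Kd) (q : ν × Fin (d + 1) → R) (s : ν) :
    aeval q (uu β k (fun s => (X s : MvPolynomial (ν × Fin (d + 1)) ℂ)) s) = uu β k q s := by
  refine (uu_map (aeval q : MvPolynomial (ν × Fin (d + 1)) ℂ →ₐ[ℂ] R).toRingHom β k _ s).trans ?_
  congr 1
  funext z
  exact aeval_X q z

theorem aeval_zz (β : ν → ℕ) (i : ℕ) (q : ν × Fin (d + 1) → R) (s : ν) :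
    aeval q (zz β i (fun s => (X s : MvPolynomial (ν × Fin (d + 1)) ℂ)) s) = zz β i q s := by
  refine (zz_map (aeval q : MvPolynomial (ν × Fin (d + 1)) ℂ →ₐ[ℂ] R).toRingHom β i _ s).trans ?_
  congr 1
  funext z
  exact aeval_X q z

theorem satb_iff {D : ℕ} (hD : D ≤ d) (β : ν → ℕ) (I : Finset ℕ) {A : Finset (ν → ℕ)}
    (hA : ∀ a ∈ A, ∑ s, a s = D) (k : Kd) (q : ν × Fin (d + 1) → R) (F : {a // a ∈ A} → R) :
    (∀ r : Rb d D β I k, ∑ a, F a * aeval q (cob d D β I k r a.1) = 0) ↔
      Sb β I k q (Fn (ext0 A F)) := by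
  rcases k with ⟨e, A'⟩ | ⟨e, dl, i, As⟩
  · exact ⟨fun _ => trivial, fun _ r => r.elim⟩
  set u : ν → R := uu β (.cl e dl i As) q with hu
  set z : ν → R := zz β i q with hz
  have key : ∀ (κ : ℕ) (b : ν → ℕ), As.length * (e - 1) + κ + ∑ s, b s = D →
      Fn (ext0 A F) (lf u ^ (As.length * (e - 1)) * (lf z ^ κ * mon R b)) =
        (((As.length * (e - 1)).factorial * (κ.factorial * fac b) : ℕ) : R) *
          ∑ a, F a * ∑ g ∈ Sx ν (κ + ∑ s, b s), tcr z g b * tcr u a.1 g := by
    intro κ b h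
    rw [Fn_lf2]
    congr 1
    have h1 : ∀ g ∈ Sx ν (κ + ∑ s, b s),
        (∑ a ∈ Sx ν (As.length * (e - 1) + ∑ s, g s), ext0 A F a * tcr u a g) * tcr z g b =
          ∑ a : {a // a ∈ A}, F a * (tcr z g b * tcr u a.1 g) := by
      intro g hg
      rw [mem_Sx] at hg
      have h2 : As.length * (e - 1) + ∑ s, g s = D := by omega
      rw [h2, sum_ext0 hA F fun a => tcr u a g, sum_mul]
      refine sum_congr rfl fun a _ => ?_
      ring
    rw [sum_congr rfl h1, sum_comm]
    exact sum_congr rfl fun a _ => (mul_sum _ _ _).symm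
  have ne0 : ∀ (κ : ℕ) (b : ν → ℕ), As.length * (e - 1) + κ + ∑ s, b s ≠ D →
      Fn (ext0 A F) (lf u ^ (As.length * (e - 1)) * (lf z ^ κ * mon R b)) = 0 := by
    intro κ b h
    rw [Fn_lf2]
    have h1 : ∀ g ∈ Sx ν (κ + ∑ s, b s),
        (∑ a ∈ Sx ν (As.length * (e - 1) + ∑ s, g s), ext0 A F a * tcr u a g) * tcr z g b = 0 := by
      intro g hg
      rw [mem_Sx] at hg
      rw [sum_ext0_ne hA (by omega) F fun a => tcr u a g, zero_mul]
    rw [sum_congr rfl h1, sum_const_zero, mul_zero]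
  have hev : ∀ (r : Rb d D β I (.cl e dl i As)) (a : ν → ℕ), aeval q (cob d D β I (.cl e dl i As) r a) =
      ∑ g ∈ Sx ν (r.1.1.1 + ∑ s, r.1.2 s), tcr z g r.1.2 * tcr u a g := by
    intro r a
    show aeval q (∑ g ∈ Sx ν (r.1.1.1 + ∑ s, r.1.2 s),
      tcr (zz β i fun s => (X s : MvPolynomial (ν × Fin (d + 1)) ℂ)) g r.1.2 *
        tcr (uu β (.cl e dl i As) fun s => (X s : MvPolynomial (ν × Fin (d + 1)) ℂ)) a g) = _
    rw [map_sum]
    refine sum_congr rfl fun g _ => ?_
    rw [map_mul, aeval_tcr, aeval_tcr]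
    congr 2
    · funext s
      exact aeval_zz β i q s
    · funext s
      exact aeval_uu β _ q s
  constructor
  · intro h hi κ h1 h2 b hb
    by_cases h3 : As.length * (e - 1) + κ + ∑ s, b s = D
    · let r : Rb d D β I (.cl e dl i As) := ⟨(⟨κ, by omega⟩, b), ⟨hi, h1, h2⟩, hb, h3⟩
      have h4 : ∑ a, F a * aeval q (cob d D β I (.cl e dl i As) r a.1) = 0 := h r
      rw [sum_congr rfl fun a _ => by rw [hev r a.1]] at h4
      rw [key κ b h3]
      exact mul_eq_zero_of_right _ h4
    · exact ne0 κ b h3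
  · intro h r
    obtain ⟨⟨hi, h1, h2⟩, hb, h3⟩ := r.2
    have h4 := h hi r.1.1.1 h1 h2 r.1.2 hb
    rw [key _ _ h3] at h4
    show ∑ a, F a * aeval q (cob d D β I (.cl e dl i As) r a.1) = 0
    rw [sum_congr rfl fun a _ => by rw [hev r a.1]]
    refine (mul_eq_zero.1 h4).resolve_left (Nat.cast_ne_zero.2 ?_)
    exact Nat.mul_ne_zero (Nat.factorial_ne_zero _)
      (Nat.mul_ne_zero (Nat.factorial_ne_zero _) (fac_pos _).ne')

/-- The conditions of an object over any domain. -/
theorem sat_iff {D : ℕ} (hD : D ≤ d) (β : ν → ℕ) (I : Finset ℕ) {A : Finset (ν → ℕ)}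
    (hA : ∀ a ∈ A, ∑ s, a s = D) (k : Kd) (q : ν × Fin (d + 1) → R) (F : {a // a ∈ A} → R) :
    (∀ r : (LSA d D β I A).R k, ∑ a, F a * aeval q ((LSA d D β I A).co k r a) = 0) ↔
      Sat β I k q (Fn (ext0 A F)) := by
  have hev : ∀ (r : Ra d D ν k) (a : ν → ℕ), aeval q (coa d D β k r a) =
      tcr (pt β k r.1.1 q) a r.1.2 := by
    intro r a
    unfold coa
    rw [aeval_tcr]
    congr 1
    funext s
    exact aeval_pt β k _ q s
  constructor
  · intro h
    refine ⟨fun x hx => ?_, (satb_iff hD β I hA k q F).1 fun r => h (Sum.inr r)⟩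
    refine (sata_iff hA (pt β k x q) F k.ex).1 fun b hb => ?_
    have h1 : ∑ a, F a * aeval q (coa d D β k ⟨(x, b), hx, hb⟩ a.1) = 0 :=
      h (Sum.inl ⟨(x, b), hx, hb⟩)
    simp only [hev] at h1
    exact h1
  · rintro ⟨h1, h2⟩ (r | r)
    · obtain ⟨⟨x, b⟩, hx, hb⟩ := r
      show ∑ a, F a * aeval q (coa d D β k ⟨(x, b), hx, hb⟩ a.1) = 0
      simp only [hev]
      exact (sata_iff hA (pt β k x q) F k.ex).2 (h1 x hx) b hb
    · exact (satb_iff hD β I hA k q F).2 h2 r

end

section

variable {ν : Type} [Fintype ν] [DecidableEq ν] {d : ℕ}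

/-- The solution space. -/
theorem mem_LSA {D : ℕ} (hD : D ≤ d) (β : ν → ℕ) (I : Finset ℕ) {A : Finset (ν → ℕ)}
    (hA : ∀ a ∈ A, ∑ s, a s = D) {κ : Type} (m : κ → Kd) (p : κ → ν × Fin (d + 1) → ℂ)
    (f : {a // a ∈ A} → ℂ) :
    f ∈ (LSA d D β I A).V m p ↔ ∀ i, Sat β I (m i) (p i) (Fn (ext0 A f)) := by
  rw [Sys.mem_V]
  refine forall_congr' fun i => ?_
  rw [← sat_iff hD β I hA (m i) (p i) f]
  refine forall_congr' fun r => ?_
  simp only [aeval_eq_eval, mul_comm]

theorem Ex_sum {β : ν → ℕ} {D : ℕ} {I : Finset ℕ} {a : ν → ℕ} (h : a ∈ Ex β D I) :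
    ∑ s, a s = D := (mem_Ex.1 h).1

theorem mem_LS {D : ℕ} (hD : D ≤ d) (β : ν → ℕ) (I : Finset ℕ) {κ : Type} (m : κ → Kd)
    (p : κ → ν × Fin (d + 1) → ℂ) (f : {a // a ∈ Ex β D I} → ℂ) :
    f ∈ (LS d D β I).V m p ↔ ∀ i, Sat β I (m i) (p i) (Fn (ext0 (Ex β D I) f)) :=
  mem_LSA hD β I (fun _ h => Ex_sum h) m p f

end

end Pool.Agent.GD

end

section

/-!
# V7, block STEP: configurations as multisets of types

The general dimension depends only on the numbers of points of the types.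
-/

set_option autoImplicit false

namespace Pool.Agent.V7.ST

open Finset MvPolynomial Pool.Agent.H51.TB

variable {E ν T : Type} [Fintype E] (S : Sys E ν T)

/-- The general dimension depends only on the numbers of points of the types. -/
theorem gd_congr {κ κ' : Type} [Fintype κ] [Fintype κ'] (m : κ → T) (n : κ' → T)
    (h : (univ : Finset κ).val.map m = (univ : Finset κ').val.map n) : S.gd m = S.gd n := by
  classical
  have hc : ∀ τ : T, Nonempty ({a : κ // m a = τ} ≃ {b : κ' // n b = τ}) := by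
    intro τ
    refine ⟨Fintype.equivOfCardEq ?_⟩
    have h1 := congrArg (Multiset.count τ) h
    rw [Multiset.count_map, Multiset.count_map] at h1
    have e1 : (Multiset.filter (fun a => τ = m a) (univ : Finset κ).val).card =
        Fintype.card {a : κ // m a = τ} := by
      rw [Fintype.card_subtype, ← Finset.filter_val, Finset.card_val]
      exact congrArg Finset.card (Finset.filter_congr fun a _ => eq_comm)
    have e2 : (Multiset.filter (fun a => τ = n a) (univ : Finset κ').val).card =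
        Fintype.card {a : κ' // n a = τ} := by
      rw [Fintype.card_subtype, ← Finset.filter_val, Finset.card_val]
      exact congrArg Finset.card (Finset.filter_congr fun a _ => eq_comm)
    rw [← e1, ← e2, h1]
  let e : ∀ τ : T, {a : κ // m a = τ} ≃ {b : κ' // n b = τ} := fun τ => (hc τ).some
  have h2 := gd_comp_equiv S (Equiv.ofFiberEquiv fun τ => e τ) n
  have h3 : (fun i => n ((Equiv.ofFiberEquiv fun τ => e τ) i)) = m := by
    funext i
    exact Equiv.ofFiberEquiv_map _ _
  rw [h3] at h2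
  exact h2

theorem gd_eq_gM {κ : Type} [Fintype κ] (m : κ → T) :
    S.gd m = gM S ((univ : Finset κ).val.map m) := by
  set s := (univ : Finset κ).val.map m with hs
  refine gd_congr S _ _ ?_
  rw [← hs]
  have h1 : (univ : Finset (Fin s.toList.length)).val.map (fun i => s.toList.get i) =
      ((List.ofFn fun i => s.toList.get i : List T) : Multiset T) := by
    rw [List.ofFn_eq_map, Fin.univ_val_map]
    rw [List.ofFn_eq_map]
  rw [h1, List.ofFn_get, Multiset.coe_toList]

/-- Every multiset is a configuration. -/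
theorem exists_conf (s : Multiset T) :
    ∃ m : Fin s.toList.length → T, (univ : Finset (Fin s.toList.length)).val.map m = s ∧
      S.gd m = gM S s := by
  refine ⟨fun i => s.toList.get i, ?_, rfl⟩
  have h1 : (univ : Finset (Fin s.toList.length)).val.map (fun i => s.toList.get i) =
      ((List.ofFn fun i => s.toList.get i : List T) : Multiset T) := by
    rw [List.ofFn_eq_map, Fin.univ_val_map]
    rw [List.ofFn_eq_map]
  rw [h1, List.ofFn_get, Multiset.coe_toList]

theorem map_elim {κ κ' : Type} [Fintype κ] [Fintype κ'] (m : κ → T) (n : κ' → T) :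
    (univ : Finset (κ ⊕ κ')).val.map (Sum.elim m n) =
      (univ : Finset κ).val.map m + (univ : Finset κ').val.map n := by
  rw [← Finset.univ_disjSum_univ, Finset.val_disjSum]
  unfold Multiset.disjSum
  rw [Multiset.map_add, Multiset.map_map, Multiset.map_map]
  rfl

theorem map_const {κ : Type} [Fintype κ] (t : T) :
    (univ : Finset κ).val.map (fun _ => t) = Multiset.replicate (Fintype.card κ) t := by
  rw [Multiset.map_const', Finset.card_val, Finset.card_univ]

theorem map_ad {κ : Type} [Fintype κ] (m : κ → T) (t : T) :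
    (univ : Finset (κ ⊕ Unit)).val.map (ad m t) = t ::ₘ (univ : Finset κ).val.map m := by
  unfold ad
  rw [map_elim, map_const, Fintype.card_unit, Multiset.replicate_one, Multiset.add_comm,
    Multiset.singleton_add]

theorem gM_zero : gM S 0 = Fintype.card E := by
  obtain ⟨m, hm, h⟩ := exists_conf S (0 : Multiset T)
  rw [← h]
  have : IsEmpty (Fin (0 : Multiset T).toList.length) := by
    rw [Multiset.toList_zero]
    exact Fin.isEmpty'
  exact gd_empty S m

theorem gM_cons_le (s : Multiset T) (t : T) : gM S (t ::ₘ s) ≤ gM S s := by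
  obtain ⟨m, hm, h⟩ := exists_conf S s
  have h1 := gd_ad_le S m t
  rwa [gd_eq_gM S (ad m t), map_ad, hm, h] at h1

theorem gM_le_cons (s : Multiset T) (t : T) : gM S s ≤ gM S (t ::ₘ s) + S.size t := by
  obtain ⟨m, hm, h⟩ := exists_conf S s
  have h1 := gd_le_ad S m t
  rwa [gd_eq_gM S (ad m t), map_ad, hm, h] at h1

theorem gM_submod (s : Multiset T) (t u : T) :
    gM S (t ::ₘ s) + gM S (u ::ₘ s) ≤ gM S s + gM S (u ::ₘ t ::ₘ s) := by
  obtain ⟨m, hm, h⟩ := exists_conf S s
  have h1 := gd_submod S m t u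
  rwa [gd_eq_gM S (ad m t), gd_eq_gM S (ad m u), gd_eq_gM S (ad (ad m t) u), map_ad, map_ad,
    map_ad, hm, h, map_ad, hm] at h1

end Pool.Agent.V7.ST

end
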