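import Pool.Agent.H94.LP7.M02
import Pool.Agent.H94.LP7.M03

/-! The parts of this file: GD.AL.Fl, GD.AL.Pull, GD.AL.St, GD.AL.Tie, GD.AL.VdP. -/

section

/-!
# General d, ALPHA: the spaces of the solutions as spaces of functionals

`Dl ν`: functionals on the polynomial ring, `ct g Φ = Φ (g * ·)` (contraction).
`XX β D I m p`: the functionals of degree `D` of the level `I` which satisfy the conditions of the
objects `m i` at the positions `p i`; `finrank_XX`: it is the solution space of `LS d D β I`.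
`XX_ct`: contraction by a point which vanishes on the blocks of `A` maps the level `I` into the level
`I ∩ A`.
-/

set_option autoImplicit false
set_option linter.unusedSectionVars false

namespace Pool.Agent.GD.AL

open Finset MvPolynomial Pool.Agent.H51.TB Pool.Agent.V7.ST
open Pool.Agent.H21.NX (Sx mem_Sx)
open Pool.Agent.V7 (msk)

section

variable {ν : Type} [Fintype ν] [DecidableEq ν]

/-- The functionals on the polynomial ring. -/
abbrev Dl (ν : Type) : Type := MvPolynomial ν ℂ →ₗ[ℂ] ℂ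

/-- Contraction. -/
noncomputable def ct (g : MvPolynomial ν ℂ) : Dl ν →ₗ[ℂ] Dl ν where
  toFun := fun Φ => Φ ∘ₗ LinearMap.mulLeft ℂ g
  map_add' := fun _ _ => rfl
  map_smul' := fun _ _ => rfl

theorem ct_apply (g : MvPolynomial ν ℂ) (Φ : Dl ν) (y : MvPolynomial ν ℂ) :
    ct g Φ y = Φ (g * y) := rfl

theorem ct_mul (g h : MvPolynomial ν ℂ) (Φ : Dl ν) : ct (g * h) Φ = ct g (ct h Φ) := by
  refine LinearMap.ext fun y => ?_
  rw [ct_apply, ct_apply, ct_apply]
  congr 1
  ring

theorem ct_comm (g h : MvPolynomial ν ℂ) (Φ : Dl ν) : ct g (ct h Φ) = ct h (ct g Φ) := by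
  rw [← ct_mul, ← ct_mul, mul_comm]

theorem ct_one (Φ : Dl ν) : ct 1 Φ = Φ := by
  refine LinearMap.ext fun y => ?_
  rw [ct_apply, one_mul]

theorem ct_add (g h : MvPolynomial ν ℂ) (Φ : Dl ν) : ct (g + h) Φ = ct g Φ + ct h Φ := by
  refine LinearMap.ext fun y => ?_
  rw [LinearMap.add_apply, ct_apply, ct_apply, ct_apply, add_mul, map_add]

theorem ct_smul (c : ℂ) (g : MvPolynomial ν ℂ) (Φ : Dl ν) : ct (c • g) Φ = c • ct g Φ := by
  refine LinearMap.ext fun y => ?_
  rw [LinearMap.smul_apply, ct_apply, ct_apply, smul_mul_assoc, map_smul]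

theorem ct_sum {α : Type} (s : Finset α) (g : α → MvPolynomial ν ℂ) (Φ : Dl ν) :
    ct (∑ a ∈ s, g a) Φ = ∑ a ∈ s, ct (g a) Φ := by
  refine LinearMap.ext fun y => ?_
  rw [LinearMap.sum_apply, ct_apply, sum_mul, map_sum]
  rfl

theorem lf_add (p q : ν → ℂ) : lf (p + q) = lf p + lf q := by
  unfold lf
  rw [← sum_add_distrib]
  refine sum_congr rfl fun s _ => ?_
  rw [Pi.add_apply, C_add, add_mul]

theorem lf_smul (c : ℂ) (p : ν → ℂ) : lf (c • p) = c • lf p := by
  unfold lf
  rw [smul_sum]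
  refine sum_congr rfl fun s _ => ?_
  rw [Pi.smul_apply, smul_eq_mul, C_mul, smul_eq_C_mul, mul_assoc]

/-- The functionals of degree `D` on the level `I`. -/
noncomputable def Lv (β : ν → ℕ) (D : ℕ) (I : Finset ℕ) : Submodule ℂ (Dl ν) where
  carrier := {Φ | ∀ b, b ∉ Ex β D I → Φ (mon ℂ b) = 0}
  zero_mem' := fun b _ => rfl
  add_mem' := fun {Φ Ψ} h h' b hb => by rw [LinearMap.add_apply, h b hb, h' b hb, add_zero]
  smul_mem' := fun c Φ h b hb => by rw [LinearMap.smul_apply, h b hb, smul_zero]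

end

section

variable {ν : Type} [Fintype ν] [DecidableEq ν] {d : ℕ}

/-! ### One more object -/

/-- The point of an ordinary object. -/
def opt (β : ν → ℕ) (A : Finset ℕ) (q : ν × Fin (d + 1) → ℂ) : ν → ℂ := msk β A fun s => q (s, 0)

theorem opt_zero {β : ν → ℕ} {A : Finset ℕ} {q : ν × Fin (d + 1) → ℂ} {s : ν} (h : β s ∈ A) :
    opt β A q s = 0 := if_pos h

/-! ### Contraction by a point -/

theorem lf_mul_mon (q : ν → ℂ) (b : ν → ℕ) :
    lf q * mon ℂ b = ∑ s, q s • mon ℂ (b + Pi.single s 1) := by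
  unfold lf
  rw [sum_mul]
  refine sum_congr rfl fun s _ => ?_
  rw [mon_add, mon_single, smul_eq_C_mul]
  ring

theorem Lv_ct {β : ν → ℕ} {D : ℕ} {I A : Finset ℕ} {q : ν → ℂ} (hq : ∀ s, β s ∈ A → q s = 0)
    {Φ : Dl ν} (h : Φ ∈ Lv β (D + 1) I) : ct (lf q) Φ ∈ Lv β D (I ∩ A) := by
  intro b hb
  rw [ct_apply, lf_mul_mon, map_sum]
  refine sum_eq_zero fun s _ => ?_
  rw [map_smul]
  by_cases hs : q s = 0
  · rw [hs, zero_smul]
  rw [h, smul_zero]
  intro h1
  apply hb
  rw [mem_Ex] at h1 ⊢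
  refine ⟨?_, fun i hi => ?_⟩
  · have h2 := h1.1
    rw [sum_add_single] at h2
    omega
  · rw [mem_inter] at hi
    obtain ⟨x, hx, hx'⟩ := h1.2 i hi.1
    refine ⟨x, hx, ?_⟩
    have hxs : x ≠ s := by
      rintro rfl
      exact hs (hq x (hx ▸ hi.2))
    rwa [Pi.add_apply, Pi.single_eq_of_ne hxs, add_zero] at hx'

/-- Degree `0`. -/
theorem Lv_zero_ct {β : ν → ℕ} {I : Finset ℕ} (q : ν → ℂ) {Φ : Dl ν} (h : Φ ∈ Lv β 0 I) :
    ct (lf q) Φ = 0 := by
  refine mon_ext fun b => ?_
  rw [ct_apply, lf_mul_mon, map_sum, LinearMap.zero_apply]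
  refine sum_eq_zero fun s _ => ?_
  rw [map_smul, h, smul_zero]
  intro h1
  have h2 := (mem_Ex.1 h1).1
  rw [sum_add_single] at h2
  omega

/-- More blocks: a smaller space (the conditions of the clusters are imposed on more levels). -/
theorem Lv_mono {β : ν → ℕ} {D : ℕ} {I I' : Finset ℕ} (h : I ⊆ I') : Lv β D I' ≤ Lv β D I := by
  intro Φ hΦ b hb
  refine hΦ b fun h1 => hb ?_
  rw [mem_Ex] at h1 ⊢
  exact ⟨h1.1, fun i hi => h1.2 i (h hi)⟩

end

end Pool.Agent.GD.AL

end

section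

/-!
# General d: linear maps

`π : ν → ν' → ℂ` is the linear map `e_s ↦ ∑ π s s' e_s'`; it is compatible with the blocks `< J` if it maps
`L_i` into `L_i'`.  Solutions on `ν'` at the image of a position pull back to solutions on `ν`
(`sat_pull`, `pullL_mem`).
-/

set_option autoImplicit false
set_option linter.unusedSectionVars false

namespace Pool.Agent.GD

open Finset MvPolynomial Pool.Agent.H51.TB
open Pool.Agent.V7 (msk)

section

variable {ν : Type} [Fintype ν] [DecidableEq ν]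

/-- The variables of the block `i` are replaced by `0`. -/
noncomputable def rho (β : ν → ℕ) (i : ℕ) : MvPolynomial ν ℂ →ₐ[ℂ] MvPolynomial ν ℂ :=
  aeval fun s => if β s = i then 0 else X s

theorem rho_lf {β : ν → ℕ} {i : ℕ} {p : ν → ℂ} (h : ∀ s, β s = i → p s = 0) :
    rho β i (lf p) = lf p := by
  unfold lf rho
  rw [map_sum]
  refine sum_congr rfl fun s _ => ?_
  rw [map_mul, aeval_X, algHom_C]
  show C (p s) * _ = _
  by_cases hs : β s = i
  · rw [h s hs, C_0, zero_mul, zero_mul]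
  · rw [if_neg hs]

theorem rho_mon {β : ν → ℕ} {i : ℕ} {b : ν → ℕ} (h : ∀ s, β s = i → b s = 0) :
    rho β i (mon ℂ b) = mon ℂ b := by
  unfold mon rho
  rw [map_prod]
  refine prod_congr rfl fun s _ => ?_
  rw [map_pow, aeval_X]
  by_cases hs : β s = i
  · rw [h s hs, pow_zero, pow_zero]
  · rw [if_neg hs]

theorem rho_mon0 {β : ν → ℕ} {i : ℕ} {b : ν → ℕ} (h : ¬ ∀ s, β s = i → b s = 0) :
    rho β i (mon ℂ b) = 0 := by
  push Not at h
  obtain ⟨s, hs, hb⟩ := h
  unfold mon rho
  rw [map_prod]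
  refine prod_eq_zero (mem_univ s) ?_
  rw [map_pow, aeval_X, if_pos hs, zero_pow hb]

/-- A functional which vanishes on all polynomials off the block `i`. -/
theorem Fn_rho {β : ν → ℕ} {i : ℕ} {φ : (ν → ℕ) → ℂ} (h : ∀ b, (∀ s, β s = i → b s = 0) → φ b = 0)
    (P : MvPolynomial ν ℂ) : Fn φ (rho β i P) = 0 := by
  have h1 : (Fn φ).comp (rho β i).toLinearMap = 0 := by
    refine mon_span _ fun b => ?_
    show Fn φ (rho β i (mon ℂ b)) = 0
    by_cases hb : ∀ s, β s = i → b s = 0
    · rw [rho_mon hb, Fn_mon, h b hb, mul_zero]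
    · rw [rho_mon0 hb, map_zero]
  exact LinearMap.congr_fun h1 P

end

section

variable {ν ν' : Type} [Fintype ν] [DecidableEq ν] [Fintype ν'] [DecidableEq ν']

/-- The action of a linear map on the polynomials. -/
noncomputable def Sp (π : ν → ν' → ℂ) : MvPolynomial ν ℂ →ₐ[ℂ] MvPolynomial ν' ℂ :=
  aeval fun s => lf (π s)

/-- The action of a linear map on the vectors. -/
def app (π : ν → ν' → ℂ) (p : ν → ℂ) (s' : ν') : ℂ := ∑ s, p s * π s s'

theorem app_sum {ι : Type} (π : ν → ν' → ℂ) (t : Finset ι) (p : ι → ν → ℂ) (s' : ν') :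
    app π (fun s => ∑ x ∈ t, p x s) s' = ∑ x ∈ t, app π (p x) s' := by
  unfold app
  rw [sum_comm]
  exact sum_congr rfl fun s _ => sum_mul _ _ _

/-- Compatible with the blocks `< J`. -/
def Cpt (β : ν → ℕ) (β' : ν' → ℕ) (J : ℕ) (π : ν → ν' → ℂ) : Prop :=
  ∀ i < J, ∀ s s', β s ≠ i → β' s' = i → π s s' = 0

variable {β : ν → ℕ} {β' : ν' → ℕ} {J : ℕ} {π : ν → ν' → ℂ}

theorem app_off (hπ : Cpt β β' J π) {i : ℕ} (hi : i < J) {p : ν → ℂ} (hp : ∀ s, β s = i → p s = 0)
    {s' : ν'} (hs : β' s' = i) : app π p s' = 0 := by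
  unfold app
  refine sum_eq_zero fun s _ => ?_
  by_cases h : β s = i
  · rw [hp s h, zero_mul]
  · rw [hπ i hi s s' h hs, mul_zero]

/-- Polynomials off the block `i`. -/
theorem rho_Sp (hπ : Cpt β β' J π) {i : ℕ} (hi : i < J) {b : ν → ℕ}
    (hb : ∀ s, β s = i → b s = 0) : rho β' i (Sp π (mon ℂ b)) = Sp π (mon ℂ b) := by
  unfold mon Sp
  rw [map_prod, map_prod]
  refine prod_congr rfl fun s _ => ?_
  rw [map_pow, aeval_X, map_pow]
  by_cases h : β s = i
  · rw [hb s h, pow_zero, pow_zero]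
  · rw [rho_lf fun s' hs' => hπ i hi s s' h hs']

variable {d : ℕ}

/-- The image of a position. -/
noncomputable def pullP (β : ν → ℕ) (π : ν → ν' → ℂ) (k : Kd) (q : ν × Fin (d + 1) → ℂ)
    (z : ν' × Fin (d + 1)) : ℂ :=
  match k with
  | .ord e A => app π (pt β (.ord e A) 0 q) z.1
  | .cl e dl i As =>
      if z.2 = Fin.last d then app π (zz β i q) z.1 else app π (pt β (.cl e dl i As) z.2 q) z.1

theorem ok_len {d J e dl i : ℕ} {As : List (Finset ℕ)} (hk : (Kd.cl e dl i As).Ok d J) :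
    As.length ≤ d - 1 ∧ 1 ≤ d := by
  obtain ⟨he, hl, htr, hi, hAs⟩ := hk
  have h1 : As.length * 1 ≤ As.length * (e - 1) := Nat.mul_le_mul_left _ (by omega)
  unfold trx at htr
  omega

theorem zz_pull {e dl i : ℕ} {As : List (Finset ℕ)} (q : ν × Fin (d + 1) → ℂ) (s' : ν') :
    zz β' i (pullP β π (.cl e dl i As) q) s' = if β' s' = i then app π (zz β i q) s' else 0 := by
  unfold zz
  by_cases h : β' s' = i
  · rw [if_pos h, if_pos h]
    show (if Fin.last d = Fin.last d then app π (zz β i q) s' else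
      app π (pt β (.cl e dl i As) (Fin.last d) q) s') = _
    rw [if_pos rfl]
    rfl
  · rw [if_neg h, if_neg h]

/-! ### Pull back of solutions -/

/-- Pull back of the coefficients. -/
noncomputable def pullF (π : ν → ν' → ℂ) (φ : (ν' → ℕ) → ℂ) (a : ν → ℕ) : ℂ :=
  Fn φ (Sp π (mon ℂ a)) / (fac a : ℂ)

theorem Fn_pullF (π : ν → ν' → ℂ) (φ : (ν' → ℕ) → ℂ) :
    Fn (pullF π φ) = (Fn φ).comp (Sp π).toLinearMap := by
  refine mon_ext fun b => ?_
  rw [Fn_mon]
  unfold pullF
  have h : (fac b : ℂ) ≠ 0 := Nat.cast_ne_zero.2 (fac_pos b).ne'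
  rw [mul_div_cancel₀ _ h]
  rfl

theorem Sp_homog (π : ν → ν' → ℂ) (a : ν → ℕ) : (Sp π (mon ℂ a)).IsHomogeneous (∑ s, a s) := by
  unfold mon Sp
  rw [map_prod]
  refine IsHomogeneous.prod _ _ _ fun s _ => ?_
  rw [map_pow, aeval_X]
  have h : (lf (π s)).IsHomogeneous 1 := by
    unfold lf
    refine IsHomogeneous.sum _ _ _ fun s' _ => ?_
    have h1 := (isHomogeneous_C ν' (π s s')).mul (isHomogeneous_X ℂ s')
    rwa [zero_add] at h1
  have h2 := h.pow (a s)
  rwa [one_mul] at h2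

end

end Pool.Agent.GD

end

section

/-!
# General d, ALPHA: states

A state: the sizes of the blocks `0, …, J - 1` (they may be zero), the number `w` of the other variables and
the configuration.  `H`, `V` = the general and the virtual dimension, `dl = H - V`, `Ex` = exactness.
`nz c0 n0 I D` = the natural size with the reference sizes `c0`, `n0`.
-/

set_option autoImplicit false

namespace Pool.Agent.GD.AL

open Finset

/-- The variables: blocks of the sizes `c 0, …, c (J - 1)` and `w` further ones. -/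
abbrev Vr (J : ℕ) (c : ℕ → ℕ) (w : ℕ) : Type := (Σ l : Fin J, Fin (c l)) ⊕ Fin w

/-- The block of a variable. -/
def bt (J : ℕ) (c : ℕ → ℕ) (w : ℕ) : Vr J c w → ℕ
  | .inl x => x.1
  | .inr _ => J

/-- A state. -/
structure St where
  c : ℕ → ℕ
  w : ℕ
  ms : Multiset Kd

/-- The number of the variables. -/
def St.n (J : ℕ) (σ : St) : ℕ := ∑ l ∈ range J, σ.c l + σ.w

/-- The general dimension. -/
noncomputable def St.H (d J : ℕ) (σ : St) (I : Finset ℕ) (D : ℕ) : ℕ := HI d D (bt J σ.c σ.w) I σ.ms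

/-- The virtual dimension. -/
noncomputable def St.V (J : ℕ) (σ : St) (I : Finset ℕ) (D : ℕ) : ℤ := vd D I σ.c (σ.n J) σ.ms

/-- The defect. -/
noncomputable def St.dl (d J : ℕ) (σ : St) (I : Finset ℕ) (D : ℕ) : ℤ := (σ.H d J I D : ℤ) - σ.V J I D

/-- Exactness. -/
def St.Ex (d J : ℕ) (σ : St) (I : Finset ℕ) (D : ℕ) : Prop := (σ.H d J I D : ℤ) = σ.V J I D

/-- One more object. -/
def St.ad (σ : St) (k : Kd) : St := ⟨σ.c, σ.w, k ::ₘ σ.ms⟩

/-- The block `a` smaller by `t`. -/
def St.lo (σ : St) (a t : ℕ) : St := ⟨Function.update σ.c a (σ.c a - t), σ.w, σ.ms⟩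

/-- `s` of the other variables less. -/
def St.lw (σ : St) (s : ℕ) : St := ⟨σ.c, σ.w - s, σ.ms⟩

/-- The ordinary objects with `|K| ≤ x`, `K` the complement of `A`. -/
def AdmO (d J : ℕ) (k : Kd) : Prop :=
  ∃ x A, k = .ord x A ∧ 1 ≤ x ∧ x ≤ d ∧ A ⊆ range J ∧ (range J \ A).card ≤ x

/-- The natural size. -/
noncomputable def nz (c0 : ℕ → ℕ) (n0 : ℕ) (I : Finset ℕ) (D : ℕ) : ℝ :=
  (∏ i ∈ I, (c0 i : ℝ)) * (n0 : ℝ) ^ (D - I.card)

/-- Positivity at the pairs `(I', D')`, `I' ⊆ I`, `D' + |I \ I'| ≤ D`. -/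
def Pos (J : ℕ) (c0 : ℕ → ℕ) (n0 : ℕ) (η : ℝ) (σ : St) (I : Finset ℕ) (D : ℕ) : Prop :=
  ∀ I' ⊆ I, ∀ D' : ℕ, I'.card ≤ D' → D' + (I \ I').card ≤ D →
    η * nz c0 n0 I' D' ≤ (σ.V J I' D' : ℝ)

/-- The same for `D' < D`. -/
def PosL (J : ℕ) (c0 : ℕ → ℕ) (n0 : ℕ) (η : ℝ) (σ : St) (I : Finset ℕ) (D : ℕ) : Prop :=
  ∀ I' ⊆ I, ∀ D' : ℕ, I'.card ≤ D' → D' < D → D' + (I \ I').card ≤ D →
    η * nz c0 n0 I' D' ≤ (σ.V J I' D' : ℝ)

/-- Exactness at the lower pairs. -/
def ExL (d J : ℕ) (σ : St) (I : Finset ℕ) (D : ℕ) : Prop :=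
  ∀ I' ⊆ I, ∀ D' : ℕ, D' < D → D' + (I \ I').card ≤ D → σ.Ex d J I' D'

/-- The sizes of a state with ordinary objects. -/
structure InO (d J : ℕ) (c0 : ℕ → ℕ) (n0 : ℕ) (ϖ : ℝ) (I : Finset ℕ) (σ : St) : Prop where
  c : ∀ l, σ.c l ≤ c0 l
  c' : ∀ l ∈ I, ϖ * c0 l ≤ (σ.c l : ℝ)
  n : σ.n J ≤ n0
  w : ϖ * n0 ≤ (σ.w : ℝ)
  adm : ∀ k ∈ σ.ms, AdmO d J k

/-- The reference sizes are large. -/
structure Big (d J : ℕ) (c0 : ℕ → ℕ) (n0 : ℕ) (I : Finset ℕ) (K : ℝ) : Prop where
  c : ∀ l ∈ I, K ≤ (c0 l : ℝ)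
  n : K * (1 + ∑ l ∈ range J, (c0 l : ℝ)) ^ (d + 1) ≤ (n0 : ℝ)

/-- The defects at smaller degrees vanish for the states of a class with positive virtual dimensions. -/
def Orc (d J : ℕ) (c0 : ℕ → ℕ) (n0 : ℕ) (G : Multiset Kd → Prop) (I : Finset ℕ) (D : ℕ) (η ϖ : ℝ) : Prop :=
  ∀ σ : St, InO d J c0 n0 ϖ I σ → G σ.ms → ∀ I' ⊆ I, ∀ D' < D, Pos J c0 n0 η σ I' D' →
    σ.Ex d J I' D'

section basic

variable {d J D : ℕ}

theorem card_Vr (c : ℕ → ℕ) (w : ℕ) : Fintype.card (Vr J c w) = ∑ l ∈ range J, c l + w := by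
  rw [Fintype.card_sum, Fintype.card_sigma, Fintype.card_fin]
  simp only [Fintype.card_fin]
  rw [Fin.sum_univ_eq_sum_range]

theorem card_bt (c : ℕ → ℕ) (w : ℕ) {i : ℕ} (hi : i < J) :
    (univ.filter fun s : Vr J c w => bt J c w s = i).card = c i := by
  classical
  have h1 : (univ.filter fun s : Vr J c w => bt J c w s = i) =
      (univ : Finset (Fin (c i))).map ⟨fun x => (.inl ⟨⟨i, hi⟩, x⟩ : Vr J c w), fun x y h => by
        simpa using h⟩ := by
    ext s
    rw [mem_filter, mem_map]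
    constructor
    · rintro ⟨-, hs⟩
      rcases s with ⟨⟨l, hl⟩, x⟩ | x
      · have h2 : l = i := hs
        subst h2
        exact ⟨x, mem_univ _, rfl⟩
      · exact absurd hs (Nat.ne_of_gt hi)
    · rintro ⟨x, -, rfl⟩
      exact ⟨mem_univ _, rfl⟩
  rw [h1, card_map, card_univ, Fintype.card_fin]

theorem St.n_lo (σ : St) {a t : ℕ} (ha : a < J) (ht : t ≤ σ.c a) :
    (σ.lo a t).n J + t = σ.n J := by
  unfold St.n St.lo
  have h1 := sum_update_of_mem (mem_range.2 ha) σ.c (σ.c a - t)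
  have h2 := add_sum_erase (range J) σ.c (mem_range.2 ha)
  simp only
  rw [h1, sdiff_singleton_eq_erase]
  omega

theorem St.n_lw (σ : St) {s : ℕ} (hs : s ≤ σ.w) : (σ.lw s).n J + s = σ.n J := by
  unfold St.n St.lw
  simp only
  omega

end basic

end Pool.Agent.GD.AL

end

section

/-!
# General d, ALPHA, clusters: the position of a cluster with a tied member (CL1, algebra)

A cluster of `l + 1` members created at the level `i`; the first `l` members are `t a_0, …, t a_(l - 1)`, the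
last one is `y + t z`, `z` = minus the sum of the parts of the `a_x` in the block `i` (plus any vector which
vanishes on the blocks of `B`).  `tie_limit`: the values at `t = 0` of the solutions.
-/

set_option autoImplicit false
set_option linter.unusedSectionVars false

namespace Pool.Agent.GD.AL

open Finset MvPolynomial Pool.Agent.H51.TB Pool.Agent.V7.ST
open Pool.Agent.V7 (msk)

section

variable {ν : Type} [Fintype ν] [DecidableEq ν] {d : ℕ}

/-- The direction of the tied member. -/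
def zh {R : Type} [CommRing R] (β : ν → ℕ) (i : ℕ) (B : Finset ℕ) (l : ℕ) (a : ℕ → ν → R)
    (b : ν → R) (s : ν) : R :=
  if β s ∈ B then 0 else if β s = i then - ∑ x ∈ range l, a x s else b s

/-- The position of the object `ord 1 B` (the direction). -/
def pb {R : Type} [CommRing R] (β : ν → ℕ) (i l : ℕ) (a : ℕ → ν → R) (b : ν × Fin (d + 1) → R)
    (z : ν × Fin (d + 1)) : R :=
  if z.2 = 0 ∧ β z.1 = i then - ∑ x ∈ range l, a x z.1 else b z

/-- The position of the cluster of the first `l` members modulo the direction. -/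
def pc {R : Type} [CommRing R] (β : ν → ℕ) (i : ℕ) (B : Finset ℕ) (l : ℕ) (a : ℕ → ν → R)
    (b : ν → R) (c : ν × Fin (d + 1) → R) (z : ν × Fin (d + 1)) : R :=
  if z.2.1 + 1 < l then a z.2.1 z.1 else
    if z.2.1 + 1 = l ∧ β z.1 ≠ i then a z.2.1 z.1 + zh β i B l a b z.1 else c z

/-- The position of the cluster with the tied member. -/
noncomputable def pq (β : ν → ℕ) (i : ℕ) (B : Finset ℕ) (l : ℕ) (a : ℕ → ν → ℂ)
    (b y : ν → ℂ) (c : ν × Fin (d + 1) → ℂ) (z : ν × Fin (d + 1)) : Polynomial ℂ :=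
  if z.2.1 < l then Polynomial.X * Polynomial.C (a z.2.1 z.1) else
    if z.2.1 = l then Polynomial.C (y z.1) + Polynomial.X * Polynomial.C (zh β i B l a b z.1)
    else Polynomial.C (c z)

theorem opt_pb {β : ν → ℕ} {i l : ℕ} {B : Finset ℕ} {a : ℕ → ν → ℂ}
    {b : ν × Fin (d + 1) → ℂ} : opt β B (pb β i l a b) = zh β i B l a fun s => b (s, 0) := by
  funext s
  show (if β s ∈ B then 0 else pb β i l a b (s, 0)) = _
  unfold zh pb
  simp only [true_and]

theorem zh_zero {β : ν → ℕ} {i l : ℕ} {B : Finset ℕ} {a : ℕ → ν → ℂ} {b : ν → ℂ} {s : ν}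
    (h : β s ∈ B) : zh β i B l a b s = 0 := if_pos h

variable {β : ν → ℕ} {i e dl : ℕ} {B A : Finset ℕ} {L : List (Finset ℕ)}

/-- The vector `a x`, masked. -/
def avl (β : ν → ℕ) (L : List (Finset ℕ)) (a : ℕ → ν → ℂ) (x : ℕ) : ν → ℂ :=
  msk β (L.getD x ∅) (a x)

/-- The sum of the first members. -/
def sv (β : ν → ℕ) (L : List (Finset ℕ)) (a : ℕ → ν → ℂ) (s : ν) : ℂ :=
  ∑ x ∈ range L.length, avl β L a x s

theorem sum_fin_range {M : Type} [AddCommMonoid M] {l : ℕ} (hl : l ≤ d + 1) (f : ℕ → M) :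
    ∑ x : Fin (d + 1), (if x.1 < l then f x.1 else 0) = ∑ x ∈ range l, f x := by
  rw [Fin.sum_univ_eq_sum_range (fun x => if x < l then f x else 0) (d + 1), ← sum_filter]
  refine sum_congr ?_ fun _ _ => rfl
  ext x
  rw [mem_filter, mem_range, mem_range]
  omega

theorem getD_append_lt {x : ℕ} (h : x < L.length) : (L ++ [A]).getD x ∅ = L.getD x ∅ := by
  rw [List.getD_append _ _ _ _ h]

theorem getD_append_len : (L ++ [A]).getD L.length ∅ = A := by
  rw [List.getD_append_right _ _ _ _ le_rfl]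
  simp

/-- The first members of the cluster. -/
theorem pt_pq_lt (hl : L.length + 1 ≤ d) (a : ℕ → ν → ℂ) (b y : ν → ℂ) (c : ν × Fin (d + 1) → ℂ)
    {x : Fin (d + 1)} (hx : x.1 < L.length) :
    pt β (.cl e dl i (L ++ [A])) x (pq β i B L.length a b y c) =
      fun s => Polynomial.X * Polynomial.C (avl β L a x.1 s) := by
  funext s
  show (if β s ∈ (L ++ [A]).getD x ∅ then (0 : Polynomial ℂ) else
    if β s = i ∧ x.1 + 1 = (L ++ [A]).length then _ else pq β i B L.length a b y c (s, x)) = _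
  rw [getD_append_lt hx, if_neg (show ¬ (β s = i ∧ x.1 + 1 = (L ++ [A]).length) by
    rw [List.length_append, List.length_singleton]
    omega)]
  show (if β s ∈ L.getD x ∅ then (0 : Polynomial ℂ) else
    if x.1 < L.length then Polynomial.X * Polynomial.C (a x.1 s) else _) =
      Polynomial.X * Polynomial.C (if β s ∈ L.getD x.1 ∅ then 0 else a x.1 s)
  rw [if_pos hx]
  split_ifs
  · rw [map_zero, mul_zero]
  · rfl

/-- The tied member. -/
theorem pt_pq_len (hl : L.length + 1 ≤ d) (hiA : i ∉ A) (hiB : i ∉ B) (hAB : A ⊆ B)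
    (a : ℕ → ν → ℂ) (b y : ν → ℂ) (c : ν × Fin (d + 1) → ℂ)
    {x : Fin (d + 1)} (hx : x.1 = L.length) :
    pt β (.cl e dl i (L ++ [A])) x (pq β i B L.length a b y c) =
      fun s => Polynomial.C (msk β (insert i A) y s) +
        Polynomial.X * Polynomial.C (zh β i B L.length a b s) := by
  funext s
  show (if β s ∈ (L ++ [A]).getD x ∅ then (0 : Polynomial ℂ) else
    if β s = i ∧ x.1 + 1 = (L ++ [A]).length then
      - ∑ y' : Fin (d + 1), (if y'.1 + 1 < (L ++ [A]).length then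
        pq β i B L.length a b y c (s, y') else 0)
    else pq β i B L.length a b y c (s, x)) =
      Polynomial.C (if β s ∈ insert i A then 0 else y s) + _
  rw [hx, getD_append_len, List.length_append, List.length_singleton]
  by_cases h1 : β s ∈ A
  · rw [if_pos h1, if_pos (mem_insert_of_mem h1), zh_zero (hAB h1), map_zero, mul_zero, add_zero]
  · rw [if_neg h1]
    by_cases h2 : β s = i
    · rw [if_pos ⟨h2, rfl⟩, if_pos (mem_insert.2 (Or.inl h2)), map_zero, zero_add]
      unfold zh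
      rw [if_neg (show ¬ β s ∈ B by rwa [h2]), if_pos h2, map_neg, mul_neg]
      congr 1
      rw [map_sum, mul_sum, ← sum_fin_range (d := d) (by omega)]
      refine sum_congr rfl fun x' _ => ?_
      by_cases h3 : x'.1 < L.length
      · rw [if_pos (show x'.1 + 1 < L.length + 1 by omega), if_pos h3]
        show (if x'.1 < L.length then Polynomial.X * Polynomial.C (a x'.1 s) else _) = _
        rw [if_pos h3]
      · rw [if_neg (show ¬ x'.1 + 1 < L.length + 1 by omega), if_neg h3]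
    · rw [if_neg (fun h => h2 h.1), if_neg (show ¬ β s ∈ insert i A by
        rw [mem_insert]
        exact fun h => h.elim h2 h1)]
      show (if x.1 < L.length then _ else if x.1 = L.length then
        Polynomial.C (y s) + Polynomial.X * Polynomial.C (zh β i B L.length a b s) else _) = _
      rw [if_neg (show ¬ x.1 < L.length by omega), if_pos hx]

theorem zz_pq (hl : L.length + 1 ≤ d) (a : ℕ → ν → ℂ) (b y : ν → ℂ) (c : ν × Fin (d + 1) → ℂ) :
    zz β i (pq β i B L.length a b y c) = fun s => Polynomial.C (zz β i c s) := by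
  funext s
  show (if β s = i then pq β i B L.length a b y c (s, Fin.last d) else 0) =
    Polynomial.C (if β s = i then c (s, Fin.last d) else 0)
  split_ifs
  · unfold pq
    rw [if_neg (show ¬ (Fin.last d).1 < L.length by rw [Fin.val_last]; omega),
      if_neg (show ¬ (Fin.last d).1 = L.length by rw [Fin.val_last]; omega)]
  · rw [map_zero]

end

end Pool.Agent.GD.AL

end

section

/-!
# General d, ALPHA: calculus of the virtual dimensions

* `vd_congr`, `vd_succ` (Pascal in `n`), `vd_upd` (Pascal in `c a`), `vd_one`, `vd_one_upd` (points of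
  exponent `1`), `vd_low` (`0` in the degrees `< #I`), `vd_prod` (product with points of the kinds
  `A ⊇ I`), `vd_clu` (clusters), `vd_empty_nonneg`, `vd_empty_le`.
-/

set_option autoImplicit false

namespace Pool.Agent.GD

open Finset

namespace AL

/-! ### Congruence -/

theorem vd_congr {D : ℕ} {I : Finset ℕ} {c c' : ℕ → ℕ} {n : ℕ} {ms ms' : Multiset Kd}
    (hc : ∀ i ∈ I, c i = c' i)
    (hP : ∀ I' ⊆ I, (ms.map (Kd.P I')).prod = (ms'.map (Kd.P I')).prod) :
    vd D I c n ms = vd D I c' n ms' := by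
  unfold vd
  refine sum_congr rfl fun I' hI' => ?_
  have h1 := mem_powerset.1 hI'
  rw [hP I' h1, sum_congr rfl fun i hi => hc i (h1 hi)]

theorem vd_congr_c {D : ℕ} {I : Finset ℕ} {c c' : ℕ → ℕ} {n : ℕ} {ms : Multiset Kd}
    (hc : ∀ i ∈ I, c i = c' i) : vd D I c n ms = vd D I c' n ms :=
  vd_congr hc fun _ _ => rfl

/-- The same factors object by object. -/
theorem vd_congr_map {α : Type} {D : ℕ} {I : Finset ℕ} {c : ℕ → ℕ} {n : ℕ} (s : Multiset α)
    {f g : α → Kd} (h : ∀ a ∈ s, ∀ I' ⊆ I, (f a).P I' = (g a).P I') :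
    vd D I c n (s.map f) = vd D I c n (s.map g) := by
  refine vd_congr (fun _ _ => rfl) fun I' hI' => ?_
  rw [Multiset.map_map, Multiset.map_map]
  congr 1
  exact Multiset.map_congr rfl fun a ha => h a ha I' hI'

theorem vd_nil (D : ℕ) (c : ℕ → ℕ) (n : ℕ) (ms : Multiset Kd) :
    vd D ∅ c n ms = PowerSeries.coeff D ((ms.map (Kd.P ∅)).prod * hs n) := by
  unfold vd
  rw [powerset_empty, sum_singleton, card_empty, pow_zero, one_mul, sum_empty, Nat.sub_zero]

/-! ### Pascal -/

theorem sum_le_of_sub {I I' : Finset ℕ} {c : ℕ → ℕ} (h : I' ⊆ I) :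
    ∑ i ∈ I', c i ≤ ∑ i ∈ I, c i := sum_le_sum_of_subset h

theorem sum_upd_notMem {I' : Finset ℕ} {c : ℕ → ℕ} {a x : ℕ} (h : a ∉ I') :
    ∑ i ∈ I', Function.update c a x i = ∑ i ∈ I', c i :=
  sum_congr rfl fun i hi => Function.update_of_ne (fun h' => h (by rw [← h']; exact hi)) _ _

theorem sum_upd_mem {I' : Finset ℕ} {c : ℕ → ℕ} {a : ℕ} (h : a ∈ I') :
    ∑ i ∈ I', Function.update c a (c a + 1) i = ∑ i ∈ I', c i + 1 := by
  rw [← add_sum_erase I' _ h, ← add_sum_erase I' c h, sum_upd_notMem (notMem_erase a I'),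
    Function.update_self]
  ring

/-- Splitting a sum over the subsets. -/
theorem sum_pow_split {I : Finset ℕ} {a : ℕ} (ha : a ∈ I) (f : Finset ℕ → ℤ) :
    ∑ I' ∈ I.powerset, f I' = ∑ I' ∈ (I.erase a).powerset, f I' +
      ∑ I' ∈ I.powerset.filter (fun I' => a ∈ I'), f I' := by
  rw [← sum_filter_add_sum_filter_not I.powerset (fun I' => a ∈ I') f, add_comm]
  congr 1
  refine sum_congr ?_ fun _ _ => rfl
  ext I'
  rw [mem_filter, mem_powerset, mem_powerset, subset_erase]

/-! ### Points of exponent `1` -/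

/-! ### Clusters -/

/-- A cluster off its level is the sum of its members. -/
theorem vd_clu_not (D : ℕ) {I : Finset ℕ} (c : ℕ → ℕ) (n e dl : ℕ) {i : ℕ} {As : List (Finset ℕ)}
    (hiI : i ∉ I) (ms : Multiset Kd) :
    vd D I c n (Kd.cl e dl i As ::ₘ ms) =
      vd D I c n (((As.map fun A => Kd.ord e A : List Kd) : Multiset Kd) + ms) := by
  refine vd_congr (fun _ _ => rfl) fun I' hI' => ?_
  have h3 : i ∉ I' := fun h => hiI (hI' h)
  have h6 : Kd.P I' (Kd.cl e dl i As) =
      (As.map fun A => if I' ⊆ A then 1 - PowerSeries.X ^ e else (1 : PowerSeries ℤ)).prod := by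
    show (if i ∈ I' then _ else _) = _
    rw [if_neg h3]
  rw [Multiset.map_cons, Multiset.prod_cons, h6, Multiset.map_add, Multiset.prod_add,
    Multiset.map_coe, Multiset.prod_coe, List.map_map]
  rfl

/-! ### Low degrees -/

/-- The objects without effect on the vanishing in the degrees `< #I`. -/
def _root_.Pool.Agent.GD.Kd.Low (I : Finset ℕ) : Kd → Prop
  | .ord x A => (I \ A).card ≤ x
  | .cl e _ i As => 1 ≤ As.length ∧ ∀ A ∈ As, i ∉ A ∧ (I \ A).card ≤ e

/-- The union of the supports of the members. -/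
theorem card_inter_le {I : Finset ℕ} {e i : ℕ} (hi : i ∈ I) (As : List (Finset ℕ))
    (h0 : As ≠ []) (hA : ∀ A ∈ As, i ∉ A ∧ (I \ A).card ≤ e) :
    (I.erase i \ inter As).card ≤ As.length * (e - 1) := by
  have h1 : ∀ Bs : List (Finset ℕ), (∀ A ∈ Bs, i ∉ A ∧ (I \ A).card ≤ e) →
      ((I.erase i).filter fun x => ∃ A ∈ Bs, x ∉ A).card ≤ Bs.length * (e - 1) := by
    intro Bs
    induction Bs with
    | nil =>
      intro _
      simp
    | cons B Bs ih =>
      intro hB
      have h2 : ((I.erase i).filter fun x => ∃ A ∈ B :: Bs, x ∉ A) ⊆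
          (I \ B).erase i ∪ ((I.erase i).filter fun x => ∃ A ∈ Bs, x ∉ A) := by
        intro x hx
        rw [mem_filter] at hx
        obtain ⟨hx1, A, hA1, hA2⟩ := hx
        rw [mem_union, mem_erase, mem_sdiff, mem_filter]
        rcases List.mem_cons.1 hA1 with h3 | h3
        · left
          rw [← h3]
          exact ⟨ne_of_mem_erase hx1, mem_of_mem_erase hx1, hA2⟩
        · right
          exact ⟨hx1, A, h3, hA2⟩
      refine (card_le_card h2).trans ((card_union_le _ _).trans ?_)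
      have h3 := ih fun A hA => hB A (List.mem_cons_of_mem _ hA)
      have h4 := hB B List.mem_cons_self
      have h5 : i ∈ I \ B := mem_sdiff.2 ⟨hi, h4.1⟩
      rw [card_erase_of_mem h5, List.length_cons, Nat.succ_mul]
      have h6 := h4.2
      omega
  have h2 : I.erase i \ inter As = (I.erase i).filter fun x => ∃ A ∈ As, x ∉ A := by
    ext x
    rw [mem_sdiff, mem_filter]
    refine and_congr_right fun _ => ?_
    constructor
    · intro h
      by_contra hcon
      push Not at hcon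
      refine h ?_
      unfold inter
      rw [mem_filter]
      refine ⟨?_, hcon⟩
      cases As with
      | nil => exact absurd rfl h0
      | cons B Bs => exact hcon B List.mem_cons_self
    · rintro ⟨A, hA, hx⟩ h
      unfold inter at h
      exact hx ((mem_filter.1 h).2 A hA)
  rw [h2]
  exact h1 As hA

/-! ### Products -/

/-! ### The empty configuration -/

/-- Nonnegative coefficients. -/
def Nn (F : PowerSeries ℤ) : Prop := ∀ k, 0 ≤ PowerSeries.coeff k F

theorem Nn.mul {F G : PowerSeries ℤ} (hF : Nn F) (hG : Nn G) : Nn (F * G) := fun k => by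
  rw [PowerSeries.coeff_mul]
  exact sum_nonneg fun x _ => mul_nonneg (hF _) (hG _)

theorem Nn.prod {I : Finset ℕ} {F : ℕ → PowerSeries ℤ} (hF : ∀ i ∈ I, Nn (F i)) :
    Nn (∏ i ∈ I, F i) := by
  induction I using Finset.induction_on with
  | empty =>
    rw [prod_empty]
    intro k
    rw [PowerSeries.coeff_one]
    split_ifs <;> norm_num
  | insert i I hi ih =>
    rw [prod_insert hi]
    exact (hF i (mem_insert_self i I)).mul (ih fun j hj => hF j (mem_insert_of_mem hj))

theorem Nn.sub_mul {F F' G G' : PowerSeries ℤ} (hF : Nn (F' - F)) (hG0 : Nn G) (hF0 : Nn F')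
    (hG : Nn (G' - G)) : Nn (F' * G' - F * G) := by
  have h : F' * G' - F * G = (F' - F) * G + F' * (G' - G) := by ring
  rw [h]
  intro k
  rw [map_add]
  exact add_nonneg (hF.mul hG0 k) (hF0.mul hG k)

theorem Nn.hs (N : ℕ) : Nn (hs N) := fun k => by
  unfold Pool.Agent.GD.hs
  rw [PowerSeries.coeff_mk]
  exact Nat.cast_nonneg _

theorem Nn.hs_sub (N : ℕ) : Nn (GD.hs N - 1) := fun k => by
  rcases k with _ | k
  · unfold Pool.Agent.GD.hs
    simp
  · rw [map_sub, PowerSeries.coeff_one, if_neg (Nat.succ_ne_zero k), sub_zero]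
    exact Nn.hs N _

theorem multichoose_succ_le (N k : ℕ) : N.multichoose (k + 1) ≤ N * N.multichoose k := by
  induction N generalizing k with
  | zero => simp
  | succ N ih =>
    rw [Nat.multichoose_succ_succ]
    have h1 := ih k
    have h2 : N.multichoose k ≤ (N + 1).multichoose k := by
      cases k with
      | zero => simp
      | succ k =>
        rw [Nat.multichoose_succ_succ]
        exact Nat.le_add_right _ _
    calc N.multichoose (k + 1) + (N + 1).multichoose k
        ≤ N * (N + 1).multichoose k + (N + 1).multichoose k :=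
          Nat.add_le_add_right (h1.trans (Nat.mul_le_mul_left _ h2)) _
      _ = (N + 1) * (N + 1).multichoose k := by ring

theorem multichoose_le_pow (N k : ℕ) : N.multichoose k ≤ N ^ k := by
  induction k with
  | zero => simp
  | succ k ih =>
    refine (multichoose_succ_le N k).trans ?_
    rw [pow_succ, mul_comm]
    exact Nat.mul_le_mul_right _ ih

theorem Nn.hs_le (N : ℕ) :
    Nn (PowerSeries.C ((N : ℕ) : ℤ) * (PowerSeries.X * GD.hs N) - (GD.hs N - 1)) := fun k => by
  rcases k with _ | k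
  · unfold Pool.Agent.GD.hs
    simp
  · rw [map_sub, map_sub, PowerSeries.coeff_C_mul, PowerSeries.coeff_succ_X_mul,
      PowerSeries.coeff_one, if_neg (Nat.succ_ne_zero k), sub_zero]
    unfold Pool.Agent.GD.hs
    rw [PowerSeries.coeff_mk, PowerSeries.coeff_mk, sub_nonneg]
    exact_mod_cast multichoose_succ_le N k

end AL

end Pool.Agent.GD

end
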