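import Pool.Agent.H94.LP7.H51.TB.Sys
import Pool.Agent.H94.LP7.M01

/-! The parts of this file: H54.V7.Lim, V7.Defs, V7.ST.Ms, GD.Defs. -/

section

/-!
# The limit of the solution spaces of a linear system depending on one parameter
-/

namespace Pool.Agent.H54.V7

open Finset Polynomial Pool.Agent.H18.Ex

section

set_option linter.unusedSectionVars false

variable {ι : Type} [Fintype ι] [DecidableEq ι] {E : Type} [Fintype E]

/-- `f` vanishes to order `M` at `q`. -/
def Fat (ex : E → ι → ℕ) (M : ℕ) (q : ι → ℂ) (f : E → ℂ) : Prop :=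
  ∀ b : ι → ℕ, ∑ i, b i < M → ∑ e, f e * tcr q (ex e) b = 0

/-- The additional conditions: the derivative of order `M - |a|` in the direction `v` of the
`a`-th derivative of `f` vanishes at `p`, for all `a` along the subspace `x_i = 0` (`i ∈ B`) with
`1 ≤ |a| ≤ M`. -/
def Sw (ex : E → ι → ℕ) (M N : ℕ) (B : Finset ι) (p v : ι → ℂ) (f : E → ℂ) : Prop :=
  ∀ a : ι → ℕ, (∀ i ∈ B, a i = 0) → 1 ≤ ∑ i, a i → ∑ i, a i ≤ M →
    ∑ b ∈ bxd ι N M, tcr v b a * ∑ e, f e * tcr p (ex e) b = 0

end

end Pool.Agent.H54.V7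

end

section

/-!
# V7: definitions

Variables `s : ν` with block numbers `β s : ℕ`.  The level `j` consists of the forms of degree
`2 M - 1` all of whose monomials meet the blocks `0, …, j - 1` (they vanish on the subspaces
`L_i = {x = 0 on the block i}`, `i < j`).

Kinds of points: `ord μ I` is a point of multiplicity `μ` which lies on `L_i` for all `i ∈ I`;
`sw i I` (swapped point) is a point `p` which lies on `L_i` and on `L_{i'}`, `i' ∈ I`, together with
a direction `v` which lies on `L_{i'}`, `i' ∈ I`: multiplicity `M` at `p`, and for every derivative of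
order `1 ≤ |a| ≤ M` along `L_i` one more order of vanishing on the line `p + u v`.
A position is a function on `ν ⊕ ν`: coordinates of `p` (`Sum.inl`) and of `v` (`Sum.inr`); the
coordinates on the blocks where the point has to vanish are replaced by `0` (`msk`).
-/

set_option autoImplicit false
set_option linter.unusedSectionVars false

namespace Pool.Agent.V7

open Finset MvPolynomial Pool.Agent.H51.TB Pool.Agent.H54.V7
open Pool.Agent.H18.Ex (tcr)

/-- The kinds of points. -/
inductive Kd : Type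
  | ord (μ : ℕ) (I : Finset ℕ) : Kd
  | sw (i : ℕ) (I : Finset ℕ) : Kd
  deriving DecidableEq

/-- The kind of a point which lies on the subspace `L_j` too. -/
def Kd.add (j : ℕ) : Kd → Kd
  | .ord μ I => .ord μ (insert j I)
  | .sw i I => .sw i (insert j I)

/-- The kinds of the level `j` for the multiplicity `M`. -/
def Kd.Ok (M j : ℕ) : Kd → Prop
  | .ord μ I => 1 ≤ μ ∧ μ ≤ M ∧ I ⊆ range j
  | .sw i I => i < j ∧ I ⊆ Ico (i + 1) j

/-- Simple points. -/
abbrev Kd.sm : Kd := .ord 1 ∅

/-! ### Numbers -/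

/-- The number of monomials of degree `k` in `n` variables which meet `j` blocks of size `c`
(for `j c ≤ n`). -/
def bb (c k : ℕ) : ℕ → ℕ → ℕ
  | 0, n => Nat.multichoose n k
  | j + 1, n => bb c k j n - bb c k j (n - c)

/-- The number of conditions of a point. -/
def wt (M c n : ℕ) : Kd → ℕ
  | .ord μ I => bb c (μ - 1) I.card n
  | .sw _ I => bb c (M - 1) I.card n - if I = ∅ then 1 else 0

/-- The virtual dimension of a configuration. -/
def vd (M c j n : ℕ) (s : Multiset Kd) : ℤ :=
  (bb c (2 * M - 1) j n : ℤ) - ((s.map (wt M c n)).sum : ℕ)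

/-! ### Systems -/

/-- The coordinates on the blocks of `I` are replaced by `0`. -/
def msk {ν R : Type} [Zero R] (β : ν → ℕ) (I : Finset ℕ) (q : ν → R) : ν → R :=
  fun s => if β s ∈ I then 0 else q s

section

variable {ν : Type} [Fintype ν] [DecidableEq ν]

/-- The exponents of degree `d` which meet the blocks `0, …, j - 1`. -/
def Ex (β : ν → ℕ) (d j : ℕ) : Finset (ν → ℕ) :=
  (Pool.Agent.H21.NX.Sx ν d).filter fun a => ∀ i < j, ∃ s, β s = i ∧ a s ≠ 0

theorem mem_Ex {β : ν → ℕ} {d j : ℕ} {a : ν → ℕ} :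
    a ∈ Ex β d j ↔ ∑ s, a s = d ∧ ∀ i < j, ∃ s, β s = i ∧ a s ≠ 0 := by
  unfold Ex
  rw [mem_filter, Pool.Agent.H21.NX.mem_Sx]

/-- The indices of the conditions of a kind. -/
def Cdx (M : ℕ) (β : ν → ℕ) : Kd → Type
  | .ord μ _ => {b : ν → ℕ // ∑ s, b s < μ}
  | .sw i _ => {b : ν → ℕ // ∑ s, b s < M} ⊕
      {a : ν → ℕ // (∀ s, β s = i → a s = 0) ∧ 1 ≤ ∑ s, a s ∧ ∑ s, a s ≤ M}

theorem finite_lt (μ : ℕ) (P : (ν → ℕ) → Prop) (h : ∀ b, P b → ∑ s, b s ≤ μ) :
    Finite {b : ν → ℕ // P b} := by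
  have h0 : {f : ν → ℕ | ∀ i, f i ∈ Set.Iic μ}.Finite :=
    Set.Finite.pi' fun _ => Set.finite_Iic μ
  have h1 : {b : ν → ℕ | P b} ⊆ {f : ν → ℕ | ∀ i, f i ∈ Set.Iic μ} := by
    intro b hb i
    exact (single_le_sum (f := b) (fun _ _ => Nat.zero_le _) (mem_univ i)).trans (h b hb)
  exact (h0.subset h1).to_subtype

/-- The coefficients of the conditions of a kind. -/
noncomputable def cof (M : ℕ) (β : ν → ℕ) : (k : Kd) → Cdx M β k → (ν → ℕ) →
    MvPolynomial (ν ⊕ ν) ℂ
  | .ord _ I, b, e => tcr (msk β I fun s => X (Sum.inl s)) e b.1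
  | .sw i I, Sum.inl b, e => tcr (msk β (insert i I) fun s => X (Sum.inl s)) e b.1
  | .sw i I, Sum.inr a, e => ∑ b ∈ bxd ν (2 * M) M,
      tcr (msk β I fun s => X (Sum.inr s)) b a.1 *
        tcr (msk β (insert i I) fun s => X (Sum.inl s)) e b

/-- The system of the forms with the exponents `A`. -/
noncomputable def LSA (M : ℕ) (β : ν → ℕ) (A : Finset (ν → ℕ)) : Sys {a // a ∈ A} (ν ⊕ ν) Kd where
  R := Cdx M β
  fin := by
    rintro (⟨μ, I⟩ | ⟨i, I⟩)
    · exact finite_lt μ _ fun b hb => hb.le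
    · have h1 : Finite {b : ν → ℕ // ∑ s, b s < M} := finite_lt M _ fun b hb => hb.le
      have h2 : Finite {a : ν → ℕ // (∀ s, β s = i → a s = 0) ∧ 1 ≤ ∑ s, a s ∧ ∑ s, a s ≤ M} :=
        finite_lt M _ fun b hb => hb.2.2
      exact Finite.instSum
  co := fun k r e => cof M β k r e.1

/-- The system of the level `j`: forms of degree `2 M - 1` which vanish on `L_0, …, L_{j - 1}`. -/
noncomputable abbrev LS (M : ℕ) (β : ν → ℕ) (j : ℕ) :
    Sys {a // a ∈ Ex β (2 * M - 1) j} (ν ⊕ ν) Kd :=
  LSA M β (Ex β (2 * M - 1) j)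

/-- The conditions of a point of kind `k` at the position `q`. -/
def SatK (M : ℕ) (β : ν → ℕ) {A : Finset (ν → ℕ)} (k : Kd) (q : ν ⊕ ν → ℂ)
    (f : {a // a ∈ A} → ℂ) : Prop :=
  match k with
  | .ord μ I => Fat (fun e : {a // a ∈ A} => e.1) μ (msk β I fun s => q (Sum.inl s)) f
  | .sw i I => Fat (fun e : {a // a ∈ A} => e.1) M (msk β (insert i I) fun s => q (Sum.inl s)) f ∧
      Sw (fun e : {a // a ∈ A} => e.1) M (2 * M) (univ.filter fun s => β s = i)
        (msk β (insert i I) fun s => q (Sum.inl s)) (msk β I fun s => q (Sum.inr s)) f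

theorem eval_tcr_msk (β : ν → ℕ) (I : Finset ℕ) (φ : ν → ν ⊕ ν) (q : ν ⊕ ν → ℂ) (e b : ν → ℕ) :
    eval q (tcr (msk β I fun s => (X (φ s) : MvPolynomial (ν ⊕ ν) ℂ)) e b) =
      tcr (msk β I fun s => q (φ s)) e b := by
  unfold tcr
  rw [map_prod]
  refine prod_congr rfl fun s _ => ?_
  rw [map_mul, map_pow, map_natCast]
  congr 2
  unfold msk
  split_ifs
  · rw [map_zero]
  · rw [eval_X]

theorem eval_cof_ord (M : ℕ) (β : ν → ℕ) (μ : ℕ) (I : Finset ℕ) (r : Cdx M β (.ord μ I))
    (q : ν ⊕ ν → ℂ) (e : ν → ℕ) : eval q (cof M β (.ord μ I) r e) =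
      tcr (msk β I fun s => q (Sum.inl s)) e r.1 :=
  eval_tcr_msk β I Sum.inl q e r.1

theorem eval_cof_sw_inl (M : ℕ) (β : ν → ℕ) (i : ℕ) (I : Finset ℕ)
    (b : {b : ν → ℕ // ∑ s, b s < M}) (q : ν ⊕ ν → ℂ) (e : ν → ℕ) :
    eval q (cof M β (.sw i I) (Sum.inl b) e) =
      tcr (msk β (insert i I) fun s => q (Sum.inl s)) e b.1 :=
  eval_tcr_msk β (insert i I) Sum.inl q e b.1

theorem eval_cof_sw_inr (M : ℕ) (β : ν → ℕ) (i : ℕ) (I : Finset ℕ)
    (a : {a : ν → ℕ // (∀ s, β s = i → a s = 0) ∧ 1 ≤ ∑ s, a s ∧ ∑ s, a s ≤ M})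
    (q : ν ⊕ ν → ℂ) (e : ν → ℕ) :
    eval q (cof M β (.sw i I) (Sum.inr a) e) = ∑ b ∈ bxd ν (2 * M) M,
      tcr (msk β I fun s => q (Sum.inr s)) b a.1 *
        tcr (msk β (insert i I) fun s => q (Sum.inl s)) e b := by
  show eval q (∑ b ∈ bxd ν (2 * M) M, tcr (msk β I fun s => X (Sum.inr s)) b a.1 *
    tcr (msk β (insert i I) fun s => X (Sum.inl s)) e b) = _
  rw [map_sum]
  refine sum_congr rfl fun b _ => ?_
  rw [map_mul, eval_tcr_msk, eval_tcr_msk]

theorem mem_LSA (M : ℕ) (β : ν → ℕ) (A : Finset (ν → ℕ)) {κ : Type} (m : κ → Kd)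
    (p : κ → ν ⊕ ν → ℂ) (f : {a // a ∈ A} → ℂ) :
    f ∈ (LSA M β A).V m p ↔ ∀ i, SatK M β (m i) (p i) f := by
  rw [Sys.mem_V]
  refine forall_congr' fun x => ?_
  generalize m x = k
  generalize p x = q
  show (∀ r : Cdx M β k, ∑ e : {a // a ∈ A}, eval q (cof M β k r e.1) * f e = 0) ↔ _
  rcases k with ⟨μ, I⟩ | ⟨i, I⟩
  · constructor
    · intro h b hb
      rw [← h (⟨b, hb⟩ : {b : ν → ℕ // ∑ s, b s < μ})]
      refine sum_congr rfl fun e _ => ?_
      rw [eval_cof_ord, mul_comm]
    · intro h r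
      rw [← h r.1 r.2]
      refine sum_congr rfl fun e _ => ?_
      rw [eval_cof_ord, mul_comm]
  · constructor
    · intro h
      refine ⟨fun b hb => ?_, fun a h1 h2 h3 => ?_⟩
      · rw [← h (Sum.inl (⟨b, hb⟩ : {b : ν → ℕ // ∑ s, b s < M}))]
        refine sum_congr rfl fun e _ => ?_
        rw [eval_cof_sw_inl, mul_comm]
      · have h1' : ∀ s, β s = i → a s = 0 := fun s hs => h1 s (by rw [mem_filter]; exact ⟨mem_univ s, hs⟩)
        rw [← h (Sum.inr (⟨a, h1', h2, h3⟩ :
          {a : ν → ℕ // (∀ s, β s = i → a s = 0) ∧ 1 ≤ ∑ s, a s ∧ ∑ s, a s ≤ M}))]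
        simp only [mul_sum]
        rw [sum_comm]
        refine sum_congr rfl fun e _ => ?_
        rw [eval_cof_sw_inr, sum_mul]
        refine sum_congr rfl fun b _ => ?_
        ring
    · intro h r
      rcases r with b | a
      · rw [← h.1 b.1 b.2]
        refine sum_congr rfl fun e _ => ?_
        rw [eval_cof_sw_inl, mul_comm]
      · rw [← h.2 a.1 (fun s hs => a.2.1 s (by rw [mem_filter] at hs; exact hs.2)) a.2.2.1 a.2.2.2]
        simp only [mul_sum]
        rw [sum_comm]
        refine sum_congr rfl fun e _ => ?_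
        rw [eval_cof_sw_inr, sum_mul]
        refine sum_congr rfl fun b _ => ?_
        ring

/-- The canonical variables: `n` variables, block number `s / c`. -/
def blk (c n : ℕ) : Fin n → ℕ := fun s => s.1 / c

end

end Pool.Agent.V7

end

section

/-!
# V7, block STEP: configurations as multisets of types

The general dimension depends only on the numbers of points of the types.
-/

set_option autoImplicit false

namespace Pool.Agent.V7.ST

open Finset MvPolynomial Pool.Agent.H51.TB

variable {E ν T : Type} [Fintype E] (S : Sys E ν T)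

/-- The general dimension of a multiset of types. -/
noncomputable def gM (s : Multiset T) : ℕ :=
  S.gd fun i : Fin s.toList.length => s.toList.get i

end Pool.Agent.V7.ST

end

section

/-!
# General d: definitions (exactness in the layer for every fixed degree)

Notes 4143, 4154, 4159, 4171, 4181, 4193.  Forms of degree `D ≤ d` in the variables `s : ν`, with block
numbers `β s : ℕ`.  `Z_i` is the space of the block `i`, `L_i` the subspace where the block `i` vanishes.
The level `j`: all monomials meet the blocks `0, …, j - 1` (of the dimensions `c 0, …, c (j - 1)`), the other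
variables form `W`.

Kinds of objects (`A` = the set of the blocks on which a point vanishes):

* `ord e A`: the condition `F(q^e x) = 0` for all `x`, i.e. multiplicity `D + 1 - e` in degree `D`;
* `cl e dl i As`: a cluster created at the level `i`: `k = As.length` points `q_x` of exponent `e`, the point
  `x` vanishes on the blocks of `As x` (`i ∉ As x`), the sum `u` of all of them vanishes on the block `i`, and
  the additional conditions `F(u^(k(e-1)) z^κ x) = 0`, `1 ≤ κ ≤ dl`, `x` a product of variables off the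
  block `i`, `z` a vector of the block `i`.

A position of an object is a function on `ν × Fin (d + 1)`: the members, `Fin.last d` is `z`.
-/

set_option autoImplicit false
set_option linter.unusedSectionVars false

namespace Pool.Agent.GD

open Finset MvPolynomial Pool.Agent.H51.TB Pool.Agent.H54.V7 Pool.Agent.V7.ST
open Pool.Agent.H18.Ex (tcr)
open Pool.Agent.V7 (msk)

/-- The kinds of objects. -/
inductive Kd : Type
  | ord (e : ℕ) (A : Finset ℕ) : Kd
  | cl (e dl i : ℕ) (As : List (Finset ℕ)) : Kd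
  deriving DecidableEq

/-- The intersection of the sets of a list. -/
def inter (As : List (Finset ℕ)) : Finset ℕ := (As.headD ∅).filter fun x => ∀ A ∈ As, x ∈ A

/-- The exponent. -/
def Kd.ex : Kd → ℕ
  | .ord e _ => e
  | .cl e _ _ _ => e

/-- The number of the points of an object. -/
def Kd.nm : Kd → ℕ
  | .ord _ _ => 1
  | .cl _ _ _ As => As.length

/-- The exponent of the trace of a cluster. -/
def trx (e dl k : ℕ) : ℕ := k * (e - 1) + 1 + dl

section

variable {ν : Type} [Fintype ν] [DecidableEq ν]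

/-- The points of an object at a position. -/
def pt {R : Type} [CommRing R] {d : ℕ} (β : ν → ℕ) : Kd → Fin (d + 1) → (ν × Fin (d + 1) → R) → ν → R
  | .ord _ A, _, q => msk β A fun s => q (s, 0)
  | .cl _ _ i As, x, q => msk β (As.getD x ∅) fun s =>
      if β s = i ∧ x.1 + 1 = As.length then
        - ∑ y : Fin (d + 1), if y.1 + 1 < As.length then q (s, y) else 0
      else q (s, x)

/-- The sum of the points of an object. -/
def uu {R : Type} [CommRing R] {d : ℕ} (β : ν → ℕ) (k : Kd) (q : ν × Fin (d + 1) → R) (s : ν) : R :=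
  ∑ x : Fin (d + 1), if x.1 < k.nm then pt β k x q s else 0

/-- The direction `z`. -/
def zz {R : Type} [CommRing R] {d : ℕ} (β : ν → ℕ) (i : ℕ) (q : ν × Fin (d + 1) → R) (s : ν) : R :=
  if β s = i then q (s, Fin.last d) else 0

/-- The indices of the conditions of the points: the member and the derivative. -/
abbrev Ra (d D : ℕ) (ν : Type) [Fintype ν] (k : Kd) : Type :=
  {r : Fin (d + 1) × (ν → ℕ) // r.1.1 < k.nm ∧ ∑ s, r.2 s + k.ex ≤ D}

/-- The indices of the additional conditions: `κ` and the derivative (only if `i ∈ I`). -/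
def Rb (d D : ℕ) (β : ν → ℕ) (I : Finset ℕ) : Kd → Type
  | .ord _ _ => Empty
  | .cl e dl i As => {r : Fin (d + 1) × (ν → ℕ) // (i ∈ I ∧ 1 ≤ r.1.1 ∧ r.1.1 ≤ dl) ∧
      (∀ s, β s = i → r.2 s = 0) ∧ As.length * (e - 1) + r.1.1 + ∑ s, r.2 s = D}

theorem finite_le (d D : ℕ) (P : Fin (d + 1) × (ν → ℕ) → Prop) (h : ∀ r, P r → ∑ s, r.2 s ≤ D) :
    Finite {r : Fin (d + 1) × (ν → ℕ) // P r} := by
  have h0 : {f : ν → ℕ | ∀ i, f i ∈ Set.Iic D}.Finite :=
    Set.Finite.pi' fun _ => Set.finite_Iic _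
  have h1 : {r : Fin (d + 1) × (ν → ℕ) | P r} ⊆
      (Set.univ : Set (Fin (d + 1))) ×ˢ {f : ν → ℕ | ∀ i, f i ∈ Set.Iic D} := by
    rintro ⟨x, b⟩ hb
    refine ⟨Set.mem_univ _, fun i => ?_⟩
    have h2 : b i ≤ ∑ s, b s := single_le_sum (f := b) (fun _ _ => Nat.zero_le _) (mem_univ i)
    exact h2.trans (h _ hb)
  exact ((Set.finite_univ.prod h0).subset h1).to_subtype

theorem finite_Ra (d D : ℕ) (k : Kd) : Finite (Ra d D ν k) :=
  finite_le d D _ fun r hr => by omega

theorem finite_Rb (d D : ℕ) (β : ν → ℕ) (I : Finset ℕ) (k : Kd) : Finite (Rb d D β I k) := by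
  cases k with
  | ord e A => exact inferInstanceAs (Finite Empty)
  | cl e dl i As => exact finite_le d D _ fun r hr => by omega

/-- The coefficients of the conditions of the points. -/
noncomputable def coa (d D : ℕ) (β : ν → ℕ) (k : Kd) (r : Ra d D ν k) (e : ν → ℕ) :
    MvPolynomial (ν × Fin (d + 1)) ℂ :=
  tcr (pt β k r.1.1 fun s => (X s : MvPolynomial (ν × Fin (d + 1)) ℂ)) e r.1.2

/-- The coefficients of the additional conditions. -/
noncomputable def cob (d D : ℕ) (β : ν → ℕ) (I : Finset ℕ) : (k : Kd) → Rb d D β I k → (ν → ℕ) →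
    MvPolynomial (ν × Fin (d + 1)) ℂ
  | .ord _ _, r, _ => r.elim
  | .cl e dl i As, r, ex => ∑ g ∈ Pool.Agent.H21.NX.Sx ν (r.1.1.1 + ∑ s, r.1.2 s),
      tcr (zz β i fun s => (X s : MvPolynomial (ν × Fin (d + 1)) ℂ)) g r.1.2 *
        tcr (uu β (.cl e dl i As) fun s => (X s : MvPolynomial (ν × Fin (d + 1)) ℂ)) ex g

/-- The system of the forms of degree `D` with the exponents `A`; the additional conditions of a cluster
created at the level `i` are imposed only if `i ∈ I`. -/
noncomputable def LSA (d D : ℕ) (β : ν → ℕ) (I : Finset ℕ) (A : Finset (ν → ℕ)) :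
    Sys {a // a ∈ A} (ν × Fin (d + 1)) Kd where
  R := fun k => Ra d D ν k ⊕ Rb d D β I k
  fin := fun k => by
    have h1 := finite_Ra (ν := ν) d D k
    have h2 := finite_Rb d D β I k
    exact Finite.instSum
  co := fun k r e => Sum.elim (fun r => coa d D β k r e.1) (fun r => cob d D β I k r e.1) r

/-- The exponents of degree `D` which meet the blocks of `I`. -/
def Ex (β : ν → ℕ) (D : ℕ) (I : Finset ℕ) : Finset (ν → ℕ) :=
  (Pool.Agent.H21.NX.Sx ν D).filter fun a => ∀ i ∈ I, ∃ s, β s = i ∧ a s ≠ 0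

theorem mem_Ex {β : ν → ℕ} {D : ℕ} {I : Finset ℕ} {a : ν → ℕ} :
    a ∈ Ex β D I ↔ ∑ s, a s = D ∧ ∀ i ∈ I, ∃ s, β s = i ∧ a s ≠ 0 := by
  unfold Ex
  rw [mem_filter, Pool.Agent.H21.NX.mem_Sx]

/-- The system of the forms of degree `D` which vanish on the `L_i`, `i ∈ I`. -/
noncomputable abbrev LS (d D : ℕ) (β : ν → ℕ) (I : Finset ℕ) :
    Sys {a // a ∈ Ex β D I} (ν × Fin (d + 1)) Kd :=
  LSA d D β I (Ex β D I)

/-- The general dimension. -/
noncomputable def HI (d D : ℕ) (β : ν → ℕ) (I : Finset ℕ) (ms : Multiset Kd) : ℕ :=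
  gM (LS d D β I) ms

end

/-! ### The standard blocks -/

/-- The number of the block of the variable `s`: the blocks have the sizes `c 0, c 1, …`. -/
def bidx (c : ℕ → ℕ) (s : ℕ) : ℕ := ((range (s + 1)).filter fun k => ∑ i ∈ range (k + 1), c i ≤ s).card

/-- The blocks of the sizes `c 0, c 1, …` of `n` variables. -/
def blk (c : ℕ → ℕ) (n : ℕ) (s : Fin n) : ℕ := bidx c s.1

/-- The general dimension on the level `j` in degree `D`. -/
noncomputable def HL (d D : ℕ) (c : ℕ → ℕ) (n j : ℕ) (ms : Multiset Kd) : ℕ :=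
  HI d D (blk c n) (range j) ms

/-! ### Virtual dimensions -/

/-- `(1 - t)^(-N)`. -/
def hs (N : ℕ) : PowerSeries ℤ := PowerSeries.mk fun k => (Nat.multichoose N k : ℤ)

/-- The factor of an object on `L_I'`. -/
noncomputable def Kd.P (I' : Finset ℕ) : Kd → PowerSeries ℤ
  | .ord e A => if I' ⊆ A then 1 - PowerSeries.X ^ e else 1
  | .cl e dl i As => if i ∈ I' then
        (if I'.erase i ⊆ inter As then 1 - PowerSeries.X ^ trx e dl As.length else 1)
      else (As.map fun A => if I' ⊆ A then 1 - PowerSeries.X ^ e else (1 : PowerSeries ℤ)).prod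

/-- The virtual dimension in degree `D` of the forms which vanish on `L_i`, `i ∈ I`. -/
noncomputable def vd (D : ℕ) (I : Finset ℕ) (c : ℕ → ℕ) (n : ℕ) (ms : Multiset Kd) : ℤ :=
  ∑ I' ∈ I.powerset, (-1) ^ I'.card *
    PowerSeries.coeff D ((ms.map (Kd.P I')).prod * hs (n - ∑ i ∈ I', c i))

/-! ### The step from the level `j` to the level `j + 1` -/

/-- The objects of the level `j` whose specialisation is the object of the level `j + 1`. -/
def un (j : ℕ) : Kd → Multiset Kd
  | .ord e A => {.ord e (A.erase j)}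
  | .cl e dl i As => if i = j then ((As.map fun A => Kd.ord e (A.erase j) : List Kd) : Multiset Kd)
      else {.cl e dl i (As.map fun A => A.erase j)}

/-- The trace on `L_j` of the object of the level `j + 1`. -/
def tr (j : ℕ) : Kd → Multiset Kd
  | .ord e A => if j ∈ A then {.ord e (A.erase j)} else 0
  | .cl e dl i As =>
      if i = j then {.ord (trx e dl As.length) (inter As)}
      else if ∀ A ∈ As, j ∈ A then {.cl e dl i (As.map fun A => A.erase j)}
      else (((As.filter fun A => j ∈ A).map fun A => Kd.ord e (A.erase j) : List Kd) : Multiset Kd)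

/-- The kinds of the level `j`. -/
def Kd.Ok (d j : ℕ) : Kd → Prop
  | .ord e A => 1 ≤ e ∧ e ≤ d ∧ A ⊆ range j
  | .cl e dl i As => 2 ≤ e ∧ 1 ≤ As.length ∧ trx e dl As.length ≤ d ∧ i < j ∧
      ∀ A ∈ As, A ⊆ (range j).erase i

/-- The simple points. -/
abbrev sm (d : ℕ) : Kd := .ord d ∅

/-- The points of an object: exponents and sets of the blocks on which they vanish. -/
def Kd.pts : Kd → Multiset (ℕ × Finset ℕ)
  | .ord e A => {(e, A)}
  | .cl e _ _ As => ((As.map fun A => (e, A) : List (ℕ × Finset ℕ)) : Multiset (ℕ × Finset ℕ))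

/-- The number of the points of a configuration with the exponent `e` which vanish on the blocks of `A`
exactly. -/
def npt (ms : Multiset Kd) (e : ℕ) (A : Finset ℕ) : ℕ := (ms.bind Kd.pts).count (e, A)

end Pool.Agent.GD

end
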