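import Pool.Agent.H94.LP7.H18.FatDefs
import Pool.Agent.H94.LP7.M01
import Pool.Agent.H94.LP7.M05

/-! The parts of this file: H21.HD.Defs3, H21.NX.Defs_2, XD.Comb.Growth, XD.Defs_1. -/

section

/-!
Project HD: definitions, part 3 (blocks and labels).
-/

namespace Pool.Agent.H21.HD

/-- The rank of a degree in the order `1, 2, 3, …, 0`. -/
noncomputable def rk0 (a : ℕ) : ℕ∞ := if a = 0 then ⊤ else (a : ℕ∞)

/-- The lexicographic key of a tuple of degrees. -/
noncomputable def key {N : ℕ} (a : Fin N → ℕ) : Lex (Fin N → ℕ∞) := toLex (fun i => rk0 (a i))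

open MvPolynomial
open scoped Classical

section

/-- The variables: `N` blocks of variables indexed by `A`, and the labels `Λ`. -/
abbrev Sg (N : ℕ) (A Λ : Type) : Type := (Fin N × A) ⊕ Λ

variable {N : ℕ} {A Λ : Type} [Fintype A] [Fintype Λ]

/-- The block degrees of an exponent vector. -/
def bdeg (γ : Sg N A Λ →₀ ℕ) : Fin N → ℕ := fun i => ∑ a, γ (Sum.inl (i, a))

/-- The blocks that occur in an exponent vector. -/
noncomputable def bsupp (γ : Sg N A Λ →₀ ℕ) : Finset (Fin N) :=
  Finset.univ.filter (fun i => bdeg γ i ≠ 0)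

/-- The coefficient vector of the linear form of a point. -/
noncomputable def vec (c : Finset (Fin N)) (v : Fin N → A → ℂ) (y : Λ → ℂ) : Sg N A Λ → ℂ :=
  Sum.elim (fun x => if x.1 ∈ c then v x.1 x.2 else 0) y

/-- The number of blocks `i ∈ c` in which `γ` involves no variable except the reference one. -/
noncomputable def pureCount (c : Finset (Fin N)) (ref : Fin N → A) (γ : Sg N A Λ →₀ ℕ) : ℕ :=
  (c.filter (fun i => ∀ a, a ≠ ref i → γ (Sum.inl (i, a)) = 0)).card

/-- The substitution replacing, for `i ∈ c`, the reference variable of the block `i` by the linear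
form `∑ a, v i a * X (i, a)`. -/
noncomputable def sbt (c : Finset (Fin N)) (ref : Fin N → A) (v : Fin N → A → ℂ) :
    MvPolynomial (Sg N A Λ) ℂ →ₐ[ℂ] MvPolynomial (Sg N A Λ) ℂ :=
  aeval (Sum.elim
    (fun x => if x.1 ∈ c ∧ x.2 = ref x.1 then ∑ a, C (v x.1 a) * X (Sum.inl (x.1, a))
      else X (Sum.inl x))
    (fun l => X (Sum.inr l)))

/-- The component of block degrees `a` and label exponents `μ`. -/
noncomputable def comp (a : Fin N → ℕ) (μ : Λ → ℕ) :
    MvPolynomial (Sg N A Λ) ℂ →ₗ[ℂ] MvPolynomial (Sg N A Λ) ℂ :=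
  (basisMonomials (Sg N A Λ) ℂ).constr ℂ
    (fun γ => if bdeg γ = a ∧ (fun l => γ (Sum.inr l)) = μ then monomial γ (1 : ℂ) else 0)

end

section

variable {N : ℕ} {A Λ P : Type} [Fintype A] [Fintype Λ] [Fintype P]

/-- The families `ft` admissible in the column of block degrees `a` and label exponents `μ`. -/
def Adm (c : P → Finset (Fin N)) (lab : P → Λ) (ref : P → Fin N → A) (a : Fin N → ℕ) (μ : Λ → ℕ)
    (ft : P → MvPolynomial (Sg N A Λ) ℂ) : Prop :=
  ∀ p γ, coeff γ (ft p) ≠ 0 → bdeg γ = a ∧ (fun l => γ (Sum.inr l)) = μ ∧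
    (c p).card ≤ μ (lab p) + pureCount (c p) (ref p) γ

/-- Injectivity in a column. -/
def ColInj (c : P → Finset (Fin N)) (lab : P → Λ) (ref : P → Fin N → A) (a : Fin N → ℕ)
    (μ : Λ → ℕ) (v : P → Fin N → A → ℂ) : Prop :=
  ∀ ft : P → MvPolynomial (Sg N A Λ) ℂ, Adm c lab ref a μ ft →
    ∑ p, sbt (c p) (ref p) (v p) (ft p) = 0 → ∀ p, ft p = 0

/-- Injectivity for the set of blocks `J`: the multipliers `g p` involve only exponent vectors
`γ` with `bsupp γ ∪ c p = J`, and only the coefficients of the exponent vectors whose set of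
blocks is exactly `J` are required to vanish. -/
def PhiInj (d : ℕ) (J : Finset (Fin N)) (c : P → Finset (Fin N)) (v : P → Fin N → A → ℂ)
    (y : P → Λ → ℂ) : Prop :=
  ∀ g : P → MvPolynomial (Sg N A Λ) ℂ, (∀ p, (g p).IsHomogeneous (d - (c p).card)) →
    (∀ p γ, coeff γ (g p) ≠ 0 → bsupp γ ∪ c p = J) →
    (∀ γ, bsupp γ = J → coeff γ (∑ p, g p * lin (vec (c p) (v p) (y p)) ^ (c p).card) = 0) →
    ∀ p, g p = 0

end

/-- The coefficient vector of the linear form of a point: block variables only. -/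
noncomputable def vecB {N : ℕ} {A : Type} (c : Finset (Fin N)) (v : Fin N → A → ℂ) :
    Fin N × A → ℂ := fun x => if x.1 ∈ c then v x.1 x.2 else 0

/-- The degree in a block. -/
def bdegB {N : ℕ} {A : Type} [Fintype A] (γ : Fin N × A →₀ ℕ) (i : Fin N) : ℕ :=
  ∑ a, γ (i, a)

end Pool.Agent.H21.HD

end

section

/-!
# Project NX: exactness in high dimension, definitions

`ell n m = binom(m + n - 1, n)` is the length of a point of multiplicity `m` in dimension `n`.
Forms of degree `σ` in `s + 2` variables (dimension `s + 1`): `ell (s + 1) (σ + 1)` exponents;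
the exponents with `a l = 0` (dimension `s`): `ell s (σ + 1)`.
-/

namespace Pool.Agent.H21.NX

open Finset MvPolynomial Pool.Agent.H18.Fat

/-- The dimension of `V_d(Γ)` for general points. -/
noncomputable def gdim (r d : ℕ) {κ : Type} (m : κ → ℕ) : ℕ :=
  sInf (Set.range fun p : κ → Fin (r + 1) → ℂ => Module.finrank ℂ (fatForms r d p m))

end Pool.Agent.H21.NX

end

section

/-!
# XD, module C2: the growth of the sets `UU`

`UU N m d j`: the `v ∈ N` of degree `j` in the variables `< m - 1` with `v y_{m-1}^{d-j} ∉ N`.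
`UU_dn`, `UU_up`: if `w ∈ N` and `a ∈ w`, `a < b < m` then the move `a → b` stays in `N` (`Stair.up`);
use the contrapositive.  `growth`: the elements `l ::ₘ v`, `v ∈ UU N m d j` in the variables `≤ l`,
`τ (j + 1) ≤ l < m - 1`, are in `UU N m d (j + 1)` (`push`, `UU_up`), pairwise different, and
`density` with `i = m - 1`, `i' = l + 1` bounds their number;
`∑_{τ (j + 1) ≤ l < m - 1} f (l + 1) j = f (m - 1) (j + 1) - f (τ (j + 1)) (j + 1) ≥ (1 - ε) f (m - 1) (j + 1)`.
-/

set_option autoImplicit false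

namespace Pool.Agent.XD

open Finset

/-- The `v ∈ N` of degree `j` in the variables `< m - 1` with `v y_{m-1}^{d-j} ∉ N`. -/
def UU (N : Finset (Multiset ℕ)) (m d j : ℕ) : Finset (Multiset ℕ) :=
  (lay N (m - 1) j).filter fun v => v + Multiset.replicate (d - j) (m - 1) ∉ N

variable {m d : ℕ} {N : Finset (Multiset ℕ)} {f : ℕ → ℕ → ℕ} {τ : ℕ → ℕ} {ε : ℝ}

theorem mem_UU {j : ℕ} {v : Multiset ℕ} : v ∈ UU N m d j ↔
    (v ∈ N ∧ Multiset.card v = j ∧ ∀ x ∈ v, x < m - 1) ∧
      v + Multiset.replicate (d - j) (m - 1) ∉ N := by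
  unfold UU
  rw [mem_filter, mem_lay]

theorem UU_up (hN : Stair m d N f) {j i : ℕ} (hj : j + 1 < d) {v : Multiset ℕ}
    (hv : v ∈ UU N m d j) (hi : i < m - 1) (hiv : i ::ₘ v ∈ N) : i ::ₘ v ∈ UU N m d (j + 1) := by
  rw [mem_UU] at hv ⊢
  obtain ⟨⟨hv1, hv2, hv3⟩, hv4⟩ := hv
  refine ⟨⟨hiv, ?_, ?_⟩, fun h => hv4 ?_⟩
  · rw [Multiset.card_cons, hv2]
  · intro x hx
    rcases Multiset.mem_cons.1 hx with rfl | hx
    · exact hi
    · exact hv3 x hx
  · have h1 := hN.up _ h i (by simp) (m - 1) hi (by omega)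
    rw [Multiset.cons_add, Multiset.erase_cons_head] at h1
    have h2 : d - j = (d - (j + 1)) + 1 := by omega
    rw [h2, Multiset.replicate_succ, Multiset.add_cons]
    exact h1

theorem sum_recu (hT : Thr m d f τ ε) {j : ℕ} (hj : j + 1 < d) (b : ℕ)
    (hb : τ (j + 1) ≤ b) (hbm : b ≤ m) :
    f b (j + 1) = f (τ (j + 1)) (j + 1) + ∑ l ∈ Ico (τ (j + 1)) b, f (l + 1) j := by
  induction b, hb using Nat.le_induction with
  | base => simp
  | succ b hb ih =>
    rw [sum_Ico_succ_top hb, ← add_assoc, ← ih (by omega), hT.recu j hj b hb (by omega)]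

end Pool.Agent.XD

end

section

/-!
# Project XD: the exact dimension off the layer, any number of large points (definitions)

Exponents `e t ≥ 1` (`t = 0, 1, …`), `m` variables, degree `j`:

* `A e m t j` is the coefficient of `t^j` in `∏_{i < t} (1 - t^{e i}) / (1 - t)^m`;
* `FF e m t j` is the dimension of the degree `j` part of `ℂ[x_1..x_m]/(L_s^{e s}, s < t)`, general `L_s`;
* monomials are multisets of indices of variables `0, …, m - 1`; `lay N i j` are the monomials of
  degree `j` of `N` in the variables `< i`;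
* `Stair m d N f`: `N` is closed under divisors and under the moves `a → b`, `a < b < m`, and has
  `f i j` elements of degree `j ≤ d` in the variables `< i`, `i ≤ m`;
* `Sys d e F`: what the algebra gives for `F = FF e`.
-/

set_option autoImplicit false

namespace Pool.Agent.XD

open Finset Pool.Agent.H21.NX

/-! ### Numbers -/

/-- The coefficient of `t^j` in `∏_{i < t} (1 - t^{e i}) / (1 - t)^m`. -/
def A (e : ℕ → ℕ) (m : ℕ) : ℕ → ℕ → ℤ
  | 0, j => (Nat.multichoose m j : ℤ)
  | t + 1, j => A e m t j - if e t ≤ j then A e m t (j - e t) else 0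

/-! ### Combinatorics -/

/-- The number of `v ∈ N` of degree `d - e` with `v y_{m-1}^e ∉ N`. -/
def kk (N : Finset (Multiset ℕ)) (m d e : ℕ) : ℕ :=
  ((lay N m (d - e)).filter fun v => v + Multiset.replicate e (m - 1) ∉ N).card

/-- What the algebra gives for the dimensions `F m t j` (`m` variables, the powers `i < t`,
degree `j ≤ d`). -/
structure Sys (d : ℕ) (e : ℕ → ℕ) (F : ℕ → ℕ → ℕ → ℕ) : Prop where
  zero : ∀ m j, j ≤ d → F m 0 j = Nat.multichoose m j
  stair : ∀ m t, 1 ≤ m → ∃ N : Finset (Multiset ℕ), Stair m d N (fun i j => F i t j) ∧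
    ∀ j ≤ d, F m (t + 1) j = ((lay N m j).filter fun v => v.count (m - 1) < e t).card

/-- Exactness in degree `d` if all `A e m t j ≥ η n^j`, `j ≤ d`, for `n ≥ n₀`. -/
def Exact (d : ℕ) (η : ℝ) (n₀ : ℕ) : Prop :=
  ∀ n, n₀ ≤ n → ∀ (e : ℕ → ℕ) (F : ℕ → ℕ → ℕ → ℕ), (∀ t, 2 ≤ e t) → Sys d e F →
    ∀ m t, m ≤ n → (∀ j ≤ d, η * (n : ℝ) ^ j ≤ (A e m t j : ℝ)) → (F m t d : ℤ) = A e m t d

/-- The dimension of the forms of degree `j` in `m` variables which vanish to the order `j + 1 - e s` at
the general points `s < t`; i.e. of the degree `j` part of `ℂ[x_1..x_m]/(L_s^{e s}, s < t)`. -/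
noncomputable def FF (e : ℕ → ℕ) (m t j : ℕ) : ℕ :=
  match m with
  | 0 => if j = 0 then 1 else 0
  | m + 1 => gdim m j (fun s : Fin t => j + 1 - e s)

end Pool.Agent.XD

end
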