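import Pool.Agent.H94.LP7.M01
import Pool.Agent.H94.LP7.M05

/-! The parts of this file: H21.HD.FroA, H21.HD.Open, H21.NX.GenA. -/

section

/-!
Recursions for fro.
-/

namespace Pool.Agent.H21.HD

open scoped Classical

/-- Adding a point. -/
theorem fro_insert {P : Type} (r : ℕ) (e : P → ℕ) (I : Finset P) (i : P) (hi : i ∉ I) (j : ℕ) :
    fro r e (insert i I) j = fro r e I j - (if e i ≤ j then fro r e I (j - e i) else 0) := by
  unfold fro
  rw [Finset.sum_powerset_insert hi, sub_eq_add_neg]
  congr 1
  by_cases hij : e i ≤ j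
  · rw [if_pos hij, ← Finset.sum_neg_distrib]
    refine Finset.sum_congr rfl fun T hT => ?_
    have hiT : i ∉ T := fun h => hi (Finset.mem_powerset.1 hT h)
    rw [Finset.card_insert_of_notMem hiT, Finset.sum_insert hiT, pow_succ]
    by_cases h2 : ∑ x ∈ T, e x ≤ j - e i
    · have h3 : e i + ∑ x ∈ T, e x ≤ j := by omega
      rw [if_pos h2, if_pos h3]
      have h4 : r + j - (e i + ∑ x ∈ T, e x) = r + (j - e i) - ∑ x ∈ T, e x := by omega
      rw [h4]
      ring
    · have h3 : ¬ (e i + ∑ x ∈ T, e x ≤ j) := by omega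
      rw [if_neg h2, if_neg h3]
      ring
  · rw [if_neg hij, neg_zero]
    refine Finset.sum_eq_zero fun T hT => ?_
    have hiT : i ∉ T := fun h => hi (Finset.mem_powerset.1 hT h)
    rw [Finset.sum_insert hiT, if_neg (by omega), mul_zero]

namespace FroAX

theorem fro_empty {P : Type} (r : ℕ) (e : P → ℕ) (j : ℕ) :
    fro r e (∅ : Finset P) j = ((r + j).choose r : ℤ) := by
  simp [fro]

/-- Hockey stick. -/
theorem hockey (r j : ℕ) :
    ∑ t ∈ Finset.range j, ((r + (j - 1 - t)).choose r : ℤ) = ((r + j).choose (r + 1) : ℤ) := by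
  rw [Finset.sum_range_reflect (fun i => ((r + i).choose r : ℤ)) j]
  induction j with
  | zero => simp
  | succ n ih =>
    rw [Finset.sum_range_succ, ih]
    have := Nat.choose_succ_succ (r + n) r
    push_cast [← Nat.add_assoc] at this ⊢
    rw [Nat.succ_eq_add_one] at this
    rw [this]
    push_cast
    ring

theorem base (r j : ℕ) :
    (j : ℤ) * ((r + j).choose r : ℤ) = ((r : ℤ) + 1) *
      ∑ t ∈ Finset.range j, ((r + (j - 1 - t)).choose r : ℤ) := by
  rw [hockey]
  have h := Nat.choose_succ_right_eq (r + j) r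
  have h2 : r + j - r = j := by omega
  rw [h2] at h
  have h3 : (((r + j).choose (r + 1) * (r + 1) : ℕ) : ℤ) = (((r + j).choose r * j : ℕ) : ℤ) := by
    rw [h]
  push_cast at h3
  linarith

/-- Telescoping over the multiples of `c`. -/
theorem tele (c : ℕ) (hc : 1 ≤ c) (F : ℕ → ℤ) (j : ℕ) :
    ∑ t ∈ Finset.range j, (if c ∣ t + 1 then
      (F (j - 1 - t) - (if c ≤ j - 1 - t then F (j - 1 - t - c) else 0)) else 0) =
      if c ≤ j then F (j - c) else 0 := by
  induction j using Nat.strong_induction_on with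
  | _ j ih =>
    by_cases hcj : c ≤ j
    · obtain ⟨m, rfl⟩ := Nat.exists_eq_add_of_le hcj
      rw [if_pos hcj, Finset.sum_range_add]
      have h1 : ∑ x ∈ Finset.range c, (if c ∣ x + 1 then
          (F (c + m - 1 - x) - (if c ≤ c + m - 1 - x then F (c + m - 1 - x - c) else 0)) else 0)
          = F m - (if c ≤ m then F (m - c) else 0) := by
        rw [Finset.sum_eq_single (c - 1)]
        · have h2 : c - 1 + 1 = c := by omega
          have h3 : c + m - 1 - (c - 1) = m := by omega
          rw [h2, if_pos (dvd_refl c), h3]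
        · intro b hb hbc
          have hb' := Finset.mem_range.1 hb
          rw [if_neg]
          intro hd
          have := Nat.le_of_dvd (Nat.succ_pos b) hd
          omega
        · intro h
          exact absurd (Finset.mem_range.2 (by omega)) h
      rw [h1]
      have h4 : ∑ x ∈ Finset.range m, (if c ∣ c + x + 1 then
          (F (c + m - 1 - (c + x)) - (if c ≤ c + m - 1 - (c + x) then
            F (c + m - 1 - (c + x) - c) else 0)) else 0)
          = if c ≤ m then F (m - c) else 0 := by
        rw [← ih m (by omega)]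
        refine Finset.sum_congr rfl fun x hx => ?_
        have h5 : c + m - 1 - (c + x) = m - 1 - x := by omega
        have h6 : (c ∣ c + x + 1) ↔ (c ∣ x + 1) := by
          rw [Nat.add_assoc]
          exact Nat.dvd_add_right (dvd_refl c)
        rw [h5]
        simp only [h6]
      rw [h4]
      have h7 : c + m - c = m := by omega
      rw [h7]
      ring
    · rw [if_neg hcj]
      refine Finset.sum_eq_zero fun t ht => ?_
      have ht' := Finset.mem_range.1 ht
      rw [if_neg]
      intro hd
      have := Nat.le_of_dvd (Nat.succ_pos t) hd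
      omega

end FroAX

/-- The logarithmic derivative recursion. -/
theorem fro_rec {P : Type} (r : ℕ) (e : P → ℕ) (I : Finset P) (he : ∀ i ∈ I, 1 ≤ e i) (j : ℕ) :
    (j : ℤ) * fro r e I j = ∑ t ∈ Finset.range j,
      (((r : ℤ) + 1) - ∑ i ∈ I.filter (fun i => e i ∣ t + 1), (e i : ℤ)) *
        fro r e I (j - 1 - t) := by
  induction I using Finset.induction_on generalizing j with
  | empty =>
    simp only [FroAX.fro_empty, Finset.filter_empty, Finset.sum_empty, sub_zero]
    rw [FroAX.base, Finset.mul_sum]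
  | insert a s ha ih =>
    have he' : ∀ i ∈ s, 1 ≤ e i := fun i hi => he i (Finset.mem_insert_of_mem hi)
    have hea : 1 ≤ e a := he a (Finset.mem_insert_self a s)
    have ih' := ih he'
    set L : ℕ → ℤ := fun t => (((r : ℤ) + 1) - ∑ i ∈ s.filter (fun i => e i ∣ t + 1), (e i : ℤ))
      with hL
    have hfil : ∀ t, (((r : ℤ) + 1) - ∑ i ∈ (insert a s).filter (fun i => e i ∣ t + 1),
        (e i : ℤ)) = L t - (if e a ∣ t + 1 then (e a : ℤ) else 0) := by
      intro t
      rw [Finset.filter_insert]
      by_cases hd : e a ∣ t + 1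
      · rw [if_pos hd, if_pos hd, Finset.sum_insert]
        · simp only [hL]
          ring
        · intro h
          exact ha (Finset.mem_filter.1 h).1
      · rw [if_neg hd, if_neg hd, sub_zero]
    have hins : ∀ j, fro r e (insert a s) j =
        fro r e s j - (if e a ≤ j then fro r e s (j - e a) else 0) :=
      fun j => fro_insert r e s a ha j
    have hsum : ∑ t ∈ Finset.range j,
        (((r : ℤ) + 1) - ∑ i ∈ (insert a s).filter (fun i => e i ∣ t + 1), (e i : ℤ)) *
          fro r e (insert a s) (j - 1 - t) =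
        ∑ t ∈ Finset.range j, L t * fro r e s (j - 1 - t) -
        ∑ t ∈ Finset.range j, L t * (if e a ≤ j - 1 - t then fro r e s (j - 1 - t - e a) else 0) -
        (e a : ℤ) * ∑ t ∈ Finset.range j, (if e a ∣ t + 1 then
          (fro r e s (j - 1 - t) - (if e a ≤ j - 1 - t then fro r e s (j - 1 - t - e a) else 0))
            else 0) := by
      rw [Finset.mul_sum, ← Finset.sum_sub_distrib, ← Finset.sum_sub_distrib]
      refine Finset.sum_congr rfl fun t _ => ?_
      rw [hfil, hins]
      by_cases hd : e a ∣ t + 1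
      · rw [if_pos hd, if_pos hd]
        ring
      · rw [if_neg hd, if_neg hd]
        ring
    rw [hsum, FroAX.tele (e a) hea, ← ih' j, hins]
    have hmid : ∑ t ∈ Finset.range j,
        L t * (if e a ≤ j - 1 - t then fro r e s (j - 1 - t - e a) else 0) =
        if e a ≤ j then ((j - e a : ℕ) : ℤ) * fro r e s (j - e a) else 0 := by
      by_cases haj : e a ≤ j
      · rw [if_pos haj, ih' (j - e a)]
        obtain ⟨m, rfl⟩ := Nat.exists_eq_add_of_le haj
        have h7 : e a + m - e a = m := by omega
        rw [h7, Nat.add_comm (e a) m, Finset.sum_range_add]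
        have h8 : ∑ x ∈ Finset.range (e a), L (m + x) * (if e a ≤ m + e a - 1 - (m + x) then
            fro r e s (m + e a - 1 - (m + x) - e a) else 0) = 0 := by
          refine Finset.sum_eq_zero fun x hx => ?_
          rw [if_neg (by omega), mul_zero]
        rw [h8, add_zero]
        refine Finset.sum_congr rfl fun t ht => ?_
        have ht' := Finset.mem_range.1 ht
        have h9 : e a ≤ m + e a - 1 - t := by omega
        have h10 : m + e a - 1 - t - e a = m - 1 - t := by omega
        rw [if_pos h9, h10]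
      · rw [if_neg haj]
        refine Finset.sum_eq_zero fun t ht => ?_
        have ht' := Finset.mem_range.1 ht
        rw [if_neg (by omega), mul_zero]
    rw [hmid]
    by_cases haj : e a ≤ j
    · rw [if_pos haj, if_pos haj, Nat.cast_sub haj]
      ring
    · rw [if_neg haj, if_neg haj]
      ring

end Pool.Agent.H21.HD

end

section

/-!
Openness of injectivity and surjectivity.
-/

namespace Pool.Agent.H21.HD

open MvPolynomial

/-- The determinant of a matrix of polynomial functions. -/
theorem OpenX.det_poly {σ n : Type*} [Fintype n] [DecidableEq n] (M : (σ → ℂ) → Matrix n n ℂ)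
    (hM : ∀ i j, PolyFun (fun x => M x i j)) :
    ∃ G : MvPolynomial σ ℂ, ∀ x, eval x G = (M x).det := by
  choose N hN using hM
  refine ⟨(Matrix.of fun i j => N i j).det, fun x => ?_⟩
  rw [RingHom.map_det]
  congr 1
  ext i j
  simp only [RingHom.mapMatrix_apply, Matrix.map_apply, Matrix.of_apply]
  exact (hN i j x).symm

/-- Injectivity is an open condition in a polynomial family of linear maps. -/
theorem open_inj {σ V Y : Type*} [Finite Y] [AddCommGroup V] [Module ℂ V]
    [FiniteDimensional ℂ V] (T : (σ → ℂ) → V →ₗ[ℂ] (Y → ℂ))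
    (hT : ∀ v y, PolyFun (fun x => T x v y)) (x₀ : σ → ℂ)
    (h : Function.Injective (T x₀)) :
    ∃ G : MvPolynomial σ ℂ, eval x₀ G ≠ 0 ∧ ∀ x, eval x G ≠ 0 → Function.Injective (T x) := by
  classical
  cases nonempty_fintype Y
  obtain ⟨B, hB⟩ := LinearMap.exists_leftInverse_of_injective (T x₀) (LinearMap.ker_eq_bot.mpr h)
  let b := Module.finBasis ℂ V
  obtain ⟨G, hG⟩ := OpenX.det_poly (fun x => LinearMap.toMatrix b b (B ∘ₗ T x)) (by
    intro i j
    have h1 : (fun x => LinearMap.toMatrix b b (B ∘ₗ T x) i j) =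
        fun x => ∑ y : Y, T x (b j) y * b.repr (B (Pi.single y 1)) i := by
      funext x
      rw [LinearMap.toMatrix_apply, LinearMap.comp_apply]
      have h2 : T x (b j) = ∑ y : Y, T x (b j) y • (Pi.single y (1 : ℂ) : Y → ℂ) := by
        ext z
        simp [Finset.sum_apply, Pi.single_apply]
      conv_lhs => rw [h2]
      simp only [map_sum, map_smul, Finsupp.coe_finsetSum, Finset.sum_apply,
        Finsupp.coe_smul, Pi.smul_apply, smul_eq_mul]
    rw [h1]
    exact PolyFun.sum _ _ fun y _ => (hT (b j) y).mul (PolyFun.const _))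
  refine ⟨G, ?_, fun x hx => ?_⟩
  · rw [hG, hB, LinearMap.toMatrix_id, Matrix.det_one]
    exact one_ne_zero
  · rw [hG, LinearMap.det_toMatrix] at hx
    have h3 : Function.Injective (B ∘ₗ T x) := by
      have h4 := (LinearMap.equivOfDetNeZero _ hx).injective
      exact h4
    intro u v huv
    apply h3
    simp only [LinearMap.comp_apply, huv]

/-- Surjectivity is an open condition in a polynomial family of linear maps. -/
theorem open_surj {σ V Y : Type*} [Finite Y] [AddCommGroup V] [Module ℂ V]
    [FiniteDimensional ℂ V] (T : (σ → ℂ) → V →ₗ[ℂ] (Y → ℂ))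
    (hT : ∀ v y, PolyFun (fun x => T x v y)) (x₀ : σ → ℂ)
    (h : Function.Surjective (T x₀)) :
    ∃ G : MvPolynomial σ ℂ, eval x₀ G ≠ 0 ∧ ∀ x, eval x G ≠ 0 → Function.Surjective (T x) := by
  classical
  cases nonempty_fintype Y
  obtain ⟨B, hB⟩ := LinearMap.exists_rightInverse_of_surjective (T x₀)
    (LinearMap.range_eq_top.mpr h)
  obtain ⟨G, hG⟩ := OpenX.det_poly (fun x => LinearMap.toMatrix (Pi.basisFun ℂ Y)
    (Pi.basisFun ℂ Y) (T x ∘ₗ B)) (by
    intro i j
    have h1 : (fun x => LinearMap.toMatrix (Pi.basisFun ℂ Y) (Pi.basisFun ℂ Y) (T x ∘ₗ B) i j) =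
        fun x => T x (B (Pi.single j 1)) i := by
      funext x
      rw [LinearMap.toMatrix_apply, LinearMap.comp_apply, Pi.basisFun_apply, Pi.basisFun_repr]
    rw [h1]
    exact hT _ _)
  refine ⟨G, ?_, fun x hx => ?_⟩
  · rw [hG, hB, LinearMap.toMatrix_id, Matrix.det_one]
    exact one_ne_zero
  · rw [hG, LinearMap.det_toMatrix] at hx
    intro z
    obtain ⟨w, hw⟩ := (LinearMap.equivOfDetNeZero _ hx).surjective z
    exact ⟨B w, hw⟩

end Pool.Agent.H21.HD

end

section

/-!
# Module GenA: general points for finite index types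

`Gen` is the analogue of `ForGeneralPoints` (file `H18/FatToric`: `ForGeneralPoints.mono`, `.and`,
`.coord_ne_zero`) for an arbitrary index type.
-/

namespace Pool.Agent.H21.NX

open Finset MvPolynomial

theorem Gen.mono {r : ℕ} {κ : Type} {P Q : (κ → Fin (r + 1) → ℂ) → Prop}
    (h : Gen r κ P) (hPQ : ∀ p, P p → Q p) : Gen r κ Q := by
  obtain ⟨G, hG, h⟩ := h
  exact ⟨G, hG, fun p hp => hPQ p (h p hp)⟩

theorem Gen.and {r : ℕ} {κ : Type} {P Q : (κ → Fin (r + 1) → ℂ) → Prop}
    (h : Gen r κ P) (h' : Gen r κ Q) : Gen r κ fun p => P p ∧ Q p := by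
  obtain ⟨G, hG, h⟩ := h
  obtain ⟨G', hG', h'⟩ := h'
  refine ⟨G * G', mul_ne_zero hG hG', fun p hp => ?_⟩
  rw [map_mul] at hp
  exact ⟨h p (left_ne_zero_of_mul hp), h' p (right_ne_zero_of_mul hp)⟩

/-- A nonzero polynomial over `ℂ` has a non-root (`MvPolynomial.funext`). -/
theorem Gen.exists {r : ℕ} {κ : Type} {P : (κ → Fin (r + 1) → ℂ) → Prop}
    (h : Gen r κ P) : ∃ p, P p := by
  obtain ⟨G, hG, h⟩ := h
  by_contra hcon
  push Not at hcon
  apply hG
  apply MvPolynomial.funext
  intro x
  rw [map_zero]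
  by_contra hx
  exact hcon (fun i j => x (i, j)) (h (fun i j => x (i, j)) hx)

theorem Gen.all {r : ℕ} {κ α : Type} (s : Finset α) {P : α → (κ → Fin (r + 1) → ℂ) → Prop}
    (h : ∀ a ∈ s, Gen r κ (P a)) : Gen r κ fun p => ∀ a ∈ s, P a p := by
  classical
  induction s using Finset.induction_on with
  | empty => exact ⟨1, one_ne_zero, fun p _ a ha => absurd ha (Finset.notMem_empty a)⟩
  | insert a s has ih =>
    have h1 := h a (Finset.mem_insert_self a s)
    have h2 := ih fun b hb => h b (Finset.mem_insert_of_mem hb)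
    refine (h1.and h2).mono fun p hp b hb => ?_
    rcases Finset.mem_insert.mp hb with rfl | hb
    · exact hp.1
    · exact hp.2 b hb

/-- Use `MvPolynomial.rename` with the injective map `(i, j) ↦ (φ i, j)`. -/
theorem Gen.comap {r : ℕ} {κ κ' : Type} (φ : κ' → κ) (hφ : Function.Injective φ)
    {P : (κ' → Fin (r + 1) → ℂ) → Prop} (h : Gen r κ' P) :
    Gen r κ fun p => P fun i => p (φ i) := by
  obtain ⟨G, hG, h⟩ := h
  have hinj : Function.Injective (fun x : κ' × Fin (r + 1) => (φ x.1, x.2)) := by
    intro x y hxy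
    have h1 := congrArg Prod.fst hxy
    have h2 := congrArg Prod.snd hxy
    exact Prod.ext (hφ h1) h2
  refine ⟨rename (fun x : κ' × Fin (r + 1) => (φ x.1, x.2)) G, ?_, fun p hp => ?_⟩
  · intro h0
    apply hG
    apply rename_injective _ hinj
    rw [h0, map_zero]
  · apply h
    rw [eval_rename] at hp
    exact hp

theorem Gen.coord_ne_zero (r : ℕ) (κ : Type) [Fintype κ] :
    Gen r κ fun p => ∀ i j, p i j ≠ 0 := by
  refine ⟨∏ x : κ × Fin (r + 1), X x, ?_, fun p hp i j => ?_⟩
  · rw [Finset.prod_ne_zero_iff]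
    intro x _
    exact X_ne_zero x
  · rw [map_prod, Finset.prod_ne_zero_iff] at hp
    have := hp (i, j) (Finset.mem_univ _)
    rwa [eval_X] at this

end Pool.Agent.H21.NX

end
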