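import Pool.Agent.H94.LP7.H18.FatBasic
import Pool.Agent.H94.LP7.M02
import Pool.Agent.H94.LP7.M06
import Pool.Agent.H94.LP7.M20

/-! The parts of this file: H18.FatToric, H21.HD.FroB, H21.HD.PhiIndep, H21.HD.PhiOpen, GD.NM.Eul. -/

section

namespace Pool.Agent.H18.Fat

open MvPolynomial Finset

/-! ### General points -/

theorem ForGeneralPoints.mono {r k : ℕ} {P Q : (Fin k → Fin (r + 1) → ℂ) → Prop}
    (h : ForGeneralPoints r k P) (hPQ : ∀ p, P p → Q p) : ForGeneralPoints r k Q := by
  obtain ⟨G, hG, hG'⟩ := h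
  exact ⟨G, hG, fun p hp => hPQ p (hG' p hp)⟩

theorem ForGeneralPoints.and {r k : ℕ} {P Q : (Fin k → Fin (r + 1) → ℂ) → Prop}
    (h : ForGeneralPoints r k P) (h' : ForGeneralPoints r k Q) :
    ForGeneralPoints r k fun p => P p ∧ Q p := by
  obtain ⟨G, hG, hG'⟩ := h
  obtain ⟨H, hH, hH'⟩ := h'
  refine ⟨G * H, mul_ne_zero hG hH, fun p hp => ?_⟩
  rw [map_mul] at hp
  exact ⟨hG' p (left_ne_zero_of_mul hp), hH' p (right_ne_zero_of_mul hp)⟩

theorem ForGeneralPoints.coord_ne_zero (r k : ℕ) :
    ForGeneralPoints r k fun p => ∀ i j, p i j ≠ 0 := by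
  classical
  refine ⟨∏ x : Fin k × Fin (r + 1), X x, ?_, ?_⟩
  · exact prod_ne_zero_iff.2 fun x _ => X_ne_zero x
  · intro p hp i j
    rw [map_prod] at hp
    have := prod_ne_zero_iff.1 hp (i, j) (mem_univ _)
    simpa using this

/-! ### Semicontinuity of the dimension -/

/-- All exponent vectors of degree smaller than `m`. -/
noncomputable def full (n m : ℕ) : Finset (Fin n →₀ ℕ) := by
  classical
  exact (range m).biUnion fun t => mons n t

theorem mem_full {n m : ℕ} {β : Fin n →₀ ℕ} : β ∈ full n m ↔ β.degree < m := by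
  classical
  unfold full
  rw [mem_biUnion]
  constructor
  · rintro ⟨t, ht, hβ⟩
    rw [mem_mons] at hβ
    rw [hβ]
    exact mem_range.1 ht
  · intro h
    exact ⟨_, mem_range.2 h, mem_mons.2 rfl⟩

/-- All linear conditions. -/
noncomputable def fullMat (r d : ℕ) {k : ℕ} (p : Fin k → Fin (r + 1) → ℂ) (m : Fin k → ℕ) :
    Matrix (Σ i : Fin k, {β // β ∈ full (r + 1) (m i)}) (mons (r + 1) d) ℂ :=
  fun x α => tc (p x.1) α.1 x.2.1

noncomputable def genFullMat (r d : ℕ) {k : ℕ} (m : Fin k → ℕ) :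
    Matrix (Σ i : Fin k, {β // β ∈ full (r + 1) (m i)}) (mons (r + 1) d)
      (MvPolynomial (Fin k × Fin (r + 1)) ℂ) :=
  fun x α => ∏ j, (C ((α.1 j).choose (x.2.1 j) : ℂ) * X (x.1, j) ^ (α.1 j - x.2.1 j))

theorem genFullMat_map {r d k : ℕ} (m : Fin k → ℕ) (p : Fin k → Fin (r + 1) → ℂ) :
    (genFullMat r d m).map (eval fun x : Fin k × Fin (r + 1) => p x.1 x.2) =
      fullMat r d p m := by
  ext x α
  simp [genFullMat, fullMat, tc]

theorem toPoly_mem_fatForms_full {r d k : ℕ} (p : Fin k → Fin (r + 1) → ℂ)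
    (m : Fin k → ℕ) (f : mons (r + 1) d → ℂ) :
    toPoly (r + 1) d f ∈ fatForms r d p m ↔ (fullMat r d p m).mulVec f = 0 := by
  constructor
  · intro h
    funext x
    have h1 := h.2 x.1 x.2.1 (mem_full.1 x.2.2)
    rw [coeff_shift_toPoly] at h1
    rw [Pi.zero_apply, ← h1]
    unfold Matrix.mulVec dotProduct fullMat
    exact sum_congr rfl fun α _ => mul_comm _ _
  · intro h
    refine ⟨toPoly_isHomogeneous f, fun i β hdeg => ?_⟩
    have h1 := congrFun h ⟨i, β, mem_full.2 hdeg⟩
    rw [coeff_shift_toPoly]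
    rw [Pi.zero_apply] at h1
    rw [← h1]
    unfold Matrix.mulVec dotProduct fullMat
    exact sum_congr rfl fun α _ => mul_comm _ _

theorem rank_full_add_finrank {r d k : ℕ} (p : Fin k → Fin (r + 1) → ℂ) (m : Fin k → ℕ) :
    Module.finrank ℂ (LinearMap.range (fullMat r d p m).mulVecLin) +
      Module.finrank ℂ (fatForms r d p m) = (d + r).choose r := by
  have h1 : fatForms r d p m = Submodule.map (toPoly (r + 1) d)
      (LinearMap.ker (fullMat r d p m).mulVecLin) := by
    ext F
    constructor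
    · intro h
      refine ⟨fun α => coeff α.1 F, ?_, exists_toPoly h.1⟩
      rw [SetLike.mem_coe, LinearMap.mem_ker, Matrix.mulVecLin_apply]
      rw [← toPoly_mem_fatForms_full, exists_toPoly h.1]
      exact h
    · rintro ⟨f, hf, rfl⟩
      rw [SetLike.mem_coe, LinearMap.mem_ker, Matrix.mulVecLin_apply] at hf
      exact (toPoly_mem_fatForms_full p m f).2 hf
  rw [h1, ← (Submodule.equivMapOfInjective _ (toPoly_injective _ _) _).finrank_eq,
    LinearMap.finrank_range_add_finrank_ker, Module.finrank_fintype_fun_eq_card,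
    Fintype.card_coe, card_mons]

/-! ### Further points impose at most their length -/

/-! ### Linear changes of coordinates -/

/-- `F(Ax)`. -/
noncomputable def linSubst {n : ℕ} (A : Matrix (Fin n) (Fin n) ℂ) :
    MvPolynomial (Fin n) ℂ →ₐ[ℂ] MvPolynomial (Fin n) ℂ :=
  aeval fun i => ∑ j, C (A i j) * X j

theorem linSubst_comp {n : ℕ} (A B : Matrix (Fin n) (Fin n) ℂ) (F : MvPolynomial (Fin n) ℂ) :
    linSubst B (linSubst A F) = linSubst (A * B) F := by
  have h : (linSubst B).comp (linSubst A) = linSubst (A * B) := by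
    apply algHom_ext
    intro i
    simp only [linSubst, AlgHom.comp_apply, aeval_X, map_sum, map_mul, aeval_C, algebraMap_eq,
      Matrix.mul_apply]
    simp_rw [mul_sum]
    rw [sum_comm]
    refine sum_congr rfl fun j _ => ?_
    rw [sum_mul]
    exact sum_congr rfl fun l _ => by ring
  exact DFunLike.congr_fun h F

theorem linSubst_one {n : ℕ} (F : MvPolynomial (Fin n) ℂ) : linSubst 1 F = F := by
  have h : linSubst (1 : Matrix (Fin n) (Fin n) ℂ) = AlgHom.id ℂ _ := by
    apply algHom_ext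
    intro i
    simp only [linSubst, aeval_X, AlgHom.id_apply, Matrix.one_apply]
    rw [sum_eq_single i]
    · simp
    · intro j _ hj
      simp [Ne.symm hj]
    · intro h
      exact absurd (mem_univ i) h
  rw [h]
  rfl

theorem linSubst_shift {n : ℕ} (A : Matrix (Fin n) (Fin n) ℂ) (q : Fin n → ℂ)
    (F : MvPolynomial (Fin n) ℂ) :
    shift q (linSubst A F) = linSubst A (shift (A.mulVec q) F) := by
  have h : (aeval (fun j => X j + C (q j)) :
      MvPolynomial (Fin n) ℂ →ₐ[ℂ] MvPolynomial (Fin n) ℂ).comp (linSubst A) =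
      (linSubst A).comp (aeval (fun j => X j + C (A.mulVec q j))) := by
    apply algHom_ext
    intro i
    simp only [linSubst, AlgHom.comp_apply, aeval_X, map_sum, map_mul, aeval_C, algebraMap_eq,
      map_add, mul_add, sum_add_distrib, Matrix.mulVec, dotProduct]
  exact DFunLike.congr_fun h F

theorem linSubst_isHomogeneous {n d : ℕ} (A : Matrix (Fin n) (Fin n) ℂ)
    {F : MvPolynomial (Fin n) ℂ} (hF : F.IsHomogeneous d) : (linSubst A F).IsHomogeneous d := by
  have h : ∀ i, (∑ j, C (A i j) * X j : MvPolynomial (Fin n) ℂ).IsHomogeneous 1 := by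
    intro i
    apply IsHomogeneous.sum
    intro j _
    exact (isHomogeneous_C_mul_X _ _)
  have := hF.aeval _ h
  simpa [linSubst] using this

/-- Linear substitutions do not decrease the order at the origin. -/
theorem linSubst_order {n m : ℕ} (A : Matrix (Fin n) (Fin n) ℂ) {G : MvPolynomial (Fin n) ℂ}
    (hG : ∀ β : Fin n →₀ ℕ, β.degree < m → coeff β G = 0) :
    ∀ β : Fin n →₀ ℕ, β.degree < m → coeff β (linSubst A G) = 0 := by
  rw [← mem_pow_idealOfVars_iff'] at hG ⊢
  have h1 := Ideal.mem_map_of_mem (linSubst A) hG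
  rw [Ideal.map_pow] at h1
  refine Ideal.pow_right_mono ?_ m h1
  rw [idealOfVars, Ideal.map_span, Ideal.span_le]
  rintro _ ⟨_, ⟨i, rfl⟩, rfl⟩
  simp only [linSubst, aeval_X, SetLike.mem_coe]
  exact Ideal.sum_mem _ fun j _ => Ideal.mul_mem_left _ _ (Ideal.subset_span ⟨j, rfl⟩)

theorem vanishes_linSubst {n m : ℕ} {A : Matrix (Fin n) (Fin n) ℂ} {q : Fin n → ℂ}
    {F : MvPolynomial (Fin n) ℂ} (h : VanishesToOrder F (A.mulVec q) m) :
    VanishesToOrder (linSubst A F) q m := by
  unfold VanishesToOrder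
  rw [linSubst_shift]
  exact linSubst_order A h

/-! ### Coordinate points -/

/-- Order of vanishing at a coordinate point. -/
theorem vanishes_coord_iff {n d m : ℕ} (f : mons n d → ℂ) (i : Fin n) :
    VanishesToOrder (toPoly n d f) (Pi.single i 1) m ↔
      ∀ α : mons n d, f α ≠ 0 → α.1 i + m ≤ d := by
  classical
  -- Taylor coefficients at the coordinate point
  have htc : ∀ α β : Fin n →₀ ℕ, tc (Pi.single i 1) α β =
      if ∀ j, j ≠ i → α j = β j then ((α i).choose (β i) : ℂ) else 0 := by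
    intro α β
    split_ifs with h
    · unfold tc
      rw [← mul_prod_erase univ _ (mem_univ i)]
      have h1 : ∏ x ∈ univ.erase i, (((α x).choose (β x) : ℂ) *
          (Pi.single i 1 : Fin n → ℂ) x ^ (α x - β x)) = 1 := by
        refine prod_eq_one fun x hx => ?_
        rw [h x (ne_of_mem_erase hx)]
        simp
      rw [h1]
      simp
    · push Not at h
      obtain ⟨j, hji, hj⟩ := h
      unfold tc
      apply prod_eq_zero (mem_univ j)
      rcases lt_or_gt_of_ne hj with h | h
      · rw [Nat.choose_eq_zero_of_lt h]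
        simp
      · rw [Pi.single_eq_of_ne hji, zero_pow (by omega), mul_zero]
  constructor
  · intro h α hα
    by_contra hlt
    push Not at hlt
    -- test with `β = α.erase i`
    have hdeg : (α.1.erase i).degree + α.1 i = d := by
      have h1 := mem_mons.1 α.2
      rw [Finsupp.degree_eq_sum] at h1 ⊢
      rw [← add_sum_erase univ _ (mem_univ i)] at h1 ⊢
      rw [Finsupp.erase_same, zero_add]
      have h2 : ∑ x ∈ univ.erase i, (α.1.erase i) x = ∑ x ∈ univ.erase i, α.1 x :=
        sum_congr rfl fun x hx => Finsupp.erase_ne (ne_of_mem_erase hx)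
      rw [h2]
      omega
    have h3 := h (α.1.erase i) (by omega)
    rw [coeff_shift_toPoly, sum_eq_single α] at h3
    · rw [htc, if_pos (fun j hj => (Finsupp.erase_ne hj).symm), Finsupp.erase_same,
        Nat.choose_zero_right, Nat.cast_one, mul_one] at h3
      exact hα h3
    · intro γ _ hγ
      rw [htc, if_neg, mul_zero]
      intro hall
      apply hγ
      apply Subtype.ext
      ext j
      have hj' : ∀ j, j ≠ i → γ.1 j = α.1 j := fun j hj => by
        rw [hall j hj, Finsupp.erase_ne hj]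
      by_cases hj : j = i
      · subst hj
        have h4 := mem_mons.1 α.2
        have h5 := mem_mons.1 γ.2
        rw [Finsupp.degree_eq_sum, ← add_sum_erase univ _ (mem_univ j)] at h4 h5
        have h6 : ∑ x ∈ univ.erase j, γ.1 x = ∑ x ∈ univ.erase j, α.1 x :=
          sum_congr rfl fun x hx => hj' x (ne_of_mem_erase hx)
        omega
      · exact hj' j hj
    · intro h4
      exact absurd (mem_univ _) h4
  · intro h β hβ
    rw [coeff_shift_toPoly]
    refine sum_eq_zero fun α _ => ?_
    by_cases hf : f α = 0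
    · rw [hf, zero_mul]
    · rw [htc, if_neg, mul_zero]
      intro hall
      have h1 := h α hf
      have h4 := mem_mons.1 α.2
      rw [Finsupp.degree_eq_sum, ← add_sum_erase univ _ (mem_univ i)] at h4 hβ
      have h6 : ∑ x ∈ univ.erase i, α.1 x = ∑ x ∈ univ.erase i, β x :=
        sum_congr rfl fun x hx => hall x (ne_of_mem_erase hx)
      omega

end Pool.Agent.H18.Fat

end

section

/-!
Further lemmas on `fro`.
-/

namespace Pool.Agent.H21.HD

open scoped Classical

lemma fro_zero {P : Type} (r : ℕ) (e : P → ℕ) (I : Finset P) (he : ∀ i ∈ I, 1 ≤ e i) :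
    fro r e I 0 = 1 := by
  unfold fro
  rw [Finset.sum_eq_single ∅]
  · simp
  · intro T hT hne
    obtain ⟨i, hi⟩ := Finset.nonempty_iff_ne_empty.2 hne
    rw [if_neg, mul_zero]
    have h2 : e i ≤ ∑ i ∈ T, e i := Finset.single_le_sum (fun _ _ => Nat.zero_le _) hi
    have h3 := he i (Finset.mem_powerset.1 hT hi)
    omega
  · intro h2
    exact absurd (Finset.empty_mem_powerset I) h2

lemma fro_map {P R : Type} (r : ℕ) (f : P ↪ R) (e : R → ℕ) (I : Finset P) (j : ℕ) :
    fro r e (I.map f) j = fro r (fun p => e (f p)) I j := by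
  induction I using Finset.induction_on generalizing j with
  | empty => simp [fro]
  | insert a s ha ih =>
    rw [Finset.map_insert, fro_insert r e _ _ (by simpa using ha), fro_insert r _ s a ha, ih]
    simp only [ih]

/-- Adding simple points. -/
lemma fro_simple {P : Type} (r d : ℕ) (e : P → ℕ) (I S : Finset P) (hd : Disjoint I S)
    (he : ∀ i ∈ I, 1 ≤ e i) (hd1 : 1 ≤ d) (hS : ∀ i ∈ S, e i = d) :
    fro r e (I ∪ S) d = fro r e I d - S.card := by
  induction S using Finset.induction_on with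
  | empty => simp
  | insert a s ha ih =>
    have h1 : a ∉ I := fun h => (Finset.disjoint_left.1 hd h) (Finset.mem_insert_self a s)
    have h2 : a ∉ I ∪ s := by
      rw [Finset.mem_union]
      tauto
    have h3 : Disjoint I s := hd.mono_right (Finset.subset_insert a s)
    have h4 : ∀ i ∈ s, e i = d := fun i hi => hS i (Finset.mem_insert_of_mem hi)
    rw [Finset.union_insert, fro_insert r e _ a h2, ih h3 h4, hS a (Finset.mem_insert_self a s),
      if_pos le_rfl, Nat.sub_self, fro_zero, Finset.card_insert_of_notMem ha]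
    · push_cast
      ring
    · intro i hi
      rcases Finset.mem_union.1 hi with h5 | h5
      · exact he i h5
      · rw [h4 i h5]
        exact hd1

/-- Points with large exponents do not contribute. -/
lemma fro_union_large {P : Type} (r j : ℕ) (e : P → ℕ) (I S : Finset P) (hd : Disjoint I S)
    (hS : ∀ i ∈ S, j < e i) : fro r e (I ∪ S) j = fro r e I j := by
  induction S using Finset.induction_on with
  | empty => simp
  | insert a s ha ih =>
    have h1 : a ∉ I := fun h => (Finset.disjoint_left.1 hd h) (Finset.mem_insert_self a s)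
    have h2 : a ∉ I ∪ s := by
      rw [Finset.mem_union]
      tauto
    rw [Finset.union_insert, fro_insert r e _ a h2, ih (hd.mono_right (Finset.subset_insert a s))
      fun i hi => hS i (Finset.mem_insert_of_mem hi), if_neg, sub_zero]
    have := hS a (Finset.mem_insert_self a s)
    omega

end Pool.Agent.H21.HD

end

section

/-!
From PhiInj to independence.
-/

namespace Pool.Agent.H21.HD

open MvPolynomial
open scoped Classical

variable {N : ℕ} {A Λ P : Type} [Fintype A] [Fintype Λ] [Fintype P]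

private theorem bdeg_add' (γ δ : Sg N A Λ →₀ ℕ) (i : Fin N) :
    bdeg (γ + δ) i = bdeg γ i + bdeg δ i := by
  unfold bdeg
  rw [← Finset.sum_add_distrib]
  rfl

private theorem bsupp_add' (γ δ : Sg N A Λ →₀ ℕ) :
    bsupp (γ + δ) = bsupp γ ∪ bsupp δ := by
  ext i
  simp only [bsupp, Finset.mem_filter, Finset.mem_univ, true_and, Finset.mem_union, bdeg_add']
  omega

private theorem bsupp_lin (c : Finset (Fin N)) (v : Fin N → A → ℂ) (y : Λ → ℂ)
    (δ : Sg N A Λ →₀ ℕ) (h : coeff δ (lin (vec c v y)) ≠ 0) : bsupp δ ⊆ c := by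
  unfold lin at h
  rw [coeff_sum] at h
  obtain ⟨s, _, hs⟩ := Finset.exists_ne_zero_of_sum_ne_zero h
  rw [coeff_C_mul, coeff_X] at hs
  split_ifs at hs with h1
  · intro i hi
    simp only [bsupp, Finset.mem_filter, Finset.mem_univ, true_and] at hi
    unfold bdeg at hi
    obtain ⟨a, _, ha⟩ := Finset.exists_ne_zero_of_sum_ne_zero hi
    rw [← h1, Finsupp.single_apply] at ha
    split_ifs at ha with h2
    · rw [h2] at hs
      by_contra hic
      apply hs
      simp [vec, hic]
    · exact absurd rfl ha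
  · simp at hs

private theorem bsupp_lin_pow (c : Finset (Fin N)) (v : Fin N → A → ℂ) (y : Λ → ℂ) (e : ℕ)
    (δ : Sg N A Λ →₀ ℕ) (h : coeff δ (lin (vec c v y) ^ e) ≠ 0) : bsupp δ ⊆ c := by
  induction e generalizing δ with
  | zero =>
    rw [pow_zero, coeff_one] at h
    split_ifs at h with h1
    · rw [← h1]
      intro i hi
      simp [bsupp, bdeg] at hi
    · exact absurd rfl h
  | succ e ih =>
    rw [pow_succ, coeff_mul] at h
    obtain ⟨x, hx, hx2⟩ := Finset.exists_ne_zero_of_sum_ne_zero h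
    have hx := Finset.HasAntidiagonal.mem_antidiagonal.1 hx
    rw [← hx, bsupp_add']
    exact Finset.union_subset (ih _ (left_ne_zero_of_mul hx2))
      (bsupp_lin c v y _ (right_ne_zero_of_mul hx2))

private theorem card_bsupp_le (γ : Sg N A Λ →₀ ℕ) : (bsupp γ).card ≤ γ.degree := by
  have h1 : γ.degree = ∑ s, γ s := by
    rw [Finsupp.degree_eq_sum]
  rw [h1, Fintype.sum_sum_type, Fintype.sum_prod_type]
  have h2 : (bsupp γ).card ≤ ∑ i : Fin N, ∑ a : A, γ (Sum.inl (i, a)) := by
    rw [Finset.card_eq_sum_ones]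
    unfold bsupp
    rw [Finset.sum_filter]
    apply Finset.sum_le_sum
    intro i _
    split_ifs with h3
    · unfold bdeg at h3
      omega
    · exact Nat.zero_le _
  omega

/-- The powers are independent if `PhiInj` holds for all sets of at most `d` blocks. -/
theorem indep_of_phiInj (d : ℕ) (c : P → Finset (Fin N)) (hc : ∀ p, (c p).card ≤ d)
    (v : P → Fin N → A → ℂ) (y : P → Λ → ℂ)
    (h : ∀ J : Finset (Fin N), J.card ≤ d → PhiInj d J c v y) :
    Indep d (fun p => vec (c p) (v p) (y p)) (fun p => (c p).card) := by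
  intro g hg hsum
  by_contra hcon
  push Not at hcon
  obtain ⟨p1, hp1⟩ := hcon
  obtain ⟨γ1, hγ1⟩ := (MvPolynomial.ne_zero_iff).1 hp1
  -- a pair with the largest set of blocks
  let S : Finset (Σ _ : P, (Sg N A Λ →₀ ℕ)) := Finset.univ.sigma (fun p => (g p).support)
  have hS : S.Nonempty := ⟨⟨p1, γ1⟩, by simp [S, hγ1]⟩
  obtain ⟨⟨p0, γ0⟩, hmem, hmax⟩ := Finset.exists_max_image S
    (fun x => (bsupp x.2 ∪ c x.1).card) hS
  have hγ0 : coeff γ0 (g p0) ≠ 0 := by
    have := (Finset.mem_sigma.1 hmem).2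
    exact mem_support_iff.1 this
  have hmax' : ∀ p γ, coeff γ (g p) ≠ 0 → (bsupp γ ∪ c p).card ≤ (bsupp γ0 ∪ c p0).card := by
    intro p γ hγ
    have h0 : (⟨p, γ⟩ : Σ _ : P, (Sg N A Λ →₀ ℕ)) ∈ S :=
      Finset.mem_sigma.2 ⟨Finset.mem_univ _, mem_support_iff.2 hγ⟩
    exact hmax ⟨p, γ⟩ h0
  set J : Finset (Fin N) := bsupp γ0 ∪ c p0 with hJ
  have hJd : J.card ≤ d := by
    have h1 := Finset.card_union_le (bsupp γ0) (c p0)
    have h2 := card_bsupp_le γ0
    have h3 : γ0.degree = d - (c p0).card := by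
      have := (hg p0) hγ0
      rw [← this]
      exact DFunLike.congr_fun (Finsupp.degree_eq_weight_one (σ := Sg N A Λ) (R := ℕ)) γ0
    have h4 := hc p0
    rw [← hJ] at h1
    omega
  let g' : P → MvPolynomial (Sg N A Λ) ℂ := fun p =>
    ∑ γ ∈ (g p).support.filter (fun γ => bsupp γ ∪ c p = J), monomial γ (coeff γ (g p))
  have hg'c : ∀ p γ, coeff γ (g' p) = if bsupp γ ∪ c p = J then coeff γ (g p) else 0 := by
    intro p γ
    simp only [g']
    rw [coeff_sum]
    simp only [coeff_monomial]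
    by_cases hb : bsupp γ ∪ c p = J
    · rw [if_pos hb]
      by_cases h0 : coeff γ (g p) = 0
      · rw [h0]
        apply Finset.sum_eq_zero
        intro δ _
        split_ifs with h5
        · rw [h5, h0]
        · rfl
      · rw [Finset.sum_ite_eq' , if_pos]
        rw [Finset.mem_filter, mem_support_iff]
        exact ⟨h0, hb⟩
    · rw [if_neg hb]
      apply Finset.sum_eq_zero
      intro δ hδ
      rw [Finset.mem_filter] at hδ
      split_ifs with h5
      · rw [h5] at hδ
        exact absurd hδ.2 hb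
      · rfl
  have hres := h J hJd g' ?_ ?_ ?_ p0
  · have h1 := hg'c p0 γ0
    rw [hres, if_pos rfl, coeff_zero] at h1
    exact hγ0 h1.symm
  · intro p γ hγ
    rw [hg'c] at hγ
    split_ifs at hγ with h1
    · exact hg p hγ
    · exact absurd rfl hγ
  · intro p γ hγ
    rw [hg'c] at hγ
    split_ifs at hγ with h1
    · exact h1
    · exact absurd rfl hγ
  · intro γ hγ
    have h1 : coeff γ (∑ p, g p * lin (vec (c p) (v p) (y p)) ^ (c p).card) = 0 := by
      rw [hsum, coeff_zero]
    rw [← h1, coeff_sum, coeff_sum]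
    apply Finset.sum_congr rfl
    intro p _
    rw [coeff_mul, coeff_mul]
    apply Finset.sum_congr rfl
    intro x hx
    have hx := Finset.HasAntidiagonal.mem_antidiagonal.1 hx
    by_cases h2 : coeff x.2 (lin (vec (c p) (v p) (y p)) ^ (c p).card) = 0
    · rw [h2, mul_zero, mul_zero]
    congr 1
    rw [hg'c]
    split_ifs with h3
    · rfl
    · by_contra h4
      have h5 : coeff x.1 (g p) ≠ 0 := fun h6 => h4 h6.symm
      apply h3
      have h6 : bsupp x.2 ⊆ c p := bsupp_lin_pow _ _ _ _ _ h2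
      have h7 : J ⊆ bsupp x.1 ∪ c p := by
        rw [← hγ, ← hx, bsupp_add']
        exact Finset.union_subset_union_right h6
      exact (Finset.eq_of_subset_of_card_le h7 (hmax' p x.1 h5)).symm

end Pool.Agent.H21.HD

end

section

/-!
PhiInj is open.
-/

namespace Pool.Agent.H21.HD

open MvPolynomial
open scoped Classical

namespace PhiOpenX

/-- All coefficients are polynomial in the parameters. -/
def CP {σ τ : Type*} (F : (σ → ℂ) → MvPolynomial τ ℂ) : Prop :=
  ∀ γ, PolyFun (fun x => coeff γ (F x))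

theorem CP.const {σ τ : Type*} (f : MvPolynomial τ ℂ) : CP (fun _ : σ → ℂ => f) :=
  fun _ => PolyFun.const _

theorem CP.mul {σ τ : Type*} {F G : (σ → ℂ) → MvPolynomial τ ℂ} (hF : CP F) (hG : CP G) :
    CP (fun x => F x * G x) := by
  intro γ
  simp only [coeff_mul]
  exact PolyFun.sum _ _ fun k _ => (hF k.1).mul (hG k.2)

theorem CP.pow {σ τ : Type*} {F : (σ → ℂ) → MvPolynomial τ ℂ} (hF : CP F) (n : ℕ) :
    CP (fun x => F x ^ n) := by
  induction n with
  | zero => simpa using CP.const (σ := σ) (1 : MvPolynomial τ ℂ)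
  | succ n ih =>
    simp only [pow_succ]
    exact ih.mul hF

theorem CP.sum {σ τ κ : Type*} (S : Finset κ) (F : κ → (σ → ℂ) → MvPolynomial τ ℂ)
    (hF : ∀ k ∈ S, CP (F k)) : CP (fun x => ∑ k ∈ S, F k x) := by
  intro γ
  simp only [coeff_sum]
  exact PolyFun.sum _ _ fun k hk => hF k hk γ

theorem CP.C {σ τ : Type*} {F : (σ → ℂ) → ℂ} (hF : PolyFun F) :
    CP (fun x => (MvPolynomial.C (F x) : MvPolynomial τ ℂ)) := by
  intro γ
  simp only [coeff_C]
  by_cases h : (0 : τ →₀ ℕ) = γ
  · simpa [h] using hF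
  · simpa [h] using PolyFun.const (σ := σ) 0

theorem CP.lin {σ τ : Type*} [Fintype τ] {w : (σ → ℂ) → τ → ℂ}
    (hw : ∀ s, PolyFun (fun x => w x s)) : CP (fun x => Pool.Agent.H21.HD.lin (w x)) := by
  unfold Pool.Agent.H21.HD.lin
  exact CP.sum _ _ fun s _ => (CP.C (hw s)).mul (CP.const _)

theorem lin_homog {τ : Type*} [Fintype τ] (w : τ → ℂ) :
    (Pool.Agent.H21.HD.lin w).IsHomogeneous 1 := by
  unfold Pool.Agent.H21.HD.lin
  apply IsHomogeneous.sum
  intro s _
  simpa using (isHomogeneous_C τ (w s)).mul (isHomogeneous_X ℂ s)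

end PhiOpenX

open PhiOpenX

variable {N : ℕ} {A Λ P : Type} [Fintype A] [Fintype Λ] [Fintype P]

namespace PhiOpenX

/-- The space of multipliers. -/
def VV (N : ℕ) (A Λ : Type) {P : Type} [Fintype A] [Fintype Λ] (d : ℕ) (J : Finset (Fin N))
    (c : P → Finset (Fin N)) : Submodule ℂ (P → MvPolynomial (Sg N A Λ) ℂ) where
  carrier := {g | (∀ p, (g p).IsHomogeneous (d - (c p).card)) ∧
    ∀ p γ, coeff γ (g p) ≠ 0 → bsupp γ ∪ c p = J}
  add_mem' := by
    rintro g g' ⟨h1, h2⟩ ⟨h1', h2'⟩
    refine ⟨fun p => (h1 p).add (h1' p), fun p γ h => ?_⟩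
    simp only [Pi.add_apply, coeff_add] at h
    by_cases h0 : coeff γ (g p) = 0
    · rw [h0, zero_add] at h
      exact h2' p γ h
    · exact h2 p γ h0
  zero_mem' := ⟨fun p => isHomogeneous_zero _ _ _, fun p γ h => absurd (by simp) h⟩
  smul_mem' := by
    rintro a g ⟨h1, h2⟩
    refine ⟨fun p => ?_, fun p γ h => ?_⟩
    · have := (isHomogeneous_C (Sg N A Λ) a).mul (h1 p)
      simpa [MvPolynomial.smul_eq_C_mul] using this
    · simp only [Pi.smul_apply, coeff_smul, smul_eq_mul] at h
      exact h2 p γ (right_ne_zero_of_mul h)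

/-- The exponent vectors of degree at most `M`. -/
abbrev YY (N : ℕ) (A Λ : Type) (M : ℕ) : Type := {γ : Sg N A Λ →₀ ℕ // γ.degree ≤ M}

theorem finite_YY (M : ℕ) : Finite (YY N A Λ M) := by
  have : Set.Finite {γ : Sg N A Λ →₀ ℕ | γ.degree ≤ M} := by
    have h1 : {γ : Sg N A Λ →₀ ℕ | γ.degree ≤ M} ⊆
        Set.Iic (Finsupp.equivFunOnFinite.symm (fun _ => M)) := by
      intro γ hγ s
      have : γ s ≤ γ.degree := Finsupp.le_degree s γ
      simp only [Finsupp.equivFunOnFinite_symm_apply_apply]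
      exact this.trans hγ
    exact (Set.finite_Iic _).subset h1
  exact this.to_subtype

theorem finiteDimensional_VV (d : ℕ) (J : Finset (Fin N)) (c : P → Finset (Fin N)) :
    FiniteDimensional ℂ (VV N A Λ d J c) := by
  haveI := finite_YY (N := N) (A := A) (Λ := Λ) d
  let f : VV N A Λ d J c →ₗ[ℂ] (P × YY N A Λ d → ℂ) :=
    { toFun := fun g x => coeff x.2.1 (g.1 x.1)
      map_add' := by intro g g'; funext x; simp
      map_smul' := by intro a g; funext x; simp }
  apply Module.Finite.of_injective f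
  intro g g' h
  apply Subtype.ext
  funext p
  ext γ
  by_cases hγ : γ.degree ≤ d
  · exact congrFun h (p, ⟨γ, hγ⟩)
  · have h1 : coeff γ (g.1 p) = 0 := by
      apply (g.2.1 p).coeff_eq_zero
      omega
    have h2 : coeff γ (g'.1 p) = 0 := by
      apply (g'.2.1 p).coeff_eq_zero
      omega
    rw [h1, h2]

/-- The sum map. -/
noncomputable def TT (d : ℕ) (J : Finset (Fin N)) (c : P → Finset (Fin N))
    (x : (P × Fin N × A) ⊕ (P × Λ) → ℂ) :
    VV N A Λ d J c →ₗ[ℂ] ({γ : YY N A Λ (d + N) // bsupp γ.1 = J} → ℂ) where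
  toFun g γ := coeff γ.1.1 (∑ p, g.1 p *
    lin (vec (c p) (fun i a => x (Sum.inl (p, i, a))) (fun l => x (Sum.inr (p, l)))) ^ (c p).card)
  map_add' g g' := by
    funext γ
    simp only [Submodule.coe_add, Pi.add_apply, add_mul, Finset.sum_add_distrib, coeff_add]
  map_smul' a g := by
    funext γ
    simp only [SetLike.val_smul, Pi.smul_apply, smul_mul_assoc, ← Finset.smul_sum, coeff_smul,
      RingHom.id_apply]

theorem TT_inj_iff (d : ℕ) (J : Finset (Fin N)) (c : P → Finset (Fin N))
    (v : P → Fin N → A → ℂ) (y : P → Λ → ℂ) :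
    Function.Injective (TT d J c (Sum.elim (fun x => v x.1 x.2.1 x.2.2) (fun x => y x.1 x.2))) ↔
      PhiInj d J c v y := by
  constructor
  · intro h g hg1 hg2 hg3
    have h0 : (⟨g, hg1, hg2⟩ : VV N A Λ d J c) = 0 := by
      apply h
      rw [map_zero]
      funext γ
      exact hg3 γ.1.1 γ.2
    intro p
    have h1 := congrArg (fun z : VV N A Λ d J c => z.1 p) h0
    simpa using h1
  · intro h
    rw [← LinearMap.ker_eq_bot, LinearMap.ker_eq_bot']
    intro g hg
    have h1 := h g.1 g.2.1 g.2.2 (fun γ hγ => by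
      by_cases hd : γ.degree ≤ d + N
      · exact congrFun hg ⟨⟨γ, hd⟩, hγ⟩
      · rw [coeff_sum]
        apply Finset.sum_eq_zero
        intro p _
        have h2 : (g.1 p * lin (vec (c p) (v p) (y p)) ^ (c p).card).IsHomogeneous
            (d - (c p).card + 1 * (c p).card) :=
          (g.2.1 p).mul ((lin_homog _).pow _)
        apply h2.coeff_eq_zero
        have h3 : (c p).card ≤ N := by
          simpa using Finset.card_le_univ (c p)
        omega)
    apply Subtype.ext
    funext p
    exact h1 p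

end PhiOpenX

/-- `PhiInj` is an open condition. -/
theorem phiInj_open (d : ℕ) (J : Finset (Fin N)) (c : P → Finset (Fin N))
    (v₀ : P → Fin N → A → ℂ) (y₀ : P → Λ → ℂ) (h : PhiInj d J c v₀ y₀) :
    ∃ G : MvPolynomial ((P × Fin N × A) ⊕ (P × Λ)) ℂ, G ≠ 0 ∧
      ∀ (v : P → Fin N → A → ℂ) (y : P → Λ → ℂ),
        eval (Sum.elim (fun x => v x.1 x.2.1 x.2.2) (fun x => y x.1 x.2)) G ≠ 0 →
        PhiInj d J c v y := by
  haveI := finite_YY (N := N) (A := A) (Λ := Λ) (d + N)
  haveI := finiteDimensional_VV (N := N) (A := A) (Λ := Λ) d J c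
  obtain ⟨G, hG0, hG⟩ := open_inj (TT d J c) (fun g γ => by
      change PolyFun (fun x => coeff γ.1.1 (∑ p, g.1 p *
        lin (vec (c p) (fun i a => x (Sum.inl (p, i, a))) (fun l => x (Sum.inr (p, l)))) ^
          (c p).card))
      have h1 : CP (fun x : (P × Fin N × A) ⊕ (P × Λ) → ℂ => ∑ p, g.1 p *
        lin (vec (c p) (fun i a => x (Sum.inl (p, i, a))) (fun l => x (Sum.inr (p, l)))) ^
          (c p).card) := by
        apply CP.sum
        intro p _
        refine (CP.const _).mul (CP.pow (CP.lin ?_) _)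
        rintro (⟨i, a⟩ | l)
        · unfold vec
          by_cases hi : i ∈ c p
          · simpa [hi] using PolyFun.coord _
          · simpa [hi] using PolyFun.const _
        · simpa [vec] using PolyFun.coord _
      exact h1 γ.1.1)
    (Sum.elim (fun x => v₀ x.1 x.2.1 x.2.2) (fun x => y₀ x.1 x.2))
    ((TT_inj_iff d J c v₀ y₀).2 h)
  refine ⟨G, ?_, fun v y hvy => (TT_inj_iff d J c v y).1 (hG _ hvy)⟩
  rintro rfl
  simp at hG0

end Pool.Agent.H21.HD

end

section

/-!
# The Euler relation for the coefficients of `∏ (1 - t^x) / (1 - t)^N`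
-/

set_option autoImplicit false

namespace Pool.Agent.GD.NM

open Finset PowerSeries

/-- `∏_{x ∈ xs} (1 - t^x) / (1 - t)^N`. -/
noncomputable def Fs (N : ℕ) (xs : Multiset ℕ) : PowerSeries ℤ :=
  (xs.map fun x => (1 - X ^ x : PowerSeries ℤ)).prod * hs N

/-- `t^x / (1 - t^x)`. -/
noncomputable def Ux (x : ℕ) : PowerSeries ℤ := mk fun k => if k ≠ 0 ∧ x ∣ k then 1 else 0

theorem one_sub_Ux {x : ℕ} (hx : 1 ≤ x) : (1 - X ^ x) * Ux x = X ^ x := by
  ext k
  rw [sub_mul, one_mul, map_sub, coeff_X_pow_mul', coeff_X_pow]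
  unfold Ux
  simp only [coeff_mk]
  by_cases h1 : x ≤ k
  · rw [if_pos h1]
    obtain ⟨l, rfl⟩ := Nat.exists_eq_add_of_le h1
    rw [Nat.add_sub_cancel_left]
    by_cases h2 : l = 0
    · subst h2
      simp
      omega
    · have h3 : x ∣ x + l ↔ x ∣ l := by
        rw [Nat.dvd_add_right (dvd_refl x)]
      have h4 : x + l ≠ x := by omega
      have h5 : x + l ≠ 0 := by omega
      simp only [h3, h4, h5, h2, ne_eq, not_false_eq_true, true_and, if_false]
      split_ifs <;> simp
  · rw [if_neg h1, sub_zero, if_neg, if_neg]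
    · omega
    · rintro ⟨h2, h3⟩
      exact h1 (Nat.le_of_dvd (Nat.pos_of_ne_zero h2) h3)

theorem hs_succ (N : ℕ) : (1 - X) * hs (N + 1) = hs N := by
  ext k
  rw [sub_mul, one_mul, map_sub]
  cases k with
  | zero =>
    unfold hs
    simp
  | succ k =>
    rw [coeff_succ_X_mul]
    unfold hs
    simp only [coeff_mk]
    rw [Nat.multichoose_succ_succ]
    push_cast
    ring

theorem one_sub_ne (x : ℕ) (hx : 1 ≤ x) : (1 - X ^ x : PowerSeries ℤ) ≠ 0 := by
  intro h
  have h1 := congrArg constantCoeff h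
  rw [map_sub, map_one, map_pow, constantCoeff_X, zero_pow (by omega), sub_zero, map_zero] at h1
  exact one_ne_zero h1

/-- The operator `t d/dt`. -/
noncomputable def th (F : PowerSeries ℤ) : PowerSeries ℤ := X * derivative ℤ F

theorem th_mul (F G : PowerSeries ℤ) : th (F * G) = th F * G + F * th G := by
  unfold th
  rw [Derivation.leibniz, smul_eq_mul, smul_eq_mul]
  ring

theorem th_one_sub (x : ℕ) (hx : 1 ≤ x) : th (1 - X ^ x) = -((x : PowerSeries ℤ) * X ^ x) := by
  unfold th
  rw [map_sub, Derivation.map_one_eq_zero, zero_sub, derivative_pow, derivative_X, mul_one]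
  obtain ⟨y, rfl⟩ := Nat.exists_eq_add_of_le' hx
  rw [Nat.add_sub_cancel, pow_succ]
  ring

theorem th_hs (N : ℕ) : th (hs N) = hs N * ((N : PowerSeries ℤ) * Ux 1) := by
  induction N with
  | zero =>
    have h0 : hs 0 = 1 := by
      ext k
      unfold hs
      rw [coeff_mk, coeff_one]
      cases k <;> simp
    rw [h0, Nat.cast_zero, zero_mul, mul_zero]
    unfold th
    rw [Derivation.map_one_eq_zero, mul_zero]
  | succ N ih =>
    have h1 := one_sub_Ux (x := 1) le_rfl
    rw [pow_one] at h1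
    have h2 : th ((1 - X) * hs (N + 1)) = hs N * ((N : PowerSeries ℤ) * Ux 1) := by rw [hs_succ, ih]
    have h3 := th_one_sub 1 le_rfl
    rw [pow_one, Nat.cast_one, one_mul] at h3
    rw [th_mul, h3, ← hs_succ N] at h2
    have h4 : (1 - X : PowerSeries ℤ) ≠ 0 := by
      have := one_sub_ne 1 le_rfl
      rwa [pow_one] at this
    refine mul_left_cancel₀ h4 ?_
    have h5 : (1 - X) * th (hs (N + 1)) = (1 - X) * hs (N + 1) * ((N : PowerSeries ℤ) * Ux 1) + X * hs (N + 1) := by
      rw [← h2]
      ring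
    rw [h5]
    push_cast
    linear_combination -(hs (N + 1)) * h1

/-- The logarithmic derivative. -/
noncomputable def Ls (N : ℕ) (xs : Multiset ℕ) : PowerSeries ℤ :=
  (N : PowerSeries ℤ) * Ux 1 - (xs.map fun x : ℕ => (x : PowerSeries ℤ) * Ux x).sum

theorem Fs_cons (N x : ℕ) (xs : Multiset ℕ) : Fs N (x ::ₘ xs) = (1 - X ^ x) * Fs N xs := by
  unfold Fs
  rw [Multiset.map_cons, Multiset.prod_cons, mul_assoc]

theorem Ls_cons (N x : ℕ) (xs : Multiset ℕ) : Ls N (x ::ₘ xs) = Ls N xs - (x : PowerSeries ℤ) * Ux x := by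
  unfold Ls
  rw [Multiset.map_cons, Multiset.sum_cons]
  ring

theorem th_Fs (N : ℕ) (xs : Multiset ℕ) (h : ∀ x ∈ xs, 1 ≤ x) : th (Fs N xs) = Fs N xs * Ls N xs := by
  induction xs using Multiset.induction_on with
  | empty =>
    unfold Fs Ls
    rw [Multiset.map_zero, Multiset.prod_zero, one_mul, Multiset.map_zero, Multiset.sum_zero, sub_zero]
    exact th_hs N
  | cons x xs ih =>
    have hx : 1 ≤ x := h x (Multiset.mem_cons_self x xs)
    rw [Fs_cons, th_mul, ih fun y hy => h y (Multiset.mem_cons_of_mem hy), Ls_cons, th_one_sub x hx]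
    linear_combination (-(x : PowerSeries ℤ) * Fs N xs) * (one_sub_Ux hx).symm

/-- The coefficients of the logarithmic derivative. -/
noncomputable def bl (N : ℕ) (xs : Multiset ℕ) (l : ℕ) : ℤ :=
  (N : ℤ) - ∑ x ∈ l.divisors, (x : ℤ) * (xs.count x : ℤ)

theorem coeff_Ls (N : ℕ) (xs : Multiset ℕ) (h : ∀ x ∈ xs, 1 ≤ x) (l : ℕ) (hl : l ≠ 0) : coeff l (Ls N xs) = bl N xs l := by
  induction xs using Multiset.induction_on with
  | empty =>
    unfold Ls bl Ux
    rw [Multiset.map_zero, Multiset.sum_zero, sub_zero]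
    have : (N : PowerSeries ℤ) = C (N : ℤ) := by simp
    rw [this, coeff_C_mul, coeff_mk]
    simp [hl]
  | cons x xs ih =>
    rw [Ls_cons, map_sub, ih fun y hy => h y (Multiset.mem_cons_of_mem hy)]
    have hx : 1 ≤ x := h x (Multiset.mem_cons_self x xs)
    have : (x : PowerSeries ℤ) = C (x : ℤ) := by simp
    rw [this, coeff_C_mul]
    unfold bl Ux
    rw [coeff_mk]
    have h2 : ∑ y ∈ l.divisors, (y : ℤ) * ((x ::ₘ xs).count y : ℤ) =
        ∑ y ∈ l.divisors, (y : ℤ) * (xs.count y : ℤ) + ∑ y ∈ l.divisors, if y = x then (y : ℤ) else 0 := by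
      rw [← sum_add_distrib]
      refine sum_congr rfl fun y _ => ?_
      rw [Multiset.count_cons]
      split_ifs
      · push_cast
        ring
      · push_cast
        ring
    rw [h2, Finset.sum_ite_eq']
    by_cases h3 : x ∣ l
    · rw [if_pos ⟨hl, h3⟩, if_pos (Nat.mem_divisors.2 ⟨h3, hl⟩)]
      ring
    · rw [if_neg fun h4 => h3 h4.2, if_neg fun h4 => h3 (Nat.mem_divisors.1 h4).1]
      ring

theorem coeff_zero_Ls (N : ℕ) (xs : Multiset ℕ) : coeff 0 (Ls N xs) = 0 := by
  induction xs using Multiset.induction_on with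
  | empty =>
    unfold Ls Ux
    rw [Multiset.map_zero, Multiset.sum_zero, sub_zero]
    have : (N : PowerSeries ℤ) = C (N : ℤ) := by simp
    rw [this, coeff_C_mul, coeff_mk]
    simp
  | cons x xs ih =>
    rw [Ls_cons, map_sub, ih]
    have : (x : PowerSeries ℤ) = C (x : ℤ) := by simp
    rw [this, coeff_C_mul]
    unfold Ux
    rw [coeff_mk]
    simp

/-- The Euler relation. -/
theorem euler (N : ℕ) (xs : Multiset ℕ) (h : ∀ x ∈ xs, 1 ≤ x) (D : ℕ) :
    ((D : ℤ) + 1) * coeff (D + 1) (Fs N xs) =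
      ∑ l ∈ range (D + 1), bl N xs (l + 1) * coeff (D - l) (Fs N xs) := by
  have h1 := congrArg (coeff (D + 1)) (th_Fs N xs h)
  unfold th at h1
  rw [coeff_succ_X_mul, coeff_derivative, mul_comm (Fs N xs), coeff_mul,
    Finset.Nat.sum_antidiagonal_eq_sum_range_succ (fun a b => coeff a (Ls N xs) * coeff b (Fs N xs)),
    Finset.sum_range_succ', coeff_zero_Ls, zero_mul, add_zero] at h1
  rw [mul_comm, h1]
  refine sum_congr rfl fun l _ => ?_
  rw [coeff_Ls N xs h _ (Nat.succ_ne_zero l), Nat.add_sub_add_right]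

theorem coeff_zero_Fs (N : ℕ) (xs : Multiset ℕ) (h : ∀ x ∈ xs, 1 ≤ x) : coeff 0 (Fs N xs) = 1 := by
  rw [coeff_zero_eq_constantCoeff]
  induction xs using Multiset.induction_on with
  | empty =>
    unfold Fs hs
    rw [Multiset.map_zero, Multiset.prod_zero, one_mul, ← coeff_zero_eq_constantCoeff_apply, coeff_mk]
    simp
  | cons x xs ih =>
    have hx : 1 ≤ x := h x (Multiset.mem_cons_self x xs)
    rw [Fs_cons, map_mul, ih fun y hy => h y (Multiset.mem_cons_of_mem hy), map_sub, map_one, map_pow,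
      constantCoeff_X, zero_pow (by omega), sub_zero, mul_one]

/-! ### The exponents of an object on `L_I'` -/

/-- The exponents of the factors of an object. -/
def exs (I' : Finset ℕ) : Kd → Multiset ℕ
  | .ord e A => if I' ⊆ A then {e} else 0
  | .cl e dl i As => if i ∈ I' then (if I'.erase i ⊆ inter As then {trx e dl As.length} else 0)
      else ((As.filter fun A => I' ⊆ A).map fun _ => e : List ℕ)

theorem P_eq (I' : Finset ℕ) (k : Kd) :
    Kd.P I' k = ((exs I' k).map fun x => (1 - X ^ x : PowerSeries ℤ)).prod := by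
  cases k with
  | ord e A =>
    unfold Kd.P exs
    dsimp only
    split_ifs <;> simp
  | cl e dl i As =>
    unfold Kd.P exs
    dsimp only
    split_ifs
    · simp
    · simp
    · rw [Multiset.map_coe, Multiset.prod_coe, List.map_map]
      induction As with
      | nil => simp
      | cons A As ih =>
        rw [List.map_cons, List.prod_cons, ih]
        by_cases hA : I' ⊆ A
        · rw [if_pos hA, List.filter_cons_of_pos (by simpa using hA), List.map_cons, List.prod_cons]
          rfl
        · rw [if_neg hA, List.filter_cons_of_neg (by simpa using hA), one_mul]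

theorem exs_pos {I' : Finset ℕ} {k : Kd} (hk : 1 ≤ k.ex) : ∀ x ∈ exs I' k, 1 ≤ x := by
  intro x hx
  cases k with
  | ord e A =>
    have he : 1 ≤ e := hk
    unfold exs at hx
    dsimp only at hx
    split_ifs at hx
    · rw [Multiset.mem_singleton.1 hx]
      exact he
    · exact absurd hx (Multiset.notMem_zero x)
  | cl e dl i As =>
    have he : 1 ≤ e := hk
    unfold exs at hx
    dsimp only at hx
    split_ifs at hx
    · rw [Multiset.mem_singleton.1 hx]
      unfold trx
      omega
    · exact absurd hx (Multiset.notMem_zero x)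
    · rw [Multiset.mem_coe, List.mem_map] at hx
      obtain ⟨A, -, rfl⟩ := hx
      exact he

/-- The exponents of a configuration. -/
def exm (ms : Multiset Kd) (I' : Finset ℕ) : Multiset ℕ := ms.bind (exs I')

theorem prod_P (ms : Multiset Kd) (I' : Finset ℕ) :
    (ms.map (Kd.P I')).prod = ((exm ms I').map fun x => (1 - X ^ x : PowerSeries ℤ)).prod := by
  induction ms using Multiset.induction_on with
  | empty => simp [exm]
  | cons k ms ih =>
    unfold exm at ih ⊢
    rw [Multiset.map_cons, Multiset.prod_cons, ih, Multiset.cons_bind, Multiset.map_add, Multiset.prod_add,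
      P_eq]

theorem vd_eq_Fs (D : ℕ) (I : Finset ℕ) (c : ℕ → ℕ) (n : ℕ) (ms : Multiset Kd) :
    vd D I c n ms = ∑ J ∈ I.powerset, (-1) ^ J.card * coeff D (Fs (n - ∑ i ∈ J, c i) (exm ms J)) := by
  unfold vd Fs
  refine sum_congr rfl fun J _ => ?_
  rw [prod_P]

theorem exm_pos {ms : Multiset Kd} (h : ∀ k ∈ ms, 1 ≤ k.ex) (I' : Finset ℕ) : ∀ x ∈ exm ms I', 1 ≤ x := by
  intro x hx
  obtain ⟨k, hk, hx'⟩ := Multiset.mem_bind.1 hx
  exact exs_pos (h k hk) x hx'

end Pool.Agent.GD.NM

end
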