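import Pool.Agent.H94.LP7.M08
import Pool.Agent.H94.LP7.M11
import Pool.Agent.H94.LP7.M12
import Pool.Agent.H94.LP7.M19
import Pool.Agent.H94.LP7.M21

/-! The parts of this file: H18.FatToric_1, H21.NX.GenB_1, H21.NX.GenB_3, GD.AL.Kill, GD.AL.Tie_1. -/

section

namespace Pool.Agent.H18.Fat

open MvPolynomial Finset

/-! ### General points -/

/-! ### Semicontinuity of the dimension -/

/-- The rank of a matrix with polynomial entries does not drop at general parameters. -/
theorem exists_poly_rank {σ R K : Type*} [Fintype R] [Fintype K] [DecidableEq K]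
    (N : Matrix R K (MvPolynomial σ ℂ)) (a₀ : σ → ℂ) :
    ∃ G : MvPolynomial σ ℂ, eval a₀ G ≠ 0 ∧
      ∀ a, eval a G ≠ 0 →
        Module.finrank ℂ (LinearMap.range (N.map (eval a₀)).mulVecLin) ≤
          Module.finrank ℂ (LinearMap.range (N.map (eval a)).mulVecLin) := by
  classical
  set ρ := Module.finrank ℂ (LinearMap.range (N.map (eval a₀)).mulVecLin) with hρ
  let b := Module.finBasis ℂ (LinearMap.range (N.map (eval a₀)).mulVecLin)
  have hb : ∀ i, ∃ v, (N.map (eval a₀)).mulVecLin v = (b i : R → ℂ) := fun i => (b i).2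
  choose v hv using hb
  let B : Matrix K (Fin ρ) ℂ := Matrix.of fun x i => v i x
  have hBmul : ∀ (A : Matrix R K ℂ) (c : Fin ρ → ℂ),
      (A * B).mulVec c = ∑ i, c i • A.mulVec (v i) := by
    intro A c
    rw [← Matrix.mulVec_mulVec]
    have h1 : B.mulVec c = ∑ i, c i • v i := by
      funext x
      simp only [B, Matrix.mulVec, dotProduct, Matrix.of_apply, Finset.sum_apply, Pi.smul_apply,
        smul_eq_mul]
      exact sum_congr rfl fun i _ => mul_comm _ _
    rw [h1, Matrix.mulVec_sum]
    exact sum_congr rfl fun i _ => Matrix.mulVec_smul _ _ _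
  have hinj : LinearMap.ker ((N.map (eval a₀)) * B).mulVecLin = ⊥ := by
    rw [LinearMap.ker_eq_bot']
    intro c hc
    rw [Matrix.mulVecLin_apply, hBmul] at hc
    have h2 : ∑ i, c i • b i = 0 := by
      apply Subtype.ext
      rw [Submodule.coe_sum]
      simp only [Submodule.coe_smul, Submodule.coe_zero]
      rw [← hc]
      refine sum_congr rfl fun i _ => ?_
      rw [← hv i, Matrix.mulVecLin_apply]
    have h3 := Fintype.linearIndependent_iff.1 b.linearIndependent c h2
    funext i
    exact h3 i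
  let N' : Matrix R (Fin ρ) (MvPolynomial σ ℂ) := N * B.map (C : ℂ → MvPolynomial σ ℂ)
  have hN' : ∀ a : σ → ℂ, N'.map (eval a) = (N.map (eval a)) * B := by
    intro a
    have hB' : (B.map (C : ℂ → MvPolynomial σ ℂ)).map (eval a) = B := by
      ext i j
      simp
    change (N * (B.map (C : ℂ → MvPolynomial σ ℂ))).map (eval a) = _
    rw [Matrix.map_mul, hB']
  rw [← hN'] at hinj
  obtain ⟨G, hG1, hG2⟩ := exists_poly_injective N' a₀ hinj
  refine ⟨G, hG1, fun a ha => ?_⟩
  have h4 := hG2 a ha
  rw [hN'] at h4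
  have h5 : LinearMap.range ((N.map (eval a)) * B).mulVecLin ≤
      LinearMap.range (N.map (eval a)).mulVecLin := by
    rintro _ ⟨x, rfl⟩
    refine ⟨B.mulVec x, ?_⟩
    rw [Matrix.mulVecLin_apply, Matrix.mulVecLin_apply, Matrix.mulVec_mulVec]
  have h6 := LinearMap.finrank_range_add_finrank_ker ((N.map (eval a)) * B).mulVecLin
  rw [h4, finrank_bot, add_zero, Module.finrank_fintype_fun_eq_card, Fintype.card_fin] at h6
  rw [← h6]
  exact Submodule.finrank_mono h5

/-- Upper semicontinuity of `dim V_d(Γ)`. -/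
theorem general_finrank_le {r k : ℕ} (d : ℕ) (p₀ : Fin k → Fin (r + 1) → ℂ) (m : Fin k → ℕ) :
    ForGeneralPoints r k fun p =>
      Module.finrank ℂ (fatForms r d p m) ≤ Module.finrank ℂ (fatForms r d p₀ m) := by
  classical
  obtain ⟨G, hG1, hG2⟩ := exists_poly_rank (genFullMat r d m)
    (fun x : Fin k × Fin (r + 1) => p₀ x.1 x.2)
  refine ⟨G, ?_, fun p hp => ?_⟩
  · intro h0
    apply hG1
    rw [h0, map_zero]
  · have h1 := hG2 _ hp
    rw [genFullMat_map, genFullMat_map] at h1
    have h2 := rank_full_add_finrank (d := d) p m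
    have h3 := rank_full_add_finrank (d := d) p₀ m
    omega

/-! ### Further points impose at most their length -/

theorem finrank_add_length_ge {r d : ℕ} (hr : 1 ≤ r) {ι κ : Type*} [Fintype κ]
    (p : ι → Fin (r + 1) → ℂ) (m : ι → ℕ) (q : κ → Fin (r + 1) → ℂ) (hq : ∀ j, q j 0 ≠ 0)
    (n : κ → ℕ) :
    Module.finrank ℂ (fatForms r d p m) ≤
      Module.finrank ℂ (fatForms r d (Sum.elim p q) (Sum.elim m n)) +
        ∑ j, (n j + r - 1).choose r := by
  classical
  let W := fatForms r d p m
  -- the evaluation map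
  let φ : W →ₗ[ℂ] (Cond r n → ℂ) :=
    { toFun := fun F x => coeff x.2.1 (shift (q x.1) F.1)
      map_add' := fun F G => by
        funext x
        simp [shift]
      map_smul' := fun c F => by
        funext x
        simp [shift] }
  have hφ : ∀ (F : W) (x : Cond r n), φ F x = coeff x.2.1 (shift (q x.1) F.1) := fun _ _ => rfl
  have h1 := LinearMap.finrank_range_add_finrank_ker φ
  have h2 : Module.finrank ℂ (LinearMap.range φ) ≤ ∑ j, (n j + r - 1).choose r := by
    rw [← card_cond hr n, ← Module.finrank_fintype_fun_eq_card (R := ℂ)]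
    exact Submodule.finrank_le _
  have h3 : Module.finrank ℂ (LinearMap.ker φ) ≤
      Module.finrank ℂ (fatForms r d (Sum.elim p q) (Sum.elim m n)) := by
    rw [(Submodule.equivMapOfInjective _ (Submodule.subtype_injective W)
      (LinearMap.ker φ)).finrank_eq]
    apply Submodule.finrank_mono
    rintro _ ⟨F, hF, rfl⟩
    refine ⟨F.2.1, ?_⟩
    rintro (i | j)
    · exact F.2.2 i
    · change VanishesToOrder F.1 (q j) (n j)
      rw [← exists_toPoly F.2.1]
      apply vanishes_of_affine (hq j)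
      intro β h0 hβ
      rw [exists_toPoly F.2.1]
      have h4 : φ F = 0 := hF
      have h5 := congrFun h4 ⟨j, β, mem_aff.2 ⟨h0, hβ⟩⟩
      rw [hφ] at h5
      exact h5
  change Module.finrank ℂ W ≤ _
  omega

/-! ### Linear changes of coordinates -/

/-- The dimension is invariant under linear changes of coordinates. -/
theorem finrank_linSubst {r d : ℕ} {ι : Type*} (p : ι → Fin (r + 1) → ℂ) (m : ι → ℕ)
    {A B : Matrix (Fin (r + 1)) (Fin (r + 1)) ℂ} (hAB : A * B = 1) :
    Module.finrank ℂ (fatForms r d (fun i => A.mulVec (p i)) m) =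
      Module.finrank ℂ (fatForms r d p m) := by
  have hBA : B * A = 1 := mul_eq_one_comm.1 hAB
  have key : ∀ (A B : Matrix (Fin (r + 1)) (Fin (r + 1)) ℂ) (p : ι → Fin (r + 1) → ℂ),
      A * B = 1 → Module.finrank ℂ (fatForms r d (fun i => A.mulVec (p i)) m) ≤
        Module.finrank ℂ (fatForms r d p m) := by
    intro A B p hAB
    have hinj : Function.Injective (linSubst A).toLinearMap := by
      intro F G hFG
      have h1 : linSubst B (linSubst A F) = linSubst B (linSubst A G) := by
        have : linSubst A F = linSubst A G := hFG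
        rw [this]
      rwa [linSubst_comp, linSubst_comp, hAB, linSubst_one, linSubst_one] at h1
    rw [(Submodule.equivMapOfInjective _ hinj
      (fatForms r d (fun i => A.mulVec (p i)) m)).finrank_eq]
    apply Submodule.finrank_mono
    rintro _ ⟨F, hF, rfl⟩
    exact ⟨linSubst_isHomogeneous A hF.1, fun i => vanishes_linSubst (hF.2 i)⟩
  refine le_antisymm (key A B p hAB) ?_
  have h := key B A (fun i => A.mulVec (p i)) hBA
  have h2 : (fun i => B.mulVec (A.mulVec (p i))) = p := by
    funext i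
    rw [Matrix.mulVec_mulVec, hBA, Matrix.one_mulVec]
  rwa [h2] at h

/-! ### Coordinate points -/

end Pool.Agent.H18.Fat

end

section

/-!
# Module GenB: the general dimension

Useful: `general_finrank_le`, `finrank_add_length_ge` (H18/FatToric), `finite_fat` (H21/HD/BridgeC),
`Nat.sInf_mem`, `Nat.sInf_le`, `Submodule.finrank_mono`, `Submodule.finrank_sup_add_finrank_inf_eq`,
`finrank_homog'` (H21/HD/BridgeD).
-/

namespace Pool.Agent.H21.NX

open Finset MvPolynomial Pool.Agent.H18.Fat Pool.Agent.H18.Ex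

namespace GenBX

end GenBX

open GenBX

/-- The minimal dimension is attained at general points: transport `general_finrank_le` along
`Fintype.equivFin`. -/
theorem gen_gdim (r d : ℕ) {κ : Type} [Fintype κ] (m : κ → ℕ) :
    Gen r κ fun p => Module.finrank ℂ (fatForms r d p m) = gdim r d m := by
  classical
  obtain ⟨p₀, hp₀⟩ := gdim_attained r d m
  let e := Fintype.equivFin κ
  have h1 : Gen r (Fin (Fintype.card κ)) fun p =>
      Module.finrank ℂ (fatForms r d p fun i => m (e.symm i)) ≤
        Module.finrank ℂ (fatForms r d (fun i => p₀ (e.symm i)) fun i => m (e.symm i)) :=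
    general_finrank_le d (fun i => p₀ (e.symm i)) (fun i => m (e.symm i))
  have h2 := h1.comap e.symm e.symm.injective
  refine h2.mono fun p hp => ?_
  rw [fat_comp_equiv e.symm p m, fat_comp_equiv e.symm p₀ m, hp₀] at hp
  exact le_antisymm hp (gdim_le r d m p)

/-- Further points impose at most their length (`finrank_add_length_ge`, with
`Gen.coord_ne_zero`). -/
theorem le_gdim_elim (r d : ℕ) (hr : 1 ≤ r) {κ κ' : Type} [Fintype κ] [Fintype κ'] (m : κ → ℕ)
    (n : κ' → ℕ) : gdim r d m ≤ gdim r d (Sum.elim m n) + ∑ j, ell r (n j) := by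
  obtain ⟨P, hP1, hP2⟩ := ((gen_gdim r d (Sum.elim m n)).and (Gen.coord_ne_zero r (κ ⊕ κ'))).exists
  have h1 := finrank_add_length_ge (d := d) hr (fun i => P (Sum.inl i)) m
    (fun j => P (Sum.inr j)) (fun j => hP2 _ _) n
  have h2 : (Sum.elim (fun i => P (Sum.inl i)) fun j => P (Sum.inr j)) = P := by
    funext x
    rcases x with i | j <;> rfl
  rw [h2, hP1] at h1
  exact (gdim_le r d m _).trans h1

end Pool.Agent.H21.NX

end

section

/-!
# Module GenB: the general dimension

Useful: `general_finrank_le`, `finrank_add_length_ge` (H18/FatToric), `finite_fat` (H21/HD/BridgeC),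
`Nat.sInf_mem`, `Nat.sInf_le`, `Submodule.finrank_mono`, `Submodule.finrank_sup_add_finrank_inf_eq`,
`finrank_homog'` (H21/HD/BridgeD).
-/

namespace Pool.Agent.H21.NX

open Finset MvPolynomial Pool.Agent.H18.Fat Pool.Agent.H18.Ex

namespace GenBX

end GenBX

open GenBX

/-- Submodularity: at general points `V(m, n)` and `V(m, n')` are subspaces of `V(m)` with
intersection `V(m, n, n')`. -/
theorem gdim_submod (r d : ℕ) {κ κ₁ κ₂ : Type} [Fintype κ] [Fintype κ₁] [Fintype κ₂] (m : κ → ℕ)
    (n₁ : κ₁ → ℕ) (n₂ : κ₂ → ℕ) :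
    gdim r d (Sum.elim m n₁) + gdim r d (Sum.elim m n₂) ≤
      gdim r d m + gdim r d (Sum.elim (Sum.elim m n₁) n₂) := by
  have hinj : Function.Injective (fun i : κ => (Sum.inl (Sum.inl i) : (κ ⊕ κ₁) ⊕ κ₂)) :=
    fun a b h => Sum.inl_injective (Sum.inl_injective h)
  obtain ⟨P, hP1, hP2⟩ := ((gen_gdim r d (Sum.elim (Sum.elim m n₁) n₂)).and
    ((gen_gdim r d m).comap (fun i : κ => (Sum.inl (Sum.inl i) : (κ ⊕ κ₁) ⊕ κ₂)) hinj)).exists
  let P₁ : κ ⊕ κ₁ → Fin (r + 1) → ℂ := fun i => P (Sum.inl i)
  let P₂ : κ ⊕ κ₂ → Fin (r + 1) → ℂ :=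
    Sum.elim (fun i => P (Sum.inl (Sum.inl i))) fun j => P (Sum.inr j)
  let P₀ : κ → Fin (r + 1) → ℂ := fun i => P (Sum.inl (Sum.inl i))
  have hf1 := finite_fat (d := d) P₁ (Sum.elim m n₁)
  have hf2 := finite_fat (d := d) P₂ (Sum.elim m n₂)
  have hf0 := finite_fat (d := d) P₀ m
  have h1 := Submodule.finrank_sup_add_finrank_inf_eq (fatForms r d P₁ (Sum.elim m n₁))
    (fatForms r d P₂ (Sum.elim m n₂))
  have h2 : fatForms r d P₁ (Sum.elim m n₁) ⊔ fatForms r d P₂ (Sum.elim m n₂) ≤
      fatForms r d P₀ m :=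
    sup_le (fun F hF => ⟨hF.1, fun i => hF.2 (Sum.inl i)⟩)
      (fun F hF => ⟨hF.1, fun i => hF.2 (Sum.inl i)⟩)
  have h3 : fatForms r d P₁ (Sum.elim m n₁) ⊓ fatForms r d P₂ (Sum.elim m n₂) =
      fatForms r d P (Sum.elim (Sum.elim m n₁) n₂) := by
    ext F
    constructor
    · rintro ⟨hF1, hF2⟩
      refine ⟨hF1.1, ?_⟩
      rintro (i | j)
      · exact hF1.2 i
      · exact hF2.2 (Sum.inr j)
    · intro hF
      refine ⟨⟨hF.1, fun i => hF.2 (Sum.inl i)⟩, hF.1, ?_⟩
      rintro (i | j)
      · exact hF.2 (Sum.inl (Sum.inl i))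
      · exact hF.2 (Sum.inr j)
  have h4 := Submodule.finrank_mono h2
  have h5 := gdim_le r d (Sum.elim m n₁) P₁
  have h6 := gdim_le r d (Sum.elim m n₂) P₂
  rw [h3, hP1] at h1
  have hP2' : Module.finrank ℂ (fatForms r d P₀ m) = gdim r d m := hP2
  omega

/-- If adding a general simple point does not lower the dimension then the dimension is `0`:
a nonzero form does not vanish at a general point (`vanishesToOrder_one`, `MvPolynomial.funext`). -/
theorem gdim_simple (r d : ℕ) {κ : Type} [Fintype κ] (m : κ → ℕ) (t : ℕ) (ht : 1 ≤ t)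
    (h : gdim r d (Sum.elim m fun _ : Unit => t) = gdim r d m) : gdim r d m = 0 := by
  have hgen := (gen_gdim r d (Sum.elim m fun _ : Unit => t)).and
    ((gen_gdim r d m).comap (fun i : κ => (Sum.inl i : κ ⊕ Unit)) Sum.inl_injective)
  obtain ⟨G, hG0, hG⟩ := hgen
  obtain ⟨a, ha⟩ : ∃ a, eval a G ≠ 0 := by
    by_contra hcon
    push Not at hcon
    exact hG0 (MvPolynomial.funext fun a => by rw [hcon a, map_zero])
  let p₀ : κ → Fin (r + 1) → ℂ := fun i j => a (Sum.inl i, j)
  let G' : MvPolynomial (Fin (r + 1)) ℂ := aeval (fun x : (κ ⊕ Unit) × Fin (r + 1) =>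
    Sum.elim (fun i => (C (p₀ i x.2) : MvPolynomial (Fin (r + 1)) ℂ)) (fun _ => X x.2) x.1) G
  have hG' : ∀ q : Fin (r + 1) → ℂ, eval q G' =
      eval (fun x : (κ ⊕ Unit) × Fin (r + 1) => Sum.elim p₀ (fun _ => q) x.1 x.2) G := by
    intro q
    simp only [G']
    rw [eval_aeval']
    refine congrArg (fun f : (κ ⊕ Unit) × Fin (r + 1) → ℂ => eval f G) (funext fun x => ?_)
    obtain ⟨i | u, j⟩ := x
    · simp
    · simp
  have hval : ∀ q : Fin (r + 1) → ℂ, eval q G' ≠ 0 →
      fatForms r d p₀ m ≤ fatForms r d (Sum.elim p₀ fun _ : Unit => q)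
        (Sum.elim m fun _ : Unit => t) ∧
        Module.finrank ℂ (fatForms r d p₀ m) = gdim r d m := by
    intro q hq
    rw [hG'] at hq
    obtain ⟨h1, h2⟩ := hG (Sum.elim p₀ fun _ => q) hq
    have h2' : Module.finrank ℂ (fatForms r d p₀ m) = gdim r d m := h2
    refine ⟨?_, h2'⟩
    have hf0 := finite_fat (d := d) p₀ m
    have hle : fatForms r d (Sum.elim p₀ fun _ : Unit => q) (Sum.elim m fun _ : Unit => t) ≤
        fatForms r d p₀ m := fun F hF => ⟨hF.1, fun i => hF.2 (Sum.inl i)⟩
    exact (Submodule.eq_of_le_of_finrank_eq hle (by rw [h1, h2', h])).ge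
  have hq₀ : eval (fun j => a (Sum.inr (), j)) G' ≠ 0 := by
    rw [hG']
    have : (fun x : (κ ⊕ Unit) × Fin (r + 1) =>
        Sum.elim p₀ (fun _ => fun j => a (Sum.inr (), j)) x.1 x.2) = a := by
      funext x
      obtain ⟨i | u, j⟩ := x
      · rfl
      · rfl
    rw [this]
    exact ha
  have hG'0 : G' ≠ 0 := fun h0 => hq₀ (by rw [h0, map_zero])
  rw [← (hval _ hq₀).2]
  have hbot : fatForms r d p₀ m = ⊥ := by
    rw [Submodule.eq_bot_iff]
    intro F hF
    have h1 : F * G' = 0 := by
      apply MvPolynomial.funext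
      intro q
      rw [map_mul, map_zero]
      by_cases hq : eval q G' = 0
      · rw [hq, mul_zero]
      · have h2 := (hval q hq).1 hF
        have h3 : VanishesToOrder F q t := h2.2 (Sum.inr ())
        have h4 := (vanishesToOrder_one F q).1 (vanishes_anti ht h3)
        rw [h4, zero_mul]
    exact (mul_eq_zero.1 h1).resolve_right hG'0
  rw [hbot, finrank_bot]

end Pool.Agent.H21.NX

end

section

/-!
# General d: killing a vector

A general point of exponent `1` in a block (or in `W`) has the effect of one variable less in this block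
(in `W`).
-/

set_option autoImplicit false
set_option linter.unusedSectionVars false

namespace Pool.Agent.GD

open Finset MvPolynomial Pool.Agent.H51.TB Pool.Agent.V7.ST
open Pool.Agent.V7 (msk)

section

variable {ν : Type} [Fintype ν] [DecidableEq ν] {d D J : ℕ} {β : ν → ℕ}

/-- The inclusion of the other variables. -/
def inc (s₀ : ν) (s : {s : ν // s ≠ s₀}) (s' : ν) : ℂ := if s.1 = s' then 1 else 0

theorem cpt_inc (s₀ : ν) : Cpt (fun s : {s : ν // s ≠ s₀} => β s.1) β J (inc s₀) := by
  intro i _ s s' h1 h2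
  unfold inc
  rw [if_neg]
  intro h
  exact h1 (show β s.1 = i by rw [h]; exact h2)

theorem lf_inc (s₀ : ν) (s : {s : ν // s ≠ s₀}) : lf (inc s₀ s) = X s.1 := by
  unfold lf inc
  rw [sum_eq_single s.1]
  · rw [if_pos rfl, C_1, one_mul]
  · intro b _ hb
    rw [if_neg (Ne.symm hb), C_0, zero_mul]
  · intro h
    exact absurd (mem_univ _) h

theorem Sp_inc (s₀ : ν) {b : ν → ℕ} (hb : b s₀ = 0) :
    Sp (inc s₀) (mon ℂ fun s : {s : ν // s ≠ s₀} => b s.1) = mon ℂ b := by
  unfold mon Sp
  rw [map_prod]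
  refine Eq.trans (prod_congr rfl fun s _ => by rw [map_pow, aeval_X, lf_inc]) ?_
  refine Fintype.prod_of_injective (fun s : {s : ν // s ≠ s₀} => s.1) Subtype.val_injective _ _
    ?_ fun s => rfl
  intro s hs
  have h : s = s₀ := by
    by_contra h
    exact hs ⟨⟨s, h⟩, rfl⟩
  rw [h, hb, pow_zero]

/-- The projection along `w`. -/
noncomputable def prj (s₀ : ν) (w : ν → ℂ) (s : ν) (s' : {s : ν // s ≠ s₀}) : ℂ :=
  if s = s₀ then - (w s'.1 / w s₀) else if s = s'.1 then 1 else 0

theorem cpt_prj (s₀ : ν) {w : ν → ℂ} (hw : ∀ s, β s < J → β s ≠ β s₀ → w s = 0) :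
    Cpt β (fun s : {s : ν // s ≠ s₀} => β s.1) J (prj s₀ w) := by
  intro i hi s s' h1 h2
  have h2' : β s'.1 = i := h2
  unfold prj
  by_cases h : s = s₀
  · rw [if_pos h, hw s'.1 (by rw [h2']; exact hi)
      (by rw [h2']; exact fun h3 => h1 (by rw [h]; exact h3.symm)), zero_div, neg_zero]
  · rw [if_neg h, if_neg]
    intro h3
    exact h1 (by rw [h3]; exact h2)

theorem app_prj (s₀ : ν) {w : ν → ℂ} (hw : w s₀ ≠ 0) (s' : {s : ν // s ≠ s₀}) :
    app (prj s₀ w) w s' = 0 := by
  unfold app
  rw [← add_sum_erase univ _ (mem_univ s₀), ← add_sum_erase (univ.erase s₀) _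
    (mem_erase.2 ⟨s'.2, mem_univ s'.1⟩)]
  have h1 : ∑ x ∈ (univ.erase s₀).erase s'.1, w x * prj s₀ w x s' = 0 := by
    refine sum_eq_zero fun x hx => ?_
    rw [mem_erase, mem_erase] at hx
    unfold prj
    rw [if_neg hx.2.1, if_neg hx.1, mul_zero]
  rw [h1]
  unfold prj
  rw [if_pos rfl, if_neg s'.2, if_pos rfl]
  field_simp
  ring

theorem Sp_prj_inc (s₀ : ν) (w : ν → ℂ) (P : MvPolynomial {s : ν // s ≠ s₀} ℂ) :
    Sp (prj s₀ w) (Sp (inc s₀) P) = P := by
  have h : (Sp (prj s₀ w)).comp (Sp (inc s₀)) = AlgHom.id ℂ _ := by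
    refine algHom_ext fun s => ?_
    rw [AlgHom.comp_apply, AlgHom.id_apply]
    unfold Sp
    rw [aeval_X, lf_inc, aeval_X]
    unfold lf prj
    rw [sum_eq_single s]
    · rw [if_neg s.2, if_pos rfl, C_1, one_mul]
    · intro b _ hb
      rw [if_neg s.2, if_neg fun h => hb (Subtype.ext h.symm), C_0, zero_mul]
    · intro h
      exact absurd (mem_univ _) h
  exact AlgHom.congr_fun h P

theorem eq_zero_of_Fn {A : Finset (ν → ℕ)} {f : {a // a ∈ A} → ℂ}
    (h : ∀ b, Fn (ext0 A f) (mon ℂ b) = 0) : f = 0 := by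
  funext a
  have h1 := h a.1
  rw [Fn_mon, ext0_mem] at h1
  exact (mul_eq_zero.1 h1).resolve_left (Nat.cast_ne_zero.2 (fac_pos _).ne')

end

end Pool.Agent.GD

end

section

/-!
# General d, ALPHA, clusters: the position of a cluster with a tied member (CL1, algebra)

A cluster of `l + 1` members created at the level `i`; the first `l` members are `t a_0, …, t a_(l - 1)`, the
last one is `y + t z`, `z` = minus the sum of the parts of the `a_x` in the block `i` (plus any vector which
vanishes on the blocks of `B`).  `tie_limit`: the values at `t = 0` of the solutions.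
-/

set_option autoImplicit false
set_option linter.unusedSectionVars false

namespace Pool.Agent.GD.AL

open Finset MvPolynomial Pool.Agent.H51.TB Pool.Agent.V7.ST
open Pool.Agent.V7 (msk)

section

variable {ν : Type} [Fintype ν] [DecidableEq ν] {d : ℕ}

variable {β : ν → ℕ} {i e dl : ℕ} {B A : Finset ℕ} {L : List (Finset ℕ)}

theorem uu_pq (hl : L.length + 1 ≤ d) (hiA : i ∉ A) (hiB : i ∉ B) (hAB : A ⊆ B)
    (a : ℕ → ν → ℂ) (b y : ν → ℂ) (c : ν × Fin (d + 1) → ℂ) (s : ν) :
    uu β (.cl e dl i (L ++ [A])) (pq β i B L.length a b y c) s =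
      (Polynomial.C (msk β (insert i A) y s) +
        Polynomial.X * Polynomial.C (zh β i B L.length a b s)) +
        Polynomial.X * Polynomial.C (sv β L a s) := by
  rw [uu_cl, List.length_append, List.length_singleton]
  have h1 : ∀ x : Fin (d + 1), (if x.1 < L.length + 1 then
      pt β (.cl e dl i (L ++ [A])) x (pq β i B L.length a b y c) s else 0) =
      (if x.1 < L.length then Polynomial.X * Polynomial.C (avl β L a x.1 s) else 0) +
        if x.1 = L.length then Polynomial.C (msk β (insert i A) y s) +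
          Polynomial.X * Polynomial.C (zh β i B L.length a b s) else 0 := by
    intro x
    rcases lt_trichotomy x.1 L.length with h | h | h
    · rw [if_pos (by omega), if_pos h, if_neg (by omega), pt_pq_lt hl a b y c h, add_zero]
    · rw [if_pos (by omega), if_neg (by omega), if_pos h, pt_pq_len hl hiA hiB hAB a b y c h,
        zero_add]
    · rw [if_neg (by omega), if_neg (by omega), if_neg (by omega), add_zero]
  rw [sum_congr rfl fun x _ => h1 x, sum_add_distrib,
    sum_fin_range (by omega) fun x => Polynomial.X * Polynomial.C (avl β L a x s), ← mul_sum,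
    ← map_sum]
  have h2 : ∑ x : Fin (d + 1), (if x.1 = L.length then Polynomial.C (msk β (insert i A) y s) +
          Polynomial.X * Polynomial.C (zh β i B L.length a b s) else 0) =
      Polynomial.C (msk β (insert i A) y s) +
          Polynomial.X * Polynomial.C (zh β i B L.length a b s) := by
    rw [sum_eq_single (⟨L.length, by omega⟩ : Fin (d + 1))]
    · exact if_pos rfl
    · intro x _ hx
      exact if_neg fun h => hx (Fin.ext h)
    · intro h
      exact absurd (mem_univ _) h
  rw [h2, add_comm]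
  rfl

end

end Pool.Agent.GD.AL

end
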