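import Pool.Agent.H94.LP7.M02
import Pool.Agent.H94.LP7.M03
import Pool.Agent.H94.LP7.M09
import Pool.Agent.H94.LP7.M27

/-! The parts of this file: GD.ST.Lim, GD.Top.Vd. -/

section

/-!
# General d, step: limits of one parameter families of positions; naturality of the functionals
-/

set_option autoImplicit false
set_option linter.unusedSectionVars false

namespace Pool.Agent.GD

open Finset Pool.Agent.H51.TB Pool.Agent.H54.V7

/-- If the values at `t = 0` of all polynomial solutions at the position `Q (t)` lie in `U`, the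
general dimension is at most the dimension of `U`. -/
theorem gd_lim {E ν T κ : Type} [Fintype E] [Fintype κ] (S : Sys E ν T) (m : κ → T)
    (Q : κ → ν → Polynomial ℂ) (U : Submodule ℂ (E → ℂ))
    (h : ∀ F : E → Polynomial ℂ,
      (∀ i (r : S.R (m i)), ∑ e, F e * MvPolynomial.aeval (Q i) (S.co (m i) r e) = 0) →
        (fun e => (F e).eval 0) ∈ U) : S.gd m ≤ Module.finrank ℂ U := by
  classical
  have hfin : ∀ i, Finite (S.R (m i)) := fun i => S.fin (m i)
  have : Finite (Σ i, S.R (m i)) := inferInstance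
  let _ : Fintype (Σ i, S.R (m i)) := Fintype.ofFinite _
  obtain ⟨t, ht⟩ := poly_limit (fun (x : Σ i, S.R (m i)) e =>
    MvPolynomial.aeval (Q x.1) (S.co (m x.1) x.2 e)) U fun F hF => h F fun i r => hF ⟨i, r⟩
  refine (gd_le S m fun i s => (Q i s).eval t).trans (le_trans ?_ ht)
  refine Submodule.finrank_mono fun f hf => ?_
  rw [Sys.mem_V] at hf
  rw [mem_solAt]
  intro x
  refine Eq.trans ?_ (hf x.1 x.2)
  refine sum_congr rfl fun e _ => ?_
  rw [mul_comm]
  congr 1
  have h1 : ((Polynomial.aeval t : Polynomial ℂ →ₐ[ℂ] ℂ).comp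
      (MvPolynomial.aeval (Q x.1))) (S.co (m x.1) x.2 e) =
      MvPolynomial.aeval (fun s => (Q x.1 s).eval t) (S.co (m x.1) x.2 e) := by
    rw [MvPolynomial.comp_aeval]
    rfl
  rw [MvPolynomial.aeval_eq_eval] at h1
  exact h1

section

variable {ν : Type} [Fintype ν] [DecidableEq ν] {R S : Type} [CommRing R] [CommRing S]

theorem mon_map (g : R →+* S) (b : ν → ℕ) : MvPolynomial.map g (mon R b) = mon S b := by
  unfold mon
  rw [map_prod]
  refine prod_congr rfl fun s _ => ?_
  rw [map_pow, MvPolynomial.map_X]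

theorem lf_map (g : R →+* S) (p : ν → R) : MvPolynomial.map g (lf p) = lf fun s => g (p s) := by
  unfold lf
  rw [map_sum]
  refine sum_congr rfl fun s _ => ?_
  rw [map_mul, MvPolynomial.map_C, MvPolynomial.map_X]

/-- Induction on monomials for additive maps. -/
theorem add_ext {M : Type} [AddCommMonoid M] (L L' : MvPolynomial ν R →+ M)
    (h : ∀ (a : R) b, L (MvPolynomial.C a * mon R b) = L' (MvPolynomial.C a * mon R b)) : L = L' := by
  refine AddMonoidHom.ext fun P => ?_
  induction P using MvPolynomial.induction_on' with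
  | monomial b a =>
    have h1 := h a (b : ν → ℕ)
    rw [mon_eq, Finsupp.equivFunOnFinite_symm_coe, MvPolynomial.C_mul_monomial, mul_one] at h1
    exact h1
  | add p q hp hq => rw [map_add, map_add, hp, hq]

/-- Change of the ring. -/
theorem Fn_map (g : R →+* S) (φ : (ν → ℕ) → R) (P : MvPolynomial ν R) :
    g (Fn φ P) = Fn (fun a => g (φ a)) (MvPolynomial.map g P) := by
  have h : (g : R →+ S).comp (Fn φ).toAddMonoidHom =
      (Fn fun a => g (φ a)).toAddMonoidHom.comp (MvPolynomial.map g).toAddMonoidHom := by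
    refine add_ext _ _ fun a b => ?_
    show g (Fn φ (MvPolynomial.C a * mon R b)) =
      Fn (fun a => g (φ a)) (MvPolynomial.map g (MvPolynomial.C a * mon R b))
    rw [map_mul (MvPolynomial.map g), mon_map, MvPolynomial.map_C, C_mul_eq_smul, C_mul_eq_smul,
      (Fn φ).map_smul, (Fn fun a => g (φ a)).map_smul, Fn_mon, Fn_mon, smul_eq_mul, smul_eq_mul,
      map_mul, map_mul, map_natCast]
  exact DFunLike.congr_fun h P

/-- The coefficients of a polynomial family of functionals. -/
theorem Fn_coeff (B : ℕ) (φ : (ν → ℕ) → Polynomial R) (P : MvPolynomial ν R) :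
    (Fn φ (MvPolynomial.map Polynomial.C P)).coeff B = Fn (fun a => (φ a).coeff B) P := by
  have h : (Polynomial.lcoeff R B).toAddMonoidHom.comp ((Fn φ).toAddMonoidHom.comp
      (MvPolynomial.map (Polynomial.C : R →+* Polynomial R)).toAddMonoidHom) =
      (Fn fun a => (φ a).coeff B).toAddMonoidHom := by
    refine add_ext _ _ fun a b => ?_
    show (Fn φ (MvPolynomial.map Polynomial.C (MvPolynomial.C a * mon R b))).coeff B =
      Fn (fun a => (φ a).coeff B) (MvPolynomial.C a * mon R b)
    rw [map_mul, mon_map, MvPolynomial.map_C, C_mul_eq_smul, C_mul_eq_smul, (Fn φ).map_smul,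
      (Fn fun a => (φ a).coeff B).map_smul, Fn_mon, Fn_mon, smul_eq_mul, smul_eq_mul,
      Polynomial.coeff_C_mul, ← Polynomial.C_eq_natCast, Polynomial.coeff_C_mul]
  exact DFunLike.congr_fun h P

end

section

variable {ν ν' : Type} [Fintype ν] [DecidableEq ν] [Fintype ν'] [DecidableEq ν'] {R : Type}
  [CommRing R] {σ : ν' → ν}

theorem rename_mon (hσ : Function.Injective σ) (b : ν' → ℕ) :
    MvPolynomial.rename σ (mon R b) = mon R (Function.extend σ b 0) := by
  unfold mon
  rw [map_prod]
  refine Eq.trans ?_ (Fintype.prod_of_injective σ hσ (fun x => MvPolynomial.X (σ x) ^ b x) _ ?_ ?_)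
  · refine prod_congr rfl fun s _ => ?_
    rw [map_pow, MvPolynomial.rename_X]
  · intro s hs
    rw [Function.extend_apply' _ _ _ fun h => hs h]
    exact pow_zero _
  · intro x
    rw [hσ.extend_apply]

theorem rename_lf (hσ : Function.Injective σ) (p : ν' → R) :
    MvPolynomial.rename σ (lf p) = lf (Function.extend σ p 0) := by
  unfold lf
  rw [map_sum]
  refine Eq.trans ?_ (Fintype.sum_of_injective σ hσ
    (fun x => MvPolynomial.C (p x) * MvPolynomial.X (σ x)) _ ?_ ?_)
  · refine sum_congr rfl fun s _ => ?_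
    rw [map_mul, MvPolynomial.rename_C, MvPolynomial.rename_X]
  · intro s hs
    rw [Function.extend_apply' _ _ _ fun h => hs h]
    simp
  · intro x
    rw [hσ.extend_apply]

/-- The linear form of a vector which vanishes off the image of `σ`. -/
theorem rename_lf' (hσ : Function.Injective σ) (p : ν → R) (hp : ∀ s, (¬ ∃ x, σ x = s) → p s = 0) :
    MvPolynomial.rename σ (lf fun x => p (σ x)) = lf p := by
  rw [rename_lf hσ]
  congr 1
  funext s
  by_cases hs : ∃ x, σ x = s
  · obtain ⟨x, rfl⟩ := hs
    exact hσ.extend_apply _ _ x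
  · rw [Function.extend_apply' _ _ _ hs, hp s hs]
    rfl

theorem fac_extend (hσ : Function.Injective σ) (b : ν' → ℕ) :
    fac (Function.extend σ b 0) = fac b := by
  unfold fac
  refine (Fintype.prod_of_injective σ hσ (fun x => (b x).factorial) _ ?_ ?_).symm
  · intro s hs
    rw [Function.extend_apply' _ _ _ fun h => hs h]
    exact Nat.factorial_zero
  · intro x
    rw [hσ.extend_apply]

/-- Restriction to the subspace. -/
theorem Fn_rename (hσ : Function.Injective σ) (φ : (ν → ℕ) → R) (P : MvPolynomial ν' R) :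
    Fn φ (MvPolynomial.rename σ P) = Fn (fun a => φ (Function.extend σ a 0)) P := by
  have h : (Fn φ).comp (MvPolynomial.rename σ : MvPolynomial ν' R →ₐ[R] MvPolynomial ν R).toLinearMap =
      Fn fun a => φ (Function.extend σ a 0) := by
    refine mon_ext fun b => ?_
    show Fn φ (MvPolynomial.rename σ (mon R b)) = _
    rw [rename_mon hσ, Fn_mon, Fn_mon, fac_extend hσ]
  exact LinearMap.congr_fun h P

end

end Pool.Agent.GD

end

section

/-!
# GD, TOP: the virtual dimensions in small degrees

`lead`: for the configurations of the classes `vd D I = 0` for `D < |I|`, and `vd |I| I` is the number of the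
partial partitions (`FF`).  `v_replicate`: the effect of the points of the main kind on the last level.
-/

set_option autoImplicit false

namespace Pool.Agent.GD

open Finset

/-! ### Powers of `1 / (1 - X)` -/

theorem hs_succ (N : ℕ) : (1 - PowerSeries.X) * hs (N + 1) = hs N := by
  ext k
  rw [sub_mul, one_mul, map_sub]
  unfold hs
  rcases k with - | k
  · rw [PowerSeries.coeff_mk, PowerSeries.coeff_zero_X_mul, PowerSeries.coeff_mk]
    simp
  · rw [PowerSeries.coeff_mk, PowerSeries.coeff_succ_X_mul, PowerSeries.coeff_mk, PowerSeries.coeff_mk,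
      Nat.multichoose_succ_succ]
    push_cast
    ring

theorem hs_zero : hs 0 = 1 := by
  ext k
  unfold hs
  rw [PowerSeries.coeff_mk, PowerSeries.coeff_one]
  rcases k with - | k
  · simp
  · simp

theorem hs_pow (N : ℕ) : (1 - PowerSeries.X) ^ N * hs N = 1 := by
  induction N with
  | zero => rw [pow_zero, one_mul, hs_zero]
  | succ N ih => rw [pow_succ, mul_assoc, hs_succ, ih]

theorem hs_add (a b : ℕ) : hs (a + b) = hs a * hs b := by
  have h1 := hs_pow a
  have h2 := hs_pow b
  have h3 := hs_pow (a + b)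
  rw [pow_add] at h3
  calc hs (a + b) = ((1 - PowerSeries.X) ^ a * hs a) * ((1 - PowerSeries.X) ^ b * hs b) * hs (a + b) := by
        rw [h1, h2, one_mul, one_mul]
    _ = (hs a * hs b) * ((1 - PowerSeries.X) ^ a * (1 - PowerSeries.X) ^ b * hs (a + b)) := by ring
    _ = hs a * hs b := by rw [h3, mul_one]

theorem hs_sum (c : ℕ → ℕ) (s : Finset ℕ) : hs (∑ i ∈ s, c i) = ∏ i ∈ s, hs (c i) := by
  classical
  induction s using Finset.induction_on with
  | empty => rw [sum_empty, prod_empty, hs_zero]
  | insert i s hi ih => rw [sum_insert hi, prod_insert hi, hs_add, ih]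

theorem hs_sub_one (N : ℕ) : hs N - 1 =
    PowerSeries.X * PowerSeries.mk fun k => (Nat.multichoose N (k + 1) : ℤ) := by
  ext k
  rcases k with - | k
  · unfold hs
    simp
  · rw [map_sub, PowerSeries.coeff_succ_X_mul, PowerSeries.coeff_mk]
    unfold hs
    rw [PowerSeries.coeff_mk, PowerSeries.coeff_one, if_neg (Nat.succ_ne_zero k), sub_zero]

/-! ### Alternating sums -/

/-- The alternating sum of the coefficients. -/
noncomputable def mob (A : Finset ℕ → PowerSeries ℤ) (D : ℕ) (I : Finset ℕ) : ℤ :=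
  ∑ I' ∈ I.powerset, (-1) ^ I'.card * PowerSeries.coeff D (A I')

theorem vd_eq_mob (D : ℕ) (I : Finset ℕ) (c : ℕ → ℕ) (n : ℕ) (ms : Multiset Kd) : vd D I c n ms =
    mob (fun I' => (ms.map (Kd.P I')).prod * hs (n - ∑ i ∈ I', c i)) D I := rfl

theorem mob_congr {A B : Finset ℕ → PowerSeries ℤ} {D : ℕ} {I : Finset ℕ} (h : ∀ I' ⊆ I, A I' = B I') :
    mob A D I = mob B D I := by
  unfold mob
  refine sum_congr rfl fun I' hI' => ?_
  rw [h I' (mem_powerset.1 hI')]

theorem mob_ord (A : Finset ℕ → PowerSeries ℤ) (S : Finset ℕ) (x D : ℕ) (I : Finset ℕ) :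
    mob (fun I' => (if I' ⊆ S then 1 - PowerSeries.X ^ x else 1) * A I') D I =
      mob A D I - if x ≤ D then mob A (D - x) (I ∩ S) else 0 := by
  classical
  have h1 : ∀ I' : Finset ℕ, PowerSeries.coeff D ((if I' ⊆ S then 1 - PowerSeries.X ^ x else 1) * A I') =
      PowerSeries.coeff D (A I') - if I' ⊆ S then
        (if x ≤ D then PowerSeries.coeff (D - x) (A I') else 0) else 0 := by
    intro I'
    split_ifs with h h'
    · rw [sub_mul, one_mul, map_sub, PowerSeries.coeff_X_pow_mul', if_pos h']
    · rw [sub_mul, one_mul, map_sub, PowerSeries.coeff_X_pow_mul', if_neg h']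
    · rw [one_mul, sub_zero]
  unfold mob
  simp only [h1, mul_sub, sum_sub_distrib]
  congr 1
  have h2 : (I ∩ S).powerset = I.powerset.filter fun I' => I' ⊆ S := by
    ext I'
    rw [mem_filter, mem_powerset, mem_powerset, subset_inter_iff]
  rw [h2]
  split_ifs with h
  · rw [sum_filter]
    refine sum_congr rfl fun I' _ => ?_
    split_ifs
    · rfl
    · rw [mul_zero]
  · refine sum_eq_zero fun I' _ => ?_
    split_ifs <;> rw [mul_zero]

theorem vd_ord (D : ℕ) (I : Finset ℕ) (c : ℕ → ℕ) (n x : ℕ) (S : Finset ℕ) (ms : Multiset Kd) :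
    vd D I c n (Kd.ord x S ::ₘ ms) =
      vd D I c n ms - if x ≤ D then vd (D - x) (I ∩ S) c n ms else 0 := by
  rw [vd_eq_mob, vd_eq_mob, vd_eq_mob, ← mob_ord]
  refine mob_congr fun I' _ => ?_
  rw [Multiset.map_cons, Multiset.prod_cons, mul_assoc]
  rfl

/-- The factor of a set. -/
theorem mob_in (A : Finset ℕ → PowerSeries ℤ) (D : ℕ) {I : Finset ℕ} {i : ℕ} (hi : i ∉ I) :
    ∑ I' ∈ (insert i I).powerset, (if i ∈ I' then (-1) ^ I'.card * PowerSeries.coeff D (A I') else 0) =
      mob A D (insert i I) - mob A D I := by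
  classical
  unfold mob
  rw [eq_sub_iff_add_eq, ← sum_filter]
  have h2 : I.powerset = (insert i I).powerset.filter fun I' => i ∉ I' := by
    ext I'
    rw [mem_filter, mem_powerset, mem_powerset]
    constructor
    · intro h
      exact ⟨h.trans (subset_insert _ _), fun h' => hi (h h')⟩
    · rintro ⟨h1, h2⟩
      exact (subset_insert_iff_of_notMem h2).1 h1
  rw [h2]
  exact sum_filter_add_sum_filter_not _ _ _

theorem vd_zero_ms {I : Finset ℕ} (D : ℕ) (c : ℕ → ℕ) (n : ℕ) (hn : ∑ i ∈ I, c i ≤ n) :
    vd D I c n 0 = PowerSeries.coeff D (hs (n - ∑ i ∈ I, c i) * ∏ i ∈ I, (hs (c i) - 1)) := by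
  classical
  have h1 : ∏ i ∈ I, (hs (c i) - 1) = ∑ I' ∈ I.powerset, (-1) ^ I'.card * ∏ i ∈ I \ I', hs (c i) := by
    have h2 : ∀ i ∈ I, hs (c i) - 1 = (-1) + hs (c i) := fun i _ => by ring
    rw [prod_congr rfl h2, prod_add]
    refine sum_congr rfl fun I' _ => ?_
    rw [prod_const]
  rw [h1, mul_sum, map_sum]
  unfold vd
  refine sum_congr rfl fun I' hI' => ?_
  have hsub := mem_powerset.1 hI'
  have h3 : n - ∑ i ∈ I', c i = (n - ∑ i ∈ I, c i) + ∑ i ∈ I \ I', c i := by
    have := sum_sdiff (f := c) hsub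
    omega
  rw [Multiset.map_zero, Multiset.prod_zero, one_mul, h3, hs_add, hs_sum, mul_left_comm]
  rcases Nat.even_or_odd I'.card with h | h
  · rw [h.neg_one_pow, h.neg_one_pow, one_mul, one_mul]
  · rw [h.neg_one_pow, h.neg_one_pow, neg_one_mul, neg_one_mul, map_neg]

/-! ### The leading terms -/

/-- A cluster has the factors of its points and the factor of the trace. -/
theorem vd_cl (D : ℕ) (I : Finset ℕ) (c : ℕ → ℕ) (n e dl i : ℕ) (As : List (Finset ℕ))
    (hi : ∀ A ∈ As, i ∉ A) (ms : Multiset Kd) :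
    vd D I c n (Kd.cl e dl i As ::ₘ ms) =
      vd D I c n (((As.map fun A => Kd.ord e A : List Kd) : Multiset Kd) + ms) -
        if i ∈ I ∧ trx e dl As.length ≤ D then
          vd (D - trx e dl As.length) (insert i (I.erase i ∩ inter As)) c n
              (((As.map fun A => Kd.ord e A : List Kd) : Multiset Kd) + ms) -
            vd (D - trx e dl As.length) (I.erase i ∩ inter As) c n
              (((As.map fun A => Kd.ord e A : List Kd) : Multiset Kd) + ms) else 0 := by
  classical
  obtain ⟨t, ht⟩ : ∃ t, t = trx e dl As.length := ⟨_, rfl⟩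
  obtain ⟨B, hB⟩ : ∃ B : Finset ℕ → PowerSeries ℤ, B = fun I' =>
      ((((As.map fun A => Kd.ord e A : List Kd) : Multiset Kd) + ms).map (Kd.P I')).prod *
        hs (n - ∑ i ∈ I', c i) := ⟨_, rfl⟩
  have hBv : ∀ D I, vd D I c n (((As.map fun A => Kd.ord e A : List Kd) : Multiset Kd) + ms) =
      mob B D I := by
    intro D I
    rw [hB]
    rfl
  have hnot : i ∉ I.erase i ∩ inter As := by
    rw [mem_inter]
    exact fun h => notMem_erase i I h.1
  rw [hBv, hBv, hBv, ← ht]
  have h1 : ∀ I' : Finset ℕ, ((Kd.cl e dl i As ::ₘ ms).map (Kd.P I')).prod * hs (n - ∑ i ∈ I', c i) =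
      B I' - (if i ∈ I' ∧ I'.erase i ⊆ inter As then PowerSeries.X ^ t * B I' else 0) := by
    intro I'
    have h2 : B I' = (As.map fun A => if I' ⊆ A then 1 - PowerSeries.X ^ e else (1 : PowerSeries ℤ)).prod *
        ((ms.map (Kd.P I')).prod * hs (n - ∑ i ∈ I', c i)) := by
      rw [hB]
      simp only [Multiset.map_add, Multiset.prod_add, Multiset.map_coe, Multiset.prod_coe, List.map_map]
      rw [mul_assoc]
      rfl
    rw [Multiset.map_cons, Multiset.prod_cons, mul_assoc]
    by_cases h3 : i ∈ I'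
    · have h4 : (As.map fun A => if I' ⊆ A then 1 - PowerSeries.X ^ e else (1 : PowerSeries ℤ)).prod =
          1 := by
        apply List.prod_eq_one
        intro y hy
        obtain ⟨A, hA, rfl⟩ := List.mem_map.1 hy
        rw [if_neg]
        exact fun h5 => hi A hA (h5 h3)
      rw [h4, one_mul] at h2
      rw [h2]
      by_cases h5 : I'.erase i ⊆ inter As
      · rw [if_pos ⟨h3, h5⟩]
        have h6 : Kd.P I' (Kd.cl e dl i As) = 1 - PowerSeries.X ^ t := by
          show (if i ∈ I' then _ else _) = _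
          rw [if_pos h3, if_pos h5, ht]
        rw [h6, sub_mul, one_mul]
      · rw [if_neg fun h => h5 h.2, sub_zero]
        have h6 : Kd.P I' (Kd.cl e dl i As) = 1 := by
          show (if i ∈ I' then _ else _) = _
          rw [if_pos h3, if_neg h5]
        rw [h6, one_mul]
    · rw [if_neg fun h => h3 h.1, sub_zero, h2]
      have h6 : Kd.P I' (Kd.cl e dl i As) =
          (As.map fun A => if I' ⊆ A then 1 - PowerSeries.X ^ e else (1 : PowerSeries ℤ)).prod := by
        show (if i ∈ I' then _ else _) = _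
        rw [if_neg h3]
      rw [h6]
  rw [vd_eq_mob]
  unfold mob
  simp only [h1, map_sub, mul_sub, sum_sub_distrib]
  congr 1
  by_cases h2 : i ∈ I ∧ t ≤ D
  · rw [if_pos h2]
    have h3 := mob_in B (D - t) hnot
    unfold mob at h3
    rw [← h3]
    have h4 : insert i (I.erase i ∩ inter As) ⊆ I := by
      intro x hx
      rcases mem_insert.1 hx with rfl | hx
      · exact h2.1
      · exact mem_of_mem_erase (mem_inter.1 hx).1
    have h5 : ∀ I' ∈ I.powerset, (-1) ^ I'.card * PowerSeries.coeff D
        (if i ∈ I' ∧ I'.erase i ⊆ inter As then PowerSeries.X ^ t * B I' else 0) =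
        if i ∈ I' ∧ I'.erase i ⊆ inter As then (-1) ^ I'.card * PowerSeries.coeff (D - t) (B I') else 0 := by
      intro I' _
      split_ifs
      · rw [PowerSeries.coeff_X_pow_mul', if_pos h2.2]
      · rw [map_zero, mul_zero]
    rw [sum_congr rfl h5, ← sum_filter, ← sum_filter]
    refine sum_congr ?_ fun _ _ => rfl
    ext I'
    rw [mem_filter, mem_filter, mem_powerset, mem_powerset]
    constructor
    · rintro ⟨h6, h7, h8⟩
      refine ⟨?_, h7⟩
      intro x hx
      rw [mem_insert, mem_inter, mem_erase]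
      by_cases hxi : x = i
      · exact Or.inl hxi
      · exact Or.inr ⟨⟨hxi, h6 hx⟩, h8 (mem_erase.2 ⟨hxi, hx⟩)⟩
    · rintro ⟨h6, h7⟩
      refine ⟨h6.trans h4, h7, ?_⟩
      intro x hx
      have h8 := h6 (mem_of_mem_erase hx)
      rw [mem_insert, mem_inter] at h8
      rcases h8 with h8 | h8
      · exact absurd h8 (ne_of_mem_erase hx)
      · exact h8.2
  · rw [if_neg h2]
    refine sum_eq_zero fun I' hI' => ?_
    split_ifs with h3
    · have h4 : i ∈ I := (mem_powerset.1 hI') h3.1
      rw [PowerSeries.coeff_X_pow_mul', if_neg fun h5 => h2 ⟨h4, h5⟩, mul_zero]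
    · rw [map_zero, mul_zero]

end Pool.Agent.GD

end
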