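import Pool.Agent.H94.LP7.M02
import Pool.Agent.H94.LP7.M03

/-! The parts of this file: GD.ST.Eqv, GD.ST.Psi, GD.ST.Opt. -/

section

/-!
# General d: the general dimension depends only on the sizes of the blocks
-/

set_option autoImplicit false
set_option linter.unusedSectionVars false

namespace Pool.Agent.GD

open Finset MvPolynomial Pool.Agent.H51.TB Pool.Agent.V7.ST

/-- The blocks which occur in an object are `< J`. -/
def Kd.Blk (J : ℕ) : Kd → Prop
  | .ord _ A => A ⊆ range J
  | .cl _ _ i As => i < J ∧ ∀ A ∈ As, A ⊆ range J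

variable {ν ν' : Type} [Fintype ν] [DecidableEq ν] [Fintype ν'] [DecidableEq ν']

section ren

variable {d J : ℕ} {β : ν → ℕ} {β' : ν' → ℕ} (φ : ν ≃ ν')
  (hβ : ∀ s, ∀ i < J, β s = i ↔ β' (φ s) = i)

include hβ

private theorem mem_ren {A : Finset ℕ} (hA : A ⊆ range J) (s : ν) : β s ∈ A ↔ β' (φ s) ∈ A := by
  constructor
  · intro h
    rwa [(hβ s (β s) (mem_range.1 (hA h))).1 rfl]
  · intro h
    rwa [(hβ s (β' (φ s)) (mem_range.1 (hA h))).2 rfl]

omit hβ [Fintype ν] [DecidableEq ν] [Fintype ν'] [DecidableEq ν'] in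
private theorem getD_sub {As : List (Finset ℕ)} (h : ∀ A ∈ As, A ⊆ range J) (x : ℕ) :
    As.getD x ∅ ⊆ range J := by
  rcases Nat.lt_or_ge x As.length with hx | hx
  · rw [List.getD_eq_getElem _ _ hx]
    exact h _ (List.getElem_mem hx)
  · rw [List.getD_eq_default _ _ hx]
    exact empty_subset _

private theorem msk_ren {A : Finset ℕ} (hA : A ⊆ range J) (q : ν → ℂ) (q' : ν' → ℂ) (s : ν)
    (h : q s = q' (φ s)) : Pool.Agent.V7.msk β A q s = Pool.Agent.V7.msk β' A q' (φ s) := by
  unfold Pool.Agent.V7.msk
  simp only [mem_ren φ hβ hA s, h]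

theorem pt_ren (k : Kd) (hk : k.Blk J) (x : Fin (d + 1)) (q : ν' × Fin (d + 1) → ℂ)
    (s : ν) : pt β k x (fun z => q (φ z.1, z.2)) s = pt β' k x q (φ s) := by
  rcases k with ⟨e, A⟩ | ⟨e, dl, i, As⟩
  · exact msk_ren φ hβ hk (fun s => q (φ s, 0)) (fun s => q (s, 0)) s rfl
  · show Pool.Agent.V7.msk β (As.getD x ∅) (fun s =>
      if β s = i ∧ x.1 + 1 = As.length then
        - ∑ y : Fin (d + 1), if y.1 + 1 < As.length then q (φ s, y) else 0
      else q (φ s, x)) s = Pool.Agent.V7.msk β' (As.getD x ∅) (fun s =>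
      if β' s = i ∧ x.1 + 1 = As.length then
        - ∑ y : Fin (d + 1), if y.1 + 1 < As.length then q (s, y) else 0
      else q (s, x)) (φ s)
    refine msk_ren φ hβ (getD_sub hk.2 _) _ _ s ?_
    simp only [hβ s i hk.1]

theorem uu_ren (k : Kd) (hk : k.Blk J) (q : ν' × Fin (d + 1) → ℂ) (s : ν) :
    uu β k (fun z => q (φ z.1, z.2)) s = uu β' k q (φ s) := by
  unfold uu
  refine sum_congr rfl fun x _ => ?_
  rw [pt_ren φ hβ k hk]

theorem zz_ren {i : ℕ} (hi : i < J) (q : ν' × Fin (d + 1) → ℂ) (s : ν) :
    zz β i (fun z => q (φ z.1, z.2)) s = zz β' i q (φ s) := by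
  unfold zz
  simp only [hβ s i hi]

theorem mem_Ex_ren {I : Finset ℕ} (hI : I ⊆ range J) {D : ℕ} (a : ν' → ℕ) :
    a ∈ Ex β' D I ↔ (fun s => a (φ s)) ∈ Ex β D I := by
  rw [mem_Ex, mem_Ex, Equiv.sum_comp φ a]
  refine and_congr_right fun _ => forall_congr' fun i => forall_congr' fun hi => ?_
  have hiJ := mem_range.1 (hI hi)
  constructor
  · rintro ⟨s, h1, h2⟩
    refine ⟨φ.symm s, ?_, ?_⟩
    · rw [hβ _ i hiJ, Equiv.apply_symm_apply]
      exact h1
    · rw [Equiv.apply_symm_apply]
      exact h2
  · rintro ⟨s, h1, h2⟩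
    exact ⟨φ s, (hβ s i hiJ).1 h1, h2⟩

end ren

section ren2

variable (φ : ν ≃ ν')

theorem fac_ren (b : ν' → ℕ) : fac (fun s => b (φ s)) = fac b :=
  Equiv.prod_comp φ fun s => (b s).factorial

variable {A : Finset (ν → ℕ)} {A' : Finset (ν' → ℕ)}
  (hA : ∀ a : ν' → ℕ, a ∈ A' ↔ (fun s => a (φ s)) ∈ A)

/-- The bijection of the exponents. -/
def exR : {a // a ∈ A'} ≃ {a // a ∈ A} where
  toFun a := ⟨fun s => a.1 (φ s), (hA a.1).1 a.2⟩
  invFun a := ⟨fun s => a.1 (φ.symm s), (hA _).2 (by simp)⟩
  left_inv a := by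
    apply Subtype.ext
    funext s
    show a.1 (φ (φ.symm s)) = a.1 s
    rw [Equiv.apply_symm_apply]
  right_inv a := by
    apply Subtype.ext
    funext s
    show a.1 (φ.symm (φ s)) = a.1 s
    rw [Equiv.symm_apply_apply]

end ren2

end Pool.Agent.GD

end

section

/-!
# General d, step: the objects of the level `j` and of the trace which belong to an object of the level
`j + 1`, and their positions

`unO j k x`, `trO j k x`: the `x`-th object (`none` = there is no such object).
`Psi`: the position of the `x`-th object of the trace (in the variables `ν'`, `σ : ν' → ν` the inclusion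
of the variables off the block `j`); the coordinates which are not used are taken from `δ`.
-/

set_option autoImplicit false
set_option linter.unusedSectionVars false

namespace Pool.Agent.GD

open Finset MvPolynomial Pool.Agent.H51.TB
open Pool.Agent.V7 (msk)

/-- The objects of the level `j`. -/
def unO (j : ℕ) (k : Kd) (x : ℕ) : Option Kd :=
  match k with
  | .ord e A => if x = 0 then some (.ord e (A.erase j)) else none
  | .cl e dl i As =>
      if i = j then (if x < As.length then some (.ord e ((As.getD x ∅).erase j)) else none)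
      else if x = 0 then some (.cl e dl i (As.map fun A => A.erase j)) else none

/-- The objects of the trace. -/
def trO (j : ℕ) (k : Kd) (x : ℕ) : Option Kd :=
  match k with
  | .ord e A => if x = 0 ∧ j ∈ A then some (.ord e (A.erase j)) else none
  | .cl e dl i As =>
      if i = j then (if x = 0 then some (.ord (trx e dl As.length) (inter As)) else none)
      else if ∀ A ∈ As, j ∈ A then
        (if x = 0 then some (.cl e dl i (As.map fun A => A.erase j)) else none)
      else if x < As.length ∧ j ∈ As.getD x ∅ then some (.ord e ((As.getD x ∅).erase j)) else none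

/-- The indices of a family with gaps. -/
abbrev Sm {κ : Type} (o : κ → Option Kd) : Type := {i : κ // (o i).isSome}

/-- The kinds of a family with gaps. -/
def Sm.k {κ : Type} (o : κ → Option Kd) (i : Sm o) : Kd := (o i.1).get i.2

/-- The position of the `x`-th object of the trace. -/
def Psi {ν ν' : Type} [Fintype ν] [DecidableEq ν] {R : Type} [CommRing R] {d : ℕ} (β : ν → ℕ)
    (β' : ν' → ℕ) (σ : ν' → ν) (j : ℕ) (k : Kd) (x : Fin (d + 1)) (q : ν × Fin (d + 1) → R)
    (δ : ν' × Fin (d + 1) → R) (z : ν' × Fin (d + 1)) : R :=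
  match k with
  | .ord _ _ => if z.2 = 0 then q (σ z.1, 0) else δ z
  | .cl e dl i As =>
      if i = j then (if z.2 = 0 ∧ β' z.1 ∉ inter As then uu β (.cl e dl i As) q (σ z.1) else δ z)
      else if ∀ A ∈ As, j ∈ A then q (σ z.1, z.2)
      else if z.2 = 0 ∧ β' z.1 ∉ (As.getD x ∅).erase j then pt β (.cl e dl i As) x q (σ z.1)
      else δ z

end Pool.Agent.GD

end

section

/-!
# General d, step: the multisets of the families with gaps
-/

set_option autoImplicit false

namespace Pool.Agent.GD

open Finset

theorem map_Sm {κ : Type} [Fintype κ] (o : κ → Option Kd) :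
    (univ : Finset (Sm o)).val.map (Sm.k o) = ∑ i, (o i).elim 0 fun k => ({k} : Multiset Kd) := by
  classical
  have h1 : ∑ i, (o i).elim 0 (fun k => ({k} : Multiset Kd)) =
      ∑ i ∈ univ.filter (fun i => (o i).isSome), (o i).elim 0 fun k => ({k} : Multiset Kd) := by
    refine (sum_subset (filter_subset _ _) fun i _ hi => ?_).symm
    have h2 : ¬ (o i).isSome := fun h => hi (mem_filter.2 ⟨mem_univ _, h⟩)
    rw [Option.not_isSome_iff_eq_none] at h2
    rw [h2]
    rfl
  have h2 : ∑ i ∈ univ.filter (fun i => (o i).isSome), (o i).elim 0 (fun k => ({k} : Multiset Kd)) =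
      ∑ i : Sm o, (o i.1).elim 0 fun k => ({k} : Multiset Kd) :=
    sum_subtype _ (fun i => by rw [mem_filter]; exact ⟨fun h => h.2, fun h => ⟨mem_univ _, h⟩⟩)
      (fun i => (o i).elim 0 fun k => ({k} : Multiset Kd))
  have h3 : ∀ i : Sm o, (o i.1).elim 0 (fun k => ({k} : Multiset Kd)) = {Sm.k o i} := by
    rintro ⟨i, hi⟩
    obtain ⟨a, ha⟩ := Option.isSome_iff_exists.1 hi
    have h4 : Sm.k o ⟨i, hi⟩ = a := by
      show (o i).get hi = a
      simp only [ha, Option.get_some]
    rw [h4]
    show (o i).elim 0 _ = _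
    rw [ha]
    rfl
  rw [h1, h2, sum_congr rfl fun i _ => h3 i]
  have h4 : Multiset.map (fun i => ({Sm.k o i} : Multiset Kd)) univ.val =
      Multiset.map (fun a => ({a} : Multiset Kd)) (Multiset.map (Sm.k o) univ.val) := by
    rw [Multiset.map_map]
    rfl
  show _ = Multiset.sum (Multiset.map (fun i => ({Sm.k o i} : Multiset Kd)) univ.val)
  rw [h4, Multiset.sum_map_singleton]

private theorem list_sum {α : Type} {β : Type} (f : α → Multiset β) (a : α) (l : List α) :
    ∀ N : ℕ, l.length ≤ N →
      ∑ x : Fin N, (if x.1 < l.length then f (l.getD x.1 a) else 0) = (l.map f).sum := by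
  induction l with
  | nil =>
    intro N _
    rw [List.map_nil, List.sum_nil]
    exact sum_eq_zero fun x _ => if_neg (by simp)
  | cons b t ih =>
    intro N hN
    rw [List.length_cons] at hN
    obtain ⟨M, rfl⟩ : ∃ M, N = M + 1 := ⟨N - 1, by omega⟩
    rw [Fin.sum_univ_succ, List.map_cons, List.sum_cons, ← ih M (by omega)]
    congr 1
    refine sum_congr rfl fun x _ => ?_
    have h1 : (x.succ : Fin (M + 1)).1 < (b :: t).length ↔ x.1 < t.length := by
      rw [List.length_cons, Fin.val_succ]
      omega
    by_cases h : x.1 < t.length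
    · rw [if_pos (h1.2 h), if_pos h, Fin.val_succ, List.getD_cons_succ]
    · rw [if_neg (fun h2 => h (h1.1 h2)), if_neg h]

private theorem coe_map_sum {α β : Type} (f : α → β) (l : List α) :
    (l.map fun a => ({f a} : Multiset β)).sum = ((l.map f : List β) : Multiset β) := by
  induction l with
  | nil => rfl
  | cons b t ih =>
    rw [List.map_cons, List.sum_cons, ih, List.map_cons]
    rfl

private theorem coe_filter_sum {α β : Type} (p : α → Prop) [DecidablePred p] (f : α → β)
    (l : List α) : (l.map fun a => if p a then ({f a} : Multiset β) else 0).sum =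
      (((l.filter fun a => p a).map f : List β) : Multiset β) := by
  induction l with
  | nil => rfl
  | cons b t ih =>
    rw [List.map_cons, List.sum_cons, ih, List.filter_cons]
    by_cases h : p b
    · rw [if_pos h, if_pos (by simpa using h), List.map_cons]
      rfl
    · rw [if_neg h, if_neg (by simpa using h), zero_add]

private theorem sum_first {β : Type} {N : ℕ} (o : ℕ → Multiset β) (h : ∀ x, x ≠ 0 → o x = 0) :
    ∑ x : Fin (N + 1), o x.1 = o 0 := by
  rw [Fin.sum_univ_succ]
  have h1 : ∑ x : Fin N, o (x.succ : Fin (N + 1)).1 = 0 :=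
    sum_eq_zero fun x _ => h _ (by rw [Fin.val_succ]; omega)
  rw [h1, add_zero]
  rfl

private theorem len_le {d e dl L : ℕ} (he : 2 ≤ e) (h : trx e dl L ≤ d) : L ≤ d := by
  unfold trx at h
  have h1 : L * 1 ≤ L * (e - 1) := Nat.mul_le_mul_left _ (by omega)
  omega

private theorem sum_unO {d j : ℕ} (k : Kd) (h : k.Ok d (j + 1)) :
    ∑ x : Fin (d + 1), (unO j k x.1).elim 0 (fun k => ({k} : Multiset Kd)) = un j k := by
  cases k with
  | ord e A =>
    rw [sum_first (fun x => (unO j (.ord e A) x).elim 0 fun k => ({k} : Multiset Kd))]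
    · simp only [unO, un, if_pos]
      rfl
    · intro x hx
      simp only [unO, if_neg hx]
      rfl
  | cl e dl i As =>
    obtain ⟨he, hL, htr, hi, hA⟩ := h
    by_cases hij : i = j
    · have h1 : ∀ x : Fin (d + 1), (unO j (.cl e dl i As) x.1).elim 0 (fun k => ({k} : Multiset Kd)) =
          if x.1 < As.length then ({Kd.ord e ((As.getD x.1 ∅).erase j)} : Multiset Kd) else 0 := by
        intro x
        simp only [unO, if_pos hij]
        split_ifs <;> rfl
      rw [sum_congr rfl fun x _ => h1 x]
      have h2 := list_sum (fun A : Finset ℕ => ({Kd.ord e (A.erase j)} : Multiset Kd)) ∅ As (d + 1)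
        ((len_le he htr).trans (Nat.le_succ d))
      rw [h2, coe_map_sum]
      simp only [un, if_pos hij]
    · rw [sum_first (fun x => (unO j (.cl e dl i As) x).elim 0 fun k => ({k} : Multiset Kd))]
      · simp only [unO, un, if_neg hij, if_pos]
        rfl
      · intro x hx
        simp only [unO, if_neg hij, if_neg hx]
        rfl

private theorem sum_trO {d j : ℕ} (k : Kd) (h : k.Ok d (j + 1)) :
    ∑ x : Fin (d + 1), (trO j k x.1).elim 0 (fun k => ({k} : Multiset Kd)) = tr j k := by
  cases k with
  | ord e A =>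
    rw [sum_first (fun x => (trO j (.ord e A) x).elim 0 fun k => ({k} : Multiset Kd))]
    · by_cases hj : j ∈ A
      · simp only [trO, tr, if_pos hj, true_and]
        rfl
      · simp only [trO, tr, if_neg hj, true_and]
        rfl
    · intro x hx
      simp only [trO]
      rw [if_neg fun h => hx h.1]
      rfl
  | cl e dl i As =>
    obtain ⟨he, hL, htr, hi, hA⟩ := h
    by_cases hij : i = j
    · rw [sum_first (fun x => (trO j (.cl e dl i As) x).elim 0 fun k => ({k} : Multiset Kd))]
      · simp only [trO, tr, if_pos hij, if_true]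
        rfl
      · intro x hx
        simp only [trO, if_pos hij, if_neg hx]
        rfl
    · by_cases hall : ∀ A ∈ As, j ∈ A
      · rw [sum_first (fun x => (trO j (.cl e dl i As) x).elim 0 fun k => ({k} : Multiset Kd))]
        · simp only [trO, tr, if_neg hij, if_true]
          rw [if_pos hall, if_pos hall]
          rfl
        · intro x hx
          simp only [trO, if_neg hij, if_neg hx]
          rw [if_pos hall]
          rfl
      · have h1 : ∀ x : Fin (d + 1),
            (trO j (.cl e dl i As) x.1).elim 0 (fun k => ({k} : Multiset Kd)) =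
            if x.1 < As.length then (if j ∈ As.getD x.1 ∅ then
              ({Kd.ord e ((As.getD x.1 ∅).erase j)} : Multiset Kd) else 0) else 0 := by
          intro x
          simp only [trO, if_neg hij]
          rw [if_neg hall]
          by_cases h1 : x.1 < As.length
          · rw [if_pos h1]
            by_cases h2 : j ∈ As.getD x.1 ∅
            · rw [if_pos h2, if_pos ⟨h1, h2⟩]
              rfl
            · rw [if_neg h2, if_neg fun h => h2 h.2]
              rfl
          · rw [if_neg h1, if_neg fun h => h1 h.1]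
            rfl
        rw [sum_congr rfl fun x _ => h1 x]
        have h2 := list_sum (fun A : Finset ℕ => if j ∈ A then
          ({Kd.ord e (A.erase j)} : Multiset Kd) else 0) ∅ As (d + 1)
          ((len_le he htr).trans (Nat.le_succ d))
        rw [h2, coe_filter_sum (fun A : Finset ℕ => j ∈ A) fun A => Kd.ord e (A.erase j)]
        simp only [tr, if_neg hij]
        rw [if_neg hall]

private theorem map_aux {d : ℕ} {κ : Type} [Fintype κ] (kk : κ → Kd) (O : Kd → ℕ → Option Kd)
    (f : Kd → Multiset Kd)
    (h : ∀ i, ∑ x : Fin (d + 1), (O (kk i) x.1).elim 0 (fun k => ({k} : Multiset Kd)) = f (kk i)) :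
    (univ : Finset (Sm fun y : κ × Fin (d + 1) => O (kk y.1) y.2.1)).val.map
      (Sm.k fun y : κ × Fin (d + 1) => O (kk y.1) y.2.1) =
        ((univ : Finset κ).val.map kk).bind f := by
  rw [map_Sm, Fintype.sum_prod_type, sum_congr rfl fun i _ => h i, Multiset.bind, Multiset.map_map]
  rfl

theorem map_unO {d j : ℕ} {κ : Type} [Fintype κ] (kk : κ → Kd) (h : ∀ i, (kk i).Ok d (j + 1)) :
    (univ : Finset (Sm fun y : κ × Fin (d + 1) => unO j (kk y.1) y.2.1)).val.map
      (Sm.k fun y : κ × Fin (d + 1) => unO j (kk y.1) y.2.1) =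
        ((univ : Finset κ).val.map kk).bind (un j) :=
  map_aux kk (unO j) (un j) fun i => sum_unO (kk i) (h i)

theorem map_trO {d j : ℕ} {κ : Type} [Fintype κ] (kk : κ → Kd) (h : ∀ i, (kk i).Ok d (j + 1)) :
    (univ : Finset (Sm fun y : κ × Fin (d + 1) => trO j (kk y.1) y.2.1)).val.map
      (Sm.k fun y : κ × Fin (d + 1) => trO j (kk y.1) y.2.1) =
        ((univ : Finset κ).val.map kk).bind (tr j) :=
  map_aux kk (trO j) (tr j) fun i => sum_trO (kk i) (h i)

end Pool.Agent.GD

end
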