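import Pool.Agent.H94.LP7.M11
import Pool.Agent.H94.LP7.M12
import Pool.Agent.H94.LP7.M32
import Pool.Agent.H94.LP7.M36

/-! The parts of this file: GD.ST.Eqv_1, GD.AL.VdP_1, GD.AL.AVb, GD.AL.Mono, GD.AL.Bas. -/

section

/-!
# General d: the general dimension depends only on the sizes of the blocks
-/

set_option autoImplicit false
set_option linter.unusedSectionVars false

namespace Pool.Agent.GD

open Finset MvPolynomial Pool.Agent.H51.TB Pool.Agent.V7.ST

variable {ν ν' : Type} [Fintype ν] [DecidableEq ν] [Fintype ν'] [DecidableEq ν']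

section ren

variable {d J : ℕ} {β : ν → ℕ} {β' : ν' → ℕ} (φ : ν ≃ ν')
  (hβ : ∀ s, ∀ i < J, β s = i ↔ β' (φ s) = i)

include hβ

end ren

section ren2

variable (φ : ν ≃ ν')

private theorem rename_lf_e (p : ν' → ℂ) :
    rename φ (lf fun s => p (φ s) : MvPolynomial ν ℂ) = lf p := by
  unfold lf
  rw [map_sum]
  simp only [map_mul, rename_C, rename_X]
  exact Equiv.sum_comp φ fun s => C (p s) * X s

private theorem rename_mon_e (b : ν' → ℕ) :
    rename φ (mon ℂ fun s => b (φ s) : MvPolynomial ν ℂ) = mon ℂ b := by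
  unfold mon
  rw [map_prod]
  simp only [map_pow, rename_X]
  exact Equiv.prod_comp φ fun s => (X s : MvPolynomial ν' ℂ) ^ b s

variable {A : Finset (ν → ℕ)} {A' : Finset (ν' → ℕ)}
  (hA : ∀ a : ν' → ℕ, a ∈ A' ↔ (fun s => a (φ s)) ∈ A)

private theorem ext0_ren (f : {a // a ∈ A} → ℂ) (a : ν' → ℕ) :
    ext0 A' (fun a => f (exR φ hA a)) a = ext0 A f (fun s => a (φ s)) := by
  unfold ext0
  by_cases h : a ∈ A'
  · rw [dif_pos h, dif_pos ((hA a).1 h)]
    rfl
  · rw [dif_neg h, dif_neg (fun h1 => h ((hA a).2 h1))]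

/-- The functional of the renamed form. -/
private theorem Fn_ren (f : {a // a ∈ A} → ℂ) (y : MvPolynomial ν ℂ) :
    Fn (ext0 A' fun a => f (exR φ hA a)) (rename φ y) = Fn (ext0 A f) y := by
  have h : (Fn (ext0 A' fun a => f (exR φ hA a))).comp (rename φ).toLinearMap =
      Fn (ext0 A f) := by
    refine mon_ext fun b => ?_
    have h1 := rename_mon_e φ fun s => b (φ.symm s)
    simp only [Equiv.symm_apply_apply] at h1
    have h2 := fac_ren φ fun s => b (φ.symm s)
    simp only [Equiv.symm_apply_apply] at h2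
    show Fn (ext0 A' fun a => f (exR φ hA a)) (rename φ (mon ℂ b)) = _
    have h3 := ext0_ren φ hA f fun s => b (φ.symm s)
    simp only [Equiv.symm_apply_apply] at h3
    rw [h1, Fn_mon, Fn_mon, h2, h3]
  exact LinearMap.congr_fun h y

end ren2

private theorem sat_ren {d J : ℕ} {β : ν → ℕ} {β' : ν' → ℕ} (φ : ν ≃ ν')
    (hβ : ∀ s, ∀ i < J, β s = i ↔ β' (φ s) = i) {A : Finset (ν → ℕ)} {A' : Finset (ν' → ℕ)}
    (hA : ∀ a : ν' → ℕ, a ∈ A' ↔ (fun s => a (φ s)) ∈ A) (I : Finset ℕ) (k : Kd) (hk : k.Blk J)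
    (q : ν' × Fin (d + 1) → ℂ) (f : {a // a ∈ A} → ℂ) :
    Sat β' I k q (Fn (ext0 A' fun a => f (exR φ hA a))) ↔
      Sat β I k (fun z => q (φ z.1, z.2)) (Fn (ext0 A f)) := by
  have hpt : ∀ x : Fin (d + 1), rename φ (lf (pt β k x fun z => q (φ z.1, z.2))) =
      lf (pt β' k x q) := by
    intro x
    rw [← rename_lf_e φ (pt β' k x q)]
    congr 2
    funext s
    exact pt_ren φ hβ k hk x q s
  refine and_congr ?_ ?_
  · refine forall_congr' fun x => forall_congr' fun _ => ?_
    constructor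
    · intro h y
      have h1 := h (rename φ y)
      rw [← hpt x, ← map_pow, ← map_mul, Fn_ren] at h1
      exact h1
    · intro h y
      have h1 := h (rename φ.symm y)
      rw [← Fn_ren φ hA, map_mul (rename φ), map_pow (rename φ), hpt x, rename_rename,
        Equiv.self_comp_symm, rename_id_apply] at h1
      exact h1
  · rcases k with ⟨e, B⟩ | ⟨e, dl, i, As⟩
    · exact Iff.rfl
    · have hu : rename φ (lf (uu β (.cl e dl i As) fun z : ν × Fin (d + 1) => q (φ z.1, z.2))) =
          lf (uu β' (.cl e dl i As) q) := by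
        rw [← rename_lf_e φ (uu β' (.cl e dl i As) q)]
        congr 2
        funext s
        exact uu_ren φ hβ _ hk q s
      have hz : rename φ (lf (zz β i fun z : ν × Fin (d + 1) => q (φ z.1, z.2))) =
          lf (zz β' i q) := by
        rw [← rename_lf_e φ (zz β' i q)]
        congr 2
        funext s
        exact zz_ren φ hβ hk.1 q s
      refine forall_congr' fun _ => forall_congr' fun κ => forall_congr' fun _ =>
        forall_congr' fun _ => ?_
      constructor
      · intro h b hb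
        have h1 := h (fun s => b (φ.symm s)) fun s hs => hb _ (by
          rw [hβ _ i hk.1, Equiv.apply_symm_apply]
          exact hs)
        have h2 := rename_mon_e φ fun s => b (φ.symm s)
        simp only [Equiv.symm_apply_apply] at h2
        rw [← hu, ← hz, ← h2, ← map_pow, ← map_pow, ← map_mul, ← map_mul, Fn_ren] at h1
        exact h1
      · intro h b hb
        have h1 := h (fun s => b (φ s)) fun s hs => hb _ ((hβ s i hk.1).1 hs)
        rw [← Fn_ren φ hA, map_mul (rename φ), map_mul (rename φ), map_pow (rename φ),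
          map_pow (rename φ), hu, hz, rename_mon_e] at h1
        exact h1

private theorem finrank_ren {d D J : ℕ} (hD : D ≤ d) {β : ν → ℕ} {β' : ν' → ℕ} (φ : ν ≃ ν')
    (hβ : ∀ s, ∀ i < J, β s = i ↔ β' (φ s) = i) {I : Finset ℕ} (hI : I ⊆ range J) {κ : Type}
    (m : κ → Kd) (hm : ∀ i, (m i).Blk J) (p : κ → ν' × Fin (d + 1) → ℂ) :
    Module.finrank ℂ ((LS d D β' I).V m p) =
      Module.finrank ℂ ((LS d D β I).V m fun i z => p i (φ z.1, z.2)) := by
  have h : (LS d D β' I).V m p = ((LS d D β I).V m fun i z => p i (φ z.1, z.2)).map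
      (LinearEquiv.funCongrLeft ℂ ℂ (exR φ (mem_Ex_ren φ hβ hI))).toLinearMap := by
    ext f
    rw [Submodule.mem_map]
    constructor
    · intro hf
      refine ⟨fun a => f ((exR φ (mem_Ex_ren φ hβ hI)).symm a), ?_, ?_⟩
      · rw [mem_LS hD] at hf ⊢
        intro i
        rw [← sat_ren φ hβ (mem_Ex_ren φ hβ hI) I (m i) (hm i) (p i)]
        simpa using hf i
      · funext a
        show f ((exR φ (mem_Ex_ren φ hβ hI)).symm (exR φ (mem_Ex_ren φ hβ hI) a)) = f a
        rw [Equiv.symm_apply_apply]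
    · rintro ⟨g, hg, rfl⟩
      rw [mem_LS hD] at hg
      rw [mem_LS hD]
      intro i
      exact (sat_ren φ hβ (mem_Ex_ren φ hβ hI) I (m i) (hm i) (p i) g).2 (hg i)
  rw [h]
  exact LinearEquiv.finrank_map_eq _ _

/-- Renaming the variables. -/
theorem HI_equiv {d D : ℕ} (hD : D ≤ d) {β : ν → ℕ} {β' : ν' → ℕ} {J : ℕ} (φ : ν ≃ ν')
    (hβ : ∀ s, ∀ i < J, β s = i ↔ β' (φ s) = i) {I : Finset ℕ} (hI : I ⊆ range J)
    (ms : Multiset Kd) (hm : ∀ k ∈ ms, k.Blk J) : HI d D β I ms = HI d D β' I ms := by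
  unfold HI gM
  have hm' : ∀ i : Fin ms.toList.length, (ms.toList.get i).Blk J := fun i =>
    hm _ (Multiset.mem_toList.1 (List.get_mem _ i))
  apply le_antisymm
  · obtain ⟨p, hp⟩ := gd_attained (LS d D β' I) fun i : Fin ms.toList.length => ms.toList.get i
    rw [← hp, finrank_ren hD φ hβ hI _ hm']
    exact gd_le _ _ _
  · obtain ⟨p, hp⟩ := gd_attained (LS d D β I) fun i : Fin ms.toList.length => ms.toList.get i
    have h1 := finrank_ren hD φ hβ hI _ hm' fun i z => p i (φ.symm z.1, z.2)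
    have h2 : (fun (i : Fin ms.toList.length) (z : ν × Fin (d + 1)) =>
        p i (φ.symm (φ z.1), z.2)) = p := by
      funext i z
      rw [Equiv.symm_apply_apply]
    rw [h2, hp] at h1
    rw [← h1]
    exact gd_le _ _ _

/-- The dimension depends only on the numbers of the variables of the blocks. -/
theorem HI_size {d D : ℕ} (hD : D ≤ d) {β : ν → ℕ} {β' : ν' → ℕ} {J : ℕ}
    (h0 : Fintype.card ν = Fintype.card ν')
    (h : ∀ i < J, (univ.filter fun s => β s = i).card = (univ.filter fun s => β' s = i).card)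
    {I : Finset ℕ} (hI : I ⊆ range J) (ms : Multiset Kd) (hm : ∀ k ∈ ms, k.Blk J) :
    HI d D β I ms = HI d D β' I ms := by
  have hsum : ∀ {μ : Type} [Fintype μ] [DecidableEq μ] (γ : μ → ℕ),
      Fintype.card μ = ∑ i ∈ range J, (univ.filter fun s => γ s = i).card +
        (univ.filter fun s => min (γ s) J = J).card := by
    intro μ _ _ γ
    have hmap : Set.MapsTo (fun s => min (γ s) J) ((univ : Finset μ) : Set μ)
        ((range (J + 1) : Finset ℕ) : Set ℕ) := fun s _ => by
      rw [mem_coe, mem_range]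
      show min (γ s) J < J + 1
      omega
    rw [← card_univ, card_eq_sum_card_fiberwise hmap, sum_range_succ]
    congr 1
    refine sum_congr rfl fun i hi => ?_
    rw [mem_range] at hi
    congr 1
    refine filter_congr fun s _ => ?_
    omega
  have hc : ∀ c : ℕ, Nonempty ({s : ν // min (β s) J = c} ≃ {s : ν' // min (β' s) J = c}) := by
    intro c
    refine ⟨Fintype.equivOfCardEq ?_⟩
    rw [Fintype.card_subtype, Fintype.card_subtype]
    rcases lt_trichotomy c J with hcJ | hcJ | hcJ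
    · have e1 : (univ.filter fun s => min (β s) J = c) = univ.filter fun s => β s = c :=
        filter_congr fun s _ => by omega
      have e2 : (univ.filter fun s => min (β' s) J = c) = univ.filter fun s => β' s = c :=
        filter_congr fun s _ => by omega
      rw [e1, e2, h c hcJ]
    · have h1 := hsum β
      have h2 := hsum β'
      rw [sum_congr rfl fun i hi => h i (mem_range.1 hi)] at h1
      rw [hcJ]
      omega
    · have e1 : (univ.filter fun s => min (β s) J = c) = ∅ :=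
        filter_eq_empty_iff.2 fun s _ => by omega
      have e2 : (univ.filter fun s => min (β' s) J = c) = ∅ :=
        filter_eq_empty_iff.2 fun s _ => by omega
      rw [e1, e2, card_empty, card_empty]
  let e : ∀ c : ℕ, {s : ν // min (β s) J = c} ≃ {s : ν' // min (β' s) J = c} := fun c => (hc c).some
  refine HI_equiv hD (Equiv.ofFiberEquiv e) ?_ hI ms hm
  intro s i hi
  have h1 : min (β' (Equiv.ofFiberEquiv e s)) J = min (β s) J := Equiv.ofFiberEquiv_map e s
  omega

end Pool.Agent.GD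

end

section

/-!
# General d, ALPHA: calculus of the virtual dimensions

* `vd_congr`, `vd_succ` (Pascal in `n`), `vd_upd` (Pascal in `c a`), `vd_one`, `vd_one_upd` (points of
  exponent `1`), `vd_low` (`0` in the degrees `< #I`), `vd_prod` (product with points of the kinds
  `A ⊇ I`), `vd_clu` (clusters), `vd_empty_nonneg`, `vd_empty_le`.
-/

set_option autoImplicit false

namespace Pool.Agent.GD

open Finset

namespace AL

/-! ### Congruence -/

/-! ### Pascal -/

theorem coeff_hs_succ (F : PowerSeries ℤ) (D N : ℕ) :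
    PowerSeries.coeff (D + 1) (F * hs (N + 1)) =
      PowerSeries.coeff (D + 1) (F * hs N) + PowerSeries.coeff D (F * hs (N + 1)) := by
  have h1 : hs (N + 1) = hs N + PowerSeries.X * hs (N + 1) := by
    linear_combination (hs_succ N)
  have h2 : F * hs (N + 1) = F * hs N + PowerSeries.X * (F * hs (N + 1)) := by
    conv_lhs => rw [h1]
    ring
  conv_lhs => rw [h2]
  rw [map_add, PowerSeries.coeff_succ_X_mul]

/-- Pascal in the number of the variables. -/
theorem vd_succ (D : ℕ) {I : Finset ℕ} {c : ℕ → ℕ} {n : ℕ} (hn : ∑ i ∈ I, c i ≤ n)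
    (ms : Multiset Kd) :
    vd (D + 1) I c (n + 1) ms = vd (D + 1) I c n ms + vd D I c (n + 1) ms := by
  unfold vd
  rw [← sum_add_distrib]
  refine sum_congr rfl fun I' hI' => ?_
  have h1 := sum_le_of_sub (c := c) (mem_powerset.1 hI')
  have h2 : n + 1 - ∑ i ∈ I', c i = (n - ∑ i ∈ I', c i) + 1 := by omega
  rw [h2, coeff_hs_succ, mul_add]

/-- Pascal in the size of a block. -/
theorem vd_upd (D : ℕ) {I : Finset ℕ} {c : ℕ → ℕ} {n a : ℕ} (ha : a ∈ I) (hn : ∑ i ∈ I, c i ≤ n)
    (ms : Multiset Kd) :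
    vd (D + 1) I (Function.update c a (c a + 1)) (n + 1) ms =
      vd (D + 1) I c n ms + vd D (I.erase a) (Function.update c a (c a + 1)) (n + 1) ms := by
  unfold vd
  rw [sum_pow_split ha, sum_pow_split ha (fun I' => (-1) ^ I'.card *
    PowerSeries.coeff (D + 1) ((ms.map (Kd.P I')).prod * hs (n - ∑ i ∈ I', c i)))]
  have h1 : ∀ I' ∈ (I.erase a).powerset,
      (-1 : ℤ) ^ I'.card * PowerSeries.coeff (D + 1) ((ms.map (Kd.P I')).prod *
        hs (n + 1 - ∑ i ∈ I', Function.update c a (c a + 1) i)) =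
      (-1) ^ I'.card * PowerSeries.coeff (D + 1) ((ms.map (Kd.P I')).prod *
        hs (n - ∑ i ∈ I', c i)) +
      (-1) ^ I'.card * PowerSeries.coeff D ((ms.map (Kd.P I')).prod *
        hs (n + 1 - ∑ i ∈ I', Function.update c a (c a + 1) i)) := by
    intro I' hI'
    have h2 := mem_powerset.1 hI'
    have h3 : a ∉ I' := fun h => notMem_erase a I (h2 h)
    have h4 := sum_le_of_sub (c := c) (h2.trans (erase_subset _ _))
    rw [sum_upd_notMem h3]
    have h5 : n + 1 - ∑ i ∈ I', c i = (n - ∑ i ∈ I', c i) + 1 := by omega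
    rw [h5, coeff_hs_succ, mul_add]
  have h2 : ∀ I' ∈ I.powerset.filter (fun I' => a ∈ I'),
      (-1 : ℤ) ^ I'.card * PowerSeries.coeff (D + 1) ((ms.map (Kd.P I')).prod *
        hs (n + 1 - ∑ i ∈ I', Function.update c a (c a + 1) i)) =
      (-1) ^ I'.card * PowerSeries.coeff (D + 1) ((ms.map (Kd.P I')).prod *
        hs (n - ∑ i ∈ I', c i)) := by
    intro I' hI'
    rw [sum_upd_mem (mem_filter.1 hI').2, Nat.add_sub_add_right]
  rw [sum_congr rfl h1, sum_congr rfl h2, sum_add_distrib]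
  ring

/-! ### Points of exponent `1` -/

theorem vd_one (D : ℕ) {I A : Finset ℕ} {c : ℕ → ℕ} {n : ℕ} (hA : I ⊆ A)
    (hn : ∑ i ∈ I, c i ≤ n) (ms : Multiset Kd) :
    vd D I c (n + 1) (.ord 1 A ::ₘ ms) = vd D I c n ms := by
  unfold vd
  refine sum_congr rfl fun I' hI' => ?_
  have h2 := mem_powerset.1 hI'
  have h4 := sum_le_of_sub (c := c) h2
  have h5 : n + 1 - ∑ i ∈ I', c i = (n - ∑ i ∈ I', c i) + 1 := by omega
  have h6 : Kd.P I' (.ord 1 A) = 1 - PowerSeries.X ^ 1 := if_pos (h2.trans hA)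
  rw [Multiset.map_cons, Multiset.prod_cons, h6, pow_one, h5]
  congr 2
  linear_combination (ms.map (Kd.P I')).prod * hs_succ (n - ∑ i ∈ I', c i)

theorem vd_one_upd (D : ℕ) {I A : Finset ℕ} {c : ℕ → ℕ} {n a : ℕ} (ha : a ∈ I) (haA : a ∉ A)
    (hA : I.erase a ⊆ A) (hn : ∑ i ∈ I, c i ≤ n) (ms : Multiset Kd) :
    vd D I (Function.update c a (c a + 1)) (n + 1) (.ord 1 A ::ₘ ms) = vd D I c n ms := by
  unfold vd
  refine sum_congr rfl fun I' hI' => ?_
  have h2 := mem_powerset.1 hI'
  have h4 := sum_le_of_sub (c := c) h2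
  rw [Multiset.map_cons, Multiset.prod_cons]
  by_cases h3 : a ∈ I'
  · have h6 : Kd.P I' (.ord 1 A) = 1 := if_neg fun h => haA (h h3)
    rw [sum_upd_mem h3, Nat.add_sub_add_right, h6, one_mul]
  · have h7 : I' ⊆ A := (subset_erase.2 ⟨h2, h3⟩).trans hA
    have h6 : Kd.P I' (.ord 1 A) = 1 - PowerSeries.X ^ 1 := if_pos h7
    have h5 : n + 1 - ∑ i ∈ I', c i = (n - ∑ i ∈ I', c i) + 1 := by omega
    rw [sum_upd_notMem h3, h6, pow_one, h5]
    congr 2
    linear_combination (ms.map (Kd.P I')).prod * hs_succ (n - ∑ i ∈ I', c i)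

/-! ### Clusters -/

/-- A cluster: its members and the trace (`i ∈ I`). -/
theorem vd_clu (D : ℕ) {I : Finset ℕ} (c : ℕ → ℕ) (n e dl : ℕ) {i : ℕ} {As : List (Finset ℕ)}
    (hi : ∀ A ∈ As, i ∉ A) (hiI : i ∈ I) (ms : Multiset Kd) :
    vd D I c n (Kd.cl e dl i As ::ₘ ms) =
      vd D I c n (((As.map fun A => Kd.ord e A : List Kd) : Multiset Kd) + ms) +
        if trx e dl As.length ≤ D then
          vd (D - trx e dl As.length) (I.erase i ∩ inter As) c n ms -
            vd (D - trx e dl As.length) (insert i (I.erase i ∩ inter As)) c n ms else 0 := by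
  rw [vd_cl D I c n e dl i As hi ms, sub_eq_add_neg]
  congr 1
  by_cases h : trx e dl As.length ≤ D
  · rw [if_pos ⟨hiI, h⟩, if_pos h, neg_sub]
    have hnot : i ∉ I.erase i ∩ inter As := fun h => notMem_erase i I (mem_inter.1 h).1
    have key : ∀ ms' : Multiset Kd, vd (D - trx e dl As.length) (I.erase i ∩ inter As) c n ms' -
        vd (D - trx e dl As.length) (insert i (I.erase i ∩ inter As)) c n ms' =
        - ∑ I' ∈ (insert i (I.erase i ∩ inter As)).powerset, (if i ∈ I' then (-1) ^ I'.card *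
          PowerSeries.coeff (D - trx e dl As.length) ((ms'.map (Kd.P I')).prod *
            hs (n - ∑ i ∈ I', c i)) else 0) := by
      intro ms'
      rw [mob_in (fun I' => (ms'.map (Kd.P I')).prod * hs (n - ∑ i ∈ I', c i)) _ hnot,
        ← vd_eq_mob, ← vd_eq_mob]
      ring
    rw [key, key]
    congr 1
    refine sum_congr rfl fun I' _ => ?_
    by_cases h3 : i ∈ I'
    · rw [if_pos h3, if_pos h3, Multiset.map_add, Multiset.prod_add]
      have h4 : ((((As.map fun A => Kd.ord e A : List Kd) : Multiset Kd)).map (Kd.P I')).prod = 1 := by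
        rw [Multiset.map_coe, Multiset.prod_coe, List.map_map]
        apply List.prod_eq_one
        intro y hy
        obtain ⟨A, hA, rfl⟩ := List.mem_map.1 hy
        exact if_neg fun h5 => hi A hA (h5 h3)
      rw [h4, one_mul]
    · rw [if_neg h3, if_neg h3]
  · rw [if_neg fun h' => h h'.2, if_neg h, neg_zero]

/-! ### Low degrees -/

private theorem low_zero {c : ℕ → ℕ} {n : ℕ} {I : Finset ℕ} (hn : ∑ i ∈ I, c i ≤ n) {D : ℕ}
    (hD : D < I.card) : vd D I c n 0 = 0 := by
  have h1 : hs (n - ∑ i ∈ I, c i) * ∏ i ∈ I, (hs (c i) - 1) =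
      PowerSeries.X ^ I.card * (hs (n - ∑ i ∈ I, c i) *
        ∏ i ∈ I, PowerSeries.mk fun k => (Nat.multichoose (c i) (k + 1) : ℤ)) := by
    rw [prod_congr rfl fun i _ => hs_sub_one (c i), prod_mul_distrib, prod_const]
    ring
  rw [vd_zero_ms D c n hn, h1, PowerSeries.coeff_X_pow_mul', if_neg (by omega)]

private theorem low_ord {c : ℕ → ℕ} {n : ℕ} {J : Finset ℕ} {ms : Multiset Kd}
    (h : ∀ I ⊆ J, ∀ D < I.card, vd D I c n ms = 0) {x : ℕ} {A : Finset ℕ} (hA : (J \ A).card ≤ x) :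
    ∀ I ⊆ J, ∀ D < I.card, vd D I c n (.ord x A ::ₘ ms) = 0 := by
  intro I hI D hD
  rw [vd_ord, h I hI D hD]
  split_ifs with h1
  · rw [h (I ∩ A) (inter_subset_left.trans hI) (D - x), sub_zero]
    have h2 := card_sdiff_add_card_inter I A
    have h3 : (I \ A).card ≤ (J \ A).card := card_le_card (sdiff_subset_sdiff hI le_rfl)
    omega
  · rfl

private theorem low_ords {c : ℕ → ℕ} {n : ℕ} {J : Finset ℕ} {ms : Multiset Kd}
    (h : ∀ I ⊆ J, ∀ D < I.card, vd D I c n ms = 0) {x : ℕ} (As : List (Finset ℕ))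
    (hA : ∀ A ∈ As, (J \ A).card ≤ x) :
    ∀ I ⊆ J, ∀ D < I.card,
      vd D I c n (((As.map fun A => Kd.ord x A : List Kd) : Multiset Kd) + ms) = 0 := by
  induction As with
  | nil =>
    rw [List.map_nil, Multiset.coe_nil, zero_add]
    exact h
  | cons A As ih =>
    rw [List.map_cons, ← Multiset.cons_coe, Multiset.cons_add]
    exact low_ord (ih fun B hB => hA B (List.mem_cons_of_mem _ hB)) (hA A List.mem_cons_self)

/-- The virtual dimension vanishes in the degrees `< #I`. -/
theorem vd_low {c : ℕ → ℕ} {n : ℕ} {J : Finset ℕ} (hn : ∑ i ∈ J, c i ≤ n) (ms : Multiset Kd)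
    (hm : ∀ k ∈ ms, k.Low J) : ∀ I ⊆ J, ∀ D < I.card, vd D I c n ms = 0 := by
  induction ms using Multiset.induction_on with
  | empty =>
    intro I hI D hD
    exact low_zero ((sum_le_of_sub hI).trans hn) hD
  | cons k ms ih =>
    have ih' := ih fun k' hk' => hm k' (Multiset.mem_cons_of_mem hk')
    have hk := hm k (Multiset.mem_cons_self k ms)
    cases k with
    | ord x A => exact low_ord ih' hk
    | cl e dl i As =>
      have h0 := low_ords ih' As fun A hA => (hk.2 A hA).2
      intro I hI D hD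
      by_cases hiI : i ∈ I
      · rw [vd_clu D c n e dl (fun A hA => (hk.2 A hA).1) hiI, h0 I hI D hD, zero_add]
        split_ifs with h1
        · have hne : As ≠ [] := by
            rintro rfl
            have := hk.1
            simp at this
          have h2 := card_inter_le hiI As hne fun A hA =>
            ⟨(hk.2 A hA).1, (card_le_card (sdiff_subset_sdiff hI le_rfl)).trans (hk.2 A hA).2⟩
          have h3 := card_sdiff_add_card_inter (I.erase i) (inter As)
          have h4 := card_erase_of_mem hiI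
          have h5 : 1 ≤ I.card := card_pos.2 ⟨i, hiI⟩
          have h6 : trx e dl As.length = As.length * (e - 1) + 1 + dl := rfl
          have hnot : i ∉ I.erase i ∩ inter As := fun h => notMem_erase i I (mem_inter.1 h).1
          have hsub : I.erase i ∩ inter As ⊆ J := inter_subset_left.trans ((erase_subset _ _).trans hI)
          rw [ih' _ hsub _ (by omega), ih' _ (insert_subset (hI hiI) hsub) _ (by
            rw [card_insert_of_notMem hnot]
            omega), sub_zero]
        · rfl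
      · rw [vd_clu_not D c n e dl hiI]
        exact h0 I hI D hD

/-! ### Products -/

/-- Product with points which vanish on all blocks of `I`. -/
theorem vd_prod (D : ℕ) {I : Finset ℕ} {c : ℕ → ℕ} {n₁ : ℕ} (n₂ : ℕ) (hn : ∑ i ∈ I, c i ≤ n₁)
    (S₀ SW : Multiset Kd) (hW : ∀ k ∈ SW, ∃ x A, k = .ord x A ∧ I ⊆ A) :
    vd D I c (n₁ + n₂) (S₀ + SW) =
      ∑ s ∈ range (D + 1), vd s I c n₁ S₀ * vd (D - s) ∅ c n₂ SW := by
  simp only [vd_nil]
  unfold vd
  simp only [sum_mul]
  rw [sum_comm]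
  refine sum_congr rfl fun I' hI' => ?_
  have h2 := mem_powerset.1 hI'
  have h4 := sum_le_of_sub (c := c) h2
  have h5 : n₁ + n₂ - ∑ i ∈ I', c i = (n₁ - ∑ i ∈ I', c i) + n₂ := by omega
  have h6 : (SW.map (Kd.P I')).prod = (SW.map (Kd.P ∅)).prod := by
    congr 1
    refine Multiset.map_congr rfl fun k hk => ?_
    obtain ⟨x, A, rfl, hA⟩ := hW k hk
    have e1 : Kd.P I' (.ord x A) = 1 - PowerSeries.X ^ x := if_pos (h2.trans hA)
    have e2 : Kd.P ∅ (.ord x A) = 1 - PowerSeries.X ^ x := by simp [Kd.P]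
    rw [e1, e2]
  rw [Multiset.map_add, Multiset.prod_add, h5, hs_add, h6]
  have h7 : (S₀.map (Kd.P I')).prod * (SW.map (Kd.P ∅)).prod *
      (hs (n₁ - ∑ i ∈ I', c i) * hs n₂) =
      ((S₀.map (Kd.P I')).prod * hs (n₁ - ∑ i ∈ I', c i)) * ((SW.map (Kd.P ∅)).prod * hs n₂) := by
    ring
  rw [h7, PowerSeries.coeff_mul, Finset.Nat.sum_antidiagonal_eq_sum_range_succ_mk, mul_sum]
  refine sum_congr rfl fun s _ => ?_
  ring

/-! ### The empty configuration -/

/-- The number of the monomials of degree `D` which meet the blocks of `I`. -/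
theorem vd_empty_le (D : ℕ) {I : Finset ℕ} {c : ℕ → ℕ} {n : ℕ} (hn : ∑ i ∈ I, c i ≤ n) :
    vd D I c n 0 ≤ (∏ i ∈ I, (c i : ℤ)) * (n : ℤ) ^ (D - I.card) := by
  have h1 : ∀ J : Finset ℕ, Nn (∏ i ∈ J, (PowerSeries.C ((c i : ℕ) : ℤ) *
      (PowerSeries.X * GD.hs (c i))) - ∏ i ∈ J, (GD.hs (c i) - 1)) := by
    intro J
    induction J using Finset.induction_on with
    | empty =>
      intro k
      simp
    | insert i J hi ih =>
      rw [prod_insert hi, prod_insert hi]
      refine Nn.sub_mul (Nn.hs_le (c i)) (Nn.prod fun j _ => Nn.hs_sub (c j)) ?_ ih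
      intro k
      rw [PowerSeries.coeff_C_mul]
      refine mul_nonneg (Nat.cast_nonneg _) ?_
      rcases k with _ | k
      · simp
      · rw [PowerSeries.coeff_succ_X_mul]
        exact Nn.hs _ _
  have h2 := (Nn.hs (n - ∑ i ∈ I, c i)).mul (h1 I) D
  rw [mul_sub, map_sub, sub_nonneg, ← vd_zero_ms D c n hn] at h2
  refine h2.trans ?_
  have h3 : hs (n - ∑ i ∈ I, c i) * ∏ i ∈ I, (PowerSeries.C ((c i : ℕ) : ℤ) *
      (PowerSeries.X * GD.hs (c i))) =
      PowerSeries.C (∏ i ∈ I, (c i : ℤ)) * (PowerSeries.X ^ I.card * hs n) := by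
    rw [prod_mul_distrib, prod_mul_distrib, prod_const, ← hs_sum, map_prod]
    have h4 : hs n = hs (n - ∑ i ∈ I, c i) * hs (∑ i ∈ I, c i) := by
      rw [← hs_add, Nat.sub_add_cancel hn]
    rw [h4]
    ring
  rw [h3, PowerSeries.coeff_C_mul, PowerSeries.coeff_X_pow_mul']
  refine mul_le_mul_of_nonneg_left ?_ (prod_nonneg fun i _ => Nat.cast_nonneg _)
  split_ifs with h5
  · unfold Pool.Agent.GD.hs
    rw [PowerSeries.coeff_mk]
    exact_mod_cast multichoose_le_pow n (D - I.card)
  · positivity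

end AL

end Pool.Agent.GD

end

section

/-!
# General d, ALPHA: the kind inequality from exactness (random replacement)

`Xct d c n D I ms`: the dimension is the virtual one.  `dl d c n D I ms`: the difference.
`avb`: `c' dl (ord e A) ≤ (c' - 1) dl (ord e (insert a A)) + dl (ord (e - 1) (insert a A))` if the lower pairs
are exact for the sizes `c a - t` of the block `a`, `t ≤ c'`, with `n - t` and `n - t - 1` variables.
-/

set_option autoImplicit false
set_option linter.unusedSectionVars false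

namespace Pool.Agent.GD.AL

open Finset MvPolynomial Pool.Agent.H51.TB Pool.Agent.V7.ST

/-- The difference of the dimension and the virtual dimension. -/
noncomputable def dl (d : ℕ) (c : ℕ → ℕ) (n D : ℕ) (I : Finset ℕ) (ms : Multiset Kd) : ℤ :=
  (HI d D (blk c n) I ms : ℤ) - vd D I c n ms

/-- The size of the block `a` less `t`. -/
def cm (c : ℕ → ℕ) (a t : ℕ) : ℕ → ℕ := Function.update c a (c a - t)

theorem cm_zero (c : ℕ → ℕ) (a : ℕ) : cm c a 0 = c := by
  unfold cm
  rw [Nat.sub_zero, Function.update_eq_self]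

theorem cm_same (c : ℕ → ℕ) (a t : ℕ) : cm c a t a = c a - t := Function.update_self _ _ _

theorem cm_ne (c : ℕ → ℕ) {a i : ℕ} (t : ℕ) (h : i ≠ a) : cm c a t i = c i :=
  Function.update_of_ne h _ _

theorem cm_succ {c : ℕ → ℕ} {a t : ℕ} (h : t < c a) :
    Function.update (cm c a (t + 1)) a (cm c a (t + 1) a + 1) = cm c a t := by
  funext i
  by_cases hi : i = a
  · subst hi
    rw [Function.update_self, cm_same, cm_same]
    omega
  · rw [Function.update_of_ne hi, cm_ne c _ hi, cm_ne c _ hi]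

theorem sum_cm {J : ℕ} {c : ℕ → ℕ} {a t : ℕ} (ha : a < J) (h : t ≤ c a) :
    ∑ i ∈ range J, cm c a t i + t = ∑ i ∈ range J, c i := by
  have h1 := (add_sum_erase (range J) (cm c a t) (mem_range.2 ha)).symm
  have h2 := (add_sum_erase (range J) c (mem_range.2 ha)).symm
  have h3 : ∑ i ∈ (range J).erase a, cm c a t i = ∑ i ∈ (range J).erase a, c i :=
    sum_congr rfl fun i hi => cm_ne c t (ne_of_mem_erase hi)
  rw [h1, h2, h3, cm_same]
  omega

theorem sum_le_range {I : Finset ℕ} {J : ℕ} (hI : I ⊆ range J) (c : ℕ → ℕ) :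
    ∑ i ∈ I, c i ≤ ∑ i ∈ range J, c i := sum_le_sum_of_subset hI

theorem vd_deg_zero (I : Finset ℕ) (c c' : ℕ → ℕ) (n n' : ℕ) (ms : Multiset Kd) :
    vd 0 I c n ms = vd 0 I c' n' ms := by
  unfold vd
  refine sum_congr rfl fun I' _ => ?_
  congr 1
  have h : ∀ N, PowerSeries.coeff 0 (hs N) = 1 := by
    intro N
    unfold hs
    rw [PowerSeries.coeff_mk, Nat.multichoose_zero_right]
    rfl
  simp only [PowerSeries.coeff_zero_eq_constantCoeff] at h ⊢
  rw [map_mul, map_mul, h, h]

/-- The difference of the levels `I` and `insert a I` depends only on `n - c a`. -/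
theorem vd_diff {J : ℕ} {I : Finset ℕ} {c : ℕ → ℕ} {n a : ℕ} (ha : a < J) (haI : a ∉ I)
    (hI : I ⊆ range J) (hn : ∑ i ∈ range J, c i ≤ n) (ms : Multiset Kd) (t : ℕ) (ht : t ≤ c a)
    (j : ℕ) : vd j I (cm c a t) (n - t) ms - vd j (insert a I) (cm c a t) (n - t) ms =
      vd j I c n ms - vd j (insert a I) c n ms := by
  induction t with
  | zero => rw [cm_zero, Nat.sub_zero]
  | succ t ih =>
    rw [← ih (by omega)]
    have hca : c a ≤ ∑ i ∈ range J, c i :=
      single_le_sum (f := c) (fun _ _ => Nat.zero_le _) (mem_range.2 ha)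
    have hs := sum_cm (c := c) (t := t + 1) ha ht
    have hn' : n - t = n - (t + 1) + 1 := by omega
    have hI' : insert a I ⊆ range J := insert_subset (mem_range.2 ha) hI
    cases j with
    | zero =>
      rw [vd_deg_zero I (cm c a (t + 1)) (cm c a t) (n - (t + 1)) (n - t),
        vd_deg_zero (insert a I) (cm c a (t + 1)) (cm c a t) (n - (t + 1)) (n - t)]
    | succ j =>
      have h1 := vd_upd (c := cm c a (t + 1)) (n := n - (t + 1)) j (mem_insert_self a I)
        ((sum_le_range hI' _).trans (by omega)) ms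
      rw [cm_succ (by omega), erase_insert haI, ← hn'] at h1
      have h2 := vd_succ (c := cm c a (t + 1)) (n := n - (t + 1)) j (I := I)
        ((sum_le_range hI _).trans (by omega)) ms
      rw [← hn'] at h2
      have h3 : ∀ D, vd D I (cm c a (t + 1)) (n - t) ms = vd D I (cm c a t) (n - t) ms := by
        intro D
        refine vd_congr_c fun i hi => ?_
        have hia : i ≠ a := fun h => haI (h ▸ hi)
        rw [cm_ne c _ hia, cm_ne c _ hia]
      rw [h3, h3] at h2
      rw [h1, h2]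
      ring

end Pool.Agent.GD.AL

end

section

/-!
# Project GD, ALPHA, module Mono: specialisation of ordinary points, fewer objects

`HI_ord_le`: the points which vanish on more blocks are special, `HI (ord x A ::ms) ≤ HI (ord x A' ::ms)` for
`A ⊆ A'`; `HI_ex_le`: a smaller exponent gives more conditions; `HI_anti`: more objects give more conditions.
`vd_ord_congr`: the virtual dimension depends only on `A ∩ I`.
-/

set_option autoImplicit false
set_option linter.unusedSectionVars false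

namespace Pool.Agent.GD.AL

open Finset MvPolynomial Pool.Agent.H51.TB Pool.Agent.V7.ST
open Pool.Agent.V7 (msk)

section

variable {ν : Type} [Fintype ν] [DecidableEq ν] {d : ℕ}

theorem HI_cons_le (D : ℕ) (β : ν → ℕ) (I : Finset ℕ) (k : Kd) (ms : Multiset Kd) :
    HI d D β I (k ::ₘ ms) ≤ HI d D β I ms :=
  gM_cons_le _ _ _

theorem HI_add_le (D : ℕ) (β : ν → ℕ) (I : Finset ℕ) (ms ms' : Multiset Kd) :
    HI d D β I (ms + ms') ≤ HI d D β I ms := by
  induction ms' using Multiset.induction_on with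
  | empty => rw [Multiset.add_zero]
  | cons k s ih =>
    rw [Multiset.add_cons]
    exact (HI_cons_le D β I k _).trans ih

theorem HI_anti (D : ℕ) (β : ν → ℕ) (I : Finset ℕ) {ms ms' : Multiset Kd} (h : ms ≤ ms') :
    HI d D β I ms' ≤ HI d D β I ms := by
  obtain ⟨u, rfl⟩ := Multiset.le_iff_exists_add.1 h
  exact HI_add_le D β I ms u

/-- One object `k` at a position `q` is replaced by `k'` at a position `g q`. -/
theorem HI_repl {D : ℕ} (hD : D ≤ d) (β : ν → ℕ) (I : Finset ℕ) (k k' : Kd)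
    (g : (ν × Fin (d + 1) → ℂ) → ν × Fin (d + 1) → ℂ)
    (h : ∀ q Φ, Sat β I k (g q) Φ → Sat β I k' q Φ) (ms : Multiset Kd) :
    HI d D β I (k ::ₘ ms) ≤ HI d D β I (k' ::ₘ ms) := by
  obtain ⟨m, hm, -⟩ := exists_conf (LS d D β I) ms
  obtain ⟨p, hp⟩ := gd_attained (LS d D β I) (ad m k')
  have h1 : HI d D β I (k' ::ₘ ms) = (LS d D β I).gd (ad m k') := by
    unfold HI
    rw [gd_eq_gM, map_ad, hm]
  have h2 : HI d D β I (k ::ₘ ms) = (LS d D β I).gd (ad m k) := by
    unfold HI
    rw [gd_eq_gM, map_ad, hm]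
  rw [h1, h2, ← hp]
  let p' : Fin ms.toList.length ⊕ Unit → ν × Fin (d + 1) → ℂ :=
    Sum.elim (fun i => p (Sum.inl i)) fun u => g (p (Sum.inr u))
  refine (gd_le (LS d D β I) (ad m k) p').trans (Submodule.finrank_mono fun f hf => ?_)
  rw [mem_LS hD] at hf ⊢
  intro i
  rcases i with i | u
  · exact hf (Sum.inl i)
  · exact h _ _ (hf (Sum.inr u))

/-- A point which vanishes on more blocks is special. -/
theorem HI_ord_le {D : ℕ} (hD : D ≤ d) (β : ν → ℕ) (I : Finset ℕ) (e : ℕ) {A A' : Finset ℕ}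
    (h : A ⊆ A') (ms : Multiset Kd) :
    HI d D β I (.ord e A ::ₘ ms) ≤ HI d D β I (.ord e A' ::ₘ ms) := by
  refine HI_repl hD β I (.ord e A) (.ord e A') (fun q s => if β s.1 ∈ A' then 0 else q s)
    (fun q Φ hq => ⟨?_, trivial⟩) ms
  intro x hx y
  have h1 := hq.1 x hx y
  have h2 : pt β (.ord e A) x (fun s : ν × Fin (d + 1) => if β s.1 ∈ A' then 0 else q s) =
      pt β (.ord e A') x q := by
    funext s
    show msk β A (fun s => if β s ∈ A' then 0 else q (s, 0)) s = msk β A' (fun s => q (s, 0)) s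
    unfold msk
    by_cases hA : β s ∈ A
    · rw [if_pos hA, if_pos (h hA)]
    · rw [if_neg hA]
  rw [h2] at h1
  exact h1

end

/-- The factor of a point depends only on `A ∩ I`. -/
theorem P_ord_congr {I' I : Finset ℕ} (h : I' ⊆ I) (e : ℕ) {A A' : Finset ℕ} (hA : A ∩ I = A' ∩ I) :
    Kd.P I' (.ord e A) = Kd.P I' (.ord e A') := by
  have h1 : I' ⊆ A ↔ I' ⊆ A' := by
    constructor
    · intro h2 x hx
      have h3 : x ∈ A ∩ I := mem_inter.2 ⟨h2 hx, h hx⟩
      rw [hA] at h3
      exact (mem_inter.1 h3).1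
    · intro h2 x hx
      have h3 : x ∈ A' ∩ I := mem_inter.2 ⟨h2 hx, h hx⟩
      rw [← hA] at h3
      exact (mem_inter.1 h3).1
  show (if I' ⊆ A then (1 - PowerSeries.X ^ e : PowerSeries ℤ) else 1) =
    if I' ⊆ A' then 1 - PowerSeries.X ^ e else 1
  by_cases h2 : I' ⊆ A
  · rw [if_pos h2, if_pos (h1.1 h2)]
  · rw [if_neg h2, if_neg fun h3 => h2 (h1.2 h3)]

/-- The virtual dimension depends only on `A ∩ I`. -/
theorem vd_ord_congr (D : ℕ) (I : Finset ℕ) (c : ℕ → ℕ) (n e : ℕ) {A A' : Finset ℕ}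
    (hA : A ∩ I = A' ∩ I) (ms : Multiset Kd) :
    vd D I c n (.ord e A ::ₘ ms) = vd D I c n (.ord e A' ::ₘ ms) := by
  unfold vd
  refine sum_congr rfl fun I' hI' => ?_
  rw [Multiset.map_cons, Multiset.map_cons, P_ord_congr (mem_powerset.1 hI') e hA]

end Pool.Agent.GD.AL

end

section

/-!
# General d, ALPHA: states, basic facts
-/

set_option autoImplicit false
set_option linter.unusedVariables false

namespace Pool.Agent.GD.AL

open Finset Pool.Agent.V7.ST Pool.Agent.H51.TB
open Pool.Agent.H21.NX (Sx mem_Sx)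

/-! ### The number of the exponents -/

section count

private theorem Bas_card_Sx {ι : Type} [Fintype ι] [DecidableEq ι] (n : ℕ) :
    (Sx ι n).card = Nat.multichoose (Fintype.card ι) n := by
  rw [← card_univ, ← card_finsuppAntidiag_nat_eq_multichoose]
  symm
  apply card_bij (fun (α : ι →₀ ℕ) _ => (⇑α : ι → ℕ))
  · intro α hα
    rw [mem_finsuppAntidiag] at hα
    exact mem_Sx.2 hα.1
  · intro α _ β _ h
    exact DFunLike.coe_injective h
  · intro f hf
    refine ⟨Finsupp.equivFunOnFinite.symm f, ?_, rfl⟩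
    rw [mem_finsuppAntidiag]
    exact ⟨mem_Sx.1 hf, subset_univ _⟩

variable {ν : Type} [Fintype ν] [DecidableEq ν]

private theorem Bas_avoid (D : ℕ) (β : ν → ℕ) (I : Finset ℕ) :
    ((Sx ν D).filter fun a => ∀ s, β s ∈ I → a s = 0).card =
      Nat.multichoose (Fintype.card {s : ν // β s ∉ I}) D := by
  classical
  rw [← Bas_card_Sx (ι := {s : ν // β s ∉ I}) D]
  refine card_nbij' (fun a s => a s.1) (fun a s => if h : β s ∉ I then a ⟨s, h⟩ else 0) ?_ ?_ ?_ ?_
  · intro a ha
    rw [mem_coe, mem_filter, mem_Sx] at ha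
    rw [mem_coe, mem_Sx, ← ha.1]
    have h1 : ∑ s, a s = ∑ s ∈ univ.filter (fun s => β s ∉ I), a s := by
      rw [sum_filter]
      refine sum_congr rfl fun s _ => ?_
      by_cases h : β s ∉ I
      · rw [if_pos h]
      · rw [if_neg h]
        exact ha.2 s (not_not.1 h)
    rw [h1]
    exact (sum_subtype (univ.filter fun s => β s ∉ I) (by simp) a).symm
  · intro a ha
    rw [mem_coe, mem_Sx] at ha
    rw [mem_coe, mem_filter, mem_Sx]
    refine ⟨?_, fun s hs => dif_neg (not_not.2 hs)⟩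
    rw [← ha]
    have h1 : ∑ s, (if h : β s ∉ I then a ⟨s, h⟩ else 0) =
        ∑ s ∈ univ.filter (fun s => β s ∉ I), (if h : β s ∉ I then a ⟨s, h⟩ else 0) := by
      rw [sum_filter]
      refine sum_congr rfl fun s _ => ?_
      by_cases h : β s ∉ I
      · rw [if_pos h]
      · rw [dif_neg h, if_neg h]
    rw [h1, sum_subtype (univ.filter fun s => β s ∉ I) (p := fun s => β s ∉ I) (by simp)
      (fun s => if h : β s ∉ I then a ⟨s, h⟩ else 0)]
    exact sum_congr rfl fun s _ => dif_pos s.2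
  · intro a ha
    rw [mem_coe, mem_filter] at ha
    funext s
    show (if h : β s ∉ I then a s else 0) = a s
    by_cases h : β s ∉ I
    · rw [dif_pos h]
    · rw [dif_neg h, ha.2 s (not_not.1 h)]
  · intro a _
    funext s
    exact dif_pos s.2

private theorem Bas_card_Ex (D : ℕ) (β : ν → ℕ) (I : Finset ℕ) :
    ((Ex β D I).card : ℤ) = ∑ I' ∈ I.powerset, (-1) ^ I'.card *
      (Nat.multichoose (Fintype.card {s : ν // β s ∉ I'}) D : ℤ) := by
  classical
  have h1 : ((Ex β D I).card : ℤ) = ∑ a ∈ Sx ν D, ∏ i ∈ I,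
      ((-1) * (if ∀ s, β s = i → a s = 0 then (1 : ℤ) else 0) + 1) := by
    unfold Ex
    rw [card_filter]
    push_cast
    refine sum_congr rfl fun a _ => ?_
    split_ifs with h
    · refine (prod_eq_one fun i hi => ?_).symm
      rw [if_neg]
      · ring
      · intro h2
        obtain ⟨s, hs, has⟩ := h i hi
        exact has (h2 s hs)
    · push Not at h
      obtain ⟨i, hi, h2⟩ := h
      refine (prod_eq_zero hi ?_).symm
      rw [if_pos fun s hs => h2 s hs]
      ring
  rw [h1]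
  simp_rw [prod_add, prod_const_one, mul_one, prod_mul_distrib, prod_const]
  rw [sum_comm]
  refine sum_congr rfl fun I' _ => ?_
  rw [← mul_sum]
  congr 1
  rw [← Bas_avoid, card_filter]
  push_cast
  refine sum_congr rfl fun a _ => ?_
  rw [prod_ite_zero, prod_const_one]
  refine if_congr ?_ rfl rfl
  constructor
  · intro h s hs
    exact h (β s) hs s rfl
  · intro h i hi s hs
    exact h s (by rw [hs]; exact hi)

end count

section Bas

variable {d J D : ℕ} {σ : St} {I : Finset ℕ}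

theorem St.V_ord {x : ℕ} (A : Finset ℕ) (hx : x ≤ D) :
    (σ.ad (.ord x A)).V J I D = σ.V J I D - σ.V J (I ∩ A) (D - x) := by
  show vd D I σ.c (σ.n J) (.ord x A ::ₘ σ.ms) = _
  rw [vd_ord, if_pos hx]
  rfl

theorem St.V_ord_lt {x : ℕ} (A : Finset ℕ) (hx : D < x) : (σ.ad (.ord x A)).V J I D = σ.V J I D := by
  show vd D I σ.c (σ.n J) (.ord x A ::ₘ σ.ms) = _
  rw [vd_ord, if_neg (by omega), sub_zero]
  rfl

theorem Bas_sum_lo {a : ℕ} (hI : I ⊆ range J) : ∑ i ∈ I, (σ.lo a 1).c i ≤ (σ.lo a 1).n J := by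
  unfold St.n
  exact (sum_le_sum_of_subset hI).trans (Nat.le_add_right _ _)

theorem St.V_lo {a : ℕ} (ha : a ∈ I) (hI : I ⊆ range J) (hc : 1 ≤ σ.c a) :
    (σ.lo a 1).V J I (D + 1) = σ.V J I (D + 1) - σ.V J (I.erase a) D := by
  have h1 := vd_upd D (c := (σ.lo a 1).c) (n := (σ.lo a 1).n J) ha (Bas_sum_lo hI) σ.ms
  have h2 : Function.update (σ.lo a 1).c a ((σ.lo a 1).c a + 1) = σ.c := by
    funext i
    by_cases h : i = a
    · subst h
      rw [Function.update_self]
      show Function.update σ.c i (σ.c i - 1) i + 1 = σ.c i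
      rw [Function.update_self]
      omega
    · rw [Function.update_of_ne h]
      exact Function.update_of_ne h _ _
  rw [h2, σ.n_lo (mem_range.1 (hI ha)) hc] at h1
  show vd (D + 1) I (σ.lo a 1).c ((σ.lo a 1).n J) σ.ms = _
  unfold St.V
  rw [h1]
  ring

theorem Bas_V_lo_notMem {a : ℕ} (ha : a ∉ I) (D : ℕ) (ms : Multiset Kd) (n : ℕ) :
    vd D I (σ.lo a 1).c n ms = vd D I σ.c n ms := by
  refine vd_congr_c fun i hi => ?_
  have h : i ≠ a := fun h => ha (h ▸ hi)
  exact Function.update_of_ne h _ _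

theorem Bas_sum_notMem {a : ℕ} (ha : a ∉ I) (hI : I ⊆ range J) :
    ∑ i ∈ I, σ.c i ≤ (σ.lo a 1).n J := by
  have h1 : ∑ i ∈ I, σ.c i = ∑ i ∈ I, (σ.lo a 1).c i := by
    refine sum_congr rfl fun i hi => ?_
    have h : i ≠ a := fun h => ha (h ▸ hi)
    exact (Function.update_of_ne h _ _).symm
  rw [h1]
  exact Bas_sum_lo hI

theorem St.V_lo' {a : ℕ} (ha : a ∉ I) (haJ : a < J) (hI : I ⊆ range J) (hc : 1 ≤ σ.c a) :
    (σ.lo a 1).V J I (D + 1) = σ.V J I (D + 1) - σ.V J I D := by
  have h1 := vd_succ D (Bas_sum_notMem (σ := σ) ha hI) σ.ms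
  rw [σ.n_lo haJ hc] at h1
  show vd (D + 1) I (σ.lo a 1).c ((σ.lo a 1).n J) σ.ms = _
  rw [Bas_V_lo_notMem ha]
  unfold St.V
  rw [h1]
  ring

theorem Bas_sum_lw (hI : I ⊆ range J) (s : ℕ) : ∑ i ∈ I, σ.c i ≤ (σ.lw s).n J := by
  unfold St.n
  exact (sum_le_sum_of_subset (f := σ.c) hI).trans (Nat.le_add_right _ _)

theorem St.V_lw (hI : I ⊆ range J) (hw : 1 ≤ σ.w) :
    (σ.lw 1).V J I (D + 1) = σ.V J I (D + 1) - σ.V J I D := by
  have h1 := vd_succ D (Bas_sum_lw (σ := σ) hI 1) σ.ms
  rw [σ.n_lw hw] at h1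
  show vd (D + 1) I σ.c ((σ.lw 1).n J) σ.ms = _
  unfold St.V
  rw [h1]
  ring

private theorem Bas_sum_n (hI : I ⊆ range J) : ∑ i ∈ I, σ.c i ≤ σ.n J :=
  (sum_le_sum_of_subset (f := σ.c) hI).trans (Nat.le_add_right _ _)

theorem St.V_low (hI : I ⊆ range J) (hm : ∀ k ∈ σ.ms, AdmO d J k) (hD : D < I.card) :
    σ.V J I D = 0 := by
  refine vd_low (J := range J) (Bas_sum_n subset_rfl) σ.ms (fun k hk => ?_) I hI D hD
  obtain ⟨x, A, rfl, -, -, -, h⟩ := hm k hk
  exact h

/-- The number of the variables off some blocks. -/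
private theorem Bas_card_off (hI : I ⊆ range J) :
    Fintype.card {s : Vr J σ.c σ.w // bt J σ.c σ.w s ∉ I} = σ.n J - ∑ i ∈ I, σ.c i := by
  classical
  have h1 : Fintype.card {s : Vr J σ.c σ.w // bt J σ.c σ.w s ∉ I} +
      (univ.filter fun s : Vr J σ.c σ.w => bt J σ.c σ.w s ∈ I).card = σ.n J := by
    rw [Fintype.card_subtype]
    have h2 := card_filter_add_card_filter_not (s := (univ : Finset (Vr J σ.c σ.w)))
      (p := fun s => bt J σ.c σ.w s ∈ I)
    rw [card_univ, card_Vr] at h2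
    unfold St.n
    omega
  have h2 : (univ.filter fun s : Vr J σ.c σ.w => bt J σ.c σ.w s ∈ I).card = ∑ i ∈ I, σ.c i := by
    rw [card_eq_sum_card_fiberwise (f := bt J σ.c σ.w)
      (s := univ.filter fun s : Vr J σ.c σ.w => bt J σ.c σ.w s ∈ I) (t := I)
      fun s hs => (mem_filter.1 (mem_coe.1 hs)).2]
    refine sum_congr rfl fun i hi => ?_
    rw [← card_bt σ.c σ.w (mem_range.1 (hI hi))]
    congr 1
    ext s
    simp only [mem_filter, mem_univ, true_and]
    constructor
    · exact fun h => h.2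
    · rintro rfl
      exact ⟨hi, rfl⟩
  omega

theorem Bas_empty (hI : I ⊆ range J) :
    (HI d D (bt J σ.c σ.w) I 0 : ℤ) = vd D I σ.c (σ.n J) 0 := by
  have h2 : HI d D (bt J σ.c σ.w) I 0 = (Ex (bt J σ.c σ.w) D I).card := by
    unfold HI
    rw [gM_zero, Fintype.card_coe]
  rw [h2, Bas_card_Ex]
  unfold vd
  refine sum_congr rfl fun I' hI' => ?_
  rw [Bas_card_off ((mem_powerset.1 hI').trans hI), Multiset.map_zero, Multiset.prod_zero, one_mul]
  unfold hs
  rw [PowerSeries.coeff_mk]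

/-- The trivial bound. -/
theorem St.H_le {c0 : ℕ → ℕ} {n0 : ℕ} (hD : D ≤ d) (hI : I ⊆ range J) (hc : ∀ l ∈ I, σ.c l ≤ c0 l)
    (hn : σ.n J ≤ n0) (hID : I.card ≤ D) : (σ.H d J I D : ℝ) ≤ nz c0 n0 I D := by
  have h1 : HI d D (bt J σ.c σ.w) I σ.ms ≤ HI d D (bt J σ.c σ.w) I 0 :=
    HI_anti D _ I (Multiset.zero_le _)
  have h2 : (HI d D (bt J σ.c σ.w) I 0 : ℤ) ≤ (∏ i ∈ I, (σ.c i : ℤ)) * (σ.n J : ℤ) ^ (D - I.card) := by
    rw [Bas_empty hI]
    exact vd_empty_le D (Bas_sum_n hI)
  have h3 : ((HI d D (bt J σ.c σ.w) I 0 : ℕ) : ℝ) ≤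
      (∏ i ∈ I, (σ.c i : ℝ)) * (σ.n J : ℝ) ^ (D - I.card) := by exact_mod_cast h2
  have h4 : ((HI d D (bt J σ.c σ.w) I σ.ms : ℕ) : ℝ) ≤ ((HI d D (bt J σ.c σ.w) I 0 : ℕ) : ℝ) := by
    exact_mod_cast h1
  refine (h4.trans h3).trans ?_
  unfold nz
  refine mul_le_mul ?_ ?_ (by positivity) (by positivity)
  · exact prod_le_prod (fun _ _ => Nat.cast_nonneg _) fun i hi => by exact_mod_cast hc i hi
  · exact pow_le_pow_left₀ (Nat.cast_nonneg _) (by exact_mod_cast hn) _

end Bas

end Pool.Agent.GD.AL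

end
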