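import Pool.Agent.H94.LP7.M13
import Pool.Agent.H94.LP7.M14
import Pool.Agent.H94.LP7.M28
import Pool.Agent.H94.LP7.M34
import Pool.Agent.H94.LP7.M35
import Pool.Agent.H94.LP7.M37

/-! The parts of this file: GD.BE.Aut, GD.AL.Kill_1, GD.AL.KillB, GD.AL.AV, GD.AL.Bas_2. -/

section

/-!
# General d, block BETA, module Aut: algebraically independent positions

`aut_trans`: extend to transcendence bases of `ℂ` over `ℚ` with equal complements, then
`Pool.Agent.H72.SB.exists_aut`.  `ai_near`, `ai_dense`, `ai_extend`: Baire category (countably many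
polynomials over `ℚ`).
-/

set_option autoImplicit false

namespace Pool.Agent.GD.BE

open Finset MvPolynomial Module Pool.Agent.H51.TB Topology

private theorem exists_equiv_compl {X : Type} [Finite X] {p q : X → ℂ}
    (hp : Function.Injective p) (hq : Function.Injective q) {s t : Set ℂ}
    (hps : Set.range p ⊆ s) (hqt : Set.range q ⊆ t) (h : Cardinal.mk s = Cardinal.mk t) :
    ∃ e : s ≃ t, ∀ x, (e ⟨p x, hps ⟨x, rfl⟩⟩ : ℂ) = q x := by
  classical
  have h1 : Cardinal.mk (Set.range p) + Cardinal.mk ↥(s \ Set.range p) = Cardinal.mk s := by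
    have := Cardinal.mk_sdiff_add_mk hps
    rw [add_comm]
    exact this
  have h2 : Cardinal.mk (Set.range q) + Cardinal.mk ↥(t \ Set.range q) = Cardinal.mk t := by
    have := Cardinal.mk_sdiff_add_mk hqt
    rw [add_comm]
    exact this
  have h3 : Cardinal.mk (Set.range p) = Cardinal.mk X := Cardinal.mk_range_eq p hp
  have h4 : Cardinal.mk (Set.range q) = Cardinal.mk X := Cardinal.mk_range_eq q hq
  have h5 : Cardinal.mk ↥(s \ Set.range p) = Cardinal.mk ↥(t \ Set.range q) := by
    rw [← h1, ← h2, h3, h4] at h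
    exact Cardinal.eq_of_add_eq_add_left h (Cardinal.lt_aleph0_of_finite X)
  obtain ⟨e'⟩ := Cardinal.eq.1 h5
  let e1 : Set.range p ≃ Set.range q :=
    (Equiv.ofInjective p hp).symm.trans (Equiv.ofInjective q hq)
  let u1 : s ≃ Set.range p ⊕ ↥(s \ Set.range p) :=
    (Equiv.setCongr (Set.union_sdiff_cancel hps).symm).trans
      (Equiv.Set.union (Set.disjoint_sdiff_right))
  let u2 : t ≃ Set.range q ⊕ ↥(t \ Set.range q) :=
    (Equiv.setCongr (Set.union_sdiff_cancel hqt).symm).trans
      (Equiv.Set.union (Set.disjoint_sdiff_right))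
  refine ⟨u1.trans ((Equiv.sumCongr e1 e').trans u2.symm), fun x => ?_⟩
  have h6 : u1 ⟨p x, hps ⟨x, rfl⟩⟩ = Sum.inl ⟨p x, ⟨x, rfl⟩⟩ :=
    Equiv.Set.union_apply_left (s := Set.range p) (t := s \ Set.range p)
      Set.disjoint_sdiff_right (a := ⟨p x, Or.inl ⟨x, rfl⟩⟩) (Set.mem_range_self x)
  have h7 : e1 ⟨p x, ⟨x, rfl⟩⟩ = ⟨q x, ⟨x, rfl⟩⟩ := by
    show (Equiv.ofInjective q hq) ((Equiv.ofInjective p hp).symm ⟨p x, ⟨x, rfl⟩⟩) = _
    rw [Equiv.ofInjective_symm_apply]
    rfl
  have h8 : u2 ⟨q x, hqt ⟨x, rfl⟩⟩ = Sum.inl ⟨q x, ⟨x, rfl⟩⟩ :=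
    Equiv.Set.union_apply_left (s := Set.range q) (t := t \ Set.range q)
      Set.disjoint_sdiff_right (a := ⟨q x, Or.inl ⟨x, rfl⟩⟩) (Set.mem_range_self x)
  rw [Equiv.trans_apply, Equiv.trans_apply, h6, Equiv.sumCongr_apply, Sum.map_inl, h7, ← h8,
    Equiv.symm_apply_apply]

theorem aut_trans {X : Type} [Finite X] {p q : X → ℂ} (hp : AlgebraicIndependent ℚ p)
    (hq : AlgebraicIndependent ℚ q) : ∃ σ : ℂ ≃+* ℂ, ∀ x, σ (p x) = q x := by
  obtain ⟨s, hps, hs⟩ := exists_isTranscendenceBasis_superset hp.coe_range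
  obtain ⟨t, hqt, ht⟩ := exists_isTranscendenceBasis_superset hq.coe_range
  have hc : Cardinal.mk s = Cardinal.mk t := by
    rw [hs.cardinalMk_eq_trdeg, ht.cardinalMk_eq_trdeg]
  obtain ⟨e, he⟩ := exists_equiv_compl hp.injective hq.injective hps hqt hc
  have ht' : IsTranscendenceBasis ℚ fun x : s => ((e x : t) : ℂ) := ht.comp_equiv e
  obtain ⟨σ, hσ⟩ := Pool.Agent.H72.SB.exists_aut hs ht'
  refine ⟨σ.toRingEquiv, fun x => ?_⟩
  have h1 := hσ ⟨p x, hps ⟨x, rfl⟩⟩
  exact h1.trans (he x)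

theorem AI.comp {P P' X : Type} {p : P → X → ℂ} (h : AI p) (f : P' → P)
    (hf : Function.Injective f) : AI fun i => p (f i) := by
  have h1 := AlgebraicIndependent.comp h (fun x : P' × X => (f x.1, x.2)) (by
    rintro ⟨i, x⟩ ⟨j, y⟩ hxy
    rw [Prod.mk.injEq] at hxy
    exact Prod.ext (hf hxy.1) hxy.2)
  exact h1

/-- The set where a polynomial does not vanish is open and dense. -/
private theorem ne_dense {P X : Type} [Finite P] [Finite X] (G : MvPolynomial (P × X) ℂ)
    (hG : G ≠ 0) : IsOpen {y : P → X → ℂ | eval (fun x : P × X => y x.1 x.2) G ≠ 0} ∧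
      Dense {y : P → X → ℂ | eval (fun x : P × X => y x.1 x.2) G ≠ 0} := by
  constructor
  · refine isOpen_ne_fun ?_ continuous_const
    have h1 : Continuous fun a : P × X → ℂ => eval a G := MvPolynomial.continuous_eval G
    refine h1.comp ?_
    fun_prop
  · intro y₀
    rw [mem_closure_iff_nhds]
    intro U hU
    obtain ⟨y, hy, hy'⟩ := Pool.Agent.V7.BE.Gn.near (P := fun y : P → X → ℂ =>
      eval (fun x : P × X => y x.1 x.2) G ≠ 0) ⟨G, hG, fun y hy => hy⟩ y₀ U hU
    exact ⟨y, hy, hy'⟩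

/-- Extension by independent coordinates in an open set, outside a given hypersurface. -/
theorem ai_near {P₀ P₁ X : Type} [Finite P₀] [Finite P₁] [Finite X] (r : P₀ → X → ℂ)
    (hr : AI r) {Pr : (P₁ → X → ℂ) → Prop} (h : Gn P₁ X Pr) (y₀ : P₁ → X → ℂ)
    (U : Set (P₁ → X → ℂ)) (hU : U ∈ 𝓝 y₀) :
    ∃ y ∈ U, AI (Sum.elim r y) ∧ Pr y := by
  classical
  obtain ⟨G, hG0, hG⟩ := h
  -- the polynomials over `ℚ`
  let Λ := {H : MvPolynomial ((P₀ ⊕ P₁) × X) ℚ // H ≠ 0}
  have : Countable Λ := by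
    have h1 : Countable (MvPolynomial ((P₀ ⊕ P₁) × X) ℚ) := by
      rw [← Cardinal.mk_le_aleph0_iff]
      refine (MvPolynomial.cardinalMk_le_max_lift).trans ?_
      refine max_le (max_le ?_ ?_) le_rfl
      · simp
      · rw [Cardinal.lift_le_aleph0]
        exact (Cardinal.lt_aleph0_of_finite _).le
    exact Subtype.countable
  -- their values as polynomials in the second group of variables
  let φ : MvPolynomial ((P₀ ⊕ P₁) × X) ℚ →ₐ[ℚ] MvPolynomial (P₁ × X) ℂ :=
    aeval fun x => Sum.elim (fun i => C (r i x.2)) (fun j => (MvPolynomial.X (j, x.2) : MvPolynomial (P₁ × X) ℂ)) x.1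
  have hφ : Function.Injective φ := by
    let e : MvPolynomial ((P₀ ⊕ P₁) × X) ℚ ≃ₐ[ℚ]
        MvPolynomial (P₁ × X) (MvPolynomial (P₀ × X) ℚ) :=
      (renameEquiv ℚ ((Equiv.sumProdDistrib P₀ P₁ X).trans (Equiv.sumComm _ _))).trans
        (sumAlgEquiv ℚ (P₁ × X) (P₀ × X))
    let m : MvPolynomial (P₁ × X) (MvPolynomial (P₀ × X) ℚ) →+* MvPolynomial (P₁ × X) ℂ :=
      MvPolynomial.map (aeval fun x : P₀ × X => r x.1 x.2 : MvPolynomial (P₀ × X) ℚ →ₐ[ℚ] ℂ)
    have hm : Function.Injective m := map_injective _ hr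
    have h1 : ∀ H, φ H = m (e H) := by
      intro H
      have h2 : (φ : MvPolynomial ((P₀ ⊕ P₁) × X) ℚ →+* MvPolynomial (P₁ × X) ℂ) =
          m.comp (e : MvPolynomial ((P₀ ⊕ P₁) × X) ℚ →+*
            MvPolynomial (P₁ × X) (MvPolynomial (P₀ × X) ℚ)) := by
        apply MvPolynomial.ringHom_ext
        · intro a
          show φ (C a) = m (e (C a))
          have h3 : e (C a) = C (C a) := by
            show sumAlgEquiv ℚ (P₁ × X) (P₀ × X) (rename _ (C a)) = _
            rw [rename_C, sumAlgEquiv_C_inl]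
          rw [h3]
          simp [φ, m]
        · rintro ⟨i | j, x⟩
          · show φ (MvPolynomial.X (Sum.inl i, x)) = m (e (MvPolynomial.X (Sum.inl i, x)))
            have h3 : e (MvPolynomial.X (Sum.inl i, x)) = C (MvPolynomial.X (i, x)) := by
              show sumAlgEquiv ℚ (P₁ × X) (P₀ × X) (rename _ (MvPolynomial.X (Sum.inl i, x))) = _
              rw [rename_X]
              exact sumAlgEquiv_X_inr ℚ (P₁ × X) (P₀ × X) (i, x)
            rw [h3]
            simp [φ, m]
          · show φ (MvPolynomial.X (Sum.inr j, x)) = m (e (MvPolynomial.X (Sum.inr j, x)))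
            have h3 : e (MvPolynomial.X (Sum.inr j, x)) = MvPolynomial.X (j, x) := by
              show sumAlgEquiv ℚ (P₁ × X) (P₀ × X) (rename _ (MvPolynomial.X (Sum.inr j, x))) = _
              rw [rename_X]
              exact sumAlgEquiv_X_inl ℚ (P₁ × X) (P₀ × X) (j, x)
            rw [h3]
            simp [φ, m]
      exact RingHom.congr_fun h2 H
    intro H H' hHH
    rw [h1, h1] at hHH
    exact e.injective (hm hHH)
  have hev : ∀ (H : MvPolynomial ((P₀ ⊕ P₁) × X) ℚ) (y : P₁ → X → ℂ),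
      eval (fun x : P₁ × X => y x.1 x.2) (φ H) =
        aeval (fun x : (P₀ ⊕ P₁) × X => Sum.elim r y x.1 x.2) H := by
    intro H y
    have h2 : ((eval fun x : P₁ × X => y x.1 x.2) : MvPolynomial (P₁ × X) ℂ →+* ℂ).comp
        (φ : MvPolynomial ((P₀ ⊕ P₁) × X) ℚ →+* MvPolynomial (P₁ × X) ℂ) =
          ((aeval fun x : (P₀ ⊕ P₁) × X => Sum.elim r y x.1 x.2 :
            MvPolynomial ((P₀ ⊕ P₁) × X) ℚ →ₐ[ℚ] ℂ) : MvPolynomial ((P₀ ⊕ P₁) × X) ℚ →+* ℂ) := by
      apply MvPolynomial.ringHom_ext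
      · intro a
        simp [φ]
      · rintro ⟨i | j, x⟩
        · simp [φ]
        · simp [φ]
    exact RingHom.congr_fun h2 H
  let S : Option Λ → Set (P₁ → X → ℂ) := fun o =>
    match o with
    | none => {y | eval (fun x : P₁ × X => y x.1 x.2) G ≠ 0}
    | some H => {y | eval (fun x : P₁ × X => y x.1 x.2) (φ H.1) ≠ 0}
  have hS : ∀ o, IsOpen (S o) ∧ Dense (S o) := by
    rintro (_ | H)
    · exact ne_dense G hG0
    · exact ne_dense (φ H.1) fun h0 => H.2 (hφ (by rw [h0, map_zero]))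
  have hd := dense_iInter_of_isOpen (fun o => (hS o).1) fun o => (hS o).2
  obtain ⟨y, hyU, hy⟩ := mem_closure_iff_nhds.1 (hd y₀) U hU
  rw [Set.mem_iInter] at hy
  refine ⟨y, hyU, ?_, hG y (hy none)⟩
  unfold AI
  rw [algebraicIndependent_iff]
  intro H hH
  by_contra h0
  have h1 := hy (some ⟨H, h0⟩)
  apply h1
  rw [hev]
  exact hH

/-- Extension by independent coordinates outside a given hypersurface. -/
theorem ai_extend {P₀ P₁ X : Type} [Finite P₀] [Finite P₁] [Finite X] (r : P₀ → X → ℂ)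
    (hr : AI r) {Pr : (P₁ → X → ℂ) → Prop} (h : Gn P₁ X Pr) :
    ∃ y : P₁ → X → ℂ, AI (Sum.elim r y) ∧ Pr y := by
  obtain ⟨y, _, h1⟩ := ai_near r hr h 0 Set.univ Filter.univ_mem
  exact ⟨y, h1⟩

theorem ai_dense {P X : Type} [Finite P] [Finite X] (p₀ : P → X → ℂ) (U : Set (P → X → ℂ))
    (hU : U ∈ 𝓝 p₀) : ∃ p ∈ U, AI p := by
  have h0 : AI (fun (i : Empty) (_ : X) => (0 : ℂ)) := by
    unfold AI
    have : IsEmpty (Empty × X) := Prod.isEmpty_left
    exact algebraicIndependent_empty_type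
  obtain ⟨y, hy, h1, _⟩ := ai_near (P₁ := P) (fun (i : Empty) (_ : X) => (0 : ℂ)) h0
    (Pr := fun _ => True) ⟨1, one_ne_zero, fun _ _ => trivial⟩ p₀ U hU
  exact ⟨y, hy, h1.comp Sum.inr Sum.inr_injective⟩

/-- General statements which are invariant under automorphisms hold at independent positions. -/
theorem of_gn {P X : Type} [Finite P] [Finite X] {Pr : (P → X → ℂ) → Prop}
    (haut : ∀ (σ : ℂ ≃+* ℂ) (p : P → X → ℂ), Pr p → Pr fun i x => σ (p i x)) (h : Gn P X Pr)
    (p : P → X → ℂ) (hp : AI p) : Pr p := by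
  have h0 : AI (fun (i : Empty) (_ : X) => (0 : ℂ)) := by
    unfold AI
    have : IsEmpty (Empty × X) := Prod.isEmpty_left
    exact algebraicIndependent_empty_type
  obtain ⟨y, h1, h2⟩ := ai_extend _ h0 h
  have h3 : AI y := h1.comp Sum.inr Sum.inr_injective
  obtain ⟨σ, hσ⟩ := aut_trans h3 hp
  have h4 := haut σ y h2
  have h5 : (fun i x => σ (y i x)) = p := by
    funext i x
    exact hσ (i, x)
  rwa [h5] at h4

/-- The action of automorphisms on subspaces. -/
def sb (σ : ℂ ≃+* ℂ) {J : Type} (E : Submodule ℂ (J → ℂ)) : Submodule ℂ (J → ℂ) where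
  carrier := {g | (fun x => σ.symm (g x)) ∈ E}
  zero_mem' := by
    show (fun x : J => σ.symm ((0 : J → ℂ) x)) ∈ E
    have : (fun x : J => σ.symm ((0 : J → ℂ) x)) = 0 := by
      funext x
      simp
    rw [this]
    exact E.zero_mem
  add_mem' := fun {a b} ha hb => by
    have : (fun x => σ.symm ((a + b) x)) = (fun x => σ.symm (a x)) + fun x => σ.symm (b x) := by
      funext x
      simp
    show (fun x => σ.symm ((a + b) x)) ∈ E
    rw [this]
    exact E.add_mem ha hb
  smul_mem' := fun t a ha => by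
    have : (fun x => σ.symm ((t • a) x)) = σ.symm t • fun x => σ.symm (a x) := by
      funext x
      simp
    show (fun x => σ.symm ((t • a) x)) ∈ E
    rw [this]
    exact E.smul_mem _ ha

theorem mem_sb (σ : ℂ ≃+* ℂ) {J : Type} (E : Submodule ℂ (J → ℂ)) (g : J → ℂ) :
    g ∈ sb σ E ↔ (fun x => σ.symm (g x)) ∈ E := Iff.rfl

theorem sb_sb (σ : ℂ ≃+* ℂ) {J : Type} (E : Submodule ℂ (J → ℂ)) : sb σ (sb σ.symm E) = E := by
  ext g
  rw [mem_sb, mem_sb]
  have : (fun x => σ.symm.symm (σ.symm (g x))) = g := by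
    funext x
    simp
  rw [this]

theorem finrank_sb (σ : ℂ ≃+* ℂ) {J : Type} [Finite J] (E : Submodule ℂ (J → ℂ)) :
    finrank ℂ (sb σ E) = finrank ℂ E := by
  let j : E ≃+ sb σ E :=
    { toFun := fun g => ⟨fun x => σ (g.1 x), by
        rw [mem_sb]
        have : (fun x => σ.symm (σ (g.1 x))) = g.1 := by
          funext x
          simp
        rw [this]
        exact g.2⟩
      invFun := fun g => ⟨fun x => σ.symm (g.1 x), g.2⟩
      left_inv := fun g => by
        apply Subtype.ext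
        funext x
        simp
      right_inv := fun g => by
        apply Subtype.ext
        funext x
        simp
      map_add' := fun g g' => by
        apply Subtype.ext
        funext x
        simp }
  have h1 : Module.rank ℂ E = Module.rank ℂ (sb σ E) := by
    refine rank_eq_of_equiv_equiv (fun z => σ z) j σ.bijective ?_
    intro z g
    apply Subtype.ext
    funext x
    show σ ((z • g.1) x) = (σ z • (j g).1) x
    rw [Pi.smul_apply, Pi.smul_apply, smul_eq_mul, map_mul, smul_eq_mul]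
    rfl
  unfold finrank
  rw [h1]

variable {ι : Type} [Fintype ι] [DecidableEq ι] {c : ι → ℕ}

theorem ctr_aut (σ : ℂ ≃+* ℂ) (S : Finset ι) (y : (Σ i, Fin (c i)) → ℂ)
    (G : (∀ i, Fin (c i)) → ℂ) (w : ∀ i, Fin (c i)) :
    ctr S (fun x => σ (y x)) G w = σ (ctr S y (fun e => σ.symm (G e)) w) := by
  unfold ctr
  rw [map_sum]
  refine sum_congr rfl fun e _ => ?_
  split_ifs with h
  · rw [map_mul, map_prod, σ.apply_symm_apply]
  · rw [map_zero]

theorem V_sb (σ : ℂ ≃+* ℂ) {P : Type} (m : P → Finset ι) (p : P → (Σ i, Fin (c i)) → ℂ) :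
    (TS ι c).V m (fun i x => σ (p i x)) = sb σ ((TS ι c).V m p) := by
  ext G
  rw [mem_sb, mem_TS, mem_TS]
  refine forall_congr' fun i => forall_congr' fun w => ?_
  rw [ctr_aut]
  exact map_eq_zero_iff σ σ.injective

theorem KE_sb (σ : ℂ ≃+* ℂ) (T : Finset ι) {P : Type} (m : P → Finset ι)
    (p : P → (Σ i, Fin (c i)) → ℂ) (E : Submodule ℂ ((∀ i, Fin (c i)) → ℂ)) :
    KE T m (fun i x => σ (p i x)) (sb σ E) = sb σ (KE T m p E) := by
  ext G
  rw [mem_sb, mem_KE, mem_KE]
  refine and_congr (forall_congr' fun u => Iff.rfl) ?_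
  refine forall_congr' fun i => forall_congr' fun w => ?_
  rw [ctr_aut]
  exact map_eq_zero_iff σ σ.injective

omit [Fintype ι] [DecidableEq ι] in
theorem Dep_sb (σ : ℂ ≃+* ℂ) (I : Finset ι) : sb σ (Dep c I) = Dep c I := by
  ext G
  rw [mem_sb]
  constructor
  · intro h w w' hw
    exact σ.symm.injective (h w w' hw)
  · intro h w w' hw
    show σ.symm (G w) = σ.symm (G w')
    rw [h w w' hw]

theorem sb_mono (σ : ℂ ≃+* ℂ) {J : Type} {E E' : Submodule ℂ (J → ℂ)} (h : E ≤ E') :
    sb σ E ≤ sb σ E' := fun _ hg => h hg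

/-- At an independent position the dimension is the general one. -/
theorem ai_gd {P : Type} [Fintype P] (m : P → Finset ι) (p : P → (Σ i, Fin (c i)) → ℂ)
    (hp : AI p) : finrank ℂ ((TS ι c).V m p) = (TS ι c).gd m := by
  refine of_gn (Pr := fun p => finrank ℂ ((TS ι c).V m p) = (TS ι c).gd m) ?_
    (gn_gd (TS ι c) m) p hp
  intro σ p h
  rw [V_sb, finrank_sb]
  exact h

/-- Strictness at one independent position gives strictness at all of them. -/
theorem Str_ai (T I : Finset ι) (κ : Finset ι → ℚ) {P₀ P₁ : Type} [Finite P₀] [Finite P₁]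
    (m₀ : P₀ → Finset ι) (m₁ : P₁ → Finset ι) (r r' : P₀ → (Σ i, Fin (c i)) → ℂ) (hr : AI r)
    (hr' : AI r') (h : Str T I κ m₀ m₁ r) : Str T I κ m₀ m₁ r' := by
  obtain ⟨σ, hσ⟩ := aut_trans hr hr'
  intro E hE hE0 hEb
  have hE1 : sb σ.symm E ≤ Dep c I := by
    rw [← Dep_sb σ.symm I]
    exact sb_mono σ.symm hE
  have hf : finrank ℂ (sb σ.symm E) = finrank ℂ E := finrank_sb σ.symm E
  obtain ⟨y, hy⟩ := h (sb σ.symm E) hE1 (by
    intro h0
    apply hE0
    rw [h0, finrank_bot] at hf
    exact Submodule.finrank_eq_zero.1 hf.symm) (by rw [hf]; exact hEb)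
  refine ⟨fun j x => σ (y j x), ?_⟩
  have h1 : (Sum.elim r' fun j x => σ (y j x)) = fun i x => σ (Sum.elim r y i x) := by
    funext i x
    rcases i with i | j
    · exact (hσ (i, x)).symm
    · rfl
  have h2 := KE_sb σ T (Sum.elim m₀ m₁) (Sum.elim r y) (sb σ.symm E)
  rw [sb_sb] at h2
  rw [h1, h2, finrank_sb]
  rw [hf] at hy
  exact hy

end Pool.Agent.GD.BE

end

section

/-!
# General d: killing a vector

A general point of exponent `1` in a block (or in `W`) has the effect of one variable less in this block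
(in `W`).
-/

set_option autoImplicit false
set_option linter.unusedSectionVars false

namespace Pool.Agent.GD

open Finset MvPolynomial Pool.Agent.H51.TB Pool.Agent.V7.ST
open Pool.Agent.V7 (msk)

section

variable {ν : Type} [Fintype ν] [DecidableEq ν] {d D J : ℕ} {β : ν → ℕ}

/-- **Killing a vector.** -/
theorem HI_kill (hD : D ≤ d) (s₀ : ν) {I : Finset ℕ} (hI : I ⊆ range J) (ms : Multiset Kd)
    (hm : ∀ k ∈ ms, k.Ok d J) : HI d D β I (.ord 1 ((range J).erase (β s₀)) ::ₘ ms) =
      HI d D (fun s : {s : ν // s ≠ s₀} => β s.1) I ms := by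
  classical
  set t : Kd := .ord 1 ((range J).erase (β s₀)) with ht
  obtain ⟨m, hm1, -⟩ := exists_conf (LS d D β I) ms
  have hmk : ∀ i, (m i).Ok d J := by
    intro i
    refine hm _ ?_
    rw [← hm1]
    exact Multiset.mem_map_of_mem _ (mem_univ i)
  have e1 : HI d D β I (t ::ₘ ms) = (LS d D β I).gd (ad m t) := by
    unfold HI
    rw [gd_eq_gM, map_ad, hm1]
  have e2 : HI d D (fun s : {s : ν // s ≠ s₀} => β s.1) I ms =
      (LS d D (fun s : {s : ν // s ≠ s₀} => β s.1) I).gd m := by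
    unfold HI
    rw [gd_eq_gM, hm1]
  rw [e1, e2]
  have hpt : ∀ (x : Fin (d + 1)) (q : ν × Fin (d + 1) → ℂ) (s : ν), pt β t x q s =
      if β s ∈ (range J).erase (β s₀) then 0 else q (s, 0) := fun x q s => rfl
  have hs₀ : β s₀ ∉ (range J).erase (β s₀) := fun h => (mem_erase.1 h).1 rfl
  apply le_antisymm
  · -- the position `e_s₀`
    obtain ⟨p, hp⟩ := gd_attained (LS d D (fun s : {s : ν // s ≠ s₀} => β s.1) I) m
    rw [← hp]
    set q₀ : ν × Fin (d + 1) → ℂ := fun z => if z.1 = s₀ then 1 else 0 with hq₀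
    set P : Fin ms.toList.length → ν × Fin (d + 1) → ℂ :=
      fun i => pullP (fun s : {s : ν // s ≠ s₀} => β s.1) (inc s₀) (m i) (p i) with hP
    refine (gd_le (LS d D β I) (ad m t) (Sum.elim P fun _ => q₀)).trans ?_
    have hmem : ∀ f ∈ (LS d D β I).V (ad m t) (Sum.elim P fun _ => q₀),
        f ∈ (LS d D β I).V m P := by
      intro f hf
      rw [mem_LS hD] at hf ⊢
      exact fun i => hf (Sum.inl i)
    let L : (LS d D β I).V (ad m t) (Sum.elim P fun _ => q₀) →ₗ[ℂ]
        (LS d D (fun s : {s : ν // s ≠ s₀} => β s.1) I).V m p :=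
      ((pullL (fun s : {s : ν // s ≠ s₀} => β s.1) β D I (inc s₀)).comp
        (Submodule.subtype _)).codRestrict _ fun f =>
        pullL_mem (cpt_inc s₀) hD hI m hmk p f.1 (hmem f.1 f.2)
    refine LinearMap.finrank_le_finrank_of_injective (f := L) ?_
    rw [← LinearMap.ker_eq_bot, LinearMap.ker_eq_bot']
    intro f hf
    have h1 : pullL (fun s : {s : ν // s ≠ s₀} => β s.1) β D I (inc s₀) f.1 = 0 :=
      congrArg Subtype.val hf
    have h2 := Fn_pullL (cpt_inc (β := β) (J := J) s₀) hI f.1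
    rw [h1] at h2
    have h3 := (mem_LS hD β I _ _ f.1).1 f.2 (Sum.inr ())
    apply Subtype.ext
    refine eq_zero_of_Fn fun b => ?_
    by_cases hb : b s₀ = 0
    · rw [← Sp_inc s₀ hb]
      have h4 := LinearMap.congr_fun h2 (mon ℂ fun s : {s : ν // s ≠ s₀} => b s.1)
      rw [Fn_mon] at h4
      refine Eq.trans ?_ (h4.symm.trans ?_)
      · rfl
      · unfold ext0
        split_ifs
        · exact mul_zero _
        · exact mul_zero _
    · have h4 := h3.1 0 Nat.zero_lt_one (mon ℂ (b - Pi.single s₀ 1))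
      have h5 : pt β t 0 q₀ = fun s => if s = s₀ then (1 : ℂ) else 0 := by
        funext s
        rw [hpt]
        by_cases h6 : s = s₀
        · rw [h6, if_neg hs₀, if_pos rfl]
          exact if_pos rfl
        · rw [if_neg h6]
          split_ifs
          · rfl
          · exact if_neg h6
      have h6 : lf (fun s => if s = s₀ then (1 : ℂ) else 0) = X s₀ := by
        unfold lf
        rw [sum_eq_single s₀]
        · show C (if s₀ = s₀ then (1 : ℂ) else 0) * X s₀ = X s₀
          rw [if_pos rfl, C_1, one_mul]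
        · intro b _ hb
          show C (if b = s₀ then (1 : ℂ) else 0) * X b = 0
          rw [if_neg hb, C_0, zero_mul]
        · intro h
          exact absurd (mem_univ _) h
      have h7 : lf (pt β t 0 q₀) ^ t.ex * mon ℂ (b - Pi.single s₀ 1) = mon ℂ b := by
        rw [h5, h6]
        show X s₀ ^ 1 * _ = _
        rw [pow_one, ← mon_single, ← mon_add]
        congr 1
        funext s
        by_cases h8 : s = s₀
        · subst h8
          simp only [Pi.add_apply, Pi.sub_apply, Pi.single_eq_same]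
          omega
        · simp only [Pi.add_apply, Pi.sub_apply, Pi.single_eq_of_ne h8]
          omega
      have h8 : Fn (ext0 (Ex β D I) f.1) (lf (pt β t 0 q₀) ^ t.ex * mon ℂ (b - Pi.single s₀ 1)) = 0 :=
        h4
      rw [h7] at h8
      exact h8
  · -- a general position
    obtain ⟨P, hP1, hP2⟩ := ((gn_gd (LS d D β I) (ad m t)).and
      (⟨X (Sum.inr (), (s₀, 0)), X_ne_zero _, fun p hp => by simpa using hp⟩ :
        Gn (Fin ms.toList.length ⊕ Unit) (ν × Fin (d + 1)) fun p => p (Sum.inr ()) (s₀, 0) ≠ 0)).exists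
    rw [← hP1]
    set w : ν → ℂ := pt β t 0 (P (Sum.inr ())) with hw
    have hw0 : w s₀ ≠ 0 := by
      rw [hw, hpt, if_neg hs₀]
      exact hP2
    have hcpt : Cpt β (fun s : {s : ν // s ≠ s₀} => β s.1) J (prj s₀ w) := by
      refine cpt_prj s₀ fun s h1 h2 => ?_
      rw [hw, hpt, if_pos (mem_erase.2 ⟨h2, mem_range.2 h1⟩)]
    refine (gd_le (LS d D (fun s : {s : ν // s ≠ s₀} => β s.1) I) m fun i =>
      pullP β (prj s₀ w) (m i) (P (Sum.inl i))).trans ?_
    let L : (LS d D (fun s : {s : ν // s ≠ s₀} => β s.1) I).V m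
        (fun i => pullP β (prj s₀ w) (m i) (P (Sum.inl i))) →ₗ[ℂ] (LS d D β I).V (ad m t) P :=
      ((pullL β (fun s : {s : ν // s ≠ s₀} => β s.1) D I (prj s₀ w)).comp
        (Submodule.subtype _)).codRestrict _ fun f => by
        have h1 := pullL_mem hcpt hD hI m hmk (fun i => P (Sum.inl i)) f.1 f.2
        rw [mem_LS hD] at h1 ⊢
        rintro (i | i)
        · exact h1 i
        · refine ⟨fun x _ y => ?_, trivial⟩
          show Fn (ext0 (Ex β D I) (pullL β (fun s : {s : ν // s ≠ s₀} => β s.1) D I (prj s₀ w) f.1))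
            (lf (pt β t x (P (Sum.inr ()))) ^ 1 * y) = 0
          rw [Fn_pullL hcpt hI]
          show Fn _ (Sp (prj s₀ w) (lf w ^ 1 * y)) = 0
          rw [map_mul, map_pow, Sp_lf, show app (prj s₀ w) w = fun _ => 0 from
            funext fun s' => app_prj s₀ hw0 s']
          have h2 : lf (fun _ : {s : ν // s ≠ s₀} => (0 : ℂ)) = 0 := by
            unfold lf
            simp
          rw [h2, pow_one, zero_mul, map_zero]
    refine LinearMap.finrank_le_finrank_of_injective (f := L) ?_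
    rw [← LinearMap.ker_eq_bot, LinearMap.ker_eq_bot']
    intro f hf
    have h1 : pullL β (fun s : {s : ν // s ≠ s₀} => β s.1) D I (prj s₀ w) f.1 = 0 :=
      congrArg Subtype.val hf
    have h2 := Fn_pullL hcpt hI f.1
    rw [h1] at h2
    apply Subtype.ext
    refine eq_zero_of_Fn fun b => ?_
    have h3 := LinearMap.congr_fun h2 (Sp (inc s₀) (mon ℂ b))
    have h4 : ((Fn (ext0 (Ex (fun s : {s : ν // s ≠ s₀} => β s.1) D I) f.1)).comp
        (Sp (prj s₀ w)).toLinearMap) (Sp (inc s₀) (mon ℂ b)) =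
        Fn (ext0 (Ex (fun s : {s : ν // s ≠ s₀} => β s.1) D I) f.1) (mon ℂ b) := by
      show Fn _ (Sp (prj s₀ w) (Sp (inc s₀) (mon ℂ b))) = _
      rw [Sp_prj_inc]
    rw [h4] at h3
    refine h3.symm.trans ?_
    have h5 : Fn (ext0 (Ex β D I) (0 : {a // a ∈ Ex β D I} → ℂ)) = 0 := by
      refine mon_span _ fun b => ?_
      rw [Fn_mon]
      unfold ext0
      split_ifs
      · exact mul_zero _
      · exact mul_zero _
    rw [h5]
    rfl

end

end Pool.Agent.GD

end

section

/-!
# General d: killing a vector, in terms of the sizes of the blocks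
-/

set_option autoImplicit false
set_option linter.unusedSectionVars false

namespace Pool.Agent.GD

open Finset MvPolynomial Pool.Agent.H51.TB Pool.Agent.V7.ST

section

variable {ν ν' : Type} [Fintype ν] [DecidableEq ν] [Fintype ν'] [DecidableEq ν'] {d D J : ℕ}

/-- `HI_kill` for a partition `β'` with one variable of the block of `s₀` less. -/
theorem HI_kill_size (hD : D ≤ d) {β : ν → ℕ} {β' : ν' → ℕ} (s₀ : ν)
    (h0 : Fintype.card ν' + 1 = Fintype.card ν)
    (h : ∀ i < J, (univ.filter fun s => β' s = i).card + (if β s₀ = i then 1 else 0) =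
      (univ.filter fun s => β s = i).card)
    {I : Finset ℕ} (hI : I ⊆ range J) (ms : Multiset Kd) (hm : ∀ k ∈ ms, k.Ok d J) :
    HI d D β I (.ord 1 ((range J).erase (β s₀)) ::ₘ ms) = HI d D β' I ms := by
  have hblk : ∀ k ∈ ms, k.Blk J := by
    intro k hk
    have h1 := hm k hk
    rcases k with ⟨e, A⟩ | ⟨e, dl, i, As⟩
    · exact h1.2.2
    · exact ⟨h1.2.2.2.1, fun A hA => (h1.2.2.2.2 A hA).trans (erase_subset _ _)⟩
  rw [HI_kill hD s₀ hI ms hm]
  refine HI_size hD ?_ ?_ hI ms hblk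
  · have h1 : Fintype.card {s : ν // s ≠ s₀} = Fintype.card ν - 1 := by
      rw [Fintype.card_subtype_compl, Fintype.card_subtype_eq]
    omega
  · intro i hi
    have h1 := h i hi
    have h2 : (univ.filter fun s : {s : ν // s ≠ s₀} => β s.1 = i).card =
        ((univ.filter fun s => β s = i).erase s₀).card := by
      refine card_bij (fun s _ => s.1) ?_ ?_ ?_
      · intro s hs
        rw [mem_filter] at hs
        exact mem_erase.2 ⟨s.2, mem_filter.2 ⟨mem_univ _, hs.2⟩⟩
      · intro s _ s' _ hss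
        exact Subtype.ext hss
      · intro s hs
        rw [mem_erase, mem_filter] at hs
        exact ⟨⟨s, hs.1⟩, mem_filter.2 ⟨mem_univ _, hs.2.2⟩, rfl⟩
    rw [h2]
    by_cases h3 : β s₀ = i
    · rw [if_pos h3] at h1
      have hmem : s₀ ∈ univ.filter fun s => β s = i := mem_filter.2 ⟨mem_univ _, h3⟩
      rw [card_erase_of_mem hmem]
      omega
    · rw [if_neg h3] at h1
      have hnot : s₀ ∉ univ.filter fun s => β s = i := fun h4 => h3 (mem_filter.1 h4).2
      rw [erase_eq_of_notMem hnot]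
      omega

end

end Pool.Agent.GD

end

section

/-!
# General d, ALPHA: the replacement of an ordinary object

`av_ub`: only upper bounds for the lower pairs are needed (also for configurations with clusters).
-/

set_option autoImplicit false
set_option linter.unusedSectionVars false

namespace Pool.Agent.GD.AL

open Finset MvPolynomial Pool.Agent.H51.TB Pool.Agent.V7.ST

section AV

theorem HI_bt_lo {d D J a : ℕ} (hD : D ≤ d) (c : ℕ → ℕ) (w : ℕ) (ha : a < J) (hca : 1 ≤ c a)
    {I : Finset ℕ} (hI : I ⊆ range J) (ms : Multiset Kd) (hm : ∀ k ∈ ms, k.Ok d J) :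
    HI d D (bt J c w) I (.ord 1 ((range J).erase a) ::ₘ ms) = HI d D (bt J (cm c a 1) w) I ms := by
  classical
  have h := HI_kill_size (J := J) hD (β := bt J c w) (β' := bt J (cm c a 1) w)
    (Sum.inl ⟨⟨a, ha⟩, ⟨0, hca⟩⟩) (by
      have h1 := sum_cm (c := c) (t := 1) ha hca
      rw [card_Vr, card_Vr]
      omega) (by
      intro i hi
      rw [card_bt _ w hi, card_bt c w hi]
      show cm c a 1 i + (if a = i then 1 else 0) = c i
      by_cases hia : a = i
      · subst hia
        rw [if_pos rfl, cm_same]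
        omega
      · rw [if_neg hia, cm_ne c 1 (Ne.symm hia), add_zero]) hI ms hm
  exact h

theorem HI_bt_lw {d D J : ℕ} (hD : D ≤ d) (c : ℕ → ℕ) (w : ℕ) {I : Finset ℕ} (hI : I ⊆ range J)
    (ms : Multiset Kd) (hm : ∀ k ∈ ms, k.Ok d J) :
    HI d D (bt J c (w + 1)) I (.ord 1 (range J) ::ₘ ms) = HI d D (bt J c w) I ms := by
  classical
  have h := HI_kill_size (J := J) hD (β := bt J c (w + 1)) (β' := bt J c w)
    (Sum.inr 0) (by
      rw [card_Vr, card_Vr]
      omega) (by
      intro i hi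
      rw [card_bt _ _ hi, card_bt c _ hi]
      have h1 : bt J c (w + 1) (Sum.inr 0) ≠ i := fun h => by
        have h2 : J = i := h
        omega
      rw [if_neg h1, add_zero]) hI ms hm
  have h1 : (range J).erase (bt J c (w + 1) (Sum.inr 0)) = range J := by
    have h2 : bt J c (w + 1) (Sum.inr 0) = J := rfl
    rw [h2]
    exact erase_eq_of_notMem notMem_range_self
  rw [h1] at h
  exact h

theorem HI_bt_los {d D J : ℕ} (hd : 1 ≤ d) (hD : D ≤ d) {a : ℕ} (ha : a < J) {I : Finset ℕ}
    (hI : I ⊆ range J) (ms : Multiset Kd) (hm : ∀ k ∈ ms, k.Ok d J) (t : ℕ) (c : ℕ → ℕ) (w : ℕ)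
    (ht : t ≤ c a) :
    HI d D (bt J c w) I (Multiset.replicate t (.ord 1 ((range J).erase a)) + ms) =
      HI d D (bt J (cm c a t) w) I ms := by
  induction t generalizing c with
  | zero => rw [Multiset.replicate_zero, zero_add, cm_zero]
  | succ t ih =>
    rw [Multiset.replicate_succ, Multiset.cons_add, HI_bt_lo hD c w ha (by omega) hI _ (by
      intro k hk
      rcases Multiset.mem_add.1 hk with hk | hk
      · rw [Multiset.eq_of_mem_replicate hk]
        exact ⟨le_rfl, hd, erase_subset _ _⟩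
      · exact hm k hk)]
    rw [ih (cm c a 1) (by rw [cm_same]; omega)]
    have h2 : cm (cm c a 1) a t = cm c a (t + 1) := by
      funext i
      by_cases hia : i = a
      · subst hia
        rw [cm_same, cm_same, cm_same]
        omega
      · rw [cm_ne _ t hia, cm_ne c 1 hia, cm_ne c _ hia]
    rw [h2]

end AV

end Pool.Agent.GD.AL

end

section

/-!
# General d, ALPHA: states, basic facts
-/

set_option autoImplicit false
set_option linter.unusedVariables false

namespace Pool.Agent.GD.AL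

open Finset Pool.Agent.V7.ST Pool.Agent.H51.TB
open Pool.Agent.H21.NX (Sx mem_Sx)

/-! ### The number of the exponents -/

section count

variable {ν : Type} [Fintype ν] [DecidableEq ν]

end count

section Bas

variable {d J D : ℕ} {σ : St} {I : Finset ℕ}

theorem St.H_kill (hD : D ≤ d) {a : ℕ} (ha : a < J) (hc : 1 ≤ σ.c a) (hI : I ⊆ range J)
    (hm : ∀ k ∈ σ.ms, k.Ok d J) :
    (σ.ad (.ord 1 ((range J).erase a))).H d J I D = (σ.lo a 1).H d J I D := by
  have h1 := HI_kill_size (β := bt J σ.c σ.w)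
    (β' := bt J (Function.update σ.c a (σ.c a - 1)) σ.w) hD
    (Sum.inl ⟨⟨a, ha⟩, ⟨0, hc⟩⟩ : Vr J σ.c σ.w) (by
      rw [card_Vr, card_Vr]
      exact σ.n_lo (J := J) ha hc) (by
      intro i hi
      rw [card_bt _ _ hi, card_bt _ _ hi]
      show Function.update σ.c a (σ.c a - 1) i + (if a = i then 1 else 0) = σ.c i
      by_cases h : a = i
      · subst h
        rw [if_pos rfl, Function.update_self]
        omega
      · rw [if_neg h, Function.update_of_ne (Ne.symm h), Nat.add_zero]) hI σ.ms hm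
  exact h1

theorem St.H_killw (hD : D ≤ d) (hw : 1 ≤ σ.w) (hI : I ⊆ range J) (hm : ∀ k ∈ σ.ms, k.Ok d J) :
    (σ.ad (.ord 1 (range J))).H d J I D = (σ.lw 1).H d J I D := by
  have h1 := HI_kill_size (β := bt J σ.c σ.w) (β' := bt J σ.c (σ.w - 1)) hD
    (Sum.inr ⟨0, hw⟩ : Vr J σ.c σ.w) (by
      rw [card_Vr, card_Vr]
      omega) (by
      intro i hi
      rw [card_bt _ _ hi, card_bt _ _ hi]
      show σ.c i + (if J = i then 1 else 0) = σ.c i
      rw [if_neg (Nat.ne_of_gt hi), Nat.add_zero]) hI σ.ms hm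
  have h2 : (range J).erase (bt J σ.c σ.w (Sum.inr ⟨0, hw⟩)) = range J :=
    erase_eq_of_notMem fun h => absurd (mem_range.1 h) (lt_irrefl J)
  rw [h2] at h1
  exact h1

end Bas

end Pool.Agent.GD.AL

end
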