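import Mathlib

/-! The parts of this file: GD.AL.Pot, GD.BE.Fib, GD.BE.Lines, GD.ST.Dh, XD.Fam, XD.Trans, XE.Small, XE2.KKp. -/

section

/-!
# General d, ALPHA: the potential
-/

set_option autoImplicit false

namespace Pool.Agent.GD.AL

open Finset

section Pot

theorem pot {α : Type} (μ : α → ℕ) (G : α → Prop) (a δ : α → ℝ) {thr X T : ℝ} (hX : 0 ≤ X)
    (hT : 0 ≤ T) (hδ : ∀ σ, G σ → δ σ ≤ T)
    (hstep : ∀ σ, G σ → thr ≤ a σ → δ σ ≤ 0 ∨ ∃ (σ₀ σ₁ : α) (p : ℝ), 0 ≤ p ∧ p ≤ 1 ∧ G σ₀ ∧ G σ₁ ∧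
      μ σ₀ < μ σ ∧ μ σ₁ < μ σ ∧ δ σ ≤ (1 - p) * δ σ₀ + p * δ σ₁ ∧
      (1 - p) * Real.exp (X * (a σ - a σ₀)) + p * Real.exp (X * (a σ - a σ₁)) ≤ 1) :
    ∀ σ, G σ → δ σ ≤ T * Real.exp (-(X * (a σ - thr))) := by
  have key : ∀ n : ℕ, ∀ σ, μ σ ≤ n → G σ → δ σ ≤ T * Real.exp (-(X * (a σ - thr))) := by
    intro n
    induction n with
    | zero =>
      intro σ hσ hG
      by_cases h : thr ≤ a σ
      · rcases hstep σ hG h with h1 | ⟨σ₀, σ₁, p, -, -, -, -, h2, -, -, -⟩
        · exact h1.trans (mul_nonneg hT (Real.exp_pos _).le)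
        · omega
      · refine (hδ σ hG).trans (le_mul_of_one_le_right hT (Real.one_le_exp ?_))
        push Not at h
        nlinarith
    | succ n ih =>
      intro σ hσ hG
      by_cases h : thr ≤ a σ
      · rcases hstep σ hG h with h1 | ⟨σ₀, σ₁, p, hp0, hp1, hG0, hG1, h2, h3, h4, h5⟩
        · exact h1.trans (mul_nonneg hT (Real.exp_pos _).le)
        · have e0 := ih σ₀ (by omega) hG0
          have e1 := ih σ₁ (by omega) hG1
          have f : ∀ σ', Real.exp (-(X * (a σ' - thr))) =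
              Real.exp (-(X * (a σ - thr))) * Real.exp (X * (a σ - a σ')) := by
            intro σ'
            rw [← Real.exp_add]
            congr 1
            ring
          rw [f σ₀] at e0
          rw [f σ₁] at e1
          set E := Real.exp (-(X * (a σ - thr))) with hE
          have hE0 : 0 ≤ E := (Real.exp_pos _).le
          calc δ σ ≤ (1 - p) * δ σ₀ + p * δ σ₁ := h4
            _ ≤ (1 - p) * (T * (E * Real.exp (X * (a σ - a σ₀)))) +
                p * (T * (E * Real.exp (X * (a σ - a σ₁)))) :=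
                add_le_add (mul_le_mul_of_nonneg_left e0 (by linarith))
                  (mul_le_mul_of_nonneg_left e1 hp0)
            _ = T * E * ((1 - p) * Real.exp (X * (a σ - a σ₀)) +
                p * Real.exp (X * (a σ - a σ₁))) := by ring
            _ ≤ T * E * 1 := mul_le_mul_of_nonneg_left h5 (mul_nonneg hT hE0)
            _ = T * E := mul_one _
      · refine (hδ σ hG).trans (le_mul_of_one_le_right hT (Real.one_le_exp ?_))
        push Not at h
        nlinarith
  exact fun σ hG => key (μ σ) σ le_rfl hG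

end Pot

end Pool.Agent.GD.AL

end

section

/-!
# General d, block BETA, module Fib: an injection with prescribed classes

PROOF: for every `k` embed `{y | g y = k ∧ D y = some b}` into `{x | f x = k ∧ cl x = b}` (`b = false, true`), and
the other `x` with `f x = k` into the `y` with `g y = k`, `D y = none` (their number is at most the number of these
`y`).
-/

set_option autoImplicit false

namespace Pool.Agent.GD.BE

/-- An embedding over a base, from the numbers of elements of the fibers. -/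
private theorem fib_emb1 {X Y K : Type} [Finite X] [Finite Y] (f : X → K) (g : Y → K)
    (h : ∀ k, Nat.card {x // f x = k} ≤ Nat.card {y // g y = k}) :
    ∃ e : X → Y, Function.Injective e ∧ ∀ x, g (e x) = f x := by
  classical
  have _ := Fintype.ofFinite X
  have _ := Fintype.ofFinite Y
  have h1 : ∀ k, Nonempty ({x // f x = k} ↪ {y // g y = k}) := by
    intro k
    refine Function.Embedding.nonempty_of_card_le ?_
    have := h k
    rwa [Nat.card_eq_fintype_card, Nat.card_eq_fintype_card] at this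
  let E : ∀ k, {x // f x = k} ↪ {y // g y = k} := fun k => (h1 k).some
  refine ⟨fun x => (E (f x) ⟨x, rfl⟩).1, ?_, fun x => (E (f x) ⟨x, rfl⟩).2⟩
  intro x x' hxx
  have h2 : f x = f x' := by
    have h3 := (E (f x) ⟨x, rfl⟩).2
    have h4 := (E (f x') ⟨x', rfl⟩).2
    rw [← h3, ← h4]
    exact congrArg g hxx
  have h3 : ∀ (k : K) (hk : f x = k) (hk' : f x' = k),
      ((E k ⟨x, hk⟩).1 = (E k ⟨x', hk'⟩).1) → x = x' := by
    intro k hk hk' h4
    have h5 := (E k).injective (Subtype.ext h4)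
    exact congrArg Subtype.val h5
  refine h3 (f x) rfl h2.symm ?_
  have h4 : ∀ (k k' : K) (hkk : k = k') (hk : f x' = k) (hk' : f x' = k'),
      (E k ⟨x', hk⟩).1 = (E k' ⟨x', hk'⟩).1 := by
    rintro k _ rfl hk hk'
    rfl
  exact hxx.trans (h4 (f x') (f x) h2.symm rfl h2.symm)

private theorem fib_cnt {X : Type} [Fintype X] (P Q : X → Prop) [DecidablePred P]
    [DecidablePred Q] : Nat.card {x : {x // P x} // Q x.1} =
      (Finset.univ.filter fun x => Q x ∧ P x).card := by
  rw [Nat.card_congr (Equiv.subtypeSubtypeEquivSubtypeInter P Q), Nat.card_eq_fintype_card,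
    Fintype.card_subtype]
  congr 1
  exact Finset.filter_congr fun x _ => and_comm

theorem fib_emb2 {X Y K : Type} [Finite X] [Finite Y] (f : X → K) (g : Y → K) (cl : X → Bool)
    (D : Y → Option Bool)
    (h1 : ∀ k b, Nat.card {y // g y = k ∧ D y = some b} ≤ Nat.card {x // f x = k ∧ cl x = b})
    (h2 : ∀ k, Nat.card {x // f x = k} ≤ Nat.card {y // g y = k}) :
    ∃ i : X → Y, Function.Injective i ∧ (∀ x, g (i x) = f x) ∧
      ∀ y b, D y = some b → ∃ x, i x = y ∧ cl x = b := by
  classical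
  have _ := Fintype.ofFinite X
  have _ := Fintype.ofFinite Y
  -- the prescribed points
  obtain ⟨e, he, hfe⟩ := fib_emb1 (X := {y // D y ≠ none}) (Y := X) (K := K × Bool)
    (fun y => (g y.1, (D y.1).getD false)) (fun x => (f x, cl x)) (by
      rintro ⟨k, b⟩
      have h3 : ∀ y : {y : {y // D y ≠ none} // (g y.1, (D y.1).getD false) = (k, b)},
          g y.1.1 = k ∧ D y.1.1 = some b := by
        rintro ⟨⟨y, hy⟩, h⟩
        have h4 := (Prod.ext_iff.1 h)
        refine ⟨h4.1, ?_⟩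
        obtain ⟨b', hb'⟩ := Option.ne_none_iff_exists'.1 hy
        have h5 : (D y).getD false = b := h4.2
        rw [hb', Option.getD_some] at h5
        show D y = some b
        rw [hb', h5]
      refine le_trans ?_ ((h1 k b).trans ?_)
      · exact Nat.card_le_card_of_injective
          (fun y : {y : {y // D y ≠ none} // (g y.1, (D y.1).getD false) = (k, b)} =>
            (⟨y.1.1, h3 y⟩ : {y // g y = k ∧ D y = some b}))
          fun y y' h => by
            have h' := Subtype.ext_iff.1 h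
            exact Subtype.ext (Subtype.ext h')
      · exact Nat.card_le_card_of_injective
          (fun x : {x // f x = k ∧ cl x = b} =>
            (⟨x.1, Prod.ext x.2.1 x.2.2⟩ : {x // (f x, cl x) = (k, b)}))
          fun x x' h => by
            have h' := Subtype.ext_iff.1 h
            exact Subtype.ext h')
  have hfe1 : ∀ y, f (e y) = g y.1 := fun y => congrArg Prod.fst (hfe y)
  have hfe2 : ∀ y, cl (e y) = (D y.1).getD false := fun y => congrArg Prod.snd (hfe y)
  -- the other points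
  obtain ⟨j, hj, hgj⟩ := fib_emb1 (X := {x // x ∉ Set.range e}) (Y := {y // D y = none}) (K := K)
    (fun x => f x.1) (fun y => g y.1) (by
      intro k
      have a1 := fib_cnt (fun x : X => x ∉ Set.range e) (fun x => f x = k)
      have a2 := fib_cnt (fun y : Y => D y = none) (fun y => g y = k)
      have a3 : (Finset.univ.filter fun y => g y = k ∧ D y ≠ none).card ≤
          (Finset.univ.filter fun x => f x = k ∧ x ∈ Set.range e).card := by
        rw [← fib_cnt (fun y : Y => D y ≠ none) (fun y => g y = k),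
          ← fib_cnt (fun x : X => x ∈ Set.range e) (fun x => f x = k)]
        exact Nat.card_le_card_of_injective
          (fun y : {y : {y // D y ≠ none} // g y.1 = k} =>
            (⟨⟨e y.1, ⟨y.1, rfl⟩⟩, (hfe1 y.1).trans y.2⟩ :
              {x : {x // x ∈ Set.range e} // f x.1 = k}))
          fun y y' h => Subtype.ext (he (congrArg Subtype.val (Subtype.ext_iff.1 h)))
      have a4 : Nat.card {x // f x = k} =
          (Finset.univ.filter fun x => f x = k ∧ x ∈ Set.range e).card +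
          (Finset.univ.filter fun x => f x = k ∧ x ∉ Set.range e).card := by
        rw [Nat.card_eq_fintype_card, Fintype.card_subtype,
          ← Finset.card_filter_add_card_filter_not (fun x => x ∈ Set.range e),
          Finset.filter_filter, Finset.filter_filter]
      have a5 : Nat.card {y // g y = k} =
          (Finset.univ.filter fun y => g y = k ∧ D y ≠ none).card +
          (Finset.univ.filter fun y => g y = k ∧ D y = none).card := by
        rw [Nat.card_eq_fintype_card, Fintype.card_subtype,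
          ← Finset.card_filter_add_card_filter_not (fun y => D y ≠ none),
          Finset.filter_filter, Finset.filter_filter]
        simp only [ne_eq, not_not]
      have a6 := h2 k
      rw [a1, a2]
      omega)
  refine ⟨fun x => if h : x ∈ Set.range e then h.choose.1 else (j ⟨x, h⟩).1, ?_, ?_, ?_⟩
  · intro x x' hxx
    by_cases hx : x ∈ Set.range e
    · by_cases hx' : x' ∈ Set.range e
      · simp only [dif_pos hx, dif_pos hx'] at hxx
        rw [← hx.choose_spec, ← hx'.choose_spec, Subtype.ext hxx]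
      · simp only [dif_pos hx, dif_neg hx'] at hxx
        exact absurd ((congrArg D hxx).trans (j ⟨x', hx'⟩).2) hx.choose.2
    · by_cases hx' : x' ∈ Set.range e
      · simp only [dif_neg hx, dif_pos hx'] at hxx
        exact absurd ((congrArg D hxx.symm).trans (j ⟨x, hx⟩).2) hx'.choose.2
      · simp only [dif_neg hx, dif_neg hx'] at hxx
        exact congrArg Subtype.val (hj (Subtype.ext hxx))
  · intro x
    by_cases hx : x ∈ Set.range e
    · simp only [dif_pos hx]
      have h3 := hfe1 hx.choose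
      rw [hx.choose_spec] at h3
      exact h3.symm
    · simp only [dif_neg hx]
      exact hgj ⟨x, hx⟩
  · intro y b hy
    have hne : D y ≠ none := by
      rw [hy]
      exact Option.some_ne_none b
    refine ⟨e ⟨y, hne⟩, ?_, ?_⟩
    · have hx : e ⟨y, hne⟩ ∈ Set.range e := ⟨_, rfl⟩
      simp only [dif_pos hx]
      exact congrArg Subtype.val (he hx.choose_spec)
    · rw [hfe2, hy, Option.getD_some]

end Pool.Agent.GD.BE

end

section

/-!
# General d, block BETA, module Lines: the distribution of the points on the lines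

As `V7/AL/Tens.tens_lines` / the proof of `GD/TT.critical`.
-/

set_option autoImplicit false

namespace Pool.Agent.GD.BE

open Finset

variable {ι : Type} [Fintype ι] [DecidableEq ι]

omit [Fintype ι] in
private theorem lines_ins {i₀ : ι} {I' : Finset ι} (hi₀ : i₀ ∉ I') {B : Finset ι} (hB : B ⊆ I') :
    (insert i₀ B).erase i₀ = B := Finset.erase_insert fun h => hi₀ (hB h)

/-- `L B` lines of type `B` (`B ⊆ I'`), `q B` points of kind `insert i₀ B` on each of them. -/
theorem lines {i₀ : ι} {I' : Finset ι} (hi₀ : i₀ ∉ I') (n : ℕ) (L q : Finset ι → ℕ)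
    (hL : ∑ B ∈ I'.powerset, L B = n) {P : Type} [Fintype P] (m : P → Finset ι)
    (hm : ∀ i, i₀ ∈ m i → (m i).erase i₀ ⊆ I') (hn : 0 < n)
    (hcard : ∀ B ⊆ I', Nat.card {x // m x = insert i₀ B} = L B * q B) :
    ∃ (τ : Fin n → Finset ι) (line : P → Fin n),
      (∀ x, τ x ⊆ I' ∧ L (τ x) ≠ 0) ∧ (∀ B ⊆ I', L B ≠ 0 → ∃ x, τ x = B) ∧
      (∀ i, i₀ ∈ m i → (m i).erase i₀ = τ (line i)) ∧
      ∀ x, Nat.card {i // i₀ ∈ m i ∧ line i = x} = q (τ x) := by
  classical
  have e1 : Fin n ≃ Σ B : {B // B ∈ I'.powerset}, Fin (L B.1) := by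
    refine Fintype.equivOfCardEq ?_
    rw [Fintype.card_sigma]
    simp only [Fintype.card_fin]
    rw [← hL]
    exact (Finset.sum_coe_sort I'.powerset L).symm
  let τ : Fin n → Finset ι := fun x => (e1 x).1.1
  have hτ : ∀ B, B ⊆ I' → Fintype.card {x // τ x = B} = L B := by
    intro B hB
    have h1 : {x // τ x = B} ≃
        {z : Σ B : {B // B ∈ I'.powerset}, Fin (L B.1) // z.1.1 = B} :=
      e1.subtypeEquiv fun x => Iff.rfl
    have h2 : {z : Σ B : {B // B ∈ I'.powerset}, Fin (L B.1) // z.1.1 = B} ≃ Fin (L B) :=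
      { toFun := fun z => Fin.cast (congrArg L z.2) z.1.2
        invFun := fun v => ⟨⟨⟨B, Finset.mem_powerset.2 hB⟩, v⟩, rfl⟩
        left_inv := by
          rintro ⟨⟨⟨B', hB'⟩, v⟩, h⟩
          cases h
          rfl
        right_inv := fun v => rfl }
    rw [Fintype.card_congr (h1.trans h2), Fintype.card_fin]
  have hE : ∀ B, B ⊆ I' → Nonempty ({i // m i = insert i₀ B} ≃ {x // τ x = B} × Fin (q B)) := by
    intro B hB
    refine ⟨Fintype.equivOfCardEq ?_⟩
    rw [Fintype.card_prod, hτ B hB, Fintype.card_fin, ← hcard B hB, Nat.card_eq_fintype_card]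
  have E : ∀ B, B ⊆ I' → {i // m i = insert i₀ B} ≃ {x // τ x = B} × Fin (q B) := fun B hB =>
    Classical.choice (hE B hB)
  have hins : ∀ i, i₀ ∈ m i → m i = insert i₀ ((m i).erase i₀) := fun i h =>
    (Finset.insert_erase h).symm
  let line : P → Fin n := fun i =>
    if h : i₀ ∈ m i then ((E ((m i).erase i₀) (hm i h) ⟨i, hins i h⟩).1).1 else ⟨0, hn⟩
  have hl : ∀ (B : Finset ι) (hB : B ⊆ I') (i : P) (h : m i = insert i₀ B),
      line i = ((E B hB ⟨i, h⟩).1).1 := by
    intro B hB i h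
    have h1 : i₀ ∈ m i := by
      rw [h]
      exact Finset.mem_insert_self _ _
    have h2 : B = (m i).erase i₀ := by
      rw [h, lines_ins hi₀ hB]
    subst h2
    exact dif_pos h1
  have hτI : ∀ x, τ x ⊆ I' := fun x => Finset.mem_powerset.1 (e1 x).1.2
  refine ⟨τ, line, ?_, ?_, ?_, ?_⟩
  · intro x
    refine ⟨hτI x, fun h => ?_⟩
    have h1 : (e1 x).2.1 < L (τ x) := (e1 x).2.2
    omega
  · intro B hB h0
    have h1 : 0 < Fintype.card {x // τ x = B} := by
      rw [hτ B hB]
      omega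
    obtain ⟨x⟩ := Fintype.card_pos_iff.1 h1
    exact ⟨x.1, x.2⟩
  · intro i hi
    have h1 := hl ((m i).erase i₀) (hm i hi) i (hins i hi)
    rw [h1, ((E ((m i).erase i₀) (hm i hi) ⟨i, hins i hi⟩).1).2]
  · intro x
    have h3 : Fintype.card (Fin (q (τ x))) = q (τ x) := Fintype.card_fin _
    rw [← h3, Nat.card_eq_fintype_card, Fintype.card_subtype, ← Finset.card_univ]
    symm
    refine Finset.card_bij (fun j _ => ((E (τ x) (hτI x)).symm (⟨x, rfl⟩, j)).1) ?_ ?_ ?_
    · intro j _
      have h4 := ((E (τ x) (hτI x)).symm (⟨x, rfl⟩, j)).2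
      rw [mem_filter]
      refine ⟨mem_univ _, ?_, ?_⟩
      · rw [h4]
        exact Finset.mem_insert_self _ _
      · rw [hl (τ x) (hτI x) _ h4]
        have h5 : (⟨((E (τ x) (hτI x)).symm (⟨x, rfl⟩, j)).1, h4⟩ :
            {i // m i = insert i₀ (τ x)}) = (E (τ x) (hτI x)).symm (⟨x, rfl⟩, j) := rfl
        rw [h5, Equiv.apply_symm_apply]
    · intro j _ j' _ h
      have h4 := (E (τ x) (hτI x)).symm.injective (Subtype.ext h)
      exact (Prod.ext_iff.1 h4).2
    · intro i hi
      rw [mem_filter] at hi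
      obtain ⟨-, hi1, hi2⟩ := hi
      have h4 : m i = insert i₀ (τ x) := by
        have h5 := hl ((m i).erase i₀) (hm i hi1) i (hins i hi1)
        have h6 := ((E ((m i).erase i₀) (hm i hi1) ⟨i, hins i hi1⟩).1).2
        rw [← h5, hi2] at h6
        rw [h6]
        exact hins i hi1
      refine ⟨(E (τ x) (hτI x) ⟨i, h4⟩).2, mem_univ _, ?_⟩
      have h7 : (E (τ x) (hτI x) ⟨i, h4⟩).1 = ⟨x, rfl⟩ :=
        Subtype.ext ((hl _ (hτI x) _ h4).symm.trans hi2)
      have h8 : ((⟨x, rfl⟩ : {y // τ y = τ x}), (E (τ x) (hτI x) ⟨i, h4⟩).2) =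
          E (τ x) (hτI x) ⟨i, h4⟩ := by
        rw [← h7]
      show ((E (τ x) (hτI x)).symm (⟨x, rfl⟩, (E (τ x) (hτI x) ⟨i, h4⟩).2)).1 = i
      rw [h8, Equiv.symm_apply_apply]

end Pool.Agent.GD.BE

end

section

/-!
# General d, step: the algebra of the differential Horace lemma for clusters
-/

set_option autoImplicit false
set_option linter.unusedSectionVars false

namespace Pool.Agent.GD

open Finset

/-- The power of a sum. -/
theorem sum_pow_mem {S ι : Type} [CommRing S] [DecidableEq ι] (J : Ideal S) (w : ι → S) (s : Finset ι)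
    (e : ℕ) (he : 1 ≤ e) (h : ∀ i ∈ s, w i ^ e ∈ J) :
    (∑ i ∈ s, w i) ^ (s.card * (e - 1) + 1) ∈ J := by
  induction s using Finset.induction_on with
  | empty => simp
  | insert a s ha ih =>
    rw [sum_insert ha, card_insert_of_notMem ha]
    refine Ideal.add_pow_mem_of_pow_mem_of_le J (h a (mem_insert_self a s))
      (ih fun i hi => h i (mem_insert_of_mem hi)) ?_
    have h1 : (s.card + 1) * (e - 1) = s.card * (e - 1) + (e - 1) := by ring
    omega

theorem add_pow_split {S : Type} [CommRing S] (w a : S) (E κ : ℕ) :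
    ∃ h g : S, (w + a) ^ (E + 1 + κ) =
      a ^ (κ + 1) * (((E + 1 + κ).choose E : ℕ) * w ^ E + a * h) + w ^ (E + 1) * g := by
  refine ⟨∑ m ∈ range E, w ^ m * a ^ (E - 1 - m) * ((E + 1 + κ).choose m : ℕ),
    ∑ x ∈ range (κ + 1), w ^ x * a ^ (E + 1 + κ - (E + 1 + x)) *
      ((E + 1 + κ).choose (E + 1 + x) : ℕ), ?_⟩
  rw [add_pow, show E + 1 + κ + 1 = E + 1 + (κ + 1) by ring, sum_range_add, sum_range_succ]
  have h1 : ∑ m ∈ range E, w ^ m * a ^ (E + 1 + κ - m) * ((E + 1 + κ).choose m : ℕ) =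
      a ^ (κ + 1) * (a * ∑ m ∈ range E, w ^ m * a ^ (E - 1 - m) * ((E + 1 + κ).choose m : ℕ)) := by
    rw [mul_sum, mul_sum]
    refine sum_congr rfl fun m hm => ?_
    rw [mem_range] at hm
    rw [show E + 1 + κ - m = κ + 1 + (1 + (E - 1 - m)) by omega, pow_add, pow_add, pow_one]
    ring
  have h2 : ∑ x ∈ range (κ + 1), w ^ (E + 1 + x) * a ^ (E + 1 + κ - (E + 1 + x)) *
      ((E + 1 + κ).choose (E + 1 + x) : ℕ) =
      w ^ (E + 1) * ∑ x ∈ range (κ + 1), w ^ x * a ^ (E + 1 + κ - (E + 1 + x)) *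
        ((E + 1 + κ).choose (E + 1 + x) : ℕ) := by
    rw [mul_sum]
    refine sum_congr rfl fun x _ => ?_
    rw [pow_add w (E + 1) x]
    ring
  rw [h1, h2, show E + 1 + κ - E = κ + 1 by omega]
  ring

/-- `w = u + s z`: powers of `u` modulo `w^(E + 1)`. -/
theorem pow_split {S : Type} [CommRing S] (u z s : S) (E κ : ℕ) :
    ∃ h g : S, u ^ (E + 1 + κ) =
      s ^ (κ + 1) * ((-1) ^ (κ + 1) * ((E + 1 + κ).choose E : ℕ) * (u ^ E * z ^ (κ + 1)) + s * h) +
        (u + s * z) ^ (E + 1) * g := by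
  obtain ⟨h, g, hg⟩ := add_pow_split (u + s * z) (-(s * z)) E κ
  obtain ⟨h', hh'⟩ : ∃ h', (u + s * z) ^ E = u ^ E + s * h' := by
    obtain ⟨h', hh'⟩ := sub_dvd_pow_sub_pow (u + s * z) u E
    refine ⟨z * h', ?_⟩
    linear_combination hh'
  refine ⟨(-1) ^ (κ + 1) * z ^ (κ + 1) * (((E + 1 + κ).choose E : ℕ) * h' - z * h), g, ?_⟩
  have h1 : u + s * z + -(s * z) = u := by ring
  rw [h1] at hg
  have h2 : (-(s * z)) ^ (κ + 1) = (-1) ^ (κ + 1) * s ^ (κ + 1) * z ^ (κ + 1) := by
    rw [neg_pow, mul_pow]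
    ring
  rw [hg, h2, hh']
  ring

section

open MvPolynomial

variable {ν R : Type} [CommRing R]

/-- The functional on powers of `u`, if it kills `(u + r z)^(E + 1)`. -/
theorem Fn_split (Φ : MvPolynomial ν R →ₗ[R] R) (u z : MvPolynomial ν R) (r : R) (E κ : ℕ)
    (h : ∀ y, Φ ((u + C r * z) ^ (E + 1) * y) = 0) (y : MvPolynomial ν R) :
    ∃ G : R, Φ (u ^ (E + 1 + κ) * y) =
      r ^ (κ + 1) * ((-1) ^ (κ + 1) * ((E + 1 + κ).choose E : ℕ) * Φ (u ^ E * z ^ (κ + 1) * y) +
        r * G) := by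
  obtain ⟨h', g, hg⟩ := pow_split u z (C r) E κ
  refine ⟨Φ (h' * y), ?_⟩
  have hC : ∀ (c : R) P, Φ (C c * P) = c * Φ P := by
    intro c P
    rw [← smul_eq_C_mul, map_smul, smul_eq_mul]
  have e1 : u ^ (E + 1 + κ) * y =
      C (r ^ (κ + 1) * ((-1) ^ (κ + 1) * ((E + 1 + κ).choose E : ℕ))) *
        (u ^ E * z ^ (κ + 1) * y) + C (r ^ (κ + 1) * r) * (h' * y) +
        (u + C r * z) ^ (E + 1) * (g * y) := by
    rw [hg]
    simp only [map_mul, map_pow, map_neg, map_one, map_natCast]
    ring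
  rw [e1, map_add, map_add, h, hC, hC]
  ring

end

section

open Polynomial

variable {ν : Type}

/-- The condition of the trace. -/
theorem Fn_dvd (Φ : MvPolynomial ν ℂ[X] →ₗ[ℂ[X]] ℂ[X]) (u z : MvPolynomial ν ℂ[X]) (a E κ : ℕ)
    (h : ∀ y, Φ ((u + MvPolynomial.C (X ^ a) * z) ^ (E + 1) * y) = 0) (y : MvPolynomial ν ℂ[X]) :
    X ^ (a * (κ + 1)) ∣ Φ (u ^ (E + 1 + κ) * y) := by
  obtain ⟨G, hG⟩ := Fn_split Φ u z (X ^ a) E κ h y
  rw [hG, pow_mul]
  exact dvd_mul_right _ _

theorem cancel_eval (a κ dl : ℕ) (ha : 1 ≤ a) (hκ : κ + 1 ≤ dl) (c : ℂ) (hc : c ≠ 0) (P G q : ℂ[X])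
    (h : (X ^ a) ^ (κ + 1) * (C c * P + X ^ a * G) = X ^ (a * (dl + 1)) * q) : P.eval 0 = 0 := by
  have e1 : (X : ℂ[X]) ^ (a * (dl + 1)) = (X ^ a) ^ (κ + 1) * (X ^ a) ^ (dl - κ) := by
    rw [pow_mul, ← pow_add]
    congr 1
    omega
  rw [e1, mul_assoc] at h
  have h1 : ((X ^ a : ℂ[X]) ^ (κ + 1)) ≠ 0 := pow_ne_zero _ (pow_ne_zero _ X_ne_zero)
  have h3 := congrArg (Polynomial.eval 0) (mul_left_cancel₀ h1 h)
  have h4 : (0 : ℂ) ^ a = 0 := zero_pow (by omega)
  have h5 : (0 : ℂ) ^ (dl - κ) = 0 := zero_pow (by omega)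
  rw [eval_add, eval_mul, eval_C, eval_mul, eval_pow, eval_X, h4, zero_mul, add_zero, eval_mul,
    eval_pow, eval_pow, eval_X, h4, h5, zero_mul] at h3
  exact (mul_eq_zero.1 h3).resolve_left hc

/-- The additional conditions of the residual. -/
theorem Fn_resid (Φ : MvPolynomial ν ℂ[X] →ₗ[ℂ[X]] ℂ[X]) (u z : MvPolynomial ν ℂ[X]) (a E κ dl : ℕ)
    (ha : 1 ≤ a) (hκ : κ + 1 ≤ dl)
    (h : ∀ y, Φ ((u + MvPolynomial.C (X ^ a) * z) ^ (E + 1) * y) = 0) (y : MvPolynomial ν ℂ[X])
    (hd : X ^ (a * (dl + 1)) ∣ Φ (u ^ (E + 1 + κ) * y)) :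
    (Φ (u ^ E * z ^ (κ + 1) * y)).eval 0 = 0 := by
  obtain ⟨G, hG⟩ := Fn_split Φ u z (X ^ a) E κ h y
  obtain ⟨q, hq⟩ := hd
  have hc : ((-1 : ℂ) ^ (κ + 1) * ((E + 1 + κ).choose E : ℕ)) ≠ 0 :=
    mul_ne_zero (pow_ne_zero _ (neg_ne_zero.2 one_ne_zero))
      (Nat.cast_ne_zero.2 (Nat.choose_pos (by omega)).ne')
  refine cancel_eval a κ dl ha hκ _ hc _ G q ?_
  rw [← hq, hG]
  congr 2
  congr 1
  rw [C_mul, C_pow, C_neg, C_1, C_eq_natCast]

end

end Pool.Agent.GD

end

section

/-!
# Project XD: polynomial families of spaces of functions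
-/

set_option autoImplicit false

namespace Pool.Agent.XD

open Finset

/-- Independence at `0` implies independence at some `t ≠ 0`. -/
theorem indep_near {E ι : Type} [Fintype E] [Fintype ι] (F : ι → E → Polynomial ℂ)
    (h : LinearIndependent ℂ fun i e => Polynomial.eval 0 (F i e)) :
    ∃ t : ℂ, t ≠ 0 ∧ LinearIndependent ℂ fun i e => Polynomial.eval t (F i e) := by
  classical
  let Φ : (ι → ℂ) →ₗ[ℂ] (E → ℂ) :=
    { toFun := fun c => ∑ i, c i • fun e => Polynomial.eval 0 (F i e)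
      map_add' := fun c c' => by
        rw [← sum_add_distrib]
        exact sum_congr rfl fun i _ => by rw [Pi.add_apply, add_smul]
      map_smul' := fun a c => by
        rw [RingHom.id_apply, smul_sum]
        exact sum_congr rfl fun i _ => by rw [Pi.smul_apply, smul_eq_mul, mul_smul] }
  have hΦ : LinearMap.ker Φ = ⊥ := by
    rw [LinearMap.ker_eq_bot']
    intro c hc
    exact funext (Fintype.linearIndependent_iff.1 h c hc)
  obtain ⟨L, hL⟩ := LinearMap.exists_leftInverse_of_injective Φ hΦ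
  have hLe : ∀ (w : E → ℂ) (k : ι), L w k = ∑ e, L (Pi.single e 1) k * w e := by
    intro w k
    have h1 : w = ∑ e, w e • (Pi.single e 1 : E → ℂ) := by
      funext e
      rw [Finset.sum_apply, sum_eq_single e]
      · simp
      · intro e' _ he
        rw [Pi.smul_apply, Pi.single_eq_of_ne (Ne.symm he), smul_zero]
      · intro h2
        exact absurd (mem_univ e) h2
    conv_lhs => rw [h1]
    rw [map_sum, Finset.sum_apply]
    refine sum_congr rfl fun e _ => ?_
    rw [map_smul, Pi.smul_apply, smul_eq_mul, mul_comm]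
  let P : Matrix ι ι (Polynomial ℂ) := Matrix.of fun i k =>
    ∑ e, Polynomial.C (L (Pi.single e 1) k) * F i e
  have hP : ∀ (t : ℂ) (i k : ι), Polynomial.eval t (P i k) =
      L (fun e => Polynomial.eval t (F i e)) k := by
    intro t i k
    rw [hLe]
    simp only [P, Matrix.of_apply, Polynomial.eval_finset_sum, Polynomial.eval_mul,
      Polynomial.eval_C]
  have hdet : ∀ t : ℂ, Polynomial.eval t P.det =
      (Matrix.of fun i k => Polynomial.eval t (P i k)).det := by
    intro t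
    have := RingHom.map_det (Polynomial.evalRingHom t) P
    rw [Polynomial.coe_evalRingHom] at this
    rw [this]
    rfl
  have h0 : Polynomial.eval 0 P.det = 1 := by
    rw [hdet]
    have h1 : (Matrix.of fun i k => Polynomial.eval 0 (P i k)) = (1 : Matrix ι ι ℂ) := by
      ext i k
      rw [Matrix.of_apply, hP]
      have h2 : Φ (Pi.single i 1) = fun e => Polynomial.eval 0 (F i e) := by
        show ∑ j, (Pi.single i 1 : ι → ℂ) j • (fun e => Polynomial.eval 0 (F j e)) = _
        rw [sum_eq_single i]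
        · rw [Pi.single_eq_same, one_smul]
        · intro j _ hj
          rw [Pi.single_eq_of_ne hj, zero_smul]
        · intro h2
          exact absurd (mem_univ i) h2
      rw [← h2]
      have h3 : L (Φ (Pi.single i 1)) = Pi.single i 1 := DFunLike.congr_fun hL (Pi.single i 1)
      rw [h3, Matrix.one_apply]
      by_cases hik : i = k
      · subst hik
        simp
      · rw [if_neg hik, Pi.single_eq_of_ne (Ne.symm hik)]
    rw [h1, Matrix.det_one]
  have hne : Polynomial.X * P.det ≠ 0 := by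
    refine mul_ne_zero Polynomial.X_ne_zero ?_
    intro h1
    rw [h1, Polynomial.eval_zero] at h0
    exact zero_ne_one h0
  obtain ⟨t, ht⟩ : ∃ t : ℂ, Polynomial.eval t (Polynomial.X * P.det) ≠ 0 := by
    by_contra hcon
    push Not at hcon
    exact hne (Polynomial.funext fun t => by rw [hcon t, Polynomial.eval_zero])
  rw [Polynomial.eval_mul, Polynomial.eval_X] at ht
  refine ⟨t, left_ne_zero_of_mul ht, ?_⟩
  have ht' := right_ne_zero_of_mul ht
  rw [hdet] at ht'
  rw [Fintype.linearIndependent_iff]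
  intro c hc
  have h1 : Matrix.vecMul c (Matrix.of fun i k => Polynomial.eval t (P i k)) = 0 := by
    funext k
    have h2 := congrFun (congrArg L hc) k
    rw [map_sum, Finset.sum_apply, map_zero] at h2
    refine Eq.trans ?_ h2
    rw [Matrix.vecMul, dotProduct]
    refine sum_congr rfl fun i _ => ?_
    rw [Matrix.of_apply, hP, map_smul, Pi.smul_apply, smul_eq_mul]
  exact congrFun (Matrix.eq_zero_of_vecMul_eq_zero ht' h1)

/-- Limits of vectors in a family of spaces whose dimension does not exceed the one at `0`. -/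
theorem fam_lim {E ι : Type} [Fintype E] [Finite ι] (R : ι → E → Polynomial ℂ)
    (g : E → Polynomial ℂ)
    (h1 : ∀ t : ℂ, t ≠ 0 → (fun e => Polynomial.eval t (g e)) ∈
      Submodule.span ℂ (Set.range fun i e => Polynomial.eval t (R i e)))
    (h2 : ∀ t : ℂ, Module.finrank ℂ
        (Submodule.span ℂ (Set.range fun i e => Polynomial.eval t (R i e))) ≤
      Module.finrank ℂ (Submodule.span ℂ (Set.range fun i e => Polynomial.eval 0 (R i e)))) :
    (fun e => Polynomial.eval 0 (g e)) ∈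
      Submodule.span ℂ (Set.range fun i e => Polynomial.eval 0 (R i e)) := by
  classical
  by_contra hg
  obtain ⟨κ, a, ha, hspan, hli⟩ := exists_linearIndependent' ℂ
    (fun i (e : E) => Polynomial.eval 0 (R i e))
  have : Finite κ := Finite.of_injective a ha
  let _ : Fintype κ := Fintype.ofFinite κ
  rw [← hspan] at hg
  have h3 := hli.option hg
  let F : Option κ → E → Polynomial ℂ := fun o => Option.casesOn' o g fun x => R (a x)
  have h4 : (fun o : Option κ => Option.casesOn' o (fun e => Polynomial.eval 0 (g e))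
      ((fun i (e : E) => Polynomial.eval 0 (R i e)) ∘ a)) =
      fun o e => Polynomial.eval 0 (F o e) := by
    funext o
    cases o <;> rfl
  rw [h4] at h3
  obtain ⟨t, ht, hti⟩ := indep_near F h3
  -- the vectors lie in the space at `t`
  let S := Submodule.span ℂ (Set.range fun i (e : E) => Polynomial.eval t (R i e))
  have h5 : ∀ o, (fun e => Polynomial.eval t (F o e)) ∈ S := by
    intro o
    cases o with
    | none => exact h1 t ht
    | some x => exact Submodule.subset_span ⟨a x, rfl⟩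
  let v : Option κ → S := fun o => ⟨_, h5 o⟩
  have h6 : LinearIndependent ℂ v := by
    apply LinearIndependent.of_comp S.subtype
    exact hti
  have h7 := h6.fintype_card_le_finrank
  have h8 : Module.finrank ℂ (Submodule.span ℂ
      (Set.range fun i (e : E) => Polynomial.eval 0 (R i e))) = Fintype.card κ := by
    rw [← hspan]
    exact finrank_span_eq_card hli
  have h9 : Module.finrank ℂ S ≤ _ := h2 t
  rw [h8] at h9
  rw [Fintype.card_option] at h7
  omega

end Pool.Agent.XD

end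

section

/-!
# XD: the transport argument

`δ m i ≥ 0` is the defect in `m` variables for the first `i` points, `ad m i = a_d(m; i)`,
`be m i = a_{d-1}(m; i)`, `al m i = a_{d-e}(m; i)` for the exponent `e` of the point `i`,
`w i = s_{d-e}(n) ≥ al m i`.  `G m i`: all lower degrees are off the layer.
-/

set_option autoImplicit false

namespace Pool.Agent.XD

open Finset

/-- Constants: `ρ` is the smaller one of `1` and `η / (4 C)`, `lam = ρ / (4 C)`, `ε = ρ / 4`. -/
private theorem Trans_core {C η ρ lam ε : ℝ} (hC : 1 ≤ C) (hρ : 0 < ρ) (hρ1 : ρ ≤ 1)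
    (hlam : 0 < lam) (hlamC : lam * C ≤ ρ / 4) (hε : ε ≤ ρ / 4) (d n : ℕ)
    (hn : 1 ≤ n) (N : ℕ) (w : ℕ → ℝ) (ad al be δ : ℕ → ℕ → ℝ) (G : ℕ → ℕ → Prop)
    (hw : ∀ i < N, 0 ≤ w i) (hW : ∑ i ∈ range N, w i ≤ C * (n : ℝ) ^ d)
    (h0 : ∀ m, G m 0 → δ m 0 ≤ 0)
    (hδ : ∀ m i, G m i → δ m i ≤ C * (n : ℝ) ^ d)
    (hstep : ∀ m i, i < N → G m (i + 1) → η / 2 * (n : ℝ) ^ d ≤ ad m (i + 1) →
      G m i ∧ ∃ m', m = m' + 1 ∧ G m' i ∧
        ad m (i + 1) = ad m i - al m i ∧ ad m' i = ad m i - be m i ∧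
        0 ≤ al m i ∧ al m i ≤ w i ∧ 0 < be m i ∧ be m i * n ≤ C * (n : ℝ) ^ d ∧
        2 * al m i ≤ be m i ∧
        ∃ k k₁ : ℝ, δ m (i + 1) = δ m i + k ∧ δ m' i = δ m i + k₁ ∧
          (1 - ε) * be m i * k ≤ al m i * k₁) :
    ∀ i, i ≤ N → ∀ m, G m i →
      δ m i ≤ C * (n : ℝ) ^ d * Real.exp (lam * (η / 2 + C * ρ) * n) *
        Real.exp (-(lam * n / (n : ℝ) ^ d * (ad m i + ρ * ∑ l ∈ Ico i N, w l))) := by
  have hn0 : (0 : ℝ) < n := by exact_mod_cast hn
  have hnd : (0 : ℝ) < (n : ℝ) ^ d := pow_pos hn0 d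
  have hC0 : (0 : ℝ) < C := by linarith only [hC]
  obtain ⟨X, hX⟩ : ∃ X : ℝ, X = lam * n / (n : ℝ) ^ d := ⟨_, rfl⟩
  have hX0 : 0 < X := by rw [hX]; positivity
  have hXn : X * (n : ℝ) ^ d = lam * n := by rw [hX]; field_simp
  rw [← hX]
  obtain ⟨Q, hQ⟩ : ∃ Q : ℝ, Q = C * (n : ℝ) ^ d * Real.exp (lam * (η / 2 + C * ρ) * n) := ⟨_, rfl⟩
  have hQ0 : 0 < Q := by rw [hQ]; positivity
  rw [← hQ]
  have hWi : ∀ i, ∑ l ∈ Ico i N, w l ≤ C * (n : ℝ) ^ d := by
    intro i
    refine le_trans (sum_le_sum_of_subset_of_nonneg ?_ ?_) hW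
    · intro l hl
      rw [mem_Ico] at hl
      rw [mem_range]
      exact hl.2
    · intro l hl _
      exact hw l (mem_range.1 hl)
  intro i
  induction i with
  | zero =>
    intro _ m hm
    exact le_trans (h0 m hm) (by positivity)
  | succ i ih =>
    intro hi m hm
    rcases lt_or_ge (ad m (i + 1)) (η / 2 * (n : ℝ) ^ d) with hlt | hge
    · refine le_trans (hδ m (i + 1) hm) ?_
      rw [hQ, mul_assoc, ← Real.exp_add]
      have h1 : X * (ad m (i + 1) + ρ * ∑ l ∈ Ico (i + 1) N, w l) ≤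
          lam * (η / 2 + C * ρ) * n := by
        calc X * (ad m (i + 1) + ρ * ∑ l ∈ Ico (i + 1) N, w l)
            ≤ X * (η / 2 * (n : ℝ) ^ d + ρ * (C * (n : ℝ) ^ d)) := by
              refine mul_le_mul_of_nonneg_left ?_ hX0.le
              have := mul_le_mul_of_nonneg_left (hWi (i + 1)) hρ.le
              linarith only [hlt, this]
          _ = (X * (n : ℝ) ^ d) * (η / 2 + C * ρ) := by ring
          _ = lam * (η / 2 + C * ρ) * n := by rw [hXn]; ring
      have h2 : (1 : ℝ) ≤ Real.exp (lam * (η / 2 + C * ρ) * n +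
          -(X * (ad m (i + 1) + ρ * ∑ l ∈ Ico (i + 1) N, w l))) := by
        rw [← Real.exp_zero]
        exact Real.exp_le_exp.2 (by linarith only [h1])
      exact le_mul_of_one_le_right (by positivity) h2
    · obtain ⟨hG, m', rfl, hG', hadd, hadm, hal0, halw, hbe, hbeC, h2al, k, k₁, hk, hk₁, hkk⟩ :=
        hstep m i (by omega) hm hge
      have e1 := ih (by omega) (m' + 1) hG
      have e2 := ih (by omega) m' hG'
      obtain ⟨P, hP⟩ : ∃ P : ℝ, P = Q * Real.exp (-(X * (ad (m' + 1) i + ρ * ∑ l ∈ Ico i N, w l))) :=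
        ⟨_, rfl⟩
      have hP0 : 0 < P := by rw [hP]; positivity
      have hsum : ∑ l ∈ Ico i N, w l = w i + ∑ l ∈ Ico (i + 1) N, w l := by
        rw [← Finset.sum_eq_sum_Ico_succ_bot (by omega : i < N)]
      have eP1 : Q * Real.exp (-(X * (ad (m' + 1) (i + 1) + ρ * ∑ l ∈ Ico (i + 1) N, w l))) =
          P * Real.exp (X * (al (m' + 1) i + ρ * w i)) := by
        rw [hP, mul_assoc, ← Real.exp_add, hadd, hsum]
        congr 2
        ring
      have eP2 : Q * Real.exp (-(X * (ad m' i + ρ * ∑ l ∈ Ico i N, w l))) =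
          P * Real.exp (X * be (m' + 1) i) := by
        rw [hP, mul_assoc, ← Real.exp_add, hadm]
        congr 2
        ring
      rw [eP1]
      rw [← hP] at e1
      rw [eP2] at e2
      have hε1 : 0 < 1 - ε := by linarith only [hρ1, hε]
      -- the weight `τ`
      obtain ⟨τ, hτ⟩ : ∃ τ : ℝ, τ = al (m' + 1) i / ((1 - ε) * be (m' + 1) i) := ⟨_, rfl⟩
      have hb1 : 0 < (1 - ε) * be (m' + 1) i := mul_pos hε1 hbe
      have hτ0 : 0 ≤ τ := by rw [hτ]; exact div_nonneg hal0 hb1.le
      have hτ1 : τ ≤ 1 := by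
        rw [hτ, div_le_one hb1]
        nlinarith only [h2al, hb1, hρ1, hbe, hε]
      have hkτ : k ≤ τ * k₁ := by
        rw [hτ, div_mul_eq_mul_div, le_div_iff₀ hb1]
        linarith only [hkk]
      have hy0 : 0 ≤ X * be (m' + 1) i := mul_nonneg hX0.le hbe.le
      have hyC : X * be (m' + 1) i ≤ lam * C := by
        have h1 : X * be (m' + 1) i * n ≤ lam * C * n := by
          calc X * be (m' + 1) i * n = X * (be (m' + 1) i * n) := by ring
            _ ≤ X * (C * (n : ℝ) ^ d) := mul_le_mul_of_nonneg_left hbeC hX0.le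
            _ = (X * (n : ℝ) ^ d) * C := by ring
            _ = lam * C * n := by rw [hXn]; ring
        exact le_of_mul_le_mul_right h1 hn0
      have hexp : Real.exp (X * be (m' + 1) i) ≤
          1 + X * be (m' + 1) i * (1 + lam * C) := by
        have h1 : |X * be (m' + 1) i| ≤ 1 := by
          rw [abs_of_nonneg hy0]
          linarith only [hρ1, hlamC, hyC]
        have h2 := (abs_le.1 (Real.abs_exp_sub_one_sub_id_le h1)).2
        nlinarith only [h2, hy0, hyC]
      have hτy : τ * (X * be (m' + 1) i) = X * al (m' + 1) i / (1 - ε) := by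
        rw [hτ]
        field_simp
      have hfrac : X * al (m' + 1) i / (1 - ε) * (1 + lam * C) ≤ X * al (m' + 1) i * (1 + ρ) := by
        rw [div_mul_eq_mul_div, div_le_iff₀ hε1, mul_assoc (X * al (m' + 1) i) (1 + ρ)]
        refine mul_le_mul_of_nonneg_left ?_ (mul_nonneg hX0.le hal0)
        nlinarith only [hlam, hlamC, hε, hC, hρ, hρ1]
      have hlow := Real.add_one_le_exp (X * (al (m' + 1) i + ρ * w i))
      have hXw : X * al (m' + 1) i * ρ ≤ X * (ρ * w i) := by
        have := mul_le_mul_of_nonneg_left halw (mul_nonneg hX0.le hρ.le)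
        nlinarith only [this]
      have hmain : (1 - τ) + τ * Real.exp (X * be (m' + 1) i) ≤
          Real.exp (X * (al (m' + 1) i + ρ * w i)) := by
        have h1 : τ * Real.exp (X * be (m' + 1) i) ≤
            τ * (1 + X * be (m' + 1) i * (1 + lam * C)) := mul_le_mul_of_nonneg_left hexp hτ0
        have h2 : τ * (1 + X * be (m' + 1) i * (1 + lam * C)) =
            τ + X * al (m' + 1) i / (1 - ε) * (1 + lam * C) := by
          rw [← hτy]
          ring
        nlinarith only [hfrac, hlow, hXw, h1, h2]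
      calc δ (m' + 1) (i + 1) = δ (m' + 1) i + k := hk
        _ ≤ δ (m' + 1) i + τ * k₁ := by linarith only [hkτ]
        _ = (1 - τ) * δ (m' + 1) i + τ * δ m' i := by rw [hk₁]; ring
        _ ≤ (1 - τ) * P + τ * (P * Real.exp (X * be (m' + 1) i)) := by
          refine add_le_add (mul_le_mul_of_nonneg_left e1 (by linarith only [hτ1]))
            (mul_le_mul_of_nonneg_left e2 hτ0)
        _ = P * ((1 - τ) + τ * Real.exp (X * be (m' + 1) i)) := by ring
        _ ≤ P * Real.exp (X * (al (m' + 1) i + ρ * w i)) := mul_le_mul_of_nonneg_left hmain hP0.le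

/-- The transport argument: the defect vanishes off the layer. -/
theorem trans (d : ℕ) (C η : ℝ) (hC : 1 ≤ C) (hη : 0 < η) :
    ∃ ε : ℝ, 0 < ε ∧ ε ≤ 1 / 4 ∧ ∃ n₀ : ℕ, ∀ n : ℕ, n₀ ≤ n →
    ∀ (N : ℕ) (w : ℕ → ℝ) (ad al be δ : ℕ → ℕ → ℝ) (G : ℕ → ℕ → Prop),
    (∀ i < N, 0 ≤ w i) → (∑ i ∈ range N, w i ≤ C * (n : ℝ) ^ d) →
    (∀ m, G m 0 → δ m 0 ≤ 0) →
    (∀ m i, G m i → δ m i ≤ C * (n : ℝ) ^ d) →
    (∀ m i, i < N → G m (i + 1) → η / 2 * (n : ℝ) ^ d ≤ ad m (i + 1) →
      G m i ∧ ∃ m', m = m' + 1 ∧ G m' i ∧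
        ad m (i + 1) = ad m i - al m i ∧ ad m' i = ad m i - be m i ∧
        0 ≤ al m i ∧ al m i ≤ w i ∧ 0 < be m i ∧ be m i * n ≤ C * (n : ℝ) ^ d ∧
        2 * al m i ≤ be m i ∧
        ∃ k k₁ : ℝ, δ m (i + 1) = δ m i + k ∧ δ m' i = δ m i + k₁ ∧
          (1 - ε) * be m i * k ≤ al m i * k₁) →
    ∀ m, G m N → η * (n : ℝ) ^ d ≤ ad m N → δ m N < 1 := by
  have hC0 : (0 : ℝ) < C := by linarith
  obtain ⟨ρ, hρdef⟩ : ∃ ρ : ℝ, ρ = min 1 (η / (4 * C)) := ⟨_, rfl⟩
  have hρ : 0 < ρ := by rw [hρdef]; exact lt_min one_pos (by positivity)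
  have hρ1 : ρ ≤ 1 := by rw [hρdef]; exact min_le_left _ _
  have hρη : C * ρ ≤ η / 4 := by
    have h1 : ρ ≤ η / (4 * C) := by rw [hρdef]; exact min_le_right _ _
    calc C * ρ ≤ C * (η / (4 * C)) := mul_le_mul_of_nonneg_left h1 hC0.le
      _ = η / 4 := by field_simp
  obtain ⟨lam, hlamdef⟩ : ∃ lam : ℝ, lam = ρ / (4 * C) := ⟨_, rfl⟩
  have hlam : 0 < lam := by rw [hlamdef]; positivity
  have hlamC : lam * C ≤ ρ / 4 := by
    rw [hlamdef]
    exact le_of_eq (by field_simp)
  obtain ⟨c, hc⟩ : ∃ c : ℝ, c = lam * (η / 4) := ⟨_, rfl⟩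
  have hc0 : 0 < c := by rw [hc]; positivity
  obtain ⟨n₁, hn₁⟩ := exists_nat_gt (C * ((d + 1).factorial : ℝ) / c ^ (d + 1))
  refine ⟨ρ / 4, by positivity, by linarith only [hρ1], n₁ + 1, fun n hn N w ad al be δ G hw hW h0 hδ hstep m hm
    hadm => ?_⟩
  have hn0 : (0 : ℝ) < n := by
    have : 0 < n := by omega
    exact_mod_cast this
  have hnd : (0 : ℝ) < (n : ℝ) ^ d := pow_pos hn0 d
  have h1 := Trans_core hC hρ hρ1 hlam hlamC le_rfl d n (by omega) N w ad al be δ G hw hW h0 hδ
    hstep N le_rfl m hm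
  rw [Ico_self, sum_empty, mul_zero, add_zero, mul_assoc, ← Real.exp_add] at h1
  refine lt_of_le_of_lt h1 ?_
  have h2 : lam * n / (n : ℝ) ^ d * ad m N ≥ lam * n * η := by
    calc lam * n * η = lam * n / (n : ℝ) ^ d * (η * (n : ℝ) ^ d) := by field_simp
      _ ≤ lam * n / (n : ℝ) ^ d * ad m N :=
        mul_le_mul_of_nonneg_left hadm (by positivity)
  have h3 : lam * (η / 2 + C * ρ) * n + -(lam * n / (n : ℝ) ^ d * ad m N) ≤ -(c * n) := by
    have h4 : lam * (η / 2 + C * ρ) * n ≤ lam * (η / 2 + η / 4) * n := by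
      refine mul_le_mul_of_nonneg_right (mul_le_mul_of_nonneg_left (by linarith only [hρη]) hlam.le) hn0.le
    rw [hc]
    nlinarith only [h2, h4]
  have h5 : Real.exp (lam * (η / 2 + C * ρ) * n + -(lam * n / (n : ℝ) ^ d * ad m N)) ≤
      Real.exp (-(c * n)) := Real.exp_le_exp.2 h3
  have h6 : C * (n : ℝ) ^ d < Real.exp (c * n) := by
    have h7 := Real.pow_div_factorial_le_exp (c * n) (by positivity) (d + 1)
    refine lt_of_lt_of_le ?_ h7
    have h8 : C * ((d + 1).factorial : ℝ) / c ^ (d + 1) < n := by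
      refine hn₁.trans ?_
      have : n₁ < n := by omega
      exact_mod_cast this
    rw [div_lt_iff₀ (by positivity)] at h8
    rw [lt_div_iff₀ (by positivity), mul_pow]
    calc C * (n : ℝ) ^ d * ((d + 1).factorial : ℝ) = C * ((d + 1).factorial : ℝ) * (n : ℝ) ^ d := by
          ring
      _ < n * c ^ (d + 1) * (n : ℝ) ^ d := mul_lt_mul_of_pos_right h8 hnd
      _ = c ^ (d + 1) * (n : ℝ) ^ (d + 1) := by ring
  calc C * (n : ℝ) ^ d * Real.exp (lam * (η / 2 + C * ρ) * n + -(lam * n / (n : ℝ) ^ d * ad m N))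
      ≤ C * (n : ℝ) ^ d * Real.exp (-(c * n)) := mul_le_mul_of_nonneg_left h5 (by positivity)
    _ < Real.exp (c * n) * Real.exp (-(c * n)) := mul_lt_mul_of_pos_right h6 (Real.exp_pos _)
    _ = 1 := by rw [← Real.exp_add]; simp

end Pool.Agent.XD

end

section

/-!
# XE, module F: few monomials have few common multiples

`small j ψ`: induction on `j`.  `j = 1`: `T → R × R`.  `j + 1`: `θ = ψ / (2 (j + 1))`, call `v'` (degree
`j`) rich if `v' x ∈ R` for at least `θ m` of the `x`; `R' = {rich}`, `|R'| θ m ≤ (j + 1) |R|`;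
`T' = {v : all divisors of degree j are rich}`, `|T'| ≤ ψ' m |R'|` by induction (`ψ' (j + 1) / θ = ψ / 2`).
`w ∈ T`: if some `w.erase x |>.erase y` is poor, then `w = x ::ₘ v`, `v = w.erase x ∈ R`, `v' = v.erase y` poor and
`x ::ₘ v' ∈ R`: at most `|R| (j + 1) θ m` such `w`; otherwise `w.erase x ∈ T'` for every `x`: at most `m |T'|`.
See note 4139 (1).
-/

set_option autoImplicit false

namespace Pool.Agent.XE

open Finset

/-- The variables which lead from `v'` into `R`. -/
private def ext (m : ℕ) (R : Finset (Multiset ℕ)) (v' : Multiset ℕ) : Finset ℕ :=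
  (range m).filter fun x => x ::ₘ v' ∈ R

/-- The divisors of degree one less. -/
private def divs (v : Multiset ℕ) : Finset (Multiset ℕ) := v.toFinset.image v.erase

private lemma card_divs (v : Multiset ℕ) : (divs v).card ≤ Multiset.card v :=
  card_image_le.trans (Multiset.toFinset_card_le v)

private lemma mem_divs {v v' : Multiset ℕ} : v' ∈ divs v ↔ ∃ x ∈ v, v.erase x = v' := by
  simp [divs]

/-- Rich divisors. -/
private noncomputable def rich (m : ℕ) (R : Finset (Multiset ℕ)) (t : ℝ) : Finset (Multiset ℕ) :=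
  (R.biUnion divs).filter fun v' => t ≤ ((ext m R v').card : ℝ)

private lemma rich_card (m j : ℕ) (R : Finset (Multiset ℕ)) (t : ℝ)
    (hR : ∀ v ∈ R, Multiset.card v = j) :
    ((rich m R t).card : ℝ) * t ≤ j * R.card := by
  classical
  have h1 : ((rich m R t).card : ℝ) * t ≤ ∑ v' ∈ rich m R t, ((ext m R v').card : ℝ) := by
    rw [← nsmul_eq_mul]
    apply card_nsmul_le_sum
    intro v' hv'
    exact (mem_filter.1 hv').2
  have h2 : ∑ v' ∈ rich m R t, (ext m R v').card ≤ ∑ v ∈ R, (divs v).card := by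
    rw [← card_sigma, ← card_sigma]
    apply card_le_card_of_injOn (fun p : (Σ _ : Multiset ℕ, ℕ) =>
      (⟨p.2 ::ₘ p.1, p.1⟩ : (Σ _ : Multiset ℕ, Multiset ℕ)))
    · rintro ⟨v', x⟩ hp
      have hp := mem_sigma.1 (mem_coe.1 hp)
      simp only at hp
      apply mem_coe.2
      rw [mem_sigma]
      refine ⟨(mem_filter.1 hp.2).2, mem_divs.2 ⟨x, Multiset.mem_cons_self x v', ?_⟩⟩
      simp
    · rintro ⟨v', x⟩ _ ⟨u', y⟩ _ h
      simp only [Sigma.mk.injEq, heq_eq_eq] at h
      obtain ⟨h1, rfl⟩ := h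
      rw [Multiset.cons_inj_left] at h1
      rw [h1]
  have h3 : ∑ v ∈ R, (divs v).card ≤ R.card * j := by
    rw [← smul_eq_mul]
    apply sum_le_card_nsmul
    intro v hv
    rw [← hR v hv]
    exact card_divs v
  calc ((rich m R t).card : ℝ) * t ≤ ((∑ v' ∈ rich m R t, (ext m R v').card : ℕ) : ℝ) := by
        push_cast
        exact h1
    _ ≤ ((R.card * j : ℕ) : ℝ) := by exact_mod_cast h2.trans h3
    _ = j * R.card := by push_cast; ring

theorem small (j : ℕ) (hj : 1 ≤ j) (ψ : ℝ) (hψ : 0 < ψ) : ∃ τ : ℝ, 0 < τ ∧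
    ∀ (m : ℕ) (R T : Finset (Multiset ℕ)),
      (∀ v ∈ R, Multiset.card v = j ∧ ∀ x ∈ v, x < m) →
      (∀ w ∈ T, Multiset.card w = j + 1 ∧ (∀ x ∈ w, x < m) ∧ ∀ x ∈ w, w.erase x ∈ R) →
      (R.card : ℝ) ≤ τ * (m : ℝ) ^ j → (T.card : ℝ) ≤ ψ * m * (R.card : ℝ) := by
  classical
  induction j, hj using Nat.le_induction generalizing ψ with
  | base =>
    refine ⟨ψ, hψ, fun m R T hR hT hc => ?_⟩
    have h1 : T ⊆ (R ×ˢ R).image fun p => p.1 + p.2 := by
      intro w hw
      obtain ⟨hw1, -, hw2⟩ := hT w hw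
      obtain ⟨x, y, rfl⟩ := Multiset.card_eq_two.1 hw1
      refine mem_image.2 ⟨({x}, {y}), mem_product.2 ⟨?_, ?_⟩, ?_⟩
      · have := hw2 y (by simp)
        rwa [show ({x, y} : Multiset ℕ) = y ::ₘ {x} from Multiset.pair_comm x y,
          Multiset.erase_cons_head] at this
      · have := hw2 x (by simp)
        rwa [show ({x, y} : Multiset ℕ) = x ::ₘ {y} from rfl, Multiset.erase_cons_head] at this
      · rfl
    have h2 : T.card ≤ R.card * R.card := by
      refine (card_le_card h1).trans (card_image_le.trans ?_)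
      rw [card_product]
    calc (T.card : ℝ) ≤ R.card * R.card := by exact_mod_cast h2
      _ ≤ (ψ * (m : ℝ) ^ 1) * R.card := mul_le_mul_of_nonneg_right hc (Nat.cast_nonneg _)
      _ = ψ * m * R.card := by rw [pow_one]
  | succ j hj ih =>
    obtain ⟨θ, hθ⟩ : ∃ θ : ℝ, θ = ψ / (2 * ((j : ℝ) + 1)) := ⟨_, rfl⟩
    have hj1 : (0 : ℝ) < (j : ℝ) + 1 := by positivity
    have hθ0 : 0 < θ := by rw [hθ]; positivity
    obtain ⟨ψ', hψ'⟩ : ∃ ψ' : ℝ, ψ' = ψ * θ / (2 * ((j : ℝ) + 1)) := ⟨_, rfl⟩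
    have hψ0 : 0 < ψ' := by rw [hψ']; positivity
    obtain ⟨τ', hτ', h⟩ := ih ψ' hψ0
    refine ⟨τ' * θ / ((j : ℝ) + 1), by positivity, fun m R T hR hT hc => ?_⟩
    rcases Nat.eq_zero_or_pos m with rfl | hm
    · -- no monomials of positive degree
      have : T = ∅ := by
        rw [eq_empty_iff_forall_notMem]
        intro w hw
        obtain ⟨hw1, hw2, -⟩ := hT w hw
        obtain ⟨x, hx⟩ := Multiset.card_pos_iff_exists_mem.1 (by omega : 0 < Multiset.card w)
        exact absurd (hw2 x hx) (Nat.not_lt_zero x)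
      rw [this]
      simp
    have hm0 : (0 : ℝ) < m := by exact_mod_cast hm
    -- the rich divisors
    obtain ⟨R', hR'⟩ : ∃ R', R' = rich m R (θ * m) := ⟨_, rfl⟩
    have hR'card : (R'.card : ℝ) * (θ * m) ≤ ((j : ℝ) + 1) * R.card := by
      rw [hR']
      have := rich_card m (j + 1) R (θ * m) fun v hv => (hR v hv).1
      push_cast at this
      exact this
    obtain ⟨T', hT'⟩ : ∃ T', T' = (T.biUnion divs).filter fun v => ∀ y ∈ v, v.erase y ∈ R' :=
      ⟨_, rfl⟩
    have hT'card : (T'.card : ℝ) ≤ ψ' * m * R'.card := by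
      apply h m R' T'
      · intro v' hv'
        rw [hR'] at hv'
        obtain ⟨hv1, -⟩ := mem_filter.1 hv'
        obtain ⟨v, hv, hd⟩ := mem_biUnion.1 hv1
        obtain ⟨x, hx, rfl⟩ := mem_divs.1 hd
        obtain ⟨h1, h2⟩ := hR v hv
        refine ⟨?_, fun y hy => h2 y (Multiset.mem_of_mem_erase hy)⟩
        rw [Multiset.card_erase_of_mem hx, h1]
        rfl
      · intro v hv
        rw [hT'] at hv
        obtain ⟨hv1, hv2⟩ := mem_filter.1 hv
        obtain ⟨w, hw, hd⟩ := mem_biUnion.1 hv1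
        obtain ⟨x, hx, rfl⟩ := mem_divs.1 hd
        obtain ⟨h1, h2, -⟩ := hT w hw
        refine ⟨?_, fun y hy => h2 y (Multiset.mem_of_mem_erase hy), hv2⟩
        rw [Multiset.card_erase_of_mem hx, h1]
        rfl
      · have h1 : (R'.card : ℝ) * (θ * m) ≤ τ' * θ * (m : ℝ) ^ (j + 1) := by
          calc (R'.card : ℝ) * (θ * m) ≤ ((j : ℝ) + 1) * R.card := hR'card
            _ ≤ ((j : ℝ) + 1) * (τ' * θ / ((j : ℝ) + 1) * (m : ℝ) ^ (j + 1)) :=
              mul_le_mul_of_nonneg_left hc hj1.le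
            _ = τ' * θ * (m : ℝ) ^ (j + 1) := by field_simp
        have h2 : τ' * θ * (m : ℝ) ^ (j + 1) = τ' * (m : ℝ) ^ j * (θ * m) := by ring
        rw [h2] at h1
        exact le_of_mul_le_mul_right h1 (by positivity)
    -- poor words
    obtain ⟨T1, hT1⟩ : ∃ T1 : Finset (Multiset ℕ), T1 = R.biUnion fun v =>
      ((divs v).filter fun v' => v' ∉ R').biUnion fun v' => (ext m R v').image fun x => x ::ₘ v :=
      ⟨_, rfl⟩
    have hT1card : (T1.card : ℝ) ≤ R.card * (((j : ℝ) + 1) * (θ * m)) := by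
      rw [hT1]
      refine le_trans (Nat.cast_le.2 card_biUnion_le) ?_
      push_cast
      rw [← nsmul_eq_mul]
      apply sum_le_card_nsmul
      intro v hv
      refine le_trans (Nat.cast_le.2 card_biUnion_le) ?_
      push_cast
      refine le_trans (sum_le_card_nsmul _ _ (θ * m) ?_) ?_
      · intro v' hv'
        obtain ⟨hd, hp⟩ := mem_filter.1 hv'
        have h1 : ((ext m R v').card : ℝ) < θ * m := by
          by_contra hcon
          push Not at hcon
          apply hp
          rw [hR']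
          exact mem_filter.2 ⟨mem_biUnion.2 ⟨v, hv, hd⟩, hcon⟩
        refine le_trans (Nat.cast_le.2 card_image_le) h1.le
      · rw [nsmul_eq_mul]
        apply mul_le_mul_of_nonneg_right _ (by positivity)
        have h1 : ((divs v).filter fun v' => v' ∉ R').card ≤ j + 1 := by
          refine (card_filter_le _ _).trans ((card_divs v).trans ?_)
          rw [(hR v hv).1]
        exact_mod_cast h1
    -- rich words
    obtain ⟨T2, hT2⟩ : ∃ T2 : Finset (Multiset ℕ), T2 =
      (range m ×ˢ T').image fun p => p.1 ::ₘ p.2 := ⟨_, rfl⟩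
    have hT2card : (T2.card : ℝ) ≤ m * T'.card := by
      have : T2.card ≤ m * T'.card := by
        rw [hT2]
        refine card_image_le.trans ?_
        rw [card_product, card_range]
      exact_mod_cast this
    have hcover : T ⊆ T1 ∪ T2 := by
      intro w hw
      obtain ⟨hw1, hw2, hw3⟩ := hT w hw
      by_cases hp : ∃ x ∈ w, ∃ y ∈ w.erase x, (w.erase x).erase y ∉ R'
      · apply mem_union_left
        obtain ⟨x, hx, y, hy, hxy⟩ := hp
        rw [hT1, mem_biUnion]
        refine ⟨w.erase x, hw3 x hx, mem_biUnion.2 ⟨(w.erase x).erase y,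
          mem_filter.2 ⟨mem_divs.2 ⟨y, hy, rfl⟩, hxy⟩, mem_image.2 ⟨x, ?_, Multiset.cons_erase hx⟩⟩⟩
        refine mem_filter.2 ⟨mem_range.2 (hw2 x hx), ?_⟩
        have h1 : x ::ₘ (w.erase x).erase y = w.erase y := by
          have h2 : w = x ::ₘ y ::ₘ (w.erase x).erase y := by
            rw [Multiset.cons_erase hy, Multiset.cons_erase hx]
          conv_rhs => rw [h2, Multiset.cons_swap, Multiset.erase_cons_head]
        rw [h1]
        exact hw3 y (Multiset.mem_of_mem_erase hy)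
      · apply mem_union_right
        push Not at hp
        obtain ⟨x, hx⟩ := Multiset.card_pos_iff_exists_mem.1 (by omega : 0 < Multiset.card w)
        rw [hT2, mem_image]
        refine ⟨(x, w.erase x), mem_product.2 ⟨mem_range.2 (hw2 x hx), ?_⟩, Multiset.cons_erase hx⟩
        rw [hT']
        refine mem_filter.2 ⟨mem_biUnion.2 ⟨w, hw, mem_divs.2 ⟨x, hx, rfl⟩⟩, ?_⟩
        intro y hy
        exact hp x hx y hy
    have hTle : (T.card : ℝ) ≤ T1.card + T2.card := by
      exact_mod_cast (card_le_card hcover).trans (card_union_le _ _)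
    have hT'2 : (T'.card : ℝ) ≤ ψ / 2 * R.card := by
      calc (T'.card : ℝ) ≤ ψ' * m * R'.card := hT'card
        _ = ψ / (2 * ((j : ℝ) + 1)) * (R'.card * (θ * m)) := by rw [hψ']; ring
        _ ≤ ψ / (2 * ((j : ℝ) + 1)) * (((j : ℝ) + 1) * R.card) :=
          mul_le_mul_of_nonneg_left hR'card (by positivity)
        _ = ψ / 2 * R.card := by field_simp
    have hT1' : (R.card : ℝ) * (((j : ℝ) + 1) * (θ * m)) = ψ / 2 * m * R.card := by
      rw [hθ]
      field_simp
    have hT2' : (m : ℝ) * T'.card ≤ m * (ψ / 2 * R.card) :=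
      mul_le_mul_of_nonneg_left hT'2 hm0.le
    calc (T.card : ℝ) ≤ T1.card + T2.card := hTle
      _ ≤ ψ / 2 * m * R.card + m * (ψ / 2 * R.card) := by
        rw [← hT1']
        linarith
      _ = ψ * m * R.card := by ring

end Pool.Agent.XE

end

section

/-!
# XE2: few monomials have few common multiples, with the exponent of Kruskal and Katona

`R` monomials of degree `j`, `T` monomials of degree `j + 1` with all divisors of degree `j` in `R`:
`|T|^j ≤ C |R|^(j+1)`.  Induction: for a variable `y` let `R_y = {v | y v ∈ R}`, `T_y = {w | y w ∈ T}`.  Then `T_y` embeds into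
`R`, and `|T_y|^j ≤ C |R_y|^(j+1)`, so `|T_y|^(j+1) ≤ C |R| |R_y|^(j+1)`, `|T_y| ≤ ρ |R_y|` with `ρ^(j+1) = C |R|`;
`|T| ≤ ∑ |T_y| ≤ ρ ∑ |R_y| ≤ ρ (j + 1) |R|`.
-/

set_option autoImplicit false

namespace Pool.Agent.XE2

open Finset

/-- The monomials `v` with `y v ∈ R`. -/
private def lk (R : Finset (Multiset ℕ)) (y : ℕ) : Finset (Multiset ℕ) :=
  (R.filter fun v => y ∈ v).image fun v => v.erase y

private theorem mem_lk {R : Finset (Multiset ℕ)} {y : ℕ} {v : Multiset ℕ} :
    v ∈ lk R y ↔ y ::ₘ v ∈ R := by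
  unfold lk
  rw [mem_image]
  constructor
  · rintro ⟨w, hw, rfl⟩
    rw [mem_filter] at hw
    rw [Multiset.cons_erase hw.2]
    exact hw.1
  · intro h
    exact ⟨y ::ₘ v, mem_filter.2 ⟨h, Multiset.mem_cons_self y v⟩, Multiset.erase_cons_head y v⟩

private theorem card_lk (R : Finset (Multiset ℕ)) (y : ℕ) :
    (lk R y).card = (R.filter fun v => y ∈ v).card := by
  unfold lk
  refine card_image_of_injOn ?_
  intro v hv w hw h
  rw [mem_coe, mem_filter] at hv hw
  have h' : v.erase y = w.erase y := h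
  rw [← Multiset.cons_erase hv.2, ← Multiset.cons_erase hw.2, h']

/-- The variables of the monomials of `T`. -/
private def vs (T : Finset (Multiset ℕ)) : Finset ℕ := T.biUnion Multiset.toFinset

private theorem sum_ge {T : Finset (Multiset ℕ)} (h : ∀ w ∈ T, 1 ≤ Multiset.card w) :
    T.card ≤ ∑ y ∈ vs T, (T.filter fun v => y ∈ v).card := by
  have h1 : ∑ y ∈ vs T, (T.filter fun v => y ∈ v).card =
      ∑ v ∈ T, ((vs T).filter fun y => y ∈ v).card := by
    simp only [card_filter]
    exact sum_comm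
  rw [h1, card_eq_sum_ones]
  refine sum_le_sum fun v hv => ?_
  obtain ⟨x, hx⟩ := Multiset.card_pos_iff_exists_mem.1 (h v hv)
  rw [Nat.one_le_iff_ne_zero, ← Nat.pos_iff_ne_zero, card_pos]
  refine ⟨x, mem_filter.2 ⟨mem_biUnion.2 ⟨v, hv, Multiset.mem_toFinset.2 hx⟩, hx⟩⟩

private theorem sum_le {R : Finset (Multiset ℕ)} (Y : Finset ℕ) {j : ℕ}
    (h : ∀ v ∈ R, Multiset.card v = j) :
    ∑ y ∈ Y, (R.filter fun v => y ∈ v).card ≤ j * R.card := by
  have h1 : ∑ y ∈ Y, (R.filter fun v => y ∈ v).card =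
      ∑ v ∈ R, (Y.filter fun y => y ∈ v).card := by
    simp only [card_filter]
    exact sum_comm
  rw [h1, mul_comm, ← smul_eq_mul]
  refine sum_le_card_nsmul _ _ _ fun v hv => ?_
  have h2 : (Y.filter fun y => y ∈ v) ⊆ v.toFinset := fun y hy =>
    Multiset.mem_toFinset.2 (mem_filter.1 hy).2
  exact (card_le_card h2).trans ((Multiset.toFinset_card_le v).trans (h v hv).le)

theorem kkp (j : ℕ) (hj : 1 ≤ j) : ∃ C : ℝ, 0 < C ∧ ∀ R T : Finset (Multiset ℕ),
    (∀ v ∈ R, Multiset.card v = j) →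
    (∀ w ∈ T, Multiset.card w = j + 1 ∧ ∀ x ∈ w, w.erase x ∈ R) →
    (T.card : ℝ) ^ j ≤ C * (R.card : ℝ) ^ (j + 1) := by
  classical
  induction j, hj using Nat.le_induction with
  | base =>
    refine ⟨1, one_pos, fun R T hR hT => ?_⟩
    have h1 : T ⊆ (R ×ˢ R).image fun p => p.1 + p.2 := by
      intro w hw
      obtain ⟨hw1, hw2⟩ := hT w hw
      obtain ⟨x, y, rfl⟩ := Multiset.card_eq_two.1 hw1
      refine mem_image.2 ⟨({x}, {y}), mem_product.2 ⟨?_, ?_⟩, ?_⟩
      · have := hw2 y (by simp)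
        rwa [show ({x, y} : Multiset ℕ) = y ::ₘ {x} from Multiset.pair_comm x y,
          Multiset.erase_cons_head] at this
      · have := hw2 x (by simp)
        rwa [show ({x, y} : Multiset ℕ) = x ::ₘ {y} from rfl, Multiset.erase_cons_head] at this
      · rfl
    have h2 : T.card ≤ R.card * R.card := by
      refine (card_le_card h1).trans (card_image_le.trans ?_)
      rw [card_product]
    have h3 : (T.card : ℝ) ≤ R.card * R.card := by exact_mod_cast h2
    rw [pow_one, one_mul, pow_succ, pow_one]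
    exact h3
  | succ j hj ih =>
    obtain ⟨C, hC, h⟩ := ih
    refine ⟨C * ((j : ℝ) + 1) ^ (j + 1), by positivity, fun R T hR hT => ?_⟩
    obtain ⟨ρ, hρ⟩ : ∃ ρ : ℝ, ρ = (C * (R.card : ℝ)) ^ (((j + 1 : ℕ) : ℝ)⁻¹) := ⟨_, rfl⟩
    have hρ0 : 0 ≤ ρ := by
      rw [hρ]
      positivity
    have hρ1 : ρ ^ (j + 1) = C * (R.card : ℝ) := by
      rw [hρ]
      exact Real.rpow_inv_natCast_pow (by positivity) (by omega)
    have hT1 : ∀ y, (lk T y).card ≤ R.card := by
      intro y
      refine card_le_card fun v hv => ?_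
      rw [mem_lk] at hv
      have h1 := (hT _ hv).2 y (Multiset.mem_cons_self y v)
      rwa [Multiset.erase_cons_head] at h1
    have hT2 : ∀ y, ((lk T y).card : ℝ) ^ j ≤ C * ((lk R y).card : ℝ) ^ (j + 1) := by
      intro y
      refine h (lk R y) (lk T y) (fun v hv => ?_) fun w hw => ?_
      · rw [mem_lk] at hv
        have h1 := hR _ hv
        rw [Multiset.card_cons] at h1
        omega
      · rw [mem_lk] at hw
        obtain ⟨h1, h2⟩ := hT _ hw
        rw [Multiset.card_cons] at h1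
        refine ⟨by omega, fun x hx => ?_⟩
        rw [mem_lk]
        have h3 := h2 x (Multiset.mem_cons_of_mem hx)
        rwa [Multiset.erase_cons_tail_of_mem hx] at h3
    have hT3 : ∀ y, ((lk T y).card : ℝ) ≤ ρ * ((lk R y).card : ℝ) := by
      intro y
      have h1 : ((lk T y).card : ℝ) ^ (j + 1) ≤ (ρ * ((lk R y).card : ℝ)) ^ (j + 1) := by
        have h2 : ((lk T y).card : ℝ) ≤ R.card := by exact_mod_cast hT1 y
        rw [mul_pow, hρ1, pow_succ]
        calc ((lk T y).card : ℝ) ^ j * ((lk T y).card : ℝ)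
            ≤ (C * ((lk R y).card : ℝ) ^ (j + 1)) * R.card :=
              mul_le_mul (hT2 y) h2 (Nat.cast_nonneg _) (by positivity)
          _ = C * R.card * ((lk R y).card : ℝ) ^ (j + 1) := by ring
      exact le_of_pow_le_pow_left₀ (by omega) (by positivity) h1
    have h1 : (T.card : ℝ) ≤ ∑ y ∈ vs T, ((lk T y).card : ℝ) := by
      have h2 := sum_ge (T := T) fun w hw => by
        rw [(hT w hw).1]
        omega
      have h3 : ∑ y ∈ vs T, ((lk T y).card : ℝ) =
          ((∑ y ∈ vs T, (T.filter fun v => y ∈ v).card : ℕ) : ℝ) := by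
        push_cast
        exact sum_congr rfl fun y _ => by rw [card_lk]
      rw [h3]
      exact_mod_cast h2
    have h2 : ∑ y ∈ vs T, ((lk R y).card : ℝ) ≤ ((j : ℝ) + 1) * R.card := by
      have h3 := sum_le (R := R) (vs T) hR
      have h4 : ∑ y ∈ vs T, ((lk R y).card : ℝ) =
          ((∑ y ∈ vs T, (R.filter fun v => y ∈ v).card : ℕ) : ℝ) := by
        push_cast
        exact sum_congr rfl fun y _ => by rw [card_lk]
      rw [h4]
      exact_mod_cast h3
    have h3 : (T.card : ℝ) ≤ ρ * (((j : ℝ) + 1) * R.card) := by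
      calc (T.card : ℝ) ≤ ∑ y ∈ vs T, ((lk T y).card : ℝ) := h1
        _ ≤ ∑ y ∈ vs T, ρ * ((lk R y).card : ℝ) := sum_le_sum fun y _ => hT3 y
        _ = ρ * ∑ y ∈ vs T, ((lk R y).card : ℝ) := by rw [mul_sum]
        _ ≤ ρ * (((j : ℝ) + 1) * R.card) := mul_le_mul_of_nonneg_left h2 hρ0
    calc (T.card : ℝ) ^ (j + 1) ≤ (ρ * (((j : ℝ) + 1) * R.card)) ^ (j + 1) :=
          pow_le_pow_left₀ (Nat.cast_nonneg _) h3 _
      _ = ρ ^ (j + 1) * ((j : ℝ) + 1) ^ (j + 1) * (R.card : ℝ) ^ (j + 1) := by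
          rw [mul_pow, mul_pow]
          ring
      _ = C * ((j : ℝ) + 1) ^ (j + 1) * (R.card : ℝ) ^ (j + 1 + 1) := by
          rw [hρ1, pow_succ (R.card : ℝ) (j + 1)]
          ring

end Pool.Agent.XE2

end
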