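import Pool.Agent.H94.LP7.M04
import Pool.Agent.H94.LP7.M11
import Pool.Agent.H94.LP7.M12
import Pool.Agent.H94.LP7.M32
import Pool.Agent.H94.LP7.M36
import Pool.Agent.H94.LP7.M39

/-! The parts of this file: GD.ST.Surj, GD.AL.Fl_1, GD.AL.Cl2a, GD.AL.TieS, GD.AL.Tri. -/

section

/-!
# General d, step: the positions of the objects of the trace are general

Every family of positions of the objects of the trace of one object `k` comes from a position of `k` (up to
the coordinates which are not used).  Cases: `ord`: extend by `Function.extend σ`.  New cluster (`i = j`):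
for a variable `s` with `β s ∉ inter As` put the value at one member which does not vanish there, `0` at
the others.  Old cluster on `L_j`: extend.  Old cluster with a member `x₀` off `L_j`: the members on `L_j`
get their values; if the last member is on `L_j`, its coordinates in the block `i` are
`- ∑_(y + 1 < length) q (s, y)`, which is corrected with the member `x₀` (`x₀ + 1 < length` then).
`Kd.Ok`: the sets of a cluster do not contain `i`.
-/

set_option autoImplicit false
set_option linter.unusedSectionVars false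

namespace Pool.Agent.GD

open Finset MvPolynomial Pool.Agent.H51.TB
open Pool.Agent.V7 (msk)

/-- the members of a cluster off the block `i` -/
private theorem mem_inter_iff {As : List (Finset ℕ)} (h : 1 ≤ As.length) (a : ℕ) :
    a ∈ inter As ↔ ∀ A ∈ As, a ∈ A := by
  unfold inter
  rw [mem_filter]
  constructor
  · exact fun h1 => h1.2
  · intro h1
    refine ⟨h1 _ ?_, h1⟩
    cases As with
    | nil => simp at h
    | cons b t => simp

private theorem getD_mem {As : List (Finset ℕ)} {x : ℕ} (h : x < As.length) :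
    As.getD x ∅ ∈ As := by
  rw [List.getD_eq_getElem _ _ h]
  exact List.getElem_mem h

private theorem exists_idx {As : List (Finset ℕ)} {A : Finset ℕ} (h : A ∈ As) :
    ∃ x, x < As.length ∧ As.getD x ∅ = A := by
  obtain ⟨x, hx, hA⟩ := List.getElem_of_mem h
  exact ⟨x, hx, by rw [List.getD_eq_getElem _ _ hx]; exact hA⟩

private theorem len_le {d e dl L : ℕ} (he : 2 ≤ e) (h : trx e dl L ≤ d) : L ≤ d := by
  unfold trx at h
  have h1 : L * 1 ≤ L * (e - 1) := Nat.mul_le_mul_left _ (by omega)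
  omega

theorem psi_surj {ν ν' : Type} [Fintype ν] [DecidableEq ν] {d j : ℕ} (β : ν → ℕ) (β' : ν' → ℕ)
    {σ : ν' → ν} (hσ : Function.Injective σ) (him : ∀ s, (∃ x, σ x = s) ↔ β s ≠ j)
    (hβ : ∀ x, ∀ i < j, β (σ x) = i ↔ β' x = i) (k : Kd) (hk : k.Ok d (j + 1))
    (p : Fin (d + 1) → ν' × Fin (d + 1) → ℂ) :
    ∃ (q : ν × Fin (d + 1) → ℂ) (δ : Fin (d + 1) → ν' × Fin (d + 1) → ℂ),
      ∀ x : Fin (d + 1), (trO j k x.1).isSome → ∀ z, Psi β β' σ j k x q (δ x) z = p x z := by
  classical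
  -- the extension of a function from the image of `σ`
  have hext : ∀ (f : ν' → Fin (d + 1) → ℂ), ∃ q : ν × Fin (d + 1) → ℂ,
      ∀ s x, q (σ s, x) = f s x := by
    intro f
    refine ⟨fun w => if h : ∃ s, σ s = w.1 then f h.choose w.2 else 0, fun s x => ?_⟩
    have h : ∃ s', σ s' = (σ s, x).1 := ⟨s, rfl⟩
    have h2 : h.choose = s := hσ h.choose_spec
    show (if h : ∃ s', σ s' = (σ s, x).1 then f h.choose (σ s, x).2 else 0) = _
    rw [dif_pos h, h2]
  have hβj : ∀ s, β (σ s) ≠ j := fun s => (him (σ s)).1 ⟨s, rfl⟩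
  have hmem : ∀ (A : Finset ℕ), (∀ a ∈ A, a < j) → ∀ s, β (σ s) ∈ A ↔ β' s ∈ A := by
    intro A hA s
    constructor
    · intro h
      have := (hβ s _ (hA _ h)).1 rfl
      rw [this]
      exact h
    · intro h
      have := (hβ s _ (hA _ h)).2 rfl
      rw [this]
      exact h
  cases k with
  | ord e A =>
    obtain ⟨q, hq⟩ := hext fun s y => p 0 (s, y)
    refine ⟨q, p, fun x hx z => ?_⟩
    have hx0 : x = 0 := by
      by_contra h0
      have h1 : ¬ (x.1 = 0 ∧ j ∈ A) := fun h => h0 (Fin.ext h.1)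
      simp only [trO, if_neg h1] at hx
      simp at hx
    subst hx0
    simp only [Psi]
    split_ifs with hz
    · rw [hq]
      obtain ⟨s, y⟩ := z
      have hz' : y = 0 := hz
      rw [hz']
    · rfl
  | cl e dl i As =>
    obtain ⟨he, hL, htr, hi, hA⟩ := hk
    have hLd := len_le he htr
    have hAj : ∀ A ∈ As, ∀ a ∈ A, a < j + 1 ∧ a ≠ i := by
      intro A hA' a ha
      have h1 := hA A hA' ha
      rw [mem_erase, mem_range] at h1
      exact ⟨h1.2, h1.1⟩
    by_cases hij : i = j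
    · -- a new cluster
      have hIn : ∀ a ∈ inter As, a < j := by
        intro a ha
        rw [mem_inter_iff hL] at ha
        have h1 := hAj _ (getD_mem (x := 0) (by omega)) a (ha _ (getD_mem (by omega)))
        have h2 : a ≠ j := fun h => h1.2 (h.trans hij.symm)
        omega
      -- a member which does not vanish
      have hex : ∀ s, ∃ y : Fin (d + 1), β (σ s) ∉ inter As →
          y.1 < As.length ∧ β (σ s) ∉ As.getD y.1 ∅ := by
        intro s
        by_cases h : β (σ s) ∈ inter As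
        · exact ⟨0, fun h' => absurd h h'⟩
        · have h' := h
          rw [mem_inter_iff hL] at h'
          push Not at h'
          obtain ⟨A, hA1, hA2⟩ := h'
          obtain ⟨y, hy, hyA⟩ := exists_idx hA1
          refine ⟨⟨y, by omega⟩, fun _ => ⟨hy, ?_⟩⟩
          rw [hyA]
          exact hA2
      choose y₀ hy₀ using hex
      obtain ⟨q, hq⟩ := hext fun s y => if y = y₀ s then p 0 (s, 0) else 0
      refine ⟨q, p, fun x hx z => ?_⟩
      have hx0 : x = 0 := by
        by_contra h0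
        have h1 : ¬ (x.1 = 0) := fun h => h0 (Fin.ext h)
        simp only [trO, if_pos hij, if_neg h1] at hx
        simp at hx
      subst hx0
      simp only [Psi, if_pos hij]
      split_ifs with hz
      · obtain ⟨s, y⟩ := z
        obtain ⟨hz1, hz2⟩ := hz
        have hz1' : y = 0 := hz1
        subst hz1'
        have h3 : β (σ s) ∉ inter As := fun h => hz2 ((hmem _ hIn s).1 h)
        obtain ⟨h4, h5⟩ := hy₀ s h3
        have hbi : ¬ β (σ s) = i := fun h => hβj s (h.trans hij)
        show uu β (.cl e dl i As) q (σ s) = p 0 (s, 0)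
        unfold uu
        rw [sum_eq_single (y₀ s)]
        · show (if (y₀ s).1 < As.length then pt β (.cl e dl i As) (y₀ s) q (σ s) else 0) = _
          rw [if_pos h4]
          show (if β (σ s) ∈ As.getD (y₀ s).1 ∅ then 0 else
            if β (σ s) = i ∧ (y₀ s).1 + 1 = As.length then _ else q (σ s, y₀ s)) = _
          rw [if_neg h5, if_neg fun h => hbi h.1, hq, if_pos rfl]
        · intro x _ hx'
          show (if x.1 < As.length then pt β (.cl e dl i As) x q (σ s) else 0) = 0
          by_cases h6 : x.1 < As.length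
          · rw [if_pos h6]
            show (if β (σ s) ∈ As.getD x.1 ∅ then 0 else
              if β (σ s) = i ∧ x.1 + 1 = As.length then _ else q (σ s, x)) = _
            by_cases h7 : β (σ s) ∈ As.getD x.1 ∅
            · rw [if_pos h7]
            · rw [if_neg h7, if_neg fun h => hbi h.1, hq, if_neg hx']
          · rw [if_neg h6]
        · intro h
          exact absurd (mem_univ _) h
      · rfl
    · -- an old cluster
      have hij' : i < j := by omega
      by_cases hall : ∀ A ∈ As, j ∈ A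
      · obtain ⟨q, hq⟩ := hext fun s y => p 0 (s, y)
        refine ⟨q, p, fun x hx z => ?_⟩
        have hx0 : x = 0 := by
          by_contra h0
          have h1 : ¬ (x.1 = 0) := fun h => h0 (Fin.ext h)
          simp only [trO, if_neg hij] at hx
          rw [if_pos hall, if_neg h1] at hx
          simp at hx
        subst hx0
        simp only [Psi, if_neg hij]
        rw [if_pos hall, hq]
      · have hall' := hall
        push Not at hall'
        obtain ⟨A₀, hA₀, hjA₀⟩ := hall'
        obtain ⟨x₀, hx₀, hx₀A⟩ := exists_idx hA₀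
        have hjx₀ : j ∉ As.getD x₀ ∅ := by
          rw [hx₀A]
          exact hjA₀
        -- the correction of the member `x₀`
        obtain ⟨q, hq⟩ := hext fun s y =>
          if β (σ s) = i ∧ y.1 = x₀ ∧ x₀ + 1 < As.length then
            - (∑ y : Fin (d + 1), if y.1 + 1 = As.length then p y (s, 0) else 0) -
              ∑ y : Fin (d + 1), if y.1 + 1 < As.length ∧ y.1 ≠ x₀ then p y (s, 0) else 0
          else p y (s, 0)
        refine ⟨q, p, fun x hx z => ?_⟩
        have hx1 : x.1 < As.length ∧ j ∈ As.getD x.1 ∅ := by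
          by_contra h0
          simp only [trO, if_neg hij] at hx
          rw [if_neg hall, if_neg h0] at hx
          simp at hx
        obtain ⟨hxl, hxj⟩ := hx1
        have hxx₀ : x.1 ≠ x₀ := fun h => hjx₀ (h ▸ hxj)
        simp only [Psi, if_neg hij]
        rw [if_neg hall]
        split_ifs with hz
        · obtain ⟨s, y⟩ := z
          obtain ⟨hz1, hz2⟩ := hz
          have hz1' : y = 0 := hz1
          subst hz1'
          have hlt : ∀ a ∈ (As.getD x.1 ∅).erase j, a < j := by
            intro a ha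
            rw [mem_erase] at ha
            have h1 := hAj _ (getD_mem hxl) a ha.2
            have := ha.1
            omega
          have h3 : β (σ s) ∉ As.getD x.1 ∅ := by
            intro h
            exact hz2 ((hmem _ hlt s).1 (mem_erase.2 ⟨hβj s, h⟩))
          show (if β (σ s) ∈ As.getD x.1 ∅ then 0 else
            if β (σ s) = i ∧ x.1 + 1 = As.length then
              - ∑ y : Fin (d + 1), if y.1 + 1 < As.length then q (σ s, y) else 0
            else q (σ s, x)) = p x (s, 0)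
          rw [if_neg h3]
          by_cases hlast : β (σ s) = i ∧ x.1 + 1 = As.length
          · rw [if_pos hlast]
            obtain ⟨hb, hl⟩ := hlast
            have hx₀' : x₀ + 1 < As.length := by omega
            have h4 : ∀ y : Fin (d + 1), (if y.1 + 1 < As.length then q (σ s, y) else 0) =
                (if y = (⟨x₀, by omega⟩ : Fin (d + 1)) then q (σ s, ⟨x₀, by omega⟩) else 0) +
                  (if y.1 + 1 < As.length ∧ y.1 ≠ x₀ then p y (s, 0) else 0) := by
              intro y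
              by_cases hy : y.1 = x₀
              · have hy' : y = (⟨x₀, by omega⟩ : Fin (d + 1)) := Fin.ext hy
                rw [if_pos (by omega), if_pos hy', if_neg fun h => h.2 hy, add_zero, hy']
              · have hy' : y ≠ (⟨x₀, by omega⟩ : Fin (d + 1)) := fun h => hy (congrArg Fin.val h)
                rw [if_neg hy', zero_add]
                by_cases hy2 : y.1 + 1 < As.length
                · rw [if_pos hy2, if_pos ⟨hy2, hy⟩, hq, if_neg fun h => hy h.2.1]
                · rw [if_neg hy2, if_neg fun h => hy2 h.1]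
            rw [sum_congr rfl fun y _ => h4 y, sum_add_distrib, sum_ite_eq' univ, if_pos (mem_univ _),
              hq, if_pos ⟨hb, rfl, hx₀'⟩]
            have h5 : ∑ y : Fin (d + 1), (if y.1 + 1 = As.length then p y (s, 0) else 0) =
                p x (s, 0) := by
              rw [sum_eq_single x]
              · rw [if_pos hl]
              · intro y _ hy
                rw [if_neg]
                intro h
                exact hy (Fin.ext (by omega))
              · intro h
                exact absurd (mem_univ _) h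
            rw [h5]
            ring
          · rw [if_neg hlast, hq, if_neg fun h => hxx₀ h.2.1]
        · rfl

end Pool.Agent.GD

end

section

/-!
# General d, ALPHA: the spaces of the solutions as spaces of functionals

`Dl ν`: functionals on the polynomial ring, `ct g Φ = Φ (g * ·)` (contraction).
`XX β D I m p`: the functionals of degree `D` of the level `I` which satisfy the conditions of the
objects `m i` at the positions `p i`; `finrank_XX`: it is the solution space of `LS d D β I`.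
`XX_ct`: contraction by a point which vanishes on the blocks of `A` maps the level `I` into the level
`I ∩ A`.
-/

set_option autoImplicit false
set_option linter.unusedSectionVars false

namespace Pool.Agent.GD.AL

open Finset MvPolynomial Pool.Agent.H51.TB Pool.Agent.V7.ST
open Pool.Agent.H21.NX (Sx mem_Sx)
open Pool.Agent.V7 (msk)

section

variable {ν : Type} [Fintype ν] [DecidableEq ν]

/-- The conditions of an object, as a subspace. -/
noncomputable def SatM {d : ℕ} (β : ν → ℕ) (I : Finset ℕ) (k : Kd) (q : ν × Fin (d + 1) → ℂ) :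
    Submodule ℂ (Dl ν) where
  carrier := {Φ | Sat β I k q Φ}
  zero_mem' := by
    refine ⟨fun _ _ _ => rfl, ?_⟩
    cases k with
    | ord e A => trivial
    | cl e dl i As => exact fun _ _ _ _ _ _ => rfl
  add_mem' := by
    rintro Φ Ψ ⟨h1, h2⟩ ⟨h3, h4⟩
    refine ⟨fun x hx y => by rw [LinearMap.add_apply, h1 x hx y, h3 x hx y, add_zero], ?_⟩
    cases k with
    | ord e A => trivial
    | cl e dl i As =>
      intro hi κ hκ hκ' b hb
      rw [LinearMap.add_apply, h2 hi κ hκ hκ' b hb, h4 hi κ hκ hκ' b hb, add_zero]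
  smul_mem' := by
    rintro c Φ ⟨h1, h2⟩
    refine ⟨fun x hx y => by rw [LinearMap.smul_apply, h1 x hx y, smul_zero], ?_⟩
    cases k with
    | ord e A => trivial
    | cl e dl i As =>
      intro hi κ hκ hκ' b hb
      rw [LinearMap.smul_apply, h2 hi κ hκ hκ' b hb, smul_zero]

/-- The solutions of a configuration. -/
noncomputable def XX {d : ℕ} (β : ν → ℕ) (D : ℕ) (I : Finset ℕ) {κ : Type} (m : κ → Kd)
    (p : κ → ν × Fin (d + 1) → ℂ) : Submodule ℂ (Dl ν) :=
  Lv β D I ⊓ ⨅ i, SatM β I (m i) (p i)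

theorem mem_XX {d : ℕ} {β : ν → ℕ} {D : ℕ} {I : Finset ℕ} {κ : Type} {m : κ → Kd}
    {p : κ → ν × Fin (d + 1) → ℂ} {Φ : Dl ν} :
    Φ ∈ XX β D I m p ↔ Φ ∈ Lv β D I ∧ ∀ i, Sat β I (m i) (p i) Φ := by
  unfold XX
  rw [Submodule.mem_inf, Submodule.mem_iInf]
  rfl

/-- The functional of a form. -/
noncomputable def toDl (A : Finset (ν → ℕ)) : ({a // a ∈ A} → ℂ) →ₗ[ℂ] Dl ν where
  toFun := fun f => Fn (ext0 A f)
  map_add' := fun f g => mon_ext fun b => by
    rw [LinearMap.add_apply, Fn_mon, Fn_mon, Fn_mon, ← mul_add]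
    congr 1
    by_cases hb : b ∈ A
    · unfold ext0
      rw [dif_pos hb, dif_pos hb, dif_pos hb, Pi.add_apply]
    · rw [ext0_not _ hb, ext0_not _ hb, ext0_not _ hb, add_zero]
  map_smul' := fun c f => mon_ext fun b => by
    rw [LinearMap.smul_apply, Fn_mon, Fn_mon, RingHom.id_apply, smul_eq_mul]
    by_cases hb : b ∈ A
    · unfold ext0
      rw [dif_pos hb, dif_pos hb, Pi.smul_apply, smul_eq_mul]
      ring
    · rw [ext0_not _ hb, ext0_not _ hb]
      ring

theorem toDl_apply (A : Finset (ν → ℕ)) (f : {a // a ∈ A} → ℂ) : toDl A f = Fn (ext0 A f) := rfl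

theorem toDl_inj (A : Finset (ν → ℕ)) : Function.Injective (toDl A) := by
  rw [← LinearMap.ker_eq_bot, LinearMap.ker_eq_bot']
  intro f hf
  funext a
  have h1 : toDl A f (mon ℂ a.1) = 0 := by rw [hf]; rfl
  rw [toDl_apply, Fn_mon, ext0_mem] at h1
  exact (mul_eq_zero.1 h1).resolve_left (Nat.cast_ne_zero.2 (fac_pos a.1).ne')

theorem toDl_mem_Lv {β : ν → ℕ} {D : ℕ} {I : Finset ℕ} (f : {a // a ∈ Ex β D I} → ℂ) :
    toDl (Ex β D I) f ∈ Lv β D I := by
  intro b hb
  rw [toDl_apply, Fn_mon, ext0_not f hb, mul_zero]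

theorem exists_toDl {β : ν → ℕ} {D : ℕ} {I : Finset ℕ} {Φ : Dl ν} (h : Φ ∈ Lv β D I) :
    ∃ f, toDl (Ex β D I) f = Φ := by
  refine ⟨fun a => Φ (mon ℂ a.1) / (fac a.1 : ℂ), mon_ext fun b => ?_⟩
  rw [toDl_apply, Fn_mon]
  by_cases hb : b ∈ Ex β D I
  · unfold ext0
    rw [dif_pos hb]
    have h1 : ((fac b : ℕ) : ℂ) ≠ 0 := Nat.cast_ne_zero.2 (fac_pos b).ne'
    field_simp
  · rw [ext0_not _ hb, mul_zero, h b hb]

end

section

variable {ν : Type} [Fintype ν] [DecidableEq ν] {d : ℕ}

theorem map_V {D : ℕ} (hD : D ≤ d) (β : ν → ℕ) (I : Finset ℕ) {κ : Type} (m : κ → Kd)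
    (p : κ → ν × Fin (d + 1) → ℂ) :
    ((LS d D β I).V m p).map (toDl (Ex β D I)) = XX β D I m p := by
  ext Φ
  rw [mem_XX]
  constructor
  · rintro ⟨f, hf, rfl⟩
    exact ⟨toDl_mem_Lv f, fun i => (mem_LS hD β I m p f).1 hf i⟩
  · rintro ⟨h1, h2⟩
    obtain ⟨f, rfl⟩ := exists_toDl h1
    exact ⟨f, (mem_LS hD β I m p f).2 h2, rfl⟩

theorem finite_Lv (β : ν → ℕ) (D : ℕ) (I : Finset ℕ) : Module.Finite ℂ (Lv β D I) := by
  have h1 : Lv β D I = LinearMap.range (toDl (Ex β D I)) := by
    ext Φ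
    exact ⟨fun h => exists_toDl h, fun ⟨f, hf⟩ => hf ▸ toDl_mem_Lv f⟩
  rw [h1]
  infer_instance

theorem XX_le_Lv (β : ν → ℕ) (D : ℕ) (I : Finset ℕ) {κ : Type} (m : κ → Kd)
    (p : κ → ν × Fin (d + 1) → ℂ) : XX β D I m p ≤ Lv β D I := inf_le_left

theorem finite_XX (β : ν → ℕ) (D : ℕ) (I : Finset ℕ) {κ : Type} (m : κ → Kd)
    (p : κ → ν × Fin (d + 1) → ℂ) : Module.Finite ℂ (XX β D I m p) := by
  have := finite_Lv β D I
  exact Submodule.finiteDimensional_of_le (XX_le_Lv β D I m p)

/-- The dimension. -/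
theorem finrank_XX {D : ℕ} (hD : D ≤ d) (β : ν → ℕ) (I : Finset ℕ) {κ : Type} (m : κ → Kd)
    (p : κ → ν × Fin (d + 1) → ℂ) :
    Module.finrank ℂ (XX β D I m p) = Module.finrank ℂ ((LS d D β I).V m p) := by
  rw [← map_V hD]
  exact (Submodule.equivMapOfInjective _ (toDl_inj _) _).finrank_eq.symm

/-- The general dimension is the smallest one. -/
theorem HI_le {D : ℕ} (hD : D ≤ d) (β : ν → ℕ) (I : Finset ℕ) {κ : Type} [Fintype κ] (m : κ → Kd)
    (p : κ → ν × Fin (d + 1) → ℂ) :
    HI d D β I ((univ : Finset κ).val.map m) ≤ Module.finrank ℂ (XX β D I m p) := by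
  rw [finrank_XX hD]
  unfold HI
  rw [← gd_eq_gM]
  exact gd_le _ m p

/-- The dimension at general positions. -/
theorem gn_XX {D : ℕ} (hD : D ≤ d) (β : ν → ℕ) (I : Finset ℕ) {κ : Type} [Fintype κ] (m : κ → Kd) :
    Gn κ (ν × Fin (d + 1)) fun p => Module.finrank ℂ (XX β D I m p) =
      HI d D β I ((univ : Finset κ).val.map m) := by
  refine (gn_gd (LS d D β I) m).mono fun p hp => ?_
  rw [finrank_XX hD, hp]
  unfold HI
  rw [← gd_eq_gM]

/-! ### One more object -/

theorem sat_ord {β : ν → ℕ} {I : Finset ℕ} {e : ℕ} {A : Finset ℕ} {q : ν × Fin (d + 1) → ℂ}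
    {Φ : Dl ν} : Sat β I (.ord e A) q Φ ↔ ct (lf (opt β A q) ^ e) Φ = 0 := by
  constructor
  · rintro ⟨h, -⟩
    refine LinearMap.ext fun y => ?_
    exact h 0 (Nat.zero_lt_one) y
  · intro h
    refine ⟨fun x _ y => ?_, trivial⟩
    exact LinearMap.congr_fun h y

theorem XX_ord (β : ν → ℕ) (D : ℕ) (I : Finset ℕ) {κ κ' : Type} (m : κ → Kd) (e : κ' → ℕ)
    (A : κ' → Finset ℕ) (p : κ → ν × Fin (d + 1) → ℂ) (q : κ' → ν × Fin (d + 1) → ℂ) :
    XX β D I (Sum.elim m fun i => .ord (e i) (A i)) (Sum.elim p q) =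
      XX β D I m p ⊓ ⨅ i, LinearMap.ker (ct (lf (opt β (A i) (q i)) ^ e i)) := by
  ext Φ
  rw [Submodule.mem_inf, Submodule.mem_iInf, mem_XX, mem_XX]
  constructor
  · rintro ⟨h1, h2⟩
    exact ⟨⟨h1, fun i => h2 (Sum.inl i)⟩, fun i => sat_ord.1 (h2 (Sum.inr i))⟩
  · rintro ⟨⟨h1, h2⟩, h3⟩
    refine ⟨h1, fun i => ?_⟩
    rcases i with i | i
    · exact h2 i
    · exact sat_ord.2 (h3 i)

/-! ### Contraction by a point -/

theorem Sat_ct {β : ν → ℕ} {I A : Finset ℕ} {q : ν → ℂ} (hq : ∀ s, β s ∈ A → q s = 0)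
    {k : Kd} {r : ν × Fin (d + 1) → ℂ} {Φ : Dl ν} (h : Sat β I k r Φ) :
    Sat β (I ∩ A) k r (ct (lf q) Φ) := by
  refine ⟨fun x hx y => ?_, ?_⟩
  · rw [ct_apply, ← h.1 x hx (lf q * y)]
    congr 1
    ring
  · cases k with
    | ord e A' => trivial
    | cl e dl i As =>
      intro hi κ hκ hκ' b hb
      rw [mem_inter] at hi
      have h1 : lf q * (lf (uu β (.cl e dl i As) r) ^ (As.length * (e - 1)) *
          (lf (zz β i r) ^ κ * mon ℂ b)) = ∑ s, q s • (lf (uu β (.cl e dl i As) r) ^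
            (As.length * (e - 1)) * (lf (zz β i r) ^ κ * mon ℂ (b + Pi.single s 1))) := by
        have h2 : lf q * (lf (uu β (.cl e dl i As) r) ^ (As.length * (e - 1)) *
          (lf (zz β i r) ^ κ * mon ℂ b)) = lf (uu β (.cl e dl i As) r) ^
            (As.length * (e - 1)) * (lf (zz β i r) ^ κ * (lf q * mon ℂ b)) := by ring
        rw [h2, lf_mul_mon, mul_sum, mul_sum]
        refine sum_congr rfl fun s _ => ?_
        rw [mul_smul_comm, mul_smul_comm]
      rw [ct_apply, h1, map_sum]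
      refine sum_eq_zero fun s _ => ?_
      rw [map_smul]
      by_cases hs : q s = 0
      · rw [hs, zero_smul]
      rw [h.2 hi.1 κ hκ hκ', smul_zero]
      intro x hx
      have hxs : x ≠ s := by
        rintro rfl
        exact hs (hq x (hx ▸ hi.2))
      rw [Pi.add_apply, hb x hx, Pi.single_eq_of_ne hxs, add_zero]

theorem XX_ct {β : ν → ℕ} {D : ℕ} {I A : Finset ℕ} {κ : Type} {m : κ → Kd}
    {p : κ → ν × Fin (d + 1) → ℂ} {q : ν → ℂ} (hq : ∀ s, β s ∈ A → q s = 0) {Φ : Dl ν}
    (h : Φ ∈ XX β (D + 1) I m p) : ct (lf q) Φ ∈ XX β D (I ∩ A) m p := by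
  rw [mem_XX] at h ⊢
  exact ⟨Lv_ct hq h.1, fun i => Sat_ct hq (h.2 i)⟩

theorem XX_ct_pow {β : ν → ℕ} {I A : Finset ℕ} {κ : Type} {m : κ → Kd}
    {p : κ → ν × Fin (d + 1) → ℂ} {q : ν → ℂ} (hq : ∀ s, β s ∈ A → q s = 0) {k : ℕ} {D : ℕ}
    (hk : 1 ≤ k) {Φ : Dl ν} (h : Φ ∈ XX β (D + k) I m p) :
    ct (lf q ^ k) Φ ∈ XX β D (I ∩ A) m p := by
  induction k, hk using Nat.le_induction generalizing D with
  | base => rw [pow_one]; exact XX_ct hq h
  | succ k hk ih =>
    rw [pow_succ', ct_mul]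
    have h1 : Φ ∈ XX β (D + 1 + k) I m p := by
      have e : D + 1 + k = D + (k + 1) := by ring
      rw [e]
      exact h
    have h2 := XX_ct hq (ih h1)
    rw [inter_assoc, inter_self] at h2
    exact h2

end

end Pool.Agent.GD.AL

end

section

/-!
# General d, ALPHA, clusters: the contractions by the members of the groups (CL2, algebra)

`q b x`: the member `x < l` of the group `b < c`; `Qn q l b n = ∏_x (q b x)^(n x)`.
`Wt t s`: the solutions of degree `s` with the groups `b < t` killed and the other groups with the exponent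
`E + 1`, and `yv` killed.  `Eb b s`: all contractions by powers of the direction `zv b` are solutions again.
`Ut t s`: all contractions by `Qn` of the groups `b ≥ t` are of the level `I`.
-/

set_option autoImplicit false
set_option linter.unusedSectionVars false

namespace Pool.Agent.GD.AL

open Finset MvPolynomial Pool.Agent.H51.TB Pool.Agent.V7.ST
open Pool.Agent.V7 (msk)

/-- Image and kernel. -/
theorem rk2 {M N : Type} [AddCommGroup M] [Module ℂ M] [AddCommGroup N] [Module ℂ N]
    (U : Submodule ℂ M) [Module.Finite ℂ U] (T : M →ₗ[ℂ] N) :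
    Module.finrank ℂ U = Module.finrank ℂ (U.map T) +
      Module.finrank ℂ (U ⊓ LinearMap.ker T : Submodule ℂ M) := by
  have h1 := LinearMap.finrank_range_add_finrank_ker (T.domRestrict U)
  have h2 : LinearMap.range (T.domRestrict U) = U.map T := by
    ext x
    constructor
    · rintro ⟨y, rfl⟩
      exact ⟨y.1, y.2, rfl⟩
    · rintro ⟨y, hy, rfl⟩
      exact ⟨⟨y, hy⟩, rfl⟩
  have h3 : Module.finrank ℂ (LinearMap.ker (T.domRestrict U)) =
      Module.finrank ℂ (U ⊓ LinearMap.ker T : Submodule ℂ M) := by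
    have h4 : (LinearMap.ker (T.domRestrict U)).map U.subtype = U ⊓ LinearMap.ker T := by
      ext x
      constructor
      · rintro ⟨y, hy, rfl⟩
        exact ⟨y.2, hy⟩
      · rintro ⟨hx, hx'⟩
        exact ⟨⟨x, hx⟩, hx', rfl⟩
    rw [← h4]
    exact (Submodule.equivMapOfInjective _ (Submodule.subtype_injective U) _).finrank_eq
  rw [h2, h3] at h1
  exact h1.symm

/-- Finitely many maps. -/
theorem fin_step {M N α : Type} [AddCommGroup M] [Module ℂ M] [AddCommGroup N] [Module ℂ N]
    [DecidableEq α] (U : Submodule ℂ M) [Module.Finite ℂ U] (S : Finset α) (f : α → M →ₗ[ℂ] N)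
    (W : α → Submodule ℂ N) (hW : ∀ x ∈ S, Module.Finite ℂ (W x)) (h : ∀ x ∈ S, ∀ G ∈ U, f x G ∈ W x) :
    Module.finrank ℂ U ≤ Module.finrank ℂ (U ⊓ ⨅ x ∈ S, LinearMap.ker (f x) : Submodule ℂ M) +
      ∑ x ∈ S, Module.finrank ℂ (W x) := by
  induction S using Finset.induction_on with
  | empty =>
    have h1 : (⨅ x ∈ (∅ : Finset α), LinearMap.ker (f x)) = (⊤ : Submodule ℂ M) := by simp
    rw [sum_empty, add_zero, h1, inf_top_eq]
  | insert a S ha ih =>
    have h1 := ih (fun x hx => hW x (mem_insert_of_mem hx)) fun x hx => h x (mem_insert_of_mem hx)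
    rw [sum_insert ha, Finset.iInf_insert]
    have fV : Module.Finite ℂ (U ⊓ ⨅ x ∈ S, LinearMap.ker (f x) : Submodule ℂ M) :=
      Submodule.finiteDimensional_of_le inf_le_left
    have fW := hW a (mem_insert_self a S)
    have h2 := rk2 (U ⊓ ⨅ x ∈ S, LinearMap.ker (f x) : Submodule ℂ M) (f a)
    have h3 : Module.finrank ℂ ((U ⊓ ⨅ x ∈ S, LinearMap.ker (f x) : Submodule ℂ M).map (f a)) ≤
        Module.finrank ℂ (W a) := by
      refine Submodule.finrank_mono ?_
      rintro x ⟨G, hG, rfl⟩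
      exact h a (mem_insert_self a S) G hG.1
    have h4 : (U ⊓ ⨅ x ∈ S, LinearMap.ker (f x) : Submodule ℂ M) ⊓ LinearMap.ker (f a) =
        U ⊓ (LinearMap.ker (f a) ⊓ ⨅ x ∈ S, LinearMap.ker (f x)) := by
      rw [inf_assoc, inf_comm (⨅ x ∈ S, LinearMap.ker (f x))]
    rw [h4] at h2
    omega

section

variable {ν : Type} [Fintype ν] [DecidableEq ν] {d : ℕ}

/-- The exponents of degree `m` of the members of a group, at most `E`. -/
def Nm (l E m : ℕ) : Finset (ℕ → ℕ) :=
  (piAntidiag (range l) m).filter fun n => ∀ x ∈ range l, n x ≤ E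

theorem mem_Nm {l E m : ℕ} {n : ℕ → ℕ} : n ∈ Nm l E m ↔
    (∑ x ∈ range l, n x = m ∧ ∀ x, n x ≠ 0 → x < l) ∧ ∀ x < l, n x ≤ E := by
  unfold Nm
  rw [mem_filter, mem_piAntidiag]
  simp only [mem_range]

/-- The number of these exponents. -/
def rr (l E m : ℕ) : ℕ := (Nm l E m).card

/-- The product of the powers of the members of a group. -/
noncomputable def Qn (q : ℕ → ℕ → ν → ℂ) (l b : ℕ) (n : ℕ → ℕ) : MvPolynomial ν ℂ :=
  ∏ x ∈ range l, lf (q b x) ^ n x

variable {β : ν → ℕ} {I B : Finset ℕ} {i : ℕ} {q : ℕ → ℕ → ν → ℂ}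

/-! ### The restriction to `L_i` -/

/-! ### The spaces -/

variable (β I) {κ : Type} (m : κ → Kd) (p : κ → ν × Fin (d + 1) → ℂ) (E c l : ℕ)
  (q : ℕ → ℕ → ν → ℂ) (yv : ν → ℂ)

/-- The solutions with the groups `b < t` killed. -/
noncomputable def Wt (t s : ℕ) : Submodule ℂ (Dl ν) :=
  XX β s I m p ⊓ ((⨅ b ∈ range c, ⨅ x ∈ range l,
    LinearMap.ker (ct (lf (q b x) ^ (if b < t then 1 else E + 1)))) ⊓ LinearMap.ker (ct (lf yv)))

/-- All contractions by the members of the groups `b ≥ t` are of the level `I`. -/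
noncomputable def Ut (t s : ℕ) : Submodule ℂ (Dl ν) :=
  Wt β I m p E c l q yv t s ⊓ ⨅ b ∈ Ico t c, ⨅ k ∈ Icc 1 s, ⨅ n ∈ Nm l E k,
    (Lv β (s - k) I).comap (ct (Qn q l b n))

/-- The direction of the tied member of the group `b`. -/
def zd (b : ℕ) (s : ν) : ℂ := - ∑ x ∈ range l, q b x s

/-- All contractions by powers of the direction are solutions. -/
noncomputable def Eb (b s : ℕ) : Submodule ℂ (Dl ν) :=
  ⨅ j ∈ range (s + 1), (Wt β I m p E c l q yv 0 (s - j)).comap (ct (lf (zd l q b) ^ j))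

variable {β I m p E c l q yv}

theorem mem_Wt {t s : ℕ} {G : Dl ν} : G ∈ Wt β I m p E c l q yv t s ↔
    G ∈ XX β s I m p ∧ (∀ b < c, ∀ x < l, ct (lf (q b x) ^ (if b < t then 1 else E + 1)) G = 0) ∧
      ct (lf yv) G = 0 := by
  unfold Wt
  rw [Submodule.mem_inf, Submodule.mem_inf, Submodule.mem_iInf]
  refine and_congr_right fun _ => and_congr ?_ Iff.rfl
  refine forall_congr' fun b => ?_
  rw [Submodule.mem_iInf, mem_range]
  refine forall_congr' fun _ => ?_
  rw [Submodule.mem_iInf]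
  refine forall_congr' fun x => ?_
  rw [Submodule.mem_iInf, mem_range]
  rfl

theorem mem_Ut {t s : ℕ} {G : Dl ν} : G ∈ Ut β I m p E c l q yv t s ↔
    G ∈ Wt β I m p E c l q yv t s ∧ ∀ b, t ≤ b → b < c → ∀ k, 1 ≤ k → k ≤ s → ∀ n ∈ Nm l E k,
      ct (Qn q l b n) G ∈ Lv β (s - k) I := by
  unfold Ut
  rw [Submodule.mem_inf, Submodule.mem_iInf]
  refine and_congr_right fun _ => ?_
  refine forall_congr' fun b => ?_
  rw [Submodule.mem_iInf, mem_Ico, and_imp]
  refine forall_congr' fun _ => forall_congr' fun _ => ?_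
  rw [Submodule.mem_iInf]
  refine forall_congr' fun k => ?_
  rw [Submodule.mem_iInf, mem_Icc, and_imp]
  refine forall_congr' fun _ => forall_congr' fun _ => ?_
  rw [Submodule.mem_iInf]
  refine forall_congr' fun n => ?_
  rw [Submodule.mem_iInf]
  rfl

theorem mem_Eb {b s : ℕ} {G : Dl ν} : G ∈ Eb β I m p E c l q yv b s ↔
    ∀ j ≤ s, ct (lf (zd l q b) ^ j) G ∈ Wt β I m p E c l q yv 0 (s - j) := by
  unfold Eb
  rw [Submodule.mem_iInf]
  refine forall_congr' fun j => ?_
  rw [Submodule.mem_iInf, mem_range, Nat.lt_succ_iff]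
  rfl

theorem finite_Wt (t s : ℕ) : Module.Finite ℂ (Wt β I m p E c l q yv t s) := by
  have := finite_XX β s I m p
  exact Submodule.finiteDimensional_of_le inf_le_left

theorem finite_Ut (t s : ℕ) : Module.Finite ℂ (Ut β I m p E c l q yv t s) := by
  have := finite_Wt (β := β) (I := I) (m := m) (p := p) (E := E) (c := c) (l := l) (q := q)
    (yv := yv) t s
  exact Submodule.finiteDimensional_of_le inf_le_left

/-- One more factor. -/
theorem Qn_mul {l' b x : ℕ} (hx : x < l') (n : ℕ → ℕ) :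
    lf (q b x) * Qn q l' b n = Qn q l' b (n + (Pi.single x 1 : ℕ → ℕ)) := by
  unfold Qn
  have h1 : ∀ y ∈ range l', lf (q b y) ^ ((n + (Pi.single x 1 : ℕ → ℕ)) y) =
      lf (q b y) ^ n y * if y = x then lf (q b x) else 1 := by
    intro y _
    rw [Pi.add_apply, pow_add]
    congr 1
    by_cases h : y = x
    · subst h
      rw [if_pos rfl, Pi.single_eq_same, pow_one]
    · rw [if_neg h, Pi.single_eq_of_ne h, pow_zero]
  rw [prod_congr rfl h1, prod_mul_distrib, prod_ite_eq' (range l') x fun _ => lf (q b x),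
    if_pos (mem_range.2 hx), mul_comm]

/-- A high exponent. -/
theorem Qn_zero {l' b x : ℕ} (hx : x < l') {n : ℕ → ℕ} {e : ℕ} (hn : e ≤ n x) {G : Dl ν}
    (h : ct (lf (q b x) ^ e) G = 0) : ct (Qn q l' b n) G = 0 := by
  unfold Qn
  rw [← mul_prod_erase _ _ (mem_range.2 hx)]
  have h1 : lf (q b x) ^ n x = lf (q b x) ^ (n x - e) * lf (q b x) ^ e := by
    rw [← pow_add]
    congr 1
    omega
  rw [h1]
  have h2 : lf (q b x) ^ (n x - e) * lf (q b x) ^ e * ∏ x ∈ (range l').erase x, lf (q b x) ^ n x =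
      (lf (q b x) ^ (n x - e) * ∏ x ∈ (range l').erase x, lf (q b x) ^ n x) * lf (q b x) ^ e := by
    ring
  rw [h2, ct_mul, h, map_zero]

theorem Qn_single {l' b x : ℕ} (hx : x < l') : Qn q l' b (Pi.single x 1 : ℕ → ℕ) = lf (q b x) := by
  have h1 := Qn_mul (q := q) (b := b) hx 0
  rw [zero_add] at h1
  rw [← h1]
  unfold Qn
  rw [prod_eq_one fun y _ => by rw [Pi.zero_apply, pow_zero], mul_one]

/-- The recursion for the members of the group `t`. -/
noncomputable def Vx (β : ν → ℕ) (I : Finset ℕ) {κ : Type} (m : κ → Kd)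
    (p : κ → ν × Fin (d + 1) → ℂ) (E c l : ℕ) (q : ℕ → ℕ → ν → ℂ) (yv : ν → ℂ) (t s : ℕ) :
    ℕ → Submodule ℂ (Dl ν)
  | 0 => Ut β I m p E c l q yv t s
  | r + 1 => Vx β I m p E c l q yv t s r ⊓ ⨅ n ∈ Nm l E (s - r), LinearMap.ker (ct (Qn q l t n))

theorem mem_Vx {t s r : ℕ} {G : Dl ν} : G ∈ Vx β I m p E c l q yv t s r ↔
    G ∈ Ut β I m p E c l q yv t s ∧ ∀ r' < r, ∀ n ∈ Nm l E (s - r'), ct (Qn q l t n) G = 0 := by
  induction r with
  | zero => exact ⟨fun h => ⟨h, fun r' hr => absurd hr (Nat.not_lt_zero r')⟩, fun h => h.1⟩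
  | succ r ih =>
    have h0 : G ∈ Vx β I m p E c l q yv t s (r + 1) ↔ G ∈ Vx β I m p E c l q yv t s r ∧
        ∀ n ∈ Nm l E (s - r), ct (Qn q l t n) G = 0 := by
      show G ∈ Vx β I m p E c l q yv t s r ⊓ ⨅ n ∈ Nm l E (s - r),
        LinearMap.ker (ct (Qn q l t n)) ↔ _
      rw [Submodule.mem_inf, Submodule.mem_iInf]
      refine and_congr_right fun _ => forall_congr' fun n => ?_
      rw [Submodule.mem_iInf]
      rfl
    rw [h0, ih]
    constructor
    · rintro ⟨⟨h1, h2⟩, h3⟩
      refine ⟨h1, fun r' hr' => ?_⟩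
      rcases Nat.lt_succ_iff_lt_or_eq.1 hr' with h4 | rfl
      · exact h2 r' h4
      · exact h3
    · rintro ⟨h1, h2⟩
      exact ⟨⟨h1, fun r' hr' => h2 r' (by omega)⟩, h2 r (by omega)⟩

end

end Pool.Agent.GD.AL

end

section

/-!
# General d, ALPHA, clusters: the spaces `Yp`, `Xp` and the contraction by the direction

`Xp s`: the functionals of degree `s` of the level `I'` such that all contractions by powers of the direction
`z` satisfy all conditions of the level `I'`, and the additional conditions of the cluster.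
`finrank_Xp`: contraction by `z` gives `dim Xp s ≤ ∑_(j ≤ s) dim (cluster of the first members, z, y)`.
-/

set_option autoImplicit false
set_option linter.unusedSectionVars false

namespace Pool.Agent.GD.AL

open Finset MvPolynomial Pool.Agent.H51.TB Pool.Agent.V7.ST
open Pool.Agent.V7 (msk)

section

variable {ν : Type} [Fintype ν] [DecidableEq ν]

/-- Kernel and image. -/
theorem finrank_le_ker_add {U K W : Submodule ℂ (Dl ν)} (hU : Module.Finite ℂ U)
    (hK : Module.Finite ℂ K) (hW : Module.Finite ℂ W) (f : Dl ν →ₗ[ℂ] Dl ν)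
    (h1 : ∀ G ∈ U, f G = 0 → G ∈ K) (h2 : ∀ G ∈ U, f G ∈ W) :
    Module.finrank ℂ U ≤ Module.finrank ℂ K + Module.finrank ℂ W := by
  let g : U →ₗ[ℂ] W := (f.comp U.subtype).codRestrict W fun G => h2 G.1 G.2
  have h3 := LinearMap.finrank_range_add_finrank_ker g
  have h4 : Module.finrank ℂ (LinearMap.range g) ≤ Module.finrank ℂ W :=
    Submodule.finrank_le _
  have h5 : Module.finrank ℂ (LinearMap.ker g) ≤ Module.finrank ℂ K := by
    let j : LinearMap.ker g →ₗ[ℂ] K := (U.subtype.comp (LinearMap.ker g).subtype).codRestrict K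
      fun G => h1 G.1.1 G.1.2 (congrArg Subtype.val G.2)
    refine LinearMap.finrank_le_finrank_of_injective (f := j) fun x y hxy => ?_
    have h6 : (j x : Dl ν) = j y := congrArg Subtype.val hxy
    exact Subtype.ext (Subtype.ext h6)
  omega

/-- A vector off the block `i`. -/
theorem kill_pow {N : Type} [AddCommGroup N] [Module ℂ N] {β : ν → ℕ} {i : ℕ} {q : ν → ℂ}
    (hq : ∀ s, β s = i → q s = 0) (Ψ : MvPolynomial ν ℂ →ₗ[ℂ] N)
    (h : ∀ b : ν → ℕ, (∀ s, β s = i → b s = 0) → Ψ (mon ℂ b) = 0) (m : ℕ) (b : ν → ℕ)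
    (hb : ∀ s, β s = i → b s = 0) : Ψ (lf q ^ m * mon ℂ b) = 0 := by
  induction m generalizing b with
  | zero => rw [pow_zero, one_mul]; exact h b hb
  | succ m ih =>
    rw [pow_succ, mul_assoc, lf_mul_mon, mul_sum, map_sum]
    refine sum_eq_zero fun s _ => ?_
    rw [mul_smul_comm, map_smul]
    by_cases hs : q s = 0
    · rw [hs, zero_smul]
    · rw [ih _ fun x hx => ?_, smul_zero]
      have hxs : x ≠ s := by
        rintro rfl
        exact hs (hq x hx)
      rw [Pi.add_apply, hb x hx, Pi.single_eq_of_ne hxs, add_zero]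

/-- Modulo a vector which is killed. -/
theorem ct_add_pow {G : Dl ν} {z : MvPolynomial ν ℂ} (hz : ct z G = 0) (w : MvPolynomial ν ℂ)
    (n : ℕ) : ct ((w + z) ^ n) G = ct (w ^ n) G := by
  induction n with
  | zero => rw [pow_zero, pow_zero]
  | succ n ih =>
    have h1 : ct ((w + z) ^ n * z) G = 0 := by
      rw [ct_mul, hz, map_zero]
    rw [pow_succ, mul_add, ct_add, h1, add_zero, mul_comm, ct_mul, ih, ← ct_mul, pow_succ']

theorem Lv_ct_pow {β : ν → ℕ} {I A : Finset ℕ} {q : ν → ℂ} (hq : ∀ s, β s ∈ A → q s = 0)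
    {k D : ℕ} {Φ : Dl ν} (h : Φ ∈ Lv β (D + k) I) : ct (lf q ^ k) Φ ∈ Lv β D (I ∩ A) := by
  induction k generalizing D with
  | zero =>
    rw [pow_zero, ct_one]
    exact Lv_mono inter_subset_left h
  | succ k ih =>
    rw [pow_succ', ct_mul]
    have h1 : Φ ∈ Lv β (D + 1 + k) I := by
      have e : D + 1 + k = D + (k + 1) := by ring
      rw [e]
      exact h
    have h2 := Lv_ct hq (ih h1)
    rw [inter_assoc, inter_self] at h2
    exact h2

theorem Lv_ct_lt {β : ν → ℕ} {I : Finset ℕ} {q : ν → ℂ} {k D : ℕ} (hk : D < k) {Φ : Dl ν}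
    (h : Φ ∈ Lv β D I) : ct (lf q ^ k) Φ = 0 := by
  obtain ⟨m, rfl⟩ : ∃ m, k = m + (1 + D) := ⟨k - (1 + D), by omega⟩
  have h1 : Φ ∈ Lv β (0 + D) I := by
    rw [zero_add]
    exact h
  have h3 : ct (lf q ^ D) Φ ∈ Lv β 0 (I ∩ ∅) :=
    Lv_ct_pow (fun s hs => absurd hs (notMem_empty (β s))) h1
  have h2 := Lv_zero_ct q h3
  rw [pow_add, pow_add, pow_one, ct_mul, ct_mul, h2, map_zero]

end

section

variable {ν : Type} [Fintype ν] [DecidableEq ν] {d : ℕ}

theorem Sat_ct_pow {β : ν → ℕ} {I A : Finset ℕ} {q : ν → ℂ} (hq : ∀ s, β s ∈ A → q s = 0)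
    {k : Kd} {r : ν × Fin (d + 1) → ℂ} {Φ : Dl ν} (h : Sat β I k r Φ) (n : ℕ) :
    Sat β (I ∩ A) k r (ct (lf q ^ n) Φ) := by
  induction n with
  | zero =>
    rw [pow_zero, ct_one]
    refine ⟨h.1, ?_⟩
    cases k with
    | ord e A' => trivial
    | cl e dl i As => exact fun hi => h.2 (Finset.mem_inter.1 hi).1
  | succ n ih =>
    rw [pow_succ', ct_mul]
    have h2 := Sat_ct hq ih
    rw [inter_assoc, inter_self] at h2
    exact h2

variable (β : ν → ℕ) (I' : Finset ℕ) {κ : Type} (m : κ → Kd) (p : κ → ν × Fin (d + 1) → ℂ)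
  (i E dl : ℕ) (L : List (Finset ℕ)) (a : ℕ → ν → ℂ) (yv zv ζ : ν → ℂ)

/-- The conditions without the additional ones. -/
noncomputable def Yp (s : ℕ) : Submodule ℂ (Dl ν) :=
  XX β s I' m p ⊓ ((⨅ x ∈ range L.length, LinearMap.ker (ct (lf (avl β L a x) ^ (E + 1)))) ⊓
    LinearMap.ker (ct (lf yv)))

/-- The additional conditions. -/
noncomputable def Od : Submodule ℂ (Dl ν) where
  carrier := {G | i ∈ I' → ∀ κ : ℕ, 1 ≤ κ → κ ≤ dl → ∀ b : ν → ℕ, (∀ s, β s = i → b s = 0) →
    G (lf (sv β L a) ^ (L.length * E) * (lf ζ ^ κ * mon ℂ b)) = 0}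
  zero_mem' := fun _ _ _ _ _ _ => rfl
  add_mem' := fun {F G} h h' hi κ h1 h2 b hb => by
    rw [LinearMap.add_apply, h hi κ h1 h2 b hb, h' hi κ h1 h2 b hb, add_zero]
  smul_mem' := fun c G h hi κ h1 h2 b hb => by
    rw [LinearMap.smul_apply, h hi κ h1 h2 b hb, smul_zero]

/-- The space of the contractions. -/
noncomputable def Xp (s : ℕ) : Submodule ℂ (Dl ν) :=
  (⨅ j ∈ range (s + 1), (Yp β I' m p E L a yv (s - j)).comap (ct (lf zv ^ j))) ⊓
    Od β I' i E dl L a ζ

variable {β I' m p i E dl L a yv zv ζ}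

theorem mem_Yp {s : ℕ} {G : Dl ν} : G ∈ Yp β I' m p E L a yv s ↔
    G ∈ XX β s I' m p ∧ (∀ x < L.length, ct (lf (avl β L a x) ^ (E + 1)) G = 0) ∧
      ct (lf yv) G = 0 := by
  unfold Yp
  rw [Submodule.mem_inf, Submodule.mem_inf, Submodule.mem_iInf]
  refine and_congr_right fun _ => and_congr ?_ Iff.rfl
  refine forall_congr' fun x => ?_
  rw [Submodule.mem_iInf, mem_range]
  rfl

theorem mem_Xp {s : ℕ} {G : Dl ν} : G ∈ Xp β I' m p i E dl L a yv zv ζ s ↔
    (∀ j ≤ s, ct (lf zv ^ j) G ∈ Yp β I' m p E L a yv (s - j)) ∧ G ∈ Od β I' i E dl L a ζ := by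
  unfold Xp
  rw [Submodule.mem_inf, Submodule.mem_iInf]
  refine and_congr ?_ Iff.rfl
  refine forall_congr' fun j => ?_
  rw [Submodule.mem_iInf, mem_range, Nat.lt_succ_iff]
  rfl

theorem Xp_le (s : ℕ) : Xp β I' m p i E dl L a yv zv ζ s ≤ Yp β I' m p E L a yv s := by
  intro G hG
  have h1 := (mem_Xp.1 hG).1 0 (Nat.zero_le _)
  rw [pow_zero, ct_one, Nat.sub_zero] at h1
  exact h1

theorem finite_Xp (s : ℕ) : Module.Finite ℂ (Xp β I' m p i E dl L a yv zv ζ s) := by
  have := finite_XX β s I' m p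
  exact Submodule.finiteDimensional_of_le ((Xp_le s).trans inf_le_left)

/-- The power of the sum. -/
theorem Yp_sum {s : ℕ} {G : Dl ν} (h : G ∈ Yp β I' m p E L a yv s) :
    ct (lf (sv β L a) ^ (L.length * E + 1)) G = 0 := by
  have h1 := sum_pow_mem (Ann G) (fun x => lf (avl β L a x)) (range L.length) (E + 1) (by omega)
    (fun x hx g => LinearMap.congr_fun ((mem_Yp.1 h).2.1 x (mem_range.1 hx)) g)
  have h2 : ∑ x ∈ range L.length, lf (avl β L a x) = lf (sv β L a) := (lf_sum _ _).symm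
  rw [h2, card_range, Nat.add_sub_cancel] at h1
  exact LinearMap.ext fun g => h1 g

/-- Contraction by the direction. -/
theorem Xp_ct (hz : ∀ s, β s = i → sv β L a s + zv s = 0) {s : ℕ} {G : Dl ν}
    (h : G ∈ Xp β I' m p i E dl L a yv zv ζ (s + 1)) :
    ct (lf zv) G ∈ Xp β I' m p i E dl L a yv zv ζ s := by
  have h0 := Xp_le _ h
  rw [mem_Xp] at h ⊢
  refine ⟨fun j hj => ?_, ?_⟩
  · have h1 := h.1 (j + 1) (by omega)
    rw [Nat.add_sub_add_right] at h1
    rw [← ct_mul, ← pow_succ]
    exact h1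
  · intro hi κ h1 h2 b hb
    have h3 : lf zv * (lf (sv β L a) ^ (L.length * E) * (lf ζ ^ κ * mon ℂ b)) =
        lf (sv β L a) ^ (L.length * E) * (lf ζ ^ κ * (lf (sv β L a + zv) ^ 1 * mon ℂ b)) -
          lf (sv β L a) ^ (L.length * E + 1) * (lf ζ ^ κ * mon ℂ b) := by
      rw [lf_add, pow_one]
      ring
    rw [ct_apply, h3, map_sub]
    have h4 : G (lf (sv β L a) ^ (L.length * E + 1) * (lf ζ ^ κ * mon ℂ b)) = 0 :=
      LinearMap.congr_fun (Yp_sum h0) _
    rw [h4, sub_zero]
    let Ψ : Dl ν := ct (lf (sv β L a) ^ (L.length * E) * lf ζ ^ κ) G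
    have h5 := kill_pow (β := β) (i := i) (q := sv β L a + zv) (fun s hs => hz s hs) Ψ
      (fun b hb => by
        show G (lf (sv β L a) ^ (L.length * E) * lf ζ ^ κ * mon ℂ b) = 0
        rw [mul_assoc]
        exact h.2 hi κ h1 h2 b hb) 1 b hb
    have h6 : Ψ (lf (sv β L a + zv) ^ 1 * mon ℂ b) = G (lf (sv β L a) ^ (L.length * E) *
        (lf ζ ^ κ * (lf (sv β L a + zv) ^ 1 * mon ℂ b))) := by
      show G (lf (sv β L a) ^ (L.length * E) * lf ζ ^ κ * (lf (sv β L a + zv) ^ 1 * mon ℂ b)) = _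
      rw [mul_assoc]
    rw [← h6]
    exact h5

/-- The recursion. -/
theorem finrank_Xp (hz : ∀ s, β s = i → sv β L a s + zv s = 0) (K : ℕ → Submodule ℂ (Dl ν))
    (hfin : ∀ s, Module.Finite ℂ (K s))
    (hK : ∀ s, ∀ G ∈ Xp β I' m p i E dl L a yv zv ζ s, ct (lf zv) G = 0 → G ∈ K s) (s : ℕ) :
    Module.finrank ℂ (Xp β I' m p i E dl L a yv zv ζ s) ≤
      ∑ j ∈ range (s + 1), Module.finrank ℂ (K j) := by
  induction s with
  | zero =>
    rw [zero_add, sum_range_one]
    have := hfin 0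
    refine Submodule.finrank_mono fun G hG => hK 0 G hG ?_
    exact Lv_zero_ct zv (mem_XX.1 (mem_Yp.1 (Xp_le 0 hG)).1).1
  | succ s ih =>
    rw [sum_range_succ]
    refine le_trans ?_ (le_of_eq (add_comm _ _))
    exact (finrank_le_ker_add (finite_Xp (s + 1)) (hfin (s + 1)) (finite_Xp s) (ct (lf zv))
      (hK (s + 1)) fun G hG => Xp_ct hz hG).trans (Nat.add_le_add_left ih _)

end

end Pool.Agent.GD.AL

end

section

/-!
# General d, ALPHA: the trace on `L_i`

`tri i k`: the objects of the trace on `L_i` of an object `k` (the blocks are not renumbered, the variables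
are `{s // β s ≠ i}`).  `trI i k x`: the `x`-th of these objects, `PsI`: its position.
-/

set_option autoImplicit false
set_option linter.unusedSectionVars false

namespace Pool.Agent.GD.AL

open Finset MvPolynomial Pool.Agent.H51.TB Pool.Agent.V7.ST
open Pool.Agent.V7 (msk)

/-- The trace on `L_i`, without renumbering of the blocks. -/
def tri (i : ℕ) : Kd → Multiset Kd
  | .ord e A => if i ∈ A then {.ord e A} else 0
  | .cl e dl l As =>
      if l = i then {.ord (trx e dl As.length) (inter As)}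
      else if ∀ A ∈ As, i ∈ A then {.cl e dl l As}
      else (((As.filter fun A => i ∈ A).map fun A => Kd.ord e A : List Kd) : Multiset Kd)

/-- The objects of the trace. -/
def trI (i : ℕ) (k : Kd) (x : ℕ) : Option Kd :=
  match k with
  | .ord e A => if x = 0 ∧ i ∈ A then some (.ord e A) else none
  | .cl e dl l As =>
      if l = i then (if x = 0 then some (.ord (trx e dl As.length) (inter As)) else none)
      else if ∀ A ∈ As, i ∈ A then (if x = 0 then some (.cl e dl l As) else none)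
      else if x < As.length ∧ i ∈ As.getD x ∅ then some (.ord e (As.getD x ∅)) else none

/-! ### The multiset -/

private theorem list_sum {α : Type} {β : Type} (f : α → Multiset β) (a : α) (l : List α) :
    ∀ N : ℕ, l.length ≤ N →
      ∑ x : Fin N, (if x.1 < l.length then f (l.getD x.1 a) else 0) = (l.map f).sum := by
  induction l with
  | nil =>
    intro N _
    rw [List.map_nil, List.sum_nil]
    exact sum_eq_zero fun x _ => if_neg (by simp)
  | cons b t ih =>
    intro N hN
    rw [List.length_cons] at hN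
    obtain ⟨M, rfl⟩ : ∃ M, N = M + 1 := ⟨N - 1, by omega⟩
    rw [Fin.sum_univ_succ, List.map_cons, List.sum_cons, ← ih M (by omega)]
    congr 1
    refine sum_congr rfl fun x _ => ?_
    have h1 : (x.succ : Fin (M + 1)).1 < (b :: t).length ↔ x.1 < t.length := by
      rw [List.length_cons, Fin.val_succ]
      omega
    by_cases h : x.1 < t.length
    · rw [if_pos (h1.2 h), if_pos h, Fin.val_succ, List.getD_cons_succ]
    · rw [if_neg (fun h2 => h (h1.1 h2)), if_neg h]

private theorem coe_filter_sum {α β : Type} (p : α → Prop) [DecidablePred p] (f : α → β)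
    (l : List α) : (l.map fun a => if p a then ({f a} : Multiset β) else 0).sum =
      (((l.filter fun a => p a).map f : List β) : Multiset β) := by
  induction l with
  | nil => rfl
  | cons b t ih =>
    rw [List.map_cons, List.sum_cons, ih, List.filter_cons]
    by_cases h : p b
    · rw [if_pos h, if_pos (by simpa using h), List.map_cons]
      rfl
    · rw [if_neg h, if_neg (by simpa using h), zero_add]

private theorem sum_first {β : Type} {N : ℕ} (o : ℕ → Multiset β) (h : ∀ x, x ≠ 0 → o x = 0) :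
    ∑ x : Fin (N + 1), o x.1 = o 0 := by
  rw [Fin.sum_univ_succ]
  have h1 : ∑ x : Fin N, o (x.succ : Fin (N + 1)).1 = 0 :=
    sum_eq_zero fun x _ => h _ (by rw [Fin.val_succ]; omega)
  rw [h1, add_zero]
  rfl

theorem len_le {d e dl L : ℕ} (he : 2 ≤ e) (h : trx e dl L ≤ d) : L ≤ d := by
  unfold trx at h
  have h1 : L * 1 ≤ L * (e - 1) := Nat.mul_le_mul_left _ (by omega)
  omega

private theorem sum_trI {d J i : ℕ} (k : Kd) (h : k.Ok d J) :
    ∑ x : Fin (d + 1), (trI i k x.1).elim 0 (fun k => ({k} : Multiset Kd)) = tri i k := by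
  cases k with
  | ord e A =>
    rw [sum_first (fun x => (trI i (.ord e A) x).elim 0 fun k => ({k} : Multiset Kd))]
    · by_cases hj : i ∈ A
      · simp only [trI, tri, if_pos hj, true_and]
        rfl
      · simp only [trI, tri, if_neg hj, true_and]
        rfl
    · intro x hx
      simp only [trI]
      rw [if_neg fun h => hx h.1]
      rfl
  | cl e dl l As =>
    obtain ⟨he, hL, htr, hi, hA⟩ := h
    by_cases hij : l = i
    · rw [sum_first (fun x => (trI i (.cl e dl l As) x).elim 0 fun k => ({k} : Multiset Kd))]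
      · simp only [trI, tri, if_pos hij, if_true]
        rfl
      · intro x hx
        simp only [trI, if_pos hij, if_neg hx]
        rfl
    · by_cases hall : ∀ A ∈ As, i ∈ A
      · rw [sum_first (fun x => (trI i (.cl e dl l As) x).elim 0 fun k => ({k} : Multiset Kd))]
        · simp only [trI, tri, if_neg hij, if_true]
          rw [if_pos hall, if_pos hall]
          rfl
        · intro x hx
          simp only [trI, if_neg hij, if_neg hx]
          rw [if_pos hall]
          rfl
      · have h1 : ∀ x : Fin (d + 1),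
            (trI i (.cl e dl l As) x.1).elim 0 (fun k => ({k} : Multiset Kd)) =
            if x.1 < As.length then (if i ∈ As.getD x.1 ∅ then
              ({Kd.ord e (As.getD x.1 ∅)} : Multiset Kd) else 0) else 0 := by
          intro x
          simp only [trI, if_neg hij]
          rw [if_neg hall]
          by_cases h1 : x.1 < As.length
          · rw [if_pos h1]
            by_cases h2 : i ∈ As.getD x.1 ∅
            · rw [if_pos h2, if_pos ⟨h1, h2⟩]
              rfl
            · rw [if_neg h2, if_neg fun h => h2 h.2]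
              rfl
          · rw [if_neg h1, if_neg fun h => h1 h.1]
            rfl
        rw [sum_congr rfl fun x _ => h1 x]
        have h2 := list_sum (fun A : Finset ℕ => if i ∈ A then
          ({Kd.ord e A} : Multiset Kd) else 0) ∅ As (d + 1)
          ((len_le he htr).trans (Nat.le_succ d))
        rw [h2, coe_filter_sum (fun A : Finset ℕ => i ∈ A) fun A => Kd.ord e A]
        simp only [tri, if_neg hij]
        rw [if_neg hall]

theorem map_trI {d J i : ℕ} {κ : Type} [Fintype κ] (kk : κ → Kd) (h : ∀ a, (kk a).Ok d J) :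
    (univ : Finset (Sm fun y : κ × Fin (d + 1) => trI i (kk y.1) y.2.1)).val.map
      (Sm.k fun y : κ × Fin (d + 1) => trI i (kk y.1) y.2.1) =
        ((univ : Finset κ).val.map kk).bind (tri i) := by
  rw [map_Sm, Fintype.sum_prod_type, sum_congr rfl fun a _ => sum_trI (kk a) (h a),
    Multiset.bind, Multiset.map_map]
  rfl

/-! ### The positions -/

section

variable {ν : Type} [Fintype ν] [DecidableEq ν] {d : ℕ}

/-- The position of the `x`-th object of the trace. -/
def PsI {R : Type} [CommRing R] (β : ν → ℕ) (i : ℕ) (k : Kd) (x : Fin (d + 1))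
    (q : ν × Fin (d + 1) → R) (δ : {s : ν // β s ≠ i} × Fin (d + 1) → R)
    (z : {s : ν // β s ≠ i} × Fin (d + 1)) : R :=
  match k with
  | .ord _ _ => if z.2 = 0 then q (z.1.1, 0) else δ z
  | .cl e dl l As =>
      if l = i then (if z.2 = 0 ∧ β z.1.1 ∉ inter As then uu β (.cl e dl l As) q z.1.1 else δ z)
      else if ∀ A ∈ As, i ∈ A then q (z.1.1, z.2)
      else if z.2 = 0 ∧ β z.1.1 ∉ As.getD x ∅ then pt β (.cl e dl l As) x q z.1.1
      else δ z

theorem exists_idx {As : List (Finset ℕ)} {A : Finset ℕ} (h : A ∈ As) :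
    ∃ x, x < As.length ∧ As.getD x ∅ = A := by
  obtain ⟨x, hx, hA⟩ := List.getElem_of_mem h
  exact ⟨x, hx, by rw [List.getD_eq_getElem _ _ hx]; exact hA⟩

/-! ### Restriction of functionals -/

/-- The restriction to the polynomials in the variables off the block `i`. -/
noncomputable def rsI (β : ν → ℕ) (i : ℕ) : Dl ν →ₗ[ℂ] Dl {s : ν // β s ≠ i} where
  toFun := fun Φ => Φ ∘ₗ (rename (Subtype.val : {s : ν // β s ≠ i} → ν)).toLinearMap
  map_add' := fun _ _ => rfl
  map_smul' := fun _ _ => rfl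

theorem rsI_apply (β : ν → ℕ) (i : ℕ) (Φ : Dl ν) (P : MvPolynomial {s : ν // β s ≠ i} ℂ) :
    rsI β i Φ P = Φ (rename Subtype.val P) := rfl

theorem not_im' {β : ν → ℕ} {i : ℕ} {s : ν}
    (hs : ¬ ∃ x : {s : ν // β s ≠ i}, x.1 = s) : β s = i := by
  by_contra h
  exact hs ⟨⟨s, h⟩, rfl⟩

theorem ren_lf' {β : ν → ℕ} {i : ℕ} (p : ν → ℂ) (hp : ∀ s, β s = i → p s = 0) :
    rename Subtype.val (lf fun x : {s : ν // β s ≠ i} => p x.1) = lf p :=
  rename_lf' Subtype.val_injective p fun s hs => hp s (not_im' hs)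

theorem rs_pt {β : ν → ℕ} {i : ℕ} {Φ : Dl ν} {E : ℕ} (p : ν → ℂ) (hp : ∀ s, β s = i → p s = 0)
    (h : ∀ y, Φ (lf p ^ E * y) = 0) (y : MvPolynomial {s : ν // β s ≠ i} ℂ) :
    rsI β i Φ (lf (fun x : {s : ν // β s ≠ i} => p x.1) ^ E * y) = 0 := by
  rw [rsI_apply, map_mul, map_pow, ren_lf' p hp]
  exact h _

theorem extend_mem {β : ν → ℕ} {i : ℕ} {D : ℕ} {I : Finset ℕ} (hi : i ∉ I)
    (a : {s : ν // β s ≠ i} → ℕ) : Function.extend Subtype.val a 0 ∈ Ex β D I ↔
      a ∈ Ex (fun s : {s : ν // β s ≠ i} => β s.1) D I := by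
  have hσ : Function.Injective (Subtype.val : {s : ν // β s ≠ i} → ν) := Subtype.val_injective
  rw [mem_Ex, mem_Ex]
  have h1 : ∑ s, Function.extend Subtype.val a 0 s = ∑ x, a x := by
    symm
    refine Fintype.sum_of_injective Subtype.val hσ _ _ ?_ fun x => ?_
    · intro s hs
      exact Function.extend_apply' _ _ _ fun h => hs h
    · rw [hσ.extend_apply]
  rw [h1]
  refine and_congr_right fun _ => ?_
  constructor
  · intro h l hl
    obtain ⟨s, hs, h3⟩ := h l hl
    have h4 : β s ≠ i := fun h => hi (h ▸ hs ▸ hl)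
    have h5 : Function.extend Subtype.val a 0 s = a ⟨s, h4⟩ := hσ.extend_apply a 0 ⟨s, h4⟩
    rw [h5] at h3
    exact ⟨⟨s, h4⟩, hs, h3⟩
  · intro h l hl
    obtain ⟨x, hx, h3⟩ := h l hl
    refine ⟨x.1, hx, ?_⟩
    rw [hσ.extend_apply]
    exact h3

theorem rs_Lv {β : ν → ℕ} {i : ℕ} {D : ℕ} {I : Finset ℕ} (hi : i ∉ I) {Φ : Dl ν}
    (h : Φ ∈ Lv β D I) : rsI β i Φ ∈ Lv (fun s : {s : ν // β s ≠ i} => β s.1) D I := by
  intro b hb
  rw [rsI_apply, rename_mon Subtype.val_injective]
  exact h _ fun h1 => hb ((extend_mem hi b).1 h1)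

/-- The conditions of the trace of an object. -/
def TSat (β : ν → ℕ) (i : ℕ) (I : Finset ℕ) (k : Kd) (q : ν × Fin (d + 1) → ℂ)
    (Φ : Dl {s : ν // β s ≠ i}) : Prop :=
  ∀ (x : Fin (d + 1)) (k' : Kd), trI i k x.1 = some k' →
    ∀ δ, Sat (fun s : {s : ν // β s ≠ i} => β s.1) I k' (PsI β i k x q δ) Φ

/-- The functionals of degree `D` of the level `I` on `L_i` which satisfy the conditions of the traces. -/
noncomputable def TX (β : ν → ℕ) (i D : ℕ) (I : Finset ℕ) {κ : Type} (m : κ → Kd)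
    (p : κ → ν × Fin (d + 1) → ℂ) : Submodule ℂ (Dl {s : ν // β s ≠ i}) :=
  Lv (fun s : {s : ν // β s ≠ i} => β s.1) D I ⊓
    ⨅ a, ⨅ x : Fin (d + 1), ⨅ k' : {k' : Kd // trI i (m a) x.1 = some k'},
      ⨅ δ : {s : ν // β s ≠ i} × Fin (d + 1) → ℂ,
        SatM (fun s : {s : ν // β s ≠ i} => β s.1) I k'.1 (PsI β i (m a) x (p a) δ)

theorem mem_TX {β : ν → ℕ} {i D : ℕ} {I : Finset ℕ} {κ : Type} {m : κ → Kd}
    {p : κ → ν × Fin (d + 1) → ℂ} {Φ : Dl {s : ν // β s ≠ i}} :
    Φ ∈ TX β i D I m p ↔ Φ ∈ Lv (fun s : {s : ν // β s ≠ i} => β s.1) D I ∧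
      ∀ a, TSat β i I (m a) (p a) Φ := by
  unfold TX TSat
  rw [Submodule.mem_inf, Submodule.mem_iInf]
  refine and_congr_right fun _ => forall_congr' fun a => ?_
  rw [Submodule.mem_iInf]
  refine forall_congr' fun x => ?_
  rw [Submodule.mem_iInf, Subtype.forall]
  refine forall_congr' fun k' => forall_congr' fun hk' => ?_
  rw [Submodule.mem_iInf]
  rfl

/-! ### General positions -/

theorem psI_map {R S : Type} [CommRing R] [CommRing S] (g : R →+* S) (β : ν → ℕ) (i : ℕ) (k : Kd)
    (x : Fin (d + 1)) (q : ν × Fin (d + 1) → R) (δ : {s : ν // β s ≠ i} × Fin (d + 1) → R)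
    (z : {s : ν // β s ≠ i} × Fin (d + 1)) :
    g (PsI β i k x q δ z) = PsI β i k x (fun z => g (q z)) (fun z => g (δ z)) z := by
  rcases k with ⟨e, A⟩ | ⟨e, dl, l, As⟩
  · simp only [PsI]
    split_ifs <;> rfl
  · simp only [PsI]
    split_ifs
    · exact uu_map g β _ q _
    · rfl
    · rfl
    · exact pt_map g β _ x q _
    · rfl

/-- The positions of the objects of the trace as polynomials. -/
noncomputable def PhI (β : ν → ℕ) (i : ℕ) {κ : Type} (kk : κ → Kd) (y : κ × Fin (d + 1))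
    (z : {s : ν // β s ≠ i} × Fin (d + 1)) :
    MvPolynomial (((κ × Fin (d + 1)) ⊕ κ) × (ν × Fin (d + 1))) ℂ :=
  PsI β i (kk y.1) y.2 (fun w => MvPolynomial.X (Sum.inr y.1, w))
    (fun w => MvPolynomial.X (Sum.inl y, (w.1.1, w.2))) z

theorem eval_PhI (β : ν → ℕ) (i : ℕ) {κ : Type} (kk : κ → Kd)
    (P : (κ × Fin (d + 1)) ⊕ κ → ν × Fin (d + 1) → ℂ)
    (y : κ × Fin (d + 1)) (z : {s : ν // β s ≠ i} × Fin (d + 1)) :
    MvPolynomial.eval (fun x => P x.1 x.2) (PhI β i kk y z) =
      PsI β i (kk y.1) y.2 (P (Sum.inr y.1)) (fun w => P (Sum.inl y) (w.1.1, w.2)) z := by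
  have h := psI_map
    (MvPolynomial.eval fun x : ((κ × Fin (d + 1)) ⊕ κ) × (ν × Fin (d + 1)) => P x.1 x.2) β i
    (kk y.1) y.2 (fun w => MvPolynomial.X (Sum.inr y.1, w))
    (fun w => MvPolynomial.X (Sum.inl y, (w.1.1, w.2))) z
  simp only [MvPolynomial.eval_X] at h
  exact h

theorem TX_le {D : ℕ} (β : ν → ℕ) (i : ℕ) (I : Finset ℕ) {κ : Type}
    (m : κ → Kd) (P : (κ × Fin (d + 1)) ⊕ κ → ν × Fin (d + 1) → ℂ) :
    TX β i D I m (fun a => P (Sum.inr a)) ≤ XX (fun s : {s : ν // β s ≠ i} => β s.1) D I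
      (Sm.k fun y : κ × Fin (d + 1) => trI i (m y.1) y.2.1)
      (fun y z => MvPolynomial.eval (fun x => P x.1 x.2) (PhI β i m y.1 z)) := by
  intro Φ hΦ
  have h0 := mem_TX.1 hΦ
  refine mem_XX.2 ⟨h0.1, fun y => ?_⟩
  have h1 : ∀ z, MvPolynomial.eval (fun x => P x.1 x.2) (PhI β i m y.1 z) =
      PsI β i (m y.1.1) y.1.2 (P (Sum.inr y.1.1)) (fun w => P (Sum.inl y.1) (w.1.1, w.2)) z :=
    fun z => eval_PhI β i m P y.1 z
  have h2 : trI i (m y.1.1) y.1.2.1 =
      some (Sm.k (fun y : κ × Fin (d + 1) => trI i (m y.1) y.2.1) y) := (Option.some_get y.2).symm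
  have h3 := h0.2 y.1.1 y.1.2 _ h2 (fun w => P (Sum.inl y.1) (w.1.1, w.2))
  have h4 := funext h1
  exact Eq.mpr (congrArg (fun q => Sat (fun s : {s : ν // β s ≠ i} => β s.1) I
    (Sm.k (fun y : κ × Fin (d + 1) => trI i (m y.1) y.2.1) y) q Φ) h4) h3

end

end Pool.Agent.GD.AL

end
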