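import Pool.Agent.H94.LP7.M07
import Pool.Agent.H94.LP7.M12

/-! The parts of this file: GD.AL.KI, GD.AL.AVs, GD.AL.Exc, XE.Thr2. -/

section

/-!
# General d, ALPHA: the kind inequality

`A` = the blocks on which a point of the kind `(K, e)` vanishes, `i ∉ A`, `i ∈ I`, `A' = insert i A`.
`kk d β I ms e A` is the number of conditions which are missing: `dim M_(d-e)^(I ∩ A) - rank`.
`KI`: `c' (kk e A - kk e A') ≤ kk (e-1) A' - kk e A'`.

Proof.  `q'` general of kind `A'`, `z_0, …, z_(c'-1)` general of kind `Az` (`A ⊆ Az`, `i ∉ Az`).  Limits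
`F_0` of forms killed by `(q' - t z)^e`: `q'^(e-1+κ) F_κ = const z^κ q'^(e-1) F_0` (`seq_lim`), so
`z^κ (q'^(e-1) F_0)` lies in the level `I ∩ A'` for all `κ`.  `Btw`: the subspace of these conditions in
`G = X^(I ∩ A')_D ∩ ker q'`, of codimension `Δ = ∑_l (dim (X^(I∩A)_l ∩ ker q') - dim (X^(I∩A')_l ∩ ker q'))`,
also inside the subspace killed by the other `z_b`; `indep`.
-/

set_option autoImplicit false
set_option linter.unusedSectionVars false

namespace Pool.Agent.GD.AL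

open Finset MvPolynomial Pool.Agent.H51.TB Pool.Agent.V7.ST
open Pool.Agent.V7 (msk)

/-! ### Linear algebra -/

section

variable {M : Type} [AddCommGroup M] [Module ℂ M]

theorem rk (U : Submodule ℂ M) [Module.Finite ℂ U] (T : M →ₗ[ℂ] M) :
    Module.finrank ℂ U = Module.finrank ℂ (U.map T) +
      Module.finrank ℂ (U ⊓ LinearMap.ker T : Submodule ℂ M) := by
  have h1 := LinearMap.finrank_range_add_finrank_ker (T.domRestrict U)
  have h2 : LinearMap.range (T.domRestrict U) = U.map T := by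
    ext x
    constructor
    · rintro ⟨y, rfl⟩
      exact ⟨y.1, y.2, rfl⟩
    · rintro ⟨y, hy, rfl⟩
      exact ⟨⟨y, hy⟩, rfl⟩
  have h3 : (LinearMap.ker (T.domRestrict U)).map U.subtype = U ⊓ LinearMap.ker T := by
    ext x
    constructor
    · rintro ⟨y, hy, rfl⟩
      exact ⟨y.2, hy⟩
    · rintro ⟨hx, hx'⟩
      exact ⟨⟨x, hx⟩, hx', rfl⟩
  have h4 : Module.finrank ℂ (LinearMap.ker (T.domRestrict U)) =
      Module.finrank ℂ (U ⊓ LinearMap.ker T : Submodule ℂ M) := by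
    rw [← h3]
    exact (Submodule.equivMapOfInjective _ U.injective_subtype _).finrank_eq
  rw [← h1, h2, h4]

/-- `T^κ g ∈ P2 (j - κ)` for all `κ ≤ j`. -/
def Btw (P2 : ℕ → Submodule ℂ M) (T : M →ₗ[ℂ] M) : ℕ → Submodule ℂ M
  | 0 => P2 0
  | j + 1 => P2 (j + 1) ⊓ (Btw P2 T j).comap T

theorem mem_Btw {P2 : ℕ → Submodule ℂ M} {T : M →ₗ[ℂ] M} {j : ℕ} {g : M} :
    g ∈ Btw P2 T j ↔ ∀ κ ≤ j, (T ^ κ) g ∈ P2 (j - κ) := by
  induction j generalizing g with
  | zero =>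
    constructor
    · intro h κ hκ
      obtain rfl : κ = 0 := Nat.le_zero.1 hκ
      exact h
    · intro h
      exact h 0 le_rfl
  | succ j ih =>
    constructor
    · rintro ⟨h1, h2⟩ κ hκ
      cases κ with
      | zero => exact h1
      | succ κ =>
        rw [pow_succ, Module.End.mul_apply]
        have h3 := ih.1 h2 κ (by omega)
        have e : j + 1 - (κ + 1) = j - κ := by omega
        rw [e]
        exact h3
    · intro h
      refine ⟨h 0 (Nat.zero_le _), ih.2 fun κ hκ => ?_⟩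
      have h1 := h (κ + 1) (by omega)
      rw [pow_succ, Module.End.mul_apply] at h1
      have e : j + 1 - (κ + 1) = j - κ := by omega
      rwa [e] at h1

theorem Btw_le (P2 : ℕ → Submodule ℂ M) (T : M →ₗ[ℂ] M) (j : ℕ) : Btw P2 T j ≤ P2 j := by
  intro g hg
  exact mem_Btw.1 hg 0 (Nat.zero_le _)

end

/-! ### Sequences killed by `(Q - t Z)^e` -/

section

variable {ν : Type} [Fintype ν] [DecidableEq ν]

/-- `(Q - t Z) F` for a series `F`. -/
noncomputable def opS (Q Z : MvPolynomial ν ℂ) (F : ℕ → Dl ν) : ℕ → Dl ν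
  | 0 => ct Q (F 0)
  | n + 1 => ct Q (F (n + 1)) - ct Z (F n)

theorem opS_iter (Q Z : MvPolynomial ν ℂ) (e : ℕ) (F : ℕ → Dl ν) (n : ℕ) :
    ((opS Q Z)^[e] F) n = ∑ x ∈ antidiagonal n,
      ((-1 : ℂ) ^ x.1 * (e.choose x.1 : ℂ)) • ct (Z ^ x.1 * Q ^ (e - x.1)) (F x.2) := by
  induction e generalizing n with
  | zero =>
    rw [Function.iterate_zero, id, sum_eq_single (0, n)]
    · rw [pow_zero, Nat.choose_self, Nat.cast_one, mul_one, one_smul, pow_zero, Nat.sub_self,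
        pow_zero, mul_one, ct_one]
    · rintro ⟨a, b⟩ hab hne
      rw [HasAntidiagonal.mem_antidiagonal] at hab
      have ha : a ≠ 0 := by
        rintro rfl
        apply hne
        rw [zero_add] at hab
        rw [← hab]
      obtain ⟨a, rfl⟩ := Nat.exists_eq_succ_of_ne_zero ha
      rw [Nat.choose_zero_succ, Nat.cast_zero, mul_zero, zero_smul]
    · intro h
      exact absurd (HasAntidiagonal.mem_antidiagonal.2 (zero_add n)) h
  | succ e ih =>
    rw [Function.iterate_succ_apply']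
    have hQ : ∀ l, ct Q (((opS Q Z)^[e] F) l) = ∑ x ∈ antidiagonal l,
        ((-1 : ℂ) ^ x.1 * (e.choose x.1 : ℂ)) • ct (Z ^ x.1 * Q ^ (e + 1 - x.1)) (F x.2) := by
      intro l
      rw [ih, map_sum]
      refine sum_congr rfl fun x _ => ?_
      rw [map_smul]
      by_cases hx : x.1 ≤ e
      · rw [← ct_mul]
        congr 3
        have h1 : e + 1 - x.1 = (e - x.1) + 1 := by omega
        rw [h1, pow_succ]
        ring
      · rw [Nat.choose_eq_zero_of_lt (not_le.1 hx), Nat.cast_zero, mul_zero, zero_smul, zero_smul]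
    cases n with
    | zero =>
      show ct Q (((opS Q Z)^[e] F) 0) = _
      rw [hQ 0]
      refine sum_congr rfl fun x hx => ?_
      rw [HasAntidiagonal.mem_antidiagonal] at hx
      have h1 : x.1 = 0 := by omega
      rw [h1, Nat.choose_zero_right, Nat.choose_zero_right]
    | succ n =>
      show ct Q (((opS Q Z)^[e] F) (n + 1)) - ct Z (((opS Q Z)^[e] F) n) = _
      rw [hQ (n + 1), ih n, map_sum, Finset.Nat.antidiagonal_succ, sum_cons, sum_cons, sum_map,
        sum_map, add_sub_assoc, ← sum_sub_distrib]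
      congr 1
      · rw [Nat.choose_zero_right, Nat.choose_zero_right]
      · refine sum_congr rfl fun x _ => ?_
        show ((-1 : ℂ) ^ (x.1 + 1) * (e.choose (x.1 + 1) : ℂ)) •
            ct (Z ^ (x.1 + 1) * Q ^ (e + 1 - (x.1 + 1))) (F x.2) -
          ct Z (((-1 : ℂ) ^ x.1 * (e.choose x.1 : ℂ)) • ct (Z ^ x.1 * Q ^ (e - x.1)) (F x.2)) =
            ((-1 : ℂ) ^ (x.1 + 1) * ((e + 1).choose (x.1 + 1) : ℂ)) •
              ct (Z ^ (x.1 + 1) * Q ^ (e + 1 - (x.1 + 1))) (F x.2)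
        have h1 : e + 1 - (x.1 + 1) = e - x.1 := by omega
        have h2 : ct Z (ct (Z ^ x.1 * Q ^ (e - x.1)) (F x.2)) =
            ct (Z ^ (x.1 + 1) * Q ^ (e - x.1)) (F x.2) := by
          rw [← ct_mul]
          congr 2
          ring
        rw [h1, map_smul, h2, ← sub_smul, Nat.choose_succ_succ]
        congr 1
        push_cast
        ring

/-- **The limit lemma.** -/
theorem seq_lim (Q Z : MvPolynomial ν ℂ) (e : ℕ) (F : ℕ → Dl ν)
    (h : ∀ n, ((opS Q Z)^[e + 1] F) n = 0) (κ : ℕ) :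
    ct (Q ^ (e + κ)) (F κ) = (Nat.multichoose (e + 1) κ : ℂ) • ct (Z ^ κ * Q ^ e) (F 0) := by
  induction e generalizing F κ with
  | zero =>
    induction κ with
    | zero =>
      rw [Nat.multichoose_zero_right, Nat.cast_one, one_smul, pow_zero, pow_zero, mul_one]
    | succ κ ih =>
      have h1 : ct Q (F (κ + 1)) - ct Z (F κ) = 0 := h (κ + 1)
      rw [Nat.zero_add] at ih ⊢
      rw [Nat.multichoose_one, Nat.cast_one, one_smul, pow_zero, mul_one] at ih ⊢
      rw [pow_succ, ct_mul, sub_eq_zero.1 h1, ct_comm, ih, ← ct_mul]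
      congr 2
      ring
  | succ e ih =>
    have h0 : ∀ n, ((opS Q Z)^[e + 1] (opS Q Z F)) n = 0 := by
      intro n
      rw [← Function.iterate_succ_apply]
      exact h n
    have h1 := ih (opS Q Z F) h0
    have h2 : ∀ κ, ct (Z ^ κ * Q ^ e) (opS Q Z F 0) = ct (Z ^ κ * Q ^ (e + 1)) (F 0) := by
      intro κ
      show ct (Z ^ κ * Q ^ e) (ct Q (F 0)) = _
      rw [← ct_mul]
      congr 2
      ring
    induction κ with
    | zero =>
      rw [Nat.multichoose_zero_right, Nat.cast_one, one_smul, pow_zero, one_mul, add_zero]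
    | succ κ ihκ =>
      have h3 := h1 (κ + 1)
      rw [h2] at h3
      have h4 : opS Q Z F (κ + 1) = ct Q (F (κ + 1)) - ct Z (F κ) := rfl
      rw [h4, map_sub, sub_eq_iff_eq_add] at h3
      have h5 : ct (Q ^ (e + 1 + (κ + 1))) (F (κ + 1)) =
          ct (Q ^ (e + (κ + 1))) (ct Q (F (κ + 1))) := by
        rw [← ct_mul]
        congr 2
        ring
      have h6 : ct (Q ^ (e + (κ + 1))) (ct Z (F κ)) = ct Z (ct (Q ^ (e + 1 + κ)) (F κ)) := by
        rw [ct_comm]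
        congr 2
        have : e + (κ + 1) = e + 1 + κ := by ring
        rw [this]
      rw [h5, h3, h6, ihκ, map_smul, ← ct_mul]
      have h7 : Z * (Z ^ κ * Q ^ (e + 1)) = Z ^ (κ + 1) * Q ^ (e + 1) := by ring
      rw [h7, ← add_smul, Nat.multichoose_succ_succ (e + 1) κ]
      congr 1
      push_cast
      ring

end

end Pool.Agent.GD.AL

end

section

/-!
# General d, ALPHA: random replacement, unconditional form (helper60, note 4258)

`avs`: for all `ν`, `β`, all configurations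
`c HI_D(S + (e, A)) ≤ (c - 1) HI_D(S + (e, A')) + HI_D(S + (e - 1, A')) + gz D' c + ∑_{t=1..c} ∑_{s<D'} gz s t`,
`A' = insert i A`, `D' = D + 1 - e`, `gz` on the level `I ∩ A'`.
`avb'`: for the differences `dl`, only upper bounds for the lower degrees are needed.
-/

set_option autoImplicit false
set_option linter.unusedSectionVars false

namespace Pool.Agent.GD.AL

open Finset MvPolynomial Pool.Agent.H51.TB Pool.Agent.V7.ST

section

variable {M : Type} [AddCommGroup M] [Module ℂ M]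

/-- `⨅_{b < n} U b ⊓ E`. -/
def CapU (E : Submodule ℂ M) (U : ℕ → Submodule ℂ M) : ℕ → Submodule ℂ M
  | 0 => E
  | a + 1 => CapU E U a ⊓ U a

theorem mem_CapU {E : Submodule ℂ M} {U : ℕ → Submodule ℂ M} {n : ℕ} {x : M} :
    x ∈ CapU E U n ↔ x ∈ E ∧ ∀ b < n, x ∈ U b := by
  induction n with
  | zero => exact ⟨fun h => ⟨h, fun b hb => absurd hb (Nat.not_lt_zero b)⟩, fun h => h.1⟩
  | succ n ih =>
    constructor
    · rintro ⟨h1, h2⟩
      obtain ⟨h3, h4⟩ := ih.1 h1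
      refine ⟨h3, fun b hb => ?_⟩
      rcases Nat.lt_succ_iff_lt_or_eq.1 hb with h5 | rfl
      · exact h4 b h5
      · exact h2
    · rintro ⟨h1, h2⟩
      exact ⟨ih.2 ⟨h1, fun b hb => h2 b (by omega)⟩, h2 n (by omega)⟩

/-- The codimension of an intersection is at most the sum of the codimensions. -/
theorem sum_inf_le (E : Submodule ℂ M) [Module.Finite ℂ E] (U : ℕ → Submodule ℂ M) (n : ℕ) :
    ∑ b ∈ range n, (Module.finrank ℂ (E ⊓ U b : Submodule ℂ M) : ℤ) ≤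
      ((n : ℤ) - 1) * Module.finrank ℂ E + Module.finrank ℂ (CapU E U n) := by
  induction n with
  | zero =>
    rw [sum_range_zero]
    show (0 : ℤ) ≤ ((0 : ℕ) - 1) * Module.finrank ℂ E + Module.finrank ℂ E
    push_cast
    linarith
  | succ n ih =>
    rw [sum_range_succ]
    have hC : CapU E U n ≤ E := fun x hx => (mem_CapU.1 hx).1
    have f1 : Module.Finite ℂ (CapU E U n) := Submodule.finiteDimensional_of_le hC
    have f2 : Module.Finite ℂ (E ⊓ U n : Submodule ℂ M) :=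
      Submodule.finiteDimensional_of_le inf_le_left
    have h1 := Submodule.finrank_sup_add_finrank_inf_eq (CapU E U n) (E ⊓ U n)
    have h2 : Module.finrank ℂ (CapU E U n ⊔ (E ⊓ U n) : Submodule ℂ M) ≤ Module.finrank ℂ E :=
      Submodule.finrank_mono (sup_le hC inf_le_left)
    have h3 : CapU E U n ⊓ (E ⊓ U n) = CapU E U (n + 1) := by
      ext x
      rw [Submodule.mem_inf, Submodule.mem_inf]
      constructor
      · rintro ⟨h4, -, h5⟩
        exact ⟨h4, h5⟩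
      · rintro ⟨h4, h5⟩
        exact ⟨h4, hC h4, h5⟩
    rw [h3] at h1
    push_cast
    have h4 : (Module.finrank ℂ (CapU E U n) : ℤ) + Module.finrank ℂ (E ⊓ U n : Submodule ℂ M) ≤
      Module.finrank ℂ E + Module.finrank ℂ (CapU E U (n + 1)) := by
      have h5 : Module.finrank ℂ (CapU E U n) + Module.finrank ℂ (E ⊓ U n : Submodule ℂ M) ≤
        Module.finrank ℂ E + Module.finrank ℂ (CapU E U (n + 1)) := by omega
      exact_mod_cast h5
    linarith

/-- The dimension of `Btw` is at most the sum of the dimensions of the kernels. -/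
theorem Btw_sum (P2 : ℕ → Submodule ℂ M) (T : M →ₗ[ℂ] M) (h2 : ∀ j, Module.Finite ℂ (P2 j)) (j : ℕ) :
    Module.finrank ℂ (Btw P2 T j) ≤ Module.finrank ℂ (P2 0) +
      ∑ s ∈ range j, Module.finrank ℂ (P2 (s + 1) ⊓ LinearMap.ker T : Submodule ℂ M) := by
  induction j with
  | zero => rw [sum_range_zero, add_zero]; exact le_rfl
  | succ j ih =>
    rw [sum_range_succ]
    have f1 : Module.Finite ℂ (Btw P2 T (j + 1)) :=
      have := h2 (j + 1)
      Submodule.finiteDimensional_of_le (Btw_le P2 T (j + 1))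
    have f2 : Module.Finite ℂ (Btw P2 T j) :=
      have := h2 j
      Submodule.finiteDimensional_of_le (Btw_le P2 T j)
    have f3 : Module.Finite ℂ (P2 (j + 1) ⊓ LinearMap.ker T : Submodule ℂ M) :=
      have := h2 (j + 1)
      Submodule.finiteDimensional_of_le inf_le_left
    have h3 := rk (Btw P2 T (j + 1)) T
    have h4 : (Btw P2 T (j + 1)).map T ≤ Btw P2 T j := by
      rintro x ⟨y, hy, rfl⟩
      exact hy.2
    have h5 := Submodule.finrank_mono h4
    have h6 : Btw P2 T (j + 1) ⊓ LinearMap.ker T ≤ P2 (j + 1) ⊓ LinearMap.ker T :=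
      inf_le_inf_right _ (Btw_le P2 T (j + 1))
    have h7 := Submodule.finrank_mono h6
    omega

end

section

variable {ν : Type} [Fintype ν] [DecidableEq ν] {d : ℕ}

end

end Pool.Agent.GD.AL

end

section

/-!
# General d, ALPHA: the exact states
-/

set_option autoImplicit false

namespace Pool.Agent.GD.AL

open Finset

section Exc

variable {d J D D₁ : ℕ} {σ τ : St} {I I₂ : Finset ℕ} {c0 : ℕ → ℕ} {n0 : ℕ} {η η' : ℝ}

theorem nz_nonneg' (c0 : ℕ → ℕ) (n0 : ℕ) (I : Finset ℕ) (D : ℕ) : 0 ≤ nz c0 n0 I D := by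
  unfold nz
  positivity

theorem nz_pos' {c0 : ℕ → ℕ} {n0 : ℕ} {I : Finset ℕ} (D : ℕ) (hc : ∀ l ∈ I, 0 < c0 l)
    (hn : 0 < n0) : 0 < nz c0 n0 I D := by
  unfold nz
  refine mul_pos (prod_pos fun l hl => ?_) (pow_pos ?_ _)
  · exact_mod_cast hc l hl
  · exact_mod_cast hn

theorem nz_erase' (c0 : ℕ → ℕ) (n0 : ℕ) {I : Finset ℕ} {a : ℕ} (ha : a ∈ I) (D : ℕ) :
    nz c0 n0 I (D + 1) = c0 a * nz c0 n0 (I.erase a) D := by
  unfold nz
  rw [← mul_prod_erase I (fun i => (c0 i : ℝ)) ha, card_erase_of_mem ha]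
  have h1 : 0 < I.card := card_pos.2 ⟨a, ha⟩
  have h2 : D + 1 - I.card = D - (I.card - 1) := by omega
  rw [h2]
  ring

theorem nz_succ' (c0 : ℕ → ℕ) (n0 : ℕ) {I : Finset ℕ} {D : ℕ} (h : I.card ≤ D) :
    nz c0 n0 I (D + 1) = n0 * nz c0 n0 I D := by
  unfold nz
  have h2 : D + 1 - I.card = (D - I.card) + 1 := by omega
  rw [h2, pow_succ]
  ring

theorem card_tr {I I' I'' : Finset ℕ} :
    (I \ I'').card ≤ (I \ I').card + (I' \ I'').card := by
  refine le_trans (card_le_card ?_) (card_union_le _ _)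
  intro x hx
  rw [mem_sdiff] at hx
  rw [mem_union, mem_sdiff, mem_sdiff]
  by_cases h : x ∈ I'
  · exact Or.inr ⟨h, hx.2⟩
  · exact Or.inl ⟨hx.1, h⟩

theorem pos_sub {I' : Finset ℕ} {D' : ℕ} (hI' : I' ⊆ I) (h : D' + (I \ I').card ≤ D)
    (hp : Pos J c0 n0 η σ I D) : Pos J c0 n0 η σ I' D' := by
  intro I'' hI'' D'' h1 h2
  refine hp I'' (hI''.trans hI') D'' h1 ?_
  have h3 := card_tr (I := I) (I' := I') (I'' := I'')
  omega

theorem lo_lo (σ : St) (a t : ℕ) : (σ.lo a t).lo a 1 = σ.lo a (t + 1) := by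
  unfold St.lo
  simp only [Function.update_self, Function.update_idem, Nat.sub_sub]

theorem lw_zero (σ : St) : σ.lw 0 = σ := rfl

theorem exc_real {ε κ s0 s1 c' : ℝ} (hε : 0 < ε) (hε1 : ε ≤ 1 / 8) (hκ0 : 0 < κ)
    (hs0n : 0 ≤ s0) (hs0e : 8 * s0 ≤ ε * κ) (hc0 : 0 ≤ c') (hc2 : (1 - ε) * s1 < (c' + 1) * κ)
    (hc6 : 1 ≤ ε * c') : s1 - s0 ≤ (1 + 3 * ε) * c' * (κ - s0) := by
  have h1ε : 0 < 1 - ε := by linarith only [hε, hε1]
  have hc7 : (c' + 1) ≤ (1 + ε) * c' := by linarith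
  have h1 : (1 - ε) * s1 ≤ (1 + ε) * c' * κ :=
    hc2.le.trans (mul_le_mul_of_nonneg_right hc7 hκ0.le)
  have h3 : c' * (κ * (1 - ε / 8)) ≤ c' * (κ - s0) :=
    mul_le_mul_of_nonneg_left (by linarith only [hs0e]) hc0
  have h4 : 0 ≤ (1 - ε) * (1 + 3 * ε) := mul_nonneg h1ε.le (by linarith only [hε, hε1])
  have h5 : (1 + ε) ≤ (1 - ε) * (1 + 3 * ε) * (1 - ε / 8) := by
    nlinarith [mul_nonneg hε.le (by linarith only [hε1] : (0 : ℝ) ≤ 1 / 8 - ε),
      mul_nonneg (mul_nonneg hε.le hε.le) (by linarith : (0 : ℝ) ≤ 1 / 8 - ε)]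
  have hck : 0 ≤ c' * κ := mul_nonneg hc0 hκ0.le
  have h2 : (1 + ε) * (c' * κ) ≤ (1 - ε) * ((1 + 3 * ε) * (c' * (κ - s0))) := by
    calc (1 + ε) * (c' * κ) ≤ ((1 - ε) * (1 + 3 * ε) * (1 - ε / 8)) * (c' * κ) :=
          mul_le_mul_of_nonneg_right h5 hck
      _ = (1 - ε) * (1 + 3 * ε) * (c' * (κ * (1 - ε / 8))) := by ring
      _ ≤ (1 - ε) * (1 + 3 * ε) * (c' * (κ - s0)) := mul_le_mul_of_nonneg_left h3 h4
      _ = _ := by ring
  have h6 : (1 - ε) * (s1 - s0) ≤ (1 - ε) * ((1 + 3 * ε) * c' * (κ - s0)) := by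
    have h7 : (1 - ε) * (s1 - s0) ≤ (1 - ε) * s1 :=
      mul_le_mul_of_nonneg_left (by linarith only [hs0n]) h1ε.le
    calc (1 - ε) * (s1 - s0) ≤ (1 - ε) * s1 := h7
      _ ≤ (1 + ε) * c' * κ := h1
      _ = (1 + ε) * (c' * κ) := by ring
      _ ≤ (1 - ε) * ((1 + 3 * ε) * (c' * (κ - s0))) := h2
      _ = _ := by ring
  exact le_of_mul_le_mul_left h6 h1ε

theorem exists_K (d : ℕ) {η ϖ ε : ℝ} (hη : 0 < η) (hϖ : 0 < ϖ) (hε : 0 < ε) :
    ∃ K : ℝ, 4 * (d + 1) / (ε * η / 4) + 4 ≤ K ∧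
      8 ≤ K * (ε * η) ∧ 4 ≤ K * ϖ ∧ 8 ≤ K * η ∧ 4 ≤ K := by
  have hρ : 0 < ε * η := mul_pos hε hη
  have k1 : 0 ≤ 4 * ((d : ℝ) + 1) / (ε * η / 4) := by positivity
  have k2 : 0 ≤ 8 / (ε * η) := by positivity
  have k3 : 0 ≤ 4 / ϖ := by positivity
  have k4 : 0 ≤ 8 / η := by positivity
  refine ⟨4 * (d + 1) / (ε * η / 4) + 4 + 8 / (ε * η) + 4 / ϖ + 8 / η, by linarith only [k2, k3, k4], ?_, ?_, ?_,
    by linarith only [k1, k2, k3, k4]⟩
  · rw [← div_le_iff₀ hρ]
    linarith only [k1, k3, k4]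
  · rw [← div_le_iff₀ hϖ]
    linarith only [k1, k2, k4]
  · rw [← div_le_iff₀ hη]
    linarith only [k1, k2, k3]

theorem inO_lo {ϖ ε : ℝ} (hϖ : 0 < ϖ) (hε : 0 < ε) (hε1 : ε ≤ 1 / 8) {a : ℕ} (haJ : a < J)
    (ho : InO d J c0 n0 ϖ I σ) (hϖn : 4 ≤ ϖ * n0) {t s : ℕ} (ht : (t : ℝ) ≤ (1 - ε) * σ.c a)
    (hs : s ≤ 1) : InO d J c0 n0 (ε * ϖ / 2) I ((σ.lo a t).lw s) := by
  have hca0 : (0 : ℝ) ≤ σ.c a := Nat.cast_nonneg _
  have hta : t ≤ σ.c a := by
    have h1 : (t : ℝ) ≤ σ.c a := by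
      have h2 : (1 - ε) * σ.c a ≤ 1 * σ.c a := mul_le_mul_of_nonneg_right (by linarith only [hε]) hca0
      linarith only [ht, h2]
    exact_mod_cast h1
  have hw1 : (1 : ℝ) ≤ σ.w := by
    have h1 := ho.w
    linarith only [hε, hε1, hϖn, h1]
  have hw : 1 ≤ σ.w := by exact_mod_cast hw1
  refine ⟨fun l => ?_, fun l hl => ?_, ?_, ?_, ho.adm⟩
  · show Function.update σ.c a (σ.c a - t) l ≤ c0 l
    by_cases hla : l = a
    · subst hla
      rw [Function.update_self]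
      exact (Nat.sub_le _ _).trans (ho.c l)
    · rw [Function.update_of_ne hla]
      exact ho.c l
  · show ε * ϖ / 2 * c0 l ≤ ((Function.update σ.c a (σ.c a - t) l : ℕ) : ℝ)
    have h1 := ho.c' l hl
    have h2 : (0 : ℝ) ≤ c0 l := Nat.cast_nonneg _
    by_cases hla : l = a
    · subst hla
      rw [Function.update_self, Nat.cast_sub hta]
      have h3 : ε * (ϖ * c0 l) ≤ ε * σ.c l := mul_le_mul_of_nonneg_left h1 hε.le
      have h4 : 0 ≤ ε * (ϖ * c0 l) := by positivity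
      have h5 : ε * ϖ / 2 * c0 l = ε * (ϖ * c0 l) / 2 := by ring
      rw [h5]
      linarith only [ht, h3, h4]
    · rw [Function.update_of_ne hla]
      have h4 : 0 ≤ ϖ * c0 l := by positivity
      have h5 : ε * (ϖ * c0 l) ≤ 1 / 8 * (ϖ * c0 l) := mul_le_mul_of_nonneg_right hε1 h4
      have h6 : ε * ϖ / 2 * c0 l = ε * (ϖ * c0 l) / 2 := by ring
      rw [h6]
      linarith only [h1, h5]
  · have h1 := St.n_lo σ haJ hta
    have h2 := St.n_lw (J := J) (σ.lo a t) (s := s) (show s ≤ σ.w by omega)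
    have h3 := ho.n
    omega
  · show ε * ϖ / 2 * n0 ≤ ((σ.w - s : ℕ) : ℝ)
    rw [Nat.cast_sub (by omega)]
    have h1 := ho.w
    have h3 : (s : ℝ) ≤ 1 := by exact_mod_cast hs
    have h5 : ε * (ϖ * n0) ≤ 1 / 8 * (ϖ * n0) := mul_le_mul_of_nonneg_right hε1 (by linarith only [hε, hε1, hϖn])
    have h6 : ε * ϖ / 2 * n0 = ε * (ϖ * n0) / 2 := by ring
    rw [h6]
    linarith only [hε, hε1, hϖn, h1, h3, h5]

end Exc

end Pool.Agent.GD.AL

end

section

/-!
# XE, module N: the thresholds, with room below `m`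

From `Pool.Agent.XD.thr` (`IH` = `xd`), at `m` for exactness, `small`; and at `m' = m - (d + 3) s - 1`, `s = ⌊θ m⌋`, `θ`
small depending on `η`, `d`, for the `τ` (`n = m`; `A e m' t j ≥ A e m t j - ((d+3) s + 1) m^(j-1) ≥ (η/2) m^j`).  `recu`
for `i ≥ m'`: exactness (`xd`) and `A_pascal`.  `Gn.half`, `Gn.incr`: `F i t j = A e i t j`,
`A e i t j - A e (i - s) t j = ∑_{i - s < l ≤ i} A e l t (j - 1)`, `(η/2) m^(j-1) ≤ A e l t (j-1) ≤ m^(j-1)`.
-/

set_option autoImplicit false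

namespace Pool.Agent.XE

open Finset Pool.Agent.XD

/-- One variable less costs at most `m^j`. -/
private theorem T2_low {e : ℕ → ℕ} (he : ∀ t, 1 ≤ e t) {d m t : ℕ} {η : ℝ} (hη : 0 < η)
    (hA : ∀ j < d, η * (m : ℝ) ^ j ≤ (A e m t j : ℝ)) (k : ℕ) (hkm : k ≤ m)
    (hk : (k : ℝ) ≤ η / 2 * m) : ∀ j, j + 1 < d →
      η * (m : ℝ) ^ (j + 1) - k * (m : ℝ) ^ j ≤ (A e (m - k) t (j + 1) : ℝ) := by
  induction k with
  | zero =>
    intro j hj
    have h1 := hA (j + 1) hj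
    simpa using h1
  | succ k ih =>
    intro j hj
    have hk' : (k : ℝ) ≤ η / 2 * m := by
      push_cast at hk
      linarith only [hk]
    have ih' := ih (by omega) hk'
    have hpos : ∀ l < j, 0 ≤ A e (m - k) t l := by
      intro l hl
      rcases l with _ | l
      · rw [A_deg_zero he]
        norm_num
      · have h1 := ih' l (by omega)
        have h2 : (k : ℝ) * (m : ℝ) ^ l ≤ η / 2 * m * (m : ℝ) ^ l :=
          mul_le_mul_of_nonneg_right hk' (by positivity)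
        have h3 : (0 : ℝ) ≤ η * (m : ℝ) ^ (l + 1) := by positivity
        have h4 : (0 : ℝ) ≤ (A e (m - k) t (l + 1) : ℝ) := by
          rw [pow_succ] at h1 h3
          nlinarith only [h1, h2, h3]
        exact_mod_cast h4
    have h1 := ih' j hj
    have h2 : A e (m - k) t (j + 1) = A e (m - (k + 1)) t (j + 1) + A e (m - k) t j := by
      have h3 := A_pascal he (m - (k + 1)) t j
      rwa [show m - (k + 1) + 1 = m - k by omega] at h3
    have h3 : A e (m - k) t j ≤ ((m - k : ℕ) : ℤ) ^ j := A_le_pow he hpos le_rfl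
    have h4 : (A e (m - k) t j : ℝ) ≤ (m : ℝ) ^ j := by
      have h5 : (A e (m - k) t j : ℝ) ≤ ((m - k : ℕ) : ℝ) ^ j := by exact_mod_cast h3
      refine h5.trans (pow_le_pow_left₀ (Nat.cast_nonneg _) ?_ j)
      exact_mod_cast Nat.sub_le m k
    have h5 : (A e (m - k) t (j + 1) : ℝ) = (A e (m - (k + 1)) t (j + 1) : ℝ) +
        (A e (m - k) t j : ℝ) := by exact_mod_cast h2
    push_cast
    linarith only [h1, h4, h5]

/-- The bounds near `m`. -/
theorem T2_bd {e : ℕ → ℕ} (he : ∀ t, 1 ≤ e t) {d m t : ℕ} {η : ℝ} (hη : 0 < η)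
    (hA : ∀ j < d, η * (m : ℝ) ^ j ≤ (A e m t j : ℝ)) {K : ℕ} (hKm : K ≤ m)
    (hK : (K : ℝ) ≤ η / 2 * m) {i : ℕ} (hi : m ≤ i + K) (him : i ≤ m) {j : ℕ} (hj : j < d) :
    η / 2 * (m : ℝ) ^ j ≤ (A e i t j : ℝ) ∧ (A e i t j : ℝ) ≤ (m : ℝ) ^ j := by
  have hlow : ∀ l < d, η / 2 * (m : ℝ) ^ l ≤ (A e i t l : ℝ) := by
    intro l hl
    rcases l with _ | l
    · have h1 := hA 0 (by omega)
      rw [A_deg_zero he] at h1 ⊢
      norm_num at h1 ⊢
      linarith only [h1]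
    · have hk : ((m - i : ℕ) : ℝ) ≤ η / 2 * m := by
        refine le_trans ?_ hK
        exact_mod_cast (by omega : m - i ≤ K)
      have h1 := T2_low he hη hA (m - i) (by omega) hk l hl
      rw [show m - (m - i) = i by omega] at h1
      have h2 : ((m - i : ℕ) : ℝ) * (m : ℝ) ^ l ≤ η / 2 * m * (m : ℝ) ^ l :=
        mul_le_mul_of_nonneg_right hk (by positivity)
      rw [pow_succ] at h1 ⊢
      nlinarith only [h1, h2]
  refine ⟨hlow j hj, ?_⟩
  have h1 : A e i t j ≤ (i : ℤ) ^ j := by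
    refine A_le_pow he (D := j) (fun l hl => ?_) le_rfl
    have h2 := hlow l (by omega)
    have h3 : (0 : ℝ) ≤ η / 2 * (m : ℝ) ^ l := by positivity
    exact_mod_cast h3.trans h2
  have h2 : (A e i t j : ℝ) ≤ (i : ℝ) ^ j := by exact_mod_cast h1
  refine h2.trans (pow_le_pow_left₀ (Nat.cast_nonneg _) ?_ j)
  exact_mod_cast him

/-- The increments near `m`. -/
theorem T2_incr {e : ℕ → ℕ} (he : ∀ t, 1 ≤ e t) {d m t : ℕ} {η : ℝ} (hη : 0 < η)
    (hA : ∀ j < d, η * (m : ℝ) ^ j ≤ (A e m t j : ℝ)) {K : ℕ} (hKm : K ≤ m)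
    (hK : (K : ℝ) ≤ η / 2 * m) {i : ℕ} (hi : m ≤ i + K) {j : ℕ} (hj : j + 1 < d) (g : ℕ)
    (hg : i + g ≤ m) :
    g * (η / 2 * (m : ℝ) ^ j) ≤ (A e (i + g) t (j + 1) : ℝ) - (A e i t (j + 1) : ℝ) ∧
      (A e (i + g) t (j + 1) : ℝ) - (A e i t (j + 1) : ℝ) ≤ g * (m : ℝ) ^ j := by
  induction g with
  | zero => simp
  | succ g ih =>
    obtain ⟨h1, h2⟩ := ih (by omega)
    have h3 : (A e (i + (g + 1)) t (j + 1) : ℝ) = (A e (i + g) t (j + 1) : ℝ) +
        (A e (i + (g + 1)) t j : ℝ) := by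
      exact_mod_cast A_pascal he (i + g) t j
    obtain ⟨h4, h5⟩ := T2_bd he hη hA hKm hK (i := i + (g + 1)) (by omega) hg
      (show j < d by omega)
    rw [h3]
    push_cast
    constructor <;> linarith only [h1, h4, h2, h5]

theorem T2_one {d : ℕ} (hd : 1 ≤ d) {e : ℕ → ℕ} {F : ℕ → ℕ → ℕ → ℕ} (he : ∀ t, 2 ≤ e t)
    (hF : Sys d e F) (m t : ℕ) : F m t 1 = m := by
  have he1 : ∀ t, 1 ≤ e t := fun t => (he t).trans' (by norm_num)
  induction t with
  | zero => rw [hF.zero m 1 hd, Nat.multichoose_one_right]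
  | succ t ih =>
    have h2 := he t
    rw [hF.skip he1 m t hd (by omega)]
    exact ih

end Pool.Agent.XE

end
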