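import Pool.Agent.H94.LP7.M28
import Pool.Agent.H94.LP7.M37
import Pool.Agent.H94.LP7.M40
import Pool.Agent.H94.LP7.M41

/-! The parts of this file: GD.AL.KIm, GD.AL.AVs_1. -/

section

/-!
# General d, ALPHA: the kind inequality, main theorem (see `KI.lean`)
-/

set_option autoImplicit false
set_option linter.unusedSectionVars false

namespace Pool.Agent.GD.AL

open Finset MvPolynomial Pool.Agent.H51.TB Pool.Agent.V7.ST
open Pool.Agent.V7 (msk)

section

variable {ν : Type} [Fintype ν] [DecidableEq ν] {d : ℕ}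

/-- The part of `U` killed by `Q` and by `Z 0, …, Z (a - 1)`. -/
noncomputable def KX (Q : MvPolynomial ν ℂ) (Z : ℕ → MvPolynomial ν ℂ) (a : ℕ)
    (U : Submodule ℂ (Dl ν)) : Submodule ℂ (Dl ν) :=
  U ⊓ (LinearMap.ker (ct Q) ⊓ ⨅ b ∈ range a, LinearMap.ker (ct (Z b)))

theorem mem_KX {Q : MvPolynomial ν ℂ} {Z : ℕ → MvPolynomial ν ℂ} {a : ℕ}
    {U : Submodule ℂ (Dl ν)} {Φ : Dl ν} :
    Φ ∈ KX Q Z a U ↔ Φ ∈ U ∧ ct Q Φ = 0 ∧ ∀ b < a, ct (Z b) Φ = 0 := by
  unfold KX
  rw [Submodule.mem_inf, Submodule.mem_inf, LinearMap.mem_ker]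
  simp only [Submodule.mem_iInf, mem_range, LinearMap.mem_ker]

theorem KX_succ {Q : MvPolynomial ν ℂ} {Z : ℕ → MvPolynomial ν ℂ} {a : ℕ}
    {U : Submodule ℂ (Dl ν)} : KX Q Z (a + 1) U = KX Q Z a U ⊓ LinearMap.ker (ct (Z a)) := by
  ext Φ
  rw [Submodule.mem_inf, mem_KX, mem_KX, LinearMap.mem_ker]
  constructor
  · rintro ⟨h1, h2, h3⟩
    exact ⟨⟨h1, h2, fun b hb => h3 b (by omega)⟩, h3 a (by omega)⟩
  · rintro ⟨⟨h1, h2, h3⟩, h4⟩
    refine ⟨h1, h2, fun b hb => ?_⟩
    rcases Nat.lt_succ_iff_lt_or_eq.1 hb with h5 | rfl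
    · exact h3 b h5
    · exact h4

theorem KX_le {Q : MvPolynomial ν ℂ} {Z : ℕ → MvPolynomial ν ℂ} {a : ℕ}
    {U : Submodule ℂ (Dl ν)} : KX Q Z a U ≤ U := inf_le_left

/-- The dimensions of the part killed by one point of exponent `1` of the kind `A` and by `a` points of
exponent `1` of the kind `Az`. -/
noncomputable def gz (d : ℕ) (β : ν → ℕ) (ms : Multiset Kd) (A Az : Finset ℕ) (j : ℕ)
    (I : Finset ℕ) (a : ℕ) : ℕ :=
  HI d j β I (Kd.ord 1 A ::ₘ (Multiset.replicate a (Kd.ord 1 Az) + ms))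

/-- Positions which are general for all the configurations which are used. -/
theorem exists_pos {D D' e c' : ℕ} (hD : D ≤ d) (hD' : D' ≤ d) (β : ν → ℕ) (I I1 I2 A' Az : Finset ℕ)
    {κ : Type} [Fintype κ] (m : κ → Kd) (ms : Multiset Kd) (hm : (univ : Finset κ).val.map m = ms) :
    ∃ (p : κ → ν × Fin (d + 1) → ℂ) (q : ν × Fin (d + 1) → ℂ) (z : Fin c' → ν × Fin (d + 1) → ℂ),
      (∀ x, x = e ∨ x = e - 1 →
        Module.finrank ℂ (XX β D I m p ⊓ LinearMap.ker (ct (lf (opt β A' q) ^ x)) :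
          Submodule ℂ (Dl ν)) = HI d D β I (Kd.ord x A' ::ₘ ms)) ∧
      (∀ I', I' = I1 ∨ I' = I2 → ∀ a (ha : a ≤ c'), ∀ j ≤ D',
        Module.finrank ℂ (XX β j I' m p ⊓ (LinearMap.ker (ct (lf (opt β A' q))) ⊓
          ⨅ b : Fin a, LinearMap.ker (ct (lf (opt β Az (z (Fin.castLE ha b)))))) :
            Submodule ℂ (Dl ν)) = gz d β ms A' Az j I' a) := by
  classical
  let P := κ ⊕ (Unit ⊕ Fin c')
  -- the first family
  have g1 : ∀ x, Gn P (ν × Fin (d + 1)) fun r =>
      Module.finrank ℂ (XX β D I m (fun i => r (Sum.inl i)) ⊓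
        LinearMap.ker (ct (lf (opt β A' (r (Sum.inr (Sum.inl ())))) ^ x)) :
          Submodule ℂ (Dl ν)) = HI d D β I (Kd.ord x A' ::ₘ ms) := by
    intro x
    let φ : κ ⊕ Unit → P := Sum.elim Sum.inl fun _ => Sum.inr (Sum.inl ())
    have hφ : Function.Injective φ := by
      rintro (a | a) (b | b) hab
      · exact congrArg Sum.inl (Sum.inl.inj hab)
      · exact absurd hab Sum.inl_ne_inr
      · exact absurd hab Sum.inr_ne_inl
      · rfl
    let m' : κ ⊕ Unit → Kd := Sum.elim m fun _ => Kd.ord x A'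
    have hm' : (univ : Finset (κ ⊕ Unit)).val.map m' = Kd.ord x A' ::ₘ ms := by
      rw [map_elim, hm, Pool.Agent.V7.ST.map_const, Fintype.card_unit, Multiset.replicate_one, add_comm,
        Multiset.singleton_add]
    refine (Gn.comap φ hφ (gn_XX hD β I m')).mono fun r hr => ?_
    rw [hm'] at hr
    rw [← hr]
    have h1 : (fun i => r (φ i)) = Sum.elim (fun i => r (Sum.inl i))
        fun _ : Unit => r (Sum.inr (Sum.inl ())) := by
      funext i
      rcases i with i | i <;> rfl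
    rw [h1]
    have h2 := XX_ord β D I m (fun _ : Unit => x) (fun _ => A') (fun i => r (Sum.inl i))
      fun _ : Unit => r (Sum.inr (Sum.inl ()))
    show _ = Module.finrank ℂ (XX β D I (Sum.elim m fun _ => Kd.ord x A') _)
    rw [h2, iInf_const]
  -- the second family
  have g2 : ∀ I', I' = I1 ∨ I' = I2 → ∀ a : Fin (c' + 1), ∀ j : Fin (D' + 1),
      Gn P (ν × Fin (d + 1)) fun r =>
        Module.finrank ℂ (XX β j.1 I' m (fun i => r (Sum.inl i)) ⊓
          (LinearMap.ker (ct (lf (opt β A' (r (Sum.inr (Sum.inl ())))))) ⊓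
          ⨅ b : Fin a.1, LinearMap.ker (ct (lf (opt β Az (r (Sum.inr (Sum.inr
            (Fin.castLE (Nat.le_of_lt_succ a.2) b)))))))) :
            Submodule ℂ (Dl ν)) = gz d β ms A' Az j.1 I' a.1 := by
    intro I' _ a j
    let φ : κ ⊕ (Unit ⊕ Fin a.1) → P :=
      Sum.map id (Sum.map id (Fin.castLE (Nat.le_of_lt_succ a.2)))
    have hφ : Function.Injective φ :=
      Sum.map_injective.2 ⟨Function.injective_id,
        Sum.map_injective.2 ⟨Function.injective_id, Fin.castLE_injective _⟩⟩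
    let m' : κ ⊕ (Unit ⊕ Fin a.1) → Kd :=
      Sum.elim m (Sum.elim (fun _ => Kd.ord 1 A') fun _ => Kd.ord 1 Az)
    have hm' : (univ : Finset (κ ⊕ (Unit ⊕ Fin a.1))).val.map m' =
        Kd.ord 1 A' ::ₘ (Multiset.replicate a.1 (Kd.ord 1 Az) + ms) := by
      rw [map_elim, map_elim, hm, Pool.Agent.V7.ST.map_const, Pool.Agent.V7.ST.map_const, Fintype.card_unit, Fintype.card_fin,
        Multiset.replicate_one, Multiset.singleton_add, add_comm ms, Multiset.cons_add]
    refine (Gn.comap φ hφ (gn_XX (show j.1 ≤ d by have := j.2; omega) β I' m')).mono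
      fun r hr => ?_
    rw [hm'] at hr
    unfold gz
    rw [← hr]
    have h1 : (fun i => r (φ i)) = Sum.elim (fun i => r (Sum.inl i))
        (Sum.elim (fun _ => r (Sum.inr (Sum.inl ()))) fun b =>
          r (Sum.inr (Sum.inr (Fin.castLE (Nat.le_of_lt_succ a.2) b)))) := by
      funext i
      rcases i with i | i | i <;> rfl
    have h3 : m' = Sum.elim m fun i => Kd.ord ((fun _ => 1 : Unit ⊕ Fin a.1 → ℕ) i)
        ((Sum.elim (fun _ => A') fun _ => Az : Unit ⊕ Fin a.1 → Finset ℕ) i) := by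
      funext i
      rcases i with i | i | i <;> rfl
    have h4 : XX β j.1 I' m (fun i => r (Sum.inl i)) ⊓
        (LinearMap.ker (ct (lf (opt β A' (r (Sum.inr (Sum.inl ())))))) ⊓
          ⨅ b : Fin a.1, LinearMap.ker (ct (lf (opt β Az (r (Sum.inr (Sum.inr
            (Fin.castLE (Nat.le_of_lt_succ a.2) b)))))))) =
        XX β j.1 I' m' (fun i => r (φ i)) := by
      rw [h1, h3, XX_ord]
      ext Φ
      simp only [Submodule.mem_inf, Submodule.mem_iInf, LinearMap.mem_ker, Sum.forall, pow_one,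
        Sum.elim_inl, Sum.elim_inr, forall_const]
    rw [h4]
  have h := ((g1 e).and (g1 (e - 1))).and ((Gn.all (univ : Finset (Fin (c' + 1) × Fin (D' + 1)))
    fun x _ => g2 I1 (Or.inl rfl) x.1 x.2).and (Gn.all
      (univ : Finset (Fin (c' + 1) × Fin (D' + 1))) fun x _ => g2 I2 (Or.inr rfl) x.1 x.2))
  obtain ⟨r, ⟨h1, h2⟩, h3, h4⟩ := h.exists
  refine ⟨fun i => r (Sum.inl i), r (Sum.inr (Sum.inl ())), fun b => r (Sum.inr (Sum.inr b)),
    ?_, ?_⟩
  · rintro x (rfl | rfl)
    · exact h1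
    · exact h2
  · rintro I' (rfl | rfl) a ha j hj
    · exact h3 (⟨a, Nat.lt_succ_of_le ha⟩, ⟨j, Nat.lt_succ_of_le hj⟩) (mem_univ _)
    · exact h4 (⟨a, Nat.lt_succ_of_le ha⟩, ⟨j, Nat.lt_succ_of_le hj⟩) (mem_univ _)

/-- The limit of the solutions for `(q' - t z)`. -/
theorem lim_le {D e : ℕ} (hD : D ≤ d) (he : 1 ≤ e) (β : ν → ℕ) (I A : Finset ℕ)
    {κ : Type} [Fintype κ] (m : κ → Kd) (ms : Multiset Kd) (hm : (univ : Finset κ).val.map m = ms)
    (p : κ → ν × Fin (d + 1) → ℂ) (q z : ν → ℂ) (hq : ∀ s, β s ∈ A → q s = 0)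
    (hz : ∀ s, β s ∈ A → z s = 0) (R : Submodule ℂ (Dl ν)) (hR : R ≤ XX β D I m p)
    (hlim : ∀ F : ℕ → Dl ν, (∀ n, F n ∈ XX β D I m p) → ct (lf q ^ e) (F 0) = 0 →
      (∀ κ', ∃ c : ℂ, ct (lf z ^ κ' * lf q ^ (e - 1)) (F 0) = c • ct (lf q ^ (e - 1 + κ')) (F κ')) →
        F 0 ∈ R) :
    HI d D β I (Kd.ord e A ::ₘ ms) ≤ Module.finrank ℂ R := by
  classical
  obtain ⟨e', rfl⟩ : ∃ e', e = e' + 1 := ⟨e - 1, by omega⟩
  set U := XX β D I m p with hU
  have hfin : Module.Finite ℂ U := finite_XX β D I m p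
  let B : ℕ → Dl ν →ₗ[ℂ] Dl ν := fun k => ((-1 : ℂ) ^ k * ((e' + 1).choose k : ℂ)) •
    ct (lf z ^ k * lf q ^ (e' + 1 - k))
  obtain ⟨t, ht⟩ := limit_sub (V := U) (N := e' + 1) (fun k => (B k).domRestrict U) (by
    intro k hk
    ext1 x
    show ((-1 : ℂ) ^ k * ((e' + 1).choose k : ℂ)) • ct (lf z ^ k * lf q ^ (e' + 1 - k)) x.1 = 0
    rw [Nat.choose_eq_zero_of_lt hk, Nat.cast_zero, mul_zero, zero_smul]) (R.comap U.subtype) (by
    intro F hF
    have h1 : ∀ n, ((opS (lf q) (lf z))^[e' + 1] fun n => (F n).1) n = 0 := by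
      intro n
      rw [opS_iter]
      exact hF n
    refine hlim (fun n => (F n).1) (fun n => (F n).2) ?_ fun κ' => ?_
    · have h2 := hF 0
      rw [Finset.Nat.antidiagonal_zero, sum_singleton] at h2
      have h3 : ((-1 : ℂ) ^ 0 * ((e' + 1).choose 0 : ℂ)) •
        ct (lf z ^ 0 * lf q ^ (e' + 1 - 0)) (F 0).1 = 0 := h2
      rw [pow_zero, Nat.choose_zero_right, Nat.cast_one, mul_one, one_smul, pow_zero, one_mul,
        Nat.sub_zero] at h3
      exact h3
    · have h2 := seq_lim (lf q) (lf z) e' (fun n => (F n).1) h1 κ'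
      have h3 : (Nat.multichoose (e' + 1) κ' : ℂ) ≠ 0 := by
        rw [Nat.cast_ne_zero, Nat.multichoose_eq]
        exact (Nat.choose_pos (by omega)).ne'
      refine ⟨(Nat.multichoose (e' + 1) κ' : ℂ)⁻¹, ?_⟩
      rw [Nat.add_sub_cancel]
      show ct (lf z ^ κ' * lf q ^ e') (F 0).1 = (Nat.multichoose (e' + 1) κ' : ℂ)⁻¹ •
        ct (lf q ^ (e' + κ')) (F κ').1
      rw [h2, smul_smul, inv_mul_cancel₀ h3, one_smul])
  -- the dimension of the limit
  have hRf : Module.finrank ℂ (R.comap U.subtype) = Module.finrank ℂ R := by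
    have h1 : (R.comap U.subtype).map U.subtype = R := by
      rw [Submodule.map_comap_subtype, inf_eq_right.2 hR]
    have h2 := (Submodule.equivMapOfInjective _ U.injective_subtype
      (R.comap U.subtype)).finrank_eq
    rw [h1] at h2
    exact h2
  rw [hRf] at ht
  refine le_trans ?_ ht
  -- the position
  let r : ν × Fin (d + 1) → ℂ := fun x => q x.1 - t * z x.1
  have hr : opt β A r = q + (-t) • z := by
    funext s
    show (if β s ∈ A then 0 else q s - t * z s) = q s + -t * z s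
    by_cases hs : β s ∈ A
    · rw [if_pos hs, hq s hs, hz s hs]
      ring
    · rw [if_neg hs]
      ring
  have hm' : (univ : Finset (κ ⊕ Unit)).val.map (Sum.elim m fun _ => Kd.ord (e' + 1) A) =
      Kd.ord (e' + 1) A ::ₘ ms := by
    rw [map_elim, hm, Pool.Agent.V7.ST.map_const, Fintype.card_unit, Multiset.replicate_one, add_comm,
      Multiset.singleton_add]
  have h1 := HI_le hD β I (Sum.elim m fun _ : Unit => Kd.ord (e' + 1) A) (Sum.elim p fun _ => r)
  rw [hm'] at h1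
  refine h1.trans (le_of_eq ?_)
  have h2 := XX_ord β D I m (fun _ : Unit => e' + 1) (fun _ => A) p fun _ : Unit => r
  rw [h2, iInf_const, hr, lf_add, lf_smul]
  have h3 : ∀ x : U, fam (e' + 1) (fun k => (B k).domRestrict U) t x =
      ct ((lf q + -t • lf z) ^ (e' + 1)) x.1 := by
    intro x
    rw [fam_apply, add_comm (lf q), add_pow, ct_sum]
    refine sum_congr rfl fun k _ => ?_
    show t ^ k • (((-1 : ℂ) ^ k * ((e' + 1).choose k : ℂ)) •
      ct (lf z ^ k * lf q ^ (e' + 1 - k)) x.1) = _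
    have h4 : (-t • lf z) ^ k * lf q ^ (e' + 1 - k) * ((e' + 1).choose k : MvPolynomial ν ℂ) =
        ((-t) ^ k * ((e' + 1).choose k : ℂ)) • (lf z ^ k * lf q ^ (e' + 1 - k)) := by
      rw [smul_pow, smul_mul_assoc, smul_mul_assoc, mul_smul]
      congr 1
      rw [mul_comm, smul_eq_C_mul]
      congr 1
    rw [h4, ct_smul, smul_smul]
    congr 1
    rw [neg_pow]
    ring
  have h5 : (LinearMap.ker (fam (e' + 1) (fun k => (B k).domRestrict U) t)).map U.subtype =
      U ⊓ LinearMap.ker (ct ((lf q + -t • lf z) ^ (e' + 1))) := by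
    ext x
    constructor
    · rintro ⟨y, hy, rfl⟩
      have hy' : fam (e' + 1) (fun k => (B k).domRestrict U) t y = 0 := hy
      rw [h3] at hy'
      exact ⟨y.2, hy'⟩
    · rintro ⟨hx, hx'⟩
      refine ⟨⟨x, hx⟩, ?_, rfl⟩
      show fam (e' + 1) (fun k => (B k).domRestrict U) t ⟨x, hx⟩ = 0
      rw [h3]
      exact hx'
  rw [← h5]
  exact (Submodule.equivMapOfInjective _ U.injective_subtype _).finrank_eq.symm

end

end Pool.Agent.GD.AL

end

section

/-!
# General d, ALPHA: random replacement, unconditional form (helper60, note 4258)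

`avs`: for all `ν`, `β`, all configurations
`c HI_D(S + (e, A)) ≤ (c - 1) HI_D(S + (e, A')) + HI_D(S + (e - 1, A')) + gz D' c + ∑_{t=1..c} ∑_{s<D'} gz s t`,
`A' = insert i A`, `D' = D + 1 - e`, `gz` on the level `I ∩ A'`.
`avb'`: for the differences `dl`, only upper bounds for the lower degrees are needed.
-/

set_option autoImplicit false
set_option linter.unusedSectionVars false

namespace Pool.Agent.GD.AL

open Finset MvPolynomial Pool.Agent.H51.TB Pool.Agent.V7.ST

section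

variable {M : Type} [AddCommGroup M] [Module ℂ M]

end

section

variable {ν : Type} [Fintype ν] [DecidableEq ν] {d : ℕ}

/-- **Random replacement, unconditional.** -/
theorem avs {D e c' : ℕ} (hD : D ≤ d) (he : 2 ≤ e) (heD : e ≤ D) (β : ν → ℕ) {I A Az : Finset ℕ}
    {i : ℕ} (hAz : A ⊆ Az) (ms : Multiset Kd) :
    (c' : ℤ) * HI d D β I (Kd.ord e A ::ₘ ms) ≤
      ((c' : ℤ) - 1) * HI d D β I (Kd.ord e (insert i A) ::ₘ ms) +
        HI d D β I (Kd.ord (e - 1) (insert i A) ::ₘ ms) +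
        gz d β ms (insert i A) Az (D + 1 - e) (I ∩ insert i A) c' +
        ∑ t ∈ range c', ∑ s ∈ range (D + 1 - e),
          (gz d β ms (insert i A) Az s (I ∩ insert i A) (t + 1) : ℤ) := by
  classical
  set A' := insert i A with hA'
  set D' := D + 1 - e with hD'
  set I2 := I ∩ A' with hI2
  obtain ⟨κ, _, m, hm⟩ : ∃ (κ : Type) (_ : Fintype κ) (m : κ → Kd),
      (univ : Finset κ).val.map m = ms := by
    obtain ⟨m, hm, -⟩ := exists_conf (LS d 0 β I) ms
    exact ⟨_, inferInstance, m, hm⟩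
  obtain ⟨p, q₀, z₀, hg1, hg2⟩ := exists_pos (D := D) (D' := D') (e := e) (c' := c') hD
    (by omega) β I I2 I2 A' Az m ms hm
  set q := opt β A' q₀ with hq
  let zv : ℕ → ν → ℂ := fun b => if h : b < c' then opt β Az (z₀ ⟨b, h⟩) else 0
  have hqA' : ∀ s, β s ∈ A' → q s = 0 := fun s hs => opt_zero hs
  have hzA : ∀ b, ∀ s, β s ∈ Az → zv b s = 0 := by
    intro b s hs
    show (if h : b < c' then opt β Az (z₀ ⟨b, h⟩) else 0) s = 0
    split_ifs
    · exact opt_zero hs
    · rfl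
  set Q := lf q with hQ
  let Z : ℕ → MvPolynomial ν ℂ := fun b => lf (zv b)
  set X : Finset ℕ → ℕ → Submodule ℂ (Dl ν) := fun I' j => XX β j I' m p with hX
  -- the dimensions
  have hdim : ∀ a ≤ c', ∀ j ≤ D',
      Module.finrank ℂ (KX Q Z a (X I2 j)) = gz d β ms A' Az j I2 a := by
    intro a ha j hj
    rw [← hg2 I2 (Or.inl rfl) a ha j hj]
    have h1 : KX Q Z a (X I2 j) = XX β j I2 m p ⊓ (LinearMap.ker (ct (lf (opt β A' q₀))) ⊓
        ⨅ b : Fin a, LinearMap.ker (ct (lf (opt β Az (z₀ (Fin.castLE ha b)))))) := by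
      ext Φ
      rw [mem_KX]
      simp only [Submodule.mem_inf, Submodule.mem_iInf, LinearMap.mem_ker]
      have h2 : ∀ (b : ℕ) (hb : b < a), Z b = lf (opt β Az (z₀ (Fin.castLE ha ⟨b, hb⟩))) := by
        intro b hb
        show lf (if h : b < c' then opt β Az (z₀ ⟨b, h⟩) else 0) = _
        rw [dif_pos (lt_of_lt_of_le hb ha)]
        rfl
      constructor
      · rintro ⟨h3, h4, h5⟩
        refine ⟨h3, h4, fun b => ?_⟩
        rw [← h2 b.1 b.2]
        exact h5 b.1 b.2
      · rintro ⟨h3, h4, h5⟩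
        refine ⟨h3, h4, fun b hb => ?_⟩
        rw [h2 b hb]
        exact h5 ⟨b, hb⟩
    rw [h1]
  have hfin : ∀ I' j, Module.Finite ℂ (X I' j) := fun I' j => finite_XX β j I' m p
  have hfinK : ∀ a I' j, Module.Finite ℂ (KX Q Z a (X I' j)) := fun a I' j =>
    have := hfin I' j
    Submodule.finiteDimensional_of_le KX_le
  have hpow : ∀ b κ' (g : Dl ν), ((ct (Z b)) ^ κ') g = ct (Z b ^ κ') g := by
    intro b κ' g
    induction κ' with
    | zero => rw [pow_zero, pow_zero, ct_one]; rfl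
    | succ κ' ih => rw [pow_succ', pow_succ', Module.End.mul_apply, ih, ct_mul]
  set G := KX Q Z 0 (X I2 D') with hG
  let B : ℕ → Submodule ℂ (Dl ν) := fun b => Btw (fun j => KX Q Z 0 (X I2 j)) (ct (Z b)) D'
  have hBG : ∀ b, B b ≤ G := fun b => Btw_le _ _ _
  have f0 : Module.Finite ℂ G := hfinK 0 I2 D'
  -- the spaces of the points of kind `A'`
  let Ax : ℕ → Submodule ℂ (Dl ν) := fun x => X I D ⊓ LinearMap.ker (ct (Q ^ x))
  let E : Submodule ℂ (Dl ν) := (Ax e).map (ct (Q ^ (e - 1)))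
  have hXpow : ∀ κ' ≤ D', ∀ g ∈ X I D, ct (Q ^ (e - 1 + κ')) g ∈ X I2 (D' - κ') := by
    intro κ' hκ' g hg
    refine XX_ct_pow hqA' (k := e - 1 + κ') (by omega) ?_
    have h1 : D' - κ' + (e - 1 + κ') = D := by omega
    rw [h1]
    exact hg
  have hEG : E ≤ G := by
    rintro x ⟨g, ⟨hg, hg'⟩, rfl⟩
    refine mem_KX.2 ⟨hXpow 0 (Nat.zero_le _) g hg, ?_, fun b hb => absurd hb (Nat.not_lt_zero b)⟩
    rw [← ct_mul, ← pow_succ']
    have h1 : e - 1 + 1 = e := by omega
    rw [h1]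
    exact hg'
  have fE : Module.Finite ℂ E := Submodule.finiteDimensional_of_le hEG
  have hAxf : ∀ x, Module.Finite ℂ (Ax x) := fun x =>
    have := hfin I D
    Submodule.finiteDimensional_of_le inf_le_left
  have hAxk : Ax e ⊓ LinearMap.ker (ct (Q ^ (e - 1))) = Ax (e - 1) := by
    ext g
    constructor
    · rintro ⟨⟨h1, -⟩, h2⟩
      exact ⟨h1, h2⟩
    · rintro ⟨h1, h2⟩
      refine ⟨⟨h1, ?_⟩, h2⟩
      have h3 : e = (e - 1) + 1 := by omega
      show ct (Q ^ e) g = 0
      have h4 : ct (Q ^ (e - 1)) g = 0 := h2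
      rw [h3, pow_succ', ct_mul, h4, map_zero]
  have hdE : Module.finrank ℂ (Ax e) = Module.finrank ℂ E + Module.finrank ℂ (Ax (e - 1)) := by
    have := hAxf e
    rw [← hAxk]
    exact rk (Ax e) (ct (Q ^ (e - 1)))
  have hAe : Module.finrank ℂ (Ax e) = HI d D β I (Kd.ord e A' ::ₘ ms) := hg1 e (Or.inl rfl)
  have hAe1 : Module.finrank ℂ (Ax (e - 1)) = HI d D β I (Kd.ord (e - 1) A' ::ₘ ms) :=
    hg1 (e - 1) (Or.inr rfl)
  -- the limit
  have hlim : ∀ b, (HI d D β I (Kd.ord e A ::ₘ ms) : ℤ) ≤ Module.finrank ℂ (Ax (e - 1)) +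
      Module.finrank ℂ (E ⊓ B b : Submodule ℂ (Dl ν)) := by
    intro b
    let R : Submodule ℂ (Dl ν) := Ax e ⊓ (B b).comap (ct (Q ^ (e - 1)))
    have f1 := hAxf e
    have f2 : Module.Finite ℂ R := Submodule.finiteDimensional_of_le inf_le_left
    have h1 := rk R (ct (Q ^ (e - 1)))
    have h2 : R.map (ct (Q ^ (e - 1))) = E ⊓ B b := by
      ext x
      constructor
      · rintro ⟨g, ⟨hg, hg'⟩, rfl⟩
        exact ⟨⟨g, hg, rfl⟩, hg'⟩
      · rintro ⟨⟨g, hg, rfl⟩, hg'⟩
        exact ⟨g, ⟨hg, hg'⟩, rfl⟩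
    have h3 : R ⊓ LinearMap.ker (ct (Q ^ (e - 1))) = Ax (e - 1) := by
      rw [← hAxk]
      ext g
      constructor
      · rintro ⟨⟨h4, -⟩, h5⟩
        exact ⟨h4, h5⟩
      · rintro ⟨h4, h5⟩
        refine ⟨⟨h4, ?_⟩, h5⟩
        have h6 : ct (Q ^ (e - 1)) g = 0 := h5
        show ct (Q ^ (e - 1)) g ∈ B b
        rw [h6]
        exact Submodule.zero_mem _
    rw [h2, h3] at h1
    have h4 := lim_le (D := D) (e := e) hD (by omega) β I A m ms hm p q (zv b)
      (fun s hs => hqA' s (mem_insert_of_mem hs)) (fun s hs => hzA b s (hAz hs)) R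
      (inf_le_left.trans inf_le_left) (by
        intro F hF hF0 hF1
        refine ⟨⟨hF 0, hF0⟩, ?_⟩
        show ct (Q ^ (e - 1)) (F 0) ∈ Btw (fun j => KX Q Z 0 (X I2 j)) (ct (Z b)) D'
        refine mem_Btw.2 fun κ' hκ' => ?_
        obtain ⟨c, hc⟩ := hF1 κ'
        have h5 : ((ct (Z b)) ^ κ') (ct (Q ^ (e - 1)) (F 0)) =
            c • ct (Q ^ (e - 1 + κ')) (F κ') := by
          rw [hpow, ← ct_mul]
          exact hc
        refine mem_KX.2 ⟨?_, ?_, fun b' hb' => absurd hb' (Nat.not_lt_zero b')⟩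
        · rw [h5]
          exact Submodule.smul_mem _ _ (hXpow κ' hκ' _ (hF κ'))
        · have h6 : e - 1 + 1 = e := by omega
          have h7 : ct Q (ct (Q ^ (e - 1)) (F 0)) = 0 := by
            rw [← ct_mul, ← pow_succ', h6]
            exact hF0
          rw [hpow, ct_comm Q (Z b ^ κ'), h7, map_zero])
    have h5 : (Module.finrank ℂ R : ℤ) = Module.finrank ℂ (E ⊓ B b : Submodule ℂ (Dl ν)) +
      Module.finrank ℂ (Ax (e - 1)) := by exact_mod_cast h1
    have h6 : (HI d D β I (Kd.ord e A ::ₘ ms) : ℤ) ≤ Module.finrank ℂ R := by exact_mod_cast h4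
    omega
  -- the intersection of all `B b`
  have hcap : ∀ t ≤ c', (Module.finrank ℂ (CapU G B c') : ℤ) ≤
      Module.finrank ℂ (CapU G B c' ⊓ KX Q Z t (X I2 D') : Submodule ℂ (Dl ν)) +
        ∑ u ∈ range t, ∑ s ∈ range D', (gz d β ms A' Az s I2 (u + 1) : ℤ) := by
    intro t ht
    induction t with
    | zero =>
      rw [sum_range_zero, add_zero]
      have h1 : CapU G B c' ⊓ KX Q Z 0 (X I2 D') = CapU G B c' :=
        inf_eq_left.2 fun x hx => (mem_CapU.1 hx).1
      rw [h1]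
    | succ t ih =>
      rw [sum_range_succ]
      refine (ih (by omega)).trans ?_
      set Y := CapU G B c' ⊓ KX Q Z t (X I2 D') with hY
      have fY : Module.Finite ℂ Y :=
        have := hfinK t I2 D'
        Submodule.finiteDimensional_of_le inf_le_right
      have h1 := rk Y (ct (Z t))
      have h2 : Y ⊓ LinearMap.ker (ct (Z t)) = CapU G B c' ⊓ KX Q Z (t + 1) (X I2 D') := by
        rw [KX_succ, hY, inf_assoc]
      rw [h2] at h1
      -- the image
      have h3 : Module.finrank ℂ (Y.map (ct (Z t))) ≤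
          ∑ s ∈ range D', gz d β ms A' Az s I2 (t + 1) := by
        cases hD0 : D' with
        | zero => omega
        | succ D0 =>
          have h4 : Y.map (ct (Z t)) ≤ Btw (fun j => KX Q Z t (X I2 j)) (ct (Z t)) D0 := by
            rintro x ⟨y, hy, rfl⟩
            have hy1 := mem_CapU.1 hy.1
            have hy2 := mem_KX.1 hy.2
            have hy3 := mem_Btw.1 (show y ∈ Btw (fun j => KX Q Z 0 (X I2 j)) (ct (Z t)) D' from
              hy1.2 t (by omega))
            refine mem_Btw.2 fun κ' hκ' => ?_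
            have h5 := mem_KX.1 (hy3 (κ' + 1) (by omega))
            rw [pow_succ, Module.End.mul_apply] at h5
            have h6 : D' - (κ' + 1) = D0 - κ' := by omega
            rw [h6] at h5
            refine mem_KX.2 ⟨h5.1, h5.2.1, fun b hb => ?_⟩
            rw [hpow, ct_comm, ct_comm (Z b) (Z t), hy2.2.2 b hb, map_zero, map_zero]
          have f4 : Module.Finite ℂ (Btw (fun j => KX Q Z t (X I2 j)) (ct (Z t)) D0) :=
            have := hfinK t I2 D0
            Submodule.finiteDimensional_of_le (Btw_le _ _ _)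
          have h5 := Submodule.finrank_mono h4
          have h6 := Btw_sum (fun j => KX Q Z t (X I2 j)) (ct (Z t)) (fun j => hfinK t I2 j) D0
          refine h5.trans (h6.trans (le_of_eq ?_))
          rw [sum_range_succ']
          have h7 : ∀ s ∈ range D0, Module.finrank ℂ (KX Q Z t (X I2 (s + 1)) ⊓
              LinearMap.ker (ct (Z t)) : Submodule ℂ (Dl ν)) =
                gz d β ms A' Az (s + 1) I2 (t + 1) := by
            intro s hs
            rw [mem_range] at hs
            rw [← KX_succ]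
            exact hdim (t + 1) (by omega) (s + 1) (by omega)
          -- degree `0`
          have h8 : KX Q Z t (X I2 0) = KX Q Z (t + 1) (X I2 0) := by
            rw [KX_succ]
            refine (inf_eq_left.2 ?_).symm
            intro g hg
            exact Lv_zero_ct _ (mem_XX.1 (mem_KX.1 hg).1).1
          have h9 : Module.finrank ℂ (KX Q Z t (X I2 0)) = gz d β ms A' Az 0 I2 (t + 1) := by
            rw [← hdim (t + 1) (by omega) 0 (by omega)]
            exact congrArg (fun U : Submodule ℂ (Dl ν) => Module.finrank ℂ U) h8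
          rw [sum_congr rfl h7, h9, add_comm]
      have h4 : (Module.finrank ℂ Y : ℤ) = Module.finrank ℂ (Y.map (ct (Z t))) +
          Module.finrank ℂ (CapU G B c' ⊓ KX Q Z (t + 1) (X I2 D') : Submodule ℂ (Dl ν)) := by
        exact_mod_cast h1
      have h5 : (Module.finrank ℂ (Y.map (ct (Z t))) : ℤ) ≤
          ∑ s ∈ range D', (gz d β ms A' Az s I2 (t + 1) : ℤ) := by exact_mod_cast h3
      linarith
  have hcap1 : (Module.finrank ℂ (CapU E B c') : ℤ) ≤ gz d β ms A' Az D' I2 c' +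
      ∑ u ∈ range c', ∑ s ∈ range D', (gz d β ms A' Az s I2 (u + 1) : ℤ) := by
    have f1 : Module.Finite ℂ (CapU G B c') :=
      Submodule.finiteDimensional_of_le fun x hx => (mem_CapU.1 hx).1
    have h1 : CapU E B c' ≤ CapU G B c' := fun x hx =>
      mem_CapU.2 ⟨hEG (mem_CapU.1 hx).1, (mem_CapU.1 hx).2⟩
    have h2 := Submodule.finrank_mono h1
    have h3 := hcap c' le_rfl
    have f2 := hfinK c' I2 D'
    have h4 : Module.finrank ℂ (CapU G B c' ⊓ KX Q Z c' (X I2 D') : Submodule ℂ (Dl ν)) ≤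
        Module.finrank ℂ (KX Q Z c' (X I2 D')) := Submodule.finrank_mono inf_le_right
    rw [hdim c' le_rfl D' le_rfl] at h4
    have h5 : (Module.finrank ℂ (CapU E B c') : ℤ) ≤ Module.finrank ℂ (CapU G B c') := by
      exact_mod_cast h2
    have h6 : (Module.finrank ℂ (CapU G B c' ⊓ KX Q Z c' (X I2 D') : Submodule ℂ (Dl ν)) : ℤ) ≤
      gz d β ms A' Az D' I2 c' := by exact_mod_cast h4
    linarith
  have hsum := sum_inf_le E B c'
  have hs1 : ∑ b ∈ range c', ((HI d D β I (Kd.ord e A ::ₘ ms) : ℤ) -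
      Module.finrank ℂ (Ax (e - 1))) ≤
        ∑ b ∈ range c', (Module.finrank ℂ (E ⊓ B b : Submodule ℂ (Dl ν)) : ℤ) :=
    sum_le_sum fun b _ => by have := hlim b; linarith
  rw [sum_const, card_range, nsmul_eq_mul] at hs1
  have h3 : (Module.finrank ℂ (Ax e) : ℤ) = Module.finrank ℂ E +
      Module.finrank ℂ (Ax (e - 1)) := by exact_mod_cast hdE
  have h4 : (Module.finrank ℂ (Ax e) : ℤ) = HI d D β I (Kd.ord e A' ::ₘ ms) := by
    exact_mod_cast hAe
  have h5 : (Module.finrank ℂ (Ax (e - 1)) : ℤ) = HI d D β I (Kd.ord (e - 1) A' ::ₘ ms) := by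
    exact_mod_cast hAe1
  have h6 : (Module.finrank ℂ E : ℤ) = HI d D β I (Kd.ord e A' ::ₘ ms) -
      HI d D β I (Kd.ord (e - 1) A' ::ₘ ms) := by linarith
  rw [h6] at hsum
  rw [h5] at hs1
  have h7 := hs1.trans (hsum.trans (add_le_add le_rfl hcap1))
  linarith

end

/-- The identity of the virtual dimensions. -/
theorem vd_tel {J : ℕ} {I : Finset ℕ} {c : ℕ → ℕ} {n : ℕ} (hI : I ⊆ range J)
    (hn : ∑ i ∈ range J, c i < n) (ms : Multiset Kd) (D : ℕ) :
    ∑ s ∈ range (D + 1), vd s I c (n - 1) ms = vd D I c n ms := by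
  induction D with
  | zero => rw [sum_range_one]; exact vd_deg_zero _ _ _ _ _ _
  | succ D ih =>
    rw [sum_range_succ, ih]
    have h1 := vd_succ (c := c) (n := n - 1) D (I := I) ((sum_le_range hI _).trans (by omega)) ms
    have h2 : n - 1 + 1 = n := by omega
    rw [h2] at h1
    linarith

theorem vd_av {J : ℕ} {I1 : Finset ℕ} {c : ℕ → ℕ} {n a : ℕ} (ha : a < J) (haI : a ∉ I1)
    (hI : I1 ⊆ range J) (hn : ∑ i ∈ range J, c i < n) (ms : Multiset Kd) (D : ℕ) (c' : ℕ)
    (hc' : c' ≤ c a) :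
    vd (D + 1) (insert a I1) (cm c a c') (n - c' - 1) ms +
      ∑ t ∈ range c', ∑ s ∈ range (D + 1), vd s (insert a I1) (cm c a (t + 1)) (n - (t + 1) - 1) ms =
      vd (D + 1) (insert a I1) c n ms - vd D (insert a I1) c n ms -
        c' * (vd D I1 c n ms - vd D (insert a I1) c n ms) := by
  have hca : c a ≤ ∑ i ∈ range J, c i :=
    single_le_sum (f := c) (fun _ _ => Nat.zero_le _) (mem_range.2 ha)
  have hI2 : insert a I1 ⊆ range J := insert_subset (mem_range.2 ha) hI
  induction c' with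
  | zero =>
    rw [sum_range_zero, cm_zero, Nat.sub_zero]
    have h1 := vd_succ (c := c) (n := n - 1) D (I := insert a I1)
      ((sum_le_range hI2 _).trans (by omega)) ms
    have h2 : n - 1 + 1 = n := by omega
    rw [h2] at h1
    push_cast
    linarith
  | succ c' ih =>
    have ih' := ih (by omega)
    rw [sum_range_succ]
    have hs := sum_cm (c := c) (t := c' + 1) ha hc'
    have h1 := vd_tel (c := cm c a (c' + 1)) (n := n - (c' + 1)) hI2 (by omega) ms D
    rw [h1]
    -- `X := vd (D + 1) (c', n - c' - 1)`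
    have h2 := vd_upd (c := cm c a (c' + 1)) (n := n - (c' + 1) - 1) D (mem_insert_self a I1)
      ((sum_le_range hI2 _).trans (by omega)) ms
    have h3 : n - (c' + 1) - 1 + 1 = n - c' - 1 := by omega
    rw [cm_succ (by omega), erase_insert haI, h3] at h2
    have h4 := vd_diff (c := c) (n := n - 1) ha haI hI (by omega) ms c' (by omega) D
    have h5 : n - 1 - c' = n - c' - 1 := by omega
    rw [h5] at h4
    -- the differences at `n - 1` and at `n`, and at `(c' + 1, n - c' - 1)`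
    have h6 := vd_diff (c := c) (n := n) ha haI hI hn.le ms (c' + 1) hc' D
    have h7 : n - (c' + 1) = n - c' - 1 := by omega
    rw [h7] at h6 h2 ⊢
    have h8 : vd D I1 (cm c a (c' + 1)) (n - c' - 1) ms = vd D I1 (cm c a c') (n - c' - 1) ms := by
      refine vd_congr_c fun i hi => ?_
      have hia : i ≠ a := fun h => haI (h ▸ hi)
      rw [cm_ne c _ hia, cm_ne c _ hia]
    rw [h8] at h6
    push_cast
    linarith

end Pool.Agent.GD.AL

end
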