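import Pool.Agent.H94.LP7.M06
import Pool.Agent.H94.LP7.M12
import Pool.Agent.H94.LP7.M39

/-! The parts of this file: GD.AL.Tr, XE.SmallE, XE2.SmallE2. -/

section

/-!
# General d, ALPHA: transport for ordinary objects

Note 4268 (TR).  `TrC` is the class of the states, `tls` the loss of an object, `twt` its weight (for the
well-founded induction), `tr_step` one step, `tr_ord` the result.
-/

set_option autoImplicit false

namespace Pool.Agent.GD.AL

open Finset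

section Tr

theorem exp_step {X z kap s0 s1 l0 l1 l R ε eb eb' e0 lam c0a q : ℝ} (hX : 0 ≤ X) (hz : 0 ≤ z)
    (hq : 1 ≤ q) (hR : 1 ≤ R) (hcq : c0a ≤ R * q) (hc1 : 1 ≤ c0a) (hk0 : 0 ≤ kap) (hkz : kap ≤ z)
    (hs0 : 0 ≤ s0) (hs0z : s0 ≤ z) (hs1 : 0 ≤ s1) (hs1z : s1 ≤ c0a * z)
    (hs : s1 - s0 ≤ (1 + 3 * ε) * q * (kap - s0)) (hε : 0 ≤ ε) (hl : l = eb' * z) (hl0 : 0 ≤ l0)
    (hl0z : l0 ≤ e0 * z) (hl1 : 0 ≤ l1) (hl1z : l1 ≤ eb * (c0a * z)) (heb : 0 ≤ eb) (heb1 : eb ≤ 1)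
    (heb' : 0 ≤ eb') (heb'1 : eb' ≤ 1) (he0 : e0 ≤ 1) (hlam : X * (c0a * z) ≤ lam) (hlam1 : lam ≤ 1 / 2)
    (hfin : 3 * ε + e0 + R * eb + (4 + 4 * R) * lam ≤ eb') :
    (1 - 1 / q) * Real.exp (X * (s0 + l0 - kap - l)) + 1 / q * Real.exp (X * (s1 + l1 - kap - l)) ≤ 1 := by
  have hexp : ∀ y : ℝ, |y| ≤ 1 → Real.exp y ≤ 1 + y + y ^ 2 := by
    intro y hy
    have h1 := (abs_le.1 (Real.abs_exp_sub_one_sub_id_le hy)).2
    linarith only [h1]
  have hq0 : 0 < q := by linarith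
  obtain ⟨p, hp⟩ : ∃ p, p = 1 / q := ⟨_, rfl⟩
  have hp0 : 0 ≤ p := by
    rw [hp]
    positivity
  have hpq : p * q = 1 := by
    rw [hp]
    field_simp
  have hp1 : p ≤ 1 := by
    rw [hp, div_le_one hq0]
    exact hq
  have hpc : p * c0a ≤ R := by
    calc p * c0a ≤ p * (R * q) := mul_le_mul_of_nonneg_left hcq hp0
      _ = R := by rw [show p * (R * q) = R * (p * q) by ring, hpq, mul_one]
  have hcz : z ≤ c0a * z := by nlinarith only [hz, hc1]
  have hcz0 : 0 ≤ c0a * z := hz.trans hcz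
  have hl' : l ≤ z := by
    rw [hl]
    nlinarith only [hz, heb'1]
  have hl'0 : 0 ≤ l := by
    rw [hl]
    positivity
  have hl0' : l0 ≤ z := hl0z.trans (by nlinarith only [hz, he0])
  have hl1' : l1 ≤ c0a * z := hl1z.trans (by nlinarith only [hs1, heb1, hs1z])
  obtain ⟨y0, hy0⟩ : ∃ y, y = s0 + l0 - kap - l := ⟨_, rfl⟩
  obtain ⟨y1, hy1⟩ : ∃ y, y = s1 + l1 - kap - l := ⟨_, rfl⟩
  have hy0a : |y0| ≤ 2 * z := by
    rw [hy0, abs_le]
    constructor <;> linarith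
  have hy1a : |y1| ≤ 2 * (c0a * z) := by
    rw [hy1, abs_le]
    constructor <;> linarith
  have hXz : X * z ≤ lam := (mul_le_mul_of_nonneg_left hcz hX).trans hlam
  have hX0 : |X * y0| ≤ 1 := by
    rw [abs_mul, abs_of_nonneg hX]
    calc X * |y0| ≤ X * (2 * z) := mul_le_mul_of_nonneg_left hy0a hX
      _ = 2 * (X * z) := by ring
      _ ≤ 1 := by linarith only [hlam1, hXz]
  have hX1 : |X * y1| ≤ 1 := by
    rw [abs_mul, abs_of_nonneg hX]
    calc X * |y1| ≤ X * (2 * (c0a * z)) := mul_le_mul_of_nonneg_left hy1a hX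
      _ = 2 * (X * (c0a * z)) := by ring
      _ ≤ 1 := by linarith only [hlam, hlam1]
  have h1 := hexp _ hX0
  have h2 := hexp _ hX1
  have hsq0 : y0 ^ 2 ≤ 4 * z ^ 2 := by
    have := pow_le_pow_left₀ (abs_nonneg y0) hy0a 2
    rw [sq_abs] at this
    linarith only [this]
  have hsq1 : y1 ^ 2 ≤ 4 * (c0a * z) ^ 2 := by
    have := pow_le_pow_left₀ (abs_nonneg y1) hy1a 2
    rw [sq_abs] at this
    linarith only [this]
  -- the mean
  have hmean : (1 - p) * y0 + p * y1 ≤ (3 * ε + e0 + R * eb - eb') * z := by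
    have e1 : (1 - p) * y0 + p * y1 = s0 + p * (s1 - s0) + (1 - p) * l0 + p * l1 - kap - l := by
      rw [hy0, hy1]
      ring
    have e2 : p * (s1 - s0) ≤ (1 + 3 * ε) * (kap - s0) := by
      calc p * (s1 - s0) ≤ p * ((1 + 3 * ε) * q * (kap - s0)) := mul_le_mul_of_nonneg_left hs hp0
        _ = (p * q) * ((1 + 3 * ε) * (kap - s0)) := by ring
        _ = _ := by rw [hpq, one_mul]
    have e3 : (1 - p) * l0 ≤ e0 * z := by
      calc (1 - p) * l0 ≤ 1 * l0 := mul_le_mul_of_nonneg_right (by linarith only [hp0]) hl0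
        _ ≤ e0 * z := by linarith only [hl0z]
    have e4 : p * l1 ≤ R * eb * z := by
      calc p * l1 ≤ p * (eb * (c0a * z)) := mul_le_mul_of_nonneg_left hl1z hp0
        _ = (p * c0a) * (eb * z) := by ring
        _ ≤ R * (eb * z) := mul_le_mul_of_nonneg_right hpc (by positivity)
        _ = _ := by ring
    have e5 : 3 * ε * (kap - s0) ≤ 3 * ε * z := mul_le_mul_of_nonneg_left (by linarith only [hkz, hs0]) (by linarith only [hε])
    rw [e1, hl]
    linarith only [e2, e3, e4, e5]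
  -- the squares
  have hsq : X * ((1 - p) * y0 ^ 2 + p * y1 ^ 2) ≤ (4 + 4 * R) * lam * z := by
    have e1 : X * ((1 - p) * y0 ^ 2) ≤ 4 * lam * z := by
      calc X * ((1 - p) * y0 ^ 2) ≤ X * (1 * (4 * z ^ 2)) := by
            refine mul_le_mul_of_nonneg_left ?_ hX
            exact mul_le_mul (by linarith only [hp0]) hsq0 (sq_nonneg _) zero_le_one
        _ = 4 * z * (X * z) := by ring
        _ ≤ 4 * z * lam := mul_le_mul_of_nonneg_left hXz (by linarith only [hz])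
        _ = _ := by ring
    have e2 : X * (p * y1 ^ 2) ≤ 4 * R * lam * z := by
      calc X * (p * y1 ^ 2) ≤ X * (p * (4 * (c0a * z) ^ 2)) := by
            refine mul_le_mul_of_nonneg_left ?_ hX
            exact mul_le_mul_of_nonneg_left hsq1 hp0
        _ = (p * c0a) * (4 * z * (X * (c0a * z))) := by ring
        _ ≤ R * (4 * z * (X * (c0a * z))) := mul_le_mul_of_nonneg_right hpc (by positivity)
        _ = 4 * z * R * (X * (c0a * z)) := by ring
        _ ≤ 4 * z * R * lam := mul_le_mul_of_nonneg_left hlam (by positivity)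
        _ = _ := by ring
    linarith only [e1, e2]
  rw [← hp, ← hy0, ← hy1]
  calc (1 - p) * Real.exp (X * y0) + p * Real.exp (X * y1)
      ≤ (1 - p) * (1 + X * y0 + (X * y0) ^ 2) + p * (1 + X * y1 + (X * y1) ^ 2) :=
        add_le_add (mul_le_mul_of_nonneg_left h1 (by linarith only [hp1])) (mul_le_mul_of_nonneg_left h2 hp0)
    _ = 1 + X * (((1 - p) * y0 + p * y1) + X * ((1 - p) * y0 ^ 2 + p * y1 ^ 2)) := by ring
    _ ≤ 1 + X * 0 := by
        refine add_le_add le_rfl (mul_le_mul_of_nonneg_left ?_ hX)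
        have h3 : (3 * ε + e0 + R * eb - eb') * z + (4 + 4 * R) * lam * z ≤ 0 := by
          have h4 : (3 * ε + e0 + R * eb - eb' + (4 + 4 * R) * lam) * z ≤ 0 :=
            mul_nonpos_of_nonpos_of_nonneg (by linarith only [hfin]) hz
          linarith only [h4]
        linarith only [hmean, hsq, h3]
    _ = 1 := by ring

variable {d J D : ℕ} {c0 : ℕ → ℕ} {n0 : ℕ} {I : Finset ℕ}

theorem tr_nz_nonneg (c0 : ℕ → ℕ) (n0 : ℕ) (I : Finset ℕ) (D : ℕ) : 0 ≤ nz c0 n0 I D := by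
  unfold nz
  positivity

theorem tr_nz_insert_succ {a D' : ℕ} {I' : Finset ℕ} (ha : a ∉ I') :
    nz c0 n0 (insert a I') (D' + 1) = (c0 a : ℝ) * nz c0 n0 I' D' := by
  unfold nz
  rw [prod_insert ha, card_insert_of_notMem ha, Nat.add_sub_add_right]
  ring

theorem tr_nz_insert {a D' : ℕ} {I' : Finset ℕ} (ha : a ∉ I') (h : I'.card + 1 ≤ D') :
    (n0 : ℝ) * nz c0 n0 (insert a I') D' = (c0 a : ℝ) * nz c0 n0 I' D' := by
  unfold nz
  rw [prod_insert ha, card_insert_of_notMem ha]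
  have h1 : D' - I'.card = D' - (I'.card + 1) + 1 := by omega
  rw [h1, pow_succ]
  ring

theorem tr_InO {ϖ ϖ' : ℝ} (h : ϖ' ≤ ϖ) {σ : St} (ho : InO d J c0 n0 ϖ I σ) :
    InO d J c0 n0 ϖ' I σ :=
  ⟨ho.c, fun l hl => (mul_le_mul_of_nonneg_right h (Nat.cast_nonneg _)).trans (ho.c' l hl), ho.n,
    (mul_le_mul_of_nonneg_right h (Nat.cast_nonneg _)).trans ho.w, ho.adm⟩

private theorem tr_Pos {η η' : ℝ} (h : η' ≤ η) {σ : St} {I : Finset ℕ} {D : ℕ}
    (hp : Pos J c0 n0 η σ I D) : Pos J c0 n0 η' σ I D := fun I' hI' D' h1 h2 =>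
  (mul_le_mul_of_nonneg_right h (tr_nz_nonneg _ _ _ _)).trans (hp I' hI' D' h1 h2)

theorem tr_Orc {G : Multiset Kd → Prop} {η η' ϖ ϖ' : ℝ} (h : η' ≤ η) (h' : ϖ' ≤ ϖ)
    (ho : Orc d J c0 n0 G I D η' ϖ') : Orc d J c0 n0 G I D η ϖ :=
  fun σ h1 h2 I' hI' D' hD' h3 => ho σ (tr_InO h' h1) h2 I' hI' D' hD' (tr_Pos h h3)

theorem tr_G {G : Multiset Kd → Prop} (hG1 : ∀ x A ms, G (.ord x A ::ₘ ms) → G ms)
    {ms : Multiset Kd} (hm : ∀ k ∈ ms, AdmO d J k) (hG : G ms) : ∀ S ≤ ms, G S := by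
  intro S hS
  obtain ⟨S', rfl⟩ := Multiset.le_iff_exists_add.1 hS
  clear hS
  induction S' using Multiset.induction_on with
  | empty => rwa [add_zero] at hG
  | cons k S' ih =>
    rw [Multiset.add_cons] at hG hm
    obtain ⟨x, A, rfl, -⟩ := hm _ (Multiset.mem_cons_self _ _)
    exact ih (fun k hk => hm k (Multiset.mem_cons_of_mem hk)) (hG1 x A _ hG)

/-- The class of the states. -/
structure TrC (d J : ℕ) (c0 : ℕ → ℕ) (n0 : ℕ) (I : Finset ℕ) (D : ℕ) (G : Multiset Kd → Prop)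
    (η ϖ : ℝ) (σ : St) : Prop where
  ho : InO d J c0 n0 ϖ I σ
  hG : G σ.ms
  hp : PosL J c0 n0 (η / 2) σ I D
  hv : 0 ≤ σ.V J I D

end Tr

end Pool.Agent.GD.AL

end

section

/-!
# XE, module E: small ranks

`EE N m d j`: the `v ∈ N` of degree `j` with `v y_{m-1}^{d-j} ∈ N`.  `EE_card`: complement of `kk`.  `EE_erase`: from
`w y^{d-j-1} ∈ N` move `x → m - 1` (`Stair.up`; nothing to do if `x = m - 1`) and `N` closed under divisors.
`small_chain`: iterate `small` from `j = d - e` to `d - 1` (choose the `τ` small enough: `|E_{j+1}| ≤ ψ m |E_j| ≤ ψ τ m^{j+1}`).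
-/

set_option autoImplicit false

namespace Pool.Agent.XE

open Finset Pool.Agent.XD

/-- The `v ∈ N` of degree `j` with `v y_{m-1}^{d-j} ∈ N`. -/
def EE (N : Finset (Multiset ℕ)) (m d j : ℕ) : Finset (Multiset ℕ) :=
  (lay N m j).filter fun v => v + Multiset.replicate (d - j) (m - 1) ∈ N

variable {m d : ℕ} {N : Finset (Multiset ℕ)} {f : ℕ → ℕ → ℕ}

theorem mem_EE {j : ℕ} {v : Multiset ℕ} : v ∈ EE N m d j ↔
    (v ∈ N ∧ Multiset.card v = j ∧ ∀ x ∈ v, x < m) ∧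
      v + Multiset.replicate (d - j) (m - 1) ∈ N := by
  unfold EE
  rw [mem_filter, mem_lay]

theorem EE_card (N : Finset (Multiset ℕ)) (m : ℕ) {d e : ℕ} (he : e ≤ d) :
    (EE N m d (d - e)).card + kk N m d e = (lay N m (d - e)).card := by
  unfold EE kk
  rw [Nat.sub_sub_self he]
  exact Finset.card_filter_add_card_filter_not _

theorem EE_erase (hN : Stair m d N f) (hm : 1 ≤ m) {j : ℕ} (hj : j + 1 ≤ d) {w : Multiset ℕ}
    (hw : w ∈ EE N m d (j + 1)) {x : ℕ} (hx : x ∈ w) : w.erase x ∈ EE N m d j := by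
  rw [mem_EE] at hw ⊢
  obtain ⟨⟨hwN, hwc, hwl⟩, hwr⟩ := hw
  refine ⟨⟨hN.div w hwN _ (Multiset.erase_le x w), ?_, ?_⟩, ?_⟩
  · rw [Multiset.card_erase_of_mem hx, hwc]
    rfl
  · intro y hy
    exact hwl y (Multiset.mem_of_mem_erase hy)
  · have e1 : d - j = (d - (j + 1)) + 1 := by omega
    rw [e1, Multiset.replicate_succ]
    rcases Nat.lt_or_ge x (m - 1) with h | h
    · have h2 := hN.up _ hwr x (Multiset.mem_add.mpr (Or.inl hx)) (m - 1) h (by omega)
      rw [Multiset.erase_add_left_pos _ hx] at h2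
      rwa [Multiset.add_cons]
    · have h3 : x = m - 1 := by
        have := hwl x hx
        omega
      subst h3
      rw [Multiset.add_cons, ← Multiset.cons_add, Multiset.cons_erase hx]
      exact hwr

/-- If nothing of degree `j` then nothing of degree `i ≥ j`. -/
theorem EE_empty (hN : Stair m d N f) (hm : 1 ≤ m) {j i : ℕ} (hji : j ≤ i) (hi : i ≤ d)
    (h : EE N m d j = ∅) : EE N m d i = ∅ := by
  induction i, hji using Nat.le_induction with
  | base => exact h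
  | succ k hk ih =>
    have ih' := ih (by omega)
    rw [Finset.eq_empty_iff_forall_notMem]
    intro w hw
    have hw' := (mem_EE.mp hw).1.2.1
    obtain ⟨x, hx⟩ : ∃ x, x ∈ w := by
      apply Multiset.card_pos_iff_exists_mem.mp
      omega
    have h1 := EE_erase hN hm hi hw hx
    rw [ih'] at h1
    exact Finset.notMem_empty _ h1

/-- One step, uniformly in the degree. -/
theorem small_one (d : ℕ) (ψ : ℝ) (hψ : 0 < ψ) : ∃ τ : ℝ, 0 < τ ∧
    ∀ (j m : ℕ) (N : Finset (Multiset ℕ)) (f : ℕ → ℕ → ℕ), 1 ≤ j → j + 1 ≤ d → 1 ≤ m →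
      Stair m d N f → ((EE N m d j).card : ℝ) ≤ τ * (m : ℝ) ^ j →
      ((EE N m d (j + 1)).card : ℝ) ≤ ψ * m * ((EE N m d j).card : ℝ) := by
  have key : ∀ D : ℕ, ∃ τ : ℝ, 0 < τ ∧
      ∀ (j m : ℕ) (N : Finset (Multiset ℕ)) (f : ℕ → ℕ → ℕ), j < D → 1 ≤ j → j + 1 ≤ d → 1 ≤ m →
      Stair m d N f → ((EE N m d j).card : ℝ) ≤ τ * (m : ℝ) ^ j →
      ((EE N m d (j + 1)).card : ℝ) ≤ ψ * m * ((EE N m d j).card : ℝ) := by
    intro D
    induction D with
    | zero => exact ⟨1, one_pos, fun j m N f h => absurd h (Nat.not_lt_zero _)⟩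
    | succ D ih =>
      obtain ⟨τ, hτ, h⟩ := ih
      rcases Nat.eq_zero_or_pos D with h0 | h0
      · refine ⟨1, one_pos, fun j m N f h1 h2 => ?_⟩
        omega
      · obtain ⟨σ, hσ, h'⟩ := small D h0 ψ hψ
        refine ⟨min τ σ, lt_min hτ hσ, fun j m N f h1 h2 h3 h4 h5 h6 => ?_⟩
        have hmj : (0 : ℝ) ≤ (m : ℝ) ^ j := by positivity
        rcases Nat.lt_or_ge j D with h7 | h7
        · exact h j m N f h7 h2 h3 h4 h5
            (h6.trans (mul_le_mul_of_nonneg_right (min_le_left _ _) hmj))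
        · have h8 : j = D := by omega
          subst h8
          refine h' m (EE N m d j) (EE N m d (j + 1)) ?_ ?_
            (h6.trans (mul_le_mul_of_nonneg_right (min_le_right _ _) hmj))
          · intro v hv
            exact ⟨(mem_EE.mp hv).1.2.1, (mem_EE.mp hv).1.2.2⟩
          · intro w hw
            exact ⟨(mem_EE.mp hw).1.2.1, (mem_EE.mp hw).1.2.2,
              fun x hx => EE_erase h5 h4 h3 hw hx⟩
  obtain ⟨τ, hτ, h⟩ := key (d + 1)
  exact ⟨τ, hτ, fun j m N f h1 h2 h3 h4 h5 => h j m N f (by omega) h1 h2 h3 h4 h5⟩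

/-- `k + 1` steps. -/
theorem small_steps (d k : ℕ) : ∀ (ψ : ℝ), 0 < ψ → ∃ τ : ℝ, 0 < τ ∧
    ∀ (j m : ℕ) (N : Finset (Multiset ℕ)) (f : ℕ → ℕ → ℕ), 1 ≤ j → j + (k + 1) ≤ d → 1 ≤ m →
      Stair m d N f → ((EE N m d j).card : ℝ) ≤ τ * (m : ℝ) ^ j →
      ((EE N m d (j + (k + 1))).card : ℝ) ≤ ψ * (m : ℝ) ^ (k + 1) * ((EE N m d j).card : ℝ) := by
  induction k with
  | zero =>
    intro ψ hψ
    obtain ⟨τ, hτ, h⟩ := small_one d ψ hψ
    refine ⟨τ, hτ, fun j m N f h1 h2 h3 h4 h5 => ?_⟩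
    have := h j m N f h1 h2 h3 h4 h5
    simpa using this
  | succ k ih =>
    intro ψ hψ
    obtain ⟨τ, hτ, h⟩ := ih ψ hψ
    obtain ⟨σ, hσ, h'⟩ := small_one d (min 1 τ) (lt_min one_pos hτ)
    refine ⟨min 1 σ, lt_min one_pos hσ, fun j m N f h1 h2 h3 h4 h5 => ?_⟩
    have hm0 : (0 : ℝ) ≤ (m : ℝ) := Nat.cast_nonneg _
    have hmj : (0 : ℝ) ≤ (m : ℝ) ^ j := by positivity
    have hE : (0 : ℝ) ≤ ((EE N m d j).card : ℝ) := Nat.cast_nonneg _
    have hmin1 : min 1 τ ≤ 1 := min_le_left _ _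
    have hminτ : min 1 τ ≤ τ := min_le_right _ _
    have hmin0 : 0 < min 1 τ := lt_min one_pos hτ
    have h6 := h' j m N f h1 (by omega) h3 h4
      (h5.trans (mul_le_mul_of_nonneg_right (min_le_right _ _) hmj))
    have h51 : ((EE N m d j).card : ℝ) ≤ 1 * (m : ℝ) ^ j :=
      h5.trans (mul_le_mul_of_nonneg_right (min_le_left _ _) hmj)
    have h7 : ((EE N m d (j + 1)).card : ℝ) ≤ τ * (m : ℝ) ^ (j + 1) := by
      calc ((EE N m d (j + 1)).card : ℝ) ≤ min 1 τ * m * ((EE N m d j).card : ℝ) := h6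
        _ ≤ τ * m * (1 * (m : ℝ) ^ j) := by gcongr
        _ = τ * (m : ℝ) ^ (j + 1) := by ring
    have h8 := h (j + 1) m N f (by omega) (by omega) h3 h4 h7
    have e1 : j + (k + 1 + 1) = j + 1 + (k + 1) := by ring
    rw [e1]
    calc ((EE N m d (j + 1 + (k + 1))).card : ℝ)
        ≤ ψ * (m : ℝ) ^ (k + 1) * ((EE N m d (j + 1)).card : ℝ) := h8
      _ ≤ ψ * (m : ℝ) ^ (k + 1) * (1 * m * ((EE N m d j).card : ℝ)) := by
          apply mul_le_mul_of_nonneg_left _ (by positivity)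
          refine h6.trans ?_
          gcongr
      _ = ψ * (m : ℝ) ^ (k + 1 + 1) * ((EE N m d j).card : ℝ) := by ring

theorem small_chain (d : ℕ) (ψ : ℝ) (hψ : 0 < ψ) : ∃ τ : ℝ, 0 < τ ∧
    ∀ (e m : ℕ) (N : Finset (Multiset ℕ)) (f : ℕ → ℕ → ℕ), 2 ≤ e → e + 1 ≤ d → 1 ≤ m →
      Stair m d N f → ((EE N m d (d - e)).card : ℝ) ≤ τ * (m : ℝ) ^ (d - e) →
      ((EE N m d (d - 1)).card : ℝ) ≤ ψ * (m : ℝ) ^ (e - 1) * ((EE N m d (d - e)).card : ℝ) := by
  have key : ∀ K : ℕ, ∃ τ : ℝ, 0 < τ ∧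
      ∀ (k j m : ℕ) (N : Finset (Multiset ℕ)) (f : ℕ → ℕ → ℕ), k < K → 1 ≤ j →
      j + (k + 1) ≤ d → 1 ≤ m →
      Stair m d N f → ((EE N m d j).card : ℝ) ≤ τ * (m : ℝ) ^ j →
      ((EE N m d (j + (k + 1))).card : ℝ) ≤ ψ * (m : ℝ) ^ (k + 1) * ((EE N m d j).card : ℝ) := by
    intro K
    induction K with
    | zero => exact ⟨1, one_pos, fun k j m N f h => absurd h (Nat.not_lt_zero _)⟩
    | succ K ih =>
      obtain ⟨τ, hτ, h⟩ := ih
      obtain ⟨σ, hσ, h'⟩ := small_steps d K ψ hψ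
      refine ⟨min τ σ, lt_min hτ hσ, fun k j m N f h1 h2 h3 h4 h5 h6 => ?_⟩
      have hmj : (0 : ℝ) ≤ (m : ℝ) ^ j := by positivity
      rcases Nat.lt_or_ge k K with h7 | h7
      · exact h k j m N f h7 h2 h3 h4 h5
          (h6.trans (mul_le_mul_of_nonneg_right (min_le_left _ _) hmj))
      · have h8 : k = K := by omega
        subst h8
        exact h' j m N f h2 h3 h4 h5
          (h6.trans (mul_le_mul_of_nonneg_right (min_le_right _ _) hmj))
  obtain ⟨τ, hτ, h⟩ := key d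
  refine ⟨τ, hτ, fun e m N f he hed hm hN hc => ?_⟩
  have h1 := h (e - 2) (d - e) m N f (by omega) (by omega) (by omega) hm hN hc
  have e1 : d - e + (e - 2 + 1) = d - 1 := by omega
  have e2 : e - 2 + 1 = e - 1 := by omega
  rw [e1, e2] at h1
  exact h1

end Pool.Agent.XE

end

section

/-!
# XE2: small ranks, with the exponent

`|EE i|^j ≤ C |EE j|^i` for `1 ≤ j ≤ i ≤ d` (`kkp`, induction on `i`).
-/

set_option autoImplicit false

namespace Pool.Agent.XE2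

open Finset Pool.Agent.XD Pool.Agent.XE

theorem EE_pow_one (d i : ℕ) (hi : 1 ≤ i) (hid : i + 1 ≤ d) : ∃ C : ℝ, 0 < C ∧
    ∀ (m : ℕ) (N : Finset (Multiset ℕ)) (f : ℕ → ℕ → ℕ), 1 ≤ m → Stair m d N f →
      ((EE N m d (i + 1)).card : ℝ) ^ i ≤ C * ((EE N m d i).card : ℝ) ^ (i + 1) := by
  obtain ⟨C, hC, h⟩ := kkp i hi
  refine ⟨C, hC, fun m N f hm hN => h _ _ (fun v hv => (mem_EE.1 hv).1.2.1) fun w hw => ?_⟩
  exact ⟨(mem_EE.1 hw).1.2.1, fun x hx => EE_erase hN hm hid hw hx⟩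

theorem EE_pow (d j i : ℕ) (hj : 1 ≤ j) (hji : j ≤ i) (hid : i ≤ d) : ∃ C : ℝ, 0 < C ∧
    ∀ (m : ℕ) (N : Finset (Multiset ℕ)) (f : ℕ → ℕ → ℕ), 1 ≤ m → Stair m d N f →
      ((EE N m d i).card : ℝ) ^ j ≤ C * ((EE N m d j).card : ℝ) ^ i := by
  induction i, hji using Nat.le_induction with
  | base => exact ⟨1, one_pos, fun m N f _ _ => by rw [one_mul]⟩
  | succ i hji ih =>
    obtain ⟨C, hC, h⟩ := ih (by omega)
    obtain ⟨C', hC', h'⟩ := EE_pow_one d i (by omega) hid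
    obtain ⟨B, hB⟩ : ∃ B : ℝ, B = max 1 (C' ^ j * C ^ (i + 1)) := ⟨_, rfl⟩
    have hB1 : 1 ≤ B := by
      rw [hB]
      exact le_max_left _ _
    have hB2 : C' ^ j * C ^ (i + 1) ≤ B := by
      rw [hB]
      exact le_max_right _ _
    refine ⟨B, by linarith, fun m N f hm hN => ?_⟩
    have h1 := h m N f hm hN
    have h2 := h' m N f hm hN
    obtain ⟨x, hx⟩ : ∃ x : ℝ, x = ((EE N m d (i + 1)).card : ℝ) := ⟨_, rfl⟩
    obtain ⟨y, hy⟩ : ∃ y : ℝ, y = ((EE N m d i).card : ℝ) := ⟨_, rfl⟩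
    obtain ⟨z, hz⟩ : ∃ z : ℝ, z = ((EE N m d j).card : ℝ) := ⟨_, rfl⟩
    rw [← hy, ← hz] at h1
    rw [← hx, ← hy] at h2
    rw [← hx, ← hz]
    have hx0 : 0 ≤ x := by
      rw [hx]
      exact Nat.cast_nonneg _
    have hy0 : 0 ≤ y := by
      rw [hy]
      exact Nat.cast_nonneg _
    have hz0 : 0 ≤ z := by
      rw [hz]
      exact Nat.cast_nonneg _
    have h3 : (x ^ j) ^ i ≤ (B * z ^ (i + 1)) ^ i := by
      calc (x ^ j) ^ i = (x ^ i) ^ j := by rw [← pow_mul, ← pow_mul, mul_comm]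
        _ ≤ (C' * y ^ (i + 1)) ^ j := pow_le_pow_left₀ (by positivity) h2 _
        _ = C' ^ j * (y ^ j) ^ (i + 1) := by
            rw [mul_pow, ← pow_mul, ← pow_mul, mul_comm (i + 1) j]
        _ ≤ C' ^ j * (C * z ^ i) ^ (i + 1) := by
            refine mul_le_mul_of_nonneg_left (pow_le_pow_left₀ (by positivity) h1 _) (by positivity)
        _ = C' ^ j * C ^ (i + 1) * (z ^ (i + 1)) ^ i := by
            rw [mul_pow, ← pow_mul, ← pow_mul, mul_comm i (i + 1)]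
            ring
        _ ≤ B ^ i * (z ^ (i + 1)) ^ i := by
            refine mul_le_mul_of_nonneg_right ?_ (by positivity)
            refine hB2.trans ?_
            calc B = B ^ 1 := (pow_one B).symm
              _ ≤ B ^ i := pow_le_pow_right₀ hB1 (by omega)
        _ = (B * z ^ (i + 1)) ^ i := (mul_pow _ _ _).symm
    exact le_of_pow_le_pow_left₀ (by omega) (by positivity) h3

/-- One constant for all degrees. -/
theorem EE_pow_all (d : ℕ) (hd : 2 ≤ d) : ∃ C : ℝ, 1 ≤ C ∧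
    ∀ (j m : ℕ) (N : Finset (Multiset ℕ)) (f : ℕ → ℕ → ℕ), 1 ≤ j → j + 1 ≤ d → 1 ≤ m →
      Stair m d N f →
      ((EE N m d (d - 1)).card : ℝ) ^ j ≤ C * ((EE N m d j).card : ℝ) ^ (d - 1) := by
  have key : ∀ J : ℕ, ∃ C : ℝ, 1 ≤ C ∧
      ∀ (j m : ℕ) (N : Finset (Multiset ℕ)) (f : ℕ → ℕ → ℕ), j < J → 1 ≤ j → j + 1 ≤ d → 1 ≤ m →
      Stair m d N f →
      ((EE N m d (d - 1)).card : ℝ) ^ j ≤ C * ((EE N m d j).card : ℝ) ^ (d - 1) := by
    intro J
    induction J with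
    | zero => exact ⟨1, le_rfl, fun j m N f h => absurd h (Nat.not_lt_zero _)⟩
    | succ J ih =>
      obtain ⟨C, hC, h⟩ := ih
      by_cases hJ : 1 ≤ J ∧ J + 1 ≤ d
      · obtain ⟨C', hC', h'⟩ := EE_pow d J (d - 1) hJ.1 (by omega) (by omega)
        refine ⟨max C C', hC.trans (le_max_left _ _), fun j m N f h1 h2 h3 h4 h5 => ?_⟩
        have h6 : (0 : ℝ) ≤ ((EE N m d j).card : ℝ) ^ (d - 1) := by positivity
        rcases Nat.lt_or_ge j J with h7 | h7
        · exact (h j m N f h7 h2 h3 h4 h5).trans (mul_le_mul_of_nonneg_right (le_max_left _ _) h6)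
        · have h8 : j = J := by omega
          subst h8
          exact (h' m N f h4 h5).trans (mul_le_mul_of_nonneg_right (le_max_right _ _) h6)
      · refine ⟨C, hC, fun j m N f h1 h2 h3 h4 h5 => ?_⟩
        rcases Nat.lt_or_ge j J with h7 | h7
        · exact h j m N f h7 h2 h3 h4 h5
        · exfalso
          apply hJ
          omega
  obtain ⟨C, hC, h⟩ := key d
  exact ⟨C, hC, fun j m N f h2 h3 h4 h5 => h j m N f (by omega) h2 h3 h4 h5⟩

end Pool.Agent.XE2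

end
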