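import Pool.Agent.H94.LP7.M13
import Pool.Agent.H94.LP7.M37
import Pool.Agent.H94.LP7.M43

/-! The parts of this file: GD.AL.St_1, GD.AL.Bas_1, GD.AL.Reg, GD.AL.Tr_1. -/

section

/-!
# General d, ALPHA: states

A state: the sizes of the blocks `0, …, J - 1` (they may be zero), the number `w` of the other variables and
the configuration.  `H`, `V` = the general and the virtual dimension, `dl = H - V`, `Ex` = exactness.
`nz c0 n0 I D` = the natural size with the reference sizes `c0`, `n0`.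
-/

set_option autoImplicit false

namespace Pool.Agent.GD.AL

open Finset

/-- Other objects. -/
def St.wm (σ : St) (ms : Multiset Kd) : St := ⟨σ.c, σ.w, ms⟩

section basic

variable {d J D : ℕ}

@[simp] theorem bt_inl (c : ℕ → ℕ) (w : ℕ) (x : Σ l : Fin J, Fin (c l)) : bt J c w (.inl x) = x.1 := rfl

@[simp] theorem bt_inr (c : ℕ → ℕ) (w : ℕ) (x : Fin w) : bt J c w (.inr x) = J := rfl

theorem ok_blk {k : Kd} (h : k.Ok d J) : k.Blk J := by
  rcases k with ⟨e, A⟩ | ⟨e, dl, i, As⟩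
  · exact h.2.2
  · exact ⟨h.2.2.2.1, fun A hA => (h.2.2.2.2 A hA).trans (erase_subset _ _)⟩

theorem AdmO.ok {k : Kd} (h : AdmO d J k) : k.Ok d J := by
  obtain ⟨x, A, rfl, h1, h2, h3, -⟩ := h
  exact ⟨h1, h2, h3⟩

/-- The general dimension for any variables with the same sizes. -/
theorem St.H_eq {ν : Type} [Fintype ν] [DecidableEq ν] (hD : D ≤ d) (β : ν → ℕ) (σ : St)
    (h0 : Fintype.card ν = σ.n J)
    (h : ∀ i < J, (univ.filter fun s => β s = i).card = σ.c i) {I : Finset ℕ} (hI : I ⊆ range J)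
    (hm : ∀ k ∈ σ.ms, k.Blk J) : HI d D β I σ.ms = σ.H d J I D := by
  refine HI_size hD ?_ ?_ hI σ.ms hm
  · rw [h0, card_Vr]
    rfl
  · intro i hi
    rw [h i hi, card_bt _ _ hi]

end basic

end Pool.Agent.GD.AL

end

section

/-!
# General d, ALPHA: states, basic facts
-/

set_option autoImplicit false
set_option linter.unusedVariables false

namespace Pool.Agent.GD.AL

open Finset Pool.Agent.V7.ST Pool.Agent.H51.TB
open Pool.Agent.H21.NX (Sx mem_Sx)

/-! ### The number of the exponents -/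

section count

variable {ν : Type} [Fintype ν] [DecidableEq ν]

end count

section Bas

variable {d J D : ℕ} {σ : St} {I : Finset ℕ}

private theorem Bas_card_le {ν : Type} [Fintype ν] [DecidableEq ν] {β : ν → ℕ} {a : ν → ℕ}
    (h : a ∈ Ex β D I) : I.card ≤ D := by
  classical
  rw [mem_Ex] at h
  have h1 : ∀ i ∈ I, 1 ≤ ∑ s ∈ univ.filter (fun s => β s = i), a s := by
    intro i hi
    obtain ⟨s, hs, has⟩ := h.2 i hi
    have h2 : a s ≤ ∑ s ∈ univ.filter (fun s => β s = i), a s :=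
      single_le_sum (f := a) (fun _ _ => Nat.zero_le _) (mem_filter.2 ⟨mem_univ _, hs⟩)
    omega
  have h2 : I.card ≤ ∑ i ∈ I, ∑ s ∈ univ.filter (fun s => β s = i), a s := by
    rw [card_eq_sum_ones]
    exact sum_le_sum h1
  have h3 : ∑ i ∈ I, ∑ s ∈ univ.filter (fun s => β s = i), a s =
      ∑ s ∈ univ.filter (fun s => β s ∈ I), a s := by
    rw [← sum_fiberwise_of_maps_to (s := univ.filter fun s => β s ∈ I) (t := I) (g := β)
      (fun s hs => (mem_filter.1 hs).2)]
    refine sum_congr rfl fun i hi => sum_congr ?_ fun _ _ => rfl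
    ext s
    simp only [mem_filter, mem_univ, true_and]
    constructor
    · rintro rfl
      exact ⟨hi, rfl⟩
    · exact fun h => h.2
  rw [h3] at h2
  refine h2.trans ((sum_le_sum_of_subset (subset_univ _)).trans ?_)
  rw [h.1]

private theorem Bas_HI_low {ν : Type} [Fintype ν] [DecidableEq ν] (β : ν → ℕ) (hD : D < I.card)
    (ms : Multiset Kd) : HI d D β I ms = 0 := by
  have h1 : HI d D β I ms ≤ HI d D β I 0 := HI_anti D β I (Multiset.zero_le ms)
  have h2 : HI d D β I 0 = (Ex β D I).card := by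
    unfold HI
    rw [gM_zero, Fintype.card_coe]
  have h3 : (Ex β D I).card = 0 := by
    rw [card_eq_zero]
    refine eq_empty_of_forall_notMem fun a ha => ?_
    have := Bas_card_le ha
    omega
  omega

theorem St.H_low (hD : D < I.card) : σ.H d J I D = 0 :=
  Bas_HI_low _ hD _

/-- The empty configuration is exact. -/
theorem St.Ex_nil (hD : D ≤ d) (hI : I ⊆ range J) (hm : σ.ms = 0) : σ.Ex d J I D := by
  unfold St.Ex St.H St.V
  rw [hm]
  exact Bas_empty hI

/-- A killed vector: the virtual dimension. -/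
theorem St.V_kill {a : ℕ} (ha : a < J) (hc : 1 ≤ σ.c a) (hI : I ⊆ range J) :
    (σ.ad (.ord 1 ((range J).erase a))).V J I D = (σ.lo a 1).V J I D := by
  by_cases haI : a ∈ I
  · have h1 := vd_one_upd D (c := (σ.lo a 1).c) (n := (σ.lo a 1).n J) haI
      (notMem_erase a (range J)) (erase_subset_erase a hI) (Bas_sum_lo hI) σ.ms
    have h2 : Function.update (σ.lo a 1).c a ((σ.lo a 1).c a + 1) = σ.c := by
      funext i
      by_cases h : i = a
      · subst h
        rw [Function.update_self]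
        show Function.update σ.c i (σ.c i - 1) i + 1 = σ.c i
        rw [Function.update_self]
        omega
      · rw [Function.update_of_ne h]
        exact Function.update_of_ne h _ _
    rw [h2, σ.n_lo ha hc] at h1
    exact h1
  · have h1 := vd_one D (A := (range J).erase a)
      (fun i hi => mem_erase.2 ⟨fun h => haI (h ▸ hi), hI hi⟩)
      (Bas_sum_notMem (σ := σ) haI hI) σ.ms
    rw [σ.n_lo ha hc] at h1
    show vd D I σ.c (σ.n J) _ = vd D I (σ.lo a 1).c ((σ.lo a 1).n J) σ.ms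
    rw [Bas_V_lo_notMem haI]
    exact h1

theorem St.V_killw (hw : 1 ≤ σ.w) (hI : I ⊆ range J) :
    (σ.ad (.ord 1 (range J))).V J I D = (σ.lw 1).V J I D := by
  have h1 := vd_one D hI (Bas_sum_lw (σ := σ) hI 1) σ.ms
  rw [σ.n_lw hw] at h1
  exact h1

/-- An object may be specialised into the blocks which are not in `I`. -/
theorem St.dl_spec (hD : D ≤ d) {x : ℕ} {A B : Finset ℕ} (hAB : A ⊆ B) (h : I ∩ A = I ∩ B) :
    (σ.ad (.ord x A)).dl d J I D ≤ (σ.ad (.ord x B)).dl d J I D := by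
  unfold St.dl
  have h1 : (σ.ad (.ord x A)).V J I D = (σ.ad (.ord x B)).V J I D :=
    vd_ord_congr D I σ.c (σ.n J) x (by rw [inter_comm A, inter_comm B, h]) σ.ms
  have h2 : (σ.ad (.ord x A)).H d J I D ≤ (σ.ad (.ord x B)).H d J I D :=
    HI_ord_le hD _ I x hAB σ.ms
  rw [h1]
  have h3 : ((σ.ad (.ord x A)).H d J I D : ℤ) ≤ ((σ.ad (.ord x B)).H d J I D : ℤ) := by
    exact_mod_cast h2
  omega

/-- A point whose exponent is larger than the degree gives no conditions. -/
private theorem Bas_void {ν : Type} [Fintype ν] [DecidableEq ν] (hD : D ≤ d) (β : ν → ℕ) {x : ℕ}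
    (A : Finset ℕ) (h : D < x) (ms : Multiset Kd) :
    HI d D β I ms ≤ HI d D β I (.ord x A ::ₘ ms) := by
  obtain ⟨m, hm, -⟩ := exists_conf (LS d D β I) ms
  obtain ⟨p, hp⟩ := gd_attained (LS d D β I) (ad m (.ord x A))
  have h1 : HI d D β I (.ord x A ::ₘ ms) = (LS d D β I).gd (ad m (.ord x A)) := by
    unfold HI
    rw [gd_eq_gM, map_ad, hm]
  have h2 : HI d D β I ms = (LS d D β I).gd m := by
    unfold HI
    rw [gd_eq_gM, hm]
  rw [h1, h2, ← hp]
  refine (gd_le (LS d D β I) m fun i => p (Sum.inl i)).trans (Submodule.finrank_mono fun f hf => ?_)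
  rw [mem_LS hD] at hf ⊢
  intro i
  rcases i with i | u
  · exact hf i
  · refine ⟨fun y hy => ?_, trivial⟩
    refine (sata_iff (fun a ha => Ex_sum ha) _ f _).1 fun b hb => ?_
    exact absurd hb (by show ¬ (∑ s, b s + x ≤ D); omega)

/-- Points without effect. -/
theorem St.dl_drop (hD : D ≤ d) (hI : I ⊆ range J) (hm : ∀ k ∈ σ.ms, AdmO d J k) {x : ℕ}
    (A : Finset ℕ) (h : D < x ∨ D - x < (I ∩ A).card) :
    (σ.ad (.ord x A)).H d J I D = σ.H d J I D ∧ (σ.ad (.ord x A)).V J I D = σ.V J I D := by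
  rcases lt_or_ge D x with hx | hx
  · exact ⟨le_antisymm (HI_cons_le D _ I _ _) (Bas_void hD _ A hx _), σ.V_ord_lt A hx⟩
  · have h' : D - x < (I ∩ A).card := h.resolve_left (by omega)
    constructor
    · refine le_antisymm (HI_cons_le D _ I _ _) ?_
      have h1 := HI_ctr hD hx (bt J σ.c σ.w) I A σ.ms
      rw [Bas_HI_low _ h' σ.ms, Nat.add_zero] at h1
      exact h1
    · rw [σ.V_ord A hx, σ.V_low (inter_subset_left.trans hI) hm h', sub_zero]

/-- `FACT 4`. -/
theorem St.dl_fact4 (hD : D ≤ d) {x : ℕ} (A : Finset ℕ) (hx : x ≤ D) :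
    σ.dl d J I D ≤ (σ.ad (.ord x A)).dl d J I D + σ.dl d J (I ∩ A) (D - x) := by
  unfold St.dl
  rw [σ.V_ord A hx]
  have h1 : σ.H d J I D ≤ (σ.ad (.ord x A)).H d J I D + σ.H d J (I ∩ A) (D - x) :=
    HI_ctr hD hx (bt J σ.c σ.w) I A σ.ms
  have h2 : (σ.H d J I D : ℤ) ≤ ((σ.ad (.ord x A)).H d J I D : ℤ) +
      (σ.H d J (I ∩ A) (D - x) : ℤ) := by exact_mod_cast h1
  omega

end Bas

end Pool.Agent.GD.AL

end

section

/-!
# General d, ALPHA: monotony, lower bound, numbers
-/

set_option autoImplicit false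

namespace Pool.Agent.GD.AL

open Finset

section Reg

variable {d J D : ℕ} {σ : St} {I : Finset ℕ} {c0 : ℕ → ℕ} {n0 : ℕ} {η : ℝ}

private theorem nz_nonneg (c0 : ℕ → ℕ) (n0 : ℕ) (I : Finset ℕ) (D : ℕ) : 0 ≤ nz c0 n0 I D := by
  unfold nz
  positivity

/-- the complement of `I' ∩ A` -/
private theorem card_cut {I I' A : Finset ℕ} {J x : ℕ} (hI : I ⊆ range J) (_ : I' ⊆ I)
    (hA : (range J \ A).card ≤ x) : (I \ (I' ∩ A)).card ≤ (I \ I').card + x := by
  have h1 : I \ (I' ∩ A) ⊆ (I \ I') ∪ (range J \ A) := by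
    intro y hy
    rw [mem_sdiff] at hy
    rw [mem_union, mem_sdiff, mem_sdiff]
    by_cases h : y ∈ I'
    · exact Or.inr ⟨hI hy.1, fun hyA => hy.2 (Finset.mem_inter.2 ⟨h, hyA⟩)⟩
    · exact Or.inl ⟨hy.1, h⟩
  have h2 := (card_le_card h1).trans (card_union_le _ _)
  omega

private theorem wm_ad (σ : St) (T : Multiset Kd) (k : Kd) : σ.wm (k ::ₘ T) = (σ.wm T).ad k := rfl

private theorem wm_self (σ : St) : σ.wm σ.ms = σ := rfl

/-- induction on the sub-multisets -/
private theorem ind_le {P : Multiset Kd → Prop} (M : Multiset Kd) (S : Multiset Kd) (hS : S ≤ M)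
    (h0 : P S) (hs : ∀ k T, k ::ₘ T ≤ M → P T → P (k ::ₘ T)) : P M := by
  obtain ⟨U, rfl⟩ := Multiset.le_iff_exists_add.1 hS
  clear hS
  have key : ∀ U' ≤ U, P (S + U') := by
    intro U'
    induction U' using Multiset.induction_on with
    | empty =>
      intro _
      rwa [add_zero]
    | cons k T ih =>
      intro hU
      have h1 : T ≤ U := (Multiset.le_cons_self T k).trans hU
      have h2 : S + k ::ₘ T = k ::ₘ (S + T) := by
        rw [Multiset.add_cons]
      rw [h2]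
      refine hs k (S + T) ?_ (ih h1)
      rw [← h2]
      exact add_le_add_right hU S
  exact key U le_rfl

/-- Fewer objects: the virtual dimensions are larger. -/
theorem V_sub (hI : I ⊆ range J) (hm : ∀ k ∈ σ.ms, AdmO d J k) (hη : 0 ≤ η)
    (hp : PosL J c0 n0 η σ I D) {S : Multiset Kd} (hS : S ≤ σ.ms) :
    ∀ I' ⊆ I, ∀ D' : ℕ, D' + (I \ I').card ≤ D → σ.V J I' D' ≤ (σ.wm S).V J I' D' := by
  have key : ∀ D' : ℕ, ∀ S ≤ σ.ms, ∀ I' ⊆ I, D' + (I \ I').card ≤ D →
      σ.V J I' D' ≤ (σ.wm S).V J I' D' := by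
    intro D'
    induction D' using Nat.strong_induction_on with
    | _ D' ih =>
      intro S hS I' hI' hD'
      refine ind_le (P := fun M => (σ.wm M).V J I' D' ≤ (σ.wm S).V J I' D') σ.ms S hS le_rfl ?_
      intro k T hT hPT
      refine le_trans ?_ hPT
      obtain ⟨x, A, rfl, hx1, hxd, hAJ, hAx⟩ := hm k (Multiset.mem_of_le hT (Multiset.mem_cons_self k T))
      have hTσ : T ≤ σ.ms := (Multiset.le_cons_self T _).trans hT
      rw [wm_ad]
      by_cases hx : x ≤ D'
      · rw [St.V_ord A hx]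
        have hcut := card_cut hI hI' hAx
        have hnn : 0 ≤ (σ.wm T).V J (I' ∩ A) (D' - x) := by
          by_cases hlow : D' - x < (I' ∩ A).card
          · rw [St.V_low (d := d) (inter_subset_left.trans (hI'.trans hI))
              (fun k hk => hm k (Multiset.mem_of_le hTσ hk)) hlow]
          · have h1 := ih (D' - x) (by omega) T hTσ (I' ∩ A) (inter_subset_left.trans hI') (by omega)
            have h2 := hp (I' ∩ A) (inter_subset_left.trans hI') (D' - x) (by omega) (by omega)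
              (by omega)
            have h3 : (0 : ℝ) ≤ (σ.V J (I' ∩ A) (D' - x) : ℝ) :=
              le_trans (mul_nonneg hη (nz_nonneg _ _ _ _)) h2
            have h4 : 0 ≤ σ.V J (I' ∩ A) (D' - x) := by exact_mod_cast h3
            exact h4.trans h1
        linarith
      · rw [St.V_ord_lt A (by omega)]
  intro I' hI' D' hD'
  exact key D' S hS I' hI' hD'

/-- The lower bound `V ≤ H`. -/
theorem lbO (hD : D ≤ d) (hI : I ⊆ range J) (hm : ∀ k ∈ σ.ms, AdmO d J k)
    (hex : ∀ S ≤ σ.ms, ∀ I' ⊆ I, ∀ D' < D, D' + (I \ I').card ≤ D → (σ.wm S).dl d J I' D' ≤ 0) :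
    σ.V J I D ≤ σ.H d J I D := by
  have h0 : 0 ≤ (σ.wm σ.ms).dl d J I D := by
    refine ind_le (P := fun M => 0 ≤ (σ.wm M).dl d J I D) σ.ms 0 (Multiset.zero_le _) ?_ ?_
    · have h1 : (σ.wm 0).Ex d J I D := St.Ex_nil hD hI rfl
      have h2 : ((σ.wm 0).H d J I D : ℤ) = (σ.wm 0).V J I D := h1
      show 0 ≤ ((σ.wm 0).H d J I D : ℤ) - (σ.wm 0).V J I D
      omega
    · intro k T hT hPT
      obtain ⟨x, A, rfl, hx1, hxd, hAJ, hAx⟩ :=
        hm k (Multiset.mem_of_le hT (Multiset.mem_cons_self k T))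
      have hTσ : T ≤ σ.ms := (Multiset.le_cons_self T _).trans hT
      rw [wm_ad]
      by_cases hx : x ≤ D
      · have h1 := St.dl_fact4 (σ := σ.wm T) (J := J) (I := I) hD A hx
        have hcut := card_cut hI (subset_refl I) hAx
        rw [Finset.sdiff_self, card_empty] at hcut
        have h2 := hex T hTσ (I ∩ A) inter_subset_left (D - x) (by omega) (by omega)
        linarith
      · obtain ⟨h1, h2⟩ := St.dl_drop (σ := σ.wm T) hD hI
          (fun k hk => hm k (Multiset.mem_of_le hTσ hk)) (x := x) A (Or.inl (by omega))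
        have h3 : ((σ.wm T).ad (.ord x A)).dl d J I D = (σ.wm T).dl d J I D := by
          show (((σ.wm T).ad (.ord x A)).H d J I D : ℤ) - ((σ.wm T).ad (.ord x A)).V J I D = _
          rw [h1, h2]
          rfl
        rw [h3]
        exact hPT
  rw [wm_self] at h0
  have h1 : 0 ≤ (σ.H d J I D : ℤ) - σ.V J I D := h0
  omega

private theorem InO.wm {ϖ : ℝ} (ho : InO d J c0 n0 ϖ I σ) {S : Multiset Kd} (hS : S ≤ σ.ms) :
    InO d J c0 n0 ϖ I (σ.wm S) where
  c := ho.c
  c' := ho.c'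
  n := ho.n
  w := ho.w
  adm k hk := ho.adm k (Multiset.mem_of_le hS hk)

/-- The lower bound from the oracle. -/
theorem lb_orc {G : Multiset Kd → Prop} {ϖ : ℝ} (hD : D ≤ d) (hI : I ⊆ range J)
    (ho : InO d J c0 n0 ϖ I σ) (hG : ∀ S ≤ σ.ms, G S) (hη : 0 ≤ η)
    (hp : PosL J c0 n0 η σ I D) (orc : Orc d J c0 n0 G I D η ϖ) :
    σ.V J I D ≤ σ.H d J I D ∧ ExL d J σ I D := by
  have key : ∀ S ≤ σ.ms, ∀ I' ⊆ I, ∀ D' < D, D' + (I \ I').card ≤ D →
      (σ.wm S).Ex d J I' D' := by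
    intro S hS I' hI' D' hD' hDI
    refine orc (σ.wm S) (InO.wm ho hS) (hG S hS) I' hI' D' hD' ?_
    intro I'' hI'' D'' h1 h2
    have h3 : (I \ I'').card ≤ (I \ I').card + (I' \ I'').card := by
      have h4 : I \ I'' ⊆ (I \ I') ∪ (I' \ I'') := by
        intro y hy
        simp only [mem_sdiff, mem_union] at hy ⊢
        by_cases h : y ∈ I'
        · exact Or.inr ⟨h, hy.2⟩
        · exact Or.inl ⟨hy.1, h⟩
      exact (card_le_card h4).trans (card_union_le _ _)
    have h5 := hp I'' (hI''.trans hI') D'' h1 (by omega) (by omega)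
    have h6 := V_sub hI ho.adm hη hp hS I'' (hI''.trans hI') D'' (by omega)
    have h7 : (σ.V J I'' D'' : ℝ) ≤ ((σ.wm S).V J I'' D'' : ℝ) := by exact_mod_cast h6
    exact h5.trans h7
  refine ⟨lbO hD hI ho.adm fun S hS I' hI' D' hD' hDI => ?_, fun I' hI' D' hD' hDI => ?_⟩
  · have h1 : ((σ.wm S).H d J I' D' : ℤ) = (σ.wm S).V J I' D' := key S hS I' hI' D' hD' hDI
    show ((σ.wm S).H d J I' D' : ℤ) - (σ.wm S).V J I' D' ≤ 0
    omega
  · exact key σ.ms le_rfl I' hI' D' hD' hDI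

/-- The natural size of the effect of an object. -/
noncomputable def nk (c0 : ℕ → ℕ) (n0 : ℕ) (I : Finset ℕ) (D : ℕ) : Kd → ℝ
  | .ord x A => if x ≤ D ∧ (I ∩ A).card ≤ D - x then nz c0 n0 (I ∩ A) (D - x) else 0
  | .cl _ _ _ _ => 0

/-- The number of the objects. -/
theorem numb {ϖ : ℝ} (hD : D ≤ d) (hI : I ⊆ range J) (hID : I.card ≤ D) (ho : InO d J c0 n0 ϖ I σ)
    (hη : 0 < η) (hp : Pos J c0 n0 η σ I D) :
    η * (σ.ms.map (nk c0 n0 I D)).sum ≤ nz c0 n0 I D := by
  have hpL : PosL J c0 n0 η σ I D := fun I' hI' D' h1 _ h3 => hp I' hI' D' h1 h3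
  have h0 : η * ((σ.wm σ.ms).ms.map (nk c0 n0 I D)).sum ≤
      ((σ.wm 0).V J I D : ℝ) - ((σ.wm σ.ms).V J I D : ℝ) := by
    refine ind_le (P := fun M => η * ((σ.wm M).ms.map (nk c0 n0 I D)).sum ≤
      ((σ.wm 0).V J I D : ℝ) - ((σ.wm M).V J I D : ℝ)) σ.ms 0 (Multiset.zero_le _) ?_ ?_
    · show η * ((0 : Multiset Kd).map (nk c0 n0 I D)).sum ≤ _
      rw [Multiset.map_zero, Multiset.sum_zero, mul_zero, sub_self]
    · intro k T hT hPT
      obtain ⟨x, A, rfl, hx1, hxd, hAJ, hAx⟩ :=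
        ho.adm k (Multiset.mem_of_le hT (Multiset.mem_cons_self k T))
      have hTσ : T ≤ σ.ms := (Multiset.le_cons_self T _).trans hT
      have hsum : ((σ.wm (Kd.ord x A ::ₘ T)).ms.map (nk c0 n0 I D)).sum =
          nk c0 n0 I D (.ord x A) + ((σ.wm T).ms.map (nk c0 n0 I D)).sum := by
        show ((Kd.ord x A ::ₘ T).map (nk c0 n0 I D)).sum = _
        rw [Multiset.map_cons, Multiset.sum_cons]
        rfl
      rw [hsum, wm_ad, mul_add]
      have hnk : nk c0 n0 I D (.ord x A) =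
        if x ≤ D ∧ (I ∩ A).card ≤ D - x then nz c0 n0 (I ∩ A) (D - x) else 0 := rfl
      by_cases hx : x ≤ D
      · rw [St.V_ord A hx]
        push_cast
        have hcut := card_cut hI (subset_refl I) hAx
        rw [Finset.sdiff_self, card_empty] at hcut
        by_cases hlow : (I ∩ A).card ≤ D - x
        · rw [hnk, if_pos ⟨hx, hlow⟩]
          have h2 := hp (I ∩ A) inter_subset_left (D - x) hlow (by omega)
          have h3 := V_sub hI ho.adm hη.le hpL hTσ (I ∩ A) inter_subset_left (D - x) (by omega)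
          have h4 : (σ.V J (I ∩ A) (D - x) : ℝ) ≤ ((σ.wm T).V J (I ∩ A) (D - x) : ℝ) := by
            exact_mod_cast h3
          linarith
        · rw [hnk, if_neg (fun h => hlow h.2), mul_zero,
            St.V_low (d := d) (inter_subset_left.trans hI)
              (fun k hk => ho.adm k (Multiset.mem_of_le hTσ hk)) (by omega)]
          push_cast
          linarith
      · rw [St.V_ord_lt A (by omega), hnk, if_neg (fun h => hx h.1), mul_zero]
        linarith
  rw [wm_self] at h0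
  have h1 : ((σ.wm 0).V J I D : ℝ) ≤ nz c0 n0 I D := by
    have h2 : ((σ.wm 0).H d J I D : ℤ) = (σ.wm 0).V J I D := St.Ex_nil hD hI rfl
    have h3 : ((σ.wm 0).H d J I D : ℝ) ≤ nz c0 n0 I D :=
      St.H_le hD hI (fun l _ => ho.c l) ho.n hID
    have h4 : ((σ.wm 0).V J I D : ℝ) = ((σ.wm 0).H d J I D : ℝ) := by exact_mod_cast h2.symm
    rw [h4]
    exact h3
  have h2 := hp I (subset_refl I) D hID (by rw [Finset.sdiff_self, card_empty]; omega)
  have h3 : 0 ≤ η * nz c0 n0 I D := mul_nonneg hη.le (nz_nonneg _ _ _ _)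
  linarith

end Reg

end Pool.Agent.GD.AL

end

section

/-!
# General d, ALPHA: transport for ordinary objects

Note 4268 (TR).  `TrC` is the class of the states, `tls` the loss of an object, `twt` its weight (for the
well-founded induction), `tr_step` one step, `tr_ord` the result.
-/

set_option autoImplicit false

namespace Pool.Agent.GD.AL

open Finset

section Tr

variable {d J D : ℕ} {c0 : ℕ → ℕ} {n0 : ℕ} {I : Finset ℕ}

/-- The loss of an object. -/
noncomputable def tls (c0 : ℕ → ℕ) (n0 : ℕ) (I : Finset ℕ) (D : ℕ) (eb : ℕ → ℝ) : Kd → ℝ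
  | .ord x A => eb (I \ A).card * nk c0 n0 I D (.ord x A)
  | .cl _ _ _ _ => 0

/-- The weight of an object. -/
def twt (J : ℕ) : Kd → ℕ
  | .ord x A => x * (J + 1) + (range J \ A).card + 1
  | .cl _ _ _ _ => 1

theorem tr_nk_nonneg (k : Kd) : 0 ≤ nk c0 n0 I D k := by
  rcases k with ⟨x, A⟩ | ⟨_, _, _, _⟩
  · show 0 ≤ (if x ≤ D ∧ (I ∩ A).card ≤ D - x then nz c0 n0 (I ∩ A) (D - x) else 0)
    split_ifs
    · exact tr_nz_nonneg _ _ _ _
    · exact le_rfl
  · exact le_rfl

theorem tr_tls_nonneg {eb : ℕ → ℝ} (heb : ∀ b, 0 ≤ eb b) (k : Kd) :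
    0 ≤ tls c0 n0 I D eb k := by
  rcases k with ⟨x, A⟩ | ⟨_, _, _, _⟩
  · exact mul_nonneg (heb _) (tr_nk_nonneg _)
  · exact le_rfl

theorem tr_sum_nonneg {eb : ℕ → ℝ} (heb : ∀ b, 0 ≤ eb b) (ms : Multiset Kd) :
    0 ≤ (ms.map (tls c0 n0 I D eb)).sum := by
  refine Multiset.sum_nonneg fun y hy => ?_
  obtain ⟨k, _, rfl⟩ := Multiset.mem_map.1 hy
  exact tr_tls_nonneg heb k

/-- The measure. -/
def tmu (J : ℕ) (σ : St) : ℕ := (σ.ms.map (twt J)).sum

/-- The virtual dimension minus the losses. -/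
noncomputable def tval (J : ℕ) (c0 : ℕ → ℕ) (n0 : ℕ) (I : Finset ℕ) (D : ℕ) (eb : ℕ → ℝ) (σ : St) : ℝ :=
  (σ.V J I D : ℝ) - (σ.ms.map (tls c0 n0 I D eb)).sum

end Tr

end Pool.Agent.GD.AL

end
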