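import Pool.Agent.H94.LP7.M24
import Pool.Agent.H94.LP7.M40

/-! The parts of this file: GD.AL.CDef, GD.AL.Om. -/

section

/-!
# General d, ALPHA, part C (clusters): definitions
-/

set_option autoImplicit false

namespace Pool.Agent.GD.AL

open Finset

/-- The members as ordinary objects. -/
def mb (e : ℕ) (As : List (Finset ℕ)) : Multiset Kd := ((As.map (Kd.ord e) : List Kd) : Multiset Kd)

/-- The members which vanish on the block `i`. -/
def mbI (e i : ℕ) (As : List (Finset ℕ)) : Multiset Kd :=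
  ((As.map fun A => Kd.ord e (insert i A) : List Kd) : Multiset Kd)

/-- The clusters. -/
def AdmC (d J e : ℕ) (k : Kd) : Prop :=
  ∃ dl i As, k = .cl e dl i As ∧ 2 ≤ e ∧ 1 ≤ As.length ∧ trx e dl As.length ≤ d ∧ i < J ∧
    ∀ A ∈ As, A ⊆ (range J).erase i ∧ ((range J).erase i \ A).card ≤ e - 1

/-- The trace on `L_i`. -/
def St.li (σ : St) (i : ℕ) : St := ⟨Function.update σ.c i 0, σ.w, σ.ms.bind (tri i)⟩

theorem AdmC.ok {d J e : ℕ} {k : Kd} (h : AdmC d J e k) : k.Ok d J := by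
  obtain ⟨dl, i, As, rfl, h1, h2, h3, h4, h5⟩ := h
  exact ⟨h1, h2, h3, h4, fun A hA => (h5 A hA).1⟩

/-- The relative size of the effect of a point of exponent `e - 1` with the support `T`. -/
noncomputable def rl (c0 : ℕ → ℕ) (n0 e : ℕ) (T : Finset ℕ) : ℝ :=
  1 / ((∏ l ∈ T, (c0 l : ℝ)) * (n0 : ℝ) ^ (e - 1 - T.card))

/-- The clusters for `CL2`. -/
def Pl (J : ℕ) : Kd → Prop
  | .ord _ _ => False
  | .cl _ dl i As => dl = 0 ∧ 2 ≤ As.length ∧ ∀ A ∈ As, A = (range J).erase i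

open Classical in
/-- The weight of an object. -/
noncomputable def om (c0 : ℕ → ℕ) (n0 J : ℕ) : Kd → ℝ
  | .ord _ _ => 0
  | .cl e dl i As => if Pl J (.cl e dl i As) then 1 / ((c0 i : ℝ) * (n0 : ℝ) ^ (e - 1))
      else (As.map fun A => rl c0 n0 e ((range J).erase i \ A)).foldr min 1

/-- The class of the states with clusters. -/
structure InC (d J e : ℕ) (c0 : ℕ → ℕ) (n0 : ℕ) (ϖ θ : ℝ) (I : Finset ℕ) (σ : St) : Prop where
  c : ∀ l, σ.c l ≤ c0 l
  c' : ∀ l ∈ I, ϖ * c0 l ≤ (σ.c l : ℝ)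
  n : σ.n J ≤ n0
  w : ϖ * n0 ≤ (σ.w : ℝ)
  adm : ∀ k ∈ σ.ms, AdmO d J k ∨ AdmC d J e k
  om : (σ.ms.map (om c0 n0 J)).sum ≤ θ

/-- There are enough ordinary points for the groups of `CL2`. -/
def IP (J e : ℕ) (c0 : ℕ → ℕ) (N : ℕ) (ms : Multiset Kd) : Prop :=
  ∀ i < J, (∃ m, 2 ≤ m ∧ .cl e 0 i (List.replicate m ((range J).erase i)) ∈ ms) →
    N * c0 i ≤ ms.count (.ord e ((range J).erase i))

/-- The reference sizes. -/
structure Rf (J : ℕ) (c0 : ℕ → ℕ) (n0 : ℕ) (K : ℝ) : Prop where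
  c : ∀ l < J, K ≤ (c0 l : ℝ)
  n : K * (1 + ∑ l ∈ range J, (c0 l : ℝ)) ≤ (n0 : ℝ)

/-- The members of an object. -/
def mmb : Kd → Multiset Kd
  | .ord e A => {.ord e A}
  | .cl e _ _ As => mb e As

/-- `R` arises from `ms` if some clusters are replaced by their members and some objects are omitted. -/
def Fam (ms R : Multiset Kd) : Prop := ∃ U C O : Multiset Kd, U + C ≤ ms ∧ O ≤ C.bind mmb ∧ R = U + O

/-- Bounds from both sides at the lower pairs. -/
def BP (J : ℕ) (c0 : ℕ → ℕ) (n0 : ℕ) (η : ℝ) (σ : St) (I : Finset ℕ) (D : ℕ) : Prop :=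
  ∀ I' ⊆ I, ∀ D' : ℕ, I'.card ≤ D' → D' < D → D' + (I \ I').card ≤ D →
    η * nz c0 n0 I' D' ≤ (σ.V J I' D' : ℝ) ∧ (σ.V J I' D' : ℝ) ≤ 2 * nz c0 n0 I' D'

/-- The upper bound for the states with clusters. -/
def XC (d J e D : ℕ) : Prop := ∀ η ϖ : ℝ, 0 < η → 0 < ϖ → ∃ θ : ℝ, 0 < θ ∧ ∃ F : (ℕ → ℕ) → ℕ,
  ∀ c0 : ℕ → ℕ, Hr 0 J F c0 → ∃ n1 : ℕ, ∀ n0, n1 ≤ n0 → ∀ (σ : St) (I : Finset ℕ), I ⊆ range J →
    InC d J e c0 n0 ϖ θ I σ → HH D I σ.ms →
    IP J e c0 ((D + 1) * d) σ.ms → Pos J c0 n0 η σ I D → σ.dl d J I D ≤ 0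

/-- The same if all clusters are clusters for `CL2` at levels in `I`. -/
def XP (d J e D : ℕ) : Prop := ∀ η ϖ : ℝ, 0 < η → 0 < ϖ → ∃ θ : ℝ, 0 < θ ∧ ∃ F : (ℕ → ℕ) → ℕ,
  ∀ c0 : ℕ → ℕ, Hr 0 J F c0 → ∃ n1 : ℕ, ∀ n0, n1 ≤ n0 → ∀ (σ : St) (I : Finset ℕ), I ⊆ range J →
    InC d J e c0 n0 ϖ θ I σ →
    (∀ k ∈ σ.ms, AdmO d J k ∨ ∃ i ∈ I, ∃ m, 2 ≤ m ∧
      k = .cl e 0 i (List.replicate m ((range J).erase i))) →
    IP J e c0 ((D + 1) * d) σ.ms → Pos J c0 n0 η σ I D → σ.dl d J I D ≤ 0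

end Pool.Agent.GD.AL

end

section

/-!
# General d, ALPHA, part C: the weights
-/

set_option autoImplicit false

namespace Pool.Agent.GD.AL

open Finset

section

variable {d J D e : ℕ} {σ : St} {I : Finset ℕ} {c0 : ℕ → ℕ} {n0 : ℕ} {η ϖ θ : ℝ}

theorem Rf.c1 {m0 : ℝ} (hm0 : 1 ≤ m0) (hR : Rf J c0 n0 m0) {l : ℕ} (hl : l < J) :
    (1 : ℝ) ≤ (c0 l : ℝ) := hm0.trans (hR.c l hl)

theorem Rf.sum_nn (J : ℕ) (c0 : ℕ → ℕ) : (0 : ℝ) ≤ ∑ l ∈ range J, (c0 l : ℝ) :=
  sum_nonneg fun _ _ => Nat.cast_nonneg _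

theorem Rf.n1 {m0 : ℝ} (hm0 : 1 ≤ m0) (hR : Rf J c0 n0 m0) : m0 ≤ (n0 : ℝ) := by
  have h1 := hR.n
  have h2 := Rf.sum_nn J c0
  nlinarith

theorem Rf.lt (hR : Rf J c0 n0 1) {l : ℕ} (hl : l < J) : (c0 l : ℝ) + 1 ≤ (n0 : ℝ) := by
  have h1 := hR.n
  have h2 : (c0 l : ℝ) ≤ ∑ l ∈ range J, (c0 l : ℝ) :=
    single_le_sum (f := fun l => (c0 l : ℝ)) (fun _ _ => Nat.cast_nonneg _) (mem_range.2 hl)
  linarith

theorem prod_ge1 (hR : Rf J c0 n0 1) {T : Finset ℕ} (hT : T ⊆ range J) :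
    (1 : ℝ) ≤ ∏ l ∈ T, (c0 l : ℝ) := by
  rw [← prod_const_one (s := T)]
  exact prod_le_prod (fun _ _ => zero_le_one) fun l hl => hR.c1 le_rfl (mem_range.1 (hT hl))

theorem prod_le_pow (hR : Rf J c0 n0 1) {T : Finset ℕ} (hT : T ⊆ range J) :
    ∏ l ∈ T, (c0 l : ℝ) ≤ (n0 : ℝ) ^ T.card := by
  rw [← prod_const]
  exact prod_le_prod (fun _ _ => Nat.cast_nonneg _) fun l hl => by
    have := hR.lt (mem_range.1 (hT hl))
    linarith

theorem rl_nonneg (T : Finset ℕ) : 0 ≤ rl c0 n0 e T := by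
  unfold rl
  positivity

theorem rl_le_one (hR : Rf J c0 n0 1) {T : Finset ℕ} (hT : T ⊆ range J) : rl c0 n0 e T ≤ 1 := by
  unfold rl
  have h1 := prod_ge1 hR hT
  have h2 : (1 : ℝ) ≤ (n0 : ℝ) ^ (e - 1 - T.card) := one_le_pow₀ (hR.n1 le_rfl)
  rw [div_le_one (by positivity)]
  nlinarith

theorem foldr_nonneg {L : List ℝ} (h : ∀ x ∈ L, 0 ≤ x) : 0 ≤ L.foldr min 1 := by
  induction L with
  | nil => simp
  | cons a L ih =>
    rw [List.foldr_cons]
    exact le_min (h a (by simp)) (ih fun x hx => h x (by simp [hx]))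

theorem foldr_le {L : List ℝ} {x : ℝ} (hx : x ∈ L) : L.foldr min 1 ≤ x := by
  induction L with
  | nil => simp at hx
  | cons a L ih =>
    rw [List.foldr_cons]
    rcases List.mem_cons.1 hx with h | h
    · rw [h]
      exact min_le_left _ _
    · exact (min_le_right _ _).trans (ih h)

theorem foldr_mem {L : List ℝ} (h0 : L ≠ []) (h : ∀ x ∈ L, x ≤ 1) : L.foldr min 1 ∈ L := by
  induction L with
  | nil => exact absurd rfl h0
  | cons a L ih =>
    rw [List.foldr_cons]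
    by_cases hL : L = []
    · subst hL
      rw [List.foldr_nil, min_eq_left (h a (by simp))]
      simp
    · have h1 := ih hL fun x hx => h x (by simp [hx])
      rcases min_choice a (L.foldr min 1) with h2 | h2
      · rw [h2]
        simp
      · rw [h2]
        exact List.mem_cons_of_mem _ h1

theorem om_pl {dl i : ℕ} {As : List (Finset ℕ)} (h : Pl J (.cl e dl i As)) :
    om c0 n0 J (.cl e dl i As) = 1 / ((c0 i : ℝ) * (n0 : ℝ) ^ (e - 1)) := by
  simp only [om]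
  rw [if_pos h]

theorem om_npl {dl i : ℕ} {As : List (Finset ℕ)} (h : ¬ Pl J (.cl e dl i As)) :
    om c0 n0 J (.cl e dl i As) =
      (As.map fun A => rl c0 n0 e ((range J).erase i \ A)).foldr min 1 := by
  simp only [om]
  rw [if_neg h]

theorem om_nonneg (k : Kd) : 0 ≤ om c0 n0 J k := by
  rcases k with ⟨e, A⟩ | ⟨e, dl, i, As⟩
  · exact le_rfl
  · by_cases h : Pl J (.cl e dl i As)
    · rw [om_pl h]
      positivity
    · rw [om_npl h]
      refine foldr_nonneg fun x hx => ?_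
      obtain ⟨A, -, rfl⟩ := List.mem_map.1 hx
      exact rl_nonneg _

/-- The members bound the number of the conditions. -/
theorem card_un (I : Finset ℕ) {N : ℕ} : ∀ L : List (Finset ℕ), (∀ A ∈ L, (I \ A).card ≤ N) →
    (I.filter fun x => ∃ A ∈ L, x ∉ A).card ≤ L.length * N := by
  intro L
  induction L with
  | nil => intro _; simp
  | cons B L ih =>
    intro h
    have h1 : (I.filter fun x => ∃ A ∈ B :: L, x ∉ A) ⊆
        (I \ B) ∪ (I.filter fun x => ∃ A ∈ L, x ∉ A) := by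
      intro x hx
      obtain ⟨hx1, A, hA, hx2⟩ := mem_filter.1 hx
      rw [mem_union]
      rcases List.mem_cons.1 hA with h2 | h2
      · left
        rw [← h2]
        exact mem_sdiff.2 ⟨hx1, hx2⟩
      · right
        exact mem_filter.2 ⟨hx1, A, h2, hx2⟩
    have h2 := (card_le_card h1).trans (card_union_le _ _)
    have h3 := h B (by simp)
    have h4 := ih fun A hA => h A (by simp [hA])
    rw [List.length_cons, Nat.add_mul, Nat.one_mul]
    omega

theorem mem_inter' {As : List (Finset ℕ)} (h : 1 ≤ As.length) {x : ℕ} :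
    x ∈ inter As ↔ ∀ A ∈ As, x ∈ A := by
  unfold inter
  rw [mem_filter]
  constructor
  · exact fun h => h.2
  · intro h2
    refine ⟨?_, h2⟩
    rcases As with _ | ⟨A, L⟩
    · simp at h
    · exact h2 A (by simp)

/-- The bound for one member. -/
theorem rl_bd (hR : Rf J c0 n0 1) {I T : Finset ℕ} (hT : T ⊆ range J) (hc : T.card ≤ e - 1) :
    1 ≤ rl c0 n0 e T * ((∏ l ∈ I ∩ T, (c0 l : ℝ)) * (n0 : ℝ) ^ (e - 1 - (I ∩ T).card)) := by
  have h1 : ∏ l ∈ T, (c0 l : ℝ) = (∏ l ∈ I ∩ T, (c0 l : ℝ)) * ∏ l ∈ T \ I, (c0 l : ℝ) := by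
    rw [← prod_sdiff (s₁ := I ∩ T) (s₂ := T) inter_subset_right, mul_comm]
    congr 1
    congr 1
    ext x
    simp only [mem_sdiff, Finset.mem_inter]
    tauto
  have h2 : (I ∩ T).card + (T \ I).card = T.card := by
    rw [← card_sdiff_add_card_inter T I, inter_comm, Nat.add_comm]
  have h3 := prod_le_pow hR (T := T \ I) (sdiff_subset.trans hT)
  have h4 := prod_ge1 hR hT
  have h5 := prod_ge1 hR (T := I ∩ T) (inter_subset_right.trans hT)
  have h6 : (1 : ℝ) ≤ (n0 : ℝ) ^ (e - 1 - T.card) := one_le_pow₀ (hR.n1 le_rfl)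
  have h7 : e - 1 - (I ∩ T).card = (T \ I).card + (e - 1 - T.card) := by omega
  unfold rl
  rw [div_mul_eq_mul_div, one_mul, le_div_iff₀ (by positivity), one_mul, h7, pow_add, h1,
    mul_assoc]
  exact mul_le_mul_of_nonneg_left (mul_le_mul_of_nonneg_right h3 (by positivity)) (by positivity)

/-- The effect of the trace of a cluster. -/
theorem bracket_le (hR : Rf J c0 n0 1) {dl i : ℕ} {As : List (Finset ℕ)} (hI : I ⊆ range J)
    (hk : AdmC d J e (.cl e dl i As)) (hi : i ∈ I) (hE : trx e dl As.length ≤ D)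
    (hJ : (I.erase i ∩ inter As).card ≤ D - trx e dl As.length) :
    nz c0 n0 (I.erase i ∩ inter As) (D - trx e dl As.length) ≤
      om c0 n0 J (.cl e dl i As) * nz c0 n0 I D := by
  obtain ⟨dl', i', As', hk1, he, hlen, htr, hiJ, hAs⟩ := hk
  have h0 : dl = dl' ∧ i = i' ∧ As = As' := by
    simpa using hk1
  obtain ⟨rfl, rfl, rfl⟩ := h0
  -- the sets
  set J1 := I.erase i ∩ inter As with hJ1
  set U := (I.erase i).filter (fun x => ∃ A ∈ As, x ∉ A) with hU
  have hdis : Disjoint J1 U := by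
    rw [Finset.disjoint_left]
    intro x hx1 hx2
    obtain ⟨-, h1⟩ := Finset.mem_inter.1 hx1
    obtain ⟨-, A, hA, h2⟩ := mem_filter.1 hx2
    exact h2 ((mem_inter' hlen).1 h1 A hA)
  have hun : J1 ∪ U = I.erase i := by
    ext x
    rw [mem_union, Finset.mem_inter, mem_filter, mem_inter' hlen]
    constructor
    · rintro (h | h)
      · exact h.1
      · exact h.1
    · intro h
      by_cases h1 : ∀ A ∈ As, x ∈ A
      · exact Or.inl ⟨h, h1⟩
      · push_neg at h1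
        exact Or.inr ⟨h, h1⟩
  have hcI : I.card = J1.card + U.card + 1 := by
    rw [← card_union_of_disjoint hdis, hun, card_erase_add_one hi]
  have hprod : ∏ l ∈ I, (c0 l : ℝ) = (c0 i : ℝ) * ((∏ l ∈ J1, (c0 l : ℝ)) * ∏ l ∈ U, (c0 l : ℝ)) := by
    rw [← prod_union hdis, hun, mul_prod_erase I (fun l => (c0 l : ℝ)) hi]
  have hUI : U ⊆ I := (filter_subset _ _).trans (erase_subset _ _)
  have hUc : U.card ≤ As.length * (e - 1) := by
    refine card_un (I.erase i) As fun A hA => ?_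
    refine le_trans (card_le_card ?_) (hAs A hA).2
    exact sdiff_subset_sdiff (erase_subset_erase _ hI) subset_rfl
  have htrx : trx e dl As.length = As.length * (e - 1) + 1 + dl := rfl
  rw [htrx] at hE hJ ⊢
  have hci : (1 : ℝ) ≤ (c0 i : ℝ) := hR.c1 le_rfl hiJ
  have hn : (1 : ℝ) ≤ (n0 : ℝ) := hR.n1 le_rfl
  have hJp := prod_ge1 hR (T := J1) (inter_subset_left.trans ((erase_subset _ _).trans hI))
  have hUp := prod_ge1 hR (T := U) (hUI.trans hI)
  have hexp : D - I.card = (D - (As.length * (e - 1) + 1 + dl) - J1.card) +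
      (As.length * (e - 1) + dl - U.card) := by omega
  unfold nz
  rw [hexp, pow_add, hprod]
  set X := ∏ l ∈ J1, (c0 l : ℝ) with hX
  set Y := (n0 : ℝ) ^ (D - (As.length * (e - 1) + 1 + dl) - J1.card) with hY
  have hY1 : (1 : ℝ) ≤ Y := one_le_pow₀ hn
  have key : ∀ o : ℝ, 1 ≤ o * ((c0 i : ℝ) * (∏ l ∈ U, (c0 l : ℝ)) *
      (n0 : ℝ) ^ (As.length * (e - 1) + dl - U.card)) →
      X * Y ≤ o * ((c0 i : ℝ) * (X * ∏ l ∈ U, (c0 l : ℝ)) *
        (Y * (n0 : ℝ) ^ (As.length * (e - 1) + dl - U.card))) := by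
    intro o ho
    have h1 : 0 ≤ X * Y := by positivity
    calc X * Y = X * Y * 1 := by ring
      _ ≤ X * Y * (o * ((c0 i : ℝ) * (∏ l ∈ U, (c0 l : ℝ)) *
          (n0 : ℝ) ^ (As.length * (e - 1) + dl - U.card))) := mul_le_mul_of_nonneg_left ho h1
      _ = _ := by ring
  apply key
  by_cases hP : Pl J (.cl e dl i As)
  · rw [om_pl hP]
    obtain ⟨hdl, hl2, hAll⟩ := hP
    have hU0 : U = ∅ := by
      rw [hU, filter_eq_empty_iff]
      intro x hx
      push_neg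
      intro A hA
      rw [hAll A hA]
      exact erase_subset_erase _ hI hx
    rw [hU0, prod_empty, card_empty, mul_one, Nat.sub_zero, div_mul_eq_mul_div, one_mul,
      le_div_iff₀ (by positivity), one_mul]
    refine mul_le_mul_of_nonneg_left (pow_le_pow_right₀ hn ?_) (by positivity)
    have : 1 * (e - 1) ≤ As.length * (e - 1) := Nat.mul_le_mul_right _ hlen
    omega
  · rw [om_npl hP]
    have hmem := foldr_mem (L := As.map fun A => rl c0 n0 e ((range J).erase i \ A))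
      (by
        intro h
        have := congrArg List.length h
        rw [List.length_map, List.length_nil] at this
        omega)
      (by
        intro x hx
        obtain ⟨A, -, rfl⟩ := List.mem_map.1 hx
        exact rl_le_one hR (sdiff_subset.trans (erase_subset _ _)))
    obtain ⟨A, hA, hA2⟩ := List.mem_map.1 hmem
    rw [← hA2]
    set T := (range J).erase i \ A with hT
    have hTJ : T ⊆ range J := sdiff_subset.trans (erase_subset _ _)
    have hTc : T.card ≤ e - 1 := (hAs A hA).2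
    have h1 := rl_bd hR (I := I) hTJ hTc
    -- the part of `T` in `I` is contained in `U`
    have hTU : I ∩ T ⊆ U := by
      intro x hx
      obtain ⟨hx1, hx2⟩ := Finset.mem_inter.1 hx
      obtain ⟨hx3, hx4⟩ := mem_sdiff.1 hx2
      exact mem_filter.2 ⟨mem_erase.2 ⟨(mem_erase.1 hx3).1, hx1⟩, A, hA, hx4⟩
    have hUc2 : U.card ≤ (I ∩ T).card + (As.length - 1) * (e - 1) := by
      have h2 : U ⊆ (I ∩ T) ∪ ((I.erase i).filter fun x => ∃ B ∈ As.erase A, x ∉ B) := by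
        intro x hx
        obtain ⟨hx1, B, hB, hx2⟩ := mem_filter.1 hx
        rw [mem_union]
        by_cases hBA : B = A
        · left
          rw [hBA] at hx2
          refine Finset.mem_inter.2 ⟨(mem_erase.1 hx1).2, mem_sdiff.2 ⟨?_, hx2⟩⟩
          exact erase_subset_erase _ hI hx1
        · right
          exact mem_filter.2 ⟨hx1, B, (List.mem_erase_of_ne hBA).2 hB, hx2⟩
      have h3 := (card_le_card h2).trans (card_union_le _ _)
      have h4 := card_un (I.erase i) (N := e - 1) (As.erase A) fun B hB => by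
        refine le_trans (card_le_card ?_) (hAs B (List.mem_of_mem_erase hB)).2
        exact sdiff_subset_sdiff (erase_subset_erase _ hI) subset_rfl
      rw [List.length_erase_of_mem hA] at h4
      omega
    have hlen2 : As.length * (e - 1) = (As.length - 1) * (e - 1) + (e - 1) := by
      obtain ⟨m, hm⟩ : ∃ m, As.length = m + 1 := ⟨As.length - 1, by omega⟩
      rw [hm, Nat.add_sub_cancel, Nat.add_mul, Nat.one_mul]
    refine h1.trans (mul_le_mul_of_nonneg_left ?_ (rl_nonneg _))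
    have hsub : (I ∩ T).card ≤ e - 1 := (card_le_card inter_subset_right).trans hTc
    have h5 : ∏ l ∈ I ∩ T, (c0 l : ℝ) ≤ ∏ l ∈ U, (c0 l : ℝ) := by
      rw [← prod_sdiff hTU]
      have h6 := prod_ge1 hR (T := U \ (I ∩ T)) (sdiff_subset.trans (hUI.trans hI))
      have h7 : (0 : ℝ) ≤ ∏ l ∈ I ∩ T, (c0 l : ℝ) := prod_nonneg fun _ _ => Nat.cast_nonneg _
      nlinarith
    have h8 : (n0 : ℝ) ^ (e - 1 - (I ∩ T).card) ≤
        (n0 : ℝ) ^ (As.length * (e - 1) + dl - U.card) := by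
      refine pow_le_pow_right₀ hn ?_
      omega
    calc (∏ l ∈ I ∩ T, (c0 l : ℝ)) * (n0 : ℝ) ^ (e - 1 - (I ∩ T).card)
        ≤ (∏ l ∈ U, (c0 l : ℝ)) * (n0 : ℝ) ^ (As.length * (e - 1) + dl - U.card) :=
          mul_le_mul h5 h8 (by positivity) (by positivity)
      _ = 1 * (∏ l ∈ U, (c0 l : ℝ)) * (n0 : ℝ) ^ (As.length * (e - 1) + dl - U.card) := by ring
      _ ≤ (c0 i : ℝ) * (∏ l ∈ U, (c0 l : ℝ)) *
          (n0 : ℝ) ^ (As.length * (e - 1) + dl - U.card) := by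
          refine mul_le_mul_of_nonneg_right (mul_le_mul_of_nonneg_right hci (by positivity))
            (by positivity)

/-- The weight of a cluster is small. -/
theorem om_small {m0 : ℝ} (hm0 : 1 ≤ m0) (hR : Rf J c0 n0 m0) {k : Kd} (hk : AdmC d J e k) :
    om c0 n0 J k ≤ 1 / m0 := by
  obtain ⟨dl, i, As, rfl, he, hlen, htr, hiJ, hAs⟩ := hk
  have hR1 : Rf J c0 n0 1 := ⟨fun l hl => hm0.trans (hR.c l hl), by
    have h1 := hR.n
    have h2 := Rf.sum_nn J c0
    nlinarith⟩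
  have hn : m0 ≤ (n0 : ℝ) := hR.n1 hm0
  have hn1 : (1 : ℝ) ≤ (n0 : ℝ) := hm0.trans hn
  by_cases hP : Pl J (.cl e dl i As)
  · rw [om_pl hP]
    have h1 : m0 ≤ (c0 i : ℝ) := hR.c i hiJ
    have h2 : (1 : ℝ) ≤ (n0 : ℝ) ^ (e - 1) := one_le_pow₀ hn1
    refine one_div_le_one_div_of_le (by positivity) ?_
    nlinarith
  · rw [om_npl hP]
    obtain ⟨A, hA⟩ : ∃ A, A ∈ As := by
      rcases As with _ | ⟨A, L⟩
      · simp at hlen
      · exact ⟨A, by simp⟩
    refine (foldr_le (List.mem_map.2 ⟨A, hA, rfl⟩)).trans ?_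
    unfold rl
    refine one_div_le_one_div_of_le (by positivity) ?_
    set T := (range J).erase i \ A with hT
    have hTJ : T ⊆ range J := sdiff_subset.trans (erase_subset _ _)
    rcases T.eq_empty_or_nonempty with h0 | ⟨a, ha⟩
    · rw [h0, prod_empty, one_mul, card_empty, Nat.sub_zero]
      calc m0 ≤ (n0 : ℝ) := hn
        _ = (n0 : ℝ) ^ 1 := (pow_one _).symm
        _ ≤ (n0 : ℝ) ^ (e - 1) := pow_le_pow_right₀ hn1 (by omega)
    · rw [← mul_prod_erase T (fun l => (c0 l : ℝ)) ha]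
      have h1 := prod_ge1 hR1 (T := T.erase a) ((erase_subset _ _).trans hTJ)
      have h2 : (1 : ℝ) ≤ (n0 : ℝ) ^ (e - 1 - T.card) := one_le_pow₀ hn1
      have h3 : m0 ≤ (c0 a : ℝ) := hR.c a (mem_range.1 (hTJ ha))
      have h4 : (1 : ℝ) ≤ (∏ l ∈ T.erase a, (c0 l : ℝ)) * (n0 : ℝ) ^ (e - 1 - T.card) := by
        nlinarith
      calc m0 ≤ (c0 a : ℝ) := h3
        _ = (c0 a : ℝ) * 1 := by ring
        _ ≤ (c0 a : ℝ) * ((∏ l ∈ T.erase a, (c0 l : ℝ)) * (n0 : ℝ) ^ (e - 1 - T.card)) :=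
          mul_le_mul_of_nonneg_left h4 (by positivity)
        _ = _ := by ring

/-- The tied member. -/
theorem om_ex (hR : Rf J c0 n0 1) {dl i : ℕ} {As : List (Finset ℕ)}
    (hk : AdmC d J e (.cl e dl i As)) (hP : ¬ Pl J (.cl e dl i As)) :
    ∃ A ∈ As, om c0 n0 J (.cl e dl i As) = rl c0 n0 e ((range J).erase i \ A) := by
  obtain ⟨dl', i', As', hk1, he, hlen, htr, hiJ, hAs⟩ := hk
  have h0 : dl = dl' ∧ i = i' ∧ As = As' := by
    simpa using hk1
  obtain ⟨rfl, rfl, rfl⟩ := h0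
  have hmem := foldr_mem (L := As.map fun A => rl c0 n0 e ((range J).erase i \ A))
    (by
      intro h
      have := congrArg List.length h
      rw [List.length_map, List.length_nil] at this
      omega)
    (by
      intro x hx
      obtain ⟨A, -, rfl⟩ := List.mem_map.1 hx
      exact rl_le_one hR (sdiff_subset.trans (erase_subset _ _)))
  obtain ⟨A, hA, hA2⟩ := List.mem_map.1 hmem
  exact ⟨A, hA, by rw [om_npl hP, ← hA2]⟩

/-- The weight is at most that of every member. -/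
theorem om_le {dl i : ℕ} {As : List (Finset ℕ)} (hP : ¬ Pl J (.cl e dl i As)) :
    ∀ A ∈ As, om c0 n0 J (.cl e dl i As) ≤ rl c0 n0 e ((range J).erase i \ A) := by
  intro A hA
  rw [om_npl hP]
  exact foldr_le (List.mem_map.2 ⟨A, hA, rfl⟩)

/-- A member with the full set is smaller than the others. -/
theorem rl_lt (hR : Rf J c0 n0 1) {T : Finset ℕ} (hT : T ⊆ range J) (h0 : T.Nonempty)
    (hc : T.card ≤ e - 1) : rl c0 n0 e ∅ < rl c0 n0 e T := by
  unfold rl
  rw [prod_empty, one_mul, card_empty, Nat.sub_zero]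
  have h4 := prod_ge1 hR hT
  have hn : (1 : ℝ) ≤ (n0 : ℝ) := hR.n1 le_rfl
  refine one_div_lt_one_div_of_lt (by positivity) ?_
  have h1 : e - 1 = T.card + (e - 1 - T.card) := by omega
  have h2 : ∏ l ∈ T, (c0 l : ℝ) < (n0 : ℝ) ^ T.card := by
    rw [← prod_const]
    refine prod_lt_prod_of_nonempty (fun l hl => ?_) (fun l hl => ?_) h0
    · have := hR.c1 le_rfl (mem_range.1 (hT hl))
      linarith
    · have := hR.lt (mem_range.1 (hT hl))
      linarith
  calc (∏ l ∈ T, (c0 l : ℝ)) * (n0 : ℝ) ^ (e - 1 - T.card)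
      < (n0 : ℝ) ^ T.card * (n0 : ℝ) ^ (e - 1 - T.card) :=
        mul_lt_mul_of_pos_right h2 (by positivity)
    _ = (n0 : ℝ) ^ (e - 1) := by rw [← pow_add, ← h1]

/-- The relative size. -/
theorem nz_rl (hR : Rf J c0 n0 1) (hI : I ⊆ range J) {i : ℕ} {A : Finset ℕ}
    (hA : ((range J).erase i \ A).card ≤ e - 1) (he : e - 1 ≤ D)
    (hJ : (I ∩ insert i A).card ≤ D - (e - 1)) :
    nz c0 n0 (I ∩ insert i A) (D - (e - 1)) ≤ rl c0 n0 e ((range J).erase i \ A) * nz c0 n0 I D := by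
  set T := (range J).erase i \ A with hT
  have hTJ : T ⊆ range J := sdiff_subset.trans (erase_subset _ _)
  have h1 := rl_bd hR (I := I) hTJ hA
  have hset : I \ (I ∩ insert i A) = I ∩ T := by
    ext x
    simp only [hT, mem_sdiff, Finset.mem_inter, mem_insert, mem_erase, mem_range]
    constructor
    · rintro ⟨h2, h3⟩
      have h4 : ¬ (x = i ∨ x ∈ A) := fun h => h3 ⟨h2, h⟩
      push_neg at h4
      exact ⟨h2, ⟨h4.1, mem_range.1 (hI h2)⟩, h4.2⟩
    · rintro ⟨h2, ⟨h3, -⟩, h4⟩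
      exact ⟨h2, fun h => h.2.elim h3 h4⟩
  have hprod : ∏ l ∈ I, (c0 l : ℝ) =
      (∏ l ∈ I ∩ insert i A, (c0 l : ℝ)) * ∏ l ∈ I ∩ T, (c0 l : ℝ) := by
    rw [← hset, mul_comm, prod_sdiff inter_subset_left]
  have hcard : I.card = (I ∩ insert i A).card + (I ∩ T).card := by
    rw [← hset, Nat.add_comm, card_sdiff_add_card_eq_card inter_subset_left]
  have hsub : (I ∩ T).card ≤ e - 1 := (card_le_card inter_subset_right).trans hA
  have hexp : D - I.card = (D - (e - 1) - (I ∩ insert i A).card) + (e - 1 - (I ∩ T).card) := by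
    omega
  unfold nz
  rw [hexp, pow_add, hprod]
  have h5 : (0 : ℝ) ≤ (∏ l ∈ I ∩ insert i A, (c0 l : ℝ)) *
      (n0 : ℝ) ^ (D - (e - 1) - (I ∩ insert i A).card) := by positivity
  calc (∏ l ∈ I ∩ insert i A, (c0 l : ℝ)) * (n0 : ℝ) ^ (D - (e - 1) - (I ∩ insert i A).card)
      = (∏ l ∈ I ∩ insert i A, (c0 l : ℝ)) *
        (n0 : ℝ) ^ (D - (e - 1) - (I ∩ insert i A).card) * 1 := by ring
    _ ≤ (∏ l ∈ I ∩ insert i A, (c0 l : ℝ)) *
        (n0 : ℝ) ^ (D - (e - 1) - (I ∩ insert i A).card) * (rl c0 n0 e T *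
          ((∏ l ∈ I ∩ T, (c0 l : ℝ)) * (n0 : ℝ) ^ (e - 1 - (I ∩ T).card))) :=
        mul_le_mul_of_nonneg_left h1 h5
    _ = _ := by ring

end

end Pool.Agent.GD.AL

end
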