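import Pool.Agent.H94.LP7.M08
import Pool.Agent.H94.LP7.M11
import Pool.Agent.H94.LP7.M12
import Pool.Agent.H94.LP7.M32
import Pool.Agent.H94.LP7.M36
import Pool.Agent.H94.LP7.M39

/-! The parts of this file: GD.AL.TieL, GD.AL.TieM, GD.ST.Core_1, GD.ST.Core2_1. -/

section

/-!
# General d, ALPHA, clusters: the limit of the tied position

`tie_key`: if `Φ(t)` kills the multiples of `(Y + t Z)^(E + 1)` and all `Y^m r`, then `Φ(0)` kills all
`Y^E Z^p r`.  `tie_dh`: the additional conditions of the cluster.
-/

set_option autoImplicit false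
set_option linter.unusedSectionVars false

namespace Pool.Agent.GD.AL

open Finset MvPolynomial Pool.Agent.H51.TB Pool.Agent.V7.ST
open Pool.Agent.V7 (msk)

section

variable {ν : Type} [Fintype ν] [DecidableEq ν]

/-- The value at `t = 0`. -/
noncomputable def ev0 (φ : (ν → ℕ) → Polynomial ℂ) : Dl ν := Fn fun a => (φ a).eval 0

theorem ev0_map (φ : (ν → ℕ) → Polynomial ℂ) (P : MvPolynomial ν (Polynomial ℂ)) :
    (Fn φ P).eval 0 = ev0 φ (MvPolynomial.map (Polynomial.evalRingHom (0 : ℂ)) P) :=
  Fn_map (Polynomial.evalRingHom (0 : ℂ)) φ P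

theorem map_map_C (P : MvPolynomial ν ℂ) :
    MvPolynomial.map (Polynomial.evalRingHom (0 : ℂ)) (MvPolynomial.map Polynomial.C P) = P := by
  rw [MvPolynomial.map_map]
  have h : (Polynomial.evalRingHom (0 : ℂ)).comp (Polynomial.C : ℂ →+* Polynomial ℂ) =
      RingHom.id ℂ := by
    ext x
    simp
  rw [h, MvPolynomial.map_id]

theorem ev0_C (φ : (ν → ℕ) → Polynomial ℂ) (P : MvPolynomial ν ℂ) :
    ev0 φ P = (Fn φ (MvPolynomial.map Polynomial.C P)).eval 0 := by
  rw [ev0_map, map_map_C]

theorem Fn_C_mul (φ : (ν → ℕ) → Polynomial ℂ) (r : Polynomial ℂ)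
    (P : MvPolynomial ν (Polynomial ℂ)) : Fn φ (C r * P) = r * Fn φ P := by
  rw [C_mul_eq_smul, map_smul, smul_eq_mul]

theorem tie_key (φ : (ν → ℕ) → Polynomial ℂ) (Y Z : MvPolynomial ν ℂ) (E : ℕ)
    (h : ∀ g, Fn φ ((MvPolynomial.map Polynomial.C Y +
      C Polynomial.X * MvPolynomial.map Polynomial.C Z) ^ (E + 1) * g) = 0)
    (r : MvPolynomial ν ℂ) (hr : ∀ m, Fn φ (MvPolynomial.map Polynomial.C (Y ^ m * r)) = 0)
    (p : ℕ) : ev0 φ (Y ^ E * Z ^ p * r) = 0 := by
  rcases Nat.eq_zero_or_pos p with rfl | hp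
  · rw [pow_zero, mul_one, ev0_C, hr, Polynomial.eval_zero]
  · obtain ⟨κ, rfl⟩ : ∃ κ, p = κ + 1 := ⟨p - 1, by omega⟩
    have h1 := Fn_resid (Fn φ) (MvPolynomial.map Polynomial.C Y) (MvPolynomial.map Polynomial.C Z)
      1 E κ (κ + 1) le_rfl le_rfl (by
        intro g
        rw [pow_one]
        exact h g) (MvPolynomial.map Polynomial.C r) (by
        rw [← map_pow, ← map_mul, hr]
        exact dvd_zero _)
    rw [ev0_C, map_mul (MvPolynomial.map Polynomial.C), map_mul (MvPolynomial.map Polynomial.C),
      map_pow (MvPolynomial.map Polynomial.C), map_pow (MvPolynomial.map Polynomial.C)]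
    exact h1

theorem tie_dh (φ : (ν → ℕ) → Polynomial ℂ) (Y Z S : MvPolynomial ν ℂ) (E l : ℕ) (hE : 1 ≤ E)
    (hl : 1 ≤ l)
    (h : ∀ g, Fn φ ((MvPolynomial.map Polynomial.C Y +
      C Polynomial.X * MvPolynomial.map Polynomial.C Z) ^ (E + 1) * g) = 0)
    (hS : ∀ g, Fn φ (MvPolynomial.map Polynomial.C S ^ (l * E + 1) * g) = 0)
    (r : MvPolynomial ν ℂ)
    (hu : Fn φ (((MvPolynomial.map Polynomial.C Y +
      C Polynomial.X * MvPolynomial.map Polynomial.C Z) +
      C Polynomial.X * MvPolynomial.map Polynomial.C S) ^ ((l + 1) * E) *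
        MvPolynomial.map Polynomial.C r) = 0) :
    ev0 φ (Y ^ E * (S ^ (l * E) * r)) = 0 := by
  set T := MvPolynomial.map Polynomial.C Y +
      C Polynomial.X * MvPolynomial.map Polynomial.C Z with hT
  have hlE : 1 ≤ l * E := Nat.mul_pos hl hE
  obtain ⟨g₁, g₂, hg⟩ := add_pow_split T (C Polynomial.X * MvPolynomial.map Polynomial.C S) E
    (l * E - 1)
  have e1 : E + 1 + (l * E - 1) = (l + 1) * E := by
    rw [add_mul, one_mul]
    omega
  have e2 : l * E - 1 + 1 = l * E := by omega
  rw [e1, e2] at hg
  rw [hg] at hu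
  have h1 : ((C Polynomial.X * MvPolynomial.map Polynomial.C S) ^ (l * E) *
      (((((l + 1) * E).choose E : ℕ) : MvPolynomial ν (Polynomial ℂ)) * T ^ E +
        C Polynomial.X * MvPolynomial.map Polynomial.C S * g₁) + T ^ (E + 1) * g₂) *
        MvPolynomial.map Polynomial.C r =
      C (Polynomial.X ^ (l * E) * ((((l + 1) * E).choose E : ℕ) : Polynomial ℂ)) *
        (MvPolynomial.map Polynomial.C S ^ (l * E) * T ^ E * MvPolynomial.map Polynomial.C r) +
      C (Polynomial.X ^ (l * E) * Polynomial.X) * (MvPolynomial.map Polynomial.C S ^ (l * E + 1) *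
        (g₁ * MvPolynomial.map Polynomial.C r)) +
      T ^ (E + 1) * (g₂ * MvPolynomial.map Polynomial.C r) := by
    simp only [map_mul, map_pow, map_natCast]
    ring
  rw [h1, map_add, map_add, h, Fn_C_mul, Fn_C_mul, hS, mul_zero, add_zero, add_zero] at hu
  have h2 : (Polynomial.X ^ (l * E) * ((((l + 1) * E).choose E : ℕ) : Polynomial ℂ)) ≠ 0 := by
    refine mul_ne_zero (pow_ne_zero _ Polynomial.X_ne_zero) (Nat.cast_ne_zero.2 ?_)
    exact (Nat.choose_pos (by rw [add_mul, one_mul]; omega)).ne'
  have h3 := (mul_eq_zero.1 hu).resolve_left h2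
  have h4 := ev0_map φ (MvPolynomial.map Polynomial.C S ^ (l * E) * T ^ E *
    MvPolynomial.map Polynomial.C r)
  have h5 : (Polynomial.evalRingHom (0 : ℂ)) Polynomial.X = 0 := by simp
  have h6 : MvPolynomial.map (Polynomial.evalRingHom (0 : ℂ))
      (MvPolynomial.map Polynomial.C S ^ (l * E) * T ^ E * MvPolynomial.map Polynomial.C r) =
      Y ^ E * (S ^ (l * E) * r) := by
    rw [map_mul, map_mul, map_pow, map_pow, hT, map_add, map_mul, map_map_C, map_map_C, map_map_C,
      map_map_C, MvPolynomial.map_C, h5, C_0, zero_mul, add_zero]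
    ring
  rw [h3, Polynomial.eval_zero, h6] at h4
  exact h4.symm

end

section

variable {ν : Type} [Fintype ν] [DecidableEq ν] {d : ℕ} {β : ν → ℕ} {i E dl : ℕ} {B A : Finset ℕ}
  {L : List (Finset ℕ)} {I : Finset ℕ}

end

end Pool.Agent.GD.AL

end

section

/-!
# General d, ALPHA, clusters: the kernel of the contraction by the direction, and the limit

`ker_Xp`: the functionals of `Xp s` killed by the direction satisfy the conditions of the cluster of the first
members.  `lim_Xp`: the contraction by `y^E` maps the limits of the solutions into `Xp`.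
-/

set_option autoImplicit false
set_option linter.unusedSectionVars false

namespace Pool.Agent.GD.AL

open Finset MvPolynomial Pool.Agent.H51.TB Pool.Agent.V7.ST
open Pool.Agent.V7 (msk)

section

variable {ν : Type} [Fintype ν] [DecidableEq ν] {d : ℕ} {β : ν → ℕ} {i E dl : ℕ} {B A : Finset ℕ}
  {L : List (Finset ℕ)}

theorem pt_pc_lt {a : ℕ → ν → ℂ} {b : ν → ℂ} {c : ν × Fin (d + 1) → ℂ} {x : Fin (d + 1)}
    (hx : x.1 + 1 < L.length) :
    pt β (.cl (E + 1) dl i L) x (pc β i B L.length a b c) = avl β L a x.1 := by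
  funext s
  show (if β s ∈ L.getD x ∅ then (0 : ℂ) else
    if β s = i ∧ x.1 + 1 = L.length then _ else pc β i B L.length a b c (s, x)) =
      if β s ∈ L.getD x.1 ∅ then 0 else a x.1 s
  rw [if_neg (show ¬ (β s = i ∧ x.1 + 1 = L.length) by omega)]
  have h1 : pc β i B L.length a b c (s, x) = a x.1 s := if_pos hx
  rw [h1]

theorem pt_pc_eq (hiL : ∀ A' ∈ L, i ∉ A') (hiB : i ∉ B) (hLB : ∀ A' ∈ L, A' ⊆ B)
    (hl : L.length ≤ d) {a : ℕ → ν → ℂ} {b : ν → ℂ}
    {c : ν × Fin (d + 1) → ℂ} {x : Fin (d + 1)} (hx : x.1 + 1 = L.length) :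
    pt β (.cl (E + 1) dl i L) x (pc β i B L.length a b c) =
      avl β L a x.1 + zh β i B L.length a b := by
  have hx' : L.getD x.1 ∅ ∈ L := getD_mem (by omega)
  funext s
  rw [Pi.add_apply]
  show (if β s ∈ L.getD x ∅ then (0 : ℂ) else
    if β s = i ∧ x.1 + 1 = L.length then
      - ∑ y' : Fin (d + 1), (if y'.1 + 1 < L.length then pc β i B L.length a b c (s, y') else 0)
    else pc β i B L.length a b c (s, x)) =
      (if β s ∈ L.getD x.1 ∅ then 0 else a x.1 s) + _
  by_cases h1 : β s ∈ L.getD x.1 ∅
  · rw [if_pos h1, if_pos h1, zh_zero (hLB _ hx' h1), add_zero]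
  · rw [if_neg h1, if_neg h1]
    by_cases h2 : β s = i
    · rw [if_pos ⟨h2, hx⟩]
      unfold zh
      rw [if_neg (show ¬ β s ∈ B by rwa [h2]), if_pos h2]
      have h3 : ∑ y' : Fin (d + 1), (if y'.1 + 1 < L.length then
          pc β i B L.length a b c (s, y') else 0) = ∑ x' ∈ range x.1, a x' s := by
        rw [← sum_fin_range (d := d) (by omega)]
        refine sum_congr rfl fun x' _ => ?_
        by_cases h4 : x'.1 + 1 < L.length
        · rw [if_pos h4, if_pos (show x'.1 < x.1 by omega)]
          exact if_pos h4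
        · rw [if_neg h4, if_neg (show ¬ x'.1 < x.1 by omega)]
      rw [h3, ← hx, sum_range_succ]
      ring
    · rw [if_neg (fun h => h2 h.1)]
      show (if x.1 + 1 < L.length then a x.1 s else if x.1 + 1 = L.length ∧ β s ≠ i then
        a x.1 s + zh β i B L.length a b s else c (s, x)) = _
      rw [if_neg (by omega), if_pos ⟨hx, h2⟩]

theorem zz_pc (hl : L.length ≤ d) {a : ℕ → ν → ℂ} {b : ν → ℂ} {c : ν × Fin (d + 1) → ℂ} :
    zz β i (pc β i B L.length a b c) = zz β i c := by
  funext s
  show (if β s = i then pc β i B L.length a b c (s, Fin.last d) else 0) =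
    if β s = i then c (s, Fin.last d) else 0
  split_ifs
  · unfold pc
    rw [if_neg (show ¬ (Fin.last d).1 + 1 < L.length by rw [Fin.val_last]; omega),
      if_neg (show ¬ ((Fin.last d).1 + 1 = L.length ∧ β s ≠ i) by rw [Fin.val_last]; omega)]
  · rfl

theorem uu_pc (hL : 1 ≤ L.length) (hiL : ∀ A' ∈ L, i ∉ A') (hiB : i ∉ B)
    (hLB : ∀ A' ∈ L, A' ⊆ B) (hl : L.length ≤ d) {a : ℕ → ν → ℂ} {b : ν → ℂ}
    {c : ν × Fin (d + 1) → ℂ} :
    uu β (.cl (E + 1) dl i L) (pc β i B L.length a b c) =
      sv β L a + zh β i B L.length a b := by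
  funext s
  rw [uu_cl, Pi.add_apply]
  have h1 : ∀ x : Fin (d + 1), (if x.1 < L.length then
      pt β (.cl (E + 1) dl i L) x (pc β i B L.length a b c) s else 0) =
      (if x.1 < L.length then avl β L a x.1 s else 0) +
        if x.1 = L.length - 1 then zh β i B L.length a b s else 0 := by
    intro x
    rcases Nat.lt_trichotomy (x.1 + 1) L.length with h | h | h
    · rw [if_pos (by omega), if_pos (by omega), if_neg (by omega), pt_pc_lt h, add_zero]
    · rw [if_pos (by omega), if_pos (by omega), if_pos (by omega), pt_pc_eq hiL hiB hLB hl h]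
      rfl
    · rw [if_neg (by omega), if_neg (by omega), if_neg (by omega), add_zero]
  rw [sum_congr rfl fun x _ => h1 x, sum_add_distrib,
    sum_fin_range (by omega) fun x => avl β L a x s]
  congr 1
  rw [sum_eq_single (⟨L.length - 1, by omega⟩ : Fin (d + 1))]
  · exact if_pos rfl
  · intro x _ hx
    exact if_neg fun h => hx (Fin.ext h)
  · intro h
    exact absurd (mem_univ _) h

/-- The three additional objects. -/
def n3 (E dl i : ℕ) (L : List (Finset ℕ)) (A B : Finset ℕ) : Fin 3 → Kd
  | 0 => .cl (E + 1) dl i L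
  | 1 => .ord 1 (insert i A)
  | 2 => .ord 1 B

/-- Their positions. -/
def q3 {R : Type} [CommRing R] (β : ν → ℕ) (i : ℕ) (B : Finset ℕ) (l : ℕ) (a : ℕ → ν → R)
    (b c y : ν × Fin (d + 1) → R) : Fin 3 → ν × Fin (d + 1) → R
  | 0 => pc β i B l a (fun s => b (s, 0)) c
  | 1 => y
  | 2 => pb β i l a b

variable {I' : Finset ℕ} {κ : Type} {m : κ → Kd} {p : κ → ν × Fin (d + 1) → ℂ}

theorem sum_zero (hiL : ∀ A' ∈ L, i ∉ A') (hiB : i ∉ B) (a : ℕ → ν → ℂ) (b : ν → ℂ) (s : ν)
    (hs : β s = i) : sv β L a s + zh β i B L.length a b s = 0 := by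
  unfold zh sv
  rw [if_neg (show ¬ β s ∈ B by rwa [hs]), if_pos hs]
  have h1 : ∑ x ∈ range L.length, avl β L a x s = ∑ x ∈ range L.length, a x s := by
    refine sum_congr rfl fun x hx => ?_
    show (if β s ∈ L.getD x ∅ then 0 else a x s) = a x s
    rw [if_neg]
    rw [hs]
    exact hiL _ (getD_mem (mem_range.1 hx))
  rw [h1, add_neg_cancel]

/-! ### Constant positions -/

theorem pt_C (k : Kd) (x : Fin (d + 1)) (q : ν × Fin (d + 1) → ℂ) :
    pt β k x (fun z => (Polynomial.C (q z) : Polynomial ℂ)) = fun s => Polynomial.C (pt β k x q s) := by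
  funext s
  exact (pt_map Polynomial.C β k x q s).symm

theorem uu_C (k : Kd) (q : ν × Fin (d + 1) → ℂ) :
    uu β k (fun z => (Polynomial.C (q z) : Polynomial ℂ)) = fun s => Polynomial.C (uu β k q s) := by
  funext s
  exact (uu_map Polynomial.C β k q s).symm

theorem zz_C (i : ℕ) (q : ν × Fin (d + 1) → ℂ) :
    zz β i (fun z => (Polynomial.C (q z) : Polynomial ℂ)) = fun s => Polynomial.C (zz β i q s) := by
  funext s
  exact (zz_map Polynomial.C β i q s).symm

theorem ev0_Lv {D : ℕ} {I : Finset ℕ} {φ : (ν → ℕ) → Polynomial ℂ}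
    (h : ∀ a, a ∉ Ex β D I → φ a = 0) : ev0 φ ∈ Lv β D I := by
  intro b hb
  show Fn (fun a => (φ a).eval 0) (mon ℂ b) = 0
  rw [Fn_mon, h b hb, Polynomial.eval_zero, mul_zero]

/-- Multiplication by a constant polynomial, as a linear map. -/
noncomputable def Fc (φ : (ν → ℕ) → Polynomial ℂ) (r : MvPolynomial ν ℂ) :
    MvPolynomial ν ℂ →ₗ[ℂ] Polynomial ℂ where
  toFun P := Fn φ (MvPolynomial.map Polynomial.C (r * P))
  map_add' P Q := by rw [mul_add, map_add (MvPolynomial.map Polynomial.C), map_add]
  map_smul' c P := by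
    rw [mul_smul_comm, smul_eq_C_mul, map_mul (MvPolynomial.map Polynomial.C), MvPolynomial.map_C,
      Fn_C_mul, RingHom.id_apply, Polynomial.smul_eq_C_mul]

end

end Pool.Agent.GD.AL

end

section

/-!
# General d, step: one object

`Qn`: the positions (over `ℂ[t]`) of the objects of the level `j` which belong to an object `k` of the level
`j + 1` at the position `q`.  `sat_trace`: the coefficients of `t^B`, `B < (d + 1)!`, of a polynomial family
of solutions satisfy the conditions of the trace; `sat_resid`: the value at `t = 0` satisfies the conditions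
of `k` if the trace is divisible by `t^((d + 1)!)`.
-/

set_option autoImplicit false
set_option linter.unusedSectionVars false

namespace Pool.Agent.GD

open Finset Polynomial
open Pool.Agent.V7 (msk)

/-! ### Linear forms -/

section

variable {ν : Type} [Fintype ν] {R : Type} [CommRing R]

end

section

variable {ν : Type} [Fintype ν] [DecidableEq ν] {R : Type} [CommRing R]

end

/-! ### The positions -/

section

variable {ν : Type} [Fintype ν] [DecidableEq ν] {d : ℕ}

/-- The conditions of the objects of the level `j`. -/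
def US (β : ν → ℕ) (j : ℕ) (k : Kd) (q : ν × Fin (d + 1) → ℂ)
    (Φ : MvPolynomial ν ℂ[X] →ₗ[ℂ[X]] ℂ[X]) : Prop :=
  ∀ x : Fin (d + 1), ∀ k', unO j k x.1 = some k' → Sat β (range j) k' (Qn β j k x q) Φ

theorem us_ord {β : ν → ℕ} {j e : ℕ} {A : Finset ℕ} {q : ν × Fin (d + 1) → ℂ}
    {Φ : MvPolynomial ν ℂ[X] →ₗ[ℂ[X]] ℂ[X]} (h : US β j (.ord e A) q Φ) (x : Fin (d + 1))
    (y : MvPolynomial ν ℂ[X]) :
    Φ (lf (fun s => C (pt β (.ord e A) x q s)) ^ e * y) = 0 := by
  have h1 := (h 0 (.ord e (A.erase j)) (by simp [unO])).1 0 Nat.zero_lt_one y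
  have h2 : pt β (.ord e (A.erase j)) 0 (Qn β j (.ord e A) 0 q) =
      fun s => C (pt β (.ord e A) x q s) := by
    funext s
    simp only [pt, msk, Qn]
    by_cases h3 : β s ∈ A
    · simp [h3]
    · have h4 : β s ∉ A.erase j := fun h => h3 (mem_of_mem_erase h)
      simp [h3, h4]
  rw [h2] at h1
  exact h1

theorem us_old {β : ν → ℕ} {j e dl i : ℕ} {As : List (Finset ℕ)} (hij : i ≠ j)
    {q : ν × Fin (d + 1) → ℂ} {Φ : MvPolynomial ν ℂ[X] →ₗ[ℂ[X]] ℂ[X]}
    (h : US β j (.cl e dl i As) q Φ) (x : Fin (d + 1)) (hx : x.1 < As.length)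
    (y : MvPolynomial ν ℂ[X]) :
    Φ (lf (fun s => C (pt β (.cl e dl i As) x q s)) ^ e * y) = 0 := by
  have h1 := (h 0 (.cl e dl i (As.map fun A => A.erase j)) (by simp [unO, hij])).1 x
    (by simpa [Kd.nm] using hx) y
  rw [show pt β (.cl e dl i (As.map fun A => A.erase j)) x (Qn β j (.cl e dl i As) 0 q) =
    fun s => C (pt β (.cl e dl i As) x q s) from funext fun s => pt_old hij q x 0 s] at h1
  exact h1

theorem us_old_b {β : ν → ℕ} {j e dl i : ℕ} {As : List (Finset ℕ)} (hij : i < j)
    {q : ν × Fin (d + 1) → ℂ} {Φ : MvPolynomial ν ℂ[X] →ₗ[ℂ[X]] ℂ[X]}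
    (h : US β j (.cl e dl i As) q Φ) (κ : ℕ) (h1 : 1 ≤ κ) (h2 : κ ≤ dl) (b : ν → ℕ)
    (hb : ∀ s, β s = i → b s = 0) :
    Φ (lf (fun s => C (uu β (.cl e dl i As) q s)) ^ (As.length * (e - 1)) *
      (lf (fun s => C (zz β i q s)) ^ κ * mon ℂ[X] b)) = 0 := by
  have h3 := (h 0 (.cl e dl i (As.map fun A => A.erase j)) (by simp [unO, hij.ne])).2
    (mem_range.2 hij) κ h1 h2 b hb
  rw [show uu β (.cl e dl i (As.map fun A => A.erase j)) (Qn β j (.cl e dl i As) 0 q) =
    fun s => C (uu β (.cl e dl i As) q s) from funext fun s => uu_old hij.ne q 0 s,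
    show zz β i (Qn β j (.cl e dl i As) 0 q) = fun s => C (zz β i q s) from
      funext fun s => zz_old hij.ne q 0 s, List.length_map] at h3
  exact h3

theorem us_new {β : ν → ℕ} {j e dl : ℕ} {As : List (Finset ℕ)}
    {q : ν × Fin (d + 1) → ℂ} {Φ : MvPolynomial ν ℂ[X] →ₗ[ℂ[X]] ℂ[X]}
    (h : US β j (.cl e dl j As) q Φ) (x : Fin (d + 1)) (hx : x.1 < As.length)
    (y : MvPolynomial ν ℂ[X]) :
    Φ (lf (fun s => C (pt β (.cl e dl j As) x q s) +
      (if x.1 = 0 then X ^ ta d dl * C (zz β j q s) else 0)) ^ e * y) = 0 := by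
  have h1 := (h x (.ord e ((As.getD x ∅).erase j)) (by simp [unO, hx])).1 0 Nat.zero_lt_one y
  have h2 : pt β (.ord e ((As.getD x ∅).erase j)) 0 (Qn β j (.cl e dl j As) x q) =
      fun s => C (pt β (.cl e dl j As) x q s) +
        (if x.1 = 0 then X ^ ta d dl * C (zz β j q s) else 0) := by
    funext s
    have h5 : Qn β j (.cl e dl j As) x q = fun z : ν × Fin (d + 1) =>
        C (pt β (.cl e dl j As) x q z.1) +
          (if x.1 = 0 then X ^ ta d dl * C (zz β j q z.1) else 0) := by
      funext z
      simp only [Qn, if_true]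
    rw [h5]
    show (if β s ∈ (As.getD x ∅).erase j then (0 : ℂ[X]) else C (pt β (.cl e dl j As) x q s) +
          (if x.1 = 0 then X ^ ta d dl * C (zz β j q s) else 0)) = _
    by_cases h3 : β s ∈ (As.getD x ∅).erase j
    · rw [if_pos h3]
      have h6 : β s ∈ As.getD x ∅ := mem_of_mem_erase h3
      have h7 : β s ≠ j := ne_of_mem_erase h3
      have h8 : pt β (.cl e dl j As) x q s = 0 := by
        simp only [pt, msk, if_pos h6]
      have h9 : zz β j q s = 0 := by
        simp only [zz, if_neg h7]
      rw [h8, h9, map_zero, mul_zero, ite_self, add_zero]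
    · rw [if_neg h3]
  rw [h2] at h1
  exact h1

/-- The sum of the members of a new cluster. -/
theorem us_new_sum {β : ν → ℕ} {j e dl : ℕ} {As : List (Finset ℕ)} (he : 1 ≤ e)
    (hl : 1 ≤ As.length) {q : ν × Fin (d + 1) → ℂ} {Φ : MvPolynomial ν ℂ[X] →ₗ[ℂ[X]] ℂ[X]}
    (h : US β j (.cl e dl j As) q Φ) (y : MvPolynomial ν ℂ[X]) :
    Φ ((lf (fun s => C (uu β (.cl e dl j As) q s)) +
      MvPolynomial.C (X ^ ta d dl) * lf fun s => C (zz β j q s)) ^ (As.length * (e - 1) + 1) * y) =
        0 := by
  classical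
  set F : Finset (Fin (d + 1)) := univ.filter fun x => x.1 < As.length with hF
  have hcard : F.card ≤ As.length := by
    have h1 : F.card ≤ (range As.length).card :=
      card_le_card_of_injOn (fun x => x.1) (fun x hx => by
        have h2 := (mem_filter.1 hx).2
        exact mem_coe.2 (mem_range.2 h2)) fun x _ x' _ hxx => Fin.ext hxx
    rwa [card_range] at h1
  have h1 := sum_pow_mem (Ann Φ) (fun x : Fin (d + 1) => lf (fun s => C (pt β (.cl e dl j As) x q s) +
      (if x.1 = 0 then X ^ ta d dl * C (zz β j q s) else 0))) F e he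
      (fun x hx => fun y => us_new h x (mem_filter.1 hx).2 y)
  have h2 : ∑ x ∈ F, lf (fun s => C (pt β (.cl e dl j As) x q s) +
      (if x.1 = 0 then X ^ ta d dl * C (zz β j q s) else 0)) =
      lf (fun s => C (uu β (.cl e dl j As) q s)) +
        MvPolynomial.C (X ^ ta d dl) * lf fun s => C (zz β j q s) := by
    rw [← lf_sum, ← lf_smul, ← lf_add]
    congr 1
    funext s
    rw [sum_add_distrib]
    congr 1
    · rw [uu_cl, map_sum, hF, sum_filter]
      refine sum_congr rfl fun x _ => ?_
      split_ifs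
      · rfl
      · rw [map_zero]
    · rw [sum_eq_single (0 : Fin (d + 1))]
      · exact if_pos rfl
      · intro x _ hx
        exact if_neg fun h => hx (Fin.ext h)
      · intro h3
        have h4 : (0 : Fin (d + 1)) ∈ F := mem_filter.2 ⟨mem_univ _, hl⟩
        exact absurd h4 h3
  rw [h2] at h1
  have h3 : As.length * (e - 1) + 1 = F.card * (e - 1) + 1 + (As.length - F.card) * (e - 1) := by
    have h4 : As.length * (e - 1) = F.card * (e - 1) + (As.length - F.card) * (e - 1) := by
      rw [← add_mul, Nat.add_sub_cancel' hcard]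
    omega
  rw [h3, pow_add, mul_assoc]
  exact h1 _

end

end Pool.Agent.GD

end

section

/-!
# General d, step: one object, trace and residual
-/

set_option autoImplicit false
set_option linter.unusedSectionVars false

namespace Pool.Agent.GD

open Finset Polynomial
open Pool.Agent.V7 (msk)

theorem mem_inter {As : List (Finset ℕ)} (h : 1 ≤ As.length) {x : ℕ} :
    x ∈ inter As ↔ ∀ A ∈ As, x ∈ A := by
  rcases As with _ | ⟨A, As⟩
  · exact absurd h (by simp)
  · unfold inter
    rw [mem_filter]
    constructor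
    · exact fun h => h.2
    · exact fun h => ⟨h A (by simp), h⟩

section

variable {ν ν' : Type} [Fintype ν] [DecidableEq ν] [Fintype ν'] [DecidableEq ν'] {d : ℕ}
  {β : ν → ℕ} {β' : ν' → ℕ} {σ : ν' → ν} {j : ℕ}

/-- The coefficients of the trace. -/
noncomputable def trC (σ : ν' → ν) (B : ℕ) (φ : (ν → ℕ) → ℂ[X]) (a : ν' → ℕ) : ℂ :=
  (φ (Function.extend σ a 0)).coeff B

theorem Fn_trC (hσ : Function.Injective σ) (B : ℕ) (φ : (ν → ℕ) → ℂ[X]) (P : MvPolynomial ν' ℂ) :
    Fn (trC σ B φ) P =
      (Fn φ (MvPolynomial.rename σ (MvPolynomial.map C P))).coeff B := by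
  rw [Fn_rename hσ, Fn_coeff]
  rfl

theorem map_lf (p : ν → ℂ) : MvPolynomial.map C (lf p) = lf fun s => (C (p s) : ℂ[X]) := lf_map C p

theorem ren_lf (hσ : Function.Injective σ) (p : ν → ℂ) (hp : ∀ s, (¬ ∃ x, σ x = s) → p s = 0) :
    MvPolynomial.rename σ (MvPolynomial.map C (lf fun x => p (σ x))) =
      lf fun s => (C (p s) : ℂ[X]) := by
  rw [map_lf]
  exact rename_lf' hσ (fun s => (C (p s) : ℂ[X])) fun s hs => by rw [hp s hs, map_zero]

/-- A point of the trace. -/
theorem tr_pt (hσ : Function.Injective σ) {φ : (ν → ℕ) → ℂ[X]} {B E : ℕ} (p : ν → ℂ)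
    (hp : ∀ s, (¬ ∃ x, σ x = s) → p s = 0)
    (h : ∀ y, (Fn φ (lf (fun s => C (p s)) ^ E * y)).coeff B = 0) (y : MvPolynomial ν' ℂ) :
    Fn (trC σ B φ) (lf (fun x => p (σ x)) ^ E * y) = 0 := by
  rw [Fn_trC hσ, map_mul, map_pow, map_mul, map_pow, ren_lf hσ p hp]
  exact h _

theorem not_im (him : ∀ s, (∃ x, σ x = s) ↔ β s ≠ j) {s : ν} (hs : ¬ ∃ x, σ x = s) : β s = j := by
  by_contra h
  exact hs ((him s).2 h)

theorem blk_im (him : ∀ s, (∃ x, σ x = s) ↔ β s ≠ j) (hβ : ∀ x, ∀ i < j, β (σ x) = i ↔ β' x = i)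
    {A : Finset ℕ} (hA : A ⊆ range (j + 1)) (x : ν') : β' x ∈ A.erase j ↔ β (σ x) ∈ A := by
  have h1 : β (σ x) ≠ j := (him _).1 ⟨x, rfl⟩
  constructor
  · intro h
    have h2 := mem_of_mem_erase h
    have h3 := mem_range.1 (hA h2)
    have h4 := ne_of_mem_erase h
    rw [(hβ x (β' x) (by omega)).2 rfl]
    exact h2
  · intro h
    have h3 := mem_range.1 (hA h)
    rw [(hβ x (β (σ x)) (by omega)).1 rfl]
    exact mem_erase.2 ⟨h1, h⟩

/-- The conditions of the trace. -/
theorem sat_trace (hσ : Function.Injective σ) (him : ∀ s, (∃ x, σ x = s) ↔ β s ≠ j)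
    (hβ : ∀ x, ∀ i < j, β (σ x) = i ↔ β' x = i) (k : Kd) (hk : k.Ok d (j + 1))
    (q : ν × Fin (d + 1) → ℂ) (φ : (ν → ℕ) → ℂ[X]) (h : US β j k q (Fn φ)) {B : ℕ}
    (hB : B < (d + 1).factorial) (x : Fin (d + 1)) (δ : ν' × Fin (d + 1) → ℂ) (k' : Kd)
    (hk' : trO j k x.1 = some k') :
    Sat β' (range j) k' (Psi β β' σ j k x q δ) (Fn (trC σ B φ)) := by
  rcases k with ⟨e, A⟩ | ⟨e, dl, i, As⟩
  · -- ordinary points
    simp only [trO] at hk'
    split_ifs at hk' with h1
    · obtain ⟨h1, h2⟩ := h1
      cases hk'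
      refine ⟨fun x' _ y => ?_, trivial⟩
      have h3 : pt β' (.ord e (A.erase j)) x' (Psi β β' σ j (.ord e A) x q δ) =
          fun s => pt β (.ord e A) x q (σ s) := by
        funext s
        simp only [pt, msk, Psi, blk_im him hβ hk.2.2 s]
        rfl
      rw [h3]
      refine tr_pt hσ (pt β (.ord e A) x q) ?_ ?_ y
      · intro s hs
        have h4 : β s ∈ A := (not_im him hs).symm ▸ h2
        simp only [pt, msk, if_pos h4]
      · intro y
        rw [show (Kd.ord e (A.erase j)).ex = e from rfl, us_ord h x y, coeff_zero]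
  · obtain ⟨he, hl, htr, hi, hAs⟩ := hk
    have hlen : As.length ≤ d := by
      have h1 : As.length * 1 ≤ As.length * (e - 1) := Nat.mul_le_mul_left _ (by omega)
      unfold trx at htr
      omega
    have hsub : ∀ A ∈ As, A ⊆ range (j + 1) := fun A hA => (hAs A hA).trans (erase_subset _ _)
    have hiA : ∀ A ∈ As, i ∉ A := fun A hA h => (mem_erase.1 (hAs A hA h)).1 rfl
    have hgetD : ∀ y : ℕ, As.getD y ∅ ⊆ range (j + 1) := by
      intro y
      by_cases hy : y < As.length
      · exact hsub _ (getD_mem hy)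
      · rw [List.getD_eq_default _ _ (by omega)]
        exact empty_subset _
    by_cases hij : i = j
    · -- new cluster
      subst hij
      simp only [trO, if_true] at hk'
      split_ifs at hk' with h1
      · cases hk'
        refine ⟨fun x' _ y => ?_, trivial⟩
        have h3 : pt β' (.ord (trx e dl As.length) (inter As)) x'
            (Psi β β' σ i (.cl e dl i As) x q δ) = fun s => uu β (.cl e dl i As) q (σ s) := by
          funext s
          simp only [pt, msk, Psi, if_true, true_and]
          by_cases h4 : β' s ∈ inter As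
          · rw [if_pos h4, uu_cl]
            symm
            refine sum_eq_zero fun y _ => ?_
            split_ifs with h5
            · have h6 : As.getD y ∅ ∈ As := getD_mem h5
              have h7 := (mem_inter hl).1 h4 _ h6
              have h8 : β' s ∈ (As.getD y ∅).erase i := mem_erase.2 ⟨fun h => hiA _ h6 (h ▸ h7), h7⟩
              have h9 := (blk_im him hβ (hsub _ h6) s).1 h8
              simp only [pt, msk, if_pos h9]
            · rfl
          · rw [if_neg h4, if_pos h4]
        rw [h3]
        have h4 : ∀ s, β s = i → uu β (.cl e dl i As) q s = 0 :=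
          fun s hs => uu_zero hl (by omega) hiA q hs
        refine tr_pt hσ (uu β (.cl e dl i As) q) (fun s hs => h4 s (not_im him hs)) ?_ y
        intro y
        have h5 := Fn_dvd (Fn φ) _ _ (ta d dl) (As.length * (e - 1)) dl
          (us_new_sum (by omega) hl h) y
        rw [ta_mul (by unfold trx at htr; omega)] at h5
        exact (X_pow_dvd_iff.1 h5) B hB
    · have hij' : i < j := by omega
      simp only [trO, if_neg hij] at hk'
      by_cases hall : ∀ A ∈ As, j ∈ A
      · -- old cluster on the subspace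
        rw [if_pos hall] at hk'
        split_ifs at hk' with h1
        · cases hk'
          have hpsi : ∀ z, Psi β β' σ j (.cl e dl i As) x q δ z = q (σ z.1, z.2) := by
            intro z
            simp only [Psi, if_neg hij, if_pos hall]
          have hi1 : ∀ s, (β' s = i ↔ β (σ s) = i) := fun s => (hβ s i hij').symm
          have h3 : ∀ (y : Fin (d + 1)) (s : ν'),
              pt β' (.cl e dl i (As.map fun A => A.erase j)) y (Psi β β' σ j (.cl e dl i As) x q δ) s =
                pt β (.cl e dl i As) y q (σ s) := by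
            intro y s
            simp only [pt, msk, hpsi, getD_erase, List.length_map, blk_im him hβ (hgetD y) s, hi1]
          have h4 : ∀ (y : Fin (d + 1)), y.1 < As.length → ∀ s, β s = j →
              pt β (.cl e dl i As) y q s = 0 := by
            intro y hy s hs
            have h5 : β s ∈ As.getD y ∅ := hs.symm ▸ hall _ (getD_mem hy)
            simp only [pt, msk, if_pos h5]
          have h5 : ∀ s, β s = j → uu β (.cl e dl i As) q s = 0 := by
            intro s hs
            rw [uu_cl]
            refine sum_eq_zero fun y _ => ?_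
            split_ifs with h6
            · exact h4 y h6 s hs
            · rfl
          have h6 : ∀ s, β s = j → zz β i q s = 0 := by
            intro s hs
            have h7 : β s ≠ i := fun h => hij (h.symm.trans hs)
            simp only [zz, if_neg h7]
          refine ⟨fun x' hx' y => ?_, fun _ κ h1 h2 b hb => ?_⟩
          · simp only [Kd.nm, List.length_map] at hx'
            rw [show pt β' (.cl e dl i (As.map fun A => A.erase j)) x'
              (Psi β β' σ j (.cl e dl i As) x q δ) = fun s => pt β (.cl e dl i As) x' q (σ s) from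
              funext fun s => h3 x' s]
            refine tr_pt hσ (pt β (.cl e dl i As) x' q) (fun s hs => h4 x' hx' s (not_im him hs)) ?_ y
            intro y
            rw [show (Kd.cl e dl i (As.map fun A => A.erase j)).ex = e from rfl, us_old hij h x' hx' y,
              coeff_zero]
          · have e1 : uu β' (.cl e dl i (As.map fun A => A.erase j))
                (Psi β β' σ j (.cl e dl i As) x q δ) = fun s => uu β (.cl e dl i As) q (σ s) := by
              funext s
              rw [uu_cl, uu_cl, List.length_map]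
              refine sum_congr rfl fun y _ => ?_
              rw [h3]
            have e2 : zz β' i (Psi β β' σ j (.cl e dl i As) x q δ) = fun s => zz β i q (σ s) := by
              funext s
              simp only [zz, hpsi, hi1]
            have e3 : MvPolynomial.rename σ (MvPolynomial.map C
                (lf (fun s => uu β (.cl e dl i As) q (σ s)) ^ (As.length * (e - 1)) *
                  (lf (fun s => zz β i q (σ s)) ^ κ * mon ℂ b))) =
                lf (fun s => (C (uu β (.cl e dl i As) q s) : ℂ[X])) ^ (As.length * (e - 1)) *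
                  (lf (fun s => (C (zz β i q s) : ℂ[X])) ^ κ * mon ℂ[X] (Function.extend σ b 0)) := by
              rw [map_mul, map_mul, map_pow, map_pow, map_mul, map_mul, map_pow, map_pow,
                ren_lf hσ (uu β (.cl e dl i As) q) (fun s hs => h5 s (not_im him hs)),
                ren_lf hσ (zz β i q) (fun s hs => h6 s (not_im him hs)), mon_map, rename_mon hσ]
            rw [e1, e2, List.length_map, Fn_trC hσ, e3,
              us_old_b hij' h κ h1 h2 (Function.extend σ b 0), coeff_zero]
            intro s hs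
            obtain ⟨x'', rfl⟩ := (him s).2 (by omega)
            rw [hσ.extend_apply]
            exact hb x'' ((hβ x'' i hij').1 hs)
      · -- old cluster partly on the subspace
        rw [if_neg hall] at hk'
        split_ifs at hk' with h1
        · obtain ⟨h1, h2⟩ := h1
          cases hk'
          refine ⟨fun x' _ y => ?_, trivial⟩
          have h3 : pt β' (.ord e ((As.getD x ∅).erase j)) x' (Psi β β' σ j (.cl e dl i As) x q δ) =
              fun s => pt β (.cl e dl i As) x q (σ s) := by
            funext s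
            by_cases h4 : β' s ∈ (As.getD x ∅).erase j
            · have h5 := (blk_im him hβ (hgetD x) s).1 h4
              simp only [pt, msk, if_pos h4, if_pos h5]
            · show (if β' s ∈ (As.getD x ∅).erase j then (0 : ℂ) else
                Psi β β' σ j (.cl e dl i As) x q δ (s, 0)) = pt β (.cl e dl i As) x q (σ s)
              rw [if_neg h4]
              simp only [Psi, if_neg hij, if_neg hall]
              simp only [true_and]
              rw [if_pos h4]
          rw [h3]
          refine tr_pt hσ (pt β (.cl e dl i As) x q) ?_ ?_ y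
          · intro s hs
            have h4 : β s ∈ As.getD x ∅ := (not_im him hs).symm ▸ h2
            simp only [pt, msk, if_pos h4]
          · intro y
            rw [show (Kd.ord e ((As.getD x ∅).erase j)).ex = e from rfl, us_old hij h x h1 y,
              coeff_zero]

/-- The conditions of the residual. -/
theorem sat_resid (hσ : Function.Injective σ) (him : ∀ s, (∃ x, σ x = s) ↔ β s ≠ j)
    (k : Kd) (hk : k.Ok d (j + 1)) (q : ν × Fin (d + 1) → ℂ) (φ : (ν → ℕ) → ℂ[X])
    (h : US β j k q (Fn φ))
    (hd : ∀ a : ν' → ℕ, X ^ (d + 1).factorial ∣ φ (Function.extend σ a 0)) :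
    Sat β (range (j + 1)) k q (Fn fun a => (φ a).eval 0) := by
  have hev : ∀ P : MvPolynomial ν ℂ[X], (Fn φ P).eval 0 =
      Fn (fun a => (φ a).eval 0) (MvPolynomial.map (evalRingHom 0) P) := by
    intro P
    have h1 := Fn_map (evalRingHom (0 : ℂ)) φ P
    exact h1
  have hC : ∀ P : MvPolynomial ν ℂ, MvPolynomial.map (evalRingHom 0) (MvPolynomial.map C P) = P := by
    intro P
    rw [MvPolynomial.map_map]
    have h1 : (evalRingHom (0 : ℂ)).comp C = RingHom.id ℂ := by
      ext a
      simp
    rw [h1, MvPolynomial.map_id]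
  have hlf : ∀ p : ν → ℂ[X], MvPolynomial.map (evalRingHom 0) (lf p) =
      lf fun s => (p s).eval 0 := fun p => lf_map _ p
  rcases k with ⟨e, A⟩ | ⟨e, dl, i, As⟩
  · refine ⟨fun x _ y => ?_, trivial⟩
    have h1 := us_ord h x (MvPolynomial.map C y)
    have h2 := congrArg (Polynomial.eval 0) h1
    rw [hev, map_mul, map_pow, hlf, hC, eval_zero] at h2
    simp only [eval_C] at h2
    exact h2
  · obtain ⟨he, hl, htr, hi, hAs⟩ := hk
    have hiA : ∀ A ∈ As, i ∉ A := fun A hA h => (mem_erase.1 (hAs A hA h)).1 rfl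
    by_cases hij : i = j
    · subst hij
      refine ⟨fun x hx y => ?_, fun _ κ h1 h2 b hb => ?_⟩
      · have h1 := us_new h x hx (MvPolynomial.map C y)
        have h2 := congrArg (Polynomial.eval 0) h1
        rw [hev, map_mul, map_pow, hlf, hC, eval_zero] at h2
        have h3 : (fun s => (C (pt β (.cl e dl i As) x q s) +
            (if x.1 = 0 then X ^ ta d dl * C (zz β i q s) else 0) : ℂ[X]).eval 0) =
            pt β (.cl e dl i As) x q := by
          funext s
          have h4 : (0 : ℂ) ^ ta d dl = 0 := zero_pow (by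
            have := ta_pos (d := d) (dl := dl) (by unfold trx at htr; omega)
            omega)
          rw [eval_add, eval_C]
          split_ifs
          · rw [eval_mul, eval_pow, eval_X, h4, zero_mul, add_zero]
          · rw [eval_zero, add_zero]
        rw [h3] at h2
        exact h2
      · have hlen : As.length ≤ d := by
          have h1 : As.length * 1 ≤ As.length * (e - 1) := Nat.mul_le_mul_left _ (by omega)
          unfold trx at htr
          omega
        have h4 : ∀ s, β s = i → uu β (.cl e dl i As) q s = 0 :=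
          fun s hs => uu_zero hl (by omega) hiA q hs
        have hdl : dl ≤ d := by
          unfold trx at htr
          omega
        have e3 : MvPolynomial.map (evalRingHom 0)
            (lf (fun s => (C (uu β (.cl e dl i As) q s) : ℂ[X])) ^ (As.length * (e - 1)) *
              lf (fun s => (C (zz β i q s) : ℂ[X])) ^ (κ - 1 + 1) * mon ℂ[X] b) =
            lf (uu β (.cl e dl i As) q) ^ (As.length * (e - 1)) *
              (lf (zz β i q) ^ κ * mon ℂ b) := by
          rw [map_mul, map_mul, map_pow, map_pow, hlf, hlf, mon_map, Nat.sub_add_cancel h1]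
          simp only [eval_C]
          ring
        have h5 := Fn_resid (Fn φ) (lf fun s => (C (uu β (.cl e dl i As) q s) : ℂ[X]))
          (lf fun s => (C (zz β i q s) : ℂ[X])) (ta d dl) (As.length * (e - 1)) (κ - 1) dl
          (ta_pos hdl) (by omega) (us_new_sum (by omega) hl h) (mon ℂ[X] b) (by
            rw [ta_mul hdl]
            have e4 : MvPolynomial.rename σ (lf (fun s => (C (uu β (.cl e dl i As) q (σ s)) : ℂ[X])) ^
                (As.length * (e - 1) + 1 + (κ - 1)) * mon ℂ[X] fun x => b (σ x)) =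
                lf (fun s => (C (uu β (.cl e dl i As) q s) : ℂ[X])) ^
                  (As.length * (e - 1) + 1 + (κ - 1)) * mon ℂ[X] b := by
              rw [map_mul, map_pow, rename_mon hσ,
                rename_lf' hσ (fun s => (C (uu β (.cl e dl i As) q s) : ℂ[X]))
                  fun s hs => by rw [h4 s (not_im him hs), map_zero]]
              congr 2
              funext s
              by_cases hs : ∃ x, σ x = s
              · obtain ⟨x, rfl⟩ := hs
                rw [hσ.extend_apply]
              · rw [Function.extend_apply' _ _ _ hs, hb s (not_im him hs)]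
                rfl
            rw [← e4, Fn_rename hσ]
            exact Fn_dvd_of _ _ hd _)
        rw [hev, e3] at h5
        exact h5
    · have hij' : i < j := by omega
      refine ⟨fun x hx y => ?_, fun _ κ h1 h2 b hb => ?_⟩
      · have h1 := us_old hij h x hx (MvPolynomial.map C y)
        have h2 := congrArg (Polynomial.eval 0) h1
        rw [hev, map_mul, map_pow, hlf, hC, eval_zero] at h2
        simp only [eval_C] at h2
        exact h2
      · have h3 := us_old_b hij' h κ h1 h2 b hb
        have h4 := congrArg (Polynomial.eval 0) h3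
        have e3 : MvPolynomial.map (evalRingHom 0)
            (lf (fun s => (C (uu β (.cl e dl i As) q s) : ℂ[X])) ^ (As.length * (e - 1)) *
              (lf (fun s => (C (zz β i q s) : ℂ[X])) ^ κ * mon ℂ[X] b)) =
            lf (uu β (.cl e dl i As) q) ^ (As.length * (e - 1)) *
              (lf (zz β i q) ^ κ * mon ℂ b) := by
          rw [map_mul, map_pow, map_mul, map_pow, hlf, hlf, mon_map]
          simp only [eval_C]
        rw [hev, e3, eval_zero] at h4
        exact h4

end

end Pool.Agent.GD

end
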