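import Pool.Agent.H94.LP7.H51.TB.Sys
import Pool.Agent.H94.LP7.M05

/-! The parts of this file: GD.NM.Cal, GD.NM.Abs, H21.HD.Balanced, H21.HD.IndTrans, H21.HD.OneVar, H21.HD.PhiNum, H21.HD.SpanRestrict, KZ.Tr. -/

section

/-!
# Mixed differences of functions of sets, with weights

`dl S f T = ∑_{U ⊆ S} (-1)^|U| f (T ∪ U)`; `Lw I c n w α δ f`: for disjoint `S, T ⊆ I`,
`|dl S f T n^|S| - α |S| ∏ c n^w| ≤ δ ∏ c n^w`.  The product has the binomial convolution of the leading
coefficients.
-/

set_option autoImplicit false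

namespace Pool.Agent.GD.NM

open Finset

/-- The mixed difference. -/
def dl (S : Finset ℕ) (f : Finset ℕ → ℝ) (T : Finset ℕ) : ℝ :=
  ∑ U ∈ S.powerset, (-1) ^ U.card * f (T ∪ U)

theorem dl_empty (f : Finset ℕ → ℝ) (T : Finset ℕ) : dl ∅ f T = f T := by
  simp [dl]

theorem dl_insert {i : ℕ} {S : Finset ℕ} (hi : i ∉ S) (f : Finset ℕ → ℝ) (T : Finset ℕ) :
    dl (insert i S) f T = dl S f T - dl S f (insert i T) := by
  unfold dl
  rw [sum_powerset_insert hi, sub_eq_add_neg]
  congr 1
  rw [← sum_neg_distrib]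
  refine sum_congr rfl fun U hU => ?_
  have h1 : i ∉ U := fun h => hi (mem_powerset.1 hU h)
  rw [card_insert_of_notMem h1, pow_succ, union_insert, insert_union]
  ring

theorem dl_congr {S T : Finset ℕ} {f g : Finset ℕ → ℝ} (h : ∀ U ⊆ S, f (T ∪ U) = g (T ∪ U)) :
    dl S f T = dl S g T := by
  unfold dl
  exact sum_congr rfl fun U hU => by rw [h U (mem_powerset.1 hU)]

theorem dl_add (S : Finset ℕ) (f g : Finset ℕ → ℝ) (T : Finset ℕ) :
    dl S (fun U => f U + g U) T = dl S f T + dl S g T := by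
  unfold dl
  rw [← sum_add_distrib]
  exact sum_congr rfl fun U _ => by ring

theorem dl_smul (S : Finset ℕ) (a : ℝ) (f : Finset ℕ → ℝ) (T : Finset ℕ) :
    dl S (fun U => a * f U) T = a * dl S f T := by
  unfold dl
  rw [mul_sum]
  exact sum_congr rfl fun U _ => by ring

theorem dl_sum {κ : Type*} (s : Finset κ) (S : Finset ℕ) (f : κ → Finset ℕ → ℝ) (T : Finset ℕ) :
    dl S (fun U => ∑ k ∈ s, f k U) T = ∑ k ∈ s, dl S (f k) T := by
  unfold dl
  rw [sum_comm]
  exact sum_congr rfl fun U _ => by rw [mul_sum]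

theorem dl_const {S : Finset ℕ} (hS : S.Nonempty) (a : ℝ) (T : Finset ℕ) :
    dl S (fun _ => a) T = 0 := by
  obtain ⟨i, hi⟩ := hS
  rw [← insert_erase hi, dl_insert (notMem_erase i S)]
  unfold dl
  exact sub_self _

/-- The rule of Leibniz. -/
theorem dl_mul (S : Finset ℕ) (f g : Finset ℕ → ℝ) (T : Finset ℕ) :
    dl S (fun U => f U * g U) T =
      ∑ U ∈ S.powerset, dl U f (T ∪ (S \ U)) * dl (S \ U) g T := by
  induction S using Finset.induction_on generalizing T with
  | empty => simp [dl]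
  | insert i S hi ih =>
    rw [dl_insert hi, ih T, ih (insert i T), sum_powerset_insert hi, ← sum_add_distrib,
      ← sum_sub_distrib]
    refine sum_congr rfl fun U hU => ?_
    have hU' := mem_powerset.1 hU
    have h1 : i ∉ U := fun h => hi (hU' h)
    have h2 : i ∉ S \ U := fun h => hi (mem_sdiff.1 h).1
    have h3 : insert i S \ U = insert i (S \ U) := insert_sdiff_of_notMem S h1
    have h4 : insert i S \ insert i U = S \ U := by
      ext x
      simp only [mem_sdiff, mem_insert, not_or]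
      constructor
      · rintro ⟨h | h, h5, h6⟩
        · exact absurd h h5
        · exact ⟨h, h6⟩
      · rintro ⟨h, h5⟩
        exact ⟨Or.inr h, fun h6 => hi (h6 ▸ h), h5⟩
    rw [h3, h4, dl_insert h1, dl_insert h2, union_insert, insert_union]
    ring

/-- `∏_{i ∈ S} c i`. -/
def cp (c : ℕ → ℕ) (S : Finset ℕ) : ℝ := ∏ i ∈ S, (c i : ℝ)

theorem cp_nonneg (c : ℕ → ℕ) (S : Finset ℕ) : 0 ≤ cp c S := prod_nonneg fun _ _ => Nat.cast_nonneg _

theorem cp_mul {c : ℕ → ℕ} {S U : Finset ℕ} (h : U ⊆ S) : cp c U * cp c (S \ U) = cp c S := by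
  unfold cp
  rw [mul_comm]
  exact prod_sdiff h

/-- The leading coefficients of the mixed differences. -/
def Lw (I : Finset ℕ) (c : ℕ → ℕ) (n w : ℕ) (α : ℕ → ℝ) (δ : ℝ) (f : Finset ℕ → ℝ) : Prop :=
  ∀ S T, S ⊆ I → T ⊆ I → Disjoint S T →
    |dl S f T * (n : ℝ) ^ S.card - α S.card * (cp c S * (n : ℝ) ^ w)| ≤ δ * (cp c S * (n : ℝ) ^ w)

section

variable {I : Finset ℕ} {c : ℕ → ℕ} {n w w' : ℕ} {α β : ℕ → ℝ} {δ δ' : ℝ} {f g : Finset ℕ → ℝ}

theorem Lw.mono (h : Lw I c n w α δ f) (hd : δ ≤ δ') : Lw I c n w α δ' f := fun S T hS hT hST =>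
  (h S T hS hT hST).trans
    (mul_le_mul_of_nonneg_right hd (mul_nonneg (cp_nonneg c S) (pow_nonneg (Nat.cast_nonneg _) _)))

theorem Lw.congr (h : Lw I c n w α δ f) (hfg : ∀ T ⊆ I, f T = g T)
    (hab : ∀ s ≤ I.card, α s = β s) : Lw I c n w β δ g := fun S T hS hT hST => by
  rw [← hab _ (card_le_card hS),
    ← dl_congr (f := f) (g := g) fun U hU => hfg _ (union_subset hT (hU.trans hS))]
  exact h S T hS hT hST

theorem Lw.add (hf : Lw I c n w α δ f) (hg : Lw I c n w β δ' g) :
    Lw I c n w (fun s => α s + β s) (δ + δ') fun T => f T + g T := fun S T hS hT hST => by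
  have h1 := hf S T hS hT hST
  have h2 := hg S T hS hT hST
  rw [dl_add]
  calc _ = |(dl S f T * (n : ℝ) ^ S.card - α S.card * (cp c S * (n : ℝ) ^ w)) +
        (dl S g T * (n : ℝ) ^ S.card - β S.card * (cp c S * (n : ℝ) ^ w))| := by
        congr 1
        ring
    _ ≤ _ := (abs_add_le _ _).trans (add_le_add h1 h2)
    _ = _ := by ring

theorem Lw.smul (hf : Lw I c n w α δ f) (a : ℝ) :
    Lw I c n w (fun s => a * α s) (|a| * δ) fun T => a * f T := fun S T hS hT hST => by
  have h1 := hf S T hS hT hST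
  rw [dl_smul]
  calc _ = |a| * |dl S f T * (n : ℝ) ^ S.card - α S.card * (cp c S * (n : ℝ) ^ w)| := by
        rw [← abs_mul]
        congr 1
        ring
    _ ≤ |a| * (δ * (cp c S * (n : ℝ) ^ w)) := mul_le_mul_of_nonneg_left h1 (abs_nonneg a)
    _ = _ := by ring

theorem Lw.sum {κ : Type*} (s : Finset κ) {α : κ → ℕ → ℝ} {δ : κ → ℝ} {f : κ → Finset ℕ → ℝ}
    (h : ∀ k ∈ s, Lw I c n w (α k) (δ k) (f k)) :
    Lw I c n w (fun t => ∑ k ∈ s, α k t) (∑ k ∈ s, δ k) fun T => ∑ k ∈ s, f k T :=
  fun S T hS hT hST => by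
  rw [dl_sum, sum_mul, sum_mul, ← sum_sub_distrib, sum_mul]
  exact (abs_sum_le_sum_abs _ _).trans (sum_le_sum fun k hk => h k hk S T hS hT hST)

/-- A function of a smaller weight is small. -/
theorem Lw.up {ε A : ℝ} (h : Lw I c n w α δ f) (hw : w < w') (hε : 0 ≤ ε) (hn : 1 ≤ n)
    (hA : ∀ s ≤ I.card, |α s| + δ ≤ A) (hAn : A ≤ ε * n) :
    Lw I c n w' (fun _ => 0) ε f := fun S T hS hT hST => by
  have h1 := h S T hS hT hST
  have h2 := hA _ (card_le_card hS)
  have h0 : 0 ≤ cp c S * (n : ℝ) ^ w := mul_nonneg (cp_nonneg c S) (pow_nonneg (Nat.cast_nonneg _) _)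
  have hn1 : (1 : ℝ) ≤ n := by exact_mod_cast hn
  rw [zero_mul, sub_zero]
  have h3 : |dl S f T * (n : ℝ) ^ S.card| ≤ A * (cp c S * (n : ℝ) ^ w) := by
    calc |dl S f T * (n : ℝ) ^ S.card| =
          |(dl S f T * (n : ℝ) ^ S.card - α S.card * (cp c S * (n : ℝ) ^ w)) +
            α S.card * (cp c S * (n : ℝ) ^ w)| := by
          congr 1
          ring
      _ ≤ δ * (cp c S * (n : ℝ) ^ w) + |α S.card| * (cp c S * (n : ℝ) ^ w) := by
          refine (abs_add_le _ _).trans (add_le_add h1 ?_)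
          rw [abs_mul, abs_of_nonneg h0]
      _ = (|α S.card| + δ) * (cp c S * (n : ℝ) ^ w) := by ring
      _ ≤ _ := mul_le_mul_of_nonneg_right h2 h0
  refine h3.trans ((mul_le_mul_of_nonneg_right hAn h0).trans ?_)
  have h4 : (n : ℝ) ^ (w + 1) ≤ (n : ℝ) ^ w' := pow_le_pow_right₀ hn1 hw
  calc ε * n * (cp c S * (n : ℝ) ^ w) = ε * (cp c S * (n : ℝ) ^ (w + 1)) := by ring
    _ ≤ ε * (cp c S * (n : ℝ) ^ w') :=
        mul_le_mul_of_nonneg_left (mul_le_mul_of_nonneg_left h4 (cp_nonneg c S)) hε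

/-- The binomial convolution. -/
def bc (α β : ℕ → ℝ) (s : ℕ) : ℝ := ∑ u ∈ range (s + 1), (s.choose u : ℝ) * (α u * β (s - u))

/-- Products. -/
theorem Lw.mul {A B : ℝ} {m : ℕ} (hf : Lw I c n w α δ f) (hg : Lw I c n w' β δ' g)
    (hm : I.card ≤ m) (hA : ∀ s ≤ m, |α s| ≤ A) (hB : ∀ s ≤ m, |β s| ≤ B) (hd : 0 ≤ δ) :
    Lw I c n (w + w') (bc α β) (2 ^ m * (A * δ' + B * δ + δ * δ')) fun T => f T * g T :=
  fun S T hS hT hST => by
  have hsm : S.card ≤ m := (card_le_card hS).trans hm
  have hA0 : 0 ≤ A := (abs_nonneg _).trans (hA 0 (Nat.zero_le _))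
  have hB0 : 0 ≤ B := (abs_nonneg _).trans (hB 0 (Nat.zero_le _))
  have h0 : ∀ (U : Finset ℕ) (v : ℕ), 0 ≤ cp c U * (n : ℝ) ^ v := fun U v =>
    mul_nonneg (cp_nonneg c U) (pow_nonneg (Nat.cast_nonneg _) _)
  have hconv : bc α β S.card = ∑ U ∈ S.powerset, α U.card * β (S.card - U.card) := by
    rw [Finset.sum_powerset_apply_card (fun u => α u * β (S.card - u))]
    unfold bc
    exact sum_congr rfl fun u _ => by rw [nsmul_eq_mul]
  rw [dl_mul, hconv, sum_mul, sum_mul, ← sum_sub_distrib]
  have hterm : ∀ U ∈ S.powerset, |dl U f (T ∪ (S \ U)) * dl (S \ U) g T * (n : ℝ) ^ S.card -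
      α U.card * β (S.card - U.card) * (cp c S * (n : ℝ) ^ (w + w'))| ≤
      (A * δ' + B * δ + δ * δ') * (cp c S * (n : ℝ) ^ (w + w')) := by
    intro U hU
    have hU' := mem_powerset.1 hU
    have hcard : U.card + (S \ U).card = S.card := by
      rw [card_sdiff_of_subset hU']
      have := card_le_card hU'
      omega
    have hsub : S.card - U.card = (S \ U).card := by omega
    have e1 := hf U (T ∪ (S \ U)) (hU'.trans hS) (union_subset hT (sdiff_subset.trans hS)) (by
      rw [disjoint_union_right]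
      exact ⟨hST.mono_left hU', disjoint_sdiff⟩)
    have e2 := hg (S \ U) T (sdiff_subset.trans hS) hT (hST.mono_left sdiff_subset)
    rw [hsub]
    set x := dl U f (T ∪ (S \ U)) * (n : ℝ) ^ U.card with hx
    set y := dl (S \ U) g T * (n : ℝ) ^ (S \ U).card with hy
    set p := cp c U * (n : ℝ) ^ w with hp
    set q := cp c (S \ U) * (n : ℝ) ^ w' with hq
    have hpq : cp c S * (n : ℝ) ^ (w + w') = p * q := by
      rw [hp, hq, ← cp_mul hU', pow_add]
      ring
    have hxy : dl U f (T ∪ (S \ U)) * dl (S \ U) g T * (n : ℝ) ^ S.card = x * y := by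
      rw [hx, hy, ← hcard, pow_add]
      ring
    rw [hpq, hxy]
    have hp0 : 0 ≤ p := h0 _ _
    have hq0 : 0 ≤ q := h0 _ _
    have ha : |α U.card| ≤ A := hA _ ((card_le_card hU').trans hsm)
    have hb : |β (S \ U).card| ≤ B := hB _ (by omega)
    have k1 : x * y - α U.card * β (S \ U).card * (p * q) =
        α U.card * p * (y - β (S \ U).card * q) + (x - α U.card * p) * (β (S \ U).card * q) +
          (x - α U.card * p) * (y - β (S \ U).card * q) := by ring
    rw [k1]
    have k2 : |α U.card * p * (y - β (S \ U).card * q)| ≤ A * p * (δ' * q) := by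
      rw [abs_mul, abs_mul, abs_of_nonneg hp0]
      exact mul_le_mul (mul_le_mul_of_nonneg_right ha hp0) e2 (abs_nonneg _)
        (mul_nonneg hA0 hp0)
    have k3 : |(x - α U.card * p) * (β (S \ U).card * q)| ≤ δ * p * (B * q) := by
      rw [abs_mul, abs_mul, abs_of_nonneg hq0]
      exact mul_le_mul e1 (mul_le_mul_of_nonneg_right hb hq0)
        (mul_nonneg (abs_nonneg _) hq0) (mul_nonneg hd hp0)
    have k4 : |(x - α U.card * p) * (y - β (S \ U).card * q)| ≤ δ * p * (δ' * q) := by
      rw [abs_mul]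
      exact mul_le_mul e1 e2 (abs_nonneg _) (mul_nonneg hd hp0)
    calc _ ≤ |α U.card * p * (y - β (S \ U).card * q)| +
          |(x - α U.card * p) * (β (S \ U).card * q)| +
          |(x - α U.card * p) * (y - β (S \ U).card * q)| :=
          (abs_add_le _ _).trans (add_le_add_left (abs_add_le _ _) _)
      _ ≤ A * p * (δ' * q) + δ * p * (B * q) + δ * p * (δ' * q) := by linarith
      _ = _ := by ring
  calc _ ≤ ∑ U ∈ S.powerset, (A * δ' + B * δ + δ * δ') * (cp c S * (n : ℝ) ^ (w + w')) :=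
        (abs_sum_le_sum_abs _ _).trans (sum_le_sum hterm)
    _ = 2 ^ S.card * ((A * δ' + B * δ + δ * δ') * (cp c S * (n : ℝ) ^ (w + w'))) := by
        rw [sum_const, card_powerset, nsmul_eq_mul]
        push_cast
        ring
    _ ≤ 2 ^ m * ((A * δ' + B * δ + δ * δ') * (cp c S * (n : ℝ) ^ (w + w'))) := by
        refine mul_le_mul_of_nonneg_right (pow_le_pow_right₀ one_le_two hsm) ?_
        exact (abs_nonneg _).trans (hterm ∅ (empty_mem_powerset _))
    _ = _ := by ring

end

end Pool.Agent.GD.NM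

end

section

/-!
# Leading coefficients from a recursion of Euler type
-/

set_option autoImplicit false

namespace Pool.Agent.GD.NM

open Finset

/-- The identity of Vandermonde for falling factorials. -/
theorem vander (l k s : ℕ) : ∑ u ∈ range (s + 1), s.choose u * (l.descFactorial u * k.descFactorial (s - u)) =
    (l + k).descFactorial s := by
  rw [Nat.descFactorial_eq_factorial_mul_choose (l + k) s, Nat.add_choose_eq,
    Finset.Nat.sum_antidiagonal_eq_sum_range_succ (fun a b => l.choose a * k.choose b), mul_sum]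
  refine sum_congr rfl fun u hu => ?_
  have hus : u ≤ s := Nat.lt_succ_iff.1 (mem_range.1 hu)
  rw [Nat.descFactorial_eq_factorial_mul_choose, Nat.descFactorial_eq_factorial_mul_choose,
    ← Nat.choose_mul_factorial_mul_factorial hus]
  ring

theorem bc_desc (x y : ℝ) (l k s : ℕ) :
    bc (fun t => x * (l.descFactorial t : ℕ)) (fun t => y * (k.descFactorial t : ℕ)) s =
      x * y * ((l + k).descFactorial s : ℕ) := by
  rw [← vander l k s]
  unfold bc
  push_cast
  rw [mul_sum]
  exact sum_congr rfl fun u _ => by ring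

theorem desc_le (l s : ℕ) : l.descFactorial s ≤ l.factorial := by
  by_cases h : s ≤ l
  · have h1 := Nat.factorial_mul_descFactorial h
    have h2 : 1 ≤ (l - s).factorial := Nat.factorial_pos _
    nlinarith
  · rw [Nat.descFactorial_of_lt (by omega)]
    exact Nat.zero_le _

theorem desc_le' {l d : ℕ} (h : l ≤ d) (s : ℕ) : (l.descFactorial s : ℝ) ≤ (d.factorial : ℝ) := by
  exact_mod_cast (desc_le l s).trans (Nat.factorial_le h)

/-- The constant function `1`. -/
theorem Lw_one (I : Finset ℕ) (c : ℕ → ℕ) (n : ℕ) :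
    Lw I c n 0 (fun s => (1 : ℝ) * ((0 : ℕ).descFactorial s : ℕ)) 0 fun _ => 1 := by
  intro S T _ _ _
  rcases S.eq_empty_or_nonempty with h | h
  · subst h
    rw [dl_empty]
    simp [cp]
  · rw [dl_const h]
    have h1 : Nat.descFactorial 0 S.card = 0 := Nat.descFactorial_of_lt (card_pos.2 h)
    simp only [h1]
    simp

theorem va_abs (m d : ℕ) (B K : ℝ) (hB : 0 ≤ B) (hK : 0 ≤ K) : ∀ D ≤ d, ∃ C G : ℝ, 0 ≤ C ∧ 0 ≤ G ∧ ∀ β g : ℕ → ℝ, (∀ l ≤ d, |β l| ≤ B) →
    g 0 = 1 → (∀ D : ℕ, ((D : ℝ) + 1) * g (D + 1) = ∑ l ∈ range (D + 1), β (l + 1) * g (D - l)) → |g D| ≤ G ∧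
      ∀ (I : Finset ℕ) (c : ℕ → ℕ) (n : ℕ) (ε : ℝ) (a b : ℕ → Finset ℕ → ℝ), I.card ≤ m → 0 ≤ ε → ε ≤ 1 →
        (∀ T ⊆ I, a 0 T = 1) →
        (∀ D : ℕ, ∀ T ⊆ I, ((D : ℝ) + 1) * a (D + 1) T = ∑ l ∈ range (D + 1), b (l + 1) T * a (D - l) T) →
        (∀ l, 1 ≤ l → l ≤ d → Lw I c n l (fun s => β l * (l.descFactorial s : ℕ)) (K * ε) (b l)) →
        Lw I c n D (fun s => g D * (D.descFactorial s : ℕ)) (C * ε) (a D) := by
  intro D
  induction D using Nat.strong_induction_on with
  | _ D ih =>
  intro hD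
  rcases D with _ | D
  · refine ⟨0, 1, le_rfl, zero_le_one, fun β g _ hg0 _ => ⟨by rw [hg0, abs_one], ?_⟩⟩
    intro I c n ε a b _ _ _ ha0 _ _
    rw [zero_mul]
    refine (Lw_one I c n).congr (fun T hT => (ha0 T hT).symm) fun s _ => ?_
    rw [hg0]
  have ih' : ∀ l : Fin (D + 1), ∃ C G : ℝ, 0 ≤ C ∧ 0 ≤ G ∧ ∀ β g : ℕ → ℝ, (∀ l ≤ d, |β l| ≤ B) →
    g 0 = 1 → (∀ D : ℕ, ((D : ℝ) + 1) * g (D + 1) = ∑ l ∈ range (D + 1), β (l + 1) * g (D - l)) → |g (D - l.1)| ≤ G ∧
      ∀ (I : Finset ℕ) (c : ℕ → ℕ) (n : ℕ) (ε : ℝ) (a b : ℕ → Finset ℕ → ℝ), I.card ≤ m → 0 ≤ ε → ε ≤ 1 →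
        (∀ T ⊆ I, a 0 T = 1) →
        (∀ D : ℕ, ∀ T ⊆ I, ((D : ℝ) + 1) * a (D + 1) T = ∑ l ∈ range (D + 1), b (l + 1) T * a (D - l) T) →
        (∀ l, 1 ≤ l → l ≤ d → Lw I c n l (fun s => β l * (l.descFactorial s : ℕ)) (K * ε) (b l)) →
        Lw I c n (D - l.1) (fun s => g (D - l.1) * ((D - l.1).descFactorial s : ℕ)) (C * ε) (a (D - l.1)) :=
    fun l => ih (D - l.1) (by omega) (by omega)
  choose C G hC hG hCG using ih'
  have hB' : 0 ≤ B * d.factorial := mul_nonneg hB (Nat.cast_nonneg _)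
  have hG' : ∀ l, 0 ≤ G l * d.factorial := fun l => mul_nonneg (hG l) (Nat.cast_nonneg _)
  refine ⟨∑ l : Fin (D + 1), 2 ^ m * (B * d.factorial * C l + G l * d.factorial * K + K * C l), ∑ l : Fin (D + 1), B * G l,
    sum_nonneg fun l _ => mul_nonneg (by positivity)
      (add_nonneg (add_nonneg (mul_nonneg hB' (hC l)) (mul_nonneg (hG' l) hK)) (mul_nonneg hK (hC l))),
    sum_nonneg fun l _ => mul_nonneg hB (hG l),
    fun β g hβ hg0 hg => ⟨?_, ?_⟩⟩
  · have h1 := hg D
    have h2 : |((D : ℝ) + 1) * g (D + 1)| ≤ ∑ l : Fin (D + 1), B * G l := by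
      rw [h1, ← Fin.sum_univ_eq_sum_range (fun l => β (l + 1) * g (D - l)) (D + 1)]
      refine (abs_sum_le_sum_abs _ _).trans (sum_le_sum fun l _ => ?_)
      rw [abs_mul]
      exact mul_le_mul (hβ _ (by have := l.2; omega)) ((hCG l β g hβ hg0 hg).1) (abs_nonneg _) hB
    rw [abs_mul, abs_of_nonneg (by positivity : (0 : ℝ) ≤ (D : ℝ) + 1)] at h2
    refine le_trans ?_ h2
    have h3 : (1 : ℝ) ≤ (D : ℝ) + 1 := by
      have : (0 : ℝ) ≤ D := Nat.cast_nonneg _
      linarith
    exact le_mul_of_one_le_left (abs_nonneg _) h3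
  · intro I c n ε a b hI hε0 hε1 ha0 ha hb
    have hprod : ∀ l : Fin (D + 1), Lw I c n (D + 1) (fun s => β (l.1 + 1) * g (D - l.1) * ((D + 1).descFactorial s : ℕ))
        (2 ^ m * (B * d.factorial * C l + G l * d.factorial * K + K * C l) * ε) fun T => b (l.1 + 1) T * a (D - l.1) T := by
      intro l
      have hl := l.2
      have h1 := hb (l.1 + 1) (by omega) (by omega)
      have h2 := (hCG l β g hβ hg0 hg).2 I c n ε a b hI hε0 hε1 ha0 ha hb
      have hg1 := (hCG l β g hβ hg0 hg).1
      have h3 := h1.mul (A := B * d.factorial) (B := G l * d.factorial) h2 hI (fun s _ => by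
        rw [abs_mul, Nat.abs_cast]
        exact mul_le_mul (hβ _ (by omega)) (desc_le' (by omega) s) (Nat.cast_nonneg _) hB) (fun s _ => by
        rw [abs_mul, Nat.abs_cast]
        exact mul_le_mul hg1 (desc_le' (by omega) s) (Nat.cast_nonneg _) (hG l)) (mul_nonneg hK hε0)
      have h4 : l.1 + 1 + (D - l.1) = D + 1 := by omega
      rw [h4] at h3
      refine (h3.congr (fun T _ => rfl) fun s _ => ?_).mono ?_
      · rw [bc_desc, h4]
      · have h5 : K * ε * (C l * ε) ≤ K * (C l * ε) := by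
          have : 0 ≤ K * (C l * ε) := mul_nonneg hK (mul_nonneg (hC l) hε0)
          nlinarith
        have h6 : (0 : ℝ) ≤ 2 ^ m := by positivity
        calc 2 ^ m * (B * d.factorial * (C l * ε) + G l * d.factorial * (K * ε) + K * ε * (C l * ε)) ≤
              2 ^ m * (B * d.factorial * (C l * ε) + G l * d.factorial * (K * ε) + K * (C l * ε)) :=
              mul_le_mul_of_nonneg_left (by linarith) h6
          _ = _ := by ring
    have hsum := Lw.sum (univ : Finset (Fin (D + 1))) (fun l _ => hprod l)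
    have hD1 : ((D : ℝ) + 1) ≠ 0 := by positivity
    have hsm := hsum.smul (((D : ℝ) + 1)⁻¹)
    refine (hsm.congr (fun T hT => ?_) fun s _ => ?_).mono ?_
    · have h1 := ha D T hT
      rw [← Fin.sum_univ_eq_sum_range (fun l => b (l + 1) T * a (D - l) T) (D + 1)] at h1
      rw [← h1]
      field_simp
    · have h1 := hg D
      rw [← Fin.sum_univ_eq_sum_range (fun l => β (l + 1) * g (D - l)) (D + 1)] at h1
      rw [← sum_mul, ← h1]
      field_simp
    · rw [sum_mul, abs_of_nonneg (by positivity : (0 : ℝ) ≤ ((D : ℝ) + 1)⁻¹)]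
      have h1 : ((D : ℝ) + 1)⁻¹ ≤ 1 := by
        refine inv_le_one_of_one_le₀ ?_
        have : (0 : ℝ) ≤ D := Nat.cast_nonneg _
        linarith
      refine mul_le_of_le_one_left (sum_nonneg fun l _ => ?_) h1
      exact mul_nonneg (mul_nonneg (by positivity)
        (add_nonneg (add_nonneg (mul_nonneg hB' (hC l)) (mul_nonneg (hG' l) hK)) (mul_nonneg hK (hC l)))) hε0

end Pool.Agent.GD.NM

end

section

/-!
Balanced maps.
-/

namespace Pool.Agent.H21.HD

open scoped Classical

private theorem exists_bal {X Y : Type} [Fintype X] [Fintype Y] [Nonempty Y] :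
    ∃ f : X → Y, ∀ y, Fintype.card X / Fintype.card Y ≤
      (Finset.univ.filter (fun x => f x = y)).card ∧
      (Finset.univ.filter (fun x => f x = y)).card ≤ Fintype.card X / Fintype.card Y + 1 := by
  set n := Fintype.card X with hn
  set m := Fintype.card Y with hm
  have hm0 : 0 < m := Fintype.card_pos
  let eX : X ≃ Fin n := Fintype.equivFin X
  let eY : Y ≃ Fin m := Fintype.equivFin Y
  refine ⟨fun x => eY.symm ⟨(eX x : ℕ) % m, Nat.mod_lt _ hm0⟩, fun y => ?_⟩
  have h1 : (Finset.univ.filter (fun x : X => eY.symm ⟨(eX x : ℕ) % m, Nat.mod_lt _ hm0⟩ = y)).card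
      = Nat.count (fun k => k ≡ (eY y : ℕ) [MOD m]) n := by
    rw [Nat.count_eq_card_filter_range]
    refine Finset.card_bij (fun x _ => (eX x : ℕ)) ?_ ?_ ?_
    · intro x hx
      rw [Finset.mem_filter] at hx ⊢
      refine ⟨Finset.mem_range.2 (eX x).2, ?_⟩
      have h2 := hx.2
      rw [Equiv.symm_apply_eq] at h2
      have h3 := congrArg Fin.val h2
      change (eX x : ℕ) % m = (eY y : ℕ) % m
      rw [Nat.mod_eq_of_lt (eY y).2]
      exact h3
    · intro x _ x' _ h
      exact eX.injective (Fin.ext h)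
    · intro k hk
      rw [Finset.mem_filter, Finset.mem_range] at hk
      refine ⟨eX.symm ⟨k, hk.1⟩, ?_, by simp⟩
      rw [Finset.mem_filter]
      refine ⟨Finset.mem_univ _, ?_⟩
      rw [Equiv.symm_apply_eq]
      apply Fin.ext
      have h4 : k % m = (eY y : ℕ) % m := hk.2
      rw [Nat.mod_eq_of_lt (eY y).2] at h4
      simpa using h4
  rw [h1, Nat.count_modEq_card _ hm0]
  constructor
  · exact Nat.le_add_right _ _
  · split_ifs
    · exact le_refl _
    · exact Nat.le_succ _

/-- A map with fibres of size at most `|X| / |Y| + 1`. -/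
theorem exists_balanced {X Y : Type} [Fintype X] [Fintype Y] [Nonempty Y] :
    ∃ f : X → Y, ∀ y, (Finset.univ.filter (fun x => f x = y)).card ≤
      Fintype.card X / Fintype.card Y + 1 := by
  obtain ⟨f, hf⟩ := exists_bal (X := X) (Y := Y)
  exact ⟨f, fun y => (hf y).2⟩

/-- A map with fibres of size at least `|X| / |Y|`. -/
theorem exists_balanced' {X Y : Type} [Fintype X] [Fintype Y] [Nonempty Y] :
    ∃ f : X → Y, ∀ y, Fintype.card X / Fintype.card Y ≤
      (Finset.univ.filter (fun x => f x = y)).card := by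
  obtain ⟨f, hf⟩ := exists_bal (X := X) (Y := Y)
  exact ⟨f, fun y => (hf y).1⟩

end Pool.Agent.H21.HD

end

section

/-!
Renaming variables.
-/

namespace Pool.Agent.H21.HD

open MvPolynomial
open scoped Classical

/-- Independence does not depend on the names of the variables. -/
theorem indep_transport {σ τ P : Type} [Fintype σ] [Fintype τ] [Fintype P] (E : σ ≃ τ) (d : ℕ)
    (w : P → σ → ℂ) (e : P → ℕ) (h : Indep d w e) :
    Indep d (fun p t => w p (E.symm t)) e := by
  intro g hg hsum p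
  have hlin : ∀ p, rename E.symm (lin (fun t => w p (E.symm t))) = lin (w p) := by
    intro p
    unfold lin
    rw [map_sum]
    simp only [map_mul, rename_C, rename_X]
    exact Equiv.sum_comp E.symm (fun s => C (w p s) * X s)
  have h1 := h (fun p => rename E.symm (g p))
    (fun p => (hg p).rename_isHomogeneous) (by
      have h2 := congrArg (rename E.symm) hsum
      rw [map_sum, map_zero] at h2
      rw [← h2]
      refine Finset.sum_congr rfl fun p _ => ?_
      rw [map_mul, map_pow, hlin]) p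
  have h3 : Function.Injective (rename E.symm : MvPolynomial τ ℂ → MvPolynomial σ ℂ) :=
    rename_injective _ E.symm.injective
  apply h3
  rw [map_zero]
  exact h1

end Pool.Agent.H21.HD

end

section

/-!
One-variable lemmas.
-/

namespace Pool.Agent.H21.HD

namespace OneVarX

open Polynomial in
theorem coeff_zero_of {S : Type} [CommRing S] [IsDomain S] (x : S) (hx : x ≠ 0) (E : ℕ)
    (M : Polynomial S) (r : ℕ)
    (h : ∀ t, t < r → ((Polynomial.X + Polynomial.C x) ^ E * M).coeff t = 0) :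
    (∀ t, t < r → M.coeff t = 0) ∧
      ((Polynomial.X + Polynomial.C x) ^ E * M).coeff r = x ^ E * M.coeff r := by
  have key : ∀ t, (∀ s, s < t → M.coeff s = 0) →
      ((Polynomial.X + Polynomial.C x) ^ E * M).coeff t = x ^ E * M.coeff t := by
    intro t ht
    rw [Polynomial.coeff_mul, Finset.sum_eq_single (0, t)]
    · congr 1
      rw [Polynomial.coeff_zero_eq_eval_zero]
      simp
    · rintro ⟨i, j⟩ hij hne
      rw [Finset.HasAntidiagonal.mem_antidiagonal] at hij
      simp only at hij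
      have hj : j < t := by
        rcases Nat.eq_zero_or_pos i with hi | hi
        · exfalso
          apply hne
          subst hi
          simp only [zero_add] at hij
          rw [hij]
        · omega
      simp only [ht j hj, mul_zero]
    · intro hn
      exfalso
      apply hn
      rw [Finset.HasAntidiagonal.mem_antidiagonal]
      simp
  have h1 : ∀ t, t < r → M.coeff t = 0 := by
    intro t
    induction t using Nat.strong_induction_on with
    | _ t ih =>
      intro htr
      have h2 := key t (fun s hs => ih s hs (by omega))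
      rw [h t htr] at h2
      have h3 : x ^ E ≠ 0 := pow_ne_zero _ hx
      rcases mul_eq_zero.1 h2.symm with h4 | h4
      · exact absurd h4 h3
      · exact h4
  exact ⟨h1, key r h1⟩

end OneVarX

/-- If `(x + T)^E` divides `Q` and the coefficients below `r` of `Q` vanish then `x^E` divides
the coefficient `r`. -/
theorem one_var' {S : Type} [CommRing S] [IsDomain S] (x : S) (hx : x ≠ 0) (E : ℕ)
    (Q : Polynomial S) (hQ : (Polynomial.X + Polynomial.C x) ^ E ∣ Q) (r : ℕ)
    (h : ∀ t, t < r → Q.coeff t = 0) : x ^ E ∣ Q.coeff r := by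
  obtain ⟨M, rfl⟩ := hQ
  rw [(OneVarX.coeff_zero_of x hx E M r h).2]
  exact dvd_mul_right _ _

/-- The one-variable lemma: if `(x + T)^E` divides `Q` and the coefficients `1, …, r - 1` of `Q`
vanish then `x^(E-1)` divides the coefficient `r`. -/
theorem one_var {S : Type} [CommRing S] [IsDomain S] [Algebra ℚ S] (x : S) (hx : x ≠ 0) (E : ℕ)
    (Q : Polynomial S) (hQ : (Polynomial.X + Polynomial.C x) ^ E ∣ Q) (r : ℕ) (hr : 1 ≤ r)
    (h : ∀ t, 1 ≤ t → t < r → Q.coeff t = 0) : x ^ (E - 1) ∣ Q.coeff r := by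
  have h1 := Polynomial.pow_sub_one_dvd_derivative_of_pow_dvd hQ
  have h2 := one_var' x hx (E - 1) _ h1 (r - 1) (by
    intro t ht
    rw [Polynomial.coeff_derivative, h (t + 1) (by omega) (by omega), zero_mul])
  rw [Polynomial.coeff_derivative] at h2
  have h3 : r - 1 + 1 = r := by omega
  rw [h3] at h2
  have h4 : ((r - 1 : ℕ) : S) + 1 = algebraMap ℚ S (r : ℚ) := by
    rw [map_natCast]
    have h5 : ((r - 1 : ℕ) : S) + 1 = ((r - 1 + 1 : ℕ) : S) := by push_cast; ring
    rw [h5, h3]
  rw [h4] at h2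
  have h5 : IsUnit (algebraMap ℚ S (r : ℚ)) := by
    apply IsUnit.map
    apply IsUnit.mk0
    exact_mod_cast (by omega : r ≠ 0)
  exact (h5.dvd_mul_right).1 h2

end Pool.Agent.H21.HD

end

section

/-!
Facts on phi.
-/

namespace Pool.Agent.H21.HD

open scoped Classical

namespace PhiNumX

theorem phi_zero (κ : ℕ → ℝ) : phi κ 0 = 1 := by
  rw [phi]

theorem phi_succ (κ : ℕ → ℝ) (j : ℕ) : phi κ (j + 1) =
    phi κ j - ∑ e ∈ Finset.range (j + 1), κ (e + 1) * (j.choose e : ℝ) * phi κ (j - e) := by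
  rw [phi, Finset.sum_range]

theorem phi_congr (d : ℕ) (κ κ' : ℕ → ℝ) (h : ∀ i, 1 ≤ i → i ≤ d → κ i = κ' i) :
    ∀ j ≤ d, phi κ j = phi κ' j := by
  intro j
  induction j using Nat.strong_induction_on with
  | _ j ih =>
    intro hj
    cases j with
    | zero => rw [phi_zero, phi_zero]
    | succ j =>
      rw [phi_succ, phi_succ, ih j (by omega) (by omega)]
      congr 1
      refine Finset.sum_congr rfl fun e he => ?_
      have he' := Finset.mem_range.1 he
      rw [h (e + 1) (by omega) (by omega), ih (j - e) (by omega) (by omega)]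

/-- With nonnegative loads and positive values, `phi` decreases. -/
theorem phi_le_sub (d : ℕ) (κ : ℕ → ℝ) (h0 : ∀ i, 0 ≤ κ i) (hpos : ∀ j ≤ d, 0 < phi κ j) (j : ℕ)
    (hj : j ≤ d) : phi κ (j + 1) ≤ phi κ j - κ (j + 1) := by
  rw [phi_succ, Finset.sum_range_succ, Nat.choose_self, Nat.sub_self, phi_zero]
  have h1 : 0 ≤ ∑ e ∈ Finset.range j, κ (e + 1) * (j.choose e : ℝ) * phi κ (j - e) := by
    refine Finset.sum_nonneg fun e _ => ?_
    exact mul_nonneg (mul_nonneg (h0 _) (Nat.cast_nonneg _)) (hpos (j - e) (by omega)).le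
  push_cast
  linarith

theorem phi_le_one (d : ℕ) (κ : ℕ → ℝ) (h0 : ∀ i, 0 ≤ κ i) (hpos : ∀ j ≤ d, 0 < phi κ j) :
    ∀ j ≤ d, phi κ j ≤ 1 := by
  intro j
  induction j with
  | zero => intro _; rw [phi_zero]
  | succ j ih =>
    intro hj
    have h1 := phi_le_sub d κ h0 hpos j (by omega)
    have h2 := ih (by omega)
    have h3 := h0 (j + 1)
    linarith

end PhiNumX

open PhiNumX

/-- Monotonicity of `phi` inside the region. -/
theorem phi_anti (d : ℕ) (κ κ' : ℕ → ℝ) (h0 : ∀ i, 0 ≤ κ' i) (hle : ∀ i, κ' i ≤ κ i)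
    (hpos : ∀ j ≤ d, 0 < phi κ j) : ∀ j ≤ d, phi κ j ≤ phi κ' j := by
  have key : ∀ j, j ≤ d → 0 < phi κ' j ∧ ∀ i ≤ j, phi κ j * phi κ' i ≤ phi κ' j * phi κ i := by
    intro j
    induction j using Nat.strong_induction_on with
    | _ j ih =>
      intro hj
      cases j with
      | zero =>
        refine ⟨by rw [phi_zero]; norm_num, fun i hi => ?_⟩
        have : i = 0 := by omega
        subst this
        rw [phi_zero, phi_zero]
      | succ j =>
        obtain ⟨hp', hr⟩ := ih j (by omega) (by omega)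
        have hp := hpos j (by omega)
        have h1 : phi κ (j + 1) * phi κ' j ≤ phi κ' (j + 1) * phi κ j := by
          rw [phi_succ κ, phi_succ κ', sub_mul, sub_mul, Finset.sum_mul, Finset.sum_mul]
          have h2 : ∑ e ∈ Finset.range (j + 1), κ' (e + 1) * (j.choose e : ℝ) *
              phi κ' (j - e) * phi κ j ≤ ∑ e ∈ Finset.range (j + 1), κ (e + 1) *
              (j.choose e : ℝ) * phi κ (j - e) * phi κ' j := by
            refine Finset.sum_le_sum fun e _ => ?_
            have h3 := hr (j - e) (by omega)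
            have h4 := hpos (j - e) (by omega)
            have hc : (0 : ℝ) ≤ (j.choose e : ℝ) := Nat.cast_nonneg _
            calc κ' (e + 1) * (j.choose e : ℝ) * phi κ' (j - e) * phi κ j
                = κ' (e + 1) * (j.choose e : ℝ) * (phi κ j * phi κ' (j - e)) := by ring
              _ ≤ κ' (e + 1) * (j.choose e : ℝ) * (phi κ' j * phi κ (j - e)) :=
                mul_le_mul_of_nonneg_left h3 (mul_nonneg (h0 _) hc)
              _ = κ' (e + 1) * ((j.choose e : ℝ) * (phi κ' j * phi κ (j - e))) := by ring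
              _ ≤ κ (e + 1) * ((j.choose e : ℝ) * (phi κ' j * phi κ (j - e))) :=
                mul_le_mul_of_nonneg_right (hle _)
                  (mul_nonneg hc (mul_nonneg hp'.le h4.le))
              _ = κ (e + 1) * (j.choose e : ℝ) * phi κ (j - e) * phi κ' j := by ring
          linarith [mul_comm (phi κ j) (phi κ' j)]
        have hp1 := hpos (j + 1) hj
        have h5 : 0 < phi κ' (j + 1) * phi κ j := lt_of_lt_of_le (mul_pos hp1 hp') h1
        have h6 : 0 < phi κ' (j + 1) := by
          by_contra hcon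
          push Not at hcon
          have := mul_nonpos_of_nonpos_of_nonneg hcon hp.le
          linarith
        refine ⟨h6, fun i hi => ?_⟩
        rcases Nat.lt_or_ge j i with h7 | h7
        · have : i = j + 1 := by omega
          subst this
          rw [mul_comm]
        · have h8 := hr i h7
          have h9 : 0 < phi κ i := hpos i (by omega)
          have h10 : (phi κ (j + 1) * phi κ' i) * phi κ j ≤
              (phi κ' (j + 1) * phi κ i) * phi κ j := by
            calc (phi κ (j + 1) * phi κ' i) * phi κ j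
                = phi κ (j + 1) * (phi κ j * phi κ' i) := by ring
              _ ≤ phi κ (j + 1) * (phi κ' j * phi κ i) := mul_le_mul_of_nonneg_left h8 hp1.le
              _ = (phi κ (j + 1) * phi κ' j) * phi κ i := by ring
              _ ≤ (phi κ' (j + 1) * phi κ j) * phi κ i := mul_le_mul_of_nonneg_right h1 h9.le
              _ = (phi κ' (j + 1) * phi κ i) * phi κ j := by ring
          exact le_of_mul_le_mul_right h10 hp
  intro j hj
  have h := (key j hj).2 0 (Nat.zero_le j)
  rw [phi_zero, phi_zero, mul_one, mul_one] at h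
  exact h

/-- Lipschitz estimate for `phi`. -/
theorem phi_lipschitz (j : ℕ) (C : ℝ) : ∃ L : ℝ, 0 ≤ L ∧ ∀ κ κ' : ℕ → ℝ,
    (∀ i, 0 ≤ κ i ∧ κ i ≤ C) → (∀ i, 0 ≤ κ' i ∧ κ' i ≤ C) → ∀ δ : ℝ,
    (∀ i, |κ i - κ' i| ≤ δ) → |phi κ j - phi κ' j| ≤ L * δ := by
  have key : ∀ j : ℕ, ∃ L : ℝ, 0 ≤ L ∧ ∀ i ≤ j, ∀ κ κ' : ℕ → ℝ,
      (∀ i, 0 ≤ κ i ∧ κ i ≤ C) → (∀ i, 0 ≤ κ' i ∧ κ' i ≤ C) →
      |phi κ i| ≤ L ∧ ∀ δ : ℝ, (∀ i, |κ i - κ' i| ≤ δ) → |phi κ i - phi κ' i| ≤ L * δ := by
    intro j
    induction j with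
    | zero =>
      refine ⟨1, zero_le_one, fun i hi κ κ' _ _ => ?_⟩
      have : i = 0 := by omega
      subst this
      refine ⟨by rw [phi_zero, abs_one], fun δ hδ => ?_⟩
      rw [phi_zero, phi_zero, sub_self, abs_zero, one_mul]
      exact le_trans (abs_nonneg _) (hδ 0)
    | succ j ih =>
      obtain ⟨L, hL0, hL⟩ := ih
      refine ⟨L + ∑ e ∈ Finset.range (j + 1), (|C| * (j.choose e : ℝ) * L +
        (j.choose e : ℝ) * L), ?_, ?_⟩
      · refine add_nonneg hL0 (Finset.sum_nonneg fun e _ => ?_)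
        positivity
      · intro i hi κ κ' hκ hκ'
        have hS : 0 ≤ ∑ e ∈ Finset.range (j + 1), (|C| * (j.choose e : ℝ) * L +
            (j.choose e : ℝ) * L) := Finset.sum_nonneg fun e _ => by positivity
        rcases Nat.lt_or_ge j i with hji | hji
        · have : i = j + 1 := by omega
          subst this
          have hC : ∀ i, |κ i| ≤ |C| := by
            intro i
            rw [abs_of_nonneg (hκ i).1]
            exact le_trans (hκ i).2 (le_abs_self C)
          refine ⟨?_, fun δ hδ => ?_⟩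
          · rw [phi_succ]
            refine le_trans (abs_sub _ _) (add_le_add ((hL j le_rfl κ κ' hκ hκ').1) ?_)
            refine le_trans (Finset.abs_sum_le_sum_abs _ _) (Finset.sum_le_sum fun e _ => ?_)
            rw [abs_mul, abs_mul, Nat.abs_cast]
            have h1 := (hL (j - e) (by omega) κ κ' hκ hκ').1
            have h2 : |κ (e + 1)| * (j.choose e : ℝ) * |phi κ (j - e)| ≤
                |C| * (j.choose e : ℝ) * L :=
              mul_le_mul (mul_le_mul_of_nonneg_right (hC _) (Nat.cast_nonneg _)) h1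
                (abs_nonneg _) (by positivity)
            have h3 : 0 ≤ (j.choose e : ℝ) * L := by positivity
            linarith
          · have hδ0 : 0 ≤ δ := le_trans (abs_nonneg _) (hδ 0)
            rw [phi_succ, phi_succ, sub_sub_sub_comm, ← Finset.sum_sub_distrib, add_mul,
              Finset.sum_mul]
            refine le_trans (abs_sub _ _) (add_le_add ((hL j le_rfl κ κ' hκ hκ').2 δ hδ) ?_)
            refine le_trans (Finset.abs_sum_le_sum_abs _ _) (Finset.sum_le_sum fun e _ => ?_)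
            have h1 := (hL (j - e) (by omega) κ κ' hκ hκ').2 δ hδ
            have h2 := (hL (j - e) (by omega) κ' κ hκ' hκ).1
            have h3 : κ (e + 1) * (j.choose e : ℝ) * phi κ (j - e) -
                κ' (e + 1) * (j.choose e : ℝ) * phi κ' (j - e) =
                κ (e + 1) * (j.choose e : ℝ) * (phi κ (j - e) - phi κ' (j - e)) +
                (j.choose e : ℝ) * ((κ (e + 1) - κ' (e + 1)) * phi κ' (j - e)) := by ring
            rw [h3]
            refine le_trans (abs_add_le _ _) ?_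
            rw [abs_mul, abs_mul, abs_mul, abs_mul, Nat.abs_cast]
            have h4 : |κ (e + 1)| * (j.choose e : ℝ) * |phi κ (j - e) - phi κ' (j - e)| ≤
                |C| * (j.choose e : ℝ) * (L * δ) :=
              mul_le_mul (mul_le_mul_of_nonneg_right (hC _) (Nat.cast_nonneg _)) h1
                (abs_nonneg _) (by positivity)
            have h5 : (j.choose e : ℝ) * (|κ (e + 1) - κ' (e + 1)| * |phi κ' (j - e)|) ≤
                (j.choose e : ℝ) * (δ * L) :=
              mul_le_mul_of_nonneg_left (mul_le_mul (hδ _) h2 (abs_nonneg _) hδ0)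
                (Nat.cast_nonneg _)
            calc _ ≤ |C| * (j.choose e : ℝ) * (L * δ) + (j.choose e : ℝ) * (δ * L) :=
                  add_le_add h4 h5
              _ = (|C| * (j.choose e : ℝ) * L + (j.choose e : ℝ) * L) * δ := by ring
        · obtain ⟨h1, h2⟩ := hL i hji κ κ' hκ hκ'
          refine ⟨by linarith, fun δ hδ => ?_⟩
          have hδ0 : 0 ≤ δ := le_trans (abs_nonneg _) (hδ 0)
          have h3 := h2 δ hδ
          have h4 := mul_nonneg hS hδ0
          rw [add_mul]
          linarith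
  obtain ⟨L, hL0, hL⟩ := key j
  exact ⟨L, hL0, fun κ κ' hκ hκ' δ hδ => (hL j le_rfl κ κ' hκ hκ').2 δ hδ⟩

/-- Capping the loads at `1`. -/
theorem phi_cap (d : ℕ) (κ : ℕ → ℝ) (h0 : ∀ i, 0 ≤ κ i) (h : ∃ j ≤ d, phi κ j ≤ 0) :
    ∃ j ≤ d, phi (fun i => min (κ i) 1) j ≤ 0 := by
  by_contra hcon
  push Not at hcon
  have h0' : ∀ i, 0 ≤ (fun i => min (κ i) 1) i := fun i => le_min (h0 i) zero_le_one
  by_cases hall : ∀ i, 1 ≤ i → i ≤ d → κ i ≤ 1
  · obtain ⟨j, hj, hneg⟩ := h
    have h1 := phi_congr d κ (fun i => min (κ i) 1)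
      (fun i h1 h2 => (min_eq_left (hall i h1 h2)).symm) j hj
    have h2 := hcon j hj
    rw [← h1] at h2
    linarith
  · push Not at hall
    obtain ⟨i, hi1, hid, hi⟩ := hall
    obtain ⟨j, rfl⟩ := Nat.exists_eq_add_of_le' hi1
    have h1 := phi_le_sub d _ h0' hcon j (by omega)
    have h2 := phi_le_one d _ h0' hcon j (by omega)
    have h3 := hcon (j + 1) hid
    have h4 : min (κ (j + 1)) 1 = 1 := min_eq_right hi.le
    simp only [h4] at h1
    linarith

/-- A single exponent with load at least `1`. -/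
theorem phi_single (i : ℕ) (hi : 1 ≤ i) : phi (fun t => if t = i then 1 else 0) i = 0 := by
  have h1 : ∀ j, j < i → phi (fun t => if t = i then (1 : ℝ) else 0) j = 1 := by
    intro j
    induction j using Nat.strong_induction_on with
    | _ j ih =>
      intro hj
      cases j with
      | zero => rw [phi_zero]
      | succ j =>
        rw [phi_succ, ih j (by omega) (by omega), Finset.sum_eq_zero, sub_zero]
        intro e he
        have he' := Finset.mem_range.1 he
        rw [if_neg (by omega), zero_mul, zero_mul]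
  obtain ⟨j, rfl⟩ := Nat.exists_eq_add_of_le' hi
  rw [phi_succ, h1 j (by omega), Finset.sum_eq_single j]
  · rw [if_pos rfl, Nat.choose_self, Nat.sub_self, phi_zero]
    norm_num
  · intro e he hej
    have he' := Finset.mem_range.1 he
    rw [if_neg (by omega), zero_mul, zero_mul]
  · intro h
    exact absurd (Finset.mem_range.2 (by omega)) h

end Pool.Agent.H21.HD

end

section

/-!
Fewer variables, higher degree.
-/

namespace Pool.Agent.H21.HD

open MvPolynomial
open scoped Classical

/-- Passage to fewer variables. -/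
theorem span_restrict {σ τ R : Type} [Fintype σ] [Fintype τ] (f : τ → σ)
    (hf : Function.Injective f) (d : ℕ) (w : R → σ → ℂ) (e : R → ℕ)
    (h : homogeneousSubmodule σ ℂ d ≤ powSpan d w e) :
    homogeneousSubmodule τ ℂ d ≤ powSpan d (fun p t => w p (f t)) e := by
  let x : σ → MvPolynomial τ ℂ := fun s => ∑ t, if f t = s then X t else 0
  have hx : ∀ s, (x s).IsHomogeneous 1 := by
    intro s
    apply IsHomogeneous.sum
    intro t _
    split_ifs
    · exact isHomogeneous_X ℂ t
    · exact isHomogeneous_zero τ ℂ 1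
  have hxf : ∀ t, x (f t) = X t := by
    intro t
    change (∑ t', if f t' = f t then (X t' : MvPolynomial τ ℂ) else 0) = X t
    rw [Finset.sum_eq_single t]
    · rw [if_pos rfl]
    · intro b _ hb
      rw [if_neg (fun hh => hb (hf hh))]
    · intro hh
      exact absurd (Finset.mem_univ _) hh
  have hlin : ∀ v : σ → ℂ, aeval x (lin v) = lin fun t => v (f t) := by
    intro v
    unfold lin
    rw [map_sum]
    have h1 : ∀ s, aeval x (C (v s) * X s : MvPolynomial σ ℂ) =
        ∑ t, if f t = s then (C (v (f t)) * X t : MvPolynomial τ ℂ) else 0 := by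
      intro s
      rw [map_mul, aeval_C, aeval_X, algebraMap_eq]
      change C (v s) * (∑ t, if f t = s then (X t : MvPolynomial τ ℂ) else 0) = _
      rw [Finset.mul_sum]
      refine Finset.sum_congr rfl fun t _ => ?_
      split_ifs with hts
      · rw [hts]
      · rw [mul_zero]
    rw [Finset.sum_congr rfl fun s _ => h1 s, Finset.sum_comm]
    refine Finset.sum_congr rfl fun t _ => ?_
    rw [Finset.sum_ite_eq]
    rw [if_pos (Finset.mem_univ _)]
  have hmap : powSpan d w e ≤
      (powSpan d (fun p t => w p (f t)) e).comap (aeval x : MvPolynomial σ ℂ →ₐ[ℂ] _).toLinearMap := by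
    unfold powSpan
    rw [Submodule.span_le]
    rintro F ⟨p, g, hp, hg, rfl⟩
    refine Submodule.subset_span ⟨p, aeval x g, hp, ?_, ?_⟩
    · have := hg.aeval x hx
      rwa [one_mul] at this
    · rw [AlgHom.toLinearMap_apply, map_mul, map_pow, hlin]
  intro F hF
  have h1 : rename f F ∈ homogeneousSubmodule σ ℂ d := by
    rw [mem_homogeneousSubmodule]
    exact IsHomogeneous.rename_isHomogeneous hF
  have h2 := hmap (h h1)
  rw [Submodule.mem_comap, AlgHom.toLinearMap_apply, aeval_rename] at h2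
  have h3 : (x ∘ f) = X := funext hxf
  rw [h3, aeval_X_left, AlgHom.id_apply] at h2
  exact h2

/-- Spanning in degree `j` implies spanning in degree `d ≥ j`. -/
theorem powSpan_up {σ P : Type} [Fintype σ] (j d : ℕ) (hjd : j ≤ d) (w : P → σ → ℂ) (e : P → ℕ)
    (h : homogeneousSubmodule σ ℂ j ≤ powSpan j w e) :
    homogeneousSubmodule σ ℂ d ≤ powSpan d w e := by
  have h1 : homogeneousSubmodule σ ℂ d =
      homogeneousSubmodule σ ℂ (d - j) * homogeneousSubmodule σ ℂ j := by
    rw [← homogeneousSubmodule_one_pow (σ := σ) ℂ d, ← homogeneousSubmodule_one_pow (σ := σ) ℂ (d - j),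
      ← homogeneousSubmodule_one_pow (σ := σ) ℂ j, ← pow_add, Nat.sub_add_cancel hjd]
  rw [h1, Submodule.mul_le]
  intro G hG F hF
  have hF' := h hF
  have hmap : powSpan j w e ≤ (powSpan d w e).comap (LinearMap.mulLeft ℂ G) := by
    conv_lhs => unfold powSpan
    rw [Submodule.span_le]
    rintro K ⟨p, g, hp, hg, rfl⟩
    refine Submodule.subset_span ⟨p, G * g, hp.trans hjd, ?_, ?_⟩
    · have := IsHomogeneous.mul hG hg
      rwa [show d - j + (j - e p) = d - e p by omega] at this
    · rw [LinearMap.mulLeft_apply, mul_assoc]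
  exact hmap hF'

end Pool.Agent.H21.HD

end

section

/-!
# KZ4: trace and residual, with secant fillers

As `V7/Tr`, `V7/TrM` (`gd_tr`, `gM_tr`, `gd_A0_le`, `A1_Ex`, `sg_facts`), the block `j` = `0` resp. `1`
is made special.  Objects on `L_j`: trace of the same kind in `n - c` variables, residual `Kd.add j`.
`y` pairs of plain triple points are moved to `pr j I` (`q + q'` on `L_j`): the trace contains the double
point `q + q'` (`fat_add2`), `r` triples to `tr j ∅`: the trace contains the simple point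
`q + q' + q''` (`fat_add3`).
-/

set_option autoImplicit false
set_option linter.unusedSectionVars false
set_option linter.unusedVariables false

namespace Pool.Agent.KZ

open Finset MvPolynomial Pool.Agent.H51.TB

/-- Pull back of a general statement along a surjective polynomial substitution. -/
theorem gn_sub {κ κ' ν ν' : Type} (Φ : κ → ν → MvPolynomial (κ' × ν') ℂ)
    (hs : ∀ p : κ → ν → ℂ, ∃ p' : κ' → ν' → ℂ, ∀ i s, eval (fun x => p' x.1 x.2) (Φ i s) = p i s)
    {P : (κ → ν → ℂ) → Prop} (h : Gn κ ν P) :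
    Gn κ' ν' fun p' => P fun i s => eval (fun x => p' x.1 x.2) (Φ i s) := by
  obtain ⟨G, hG0, hG⟩ := h
  have hev : ∀ p' : κ' → ν' → ℂ, eval (fun x => p' x.1 x.2) (aeval (fun x => Φ x.1 x.2) G) =
      eval (fun x : κ × ν => eval (fun x => p' x.1 x.2) (Φ x.1 x.2)) G := by
    intro p'
    have h1 : eval (fun x => p' x.1 x.2) (aeval (fun x => Φ x.1 x.2) G) =
        ((aeval (fun x => p' x.1 x.2) : MvPolynomial (κ' × ν') ℂ →ₐ[ℂ] ℂ).comp
          (aeval fun x : κ × ν => Φ x.1 x.2)) G := by
      rw [AlgHom.comp_apply, aeval_eq_eval]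
    rw [h1, comp_aeval, aeval_eq_eval]
    rfl
  refine ⟨aeval (fun x => Φ x.1 x.2) G, ?_, ?_⟩
  · intro h0
    obtain ⟨a, ha⟩ : ∃ a : κ × ν → ℂ, eval a G ≠ 0 := by
      by_contra hcon
      push Not at hcon
      exact hG0 (MvPolynomial.funext fun a => by rw [hcon a, map_zero])
    obtain ⟨p', hp'⟩ := hs fun i s => a (i, s)
    have h1 := hev p'
    rw [h0, map_zero] at h1
    have h2 : (fun x : κ × ν => eval (fun x => p' x.1 x.2) (Φ x.1 x.2)) = a := by
      funext x
      exact hp' x.1 x.2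
    rw [h2] at h1
    exact ha h1.symm
  · intro p' hp'
    apply hG
    rw [hev] at hp'
    exact hp'

section

variable {ν : Type} [Fintype ν] [DecidableEq ν]

end

section

variable {ν ν' : Type} [Fintype ν] [DecidableEq ν] [Fintype ν'] [DecidableEq ν']

end

end Pool.Agent.KZ

end
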