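import Pool.Agent.H94.LP7.M02
import Pool.Agent.H94.LP7.M03
import Pool.Agent.H94.LP7.M06

/-! The parts of this file: H21.HD.SpanCols, H54.V7.DH_3, H54.V7.Eul_1, V7.Tr. -/

section

/-!
Spanning from the squarefree columns.
-/

namespace Pool.Agent.H21.HD

open MvPolynomial
open scoped Classical

namespace SpanColsX

variable {N : ℕ} {A : Type} [Fintype A]

/-- The linear form in the block `i`. -/
noncomputable def blk (v : Fin N → A → ℂ) (i : Fin N) : MvPolynomial (Fin N × A) ℂ :=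
  ∑ a, C (v i a) * X (i, a)

lemma blk_homog (v : Fin N → A → ℂ) (i : Fin N) : (blk v i).IsHomogeneous 1 := by
  unfold blk
  apply IsHomogeneous.sum
  intro a _
  have h1 : (C (v i a) : MvPolynomial (Fin N × A) ℂ).IsHomogeneous 0 := isHomogeneous_C _ _
  have h2 : (X (i, a) : MvPolynomial (Fin N × A) ℂ).IsHomogeneous 1 := isHomogeneous_X _ _
  simpa using h1.mul h2

lemma lin_vecB (c : Finset (Fin N)) (v : Fin N → A → ℂ) :
    lin (vecB c v) = ∑ i ∈ c, blk v i := by
  unfold lin vecB blk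
  rw [Fintype.sum_prod_type]
  rw [← Finset.sum_filter_add_sum_filter_not Finset.univ (fun i => i ∈ c)]
  have h0 : ∑ x ∈ Finset.univ.filter (fun i : Fin N => ¬ i ∈ c), ∑ y : A,
      (C (if (x, y).1 ∈ c then v (x, y).1 (x, y).2 else 0) * X (x, y) :
        MvPolynomial (Fin N × A) ℂ) = 0 := by
    apply Finset.sum_eq_zero
    intro i hi
    rw [Finset.mem_filter] at hi
    apply Finset.sum_eq_zero
    intro a _
    simp [hi.2]
  rw [h0, add_zero]
  have h1 : Finset.univ.filter (fun i : Fin N => i ∈ c) = c := by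
    ext i; simp
  rw [h1]
  apply Finset.sum_congr rfl
  intro i hi
  apply Finset.sum_congr rfl
  intro a _
  simp [hi]

lemma bdegB_add (γ δ : Fin N × A →₀ ℕ) (i : Fin N) :
    bdegB (γ + δ) i = bdegB γ i + bdegB δ i := by
  unfold bdegB
  rw [← Finset.sum_add_distrib]
  rfl

lemma bdegB_single (i : Fin N) (a : A) (j : Fin N) :
    bdegB (Finsupp.single (i, a) 1) j = if i = j then 1 else 0 := by
  unfold bdegB
  by_cases h : i = j
  · subst h
    rw [if_pos rfl]
    rw [Finset.sum_eq_single a]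
    · simp
    · intro b _ hb
      rw [Finsupp.single_apply, if_neg]
      intro h
      exact hb (Prod.ext_iff.1 h).2.symm
    · intro h
      exact absurd (Finset.mem_univ a) h
  · rw [if_neg h]
    apply Finset.sum_eq_zero
    intro b _
    rw [Finsupp.single_apply, if_neg]
    intro h'
    exact h (Prod.ext_iff.1 h').1

/-- Twice a variable of a block. -/
lemma sq_mem {M : Submodule ℂ (MvPolynomial (Fin N × A) ℂ)} {d : ℕ}
    (hns : ∀ γ : Fin N × A →₀ ℕ, γ.degree = d → (∃ i, 2 ≤ bdegB γ i) →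
      monomial γ (1 : ℂ) ∈ M) (d' : ℕ) (hd : d' + 2 = d)
    (G : MvPolynomial (Fin N × A) ℂ) (hG : G.IsHomogeneous d') (i : Fin N) (a b : A) :
    X (i, a) * X (i, b) * G ∈ M := by
  rw [G.as_sum, Finset.mul_sum]
  apply Submodule.sum_mem
  intro δ hδ
  have hdeg : δ.degree = d' := by
    have := hG (mem_support_iff.1 hδ)
    rw [← this, Finsupp.degree_eq_weight_one]
    rfl
  have h1 : (X (i, a) * X (i, b) * monomial δ (coeff δ G) : MvPolynomial (Fin N × A) ℂ)
      = (coeff δ G) • monomial (Finsupp.single (i, a) 1 + Finsupp.single (i, b) 1 + δ) (1 : ℂ) := by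
    rw [smul_monomial, X, X, monomial_mul, monomial_mul]
    simp
  rw [h1]
  apply Submodule.smul_mem
  apply hns
  · simp [hdeg]
    omega
  · refine ⟨i, ?_⟩
    rw [bdegB_add, bdegB_add, bdegB_single, bdegB_single]
    simp

lemma blk_sq_mem {M : Submodule ℂ (MvPolynomial (Fin N × A) ℂ)} {d : ℕ}
    (hns : ∀ γ : Fin N × A →₀ ℕ, γ.degree = d → (∃ i, 2 ≤ bdegB γ i) →
      monomial γ (1 : ℂ) ∈ M) (v : Fin N → A → ℂ) (d' : ℕ) (hd : d' + 2 = d)
    (G : MvPolynomial (Fin N × A) ℂ) (hG : G.IsHomogeneous d') (i : Fin N) :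
    blk v i ^ 2 * G ∈ M := by
  have h1 : blk v i ^ 2 * G = ∑ a, ∑ b, (v i a * v i b) • (X (i, a) * X (i, b) * G) := by
    rw [pow_two]
    unfold blk
    rw [Finset.sum_mul_sum, Finset.sum_mul]
    apply Finset.sum_congr rfl
    intro a _
    rw [Finset.sum_mul]
    apply Finset.sum_congr rfl
    intro b _
    rw [smul_eq_C_mul, C_mul]
    ring
  rw [h1]
  apply Submodule.sum_mem
  intro a _
  apply Submodule.sum_mem
  intro b _
  exact Submodule.smul_mem _ _ (sq_mem hns d' hd G hG i a b)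

/-- The product of the block forms times a multiplier. -/
lemma prod_mem {R : Type} {d : ℕ} {w : R → Fin N × A → ℂ} {e : R → ℕ}
    (hns : ∀ γ : Fin N × A →₀ ℕ, γ.degree = d → (∃ i, 2 ≤ bdegB γ i) →
      monomial γ (1 : ℂ) ∈ powSpan d w e) (v : Fin N → A → ℂ) (c : Finset (Fin N))
    (hc : c.card ≤ d) (p : R) (hw : w p = vecB c v) (he : e p = c.card)
    (g : MvPolynomial (Fin N × A) ℂ) (hg : g.IsHomogeneous (d - c.card)) :
    g * ∏ i ∈ c, blk v i ∈ powSpan d w e := by
  have h1 : g * lin (w p) ^ e p ∈ powSpan d w e := by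
    apply Submodule.subset_span
    exact ⟨p, g, by rw [he]; exact hc, by rw [he]; exact hg, rfl⟩
  rw [hw, he, lin_vecB, Finset.sum_pow_eq_sum_piAntidiag, Finset.mul_sum] at h1
  -- the indicator of `c`
  set k0 : Fin N → ℕ := fun i => if i ∈ c then 1 else 0 with hk0
  have hk0mem : k0 ∈ Finset.piAntidiag c c.card := by
    rw [Finset.mem_piAntidiag]
    refine ⟨?_, ?_⟩
    · rw [hk0]
      simp
    · intro i hi
      by_contra hcon
      apply hi
      simp [hk0, hcon]
  rw [← Finset.add_sum_erase _ _ hk0mem] at h1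
  have h2 : ∑ k ∈ (Finset.piAntidiag c c.card).erase k0,
      g * (((Nat.multinomial c k : ℕ) : MvPolynomial (Fin N × A) ℂ) * ∏ i ∈ c, blk v i ^ k i)
      ∈ powSpan d w e := by
    apply Submodule.sum_mem
    intro k hk
    rw [Finset.mem_erase, Finset.mem_piAntidiag] at hk
    obtain ⟨hne, hsum, hsupp⟩ := hk
    -- some exponent is at least two
    have h3 : ∃ i ∈ c, 2 ≤ k i := by
      by_contra hcon
      push Not at hcon
      apply hne
      have h4 : ∀ i ∈ c, k i = 1 := by
        have h5 : ∑ i ∈ c, k i = ∑ i ∈ c, 1 := by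
          rw [hsum]; simp
        have h6 : ∀ i ∈ c, k i ≤ 1 := fun i hi => by
          have := hcon i hi
          omega
        exact (Finset.sum_eq_sum_iff_of_le h6).1 h5
      funext i
      by_cases hi : i ∈ c
      · rw [h4 i hi, hk0]
        simp [hi]
      · have : k i = 0 := by
          by_contra h
          exact hi (hsupp i h)
        rw [this, hk0]
        simp [hi]
    obtain ⟨i0, hi0, h2i⟩ := h3
    have hsum' : k i0 + ∑ i ∈ c.erase i0, k i = c.card := by
      rw [Finset.add_sum_erase _ _ hi0, hsum]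
    have h7 : g * (((Nat.multinomial c k : ℕ) : MvPolynomial (Fin N × A) ℂ) *
        ∏ i ∈ c, blk v i ^ k i)
        = ((Nat.multinomial c k : ℕ) : ℂ) • (blk v i0 ^ 2 * (g * (blk v i0 ^ (k i0 - 2) *
          ∏ i ∈ c.erase i0, blk v i ^ k i))) := by
      rw [← Finset.mul_prod_erase _ _ hi0, smul_eq_C_mul]
      have h8 : blk v i0 ^ k i0 = blk v i0 ^ 2 * blk v i0 ^ (k i0 - 2) := by
        rw [← pow_add]
        congr 1
        omega
      rw [h8, map_natCast]
      ring
    rw [h7]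
    apply Submodule.smul_mem
    apply blk_sq_mem hns v (d - 2)
    · have : k i0 ≤ c.card := by omega
      omega
    · have h9 : (blk v i0 ^ (k i0 - 2)).IsHomogeneous (1 * (k i0 - 2)) :=
        (blk_homog v i0).pow _
      have h10 : (∏ i ∈ c.erase i0, blk v i ^ k i).IsHomogeneous
          (∑ i ∈ c.erase i0, 1 * k i) := by
        apply IsHomogeneous.prod
        intro i _
        exact (blk_homog v i).pow _
      have h11 := hg.mul (h9.mul h10)
      have h12 : d - c.card + (1 * (k i0 - 2) + ∑ i ∈ c.erase i0, 1 * k i) = d - 2 := by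
        simp only [one_mul]
        omega
      rw [h12] at h11
      exact h11
  have h3 : g * (((Nat.multinomial c k0 : ℕ) : MvPolynomial (Fin N × A) ℂ) *
      ∏ i ∈ c, blk v i ^ k0 i) ∈ powSpan d w e := by
    have := Submodule.sub_mem _ h1 h2
    simpa using this
  have h4 : ∏ i ∈ c, blk v i ^ k0 i = ∏ i ∈ c, blk v i := by
    apply Finset.prod_congr rfl
    intro i hi
    simp [hk0, hi]
  have h5 : (Nat.multinomial c k0 : ℂ) ≠ 0 := by
    exact_mod_cast (Nat.multinomial_pos c k0).ne'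
  rw [h4] at h3
  have h6 : g * ∏ i ∈ c, blk v i = (Nat.multinomial c k0 : ℂ)⁻¹ •
      (g * (((Nat.multinomial c k0 : ℕ) : MvPolynomial (Fin N × A) ℂ) * ∏ i ∈ c, blk v i)) := by
    rw [smul_eq_C_mul]
    have h7 : (C ((Nat.multinomial c k0 : ℂ)⁻¹) : MvPolynomial (Fin N × A) ℂ) *
        ((Nat.multinomial c k0 : ℕ) : MvPolynomial (Fin N × A) ℂ) = 1 := by
      rw [← map_natCast (C : ℂ →+* MvPolynomial (Fin N × A) ℂ), ← C_mul, inv_mul_cancel₀ h5, C_1]
    calc g * ∏ i ∈ c, blk v i = 1 * (g * ∏ i ∈ c, blk v i) := by rw [one_mul]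
      _ = _ := by rw [← h7]; ring
  rw [h6]
  exact Submodule.smul_mem _ _ h3

/-- The squarefree monomial. -/
noncomputable def mon (J : Finset (Fin N)) (y : Fin N → A) : MvPolynomial (Fin N × A) ℂ :=
  ∏ i ∈ J, X (i, y i)

omit [Fintype A] in
lemma mon_homog (J : Finset (Fin N)) (y : Fin N → A) : (mon J y).IsHomogeneous J.card := by
  unfold mon
  have := IsHomogeneous.prod J (fun i => (X (i, y i) : MvPolynomial (Fin N × A) ℂ)) (fun _ => 1)
    (fun i _ => isHomogeneous_X _ _)
  simpa using this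

/-- The exchange of coordinates. -/
noncomputable def exch (c : Finset (Fin N)) :
    ((Fin N → A) × (Fin N → A)) ≃ ((Fin N → A) × (Fin N → A)) where
  toFun q := (c.piecewise q.2 q.1, c.piecewise q.1 q.2)
  invFun q := (c.piecewise q.2 q.1, c.piecewise q.1 q.2)
  left_inv q := by
    apply Prod.ext
    · funext i
      by_cases hi : i ∈ c <;> simp [Finset.piecewise, hi]
    · funext i
      by_cases hi : i ∈ c <;> simp [Finset.piecewise, hi]
  right_inv q := by
    apply Prod.ext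
    · funext i
      by_cases hi : i ∈ c <;> simp [Finset.piecewise, hi]
    · funext i
      by_cases hi : i ∈ c <;> simp [Finset.piecewise, hi]

lemma sum_exch (c : Finset (Fin N)) (F : (Fin N → A) → MvPolynomial (Fin N × A) ℂ) :
    ((Fintype.card (Fin N → A) : ℕ) : ℂ) • ∑ y, F y = ∑ y, ∑ z, F (c.piecewise z y) := by
  have h1 : ∑ y : Fin N → A, ∑ z : Fin N → A, F (c.piecewise z y)
      = ∑ q : (Fin N → A) × (Fin N → A), F (exch c q).1 := by
    rw [Fintype.sum_prod_type]
    rfl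
  rw [h1, Equiv.sum_comp (exch c) (fun q => F q.1), Fintype.sum_prod_type]
  simp only [Finset.sum_const, Finset.card_univ, Finset.smul_sum]
  apply Finset.sum_congr rfl
  intro y _
  rw [smul_eq_C_mul, nsmul_eq_mul]
  simp

lemma sum_prod_blk (c : Finset (Fin N)) (v : Fin N → A → ℂ) :
    ∃ t : ℂ, ∑ z : Fin N → A, ∏ i ∈ c, (C (v i (z i)) * X (i, z i) : MvPolynomial (Fin N × A) ℂ)
      = t • ∏ i ∈ c, blk v i := by
  have h1 : ∀ z : Fin N → A, ∏ i ∈ c, (C (v i (z i)) * X (i, z i) : MvPolynomial (Fin N × A) ℂ)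
      = ∏ i, (if i ∈ c then C (v i (z i)) * X (i, z i) else 1) := by
    intro z
    rw [Finset.prod_ite_mem, Finset.univ_inter]
  simp only [h1]
  have h2 := Finset.prod_univ_sum (fun _ : Fin N => (Finset.univ : Finset A))
    (fun i a => (if i ∈ c then C (v i a) * X (i, a) else 1 : MvPolynomial (Fin N × A) ℂ))
  rw [Fintype.piFinset_univ] at h2
  rw [← h2]
  have h3 : ∀ i : Fin N, ∑ a : A, (if i ∈ c then C (v i a) * X (i, a) else 1 :
      MvPolynomial (Fin N × A) ℂ) = (if i ∈ c then blk v i else 1) *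
        (if i ∈ c then 1 else C ((Fintype.card A : ℕ) : ℂ)) := by
    intro i
    by_cases hi : i ∈ c
    · simp [hi, blk]
    · simp [hi]
  simp only [h3]
  rw [Finset.prod_mul_distrib]
  have h4 : ∏ i : Fin N, (if i ∈ c then blk v i else 1) = ∏ i ∈ c, blk v i := by
    rw [Finset.prod_ite_mem, Finset.univ_inter]
  rw [h4]
  refine ⟨∏ i : Fin N, (if i ∈ c then 1 else ((Fintype.card A : ℕ) : ℂ)), ?_⟩
  rw [smul_eq_C_mul, map_prod, mul_comm]
  congr 1
  apply Finset.prod_congr rfl
  intro i _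
  by_cases hi : i ∈ c <;> simp [hi]

omit [Fintype A] in
lemma mon_piecewise {c J : Finset (Fin N)} (hc : c ⊆ J) (y z : Fin N → A) :
    mon J (c.piecewise z y) = (∏ i ∈ c, X (i, z i)) * mon (J \ c) y := by
  unfold mon
  rw [← Finset.prod_sdiff hc, mul_comm]
  congr 1
  · apply Finset.prod_congr rfl
    intro i hi
    simp [Finset.piecewise, hi]
  · apply Finset.prod_congr rfl
    intro i hi
    have : i ∉ c := (Finset.mem_sdiff.1 hi).2
    simp [Finset.piecewise, this]

/-- The exponent vector of a squarefree monomial. -/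
lemma exists_y [Nonempty A] {d : ℕ} (γ : Fin N × A →₀ ℕ) (hd : γ.degree = d)
    (h : ∀ i, bdegB γ i < 2) :
    ∃ J : Finset (Fin N), J.card = d ∧ ∃ y : Fin N → A, monomial γ (1 : ℂ) = mon J y := by
  set J : Finset (Fin N) := Finset.univ.filter (fun i => bdegB γ i = 1) with hJ
  have h01 : ∀ i, bdegB γ i = if i ∈ J then 1 else 0 := by
    intro i
    have := h i
    by_cases hi : bdegB γ i = 1
    · simp [hJ, hi]
    · simp only [hJ, Finset.mem_filter, Finset.mem_univ, true_and, hi, if_false]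
      omega
  have hex : ∀ i, ∃ a, i ∈ J → ∀ b, γ (i, b) = if b = a then 1 else 0 := by
    intro i
    by_cases hi : i ∈ J
    · have h1 : ∑ a, γ (i, a) = 1 := by
        have := h01 i
        rw [if_pos hi] at this
        exact this
      have h2 : ∃ a, γ (i, a) ≠ 0 := by
        by_contra hcon
        push Not at hcon
        rw [Finset.sum_eq_zero (fun a _ => hcon a)] at h1
        exact absurd h1 (by norm_num)
      obtain ⟨a, ha⟩ := h2
      refine ⟨a, fun _ b => ?_⟩
      have h3 : γ (i, a) + ∑ b ∈ Finset.univ.erase a, γ (i, b) = 1 := by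
        rw [Finset.add_sum_erase Finset.univ (fun b => γ (i, b)) (Finset.mem_univ a), h1]
      by_cases hb : b = a
      · subst hb
        rw [if_pos rfl]
        omega
      · rw [if_neg hb]
        have h4 : γ (i, b) ≤ ∑ b ∈ Finset.univ.erase a, γ (i, b) :=
          Finset.single_le_sum (f := fun b => γ (i, b)) (fun _ _ => Nat.zero_le _)
            (Finset.mem_erase.2 ⟨hb, Finset.mem_univ b⟩)
        omega
    · exact ⟨Classical.arbitrary A, fun h => absurd h hi⟩
  choose y hy using hex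
  have hγ : γ = ∑ i ∈ J, Finsupp.single (i, y i) 1 := by
    ext ⟨i, a⟩
    rw [Finsupp.finsetSum_apply]
    by_cases hi : i ∈ J
    · rw [hy i hi a, Finset.sum_eq_single i]
      · rw [Finsupp.single_apply]
        by_cases ha : a = y i
        · simp [ha]
        · rw [if_neg ha, if_neg]
          intro h
          exact ha (Prod.ext_iff.1 h).2.symm
      · intro j _ hj
        rw [Finsupp.single_apply, if_neg]
        intro h
        exact hj (Prod.ext_iff.1 h).1
      · intro h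
        exact absurd hi h
    · have h1 : ∑ a, γ (i, a) = 0 := by
        have := h01 i
        rw [if_neg hi] at this
        exact this
      have h2 : γ (i, a) = 0 := by
        have h3 : γ (i, a) ≤ ∑ a, γ (i, a) :=
          Finset.single_le_sum (f := fun b => γ (i, b)) (fun _ _ => Nat.zero_le _)
            (Finset.mem_univ a)
        omega
      rw [h2]
      symm
      apply Finset.sum_eq_zero
      intro j hj
      rw [Finsupp.single_apply, if_neg]
      intro h
      have : j = i := (Prod.ext_iff.1 h).1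
      exact hi (this ▸ hj)
  refine ⟨J, ?_, y, ?_⟩
  · rw [← hd, hγ, map_sum]
    simp
  · rw [hγ]
    unfold mon
    rw [monomial_sum_one]
    rfl

end SpanColsX

open SpanColsX in
/-- Spanning from the squarefree columns: every monomial of degree `d` that is not squarefree in
the blocks lies in `M`, and the squarefree columns are spanned by products. -/
theorem span_of_columns {N : ℕ} {A R α : Type} [Fintype A] [Nonempty A] (d : ℕ)
    (w : R → Fin N × A → ℂ) (e : R → ℕ)
    (hns : ∀ γ : Fin N × A →₀ ℕ, γ.degree = d → (∃ i, 2 ≤ bdegB γ i) →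
      monomial γ (1 : ℂ) ∈ powSpan d w e)
    (c : α → Finset (Fin N)) (v : α → Fin N → A → ℂ) (emb : α → R)
    (hemb : ∀ p, w (emb p) = vecB (c p) (v p) ∧ e (emb p) = (c p).card)
    (hcol : ∀ J : Finset (Fin N), J.card = d → ∃ P : Finset α, (∀ p ∈ P, c p ⊆ J) ∧
      SpanGood J P c v) :
    homogeneousSubmodule (Fin N × A) ℂ d ≤ powSpan d w e := by
  intro F hF
  rw [mem_homogeneousSubmodule] at hF
  rw [F.as_sum]
  apply Submodule.sum_mem
  intro γ hγ
  have hdeg : γ.degree = d := by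
    have := hF (mem_support_iff.1 hγ)
    rw [← this, Finsupp.degree_eq_weight_one]
    rfl
  have h1 : monomial γ (coeff γ F) = (coeff γ F) • monomial γ (1 : ℂ) := by
    rw [smul_monomial]; simp
  rw [h1]
  apply Submodule.smul_mem
  by_cases hsq : ∃ i, 2 ≤ bdegB γ i
  · exact hns γ hdeg hsq
  push Not at hsq
  obtain ⟨J, hJ, y0, hy0⟩ := exists_y γ hdeg hsq
  rw [hy0]
  obtain ⟨P, hP, hgood⟩ := hcol J hJ
  obtain ⟨κ, hκ, hf⟩ := hgood (fun y => if ∀ i ∈ J, y i = y0 i then 1 else 0) (by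
    intro x y hxy
    have : (∀ i ∈ J, x i = y0 i) ↔ (∀ i ∈ J, y i = y0 i) := by
      constructor
      · intro h i hi
        rw [← hxy i hi]
        exact h i hi
      · intro h i hi
        rw [hxy i hi]
        exact h i hi
    simp only [this])
  -- the sum over all `y`
  have h2 : ∑ y : Fin N → A, (C (if ∀ i ∈ J, y i = y0 i then (1 : ℂ) else 0) * mon J y :
      MvPolynomial (Fin N × A) ℂ)
      = (((Finset.univ.filter (fun y : Fin N → A => ∀ i ∈ J, y i = y0 i)).card : ℕ) : ℂ) •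
        mon J y0 := by
    have h3 : ∀ y : Fin N → A, (C (if ∀ i ∈ J, y i = y0 i then (1 : ℂ) else 0) * mon J y :
        MvPolynomial (Fin N × A) ℂ) = if ∀ i ∈ J, y i = y0 i then mon J y0 else 0 := by
      intro y
      by_cases hy : ∀ i ∈ J, y i = y0 i
      · rw [if_pos hy, if_pos hy, C_1, one_mul]
        unfold mon
        apply Finset.prod_congr rfl
        intro i hi
        rw [hy i hi]
      · rw [if_neg hy, if_neg hy, C_0, zero_mul]
    simp only [h3]
    rw [← Finset.sum_filter, Finset.sum_const, smul_eq_C_mul, nsmul_eq_mul]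
    simp
  have hcne : (((Finset.univ.filter (fun y : Fin N → A => ∀ i ∈ J, y i = y0 i)).card : ℕ) : ℂ)
      ≠ 0 := by
    have : 0 < (Finset.univ.filter (fun y : Fin N → A => ∀ i ∈ J, y i = y0 i)).card := by
      apply Finset.card_pos.2
      exact ⟨y0, by simp⟩
    exact_mod_cast this.ne'
  have hmem : ∑ y : Fin N → A, (C (if ∀ i ∈ J, y i = y0 i then (1 : ℂ) else 0) * mon J y :
      MvPolynomial (Fin N × A) ℂ) ∈ powSpan d w e := by
    have h4 : ∑ y : Fin N → A, (C (if ∀ i ∈ J, y i = y0 i then (1 : ℂ) else 0) * mon J y :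
        MvPolynomial (Fin N × A) ℂ)
        = ∑ p ∈ P, ∑ y : Fin N → A, C ((∏ i ∈ c p, v p i (y i)) * κ p y) * mon J y := by
      rw [Finset.sum_comm]
      apply Finset.sum_congr rfl
      intro y _
      rw [← Finset.sum_mul, ← map_sum]
      congr 2
      exact hf y
    rw [h4]
    apply Submodule.sum_mem
    intro p hp
    have hcJ := hP p hp
    have hcard : ((Fintype.card (Fin N → A) : ℕ) : ℂ) ≠ 0 := by
      have : 0 < Fintype.card (Fin N → A) := Fintype.card_pos
      exact_mod_cast this.ne'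
    have h5 := sum_exch (c p) (fun y : Fin N → A =>
      (C ((∏ i ∈ c p, v p i (y i)) * κ p y) * mon J y : MvPolynomial (Fin N × A) ℂ))
    obtain ⟨t, ht⟩ := sum_prod_blk (c p) (v p)
    have h6 : ∑ y : Fin N → A, ∑ z : Fin N → A,
        (C ((∏ i ∈ c p, v p i ((c p).piecewise z y i)) * κ p ((c p).piecewise z y)) *
          mon J ((c p).piecewise z y) : MvPolynomial (Fin N × A) ℂ)
        = t • ((∑ y : Fin N → A, C (κ p y) * mon (J \ c p) y) * ∏ i ∈ c p, blk (v p) i) := by
      rw [← mul_smul_comm, ← ht, Finset.sum_mul_sum]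
      apply Finset.sum_congr rfl
      intro y _
      apply Finset.sum_congr rfl
      intro z _
      rw [mon_piecewise hcJ]
      have h7 : κ p ((c p).piecewise z y) = κ p y := by
        apply hκ p hp
        intro i hi
        have : i ∉ c p :=
          ((@Finset.mem_sdiff _ (fun a b => Classical.propDecidable (a = b)) _ _ _).1 hi).2
        simp [Finset.piecewise, this]
      have h8 : ∏ i ∈ c p, v p i ((c p).piecewise z y i) = ∏ i ∈ c p, v p i (z i) := by
        apply Finset.prod_congr rfl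
        intro i hi
        simp [Finset.piecewise, hi]
      rw [h7, h8, Finset.prod_mul_distrib, C_mul, map_prod]
      ring
    rw [h6] at h5
    have h9 : ∑ y : Fin N → A, (C ((∏ i ∈ c p, v p i (y i)) * κ p y) * mon J y :
        MvPolynomial (Fin N × A) ℂ) = (((Fintype.card (Fin N → A) : ℕ) : ℂ)⁻¹ * t) •
          ((∑ y : Fin N → A, C (κ p y) * mon (J \ c p) y) * ∏ i ∈ c p, blk (v p) i) := by
      rw [mul_smul, ← h5, smul_smul, inv_mul_cancel₀ hcard, one_smul]
    rw [h9]
    apply Submodule.smul_mem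
    have hcd : (c p).card ≤ d := by
      rw [← hJ]
      exact Finset.card_le_card hcJ
    apply prod_mem hns (v p) (c p) hcd (emb p) (hemb p).1 (hemb p).2
    apply IsHomogeneous.sum
    intro y _
    have h10 : (C (κ p y) : MvPolynomial (Fin N × A) ℂ).IsHomogeneous 0 := isHomogeneous_C _ _
    have h11 := h10.mul (mon_homog (J \ c p) y)
    have h12 : 0 + (J \ c p).card = d - (c p).card := by
      rw [Finset.card_sdiff_of_subset hcJ, hJ, zero_add]
    rw [h12] at h11
    exact h11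
  rw [h2] at hmem
  have h13 : mon J y0 = ((((Finset.univ.filter
      (fun y : Fin N → A => ∀ i ∈ J, y i = y0 i)).card : ℕ) : ℂ))⁻¹ •
      ((((Finset.univ.filter (fun y : Fin N → A => ∀ i ∈ J, y i = y0 i)).card : ℕ) : ℂ) •
        mon J y0) := by
    rw [smul_smul, inv_mul_cancel₀ hcne, one_smul]
  rw [h13]
  exact Submodule.smul_mem _ _ hmem

end Pool.Agent.H21.HD

end

section

/-!
# Taylor coefficients at a moving point; the differential lemma for a subspace of any codimension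

`tcr q a b` is the `b`-th Taylor (Hasse) coefficient of the monomial `x^a` at the point `q`.
-/

namespace Pool.Agent.H54.V7

open Finset Pool.Agent.H18.Ex

/-! ### Composition of Taylor expansions -/

theorem choose_comp {R : Type*} [CommRing R] (q r : R) (m b N : ℕ) (hN : m < N) :
    ((m.choose b : ℕ) : R) * (q + r) ^ (m - b) =
      ∑ e ∈ range N, (((m.choose e : ℕ) : R) * q ^ (m - e)) *
        (((e.choose b : ℕ) : R) * r ^ (e - b)) := by
  by_cases hb : b ≤ m
  · obtain ⟨k, rfl⟩ := Nat.exists_eq_add_of_le hb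
    have h1 : ∑ e ∈ range N, ((((b + k).choose e : ℕ) : R) * q ^ (b + k - e)) *
        (((e.choose b : ℕ) : R) * r ^ (e - b)) =
        ∑ e ∈ Ico b (b + k + 1), ((((b + k).choose e : ℕ) : R) * q ^ (b + k - e)) *
        (((e.choose b : ℕ) : R) * r ^ (e - b)) := by
      symm
      refine sum_subset ?_ ?_
      · intro e he
        rw [mem_Ico] at he
        rw [mem_range]
        omega
      · intro e _ he
        rw [mem_Ico] at he
        by_cases h : e < b
        · rw [Nat.choose_eq_zero_of_lt h, Nat.cast_zero, zero_mul, mul_zero]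
        · rw [Nat.choose_eq_zero_of_lt (show b + k < e by omega), Nat.cast_zero, zero_mul, zero_mul]
    rw [h1, sum_Ico_eq_sum_range]
    have h2 : b + k + 1 - b = k + 1 := by omega
    have h3 : b + k - b = k := by omega
    rw [h2, h3, add_comm q r, add_pow, mul_sum]
    refine sum_congr rfl fun s hs => ?_
    rw [mem_range] at hs
    have h4 : b + s - b = s := by omega
    have h5 : b + k - (b + s) = k - s := by omega
    have h6 : (b + k).choose (b + s) * (b + s).choose b = (b + k).choose b * k.choose s := by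
      rw [Nat.choose_mul (show b ≤ b + s by omega), h3, h4]
    rw [h4, h5]
    have h7 : (((b + k).choose (b + s) : ℕ) : R) * (((b + s).choose b : ℕ) : R) =
        (((b + k).choose b : ℕ) : R) * ((k.choose s : ℕ) : R) := by
      rw [← Nat.cast_mul, h6, Nat.cast_mul]
    calc (((b + k).choose b : ℕ) : R) * (r ^ s * q ^ (k - s) * ((k.choose s : ℕ) : R)) =
        ((((b + k).choose b : ℕ) : R) * ((k.choose s : ℕ) : R)) * (q ^ (k - s) * r ^ s) := by ring
      _ = ((((b + k).choose (b + s) : ℕ) : R) * (((b + s).choose b : ℕ) : R)) *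
          (q ^ (k - s) * r ^ s) := by rw [h7]
      _ = _ := by ring
  · rw [Nat.choose_eq_zero_of_lt (show m < b by omega), Nat.cast_zero, zero_mul]
    symm
    refine sum_eq_zero fun e _ => ?_
    by_cases h : e < b
    · rw [Nat.choose_eq_zero_of_lt h, Nat.cast_zero, zero_mul, mul_zero]
    · rw [Nat.choose_eq_zero_of_lt (show m < e by omega), Nat.cast_zero, zero_mul, zero_mul]

section

set_option linter.unusedSectionVars false

variable {ι : Type} [Fintype ι] [DecidableEq ι]

/-- Taylor expansion in two steps. -/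
theorem tcr_add {R : Type*} [CommRing R] (q r : ι → R) (m b : ι → ℕ) (N : ℕ)
    (hN : ∀ i, m i < N) :
    tcr (fun i => q i + r i) m b = ∑ e ∈ bx ι N, tcr q m e * tcr r e b := by
  unfold tcr bx
  have h1 : ∀ i ∈ (univ : Finset ι), (((m i).choose (b i) : ℕ) : R) * (q i + r i) ^ (m i - b i) =
      ∑ e ∈ range N, ((((m i).choose e : ℕ) : R) * q i ^ (m i - e)) *
        (((e.choose (b i) : ℕ) : R) * r i ^ (e - b i)) :=
    fun i _ => choose_comp (q i) (r i) (m i) (b i) N (hN i)
  rw [prod_congr rfl h1, prod_univ_sum]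
  refine sum_congr rfl fun e _ => ?_
  rw [prod_mul_distrib]

/-- A Taylor coefficient at a multiple of a point. -/
theorem tcr_smul {R : Type*} [CommRing R] (s : R) (r : ι → R) (e b : ι → ℕ) (h : ∀ i, b i ≤ e i) :
    tcr (fun i => s * r i) e b = s ^ (∑ i, e i - ∑ i, b i) * tcr r e b := by
  unfold tcr
  have h1 : ∑ i, e i - ∑ i, b i = ∑ i, (e i - b i) := by
    have h2 : ∑ i, (e i - b i) + ∑ i, b i = ∑ i, e i := by
      rw [← sum_add_distrib]
      exact sum_congr rfl fun i _ => by have := h i; omega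
    omega
  rw [h1, ← prod_pow_eq_pow_sum, ← prod_mul_distrib]
  refine prod_congr rfl fun i _ => ?_
  rw [mul_pow]
  ring

/-! ### A form depending on `t` which vanishes to order `M` at the moving point `p + t v` -/

open Polynomial

variable {K : Type*} [CommRing K] {E : Type*}

/-- The moving point `p + t v`. -/
noncomputable def mv (p v : ι → K) : ι → K[X] := fun i => C (p i) + X * C (v i)

/-- The Taylor coefficients of the form `F_t` at the moving point. -/
noncomputable def mH (A : Finset E) (ex : E → ι → ℕ) (F : E → K[X]) (p v : ι → K) (b : ι → ℕ) : K[X] :=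
  ∑ m ∈ A, F m * tcr (mv p v) (ex m) b

/-- The Taylor coefficients of the form `F_t` at the fixed point `p`. -/
noncomputable def mG (A : Finset E) (ex : E → ι → ℕ) (F : E → K[X]) (p : ι → K) (b : ι → ℕ) : K[X] :=
  ∑ m ∈ A, F m * tcr (fun i => C (p i)) (ex m) b

theorem mG_eq (A : Finset E) (ex : E → ι → ℕ) (F : E → K[X]) (p v : ι → K) (a : ι → ℕ) (N : ℕ)
    (hN : ∀ m ∈ A, ∀ i, ex m i < N) :
    mG A ex F p a = ∑ b ∈ bx ι N, mH A ex F p v b * tcr (fun i => (-X) * C (v i)) b a := by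
  unfold mG mH
  simp only [sum_mul]
  rw [sum_comm]
  refine sum_congr rfl fun m hm => ?_
  have h1 : tcr (fun i => C (p i)) (ex m) a =
      tcr (fun i => mv p v i + (-X) * C (v i)) (ex m) a := by
    congr 1
    funext i
    unfold mv
    ring
  rw [h1, tcr_add _ _ (ex m) a N (hN m hm), mul_sum]
  refine sum_congr rfl fun b _ => ?_
  ring

theorem tcr_C (v : ι → K) (b a : ι → ℕ) : tcr (fun i => C (v i)) b a = C (tcr v b a) := by
  unfold tcr
  rw [map_prod]
  refine prod_congr rfl fun i _ => ?_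
  rw [map_mul, map_pow, map_natCast]

theorem eval_tcr_mv (p v : ι → K) (m b : ι → ℕ) : (tcr (mv p v) m b).eval 0 = tcr p m b := by
  unfold tcr mv
  rw [eval_prod]
  refine prod_congr rfl fun i _ => ?_
  simp

theorem eval_mH (A : Finset E) (ex : E → ι → ℕ) (F : E → K[X]) (p v : ι → K) (b : ι → ℕ) :
    (mH A ex F p v b).eval 0 = ∑ m ∈ A, (F m).eval 0 * tcr p (ex m) b := by
  unfold mH
  rw [eval_finsetSum]
  refine sum_congr rfl fun m _ => ?_
  rw [eval_mul, eval_tcr_mv]

/-- If `F_t` vanishes to order `M` at `p + t v`, then its `a`-th Taylor coefficient at `p` is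
`(-t)^(M - |a|)` times (the derivative of order `M - |a|` of it in the direction `v` plus a multiple
of `t`). -/
theorem mG_expand (A : Finset E) (ex : E → ι → ℕ) (F : E → K[X]) (p v : ι → K) (a : ι → ℕ) (N M : ℕ)
    (hN : ∀ m ∈ A, ∀ i, ex m i < N) (hF : ∀ b : ι → ℕ, ∑ i, b i < M → mH A ex F p v b = 0)
    (ha : ∑ i, a i ≤ M) :
    ∃ R : K[X], mG A ex F p a = (-X) ^ (M - ∑ i, a i) *
      (∑ b ∈ bxd ι N M, mH A ex F p v b * C (tcr v b a) + X * R) := by
  have h1 : ∀ b ∈ bx ι N, ∃ R : K[X], mH A ex F p v b * tcr (fun i => (-X) * C (v i)) b a =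
      (-X) ^ (M - ∑ i, a i) *
        ((if ∑ i, b i = M then mH A ex F p v b * C (tcr v b a) else 0) + X * R) := by
    intro b _
    by_cases hb : ∑ i, b i < M
    · refine ⟨0, ?_⟩
      rw [hF b hb, zero_mul, if_neg (by omega), mul_zero, add_zero, mul_zero]
    · by_cases hab : ∀ i, a i ≤ b i
      · rw [tcr_smul _ _ _ _ hab, tcr_C]
        by_cases hb2 : ∑ i, b i = M
        · refine ⟨0, ?_⟩
          rw [if_pos hb2, hb2]
          ring
        · refine ⟨-(mH A ex F p v b * ((-X) ^ (∑ i, b i - M - 1) * C (tcr v b a))), ?_⟩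
          rw [if_neg hb2]
          have h2 : ∑ i, b i - ∑ i, a i = (M - ∑ i, a i) + 1 + (∑ i, b i - M - 1) := by omega
          rw [h2, pow_add, pow_add]
          ring
      · refine ⟨0, ?_⟩
        rw [tcr_eq_zero _ _ _ hab, tcr_eq_zero _ _ _ hab]
        simp
  choose! R hR using h1
  refine ⟨∑ b ∈ bx ι N, R b, ?_⟩
  rw [mG_eq A ex F p v a N hN, sum_congr rfl hR, ← mul_sum, sum_add_distrib, mul_sum]
  congr 2
  unfold bxd
  rw [sum_filter]

/-- (DH1) The value at `p` of `F_t` is divisible by `t^M`. -/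
theorem dh_value (A : Finset E) (ex : E → ι → ℕ) (F : E → K[X]) (p v : ι → K) (M : ℕ)
    (hF : ∀ b : ι → ℕ, ∑ i, b i < M → mH A ex F p v b = 0) :
    X ^ M ∣ mG A ex F p 0 := by
  obtain ⟨N, hN⟩ : ∃ N, ∀ m ∈ A, ∀ i, ex m i < N := by
    refine ⟨(∑ m ∈ A, ∑ i, ex m i) + 1, fun m hm i => ?_⟩
    have h1 : ex m i ≤ ∑ i, ex m i :=
      single_le_sum (f := ex m) (fun _ _ => Nat.zero_le _) (mem_univ i)
    have h2 : ∑ i, ex m i ≤ ∑ m ∈ A, ∑ i, ex m i :=
      single_le_sum (f := fun m => ∑ i, ex m i) (fun _ _ => Nat.zero_le _) hm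
    omega
  obtain ⟨R, hR⟩ := mG_expand A ex F p v 0 N M hN hF (by simp)
  have h0 : ∑ i : ι, (0 : ι → ℕ) i = 0 := by simp
  rw [hR, h0, Nat.sub_zero, neg_pow, mul_assoc]
  exact Dvd.dvd.mul_left (dvd_mul_right _ _) _

/-- (DH2) If the `a`-th Taylor coefficient of `F_t` at `p` is divisible by `t^(M - |a| + 1)`, then
the derivative of order `M - |a|` in the direction `v` of the `a`-th derivative of `F_0` vanishes
at `p`. -/
theorem dh_deriv (A : Finset E) (ex : E → ι → ℕ) (F : E → K[X]) (p v : ι → K) (a : ι → ℕ) (N M : ℕ)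
    (hN : ∀ m ∈ A, ∀ i, ex m i < N) (hF : ∀ b : ι → ℕ, ∑ i, b i < M → mH A ex F p v b = 0)
    (ha : ∑ i, a i ≤ M) (hdiv : X ^ (M - ∑ i, a i + 1) ∣ mG A ex F p a) :
    ∑ b ∈ bxd ι N M, tcr v b a * ∑ m ∈ A, (F m).eval 0 * tcr p (ex m) b = 0 := by
  obtain ⟨R, hR⟩ := mG_expand A ex F p v a N M hN hF ha
  obtain ⟨Q, hQ⟩ := hdiv
  rw [hQ] at hR
  have h1 : X ^ (M - ∑ i, a i) * (X * Q) = X ^ (M - ∑ i, a i) * ((-1) ^ (M - ∑ i, a i) *
      (∑ b ∈ bxd ι N M, mH A ex F p v b * C (tcr v b a) + X * R)) := by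
    rw [neg_pow] at hR
    calc X ^ (M - ∑ i, a i) * (X * Q) = X ^ (M - ∑ i, a i + 1) * Q := by ring
      _ = _ := hR
      _ = _ := by ring
  have h2 : X * Q = (-1) ^ (M - ∑ i, a i) *
      (∑ b ∈ bxd ι N M, mH A ex F p v b * C (tcr v b a) + X * R) := by
    have h3 : IsLeftRegular ((X : K[X]) ^ (M - ∑ i, a i)) :=
      (Polynomial.monic_X_pow _).isRegular.left
    exact h3 h1
  have h3 := congrArg (Polynomial.eval 0) h2
  rw [eval_mul, eval_X, zero_mul, eval_mul, eval_add, eval_mul, eval_X, zero_mul, add_zero,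
    eval_finsetSum] at h3
  have h4 : ((-1 : K[X]) ^ (M - ∑ i, a i)).eval 0 * ((-1 : K[X]) ^ (M - ∑ i, a i)).eval 0 = 1 := by
    rw [← eval_mul, ← mul_pow]
    simp
  have h5 : ∑ b ∈ bxd ι N M, eval 0 (mH A ex F p v b * C (tcr v b a)) = 0 := by
    calc ∑ b ∈ bxd ι N M, eval 0 (mH A ex F p v b * C (tcr v b a)) =
        (((-1 : K[X]) ^ (M - ∑ i, a i)).eval 0 * ((-1 : K[X]) ^ (M - ∑ i, a i)).eval 0) *
          ∑ b ∈ bxd ι N M, eval 0 (mH A ex F p v b * C (tcr v b a)) := by rw [h4, one_mul]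
      _ = ((-1 : K[X]) ^ (M - ∑ i, a i)).eval 0 * 0 := by rw [mul_assoc, ← h3]
      _ = 0 := mul_zero _
  refine Eq.trans ?_ h5
  refine sum_congr rfl fun b _ => ?_
  rw [eval_mul, eval_C, eval_mH]
  ring

/-! ### A form which vanishes to order `M` in `t` on the subspace `x_i = 0` (`i ∈ B`) -/

/-- A Taylor coefficient along the subspace `x_i = 0` (`i ∈ B`) of a monomial which vanishes on it,
at a point of it. -/
theorem tcr_off {R : Type*} [CommRing R] (B : Finset ι) (p : ι → R) (hp : ∀ i ∈ B, p i = 0)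
    (m a : ι → ℕ) (ha : ∀ i ∈ B, a i = 0) (hm : ¬ ∀ i ∈ B, m i = 0) : tcr p m a = 0 := by
  push Not at hm
  obtain ⟨i, hi, hm⟩ := hm
  unfold tcr
  refine prod_eq_zero (mem_univ i) ?_
  rw [hp i hi, ha i hi, Nat.sub_zero, zero_pow hm, mul_zero]

/-- The lower coefficients of the trace of `F_t` vanish at `p`. -/
theorem dh_trace (A : Finset E) (ex : E → ι → ℕ) (F : E → K[X]) (B : Finset ι) (p v : ι → K)
    (hp : ∀ i ∈ B, p i = 0) (M : ℕ) (hF : ∀ b : ι → ℕ, ∑ i, b i < M → mH A ex F p v b = 0)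
    (j : ℕ) (hj : j < M) :
    ∑ m ∈ A.filter (fun m => ∀ i ∈ B, ex m i = 0), (F m).coeff j * tcr p (ex m) 0 = 0 := by
  have h1 := (X_pow_dvd_iff.1 (dh_value A ex F p v M hF)) j hj
  unfold mG at h1
  rw [finsetSum_coeff] at h1
  rw [← h1, sum_filter]
  refine sum_congr rfl fun m _ => ?_
  rw [tcr_C, coeff_mul_C]
  split_ifs with h
  · rfl
  · rw [tcr_off B p hp (ex m) 0 (fun _ _ => rfl) h, mul_zero]

/-- The additional conditions on `F_0` at `p`. -/
theorem dh_swap (A : Finset E) (ex : E → ι → ℕ) (F : E → K[X]) (B : Finset ι) (p v : ι → K)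
    (hp : ∀ i ∈ B, p i = 0) (M N : ℕ) (hN : ∀ m ∈ A, ∀ i, ex m i < N)
    (hF : ∀ b : ι → ℕ, ∑ i, b i < M → mH A ex F p v b = 0)
    (htr : ∀ m ∈ A, (∀ i ∈ B, ex m i = 0) → X ^ M ∣ F m)
    (a : ι → ℕ) (haB : ∀ i ∈ B, a i = 0) (ha1 : 1 ≤ ∑ i, a i) (ha : ∑ i, a i ≤ M) :
    ∑ b ∈ bxd ι N M, tcr v b a * ∑ m ∈ A, (F m).eval 0 * tcr p (ex m) b = 0 := by
  refine dh_deriv A ex F p v a N M hN hF ha ?_
  refine (pow_dvd_pow X (show M - ∑ i, a i + 1 ≤ M by omega)).trans ?_
  unfold mG
  refine dvd_sum fun m hm => ?_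
  by_cases h : ∀ i ∈ B, ex m i = 0
  · exact (htr m hm h).mul_right _
  · rw [tcr_C, tcr_off B p hp (ex m) a haB h, C_0, mul_zero]
    exact dvd_zero _

/-- `F_0` vanishes to order `M` at `p`. -/
theorem dh_fat (A : Finset E) (ex : E → ι → ℕ) (F : E → K[X]) (p v : ι → K) (M : ℕ)
    (hF : ∀ b : ι → ℕ, ∑ i, b i < M → mH A ex F p v b = 0) (b : ι → ℕ) (hb : ∑ i, b i < M) :
    ∑ m ∈ A, (F m).eval 0 * tcr p (ex m) b = 0 := by
  rw [← eval_mH A ex F p v b, hF b hb, eval_zero]

end

end Pool.Agent.H54.V7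

end

section

/-!
# Euler relations for Taylor coefficients and for the swapped conditions
-/

namespace Pool.Agent.H54.V7

open Finset Pool.Agent.H18.Ex

section

set_option linter.unusedSectionVars false

variable {ι : Type} [Fintype ι] [DecidableEq ι] {E : Type} [Fintype E] (ex : E → ι → ℕ)

/-- The `b`-th Taylor coefficient of the form `f` at `p`. -/
noncomputable def TC (f : E → ℂ) (p : ι → ℂ) (b : ι → ℕ) : ℂ := ∑ e, f e * tcr p (ex e) b

/-- The `a`-th swapped condition: the derivative of order `m - |a|` in the direction `v` of the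
`a`-th derivative of `f`, at `p`. -/
noncomputable def SC (N m : ℕ) (f : E → ℂ) (p v : ι → ℂ) (a : ι → ℕ) : ℂ :=
  ∑ b ∈ bxd ι N m, tcr v b a * TC ex f p b

/-- Euler's relation for the Taylor coefficients of a form of degree `d`. -/
theorem euler_TC (d : ℕ) (hE : ∀ e, ∑ i, ex e i = d) (f : E → ℂ) (p : ι → ℂ) (b : ι → ℕ) :
    ∑ k, ((b k + 1 : ℕ) : ℂ) * p k * TC ex f p (b + Pi.single k 1) =
      ((d : ℂ) - ((∑ i, b i : ℕ) : ℂ)) * TC ex f p b := by
  unfold TC
  simp only [mul_sum]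
  rw [sum_comm]
  refine sum_congr rfl fun e _ => ?_
  have h1 : ∀ k ∈ (univ : Finset ι), ((b k + 1 : ℕ) : ℂ) * p k *
      (f e * tcr p (ex e) (b + Pi.single k 1)) =
      f e * ((((ex e k : ℕ) : ℂ) - ((b k : ℕ) : ℂ)) * tcr p (ex e) b) := by
    intro k _
    rw [← eul_one p (ex e) b k]
    ring
  rw [sum_congr rfl h1, ← mul_sum, ← sum_mul, sum_sub_distrib, ← Nat.cast_sum, ← Nat.cast_sum, hE]
  ring

/-- If the Taylor coefficients of order exactly `m < d` vanish, then so do those of lower order. -/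
theorem TC_lower (d : ℕ) (hE : ∀ e, ∑ i, ex e i = d) (f : E → ℂ) (p : ι → ℂ) (m : ℕ) (hm : m < d)
    (h : ∀ b : ι → ℕ, ∑ i, b i = m → TC ex f p b = 0) :
    ∀ b : ι → ℕ, ∑ i, b i ≤ m → TC ex f p b = 0 := by
  have key : ∀ k, k ≤ m → ∀ b : ι → ℕ, ∑ i, b i + k = m → TC ex f p b = 0 := by
    intro k
    induction k with
    | zero =>
      intro _ b hb
      exact h b (by omega)
    | succ k ih =>
      intro hk b hb
      have h1 := euler_TC ex d hE f p b
      have h2 : ∑ k, ((b k + 1 : ℕ) : ℂ) * p k * TC ex f p (b + Pi.single k 1) = 0 := by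
        refine sum_eq_zero fun l _ => ?_
        rw [ih (by omega) (b + Pi.single l 1), mul_zero]
        have h3 : ∑ i, (b + Pi.single l 1 : ι → ℕ) i = ∑ i, b i + 1 := by
          simp [sum_add_distrib]
        omega
      rw [h2] at h1
      rcases mul_eq_zero.1 h1.symm with h3 | h3
      · exfalso
        have h4 : (d : ℂ) = ((∑ i, b i : ℕ) : ℂ) := sub_eq_zero.1 h3
        have h5 : d = ∑ i, b i := by exact_mod_cast h4
        omega
      · exact h3
  intro b hb
  exact key (m - ∑ i, b i) (by omega) b (by omega)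

theorem swap_num {R : Type*} [CommRing R] (B A : ℕ) (x : R) :
    ((B + 1 : ℕ) : R) * (((B.choose A : ℕ) : R) * x ^ (B - A)) =
      ((A + 1 : ℕ) : R) * ((((B + 1).choose (A + 1) : ℕ) : R) * x ^ (B + 1 - (A + 1))) := by
  have h1 : B + 1 - (A + 1) = B - A := by omega
  have h2 : (((B + 1 : ℕ) : R) * ((B.choose A : ℕ) : R)) =
      (((B + 1).choose (A + 1) : ℕ) : R) * ((A + 1 : ℕ) : R) := by
    rw [← Nat.cast_mul, ← Nat.cast_mul, Nat.add_one_mul_choose_eq]
  rw [h1]
  linear_combination x ^ (B - A) * h2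

theorem swap_one {R : Type*} [CommRing R] (v : ι → R) (b a : ι → ℕ) (l : ι) :
    ((b l + 1 : ℕ) : R) * tcr v b a =
      ((a l + 1 : ℕ) : R) * tcr v (b + Pi.single l 1) (a + Pi.single l 1) := by
  rw [tcr_split v b a l, tcr_split v (b + Pi.single l 1) (a + Pi.single l 1) l]
  have h1 : (b + Pi.single l 1 : ι → ℕ) l = b l + 1 := by simp
  have h1' : (a + Pi.single l 1 : ι → ℕ) l = a l + 1 := by simp
  have h2 : ∏ i ∈ univ.erase l, (((((b + Pi.single l 1 : ι → ℕ) i)).choose
      ((a + Pi.single l 1 : ι → ℕ) i) : ℕ) : R) *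
      v i ^ ((b + Pi.single l 1 : ι → ℕ) i - (a + Pi.single l 1 : ι → ℕ) i) =
      ∏ i ∈ univ.erase l, (((b i).choose (a i) : ℕ) : R) * v i ^ (b i - a i) := by
    refine prod_congr rfl fun i hi => ?_
    rw [Pi.add_apply, Pi.add_apply, Pi.single_eq_of_ne (ne_of_mem_erase hi), Nat.add_zero,
      Nat.add_zero]
  rw [h2, h1, h1']
  have h3 := swap_num (b l) (a l) (v l)
  linear_combination (∏ i ∈ univ.erase l, (((b i).choose (a i) : ℕ) : R) * v i ^ (b i - a i)) * h3

/-- Euler's relation for the swapped conditions. -/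
theorem euler_SC (d N m : ℕ) (hE : ∀ e, ∑ i, ex e i = d) (hN : d < N) (hmd : m < d) (f : E → ℂ)
    (p v : ι → ℂ) (a : ι → ℕ) :
    ∑ k, ((a k + 1 : ℕ) : ℂ) * p k * SC ex N (m + 1) f p v (a + Pi.single k 1) =
      ((d : ℂ) - (m : ℂ)) * SC ex N m f p v a := by
  have hsum : ∀ (b : ι → ℕ) (k : ι), ∑ i, (b + Pi.single k 1 : ι → ℕ) i = ∑ i, b i + 1 := by
    intro b k
    simp [sum_add_distrib]
  have h1 : ∀ k : ι, ∑ b ∈ bxd ι N m, tcr v (b + Pi.single k 1) (a + Pi.single k 1) *
      TC ex f p (b + Pi.single k 1) = SC ex N (m + 1) f p v (a + Pi.single k 1) := by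
    intro k
    unfold SC
    refine sum_of_injOn (fun b => b + Pi.single k 1) ?_ ?_ ?_ ?_
    · intro b _ b' _ h
      exact add_right_cancel h
    · intro b hb
      rw [mem_coe] at hb ⊢
      unfold bxd at hb ⊢
      rw [mem_filter, mem_bx] at hb ⊢
      have h2 : ∀ i, (b + Pi.single k 1 : ι → ℕ) i ≤ ∑ i, (b + Pi.single k 1 : ι → ℕ) i := fun i =>
        single_le_sum (f := (b + Pi.single k 1 : ι → ℕ)) (fun _ _ => Nat.zero_le _) (mem_univ i)
      have h3 := hsum b k
      refine ⟨fun i => ?_, ?_⟩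
      · have := h2 i
        have := hb.2
        show (b + Pi.single k 1 : ι → ℕ) i < N
        omega
      · show ∑ i, (b + Pi.single k 1 : ι → ℕ) i = m + 1
        rw [h3, hb.2]
    · intro b' hb' hn
      unfold bxd at hb'
      rw [mem_filter, mem_bx] at hb'
      by_cases hk : b' k = 0
      · have h2 : tcr v b' (a + Pi.single k 1) = 0 := by
          refine tcr_eq_zero _ _ _ fun h => ?_
          have h3 := h k
          rw [hk, Pi.add_apply, Pi.single_eq_same] at h3
          omega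
        rw [h2, zero_mul]
      · exfalso
        apply hn
        have h4 : (b' - Pi.single k 1 : ι → ℕ) + Pi.single k 1 = b' := by
          funext i
          rw [Pi.add_apply, Pi.sub_apply]
          by_cases hi : i = k
          · subst hi
            rw [Pi.single_eq_same]
            omega
          · rw [Pi.single_eq_of_ne hi]
            omega
        refine ⟨b' - Pi.single k 1, ?_, h4⟩
        rw [mem_coe]
        unfold bxd
        rw [mem_filter, mem_bx]
        have h5 := hsum (b' - Pi.single k 1) k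
        rw [h4] at h5
        refine ⟨fun i => ?_, by omega⟩
        have := hb'.1 i
        rw [Pi.sub_apply]
        omega
    · intro b _
      rfl
  have h2 : ((d : ℂ) - (m : ℂ)) * SC ex N m f p v a =
      ∑ b ∈ bxd ι N m, tcr v b a * (((d : ℂ) - ((∑ i, b i : ℕ) : ℂ)) * TC ex f p b) := by
    unfold SC
    rw [mul_sum]
    refine sum_congr rfl fun b hb => ?_
    unfold bxd at hb
    rw [mem_filter] at hb
    rw [hb.2]
    ring
  rw [h2]
  have h3 : ∀ b ∈ bxd ι N m, tcr v b a * (((d : ℂ) - ((∑ i, b i : ℕ) : ℂ)) * TC ex f p b) =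
      ∑ k, ((a k + 1 : ℕ) : ℂ) * p k * (tcr v (b + Pi.single k 1) (a + Pi.single k 1) *
        TC ex f p (b + Pi.single k 1)) := by
    intro b _
    rw [← euler_TC ex d hE f p b, mul_sum]
    refine sum_congr rfl fun k _ => ?_
    have h4 := swap_one v b a k
    linear_combination (p k * TC ex f p (b + Pi.single k 1)) * h4
  rw [sum_congr rfl h3, sum_comm]
  refine sum_congr rfl fun k _ => ?_
  rw [← h1 k, mul_sum]

end

end Pool.Agent.H54.V7

end

section

/-!
# V7, block DH: the differential Horace step for configurations of kinds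
-/

set_option autoImplicit false
set_option linter.unusedSectionVars false

namespace Pool.Agent.V7

open Finset MvPolynomial Pool.Agent.H51.TB Pool.Agent.H54.V7
open Pool.Agent.H18.Ex (tcr)

section

variable {ν : Type} [Fintype ν] [DecidableEq ν]

/-- The block `j`. -/
abbrev Bj (β : ν → ℕ) (j : ℕ) : Finset ν := univ.filter fun s => β s = j

/-- The exponents of `A` off the block `j`. -/
abbrev A0 (β : ν → ℕ) (j : ℕ) (A : Finset (ν → ℕ)) : Finset (ν → ℕ) :=
  A.filter fun a => ∀ s ∈ Bj β j, a s = 0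

/-- The exponents of `A` which meet the block `j`. -/
abbrev A1 (β : ν → ℕ) (j : ℕ) (A : Finset (ν → ℕ)) : Finset (ν → ℕ) :=
  A.filter fun a => ¬ ∀ s ∈ Bj β j, a s = 0

/-- The position with both vectors on the subspace of the block `j`. -/
def mq (β : ν → ℕ) (j : ℕ) (q : ν ⊕ ν → ℂ) : ν ⊕ ν → ℂ :=
  Sum.elim (msk β {j} fun s => q (Sum.inl s)) (msk β {j} fun s => q (Sum.inr s))

/-- The restriction of a function to a smaller set of exponents. -/
def rs {A A' : Finset (ν → ℕ)} (h : A' ⊆ A) (f : {a // a ∈ A} → ℂ) : {a // a ∈ A'} → ℂ :=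
  fun e => f ⟨e.1, h e.2⟩

/-- Taylor coefficients as sums over a finite set. -/
theorem sum_coe {A : Finset (ν → ℕ)} (f : {a // a ∈ A} → ℂ) (g : (ν → ℕ) → ℂ) :
    ∑ e : {a // a ∈ A}, f e * g e.1 =
      ∑ a ∈ A, (if h : a ∈ A then f ⟨a, h⟩ else 0) * g a := by
  rw [← sum_coe_sort A fun a => (if h : a ∈ A then f ⟨a, h⟩ else 0) * g a]
  refine sum_congr rfl fun e _ => ?_
  rw [dif_pos e.2]

theorem sum_rs {A A' : Finset (ν → ℕ)} (h : A' ⊆ A) (f : {a // a ∈ A} → ℂ) (g : (ν → ℕ) → ℂ)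
    (h0 : ∀ e : {a // a ∈ A}, e.1 ∉ A' → f e * g e.1 = 0) :
    ∑ e : {a // a ∈ A'}, rs h f e * g e.1 = ∑ e : {a // a ∈ A}, f e * g e.1 := by
  rw [sum_coe, sum_coe, ← sum_subset h]
  · refine sum_congr rfl fun a ha => ?_
    rw [dif_pos ha, dif_pos (h ha)]
    rfl
  · intro a ha ha'
    rw [dif_pos ha]
    exact h0 ⟨a, ha⟩ ha'

/-- The Taylor coefficients on the subspace. -/
theorem TC_trace (β : ν → ℕ) (j : ℕ) (A : Finset (ν → ℕ)) (f : {a // a ∈ A} → ℂ)
    (p : ν → ℂ) (hp : ∀ s ∈ Bj β j, p s = 0) (b : ν → ℕ) (hb : ∀ s ∈ Bj β j, b s = 0) :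
    TC (fun e : {a // a ∈ A0 β j A} => e.1) (rs (filter_subset _ A) f) p b =
      TC (fun e : {a // a ∈ A} => e.1) f p b := by
  unfold TC
  refine sum_rs (filter_subset _ A) f (fun a => tcr p a b) fun e he => ?_
  rw [tcr_off (Bj β j) p hp e.1 b hb, mul_zero]
  intro h
  exact he (mem_filter.2 ⟨e.2, h⟩)

/-- The Taylor coefficients on the subspace do not depend on the coordinates of the block `j`. -/
theorem TC_A0 (β : ν → ℕ) (j : ℕ) (A : Finset (ν → ℕ)) (f : {a // a ∈ A0 β j A} → ℂ)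
    (p p' : ν → ℂ) (hp : ∀ s, s ∉ Bj β j → p s = p' s) (b : ν → ℕ) :
    TC (fun e : {a // a ∈ A0 β j A} => e.1) f p b =
      TC (fun e : {a // a ∈ A0 β j A} => e.1) f p' b := by
  unfold TC
  refine sum_congr rfl fun e _ => ?_
  have he := (mem_filter.1 e.2).2
  congr 1
  unfold tcr
  refine prod_congr rfl fun s _ => ?_
  show (((e.1 s).choose (b s) : ℕ) : ℂ) * p s ^ (e.1 s - b s) =
    (((e.1 s).choose (b s) : ℕ) : ℂ) * p' s ^ (e.1 s - b s)
  by_cases hs : s ∈ Bj β j
  · rw [he s hs, Nat.zero_sub, pow_zero, pow_zero]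
  · rw [hp s hs]

theorem TC_A0_zero (β : ν → ℕ) (j : ℕ) (A : Finset (ν → ℕ)) (f : {a // a ∈ A0 β j A} → ℂ)
    (p : ν → ℂ) (b : ν → ℕ) (hb : ¬ ∀ s ∈ Bj β j, b s = 0) :
    TC (fun e : {a // a ∈ A0 β j A} => e.1) f p b = 0 := by
  push Not at hb
  obtain ⟨s, hs, hb⟩ := hb
  unfold TC
  refine sum_eq_zero fun e _ => ?_
  have he := (mem_filter.1 e.2).2
  rw [tcr_eq_zero p e.1 b, mul_zero]
  intro h
  have h1 := h s
  have h2 := he s hs
  exact hb (Nat.eq_zero_of_le_zero (h2 ▸ h1))

theorem Fat_trace (β : ν → ℕ) (j : ℕ) (A : Finset (ν → ℕ)) (M : ℕ) (f : {a // a ∈ A} → ℂ)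
    (p p' : ν → ℂ) (hp : ∀ s ∈ Bj β j, p s = 0) (hpp : ∀ s, s ∉ Bj β j → p' s = p s)
    (h : Fat (fun e : {a // a ∈ A} => e.1) M p f) :
    Fat (fun e : {a // a ∈ A0 β j A} => e.1) M p' (rs (filter_subset _ A) f) := by
  intro b hb
  show TC (fun e : {a // a ∈ A0 β j A} => e.1) (rs (filter_subset _ A) f) p' b = 0
  by_cases h1 : ∀ s ∈ Bj β j, b s = 0
  · rw [TC_A0 β j A _ p' p hpp b, TC_trace β j A f p hp b h1]
    exact h b hb
  · exact TC_A0_zero β j A _ p' b h1

theorem Sw_trace (β : ν → ℕ) (j : ℕ) (A : Finset (ν → ℕ)) (M N : ℕ) (B : Finset ν)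
    (f : {a // a ∈ A} → ℂ) (p p' v v' : ν → ℂ) (hp : ∀ s ∈ Bj β j, p s = 0)
    (hpp : ∀ s, s ∉ Bj β j → p' s = p s) (hv : ∀ s ∈ Bj β j, v s = 0)
    (hvv : ∀ s, s ∉ Bj β j → v' s = v s)
    (h : Sw (fun e : {a // a ∈ A} => e.1) M N B p v f) :
    Sw (fun e : {a // a ∈ A0 β j A} => e.1) M N B p' v' (rs (filter_subset _ A) f) := by
  intro a ha h1 h2
  show ∑ b ∈ bxd ν N M, tcr v' b a *
    TC (fun e : {a // a ∈ A0 β j A} => e.1) (rs (filter_subset _ A) f) p' b = 0
  by_cases h3 : ∀ s ∈ Bj β j, a s = 0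
  · have h4 := h a ha h1 h2
    refine Eq.trans ?_ h4
    refine sum_congr rfl fun b _ => ?_
    show _ = tcr v b a * TC (fun e : {a // a ∈ A} => e.1) f p b
    by_cases h5 : ∀ s ∈ Bj β j, b s = 0
    · rw [TC_A0 β j A _ p' p hpp b, TC_trace β j A f p hp b h5]
      congr 1
      unfold tcr
      refine prod_congr rfl fun s _ => ?_
      by_cases hs : s ∈ Bj β j
      · rw [h5 s hs, Nat.zero_sub, pow_zero, pow_zero]
      · rw [hvv s hs]
    · rw [TC_A0_zero β j A _ p' b h5, mul_zero, tcr_off (Bj β j) v hv b a h3 h5, zero_mul]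
  · refine sum_eq_zero fun b _ => ?_
    by_cases h5 : ∀ s ∈ Bj β j, b s = 0
    · rw [tcr_eq_zero v' b a, zero_mul]
      intro h6
      apply h3
      intro s hs
      exact Nat.eq_zero_of_le_zero (h5 s hs ▸ h6 s)
    · rw [TC_A0_zero β j A _ p' b h5, mul_zero]

theorem TC_resid (β : ν → ℕ) (j : ℕ) (A : Finset (ν → ℕ)) (f : {a // a ∈ A} → ℂ)
    (hf : ∀ e : {a // a ∈ A}, (∀ s ∈ Bj β j, e.1 s = 0) → f e = 0) (p : ν → ℂ) (b : ν → ℕ) :
    TC (fun e : {a // a ∈ A1 β j A} => e.1) (rs (filter_subset _ A) f) p b =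
      TC (fun e : {a // a ∈ A} => e.1) f p b := by
  unfold TC
  refine sum_rs (filter_subset _ A) f (fun a => tcr p a b) fun e he => ?_
  rw [hf e, zero_mul]
  by_contra h
  exact he (mem_filter.2 ⟨e.2, h⟩)

theorem Fat_resid (β : ν → ℕ) (j : ℕ) (A : Finset (ν → ℕ)) (M : ℕ) (f : {a // a ∈ A} → ℂ)
    (hf : ∀ e : {a // a ∈ A}, (∀ s ∈ Bj β j, e.1 s = 0) → f e = 0) (p : ν → ℂ)
    (h : Fat (fun e : {a // a ∈ A} => e.1) M p f) :
    Fat (fun e : {a // a ∈ A1 β j A} => e.1) M p (rs (filter_subset _ A) f) := by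
  intro b hb
  show TC (fun e : {a // a ∈ A1 β j A} => e.1) (rs (filter_subset _ A) f) p b = 0
  rw [TC_resid β j A f hf p b]
  exact h b hb

theorem Sw_resid (β : ν → ℕ) (j : ℕ) (A : Finset (ν → ℕ)) (M N : ℕ) (B : Finset ν)
    (f : {a // a ∈ A} → ℂ)
    (hf : ∀ e : {a // a ∈ A}, (∀ s ∈ Bj β j, e.1 s = 0) → f e = 0) (p v : ν → ℂ)
    (h : Sw (fun e : {a // a ∈ A} => e.1) M N B p v f) :
    Sw (fun e : {a // a ∈ A1 β j A} => e.1) M N B p v (rs (filter_subset _ A) f) := by
  intro a ha h1 h2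
  refine Eq.trans ?_ (h a ha h1 h2)
  refine sum_congr rfl fun b _ => ?_
  show tcr v b a * TC (fun e : {a // a ∈ A1 β j A} => e.1) (rs (filter_subset _ A) f) p b = _
  rw [TC_resid β j A f hf p b]
  rfl

end

end Pool.Agent.V7

end
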