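import Pool.Agent.H94.LP7.M35
import Pool.Agent.H94.LP7.M40
import Pool.Agent.H94.LP7.M51

/-! The parts of this file: GD.AL.TieL_1, GD.AL.TieM_1, GD.AL.Cl1. -/

section

/-!
# General d, ALPHA, clusters: the limit of the tied position

`tie_key`: if `Φ(t)` kills the multiples of `(Y + t Z)^(E + 1)` and all `Y^m r`, then `Φ(0)` kills all
`Y^E Z^p r`.  `tie_dh`: the additional conditions of the cluster.
-/

set_option autoImplicit false
set_option linter.unusedSectionVars false

namespace Pool.Agent.GD.AL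

open Finset MvPolynomial Pool.Agent.H51.TB Pool.Agent.V7.ST
open Pool.Agent.V7 (msk)

section

variable {ν : Type} [Fintype ν] [DecidableEq ν]

end

section

variable {ν : Type} [Fintype ν] [DecidableEq ν] {d : ℕ} {β : ν → ℕ} {i E dl : ℕ} {B A : Finset ℕ}
  {L : List (Finset ℕ)} {I : Finset ℕ}

theorem lf_XC (p : ν → ℂ) : lf (fun s => Polynomial.X * Polynomial.C (p s)) =
    C Polynomial.X * MvPolynomial.map Polynomial.C (lf p) := by
  rw [Pool.Agent.GD.lf_smul, map_lf]

theorem lf_tied (p q : ν → ℂ) :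
    lf (fun s => Polynomial.C (p s) + Polynomial.X * Polynomial.C (q s)) =
      MvPolynomial.map Polynomial.C (lf p) + C Polynomial.X * MvPolynomial.map Polynomial.C (lf q) := by
  rw [Pool.Agent.GD.lf_add, lf_XC, map_lf p]

/-- The first members. -/
theorem tie_mem (hl : L.length + 1 ≤ d) {a : ℕ → ν → ℂ} {b y : ν → ℂ} {c : ν × Fin (d + 1) → ℂ}
    {φ : (ν → ℕ) → Polynomial ℂ}
    (h : Sat β I (.cl (E + 1) dl i (L ++ [A])) (pq β i B L.length a b y c) (Fn φ))
    {x : ℕ} (hx : x < L.length) (g : MvPolynomial ν (Polynomial ℂ)) :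
    Fn φ (MvPolynomial.map Polynomial.C (lf (avl β L a x)) ^ (E + 1) * g) = 0 := by
  have h1 := h.1 ⟨x, by omega⟩ (by
    show x < (L ++ [A]).length
    rw [List.length_append]
    omega) g
  rw [pt_pq_lt hl a b y c (by exact hx), lf_XC] at h1
  have h2 : (C Polynomial.X * MvPolynomial.map Polynomial.C (lf (avl β L a x))) ^ (E + 1) * g =
      C (Polynomial.X ^ (E + 1)) *
        (MvPolynomial.map Polynomial.C (lf (avl β L a x)) ^ (E + 1) * g) := by
    rw [map_pow]
    ring
  change Fn φ ((C Polynomial.X * MvPolynomial.map Polynomial.C (lf (avl β L a x))) ^ (E + 1) * g) =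
    0 at h1
  rw [h2, Fn_C_mul] at h1
  exact (mul_eq_zero.1 h1).resolve_left (pow_ne_zero _ Polynomial.X_ne_zero)

/-- The tied member. -/
theorem tie_last (hl : L.length + 1 ≤ d) (hiB : i ∉ B) (hAB : A ⊆ B)
    {a : ℕ → ν → ℂ} {b y : ν → ℂ} {c : ν × Fin (d + 1) → ℂ} {φ : (ν → ℕ) → Polynomial ℂ}
    (h : Sat β I (.cl (E + 1) dl i (L ++ [A])) (pq β i B L.length a b y c) (Fn φ))
    (g : MvPolynomial ν (Polynomial ℂ)) :
    Fn φ ((MvPolynomial.map Polynomial.C (lf (msk β (insert i A) y)) +
      C Polynomial.X * MvPolynomial.map Polynomial.C (lf (zh β i B L.length a b))) ^ (E + 1) * g) =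
        0 := by
  have h1 := h.1 ⟨L.length, by omega⟩ (by
    show L.length < (L ++ [A]).length
    rw [List.length_append, List.length_singleton]
    omega) g
  rw [pt_pq_len hl (fun h => hiB (hAB h)) hiB hAB a b y c rfl, lf_tied] at h1
  exact h1

/-- The sum of the first members. -/
theorem tie_sum (hl : L.length + 1 ≤ d) {a : ℕ → ν → ℂ} {b y : ν → ℂ}
    {c : ν × Fin (d + 1) → ℂ} {φ : (ν → ℕ) → Polynomial ℂ}
    (h : Sat β I (.cl (E + 1) dl i (L ++ [A])) (pq β i B L.length a b y c) (Fn φ))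
    (g : MvPolynomial ν (Polynomial ℂ)) :
    Fn φ (MvPolynomial.map Polynomial.C (lf (sv β L a)) ^ (L.length * E + 1) * g) = 0 := by
  have h1 := sum_pow_mem (Ann (Fn φ)) (fun x => MvPolynomial.map Polynomial.C (lf (avl β L a x)))
    (range L.length) (E + 1) (by omega) (fun x hx g => tie_mem hl h (mem_range.1 hx) g)
  have h2 : ∑ x ∈ range L.length, MvPolynomial.map Polynomial.C (lf (avl β L a x)) =
      MvPolynomial.map Polynomial.C (lf (sv β L a)) := by
    rw [← map_sum]
    congr 1
    exact (lf_sum _ _).symm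
  rw [h2, card_range, Nat.add_sub_cancel] at h1
  exact h1 g

/-- The additional conditions at `t = 0`. -/
theorem tie_add (hl : L.length + 1 ≤ d) (hL : 1 ≤ L.length) (hE : 1 ≤ E) (hiB : i ∉ B)
    (hAB : A ⊆ B) (hi : i ∈ I)
    {a : ℕ → ν → ℂ} {b y : ν → ℂ} {c : ν × Fin (d + 1) → ℂ} {φ : (ν → ℕ) → Polynomial ℂ}
    (h : Sat β I (.cl (E + 1) dl i (L ++ [A])) (pq β i B L.length a b y c) (Fn φ))
    {κ : ℕ} (h1 : 1 ≤ κ) (h2 : κ ≤ dl) {b' : ν → ℕ} (hb : ∀ s, β s = i → b' s = 0) :
    ev0 φ (lf (msk β (insert i A) y) ^ E *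
      (lf (sv β L a) ^ (L.length * E) * (lf (zz β i c) ^ κ * mon ℂ b'))) = 0 := by
  refine tie_dh φ _ (lf (zh β i B L.length a b)) _ E L.length hE hL (tie_last hl hiB hAB h)
    (tie_sum hl h) _ ?_
  have h3 := h.2 hi κ h1 h2 b' hb
  rw [List.length_append, List.length_singleton, Nat.add_sub_cancel,
    show uu β (.cl (E + 1) dl i (L ++ [A])) (pq β i B L.length a b y c) = fun s =>
      (Polynomial.C (msk β (insert i A) y s) +
        Polynomial.X * Polynomial.C (zh β i B L.length a b s)) +
        Polynomial.X * Polynomial.C (sv β L a s) from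
      funext fun s => uu_pq hl (fun h => hiB (hAB h)) hiB hAB a b y c s,
    Pool.Agent.GD.lf_add, lf_tied, lf_XC, zz_pq hl, ← map_lf, ← mon_map Polynomial.C, ← map_pow,
    ← map_mul] at h3
  exact h3

end

end Pool.Agent.GD.AL

end

section

/-!
# General d, ALPHA, clusters: the kernel of the contraction by the direction, and the limit

`ker_Xp`: the functionals of `Xp s` killed by the direction satisfy the conditions of the cluster of the first
members.  `lim_Xp`: the contraction by `y^E` maps the limits of the solutions into `Xp`.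
-/

set_option autoImplicit false
set_option linter.unusedSectionVars false

namespace Pool.Agent.GD.AL

open Finset MvPolynomial Pool.Agent.H51.TB Pool.Agent.V7.ST
open Pool.Agent.V7 (msk)

section

variable {ν : Type} [Fintype ν] [DecidableEq ν] {d : ℕ} {β : ν → ℕ} {i E dl : ℕ} {B A : Finset ℕ}
  {L : List (Finset ℕ)}

variable {I' : Finset ℕ} {κ : Type} {m : κ → Kd} {p : κ → ν × Fin (d + 1) → ℂ}

/-- The kernel of the contraction by the direction. -/
theorem ker_Xp (hL : 1 ≤ L.length) (hiL : ∀ A' ∈ L, i ∉ A') (hiB : i ∉ B)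
    (hLB : ∀ A' ∈ L, A' ⊆ B) (hl : L.length ≤ d) {a : ℕ → ν → ℂ}
    {b c y : ν × Fin (d + 1) → ℂ} {s : ℕ} {G : Dl ν}
    (h : G ∈ Xp β I' m p i E dl L a (opt β (insert i A) y)
      (zh β i B L.length a fun s => b (s, 0)) (zz β i c) s)
    (h0 : ct (lf (zh β i B L.length a fun s => b (s, 0))) G = 0) :
    G ∈ XX β s I' (Sum.elim m (n3 E dl i L A B)) (Sum.elim p (q3 β i B L.length a b c y)) := by
  have h1 := mem_Yp.1 (Xp_le _ h)
  have h2 := (mem_Xp.1 h).2
  rw [mem_XX]
  refine ⟨(mem_XX.1 h1.1).1, ?_⟩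
  rintro (x | x)
  · exact (mem_XX.1 h1.1).2 x
  · fin_cases x
    · show Sat β I' (.cl (E + 1) dl i L) (pc β i B L.length a (fun s => b (s, 0)) c) G
      refine ⟨fun x hx => ?_, ?_⟩
      · have hx' : x.1 < L.length := hx
        have h4 := h1.2.1 x.1 hx'
        intro g
        show G (lf (pt β (.cl (E + 1) dl i L) x
          (pc β i B L.length a (fun s => b (s, 0)) c)) ^ (E + 1) * g) = 0
        rcases Nat.lt_or_ge (x.1 + 1) L.length with h3 | h3
        · rw [pt_pc_lt h3]
          exact LinearMap.congr_fun h4 g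
        · rw [pt_pc_eq hiL hiB hLB hl (by omega), lf_add]
          have h5 := ct_add_pow h0 (lf (avl β L a x.1)) (E + 1)
          rw [h4] at h5
          exact LinearMap.congr_fun h5 g
      · intro hi κ' h3 h4 b' hb'
        rw [uu_pc hL hiL hiB hLB hl, zz_pc hl, lf_add, Nat.add_sub_cancel]
        have h5 := ct_add_pow h0 (lf (sv β L a)) (L.length * E)
        have h6 := LinearMap.congr_fun h5 (lf (zz β i c) ^ κ' * mon ℂ b')
        rw [ct_apply, ct_apply] at h6
        rw [h6]
        exact h2 hi κ' h3 h4 b' hb'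
    · show Sat β I' (.ord 1 (insert i A)) y G
      rw [sat_ord, pow_one]
      exact h1.2.2
    · show Sat β I' (.ord 1 B) (pb β i L.length a b) G
      rw [sat_ord, pow_one, opt_pb]
      exact h0

/-! ### Constant positions -/

/-- The members of an object at a constant position. -/
theorem satC_mem {I : Finset ℕ} {k : Kd} {q : ν × Fin (d + 1) → ℂ} {φ : (ν → ℕ) → Polynomial ℂ}
    (h : Sat β I k (fun z => Polynomial.C (q z)) (Fn φ)) {x : Fin (d + 1)} (hx : x.1 < k.nm)
    (g : MvPolynomial ν ℂ) :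
    Fn φ (MvPolynomial.map Polynomial.C (lf (pt β k x q) ^ k.ex * g)) = 0 := by
  have h1 := h.1 x hx (MvPolynomial.map Polynomial.C g)
  rw [pt_C, ← map_lf, ← map_pow, ← map_mul] at h1
  exact h1

/-- The additional conditions of a cluster at a constant position. -/
theorem satC_add {I : Finset ℕ} {e dl i : ℕ} {As : List (Finset ℕ)} {q : ν × Fin (d + 1) → ℂ}
    {φ : (ν → ℕ) → Polynomial ℂ}
    (h : Sat β I (.cl e dl i As) (fun z => Polynomial.C (q z)) (Fn φ)) (hi : i ∈ I) {κ' : ℕ}
    (h1 : 1 ≤ κ') (h2 : κ' ≤ dl) {b : ν → ℕ} (hb : ∀ s, β s = i → b s = 0) :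
    Fn φ (MvPolynomial.map Polynomial.C (lf (uu β (.cl e dl i As) q) ^ (As.length * (e - 1)) *
      (lf (zz β i q) ^ κ' * mon ℂ b))) = 0 := by
  have h3 := h.2 hi κ' h1 h2 b hb
  rw [uu_C, zz_C, ← map_lf, ← map_lf, ← mon_map Polynomial.C, ← map_pow, ← map_pow, ← map_mul,
    ← map_mul] at h3
  exact h3

theorem sat_ev0 {I : Finset ℕ} {k : Kd} {q : ν × Fin (d + 1) → ℂ} {φ : (ν → ℕ) → Polynomial ℂ}
    (h : Sat β I k (fun z => Polynomial.C (q z)) (Fn φ)) : Sat β I k q (ev0 φ) := by
  refine ⟨fun x hx g => ?_, ?_⟩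
  · rw [ev0_C, satC_mem h hx, Polynomial.eval_zero]
  · cases k with
    | ord e A => trivial
    | cl e dl i As =>
      intro hi κ' h1 h2 b hb
      rw [ev0_C, satC_add h hi h1 h2 hb, Polynomial.eval_zero]

/-- The limit conditions of the multiples of `r`, which is killed together with the block `i`. -/
theorem tie_key' {φ : (ν → ℕ) → Polynomial ℂ} {yv zv : ν → ℂ}
    (h : ∀ g, Fn φ ((MvPolynomial.map Polynomial.C (lf yv) +
      C Polynomial.X * MvPolynomial.map Polynomial.C (lf zv)) ^ (E + 1) * g) = 0)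
    (hy : ∀ s, β s = i → yv s = 0) (r : MvPolynomial ν ℂ)
    (hr : ∀ b : ν → ℕ, (∀ s, β s = i → b s = 0) →
      Fn φ (MvPolynomial.map Polynomial.C (r * mon ℂ b)) = 0) (p : ℕ) {b : ν → ℕ}
    (hb : ∀ s, β s = i → b s = 0) : ev0 φ (lf yv ^ E * (lf zv ^ p * (r * mon ℂ b))) = 0 := by
  rw [← mul_assoc]
  refine tie_key φ (lf yv) (lf zv) E h (r * mon ℂ b) (fun n => ?_) p
  have h1 := kill_pow hy (Fc φ r) hr n b hb
  have h2 : Fc φ r (lf yv ^ n * mon ℂ b) = Fn φ (MvPolynomial.map Polynomial.C
      (lf yv ^ n * (r * mon ℂ b))) := by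
    show Fn φ (MvPolynomial.map Polynomial.C (r * (lf yv ^ n * mon ℂ b))) = _
    rw [show r * (lf yv ^ n * mon ℂ b) = lf yv ^ n * (r * mon ℂ b) by ring]
  rw [← h2]
  exact h1

end

end Pool.Agent.GD.AL

end

section

/-!
# General d, ALPHA: adding a cluster of at least two members (CL1)

`cl1`: `HI (S + cluster) ≤ HI (S + the other members as points + (T, e - 1)) +
∑_(s ≤ D - e + 1) HI_s (S + the cluster of the other members + y + z)`, for every configuration `S`.
-/

set_option autoImplicit false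
set_option linter.unusedSectionVars false

namespace Pool.Agent.GD.AL

open Finset MvPolynomial Pool.Agent.H51.TB Pool.Agent.V7.ST
open Pool.Agent.V7 (msk)

section

variable {ν : Type} [Fintype ν] [DecidableEq ν] {d : ℕ}

/-- Limits of solutions as functionals. -/
theorem lim_Dl {D : ℕ} (hD : D ≤ d) (β : ν → ℕ) (I : Finset ℕ) {κ : Type} [Fintype κ] (m : κ → Kd)
    (Q : κ → ν × Fin (d + 1) → Polynomial ℂ) (U : Submodule ℂ (Dl ν)) (hU : Module.Finite ℂ U)
    (h : ∀ φ : (ν → ℕ) → Polynomial ℂ, (∀ a, a ∉ Ex β D I → φ a = 0) →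
      (∀ x, Sat β I (m x) (Q x) (Fn φ)) → ev0 φ ∈ U) :
    HI d D β I ((univ : Finset κ).val.map m) ≤ Module.finrank ℂ U := by
  have h1 : Module.finrank ℂ (U.comap (toDl (Ex β D I))) ≤ Module.finrank ℂ U := by
    let j : U.comap (toDl (Ex β D I)) →ₗ[ℂ] U :=
      ((toDl (Ex β D I)).comp (U.comap (toDl (Ex β D I))).subtype).codRestrict U fun x => x.2
    refine LinearMap.finrank_le_finrank_of_injective (f := j) fun x y hxy => ?_
    exact Subtype.ext (toDl_inj _ (congrArg Subtype.val hxy))
  refine le_trans ?_ h1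
  show gM (LS d D β I) _ ≤ _
  rw [← gd_eq_gM]
  refine gd_lim (LS d D β I) m Q _ fun F hF => ?_
  have h2 := h (ext0 (Ex β D I) F) (fun a ha => ext0_not F ha) fun x =>
    (sat_iff hD β I (fun _ ha => Ex_sum ha) (m x) (Q x) F).1 (hF x)
  have h3 : toDl (Ex β D I) (fun e => (F e).eval 0) = ev0 (ext0 (Ex β D I) F) := by
    show Fn _ = Fn _
    congr 1
    funext a
    by_cases ha : a ∈ Ex β D I
    · rw [show ext0 (Ex β D I) F a = F ⟨a, ha⟩ from ext0_mem F ⟨a, ha⟩]
      exact ext0_mem (fun e => (F e).eval 0) ⟨a, ha⟩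
    · rw [ext0_not _ ha, ext0_not _ ha, Polynomial.eval_zero]
  show toDl (Ex β D I) (fun e => (F e).eval 0) ∈ U
  rw [h3]
  exact h2

variable {β : ν → ℕ} {i E dl : ℕ} {B A : Finset ℕ} {L : List (Finset ℕ)} {I : Finset ℕ} {κ : Type}
  {m : κ → Kd} {p : κ → ν × Fin (d + 1) → ℂ}

/-- The contraction by `y^E` of the limits. -/
theorem lim_Xp (hE : 1 ≤ E) (hL : 1 ≤ L.length) (hl : L.length + 1 ≤ d) (hiB : i ∉ B)
    (hAB : A ⊆ B) (hi : i ∈ I) {s D : ℕ} (hs : s + E = D) {φ : (ν → ℕ) → Polynomial ℂ}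
    (hφ : ∀ a, a ∉ Ex β D I → φ a = 0) {a : ℕ → ν → ℂ} {b c y : ν × Fin (d + 1) → ℂ}
    (hm : ∀ x, Sat β I (m x) (fun z => Polynomial.C (p x z)) (Fn φ))
    (hc : Sat β I (.cl (E + 1) dl i (L ++ [A]))
      (pq β i B L.length a (fun s => b (s, 0)) (fun s => y (s, 0)) c) (Fn φ)) :
    ct (lf (opt β (insert i A) y) ^ E) (ev0 φ) ∈ Xp β (I ∩ insert i A) m p i E dl L a
      (opt β (insert i A) y) (zh β i B L.length a fun s => b (s, 0)) (zz β i c) s := by
  subst hs
  have hΦ := ev0_Lv hφ
  have hyA : ∀ s, β s ∈ insert i A → opt β (insert i A) y s = 0 := fun s hs => opt_zero hs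
  have hzB : ∀ s, β s ∈ B → zh β i B L.length a (fun s => b (s, 0)) s = 0 := fun s hs => zh_zero hs
  have hlast := tie_last hl hiB hAB hc
  have h1 := Lv_ct_pow hyA hΦ
  have hyi : ∀ s, β s = i → opt β (insert i A) y s = 0 := fun s hs =>
    hyA s (mem_insert.2 (Or.inl hs))
  rw [mem_Xp]
  refine ⟨fun j hj => ?_, ?_⟩
  · rw [mem_Yp]
    refine ⟨?_, fun x hx => ?_, ?_⟩
    · rw [mem_XX]
      have h2 := Lv_ct_pow (k := j) (D := s - j) hzB (by
        rw [Nat.sub_add_cancel hj]
        exact h1)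
      refine ⟨fun b' hb' => ?_, fun x => ?_⟩
      · by_cases h3 : b' ∈ Ex β (s - j) (I ∩ insert i A ∩ B)
        · have h4 : ∀ s, β s = i → b' s = 0 := by
            by_contra h5
            push Not at h5
            obtain ⟨t, ht1, ht2⟩ := h5
            apply hb'
            rw [mem_Ex] at h3 ⊢
            refine ⟨h3.1, fun i' hi' => ?_⟩
            by_cases h6 : i' = i
            · exact ⟨t, h6 ▸ ht1, ht2⟩
            · refine h3.2 i' (Finset.mem_inter.2 ⟨hi', ?_⟩)
              exact hAB ((mem_insert.1 (Finset.mem_inter.1 hi').2).resolve_left h6)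
          have h5 := tie_key' (β := β) (i := i) hlast hyi 1 (fun b hb => by
            rw [one_mul, mon_map, Fn_mon, hφ, mul_zero]
            intro h6
            obtain ⟨t, ht1, ht2⟩ := (mem_Ex.1 h6).2 i hi
            exact ht2 (hb t ht1)) j h4
          rw [one_mul] at h5
          exact h5
        · exact h2 b' h3
      · have h3 := Sat_ct_pow hzB (Sat_ct_pow hyA (sat_ev0 (hm x)) E) j
        refine ⟨h3.1, ?_⟩
        have h4 := h3.2
        have h5 := hm x
        generalize m x = k at h4 h5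
        cases k with
        | ord e' A' => trivial
        | cl e' dl' i' As =>
          intro hi' κ' h6 h7 b' hb'
          by_cases h8 : i' = i
          · subst h8
            have h9 := tie_key' (β := β) (i := i') hlast hyi
              (lf (uu β (.cl e' dl' i' As) (p x)) ^ (As.length * (e' - 1)) *
                lf (zz β i' (p x)) ^ κ') (fun b hb => by
                rw [mul_assoc]
                exact satC_add h5 hi h6 h7 hb) j hb'
            rw [mul_assoc (lf (uu β (.cl e' dl' i' As) (p x)) ^ (As.length * (e' - 1)))] at h9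
            exact h9
          · refine h4 (Finset.mem_inter.2 ⟨hi', ?_⟩) κ' h6 h7 b' hb'
            exact hAB ((mem_insert.1 (Finset.mem_inter.1 hi').2).resolve_left h8)
    · have h2 : ct (lf (avl β L a x) ^ (E + 1)) (ev0 φ) = 0 := by
        refine LinearMap.ext fun g => ?_
        rw [ct_apply, ev0_C, map_mul (MvPolynomial.map Polynomial.C),
          map_pow (MvPolynomial.map Polynomial.C), tie_mem hl hc hx, Polynomial.eval_zero]
        rfl
      rw [ct_comm, ct_comm (lf (avl β L a x) ^ (E + 1)), h2, map_zero, map_zero]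
    · have h2 : ct (lf (opt β (insert i A) y) ^ (E + 1)) (ev0 φ) = 0 := by
        refine LinearMap.ext fun g => ?_
        have h3 := ev0_map φ ((MvPolynomial.map Polynomial.C (lf (opt β (insert i A) y)) +
          C Polynomial.X * MvPolynomial.map Polynomial.C
            (lf (zh β i B L.length a fun s => b (s, 0)))) ^ (E + 1) * MvPolynomial.map Polynomial.C g)
        have h5 : (Polynomial.evalRingHom (0 : ℂ)) Polynomial.X = 0 := by simp
        have h6 := hlast (MvPolynomial.map Polynomial.C g)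
        change Fn φ ((MvPolynomial.map Polynomial.C (lf (opt β (insert i A) y)) +
          C Polynomial.X * MvPolynomial.map Polynomial.C
            (lf (zh β i B L.length a fun s => b (s, 0)))) ^ (E + 1) *
              MvPolynomial.map Polynomial.C g) = 0 at h6
        have h7 : MvPolynomial.map (Polynomial.evalRingHom (0 : ℂ))
            ((MvPolynomial.map Polynomial.C (lf (opt β (insert i A) y)) +
          C Polynomial.X * MvPolynomial.map Polynomial.C
            (lf (zh β i B L.length a fun s => b (s, 0)))) ^ (E + 1) *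
              MvPolynomial.map Polynomial.C g) = lf (opt β (insert i A) y) ^ (E + 1) * g := by
          rw [map_mul, map_pow, map_add, map_mul, map_map_C, map_map_C, map_map_C,
            MvPolynomial.map_C, h5, C_0, zero_mul, add_zero]
        rw [h6, Polynomial.eval_zero, h7] at h3
        exact h3.symm
      rw [ct_comm (lf (opt β (insert i A) y)), ← ct_mul (lf (opt β (insert i A) y)), ← pow_succ',
        h2, map_zero]
  · intro _ κ' h2 h3 b' hb'
    rw [ct_apply]
    exact tie_add hl hL hE hiB hAB hi hc h2 h3 hb'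

/-! ### General positions -/

section gen

variable {R S : Type} [CommRing R] [CommRing S] {l : ℕ}

end gen

theorem map_unit {T : Type} (t : T) : (univ : Finset Unit).val.map (fun _ => t) = {t} := rfl

end

end Pool.Agent.GD.AL

end
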