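import Pool.Agent.H94.LP7.M15
import Pool.Agent.H94.LP7.M22
import Pool.Agent.H94.LP7.M37
import Pool.Agent.H94.LP7.M41
import Pool.Agent.H94.LP7.M53
import Pool.Agent.H94.LP7.M72

/-! The parts of this file: GD.AL.Cl2a_1, GD.AL.Tri_1, GD.AL.Cl2b, GD.AL.Cl2_1. -/

section

/-!
# General d, ALPHA, clusters: the contractions by the members of the groups (CL2, algebra)

`q b x`: the member `x < l` of the group `b < c`; `Qn q l b n = ∏_x (q b x)^(n x)`.
`Wt t s`: the solutions of degree `s` with the groups `b < t` killed and the other groups with the exponent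
`E + 1`, and `yv` killed.  `Eb b s`: all contractions by powers of the direction `zv b` are solutions again.
`Ut t s`: all contractions by `Qn` of the groups `b ≥ t` are of the level `I`.
-/

set_option autoImplicit false
set_option linter.unusedSectionVars false

namespace Pool.Agent.GD.AL

open Finset MvPolynomial Pool.Agent.H51.TB Pool.Agent.V7.ST
open Pool.Agent.V7 (msk)

section

variable {ν : Type} [Fintype ν] [DecidableEq ν] {d : ℕ}

variable {β : ν → ℕ} {I B : Finset ℕ} {i : ℕ} {q : ℕ → ℕ → ν → ℂ}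

theorem Lv_ct_Qn (hq : ∀ b x s, β s ∈ B → q b x s = 0) (l b : ℕ) (n : ℕ → ℕ) {D : ℕ} {G : Dl ν}
    (h : G ∈ Lv β (D + ∑ x ∈ range l, n x) I) (hI : I ∩ B = I.erase i) :
    ct (Qn q l b n) G ∈ Lv β D (I.erase i) := by
  have key : ∀ (l : ℕ) (D : ℕ), G ∈ Lv β (D + ∑ x ∈ range l, n x) I →
      ct (Qn q l b n) G ∈ Lv β D (I ∩ B) := by
    intro l
    induction l with
    | zero =>
      intro D h
      rw [sum_range_zero, add_zero] at h
      unfold Qn
      rw [prod_range_zero, ct_one]
      exact Lv_mono inter_subset_left h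
    | succ l ih =>
      intro D h
      unfold Qn
      rw [prod_range_succ, mul_comm, ct_mul]
      have h1 := ih (D + n l) (by
        rw [sum_range_succ] at h
        have e : D + n l + ∑ x ∈ range l, n x = D + (∑ x ∈ range l, n x + n l) := by ring
        rw [e]
        exact h)
      have h2 := Lv_ct_pow (q := q b l) (fun s hs => hq b l s hs) h1
      rw [inter_assoc, inter_self] at h2
      exact h2
  have h2 := key l D h
  rw [hI] at h2
  exact h2

theorem Sat_ct_Qn (hq : ∀ b x s, β s ∈ B → q b x s = 0) (l b : ℕ) (n : ℕ → ℕ) {G : Dl ν} {k : Kd}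
    {r : ν × Fin (d + 1) → ℂ} (h : Sat β I k r G) : Sat β (I ∩ B) k r (ct (Qn q l b n) G) := by
  induction l with
  | zero =>
    unfold Qn
    rw [prod_range_zero, ct_one]
    refine ⟨h.1, ?_⟩
    cases k with
    | ord e A => trivial
    | cl e dl i As => exact fun hi => h.2 (Finset.mem_inter.1 hi).1
  | succ l ih =>
    unfold Qn
    rw [prod_range_succ, mul_comm, ct_mul]
    have h2 := Sat_ct_pow (q := q b l) (fun s hs => hq b l s hs) ih (n l)
    rw [inter_assoc, inter_self] at h2
    exact h2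

/-- No additional conditions for the clusters created at `i`. -/
def NoD (i : ℕ) (k : Kd) : Prop := ∀ e dl As, k = .cl e dl i As → dl = 0

theorem sat_up {k : Kd} (hk : NoD i k) {r : ν × Fin (d + 1) → ℂ} {G : Dl ν}
    (h : Sat β (I.erase i) k r G) : Sat β I k r G := by
  refine ⟨h.1, ?_⟩
  cases k with
  | ord e A => trivial
  | cl e dl l As =>
    intro hl κ h1 h2 b hb
    by_cases hli : l = i
    · subst hli
      have h3 := hk e dl As rfl
      omega
    · exact h.2 (mem_erase.2 ⟨hli, hl⟩) κ h1 h2 b hb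

/-! ### The restriction to `L_i` -/

theorem rs_zero (hi : i ∈ I) {D : ℕ} {G : Dl ν} (h : G ∈ Lv β D I) : rsI β i G = 0 := by
  refine mon_ext fun b => ?_
  rw [rsI_apply, rename_mon Subtype.val_injective, h, LinearMap.zero_apply]
  intro h1
  obtain ⟨s, hs, h2⟩ := (mem_Ex.1 h1).2 i hi
  refine h2 (Function.extend_apply' _ _ _ ?_)
  rintro ⟨x, rfl⟩
  exact x.2 hs

theorem Lv_of_rs {D : ℕ} {G : Dl ν} (h : G ∈ Lv β D (I.erase i)) (h0 : rsI β i G = 0) :
    G ∈ Lv β D I := by
  intro b hb
  by_cases h1 : b ∈ Ex β D (I.erase i)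
  · have h2 : ∀ s, β s = i → b s = 0 := by
      by_contra hcon
      push Not at hcon
      obtain ⟨s, hs, hs'⟩ := hcon
      apply hb
      rw [mem_Ex] at h1 ⊢
      refine ⟨h1.1, fun l hl => ?_⟩
      by_cases hli : l = i
      · exact ⟨s, hli ▸ hs, hs'⟩
      · exact h1.2 l (mem_erase.2 ⟨hli, hl⟩)
    have h3 : rename Subtype.val (mon ℂ fun x : {s : ν // β s ≠ i} => b x.1) = mon ℂ b := by
      rw [rename_mon Subtype.val_injective]
      congr 1
      funext s
      by_cases hs : β s ≠ i
      · exact Subtype.val_injective.extend_apply (fun x : {s : ν // β s ≠ i} => b x.1) 0 ⟨s, hs⟩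
      · rw [not_not] at hs
        rw [Function.extend_apply' _ _ _ (by rintro ⟨x, rfl⟩; exact x.2 hs), h2 s hs]
        rfl
    have h4 := LinearMap.congr_fun h0 (mon ℂ fun x : {s : ν // β s ≠ i} => b x.1)
    rw [rsI_apply, h3] at h4
    exact h4
  · exact h b h1

/-! ### The spaces -/

variable (β I) {κ : Type} (m : κ → Kd) (p : κ → ν × Fin (d + 1) → ℂ) (E c l : ℕ)
  (q : ℕ → ℕ → ν → ℂ) (yv : ν → ℂ)

variable {β I m p E c l q yv}

/-- The degree and the conditions of a contraction. -/
theorem XX_ct_Qn (hq : ∀ b x s, β s ∈ B → q b x s = 0) (hI : I ∩ B = I.erase i) {b s k : ℕ}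
    (hk : k ≤ s) {n : ℕ → ℕ} (hn : n ∈ Nm l E k) {G : Dl ν} (h : G ∈ XX β s I m p) :
    ct (Qn q l b n) G ∈ XX β (s - k) (I.erase i) m p := by
  rw [mem_XX] at h ⊢
  refine ⟨Lv_ct_Qn hq l b n ?_ hI, fun a => ?_⟩
  · rw [(mem_Nm.1 hn).1.1, Nat.sub_add_cancel hk]
    exact h.1
  · rw [← hI]
    exact Sat_ct_Qn hq l b n (h.2 a)

theorem Vx_ct (hq : ∀ b x s, β s ∈ B → q b x s = 0) (hI : I ∩ B = I.erase i)
    (hm : ∀ a, NoD i (m a)) {t s r : ℕ} (ht : t < c) (hr : r < s) {n : ℕ → ℕ}
    (hn : n ∈ Nm l E (s - r)) {G : Dl ν} (h : G ∈ Vx β I m p E c l q yv t s r) :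
    ct (Qn q l t n) G ∈ Wt β I m p E c l q yv (t + 1) r := by
  obtain ⟨hU, hV⟩ := mem_Vx.1 h
  obtain ⟨hW, hU'⟩ := mem_Ut.1 hU
  obtain ⟨hX, hg, hy⟩ := mem_Wt.1 hW
  have hsr : s - (s - r) = r := by omega
  have h1 := XX_ct_Qn (b := t) hq hI (Nat.sub_le s r) hn hX
  rw [hsr, mem_XX] at h1
  have h2 := hU' t le_rfl ht (s - r) (by omega) (Nat.sub_le s r) n hn
  rw [hsr] at h2
  refine mem_Wt.2 ⟨mem_XX.2 ⟨h2, fun a => sat_up (hm a) (h1.2 a)⟩, fun b hb x hx => ?_, ?_⟩
  · rcases Nat.lt_trichotomy b t with hbt | hbt | hbt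
    · rw [if_pos (by omega), ct_comm]
      have h3 := hg b hb x hx
      rw [if_pos hbt] at h3
      rw [h3, map_zero]
    · subst hbt
      rw [if_pos (by omega), pow_one]
      obtain ⟨⟨hn1, hn2⟩, hn3⟩ := mem_Nm.1 hn
      by_cases hE : n x + 1 ≤ E
      · rcases Nat.eq_zero_or_pos r with h0 | h0
        · rw [h0] at h2
          exact Lv_zero_ct _ h2
        · rw [← ct_mul, Qn_mul hx]
          refine hV (r - 1) (by omega) _ (mem_Nm.2 ⟨⟨?_, fun y hy => ?_⟩, fun y hy => ?_⟩)
          · have h4 : ∑ y ∈ range l, (Pi.single x 1 : ℕ → ℕ) y = 1 := by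
              rw [sum_eq_single x]
              · exact Pi.single_eq_same _ _
              · intro y _ hyx
                exact Pi.single_eq_of_ne hyx _
              · intro h5
                exact absurd (mem_range.2 hx) h5
            simp only [Pi.add_apply]
            rw [sum_add_distrib, hn1, h4]
            omega
          · by_cases hyx : y = x
            · rw [hyx]; exact hx
            · rw [Pi.add_apply, Pi.single_eq_of_ne hyx, add_zero] at hy
              exact hn2 y hy
          · by_cases hyx : y = x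
            · subst hyx
              rw [Pi.add_apply, Pi.single_eq_same]
              exact hE
            · rw [Pi.add_apply, Pi.single_eq_of_ne hyx, add_zero]
              exact hn3 y hy
      · rw [← ct_mul, Qn_mul hx]
        have h3 := hg b hb x hx
        rw [if_neg (lt_irrefl b)] at h3
        refine Qn_zero hx (e := E + 1) ?_ h3
        rw [Pi.add_apply, Pi.single_eq_same]
        omega
    · rw [if_neg (by omega), ct_comm]
      have h3 := hg b hb x hx
      rw [if_neg (by omega)] at h3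
      rw [h3, map_zero]
  · rw [ct_comm, hy, map_zero]

theorem Vx_sum (hq : ∀ b x s, β s ∈ B → q b x s = 0) (hI : I ∩ B = I.erase i)
    (hm : ∀ a, NoD i (m a)) {t s : ℕ} (ht : t < c) (r : ℕ) (hr : r ≤ s) :
    Module.finrank ℂ (Ut β I m p E c l q yv t s) ≤
      Module.finrank ℂ (Vx β I m p E c l q yv t s r) +
        ∑ r' ∈ range r, rr l E (s - r') * Module.finrank ℂ (Wt β I m p E c l q yv (t + 1) r') := by
  classical
  induction r with
  | zero => rw [sum_range_zero, add_zero]; exact le_rfl
  | succ r ih =>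
    rw [sum_range_succ]
    have f1 : Module.Finite ℂ (Vx β I m p E c l q yv t s r) := by
      have := finite_Ut (β := β) (I := I) (m := m) (p := p) (E := E) (c := c) (l := l) (q := q)
        (yv := yv) t s
      exact Submodule.finiteDimensional_of_le fun G hG => (mem_Vx.1 hG).1
    have h1 := fin_step (Vx β I m p E c l q yv t s r) (Nm l E (s - r)) (fun n => ct (Qn q l t n))
      (fun _ => Wt β I m p E c l q yv (t + 1) r) (fun _ _ => finite_Wt (t + 1) r)
      (fun n hn G hG => Vx_ct hq hI hm ht (by omega) hn hG)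
    rw [sum_const, smul_eq_mul] at h1
    have h2 := ih (by omega)
    have h3 : Module.finrank ℂ (Vx β I m p E c l q yv t s (r + 1)) =
      Module.finrank ℂ (Vx β I m p E c l q yv t s r ⊓ ⨅ n ∈ Nm l E (s - r),
        LinearMap.ker (ct (Qn q l t n)) : Submodule ℂ (Dl ν)) := rfl
    unfold rr at *
    omega

/-- **One group.** -/
theorem Ut_step (hE : 1 ≤ E) (hq : ∀ b x s, β s ∈ B → q b x s = 0) (hI : I ∩ B = I.erase i)
    (hm : ∀ a, NoD i (m a)) {t s : ℕ} (ht : t < c) :
    Module.finrank ℂ (Ut β I m p E c l q yv t s) ≤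
      Module.finrank ℂ (Ut β I m p E c l q yv (t + 1) s) +
        ∑ r ∈ range s, rr l E (s - r) * Module.finrank ℂ (Wt β I m p E c l q yv (t + 1) r) := by
  refine (Vx_sum hq hI hm ht s le_rfl).trans (Nat.add_le_add_right ?_ _)
  have := finite_Ut (β := β) (I := I) (m := m) (p := p) (E := E) (c := c) (l := l) (q := q)
        (yv := yv) (t + 1) s
  refine Submodule.finrank_mono ?_
  intro G hG
  obtain ⟨hU, hV⟩ := mem_Vx.1 hG
  obtain ⟨hW, hU'⟩ := mem_Ut.1 hU
  obtain ⟨hX, hg, hy⟩ := mem_Wt.1 hW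
  refine mem_Ut.2 ⟨mem_Wt.2 ⟨hX, fun b hb x hx => ?_, hy⟩, fun b hb => hU' b (by omega)⟩
  rcases Nat.lt_trichotomy b t with hbt | hbt | hbt
  · rw [if_pos (by omega)]
    have h3 := hg b hb x hx
    rw [if_pos hbt] at h3
    exact h3
  · subst hbt
    rw [if_pos (by omega), pow_one]
    rcases Nat.eq_zero_or_pos s with h0 | h0
    · subst h0
      exact Lv_zero_ct _ (mem_XX.1 hX).1
    · have h3 := hV (s - 1) (by omega) (Pi.single x 1) (mem_Nm.2 ⟨⟨?_, fun y hy => ?_⟩,
        fun y _ => ?_⟩)
      · rw [Qn_single hx] at h3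
        exact h3
      · rw [sum_eq_single x]
        · rw [Pi.single_eq_same]
          omega
        · intro y _ hyx
          exact Pi.single_eq_of_ne hyx _
        · intro h5
          exact absurd (mem_range.2 hx) h5
      · by_cases hyx : y = x
        · rw [hyx]; exact hx
        · exact absurd (Pi.single_eq_of_ne hyx _) hy
      · by_cases hyx : y = x
        · subst hyx
          rw [Pi.single_eq_same]
          exact hE
        · rw [Pi.single_eq_of_ne hyx]
          exact Nat.zero_le _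
  · rw [if_neg (by omega)]
    have h3 := hg b hb x hx
    rw [if_neg (by omega)] at h3
    exact h3

/-- All groups. -/
theorem Ut_all (hE : 1 ≤ E) (hq : ∀ b x s, β s ∈ B → q b x s = 0) (hI : I ∩ B = I.erase i)
    (hm : ∀ a, NoD i (m a)) {s : ℕ} (t : ℕ) (ht : t ≤ c) :
    Module.finrank ℂ (Ut β I m p E c l q yv 0 s) ≤
      Module.finrank ℂ (Ut β I m p E c l q yv t s) + ∑ u ∈ range t,
        ∑ r ∈ range s, rr l E (s - r) * Module.finrank ℂ (Wt β I m p E c l q yv (u + 1) r) := by
  induction t with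
  | zero => rw [sum_range_zero, add_zero]
  | succ t ih =>
    rw [sum_range_succ]
    have h1 := ih (by omega)
    have h2 := Ut_step (yv := yv) (s := s) (l := l) (p := p) hE hq hI hm (t := t) (c := c) (by omega)
    omega

end

end Pool.Agent.GD.AL

end

section

/-!
# General d, ALPHA: the trace on `L_i`

`tri i k`: the objects of the trace on `L_i` of an object `k` (the blocks are not renumbered, the variables
are `{s // β s ≠ i}`).  `trI i k x`: the `x`-th of these objects, `PsI`: its position.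
-/

set_option autoImplicit false
set_option linter.unusedSectionVars false

namespace Pool.Agent.GD.AL

open Finset MvPolynomial Pool.Agent.H51.TB Pool.Agent.V7.ST
open Pool.Agent.V7 (msk)

/-! ### The multiset -/

/-! ### The positions -/

section

variable {ν : Type} [Fintype ν] [DecidableEq ν] {d : ℕ}

theorem psI_surj {J i : ℕ} (β : ν → ℕ) (k : Kd) (hk : k.Ok d J)
    (p : Fin (d + 1) → {s : ν // β s ≠ i} × Fin (d + 1) → ℂ) :
    ∃ (q : ν × Fin (d + 1) → ℂ) (δ : Fin (d + 1) → {s : ν // β s ≠ i} × Fin (d + 1) → ℂ),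
      ∀ x : Fin (d + 1), (trI i k x.1).isSome → ∀ z, PsI β i k x q (δ x) z = p x z := by
  classical
  -- the extension of a function from the image of `σ`
  have hext : ∀ (f : {s : ν // β s ≠ i} → Fin (d + 1) → ℂ), ∃ q : ν × Fin (d + 1) → ℂ,
      ∀ (s : {s : ν // β s ≠ i}) x, q (s.1, x) = f s x := by
    intro f
    refine ⟨fun w => if h : β w.1 ≠ i then f ⟨w.1, h⟩ w.2 else 0, fun s x => ?_⟩
    show (if h : β s.1 ≠ i then f ⟨s.1, h⟩ x else 0) = _
    rw [dif_pos s.2]
  cases k with
  | ord e A =>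
    obtain ⟨q, hq⟩ := hext fun s y => p 0 (s, y)
    refine ⟨q, p, fun x hx z => ?_⟩
    have hx0 : x = 0 := by
      by_contra h0
      have h1 : ¬ (x.1 = 0 ∧ i ∈ A) := fun h => h0 (Fin.ext h.1)
      simp only [trI, if_neg h1] at hx
      simp at hx
    subst hx0
    simp only [PsI]
    split_ifs with hz
    · rw [hq]
      obtain ⟨s, y⟩ := z
      have hz' : y = 0 := hz
      rw [hz']
    · rfl
  | cl e dl l As =>
    obtain ⟨he, hL, htr, hi, hA⟩ := hk
    have hLd := len_le he htr
    have hAl : ∀ A ∈ As, ∀ a ∈ A, a ≠ l := by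
      intro A hA' a ha
      exact (mem_erase.1 (hA A hA' ha)).1
    by_cases hij : l = i
    · -- a new cluster
      -- a member which does not vanish
      have hex : ∀ s : {s : ν // β s ≠ i}, ∃ y : Fin (d + 1), β s.1 ∉ inter As →
          y.1 < As.length ∧ β s.1 ∉ As.getD y.1 ∅ := by
        intro s
        by_cases h : β s.1 ∈ inter As
        · exact ⟨0, fun h' => absurd h h'⟩
        · have h' := h
          rw [mem_inter hL] at h'
          push Not at h'
          obtain ⟨A, hA1, hA2⟩ := h'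
          obtain ⟨y, hy, hyA⟩ := exists_idx hA1
          refine ⟨⟨y, by omega⟩, fun _ => ⟨hy, ?_⟩⟩
          rw [hyA]
          exact hA2
      choose y₀ hy₀ using hex
      obtain ⟨q, hq⟩ := hext fun s y => if y = y₀ s then p 0 (s, 0) else 0
      refine ⟨q, p, fun x hx z => ?_⟩
      have hx0 : x = 0 := by
        by_contra h0
        have h1 : ¬ (x.1 = 0) := fun h => h0 (Fin.ext h)
        simp only [trI, if_pos hij, if_neg h1] at hx
        simp at hx
      subst hx0
      simp only [PsI, if_pos hij]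
      split_ifs with hz
      · obtain ⟨s, y⟩ := z
        obtain ⟨hz1, hz2⟩ := hz
        have hz1' : y = 0 := hz1
        subst hz1'
        have h3 : β s.1 ∉ inter As := hz2
        obtain ⟨h4, h5⟩ := hy₀ s h3
        have hbi : ¬ β s.1 = l := fun h => s.2 (h.trans hij)
        show uu β (.cl e dl l As) q s.1 = p 0 (s, 0)
        unfold uu
        rw [sum_eq_single (y₀ s)]
        · show (if (y₀ s).1 < As.length then pt β (.cl e dl l As) (y₀ s) q s.1 else 0) = _
          rw [if_pos h4]
          show (if β s.1 ∈ As.getD (y₀ s).1 ∅ then 0 else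
            if β s.1 = l ∧ (y₀ s).1 + 1 = As.length then _ else q (s.1, y₀ s)) = _
          rw [if_neg h5, if_neg fun h => hbi h.1, hq, if_pos rfl]
        · intro x _ hx'
          show (if x.1 < As.length then pt β (.cl e dl l As) x q s.1 else 0) = 0
          by_cases h6 : x.1 < As.length
          · rw [if_pos h6]
            show (if β s.1 ∈ As.getD x.1 ∅ then 0 else
              if β s.1 = l ∧ x.1 + 1 = As.length then _ else q (s.1, x)) = _
            by_cases h7 : β s.1 ∈ As.getD x.1 ∅
            · rw [if_pos h7]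
            · rw [if_neg h7, if_neg fun h => hbi h.1, hq, if_neg hx']
          · rw [if_neg h6]
        · intro h
          exact absurd (mem_univ _) h
      · rfl
    · -- an old cluster
      by_cases hall : ∀ A ∈ As, i ∈ A
      · obtain ⟨q, hq⟩ := hext fun s y => p 0 (s, y)
        refine ⟨q, p, fun x hx z => ?_⟩
        have hx0 : x = 0 := by
          by_contra h0
          have h1 : ¬ (x.1 = 0) := fun h => h0 (Fin.ext h)
          simp only [trI, if_neg hij] at hx
          rw [if_pos hall, if_neg h1] at hx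
          simp at hx
        subst hx0
        simp only [PsI, if_neg hij]
        rw [if_pos hall, hq]
      · have hall' := hall
        push Not at hall'
        obtain ⟨A₀, hA₀, hjA₀⟩ := hall'
        obtain ⟨x₀, hx₀, hx₀A⟩ := exists_idx hA₀
        have hjx₀ : i ∉ As.getD x₀ ∅ := by
          rw [hx₀A]
          exact hjA₀
        -- the correction of the member `x₀`
        obtain ⟨q, hq⟩ := hext fun s y =>
          if β s.1 = l ∧ y.1 = x₀ ∧ x₀ + 1 < As.length then
            - (∑ y : Fin (d + 1), if y.1 + 1 = As.length then p y (s, 0) else 0) -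
              ∑ y : Fin (d + 1), if y.1 + 1 < As.length ∧ y.1 ≠ x₀ then p y (s, 0) else 0
          else p y (s, 0)
        refine ⟨q, p, fun x hx z => ?_⟩
        have hx1 : x.1 < As.length ∧ i ∈ As.getD x.1 ∅ := by
          by_contra h0
          simp only [trI, if_neg hij] at hx
          rw [if_neg hall, if_neg h0] at hx
          simp at hx
        obtain ⟨hxl, hxj⟩ := hx1
        have hxx₀ : x.1 ≠ x₀ := fun h => hjx₀ (h ▸ hxj)
        simp only [PsI, if_neg hij]
        rw [if_neg hall]
        split_ifs with hz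
        · obtain ⟨s, y⟩ := z
          obtain ⟨hz1, hz2⟩ := hz
          have hz1' : y = 0 := hz1
          subst hz1'
          have h3 : β s.1 ∉ As.getD x.1 ∅ := hz2
          show (if β s.1 ∈ As.getD x.1 ∅ then 0 else
            if β s.1 = l ∧ x.1 + 1 = As.length then
              - ∑ y : Fin (d + 1), if y.1 + 1 < As.length then q (s.1, y) else 0
            else q (s.1, x)) = p x (s, 0)
          rw [if_neg h3]
          by_cases hlast : β s.1 = l ∧ x.1 + 1 = As.length
          · rw [if_pos hlast]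
            obtain ⟨hb, hl⟩ := hlast
            have hx₀' : x₀ + 1 < As.length := by omega
            have h4 : ∀ y : Fin (d + 1), (if y.1 + 1 < As.length then q (s.1, y) else 0) =
                (if y = (⟨x₀, by omega⟩ : Fin (d + 1)) then q (s.1, ⟨x₀, by omega⟩) else 0) +
                  (if y.1 + 1 < As.length ∧ y.1 ≠ x₀ then p y (s, 0) else 0) := by
              intro y
              by_cases hy : y.1 = x₀
              · have hy' : y = (⟨x₀, by omega⟩ : Fin (d + 1)) := Fin.ext hy
                rw [if_pos (by omega), if_pos hy', if_neg fun h => h.2 hy, add_zero, hy']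
              · have hy' : y ≠ (⟨x₀, by omega⟩ : Fin (d + 1)) := fun h => hy (congrArg Fin.val h)
                rw [if_neg hy', zero_add]
                by_cases hy2 : y.1 + 1 < As.length
                · rw [if_pos hy2, if_pos ⟨hy2, hy⟩, hq, if_neg fun h => hy h.2.1]
                · rw [if_neg hy2, if_neg fun h => hy2 h.1]
            rw [sum_congr rfl fun y _ => h4 y, sum_add_distrib, sum_ite_eq' univ, if_pos (mem_univ _),
              hq, if_pos ⟨hb, rfl, hx₀'⟩]
            have h5 : ∑ y : Fin (d + 1), (if y.1 + 1 = As.length then p y (s, 0) else 0) =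
                p x (s, 0) := by
              rw [sum_eq_single x]
              · rw [if_pos hl]
              · intro y _ hy
                rw [if_neg]
                intro h
                exact hy (Fin.ext (by omega))
              · intro h
                exact absurd (mem_univ _) h
            rw [h5]
            ring
          · rw [if_neg hlast, hq, if_neg fun h => hxx₀ h.2.1]
        · rfl

/-! ### Restriction of functionals -/

/-- The power of the sum of the members of a cluster. -/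
theorem sat_uu {β : ν → ℕ} {I : Finset ℕ} {e dl l : ℕ} {As : List (Finset ℕ)} (he : 1 ≤ e)
    {q : ν × Fin (d + 1) → ℂ} {Φ : Dl ν} (h : Sat β I (.cl e dl l As) q Φ)
    (y : MvPolynomial ν ℂ) :
    Φ (lf (uu β (.cl e dl l As) q) ^ (As.length * (e - 1) + 1) * y) = 0 := by
  classical
  set F : Finset (Fin (d + 1)) := univ.filter fun x => x.1 < As.length with hF
  have hcard : F.card ≤ As.length := by
    have h1 : F.card ≤ (range As.length).card :=
      card_le_card_of_injOn (fun x => x.1) (fun x hx => by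
        have h2 := (mem_filter.1 hx).2
        exact mem_coe.2 (mem_range.2 h2)) fun x _ x' _ hxx => Fin.ext hxx
    rwa [card_range] at h1
  have h1 := sum_pow_mem (Ann Φ) (fun x : Fin (d + 1) => lf (pt β (.cl e dl l As) x q)) F e he
      (fun x hx => fun y => h.1 x (mem_filter.1 hx).2 y)
  have h2 : ∑ x ∈ F, lf (pt β (.cl e dl l As) x q) = lf (uu β (.cl e dl l As) q) := by
    rw [← GD.lf_sum]
    congr 1
    funext s
    rw [uu_cl, hF, sum_filter]
  rw [h2] at h1
  have h3 : As.length * (e - 1) + 1 = F.card * (e - 1) + 1 + (As.length - F.card) * (e - 1) := by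
    have h4 : As.length * (e - 1) = F.card * (e - 1) + (As.length - F.card) * (e - 1) := by
      rw [← add_mul, Nat.add_sub_cancel' hcard]
    omega
  rw [h3, pow_add, mul_assoc]
  exact h1 _

theorem sat_tri {J i : ℕ} {β : ν → ℕ} {I : Finset ℕ} (hi : i ∉ I) {k : Kd} (hk : k.Ok d J)
    {q : ν × Fin (d + 1) → ℂ} {Φ : Dl ν} (h : Sat β I k q Φ) : TSat β i I k q (rsI β i Φ) := by
  intro x k' hk' δ
  rcases k with ⟨e, A⟩ | ⟨e, dl, l, As⟩
  · simp only [trI] at hk'
    split_ifs at hk' with h1
    · obtain ⟨h1, h2⟩ := h1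
      cases hk'
      refine ⟨fun x' _ y => ?_, trivial⟩
      have h3 : pt (fun s : {s : ν // β s ≠ i} => β s.1) (.ord e A) x'
          (PsI β i (.ord e A) x q δ) = fun s => pt β (.ord e A) x q s.1 := by
        funext s
        simp only [pt, msk, PsI]
        rfl
      rw [h3]
      refine rs_pt (pt β (.ord e A) x q) ?_ ?_ y
      · intro s hs
        have h4 : β s ∈ A := hs.symm ▸ h2
        simp only [pt, msk, if_pos h4]
      · intro y
        exact h.1 x (by show x.1 < 1; omega) y
  · obtain ⟨he, hl, htr, hlJ, hAs⟩ := hk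
    have hlen : As.length ≤ d := len_le he htr
    have hiA : ∀ A ∈ As, l ∉ A := fun A hA h => (mem_erase.1 (hAs A hA h)).1 rfl
    by_cases hij : l = i
    · subst hij
      simp only [trI, if_true] at hk'
      split_ifs at hk' with h1
      · cases hk'
        refine ⟨fun x' _ y => ?_, trivial⟩
        have h3 : pt (fun s : {s : ν // β s ≠ l} => β s.1) (.ord (trx e dl As.length) (inter As)) x'
            (PsI β l (.cl e dl l As) x q δ) = fun s => uu β (.cl e dl l As) q s.1 := by
          funext s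
          simp only [pt, msk, PsI, if_true, true_and]
          by_cases h4 : β s.1 ∈ inter As
          · rw [if_pos h4, uu_cl]
            symm
            refine sum_eq_zero fun y _ => ?_
            split_ifs with h5
            · have h6 : As.getD y ∅ ∈ As := getD_mem h5
              have h7 := (mem_inter hl).1 h4 _ h6
              simp only [pt, msk, if_pos h7]
            · rfl
          · rw [if_neg h4, if_pos h4]
        rw [h3]
        refine rs_pt (uu β (.cl e dl l As) q) (fun s hs => uu_zero hl (by omega) hiA q hs) ?_ y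
        intro y
        have h5 := sat_uu (by omega) h
        show Φ (_ ^ (trx e dl As.length) * y) = 0
        unfold trx
        rw [pow_add, mul_assoc]
        exact h5 _
    · simp only [trI, if_neg hij] at hk'
      by_cases hall : ∀ A ∈ As, i ∈ A
      · -- old cluster on the subspace
        rw [if_pos hall] at hk'
        split_ifs at hk' with h1
        · cases hk'
          have hpsi : ∀ z, PsI β i (.cl e dl l As) x q δ z = q (z.1.1, z.2) := by
            intro z
            simp only [PsI, if_neg hij, if_pos hall]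
          have h3 : ∀ (y : Fin (d + 1)) (s : {s : ν // β s ≠ i}),
              pt (fun s : {s : ν // β s ≠ i} => β s.1) (.cl e dl l As) y
                (PsI β i (.cl e dl l As) x q δ) s = pt β (.cl e dl l As) y q s.1 := by
            intro y s
            simp only [pt, msk, hpsi]
          have h4 : ∀ (y : Fin (d + 1)), y.1 < As.length → ∀ s, β s = i →
              pt β (.cl e dl l As) y q s = 0 := by
            intro y hy s hs
            have h5 : β s ∈ As.getD y ∅ := hs.symm ▸ hall _ (getD_mem hy)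
            simp only [pt, msk, if_pos h5]
          have h5 : ∀ s, β s = i → uu β (.cl e dl l As) q s = 0 := by
            intro s hs
            rw [uu_cl]
            refine sum_eq_zero fun y _ => ?_
            split_ifs with h6
            · exact h4 y h6 s hs
            · rfl
          have h6 : ∀ s, β s = i → zz β l q s = 0 := by
            intro s hs
            have h7 : β s ≠ l := fun h => hij (h.symm.trans hs)
            simp only [zz, if_neg h7]
          refine ⟨fun x' hx' y => ?_, fun hlI κ h1 h2 b hb => ?_⟩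
          · rw [show pt (fun s : {s : ν // β s ≠ i} => β s.1) (.cl e dl l As) x'
              (PsI β i (.cl e dl l As) x q δ) = fun s => pt β (.cl e dl l As) x' q s.1 from
              funext fun s => h3 x' s]
            exact rs_pt (pt β (.cl e dl l As) x' q) (fun s hs => h4 x' hx' s hs)
              (fun y => h.1 x' hx' y) y
          · have e1 : uu (fun s : {s : ν // β s ≠ i} => β s.1) (.cl e dl l As)
                (PsI β i (.cl e dl l As) x q δ) = fun s => uu β (.cl e dl l As) q s.1 := by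
              funext s
              rw [uu_cl, uu_cl]
              refine sum_congr rfl fun y _ => ?_
              rw [h3]
            have e2 : zz (fun s : {s : ν // β s ≠ i} => β s.1) l
                (PsI β i (.cl e dl l As) x q δ) = fun s => zz β l q s.1 := by
              funext s
              simp only [zz, hpsi]
            have e3 : rename Subtype.val (lf (fun s : {s : ν // β s ≠ i} =>
                uu β (.cl e dl l As) q s.1) ^ (As.length * (e - 1)) *
                  (lf (fun s : {s : ν // β s ≠ i} => zz β l q s.1) ^ κ * mon ℂ b)) =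
                lf (uu β (.cl e dl l As) q) ^ (As.length * (e - 1)) *
                  (lf (zz β l q) ^ κ * mon ℂ (Function.extend Subtype.val b 0)) := by
              rw [map_mul, map_mul, map_pow, map_pow,
                ren_lf' (uu β (.cl e dl l As) q) h5, ren_lf' (zz β l q) h6,
                rename_mon Subtype.val_injective]
            rw [e1, e2, rsI_apply, e3]
            refine h.2 hlI κ h1 h2 _ fun s hs => ?_
            have h7 : β s ≠ i := fun h => hij (hs.symm.trans h)
            have h8 : Function.extend Subtype.val b 0 s = b ⟨s, h7⟩ :=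
              Subtype.val_injective.extend_apply b 0 ⟨s, h7⟩
            rw [h8]
            exact hb _ hs
      · -- old cluster partly on the subspace
        rw [if_neg hall] at hk'
        split_ifs at hk' with h1
        · obtain ⟨h1, h2⟩ := h1
          cases hk'
          refine ⟨fun x' _ y => ?_, trivial⟩
          have h3 : pt (fun s : {s : ν // β s ≠ i} => β s.1) (.ord e (As.getD x ∅)) x'
              (PsI β i (.cl e dl l As) x q δ) = fun s => pt β (.cl e dl l As) x q s.1 := by
            funext s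
            by_cases h4 : β s.1 ∈ As.getD x ∅
            · simp only [pt, msk, if_pos h4]
            · show (if β s.1 ∈ As.getD x ∅ then (0 : ℂ) else
                PsI β i (.cl e dl l As) x q δ (s, 0)) = pt β (.cl e dl l As) x q s.1
              rw [if_neg h4]
              simp only [PsI, if_neg hij, if_neg hall]
              simp only [true_and]
              rw [if_pos h4]
          rw [h3]
          refine rs_pt (pt β (.cl e dl l As) x q) ?_ (fun y => h.1 x h1 y) y
          intro s hs
          have h4 : β s ∈ As.getD x ∅ := hs.symm ▸ h2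
          simp only [pt, msk, if_pos h4]

theorem rs_XX {J i : ℕ} {β : ν → ℕ} {D : ℕ} {I : Finset ℕ} (hi : i ∉ I) {κ : Type} {m : κ → Kd}
    (hm : ∀ a, (m a).Ok d J) {p : κ → ν × Fin (d + 1) → ℂ} {Φ : Dl ν} (h : Φ ∈ XX β D I m p) :
    rsI β i Φ ∈ TX β i D I m p := by
  rw [mem_XX] at h
  rw [mem_TX]
  exact ⟨rs_Lv hi h.1, fun a => sat_tri hi (hm a) (h.2 a)⟩

/-! ### General positions -/

theorem PhI_surj {J : ℕ} (β : ν → ℕ) (i : ℕ) {κ : Type} (kk : κ → Kd) (hk : ∀ a, (kk a).Ok d J)
    (p : Sm (fun y : κ × Fin (d + 1) => trI i (kk y.1) y.2.1) →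
      {s : ν // β s ≠ i} × Fin (d + 1) → ℂ) :
    ∃ p' : (κ × Fin (d + 1)) ⊕ κ → ν × Fin (d + 1) → ℂ, ∀ y z,
      MvPolynomial.eval (fun x => p' x.1 x.2) (PhI β i kk y.1 z) = p y z := by
  classical
  have h1 : ∀ a : κ, ∃ (q : ν × Fin (d + 1) → ℂ)
      (δ : Fin (d + 1) → {s : ν // β s ≠ i} × Fin (d + 1) → ℂ),
      ∀ x : Fin (d + 1), ∀ hx : (trI i (kk a) x.1).isSome, ∀ z,
        PsI β i (kk a) x q (δ x) z = p ⟨(a, x), hx⟩ z := by
    intro a
    obtain ⟨q, δ, h2⟩ := psI_surj β (kk a) (hk a)
      (fun x => if hx : (trI i (kk a) x.1).isSome then p ⟨(a, x), hx⟩ else 0)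
    refine ⟨q, δ, fun x hx z => ?_⟩
    rw [h2 x hx z, dif_pos hx]
  choose q δ h1 using h1
  refine ⟨Sum.elim (fun y w => if h : β w.1 ≠ i then δ y.1 y.2 (⟨w.1, h⟩, w.2) else 0) q, ?_⟩
  rintro ⟨⟨a, x⟩, hx⟩ z
  rw [eval_PhI, ← h1 a x hx z]
  congr 1
  funext w
  show (if h : β w.1.1 ≠ i then δ a x (⟨w.1.1, h⟩, w.2) else 0) = _
  rw [dif_pos w.1.2]

/-- The dimension at general positions. -/
theorem gn_TX {J D : ℕ} (hD : D ≤ d) (β : ν → ℕ) (i : ℕ) (I : Finset ℕ) {κ : Type} [Fintype κ]
    (m : κ → Kd) (hm : ∀ a, (m a).Ok d J) :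
    Gn κ (ν × Fin (d + 1)) fun p => Module.finrank ℂ (TX β i D I m p) ≤
      HI d D (fun s : {s : ν // β s ≠ i} => β s.1) I (((univ : Finset κ).val.map m).bind (tri i)) := by
  classical
  have g1 := gn_XX hD (fun s : {s : ν // β s ≠ i} => β s.1) I
    (Sm.k fun y : κ × Fin (d + 1) => trI i (m y.1) y.2.1)
  rw [map_trI m hm] at g1
  have g2 := Pool.Agent.KZ.gn_sub
    (fun y : Sm (fun y : κ × Fin (d + 1) => trI i (m y.1) y.2.1) => PhI β i m y.1)
    (PhI_surj β i m hm) g1
  obtain ⟨δ, g3⟩ := g2.fix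
  refine g3.mono fun p hp => ?_
  have := finite_XX (fun s : {s : ν // β s ≠ i} => β s.1) D I
    (Sm.k fun y : κ × Fin (d + 1) => trI i (m y.1) y.2.1)
    (fun y z => MvPolynomial.eval (fun x => Sum.elim δ p x.1 x.2) (PhI β i m y.1 z))
  exact (Submodule.finrank_mono (TX_le β i I m (Sum.elim δ p))).trans hp.le

end

end Pool.Agent.GD.AL

end

section

/-!
# General d, ALPHA, clusters: the intersection of the spaces `Eb` (CL2, codimension)
-/

set_option autoImplicit false
set_option linter.unusedSectionVars false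

namespace Pool.Agent.GD.AL

open Finset MvPolynomial Pool.Agent.H51.TB Pool.Agent.V7.ST
open Pool.Agent.V7 (msk)

section

variable {ν : Type} [Fintype ν] [DecidableEq ν] {d : ℕ}
variable {β : ν → ℕ} {I B : Finset ℕ} {i : ℕ} {κ : Type} {m : κ → Kd}
  {p : κ → ν × Fin (d + 1) → ℂ} {E c l : ℕ} {q : ℕ → ℕ → ν → ℂ} {yv : ν → ℂ}

theorem lf_zd (b : ℕ) : lf (zd l q b) = (-1 : ℂ) • ∑ x ∈ range l, lf (q b x) := by
  rw [← GD.lf_sum, ← lf_smul]
  congr 1
  funext s
  rw [Pi.smul_apply, smul_eq_mul, neg_one_mul]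
  rfl

/-- The contraction by a power of the direction. -/
theorem ct_zd_pow {b k : ℕ} {G : Dl ν} (h : ∀ x < l, ct (lf (q b x) ^ (E + 1)) G = 0) :
    ct (lf (zd l q b) ^ k) G = ((-1 : ℂ) ^ k) • ∑ n ∈ Nm l E k,
      (Nat.multinomial (range l) n : ℂ) • ct (Qn q l b n) G := by
  rw [lf_zd, smul_pow, ct_smul, sum_pow_eq_sum_piAntidiag]
  congr 1
  have h1 : ∀ n ∈ piAntidiag (range l) k, ct ((Nat.multinomial (range l) n : MvPolynomial ν ℂ) *
      ∏ x ∈ range l, lf (q b x) ^ n x) G =
      (Nat.multinomial (range l) n : ℂ) • ct (Qn q l b n) G := by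
    intro n _
    rw [show (Nat.multinomial (range l) n : MvPolynomial ν ℂ) * ∏ x ∈ range l, lf (q b x) ^ n x =
      (Nat.multinomial (range l) n : ℂ) • Qn q l b n by
        rw [smul_eq_C_mul, map_natCast]
        rfl, ct_smul]
  rw [ct_sum, sum_congr rfl h1]
  symm
  refine sum_subset (filter_subset _ _) fun n hn hn' => ?_
  have h2 : ∃ x < l, E + 1 ≤ n x := by
    by_contra hcon
    push Not at hcon
    refine hn' (mem_filter.2 ⟨hn, fun x hx => ?_⟩)
    have h3 := hcon x (mem_range.1 hx)
    omega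
  obtain ⟨x, hx, hx'⟩ := h2
  rw [Qn_zero hx hx' (h x hx), smul_zero]

/-- The relation between the restrictions of the contractions of degree `k`. -/
theorem rel_Eb (hi : i ∈ I) {b s k : ℕ} (hb : b < c) (hk : k ≤ s) {G : Dl ν}
    (h : G ∈ Eb β I m p E c l q yv b s) :
    ∑ n ∈ Nm l E k, (Nat.multinomial (range l) n : ℂ) • rsI β i (ct (Qn q l b n) G) = 0 := by
  have h0 := mem_Eb.1 h 0 (Nat.zero_le _)
  rw [pow_zero, ct_one, Nat.sub_zero] at h0
  have h1 : ∀ x < l, ct (lf (q b x) ^ (E + 1)) G = 0 := fun x hx => by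
    have h2 := (mem_Wt.1 h0).2.1 b hb x hx
    rwa [if_neg (Nat.not_lt_zero b)] at h2
  have h2 := rs_zero (i := i) hi (mem_XX.1 (mem_Wt.1 (mem_Eb.1 h k hk)).1).1
  rw [ct_zd_pow h1, map_smul, map_sum] at h2
  have h3 := (smul_eq_zero.1 h2).resolve_left (pow_ne_zero _ (neg_ne_zero.2 one_ne_zero))
  rw [← h3]
  exact sum_congr rfl fun n _ => (map_smul _ _ _).symm

/-- **The codimension.** -/
theorem Eb_codim {J : ℕ} (hi : i ∈ I) (hq : ∀ b x s, β s ∈ B → q b x s = 0)
    (hI : I ∩ B = I.erase i) (hok : ∀ a, (m a).Ok d J)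
    {y : ν × Fin (d + 1) → ℂ} (hy : yv = opt β (insert i B) y) (hBJ : insert i B ⊆ range J)
    (hd : 1 ≤ d) {s : ℕ} (U : Submodule ℂ (Dl ν)) (hUf : Module.Finite ℂ U)
    (hU : ∀ G ∈ U, G ∈ Wt β I m p E c l q yv 0 s ∧ ∀ b < c, G ∈ Eb β I m p E c l q yv b s) :
    Module.finrank ℂ U ≤ Module.finrank ℂ (Ut β I m p E c l q yv 0 s) +
      c * ∑ r ∈ range s, (rr l E (s - r) - 1) * Module.finrank ℂ (TX β i r (I.erase i)
        (Sum.elim m fun _ : Unit => Kd.ord 1 (insert i B)) (Sum.elim p fun _ : Unit => y)) := by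
  classical
  have hii : i ∉ I.erase i := fun h => (mem_erase.1 h).1 rfl
  -- a distinguished exponent
  have hn0 : ∀ r, ∃ n₀ : ℕ → ℕ, (Nm l E (s - r)).Nonempty → n₀ ∈ Nm l E (s - r) := by
    intro r
    by_cases h : (Nm l E (s - r)).Nonempty
    · obtain ⟨n₀, hn₀⟩ := h
      exact ⟨n₀, fun _ => hn₀⟩
    · exact ⟨0, fun h' => absurd h' h⟩
  choose n₀ hn₀ using hn0
  set TXr : ℕ → Submodule ℂ (Dl {s : ν // β s ≠ i}) := fun r => TX β i r (I.erase i)
    (Sum.elim m fun _ : Unit => Kd.ord 1 (insert i B)) (Sum.elim p fun _ : Unit => y) with hTX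
  have hTXf : ∀ r, Module.Finite ℂ (TXr r) := by
    intro r
    have := finite_Lv (fun s : {s : ν // β s ≠ i} => β s.1) r (I.erase i)
    exact Submodule.finiteDimensional_of_le inf_le_left
  let S : Finset (Σ _ : ℕ × ℕ, ℕ → ℕ) :=
    (range c ×ˢ range s).sigma fun x => (Nm l E (s - x.2)).erase (n₀ x.2)
  have h1 := fin_step U S (fun x => rsI β i ∘ₗ ct (Qn q l x.1.1 x.2)) (fun x => TXr x.1.2)
    (fun x _ => hTXf x.1.2) (by
      rintro ⟨⟨b, r⟩, n⟩ hx G hG
      obtain ⟨hbr, hn⟩ := mem_sigma.1 hx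
      obtain ⟨hb, hr⟩ := mem_product.1 hbr
      have hb' : b < c := mem_range.1 hb
      have hr' : r < s := mem_range.1 hr
      have hn' : n ∈ Nm l E (s - r) := mem_of_mem_erase hn
      have h2 := mem_Wt.1 (hU G hG).1
      have h3 := XX_ct_Qn (b := b) hq hI (Nat.sub_le s r) hn' h2.1
      have h4 : s - (s - r) = r := by omega
      rw [h4, mem_XX] at h3
      show rsI β i (ct (Qn q l b n) G) ∈ TXr r
      refine rs_XX (J := J) hii ?_ (mem_XX.2 ⟨h3.1, ?_⟩)
      · rintro (a | a)
        · exact hok a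
        · exact ⟨le_rfl, hd, hBJ⟩
      · rintro (a | a)
        · exact h3.2 a
        · show Sat β (I.erase i) (.ord 1 (insert i B)) y (ct (Qn q l b n) G)
          rw [sat_ord, pow_one, ← hy, ct_comm, h2.2.2, map_zero])
  have h2 : ∑ x ∈ S, Module.finrank ℂ (TXr x.1.2) =
      c * ∑ r ∈ range s, (rr l E (s - r) - 1) * Module.finrank ℂ (TXr r) := by
    rw [sum_sigma, sum_product]
    have h3 : ∀ b ∈ range c, ∑ r ∈ range s, ∑ _n ∈ (Nm l E (s - r)).erase (n₀ r),
        Module.finrank ℂ (TXr r) = ∑ r ∈ range s, (rr l E (s - r) - 1) *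
          Module.finrank ℂ (TXr r) := by
      intro b _
      refine sum_congr rfl fun r _ => ?_
      rw [sum_const, smul_eq_mul]
      congr 1
      by_cases h : (Nm l E (s - r)).Nonempty
      · exact card_erase_of_mem (hn₀ r h)
      · rw [not_nonempty_iff_eq_empty] at h
        unfold rr
        rw [h, erase_empty, card_empty]
    rw [sum_congr rfl h3, sum_const, card_range, smul_eq_mul]
  rw [h2] at h1
  refine h1.trans (Nat.add_le_add_right ?_ _)
  have := finite_Ut (β := β) (I := I) (m := m) (p := p) (E := E) (c := c) (l := l) (q := q)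
        (yv := yv) 0 s
  refine Submodule.finrank_mono ?_
  rintro G ⟨hG, hG'⟩
  have hW := (hU G hG).1
  refine mem_Ut.2 ⟨hW, fun b _ hb k hk1 hk2 n hn => ?_⟩
  have hker : ∀ r < s, ∀ n ∈ Nm l E (s - r), n ≠ n₀ r → rsI β i (ct (Qn q l b n) G) = 0 := by
    intro r hr n hn hne
    rw [SetLike.mem_coe, Submodule.mem_iInf] at hG'
    have h3 := hG' ⟨(b, r), n⟩
    rw [Submodule.mem_iInf] at h3
    exact h3 (mem_sigma.2 ⟨mem_product.2 ⟨mem_range.2 hb, mem_range.2 hr⟩, mem_erase.2 ⟨hne, hn⟩⟩)
  set r := s - k with hr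
  have hrs : r < s := by omega
  have hk : s - r = k := by omega
  have h0 : rsI β i (ct (Qn q l b n) G) = 0 := by
    by_cases hne : n = n₀ r
    · have h3 := rel_Eb hi hb hk2 ((hU G hG).2 b hb)
      rw [sum_eq_single n] at h3
      · refine (smul_eq_zero.1 h3).resolve_left (Nat.cast_ne_zero.2 ?_)
        exact (Nat.multinomial_pos _ _).ne'
      · intro n' hn' hne'
        rw [hker r hrs n' (by rw [hk]; exact hn') (by rw [← hne]; exact hne'), smul_zero]
      · intro h4
        exact absurd hn h4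
    · exact hker r hrs n (by rw [hk]; exact hn) hne
  exact Lv_of_rs (mem_XX.1 (XX_ct_Qn (b := b) hq hI hk2 hn (mem_Wt.1 hW).1)).1 h0

end

end Pool.Agent.GD.AL

end

section

/-!
# General d, ALPHA, clusters: a plain cluster with general members (CL2)

`cl2`: for `c` groups of `l` points of the kind `(E + 1, B)`, `i ∉ B`, `I - i ⊆ B`, and a configuration `S`
without additional conditions of clusters created at `i`.
-/

set_option autoImplicit false
set_option linter.unusedSectionVars false

namespace Pool.Agent.GD.AL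

open Finset MvPolynomial Pool.Agent.H51.TB Pool.Agent.V7.ST
open Pool.Agent.V7 (msk)

/-! ### Multisets -/

section

variable {ν : Type} [Fintype ν] [DecidableEq ν] {d : ℕ}
variable {β : ν → ℕ} {I B : Finset ℕ} {i : ℕ} {κ : Type}

/-- CL2 for families. -/
theorem cl2_fam {D E l c J : ℕ} (hD : D ≤ d) (hE : 1 ≤ E) (hED : E ≤ D) (hl : 1 ≤ l)
    (hld : l + 1 ≤ d) (hi : i ∈ I) (hiB : i ∉ B) (hIB : I.erase i ⊆ B)
    (hBJ : insert i B ⊆ range J) [Fintype κ] (m : κ → Kd) (hok : ∀ a, (m a).Ok d J)
    (hm : ∀ a, NoD i (m a)) :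
    (c : ℤ) * HI d D β I (.cl (E + 1) 0 i (List.replicate l B ++ [B]) ::ₘ
      (Multiset.replicate ((c - 1) * l) (.ord (E + 1) B) + (univ : Finset κ).val.map m)) ≤
    ((c : ℤ) - 1) * HI d D β I ((univ : Finset (κ ⊕ ((Fin c × Fin l) ⊕ Unit))).val.map
      (mF m B i (fun _ => E + 1) (E + 1))) +
    HI d D β I ((univ : Finset (κ ⊕ ((Fin c × Fin l) ⊕ Unit))).val.map
      (mF m B i (fun _ => E + 1) E)) +
    (HI d (D - E) β I ((univ : Finset (κ ⊕ ((Fin c × Fin l) ⊕ Unit))).val.map
      (mF m B i (fun x => if x.1.1 < c then 1 else E + 1) 1)) +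
    (∑ t ∈ range c, ∑ r ∈ range (D - E), rr l E (D - E - r) *
      HI d r β I ((univ : Finset (κ ⊕ ((Fin c × Fin l) ⊕ Unit))).val.map
        (mF m B i (fun x => if x.1.1 < t + 1 then 1 else E + 1) 1)) +
    c * ∑ r ∈ range (D - E), (rr l E (D - E - r) - 1) *
      HI d r (fun s : {s : ν // β s ≠ i} => β s.1) (I.erase i)
        (((univ : Finset (κ ⊕ Unit)).val.map
          (Sum.elim m fun _ : Unit => Kd.ord 1 (insert i B))).bind (tri i)) : ℕ) : ℕ) := by
  classical
  have hI : I ∩ B = I.erase i := by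
    ext x
    rw [Finset.mem_inter, mem_erase]
    constructor
    · rintro ⟨h1, h2⟩
      exact ⟨fun h => hiB (h ▸ h2), h1⟩
    · rintro ⟨h1, h2⟩
      exact ⟨h2, hIB (mem_erase.2 ⟨h1, h2⟩)⟩
  have hI' : I ∩ insert i B = I := by
    refine inter_eq_left.2 fun x hx => ?_
    by_cases h : x = i
    · exact mem_insert.2 (Or.inl h)
    · exact mem_insert_of_mem (hIB (mem_erase.2 ⟨h, hx⟩))
  set s := D - E with hs
  -- general positions
  have g1 := gn_XX (d := d) hD β I (mF m (c := c) (l := l) B i (fun _ => E + 1) (E + 1))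
  have g2 := gn_XX (d := d) hD β I (mF m (c := c) (l := l) B i (fun _ => E + 1) E)
  have g3 := Gn.all (range (c + 1) ×ˢ range (s + 1)) (P := fun x
      (P : κ ⊕ ((Fin c × Fin l) ⊕ Unit) → ν × Fin (d + 1) → ℂ) => Module.finrank ℂ
        (XX β x.2 I (mF m B i (fun y => if y.1.1 < x.1 then 1 else E + 1) 1) P) =
          HI d x.2 β I ((univ : Finset (κ ⊕ ((Fin c × Fin l) ⊕ Unit))).val.map
            (mF m B i (fun y => if y.1.1 < x.1 then 1 else E + 1) 1))) fun x hx => by
    have h1 := mem_range.1 (mem_product.1 hx).2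
    exact gn_XX (d := d) (by omega) β I _
  let emb : κ ⊕ Unit → κ ⊕ ((Fin c × Fin l) ⊕ Unit) := Sum.map id Sum.inr
  have hemb : Function.Injective emb := by
    rintro (x | x) (y | y) h
    · exact congrArg Sum.inl (Sum.inl.inj h)
    · exact absurd h (by simp [emb])
    · exact absurd h (by simp [emb])
    · rfl
  have g4 := Gn.all (range s) (P := fun r
      (P : κ ⊕ ((Fin c × Fin l) ⊕ Unit) → ν × Fin (d + 1) → ℂ) => Module.finrank ℂ
        (TX β i r (I.erase i) (Sum.elim m fun _ : Unit => Kd.ord 1 (insert i B))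
          fun x => P (emb x)) ≤ HI d r (fun s : {s : ν // β s ≠ i} => β s.1) (I.erase i)
        (((univ : Finset (κ ⊕ Unit)).val.map
          (Sum.elim m fun _ : Unit => Kd.ord 1 (insert i B))).bind (tri i))) fun r hr => by
    rw [mem_range] at hr
    refine (gn_TX (d := d) (J := J) (by omega) β i (I.erase i)
      (Sum.elim m fun _ : Unit => Kd.ord 1 (insert i B)) ?_).comap emb hemb
    rintro (a | a)
    · exact hok a
    · exact ⟨le_rfl, by omega, hBJ⟩
  obtain ⟨P, ⟨⟨hP1, hP2⟩, hP3⟩, hP4⟩ := (((g1.and g2).and g3).and g4).exists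
  set p : κ → ν × Fin (d + 1) → ℂ := fun x => P (Sum.inl x) with hp
  let q : ℕ → ℕ → ν → ℂ := fun b x => if h : b < c ∧ x < l then
    opt β B (P (Sum.inr (Sum.inl (⟨b, h.1⟩, ⟨x, h.2⟩)))) else 0
  set y := P (Sum.inr (Sum.inr ())) with hy
  set yv := opt β (insert i B) y with hyv
  have hq : ∀ b x s, β s ∈ B → q b x s = 0 := by
    intro b x s hs
    show (if h : b < c ∧ x < l then
      opt β B (P (Sum.inr (Sum.inl (⟨b, h.1⟩, ⟨x, h.2⟩)))) else 0) s = 0
    split_ifs
    · exact opt_zero hs
    · rfl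
  have hqx : ∀ x : Fin c × Fin l, q x.1.1 x.2.1 = opt β B (P (Sum.inr (Sum.inl x))) := by
    intro x
    exact dif_pos ⟨x.1.2, x.2.2⟩
  -- the dimensions
  have hW : ∀ t ≤ c, ∀ r ≤ s, Module.finrank ℂ (Wt β I m p E c l q yv t r) =
      HI d r β I ((univ : Finset (κ ⊕ ((Fin c × Fin l) ⊕ Unit))).val.map
        (mF m B i (fun x => if x.1.1 < t then 1 else E + 1) 1)) := by
    intro t ht r hr
    have hset : Wt β I m p E c l q yv t r =
        XX β r I (mF m B i (fun x => if x.1.1 < t then 1 else E + 1) 1) P := ?_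
    · rw [hset]
      exact hP3 (t, r) (mem_product.2 ⟨mem_range.2 (by omega), mem_range.2 (by omega)⟩)
    ext G
    rw [mem_Wt, mem_XX, mem_XX]
    constructor
    · rintro ⟨⟨h1, h2⟩, h3, h4⟩
      refine ⟨h1, ?_⟩
      rintro (x | x | x)
      · exact h2 x
      · show Sat β I (.ord (if x.1.1 < t then 1 else E + 1) B) (P (Sum.inr (Sum.inl x))) G
        rw [sat_ord, ← hqx]
        exact h3 x.1.1 x.1.2 x.2.1 x.2.2
      · show Sat β I (.ord 1 (insert i B)) y G
        rw [sat_ord, pow_one]
        exact h4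
    · rintro ⟨h1, h2⟩
      refine ⟨⟨h1, fun x => h2 (Sum.inl x)⟩, fun b hb x hx => ?_, ?_⟩
      · have h3 : Sat β I (.ord (if b < t then 1 else E + 1) B)
          (P (Sum.inr (Sum.inl (⟨b, hb⟩, ⟨x, hx⟩)))) G := h2 (Sum.inr (Sum.inl (⟨b, hb⟩, ⟨x, hx⟩)))
        rw [sat_ord, ← hqx] at h3
        exact h3
      · have h3 : Sat β I (.ord 1 (insert i B)) y G := h2 (Sum.inr (Sum.inr ()))
        rw [sat_ord, pow_one] at h3
        exact h3
  let A0 : Submodule ℂ (Dl ν) := XX β D I (Sum.elim m fun _ : Fin c × Fin l => Kd.ord (E + 1) B)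
    (Sum.elim p fun x => P (Sum.inr (Sum.inl x)))
  have hA0m : ∀ G, G ∈ A0 ↔ G ∈ XX β D I m p ∧
      ∀ b < c, ∀ x < l, ct (lf (q b x) ^ (E + 1)) G = 0 := by
    intro G
    show G ∈ XX β D I _ _ ↔ _
    rw [mem_XX, mem_XX]
    constructor
    · rintro ⟨h1, h2⟩
      refine ⟨⟨h1, fun x => h2 (Sum.inl x)⟩, fun b hb x hx => ?_⟩
      have h3 : Sat β I (.ord (E + 1) B)
          (P (Sum.inr (Sum.inl (⟨b, hb⟩, ⟨x, hx⟩)))) G := h2 (Sum.inr (⟨b, hb⟩, ⟨x, hx⟩))
      rw [sat_ord, ← hqx] at h3
      exact h3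
    · rintro ⟨⟨h1, h2⟩, h3⟩
      refine ⟨h1, ?_⟩
      rintro (x | x)
      · exact h2 x
      · show Sat β I (.ord (E + 1) B) (P (Sum.inr (Sum.inl x))) G
        rw [sat_ord, ← hqx]
        exact h3 x.1.1 x.1.2 x.2.1 x.2.2
  let Ax : ℕ → Submodule ℂ (Dl ν) := fun e => A0 ⊓ LinearMap.ker (ct (lf yv ^ e))
  have fA0 : Module.Finite ℂ A0 := finite_XX _ _ _ _ _
  have fAx : ∀ e, Module.Finite ℂ (Ax e) := fun e => Submodule.finiteDimensional_of_le inf_le_left
  have hAx : ∀ e, Ax e = XX β D I (mF m B i (fun _ => E + 1) e) P := by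
    intro e
    ext G
    show G ∈ A0 ⊓ LinearMap.ker (ct (lf yv ^ e)) ↔ _
    rw [Submodule.mem_inf, hA0m, mem_XX, mem_XX]
    constructor
    · rintro ⟨⟨⟨h1, h2⟩, h3⟩, h4⟩
      refine ⟨h1, ?_⟩
      rintro (x | x | x)
      · exact h2 x
      · show Sat β I (.ord (E + 1) B) (P (Sum.inr (Sum.inl x))) G
        rw [sat_ord, ← hqx]
        exact h3 x.1.1 x.1.2 x.2.1 x.2.2
      · show Sat β I (.ord e (insert i B)) y G
        rw [sat_ord]
        exact h4
    · rintro ⟨h1, h2⟩
      refine ⟨⟨⟨h1, fun x => h2 (Sum.inl x)⟩, fun b hb x hx => ?_⟩, ?_⟩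
      · have h3 : Sat β I (.ord (E + 1) B)
          (P (Sum.inr (Sum.inl (⟨b, hb⟩, ⟨x, hx⟩)))) G := h2 (Sum.inr (Sum.inl (⟨b, hb⟩, ⟨x, hx⟩)))
        rw [sat_ord, ← hqx] at h3
        exact h3
      · have h3 : Sat β I (.ord e (insert i B)) y G := h2 (Sum.inr (Sum.inr ()))
        rw [sat_ord] at h3
        exact h3
  let Im : Submodule ℂ (Dl ν) := (Ax (E + 1)).map (ct (lf yv ^ E))
  have hAxk : Ax (E + 1) ⊓ LinearMap.ker (ct (lf yv ^ E)) = Ax E := by
    ext G
    constructor
    · rintro ⟨⟨h1, -⟩, h2⟩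
      exact ⟨h1, h2⟩
    · rintro ⟨h1, h2⟩
      refine ⟨⟨h1, ?_⟩, h2⟩
      show ct (lf yv ^ (E + 1)) G = 0
      have h4 : ct (lf yv ^ E) G = 0 := h2
      rw [pow_succ', ct_mul, h4, map_zero]
  have hdI : Module.finrank ℂ (Ax (E + 1)) = Module.finrank ℂ Im + Module.finrank ℂ (Ax E) := by
    have := fAx (E + 1)
    rw [← hAxk]
    exact rk (Ax (E + 1)) (ct (lf yv ^ E))
  have fIm : Module.Finite ℂ Im := by
    have := fAx (E + 1)
    exact Module.Finite.map (Ax (E + 1)) (ct (lf yv ^ E))
  let EB : ℕ → Submodule ℂ (Dl ν) := fun b => Eb β I m p E c l q yv b s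
  -- the limit
  have hlim : ∀ b < c, (HI d D β I (.cl (E + 1) 0 i (List.replicate l B ++ [B]) ::ₘ
      (Multiset.replicate ((c - 1) * l) (.ord (E + 1) B) + (univ : Finset κ).val.map m)) : ℤ) ≤
      Module.finrank ℂ (Ax E) + Module.finrank ℂ (Im ⊓ EB b : Submodule ℂ (Dl ν)) := by
    intro b hb
    let R : Submodule ℂ (Dl ν) := Ax (E + 1) ⊓ (EB b).comap (ct (lf yv ^ E))
    have f1 := fAx (E + 1)
    have f2 : Module.Finite ℂ R := Submodule.finiteDimensional_of_le inf_le_left
    have h1 := rk R (ct (lf yv ^ E))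
    have h2 : R.map (ct (lf yv ^ E)) = Im ⊓ EB b := by
      ext x
      constructor
      · rintro ⟨g, ⟨hg, hg'⟩, rfl⟩
        exact ⟨⟨g, hg, rfl⟩, hg'⟩
      · rintro ⟨⟨g, hg, rfl⟩, hg'⟩
        exact ⟨g, ⟨hg, hg'⟩, rfl⟩
    have h3 : R ⊓ LinearMap.ker (ct (lf yv ^ E)) = Ax E := by
      rw [← hAxk]
      ext g
      constructor
      · rintro ⟨⟨h4, -⟩, h5⟩
        exact ⟨h4, h5⟩
      · rintro ⟨h4, h5⟩
        refine ⟨⟨h4, ?_⟩, h5⟩
        have h6 : ct (lf yv ^ E) g = 0 := h5
        show ct (lf yv ^ E) g ∈ EB b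
        rw [h6]
        exact Submodule.zero_mem _
    rw [h2, h3] at h1
    -- the members of the group
    let a : ℕ → ν → ℂ := fun x => if h : x < l then
      fun s => P (Sum.inr (Sum.inl (⟨b, hb⟩, ⟨x, h⟩))) (s, 0) else 0
    have hlen : (List.replicate l B).length = l := List.length_replicate
    have hav : ∀ x < l, avl β (List.replicate l B) a x = q b x := by
      intro x hx
      have h4 : (List.replicate l B).getD x ∅ = B := by
        rw [List.getD_eq_getElem _ _ (by rw [hlen]; exact hx), List.getElem_replicate]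
      have h5 : a x = fun s => P (Sum.inr (Sum.inl (⟨b, hb⟩, ⟨x, hx⟩))) (s, 0) := dif_pos hx
      have h6 : q b x = opt β B (P (Sum.inr (Sum.inl (⟨b, hb⟩, ⟨x, hx⟩)))) := dif_pos ⟨hb, hx⟩
      unfold avl
      rw [h4, h5, h6]
      rfl
    let bp : ν × Fin (d + 1) → ℂ := fun z => - ∑ x ∈ range l, a x z.1
    have hzv : zh β i B (List.replicate l B).length a (fun s => bp (s, 0)) = zd l q b := by
      funext s
      unfold zh zd
      rw [hlen]
      by_cases h4 : β s ∈ B
      · rw [if_pos h4, sum_eq_zero fun x _ => hq b x s h4, neg_zero]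
      · have h5 : ∑ x ∈ range l, a x s = ∑ x ∈ range l, q b x s := by
          refine sum_congr rfl fun x hx => ?_
          rw [← hav x (mem_range.1 hx)]
          have h6 : (List.replicate l B).getD x ∅ = B := by
            rw [List.getD_eq_getElem _ _ (by rw [hlen]; exact mem_range.1 hx),
              List.getElem_replicate]
          show a x s = if β s ∈ (List.replicate l B).getD x ∅ then 0 else a x s
          rw [h6, if_neg h4]
        rw [if_neg h4]
        show (if β s = i then - ∑ x ∈ range l, a x s else - ∑ x ∈ range l, a x s) = _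
        rw [ite_self, h5]
    have h4 : HI d D β I ((univ : Finset ((κ ⊕ {x : Fin c × Fin l // x.1.1 ≠ b}) ⊕ Unit)).val.map
        (Sum.elim (Sum.elim m fun _ => .ord (E + 1) B) fun _ : Unit =>
          .cl (E + 1) 0 i (List.replicate l B ++ [B]))) ≤ Module.finrank ℂ R := by
      refine lim_Dl hD β I _ (Sum.elim (fun x z => Polynomial.C
        ((Sum.elim p fun x : {x : Fin c × Fin l // x.1.1 ≠ b} => P (Sum.inr (Sum.inl x.1))) x z))
        fun _ : Unit => pq β i B (List.replicate l B).length a (fun s => bp (s, 0))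
          (fun s => y (s, 0)) 0) R f2 ?_
      intro φ hφ hsat
      have hms : ∀ x, Sat β I ((Sum.elim m fun _ : {x : Fin c × Fin l // x.1.1 ≠ b} =>
          Kd.ord (E + 1) B) x) (fun z => Polynomial.C ((Sum.elim p
            fun x : {x : Fin c × Fin l // x.1.1 ≠ b} => P (Sum.inr (Sum.inl x.1))) x z)) (Fn φ) :=
        fun x => hsat (Sum.inl x)
      have hcl := hsat (Sum.inr ())
      change Sat β I (.cl (E + 1) 0 i (List.replicate l B ++ [B]))
        (pq β i B (List.replicate l B).length a (fun s => bp (s, 0)) (fun s => y (s, 0)) 0)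
          (Fn φ) at hcl
      have hlim := lim_Xp (m := Sum.elim m fun _ : {x : Fin c × Fin l // x.1.1 ≠ b} =>
          Kd.ord (E + 1) B) (p := Sum.elim p fun x : {x : Fin c × Fin l // x.1.1 ≠ b} =>
            P (Sum.inr (Sum.inl x.1))) (L := List.replicate l B) (A := B) (B := B) (s := s) hE
          (by rw [hlen]; exact hl) (by rw [hlen]; exact hld) hiB subset_rfl hi (by omega) hφ hms hcl
      rw [hI', hzv] at hlim
      have hown : ∀ x < l, ct (lf (q b x) ^ (E + 1)) (ev0 φ) = 0 := by
        intro x hx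
        rw [← hav x hx]
        refine LinearMap.ext fun g => ?_
        rw [ct_apply, ev0_C, map_mul (MvPolynomial.map Polynomial.C),
          map_pow (MvPolynomial.map Polynomial.C),
          tie_mem (by rw [hlen]; exact hld) hcl (by rw [hlen]; exact hx), Polynomial.eval_zero]
        rfl
      have hA : ev0 φ ∈ A0 := by
        rw [hA0m, mem_XX]
        refine ⟨⟨ev0_Lv hφ, fun x => sat_ev0 (hms (Sum.inl x))⟩, fun b' hb' x hx => ?_⟩
        by_cases hbb : b' = b
        · subst hbb
          exact hown x hx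
        · have h5 : Sat β I (.ord (E + 1) B) (P (Sum.inr (Sum.inl (⟨b', hb'⟩, ⟨x, hx⟩)))) (ev0 φ) :=
            sat_ev0 (hms (Sum.inr ⟨(⟨b', hb'⟩, ⟨x, hx⟩), hbb⟩))
          rw [sat_ord, ← hqx] at h5
          exact h5
      have hEb : ct (lf yv ^ E) (ev0 φ) ∈ EB b := by
        refine mem_Eb.2 fun j hj => ?_
        have h5 := mem_Yp.1 ((mem_Xp.1 hlim).1 j hj)
        obtain ⟨h6, h7, h8⟩ := h5
        rw [mem_XX] at h6
        refine mem_Wt.2 ⟨mem_XX.2 ⟨h6.1, fun x => h6.2 (Sum.inl x)⟩, fun b' hb' x hx => ?_, h8⟩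
        rw [if_neg (Nat.not_lt_zero b')]
        by_cases hbb : b' = b
        · subst hbb
          have h9 := h7 x (by rw [hlen]; exact hx)
          rw [hav x hx] at h9
          exact h9
        · have h9 : Sat β I (.ord (E + 1) B) (P (Sum.inr (Sum.inl (⟨b', hb'⟩, ⟨x, hx⟩)))) _ :=
            h6.2 (Sum.inr ⟨(⟨b', hb'⟩, ⟨x, hx⟩), hbb⟩)
          rw [sat_ord, ← hqx] at h9
          exact h9
      refine ⟨⟨hA, ?_⟩, hEb⟩
      have h5 := (mem_Wt.1 (mem_Eb.1 hEb 0 (Nat.zero_le _))).2.2
      rw [pow_zero, ct_one, ← ct_mul, ← pow_succ'] at h5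
      exact h5
    have h5 : (univ : Finset ((κ ⊕ {x : Fin c × Fin l // x.1.1 ≠ b}) ⊕ Unit)).val.map
        (Sum.elim (Sum.elim m fun _ => Kd.ord (E + 1) B) fun _ : Unit =>
          Kd.cl (E + 1) 0 i (List.replicate l B ++ [B])) =
        .cl (E + 1) 0 i (List.replicate l B ++ [B]) ::ₘ
      (Multiset.replicate ((c - 1) * l) (.ord (E + 1) B) + (univ : Finset κ).val.map m) := by
      rw [map_elim, map_elim, Pool.Agent.V7.ST.map_const, card_ne hb, map_unit, add_comm,
        Multiset.singleton_add, add_comm ((univ : Finset κ).val.map m)]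
    rw [h5] at h4
    have h6 : Module.finrank ℂ R ≤ Module.finrank ℂ (Ax E) +
      Module.finrank ℂ (Im ⊓ EB b : Submodule ℂ (Dl ν)) := by omega
    exact_mod_cast h4.trans h6
  have hsum := sum_le_sum fun b (hb : b ∈ range c) => hlim b (mem_range.1 hb)
  rw [sum_const, card_range, nsmul_eq_mul, sum_add_distrib, sum_const, card_range, nsmul_eq_mul]
    at hsum
  have hcap := sum_inf_le Im EB c
  -- the intersection
  have hint : Module.finrank ℂ (CapU Im EB c) ≤
      Module.finrank ℂ (Wt β I m p E c l q yv c s) +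
      (∑ t ∈ range c, ∑ r ∈ range s, rr l E (s - r) *
        Module.finrank ℂ (Wt β I m p E c l q yv (t + 1) r) +
      c * ∑ r ∈ range s, (rr l E (s - r) - 1) * Module.finrank ℂ (TX β i r (I.erase i)
        (Sum.elim m fun _ : Unit => Kd.ord 1 (insert i B)) (Sum.elim p fun _ : Unit => y))) := by
    have f1 : Module.Finite ℂ (CapU Im EB c) :=
      Submodule.finiteDimensional_of_le fun x hx => (mem_CapU.1 hx).1
    have h1 := Eb_codim (J := J) (c := c) (l := l) (E := E) (s := s) hi hq hI hok hyv hBJ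
      (by omega) (CapU Im EB c) f1 (fun G hG => by
        obtain ⟨⟨g, hg, rfl⟩, h2⟩ := mem_CapU.1 hG
        refine ⟨?_, h2⟩
        obtain ⟨hg1, hg2⟩ := hg
        have h3 := (hA0m g).1 hg1
        have hDs : D = s + E := by omega
        have h4 := Lv_ct_pow (q := yv) (A := insert i B) (fun s hs => opt_zero hs) (D := s) (k := E)
          (by rw [← hDs]; exact (mem_XX.1 h3.1).1)
        rw [hI'] at h4
        refine mem_Wt.2 ⟨mem_XX.2 ⟨h4, fun x => ?_⟩, fun b hb x hx => ?_, ?_⟩
        · have h5 := Sat_ct_pow (q := yv) (A := insert i B) (fun s hs => opt_zero hs)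
            ((mem_XX.1 h3.1).2 x) E
          rw [hI'] at h5
          exact h5
        · rw [if_neg (Nat.not_lt_zero b), ct_comm, h3.2 b hb x hx, map_zero]
        · rw [← ct_mul, ← pow_succ']
          exact hg2)
    have h2 := Ut_all (yv := yv) (s := s) (l := l) (p := p) hE hq hI hm (c := c) c le_rfl
    have f2 := finite_Wt (β := β) (I := I) (m := m) (p := p) (E := E) (c := c) (l := l) (q := q)
      (yv := yv) c s
    have h3 : Module.finrank ℂ (Ut β I m p E c l q yv c s) ≤
        Module.finrank ℂ (Wt β I m p E c l q yv c s) :=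
      Submodule.finrank_mono inf_le_left
    omega
  have hT : ∀ r ∈ range s, (rr l E (s - r) - 1) * Module.finrank ℂ (TX β i r (I.erase i)
        (Sum.elim m fun _ : Unit => Kd.ord 1 (insert i B)) (Sum.elim p fun _ : Unit => y)) ≤
      (rr l E (s - r) - 1) * HI d r (fun s : {s : ν // β s ≠ i} => β s.1) (I.erase i)
        (((univ : Finset (κ ⊕ Unit)).val.map
          (Sum.elim m fun _ : Unit => Kd.ord 1 (insert i B))).bind (tri i)) := by
    intro r hr
    refine Nat.mul_le_mul_left _ ?_
    have h1 := hP4 r hr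
    have h2 : (fun x => P (emb x)) = Sum.elim p fun _ : Unit => y := by
      funext x
      rcases x with x | x
      · rfl
      · rfl
    rw [h2] at h1
    exact h1
  have hint2 := hint.trans (Nat.add_le_add_left (Nat.add_le_add_left
    (Nat.mul_le_mul_left c (sum_le_sum hT)) _) _)
  rw [hW c le_rfl s le_rfl, sum_congr rfl fun t ht => sum_congr rfl fun r hr => by
    rw [hW (t + 1) (mem_range.1 ht) r (mem_range.1 hr).le]] at hint2
  rw [hAx (E + 1), hP1] at hdI
  rw [hAx E, hP2] at hdI hsum
  have hint3 : (Module.finrank ℂ (CapU Im EB c) : ℤ) ≤ _ := Int.ofNat_le.2 hint2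
  have hdI' : (HI d D β I ((univ : Finset (κ ⊕ ((Fin c × Fin l) ⊕ Unit))).val.map
      (mF m B i (fun _ => E + 1) (E + 1))) : ℤ) = Module.finrank ℂ Im +
      HI d D β I ((univ : Finset (κ ⊕ ((Fin c × Fin l) ⊕ Unit))).val.map
      (mF m B i (fun _ => E + 1) E)) := by exact_mod_cast hdI
  rw [hdI']
  have hfin := hsum.trans (add_le_add_right (hcap.trans (add_le_add_right hint3 _)) _)
  refine hfin.trans (le_of_eq ?_)
  ring

theorem map_mF {c l : ℕ} [Fintype κ] (m : κ → Kd) (x e : ℕ) :
    (univ : Finset (κ ⊕ ((Fin c × Fin l) ⊕ Unit))).val.map (mF m B i (fun _ => x) e) =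
      .ord e (insert i B) ::ₘ (Multiset.replicate (c * l) (.ord x B) +
        (univ : Finset κ).val.map m) := by
  unfold mF
  rw [map_elim, map_elim, Pool.Agent.V7.ST.map_const, map_unit, Fintype.card_prod, Fintype.card_fin,
    Fintype.card_fin, ← Multiset.singleton_add]
  abel

theorem map_mF' {c l t : ℕ} (ht : t ≤ c) [Fintype κ] (m : κ → Kd) (x y e : ℕ) :
    (univ : Finset (κ ⊕ ((Fin c × Fin l) ⊕ Unit))).val.map
      (mF m B i (fun z => if z.1.1 < t then x else y) e) =
      .ord e (insert i B) ::ₘ (Multiset.replicate (t * l) (.ord x B) +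
        (Multiset.replicate ((c - t) * l) (.ord y B) + (univ : Finset κ).val.map m)) := by
  unfold mF
  have h1 : (fun z : Fin c × Fin l => Kd.ord (if z.1.1 < t then x else y) B) =
      fun z => if z.1.1 < t then Kd.ord x B else Kd.ord y B := by
    funext z
    split_ifs <;> rfl
  rw [map_elim, map_elim, h1, map_groups ht, map_unit, ← Multiset.singleton_add]
  abel

/-- **CL2**: a plain cluster with members which vanish on all blocks of `I` except `i`. -/
theorem cl2 {D E l c J : ℕ} (hD : D ≤ d) (hE : 1 ≤ E) (hED : E ≤ D) (hl : 1 ≤ l)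
    (hld : l + 1 ≤ d) (hi : i ∈ I) (hiB : i ∉ B) (hIB : I.erase i ⊆ B)
    (hBJ : insert i B ⊆ range J) (ms : Multiset Kd) (hok : ∀ k ∈ ms, k.Ok d J)
    (hm : ∀ k ∈ ms, NoD i k) :
    (c : ℤ) * HI d D β I (.cl (E + 1) 0 i (List.replicate l B ++ [B]) ::ₘ
      (Multiset.replicate ((c - 1) * l) (.ord (E + 1) B) + ms)) ≤
    ((c : ℤ) - 1) * HI d D β I (.ord (E + 1) (insert i B) ::ₘ
      (Multiset.replicate (c * l) (.ord (E + 1) B) + ms)) +
    HI d D β I (.ord E (insert i B) ::ₘ (Multiset.replicate (c * l) (.ord (E + 1) B) + ms)) +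
    (HI d (D - E) β I (.ord 1 (insert i B) ::ₘ (Multiset.replicate (c * l) (.ord 1 B) + ms)) +
    (∑ t ∈ range c, ∑ r ∈ range (D - E), rr l E (D - E - r) *
      HI d r β I (.ord 1 (insert i B) ::ₘ (Multiset.replicate ((t + 1) * l) (.ord 1 B) +
        (Multiset.replicate ((c - (t + 1)) * l) (.ord (E + 1) B) + ms))) +
    c * ∑ r ∈ range (D - E), (rr l E (D - E - r) - 1) *
      HI d r (fun s : {s : ν // β s ≠ i} => β s.1) (I.erase i)
        ((Kd.ord 1 (insert i B) ::ₘ ms).bind (tri i)) : ℕ) : ℕ) := by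
  obtain ⟨m, hm0, -⟩ := exists_conf (LS d D β I) ms
  have hmem : ∀ a, m a ∈ ms := by
    intro a
    rw [← hm0]
    exact Multiset.mem_map_of_mem _ (mem_univ a)
  have h := cl2_fam (β := β) (c := c) (l := l) hD hE hED hl hld hi hiB hIB hBJ m
    (fun a => hok _ (hmem a)) fun a => hm _ (hmem a)
  have h1 : ∀ t ∈ range c, ∀ r ∈ range (D - E), rr l E (D - E - r) *
      HI d r β I ((univ : Finset (Fin ms.toList.length ⊕ ((Fin c × Fin l) ⊕ Unit))).val.map
        (mF m B i (fun x => if x.1.1 < t + 1 then 1 else E + 1) 1)) = rr l E (D - E - r) *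
      HI d r β I (.ord 1 (insert i B) ::ₘ (Multiset.replicate ((t + 1) * l) (.ord 1 B) +
        (Multiset.replicate ((c - (t + 1)) * l) (.ord (E + 1) B) + ms))) := by
    intro t ht r _
    rw [map_mF' (mem_range.1 ht), hm0]
  rw [map_mF, map_mF, map_mF' le_rfl, sum_congr rfl fun t ht => sum_congr rfl (h1 t ht),
    map_elim, map_unit, hm0, Nat.sub_self, zero_mul, Multiset.replicate_zero, zero_add,
    add_comm ms, Multiset.singleton_add] at h
  exact h

end

end Pool.Agent.GD.AL

end
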