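import Pool.Agent.H94.LP7.H18.FatBasic
import Pool.Agent.H94.LP7.M11
import Pool.Agent.H94.LP7.M12
import Pool.Agent.H94.LP7.M14

/-! The parts of this file: H21.NX.Conv, GD.AL.H1, GD.AL.BTd, GD.AL.P1, GD.ST.Add, GD.BE.Rel, GD.BE.Cov. -/

section

/-!
# Module Conv: conversions between `fatForms` and `GI`/`GM`

Templates: `sat_of_vanishes`, `exists_special` (H18/Ex/Final).
-/

namespace Pool.Agent.H21.NX

open Finset MvPolynomial Pool.Agent.H18.Fat Pool.Agent.H18.Ex

namespace ConvX

theorem mem_Sx_coe {n d : ℕ} {α : Fin n →₀ ℕ} : (⇑α : Fin n → ℕ) ∈ Sx (Fin n) d ↔ α ∈ mons n d := by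
  rw [mem_Sx, mem_mons, Finsupp.degree_eq_sum]

theorem symm_coe {n : ℕ} (α : Fin n →₀ ℕ) : Finsupp.equivFunOnFinite.symm (⇑α) = α := by
  ext
  rfl

theorem finite_fat' {r d : ℕ} {ι : Type} (p : ι → Fin (r + 1) → ℂ) (m : ι → ℕ) :
    Module.Finite ℂ (fatForms r d p m) := by
  have h1 : fatForms r d p m ≤ LinearMap.range (toPoly (r + 1) d) := fun F hF =>
    ⟨_, exists_toPoly hF.1⟩
  exact Module.Finite.of_injective (Submodule.inclusion h1) (Submodule.inclusion_injective h1)

end ConvX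

open ConvX

/-- `ell n (σ + 1) = binom(σ + n, n)` exponents (`card_mons`, or stars and bars). -/
theorem card_Sx (n σ : ℕ) : (Sx (Fin (n + 1)) σ).card = ell n (σ + 1) := by
  unfold ell
  rw [show σ + 1 + n - 1 = σ + n by omega, ← card_mons]
  symm
  apply card_bij (fun (α : Fin (n + 1) →₀ ℕ) _ => (⇑α : Fin (n + 1) → ℕ))
  · intro α hα
    exact mem_Sx_coe.2 hα
  · intro α _ β _ h
    exact DFunLike.coe_injective h
  · intro a ha
    refine ⟨Finsupp.equivFunOnFinite.symm a, ?_, rfl⟩
    rw [← mem_Sx_coe]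
    exact ha

theorem Sx_resid {ι : Type} [Fintype ι] [DecidableEq ι] (σ : ℕ) (hσ : 1 ≤ σ) (l : ι)
    (a : ι → ℕ) : a ∈ Sx ι (σ - 1) ↔ Function.update a l (a l + 1) ∈ Sx ι σ := by
  rw [mem_Sx, mem_Sx, Finset.sum_update_of_mem (mem_univ l),
    ← Finset.add_sum_erase univ a (mem_univ l), Finset.sdiff_singleton_eq_erase]
  omega

/-- A function on `Sx` satisfying the conditions is the coefficient function of a form in
`fatForms`, which is zero. -/
theorem GI_of_fat {n d : ℕ} {κ : Type} (p : κ → Fin (n + 1) → ℂ) (m : κ → ℕ)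
    (h : Module.finrank ℂ (fatForms n d p m) = 0) :
    GI (Sx (Fin (n + 1)) d) fun i => Kind.free (m i) := by
  classical
  refine ⟨p, fun f hf => ?_⟩
  have hfin := finite_fat' (d := d) p m
  have hbot : fatForms n d p m = ⊥ := Submodule.finrank_eq_zero.1 h
  have hmem : toPoly (n + 1) d (fun α => f (⇑α.1)) ∈ fatForms n d p m := by
    refine ⟨toPoly_isHomogeneous _, fun i β hβ => ?_⟩
    rw [coeff_shift_toPoly]
    have h1 := hf i (⇑β) (by
      rw [Finsupp.degree_eq_sum] at hβ
      exact hβ)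
    rw [← h1]
    apply sum_bij (fun (α : mons (n + 1) d) _ => (⇑α.1 : Fin (n + 1) → ℕ))
    · intro α _
      exact mem_Sx_coe.2 α.2
    · intro α _ α' _ hαα
      exact Subtype.ext (DFunLike.coe_injective hαα)
    · intro a ha
      refine ⟨⟨Finsupp.equivFunOnFinite.symm a, ?_⟩, mem_univ _, rfl⟩
      rw [← mem_Sx_coe]
      exact ha
    · intro α _
      rfl
  rw [hbot, Submodule.mem_bot] at hmem
  have h0 : (fun α : mons (n + 1) d => f (⇑α.1)) = 0 := by
    apply toPoly_injective (n + 1) d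
    rw [hmem, map_zero]
  intro a ha
  have hm : Finsupp.equivFunOnFinite.symm a ∈ mons (n + 1) d := by
    rw [← mem_Sx_coe]
    exact ha
  exact congrFun h0 ⟨_, hm⟩

end Pool.Agent.H21.NX

end

section

/-!
# General d, ALPHA, clusters: the condition (H1) on pairs of clusters

`PO D I k k'`: two clusters with additional conditions created at the same level `i ∈ I` do not interact in
degree `D` on the level `I`; `HH`: for all pairs of a multiset.  Inheritance (`hh_mono`, `hh_drop`) and the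
clusters of the classes (`hh_top`).
-/

set_option autoImplicit false

namespace Pool.Agent.GD.AL

open Finset

/-- The condition on a pair. -/
def PO (D : ℕ) (I : Finset ℕ) : Kd → Kd → Prop
  | .cl e dl i As, .cl e' dl' i' As' => i = i' → i ∈ I → 1 ≤ dl → 1 ≤ dl' →
      D ≤ As.length * (e - 1) + As'.length * (e' - 1) + 1 +
        ((I.erase i ∩ inter As) ∩ inter As').card
  | _, _ => True

/-- The condition for all pairs. -/
def HH (D : ℕ) (I : Finset ℕ) (ms : Multiset Kd) : Prop :=
  ∀ k k' : Kd, k ::ₘ {k'} ≤ ms → PO D I k k'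

/-! ### The classes -/

end Pool.Agent.GD.AL

end

section

/-!
# General d, ALPHA: the finite systems, definitions
-/

set_option autoImplicit false

namespace Pool.Agent.GD.AL

open Finset

/-- The sizes of the blocks `i, …, J - 1`. -/
def rs (i J : ℕ) (c0 : ℕ → ℕ) (x : ℕ) : ℕ := if i ≤ x ∧ x < J then c0 x else 0

/-- The hierarchy of the sizes of the blocks `i, …, J - 1`. -/
def Hr (i J : ℕ) (F : (ℕ → ℕ) → ℕ) (c0 : ℕ → ℕ) : Prop :=
  ∀ l, i ≤ l → l < J → F (rs (l + 1) J c0) ≤ c0 l

/-- Exactness of the systems with few objects of positive `W`-degree; the others live on the blocks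
`i, …, J - 1`.  The bound for `w` is polynomial in `c0 i`. -/
def BT (d J i D : ℕ) : Prop := ∀ η : ℝ, 0 < η → ∃ (K k : ℕ) (F q : (ℕ → ℕ) → ℕ), ∀ c0 : ℕ → ℕ,
  Hr i J F c0 → ∀ (σ : St) (I : Finset ℕ), I ⊆ range J → (∀ l ∈ I, K ≤ c0 l) → (∀ l, σ.c l ≤ c0 l) →
    (∀ k ∈ σ.ms, AdmO d J k) →
    (∀ x A, .ord x A ∈ σ.ms → (I \ A).card = x → I \ A ⊆ Ico i J) →
    (∀ I' ⊆ I, η * ∏ l ∈ I', (c0 l : ℝ) ≤ (σ.V J I' I'.card : ℝ)) →
    q (rs (i + 1) J c0) * (rs i J c0 i + 1) ^ k + d * σ.ms.card ≤ σ.w → σ.Ex d J I D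

end Pool.Agent.GD.AL

end

section

/-!
# General d, ALPHA: the region
-/

set_option autoImplicit false

namespace Pool.Agent.GD.AL

open Finset

section Mon

open Pool.Agent.H21.NX (Sx mem_Sx)

/-- The number of the exponents of degree `D` supported in `T`. -/
theorem card_mon {ν : Type} [Fintype ν] [DecidableEq ν] (T : Finset ν) (D : ℕ) :
    ((Sx ν D).filter fun a => ∀ s, s ∉ T → a s = 0).card ≤ T.card ^ D := by
  classical
  induction D with
  | zero =>
    rw [pow_zero, card_le_one]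
    intro a ha b hb
    rw [mem_filter, mem_Sx] at ha hb
    funext s
    have h1 := (sum_eq_zero_iff_of_nonneg (fun s _ => Nat.zero_le (a s))).1 ha.1 s (mem_univ s)
    have h2 := (sum_eq_zero_iff_of_nonneg (fun s _ => Nat.zero_le (b s))).1 hb.1 s (mem_univ s)
    rw [h1, h2]
  | succ D ih =>
    have h1 : ((Sx ν (D + 1)).filter fun a => ∀ s, s ∉ T → a s = 0) ⊆
        T.biUnion fun s => (((Sx ν D).filter fun a => ∀ s, s ∉ T → a s = 0).image fun a =>
          a + Pi.single s 1) := by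
      intro a ha
      rw [mem_filter, mem_Sx] at ha
      obtain ⟨s, -, hs⟩ : ∃ s ∈ (univ : Finset ν), a s ≠ 0 := by
        by_contra hc
        push Not at hc
        rw [sum_eq_zero hc] at ha
        exact absurd ha.1 (by omega)
      have hsT : s ∈ T := by
        by_contra hc
        exact hs (ha.2 s hc)
      rw [mem_biUnion]
      refine ⟨s, hsT, mem_image.2 ⟨a - Pi.single s 1, mem_filter.2 ⟨mem_Sx.2 ?_, fun x hx => ?_⟩, ?_⟩⟩
      · have h2 : a - Pi.single s 1 + Pi.single s 1 = a := by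
          funext x
          show a x - (Pi.single s 1 : ν → ℕ) x + (Pi.single s 1 : ν → ℕ) x = a x
          by_cases hx : x = s
          · subst hx
            rw [Pi.single_eq_same]
            omega
          · rw [Pi.single_eq_of_ne hx, Nat.sub_zero, Nat.add_zero]
        have h3 : ∑ x, (a - Pi.single s 1 + Pi.single s 1 : ν → ℕ) x = D + 1 := by
          rw [h2]
          exact ha.1
        simp only [Pi.add_apply, sum_add_distrib, sum_pi_single', mem_univ, if_true] at h3
        omega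
      · show a x - (Pi.single s 1 : ν → ℕ) x = 0
        rw [ha.2 x hx]
        exact Nat.zero_sub _
      · funext x
        show a x - (Pi.single s 1 : ν → ℕ) x + (Pi.single s 1 : ν → ℕ) x = a x
        by_cases hx : x = s
        · subst hx
          rw [Pi.single_eq_same]
          omega
        · rw [Pi.single_eq_of_ne hx, Nat.sub_zero, Nat.add_zero]
    refine (card_le_card h1).trans (card_biUnion_le.trans ?_)
    refine (sum_le_sum fun s _ => card_image_le.trans ih).trans ?_
    rw [sum_const, smul_eq_mul, pow_succ, mul_comm]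

theorem card_sup_le' {ν : Type} [Fintype ν] [DecidableEq ν] (D : ℕ) (β : ν → ℕ) (I : Finset ℕ) :
    ((Ex β D I).filter fun a => ∀ s, β s ∉ I → a s = 0).card ≤
      (univ.filter fun s => β s ∈ I).card ^ D := by
  refine le_trans (card_le_card ?_) (card_mon (univ.filter fun s => β s ∈ I) D)
  intro a ha
  rw [mem_filter] at ha
  refine mem_filter.2 ⟨mem_Sx.2 (mem_Ex.1 ha.1).1, fun s hs => ha.2 s fun h => hs ?_⟩
  exact mem_filter.2 ⟨mem_univ _, h⟩

end Mon

section Reg

variable {d J D : ℕ} {σ : St} {I : Finset ℕ} {c0 : ℕ → ℕ} {n0 : ℕ} {η : ℝ}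

/-- the variables of the blocks -/
theorem card_in_le (σ : St) (hc : ∀ l, σ.c l ≤ c0 l) (hI : I ⊆ range J) :
    (univ.filter fun s : Vr J σ.c σ.w => bt J σ.c σ.w s ∈ I).card ≤ ∑ l ∈ range J, c0 l := by
  classical
  have h1 : (univ.filter fun s : Vr J σ.c σ.w => bt J σ.c σ.w s ∈ I) ⊆
      I.biUnion fun i => univ.filter fun s : Vr J σ.c σ.w => bt J σ.c σ.w s = i := by
    intro s hs
    rw [mem_biUnion]
    exact ⟨_, (mem_filter.1 hs).2, mem_filter.2 ⟨mem_univ _, rfl⟩⟩
  refine (card_le_card h1).trans (card_biUnion_le.trans ?_)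
  refine (sum_le_sum fun i hi => ?_).trans (sum_le_sum_of_subset hI)
  rw [card_bt _ _ (mem_range.1 (hI hi))]
  exact hc i

/-- consequences of `Big` -/
theorem big_facts {ε : ℝ} (hε : 0 < ε) (hB : Big d J c0 n0 I (4 * (d + 1) / ε + 4)) :
    (∀ l ∈ I, (1 : ℝ) ≤ c0 l) ∧ 1 ≤ n0 ∧
      (d + 1 : ℝ) * (1 + ∑ l ∈ range J, (c0 l : ℝ)) ^ (d + 1) ≤ ε * n0 := by
  have h1 : (0 : ℝ) ≤ 4 * (d + 1) / ε := by positivity
  have hS : (1 : ℝ) ≤ 1 + ∑ l ∈ range J, (c0 l : ℝ) := by
    have := sum_nonneg (s := range J) fun l _ => (Nat.cast_nonneg (c0 l) : (0 : ℝ) ≤ c0 l)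
    linarith only [this]
  have hM : (1 : ℝ) ≤ (1 + ∑ l ∈ range J, (c0 l : ℝ)) ^ (d + 1) := one_le_pow₀ hS
  refine ⟨fun l hl => ?_, ?_, ?_⟩
  · have := hB.c l hl
    linarith only [h1, this]
  · have h2 := hB.n
    have h3 : (1 : ℝ) ≤ n0 := by nlinarith only [h1, hM, h2]
    exact_mod_cast h3
  · have h2 := hB.n
    set M := (1 + ∑ l ∈ range J, (c0 l : ℝ)) ^ (d + 1)
    have h3 : 4 * (d + 1) / ε * M ≤ n0 := by nlinarith only [hM, h2]
    have h4 : ε * (4 * (d + 1) / ε * M) = 4 * (d + 1) * M := by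
      field_simp
    have h5 := mul_le_mul_of_nonneg_left h3 hε.le
    rw [h4] at h5
    have h6 : (0 : ℝ) ≤ (d + 1) * M := by positivity
    linarith only [h5, h6]

theorem nz_pos (hc : ∀ l ∈ I, (1 : ℝ) ≤ c0 l) (hn : 1 ≤ n0) (D : ℕ) : 1 ≤ nz c0 n0 I D := by
  unfold nz
  have h1 : (1 : ℝ) ≤ ∏ i ∈ I, (c0 i : ℝ) := by
    calc (1 : ℝ) = ∏ i ∈ I, (1 : ℝ) := by rw [prod_const_one]
      _ ≤ ∏ i ∈ I, (c0 i : ℝ) := prod_le_prod (fun _ _ => zero_le_one) hc
  have h2 : (1 : ℝ) ≤ (n0 : ℝ) ^ (D - I.card) := one_le_pow₀ (by exact_mod_cast hn)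
  nlinarith only [h1, h2]

end Reg

end Pool.Agent.GD.AL

end

section

/-!
# General d: additivity of the virtual dimension

Split the sum over `I' ⊆ range (j + 1)` according to `j ∈ I'`.  `j ∉ I'`: the factor of `k` is the
product of the factors of `un j k` (`I' ⊆ A ↔ I' ⊆ A.erase j`, `inter (As.map (·.erase j)) =
(inter As).erase j`); `I' = insert j I''`: the factor of `k` at `I'` is the product of the factors of
`tr j k` at `I''` (old cluster not wholly on `L_j` and `i ∈ I''`: both are `1`).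
-/

set_option autoImplicit false

namespace Pool.Agent.GD

open Finset

theorem mem_interL {As : List (Finset ℕ)} {x : ℕ} : x ∈ inter As ↔ As ≠ [] ∧ ∀ A ∈ As, x ∈ A := by
  unfold inter
  rw [mem_filter]
  cases As with
  | nil => simp
  | cons B l =>
    simp only [List.headD_cons, ne_eq, reduceCtorEq, not_false_eq_true, true_and]
    exact ⟨fun h => h.2, fun h => ⟨h B (List.mem_cons_self ..), h⟩⟩

theorem interL_map_erase (As : List (Finset ℕ)) (j : ℕ) :
    inter (As.map fun A => A.erase j) = (inter As).erase j := by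
  ext x
  rw [mem_interL, mem_erase, mem_interL]
  constructor
  · rintro ⟨h1, h2⟩
    have h3 : As ≠ [] := fun h => h1 (by rw [h]; rfl)
    refine ⟨?_, h3, fun A hA => (mem_erase.1 (h2 _ (List.mem_map_of_mem hA))).2⟩
    obtain ⟨A, hA⟩ := List.exists_mem_of_ne_nil As h3
    exact (mem_erase.1 (h2 _ (List.mem_map_of_mem hA))).1
  · rintro ⟨h1, h2, h3⟩
    refine ⟨fun h => h2 (List.map_eq_nil_iff.1 h), fun B hB => ?_⟩
    obtain ⟨A, hA, rfl⟩ := List.mem_map.1 hB
    exact mem_erase.2 ⟨h1, h3 A hA⟩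

private theorem sub_erase {I' A : Finset ℕ} {j : ℕ} (hj : j ∉ I') : I' ⊆ A.erase j ↔ I' ⊆ A := by
  rw [subset_erase]
  exact ⟨fun h => h.1, fun h => ⟨h, hj⟩⟩

private theorem not_mem_of_sub {I' : Finset ℕ} {j : ℕ} (hI : I' ⊆ range j) : j ∉ I' :=
  fun h => by simpa using hI h

theorem P_un {d j : ℕ} (k : Kd) (hk : k.Ok d (j + 1)) (I' : Finset ℕ) (hI : I' ⊆ range j) :
    k.P I' = ((un j k).map (Kd.P I')).prod := by
  have hj := not_mem_of_sub hI
  cases k with
  | ord e A =>
    simp only [un, Multiset.map_singleton, Multiset.prod_singleton, Kd.P, sub_erase hj]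
  | cl e dl i As =>
    by_cases hij : i = j
    · subst hij
      simp only [un, if_true, Kd.P, if_neg hj, Multiset.map_coe, Multiset.prod_coe, List.map_map,
        Function.comp_def, sub_erase hj]
    · simp only [un, if_neg hij, Multiset.map_singleton, Multiset.prod_singleton, Kd.P,
        List.length_map, interL_map_erase, List.map_map, Function.comp_def, sub_erase hj,
        sub_erase (A := inter As) (fun h => hj (mem_of_mem_erase h))]

theorem P_tr {d j : ℕ} (k : Kd) (hk : k.Ok d (j + 1)) (I' : Finset ℕ) (hI : I' ⊆ range j) :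
    k.P (insert j I') = ((tr j k).map (Kd.P I')).prod := by
  have hj := not_mem_of_sub hI
  cases k with
  | ord e A =>
    by_cases hA : j ∈ A
    · simp only [tr, hA, if_true, Multiset.map_singleton, Multiset.prod_singleton, Kd.P,
        sub_erase hj, insert_subset_iff, true_and]
    · simp only [tr, hA, if_false, Multiset.map_zero, Multiset.prod_zero, Kd.P,
        insert_subset_iff, false_and]
  | cl e dl i As =>
    obtain ⟨-, hlen, -, -, hAs⟩ := hk
    by_cases hij : i = j
    · subst hij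
      simp only [tr, if_true, Multiset.map_singleton, Multiset.prod_singleton, Kd.P,
        mem_insert_self, erase_insert hj]
    · have hne : As ≠ [] := fun h => by rw [h] at hlen; simp at hlen
      have hmem : i ∈ insert j I' ↔ i ∈ I' := by
        rw [mem_insert]
        exact ⟨fun h => h.resolve_left hij, Or.inr⟩
      by_cases hall : ∀ A ∈ As, j ∈ A
      · have hjin : j ∈ inter As := mem_interL.2 ⟨hne, hall⟩
        simp only [tr, if_neg hij, if_pos hall, Multiset.map_singleton, Multiset.prod_singleton,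
          Kd.P, List.length_map, interL_map_erase, List.map_map, Function.comp_def, sub_erase hj,
          sub_erase (A := inter As) (fun h => hj (mem_of_mem_erase h)), hmem,
          erase_insert_of_ne (Ne.symm hij), insert_subset_iff, hjin, true_and]
        split_ifs with h1
        · rfl
        · rfl
        · congr 1
          refine List.map_congr_left fun A hA => ?_
          simp only [hall A hA, true_and]
      · have hjin : j ∉ inter As := fun h => hall (mem_interL.1 h).2
        simp only [tr, if_neg hij, if_neg hall, Multiset.map_coe, Multiset.prod_coe, List.map_map,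
          Function.comp_def, Kd.P, sub_erase hj, hmem, erase_insert_of_ne (Ne.symm hij),
          insert_subset_iff, hjin, false_and, if_false]
        split_ifs with h1
        · symm
          apply List.prod_eq_one
          intro x hx
          obtain ⟨A, hA, rfl⟩ := List.mem_map.1 hx
          rw [if_neg]
          intro hsub
          have h2 := hAs A (List.mem_filter.1 hA).1 (hsub h1)
          exact (mem_erase.1 h2).1 rfl
        · clear hlen hAs hne hall hjin
          induction As with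
          | nil => simp
          | cons B l ih =>
            by_cases hB : j ∈ B
            · simp only [List.map_cons, List.prod_cons, hB, true_and, List.filter_cons,
                decide_true, if_true]
              rw [ih]
            · simp only [List.map_cons, List.prod_cons, hB, false_and, if_false, List.filter_cons,
                decide_false, one_mul]
              rw [ih]
              rfl

/-- **Additivity.** -/
theorem vd_add {d j : ℕ} (D : ℕ) (c : ℕ → ℕ) (n : ℕ) (ms : Multiset Kd)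
    (hk : ∀ k ∈ ms, k.Ok d (j + 1)) :
    vd D (range j) c n (ms.bind (un j)) =
      vd D (range j) c (n - c j) (ms.bind (tr j)) + vd D (range (j + 1)) c n ms := by
  unfold vd
  rw [range_add_one, sum_powerset_insert (by simp)]
  have h1 : ∀ I' ∈ (range j).powerset,
      ((ms.bind (un j)).map (Kd.P I')).prod = (ms.map (Kd.P I')).prod := by
    intro I' hI'
    rw [Multiset.map_bind, Multiset.prod_bind]
    congr 1
    exact Multiset.map_congr rfl fun k hkm => (P_un k (hk k hkm) I' (mem_powerset.1 hI')).symm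
  have h2 : ∀ I' ∈ (range j).powerset,
      ((ms.bind (tr j)).map (Kd.P I')).prod = (ms.map (Kd.P (insert j I'))).prod := by
    intro I' hI'
    rw [Multiset.map_bind, Multiset.prod_bind]
    congr 1
    exact Multiset.map_congr rfl fun k hkm => (P_tr k (hk k hkm) I' (mem_powerset.1 hI')).symm
  have h3 : ∀ I' ∈ (range j).powerset,
      (-1 : ℤ) ^ I'.card * PowerSeries.coeff D (((ms.bind (tr j)).map (Kd.P I')).prod *
        hs (n - c j - ∑ i ∈ I', c i)) +
      (-1) ^ (insert j I').card * PowerSeries.coeff D ((ms.map (Kd.P (insert j I'))).prod *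
        hs (n - ∑ i ∈ insert j I', c i)) = 0 := by
    intro I' hI'
    have hj := not_mem_of_sub (mem_powerset.1 hI')
    rw [h2 I' hI', card_insert_of_notMem hj, sum_insert hj, Nat.sub_sub, pow_succ]
    ring
  have h4 := sum_congr rfl h3
  rw [sum_add_distrib, sum_const_zero] at h4
  rw [sum_congr rfl fun I' hI' => by rw [h1 I' hI']]
  linarith

end Pool.Agent.GD

end

section

/-!
# General d, block BETA, module Rel: general values for a fixed base position and a fixed `E`

`gE T m₀ r m₁ E`: the least dimension of `KE` over all positions of the additional points.  It is the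
general dimension of a `Sys` (kinds `Option (Finset ι)`, `none` = the constant conditions of `E` and
of the base points), so `gn_gd`, `gd_elim_le` etc. apply.
-/

set_option autoImplicit false

namespace Pool.Agent.GD.BE

open Finset MvPolynomial Module Pool.Agent.H51.TB Pool.Agent.V7.ST

variable {ι : Type} [Fintype ι] [DecidableEq ι] {c : ι → ℕ}

/-- The general dimension for fixed base position `r` and fixed `E`. -/
noncomputable def gE (T : Finset ι) {P₀ P₁ : Type} (m₀ : P₀ → Finset ι)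
    (r : P₀ → (Σ i, Fin (c i)) → ℂ) (m₁ : P₁ → Finset ι)
    (E : Submodule ℂ ((∀ i, Fin (c i)) → ℂ)) : ℕ :=
  sInf (Set.range fun y : P₁ → (Σ i, Fin (c i)) → ℂ =>
    finrank ℂ (KE T (Sum.elim m₀ m₁) (Sum.elim r y) E))

/-- Every subspace of a finite space of functions is the space of solutions of finitely many
equations. -/
private theorem rel_eqs {J : Type} [Fintype J] (K : Submodule ℂ (J → ℂ)) :
    ∃ (N : ℕ) (a : Fin N → J → ℂ), ∀ x, x ∈ K ↔ ∀ k, ∑ e, a k e * x e = 0 := by
  classical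
  let Q := (J → ℂ) ⧸ K
  let b := Module.finBasis ℂ Q
  let φ : Fin (finrank ℂ Q) → (J → ℂ) →ₗ[ℂ] ℂ := fun k => (b.coord k).comp K.mkQ
  refine ⟨finrank ℂ Q, fun k e => φ k (Pi.single e 1), fun x => ?_⟩
  have h1 : ∀ k, ∑ e, φ k (Pi.single e 1) * x e = φ k x := by
    intro k
    conv_rhs => rw [← Finset.univ_sum_single x]
    rw [map_sum]
    refine sum_congr rfl fun e _ => ?_
    have h2 : (Pi.single e (x e) : J → ℂ) = x e • Pi.single e 1 := by
      rw [← Pi.single_smul, smul_eq_mul, mul_one]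
    rw [h2, map_smul, smul_eq_mul, mul_comm]
  simp only [h1]
  rw [← Submodule.Quotient.mk_eq_zero K]
  constructor
  · intro h k
    show b.coord k (K.mkQ x) = 0
    have h3 : K.mkQ x = 0 := h
    rw [h3, map_zero]
  · intro h
    have h3 : b.repr (K.mkQ x) = 0 := by
      ext k
      exact h k
    have h4 : K.mkQ x = 0 := (LinearEquiv.map_eq_zero_iff b.repr).1 h3
    exact h4

/-- The system with the constant conditions of `K`. -/
private noncomputable def relS (c : ι → ℕ) {N : ℕ} (a : Fin N → (∀ i, Fin (c i)) → ℂ) :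
    Sys (∀ i, Fin (c i)) (Σ i, Fin (c i)) (Option (Finset ι)) where
  R := fun o => match o with
    | none => Fin N
    | some S => (TS ι c).R S
  fin := fun o => match o with
    | none => inferInstanceAs (Finite (Fin N))
    | some S => (TS ι c).fin S
  co := fun o => match o with
    | none => fun k e => C (a k e)
    | some S => (TS ι c).co S

private theorem relS_V {N : ℕ} {a : Fin N → (∀ i, Fin (c i)) → ℂ}
    {K : Submodule ℂ ((∀ i, Fin (c i)) → ℂ)}
    (hK : ∀ x, x ∈ K ↔ ∀ k, ∑ e, a k e * x e = 0) {P : Type} (m : P → Finset ι)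
    (q : Unit → (Σ i, Fin (c i)) → ℂ) (y : P → (Σ i, Fin (c i)) → ℂ) :
    (relS c a).V (Sum.elim (fun _ : Unit => none) fun i => some (m i)) (Sum.elim q y) =
      K ⊓ (TS ι c).V m y := by
  ext f
  rw [Submodule.mem_inf, Sys.mem_V, hK, Sys.mem_V]
  constructor
  · intro h
    refine ⟨fun k => ?_, fun i r => h (Sum.inr i) r⟩
    have h1 := h (Sum.inl ()) k
    rw [← h1]
    refine sum_congr rfl fun e _ => ?_
    show a k e * f e = eval _ (C (a k e)) * f e
    rw [eval_C]
  · rintro ⟨h1, h2⟩ (i | i) r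
    · rw [← h1 r]
      refine sum_congr rfl fun e _ => ?_
      show eval _ (C (a r e)) * f e = a r e * f e
      rw [eval_C]
    · exact h2 i r

private theorem KE_split (T : Finset ι) {P₀ P₁ : Type} (m₀ : P₀ → Finset ι)
    (r : P₀ → (Σ i, Fin (c i)) → ℂ) (m₁ : P₁ → Finset ι)
    (E : Submodule ℂ ((∀ i, Fin (c i)) → ℂ)) (y : P₁ → (Σ i, Fin (c i)) → ℂ) :
    KE T (Sum.elim m₀ m₁) (Sum.elim r y) E = KE T m₀ r E ⊓ (TS ι c).V m₁ y := by
  unfold KE
  rw [V_elim, inf_assoc]

section

variable (T : Finset ι) {P₀ P₁ : Type} (m₀ : P₀ → Finset ι) (r : P₀ → (Σ i, Fin (c i)) → ℂ)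
  (m₁ : P₁ → Finset ι) (E : Submodule ℂ ((∀ i, Fin (c i)) → ℂ))

theorem gE_le (y : P₁ → (Σ i, Fin (c i)) → ℂ) :
    gE T m₀ r m₁ E ≤ finrank ℂ (KE T (Sum.elim m₀ m₁) (Sum.elim r y) E) :=
  Nat.sInf_le ⟨y, rfl⟩

theorem exists_gE : ∃ y : P₁ → (Σ i, Fin (c i)) → ℂ,
    finrank ℂ (KE T (Sum.elim m₀ m₁) (Sum.elim r y) E) = gE T m₀ r m₁ E := by
  obtain ⟨y, hy⟩ := Nat.sInf_mem (Set.range_nonempty
    fun y : P₁ → (Σ i, Fin (c i)) → ℂ =>
      finrank ℂ (KE T (Sum.elim m₀ m₁) (Sum.elim r y) E))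
  exact ⟨y, hy⟩

private theorem gE_eq_gd {N : ℕ} {a : Fin N → (∀ i, Fin (c i)) → ℂ}
    (hK : ∀ x, x ∈ KE T m₀ r E ↔ ∀ k, ∑ e, a k e * x e = 0) :
    gE T m₀ r m₁ E = (relS c a).gd (Sum.elim (fun _ : Unit => none) fun i => some (m₁ i)) := by
  apply le_antisymm
  · obtain ⟨p, hp⟩ := gd_attained (relS c a)
      (Sum.elim (fun _ : Unit => none) fun i => some (m₁ i))
    have h1 : p = Sum.elim (fun i => p (Sum.inl i)) fun i => p (Sum.inr i) := by
      funext x
      rcases x with x | x <;> rfl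
    rw [h1, relS_V hK, ← KE_split] at hp
    rw [← hp]
    exact gE_le T m₀ r m₁ E _
  · obtain ⟨y, hy⟩ := exists_gE T m₀ r m₁ E
    rw [← hy, KE_split, ← relS_V hK m₁ (fun _ _ => 0) y]
    exact gd_le _ _ _

theorem gn_gE [Fintype P₁] : Gn P₁ (Σ i, Fin (c i)) fun y =>
    finrank ℂ (KE T (Sum.elim m₀ m₁) (Sum.elim r y) E) = gE T m₀ r m₁ E := by
  obtain ⟨N, a, hK⟩ := rel_eqs (KE T m₀ r E)
  obtain ⟨p₀, h1⟩ := (gn_gd (relS c a)
    (Sum.elim (fun _ : Unit => none) fun i => some (m₁ i))).fix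
  refine h1.mono fun y hy => ?_
  rw [relS_V hK, ← KE_split, ← gE_eq_gd T m₀ r m₁ E hK] at hy
  exact hy

/-- Convexity in the number of points of kind `S`: `m₁` has `N` points of kind `S`; with one more
point of kind `S` the dimension drops by at most the mean drop per point. -/
theorem gE_slope [Fintype P₁] (S : Finset ι) (N : ℕ) (hN : Nat.card {x // m₁ x = S} = N) :
    (N : ℤ) * (gE T m₀ r m₁ E - gE T m₀ r (Sum.elim m₁ fun _ : Unit => S) E) ≤
      gE T m₀ r (fun x : {x // m₁ x ≠ S} => m₁ x.1) E - gE T m₀ r m₁ E := by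
  classical
  obtain ⟨N', a, hK⟩ := rel_eqs (KE T m₀ r E)
  -- the sequence of the dimensions
  let s₀ : Multiset (Option (Finset ι)) :=
    none ::ₘ ((univ : Finset {x // m₁ x ≠ S}).val.map fun x => some (m₁ x.1))
  let G : ℕ → ℕ := fun k => gM (relS c a) (Multiset.replicate k (some S) + s₀)
  have hG : ∀ k, G k + G (k + 2) ≥ G (k + 1) + G (k + 1) := by
    intro k
    have h1 := gM_submod (relS c a) (Multiset.replicate k (some S) + s₀) (some S) (some S)
    have h2 : some S ::ₘ (Multiset.replicate k (some S) + s₀) =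
        Multiset.replicate (k + 1) (some S) + s₀ := by
      rw [Multiset.replicate_succ, Multiset.cons_add]
    have h3 : some S ::ₘ (Multiset.replicate (k + 1) (some S) + s₀) =
        Multiset.replicate (k + 2) (some S) + s₀ := by
      rw [Multiset.replicate_succ (some S) (k + 1), Multiset.cons_add]
    rw [h2, h3] at h1
    exact h1
  have hdrop : ∀ j k : ℕ, j ≤ k → (G k : ℤ) - G (k + 1) ≤ G j - G (j + 1) := by
    intro j k hjk
    induction k, hjk using Nat.le_induction with
    | base => exact le_rfl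
    | succ k _ ih =>
      have := hG k
      show (G (k + 1) : ℤ) - G (k + 2) ≤ _
      omega
  have hsum : ∀ k ≤ N, (k : ℤ) * (G N - G (N + 1)) ≤ G 0 - G k := by
    intro k
    induction k with
    | zero => intro _; simp
    | succ k ih =>
      intro hk
      have h1 := ih (by omega)
      have h2 := hdrop k N (by omega)
      push_cast
      nlinarith
  -- the multisets
  have hm : (univ : Finset P₁).val.map (fun i => some (m₁ i)) = Multiset.replicate N (some S) +
      (univ : Finset {x // m₁ x ≠ S}).val.map fun x => some (m₁ x.1) := by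
    have h1 : (univ : Finset P₁).val.map (fun i => some (m₁ i)) =
        ((univ : Finset ({x // m₁ x = S} ⊕ {x // ¬ m₁ x = S})).val.map fun z =>
          some (m₁ (Sum.elim Subtype.val Subtype.val z))) := by
      have h2 := Finset.univ.val.map fun z : {x // m₁ x = S} ⊕ {x // ¬ m₁ x = S} =>
        (Equiv.sumCompl fun x => m₁ x = S) z
      have h3 : (univ : Finset P₁).val = (univ : Finset
          ({x // m₁ x = S} ⊕ {x // ¬ m₁ x = S})).val.map
            fun z => (Equiv.sumCompl fun x => m₁ x = S) z := by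
        have h4 := Finset.map_univ_equiv (Equiv.sumCompl fun x => m₁ x = S)
        rw [← h4, Finset.map_val]
        rfl
      rw [h3, Multiset.map_map]
      refine Multiset.map_congr rfl fun z _ => ?_
      rcases z with z | z <;> rfl
    have h5 : (fun z : {x // m₁ x = S} ⊕ {x // ¬ m₁ x = S} =>
        some (m₁ (Sum.elim Subtype.val Subtype.val z))) =
          Sum.elim (fun _ => some S) fun x => some (m₁ x.1) := by
      funext z
      rcases z with z | z
      · show some (m₁ z.1) = some S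
        rw [z.2]
      · rfl
    rw [h1, h5, map_elim, Pool.Agent.V7.ST.map_const]
    congr 1
    rw [← hN, Nat.card_eq_fintype_card]
  have e0 : gE T m₀ r (fun x : {x // m₁ x ≠ S} => m₁ x.1) E = G 0 := by
    rw [gE_eq_gd T m₀ r _ E hK, gd_eq_gM, map_elim, Pool.Agent.V7.ST.map_const, Fintype.card_unit]
    show gM _ _ = gM _ _
    congr 1
    show Multiset.replicate 1 none + _ = Multiset.replicate 0 _ + (none ::ₘ _)
    rw [Multiset.replicate_one, Multiset.singleton_add, Multiset.replicate_zero, zero_add]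
  have e1 : gE T m₀ r m₁ E = G N := by
    rw [gE_eq_gd T m₀ r _ E hK, gd_eq_gM, map_elim, Pool.Agent.V7.ST.map_const, Fintype.card_unit, hm]
    show gM _ _ = gM _ _
    congr 1
    show Multiset.replicate 1 none + (_ + _) = _ + (none ::ₘ _)
    rw [Multiset.replicate_one, Multiset.singleton_add, Multiset.add_cons]
  have e2 : gE T m₀ r (Sum.elim m₁ fun _ : Unit => S) E = G (N + 1) := by
    have h1 : (fun i : P₁ ⊕ Unit => some (Sum.elim m₁ (fun _ : Unit => S) i)) =
        Sum.elim (fun i => some (m₁ i)) fun _ : Unit => some S := by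
      funext i
      rcases i with i | i <;> rfl
    rw [gE_eq_gd T m₀ r _ E hK, gd_eq_gM, map_elim, Pool.Agent.V7.ST.map_const, Fintype.card_unit, h1, map_elim, hm,
      Pool.Agent.V7.ST.map_const, Fintype.card_unit]
    show gM _ _ = gM _ _
    congr 1
    show Multiset.replicate 1 none + ((_ + _) + Multiset.replicate 1 (some S)) = _ + (none ::ₘ _)
    rw [Multiset.replicate_one, Multiset.replicate_one, Multiset.singleton_add, Multiset.add_cons,
      Multiset.replicate_succ, Multiset.cons_add, add_comm _ {some S}, Multiset.singleton_add]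
  rw [e0, e1, e2]
  exact hsum N le_rfl

/-- A general point of a kind `S` which imposes a condition. -/
theorem gE_lt [Fintype P₁] (S : Finset ι) (h : 0 < gE T m₀ r m₁ E) :
    gE T m₀ r (Sum.elim m₁ fun _ : Unit => S) E < gE T m₀ r m₁ E := by
  classical
  obtain ⟨y, hy⟩ := exists_gE T m₀ r m₁ E
  have hne : KE T (Sum.elim m₀ m₁) (Sum.elim r y) E ≠ ⊥ := by
    intro h0
    rw [h0, finrank_bot] at hy
    omega
  obtain ⟨G, hG, hG0⟩ := Submodule.exists_mem_ne_zero_of_ne_bot hne
  obtain ⟨w, hw⟩ := Function.ne_iff.1 hG0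
  let q : (Σ i, Fin (c i)) → ℂ := fun x => if x.2 = w x.1 then 1 else 0
  have hq : ctr S q G w = G w := by
    unfold ctr
    rw [sum_eq_single w]
    · rw [if_pos fun _ _ => rfl]
      have h1 : ∏ j ∈ S, q ⟨j, w j⟩ = 1 := prod_eq_one fun j _ => if_pos rfl
      rw [h1, one_mul]
    · intro e _ he
      split_ifs with h1
      · have h2 : ∃ j ∈ S, e j ≠ w j := by
          by_contra hcon
          push Not at hcon
          apply he
          funext j
          by_cases hj : j ∈ S
          · exact hcon j hj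
          · exact h1 j hj
        obtain ⟨j, hj, hne⟩ := h2
        rw [prod_eq_zero hj (if_neg hne), zero_mul]
      · rfl
    · intro h1
      exact absurd (mem_univ w) h1
  have hlt : KE T (Sum.elim m₀ (Sum.elim m₁ fun _ : Unit => S))
      (Sum.elim r (Sum.elim y fun _ => q)) E < KE T (Sum.elim m₀ m₁) (Sum.elim r y) E := by
    have h1 : KE T (Sum.elim m₀ (Sum.elim m₁ fun _ : Unit => S))
        (Sum.elim r (Sum.elim y fun _ => q)) E =
          KE T (Sum.elim m₀ m₁) (Sum.elim r y) E ⊓ (TS ι c).V (fun _ : Unit => S) fun _ => q := by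
      rw [KE_split, KE_split, V_elim, inf_assoc]
    rw [h1]
    refine lt_of_le_of_ne inf_le_left fun h2 => ?_
    have h3 : G ∈ KE T (Sum.elim m₀ m₁) (Sum.elim r y) E ⊓
        (TS ι c).V (fun _ : Unit => S) fun _ => q := by
      rw [h2]
      exact hG
    have h4 := (mem_TS _ _ _).1 h3.2 () w
    rw [hq] at h4
    exact hw h4
  have h5 := Submodule.finrank_lt_finrank_of_lt hlt
  rw [hy] at h5
  exact lt_of_le_of_lt (gE_le T m₀ r (Sum.elim m₁ fun _ : Unit => S) E _) h5

end

end Pool.Agent.GD.BE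

end

section

/-!
# General d, block BETA, module Cov: finitely many open sets of templates

`Kx_cover_fam` is `Pool.Agent.V7.BE.Kx_cover` for a finite family of matrices at the same time and for
the subspaces `E ≤ D` (the frames `Q` with `Fr.sp Q ≤ D` form a compact set).  `KE_cover`: for every `E`
and every corner `η` the good positions are general (`gn_gE`), so for every `E` there is a position
which is good for all corners; then `Kx_cover_fam`.
-/

set_option autoImplicit false

namespace Pool.Agent.GD.BE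

open Finset MvPolynomial Module Pool.Agent.H51.TB Topology Pool.Agent.V7.BE

/-- The frames of the subspaces of `D` form a compact set. -/
theorem FrD_compact {ι' : Type*} [Fintype ι'] (D : Submodule ℂ (ι' → ℂ)) (e : ℕ) :
    IsCompact {Q : Matrix ι' (Fin e) ℂ | Q ∈ Fr ι' e ∧ Fr.sp Q ≤ D} := by
  have h1 : {Q : Matrix ι' (Fin e) ℂ | Q ∈ Fr ι' e ∧ Fr.sp Q ≤ D} =
      Fr ι' e ∩ {Q | Fr.sp Q ≤ D} := rfl
  have h2 : {Q : Matrix ι' (Fin e) ℂ | Fr.sp Q ≤ D} =
      ⋂ v : Fin e → ℂ, (fun Q : Matrix ι' (Fin e) ℂ => Q.mulVec v) ⁻¹' (D : Set (ι' → ℂ)) := by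
    ext Q
    rw [Set.mem_iInter]
    constructor
    · intro h v
      exact h ⟨v, rfl⟩
    · rintro h _ ⟨v, rfl⟩
      exact h v
  rw [h1]
  refine (Fr_compact e).inter_right ?_
  rw [h2]
  refine isClosed_iInter fun v => ?_
  refine IsClosed.preimage ?_ D.closed_of_finiteDimensional
  exact continuous_id.matrix_mulVec continuous_const

theorem Kx_cover_fam {X : Type*} [TopologicalSpace X] [Nonempty X] {H : Type*} [Finite H]
    {R : H → Type*} [∀ l, Fintype (R l)] {J U ι' : Type*} [Fintype J] [Fintype U] [Fintype ι']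
    (A : ∀ l, X → Matrix (R l) J ℂ) (hA : ∀ l, Continuous (A l)) (σ : U → ι' → J)
    (b : H → ℕ → ℕ) (D : Submodule ℂ (ι' → ℂ)) (S : Set ℕ)
    (h : ∀ E ≤ D, finrank ℂ E ∈ S → ∃ x, ∀ l, finrank ℂ (Kx (A l x) σ E) ≤ b l (finrank ℂ E)) :
    ∃ r : ℕ, 0 < r ∧ ∃ W : Fin r → Set X, (∀ s, IsOpen (W s) ∧ (W s).Nonempty) ∧
      ∀ E ≤ D, finrank ℂ E ∈ S → ∃ s, ∀ x ∈ W s, ∀ l,
        finrank ℂ (Kx (A l x) σ E) ≤ b l (finrank ℂ E) := by
  classical
  have : Fintype H := Fintype.ofFinite H
  -- one dimension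
  have h1 : ∀ e : ℕ, e ∈ S → ∃ F : Set (Set X), F.Finite ∧ (∀ W ∈ F, IsOpen W ∧ W.Nonempty) ∧
      ∀ Q ∈ Fr ι' e, Fr.sp Q ≤ D → ∃ W ∈ F, ∀ x ∈ W, ∀ l,
        finrank ℂ (Kx (A l x) σ (Fr.sp Q)) ≤ b l e := by
    intro e he
    have h2 : ∀ Q : Matrix ι' (Fin e) ℂ, ∃ W : Set X, ∃ V : Set (Matrix ι' (Fin e) ℂ),
        IsOpen W ∧ W.Nonempty ∧ (Q ∈ Fr ι' e ∧ Fr.sp Q ≤ D → V ∈ 𝓝 Q) ∧
          ∀ x ∈ W, ∀ Q' ∈ V, Q' ∈ Fr ι' e → ∀ l,
          finrank ℂ (Kx (A l x) σ (Fr.sp Q')) ≤ b l e := by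
      intro Q
      by_cases hQ : Q ∈ Fr ι' e ∧ Fr.sp Q ≤ D
      · obtain ⟨x, hx⟩ := h (Fr.sp Q) hQ.2 (by rw [Fr.finrank_sp hQ.1]; exact he)
        rw [Fr.finrank_sp hQ.1] at hx
        have h3 : ∀ᶠ z : X × Matrix ι' (Fin e) ℂ in 𝓝 (x, Q), ∀ l, z.2 ∈ Fr ι' e →
            finrank ℂ (Kx (A l z.1) σ (Fr.sp z.2)) ≤ b l e :=
          Filter.eventually_all.2 fun l => Kx_near_frame (A l) (hA l) σ (b l e) x hQ.1 (hx l)
        rw [nhds_prod_eq] at h3
        obtain ⟨pa, hpa, pb, hpb, hab⟩ := Filter.eventually_prod_iff.1 h3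
        obtain ⟨W, hW1, hW2, hW3⟩ := eventually_nhds_iff.1 hpa
        refine ⟨W, {Q' | pb Q'}, hW2, ⟨x, hW3⟩, fun _ => hpb, fun y hy Q' hQ' hF l => ?_⟩
        exact hab (hW1 y hy) hQ' l hF
      · obtain ⟨x⟩ : Nonempty X := inferInstance
        exact ⟨Set.univ, ∅, isOpen_univ, ⟨x, trivial⟩, fun hQ' => absurd hQ' hQ,
          fun _ _ Q' hQ' => absurd hQ' (Set.notMem_empty _)⟩
    choose W V hW1 hW2 hV hWV using h2
    obtain ⟨t, ht1, ht2⟩ := IsCompact.elim_nhds_subcover (X := Matrix ι' (Fin e) ℂ)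
      (FrD_compact D e) V fun Q hQ => hV Q hQ
    refine ⟨W '' (t : Set (Matrix ι' (Fin e) ℂ)), t.finite_toSet.image _, ?_,
      fun Q hQ hQD => ?_⟩
    · rintro _ ⟨Q, _, rfl⟩
      exact ⟨hW1 Q, hW2 Q⟩
    · obtain ⟨Q₁, hQ₁, hQV⟩ := Set.mem_iUnion₂.1 (ht2 ⟨hQ, hQD⟩)
      exact ⟨W Q₁, ⟨Q₁, hQ₁, rfl⟩, fun x hx => hWV Q₁ x hx Q hQV hQ⟩
  have h1' : ∀ e : ℕ, ∃ F : Set (Set X), F.Finite ∧ (∀ W ∈ F, IsOpen W ∧ W.Nonempty) ∧
      (e ∈ S → ∀ Q ∈ Fr ι' e, Fr.sp Q ≤ D → ∃ W ∈ F, ∀ x ∈ W, ∀ l,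
        finrank ℂ (Kx (A l x) σ (Fr.sp Q)) ≤ b l e) := by
    intro e
    by_cases he : e ∈ S
    · obtain ⟨F, h2, h3, h4⟩ := h1 e he
      exact ⟨F, h2, h3, fun _ => h4⟩
    · exact ⟨∅, Set.finite_empty, fun W hW => absurd hW (Set.notMem_empty _), fun h => absurd h he⟩
  choose F hF1 hF2 hF3 using h1'
  let G : Set (Set X) := insert Set.univ (⋃ e ∈ Finset.range (Fintype.card ι' + 1), F e)
  have hG : G.Finite :=
    (Set.Finite.biUnion (Finset.finite_toSet _) fun e _ => hF1 e).insert _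
  have hcov : ∀ E ≤ D, finrank ℂ E ∈ S → ∃ W ∈ G, ∀ x ∈ W, ∀ l,
      finrank ℂ (Kx (A l x) σ E) ≤ b l (finrank ℂ E) := by
    intro E hE hES
    obtain ⟨Q, hQ, hQE⟩ := Fr.exists_frame E
    have h4 : finrank ℂ E ∈ Finset.range (Fintype.card ι' + 1) := by
      rw [Finset.mem_range, Nat.lt_succ_iff]
      have := Submodule.finrank_le E
      simpa using this
    obtain ⟨W, hW, h5⟩ := hF3 _ hES Q hQ (by rw [hQE]; exact hE)
    rw [hQE] at h5
    exact ⟨W, Set.mem_insert_of_mem _ (Set.mem_iUnion₂.2 ⟨_, h4, hW⟩), h5⟩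
  have hGne : G.Nonempty := ⟨Set.univ, Set.mem_insert _ _⟩
  have := hG.fintype
  have hne : Nonempty G := hGne.to_subtype
  refine ⟨Fintype.card G, Fintype.card_pos, fun s => ((Fintype.equivFin G).symm s : Set X),
    fun s => ?_, fun E hE hES => ?_⟩
  · rcases Set.mem_insert_iff.1 ((Fintype.equivFin G).symm s).2 with h6 | h6
    · show IsOpen ((Fintype.equivFin G).symm s : Set X) ∧
        ((Fintype.equivFin G).symm s : Set X).Nonempty
      rw [h6]
      exact ⟨isOpen_univ, Set.univ_nonempty⟩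
    · obtain ⟨e, _, he⟩ := Set.mem_iUnion₂.1 h6
      exact hF2 e _ he
  · obtain ⟨W, hW, h5⟩ := hcov E hE hES
    refine ⟨Fintype.equivFin G ⟨W, hW⟩, fun x hx => h5 x ?_⟩
    have h6 : (Fintype.equivFin G).symm (Fintype.equivFin G ⟨W, hW⟩) = ⟨W, hW⟩ :=
      Equiv.symm_apply_apply _ _
    have h7 : x ∈ (((Fintype.equivFin G).symm (Fintype.equivFin G ⟨W, hW⟩) : G) : Set X) := hx
    rwa [h6] at h7

variable {ι : Type} [Fintype ι] [DecidableEq ι] {c : ι → ℕ}

/-- The matrix of the conditions of the points. -/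
noncomputable def cmat {P : Type} (m : P → Finset ι) (p : P → (Σ i, Fin (c i)) → ℂ) :
    Matrix (P × ∀ i, Fin (c i)) (∀ i, Fin (c i)) ℂ := fun x e =>
  if ∀ j, j ∉ m x.1 → e j = x.2 j then ∏ j ∈ m x.1, p x.1 ⟨j, e j⟩ else 0

theorem cmat_mulVec {P : Type} (m : P → Finset ι) (p : P → (Σ i, Fin (c i)) → ℂ)
    (G : (∀ i, Fin (c i)) → ℂ) (x : P × ∀ i, Fin (c i)) :
    (cmat m p).mulVec G x = ctr (m x.1) (p x.1) G x.2 := by
  show ∑ e, cmat m p x e * G e = _
  unfold ctr
  refine sum_congr rfl fun e _ => ?_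
  show (if ∀ j, j ∉ m x.1 → e j = x.2 j then ∏ j ∈ m x.1, p x.1 ⟨j, e j⟩ else 0) * G e = _
  split_ifs
  · rfl
  · rw [zero_mul]

/-- `KE` as a space `Kx`. -/
theorem KE_eq_Kx (T : Finset ι) {P : Type} (m : P → Finset ι) (p : P → (Σ i, Fin (c i)) → ℂ)
    (E : Submodule ℂ ((∀ i, Fin (c i)) → ℂ)) :
    KE T m p E = Kx (cmat m p) (fun u w => mix T w u) E := by
  ext G
  rw [mem_KE, mem_Kx]
  refine and_congr Iff.rfl ?_
  constructor
  · intro h
    funext x
    rw [cmat_mulVec]
    exact h x.1 x.2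
  · intro h i w
    have h1 := congrFun h (i, w)
    rw [cmat_mulVec] at h1
    exact h1

theorem cmat_cont {X : Type*} [TopologicalSpace X] {P : Type} (m : P → Finset ι)
    (p : X → P → (Σ i, Fin (c i)) → ℂ) (hp : Continuous p) :
    Continuous fun x => cmat m (p x) := by
  refine continuous_matrix fun y e => ?_
  show Continuous fun x => if ∀ j, j ∉ m y.1 → e j = y.2 j then
    ∏ j ∈ m y.1, p x y.1 ⟨j, e j⟩ else 0
  split_ifs
  · refine continuous_finset_prod _ fun j _ => ?_
    exact (continuous_apply _).comp ((continuous_apply _).comp hp)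
  · exact continuous_const

/-- The additional points of a corner `η ≤ nh`. -/
abbrev PC (nh η : Finset ι → ℕ) : Type := {x : Σ S : Finset ι, Fin (nh S) // x.2.1 < η x.1}

/-- The kinds of the additional points of a corner. -/
def mC (nh η : Finset ι → ℕ) (x : PC nh η) : Finset ι := x.1.1

theorem KE_cover (T : Finset ι) {P₀ : Type} [Fintype P₀] (m₀ : P₀ → Finset ι)
    (r : P₀ → (Σ i, Fin (c i)) → ℂ) (nh : Finset ι → ℕ) (H : Finset (Finset ι → ℕ))
    (b : (Finset ι → ℕ) → ℕ → ℕ) (D : Submodule ℂ ((∀ i, Fin (c i)) → ℂ)) (S : Set ℕ)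
    (h : ∀ η ∈ H, ∀ E ≤ D, finrank ℂ E ∈ S → ∃ y : PC nh η → (Σ i, Fin (c i)) → ℂ,
      finrank ℂ (KE T (Sum.elim m₀ (mC nh η)) (Sum.elim r y) E) ≤ b η (finrank ℂ E)) :
    ∃ s : ℕ, 0 < s ∧ ∃ W : Fin s → Set ((Σ S : Finset ι, Fin (nh S)) → (Σ i, Fin (c i)) → ℂ),
      (∀ j, IsOpen (W j) ∧ (W j).Nonempty) ∧
      ∀ E ≤ D, finrank ℂ E ∈ S → ∃ j, ∀ y ∈ W j, ∀ η ∈ H,
        finrank ℂ (KE T (Sum.elim m₀ (mC nh η)) (Sum.elim r fun x : PC nh η => y x.1) E) ≤
          b η (finrank ℂ E) := by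
  classical
  obtain ⟨s, hs, W, hW, hcov⟩ := Kx_cover_fam
    (X := (Σ S : Finset ι, Fin (nh S)) → (Σ i, Fin (c i)) → ℂ) (H := {η // η ∈ H})
    (R := fun η => (P₀ ⊕ PC nh η.1) × ∀ i, Fin (c i))
    (fun η y => cmat (Sum.elim m₀ (mC nh η.1)) (Sum.elim r fun x : PC nh η.1 => y x.1))
    (fun η => cmat_cont _ _ (by
      refine continuous_pi fun x => ?_
      rcases x with x | x
      · exact continuous_const
      · exact continuous_apply _)) (fun u w => mix T w u) (fun η => b η.1) D S (by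
      intro E hE hES
      have h1 : Gn (Σ S : Finset ι, Fin (nh S)) (Σ i, Fin (c i)) fun y => ∀ η ∈ H,
          finrank ℂ (KE T (Sum.elim m₀ (mC nh η)) (Sum.elim r fun x : PC nh η => y x.1) E) ≤
            b η (finrank ℂ E) := by
        refine Gn.all H fun η hη => ?_
        refine (Gn.comap (fun x : PC nh η => x.1) Subtype.val_injective
          (gn_gE T m₀ r (mC nh η) E)).mono fun y hy => ?_
        obtain ⟨y', hy'⟩ := h η hη E hE hES
        have h2 : finrank ℂ (KE T (Sum.elim m₀ (mC nh η))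
            (Sum.elim r fun x : PC nh η => y x.1) E) = gE T m₀ r (mC nh η) E := hy
        rw [h2]
        exact (gE_le T m₀ r (mC nh η) E y').trans hy'
      obtain ⟨y, hy⟩ := h1.exists
      refine ⟨y, fun η => ?_⟩
      rw [← KE_eq_Kx]
      exact hy η.1 η.2)
  refine ⟨s, hs, W, hW, fun E hE hES => ?_⟩
  obtain ⟨j, hj⟩ := hcov E hE hES
  refine ⟨j, fun y hy η hη => ?_⟩
  rw [KE_eq_Kx]
  exact hj y hy ⟨η, hη⟩

end Pool.Agent.GD.BE

end
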