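import Pool.Agent.H94.LP7.M04
import Pool.Agent.H94.LP7.M09
import Pool.Agent.H94.LP7.M21
import Pool.Agent.H94.LP7.M34

/-! The parts of this file: H21.HD.Inst, H21.HD.Lower, XD.Sys. -/

section

/-!
Project HD: versions of some lemmas for arbitrary decidability instances.
-/

namespace Pool.Agent.H21.HD

open MvPolynomial Pool.Agent.H18.Fat

theorem fro_insert' {P : Type} [DecidableEq P] (r : ℕ) (e : P → ℕ) (I : Finset P) (i : P)
    (hi : i ∉ I) (j : ℕ) :
    fro r e (insert i I) j = fro r e I j - (if e i ≤ j then fro r e I (j - e i) else 0) := by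
  have h0 : ∀ D : DecidableEq P, @insert P (Finset P) (@Finset.instInsert P D) i I =
      Finset.cons i I hi := fun D => (Finset.cons_eq_insert i I hi).symm
  have h := fro_insert r e I i hi j
  rw [h0] at h ⊢
  exact h

theorem fro_simple' {P : Type} [DecidableEq P] (r d : ℕ) (e : P → ℕ) (I S : Finset P)
    (hd : Disjoint I S) (he : ∀ i ∈ I, 1 ≤ e i) (hd1 : 1 ≤ d) (hS : ∀ i ∈ S, e i = d) :
    fro r e (I ∪ S) d = fro r e I d - S.card := by
  have h0 : ∀ D : DecidableEq P, @Union.union (Finset P) (@Finset.instUnion P D) I S =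
      Finset.disjUnion I S hd := fun D => (Finset.disjUnion_eq_union I S hd).symm
  have h := fro_simple r d e I S hd he hd1 hS
  rw [h0] at h ⊢
  exact h

theorem finrank_fat_le_add' {r : ℕ} {ι : Type} [Fintype ι] [E : DecidableEq ι] (d : ℕ)
    (p : ι → Fin (r + 1) → ℂ) (m : ι → ℕ) (i₀ : ι) (e : ℕ) (he : e ≤ d) (hi₀ : m i₀ = 0) :
    Module.finrank ℂ (fatForms r d p m) ≤
      Module.finrank ℂ (fatForms r d p (Function.update m i₀ (d + 1 - e))) +
        Module.finrank ℂ (fatForms r (d - e) p (fun i => m i - e)) := by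
  have h := finrank_fat_le_add (r := r) d p m i₀ e he hi₀
  have h1 : ∀ D : DecidableEq ι, @Function.update ι (fun _ => ℕ) D m i₀ (d + 1 - e) =
      @Function.update ι (fun _ => ℕ) E m i₀ (d + 1 - e) := by
    intro D
    funext i
    by_cases hi : i = i₀
    · subst hi
      exact (@Function.update_self ι (fun _ => ℕ) D i (d + 1 - e) m).trans
        (@Function.update_self ι (fun _ => ℕ) E i (d + 1 - e) m).symm
    · exact (@Function.update_of_ne ι (fun _ => ℕ) D i i₀ hi (d + 1 - e) m).trans
        (@Function.update_of_ne ι (fun _ => ℕ) E i i₀ hi (d + 1 - e) m).symm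
  rw [h1] at h
  exact h

end Pool.Agent.H21.HD

end

section

/-!
Lower bound.
-/

namespace Pool.Agent.H21.HD

open MvPolynomial Pool.Agent.H18.Fat
open scoped Classical

namespace LowerX

/-- A finite conjunction of general properties is general. -/
lemma forGeneral_forall {r k : ℕ} {κ : Type} (S : Finset κ)
    (P : κ → (Fin k → Fin (r + 1) → ℂ) → Prop) (h : ∀ a ∈ S, ForGeneralPoints r k (P a)) :
    ForGeneralPoints r k fun p => ∀ a ∈ S, P a p := by
  induction S using Finset.induction_on with
  | empty => exact ⟨1, one_ne_zero, fun p _ a ha => absurd ha (Finset.notMem_empty a)⟩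
  | insert a s ha ih =>
    refine ((h a (Finset.mem_insert_self a s)).and
      (ih fun b hb => h b (Finset.mem_insert_of_mem hb))).mono ?_
    rintro p ⟨h1, h2⟩ b hb
    rcases Finset.mem_insert.1 hb with rfl | hb
    · exact h1
    · exact h2 b hb

lemma choose_step (r j : ℕ) :
    ((r : ℝ) + 1) * ((j + r).choose r : ℝ) ≤ ((j : ℝ) + 1) * ((j + 1 + r).choose r : ℝ) := by
  have h1 : (j + 1) * (j + 1 + r).choose r = (j + 1 + r) * (j + r).choose r := by
    have h2 := Nat.add_one_mul_choose_eq (j + r) j
    have h3 : (j + r).choose j = (j + r).choose r := Nat.choose_symm_add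
    have h4 : (j + r + 1).choose (j + 1) = (j + 1 + r).choose r := by
      have : j + r + 1 = j + 1 + r := by ring
      rw [this]
      exact Nat.choose_symm_add
    rw [h3, h4] at h2
    have h5 : j + 1 + r = j + r + 1 := by ring
    rw [h5] at h2 ⊢
    linarith
  have h2 : ((j : ℝ) + 1) * ((j + 1 + r).choose r : ℝ) =
      ((j : ℝ) + 1 + r) * ((j + r).choose r : ℝ) := by
    exact_mod_cast h1
  rw [h2]
  apply mul_le_mul_of_nonneg_right _ (by positivity)
  have : (0 : ℝ) ≤ j := by positivity
  linarith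

lemma choose_steps (r d : ℕ) : ∀ l ≤ d, ((r : ℝ) + 1) ^ l * ((d - l + r).choose r : ℝ) ≤
    (d.descFactorial l : ℝ) * ((d + r).choose r : ℝ) := by
  intro l
  induction l with
  | zero => intro _; simp
  | succ l ih =>
    intro hl
    have h1 := ih (by omega)
    have h2 := choose_step r (d - (l + 1))
    have h3 : d - (l + 1) + 1 = d - l := by omega
    rw [h3] at h2
    have h4 : ((d - (l + 1) : ℕ) : ℝ) + 1 = ((d - l : ℕ) : ℝ) := by
      have : (d - (l + 1) : ℕ) + 1 = d - l := by omega
      exact_mod_cast this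
    rw [h4] at h2
    rw [Nat.descFactorial_succ]
    push_cast [Nat.cast_mul]
    calc ((r : ℝ) + 1) ^ (l + 1) * ((d - (l + 1) + r).choose r : ℝ)
        = ((r : ℝ) + 1) ^ l * (((r : ℝ) + 1) * ((d - (l + 1) + r).choose r : ℝ)) := by ring
      _ ≤ ((r : ℝ) + 1) ^ l * (((d - l : ℕ) : ℝ) * ((d - l + r).choose r : ℝ)) :=
        mul_le_mul_of_nonneg_left h2 (by positivity)
      _ = ((d - l : ℕ) : ℝ) * (((r : ℝ) + 1) ^ l * ((d - l + r).choose r : ℝ)) := by ring
      _ ≤ ((d - l : ℕ) : ℝ) * ((d.descFactorial l : ℝ) * ((d + r).choose r : ℝ)) :=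
        mul_le_mul_of_nonneg_left h1 (by positivity)
      _ = _ := by ring

/-- The total number of forms of degree `d - e i`. -/
lemma sum_le (r d k : ℕ) (e : Fin k → ℕ) (he : ∀ i, 1 ≤ e i)
    (hload : ∀ i, 1 ≤ i → i ≤ d → load r e Finset.univ i ≤ 2) :
    ∑ i ∈ Finset.univ.filter (fun i : Fin k => e i ≤ d), ((d - e i + r).choose r : ℝ) ≤
      2 ^ (d + 1) * ((d + r).choose r : ℝ) := by
  have h1 : ∑ i ∈ Finset.univ.filter (fun i : Fin k => e i ≤ d), ((d - e i + r).choose r : ℝ) =
      ∑ l ∈ Finset.range (d + 1), ∑ i ∈ (Finset.univ.filter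
        (fun i : Fin k => e i ≤ d)).filter (fun i => e i = l), ((d - e i + r).choose r : ℝ) := by
    rw [Finset.sum_fiberwise_of_maps_to]
    intro i hi
    rw [Finset.mem_filter] at hi
    rw [Finset.mem_range]
    omega
  rw [h1]
  have h2 : ∀ l ∈ Finset.range (d + 1), ∑ i ∈ (Finset.univ.filter
        (fun i : Fin k => e i ≤ d)).filter (fun i => e i = l), ((d - e i + r).choose r : ℝ) ≤
      2 * ((d.choose l : ℝ) * ((d + r).choose r : ℝ)) := by
    intro l hl
    rw [Finset.mem_range] at hl
    have h3 : ∑ i ∈ (Finset.univ.filter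
        (fun i : Fin k => e i ≤ d)).filter (fun i => e i = l), ((d - e i + r).choose r : ℝ) =
        ((Finset.univ.filter (fun i : Fin k => e i = l)).card : ℝ) *
          ((d - l + r).choose r : ℝ) := by
      have h4 : (Finset.univ.filter (fun i : Fin k => e i ≤ d)).filter (fun i => e i = l) =
          Finset.univ.filter (fun i : Fin k => e i = l) := by
        ext i
        simp only [Finset.mem_filter, Finset.mem_univ, true_and]
        constructor
        · rintro ⟨_, h5⟩; exact h5
        · intro h5; exact ⟨by omega, h5⟩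
      rw [h4, Finset.sum_congr rfl (g := fun _ => ((d - l + r).choose r : ℝ)), Finset.sum_const,
        nsmul_eq_mul]
      intro i hi
      rw [(Finset.mem_filter.1 hi).2]
    rw [h3]
    rcases Nat.eq_zero_or_pos l with hl0 | hl0
    · subst hl0
      have h4 : Finset.univ.filter (fun i : Fin k => e i = 0) = ∅ := by
        rw [Finset.filter_eq_empty_iff]
        intro i _ h5
        have := he i
        omega
      rw [h4]
      simp only [Finset.card_empty, Nat.cast_zero, zero_mul]
      positivity
    · have h4 := hload l hl0 (by omega)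
      unfold load at h4
      rw [div_le_iff₀ (by positivity)] at h4
      have h5 := choose_steps r d l (by omega)
      have h6 : (d.descFactorial l : ℝ) = (l.factorial : ℝ) * (d.choose l : ℝ) := by
        exact_mod_cast Nat.descFactorial_eq_factorial_mul_choose d l
      have h7 : (0 : ℝ) < (l.factorial : ℝ) := by exact_mod_cast l.factorial_pos
      rw [h6] at h5
      apply le_of_mul_le_mul_left _ h7
      calc (l.factorial : ℝ) * (((Finset.univ.filter (fun i : Fin k => e i = l)).card : ℝ) *
          ((d - l + r).choose r : ℝ))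
          = ((l.factorial : ℝ) * ((Finset.univ.filter (fun i : Fin k => e i = l)).card : ℝ)) *
          ((d - l + r).choose r : ℝ) := by ring
        _ ≤ (2 * ((r : ℝ) + 1) ^ l) * ((d - l + r).choose r : ℝ) :=
          mul_le_mul_of_nonneg_right h4 (by positivity)
        _ = 2 * (((r : ℝ) + 1) ^ l * ((d - l + r).choose r : ℝ)) := by ring
        _ ≤ 2 * ((l.factorial : ℝ) * (d.choose l : ℝ) * ((d + r).choose r : ℝ)) := by linarith
        _ = _ := by ring
  refine (Finset.sum_le_sum h2).trans ?_
  rw [← Finset.mul_sum, ← Finset.sum_mul]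
  have h3 : ∑ l ∈ Finset.range (d + 1), (d.choose l : ℝ) = 2 ^ d := by
    exact_mod_cast Nat.sum_range_choose d
  rw [h3, pow_succ]
  apply le_of_eq
  ring

/-- The indices below `t`. -/
noncomputable def pre (k t : ℕ) : Finset (Fin k) := Finset.univ.filter (fun i => i.val < t)

lemma mem_pre {k t : ℕ} {i : Fin k} : i ∈ pre k t ↔ i.val < t := by
  unfold pre
  simp

/-- The forms for the points in `I`. -/
noncomputable def mu {k : ℕ} (e : Fin k → ℕ) (I : Finset (Fin k)) (j : ℕ) : Fin k → ℕ :=
  fun i => if i ∈ I then j + 1 - e i else 0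

lemma load_mono {P : Type} (r : ℕ) (e : P → ℕ) {I I' : Finset P} (h : I ⊆ I') (i : ℕ) :
    load r e I i ≤ load r e I' i := by
  unfold load
  apply div_le_div_of_nonneg_right _ (by positivity)
  apply mul_le_mul_of_nonneg_left _ (by positivity)
  exact_mod_cast Finset.card_le_card (Finset.filter_subset_filter _ h)

/-- The telescoping inequality. -/
lemma telescope {r k d : ℕ} (e : Fin k → ℕ) (he : ∀ i, 1 ≤ e i) (p : Fin k → Fin (r + 1) → ℂ)
    (ε : ℝ) (h : ∀ t ≤ k, ∀ j < d, (Module.finrank ℂ (fatForms r j p (mu e (pre k t) j)) : ℝ) ≤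
      (fro r e (pre k t) j : ℝ) + ε * ((j + r).choose r : ℝ)) :
    ∀ t ≤ k, (fro r e (pre k t) d : ℝ) -
      ε * ∑ i ∈ (pre k t).filter (fun i => e i ≤ d), ((d - e i + r).choose r : ℝ) ≤
      (Module.finrank ℂ (fatForms r d p (mu e (pre k t) d)) : ℝ) := by
  intro t
  induction t with
  | zero =>
    intro _
    have h1 : pre k 0 = ∅ := by
      ext i
      simp [mem_pre]
    rw [h1]
    have h2 : fro r e ∅ d = ((d + r).choose r : ℤ) := by
      unfold fro
      simp [add_comm r d]
    rw [h2]
    have h3 : fatForms r d p (mu e ∅ d) = homogeneousSubmodule (Fin (r + 1)) ℂ d := by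
      ext F
      constructor
      · intro hF
        exact hF.1
      · intro hF
        refine ⟨hF, fun i => ?_⟩
        intro β hβ
        simp [mu] at hβ
    have h4 : Module.finrank ℂ (fatForms r d p (mu e ∅ d)) = (d + r).choose r := by
      have h5 := rank_full_add_finrank (d := d) p (mu e ∅ d)
      have h6 : Module.finrank ℂ (LinearMap.range (fullMat r d p (mu e ∅ d)).mulVecLin) = 0 := by
        have h7 : (fullMat r d p (mu e ∅ d)) = 0 := by
          ext x α
          exfalso
          obtain ⟨i, β, hβ⟩ := x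
          rw [mem_full] at hβ
          simp [mu] at hβ
        rw [h7]
        simp
      omega
    rw [h4]
    simp
  | succ t ih =>
    intro ht
    have ih1 := ih (by omega)
    let i₀ : Fin k := ⟨t, by omega⟩
    have hi₀ : i₀ ∉ pre k t := by
      rw [mem_pre]
      simp [i₀]
    have hpre : pre k (t + 1) = insert i₀ (pre k t) := by
      ext i
      rw [Finset.mem_insert, mem_pre, mem_pre, Fin.ext_iff]
      simp only [i₀]
      omega
    have hmu0 : mu e (pre k t) d i₀ = 0 := by
      unfold mu
      rw [if_neg hi₀]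
    by_cases hed : e i₀ ≤ d
    · have h1 := finrank_fat_le_add' d p (mu e (pre k t) d) i₀ (e i₀) hed hmu0
      have h2 : Function.update (mu e (pre k t) d) i₀ (d + 1 - e i₀) = mu e (pre k (t + 1)) d := by
        funext i
        by_cases hi : i = i₀
        · subst hi
          rw [Function.update_self]
          unfold mu
          rw [hpre, if_pos (Finset.mem_insert_self _ _)]
        · rw [Function.update_of_ne hi]
          unfold mu
          rw [hpre]
          by_cases hi' : i ∈ pre k t
          · rw [if_pos hi', if_pos (Finset.mem_insert_of_mem hi')]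
          · rw [if_neg hi', if_neg (by
              rw [Finset.mem_insert]
              tauto)]
      have h3 : (fun i => mu e (pre k t) d i - e i₀) = mu e (pre k t) (d - e i₀) := by
        funext i
        unfold mu
        by_cases hi' : i ∈ pre k t
        · rw [if_pos hi', if_pos hi']
          omega
        · rw [if_neg hi', if_neg hi']
          omega
      have h1' : Module.finrank ℂ (fatForms r d p (mu e (pre k t) d)) ≤
          Module.finrank ℂ (fatForms r d p (mu e (pre k (t + 1)) d)) +
          Module.finrank ℂ (fatForms r (d - e i₀) p (mu e (pre k t) (d - e i₀))) := by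
        rw [← h2, ← h3]
        exact h1
      have h4 := h t (by omega) (d - e i₀) (by have := he i₀; omega)
      have h5 : fro r e (pre k (t + 1)) d = fro r e (pre k t) d - fro r e (pre k t) (d - e i₀) := by
        rw [hpre]
        have h6 := fro_insert' r e (pre k t) i₀ hi₀ d
        rw [if_pos hed] at h6
        exact h6
      have h6 : (pre k (t + 1)).filter (fun i => e i ≤ d) =
          insert i₀ ((pre k t).filter (fun i => e i ≤ d)) := by
        rw [hpre]
        ext i
        simp only [Finset.mem_filter, Finset.mem_insert]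
        constructor
        · rintro ⟨rfl | h7, h8⟩
          · exact Or.inl rfl
          · exact Or.inr ⟨h7, h8⟩
        · rintro (rfl | ⟨h7, h8⟩)
          · exact ⟨Or.inl rfl, hed⟩
          · exact ⟨Or.inr h7, h8⟩
      have h7 : (Module.finrank ℂ (fatForms r d p (mu e (pre k t) d)) : ℝ) ≤
          (Module.finrank ℂ (fatForms r d p (mu e (pre k (t + 1)) d)) : ℝ) +
          (Module.finrank ℂ (fatForms r (d - e i₀) p (mu e (pre k t) (d - e i₀))) : ℝ) := by
        exact_mod_cast h1'
      rw [h5, h6, Finset.sum_insert (by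
        rw [Finset.mem_filter]
        tauto)]
      push_cast
      linarith
    · have h2 : mu e (pre k (t + 1)) d = mu e (pre k t) d := by
        funext i
        unfold mu
        rw [hpre]
        by_cases hi : i = i₀
        · subst hi
          rw [if_pos (Finset.mem_insert_self _ _), if_neg hi₀]
          omega
        · by_cases hi' : i ∈ pre k t
          · rw [if_pos hi', if_pos (Finset.mem_insert_of_mem hi')]
          · rw [if_neg hi', if_neg (by
              rw [Finset.mem_insert]
              tauto)]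
      have h5 : fro r e (pre k (t + 1)) d = fro r e (pre k t) d := by
        rw [hpre]
        have h6 := fro_insert' r e (pre k t) i₀ hi₀ d
        rw [if_neg hed, sub_zero] at h6
        exact h6
      have h6 : (pre k (t + 1)).filter (fun i => e i ≤ d) =
          ((pre k t).filter (fun i => e i ≤ d)) := by
        rw [hpre]
        ext i
        simp only [Finset.mem_filter, Finset.mem_insert]
        constructor
        · rintro ⟨rfl | h7, h8⟩
          · exact absurd h8 hed
          · exact ⟨h7, h8⟩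
        · rintro ⟨h7, h8⟩
          exact ⟨Or.inr h7, h8⟩
      rw [h2, h5, h6]
      exact ih1

end LowerX

open LowerX

end Pool.Agent.H21.HD

end

section

/-!
# Project XD: forms with prescribed exponents, leading exponents

`sup L`: the polynomials with exponents in `L`.  `Ld d W`: the highest exponents (colexicographic
order) of the forms of degree `d` in `W`.
-/

set_option autoImplicit false

namespace Pool.Agent.XD

open Finset MvPolynomial Pool.Agent.H18.Fat Pool.Agent.H51.TB

/-- The polynomials with exponents in `L`. -/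
def sup {n : ℕ} (L : Finset (Fin n →₀ ℕ)) : Submodule ℂ (MvPolynomial (Fin n) ℂ) where
  carrier := {F | ∀ α, α ∉ L → coeff α F = 0}
  zero_mem' := fun α _ => coeff_zero α
  add_mem' := fun {F G} hF hG α hα => by rw [coeff_add, hF α hα, hG α hα, add_zero]
  smul_mem' := fun c F hF α hα => by rw [coeff_smul, hF α hα, smul_zero]

/-- The colexicographic order of the exponents. -/
def clt {n : ℕ} (u v : Fin n →₀ ℕ) : Prop := ∃ i, u i < v i ∧ ∀ j, i < j → u j = v j

/-- The exponents of degree `d`. -/
def Ex (n d : ℕ) : Type := {α // α ∈ mons n d}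

noncomputable instance (n d : ℕ) : Fintype (Ex n d) :=
  inferInstanceAs (Fintype {α // α ∈ mons n d})

/-- The order on the exponents. -/
noncomputable instance (n d : ℕ) : LinearOrder (Ex n d) :=
  LinearOrder.lift' (fun α : Ex n d => toColex (⇑α.1 : Fin n → ℕ)) fun α β h =>
    Subtype.ext (DFunLike.coe_injective (toColex.injective h))

theorem lt_iff_clt {n d : ℕ} {u v : Ex n d} : u < v ↔ clt u.1 v.1 := by
  constructor
  · rintro ⟨i, h1, h2⟩
    exact ⟨i, h2, fun j hj => h1 j hj⟩
  · rintro ⟨i, h1, h2⟩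
    exact ⟨i, fun j hj => h2 j hj, h1⟩

theorem clt_irrefl {n : ℕ} (u : Fin n →₀ ℕ) : ¬ clt u u := by
  rintro ⟨i, h, _⟩
  exact lt_irrefl _ h

theorem clt_trans {n : ℕ} {u v w : Fin n →₀ ℕ} (h1 : clt u v) (h2 : clt v w) : clt u w := by
  obtain ⟨i, hi, hi'⟩ := h1
  obtain ⟨k, hk, hk'⟩ := h2
  rcases lt_trichotomy i k with h | h | h
  · exact ⟨k, by rw [hi' k h]; exact hk, fun j hj => (hi' j (h.trans hj)).trans (hk' j hj)⟩
  · subst h
    exact ⟨i, hi.trans hk, fun j hj => (hi' j hj).trans (hk' j hj)⟩
  · exact ⟨i, by rw [← hk' i h]; exact hi, fun j hj => (hi' j hj).trans (hk' j (h.trans hj))⟩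

theorem clt_trichotomy {n d : ℕ} {u v : Fin n →₀ ℕ} (hu : u ∈ mons n d) (hv : v ∈ mons n d) :
    clt u v ∨ u = v ∨ clt v u := by
  let u' : Ex n d := ⟨u, hu⟩
  let v' : Ex n d := ⟨v, hv⟩
  rcases lt_trichotomy u' v' with h | h | h
  · exact Or.inl (lt_iff_clt.1 h)
  · exact Or.inr (Or.inl (congrArg Subtype.val h))
  · exact Or.inr (Or.inr (lt_iff_clt.1 h))

theorem clt_add_iff {n : ℕ} {u v : Fin n →₀ ℕ} (w : Fin n →₀ ℕ) : clt (u + w) (v + w) ↔ clt u v := by
  unfold clt
  simp only [Finsupp.add_apply, add_lt_add_iff_right, add_left_inj]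

open Classical in
/-- The highest exponents of the forms of degree `d` in `W`. -/
noncomputable def Ld {n : ℕ} (d : ℕ) (W : Submodule ℂ (MvPolynomial (Fin n) ℂ)) :
    Finset (Fin n →₀ ℕ) :=
  (mons n d).filter fun v => ∃ F ∈ W, coeff v F ≠ 0 ∧ ∀ u, clt v u → coeff u F = 0

theorem mem_Ld {n d : ℕ} {W : Submodule ℂ (MvPolynomial (Fin n) ℂ)} {v : Fin n →₀ ℕ} :
    v ∈ Ld d W ↔ v ∈ mons n d ∧ ∃ F ∈ W, coeff v F ≠ 0 ∧ ∀ u, clt v u → coeff u F = 0 := by
  classical
  unfold Ld
  simp only [mem_filter]

/-- The number of highest exponents in an initial segment is a dimension. -/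
theorem card_Ld {n d : ℕ} (W : Submodule ℂ (MvPolynomial (Fin n) ℂ))
    (hW : ∀ F ∈ W, F.IsHomogeneous d) (L : Finset (Fin n →₀ ℕ))
    (hL : ∀ v ∈ L, ∀ u ∈ mons n d, clt u v → u ∈ L) (hLd : L ⊆ mons n d) :
    ((Ld d W).filter fun v => v ∈ L).card =
      Module.finrank ℂ (W ⊓ sup L : Submodule ℂ (MvPolynomial (Fin n) ℂ)) := by
  classical
  let W' : Submodule ℂ (Ex n d → ℂ) := W.comap (toPoly n d)
  let L' : Finset (Ex n d) := univ.filter fun α => α.1 ∈ L
  have h1 := card_Lead_inter W' L' (by
    intro v hv u hu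
    rw [mem_filter] at hv ⊢
    refine ⟨mem_univ _, ?_⟩
    rcases eq_or_lt_of_le hu with h | h
    · rw [h]
      exact hv.2
    · exact hL v.1 hv.2 u.1 u.2 (lt_iff_clt.1 h))
  have h2 : ((Ld d W).filter fun v => v ∈ L).card = ((Lead W').filter fun v => v ∈ L').card := by
    symm
    refine card_bij (fun v _ => v.1) ?_ ?_ ?_
    · intro v hv
      rw [mem_filter, mem_Lead, mem_filter] at hv
      obtain ⟨⟨f, hf, hfv, hfu⟩, _, hvL⟩ := hv
      rw [mem_filter, mem_Ld]
      refine ⟨⟨v.2, toPoly n d f, hf, ?_, fun u hu => ?_⟩, hvL⟩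
      · rw [coeff_toPoly]
        exact hfv
      · by_cases hud : u ∈ mons n d
        · rw [coeff_toPoly f ⟨u, hud⟩]
          exact hfu ⟨u, hud⟩ (lt_iff_clt.2 hu)
        · rw [mem_mons] at hud
          exact (toPoly_isHomogeneous f).coeff_eq_zero hud
    · intro v _ w _ h
      exact Subtype.ext h
    · intro v hv
      rw [mem_filter, mem_Ld] at hv
      obtain ⟨⟨hvd, F, hF, hFv, hFu⟩, hvL⟩ := hv
      refine ⟨⟨v, hvd⟩, ?_, rfl⟩
      rw [mem_filter, mem_Lead, mem_filter]
      refine ⟨⟨fun α => coeff α.1 F, ?_, hFv, fun u hu => hFu u.1 (lt_iff_clt.1 hu)⟩,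
        mem_univ _, hvL⟩
      show toPoly n d (fun α => coeff α.1 F) ∈ W
      rw [exists_toPoly (hW F hF)]
      exact hF
  rw [h2, h1]
  have h3 : (Rst W' L').map (toPoly n d) = W ⊓ sup L := by
    ext F
    constructor
    · rintro ⟨f, ⟨hf1, hf2⟩, rfl⟩
      refine ⟨hf1, fun α hα => ?_⟩
      by_cases hαd : α ∈ mons n d
      · rw [coeff_toPoly f ⟨α, hαd⟩]
        refine hf2 ⟨α, hαd⟩ fun h => hα ?_
        exact (mem_filter.1 h).2
      · rw [mem_mons] at hαd
        exact (toPoly_isHomogeneous f).coeff_eq_zero hαd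
    · rintro ⟨hF1, hF2⟩
      refine ⟨fun α => coeff α.1 F, ⟨?_, fun α hα => ?_⟩, exists_toPoly (hW F hF1)⟩
      · show toPoly n d (fun α => coeff α.1 F) ∈ W
        rw [exists_toPoly (hW F hF1)]
        exact hF1
      · refine hF2 α.1 fun h => hα ?_
        exact mem_filter.2 ⟨mem_univ _, h⟩
  rw [← h3]
  exact (Submodule.equivMapOfInjective _ (toPoly_injective n d) _).finrank_eq

/-! ### The system of the forms with exponents in `L` -/

/-- The system of the conditions on the forms with exponents in `L`. -/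
noncomputable def GS {n : ℕ} (L : Finset (Fin n →₀ ℕ)) : Pool.Agent.H51.TB.Sys {α // α ∈ L} (Fin n) ℕ where
  R := fun m => {β // β ∈ full n m}
  fin := fun m => inferInstance
  co := fun m β α => ∏ j, (C ((α.1 j).choose (β.1 j) : ℂ) * X j ^ (α.1 j - β.1 j))

theorem mem_GS {n : ℕ} {L : Finset (Fin n →₀ ℕ)} {κ : Type} {m : κ → ℕ} {p : κ → Fin n → ℂ}
    {f : {α // α ∈ L} → ℂ} : f ∈ (GS L).V m p ↔ ∀ i (β : Fin n →₀ ℕ), β.degree < m i →
      ∑ α : {α // α ∈ L}, tc (p i) α.1 β * f α = 0 := by
  rw [Pool.Agent.H51.TB.Sys.mem_V]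
  have h0 : ∀ i (β : Fin n →₀ ℕ) (α : {α // α ∈ L}),
      eval (p i) (∏ j, (C ((α.1 j).choose (β j) : ℂ) * X j ^ (α.1 j - β j))) =
        tc (p i) α.1 β := by
    intro i β α
    rw [map_prod]
    unfold tc
    refine prod_congr rfl fun j _ => ?_
    rw [map_mul, eval_C, map_pow, eval_X]
  constructor
  · intro h i β hβ
    rw [← h i ⟨β, mem_full.2 hβ⟩]
    refine sum_congr rfl fun α _ => ?_
    rw [← h0]
    rfl
  · intro h i β
    rw [← h i β.1 (mem_full.1 β.2)]
    refine sum_congr rfl fun α _ => ?_
    rw [← h0]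
    rfl

/-- The forms with exponents in `L` and their coefficients. -/
theorem finrank_GS {r d : ℕ} {κ : Type} (m : κ → ℕ) (p : κ → Fin (r + 1) → ℂ)
    (L : Finset (Fin (r + 1) →₀ ℕ)) (hL : L ⊆ mons (r + 1) d) :
    Module.finrank ℂ ((GS L).V m p) =
      Module.finrank ℂ (fatForms r d p m ⊓ sup L : Submodule ℂ (MvPolynomial (Fin (r + 1)) ℂ)) := by
  classical
  let P : ({α // α ∈ L} → ℂ) →ₗ[ℂ] MvPolynomial (Fin (r + 1)) ℂ :=
    { toFun := fun f => ∑ α : {α // α ∈ L}, monomial α.1 (f α)
      map_add' := fun f g => by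
        rw [← sum_add_distrib]
        exact sum_congr rfl fun α _ => by simp
      map_smul' := fun c f => by
        rw [RingHom.id_apply, smul_sum]
        exact sum_congr rfl fun α _ => by simp [smul_monomial] }
  have hP : ∀ f, P f = ∑ α : {α // α ∈ L}, monomial α.1 (f α) := fun f => rfl
  have hc : ∀ f (α : {α // α ∈ L}), coeff α.1 (P f) = f α := by
    intro f α
    rw [hP, coeff_sum]
    simp only [coeff_monomial, Subtype.coe_inj]
    simp
  have hc0 : ∀ f (α : Fin (r + 1) →₀ ℕ), α ∉ L → coeff α (P f) = 0 := by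
    intro f α hα
    rw [hP, coeff_sum]
    refine sum_eq_zero fun β _ => ?_
    rw [coeff_monomial, if_neg]
    intro h
    exact hα (h ▸ β.2)
  have hinj : Function.Injective P := by
    intro f g h
    funext α
    rw [← hc f α, ← hc g α, h]
  have hsh : ∀ (q : Fin (r + 1) → ℂ) (β : Fin (r + 1) →₀ ℕ) (f : {α // α ∈ L} → ℂ),
      coeff β (shift q (P f)) = ∑ α : {α // α ∈ L}, tc q α.1 β * f α := by
    intro q β f
    rw [hP]
    unfold shift
    rw [map_sum, coeff_sum]
    refine sum_congr rfl fun α _ => ?_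
    rw [mul_comm]
    exact coeff_shift_monomial q α.1 β _
  have h3 : ((GS L).V m p).map P = fatForms r d p m ⊓ sup L := by
    ext F
    constructor
    · rintro ⟨f, hf, rfl⟩
      rw [SetLike.mem_coe, mem_GS] at hf
      refine ⟨⟨?_, fun i β hβ => ?_⟩, fun α hα => hc0 f α hα⟩
      · rw [hP]
        apply IsHomogeneous.sum
        intro α _
        exact isHomogeneous_monomial _ (mem_mons.1 (hL α.2))
      · rw [hsh]
        exact hf i β hβ
    · rintro ⟨hF1, hF2⟩
      have hPF : P (fun α => coeff α.1 F) = F := by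
        ext α
        by_cases hα : α ∈ L
        · exact hc (fun α => coeff α.1 F) ⟨α, hα⟩
        · rw [hc0 _ α hα, hF2 α hα]
      refine ⟨fun α => coeff α.1 F, ?_, hPF⟩
      rw [SetLike.mem_coe, mem_GS]
      intro i β hβ
      rw [← hsh, hPF]
      exact hF1.2 i β hβ
  rw [← h3]
  exact (Submodule.equivMapOfInjective _ hinj _).finrank_eq

/-- Semicontinuity with prescribed exponents. -/
theorem gn_sup {r d : ℕ} {κ : Type} [Fintype κ] (m : κ → ℕ) (L : Finset (Fin (r + 1) →₀ ℕ))
    (hL : L ⊆ mons (r + 1) d) : Gn κ (Fin (r + 1)) fun p => ∀ p' : κ → Fin (r + 1) → ℂ,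
      Module.finrank ℂ (fatForms r d p m ⊓ sup L : Submodule ℂ (MvPolynomial (Fin (r + 1)) ℂ)) ≤
      Module.finrank ℂ
        (fatForms r d p' m ⊓ sup L : Submodule ℂ (MvPolynomial (Fin (r + 1)) ℂ)) := by
  refine (gn_gd (GS L) m).mono fun p hp p' => ?_
  rw [← finrank_GS m p L hL, ← finrank_GS m p' L hL, hp]
  exact gd_le _ m p'

end Pool.Agent.XD

end
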