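import Pool.Agent.H94.LP7.M15
import Pool.Agent.H94.LP7.M24
import Pool.Agent.H94.LP7.M37
import Pool.Agent.H94.LP7.M48
import Pool.Agent.H94.LP7.M51

/-! The parts of this file: H74.V9.Fixed, GD.AL.XO, GD.AL.XOd, GD.GA.Num, GD.AL.H1_1, GD.Top.Drop, GD.AL.BTc. -/

section

/-!
# Fixed degree: the classification off a thin layer, in one statement

Here `N = r + 1 - #{i | m i = d}` is the number of variables left when the cones are removed.
-/

set_option autoImplicit false

namespace Pool.Agent.H74.V9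

open Finset Pool.Agent.H18.Fat Pool.Agent.H21.HD

theorem fro_zero_eq {P : Type} (r : ℕ) (E : P → ℕ) (I : Finset P) (hE : ∀ i ∈ I, 1 ≤ E i) :
    fro r E I 0 = 1 := by
  classical
  induction I using Finset.induction_on with
  | empty => simp [fro]
  | insert a s ha ih =>
    have h1 := hE a (mem_insert_self a s)
    rw [fro_insert' r E s a ha 0, if_neg (by omega), ih fun i hi => hE i (mem_insert_of_mem hi),
      sub_zero]

/-- The coefficient of `t`. -/
theorem fro_one_add {P : Type} [DecidableEq P] (r : ℕ) (E : P → ℕ) (I : Finset P)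
    (hE : ∀ i ∈ I, 1 ≤ E i) :
    fro r E I 1 + ((I.filter fun i => E i = 1).card : ℤ) = r + 1 := by
  induction I using Finset.induction_on with
  | empty => simp [fro]
  | insert a s ha ih =>
    have h1 := hE a (mem_insert_self a s)
    have h2 := ih fun i hi => hE i (mem_insert_of_mem hi)
    rw [fro_insert' r E s a ha 1, filter_insert]
    by_cases h3 : E a = 1
    · rw [if_pos h3, if_pos (by omega), h3, Nat.sub_self,
        fro_zero_eq r E s fun i hi => hE i (mem_insert_of_mem hi),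
        card_insert_of_notMem (by rw [mem_filter]; tauto)]
      push_cast
      linarith
    · rw [if_neg h3, if_neg (by omega)]
      linarith

end Pool.Agent.H74.V9

end

section

/-!
# General d, ALPHA: exactness of the states with ordinary objects
-/

set_option autoImplicit false

namespace Pool.Agent.GD.AL

open Finset

section XO

private theorem nz_nn_xo (c0 : ℕ → ℕ) (n0 : ℕ) (I : Finset ℕ) (D : ℕ) : 0 ≤ nz c0 n0 I D := by
  unfold nz
  positivity

theorem pos_anti {J : ℕ} {c0 : ℕ → ℕ} {n0 : ℕ} {η η' : ℝ} (h : η' ≤ η) {σ : St}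
    {I : Finset ℕ} {D : ℕ} (hp : Pos J c0 n0 η σ I D) : Pos J c0 n0 η' σ I D :=
  fun I' hI' D' h1 h2 =>
    (mul_le_mul_of_nonneg_right h (nz_nn_xo c0 n0 I' D')).trans (hp I' hI' D' h1 h2)

theorem inO_anti {d J : ℕ} {c0 : ℕ → ℕ} {n0 : ℕ} {ϖ ϖ' : ℝ} (h : ϖ' ≤ ϖ) {σ : St}
    {I : Finset ℕ} (ho : InO d J c0 n0 ϖ I σ) : InO d J c0 n0 ϖ' I σ where
  c := ho.c
  c' := fun l hl => (mul_le_mul_of_nonneg_right h (Nat.cast_nonneg _)).trans (ho.c' l hl)
  n := ho.n
  w := (mul_le_mul_of_nonneg_right h (Nat.cast_nonneg _)).trans ho.w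
  adm := ho.adm

theorem inO_sub {d J : ℕ} {c0 : ℕ → ℕ} {n0 : ℕ} {ϖ : ℝ} {σ : St}
    {I I' : Finset ℕ} (hI : I' ⊆ I) (ho : InO d J c0 n0 ϖ I σ) : InO d J c0 n0 ϖ I' σ where
  c := ho.c
  c' := fun l hl => ho.c' l (hI hl)
  n := ho.n
  w := ho.w
  adm := ho.adm

theorem hr_mono {i J : ℕ} {F F' : (ℕ → ℕ) → ℕ} (h : ∀ r, F' r ≤ F r) {c0 : ℕ → ℕ}
    (hr : Hr i J F c0) : Hr i J F' c0 := fun l h1 h2 => (h _).trans (hr l h1 h2)

theorem ev_log (K : ℝ) (hK : 0 < K) : ∃ n1 : ℕ, ∀ n : ℕ, n1 ≤ n →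
    K * (1 + Real.log n) ≤ (n : ℝ) := by
  have h1 := (Real.isLittleO_log_id_atTop.bound (show (0 : ℝ) < 1 / (2 * K) by positivity))
  have h2 := tendsto_natCast_atTop_atTop (R := ℝ) |>.eventually h1
  have h3 := tendsto_natCast_atTop_atTop (R := ℝ) |>.eventually (Filter.eventually_ge_atTop (2 * K))
  obtain ⟨n1, hn1⟩ := Filter.eventually_atTop.1 (h2.and h3)
  refine ⟨n1, fun n hn => ?_⟩
  obtain ⟨h4, h5⟩ := hn1 n hn
  simp only [Real.norm_eq_abs, id_eq, Nat.abs_cast] at h4
  have h6 : Real.log n ≤ 1 / (2 * K) * n := (le_abs_self _).trans h4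
  have h7 := mul_le_mul_of_nonneg_left h6 hK.le
  have h8 : K * (1 / (2 * K) * n) = (n : ℝ) / 2 := by
    field_simp
  rw [h8] at h7
  linarith

end XO

end Pool.Agent.GD.AL

end

section

/-!
# General d, ALPHA: exactness of the states with ordinary objects, definition
-/

set_option autoImplicit false

namespace Pool.Agent.GD.AL

/-- Exactness of the states with ordinary objects. -/
def XO (d J D : ℕ) : Prop := ∀ η ϖ : ℝ, 0 < η → 0 < ϖ → ∃ F : (ℕ → ℕ) → ℕ, ∀ c0 : ℕ → ℕ,
  Hr 0 J F c0 → ∃ n1 : ℕ, ∀ n0, n1 ≤ n0 → ∀ (σ : St) (I : Finset ℕ), I ⊆ Finset.range J →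
    InO d J c0 n0 ϖ I σ → Pos J c0 n0 η σ I D → σ.Ex d J I D

end Pool.Agent.GD.AL

end

section

/-!
# General d, block GAMMA: the numbers of the ordinary main points of a class

`ord_ge`: on the last level there are at least `kap e / 4 * n ^ (e - |K|)` ordinary points of every kind
`ord e A`, `A ⊂ range J`, `|K| < e` (`K = range J \ A`): the members of the clusters are a small share
(`1 / c i`, or a smaller power of `n`).
-/

set_option autoImplicit false
set_option linter.unusedSectionVars false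

namespace Pool.Agent.GD.GA

open Finset

/-- All types of clusters. -/
def cts (d J : ℕ) : Finset CT :=
  ((range (d + 1) ×ˢ (range J).powerset).image fun x => CT.pl x.1 x.2) ∪
    ((range J).powerset.image CT.b0 ∪ (range (J + 1)).image CT.br)

theorem mem_cts {d e i J : ℕ} (hi : i < J) {τ : CT} (h : τ.Ok d e i J) : τ ∈ cts d J := by
  unfold cts
  rw [mem_union, mem_union]
  rcases τ with ⟨k, S⟩ | S | r
  · left
    obtain ⟨h1, h2, h3, h4⟩ := h
    rw [mem_image]
    refine ⟨(k, S), ?_, rfl⟩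
    rw [mem_product, mem_range, mem_powerset]
    refine ⟨?_, fun x hx => ?_⟩
    · have h5 := Nat.div_le_self (d - i - 1) (e - 1)
      show k < d + 1
      omega
    · have := mem_Ico.1 (h3 hx)
      exact mem_range.2 this.2
  · right
    left
    obtain ⟨h1, h3, h4⟩ := h
    rw [mem_image]
    refine ⟨S, ?_, rfl⟩
    rw [mem_powerset]
    intro x hx
    have := mem_Ico.1 (h3 hx)
    exact mem_range.2 this.2
  · right
    right
    obtain ⟨h1, h2⟩ := h
    rw [mem_image]
    exact ⟨r, mem_range.2 (by omega), rfl⟩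

/-- The number of the points `(e, A)` of an object. -/
def gk (e : ℕ) (A : Finset ℕ) (k : Kd) : ℕ := k.pts.count (e, A)

theorem npt_eq (ms : Multiset Kd) (e : ℕ) (A : Finset ℕ) : npt ms e A = (ms.map (gk e A)).sum := by
  unfold npt gk
  rw [Multiset.count_bind]

theorem gk_ord (e : ℕ) (A : Finset ℕ) (x : ℕ) (B : Finset ℕ) :
    gk e A (.ord x B) = if (e, A) = (x, B) then 1 else 0 := by
  unfold gk Kd.pts
  rw [Multiset.count_singleton]

/-- The number of the points `(e, A)` is at most the number of the ordinary ones plus the number of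
the members of clusters. -/
theorem npt_le {d e J : ℕ} (ms : Multiset Kd) (A : Finset ℕ)
    (hmem : ∀ k ∈ ms, (∃ x B, k = .ord x B) ∨ ∃ i < J, ∃ τ : CT, τ.Ok d e i J ∧ k = τ.kd d e i J) :
    npt ms e A ≤ ms.count (.ord e A) + ∑ x ∈ range J ×ˢ cts d J,
      (if 0 < gk e A (x.2.kd d e x.1 J) then ms.count (x.2.kd d e x.1 J) *
        gk e A (x.2.kd d e x.1 J) else 0) := by
  classical
  rw [npt_eq, Finset.sum_multiset_map_count]
  simp only [smul_eq_mul]
  -- the distinct kinds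
  have h1 : ∑ k ∈ ms.toFinset, ms.count k * gk e A k ≤
      ∑ k ∈ insert (Kd.ord e A) ((range J ×ˢ cts d J).image fun x => x.2.kd d e x.1 J),
        ms.count k * gk e A k := by
    have h2 : ∑ k ∈ ms.toFinset, ms.count k * gk e A k =
        ∑ k ∈ ms.toFinset.filter (fun k => gk e A k ≠ 0), ms.count k * gk e A k := by
      rw [sum_filter_of_ne]
      intro k _ h3 h4
      apply h3
      rw [h4, mul_zero]
    rw [h2]
    refine sum_le_sum_of_subset fun k hk => ?_
    rw [mem_filter, Multiset.mem_toFinset] at hk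
    rw [mem_insert]
    rcases hmem k hk.1 with ⟨x, B, rfl⟩ | ⟨i, hi, τ, hτ, rfl⟩
    · left
      have h3 := hk.2
      rw [gk_ord] at h3
      split_ifs at h3 with h4
      · obtain ⟨h5, h6⟩ := Prod.mk.inj h4
        rw [h5, h6]
      · exact absurd rfl h3
    · right
      rw [mem_image]
      exact ⟨(i, τ), mem_product.2 ⟨mem_range.2 hi, mem_cts hi hτ⟩, rfl⟩
  refine h1.trans ?_
  by_cases h5 : Kd.ord e A ∈ (range J ×ˢ cts d J).image fun x => x.2.kd d e x.1 J
  · exfalso
    obtain ⟨x, _, hx⟩ := mem_image.1 h5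
    rcases x with ⟨i, τ⟩
    rcases τ with ⟨k, S⟩ | S | r <;> simp [CT.kd] at hx
  rw [sum_insert h5]
  refine add_le_add ?_ ?_
  · rw [gk_ord, if_pos rfl, mul_one]
  · have h6 : ∀ (s : Finset (ℕ × CT)) (f : Kd → ℕ), ∑ k ∈ s.image (fun x => x.2.kd d e x.1 J), f k ≤
        ∑ x ∈ s, f (x.2.kd d e x.1 J) := by
      intro s f
      induction s using Finset.induction_on with
      | empty => simp
      | insert a s ha ih =>
        rw [image_insert, sum_insert ha]
        by_cases h7 : a.2.kd d e a.1 J ∈ s.image fun x => x.2.kd d e x.1 J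
        · rw [insert_eq_of_mem h7]
          exact ih.trans (Nat.le_add_left _ _)
        · rw [sum_insert h7]
          exact Nat.add_le_add_left ih _
    refine (h6 _ _).trans (sum_le_sum fun x _ => ?_)
    split_ifs with h7
    · exact le_rfl
    · have h8 : gk e A (x.2.kd d e x.1 J) = 0 := by omega
      rw [h8, mul_zero]

/-- The members of the clusters. -/
theorem gk_cl_le (e : ℕ) (A : Finset ℕ) (dl i : ℕ) (As : List (Finset ℕ)) :
    gk e A (.cl e dl i As) ≤ As.length := by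
  unfold gk Kd.pts
  refine (Multiset.count_le_card _ _).trans ?_
  rw [Multiset.coe_card, List.length_map]

theorem mem_of_gk {e : ℕ} {A : Finset ℕ} {dl i : ℕ} {As : List (Finset ℕ)}
    (h : 0 < gk e A (.cl e dl i As)) : A ∈ As := by
  unfold gk Kd.pts at h
  have h1 := Multiset.count_pos.1 h
  rw [Multiset.mem_coe, List.mem_map] at h1
  obtain ⟨B, hB, hBe⟩ := h1
  have h2 := (Prod.mk.inj hBe).2
  rw [← h2]
  exact hB

theorem length_mbs_le (i J k : ℕ) (S : Finset ℕ) : (mbs i J k S).length ≤ k + 1 := by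
  unfold mbs
  split_ifs with h
  · simp
  · rw [List.length_cons, List.length_replicate]
    omega

theorem mem_mbs {i J k : ℕ} {S A : Finset ℕ} (h : A ∈ mbs i J k S) :
    A = (range J).erase i ∨ A = (range J).erase i \ S := by
  unfold mbs at h
  split_ifs at h with h1
  · right
    exact List.mem_singleton.1 h
  · rcases List.mem_cons.1 h with h2 | h2
    · exact Or.inl h2
    · exact Or.inr (List.eq_of_mem_replicate h2)

theorem compl_erase {i J : ℕ} (hi : i < J) : range J \ (range J).erase i = {i} := by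
  ext x
  simp only [mem_sdiff, mem_range, mem_erase, mem_singleton]
  omega

theorem compl_erase_sdiff {i J : ℕ} (hi : i < J) {S : Finset ℕ} (hS : S ⊆ Ico (i + 1) J) :
    range J \ ((range J).erase i \ S) = insert i S := by
  ext x
  simp only [mem_sdiff, mem_range, mem_erase, mem_insert]
  constructor
  · rintro ⟨h1, h2⟩
    by_cases hx : x = i
    · exact Or.inl hx
    · right
      by_contra h3
      exact h2 ⟨⟨hx, h1⟩, h3⟩
  · rintro (h | h)
    · subst h
      exact ⟨hi, fun h2 => h2.1.1 rfl⟩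
    · have h3 := mem_Ico.1 (hS h)
      exact ⟨h3.2, fun h2 => h2.2 h⟩

/-- The alternatives for a cluster with members `(e, A)`. -/
theorem cases_cl (P : Par) {i : ℕ} (hi : i < P.J) {τ : CT} (hτ : τ.Ok P.d P.e i P.J)
    {A : Finset ℕ} (hg : 0 < gk P.e A (τ.kd P.d P.e i P.J))
    (hA : (range P.J \ A).card < P.e) :
    gk P.e A (τ.kd P.d P.e i P.J) ≤ P.d ∧ 1 ≤ (range P.J \ A).card ∧
      ((∃ k S, τ = .pl k S ∧ i ∉ S ∧ range P.J \ A = insert i S) ∨
        τ.w P.e + (range P.J \ A).card + 1 ≤ P.e) := by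
  have hJ : P.J = P.d - P.e := rfl
  rcases τ with ⟨k, S⟩ | S | r
  · obtain ⟨h1, h2, h3, h4⟩ := hτ
    have h5 : A ∈ mbs i P.J k S := mem_of_gk hg
    have hiS : i ∉ S := fun h => by
      have := mem_Ico.1 (h3 h)
      omega
    refine ⟨?_, ?_, ?_⟩
    · refine (gk_cl_le _ _ _ _ _).trans ((length_mbs_le _ _ _ _).trans ?_)
      have h6 := Nat.div_le_self (P.d - i - 1) (P.e - 1)
      omega
    · rcases mem_mbs h5 with h6 | h6
      · rw [h6, compl_erase hi]
        simp
      · rw [h6, compl_erase_sdiff hi h3]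
        exact card_pos.2 (insert_nonempty _ _)
    · rcases mem_mbs h5 with h6 | h6
      · rw [h6, compl_erase hi]
        by_cases hS : S = ∅
        · left
          exact ⟨k, S, rfl, hiS, by rw [hS]; rfl⟩
        · right
          have h7 : 1 ≤ S.card := card_pos.2 (nonempty_iff_ne_empty.2 hS)
          show P.e - 1 - S.card + ({i} : Finset ℕ).card + 1 ≤ P.e
          rw [card_singleton]
          omega
      · left
        exact ⟨k, S, rfl, hiS, by rw [h6, compl_erase_sdiff hi h3]⟩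
  · obtain ⟨h1, h3, h4⟩ := hτ
    have h5 : A ∈ mbs i P.J ((P.d - i - 1) / (P.e - 1)) S := mem_of_gk hg
    have hiS : i ∉ S := fun h => by
      have := mem_Ico.1 (h3 h)
      omega
    have he : 2 ≤ P.e := by
      by_contra h
      have h6 : P.e - 1 = 0 ∨ P.e - 1 = 0 := by omega
      have : (range P.J \ A).card < 1 ∨ P.e = 0 ∨ P.e = 1 := by omega
      rcases mem_mbs h5 with h6 | h6
      · rw [h6, compl_erase hi, card_singleton] at hA
        omega
      · rw [h6, compl_erase_sdiff hi h3, card_insert_of_notMem hiS] at hA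
        omega
    refine ⟨?_, ?_, Or.inr ?_⟩
    · refine (gk_cl_le _ _ _ _ _).trans ((length_mbs_le _ _ _ _).trans ?_)
      have h6 := Nat.div_le_self (P.d - i - 1) (P.e - 1)
      omega
    · rcases mem_mbs h5 with h6 | h6
      · rw [h6, compl_erase hi]
        simp
      · rw [h6, compl_erase_sdiff hi h3]
        exact card_pos.2 (insert_nonempty _ _)
    · show P.e - 2 - S.card + (range P.J \ A).card + 1 ≤ P.e
      rcases mem_mbs h5 with h6 | h6
      · rw [h6, compl_erase hi, card_singleton]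
        omega
      · rw [h6, compl_erase_sdiff hi h3, card_insert_of_notMem hiS]
        omega
  · obtain ⟨h1, h2⟩ := hτ
    have h5 : A ∈ mbr i P.J ((P.d - i + r - 1) / (P.e - 1)) P.e r := mem_of_gk hg
    have hA' : i ∉ A := by
      unfold mbr at h5
      obtain ⟨s, _, hs⟩ := List.mem_map.1 h5
      rw [← hs]
      intro h
      exact (mem_erase.1 (mem_sdiff.1 h).1).1 rfl
    have h6 : i ∈ range P.J \ A := mem_sdiff.2 ⟨mem_range.2 hi, hA'⟩
    refine ⟨?_, card_pos.2 ⟨i, h6⟩, Or.inr ?_⟩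
    · refine (gk_cl_le _ _ _ _ _).trans ?_
      unfold mbr
      rw [List.length_map, List.length_range]
      have h7 := Nat.div_le_self (P.d - i + r - 1) (P.e - 1)
      omega
    · show 0 + (range P.J \ A).card + 1 ≤ P.e
      omega

theorem cc_le (P : Par) (hc : ∀ i < P.J, 1 ≤ P.c i) {K : Finset ℕ} (hK : K ⊆ range P.J) :
    P.cc K ≤ P.cc (range P.J) := by
  unfold Par.cc
  exact prod_le_prod_of_subset_of_one_le' hK fun i hi _ => hc i (mem_range.1 hi)

theorem one_le_cc (P : Par) (hc : ∀ i < P.J, 1 ≤ P.c i) {K : Finset ℕ} (hK : K ⊆ range P.J) :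
    1 ≤ P.cc K := by
  unfold Par.cc
  exact one_le_prod' fun i hi => hc i (mem_range.1 (hK hi))

theorem mm_le (P : Par) (hd : 1 ≤ P.d) (hc : ∀ i < P.J, 1 ≤ P.c i) {i : ℕ} (hi : i < P.J) {τ : CT}
    (hτ : τ.Ok P.d P.e i P.J) : τ.mm P ≤ P.M * P.d ^ P.J * P.cc (range P.J) := by
  have hS : ∀ S : Finset ℕ, S ⊆ Ico (i + 1) P.J →
      P.M * P.d ^ S.card * P.cc S ≤ P.M * P.d ^ P.J * P.cc (range P.J) := by
    intro S hS
    have h1 : S ⊆ range P.J := fun x hx => mem_range.2 (mem_Ico.1 (hS hx)).2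
    have h2 : S.card ≤ P.J := by
      have := card_le_card h1
      rwa [card_range] at this
    exact Nat.mul_le_mul (Nat.mul_le_mul_left _ (Nat.pow_le_pow_right hd h2)) (cc_le P hc h1)
  rcases τ with ⟨k, S⟩ | S | r
  · exact hS S hτ.2.2.1
  · exact hS S hτ.2.1
  · obtain ⟨h1, h2⟩ := hτ
    show P.M * P.c (r - 1) ≤ _
    have h3 : P.c (r - 1) ≤ P.cc (range P.J) := by
      have h4 := cc_le P hc (K := {r - 1}) (singleton_subset_iff.2 (mem_range.2 (by omega)))
      unfold Par.cc at h4 ⊢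
      rwa [prod_singleton] at h4
    have h4 : 1 ≤ P.d ^ P.J := Nat.one_le_pow _ _ hd
    calc P.M * P.c (r - 1) ≤ P.M * P.d ^ P.J * P.c (r - 1) := by
          rw [mul_assoc]
          exact Nat.mul_le_mul_left _ (Nat.le_mul_of_pos_left _ h4)
      _ ≤ _ := Nat.mul_le_mul_left _ h3

/-- The share of one type of clusters. -/
theorem share (P : Par) (hd : 1 ≤ P.d) (F : ℕ) (hF1 : 1 ≤ F) (hF : ∀ i < P.J, F ≤ P.c i) {n : ℕ}
    (hn : 1 ≤ n) {ms : Multiset Kd}
    (hcnt : ∀ i < P.J, ∀ τ : CT, τ.Ok P.d P.e i P.J →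
      ms.count (τ.kd P.d P.e i P.J) ≤ τ.mm P * n ^ τ.w P.e)
    {A : Finset ℕ} (hA : (range P.J \ A).card < P.e) {i : ℕ} (hi : i < P.J) {τ : CT}
    (hτ : τ.Ok P.d P.e i P.J) (hg : 0 < gk P.e A (τ.kd P.d P.e i P.J)) :
    (ms.count (τ.kd P.d P.e i P.J) : ℝ) * gk P.e A (τ.kd P.d P.e i P.J) ≤
      P.M * P.d ^ (P.J + 1) * (P.cc (range P.J \ A) / F * n ^ (P.e - (range P.J \ A).card) +
        P.cc (range P.J) * n ^ (P.e - (range P.J \ A).card - 1)) := by
  have hc : ∀ i < P.J, 1 ≤ P.c i := fun i hi => hF1.trans (hF i hi)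
  obtain ⟨hgd, hK1, hal⟩ := cases_cl P hi hτ hg hA
  set K := range P.J \ A with hK
  have hn1 : (1 : ℝ) ≤ n := by exact_mod_cast hn
  have hF0 : (0 : ℝ) < F := by exact_mod_cast hF1
  have hgd' : (gk P.e A (τ.kd P.d P.e i P.J) : ℝ) ≤ P.d := by exact_mod_cast hgd
  have hcn : (ms.count (τ.kd P.d P.e i P.J) : ℝ) ≤ τ.mm P * (n : ℝ) ^ τ.w P.e := by
    exact_mod_cast hcnt i hi τ hτ
  have h1 : (ms.count (τ.kd P.d P.e i P.J) : ℝ) * gk P.e A (τ.kd P.d P.e i P.J) ≤
      τ.mm P * (n : ℝ) ^ τ.w P.e * P.d := mul_le_mul hcn hgd' (Nat.cast_nonneg _) (by positivity)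
  refine h1.trans ?_
  rcases hal with ⟨k, S, rfl, hiS, hKS⟩ | hw
  · have h2 : S.card ≤ P.J := by
      have h3 : S ⊆ range P.J := fun x hx => mem_range.2 (mem_Ico.1 (hτ.2.2.1 hx)).2
      have := card_le_card h3
      rwa [card_range] at this
    have h3 : K.card = S.card + 1 := by rw [hKS, card_insert_of_notMem hiS]
    have h4 : (CT.pl k S).w P.e = P.e - K.card := by
      show P.e - 1 - S.card = _
      omega
    have h5 : P.cc K = P.c i * P.cc S := by
      rw [hKS]
      unfold Par.cc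
      rw [prod_insert hiS]
    have h6 : (P.cc S : ℝ) ≤ P.cc K / F := by
      rw [le_div_iff₀ hF0, h5]
      push_cast
      have h7 : (F : ℝ) ≤ P.c i := by exact_mod_cast hF i hi
      nlinarith [(Nat.cast_nonneg (P.cc S) : (0 : ℝ) ≤ P.cc S)]
    have h7 : (((CT.pl k S).mm P : ℕ) : ℝ) ≤ P.M * P.d ^ P.J * (P.cc K / F) := by
      show ((P.M * P.d ^ S.card * P.cc S : ℕ) : ℝ) ≤ _
      push_cast
      have h8 : (P.d : ℝ) ^ S.card ≤ (P.d : ℝ) ^ P.J :=
        pow_le_pow_right₀ (by exact_mod_cast hd) h2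
      gcongr
    rw [h4]
    have h8 : (0 : ℝ) ≤ (P.M : ℝ) * P.d ^ (P.J + 1) *
        (P.cc (range P.J) * (n : ℝ) ^ (P.e - K.card - 1)) := by positivity
    calc (((CT.pl k S).mm P : ℕ) : ℝ) * (n : ℝ) ^ (P.e - K.card) * P.d
        ≤ P.M * P.d ^ P.J * (P.cc K / F) * (n : ℝ) ^ (P.e - K.card) * P.d := by gcongr
      _ = P.M * P.d ^ (P.J + 1) * (P.cc K / F * n ^ (P.e - K.card)) := by ring
      _ ≤ _ := by
        rw [mul_add]
        linarith
  · have h2 : τ.w P.e ≤ P.e - K.card - 1 := by omega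
    have h3 : (τ.mm P : ℝ) ≤ P.M * P.d ^ P.J * P.cc (range P.J) := by
      exact_mod_cast mm_le P hd hc hi hτ
    have h4 : (n : ℝ) ^ τ.w P.e ≤ (n : ℝ) ^ (P.e - K.card - 1) := pow_le_pow_right₀ hn1 h2
    have h8 : (0 : ℝ) ≤ (P.M : ℝ) * P.d ^ (P.J + 1) *
        (P.cc K / F * (n : ℝ) ^ (P.e - K.card)) := by positivity
    calc (τ.mm P : ℝ) * (n : ℝ) ^ τ.w P.e * P.d
        ≤ P.M * P.d ^ P.J * P.cc (range P.J) * (n : ℝ) ^ (P.e - K.card - 1) * P.d := by gcongr
      _ = P.M * P.d ^ (P.J + 1) * (P.cc (range P.J) * n ^ (P.e - K.card - 1)) := by ring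
      _ ≤ _ := by
        rw [mul_add]
        linarith

/-- The real inequality. -/
theorem num_real {k cK X Z n F C Y D T npt cnt : ℝ} (hk : 0 < k) (hcK : 1 ≤ cK) (hZ : 0 ≤ Z)
    (hn : 0 ≤ n) (hX : X = n * Z) (hF : 0 < F) (hC : 0 ≤ C) (_hT : 0 ≤ T) (_hD : 0 ≤ D)
    (hTD : T * D ≤ Y) (h1 : 3 * k / 4 * (cK * X) ≤ npt)
    (h2 : npt ≤ cnt + T * (D * (cK / F * X + C * Z))) (h3 : 4 * Y ≤ k * F)
    (h4 : 4 * (Y * C) ≤ k * n) : k / 4 * X ≤ cnt := by
  have hX0 : 0 ≤ X := by
    rw [hX]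
    exact mul_nonneg hn hZ
  have hcX : 0 ≤ cK * X := mul_nonneg (by linarith) hX0
  have e1 : T * (D * (cK / F * X + C * Z)) = T * D * (cK * X) / F + T * D * (C * Z) := by
    field_simp
  have e2 : T * D * (cK * X) / F ≤ k / 4 * (cK * X) := by
    rw [div_le_iff₀ hF]
    calc T * D * (cK * X) ≤ Y * (cK * X) := mul_le_mul_of_nonneg_right hTD hcX
      _ ≤ k * F / 4 * (cK * X) := by
        apply mul_le_mul_of_nonneg_right _ hcX
        linarith
      _ = k / 4 * (cK * X) * F := by ring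
  have e3 : T * D * (C * Z) ≤ k / 4 * X := by
    calc T * D * (C * Z) ≤ Y * (C * Z) := mul_le_mul_of_nonneg_right hTD (mul_nonneg hC hZ)
      _ = Y * C * Z := by ring
      _ ≤ k * n / 4 * Z := by
        apply mul_le_mul_of_nonneg_right _ hZ
        linarith
      _ = k / 4 * X := by rw [hX]; ring
  have e4 : X ≤ cK * X := by
    have := mul_le_mul_of_nonneg_right hcK hX0
    linarith
  have e5 : k / 4 * X ≤ k / 4 * (cK * X) := mul_le_mul_of_nonneg_left e4 (by linarith)
  rw [e1] at h2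
  have e6 : 3 * k / 4 * (cK * X) = 3 * (k / 4 * (cK * X)) := by ring
  rw [e6] at h1
  linarith

/-- The number of the points `(e, A)` on the last level. -/
theorem npt_ge (P : Par) (hcr : Crit P.d P.e P.kap) (heps : P.eps P.J ≤ P.kap P.e / 4) {n : ℕ}
    {ms : Multiset Kd} (hms : Cls P P.J n ms) {A : Finset ℕ} (hA : A ⊂ range P.J)
    (hKe : (range P.J \ A).card < P.e) :
    3 * P.kap P.e / 4 * (P.cc (range P.J \ A) * (n : ℝ) ^ (P.e - (range P.J \ A).card)) ≤
      npt ms P.e A := by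
  have hw := hms.win P.e A hcr.two hcr.lt hA.1 hKe (Or.inr hA.ne)
  generalize range P.J \ A = K at hw hKe ⊢
  have hw1 := (abs_le.1 hw).1
  have hk := hcr.pos
  have hnat : P.kap P.e ≤ P.nat P.e K := by
    unfold Par.nat
    have h1 : (1 : ℝ) ≤ (P.e.descFactorial K.card : ℕ) := by
      have h2 : 0 < P.e.descFactorial K.card := Nat.descFactorial_pos.2 hKe.le
      exact_mod_cast h2
    nlinarith
  have hX0 : (0 : ℝ) ≤ (P.cc K : ℝ) * (n : ℝ) ^ (P.e - K.card) := by positivity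
  generalize (n : ℝ) ^ (P.e - K.card) = X at hw1 hX0 ⊢
  generalize (P.cc K : ℝ) = cK at hw1 hX0 ⊢
  generalize (npt ms P.e A : ℝ) = y at hw1 ⊢
  generalize P.nat P.e K = z at hw1 hnat
  have e1 : P.kap P.e * (cK * X) ≤ z * (cK * X) := mul_le_mul_of_nonneg_right hnat hX0
  have e2 : P.eps P.J * (cK * X) ≤ P.kap P.e / 4 * (cK * X) :=
    mul_le_mul_of_nonneg_right heps hX0
  have e3 : z * cK * X = z * (cK * X) := by ring
  have e4 : P.eps P.J * cK * X = P.eps P.J * (cK * X) := by ring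
  rw [e3, e4] at hw1
  have e5 : 3 * P.kap P.e / 4 * (cK * X) = P.kap P.e * (cK * X) - P.kap P.e / 4 * (cK * X) := by
    ring
  rw [e5]
  linarith

/-- The number of the members of clusters. -/
theorem npt_le' (P : Par) (hd : 1 ≤ P.d) (F : ℕ) (hF1 : 1 ≤ F) (hF : ∀ i < P.J, F ≤ P.c i) {n : ℕ}
    (hn : 1 ≤ n) {ms : Multiset Kd} (hms : Cls P P.J n ms) {A : Finset ℕ}
    (hA : (range P.J \ A).card < P.e) :
    (npt ms P.e A : ℝ) ≤ ms.count (.ord P.e A) + ((range P.J ×ˢ cts P.d P.J).card : ℝ) *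
      (P.M * (P.d : ℝ) ^ (P.J + 1) * (P.cc (range P.J \ A) / (F : ℝ) *
        (n : ℝ) ^ (P.e - (range P.J \ A).card) +
        P.cc (range P.J) * (n : ℝ) ^ (P.e - (range P.J \ A).card - 1))) := by
  have h2 := npt_le (d := P.d) (e := P.e) (J := P.J) ms A (fun k hk => by
    rcases hms.mem k hk with ⟨x, B, h3, _⟩ | h3
    · exact Or.inl ⟨x, B, h3⟩
    · exact Or.inr h3)
  have hnn : (0 : ℝ) ≤ P.M * (P.d : ℝ) ^ (P.J + 1) * (P.cc (range P.J \ A) / (F : ℝ) *
        (n : ℝ) ^ (P.e - (range P.J \ A).card) +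
        P.cc (range P.J) * (n : ℝ) ^ (P.e - (range P.J \ A).card - 1)) := by positivity
  have key : ∀ x ∈ range P.J ×ˢ cts P.d P.J,
      (((if 0 < gk P.e A (x.2.kd P.d P.e x.1 P.J) then ms.count (x.2.kd P.d P.e x.1 P.J) *
        gk P.e A (x.2.kd P.d P.e x.1 P.J) else 0 : ℕ)) : ℝ) ≤
      P.M * (P.d : ℝ) ^ (P.J + 1) * (P.cc (range P.J \ A) / (F : ℝ) *
        (n : ℝ) ^ (P.e - (range P.J \ A).card) +
        P.cc (range P.J) * (n : ℝ) ^ (P.e - (range P.J \ A).card - 1)) := by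
    intro x hx
    split_ifs with h5
    · by_cases h6 : 0 < ms.count (x.2.kd P.d P.e x.1 P.J)
      · obtain ⟨j, hj, τ, hτ, hkd⟩ : ∃ j < P.J, ∃ τ : CT, τ.Ok P.d P.e j P.J ∧
            x.2.kd P.d P.e x.1 P.J = τ.kd P.d P.e j P.J := by
          rcases hms.mem _ (Multiset.count_pos.1 h6) with ⟨y, B, h7, _⟩ | h7
          · exfalso
            rcases x with ⟨i, τ⟩
            rcases τ with ⟨k, S⟩ | S | r <;> simp [CT.kd] at h7
          · exact h7
        rw [hkd] at h5 ⊢
        have h8 := share P hd F hF1 hF hn hms.cnt hA hj hτ h5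
        rw [Nat.cast_mul]
        exact h8
      · have h7 : ms.count (x.2.kd P.d P.e x.1 P.J) = 0 := by omega
        rw [h7, zero_mul, Nat.cast_zero]
        exact hnn
    · rw [Nat.cast_zero]
      exact hnn
  have h4 : (npt ms P.e A : ℝ) ≤ ((ms.count (.ord P.e A) + ∑ x ∈ range P.J ×ˢ cts P.d P.J,
      (if 0 < gk P.e A (x.2.kd P.d P.e x.1 P.J) then ms.count (x.2.kd P.d P.e x.1 P.J) *
        gk P.e A (x.2.kd P.d P.e x.1 P.J) else 0) : ℕ) : ℝ) := by exact_mod_cast h2
  refine h4.trans ?_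
  rw [Nat.cast_add, Nat.cast_sum]
  refine add_le_add le_rfl ((sum_le_sum key).trans ?_)
  rw [sum_const, nsmul_eq_mul]

/-- **The numbers of the ordinary main points.** -/
theorem ord_ge (P : Par) (hcr : Crit P.d P.e P.kap) (heps : P.eps P.J ≤ P.kap P.e / 4) (F : ℕ)
    (hF1 : 1 ≤ F) (hF : ∀ i < P.J, F ≤ P.c i)
    (hF4 : 4 * (((P.d * ∑ J ∈ range (P.d + 1), (cts P.d J).card : ℕ) : ℝ) *
      (P.M * (P.d : ℝ) ^ (P.d + 1))) ≤ P.kap P.e * F) :
      ∃ n₀ : ℕ, 1 ≤ n₀ ∧ ∀ n, n₀ ≤ n → ∀ ms, Cls P P.J n ms → ∀ A, A ⊂ range P.J →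
        P.J + 1 ≤ A.card + P.e →
        P.kap P.e / 4 * (n : ℝ) ^ (A.card + P.e - P.J) ≤ ms.count (.ord P.e A) := by
  have hk := hcr.pos
  have hc : ∀ i < P.J, 1 ≤ P.c i := fun i hi => hF1.trans (hF i hi)
  have hd2 := hcr.two
  have hd3 := hcr.lt
  have hd : 1 ≤ P.d := by omega
  have hJ : P.J = P.d - P.e := rfl
  obtain ⟨n₁, hn₁⟩ := exists_nat_ge (4 * (((P.d * ∑ J ∈ range (P.d + 1), (cts P.d J).card : ℕ) : ℝ) *
      (P.M * (P.d : ℝ) ^ (P.d + 1)) * P.cc (range P.J)) / P.kap P.e)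
  refine ⟨n₁ + 1, by omega, fun n hn ms hms A hA hAc => ?_⟩
  have hn1 : 1 ≤ n := by omega
  have hAJ : A.card < P.J := by
    have := card_lt_card hA
    rwa [card_range] at this
  have hKc : (range P.J \ A).card = P.J - A.card := by
    rw [card_sdiff_of_subset hA.1, card_range]
  have hKe : (range P.J \ A).card < P.e := by omega
  have hexp : A.card + P.e - P.J = P.e - (range P.J \ A).card := by omega
  rw [hexp]
  have hKJ : range P.J \ A ⊆ range P.J := sdiff_subset
  have hcard : ((range P.J ×ˢ cts P.d P.J).card : ℝ) ≤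
      ((P.d * ∑ J ∈ range (P.d + 1), (cts P.d J).card : ℕ) : ℝ) := by
    rw [card_product, card_range]
    have h4 : (cts P.d P.J).card ≤ ∑ J ∈ range (P.d + 1), (cts P.d J).card :=
      single_le_sum (f := fun J => (cts P.d J).card) (fun _ _ => Nat.zero_le _)
        (mem_range.2 (by omega))
    have h5 : P.J * (cts P.d P.J).card ≤ P.d * ∑ J ∈ range (P.d + 1), (cts P.d J).card :=
      Nat.mul_le_mul (by omega) h4
    exact_mod_cast h5
  have hdJ : (P.d : ℝ) ^ (P.J + 1) ≤ (P.d : ℝ) ^ (P.d + 1) :=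
    pow_le_pow_right₀ (by exact_mod_cast hd) (by omega)
  refine num_real (cK := P.cc (range P.J \ A)) (Z := (n : ℝ) ^ (P.e - (range P.J \ A).card - 1))
    (n := n) (F := F) (C := P.cc (range P.J))
    (Y := ((P.d * ∑ J ∈ range (P.d + 1), (cts P.d J).card : ℕ) : ℝ) *
      (P.M * (P.d : ℝ) ^ (P.d + 1))) (D := P.M * (P.d : ℝ) ^ (P.J + 1))
    (T := ((range P.J ×ˢ cts P.d P.J).card : ℝ)) (npt := npt ms P.e A) hk ?_ (by positivity)
    (Nat.cast_nonneg _) ?_ (by exact_mod_cast hF1) (Nat.cast_nonneg _) (Nat.cast_nonneg _)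
    (by positivity) ?_ (npt_ge P hcr heps hms hA hKe) (npt_le' P hd F hF1 hF hn1 hms hKe) hF4 ?_
  · exact_mod_cast one_le_cc P hc hKJ
  · rw [← pow_succ']
    congr 1
    omega
  · refine mul_le_mul hcard ?_ (by positivity) (Nat.cast_nonneg _)
    exact mul_le_mul_of_nonneg_left hdJ (Nat.cast_nonneg _)
  · rw [div_le_iff₀ hk] at hn₁
    refine hn₁.trans ?_
    rw [mul_comm]
    apply mul_le_mul_of_nonneg_left _ hk.le
    have : n₁ ≤ n := by omega
    exact_mod_cast this

end Pool.Agent.GD.GA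

end

section

/-!
# General d, ALPHA, clusters: the condition (H1) on pairs of clusters

`PO D I k k'`: two clusters with additional conditions created at the same level `i ∈ I` do not interact in
degree `D` on the level `I`; `HH`: for all pairs of a multiset.  Inheritance (`hh_mono`, `hh_drop`) and the
clusters of the classes (`hh_top`).
-/

set_option autoImplicit false

namespace Pool.Agent.GD.AL

open Finset

theorem PO_ord (D : ℕ) (I : Finset ℕ) (x : ℕ) (A : Finset ℕ) (k : Kd) : PO D I (.ord x A) k := by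
  cases k <;> trivial

theorem PO_ord' (D : ℕ) (I : Finset ℕ) (x : ℕ) (A : Finset ℕ) (k : Kd) : PO D I k (.ord x A) := by
  cases k <;> trivial

theorem PO_symm {D : ℕ} {I : Finset ℕ} {k k' : Kd} (h : PO D I k k') : PO D I k' k := by
  cases k with
  | ord x A => exact PO_ord' _ _ _ _ _
  | cl e dl i As =>
    cases k' with
    | ord x A => exact PO_ord _ _ _ _ _
    | cl e' dl' i' As' =>
      rintro rfl hi h1 h2
      have h3 := h rfl hi h2 h1
      rw [inter_right_comm] at h3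
      omega

theorem PO_mono {D D' : ℕ} {I I' : Finset ℕ} (hI : I' ⊆ I) (hD : D' + (I \ I').card ≤ D) {k k' : Kd}
    (h : PO D I k k') : PO D' I' k k' := by
  cases k with
  | ord x A => exact PO_ord _ _ _ _ _
  | cl e dl i As =>
    cases k' with
    | ord x A => exact PO_ord' _ _ _ _ _
    | cl e' dl' i' As' =>
      rintro rfl hi h1 h2
      have h3 := h rfl (hI hi) h1 h2
      have h4 : ((I.erase i ∩ inter As) ∩ inter As').card ≤
          ((I'.erase i ∩ inter As) ∩ inter As').card + (I \ I').card := by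
        refine le_trans (card_le_card ?_) (card_union_le _ _)
        intro x hx
        simp only [Finset.mem_inter, mem_union, mem_sdiff, mem_erase] at hx ⊢
        by_cases h5 : x ∈ I'
        · exact Or.inl ⟨⟨⟨hx.1.1.1, h5⟩, hx.1.2⟩, hx.2⟩
        · exact Or.inr ⟨hx.1.1.2, h5⟩
      omega

theorem hh_sub {D : ℕ} {I : Finset ℕ} {ms ms' : Multiset Kd} (h : ms' ≤ ms) (hh : HH D I ms) :
    HH D I ms' := fun k k' hk => hh k k' (hk.trans h)

theorem hh_mono {D D' : ℕ} {I I' : Finset ℕ} (hI : I' ⊆ I) (hD : D' + (I \ I').card ≤ D)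
    {ms : Multiset Kd} (hh : HH D I ms) : HH D' I' ms := fun k k' hk => PO_mono hI hD (hh k k' hk)

theorem hh_cons {D : ℕ} {I : Finset ℕ} {k : Kd} {ms : Multiset Kd} (hh : HH D I ms)
    (h : ∀ k' ∈ ms, PO D I k k') : HH D I (k ::ₘ ms) := by
  intro k₁ k₂ hk
  by_cases h1 : k₁ = k
  · subst h1
    refine h k₂ ?_
    rw [Multiset.cons_le_cons_iff] at hk
    exact Multiset.singleton_le.1 hk
  · by_cases h2 : k₂ = k
    · subst h2
      refine PO_symm (h k₁ ?_)
      have h3 : k₁ ::ₘ {k₂} = k₂ ::ₘ {k₁} := by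
        rw [← Multiset.singleton_add, ← Multiset.singleton_add, add_comm]
      rw [h3, Multiset.cons_le_cons_iff] at hk
      exact Multiset.singleton_le.1 hk
    · refine hh k₁ k₂ ?_
      have h3 : k ∉ k₁ ::ₘ {k₂} := by
        intro h4
        rcases Multiset.mem_cons.1 h4 with h5 | h5
        · exact h1 h5.symm
        · exact h2 (Multiset.mem_singleton.1 h5).symm
      exact (Multiset.le_cons_of_notMem h3).1 hk

theorem hh_of_cons {D : ℕ} {I : Finset ℕ} {k : Kd} {ms : Multiset Kd} (hh : HH D I (k ::ₘ ms)) :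
    ∀ k' ∈ ms, PO D I k k' := fun k' hk' =>
  hh k k' ((Multiset.cons_le_cons_iff k).2 (Multiset.singleton_le.2 hk'))

theorem hh_ord {D : ℕ} {I : Finset ℕ} {x : ℕ} {A : Finset ℕ} {ms : Multiset Kd} (hh : HH D I ms) :
    HH D I (.ord x A ::ₘ ms) := hh_cons hh fun _ _ => PO_ord _ _ _ _ _

theorem hh_ords {D : ℕ} {I : Finset ℕ} {ms S : Multiset Kd} (hh : HH D I ms)
    (hS : ∀ k ∈ S, ∃ x A, k = .ord x A) : HH D I (S + ms) := by
  induction S using Multiset.induction_on with
  | empty => rwa [zero_add]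
  | cons k S ih =>
    obtain ⟨x, A, rfl⟩ := hS k (Multiset.mem_cons_self k S)
    rw [Multiset.cons_add]
    exact hh_ord (ih fun k hk => hS k (Multiset.mem_cons_of_mem hk))

theorem mem_inter_app {L : List (Finset ℕ)} {A : Finset ℕ} (hL : 1 ≤ L.length) {x : ℕ} :
    x ∈ inter (L ++ [A]) ↔ x ∈ inter L ∧ x ∈ A := by
  rw [Pool.Agent.GD.mem_inter (by rw [List.length_append, List.length_singleton]; omega),
    Pool.Agent.GD.mem_inter hL]
  constructor
  · intro h
    exact ⟨fun A' hA' => h A' (List.mem_append_left _ hA'),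
      h A (List.mem_append_right _ (List.mem_singleton_self A))⟩
  · rintro ⟨h1, h2⟩ A' hA'
    rcases List.mem_append.1 hA' with h3 | h3
    · exact h1 A' h3
    · rw [List.mem_singleton.1 h3]
      exact h2

/-- The pairs of the cluster without the last member. -/
theorem PO_drop {D s : ℕ} {I : Finset ℕ} {e dl i : ℕ} {L : List (Finset ℕ)} {A : Finset ℕ}
    (hL : 1 ≤ L.length) (he : 1 ≤ e) (hs : s + e ≤ D + 1) {k : Kd}
    (h : PO D I (.cl e dl i (L ++ [A])) k) : PO s (I ∩ insert i A) (.cl e dl i L) k := by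
  cases k with
  | ord x A => exact PO_ord' _ _ _ _ _
  | cl e' dl' i' As' =>
    rintro rfl hi h1 h2
    have h3 := h rfl (Finset.mem_inter.1 hi).1 h1 h2
    have h4 : (I.erase i ∩ inter (L ++ [A])) ∩ inter As' =
        ((I ∩ insert i A).erase i ∩ inter L) ∩ inter As' := by
      ext x
      simp only [Finset.mem_inter, mem_erase, mem_inter_app hL, mem_insert]
      constructor
      · rintro ⟨⟨⟨h5, h6⟩, h7, h8⟩, h9⟩
        exact ⟨⟨⟨h5, h6, Or.inr h8⟩, h7⟩, h9⟩
      · rintro ⟨⟨⟨h5, h6, h8⟩, h7⟩, h9⟩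
        exact ⟨⟨⟨h5, h6⟩, h7, h8.resolve_left h5⟩, h9⟩
    rw [h4, List.length_append, List.length_singleton, add_mul, one_mul] at h3
    omega

/-- The lower terms of CL1. -/
theorem hh_drop {D s : ℕ} {I : Finset ℕ} {e dl i : ℕ} {L : List (Finset ℕ)} {A : Finset ℕ}
    {ms : Multiset Kd} (hL : 1 ≤ L.length) (hs : s + e ≤ D + 1) (hT : (I \ insert i A).card + 1 ≤ e)
    (h : HH D I (.cl e dl i (L ++ [A]) ::ₘ ms)) :
    HH s (I ∩ insert i A) (.cl e dl i L ::ₘ ms) := by
  refine hh_cons (hh_mono inter_subset_left ?_ (hh_sub (Multiset.le_cons_self _ _) h))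
    fun k' hk' => PO_drop hL (by omega) hs (hh_of_cons h k' hk')
  rw [sdiff_inter_self_left]
  omega

/-- The hypothesis of `cl1a_dl`. -/
theorem hh_one {D : ℕ} {I : Finset ℕ} {e dl i : ℕ} {A : Finset ℕ} {ms : Multiset Kd} (he : 1 ≤ e)
    (hi : i ∈ I) (h : HH D I (.cl e dl i [A] ::ₘ ms)) (hdl : 1 ≤ dl) :
    ∀ e' dl' As, .cl e' dl' i As ∈ ms → 1 ≤ dl' →
      D + 1 - e ≤ As.length * (e' - 1) + 1 + (((I ∩ insert i A).erase i) ∩ inter As).card := by
  intro e' dl' As hAs hdl'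
  have h1 := hh_of_cons h _ hAs rfl hi hdl hdl'
  have h4 : (I.erase i ∩ inter [A]) ∩ inter As = (I ∩ insert i A).erase i ∩ inter As := by
    ext x
    simp only [Finset.mem_inter, mem_erase, mem_insert]
    have h5 : x ∈ inter [A] ↔ x ∈ A := by
      rw [Pool.Agent.GD.mem_inter (by simp)]
      simp
    rw [h5]
    constructor
    · rintro ⟨⟨⟨h5, h6⟩, h7⟩, h9⟩
      exact ⟨⟨h5, h6, Or.inr h7⟩, h9⟩
    · rintro ⟨⟨h5, h6, h8⟩, h9⟩
      exact ⟨⟨⟨h5, h6⟩, h8.resolve_left h5⟩, h9⟩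
  rw [h4, List.length_singleton, one_mul] at h1
  omega

/-- The order of the members. -/
theorem inter_rot {A : Finset ℕ} {L : List (Finset ℕ)} : inter (A :: L) = inter (L ++ [A]) := by
  ext x
  rw [Pool.Agent.GD.mem_inter (by simp), Pool.Agent.GD.mem_inter (by simp)]
  simp only [List.mem_cons, List.mem_append, List.not_mem_nil, or_false]
  constructor
  · intro h A' hA'
    exact h A' hA'.symm
  · intro h A' hA'
    exact h A' hA'.symm

theorem PO_rot {D : ℕ} {I : Finset ℕ} {e dl i : ℕ} {L : List (Finset ℕ)} {A : Finset ℕ} {k : Kd} :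
    PO D I (.cl e dl i (A :: L)) k ↔ PO D I (.cl e dl i (L ++ [A])) k := by
  cases k with
  | ord x A => exact ⟨fun _ => PO_ord' _ _ _ _ _, fun _ => PO_ord' _ _ _ _ _⟩
  | cl e' dl' i' As' =>
    have h1 : (A :: L).length = (L ++ [A]).length := by simp
    show (_ → _ → _ → _ → _) ↔ (_ → _ → _ → _ → _)
    rw [inter_rot, h1]

theorem hh_rot {D : ℕ} {I : Finset ℕ} {e dl i : ℕ} {L : List (Finset ℕ)} {A : Finset ℕ}
    {ms : Multiset Kd} (h : HH D I (.cl e dl i (A :: L) ::ₘ ms)) :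
    HH D I (.cl e dl i (L ++ [A]) ::ₘ ms) :=
  hh_cons (hh_sub (Multiset.le_cons_self _ _) h) fun k' hk' => PO_rot.1 (hh_of_cons h k' hk')

/-! ### The classes -/

/-- The clusters with additional conditions: the numbers. -/
theorem ct_num {d e i j : ℕ} (he : 2 ≤ e) (hij : i < j) (hj : j + e ≤ d) {τ : CT}
    (hτ : τ.Ok d e i j) {e' dl i' : ℕ} {As : List (Finset ℕ)} (h : τ.kd d e i j = .cl e' dl i' As)
    (hdl : 1 ≤ dl) : e' = e ∧ i' = i ∧ dl + 2 ≤ e ∧ ∃ r ≤ i, As.length * (e - 1) + dl = d - i - 1 + r ∧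
      1 ≤ As.length ∧ range i \ range r ⊆ inter As := by
  have hmbs : ∀ (k : ℕ) (S : Finset ℕ), 1 ≤ k → S ⊆ Ico (i + 1) j → (mbs i j k S).length = k ∧
      range i ⊆ inter (mbs i j k S) := by
    intro k S hk hS
    have hlen : (mbs i j k S).length = k := by
      unfold mbs
      split_ifs with h1
      · rw [h1]
        rfl
      · rw [List.length_cons, List.length_replicate]
        omega
    refine ⟨hlen, fun x hx => ?_⟩
    rw [Pool.Agent.GD.mem_inter (by omega)]
    have hx' := mem_range.1 hx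
    have h2 : x ∈ (range j).erase i := mem_erase.2 ⟨by omega, mem_range.2 (by omega)⟩
    have h3 : x ∉ S := fun h => by
      have := (mem_Ico.1 (hS h)).1
      omega
    intro A hA
    unfold mbs at hA
    split_ifs at hA with h1
    · rw [List.mem_singleton.1 hA]
      exact mem_sdiff.2 ⟨h2, h3⟩
    · rcases List.mem_cons.1 hA with h4 | h4
      · rw [h4]
        exact h2
      · rw [(List.mem_replicate.1 h4).2]
        exact mem_sdiff.2 ⟨h2, h3⟩
  have hdiv : ∀ Q : ℕ, e - 1 ≤ Q → 1 ≤ Q / (e - 1) ∧ Q / (e - 1) * (e - 1) + Q % (e - 1) = Q ∧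
      Q % (e - 1) < e - 1 := by
    intro Q hQ
    refine ⟨(Nat.one_le_div_iff (by omega)).2 hQ, ?_, Nat.mod_lt _ (by omega)⟩
    rw [Nat.mul_comm]
    exact Nat.div_add_mod Q (e - 1)
  cases τ with
  | pl k S =>
    simp only [CT.kd, Kd.cl.injEq] at h
    omega
  | b0 S =>
    simp only [CT.kd, Kd.cl.injEq] at h
    obtain ⟨rfl, rfl, rfl, rfl⟩ := h
    obtain ⟨h1, h2, h3⟩ := hdiv (d - i - 1) (by omega)
    obtain ⟨h4, h5⟩ := hmbs ((d - i - 1) / (e - 1)) S h1 hτ.2.1
    refine ⟨rfl, rfl, by omega, 0, Nat.zero_le _, ?_, ?_, ?_⟩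
    · rw [h4]
      omega
    · rw [h4]
      exact h1
    · exact sdiff_subset.trans h5
  | br r =>
    simp only [CT.kd, Kd.cl.injEq] at h
    obtain ⟨rfl, rfl, rfl, rfl⟩ := h
    obtain ⟨h1, h2, h3⟩ := hdiv (d - i + r - 1) (by omega)
    have hlen : (mbr i j ((d - i + r - 1) / (e - 1)) e r).length = (d - i + r - 1) / (e - 1) := by
      unfold mbr
      rw [List.length_map, List.length_range]
    refine ⟨rfl, rfl, by omega, r, hτ.2, ?_, ?_, ?_⟩
    · rw [hlen]
      omega
    · rw [hlen]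
      exact h1
    · intro x hx
      rw [mem_sdiff, mem_range, mem_range] at hx
      rw [Pool.Agent.GD.mem_inter (by omega)]
      intro A hA
      unfold mbr at hA
      obtain ⟨s, -, rfl⟩ := List.mem_map.1 hA
      rw [mem_sdiff, mem_erase, mem_range, Finset.mem_inter, mem_range]
      exact ⟨⟨by omega, by omega⟩, fun h => hx.2 h.2⟩

/-- The clusters of the classes satisfy the condition at the top. -/
theorem hh_top {d e j : ℕ} (he : 2 ≤ e) (hj : j + e ≤ d) {ms : Multiset Kd}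
    (h : ∀ k ∈ ms, (∃ x A, k = .ord x A) ∨ ∃ i < j, ∃ τ : CT, τ.Ok d e i j ∧ k = τ.kd d e i j) :
    HH d (range j) ms := by
  intro k k' hk
  have hk1 : k ∈ ms := Multiset.mem_of_le hk (Multiset.mem_cons_self _ _)
  have hk2 : k' ∈ ms := Multiset.mem_of_le hk
    (Multiset.mem_cons_of_mem (Multiset.mem_singleton_self _))
  rcases h k hk1 with ⟨x, A, rfl⟩ | ⟨i, hi, τ, hτ, h1⟩
  · exact PO_ord _ _ _ _ _
  rcases h k' hk2 with ⟨x, A, rfl⟩ | ⟨i', hi', τ', hτ', h1'⟩
  · exact PO_ord' _ _ _ _ _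
  cases k with
  | ord x A => exact PO_ord _ _ _ _ _
  | cl e₁ dl₁ i₁ As₁ =>
    cases k' with
    | ord x A => exact PO_ord' _ _ _ _ _
    | cl e₂ dl₂ i₂ As₂ =>
      rintro hii hiI hdl₁ hdl₂
      obtain ⟨he₁, hi₁, ha1, r₁, hr₁, hb1, hc1, hd1⟩ := ct_num he hi hj hτ h1.symm hdl₁
      obtain ⟨he₂, hi₂, ha2, r₂, hr₂, hb2, hc2, hd2⟩ := ct_num he hi' hj hτ' h1'.symm hdl₂
      have hi3 : i' = i := by omega
      subst hi3
      subst hi₁
      rw [he₁, he₂]
      have h3 : i₁ - max r₁ r₂ ≤ (((range j).erase i₁ ∩ inter As₁) ∩ inter As₂).card := by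
        have h4 : range i₁ \ range (max r₁ r₂) ⊆ ((range j).erase i₁ ∩ inter As₁) ∩ inter As₂ := by
          intro x hx
          rw [mem_sdiff, mem_range, mem_range] at hx
          rw [Finset.mem_inter, Finset.mem_inter, mem_erase, mem_range]
          refine ⟨⟨⟨by omega, by omega⟩, hd1 ?_⟩, hd2 ?_⟩
          · rw [mem_sdiff, mem_range, mem_range]
            omega
          · rw [mem_sdiff, mem_range, mem_range]
            omega
        have h5 := card_le_card h4
        rw [card_sdiff_of_subset (range_subset_range.2 (by omega)), card_range, card_range] at h5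
        exact h5
      have h6 : e - 1 ≤ As₁.length * (e - 1) := Nat.le_mul_of_pos_left (e - 1) hc1
      have h7 : e - 1 ≤ As₂.length * (e - 1) := Nat.le_mul_of_pos_left (e - 1) hc2
      rcases le_total r₁ r₂ with h8 | h8
      · rw [max_eq_right h8] at h3
        omega
      · rw [max_eq_left h8] at h3
        omega

end Pool.Agent.GD.AL

end

section

/-!
# GD, TOP: one more point of the main kind

A point of the main kind on the last level imposes at most as many conditions as there are values.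
-/

set_option autoImplicit false
set_option linter.unusedSectionVars false

namespace Pool.Agent.GD.Top

open Finset Module MvPolynomial Pool.Agent.H51.TB Pool.Agent.GD Pool.Agent.H54.V7 Pool.Agent.V7.ST
open Pool.Agent.H18.Ex (tcr)
open Pool.Agent.V7 (msk)

variable {ν : Type} [Fintype ν] [DecidableEq ν] {c : ℕ → ℕ} {J m : ℕ}

/-- The conditions of a point of the main kind. -/
theorem main_mem {φ : Bl c J ⊕ Fin m ≃ ν} {β : ν → ℕ} (hβ : IsB φ β) {d D e : ℕ} (hD : D ≤ J + e)
    (q : ν × Fin (d + 1) → ℂ) (f : {e // e ∈ Ex β D (range J)} → ℂ)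
    (hf : ∀ a, eval (fun t => q (φ (Sum.inr t), 0)) (Gam φ f a) = 0) :
    f ∈ (LS d D β (range J)).V (fun _ : Unit => Kd.ord e (range J)) fun _ => q := by
  classical
  rw [mem_ord]
  intro b hb
  have hx : ∀ x, (msk β (range J) fun s => q (s, 0)) (φ (Sum.inl x)) = 0 := by
    intro x
    unfold msk
    rw [if_pos]
    rw [hβ.1 x, mem_range]
    exact x.1.2
  have hz : ∀ t, (msk β (range J) fun s => q (s, 0)) (φ (Sum.inr t)) = q (φ (Sum.inr t), 0) := by
    intro t
    unfold msk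
    rw [if_neg]
    rw [mem_range]
    have := hβ.2 t
    omega
  have htcr : ∀ a : ν → ℕ, tcr (msk β (range J) fun s => q (s, 0)) a b =
      (∏ x, if a (φ (Sum.inl x)) = b (φ (Sum.inl x)) then (1 : ℂ) else 0) *
        ∏ t, (((a (φ (Sum.inr t))).choose (b (φ (Sum.inr t))) : ℕ) : ℂ) *
          q (φ (Sum.inr t), 0) ^ (a (φ (Sum.inr t)) - b (φ (Sum.inr t))) := by
    intro a
    unfold tcr
    rw [← φ.prod_comp, Fintype.prod_sum_type]
    congr 1
    · refine prod_congr rfl fun x _ => ?_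
      rw [hx]
      split_ifs with h
      · rw [h, Nat.choose_self, Nat.sub_self, pow_zero, Nat.cast_one, mul_one]
      · rcases Nat.lt_or_ge (a (φ (Sum.inl x))) (b (φ (Sum.inl x))) with h3 | h3
        · rw [Nat.choose_eq_zero_of_lt h3, Nat.cast_zero, zero_mul]
        · rw [zero_pow (by omega), mul_zero]
    · refine prod_congr rfl fun t _ => ?_
      rw [hz]
  have hzero : ∀ a : {a // a ∈ Ex β D (range J)}, (∃ x, a.1 (φ (Sum.inl x)) ≠ b (φ (Sum.inl x))) →
      tcr (msk β (range J) fun s => q (s, 0)) a.1 b = 0 := by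
    rintro a ⟨x, h⟩
    rw [htcr, prod_eq_zero (mem_univ x) (by rw [if_neg h]), zero_mul]
  by_cases hex : ∃ a : {a // a ∈ Ex β D (range J)}, ∀ x, a.1 (φ (Sum.inl x)) = b (φ (Sum.inl x))
  · obtain ⟨a₀, ha₀⟩ := hex
    have hX : J ≤ ∑ x, b (φ (Sum.inl x)) := by
      rw [← sum_congr rfl fun x _ => ha₀ x]
      have h1 : ∀ i : Fin J, 1 ≤ ∑ r, a₀.1 (φ (Sum.inl ⟨i, r⟩)) := by
        intro i
        obtain ⟨s, hs, hs'⟩ := (mem_Ex.1 a₀.2).2 i.1 (mem_range.2 i.2)
        obtain ⟨x, rfl⟩ := φ.surjective s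
        rcases x with ⟨i', r⟩ | t
        · have h2 := hβ.1 ⟨i', r⟩
          rw [hs] at h2
          have h3 : i = i' := Fin.ext h2
          subst h3
          refine le_trans (Nat.one_le_iff_ne_zero.2 hs') ?_
          exact single_le_sum (f := fun r => a₀.1 (φ (Sum.inl ⟨i, r⟩))) (fun _ _ => Nat.zero_le _)
            (mem_univ r)
        · have h2 := hβ.2 t
          have := i.2
          omega
      rw [Fintype.sum_sigma]
      calc J = ∑ _i : Fin J, 1 := by simp
        _ ≤ _ := sum_le_sum fun i _ => h1 i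
    have hbsum := sum_split φ b
    have hb0 : ∀ t, b (φ (Sum.inr t)) = 0 := by
      have h1 : ∑ t, b (φ (Sum.inr t)) = 0 := by omega
      intro t
      exact (sum_eq_zero_iff.1 h1) t (mem_univ t)
    obtain ⟨w, hw⟩ := exists_HasX hβ a₀.2 (by
      rw [sum_congr rfl fun x _ => ha₀ x]
      omega)
    rw [← hf w, eval_Gam]
    refine sum_congr rfl fun a _ => ?_
    by_cases h : HasX φ w a.1
    · rw [if_pos h, htcr, prod_eq_one, one_mul]
      · congr 1
        refine prod_congr rfl fun t _ => ?_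
        rw [hb0, Nat.choose_zero_right, Nat.cast_one, one_mul, Nat.sub_zero]
      · intro x _
        rw [if_pos]
        rw [← ha₀ x, h x, hw x]
    · rw [if_neg h, hzero a, mul_zero]
      by_contra hcon
      push Not at hcon
      apply h
      intro x
      rw [hcon x, ← ha₀ x, hw x]
  · refine sum_eq_zero fun a _ => ?_
    rw [hzero a, mul_zero]
    by_contra hcon
    push Not at hcon
    exact hex ⟨a, hcon⟩

/-- The values. -/
theorem eval_mem (φ : Bl c J ⊕ Fin m ≃ ν) {A : Finset (ν → ℕ)} (f : {e // e ∈ A} → ℂ)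
    (B : Submodule ℂ (TI c J → ℂ)) (h : ∀ α, (fun a => coeff α (Gam φ f a)) ∈ B) (z : Fin m → ℂ) :
    (fun a => eval z (Gam φ f a)) ∈ B := by
  classical
  let T : Finset (Fin m →₀ ℕ) := univ.biUnion fun a => (Gam φ f a).support
  have h1 : (fun a => eval z (Gam φ f a)) =
      ∑ α ∈ T, (∏ i, z i ^ α i) • fun a => coeff α (Gam φ f a) := by
    funext a
    rw [eval_eq', Finset.sum_apply]
    have h2 : (Gam φ f a).support ⊆ T := subset_biUnion_of_mem (fun a => (Gam φ f a).support) (mem_univ a)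
    rw [sum_subset h2]
    · refine sum_congr rfl fun α _ => ?_
      rw [Pi.smul_apply, smul_eq_mul, mul_comm]
    · intro α _ hα
      rw [notMem_support_iff.1 hα, zero_mul]
  rw [h1]
  exact B.sum_mem fun α _ => B.smul_mem _ (h α)

/-- One more point of the main kind. -/
theorem gd_drop {φ : Bl c J ⊕ Fin m ≃ ν} {β : ν → ℕ} (hβ : IsB φ β) {d D e : ℕ} (hD : D ≤ J + e)
    {κ : Type} [Fintype κ] (rest : κ → Kd) (b : ℕ)
    (hC : Gn κ (ν × Fin (d + 1)) fun p => ∃ B : Submodule ℂ (TI c J → ℂ), finrank ℂ B = b ∧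
      ∀ f ∈ (LS d D β (range J)).V rest p, ∀ α, (fun a => coeff α (Gam φ f a)) ∈ B) (N : ℕ) :
    (LS d D β (range J)).gd (Sum.elim rest fun _ : Fin N => Kd.ord e (range J)) ≤
      (LS d D β (range J)).gd (Sum.elim rest fun _ : Fin (N + 1) => Kd.ord e (range J)) + b := by
  classical
  obtain ⟨P, hP, B, hB, hPB⟩ := ((gn_gd (LS d D β (range J))
    (Sum.elim rest fun _ : Fin (N + 1) => Kd.ord e (range J))).and
      (hC.comap (Sum.inl : κ → κ ⊕ Fin (N + 1)) Sum.inl_injective)).exists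
  let P' : κ ⊕ Fin N → ν × Fin (d + 1) → ℂ := Sum.elim (fun i => P (Sum.inl i))
    fun i => P (Sum.inr i.castSucc)
  obtain ⟨V, hV⟩ : ∃ V, V = (LS d D β (range J)).V
    (Sum.elim rest fun _ : Fin N => Kd.ord e (range J)) P' := ⟨_, rfl⟩
  have hVr : V ≤ (LS d D β (range J)).V rest fun i => P (Sum.inl i) := by
    rw [hV]
    intro f hf
    rw [Sys.mem_V] at hf ⊢
    exact fun i => hf (Sum.inl i)
  let z : Fin m → ℂ := fun t => P (Sum.inr (Fin.last N)) (φ (Sum.inr t), 0)
  let L : V →ₗ[ℂ] B := 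
    { toFun := fun f => ⟨fun a => eval z (Gam φ f.1 a),
        eval_mem φ f.1 B (fun α => hPB f.1 (hVr f.2) α) z⟩
      map_add' := by
        intro f g
        apply Subtype.ext
        funext a
        show eval z (Gam φ (f.1 + g.1) a) = eval z (Gam φ f.1 a) + eval z (Gam φ g.1 a)
        rw [map_add, Pi.add_apply, map_add]
      map_smul' := by
        intro x f
        apply Subtype.ext
        funext a
        show eval z (Gam φ (x • f.1) a) = x * eval z (Gam φ f.1 a)
        rw [map_smul, Pi.smul_apply, smul_eval] }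
  have h1 := LinearMap.finrank_range_add_finrank_ker L
  have h2 : finrank ℂ (LinearMap.range L) ≤ b := (Submodule.finrank_le _).trans_eq hB
  have h3 : finrank ℂ (LinearMap.ker L) ≤ finrank ℂ ((LS d D β (range J)).V
      (Sum.elim rest fun _ : Fin (N + 1) => Kd.ord e (range J)) P) := by
    rw [← Submodule.finrank_map_subtype_eq]
    refine Submodule.finrank_mono ?_
    rintro _ ⟨f, hf, rfl⟩
    have hf0 : ∀ a, eval z (Gam φ f.1 a) = 0 := fun a =>
      congrFun (congrArg Subtype.val (LinearMap.mem_ker.1 hf)) a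
    have hfm := main_mem hβ hD (P (Sum.inr (Fin.last N))) f.1 hf0
    have hfV : f.1 ∈ (LS d D β (range J)).V
        (Sum.elim rest fun _ : Fin N => Kd.ord e (range J)) P' := hV ▸ f.2
    show f.1 ∈ _
    rw [Sys.mem_V] at hfm hfV ⊢
    rintro (i | i)
    · exact hfV (Sum.inl i)
    · refine Fin.lastCases ?_ (fun i => ?_) i
      · exact hfm ()
      · exact hfV (Sum.inr i)
  have h4 := gd_le (LS d D β (range J)) (Sum.elim rest fun _ : Fin N => Kd.ord e (range J)) P'
  rw [← hV] at h4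
  rw [hP] at h3
  omega

/-- Several points of the main kind. -/
theorem gd_drops {φ : Bl c J ⊕ Fin m ≃ ν} {β : ν → ℕ} (hβ : IsB φ β) {d D e : ℕ} (hD : D ≤ J + e)
    {κ : Type} [Fintype κ] (rest : κ → Kd) (b : ℕ)
    (hC : Gn κ (ν × Fin (d + 1)) fun p => ∃ B : Submodule ℂ (TI c J → ℂ), finrank ℂ B = b ∧
      ∀ f ∈ (LS d D β (range J)).V rest p, ∀ α, (fun a => coeff α (Gam φ f a)) ∈ B) (N k : ℕ) :
    (LS d D β (range J)).gd (Sum.elim rest fun _ : Fin N => Kd.ord e (range J)) ≤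
      (LS d D β (range J)).gd (Sum.elim rest fun _ : Fin (N + k) => Kd.ord e (range J)) + k * b := by
  induction k with
  | zero => simp
  | succ k ih =>
    have h1 := gd_drop hβ hD rest b hC (N + k)
    have h2 : N + (k + 1) = N + k + 1 := by ring
    rw [h2]
    have h3 : (k + 1) * b = k * b + b := by ring
    omega

end Pool.Agent.GD.Top

end

section

/-!
# General d, ALPHA: finite systems, positivity

`pos_low`: if the virtual dimensions at the pairs `(I', #I')` are positive and `w` is large (polynomially in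
the number of the objects and the sizes of the blocks), all the virtual dimensions are positive.
-/

set_option autoImplicit false

namespace Pool.Agent.GD.AL

open Finset

/-! ### A bound for the virtual dimensions -/

theorem abs_coeff_mul {F F' G G' : PowerSeries ℤ}
    (h : ∀ k, |PowerSeries.coeff k F| ≤ PowerSeries.coeff k G)
    (h' : ∀ k, |PowerSeries.coeff k F'| ≤ PowerSeries.coeff k G') (k : ℕ) :
    |PowerSeries.coeff k (F * F')| ≤ PowerSeries.coeff k (G * G') := by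
  rw [PowerSeries.coeff_mul, PowerSeries.coeff_mul]
  refine (abs_sum_le_sum_abs _ _).trans (sum_le_sum fun p _ => ?_)
  rw [abs_mul]
  exact mul_le_mul (h _) (h' _) (abs_nonneg _) ((abs_nonneg _).trans (h _))

theorem abs_coeff_hs (N k : ℕ) : |PowerSeries.coeff k (hs N)| ≤ PowerSeries.coeff k (hs N) :=
  (abs_of_nonneg (Nn.hs N k)).le

theorem abs_coeff_P {k : Kd} (hk : ∃ x A, k = .ord x A ∧ 1 ≤ x) (I' : Finset ℕ) (j : ℕ) :
    |PowerSeries.coeff j (k.P I')| ≤ PowerSeries.coeff j (hs 1) := by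
  obtain ⟨x, A, rfl, hx⟩ := hk
  have h1 : PowerSeries.coeff j (hs 1) = 1 := by
    unfold hs
    rw [PowerSeries.coeff_mk, Nat.multichoose_one]
    rfl
  have h0 : |PowerSeries.coeff j (1 : PowerSeries ℤ)| ≤ 1 := by
    rw [PowerSeries.coeff_one]
    split_ifs <;> simp
  rw [h1]
  show |PowerSeries.coeff j (if I' ⊆ A then 1 - PowerSeries.X ^ x else 1 : PowerSeries ℤ)| ≤ 1
  split_ifs with h
  · rw [map_sub, PowerSeries.coeff_one, PowerSeries.coeff_X_pow]
    by_cases hj : j = 0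
    · rw [if_pos hj, if_neg (by omega)]
      simp
    · rw [if_neg hj]
      split_ifs <;> simp
  · exact h0

theorem abs_coeff_prod (I' : Finset ℕ) (ms : Multiset Kd) (hm : ∀ k ∈ ms, ∃ x A, k = .ord x A ∧ 1 ≤ x) :
    ∀ j, |PowerSeries.coeff j (ms.map (Kd.P I')).prod| ≤ PowerSeries.coeff j (hs ms.card) := by
  induction ms using Multiset.induction_on with
  | empty =>
    intro j
    rw [Multiset.map_zero, Multiset.prod_zero, Multiset.card_zero, PowerSeries.coeff_one]
    unfold hs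
    rw [PowerSeries.coeff_mk]
    cases j with
    | zero => simp
    | succ j => simp
  | cons k ms ih =>
    intro j
    rw [Multiset.map_cons, Multiset.prod_cons, Multiset.card_cons, add_comm, hs_add]
    exact abs_coeff_mul (abs_coeff_P (hm k (Multiset.mem_cons_self k ms)) I')
      (ih fun k' hk' => hm k' (Multiset.mem_cons_of_mem hk')) j

/-- The virtual dimensions of few objects. -/
theorem vd_abs_ord {D n : ℕ} {I : Finset ℕ} {c : ℕ → ℕ} {ms : Multiset Kd}
    (hm : ∀ k ∈ ms, ∃ x A, k = .ord x A ∧ 1 ≤ x) :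
    |vd D I c n ms| ≤ 2 ^ I.card * ((ms.card + n : ℕ) : ℤ) ^ D := by
  unfold vd
  refine (abs_sum_le_sum_abs _ _).trans ?_
  have h1 : ∀ I' ∈ I.powerset, |(-1 : ℤ) ^ I'.card * PowerSeries.coeff D ((ms.map (Kd.P I')).prod *
      hs (n - ∑ i ∈ I', c i))| ≤ ((ms.card + n : ℕ) : ℤ) ^ D := by
    intro I' _
    rw [abs_mul, abs_pow, abs_neg, abs_one, one_pow, one_mul]
    refine (abs_coeff_mul (abs_coeff_prod I' ms hm) (abs_coeff_hs _) D).trans ?_
    rw [← hs_add]
    unfold hs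
    rw [PowerSeries.coeff_mk]
    have h2 : (ms.card + (n - ∑ i ∈ I', c i)).multichoose D ≤ (ms.card + n) ^ D :=
      (multichoose_le_pow _ _).trans (Nat.pow_le_pow_left (by omega) D)
    exact_mod_cast h2
  refine (sum_le_sum h1).trans ?_
  rw [sum_const, card_powerset, nsmul_eq_mul]
  push_cast
  exact le_rfl

/-! ### Positivity -/

/-- The number of the monomials from below. -/
theorem pow_le_multichoose {d w r : ℕ} (hr : r ≤ d) (hw : 1 ≤ w) :
    (w : ℝ) ^ r / d.factorial ≤ (w.multichoose r : ℕ) := by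
  have h1 := Nat.pow_le_choose (α := ℝ) r (w + r - 1)
  rw [Nat.multichoose_eq]
  refine le_trans ?_ h1
  have h2 : w + r - 1 + 1 - r = w := by omega
  rw [h2]
  have h3 : (r.factorial : ℝ) ≤ d.factorial := by exact_mod_cast Nat.factorial_le hr
  exact div_le_div_of_nonneg_left (by positivity) (by positivity) h3

theorem pos_low (d J : ℕ) {η : ℝ} (hη : 0 < η) (_hη1 : η ≤ 1) :
    ∃ C : ℕ, ∀ (D : ℕ) (c0 : ℕ → ℕ) (n0 m : ℕ) (σ : St) (I : Finset ℕ), D ≤ d → I ⊆ range J →
      (∀ l, σ.c l ≤ c0 l) → (∀ l ∈ I, 1 ≤ c0 l) → (∀ k ∈ σ.ms, AdmO d J k) → σ.ms.card ≤ m →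
      (∀ I' ⊆ I, η * ∏ l ∈ I', (c0 l : ℝ) ≤ (σ.V J I' I'.card : ℝ)) →
      C * (m + ∑ l ∈ range J, c0 l + 1) ^ (d + 1) ≤ σ.w → n0 ≤ 2 * σ.w →
      Pos J c0 n0 (η / (2 ^ (d + 1) * d.factorial)) σ I D := by
  have hfac : (0 : ℝ) < d.factorial := by exact_mod_cast Nat.factorial_pos d
  obtain ⟨C₁, hC1⟩ := exists_nat_ge (2 * d * 2 ^ J * d.factorial / η)
  refine ⟨C₁ + 1, ?_⟩
  intro D c0 n0 m σ I hD hI hc hc0 hm hcard hlow hw hn0 I' hI' D' hD1 hD2
  set B := ∑ l ∈ range J, c0 l with hB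
  set X : ℕ := m + B + 1 with hX
  set n₁ := ∑ l ∈ range J, σ.c l with hn1
  have hX1 : 1 ≤ X := by omega
  have hn1B : n₁ ≤ B := sum_le_sum fun l _ => hc l
  have hD'd : D' ≤ d := by omega
  have hI'J : I' ⊆ range J := hI'.trans hI
  have hXpow : X ≤ X ^ (d + 1) := Nat.le_self_pow (Nat.succ_ne_zero d) X
  have hw1 : 1 ≤ σ.w := by
    have : 1 ≤ (C₁ + 1) * X ^ (d + 1) := Nat.mul_pos (by omega) (by positivity)
    omega
  have hsum : ∑ i ∈ I', σ.c i ≤ n₁ := sum_le_sum_of_subset hI'J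
  have hord : ∀ k ∈ σ.ms, ∃ x A, k = .ord x A ∧ 1 ≤ x := by
    intro k hk
    obtain ⟨x, A, h1, h2, -⟩ := hm k hk
    exact ⟨x, A, h1, h2⟩
  have hlowk : ∀ k ∈ σ.ms, k.Low I' := by
    intro k hk
    obtain ⟨x, A, rfl, h1, h2, h3, h4⟩ := hm k hk
    exact (card_le_card (sdiff_subset_sdiff hI'J le_rfl)).trans h4
  -- the expansion
  have hexp : ∀ E, σ.V J I' E = ∑ s ∈ range (E + 1), vd s I' σ.c n₁ σ.ms *
      (σ.w.multichoose (E - s) : ℤ) := by
    intro E
    have e1 := vd_prod E (c := σ.c) σ.w hsum σ.ms 0 (fun k hk => absurd hk (Multiset.notMem_zero k))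
    rw [add_zero] at e1
    show vd E I' σ.c (n₁ + σ.w) σ.ms = _
    rw [e1]
    refine sum_congr rfl fun s _ => ?_
    rw [vd_nil, Multiset.map_zero, Multiset.prod_zero, one_mul]
    unfold hs
    rw [PowerSeries.coeff_mk]
  have hzero : ∀ s < I'.card, vd s I' σ.c n₁ σ.ms = 0 := fun s hs' =>
    vd_low hsum σ.ms hlowk I' le_rfl s hs'
  have hap : σ.V J I' I'.card = vd I'.card I' σ.c n₁ σ.ms := by
    rw [hexp, sum_eq_single_of_mem I'.card (self_mem_range_succ _)]
    · rw [Nat.sub_self, Nat.multichoose_zero_right, Nat.cast_one, mul_one]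
    · intro s hs hne
      rw [hzero s (by have := mem_range.1 hs; omega), zero_mul]
  -- the two parts of the sum
  have hsplit : σ.V J I' D' = σ.V J I' I'.card * (σ.w.multichoose (D' - I'.card) : ℤ) +
      ∑ s ∈ Ico (I'.card + 1) (D' + 1), vd s I' σ.c n₁ σ.ms * (σ.w.multichoose (D' - s) : ℤ) := by
    rw [hexp, hap, range_eq_Ico, ← sum_Ico_consecutive _ (Nat.zero_le I'.card) (by omega : I'.card ≤ D' + 1),
      sum_eq_zero (fun s hs => by rw [hzero s (mem_Ico.1 hs).2, zero_mul]), zero_add,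
      sum_eq_sum_Ico_succ_bot (by omega : I'.card < D' + 1)]
  have hP1 : (1 : ℝ) ≤ ∏ l ∈ I', (c0 l : ℝ) := by
    have h1 : 1 ≤ ∏ l ∈ I', c0 l := Nat.succ_le_of_lt (prod_pos fun l hl => hc0 l (hI' hl))
    exact_mod_cast h1
  set P := ∏ l ∈ I', (c0 l : ℝ) with hP
  have hlow' : η * P ≤ (σ.V J I' I'.card : ℝ) := hlow I' hI'
  unfold nz
  rw [← hP]
  set r := D' - I'.card with hr
  have hrd : r ≤ d := by omega
  have hw0 : (0 : ℝ) < σ.w := by exact_mod_cast hw1
  -- the size `n0`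
  have hn0' : (n0 : ℝ) ^ r ≤ 2 ^ d * (σ.w : ℝ) ^ r := by
    have h1 : n0 ^ r ≤ 2 ^ d * σ.w ^ r := by
      refine (Nat.pow_le_pow_left hn0 r).trans ?_
      rw [mul_pow]
      exact Nat.mul_le_mul_right _ (Nat.pow_le_pow_right (by norm_num) hrd)
    exact_mod_cast h1
  have hmain : η * P * ((σ.w : ℝ) ^ r / d.factorial) ≤
      (σ.V J I' I'.card : ℝ) * (σ.w.multichoose r : ℕ) :=
    mul_le_mul hlow' (pow_le_multichoose hrd hw1) (by positivity)
      ((mul_nonneg hη.le (by linarith)).trans hlow')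
  have hV : (σ.V J I' D' : ℝ) = (σ.V J I' I'.card : ℝ) * (σ.w.multichoose r : ℕ) +
      ∑ s ∈ Ico (I'.card + 1) (D' + 1), (vd s I' σ.c n₁ σ.ms : ℝ) * (σ.w.multichoose (D' - s) : ℕ) := by
    rw [hsplit]
    push_cast
    rfl
  rw [hV]
  rcases Nat.eq_zero_or_pos r with hr0 | hr0
  · have h1 : Ico (I'.card + 1) (D' + 1) = ∅ := Ico_eq_empty (by omega)
    rw [h1, sum_empty, add_zero]
    refine le_trans ?_ hmain
    rw [hr0, pow_zero, pow_zero, mul_one]
    have h2 : η / (2 ^ (d + 1) * d.factorial) * P = η * P * (1 / d.factorial) / 2 ^ (d + 1) := by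
      field_simp
    rw [h2]
    exact div_le_self (by positivity) (one_le_pow₀ (by norm_num))
  · -- the rest
    have hrest : |∑ s ∈ Ico (I'.card + 1) (D' + 1), (vd s I' σ.c n₁ σ.ms : ℝ) *
        (σ.w.multichoose (D' - s) : ℕ)| ≤ d * (2 ^ J * (X : ℝ) ^ d * (σ.w : ℝ) ^ (r - 1)) := by
      refine (abs_sum_le_sum_abs _ _).trans ?_
      have h1 : ∀ s ∈ Ico (I'.card + 1) (D' + 1), |(vd s I' σ.c n₁ σ.ms : ℝ) *
          (σ.w.multichoose (D' - s) : ℕ)| ≤ 2 ^ J * (X : ℝ) ^ d * (σ.w : ℝ) ^ (r - 1) := by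
        intro s hs
        rw [mem_Ico] at hs
        rw [abs_mul, Nat.abs_cast]
        have h2 : |(vd s I' σ.c n₁ σ.ms : ℝ)| ≤ 2 ^ J * (X : ℝ) ^ d := by
          have h3 := vd_abs_ord (D := s) (n := n₁) (I := I') (c := σ.c) hord
          have h4 : |(vd s I' σ.c n₁ σ.ms : ℝ)| ≤
              2 ^ I'.card * ((σ.ms.card + n₁ : ℕ) : ℝ) ^ s := by
            have : ((|vd s I' σ.c n₁ σ.ms| : ℤ) : ℝ) ≤
                ((2 ^ I'.card * ((σ.ms.card + n₁ : ℕ) : ℤ) ^ s : ℤ) : ℝ) := by exact_mod_cast h3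
            rw [Int.cast_abs] at this
            refine this.trans (le_of_eq ?_)
            push_cast
            ring
          refine h4.trans ?_
          have h5 : I'.card ≤ J := by
            have := card_le_card hI'J
            rwa [card_range] at this
          have h6 : ((σ.ms.card + n₁ : ℕ) : ℝ) ^ s ≤ (X : ℝ) ^ d := by
            have h7 : (σ.ms.card + n₁) ^ s ≤ X ^ d :=
              (Nat.pow_le_pow_left (by omega) s).trans (Nat.pow_le_pow_right hX1 (by omega))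
            exact_mod_cast h7
          exact mul_le_mul (pow_le_pow_right₀ (by norm_num) h5) h6 (by positivity) (by positivity)
        have h8 : ((σ.w.multichoose (D' - s) : ℕ) : ℝ) ≤ (σ.w : ℝ) ^ (r - 1) := by
          have h9 : σ.w.multichoose (D' - s) ≤ σ.w ^ (r - 1) :=
            (multichoose_le_pow _ _).trans (Nat.pow_le_pow_right hw1 (by omega))
          exact_mod_cast h9
        exact mul_le_mul h2 h8 (Nat.cast_nonneg _) (by positivity)
      refine (sum_le_sum h1).trans ?_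
      rw [sum_const, nsmul_eq_mul, Nat.card_Ico]
      refine mul_le_mul_of_nonneg_right ?_ (by positivity)
      have h2 : D' + 1 - (I'.card + 1) ≤ d := by omega
      exact_mod_cast h2
    have hwr : (σ.w : ℝ) ^ r = σ.w * (σ.w : ℝ) ^ (r - 1) := by
      rw [← pow_succ']
      congr 1
      omega
    have hbig : 2 * d * 2 ^ J * d.factorial / η * (X : ℝ) ^ d ≤ σ.w := by
      have h1 : (C₁ : ℝ) * (X : ℝ) ^ d ≤ σ.w := by
        have h2 : C₁ * X ^ d ≤ (C₁ + 1) * X ^ (d + 1) :=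
          Nat.mul_le_mul (by omega) (Nat.pow_le_pow_right hX1 (by omega))
        exact_mod_cast h2.trans hw
      exact (mul_le_mul_of_nonneg_right hC1 (by positivity)).trans h1
    have hkey : (d : ℝ) * (2 ^ J * (X : ℝ) ^ d * (σ.w : ℝ) ^ (r - 1)) ≤
        η * P * ((σ.w : ℝ) ^ r / d.factorial) / 2 := by
      have h1 : (2 * d * 2 ^ J * d.factorial / η * (X : ℝ) ^ d) * (η * (σ.w : ℝ) ^ (r - 1) /
          (2 * d.factorial)) ≤ σ.w * (η * (σ.w : ℝ) ^ (r - 1) / (2 * d.factorial)) :=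
        mul_le_mul_of_nonneg_right hbig (by positivity)
      have h2 : (2 * d * 2 ^ J * d.factorial / η * (X : ℝ) ^ d) * (η * (σ.w : ℝ) ^ (r - 1) /
          (2 * d.factorial)) = (d : ℝ) * (2 ^ J * (X : ℝ) ^ d * (σ.w : ℝ) ^ (r - 1)) := by
        field_simp
      have h3 : σ.w * (η * (σ.w : ℝ) ^ (r - 1) / (2 * d.factorial)) =
          η * ((σ.w : ℝ) ^ r / d.factorial) / 2 := by
        rw [hwr]
        field_simp
      rw [h2, h3] at h1
      refine h1.trans ?_
      have h4 : η * ((σ.w : ℝ) ^ r / d.factorial) ≤ η * P * ((σ.w : ℝ) ^ r / d.factorial) := by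
        have h5 : 0 ≤ (σ.w : ℝ) ^ r / d.factorial := by positivity
        have h6 : η ≤ η * P := le_mul_of_one_le_right hη.le hP1
        exact mul_le_mul_of_nonneg_right h6 h5
      linarith
    have h10 := (abs_le.1 hrest).1
    have h11 : η / (2 ^ (d + 1) * d.factorial) * (P * (n0 : ℝ) ^ r) ≤
        η * P * ((σ.w : ℝ) ^ r / d.factorial) / 2 := by
      have h12 : η / (2 ^ (d + 1) * d.factorial) * (P * (n0 : ℝ) ^ r) ≤
          η / (2 ^ (d + 1) * d.factorial) * (P * (2 ^ d * (σ.w : ℝ) ^ r)) :=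
        mul_le_mul_of_nonneg_left (mul_le_mul_of_nonneg_left hn0' (by linarith)) (by positivity)
      refine h12.trans (le_of_eq ?_)
      rw [pow_succ]
      field_simp
    linarith

end Pool.Agent.GD.AL

end
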