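import Pool.Agent.H94.LP7.M44
import Pool.Agent.H94.LP7.M60

/-! The parts of this file: GD.AL.VLi, GD.AL.Near. -/

section

/-!
# General d, ALPHA, part C: the virtual dimension of the trace on `L_i`
-/

set_option autoImplicit false

namespace Pool.Agent.GD.AL

open Finset

section

variable {d J D : ℕ} {σ : St} {I : Finset ℕ}

private theorem mem_inter_iff {As : List (Finset ℕ)} (h : 1 ≤ As.length) (i : ℕ) :
    i ∈ inter As ↔ ∀ A ∈ As, i ∈ A := by
  obtain ⟨B, Bs, rfl⟩ := List.exists_cons_of_length_pos h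
  unfold inter
  rw [mem_filter]
  constructor
  · exact fun h => h.2
  · exact fun h => ⟨h B List.mem_cons_self, h⟩

private theorem filter_prod (i e : ℕ) (I' : Finset ℕ) (As : List (Finset ℕ)) :
    ((As.filter fun A => i ∈ A).map fun A =>
        if I' ⊆ A then 1 - PowerSeries.X ^ e else (1 : PowerSeries ℤ)).prod =
      (As.map fun A => if insert i I' ⊆ A then 1 - PowerSeries.X ^ e
        else (1 : PowerSeries ℤ)).prod := by
  induction As with
  | nil => rfl
  | cons A As ih =>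
    rw [List.filter_cons, List.map_cons, List.prod_cons, ← ih]
    by_cases h : i ∈ A
    · rw [if_pos (by simpa using h), List.map_cons, List.prod_cons]
      congr 1
      by_cases h2 : I' ⊆ A
      · rw [if_pos h2, if_pos (insert_subset h h2)]
      · rw [if_neg h2, if_neg fun h3 => h2 ((subset_insert _ _).trans h3)]
    · rw [if_neg (by simpa using h), if_neg fun h3 => h (h3 (mem_insert_self _ _)), one_mul]

private theorem mem_filter_prod_one {l e : ℕ} {I' : Finset ℕ} (hl : l ∈ I') (i : ℕ)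
    (As : List (Finset ℕ)) (hA : ∀ A ∈ As, l ∉ A) :
    ((As.filter fun A => i ∈ A).map fun A =>
        if I' ⊆ A then 1 - PowerSeries.X ^ e else (1 : PowerSeries ℤ)).prod = 1 := by
  induction As with
  | nil => rfl
  | cons A As ih =>
    have ih' := ih fun B hB => hA B (List.mem_cons_of_mem _ hB)
    rw [List.filter_cons]
    split_ifs with h
    · rw [List.map_cons, List.prod_cons, ih', if_neg fun h2 =>
        hA A List.mem_cons_self (h2 hl), one_mul]
    · exact ih'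

/-- The factors of the trace. -/
theorem P_tri {i : ℕ} {k : Kd} (hk : k.Ok d J) {I' : Finset ℕ} (hi : i ∉ I') :
    ((tri i k).map (Kd.P I')).prod = k.P (insert i I') := by
  cases k with
  | ord e A =>
    show ((if i ∈ A then {Kd.ord e A} else 0 : Multiset Kd).map (Kd.P I')).prod =
      if insert i I' ⊆ A then 1 - PowerSeries.X ^ e else 1
    by_cases h : i ∈ A
    · rw [if_pos h, Multiset.map_singleton, Multiset.prod_singleton]
      show (if I' ⊆ A then 1 - PowerSeries.X ^ e else (1 : PowerSeries ℤ)) = _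
      by_cases h2 : I' ⊆ A
      · rw [if_pos h2, if_pos (insert_subset h h2)]
      · rw [if_neg h2, if_neg fun h3 => h2 ((subset_insert _ _).trans h3)]
    · rw [if_neg h, if_neg fun h3 => h (h3 (mem_insert_self _ _)), Multiset.map_zero,
        Multiset.prod_zero]
  | cl e dl l As =>
    obtain ⟨he, hL, htr, hlJ, hA⟩ := hk
    have hlA : ∀ A ∈ As, l ∉ A := fun A hA' h => (mem_erase.1 (hA A hA' h)).1 rfl
    show ((if l = i then {Kd.ord (trx e dl As.length) (inter As)}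
      else if ∀ A ∈ As, i ∈ A then {Kd.cl e dl l As}
      else (((As.filter fun A => i ∈ A).map fun A => Kd.ord e A : List Kd) : Multiset Kd) :
        Multiset Kd).map (Kd.P I')).prod =
      if l ∈ insert i I' then
        (if (insert i I').erase l ⊆ inter As then 1 - PowerSeries.X ^ trx e dl As.length else 1)
      else (As.map fun A => if insert i I' ⊆ A then 1 - PowerSeries.X ^ e
        else (1 : PowerSeries ℤ)).prod
    by_cases hli : l = i
    · subst hli
      rw [if_pos rfl, if_pos (mem_insert_self _ _), erase_insert hi, Multiset.map_singleton,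
        Multiset.prod_singleton]
      rfl
    · have hlI : l ∈ insert i I' ↔ l ∈ I' := by
        rw [mem_insert]
        exact ⟨fun h => h.resolve_left hli, Or.inr⟩
      rw [if_neg hli]
      by_cases hall : ∀ A ∈ As, i ∈ A
      · have hin : i ∈ inter As := (mem_inter_iff hL i).2 hall
        rw [if_pos hall, Multiset.map_singleton, Multiset.prod_singleton]
        show (if l ∈ I' then
          (if I'.erase l ⊆ inter As then 1 - PowerSeries.X ^ trx e dl As.length else 1)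
          else (As.map fun A => if I' ⊆ A then 1 - PowerSeries.X ^ e
            else (1 : PowerSeries ℤ)).prod) = _
        by_cases h1 : l ∈ I'
        · rw [if_pos h1, if_pos (hlI.2 h1)]
          by_cases h2 : I'.erase l ⊆ inter As
          · rw [if_pos h2, if_pos]
            intro y hy
            obtain ⟨h3, h4⟩ := mem_erase.1 hy
            rcases mem_insert.1 h4 with rfl | h5
            · exact hin
            · exact h2 (mem_erase.2 ⟨h3, h5⟩)
          · rw [if_neg h2, if_neg fun h3 => h2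
              ((erase_subset_erase l (subset_insert i I')).trans h3)]
        · rw [if_neg h1, if_neg fun h2 => h1 (hlI.1 h2)]
          congr 1
          refine List.map_congr_left fun A hA' => ?_
          by_cases h2 : I' ⊆ A
          · rw [if_pos h2, if_pos (insert_subset (hall A hA') h2)]
          · rw [if_neg h2, if_neg fun h3 => h2 ((subset_insert _ _).trans h3)]
      · have hin : i ∉ inter As := fun h => hall ((mem_inter_iff hL i).1 h)
        rw [if_neg hall, Multiset.map_coe, Multiset.prod_coe, List.map_map]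
        have h0 : (Kd.P I' ∘ fun A => Kd.ord e A) = fun A : Finset ℕ =>
            if I' ⊆ A then 1 - PowerSeries.X ^ e else (1 : PowerSeries ℤ) := by
          funext A
          rfl
        rw [h0]
        by_cases h1 : l ∈ I'
        · rw [if_pos (hlI.2 h1), mem_filter_prod_one h1 i As hlA, if_neg]
          exact fun h2 => hin (h2 (mem_erase.2 ⟨fun h => hli h.symm, mem_insert_self _ _⟩))
        · rw [if_neg fun h2 => h1 (hlI.1 h2), filter_prod]

/-- The virtual dimension of the trace on `L_i`. -/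
theorem St.V_li (hI : I ⊆ range J) {i : ℕ} (hi : i ∉ I) (hiJ : i < J)
    (hm : ∀ k ∈ σ.ms, k.Ok d J) :
    (σ.li i).V J I D = σ.V J I D - σ.V J (insert i I) D := by
  have hn : (σ.li i).n J = σ.n J - σ.c i := by
    show ∑ l ∈ range J, Function.update σ.c i 0 l + σ.w = ∑ l ∈ range J, σ.c l + σ.w - σ.c i
    rw [sum_update_of_mem (mem_range.2 hiJ), sdiff_singleton_eq_erase,
      ← add_sum_erase (range J) σ.c (mem_range.2 hiJ)]
    omega
  unfold St.V
  rw [hn]
  unfold vd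
  rw [sum_powerset_insert hi]
  have key : ∀ I' ∈ I.powerset,
      (-1 : ℤ) ^ I'.card * PowerSeries.coeff D (((σ.li i).ms.map (Kd.P I')).prod *
        hs (σ.n J - σ.c i - ∑ l ∈ I', (σ.li i).c l)) =
      -((-1 : ℤ) ^ (insert i I').card * PowerSeries.coeff D ((σ.ms.map (Kd.P (insert i I'))).prod *
        hs (σ.n J - ∑ l ∈ insert i I', σ.c l))) := by
    intro I' hI'
    have hI'' := mem_powerset.1 hI'
    have hiI' : i ∉ I' := fun h => hi (hI'' h)
    have e1 : ((σ.li i).ms.map (Kd.P I')).prod = (σ.ms.map (Kd.P (insert i I'))).prod := by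
      show ((σ.ms.bind (tri i)).map (Kd.P I')).prod = _
      rw [Multiset.map_bind, Multiset.prod_bind]
      congr 1
      exact Multiset.map_congr rfl fun k hk => P_tri (hm k hk) hiI'
    have e2 : ∑ l ∈ I', (σ.li i).c l = ∑ l ∈ I', σ.c l :=
      by
      refine sum_congr rfl fun l hl => ?_
      have h3 : l ≠ i := fun h => hiI' (h ▸ hl)
      show Function.update σ.c i 0 l = σ.c l
      rw [Function.update_of_ne h3]
    rw [e1, e2, card_insert_of_notMem hiI', sum_insert hiI', Nat.sub_sub, pow_succ]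
    ring
  rw [sum_congr rfl key, sum_neg_distrib]
  ring

end

end Pool.Agent.GD.AL

end

section

/-!
# General d, ALPHA, part C: small changes of a state
-/

set_option autoImplicit false

namespace Pool.Agent.GD.AL

open Finset

section

variable {d J D e : ℕ} {σ : St} {I : Finset ℕ} {c0 : ℕ → ℕ} {n0 : ℕ} {η m0 : ℝ}

private theorem nr_nonneg (c0 : ℕ → ℕ) (n0 : ℕ) (I : Finset ℕ) (D : ℕ) : 0 ≤ nz c0 n0 I D := by
  unfold nz
  positivity

private theorem nr_erase (c0 : ℕ → ℕ) (n0 : ℕ) {I : Finset ℕ} {a : ℕ} (ha : a ∈ I) (D : ℕ) :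
    nz c0 n0 I (D + 1) = c0 a * nz c0 n0 (I.erase a) D := by
  unfold nz
  rw [← mul_prod_erase I (fun i => (c0 i : ℝ)) ha, card_erase_of_mem ha]
  have h1 : 0 < I.card := card_pos.2 ⟨a, ha⟩
  have h2 : D + 1 - I.card = D - (I.card - 1) := by omega
  rw [h2]
  ring

private theorem nr_succ (c0 : ℕ → ℕ) (n0 : ℕ) {I : Finset ℕ} {D : ℕ} (h : I.card ≤ D) :
    nz c0 n0 I (D + 1) = n0 * nz c0 n0 I D := by
  unfold nz
  have h2 : D + 1 - I.card = (D - I.card) + 1 := by omega
  rw [h2, pow_succ]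
  ring

private theorem nr_card {I I' I'' : Finset ℕ} :
    (I \ I'').card ≤ (I \ I').card + (I' \ I'').card := by
  refine le_trans (card_le_card ?_) (card_union_le _ _)
  intro x hx
  rw [mem_sdiff] at hx
  rw [mem_union, mem_sdiff, mem_sdiff]
  by_cases h : x ∈ I'
  · exact Or.inr ⟨h, hx.2⟩
  · exact Or.inl ⟨hx.1, h⟩

private theorem nr_V_zero (σ τ : St) (h : σ.ms = τ.ms) : σ.V J ∅ 0 = τ.V J ∅ 0 := by
  unfold St.V
  rw [vd_nil, vd_nil, h, PowerSeries.coeff_mul, PowerSeries.coeff_mul]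
  simp [hs]

private theorem nr_n0 {K : ℝ} (hR : Rf J c0 n0 K) (hK : 0 ≤ K) : K ≤ n0 := by
  have h1 : (0 : ℝ) ≤ ∑ l ∈ range J, (c0 l : ℝ) := sum_nonneg fun _ _ => Nat.cast_nonneg _
  have h2 := hR.n
  nlinarith

private theorem nr_c0_n0 (hR : Rf J c0 n0 1) {a : ℕ} (ha : a < J) : (c0 a : ℝ) ≤ n0 := by
  have h1 : (c0 a : ℝ) ≤ ∑ l ∈ range J, (c0 l : ℝ) :=
    single_le_sum (f := fun l => (c0 l : ℝ)) (fun _ _ => Nat.cast_nonneg _) (mem_range.2 ha)
  have h2 := hR.n
  linarith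

/-- A pair lower by `x ≥ 1` has a natural size smaller by the factor `m0`. -/
private theorem nr_ratio (hm0 : 1 ≤ m0) (hR : Rf J c0 n0 m0) {I' I'' : Finset ℕ} (hI' : I' ⊆ range J) (hs : I'' ⊆ I')
    {x D' : ℕ} (hx : 1 ≤ x) (hxD : x ≤ D') (hc : (I' \ I'').card ≤ x) (hl : I''.card ≤ D' - x) :
    m0 * nz c0 n0 I'' (D' - x) ≤ nz c0 n0 I' D' := by
  have hn := nr_n0 hR (by linarith)
  have h1 : I'.card = I''.card + (I' \ I'').card := by
    have := card_sdiff_add_card_eq_card hs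
    omega
  have h2 : D' - I'.card = (D' - x - I''.card) + (x - (I' \ I'').card) := by omega
  have h3 : ∏ i ∈ I', (c0 i : ℝ) = (∏ i ∈ I' \ I'', (c0 i : ℝ)) * ∏ i ∈ I'', (c0 i : ℝ) := (prod_sdiff hs).symm
  have h4 : m0 ^ (I' \ I'').card ≤ ∏ i ∈ I' \ I'', (c0 i : ℝ) := by
    rw [← prod_const]
    exact prod_le_prod (fun _ _ => by linarith) fun i hi => hR.c i (mem_range.1 (hI' (mem_sdiff.1 hi).1))
  have h5 : m0 ^ (x - (I' \ I'').card) ≤ (n0 : ℝ) ^ (x - (I' \ I'').card) := pow_le_pow_left₀ (by linarith) hn _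
  have h6 : m0 ≤ m0 ^ (I' \ I'').card * m0 ^ (x - (I' \ I'').card) := by
    rw [← pow_add]
    have h7 : (I' \ I'').card + (x - (I' \ I'').card) = x := by omega
    rw [h7]
    exact le_self_pow₀ hm0 (by omega)
  have h7 : m0 ^ (I' \ I'').card * m0 ^ (x - (I' \ I'').card) ≤
      (∏ i ∈ I' \ I'', (c0 i : ℝ)) * (n0 : ℝ) ^ (x - (I' \ I'').card) :=
    mul_le_mul h4 h5 (pow_nonneg (by linarith) _) (prod_nonneg fun _ _ => Nat.cast_nonneg _)
  unfold nz
  rw [h2, h3, pow_add]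
  have h8 : (0 : ℝ) ≤ (∏ i ∈ I'', (c0 i : ℝ)) * (n0 : ℝ) ^ (D' - x - I''.card) := by positivity
  calc m0 * ((∏ i ∈ I'', (c0 i : ℝ)) * (n0 : ℝ) ^ (D' - x - I''.card))
      ≤ ((∏ i ∈ I' \ I'', (c0 i : ℝ)) * (n0 : ℝ) ^ (x - (I' \ I'').card)) *
        ((∏ i ∈ I'', (c0 i : ℝ)) * (n0 : ℝ) ^ (D' - x - I''.card)) := mul_le_mul_of_nonneg_right (h6.trans h7) h8
    _ = _ := by ring

private theorem nr_len {dl : ℕ} {As : List (Finset ℕ)} (he : 2 ≤ e) (h : trx e dl As.length ≤ d) : As.length ≤ d := by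
  unfold trx at h
  have h1 : As.length * 1 ≤ As.length * (e - 1) := Nat.mul_le_mul_left _ (by omega)
  omega

private theorem nr_low {k : Kd} (hk : AdmO d J k ∨ AdmC d J e k) : k.Low (range J) := by
  rcases hk with ⟨x, A, rfl, -, -, -, h⟩ | ⟨dl, i, As, rfl, h1, h2, h3, h4, h5⟩
  · exact h
  · refine ⟨h2, fun A hA => ?_⟩
    obtain ⟨h6, h7⟩ := h5 A hA
    have h8 : i ∉ A := fun h => notMem_erase i _ (h6 h)
    refine ⟨h8, ?_⟩
    have h9 : range J \ A ⊆ insert i ((range J).erase i \ A) := by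
      intro x hx
      rw [mem_sdiff] at hx
      rw [mem_insert, mem_sdiff, mem_erase]
      by_cases h : x = i
      · exact Or.inl h
      · exact Or.inr ⟨⟨h, hx.1⟩, hx.2⟩
    have h10 := (card_le_card h9).trans (card_insert_le _ _)
    omega

private theorem nr_sum (τ : St) : ∑ i ∈ range J, τ.c i ≤ τ.n J := Nat.le_add_right _ _

private theorem nr_V_low {τ : St} {I₁ : Finset ℕ} {D₁ : ℕ} (hI : I₁ ⊆ range J) (hm : ∀ k ∈ τ.ms, AdmO d J k ∨ AdmC d J e k)
    (hD : D₁ < I₁.card) : τ.V J I₁ D₁ = 0 :=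
  vd_low (nr_sum τ) τ.ms (fun k hk => nr_low (hm k hk)) I₁ hI D₁ hD

/-- The bounds at the lower pairs, with the pairs where the virtual dimension vanishes. -/
private theorem nr_bd (hI : I ⊆ range J) {τ : St} (hm : ∀ k ∈ τ.ms, AdmO d J k ∨ AdmC d J e k) (hη : 0 ≤ η)
    (hb : BP J c0 n0 η τ I D) {I₁ : Finset ℕ} (h1 : I₁ ⊆ I) {D₁ : ℕ} (h2 : D₁ < D) (h3 : D₁ + (I \ I₁).card ≤ D) :
    (0 : ℝ) ≤ (τ.V J I₁ D₁ : ℝ) ∧ (τ.V J I₁ D₁ = 0 ∨ (I₁.card ≤ D₁ ∧ (τ.V J I₁ D₁ : ℝ) ≤ 2 * nz c0 n0 I₁ D₁)) := by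
  by_cases h4 : D₁ < I₁.card
  · rw [nr_V_low (h1.trans hI) hm h4]
    exact ⟨by norm_num, Or.inl rfl⟩
  · obtain ⟨h5, h6⟩ := hb I₁ h1 D₁ (by omega) h2 h3
    exact ⟨(mul_nonneg hη (nr_nonneg _ _ _ _)).trans h5, Or.inr ⟨by omega, h6⟩⟩

private theorem nr_members {dl i : ℕ} {As : List (Finset ℕ)} (h1 : 2 ≤ e) (h2 : 1 ≤ As.length) (h3 : trx e dl As.length ≤ d)
    (h4 : i < J) (h5 : ∀ A ∈ As, A ⊆ (range J).erase i ∧ ((range J).erase i \ A).card ≤ e - 1) :
    ∀ k ∈ mb e As, AdmO d J k := by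
  intro k hk
  unfold mb at hk
  rw [Multiset.mem_coe, List.mem_map] at hk
  obtain ⟨A, hA, rfl⟩ := hk
  have h6 := nr_low (d := d) (J := J) (e := e) (Or.inr ⟨dl, i, As, rfl, h1, h2, h3, h4, h5⟩)
  have h7 : 1 * (e - 1) ≤ As.length * (e - 1) := Nat.mul_le_mul_right _ h2
  unfold trx at h3
  exact ⟨e, A, rfl, by omega, by omega, (h5 A hA).1.trans (erase_subset _ _), (h6.2 A hA).2⟩

private theorem nr_lo_lo (τ : St) (a t : ℕ) : (τ.lo a t).lo a 1 = τ.lo a (t + 1) := by
  unfold St.lo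
  simp only [Function.update_self, Function.update_idem, Nat.sub_sub]

private theorem nr_lo_zero (τ : St) (a : ℕ) : τ.lo a 0 = τ := by
  unfold St.lo
  simp only [Nat.sub_zero, Function.update_eq_self]

private theorem nr_lw_lw (τ : St) (s : ℕ) : (τ.lw s).lw 1 = τ.lw (s + 1) := by
  unfold St.lw
  simp only [Nat.sub_sub]

/-- One more ordinary object. -/
theorem near_ad (hm0 : 1 ≤ m0) (hR : Rf J c0 n0 m0) (hI : I ⊆ range J) (hD : D ≤ d)
    (hm : ∀ k ∈ σ.ms, AdmO d J k ∨ AdmC d J e k) (hη : 0 ≤ η) (hb : BP J c0 n0 η σ I D) {k : Kd}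
    (hk : AdmO d J k) :
    ∀ I' ⊆ I, ∀ D' : ℕ, I'.card ≤ D' → D' + (I \ I').card ≤ D →
      (σ.V J I' D' : ℝ) - 2 / m0 * nz c0 n0 I' D' ≤ (σ.ad k).V J I' D' ∧
        (σ.ad k).V J I' D' ≤ σ.V J I' D' := by
  obtain ⟨x, A, rfl, hx1, hxd, hAJ, hAx⟩ := hk
  intro I' hI' D' hD1 hD2
  have hm0' : 0 < m0 := by linarith
  have hnz := nr_nonneg c0 n0 I' D'
  have h0 : 0 ≤ 2 / m0 * nz c0 n0 I' D' := by positivity
  by_cases hx : x ≤ D'
  · have h1 : (I' \ (I' ∩ A)).card ≤ x := by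
      refine (card_le_card ?_).trans hAx
      intro y hy
      rw [mem_sdiff, Finset.mem_inter] at hy
      exact mem_sdiff.2 ⟨hI (hI' hy.1), fun h => hy.2 ⟨hy.1, h⟩⟩
    have h2 := nr_card (I := I) (I' := I') (I'' := I' ∩ A)
    obtain ⟨h3, h4⟩ := nr_bd hI hm hη hb (inter_subset_left.trans hI' : I' ∩ A ⊆ I) (D₁ := D' - x) (by omega) (by omega)
    rw [St.V_ord A hx]
    have h5 : 0 ≤ σ.V J (I' ∩ A) (D' - x) := by exact_mod_cast h3
    have h6 : (σ.V J (I' ∩ A) (D' - x) : ℝ) ≤ 2 / m0 * nz c0 n0 I' D' := by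
      rcases h4 with h4 | ⟨h4, h6⟩
      · rw [h4]
        exact_mod_cast h0
      · have h7 := nr_ratio hm0 hR (hI'.trans hI) inter_subset_left hx1 hx h1 h4
        refine h6.trans ?_
        rw [div_mul_eq_mul_div, le_div_iff₀ hm0']
        linarith
    constructor
    · push_cast
      linarith
    · linarith
  · rw [St.V_ord_lt A (by omega)]
    exact ⟨by linarith, le_rfl⟩

/-- Several more ordinary objects. -/
theorem near_add (hm0 : 1 ≤ m0) (hR : Rf J c0 n0 m0) (hI : I ⊆ range J) (hD : D ≤ d)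
    (hm : ∀ k ∈ σ.ms, AdmO d J k ∨ AdmC d J e k) {S : Multiset Kd} (hη : 2 * S.card / m0 ≤ η)
    (hb : BP J c0 n0 η σ I D) (hS : ∀ k ∈ S, AdmO d J k) :
    ∀ I' ⊆ I, ∀ D' : ℕ, I'.card ≤ D' → D' + (I \ I').card ≤ D →
      (σ.V J I' D' : ℝ) - 2 * S.card / m0 * nz c0 n0 I' D' ≤ (σ.wm (S + σ.ms)).V J I' D' ∧
        (σ.wm (S + σ.ms)).V J I' D' ≤ σ.V J I' D' := by
  have hm0' : 0 < m0 := by linarith
  have key : ∀ T : Multiset Kd, T ≤ S → ∀ I' ⊆ I, ∀ D' : ℕ, I'.card ≤ D' → D' + (I \ I').card ≤ D →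
      (σ.V J I' D' : ℝ) - 2 * T.card / m0 * nz c0 n0 I' D' ≤ (σ.wm (T + σ.ms)).V J I' D' ∧
        (σ.wm (T + σ.ms)).V J I' D' ≤ σ.V J I' D' := by
    intro T
    induction T using Multiset.induction_on with
    | empty =>
      intro _ I' _ D' _ _
      rw [zero_add]
      change _ ≤ (σ.V J I' D' : ℝ) ∧ σ.V J I' D' ≤ σ.V J I' D'
      simp
    | cons k T ih =>
      intro hT I' hI' D' h1 h2
      have hTS : T ≤ S := (Multiset.le_cons_self T k).trans hT
      have ih' := ih hTS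
      have hcard : (T.card : ℝ) ≤ S.card := by exact_mod_cast Multiset.card_le_card hTS
      have hmT : ∀ k ∈ (σ.wm (T + σ.ms)).ms, AdmO d J k ∨ AdmC d J e k := by
        intro k' hk'
        rcases Multiset.mem_add.1 hk' with h | h
        · exact Or.inl (hS k' (Multiset.mem_of_le hTS h))
        · exact hm k' h
      have hbT : BP J c0 n0 0 (σ.wm (T + σ.ms)) I D := by
        intro I₁ hI₁ D₁ h3 h4 h5
        obtain ⟨h6, h7⟩ := ih' I₁ hI₁ D₁ h3 h5
        obtain ⟨h8, h9⟩ := hb I₁ hI₁ D₁ h3 h4 h5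
        have h10 := nr_nonneg c0 n0 I₁ D₁
        have h11 : 2 * (T.card : ℝ) / m0 ≤ η := by
          refine le_trans ?_ hη
          gcongr
        have h12 : 2 * (T.card : ℝ) / m0 * nz c0 n0 I₁ D₁ ≤ η * nz c0 n0 I₁ D₁ := mul_le_mul_of_nonneg_right h11 h10
        have h13 : (((σ.wm (T + σ.ms)).V J I₁ D₁ : ℤ) : ℝ) ≤ (σ.V J I₁ D₁ : ℝ) := by exact_mod_cast h7
        constructor
        · rw [zero_mul]
          linarith
        · linarith
      obtain ⟨h3, h4⟩ := ih' I' hI' D' h1 h2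
      obtain ⟨h5, h6⟩ := near_ad (σ := σ.wm (T + σ.ms)) hm0 hR hI hD hmT le_rfl hbT (hS k (Multiset.mem_of_le hT (Multiset.mem_cons_self k T))) I' hI' D' h1 h2
      have h7 : (σ.wm (T + σ.ms)).ad k = σ.wm (k ::ₘ T + σ.ms) := by
        unfold St.ad St.wm
        rw [Multiset.cons_add]
      rw [h7] at h5 h6
      refine ⟨?_, h6.trans h4⟩
      rw [Multiset.card_cons]
      push_cast
      have h8 : 2 * ((T.card : ℝ) + 1) / m0 * nz c0 n0 I' D' = 2 * (T.card : ℝ) / m0 * nz c0 n0 I' D' + 2 / m0 * nz c0 n0 I' D' := by ring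
      rw [h8]
      linarith
  exact key S le_rfl

/-- One step of `near_lo`. -/
private theorem nr_lo1 (hR : Rf J c0 n0 1) (hI : I ⊆ range J)
    (hm : ∀ k ∈ σ.ms, AdmO d J k ∨ AdmC d J e k) {a : ℕ} (ha : a < J) (ht : 1 ≤ σ.c a)
    (hb : BP J c0 n0 0 σ I D) :
    ∀ I' ⊆ I, ∀ D' : ℕ, I'.card ≤ D' → D' + (I \ I').card ≤ D →
      (σ.V J I' D' : ℝ) - 2 / c0 a * nz c0 n0 I' D' ≤ (σ.lo a 1).V J I' D' ∧
        (σ.lo a 1).V J I' D' ≤ σ.V J I' D' := by
  intro I' hI' D' h1 h2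
  have hc0 : (1 : ℝ) ≤ c0 a := hR.c a ha
  have hc0' : (0 : ℝ) < c0 a := by linarith
  have hcn := nr_c0_n0 hR ha
  have hnz := nr_nonneg c0 n0 I' D'
  have h0 : 0 ≤ 2 / (c0 a : ℝ) * nz c0 n0 I' D' := by positivity
  rcases Nat.eq_zero_or_pos D' with hD' | hD'
  · subst hD'
    have h3 : I' = ∅ := card_eq_zero.1 (by omega)
    subst h3
    rw [nr_V_zero (J := J) (σ.lo a 1) σ rfl]
    exact ⟨by linarith, le_rfl⟩
  · obtain ⟨D'', rfl⟩ : ∃ D'', D' = D'' + 1 := ⟨D' - 1, by omega⟩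
    by_cases haI : a ∈ I'
    · rw [St.V_lo haI (hI'.trans hI) ht]
      have h3 := card_erase_of_mem haI
      have h4 : (I \ I'.erase a).card ≤ (I \ I').card + 1 := by
        refine (nr_card (I' := I')).trans (Nat.add_le_add_left ?_ _)
        rw [sdiff_erase_self haI, card_singleton]
      obtain ⟨h5, h6⟩ := nr_bd hI hm le_rfl hb ((erase_subset a I').trans hI') (D₁ := D'') (by omega) (by omega)
      have h7 : 0 ≤ σ.V J (I'.erase a) D'' := by exact_mod_cast h5
      have h8 : (σ.V J (I'.erase a) D'' : ℝ) ≤ 2 / c0 a * nz c0 n0 I' (D'' + 1) := by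
        rcases h6 with h6 | ⟨-, h6⟩
        · rw [h6]
          exact_mod_cast h0
        · rw [nr_erase c0 n0 haI]
          refine h6.trans (le_of_eq ?_)
          field_simp
      constructor
      · push_cast
        linarith
      · linarith
    · rw [St.V_lo' haI ha (hI'.trans hI) ht]
      obtain ⟨h5, h6⟩ := nr_bd hI hm le_rfl hb hI' (D₁ := D'') (by omega) (by omega)
      have h7 : 0 ≤ σ.V J I' D'' := by exact_mod_cast h5
      have h8 : (σ.V J I' D'' : ℝ) ≤ 2 / c0 a * nz c0 n0 I' (D'' + 1) := by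
        rcases h6 with h6 | ⟨h9, h6⟩
        · rw [h6]
          exact_mod_cast h0
        · rw [nr_succ c0 n0 h9]
          refine h6.trans ?_
          rw [div_mul_eq_mul_div, le_div_iff₀ hc0']
          have h10 := nr_nonneg c0 n0 I' D''
          nlinarith [mul_le_mul_of_nonneg_right hcn h10]
      constructor
      · push_cast
        linarith
      · linarith

/-- A smaller block. -/
theorem near_lo (hR : Rf J c0 n0 1) (hI : I ⊆ range J) (hD : D ≤ d)
    (hm : ∀ k ∈ σ.ms, AdmO d J k ∨ AdmC d J e k) {a t : ℕ} (ha : a < J) (ht : t ≤ σ.c a)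
    (hη : 2 * t / c0 a ≤ η) (hb : BP J c0 n0 η σ I D) :
    ∀ I' ⊆ I, ∀ D' : ℕ, I'.card ≤ D' → D' + (I \ I').card ≤ D →
      (σ.V J I' D' : ℝ) - 2 * t / c0 a * nz c0 n0 I' D' ≤ (σ.lo a t).V J I' D' ∧
        (σ.lo a t).V J I' D' ≤ σ.V J I' D' := by
  have hc0 : (1 : ℝ) ≤ c0 a := hR.c a ha
  have hc0' : (0 : ℝ) < c0 a := by linarith
  have key : ∀ u : ℕ, u ≤ t → ∀ I' ⊆ I, ∀ D' : ℕ, I'.card ≤ D' → D' + (I \ I').card ≤ D →
      (σ.V J I' D' : ℝ) - 2 * u / c0 a * nz c0 n0 I' D' ≤ (σ.lo a u).V J I' D' ∧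
        (σ.lo a u).V J I' D' ≤ σ.V J I' D' := by
    intro u
    induction u with
    | zero =>
      intro _ I' _ D' _ _
      rw [nr_lo_zero]
      simp
    | succ u ih =>
      intro hu I' hI' D' h1 h2
      have ih' := ih (by omega)
      have hcard : (u : ℝ) ≤ t := by exact_mod_cast (by omega : u ≤ t)
      have hbT : BP J c0 n0 0 (σ.lo a u) I D := by
        intro I₁ hI₁ D₁ h3 h4 h5
        obtain ⟨h6, h7⟩ := ih' I₁ hI₁ D₁ h3 h5
        obtain ⟨h8, h9⟩ := hb I₁ hI₁ D₁ h3 h4 h5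
        have h10 := nr_nonneg c0 n0 I₁ D₁
        have h11 : 2 * (u : ℝ) / c0 a ≤ η := by
          refine le_trans ?_ hη
          gcongr
        have h12 : 2 * (u : ℝ) / c0 a * nz c0 n0 I₁ D₁ ≤ η * nz c0 n0 I₁ D₁ := mul_le_mul_of_nonneg_right h11 h10
        have h13 : (((σ.lo a u).V J I₁ D₁ : ℤ) : ℝ) ≤ (σ.V J I₁ D₁ : ℝ) := by exact_mod_cast h7
        constructor
        · rw [zero_mul]
          linarith
        · linarith
      have hca : 1 ≤ (σ.lo a u).c a := by
        change 1 ≤ Function.update σ.c a (σ.c a - u) a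
        rw [Function.update_self]
        omega
      obtain ⟨h3, h4⟩ := ih' I' hI' D' h1 h2
      obtain ⟨h5, h6⟩ := nr_lo1 (σ := σ.lo a u) hR hI hm ha hca hbT I' hI' D' h1 h2
      rw [nr_lo_lo] at h5 h6
      refine ⟨?_, h6.trans h4⟩
      push_cast
      have h8 : 2 * ((u : ℝ) + 1) / c0 a * nz c0 n0 I' D' = 2 * (u : ℝ) / c0 a * nz c0 n0 I' D' + 2 / c0 a * nz c0 n0 I' D' := by ring
      rw [h8]
      linarith
  exact key t le_rfl

/-- One step of `near_lw`. -/
private theorem nr_lw1 (hR : Rf J c0 n0 1) (hI : I ⊆ range J)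
    (hm : ∀ k ∈ σ.ms, AdmO d J k ∨ AdmC d J e k) (ht : 1 ≤ σ.w)
    (hb : BP J c0 n0 0 σ I D) :
    ∀ I' ⊆ I, ∀ D' : ℕ, I'.card ≤ D' → D' + (I \ I').card ≤ D →
      (σ.V J I' D' : ℝ) - 2 / n0 * nz c0 n0 I' D' ≤ (σ.lw 1).V J I' D' ∧
        (σ.lw 1).V J I' D' ≤ σ.V J I' D' := by
  intro I' hI' D' h1 h2
  have hn0 := nr_n0 hR zero_le_one
  have hn0' : (0 : ℝ) < n0 := by linarith
  have hnz := nr_nonneg c0 n0 I' D'
  have h0 : 0 ≤ 2 / (n0 : ℝ) * nz c0 n0 I' D' := by positivity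
  rcases Nat.eq_zero_or_pos D' with hD' | hD'
  · subst hD'
    have h3 : I' = ∅ := card_eq_zero.1 (by omega)
    subst h3
    rw [nr_V_zero (J := J) (σ.lw 1) σ rfl]
    exact ⟨by linarith, le_rfl⟩
  · obtain ⟨D'', rfl⟩ : ∃ D'', D' = D'' + 1 := ⟨D' - 1, by omega⟩
    rw [St.V_lw (hI'.trans hI) ht]
    obtain ⟨h5, h6⟩ := nr_bd hI hm le_rfl hb hI' (D₁ := D'') (by omega) (by omega)
    have h7 : 0 ≤ σ.V J I' D'' := by exact_mod_cast h5
    have h8 : (σ.V J I' D'' : ℝ) ≤ 2 / n0 * nz c0 n0 I' (D'' + 1) := by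
      rcases h6 with h6 | ⟨h9, h6⟩
      · rw [h6]
        exact_mod_cast h0
      · rw [nr_succ c0 n0 h9]
        refine h6.trans (le_of_eq ?_)
        field_simp
    constructor
    · push_cast
      linarith
    · linarith

/-- Fewer of the other variables. -/
theorem near_lw (hR : Rf J c0 n0 1) (hI : I ⊆ range J) (hD : D ≤ d)
    (hm : ∀ k ∈ σ.ms, AdmO d J k ∨ AdmC d J e k) {s : ℕ} (hs : s ≤ σ.w)
    (hη : 2 * s / n0 ≤ η) (hb : BP J c0 n0 η σ I D) :
    ∀ I' ⊆ I, ∀ D' : ℕ, I'.card ≤ D' → D' + (I \ I').card ≤ D →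
      (σ.V J I' D' : ℝ) - 2 * s / n0 * nz c0 n0 I' D' ≤ (σ.lw s).V J I' D' ∧
        (σ.lw s).V J I' D' ≤ σ.V J I' D' := by
  have hn0 := nr_n0 hR zero_le_one
  have hn0' : (0 : ℝ) < n0 := by linarith
  have key : ∀ u : ℕ, u ≤ s → ∀ I' ⊆ I, ∀ D' : ℕ, I'.card ≤ D' → D' + (I \ I').card ≤ D →
      (σ.V J I' D' : ℝ) - 2 * u / n0 * nz c0 n0 I' D' ≤ (σ.lw u).V J I' D' ∧
        (σ.lw u).V J I' D' ≤ σ.V J I' D' := by
    intro u
    induction u with
    | zero =>
      intro _ I' _ D' _ _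
      change _ ≤ (σ.V J I' D' : ℝ) ∧ σ.V J I' D' ≤ σ.V J I' D'
      simp
    | succ u ih =>
      intro hu I' hI' D' h1 h2
      have ih' := ih (by omega)
      have hcard : (u : ℝ) ≤ s := by exact_mod_cast (by omega : u ≤ s)
      have hbT : BP J c0 n0 0 (σ.lw u) I D := by
        intro I₁ hI₁ D₁ h3 h4 h5
        obtain ⟨h6, h7⟩ := ih' I₁ hI₁ D₁ h3 h5
        obtain ⟨h8, h9⟩ := hb I₁ hI₁ D₁ h3 h4 h5
        have h10 := nr_nonneg c0 n0 I₁ D₁
        have h11 : 2 * (u : ℝ) / n0 ≤ η := by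
          refine le_trans ?_ hη
          gcongr
        have h12 : 2 * (u : ℝ) / n0 * nz c0 n0 I₁ D₁ ≤ η * nz c0 n0 I₁ D₁ := mul_le_mul_of_nonneg_right h11 h10
        have h13 : (((σ.lw u).V J I₁ D₁ : ℤ) : ℝ) ≤ (σ.V J I₁ D₁ : ℝ) := by exact_mod_cast h7
        constructor
        · rw [zero_mul]
          linarith
        · linarith
      have hca : 1 ≤ (σ.lw u).w := by
        change 1 ≤ σ.w - u
        omega
      obtain ⟨h3, h4⟩ := ih' I' hI' D' h1 h2
      obtain ⟨h5, h6⟩ := nr_lw1 (σ := σ.lw u) hR hI hm hca hbT I' hI' D' h1 h2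
      rw [nr_lw_lw] at h5 h6
      refine ⟨?_, h6.trans h4⟩
      push_cast
      have h8 : 2 * ((u : ℝ) + 1) / n0 * nz c0 n0 I' D' = 2 * (u : ℝ) / n0 * nz c0 n0 I' D' + 2 / n0 * nz c0 n0 I' D' := by ring
      rw [h8]
      linarith
  exact key s le_rfl

/-- One more cluster. -/
theorem near_cl (hm0 : 1 ≤ m0) (hR : Rf J c0 n0 m0) (hI : I ⊆ range J) (hD : D ≤ d)
    (hm : ∀ k ∈ σ.ms, AdmO d J k ∨ AdmC d J e k) (hη : 2 * d / m0 ≤ η)
    (hb : BP J c0 n0 η σ I D) {k : Kd} (hk : AdmC d J e k) :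
    ∀ I' ⊆ I, ∀ D' : ℕ, I'.card ≤ D' → D' + (I \ I').card ≤ D →
      (σ.V J I' D' : ℝ) - (2 * d + 2) / m0 * nz c0 n0 I' D' ≤ (σ.ad k).V J I' D' := by
  obtain ⟨dl, i, As, rfl, h1, h2, h3, h4, h5⟩ := hk
  intro I' hI' D' hD1 hD2
  have hm0' : 0 < m0 := by linarith
  have hnz := nr_nonneg c0 n0 I' D'
  have hlen : As.length ≤ d := nr_len h1 h3
  have hmbc : (mb e As).card = As.length := by
    unfold mb
    rw [Multiset.coe_card, List.length_map]
  have hlenR : (As.length : ℝ) ≤ d := by exact_mod_cast hlen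
  have hmb := nr_members h1 h2 h3 h4 h5
  have hη' : 2 * ((mb e As).card : ℝ) / m0 ≤ η := by
    rw [hmbc]
    refine le_trans ?_ hη
    gcongr
  have hη0 : 0 ≤ η := le_trans (by positivity) hη'
  obtain ⟨h6, h7⟩ := near_add hm0 hR hI hD hm hη' hb hmb I' hI' D' hD1 hD2
  have h8 : 2 * ((mb e As).card : ℝ) / m0 * nz c0 n0 I' D' ≤ 2 * d / m0 * nz c0 n0 I' D' := by
    rw [hmbc]
    gcongr
  have h9 : (2 * d + 2) / m0 * nz c0 n0 I' D' = 2 * d / m0 * nz c0 n0 I' D' + 2 / m0 * nz c0 n0 I' D' := by ring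
  have h0 : 0 ≤ 2 / m0 * nz c0 n0 I' D' := by positivity
  by_cases hiI : i ∈ I'
  · have hni : ∀ A ∈ As, i ∉ A := fun A hA h => notMem_erase i _ ((h5 A hA).1 h)
    have h10 : (σ.ad (.cl e dl i As)).V J I' D' = (σ.wm (mb e As + σ.ms)).V J I' D' +
        if trx e dl As.length ≤ D' then
          σ.V J (I'.erase i ∩ inter As) (D' - trx e dl As.length) -
            σ.V J (insert i (I'.erase i ∩ inter As)) (D' - trx e dl As.length) else 0 :=
      vd_clu D' σ.c (σ.n J) e dl hni hiI σ.ms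
    rw [h10]
    by_cases h11 : trx e dl As.length ≤ D'
    · rw [if_pos h11]
      set J1 := I'.erase i ∩ inter As with hJ1
      set E := trx e dl As.length with hE
      have hE1 : 1 ≤ E := by
        rw [hE]
        unfold trx
        omega
      have hlow := nr_low (d := d) (J := J) (e := e) (Or.inr ⟨dl, i, As, rfl, h1, h2, h3, h4, h5⟩)
      have hne : As ≠ [] := by
        rintro rfl
        simp at h2
      have h12 := card_inter_le hiI As hne fun A hA =>
        ⟨(hlow.2 A hA).1, (card_le_card (sdiff_subset_sdiff (hI'.trans hI) le_rfl)).trans (hlow.2 A hA).2⟩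
      have hEE : As.length * (e - 1) + 1 ≤ E := by
        rw [hE]
        unfold trx
        omega
      have hiJ : i ∉ J1 := fun h => notMem_erase i I' (Finset.mem_inter.1 h).1
      have hJ1s : J1 ⊆ I' := inter_subset_left.trans (erase_subset _ _)
      have hJ2s : insert i J1 ⊆ I' := insert_subset hiI hJ1s
      have h13 : (I' \ insert i J1).card ≤ As.length * (e - 1) := by
        refine (card_le_card ?_).trans h12
        intro x hx
        rw [mem_sdiff, mem_insert, hJ1, Finset.mem_inter] at hx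
        push Not at hx
        exact mem_sdiff.2 ⟨mem_erase.2 ⟨hx.2.1, hx.1⟩, fun h => hx.2.2 (mem_erase.2 ⟨hx.2.1, hx.1⟩) h⟩
      have h14 : (I' \ J1).card ≤ As.length * (e - 1) + 1 := by
        have h15 : I' \ J1 ⊆ insert i (I' \ insert i J1) := by
          intro x hx
          rw [mem_sdiff] at hx
          rw [mem_insert, mem_sdiff, mem_insert]
          by_cases h : x = i
          · exact Or.inl h
          · exact Or.inr ⟨hx.1, fun h' => h'.elim h hx.2⟩
        have h16 := (card_le_card h15).trans (card_insert_le _ _)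
        omega
      have h17 := nr_card (I := I) (I' := I') (I'' := J1)
      have h18 := nr_card (I := I) (I' := I') (I'' := insert i J1)
      obtain ⟨h19, -⟩ := nr_bd hI hm hη0 hb (hJ1s.trans hI') (D₁ := D' - E) (by omega) (by omega)
      obtain ⟨-, h20⟩ := nr_bd hI hm hη0 hb (hJ2s.trans hI') (D₁ := D' - E) (by omega) (by omega)
      have h21 : (σ.V J (insert i J1) (D' - E) : ℝ) ≤ 2 / m0 * nz c0 n0 I' D' := by
        rcases h20 with h20 | ⟨h22, h20⟩
        · rw [h20]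
          exact_mod_cast h0
        · have h23 := nr_ratio hm0 hR (hI'.trans hI) hJ2s hE1 h11 (by omega) h22
          refine h20.trans ?_
          rw [div_mul_eq_mul_div, le_div_iff₀ hm0']
          linarith
      push_cast
      rw [h9]
      linarith
    · rw [if_neg h11, add_zero, h9]
      linarith
  · have h10 : (σ.ad (.cl e dl i As)).V J I' D' = (σ.wm (mb e As + σ.ms)).V J I' D' :=
      vd_clu_not D' σ.c (σ.n J) e dl hiI σ.ms
    rw [h10, h9]
    linarith

/-- The trace on `L_i`. -/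
theorem near_li (hR : Rf J c0 n0 1) (hI : I ⊆ range J) (hD : D ≤ d)
    (hm : ∀ k ∈ σ.ms, AdmO d J k ∨ AdmC d J e k) {i : ℕ} (hi : i ∈ I)
    (hb : BP J c0 n0 η σ I D) :
    ∀ I' ⊆ I.erase i, ∀ D' : ℕ, I'.card ≤ D' → D' < D → D' + (I \ I').card ≤ D →
      (σ.V J I' D' : ℝ) - 2 * c0 i / n0 * nz c0 n0 I' D' ≤ (σ.li i).V J I' D' := by
  intro I' hI' D' h1 h2 h3
  have hiJ : i < J := mem_range.1 (hI hi)
  have hni : i ∉ I' := fun h => notMem_erase i I (hI' h)
  have hI'' : I' ⊆ I := hI'.trans (erase_subset _ _)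
  have hok : ∀ k ∈ σ.ms, k.Ok d J := fun k hk => (hm k hk).elim AdmO.ok AdmC.ok
  have hn0 := nr_n0 hR zero_le_one
  have hn0' : (0 : ℝ) < n0 := by linarith
  have hnz := nr_nonneg c0 n0 I' D'
  have h0 : 0 ≤ 2 * (c0 i : ℝ) / n0 * nz c0 n0 I' D' := by positivity
  rw [St.V_li (hI''.trans hI) hni hiJ hok]
  have hins : insert i I' ⊆ I := insert_subset hi hI''
  have h4 : (σ.V J (insert i I') D' : ℝ) ≤ 2 * c0 i / n0 * nz c0 n0 I' D' := by
    by_cases h5 : D' < (insert i I').card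
    · rw [nr_V_low (hins.trans hI) hm h5]
      exact_mod_cast h0
    · have h6 := card_insert_of_notMem hni
      have h7 : (I \ insert i I').card ≤ (I \ I').card := card_le_card (sdiff_subset_sdiff le_rfl (subset_insert _ _))
      refine (hb (insert i I') hins D' (by omega) h2 (by omega)).2.trans (le_of_eq ?_)
      unfold nz
      rw [prod_insert hni, h6]
      have h8 : D' - I'.card = (D' - (I'.card + 1)) + 1 := by omega
      rw [h8, pow_succ]
      field_simp
  push_cast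
  linarith

end

end Pool.Agent.GD.AL

end
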