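import Pool.Agent.H94.LP7.M22
import Pool.Agent.H94.LP7.M44
import Pool.Agent.H94.LP7.M60
import Pool.Agent.H94.LP7.M72

/-! The parts of this file: GD.AL.Cl1_1, GD.AL.Cl1a, GD.AL.Fam. -/

section

/-!
# General d, ALPHA: adding a cluster of at least two members (CL1)

`cl1`: `HI (S + cluster) ≤ HI (S + the other members as points + (T, e - 1)) +
∑_(s ≤ D - e + 1) HI_s (S + the cluster of the other members + y + z)`, for every configuration `S`.
-/

set_option autoImplicit false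
set_option linter.unusedSectionVars false

namespace Pool.Agent.GD.AL

open Finset MvPolynomial Pool.Agent.H51.TB Pool.Agent.V7.ST
open Pool.Agent.V7 (msk)

section

variable {ν : Type} [Fintype ν] [DecidableEq ν] {d : ℕ}

variable {β : ν → ℕ} {i E dl : ℕ} {B A : Finset ℕ} {L : List (Finset ℕ)} {I : Finset ℕ} {κ : Type}
  {m : κ → Kd} {p : κ → ν × Fin (d + 1) → ℂ}

/-! ### General positions -/

section gen

variable {R S : Type} [CommRing R] [CommRing S] {l : ℕ}

/-- The vectors of the first members. -/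
def ga (l : ℕ) (P : κ ⊕ (Fin l ⊕ Fin 3) → ν × Fin (d + 1) → R) (x : ℕ) (s : ν) : R :=
  if h : x < l then P (Sum.inr (Sum.inl ⟨x, h⟩)) (s, 0) else 0

/-- The positions of the objects modulo the direction. -/
def Ph (β : ν → ℕ) (i : ℕ) (B : Finset ℕ) (l : ℕ) (P : κ ⊕ (Fin l ⊕ Fin 3) → ν × Fin (d + 1) → R) :
    κ ⊕ Fin 3 → ν × Fin (d + 1) → R :=
  Sum.elim (fun x => P (Sum.inl x)) (q3 β i B l (ga l P) (P (Sum.inr (Sum.inr 0)))
    (P (Sum.inr (Sum.inr 2))) (P (Sum.inr (Sum.inr 1))))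

theorem ga_map (f : R →+* S) (P : κ ⊕ (Fin l ⊕ Fin 3) → ν × Fin (d + 1) → R) (x : ℕ) (s : ν) :
    f (ga l P x s) = ga l (fun k z => f (P k z)) x s := by
  unfold ga
  split_ifs
  · rfl
  · exact map_zero f

theorem zh_map (f : R →+* S) (a : ℕ → ν → R) (b : ν → R) (s : ν) :
    f (zh β i B l a b s) = zh β i B l (fun x s => f (a x s)) (fun s => f (b s)) s := by
  unfold zh
  split_ifs
  · exact map_zero f
  · rw [map_neg, map_sum]
  · rfl

theorem Ph_map (f : R →+* S) (P : κ ⊕ (Fin l ⊕ Fin 3) → ν × Fin (d + 1) → R) (k : κ ⊕ Fin 3)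
    (z : ν × Fin (d + 1)) : f (Ph β i B l P k z) = Ph β i B l (fun k z => f (P k z)) k z := by
  have hga : (fun x s => f (ga l P x s)) = ga l (fun k z => f (P k z)) := by
    funext x s
    exact ga_map f P x s
  rcases k with k | k
  · rfl
  · fin_cases k
    · show f (pc β i B l (ga l P) (fun s => P (Sum.inr (Sum.inr 0)) (s, 0))
        (P (Sum.inr (Sum.inr 2))) z) = pc β i B l (ga l fun k z => f (P k z))
          (fun s => f (P (Sum.inr (Sum.inr 0)) (s, 0))) (fun z => f (P (Sum.inr (Sum.inr 2)) z)) z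
      unfold pc
      split_ifs
      · exact ga_map f P _ _
      · rw [map_add, ga_map, zh_map, hga]
      · rfl
    · rfl
    · show f (pb β i l (ga l P) (P (Sum.inr (Sum.inr 0))) z) =
        pb β i l (ga l fun k z => f (P k z)) (fun z => f (P (Sum.inr (Sum.inr 0)) z)) z
      unfold pb
      split_ifs
      · rw [map_neg, map_sum]
        congr 1
        exact sum_congr rfl fun x _ => ga_map f P _ _
      · rfl

theorem Ph_surj (hiB : i ∉ B) (hl1 : 1 ≤ l) (hl : l ≤ d)
    (p' : κ ⊕ Fin 3 → ν × Fin (d + 1) → ℂ) :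
    ∃ P : κ ⊕ (Fin l ⊕ Fin 3) → ν × Fin (d + 1) → ℂ, Ph β i B l P = p' := by
  let b := p' (Sum.inr 2)
  let c := p' (Sum.inr 0)
  let a : Fin l → ν → ℂ := fun x s => if x.1 + 1 < l then c (s, ⟨x.1, by omega⟩) else
    if β s = i then - b (s, 0) - ∑ x' : Fin (d + 1), (if x'.1 < l - 1 then c (s, x') else 0)
    else c (s, ⟨x.1, by omega⟩) - if β s ∈ B then 0 else b (s, 0)
  let P : κ ⊕ (Fin l ⊕ Fin 3) → ν × Fin (d + 1) → ℂ := Sum.elim (fun x => p' (Sum.inl x))
    (Sum.elim (fun x z => a x z.1) fun j => if j = 0 then b else if j = 1 then p' (Sum.inr 1) else c)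
  have hb : P (Sum.inr (Sum.inr 0)) = b := rfl
  have hc : P (Sum.inr (Sum.inr 2)) = c := rfl
  have hga : ∀ (x : ℕ) (hx : x < l) (s : ν), ga l P x s = a ⟨x, hx⟩ s := by
    intro x hx s
    unfold ga
    rw [dif_pos hx]
    rfl
  have hsum : ∀ s, β s = i → ∑ x ∈ range l, ga l P x s = - b (s, 0) := by
    intro s hs
    obtain ⟨l', rfl⟩ : ∃ l', l = l' + 1 := ⟨l - 1, by omega⟩
    rw [sum_range_succ]
    have h1 : ga (l' + 1) P l' s = - b (s, 0) - ∑ x' : Fin (d + 1),
        (if x'.1 < l' then c (s, x') else 0) := by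
      rw [hga l' (by omega)]
      show (if l' + 1 < l' + 1 then _ else if β s = i then _ else _) = _
      rw [if_neg (lt_irrefl _), if_pos hs]
      rfl
    have h2 : ∑ x ∈ range l', ga (l' + 1) P x s = ∑ x' : Fin (d + 1),
        (if x'.1 < l' then c (s, x') else 0) := by
      rw [← sum_fin_range (d := d) (by omega)]
      refine sum_congr rfl fun x' _ => ?_
      by_cases h3 : x'.1 < l'
      · rw [if_pos h3, if_pos h3, hga x'.1 (by omega)]
        show (if x'.1 + 1 < l' + 1 then c (s, ⟨x'.1, _⟩) else _) = _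
        rw [if_pos (by omega)]
      · rw [if_neg h3, if_neg h3]
    rw [h1, h2]
    ring
  refine ⟨P, ?_⟩
  funext k z
  rcases k with k | k
  · rfl
  · fin_cases k
    · show pc β i B l (ga l P) (fun s => b (s, 0)) c z = c z
      unfold pc
      split_ifs with h1 h2
      · rw [hga _ (by omega)]
        show (if z.2.1 + 1 < l then c (z.1, ⟨z.2.1, _⟩) else _) = _
        rw [if_pos h1]
      · rw [hga _ (by omega)]
        show (if z.2.1 + 1 < l then _ else if β z.1 = i then _ else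
          c (z.1, ⟨z.2.1, _⟩) - if β z.1 ∈ B then 0 else b (z.1, 0)) + _ = _
        rw [if_neg h1, if_neg h2.2]
        unfold zh
        rw [if_neg h2.2]
        exact sub_add_cancel _ _
      · rfl
    · rfl
    · show pb β i l (ga l P) b z = b z
      unfold pb
      split_ifs with h1
      · rw [hsum z.1 h1.2, neg_neg, ← h1.1]
      · rfl

/-- Generic positions of the objects modulo the direction. -/
theorem gn_Ph (hiB : i ∉ B) (hl1 : 1 ≤ l) (hl : l ≤ d)
    {Q : (κ ⊕ Fin 3 → ν × Fin (d + 1) → ℂ) → Prop} (h : Gn (κ ⊕ Fin 3) (ν × Fin (d + 1)) Q) :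
    Gn (κ ⊕ (Fin l ⊕ Fin 3)) (ν × Fin (d + 1)) fun P => Q (Ph β i B l P) := by
  have h1 := Pool.Agent.KZ.gn_sub (κ := κ ⊕ Fin 3) (κ' := κ ⊕ (Fin l ⊕ Fin 3))
    (Ph β i B l fun k z => (X (k, z) :
      MvPolynomial ((κ ⊕ (Fin l ⊕ Fin 3)) × (ν × Fin (d + 1))) ℂ)) (fun p' => by
      obtain ⟨P, hP⟩ := Ph_surj (β := β) hiB hl1 hl p'
      refine ⟨P, fun k z => ?_⟩
      rw [← hP, Ph_map]
      simp only [eval_X]) h
  refine h1.mono fun P hP => ?_
  have h2 : (fun k z => eval (fun x => P x.1 x.2) (Ph β i B l (fun k z => (X (k, z) :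
      MvPolynomial ((κ ⊕ (Fin l ⊕ Fin 3)) × (ν × Fin (d + 1))) ℂ)) k z)) = Ph β i B l P := by
    funext k z
    rw [Ph_map]
    simp only [eval_X]
  rw [h2] at hP
  exact hP

end gen

/-- CL1 for families. -/
theorem cl1_fam {D : ℕ} (hD : D ≤ d) (hE : 1 ≤ E) (hL : 1 ≤ L.length) (hl : L.length + 1 ≤ d)
    (hiL : ∀ A' ∈ L, i ∉ A') (hiB : i ∉ B) (hLB : ∀ A' ∈ L, A' ⊆ B) (hAB : A ⊆ B) (hi : i ∈ I)
    [Fintype κ] (m : κ → Kd) :
    HI d D β I ((univ : Finset (κ ⊕ Unit)).val.map
      (Sum.elim m fun _ => .cl (E + 1) dl i (L ++ [A]))) ≤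
    HI d D β I ((univ : Finset (κ ⊕ (Fin L.length ⊕ Unit))).val.map
      (Sum.elim m (Sum.elim (fun x : Fin L.length => Kd.ord (E + 1) (L.getD x ∅))
        fun _ : Unit => Kd.ord E (insert i A)))) +
    ∑ s ∈ range (D + 1 - E), HI d s β (I ∩ insert i A)
      ((univ : Finset (κ ⊕ Fin 3)).val.map (Sum.elim m (n3 E dl i L A B))) := by
  classical
  let emb : κ ⊕ (Fin L.length ⊕ Unit) → κ ⊕ (Fin L.length ⊕ Fin 3) :=
    Sum.map id (Sum.map id fun _ => 1)
  have hemb : Function.Injective emb := by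
    rintro (x | x | x) (y | y | y) h
    · exact congrArg Sum.inl (Sum.inl.inj h)
    · exact absurd h (by simp [emb])
    · exact absurd h (by simp [emb])
    · exact absurd h (by simp [emb])
    · exact congrArg (fun x => Sum.inr (Sum.inl x)) (Sum.inl.inj (Sum.inr.inj h))
    · exact absurd h (by simp [emb])
    · exact absurd h (by simp [emb])
    · exact absurd h (by simp [emb])
    · rfl
  have g1 := (gn_XX (d := d) hD β I (Sum.elim m (Sum.elim
    (fun x : Fin L.length => Kd.ord (E + 1) (L.getD x ∅)) fun _ : Unit =>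
      Kd.ord E (insert i A)))).comap emb hemb
  have g2 := Gn.all (range (D + 1 - E)) (P := fun s (P : κ ⊕ (Fin L.length ⊕ Fin 3) →
      ν × Fin (d + 1) → ℂ) => Module.finrank ℂ (XX β s (I ∩ insert i A)
        (Sum.elim m (n3 E dl i L A B)) (Ph β i B L.length P)) =
          HI d s β (I ∩ insert i A) ((univ : Finset (κ ⊕ Fin 3)).val.map
            (Sum.elim m (n3 E dl i L A B)))) fun s hs =>
    gn_Ph hiB hL (by omega) (gn_XX (d := d) (by rw [mem_range] at hs; omega) β
      (I ∩ insert i A) (Sum.elim m (n3 E dl i L A B)))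
  obtain ⟨P, hP1, hP2⟩ := (g1.and g2).exists
  set a := ga L.length P with ha
  set b := P (Sum.inr (Sum.inr 0)) with hb
  set c := P (Sum.inr (Sum.inr 2)) with hc
  set y := P (Sum.inr (Sum.inr 1)) with hy
  set p : κ → ν × Fin (d + 1) → ℂ := fun x => P (Sum.inl x) with hp
  set yv := opt β (insert i A) y with hyv
  set zv := zh β i B L.length a fun s => b (s, 0) with hzv
  -- the points as a subspace
  have hav : ∀ x : Fin L.length, opt β (L.getD x ∅) (P (Sum.inr (Sum.inl x))) = avl β L a x := by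
    intro x
    funext s
    show (if β s ∈ L.getD x ∅ then 0 else P (Sum.inr (Sum.inl x)) (s, 0)) =
      if β s ∈ L.getD x ∅ then 0 else ga L.length P x s
    unfold ga
    rw [dif_pos x.2]
  rw [← hP1, ← sum_congr rfl fun s hs => hP2 s hs]
  -- the limit
  let U : Submodule ℂ (Dl ν) := XX β D I m p ⊓ ((⨅ x ∈ range L.length,
    LinearMap.ker (ct (lf (avl β L a x) ^ (E + 1)))) ⊓
    (if h : E ≤ D then (Xp β (I ∩ insert i A) m p i E dl L a yv zv (zz β i c) (D - E)).comap
      (ct (lf yv ^ E)) else ⊤))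
  have hUfin : Module.Finite ℂ U := by
    have := finite_XX β D I m p
    exact Submodule.finiteDimensional_of_le inf_le_left
  have hlim := lim_Dl hD β I (Sum.elim m fun _ : Unit => Kd.cl (E + 1) dl i (L ++ [A]))
    (Sum.elim (fun x z => Polynomial.C (p x z)) fun _ : Unit =>
      pq β i B L.length a (fun s => b (s, 0)) (fun s => y (s, 0)) c) U hUfin (by
    intro φ hφ hsat
    have hm : ∀ x, Sat β I (m x) (fun z => Polynomial.C (p x z)) (Fn φ) := fun x => hsat (Sum.inl x)
    have hcl := hsat (Sum.inr ())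
    change Sat β I (.cl (E + 1) dl i (L ++ [A]))
      (pq β i B L.length a (fun s => b (s, 0)) (fun s => y (s, 0)) c) (Fn φ) at hcl
    refine ⟨?_, ?_, ?_⟩
    · rw [SetLike.mem_coe, mem_XX]
      exact ⟨ev0_Lv hφ, fun x => sat_ev0 (hm x)⟩
    · rw [SetLike.mem_coe, Submodule.mem_iInf]
      intro x
      rw [Submodule.mem_iInf, mem_range]
      intro hx
      refine LinearMap.ext fun g => ?_
      rw [ct_apply, ev0_C, map_mul (MvPolynomial.map Polynomial.C),
        map_pow (MvPolynomial.map Polynomial.C), tie_mem hl hcl hx, Polynomial.eval_zero]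
      rfl
    · split_ifs with h
      · exact lim_Xp hE hL hl hiB hAB hi (by omega) hφ hm hcl
      · exact trivial)
  refine hlim.trans ?_
  have hK := finite_XX β D I (Sum.elim m (Sum.elim
    (fun x : Fin L.length => Kd.ord (E + 1) (L.getD x ∅)) fun _ : Unit =>
      Kd.ord E (insert i A))) (fun x => P (emb x))
  have hker : ∀ G ∈ U, ct (lf yv ^ E) G = 0 → G ∈ XX β D I (Sum.elim m (Sum.elim
      (fun x : Fin L.length => Kd.ord (E + 1) (L.getD x ∅)) fun _ : Unit =>
        Kd.ord E (insert i A))) (fun x => P (emb x)) := by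
    rintro G ⟨hG1, hG2, -⟩ hG3
    rw [SetLike.mem_coe, mem_XX] at hG1
    rw [mem_XX]
    refine ⟨hG1.1, ?_⟩
    rintro (x | x | x)
    · exact hG1.2 x
    · show Sat β I (.ord (E + 1) (L.getD x ∅)) (P (Sum.inr (Sum.inl x))) G
      rw [sat_ord, hav]
      rw [SetLike.mem_coe, Submodule.mem_iInf] at hG2
      have h1 := hG2 x.1
      rw [Submodule.mem_iInf] at h1
      exact h1 (mem_range.2 x.2)
    · show Sat β I (.ord E (insert i A)) y G
      rw [sat_ord]
      exact hG3
  by_cases h : E ≤ D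
  · have h1 := finrank_le_ker_add hUfin hK
      (finite_Xp (β := β) (I' := I ∩ insert i A) (m := m) (p := p) (i := i) (E := E) (dl := dl)
        (L := L) (a := a) (yv := yv) (zv := zv) (ζ := zz β i c) (D - E)) (ct (lf yv ^ E)) hker (by
      rintro G ⟨-, -, hG⟩
      rw [SetLike.mem_coe, dif_pos h] at hG
      exact hG)
    refine h1.trans (Nat.add_le_add_left ?_ _)
    have h2 : D + 1 - E = D - E + 1 := by omega
    rw [h2]
    refine finrank_Xp (fun s hs => sum_zero hiL hiB a _ s hs) (fun s =>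
      XX β s (I ∩ insert i A) (Sum.elim m (n3 E dl i L A B)) (Ph β i B L.length P))
      (fun s => finite_XX _ _ _ _ _) (fun s G hG h0 => ?_) (D - E)
    exact ker_Xp hL hiL hiB hLB (by omega) hG h0
  · refine le_trans (Submodule.finrank_mono fun G hG => ?_) (Nat.le_add_right _ _)
    refine hker G hG ?_
    exact Lv_ct_lt (by omega) (mem_XX.1 hG.1).1

theorem map_getD (L : List (Finset ℕ)) (f : Finset ℕ → Kd) :
    (univ : Finset (Fin L.length)).val.map (fun x : Fin L.length => f (L.getD x.1 ∅)) =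
      ((L.map f : List Kd) : Multiset Kd) := by
  rw [Fin.univ_val_map]
  congr 1
  have h1 : (fun x : Fin L.length => f (L.getD x ∅)) = f ∘ fun x : Fin L.length => L[x.1] := by
    funext x
    show f (L.getD x.1 ∅) = f L[x.1]
    rw [List.getD_eq_getElem _ _ x.2]
  rw [h1, ← List.map_ofFn, List.ofFn_getElem]

theorem map_n3 (E dl i : ℕ) (L : List (Finset ℕ)) (A B : Finset ℕ) :
    (univ : Finset (Fin 3)).val.map (n3 E dl i L A B) =
      .cl (E + 1) dl i L ::ₘ .ord 1 (insert i A) ::ₘ {.ord 1 B} := by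
  rw [Fin.univ_val_map]
  rfl

/-- **CL1**: adding a cluster of at least two members. -/
theorem cl1 {D : ℕ} (hD : D ≤ d) (hE : 1 ≤ E) (hL : 1 ≤ L.length) (hl : L.length + 1 ≤ d)
    (hiL : ∀ A' ∈ L, i ∉ A') (hiB : i ∉ B) (hLB : ∀ A' ∈ L, A' ⊆ B) (hAB : A ⊆ B) (hi : i ∈ I)
    (ms : Multiset Kd) :
    HI d D β I (.cl (E + 1) dl i (L ++ [A]) ::ₘ ms) ≤
      HI d D β I (.ord E (insert i A) ::ₘ (((L.map (Kd.ord (E + 1)) : List Kd) : Multiset Kd) + ms)) +
      ∑ s ∈ range (D + 1 - E), HI d s β (I ∩ insert i A)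
        (.cl (E + 1) dl i L ::ₘ .ord 1 (insert i A) ::ₘ .ord 1 B ::ₘ ms) := by
  obtain ⟨m, hm, -⟩ := exists_conf (LS d D β I) ms
  have h := cl1_fam (β := β) (dl := dl) hD hE hL hl hiL hiB hLB hAB hi m
  rw [map_elim, map_elim, map_elim, map_getD, map_unit, map_unit, hm] at h
  have h1 : ms + ({Kd.cl (E + 1) dl i (L ++ [A])} : Multiset Kd) =
      .cl (E + 1) dl i (L ++ [A]) ::ₘ ms := by
    rw [add_comm, Multiset.singleton_add]
  have h2 : ms + (((L.map (Kd.ord (E + 1)) : List Kd) : Multiset Kd) +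
      ({Kd.ord E (insert i A)} : Multiset Kd)) =
      .ord E (insert i A) ::ₘ (((L.map (Kd.ord (E + 1)) : List Kd) : Multiset Kd) + ms) := by
    rw [← Multiset.singleton_add]
    abel
  rw [h1, h2] at h
  refine h.trans (le_of_eq ?_)
  congr 1
  refine sum_congr rfl fun s _ => ?_
  rw [map_elim, map_n3, hm]
  congr 1
  rw [← Multiset.singleton_add, ← Multiset.singleton_add, ← Multiset.singleton_add,
    ← Multiset.singleton_add, ← Multiset.singleton_add]
  abel

end

end Pool.Agent.GD.AL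

end

section

/-!
# General d, ALPHA: adding a cluster of one member (CL1, single-point clusters)

`cl1a`: `HI (S + cl e dl i [A]) ≤ HI (S + (T, e - 1)) + ∑_(κ < dl) HI_(D' - κ) (S + y + z) +
HI_(D' - dl) (S + y)`, `D' = D - e + 1`, if no additional condition of a cluster of `S` created at the level
`i` occurs in degree `< D'`.
-/

set_option autoImplicit false
set_option linter.unusedSectionVars false

namespace Pool.Agent.GD.AL

open Finset MvPolynomial Pool.Agent.H51.TB Pool.Agent.V7.ST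
open Pool.Agent.V7 (msk)

section

variable {ν : Type} [Fintype ν] [DecidableEq ν] {d : ℕ} {β : ν → ℕ}

/-- The additional conditions of a cluster hold automatically in low degrees. -/
theorem auto_Sb {I' : Finset ℕ} {s e dl i : ℕ} {As : List (Finset ℕ)}
    {q : ν × Fin (d + 1) → ℂ} {G : Dl ν} (hG : G ∈ Lv β s I')
    (h : 1 ≤ dl → s ≤ As.length * (e - 1) + ((I'.erase i) ∩ inter As).card) :
    Sb β I' (.cl e dl i As) q G := by
  intro _ κ h1 h2 b hb
  set P := As.length * (e - 1) with hP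
  by_cases h3 : ∃ i' ∈ (I'.erase i) ∩ inter As, ∀ x, β x = i' → b x = 0
  · obtain ⟨i', hi', hb'⟩ := h3
    rw [Finset.mem_inter, mem_erase] at hi'
    have hu : ∀ x, β x = i' → uu β (.cl e dl i As) q x = 0 := by
      intro x hx
      rw [uu_cl]
      refine sum_eq_zero fun y _ => ?_
      split_ifs with h4
      · have h5 : β x ∈ As.getD y ∅ := by
          rw [hx]
          rcases As with _ | ⟨A, As⟩
          · exact absurd h4 (by simp)
          · exact (Pool.Agent.GD.mem_inter (by simp)).1 hi'.2 _ (getD_mem h4)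
        exact if_pos h5
      · rfl
    have hz : ∀ x, β x = i' → zz β i q x = 0 := by
      intro x hx
      exact if_neg fun h => hi'.1.1 (hx.symm.trans h)
    have h5 := kill_pow hu (G.comp (LinearMap.mulLeft ℂ (lf (zz β i q) ^ κ))) (fun b hb => by
      refine kill_pow hz G (fun b hb => ?_) κ b hb
      refine hG b fun h => ?_
      obtain ⟨t, ht1, ht2⟩ := (mem_Ex.1 h).2 i' hi'.1.2
      exact ht2 (hb t ht1)) P b hb'
    have h6 : (G.comp (LinearMap.mulLeft ℂ (lf (zz β i q) ^ κ)))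
        (lf (uu β (.cl e dl i As) q) ^ P * mon ℂ b) =
        G (lf (uu β (.cl e dl i As) q) ^ P * (lf (zz β i q) ^ κ * mon ℂ b)) := by
      show G (lf (zz β i q) ^ κ * (lf (uu β (.cl e dl i As) q) ^ P * mon ℂ b)) = _
      congr 1
      ring
    rw [← h6]
    exact h5
  · push Not at h3
    have h4 : ((I'.erase i) ∩ inter As).card ≤ ∑ x, b x := by
      have h5 : ∀ i' ∈ (I'.erase i) ∩ inter As, 1 ≤ ∑ x ∈ univ.filter (fun x => β x = i'), b x := by
        intro i' hi'
        obtain ⟨t, ht1, ht2⟩ := h3 i' hi'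
        have h6 : b t ≤ ∑ x ∈ univ.filter (fun x => β x = i'), b x :=
          single_le_sum (f := b) (fun _ _ => Nat.zero_le _) (mem_filter.2 ⟨mem_univ _, ht1⟩)
        omega
      calc ((I'.erase i) ∩ inter As).card = ∑ i' ∈ (I'.erase i) ∩ inter As, 1 := by
            rw [sum_const, smul_eq_mul, mul_one]
        _ ≤ ∑ i' ∈ (I'.erase i) ∩ inter As, ∑ x ∈ univ.filter (fun x => β x = i'), b x :=
            sum_le_sum h5
        _ = ∑ x ∈ univ.filter (fun x => β x ∈ (I'.erase i) ∩ inter As), b x := by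
            rw [sum_fiberwise_eq_sum_filter univ ((I'.erase i) ∩ inter As) β b]
        _ ≤ ∑ x, b x := sum_le_sum_of_subset (filter_subset _ _)
    have h5 := h (h1.trans h2)
    -- the degree
    have h6 : ∀ (w : MvPolynomial ν ℂ), G (w * mon ℂ b) = ct w G (mon ℂ b) := fun _ => rfl
    by_cases h7 : P + κ ≤ s
    · have h8 : G ∈ Lv β (s - P - κ + κ + P) I' := by
        rw [show s - P - κ + κ + P = s by omega]
        exact hG
      have h9 : ct (lf (zz β i q) ^ κ) (ct (lf (uu β (.cl e dl i As) q) ^ P) G) ∈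
          Lv β (s - P - κ) (I' ∩ ∅ ∩ ∅) :=
        Lv_ct_pow (fun x hx => absurd hx (notMem_empty (β x)))
          (Lv_ct_pow (fun x hx => absurd hx (notMem_empty (β x))) h8)
      refine h9 b fun h10 => ?_
      have h11 := (mem_Ex.1 h10).1
      omega
    · have h8 : ct (lf (zz β i q) ^ κ) (ct (lf (uu β (.cl e dl i As) q) ^ P) G) = 0 := by
        by_cases h9 : P ≤ s
        · have h10 : G ∈ Lv β (s - P + P) I' := by
            rw [Nat.sub_add_cancel h9]
            exact hG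
          have h11 : ct (lf (uu β (.cl e dl i As) q) ^ P) G ∈ Lv β (s - P) (I' ∩ ∅) :=
            Lv_ct_pow (fun x hx => absurd hx (notMem_empty (β x))) h10
          exact Lv_ct_lt (by omega) h11
        · rw [Lv_ct_lt (k := P) (by omega) hG, map_zero]
      exact LinearMap.congr_fun h8 (mon ℂ b)

variable {i E : ℕ} {B A : Finset ℕ} {κ : Type} {m : κ → Kd} {p : κ → ν × Fin (d + 1) → ℂ}
  {I' : Finset ℕ}

/-- The functionals which kill `z^κ` times the monomials off the block `i`, `1 ≤ κ ≤ n`. -/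
noncomputable def Zp (β : ν → ℕ) (i : ℕ) (zv : ν → ℂ) (n : ℕ) : Submodule ℂ (Dl ν) where
  carrier := {G | ∀ κ : ℕ, 1 ≤ κ → κ ≤ n → ∀ b : ν → ℕ, (∀ s, β s = i → b s = 0) →
    G (lf zv ^ κ * mon ℂ b) = 0}
  zero_mem' := fun _ _ _ _ _ => rfl
  add_mem' := fun {F G} h h' κ h1 h2 b hb => by
    rw [LinearMap.add_apply, h κ h1 h2 b hb, h' κ h1 h2 b hb, add_zero]
  smul_mem' := fun c G h κ h1 h2 b hb => by
    rw [LinearMap.smul_apply, h κ h1 h2 b hb, smul_zero]

theorem zp_ct {zv yv : ν → ℂ} (hz : ∀ s, β s ∈ B → zv s = 0) (hIB : ∀ i' ∈ I', i' ≠ i → i' ∈ B)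
    {s n : ℕ}
    (hH : ∀ x, ∀ e' dl' As, m x = .cl e' dl' i As → 1 ≤ dl' →
      s ≤ As.length * (e' - 1) + ((I'.erase i) ∩ inter As).card) {G : Dl ν}
    (h : G ∈ XX β (s + 1) I' m p ⊓ (LinearMap.ker (ct (lf yv)) ⊓ Zp β i zv (n + 1))) :
    ct (lf zv) G ∈ XX β s I' m p ⊓ (LinearMap.ker (ct (lf yv)) ⊓ Zp β i zv n) := by
  obtain ⟨h1, h2, h3⟩ := h
  rw [SetLike.mem_coe, mem_XX] at h1
  have h4 := Lv_ct hz h1.1
  have h5 : ct (lf zv) G ∈ Lv β s I' := by
    intro b hb
    by_cases h6 : b ∈ Ex β s (I' ∩ B)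
    · have h7 : ∀ t, β t = i → b t = 0 := by
        by_contra h8
        push Not at h8
        obtain ⟨t, ht1, ht2⟩ := h8
        apply hb
        rw [mem_Ex] at h6 ⊢
        refine ⟨h6.1, fun i' hi' => ?_⟩
        by_cases h9 : i' = i
        · exact ⟨t, h9 ▸ ht1, ht2⟩
        · exact h6.2 i' (Finset.mem_inter.2 ⟨hi', hIB i' hi' h9⟩)
      have h8 := h3 1 le_rfl (by omega) b h7
      rw [pow_one] at h8
      exact h8
    · exact h4 b h6
  refine ⟨?_, ?_, ?_⟩
  · rw [SetLike.mem_coe, mem_XX]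
    refine ⟨h5, fun x => ?_⟩
    have h6 := Sat_ct hz (h1.2 x)
    refine ⟨h6.1, ?_⟩
    have h7 := h6.2
    have h8 := hH x
    generalize m x = k at h7 h8
    cases k with
    | ord e' A' => trivial
    | cl e' dl' i' As =>
      by_cases h9 : i' = i
      · subst h9
        exact auto_Sb h5 (h8 e' dl' As rfl)
      · intro hi'
        exact h7 (Finset.mem_inter.2 ⟨hi', hIB i' hi' h9⟩)
  · show ct (lf yv) (ct (lf zv) G) = 0
    rw [ct_comm, show ct (lf yv) G = 0 from h2, map_zero]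
  · intro κ' h6 h7 b hb
    have h8 := h3 (κ' + 1) (by omega) (by omega) b hb
    rw [pow_succ', mul_assoc] at h8
    exact h8

/-- The recursion. -/
theorem finrank_zp {zv yv : ν → ℂ} (hz : ∀ s, β s ∈ B → zv s = 0)
    (hIB : ∀ i' ∈ I', i' ≠ i → i' ∈ B) (K : ℕ → Submodule ℂ (Dl ν))
    (hfin : ∀ s, Module.Finite ℂ (K s))
    (hK : ∀ s, ∀ G ∈ XX β s I' m p, ct (lf yv) G = 0 → ct (lf zv) G = 0 → G ∈ K s) (n s : ℕ)
    (hH : 1 ≤ n → ∀ x, ∀ e' dl' As, m x = .cl e' dl' i As → 1 ≤ dl' →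
      s ≤ As.length * (e' - 1) + 1 + ((I'.erase i) ∩ inter As).card) :
    Module.finrank ℂ (XX β s I' m p ⊓ (LinearMap.ker (ct (lf yv)) ⊓ Zp β i zv n) :
      Submodule ℂ (Dl ν)) ≤
      ∑ j ∈ (range n).filter (fun j => j ≤ s), Module.finrank ℂ (K (s - j)) +
        if n ≤ s then Module.finrank ℂ (XX β (s - n) I' m p ⊓ LinearMap.ker (ct (lf yv)) :
          Submodule ℂ (Dl ν)) else 0 := by
  have hfX : ∀ s (W : Submodule ℂ (Dl ν)), Module.Finite ℂ (XX β s I' m p ⊓ W :
      Submodule ℂ (Dl ν)) := by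
    intro s W
    have := finite_XX β s I' m p
    exact Submodule.finiteDimensional_of_le inf_le_left
  induction n generalizing s with
  | zero =>
    rw [range_zero, filter_empty, sum_empty, zero_add, if_pos (Nat.zero_le _), Nat.sub_zero]
    have := hfX s (LinearMap.ker (ct (lf yv)))
    refine Submodule.finrank_mono fun G hG => ⟨hG.1, hG.2.1⟩
  | succ n ih =>
    rcases Nat.eq_zero_or_pos s with rfl | hs
    · rw [if_neg (by omega), add_zero]
      have h1 : (range (n + 1)).filter (fun j => j ≤ 0) = {0} := by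
        ext j
        rw [mem_filter, mem_range, mem_singleton]
        omega
      rw [h1, sum_singleton]
      have := hfin 0
      refine Submodule.finrank_mono fun G hG => ?_
      exact hK 0 G hG.1 hG.2.1 (Lv_zero_ct zv (mem_XX.1 hG.1).1)
    · obtain ⟨s', rfl⟩ : ∃ s', s = s' + 1 := ⟨s - 1, by omega⟩
      have h1 := finrank_le_ker_add (hfX (s' + 1) (LinearMap.ker (ct (lf yv)) ⊓ Zp β i zv (n + 1)))
        (hfin (s' + 1)) (hfX s' (LinearMap.ker (ct (lf yv)) ⊓ Zp β i zv n)) (ct (lf zv))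
        (fun G hG h0 => hK (s' + 1) G hG.1 hG.2.1 h0) fun G hG => zp_ct hz hIB (fun x e' dl' As h2 h3 => by
          have h4 := hH (by omega) x e' dl' As h2 h3
          omega) hG
      refine h1.trans ?_
      have h2 := ih s' (fun _ x e' dl' As h2 h3 => by
        have h4 := hH (by omega) x e' dl' As h2 h3
        omega)
      have h3 : ∑ j ∈ (range (n + 1)).filter (fun j => j ≤ s' + 1),
          Module.finrank ℂ (K (s' + 1 - j)) = Module.finrank ℂ (K (s' + 1)) +
            ∑ j ∈ (range n).filter (fun j => j ≤ s'), Module.finrank ℂ (K (s' - j)) := by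
        rw [sum_filter, sum_filter, sum_range_succ', Nat.sub_zero, if_pos (Nat.zero_le _), add_comm]
        congr 1
        refine sum_congr rfl fun j _ => ?_
        by_cases h4 : j ≤ s'
        · rw [if_pos h4, if_pos (by omega), Nat.add_sub_add_right]
        · rw [if_neg h4, if_neg (by omega)]
      rw [h3, add_assoc]
      refine Nat.add_le_add_left (h2.trans (Nat.add_le_add_left (le_of_eq ?_) _)) _
      by_cases h4 : n ≤ s'
      · rw [if_pos h4, if_pos (by omega), Nat.add_sub_add_right]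
      · rw [if_neg h4, if_neg (by omega)]

/-- A direction with a part off the block `i`. -/
theorem zp_of {G : Dl ν} {zv ζ : ν → ℂ} (hζ : ∀ s, β s = i → ζ s = zv s)
    (hG : ∀ b : ν → ℕ, (∀ s, β s = i → b s = 0) → G (mon ℂ b) = 0) {n : ℕ}
    (h : G ∈ Zp β i ζ n) : G ∈ Zp β i zv n := by
  intro κ' h1 h2 b hb
  have e1 : lf zv = lf (zv - ζ) + lf ζ := by
    rw [← lf_add, sub_add_cancel]
  have e2 : lf zv ^ κ' * mon ℂ b = ∑ j ∈ range (κ' + 1), (κ'.choose j : ℂ) •
      (lf ζ ^ (κ' - j) * (lf (zv - ζ) ^ j * mon ℂ b)) := by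
    rw [e1, add_pow, sum_mul]
    refine sum_congr rfl fun j _ => ?_
    rw [smul_eq_C_mul, ← map_natCast (C : ℂ →+* MvPolynomial ν ℂ)]
    ring
  rw [e2, map_sum]
  refine sum_eq_zero fun j hj => ?_
  rw [mem_range] at hj
  rw [map_smul]
  have h3 : G (lf ζ ^ (κ' - j) * (lf (zv - ζ) ^ j * mon ℂ b)) = 0 := by
    refine kill_pow (β := β) (i := i) (q := zv - ζ) (fun s hs => by
      rw [Pi.sub_apply, hζ s hs, sub_self]) (G.comp (LinearMap.mulLeft ℂ (lf ζ ^ (κ' - j))))
      (fun b hb => ?_) j b hb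
    show G (lf ζ ^ (κ' - j) * mon ℂ b) = 0
    rcases Nat.eq_zero_or_pos (κ' - j) with h4 | h4
    · rw [h4, pow_zero, one_mul]
      exact hG b hb
    · exact h (κ' - j) h4 (by omega) b hb
  rw [h3, smul_zero]

/-- The position of a single-point cluster. -/
def ps (y b : ν × Fin (d + 1) → ℂ) (z : ν × Fin (d + 1)) : ℂ :=
  if z.2 = Fin.last d then b (z.1, 0) else y z

theorem pt_ps (hd : 1 ≤ d) {e dl : ℕ} (y b : ν × Fin (d + 1) → ℂ) :
    pt β (.cl e dl i [A]) 0 (ps y b) = opt β (insert i A) y := by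
  funext s
  show (if β s ∈ A then (0 : ℂ) else if β s = i ∧ 0 + 1 = 1 then
    - ∑ y' : Fin (d + 1), (if y'.1 + 1 < 1 then ps y b (s, y') else 0) else ps y b (s, 0)) =
    if β s ∈ insert i A then 0 else y (s, 0)
  by_cases h1 : β s ∈ A
  · rw [if_pos h1, if_pos (mem_insert_of_mem h1)]
  · rw [if_neg h1]
    by_cases h2 : β s = i
    · rw [if_pos ⟨h2, rfl⟩, if_pos (mem_insert.2 (Or.inl h2)), sum_eq_zero, neg_zero]
      intro y' _
      rw [if_neg (by omega)]
    · rw [if_neg fun h => h2 h.1, if_neg (show ¬ β s ∈ insert i A by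
        rw [mem_insert]
        exact fun h => h.elim h2 h1)]
      have h3 : (0 : Fin (d + 1)) ≠ Fin.last d := by
        intro h
        have h4 := congrArg Fin.val h
        rw [Fin.val_zero, Fin.val_last] at h4
        omega
      exact if_neg h3

theorem uu_ps (hd : 1 ≤ d) {e dl : ℕ} (y b : ν × Fin (d + 1) → ℂ) :
    uu β (.cl e dl i [A]) (ps y b) = opt β (insert i A) y := by
  funext s
  rw [uu_cl, sum_eq_single (0 : Fin (d + 1)), if_pos (by
    show (0 : Fin (d + 1)).1 < 1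
    rw [Fin.val_zero]
    exact Nat.zero_lt_one), pt_ps hd]
  · intro x _ hx
    rw [if_neg]
    intro h
    apply hx
    apply Fin.ext
    rw [Fin.val_zero]
    have h1 : x.1 < 1 := h
    omega
  · intro h
    exact absurd (mem_univ _) h

/-- CL1 for single-point clusters, for families. -/
theorem cl1a_fam {D dl : ℕ} (hD : D ≤ d) (hd : 1 ≤ d) {I : Finset ℕ} (hED : E ≤ D)
    (hiB : i ∉ B) (hAB : A ⊆ B) (hi : i ∈ I) [Fintype κ] (m : κ → Kd)
    (hH : 1 ≤ dl → ∀ x, ∀ e' dl' As, m x = .cl e' dl' i As → 1 ≤ dl' →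
      D - E ≤ As.length * (e' - 1) + 1 + (((I ∩ insert i A).erase i) ∩ inter As).card) :
    HI d D β I ((univ : Finset (κ ⊕ Unit)).val.map
      (Sum.elim m fun _ => .cl (E + 1) dl i [A])) ≤
    HI d D β I ((univ : Finset (κ ⊕ Unit)).val.map (Sum.elim m fun _ => .ord E (insert i A))) +
    (∑ j ∈ (range dl).filter (fun j => j ≤ D - E), HI d (D - E - j) β (I ∩ insert i A)
      ((univ : Finset (κ ⊕ (Unit ⊕ Unit))).val.map (Sum.elim m (Sum.elim
        (fun _ => .ord 1 (insert i A)) fun _ => .ord 1 B))) +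
      if dl ≤ D - E then HI d (D - E - dl) β (I ∩ insert i A)
        ((univ : Finset (κ ⊕ Unit)).val.map (Sum.elim m fun _ => .ord 1 (insert i A))) else 0) := by
  classical
  have hinj : Function.Injective (Sum.map id Sum.inl : κ ⊕ Unit → κ ⊕ (Unit ⊕ Unit)) :=
    Sum.map_injective.2 ⟨Function.injective_id, Sum.inl_injective⟩
  have g1 := (gn_XX (d := d) hD β I (Sum.elim m fun _ : Unit => Kd.ord E (insert i A))).comap
    _ hinj
  have g3 := Gn.all (range (D + 1)) (P := fun s (P : κ ⊕ (Unit ⊕ Unit) → ν × Fin (d + 1) → ℂ) =>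
    Module.finrank ℂ (XX β s (I ∩ insert i A) (Sum.elim m fun _ : Unit => Kd.ord 1 (insert i A))
      fun x => P (Sum.map id Sum.inl x)) = HI d s β (I ∩ insert i A)
        ((univ : Finset (κ ⊕ Unit)).val.map (Sum.elim m fun _ => .ord 1 (insert i A))))
    fun s hs => (gn_XX (d := d) (by rw [mem_range] at hs; omega) β (I ∩ insert i A)
      (Sum.elim m fun _ : Unit => Kd.ord 1 (insert i A))).comap _ hinj
  have g2 := Gn.all (range (D + 1)) (P := fun s (P : κ ⊕ (Unit ⊕ Unit) → ν × Fin (d + 1) → ℂ) =>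
    Module.finrank ℂ (XX β s (I ∩ insert i A) (Sum.elim m (Sum.elim
      (fun _ : Unit => Kd.ord 1 (insert i A)) fun _ : Unit => Kd.ord 1 B)) P) =
      HI d s β (I ∩ insert i A) ((univ : Finset (κ ⊕ (Unit ⊕ Unit))).val.map (Sum.elim m
        (Sum.elim (fun _ => .ord 1 (insert i A)) fun _ => .ord 1 B))))
    fun s hs => gn_XX (d := d) (by rw [mem_range] at hs; omega) β (I ∩ insert i A) _
  obtain ⟨P, ⟨hP1, hP2⟩, hP3⟩ := ((g1.and g2).and g3).exists
  set p : κ → ν × Fin (d + 1) → ℂ := fun x => P (Sum.inl x) with hp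
  set y := P (Sum.inr (Sum.inl ())) with hy
  set b := P (Sum.inr (Sum.inr ())) with hb
  set yv := opt β (insert i A) y with hyv
  set zv := opt β B b with hzv
  have hzB : ∀ s, β s ∈ B → zv s = 0 := fun s hs => opt_zero hs
  have hyA : ∀ s, β s ∈ insert i A → yv s = 0 := fun s hs => opt_zero hs
  have hIB : ∀ i' ∈ I ∩ insert i A, i' ≠ i → i' ∈ B := fun i' hi' h =>
    hAB ((mem_insert.1 (Finset.mem_inter.1 hi').2).resolve_left h)
  have hζ : ∀ s, β s = i → zz β i (ps y b) s = zv s := by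
    intro s hs
    show (if β s = i then ps y b (s, Fin.last d) else 0) = if β s ∈ B then 0 else b (s, 0)
    rw [if_pos hs, if_neg (show ¬ β s ∈ B by rwa [hs])]
    exact if_pos rfl
  rw [← hP1, ← sum_congr rfl fun j hj => hP2 (D - E - j) (mem_range.2 (by omega)),
    ← hP3 (D - E - dl) (mem_range.2 (by omega))]
  set U := XX β D I (Sum.elim m fun _ : Unit => Kd.cl (E + 1) dl i [A])
    (Sum.elim p fun _ : Unit => ps y b) with hU
  refine (HI_le hD β I (Sum.elim m fun _ : Unit => Kd.cl (E + 1) dl i [A])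
    (Sum.elim p fun _ : Unit => ps y b)).trans ?_
  have hfW : Module.Finite ℂ (XX β (D - E) (I ∩ insert i A) m p ⊓
      (LinearMap.ker (ct (lf yv)) ⊓ Zp β i zv dl) : Submodule ℂ (Dl ν)) := by
    have := finite_XX β (D - E) (I ∩ insert i A) m p
    exact Submodule.finiteDimensional_of_le inf_le_left
  have hcl : ∀ G ∈ U, Sat β I (.cl (E + 1) dl i [A]) (ps y b) G := fun G hG =>
    (mem_XX.1 hG).2 (Sum.inr ())
  have h1 := finrank_le_ker_add (finite_XX β D I (Sum.elim m fun _ : Unit =>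
      Kd.cl (E + 1) dl i [A]) (Sum.elim p fun _ : Unit => ps y b))
    (finite_XX β D I (Sum.elim m fun _ : Unit => Kd.ord E (insert i A))
      fun x => P (Sum.map id Sum.inl x)) hfW (ct (lf yv ^ E)) (by
    intro G hG h0
    rw [mem_XX]
    refine ⟨(mem_XX.1 hG).1, ?_⟩
    rintro (x | x)
    · exact (mem_XX.1 hG).2 (Sum.inl x)
    · show Sat β I (.ord E (insert i A)) y G
      rw [sat_ord]
      exact h0) (by
    intro G hG
    have hG1 := (mem_XX.1 hG).1
    have hGD : G ∈ Lv β (D - E + E) I := by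
      rw [Nat.sub_add_cancel hED]
      exact hG1
    have hL := Lv_ct_pow hyA hGD
    refine ⟨?_, ?_, ?_⟩
    · rw [SetLike.mem_coe, mem_XX]
      exact ⟨hL, fun x => Sat_ct_pow hyA ((mem_XX.1 hG).2 (Sum.inl x)) E⟩
    · show ct (lf yv) (ct (lf yv ^ E) G) = 0
      rw [← ct_mul, ← pow_succ']
      refine LinearMap.ext fun g => ?_
      have h2 := (hcl G hG).1 0 (by
        show (0 : Fin (d + 1)).1 < 1
        rw [Fin.val_zero]
        exact Nat.zero_lt_one) g
      rw [pt_ps hd] at h2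
      exact h2
    · refine zp_of hζ (fun b' hb' => hL b' fun h => ?_) (fun κ' h2 h3 b' hb' => ?_)
      · obtain ⟨t, ht1, ht2⟩ := (mem_Ex.1 h).2 i
          (Finset.mem_inter.2 ⟨hi, mem_insert_self i A⟩)
        exact ht2 (hb' t ht1)
      · have h4 := (hcl G hG).2 hi κ' h2 h3 b' hb'
        rw [uu_ps hd, List.length_singleton, one_mul, Nat.add_sub_cancel] at h4
        exact h4)
  refine h1.trans (Nat.add_le_add_left ?_ _)
  refine (finrank_zp hzB hIB (fun s => XX β s (I ∩ insert i A) (Sum.elim m (Sum.elim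
      (fun _ : Unit => Kd.ord 1 (insert i A)) fun _ : Unit => Kd.ord 1 B)) P)
    (fun s => finite_XX _ _ _ _ _) (fun s G hG h2 h3 => ?_) dl (D - E) hH).trans ?_
  · rw [mem_XX]
    refine ⟨(mem_XX.1 hG).1, ?_⟩
    rintro (x | x | x)
    · exact (mem_XX.1 hG).2 x
    · show Sat β _ (.ord 1 (insert i A)) y G
      rw [sat_ord, pow_one]
      exact h2
    · show Sat β _ (.ord 1 B) b G
      rw [sat_ord, pow_one]
      exact h3
  · refine Nat.add_le_add_left ?_ _
    split_ifs
    · have := finite_XX β (D - E - dl) (I ∩ insert i A) (Sum.elim m fun _ : Unit =>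
        Kd.ord 1 (insert i A)) fun x => P (Sum.map id Sum.inl x)
      refine Submodule.finrank_mono fun G hG => ?_
      rw [mem_XX]
      refine ⟨(mem_XX.1 hG.1).1, ?_⟩
      rintro (x | x)
      · exact (mem_XX.1 hG.1).2 x
      · show Sat β _ (.ord 1 (insert i A)) y G
        rw [sat_ord, pow_one]
        exact hG.2
    · exact le_rfl

/-- **CL1** for single-point clusters. -/
theorem cl1a {D dl : ℕ} (hD : D ≤ d) {I : Finset ℕ} (hE : 1 ≤ E) (hED : E ≤ D)
    (hiB : i ∉ B) (hAB : A ⊆ B) (hi : i ∈ I) (ms : Multiset Kd)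
    (hH : 1 ≤ dl → ∀ e' dl' As, .cl e' dl' i As ∈ ms → 1 ≤ dl' →
      D - E ≤ As.length * (e' - 1) + 1 + (((I ∩ insert i A).erase i) ∩ inter As).card) :
    HI d D β I (.cl (E + 1) dl i [A] ::ₘ ms) ≤
    HI d D β I (.ord E (insert i A) ::ₘ ms) +
    (∑ j ∈ (range dl).filter (fun j => j ≤ D - E), HI d (D - E - j) β (I ∩ insert i A)
      (.ord 1 (insert i A) ::ₘ .ord 1 B ::ₘ ms) +
      if dl ≤ D - E then HI d (D - E - dl) β (I ∩ insert i A) (.ord 1 (insert i A) ::ₘ ms)
        else 0) := by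
  obtain ⟨m, hm, -⟩ := exists_conf (LS d D β I) ms
  have h := cl1a_fam (β := β) (E := E) (dl := dl) (A := A) (B := B) hD (by omega) hED hiB hAB hi m
    (fun h0 x e' dl' As h1 h2 => hH h0 e' dl' As (by
      rw [← hm, ← h1]
      exact Multiset.mem_map_of_mem _ (mem_univ x)) h2)
  have h1 : ∀ k : Kd, (univ : Finset (Fin ms.toList.length ⊕ Unit)).val.map
      (Sum.elim m fun _ => k) = k ::ₘ ms := by
    intro k
    rw [map_elim, map_unit, hm, add_comm, Multiset.singleton_add]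
  have h2 : ∀ k k' : Kd, (univ : Finset (Fin ms.toList.length ⊕ (Unit ⊕ Unit))).val.map
      (Sum.elim m (Sum.elim (fun _ => k) fun _ => k')) = k ::ₘ k' ::ₘ ms := by
    intro k k'
    rw [map_elim, map_elim, map_unit, map_unit, hm, ← Multiset.singleton_add,
      ← Multiset.singleton_add]
    abel
  simp only [h1, h2] at h
  exact h

end

end Pool.Agent.GD.AL

end

section

/-!
# General d, ALPHA, part C: comparison
-/

set_option autoImplicit false

namespace Pool.Agent.GD.AL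

open Finset

section

variable {d J D e : ℕ} {σ : St} {I : Finset ℕ} {c0 : ℕ → ℕ} {n0 : ℕ} {η ϖ θ : ℝ}

/-! ### the family -/

theorem fam_self (ms : Multiset Kd) : Fam ms ms :=
  ⟨ms, 0, 0, by rw [add_zero], Multiset.zero_le _, by rw [add_zero]⟩

theorem fam_sub_le {ms R S : Multiset Kd} (h : Fam ms R) (hS : S ≤ R) : Fam ms S := by
  classical
  obtain ⟨U, C, O, h1, h2, rfl⟩ := h
  refine ⟨S ∩ U, C, S - U, ?_, ?_, ?_⟩
  · exact (add_le_add_left (Multiset.inter_le_right) C).trans h1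
  · exact (tsub_le_iff_left.2 hS).trans h2
  · rw [add_comm]
    exact (Multiset.sub_add_inter S U).symm

theorem fam_mmb {k : Kd} (h : AdmO d J k) : mmb k = {k} := by
  obtain ⟨x, A, rfl, -⟩ := h
  rfl

theorem fam_mb_ok {dl i : ℕ} {As : List (Finset ℕ)} (h : AdmC d J e (.cl e dl i As)) :
    ∀ k ∈ mb e As, AdmO d J k := by
  intro k hk
  obtain ⟨dl', i', As', h1, h2, h3, h4, h5, h6⟩ := h
  cases h1
  obtain ⟨A, hA, rfl⟩ := List.mem_map.1 (Multiset.mem_coe.1 hk)
  obtain ⟨h7, h8⟩ := h6 A hA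
  refine ⟨e, A, rfl, by omega, ?_, h7.trans (erase_subset _ _), ?_⟩
  · unfold trx at h4
    have h9 : e - 1 ≤ As.length * (e - 1) := Nat.le_mul_of_pos_left _ (by omega)
    omega
  · have h9 : range J \ A ⊆ insert i ((range J).erase i \ A) := by
      intro y hy
      rw [mem_sdiff] at hy
      rw [mem_insert, mem_sdiff, mem_erase]
      by_cases hyi : y = i
      · exact Or.inl hyi
      · exact Or.inr ⟨⟨hyi, hy.1⟩, hy.2⟩
    have h10 := (card_le_card h9).trans (card_insert_le _ _)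
    omega

theorem fam_mmb_ok {k : Kd} (h : AdmO d J k ∨ AdmC d J e k) : ∀ k' ∈ mmb k, AdmO d J k' := by
  intro k' hk'
  rcases h with h | h
  · rw [fam_mmb h, Multiset.mem_singleton] at hk'
    rw [hk']
    exact h
  · obtain ⟨dl, i, As, rfl, h2⟩ := h
    exact fam_mb_ok (e := e) (dl := dl) (i := i) ⟨dl, i, As, rfl, h2⟩ k' hk'

theorem fam_bind_ok {C : Multiset Kd} (h : ∀ k ∈ C, AdmO d J k ∨ AdmC d J e k) :
    ∀ k ∈ C.bind mmb, AdmO d J k := by
  intro k hk
  obtain ⟨k', hk', h1⟩ := Multiset.mem_bind.1 hk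
  exact fam_mmb_ok (h k' hk') k h1

theorem fam_ok {ms R : Multiset Kd} (hm : ∀ k ∈ ms, AdmO d J k ∨ AdmC d J e k)
    (h : Fam ms R) : ∀ k ∈ R, AdmO d J k ∨ AdmC d J e k := by
  obtain ⟨U, C, O, h1, h2, rfl⟩ := h
  intro k hk
  rcases Multiset.mem_add.1 hk with hk | hk
  · exact hm k (Multiset.mem_of_le h1 (Multiset.mem_add.2 (Or.inl hk)))
  · exact Or.inl (fam_bind_ok (fun k' hk' => hm k' (Multiset.mem_of_le h1
      (Multiset.mem_add.2 (Or.inr hk')))) k (Multiset.mem_of_le h2 hk))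

theorem fam_low_ok {k : Kd} (h : AdmO d J k ∨ AdmC d J e k) : k.Low (range J) := by
  rcases h with ⟨x, A, rfl, -, -, -, h1⟩ | ⟨dl, i, As, rfl, h2, h3, h4, h5, h6⟩
  · exact h1
  · refine ⟨h3, fun A hA => ⟨fun hi => ?_, ?_⟩⟩
    · exact absurd ((h6 A hA).1 hi) (notMem_erase i _)
    · have h9 : range J \ A ⊆ insert i ((range J).erase i \ A) := by
        intro y hy
        rw [mem_sdiff] at hy
        rw [mem_insert, mem_sdiff, mem_erase]
        by_cases hyi : y = i
        · exact Or.inl hyi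
        · exact Or.inr ⟨⟨hyi, hy.1⟩, hy.2⟩
      have h10 := (card_le_card h9).trans (card_insert_le _ _)
      have h11 := (h6 A hA).2
      omega

theorem fam_nz_nonneg (c0 : ℕ → ℕ) (n0 : ℕ) (I : Finset ℕ) (D : ℕ) : 0 ≤ nz c0 n0 I D := by
  unfold nz
  positivity

theorem fam_low0 {M : Multiset Kd} (hm : ∀ k ∈ M, AdmO d J k ∨ AdmC d J e k) {I' : Finset ℕ}
    (hI' : I' ⊆ range J) {D' : ℕ} (h : D' < I'.card) : (σ.wm M).V J I' D' = 0 :=
  vd_low (J := range J) (Nat.le_add_right _ _) M (fun k hk => fam_low_ok (hm k hk)) I' hI' D' h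

/-- The bounds in the degrees `< D'`. -/
private def HY (J : ℕ) (σ : St) (I : Finset ℕ) (D : ℕ) (c0 : ℕ → ℕ) (n0 : ℕ) (θ : ℝ) (D' : ℕ) :
    Prop :=
  ∀ M, Fam σ.ms M → ∀ I'' ⊆ I, ∀ D'' < D', I''.card ≤ D'' → D'' + (I \ I'').card ≤ D →
    0 ≤ ((σ.wm M).V J I'' D'' : ℝ) ∧
      ((σ.wm M).V J I'' D'' : ℝ) ≤ (1 + 3 * θ) * nz c0 n0 I'' D''

private theorem lemA (hI : I ⊆ range J) {D' : ℕ} (hH : HY J σ I D c0 n0 θ D')
    (hm : ∀ k ∈ σ.ms, AdmO d J k ∨ AdmC d J e k) {M : Multiset Kd} (hM : Fam σ.ms M) {k : Kd}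
    (hk : AdmO d J k) {I' : Finset ℕ} (hI' : I' ⊆ I) (h : D' + (I \ I').card ≤ D) :
    ((σ.wm (k ::ₘ M)).V J I' D' : ℝ) ≤ (σ.wm M).V J I' D' := by
  obtain ⟨x, A, rfl, h1, h2, h3, h4⟩ := hk
  have e1 : σ.wm (.ord x A ::ₘ M) = (σ.wm M).ad (.ord x A) := rfl
  rw [e1]
  by_cases hx : x ≤ D'
  · rw [St.V_ord A hx]
    push_cast
    have h5 : (0 : ℝ) ≤ ((σ.wm M).V J (I' ∩ A) (D' - x) : ℝ) := by
      by_cases h6 : (I' ∩ A).card ≤ D' - x
      · refine (hH M hM (I' ∩ A) (inter_subset_left.trans hI') (D' - x) (by omega) h6 ?_).1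
        have h7 : I \ (I' ∩ A) ⊆ (I \ I') ∪ (range J \ A) := by
          intro y hy
          rw [mem_sdiff] at hy
          rw [mem_union, mem_sdiff, mem_sdiff]
          by_cases h : y ∈ I'
          · exact Or.inr ⟨hI hy.1, fun hyA => hy.2 (Finset.mem_inter.2 ⟨h, hyA⟩)⟩
          · exact Or.inl ⟨hy.1, h⟩
        have h8 := (card_le_card h7).trans (card_union_le _ _)
        omega
      · rw [fam_low0 (fam_ok hm hM) (inter_subset_left.trans (hI'.trans hI)) (by omega)]
        norm_num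
    linarith
  · rw [St.V_ord_lt A (by omega)]

private theorem lemA' (hI : I ⊆ range J) {D' : ℕ} (hH : HY J σ I D c0 n0 θ D')
    (hm : ∀ k ∈ σ.ms, AdmO d J k ∨ AdmC d J e k) {M : Multiset Kd} {I' : Finset ℕ} (hI' : I' ⊆ I)
    (h : D' + (I \ I').card ≤ D) (O : Multiset Kd) (hO : ∀ k ∈ O, AdmO d J k)
    (hM : Fam σ.ms (O + M)) :
    ((σ.wm (O + M)).V J I' D' : ℝ) ≤ (σ.wm M).V J I' D' := by
  induction O using Multiset.induction_on with
  | empty => rw [zero_add]
  | cons k O ih =>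
    rw [Multiset.cons_add] at hM ⊢
    have h1 : Fam σ.ms (O + M) := fam_sub_le hM (Multiset.le_cons_self _ _)
    exact (lemA hI hH hm h1 (hO k (Multiset.mem_cons_self _ _)) hI' h).trans
      (ih (fun k' hk' => hO k' (Multiset.mem_cons_of_mem hk')) h1)

theorem fam_nz_insert {i : ℕ} {I : Finset ℕ} (hi : i ∉ I) {D : ℕ} (h : I.card + 1 ≤ D)
    (hin : c0 i ≤ n0) : nz c0 n0 (insert i I) D ≤ nz c0 n0 I D := by
  unfold nz
  rw [prod_insert hi, card_insert_of_notMem hi]
  have h1 : D - I.card = (D - (I.card + 1)) + 1 := by omega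
  rw [h1, pow_succ]
  have h2 : (c0 i : ℝ) ≤ n0 := by exact_mod_cast hin
  have h3 : 0 ≤ (∏ l ∈ I, (c0 l : ℝ)) * (n0 : ℝ) ^ (D - (I.card + 1)) := by positivity
  have h4 := mul_le_mul_of_nonneg_right h2 h3
  linarith

private theorem lemB (hR : Rf J c0 n0 1) (hI : I ⊆ range J) {D' : ℕ}
    (hH : HY J σ I D c0 n0 θ D') (hm : ∀ k ∈ σ.ms, AdmO d J k ∨ AdmC d J e k)
    (hθ1 : 3 * θ ≤ 1) {M : Multiset Kd} (hM : Fam σ.ms M) {dl i : ℕ} {As : List (Finset ℕ)}
    (hk : AdmC d J e (.cl e dl i As)) {I' : Finset ℕ} (hI' : I' ⊆ I)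
    (h : D' + (I \ I').card ≤ D) :
    |((σ.wm (.cl e dl i As ::ₘ M)).V J I' D' : ℝ) - (σ.wm (mb e As + M)).V J I' D'| ≤
      2 * om c0 n0 J (.cl e dl i As) * nz c0 n0 I' D' := by
  have hk' := hk
  obtain ⟨dl', i', As', h1, he, hlen, htrx, hiJ, hAs⟩ := hk'
  cases h1
  have hiA : ∀ A ∈ As, i ∉ A := fun A hA hi => absurd ((hAs A hA).1 hi) (notMem_erase i _)
  have hrhs : 0 ≤ 2 * om c0 n0 J (.cl e dl i As) * nz c0 n0 I' D' :=
    mul_nonneg (mul_nonneg (by norm_num) (om_nonneg _)) (fam_nz_nonneg _ _ _ _)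
  have hMok := fam_ok hm hM
  by_cases hi : i ∈ I'
  · have e1 : (σ.wm (.cl e dl i As ::ₘ M)).V J I' D' = (σ.wm (mb e As + M)).V J I' D' +
        if trx e dl As.length ≤ D' then
          (σ.wm M).V J (I'.erase i ∩ inter As) (D' - trx e dl As.length) -
          (σ.wm M).V J (insert i (I'.erase i ∩ inter As)) (D' - trx e dl As.length) else 0 :=
      vd_clu D' σ.c (σ.n J) e dl hiA hi M
    rw [e1]
    by_cases hE : trx e dl As.length ≤ D'
    · rw [if_pos hE]
      push_cast
      rw [add_sub_cancel_left]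
      set J1 := I'.erase i ∩ inter As with hJ1
      have hJ1I : J1 ⊆ I' := inter_subset_left.trans (erase_subset _ _)
      have hiJ1 : i ∉ J1 := fun h => notMem_erase i I' (Finset.mem_inter.1 h).1
      have hins : insert i J1 ⊆ I' := insert_subset hi hJ1I
      have hcd : (I \ J1).card + D' ≤ D + trx e dl As.length := by
        have h2 : (I'.erase i \ inter As).card ≤ As.length * (e - 1) := by
          refine card_inter_le hi As (by
            intro h3
            rw [h3] at hlen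
            exact absurd hlen (by simp)) fun A hA => ⟨hiA A hA, ?_⟩
          have h9 : I' \ A ⊆ insert i ((range J).erase i \ A) := by
            intro y hy
            rw [mem_sdiff] at hy
            rw [mem_insert, mem_sdiff, mem_erase]
            by_cases hyi : y = i
            · exact Or.inl hyi
            · exact Or.inr ⟨⟨hyi, hI (hI' hy.1)⟩, hy.2⟩
          have h10 := (card_le_card h9).trans (card_insert_le _ _)
          have h11 := (hAs A hA).2
          omega
        have h3 : I \ J1 ⊆ (I \ I') ∪ insert i (I'.erase i \ inter As) := by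
          intro y hy
          rw [mem_sdiff] at hy
          rw [mem_union, mem_sdiff, mem_insert, mem_sdiff]
          by_cases hyI : y ∈ I'
          · right
            by_cases hyi : y = i
            · exact Or.inl hyi
            · exact Or.inr ⟨mem_erase.2 ⟨hyi, hyI⟩, fun h4 => hy.2
                (Finset.mem_inter.2 ⟨mem_erase.2 ⟨hyi, hyI⟩, h4⟩)⟩
          · exact Or.inl ⟨hy.1, hyI⟩
        have h4 := (card_le_card h3).trans ((card_union_le _ _).trans
          (add_le_add_right (card_insert_le _ _) _))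
        unfold trx
        omega
      have hcd' : (I \ insert i J1).card ≤ (I \ J1).card :=
        card_le_card (sdiff_subset_sdiff subset_rfl (subset_insert _ _))
      have hE1 : 1 ≤ trx e dl As.length := by
        unfold trx
        omega
      have hcin : c0 i ≤ n0 := by
        have h2 := hR.n
        rw [one_mul] at h2
        have h3 : (c0 i : ℝ) ≤ ∑ l ∈ range J, (c0 l : ℝ) :=
          single_le_sum (f := fun l => (c0 l : ℝ)) (fun l _ => Nat.cast_nonneg _) (mem_range.2 hiJ)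
        have h4 : (c0 i : ℝ) ≤ n0 := by linarith
        exact_mod_cast h4
      by_cases hc : J1.card ≤ D' - trx e dl As.length
      · have b1 := hH M hM J1 (hJ1I.trans hI') (D' - trx e dl As.length) (by omega) hc (by omega)
        have hb := bracket_le (D := D') hR (hI'.trans hI) hk hi hE hc
        have hz1 := fam_nz_nonneg c0 n0 J1 (D' - trx e dl As.length)
        have h5 : (1 + 3 * θ) * nz c0 n0 J1 (D' - trx e dl As.length) ≤
            2 * om c0 n0 J (.cl e dl i As) * nz c0 n0 I' D' := by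
          have h6 : (1 + 3 * θ) * nz c0 n0 J1 (D' - trx e dl As.length) ≤
              2 * nz c0 n0 J1 (D' - trx e dl As.length) :=
            mul_le_mul_of_nonneg_right (by linarith) hz1
          linarith
        by_cases hc' : (insert i J1).card ≤ D' - trx e dl As.length
        · have b2 := hH M hM (insert i J1) (hins.trans hI') (D' - trx e dl As.length) (by omega)
            hc' (by omega)
          have h7 : nz c0 n0 (insert i J1) (D' - trx e dl As.length) ≤
              nz c0 n0 J1 (D' - trx e dl As.length) := by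
            rw [card_insert_of_notMem hiJ1] at hc'
            exact fam_nz_insert hiJ1 hc' hcin
          have h8 : ((σ.wm M).V J (insert i J1) (D' - trx e dl As.length) : ℝ) ≤
              (1 + 3 * θ) * nz c0 n0 J1 (D' - trx e dl As.length) := by
            refine b2.2.trans ?_
            by_cases h9 : 0 ≤ 1 + 3 * θ
            · exact mul_le_mul_of_nonneg_left h7 h9
            · exfalso
              have h10 : (0 : ℝ) < nz c0 n0 (insert i J1) (D' - trx e dl As.length) := by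
                unfold nz
                have h11 := hR.n
                have h12 : (0 : ℝ) ≤ ∑ l ∈ range J, (c0 l : ℝ) :=
                  sum_nonneg fun l _ => Nat.cast_nonneg _
                refine mul_pos (prod_pos fun l hl => ?_) (pow_pos (by linarith) _)
                have h13 := hR.c l (mem_range.1 (hI (hI' (hins hl))))
                linarith
              have h11 := b2.1.trans b2.2
              have h12 : (1 + 3 * θ) * nz c0 n0 (insert i J1) (D' - trx e dl As.length) < 0 :=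
                mul_neg_of_neg_of_pos (by linarith) h10
              linarith
          rw [abs_le]
          constructor <;> linarith [b1.1, b1.2, b2.1]
        · rw [fam_low0 hMok (hins.trans (hI'.trans hI)) (by omega)]
          push_cast
          rw [sub_zero, abs_of_nonneg b1.1]
          linarith [b1.2]
      · rw [fam_low0 hMok (hJ1I.trans (hI'.trans hI)) (by omega),
          fam_low0 hMok (hins.trans (hI'.trans hI)) (by
            rw [card_insert_of_notMem hiJ1]
            omega)]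
        push_cast
        rw [sub_zero, abs_zero]
        exact hrhs
    · rw [if_neg hE]
      push_cast
      rw [add_zero, sub_self, abs_zero]
      exact hrhs
  · have e1 : (σ.wm (.cl e dl i As ::ₘ M)).V J I' D' = (σ.wm (mb e As + M)).V J I' D' :=
      vd_clu_not D' σ.c (σ.n J) e dl hi M
    rw [e1, sub_self, abs_zero]
    exact hrhs

/-- An object and its members. -/
private theorem lemB' (hR : Rf J c0 n0 1) (hI : I ⊆ range J) {D' : ℕ}
    (hH : HY J σ I D c0 n0 θ D') (hm : ∀ k ∈ σ.ms, AdmO d J k ∨ AdmC d J e k)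
    (hθ1 : 3 * θ ≤ 1) {M : Multiset Kd} (hM : Fam σ.ms M) {k : Kd}
    (hk : AdmO d J k ∨ AdmC d J e k) {I' : Finset ℕ} (hI' : I' ⊆ I)
    (h : D' + (I \ I').card ≤ D) :
    |((σ.wm (k ::ₘ M)).V J I' D' : ℝ) - (σ.wm (mmb k + M)).V J I' D'| ≤
      2 * om c0 n0 J k * nz c0 n0 I' D' := by
  rcases hk with hk | hk
  · rw [fam_mmb hk, Multiset.singleton_add, sub_self, abs_zero]
    exact mul_nonneg (mul_nonneg (by norm_num) (om_nonneg _)) (fam_nz_nonneg _ _ _ _)
  · obtain ⟨dl, i, As, rfl, h2⟩ := hk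
    exact lemB hR hI hH hm hθ1 hM ⟨dl, i, As, rfl, h2⟩ hI' h

/-- One more object of the configuration. -/
private theorem lemC (hR : Rf J c0 n0 1) (hI : I ⊆ range J) {D' : ℕ}
    (hH : HY J σ I D c0 n0 θ D') (hm : ∀ k ∈ σ.ms, AdmO d J k ∨ AdmC d J e k)
    (hθ1 : 3 * θ ≤ 1) {M : Multiset Kd} {k : Kd} (hM : k ::ₘ M ≤ σ.ms) {I' : Finset ℕ}
    (hI' : I' ⊆ I) (h : D' + (I \ I').card ≤ D) :
    ((σ.wm (k ::ₘ M)).V J I' D' : ℝ) ≤ (σ.wm M).V J I' D' +
      2 * om c0 n0 J k * nz c0 n0 I' D' := by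
  have hk := hm k (Multiset.mem_of_le hM (Multiset.mem_cons_self _ _))
  have h1 : Fam σ.ms M := fam_sub_le (fam_self _) ((Multiset.le_cons_self _ _).trans hM)
  have h2 := lemB' hR hI hH hm hθ1 h1 hk hI' h
  have h3 : Fam σ.ms (mmb k + M) := by
    refine ⟨M, {k}, mmb k, ?_, ?_, add_comm _ _⟩
    · rw [add_comm, Multiset.singleton_add]
      exact hM
    · rw [Multiset.singleton_bind]
  have h4 := lemA' hI hH hm hI' h (mmb k) (fam_mmb_ok hk) h3
  have h5 := (abs_le.1 h2).2
  linarith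

private theorem lemD (hR : Rf J c0 n0 1) (hI : I ⊆ range J) {D' : ℕ}
    (hH : HY J σ I D c0 n0 θ D') (hm : ∀ k ∈ σ.ms, AdmO d J k ∨ AdmC d J e k)
    (hθ1 : 3 * θ ≤ 1) {M : Multiset Kd} {I' : Finset ℕ} (hI' : I' ⊆ I)
    (h : D' + (I \ I').card ≤ D) (W : Multiset Kd) (hM : W + M ≤ σ.ms) :
    ((σ.wm (W + M)).V J I' D' : ℝ) ≤ (σ.wm M).V J I' D' +
      2 * (W.map (om c0 n0 J)).sum * nz c0 n0 I' D' := by
  induction W using Multiset.induction_on with
  | empty =>
    rw [zero_add, Multiset.map_zero, Multiset.sum_zero]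
    linarith
  | cons k W ih =>
    rw [Multiset.cons_add] at hM ⊢
    have h1 := lemC hR hI hH hm hθ1 hM hI' h
    have h2 := ih ((Multiset.le_cons_self _ _).trans hM)
    rw [Multiset.map_cons, Multiset.sum_cons]
    have h3 : 2 * (om c0 n0 J k + (W.map (om c0 n0 J)).sum) * nz c0 n0 I' D' =
        2 * om c0 n0 J k * nz c0 n0 I' D' +
          2 * (W.map (om c0 n0 J)).sum * nz c0 n0 I' D' := by ring
    rw [h3]
    linarith

/-- Replacement of objects by their members. -/
private theorem lemE (hR : Rf J c0 n0 1) (hI : I ⊆ range J) {D' : ℕ}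
    (hH : HY J σ I D c0 n0 θ D') (hm : ∀ k ∈ σ.ms, AdmO d J k ∨ AdmC d J e k)
    (hθ1 : 3 * θ ≤ 1) {I' : Finset ℕ} (hI' : I' ⊆ I)
    (h : D' + (I \ I').card ≤ D) (C : Multiset Kd) : ∀ U, U + C ≤ σ.ms →
    |((σ.wm (U + C)).V J I' D' : ℝ) - (σ.wm (U + C.bind mmb)).V J I' D'| ≤
      2 * (C.map (om c0 n0 J)).sum * nz c0 n0 I' D' := by
  induction C using Multiset.induction_on with
  | empty =>
    intro U _
    rw [Multiset.zero_bind, Multiset.map_zero, Multiset.sum_zero, sub_self, abs_zero]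
    linarith
  | cons k C ih =>
    intro U hU
    have e1 : U + k ::ₘ C = (k ::ₘ U) + C := by
      rw [Multiset.add_cons, Multiset.cons_add]
    have e2 : (k ::ₘ U) + C.bind mmb = k ::ₘ (U + C.bind mmb) := Multiset.cons_add _ _ _
    have e3 : U + (k ::ₘ C).bind mmb = mmb k + (U + C.bind mmb) := by
      rw [Multiset.cons_bind]
      abel
    have h1 := ih (k ::ₘ U) (by rw [← e1]; exact hU)
    have hk := hm k (Multiset.mem_of_le hU (Multiset.mem_add.2 (Or.inr
      (Multiset.mem_cons_self _ _))))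
    have hF : Fam σ.ms (U + C.bind mmb) :=
      ⟨U, C, C.bind mmb, (add_le_add_right (Multiset.le_cons_self _ _) _).trans hU, le_rfl, rfl⟩
    have h2 := lemB' hR hI hH hm hθ1 hF hk hI' h
    rw [e1, e3]
    rw [e2] at h1
    rw [Multiset.map_cons, Multiset.sum_cons]
    have h3 : 2 * (om c0 n0 J k + (C.map (om c0 n0 J)).sum) * nz c0 n0 I' D' =
        2 * om c0 n0 J k * nz c0 n0 I' D' +
          2 * (C.map (om c0 n0 J)).sum * nz c0 n0 I' D' := by ring
    rw [h3]
    have h4 := abs_sub_le ((σ.wm ((k ::ₘ U) + C)).V J I' D' : ℝ)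
      ((σ.wm (k ::ₘ (U + C.bind mmb))).V J I' D' : ℝ)
      ((σ.wm (mmb k + (U + C.bind mmb))).V J I' D' : ℝ)
    linarith

theorem fam_om_sum (M : Multiset Kd) : 0 ≤ (M.map (om c0 n0 J)).sum :=
  Multiset.sum_nonneg fun x hx => by
    obtain ⟨k, -, rfl⟩ := Multiset.mem_map.1 hx
    exact om_nonneg k

/-- The bounds in degree `D'` from the bounds in the lower degrees. -/
private theorem cmp_step (hR : Rf J c0 n0 1) (hI : I ⊆ range J) (hD : D ≤ d)
    (hc : ∀ l, σ.c l ≤ c0 l)
    (hn : σ.n J ≤ n0) (hm : ∀ k ∈ σ.ms, AdmO d J k ∨ AdmC d J e k)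
    (hom : (σ.ms.map (om c0 n0 J)).sum ≤ θ) (hθ1 : 3 * θ ≤ 1) {D' : ℕ}
    (hH : HY J σ I D c0 n0 θ D') {R : Multiset Kd} (hF : Fam σ.ms R) {I' : Finset ℕ}
    (hI' : I' ⊆ I) (h1 : I'.card ≤ D') (h : D' + (I \ I').card ≤ D) :
    (σ.V J I' D' : ℝ) - 3 * θ * nz c0 n0 I' D' ≤ (σ.wm R).V J I' D' ∧
      ((σ.wm R).V J I' D' : ℝ) ≤ (1 + 3 * θ) * nz c0 n0 I' D' := by
  have hz := fam_nz_nonneg c0 n0 I' D'
  have hθ0 : 0 ≤ θ := (fam_om_sum _).trans hom
  obtain ⟨U, C, O, g1, g2, rfl⟩ := hF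
  obtain ⟨W, hW⟩ := Multiset.le_iff_exists_add.1 g1
  have hCok : ∀ k ∈ C, AdmO d J k ∨ AdmC d J e k := fun k hk =>
    hm k (Multiset.mem_of_le g1 (Multiset.mem_add.2 (Or.inr hk)))
  have hsum : (U.map (om c0 n0 J)).sum + (C.map (om c0 n0 J)).sum + (W.map (om c0 n0 J)).sum ≤
      θ := by
    refine le_trans (le_of_eq ?_) hom
    rw [hW, Multiset.map_add, Multiset.sum_add, Multiset.map_add, Multiset.sum_add]
  have hU0 := fam_om_sum (J := J) (c0 := c0) (n0 := n0) U
  have hC0 := fam_om_sum (J := J) (c0 := c0) (n0 := n0) C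
  have hW0 := fam_om_sum (J := J) (c0 := c0) (n0 := n0) W
  constructor
  · -- the lower bound
    have s1 : (σ.V J I' D' : ℝ) ≤ (σ.wm (U + C)).V J I' D' +
        2 * (W.map (om c0 n0 J)).sum * nz c0 n0 I' D' := by
      have h2 := lemD (M := U + C) hR hI hH hm hθ1 hI' h W (by rw [add_comm, ← hW])
      have h3 : σ.wm (W + (U + C)) = σ := by
        rw [add_comm, ← hW]
        rfl
      rwa [h3] at h2
    have s2 := lemE hR hI hH hm hθ1 hI' h C U g1
    have s3 : ((σ.wm (U + C.bind mmb)).V J I' D' : ℝ) ≤ (σ.wm (U + O)).V J I' D' := by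
      obtain ⟨Z, hZ⟩ := Multiset.le_iff_exists_add.1 g2
      have h2 : U + C.bind mmb = Z + (U + O) := by
        rw [hZ]
        abel
      rw [h2]
      refine lemA' hI hH hm hI' h Z (fun k hk => fam_bind_ok hCok k ?_) ?_
      · rw [hZ]
        exact Multiset.mem_add.2 (Or.inr hk)
      · rw [← h2]
        exact ⟨U, C, C.bind mmb, g1, le_rfl, rfl⟩
    have s4 := (abs_le.1 s2).2
    have s5 : 2 * (W.map (om c0 n0 J)).sum * nz c0 n0 I' D' +
        2 * (C.map (om c0 n0 J)).sum * nz c0 n0 I' D' ≤ 3 * θ * nz c0 n0 I' D' := by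
      rw [← add_mul]
      exact mul_le_mul_of_nonneg_right (by linarith) hz
    linarith
  · -- the upper bound
    have s1 : ((σ.wm (U + O)).V J I' D' : ℝ) ≤ (σ.wm U).V J I' D' := by
      rw [add_comm]
      refine lemA' hI hH hm hI' h O (fun k hk => fam_bind_ok hCok k (Multiset.mem_of_le g2 hk)) ?_
      rw [add_comm]
      exact ⟨U, C, O, g1, g2, rfl⟩
    have s2 := lemD (M := 0) hR hI hH hm hθ1 hI' h U (by
      rw [add_zero, hW, add_assoc]
      exact Multiset.le_add_right _ _)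
    rw [add_zero] at s2
    have s3 : ((σ.wm 0).V J I' D' : ℝ) ≤ nz c0 n0 I' D' := by
      have h2 : ((σ.wm 0).H d J I' D' : ℤ) = (σ.wm 0).V J I' D' :=
        St.Ex_nil (σ := σ.wm 0) (by omega) (hI'.trans hI) rfl
      have h3 : ((σ.wm 0).V J I' D' : ℝ) = ((σ.wm 0).H d J I' D' : ℝ) := by
        rw [← h2]
        exact Int.cast_natCast _
      rw [h3]
      exact St.H_le (σ := σ.wm 0) (by omega) (hI'.trans hI) (fun l _ => hc l) hn h1
    have s5 : 2 * (U.map (om c0 n0 J)).sum * nz c0 n0 I' D' ≤ 3 * θ * nz c0 n0 I' D' :=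
      mul_le_mul_of_nonneg_right (by linarith) hz
    have s6 : (1 + 3 * θ) * nz c0 n0 I' D' = nz c0 n0 I' D' + 3 * θ * nz c0 n0 I' D' := by ring
    rw [s6]
    linarith

private theorem hy_all (hR : Rf J c0 n0 1) (hI : I ⊆ range J) (hD : D ≤ d)
    (hc : ∀ l, σ.c l ≤ c0 l)
    (hn : σ.n J ≤ n0) (hm : ∀ k ∈ σ.ms, AdmO d J k ∨ AdmC d J e k)
    (hom : (σ.ms.map (om c0 n0 J)).sum ≤ θ) (hη : 0 ≤ η) (hθ : 3 * θ ≤ η) (hθ1 : 3 * θ ≤ 1)
    (hp : PosL J c0 n0 η σ I D) : ∀ D' ≤ D, HY J σ I D c0 n0 θ D' := by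
  intro D'
  induction D' with
  | zero =>
    intro _ M _ I'' _ D'' h
    exact absurd h (Nat.not_lt_zero _)
  | succ D' ih =>
    intro hDD M hM I'' hI'' D'' hD'' h1 h2
    by_cases h3 : D'' < D'
    · exact ih (by omega) M hM I'' hI'' D'' h3 h1 h2
    · have h4 : D'' = D' := by omega
      subst h4
      have h5 := cmp_step hR hI hD hc hn hm hom hθ1 (ih (by omega)) hM hI'' h1 h2
      refine ⟨?_, h5.2⟩
      refine le_trans ?_ h5.1
      have h6 := hp I'' hI'' D'' h1 (by omega) h2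
      have h7 : 3 * θ * nz c0 n0 I'' D'' ≤ η * nz c0 n0 I'' D'' :=
        mul_le_mul_of_nonneg_right hθ (fam_nz_nonneg _ _ _ _)
      linarith

/-- **Comparison**: bounds for all members of the family of `σ`. -/
theorem cmp (hR : Rf J c0 n0 1) (hI : I ⊆ range J) (hD : D ≤ d) (hc : ∀ l, σ.c l ≤ c0 l)
    (hn : σ.n J ≤ n0) (hm : ∀ k ∈ σ.ms, AdmO d J k ∨ AdmC d J e k)
    (hom : (σ.ms.map (om c0 n0 J)).sum ≤ θ) (hη : 0 ≤ η) (hθ : 3 * θ ≤ η) (hθ1 : 3 * θ ≤ 1)
    (hp : PosL J c0 n0 η σ I D) {R : Multiset Kd} (hF : Fam σ.ms R) :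
    ∀ I' ⊆ I, ∀ D' : ℕ, I'.card ≤ D' → D' + (I \ I').card ≤ D →
      (σ.V J I' D' : ℝ) - 3 * θ * nz c0 n0 I' D' ≤ (σ.wm R).V J I' D' ∧
        ((σ.wm R).V J I' D' : ℝ) ≤ (1 + 3 * θ) * nz c0 n0 I' D' := by
  intro I' hI' D' h1 h2
  exact cmp_step hR hI hD hc hn hm hom hθ1
    (hy_all hR hI hD hc hn hm hom hη hθ hθ1 hp D' (by omega)) hF hI' h1 h2

/-- The state with all clusters replaced by their members. -/
theorem cmp_all (hR : Rf J c0 n0 1) (hI : I ⊆ range J) (hD : D ≤ d) (hc : ∀ l, σ.c l ≤ c0 l)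
    (hn : σ.n J ≤ n0) (hm : ∀ k ∈ σ.ms, AdmO d J k ∨ AdmC d J e k)
    (hom : (σ.ms.map (om c0 n0 J)).sum ≤ θ) (hη : 0 ≤ η) (hθ : 3 * θ ≤ η) (hθ1 : 3 * θ ≤ 1)
    (hp : PosL J c0 n0 η σ I D) :
    ∀ I' ⊆ I, ∀ D' : ℕ, I'.card ≤ D' → D' + (I \ I').card ≤ D →
      |(σ.V J I' D' : ℝ) - (σ.wm (σ.ms.bind mmb)).V J I' D'| ≤ 3 * θ * nz c0 n0 I' D' := by
  intro I' hI' D' h1 h2
  have hθ0 : 0 ≤ θ := (fam_om_sum _).trans hom
  have h3 := lemE hR hI (hy_all hR hI hD hc hn hm hom hη hθ hθ1 hp D' (by omega)) hm hθ1 hI' h2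
    σ.ms 0 (by rw [zero_add])
  rw [zero_add, zero_add] at h3
  have h4 : σ.wm σ.ms = σ := rfl
  rw [h4] at h3
  exact h3.trans (mul_le_mul_of_nonneg_right (by linarith) (fam_nz_nonneg _ _ _ _))

end

end Pool.Agent.GD.AL

end
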