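import Pool.Agent.H94.LP7.M04
import Pool.Agent.H94.LP7.M21
import Pool.Agent.H94.LP7.M22

/-! The parts of this file: GD.NM.Cnt, GD.NM.Win, GD.NM.VaM, GD.N.Va. -/

section

/-!
# The numbers of the factors on `L_I'` as functions of `I'`
-/

set_option autoImplicit false

namespace Pool.Agent.GD.NM

open Finset

theorem dl_ind (A S T : Finset ℕ) : dl S (fun U => if U ⊆ A then (1 : ℝ) else 0) T =
    if T ⊆ A ∧ Disjoint S A then 1 else 0 := by
  induction S using Finset.induction_on generalizing T with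
  | empty => simp [dl_empty]
  | insert i S hi ih =>
    rw [dl_insert hi, ih, ih]
    by_cases h1 : T ⊆ A
    · by_cases h2 : Disjoint S A
      · by_cases h3 : i ∈ A
        · have h4 : ¬ Disjoint (insert i S) A := fun h => disjoint_left.1 h (mem_insert_self i S) h3
          rw [if_pos ⟨h1, h2⟩, if_pos ⟨insert_subset h3 h1, h2⟩, if_neg fun h => h4 h.2, sub_self]
        · have h4 : Disjoint (insert i S) A := disjoint_insert_left.2 ⟨h3, h2⟩
          rw [if_pos ⟨h1, h2⟩, if_neg fun h => h3 (h.1 (mem_insert_self i T)), if_pos ⟨h1, h4⟩, sub_zero]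
      · have h4 : ¬ Disjoint (insert i S) A := fun h => h2 (h.mono_left (subset_insert i S))
        rw [if_neg fun h => h2 h.2, if_neg fun h => h2 h.2, if_neg fun h => h4 h.2, sub_self]
    · rw [if_neg fun h => h1 h.1, if_neg fun h => h1 ((subset_insert i T).trans h.1), if_neg fun h => h1 h.1, sub_self]

/-- Mixed differences of the number of the points on `L_T`. -/
theorem dl_countP (PP : Multiset (ℕ × Finset ℕ)) (x : ℕ) (S T : Finset ℕ) :
    dl S (fun U => (PP.countP (fun p => p.1 = x ∧ U ⊆ p.2) : ℝ)) T =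
      (PP.countP (fun p => p.1 = x ∧ T ⊆ p.2 ∧ Disjoint S p.2) : ℝ) := by
  induction PP using Multiset.induction_on with
  | empty =>
    simp only [Multiset.countP_zero, Nat.cast_zero]
    unfold dl
    simp
  | cons p PP ih =>
    have h1 : (fun U => (((p ::ₘ PP).countP (fun p => p.1 = x ∧ U ⊆ p.2) : ℕ) : ℝ)) =
        fun U => ((PP.countP (fun p => p.1 = x ∧ U ⊆ p.2) : ℕ) : ℝ) + (if p.1 = x then 1 else 0) * (if U ⊆ p.2 then (1 : ℝ) else 0) := by
      funext U
      rw [Multiset.countP_cons]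
      push_cast
      congr 1
      by_cases h2 : p.1 = x <;> by_cases h3 : U ⊆ p.2 <;> simp [h2, h3]
    rw [h1, dl_add, ih, dl_smul, dl_ind, Multiset.countP_cons]
    push_cast
    congr 1
    by_cases h2 : p.1 = x <;> by_cases h3 : T ⊆ p.2 <;> by_cases h4 : Disjoint S p.2 <;> simp [h2, h3, h4]

theorem countP_eq_sum (PP : Multiset (ℕ × Finset ℕ)) (x : ℕ) (R : Finset ℕ) (q : Finset ℕ → Prop) [DecidablePred q]
    (h : ∀ p ∈ PP, p.2 ⊆ R) :
    PP.countP (fun p => p.1 = x ∧ q p.2) = ∑ A ∈ R.powerset.filter q, PP.count (x, A) := by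
  induction PP using Multiset.induction_on with
  | empty => simp
  | cons p PP ih =>
    rw [Multiset.countP_cons, ih fun p' hp' => h p' (Multiset.mem_cons_of_mem hp')]
    have hp : p.2 ⊆ R := h p (Multiset.mem_cons_self p PP)
    have h1 : ∀ A ∈ R.powerset.filter q, (p ::ₘ PP).count (x, A) = PP.count (x, A) + if A = p.2 then (if p.1 = x then 1 else 0) else 0 := by
      intro A _
      rw [Multiset.count_cons]
      congr 1
      obtain ⟨y, B⟩ := p
      simp only [Prod.mk.injEq]
      by_cases h2 : A = B <;> by_cases h3 : y = x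
      · rw [if_pos ⟨h3.symm, h2⟩, if_pos h2, if_pos h3]
      · rw [if_neg fun h => h3 h.1.symm, if_pos h2, if_neg h3]
      · rw [if_neg fun h => h2 h.2, if_neg h2]
      · rw [if_neg fun h => h2 h.2, if_neg h2]
    rw [sum_congr rfl h1, sum_add_distrib]
    congr 1
    rw [Finset.sum_ite_eq']
    by_cases h2 : q p.2
    · rw [if_pos (mem_filter.2 ⟨mem_powerset.2 hp, h2⟩)]
      by_cases h3 : p.1 = x
      · rw [if_pos ⟨h3, h2⟩, if_pos h3]
      · rw [if_neg fun h => h3 h.1, if_neg h3]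
    · rw [if_neg fun h => h2 (mem_filter.1 h).2, if_neg fun h => h2 h.2]

/-- The contribution of the sum of the points of a cluster. -/
def ci (x : ℕ) (T : Finset ℕ) : Kd → ℕ
  | .ord _ _ => 0
  | .cl e dl i As => if x = trx e dl As.length ∧ i ∈ T ∧ T.erase i ⊆ inter As then 1 else 0

/-- No member of the cluster vanishes on its own block. -/
def Gd : Kd → Prop
  | .ord _ _ => True
  | .cl _ _ i As => ∀ A ∈ As, i ∉ A

theorem count_exs (x : ℕ) (T : Finset ℕ) (k : Kd) (hk : Gd k) :
    (exs T k).count x = k.pts.countP (fun p => p.1 = x ∧ T ⊆ p.2) + ci x T k := by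
  cases k with
  | ord e A =>
    unfold exs Kd.pts ci
    dsimp only
    have h0 : Multiset.countP (fun p : ℕ × Finset ℕ => p.1 = x ∧ T ⊆ p.2) {(e, A)} = if e = x ∧ T ⊆ A then 1 else 0 := by
      rw [← Multiset.cons_zero, Multiset.countP_cons, Multiset.countP_zero, zero_add]
    rw [add_zero, h0]
    by_cases h1 : T ⊆ A
    · rw [if_pos h1, Multiset.count_singleton]
      by_cases h2 : e = x
      · rw [if_pos h2.symm, if_pos ⟨h2, h1⟩]
      · rw [if_neg fun h => h2 h.symm, if_neg fun h => h2 h.1]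
    · rw [if_neg h1, if_neg fun h => h1 h.2, Multiset.count_zero]
  | cl e dl i As =>
    have hk' : ∀ A ∈ As, i ∉ A := hk
    unfold exs Kd.pts ci
    dsimp only
    by_cases h1 : i ∈ T
    · have h2 : Multiset.countP (fun p : ℕ × Finset ℕ => p.1 = x ∧ T ⊆ p.2)
          ((As.map fun A => (e, A) : List (ℕ × Finset ℕ)) : Multiset (ℕ × Finset ℕ)) = 0 := by
        rw [Multiset.countP_eq_zero]
        intro p hp h3
        rw [Multiset.mem_coe, List.mem_map] at hp
        obtain ⟨A, hA, rfl⟩ := hp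
        exact hk' A hA (h3.2 h1)
      rw [h2, zero_add, if_pos h1]
      by_cases h3 : T.erase i ⊆ inter As
      · rw [if_pos h3, Multiset.count_singleton]
        by_cases h4 : x = trx e dl As.length
        · rw [if_pos h4, if_pos ⟨h4, h1, h3⟩]
        · rw [if_neg h4, if_neg fun h => h4 h.1]
      · rw [if_neg h3, if_neg fun h => h3 h.2.2, Multiset.count_zero]
    · rw [if_neg h1, if_neg fun h => h1 h.2.1, add_zero]
      clear hk hk'
      induction As with
      | nil => simp
      | cons A As ih =>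
        have e2 : ((A :: As).map fun A => (e, A) : List (ℕ × Finset ℕ)) = (e, A) :: As.map fun A => (e, A) := rfl
        rw [e2, ← Multiset.cons_coe, Multiset.countP_cons, ← ih]
        by_cases hA : T ⊆ A
        · rw [List.filter_cons_of_pos (by simpa using hA), List.map_cons, ← Multiset.cons_coe, Multiset.count_cons]
          congr 1
          by_cases h2 : e = x
          · rw [if_pos h2.symm, if_pos ⟨h2, hA⟩]
          · rw [if_neg fun h => h2 h.symm, if_neg fun h => h2 h.1]
        · rw [List.filter_cons_of_neg (by simpa using hA), if_neg fun h => hA h.2, add_zero]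

theorem count_exm (x : ℕ) (T : Finset ℕ) (ms : Multiset Kd) (h : ∀ k ∈ ms, Gd k) :
    (exm ms T).count x = (ms.bind Kd.pts).countP (fun p => p.1 = x ∧ T ⊆ p.2) + (ms.map (ci x T)).sum := by
  induction ms using Multiset.induction_on with
  | empty => simp [exm]
  | cons k ms ih =>
    have h1 := ih fun k' hk' => h k' (Multiset.mem_cons_of_mem hk')
    unfold exm at h1 ⊢
    rw [Multiset.cons_bind, Multiset.count_add, h1, Multiset.cons_bind, Multiset.countP_add, Multiset.map_cons,
      Multiset.sum_cons, count_exs x T k (h k (Multiset.mem_cons_self k ms))]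
    ring

/-! ### Clusters -/

/-- The mixed differences of the contribution of a cluster. -/
theorem dl_ci (x e dl' i : ℕ) (As : List (Finset ℕ)) (S T : Finset ℕ) :
    dl S (fun U => (ci x U (.cl e dl' i As) : ℝ)) T = 0 ∨ (x = trx e dl' As.length ∧ S.erase i ∩ inter As = ∅) := by
  by_cases hx : x = trx e dl' As.length
  · by_cases h : S.erase i ∩ inter As = ∅
    · exact Or.inr ⟨hx, h⟩
    · left
      obtain ⟨s, hs⟩ := nonempty_iff_ne_empty.2 h
      rw [mem_inter, mem_erase] at hs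
      rw [← insert_erase hs.1.2, dl_insert (notMem_erase s S)]
      have h1 : ∀ U : Finset ℕ, ci x (insert s U) (.cl e dl' i As) = ci x U (.cl e dl' i As) := by
        intro U
        unfold ci
        dsimp only
        have h2 : (x = trx e dl' As.length ∧ i ∈ insert s U ∧ (insert s U).erase i ⊆ inter As) ↔
            (x = trx e dl' As.length ∧ i ∈ U ∧ U.erase i ⊆ inter As) := by
          rw [erase_insert_of_ne hs.1.1, insert_subset_iff, mem_insert]
          constructor
          · rintro ⟨h3, h4 | h4, h5⟩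
            · exact absurd h4.symm hs.1.1
            · exact ⟨h3, h4, h5.2⟩
          · rintro ⟨h3, h4, h5⟩
            exact ⟨h3, Or.inr h4, hs.2, h5⟩
        by_cases h3 : x = trx e dl' As.length ∧ i ∈ U ∧ U.erase i ⊆ inter As
        · rw [if_pos h3, if_pos (h2.2 h3)]
        · rw [if_neg h3, if_neg fun h4 => h3 (h2.1 h4)]
      unfold dl
      rw [sub_eq_zero]
      refine sum_congr rfl fun U _ => ?_
      rw [insert_union]
      dsimp only
      rw [h1]
  · left
    have h1 : (fun U => (ci x U (.cl e dl' i As) : ℝ)) = fun _ => 0 := by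
      funext U
      unfold ci
      dsimp only
      rw [if_neg fun h => hx h.1, Nat.cast_zero]
    rw [h1]
    unfold dl
    simp

theorem abs_dl_le (S T : Finset ℕ) (f : Finset ℕ → ℝ) (h : ∀ U, |f U| ≤ 1) : |dl S f T| ≤ 2 ^ S.card := by
  unfold dl
  refine (abs_sum_le_sum_abs _ _).trans ?_
  calc ∑ U ∈ S.powerset, |(-1) ^ U.card * f (T ∪ U)| ≤ ∑ _U ∈ S.powerset, (1 : ℝ) := by
        refine sum_le_sum fun U _ => ?_
        rw [abs_mul, abs_pow, abs_neg, abs_one, one_pow, one_mul]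
        exact h _
    _ = 2 ^ S.card := by
        rw [sum_const, card_powerset, nsmul_eq_mul, mul_one]
        push_cast
        ring

theorem abs_dl_ci (x : ℕ) (k : Kd) (S T : Finset ℕ) : |dl S (fun U => (ci x U k : ℝ)) T| ≤ 2 ^ S.card := by
  refine abs_dl_le S T _ fun U => ?_
  cases k with
  | ord e A => simp [ci]
  | cl e dl' i As =>
    unfold ci
    dsimp only
    split_ifs <;> simp

theorem mbs_length {i j k : ℕ} (hk : 1 ≤ k) (S : Finset ℕ) : (mbs i j k S).length = k := by
  unfold mbs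
  split_ifs with h
  · rw [List.length_singleton, h]
  · rw [List.length_cons, List.length_replicate]
    omega

theorem mbr_length (i j k e r : ℕ) : (mbr i j k e r).length = k := by
  unfold mbr
  rw [List.length_map, List.length_range]

theorem mem_inter {As : List (Finset ℕ)} (hAs : As ≠ []) {s : ℕ} : s ∈ inter As ↔ ∀ A ∈ As, s ∈ A := by
  obtain ⟨A, Bs, rfl⟩ := List.exists_cons_of_ne_nil hAs
  unfold inter
  rw [List.headD_cons, mem_filter]
  exact ⟨fun h => h.2, fun h => ⟨h A List.mem_cons_self, h⟩⟩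

theorem mem_mbs {i j k : ℕ} {S A : Finset ℕ} (h : A ∈ mbs i j k S) : A = (range j).erase i ∨ A = (range j).erase i \ S := by
  unfold mbs at h
  split_ifs at h
  · right
    exact List.mem_singleton.1 h
  · rcases List.mem_cons.1 h with h1 | h1
    · exact Or.inl h1
    · right
      exact List.eq_of_mem_replicate h1

/-- The data of a cluster of the class: the exponent of the trace and the support of the sum. -/
theorem kd_data {d e i j : ℕ} (he : 2 ≤ e) (hj : j ≤ d - e) (hi : i < j) {τ : CT} (h : τ.Ok d e i j) :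
    ∃ (dl' : ℕ) (As : List (Finset ℕ)) (V : Finset ℕ), τ.kd d e i j = .cl e dl' i As ∧ As ≠ [] ∧
      (∀ A ∈ As, A ⊆ (range j).erase i ∧ (range j \ A).card ≤ e) ∧
      (∀ s ∈ (range j).erase i, s ∉ V → s ∈ inter As) ∧ τ.w e + (V.card + 1) + 1 ≤ trx e dl' As.length := by
  have hde : e < d := by omega
  cases τ with
  | pl k S =>
    obtain ⟨h1, h2, h3, h4⟩ := h
    have hlen := mbs_length (i := i) (j := j) (k := k) (by omega) S
    have hne : mbs i j k S ≠ [] := fun h0 => by rw [h0] at hlen; simp at hlen; omega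
    refine ⟨0, mbs i j k S, S, rfl, hne, fun A hA => ?_, fun s hs hsS => ?_, ?_⟩
    · have hc : (range j \ ((range j).erase i \ S)) ⊆ insert i S := by
        intro s hs
        simp only [mem_sdiff, mem_erase, mem_insert, not_and, not_not] at hs ⊢
        by_cases h5 : s = i
        · exact Or.inl h5
        · exact Or.inr (hs.2 ⟨h5, hs.1⟩)
      have hc2 : (range j \ (range j).erase i) ⊆ insert i S := by
        intro s hs
        simp only [mem_sdiff, mem_erase, mem_insert, not_and] at hs ⊢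
        by_contra h5
        push Not at h5
        exact hs.2 h5.1 hs.1
      have hcard : (insert i S).card ≤ e := (card_insert_le i S).trans (by omega)
      rcases mem_mbs hA with rfl | rfl
      · exact ⟨Subset.rfl, (card_le_card hc2).trans hcard⟩
      · exact ⟨sdiff_subset, (card_le_card hc).trans hcard⟩
    · rw [mem_inter hne]
      intro A hA
      rcases mem_mbs hA with rfl | rfl
      · exact hs
      · exact mem_sdiff.2 ⟨hs, hsS⟩
    · rw [hlen]
      unfold CT.w trx
      dsimp only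
      have h5 : 2 * (e - 1) ≤ k * (e - 1) := Nat.mul_le_mul_right _ h1
      omega
  | b0 S =>
    obtain ⟨h1, h3, h4⟩ := h
    have hk1 : 1 ≤ (d - i - 1) / (e - 1) := by
      rw [Nat.one_le_div_iff (by omega)]
      omega
    have hlen := mbs_length (i := i) (j := j) hk1 S
    have hne : mbs i j ((d - i - 1) / (e - 1)) S ≠ [] := fun h0 => by rw [h0] at hlen; simp at hlen; omega
    have he3 : 2 < e := by
      by_contra h5
      have h6 : e - 1 = 1 := by omega
      rw [h6, Nat.mod_one] at h1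
      exact h1 rfl
    refine ⟨(d - i - 1) % (e - 1), mbs i j ((d - i - 1) / (e - 1)) S, S, rfl, hne, fun A hA => ?_, fun s hs hsS => ?_, ?_⟩
    · have hc : (range j \ ((range j).erase i \ S)) ⊆ insert i S := by
        intro s hs
        simp only [mem_sdiff, mem_erase, mem_insert, not_and, not_not] at hs ⊢
        by_cases h5 : s = i
        · exact Or.inl h5
        · exact Or.inr (hs.2 ⟨h5, hs.1⟩)
      have hc2 : (range j \ (range j).erase i) ⊆ insert i S := by
        intro s hs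
        simp only [mem_sdiff, mem_erase, mem_insert, not_and] at hs ⊢
        by_contra h5
        push Not at h5
        exact hs.2 h5.1 hs.1
      have hcard : (insert i S).card ≤ e := (card_insert_le i S).trans (by omega)
      rcases mem_mbs hA with rfl | rfl
      · exact ⟨Subset.rfl, (card_le_card hc2).trans hcard⟩
      · exact ⟨sdiff_subset, (card_le_card hc).trans hcard⟩
    · rw [mem_inter hne]
      intro A hA
      rcases mem_mbs hA with rfl | rfl
      · exact hs
      · exact mem_sdiff.2 ⟨hs, hsS⟩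
    · rw [hlen]
      unfold CT.w trx
      dsimp only
      have h5 : (d - i - 1) / (e - 1) * (e - 1) + (d - i - 1) % (e - 1) = d - i - 1 := Nat.div_add_mod' _ _
      omega
  | br r =>
    obtain ⟨h1, h2⟩ := h
    have hk1 : 1 ≤ (d - i + r - 1) / (e - 1) := by
      rw [Nat.one_le_div_iff (by omega)]
      omega
    have hlen := mbr_length i j ((d - i + r - 1) / (e - 1)) e r
    have hne : mbr i j ((d - i + r - 1) / (e - 1)) e r ≠ [] := fun h0 => by rw [h0] at hlen; simp at hlen; omega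
    refine ⟨(d - i + r - 1) % (e - 1), mbr i j ((d - i + r - 1) / (e - 1)) e r, range r, rfl, hne, fun A hA => ?_, fun s hs hsS => ?_, ?_⟩
    · unfold mbr at hA
      obtain ⟨t, -, rfl⟩ := List.mem_map.1 hA
      refine ⟨sdiff_subset, ?_⟩
      have hc : (range j \ ((range j).erase i \ (Ico (t * (e - 1)) ((t + 1) * (e - 1)) ∩ range r))) ⊆
          insert i (Ico (t * (e - 1)) ((t + 1) * (e - 1))) := by
        intro s hs
        simp only [mem_sdiff, mem_erase, mem_insert, not_and, not_not] at hs ⊢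
        by_cases h5 : s = i
        · exact Or.inl h5
        · exact Or.inr (mem_of_mem_inter_left (hs.2 ⟨h5, hs.1⟩))
      refine (card_le_card hc).trans ((card_insert_le _ _).trans ?_)
      rw [Nat.card_Ico, Nat.add_mul, one_mul, Nat.add_sub_cancel_left]
      omega
    · rw [mem_inter hne]
      intro A hA
      unfold mbr at hA
      obtain ⟨t, -, rfl⟩ := List.mem_map.1 hA
      exact mem_sdiff.2 ⟨hs, fun h5 => hsS (mem_of_mem_inter_right h5)⟩
    · rw [hlen]
      unfold CT.w trx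
      dsimp only
      have h5 : (d - i + r - 1) / (e - 1) * (e - 1) + (d - i + r - 1) % (e - 1) = d - i + r - 1 := Nat.div_add_mod' _ _
      rw [card_range]
      omega

end Pool.Agent.GD.NM

end

section

/-!
# The windows of the class give the leading coefficients of the numbers of the factors
-/

set_option autoImplicit false

namespace Pool.Agent.GD.NM

open Finset

theorem cc_eq (P : Par) (K : Finset ℕ) : (P.cc K : ℝ) = cp P.c K := by
  unfold Par.cc cp
  push_cast
  rfl

theorem eps_mono {P : Par} {E : ℝ} (h : P.Ok 1 E) {i j : ℕ} (hij : i ≤ j) (hj : j ≤ P.J) :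
    0 < P.eps i ∧ P.eps i ≤ P.eps j ∧ (i < j → P.bet (i + 1) ≤ P.eps j ∧ 0 < P.bet (i + 1)) := by
  have hstep : ∀ a < P.J, P.eps a ≤ P.bet (a + 1) ∧ P.bet (a + 1) ≤ P.eps (a + 1) := fun a ha =>
    ⟨by have := h.eb a ha; rwa [one_mul] at this, by have := h.be a ha; rwa [one_mul] at this⟩
  have hpos : ∀ a ≤ P.J, 0 < P.eps a := by
    intro a
    induction a with
    | zero => exact fun _ => h.eps0
    | succ a ih =>
      intro ha
      have h1 := ih (by omega)
      have h2 := hstep a (by omega)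
      linarith [h2.1, h2.2]
  have hmono : ∀ b, i ≤ b → b ≤ P.J → P.eps i ≤ P.eps b := by
    intro b hb
    induction b, hb using Nat.le_induction with
    | base => exact fun _ => le_rfl
    | succ b hb ih =>
      intro hb1
      have h1 := ih (by omega)
      have h2 := hstep b (by omega)
      linarith [h2.1, h2.2]
  have hmono' : ∀ a b, a ≤ b → b ≤ P.J → P.eps a ≤ P.eps b := by
    intro a b hb
    induction b, hb using Nat.le_induction with
    | base => exact fun _ => le_rfl
    | succ b hb ih =>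
      intro hb1
      have h1 := ih (by omega)
      have h2 := hstep b (by omega)
      linarith [h2.1, h2.2]
  refine ⟨hpos i (by omega), hmono j hij hj, fun hlt => ⟨?_, ?_⟩⟩
  · exact (hstep i (by omega)).2.trans (hmono' _ _ hlt hj)
  · exact (hpos i (by omega)).trans_le (hstep i (by omega)).1

theorem sum_ite_count {α : Type*} [DecidableEq α] (a : α) (ms : Multiset α) :
    (ms.map fun k => if a = k then 1 else 0).sum = ms.count a := by
  induction ms using Multiset.induction_on with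
  | empty => simp
  | cons k ms ih =>
    rw [Multiset.map_cons, Multiset.sum_cons, ih, Multiset.count_cons, add_comm]

section

variable {P : Par} {j n : ℕ} {ms : Multiset Kd}

theorem cls_pts (he : 2 ≤ P.e) (hd : P.e < P.d) (hj : j ≤ P.J) (H : Cls P j n ms) :
    ∀ p ∈ ms.bind Kd.pts, p.2 ⊆ range j ∧ 2 ≤ p.1 ∧ p.1 < P.d ∧ (range j \ p.2).card ≤ p.1 := by
  intro p hp
  obtain ⟨k, hk, hpk⟩ := Multiset.mem_bind.1 hp
  rcases H.mem k hk with ⟨x, A, rfl, h2, h3, h4, h5⟩ | ⟨i, hi, τ, hτ, rfl⟩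
  · unfold Kd.pts at hpk
    dsimp only at hpk
    rw [Multiset.mem_singleton.1 hpk]
    exact ⟨h4, h2, h3, h5⟩
  · obtain ⟨dl', As, V, h1, -, h2, -, -⟩ := kd_data he hj hi hτ
    rw [h1] at hpk
    unfold Kd.pts at hpk
    dsimp only at hpk
    rw [Multiset.mem_coe, List.mem_map] at hpk
    obtain ⟨A, hA, rfl⟩ := hpk
    exact ⟨(h2 A hA).1.trans (erase_subset _ _), he, hd, (h2 A hA).2⟩

theorem cls_gd (he : 2 ≤ P.e) (hj : j ≤ P.J) (H : Cls P j n ms) : ∀ k ∈ ms, Gd k := by
  intro k hk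
  rcases H.mem k hk with ⟨x, A, rfl, -⟩ | ⟨i, hi, τ, hτ, rfl⟩
  · trivial
  · obtain ⟨dl', As, V, h1, -, h2, -, -⟩ := kd_data he hj hi hτ
    rw [h1]
    intro A hA h3
    exact notMem_erase i _ ((h2 A hA).1 h3)

theorem cls_ex (he : 2 ≤ P.e) (hj : j ≤ P.J) (H : Cls P j n ms) : ∀ k ∈ ms, 1 ≤ k.ex := by
  intro k hk
  rcases H.mem k hk with ⟨x, A, rfl, h2, -⟩ | ⟨i, hi, τ, hτ, rfl⟩
  · show 1 ≤ x
    omega
  · obtain ⟨dl', As, V, h1, -⟩ := kd_data he hj hi hτ
    rw [h1]
    show 1 ≤ P.e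
    omega

/-- The points of the main kind are not in clusters. -/
theorem npt_u (he : 2 ≤ P.e) (hj : j ≤ P.J) (H : Cls P j n ms) :
    npt ms P.e (range j) = ms.count (P.u j) := by
  unfold npt
  rw [Multiset.count_bind]
  have h1 : ∀ k ∈ ms, (k.pts.count (P.e, range j)) = if P.u j = k then 1 else 0 := by
    intro k hk
    rcases H.mem k hk with ⟨x, A, rfl, -⟩ | ⟨i, hi, τ, hτ, rfl⟩
    · unfold Kd.pts
      dsimp only
      rw [Multiset.count_singleton]
      unfold Par.u
      by_cases h2 : P.e = x ∧ range j = A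
      · rw [if_pos (by rw [h2.1, h2.2]), if_pos (by rw [h2.1, h2.2])]
      · rw [if_neg fun h => h2 (Prod.mk.inj h), if_neg fun h => h2 (by injection h with h3 h4; exact ⟨h3, h4⟩)]
    · obtain ⟨dl', As, V, h1, -, h2, -, -⟩ := kd_data he hj hi hτ
      rw [h1]
      have h3 : P.u j ≠ .cl P.e dl' i As := by
        unfold Par.u
        exact Kd.noConfusion
      rw [if_neg h3]
      unfold Kd.pts
      dsimp only
      rw [Multiset.count_eq_zero, Multiset.mem_coe, List.mem_map]
      rintro ⟨A, hA, h4⟩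
      have h5 : A = range j := (Prod.mk.inj h4).2
      have h6 := (h2 A hA).1
      rw [h5] at h6
      exact notMem_erase i _ (h6 (mem_range.2 hi))
  rw [Multiset.map_congr rfl h1]
  exact sum_ite_count _ _

/-- The windows of all kinds of points. -/
theorem npt_win (hP : P.Ok 1 1) (hj : j ≤ P.J) (H : Cls P j n ms) {ε : ℝ} (hε : P.eps j ≤ ε)
    (hu : |(ms.count (P.u j) : ℝ) - P.kap P.e * (n : ℝ) ^ P.e| ≤ ε * (n : ℝ) ^ P.e) (x : ℕ) {A : Finset ℕ}
    (hA : A ⊆ range j) :
    |(npt ms x A : ℝ) * (n : ℝ) ^ (range j \ A).card -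
      P.kap x * (x.descFactorial (range j \ A).card : ℕ) * (cp P.c (range j \ A) * (n : ℝ) ^ x)| ≤
      ε * (cp P.c (range j \ A) * (n : ℝ) ^ x) := by
  have he := hP.two
  have hd := hP.lt
  have hn0 : (0 : ℝ) ≤ (n : ℝ) := Nat.cast_nonneg n
  set K := range j \ A with hK
  have hcp : 0 ≤ cp P.c K * (n : ℝ) ^ x := mul_nonneg (cp_nonneg _ _) (pow_nonneg hn0 _)
  have heps : 0 < P.eps j := (eps_mono hP (le_refl j) hj).1
  have hε0 : 0 ≤ ε := heps.le.trans hε
  by_cases hx : 2 ≤ x ∧ x < P.d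
  swap
  · have h1 : npt ms x A = 0 := by
      unfold npt
      rw [Multiset.count_eq_zero]
      intro h2
      have h3 := cls_pts he hd hj H _ h2
      exact hx ⟨h3.2.1, h3.2.2.1⟩
    have h2 : P.kap x = 0 := by
      by_contra h3
      have h4 := hP.supp x h3
      exact hx ⟨h4.1, h4.2.trans_lt hd⟩
    rw [h1, h2, Nat.cast_zero, zero_mul, zero_mul, zero_mul, sub_zero, abs_zero]
    exact mul_nonneg hε0 hcp
  rcases lt_trichotomy K.card x with hlt | heq | hgt
  · by_cases hmain : x ≠ P.e ∨ A ≠ range j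
    · have h1 := H.win x A hx.1 hx.2 hA hlt hmain
      rw [← hK, cc_eq] at h1
      have h3 : (n : ℝ) ^ x = (n : ℝ) ^ (x - K.card) * (n : ℝ) ^ K.card := by
        rw [← pow_add, Nat.sub_add_cancel hlt.le]
      have h4 : 0 ≤ (n : ℝ) ^ K.card := pow_nonneg hn0 _
      rw [h3]
      calc _ = |((npt ms x A : ℝ) - P.nat x K * cp P.c K * (n : ℝ) ^ (x - K.card)) * (n : ℝ) ^ K.card| := by
            congr 1
            unfold Par.nat
            ring
        _ = |(npt ms x A : ℝ) - P.nat x K * cp P.c K * (n : ℝ) ^ (x - K.card)| * (n : ℝ) ^ K.card := by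
            rw [abs_mul, abs_of_nonneg h4]
        _ ≤ P.eps j * cp P.c K * (n : ℝ) ^ (x - K.card) * (n : ℝ) ^ K.card := mul_le_mul_of_nonneg_right h1 h4
        _ = P.eps j * (cp P.c K * ((n : ℝ) ^ (x - K.card) * (n : ℝ) ^ K.card)) := by ring
        _ ≤ _ := mul_le_mul_of_nonneg_right hε (mul_nonneg (cp_nonneg _ _)
            (mul_nonneg (pow_nonneg hn0 _) h4))
    · push Not at hmain
      obtain ⟨hxe, hAe⟩ := hmain
      have hK0 : K = ∅ := by rw [hK, hAe, sdiff_self]; rfl
      subst hxe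
      subst hAe
      rw [npt_u he hj H, hK0, card_empty, pow_zero, Nat.descFactorial_zero]
      unfold cp
      rw [prod_empty]
      simpa using hu
  · have hne : K.Nonempty := card_pos.1 (by omega)
    obtain ⟨i, hi⟩ := max_of_nonempty hne
    have hiK : i ∈ K := mem_of_max hi
    have hij : i < j := mem_range.1 (mem_sdiff.1 hiK).1
    have hKJ : K ⊆ range P.J := fun s hs => mem_range.2 ((mem_range.1 (mem_sdiff.1 hs).1).trans_le hj)
    have hb := (eps_mono hP hij.le hj).2.2 hij
    have h0 := H.zero x A hx.1 hx.2 hA heq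
    rw [← hK] at h0
    have hkey : ∀ r : ℚ, (npt ms x A : ℚ) = r * P.cc K → |(r : ℝ) - P.nat x K| ≤ P.eps j →
        |(npt ms x A : ℝ) * (n : ℝ) ^ K.card - P.kap x * (x.descFactorial K.card : ℕ) * (cp P.c K * (n : ℝ) ^ x)| ≤
          ε * (cp P.c K * (n : ℝ) ^ x) := by
      intro r hr hr'
      have h1 : (npt ms x A : ℝ) = (r : ℝ) * cp P.c K := by
        rw [← cc_eq]
        exact_mod_cast hr
      rw [h1, heq]
      calc _ = |((r : ℝ) - P.nat x K) * (cp P.c K * (n : ℝ) ^ x)| := by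
            congr 1
            unfold Par.nat
            rw [heq]
            ring
        _ = |(r : ℝ) - P.nat x K| * (cp P.c K * (n : ℝ) ^ x) := by rw [abs_mul, abs_of_nonneg hcp]
        _ ≤ ε * (cp P.c K * (n : ℝ) ^ x) := mul_le_mul_of_nonneg_right (hr'.trans hε) hcp
    rcases h0 with h0 | h0
    · refine hkey _ h0 ?_
      have h1 := hP.xp x K hx.1 hKJ heq i hi
      rw [abs_le]
      constructor <;> linarith [h1.1, h1.2, hb.1, hb.2]
    · refine hkey _ h0 ?_
      by_cases hk : P.kap x = 0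
      · rw [hP.xm0 x K hk]
        unfold Par.nat
        rw [hk]
        simpa using heps.le
      · have h1 := hP.xm x K hx.1 hKJ heq i hi hk
        rw [abs_le]
        constructor <;> linarith [h1.1, h1.2, hb.1, hb.2]
  · have h1 : npt ms x A = 0 := by
      unfold npt
      rw [Multiset.count_eq_zero]
      intro h2
      have h3 := cls_pts he hd hj H _ h2
      exact absurd h3.2.2.2 (not_le.2 hgt)
    rw [h1, Nat.descFactorial_of_lt hgt, Nat.cast_zero, zero_mul, mul_zero, zero_mul, sub_zero, abs_zero]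
    exact mul_nonneg hε0 hcp

end

end Pool.Agent.GD.NM

end

section

/-!
# Leading coefficients of the numbers of the factors and of the dimensions
-/

set_option autoImplicit false

namespace Pool.Agent.GD.NM

open Finset

theorem one_le_cp {c : ℕ → ℕ} {S : Finset ℕ} (h : ∀ i ∈ S, 1 ≤ c i) : 1 ≤ cp c S := by
  unfold cp
  calc (1 : ℝ) = ∏ _i ∈ S, (1 : ℝ) := by rw [prod_const_one]
    _ ≤ ∏ i ∈ S, (c i : ℝ) := prod_le_prod (fun _ _ => zero_le_one) fun i hi => by exact_mod_cast h i hi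

theorem cp_mono {c : ℕ → ℕ} {S R : Finset ℕ} (h : ∀ i ∈ R, 1 ≤ c i) (hSR : S ⊆ R) : cp c S ≤ cp c R := by
  rw [← cp_mul hSR]
  have h1 : 1 ≤ cp c (R \ S) := one_le_cp fun i hi => h i (mem_sdiff.1 hi).1
  exact le_mul_of_one_le_right (cp_nonneg _ _) h1

theorem dl_ms (x : ℕ) (ms : Multiset Kd) (S T : Finset ℕ) :
    |dl S (fun U => (((ms.map (ci x U)).sum : ℕ) : ℝ)) T| ≤ (ms.map fun k => |dl S (fun U => (ci x U k : ℝ)) T|).sum := by
  induction ms using Multiset.induction_on with
  | empty =>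
    simp only [Multiset.map_zero, Multiset.sum_zero, Nat.cast_zero]
    unfold dl
    simp
  | cons k ms ih =>
    have h1 : (fun U => ((((k ::ₘ ms).map (ci x U)).sum : ℕ) : ℝ)) =
        fun U => (ci x U k : ℝ) + (((ms.map (ci x U)).sum : ℕ) : ℝ) := by
      funext U
      rw [Multiset.map_cons, Multiset.sum_cons]
      push_cast
      ring
    rw [h1, dl_add, Multiset.map_cons, Multiset.sum_cons]
    exact (abs_add_le _ _).trans (add_le_add_right ih _)

/-- A finite set of types which contains all allowed types. -/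
def allT (d j : ℕ) : Finset CT :=
  ((range (d + 1)) ×ˢ (range j).powerset).image (fun p => CT.pl p.1 p.2) ∪ (range j).powerset.image CT.b0 ∪
    (range (j + 1)).image CT.br

theorem mem_allT {d e i j : ℕ} (hi : i < j) {τ : CT} (h : τ.Ok d e i j) : τ ∈ allT d j := by
  unfold allT
  rw [mem_union, mem_union]
  cases τ with
  | pl k S =>
    left; left
    obtain ⟨-, h2, h3, -⟩ := h
    refine mem_image.2 ⟨(k, S), mem_product.2 ⟨mem_range.2 ?_, mem_powerset.2 fun s hs => ?_⟩, rfl⟩
    · have h4 : (d - i - 1) / (e - 1) ≤ d - i - 1 := Nat.div_le_self _ _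
      show k < d + 1
      omega
    · exact mem_range.2 (mem_Ico.1 (h3 hs)).2
  | b0 S =>
    left; right
    obtain ⟨-, h3, -⟩ := h
    exact mem_image.2 ⟨S, mem_powerset.2 fun s hs => mem_range.2 (mem_Ico.1 (h3 hs)).2, rfl⟩
  | br r =>
    right
    obtain ⟨-, h2⟩ := h
    exact mem_image.2 ⟨r, mem_range.2 (by omega), rfl⟩

section

variable {P : Par} {j n : ℕ} {ms : Multiset Kd}

/-- The clusters do not contribute. -/
theorem cl_small (he : 2 ≤ P.e) (hj : j ≤ P.J) (H : Cls P j n ms) (hn : 1 ≤ n) (x : ℕ) {S T : Finset ℕ}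
    (hS : S ⊆ range j) :
    |dl S (fun U => (((ms.map (ci x U)).sum : ℕ) : ℝ)) T| * (n : ℝ) ^ S.card * n ≤
      (((range j) ×ˢ allT P.d j).card : ℝ) * ((∑ τ ∈ allT P.d j, (τ.mm P : ℝ)) * 2 ^ j) * (n : ℝ) ^ x := by
  classical
  set Mb : ℝ := ∑ τ ∈ allT P.d j, (τ.mm P : ℝ) with hMb
  have hMb0 : 0 ≤ Mb := sum_nonneg fun _ _ => Nat.cast_nonneg _
  have hn1 : (1 : ℝ) ≤ n := by exact_mod_cast hn
  have hn0 : (0 : ℝ) ≤ n := zero_le_one.trans hn1
  set h : Kd → ℝ := fun k => |dl S (fun U => (ci x U k : ℝ)) T| with hh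
  set Ks : Finset Kd := ((range j) ×ˢ allT P.d j).image fun p => p.2.kd P.d P.e p.1 j with hKs
  have h1 : |dl S (fun U => (((ms.map (ci x U)).sum : ℕ) : ℝ)) T| ≤ ∑ k ∈ Ks, (ms.count k : ℝ) * h k := by
    refine (dl_ms x ms S T).trans ?_
    rw [Finset.sum_multiset_map_count]
    have h2 : ∀ k ∈ ms.toFinset, k ∉ Ks → ms.count k • h k = 0 := by
      intro k hk hkK
      rcases H.mem k (Multiset.mem_toFinset.1 hk) with ⟨y, A, rfl, -⟩ | ⟨i, hi, τ, hτ, rfl⟩
      · have h3 : h (.ord y A) = 0 := by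
          rw [hh]
          dsimp only
          unfold ci dl
          simp
        rw [h3, smul_zero]
      · exact absurd (mem_image.2 ⟨(i, τ), mem_product.2 ⟨mem_range.2 hi, mem_allT hi hτ⟩, rfl⟩) hkK
    rw [← Finset.sum_filter_add_sum_filter_not ms.toFinset (fun k => k ∈ Ks)]
    have h4 : ∑ k ∈ ms.toFinset with k ∉ Ks, ms.count k • h k = 0 :=
      sum_eq_zero fun k hk => h2 k (mem_filter.1 hk).1 (mem_filter.1 hk).2
    rw [h4, add_zero]
    have h5 : ∑ k ∈ ms.toFinset with k ∈ Ks, ms.count k • h k = ∑ k ∈ ms.toFinset with k ∈ Ks, (ms.count k : ℝ) * h k :=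
      sum_congr rfl fun k _ => by rw [nsmul_eq_mul]
    rw [h5]
    refine sum_le_sum_of_subset_of_nonneg (fun k hk => (mem_filter.1 hk).2) fun k _ _ => ?_
    exact mul_nonneg (Nat.cast_nonneg _) (abs_nonneg _)
  have h6 : ∀ k ∈ Ks, (ms.count k : ℝ) * h k * (n : ℝ) ^ S.card * n ≤ Mb * 2 ^ j * (n : ℝ) ^ x := by
    intro k hk
    by_cases hkm : k ∈ ms
    swap
    · rw [Multiset.count_eq_zero_of_notMem hkm, Nat.cast_zero, zero_mul, zero_mul, zero_mul]
      positivity
    rcases H.mem k hkm with ⟨y, A, rfl, -⟩ | ⟨i, hi, τ, hτ, rfl⟩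
    · have h3 : h (.ord y A) = 0 := by
        rw [hh]
        dsimp only
        unfold ci dl
        simp
      rw [h3, mul_zero, zero_mul, zero_mul]
      positivity
    · obtain ⟨dl', As, V, e1, hne, e2, e3, e4⟩ := kd_data he hj hi hτ
      have hcnt := H.cnt i hi τ hτ
      have hmm : (τ.mm P : ℝ) ≤ Mb := single_le_sum (f := fun τ : CT => (τ.mm P : ℝ)) (fun _ _ => Nat.cast_nonneg _) (mem_allT hi hτ)
      rcases dl_ci x P.e dl' i As S T with h7 | ⟨h7, h8⟩
      · have h9 : h (τ.kd P.d P.e i j) = 0 := by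
          rw [hh, e1]
          dsimp only
          rw [h7, abs_zero]
        rw [h9, mul_zero, zero_mul, zero_mul]
        positivity
      · have hSV : S ⊆ insert i V := by
          intro s hs
          rw [mem_insert]
          by_contra h10
          push Not at h10
          have h11 : s ∈ (range j).erase i := mem_erase.2 ⟨h10.1, hS hs⟩
          have h12 : s ∈ S.erase i ∩ inter As := Finset.mem_inter.2 ⟨mem_erase.2 ⟨h10.1, hs⟩, e3 s h11 h10.2⟩
          rw [h8] at h12
          exact notMem_empty s h12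
        have hScard : S.card ≤ V.card + 1 := (card_le_card hSV).trans (card_insert_le i V)
        have hSj : S.card ≤ j := by simpa using card_le_card hS
        have hx : τ.w P.e + S.card + 1 ≤ x := by omega
        have h9 : h (τ.kd P.d P.e i j) ≤ 2 ^ j := (abs_dl_ci x _ S T).trans (pow_le_pow_right₀ one_le_two hSj)
        have h10 : (ms.count (τ.kd P.d P.e i j) : ℝ) ≤ Mb * (n : ℝ) ^ τ.w P.e := by
          have h11 : (ms.count (τ.kd P.d P.e i j) : ℝ) ≤ (τ.mm P : ℝ) * (n : ℝ) ^ τ.w P.e := by exact_mod_cast hcnt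
          exact h11.trans (mul_le_mul_of_nonneg_right hmm (pow_nonneg hn0 _))
        have h12 : (n : ℝ) ^ τ.w P.e * (n : ℝ) ^ S.card * n ≤ (n : ℝ) ^ x := by
          rw [← pow_add, ← pow_succ]
          exact pow_le_pow_right₀ hn1 hx
        calc (ms.count (τ.kd P.d P.e i j) : ℝ) * h (τ.kd P.d P.e i j) * (n : ℝ) ^ S.card * n ≤
              Mb * (n : ℝ) ^ τ.w P.e * 2 ^ j * (n : ℝ) ^ S.card * n := by
              refine mul_le_mul_of_nonneg_right (mul_le_mul_of_nonneg_right ?_ (pow_nonneg hn0 _)) hn0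
              exact mul_le_mul h10 h9 (abs_nonneg _) (mul_nonneg hMb0 (pow_nonneg hn0 _))
          _ = Mb * 2 ^ j * ((n : ℝ) ^ τ.w P.e * (n : ℝ) ^ S.card * n) := by ring
          _ ≤ _ := mul_le_mul_of_nonneg_left h12 (by positivity)
  calc _ ≤ (∑ k ∈ Ks, (ms.count k : ℝ) * h k) * (n : ℝ) ^ S.card * n :=
        mul_le_mul_of_nonneg_right (mul_le_mul_of_nonneg_right h1 (pow_nonneg hn0 _)) hn0
    _ = ∑ k ∈ Ks, (ms.count k : ℝ) * h k * (n : ℝ) ^ S.card * n := by
        rw [sum_mul, sum_mul]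
    _ ≤ ∑ _k ∈ Ks, Mb * 2 ^ j * (n : ℝ) ^ x := sum_le_sum h6
    _ = (Ks.card : ℝ) * (Mb * 2 ^ j * (n : ℝ) ^ x) := by rw [sum_const, nsmul_eq_mul]
    _ ≤ (((range j) ×ˢ allT P.d j).card : ℝ) * (Mb * 2 ^ j * (n : ℝ) ^ x) := by
        refine mul_le_mul_of_nonneg_right ?_ (by positivity)
        exact_mod_cast card_image_le
    _ = _ := by ring

/-- Leading coefficients of the numbers of the factors. -/
theorem Lw_M {d : ℕ} (hP : P.Ok 1 1) (hd' : P.d = d) (hc : ∀ i < P.J, 1 ≤ P.c i) (hj : j ≤ P.J) {ε : ℝ} (hε : P.eps j ≤ ε) (hε1 : ε ≤ 1) :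
    ∃ n₀ : ℕ, ∀ n, n₀ ≤ n → ∀ ms, Cls P j n ms →
      |(ms.count (P.u j) : ℝ) - P.kap P.e * (n : ℝ) ^ P.e| ≤ ε * (n : ℝ) ^ P.e → ∀ x ≤ d,
        Lw (range j) P.c n x (fun s => P.kap x * (x.descFactorial s : ℕ)) (3 * ε) fun T => (((exm ms T).count x : ℕ) : ℝ) := by
  have he := hP.two
  have hd := hP.lt
  have heps : 0 < P.eps j := (eps_mono hP (le_refl j) hj).1
  have hε0 : 0 < ε := heps.trans_le hε
  have hcj : ∀ i ∈ range j, 1 ≤ P.c i := fun i hi => hc i ((mem_range.1 hi).trans_le hj)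
  obtain ⟨B, hB0, hB⟩ : ∃ B : ℝ, 0 ≤ B ∧ ∀ x ≤ d, P.kap x ≤ B := by
    refine ⟨∑ x ∈ range (d + 1), P.kap x, sum_nonneg fun x _ => hP.nonneg x, fun x hx => ?_⟩
    exact single_le_sum (f := P.kap) (fun y _ => hP.nonneg y) (mem_range.2 (by omega))
  set Q1 : ℝ := (((range j) ×ˢ allT P.d j).card : ℝ) * ((∑ τ ∈ allT P.d j, (τ.mm P : ℝ)) * 2 ^ j) with hQ1
  have hQ10 : 0 ≤ Q1 := by
    have : 0 ≤ ∑ τ ∈ allT P.d j, (τ.mm P : ℝ) := sum_nonneg fun _ _ => Nat.cast_nonneg _
    positivity
  set Q2 : ℝ := 2 ^ j * ((B * d.factorial + 1) * cp P.c (range j)) with hQ2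
  have hQ20 : 0 ≤ Q2 := by
    have : 0 ≤ cp P.c (range j) := cp_nonneg _ _
    positivity
  obtain ⟨n₀, hn₀⟩ := exists_nat_ge (max 1 (max (Q1 / ε) (Q2 / ε)))
  refine ⟨n₀, fun n hn ms H hu x hx => ?_⟩
  have hnr : max 1 (max (Q1 / ε) (Q2 / ε)) ≤ (n : ℝ) := hn₀.trans (by exact_mod_cast hn)
  have hn1 : (1 : ℝ) ≤ n := (le_max_left _ _).trans hnr
  have hn1' : 1 ≤ n := by exact_mod_cast hn1
  have hn0 : (0 : ℝ) < n := zero_lt_one.trans_le hn1
  have hq1 : Q1 ≤ ε * n := by
    have := ((le_max_left _ _).trans (le_max_right _ _)).trans hnr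
    rw [div_le_iff₀ hε0] at this
    linarith
  have hq2 : Q2 ≤ ε * n := by
    have := ((le_max_right _ _).trans (le_max_right _ _)).trans hnr
    rw [div_le_iff₀ hε0] at this
    linarith
  intro S T hS hT hST
  have hcpS : 1 ≤ cp P.c S := one_le_cp fun i hi => hcj i (hS hi)
  have hnx : 0 ≤ (n : ℝ) ^ x := pow_nonneg hn0.le _
  have hfun : (fun T => (((exm ms T).count x : ℕ) : ℝ)) = fun T =>
      ((((ms.bind Kd.pts).countP (fun p => p.1 = x ∧ T ⊆ p.2) : ℕ) : ℝ)) + (((ms.map (ci x T)).sum : ℕ) : ℝ) := by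
    funext T
    rw [count_exm x T ms (cls_gd he hj H)]
    push_cast
    rfl
  rw [hfun, dl_add, dl_countP]
  -- the clusters
  have hcl : |dl S (fun U => (((ms.map (ci x U)).sum : ℕ) : ℝ)) T| * (n : ℝ) ^ S.card ≤ ε * (cp P.c S * (n : ℝ) ^ x) := by
    have h1 := cl_small he hj H hn1' x (T := T) hS
    rw [← hQ1] at h1
    have h2 : |dl S (fun U => (((ms.map (ci x U)).sum : ℕ) : ℝ)) T| * (n : ℝ) ^ S.card * n ≤ ε * (n : ℝ) ^ x * n := by
      refine h1.trans ?_
      calc Q1 * (n : ℝ) ^ x ≤ ε * n * (n : ℝ) ^ x := mul_le_mul_of_nonneg_right hq1 hnx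
        _ = _ := by ring
    have h3 := le_of_mul_le_mul_right h2 hn0
    refine h3.trans (mul_le_mul_of_nonneg_left ?_ hε0.le)
    exact le_mul_of_one_le_left hnx hcpS
  -- the points
  have hpts : |(((ms.bind Kd.pts).countP (fun p => p.1 = x ∧ T ⊆ p.2 ∧ Disjoint S p.2) : ℕ) : ℝ) * (n : ℝ) ^ S.card -
      P.kap x * (x.descFactorial S.card : ℕ) * (cp P.c S * (n : ℝ) ^ x)| ≤ 2 * ε * (cp P.c S * (n : ℝ) ^ x) := by
    rw [countP_eq_sum (ms.bind Kd.pts) x (range j) (fun A => T ⊆ A ∧ Disjoint S A) fun p hp =>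
      (cls_pts he hd hj H p hp).1]
    set F := (range j).powerset.filter (fun A => T ⊆ A ∧ Disjoint S A) with hF
    have hA0 : range j \ S ∈ F := by
      rw [hF, mem_filter, mem_powerset]
      exact ⟨sdiff_subset, subset_sdiff.2 ⟨hT, hST.symm⟩, disjoint_sdiff⟩
    have hK0 : range j \ (range j \ S) = S := by rw [_root_.sdiff_sdiff_eq_self hS]
    rw [← Finset.add_sum_erase F (fun A => (ms.bind Kd.pts).count (x, A)) hA0]
    have h1 := npt_win hP hj H hε hu x (A := range j \ S) sdiff_subset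
    rw [hK0] at h1
    have h2 : ∀ A ∈ F.erase (range j \ S), (npt ms x A : ℝ) * (n : ℝ) ^ S.card * n ≤
        (B * d.factorial + 1) * cp P.c (range j) * (n : ℝ) ^ x := by
      intro A hA
      rw [mem_erase, hF, mem_filter, mem_powerset] at hA
      obtain ⟨hA1, hA2, hA3, hA4⟩ := hA
      have hSK : S ⊂ range j \ A := by
        refine ssubset_of_subset_of_ne (subset_sdiff.2 ⟨hS, hA4⟩) fun h3 => hA1 ?_
        rw [h3, _root_.sdiff_sdiff_eq_self hA2]
      have hcard : S.card + 1 ≤ (range j \ A).card := card_lt_card hSK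
      have h3 := npt_win hP hj H hε hu x hA2
      have h4 := (abs_le.1 h3).2
      have hcpK : cp P.c (range j \ A) ≤ cp P.c (range j) := cp_mono hcj sdiff_subset
      have hcpK0 : 0 ≤ cp P.c (range j \ A) := cp_nonneg _ _
      have h5 : P.kap x * (x.descFactorial (range j \ A).card : ℕ) ≤ B * d.factorial :=
        mul_le_mul (hB x hx) (desc_le' hx _) (Nat.cast_nonneg _) hB0
      have h6 : (npt ms x A : ℝ) * (n : ℝ) ^ S.card * n ≤ (npt ms x A : ℝ) * (n : ℝ) ^ (range j \ A).card := by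
        rw [mul_assoc, ← pow_succ]
        exact mul_le_mul_of_nonneg_left (pow_le_pow_right₀ hn1 hcard) (Nat.cast_nonneg _)
      refine h6.trans ?_
      have h7 : (npt ms x A : ℝ) * (n : ℝ) ^ (range j \ A).card ≤
          (P.kap x * (x.descFactorial (range j \ A).card : ℕ) + ε) * (cp P.c (range j \ A) * (n : ℝ) ^ x) := by
        rw [add_mul]
        linarith
      refine h7.trans ?_
      rw [mul_assoc (B * (d.factorial : ℝ) + 1)]
      exact mul_le_mul (add_le_add h5 hε1) (mul_le_mul_of_nonneg_right hcpK hnx)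
        (mul_nonneg hcpK0 hnx) (by positivity)
    have h3 : (∑ A ∈ F.erase (range j \ S), ((npt ms x A : ℕ) : ℝ)) * (n : ℝ) ^ S.card ≤ ε * (cp P.c S * (n : ℝ) ^ x) := by
      have h4 : (∑ A ∈ F.erase (range j \ S), ((npt ms x A : ℕ) : ℝ)) * (n : ℝ) ^ S.card * n ≤ ε * (n : ℝ) ^ x * n := by
        rw [sum_mul, sum_mul]
        calc _ ≤ ∑ _A ∈ F.erase (range j \ S), (B * d.factorial + 1) * cp P.c (range j) * (n : ℝ) ^ x := sum_le_sum h2
          _ = ((F.erase (range j \ S)).card : ℝ) * ((B * d.factorial + 1) * cp P.c (range j) * (n : ℝ) ^ x) := by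
              rw [sum_const, nsmul_eq_mul]
          _ ≤ 2 ^ j * ((B * d.factorial + 1) * cp P.c (range j) * (n : ℝ) ^ x) := by
              refine mul_le_mul_of_nonneg_right ?_ (by have := cp_nonneg P.c (range j); positivity)
              have h5 : (F.erase (range j \ S)).card ≤ 2 ^ j := by
                refine (card_le_card (erase_subset _ _)).trans ((card_filter_le _ _).trans ?_)
                rw [card_powerset, card_range]
              exact_mod_cast h5
          _ = Q2 * (n : ℝ) ^ x := by rw [hQ2]; ring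
          _ ≤ ε * n * (n : ℝ) ^ x := mul_le_mul_of_nonneg_right hq2 hnx
          _ = _ := by ring
      refine (le_of_mul_le_mul_right h4 hn0).trans (mul_le_mul_of_nonneg_left ?_ hε0.le)
      exact le_mul_of_one_le_left hnx hcpS
    have h8 : 0 ≤ (∑ A ∈ F.erase (range j \ S), ((npt ms x A : ℕ) : ℝ)) * (n : ℝ) ^ S.card :=
      mul_nonneg (sum_nonneg fun _ _ => Nat.cast_nonneg _) (pow_nonneg hn0.le _)
    have h9 : ((((ms.bind Kd.pts).count (x, range j \ S) + ∑ A ∈ F.erase (range j \ S), (ms.bind Kd.pts).count (x, A) : ℕ)) : ℝ) *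
        (n : ℝ) ^ S.card = (npt ms x (range j \ S) : ℝ) * (n : ℝ) ^ S.card +
          (∑ A ∈ F.erase (range j \ S), ((npt ms x A : ℕ) : ℝ)) * (n : ℝ) ^ S.card := by
      unfold npt
      push_cast
      ring
    rw [h9]
    rw [abs_le] at h1 ⊢
    constructor <;> nlinarith [h1.1, h1.2]
  calc _ = |((((ms.bind Kd.pts).countP (fun p => p.1 = x ∧ T ⊆ p.2 ∧ Disjoint S p.2) : ℕ) : ℝ) * (n : ℝ) ^ S.card -
        P.kap x * (x.descFactorial S.card : ℕ) * (cp P.c S * (n : ℝ) ^ x)) +
        dl S (fun U => (((ms.map (ci x U)).sum : ℕ) : ℝ)) T * (n : ℝ) ^ S.card| := by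
        congr 1
        ring
    _ ≤ 2 * ε * (cp P.c S * (n : ℝ) ^ x) + ε * (cp P.c S * (n : ℝ) ^ x) := by
        refine (abs_add_le _ _).trans (add_le_add hpts ?_)
        rw [abs_mul, abs_of_nonneg (pow_nonneg hn0.le S.card)]
        exact hcl
    _ = _ := by ring

end

end Pool.Agent.GD.NM

end

section

/-!
# General d, numerical block: asymptotics of the virtual dimensions

`vd D I` is the mixed difference (over the blocks of `I`) of the coefficient of `t^D` in
`∏ (1 - t^x) / (1 - t)^N`, as a function of the set of the blocks `T` (`GD/NM/Eul`).  These coefficients satisfy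
the Euler relation with the coefficients `N - ∑_{x ∣ l} x M_x`, `M_x` the number of the factors `1 - t^x`.  The class
`Lw` (`GD/NM/Cal`) records the leading coefficients of all mixed differences; it is closed under sums and products;
the windows of the class give the leading coefficients of `M_x` (`GD/NM/VaM`), the Euler relation those of the
coefficients (`GD/NM/Abs`).
-/

set_option autoImplicit false

namespace Pool.Agent.GD

open Finset

theorem Par.Ok.mono {P : Par} {Cs Cs' E E' : ℝ} (h : P.Ok Cs E) (h1 : Cs' ≤ Cs) (hC : 0 ≤ Cs') (h2 : E ≤ E') :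
    P.Ok Cs' E' := by
  have hCs : 0 ≤ Cs := hC.trans h1
  have hpos : ∀ a, (a ≤ P.J → 0 ≤ P.eps a) ∧ (a < P.J → 0 ≤ P.bet (a + 1)) := by
    intro a
    induction a with
    | zero => exact ⟨fun _ => h.eps0.le, fun h3 => (mul_nonneg hCs h.eps0.le).trans (h.eb 0 h3)⟩
    | succ a ih =>
      have h4 : a + 1 ≤ P.J → 0 ≤ P.eps (a + 1) := fun h3 =>
        (mul_nonneg hCs (ih.2 (by omega))).trans (h.be a (by omega))
      exact ⟨h4, fun h3 => (mul_nonneg hCs (h4 h3.le)).trans (h.eb (a + 1) h3)⟩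
  exact
    { toCrit := h.toCrit
      eps0 := h.eps0
      eb := fun j hj => (mul_le_mul_of_nonneg_right h1 ((hpos j).1 hj.le)).trans (h.eb j hj)
      be := fun j hj => (mul_le_mul_of_nonneg_right h1 ((hpos j).2 hj)).trans (h.be j hj)
      epsJ := h.epsJ.trans h2
      xp := h.xp
      xm := h.xm
      xm0 := h.xm0 }

/-- The windows increase. -/
theorem Par.Ok.eps_mono {P : Par} {E : ℝ} (h : P.Ok 1 E) {i j : ℕ} (hij : i ≤ j) (hj : j ≤ P.J) :
    0 < P.eps i ∧ P.eps i ≤ P.eps j ∧ (i < j → P.bet (i + 1) ≤ P.eps j ∧ 0 < P.bet (i + 1)) :=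
  NM.eps_mono h hij hj

/-- The members of a cluster vanish only on other blocks than its own one. -/
theorem kd_sub {d e i j : ℕ} (τ : CT) : ∀ p ∈ (τ.kd d e i j).pts, p.2 ⊆ (range j).erase i := by
  intro p hp
  cases τ with
  | pl k S =>
    unfold CT.kd Kd.pts at hp
    dsimp only at hp
    rw [Multiset.mem_coe, List.mem_map] at hp
    obtain ⟨A, hA, rfl⟩ := hp
    rcases NM.mem_mbs hA with rfl | rfl
    · exact Subset.rfl
    · exact sdiff_subset
  | b0 S =>
    unfold CT.kd Kd.pts at hp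
    dsimp only at hp
    rw [Multiset.mem_coe, List.mem_map] at hp
    obtain ⟨A, hA, rfl⟩ := hp
    rcases NM.mem_mbs hA with rfl | rfl
    · exact Subset.rfl
    · exact sdiff_subset
  | br r =>
    unfold CT.kd Kd.pts at hp
    dsimp only at hp
    rw [Multiset.mem_coe, List.mem_map] at hp
    obtain ⟨A, hA, rfl⟩ := hp
    unfold mbr at hA
    obtain ⟨t, -, rfl⟩ := List.mem_map.1 hA
    exact sdiff_subset

/-- The points of the main kind are not in clusters. -/
theorem npt_u {P : Par} {j n : ℕ} {ms : Multiset Kd} (h : Cls P j n ms) :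
    npt ms P.e (range j) = ms.count (P.u j) := by
  unfold npt
  rw [Multiset.count_bind]
  have h1 : ∀ k ∈ ms, (k.pts.count (P.e, range j)) = if P.u j = k then 1 else 0 := by
    intro k hk
    rcases h.mem k hk with ⟨x, A, rfl, -⟩ | ⟨i, hi, τ, hτ, rfl⟩
    · unfold Kd.pts
      dsimp only
      rw [Multiset.count_singleton]
      unfold Par.u
      by_cases h2 : P.e = x ∧ range j = A
      · rw [if_pos (by rw [h2.1, h2.2]), if_pos (by rw [h2.1, h2.2])]
      · rw [if_neg fun h => h2 (Prod.mk.inj h), if_neg fun h => h2 (by injection h with h3 h4; exact ⟨h3, h4⟩)]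
    · have h3 : P.u j ≠ τ.kd P.d P.e i j := by
        unfold Par.u
        cases τ <;> exact Kd.noConfusion
      rw [if_neg h3, Multiset.count_eq_zero]
      intro h4
      have h5 := kd_sub τ _ h4
      exact notMem_erase i _ (h5 (mem_range.2 hi))
  rw [Multiset.map_congr rfl h1]
  exact NM.sum_ite_count _ _

namespace NM

theorem Lw_N {I : Finset ℕ} {c : ℕ → ℕ} {n : ℕ} {ε : ℝ} (h : ∑ i ∈ I, c i ≤ n)
    (h' : ((∑ i ∈ I, c i : ℕ) : ℝ) ≤ ε * n) (hε : 0 ≤ ε) :
    Lw I c n 1 (fun s => (1 : ℝ) * ((1 : ℕ).descFactorial s : ℕ)) ε fun T => ((n - ∑ i ∈ T, c i : ℕ) : ℝ) := by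
  intro S T hS hT hST
  beta_reduce
  have hcast : ∀ U ⊆ I, ((n - ∑ i ∈ U, c i : ℕ) : ℝ) = (n : ℝ) - ∑ i ∈ U, (c i : ℝ) := by
    intro U hU
    rw [Nat.cast_sub ((sum_le_sum_of_subset hU).trans h)]
    push_cast
    rfl
  rw [dl_congr (g := fun U => (n : ℝ) - ∑ i ∈ U, (c i : ℝ)) fun U hU => hcast _ (union_subset hT (hU.trans hS))]
  rcases S.eq_empty_or_nonempty with h1 | ⟨i, hi⟩
  · subst h1
    rw [dl_empty, card_empty, pow_zero, mul_one, Nat.descFactorial_zero, Nat.cast_one, mul_one, one_mul]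
    unfold cp
    rw [prod_empty, one_mul, pow_one]
    have h2 : (n : ℝ) - ∑ i ∈ T, (c i : ℝ) - n = -∑ i ∈ T, (c i : ℝ) := by ring
    rw [h2, abs_neg, abs_of_nonneg (sum_nonneg fun _ _ => Nat.cast_nonneg _)]
    refine le_trans ?_ h'
    push_cast
    exact sum_le_sum_of_subset_of_nonneg hT fun _ _ _ => Nat.cast_nonneg _
  · have hiT : i ∉ T := fun h2 => disjoint_left.1 hST hi h2
    have h2 : dl S (fun U => (n : ℝ) - ∑ i ∈ U, (c i : ℝ)) T = dl (S.erase i) (fun _ => (c i : ℝ)) T := by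
      conv_lhs => rw [← insert_erase hi]
      rw [dl_insert (notMem_erase i S)]
      unfold dl
      rw [← sum_sub_distrib]
      refine sum_congr rfl fun U hU => ?_
      have h3 : i ∉ T ∪ U := by
        rw [mem_union, not_or]
        exact ⟨hiT, fun h4 => notMem_erase i S (mem_powerset.1 hU h4)⟩
      rw [insert_union]
      beta_reduce
      rw [sum_insert h3]
      ring
    rw [h2]
    rcases (S.erase i).eq_empty_or_nonempty with h3 | h3
    · have h4 : S = {i} := by rw [← insert_erase hi, h3]; rfl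
      rw [h3, dl_empty, h4, card_singleton, pow_one]
      unfold cp
      rw [prod_singleton]
      have h5 : (c i : ℝ) * n - 1 * ((Nat.descFactorial 1 1 : ℕ) : ℝ) * (c i * n) = 0 := by
        simp
      rw [h5, abs_zero]
      positivity
    · rw [dl_const h3, zero_mul, zero_sub, abs_neg]
      have h4 : 1 < S.card := by
        have h5 := card_pos.2 h3
        rw [card_erase_of_mem hi] at h5
        omega
      have h5 : Nat.descFactorial 1 S.card = 0 := Nat.descFactorial_of_lt h4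
      rw [h5]
      have h6 := cp_nonneg c S
      simp only [Nat.cast_zero, mul_zero, zero_mul, abs_zero]
      positivity

/-- The coefficients of the recursion for the numbers `gg`. -/
noncomputable def be (kap : ℕ → ℝ) (l : ℕ) : ℝ := (if l = 1 then 1 else 0) - l * kap l

theorem gg_rec (kap : ℕ → ℝ) (h1 : kap 1 = 0) (D : ℕ) :
    ((D : ℝ) + 1) * gg kap (D + 1) = ∑ l ∈ range (D + 1), be kap (l + 1) * gg kap (D - l) := by
  have hD : ((D : ℝ) + 1) ≠ 0 := by positivity
  rw [gg, mul_div_cancel₀ _ hD]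
  have h2 : ∑ l ∈ range (D + 1), be kap (l + 1) * gg kap (D - l) =
      gg kap D - ∑ l ∈ range (D + 1), ((l + 1 : ℕ) : ℝ) * kap (l + 1) * gg kap (D - l) := by
    have h3 : ∀ l ∈ range (D + 1), be kap (l + 1) * gg kap (D - l) =
        (if l = 0 then gg kap (D - l) else 0) - ((l + 1 : ℕ) : ℝ) * kap (l + 1) * gg kap (D - l) := by
      intro l _
      unfold be
      by_cases h4 : l = 0
      · subst h4
        simp
        ring
      · rw [if_neg (by omega), if_neg h4]
        ring
    rw [sum_congr rfl h3, sum_sub_distrib, Finset.sum_ite_eq' (range (D + 1)) 0 fun l => gg kap (D - l), if_pos (mem_range.2 (by omega)),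
      Nat.sub_zero]
  rw [h2, sum_range_succ']
  have h5 : ((0 + 1 : ℕ) : ℝ) * kap (0 + 1) * gg kap (D - 0) = 0 := by rw [zero_add, h1, mul_zero, zero_mul]
  rw [h5, add_zero, Fin.sum_univ_eq_sum_range (fun x => ((D + 1 - x : ℕ) : ℝ) * kap (D + 1 - x) * gg kap x) D,
    ← Finset.sum_range_reflect]
  congr 1
  refine sum_congr rfl fun l hl => ?_
  have h6 := mem_range.1 hl
  have h7 : D + 1 - (D - 1 - l) = l + 1 + 1 := by omega
  have h8 : D - 1 - l = D - (l + 1) := by omega
  rw [h7, h8]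

/-- The leading coefficients of the coefficients of the Euler relation. -/
theorem Lw_b {P : Par} {d : ℕ} (hP : P.Ok 1 1) (hd' : P.d = d) (hc : ∀ i < P.J, 1 ≤ P.c i) {j : ℕ} (hj : j ≤ P.J)
    {ε : ℝ} (hε : P.eps j ≤ ε) (hε1 : ε ≤ 1) :
    ∃ n₀ : ℕ, ∀ n, n₀ ≤ n → ∀ ms, Cls P j n ms →
      |(ms.count (P.u j) : ℝ) - P.kap P.e * (n : ℝ) ^ P.e| ≤ ε * (n : ℝ) ^ P.e → ∀ l, 1 ≤ l → l ≤ d →
        Lw (range j) P.c n l (fun s => be P.kap l * (l.descFactorial s : ℕ)) ((3 * d * d + 1) * ε)
          fun T => ((bl (n - ∑ i ∈ T, P.c i) (exm ms T) l : ℤ) : ℝ) := by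
  have heps : 0 < P.eps j := (eps_mono hP (le_refl j) hj).1
  have hε0 : 0 < ε := heps.trans_le hε
  obtain ⟨n₁, hn₁⟩ := Lw_M hP hd' hc hj hε hε1
  obtain ⟨B, hB0, hB⟩ : ∃ B : ℝ, 0 ≤ B ∧ ∀ x ≤ d, P.kap x ≤ B := by
    refine ⟨∑ x ∈ range (d + 1), P.kap x, sum_nonneg fun x _ => hP.nonneg x, fun x hx => ?_⟩
    exact single_le_sum (f := P.kap) (fun y _ => hP.nonneg y) (mem_range.2 (by omega))
  obtain ⟨n₂, hn₂⟩ := exists_nat_ge (max (((∑ i ∈ range j, P.c i : ℕ) : ℝ) / ε) ((B * d.factorial + 3) / ε))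
  refine ⟨max (max n₁ n₂) (max 1 (∑ i ∈ range j, P.c i)), fun n hn ms H hu l hl hld => ?_⟩
  have hn1 : n₁ ≤ n := ((le_max_left _ _).trans (le_max_left _ _)).trans hn
  have hn2 : n₂ ≤ n := ((le_max_right _ _).trans (le_max_left _ _)).trans hn
  have hn3 : 1 ≤ n := ((le_max_left _ _).trans (le_max_right _ _)).trans hn
  have hn4 : ∑ i ∈ range j, P.c i ≤ n := ((le_max_right _ _).trans (le_max_right _ _)).trans hn
  have hnr : max (((∑ i ∈ range j, P.c i : ℕ) : ℝ) / ε) ((B * d.factorial + 3) / ε) ≤ n := hn₂.trans (by exact_mod_cast hn2)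
  have hq1 : ((∑ i ∈ range j, P.c i : ℕ) : ℝ) ≤ ε * n := by
    have := (le_max_left _ _).trans hnr
    rw [div_le_iff₀ hε0] at this
    linarith
  have hq2 : B * d.factorial + 3 ≤ ε * n := by
    have := (le_max_right _ _).trans hnr
    rw [div_le_iff₀ hε0] at this
    linarith
  have hM := hn₁ n hn1 ms H hu
  have hN := Lw_N hn4 hq1 hε0.le
  have hBd : 0 ≤ B * d.factorial := by positivity
  have hNl : Lw (range j) P.c n l (fun s => (if l = 1 then 1 else 0) * (l.descFactorial s : ℕ)) ε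
      fun T => ((n - ∑ i ∈ T, P.c i : ℕ) : ℝ) := by
    by_cases h1 : l = 1
    · subst h1
      refine hN.congr (fun _ _ => rfl) fun s _ => ?_
      rw [if_pos rfl]
    · refine (hN.up (w' := l) (by omega) hε0.le hn3 (A := B * d.factorial + 3) (fun s _ => ?_) hq2).congr
        (fun _ _ => rfl) fun s _ => ?_
      · have h2 : ((Nat.descFactorial 1 s : ℕ) : ℝ) ≤ 1 := by
          exact_mod_cast (desc_le 1 s).trans (by simp)
        have h3 : (0 : ℝ) ≤ ((Nat.descFactorial 1 s : ℕ) : ℝ) := Nat.cast_nonneg _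
        rw [one_mul, abs_of_nonneg h3]
        linarith
      · rw [if_neg h1, zero_mul]
  have hMl : ∀ x ∈ l.divisors, Lw (range j) P.c n l (fun s => if x = l then -(l * P.kap l * (l.descFactorial s : ℕ)) else 0)
      (3 * d * ε) fun T => -(x : ℝ) * (((exm ms T).count x : ℕ) : ℝ) := by
    intro x hx
    have hxl : x ≤ l := Nat.divisor_le hx
    have hxd : x ≤ d := hxl.trans hld
    have hxr : (x : ℝ) ≤ d := by exact_mod_cast hxd
    by_cases h1 : x = l
    · subst h1
      refine (((hM x hxd).smul (-(x : ℝ))).congr (fun _ _ => rfl) fun s _ => ?_).mono ?_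
      · rw [if_pos rfl]
        ring
      · rw [abs_neg, Nat.abs_cast]
        calc (x : ℝ) * (3 * ε) ≤ d * (3 * ε) := mul_le_mul_of_nonneg_right hxr (by positivity)
          _ = _ := by ring
    · have h2 : x < l := lt_of_le_of_ne hxl h1
      have h3 := (hM x hxd).up h2 hε0.le hn3 (A := B * d.factorial + 3) (fun s _ => by
        have h4 : 0 ≤ P.kap x * (x.descFactorial s : ℕ) := mul_nonneg (hP.nonneg x) (Nat.cast_nonneg _)
        rw [abs_of_nonneg h4]
        have h5 : P.kap x * (x.descFactorial s : ℕ) ≤ B * d.factorial :=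
          mul_le_mul (hB x hxd) (desc_le' hxd s) (Nat.cast_nonneg _) hB0
        linarith) hq2
      refine ((h3.smul (-(x : ℝ))).congr (fun _ _ => rfl) fun s _ => ?_).mono ?_
      · rw [if_neg h1, mul_zero]
      · rw [abs_neg, Nat.abs_cast]
        have hd0 : (0 : ℝ) ≤ d := Nat.cast_nonneg _
        nlinarith
  have hsum := hNl.add (Lw.sum l.divisors hMl)
  refine (hsum.congr (fun T _ => ?_) fun s _ => ?_).mono ?_
  · unfold bl
    push_cast
    rw [sub_eq_add_neg, ← sum_neg_distrib]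
    congr 1
    exact sum_congr rfl fun x _ => by ring
  · have h1 : ∑ x ∈ l.divisors, (if x = l then -(l * P.kap l * (l.descFactorial s : ℕ)) else (0 : ℝ)) =
        -(l * P.kap l * (l.descFactorial s : ℕ)) := by
      rw [Finset.sum_ite_eq' l.divisors l fun _ => -(l * P.kap l * ((l.descFactorial s : ℕ) : ℝ)), if_pos (Nat.mem_divisors_self l (by omega))]
    rw [h1]
    unfold be
    ring
  · rw [sum_const, nsmul_eq_mul]
    have h1 : (l.divisors.card : ℝ) ≤ d := by
      exact_mod_cast (Nat.card_divisors_le_self l).trans hld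
    have h2 : (l.divisors.card : ℝ) * (3 * d * ε) ≤ d * (3 * d * ε) := mul_le_mul_of_nonneg_right h1 (by positivity)
    nlinarith

end NM

/-- The asymptotics. -/
theorem va (d e : ℕ) (kap : ℕ → ℝ) (hk : Crit d e kap) : ∃ C : ℝ, 1 ≤ C ∧
    ∀ P : Par, P.d = d → P.e = e → P.kap = kap → P.Ok 1 1 → (∀ i < P.J, 1 ≤ P.c i) → ∀ j ≤ P.J,
      ∀ ε : ℝ, P.eps j ≤ ε → ε ≤ 1 → ∃ n₀ : ℕ, ∀ n, n₀ ≤ n → ∀ ms, Cls P j n ms →
        |(ms.count (P.u j) : ℝ) - kap e * (n : ℝ) ^ e| ≤ ε * (n : ℝ) ^ e →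
          ∀ D ≤ d, ∀ I ⊆ range j, I.card ≤ D →
            |(vd D I P.c n ms : ℝ) -
                (D.descFactorial I.card : ℕ) * gg kap D * P.cc I * (n : ℝ) ^ (D - I.card)| ≤
              C * ε * P.cc I * (n : ℝ) ^ (D - I.card) := by
  have hk1 : kap 1 = 0 := by
    by_contra h
    have := (hk.supp 1 h).1
    omega
  have hB0 : (0 : ℝ) ≤ ∑ l ∈ range (d + 1), |NM.be kap l| := sum_nonneg fun _ _ => abs_nonneg _
  have hβ : ∀ l ≤ d, |NM.be kap l| ≤ ∑ l ∈ range (d + 1), |NM.be kap l| := fun l hl =>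
    single_le_sum (f := fun l => |NM.be kap l|) (fun _ _ => abs_nonneg _) (mem_range.2 (by omega))
  have habs := NM.va_abs d d (∑ l ∈ range (d + 1), |NM.be kap l|) (3 * d * d + 1) hB0 (by positivity)
  have habs' : ∀ D : Fin (d + 1), _ := fun D => habs D.1 (Nat.lt_succ_iff.1 D.2)
  choose C G hC hG hCG using habs'
  refine ⟨1 + ∑ D : Fin (d + 1), C D, by linarith [sum_nonneg fun (D : Fin (d + 1)) (_ : D ∈ univ) => hC D], ?_⟩
  intro P hPd hPe hPk hP hc j hj ε hε hε1
  have heps : 0 < P.eps j := (hP.eps_mono (le_refl j) hj).1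
  have hε0 : 0 < ε := heps.trans_le hε
  obtain ⟨n₁, hn₁⟩ := NM.Lw_b hP hPd hc hj hε hε1
  refine ⟨max n₁ 1, fun n hn ms H hu D hD I hI hID => ?_⟩
  have hn0 : (0 : ℝ) < n := by
    have : 1 ≤ n := (le_max_right _ _).trans hn
    exact_mod_cast this
  have hu' : |(ms.count (P.u j) : ℝ) - P.kap P.e * (n : ℝ) ^ P.e| ≤ ε * (n : ℝ) ^ P.e := by
    rw [hPk, hPe]
    exact hu
  have hb := hn₁ n ((le_max_left _ _).trans hn) ms H hu'
  rw [hPk] at hb
  have hex := NM.cls_ex (n := n) (ms := ms) hP.two hj H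
  have hjd : j ≤ d := by
    have h1 : P.J ≤ P.d := Nat.sub_le _ _
    omega
  have hL := ((hCG ⟨D, Nat.lt_succ_iff.2 hD⟩) (NM.be kap) (gg kap) hβ (by rw [gg]) (NM.gg_rec kap hk1)).2 (range j) P.c n ε
    (fun D T => ((PowerSeries.coeff D (NM.Fs (n - ∑ i ∈ T, P.c i) (NM.exm ms T)) : ℤ) : ℝ))
    (fun l T => ((NM.bl (n - ∑ i ∈ T, P.c i) (NM.exm ms T) l : ℤ) : ℝ)) (by rw [card_range]; exact hjd) hε0.le hε1
    (fun T _ => by
      rw [NM.coeff_zero_Fs _ _ (NM.exm_pos hex T), Int.cast_one])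
    (fun D T _ => by
      have h1 := NM.euler (n - ∑ i ∈ T, P.c i) (NM.exm ms T) (NM.exm_pos hex T) D
      exact_mod_cast h1)
    (fun l h1 h2 => hb l h1 h2)
  have h1 := hL I ∅ hI (empty_subset _) (disjoint_empty_right I)
  have h2 : NM.dl I (fun T => ((PowerSeries.coeff D (NM.Fs (n - ∑ i ∈ T, P.c i) (NM.exm ms T)) : ℤ) : ℝ)) ∅ =
      (vd D I P.c n ms : ℝ) := by
    rw [NM.vd_eq_Fs]
    unfold NM.dl
    push_cast
    exact sum_congr rfl fun U _ => by rw [empty_union]
  dsimp only at h1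
  rw [h2] at h1
  have h3 : (n : ℝ) ^ D = (n : ℝ) ^ (D - I.card) * (n : ℝ) ^ I.card := by rw [← pow_add, Nat.sub_add_cancel hID]
  have h4 : (0 : ℝ) < (n : ℝ) ^ I.card := pow_pos hn0 _
  have h5 : |(vd D I P.c n ms : ℝ) - (D.descFactorial I.card : ℕ) * gg kap D * NM.cp P.c I * (n : ℝ) ^ (D - I.card)| ≤
      C ⟨D, Nat.lt_succ_iff.2 hD⟩ * ε * NM.cp P.c I * (n : ℝ) ^ (D - I.card) := by
    refine le_of_mul_le_mul_right ?_ h4
    calc _ = |((vd D I P.c n ms : ℝ) - (D.descFactorial I.card : ℕ) * gg kap D * NM.cp P.c I * (n : ℝ) ^ (D - I.card)) *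
          (n : ℝ) ^ I.card| := by rw [abs_mul, abs_of_nonneg h4.le]
      _ = |(vd D I P.c n ms : ℝ) * (n : ℝ) ^ I.card - gg kap D * (D.descFactorial I.card : ℕ) * (NM.cp P.c I * (n : ℝ) ^ D)| := by
          rw [h3]
          congr 1
          ring
      _ ≤ C ⟨D, Nat.lt_succ_iff.2 hD⟩ * ε * (NM.cp P.c I * (n : ℝ) ^ D) := h1
      _ = _ := by
          rw [h3]
          ring
  rw [NM.cc_eq]
  refine h5.trans ?_
  have h6 : C ⟨D, Nat.lt_succ_iff.2 hD⟩ ≤ 1 + ∑ D : Fin (d + 1), C D := by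
    have := single_le_sum (f := C) (fun D _ => hC D) (mem_univ (⟨D, Nat.lt_succ_iff.2 hD⟩ : Fin (d + 1)))
    linarith
  have h7 := NM.cp_nonneg P.c I
  refine mul_le_mul_of_nonneg_right (mul_le_mul_of_nonneg_right (mul_le_mul_of_nonneg_right h6 hε0.le) h7) (pow_nonneg hn0.le _)

end Pool.Agent.GD

end
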