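import Pool.Agent.H94.LP7.M25
import Pool.Agent.H94.LP7.M26
import Pool.Agent.H94.LP7.M52
import Pool.Agent.H94.LP7.M75
import Pool.Agent.H94.LP7.M76
import Pool.Agent.H94.LP7.M78

/-! The parts of this file: GD.AL.SubN, GD.AL.Ph2L, GD.AL.Ph2U. -/

section

/-!
# General d, ALPHA: numbers for the target (weights of the clusters of a class, ordinary points)
-/

set_option autoImplicit false

namespace Pool.Agent.GD.AL

open Finset

private theorem sn_foldr (f : Finset ℕ → ℝ) (As : List (Finset ℕ)) {A : Finset ℕ} (hA : A ∈ As) :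
    (As.map f).foldr min 1 ≤ f A := by
  induction As with
  | nil => exact absurd hA List.not_mem_nil
  | cons B As ih =>
    rw [List.map_cons, List.foldr_cons]
    rcases List.mem_cons.1 hA with rfl | h
    · exact min_le_left _ _
    · exact (min_le_right _ _).trans (ih h)

private theorem sn_foldr_nonneg (f : Finset ℕ → ℝ) (hf : ∀ A, 0 ≤ f A) (As : List (Finset ℕ)) :
    0 ≤ (As.map f).foldr min 1 := by
  induction As with
  | nil => exact zero_le_one
  | cons B As ih =>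
    rw [List.map_cons, List.foldr_cons]
    exact le_min (hf B) ih

private theorem sn_om_nonneg (c : ℕ → ℕ) (n j : ℕ) (k : Kd) : 0 ≤ om c n j k := by
  cases k with
  | ord x A => exact le_refl _
  | cl e dl i As =>
    unfold om
    dsimp only
    split_ifs
    · positivity
    · exact sn_foldr_nonneg _ (fun A => by unfold rl; positivity) As

private theorem sn_rl {c : ℕ → ℕ} {n e : ℕ} (hn : 1 ≤ n) {T : Finset ℕ} (hc : ∀ l ∈ T, 1 ≤ c l) {w : ℕ}
    (hw : w ≤ e - 1 - T.card) : rl c n e T ≤ 1 / (n : ℝ) ^ w := by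
  have hn0 : (1 : ℝ) ≤ n := by exact_mod_cast hn
  unfold rl
  apply one_div_le_one_div_of_le (by positivity)
  have h1 : (1 : ℝ) ≤ ∏ l ∈ T, (c l : ℝ) := by
    have h2 : 1 ≤ ∏ l ∈ T, c l := Finset.one_le_prod' hc
    exact_mod_cast h2
  calc (n : ℝ) ^ w ≤ (n : ℝ) ^ (e - 1 - T.card) := pow_le_pow_right₀ hn0 hw
    _ = 1 * (n : ℝ) ^ (e - 1 - T.card) := (one_mul _).symm
    _ ≤ _ := mul_le_mul_of_nonneg_right h1 (by positivity)

private theorem sn_om_le {c : ℕ → ℕ} {n j e dl i w : ℕ} {As : List (Finset ℕ)} (hn : 1 ≤ n)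
    (hi : 1 ≤ c i) (hw : w ≤ e - 1) {A : Finset ℕ} (hA : A ∈ As)
    (hT : rl c n e ((range j).erase i \ A) ≤ 1 / (n : ℝ) ^ w) :
    om c n j (.cl e dl i As) ≤ 1 / (n : ℝ) ^ w := by
  have hn0 : (1 : ℝ) ≤ n := by exact_mod_cast hn
  unfold om
  dsimp only
  split_ifs
  · apply one_div_le_one_div_of_le (by positivity)
    have h1 : (1 : ℝ) ≤ c i := by exact_mod_cast hi
    calc (n : ℝ) ^ w ≤ (n : ℝ) ^ (e - 1) := pow_le_pow_right₀ hn0 hw
      _ = 1 * (n : ℝ) ^ (e - 1) := (one_mul _).symm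
      _ ≤ _ := mul_le_mul_of_nonneg_right h1 (by positivity)
  · exact (sn_foldr _ As hA).trans hT

private theorem sn_mem_mbs {i j k : ℕ} (hk : 1 ≤ k) (S : Finset ℕ) :
    (range j).erase i \ S ∈ mbs i j k S := by
  unfold mbs
  split_ifs with h
  · exact List.mem_singleton.2 rfl
  · refine List.mem_cons_of_mem _ ?_
    rw [List.mem_replicate]
    exact ⟨by omega, rfl⟩

/-- The weights of the clusters which are not of the type `pl k ∅`. -/
private theorem sn_term {c : ℕ → ℕ} {n d e i j : ℕ} (he : 2 ≤ e) (hj : j ≤ d - e) (hi : i < j)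
    (hc : ∀ l < j, 1 ≤ c l) (hn : 1 ≤ n) {τ : CT} (hτ : τ.Ok d e i j) (hne : ∀ k, τ ≠ .pl k ∅) :
    om c n j (τ.kd d e i j) ≤ 1 / (n : ℝ) ^ (τ.w e + 1) := by
  cases τ with
  | pl k S =>
    obtain ⟨h1, -, h3, h4⟩ := hτ
    have hS : S ≠ ∅ := fun h => hne k (by rw [h])
    have hS1 : 1 ≤ S.card := Finset.card_pos.2 (nonempty_iff_ne_empty.2 hS)
    have hw : (CT.pl k S).w e + 1 ≤ e - 1 := by
      show e - 1 - S.card + 1 ≤ e - 1
      omega
    refine sn_om_le (A := (range j).erase i) hn (hc i hi) hw ?_ ?_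
    · show (range j).erase i ∈ mbs i j k S
      unfold mbs
      rw [if_neg (by omega)]
      exact List.mem_cons_self
    · rw [sdiff_self]
      refine sn_rl hn (fun l hl => absurd hl (notMem_empty l)) ?_
      exact hw
  | b0 S =>
    obtain ⟨h1, h3, h4⟩ := hτ
    have hS : S ⊆ (range j).erase i := fun x hx => by
      have := mem_Ico.1 (h3 hx)
      rw [mem_erase, mem_range]
      omega
    have hq : 1 ≤ (d - i - 1) / (e - 1) := (Nat.one_le_div_iff (by omega)).2 (by omega)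
    have hSe : S.card < e - 1 := by omega
    have hw : (CT.b0 S).w e + 1 = e - 1 - S.card := by
      show e - 2 - S.card + 1 = e - 1 - S.card
      omega
    refine sn_om_le (A := (range j).erase i \ S) hn (hc i hi) (by omega) (sn_mem_mbs hq S) ?_
    rw [sdiff_sdiff_right_self, inf_eq_inter, inter_eq_right.2 hS]
    exact sn_rl hn (fun l hl => hc l (mem_range.1 (erase_subset _ _ (hS hl)))) hw.le
  | br r =>
    obtain ⟨h1, h2⟩ := hτ
    have he1 : 0 < e - 1 := by omega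
    obtain ⟨k, hk⟩ : ∃ k, k = (d - i + r - 1) / (e - 1) := ⟨_, rfl⟩
    have hk1 : 1 ≤ k := by
      rw [hk]
      exact (Nat.one_le_div_iff he1).2 (by omega)
    have hk2 : d - i + r - 1 < (e - 1) * (k + 1) := by
      rw [hk]
      exact Nat.lt_mul_div_succ _ he1
    have hk3 : r + 1 ≤ k * (e - 1) := by
      have h3 : (e - 1) * (k + 1) = k * (e - 1) + (e - 1) := by ring
      omega
    obtain ⟨s, rfl⟩ : ∃ s, k = s + 1 := ⟨k - 1, by omega⟩
    refine sn_om_le (A := (range j).erase i \ (Ico (s * (e - 1)) ((s + 1) * (e - 1)) ∩ range r)) hn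
      (hc i hi) (show 0 + 1 ≤ e - 1 by omega) ?_ ?_
    · show _ ∈ mbr i j ((d - i + r - 1) / (e - 1)) e r
      rw [← hk]
      unfold mbr
      exact List.mem_map.2 ⟨s, List.mem_range.2 (Nat.lt_succ_self s), rfl⟩
    · refine sn_rl hn (fun l hl => hc l (mem_range.1 (erase_subset _ _ (sdiff_subset hl)))) ?_
      have h4 : ((range j).erase i \ ((range j).erase i \
          (Ico (s * (e - 1)) ((s + 1) * (e - 1)) ∩ range r))).card ≤ e - 2 := by
        rw [sdiff_sdiff_right_self, inf_eq_inter]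
        refine (card_le_card inter_subset_right).trans ?_
        refine (card_le_card (t := Ico (s * (e - 1)) r) fun x hx => ?_).trans ?_
        · rw [Finset.mem_inter, mem_Ico, mem_range] at hx
          exact mem_Ico.2 ⟨hx.1.1, hx.2⟩
        · rw [Nat.card_Ico]
          have h5 : (s + 1) * (e - 1) = s * (e - 1) + (e - 1) := by ring
          omega
      show 0 + 1 ≤ _
      omega

private theorem sn_pl {c : ℕ → ℕ} {n d e i j k : ℕ} (hk : (CT.pl k ∅).Ok d e i j) :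
    om c n j ((CT.pl k ∅).kd d e i j) = 1 / ((c i : ℝ) * (n : ℝ) ^ (e - 1)) := by
  obtain ⟨h1, -⟩ := hk
  show om c n j (.cl e 0 i (mbs i j k ∅)) = _
  unfold om
  dsimp only
  rw [if_pos]
  have h2 : mbs i j k ∅ = (range j).erase i :: List.replicate (k - 1) ((range j).erase i) := by
    unfold mbs
    rw [if_neg (by omega), sdiff_empty]
  rw [h2]
  refine ⟨rfl, ?_, fun A hA => ?_⟩
  · rw [List.length_cons, List.length_replicate]
    omega
  · rcases List.mem_cons.1 hA with h | h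
    · exact h
    · exact (List.mem_replicate.1 h).2

private theorem sn_sum {β : Type} (ms : Multiset Kd) (t : Finset β) (kd : β → Kd) (f : Kd → ℝ)
    (hf : ∀ k ∈ ms, f k ≤ ∑ p ∈ t, if k = kd p then f (kd p) else 0) :
    (ms.map f).sum ≤ ∑ p ∈ t, (ms.count (kd p) : ℝ) * f (kd p) := by
  induction ms using Multiset.induction_on with
  | empty => simp
  | cons k ms ih =>
    have h1 := ih fun k hk => hf k (Multiset.mem_cons_of_mem hk)
    have h2 := hf k (Multiset.mem_cons_self k ms)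
    rw [Multiset.map_cons, Multiset.sum_cons]
    calc f k + (ms.map f).sum ≤ (∑ p ∈ t, if k = kd p then f (kd p) else 0) +
          ∑ p ∈ t, (ms.count (kd p) : ℝ) * f (kd p) := add_le_add h2 h1
      _ = ∑ p ∈ t, ((k ::ₘ ms).count (kd p) : ℝ) * f (kd p) := by
          rw [← sum_add_distrib]
          refine sum_congr rfl fun p _ => ?_
          rw [Multiset.count_cons]
          by_cases h : k = kd p
          · rw [if_pos h, if_pos h.symm]
            push_cast
            ring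
          · rw [if_neg h, if_neg (Ne.symm h)]
            push_cast
            ring

private theorem sn_cnt {α : Type} [DecidableEq α] (ms : Multiset α) (a : α) (c : ℕ) :
    (ms.map fun k => if k = a then c else 0).sum = ms.count a * c := by
  induction ms using Multiset.induction_on with
  | empty => simp
  | cons b ms ih =>
    rw [Multiset.map_cons, Multiset.sum_cons, ih, Multiset.count_cons]
    by_cases h : b = a
    · rw [if_pos h, if_pos h.symm]
      ring
    · rw [if_neg h, if_neg fun h' => h h'.symm]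
      ring

private theorem sn_swap {α β : Type} (ms : Multiset α) (t : Finset β) (f : α → β → ℕ) :
    (ms.map fun k => ∑ p ∈ t, f k p).sum = ∑ p ∈ t, (ms.map fun k => f k p).sum := by
  induction ms using Multiset.induction_on with
  | empty => simp
  | cons b ms ih =>
    rw [Multiset.map_cons, Multiset.sum_cons, ih, ← sum_add_distrib]
    refine sum_congr rfl fun p _ => ?_
    rw [Multiset.map_cons, Multiset.sum_cons]

/-- the points of a kind are ordinary points and members of the old clusters -/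
private theorem sn_npt {P : Par} {j n : ℕ} (hjd : j ≤ P.d) {ms : Multiset Kd} (hc : Cls P j n ms)
    (x : ℕ) (A : Finset ℕ) : npt ms x A ≤ ms.count (.ord x A) +
      ∑ p ∈ oldT P.d P.e j, ms.count (p.2.kd P.d P.e p.1 j) * (p.2.kd P.d P.e p.1 j).pts.count (x, A) := by
  have h1 : npt ms x A = (ms.map fun k => k.pts.count (x, A)).sum := by
    unfold npt
    rw [Multiset.count_bind]
  have h2 : ∀ k ∈ ms, k.pts.count (x, A) ≤ (if k = .ord x A then 1 else 0) +
      ∑ p ∈ oldT P.d P.e j, if k = p.2.kd P.d P.e p.1 j then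
        (p.2.kd P.d P.e p.1 j).pts.count (x, A) else 0 := by
    intro k hk
    rcases hc.mem k hk with ⟨x', A', rfl, -⟩ | ⟨i, hi, τ, hτ, rfl⟩
    · refine le_add_right ?_
      show Multiset.count (x, A) {(x', A')} ≤ _
      rw [Multiset.count_singleton]
      by_cases h : (x, A) = (x', A')
      · obtain ⟨rfl, rfl⟩ := Prod.mk.inj h
        rw [if_pos rfl, if_pos rfl]
      · rw [if_neg h]
        exact Nat.zero_le _
    · refine le_add_left ?_
      have h3 : (i, τ) ∈ oldT P.d P.e j := (mem_oldT hjd).2 ⟨hi, hτ⟩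
      refine le_trans ?_ (single_le_sum (f := fun p : ℕ × CT =>
        if τ.kd P.d P.e i j = p.2.kd P.d P.e p.1 j then
        (p.2.kd P.d P.e p.1 j).pts.count (x, A) else 0) (fun _ _ => Nat.zero_le _) h3)
      show _ ≤ (if τ.kd P.d P.e i j = τ.kd P.d P.e i j then _ else _)
      rw [if_pos rfl]
  rw [h1]
  refine (Multiset.sum_map_le_sum_map _ _ h2).trans (le_of_eq ?_)
  rw [Multiset.sum_map_add, sn_cnt, mul_one, sn_swap]
  congr 1
  exact sum_congr rfl fun p _ => sn_cnt _ _ _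

/-- The number of the types on all levels. -/
private noncomputable def snL (d e : ℕ) : ℕ := ∑ j ∈ range (d + 1), (oldT d e j).card

private theorem sn_L {d e j : ℕ} (hj : j ≤ d) : (oldT d e j).card ≤ snL d e :=
  single_le_sum (f := fun j => (oldT d e j).card) (fun _ _ => Nat.zero_le _) (mem_range.2 (Nat.lt_succ_of_le hj))

/-- One term of the sum of the weights. -/
private theorem sn_one {P : Par} {j n : ℕ} (he : 2 ≤ P.e) (hj : j ≤ P.J) (hK : ∀ l < P.J, 1 ≤ P.c l)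
    (hn : 1 ≤ n) {ms : Multiset Kd} (hc : Cls P j n ms) {K : ℝ} (hK0 : 0 < K) (hK' : ∀ l < P.J, K ≤ P.c l)
    {p : ℕ × CT} (hp : p ∈ oldT P.d P.e j) (hjd : j ≤ P.d) :
    (ms.count (p.2.kd P.d P.e p.1 j) : ℝ) * om P.c n j (p.2.kd P.d P.e p.1 j) ≤
      (P.M : ℝ) / K + (p.2.mm P : ℝ) / n := by
  obtain ⟨i, τ⟩ := p
  obtain ⟨hi, hτ⟩ := (mem_oldT hjd).1 hp
  have hn0 : (0 : ℝ) < n := by exact_mod_cast hn
  have h1 : (ms.count (τ.kd P.d P.e i j) : ℝ) ≤ (τ.mm P : ℝ) * (n : ℝ) ^ τ.w P.e := by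
    exact_mod_cast hc.cnt i hi τ hτ
  show (ms.count (τ.kd P.d P.e i j) : ℝ) * om P.c n j (τ.kd P.d P.e i j) ≤ (P.M : ℝ) / K + (τ.mm P : ℝ) / n
  have h0 := sn_om_nonneg P.c n j (τ.kd P.d P.e i j)
  by_cases hne : ∃ k, τ = .pl k ∅
  · obtain ⟨k, rfl⟩ := hne
    have h2 : (((CT.pl k ∅).mm P : ℕ) : ℝ) = P.M := by
      show ((P.M * P.d ^ (∅ : Finset ℕ).card * P.cc ∅ : ℕ) : ℝ) = P.M
      unfold Par.cc
      rw [card_empty, pow_zero, mul_one, prod_empty, mul_one]
    have h3 : (CT.pl k ∅).w P.e = P.e - 1 := by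
      show P.e - 1 - (∅ : Finset ℕ).card = _
      rw [card_empty, Nat.sub_zero]
    have hci : K ≤ P.c i := hK' i (hi.trans_le hj)
    have hci0 : (0 : ℝ) < P.c i := hK0.trans_le hci
    rw [h3, h2] at h1
    rw [sn_pl hτ] at h0 ⊢
    calc _ ≤ ((P.M : ℝ) * (n : ℝ) ^ (P.e - 1)) * (1 / ((P.c i : ℝ) * (n : ℝ) ^ (P.e - 1))) :=
          mul_le_mul_of_nonneg_right h1 h0
      _ = (P.M : ℝ) / P.c i := by
          have h4 : (n : ℝ) ^ (P.e - 1) ≠ 0 := by positivity
          field_simp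
      _ ≤ (P.M : ℝ) / K := div_le_div_of_nonneg_left (Nat.cast_nonneg _) hK0 hci
      _ ≤ _ := le_add_of_nonneg_right (by positivity)
  · have hne' : ∀ k, τ ≠ .pl k ∅ := fun k h => hne ⟨k, h⟩
    have h2 := sn_term he hj hi (fun l hl => hK l (hl.trans_le hj)) hn hτ hne'
    calc _ ≤ ((τ.mm P : ℝ) * (n : ℝ) ^ τ.w P.e) * (1 / (n : ℝ) ^ (τ.w P.e + 1)) :=
          mul_le_mul h1 h2 h0 (by positivity)
      _ = (τ.mm P : ℝ) / n := by
          rw [pow_succ]
          have h4 : (n : ℝ) ^ (τ.w P.e) ≠ 0 := by positivity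
          field_simp
      _ ≤ _ := le_add_of_nonneg_left (by positivity)

/-- The weights of the clusters of a class are small. -/
theorem om_cls (d e M : ℕ) (he : 2 ≤ e) (hed : e < d) {θ : ℝ} (hθ : 0 < θ) : ∃ K : ℕ, ∀ P : Par,
    P.d = d → P.e = e → P.M = M → (∀ l < P.J, K ≤ P.c l) → ∀ j ≤ P.J, ∃ n1 : ℕ, ∀ n, n1 ≤ n →
      ∀ ms, Cls P j n ms → (ms.map (om P.c n j)).sum ≤ θ := by
  classical
  obtain ⟨K, hK⟩ := exists_nat_ge (2 * (snL d e : ℝ) * M / θ)
  refine ⟨K + 1, fun P hd hPe hM hc j hj => ?_⟩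
  subst hd hPe hM
  have hjd : j ≤ P.d := hj.trans (Nat.sub_le _ _)
  obtain ⟨n1, hn1⟩ := exists_nat_ge (2 * (∑ p ∈ oldT P.d P.e j, (p.2.mm P : ℝ)) / θ)
  refine ⟨n1 + 1, fun n hn ms hms => ?_⟩
  have hn0 : (0 : ℝ) < n := by exact_mod_cast (show 0 < n by omega)
  have hK0 : (0 : ℝ) < (K : ℝ) + 1 := by positivity
  have h1 : (ms.map (om P.c n j)).sum ≤ ∑ p ∈ oldT P.d P.e j,
      (ms.count (p.2.kd P.d P.e p.1 j) : ℝ) * om P.c n j (p.2.kd P.d P.e p.1 j) := by
    refine sn_sum ms (oldT P.d P.e j) (fun p => p.2.kd P.d P.e p.1 j) (om P.c n j) fun k hk => ?_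
    have h2 : ∀ p ∈ oldT P.d P.e j, (0 : ℝ) ≤ if k = p.2.kd P.d P.e p.1 j then
        om P.c n j (p.2.kd P.d P.e p.1 j) else 0 := by
      intro p _
      split_ifs
      · exact sn_om_nonneg _ _ _ _
      · exact le_refl _
    rcases hms.mem k hk with ⟨x, A, rfl, -⟩ | ⟨i, hi, τ, hτ, rfl⟩
    · exact sum_nonneg h2
    · have h3 : (i, τ) ∈ oldT P.d P.e j := (mem_oldT hjd).2 ⟨hi, hτ⟩
      refine le_trans ?_ (single_le_sum h2 h3)
      show _ ≤ if τ.kd P.d P.e i j = τ.kd P.d P.e i j then _ else _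
      rw [if_pos rfl]
  have h2 : ∑ p ∈ oldT P.d P.e j,
      (ms.count (p.2.kd P.d P.e p.1 j) : ℝ) * om P.c n j (p.2.kd P.d P.e p.1 j) ≤
      ∑ p ∈ oldT P.d P.e j, ((P.M : ℝ) / ((K : ℝ) + 1) + (p.2.mm P : ℝ) / n) := by
    refine sum_le_sum fun p hp => ?_
    refine sn_one he hj (fun l hl => le_trans (by omega) (hc l hl)) (by omega) hms hK0 ?_ hp hjd
    intro l hl
    exact_mod_cast hc l hl
  have h3 : ∑ p ∈ oldT P.d P.e j, ((P.M : ℝ) / ((K : ℝ) + 1) + (p.2.mm P : ℝ) / n) =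
      ((oldT P.d P.e j).card : ℝ) * ((P.M : ℝ) / ((K : ℝ) + 1)) +
        (∑ p ∈ oldT P.d P.e j, (p.2.mm P : ℝ)) / n := by
    rw [sum_add_distrib, sum_const, nsmul_eq_mul, sum_div]
  have h4 : ((oldT P.d P.e j).card : ℝ) * ((P.M : ℝ) / ((K : ℝ) + 1)) ≤ θ / 2 := by
    have h5 : ((oldT P.d P.e j).card : ℝ) ≤ snL P.d P.e := by exact_mod_cast sn_L hjd
    have h6 : 2 * (snL P.d P.e : ℝ) * P.M ≤ K * θ := (div_le_iff₀ hθ).1 hK
    have h7 : (0 : ℝ) ≤ P.M := Nat.cast_nonneg _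
    rw [← mul_div_assoc, div_le_iff₀ hK0]
    nlinarith only [hθ, h6, h5]
  have h5 : (∑ p ∈ oldT P.d P.e j, (p.2.mm P : ℝ)) / n ≤ θ / 2 := by
    have h6 : 2 * (∑ p ∈ oldT P.d P.e j, (p.2.mm P : ℝ)) ≤ n1 * θ := (div_le_iff₀ hθ).1 hn1
    have h7 : (n1 : ℝ) ≤ n := by exact_mod_cast (show n1 ≤ n by omega)
    rw [div_le_iff₀ hn0]
    nlinarith only [h6, hθ, h7]
  linarith only [h3, h1, h2, h3.le, h4, h5]

private theorem sn_card (k : Kd) : k.pts.card = k.nm := by
  cases k with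
  | ord e A => rfl
  | cl e dl i As => simp [Kd.pts, Kd.nm]

/-- The members of one type. -/
private theorem sn_mem {P : Par} {j n : ℕ} (he : 2 ≤ P.e) (hj : j ≤ P.J) (hn : 1 ≤ n) {ms : Multiset Kd}
    (hc : Cls P j n ms) {x : ℕ} {A : Finset ℕ} {p : ℕ × CT} (hp : p ∈ oldT P.d P.e j) (hjd : j ≤ P.d) :
    ms.count (p.2.kd P.d P.e p.1 j) * (p.2.kd P.d P.e p.1 j).pts.count (x, A) ≤
      P.d * (P.M * n ^ (P.e - 1) + p.2.mm P * n ^ (P.e - 2)) := by
  obtain ⟨i, τ⟩ := p
  obtain ⟨hi, hτ⟩ := (mem_oldT hjd).1 hp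
  have h5 : (τ.kd P.d P.e i j).pts.count (x, A) ≤ P.d := by
    refine (Multiset.count_le_card _ _).trans ?_
    rw [sn_card]
    exact (nm_kd he hj hi hτ).2
  show ms.count (τ.kd P.d P.e i j) * (τ.kd P.d P.e i j).pts.count (x, A) ≤
      P.d * (P.M * n ^ (P.e - 1) + τ.mm P * n ^ (P.e - 2))
  have h6 : ms.count (τ.kd P.d P.e i j) ≤ P.M * n ^ (P.e - 1) + τ.mm P * n ^ (P.e - 2) := by
    refine (hc.cnt i hi τ hτ).trans ?_
    by_cases hne : ∃ k, τ = .pl k ∅
    · obtain ⟨k, rfl⟩ := hne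
      refine le_add_right (le_of_eq ?_)
      show P.M * P.d ^ (∅ : Finset ℕ).card * P.cc ∅ * n ^ (P.e - 1 - (∅ : Finset ℕ).card) = _
      unfold Par.cc
      rw [card_empty, pow_zero, mul_one, prod_empty, mul_one, Nat.sub_zero]
    · refine le_add_left (Nat.mul_le_mul_left _ (Nat.pow_le_pow_right hn ?_))
      cases τ with
      | pl k S =>
        have hS : S ≠ ∅ := fun h => hne ⟨k, by rw [h]⟩
        have hS1 : 1 ≤ S.card := Finset.card_pos.2 (nonempty_iff_ne_empty.2 hS)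
        show P.e - 1 - S.card ≤ P.e - 2
        omega
      | b0 S => exact Nat.sub_le _ _
      | br r => exact Nat.zero_le _
  calc _ ≤ (P.M * n ^ (P.e - 1) + τ.mm P * n ^ (P.e - 2)) * P.d := Nat.mul_le_mul h6 h5
    _ = _ := Nat.mul_comm _ _

/-- There are enough ordinary points for the groups of `CL2`. -/
theorem ip_cls (d e : ℕ) (kap : ℕ → ℝ) (hk : Crit d e kap) : ∃ E : ℝ, 0 < E ∧ ∀ M : ℕ, ∃ K : ℕ,
    ∀ P : Par, P.d = d → P.e = e → P.kap = kap → P.M = M → P.Ok 1 E → (∀ l < P.J, K ≤ P.c l) →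
      ∀ j ≤ P.J, ∃ n1 : ℕ, ∀ n, n1 ≤ n → ∀ ms, Cls P j n ms → IP j P.e P.c ((P.d + 1) * P.d) ms := by
  classical
  have hκ : 0 < kap e := hk.pos
  have he2 : 2 ≤ e := hk.two
  have hed : e < d := hk.lt
  refine ⟨kap e / 2, by positivity, fun M => ?_⟩
  obtain ⟨K, hK⟩ := exists_nat_ge (4 * (snL d e : ℝ) * d * M / kap e)
  refine ⟨K + 1, fun P hd hPe hPk hM hP hc j hj => ?_⟩
  subst hd hPe hPk hM
  have hjd : j ≤ P.d := hj.trans (Nat.sub_le _ _)
  obtain ⟨n1, hn1⟩ := exists_nat_ge (4 * ((P.d : ℝ) * ∑ p ∈ oldT P.d P.e j, (p.2.mm P : ℝ)) / P.kap P.e)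
  obtain ⟨n2, hn2⟩ := exists_nat_ge (2 * (((P.d : ℝ) + 1) * P.d) / P.kap P.e)
  refine ⟨n1 + n2 + 1, fun n hn ms hms i hi _ => ?_⟩
  have hn0 : (1 : ℝ) ≤ n := by exact_mod_cast (show 1 ≤ n by omega)
  have hA : range j \ (range j).erase i = {i} := by
    ext x
    rw [mem_sdiff, mem_erase, mem_range, mem_singleton]
    constructor
    · rintro ⟨h1, h2⟩
      by_contra h3
      exact h2 ⟨h3, h1⟩
    · rintro rfl
      exact ⟨hi, fun h => h.1 rfl⟩
  have hc1 : (1 : ℝ) ≤ P.c i := by exact_mod_cast (show 1 ≤ P.c i from le_trans (by omega) (hc i (hi.trans_le hj)))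
  have hcK : ((K : ℝ) + 1) ≤ P.c i := by exact_mod_cast hc i (hi.trans_le hj)
  have h1 := hms.win P.e ((range j).erase i) he2 hed (erase_subset _ _) (by
      rw [hA, card_singleton]; omega) (Or.inr fun h => by
      have := mem_range.2 hi
      rw [← h] at this
      exact notMem_erase i _ this)
  rw [hA, card_singleton] at h1
  have hnat : P.nat P.e {i} = P.kap P.e * P.e := by
    unfold Par.nat
    rw [card_singleton, Nat.descFactorial_one]
  have hcc : P.cc {i} = P.c i := by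
    unfold Par.cc
    rw [prod_singleton]
  rw [hnat, hcc] at h1
  have heps : P.eps j ≤ P.kap P.e / 2 := (hP.eps_mono hj (le_refl _)).2.1.trans hP.epsJ
  have hpow0 : (0 : ℝ) ≤ (n : ℝ) ^ (P.e - 2) := by positivity
  have hpow : (n : ℝ) ^ (P.e - 1) = n * (n : ℝ) ^ (P.e - 2) := by
    rw [← pow_succ']
    congr 1
    omega
  have hN : (n : ℝ) ≤ (n : ℝ) ^ (P.e - 1) := by
    calc (n : ℝ) = (n : ℝ) ^ 1 := (pow_one _).symm
      _ ≤ _ := pow_le_pow_right₀ hn0 (by omega)
  have hX0 : (0 : ℝ) ≤ (n : ℝ) ^ (P.e - 1) := by positivity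
  -- the lower bound for all points
  have h2 : P.kap P.e * P.c i * (n : ℝ) ^ (P.e - 1) ≤ (npt ms P.e ((range j).erase i) : ℝ) := by
    have h3 := (abs_le.1 h1).1
    have h4 : P.eps j * P.c i * (n : ℝ) ^ (P.e - 1) ≤ P.kap P.e / 2 * P.c i * (n : ℝ) ^ (P.e - 1) :=
      mul_le_mul_of_nonneg_right (mul_le_mul_of_nonneg_right heps (by linarith only [hc1])) hX0
    have h5 : P.kap P.e * 2 ≤ P.kap P.e * P.e := by
      refine mul_le_mul_of_nonneg_left ?_ hκ.le
      exact_mod_cast he2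
    have h6 : P.kap P.e * 2 * (P.c i * (n : ℝ) ^ (P.e - 1)) ≤ P.kap P.e * P.e * (P.c i * (n : ℝ) ^ (P.e - 1)) :=
      mul_le_mul_of_nonneg_right h5 (by positivity)
    have h7 : (0 : ℝ) ≤ P.kap P.e * (P.c i * (n : ℝ) ^ (P.e - 1)) := by positivity
    nlinarith only [h3, h4, h6]
  -- the members
  have h3 : (npt ms P.e ((range j).erase i) : ℝ) ≤ (ms.count (.ord P.e ((range j).erase i)) : ℝ) +
      ∑ p ∈ oldT P.d P.e j, (P.d : ℝ) * ((P.M : ℝ) * (n : ℝ) ^ (P.e - 1) + (p.2.mm P : ℝ) * (n : ℝ) ^ (P.e - 2)) := by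
    have h4 := (sn_npt hjd hms P.e ((range j).erase i)).trans (Nat.add_le_add_left
      (sum_le_sum fun p hp => sn_mem he2 hj (by omega) hms (x := P.e) (A := (range j).erase i) hp hjd) _)
    exact_mod_cast h4
  have h4 : ∑ p ∈ oldT P.d P.e j, (P.d : ℝ) * ((P.M : ℝ) * (n : ℝ) ^ (P.e - 1) + (p.2.mm P : ℝ) * (n : ℝ) ^ (P.e - 2)) =
      ((oldT P.d P.e j).card : ℝ) * (P.d * P.M * (n : ℝ) ^ (P.e - 1)) +
        (P.d : ℝ) * (∑ p ∈ oldT P.d P.e j, (p.2.mm P : ℝ)) * (n : ℝ) ^ (P.e - 2) := by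
    rw [← mul_sum, sum_add_distrib, sum_const, nsmul_eq_mul, ← sum_mul]
    ring
  have h5 : ((oldT P.d P.e j).card : ℝ) * (P.d * P.M * (n : ℝ) ^ (P.e - 1)) ≤
      P.kap P.e / 4 * P.c i * (n : ℝ) ^ (P.e - 1) := by
    have h6 : ((oldT P.d P.e j).card : ℝ) ≤ snL P.d P.e := by exact_mod_cast sn_L hjd
    have h7 : 4 * (snL P.d P.e : ℝ) * P.d * P.M ≤ K * P.kap P.e := (div_le_iff₀ hκ).1 hK
    have h8 : ((oldT P.d P.e j).card : ℝ) * (P.d * P.M) ≤ P.kap P.e / 4 * P.c i := by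
      have h9 : ((oldT P.d P.e j).card : ℝ) * (P.d * P.M) ≤ snL P.d P.e * (P.d * P.M) :=
        mul_le_mul_of_nonneg_right h6 (by positivity)
      have h10 : (K : ℝ) * P.kap P.e ≤ P.c i * P.kap P.e :=
        mul_le_mul_of_nonneg_right (by linarith only [hcK]) hκ.le
      nlinarith only [h7, h9, h10]
    calc _ = ((oldT P.d P.e j).card : ℝ) * (P.d * P.M) * (n : ℝ) ^ (P.e - 1) := by ring
      _ ≤ _ := mul_le_mul_of_nonneg_right h8 hX0
  have h6 : (P.d : ℝ) * (∑ p ∈ oldT P.d P.e j, (p.2.mm P : ℝ)) * (n : ℝ) ^ (P.e - 2) ≤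
      P.kap P.e / 4 * P.c i * (n : ℝ) ^ (P.e - 1) := by
    have h7 : 4 * ((P.d : ℝ) * ∑ p ∈ oldT P.d P.e j, (p.2.mm P : ℝ)) ≤ n1 * P.kap P.e := (div_le_iff₀ hκ).1 hn1
    have h8 : (n1 : ℝ) ≤ n := by exact_mod_cast (show n1 ≤ n by omega)
    have h9 : (P.d : ℝ) * (∑ p ∈ oldT P.d P.e j, (p.2.mm P : ℝ)) ≤ P.kap P.e / 4 * P.c i * n := by
      have h10 : (n1 : ℝ) * P.kap P.e ≤ n * P.kap P.e := mul_le_mul_of_nonneg_right h8 hκ.le
      have h11 : P.kap P.e / 4 * n ≤ P.kap P.e / 4 * n * P.c i := le_mul_of_one_le_right (by positivity) hc1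
      nlinarith only [h7, h10, h11]
    rw [hpow]
    calc _ ≤ P.kap P.e / 4 * P.c i * n * (n : ℝ) ^ (P.e - 2) := mul_le_mul_of_nonneg_right h9 hpow0
      _ = _ := by ring
  have h7 : (((P.d : ℝ) + 1) * P.d) * P.c i ≤ P.kap P.e / 2 * P.c i * (n : ℝ) ^ (P.e - 1) := by
    have h8 : 2 * (((P.d : ℝ) + 1) * P.d) ≤ n2 * P.kap P.e := (div_le_iff₀ hκ).1 hn2
    have h9 : (n2 : ℝ) ≤ n := by exact_mod_cast (show n2 ≤ n by omega)
    have h10 : ((P.d : ℝ) + 1) * P.d ≤ P.kap P.e / 2 * (n : ℝ) ^ (P.e - 1) := by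
      have h11 : (n2 : ℝ) * P.kap P.e ≤ (n : ℝ) ^ (P.e - 1) * P.kap P.e :=
        mul_le_mul_of_nonneg_right (h9.trans hN) hκ.le
      nlinarith only [h8, h11]
    calc _ ≤ P.kap P.e / 2 * (n : ℝ) ^ (P.e - 1) * P.c i := mul_le_mul_of_nonneg_right h10 (by linarith only [hc1])
      _ = _ := by ring
  have h8 : (((P.d : ℝ) + 1) * P.d) * P.c i ≤ (ms.count (.ord P.e ((range j).erase i)) : ℝ) := by
    linarith only [h4, h2, h3, h4.le, h5, h6, h7]
  exact_mod_cast h8

end Pool.Agent.GD.AL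

end

section

/-!
# General d, ALPHA, part C, phase 2: the lower terms of `CL2`
-/

set_option autoImplicit false

namespace Pool.Agent.GD.AL

open Finset

/-- The kinds of phase 2. -/
def KdX (d J e : ℕ) (I : Finset ℕ) (k : Kd) : Prop :=
  AdmO d J k ∨ ∃ i ∈ I, ∃ m, 2 ≤ m ∧ k = .cl e 0 i (List.replicate m ((range J).erase i))

theorem kx_cl {d J e : ℕ} {I : Finset ℕ} {e' dl' i' : ℕ} {As' : List (Finset ℕ)}
    (h : KdX d J e I (.cl e' dl' i' As')) :
    e' = e ∧ dl' = 0 ∧ i' ∈ I ∧ ∃ m, 2 ≤ m ∧ As' = List.replicate m ((range J).erase i') := by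
  rcases h with ⟨x, A, h, -⟩ | ⟨i, hi, m, hm, h⟩
  · exact absurd h (by simp)
  · rw [Kd.cl.injEq] at h
    obtain ⟨h1, h2, h3, h4⟩ := h
    subst h1 h2 h3 h4
    exact ⟨rfl, rfl, hi, m, hm, rfl⟩

theorem hh_kx {d J e s : ℕ} {I I' : Finset ℕ} {ms : Multiset Kd} (h : ∀ k ∈ ms, KdX d J e I k) :
    HH s I' ms := by
  intro k k' hk
  cases k with
  | ord x A => exact PO_ord _ _ _ _ _
  | cl e₁ dl₁ i₁ As₁ =>
    cases k' with
    | ord x A => exact PO_ord' _ _ _ _ _
    | cl e₂ dl₂ i₂ As₂ =>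
      have h1 := (kx_cl (h _ (Multiset.mem_of_le hk (Multiset.mem_cons_self _ _)))).2.1
      intro _ _ h2
      omega

theorem erase_inj_l {J i i' : ℕ} (hi : i < J) (h : (range J).erase i = (range J).erase i') : i = i' := by
  by_contra hne
  have h1 : i ∈ (range J).erase i' := mem_erase.2 ⟨hne, mem_range.2 hi⟩
  rw [← h] at h1
  exact notMem_erase _ _ h1

theorem inter_rep_l {m : ℕ} (hm : 1 ≤ m) (B : Finset ℕ) : inter (List.replicate m B) = B := by
  obtain ⟨m, rfl⟩ : ∃ m', m = m' + 1 := ⟨m - 1, by omega⟩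
  unfold inter
  rw [List.replicate_succ, List.headD_cons, filter_true_of_mem]
  intro x hx A hA
  rw [← List.replicate_succ] at hA
  rw [List.eq_of_mem_replicate hA]
  exact hx

/-- The traces of the kinds of phase 2. -/
theorem tri_kx {d J e i : ℕ} {I : Finset ℕ} (he : 2 ≤ e) (hi : i < J) {k : Kd}
    (hk : KdX d J e I k) (hk' : AdmO d J k ∨ AdmC d J e k) :
    ((∃ x A, k = .ord x A) ∧ (tri i k = {k} ∨ tri i k = 0)) ∨
      (∃ m, 2 ≤ m ∧ k = .cl e 0 i (List.replicate m ((range J).erase i)) ∧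
        tri i k = {.ord (trx e 0 m) ((range J).erase i)} ∧
          AdmO d J (.ord (trx e 0 m) ((range J).erase i))) ∨
      (∃ i' ∈ I.erase i, ∃ m, 2 ≤ m ∧ k = .cl e 0 i' (List.replicate m ((range J).erase i')) ∧
        tri i k = {k}) := by
  cases k with
  | ord x A =>
    refine Or.inl ⟨⟨x, A, rfl⟩, ?_⟩
    show (if i ∈ A then ({.ord x A} : Multiset Kd) else 0) = _ ∨
      (if i ∈ A then ({.ord x A} : Multiset Kd) else 0) = 0
    split_ifs
    · exact Or.inl rfl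
    · exact Or.inr rfl
  | cl e₁ dl₁ i₁ As₁ =>
    obtain ⟨rfl, rfl, h3, m, hm, rfl⟩ := kx_cl hk
    by_cases h : i₁ = i
    · subst h
      refine Or.inr (Or.inl ⟨m, hm, rfl, ?_, ?_⟩)
      · show (if i₁ = i₁ then ({.ord (trx e₁ 0 (List.replicate m ((range J).erase i₁)).length)
            (inter (List.replicate m ((range J).erase i₁)))} : Multiset Kd) else _) = _
        rw [if_pos rfl, List.length_replicate, inter_rep_l (by omega)]
      · have h4 : trx e₁ 0 m ≤ d := by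
          rcases hk' with ⟨x, A, h5, -⟩ | ⟨dl, i, As, h5, -, -, h6, -⟩
          · exact absurd h5 (by simp)
          · rw [Kd.cl.injEq] at h5
            obtain ⟨-, h7, -, h8⟩ := h5
            rw [← h7, ← h8, List.length_replicate] at h6
            exact h6
        refine ⟨_, _, rfl, ?_, h4, erase_subset _ _, ?_⟩
        · unfold trx
          omega
        · have h5 : (range J \ (range J).erase i₁).card ≤ 1 := by
            have h6 : range J \ (range J).erase i₁ ⊆ {i₁} := by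
              intro x hx
              rw [mem_sdiff, mem_erase, not_and_or, not_not] at hx
              rw [mem_singleton]
              rcases hx.2 with h | h
              · exact h
              · exact absurd hx.1 h
            exact (card_le_card h6).trans (by simp)
          refine h5.trans ?_
          unfold trx
          omega
    · refine Or.inr (Or.inr ⟨i₁, mem_erase.2 ⟨h, h3⟩, m, hm, rfl, ?_⟩)
      show (if i₁ = i then _ else if ∀ A ∈ List.replicate m ((range J).erase i₁), i ∈ A then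
        ({.cl e₁ 0 i₁ (List.replicate m ((range J).erase i₁))} : Multiset Kd) else _) = _
      rw [if_neg h, if_pos]
      intro A hA
      rw [List.eq_of_mem_replicate hA]
      exact mem_erase.2 ⟨fun h' => h h'.symm, mem_range.2 hi⟩

theorem om_tri {d J e i : ℕ} {I : Finset ℕ} {c0 : ℕ → ℕ} {n0 : ℕ} (he : 2 ≤ e) (hi : i < J)
    {ms : Multiset Kd} (h : ∀ k ∈ ms, KdX d J e I k) (h' : ∀ k ∈ ms, AdmO d J k ∨ AdmC d J e k) :
    ((ms.bind (tri i)).map (om c0 n0 J)).sum ≤ (ms.map (om c0 n0 J)).sum := by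
  induction ms using Multiset.induction_on with
  | empty => simp
  | cons k ms ih =>
    rw [Multiset.cons_bind, Multiset.map_add, Multiset.sum_add, Multiset.map_cons,
      Multiset.sum_cons]
    refine add_le_add ?_ (ih (fun k hk => h k (Multiset.mem_cons_of_mem hk))
      fun k hk => h' k (Multiset.mem_cons_of_mem hk))
    rcases tri_kx he hi (h k (Multiset.mem_cons_self _ _)) (h' k (Multiset.mem_cons_self _ _)) with
      ⟨-, h1 | h1⟩ | ⟨m, -, -, h1, -⟩ | ⟨i', -, m, -, -, h1⟩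
    · rw [h1, Multiset.map_singleton, Multiset.sum_singleton]
    · rw [h1, Multiset.map_zero, Multiset.sum_zero]
      exact om_nonneg k
    · rw [h1, Multiset.map_singleton, Multiset.sum_singleton]
      exact om_nonneg k
    · rw [h1, Multiset.map_singleton, Multiset.sum_singleton]

theorem kx_bind {d J e i : ℕ} {I : Finset ℕ} (he : 2 ≤ e) (hi : i < J)
    {ms : Multiset Kd} (h : ∀ k ∈ ms, KdX d J e I k) (h' : ∀ k ∈ ms, AdmO d J k ∨ AdmC d J e k) :
    ∀ k ∈ ms.bind (tri i), KdX d J e (I.erase i) k ∧ (AdmO d J k ∨ AdmC d J e k) ∧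
      ((∃ x A, k = .ord x A) ∨ k ∈ ms) := by
  intro k hk
  obtain ⟨k₀, hk₀, hk⟩ := Multiset.mem_bind.1 hk
  rcases tri_kx he hi (h k₀ hk₀) (h' k₀ hk₀) with
    ⟨⟨x, A, rfl⟩, h1 | h1⟩ | ⟨m, -, -, h1, h2⟩ | ⟨i', hi', m, hm, h2, h1⟩
  · rw [h1, Multiset.mem_singleton] at hk
    subst hk
    have h3 : AdmO d J (.ord x A) := by
      rcases h _ hk₀ with h3 | ⟨_, _, _, _, h3⟩
      · exact h3
      · exact absurd h3 (by simp)
    exact ⟨Or.inl h3, Or.inl h3, Or.inl ⟨x, A, rfl⟩⟩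
  · rw [h1] at hk
    exact absurd hk (Multiset.notMem_zero _)
  · rw [h1, Multiset.mem_singleton] at hk
    subst hk
    exact ⟨Or.inl h2, Or.inl h2, Or.inl ⟨_, _, rfl⟩⟩
  · rw [h1, Multiset.mem_singleton] at hk
    subst hk
    exact ⟨Or.inr ⟨i', hi', m, hm, h2⟩, h' _ hk₀, Or.inr hk₀⟩

theorem count_bind_tri {i : ℕ} (ms : Multiset Kd) {x : ℕ} {A : Finset ℕ} (hA : i ∈ A) :
    ms.count (.ord x A) ≤ (ms.bind (tri i)).count (.ord x A) := by
  classical
  induction ms using Multiset.induction_on with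
  | empty => simp
  | cons k ms ih =>
    rw [Multiset.cons_bind, Multiset.count_add]
    by_cases h : k = .ord x A
    · subst h
      have h1 : tri i (.ord x A) = {.ord x A} := if_pos hA
      rw [h1, Multiset.count_cons_self, Multiset.count_singleton_self]
      omega
    · rw [Multiset.count_cons_of_ne (fun h' => h h'.symm)]
      omega

theorem nz_nn_l (c0 : ℕ → ℕ) (n0 : ℕ) (I : Finset ℕ) (D : ℕ) : 0 ≤ nz c0 n0 I D := by
  unfold nz
  positivity

/-- The bounds for a part of a state. -/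
theorem bp_sub {d J D e : ℕ} {σ : St} {I : Finset ℕ} {c0 : ℕ → ℕ} {n0 : ℕ} {η ϖ θ : ℝ}
    (hR : Rf J c0 n0 1) (hI : I ⊆ range J) (hD : D ≤ d) {st : Multiset Kd}
    (hin : InC d J e c0 n0 ϖ θ I (σ.wm st)) (hη : 0 ≤ η) (hθ : 3 * θ ≤ η) (hθ1 : 3 * θ ≤ 1)
    (hp : PosL J c0 n0 η (σ.wm st) I D) {R : Multiset Kd} (hRs : R ≤ st) :
    BP J c0 n0 (η - 3 * θ) (σ.wm R) I D := by
  intro I' hI' D' h1 h2 h3
  have hF : Fam (σ.wm st).ms R := ⟨R, 0, 0, by rw [add_zero]; exact hRs, by simp, by simp⟩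
  have h4 := cmp hR hI hD hin.c hin.n hin.adm hin.om hη hθ hθ1 hp hF I' hI' D' h1 h3
  have h5 := hp I' hI' D' h1 h2 h3
  have h6 := nz_nn_l c0 n0 I' D'
  have h7 : ((σ.wm st).wm R).V J I' D' = (σ.wm R).V J I' D' := rfl
  rw [h7] at h4
  constructor
  · nlinarith only [h4, h5, h4.1]
  · nlinarith only [h4, hθ1, h6, h4.2]

theorem ph2_low {d J e D : ℕ} (hD : D ≤ d) (hXC : ∀ s < D, XC d J e s) {η ϖ : ℝ} (hη : 0 < η)
    (hη1 : η ≤ 1) (hϖ : 0 < ϖ) : ∃ θ : ℝ, 0 < θ ∧ ∃ F : (ℕ → ℕ) → ℕ, ∀ c0 : ℕ → ℕ,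
    Hr 0 J F c0 → ∃ n1 : ℕ, ∀ n0, n1 ≤ n0 → ∀ (σ : St) (I : Finset ℕ), I ⊆ range J →
      ∀ (i k c : ℕ), i ∈ I → 2 ≤ k →
        AdmC d J e (.cl e 0 i (List.replicate k ((range J).erase i))) → 1 ≤ c →
        (64 * d * c : ℝ) ≤ min η ϖ * c0 i → e ≤ D + 1 →
        InC d J e c0 n0 ϖ θ I (σ.wm (.cl e 0 i (List.replicate k ((range J).erase i)) ::ₘ
          (Multiset.replicate ((c - 1) * (k - 1)) (.ord e ((range J).erase i)) + σ.ms))) →
        (∀ k' ∈ .cl e 0 i (List.replicate k ((range J).erase i)) ::ₘ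
          (Multiset.replicate ((c - 1) * (k - 1)) (.ord e ((range J).erase i)) + σ.ms),
          AdmO d J k' ∨ ∃ i ∈ I, ∃ m, 2 ≤ m ∧
            k' = .cl e 0 i (List.replicate m ((range J).erase i))) →
        IP J e c0 ((D + 1) * d) (.cl e 0 i (List.replicate k ((range J).erase i)) ::ₘ
          (Multiset.replicate ((c - 1) * (k - 1)) (.ord e ((range J).erase i)) + σ.ms)) →
        PosL J c0 n0 η (σ.wm (.cl e 0 i (List.replicate k ((range J).erase i)) ::ₘ
          (Multiset.replicate ((c - 1) * (k - 1)) (.ord e ((range J).erase i)) + σ.ms))) I D →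
        (c * (k - 1) < σ.c i ∧ 1 ≤ σ.w) ∧
        (∀ t, 1 ≤ t → t ≤ c → ∀ s, s + e ≤ D + 1 →
          ((((σ.wm (Multiset.replicate ((c - t) * (k - 1)) (.ord e ((range J).erase i)) +
            σ.ms)).lo i (t * (k - 1))).lw 1)).dl d J I s ≤ 0) ∧
        (∀ s, s + e ≤ D → ((σ.li i).lw 1).dl d J (I.erase i) s ≤ 0) := by
  classical
  have hxc := fun s : Fin D => hXC s.1 s.2 (η / 4) (ϖ / 2) (by positivity) (by positivity)
  choose θs hθs Fs hFs using hxc
  obtain ⟨θ₀, hθ₀, hθle⟩ : ∃ θ₀ : ℝ, 0 < θ₀ ∧ ∀ s, θ₀ ≤ θs s := by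
    rcases isEmpty_or_nonempty (Fin D) with h | h
    · exact ⟨1, one_pos, fun s => (h.false s).elim⟩
    · obtain ⟨s₀, hs₀⟩ := Finite.exists_min θs
      exact ⟨θs s₀, hθs s₀, hs₀⟩
  refine ⟨min (η / 32) θ₀, lt_min (by positivity) hθ₀, fun g => 1 + ∑ s, Fs s g,
    fun c0 hHr => ?_⟩
  have hFle : ∀ s, Hr 0 J (Fs s) c0 := fun s l h1 h2 => by
    have h3 := hHr l h1 h2
    have h4 : Fs s (rs (l + 1) J c0) ≤ ∑ s, Fs s (rs (l + 1) J c0) :=
      single_le_sum (f := fun s => Fs s (rs (l + 1) J c0)) (fun _ _ => Nat.zero_le _) (mem_univ s)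
    have h5 : 1 + ∑ s, Fs s (rs (l + 1) J c0) ≤ c0 l := h3
    omega
  have hc01 : ∀ l < J, 1 ≤ c0 l := fun l hl => by
    have h5 : 1 + ∑ s, Fs s (rs (l + 1) J c0) ≤ c0 l := hHr l (Nat.zero_le _) hl
    omega
  have hn1 := fun s => hFs s c0 (hFle s)
  choose ns hns using hn1
  obtain ⟨K, hK⟩ := exists_nat_ge (64 / η + 64 / ϖ + 64)
  have hKη : 64 ≤ K * η := by
    have h1 : 64 / η ≤ K := by
      have : 0 ≤ 64 / ϖ := by positivity
      linarith only [hK, this]
    rwa [div_le_iff₀ hη] at h1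
  have hKϖ : 64 ≤ K * ϖ := by
    have h1 : 64 / ϖ ≤ K := by
      have : 0 ≤ 64 / η := by positivity
      linarith only [hK, this]
    rwa [div_le_iff₀ hϖ] at h1
  have hK1 : (64 : ℝ) ≤ K := by
    have : 0 ≤ 64 / ϖ := by positivity
    have : 0 ≤ 64 / η := by positivity
    linarith
  refine ⟨∑ s, ns s + K * (1 + ∑ l ∈ range J, c0 l), fun n0 hn0 σ I hI i k c hi hk hadm hc
    hcb heD hin hkx hip hpos => ?_⟩
  have hnsle : ∀ s, ns s ≤ n0 := fun s => by
    have h4 : ns s ≤ ∑ s, ns s :=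
      single_le_sum (f := ns) (fun _ _ => Nat.zero_le _) (mem_univ s)
    omega
  obtain ⟨B, hB⟩ : ∃ B, B = (range J).erase i := ⟨_, rfl⟩
  rw [← hB] at hadm hin hkx hip hpos ⊢
  obtain ⟨st, hst⟩ : ∃ st : Multiset Kd, st = .cl e 0 i (List.replicate k B) ::ₘ
    (Multiset.replicate ((c - 1) * (k - 1)) (.ord e B) + σ.ms) := ⟨_, rfl⟩
  rw [← hst] at hin hkx hip hpos
  have hiJ : i < J := mem_range.1 (hI hi)
  have hiB : i ∉ B := by
    rw [hB]
    exact notMem_erase _ _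
  -- sizes
  have hn0R : (K : ℝ) * (1 + ∑ l ∈ range J, (c0 l : ℝ)) ≤ n0 := by
    have h1 : K * (1 + ∑ l ∈ range J, c0 l) ≤ n0 := by omega
    calc (K : ℝ) * (1 + ∑ l ∈ range J, (c0 l : ℝ)) = ((K * (1 + ∑ l ∈ range J, c0 l) : ℕ) : ℝ) := by
          push_cast
          ring
      _ ≤ n0 := by exact_mod_cast h1
  have hsum0 : (0 : ℝ) ≤ ∑ l ∈ range J, (c0 l : ℝ) := sum_nonneg fun _ _ => Nat.cast_nonneg _
  have hRf : Rf J c0 n0 1 :=
    { c := fun l hl => by exact_mod_cast hc01 l hl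
      n := by nlinarith only [hK1, hn0R, hsum0] }
  have hn0K : (K : ℝ) ≤ n0 := by nlinarith only [hn0R, hsum0]
  have hn0pos : (0 : ℝ) < n0 := by linarith only [hK1, hn0K]
  have hc0i : (1 : ℝ) ≤ c0 i := hRf.c i hiJ
  have hc0in : (K : ℝ) * c0 i ≤ n0 := by
    have h1 : (c0 i : ℝ) ≤ ∑ l ∈ range J, (c0 l : ℝ) :=
      single_le_sum (f := fun l => (c0 l : ℝ)) (fun _ _ => Nat.cast_nonneg _) (mem_range.2 hiJ)
    nlinarith only [hK1, hn0R, h1]
  obtain ⟨he2, hkd, hed⟩ : 2 ≤ e ∧ k ≤ d ∧ e ≤ d := by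
    obtain ⟨dl, i', As, h1, h2, h3, h4, h5, h6⟩ := hadm
    rw [Kd.cl.injEq] at h1
    obtain ⟨-, -, -, h7⟩ := h1
    rw [← h7, List.length_replicate] at h4
    have h8 : k * 1 ≤ k * (e - 1) := Nat.mul_le_mul_left _ (by omega)
    unfold trx at h4
    refine ⟨h2, by omega, ?_⟩
    have h9 : 1 * (e - 1) ≤ k * (e - 1) := Nat.mul_le_mul_right _ (by omega)
    omega
  have hmin1 : min η ϖ ≤ η := min_le_left _ _
  have hmin2 : min η ϖ ≤ ϖ := min_le_right _ _
  have htb : ∀ t ≤ c, 64 * ((t * (k - 1) : ℕ) : ℝ) ≤ min η ϖ * c0 i := by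
    intro t ht
    refine le_trans ?_ hcb
    have h1 : t * (k - 1) ≤ d * c := by
      calc t * (k - 1) ≤ c * d := Nat.mul_le_mul ht (by omega)
        _ = d * c := Nat.mul_comm _ _
    have h2 : ((t * (k - 1) : ℕ) : ℝ) ≤ ((d * c : ℕ) : ℝ) := by exact_mod_cast h1
    push_cast at h2 ⊢
    nlinarith only [h2]
  have hci : ϖ * c0 i ≤ σ.c i := hin.c' i hi
  have hϖc : 0 < ϖ * c0 i := by positivity
  have htc : ∀ t ≤ c, t * (k - 1) < σ.c i := by
    intro t ht
    have h1 := htb t ht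
    have h2 : min η ϖ * c0 i ≤ ϖ * c0 i := mul_le_mul_of_nonneg_right hmin2 (by linarith only [hc0i])
    have h3 : ((t * (k - 1) : ℕ) : ℝ) < σ.c i := by linarith only [hci, hϖc, h1, h2]
    exact_mod_cast h3
  have hw : ϖ * n0 ≤ σ.w := hin.w
  have hϖn : 64 ≤ ϖ * n0 := by nlinarith only [hKϖ, hϖ, hn0K]
  have hw1 : 1 ≤ σ.w := by
    have h1 : (1 : ℝ) ≤ σ.w := by linarith only [hw, hϖn]
    exact_mod_cast h1
  have hθ3 : 3 * min (η / 32) θ₀ ≤ η := by
    have : min (η / 32) θ₀ ≤ η / 32 := min_le_left _ _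
    linarith only [hη, this]
  have hθ4 : 3 * min (η / 32) θ₀ ≤ 3 * η / 32 := by
    have : min (η / 32) θ₀ ≤ η / 32 := min_le_left _ _
    linarith only [this]
  have hbp := fun (R : Multiset Kd) (hRs : R ≤ st) => bp_sub hRf hI hD hin hη.le hθ3
    (by linarith only [hη1, hθ4]) hpos hRs
  -- the part `σ.ms`
  have hσst : σ.ms ≤ st := by
    rw [hst]
    exact (Multiset.le_add_left _ _).trans (Multiset.le_cons_self _ _)
  have hσadm : ∀ k' ∈ σ.ms, AdmO d J k' ∨ AdmC d J e k' := fun k' hk' =>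
    hin.adm k' (Multiset.mem_of_le hσst hk')
  have hσkx : ∀ k' ∈ σ.ms, KdX d J e I k' := fun k' hk' => hkx k' (Multiset.mem_of_le hσst hk')
  have hσom : (σ.ms.map (om c0 n0 J)).sum ≤ min (η / 32) θ₀ := by
    refine le_trans ?_ hin.om
    show (σ.ms.map (om c0 n0 J)).sum ≤ (st.map (om c0 n0 J)).sum
    rw [hst, Multiset.map_cons, Multiset.sum_cons, Multiset.map_add, Multiset.sum_add,
      Multiset.map_replicate, Multiset.sum_replicate]
    have h1 : om c0 n0 J (.ord e B) = 0 := rfl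
    have h2 := om_nonneg (c0 := c0) (n0 := n0) (J := J) (.cl e 0 i (List.replicate k B))
    rw [h1, smul_zero]
    linarith only [h2]
  have hadmB : AdmO d J (.ord e B) := by
    refine ⟨e, B, rfl, by omega, hed, by rw [hB]; exact erase_subset _ _, ?_⟩
    have h6 : range J \ B ⊆ {i} := by
      intro x hx
      rw [hB, mem_sdiff, mem_erase, not_and_or, not_not] at hx
      rw [mem_singleton]
      rcases hx.2 with h | h
      · exact h
      · exact absurd hx.1 h
    exact ((card_le_card h6).trans (by simp)).trans (by omega : 1 ≤ e)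
  have hcount : ∀ i' < J, i' ≠ i →
      st.count (.ord e ((range J).erase i')) = σ.ms.count (.ord e ((range J).erase i')) := by
    intro i' hi' hne
    rw [hst, Multiset.count_cons_of_ne (by simp), Multiset.count_add, Multiset.count_replicate,
      if_neg, zero_add]
    intro h
    rw [Kd.ord.injEq, hB] at h
    exact hne (erase_inj_l hi' h.2.symm)
  have hcounti : st.count (.ord e B) = (c - 1) * (k - 1) + σ.ms.count (.ord e B) := by
    rw [hst, Multiset.count_cons_of_ne (by simp), Multiset.count_add,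
      Multiset.count_replicate_self]
  refine ⟨⟨htc c le_rfl, hw1⟩, fun t ht1 htc' s hs => ?_, fun s hs => ?_⟩
  · -- the smaller blocks
    have hsD : s < D := by omega
    obtain ⟨R, hR⟩ : ∃ R : Multiset Kd, R =
        Multiset.replicate ((c - t) * (k - 1)) (.ord e B) + σ.ms := ⟨_, rfl⟩
    rw [← hR]
    have hRst : R ≤ st := by
      rw [hst, hR]
      refine le_trans ?_ (Multiset.le_cons_self _ _)
      refine add_le_add ?_ le_rfl
      exact Multiset.replicate_mono _ (Nat.mul_le_mul_right _ (by omega))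
    have hRadm : ∀ k' ∈ R, AdmO d J k' ∨ AdmC d J e k' := fun k' hk' =>
      hin.adm k' (Multiset.mem_of_le hRst hk')
    have hb := hbp R hRst
    have h2t : 2 * ((t * (k - 1) : ℕ) : ℝ) / c0 i ≤ η / 32 := by
      rw [div_le_iff₀ (by linarith only [hc0i])]
      have h1 := htb t htc'
      have h2 : min η ϖ * c0 i ≤ η * c0 i := mul_le_mul_of_nonneg_right hmin1 (by linarith only [hc0i])
      linarith only [h1, h2]
    have h2n : 2 * ((1 : ℕ) : ℝ) / n0 ≤ η / 32 := by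
      rw [div_le_iff₀ hn0pos]
      push_cast
      nlinarith only [hKη, hη, hn0K]
    have hlo := near_lo (σ := σ.wm R) hRf hI hD hRadm hiJ (htc t htc').le (by linarith only [hη, hθ4, h2t]) hb
    have hb2 : BP J c0 n0 (η - 3 * min (η / 32) θ₀ - η / 32) ((σ.wm R).lo i (t * (k - 1))) I D := by
      intro I' hI' D' h1 h2 h3
      have h4 := hlo I' hI' D' h1 h3
      have h5 := hb I' hI' D' h1 h2 h3
      have h6 := nz_nn_l c0 n0 I' D'
      constructor
      · have h7 : 2 * ((t * (k - 1) : ℕ) : ℝ) / c0 i * nz c0 n0 I' D' ≤ η / 32 * nz c0 n0 I' D' :=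
          mul_le_mul_of_nonneg_right h2t h6
        nlinarith only [h4, h5, h7, h4.1, h5.1]
      · have h8 : (((σ.wm R).lo i (t * (k - 1))).V J I' D' : ℝ) ≤ (σ.wm R).V J I' D' := by
          exact_mod_cast h4.2
        linarith only [h5, h8, h5.2]
    have hlw := near_lw (σ := (σ.wm R).lo i (t * (k - 1))) hRf hI hD hRadm (s := 1) hw1
      (by linarith only [hη, hθ4, h2n]) hb2
    refine hns ⟨s, hsD⟩ n0 (hnsle _) _ I hI
      { c := fun l => ?_
        c' := fun l hl => ?_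
        n := ?_
        w := ?_
        adm := hRadm
        om := ?_ } (hh_kx fun k' hk' => hkx k' (Multiset.mem_of_le hRst hk')) ?_ ?_
    · show Function.update σ.c i (σ.c i - t * (k - 1)) l ≤ c0 l
      by_cases h : l = i
      · rw [h, Function.update_self]
        exact (Nat.sub_le _ _).trans (hin.c i)
      · rw [Function.update_of_ne h]
        exact hin.c l
    · show ϖ / 2 * (c0 l : ℝ) ≤ ((Function.update σ.c i (σ.c i - t * (k - 1)) l : ℕ) : ℝ)
      by_cases h : l = i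
      · rw [h, Function.update_self, Nat.cast_sub (htc t htc').le]
        have h1 := htb t htc'
        have h2 : min η ϖ * c0 i ≤ ϖ * c0 i := mul_le_mul_of_nonneg_right hmin2 (by linarith only [hc0i])
        linarith only [hci, hϖc, h1, h2]
      · rw [Function.update_of_ne h]
        have h1 : ϖ * c0 l ≤ σ.c l := hin.c' l hl
        have h2 : (0 : ℝ) ≤ ϖ * c0 l := by positivity
        linarith only [h1]
    · have h1 := St.n_lo (J := J) (σ.wm R) (a := i) (t := t * (k - 1)) hiJ (htc t htc').le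
      have h2 := St.n_lw (J := J) ((σ.wm R).lo i (t * (k - 1))) (s := 1) hw1
      have h3 : (σ.wm R).n J ≤ n0 := hin.n
      omega
    · show ϖ / 2 * (n0 : ℝ) ≤ ((σ.w - 1 : ℕ) : ℝ)
      rw [Nat.cast_sub hw1]
      push_cast
      linarith only [hw, hϖn]
    · refine le_trans ?_ (hθle ⟨s, hsD⟩)
      refine le_trans ?_ (min_le_right (η / 32) θ₀)
      refine le_trans ?_ hσom
      show (R.map (om c0 n0 J)).sum ≤ (σ.ms.map (om c0 n0 J)).sum
      rw [hR, Multiset.map_add, Multiset.sum_add, Multiset.map_replicate, Multiset.sum_replicate]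
      have h1 : om c0 n0 J (.ord e B) = 0 := rfl
      rw [h1, smul_zero, zero_add]
    · intro i' hi' hex
      obtain ⟨m, hm, hmem⟩ := hex
      have h1 := hip i' hi' ⟨m, hm, Multiset.mem_of_le hRst hmem⟩
      have h2 : (s + 1) * d * c0 i' ≤ (D + 1) * d * c0 i' :=
        Nat.mul_le_mul_right _ (Nat.mul_le_mul_right _ (by omega))
      show (s + 1) * d * c0 i' ≤ R.count _
      by_cases h : i' = i
      · subst h
        rw [← hB] at h1 ⊢
        rw [hcounti] at h1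
        rw [hR, Multiset.count_add, Multiset.count_replicate_self]
        have h3 : c ≤ c0 i' := by
          have h4 : (c : ℝ) ≤ c0 i' := by
            have h5 : (1 : ℝ) ≤ d := by exact_mod_cast (by omega : 1 ≤ d)
            have h6 : (0 : ℝ) ≤ c := Nat.cast_nonneg _
            have h7 : min η ϖ * c0 i' ≤ 1 * c0 i' :=
              mul_le_mul_of_nonneg_right (hmin1.trans hη1) (by linarith only [hc0i])
            nlinarith only [hcb, h5, h7, hc0i]
          exact_mod_cast h4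
        have h4 : (c - 1) * (k - 1) ≤ d * c0 i' := by
          calc (c - 1) * (k - 1) ≤ c0 i' * d := Nat.mul_le_mul (by omega) (by omega)
            _ = d * c0 i' := Nat.mul_comm _ _
        have h5 : (s + 1) * d * c0 i' + d * c0 i' ≤ (D + 1) * d * c0 i' := by
          have h6 : (s + 1) * d * c0 i' + d * c0 i' = (s + 2) * d * c0 i' := by ring
          rw [h6]
          exact Nat.mul_le_mul_right _ (Nat.mul_le_mul_right _ (by omega))
        omega
      · have h3 := hcount i' hi' h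
        have h4 : σ.ms ≤ R := by
          rw [hR]
          exact Multiset.le_add_left _ _
        have h5 := Multiset.count_le_of_le (.ord e ((range J).erase i')) h4
        omega
    · intro I' hI' D' h1 h2
      have h3 : D' < D := by omega
      have h4 : D' + (I \ I').card ≤ D := by omega
      have h5 := (hb2 I' hI' D' h1 h3 h4).1
      have h6 := (hlw I' hI' D' h1 h4).1
      have h7 := nz_nn_l c0 n0 I' D'
      have h8 : 2 * ((1 : ℕ) : ℝ) / n0 * nz c0 n0 I' D' ≤ η / 32 * nz c0 n0 I' D' :=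
        mul_le_mul_of_nonneg_right h2n h7
      nlinarith only [h5, h6, h8, hθ3, h7, hθ4]
  · -- the trace
    have hsD : s < D := by omega
    have hb := hbp σ.ms hσst
    have h2n : 2 * ((1 : ℕ) : ℝ) / n0 ≤ η / 32 := by
      rw [div_le_iff₀ hn0pos]
      push_cast
      nlinarith only [hKη, hη, hn0K]
    have h2c : 2 * (c0 i : ℝ) / n0 ≤ η / 32 := by
      rw [div_le_iff₀ hn0pos]
      nlinarith only [hKη, hη, hc0in]
    have hlw := near_lw (σ := σ.wm σ.ms) hRf hI hD hσadm (s := 1) hw1 (by linarith only [hη, hθ4, h2n]) hb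
    have hb2 : BP J c0 n0 (η - 3 * min (η / 32) θ₀ - η / 32) (σ.lw 1) I D := by
      intro I' hI' D' h1 h2 h3
      have h4 := hlw I' hI' D' h1 h3
      have h5 := hb I' hI' D' h1 h2 h3
      have h6 := nz_nn_l c0 n0 I' D'
      constructor
      · have h7 : 2 * ((1 : ℕ) : ℝ) / n0 * nz c0 n0 I' D' ≤ η / 32 * nz c0 n0 I' D' :=
          mul_le_mul_of_nonneg_right h2n h6
        have h8 : (((σ.wm σ.ms).lw 1).V J I' D' : ℝ) = (σ.lw 1).V J I' D' := rfl
        nlinarith only [h4, h5, h7, h8, h4.1, h5.1]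
      · have h8 : (((σ.wm σ.ms).lw 1).V J I' D' : ℝ) ≤ (σ.wm σ.ms).V J I' D' := by
          exact_mod_cast h4.2
        have h9 : (((σ.wm σ.ms).lw 1).V J I' D' : ℝ) = (σ.lw 1).V J I' D' := rfl
        linarith only [h5, h8, h9, h5.2]
    have hli := near_li (σ := σ.lw 1) hRf hI hD hσadm hi hb2
    have hkb := kx_bind he2 hiJ hσkx hσadm
    refine hns ⟨s, hsD⟩ n0 (hnsle _) _ (I.erase i) ((erase_subset _ _).trans hI)
      { c := fun l => ?_
        c' := fun l hl => ?_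
        n := ?_
        w := ?_
        adm := fun k' hk' => (hkb k' hk').2.1
        om := ?_ } (hh_kx fun k' hk' => (hkb k' hk').1) ?_ ?_
    · show Function.update σ.c i 0 l ≤ c0 l
      by_cases h : l = i
      · rw [h, Function.update_self]
        exact Nat.zero_le _
      · rw [Function.update_of_ne h]
        exact hin.c l
    · show ϖ / 2 * (c0 l : ℝ) ≤ ((Function.update σ.c i 0 l : ℕ) : ℝ)
      rw [mem_erase] at hl
      rw [Function.update_of_ne hl.1]
      have h1 : ϖ * c0 l ≤ σ.c l := hin.c' l hl.2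
      have h2 : (0 : ℝ) ≤ ϖ * c0 l := by positivity
      linarith only [h1]
    · have h3 : σ.n J ≤ n0 := hin.n
      refine le_trans ?_ h3
      show ∑ l ∈ range J, Function.update σ.c i 0 l + (σ.w - 1) ≤ ∑ l ∈ range J, σ.c l + σ.w
      refine add_le_add (sum_le_sum fun l _ => ?_) (Nat.sub_le _ _)
      by_cases h : l = i
      · rw [h, Function.update_self]
        exact Nat.zero_le _
      · rw [Function.update_of_ne h]
    · show ϖ / 2 * (n0 : ℝ) ≤ ((σ.w - 1 : ℕ) : ℝ)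
      rw [Nat.cast_sub hw1]
      push_cast
      linarith only [hw, hϖn]
    · refine le_trans ?_ (hθle ⟨s, hsD⟩)
      refine le_trans ?_ (min_le_right (η / 32) θ₀)
      exact (om_tri he2 hiJ hσkx hσadm).trans hσom
    · intro i' hi' hex
      obtain ⟨m, hm, hmem⟩ := hex
      obtain ⟨h1, -, h2⟩ := hkb _ hmem
      have h3 : i' ∈ I.erase i := (kx_cl h1).2.2.1
      have h4 : i' ≠ i := (mem_erase.1 h3).1
      have h5 : .cl e 0 i' (List.replicate m ((range J).erase i')) ∈ σ.ms := by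
        rcases h2 with ⟨x, A, h⟩ | h
        · exact absurd h (by simp)
        · exact h
      have h6 := hip i' hi' ⟨m, hm, Multiset.mem_of_le hσst h5⟩
      rw [hcount i' hi' h4] at h6
      have h7 : (s + 1) * d * c0 i' ≤ (D + 1) * d * c0 i' :=
        Nat.mul_le_mul_right _ (Nat.mul_le_mul_right _ (by omega))
      have h8 := count_bind_tri (i := i) σ.ms (x := e) (A := (range J).erase i')
        (mem_erase.2 ⟨fun h => h4 h.symm, mem_range.2 hiJ⟩)
      exact (h7.trans h6).trans h8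
    · intro I' hI' D' h1 h2
      have hII : I' ⊆ I := hI'.trans (erase_subset _ _)
      have hcard : (I \ I').card = ((I.erase i) \ I').card + 1 := by
        have h3 : I \ I' = insert i ((I.erase i) \ I') := by
          ext x
          rw [mem_insert, mem_sdiff, mem_sdiff, mem_erase]
          constructor
          · rintro ⟨h4, h5⟩
            by_cases h6 : x = i
            · exact Or.inl h6
            · exact Or.inr ⟨⟨h6, h4⟩, h5⟩
          · rintro (h4 | ⟨⟨-, h4⟩, h5⟩)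
            · subst h4
              exact ⟨hi, fun h5 => notMem_erase _ _ (hI' h5)⟩
            · exact ⟨h4, h5⟩
        rw [h3, card_insert_of_notMem]
        intro h4
        exact notMem_erase _ _ (mem_sdiff.1 h4).1
      have h3 : D' < D := by omega
      have h4 : D' + (I \ I').card ≤ D := by omega
      have h5 := (hb2 I' hII D' h1 h3 h4).1
      have h6 := hli I' hI' D' h1 h3 h4
      have h7 := nz_nn_l c0 n0 I' D'
      have h8 : 2 * (c0 i : ℝ) / n0 * nz c0 n0 I' D' ≤ η / 32 * nz c0 n0 I' D' :=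
        mul_le_mul_of_nonneg_right h2c h7
      have h9 : ((((σ.li i).lw 1).V J I' D' : ℤ) : ℝ) = (((σ.lw 1).li i).V J I' D' : ℤ) := rfl
      rw [h9]
      nlinarith only [h5, h6, h8, hθ3, h7, hθ4]

end Pool.Agent.GD.AL

end

section

/-!
# General d, ALPHA, part C, phase 2: the states stay in the class

`ph2_up`: a state with clusters whose top virtual dimension is large has large lower virtual dimensions
(`cmp_all`, `lb_orc` and `P1` for the state with all clusters replaced by their members).  `ph2_diff`: the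
virtual dimensions of the two new states of a step.
-/

set_option autoImplicit false

namespace Pool.Agent.GD.AL

open Finset

section

variable {d J D e : ℕ} {σ : St} {I : Finset ℕ} {c0 : ℕ → ℕ} {n0 : ℕ} {η ϖ θ : ℝ}

private theorem inO_mono {I' : Finset ℕ} (h : I' ⊆ I) (ho : InO d J c0 n0 ϖ I σ) :
    InO d J c0 n0 ϖ I' σ := ⟨ho.c, fun l hl => ho.c' l (h hl), ho.n, ho.w, ho.adm⟩

/-- The oracle from the exactness of the states with ordinary objects. -/
theorem orc_of (d J D : ℕ) (hXO : ∀ s < D, XO d J s) {η ϖ : ℝ} (hη : 0 < η) (hϖ : 0 < ϖ) :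
    ∃ F : (ℕ → ℕ) → ℕ, ∀ c0 : ℕ → ℕ, Hr 0 J F c0 → ∃ n1 : ℕ, ∀ n0, n1 ≤ n0 →
      ∀ I : Finset ℕ, I ⊆ range J → Orc d J c0 n0 (fun _ => True) I D η ϖ := by
  classical
  have h1 : ∀ s, ∃ F : (ℕ → ℕ) → ℕ, s < D → ∀ c0 : ℕ → ℕ, Hr 0 J F c0 → ∃ n1 : ℕ, ∀ n0, n1 ≤ n0 →
      ∀ (σ : St) (I : Finset ℕ), I ⊆ range J →
        InO d J c0 n0 ϖ I σ → Pos J c0 n0 η σ I s → σ.Ex d J I s := by
    intro s
    by_cases hs : s < D
    · obtain ⟨F, hF⟩ := hXO s hs η ϖ hη hϖ
      exact ⟨F, fun _ => hF⟩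
    · exact ⟨fun _ => 0, fun h => absurd h hs⟩
  choose F hF using h1
  refine ⟨fun c => ∑ s ∈ range D, F s c, fun c0 hc0 => ?_⟩
  have h2 : ∀ s, ∃ n1 : ℕ, s < D → ∀ n0, n1 ≤ n0 → ∀ (σ : St) (I : Finset ℕ), I ⊆ range J →
      InO d J c0 n0 ϖ I σ → Pos J c0 n0 η σ I s → σ.Ex d J I s := by
    intro s
    by_cases hs : s < D
    · obtain ⟨n1, hn1⟩ := hF s hs c0 fun l h h' =>
        (single_le_sum (f := fun s => F s (rs (l + 1) J c0)) (fun _ _ => Nat.zero_le _)
          (mem_range.2 hs)).trans (hc0 l h h')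
      exact ⟨n1, fun _ => hn1⟩
    · exact ⟨0, fun h => absurd h hs⟩
  choose n1 hn1 using h2
  refine ⟨∑ s ∈ range D, n1 s, fun n0 hn0 I hI τ hτ _ I' hI' D' hD' hp => ?_⟩
  exact hn1 D' hD' n0 ((single_le_sum (f := n1) (fun _ _ => Nat.zero_le _)
    (mem_range.2 hD')).trans hn0) τ I' (hI'.trans hI) (inO_mono hI' hτ) hp

theorem ph2_up {d J e D : ℕ} (hD : D ≤ d) (hXO : ∀ s < D, XO d J s) {η ϖ : ℝ} (hη : 0 < η)
    (hη1 : η ≤ 1) (hϖ : 0 < ϖ) : ∃ θ : ℝ, 0 < θ ∧ ∃ F : (ℕ → ℕ) → ℕ, ∀ c0 : ℕ → ℕ, Hr 0 J F c0 →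
      ∃ n1 : ℕ, ∀ n0, n1 ≤ n0 → ∀ (σ : St) (I : Finset ℕ), I ⊆ range J → I.card ≤ D →
        InC d J e c0 n0 ϖ θ I σ → PosL J c0 n0 (η / 2) σ I D →
        3 / 4 * η * nz c0 n0 I D ≤ (σ.V J I D : ℝ) → PosL J c0 n0 (9 / 16 * η) σ I D := by
  classical
  obtain ⟨F, hF⟩ := orc_of d J D hXO (η := η / 4) (ϖ := ϖ) (by linarith) hϖ
  refine ⟨η / 64, by linarith, ?_⟩
  set K : ℝ := 4 * (d + 1) / (η / 64) + 4 with hK
  have hK1 : 1 ≤ K := by
    have : 0 ≤ 4 * ((d : ℝ) + 1) / (η / 64) := by positivity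
    rw [hK]
    linarith
  refine ⟨fun c => F c + ⌈K⌉₊, fun c0 hc0 => ?_⟩
  obtain ⟨n1, hn1⟩ := hF c0 fun l h h' => (Nat.le_add_right _ _).trans (hc0 l h h')
  have hcK : ∀ l < J, K ≤ (c0 l : ℝ) := by
    intro l hl
    have h1 := hc0 l (Nat.zero_le _) hl
    have h2 : ⌈K⌉₊ ≤ c0 l := (Nat.le_add_left _ _).trans h1
    exact (Nat.le_ceil K).trans (by exact_mod_cast h2)
  refine ⟨n1 + ⌈K * (1 + ∑ l ∈ range J, (c0 l : ℝ)) ^ (d + 1)⌉₊, fun n0 hn0 σ I hI hID hC hp hv => ?_⟩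
  have hnK : K * (1 + ∑ l ∈ range J, (c0 l : ℝ)) ^ (d + 1) ≤ n0 :=
    (Nat.le_ceil _).trans (by
      have h1 : ⌈K * (1 + ∑ l ∈ range J, (c0 l : ℝ)) ^ (d + 1)⌉₊ ≤ n0 := by omega
      exact_mod_cast h1)
  have hS0 : (0 : ℝ) ≤ ∑ l ∈ range J, (c0 l : ℝ) := sum_nonneg fun l _ => Nat.cast_nonneg _
  have hR : Rf J c0 n0 1 := by
    refine ⟨fun l hl => hK1.trans (hcK l hl), ?_⟩
    rw [one_mul]
    have h1 : (1 + ∑ l ∈ range J, (c0 l : ℝ)) ≤ (1 + ∑ l ∈ range J, (c0 l : ℝ)) ^ (d + 1) :=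
      le_self_pow₀ (by linarith) (by omega)
    have h2 : (1 + ∑ l ∈ range J, (c0 l : ℝ)) ^ (d + 1) ≤
        K * (1 + ∑ l ∈ range J, (c0 l : ℝ)) ^ (d + 1) :=
      le_mul_of_one_le_left (by positivity) hK1
    linarith
  have hB : Big d J c0 n0 I K := ⟨fun l hl => hcK l (mem_range.1 (hI hl)), hnK⟩
  have hcmp := cmp_all (η := η / 2) (θ := η / 64) hR hI hD hC.c hC.n hC.adm hC.om (by linarith)
    (by linarith) (by linarith) hp
  -- the state without clusters
  set σ0 : St := σ.wm (σ.ms.bind mmb) with hσ0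
  have ho : InO d J c0 n0 ϖ I σ0 := ⟨hC.c, hC.c', hC.n, hC.w, fam_bind_ok hC.adm⟩
  have hp0 : PosL J c0 n0 (η / 4) σ0 I D := by
    intro I' hI' D' h1 h2 h3
    have h4 := hp I' hI' D' h1 h2 h3
    have h5 := (abs_le.1 (hcmp I' hI' D' h1 h3)).2
    have h6 := fam_nz_nonneg c0 n0 I' D'
    have h7 : η / 4 * nz c0 n0 I' D' + 3 * (η / 64) * nz c0 n0 I' D' ≤ η / 2 * nz c0 n0 I' D' := by
      rw [← add_mul]
      exact mul_le_mul_of_nonneg_right (by linarith) h6
    linarith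
  obtain ⟨hlb, hex⟩ := lb_orc (G := fun _ => True) hD hI ho (fun _ _ => trivial) (by linarith) hp0
    (hn1 n0 (by omega) I hI)
  have hv0 : (45 / 64 * η) * nz c0 n0 I D ≤ (σ0.V J I D : ℝ) := by
    have h5 := (abs_le.1 (hcmp I subset_rfl D hID (by simp))).2
    have h6 := fam_nz_nonneg c0 n0 I D
    have h7 : 45 / 64 * η * nz c0 n0 I D + 3 * (η / 64) * nz c0 n0 I D ≤
        3 / 4 * η * nz c0 n0 I D := by
      rw [← add_mul]
      exact mul_le_mul_of_nonneg_right (by linarith) h6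
    linarith
  have h8 := P1 (σ := σ0) (ε := η / 64) hD hI hID (by linarith : 0 ≤ 45 / 64 * η) (by linarith) hC.c hC.n hB
    hex hlb hv0
  intro I' hI' D' h1 h2 h3
  have h4 := h8 I' hI' D' h1 h2 h3
  have h5 := (abs_le.1 (hcmp I' hI' D' h1 h3)).1
  have h6 := fam_nz_nonneg c0 n0 I' D'
  have h7 : 9 / 16 * η * nz c0 n0 I' D' + 3 * (η / 64) * nz c0 n0 I' D' ≤
      (45 / 64 * η - η / 64) * nz c0 n0 I' D' := by
    rw [← add_mul]
    exact mul_le_mul_of_nonneg_right (by linarith) h6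
  linarith

/-! ### the two new states of a step -/

end

end Pool.Agent.GD.AL

end
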