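import Pool.Agent.H94.LP7.M74
import Pool.Agent.H94.LP7.M75
import Pool.Agent.H94.LP7.M76

/-! The parts of this file: GD.AL.Ph2a_1, GD.AL.Ph2c. -/

section

/-!
# General d, ALPHA, part C: phase 2, preparations
-/

set_option autoImplicit false

namespace Pool.Agent.GD.AL

open Finset

/-! ### Numbers -/

theorem p2_exp {p x₀ x₁ y z : ℝ} (hp : 0 ≤ p) (hp2 : p ≤ 1 / 2) (hy : 0 ≤ y) (hy1 : y ≤ 1)
    (hz : 0 ≤ z) (hz1 : z ≤ 1 / 2) (h0 : x₀ ≤ -y) (h1 : x₁ ≤ z) (h : 8 * (p * z) ≤ y) :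
    (1 - p) * Real.exp x₀ + p * Real.exp x₁ ≤ 1 := by
  have e0 : Real.exp x₀ ≤ 1 - y / 2 := by
    refine (Real.exp_le_exp.2 h0).trans ?_
    have h2 : 1 + y ≤ Real.exp y := by linarith [Real.add_one_le_exp y]
    have h3 : (1 - y / 2) * (1 + y) ≤ (1 - y / 2) * Real.exp y :=
      mul_le_mul_of_nonneg_left h2 (by linarith)
    have h4 : Real.exp (-y) * Real.exp y = 1 := by
      rw [← Real.exp_add, neg_add_cancel, Real.exp_zero]
    have h5 := Real.exp_pos y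
    have h6 : Real.exp (-y) * Real.exp y ≤ (1 - y / 2) * Real.exp y := by nlinarith
    exact le_of_mul_le_mul_right h6 h5
  have e1 : Real.exp x₁ ≤ 1 + 2 * z := by
    refine (Real.exp_le_exp.2 h1).trans ?_
    have h2 : 1 - z ≤ Real.exp (-z) := by linarith [Real.add_one_le_exp (-z)]
    have h4 : Real.exp z * Real.exp (-z) = 1 := by
      rw [← Real.exp_add, add_neg_cancel, Real.exp_zero]
    have h5 := Real.exp_pos (-z)
    have h6 : Real.exp z * Real.exp (-z) ≤ (1 + 2 * z) * Real.exp (-z) := by nlinarith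
    exact le_of_mul_le_mul_right h6 h5
  have h2 : (1 - p) * Real.exp x₀ ≤ (1 - p) * (1 - y / 2) :=
    mul_le_mul_of_nonneg_left e0 (by linarith)
  have h3 : p * Real.exp x₁ ≤ p * (1 + 2 * z) := mul_le_mul_of_nonneg_left e1 hp
  nlinarith

theorem ex_big (d : ℕ) {κ : ℝ} (hκ : 0 < κ) : ∃ n1 : ℕ, ∀ n : ℕ, n1 ≤ n →
    (n : ℝ) ^ d * Real.exp (-(κ * n)) < 1 := by
  have h1 := (Real.tendsto_pow_mul_exp_neg_atTop_nhds_zero d).comp
    (Filter.Tendsto.const_mul_atTop hκ tendsto_natCast_atTop_atTop)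
  have h2 : ∀ᶠ n : ℕ in Filter.atTop, (κ * n) ^ d * Real.exp (-(κ * n)) < κ ^ d :=
    h1.eventually (gt_mem_nhds (pow_pos hκ d))
  obtain ⟨n1, hn1⟩ := Filter.eventually_atTop.1 h2
  refine ⟨n1, fun n hn => ?_⟩
  have h3 := hn1 n hn
  rw [mul_pow, mul_assoc] at h3
  have h4 : κ ^ d * ((n : ℝ) ^ d * Real.exp (-(κ * n))) < κ ^ d * 1 := by rwa [mul_one]
  exact lt_of_mul_lt_mul_left h4 (pow_pos hκ d).le

section

variable {d J D e : ℕ} {σ : St} {I : Finset ℕ} {c0 : ℕ → ℕ} {n0 : ℕ} {η ϖ θ : ℝ}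

/-! ### The kinds -/

/-- The kinds of phase 2. -/
def K2 (d J e : ℕ) (I : Finset ℕ) (k : Kd) : Prop :=
  AdmO d J k ∨ (AdmC d J e k ∧ ∃ i ∈ I, ∃ m, 2 ≤ m ∧
    k = .cl e 0 i (List.replicate m ((range J).erase i)))

theorem K2.adm {k : Kd} (h : K2 d J e I k) : AdmO d J k ∨ AdmC d J e k :=
  h.imp id fun h => h.1

theorem K2.ok {k : Kd} (h : K2 d J e I k) : k.Ok d J := by
  rcases h with h | h
  · exact h.ok
  · exact h.1.ok

theorem trx_ge {L dl : ℕ} (hL : 1 ≤ L) : e ≤ trx e dl L := by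
  unfold trx
  have : 1 * (e - 1) ≤ L * (e - 1) := Nat.mul_le_mul_right _ hL
  omega

/-- The members of a cluster. -/
theorem adm_mem {dl i : ℕ} {As : List (Finset ℕ)} (h : AdmC d J e (.cl e dl i As)) {A : Finset ℕ}
    (hA : A ∈ As) : AdmO d J (.ord e A) := by
  have h0 : (Kd.cl e dl i As).Low (range J) := adm_low (e := e) (Or.inr h)
  obtain ⟨dl', i', As', h1, h2, h3, h4, h5, h6⟩ := h
  obtain ⟨-, rfl, rfl, rfl⟩ := Kd.cl.inj h1
  exact ⟨e, A, rfl, by omega, (trx_ge h3).trans h4, (h6 A hA).1.trans (erase_subset _ _),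
    (h0.2 A hA).2⟩

theorem fam_le {ms R : Multiset Kd} (h : R ≤ ms) : Fam ms R :=
  ⟨R, 0, 0, by rwa [add_zero], by simp, by rw [add_zero]⟩

theorem fam_one {k : Kd} {X O : Multiset Kd} (h : O ≤ mmb k) : Fam (k ::ₘ X) (O + X) := by
  refine ⟨X, {k}, O, ?_, ?_, add_comm _ _⟩
  · rw [add_comm, Multiset.singleton_add]
  · rwa [Multiset.singleton_bind]

theorem pos_mono {η' : ℝ} (h : η' ≤ η) (hp : Pos J c0 n0 η σ I D) : Pos J c0 n0 η' σ I D := by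
  intro I' hI' D' h1 h2
  refine le_trans ?_ (hp I' hI' D' h1 h2)
  refine mul_le_mul_of_nonneg_right h ?_
  unfold nz
  exact mul_nonneg (prod_nonneg fun _ _ => Nat.cast_nonneg _) (pow_nonneg (Nat.cast_nonneg _) _)

theorem posL_mono {η' : ℝ} (h : η' ≤ η) (hp : PosL J c0 n0 η σ I D) : PosL J c0 n0 η' σ I D := by
  intro I' hI' D' h1 h2 h3
  exact le_trans (mul_le_mul_of_nonneg_right h (nz_nn2 _ _ _ _)) (hp I' hI' D' h1 h2 h3)

theorem posL_of (hp : Pos J c0 n0 η σ I D) : PosL J c0 n0 η σ I D :=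
  fun I' hI' D' h1 _ h3 => hp I' hI' D' h1 h3

theorem pos_of (hp : PosL J c0 n0 η σ I D) (h : η * nz c0 n0 I D ≤ (σ.V J I D : ℝ)) :
    Pos J c0 n0 η σ I D := by
  intro I' hI' D' h1 h2
  by_cases h3 : D' < D
  · exact hp I' hI' D' h1 h3 h2
  · have h4 : D' = D := by omega
    have h5 : I \ I' = ∅ := by
      rw [← card_eq_zero]
      omega
    have h6 : I' = I := subset_antisymm hI' (sdiff_eq_empty_iff_subset.1 h5)
    rw [h4, h6]
    exact h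

/-- The bounds of `cmp`. -/
theorem cmp_bp (hR : Rf J c0 n0 1) (hI : I ⊆ range J) (hD : D ≤ d) (hc : ∀ l, σ.c l ≤ c0 l)
    (hn : σ.n J ≤ n0) {ms : Multiset Kd} (hm : ∀ k ∈ ms, AdmO d J k ∨ AdmC d J e k)
    (hom : (ms.map (om c0 n0 J)).sum ≤ θ) (hη : 0 ≤ η) (hθ : 3 * θ ≤ η) (hθ1 : 3 * θ ≤ 1)
    (hp : PosL J c0 n0 η (σ.wm ms) I D) {R : Multiset Kd} (hF : Fam ms R) :
    BP J c0 n0 (η - 3 * θ) (σ.wm R) I D := by
  intro I' hI' D' h1 h2 h3
  have h := cmp (σ := σ.wm ms) (e := e) hR hI hD hc hn hm hom hη hθ hθ1 hp hF I' hI' D' h1 h3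
  have h4 := hp I' hI' D' h1 h2 h3
  have h5 := nz_nn2 c0 n0 I' D'
  obtain ⟨h6, h7⟩ := h
  refine ⟨?_, ?_⟩
  · refine le_trans ?_ h6
    rw [sub_mul]
    linarith
  · refine h7.trans ?_
    nlinarith

end

end Pool.Agent.GD.AL

end

section

/-!
# General d, ALPHA, part C: phase 2, the class
-/

set_option autoImplicit false

namespace Pool.Agent.GD.AL

open Finset

section

variable {d J D e : ℕ} {σ : St} {I : Finset ℕ} {c0 : ℕ → ℕ} {n0 : ℕ} {η ϖ θ : ℝ}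

/-- The class of phase 2. -/
structure G2 (d J e : ℕ) (c0 : ℕ → ℕ) (n0 N : ℕ) (η θ : ℝ) (I : Finset ℕ) (D : ℕ) (σ : St)
    (ms : Multiset Kd) : Prop where
  kd : ∀ k ∈ ms, K2 d J e I k
  ip : IP J e c0 N ms
  om : (ms.map (om c0 n0 J)).sum ≤ θ
  pos : PosL J c0 n0 η (σ.wm ms) I D
  top : 0 ≤ (σ.wm ms).V J I D

/-- `1` for a cluster. -/
def nc : Kd → ℕ
  | .ord _ _ => 0
  | .cl _ _ _ _ => 1

theorem nc_rep (m x : ℕ) (A : Finset ℕ) : ((Multiset.replicate m (Kd.ord x A)).map nc).sum = 0 := by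
  rw [Multiset.map_replicate, Multiset.sum_replicate]
  exact Nat.mul_zero m

theorem om_rep (m x : ℕ) (A : Finset ℕ) :
    ((Multiset.replicate m (Kd.ord x A)).map (om c0 n0 J)).sum = 0 := by
  rw [Multiset.map_replicate, Multiset.sum_replicate]
  exact smul_zero m

theorem om_sum_nonneg (ms : Multiset Kd) : 0 ≤ (ms.map (om c0 n0 J)).sum :=
  Multiset.sum_nonneg fun x hx => by
    obtain ⟨k, -, rfl⟩ := Multiset.mem_map.1 hx
    exact om_nonneg k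

theorem om_pl2 {i m : ℕ} (hm : 2 ≤ m) :
    om c0 n0 J (.cl e 0 i (List.replicate m ((range J).erase i))) =
      1 / ((c0 i : ℝ) * (n0 : ℝ) ^ (e - 1)) :=
  om_pl ⟨rfl, by rw [List.length_replicate]; exact hm, fun A hA => (List.mem_replicate.1 hA).2⟩

theorem ip_of {N : ℕ} {ms ms' : Multiset Kd} (h : IP J e c0 N ms)
    (h1 : ∀ i As, Kd.cl e 0 i As ∈ ms' → Kd.cl e 0 i As ∈ ms)
    (h2 : ∀ A, ms.count (.ord e A) ≤ ms'.count (.ord e A)) : IP J e c0 N ms' := by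
  intro i hi ⟨m, hm, hk⟩
  exact (h i hi ⟨m, hm, h1 i _ hk⟩).trans (h2 _)

theorem Rf.mono2 {K K' : ℝ} (h : K' ≤ K) (hR : Rf J c0 n0 K) : Rf J c0 n0 K' := by
  refine ⟨fun l hl => h.trans (hR.c l hl), le_trans (mul_le_mul_of_nonneg_right h ?_) hR.n⟩
  have h2 : (0 : ℝ) ≤ ∑ l ∈ range J, (c0 l : ℝ) := sum_nonneg fun _ _ => Nat.cast_nonneg _
  linarith

/-- The new states are near. -/
theorem p2_stay {m0 : ℝ} (hm0 : 1 ≤ m0) (hR : Rf J c0 n0 m0) (hI : I ⊆ range J) (hD : D ≤ d)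
    (hc : ∀ l, σ.c l ≤ c0 l) (hn : σ.n J ≤ n0) {ms R : Multiset Kd}
    (hm : ∀ k ∈ ms, AdmO d J k ∨ AdmC d J e k) (hmR : ∀ k ∈ R, AdmO d J k ∨ AdmC d J e k)
    (hom : (ms.map (om c0 n0 J)).sum ≤ θ) (hη : 0 ≤ η) (hθ : 3 * θ ≤ η) (hθ1 : 3 * θ ≤ 1)
    (hp : PosL J c0 n0 η (σ.wm ms) I D) (hF : Fam ms R) {k : Kd} (hk : AdmO d J k) :
    ∀ I' ⊆ I, ∀ D' : ℕ, I'.card ≤ D' → D' + (I \ I').card ≤ D →
      ((σ.wm ms).V J I' D' : ℝ) - (3 * θ + 2 / m0) * nz c0 n0 I' D' ≤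
        (σ.wm (k ::ₘ R)).V J I' D' := by
  intro I' hI' D' h1 h2
  have h3 := cmp (σ := σ.wm ms) (e := e) (hR.mono2 hm0) hI hD hc hn hm hom hη hθ hθ1 hp hF I' hI' D'
    h1 h2
  have h4 := cmp_bp (hR.mono2 hm0) hI hD hc hn hm hom hη hθ hθ1 hp hF
  have h5 := near_ad (σ := σ.wm R) (e := e) hm0 hR hI hD hmR (by linarith) h4 hk I' hI' D' h1 h2
  have h6 : ((σ.wm ms).V J I' D' : ℝ) - 3 * θ * nz c0 n0 I' D' ≤ ((σ.wm R).V J I' D' : ℝ) := h3.1
  have h7 : ((σ.wm R).V J I' D' : ℝ) - 2 / m0 * nz c0 n0 I' D' ≤ (σ.wm (k ::ₘ R)).V J I' D' := h5.1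
  rw [add_mul]
  linarith

/-- A cluster of large exponent has no effect. -/
theorem p2_void (hI : I ⊆ range J) {i m : ℕ} (hi : i ∈ I) (hm : 1 ≤ m) (X : Multiset Kd)
    {D' : ℕ} {I' : Finset ℕ} (hI' : I' ⊆ I) (h : D' < e) :
    (σ.wm (.cl e 0 i (List.replicate m ((range J).erase i)) ::ₘ X)).V J I' D' =
      (σ.wm X).V J I' D' := by
  have key : ∀ M : Multiset Kd, (σ.wm (Kd.ord e ((range J).erase i) ::ₘ M)).V J I' D' =
      (σ.wm M).V J I' D' := fun M => St.V_ord_lt (σ := σ.wm M) _ h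
  have h1 : ∀ k : ℕ, (σ.wm (Multiset.replicate k (.ord e ((range J).erase i)) + X)).V J I' D' =
      (σ.wm X).V J I' D' := by
    intro k
    induction k with
    | zero => rw [Multiset.replicate_zero, zero_add]
    | succ k ih =>
      rw [Multiset.replicate_succ, Multiset.cons_add, key, ih]
  by_cases hi' : i ∈ I'
  · rw [V_pl (hI'.trans hI) hi' hm, h1, if_neg, add_zero]
    have : 1 * (e - 1) ≤ m * (e - 1) := Nat.mul_le_mul_right _ hm
    omega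
  · have h2 := vd_clu_not D' σ.c (σ.n J) e 0 (As := List.replicate m ((range J).erase i)) hi' X
    rw [List.map_replicate, Multiset.coe_replicate] at h2
    exact h2.trans (h1 m)

end
end Pool.Agent.GD.AL
end
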