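import Pool.Agent.H94.LP7.M02
import Pool.Agent.H94.LP7.M09
import Pool.Agent.H94.LP7.M10
import Pool.Agent.H94.LP7.M14

/-! The parts of this file: H21.HD.SpanMain, GD.Semi, V7.BE.Temp, V7.Top.Gam. -/

section

/-!
The spanning theorem.
-/

namespace Pool.Agent.H21.HD

open MvPolynomial
open scoped Classical

namespace SpanMainX

/-- Transport along an injection of index types. -/
lemma transport {σ P Y : Type} [Fintype σ] (d : ℕ) (e : P → ℕ) (e' : Y → ℕ) (ι : Y → P)
    (hι : Function.Injective ι) (he : ∀ y, e (ι y) = e' y) (w' : Y → σ → ℂ) :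
    powSpan d w' e' ≤ powSpan d (Function.extend ι w' 0) e := by
  unfold powSpan
  apply Submodule.span_mono
  rintro F ⟨y, g, h1, h2, h3⟩
  refine ⟨ι y, g, ?_, ?_, ?_⟩
  · rw [he]; exact h1
  · rw [he]; exact h2
  · rw [he, hι.extend_apply]; exact h3

lemma lin_single {σ : Type} [Fintype σ] (s : σ) :
    lin (Pi.single s (1 : ℂ)) = (X s : MvPolynomial σ ℂ) := by
  unfold lin
  rw [Finset.sum_eq_single s]
  · simp
  · intro t _ hts
    simp [Pi.single_eq_of_ne hts]
  · intro h
    exact absurd (Finset.mem_univ s) h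

/-- The coordinate forms span. -/
lemma span_coord {σ : Type} [Fintype σ] (d : ℕ) (hd : 1 ≤ d) :
    homogeneousSubmodule σ ℂ d ≤
      powSpan d (fun s : σ => (Pi.single s (1 : ℂ) : σ → ℂ)) (fun _ => 1) := by
  intro F hF
  rw [mem_homogeneousSubmodule] at hF
  rw [MvPolynomial.as_sum F]
  apply Submodule.sum_mem
  intro γ hγ
  have hdeg : γ.degree = d := by
    rw [Finsupp.degree_eq_weight_one]
    exact hF (mem_support_iff.1 hγ)
  have hs : ∃ s, γ s ≠ 0 := by
    by_contra hcon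
    push Not at hcon
    have h0 : γ = 0 := by ext s; simp [hcon s]
    rw [h0] at hdeg
    simp at hdeg
    omega
  obtain ⟨s, hs⟩ := hs
  have hle : Finsupp.single s 1 ≤ γ := by
    rw [Finsupp.single_le_iff]
    omega
  apply Submodule.subset_span
  refine ⟨s, monomial (γ - Finsupp.single s 1) (coeff γ F), hd, ?_, ?_⟩
  · apply isHomogeneous_monomial
    have h1 : (γ - Finsupp.single s 1).degree + (Finsupp.single s 1).degree = γ.degree := by
      rw [← map_add, tsub_add_cancel_of_le hle]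
    rw [hdeg] at h1
    simp at h1
    show (γ - Finsupp.single s 1).degree = d - 1
    omega
  · rw [lin_single, pow_one, X, monomial_mul, tsub_add_cancel_of_le hle, mul_one]

/-- Recursion of `phi` when only the first load is present. -/
lemma phi_one (lam : ℕ → ℝ) (d : ℕ) (h : ∀ i, 2 ≤ i → i ≤ d → lam i = 0) :
    ∀ j, j ≤ d → phi lam j = (1 - lam 1) ^ j := by
  intro j
  induction j with
  | zero => intro _; simp [phi]
  | succ j ih =>
    intro hj
    have ih' := ih (by omega)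
    rw [phi, Finset.sum_eq_single (⟨0, by omega⟩ : Fin (j + 1))]
    · simp only [zero_add, Nat.choose_zero_right, Nat.cast_one, mul_one, Nat.sub_zero]
      rw [ih', pow_succ]
      ring
    · intro e _ he
      have he0 : (e : ℕ) ≠ 0 := by
        intro h0
        apply he
        ext
        exact h0
      have : lam ((e : ℕ) + 1) = 0 := h _ (by omega) (by have := e.2; omega)
      rw [this]
      ring
    · intro hcon
      exact absurd (Finset.mem_univ _) hcon

/-- The first case. -/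
lemma case_one (d : ℕ) (hd : 1 ≤ d) (η : ℝ) (hη : 0 < η) (r : ℕ)
    (P : Type) [Fintype P] (e : P → ℕ) (lam : ℕ → ℝ) (hlam : ∀ i, 0 ≤ lam i ∧ lam i ≤ 1)
    (hphi : ∃ j ≤ d, phi lam j ≤ 0) (h0 : ∀ i, 2 ≤ i → i ≤ d → lam i = 0)
    (hcount : ∀ i, 1 ≤ i → i ≤ d → 0 < lam i → (lam i + η) * ((r : ℝ) + 1) ^ i / (i.factorial : ℝ) ≤
      (Finset.univ.filter (fun p => e p = i)).card) :
    ∃ w : P → Fin (r + 1) → ℂ, homogeneousSubmodule (Fin (r + 1)) ℂ d ≤ powSpan d w e := by
  obtain ⟨j, hj, hphij⟩ := hphi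
  rw [phi_one lam d h0 j hj] at hphij
  have h1 := hlam 1
  have hl1 : lam 1 = 1 := by
    by_contra hne
    have hlt : lam 1 < 1 := lt_of_le_of_ne h1.2 hne
    have : 0 < (1 - lam 1) ^ j := pow_pos (by linarith only [hlt]) j
    linarith only [hphij, this]
  have hc := hcount 1 le_rfl hd (by rw [hl1]; norm_num)
  rw [hl1] at hc
  simp only [pow_one, Nat.factorial_one, Nat.cast_one, div_one] at hc
  have hc2 : ((r + 1 : ℕ) : ℝ) ≤ ((Finset.univ.filter (fun p => e p = 1)).card : ℝ) := by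
    refine le_trans ?_ hc
    push_cast
    have : (0 : ℝ) ≤ r := Nat.cast_nonneg r
    nlinarith only [hη]
  have hc3 : r + 1 ≤ (Finset.univ.filter (fun p => e p = 1)).card := by exact_mod_cast hc2
  have hcard : Fintype.card (Fin (r + 1)) ≤ Fintype.card {p : P // e p = 1} := by
    rw [Fintype.card_fin, Fintype.card_subtype]
    exact hc3
  obtain ⟨ι⟩ := Function.Embedding.nonempty_of_card_le hcard
  have hinj : Function.Injective (fun s : Fin (r + 1) => (ι s).1) :=
    Subtype.val_injective.comp ι.injective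
  exact ⟨_, (span_coord d hd).trans (transport d e (fun _ => 1) (fun s => (ι s).1) hinj
    (fun s => (ι s).2) _)⟩

lemma ceil_bounds (h r : ℕ) (hh : 1 ≤ h) :
    r + 1 ≤ ((r + h) / h) * h ∧ ((r + h) / h) * h ≤ r + h := by
  constructor
  · have := Nat.lt_div_mul_add (a := r + h) (b := h) (by omega)
    omega
  · exact Nat.div_mul_le_self _ _

/-- The numerical estimate. -/
lemma num_est (d : ℕ) (η : ℝ) (hη : 0 < η) (h : ℕ) (hh : 1 ≤ h) (hηh : 4 ≤ η * h) (r : ℕ)
    (hr : (1 + η) * (h : ℝ) ^ (d + 1) * d ≤ (r : ℝ) + 1) (N : ℕ) (hN1 : r + 1 ≤ N * h)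
    (hN2 : N * h ≤ r + h) (i : ℕ) (hi : 1 ≤ i) (hid : i ≤ d) (hiN : i ≤ N) (l : ℝ) (hl0 : 0 ≤ l)
    (hl1 : l ≤ 1) (n : ℕ) (hn : (l + η) * ((r : ℝ) + 1) ^ i / (i.factorial : ℝ) ≤ n) :
    (l + η / 4) * (h : ℝ) ^ i ≤ ((n : ℝ) / (N.choose i : ℝ)) - 2 ∧ N.choose i ≤ n := by
  have hr1 : (0 : ℝ) < (r : ℝ) + 1 := by positivity
  have hh0 : (1 : ℝ) ≤ h := by exact_mod_cast hh
  have hNpos : 0 < N := by
    rcases Nat.eq_zero_or_pos N with h0 | h0
    · subst h0; omega
    · exact h0
  have hN0 : (0 : ℝ) < N := by exact_mod_cast hNpos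
  have hC : 0 < N.choose i := Nat.choose_pos hiN
  have hC0 : (0 : ℝ) < (N.choose i : ℝ) := by exact_mod_cast hC
  have hN2' : (N : ℝ) * h ≤ r + h := by exact_mod_cast hN2
  -- t = (r+1)/N
  set t : ℝ := ((r : ℝ) + 1) / N with ht
  have ht0 : 0 < t := div_pos hr1 hN0
  have hrh : (0 : ℝ) ≤ r := Nat.cast_nonneg r
  have ht1 : (h : ℝ) * (1 - h / ((r : ℝ) + 1)) ≤ t := by
    rw [ht, le_div_iff₀ hN0]
    have h1 : (h : ℝ) * (1 - h / ((r : ℝ) + 1)) * N = (1 - h / ((r : ℝ) + 1)) * (N * h) := by ring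
    rw [h1]
    by_cases hneg : 0 ≤ 1 - (h : ℝ) / ((r : ℝ) + 1)
    · calc (1 - (h : ℝ) / ((r : ℝ) + 1)) * (N * h) ≤ (1 - (h : ℝ) / ((r : ℝ) + 1)) * (r + h) := by
            gcongr
        _ ≤ (r : ℝ) + 1 := by
            have : (1 - (h : ℝ) / ((r : ℝ) + 1)) * (r + h)
                = (((r : ℝ) + 1 - h) * (r + h)) / ((r : ℝ) + 1) := by
              field_simp
            rw [this, div_le_iff₀ hr1]
            nlinarith only [hh0]
    · push Not at hneg
      have : (1 - (h : ℝ) / ((r : ℝ) + 1)) * (N * h) ≤ 0 :=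
        mul_nonpos_of_nonpos_of_nonneg hneg.le (by positivity)
      linarith only [this]
  -- h/(r+1) ≤ 1
  have hd0 : (1 : ℝ) ≤ d := by exact_mod_cast (by omega : 1 ≤ d)
  have hpow1 : (1 : ℝ) ≤ (h : ℝ) ^ d := one_le_pow₀ hh0
  have hhr : (h : ℝ) ≤ (r : ℝ) + 1 := by
    refine le_trans ?_ hr
    rw [pow_succ]
    have h2 : (1 : ℝ) ≤ (1 + η) := by linarith only [hη]
    calc (h : ℝ) = 1 * (1 * h) * 1 := by ring
      _ ≤ (1 + η) * ((h : ℝ) ^ d * h) * d := by gcongr
  have hfrac : (h : ℝ) / ((r : ℝ) + 1) ≤ 1 := by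
    rw [div_le_one hr1]; exact hhr
  have hti : (h : ℝ) ^ i * (1 - i * (h / ((r : ℝ) + 1))) ≤ t ^ i := by
    have h3 : (1 : ℝ) + i * (-(h / ((r : ℝ) + 1))) ≤ (1 + (-(h / ((r : ℝ) + 1)))) ^ i :=
      one_add_mul_le_pow (by linarith only [hfrac]) i
    calc (h : ℝ) ^ i * (1 - i * (h / ((r : ℝ) + 1)))
        = (h : ℝ) ^ i * (1 + i * (-(h / ((r : ℝ) + 1)))) := by ring
      _ ≤ (h : ℝ) ^ i * (1 + (-(h / ((r : ℝ) + 1)))) ^ i := by gcongr
      _ = ((h : ℝ) * (1 - h / ((r : ℝ) + 1))) ^ i := by rw [mul_pow]; ring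
      _ ≤ t ^ i := by
          apply pow_le_pow_left₀ _ ht1
          apply mul_nonneg (by positivity)
          linarith only [hfrac]
  -- bound for the quotient
  have hfac : ((i.factorial : ℕ) : ℝ) * (N.choose i : ℝ) ≤ (N : ℝ) ^ i := by
    have := Nat.descFactorial_le_pow N i
    rw [Nat.descFactorial_eq_factorial_mul_choose] at this
    exact_mod_cast this
  have hfac0 : (0 : ℝ) < ((i.factorial : ℕ) : ℝ) := by exact_mod_cast i.factorial_pos
  have hq : (l + η) * t ^ i ≤ (n : ℝ) / (N.choose i : ℝ) := by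
    rw [le_div_iff₀ hC0]
    refine le_trans ?_ hn
    rw [ht, div_pow, le_div_iff₀ hfac0]
    have h4 : (l + η) * (((r : ℝ) + 1) ^ i / (N : ℝ) ^ i) * (N.choose i : ℝ) * (i.factorial : ℝ)
        = (l + η) * ((r : ℝ) + 1) ^ i * (((i.factorial : ℝ) * (N.choose i : ℝ)) / (N : ℝ) ^ i) := by
      ring
    rw [h4]
    have h5 : ((i.factorial : ℝ) * (N.choose i : ℝ)) / (N : ℝ) ^ i ≤ 1 := by
      rw [div_le_one (by positivity)]
      exact hfac
    calc (l + η) * ((r : ℝ) + 1) ^ i * (((i.factorial : ℝ) * (N.choose i : ℝ)) / (N : ℝ) ^ i)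
        ≤ (l + η) * ((r : ℝ) + 1) ^ i * 1 := by
          gcongr
      _ = _ := by ring
  have hpowle : (h : ℝ) ^ i ≤ (h : ℝ) ^ d := pow_le_pow_right₀ hh0 hid
  have herr : (l + η) * ((h : ℝ) ^ i * (i * (h / ((r : ℝ) + 1)))) ≤ 1 := by
    have hid' : (i : ℝ) ≤ d := by exact_mod_cast hid
    calc (l + η) * ((h : ℝ) ^ i * (i * (h / ((r : ℝ) + 1))))
        ≤ (1 + η) * ((h : ℝ) ^ d * (d * (h / ((r : ℝ) + 1)))) := by gcongr
      _ = ((1 + η) * (h : ℝ) ^ (d + 1) * d) / ((r : ℝ) + 1) := by rw [pow_succ]; ring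
      _ ≤ 1 := by rw [div_le_one hr1]; exact hr
  have hmain : (l + η) * (h : ℝ) ^ i - 1 ≤ (n : ℝ) / (N.choose i : ℝ) := by
    refine le_trans ?_ hq
    have h6 : (l + η) * ((h : ℝ) ^ i * (1 - i * (h / ((r : ℝ) + 1)))) ≤ (l + η) * t ^ i := by
      gcongr
    have h7 : (l + η) * ((h : ℝ) ^ i * (1 - i * (h / ((r : ℝ) + 1))))
        = (l + η) * (h : ℝ) ^ i - (l + η) * ((h : ℝ) ^ i * (i * (h / ((r : ℝ) + 1)))) := by ring
    rw [h7] at h6
    linarith only [herr, h6]
  have hpi : (h : ℝ) ≤ (h : ℝ) ^ i := le_self_pow₀ hh0 (by omega)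
  have hηi : 4 ≤ η * (h : ℝ) ^ i := le_trans hηh (by gcongr)
  constructor
  · have h8 : (l + η / 4) * (h : ℝ) ^ i + 2 ≤ (l + η) * (h : ℝ) ^ i - 1 := by nlinarith only [hηi]
    linarith only [hmain, hηi]
  · have h9 : (1 : ℝ) ≤ (n : ℝ) / (N.choose i : ℝ) := by
      refine le_trans ?_ hmain
      have : 0 ≤ l * (h : ℝ) ^ i := by positivity
      nlinarith only [hηi, this]
    rw [le_div_iff₀ hC0, one_mul] at h9
    exact_mod_cast h9

/-- The number of killers is at most one per subset. -/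
lemma killers (d h N e₀ : ℕ) (he₀ : 2 ≤ e₀) (hed : e₀ ≤ d)
    (hN : 2 ^ (d * h + d) * d + d ≤ N) :
    N.choose (e₀ - 1) * ((e₀ - 1) * h - 1 + e₀).choose e₀ ≤ N.choose e₀ := by
  set M := ((e₀ - 1) * h - 1 + e₀).choose e₀ with hM
  have hM1 : M ≤ 2 ^ (d * h + d) := by
    refine (Nat.choose_le_two_pow _ _).trans ?_
    apply Nat.pow_le_pow_right (by norm_num)
    have : (e₀ - 1) * h ≤ d * h := Nat.mul_le_mul_right h (by omega)
    omega
  obtain ⟨k, rfl⟩ : ∃ k, e₀ = k + 1 := ⟨e₀ - 1, by omega⟩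
  simp only [Nat.add_sub_cancel] at hM ⊢
  have h1 := Nat.choose_succ_right_eq N k
  have h2 : M * (k + 1) ≤ N - k := by
    have : M * (k + 1) ≤ 2 ^ (d * h + d) * d := Nat.mul_le_mul hM1 hed
    omega
  have h3 : N.choose k * M * (k + 1) ≤ N.choose (k + 1) * (k + 1) := by
    rw [h1, mul_assoc]
    exact Nat.mul_le_mul_left _ h2
  exact Nat.le_of_mul_le_mul_right h3 (by omega)

end SpanMainX

end Pool.Agent.H21.HD

end

section

/-!
# General d: semistability

`E` a space of tensors (on the slots off `A`), `VE A E` = tensors all slices of which are in `E`.  If the points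
`m` and `U` units (points of kind `A`) kill everything, then `dim (V ∩ VE A E) ≤ U * dim E` for ALL `E`:
the contraction with a unit maps `VE A E` to `E`.
-/

set_option autoImplicit false

namespace Pool.Agent.GD

open Finset MvPolynomial Pool.Agent.H51.TB

variable {ι : Type} [Fintype ι] [DecidableEq ι] {c : ι → ℕ}

/-- the index which is `w` on `A` and `e` off `A` -/
def gl (A : Finset ι) (w e : ∀ i, Fin (c i)) : ∀ i, Fin (c i) := fun j => if j ∈ A then w j else e j

/-- the slice of `F` at the index `w` of the slots `A` -/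
def sl (A : Finset ι) (w : ∀ i, Fin (c i)) : ((∀ i, Fin (c i)) → ℂ) →ₗ[ℂ] ((∀ i, Fin (c i)) → ℂ) where
  toFun F := fun e => F (gl A w e)
  map_add' _ _ := rfl
  map_smul' _ _ := rfl

/-- the tensors all slices of which are in `E` -/
def VE (A : Finset ι) (E : Submodule ℂ ((∀ i, Fin (c i)) → ℂ)) :
    Submodule ℂ ((∀ i, Fin (c i)) → ℂ) where
  carrier := {F | ∀ w, sl A w F ∈ E}
  zero_mem' := fun w => by rw [map_zero]; exact E.zero_mem
  add_mem' := fun hF hG w => by rw [map_add]; exact E.add_mem (hF w) (hG w)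
  smul_mem' := fun a F hF w => by rw [map_smul]; exact E.smul_mem a (hF w)

theorem mem_VE {A : Finset ι} {E : Submodule ℂ ((∀ i, Fin (c i)) → ℂ)} {F : (∀ i, Fin (c i)) → ℂ} :
    F ∈ VE A E ↔ ∀ w, sl A w F ∈ E := Iff.rfl

/-- the contraction as a linear map -/
noncomputable def ctrL (S : Finset ι) (y : (Σ i, Fin (c i)) → ℂ) :
    ((∀ i, Fin (c i)) → ℂ) →ₗ[ℂ] ((∀ i, Fin (c i)) → ℂ) where
  toFun F := fun w => ctr S y F w
  map_add' F G := by
    funext w
    show ctr S y (F + G) w = ctr S y F w + ctr S y G w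
    unfold ctr
    rw [← Finset.sum_add_distrib]
    refine Finset.sum_congr rfl fun e _ => ?_
    split_ifs
    · rw [Pi.add_apply, mul_add]
    · rw [add_zero]
  map_smul' a F := by
    funext w
    show ctr S y (a • F) w = a * ctr S y F w
    unfold ctr
    rw [Finset.mul_sum]
    refine Finset.sum_congr rfl fun e _ => ?_
    split_ifs
    · rw [Pi.smul_apply, smul_eq_mul]; ring
    · rw [mul_zero]

/-- the contraction with a unit is a linear combination of the slices (every slice counted with the multiplicity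
`∏_{i off A} c i`) -/
theorem ctrL_mem {A : Finset ι} {E : Submodule ℂ ((∀ i, Fin (c i)) → ℂ)} (hc : ∀ i, 0 < c i)
    {F : (∀ i, Fin (c i)) → ℂ} (hF : F ∈ VE A E) (y : (Σ i, Fin (c i)) → ℂ) : ctrL A y F ∈ E := by
  classical
  have e₀ : ∀ i, Fin (c i) := fun i => ⟨0, hc i⟩
  -- the indices which are `e₀` off `A`
  let s : Finset (∀ i, Fin (c i)) := Finset.univ.filter fun w => ∀ j, j ∉ A → w j = e₀ j
  have h1 : ctrL A y F = ∑ w ∈ s, (∏ j ∈ A, y ⟨j, w j⟩) • sl A w F := by
    funext e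
    rw [Finset.sum_apply]
    show ctr A y F e = _
    unfold ctr
    rw [← Finset.sum_filter]
    refine Finset.sum_nbij' (fun x => gl A x e₀) (fun w => gl A w e) ?_ ?_ ?_ ?_ ?_
    · intro x _
      simp only [s, Finset.mem_filter, Finset.mem_univ, true_and]
      intro j hj
      simp [gl, hj]
    · intro w _
      simp only [Finset.mem_filter, Finset.mem_univ, true_and]
      intro j hj
      simp [gl, hj]
    · intro x hx
      simp only [Finset.mem_filter, Finset.mem_univ, true_and] at hx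
      funext j
      by_cases hj : j ∈ A
      · simp [gl, hj]
      · simp [gl, hj, hx j hj]
    · intro w hw
      simp only [s, Finset.mem_filter, Finset.mem_univ, true_and] at hw
      funext j
      by_cases hj : j ∈ A
      · simp [gl, hj]
      · simp [gl, hj, hw j hj]
    · intro x hx
      simp only [Finset.mem_filter, Finset.mem_univ, true_and] at hx
      rw [Pi.smul_apply, smul_eq_mul]
      congr 1
      · refine Finset.prod_congr rfl fun j hj => ?_
        simp [gl, hj]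
      · show F x = F (gl A (gl A x e₀) e)
        congr 1
        funext j
        by_cases hj : j ∈ A
        · simp [gl, hj]
        · simp [gl, hj, hx j hj]
  rw [h1]
  exact Submodule.sum_mem _ fun w _ => E.smul_mem _ (hF w)

/-- SEMISTABILITY. -/
theorem semist (hc : ∀ i, 0 < c i) {P : Type} (m : P → Finset ι) (p : P → (Σ i, Fin (c i)) → ℂ)
    (A : Finset ι) (U : ℕ) (q : Fin U → (Σ i, Fin (c i)) → ℂ)
    (h : (TS ι c).V (Sum.elim m fun _ : Fin U => A) (Sum.elim p q) = ⊥)
    (E : Submodule ℂ ((∀ i, Fin (c i)) → ℂ)) :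
    Module.finrank ℂ ((TS ι c).V m p ⊓ VE A E : Submodule ℂ ((∀ i, Fin (c i)) → ℂ)) ≤
      U * Module.finrank ℂ E := by
  classical
  let Φ : ((TS ι c).V m p ⊓ VE A E : Submodule ℂ ((∀ i, Fin (c i)) → ℂ)) →ₗ[ℂ] (Fin U → E) :=
    LinearMap.pi fun u => ((ctrL A (q u)).comp (Submodule.subtype _)).codRestrict E fun F =>
      ctrL_mem hc F.2.2 (q u)
  have h1 := LinearMap.finrank_le_finrank_of_injective (f := Φ) (by
    rw [← LinearMap.ker_eq_bot, LinearMap.ker_eq_bot']
    intro F hF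
    have h2 : (F : (∀ i, Fin (c i)) → ℂ) ∈ (TS ι c).V (Sum.elim m fun _ : Fin U => A)
        (Sum.elim p q) := by
      rw [mem_TS]
      rintro (i | u) w
      · exact (mem_TS m p _).1 F.2.1 i w
      · have h3 := congrFun hF u
        have h4 := congrArg Subtype.val h3
        exact congrFun h4 w
    rw [h, Submodule.mem_bot] at h2
    exact Subtype.ext h2)
  rwa [Module.finrank_pi_fintype, Finset.sum_const, Finset.card_univ, Fintype.card_fin,
    smul_eq_mul] at h1

/-- for general positions of some of the points there are positions of the others -/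
theorem gn_exists_right {κ κ' ν : Type} {Q : (κ ⊕ κ' → ν → ℂ) → Prop} (h : Gn (κ ⊕ κ') ν Q) :
    Gn κ ν fun p => ∃ q, Q (Sum.elim p q) := by
  have h1 : Gn (κ' ⊕ κ) ν fun r => Q (Sum.elim (fun k => r (Sum.inr k)) fun k => r (Sum.inl k)) := by
    have h2 := Gn.comap (κ := κ' ⊕ κ) (κ' := κ ⊕ κ') Sum.swap (fun a b hab => by
      have := congrArg Sum.swap hab
      simpa using this) h
    refine h2.mono fun r hr => ?_
    have e1 : (fun i : κ ⊕ κ' => r i.swap) =
        Sum.elim (fun k => r (Sum.inr k)) fun k => r (Sum.inl k) := by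
      funext i
      cases i <;> rfl
    rwa [e1] at hr
  obtain ⟨q, hq⟩ := h1.fix
  exact hq.mono fun p hp => ⟨q, hp⟩

/-- SEMISTABILITY, general positions. -/
theorem semist_gn (hc : ∀ i, 0 < c i) {P : Type} [Fintype P] (m : P → Finset ι) (A : Finset ι)
    (U : ℕ) (h : (TS ι c).gd (Sum.elim m fun _ : Fin U => A) = 0) :
    Gn P (Σ i, Fin (c i)) fun p => ∀ E : Submodule ℂ ((∀ i, Fin (c i)) → ℂ),
      Module.finrank ℂ ((TS ι c).V m p ⊓ VE A E : Submodule ℂ ((∀ i, Fin (c i)) → ℂ)) ≤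
        U * Module.finrank ℂ E := by
  have h1 := gn_gd (TS ι c) (Sum.elim m fun _ : Fin U => A)
  refine (gn_exists_right h1).mono fun p hp E => ?_
  obtain ⟨q, hq⟩ := hp
  rw [h] at hq
  exact semist hc m p A U q (Submodule.finrank_eq_zero.1 hq) E

end Pool.Agent.GD

end

section

/-!
# V7, block BETA: step (4), good configurations for many blocks

From generic exactness (`g_ω(E) ≤ lam e` for all `E`) and strictness for some `ω` (depending on `E`),
by compactness finitely many open sets of configurations suffice; the `z`-blocks are labelled by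
`(h, s, i)`, and the pure rainbow `α` with label `s` carries a configuration of the `s`-th open set.
-/

namespace Pool.Agent.V7.BE

open Finset MvPolynomial Pool.Agent.H51.TB Pool.Agent.V7 Topology

/-- Pull back of a general statement. -/
theorem Gn.pull {κ κ' ν ν' : Type} (φ : κ' → κ) (hφ : Function.Injective φ) (ψ : ν' → ν)
    (hψ : Function.Injective ψ) {P : (κ' → ν' → ℂ) → Prop} (h : Gn κ' ν' P) :
    Gn κ ν fun p => P fun i x => p (φ i) (ψ x) := by
  obtain ⟨G, hG, h⟩ := h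
  have hinj : Function.Injective (fun x : κ' × ν' => (φ x.1, ψ x.2)) := by
    intro x y hxy
    have h1 := congrArg Prod.fst hxy
    have h2 := congrArg Prod.snd hxy
    exact Prod.ext (hφ h1) (hψ h2)
  refine ⟨rename (fun x : κ' × ν' => (φ x.1, ψ x.2)) G, ?_, fun p hp => ?_⟩
  · intro h0
    apply hG
    apply rename_injective _ hinj
    rw [h0, map_zero]
  · apply h
    rw [eval_rename] at hp
    exact hp

section Mat

variable {k M c : ℕ}

/-- The kinds used in `KE`. -/
abbrev Kq (k M : ℕ) : Type := {S : Finset (Slot k M) // S.card = M ∧ S ≠ S0 k M}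

/-- Configurations of points of these kinds. -/
abbrev Xr (k M c : ℕ) : Type := Kq k M → Fin (lam M c) → Slot k M × Fin c → ℂ

/-- The matrix of the conditions. -/
noncomputable def matA (ω : Xr k M c) :
    Matrix (Kq k M × Fin (lam M c) × (Slot k M → Fin c)) (Slot k M → Fin c) ℂ :=
  fun x e => if ∀ j, j ∉ x.1.1 → e j = x.2.2 j then ∏ j ∈ x.1.1, ω x.1 x.2.1 (j, e j) else 0

/-- The slices. -/
def sl (u : Fin M → Fin c) (s : Fin k → Fin c) : Slot k M → Fin c := Sum.elim s u

theorem mem_KE (ω : Pts k M c) (E : Submodule ℂ ((Fin k → Fin c) → ℂ))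
    (G : (Slot k M → Fin c) → ℂ) : G ∈ KE ω E ↔
      (∀ u : Fin M → Fin c, (fun s => G (Sum.elim s u)) ∈ E) ∧
      ∀ S : Finset (Slot k M), S.card = M → S ≠ S0 k M → ∀ t w, ctr S (ω S t) G w = 0 := Iff.rfl

theorem KE_eq (ω : Pts k M c) (E : Submodule ℂ ((Fin k → Fin c) → ℂ)) :
    KE ω E = Kx (matA fun S => ω S.1) sl E := by
  ext G
  rw [mem_Kx, mem_KE]
  refine and_congr Iff.rfl ?_
  have hrow : ∀ (x : Kq k M × Fin (lam M c) × (Slot k M → Fin c)),
      (Matrix.mulVec (matA fun S : Kq k M => ω S.1) G) x = ctr x.1.1 (ω x.1.1 x.2.1) G x.2.2 := by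
    intro x
    unfold ctr Matrix.mulVec dotProduct
    refine sum_congr rfl fun e _ => ?_
    show (if ∀ j, j ∉ x.1.1 → e j = x.2.2 j then ∏ j ∈ x.1.1, ω x.1.1 x.2.1 (j, e j) else 0) * G e = _
    split_ifs
    · rfl
    · rw [zero_mul]
  constructor
  · intro h
    funext x
    rw [hrow x]
    exact h x.1.1 x.1.2.1 x.1.2.2 x.2.1 x.2.2
  · intro h S h1 h2 t w
    have h3 := congrFun h (⟨S, h1, h2⟩, t, w)
    rw [hrow] at h3
    exact h3

theorem matA_continuous : Continuous (matA : Xr k M c → _) := by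
  refine continuous_matrix fun x e => ?_
  unfold matA
  by_cases h : ∀ j, j ∉ x.1.1 → e j = x.2.2 j
  · simp only [if_pos h]
    refine continuous_finsetProd _ fun j _ => ?_
    fun_prop
  · simp only [if_neg h]
    exact continuous_const

end Mat

section Lab

variable {M r q₀ : ℕ}

theorem blk_lt (s : Fin r) (f : Fin M → Fin q₀) (h : Fin M) :
    (h : ℕ) * (r * q₀) + (s * q₀ + f h) < M * r * q₀ := by
  have h1 : (s : ℕ) * q₀ + f h < r * q₀ := by
    calc (s : ℕ) * q₀ + f h < s * q₀ + q₀ := Nat.add_lt_add_left (f h).2 _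
      _ = (s + 1) * q₀ := by ring
      _ ≤ r * q₀ := Nat.mul_le_mul_right _ s.2
  calc (h : ℕ) * (r * q₀) + (s * q₀ + f h) < h * (r * q₀) + r * q₀ := Nat.add_lt_add_left h1 _
    _ = (h + 1) * (r * q₀) := by ring
    _ ≤ M * (r * q₀) := Nat.mul_le_mul_right _ h.2
    _ = M * r * q₀ := by ring

/-- The rainbow `α` with label `s` given by `f`. -/
def blk (s : Fin r) (f : Fin M → Fin q₀) : Fin M ↪o Fin (M * r * q₀) :=
  OrderEmbedding.ofStrictMono (fun h => ⟨(h : ℕ) * (r * q₀) + (s * q₀ + f h), blk_lt s f h⟩) (by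
    intro a b hab
    show (a : ℕ) * (r * q₀) + (s * q₀ + f a) < b * (r * q₀) + (s * q₀ + f b)
    have h1 : (s : ℕ) * q₀ + f a < r * q₀ := by
      calc (s : ℕ) * q₀ + f a < s * q₀ + q₀ := Nat.add_lt_add_left (f a).2 _
        _ = (s + 1) * q₀ := by ring
        _ ≤ r * q₀ := Nat.mul_le_mul_right _ s.2
    have h2 : (a : ℕ) + 1 ≤ b := hab
    calc (a : ℕ) * (r * q₀) + (s * q₀ + f a) < a * (r * q₀) + r * q₀ := Nat.add_lt_add_left h1 _
      _ = (a + 1) * (r * q₀) := by ring
      _ ≤ b * (r * q₀) := Nat.mul_le_mul_right _ h2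
      _ ≤ b * (r * q₀) + (s * q₀ + f b) := Nat.le_add_right _ _)

theorem blk_val (s : Fin r) (f : Fin M → Fin q₀) (h : Fin M) :
    ((blk s f h : Fin (M * r * q₀)) : ℕ) = (h : ℕ) * (r * q₀) + (s * q₀ + f h) := rfl

theorem blk_inj (s : Fin r) : Function.Injective (blk s : (Fin M → Fin q₀) → _) := by
  intro f g hfg
  funext h
  have h1 := congrArg (fun α : Fin M ↪o Fin (M * r * q₀) => ((α h : Fin (M * r * q₀)) : ℕ)) hfg
  simp only [blk_val] at h1
  exact Fin.ext (by omega)

/-- The label `h`. -/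
def hlab (b : Fin (M * r * q₀)) : Fin M :=
  ⟨(b : ℕ) / (r * q₀), Nat.div_lt_of_lt_mul (by
    have := b.2
    calc (b : ℕ) < M * r * q₀ := this
      _ = r * q₀ * M := by ring)⟩

/-- The label `s`. -/
def slab (hr : 0 < r) (b : Fin (M * r * q₀)) : Fin r := ⟨((b : ℕ) / q₀) % r, Nat.mod_lt _ hr⟩

theorem hlab_blk (s : Fin r) (f : Fin M → Fin q₀) (h : Fin M) : hlab (blk s f h) = h := by
  apply Fin.ext
  show ((blk s f h : Fin (M * r * q₀)) : ℕ) / (r * q₀) = h
  rw [blk_val]
  refine Nat.div_eq_of_lt_le (Nat.le_add_right _ _) ?_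
  have h1 : (s : ℕ) * q₀ + f h < r * q₀ := by
    calc (s : ℕ) * q₀ + f h < s * q₀ + q₀ := Nat.add_lt_add_left (f h).2 _
      _ = (s + 1) * q₀ := by ring
      _ ≤ r * q₀ := Nat.mul_le_mul_right _ s.2
  calc (h : ℕ) * (r * q₀) + (s * q₀ + f h) < h * (r * q₀) + r * q₀ := Nat.add_lt_add_left h1 _
    _ = (h + 1) * (r * q₀) := by ring

theorem slab_blk (hr : 0 < r) (s : Fin r) (f : Fin M → Fin q₀) (h : Fin M) :
    slab hr (blk s f h) = s := by
  apply Fin.ext
  show (((blk s f h : Fin (M * r * q₀)) : ℕ) / q₀) % r = s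
  rw [blk_val]
  have h1 : ((h : ℕ) * (r * q₀) + (s * q₀ + f h)) / q₀ = h * r + s := by
    refine Nat.div_eq_of_lt_le ?_ ?_
    · calc ((h : ℕ) * r + s) * q₀ = h * (r * q₀) + s * q₀ := by ring
        _ ≤ h * (r * q₀) + (s * q₀ + f h) := by omega
    · calc (h : ℕ) * (r * q₀) + (s * q₀ + f h) < h * (r * q₀) + (s * q₀ + q₀) := by
            have := (f h).2
            omega
        _ = (h * r + s + 1) * q₀ := by ring
  rw [h1, Nat.mul_add_mod']
  exact Nat.mod_eq_of_lt s.2

end Lab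

theorem card_oemb_le (M q : ℕ) : Fintype.card (Fin M ↪o Fin q) ≤ q.choose M := by
  classical
  have h1 : Fintype.card (Finset.powersetCard M (univ : Finset (Fin q))) = q.choose M := by
    rw [Fintype.card_coe, Finset.card_powersetCard, Finset.card_univ, Fintype.card_fin]
  rw [← h1]
  refine Fintype.card_le_of_injective (fun α : Fin M ↪o Fin q =>
    ⟨univ.map α.toEmbedding, Finset.mem_powersetCard.2 ⟨Finset.subset_univ _, by simp⟩⟩) ?_
  intro α β h
  have h2 : (univ.map α.toEmbedding : Finset (Fin q)) = univ.map β.toEmbedding :=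
    congrArg Subtype.val h
  have h3 : Set.range α = Set.range β := by
    have h4 := congrArg (fun s : Finset (Fin q) => (s : Set (Fin q))) h2
    simpa using h4
  exact OrderEmbedding.range_inj.1 h3

section Main

variable {k M c r q₀ : ℕ}

/-- The slot labels. -/
def lab : Fin k ⊕ Fin (M * r * q₀) → Slot k M := Sum.map id hlab

/-- The embedding of slots given by `α`. -/
def emb {q : ℕ} (α : Fin M ↪o Fin q) : Slot k M ↪ Fin k ⊕ Fin q :=
  (Function.Embedding.refl (Fin k)).sumMap α.toEmbedding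

theorem lab_emb (s : Fin r) (f : Fin M → Fin q₀) (x : Slot k M) :
    lab (emb (blk s f) x) = x := by
  rcases x with i | h
  · rfl
  · show Sum.inr (hlab (blk s f h)) = Sum.inr h
    rw [hlab_blk]

open Classical in
/-- The label `s` of a set of blocks. -/
noncomputable def sS (hr : 0 < r) (S : Finset (Fin k ⊕ Fin (M * r * q₀))) : Fin r :=
  if h : ∃ b, Sum.inr b ∈ S then slab hr h.choose else ⟨0, hr⟩

theorem sS_emb (hk : k < M) (hr : 0 < r) (s : Fin r) (f : Fin M → Fin q₀)
    (S : Finset (Slot k M)) (hS : S.card = M) : sS hr (S.map (emb (blk s f))) = s := by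
  have h1 : ∃ b, Sum.inr b ∈ S.map (emb (k := k) (blk s f)) := by
    by_contra hcon
    push Not at hcon
    have h2 : S ⊆ univ.map (Function.Embedding.inl : Fin k ↪ Slot k M) := by
      intro x hx
      rcases x with i | h
      · exact Finset.mem_map.2 ⟨i, Finset.mem_univ _, rfl⟩
      · exact absurd (Finset.mem_map.2 ⟨Sum.inr h, hx, rfl⟩) (hcon (blk s f h))
    have h3 := Finset.card_le_card h2
    rw [Finset.card_map, Finset.card_univ, Fintype.card_fin] at h3
    omega
  unfold sS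
  rw [dif_pos h1]
  obtain ⟨x, _, hx⟩ := Finset.mem_map.1 h1.choose_spec
  rcases x with i | h
  · exact absurd hx (by simp [emb])
  · have h4 : blk s f h = h1.choose := Sum.inr_injective hx
    rw [← h4, slab_blk]

open Classical in
/-- Extension of a configuration by zero. -/
noncomputable def ext0 (ω : Xr k M c) : Pts k M c :=
  fun S t x => if h : S.card = M ∧ S ≠ S0 k M then ω ⟨S, h⟩ t x else 0

/-- The block configuration. -/
noncomputable def Om0 (hr : 0 < r) (ω : Fin r → Xr k M c) : PtsQ k M c (M * r * q₀) :=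
  fun S t x => ext0 (ω (sS hr S)) (S.image lab) t (lab x.1, x.2)

theorem res_Om0 (hk : k < M) (hr : 0 < r) (ω : Fin r → Xr k M c) (s : Fin r)
    (f : Fin M → Fin q₀) :
    (fun S : Kq k M => res (Om0 hr ω) (blk s f) S.1) = ω s := by
  funext S t x
  show ext0 (ω (sS hr (S.1.map (emb (blk s f))))) ((S.1.map (emb (blk s f))).image lab) t
    (lab (emb (blk s f) x.1), x.2) = ω s S t x
  have h1 : (S.1.map (emb (k := k) (blk s f))).image lab = S.1 := by
    rw [Finset.map_eq_image, Finset.image_image]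
    have : (lab ∘ ⇑(emb (k := k) (blk s f))) = id := funext fun x => lab_emb s f x
    rw [this, Finset.image_id]
  rw [sS_emb hk hr s f S.1 S.2.1, h1, lab_emb]
  unfold ext0
  rw [dif_pos S.2]

/-- Good configurations for many blocks. -/
theorem exists_good (hk : k < M)
    (hgen : Gn (Finset (Slot k M) × Fin (lam M c)) (Slot k M × Fin c) fun p =>
      ∀ E : Submodule ℂ ((Fin k → Fin c) → ℂ),
        Module.finrank ℂ (KE (fun S t => p (S, t)) E) ≤ lam M c * Module.finrank ℂ E)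
    (hstrict : ∀ E : Submodule ℂ ((Fin k → Fin c) → ℂ), E ≠ ⊥ → E ≠ ⊤ → ∃ ω : Pts k M c,
      Module.finrank ℂ (KE ω E) < lam M c * Module.finrank ℂ E) :
    ∃ r : ℕ, 0 < r ∧ ∀ q₀ : ℕ, ∃ Ω : PtsQ k M c (M * r * q₀),
      ∀ E : Submodule ℂ ((Fin k → Fin c) → ℂ), E ≠ ⊥ → E ≠ ⊤ →
        ∑ α : Fin M ↪o Fin (M * r * q₀), Module.finrank ℂ (KE (res Ω α) E) + q₀ ^ M ≤
          lam M c * Module.finrank ℂ E * (M * r * q₀).choose M := by
  classical
  let b : ℕ → ℕ := fun e => if 0 < e ∧ e < Fintype.card (Fin k → Fin c) then lam M c * e - 1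
    else Fintype.card (Slot k M → Fin c)
  have hE : ∀ E : Submodule ℂ ((Fin k → Fin c) → ℂ), (E ≠ ⊥ ∧ E ≠ ⊤) ↔
      (0 < Module.finrank ℂ E ∧ Module.finrank ℂ E < Fintype.card (Fin k → Fin c)) := by
    intro E
    have h1 : Module.finrank ℂ ((Fin k → Fin c) → ℂ) = Fintype.card (Fin k → Fin c) := by simp
    constructor
    · rintro ⟨h2, h3⟩
      refine ⟨?_, ?_⟩
      · rw [Nat.pos_iff_ne_zero]
        intro h0
        exact h2 (Submodule.finrank_eq_zero.1 h0)
      · rw [← h1]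
        exact Submodule.finrank_lt h3
    · rintro ⟨h2, h3⟩
      refine ⟨?_, ?_⟩
      · rintro rfl
        simp at h2
      · rintro rfl
        rw [finrank_top, h1] at h3
        exact lt_irrefl _ h3
  obtain ⟨r, hr, W, hW, hcov⟩ := Kx_cover (matA : Xr k M c → _) matA_continuous sl b (by
    intro E
    by_cases h : E ≠ ⊥ ∧ E ≠ ⊤
    · obtain ⟨ω, hω⟩ := hstrict E h.1 h.2
      refine ⟨fun S => ω S.1, ?_⟩
      rw [← KE_eq]
      show _ ≤ if _ then _ else _
      rw [if_pos ((hE E).1 h)]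
      omega
    · refine ⟨0, ?_⟩
      show _ ≤ if _ then _ else _
      rw [if_neg (fun h' => h ((hE E).2 h'))]
      have := Submodule.finrank_le (Kx (matA (0 : Xr k M c)) sl E)
      simpa using this)
  refine ⟨r, hr, fun q₀ => ?_⟩
  choose ω hω using fun s => (hW s).2
  -- the induced configuration of a point of the big space
  let κ' : Type := Finset (Fin k ⊕ Fin (M * r * q₀)) × Fin (lam M c)
  let ν' : Type := (Fin k ⊕ Fin (M * r * q₀)) × Fin c
  let Θ : (κ' → ν' → ℂ) → PtsQ k M c (M * r * q₀) := fun p S t => p (S, t)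
  have hopen : IsOpen {p : κ' → ν' → ℂ | ∀ (s : Fin r) (f : Fin M → Fin q₀),
      (fun S : Kq k M => res (Θ p) (blk s f) S.1) ∈ W s} := by
    have h1 : {p : κ' → ν' → ℂ | ∀ (s : Fin r) (f : Fin M → Fin q₀),
        (fun S : Kq k M => res (Θ p) (blk s f) S.1) ∈ W s} =
        ⋂ s : Fin r, ⋂ f : Fin M → Fin q₀,
          (fun p : κ' → ν' → ℂ => fun S : Kq k M => res (Θ p) (blk s f) S.1) ⁻¹' W s := by
      ext p
      simp
    rw [h1]
    refine isOpen_iInter_of_finite fun s => isOpen_iInter_of_finite fun f => (hW s).1.preimage ?_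
    refine continuous_pi fun S => continuous_pi fun t => continuous_pi fun x => ?_
    show Continuous fun p : κ' → ν' → ℂ => p (S.1.map (emb (blk s f)), t)
      (Sum.map id (blk s f) x.1, x.2)
    exact (continuous_apply _).comp (continuous_apply _)
  have hgood : Gn κ' ν' fun p => ∀ α ∈ (univ : Finset (Fin M ↪o Fin (M * r * q₀))),
      ∀ E : Submodule ℂ ((Fin k → Fin c) → ℂ),
        Module.finrank ℂ (KE (res (Θ p) α) E) ≤ lam M c * Module.finrank ℂ E := by
    refine Gn.all _ fun α _ => ?_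
    have h1 := Gn.pull (κ := κ') (ν := ν')
      (fun x : Finset (Slot k M) × Fin (lam M c) => (x.1.map (emb α), x.2)) (by
        intro x y hxy
        have h2 := congrArg Prod.fst hxy
        have h3 := congrArg Prod.snd hxy
        exact Prod.ext (Finset.map_injective _ h2) h3)
      (fun x : Slot k M × Fin c => (emb α x.1, x.2)) (by
        intro x y hxy
        have h2 := congrArg Prod.fst hxy
        have h3 := congrArg Prod.snd hxy
        exact Prod.ext ((emb α).injective h2) h3) hgen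
    refine h1.mono fun p hp E => ?_
    exact hp E
  obtain ⟨p, hpU, hp⟩ := Gn.near hgood (fun x => Om0 hr ω x.1 x.2) _ (hopen.mem_nhds (by
    intro s f
    have h1 := res_Om0 (q₀ := q₀) hk hr ω s f
    have h2 : (fun S : Kq k M => res (Θ fun x => Om0 hr ω x.1 x.2) (blk s f) S.1) = ω s := h1
    rw [h2]
    exact hω s))
  refine ⟨Θ p, fun E hE1 hE2 => ?_⟩
  obtain ⟨s, hs⟩ := hcov E
  have hbE : b (Module.finrank ℂ E) = lam M c * Module.finrank ℂ E - 1 := by
    show (if _ then _ else _) = _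
    rw [if_pos ((hE E).1 ⟨hE1, hE2⟩)]
  have hpos : 1 ≤ lam M c * Module.finrank ℂ E := by
    obtain ⟨ω', hω'⟩ := hstrict E hE1 hE2
    omega
  let I : Finset (Fin M ↪o Fin (M * r * q₀)) := univ.image (blk s)
  have hI : I.card = q₀ ^ M := by
    rw [Finset.card_image_of_injective _ (blk_inj s), Finset.card_univ, Fintype.card_fun,
      Fintype.card_fin, Fintype.card_fin]
  have hterm : ∀ α : Fin M ↪o Fin (M * r * q₀),
      Module.finrank ℂ (KE (res (Θ p) α) E) + (if α ∈ I then 1 else 0) ≤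
        lam M c * Module.finrank ℂ E := by
    intro α
    by_cases hα : α ∈ I
    · rw [if_pos hα]
      obtain ⟨f, _, rfl⟩ := Finset.mem_image.1 hα
      have h1 := hs _ (hpU s f)
      rw [hbE, ← KE_eq] at h1
      omega
    · rw [if_neg hα]
      exact hp α (Finset.mem_univ _) E
  have hsum := Finset.sum_le_sum fun α (_ : α ∈ univ) => hterm α
  rw [Finset.sum_add_distrib, Finset.sum_const, smul_eq_mul, Finset.card_univ] at hsum
  have h2 : ∑ α : Fin M ↪o Fin (M * r * q₀), (if α ∈ I then 1 else 0) = q₀ ^ M := by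
    rw [Finset.sum_ite_mem, Finset.univ_inter, Finset.sum_const, smul_eq_mul, mul_one, hI]
  rw [h2] at hsum
  refine hsum.trans ?_
  rw [mul_comm]
  exact Nat.mul_le_mul_left _ (card_oemb_le M _)

end Main

end Pool.Agent.V7.BE

end

section

/-!
# The vector valued form of a form of the top level

The variables are `φ (inl (i, r))`, `i < k`, `r < c` (the blocks) and `φ (inr t)`, `t < m`.
`Gam φ f a` is the coefficient of `∏ i, x (i, a i)` in `f`, a form in the last `m` variables.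
-/

set_option autoImplicit false
set_option linter.unusedSectionVars false

namespace Pool.Agent.V7.Top

open Finset Module MvPolynomial Pool.Agent.H51.TB Pool.Agent.V7 Pool.Agent.H54.V7
open Pool.Agent.H18.Ex (tcr)

variable {ν : Type} [Fintype ν] [DecidableEq ν] {k c m : ℕ}

/-- The exponent of `∏ i, x (i, a i)` times a monomial in the last variables. -/
def HasX (φ : (Fin k × Fin c) ⊕ Fin m ≃ ν) (a : Fin k → Fin c) (e : ν → ℕ) : Prop :=
  ∀ x : Fin k × Fin c, e (φ (Sum.inl x)) = if x.2 = a x.1 then 1 else 0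

instance (φ : (Fin k × Fin c) ⊕ Fin m ≃ ν) (a : Fin k → Fin c) (e : ν → ℕ) :
    Decidable (HasX φ a e) := by
  unfold HasX
  infer_instance

/-- The exponents of the last variables. -/
noncomputable def zp (φ : (Fin k × Fin c) ⊕ Fin m ≃ ν) (e : ν → ℕ) : Fin m →₀ ℕ :=
  Finsupp.equivFunOnFinite.symm fun t => e (φ (Sum.inr t))

theorem zp_apply (φ : (Fin k × Fin c) ⊕ Fin m ≃ ν) (e : ν → ℕ) (t : Fin m) :
    zp φ e t = e (φ (Sum.inr t)) := rfl

/-- The vector valued form. -/
noncomputable def Gam (φ : (Fin k × Fin c) ⊕ Fin m ≃ ν) {A : Finset (ν → ℕ)} :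
    ({e // e ∈ A} → ℂ) →ₗ[ℂ] ((Fin k → Fin c) → MvPolynomial (Fin m) ℂ) :=
  LinearMap.pi fun a => ∑ e : {e // e ∈ A},
    if HasX φ a e.1 then (monomial (zp φ e.1)).comp (LinearMap.proj e) else 0

theorem Gam_apply (φ : (Fin k × Fin c) ⊕ Fin m ≃ ν) {A : Finset (ν → ℕ)} (f : {e // e ∈ A} → ℂ)
    (a : Fin k → Fin c) : Gam φ f a =
      ∑ e : {e // e ∈ A}, if HasX φ a e.1 then monomial (zp φ e.1) (f e) else 0 := by
  simp only [Gam, LinearMap.pi_apply, LinearMap.sum_apply]
  refine sum_congr rfl fun e _ => ?_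
  split_ifs
  · rfl
  · rfl

theorem sum_split (φ : (Fin k × Fin c) ⊕ Fin m ≃ ν) (e : ν → ℕ) :
    ∑ s, e s = ∑ x, e (φ (Sum.inl x)) + ∑ t, e (φ (Sum.inr t)) := by
  rw [← φ.sum_comp, Fintype.sum_sum_type]

theorem HasX.sum {φ : (Fin k × Fin c) ⊕ Fin m ≃ ν} {a : Fin k → Fin c} {e : ν → ℕ}
    (h : HasX φ a e) : ∑ x, e (φ (Sum.inl x)) = k := by
  have h1 : ∀ x : Fin k × Fin c, e (φ (Sum.inl x)) = if x.2 = a x.1 then 1 else 0 := h
  simp only [h1]
  rw [Fintype.sum_prod_type]
  simp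

theorem Gam_hom (φ : (Fin k × Fin c) ⊕ Fin m ≃ ν) {M : ℕ} (hk : k + 1 = M) (β : ν → ℕ)
    (f : {e // e ∈ Pool.Agent.V7.Ex β (2 * M - 1) k} → ℂ) (a : Fin k → Fin c) :
    (Gam φ f a).IsHomogeneous M := by
  rw [Gam_apply]
  refine IsHomogeneous.sum _ _ _ fun e _ => ?_
  split_ifs with h
  · apply isHomogeneous_monomial
    have h1 := (Pool.Agent.V7.mem_Ex.1 e.2).1
    rw [sum_split φ, h.sum] at h1
    rw [Finsupp.degree_eq_sum]
    simp only [zp_apply]
    omega
  · exact isHomogeneous_zero _ _ _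

/-- Two exponents with the same `x`-part and `z`-part are equal. -/
theorem ext_HasX {φ : (Fin k × Fin c) ⊕ Fin m ≃ ν} {a : Fin k → Fin c} {e e' : ν → ℕ}
    (h : HasX φ a e) (h' : HasX φ a e') (hz : zp φ e = zp φ e') : e = e' := by
  funext s
  obtain ⟨x, rfl⟩ := φ.surjective s
  rcases x with x | t
  · rw [h x, h' x]
  · exact DFunLike.congr_fun hz t

theorem coeff_Gam (φ : (Fin k × Fin c) ⊕ Fin m ≃ ν) {A : Finset (ν → ℕ)}
    (f : {e // e ∈ A} → ℂ) (a : Fin k → Fin c) (e : {e // e ∈ A}) (h : HasX φ a e.1) :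
    coeff (zp φ e.1) (Gam φ f a) = f e := by
  classical
  rw [Gam_apply, coeff_sum, sum_eq_single e]
  · rw [if_pos h, coeff_monomial, if_pos rfl]
  · intro e' _ hne
    split_ifs with h'
    · rw [coeff_monomial, if_neg]
      intro h1
      exact hne (Subtype.ext (ext_HasX h' h h1))
    · exact coeff_zero _
  · intro h1
    exact absurd (mem_univ e) h1

/-- The block numbers are as expected. -/
def IsB (φ : (Fin k × Fin c) ⊕ Fin m ≃ ν) (β : ν → ℕ) : Prop :=
  (∀ x : Fin k × Fin c, β (φ (Sum.inl x)) = x.1) ∧ ∀ t, k ≤ β (φ (Sum.inr t))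

theorem exists_HasX {φ : (Fin k × Fin c) ⊕ Fin m ≃ ν} {β : ν → ℕ} (hβ : IsB φ β) {d : ℕ}
    {e : ν → ℕ} (he : e ∈ Pool.Agent.V7.Ex β d k) (h : ∑ x, e (φ (Sum.inl x)) ≤ k) :
    ∃ a : Fin k → Fin c, HasX φ a e := by
  classical
  have h1 : ∀ i : Fin k, ∃ r : Fin c, e (φ (Sum.inl (i, r))) ≠ 0 := by
    intro i
    obtain ⟨s, hs, hs'⟩ := (Pool.Agent.V7.mem_Ex.1 he).2 i i.2
    obtain ⟨x, rfl⟩ := φ.surjective s
    rcases x with ⟨i', r⟩ | t
    · have h2 := hβ.1 (i', r)
      rw [hs] at h2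
      have h3 : i = i' := Fin.ext h2
      subst h3
      exact ⟨r, hs'⟩
    · have h2 := hβ.2 t
      have := i.2
      omega
  choose a ha using h1
  refine ⟨a, ?_⟩
  rw [Fintype.sum_prod_type] at h
  have h2 : ∀ i : Fin k, 1 ≤ ∑ r, e (φ (Sum.inl (i, r))) := by
    intro i
    refine le_trans ?_ (single_le_sum (f := fun r => e (φ (Sum.inl (i, r))))
      (fun _ _ => Nat.zero_le _) (mem_univ (a i)))
    have := ha i
    omega
  have h3 : ∀ i : Fin k, ∑ r, e (φ (Sum.inl (i, r))) = 1 := by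
    have h4 : ∑ _i : Fin k, 1 ≤ ∑ i : Fin k, ∑ r, e (φ (Sum.inl (i, r))) :=
      sum_le_sum fun i _ => h2 i
    have h5 : ∑ _i : Fin k, 1 = ∑ i : Fin k, ∑ r, e (φ (Sum.inl (i, r))) := by
      apply le_antisymm h4
      rw [sum_const, card_univ, Fintype.card_fin, smul_eq_mul, mul_one]
      exact h
    intro i
    exact ((sum_eq_sum_iff_of_le fun i _ => h2 i).1 h5 i (mem_univ i)).symm
  rintro ⟨i, r⟩
  show e (φ (Sum.inl (i, r))) = if r = a i then 1 else 0
  have h4 := h3 i
  rw [← add_sum_erase _ _ (mem_univ (a i))] at h4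
  have h5 := ha i
  split_ifs with hr
  · rw [hr]
    omega
  · have h6 : e (φ (Sum.inl (i, r))) ≤
        ∑ r ∈ univ.erase (a i), e (φ (Sum.inl (i, r))) :=
      single_le_sum (f := fun r => e (φ (Sum.inl (i, r)))) (fun _ _ => Nat.zero_le _)
        (mem_erase.2 ⟨hr, mem_univ r⟩)
    omega

/-- The coefficients of the monomials of `x`-degree `k` vanish if the vector valued form does. -/
theorem Gam_zero {φ : (Fin k × Fin c) ⊕ Fin m ≃ ν} {β : ν → ℕ} (hβ : IsB φ β) {d : ℕ}
    (f : {e // e ∈ Pool.Agent.V7.Ex β d k} → ℂ) (hf : Gam φ f = 0)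
    (e : {e // e ∈ Pool.Agent.V7.Ex β d k})
    (he : ∑ s ∈ univ.filter (fun s => β s < k), e.1 s ≤ k) : f e = 0 := by
  classical
  have h1 : ∑ s ∈ univ.filter (fun s => β s < k), e.1 s = ∑ x, e.1 (φ (Sum.inl x)) := by
    rw [sum_filter, ← φ.sum_comp, Fintype.sum_sum_type]
    have h2 : ∑ t, (if β (φ (Sum.inr t)) < k then e.1 (φ (Sum.inr t)) else 0) = 0 := by
      apply sum_eq_zero
      intro t _
      rw [if_neg]
      have := hβ.2 t
      omega
    rw [h2, add_zero]
    refine sum_congr rfl fun x _ => ?_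
    rw [if_pos]
    rw [hβ.1 x]
    exact x.1.2
  rw [h1] at he
  obtain ⟨a, ha⟩ := exists_HasX hβ e.2 he
  rw [← coeff_Gam φ f a e ha, hf]
  exact coeff_zero _

/-- The position of a point on all the subspaces. -/
noncomputable def posz (φ : (Fin k × Fin c) ⊕ Fin m ≃ ν) (z : Fin m → ℂ) : ν ⊕ ν → ℂ :=
  Sum.elim (fun s => Sum.elim (fun _ => 0) z (φ.symm s)) 0

theorem eval_Gam (φ : (Fin k × Fin c) ⊕ Fin m ≃ ν) {A : Finset (ν → ℕ)}
    (f : {e // e ∈ A} → ℂ) (a : Fin k → Fin c) (z : Fin m → ℂ) :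
    eval z (Gam φ f a) =
      ∑ e : {e // e ∈ A}, if HasX φ a e.1 then f e * ∏ t, z t ^ e.1 (φ (Sum.inr t)) else 0 := by
  rw [Gam_apply, map_sum]
  refine sum_congr rfl fun e _ => ?_
  split_ifs
  · rw [eval_monomial, Finsupp.prod_fintype _ _ (fun t => pow_zero _)]
    rfl
  · exact map_zero _

theorem htop {φ : (Fin k × Fin c) ⊕ Fin m ≃ ν} {β : ν → ℕ} (hβ : IsB φ β) {M : ℕ}
    (hk : k + 1 = M) (z : Fin m → ℂ) {A : Finset (ν → ℕ)} (f : {e // e ∈ A} → ℂ)
    (hf : f ∈ (LSA M β A).V (fun _ : Unit => Kd.ord M (range k)) fun _ => posz φ z)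
    (a : Fin k → Fin c) : eval z (Gam φ f a) = 0 := by
  classical
  rw [mem_LSA] at hf
  have h1 : Fat (fun e : {a // a ∈ A} => e.1) M
      (msk β (range k) fun s => posz φ z (Sum.inl s)) f := hf ()
  let b : ν → ℕ := fun s => Sum.elim (fun x : Fin k × Fin c => if x.2 = a x.1 then 1 else 0)
    (fun _ => 0) (φ.symm s)
  have hb1 : ∀ x, b (φ (Sum.inl x)) = if x.2 = a x.1 then 1 else 0 := by
    intro x
    simp [b]
  have hb2 : ∀ t, b (φ (Sum.inr t)) = 0 := by
    intro t
    simp [b]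
  have hb : ∑ s, b s < M := by
    rw [sum_split φ]
    simp only [hb1, hb2, sum_const_zero, add_zero]
    rw [Fintype.sum_prod_type]
    simp only [sum_ite_eq', mem_univ, if_true, sum_const, card_univ, Fintype.card_fin,
      smul_eq_mul, mul_one]
    omega
  rw [← h1 b hb, eval_Gam]
  refine sum_congr rfl fun e _ => ?_
  have hx : ∀ x, (msk β (range k) fun s => posz φ z (Sum.inl s)) (φ (Sum.inl x)) = 0 := by
    intro x
    unfold msk
    rw [if_pos]
    rw [hβ.1 x, mem_range]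
    exact x.1.2
  have hz : ∀ t, (msk β (range k) fun s => posz φ z (Sum.inl s)) (φ (Sum.inr t)) = z t := by
    intro t
    unfold msk
    rw [if_neg]
    · simp [posz]
    · rw [mem_range]
      have := hβ.2 t
      omega
  have h2 : tcr (msk β (range k) fun s => posz φ z (Sum.inl s)) e.1 b =
      (∏ x, if e.1 (φ (Sum.inl x)) = b (φ (Sum.inl x)) then (1 : ℂ) else 0) *
        ∏ t, z t ^ e.1 (φ (Sum.inr t)) := by
    unfold tcr
    rw [← φ.prod_comp, Fintype.prod_sum_type]
    congr 1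
    · refine prod_congr rfl fun x _ => ?_
      rw [hx]
      split_ifs with h
      · rw [h, Nat.choose_self, Nat.sub_self, pow_zero, Nat.cast_one, mul_one]
      · rcases Nat.lt_or_ge (e.1 (φ (Sum.inl x))) (b (φ (Sum.inl x))) with h3 | h3
        · rw [Nat.choose_eq_zero_of_lt h3, Nat.cast_zero, zero_mul]
        · rw [zero_pow (by omega), mul_zero]
    · refine prod_congr rfl fun t _ => ?_
      rw [hz, hb2, Nat.choose_zero_right, Nat.cast_one, one_mul, Nat.sub_zero]
  rw [h2]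
  by_cases h : HasX φ a e.1
  · have h4 : (∏ x, if e.1 (φ (Sum.inl x)) = b (φ (Sum.inl x)) then (1 : ℂ) else 0) = 1 :=
      prod_eq_one fun x _ => by rw [if_pos]; rw [hb1, h x]
    rw [if_pos h, h4, one_mul]
  · rw [if_neg h]
    have h3 : ∃ x, e.1 (φ (Sum.inl x)) ≠ b (φ (Sum.inl x)) := by
      by_contra hcon
      push Not at hcon
      apply h
      intro x
      rw [hcon x, hb1]
    obtain ⟨x, hx'⟩ := h3
    rw [prod_eq_zero (mem_univ x) (by rw [if_neg hx']), zero_mul, mul_zero]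

end Pool.Agent.V7.Top

end
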