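import Pool.Agent.H94.LP7.GD.AL.Up
import Pool.Agent.H94.LP7.M17
import Pool.Agent.H94.LP7.M24

/-! The parts of this file: GD.AL.P1_2, GD.BE.Lab. -/

section

/-!
# General d, ALPHA: the region
-/

set_option autoImplicit false

namespace Pool.Agent.GD.AL

open Finset

section Mon

open Pool.Agent.H21.NX (Sx mem_Sx)

end Mon

section Reg

variable {d J D : ℕ} {σ : St} {I : Finset ℕ} {c0 : ℕ → ℕ} {n0 : ℕ} {η : ℝ}

/-- adding blocks -/
theorem H_blocks (σ : St) {I' T : Finset ℕ} (hT : T ⊆ range J) (hd : Disjoint I' T) {D' : ℕ}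
    (hD : D' + T.card ≤ d) :
    σ.H d J (I' ∪ T) (D' + T.card) ≤ (∏ l ∈ T, σ.c l) * σ.H d J I' D' := by
  classical
  induction T using Finset.induction_on with
  | empty => simp
  | insert i T hi ih =>
    rw [card_insert_of_notMem hi] at hD ⊢
    have hT' : T ⊆ range J := (subset_insert _ _).trans hT
    have hd' : Disjoint I' T := disjoint_of_subset_right (subset_insert _ _) hd
    have h1 := ih hT' hd' (by omega)
    have hiJ : i < J := mem_range.1 (hT (mem_insert_self _ _))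
    have hiI : i ∉ I' ∪ T := by
      rw [mem_union, not_or]
      exact ⟨fun h => disjoint_left.1 hd h (mem_insert_self _ _), hi⟩
    have h2 := up1 (D := D' + T.card) (d := d) (by omega) (bt J σ.c σ.w) hiI σ.ms
    rw [card_bt _ _ hiJ] at h2
    have h3 : I' ∪ insert i T = insert i (I' ∪ T) := by
      ext x
      simp only [mem_union, mem_insert]
      tauto
    rw [h3, prod_insert hi, mul_assoc]
    exact h2.trans (Nat.mul_le_mul_left _ h1)

/-- one more degree -/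
theorem H_step (σ : St) (hI : I ⊆ range J) (hc : ∀ l, σ.c l ≤ c0 l) (hn : σ.n J ≤ n0) {x D0 : ℕ}
    (hx : x + 1 ≤ d) (hx0 : x + 1 ≤ D0) :
    (σ.H d J I (x + 1) : ℝ) ≤ n0 * σ.H d J I x + (1 + ∑ l ∈ range J, (c0 l : ℝ)) ^ D0 := by
  classical
  have h1 := up2 hx (bt J σ.c σ.w) I σ.ms
  have h2 := card_sup_le' (x + 1) (bt J σ.c σ.w) I
  have h3 := card_in_le (c0 := c0) σ hc hI
  have h4 : (univ.filter fun s : Vr J σ.c σ.w => bt J σ.c σ.w s ∉ I).card ≤ n0 := by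
    refine (card_le_univ _).trans ?_
    rw [card_Vr]
    exact hn
  have h5 : ((((Ex (bt J σ.c σ.w) (x + 1) I).filter fun a => ∀ s, bt J σ.c σ.w s ∉ I → a s = 0).card : ℕ) : ℝ) ≤
      (1 + ∑ l ∈ range J, (c0 l : ℝ)) ^ D0 := by
    have h6 : (((univ.filter fun s : Vr J σ.c σ.w => bt J σ.c σ.w s ∈ I).card : ℕ) : ℝ) ≤
        ∑ l ∈ range J, (c0 l : ℝ) := by
      exact_mod_cast h3
    have h7 : (0 : ℝ) ≤ ∑ l ∈ range J, (c0 l : ℝ) := sum_nonneg fun l _ => Nat.cast_nonneg _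
    calc ((((Ex (bt J σ.c σ.w) (x + 1) I).filter fun a => ∀ s, bt J σ.c σ.w s ∉ I → a s = 0).card : ℕ) : ℝ)
        ≤ ((((univ.filter fun s : Vr J σ.c σ.w => bt J σ.c σ.w s ∈ I).card ^ (x + 1) : ℕ)) : ℝ) := by
          exact_mod_cast h2
      _ = (((univ.filter fun s : Vr J σ.c σ.w => bt J σ.c σ.w s ∈ I).card : ℕ) : ℝ) ^ (x + 1) := by
          push_cast
          ring
      _ ≤ (1 + ∑ l ∈ range J, (c0 l : ℝ)) ^ (x + 1) := by
          refine pow_le_pow_left₀ (Nat.cast_nonneg _) ?_ _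
          linarith only [h6]
      _ ≤ (1 + ∑ l ∈ range J, (c0 l : ℝ)) ^ D0 := pow_le_pow_right₀ (by linarith only [h6]) hx0
  have h8 : (σ.H d J I (x + 1) : ℝ) ≤
      ((univ.filter fun s : Vr J σ.c σ.w => bt J σ.c σ.w s ∉ I).card : ℕ) * (σ.H d J I x : ℝ) +
        (((Ex (bt J σ.c σ.w) (x + 1) I).filter fun a => ∀ s, bt J σ.c σ.w s ∉ I → a s = 0).card : ℕ) := by
    exact_mod_cast h1
  refine h8.trans (add_le_add ?_ h5)
  exact mul_le_mul_of_nonneg_right (by exact_mod_cast h4) (Nat.cast_nonneg _)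

/-- more degrees -/
theorem H_iter (σ : St) (hI : I ⊆ range J) (hc : ∀ l, σ.c l ≤ c0 l) (hn : σ.n J ≤ n0) (hn0 : 1 ≤ n0)
    {x D0 : ℕ} : ∀ s : ℕ, x + s ≤ d → x + s ≤ D0 →
    (n0 : ℝ) * σ.H d J I (x + s) ≤ (n0 : ℝ) ^ (s + 1) * σ.H d J I x +
      s * ((n0 : ℝ) ^ s * (1 + ∑ l ∈ range J, (c0 l : ℝ)) ^ D0) := by
  intro s
  induction s with
  | zero =>
    intro _ _
    simp
  | succ s ih =>
    intro h1 h2
    have h3 := ih (by omega) (by omega)
    have h4 := H_step (d := d) σ hI hc hn (x := x + s) (D0 := D0) (by omega) (by omega)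
    have hn1 : (1 : ℝ) ≤ n0 := by exact_mod_cast hn0
    have hM : (0 : ℝ) ≤ (1 + ∑ l ∈ range J, (c0 l : ℝ)) ^ D0 :=
      pow_nonneg (add_nonneg zero_le_one (sum_nonneg fun l _ => Nat.cast_nonneg _)) _
    set M := (1 + ∑ l ∈ range J, (c0 l : ℝ)) ^ D0
    have h5 : (n0 : ℝ) ≤ (n0 : ℝ) ^ (s + 1) := by
      calc (n0 : ℝ) = (n0 : ℝ) ^ 1 := (pow_one _).symm
        _ ≤ (n0 : ℝ) ^ (s + 1) := pow_le_pow_right₀ hn1 (by omega)
    calc (n0 : ℝ) * σ.H d J I (x + (s + 1)) ≤ n0 * (n0 * σ.H d J I (x + s) + M) :=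
          mul_le_mul_of_nonneg_left h4 (by linarith only [hn1])
      _ ≤ n0 * (((n0 : ℝ) ^ (s + 1) * σ.H d J I x + s * ((n0 : ℝ) ^ s * M)) + M) :=
          mul_le_mul_of_nonneg_left (by linarith only [h3]) (by linarith only [hn1])
      _ = (n0 : ℝ) ^ (s + 1 + 1) * σ.H d J I x + s * ((n0 : ℝ) ^ (s + 1) * M) + n0 * M := by ring
      _ ≤ (n0 : ℝ) ^ (s + 1 + 1) * σ.H d J I x + s * ((n0 : ℝ) ^ (s + 1) * M) + (n0 : ℝ) ^ (s + 1) * M := by
          have := mul_le_mul_of_nonneg_right h5 hM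
          linarith only [this]
      _ = (n0 : ℝ) ^ (s + 1 + 1) * σ.H d J I x + ((s + 1 : ℕ) : ℝ) * ((n0 : ℝ) ^ (s + 1) * M) := by
          push_cast
          ring

/-- The lower virtual dimensions from the top one. -/
theorem P1 {ε : ℝ} (hD : D ≤ d) (hI : I ⊆ range J) (hID : I.card ≤ D) (hη : 0 ≤ η) (hε : 0 < ε)
    (hc : ∀ l, σ.c l ≤ c0 l) (hn : σ.n J ≤ n0) (hB : Big d J c0 n0 I (4 * (d + 1) / ε + 4))
    (hex : ExL d J σ I D) (hlb : σ.V J I D ≤ σ.H d J I D) (hv : η * nz c0 n0 I D ≤ (σ.V J I D : ℝ)) :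
    PosL J c0 n0 (η - ε) σ I D := by
  classical
  obtain ⟨hc1, hn1, hb⟩ := big_facts hε hB
  intro I' hI' D' hID' hDD hle
  have hn1' : (1 : ℝ) ≤ n0 := by exact_mod_cast hn1
  obtain ⟨s, hs⟩ := Nat.exists_eq_add_of_le hle
  have hcard : (I \ I').card + I'.card = I.card := card_sdiff_add_card_eq_card hI'
  -- the dimensions
  have h1 := H_blocks (d := d) (J := J) σ (I' := I') (T := I \ I') (D' := D') (sdiff_subset.trans hI)
    disjoint_sdiff (by omega)
  rw [union_sdiff_of_subset hI'] at h1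
  have h2 := H_iter (d := d) σ hI hc hn hn1 (x := D' + (I \ I').card) (D0 := d + 1) s (by omega) (by omega)
  rw [← hs] at h2
  have h3 : (σ.V J I D : ℝ) ≤ σ.H d J I D := by exact_mod_cast hlb
  have h4 : (σ.H d J I' D' : ℝ) = σ.V J I' D' := by
    have := hex I' hI' D' hDD hle
    unfold St.Ex at this
    exact_mod_cast this
  set M := (1 + ∑ l ∈ range J, (c0 l : ℝ)) ^ (d + 1)
  have hM0 : (0 : ℝ) ≤ M := pow_nonneg (add_nonneg zero_le_one (sum_nonneg fun l _ => Nat.cast_nonneg _)) _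
  set Q : ℝ := ∏ l ∈ I \ I', (c0 l : ℝ) with hQ
  have hQ1 : (1 : ℝ) ≤ Q := by
    calc (1 : ℝ) = ∏ i ∈ I \ I', (1 : ℝ) := by rw [prod_const_one]
      _ ≤ Q := prod_le_prod (fun _ _ => zero_le_one) fun l hl => hc1 l (sdiff_subset hl)
  have h5 : (σ.H d J I (D' + (I \ I').card) : ℝ) ≤ Q * σ.V J I' D' := by
    rw [← h4]
    have h6 : ((∏ l ∈ I \ I', σ.c l : ℕ) : ℝ) ≤ Q := by
      rw [Nat.cast_prod]
      exact prod_le_prod (fun _ _ => Nat.cast_nonneg _) fun l _ => by exact_mod_cast hc l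
    calc (σ.H d J I (D' + (I \ I').card) : ℝ) ≤ ((∏ l ∈ I \ I', σ.c l : ℕ) : ℝ) * σ.H d J I' D' := by
          exact_mod_cast h1
      _ ≤ Q * σ.H d J I' D' := mul_le_mul_of_nonneg_right h6 (Nat.cast_nonneg _)
  have hnz : nz c0 n0 I D = (n0 : ℝ) ^ s * Q * nz c0 n0 I' D' := by
    unfold nz
    have e1 : D - I.card = s + (D' - I'.card) := by omega
    rw [e1, pow_add, ← prod_sdiff hI', hQ]
    ring
  have hnz1 := nz_pos (I := I') (fun l hl => hc1 l (hI' hl)) hn1 D'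
  have hp : (0 : ℝ) < (n0 : ℝ) ^ (s + 1) * Q := mul_pos (pow_pos (by linarith only [hn1']) _) (by linarith only [hQ1])
  have hsd : (s : ℝ) ≤ d + 1 := by
    have : s ≤ d + 1 := by omega
    exact_mod_cast this
  -- the main inequality
  have key : (n0 : ℝ) ^ (s + 1) * Q * (η * nz c0 n0 I' D') ≤
      (n0 : ℝ) ^ (s + 1) * Q * (σ.V J I' D' + ε * nz c0 n0 I' D') := by
    calc (n0 : ℝ) ^ (s + 1) * Q * (η * nz c0 n0 I' D') = n0 * (η * nz c0 n0 I D) := by
          rw [hnz, pow_succ]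
          ring
      _ ≤ n0 * σ.H d J I D := mul_le_mul_of_nonneg_left (hv.trans h3) (by linarith only [hn1'])
      _ ≤ (n0 : ℝ) ^ (s + 1) * σ.H d J I (D' + (I \ I').card) + s * ((n0 : ℝ) ^ s * M) := h2
      _ ≤ (n0 : ℝ) ^ (s + 1) * (Q * σ.V J I' D') + (n0 : ℝ) ^ s * ((d + 1) * M) := by
          have e1 := mul_le_mul_of_nonneg_left h5 (pow_nonneg (by linarith only [hn1'] : (0 : ℝ) ≤ n0) (s + 1))
          have e2 : (0 : ℝ) ≤ (n0 : ℝ) ^ s * M := mul_nonneg (pow_nonneg (by linarith only [hn1']) _) hM0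
          nlinarith only [e1, hsd, e2]
      _ ≤ (n0 : ℝ) ^ (s + 1) * (Q * σ.V J I' D') + (n0 : ℝ) ^ s * (ε * n0) := by
          have e1 := mul_le_mul_of_nonneg_left hb (pow_nonneg (by linarith only [hn1'] : (0 : ℝ) ≤ n0) s)
          linarith only [e1]
      _ = (n0 : ℝ) ^ (s + 1) * (Q * σ.V J I' D') + (n0 : ℝ) ^ (s + 1) * (ε * (1 * 1)) := by
          rw [pow_succ]
          ring
      _ ≤ (n0 : ℝ) ^ (s + 1) * (Q * σ.V J I' D') + (n0 : ℝ) ^ (s + 1) * (ε * (Q * nz c0 n0 I' D')) := by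
          have e1 : (1 : ℝ) * 1 ≤ Q * nz c0 n0 I' D' :=
            mul_le_mul hQ1 hnz1 zero_le_one (by linarith only [hQ1])
          have e2 := mul_le_mul_of_nonneg_left (mul_le_mul_of_nonneg_left e1 hε.le)
            (pow_nonneg (by linarith only [hn1'] : (0 : ℝ) ≤ n0) (s + 1))
          linarith only [e2]
      _ = (n0 : ℝ) ^ (s + 1) * Q * (σ.V J I' D' + ε * nz c0 n0 I' D') := by ring
  have := le_of_mul_le_mul_left key hp
  linarith only [this]

end Reg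

end Pool.Agent.GD.AL

end

section

/-!
# General d, block BETA, module Lab: many blocks of the variables `W`, labels

Slots `Fin J ⊕ Fin e` (`J` base slots of the sizes `cb 0, cb 1, …`, `e` slots of the size `cz`); the
variables `W` are `q` blocks of the size `cz`; `α : Fin e ↪o Fin q` selects `e` of them.  A kind of the
whole system is `S : Finset (Fin J ⊕ Fin q)`, `lf S`, `rt S` its parts; the number of the points of the
kind `S` is `nb ν S` (two values, chosen by the residue of the first block of `rt S`), so `α` sees the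
corner `cor ν α`.

`lab`: as `Pool.Agent.V7.BE.exists_good` (`V7/BE/Temp.lean`).  The positions of the points are a
function `vis` of parameters; for every `α` outside `Bad` a general statement about the positions seen
by `α` is general in the parameters (`hG`), and for every family of templates `ω j` there are parameters
for which every rainbow `α` with the label `j` (`Pool.Agent.V7.BE.blk`, labels in `Fin (2 * s)`, only the
labels `j < s` are used) sees `ω j` (`hT`).  PROOF: `W j` from `KE_cover`, `ω j ∈ W j`; near the parameters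
of `hT` the rainbow `α`s see a point of `W j` (`hC`), `Gn.near` gives parameters with the bound `hsem` for
all `α ∉ Bad`; for `E` with the label `j` the `q₀ ^ e` rainbow `α`s have at least one less.  `s` depends
only on `lo` and `hi` (`nhi`, `IsCor`), not on `l` and `L`.
-/

set_option autoImplicit false

namespace Pool.Agent.GD.BE

open Finset MvPolynomial Module Pool.Agent.H51.TB Topology

/-- The sizes of the slots. -/
def cd (cb : ℕ → ℕ) (cz : ℕ) {J e : ℕ} : Fin J ⊕ Fin e → ℕ := Sum.elim (fun j => cb j) fun _ => cz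

/-- The base slots. -/
def tb (J e : ℕ) : Finset (Fin J ⊕ Fin e) := univ.filter fun i => i.isLeft = true

/-- The coordinates of the points. -/
abbrev RC (cb : ℕ → ℕ) (cz J q : ℕ) : Type := (Σ j : Fin J, Fin (cb j)) ⊕ (Fin q × Fin cz)

variable {cb : ℕ → ℕ} {cz J e q : ℕ}

/-- The coordinates seen by `α`. -/
def pull (α : Fin e → Fin q) (ω : RC cb cz J q → ℂ) :
    (Σ i : Fin J ⊕ Fin e, Fin (cd cb cz i)) → ℂ
  | ⟨Sum.inl j, z⟩ => ω (Sum.inl ⟨j, z⟩)
  | ⟨Sum.inr h, z⟩ => ω (Sum.inr (α h, z))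

/-- The slots of `α`. -/
def emb (J : ℕ) (α : Fin e ↪o Fin q) : Fin J ⊕ Fin e ↪ Fin J ⊕ Fin q :=
  (Function.Embedding.refl (Fin J)).sumMap α.toEmbedding

/-- The base part of a kind. -/
def lf (S : Finset (Fin J ⊕ Fin q)) : Finset (Fin J) := univ.filter fun j => Sum.inl j ∈ S

/-- The `W`-part of a kind. -/
def rt (S : Finset (Fin J ⊕ Fin q)) : Finset (Fin q) := univ.filter fun b => Sum.inr b ∈ S

/-- The numbers: two values `lo K a ≤ hi K a` for the kinds with `lf = K`, `#rt = a`; the larger one is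
taken for `l K a` of the `L` residues. -/
structure Nos (J : ℕ) where
  lo : Finset (Fin J) → ℕ → ℕ
  hi : Finset (Fin J) → ℕ → ℕ
  l : Finset (Fin J) → ℕ → ℕ
  L : ℕ

/-- The number of the points of the kind `S`. -/
def nb (ν : Nos J) (S : Finset (Fin J ⊕ Fin q)) : ℕ :=
  if h : (rt S).Nonempty then
    (if ((rt S).min' h : ℕ) % ν.L < ν.l (lf S) (rt S).card then ν.hi (lf S) (rt S).card
      else ν.lo (lf S) (rt S).card)
  else 0

/-- The numbers seen by `α`. -/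
def cor (ν : Nos J) (α : Fin e ↪o Fin q) (S : Finset (Fin J ⊕ Fin e)) : ℕ :=
  nb ν (S.map (emb J α))

/-- The largest numbers. -/
def nhi (ν : Nos J) (S : Finset (Fin J ⊕ Fin e)) : ℕ :=
  if (rt S).Nonempty then ν.hi (lf S) (rt S).card else 0

/-- The corners. -/
def IsCor (ν : Nos J) (η : Finset (Fin J ⊕ Fin e) → ℕ) : Prop :=
  ∀ S, if (rt S).Nonempty then η S = ν.lo (lf S) (rt S).card ∨ η S = ν.hi (lf S) (rt S).card
    else η S = 0

private theorem lf_map (α : Fin e ↪o Fin q) (S : Finset (Fin J ⊕ Fin e)) :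
    lf (S.map (emb J α)) = lf S := by
  ext j
  unfold lf
  rw [mem_filter, mem_filter]
  refine and_congr Iff.rfl ?_
  rw [mem_map]
  constructor
  · rintro ⟨x, hx, hxj⟩
    rcases x with x | x
    · have h1 : x = j := Sum.inl_injective hxj
      rwa [h1] at hx
    · exact absurd hxj (by simp [emb])
  · intro h
    exact ⟨Sum.inl j, h, rfl⟩

private theorem rt_map (α : Fin e ↪o Fin q) (S : Finset (Fin J ⊕ Fin e)) :
    rt (S.map (emb J α)) = (rt S).map α.toEmbedding := by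
  ext b
  unfold rt
  rw [mem_filter, mem_map, mem_map]
  constructor
  · rintro ⟨_, x, hx, hxb⟩
    rcases x with x | x
    · exact absurd hxb (by simp [emb])
    · exact ⟨x, mem_filter.2 ⟨mem_univ _, hx⟩, Sum.inr_injective hxb⟩
  · rintro ⟨x, hx, hxb⟩
    refine ⟨mem_univ _, Sum.inr x, (mem_filter.1 hx).2, ?_⟩
    rw [← hxb]
    rfl

theorem isCor_cor (ν : Nos J) (α : Fin e ↪o Fin q) : IsCor ν (cor ν α) := by
  intro S
  unfold cor nb
  rw [lf_map, rt_map]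
  by_cases h : (rt S).Nonempty
  · have h1 : ((rt S).map α.toEmbedding).Nonempty := h.map
    rw [if_pos h, dif_pos h1, card_map]
    split_ifs
    · exact Or.inr rfl
    · exact Or.inl rfl
  · have h1 : ¬ ((rt S).map α.toEmbedding).Nonempty := fun h1 => h (map_nonempty.1 h1)
    rw [if_neg h, dif_neg h1]

/-- The additional points of the whole system. -/
abbrev PB (ν : Nos J) (q : ℕ) : Type := Σ S : Finset (Fin J ⊕ Fin q), Fin (nb ν S)

/-- The positions seen by `α`. -/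
def pos (ν : Nos J) (α : Fin e ↪o Fin q) (Ω : PB ν q → RC cb cz J q → ℂ) :
    PC (nhi ν) (cor ν α) → (Σ i : Fin J ⊕ Fin e, Fin (cd cb cz i)) → ℂ :=
  fun x => pull α (Ω ⟨x.1.1.map (emb J α), ⟨x.1.2.1, x.2⟩⟩)

theorem nhi_congr {ν ν₀ : Nos J} (h : ν.hi = ν₀.hi) : (nhi ν₀ : Finset (Fin J ⊕ Fin e) → ℕ) = nhi ν := by
  funext S
  unfold nhi
  rw [h]

theorem IsCor_congr {ν ν₀ : Nos J} (h : ν.lo = ν₀.lo) (h' : ν.hi = ν₀.hi) :
    (IsCor ν₀ : (Finset (Fin J ⊕ Fin e) → ℕ) → Prop) = IsCor ν := by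
  funext η
  unfold IsCor
  rw [h, h']

open Classical in
/-- The finite set of the corners. -/
noncomputable def corH (J e : ℕ) (ν : Nos J) : Finset (Finset (Fin J ⊕ Fin e) → ℕ) :=
  Fintype.piFinset fun S => if (rt S).Nonempty then
    {ν.lo (lf S) (rt S).card, ν.hi (lf S) (rt S).card} else {0}

theorem mem_corH (ν : Nos J) (η : Finset (Fin J ⊕ Fin e) → ℕ) : η ∈ corH J e ν ↔ IsCor ν η := by
  unfold corH IsCor
  rw [Fintype.mem_piFinset]
  refine forall_congr' fun S => ?_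
  by_cases h : (rt S).Nonempty
  · rw [if_pos h, if_pos h, mem_insert, mem_singleton]
  · rw [if_neg h, if_neg h, mem_singleton]

/-- The positions seen by `α`, completed by `ω`. -/
noncomputable def lext (ν : Nos J) (α : Fin e ↪o Fin q) (Ω : PB ν q → RC cb cz J q → ℂ)
    (ω : (Σ S : Finset (Fin J ⊕ Fin e), Fin (nhi ν S)) → (Σ i : Fin J ⊕ Fin e, Fin (cd cb cz i)) → ℂ) :
    (Σ S : Finset (Fin J ⊕ Fin e), Fin (nhi ν S)) → (Σ i : Fin J ⊕ Fin e, Fin (cd cb cz i)) → ℂ :=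
  fun x => if h : x.2.1 < cor ν α x.1 then pos ν α Ω ⟨x, h⟩ else ω x

theorem lext_val (ν : Nos J) (α : Fin e ↪o Fin q) (Ω : PB ν q → RC cb cz J q → ℂ)
    (ω : (Σ S : Finset (Fin J ⊕ Fin e), Fin (nhi ν S)) → (Σ i : Fin J ⊕ Fin e, Fin (cd cb cz i)) → ℂ)
    (x : PC (nhi ν) (cor ν α)) : lext ν α Ω ω x.1 = pos ν α Ω x := by
  unfold lext
  rw [dif_pos x.2]

theorem pull_cont {X : Type*} [TopologicalSpace X] (α : Fin e → Fin q)
    (f : X → RC cb cz J q → ℂ) (hf : Continuous f) :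
    Continuous fun x => pull (cb := cb) (cz := cz) (J := J) α (f x) := by
  refine continuous_pi fun y => ?_
  obtain ⟨i, z⟩ := y
  rcases i with j | h
  · exact (continuous_apply (Sum.inl ⟨j, z⟩ : RC cb cz J q)).comp hf
  · exact (continuous_apply (Sum.inr (α h, z) : RC cb cz J q)).comp hf

theorem lext_cont {X : Type*} [TopologicalSpace X] (ν : Nos J) (α : Fin e ↪o Fin q)
    (vis : X → PB ν q → RC cb cz J q → ℂ) (hvis : Continuous vis)
    (ω : (Σ S : Finset (Fin J ⊕ Fin e), Fin (nhi ν S)) →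
      (Σ i : Fin J ⊕ Fin e, Fin (cd cb cz i)) → ℂ) :
    Continuous fun p => lext ν α (vis p) ω := by
  refine continuous_pi fun x => ?_
  unfold lext
  split_ifs with h
  · exact pull_cont _ _ ((continuous_apply _).comp hvis)
  · exact continuous_const

theorem lab_core (ν : Nos J) {P₀ : Type} [Fintype P₀]
    (m₀ : P₀ → Finset (Fin J ⊕ Fin e))
    (r : P₀ → (Σ i : Fin J ⊕ Fin e, Fin (cd cb cz i)) → ℂ)
    (lm : (Finset (Fin J ⊕ Fin e) → ℕ) → ℕ)
    (hsem : ∀ η, IsCor ν η → Gn (PC (nhi ν) η) (Σ i : Fin J ⊕ Fin e, Fin (cd cb cz i)) fun y =>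
      ∀ E : Submodule ℂ ((∀ i : Fin J ⊕ Fin e, Fin (cd cb cz i)) → ℂ),
        finrank ℂ (KE (tb J e) (Sum.elim m₀ (mC (nhi ν) η)) (Sum.elim r y) E) ≤
          lm η * finrank ℂ E)
    (D : Submodule ℂ ((∀ i : Fin J ⊕ Fin e, Fin (cd cb cz i)) → ℂ)) (S : Set ℕ)
    (hpos : ∀ η, IsCor ν η → ∀ E ≤ D, finrank ℂ E ∈ S → 1 ≤ lm η * finrank ℂ E)
    (s q₀ : ℕ) (W : Fin s → Set ((Σ S : Finset (Fin J ⊕ Fin e), Fin (nhi ν S)) →
      (Σ i : Fin J ⊕ Fin e, Fin (cd cb cz i)) → ℂ))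
    (hW : ∀ j, IsOpen (W j) ∧ (W j).Nonempty)
    (hcov : ∀ E ≤ D, finrank ℂ E ∈ S → ∃ j, ∀ y ∈ W j, ∀ η ∈ corH J e ν,
        finrank ℂ (KE (tb J e) (Sum.elim m₀ (mC (nhi ν) η))
          (Sum.elim r fun x : PC (nhi ν) η => y x.1) E) ≤ lm η * finrank ℂ E - 1)
    (κ' ν' : Type) [Fintype κ'] [Fintype ν']
    (vis : (κ' → ν' → ℂ) → PB ν (e * (2 * s) * q₀) → RC cb cz J (e * (2 * s) * q₀) → ℂ)
    (Bad : Finset (Fin e ↪o Fin (e * (2 * s) * q₀)))
    (hG : ∀ α ∉ Bad, ∀ Q, Gn (PC (nhi ν) (cor ν α)) (Σ i : Fin J ⊕ Fin e, Fin (cd cb cz i)) Q →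
        Gn κ' ν' fun p => Q (pos ν α (vis p)))
    (hvis : Continuous vis)
    (hB : ∀ (j : Fin s) (f : Fin e → Fin q₀),
        Pool.Agent.V7.BE.blk (Fin.castLE (by omega) j : Fin (2 * s)) f ∉ Bad)
    (hT : ∀ ω : Fin s → (Σ S : Finset (Fin J ⊕ Fin e), Fin (nhi ν S)) →
          (Σ i : Fin J ⊕ Fin e, Fin (cd cb cz i)) → ℂ,
        ∃ p, ∀ (j : Fin s) (f : Fin e → Fin q₀),
          pos ν (Pool.Agent.V7.BE.blk (Fin.castLE (by omega) j : Fin (2 * s)) f) (vis p) =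
            fun x => ω j x.1) :
    ∃ p, ∀ E ≤ D, finrank ℂ E ∈ S →
        ∑ α ∈ univ \ Bad, finrank ℂ (KE (tb J e) (Sum.elim m₀ (mC (nhi ν) (cor ν α)))
            (Sum.elim r (pos ν α (vis p))) E) + q₀ ^ e ≤
          ∑ α ∈ univ \ Bad, lm (cor ν α) * finrank ℂ E := by
  classical
  choose ω hω using fun j => (hW j).2
  obtain ⟨p₀, hp₀⟩ := hT ω
  have hgood : Gn κ' ν' fun p => ∀ α ∈ univ \ Bad,
      ∀ E : Submodule ℂ ((∀ i : Fin J ⊕ Fin e, Fin (cd cb cz i)) → ℂ),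
        finrank ℂ (KE (tb J e) (Sum.elim m₀ (mC (nhi ν) (cor ν α)))
          (Sum.elim r (pos ν α (vis p))) E) ≤ lm (cor ν α) * finrank ℂ E := by
    refine Gn.all _ fun α hα => ?_
    exact hG α (mem_sdiff.1 hα).2 _ (hsem (cor ν α) (isCor_cor ν α))
  have hopen : IsOpen {p : κ' → ν' → ℂ | ∀ (j : Fin s) (f : Fin e → Fin q₀),
      lext ν (Pool.Agent.V7.BE.blk (Fin.castLE (by omega) j : Fin (2 * s)) f) (vis p) (ω j) ∈ W j} := by
    have h1 : {p : κ' → ν' → ℂ | ∀ (j : Fin s) (f : Fin e → Fin q₀),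
        lext ν (Pool.Agent.V7.BE.blk (Fin.castLE (by omega) j : Fin (2 * s)) f) (vis p) (ω j) ∈ W j} =
        ⋂ j : Fin s, ⋂ f : Fin e → Fin q₀, (fun p : κ' → ν' → ℂ =>
          lext ν (Pool.Agent.V7.BE.blk (Fin.castLE (by omega) j : Fin (2 * s)) f) (vis p) (ω j)) ⁻¹'
            W j := by
      ext p
      simp
    rw [h1]
    exact isOpen_iInter_of_finite fun j => isOpen_iInter_of_finite fun f =>
      (hW j).1.preimage (lext_cont _ _ _ hvis _)
  obtain ⟨p, hpU, hp⟩ := Pool.Agent.V7.BE.Gn.near hgood p₀ _ (hopen.mem_nhds (by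
    intro j f
    have h1 : lext ν (Pool.Agent.V7.BE.blk (Fin.castLE (by omega) j : Fin (2 * s)) f)
        (vis p₀) (ω j) = ω j := by
      funext x
      unfold lext
      split_ifs with h
      · rw [hp₀ j f]
      · rfl
    rw [h1]
    exact hω j))
  refine ⟨p, fun E hE hES => ?_⟩
  obtain ⟨j, hj⟩ := hcov E hE hES
  let I : Finset (Fin e ↪o Fin (e * (2 * s) * q₀)) :=
    univ.image (Pool.Agent.V7.BE.blk (Fin.castLE (by omega) j : Fin (2 * s)))
  have hI : I.card = q₀ ^ e := by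
    rw [Finset.card_image_of_injective _ (Pool.Agent.V7.BE.blk_inj _), Finset.card_univ,
      Fintype.card_fun, Fintype.card_fin, Fintype.card_fin]
  have hIB : I ⊆ univ \ Bad := by
    intro α hα
    obtain ⟨f, _, rfl⟩ := mem_image.1 hα
    exact mem_sdiff.2 ⟨mem_univ _, hB j f⟩
  have hterm : ∀ α ∈ univ \ Bad,
      finrank ℂ (KE (tb J e) (Sum.elim m₀ (mC (nhi ν) (cor ν α)))
        (Sum.elim r (pos ν α (vis p))) E) + (if α ∈ I then 1 else 0) ≤
        lm (cor ν α) * finrank ℂ E := by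
    intro α hα'
    by_cases hα : α ∈ I
    · rw [if_pos hα]
      obtain ⟨f, _, rfl⟩ := mem_image.1 hα
      have h1 := hj _ (hpU j f) _ ((mem_corH ν _).2 (isCor_cor ν
        (Pool.Agent.V7.BE.blk (Fin.castLE (by omega) j : Fin (2 * s)) f)))
      have h2 : (fun x : PC (nhi ν) (cor ν (Pool.Agent.V7.BE.blk
          (Fin.castLE (by omega) j : Fin (2 * s)) f)) =>
          lext ν (Pool.Agent.V7.BE.blk (Fin.castLE (by omega) j : Fin (2 * s)) f) (vis p) (ω j) x.1) =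
          pos ν (Pool.Agent.V7.BE.blk (Fin.castLE (by omega) j : Fin (2 * s)) f) (vis p) :=
        funext fun x => lext_val _ _ _ _ x
      rw [h2] at h1
      have h3 := hpos _ (isCor_cor ν
        (Pool.Agent.V7.BE.blk (Fin.castLE (by omega) j : Fin (2 * s)) f)) E hE hES
      omega
    · rw [if_neg hα]
      exact hp α hα' E
  have hsum := Finset.sum_le_sum hterm
  rw [Finset.sum_add_distrib] at hsum
  have h2 : ∑ α ∈ univ \ Bad, (if α ∈ I then 1 else 0) = q₀ ^ e := by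
    rw [Finset.sum_ite_mem, Finset.inter_eq_right.2 hIB, Finset.sum_const, smul_eq_mul, mul_one, hI]
  rw [h2] at hsum
  exact hsum

theorem lab (he : 0 < e) (ν₀ : Nos J) {P₀ : Type} [Fintype P₀]
    (m₀ : P₀ → Finset (Fin J ⊕ Fin e))
    (r : P₀ → (Σ i : Fin J ⊕ Fin e, Fin (cd cb cz i)) → ℂ)
    (lm : (Finset (Fin J ⊕ Fin e) → ℕ) → ℕ)
    (hsem : ∀ η, IsCor ν₀ η → Gn (PC (nhi ν₀) η) (Σ i : Fin J ⊕ Fin e, Fin (cd cb cz i)) fun y =>
      ∀ E : Submodule ℂ ((∀ i : Fin J ⊕ Fin e, Fin (cd cb cz i)) → ℂ),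
        finrank ℂ (KE (tb J e) (Sum.elim m₀ (mC (nhi ν₀) η)) (Sum.elim r y) E) ≤
          lm η * finrank ℂ E)
    (D : Submodule ℂ ((∀ i : Fin J ⊕ Fin e, Fin (cd cb cz i)) → ℂ)) (S : Set ℕ)
    (hstr : ∀ η, IsCor ν₀ η → ∀ E ≤ D, finrank ℂ E ∈ S →
      ∃ y : PC (nhi ν₀) η → (Σ i : Fin J ⊕ Fin e, Fin (cd cb cz i)) → ℂ,
        finrank ℂ (KE (tb J e) (Sum.elim m₀ (mC (nhi ν₀) η)) (Sum.elim r y) E) <
          lm η * finrank ℂ E) :
    ∃ s : ℕ, 0 < s ∧ ∀ (ν : Nos J) (_ : ν.lo = ν₀.lo) (_ : ν.hi = ν₀.hi) (q₀ : ℕ)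
      (κ' ν' : Type) [Fintype κ'] [Fintype ν']
      (vis : (κ' → ν' → ℂ) → PB ν (e * (2 * s) * q₀) → RC cb cz J (e * (2 * s) * q₀) → ℂ)
      (Bad : Finset (Fin e ↪o Fin (e * (2 * s) * q₀))),
      (∀ α ∉ Bad, ∀ Q, Gn (PC (nhi ν) (cor ν α)) (Σ i : Fin J ⊕ Fin e, Fin (cd cb cz i)) Q →
        Gn κ' ν' fun p => Q (pos ν α (vis p))) →
      Continuous vis →
      (∀ (j : Fin s) (f : Fin e → Fin q₀),
        Pool.Agent.V7.BE.blk (Fin.castLE (by omega) j : Fin (2 * s)) f ∉ Bad) →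
      (∀ ω : Fin s → (Σ S : Finset (Fin J ⊕ Fin e), Fin (nhi ν S)) →
          (Σ i : Fin J ⊕ Fin e, Fin (cd cb cz i)) → ℂ,
        ∃ p, ∀ (j : Fin s) (f : Fin e → Fin q₀),
          pos ν (Pool.Agent.V7.BE.blk (Fin.castLE (by omega) j : Fin (2 * s)) f) (vis p) =
            fun x => ω j x.1) →
      ∃ p, ∀ E ≤ D, finrank ℂ E ∈ S →
        ∑ α ∈ univ \ Bad, finrank ℂ (KE (tb J e) (Sum.elim m₀ (mC (nhi ν) (cor ν α)))
            (Sum.elim r (pos ν α (vis p))) E) + q₀ ^ e ≤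
          ∑ α ∈ univ \ Bad, lm (cor ν α) * finrank ℂ E := by
  classical
  obtain ⟨s, hs, hex⟩ := KE_cover (tb J e) m₀ r (nhi ν₀) (corH J e ν₀)
    (fun η f => lm η * f - 1) D S (by
      intro η hη E hE hES
      obtain ⟨y, hy⟩ := hstr η ((mem_corH ν₀ η).1 hη) E hE hES
      exact ⟨y, by omega⟩)
  refine ⟨s, hs, ?_⟩
  intro ν hlo hhi q₀ κ' ν' _ _ vis Bad hG hvis hB hT
  have e1 : (nhi ν₀ : Finset (Fin J ⊕ Fin e) → ℕ) = nhi ν := nhi_congr hhi
  have e2 : (IsCor ν₀ : (Finset (Fin J ⊕ Fin e) → ℕ) → Prop) = IsCor ν := IsCor_congr hlo hhi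
  have hpos : ∀ η, IsCor ν η → ∀ E ≤ D, finrank ℂ E ∈ S → 1 ≤ lm η * finrank ℂ E := by
    intro η hη E hE hES
    obtain ⟨y, hy⟩ := hstr η (by rw [e2]; exact hη) E hE hES
    omega
  have e3 : corH J e ν₀ = corH J e ν := by
    ext η
    rw [mem_corH, mem_corH, e2]
  rw [e1, e3] at hex
  rw [e1, e2] at hsem
  obtain ⟨W, hW, hcov⟩ := hex
  exact lab_core ν m₀ r lm hsem D S hpos s q₀ W hW hcov κ' ν' vis Bad hG hvis hB hT

end Pool.Agent.GD.BE

end
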