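import Pool.Agent.H94.LP7.M08
import Pool.Agent.H94.LP7.M28

/-! The parts of this file: GD.BE.Filt, GD.N.Greedy. -/

section

/-!
# General d, block BETA, module Filt: one base slot

The points whose kind contains the base slot `i₀` have coordinate vectors (*lines*) there.  The
filtration of `E` by the lines (in an order given by `rk`) gives the spaces `Ex i₀ rk E x`.
-/

set_option autoImplicit false
set_option linter.unusedSectionVars false
set_option linter.unusedVariables false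

namespace Pool.Agent.GD.BE

open Finset MvPolynomial Module Pool.Agent.H51.TB

variable {ι : Type} [Fintype ι] [DecidableEq ι] {c : ι → ℕ}

/-- The slice at the line `x` of the slot `i₀` (a tensor which does not depend on this slot). -/
def slc (i₀ : ι) (x : Fin (c i₀)) :
    ((∀ i, Fin (c i)) → ℂ) →ₗ[ℂ] ((∀ i, Fin (c i)) → ℂ) :=
  LinearMap.funLeft ℂ ℂ fun w => Function.update w i₀ x

/-- The position with coordinate vectors in the slot `i₀`. -/
def spc (i₀ : ι) {P : Type} (m : P → Finset ι) (line : P → Fin (c i₀))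
    (p : P → (Σ i, Fin (c i)) → ℂ) : P → (Σ i, Fin (c i)) → ℂ := fun i x =>
  if x.1 = i₀ ∧ i₀ ∈ m i then (if x = ⟨i₀, line i⟩ then 1 else 0) else p i x

/-- The pieces of `E`. -/
noncomputable def Ex (i₀ : ι) (rk : Fin (c i₀) → ℕ) (E : Submodule ℂ ((∀ i, Fin (c i)) → ℂ))
    (x : Fin (c i₀)) : Submodule ℂ ((∀ i, Fin (c i)) → ℂ) :=
  (E ⊓ ⨅ x' : {x' // rk x' < rk x}, LinearMap.ker (slc i₀ x'.1)).map (slc i₀ x)

theorem slc_apply (i₀ : ι) (x : Fin (c i₀)) (G : (∀ i, Fin (c i)) → ℂ) (w : ∀ i, Fin (c i)) :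
    slc i₀ x G w = G (Function.update w i₀ x) := rfl

/-- The part of `E` killed by the slices at the lines of rank `< k`. -/
noncomputable def filt_F (i₀ : ι) (rk : Fin (c i₀) → ℕ)
    (E : Submodule ℂ ((∀ i, Fin (c i)) → ℂ)) (k : ℕ) : Submodule ℂ ((∀ i, Fin (c i)) → ℂ) :=
  E ⊓ ⨅ x' : {x' // rk x' < k}, LinearMap.ker (slc i₀ x'.1)

theorem mem_filt_F {i₀ : ι} {rk : Fin (c i₀) → ℕ} {E : Submodule ℂ ((∀ i, Fin (c i)) → ℂ)} {k : ℕ}
    {G : (∀ i, Fin (c i)) → ℂ} : G ∈ filt_F i₀ rk E k ↔ G ∈ E ∧ ∀ x', rk x' < k → slc i₀ x' G = 0 := by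
  unfold filt_F
  rw [Submodule.mem_inf, Submodule.mem_iInf]
  refine and_congr Iff.rfl ⟨fun h x' hx' => h ⟨x', hx'⟩, fun h x' => h x'.1 x'.2⟩

theorem filt_step (i₀ : ι) (rk : Fin (c i₀) → ℕ) (hrk : Function.Injective rk)
    (E : Submodule ℂ ((∀ i, Fin (c i)) → ℂ)) (x : Fin (c i₀)) :
    finrank ℂ (filt_F i₀ rk E (rk x)) =
      finrank ℂ (Ex i₀ rk E x) + finrank ℂ (filt_F i₀ rk E (rk x + 1)) := by
  have h1 := LinearMap.finrank_range_add_finrank_ker
    ((slc i₀ x).comp (filt_F i₀ rk E (rk x)).subtype)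
  rw [LinearMap.range_comp, Submodule.range_subtype] at h1
  have e : (LinearMap.ker ((slc i₀ x).comp (filt_F i₀ rk E (rk x)).subtype)).map
      (filt_F i₀ rk E (rk x)).subtype = filt_F i₀ rk E (rk x + 1) := by
    ext G
    rw [mem_filt_F]
    constructor
    · rintro ⟨G', hG', rfl⟩
      have h2 := mem_filt_F.1 G'.2
      refine ⟨h2.1, fun x' hx' => ?_⟩
      rcases Nat.lt_succ_iff_lt_or_eq.1 hx' with h3 | h3
      · exact h2.2 x' h3
      · rw [hrk h3]
        exact hG'
    · rintro ⟨h2, h3⟩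
      exact ⟨⟨G, mem_filt_F.2 ⟨h2, fun x' hx' => h3 x' (by omega)⟩⟩, h3 x (by omega), rfl⟩
  rw [← h1, ← e, Submodule.finrank_map_subtype_eq]
  rfl

theorem sum_Ex (i₀ : ι) (rk : Fin (c i₀) → ℕ) (hrk : Function.Injective rk)
    (E : Submodule ℂ ((∀ i, Fin (c i)) → ℂ)) : ∑ x, finrank ℂ (Ex i₀ rk E x) = finrank ℂ E := by
  classical
  have key : ∀ k : ℕ, ∑ x ∈ univ.filter (fun x => rk x < k), finrank ℂ (Ex i₀ rk E x) +
      finrank ℂ (filt_F i₀ rk E k) = finrank ℂ E := by
    intro k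
    induction k with
    | zero =>
      have h1 : filt_F i₀ rk E 0 = E := by
        ext G
        rw [mem_filt_F]
        exact ⟨fun h => h.1, fun h => ⟨h, fun x' hx' => absurd hx' (Nat.not_lt_zero _)⟩⟩
      have h2 : univ.filter (fun x => rk x < 0) = ∅ := by
        ext x
        simp
      rw [h1, h2, sum_empty, zero_add]
    | succ k ih =>
      by_cases hk : ∃ x, rk x = k
      · obtain ⟨x, rfl⟩ := hk
        have h1 : univ.filter (fun x' => rk x' < rk x + 1) =
            insert x (univ.filter fun x' => rk x' < rk x) := by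
          ext x'
          simp only [mem_filter, mem_univ, true_and, mem_insert]
          constructor
          · intro h
            rcases Nat.lt_succ_iff_lt_or_eq.1 h with h3 | h3
            · exact Or.inr h3
            · exact Or.inl (hrk h3)
          · rintro (h | h)
            · rw [h]; omega
            · omega
        have h2 : x ∉ univ.filter fun x' => rk x' < rk x := by simp
        rw [h1, sum_insert h2]
        have h3 := filt_step i₀ rk hrk E x
        omega
      · have h1 : ∀ x', rk x' < k + 1 ↔ rk x' < k := by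
          intro x'
          have h2 : rk x' ≠ k := fun h => hk ⟨x', h⟩
          omega
        have h2 : filt_F i₀ rk E (k + 1) = filt_F i₀ rk E k := by
          ext G
          rw [mem_filt_F, mem_filt_F]
          simp only [h1]
        simp only [h1]
        rw [h2]
        exact ih
  have h1 := key (∑ x, rk x + 1)
  have h2 : ∀ x, rk x < ∑ x, rk x + 1 := fun x =>
    Nat.lt_succ_of_le (single_le_sum (f := rk) (fun _ _ => Nat.zero_le _) (mem_univ x))
  have h3 : univ.filter (fun x => rk x < ∑ x, rk x + 1) = univ := by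
    ext x
    simp only [mem_filter, mem_univ, true_and, iff_true]
    exact h2 x
  have h4 : filt_F i₀ rk E (∑ x, rk x + 1) = ⊥ := by
    rw [Submodule.eq_bot_iff]
    intro G hG
    rw [mem_filt_F] at hG
    funext w
    have h5 := congrFun (hG.2 (w i₀) (h2 _)) w
    rwa [slc_apply, Function.update_eq_self] at h5
  rw [h3, h4, finrank_bot, add_zero] at h1
  exact h1

theorem Ex_dep (i₀ : ι) (rk : Fin (c i₀) → ℕ) {I : Finset ι}
    {E : Submodule ℂ ((∀ i, Fin (c i)) → ℂ)} (hE : E ≤ Dep c I) (x : Fin (c i₀)) :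
    Ex i₀ rk E x ≤ Dep c (I.erase i₀) := by
  rintro _ ⟨G, hG, rfl⟩ w w' h
  rw [slc_apply, slc_apply]
  refine hE (Submodule.mem_inf.1 hG).1 _ _ fun i hi => ?_
  by_cases h1 : i = i₀
  · subst h1
    rw [Function.update_self, Function.update_self]
  · rw [Function.update_of_ne h1, Function.update_of_ne h1]
    exact h i (mem_erase.2 ⟨h1, hi⟩)

theorem filt_ctr_congr {S : Finset ι} {y y' : (Σ i, Fin (c i)) → ℂ}
    (h : ∀ x : (Σ i, Fin (c i)), x.1 ∈ S → y x = y' x) (F : (∀ i, Fin (c i)) → ℂ)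
    (w : ∀ i, Fin (c i)) : ctr S y F w = ctr S y' F w := by
  unfold ctr
  refine sum_congr rfl fun e _ => ?_
  rw [prod_congr rfl fun j hj => h ⟨j, e j⟩ hj]

theorem mix_update {T : Finset ι} {i₀ : ι} (hi₀ : i₀ ∈ T) (w u : ∀ i, Fin (c i))
    (x : Fin (c i₀)) : Function.update (mix T w u) i₀ x = mix T (Function.update w i₀ x) u := by
  funext j
  unfold mix
  by_cases h : j = i₀
  · subst h
    rw [Function.update_self, if_pos hi₀, Function.update_self]
  · rw [Function.update_of_ne h]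
    split_ifs
    · rw [Function.update_of_ne h]
    · rfl

theorem KE_le_sum (T : Finset ι) {i₀ : ι} (hi₀ : i₀ ∈ T) (rk : Fin (c i₀) → ℕ)
    (hrk : Function.Injective rk) {P : Type} [Fintype P] (m : P → Finset ι)
    (line : P → Fin (c i₀)) (p : P → (Σ i, Fin (c i)) → ℂ)
    (E : Submodule ℂ ((∀ i, Fin (c i)) → ℂ)) :
    finrank ℂ (KE T m (spc i₀ m line p) E) ≤
      ∑ x, finrank ℂ (KE T (fun i : {i // i₀ ∉ m i ∨ line i = x} => (m i.1).erase i₀)
        (fun i => p i.1) (Ex i₀ rk E x)) := by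
  rw [← sum_Ex i₀ rk hrk (KE T m (spc i₀ m line p) E)]
  refine sum_le_sum fun x _ => Submodule.finrank_mono ?_
  rintro _ ⟨G, hG, rfl⟩
  have hG' : G ∈ filt_F i₀ rk (KE T m (spc i₀ m line p) E) (rk x) := hG
  rw [mem_filt_F, mem_KE] at hG'
  obtain ⟨⟨h1, h2⟩, h3⟩ := hG'
  rw [mem_KE]
  refine ⟨fun u => ?_, ?_⟩
  · refine ⟨fun w => G (mix T w u), ?_, ?_⟩
    · show _ ∈ filt_F i₀ rk E (rk x)
      rw [mem_filt_F]
      refine ⟨h1 u, fun x' hx' => ?_⟩
      funext w
      rw [slc_apply, ← mix_update hi₀]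
      exact congrFun (h3 x' hx') (mix T w u)
    · funext w
      rw [slc_apply, slc_apply, mix_update hi₀]
  · rintro ⟨i, hi⟩ w
    show ctr ((m i).erase i₀) (p i) (slc i₀ x G) w = 0
    have hspc : ∀ x : (Σ i, Fin (c i)), x.1 ≠ i₀ → spc i₀ m line p i x = p i x := by
      intro x hx
      unfold spc
      rw [if_neg fun h => hx h.1]
    by_cases him : i₀ ∈ m i
    · have hl : line i = x := hi.resolve_left fun h => h him
      rw [← h2 i w, filt_ctr_congr (y := p i) (y' := spc i₀ m line p i) fun x' hx' =>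
        (hspc x' (mem_erase.1 hx').1).symm]
      refine ctr_erase (m i) (spc i₀ m line p i) G i₀ x him (fun x' => ?_) w
      unfold spc
      rw [if_pos ⟨rfl, him⟩, hl]
      by_cases h : x' = x
      · subst h
        rw [if_pos rfl, if_pos rfl]
      · rw [if_neg h, if_neg]
        intro h'
        apply h
        have := (Sigma.mk.inj_iff.1 h').2
        exact eq_of_heq this
    · rw [erase_eq_of_notMem him]
      have h4 := ctr_slice (m i) (p i) G i₀ x him w
      have h5 : ctr (m i) (p i) (slc i₀ x G) w = ctr (m i) (p i) G (Function.update w i₀ x) := h4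
      rw [h5, filt_ctr_congr (y := p i) (y' := spc i₀ m line p i) fun x' hx' =>
        (hspc x' fun h => him (h ▸ hx')).symm]
      exact h2 i _

theorem filt_ctr_mix {S T : Finset ι} (hS : S ⊆ T) (y : (Σ i, Fin (c i)) → ℂ)
    (G : (∀ i, Fin (c i)) → ℂ) (u w : ∀ i, Fin (c i)) :
    ctr S y (fun e => G (mix T e u)) w = ctr S y G (mix T w u) := by
  unfold ctr
  rw [← Finset.sum_filter, ← Finset.sum_filter]
  refine Finset.sum_nbij' (fun e => mix T e u) (fun e => fun i => if i ∈ S then e i else w i)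
    ?_ ?_ ?_ ?_ ?_
  · intro e he
    simp only [Finset.mem_filter, Finset.mem_univ, true_and] at he ⊢
    intro j hj
    unfold mix
    by_cases h : j ∈ T
    · rw [if_pos h, if_pos h, he j hj]
    · rw [if_neg h, if_neg h]
  · intro e he
    simp only [Finset.mem_filter, Finset.mem_univ, true_and] at he ⊢
    intro j hj
    rw [if_neg hj]
  · intro e he
    simp only [Finset.mem_filter, Finset.mem_univ, true_and] at he
    funext j
    by_cases hj : j ∈ S
    · simp only [if_pos hj]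
      unfold mix
      rw [if_pos (hS hj)]
    · simp only [if_neg hj]
      exact (he j hj).symm
  · intro e he
    simp only [Finset.mem_filter, Finset.mem_univ, true_and] at he
    funext j
    by_cases h : j ∈ T
    · unfold mix
      rw [if_pos h]
      show (if j ∈ S then e j else w j) = e j
      by_cases hj : j ∈ S
      · rw [if_pos hj]
      · rw [if_neg hj, he j hj]
        unfold mix
        rw [if_pos h]
    · rw [he j fun h' => h (hS h')]
      unfold mix
      rw [if_neg h, if_neg h]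
  · intro e _
    congr 1
    refine Finset.prod_congr rfl fun j hj => ?_
    unfold mix
    rw [if_pos (hS hj)]

/-- Tensors killed by the base points. -/
theorem KE_inf_base (T : Finset ι) {P₀ P₁ : Type} (m₀ : P₀ → Finset ι) (m₁ : P₁ → Finset ι)
    (hm : ∀ i, m₀ i ⊆ T) (r : P₀ → (Σ i, Fin (c i)) → ℂ) (y : P₁ → (Σ i, Fin (c i)) → ℂ)
    (E : Submodule ℂ ((∀ i, Fin (c i)) → ℂ)) :
    KE T (Sum.elim m₀ m₁) (Sum.elim r y) (E ⊓ (TS ι c).V m₀ r) =
      KE T (Sum.elim m₀ m₁) (Sum.elim r y) E := by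
  ext G
  rw [mem_KE, mem_KE]
  constructor
  · rintro ⟨h1, h2⟩
    exact ⟨fun u => (Submodule.mem_inf.1 (h1 u)).1, h2⟩
  · rintro ⟨h1, h2⟩
    refine ⟨fun u => Submodule.mem_inf.2 ⟨h1 u, ?_⟩, h2⟩
    rw [mem_TS]
    intro i w
    rw [filt_ctr_mix (hm i)]
    exact h2 (Sum.inl i) _

end Pool.Agent.GD.BE

end

section

/-!
# General d, numerical block: the ladder

The digits of the level `j` in decreasing order of the cost: `pl k ∅` (`k = 2, …`), `b0 ∅` (if it exists),
`br 1, …, br j`; the last one has the exponent `d` and the support `range j`: a simple point.  Adding a trace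
point `(E, A)` to `X` lowers `v` by `vd (d - E) (range j ∩ A) c n X` (`vd_cons`), which is in `[lo, hi] * cc A *
n ^ (d - E - |A|)` by `cost` (`A = range j`, `d - E ≥ j`, or `A = Ico r j`, `d - E = j - r`), if `E < d`.
Start: `0 < v - g ≤ B cc n ^ (d - e - j)`.  `greedy` for every digit: the number of the points of the digit is at
most the ratio of the previous bound and the new cost: `pl k`: `(max B hi / lo) * n ^ (e - 1)`; `b0`: `(max B hi / lo) *
n ^ (e - 2)`; `br r`: `(hi / lo) * c (r - 1)` (for `r = 1` the previous cost is that of `E = d - j`, the last `pl` or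
`b0`).  The last digit (`E = d`; `j = 0`: `b0` or the last `pl`; `j ≥ 1`: `br j`) is the number of the simple points:
`newR` = what remains, exactly.  All partial configurations are in the class by hypothesis (`nw ≤` bound).
-/

set_option autoImplicit false

namespace Pool.Agent.GD

open Finset

/-- One digit. -/
theorem greedy (f : ℕ → ℤ) (h lo hi : ℝ) (B : ℕ) (hlo : 0 < lo) (h0 : 0 < f 0) (h1 : (f 0 : ℝ) ≤ h)
    (hB : h ≤ lo * B) (hs : ∀ m < B, lo ≤ ((f m - f (m + 1) : ℤ) : ℝ) ∧ ((f m - f (m + 1) : ℤ) : ℝ) ≤ hi) :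
    ∃ m < B, 0 < f m ∧ (f m : ℝ) ≤ hi ∧ (m : ℝ) * lo < h := by
  classical
  have hlin : ∀ m ≤ B, (f m : ℝ) ≤ f 0 - m * lo := by
    intro m
    induction m with
    | zero =>
      intro _
      simp
    | succ m ih =>
      intro hm
      have h2 := ih (by omega)
      have h3 := (hs m (by omega)).1
      push_cast at h3 ⊢
      linarith
  have hB0 : f B ≤ 0 := by
    have h2 := hlin B le_rfl
    have h3 : (f B : ℝ) ≤ 0 := by linarith
    exact_mod_cast h3
  have hex : ∃ m, f m ≤ 0 := ⟨B, hB0⟩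
  have hfB : Nat.find hex ≤ B := Nat.find_min' hex hB0
  have hsp := Nat.find_spec hex
  have hmin : ∀ m < Nat.find hex, ¬ f m ≤ 0 := fun m hm => Nat.find_min hex hm
  obtain ⟨k, hk⟩ : ∃ k, Nat.find hex = k + 1 := Nat.exists_eq_succ_of_ne_zero (fun h2 => by
    rw [h2] at hsp
    omega)
  rw [hk] at hfB hsp hmin
  have h5 : 0 < f k := not_le.1 (hmin k (by omega))
  have h6 := (hs k (by omega)).2
  have h7 := hlin k (by omega)
  have h8 : (f (k + 1) : ℝ) ≤ 0 := by exact_mod_cast hsp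
  have h9 : (0 : ℝ) < f k := by exact_mod_cast h5
  refine ⟨k, by omega, h5, ?_, by linarith⟩
  push_cast at h6
  linarith

/-- The trace points of the new clusters, without the simple points. -/
def newP (d e j : ℕ) (nw : CT → ℕ) : Multiset Kd :=
  ∑ τ ∈ newT d e j, if τ.E d e j = d then 0 else nw τ • {Kd.ord (τ.E d e j) (τ.A j)}

/-- The number of the simple points. -/
def newR (d e j : ℕ) (nw : CT → ℕ) : ℕ := ∑ τ ∈ newT d e j, if τ.E d e j = d then nw τ else 0

/-- The bound for the number of the new clusters. -/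
def nwB (e : ℕ) (c : ℕ → ℕ) (M n : ℕ) : CT → ℕ
  | .pl _ _ => M * n ^ (e - 1)
  | .b0 _ => M * n ^ (e - 2)
  | .br r => M * c (r - 1)

/-! ### Auxiliary facts -/

theorem gr_mem {d e j : ℕ} {τ : CT} : τ ∈ newT d e j ↔
    (∃ k, 2 ≤ k ∧ k ≤ (d - j - 1) / (e - 1) ∧ τ = .pl k ∅) ∨
      ((d - j - 1) % (e - 1) ≠ 0 ∧ τ = .b0 ∅) ∨ ∃ r, 1 ≤ r ∧ r ≤ j ∧ τ = .br r := by
  unfold newT
  rw [mem_union, mem_union, mem_image, mem_image]
  constructor
  · rintro ((⟨k, hk, rfl⟩ | h) | ⟨r, hr, rfl⟩)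
    · rw [mem_Icc] at hk
      exact Or.inl ⟨k, hk.1, hk.2, rfl⟩
    · split_ifs at h with h0
      · exact absurd h (notMem_empty _)
      · exact Or.inr (Or.inl ⟨h0, mem_singleton.1 h⟩)
    · rw [mem_Icc] at hr
      exact Or.inr (Or.inr ⟨r, hr.1, hr.2, rfl⟩)
  · rintro (⟨k, h1, h2, rfl⟩ | ⟨h0, rfl⟩ | ⟨r, h1, h2, rfl⟩)
    · exact Or.inl (Or.inl ⟨k, mem_Icc.2 ⟨h1, h2⟩, rfl⟩)
    · refine Or.inl (Or.inr ?_)
      rw [if_neg h0]
      exact mem_singleton_self _
    · exact Or.inr ⟨r, mem_Icc.2 ⟨h1, h2⟩, rfl⟩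

theorem gr_E {d e j : ℕ} (he : 2 ≤ e) (hj : j < d - e) {τ : CT} (h : τ ∈ newT d e j) :
    e < τ.E d e j ∧ τ.E d e j ≤ d := by
  rcases gr_mem.1 h with ⟨k, h1, h2, rfl⟩ | ⟨h0, rfl⟩ | ⟨r, h1, h2, rfl⟩
  · show e < k * (e - 1) + 1 ∧ k * (e - 1) + 1 ≤ d
    have h3 : k * (e - 1) ≤ d - j - 1 := (Nat.mul_le_mul_right _ h2).trans (Nat.div_mul_le_self _ _)
    have h4 : 2 * (e - 1) ≤ k * (e - 1) := Nat.mul_le_mul_right _ h1
    omega
  · show e < d - j ∧ d - j ≤ d
    omega
  · show e < d - j + r ∧ d - j + r ≤ d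
    omega

private theorem gr_update (d e j : ℕ) (nw : CT → ℕ) {τ : CT} (h : τ ∈ newT d e j) (m : ℕ) :
    newP d e j (Function.update nw τ m) = (if τ.E d e j = d then 0 else m • {Kd.ord (τ.E d e j) (τ.A j)}) +
      ∑ τ' ∈ (newT d e j).erase τ,
        if τ'.E d e j = d then 0 else nw τ' • {Kd.ord (τ'.E d e j) (τ'.A j)} := by
  unfold newP
  rw [← Finset.add_sum_erase _ _ h, Function.update_self]
  congr 1
  refine Finset.sum_congr rfl fun τ' hτ' => ?_
  rw [Function.update_of_ne (Finset.ne_of_mem_erase hτ')]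

theorem gr_succ (d e j : ℕ) (nw : CT → ℕ) {τ : CT} (h : τ ∈ newT d e j) (hE : τ.E d e j ≠ d) :
    newP d e j (Function.update nw τ (nw τ + 1)) =
      Kd.ord (τ.E d e j) (τ.A j) ::ₘ newP d e j nw := by
  have h1 := gr_update d e j nw h (nw τ + 1)
  have h2 := gr_update d e j nw h (nw τ)
  rw [Function.update_eq_self] at h2
  rw [h1, h2, if_neg hE, if_neg hE, succ_nsmul, ← Multiset.singleton_add, ← add_assoc, add_comm
    (nw τ • _) _]

theorem gr_count {d e j : ℕ} (he : 2 ≤ e) (hj : j < d - e) (nw : CT → ℕ) (A : Finset ℕ) :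
    (newP d e j nw).count (Kd.ord e A) = 0 := by
  unfold newP
  rw [Multiset.count_sum']
  refine Finset.sum_eq_zero fun τ hτ => ?_
  split_ifs
  · exact Multiset.count_zero _
  · rw [Multiset.count_nsmul, Multiset.count_singleton, if_neg, mul_zero]
    intro h
    injection h with h1 h2
    have := (gr_E he hj hτ).1
    omega

theorem gr_zero (d e j : ℕ) : newP d e j (fun _ => 0) = 0 := by
  unfold newP
  refine Finset.sum_eq_zero fun τ _ => ?_
  split_ifs
  · rfl
  · exact zero_nsmul _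

/-- The state of the ladder: the digits of `L` are chosen. -/
def St (V : (CT → ℕ) → ℤ) (T : Finset CT) (b : CT → ℕ) (L : Set CT) (h : ℝ) : Prop :=
  ∃ nw : CT → ℕ, (∀ τ ∈ T, nw τ ≤ b τ) ∧ (∀ τ, τ ∉ L → nw τ = 0) ∧ 0 < V nw ∧ (V nw : ℝ) ≤ h

theorem St.mono {V : (CT → ℕ) → ℤ} {T : Finset CT} {b : CT → ℕ} {L L' : Set CT} {h h' : ℝ}
    (hS : St V T b L h) (hL : L ⊆ L') (hh : h ≤ h') : St V T b L' h' := by
  obtain ⟨nw, h1, h2, h3, h4⟩ := hS
  exact ⟨nw, h1, fun τ hτ => h2 τ fun h5 => hτ (hL h5), h3, h4.trans hh⟩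

theorem St.digit {V : (CT → ℕ) → ℤ} {T : Finset CT} {b : CT → ℕ} {L : Set CT} {h : ℝ}
    (hS : St V T b L h) {τ : CT} (hL : τ ∉ L) {lo hi : ℝ} (hlo : 0 < lo)
    (hb : h ≤ lo * b τ) (hs : ∀ nw : CT → ℕ, (∀ τ' ∈ T, nw τ' ≤ b τ') →
      lo ≤ ((V nw - V (Function.update nw τ (nw τ + 1)) : ℤ) : ℝ) ∧
        ((V nw - V (Function.update nw τ (nw τ + 1)) : ℤ) : ℝ) ≤ hi) {L' : Set CT} {h' : ℝ}
    (hL' : insert τ L ⊆ L') (hh : hi ≤ h') : St V T b L' h' := by
  classical
  obtain ⟨nw, h1, h2, h3, h4⟩ := hS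
  have h5 : Function.update nw τ 0 = nw := by
    rw [← h2 τ hL]
    exact Function.update_eq_self τ nw
  have hbd : ∀ m ≤ b τ, ∀ τ' ∈ T, Function.update nw τ m τ' ≤ b τ' := by
    intro m hm τ' hτ'
    by_cases h6 : τ' = τ
    · subst h6
      rw [Function.update_self]
      exact hm
    · rw [Function.update_of_ne h6]
      exact h1 τ' hτ'
  obtain ⟨m, hm, h6, h7, -⟩ := greedy (fun m => V (Function.update nw τ m)) h lo hi (b τ) hlo
    (by rw [h5]; exact h3) (by rw [h5]; exact h4) hb (fun m hm => by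
      have h8 := hs (Function.update nw τ m) (hbd m hm.le)
      rw [Function.update_idem, Function.update_self] at h8
      exact h8)
  refine ⟨Function.update nw τ m, hbd m hm.le, fun τ' hτ' => ?_, h6, h7.trans hh⟩
  have h8 : τ' ≠ τ := by
    rintro rfl
    exact hτ' (hL' (Set.mem_insert _ _))
  rw [Function.update_of_ne h8]
  exact h2 τ' fun h9 => hτ' (hL' (Set.mem_insert_of_mem _ h9))

theorem St.last {d e j : ℕ} {w : Multiset Kd → ℤ} {X : Multiset Kd} {g : ℤ} {b : CT → ℕ}
    {L : Set CT} {h : ℝ}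
    (hS : St (fun nw => w (X + newP d e j nw) - g) (newT d e j) b L h) {τ : CT}
    (hτ : τ ∈ newT d e j) (hE : τ.E d e j = d)
    (hu : ∀ τ' ∈ newT d e j, τ'.E d e j = d → τ' = τ) (hb : h ≤ b τ) :
    ∃ nw : CT → ℕ, (∀ τ ∈ newT d e j, nw τ ≤ b τ) ∧
      w (X + newP d e j nw) = g + newR d e j nw ∧ 1 ≤ newR d e j nw := by
  classical
  obtain ⟨nw, h1, -, h3, h4⟩ := hS
  set z : ℤ := w (X + newP d e j nw) - g with hz
  have h3' : 0 < z := h3
  have h4' : (z : ℝ) ≤ h := h4
  have h5 : ((z.toNat : ℕ) : ℤ) = z := Int.toNat_of_nonneg h3'.le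
  have hP : newP d e j (Function.update nw τ z.toNat) = newP d e j nw := by
    unfold newP
    refine Finset.sum_congr rfl fun τ' hτ' => ?_
    by_cases h6 : τ'.E d e j = d
    · rw [if_pos h6, if_pos h6]
    · have h7 : τ' ≠ τ := by
        rintro rfl
        exact h6 hE
      rw [Function.update_of_ne h7]
  have hR : newR d e j (Function.update nw τ z.toNat) = z.toNat := by
    unfold newR
    rw [Finset.sum_eq_single τ]
    · rw [if_pos hE, Function.update_self]
    · intro τ' hτ' h6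
      exact if_neg fun h7 => h6 (hu τ' hτ' h7)
    · intro h6
      exact absurd hτ h6
  refine ⟨Function.update nw τ z.toNat, fun τ' hτ' => ?_, ?_, ?_⟩
  · by_cases h6 : τ' = τ
    · subst h6
      rw [Function.update_self]
      have h7 : ((z.toNat : ℕ) : ℝ) = (z : ℝ) := by exact_mod_cast congrArg (Int.cast : ℤ → ℝ) h5
      have h8 : ((z.toNat : ℕ) : ℝ) ≤ (b τ' : ℝ) := by
        rw [h7]
        exact h4'.trans hb
      exact_mod_cast h8
    · rw [Function.update_of_ne h6]
      exact h1 τ' hτ'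
  · rw [hP, hR, h5, hz]
    ring
  · rw [hR]
    omega

end Pool.Agent.GD

end
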