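import Pool.Agent.H94.LP7.M13
import Pool.Agent.H94.LP7.M25
import Pool.Agent.H94.LP7.M26
import Pool.Agent.H94.LP7.M29

/-! The parts of this file: GD.N.Dat, GD.AL.P1_1. -/

section

/-!
# General d, numerical block: the data of the step `NUM` (definitions)
-/

set_option autoImplicit false

namespace Pool.Agent.GD

open Finset

/-- The conditions on the sizes of the blocks `0, …, j`. -/
structure Par.Sz (P : Par) (j M₁ : ℕ) : Prop where
  one : ∀ i ≤ j, 1 ≤ P.c i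
  big : ∀ i ≤ j, M₁ ≤ P.c i
  dec : ∀ i x, i < x → x ≤ j → P.c x ≤ P.c i
  int : ∀ x K, 2 ≤ x → K ⊆ range (j + 1) → j ∈ K → K.card = x →
    ∃ p m : ℕ, (p : ℚ) = P.xp x K * P.cc K ∧ (m : ℚ) = P.xm x K * P.cc K

/-- `T` of the `N` points of the kind `(x, B)` are put off `L_j` (`K = range j \ B`, `w = x - |K|`). -/
structure GT (P : Par) (j n : ℕ) (θ : ℝ) (x : ℕ) (B : Finset ℕ) (N T : ℕ) : Prop where
  le : T ≤ N
  zero : (range j \ B).card = x → T = 0
  half : P.kap x ≠ 0 → 2 * T ≤ N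
  low : P.kap x ≠ 0 → (range j \ B).card < x →
    P.kap x / 2 * (P.cc (range j \ B) * P.c j) * (n : ℝ) ^ (x - (range j \ B).card - 1) ≤ T
  win : (range j \ B).card < x →
    |((N - T : ℕ) : ℝ) - P.nat x (range j \ B) * P.cc (range j \ B) *
        ((n - P.c j : ℕ) : ℝ) ^ (x - (range j \ B).card)| ≤
      P.eps j * P.cc (range j \ B) * ((n - P.c j : ℕ) : ℝ) ^ (x - (range j \ B).card)
  room : P.kap x = 0 → (range j \ B).card + 2 ≤ x → ∀ X : ℕ,
    (X : ℝ) ≤ θ * (n : ℝ) ^ (x - (range j \ B).card - 1) →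
      ((N - T + X : ℕ) : ℝ) ≤ P.eps j * P.cc (range j \ B) * ((n - P.c j : ℕ) : ℝ) ^ (x - (range j \ B).card)
  res : (range j \ B).card < x →
    |((N - T : ℕ) : ℝ) - P.nat x (range j \ B) * P.cc (range j \ B) * (n : ℝ) ^ (x - (range j \ B).card)| ≤
      P.bet (j + 1) * P.cc (range j \ B) * (n : ℝ) ^ (x - (range j \ B).card)
  off : (range j \ B).card + 2 ≤ x →
    |(T : ℝ) - P.nat x (insert j (range j \ B)) * P.cc (insert j (range j \ B)) *
        (n : ℝ) ^ (x - (range j \ B).card - 1)| ≤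
      P.bet (j + 1) * P.cc (insert j (range j \ B)) * (n : ℝ) ^ (x - (range j \ B).card - 1)
  one : (range j \ B).card + 1 = x →
    (T : ℚ) = P.xp x (insert j (range j \ B)) * P.cc (insert j (range j \ B)) ∨
      (T : ℚ) = P.xm x (insert j (range j \ B)) * P.cc (insert j (range j \ B))

/-- The numbers of all kinds except the main one. -/
structure Par.GTs (P : Par) (j n : ℕ) (θ : ℝ) (ms : Multiset Kd) (T : ℕ → Finset ℕ → ℕ) : Prop where
  out : ∀ x B, B ⊆ range j → ¬ (2 ≤ x ∧ x < P.d ∧ (range j \ B).card ≤ x) → T x B = 0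
  gt : ∀ x B, 2 ≤ x → x < P.d → B ⊆ range j → (range j \ B).card ≤ x → (x ≠ P.e ∨ B ≠ range j) →
    GT P j n θ x B (npt ms x B) (T x B)

/-- The data of a step. -/
structure Par.Dat (P : Par) (j n : ℕ) (θ : ℝ) (M₀ : ℕ) (ms : Multiset Kd) (s : Stp) : Prop
    extends P.GTs j n θ ms s.T where
  tu : s.T P.e (range j) ≤ ms.count (P.u j)
  tuw : |(s.T P.e (range j) : ℝ) - P.kap P.e * P.e * P.c j * (n : ℝ) ^ (P.e - 1)| ≤
    P.eps (j + 1) * P.c j * (n : ℝ) ^ (P.e - 1)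
  oc : ∀ i τ, s.oc i τ = ms.count (τ.kd P.d P.e i j) - τ.mm P * (n - P.c j) ^ τ.w P.e
  nw : ∀ τ ∈ newT P.d P.e j, s.nw τ ≤ nwB P.e P.c M₀ n τ

end Pool.Agent.GD

end

section

/-!
# General d, ALPHA: the region
-/

set_option autoImplicit false

namespace Pool.Agent.GD.AL

open Finset

section Mon

open Pool.Agent.H21.NX (Sx mem_Sx)

end Mon

section Reg

variable {d J D : ℕ} {σ : St} {I : Finset ℕ} {c0 : ℕ → ℕ} {n0 : ℕ} {η : ℝ}

/-- The sizes from the top one. -/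
theorem P1c {ε : ℝ} (hD : D ≤ d) (hI : I ⊆ range J) (hID : I.card ≤ D) (hη : 0 ≤ η) (hε : 0 < ε)
    (hc : ∀ l, σ.c l ≤ c0 l) (hn : σ.n J ≤ n0) (hB : Big d J c0 n0 I (4 * (d + 1) / ε + 4))
    (hex : ExL d J σ I D) (hlb : σ.V J I D ≤ σ.H d J I D) (hv : η * nz c0 n0 I D ≤ (σ.V J I D : ℝ)) :
    (∀ l ∈ I, (η - ε) * c0 l ≤ (σ.c l : ℝ)) ∧ (I.card < D → (η - ε) * n0 ≤ (σ.w : ℝ)) := by
  classical
  obtain ⟨hc1, hn1, hb⟩ := big_facts hε hB
  have hn1' : (1 : ℝ) ≤ n0 := by exact_mod_cast hn1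
  have h3 : (σ.V J I D : ℝ) ≤ σ.H d J I D := by exact_mod_cast hlb
  set M := (1 + ∑ l ∈ range J, (c0 l : ℝ)) ^ (d + 1) with hMdef
  have hS : (0 : ℝ) ≤ ∑ l ∈ range J, (c0 l : ℝ) := sum_nonneg fun l _ => Nat.cast_nonneg _
  have hM0 : (0 : ℝ) ≤ M := pow_nonneg (by linarith only [hS]) _
  -- the dimension at the pair `(I, |I|)`
  have h0 : σ.H d J I I.card ≤ ∏ l ∈ I, σ.c l := by
    have h1 := H_blocks (d := d) (J := J) σ (I' := ∅) (T := I) (D' := 0) hI
      (disjoint_empty_left I) (by omega)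
    rw [empty_union, Nat.zero_add] at h1
    have h2 : σ.H d J ∅ 0 ≤ 1 := by
      have := HI_zero_le (d := d) (bt J σ.c σ.w) ∅ σ.ms
      exact this
    exact h1.trans ((Nat.mul_le_mul_left _ h2).trans (by rw [mul_one]))
  have h0' : (σ.H d J I I.card : ℝ) ≤ ∏ l ∈ I, (σ.c l : ℝ) := by
    rw [← Nat.cast_prod]
    exact_mod_cast h0
  have hPc : ∏ l ∈ I, (σ.c l : ℝ) ≤ ∏ l ∈ I, (c0 l : ℝ) :=
    prod_le_prod (fun _ _ => Nat.cast_nonneg _) fun l _ => by exact_mod_cast hc l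
  obtain ⟨s, hs⟩ := Nat.exists_eq_add_of_le hID
  have hsd : (s : ℝ) ≤ d + 1 := by
    have : s ≤ d + 1 := by omega
    exact_mod_cast this
  refine ⟨fun l hl => ?_, fun hlt => ?_⟩
  · have h2 := H_iter (d := d) σ hI hc hn hn1 (x := I.card) (D0 := d + 1) s (by omega) (by omega)
    rw [← hs, ← hMdef] at h2
    set Q : ℝ := ∏ i ∈ I.erase l, (c0 i : ℝ) with hQ
    have hQ1 : (1 : ℝ) ≤ Q := by
      calc (1 : ℝ) = ∏ i ∈ I.erase l, (1 : ℝ) := by rw [prod_const_one]
        _ ≤ Q := prod_le_prod (fun _ _ => zero_le_one) fun i hi => hc1 i (mem_of_mem_erase hi)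
    have h5 : (σ.H d J I I.card : ℝ) ≤ Q * σ.c l := by
      refine h0'.trans ?_
      rw [← mul_prod_erase I (fun i => (σ.c i : ℝ)) hl, mul_comm]
      exact mul_le_mul_of_nonneg_right (prod_le_prod (fun _ _ => Nat.cast_nonneg _)
        fun i _ => by exact_mod_cast hc i) (Nat.cast_nonneg _)
    have hnz : nz c0 n0 I D = (n0 : ℝ) ^ s * Q * c0 l := by
      unfold nz
      have e1 : D - I.card = s := by omega
      rw [e1, ← mul_prod_erase I (fun i => (c0 i : ℝ)) hl]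
      ring
    have hp : (0 : ℝ) < (n0 : ℝ) ^ (s + 1) * Q := mul_pos (pow_pos (by linarith only [hn1']) _) (by linarith only [hQ1])
    have key : (n0 : ℝ) ^ (s + 1) * Q * (η * c0 l) ≤ (n0 : ℝ) ^ (s + 1) * Q * (σ.c l + ε * c0 l) := by
      calc (n0 : ℝ) ^ (s + 1) * Q * (η * c0 l) = n0 * (η * nz c0 n0 I D) := by
            rw [hnz, pow_succ]
            ring
        _ ≤ n0 * σ.H d J I D := mul_le_mul_of_nonneg_left (hv.trans h3) (by linarith only [hn1'])
        _ ≤ (n0 : ℝ) ^ (s + 1) * σ.H d J I I.card + s * ((n0 : ℝ) ^ s * M) := h2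
        _ ≤ (n0 : ℝ) ^ (s + 1) * (Q * σ.c l) + (n0 : ℝ) ^ s * ((d + 1) * M) := by
            have e1 := mul_le_mul_of_nonneg_left h5 (pow_nonneg (by linarith only [hn1'] : (0 : ℝ) ≤ n0) (s + 1))
            have e2 : (0 : ℝ) ≤ (n0 : ℝ) ^ s * M := mul_nonneg (pow_nonneg (by linarith only [hn1']) _) hM0
            nlinarith only [e1, hsd, e2]
        _ ≤ (n0 : ℝ) ^ (s + 1) * (Q * σ.c l) + (n0 : ℝ) ^ s * (ε * n0) := by
            have e1 := mul_le_mul_of_nonneg_left hb (pow_nonneg (by linarith only [hn1'] : (0 : ℝ) ≤ n0) s)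
            linarith only [e1]
        _ = (n0 : ℝ) ^ (s + 1) * (Q * σ.c l) + (n0 : ℝ) ^ (s + 1) * (ε * (1 * 1)) := by
            rw [pow_succ]
            ring
        _ ≤ (n0 : ℝ) ^ (s + 1) * (Q * σ.c l) + (n0 : ℝ) ^ (s + 1) * (ε * (Q * c0 l)) := by
            have e1 : (1 : ℝ) * 1 ≤ Q * c0 l := mul_le_mul hQ1 (hc1 l hl) zero_le_one (by linarith only [hQ1])
            have e2 := mul_le_mul_of_nonneg_left (mul_le_mul_of_nonneg_left e1 hε.le)
              (pow_nonneg (by linarith only [hn1'] : (0 : ℝ) ≤ n0) (s + 1))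
            linarith only [e2]
        _ = (n0 : ℝ) ^ (s + 1) * Q * (σ.c l + ε * c0 l) := by ring
    have := le_of_mul_le_mul_left key hp
    linarith only [this]
  · obtain ⟨t, rfl⟩ : ∃ t, s = t + 1 := ⟨s - 1, by omega⟩
    have h2 := H_iter (d := d) σ hI hc hn hn1 (x := I.card + 1) (D0 := d + 1) t (by omega) (by omega)
    have hs' : I.card + 1 + t = D := by omega
    rw [hs', ← hMdef] at h2
    -- the first step
    have h6 := up2 (d := d) (D := I.card) (by omega) (bt J σ.c σ.w) I σ.ms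
    have h7 := card_sup_le' (I.card + 1) (bt J σ.c σ.w) I
    have h8 := card_in_le (c0 := c0) σ hc hI
    have h9 : (univ.filter fun s : Vr J σ.c σ.w => bt J σ.c σ.w s ∉ I).card ≤
        ∑ l ∈ range J, c0 l + σ.w := by
      refine (card_le_univ _).trans ?_
      rw [card_Vr]
      have := sum_le_sum (s := range J) fun l _ => hc l
      omega
    set Q : ℝ := ∏ i ∈ I, (c0 i : ℝ) with hQ
    have hQ1 : (1 : ℝ) ≤ Q := by
      calc (1 : ℝ) = ∏ i ∈ I, (1 : ℝ) := by rw [prod_const_one]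
        _ ≤ Q := prod_le_prod (fun _ _ => zero_le_one) hc1
    have h10 : (σ.H d J I (I.card + 1) : ℝ) ≤ (∑ l ∈ range J, (c0 l : ℝ) + σ.w) * Q + M := by
      have e1 : (σ.H d J I (I.card + 1) : ℝ) ≤
          ((univ.filter fun s : Vr J σ.c σ.w => bt J σ.c σ.w s ∉ I).card : ℕ) * (σ.H d J I I.card : ℝ) +
          (((Ex (bt J σ.c σ.w) (I.card + 1) I).filter fun a => ∀ s, bt J σ.c σ.w s ∉ I → a s = 0).card : ℕ) := by
        exact_mod_cast h6
      have e2 : ((((Ex (bt J σ.c σ.w) (I.card + 1) I).filter fun a =>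
          ∀ s, bt J σ.c σ.w s ∉ I → a s = 0).card : ℕ) : ℝ) ≤ M := by
        have e3 : (((univ.filter fun s : Vr J σ.c σ.w => bt J σ.c σ.w s ∈ I).card : ℕ) : ℝ) ≤
            ∑ l ∈ range J, (c0 l : ℝ) := by
          exact_mod_cast h8
        calc ((((Ex (bt J σ.c σ.w) (I.card + 1) I).filter fun a =>
            ∀ s, bt J σ.c σ.w s ∉ I → a s = 0).card : ℕ) : ℝ)
            ≤ ((((univ.filter fun s : Vr J σ.c σ.w => bt J σ.c σ.w s ∈ I).card ^ (I.card + 1) : ℕ)) : ℝ) := by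
              exact_mod_cast h7
          _ = (((univ.filter fun s : Vr J σ.c σ.w => bt J σ.c σ.w s ∈ I).card : ℕ) : ℝ) ^ (I.card + 1) := by
              push_cast
              ring
          _ ≤ (1 + ∑ l ∈ range J, (c0 l : ℝ)) ^ (I.card + 1) := by
              refine pow_le_pow_left₀ (Nat.cast_nonneg _) ?_ _
              linarith only [e3]
          _ ≤ M := pow_le_pow_right₀ (by linarith only [hS]) (by omega)
      refine e1.trans (add_le_add ?_ e2)
      have e4 : (((univ.filter fun s : Vr J σ.c σ.w => bt J σ.c σ.w s ∉ I).card : ℕ) : ℝ) ≤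
          ∑ l ∈ range J, (c0 l : ℝ) + σ.w := by
        exact_mod_cast h9
      exact mul_le_mul e4 (h0'.trans hPc) (Nat.cast_nonneg _) (add_nonneg hS (Nat.cast_nonneg _))
    have hnz : nz c0 n0 I D = (n0 : ℝ) ^ (t + 1) * Q := by
      unfold nz
      have e1 : D - I.card = t + 1 := by omega
      rw [e1, hQ]
      ring
    have hp : (0 : ℝ) < (n0 : ℝ) ^ (t + 1) * Q := mul_pos (pow_pos (by linarith only [hn1']) _) (by linarith only [hQ1])
    have htd : (t : ℝ) ≤ d := by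
      have : t ≤ d := by omega
      exact_mod_cast this
    have hSM : ∑ l ∈ range J, (c0 l : ℝ) ≤ M := by
      calc ∑ l ∈ range J, (c0 l : ℝ) ≤ (1 + ∑ l ∈ range J, (c0 l : ℝ)) ^ 1 := by
            rw [pow_one]
            linarith only
        _ ≤ M := pow_le_pow_right₀ (by linarith only [hS]) (by omega)
    have htd2 : (t : ℝ) + 2 ≤ d + 1 := by
      have : t + 2 ≤ d + 1 := by omega
      exact_mod_cast this
    have hfin : ∑ l ∈ range J, (c0 l : ℝ) + M + t * M ≤ ε * n0 := by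
      have e1 : ((t : ℝ) + 2) * M ≤ (d + 1) * M := mul_le_mul_of_nonneg_right htd2 hM0
      linarith only [hb, hSM, e1]
    have key : (n0 : ℝ) ^ (t + 1) * Q * (η * n0) ≤ (n0 : ℝ) ^ (t + 1) * Q * (σ.w + ε * n0) := by
      calc (n0 : ℝ) ^ (t + 1) * Q * (η * n0) = n0 * (η * nz c0 n0 I D) := by
            rw [hnz]
            ring
        _ ≤ n0 * σ.H d J I D := mul_le_mul_of_nonneg_left (hv.trans h3) (by linarith only [hn1'])
        _ ≤ (n0 : ℝ) ^ (t + 1) * σ.H d J I (I.card + 1) + t * ((n0 : ℝ) ^ t * M) := h2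
        _ ≤ (n0 : ℝ) ^ (t + 1) * ((∑ l ∈ range J, (c0 l : ℝ) + σ.w) * Q + M) +
            t * ((n0 : ℝ) ^ (t + 1) * M) := by
            have e1 := mul_le_mul_of_nonneg_left h10 (pow_nonneg (by linarith only [hn1'] : (0 : ℝ) ≤ n0) (t + 1))
            have e2 : (n0 : ℝ) ^ t ≤ (n0 : ℝ) ^ (t + 1) := pow_le_pow_right₀ hn1' (by omega)
            have e3 := mul_le_mul_of_nonneg_left (mul_le_mul_of_nonneg_right e2 hM0)
              (Nat.cast_nonneg t : (0 : ℝ) ≤ t)
            linarith only [e1, e3]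
        _ = (n0 : ℝ) ^ (t + 1) * ((∑ l ∈ range J, (c0 l : ℝ) + σ.w) * Q + 1 * (M + t * M)) := by ring
        _ ≤ (n0 : ℝ) ^ (t + 1) * ((∑ l ∈ range J, (c0 l : ℝ) + σ.w) * Q + Q * (M + t * M)) := by
            have e1 : (0 : ℝ) ≤ M + t * M := add_nonneg hM0 (mul_nonneg (Nat.cast_nonneg t) hM0)
            have e2 := mul_le_mul_of_nonneg_left (mul_le_mul_of_nonneg_right hQ1 e1)
              (pow_nonneg (by linarith only [hn1'] : (0 : ℝ) ≤ n0) (t + 1))
            linarith only [e2]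
        _ = (n0 : ℝ) ^ (t + 1) * Q * (σ.w + (∑ l ∈ range J, (c0 l : ℝ) + M + t * M)) := by ring
        _ ≤ (n0 : ℝ) ^ (t + 1) * Q * (σ.w + ε * n0) := by
            have e1 := mul_le_mul_of_nonneg_left hfin hp.le
            linarith only [e1]
    have := le_of_mul_le_mul_left key hp
    linarith only [this]

end Reg

end Pool.Agent.GD.AL

end
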