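import Pool.Agent.H94.LP7.M23
import Pool.Agent.H94.LP7.M25
import Pool.Agent.H94.LP7.M35
import Pool.Agent.H94.LP7.M37

/-! The parts of this file: H21.HD.BridgeD_1, GD.AL.Rep, GD.BE.Gain. -/

section

/-!
Pairs with large multiplicities.
-/

namespace Pool.Agent.H21.HD

open MvPolynomial Pool.Agent.H18.Fat
open scoped Classical

namespace BridgeDX

open BridgeCX

theorem finite_homog' (n d : ℕ) :
    Module.Finite ℂ (homogeneousSubmodule (Fin n) ℂ d) := by
  rw [← range_toPoly']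
  infer_instance

/-- A fat point imposes at least one condition. -/
theorem finrank_fat_lt {r d : ℕ} {ι : Type*} (p : ι → Fin (r + 1) → ℂ) (m : ι → ℕ) (i : ι)
    (hi : 1 ≤ m i) (hp : p i 0 ≠ 0) :
    Module.finrank ℂ (fatForms r d p m) < (d + r).choose r := by
  have hfin := finite_homog' (r + 1) d
  rw [← finrank_homog' r d]
  apply Submodule.finrank_lt_finrank_of_lt
  refine lt_of_le_of_ne (fun F hF => hF.1) ?_
  intro heq
  have h1 : (X 0 ^ d : MvPolynomial (Fin (r + 1)) ℂ) ∈ homogeneousSubmodule (Fin (r + 1)) ℂ d := by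
    rw [mem_homogeneousSubmodule]
    simpa using (isHomogeneous_X ℂ (0 : Fin (r + 1))).pow d
  rw [← heq] at h1
  have h2 := h1.2 i 0 (by
    rw [map_zero]
    omega)
  have h3 : coeff 0 (shift (p i) (X 0 ^ d)) = p i 0 ^ d := by
    unfold shift
    rw [map_pow, aeval_X, ← constantCoeff_eq, map_pow]
    simp
  rw [h3] at h2
  exact pow_ne_zero d hp h2

end BridgeDX

open BridgeCX BridgeDX

/-- If two multiplicities have sum at least `d + 2` and there is a nonzero form, then the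
conditions are not maximal. -/
theorem not_maximal_of_pair {r k : ℕ} (hr : 1 ≤ r) (d : ℕ) (p : Fin k → Fin (r + 1) → ℂ)
    (hp : ∀ i, p i 0 ≠ 0) (m : Fin k → ℕ) (hm : ∀ i, 1 ≤ m i ∧ m i ≤ d) (i j : Fin k) (hij : i ≠ j)
    (h : d + 2 ≤ m i + m j) (hpos : 0 < Module.finrank ℂ (fatForms r d p m)) :
    ¬ ImposesMaximalConditions r d p m := by
  intro hmax
  unfold ImposesMaximalConditions at hmax
  have hmi := hm i
  have hmj := hm j
  have hzero : (0 + r - 1).choose r = 0 := Nat.choose_eq_zero_of_lt (by omega)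
  set len : ℕ → ℕ := fun a => (a + r - 1).choose r with hlen
  have hlen0 : len 0 = 0 := hzero
  have hlen' : ∀ a, (a + r - 1).choose r = len a := fun _ => rfl
  let mi : Fin k → ℕ := fun l => if l = i then m l else 0
  let mij : Fin k → ℕ := fun l => if l = i ∨ l = j then m l else 0
  let n : Fin k → ℕ := fun l => if l = i ∨ l = j then 0 else m l
  -- the single point
  have h1 : ((d + r).choose r : ℤ) - (len (m i) : ℤ) ≤ Module.finrank ℂ (fatForms r d p mi) := by
    have h := finrank_fatForms_ge (d := d) hr hp mi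
    have h2 : ∑ l, ((mi l + r - 1).choose r : ℤ) = (len (m i) : ℤ) := by
      rw [Finset.sum_eq_single i]
      · simp [mi, hlen]
      · intro l _ hl
        have : mi l = 0 := if_neg hl
        rw [this]
        exact_mod_cast hzero
      · intro hi
        exact absurd (Finset.mem_univ _) hi
    rwa [h2] at h
  -- adding the second point
  have h2 : Module.finrank ℂ (fatForms r d p mi) <
      Module.finrank ℂ (fatForms r d p mij) + len (m j) := by
    have h3 := finrank_fat_le_add d p mi j (d + 1 - m j) (by omega) (if_neg (Ne.symm hij))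
    have h4 : ∀ inst : DecidableEq (Fin k),
        @Function.update (Fin k) (fun _ => ℕ) inst mi j (d + 1 - (d + 1 - m j)) = mij := by
      intro inst
      funext l
      by_cases hl : l = j
      · subst hl
        rw [Function.update_self]
        have : mij l = m l := if_pos (Or.inr rfl)
        rw [this]
        omega
      · rw [Function.update_of_ne hl]
        by_cases hli : l = i
        · simp [mi, mij, hli]
        · simp [mi, mij, hli, hl]
    rw [h4] at h3
    have h5 := finrank_fat_lt (d := d - (d + 1 - m j)) p (fun l => mi l - (d + 1 - m j)) i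
      (by
        have : mi i = m i := if_pos rfl
        change 1 ≤ mi i - (d + 1 - m j)
        rw [this]
        omega) (hp i)
    have h6 : d - (d + 1 - m j) + r = m j + r - 1 := by omega
    rw [h6, hlen' (m j)] at h5
    omega
  -- the other points
  have h3 : Module.finrank ℂ (fatForms r d p mij) ≤
      Module.finrank ℂ (fatForms r d p m) + ∑ l, len (n l) := by
    have h4 := finrank_add_length_ge (d := d) hr p mij p hp n
    have hfin := finite_fat (d := d) p m
    have h5 : Module.finrank ℂ (fatForms r d (Sum.elim p p) (Sum.elim mij n)) ≤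
        Module.finrank ℂ (fatForms r d p m) := by
      apply Submodule.finrank_mono
      intro F hF
      refine ⟨hF.1, fun l => ?_⟩
      by_cases hl : l = i ∨ l = j
      · have h6 := hF.2 (Sum.inl l)
        simp only [Sum.elim_inl] at h6
        have h7 : mij l = m l := if_pos hl
        rwa [h7] at h6
      · have h6 := hF.2 (Sum.inr l)
        simp only [Sum.elim_inr] at h6
        have h7 : n l = m l := if_neg hl
        rwa [h7] at h6
    exact h4.trans (Nat.add_le_add_right h5 _)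
  -- the sum of the lengths
  have h4 : ∑ l, len (m l) = ∑ l, len (n l) + len (m i) + len (m j) := by
    have h5 : ∀ l, len (m l) = len (n l) + (if l = i then len (m i) else 0) +
        (if l = j then len (m j) else 0) := by
      intro l
      by_cases hl : l = i
      · subst hl
        have h7 : n l = 0 := if_pos (Or.inl rfl)
        rw [h7, hlen0, if_pos rfl, if_neg hij]
        omega
      · by_cases hl' : l = j
        · subst hl'
          have h7 : n l = 0 := if_pos (Or.inr rfl)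
          rw [h7, hlen0, if_pos rfl, if_neg hl]
          omega
        · have h7 : n l = m l := if_neg (by tauto)
          rw [h7, if_neg hl, if_neg hl']
          omega
    rw [Finset.sum_congr rfl fun l _ => h5 l, Finset.sum_add_distrib, Finset.sum_add_distrib]
    simp
  have h5 : ∑ l, ((m l + r - 1).choose r : ℤ) = ((∑ l, len (m l) : ℕ) : ℤ) := by
    push_cast
    rfl
  rw [h5, h4] at hmax
  generalize ∑ l, len (n l) = S at hmax h3
  have h6 : (0 : ℤ) < (Module.finrank ℂ (fatForms r d p m) : ℤ) := by exact_mod_cast hpos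
  rcases le_total (0 : ℤ) (((d + r).choose r : ℤ) -
      ((S + len (m i) + len (m j) : ℕ) : ℤ)) with h7 | h7
  · rw [max_eq_right h7] at hmax
    push_cast at hmax h1
    omega
  · rw [max_eq_left h7] at hmax
    omega

end Pool.Agent.H21.HD

end

section

/-!
# General d, ALPHA: the effect of one more ordinary object

`nz_T`, `nz_ratio`: the natural sizes; `V_rep`: one more object changes the virtual dimensions of the pairs
below `(I, D)` by a small part of the natural size.
-/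

set_option autoImplicit false

namespace Pool.Agent.GD.AL

open Finset

section Rep

theorem nz_nonneg (c0 : ℕ → ℕ) (n0 : ℕ) (I : Finset ℕ) (D : ℕ) : 0 ≤ nz c0 n0 I D := by
  unfold nz
  exact mul_nonneg (prod_nonneg fun i _ => Nat.cast_nonneg _) (pow_nonneg (Nat.cast_nonneg _) _)

theorem nz_T {D : ℕ} {c0 : ℕ → ℕ} {n0 : ℕ} {I A : Finset ℕ} {x : ℕ} (hT : (I \ A).card ≤ x)
    (hxD : x ≤ D) (hID : I.card ≤ D) (h : (I ∩ A).card ≤ D - x) :
    nz c0 n0 I D = nz c0 n0 (I ∩ A) (D - x) *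
      ((∏ l ∈ I \ A, (c0 l : ℝ)) * (n0 : ℝ) ^ (x - (I \ A).card)) := by
  unfold nz
  have h1 := card_inter_add_card_sdiff I A
  have h2 : D - I.card = (D - x - (I ∩ A).card) + (x - (I \ A).card) := by omega
  have h3 : (∏ i ∈ I, (c0 i : ℝ)) = (∏ i ∈ I ∩ A, (c0 i : ℝ)) * ∏ i ∈ I \ A, (c0 i : ℝ) := by
    rw [← prod_inter_mul_prod_diff I A]
  rw [h2, pow_add, h3]
  ring

theorem nz_ratio {D : ℕ} {c0 : ℕ → ℕ} {n0 : ℕ} {K : ℝ} {I A : Finset ℕ} {x : ℕ}
    (hK : 1 ≤ K) (hKc : ∀ l ∈ I, K ≤ (c0 l : ℝ)) (hKn : K ≤ (n0 : ℝ)) (hx1 : 1 ≤ x)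
    (hA : (I \ A).card ≤ x) (hxD : x ≤ D) (hID : I.card ≤ D) (h : (I ∩ A).card ≤ D - x) :
    K * nz c0 n0 (I ∩ A) (D - x) ≤ nz c0 n0 I D := by
  rw [nz_T hA hxD hID h, mul_comm K]
  refine mul_le_mul_of_nonneg_left ?_ (nz_nonneg _ _ _ _)
  have hK0 : 0 ≤ K := le_trans zero_le_one hK
  have h1 : K ^ (I \ A).card ≤ ∏ l ∈ I \ A, (c0 l : ℝ) := by
    rw [← prod_const]
    exact prod_le_prod (fun i _ => hK0) fun i hi => hKc i (mem_sdiff.1 hi).1
  have h2 : K ^ (x - (I \ A).card) ≤ (n0 : ℝ) ^ (x - (I \ A).card) := pow_le_pow_left₀ hK0 hKn _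
  calc K = K ^ 1 := (pow_one K).symm
    _ ≤ K ^ x := pow_le_pow_right₀ hK hx1
    _ = K ^ (I \ A).card * K ^ (x - (I \ A).card) := by
      rw [← pow_add]
      congr 1
      omega
    _ ≤ _ := mul_le_mul h1 h2 (pow_nonneg hK0 _) (prod_nonneg fun i _ => Nat.cast_nonneg _)

theorem V_rep {d J D : ℕ} {σ : St} {I : Finset ℕ} {c0 : ℕ → ℕ} {n0 : ℕ} {K : ℝ} (hD : D ≤ d)
    (hI : I ⊆ range J) (hc : ∀ l, σ.c l ≤ c0 l) (hn : σ.n J ≤ n0) (hm : ∀ k ∈ σ.ms, AdmO d J k)
    (hK : 1 ≤ K) (hKc : ∀ l ∈ I, K ≤ (c0 l : ℝ)) (hKn : K ≤ (n0 : ℝ)) (hex : ExL d J σ I D)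
    {x : ℕ} {A : Finset ℕ} (hx1 : 1 ≤ x) (hA : (range J \ A).card ≤ x) {I' : Finset ℕ} {D' : ℕ}
    (hI' : I' ⊆ I) (hID' : I'.card ≤ D') (hD' : D' + (I \ I').card ≤ D) :
    (σ.V J I' D' : ℝ) - nz c0 n0 I' D' / K ≤ ((σ.ad (.ord x A)).V J I' D' : ℝ) := by
  have hK0 : 0 < K := lt_of_lt_of_le zero_lt_one hK
  rcases Nat.lt_or_ge D' x with hx | hx
  · rw [St.V_ord_lt A hx]
    have h1 := div_nonneg (nz_nonneg c0 n0 I' D') hK0.le
    linarith
  · rw [St.V_ord A hx]
    push_cast
    have hIr : I' ∩ A ⊆ range J := inter_subset_left.trans (hI'.trans hI)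
    have hT : (I' \ A).card ≤ x :=
      (card_le_card (sdiff_subset_sdiff (hI'.trans hI) subset_rfl)).trans hA
    have h1 : (σ.V J (I' ∩ A) (D' - x) : ℝ) ≤ nz c0 n0 I' D' / K := by
      rcases Nat.lt_or_ge (D' - x) (I' ∩ A).card with h2 | h2
      · rw [St.V_low hIr hm h2, Int.cast_zero]
        exact div_nonneg (nz_nonneg c0 n0 I' D') hK0.le
      · have h3 : (I \ (I' ∩ A)).card ≤ (I \ I').card + (I' \ A).card := by
          refine le_trans (card_le_card ?_) (card_union_le _ _)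
          intro z hz
          rw [mem_sdiff, Finset.mem_inter] at hz
          rw [mem_union, mem_sdiff, mem_sdiff]
          by_cases h4 : z ∈ I'
          · exact Or.inr ⟨h4, fun h5 => hz.2 ⟨h4, h5⟩⟩
          · exact Or.inl ⟨hz.1, h4⟩
        have h4 := hex (I' ∩ A) (inter_subset_left.trans hI') (D' - x) (by omega) (by omega)
        have h5 := St.H_le (σ := σ) (d := d) (J := J) (c0 := c0) (n0 := n0) (I := I' ∩ A)
          (D := D' - x) (by omega) hIr (fun l _ => hc l) hn h2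
        have h6 : (σ.V J (I' ∩ A) (D' - x) : ℝ) = (σ.H d J (I' ∩ A) (D' - x) : ℝ) := by
          rw [← h4]
          push_cast
          rfl
        rw [h6, le_div_iff₀ hK0]
        have h7 := nz_ratio (c0 := c0) (n0 := n0) hK (fun l hl => hKc l (hI' hl)) hKn hx1 hT hx
          hID' h2
        nlinarith [h5, h7]
    linarith

end Rep

end Pool.Agent.GD.AL

end

section

/-!
# General d, block BETA, module Gain: the gain for many blocks

PROOF.  `T = I = tb J e`.  The finitely many `κ` with `IsKap d kb kl kh κ` are admissible; `N` = product of the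
numbers of `strict`, `semi_gn_ai`, `semi_ai`, `base_ai` for all of them and of the denominators of `kl x`, `kh x`
(`x < d`), `kb K`, and of `FF κ T` (so that `b` is an integer; it depends only on `kb`).  Given `c`, `cz`: `lo`,
`hi` are the integers wanted, `P₀ = Σ K, Fin (n₀ K)` with `n₀ K = kb K * ∏ c`, `m₀ ⟨K, _⟩ = K.map inl`, `r` an
independent position (`ai_dense`).  For a corner `η` (`IsCor`) the densities `κ S = η S / pc S` (base: `kb`) satisfy
`IsKap`, and `Cfg (cd c cz) T T κ m₀ (mC nhi η)`; `lm η` = the integer `lam` (`semi_ai`), `hsem` = `semi_gn_ai`,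
`hstr` = `strict` for `E ≤ Dep T`, `1 ≤ finrank E < b`.  `lab` with `D = Dep (cd c cz) T`, `S = {h | 1 ≤ h < b}`,
`κ' = PB ν q`, `ν' = RC c cz J q`, `vis δ` (`vis_gn`, `vis_cont`, `gb_not_bad`, `vis_tmpl`); `E = ext e cz F`
(`finrank_ext`, `ext_le`).  `lam * b = (∏ c) * cz ^ e * FF κ univ` and `FF κ = FR (kcor ..)` (`FR_cast`,
`FR_congr`).
-/

set_option autoImplicit false

namespace Pool.Agent.GD.BE

open Finset MvPolynomial Module Pool.Agent.H51.TB

/-- The product of the dimensions of the slots of `S`. -/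
noncomputable def DD {J e : ℕ} (c : ℕ → ℕ) (cz : ℕ) (S : Finset (Fin J ⊕ Fin e)) : ℝ :=
  (∏ i ∈ lf S, (c i : ℝ)) * (cz : ℝ) ^ (rt S).card

/-- The base densities. -/
noncomputable def kbR {J e : ℕ} (kb : Finset (Fin J) → ℚ) (S : Finset (Fin J ⊕ Fin e)) : ℝ :=
  (kb (lf S) : ℝ)

/-! ### auxiliary -/

theorem exists_N {X Y : Type} (H : Finset X) (R : X → (Y → ℕ) → Prop)
    (h : ∀ x ∈ H, ∃ N : ℕ, 0 < N ∧ ∀ c : Y → ℕ, (∀ i, 0 < c i ∧ N ∣ c i) → R x c) :
    ∃ N : ℕ, 0 < N ∧ ∀ x ∈ H, ∀ c : Y → ℕ, (∀ i, 0 < c i ∧ N ∣ c i) → R x c := by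
  classical
  have h' : ∀ x, ∃ N : ℕ, 0 < N ∧ (x ∈ H → ∀ c : Y → ℕ, (∀ i, 0 < c i ∧ N ∣ c i) → R x c) := by
    intro x
    by_cases hx : x ∈ H
    · obtain ⟨N, h1, h2⟩ := h x hx
      exact ⟨N, h1, fun _ => h2⟩
    · exact ⟨1, one_pos, fun hx' => absurd hx' hx⟩
  choose N hN hN' using h'
  exact ⟨∏ x ∈ H, N x, prod_pos fun x _ => hN x, fun x hx c hc => hN' x hx c fun i =>
    ⟨(hc i).1, (dvd_prod_of_mem N hx).trans (hc i).2⟩⟩

theorem int_of_den {x : ℚ} (hx : 0 ≤ x) {m : ℕ} (h : x.den ∣ m) :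
    ∃ n : ℕ, (n : ℚ) = x * m := by
  obtain ⟨k, rfl⟩ := h
  refine ⟨x.num.toNat * k, ?_⟩
  have h1 : ((x.num.toNat : ℕ) : ℚ) = x.num := by
    have h2 : ((x.num.toNat : ℕ) : ℤ) = x.num := Int.toNat_of_nonneg (Rat.num_nonneg.2 hx)
    exact_mod_cast h2
  push_cast
  rw [h1, ← mul_assoc, Rat.mul_den_eq_num]

section prep

variable {J e : ℕ}

theorem rt_iff (S : Finset (Fin J ⊕ Fin e)) : (rt S).Nonempty ↔ ¬ S ⊆ tb J e := by
  constructor
  · rintro ⟨b, hb⟩ h
    have h1 := h (mem_filter.1 hb).2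
    have h2 := (mem_filter.1 h1).2
    exact absurd h2 (by simp)
  · intro h
    rw [not_subset] at h
    obtain ⟨x, hx, hxt⟩ := h
    rcases x with j | b
    · exact absurd (show Sum.inl j ∈ tb J e from mem_filter.2 ⟨mem_univ _, rfl⟩) hxt
    · exact ⟨b, mem_filter.2 ⟨mem_univ _, hx⟩⟩

/-- The densities of a corner. -/
noncomputable def kq (kb : Finset (Fin J) → ℚ) (c : ℕ → ℕ) (cz : ℕ)
    (η : Finset (Fin J ⊕ Fin e) → ℕ) (S : Finset (Fin J ⊕ Fin e)) : ℚ :=
  if (rt S).Nonempty then (η S : ℚ) / pc (cd c cz) S else kb (lf S)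

/-- The base points. -/
abbrev PP (n₀ : Finset (Fin J) → ℕ) : Type := Σ K : Finset (Fin J), Fin (n₀ K)

/-- Their kinds. -/
def mm (e : ℕ) (n₀ : Finset (Fin J) → ℕ) (x : PP n₀) : Finset (Fin J ⊕ Fin e) :=
  x.1.map ⟨Sum.inl, Sum.inl_injective⟩

theorem mm_sub (n₀ : Finset (Fin J) → ℕ) (x : PP n₀) : mm e n₀ x ⊆ tb J e := by
  intro y hy
  obtain ⟨j, _, rfl⟩ := mem_map.1 hy
  exact mem_filter.2 ⟨mem_univ _, rfl⟩

theorem card_fib (n₀ : Finset (Fin J) → ℕ) (K : Finset (Fin J)) :
    Nat.card {x : PP n₀ // x.1 = K} = n₀ K := by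
  have e1 : {x : PP n₀ // x.1 = K} ≃ Fin (n₀ K) :=
    { toFun := fun x => Fin.cast (by rw [x.2]) x.1.2
      invFun := fun t => ⟨⟨K, t⟩, rfl⟩
      left_inv := by
        rintro ⟨⟨K', t⟩, h⟩
        have h' : K' = K := h
        subst h'
        rfl
      right_inv := fun t => rfl }
  rw [Nat.card_congr e1, Nat.card_eq_fintype_card, Fintype.card_fin]

theorem card_mC (nh η : Finset (Fin J ⊕ Fin e) → ℕ) (h : ∀ S, η S ≤ nh S)
    (S : Finset (Fin J ⊕ Fin e)) : Nat.card {x : PC nh η // mC nh η x = S} = η S := by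
  have e1 : {x : PC nh η // mC nh η x = S} ≃ Fin (η S) :=
    { toFun := fun x => ⟨x.1.1.2.1, lt_of_lt_of_eq x.1.2 (congrArg η x.2)⟩
      invFun := fun t => ⟨⟨⟨S, ⟨t.1, lt_of_lt_of_le t.2 (h S)⟩⟩, t.2⟩, rfl⟩
      left_inv := by
        rintro ⟨⟨⟨S', t⟩, h1⟩, h2⟩
        have h' : S' = S := h2
        subst h'
        rfl
      right_inv := fun t => rfl }
  rw [Nat.card_congr e1, Nat.card_eq_fintype_card, Fintype.card_fin]

theorem cfg_le {ι : Type} [Fintype ι] [DecidableEq ι] {c : ι → ℕ} {T : Finset ι}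
    {κ : Finset ι → ℚ} {P₀ P₁ : Type} [Fintype P₀] [Fintype P₁] {m₀ : P₀ → Finset ι}
    {m₁ : P₁ → Finset ι} (h : Cfg c T T κ m₀ m₁) (S : Finset ι) (hS : S ≠ ∅) :
    κ S * pc c S ≤ (Nat.card {x // Sum.elim m₀ m₁ x = S} : ℚ) := by
  by_cases h1 : S ⊆ T
  · rw [← h.card₀ S h1 hS]
    have h2 : Nat.card {x // m₀ x = S} ≤ Nat.card {x // Sum.elim m₀ m₁ x = S} :=
      Nat.card_le_card_of_injective
        (fun x : {x // m₀ x = S} => (⟨Sum.inl x.1, x.2⟩ : {x // Sum.elim m₀ m₁ x = S}))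
        fun x y hxy => Subtype.ext (Sum.inl_injective (congrArg Subtype.val hxy))
    exact_mod_cast h2
  · rw [← h.card₁ S (by rw [union_compl]; exact subset_univ _) h1]
    have h2 : Nat.card {x // m₁ x = S} ≤ Nat.card {x // Sum.elim m₀ m₁ x = S} :=
      Nat.card_le_card_of_injective
        (fun x : {x // m₁ x = S} => (⟨Sum.inr x.1, x.2⟩ : {x // Sum.elim m₀ m₁ x = S}))
        fun x y hxy => Subtype.ext (Sum.inr_injective (congrArg Subtype.val hxy))
    exact_mod_cast h2

end prep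

end Pool.Agent.GD.BE

end
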