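import Pool.Agent.H94.LP7.M25

/-! The parts of this file: GD.BE.Vis, GD.BE.Two. -/

section

/-!
# General d, block BETA, module Vis: dependent points

Some of the additional points are *dependent*: the vector of `u ∈ D` in the base slot `slot u` is minus the
sum of the vectors of the points `v ∈ R u` (the other members of a cluster).  `vis δ p` are the positions as a
function of the parameters `p` (which give all points, the value of `p u` in the slot `slot u` is not used for
`u ∈ D`).  `α` is bad if it sees a dependent point `u` and a point of `R u`.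

PROOFS.  `vis_gn`: for `α ∉ bad δ` the linear map `p ↦ pos ν α (vis δ p)` is surjective: given `y`, take
`p u` = `y` for the seen `u` (all coordinates seen by `α`; the rest `0`), and correct for every seen
dependent `u` the value in the slot `slot u` of one point `v₀ u ∈ R u` (not seen by `α`, not in `D`, the `R u`
are disjoint) so that the sum over `R u` is minus the value wanted.  A general statement pulled back by a
surjective linear map is general (compose the polynomial with the map; if the composition vanished, all values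
of the polynomial would vanish).  `vis_tmpl`: `p u` for `u = ⟨S, t⟩` is `ω j ⟨S', t⟩` where `j` is the label of
one block of `rt S`, `S'` = `S` with the blocks `b` replaced by `hlab b` (as `V7/BE/Temp.lean`: `Om0`, `sS`,
`hlab`, `slab`, `res_Om0`; if `t` is not below `nhi ν S'` take `0`); no point of `D` is seen by these `α`.
`bad_card`: two different sets of `e - 1` blocks are contained in at most one set of `e` blocks.
-/

set_option autoImplicit false

namespace Pool.Agent.GD.BE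

open Finset MvPolynomial Module Pool.Agent.H51.TB Topology

variable {cb : ℕ → ℕ} {cz J e q : ℕ} {ν : Nos J}

/-- A general statement pulled back by a surjective linear map. -/
theorem gn_comp {P X P' X' : Type} [Fintype P] [Fintype X] [Fintype P'] [Fintype X']
    (f : (P' → X' → ℂ) →ₗ[ℂ] (P → X → ℂ)) (hf : Function.Surjective f)
    {Q : (P → X → ℂ) → Prop} (h : Gn P X Q) : Gn P' X' fun p => Q (f p) := by
  classical
  obtain ⟨G, hG, h⟩ := h
  let co : P × X → P' × X' → ℂ := fun x y => f (Pi.single y.1 (Pi.single y.2 1)) x.1 x.2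
  let L : P × X → MvPolynomial (P' × X') ℂ := fun x => ∑ y, C (co x y) * MvPolynomial.X y
  have hL : ∀ (p : P' → X' → ℂ) (x : P × X),
      eval (fun y => p y.1 y.2) (L x) = f p x.1 x.2 := by
    intro p x
    have h1 : p = ∑ y : P' × X', p y.1 y.2 • (Pi.single y.1 (Pi.single y.2 1) : P' → X' → ℂ) := by
      funext a b
      rw [Finset.sum_apply, Finset.sum_apply, Finset.sum_eq_single (a, b)]
      · simp
      · rintro ⟨a', b'⟩ _ hne
        rw [Pi.smul_apply, Pi.smul_apply]
        by_cases ha : a' = a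
        · subst ha
          have hb : b' ≠ b := fun hb => hne (by rw [hb])
          rw [Pi.single_eq_same, Pi.single_eq_of_ne hb.symm, smul_zero]
        · rw [Pi.single_eq_of_ne (Ne.symm ha), Pi.zero_apply, smul_zero]
      · intro hne
        exact absurd (mem_univ _) hne
    have h2 : f p = ∑ y : P' × X', p y.1 y.2 •
        f (Pi.single y.1 (Pi.single y.2 1) : P' → X' → ℂ) := by
      conv_lhs => rw [h1]
      rw [map_sum]
      exact sum_congr rfl fun y _ => map_smul _ _ _
    rw [h2, Finset.sum_apply, Finset.sum_apply]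
    simp only [L, map_sum, map_mul, eval_C, eval_X]
    refine sum_congr rfl fun y _ => ?_
    rw [Pi.smul_apply, Pi.smul_apply, smul_eq_mul, mul_comm]
  have hev : ∀ p : P' → X' → ℂ, eval (fun y => p y.1 y.2) (aeval L G) =
      eval (fun x => f p x.1 x.2) G := by
    intro p
    have h1 : (eval (fun y : P' × X' => p y.1 y.2)).comp
        ((aeval L : MvPolynomial (P × X) ℂ →ₐ[ℂ] _) : MvPolynomial (P × X) ℂ →+* _) =
        eval (fun x => f p x.1 x.2) := by
      apply MvPolynomial.ringHom_ext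
      · intro r
        simp
      · intro x
        simp [hL]
    exact DFunLike.congr_fun h1 G
  refine ⟨aeval L G, ?_, fun p hp => ?_⟩
  · intro h0
    apply hG
    apply MvPolynomial.funext
    intro x
    rw [map_zero]
    obtain ⟨p, hp⟩ := hf fun i j => x (i, j)
    have h1 := hev p
    rw [h0, map_zero, hp] at h1
    exact h1.symm
  · rw [hev] at hp
    exact h _ hp

/-- The dependent points, their slots and the points on which they depend. -/
structure Dpn (ν : Nos J) (q : ℕ) where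
  D : Finset (PB ν q)
  slot : PB ν q → Fin J
  R : PB ν q → Finset (PB ν q)

structure Dpn.Ok (δ : Dpn ν q) : Prop where
  ne : ∀ u ∈ δ.D, (δ.R u).Nonempty
  disj : ∀ u ∈ δ.D, ∀ v ∈ δ.R u, v ∉ δ.D
  pw : ∀ u ∈ δ.D, ∀ u' ∈ δ.D, u ≠ u' → Disjoint (δ.R u) (δ.R u')

open Classical in
/-- The positions. -/
noncomputable def vis (δ : Dpn ν q) (p : PB ν q → RC cb cz J q → ℂ) (u : PB ν q) :
    RC cb cz J q → ℂ
  | Sum.inl y => if u ∈ δ.D ∧ y.1 = δ.slot u then -∑ v ∈ δ.R u, p v (Sum.inl y) else p u (Sum.inl y)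
  | Sum.inr y => p u (Sum.inr y)

/-- `α` sees the point `u`. -/
def Sees (α : Fin e ↪o Fin q) (u : PB ν q) : Prop := ∀ b ∈ rt u.1, ∃ h, α h = b

open Classical in
/-- The bad `α`. -/
noncomputable def bad (e : ℕ) (δ : Dpn ν q) : Finset (Fin e ↪o Fin q) :=
  univ.filter fun α => ∃ u ∈ δ.D, Sees α u ∧ ∃ v ∈ δ.R u, Sees α v

/-- The point seen as `x`. -/
def spt (ν : Nos J) (α : Fin e ↪o Fin q) (x : PC (nhi ν) (cor ν α)) : PB ν q :=
  ⟨x.1.1.map (emb J α), ⟨x.1.2.1, x.2⟩⟩

theorem mem_rt_map (α : Fin e ↪o Fin q) (S : Finset (Fin J ⊕ Fin e)) (b : Fin q) :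
    b ∈ rt (S.map (emb J α)) ↔ ∃ h, Sum.inr h ∈ S ∧ α h = b := by
  unfold rt
  rw [mem_filter, mem_map]
  constructor
  · rintro ⟨-, x, hx, hxb⟩
    rcases x with j | h
    · exact absurd hxb (by simp [emb])
    · exact ⟨h, hx, Sum.inr_injective hxb⟩
  · rintro ⟨h, hh, rfl⟩
    exact ⟨mem_univ _, Sum.inr h, hh, rfl⟩

theorem sees_spt (α : Fin e ↪o Fin q) (x : PC (nhi ν) (cor ν α)) : Sees α (spt ν α x) := by
  intro b hb
  obtain ⟨h, _, rfl⟩ := (mem_rt_map α x.1.1 b).1 hb
  exact ⟨h, rfl⟩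

theorem spt_injective (α : Fin e ↪o Fin q) : Function.Injective (spt ν α) := by
  rintro ⟨⟨S, t⟩, ht⟩ ⟨⟨S', t'⟩, ht'⟩ h
  have h1 : S.map (emb J α) = S'.map (emb J α) := congrArg Sigma.fst h
  have h2 : S = S' := Finset.map_injective _ h1
  subst h2
  have h3 : ((spt ν α ⟨⟨S, t⟩, ht⟩).2 : ℕ) = ((spt ν α ⟨⟨S, t'⟩, ht'⟩).2 : ℕ) := by
    rw [h]
  have h4 : t = t' := Fin.ext h3
  subst h4
  rfl

theorem pos_inl (α : Fin e ↪o Fin q) (Ω : PB ν q → RC cb cz J q → ℂ) (x : PC (nhi ν) (cor ν α))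
    (j : Fin J) (z : Fin (cb j)) :
    pos ν α Ω x ⟨Sum.inl j, z⟩ = Ω (spt ν α x) (Sum.inl ⟨j, z⟩) := rfl

theorem pos_inr (α : Fin e ↪o Fin q) (Ω : PB ν q → RC cb cz J q → ℂ) (x : PC (nhi ν) (cor ν α))
    (h : Fin e) (z : Fin cz) :
    pos ν α Ω x ⟨Sum.inr h, z⟩ = Ω (spt ν α x) (Sum.inr (α h, z)) := rfl

/-- The positions seen by `α` as a linear map of the parameters. -/
noncomputable def visL (δ : Dpn ν q) (α : Fin e ↪o Fin q) : (PB ν q → RC cb cz J q → ℂ) →ₗ[ℂ]
    (PC (nhi ν) (cor ν α) → (Σ i : Fin J ⊕ Fin e, Fin (cd cb cz i)) → ℂ) where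
  toFun p := pos ν α (vis δ p)
  map_add' p p' := by
    funext x y
    obtain ⟨i, z⟩ := y
    rcases i with j | h
    · show pos ν α (vis δ (p + p')) x ⟨Sum.inl j, z⟩ = pos ν α (vis δ p) x ⟨Sum.inl j, z⟩ +
        pos ν α (vis δ p') x ⟨Sum.inl j, z⟩
      simp only [pos_inl, vis]
      split_ifs with hc
      · simp only [Pi.add_apply, sum_add_distrib, neg_add]
      · rfl
    · rfl
  map_smul' a p := by
    funext x y
    obtain ⟨i, z⟩ := y
    rcases i with j | h
    · show pos ν α (vis δ (a • p)) x ⟨Sum.inl j, z⟩ = a * pos ν α (vis δ p) x ⟨Sum.inl j, z⟩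
      simp only [pos_inl, vis]
      split_ifs with hc
      · simp only [Pi.smul_apply, smul_eq_mul, ← mul_sum, mul_neg]
      · rfl
    · rfl

open Classical in
theorem visL_surjective (δ : Dpn ν q) (hδ : δ.Ok) (α : Fin e ↪o Fin q) (hα : α ∉ bad e δ) :
    Function.Surjective (visL (cb := cb) (cz := cz) δ α) := by
  intro y
  -- the points of the clusters which are corrected
  have hv₀ : ∀ u : PB ν q, ∃ v : PB ν q, u ∈ δ.D → v ∈ δ.R u := by
    intro u
    by_cases hu : u ∈ δ.D
    · obtain ⟨v, hv⟩ := hδ.ne u hu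
      exact ⟨v, fun _ => hv⟩
    · exact ⟨u, fun h => absurd h hu⟩
  choose v₀ hv₀ using hv₀
  -- not seen
  have hns : ∀ x : PC (nhi ν) (cor ν α), spt ν α x ∈ δ.D → ∀ v ∈ δ.R (spt ν α x),
      ¬ ∃ x', spt ν α x' = v := by
    intro x hx v hv hcon
    obtain ⟨x', rfl⟩ := hcon
    apply hα
    unfold bad
    rw [mem_filter]
    exact ⟨mem_univ _, _, hx, sees_spt α x, _, hv, sees_spt α x'⟩
  let p : PB ν q → RC cb cz J q → ℂ := fun u c =>
    if hu : ∃ x, spt ν α x = u then
      match c with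
      | Sum.inl z => y hu.choose ⟨Sum.inl z.1, z.2⟩
      | Sum.inr z => if hz : ∃ h, α h = z.1 then y hu.choose ⟨Sum.inr hz.choose, z.2⟩ else 0
    else
      match c with
      | Sum.inl z => -∑ x : PC (nhi ν) (cor ν α),
          if spt ν α x ∈ δ.D ∧ v₀ (spt ν α x) = u ∧ z.1 = δ.slot (spt ν α x) then
            y x ⟨Sum.inl z.1, z.2⟩ else 0
      | Sum.inr _ => 0
  have hch : ∀ (x : PC (nhi ν) (cor ν α)) (hu : ∃ x', spt ν α x' = spt ν α x), hu.choose = x :=
    fun x hu => spt_injective α hu.choose_spec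
  have hp1 : ∀ (x : PC (nhi ν) (cor ν α)) (z : Σ j : Fin J, Fin (cb j)),
      p (spt ν α x) (Sum.inl z) = y x ⟨Sum.inl z.1, z.2⟩ := by
    intro x z
    have hu : ∃ x', spt ν α x' = spt ν α x := ⟨x, rfl⟩
    simp only [p]
    rw [dif_pos hu, hch x hu]
  have hp2 : ∀ (x : PC (nhi ν) (cor ν α)) (h : Fin e) (z : Fin cz),
      p (spt ν α x) (Sum.inr (α h, z)) = y x ⟨Sum.inr h, z⟩ := by
    intro x h z
    have hu : ∃ x', spt ν α x' = spt ν α x := ⟨x, rfl⟩
    have hz : ∃ h', α h' = α h := ⟨h, rfl⟩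
    have hz' : hz.choose = h := α.injective hz.choose_spec
    simp only [p]
    rw [dif_pos hu, dif_pos hz, hch x hu, hz']
  refine ⟨p, ?_⟩
  funext x c
  obtain ⟨i, z⟩ := c
  rcases i with j | h
  · show vis δ p (spt ν α x) (Sum.inl ⟨j, z⟩) = y x ⟨Sum.inl j, z⟩
    unfold vis
    by_cases hc : spt ν α x ∈ δ.D ∧ j = δ.slot (spt ν α x)
    · simp only [if_pos hc]
      have h1 : ∀ v ∈ δ.R (spt ν α x), p v (Sum.inl ⟨j, z⟩) =
          if v = v₀ (spt ν α x) then -y x ⟨Sum.inl j, z⟩ else 0 := by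
        intro v hv
        have hnv := hns x hc.1 v hv
        simp only [p]
        rw [dif_neg hnv]
        by_cases hvv : v = v₀ (spt ν α x)
        · rw [if_pos hvv, sum_eq_single x]
          · rw [if_pos ⟨hc.1, hvv.symm, hc.2⟩]
          · intro x' _ hx'
            rw [if_neg]
            rintro ⟨h3, h4, -⟩
            apply hx'
            by_contra hne
            have h5 : spt ν α x' ≠ spt ν α x := fun h6 => hne (spt_injective α h6)
            have h6 := hδ.pw _ h3 _ hc.1 h5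
            rw [Finset.disjoint_left] at h6
            exact h6 (hv₀ _ h3) (by rw [h4]; exact hv)
          · intro hx'
            exact absurd (mem_univ _) hx'
        · rw [if_neg hvv, sum_eq_zero, neg_zero]
          intro x' _
          rw [if_neg]
          rintro ⟨h3, h4, -⟩
          by_cases h5 : spt ν α x' = spt ν α x
          · rw [h5] at h4
            exact hvv h4.symm
          · have h6 := hδ.pw _ h3 _ hc.1 h5
            rw [Finset.disjoint_left] at h6
            exact h6 (hv₀ _ h3) (by rw [h4]; exact hv)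
      rw [sum_congr rfl h1, sum_ite_eq', if_pos (hv₀ _ hc.1), neg_neg]
    · simp only [if_neg hc]
      exact hp1 x ⟨j, z⟩
  · clear_value p
    show vis δ p (spt ν α x) (Sum.inr (α h, z)) = y x ⟨Sum.inr h, z⟩
    exact hp2 x h z

theorem vis_gn (δ : Dpn ν q) (hδ : δ.Ok) (α : Fin e ↪o Fin q) (hα : α ∉ bad e δ)
    (Q : (PC (nhi ν) (cor ν α) → (Σ i : Fin J ⊕ Fin e, Fin (cd cb cz i)) → ℂ) → Prop)
    (hQ : Gn (PC (nhi ν) (cor ν α)) (Σ i : Fin J ⊕ Fin e, Fin (cd cb cz i)) Q) :
    Gn (PB ν q) (RC cb cz J q) fun p => Q (pos ν α (vis δ p)) :=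
  gn_comp (visL δ α) (visL_surjective δ hδ α hα) hQ

theorem vis_cont (δ : Dpn ν q) :
    Continuous (vis δ : (PB ν q → RC cb cz J q → ℂ) → PB ν q → RC cb cz J q → ℂ) := by
  classical
  refine continuous_pi fun u => continuous_pi fun c => ?_
  have hco : ∀ (v : PB ν q) (c : RC cb cz J q),
      Continuous fun p : PB ν q → RC cb cz J q → ℂ => p v c := fun v c =>
    (continuous_apply c).comp (continuous_apply v)
  rcases c with z | z
  · by_cases hc : u ∈ δ.D ∧ z.1 = δ.slot u
    · have h1 : (fun p : PB ν q → RC cb cz J q → ℂ => vis δ p u (Sum.inl z)) =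
          fun p => -∑ v ∈ δ.R u, p v (Sum.inl z) := by
        funext p
        unfold vis
        simp only [if_pos hc]
      rw [h1]
      exact (continuous_finsetSum _ fun v _ => hco v _).neg
    · have h1 : (fun p : PB ν q → RC cb cz J q → ℂ => vis δ p u (Sum.inl z)) =
          fun p => p u (Sum.inl z) := by
        funext p
        unfold vis
        simp only [if_neg hc]
      rw [h1]
      exact hco u _
  · exact hco u _

/-- The rainbow `α`s with the labels `j < s`. -/
abbrev gb {e s q₀ : ℕ} (j : Fin s) (f : Fin e → Fin q₀) : Fin e ↪o Fin (e * (2 * s) * q₀) :=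
  Pool.Agent.V7.BE.blk (Fin.castLE (by omega) j : Fin (2 * s)) f

theorem gb_not_bad {s q₀ : ℕ} (δ : Dpn ν (e * (2 * s) * q₀))
    (h : ∀ u ∈ δ.D, ∀ (j : Fin s) (f : Fin e → Fin q₀), ¬ Sees (gb j f) u)
    (j : Fin s) (f : Fin e → Fin q₀) : gb j f ∉ bad e δ := by
  classical
  intro hmem
  unfold bad at hmem
  obtain ⟨-, u, hu, hs, -⟩ := mem_filter.1 hmem
  exact h u hu j f hs

/-- The slots of a set of blocks. -/
def lbS {s q₀ : ℕ} (S : Finset (Fin J ⊕ Fin (e * (2 * s) * q₀))) : Finset (Fin J ⊕ Fin e) :=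
  S.image (Sum.map id Pool.Agent.V7.BE.hlab)

theorem lbS_map {s q₀ : ℕ} (j : Fin s) (f : Fin e → Fin q₀) (S : Finset (Fin J ⊕ Fin e)) :
    lbS (S.map (emb J (gb j f))) = S := by
  unfold lbS
  rw [Finset.map_eq_image, Finset.image_image]
  have h1 : (Sum.map id Pool.Agent.V7.BE.hlab ∘ ⇑(emb J (gb (e := e) j f)) :
      Fin J ⊕ Fin e → Fin J ⊕ Fin e) = id := by
    funext x
    rcases x with i | h
    · rfl
    · show Sum.inr (Pool.Agent.V7.BE.hlab (gb j f h)) = Sum.inr h
      rw [Pool.Agent.V7.BE.hlab_blk]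
  rw [h1, Finset.image_id]

theorem vis_tmpl {s q₀ : ℕ} (δ : Dpn ν (e * (2 * s) * q₀))
    (h : ∀ u ∈ δ.D, ∀ (j : Fin s) (f : Fin e → Fin q₀), ¬ Sees (gb j f) u)
    (ω : Fin s → (Σ S : Finset (Fin J ⊕ Fin e), Fin (nhi ν S)) →
      (Σ i : Fin J ⊕ Fin e, Fin (cd cb cz i)) → ℂ) :
    ∃ p : PB ν (e * (2 * s) * q₀) → RC cb cz J (e * (2 * s) * q₀) → ℂ,
      ∀ (j : Fin s) (f : Fin e → Fin q₀), pos ν (gb j f) (vis δ p) = fun x => ω j x.1 := by
  classical
  rcases Nat.eq_zero_or_pos s with hs | hs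
  · subst hs
    exact ⟨0, fun j => j.elim0⟩
  have hs2 : 0 < 2 * s := by omega
  -- the label of a set of blocks
  let lb : Finset (Fin J ⊕ Fin (e * (2 * s) * q₀)) → ℕ := fun S =>
    if hS : (rt S).Nonempty then (Pool.Agent.V7.BE.slab (M := e) (q₀ := q₀) hs2
      ((rt S).min' hS) : ℕ) else 0
  have hlb : ∀ (j : Fin s) (f : Fin e → Fin q₀) (S : Finset (Fin J ⊕ Fin e)),
      (rt (S.map (emb J (gb j f)))).Nonempty → lb (S.map (emb J (gb j f))) = j := by
    intro j f S hS
    simp only [lb]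
    rw [dif_pos hS]
    obtain ⟨g, _, hg⟩ := (mem_rt_map (gb j f) S _).1 ((rt (S.map (emb J (gb j f)))).min'_mem hS)
    rw [← hg, Pool.Agent.V7.BE.slab_blk]
    rfl
  let p : PB ν (e * (2 * s) * q₀) → RC cb cz J (e * (2 * s) * q₀) → ℂ := fun u c =>
    if hu : lb u.1 < s ∧ u.2.1 < nhi ν (lbS (e := e) u.1) then
      match c with
      | Sum.inl z => ω ⟨lb u.1, hu.1⟩ ⟨lbS u.1, ⟨u.2.1, hu.2⟩⟩ ⟨Sum.inl z.1, z.2⟩
      | Sum.inr z => ω ⟨lb u.1, hu.1⟩ ⟨lbS u.1, ⟨u.2.1, hu.2⟩⟩
          ⟨Sum.inr (Pool.Agent.V7.BE.hlab z.1), z.2⟩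
    else 0
  refine ⟨p, fun j f => ?_⟩
  funext x
  have hrt : (rt (x.1.1.map (emb J (gb j f)))).Nonempty := by
    by_contra hcon
    have h1 : x.1.2.1 < nb ν (x.1.1.map (emb J (gb j f))) := x.2
    unfold nb at h1
    rw [dif_neg hcon] at h1
    exact Nat.not_lt_zero _ h1
  have hl := hlb j f x.1.1 hrt
  have hS : lbS (e := e) (x.1.1.map (emb J (gb j f))) = x.1.1 := lbS_map j f x.1.1
  have hnD : spt ν (gb j f) x ∉ δ.D := fun hD => h _ hD j f (sees_spt _ x)
  -- the value of the parameters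
  have hω : ∀ (a : ℕ) (ha : a < s) (S' : Finset (Fin J ⊕ Fin e)) (hS' : x.1.2.1 < nhi ν S'),
      a = j → S' = x.1.1 → ω ⟨a, ha⟩ ⟨S', ⟨x.1.2.1, hS'⟩⟩ = ω j x.1 := by
    intro a ha S' hS' h1 h2
    subst h2
    have h3 : (⟨a, ha⟩ : Fin s) = j := Fin.ext h1
    rw [h3]
  have hu : lb (spt ν (gb j f) x).1 < s ∧
      (spt ν (gb j f) x).2.1 < nhi ν (lbS (e := e) (spt ν (gb j f) x).1) := by
    refine ⟨?_, ?_⟩
    · show lb (x.1.1.map (emb J (gb j f))) < s
      rw [hl]
      exact j.2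
    · show x.1.2.1 < nhi ν (lbS (e := e) (x.1.1.map (emb J (gb j f))))
      rw [hS]
      exact x.1.2.2
  have hω' := hω (lb (spt ν (gb j f) x).1) hu.1 (lbS (e := e) (spt ν (gb j f) x).1) hu.2 hl hS
  funext c
  obtain ⟨i, z⟩ := c
  rcases i with i | g
  · rw [pos_inl]
    unfold vis
    simp only [if_neg fun hc : spt ν (gb j f) x ∈ δ.D ∧ i = δ.slot (spt ν (gb j f) x) =>
      hnD hc.1]
    simp only [p]
    rw [dif_pos hu]
    exact congrFun hω' ⟨Sum.inl i, z⟩
  · rw [pos_inr]
    unfold vis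
    simp only [p]
    rw [dif_pos hu]
    have h1 : Pool.Agent.V7.BE.hlab (gb j f g) = g := Pool.Agent.V7.BE.hlab_blk _ _ _
    show ω _ _ ⟨Sum.inr (Pool.Agent.V7.BE.hlab (gb j f g)), z⟩ = _
    rw [h1]
    exact congrFun hω' ⟨Sum.inr g, z⟩

theorem bad_card (δ : Dpn ν q) (h : ∀ u ∈ δ.D, ∀ v ∈ δ.R u, (rt u.1).card + 1 = e ∧
      (rt v.1).card + 1 = e ∧ rt u.1 ≠ rt v.1) :
    (bad e δ).card ≤ ∑ u ∈ δ.D, (δ.R u).card := by
  classical
  rw [← card_sigma]
  refine Finset.card_le_card_of_forall_subsingleton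
    (fun (α : Fin e ↪o Fin q) (x : Σ _ : PB ν q, PB ν q) => Sees α x.1 ∧ Sees α x.2) ?_ ?_
  · intro α hα
    unfold bad at hα
    obtain ⟨-, u, hu, hs, v, hv, hs'⟩ := mem_filter.1 hα
    exact ⟨⟨u, v⟩, mem_sigma.2 ⟨hu, hv⟩, hs, hs'⟩
  · rintro ⟨u, v⟩ huv α hα β hβ
    obtain ⟨hu, hv⟩ := mem_sigma.1 huv
    obtain ⟨h1, h2, h3⟩ := h u hu v hv
    have key : ∀ γ : Fin e ↪o Fin q, Sees γ u → Sees γ v →
        univ.map γ.toEmbedding = rt u.1 ∪ rt v.1 := by
      intro γ hγu hγv
      have h4 : rt u.1 ∪ rt v.1 ⊆ univ.map γ.toEmbedding := by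
        intro b hb
        rcases mem_union.1 hb with hb | hb
        · obtain ⟨g, rfl⟩ := hγu b hb
          exact mem_map.2 ⟨g, mem_univ _, rfl⟩
        · obtain ⟨g, rfl⟩ := hγv b hb
          exact mem_map.2 ⟨g, mem_univ _, rfl⟩
      symm
      refine Finset.eq_of_subset_of_card_le h4 ?_
      rw [card_map, card_univ, Fintype.card_fin]
      -- the union is larger than `rt u`
      have h5 : rt u.1 ⊂ rt u.1 ∪ rt v.1 := by
        refine Finset.ssubset_iff_subset_ne.2 ⟨subset_union_left, fun h6 => ?_⟩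
        have h7 : rt v.1 ⊆ rt u.1 := by
          rw [h6]
          exact subset_union_right
        exact h3 (Finset.eq_of_subset_of_card_le h7 (by omega)).symm
      have h6 := Finset.card_lt_card h5
      omega
    have h4 := key α hα.2.1 hα.2.2
    have h5 := key β hβ.2.1 hβ.2.2
    have h6 : (univ.map α.toEmbedding : Finset (Fin q)) = univ.map β.toEmbedding := h4.trans h5.symm
    have h7 : Set.range α = Set.range β := by
      have h8 := congrArg (fun s : Finset (Fin q) => (s : Set (Fin q))) h6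
      simpa using h8
    exact OrderEmbedding.range_inj.1 h7

end Pool.Agent.GD.BE

end

section

/-!
# General d, block BETA, module Two: two classes of sets of blocks

The blocks `0, …, q - 1`, `q = e * (2 * s) * q₀`, have the labels `slab` `< 2 * s` (`s * q₀` blocks with labels
`< s`, `s * q₀` blocks with labels `≥ s`, and so on).  The class of a nonempty set `B` is given by the label of
its least element.  A set of the class `false` (label `≥ s`) is not contained in a rainbow `α` with a label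
`< s`.  Both classes contain a fixed part of the sets with `a < e` elements.

PROOF of `two_cnt`: let `t = s * q₀`, `q = 2 * e * t`.  The number of `B` with least element `y` is
`f y = choose (q - 1 - y) (a - 1)`, nonincreasing in `y`; the label of `y` is `< s` iff `y / t` is even.  So the
number `N₁` for the odd `y / t` satisfies `N₀ ≥ N₁` and `2 * N₁ ≥ N₁ + (even, y ≥ 2 t) ≥ ∑ y ≥ t, f y = choose (q - t) a
≥ (1 - a t / (q - a)) * choose q a ≥ choose q a / 4` for large `q₀`.
-/

set_option autoImplicit false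

namespace Pool.Agent.GD.BE

open Finset

variable {J : ℕ} {ν : Nos J}

open Classical in
/-- The class of a set of blocks. -/
noncomputable def cls {e s q₀ : ℕ} (hs : 0 < 2 * s) (B : Finset (Fin (e * (2 * s) * q₀))) : Bool :=
  if h : B.Nonempty then
    decide ((Pool.Agent.V7.BE.slab (M := e) (q₀ := q₀) hs (B.min' h)).1 < s)
  else true

theorem cls_not_sees {e s q₀ : ℕ} (hs : 0 < 2 * s) (u : PB ν (e * (2 * s) * q₀))
    (hu : cls hs (rt u.1) = false) (j : Fin s) (f : Fin e → Fin q₀) : ¬ Sees (gb j f) u := by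
  intro h
  unfold cls at hu
  by_cases hne : (rt u.1).Nonempty
  · rw [dif_pos hne] at hu
    obtain ⟨x, hx⟩ := h _ ((rt u.1).min'_mem hne)
    rw [← hx, Pool.Agent.V7.BE.slab_blk] at hu
    exact of_decide_eq_false hu j.2
  · rw [dif_neg hne] at hu
    exact absurd hu (by decide)

section aux

variable {q : ℕ}

/-- The least element. -/
private def mn (B : Finset (Fin q)) : ℕ := if h : B.Nonempty then (B.min' h).1 else 0

private theorem mn_eq {B : Finset (Fin q)} {y : Fin q} (hy : y ∈ B) (h : ∀ z ∈ B, y ≤ z) :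
    mn B = y.1 := by
  have hne : B.Nonempty := ⟨y, hy⟩
  unfold mn
  rw [dif_pos hne]
  have h1 : B.min' hne = y := le_antisymm (B.min'_le y hy) (h _ (B.min'_mem hne))
  rw [h1]

private theorem exists_mn {B : Finset (Fin q)} (h : B.Nonempty) :
    ∃ y ∈ B, y.1 = mn B ∧ ∀ z ∈ B, y ≤ z := by
  refine ⟨B.min' h, B.min'_mem h, ?_, fun z hz => B.min'_le z hz⟩
  unfold mn
  rw [dif_pos h]

/-- The least element is moved down by `t`. -/
private def sh (t : ℕ) (B : Finset (Fin q)) : Finset (Fin q) :=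
  if h : B.Nonempty then
    insert ⟨(B.min' h).1 - t, by have := (B.min' h).2; omega⟩ (B.erase (B.min' h))
  else B

private theorem sh_spec {t : ℕ} (ht : 0 < t) {B : Finset (Fin q)} (hB : B.Nonempty)
    (hm : t ≤ mn B) : ∃ y y₀ : Fin q, y ∈ B ∧ y.1 = mn B ∧ y₀.1 = mn B - t ∧ y₀ ∉ B ∧
      sh t B = insert y₀ (B.erase y) ∧ (sh t B).card = B.card ∧ mn (sh t B) = mn B - t := by
  have h1 : (B.min' hB).1 = mn B := by
    unfold mn
    rw [dif_pos hB]
  have h2 : ∀ z ∈ B, B.min' hB ≤ z := fun z hz => B.min'_le z hz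
  set y := B.min' hB with hy
  have hyB : y ∈ B := B.min'_mem hB
  have hlt : y.1 - t < q := by have := y.2; omega
  have h3 : (⟨y.1 - t, hlt⟩ : Fin q) ∉ B := by
    intro h
    have h4 : y.1 ≤ y.1 - t := h2 _ h
    omega
  have h4 : sh t B = insert (⟨y.1 - t, hlt⟩ : Fin q) (B.erase y) := by
    unfold sh
    rw [dif_pos hB]
  have h5 : (⟨y.1 - t, hlt⟩ : Fin q) ∉ B.erase y := fun h => h3 (mem_of_mem_erase h)
  refine ⟨y, ⟨y.1 - t, hlt⟩, hyB, h1, by rw [← h1], h3, h4, ?_, ?_⟩
  · rw [h4, card_insert_of_notMem h5, card_erase_of_mem hyB]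
    have := card_pos.2 hB
    omega
  · rw [h4, mn_eq (mem_insert_self _ _), ← h1]
    intro z hz
    rcases mem_insert.1 hz with rfl | hz
    · exact le_refl _
    · have h6 : y.1 ≤ z.1 := h2 z (mem_of_mem_erase hz)
      exact Fin.le_def.2 (by change y.1 - t ≤ z.1; omega)

private theorem cnt_le {t a : ℕ} (ht : 0 < t) (ha : 1 ≤ a) (p p' : ℕ → Prop) [DecidablePred p]
    [DecidablePred p'] (h : ∀ m, p m → t ≤ m ∧ p' (m - t)) :
    ((univ : Finset (Finset (Fin q))).filter fun B => B.card = a ∧ p (mn B)).card ≤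
      ((univ : Finset (Finset (Fin q))).filter fun B => B.card = a ∧ p' (mn B)).card := by
  have hne : ∀ B : Finset (Fin q), B.card = a → B.Nonempty := fun B hB => card_pos.1 (by omega)
  refine card_le_card_of_injOn (sh t) ?_ ?_
  · intro B hB
    rw [mem_coe, mem_filter] at hB ⊢
    obtain ⟨h1, h2⟩ := h _ hB.2.2
    obtain ⟨y, y₀, -, -, -, -, -, h3, h4⟩ := sh_spec ht (hne B hB.2.1) h1
    rw [h3, h4]
    exact ⟨mem_univ _, hB.2.1, h2⟩
  · intro B hB B' hB' hs
    rw [mem_coe, mem_filter] at hB hB'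
    have h1 := (h _ hB.2.2).1
    have h1' := (h _ hB'.2.2).1
    obtain ⟨y, y₀, h2, h3, h4, h5, h6, h7, h8⟩ := sh_spec ht (hne B hB.2.1) h1
    obtain ⟨y', y₀', h2', h3', h4', h5', h6', h7', h8'⟩ := sh_spec ht (hne B' hB'.2.1) h1'
    have h9 : mn B = mn B' := by
      have h10 : mn B - t = mn B' - t := by rw [← h8, ← h8', hs]
      omega
    have h10 : y = y' := Fin.ext (by rw [h3, h3', h9])
    have h11 : y₀ = y₀' := Fin.ext (by rw [h4, h4', h9])
    subst h10
    subst h11
    have h12 : insert y₀ (B.erase y) = insert y₀ (B'.erase y) := by rw [← h6, ← h6', hs]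
    have h13 : B.erase y = B'.erase y := by
      have h14 := congrArg (fun S => S.erase y₀) h12
      simp only [erase_insert (fun h => h5 (mem_of_mem_erase h) : y₀ ∉ B.erase y),
        erase_insert (fun h => h5' (mem_of_mem_erase h) : y₀ ∉ B'.erase y)] at h14
      exact h14
    rw [← insert_erase h2, ← insert_erase h2', h13]

private theorem sub_div {t m : ℕ} (ht : 0 < t) (h : t ≤ m) : (m - t) / t + 1 = m / t := by
  obtain ⟨m', rfl⟩ := Nat.exists_eq_add_of_le h
  rw [Nat.add_sub_cancel_left, Nat.add_div_left _ ht]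

private theorem le_of_odd {t m : ℕ} (h : 1 ≤ m / t) : t ≤ m := by
  by_contra hc
  rw [Nat.div_eq_of_lt (by omega)] at h
  omega

private theorem odd_le {t a : ℕ} (ht : 0 < t) (ha : 1 ≤ a) :
    ((univ : Finset (Finset (Fin q))).filter fun B => B.card = a ∧ (mn B / t) % 2 = 1).card ≤
      ((univ : Finset (Finset (Fin q))).filter fun B => B.card = a ∧ (mn B / t) % 2 = 0).card :=
  cnt_le ht ha (fun m => (m / t) % 2 = 1) (fun m => (m / t) % 2 = 0) fun m hm => by
    change (m / t) % 2 = 1 at hm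
    have h0 : 1 ≤ m / t := by
      rcases Nat.eq_zero_or_pos (m / t) with h | h
      · rw [h] at hm
        omega
      · exact h
    have h1 : t ≤ m := le_of_odd h0
    have h2 := sub_div ht h1
    exact ⟨h1, by omega⟩

private theorem all_le {t a : ℕ} (ht : 0 < t) (ha : 1 ≤ a) (htq : t < q) :
    (q - t).choose a ≤
      2 * ((univ : Finset (Finset (Fin q))).filter fun B => B.card = a ∧ (mn B / t) % 2 = 1).card := by
  classical
  have h1 : ((univ : Finset (Finset (Fin q))).filter fun B => B.card = a ∧ (t ≤ mn B ∧ (mn B / t) % 2 = 0)).card ≤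
      ((univ : Finset (Finset (Fin q))).filter fun B => B.card = a ∧ (mn B / t) % 2 = 1).card :=
    cnt_le ht ha (fun m => t ≤ m ∧ (m / t) % 2 = 0) (fun m => (m / t) % 2 = 1) fun m hm => by
      change t ≤ m ∧ (m / t) % 2 = 0 at hm
      have h2 := sub_div ht hm.1
      exact ⟨hm.1, by omega⟩
  have h2 : powersetCard a (Ici (⟨t, htq⟩ : Fin q)) ⊆
      ((univ : Finset (Finset (Fin q))).filter fun B => B.card = a ∧ (t ≤ mn B ∧ (mn B / t) % 2 = 0)) ∪
        ((univ : Finset (Finset (Fin q))).filter fun B => B.card = a ∧ (mn B / t) % 2 = 1) := by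
    intro B hB
    rw [mem_powersetCard] at hB
    obtain ⟨y, hy, hy1, -⟩ := exists_mn (card_pos.1 (by omega : 0 < B.card))
    have h3 : t ≤ mn B := by
      rw [← hy1]
      exact Fin.le_def.1 (mem_Ici.1 (hB.1 hy))
    rw [mem_union, mem_filter, mem_filter]
    rcases Nat.mod_two_eq_zero_or_one (mn B / t) with h4 | h4
    · exact Or.inl ⟨mem_univ _, hB.2, h3, h4⟩
    · exact Or.inr ⟨mem_univ _, hB.2, h4⟩
  have h3 := (card_le_card h2).trans (card_union_le _ _)
  rw [card_powersetCard, Fin.card_Ici] at h3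
  change (q - t).choose a ≤ _ at h3
  omega

private theorem slab_iff {s q₀ y : ℕ} (hs : 0 < s) : (y / q₀) % (2 * s) < s ↔ (y / (s * q₀)) % 2 = 0 := by
  have h1 : y / (s * q₀) = y / q₀ / s := by rw [Nat.div_div_eq_div_mul, mul_comm]
  have h2 : y / q₀ / s % 2 = y / q₀ % (s * 2) / s := (Nat.mod_mul_right_div_self (y / q₀) s 2).symm
  rw [h1, h2, mul_comm 2 s, Nat.div_eq_zero_iff]
  constructor
  · exact fun h => Or.inr h
  · rintro (h | h)
    · omega
    · exact h

private theorem cls_eq {e s q₀ : ℕ} (hs : 0 < 2 * s) (B : Finset (Fin (e * (2 * s) * q₀))) :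
    cls hs B = decide ((mn B / (s * q₀)) % 2 = 0) := by
  unfold cls mn
  by_cases hne : B.Nonempty
  · rw [dif_pos hne, dif_pos hne]
    refine decide_eq_decide.2 ?_
    exact slab_iff (by omega)
  · rw [dif_neg hne, dif_neg hne, Nat.zero_div]
    rfl

private theorem num {e a t : ℕ} (ha : 1 ≤ a) (hae : a < e) (ht : 2 * a ≤ t) {N : ℕ} (hN : (2 * e * t - t).choose a ≤ 2 * N) :
    ((2 * e * t : ℕ) : ℝ) ^ a / (16 * a.factorial) ≤ N := by
  have h1 := Nat.pow_sub_le_descFactorial (2 * e * t - t) a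
  rw [Nat.descFactorial_eq_factorial_mul_choose] at h1
  have he : (2 : ℝ) ≤ e := by exact_mod_cast (by omega : 2 ≤ e)
  have haR : (a : ℝ) + 1 ≤ e := by exact_mod_cast hae
  have ha1 : (1 : ℝ) ≤ a := by exact_mod_cast ha
  have htR : 2 * (a : ℝ) ≤ t := by exact_mod_cast ht
  have h2 : t + t ≤ 2 * e * t := by nlinarith
  have h3 : ((2 * e * t - t + 1 - a : ℕ) : ℝ) = 2 * e * t - t + 1 - a := by
    rw [Nat.cast_sub (by omega), Nat.cast_add, Nat.cast_sub (by omega)]
    push_cast
    ring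
  have hf : (0 : ℝ) < a.factorial := by exact_mod_cast a.factorial_pos
  have h4 : ((2 * e * t - t + 1 - a : ℕ) : ℝ) ^ a ≤ a.factorial * (2 * N) := by
    have h5 : ((2 * e * t - t + 1 - a : ℕ) : ℝ) ^ a ≤ ((a.factorial * (2 * e * t - t).choose a : ℕ) : ℝ) := by exact_mod_cast h1
    refine h5.trans ?_
    rw [Nat.cast_mul]
    exact mul_le_mul_of_nonneg_left (by exact_mod_cast hN) hf.le
  have h5 : (2 * e * t : ℝ) * (1 + -(3 / (4 * e))) ≤ ((2 * e * t - t + 1 - a : ℕ) : ℝ) := by
    rw [h3]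
    have h6 : (2 * e * t : ℝ) * (1 + -(3 / (4 * e))) = 2 * e * t - 3 / 2 * t := by
      field_simp
      ring
    rw [h6]
    linarith
  have h6 : (1 : ℝ) / 4 ≤ (1 + -(3 / (4 * e))) ^ a := by
    have h7 : (-2 : ℝ) ≤ -(3 / (4 * e)) := by
      have h8 : 3 / (4 * (e : ℝ)) ≤ 2 := by
        rw [div_le_iff₀ (by linarith)]
        linarith
      linarith
    refine le_trans ?_ (one_add_mul_le_pow h7 a)
    have h8 : (a : ℝ) * (3 / (4 * e)) ≤ 3 / 4 := by
      rw [mul_div_assoc', div_le_div_iff₀ (by linarith) (by norm_num)]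
      linarith
    linarith
  have h0 : (0 : ℝ) ≤ 1 + -(3 / (4 * e)) := by
    have h8 : 3 / (4 * (e : ℝ)) ≤ 1 := by
      rw [div_le_iff₀ (by linarith)]
      linarith
    linarith
  have ht0 : (0 : ℝ) ≤ 2 * e * t := by positivity
  have h7 : (2 * e * t : ℝ) ^ a * (1 / 4) ≤ a.factorial * (2 * N) := by
    refine le_trans ?_ h4
    refine le_trans (mul_le_mul_of_nonneg_left h6 (pow_nonneg ht0 a)) ?_
    rw [← mul_pow]
    exact pow_le_pow_left₀ (mul_nonneg ht0 h0) h5 a
  have hNN : (0 : ℝ) ≤ N := Nat.cast_nonneg N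
  rw [div_le_iff₀ (by positivity)]
  push_cast
  nlinarith [mul_nonneg hf.le hNN]

end aux

theorem two_cnt (e a s : ℕ) (ha : 1 ≤ a) (hae : a < e) (hs : 0 < 2 * s) : ∃ q₁ : ℕ, ∀ q₀, q₁ ≤ q₀ →
    ∀ side : Bool, ((e * (2 * s) * q₀ : ℕ) : ℝ) ^ a / (16 * a.factorial) ≤
      (((univ : Finset (Finset (Fin (e * (2 * s) * q₀)))).filter fun B =>
        B.card = a ∧ cls hs B = side).card : ℝ) := by
  refine ⟨2 * a + 1, fun q₀ hq side => ?_⟩
  have hs' : 0 < s := by omega
  have ht : 2 * a ≤ s * q₀ := by nlinarith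
  have ht0 : 0 < s * q₀ := by nlinarith
  have hq2 : e * (2 * s) * q₀ = 2 * e * (s * q₀) := by ring
  have htq : s * q₀ < e * (2 * s) * q₀ := by rw [hq2]; nlinarith
  have h1 := all_le (q := e * (2 * s) * q₀) ht0 ha htq
  have h2 := odd_le (q := e * (2 * s) * q₀) ht0 ha
  have h1' : ∀ N : ℕ, (e * (2 * s) * q₀ - s * q₀).choose a ≤ 2 * N → (2 * e * (s * q₀) - s * q₀).choose a ≤ 2 * N := by
    intro N hN
    rwa [← hq2]
  have h3 : ∀ N : ℕ, (2 * e * (s * q₀) - s * q₀).choose a ≤ 2 * N →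
      ((e * (2 * s) * q₀ : ℕ) : ℝ) ^ a / (16 * a.factorial) ≤ N := by
    intro N hN
    rw [hq2]
    exact num ha hae ht hN
  cases side with
  | false =>
    have h4 : ((univ : Finset (Finset (Fin (e * (2 * s) * q₀)))).filter fun B => B.card = a ∧ cls hs B = false) =
        univ.filter fun B => B.card = a ∧ (mn B / (s * q₀)) % 2 = 1 := by
      refine filter_congr fun B _ => ?_
      rw [cls_eq, decide_eq_false_iff_not]
      have := Nat.mod_two_eq_zero_or_one (mn B / (s * q₀))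
      constructor <;> rintro ⟨h5, h6⟩ <;> exact ⟨h5, by omega⟩
    rw [h4]
    exact h3 _ (h1' _ h1)
  | true =>
    have h4 : ((univ : Finset (Finset (Fin (e * (2 * s) * q₀)))).filter fun B => B.card = a ∧ cls hs B = true) =
        univ.filter fun B => B.card = a ∧ (mn B / (s * q₀)) % 2 = 0 := by
      refine filter_congr fun B _ => ?_
      rw [cls_eq, decide_eq_true_iff]
    rw [h4]
    exact h3 _ (h1' _ (h1.trans (Nat.mul_le_mul_left 2 h2)))

/-- The numbers of the points. -/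
theorem two_nb (e a s : ℕ) (ha : 1 ≤ a) (hae : a < e) (hs : 0 < 2 * s) (K : Finset (Fin J)) :
    ∃ q₁ : ℕ, ∀ q₀, q₁ ≤ q₀ → ∀ ν : Nos J, ν.lo K a ≤ ν.hi K a → ∀ side : Bool,
      ((e * (2 * s) * q₀ : ℕ) : ℝ) ^ a / (16 * a.factorial) * ν.lo K a ≤
        (((univ : Finset (PB ν (e * (2 * s) * q₀))).filter fun u =>
          lf u.1 = K ∧ (rt u.1).card = a ∧ cls hs (rt u.1) = side).card : ℝ) := by
  classical
  obtain ⟨q₁, hq₁⟩ := two_cnt e a s ha hae hs
  refine ⟨q₁, fun q₀ hq ν hν side => ?_⟩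
  have h1 := hq₁ q₀ hq side
  set F := (univ : Finset (Finset (Fin (e * (2 * s) * q₀)))).filter fun B => B.card = a ∧ cls hs B = side with hF
  set G := (univ : Finset (Finset (Fin J ⊕ Fin (e * (2 * s) * q₀)))).filter fun S => lf S = K ∧ (rt S).card = a ∧ cls hs (rt S) = side with hG
  have h2 : ((univ : Finset (PB ν (e * (2 * s) * q₀))).filter fun u => lf u.1 = K ∧ (rt u.1).card = a ∧ cls hs (rt u.1) = side) =
      G.sigma fun _ => univ := by
    ext u
    rw [mem_filter, mem_sigma, hG, mem_filter]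
    simp only [mem_univ, true_and, and_true]
  have h3 : ∀ S ∈ G, ν.lo K a ≤ nb ν S := by
    intro S hS
    rw [hG, mem_filter] at hS
    obtain ⟨-, h4, h5, -⟩ := hS
    have h6 : (rt S).Nonempty := card_pos.1 (by omega)
    unfold nb
    rw [dif_pos h6, h4, h5]
    split_ifs
    · exact hν
    · exact le_refl _
  have hlf : ∀ B : Finset (Fin (e * (2 * s) * q₀)), lf (K.disjSum B) = K := by
    intro B
    ext x
    unfold lf
    rw [mem_filter, inl_mem_disjSum]
    simp
  have hrt : ∀ B : Finset (Fin (e * (2 * s) * q₀)), rt (K.disjSum B) = B := by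
    intro B
    ext x
    unfold rt
    rw [mem_filter, inr_mem_disjSum]
    simp
  have h4 : F.card ≤ G.card := by
    refine card_le_card_of_injOn (fun B => K.disjSum B) ?_ ?_
    · intro B hB
      rw [mem_coe, hF, mem_filter] at hB
      rw [mem_coe, hG, mem_filter, hlf, hrt]
      exact ⟨mem_univ _, rfl, hB.2⟩
    · intro B _ B' _ h
      have h5 : rt (K.disjSum B) = rt (K.disjSum B') := congrArg rt h
      rwa [hrt, hrt] at h5
  have h5 : F.card * ν.lo K a ≤ ((univ : Finset (PB ν (e * (2 * s) * q₀))).filter fun u => lf u.1 = K ∧ (rt u.1).card = a ∧ cls hs (rt u.1) = side).card := by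
    rw [h2, card_sigma]
    refine (Nat.mul_le_mul_right _ h4).trans ?_
    rw [← smul_eq_mul, ← sum_const]
    refine sum_le_sum fun S hS => ?_
    rw [card_univ, Fintype.card_fin]
    exact h3 S hS
  refine (mul_le_mul_of_nonneg_right h1 (Nat.cast_nonneg _)).trans ?_
  exact_mod_cast h5

end Pool.Agent.GD.BE

end
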