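import Pool.Agent.H94.LP7.M17
import Pool.Agent.H94.LP7.M28

/-! The parts of this file: GD.BE.Numc, GD.BE.Comp, GD.BE.Semi, GD.BE.Exd. -/

section

/-!
# General d, block BETA, module Numc: the numbers of the components

`T` base slots, `I ⊆ T` active ones, `κ` admissible.  `ku T I κ = F (I ∪ Tᶜ) / F I` is the
critical density of the units, `kU T I κ` the densities with the units.  For a slot `i₀ ∈ I` and a kind
`insert i₀ B` (`B ⊆ (I \ i₀) ∪ Tᶜ`, `B ≠ ∅`) the component has the densities `kC T I κ i₀ B`: the kinds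
inside `(I \ i₀) ∪ Tᶜ` and `σ` more points of kind `B`, `σ = sg T I κ i₀ B`.
-/

set_option autoImplicit false

namespace Pool.Agent.GD.BE

open Finset

variable {ι : Type} [Fintype ι] [DecidableEq ι]

/-- `FF` depends only on the densities of the subsets. -/
theorem FF_congr {κ κ' : Finset ι → ℚ} {J : Finset ι} (h : ∀ S ⊆ J, S ≠ ∅ → κ S = κ' S) :
    FF κ J = FF κ' J := by
  unfold FF
  refine Finset.sum_congr rfl fun P hP => Finset.prod_congr rfl fun S hS => ?_
  rw [mem_Dj] at hP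
  rw [h S (hP.1 S hS) fun h0 => hP.2.1 (h0 ▸ hS)]

/-- `FF` after adding points of kind `A`. -/
theorem FF_modK (κ : Finset ι → ℚ) {A : Finset ι} (hA : A ≠ ∅) (σ : ℚ) (J : Finset ι) :
    FF (modK κ A σ) J = FF κ J - if A ⊆ J then σ * FF κ (J \ A) else 0 := by
  rw [(isF_FF (modK κ A σ)).unique ((isF_FF κ).mod hA σ)]
  rfl

omit [Fintype ι] in
private theorem sdiff_erase_erase (J A : Finset ι) (i : ι) (hi : i ∈ A) :
    J.erase i \ A.erase i = J \ A := by
  ext x
  simp only [Finset.mem_sdiff, Finset.mem_erase, not_and]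
  constructor
  · rintro ⟨⟨h1, h2⟩, h3⟩
    exact ⟨h2, h3 h1⟩
  · rintro ⟨h1, h2⟩
    have h3 : x ≠ i := fun h => h2 (h ▸ hi)
    exact ⟨⟨h3, h1⟩, fun _ => h2⟩

omit [Fintype ι] in
/-- The strict monotonicity: `F M / F (M - A) < F J / F (J - A)` for `∅ ≠ A ⊆ J ⊂ M`. -/
private theorem strict_mono {κ : Finset ι → ℚ} (hκ : ∀ S, 0 ≤ κ S) {M J A : Finset ι} {e : ℕ}
    (he : 2 ≤ e) (heM : e ≤ M.card) (hpos : ∀ J ⊆ M, 0 < FF κ J) (hJ : J ⊂ M) (hA : A ⊆ J)
    (hA0 : A ≠ ∅) (hp : ∀ S ⊆ M, S.card = e → ¬ S ⊆ J → 0 < κ S) :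
    FF κ M * FF κ (J \ A) < FF κ J * FF κ (M \ A) := by
  obtain ⟨i, hi⟩ := Finset.nonempty_iff_ne_empty.2 hA0
  obtain ⟨j, hjM, hjJ⟩ := Finset.exists_of_ssubset hJ
  have hF := isF_FF κ
  have hiJ : i ∈ J := hA hi
  have hiM : i ∈ M := hJ.1 hiJ
  have hij : i ≠ j := fun h => hjJ (h ▸ hiJ)
  have hLK : J.erase i ⊆ M.erase i := Finset.erase_subset_erase i hJ.1
  have h1 : FF κ (M.erase i) * FF κ (J \ A) ≤ FF κ (J.erase i) * FF κ (M \ A) := by
    have h := hF.mono hκ hpos (M.erase i).card (M.erase i) (Finset.erase_subset _ _) le_rfl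
      (J.erase i) hLK (A.erase i) (Finset.erase_subset_erase i hA)
    rwa [sdiff_erase_erase _ _ _ hi, sdiff_erase_erase _ _ _ hi] at h
  have pL : 0 < FF κ (J.erase i) := hpos _ ((Finset.erase_subset _ _).trans hJ.1)
  have pK : 0 < FF κ (M.erase i) := hpos _ (Finset.erase_subset _ _)
  have h2 : FF κ M * FF κ (J.erase i) < FF κ J * FF κ (M.erase i) := by
    have sM := hF.step (M.erase i) i (Finset.notMem_erase _ _)
    have sJ := hF.step (J.erase i) i (Finset.notMem_erase _ _)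
    rw [Finset.insert_erase hiM] at sM
    rw [Finset.insert_erase hiJ] at sJ
    obtain ⟨S, hS1, hS2, hS3⟩ := Finset.exists_subsuperset_card_eq (s := {i, j}) (t := M) (n := e)
      (by
        intro x hx
        rcases Finset.mem_insert.1 hx with rfl | hx
        · exact hiM
        · exact (Finset.mem_singleton.1 hx) ▸ hjM)
      (by rw [Finset.card_pair hij]; exact he) heM
    have hiS : i ∈ S := hS1 (Finset.mem_insert_self _ _)
    have hjS : j ∈ S := hS1 (Finset.mem_insert_of_mem (Finset.mem_singleton_self _))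
    have hκS : 0 < κ S := hp S hS2 hS3 fun h => hjJ (h hjS)
    have h3 : (∑ B ∈ (J.erase i).powerset, κ (insert i B) * FF κ (J.erase i \ B)) *
          FF κ (M.erase i) <
        (∑ B ∈ (M.erase i).powerset, κ (insert i B) * FF κ (M.erase i \ B)) *
          FF κ (J.erase i) := by
      rw [Finset.sum_mul, Finset.sum_mul]
      have h4 : ∑ B ∈ (J.erase i).powerset, κ (insert i B) * FF κ (J.erase i \ B) *
            FF κ (M.erase i) ≤
          ∑ B ∈ (J.erase i).powerset, κ (insert i B) * FF κ (M.erase i \ B) *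
            FF κ (J.erase i) := by
        refine Finset.sum_le_sum fun B hB => ?_
        rw [Finset.mem_powerset] at hB
        rw [mul_assoc, mul_assoc]
        refine mul_le_mul_of_nonneg_left ?_ (hκ _)
        have := hF.mono hκ hpos (M.erase i).card (M.erase i) (Finset.erase_subset _ _) le_rfl
          (J.erase i) hLK B hB
        linarith [mul_comm (FF κ (J.erase i \ B)) (FF κ (M.erase i)),
          mul_comm (FF κ (M.erase i \ B)) (FF κ (J.erase i))]
      refine h4.trans_lt (Finset.sum_lt_sum_of_subset (Finset.powerset_mono.2 hLK)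
        (i := S.erase i) ?_ ?_ ?_ ?_)
      · exact Finset.mem_powerset.2 (Finset.erase_subset_erase i hS2)
      · intro h
        have h5 := Finset.mem_powerset.1 h (Finset.mem_erase.2 ⟨hij.symm, hjS⟩)
        exact hjJ (Finset.mem_of_mem_erase h5)
      · rw [Finset.insert_erase hiS]
        exact mul_pos (mul_pos hκS (hpos _ (Finset.sdiff_subset.trans (Finset.erase_subset _ _)))) pL
      · intro B _ _
        exact mul_nonneg (mul_nonneg (hκ _)
          (hpos _ (Finset.sdiff_subset.trans (Finset.erase_subset _ _))).le) pL.le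
    rw [sM, sJ]
    nlinarith [h3]
  have p1 : 0 < FF κ (J \ A) := hpos _ (Finset.sdiff_subset.trans hJ.1)
  have p2 : 0 < FF κ J := hpos _ hJ.1
  have h3 : (FF κ M * FF κ (J.erase i)) * (FF κ (M.erase i) * FF κ (J \ A)) <
      (FF κ J * FF κ (M.erase i)) * (FF κ (J.erase i) * FF κ (M \ A)) :=
    mul_lt_mul h2 h1 (by positivity) (by positivity)
  have h4 : (FF κ (J.erase i) * FF κ (M.erase i)) * (FF κ M * FF κ (J \ A)) <
      (FF κ (J.erase i) * FF κ (M.erase i)) * (FF κ J * FF κ (M \ A)) := by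
    calc (FF κ (J.erase i) * FF κ (M.erase i)) * (FF κ M * FF κ (J \ A))
        = (FF κ M * FF κ (J.erase i)) * (FF κ (M.erase i) * FF κ (J \ A)) := by ring
      _ < (FF κ J * FF κ (M.erase i)) * (FF κ (J.erase i) * FF κ (M \ A)) := h3
      _ = (FF κ (J.erase i) * FF κ (M.erase i)) * (FF κ J * FF κ (M \ A)) := by ring
  exact lt_of_mul_lt_mul_left h4 (by positivity)

private theorem union_sdiff_compl {T I : Finset ι} (hI : I ⊆ T) : (I ∪ Tᶜ) \ Tᶜ = I := by
  ext x
  simp only [Finset.mem_sdiff, Finset.mem_union, Finset.mem_compl, not_not]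
  constructor
  · rintro ⟨h1 | h1, h2⟩
    · exact h1
    · exact absurd h2 h1
  · exact fun h => ⟨Or.inl h, hI h⟩

private theorem compl_ne {T : Finset ι} (hT : 2 ≤ (Tᶜ : Finset ι).card) : Tᶜ ≠ ∅ := by
  intro h
  rw [h, Finset.card_empty] at hT
  omega

private theorem erase_ssub {T I : Finset ι} (hI : I ⊆ T) {i₀ : ι} (hi₀ : i₀ ∈ I) :
    I.erase i₀ ∪ Tᶜ ⊂ I ∪ Tᶜ := by
  refine ⟨Finset.union_subset_union_left (Finset.erase_subset _ _), fun h => ?_⟩
  rcases Finset.mem_union.1 (h (Finset.mem_union_left _ hi₀)) with h1 | h1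
  · exact Finset.notMem_erase _ _ h1
  · exact Finset.mem_compl.1 h1 (hI hi₀)

private theorem insert_M {T I : Finset ι} {i₀ : ι} (hi₀ : i₀ ∈ I) :
    insert i₀ (I.erase i₀ ∪ Tᶜ) = I ∪ Tᶜ := by
  rw [← Finset.insert_union, Finset.insert_erase hi₀]

private theorem notMem_M {T I : Finset ι} (hI : I ⊆ T) {i₀ : ι} (hi₀ : i₀ ∈ I) :
    i₀ ∉ I.erase i₀ ∪ Tᶜ := by
  intro h
  rcases Finset.mem_union.1 h with h1 | h1
  · exact Finset.notMem_erase _ _ h1
  · exact Finset.mem_compl.1 h1 (hI hi₀)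

/-- The critical density of the units. -/
def ku (T I : Finset ι) (κ : Finset ι → ℚ) : ℚ := FF κ (I ∪ Tᶜ) / FF κ I

/-- The densities with the units. -/
def kU (T I : Finset ι) (κ : Finset ι → ℚ) : Finset ι → ℚ := modK κ Tᶜ (ku T I κ)

/-- The number of additional points of kind `B` at a line of type `B`, divided by `∏ c`. -/
def sg (T I : Finset ι) (κ : Finset ι → ℚ) (i₀ : ι) (B : Finset ι) : ℚ :=
  FF (kU T I κ) (I.erase i₀ ∪ Tᶜ) / FF (kU T I κ) ((I.erase i₀ ∪ Tᶜ) \ B)

/-- The densities of the component. -/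
def kC (T I : Finset ι) (κ : Finset ι → ℚ) (i₀ : ι) (B : Finset ι) : Finset ι → ℚ :=
  modK (fun S => if i₀ ∈ S then 0 else κ S) B (sg T I κ i₀ B)

/-- The share of the lines of type `B`. -/
def sh (T I : Finset ι) (κ : Finset ι → ℚ) (i₀ : ι) (B : Finset ι) : ℚ :=
  κ (insert i₀ B) / sg T I κ i₀ B

theorem kU_pos {T I : Finset ι} {κ : Finset ι → ℚ} (hT : 2 ≤ (Tᶜ : Finset ι).card) (hI : I ⊆ T)
    (h : Adm T I κ) {J : Finset ι} (hJ : J ⊂ I ∪ Tᶜ) : 0 < FF (kU T I κ) J := by
  unfold kU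
  rw [FF_modK κ (compl_ne hT)]
  have hc : (Tᶜ : Finset ι).card ≤ (I ∪ Tᶜ).card := Finset.card_le_card Finset.subset_union_right
  split_ifs with h1
  · have h2 := strict_mono h.nonneg hT hc h.F hJ h1 (compl_ne hT) fun S hS hS' hSJ =>
      h.pos S hS hS' fun h3 => hSJ (h3 ▸ h1)
    rw [union_sdiff_compl hI] at h2
    have h3 : 0 < FF κ I := h.F _ Finset.subset_union_left
    unfold ku
    rw [sub_pos, div_mul_eq_mul_div, div_lt_iff₀ h3]
    exact h2
  · rw [sub_zero]
    exact h.F J hJ.1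

theorem kU_zero {T I : Finset ι} {κ : Finset ι → ℚ} (hT : 2 ≤ (Tᶜ : Finset ι).card) (hI : I ⊆ T)
    (h : Adm T I κ) : FF (kU T I κ) (I ∪ Tᶜ) = 0 := by
  unfold kU ku
  rw [FF_modK κ (compl_ne hT), if_pos Finset.subset_union_right, union_sdiff_compl hI,
    div_mul_cancel₀ _ (h.F I Finset.subset_union_left).ne', sub_self]

theorem sg_pos {T I : Finset ι} {κ : Finset ι → ℚ} (hT : 2 ≤ (Tᶜ : Finset ι).card) (hI : I ⊆ T)
    (h : Adm T I κ) {i₀ : ι} (hi₀ : i₀ ∈ I) {B : Finset ι} (hB : B ⊆ I.erase i₀ ∪ Tᶜ) :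
    0 < sg T I κ i₀ B := by
  unfold sg
  exact div_pos (kU_pos hT hI h (erase_ssub hI hi₀))
    (kU_pos hT hI h (Finset.sdiff_subset.trans_ssubset (erase_ssub hI hi₀)))

/-- The shares add up to `1`. -/
theorem sum_sh {T I : Finset ι} {κ : Finset ι → ℚ} (hT : 2 ≤ (Tᶜ : Finset ι).card) (hI : I ⊆ T)
    (h : Adm T I κ) {i₀ : ι} (hi₀ : i₀ ∈ I) :
    ∑ B ∈ (I.erase i₀ ∪ Tᶜ).powerset, sh T I κ i₀ B = 1 := by
  have h1 := (isF_FF (kU T I κ)).step _ i₀ (notMem_M hI hi₀)
  rw [insert_M hi₀, kU_zero hT hI h] at h1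
  have h2 := kU_pos hT hI h (erase_ssub hI hi₀)
  have h3 : ∀ B ∈ (I.erase i₀ ∪ Tᶜ).powerset, kU T I κ (insert i₀ B) *
      FF (kU T I κ) ((I.erase i₀ ∪ Tᶜ) \ B) =
      sh T I κ i₀ B * FF (kU T I κ) (I.erase i₀ ∪ Tᶜ) := by
    intro B _
    have h4 : insert i₀ B ≠ Tᶜ := fun h5 => by
      have h6 : i₀ ∈ Tᶜ := h5 ▸ Finset.mem_insert_self _ _
      exact Finset.mem_compl.1 h6 (hI hi₀)
    have h5 : kU T I κ (insert i₀ B) = κ (insert i₀ B) := by
      unfold kU modK
      rw [if_neg h4, add_zero]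
    have h6 := kU_pos hT hI h
      (Finset.sdiff_subset.trans_ssubset (erase_ssub hI hi₀) : (I.erase i₀ ∪ Tᶜ) \ B ⊂ I ∪ Tᶜ)
    rw [h5]
    unfold sh sg
    field_simp
  rw [Finset.sum_congr rfl h3, ← Finset.sum_mul] at h1
  have h4 : (∑ B ∈ (I.erase i₀ ∪ Tᶜ).powerset, sh T I κ i₀ B) *
      FF (kU T I κ) (I.erase i₀ ∪ Tᶜ) = 1 * FF (kU T I κ) (I.erase i₀ ∪ Tᶜ) := by linarith
  exact mul_right_cancel₀ h2.ne' h4

/-- `FF` of the component. -/
private theorem FF_kC {T I : Finset ι} {κ : Finset ι → ℚ} {i₀ : ι} {B : Finset ι} (hB0 : B ≠ ∅)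
    {J : Finset ι} (hJ : i₀ ∉ J) :
    FF (kC T I κ i₀ B) J = FF κ J - if B ⊆ J then sg T I κ i₀ B * FF κ (J \ B) else 0 := by
  unfold kC
  rw [FF_modK _ hB0]
  have h1 : ∀ L ⊆ J, FF (fun S => if i₀ ∈ S then 0 else κ S) L = FF κ L := by
    intro L hL
    refine FF_congr fun S hS _ => ?_
    rw [if_neg fun h => hJ (hL (hS h))]
  rw [h1 J subset_rfl, h1 _ Finset.sdiff_subset]

private theorem ku_pos {T I : Finset ι} {κ : Finset ι → ℚ} (h : Adm T I κ) : 0 < ku T I κ :=
  div_pos (h.F _ subset_rfl) (h.F _ Finset.subset_union_left)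

/-- `FF κ` and `FF kU`. -/
private theorem FF_eq {T I : Finset ι} {κ : Finset ι → ℚ} (hT : 2 ≤ (Tᶜ : Finset ι).card)
    (J : Finset ι) :
    FF κ J = FF (kU T I κ) J + if Tᶜ ⊆ J then ku T I κ * FF κ (J \ Tᶜ) else 0 := by
  unfold kU
  rw [FF_modK κ (compl_ne hT)]
  ring

/-- The first bracket. -/
private theorem first {T I : Finset ι} {κ : Finset ι → ℚ} (hT : 2 ≤ (Tᶜ : Finset ι).card)
    (hI : I ⊆ T) (h : Adm T I κ) {i₀ : ι} (hi₀ : i₀ ∈ I) {B : Finset ι} (hB0 : B ≠ ∅)
    {J : Finset ι} (hJ : J ⊂ I.erase i₀ ∪ Tᶜ) (hBJ : B ⊆ J) :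
    0 < FF (kU T I κ) J - sg T I κ i₀ B * FF (kU T I κ) (J \ B) := by
  have hc : (Tᶜ : Finset ι).card ≤ (I.erase i₀ ∪ Tᶜ).card :=
    Finset.card_le_card Finset.subset_union_right
  have hM := erase_ssub hI hi₀
  have hk : ∀ S, 0 ≤ kU T I κ S := fun S => by
    unfold kU modK
    have h1 := h.nonneg S
    have h2 := ku_pos h
    split_ifs <;> linarith
  have h1 := strict_mono (κ := kU T I κ) hk hT hc
    (fun J hJ => kU_pos hT hI h (hJ.trans_ssubset hM)) hJ hBJ hB0 fun S hS hS' _ => by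
      unfold kU modK
      by_cases h3 : S = Tᶜ
      · rw [if_pos h3]
        have h4 := h.nonneg S
        have h5 := ku_pos h
        linarith
      · rw [if_neg h3, add_zero]
        exact h.pos S (hS.trans hM.1) hS' h3
  have h2 := kU_pos hT hI h
    (Finset.sdiff_subset.trans_ssubset hM : (I.erase i₀ ∪ Tᶜ) \ B ⊂ I ∪ Tᶜ)
  unfold sg
  rw [sub_pos, div_mul_eq_mul_div, div_lt_iff₀ h2]
  exact h1

/-- The value at the whole set. -/
private theorem FF_kC_top {T I : Finset ι} {κ : Finset ι → ℚ} (hT : 2 ≤ (Tᶜ : Finset ι).card)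
    (hI : I ⊆ T) (h : Adm T I κ) {i₀ : ι} (hi₀ : i₀ ∈ I) {B : Finset ι}
    (hB : B ⊆ I.erase i₀ ∪ Tᶜ) (hB0 : B ≠ ∅) :
    FF (kC T I κ i₀ B) (I.erase i₀ ∪ Tᶜ) = ku T I κ * FF (kC T I κ i₀ B) (I.erase i₀) := by
  have hI' : I.erase i₀ ⊆ T := (Finset.erase_subset _ _).trans hI
  have h1 := kU_pos hT hI h
    (Finset.sdiff_subset.trans_ssubset (erase_ssub hI hi₀) : (I.erase i₀ ∪ Tᶜ) \ B ⊂ I ∪ Tᶜ)
  have h2 : FF (kU T I κ) (I.erase i₀ ∪ Tᶜ) =
      sg T I κ i₀ B * FF (kU T I κ) ((I.erase i₀ ∪ Tᶜ) \ B) := by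
    unfold sg
    rw [div_mul_cancel₀ _ h1.ne']
  rw [FF_kC hB0 (notMem_M hI hi₀), FF_kC hB0 (Finset.notMem_erase _ _), if_pos hB,
    FF_eq (T := T) (I := I) hT (I.erase i₀ ∪ Tᶜ), FF_eq (T := T) (I := I) hT ((I.erase i₀ ∪ Tᶜ) \ B),
    if_pos Finset.subset_union_right, union_sdiff_compl hI', h2]
  by_cases h3 : B ⊆ I.erase i₀
  · have h4 : Tᶜ ⊆ (I.erase i₀ ∪ Tᶜ) \ B := fun x hx => Finset.mem_sdiff.2
      ⟨Finset.mem_union_right _ hx, fun h5 => Finset.mem_compl.1 hx (hI' (h3 h5))⟩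
    rw [if_pos h3, if_pos h4, sdiff_right_comm, union_sdiff_compl hI']
    ring
  · have h4 : ¬ Tᶜ ⊆ (I.erase i₀ ∪ Tᶜ) \ B := by
      intro h5
      refine h3 fun x hx => ?_
      rcases Finset.mem_union.1 (hB hx) with h6 | h6
      · exact h6
      · exact absurd hx (Finset.mem_sdiff.1 (h5 h6)).2
    rw [if_neg h3, if_neg h4]
    ring

/-- The component is admissible. -/
theorem kC_adm {T I : Finset ι} {κ : Finset ι → ℚ} (hT : 2 ≤ (Tᶜ : Finset ι).card) (hI : I ⊆ T)
    (h : Adm T I κ) {i₀ : ι} (hi₀ : i₀ ∈ I) {B : Finset ι} (hB : B ⊆ I.erase i₀ ∪ Tᶜ)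
    (hB0 : B ≠ ∅) : Adm T (I.erase i₀) (kC T I κ i₀ B) := by
  have hs := sg_pos hT hI h hi₀ hB
  have hI' : I.erase i₀ ⊆ T := (Finset.erase_subset _ _).trans hI
  have hM := erase_ssub hI hi₀
  have hn : ∀ S, 0 ≤ kC T I κ i₀ B S := by
    intro S
    unfold kC modK
    have h1 := h.nonneg S
    dsimp only
    split_ifs <;> linarith
  refine ⟨hn, ?_, ?_⟩
  · intro S hS hS' hST
    have h1 := h.pos S (hS.trans hM.1) hS' hST
    have h2 : i₀ ∉ S := fun h3 => notMem_M hI hi₀ (hS h3)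
    unfold kC modK
    dsimp only
    rw [if_neg h2]
    split_ifs <;> linarith
  · intro J hJ
    have hJi : i₀ ∉ J := fun h3 => notMem_M hI hi₀ (hJ h3)
    have key : ∀ L ⊆ I.erase i₀ ∪ Tᶜ, ¬ Tᶜ ⊆ L → 0 < FF (kC T I κ i₀ B) L := by
      intro L hL hTL
      rw [FF_kC hB0 fun h3 => notMem_M hI hi₀ (hL h3)]
      split_ifs with h1
      · have h2 : ¬ Tᶜ ⊆ L \ B := fun h3 => hTL (h3.trans Finset.sdiff_subset)
        rw [FF_eq (T := T) (I := I) hT L, FF_eq (T := T) (I := I) hT (L \ B), if_neg hTL, if_neg h2,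
          add_zero, add_zero]
        refine first hT hI h hi₀ hB0 ⟨hL, fun h3 => hTL ?_⟩ h1
        exact Finset.subset_union_right.trans h3
      · rw [sub_zero]
        exact h.F L (hL.trans hM.1)
    by_cases hTJ : Tᶜ ⊆ J
    · have hJT : J \ Tᶜ ⊆ I.erase i₀ ∪ Tᶜ := Finset.sdiff_subset.trans hJ
      have hnT : ¬ Tᶜ ⊆ J \ Tᶜ := by
        intro h3
        obtain ⟨x, hx⟩ := Finset.nonempty_iff_ne_empty.2 (compl_ne hT)
        exact (Finset.mem_sdiff.1 (h3 hx)).2 hx
      by_cases hJM : J = I.erase i₀ ∪ Tᶜ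
      · rw [hJM, FF_kC_top hT hI h hi₀ hB hB0]
        refine mul_pos (ku_pos h) (key _ Finset.subset_union_left ?_)
        intro h3
        obtain ⟨x, hx⟩ := Finset.nonempty_iff_ne_empty.2 (compl_ne hT)
        exact Finset.mem_compl.1 hx (hI' (h3 hx))
      · rw [FF_kC hB0 hJi]
        split_ifs with h1
        · have h2 := first hT hI h hi₀ hB0 (Finset.ssubset_iff_subset_ne.2 ⟨hJ, hJM⟩) h1
          have h3 := key _ hJT hnT
          have h3' := h3
          rw [FF_kC hB0 fun h4 => hJi (Finset.mem_sdiff.1 h4).1] at h3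
          rw [FF_eq (T := T) (I := I) hT J, FF_eq (T := T) (I := I) hT (J \ B), if_pos hTJ]
          by_cases h5 : Tᶜ ⊆ J \ B
          · have h6 : B ⊆ J \ Tᶜ := fun x hx => Finset.mem_sdiff.2
              ⟨h1 hx, fun h7 => (Finset.mem_sdiff.1 (h5 h7)).2 hx⟩
            rw [if_pos h6] at h3
            rw [if_pos h5, sdiff_right_comm]
            have h7 := mul_pos (ku_pos h) h3
            nlinarith [h7, h2]
          · have h6 : 0 < FF κ (J \ Tᶜ) := h.F _ (hJT.trans hM.1)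
            rw [if_neg h5, add_zero]
            have h7 := mul_pos (ku_pos h) h6
            linarith
        · rw [sub_zero]
          exact h.F J (hJ.trans hM.1)
    · exact key J hJ hTJ

/-- The component has the same critical number of units. -/
theorem lam_kC {T I : Finset ι} {κ : Finset ι → ℚ} (hT : 2 ≤ (Tᶜ : Finset ι).card) (hI : I ⊆ T)
    (h : Adm T I κ) {i₀ : ι} (hi₀ : i₀ ∈ I) {B : Finset ι} (hB : B ⊆ I.erase i₀ ∪ Tᶜ)
    (hB0 : B ≠ ∅) (c : ι → ℕ) :
    lam c T (I.erase i₀) (kC T I κ i₀ B) = lam c T I κ := by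
  have h1 := (kC_adm hT hI h hi₀ hB hB0).F (I.erase i₀) Finset.subset_union_left
  unfold lam
  rw [FF_kC_top hT hI h hi₀ hB hB0, mul_div_cancel_right₀ _ h1.ne']
  rfl

end Pool.Agent.GD.BE

end

section

/-!
# General d, block BETA, module Comp: the configuration of a component

The points on the line `x` of the slot `i₀`: those whose kind does not contain `i₀` and those with
`line i = x`; their kinds without `i₀`.
-/

set_option autoImplicit false

namespace Pool.Agent.GD.BE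

open Finset

variable {ι : Type} [Fintype ι] [DecidableEq ι]

/-- The kinds of the component at the line `x`. -/
def mx (i₀ : ι) {P : Type} (m : P → Finset ι) {n : ℕ} (line : P → Fin n) (x : Fin n)
    (i : {i : P // i₀ ∉ m i ∨ line i = x}) : Finset ι := (m i.1).erase i₀

omit [Fintype ι] in
private theorem Comp_card {P : Type} [Fintype P] {m : P → Finset ι} {n : ℕ} (line : P → Fin n)
    {x : Fin n} {i₀ : ι} {B : Finset ι} (hl : ∀ i, i₀ ∈ m i → line i = x → (m i).erase i₀ = B)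
    {S : Finset ι} (hS : i₀ ∉ S) :
    Nat.card {y : {i : P // i₀ ∉ m i ∨ line i = x} // mx i₀ m line x y = S} =
      Nat.card {i // m i = S} +
        if S = B then Nat.card {i // i₀ ∈ m i ∧ line i = x} else 0 := by
  classical
  have e1 : Nat.card {y : {i : P // i₀ ∉ m i ∨ line i = x} // mx i₀ m line x y = S} =
      Nat.card {i : P // (i₀ ∉ m i ∨ line i = x) ∧ (m i).erase i₀ = S} :=
    Nat.card_congr (Equiv.subtypeSubtypeEquivSubtypeInter _ (fun i => (m i).erase i₀ = S))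
  rw [e1]
  simp only [Nat.card_eq_fintype_card, Fintype.card_subtype]
  by_cases hSB : S = B
  · rw [if_pos hSB, ← card_union_of_disjoint]
    · congr 1
      ext i
      simp only [mem_filter, mem_univ, true_and, mem_union]
      constructor
      · rintro ⟨h1, h2⟩
        by_cases h3 : i₀ ∈ m i
        · exact Or.inr ⟨h3, h1.resolve_left (not_not.2 h3)⟩
        · rw [erase_eq_of_notMem h3] at h2
          exact Or.inl h2
      · rintro (h1 | ⟨h1, h2⟩)
        · rw [h1, erase_eq_of_notMem hS]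
          exact ⟨Or.inl hS, rfl⟩
        · exact ⟨Or.inr h2, by rw [hl i h1 h2, hSB]⟩
    · rw [disjoint_left]
      intro i h1 h2
      simp only [mem_filter, mem_univ, true_and] at h1 h2
      rw [h1] at h2
      exact hS h2.1
  · rw [if_neg hSB, add_zero]
    congr 1
    ext i
    simp only [mem_filter, mem_univ, true_and]
    constructor
    · rintro ⟨h1, h2⟩
      by_cases h3 : i₀ ∈ m i
      · exact absurd (h2.symm.trans (hl i h3 (h1.resolve_left (not_not.2 h3)))) hSB
      · rwa [erase_eq_of_notMem h3] at h2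
    · intro h1
      rw [h1, erase_eq_of_notMem hS]
      exact ⟨Or.inl hS, rfl⟩

/-- The configuration of a component of type `B ≠ ∅`. -/
theorem comp_cfg {c : ι → ℕ} {T I : Finset ι} (hI : I ⊆ T) {κ : Finset ι → ℚ}
    {P₀ P₁ : Type} [Fintype P₀] [Fintype P₁]
    {m₀ : P₀ → Finset ι} {m₁ : P₁ → Finset ι} (h : Cfg c T I κ m₀ m₁) {i₀ : ι} (hi₀ : i₀ ∈ I)
    {n : ℕ} (line₀ : P₀ → Fin n) (line₁ : P₁ → Fin n) (x : Fin n) (B : Finset ι)
    (hB : B ⊆ I.erase i₀ ∪ Tᶜ) (hB0 : B ≠ ∅)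
    (hl₀ : ∀ i, i₀ ∈ m₀ i → line₀ i = x → (m₀ i).erase i₀ = B)
    (hl₁ : ∀ i, i₀ ∈ m₁ i → line₁ i = x → (m₁ i).erase i₀ = B)
    (hq : (Nat.card {i : P₀ ⊕ P₁ // i₀ ∈ Sum.elim m₀ m₁ i ∧ Sum.elim line₀ line₁ i = x} : ℚ) =
      sg T I κ i₀ B * pc c B) :
    Cfg c T (I.erase i₀) (kC T I κ i₀ B) (mx i₀ m₀ line₀ x) (mx i₀ m₁ line₁ x) := by
  classical
  have hi₀T : i₀ ∈ T := hI hi₀
  have hsum : Nat.card {i : P₀ ⊕ P₁ // i₀ ∈ Sum.elim m₀ m₁ i ∧ Sum.elim line₀ line₁ i = x} =
      Nat.card {i : P₀ // i₀ ∈ m₀ i ∧ line₀ i = x} +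
        Nat.card {i : P₁ // i₀ ∈ m₁ i ∧ line₁ i = x} := by
    rw [← Nat.card_sum]
    exact Nat.card_congr Equiv.subtypeSum
  have hk : ∀ S : Finset ι, i₀ ∉ S →
      kC T I κ i₀ B S = κ S + if S = B then sg T I κ i₀ B else 0 := by
    intro S hS
    unfold kC modK
    beta_reduce
    rw [if_neg hS]
  have hnot : ∀ S : Finset ι, S ⊆ I.erase i₀ ∪ Tᶜ → i₀ ∉ S := by
    intro S hS h1
    rcases mem_union.1 (hS h1) with h2 | h2
    · exact notMem_erase i₀ I h2
    · exact mem_compl.1 h2 hi₀T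
  refine ⟨fun i => ⟨erase_subset_erase i₀ (h.base i.1).1, ?_⟩, fun i => ⟨?_, ?_⟩,
    fun S hS hS0 => ?_, fun S hS hST => ?_⟩
  · -- the kinds of the base points are not empty
    intro h0
    change (m₀ i.1).erase i₀ = ∅ at h0
    by_cases h1 : i₀ ∈ m₀ i.1
    · rw [hl₀ i.1 h1 (i.2.resolve_left (not_not.2 h1))] at h0
      exact hB0 h0
    · rw [erase_eq_of_notMem h1] at h0
      exact (h.base i.1).2 h0
  · intro y hy
    change y ∈ (m₁ i.1).erase i₀ at hy
    obtain ⟨h1, h2⟩ := mem_erase.1 hy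
    rcases mem_union.1 ((h.add i.1).1 h2) with h3 | h3
    · exact mem_union_left _ (mem_erase.2 ⟨h1, h3⟩)
    · exact mem_union_right _ h3
  · intro h1
    apply (h.add i.1).2
    intro y hy
    by_cases h2 : y = i₀
    · rw [h2]
      exact hi₀T
    · exact h1 (show y ∈ (m₁ i.1).erase i₀ from mem_erase.2 ⟨h2, hy⟩)
  · -- the base points
    have hSi : i₀ ∉ S := hnot S (hS.trans subset_union_left)
    rw [Comp_card line₀ hl₀ hSi, hk S hSi, Nat.cast_add,
      h.card₀ S (hS.trans (erase_subset _ _)) hS0, add_mul]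
    congr 1
    by_cases hSB : S = B
    · rw [if_pos hSB, if_pos hSB, hSB, ← hq, hsum]
      have h0 : Nat.card {i : P₁ // i₀ ∈ m₁ i ∧ line₁ i = x} = 0 := by
        have : IsEmpty {i : P₁ // i₀ ∈ m₁ i ∧ line₁ i = x} := by
          refine ⟨fun i => (h.add i.1).2 fun y hy => ?_⟩
          by_cases h2 : y = i₀
          · rw [h2]
            exact hi₀T
          · have h3 : y ∈ (m₁ i.1).erase i₀ := mem_erase.2 ⟨h2, hy⟩
            rw [hl₁ i.1 i.2.1 i.2.2, ← hSB] at h3
            exact hI (erase_subset _ _ (hS h3))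
        exact Nat.card_of_isEmpty
      rw [h0, add_zero]
    · rw [if_neg hSB, if_neg hSB]
      simp
  · -- the additional points
    have hSi : i₀ ∉ S := hnot S hS
    have hS' : S ⊆ I ∪ Tᶜ := hS.trans (union_subset_union (erase_subset _ _) (Subset.refl _))
    rw [Comp_card line₁ hl₁ hSi, hk S hSi, Nat.cast_add, h.card₁ S hS' hST, add_mul]
    congr 1
    by_cases hSB : S = B
    · rw [if_pos hSB, if_pos hSB, hSB, ← hq, hsum]
      have h0 : Nat.card {i : P₀ // i₀ ∈ m₀ i ∧ line₀ i = x} = 0 := by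
        have : IsEmpty {i : P₀ // i₀ ∈ m₀ i ∧ line₀ i = x} := by
          refine ⟨fun i => hST ?_⟩
          rw [hSB, ← hl₀ i.1 i.2.1 i.2.2]
          exact (erase_subset _ _).trans ((h.base i.1).1.trans hI)
        exact Nat.card_of_isEmpty
      rw [h0, zero_add]
    · rw [if_neg hSB, if_neg hSB]
      simp

end Pool.Agent.GD.BE

end

section

/-!
# General d, block BETA, module Semi: semistability for all `E` at once

Proof: add `κ_u = F (I ∪ Tᶜ) / F I` units (kind `Tᶜ`, `lam c T I κ` of them, an integer for divisible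
dimensions): the virtual dimension of `I ∪ Tᶜ` becomes `0` and the others are `≥ 0` (`IsF.mono`), so
`critical` for a minimal zero set: general points kill everything.  Every unit costs at most
`finrank E` (the contraction with a unit is a combination of slices).
-/

set_option autoImplicit false
set_option linter.unusedSectionVars false
set_option linter.unusedVariables false

namespace Pool.Agent.GD.BE

open Finset MvPolynomial Module Pool.Agent.H51.TB

variable {ι : Type} [Fintype ι] [DecidableEq ι]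

theorem semi_pc_pos {c : ι → ℕ} (hc : ∀ i, 0 < c i) (S : Finset ι) : 0 < pc c S :=
  Finset.prod_pos fun i _ => by exact_mod_cast hc i

/-- `critical` for nonnegative virtual dimensions. -/
theorem crit_nonneg (κ F : Finset ι → ℚ) (hκ : ∀ S, 0 ≤ κ S) (hF : IsF κ F) (I : Finset ι)
    (hnn : ∀ J ⊆ I, 0 ≤ F J) (hz : F I = 0) :
    ∃ N : ℕ, 0 < N ∧ ∀ c : ι → ℕ, (∀ i, 0 < c i ∧ N ∣ c i) →
      ∀ (P : Type) [Fintype P] (m : P → Finset ι),
        (∀ S ⊆ I, S ≠ ∅ → κ S * pc c S ≤ Nat.card {x // m x = S}) → (TS ι c).gd m = 0 := by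
  classical
  obtain ⟨J, hJmem, hJmin⟩ := (I.powerset.filter fun J => F J = 0).exists_minimal
    ⟨I, Finset.mem_filter.2 ⟨Finset.mem_powerset.2 (subset_refl _), hz⟩⟩
  rw [Finset.mem_filter, Finset.mem_powerset] at hJmem
  let κ₀ : Finset ι → ℚ := fun S => if S = ∅ then 0 else κ S
  have hF₀ : IsF κ₀ F := by
    refine ⟨hF.empty, fun I i hi => ?_⟩
    rw [hF.step I i hi]
    congr 1
    refine Finset.sum_congr rfl fun B _ => ?_
    show _ = (if insert i B = ∅ then 0 else κ (insert i B)) * _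
    rw [if_neg (Finset.insert_ne_empty i B)]
  obtain ⟨N, hN, h⟩ := critical J.card κ₀ F (fun S => by
      show 0 ≤ if S = ∅ then (0 : ℚ) else κ S
      split_ifs
      · exact le_rfl
      · exact hκ S) hF₀ J le_rfl (fun K hK => by
      refine lt_of_le_of_ne (hnn K (hK.subset.trans hJmem.1)) fun h0 => ?_
      have h1 : K ∈ I.powerset.filter fun J => F J = 0 :=
        Finset.mem_filter.2 ⟨Finset.mem_powerset.2 (hK.subset.trans hJmem.1), h0.symm⟩
      exact hK.not_subset (hJmin h1 hK.subset)) hJmem.2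
  refine ⟨N, hN, fun c hc P _ m hm => h c hc P m fun S hS => ?_⟩
  show (if S = ∅ then 0 else κ S) * _ ≤ _
  split_ifs with h0
  · rw [zero_mul]
    exact Nat.cast_nonneg _
  · exact hm S (hS.trans hJmem.1) h0

/-- The critical number of points of kind `A`. -/
theorem crit_add (κ : Finset ι → ℚ) (hκ : ∀ S, 0 ≤ κ S) (I A : Finset ι) (hA : A ⊆ I)
    (hA0 : A ≠ ∅) (hF : ∀ J ⊆ I, 0 < FF κ J) :
    ∃ N : ℕ, 0 < N ∧ ∀ c : ι → ℕ, (∀ i, 0 < c i ∧ N ∣ c i) →
      ∃ l : ℕ, (l : ℚ) = pc c A * (FF κ I / FF κ (I \ A)) ∧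
      ∀ (P : Type) [Fintype P] (m : P → Finset ι),
        (∀ S ⊆ I, S ≠ ∅ → κ S * pc c S ≤ Nat.card {x // m x = S}) →
          (TS ι c).gd (Sum.elim m fun _ : Fin l => A) = 0 := by
  classical
  set σ : ℚ := FF κ I / FF κ (I \ A) with hσ
  have hIA : 0 < FF κ (I \ A) := hF _ Finset.sdiff_subset
  have hσ0 : 0 < σ := div_pos (hF I (subset_refl _)) hIA
  have hF0 := isF_FF κ
  obtain ⟨N, hN, h⟩ := crit_nonneg (modK κ A σ) (modF (FF κ) A σ) (fun S => by
    unfold modK
    split_ifs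
    · exact add_nonneg (hκ S) hσ0.le
    · rw [add_zero]; exact hκ S) (hF0.mod hA0 σ) I (fun J hJ => by
      unfold modF
      split_ifs with h
      · have h1 := IsF.mono hκ hF0 hF _ I (subset_refl _) le_rfl J hJ A h
        rw [sub_nonneg, hσ, div_mul_eq_mul_div, div_le_iff₀ hIA]
        exact h1
      · rw [sub_zero]
        exact (hF J hJ).le) (by
      unfold modF
      rw [if_pos hA, hσ, div_mul_cancel₀ _ hIA.ne', sub_self])
  refine ⟨N * σ.den, Nat.mul_pos hN (Rat.den_pos _), fun c hc => ?_⟩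
  obtain ⟨j, hj⟩ := Finset.nonempty_iff_ne_empty.2 hA0
  have h1 : σ.den ∣ ∏ i ∈ A, c i :=
    ((Dvd.intro_left _ rfl).trans (hc j).2).trans (Finset.dvd_prod_of_mem _ hj)
  obtain ⟨l, hl⟩ := exists_nat_mul hσ0.le h1
  have hl' : (l : ℚ) = pc c A * σ := by
    rw [hl]
    unfold pc
    push_cast
    rfl
  refine ⟨l, hl', fun P _ m hm => ?_⟩
  refine h c (fun i => ⟨(hc i).1, (Dvd.intro _ rfl).trans (hc i).2⟩) _ _ fun S hS hS0 => ?_
  unfold modK
  have hmS := hm S hS hS0
  let f1 : {x // m x = S} → {y : P ⊕ Fin l // Sum.elim m (fun _ : Fin l => A) y = S} :=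
    fun y => ⟨Sum.inl y.1, y.2⟩
  have hf1 : Function.Injective f1 := by
    intro y y' h
    exact Subtype.ext (Sum.inl_injective (congrArg (fun t => t.1) h))
  by_cases hSA : S = A
  · rw [if_pos hSA]
    subst hSA
    let f2 : Fin l → {y : P ⊕ Fin l // Sum.elim m (fun _ : Fin l => S) y = S} :=
      fun a => ⟨Sum.inr a, rfl⟩
    have hf2 : Function.Injective f2 := by
      intro a b h
      exact Sum.inr_injective (congrArg (fun t => t.1) h)
    have hf12 : Function.Injective (Sum.elim f1 f2) := by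
      refine hf1.sumElim hf2 fun y a h => ?_
      have h1 : (Sum.inl y.1 : P ⊕ Fin l) = Sum.inr a := congrArg (fun t => t.1) h
      exact Sum.inl_ne_inr h1
    have h1 := Nat.card_le_card_of_injective _ hf12
    rw [Nat.card_sum, Nat.card_eq_fintype_card (α := Fin l), Fintype.card_fin] at h1
    have h3 : ((Nat.card {x // m x = S} + l : ℕ) : ℚ) ≤
        Nat.card {y : P ⊕ Fin l // Sum.elim m (fun _ : Fin l => S) y = S} := by
      exact_mod_cast h1
    push_cast at h3
    rw [hl'] at h3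
    refine le_trans ?_ h3
    rw [add_mul]
    linarith
  · rw [if_neg hSA, add_zero]
    refine hmS.trans ?_
    exact_mod_cast Nat.card_le_card_of_injective f1 hf1

theorem KE_eq {c : ι → ℕ} (T : Finset ι) {P : Type} (m : P → Finset ι)
    (p : P → (Σ i, Fin (c i)) → ℂ) (E : Submodule ℂ ((∀ i, Fin (c i)) → ℂ)) :
    KE T m p E = (TS ι c).V m p ⊓ VE Tᶜ E := by
  ext G
  rw [mem_KE, Submodule.mem_inf, mem_TS, mem_VE, and_comm]
  refine and_congr Iff.rfl (forall_congr' fun u => ?_)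
  have e : (fun w => G (mix T w u)) = sl Tᶜ u G := by
    funext w
    show G (mix T w u) = G (gl Tᶜ u w)
    congr 1
    funext j
    unfold mix gl
    by_cases hj : j ∈ T
    · rw [if_pos hj, if_neg fun h => Finset.mem_compl.1 h hj]
    · rw [if_neg hj, if_pos (Finset.mem_compl.2 hj)]
  rw [e]

theorem semi (T I : Finset ι) (hI : I ⊆ T) (hT : Tᶜ ≠ ∅) (κ : Finset ι → ℚ)
    (hκ : ∀ S, 0 ≤ κ S) (hF : ∀ J ⊆ I ∪ Tᶜ, 0 < FF κ J) :
    ∃ N : ℕ, 0 < N ∧ ∀ c : ι → ℕ, (∀ i, 0 < c i ∧ N ∣ c i) →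
      (∃ l : ℕ, (l : ℚ) = lam c T I κ) ∧
      ∀ (P : Type) [Fintype P] (m : P → Finset ι),
        (∀ S ⊆ I ∪ Tᶜ, S ≠ ∅ → κ S * pc c S ≤ (Nat.card {x // m x = S} : ℚ)) →
          Gn P (Σ i, Fin (c i)) fun p => ∀ E : Submodule ℂ ((∀ i, Fin (c i)) → ℂ),
            (finrank ℂ (KE T m p E) : ℚ) ≤ lam c T I κ * finrank ℂ E := by
  classical
  have e1 : (I ∪ Tᶜ) \ Tᶜ = I := by
    ext x
    rw [Finset.mem_sdiff, Finset.mem_union, Finset.mem_compl, not_not]
    constructor
    · rintro ⟨h1 | h1, h2⟩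
      · exact h1
      · exact absurd h2 h1
    · exact fun h => ⟨Or.inl h, hI h⟩
  obtain ⟨N, hN, h⟩ := crit_add κ hκ (I ∪ Tᶜ) Tᶜ Finset.subset_union_right hT hF
  refine ⟨N, hN, fun c hc => ?_⟩
  obtain ⟨l, hl, h2⟩ := h c hc
  rw [e1] at hl
  refine ⟨⟨l, hl⟩, fun P _ m hm => ?_⟩
  refine (semist_gn (fun i => (hc i).1) m Tᶜ l (h2 P m hm)).mono fun p hp E => ?_
  have h3 := hp E
  rw [KE_eq]
  have h4 : (finrank ℂ ((TS ι c).V m p ⊓ VE Tᶜ E : Submodule ℂ ((∀ i, Fin (c i)) → ℂ)) : ℚ) ≤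
      ((l * finrank ℂ E : ℕ) : ℚ) := by exact_mod_cast h3
  refine h4.trans (le_of_eq ?_)
  push_cast
  rw [hl]
  rfl

end Pool.Agent.GD.BE

end

section

/-!
# General d, block BETA, module Exd: exactness of all configurations below a nice one

Proof of `exact_le`: induction on `#J₀`.  (1) lower bound: adding one point of kind `S` to `m` lowers
the dimension by at most the dimension of the system on `J₀ \ S` (the contraction with the new point
maps into the tensors killed by the points of kinds inside `J₀ \ S`), which is known by induction.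
(2) upper bound at the nice numbers: add `σ * c i` points of kind `{i}`, `σ = F J₀ / F (J₀ - i)`,
`critical` (with a minimal zero set) gives dimension `0`.  So all drops are maximal.
-/

set_option autoImplicit false
set_option linter.unusedSectionVars false
set_option linter.unusedVariables false

namespace Pool.Agent.GD.BE

open Finset MvPolynomial Module Pool.Agent.H51.TB

variable {ι : Type} [Fintype ι] [DecidableEq ι]

/-- The densities of a configuration. -/
noncomputable def dn (c : ι → ℕ) {P : Type} (m : P → Finset ι) (S : Finset ι) : ℚ :=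
  Nat.card {x // m x = S} / pc c S

/-! ### Spectators -/

section dep

variable {c : ι → ℕ}

/-- The index which is `w` on `J₀` and `u` off `J₀`. -/
def exg (c : ι → ℕ) (J₀ : Finset ι) (u : ∀ i : {i // i ∉ J₀}, Fin (c i.1)) (w : ∀ i, Fin (c i)) :
    ∀ i, Fin (c i) := fun i => if h : i ∈ J₀ then w i else u ⟨i, h⟩

theorem exg_of_mem {J₀ : Finset ι} {i : ι} (h : i ∈ J₀) (u : ∀ i : {i // i ∉ J₀}, Fin (c i.1))
    (w : ∀ i, Fin (c i)) : exg c J₀ u w i = w i := dif_pos h

theorem exg_of_notMem {J₀ : Finset ι} {i : ι} (h : i ∉ J₀) (u : ∀ i : {i // i ∉ J₀}, Fin (c i.1))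
    (w : ∀ i, Fin (c i)) : exg c J₀ u w i = u ⟨i, h⟩ := dif_neg h

theorem ctr_exg (J₀ S : Finset ι) (hS : S ⊆ J₀) (y : (Σ i, Fin (c i)) → ℂ)
    (G : (∀ i, Fin (c i)) → ℂ) (u : ∀ i : {i // i ∉ J₀}, Fin (c i.1)) (w : ∀ i, Fin (c i)) :
    ctr S y (fun e => G (exg c J₀ u e)) w = ctr S y G (exg c J₀ u w) := by
  unfold ctr
  rw [← Finset.sum_filter, ← Finset.sum_filter]
  refine Finset.sum_nbij' (fun e => exg c J₀ u e) (fun e => fun i => if i ∈ S then e i else w i)
    ?_ ?_ ?_ ?_ ?_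
  · intro e he
    simp only [Finset.mem_filter, Finset.mem_univ, true_and] at he ⊢
    intro j hj
    by_cases h : j ∈ J₀
    · rw [exg_of_mem h, exg_of_mem h, he j hj]
    · rw [exg_of_notMem h, exg_of_notMem h]
  · intro e he
    simp only [Finset.mem_filter, Finset.mem_univ, true_and] at he ⊢
    intro j hj
    rw [if_neg hj]
  · intro e he
    simp only [Finset.mem_filter, Finset.mem_univ, true_and] at he
    funext j
    by_cases hj : j ∈ S
    · simp only [if_pos hj]
      exact exg_of_mem (hS hj) u e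
    · simp only [if_neg hj]
      exact (he j hj).symm
  · intro e he
    simp only [Finset.mem_filter, Finset.mem_univ, true_and] at he
    funext j
    by_cases h : j ∈ J₀
    · rw [exg_of_mem h]
      by_cases hj : j ∈ S
      · rw [if_pos hj]
      · rw [if_neg hj, he j hj, exg_of_mem h]
    · rw [exg_of_notMem h, he j fun h' => h (hS h'), exg_of_notMem h]
  · intro e _
    congr 1
    refine Finset.prod_congr rfl fun j hj => ?_
    rw [exg_of_mem (hS hj)]

/-- The tensors are families (over the indices off `J₀`) of tensors on the slots `J₀`. -/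
noncomputable def depEquiv (J₀ : Finset ι) {P : Type} (m : P → Finset ι)
    (hm : ∀ x, m x ⊆ J₀) (p : P → (Σ i, Fin (c i)) → ℂ) :
    (TS ι c).V m p ≃ₗ[ℂ] ((∀ i : {i // i ∉ J₀}, Fin (c i.1)) →
      ((TS ι c).V m p ⊓ Dep c J₀ : Submodule ℂ ((∀ i, Fin (c i)) → ℂ))) where
  toFun G := fun u => ⟨fun w => G.1 (exg c J₀ u w), by
    refine Submodule.mem_inf.2 ⟨?_, ?_⟩
    · rw [mem_TS]
      intro x w
      rw [ctr_exg J₀ (m x) (hm x)]
      exact (mem_TS m p _).1 G.2 x _
    · intro w w' h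
      refine congrArg G.1 (funext fun j => ?_)
      by_cases hj : j ∈ J₀
      · rw [exg_of_mem hj, exg_of_mem hj, h j hj]
      · rw [exg_of_notMem hj, exg_of_notMem hj]⟩
  map_add' _ _ := rfl
  map_smul' _ _ := rfl
  invFun g := ⟨fun w => (g fun i : {i // i ∉ J₀} => w i.1).1 w, by
    rw [mem_TS]
    intro x w
    have h1 : ctr (m x) (p x) (fun w => (g fun i : {i // i ∉ J₀} => w i.1).1 w) w =
        ctr (m x) (p x) (g fun i : {i // i ∉ J₀} => w i.1).1 w := by
      unfold ctr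
      refine Finset.sum_congr rfl fun e _ => ?_
      split_ifs with h
      · have h2 : (fun i : {i // i ∉ J₀} => e i.1) = fun i : {i // i ∉ J₀} => w i.1 := by
          funext i
          exact h i.1 fun h' => i.2 (hm x h')
        show _ * (g fun i : {i // i ∉ J₀} => e i.1).1 e = _
        rw [h2]
      · rfl
    rw [h1]
    exact (mem_TS m p _).1 (Submodule.mem_inf.1 (g fun i : {i // i ∉ J₀} => w i.1).2).1 x w⟩
  left_inv G := by
    refine Subtype.ext (funext fun w => ?_)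
    refine congrArg G.1 (funext fun j => ?_ : exg c J₀ (fun i => w i.1) w = w)
    by_cases hj : j ∈ J₀
    · rw [exg_of_mem hj]
    · rw [exg_of_notMem hj]
  right_inv g := by
    funext u
    refine Subtype.ext (funext fun w => ?_)
    show (g fun i : {i // i ∉ J₀} => exg c J₀ u w i.1).1 (exg c J₀ u w) = (g u).1 w
    have h1 : (fun i : {i // i ∉ J₀} => exg c J₀ u w i.1) = u := by
      funext i
      rw [exg_of_notMem i.2]
    rw [h1]
    exact (Submodule.mem_inf.1 (g u).2).2 _ _ fun i hi => exg_of_mem hi u w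

/-- Spectators: if all kinds are inside `J₀`. -/
theorem dep_dim (hc : ∀ i, 0 < c i) (J₀ : Finset ι) {P : Type} (m : P → Finset ι)
    (hm : ∀ x, m x ⊆ J₀) (p : P → (Σ i, Fin (c i)) → ℂ) :
    (finrank ℂ ((TS ι c).V m p) : ℚ) =
      pc c J₀ᶜ * finrank ℂ ((TS ι c).V m p ⊓ Dep c J₀ : Submodule ℂ ((∀ i, Fin (c i)) → ℂ)) := by
  classical
  have h1 := (depEquiv J₀ m hm p).finrank_eq
  rw [finrank_pi_fintype, Finset.sum_const, Finset.card_univ, smul_eq_mul] at h1
  rw [h1]
  push_cast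
  congr 1
  rw [Fintype.card_pi]
  push_cast
  unfold pc
  simp only [Fintype.card_fin]
  exact (Finset.prod_subtype J₀ᶜ (fun x => Finset.mem_compl) fun i => (c i : ℚ)).symm

end dep

/-! ### One more point -/

section drop

variable {c : ι → ℕ}

/-- Contractions along disjoint sets of slots. -/
theorem ctr_ctr (S A : Finset ι) (hSA : Disjoint A S) (q y : (Σ i, Fin (c i)) → ℂ)
    (F : (∀ i, Fin (c i)) → ℂ) (w : ∀ i, Fin (c i)) :
    ctr A y (ctrL S q F) w =
      ∑ f : ∀ i, Fin (c i), if ∀ j, j ∉ A ∪ S → f j = w j then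
        (∏ j ∈ A, y ⟨j, f j⟩) * (∏ j ∈ S, q ⟨j, f j⟩) * F f else 0 := by
  classical
  show (∑ e : ∀ i, Fin (c i), if ∀ j, j ∉ A → e j = w j then (∏ j ∈ A, y ⟨j, e j⟩) *
    (∑ f : ∀ i, Fin (c i), if ∀ j, j ∉ S → f j = e j then (∏ j ∈ S, q ⟨j, f j⟩) * F f else 0)
      else 0) = _
  have h1 : ∀ e : ∀ i, Fin (c i), (if ∀ j, j ∉ A → e j = w j then (∏ j ∈ A, y ⟨j, e j⟩) *
      (∑ f : ∀ i, Fin (c i), if ∀ j, j ∉ S → f j = e j then (∏ j ∈ S, q ⟨j, f j⟩) * F f else 0)
        else 0) = ∑ f : ∀ i, Fin (c i),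
          if (∀ j, j ∉ A → e j = w j) ∧ ∀ j, j ∉ S → f j = e j then
            (∏ j ∈ A, y ⟨j, e j⟩) * (∏ j ∈ S, q ⟨j, f j⟩) * F f else 0 := by
    intro e
    split_ifs with h
    · rw [Finset.mul_sum]
      refine Finset.sum_congr rfl fun f _ => ?_
      by_cases h' : ∀ j, j ∉ S → f j = e j
      · rw [if_pos h', if_pos ⟨h, h'⟩]; ring
      · rw [if_neg h', if_neg fun h'' => h' h''.2, mul_zero]
    · symm
      exact Finset.sum_eq_zero fun f _ => if_neg fun h'' => h h''.1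
  rw [Finset.sum_congr rfl fun e _ => h1 e, Finset.sum_comm]
  refine Finset.sum_congr rfl fun f _ => ?_
  -- the only `e`
  let e₀ : ∀ i, Fin (c i) := fun j => if j ∈ A then f j else w j
  rw [Finset.sum_eq_single e₀]
  · by_cases h : ∀ j, j ∉ A ∪ S → f j = w j
    · rw [if_pos h, if_pos]
      · congr 2
        refine Finset.prod_congr rfl fun j hj => ?_
        simp only [e₀, if_pos hj]
      · refine ⟨fun j hj => ?_, fun j hj => ?_⟩
        · simp only [e₀, if_neg hj]
        · by_cases hjA : j ∈ A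
          · simp only [e₀, if_pos hjA]
          · simp only [e₀, if_neg hjA]
            exact h j fun h' => (Finset.mem_union.1 h').elim hjA hj
    · rw [if_neg h, if_neg]
      rintro ⟨h1, h2⟩
      refine h fun j hj => ?_
      rw [Finset.mem_union, not_or] at hj
      rw [h2 j hj.2, h1 j hj.1]
  · intro e _ he
    refine if_neg ?_
    rintro ⟨h1, h2⟩
    refine he (funext fun j => ?_)
    by_cases hjA : j ∈ A
    · simp only [e₀, if_pos hjA]
      exact (h2 j (Finset.disjoint_left.1 hSA hjA)).symm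
    · simp only [e₀, if_neg hjA]
      exact h1 j hjA
  · exact fun h => absurd (Finset.mem_univ _) h

theorem ctr_comm (S A : Finset ι) (hSA : Disjoint A S) (q y : (Σ i, Fin (c i)) → ℂ)
    (F : (∀ i, Fin (c i)) → ℂ) (w : ∀ i, Fin (c i)) :
    ctr A y (ctrL S q F) w = ctr S q (ctrL A y F) w := by
  rw [ctr_ctr S A hSA, ctr_ctr A S hSA.symm]
  refine Finset.sum_congr rfl fun f _ => ?_
  simp only [Finset.union_comm S A]
  split_ifs
  · ring
  · rfl

theorem ctr_dep (S : Finset ι) (q : (Σ i, Fin (c i)) → ℂ) (F : (∀ i, Fin (c i)) → ℂ) :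
    ctrL S q F ∈ Dep c Sᶜ := by
  intro w w' h
  show ctr S q F w = ctr S q F w'
  unfold ctr
  refine Finset.sum_congr rfl fun f _ => ?_
  have h1 : (∀ j, j ∉ S → f j = w j) ↔ ∀ j, j ∉ S → f j = w' j :=
    forall_congr' fun j => forall_congr' fun hj => by rw [h j (Finset.mem_compl.2 hj)]
  simp only [h1]

/-- One more point of kind `S`. -/
theorem exd_drop (hc : ∀ i, 0 < c i) {P : Type} [Fintype P] (m : P → Finset ι) (S : Finset ι) :
    ((TS ι c).gd m : ℚ) ≤ (TS ι c).gd (Sum.elim m fun _ : Unit => S) +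
      (TS ι c).gd (fun x : {x // Disjoint (m x) S} => m x.1) / pc c S := by
  classical
  obtain ⟨r, h1, h2⟩ := ((gn_gd (TS ι c) (Sum.elim m fun _ : Unit => S)).and
    ((gn_gd (TS ι c) fun x : {x // Disjoint (m x) S} => m x.1).comap
      (fun x : {x // Disjoint (m x) S} => (Sum.inl x.1 : P ⊕ Unit))
      fun a b h => Subtype.ext (Sum.inl_injective h))).exists
  let p : P → (Σ i, Fin (c i)) → ℂ := fun i => r (Sum.inl i)
  let q : (Σ i, Fin (c i)) → ℂ := r (Sum.inr ())
  have hr : r = Sum.elim p fun _ : Unit => q := by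
    funext x
    rcases x with x | x <;> rfl
  have h3 := gd_le (TS ι c) m p
  -- the contraction
  let D : Submodule ℂ ((∀ i, Fin (c i)) → ℂ) :=
    (TS ι c).V (fun x : {x // Disjoint (m x) S} => m x.1) (fun x => p x.1) ⊓ Dep c Sᶜ
  let Φ : (TS ι c).V m p →ₗ[ℂ] D := ((ctrL S q).comp (Submodule.subtype _)).codRestrict D
    fun F => Submodule.mem_inf.2 ⟨by
      rw [mem_TS]
      intro x w
      show ctr (m x.1) (p x.1) (ctrL S q F.1) w = 0
      rw [ctr_comm S (m x.1) x.2]
      have h4 : ctrL (m x.1) (p x.1) F.1 = 0 := by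
        funext w'
        exact (mem_TS m p _).1 F.2 x.1 w'
      rw [h4]
      unfold ctr
      refine Finset.sum_eq_zero fun e _ => ?_
      rw [Pi.zero_apply, mul_zero, ite_self], ctr_dep S q F.1⟩
  have h5 := LinearMap.finrank_range_add_finrank_ker Φ
  have h6 : finrank ℂ (LinearMap.range Φ) ≤ finrank ℂ D := Submodule.finrank_le _
  have h7 : finrank ℂ (LinearMap.ker Φ) ≤
      finrank ℂ ((TS ι c).V (Sum.elim m fun _ : Unit => S) r) := by
    have h8 : (LinearMap.ker Φ).map (Submodule.subtype _) ≤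
        (TS ι c).V (Sum.elim m fun _ : Unit => S) r := by
      rintro _ ⟨F, hF, rfl⟩
      rw [hr, mem_TS]
      rintro (i | i) w
      · exact (mem_TS m p _).1 F.2 i w
      · have h9 : Φ F = 0 := hF
        exact congrFun (congrArg Subtype.val h9) w
    rw [← Submodule.finrank_map_subtype_eq]
    exact Submodule.finrank_mono h8
  have h8 := dep_dim hc Sᶜ (fun x : {x // Disjoint (m x) S} => m x.1) (fun x => by
    intro j hj
    exact Finset.mem_compl.2 (Finset.disjoint_left.1 x.2 hj)) (fun x => p x.1)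
  rw [compl_compl] at h8
  have h9 : finrank ℂ ((TS ι c).V (fun x : {x // Disjoint (m x) S} => m x.1) fun x => p x.1) =
      (TS ι c).gd (fun x : {x // Disjoint (m x) S} => m x.1) := h2
  rw [h9] at h8
  rw [h1] at h7
  have hpc := semi_pc_pos hc S
  rw [h8, mul_div_cancel_left₀ _ hpc.ne']
  have h10 : (TS ι c).gd m ≤ (TS ι c).gd (Sum.elim m fun _ : Unit => S) + finrank ℂ D := by
    omega
  exact_mod_cast h10

end drop

/-! ### Virtual dimensions -/

omit [Fintype ι] in
theorem exd_congr {κ κ' : Finset ι → ℚ} {J : Finset ι} (h : ∀ S ⊆ J, S ≠ ∅ → κ S = κ' S) :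
    FF κ J = FF κ' J := by
  unfold FF
  refine Finset.sum_congr rfl fun P hP => Finset.prod_congr rfl fun S hS => ?_
  rw [mem_Dj] at hP
  rw [h S (hP.1 S hS) fun h0 => hP.2.1 (h0 ▸ hS)]

theorem exd_card_elim {P Q : Type} [Finite P] [Finite Q] (m : P → Finset ι) (m' : Q → Finset ι)
    (S : Finset ι) : Nat.card {x // Sum.elim m m' x = S} =
      Nat.card {x // m x = S} + Nat.card {x // m' x = S} := by
  rw [Nat.card_congr (Equiv.subtypeSum (p := fun x => Sum.elim m m' x = S)), Nat.card_sum]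
  rfl

theorem exd_card_comp {P Q : Type} (e : Q ≃ P) (m : P → Finset ι) (S : Finset ι) :
    Nat.card {x // m (e x) = S} = Nat.card {x // m x = S} :=
  Nat.card_congr (e.subtypeEquiv fun _ => Iff.rfl)

theorem exd_dn_comp (c : ι → ℕ) {P Q : Type} (e : Q ≃ P) (m : P → Finset ι) :
    dn c (fun x => m (e x)) = dn c m := by
  funext S
  unfold dn
  rw [exd_card_comp e m S]

theorem exd_dn_add {c : ι → ℕ} {P : Type} [Finite P] (m : P → Finset ι) (S : Finset ι) (l : ℕ) :
    dn c (Sum.elim m fun _ : Fin l => S) = modK (dn c m) S (l / pc c S) := by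
  funext S'
  unfold dn modK
  rw [exd_card_elim]
  by_cases h : S' = S
  · subst h
    rw [if_pos rfl]
    have h1 : Nat.card {x : Fin l // S' = S'} = l := by
      rw [Nat.card_congr (Equiv.subtypeUnivEquiv fun _ => rfl), Nat.card_eq_fintype_card,
        Fintype.card_fin]
    rw [h1]
    push_cast
    ring
  · rw [if_neg h]
    have h1 : Nat.card {x : Fin l // S = S'} = 0 := by
      have : IsEmpty {x : Fin l // S = S'} := ⟨fun x => h x.2.symm⟩
      exact Nat.card_of_isEmpty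
    rw [h1, add_zero, add_zero]

theorem exd_FF_add {c : ι → ℕ} {P : Type} [Finite P] (m : P → Finset ι) {S : Finset ι} (hS : S ≠ ∅)
    {J₀ : Finset ι} (hSJ : S ⊆ J₀) (l : ℕ) :
    FF (dn c (Sum.elim m fun _ : Fin l => S)) J₀ =
      FF (dn c m) J₀ - l / pc c S * FF (dn c m) (J₀ \ S) := by
  have h1 := (isF_FF (dn c m)).mod hS (l / pc c S)
  rw [← exd_dn_add] at h1
  rw [(isF_FF _).unique h1]
  unfold modF
  rw [if_pos hSJ]

/-- The difference of the dimension and the virtual dimension. -/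
noncomputable def exd_dl (c : ι → ℕ) (J₀ : Finset ι) {P : Type} (m : P → Finset ι) : ℚ :=
  (TS ι c).gd m - pc c univ * FF (dn c m) J₀

theorem exd_dl_comp (c : ι → ℕ) (J₀ : Finset ι) {P Q : Type} (e : Q ≃ P) (m : P → Finset ι) :
    exd_dl c J₀ (fun x => m (e x)) = exd_dl c J₀ m := by
  unfold exd_dl
  rw [gd_comp_equiv, exd_dn_comp]

/-- Exactness for the slots `J`. -/
def Exac (c : ι → ℕ) (κ : Finset ι → ℚ) (J : Finset ι) : Prop :=
  ∀ (P : Type) [Fintype P] (m : P → Finset ι), (∀ x, m x ⊆ J ∧ m x ≠ ∅) →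
    (∀ S ⊆ J, S ≠ ∅ → (Nat.card {x // m x = S} : ℚ) ≤ κ S * pc c S) →
      ((TS ι c).gd m : ℚ) = pc c univ * FF (dn c m) J

theorem exd_dl_step {c : ι → ℕ} (hc : ∀ i, 0 < c i) {κ : Finset ι → ℚ} {J₀ : Finset ι}
    (hEx : ∀ J, J ⊂ J₀ → Exac c κ J) {P : Type} [Fintype P] (m : P → Finset ι)
    (hm : ∀ x, m x ⊆ J₀ ∧ m x ≠ ∅) (S : Finset ι) (hSJ : S ⊆ J₀) (hS : S ≠ ∅)
    (h : ∀ S' ⊆ J₀ \ S, S' ≠ ∅ → (Nat.card {x // m x = S'} : ℚ) ≤ κ S' * pc c S') :
    exd_dl c J₀ m ≤ exd_dl c J₀ (Sum.elim m fun _ : Unit => S) := by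
  classical
  have hpc := semi_pc_pos hc S
  have e1 : exd_dl c J₀ (Sum.elim m fun _ : Unit => S) = exd_dl c J₀ (Sum.elim m fun _ : Fin 1 => S) := by
    rw [← exd_dl_comp c J₀ (Equiv.sumCongr (Equiv.refl P) (Equiv.ofUnique (Fin 1) Unit))
      (Sum.elim m fun _ : Unit => S)]
    congr 1
    funext x
    rcases x with x | x <;> rfl
  have e2 : (TS ι c).gd (Sum.elim m fun _ : Unit => S) =
      (TS ι c).gd (Sum.elim m fun _ : Fin 1 => S) := by
    rw [← gd_comp_equiv (TS ι c) (Equiv.sumCongr (Equiv.refl P) (Equiv.ofUnique (Fin 1) Unit))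
      (Sum.elim m fun _ : Unit => S)]
    congr 1
    funext x
    rcases x with x | x <;> rfl
  rw [e1]
  unfold exd_dl
  rw [exd_FF_add m hS hSJ 1]
  have h1 := exd_drop hc m S
  rw [e2] at h1
  have hcard : ∀ S' ⊆ J₀ \ S,
      Nat.card {x : {x // Disjoint (m x) S} // m x.1 = S'} = Nat.card {x // m x = S'} := by
    intro S' hS'
    refine Nat.card_congr ⟨fun x => ⟨x.1.1, x.2⟩, fun x => ⟨⟨x.1, ?_⟩, x.2⟩, fun _ => rfl,
      fun _ => rfl⟩
    rw [x.2]
    exact Finset.disjoint_of_subset_left hS' Finset.sdiff_disjoint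
  have h2 := hEx (J₀ \ S) (by
    refine Finset.ssubset_iff_subset_ne.2 ⟨Finset.sdiff_subset, fun h0 => ?_⟩
    obtain ⟨j, hj⟩ := Finset.nonempty_iff_ne_empty.2 hS
    have h3 : j ∈ J₀ \ S := by rw [h0]; exact hSJ hj
    exact (Finset.mem_sdiff.1 h3).2 hj) _ (fun x : {x // Disjoint (m x) S} => m x.1)
    (fun x => ⟨fun j hj => Finset.mem_sdiff.2 ⟨(hm x.1).1 hj, Finset.disjoint_left.1 x.2 hj⟩,
      (hm x.1).2⟩) (fun S' hS' hS0 => by
      rw [hcard S' hS']
      exact h S' hS' hS0)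
  have h3 : FF (dn c fun x : {x // Disjoint (m x) S} => m x.1) (J₀ \ S) =
      FF (dn c m) (J₀ \ S) := by
    refine exd_congr fun S' hS' _ => ?_
    unfold dn
    rw [hcard S' hS']
  rw [h2, h3] at h1
  push_cast
  have h4 : pc c univ * (1 / pc c S * FF (dn c m) (J₀ \ S)) =
      pc c univ * FF (dn c m) (J₀ \ S) / pc c S := by
    field_simp
  rw [mul_sub, h4]
  linarith

theorem exd_dl_tel {c : ι → ℕ} (hc : ∀ i, 0 < c i) {κ : Finset ι → ℚ} {J₀ : Finset ι}
    (hEx : ∀ J, J ⊂ J₀ → Exac c κ J) {P : Type} [Finite P] (m : P → Finset ι)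
    (hm : ∀ x, m x ⊆ J₀ ∧ m x ≠ ∅) (Q : Type) [Finite Q] :
    ∀ m' : Q → Finset ι, (∀ x, m' x ⊆ J₀ ∧ m' x ≠ ∅) →
      (∀ x, ∀ S' ⊆ J₀ \ m' x, S' ≠ ∅ →
        (Nat.card {y // Sum.elim m m' y = S'} : ℚ) ≤ κ S' * pc c S') →
      exd_dl c J₀ m ≤ exd_dl c J₀ (Sum.elim m m') := by
  classical
  have : Fintype P := Fintype.ofFinite P
  induction Q using Finite.induction_empty_option with
  | @of_equiv α β e ih =>
    intro m' hm' h
    have e1 : (fun y => Sum.elim m m' (Equiv.sumCongr (Equiv.refl P) e y)) =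
        Sum.elim m fun x => m' (e x) := by
      funext y
      rcases y with y | y <;> rfl
    rw [← exd_dl_comp c J₀ (Equiv.sumCongr (Equiv.refl P) e) (Sum.elim m m'), e1]
    refine ih (fun x => m' (e x)) (fun x => hm' _) fun x S' hS' hS0 => ?_
    rw [← e1, exd_card_comp]
    exact h (e x) S' hS' hS0
  | h_empty =>
    intro m' _ _
    rw [← exd_dl_comp c J₀ (Equiv.sumEmpty P PEmpty).symm (Sum.elim m m')]
    exact le_of_eq rfl
  | @h_option α _ ih =>
    intro m' hm' h
    let e : (P ⊕ α) ⊕ Unit ≃ P ⊕ Option α := (Equiv.sumAssoc P α Unit).trans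
      (Equiv.sumCongr (Equiv.refl P) (Equiv.optionEquivSumPUnit α).symm)
    have e1 : (fun y => Sum.elim m m' (e y)) =
        Sum.elim (Sum.elim m fun x => m' (some x)) fun _ : Unit => m' none := by
      funext y
      rcases y with (y | y) | y <;> rfl
    have hle : ∀ S', Nat.card {y // Sum.elim m (fun x => m' (some x)) y = S'} ≤
        Nat.card {y // Sum.elim m m' y = S'} := by
      intro S'
      rw [← exd_card_comp e (Sum.elim m m') S']
      have e2 : Nat.card {y // Sum.elim m m' (e y) = S'} =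
          Nat.card {y // Sum.elim (Sum.elim m fun x => m' (some x)) (fun _ : Unit => m' none) y =
            S'} := congrArg (fun f : (P ⊕ α) ⊕ Unit → Finset ι => Nat.card {y // f y = S'}) e1
      rw [e2, exd_card_elim (Sum.elim m fun x => m' (some x))]
      exact Nat.le_add_right _ _
    refine (ih (fun x => m' (some x)) (fun x => hm' _) fun x S' hS' hS0 => ?_).trans ?_
    · refine le_trans ?_ (h (some x) S' hS' hS0)
      exact_mod_cast hle S'
    · rw [← exd_dl_comp c J₀ e (Sum.elim m m'), e1]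
      refine exd_dl_step hc hEx _ ?_ _ (hm' none).1 (hm' none).2 fun S' hS' hS0 => ?_
      · rintro (x | x)
        · exact hm x
        · exact hm' _
      · refine le_trans ?_ (h none S' hS' hS0)
        exact_mod_cast hle S'

/-! ### The theorem -/

theorem exact_le (κ : Finset ι → ℚ) (hκ : ∀ S, 0 ≤ κ S) (J₀ : Finset ι)
    (hF : ∀ J ⊆ J₀, 0 < FF κ J) : ∃ N : ℕ, 0 < N ∧ ∀ c : ι → ℕ, (∀ i, 0 < c i ∧ N ∣ c i) →
      ∀ (P : Type) [Fintype P] (m : P → Finset ι), (∀ x, m x ⊆ J₀ ∧ m x ≠ ∅) →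
        (∀ S ⊆ J₀, S ≠ ∅ → (Nat.card {x // m x = S} : ℚ) ≤ κ S * pc c S) →
          ((TS ι c).gd m : ℚ) = pc c univ * FF (dn c m) J₀ := by
  classical
  induction J₀ using Finset.strongInduction with
  | H J₀ ih =>
    rcases J₀.eq_empty_or_nonempty with rfl | ⟨i₀, hi₀⟩
    · refine ⟨1, one_pos, fun c hc P _ m hm _ => ?_⟩
      have : IsEmpty P := ⟨fun x => (hm x).2 (Finset.subset_empty.1 (hm x).1)⟩
      rw [gd_empty, (isF_FF _).empty, mul_one, Fintype.card_pi]
      unfold pc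
      push_cast
      simp only [Fintype.card_fin]
    · -- the divisors
      have h1 : ∀ J : Finset ι, ∃ N : ℕ, 0 < N ∧ (J ⊂ J₀ → ∀ c : ι → ℕ, (∀ i, 0 < c i ∧ N ∣ c i) →
          Exac c κ J) := by
        intro J
        by_cases hJ : J ⊂ J₀
        · obtain ⟨N, hN, h⟩ := ih J hJ fun K hK => hF K (hK.trans hJ.subset)
          exact ⟨N, hN, fun _ c hc P _ m hm hk => h c hc P m hm hk⟩
        · exact ⟨1, one_pos, fun h => absurd h hJ⟩
      choose Nf hNf h1 using h1
      obtain ⟨N₁, hN₁, h2⟩ := crit_add κ hκ J₀ {i₀} (Finset.singleton_subset_iff.2 hi₀)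
        (Finset.singleton_ne_empty i₀) hF
      let N : ℕ := N₁ * ∏ J ∈ J₀.powerset, (Nf J * (κ J).den)
      have hdv : ∀ J ∈ J₀.powerset, Nf J * (κ J).den ∣ N := fun J hJ =>
        (Finset.dvd_prod_of_mem (fun J => Nf J * (κ J).den) hJ).trans (Dvd.intro_left _ rfl)
      refine ⟨N, Nat.mul_pos hN₁ (Finset.prod_pos fun J _ =>
        Nat.mul_pos (hNf J) (Rat.den_pos _)), fun c hc P _ m hm hk => ?_⟩
      have hc0 : ∀ i, 0 < c i := fun i => (hc i).1
      have hEx : ∀ J, J ⊂ J₀ → Exac c κ J := fun J hJ => h1 J hJ c fun i =>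
        ⟨(hc i).1, ((Dvd.intro _ rfl).trans (hdv J (Finset.mem_powerset.2 hJ.subset))).trans
          (hc i).2⟩
      obtain ⟨l, hl, h3⟩ := h2 c fun i => ⟨(hc i).1, (Dvd.intro _ rfl).trans (hc i).2⟩
      -- the nice numbers
      have h4 : ∀ S : Finset ι, ∃ k : ℕ, S ⊆ J₀ → S ≠ ∅ → (k : ℚ) = κ S * pc c S := by
        intro S
        by_cases hS : S ⊆ J₀ ∧ S ≠ ∅
        · obtain ⟨j, hj⟩ := Finset.nonempty_iff_ne_empty.2 hS.2
          have h5 : (κ S).den ∣ ∏ i ∈ S, c i :=
            ((Dvd.intro_left _ rfl).trans ((hdv S (Finset.mem_powerset.2 hS.1)).trans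
              (hc j).2)).trans (Finset.dvd_prod_of_mem _ hj)
          obtain ⟨k, hk⟩ := exists_nat_mul (hκ S) h5
          refine ⟨k, fun _ _ => ?_⟩
          rw [hk]
          unfold pc
          push_cast
          ring
        · exact ⟨0, fun h h' => absurd ⟨h, h'⟩ hS⟩
      choose k hkk using h4
      have hle : ∀ S ⊆ J₀, S ≠ ∅ → Nat.card {x // m x = S} ≤ k S := by
        intro S hS hS0
        have := hk S hS hS0
        rw [← hkk S hS hS0] at this
        exact_mod_cast this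
      -- the missing points
      let g : Finset ι → ℕ := fun S => if S ⊆ J₀ ∧ S ≠ ∅ then k S - Nat.card {x // m x = S} else 0
      let m' : (Σ S : Finset ι, Fin (g S)) → Finset ι := fun x => x.1
      have hm' : ∀ x, m' x ⊆ J₀ ∧ m' x ≠ ∅ := by
        rintro ⟨S, a⟩
        by_contra h
        have h5 : g S = 0 := if_neg h
        exact absurd a.2 (by omega)
      have hgc : ∀ S, Nat.card {x // m' x = S} = g S := by
        intro S
        rw [Nat.card_congr (Equiv.sigmaSubtype (β := fun S => Fin (g S)) S),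
          Nat.card_eq_fintype_card, Fintype.card_fin]
      have hall : ∀ S ⊆ J₀, S ≠ ∅ → (Nat.card {y // Sum.elim m m' y = S} : ℚ) =
          κ S * pc c S := by
        intro S hS hS0
        rw [exd_card_elim, hgc, ← hkk S hS hS0]
        have h5 := hle S hS hS0
        have h6 : g S = k S - Nat.card {x // m x = S} := if_pos ⟨hS, hS0⟩
        rw [h6, Nat.add_sub_cancel' h5]
      have hmm : ∀ y, Sum.elim m m' y ⊆ J₀ ∧ Sum.elim m m' y ≠ ∅ := by
        rintro (y | y)
        · exact hm y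
        · exact hm' y
      -- the inequalities
      have a1 : exd_dl c J₀ (fun x : PEmpty => (PEmpty.elim x : Finset ι)) ≤ exd_dl c J₀ m := by
        have h5 := exd_dl_tel hc0 hEx (fun x : PEmpty => (PEmpty.elim x : Finset ι))
          (fun x => PEmpty.elim x) P m hm (fun x S' hS' hS0 => by
            rw [exd_card_elim, Nat.card_of_isEmpty (α := {x : PEmpty // _}), zero_add]
            exact hk S' (hS'.trans Finset.sdiff_subset) hS0)
        refine h5.trans (le_of_eq ?_)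
        rw [← exd_dl_comp c J₀ (Equiv.emptySum PEmpty P).symm]
        rfl
      have a2 : exd_dl c J₀ m ≤ exd_dl c J₀ (Sum.elim m m') :=
        exd_dl_tel hc0 hEx m hm _ m' hm' fun x S' hS' hS0 =>
          (hall S' (hS'.trans Finset.sdiff_subset) hS0).le
      have a3 : exd_dl c J₀ (Sum.elim m m') ≤
          exd_dl c J₀ (Sum.elim (Sum.elim m m') fun _ : Fin l => {i₀}) := by
        refine exd_dl_tel hc0 hEx _ hmm _ (fun _ : Fin l => {i₀}) (fun _ =>
          ⟨Finset.singleton_subset_iff.2 hi₀, Finset.singleton_ne_empty i₀⟩)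
          fun x S' hS' hS0 => ?_
        rw [exd_card_elim (Sum.elim m m')]
        have h5 : Nat.card {x : Fin l // ({i₀} : Finset ι) = S'} = 0 := by
          have : IsEmpty {x : Fin l // ({i₀} : Finset ι) = S'} := ⟨fun x => by
            have h6 : i₀ ∈ J₀ \ {i₀} := hS' (by rw [← x.2]; exact Finset.mem_singleton_self _)
            exact (Finset.mem_sdiff.1 h6).2 (Finset.mem_singleton_self _)⟩
          exact Nat.card_of_isEmpty
        rw [h5, add_zero]
        exact (hall S' (hS'.trans Finset.sdiff_subset) hS0).le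
      have a4 : exd_dl c J₀ (Sum.elim (Sum.elim m m') fun _ : Fin l => {i₀}) = 0 := by
        unfold exd_dl
        rw [h3 _ (Sum.elim m m') fun S hS hS0 => (hall S hS hS0).ge,
          exd_FF_add _ (Finset.singleton_ne_empty i₀) (Finset.singleton_subset_iff.2 hi₀)]
        have h5 : ∀ J ⊆ J₀, FF (dn c (Sum.elim m m')) J = FF κ J := by
          intro J hJ
          refine exd_congr fun S hS hS0 => ?_
          unfold dn
          rw [hall S (hS.trans hJ) hS0, mul_div_assoc, div_self (semi_pc_pos hc0 S).ne', mul_one]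
        rw [h5 _ (subset_refl _), h5 _ Finset.sdiff_subset, hl]
        have h6 := (semi_pc_pos hc0 {i₀}).ne'
        have h7 := (hF _ (Finset.sdiff_subset : J₀ \ {i₀} ⊆ J₀)).ne'
        field_simp
        push_cast
        ring
      have a5 : exd_dl c J₀ (fun x : PEmpty => (PEmpty.elim x : Finset ι)) = 0 := by
        unfold exd_dl
        have h5 : FF (dn c fun x : PEmpty => (PEmpty.elim x : Finset ι)) J₀ = FF (fun _ => 0) J₀ := by
          refine exd_congr fun S _ _ => ?_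
          unfold dn
          rw [Nat.card_of_isEmpty]
          simp
        have h6 : FF (fun _ : Finset ι => (0 : ℚ)) J₀ = 1 := by
          have h7 : IsF (fun _ : Finset ι => (0 : ℚ)) fun _ => 1 := ⟨rfl, fun I i _ => by simp⟩
          rw [(isF_FF _).unique h7]
        rw [gd_empty, h5, h6, mul_one, Fintype.card_pi]
        unfold pc
        push_cast
        simp only [Fintype.card_fin, sub_self]
      have a6 : exd_dl c J₀ m = 0 := by linarith
      unfold exd_dl at a6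
      linarith

end Pool.Agent.GD.BE

end
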