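import Pool.Agent.H94.LP7.M23
import Pool.Agent.H94.LP7.M24
import Pool.Agent.H94.LP7.M29
import Pool.Agent.H94.LP7.M38
import Pool.Agent.H94.LP7.M39
import Pool.Agent.H94.LP7.M47

/-! The parts of this file: GD.BE.AtAI, GD.BE.Strict. -/

section

/-!
# General d, block BETA, module AtAI: the general facts at algebraically independent base positions

Proofs: the statement is invariant under automorphisms (`KE_sb`, `V_sb`, `Dep_sb`, `finrank_sb`: replace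
`E` by `sb σ.symm E`), holds generally (`semi`, `exact_le` + `gn_gd`), so holds at all independent
positions (`of_gn`); the additional points are chosen by `ai_extend`, and `gE_le`.
-/

set_option autoImplicit false
set_option linter.unusedVariables false

namespace Pool.Agent.GD.BE

open Finset MvPolynomial Module Pool.Agent.H51.TB

variable {ι : Type} [Fintype ι] [DecidableEq ι]

/-- Independent positions extend. -/
private theorem ai_ext {P₀ P₁ X : Type} [Finite P₀] [Finite P₁] [Finite X] (r : P₀ → X → ℂ)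
    (hr : AI r) : ∃ y : P₁ → X → ℂ, AI (Sum.elim r y) := by
  obtain ⟨y, hy, _⟩ := ai_extend (P₁ := P₁) r hr (Pr := fun _ => True)
    ⟨1, one_ne_zero, fun _ _ => trivial⟩
  exact ⟨y, hy⟩

/-- The product over all slots. -/
private theorem pc_compl (c : ι → ℕ) (J : Finset ι) : pc c univ = pc c Jᶜ * pc c J := by
  unfold pc
  rw [mul_comm]
  exact (Finset.prod_mul_prod_compl J fun i => (c i : ℚ)).symm

/-- The dimension on the slots `J` at an independent position. -/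
private theorem dep_ai {c : ι → ℕ} (hc : ∀ i, 0 < c i) (J : Finset ι) {P : Type} [Fintype P]
    (m : P → Finset ι) (hm : ∀ x, m x ⊆ J) (p : P → (Σ i, Fin (c i)) → ℂ) (hp : AI p) {f : ℚ}
    (h : ((TS ι c).gd m : ℚ) = pc c univ * f) :
    (finrank ℂ ((TS ι c).V m p ⊓ Dep c J : Submodule ℂ ((∀ i, Fin (c i)) → ℂ)) : ℚ) =
      pc c J * f := by
  have h1 := dep_dim hc J m hm p
  rw [ai_gd m p hp, h, pc_compl c J, mul_assoc] at h1
  exact (mul_left_cancel₀ (semi_pc_pos hc Jᶜ).ne' h1).symm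

/-- Semistability at independent base positions. -/
theorem semi_ai (T I : Finset ι) (hI : I ⊆ T) (hT : Tᶜ ≠ ∅) (κ : Finset ι → ℚ)
    (hκ : ∀ S, 0 ≤ κ S) (hF : ∀ J ⊆ I ∪ Tᶜ, 0 < FF κ J) :
    ∃ N : ℕ, 0 < N ∧ ∀ c : ι → ℕ, (∀ i, 0 < c i ∧ N ∣ c i) →
      (∃ l : ℕ, (l : ℚ) = lam c T I κ) ∧
      ∀ (P₀ P₁ : Type) [Fintype P₀] [Fintype P₁] (m₀ : P₀ → Finset ι) (m₁ : P₁ → Finset ι),
        (∀ S ⊆ I ∪ Tᶜ, S ≠ ∅ → κ S * pc c S ≤ (Nat.card {x // Sum.elim m₀ m₁ x = S} : ℚ)) →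
          ∀ r : P₀ → (Σ i, Fin (c i)) → ℂ, AI r → ∀ E : Submodule ℂ ((∀ i, Fin (c i)) → ℂ),
            (gE T m₀ r m₁ E : ℚ) ≤ lam c T I κ * finrank ℂ E := by
  obtain ⟨N, hN, h⟩ := semi T I hI hT κ hκ hF
  refine ⟨N, hN, fun c hc => ?_⟩
  obtain ⟨hl, h1⟩ := h c hc
  refine ⟨hl, fun P₀ P₁ _ _ m₀ m₁ hm r hr E => ?_⟩
  obtain ⟨y, hy⟩ := ai_ext (P₁ := P₁) r hr
  have h2 := of_gn (Pr := fun p => ∀ E : Submodule ℂ ((∀ i, Fin (c i)) → ℂ),
      (finrank ℂ (KE T (Sum.elim m₀ m₁) p E) : ℚ) ≤ lam c T I κ * finrank ℂ E) (by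
    intro σ p hp E
    have h3 := hp (sb σ.symm E)
    have h4 := KE_sb σ T (Sum.elim m₀ m₁) p (sb σ.symm E)
    rw [sb_sb] at h4
    rw [h4, finrank_sb]
    rw [finrank_sb σ.symm E] at h3
    exact h3) (h1 (P₀ ⊕ P₁) (Sum.elim m₀ m₁) hm) (Sum.elim r y) hy
  refine le_trans ?_ (h2 E)
  exact_mod_cast gE_le T m₀ r m₁ E y

/-- The dimension of the base space at independent positions. -/
theorem base_ai (I : Finset ι) (κ : Finset ι → ℚ) (hκ : ∀ S, 0 ≤ κ S)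
    (hF : ∀ J ⊆ I, 0 < FF κ J) :
    ∃ N : ℕ, 0 < N ∧ ∀ c : ι → ℕ, (∀ i, 0 < c i ∧ N ∣ c i) →
      ∀ (P₀ : Type) [Fintype P₀] (m₀ : P₀ → Finset ι), (∀ x, m₀ x ⊆ I ∧ m₀ x ≠ ∅) →
        (∀ S ⊆ I, S ≠ ∅ → (Nat.card {x // m₀ x = S} : ℚ) = κ S * pc c S) →
          ∀ r : P₀ → (Σ i, Fin (c i)) → ℂ, AI r →
            (finrank ℂ ((TS ι c).V m₀ r ⊓ Dep c I : Submodule ℂ ((∀ i, Fin (c i)) → ℂ)) : ℚ) =
              bI c I κ := by
  obtain ⟨N, hN, h⟩ := exact_le κ hκ I hF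
  refine ⟨N, hN, fun c hc P₀ _ m₀ hm hk r hr => ?_⟩
  have hc0 : ∀ i, 0 < c i := fun i => (hc i).1
  have h1 := h c hc P₀ m₀ hm fun S hS hS0 => (hk S hS hS0).le
  have h2 : FF (dn c m₀) I = FF κ I := by
    refine exd_congr fun S hS hS0 => ?_
    unfold dn
    rw [hk S hS hS0, mul_div_assoc, div_self (semi_pc_pos hc0 S).ne', mul_one]
  rw [h2] at h1
  exact dep_ai hc0 I m₀ (fun x => (hm x).1) r hr h1

/-- Exactness for the whole base space (`E` = the tensors on `I` killed by the base points). -/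
theorem full_ai (T I : Finset ι) (hI : I ⊆ T) (κ : Finset ι → ℚ) (hκ : ∀ S, 0 ≤ κ S)
    (hF : ∀ J ⊆ I ∪ Tᶜ, 0 < FF κ J) :
    ∃ N : ℕ, 0 < N ∧ ∀ c : ι → ℕ, (∀ i, 0 < c i ∧ N ∣ c i) →
      ∀ (P₀ P₁ : Type) [Fintype P₀] [Fintype P₁] (m₀ : P₀ → Finset ι) (m₁ : P₁ → Finset ι),
        (∀ x, m₀ x ⊆ I ∧ m₀ x ≠ ∅) → (∀ x, m₁ x ⊆ I ∪ Tᶜ ∧ m₁ x ≠ ∅) →
        (∀ S ⊆ I ∪ Tᶜ, S ≠ ∅ → (Nat.card {x // Sum.elim m₀ m₁ x = S} : ℚ) ≤ κ S * pc c S) →
          ∀ r : P₀ → (Σ i, Fin (c i)) → ℂ, AI r →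
            (gE T m₀ r m₁ ((TS ι c).V m₀ r ⊓ Dep c I) : ℚ) ≤
              pc c (I ∪ Tᶜ) * FF (dn c (Sum.elim m₀ m₁)) (I ∪ Tᶜ) := by
  obtain ⟨N, hN, h⟩ := exact_le κ hκ (I ∪ Tᶜ) hF
  refine ⟨N, hN, fun c hc P₀ P₁ _ _ m₀ m₁ hm₀ hm₁ hk r hr => ?_⟩
  have hc0 : ∀ i, 0 < c i := fun i => (hc i).1
  have hm : ∀ x, Sum.elim m₀ m₁ x ⊆ I ∪ Tᶜ ∧ Sum.elim m₀ m₁ x ≠ ∅ := by
    rintro (x | x)
    · exact ⟨(hm₀ x).1.trans Finset.subset_union_left, (hm₀ x).2⟩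
    · exact hm₁ x
  have h1 := h c hc (P₀ ⊕ P₁) (Sum.elim m₀ m₁) hm hk
  obtain ⟨y, hy⟩ := ai_ext (P₁ := P₁) r hr
  have h2 := dep_ai hc0 (I ∪ Tᶜ) (Sum.elim m₀ m₁) (fun x => (hm x).1) (Sum.elim r y) hy h1
  rw [← h2]
  have h3 : KE T (Sum.elim m₀ m₁) (Sum.elim r y) ((TS ι c).V m₀ r ⊓ Dep c I) ≤
      (TS ι c).V (Sum.elim m₀ m₁) (Sum.elim r y) ⊓ Dep c (I ∪ Tᶜ) := by
    intro G hG
    rw [mem_KE] at hG
    refine Submodule.mem_inf.2 ⟨(mem_TS _ _ _).2 hG.2, ?_⟩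
    intro w w' hw
    have e1 : mix T w w = w := by
      funext j
      unfold mix
      split_ifs <;> rfl
    have e2 : mix T w' w = w' := by
      funext j
      unfold mix
      split_ifs with hj
      · rfl
      · exact hw j (Finset.mem_union_right _ (Finset.mem_compl.2 hj))
    have h4 := (Submodule.mem_inf.1 (hG.1 w)).2 w w' fun i hi =>
      hw i (Finset.mem_union_left _ hi)
    have h5 : G (mix T w w) = G (mix T w' w) := h4
    rwa [e1, e2] at h5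
  have h4 := (gE_le T m₀ r m₁ ((TS ι c).V m₀ r ⊓ Dep c I) y).trans (Submodule.finrank_mono h3)
  exact_mod_cast h4

end Pool.Agent.GD.BE

end

section

/-!
# General d, block BETA, module Strict: strictness

INDUCTION on `#I` (the active base slots).  `I = ∅`: `bI = 1`.  Otherwise `i₀ ∈ I`, `I' = I.erase i₀`,
`M = I' ∪ Tᶜ`, `A₀ ⊆ Tᶜ` with `#A₀ = e - 1` (`e = #Tᶜ ≥ 2`), `S₀ = insert i₀ A₀` (`#S₀ = e`, `S₀ ≠ Tᶜ`,
`κ S₀ > 0`), `lam = l ∈ ℕ`, `Φ = pc c (M \ A₀) * FF κ (M \ A₀) > 0` (an integer for divisible `c`).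

LINES (`lines` for `P = P₀ ⊕ P₁`): `L B = sh B * c i₀`, `q B = sg B * pc c B`.

Suppose `Str` fails at one independent `r`; then it fails at all of them (`Str_ai`).  Fix an independent
`r` and let `r* = spc i₀ m₀ line₀ r`.  CLAIM (`st_claim`): for every `E ≤ Dep c I`, `E ≠ ⊥`, `h = finrank E`:
(1) `∃ y, finrank KE(r*, y, E) ≤ l * h - 1`, or
(2) `Φ ≤ l * h` and `∃ y` for `m₁` and one more point of kind `S₀` with `finrank KE ≤ l * h - Φ`.
END.  `KE_near` for `D = Dep c I` and `ai_dense`: an independent `r'` for which all `E` satisfy (1) or (2).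
`r'` is bad: there is `E` with `gE(m₁) = l h`.  So (2).  But `gE_slope` for `S₀`, `N* = κ S₀ * pc c S₀`, and
`semi_ai` for `κ₋` (`lam₋ h = l h + (h / bI) N* Φ`) give `gE(m₁ + S₀) ≥ l h - (h / bI) Φ > l h - Φ`,
a contradiction.
-/

set_option autoImplicit false
set_option linter.unusedSectionVars false
set_option linter.unusedVariables false

namespace Pool.Agent.GD.BE

open Finset MvPolynomial Module Pool.Agent.H51.TB Topology

variable {ι : Type} [Fintype ι] [DecidableEq ι] {c : ι → ℕ}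

theorem st_KE_comp (T : Finset ι) {P Q : Type} (m : P → Finset ι) (p : P → (Σ i, Fin (c i)) → ℂ)
    (E : Submodule ℂ ((∀ i, Fin (c i)) → ℂ)) (e : Q → P) (he : Function.Surjective e) :
    KE T (fun i => m (e i)) (fun i => p (e i)) E = KE T m p E := by
  ext G
  rw [mem_KE, mem_KE]
  refine and_congr Iff.rfl ⟨fun h i w => ?_, fun h i w => h (e i) w⟩
  obtain ⟨j, rfl⟩ := he i
  exact h j w

theorem st_gE_mono (T : Finset ι) {P₀ P₁ P₂ : Type} (m₀ : P₀ → Finset ι)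
    (r : P₀ → (Σ i, Fin (c i)) → ℂ) (m₁ : P₁ → Finset ι) (m₂ : P₂ → Finset ι)
    (E : Submodule ℂ ((∀ i, Fin (c i)) → ℂ)) (f : P₂ → P₁) (hf : Function.Injective f)
    (hm : ∀ i, m₁ (f i) = m₂ i) : gE T m₀ r m₁ E ≤ gE T m₀ r m₂ E := by
  classical
  obtain ⟨y, hy⟩ := exists_gE T m₀ r m₂ E
  let Y : P₁ → (Σ i, Fin (c i)) → ℂ := fun i => if h : ∃ j, f j = i then y h.choose else 0
  have hY : ∀ j, Y (f j) = y j := by
    intro j
    have h : ∃ j', f j' = f j := ⟨j, rfl⟩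
    simp only [Y, dif_pos h]
    rw [hf h.choose_spec]
  refine (gE_le T m₀ r m₁ E Y).trans ?_
  rw [← hy]
  refine Submodule.finrank_mono fun G hG => ?_
  rw [mem_KE] at hG ⊢
  refine ⟨hG.1, ?_⟩
  rintro (i | i) w
  · exact hG.2 (Sum.inl i) w
  · have h1 := hG.2 (Sum.inr (f i)) w
    show ctr (m₂ i) (y i) G w = 0
    rw [← hm i, ← hY i]
    exact h1

theorem st_mix_self (T : Finset ι) (w : ∀ i, Fin (c i)) : mix T w w = w := by
  funext j
  unfold mix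
  rw [ite_self]

theorem st_gE_bot (T : Finset ι) {P₀ P₁ : Type} (m₀ : P₀ → Finset ι)
    (r : P₀ → (Σ i, Fin (c i)) → ℂ) (m₁ : P₁ → Finset ι) : gE T m₀ r m₁ ⊥ = 0 := by
  have h1 := gE_le T m₀ r m₁ ⊥ 0
  have h2 : KE T (Sum.elim m₀ m₁) (Sum.elim r 0) (⊥ : Submodule ℂ ((∀ i, Fin (c i)) → ℂ)) = ⊥ := by
    rw [Submodule.eq_bot_iff]
    intro G hG
    rw [mem_KE] at hG
    funext w
    have h3 := congrFun ((Submodule.mem_bot ℂ).1 (hG.1 w)) w
    rwa [st_mix_self] at h3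
  rw [h2, finrank_bot] at h1
  omega

theorem st_ctr_empty (y : (Σ i, Fin (c i)) → ℂ) (G : (∀ i, Fin (c i)) → ℂ) (w : ∀ i, Fin (c i)) :
    ctr ∅ y G w = G w := by
  unfold ctr
  rw [Finset.sum_eq_single w]
  · simp
  · intro e' _ he'
    exact if_neg fun h => he' (funext fun j => h j (Finset.notMem_empty j))
  · exact fun h => absurd (mem_univ w) h

/-- A point of kind `∅` kills everything. -/
theorem st_gE_dead (T : Finset ι) {P₀ P₁ : Type} (m₀ : P₀ → Finset ι)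
    (r : P₀ → (Σ i, Fin (c i)) → ℂ) (m₁ : P₁ → Finset ι) (E : Submodule ℂ ((∀ i, Fin (c i)) → ℂ))
    (h : ∃ i, Sum.elim m₀ m₁ i = ∅) : gE T m₀ r m₁ E = 0 := by
  obtain ⟨i, hi⟩ := h
  have h1 := gE_le T m₀ r m₁ E 0
  have h2 : KE T (Sum.elim m₀ m₁) (Sum.elim r 0) E = ⊥ := by
    rw [Submodule.eq_bot_iff]
    intro G hG
    rw [mem_KE] at hG
    funext w
    have h3 := hG.2 i w
    rw [hi, st_ctr_empty] at h3
    exact h3
  rw [h2, finrank_bot] at h1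
  omega

/-- The degeneration at the lines of the slot `i₀`. -/
theorem st_sum (T : Finset ι) {i₀ : ι} (hi₀ : i₀ ∈ T) (rk : Fin (c i₀) → ℕ)
    (hrk : Function.Injective rk) {P₀ P₁ : Type} [Fintype P₀] [Fintype P₁] (m₀ : P₀ → Finset ι)
    (m₁ : P₁ → Finset ι) (line₀ : P₀ → Fin (c i₀)) (line₁ : P₁ → Fin (c i₀))
    (r : P₀ → (Σ i, Fin (c i)) → ℂ) (E : Submodule ℂ ((∀ i, Fin (c i)) → ℂ)) :
    ∃ y : P₁ → (Σ i, Fin (c i)) → ℂ,
      finrank ℂ (KE T (Sum.elim m₀ m₁) (Sum.elim (spc i₀ m₀ line₀ r) y) E) ≤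
        ∑ x, gE T (mx i₀ m₀ line₀ x) (fun i => r i.1) (mx i₀ m₁ line₁ x) (Ex i₀ rk E x) := by
  classical
  have h1 : ∀ x ∈ (univ : Finset (Fin (c i₀))), Gn P₁ (Σ i, Fin (c i)) fun y =>
      finrank ℂ (KE T (Sum.elim (mx i₀ m₀ line₀ x) (mx i₀ m₁ line₁ x))
        (Sum.elim (fun i => r i.1) fun i : {i // i₀ ∉ m₁ i ∨ line₁ i = x} => y i.1)
          (Ex i₀ rk E x)) =
        gE T (mx i₀ m₀ line₀ x) (fun i => r i.1) (mx i₀ m₁ line₁ x) (Ex i₀ rk E x) := by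
    intro x _
    exact Gn.comap (fun i : {i // i₀ ∉ m₁ i ∨ line₁ i = x} => i.1) Subtype.val_injective
      (gn_gE T (mx i₀ m₀ line₀ x) (fun i => r i.1) (mx i₀ m₁ line₁ x) (Ex i₀ rk E x))
  obtain ⟨y, hy⟩ := (Gn.all univ h1).exists
  refine ⟨spc i₀ m₁ line₁ y, ?_⟩
  have e1 : Sum.elim (spc i₀ m₀ line₀ r) (spc i₀ m₁ line₁ y) =
      spc i₀ (Sum.elim m₀ m₁) (Sum.elim line₀ line₁) (Sum.elim r y) := by
    funext i
    rcases i with i | i <;> rfl
  rw [e1]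
  refine (KE_le_sum T hi₀ rk hrk (Sum.elim m₀ m₁) (Sum.elim line₀ line₁) (Sum.elim r y) E).trans
    (sum_le_sum fun x _ => ?_)
  rw [← hy x (mem_univ x)]
  let e : ({i // i₀ ∉ m₀ i ∨ line₀ i = x} ⊕ {i // i₀ ∉ m₁ i ∨ line₁ i = x}) →
      {i // i₀ ∉ Sum.elim m₀ m₁ i ∨ Sum.elim line₀ line₁ i = x} :=
    Sum.elim (fun i => ⟨Sum.inl i.1, i.2⟩) fun i => ⟨Sum.inr i.1, i.2⟩
  have he : Function.Surjective e := by
    rintro ⟨i | i, h⟩
    · exact ⟨Sum.inl ⟨i, h⟩, rfl⟩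
    · exact ⟨Sum.inr ⟨i, h⟩, rfl⟩
  rw [← st_KE_comp T _ _ _ e he]
  have e2 : (fun i => (Sum.elim m₀ m₁ (e i).1).erase i₀) =
      Sum.elim (mx i₀ m₀ line₀ x) (mx i₀ m₁ line₁ x) := by
    funext i
    rcases i with i | i <;> rfl
  have e3 : (fun i => Sum.elim r y (e i).1) =
      Sum.elim (fun i => r i.1) fun i : {i // i₀ ∉ m₁ i ∨ line₁ i = x} => y i.1 := by
    funext i
    rcases i with i | i <;> rfl
  rw [e2, e3]

/-- The facts about a component. -/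
structure Cmp (c : ι → ℕ) (T I : Finset ι) (κ : Finset ι → ℚ) : Prop where
  semi : ∀ (P₀ P₁ : Type) [Fintype P₀] [Fintype P₁] (m₀ : P₀ → Finset ι) (m₁ : P₁ → Finset ι),
    Cfg c T I κ m₀ m₁ → ∀ r : P₀ → (Σ i, Fin (c i)) → ℂ, AI r →
      ∀ E : Submodule ℂ ((∀ i, Fin (c i)) → ℂ), (gE T m₀ r m₁ E : ℚ) ≤ lam c T I κ * finrank ℂ E
  base : ∀ (P₀ P₁ : Type) [Fintype P₀] [Fintype P₁] (m₀ : P₀ → Finset ι) (m₁ : P₁ → Finset ι),
    Cfg c T I κ m₀ m₁ → ∀ r : P₀ → (Σ i, Fin (c i)) → ℂ, AI r →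
      (finrank ℂ ((TS ι c).V m₀ r ⊓ Dep c I : Submodule ℂ ((∀ i, Fin (c i)) → ℂ)) : ℚ) = bI c I κ
  str : ∀ (P₀ P₁ : Type) [Fintype P₀] [Fintype P₁] (m₀ : P₀ → Finset ι) (m₁ : P₁ → Finset ι),
    Cfg c T I κ m₀ m₁ → ∀ r : P₀ → (Σ i, Fin (c i)) → ℂ, AI r → Str T I κ m₀ m₁ r

/-- THE CLAIM: a special base position. -/
theorem st_claim (hc : ∀ i, 0 < c i) {T I : Finset ι} (hT : 2 ≤ (Tᶜ : Finset ι).card)
    (hI : I ⊆ T) {κ : Finset ι → ℚ} (hA : Adm T I κ) {i₀ : ι} (hi₀ : i₀ ∈ I) {A₀ : Finset ι}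
    (hA₀ : A₀ ⊆ Tᶜ) (hA₀n : A₀ ≠ ∅) {P₀ P₁ : Type} [Fintype P₀] [Fintype P₁]
    {m₀ : P₀ → Finset ι} {m₁ : P₁ → Finset ι} (hCfg : Cfg c T I κ m₀ m₁)
    (τ : Fin (c i₀) → Finset ι) (line₀ : P₀ → Fin (c i₀)) (line₁ : P₁ → Fin (c i₀))
    (hτ : ∀ x, τ x ⊆ I.erase i₀ ∪ Tᶜ)
    (hl : ∀ i, i₀ ∈ Sum.elim m₀ m₁ i →
      (Sum.elim m₀ m₁ i).erase i₀ = τ (Sum.elim line₀ line₁ i))
    (hq : ∀ x, (Nat.card {i // i₀ ∈ Sum.elim m₀ m₁ i ∧ Sum.elim line₀ line₁ i = x} : ℚ) =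
      sg T I κ i₀ (τ x) * pc c (τ x))
    (k₀ : Fin (c i₀)) (hk₀ : τ k₀ = A₀)
    (hC : ∀ x, τ x ≠ ∅ → Cmp c T (I.erase i₀) (kC T I κ i₀ (τ x)))
    (l φ : ℕ) (hlam : (l : ℚ) = lam c T I κ)
    (hfull : ∀ r' : {i // i₀ ∉ m₀ i ∨ line₀ i = k₀} → (Σ i, Fin (c i)) → ℂ, AI r' →
      (gE T (mx i₀ m₀ line₀ k₀) r' (Sum.elim (mx i₀ m₁ line₁ k₀) fun _ : Unit => A₀)
        ((TS ι c).V (mx i₀ m₀ line₀ k₀) r' ⊓ Dep c (I.erase i₀)) : ℚ) + φ ≤
          l * bI c (I.erase i₀) (kC T I κ i₀ A₀))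
    (r : P₀ → (Σ i, Fin (c i)) → ℂ) (hr : AI r) (E : Submodule ℂ ((∀ i, Fin (c i)) → ℂ))
    (hE : E ≤ Dep c I) (hE0 : E ≠ ⊥) :
    (∃ y : P₁ → (Σ i, Fin (c i)) → ℂ,
      finrank ℂ (KE T (Sum.elim m₀ m₁) (Sum.elim (spc i₀ m₀ line₀ r) y) E) + 1 ≤
        l * finrank ℂ E) ∨
    ∃ y : P₁ ⊕ Unit → (Σ i, Fin (c i)) → ℂ,
      finrank ℂ (KE T (Sum.elim m₀ (Sum.elim m₁ fun _ : Unit => insert i₀ A₀))
        (Sum.elim (spc i₀ m₀ line₀ r) y) E) + φ ≤ l * finrank ℂ E := by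
  classical
  have hi₀T : i₀ ∈ T := hI hi₀
  let rk : Fin (c i₀) → ℕ := fun x => x.1
  have hrk : Function.Injective rk := fun x y h => Fin.ext h
  have hcfg : ∀ x, τ x ≠ ∅ → Cfg c T (I.erase i₀) (kC T I κ i₀ (τ x)) (mx i₀ m₀ line₀ x)
      (mx i₀ m₁ line₁ x) := fun x hx =>
    comp_cfg hI hCfg hi₀ line₀ line₁ x (τ x) (hτ x) hx
      (fun i h1 h2 => by rw [← h2]; exact hl (Sum.inl i) h1)
      (fun i h1 h2 => by rw [← h2]; exact hl (Sum.inr i) h1) (hq x)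
  have hAI : ∀ x, AI fun i : {i : P₀ // i₀ ∉ m₀ i ∨ line₀ i = x} => r i.1 := fun x =>
    hr.comp _ Subtype.val_injective
  have hlx : ∀ x, τ x ≠ ∅ → lam c T (I.erase i₀) (kC T I κ i₀ (τ x)) = l := fun x hx => by
    rw [hlam]
    exact lam_kC hT hI hA hi₀ (hτ x) hx c
  have hpcpos : ∀ S : Finset ι, 0 < pc c S := semi_pc_pos hc
  have hlpos : 0 < l := by
    have h1 : 0 < lam c T I κ := mul_pos (hpcpos _)
      (div_pos (hA.F _ (subset_refl _)) (hA.F _ subset_union_left))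
    rw [← hlam] at h1
    exact_mod_cast h1
  -- a point on every line
  have hpt : ∀ x, ∃ i, i₀ ∈ Sum.elim m₀ m₁ i ∧ Sum.elim line₀ line₁ i = x := by
    intro x
    have h1 : (0 : ℚ) < Nat.card {i // i₀ ∈ Sum.elim m₀ m₁ i ∧ Sum.elim line₀ line₁ i = x} := by
      rw [hq x]
      exact mul_pos (sg_pos hT hI hA hi₀ (hτ x)) (hpcpos _)
    have h2 : 0 < Nat.card {i // i₀ ∈ Sum.elim m₀ m₁ i ∧ Sum.elim line₀ line₁ i = x} := by
      exact_mod_cast h1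
    obtain ⟨⟨i, hi⟩⟩ := (Nat.card_pos_iff.1 h2).1
    exact ⟨i, hi⟩
  let G : Fin (c i₀) → ℕ := fun x =>
    gE T (mx i₀ m₀ line₀ x) (fun i => r i.1) (mx i₀ m₁ line₁ x) (Ex i₀ rk E x)
  have hG1 : ∀ x, G x ≤ l * finrank ℂ (Ex i₀ rk E x) := by
    intro x
    by_cases hx : τ x = ∅
    · have h1 : G x = 0 := by
        refine st_gE_dead T _ _ _ _ ?_
        obtain ⟨i, hi1, hi2⟩ := hpt x
        have h2 := hl i hi1
        rw [hi2, hx] at h2
        rcases i with i | i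
        · exact ⟨Sum.inl ⟨i, Or.inr hi2⟩, h2⟩
        · exact ⟨Sum.inr ⟨i, Or.inr hi2⟩, h2⟩
      rw [h1]
      exact Nat.zero_le _
    · have h1 := (hC x hx).semi _ _ _ _ (hcfg x hx) _ (hAI x) (Ex i₀ rk E x)
      rw [hlx x hx] at h1
      exact_mod_cast h1
  by_cases h1 : ∃ y : P₁ → (Σ i, Fin (c i)) → ℂ,
      finrank ℂ (KE T (Sum.elim m₀ m₁) (Sum.elim (spc i₀ m₀ line₀ r) y) E) + 1 ≤
        l * finrank ℂ E
  · exact Or.inl h1
  push Not at h1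
  have h3 : ∑ x, l * finrank ℂ (Ex i₀ rk E x) = l * finrank ℂ E := by
    rw [← mul_sum, sum_Ex i₀ rk hrk E]
  have hG : ∀ x, G x = l * finrank ℂ (Ex i₀ rk E x) := by
    by_contra hcon
    push Not at hcon
    obtain ⟨x, hx⟩ := hcon
    have h4 : ∑ x, G x < ∑ x, l * finrank ℂ (Ex i₀ rk E x) :=
      sum_lt_sum (fun x _ => hG1 x) ⟨x, mem_univ x, lt_of_le_of_ne (hG1 x) hx⟩
    obtain ⟨y, hy⟩ := st_sum T hi₀T rk hrk m₀ m₁ line₀ line₁ r E
    have h5 := h1 y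
    have h6 : finrank ℂ (KE T (Sum.elim m₀ m₁) (Sum.elim (spc i₀ m₀ line₀ r) y) E) ≤
      ∑ x, G x := hy
    omega
  by_cases hk : Ex i₀ rk E k₀ = ⊥
  · -- Case A
    exfalso
    obtain ⟨k₁, hk₁⟩ : ∃ k₁, Ex i₀ rk E k₁ ≠ ⊥ := by
      by_contra hcon
      push Not at hcon
      have h4 := sum_Ex i₀ rk hrk E
      rw [sum_eq_zero fun x _ => by rw [hcon x, finrank_bot]] at h4
      exact hE0 (Submodule.finrank_eq_zero.1 h4.symm)
    have hne : k₁ ≠ k₀ := fun h => hk₁ (h ▸ hk)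
    obtain ⟨i₁, hi₁m, hi₁l⟩ : ∃ i₁ : P₁, m₁ i₁ = insert i₀ A₀ ∧ line₁ i₁ = k₀ := by
      obtain ⟨i, hi1, hi2⟩ := hpt k₀
      have h2 := hl i hi1
      rw [hi2, hk₀] at h2
      rcases i with i | i
      · exfalso
        obtain ⟨a, ha⟩ := Finset.nonempty_iff_ne_empty.2 hA₀n
        have h4 : a ∈ (Sum.elim m₀ m₁ (Sum.inl i)).erase i₀ := by rw [h2]; exact ha
        have h5 : a ∈ T := hI ((hCfg.base i).1 (mem_of_mem_erase h4))
        exact Finset.mem_compl.1 (hA₀ ha) h5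
      · refine ⟨i, ?_, hi2⟩
        rw [← h2]
        exact (insert_erase hi1).symm
    have hi₀A : i₀ ∉ A₀ := fun h => Finset.mem_compl.1 (hA₀ h) hi₀T
    have hi₁0 : i₀ ∈ m₁ i₁ := by rw [hi₁m]; exact mem_insert_self _ _
    let line' : P₁ → Fin (c i₀) := Function.update line₁ i₁ k₁
    have hl1 : line' i₁ = k₁ := Function.update_self _ _ _
    have hl2 : ∀ i, i ≠ i₁ → line' i = line₁ i := fun i hi => Function.update_of_ne hi _ _
    obtain ⟨y, hy⟩ := st_sum T hi₀T rk hrk m₀ m₁ line₀ line' r E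
    have hmono : ∀ x, x ≠ k₀ → gE T (mx i₀ m₀ line₀ x) (fun i => r i.1) (mx i₀ m₁ line' x)
        (Ex i₀ rk E x) ≤ G x := by
      intro x hx
      refine st_gE_mono T _ _ _ _ _ (fun i : {i // i₀ ∉ m₁ i ∨ line₁ i = x} =>
        (⟨i.1, ?_⟩ : {i // i₀ ∉ m₁ i ∨ line' i = x})) ?_ ?_
      · rcases i.2 with h | h
        · exact Or.inl h
        · by_cases hi : i.1 = i₁
          · rw [hi, hi₁l] at h
            exact absurd h.symm hx
          · exact Or.inr ((hl2 _ hi).trans h)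
      · intro i j hij
        exact Subtype.ext (congrArg (fun t => t.1) hij)
      · intro i
        rfl
    have h4 : ∑ x, gE T (mx i₀ m₀ line₀ x) (fun i => r i.1) (mx i₀ m₁ line' x)
        (Ex i₀ rk E x) < ∑ x, G x := by
      refine sum_lt_sum (fun x _ => ?_) ⟨k₁, mem_univ _, ?_⟩
      · by_cases hx : x = k₀
        · rw [hx, hk, st_gE_bot]
          exact Nat.zero_le _
        · exact hmono x hx
      · have h5 : 0 < G k₁ := by
          rw [hG k₁]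
          refine Nat.mul_pos hlpos (Nat.pos_of_ne_zero fun h => hk₁ ?_)
          exact Submodule.finrank_eq_zero.1 h
        refine lt_of_le_of_lt ?_ (gE_lt T (mx i₀ m₀ line₀ k₁) (fun i => r i.1)
          (mx i₀ m₁ line₁ k₁) (Ex i₀ rk E k₁) A₀ h5)
        refine st_gE_mono T _ _ _ _ _ (Sum.elim (fun i : {i // i₀ ∉ m₁ i ∨ line₁ i = k₁} =>
          (⟨i.1, ?_⟩ : {i // i₀ ∉ m₁ i ∨ line' i = k₁})) fun _ : Unit => ⟨i₁, Or.inr hl1⟩) ?_ ?_
        · rcases i.2 with h | h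
          · exact Or.inl h
          · by_cases hi : i.1 = i₁
            · rw [hi, hi₁l] at h
              exact absurd h.symm hne
            · exact Or.inr ((hl2 _ hi).trans h)
        · refine Function.Injective.sumElim ?_ (fun _ _ _ => rfl) ?_
          · intro i j hij
            exact Subtype.ext (congrArg (fun t => t.1) hij)
          · intro i _ hij
            have h6 : i.1 = i₁ := congrArg (fun t => t.1) hij
            rcases i.2 with h | h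
            · exact h (h6 ▸ hi₁0)
            · rw [h6, hi₁l] at h
              exact hne h.symm
        · rintro (i | i)
          · rfl
          · show (m₁ i₁).erase i₀ = A₀
            rw [hi₁m, erase_insert hi₀A]
    have h5 := h1 y
    have h6 : ∑ x, G x = l * finrank ℂ E := by
      rw [← h3]
      exact sum_congr rfl fun x _ => hG x
    omega
  · -- Case B
    right
    have hi₀A : i₀ ∉ A₀ := fun h => Finset.mem_compl.1 (hA₀ h) hi₀T
    have hk₀n : τ k₀ ≠ ∅ := by rw [hk₀]; exact hA₀n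
    obtain ⟨y, hy⟩ := st_sum T hi₀T rk hrk m₀ (Sum.elim m₁ fun _ : Unit => insert i₀ A₀) line₀
      (Sum.elim line₁ fun _ : Unit => k₀) r E
    refine ⟨y, ?_⟩
    -- the space at the line `k₀`
    have h4 : Ex i₀ rk E k₀ ≤ (TS ι c).V (mx i₀ m₀ line₀ k₀) fun i => r i.1 := by
      have h5 : gE T (mx i₀ m₀ line₀ k₀) (fun i => r i.1) (mx i₀ m₁ line₁ k₀)
          (Ex i₀ rk E k₀ ⊓ (TS ι c).V (mx i₀ m₀ line₀ k₀) fun i => r i.1) = G k₀ := by
        show sInf _ = sInf _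
        congr 1
        congr 1
        funext y
        rw [KE_inf_base T (mx i₀ m₀ line₀ k₀) (mx i₀ m₁ line₁ k₀) (fun i j hj => by
          exact hI ((hCfg.base i.1).1 (mem_of_mem_erase hj)))]
      have h6 := (hC k₀ hk₀n).semi _ _ _ _ (hcfg k₀ hk₀n) _ (hAI k₀)
        (Ex i₀ rk E k₀ ⊓ (TS ι c).V (mx i₀ m₀ line₀ k₀) fun i => r i.1)
      rw [h5, hG k₀, hlx k₀ hk₀n] at h6
      have h7 : l * finrank ℂ (Ex i₀ rk E k₀) ≤ l * finrank ℂ (Ex i₀ rk E k₀ ⊓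
          (TS ι c).V (mx i₀ m₀ line₀ k₀) fun i => r i.1 :
            Submodule ℂ ((∀ i, Fin (c i)) → ℂ)) := by exact_mod_cast h6
      have h8 := Nat.le_of_mul_le_mul_left h7 hlpos
      have h9 := Submodule.eq_of_le_of_finrank_le inf_le_left h8
      rw [← h9]
      exact inf_le_right
    have h5 : Ex i₀ rk E k₀ = (TS ι c).V (mx i₀ m₀ line₀ k₀) (fun i => r i.1) ⊓
        Dep c (I.erase i₀) := by
      refine Submodule.eq_of_le_of_finrank_le (le_inf h4 (Ex_dep i₀ rk hE k₀)) ?_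
      have h6 := (hC k₀ hk₀n).base _ _ _ _ (hcfg k₀ hk₀n) _ (hAI k₀)
      by_contra hcon
      push Not at hcon
      have h7 : (finrank ℂ (Ex i₀ rk E k₀) : ℚ) < bI c (I.erase i₀) (kC T I κ i₀ (τ k₀)) := by
        rw [← h6]
        exact_mod_cast hcon
      obtain ⟨y', hy'⟩ := (hC k₀ hk₀n).str _ _ _ _ (hcfg k₀ hk₀n) _ (hAI k₀)
        (Ex i₀ rk E k₀) (Ex_dep i₀ rk hE k₀) hk h7
      rw [hlx k₀ hk₀n] at hy'
      have h8 := gE_le T (mx i₀ m₀ line₀ k₀) (fun i => r i.1) (mx i₀ m₁ line₁ k₀)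
        (Ex i₀ rk E k₀) y'
      have h9 : G k₀ < l * finrank ℂ (Ex i₀ rk E k₀) := by
        have h10 : finrank ℂ (KE T (Sum.elim (mx i₀ m₀ line₀ k₀) (mx i₀ m₁ line₁ k₀))
            (Sum.elim (fun i => r i.1) y') (Ex i₀ rk E k₀)) < l * finrank ℂ (Ex i₀ rk E k₀) := by
          exact_mod_cast hy'
        exact lt_of_le_of_lt h8 h10
      rw [hG k₀] at h9
      exact lt_irrefl _ h9
    have h6 : (finrank ℂ (Ex i₀ rk E k₀) : ℚ) = bI c (I.erase i₀) (kC T I κ i₀ A₀) := by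
      rw [h5, ← hk₀]
      exact (hC k₀ hk₀n).base _ _ _ _ (hcfg k₀ hk₀n) _ (hAI k₀)
    have h7 : gE T (mx i₀ m₀ line₀ k₀) (fun i => r i.1)
        (mx i₀ (Sum.elim m₁ fun _ : Unit => insert i₀ A₀) (Sum.elim line₁ fun _ : Unit => k₀) k₀)
        (Ex i₀ rk E k₀) + φ ≤ G k₀ := by
      have h8 := hfull (fun i => r i.1) (hAI k₀)
      rw [← h5, ← h6] at h8
      have h9 : gE T (mx i₀ m₀ line₀ k₀) (fun i => r i.1)
          (Sum.elim (mx i₀ m₁ line₁ k₀) fun _ : Unit => A₀) (Ex i₀ rk E k₀) + φ ≤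
            l * finrank ℂ (Ex i₀ rk E k₀) := by exact_mod_cast h8
      rw [hG k₀]
      refine le_trans (Nat.add_le_add_right ?_ φ) h9
      refine st_gE_mono T _ _ _ _ _ (Sum.elim
        (fun i : {i // i₀ ∉ m₁ i ∨ line₁ i = k₀} => ⟨Sum.inl i.1, i.2⟩)
        fun _ : Unit => ⟨Sum.inr (), Or.inr rfl⟩) ?_ ?_
      · refine Function.Injective.sumElim ?_ (fun _ _ _ => rfl) ?_
        · intro i j hij
          exact Subtype.ext (Sum.inl_injective (congrArg (fun t => t.1) hij))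
        · intro i _ hij
          exact Sum.inl_ne_inr (congrArg (fun t => t.1) hij)
      · rintro (i | i)
        · rfl
        · show (insert i₀ A₀).erase i₀ = A₀
          rw [erase_insert hi₀A]
    have h8 : ∀ x, x ≠ k₀ → gE T (mx i₀ m₀ line₀ x) (fun i => r i.1)
        (mx i₀ (Sum.elim m₁ fun _ : Unit => insert i₀ A₀) (Sum.elim line₁ fun _ : Unit => k₀) x)
        (Ex i₀ rk E x) ≤ G x := by
      intro x hx
      refine st_gE_mono T _ _ _ _ _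
        (fun i : {i // i₀ ∉ m₁ i ∨ line₁ i = x} => ⟨Sum.inl i.1, i.2⟩) ?_ ?_
      · intro i j hij
        exact Subtype.ext (Sum.inl_injective (congrArg (fun t => t.1) hij))
      · intro i
        rfl
    have h9 : ∑ x, gE T (mx i₀ m₀ line₀ x) (fun i => r i.1)
        (mx i₀ (Sum.elim m₁ fun _ : Unit => insert i₀ A₀) (Sum.elim line₁ fun _ : Unit => k₀) x)
        (Ex i₀ rk E x) + φ ≤ ∑ x, G x := by
      rw [← add_sum_erase _ _ (mem_univ k₀), ← add_sum_erase _ _ (mem_univ k₀)]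
      have h10 := sum_le_sum (s := univ.erase k₀) fun x hx => h8 x (ne_of_mem_erase hx)
      omega
    have h10 : ∑ x, G x = l * finrank ℂ E := by
      rw [← h3]
      exact sum_congr rfl fun x _ => hG x
    omega

/-! ### Numbers -/

omit [Fintype ι] in
theorem st_theta (s : Finset (Finset ι)) (f g : Finset ι → ℚ) (hf : ∀ J ∈ s, 0 < f J) :
    ∃ θ : ℚ, 0 < θ ∧ ∀ J ∈ s, θ * g J < f J := by
  classical
  induction s using Finset.induction_on with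
  | empty => exact ⟨1, one_pos, fun J hJ => absurd hJ (notMem_empty J)⟩
  | insert a s ha ih =>
    obtain ⟨θ, hθ, h⟩ := ih fun J hJ => hf J (mem_insert_of_mem hJ)
    have hfa := hf a (mem_insert_self a s)
    have hga : 0 < |g a| + 1 := by positivity
    refine ⟨min (f a / (|g a| + 1)) (min θ (θ / 2)), by positivity, fun J hJ => ?_⟩
    rcases mem_insert.1 hJ with rfl | hJ
    · have h1 : min (f J / (|g J| + 1)) (min θ (θ / 2)) * g J ≤
          min (f J / (|g J| + 1)) (min θ (θ / 2)) * |g J| :=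
        mul_le_mul_of_nonneg_left (le_abs_self _) (by positivity)
      have h2 : min (f J / (|g J| + 1)) (min θ (θ / 2)) * |g J| ≤ f J / (|g J| + 1) * |g J| :=
        mul_le_mul_of_nonneg_right (min_le_left _ _) (abs_nonneg _)
      have h3 : f J / (|g J| + 1) * |g J| < f J := by
        rw [div_mul_eq_mul_div, div_lt_iff₀ hga]
        nlinarith [abs_nonneg (g J)]
      linarith
    · by_cases hg : 0 ≤ g J
      · have h1 : min (f a / (|g a| + 1)) (min θ (θ / 2)) * g J ≤ θ * g J :=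
          mul_le_mul_of_nonneg_right ((min_le_right _ _).trans (min_le_left _ _)) hg
        exact lt_of_le_of_lt h1 (h J hJ)
      · push Not at hg
        have h1 : min (f a / (|g a| + 1)) (min θ (θ / 2)) * g J < 0 :=
          mul_neg_of_pos_of_neg (by positivity) hg
        exact h1.trans (hf J (mem_insert_of_mem hJ))

/-- The numbers of a configuration. -/
theorem st_card {T I : Finset ι} (hI : I ⊆ T) {κ : Finset ι → ℚ} {P₀ P₁ : Type} [Finite P₀]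
    [Finite P₁] {m₀ : P₀ → Finset ι} {m₁ : P₁ → Finset ι} (h : Cfg c T I κ m₀ m₁) (S : Finset ι)
    (hS : S ⊆ I ∪ Tᶜ) (hS0 : S ≠ ∅) :
    (Nat.card {x // Sum.elim m₀ m₁ x = S} : ℚ) = κ S * pc c S := by
  rw [exd_card_elim]
  by_cases hST : S ⊆ T
  · have hSI : S ⊆ I := by
      intro j hj
      rcases mem_union.1 (hS hj) with h1 | h1
      · exact h1
      · exact absurd (hST hj) (mem_compl.1 h1)
    have h1 : Nat.card {x // m₁ x = S} = 0 := by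
      have : IsEmpty {x // m₁ x = S} := ⟨fun x => (h.add x.1).2 (by rw [x.2]; exact hST)⟩
      exact Nat.card_of_isEmpty
    rw [h1, add_zero]
    exact h.card₀ S hSI hS0
  · have h1 : Nat.card {x // m₀ x = S} = 0 := by
      have : IsEmpty {x // m₀ x = S} := ⟨fun x => hST (by
        rw [← x.2]
        exact (h.base x.1).1.trans hI)⟩
      exact Nat.card_of_isEmpty
    rw [h1, zero_add]
    exact h.card₁ S hS hST

/-- The densities without the points of kind `S₀`. -/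
def st_kM (κ : Finset ι → ℚ) (S₀ : Finset ι) : Finset ι → ℚ := fun S => if S = S₀ then 0 else κ S

omit [Fintype ι] in
theorem st_FF_kM (κ : Finset ι → ℚ) {S₀ : Finset ι} (hS₀ : S₀ ≠ ∅) (J : Finset ι) :
    FF (st_kM κ S₀) J = FF κ J + if S₀ ⊆ J then κ S₀ * FF κ (J \ S₀) else 0 := by
  have h1 : modK (st_kM κ S₀) S₀ (κ S₀) = κ := by
    funext S
    unfold modK st_kM
    by_cases h : S = S₀
    · rw [if_pos h, if_pos h, zero_add, h]
    · rw [if_neg h, if_neg h, add_zero]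
  have h2 := (isF_FF (st_kM κ S₀)).mod hS₀ (κ S₀)
  rw [h1] at h2
  have h3 := congrFun ((isF_FF κ).unique h2) J
  have h4 : FF (st_kM κ S₀) (J \ S₀) = FF κ (J \ S₀) := by
    refine exd_congr fun S hS hS0 => ?_
    unfold st_kM
    rw [if_neg]
    rintro rfl
    obtain ⟨a, ha⟩ := Finset.nonempty_iff_ne_empty.2 hS0
    exact (mem_sdiff.1 (hS ha)).2 ha
  rw [h3]
  unfold modF
  split_ifs
  · rw [h4]; ring
  · ring

omit [Fintype ι] [DecidableEq ι] in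
theorem st_pc_union {A B : Finset ι} [DecidableEq ι] (h : Disjoint A B) :
    pc c (A ∪ B) = pc c A * pc c B := Finset.prod_union h

/-- The argument for one `c`. -/
theorem st_main (hc : ∀ i, 0 < c i) {T I : Finset ι} (hT : 2 ≤ (Tᶜ : Finset ι).card)
    (hI : I ⊆ T) {κ : Finset ι → ℚ} (hA : Adm T I κ) {i₀ : ι} (hi₀ : i₀ ∈ I) {A₀ : Finset ι}
    (hA₀ : A₀ ⊆ Tᶜ) (hA₀n : A₀ ≠ ∅) (hκ₀ : 0 < κ (insert i₀ A₀)) {P₀ P₁ : Type} [Fintype P₀]
    [Fintype P₁] {m₀ : P₀ → Finset ι} {m₁ : P₁ → Finset ι} (hCfg : Cfg c T I κ m₀ m₁)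
    (τ : Fin (c i₀) → Finset ι) (line₀ : P₀ → Fin (c i₀)) (line₁ : P₁ → Fin (c i₀))
    (hτ : ∀ x, τ x ⊆ I.erase i₀ ∪ Tᶜ)
    (hl : ∀ i, i₀ ∈ Sum.elim m₀ m₁ i →
      (Sum.elim m₀ m₁ i).erase i₀ = τ (Sum.elim line₀ line₁ i))
    (hq : ∀ x, (Nat.card {i // i₀ ∈ Sum.elim m₀ m₁ i ∧ Sum.elim line₀ line₁ i = x} : ℚ) =
      sg T I κ i₀ (τ x) * pc c (τ x))
    (k₀ : Fin (c i₀)) (hk₀ : τ k₀ = A₀)
    (hC : ∀ x, τ x ≠ ∅ → Cmp c T (I.erase i₀) (kC T I κ i₀ (τ x)))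
    (l φ : ℕ) (hlam : (l : ℚ) = lam c T I κ)
    (hφ : (φ : ℚ) = pc c ((I.erase i₀ ∪ Tᶜ) \ A₀) * FF κ ((I.erase i₀ ∪ Tᶜ) \ A₀))
    (hfull : ∀ r' : {i // i₀ ∉ m₀ i ∨ line₀ i = k₀} → (Σ i, Fin (c i)) → ℂ, AI r' →
      (gE T (mx i₀ m₀ line₀ k₀) r' (Sum.elim (mx i₀ m₁ line₁ k₀) fun _ : Unit => A₀)
        ((TS ι c).V (mx i₀ m₀ line₀ k₀) r' ⊓ Dep c (I.erase i₀)) : ℚ) + φ ≤
          l * bI c (I.erase i₀) (kC T I κ i₀ A₀))
    (hsemi : ∀ r : P₀ → (Σ i, Fin (c i)) → ℂ, AI r →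
      ∀ E : Submodule ℂ ((∀ i, Fin (c i)) → ℂ),
        (gE T m₀ r (fun x : {x // m₁ x ≠ insert i₀ A₀} => m₁ x.1) E : ℚ) ≤
          lam c T I (st_kM κ (insert i₀ A₀)) * finrank ℂ E)
    (r : P₀ → (Σ i, Fin (c i)) → ℂ) (hr : AI r) : Str T I κ m₀ m₁ r := by
  classical
  by_contra hbad
  have hi₀T : i₀ ∈ T := hI hi₀
  have hi₀A : i₀ ∉ A₀ := fun h => mem_compl.1 (hA₀ h) hi₀T
  have hpc : ∀ S : Finset ι, 0 < pc c S := semi_pc_pos hc
  -- sets
  have e1 : (I ∪ Tᶜ) \ insert i₀ A₀ = (I.erase i₀ ∪ Tᶜ) \ A₀ := by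
    ext x
    simp only [mem_sdiff, mem_union, mem_insert, mem_erase, not_or, mem_compl]
    constructor
    · rintro ⟨h1 | h1, h2, h3⟩
      · exact ⟨Or.inl ⟨h2, h1⟩, h3⟩
      · exact ⟨Or.inr h1, h3⟩
    · rintro ⟨⟨h1, h2⟩ | h1, h3⟩
      · exact ⟨Or.inl h2, h1, h3⟩
      · exact ⟨Or.inr h1, fun h => h1 (h ▸ hi₀T), h3⟩
  have hS₀sub : insert i₀ A₀ ⊆ I ∪ Tᶜ := by
    intro x hx
    rcases mem_insert.1 hx with rfl | hx
    · exact mem_union_left _ hi₀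
    · exact mem_union_right _ (hA₀ hx)
  have hS₀T : ¬ insert i₀ A₀ ⊆ T := by
    intro h
    obtain ⟨a, ha⟩ := Finset.nonempty_iff_ne_empty.2 hA₀n
    exact mem_compl.1 (hA₀ ha) (h (mem_insert_of_mem ha))
  have hS₀n : insert i₀ A₀ ≠ ∅ := insert_ne_empty _ _
  have e2 : pc c (insert i₀ A₀) * pc c ((I.erase i₀ ∪ Tᶜ) \ A₀) = pc c I * pc c Tᶜ := by
    rw [← e1, ← st_pc_union disjoint_sdiff, union_sdiff_of_subset hS₀sub, st_pc_union]
    exact disjoint_of_subset_left hI disjoint_compl_right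
  -- the number of the points of kind `S₀`
  let Ns : ℕ := Nat.card {x // m₁ x = insert i₀ A₀}
  have hNs : (Ns : ℚ) = κ (insert i₀ A₀) * pc c (insert i₀ A₀) :=
    hCfg.card₁ _ hS₀sub hS₀T
  have hFI : 0 < FF κ I := hA.F _ subset_union_left
  have hFM : 0 < FF κ ((I.erase i₀ ∪ Tᶜ) \ A₀) := hA.F _ (by
    rw [← e1]
    exact sdiff_subset)
  have hφ0 : (0 : ℚ) < φ := by
    rw [hφ]
    exact mul_pos (hpc _) hFM
  have hNs0 : (0 : ℚ) < Ns := by
    rw [hNs]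
    exact mul_pos hκ₀ (hpc _)
  have hlm : lam c T I (st_kM κ (insert i₀ A₀)) = l + Ns * φ / bI c I κ := by
    have h1 : FF (st_kM κ (insert i₀ A₀)) I = FF κ I := by
      rw [st_FF_kM κ hS₀n, if_neg fun h => hS₀T (h.trans hI), add_zero]
    have h2 : FF (st_kM κ (insert i₀ A₀)) (I ∪ Tᶜ) = FF κ (I ∪ Tᶜ) +
        κ (insert i₀ A₀) * FF κ ((I.erase i₀ ∪ Tᶜ) \ A₀) := by
      rw [st_FF_kM κ hS₀n, if_pos hS₀sub, e1]
    unfold lam
    rw [h1, h2, hlam]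
    unfold lam bI
    rw [hNs, hφ]
    have h3 : κ (insert i₀ A₀) * pc c (insert i₀ A₀) *
        (pc c ((I.erase i₀ ∪ Tᶜ) \ A₀) * FF κ ((I.erase i₀ ∪ Tᶜ) \ A₀)) =
        κ (insert i₀ A₀) * FF κ ((I.erase i₀ ∪ Tᶜ) \ A₀) * (pc c I * pc c Tᶜ) := by
      rw [← e2]; ring
    rw [h3]
    have h4 := (hpc I).ne'
    have h5 := hFI.ne'
    field_simp
  -- the claim
  have hcl := fun E hE hE0 => st_claim hc hT hI hA hi₀ hA₀ hA₀n hCfg τ line₀ line₁ hτ hl hq k₀ hk₀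
    hC l φ hlam hfull r hr E hE hE0
  have hpos : ∀ E : Submodule ℂ ((∀ i, Fin (c i)) → ℂ), 0 < finrank ℂ E → E ≠ ⊥ := by
    rintro E h rfl
    rw [finrank_bot] at h
    exact absurd h (lt_irrefl 0)
  have n1 := KE_near T m₀ m₁ m₁ (fun h => l * h - 1) (fun h => l * h - 1) (Dep c I)
    {h | 0 < h ∧ l * h < φ} (spc i₀ m₀ line₀ r) (fun E hE hh => by
      rcases hcl E hE (hpos E hh.1) with ⟨y, hy⟩ | ⟨y, hy⟩
      · exact Or.inl ⟨y, by omega⟩
      · have := hh.2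
        omega)
  have n2 := KE_near T m₀ m₁ (Sum.elim m₁ fun _ : Unit => insert i₀ A₀) (fun h => l * h - 1)
    (fun h => l * h - φ) (Dep c I) {h | 0 < h ∧ φ ≤ l * h} (spc i₀ m₀ line₀ r)
    (fun E hE hh => by
      rcases hcl E hE (hpos E hh.1) with ⟨y, hy⟩ | ⟨y, hy⟩
      · exact Or.inl ⟨y, by omega⟩
      · exact Or.inr ⟨y, by omega⟩)
  obtain ⟨r', ⟨hr1, hr2⟩, hr'⟩ := ai_dense (spc i₀ m₀ line₀ r) _ (n1.and n2)
  have hbad' : ¬ Str T I κ m₀ m₁ r' := fun h => hbad (Str_ai T I κ m₀ m₁ r' r hr' hr h)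
  unfold Str at hbad'
  push Not at hbad'
  obtain ⟨E, hE, hE0, hEb, hy⟩ := hbad'
  have hh : 0 < finrank ℂ E := Nat.pos_of_ne_zero fun h => hE0 (Submodule.finrank_eq_zero.1 h)
  have hlpos : 0 < l := by
    have h1 : 0 < lam c T I κ := mul_pos (hpc _)
      (div_pos (hA.F _ (subset_refl _)) hFI)
    rw [← hlam] at h1
    exact_mod_cast h1
  have hlh : 0 < l * finrank ℂ E := Nat.mul_pos hlpos hh
  have hy' : ∀ y : P₁ → (Σ i, Fin (c i)) → ℂ, l * finrank ℂ E ≤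
      finrank ℂ (KE T (Sum.elim m₀ m₁) (Sum.elim r' y) E) := by
    intro y
    have h1 := hy y
    rw [← hlam] at h1
    exact_mod_cast h1
  by_cases hlt : l * finrank ℂ E < φ
  · rcases hr1 E hE ⟨hh, hlt⟩ with ⟨y, h1⟩ | ⟨y, h1⟩
    · have := hy' y
      omega
    · have := hy' y
      omega
  · push Not at hlt
    rcases hr2 E hE ⟨hh, hlt⟩ with ⟨y, h1⟩ | ⟨y, h1⟩
    · have := hy' y
      omega
    · have h2 := gE_le T m₀ r' (Sum.elim m₁ fun _ : Unit => insert i₀ A₀) E y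
      obtain ⟨y₂, hy₂⟩ := exists_gE T m₀ r' m₁ E
      have h3 : l * finrank ℂ E ≤ gE T m₀ r' m₁ E := by
        rw [← hy₂]
        exact hy' y₂
      have h4 := gE_slope T m₀ r' m₁ E (insert i₀ A₀) Ns rfl
      have h5 := hsemi r' hr' E
      have h4' : (Ns : ℚ) * (gE T m₀ r' m₁ E - gE T m₀ r'
          (Sum.elim m₁ fun _ : Unit => insert i₀ A₀) E) ≤
          gE T m₀ r' (fun x : {x // m₁ x ≠ insert i₀ A₀} => m₁ x.1) E - gE T m₀ r' m₁ E := by
        exact_mod_cast h4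
      have h6 : (gE T m₀ r' (Sum.elim m₁ fun _ : Unit => insert i₀ A₀) E : ℚ) + φ ≤
          l * finrank ℂ E := by
        have : gE T m₀ r' (Sum.elim m₁ fun _ : Unit => insert i₀ A₀) E + φ ≤
            l * finrank ℂ E := by omega
        exact_mod_cast this
      have h7 : ((l * finrank ℂ E : ℕ) : ℚ) ≤ gE T m₀ r' m₁ E := by exact_mod_cast h3
      push_cast at h7
      rw [hlm] at h5
      have hb : 0 < bI c I κ := mul_pos (hpc I) hFI
      -- `Ns * φ ≤ Ns * φ * h / bI`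
      have h8 : (Ns : ℚ) * φ ≤ (Ns : ℚ) * (gE T m₀ r' m₁ E - gE T m₀ r'
          (Sum.elim m₁ fun _ : Unit => insert i₀ A₀) E) :=
        mul_le_mul_of_nonneg_left (by linarith) hNs0.le
      have h9 : (Ns : ℚ) * φ ≤ Ns * φ / bI c I κ * finrank ℂ E := by linarith
      have h10 : (Ns : ℚ) * φ / bI c I κ * finrank ℂ E < Ns * φ := by
        rw [div_mul_eq_mul_div, div_lt_iff₀ hb]
        exact mul_lt_mul_of_pos_left hEb (mul_pos hNs0 hφ0)
      linarith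

/-- One more point of kind `A₀` at the line `k₀`. -/
theorem st_full (hc : ∀ i, 0 < c i) {T I : Finset ι} (hT : 2 ≤ (Tᶜ : Finset ι).card)
    (hI : I ⊆ T) {κ : Finset ι → ℚ} (hA : Adm T I κ) {i₀ : ι} (hi₀ : i₀ ∈ I) {A₀ : Finset ι}
    (hA₀ : A₀ ⊆ Tᶜ) (hA₀n : A₀ ≠ ∅) {P₀ P₁ : Type} [Fintype P₀] [Fintype P₁]
    {m₀ : P₀ → Finset ι} {m₁ : P₁ → Finset ι}
    (hCfg : Cfg c T (I.erase i₀) (kC T I κ i₀ A₀) m₀ m₁) (l φ : ℕ) (hlam : (l : ℚ) = lam c T I κ)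
    (hφ : (φ : ℚ) = pc c ((I.erase i₀ ∪ Tᶜ) \ A₀) * FF κ ((I.erase i₀ ∪ Tᶜ) \ A₀))
    (θ : ℚ) (hθ : 1 ≤ θ * pc c A₀)
    (h : ∀ (P₀ P₁ : Type) [Fintype P₀] [Fintype P₁] (m₀ : P₀ → Finset ι) (m₁ : P₁ → Finset ι),
        (∀ x, m₀ x ⊆ I.erase i₀ ∧ m₀ x ≠ ∅) → (∀ x, m₁ x ⊆ I.erase i₀ ∪ Tᶜ ∧ m₁ x ≠ ∅) →
        (∀ S ⊆ I.erase i₀ ∪ Tᶜ, S ≠ ∅ → (Nat.card {x // Sum.elim m₀ m₁ x = S} : ℚ) ≤
          modK (kC T I κ i₀ A₀) A₀ θ S * pc c S) →
          ∀ r : P₀ → (Σ i, Fin (c i)) → ℂ, AI r →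
            (gE T m₀ r m₁ ((TS ι c).V m₀ r ⊓ Dep c (I.erase i₀)) : ℚ) ≤
              pc c (I.erase i₀ ∪ Tᶜ) * FF (dn c (Sum.elim m₀ m₁)) (I.erase i₀ ∪ Tᶜ))
    (r : P₀ → (Σ i, Fin (c i)) → ℂ) (hr : AI r) :
    (gE T m₀ r (Sum.elim m₁ fun _ : Unit => A₀)
      ((TS ι c).V m₀ r ⊓ Dep c (I.erase i₀)) : ℚ) + φ ≤
        l * bI c (I.erase i₀) (kC T I κ i₀ A₀) := by
  classical
  have hi₀T : i₀ ∈ T := hI hi₀
  have hI' : I.erase i₀ ⊆ T := (erase_subset _ _).trans hI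
  have hpc : ∀ S : Finset ι, 0 < pc c S := semi_pc_pos hc
  have hA₀M : A₀ ⊆ I.erase i₀ ∪ Tᶜ := hA₀.trans subset_union_right
  have hi₀M : i₀ ∉ I.erase i₀ ∪ Tᶜ := by
    intro h
    rcases mem_union.1 h with h | h
    · exact notMem_erase i₀ I h
    · exact mem_compl.1 h hi₀T
  -- the equivalence of the index types
  let e : (P₀ ⊕ P₁) ⊕ Unit ≃ P₀ ⊕ (P₁ ⊕ Unit) := Equiv.sumAssoc P₀ P₁ Unit
  have e1 : (fun x => Sum.elim m₀ (Sum.elim m₁ fun _ : Unit => A₀) (e x)) =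
      Sum.elim (Sum.elim m₀ m₁) fun _ : Unit => A₀ := by
    funext x
    rcases x with (x | x) | x <;> rfl
  have hcard : ∀ S, Nat.card {x // Sum.elim m₀ (Sum.elim m₁ fun _ : Unit => A₀) x = S} =
      Nat.card {x // Sum.elim m₀ m₁ x = S} + if S = A₀ then 1 else 0 := by
    intro S
    rw [← exd_card_comp e (Sum.elim m₀ (Sum.elim m₁ fun _ : Unit => A₀)) S]
    have e2 : Nat.card {x // Sum.elim m₀ (Sum.elim m₁ fun _ : Unit => A₀) (e x) = S} =
        Nat.card {x // Sum.elim (Sum.elim m₀ m₁) (fun _ : Unit => A₀) x = S} :=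
      congrArg (fun f : (P₀ ⊕ P₁) ⊕ Unit → Finset ι => Nat.card {x // f x = S}) e1
    rw [e2, exd_card_elim (Sum.elim m₀ m₁)]
    congr 1
    split_ifs with hS
    · subst hS
      rw [Nat.card_congr (Equiv.subtypeUnivEquiv fun _ => rfl), Nat.card_eq_fintype_card,
        Fintype.card_unit]
    · have : IsEmpty {x : Unit // A₀ = S} := ⟨fun x => hS x.2.symm⟩
      exact Nat.card_of_isEmpty
  have hnum : ∀ S ⊆ I.erase i₀ ∪ Tᶜ, S ≠ ∅ → (Nat.card {x // Sum.elim m₀ m₁ x = S} : ℚ) =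
      kC T I κ i₀ A₀ S * pc c S := st_card hI' hCfg
  have h1 := h P₀ (P₁ ⊕ Unit) m₀ (Sum.elim m₁ fun _ : Unit => A₀) hCfg.base (by
      rintro (x | x)
      · refine ⟨(hCfg.add x).1, fun h0 => (hCfg.add x).2 ?_⟩
        have h0' : m₁ x = ∅ := h0
        rw [h0']
        exact empty_subset _
      · exact ⟨hA₀M, hA₀n⟩) (by
      intro S hS hS0
      rw [hcard S]
      push_cast
      rw [hnum S hS hS0]
      unfold modK
      by_cases hSA : S = A₀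
      · rw [if_pos hSA, if_pos hSA, add_mul, hSA]
        exact add_le_add_right hθ _
      · rw [if_neg hSA, if_neg hSA, add_zero, add_zero]) r hr
  -- the densities
  have h2 : FF (dn c (Sum.elim m₀ (Sum.elim m₁ fun _ : Unit => A₀))) (I.erase i₀ ∪ Tᶜ) =
      FF (kC T I κ i₀ A₀) (I.erase i₀ ∪ Tᶜ) -
        1 / pc c A₀ * FF κ ((I.erase i₀ ∪ Tᶜ) \ A₀) := by
    have h3 : FF (dn c (Sum.elim m₀ (Sum.elim m₁ fun _ : Unit => A₀))) (I.erase i₀ ∪ Tᶜ) =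
        FF (modK (kC T I κ i₀ A₀) A₀ (1 / pc c A₀)) (I.erase i₀ ∪ Tᶜ) := by
      refine exd_congr fun S hS hS0 => ?_
      unfold dn modK
      rw [hcard S]
      push_cast
      rw [hnum S hS hS0, add_div, mul_div_assoc, div_self (hpc S).ne', mul_one]
      congr 1
      by_cases hSA : S = A₀
      · rw [if_pos hSA, if_pos hSA, hSA]
      · rw [if_neg hSA, if_neg hSA, zero_div]
    rw [h3, FF_modK _ hA₀n, if_pos hA₀M]
    congr 2
    refine exd_congr fun S hS hS0 => ?_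
    unfold kC modK
    have h4 : i₀ ∉ S := fun h => hi₀M (mem_sdiff.1 (hS h)).1
    have h5 : S ≠ A₀ := by
      rintro rfl
      obtain ⟨a, ha⟩ := Finset.nonempty_iff_ne_empty.2 hS0
      exact (mem_sdiff.1 (hS ha)).2 ha
    show (if i₀ ∈ S then 0 else κ S) + _ = _
    rw [if_neg h4, if_neg h5, add_zero]
  rw [h2] at h1
  have h3 : pc c (I.erase i₀ ∪ Tᶜ) = pc c A₀ * pc c ((I.erase i₀ ∪ Tᶜ) \ A₀) := by
    rw [← st_pc_union disjoint_sdiff, union_sdiff_of_subset hA₀M]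
  have h4 : pc c (I.erase i₀ ∪ Tᶜ) = pc c (I.erase i₀) * pc c Tᶜ :=
    st_pc_union (disjoint_of_subset_left hI' disjoint_compl_right)
  have h5 : (l : ℚ) * bI c (I.erase i₀) (kC T I κ i₀ A₀) =
      pc c (I.erase i₀ ∪ Tᶜ) * FF (kC T I κ i₀ A₀) (I.erase i₀ ∪ Tᶜ) := by
    rw [hlam, ← lam_kC hT hI hA hi₀ hA₀M hA₀n c, h4]
    unfold lam bI
    have h6 : FF (kC T I κ i₀ A₀) (I.erase i₀) ≠ 0 :=
      ((kC_adm hT hI hA hi₀ hA₀M hA₀n).F _ subset_union_left).ne'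
    field_simp
  have h6 : pc c (I.erase i₀ ∪ Tᶜ) * (1 / pc c A₀ * FF κ ((I.erase i₀ ∪ Tᶜ) \ A₀)) = φ := by
    rw [hφ, h3]
    have := (hpc A₀).ne'
    field_simp
  rw [h5]
  rw [mul_sub, h6] at h1
  linarith

theorem st_dvd {N N' : ℕ} (h : N' ∣ N) (hc : ∀ i, 0 < c i ∧ N ∣ c i) :
    ∀ i, 0 < c i ∧ N' ∣ c i := fun i => ⟨(hc i).1, h.trans (hc i).2⟩

/-- `q * pc c S` is a natural number for divisible dimensions. -/
theorem st_nat {q : ℚ} (hq : 0 ≤ q) {S : Finset ι} (hS : S ≠ ∅)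
    (hc : ∀ i, 0 < c i ∧ q.den ∣ c i) : ∃ n : ℕ, (n : ℚ) = q * pc c S := by
  obtain ⟨j, hj⟩ := Finset.nonempty_iff_ne_empty.2 hS
  obtain ⟨n, hn⟩ := exists_nat_mul hq ((hc j).2.trans (Finset.dvd_prod_of_mem c hj))
  refine ⟨n, ?_⟩
  rw [hn]
  unfold pc
  push_cast
  ring

/-- STRICTNESS. -/
theorem strict (T : Finset ι) (hT : 2 ≤ (Tᶜ : Finset ι).card) : ∀ (n : ℕ) (I : Finset ι), I ⊆ T →
    I.card ≤ n → ∀ κ : Finset ι → ℚ, Adm T I κ →
      ∃ N : ℕ, 0 < N ∧ ∀ c : ι → ℕ, (∀ i, 0 < c i ∧ N ∣ c i) →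
        ∀ (P₀ P₁ : Type) [Fintype P₀] [Fintype P₁] (m₀ : P₀ → Finset ι) (m₁ : P₁ → Finset ι),
          Cfg c T I κ m₀ m₁ → ∀ r : P₀ → (Σ i, Fin (c i)) → ℂ, AI r → Str T I κ m₀ m₁ r := by
  classical
  have hempty : ∀ (κ : Finset ι → ℚ) (c : ι → ℕ) (P₀ P₁ : Type) (m₀ : P₀ → Finset ι)
      (m₁ : P₁ → Finset ι) (r : P₀ → (Σ i, Fin (c i)) → ℂ), Str T ∅ κ m₀ m₁ r := by
    intro κ c P₀ P₁ m₀ m₁ r E _ hE0 hE
    exfalso
    have h1 : bI c ∅ κ = 1 := by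
      unfold bI pc
      rw [prod_empty, (isF_FF κ).empty, mul_one]
    rw [h1] at hE
    have h2 : finrank ℂ E < 1 := by exact_mod_cast hE
    exact hE0 (Submodule.finrank_eq_zero.1 (by omega))
  intro n
  induction n with
  | zero =>
    intro I _ hn κ _
    have h1 : I = ∅ := card_eq_zero.1 (Nat.le_zero.1 hn)
    subst h1
    exact ⟨1, one_pos, fun c _ P₀ P₁ _ _ m₀ m₁ _ r _ => hempty κ c P₀ P₁ m₀ m₁ r⟩
  | succ n ih =>
    intro I hI hn κ hA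
    rcases I.eq_empty_or_nonempty with hI0 | ⟨i₀, hi₀⟩
    · subst hI0
      exact ⟨1, one_pos, fun c _ P₀ P₁ _ _ m₀ m₁ _ r _ => hempty κ c P₀ P₁ m₀ m₁ r⟩
    · have hi₀T : i₀ ∈ T := hI hi₀
      have hTn : (Tᶜ : Finset ι) ≠ ∅ := by
        intro h
        rw [h, card_empty] at hT
        omega
      obtain ⟨a, ha⟩ := nonempty_iff_ne_empty.2 hTn
      obtain ⟨A₀, hA₀def⟩ : ∃ A₀, A₀ = (Tᶜ : Finset ι).erase a := ⟨_, rfl⟩
      have hA₀ : A₀ ⊆ Tᶜ := by rw [hA₀def]; exact erase_subset _ _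
      have hA₀c : A₀.card + 1 = (Tᶜ : Finset ι).card := by rw [hA₀def]; exact card_erase_add_one ha
      have hA₀n : A₀ ≠ ∅ := by
        intro h
        rw [h, card_empty] at hA₀c
        omega
      have haA : a ∉ A₀ := by rw [hA₀def]; exact notMem_erase _ _
      have hi₀Tc : i₀ ∉ (Tᶜ : Finset ι) := fun h => mem_compl.1 h hi₀T
      have hi₀A : i₀ ∉ A₀ := fun h => hi₀Tc (hA₀ h)
      have hI' : I.erase i₀ ⊆ T := (erase_subset _ _).trans hI
      have hcard' : (I.erase i₀).card ≤ n := by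
        rw [card_erase_of_mem hi₀]
        omega
      have hi₀M : i₀ ∉ I.erase i₀ ∪ Tᶜ := by
        intro h
        rcases mem_union.1 h with h | h
        · exact notMem_erase i₀ I h
        · exact hi₀Tc h
      have hA₀M : A₀ ⊆ I.erase i₀ ∪ Tᶜ := hA₀.trans subset_union_right
      have hMs : ∀ B ⊆ I.erase i₀ ∪ Tᶜ, insert i₀ B ⊆ I ∪ Tᶜ := by
        intro B hB x hx
        rcases mem_insert.1 hx with rfl | hx
        · exact mem_union_left _ hi₀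
        · rcases mem_union.1 (hB hx) with h | h
          · exact mem_union_left _ (mem_of_mem_erase h)
          · exact mem_union_right _ h
      have hκ₀ : 0 < κ (insert i₀ A₀) := by
        refine hA.pos _ (hMs A₀ hA₀M) ?_ ?_
        · rw [card_insert_of_notMem hi₀A]
          exact hA₀c
        · intro h
          exact hi₀Tc (h ▸ mem_insert_self i₀ A₀)
      have haM : (I.erase i₀ ∪ Tᶜ) \ A₀ ≠ ∅ := nonempty_iff_ne_empty.1
        ⟨a, mem_sdiff.2 ⟨mem_union_right _ ha, haA⟩⟩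
      -- the components
      have hcomp : ∀ B : Finset ι, ∃ N : ℕ, 0 < N ∧ (B ⊆ I.erase i₀ ∪ Tᶜ → B ≠ ∅ →
          ∀ c : ι → ℕ, (∀ i, 0 < c i ∧ N ∣ c i) → Cmp c T (I.erase i₀) (kC T I κ i₀ B)) := by
        intro B
        by_cases hB : B ⊆ I.erase i₀ ∪ Tᶜ ∧ B ≠ ∅
        · have hAB := kC_adm hT hI hA hi₀ hB.1 hB.2
          obtain ⟨N1, hN1, h1⟩ := ih (I.erase i₀) hI' hcard' _ hAB
          obtain ⟨N2, hN2, h2⟩ := semi_ai T (I.erase i₀) hI' hTn _ hAB.nonneg hAB.F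
          obtain ⟨N3, hN3, h3⟩ := base_ai (I.erase i₀) _ hAB.nonneg fun J hJ =>
            hAB.F J (hJ.trans subset_union_left)
          refine ⟨N1 * (N2 * N3), by positivity, fun _ _ c hc => ?_⟩
          have hc1 : ∀ i, 0 < c i ∧ N1 ∣ c i := st_dvd (Dvd.intro _ rfl) hc
          have hc2 : ∀ i, 0 < c i ∧ N2 ∣ c i :=
            st_dvd ((Dvd.intro _ rfl).trans (Dvd.intro_left _ rfl)) hc
          have hc3 : ∀ i, 0 < c i ∧ N3 ∣ c i :=
            st_dvd ((Dvd.intro_left _ rfl).trans (Dvd.intro_left _ rfl)) hc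
          exact ⟨fun P₀ P₁ _ _ m₀ m₁ hCfg r hr E => (h2 c hc2).2 P₀ P₁ m₀ m₁
              (fun S hS hS0 => (st_card hI' hCfg S hS hS0).ge) r hr E,
            fun P₀ P₁ _ _ m₀ m₁ hCfg r hr => h3 c hc3 P₀ m₀ hCfg.base hCfg.card₀ r hr,
            fun P₀ P₁ _ _ m₀ m₁ hCfg r hr => h1 c hc1 P₀ P₁ m₀ m₁ hCfg r hr⟩
        · exact ⟨1, one_pos, fun h h' => absurd ⟨h, h'⟩ hB⟩
      choose NB hNB hcomp using hcomp
      -- without the points of kind `S₀`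
      have hS₀n : insert i₀ A₀ ≠ ∅ := insert_ne_empty _ _
      obtain ⟨N1, hN1, h1⟩ := semi_ai T I hI hTn (st_kM κ (insert i₀ A₀)) (fun S => by
          unfold st_kM
          split_ifs
          · exact le_rfl
          · exact hA.nonneg S) (fun J hJ => by
          rw [st_FF_kM κ hS₀n]
          split_ifs
          · exact add_pos (hA.F J hJ) (mul_pos hκ₀ (hA.F _ (sdiff_subset.trans hJ)))
          · rw [add_zero]
            exact hA.F J hJ)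
      obtain ⟨N0, hN0, h0⟩ := semi_ai T I hI hTn κ hA.nonneg hA.F
      -- one more point of kind `A₀`
      have hAA := kC_adm hT hI hA hi₀ hA₀M hA₀n
      obtain ⟨θ, hθ, hθ'⟩ := st_theta (I.erase i₀ ∪ Tᶜ).powerset
        (fun J => FF (kC T I κ i₀ A₀) J) (fun J => FF (kC T I κ i₀ A₀) (J \ A₀))
        fun J hJ => hAA.F J (mem_powerset.1 hJ)
      obtain ⟨N2, hN2, h2⟩ := full_ai T (I.erase i₀) hI' (modK (kC T I κ i₀ A₀) A₀ θ)
        (fun S => by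
          unfold modK
          split_ifs
          · exact add_nonneg (hAA.nonneg S) hθ.le
          · rw [add_zero]
            exact hAA.nonneg S) (fun J hJ => by
          rw [FF_modK _ hA₀n]
          split_ifs
          · rw [sub_pos]
            exact hθ' J (mem_powerset.2 hJ)
          · rw [sub_zero]
            exact hAA.F J hJ)
      have hsg : ∀ B ⊆ I.erase i₀ ∪ Tᶜ, 0 < sg T I κ i₀ B := fun B hB =>
        sg_pos hT hI hA hi₀ hB
      have hsh : ∀ B ⊆ I.erase i₀ ∪ Tᶜ, 0 ≤ sh T I κ i₀ B := fun B hB =>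
        div_nonneg (hA.nonneg _) (hsg B hB).le
      -- the common multiple
      obtain ⟨ND, hND⟩ : ∃ ND, ND = ∏ B ∈ (I.erase i₀ ∪ Tᶜ).powerset,
        (NB B * ((sh T I κ i₀ B).den * (sg T I κ i₀ B).den)) := ⟨_, rfl⟩
      have hND0 : 0 < ND := by
        rw [hND]
        exact prod_pos fun B _ => Nat.mul_pos (hNB B) (Nat.mul_pos (Rat.den_pos _) (Rat.den_pos _))
      have hdv : ∀ B ⊆ I.erase i₀ ∪ Tᶜ,
          NB B * ((sh T I κ i₀ B).den * (sg T I κ i₀ B).den) ∣ ND := fun B hB => by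
        rw [hND]
        exact dvd_prod_of_mem (fun B => NB B * ((sh T I κ i₀ B).den * (sg T I κ i₀ B).den))
          (mem_powerset.2 hB)
      refine ⟨N0 * (N1 * (N2 * (θ.den * ((FF κ ((I.erase i₀ ∪ Tᶜ) \ A₀)).den * ND)))), by
        have := Rat.den_pos θ
        have := Rat.den_pos (FF κ ((I.erase i₀ ∪ Tᶜ) \ A₀))
        positivity, fun c hcN P₀ P₁ _ _ m₀ m₁ hCfg r hr => ?_⟩
      have hc : ∀ i, 0 < c i := fun i => (hcN i).1
      have hcA : ∀ i, 0 < c i ∧ N0 ∣ c i := st_dvd (Dvd.intro _ rfl) hcN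
      have hcB := st_dvd (Dvd.intro_left N0 rfl) hcN
      have hc1 : ∀ i, 0 < c i ∧ N1 ∣ c i := st_dvd (Dvd.intro _ rfl) hcB
      have hcC := st_dvd (Dvd.intro_left N1 rfl) hcB
      have hc2 : ∀ i, 0 < c i ∧ N2 ∣ c i := st_dvd (Dvd.intro _ rfl) hcC
      have hcD := st_dvd (Dvd.intro_left N2 rfl) hcC
      have hcθ : ∀ i, 0 < c i ∧ θ.den ∣ c i := st_dvd (Dvd.intro _ rfl) hcD
      have hcE := st_dvd (Dvd.intro_left θ.den rfl) hcD
      have hcF : ∀ i, 0 < c i ∧ (FF κ ((I.erase i₀ ∪ Tᶜ) \ A₀)).den ∣ c i :=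
        st_dvd (Dvd.intro _ rfl) hcE
      have hcG : ∀ i, 0 < c i ∧ ND ∣ c i := st_dvd (Dvd.intro_left _ rfl) hcE
      have hpc : ∀ S : Finset ι, 0 < pc c S := semi_pc_pos hc
      obtain ⟨⟨l, hlam⟩, -⟩ := h0 c hcA
      obtain ⟨φ, hφ⟩ := st_nat (hA.F ((I.erase i₀ ∪ Tᶜ) \ A₀) (sdiff_subset.trans
        (union_subset_union_left (erase_subset _ _)))).le haM hcF
      -- the numbers of the lines and of the points on them
      have hL : ∀ B : Finset ι, ∃ k : ℕ, B ⊆ I.erase i₀ ∪ Tᶜ → (k : ℚ) = sh T I κ i₀ B * c i₀ := by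
        intro B
        by_cases hB : B ⊆ I.erase i₀ ∪ Tᶜ
        · obtain ⟨k, hk⟩ := exists_nat_mul (hsh B hB) (c := c i₀)
            (((Dvd.intro _ rfl).trans (Dvd.intro_left _ rfl)).trans
              ((hdv B hB).trans (hcG i₀).2))
          exact ⟨k, fun _ => by rw [hk, mul_comm]⟩
        · exact ⟨0, fun h => absurd h hB⟩
      choose L hL using hL
      have hQ : ∀ B : Finset ι, ∃ k : ℕ, B ⊆ I.erase i₀ ∪ Tᶜ →
          (k : ℚ) = sg T I κ i₀ B * pc c B := by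
        intro B
        by_cases hB : B ⊆ I.erase i₀ ∪ Tᶜ
        · by_cases hB0 : B = ∅
          · refine ⟨1, fun _ => ?_⟩
            rw [hB0]
            unfold sg pc
            rw [sdiff_empty, prod_empty, div_self, mul_one, Nat.cast_one]
            refine (kU_pos hT hI hA ?_).ne'
            refine Finset.ssubset_iff_subset_ne.2 ⟨union_subset_union_left (erase_subset _ _),
              fun h => hi₀M ?_⟩
            rw [h]
            exact mem_union_left _ hi₀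
          · obtain ⟨k, hk⟩ := st_nat (hsg B hB).le hB0 (st_dvd
              (((Dvd.intro_left _ rfl).trans (Dvd.intro_left _ rfl)).trans (hdv B hB)) hcG)
            exact ⟨k, fun _ => hk⟩
        · exact ⟨0, fun h => absurd h hB⟩
      choose q hQ using hQ
      have hLsum : ∑ B ∈ (I.erase i₀ ∪ Tᶜ).powerset, L B = c i₀ := by
        have h3 : ((∑ B ∈ (I.erase i₀ ∪ Tᶜ).powerset, L B : ℕ) : ℚ) = c i₀ := by
          push_cast
          rw [sum_congr rfl fun B hB => hL B (mem_powerset.1 hB), ← sum_mul,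
            sum_sh hT hI hA hi₀, one_mul]
        exact_mod_cast h3
      obtain ⟨τ, line, hτ1, hτ2, hτ3, hτ4⟩ := lines hi₀M (c i₀) L q hLsum (Sum.elim m₀ m₁)
        (by
          intro i hi x hx
          have hx' := mem_erase.1 hx
          have h3 : x ∈ I ∪ Tᶜ := by
            rcases i with i | i
            · exact mem_union_left _ ((hCfg.base i).1 hx'.2)
            · exact (hCfg.add i).1 hx'.2
          rcases mem_union.1 h3 with h4 | h4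
          · exact mem_union_left _ (mem_erase.2 ⟨hx'.1, h4⟩)
          · exact mem_union_right _ h4) (hc i₀) (by
          intro B hB
          have h3 := st_card hI hCfg (insert i₀ B) (hMs B hB) (insert_ne_empty _ _)
          have hiB : i₀ ∉ B := fun h => hi₀M (hB h)
          have h4 : pc c (insert i₀ B) = c i₀ * pc c B := by
            unfold pc
            rw [prod_insert hiB]
          have h5 : ((L B * q B : ℕ) : ℚ) = κ (insert i₀ B) * pc c (insert i₀ B) := by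
            push_cast
            rw [hL B hB, hQ B hB, h4]
            unfold sh
            have := (hsg B hB).ne'
            field_simp
          rw [← h5] at h3
          exact_mod_cast h3)
      obtain ⟨line₀, line₁, rfl⟩ : ∃ (line₀ : P₀ → Fin (c i₀)) (line₁ : P₁ → Fin (c i₀)),
          line = Sum.elim line₀ line₁ := ⟨fun i => line (Sum.inl i), fun i => line (Sum.inr i), by
            funext i
            rcases i with i | i <;> rfl⟩
      obtain ⟨k₀, hk₀⟩ := hτ2 A₀ hA₀M (by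
        intro h
        have h3 := hL A₀ hA₀M
        rw [h] at h3
        have h4 : 0 < sh T I κ i₀ A₀ * c i₀ :=
          mul_pos (div_pos hκ₀ (hsg A₀ hA₀M)) (by exact_mod_cast hc i₀)
        rw [← h3] at h4
        exact lt_irrefl _ (by exact_mod_cast h4 : (0 : ℕ) < 0))
      have hqc : ∀ x, (Nat.card {i // i₀ ∈ Sum.elim m₀ m₁ i ∧ Sum.elim line₀ line₁ i = x} : ℚ) =
          sg T I κ i₀ (τ x) * pc c (τ x) := fun x => by
        rw [hτ4 x]
        exact hQ _ (hτ1 x).1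
      refine st_main hc hT hI hA hi₀ hA₀ hA₀n hκ₀ hCfg τ line₀ line₁ (fun x => (hτ1 x).1) hτ3 hqc
        k₀ hk₀ (fun x hx => hcomp (τ x) (hτ1 x).1 hx c (st_dvd
          ((Dvd.intro _ rfl).trans (hdv _ (hτ1 x).1)) hcG)) l φ hlam (by rw [hφ, mul_comm]) ?_ ?_ r hr
      · intro r' hr'
        have hk₀n : τ k₀ ≠ ∅ := by rw [hk₀]; exact hA₀n
        have hcfg := comp_cfg hI hCfg hi₀ line₀ line₁ k₀ (τ k₀) (hτ1 k₀).1 hk₀n
          (fun i h1 h2 => by rw [← h2]; exact hτ3 (Sum.inl i) h1)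
          (fun i h1 h2 => by rw [← h2]; exact hτ3 (Sum.inr i) h1) (hqc k₀)
        rw [hk₀] at hcfg
        refine st_full hc hT hI hA hi₀ hA₀ hA₀n hcfg l φ hlam (by rw [hφ, mul_comm]) θ ?_
          (fun P₀ P₁ _ _ m₀ m₁ a1 a2 a3 r a4 => h2 c hc2 P₀ P₁ m₀ m₁ a1 a2 a3 r a4) r' hr'
        obtain ⟨k, hk⟩ := st_nat hθ.le hA₀n hcθ
        have h3 : 0 < θ * pc c A₀ := mul_pos hθ (hpc _)
        rw [← hk] at h3 ⊢
        have h4 : 0 < k := by exact_mod_cast h3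
        exact_mod_cast h4
      · intro r' hr' E
        refine (h1 c hc1).2 P₀ {x // m₁ x ≠ insert i₀ A₀} m₀ (fun x => m₁ x.1)
          (fun S hS hS0 => ?_) r' hr' E
        unfold st_kM
        by_cases hSS : S = insert i₀ A₀
        · rw [if_pos hSS, zero_mul]
          exact Nat.cast_nonneg _
        · rw [if_neg hSS, ← st_card hI hCfg S hS hS0, exd_card_elim, exd_card_elim]
          refine le_of_eq ?_
          congr 2
          refine Nat.card_congr ⟨fun x => ⟨⟨x.1, fun h => hSS (x.2.symm.trans h)⟩, x.2⟩,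
            fun x => ⟨x.1.1, x.2⟩, fun _ => rfl, fun _ => rfl⟩

end Pool.Agent.GD.BE

end
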