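import Pool.Agent.H94.LP7.M15
import Pool.Agent.H94.LP7.M25
import Pool.Agent.H94.LP7.M44
import Pool.Agent.H94.LP7.M60

/-! The parts of this file: GD.AL.Ph1a, GD.BE.Frm, GD.BE.FrmN. -/

section

/-!
# General d, ALPHA, part C: a tied member, the virtual dimensions

`tie_pos`: if one member of a cluster is tied, the virtual dimensions drop by at most four times the weight of the
cluster.
-/

set_option autoImplicit false

namespace Pool.Agent.GD.AL

open Finset

section

variable {d J D e : ℕ} {σ : St} {I : Finset ℕ} {c0 : ℕ → ℕ} {n0 : ℕ}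

theorem nz_nn (c0 : ℕ → ℕ) (n0 : ℕ) (I : Finset ℕ) (D : ℕ) : 0 ≤ nz c0 n0 I D := by
  unfold nz
  positivity

theorem Rf.le_n0 {K : ℝ} (hR : Rf J c0 n0 K) (hK : 0 ≤ K) : K ≤ n0 := by
  have h1 : (0 : ℝ) ≤ ∑ l ∈ range J, (c0 l : ℝ) := sum_nonneg fun _ _ => Nat.cast_nonneg _
  have h2 := hR.n
  nlinarith

theorem Rf.mono {K K' : ℝ} (hR : Rf J c0 n0 K) (h : K' ≤ K) : Rf J c0 n0 K' := by
  have h1 : (0 : ℝ) ≤ ∑ l ∈ range J, (c0 l : ℝ) := sum_nonneg fun _ _ => Nat.cast_nonneg _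
  refine ⟨fun l hl => h.trans (hR.c l hl), le_trans ?_ hR.n⟩
  exact mul_le_mul_of_nonneg_right h (by linarith)

/-- The objects are harmless in low degrees. -/
theorem low_adm {k : Kd} (h : AdmO d J k ∨ AdmC d J e k) : k.Low (range J) := by
  rcases h with ⟨x, A, rfl, -, -, -, h4⟩ | ⟨dl, i, As, rfl, h1, h2, h3, h4, h5⟩
  · exact h4
  · refine ⟨h2, fun A hA => ?_⟩
    obtain ⟨h6, h7⟩ := h5 A hA
    refine ⟨fun h => notMem_erase i _ (h6 h), ?_⟩
    have h8 : range J \ A ⊆ insert i ((range J).erase i \ A) := by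
      intro x hx
      rw [mem_sdiff] at hx
      rw [mem_insert, mem_sdiff, mem_erase]
      by_cases h : x = i
      · exact Or.inl h
      · exact Or.inr ⟨⟨h, hx.1⟩, hx.2⟩
    have h9 := (card_le_card h8).trans (card_insert_le _ _)
    omega

theorem V_zero_low {J' : ℕ} {ms : Multiset Kd} (hm : ∀ k ∈ ms, k.Low (range J')) {I' : Finset ℕ}
    (hI : I' ⊆ range J') {D' : ℕ} (hD : D' < I'.card) : (σ.wm ms).V J' I' D' = 0 := by
  refine vd_low (J := range J') ?_ ms hm I' hI D' hD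
  unfold St.n
  exact Nat.le_add_right _ _

/-- The members as ordinary objects. -/
theorem admO_mb {dl i : ℕ} {As : List (Finset ℕ)} (hk : AdmC d J e (.cl e dl i As)) {A : Finset ℕ}
    (hA : A ∈ As) : AdmO d J (.ord e A) ∧ AdmO d J (.ord e (insert i A)) ∧
      AdmO d J (.ord (e - 1) (insert i A)) := by
  have hlow := low_adm (Or.inr hk : AdmO d J (.cl e dl i As) ∨ AdmC d J e (.cl e dl i As))
  obtain ⟨dl', i', As', h, he, h1, htr, hi, hAs⟩ := hk
  injection h with _ _ h3 h4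
  subst h3
  subst h4
  obtain ⟨h5, h6⟩ := hAs A hA
  have hlen : e ≤ d := by
    unfold trx at htr
    have h7 : 1 * (e - 1) ≤ As.length * (e - 1) := Nat.mul_le_mul_right _ h1
    omega
  have hins : insert i A ⊆ range J := by
    rw [insert_subset_iff]
    exact ⟨mem_range.2 hi, h5.trans (erase_subset _ _)⟩
  have h7 : range J \ insert i A = (range J).erase i \ A := by
    ext x
    rw [mem_sdiff, mem_sdiff, mem_insert, mem_erase]
    tauto
  refine ⟨⟨e, A, rfl, by omega, hlen, h5.trans (erase_subset _ _), (hlow.2 A hA).2⟩,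
    ⟨e, insert i A, rfl, by omega, hlen, hins, ?_⟩,
    ⟨e - 1, insert i A, rfl, by omega, by omega, hins, ?_⟩⟩
  · rw [h7]
    omega
  · rw [h7]
    exact h6

theorem mb_split (e : ℕ) (L₁ L₂ : List (Finset ℕ)) (A : Finset ℕ) :
    mb e (L₁ ++ A :: L₂) = .ord e A ::ₘ mb e (L₂ ++ L₁) := by
  unfold mb
  rw [List.map_append, List.map_append, List.map_cons, ← Multiset.coe_add, ← Multiset.coe_add,
    ← Multiset.cons_coe, Multiset.add_cons, add_comm]

/-- The virtual dimensions with one member apart. -/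
theorem V_tie {I' : Finset ℕ} {D' dl i : ℕ} {L₁ L₂ : List (Finset ℕ)} {A : Finset ℕ}
    {ms : Multiset Kd} (hiA : ∀ A' ∈ L₁ ++ A :: L₂, i ∉ A') :
    (σ.wm (.cl e dl i (L₁ ++ A :: L₂) ::ₘ ms)).V J I' D' =
      (σ.wm (mb e (L₂ ++ L₁) + ms)).V J I' D' -
        (if e ≤ D' then (σ.wm (mb e (L₂ ++ L₁) + ms)).V J (I' ∩ A) (D' - e) else 0) +
        (if i ∈ I' ∧ trx e dl (L₁ ++ A :: L₂).length ≤ D' then
          (σ.wm ms).V J (I'.erase i ∩ inter (L₁ ++ A :: L₂))
              (D' - trx e dl (L₁ ++ A :: L₂).length) -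
            (σ.wm ms).V J (insert i (I'.erase i ∩ inter (L₁ ++ A :: L₂)))
              (D' - trx e dl (L₁ ++ A :: L₂).length) else 0) := by
  have h1 : ∀ D'' I'', vd D'' I'' σ.c (σ.n J) (mb e (L₁ ++ A :: L₂) + ms) =
      vd D'' I'' σ.c (σ.n J) (mb e (L₂ ++ L₁) + ms) -
        (if e ≤ D'' then vd (D'' - e) (I'' ∩ A) σ.c (σ.n J) (mb e (L₂ ++ L₁) + ms) else 0) := by
    intro D'' I''
    rw [mb_split, Multiset.cons_add, vd_ord]
  show vd D' I' σ.c (σ.n J) (.cl e dl i (L₁ ++ A :: L₂) ::ₘ ms) =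
    vd D' I' σ.c (σ.n J) (mb e (L₂ ++ L₁) + ms) -
      (if e ≤ D' then vd (D' - e) (I' ∩ A) σ.c (σ.n J) (mb e (L₂ ++ L₁) + ms) else 0) +
      (if i ∈ I' ∧ trx e dl (L₁ ++ A :: L₂).length ≤ D' then
        vd (D' - trx e dl (L₁ ++ A :: L₂).length) (I'.erase i ∩ inter (L₁ ++ A :: L₂)) σ.c
            (σ.n J) ms -
          vd (D' - trx e dl (L₁ ++ A :: L₂).length)
            (insert i (I'.erase i ∩ inter (L₁ ++ A :: L₂))) σ.c (σ.n J) ms else 0)
  rw [← h1]
  by_cases hi : i ∈ I'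
  · rw [vd_clu D' σ.c (σ.n J) e dl hiA hi ms]
    congr 1
    by_cases h2 : trx e dl (L₁ ++ A :: L₂).length ≤ D'
    · rw [if_pos h2, if_pos ⟨hi, h2⟩]
    · rw [if_neg h2, if_neg fun h => h2 h.2]
  · rw [vd_clu_not D' σ.c (σ.n J) e dl hi ms, if_neg fun h => hi h.1, add_zero]
    rfl

theorem card_cut' {I I' A : Finset ℕ} {J x : ℕ} (hI : I ⊆ range J)
    (hA : (range J \ A).card ≤ x) : (I \ (I' ∩ A)).card ≤ (I \ I').card + x := by
  have h1 : I \ (I' ∩ A) ⊆ (I \ I') ∪ (range J \ A) := by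
    intro y hy
    rw [mem_sdiff] at hy
    rw [mem_union, mem_sdiff, mem_sdiff]
    by_cases h : y ∈ I'
    · exact Or.inr ⟨hI hy.1, fun hyA => hy.2 (Finset.mem_inter.2 ⟨h, hyA⟩)⟩
    · exact Or.inl ⟨hy.1, h⟩
  have h2 := (card_le_card h1).trans (card_union_le _ _)
  omega

/-- The bounds of the virtual dimensions of a state at the pairs below `(I, D)`. -/
def Bd (J : ℕ) (c0 : ℕ → ℕ) (n0 : ℕ) (I : Finset ℕ) (D : ℕ) (σ : St) : Prop :=
  ∀ I' ⊆ I, ∀ D' : ℕ, I'.card ≤ D' → D' + (I \ I').card ≤ D →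
    0 ≤ (σ.V J I' D' : ℝ) ∧ (σ.V J I' D' : ℝ) ≤ 2 * nz c0 n0 I' D'

/-- **A tied member.** -/
theorem tie_pos {dl i : ℕ} {L₁ L₂ : List (Finset ℕ)} {A : Finset ℕ} {ms : Multiset Kd}
    (hR : Rf J c0 n0 1) (hI : I ⊆ range J) (hm : ∀ k ∈ ms, AdmO d J k ∨ AdmC d J e k)
    (hk : AdmC d J e (.cl e dl i (L₁ ++ A :: L₂)))
    (hb1 : Bd J c0 n0 I D (σ.wm (mb e (L₂ ++ L₁) + ms))) (hb2 : Bd J c0 n0 I D (σ.wm ms))
    (hom : om c0 n0 J (.cl e dl i (L₁ ++ A :: L₂)) = rl c0 n0 e ((range J).erase i \ A)) :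
    ∀ I' ⊆ I, ∀ D' : ℕ, I'.card ≤ D' → D' + (I \ I').card ≤ D →
      ((σ.wm (.cl e dl i (L₁ ++ A :: L₂) ::ₘ ms)).V J I' D' : ℝ) -
          4 * om c0 n0 J (.cl e dl i (L₁ ++ A :: L₂)) * nz c0 n0 I' D' ≤
        (σ.wm (.ord (e - 1) (insert i A) ::ₘ (mb e (L₂ ++ L₁) + ms))).V J I' D' := by
  intro I' hI' D' hD' hID'
  have hk0 := hk
  obtain ⟨he, hlen0, htr, hiJ, hAs⟩ := hk.ok
  have hiAs : ∀ A' ∈ L₁ ++ A :: L₂, i ∉ A' := fun A' hA' h =>
    notMem_erase i (range J) (hAs A' hA' h)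
  have hAm : A ∈ L₁ ++ A :: L₂ := by simp
  have hlowk := low_adm (Or.inr hk : AdmO d J _ ∨ AdmC d J e _)
  have hlms : ∀ k ∈ ms, k.Low (range J) := fun k h => low_adm (hm k h)
  have hlR : ∀ k ∈ mb e (L₂ ++ L₁) + ms, k.Low (range J) := by
    intro k h
    rcases Multiset.mem_add.1 h with h | h
    · unfold mb at h
      rw [Multiset.mem_coe, List.mem_map] at h
      obtain ⟨A', hA', rfl⟩ := h
      refine (hlowk.2 A' ?_).2
      rw [List.mem_append] at hA'
      rw [List.mem_append, List.mem_cons]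
      tauto
    · exact hlms k h
  obtain ⟨hA1, hA2, hA3⟩ := admO_mb hk hAm
  obtain ⟨x1, B1, e1, -, -, hB1, hc1⟩ := hA1
  injection e1 with e1 e1'
  subst e1
  subst e1'
  obtain ⟨x3, B3, e3, -, -, hB3, hc3⟩ := hA3
  injection e3 with e3 e3'
  subst e3
  subst e3'
  have hIJ : I' ⊆ range J := hI'.trans hI
  have hnz := nz_nn c0 n0 I' D'
  have hom0 : 0 ≤ om c0 n0 J (.cl e dl i (L₁ ++ A :: L₂)) := om_nonneg _
  set w := om c0 n0 J (.cl e dl i (L₁ ++ A :: L₂)) with hw
  -- the new object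
  have hnew : (σ.wm (.ord (e - 1) (insert i A) ::ₘ (mb e (L₂ ++ L₁) + ms))).V J I' D' =
      (σ.wm (mb e (L₂ ++ L₁) + ms)).V J I' D' - if e - 1 ≤ D' then
        (σ.wm (mb e (L₂ ++ L₁) + ms)).V J (I' ∩ insert i A) (D' - (e - 1)) else 0 :=
    vd_ord D' I' σ.c (σ.n J) (e - 1) (insert i A) (mb e (L₂ ++ L₁) + ms)
  have hold := V_tie (σ := σ) (J := J) (e := e) (I' := I') (D' := D') (dl := dl) (ms := ms) hiAs
  -- the three terms
  have hT1 : (0 : ℝ) ≤ ((if e ≤ D' then (σ.wm (mb e (L₂ ++ L₁) + ms)).V J (I' ∩ A) (D' - e)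
      else 0 : ℤ) : ℝ) := by
    split_ifs with h
    · by_cases h2 : (I' ∩ A).card ≤ D' - e
      · refine (hb1 (I' ∩ A) (inter_subset_left.trans hI') (D' - e) h2 ?_).1
        have := card_cut' (I' := I') hI hc1
        omega
      · rw [V_zero_low hlR (inter_subset_left.trans hIJ) (by omega)]
        simp
    · simp
  have hT2 : ((if e - 1 ≤ D' then (σ.wm (mb e (L₂ ++ L₁) + ms)).V J (I' ∩ insert i A)
      (D' - (e - 1)) else 0 : ℤ) : ℝ) ≤ 2 * w * nz c0 n0 I' D' := by
    have h0 : (0 : ℝ) ≤ 2 * w * nz c0 n0 I' D' := by positivity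
    split_ifs with h
    · by_cases h2 : (I' ∩ insert i A).card ≤ D' - (e - 1)
      · refine (hb1 (I' ∩ insert i A) (inter_subset_left.trans hI') (D' - (e - 1)) h2 ?_).2.trans ?_
        · have := card_cut' (I' := I') hI hc3
          omega
        · have h3 := nz_rl (c0 := c0) (n0 := n0) (e := e) hR hIJ (i := i) (A := A) (D := D') (by
            obtain ⟨dl', i', As', h, -, -, -, -, hA'⟩ := hk0
            injection h with _ _ h3 h4
            subst h3
            subst h4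
            exact (hA' A hAm).2) h h2
          rw [← hom] at h3
          nlinarith
      · rw [V_zero_low hlR (inter_subset_left.trans hIJ) (by omega)]
        simpa using h0
    · simpa using h0
  have hT3 : ((if i ∈ I' ∧ trx e dl (L₁ ++ A :: L₂).length ≤ D' then
          (σ.wm ms).V J (I'.erase i ∩ inter (L₁ ++ A :: L₂))
              (D' - trx e dl (L₁ ++ A :: L₂).length) -
            (σ.wm ms).V J (insert i (I'.erase i ∩ inter (L₁ ++ A :: L₂)))
              (D' - trx e dl (L₁ ++ A :: L₂).length) else 0 : ℤ) : ℝ) ≤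
      2 * w * nz c0 n0 I' D' := by
    have h0 : (0 : ℝ) ≤ 2 * w * nz c0 n0 I' D' := by positivity
    split_ifs with h
    · obtain ⟨hi, htD⟩ := h
      set J1 := I'.erase i ∩ inter (L₁ ++ A :: L₂) with hJ1
      set E := trx e dl (L₁ ++ A :: L₂).length with hE
      have hiJ1 : i ∉ J1 := fun h => notMem_erase i I' (Finset.mem_inter.1 h).1
      have hJ1I : J1 ⊆ I' := inter_subset_left.trans (erase_subset _ _)
      have hinsI : insert i J1 ⊆ I' := insert_subset hi hJ1I
      have hcard : (I'.erase i \ inter (L₁ ++ A :: L₂)).card ≤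
          (L₁ ++ A :: L₂).length * (e - 1) := by
        refine card_inter_le hi _ (by simp) fun A' hA' => ?_
        obtain ⟨h5, h6⟩ := hlowk.2 A' hA'
        exact ⟨h5, (card_le_card (sdiff_subset_sdiff hIJ le_rfl)).trans h6⟩
      have hcut : (I \ insert i J1).card ≤ (I \ I').card + (L₁ ++ A :: L₂).length * (e - 1) := by
        have h5 : I \ insert i J1 ⊆ (I \ I') ∪ (I'.erase i \ inter (L₁ ++ A :: L₂)) := by
          intro x hx
          rw [mem_sdiff, mem_insert, not_or] at hx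
          rw [mem_union, mem_sdiff, mem_sdiff, mem_erase]
          by_cases h7 : x ∈ I'
          · refine Or.inr ⟨⟨hx.2.1, h7⟩, fun h8 => hx.2.2 ?_⟩
            rw [hJ1, Finset.mem_inter, mem_erase]
            exact ⟨⟨hx.2.1, h7⟩, h8⟩
          · exact Or.inl ⟨hx.1, h7⟩
        exact (card_le_card h5).trans ((card_union_le _ _).trans (Nat.add_le_add_left hcard _))
      have hcut' : (I \ J1).card ≤ (I \ insert i J1).card + 1 := by
        have h5 : I \ J1 ⊆ insert i (I \ insert i J1) := by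
          intro x hx
          rw [mem_sdiff] at hx
          rw [mem_insert, mem_sdiff, mem_insert]
          tauto
        exact (card_le_card h5).trans (card_insert_le _ _)
      have hEdef : E = (L₁ ++ A :: L₂).length * (e - 1) + 1 + dl := rfl
      have hpos : (0 : ℝ) ≤ ((σ.wm ms).V J (insert i J1) (D' - E) : ℝ) := by
        by_cases h5 : (insert i J1).card ≤ D' - E
        · refine (hb2 _ (hinsI.trans hI') _ h5 ?_).1
          omega
        · rw [V_zero_low hlms (hinsI.trans hIJ) (by omega)]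
          simp
      push_cast
      by_cases h5 : J1.card ≤ D' - E
      · have h6 := (hb2 J1 (hJ1I.trans hI') (D' - E) h5 (by omega)).2
        have h7 := bracket_le hR hIJ hk0 hi htD h5
        have h8 : 2 * nz c0 n0 J1 (D' - E) ≤ 2 * w * nz c0 n0 I' D' := by
          rw [mul_assoc]
          exact mul_le_mul_of_nonneg_left h7 (by norm_num)
        linarith
      · rw [V_zero_low hlms (hJ1I.trans hIJ) (by omega)]
        simp only [Int.cast_zero, zero_sub]
        linarith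
    · simpa using h0
  rw [hnew, hold]
  push_cast at hT1 hT2 hT3 ⊢
  linarith

end

end Pool.Agent.GD.AL

end

section

/-!
# General d, block BETA, module Frm: forms and tensors

`vz : Fin q × Fin cz → Fin m` numbers the variables of `q` blocks of the variables `W`.  `vv φ vz S ω` is
the vector with the coordinates `ω` on the blocks of `S ⊆ Fin J ⊕ Fin q` and `0` elsewhere.  `frm`: if the
objects of `rest` have, at the position `p₁`, points `vv S ω` of exponent `#S` for all base points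
(`S ⊆ Fin J`) and all additional points of `PB ν q`, then the forms with coefficient vectors in `F` are
bounded by the junk exponents (not of the form: one variable in every block `i < J` and one in each of `e`
different blocks of `W`), and the tensor spaces of the `α ∉ Bad`.  PROOF: as `V7/BE/Geo.lean`
(`sum_tcr`) and `V7/BE/Form.lean` (`fin_bound`).
-/

set_option autoImplicit false
set_option linter.unusedSectionVars false

namespace Pool.Agent.GD.BE

open Finset MvPolynomial Module Pool.Agent.H51.TB Topology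
open Pool.Agent.GD.Top (Bl TI Gam IsB SF)

variable {c : ℕ → ℕ} {cz J e q m n d : ℕ}

/-- The vector with the coordinates `ω` on the blocks of `S`. -/
noncomputable def vv (φ : Bl c J ⊕ Fin m ≃ Fin n) (vz : Fin q × Fin cz → Fin m)
    (S : Finset (Fin J ⊕ Fin q)) (ω : RC c cz J q → ℂ) : Fin n → ℂ := fun s =>
  Sum.elim (fun x : Bl c J => if Sum.inl x.1 ∈ S then ω (Sum.inl x) else 0)
    (fun t => ∑ y : Fin q × Fin cz, if vz y = t ∧ Sum.inr y.1 ∈ S then ω (Sum.inr y) else 0)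
    (φ.symm s)

/-- The tensors of the base slots as tensors on all slots. -/
noncomputable def ext (e cz : ℕ) (F : Submodule ℂ (TI c J → ℂ)) :
    Submodule ℂ ((∀ i : Fin J ⊕ Fin e, Fin (cd c cz i)) → ℂ) :=
  F.map (LinearMap.funLeft ℂ ℂ fun (w : ∀ i : Fin J ⊕ Fin e, Fin (cd c cz i)) =>
    (fun i => w (Sum.inl i) : TI c J))

private theorem map_finrank {A B : Type} (f : (A → ℂ) →ₗ[ℂ] (B → ℂ)) (hf : Function.Injective f)
    (F : Submodule ℂ (A → ℂ)) : finrank ℂ (F.map f) = finrank ℂ F := by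
  rw [← LinearMap.range_domRestrict]
  exact LinearMap.finrank_range_of_inj fun x y h => Subtype.ext (hf h)

theorem finrank_ext (hz : 0 < cz) (F : Submodule ℂ (TI c J → ℂ)) :
    finrank ℂ (ext e cz F) = finrank ℂ F := by
  have hsurj : Function.Surjective (fun (w : ∀ i : Fin J ⊕ Fin e, Fin (cd c cz i)) =>
      (fun i => w (Sum.inl i) : TI c J)) := by
    intro a
    refine ⟨fun i => match i with
      | Sum.inl j => a j
      | Sum.inr _ => ⟨0, hz⟩, rfl⟩
  have hinj : Function.Injective (LinearMap.funLeft ℂ ℂ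
      fun (w : ∀ i : Fin J ⊕ Fin e, Fin (cd c cz i)) => (fun i => w (Sum.inl i) : TI c J)) :=
    LinearMap.funLeft_injective_of_surjective ℂ ℂ _ hsurj
  exact map_finrank (A := TI c J) _ hinj F

theorem ext_le (F : Submodule ℂ (TI c J → ℂ)) :
    ext e cz F ≤ Dep (cd c cz) (tb J e) := by
  rintro _ ⟨g, -, rfl⟩
  intro w w' h
  show g (fun i => w (Sum.inl i)) = g (fun i => w' (Sum.inl i))
  congr 1
  funext i
  exact h (Sum.inl i) (mem_filter.2 ⟨mem_univ _, rfl⟩)

/-- The number of the exponents which are not of the form used. -/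
noncomputable def jk (c : ℕ → ℕ) (cz J e q n d : ℕ) : ℕ :=
  (Ex (blk c n) d (range J)).card - (∏ i ∈ range J, c i) * cz ^ e * q.choose e

section conditions

variable {ν : Type} [Fintype ν] [DecidableEq ν]

private theorem eval_pt' (β : ν → ℕ) (k : Kd) (x : Fin (d + 1)) (q : ν × Fin (d + 1) → ℂ) (s : ν) :
    eval q (pt β k x (fun s => (X s : MvPolynomial (ν × Fin (d + 1)) ℂ)) s) = pt β k x q s := by
  rcases k with ⟨e, A⟩ | ⟨e, dl, i, As⟩
  · simp only [pt, Pool.Agent.V7.msk]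
    split_ifs
    · rw [map_zero]
    · rw [eval_X]
  · simp only [pt, Pool.Agent.V7.msk]
    split_ifs
    · rw [map_zero]
    · rw [map_neg, map_sum]
      congr 1
      refine sum_congr rfl fun y _ => ?_
      split_ifs
      · rw [eval_X]
      · rw [map_zero]
    · rw [eval_X]

private theorem V_pt' {D : ℕ} {β : ν → ℕ} {I : Finset ℕ} {A : Finset (ν → ℕ)} {κ : Type}
    {rest : κ → Kd} {p : κ → ν × Fin (d + 1) → ℂ} {f : {a // a ∈ A} → ℂ}
    (hf : f ∈ (LSA d D β I A).V rest p) (i : κ)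
    (x : Fin (d + 1)) (hx : x.1 < (rest i).nm) (b : ν → ℕ) (hb : ∑ s, b s + (rest i).ex ≤ D) :
    ∑ a : {a // a ∈ A}, f a * Pool.Agent.H18.Ex.tcr (pt β (rest i) x (p i)) a.1 b = 0 := by
  have h1 := (Sys.mem_V _ rest p f).1 hf i (Sum.inl ⟨(x, b), hx, hb⟩)
  rw [← h1]
  refine sum_congr rfl fun a _ => ?_
  rw [mul_comm]
  congr 1
  symm
  show eval (p i) (Pool.Agent.H18.Ex.tcr (pt β (rest i) x fun s =>
    (X s : MvPolynomial (ν × Fin (d + 1)) ℂ)) a.1 b) = _
  unfold Pool.Agent.H18.Ex.tcr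
  rw [map_prod]
  refine prod_congr rfl fun s _ => ?_
  rw [map_mul, map_pow, map_natCast, eval_pt']

end conditions

/-! ### The squarefree exponents -/

open Pool.Agent.V7.BE (ind sum_ind ind_inj tcr_ind tcr_ind_ne range_eq)
open Pool.Agent.H18.Ex (tcr)

namespace FrmP

/-- The coordinates of the slots. -/
def sr (α : Fin e ↪o Fin q) : (Σ i : Fin J ⊕ Fin e, Fin (cd c cz i)) → RC c cz J q
  | ⟨Sum.inl j, z⟩ => Sum.inl ⟨j, z⟩
  | ⟨Sum.inr h, z⟩ => Sum.inr (α h, z)

/-- The block of a coordinate. -/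
def bk : RC c cz J q → Fin J ⊕ Fin q
  | Sum.inl y => Sum.inl y.1
  | Sum.inr y => Sum.inr y.1

theorem bk_sr (α : Fin e ↪o Fin q) (x : Fin J ⊕ Fin e) (t : Fin (cd c cz x)) :
    bk (sr α ⟨x, t⟩ : RC c cz J q) = emb J α x := by
  rcases x with j | h <;> rfl

theorem pull_sr (α : Fin e ↪o Fin q) (ω : RC c cz J q → ℂ)
    (x : Σ i : Fin J ⊕ Fin e, Fin (cd c cz i)) : pull α ω x = ω (sr α x) := by
  rcases x with ⟨j | h, t⟩ <;> rfl

theorem sr_inj (α : Fin e ↪o Fin q) : Function.Injective (sr α :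
    (Σ i : Fin J ⊕ Fin e, Fin (cd c cz i)) → RC c cz J q) := by
  rintro ⟨j | h, t⟩ ⟨j' | h', t'⟩ hh
  · have h1 : (⟨j, t⟩ : Σ j : Fin J, Fin (c j)) = ⟨j', t'⟩ := Sum.inl_injective hh
    cases h1
    rfl
  · exact absurd hh Sum.inl_ne_inr
  · exact absurd hh Sum.inr_ne_inl
  · have h1 : (α h, t) = (α h', t') := Sum.inr_injective hh
    have h2 : h = h' := α.injective (congrArg Prod.fst h1)
    subst h2
    have h3 : t = t' := congrArg Prod.snd h1
    subst h3
    rfl

theorem exists_sr (α : Fin e ↪o Fin q) (y : RC c cz J q) (x : Fin J ⊕ Fin e)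
    (h : bk y = emb J α x) : ∃ t : Fin (cd c cz x), y = sr α ⟨x, t⟩ := by
  rcases y with ⟨j, t⟩ | ⟨b, t⟩ <;> rcases x with j' | h'
  · have h1 : j = j' := Sum.inl_injective h
    subst h1
    exact ⟨t, rfl⟩
  · exact absurd h Sum.inl_ne_inr
  · exact absurd h Sum.inr_ne_inl
  · have h1 : b = α h' := Sum.inr_injective h
    subst h1
    exact ⟨t, rfl⟩

/-- The numbering of the variables. -/
def vn (φ : Bl c J ⊕ Fin m ≃ Fin n) (vz : Fin q × Fin cz → Fin m) (y : RC c cz J q) : Fin n :=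
  φ (Sum.map id vz y)

theorem vn_inj (φ : Bl c J ⊕ Fin m ≃ Fin n) {vz : Fin q × Fin cz → Fin m}
    (hvz : Function.Injective vz) : Function.Injective (vn φ vz) :=
  φ.injective.comp (Sum.map_injective.2 ⟨Function.injective_id, hvz⟩)

theorem vv_vn (φ : Bl c J ⊕ Fin m ≃ Fin n) {vz : Fin q × Fin cz → Fin m}
    (hvz : Function.Injective vz) (S : Finset (Fin J ⊕ Fin q)) (ω : RC c cz J q → ℂ)
    (y : RC c cz J q) : vv φ vz S ω (vn φ vz y) = if bk y ∈ S then ω y else 0 := by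
  unfold vv vn
  rw [Equiv.symm_apply_apply]
  rcases y with y | y
  · rfl
  · show ∑ y' : Fin q × Fin cz, (if vz y' = vz y ∧ Sum.inr y'.1 ∈ S then ω (Sum.inr y') else 0) = _
    rw [sum_eq_single y]
    · have h1 : (vz y = vz y ∧ (Sum.inr y.1 : Fin J ⊕ Fin q) ∈ S) ↔
          bk (Sum.inr y : RC c cz J q) ∈ S := ⟨fun h => h.2, fun h => ⟨rfl, h⟩⟩
      by_cases h2 : bk (Sum.inr y : RC c cz J q) ∈ S
      · rw [if_pos (h1.2 h2), if_pos h2]
      · rw [if_neg fun h => h2 (h1.1 h), if_neg h2]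
    · intro y' _ hy'
      rw [if_neg]
      rintro ⟨h1, -⟩
      exact hy' (hvz h1)
    · intro h
      exact absurd (mem_univ y) h

theorem vv_ne (φ : Bl c J ⊕ Fin m ≃ Fin n) {vz : Fin q × Fin cz → Fin m}
    {S : Finset (Fin J ⊕ Fin q)} {ω : RC c cz J q → ℂ} {s : Fin n} (h : vv φ vz S ω s ≠ 0) :
    ∃ y : RC c cz J q, bk y ∈ S ∧ vn φ vz y = s := by
  obtain ⟨x, rfl⟩ := φ.surjective s
  unfold vv at h
  rw [Equiv.symm_apply_apply] at h
  rcases x with y | t
  · have h1 : (if Sum.inl y.1 ∈ S then ω (Sum.inl y) else 0) ≠ 0 := h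
    refine ⟨Sum.inl y, ?_, rfl⟩
    by_contra h2
    exact h1 (if_neg h2)
  · have h1 : ∑ y : Fin q × Fin cz, (if vz y = t ∧ Sum.inr y.1 ∈ S then ω (Sum.inr y) else 0) ≠ 0 := h
    obtain ⟨y, -, hy⟩ := exists_ne_zero_of_sum_ne_zero h1
    have h2 : vz y = t ∧ (Sum.inr y.1 : Fin J ⊕ Fin q) ∈ S := by
      by_contra h2
      exact hy (if_neg h2)
    refine ⟨Sum.inr y, h2.2, ?_⟩
    show φ (Sum.inr (vz y)) = φ (Sum.inr t)
    rw [h2.1]

/-- The variable of a slot. -/
def sv (φ : Bl c J ⊕ Fin m ≃ Fin n) (vz : Fin q × Fin cz → Fin m) (α : Fin e ↪o Fin q)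
    (x : Σ i : Fin J ⊕ Fin e, Fin (cd c cz i)) : Fin n := vn φ vz (sr α x)

theorem sv_inj (φ : Bl c J ⊕ Fin m ≃ Fin n) {vz : Fin q × Fin cz → Fin m}
    (hvz : Function.Injective vz) (α : Fin e ↪o Fin q) : Function.Injective (sv φ vz α :
      (Σ i : Fin J ⊕ Fin e, Fin (cd c cz i)) → Fin n) := (vn_inj φ hvz).comp (sr_inj α)

/-- The variables `w x`, `x ∈ S`. -/
def pS (φ : Bl c J ⊕ Fin m ≃ Fin n) (vz : Fin q × Fin cz → Fin m) (α : Fin e ↪o Fin q)
    (S : Finset (Fin J ⊕ Fin e)) (w : ∀ i : Fin J ⊕ Fin e, Fin (cd c cz i)) : Finset (Fin n) :=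
  S.image fun x => sv φ vz α ⟨x, w x⟩

/-- The squarefree exponents. -/
def mn (φ : Bl c J ⊕ Fin m ≃ Fin n) (vz : Fin q × Fin cz → Fin m) (α : Fin e ↪o Fin q)
    (w : ∀ i : Fin J ⊕ Fin e, Fin (cd c cz i)) : Fin n → ℕ := ind (pS φ vz α univ w)

theorem mem_pS {φ : Bl c J ⊕ Fin m ≃ Fin n} {vz : Fin q × Fin cz → Fin m} {α : Fin e ↪o Fin q}
    {S : Finset (Fin J ⊕ Fin e)} {w : ∀ i : Fin J ⊕ Fin e, Fin (cd c cz i)} {s : Fin n} :
    s ∈ pS φ vz α S w ↔ ∃ x ∈ S, sv φ vz α ⟨x, w x⟩ = s := by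
  unfold pS
  rw [mem_image]

variable {φ : Bl c J ⊕ Fin m ≃ Fin n} {vz : Fin q × Fin cz → Fin m}

theorem sv_slot (hvz : Function.Injective vz) {α α' : Fin e ↪o Fin q}
    {x x' : Σ i : Fin J ⊕ Fin e, Fin (cd c cz i)} (h : sv φ vz α x = sv φ vz α' x') :
    emb J α x.1 = emb J α' x'.1 := by
  rw [← bk_sr (c := c) (cz := cz) α x.1 x.2, ← bk_sr (c := c) (cz := cz) α' x'.1 x'.2]
  exact congrArg bk (vn_inj φ hvz h)

theorem pS_inj (hvz : Function.Injective vz) (α : Fin e ↪o Fin q)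
    (w : ∀ i : Fin J ⊕ Fin e, Fin (cd c cz i)) :
    Function.Injective fun x => sv φ vz α ⟨x, w x⟩ := by
  intro x x' h
  exact congrArg Sigma.fst (sv_inj φ hvz α h)

theorem card_pS (hvz : Function.Injective vz) (α : Fin e ↪o Fin q)
    (S : Finset (Fin J ⊕ Fin e)) (w : ∀ i : Fin J ⊕ Fin e, Fin (cd c cz i)) :
    (pS φ vz α S w).card = S.card := card_image_of_injective _ (pS_inj hvz α w)

theorem emb_eq {α α' : Fin e ↪o Fin q} (h : ∀ z, ∃ x, emb J α x = emb J α' z) : α' = α := by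
  refine range_eq fun z => ?_
  obtain ⟨x, hx⟩ := h (Sum.inr z)
  rcases x with i | x
  · exact absurd hx Sum.inl_ne_inr
  · exact ⟨x, Sum.inr_injective hx⟩

theorem pS_sub (hvz : Function.Injective vz) (α : Fin e ↪o Fin q)
    (S : Finset (Fin J ⊕ Fin e)) (w w' : ∀ i : Fin J ⊕ Fin e, Fin (cd c cz i)) :
    pS φ vz α S w ⊆ pS φ vz α univ w' ↔ ∀ j ∈ S, w' j = w j := by
  constructor
  · intro h j hj
    obtain ⟨x, -, hx⟩ := mem_pS.1 (h (mem_pS.2 ⟨j, hj, rfl⟩))
    have h1 := sv_inj φ hvz α hx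
    have h2 : x = j := congrArg Sigma.fst h1
    subst h2
    exact eq_of_heq (Sigma.mk.inj_iff.1 h1).2
  · intro h s hs
    obtain ⟨x, hx, rfl⟩ := mem_pS.1 hs
    exact mem_pS.2 ⟨x, mem_univ x, by rw [h x hx]⟩

theorem mn_inj (hvz : Function.Injective vz) {α α' : Fin e ↪o Fin q}
    {w w' : ∀ i : Fin J ⊕ Fin e, Fin (cd c cz i)}
    (h : mn φ vz α w = mn φ vz α' w') : α' = α ∧ w' = w := by
  have h1 : pS φ vz α univ w = pS φ vz α' univ w' := ind_inj h
  have h3 : α' = α := by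
    refine emb_eq (J := J) fun z => ?_
    have h3 : sv φ vz α' ⟨z, w' z⟩ ∈ pS φ vz α univ w := by
      rw [h1]
      exact mem_pS.2 ⟨z, mem_univ z, rfl⟩
    obtain ⟨x, -, hx⟩ := mem_pS.1 h3
    exact ⟨x, sv_slot hvz hx⟩
  subst h3
  exact ⟨rfl, funext fun j => (pS_sub hvz α' univ w w').1 h1.le j (mem_univ j)⟩

/-- The exponents `mn` belong to the level. -/
theorem mn_mem (hd : d = e + J) (hφ : IsB φ (blk c n)) (hvz : Function.Injective vz)
    (α : Fin e ↪o Fin q) (w : ∀ i : Fin J ⊕ Fin e, Fin (cd c cz i)) :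
    mn φ vz α w ∈ Ex (blk c n) d (range J) := by
  rw [mem_Ex]
  constructor
  · unfold mn
    rw [sum_ind, card_pS hvz, card_univ, Fintype.card_sum, Fintype.card_fin, Fintype.card_fin]
    omega
  · intro i hi
    rw [mem_range] at hi
    refine ⟨sv φ vz α ⟨Sum.inl ⟨i, hi⟩, w (Sum.inl ⟨i, hi⟩)⟩, ?_, ?_⟩
    · exact hφ.1 ⟨⟨i, hi⟩, w (Sum.inl ⟨i, hi⟩)⟩
    · unfold mn ind
      rw [if_pos (mem_pS.2 ⟨_, mem_univ _, rfl⟩)]
      exact one_ne_zero

theorem mix_inl (w u : ∀ i : Fin J ⊕ Fin e, Fin (cd c cz i)) (j : Fin J) :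
    mix (tb J e) w u (Sum.inl j) = w (Sum.inl j) := by
  unfold mix
  rw [if_pos]
  exact mem_filter.2 ⟨mem_univ _, rfl⟩

theorem mix_inr (w u : ∀ i : Fin J ⊕ Fin e, Fin (cd c cz i)) (j : Fin e) :
    mix (tb J e) w u (Sum.inr j) = u (Sum.inr j) := by
  unfold mix
  rw [if_neg]
  intro h
  exact absurd (mem_filter.1 h).2 (by simp)

theorem mn_inl (α : Fin e ↪o Fin q) (w : ∀ i : Fin J ⊕ Fin e, Fin (cd c cz i)) (a : TI c J)
    (ha : ∀ j, w (Sum.inl j) = a j) (x : Bl c J) :
    mn φ vz α w (φ (Sum.inl x)) = if x.2 = a x.1 then 1 else 0 := by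
  unfold mn ind
  rcases x with ⟨j, t⟩
  show _ = if t = a j then 1 else 0
  rw [← ha j]
  by_cases h : t = w (Sum.inl j)
  · rw [if_pos h, if_pos (mem_pS.2 ⟨Sum.inl j, mem_univ _, by rw [h]; rfl⟩)]
  · rw [if_neg h, if_neg]
    intro h1
    obtain ⟨y, -, hy⟩ := mem_pS.1 h1
    rcases y with j' | h'
    · have h2 : (⟨j', w (Sum.inl j')⟩ : Bl c J) = ⟨j, t⟩ := Sum.inl_injective (φ.injective hy)
      have h3 : j' = j := congrArg Sigma.fst h2
      subst h3
      exact h (eq_of_heq (Sigma.mk.inj_iff.1 h2).2).symm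
    · exact absurd (φ.injective hy) Sum.inr_ne_inl

theorem mn_inr_congr (α : Fin e ↪o Fin q) (w w' : ∀ i : Fin J ⊕ Fin e, Fin (cd c cz i))
    (h : ∀ i, w (Sum.inr i) = w' (Sum.inr i)) (t : Fin m) :
    mn φ vz α w (φ (Sum.inr t)) = mn φ vz α w' (φ (Sum.inr t)) := by
  have key : ∀ w w' : ∀ i : Fin J ⊕ Fin e, Fin (cd c cz i), (∀ i, w (Sum.inr i) = w' (Sum.inr i)) →
      φ (Sum.inr t) ∈ pS φ vz α univ w → φ (Sum.inr t) ∈ pS φ vz α univ w' := by
    intro w w' h h1
    obtain ⟨y, -, hy⟩ := mem_pS.1 h1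
    rcases y with j' | h'
    · exact absurd (φ.injective hy) Sum.inl_ne_inr
    · rw [h h'] at hy
      exact mem_pS.2 ⟨Sum.inr h', mem_univ _, hy⟩
  unfold mn ind
  by_cases h1 : φ (Sum.inr t) ∈ pS φ vz α univ w
  · rw [if_pos h1, if_pos (key w w' h h1)]
  · rw [if_neg h1, if_neg fun h2 => h1 (key w' w (fun i => (h i).symm) h2)]

/-- The Taylor coefficients of the squarefree monomials. -/
theorem tcr_mn (hvz : Function.Injective vz) (α : Fin e ↪o Fin q) (S : Finset (Fin J ⊕ Fin e))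
    (y : (Σ i : Fin J ⊕ Fin e, Fin (cd c cz i)) → ℂ) {P : Fin n → ℂ}
    (hP : ∀ x ∈ S, ∀ t, P (sv φ vz α ⟨x, t⟩) = y ⟨x, t⟩)
    (w w' : ∀ i : Fin J ⊕ Fin e, Fin (cd c cz i)) :
    tcr P (mn φ vz α w') (ind (pS φ vz α Sᶜ w)) =
      if ∀ j, j ∉ S → w' j = w j then ∏ j ∈ S, y ⟨j, w' j⟩ else 0 := by
  unfold mn
  rw [tcr_ind]
  have h1 : pS φ vz α Sᶜ w ⊆ pS φ vz α univ w' ↔ ∀ j, j ∉ S → w' j = w j := by
    rw [pS_sub hvz]
    simp only [mem_compl]
  by_cases h2 : ∀ j, j ∉ S → w' j = w j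
  · rw [if_pos (h1.2 h2), if_pos h2]
    have h3 : pS φ vz α Sᶜ w = pS φ vz α Sᶜ w' := by
      unfold pS
      refine image_congr fun x hx => ?_
      have hx' : x ∉ S := by
        intro h3
        have h4 : x ∈ Sᶜ := hx
        rw [mem_compl] at h4
        exact h4 h3
      show sv φ vz α ⟨x, w x⟩ = sv φ vz α ⟨x, w' x⟩
      rw [h2 x hx']
    have h4 : pS φ vz α univ w' \ pS φ vz α Sᶜ w = pS φ vz α S w' := by
      rw [h3]
      unfold pS
      rw [← image_sdiff _ _ (pS_inj hvz α w')]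
      congr 1
      rw [← compl_eq_univ_sdiff, compl_compl]
    rw [h4]
    unfold pS
    rw [prod_image fun a _ b _ h => pS_inj hvz α w' h]
    exact prod_congr rfl fun x hx => hP x hx _
  · rw [if_neg fun h => h2 (h1.1 h), if_neg h2]

/-- The key computation. -/
theorem sum_tcr (hvz : Function.Injective vz) {A : Finset (Fin n → ℕ)} {f : {a // a ∈ A} → ℂ}
    (hA : ∀ (α : Fin e ↪o Fin q) (w : ∀ i : Fin J ⊕ Fin e, Fin (cd c cz i)), mn φ vz α w ∈ A)
    (hf : ∀ a, f a ≠ 0 → ∃ (α : Fin e ↪o Fin q) (w : ∀ i : Fin J ⊕ Fin e, Fin (cd c cz i)),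
      a.1 = mn φ vz α w)
    (α : Fin e ↪o Fin q) (S : Finset (Fin J ⊕ Fin e))
    (y : (Σ i : Fin J ⊕ Fin e, Fin (cd c cz i)) → ℂ) {P : Fin n → ℂ}
    (hP : ∀ x ∈ S, ∀ t, P (sv φ vz α ⟨x, t⟩) = y ⟨x, t⟩)
    (hP0 : ∀ s, P s ≠ 0 → ∃ x ∈ S, ∃ t, sv φ vz α ⟨x, t⟩ = s)
    (w : ∀ i : Fin J ⊕ Fin e, Fin (cd c cz i)) :
    ∑ a : {a // a ∈ A}, f a * tcr P a.1 (ind (pS φ vz α Sᶜ w)) =
      ctr S y (fun w' => f ⟨mn φ vz α w', hA α w'⟩) w := by
  classical
  symm
  unfold ctr
  refine Fintype.sum_of_injective (fun w' => (⟨mn φ vz α w', hA α w'⟩ : {a // a ∈ A})) ?_ _ _ ?_ ?_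
  · intro w₁ w₂ h
    exact ((mn_inj hvz (congrArg Subtype.val h)).2).symm
  · intro a ha
    by_contra hne
    have hfa : f a ≠ 0 := left_ne_zero_of_mul hne
    have hta := right_ne_zero_of_mul hne
    obtain ⟨α', w', haw⟩ := hf a hfa
    rw [haw] at hta
    obtain ⟨-, h3⟩ := tcr_ind_ne hta
    have h5 : α' = α := by
      refine emb_eq (J := J) fun z => ?_
      by_cases hz : sv φ vz α' ⟨z, w' z⟩ ∈ pS φ vz α Sᶜ w
      · obtain ⟨x, -, hx'⟩ := mem_pS.1 hz
        exact ⟨x, sv_slot hvz hx'⟩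
      · have h5 : sv φ vz α' ⟨z, w' z⟩ ∈ pS φ vz α' univ w' \ pS φ vz α Sᶜ w := by
          rw [mem_sdiff]
          exact ⟨mem_pS.2 ⟨z, mem_univ z, rfl⟩, hz⟩
        obtain ⟨x, -, t, hxt⟩ := hP0 _ (h3 _ h5)
        exact ⟨x, sv_slot hvz hxt⟩
    subst h5
    exact ha ⟨w', Subtype.ext haw.symm⟩
  · intro w'
    show _ = f ⟨mn φ vz α w', hA α w'⟩ * tcr P (mn φ vz α w') (ind (pS φ vz α Sᶜ w))
    rw [tcr_mn hvz α S y hP]
    split_ifs
    · rw [mul_comm]
    · rw [mul_zero]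

/-- The values of the point on the slots. -/
theorem vv_sv (hvz : Function.Injective vz) (α : Fin e ↪o Fin q) (S : Finset (Fin J ⊕ Fin e))
    (ω : RC c cz J q → ℂ) : (∀ x ∈ S, ∀ t, vv φ vz (S.map (emb J α)) ω (sv φ vz α ⟨x, t⟩) =
      pull α ω ⟨x, t⟩) ∧ ∀ s, vv φ vz (S.map (emb J α)) ω s ≠ 0 →
        ∃ x ∈ S, ∃ t, sv φ vz α ⟨x, t⟩ = s := by
  constructor
  · intro x hx t
    unfold sv
    rw [vv_vn φ hvz, bk_sr, if_pos (mem_map_of_mem _ hx), pull_sr]
  · intro s hs
    obtain ⟨y, hy, rfl⟩ := vv_ne φ hs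
    obtain ⟨x, hx, hxy⟩ := mem_map.1 hy
    obtain ⟨t, rfl⟩ := exists_sr α y x hxy.symm
    exact ⟨x, hx, t, rfl⟩

/-- The exponents of the form `mn`. -/
def IsMn (φ : Bl c J ⊕ Fin m ≃ Fin n) (vz : Fin q × Fin cz → Fin m) (e : ℕ)
    (a : {a // a ∈ Ex (blk c n) d (range J)}) : Prop :=
  ∃ (α : Fin e ↪o Fin q) (w : ∀ i : Fin J ⊕ Fin e, Fin (cd c cz i)), a.1 = mn φ vz α w

theorem card_cd : Fintype.card (∀ i : Fin J ⊕ Fin e, Fin (cd c cz i)) =
    (∏ i ∈ range J, c i) * cz ^ e := by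
  rw [Fintype.card_pi, Fintype.prod_sum_type]
  congr 1
  · rw [prod_range]
    exact prod_congr rfl fun i _ => Fintype.card_fin _
  · show ∏ _i : Fin e, Fintype.card (Fin cz) = cz ^ e
    rw [prod_const, card_univ, Fintype.card_fin, Fintype.card_fin]

open Classical in
theorem card_junk (hd : d = e + J) (hφ : IsB φ (blk c n)) (hvz : Function.Injective vz) :
    Fintype.card {a : {a // a ∈ Ex (blk c n) d (range J)} // ¬ IsMn φ vz e a} ≤
      jk c cz J e q n d := by
  have h1 := Fintype.card_congr (Equiv.sumCompl (IsMn (d := d) φ vz e))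
  rw [Fintype.card_sum, Fintype.card_coe] at h1
  have h2 : Fintype.card ((Fin e ↪o Fin q) × (∀ i : Fin J ⊕ Fin e, Fin (cd c cz i))) ≤
      Fintype.card {a : {a // a ∈ Ex (blk c n) d (range J)} // IsMn φ vz e a} := by
    refine Fintype.card_le_of_injective
      (fun x => ⟨⟨mn φ vz x.1 x.2, mn_mem hd hφ hvz x.1 x.2⟩, x.1, x.2, rfl⟩) ?_
    rintro ⟨α, w⟩ ⟨α', w'⟩ h
    have h3 : mn φ vz α w = mn φ vz α' w' :=
      congrArg (fun z : {a : {a // a ∈ Ex (blk c n) d (range J)} // IsMn φ vz e a} => z.1.1) h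
    have h4 := mn_inj hvz h3
    rw [h4.1, h4.2]
  have h5 : Fintype.card (Fin e ↪o Fin q) = q.choose e := by
    rw [← Nat.card_eq_fintype_card, Nat.card_congr Set.powersetCard.ofFinEmbEquiv,
      Set.powersetCard.card, Nat.card_eq_fintype_card, Fintype.card_fin]
  rw [Fintype.card_prod, card_cd, h5, mul_comm] at h2
  unfold jk
  omega

end FrmP

open FrmP

theorem frm (hd : d = e + J) (hc : ∀ i < J, 0 < c i) (hz : 0 < cz)
    (φ : Bl c J ⊕ Fin m ≃ Fin n) (hφ : IsB φ (blk c n))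
    (vz : Fin q × Fin cz → Fin m) (hvz : Function.Injective vz) (ν : Nos J)
    {κ : Type} [Fintype κ] (rest : κ → Kd) (p₁ : κ → Fin n × Fin (d + 1) → ℂ)
    {P₀ : Type} [Fintype P₀] (m₀ : P₀ → Finset (Fin J ⊕ Fin e)) (hm₀ : ∀ z, m₀ z ⊆ tb J e)
    (r : P₀ → (Σ i : Fin J ⊕ Fin e, Fin (cd c cz i)) → ℂ)
    (hbase : ∀ z, ∃ (i : κ) (x : Fin (d + 1)) (ω : RC c cz J q → ℂ), x.1 < (rest i).nm ∧
      (rest i).ex = (m₀ z).card ∧ (∀ y, ω (Sum.inl y) = r z ⟨Sum.inl y.1, y.2⟩) ∧
      pt (blk c n) (rest i) x (p₁ i) =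
        vv φ vz ((lf (m₀ z)).map Function.Embedding.inl) ω)
    (Ω : PB ν q → RC c cz J q → ℂ)
    (hadd : ∀ u : PB ν q, ∃ (i : κ) (x : Fin (d + 1)), x.1 < (rest i).nm ∧
      (rest i).ex = u.1.card ∧ pt (blk c n) (rest i) x (p₁ i) = vv φ vz u.1 (Ω u))
    (Bad : Finset (Fin e ↪o Fin q)) (F : Submodule ℂ (TI c J → ℂ)) :
    finrank ℂ (SF φ ((LS d d (blk c n) (range J)).V rest p₁) F) ≤
      jk c cz J e q n d + ∑ α ∈ univ \ Bad,
          finrank ℂ (KE (tb J e) (Sum.elim m₀ (mC (nhi ν) (cor ν α)))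
            (Sum.elim r (pos ν α Ω)) (ext e cz F)) +
        Bad.card * ((∏ i ∈ range J, c i) * cz ^ e) := by
  classical
  set W := SF φ ((LS d d (blk c n) (range J)).V rest p₁) F with hW
  let ρ : W →ₗ[ℂ] ({a : {a // a ∈ Ex (blk c n) d (range J)} // ¬ IsMn φ vz e a} → ℂ) :=
    (LinearMap.funLeft ℂ ℂ Subtype.val) ∘ₗ W.subtype
  have h1 := ρ.finrank_range_add_finrank_ker
  have h2 : finrank ℂ (LinearMap.range ρ) ≤ Fintype.card
      {a : {a // a ∈ Ex (blk c n) d (range J)} // ¬ IsMn φ vz e a} :=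
    (Submodule.finrank_le _).trans (Module.finrank_fintype_fun_eq_card ℂ).le
  let L : (α : Fin e ↪o Fin q) → ({a // a ∈ Ex (blk c n) d (range J)} → ℂ) →ₗ[ℂ]
      ((∀ i : Fin J ⊕ Fin e, Fin (cd c cz i)) → ℂ) := fun α =>
    LinearMap.funLeft ℂ ℂ fun w' => ⟨mn φ vz α w', mn_mem hd hφ hvz α w'⟩
  have hker : ∀ x : LinearMap.ker ρ, ∀ a,
      ((x : W) : {a // a ∈ Ex (blk c n) d (range J)} → ℂ) a ≠ 0 → IsMn φ vz e a := by
    intro x a ha
    by_contra hcon
    apply ha
    have h3 : ρ x.1 = 0 := x.2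
    exact congrFun h3 ⟨a, hcon⟩
  let K : (Fin e ↪o Fin q) → Submodule ℂ ((∀ i : Fin J ⊕ Fin e, Fin (cd c cz i)) → ℂ) := fun α =>
    if α ∈ Bad then ⊤ else KE (tb J e) (Sum.elim m₀ (mC (nhi ν) (cor ν α)))
      (Sum.elim r (pos ν α Ω)) (ext e cz F)
  have hmem : ∀ (α : Fin e ↪o Fin q) (x : LinearMap.ker ρ),
      (L α ∘ₗ W.subtype ∘ₗ (LinearMap.ker ρ).subtype) x ∈ K α := by
    intro α x
    by_cases hα : α ∈ Bad
    · have hK : K α = ⊤ := if_pos hα
      rw [hK]
      exact Submodule.mem_top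
    have hK : K α = KE (tb J e) (Sum.elim m₀ (mC (nhi ν) (cor ν α)))
      (Sum.elim r (pos ν α Ω)) (ext e cz F) := if_neg hα
    rw [hK, mem_KE]
    have hx : ((x : W) : {a // a ∈ Ex (blk c n) d (range J)} → ℂ) ∈ W := (x : W).2
    obtain ⟨hxV, hxF⟩ := (Pool.Agent.GD.Top.mem_SF φ ((LS d d (blk c n) (range J)).V rest p₁)
      F _).1 hx
    generalize hfx : ((x : W) : {a // a ∈ Ex (blk c n) d (range J)} → ℂ) = f at hxV hxF
    have hf : ∀ a, f a ≠ 0 → IsMn φ vz e a := by
      rw [← hfx]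
      exact hker x
    have hL : (L α ∘ₗ W.subtype ∘ₗ (LinearMap.ker ρ).subtype) x =
        fun w' => f ⟨mn φ vz α w', mn_mem hd hφ hvz α w'⟩ := by
      rw [← hfx]
      rfl
    rw [hL]
    constructor
    · intro u
      refine ⟨fun a => coeff (Pool.Agent.GD.Top.zp φ (mn φ vz α u)) (Gam φ f a), hxF _, ?_⟩
      funext w
      show coeff (Pool.Agent.GD.Top.zp φ (mn φ vz α u)) (Gam φ f fun i => w (Sum.inl i)) =
        f ⟨mn φ vz α (mix (tb J e) w u), mn_mem hd hφ hvz α (mix (tb J e) w u)⟩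
      have e1 : Pool.Agent.GD.Top.zp φ (mn φ vz α u) =
          Pool.Agent.GD.Top.zp φ (mn φ vz α (mix (tb J e) w u)) := by
        ext t
        exact mn_inr_congr α _ _ (fun i => (mix_inr w u i).symm) t
      have e2 : Pool.Agent.GD.Top.HasX φ (fun i => w (Sum.inl i) : TI c J)
          (mn φ vz α (mix (tb J e) w u)) := by
        intro y
        exact mn_inl α _ _ (mix_inl w u) y
      rw [e1]
      exact Pool.Agent.GD.Top.coeff_Gam φ f _
        ⟨mn φ vz α (mix (tb J e) w u), mn_mem hd hφ hvz α (mix (tb J e) w u)⟩ e2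
    · rintro (z | z) w
      · show ctr (m₀ z) (r z) _ w = 0
        obtain ⟨i, y, ω, hy, hex, hω, hpt⟩ := hbase z
        have hS : (lf (m₀ z)).map Function.Embedding.inl = (m₀ z).map (emb J α) := by
          ext b
          rw [mem_map, mem_map]
          constructor
          · rintro ⟨j, hj, rfl⟩
            exact ⟨Sum.inl j, (mem_filter.1 hj).2, rfl⟩
          · rintro ⟨x, hx, rfl⟩
            have h5 := hm₀ z hx
            rcases x with j | h
            · exact ⟨j, mem_filter.2 ⟨mem_univ _, hx⟩, rfl⟩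
            · exact absurd (mem_filter.1 h5).2 (by simp)
        rw [hS] at hpt
        obtain ⟨hv1, hv2⟩ := vv_sv (φ := φ) hvz α (m₀ z) ω
        have h3 := V_pt' hxV i y hy (ind (pS φ vz α (m₀ z)ᶜ w)) (by
          rw [sum_ind, card_pS hvz, card_compl, hex, Fintype.card_sum, Fintype.card_fin,
            Fintype.card_fin]
          have h4 := card_le_univ (m₀ z)
          rw [Fintype.card_sum, Fintype.card_fin, Fintype.card_fin] at h4
          omega)
        rw [hpt, sum_tcr hvz (fun α w => mn_mem hd hφ hvz α w) hf α (m₀ z) (r z)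
          (fun x hx t => ?_) hv2 w] at h3
        · exact h3
        · rw [hv1 x hx t]
          have h5 := hm₀ z hx
          rcases x with j | h
          · exact hω ⟨j, t⟩
          · exact absurd (mem_filter.1 h5).2 (by simp)
      · show ctr (mC (nhi ν) (cor ν α) z) (pos ν α Ω z) _ w = 0
        obtain ⟨i, y, hy, hex, hpt⟩ := hadd ⟨z.1.1.map (emb J α), ⟨z.1.2.1, z.2⟩⟩
        obtain ⟨hv1, hv2⟩ := vv_sv (φ := φ) hvz α z.1.1
          (Ω ⟨z.1.1.map (emb J α), ⟨z.1.2.1, z.2⟩⟩)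
        have h3 := V_pt' hxV i y hy (ind (pS φ vz α (z.1.1)ᶜ w)) (by
          rw [sum_ind, card_pS hvz, card_compl, hex, Fintype.card_sum, Fintype.card_fin,
            Fintype.card_fin, card_map]
          have h4 := card_le_univ z.1.1
          rw [Fintype.card_sum, Fintype.card_fin, Fintype.card_fin] at h4
          omega)
        rw [hpt, sum_tcr hvz (fun α w => mn_mem hd hφ hvz α w) hf α z.1.1
          (pull α (Ω ⟨z.1.1.map (emb J α), ⟨z.1.2.1, z.2⟩⟩)) hv1 hv2 w] at h3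
        exact h3
  let θ : LinearMap.ker ρ →ₗ[ℂ] ((α : Fin e ↪o Fin q) → K α) :=
    LinearMap.pi fun α => LinearMap.codRestrict (K α)
      (L α ∘ₗ W.subtype ∘ₗ (LinearMap.ker ρ).subtype) (hmem α)
  have hθ : Function.Injective θ := by
    intro x y hxy
    apply Subtype.ext
    apply Subtype.ext
    funext a
    by_cases ha : IsMn φ vz e a
    · obtain ⟨α, w, hα⟩ := ha
      have h3 := congrArg Subtype.val (congrFun hxy α)
      have h4 := congrFun h3 w
      have h5 : a = ⟨mn φ vz α w, mn_mem hd hφ hvz α w⟩ := Subtype.ext hα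
      rw [h5]
      exact h4
    · have h3 : ∀ z : LinearMap.ker ρ,
          ((z : W) : {a // a ∈ Ex (blk c n) d (range J)} → ℂ) a = 0 := by
        intro z
        by_contra hne
        exact ha (hker z a hne)
      rw [h3 x, h3 y]
  have h3 := LinearMap.finrank_le_finrank_of_injective hθ
  rw [Module.finrank_pi_fintype] at h3
  have h4 := card_junk (c := c) (cz := cz) (q := q) hd hφ hvz
  have h5 : ∑ α, finrank ℂ (K α) = ∑ α ∈ univ \ Bad,
      finrank ℂ (KE (tb J e) (Sum.elim m₀ (mC (nhi ν) (cor ν α)))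
            (Sum.elim r (pos ν α Ω)) (ext e cz F)) +
        Bad.card * ((∏ i ∈ range J, c i) * cz ^ e) := by
    rw [← sum_sdiff (subset_univ Bad)]
    congr 1
    · refine sum_congr rfl fun α hα => ?_
      have hK : K α = KE (tb J e) (Sum.elim m₀ (mC (nhi ν) (cor ν α)))
        (Sum.elim r (pos ν α Ω)) (ext e cz F) := if_neg (mem_sdiff.1 hα).2
      rw [hK]
    · rw [← smul_eq_mul]
      refine sum_eq_card_nsmul fun α hα => ?_
      have hK : K α = ⊤ := if_pos hα
      rw [hK, finrank_top, Module.finrank_fintype_fun_eq_card, card_cd]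
  rw [h5] at h3
  omega

end Pool.Agent.GD.BE

end

section

/-!
# General d, block BETA, module FrmN: openness, the number of the junk exponents

`frm_near`: as `V7/BE/Form.near_SF`.  `jk_le`: the exponents of degree `e + J` which meet the blocks
`0, …, J - 1` and have degree `< e` in `W` are `O(n ^ (e - 1))`; those of degree `e` in `W` have one variable in
every block: there are `∏ c * multichoose m e`, `m = n - ∑ c`, and `multichoose m e - cz ^ e * choose q e =
O(n ^ (e - 1))` because `q * cz ≤ m ≤ q * cz + R`.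
-/

set_option autoImplicit false
set_option linter.unusedSectionVars false

namespace Pool.Agent.GD.BE

open Finset MvPolynomial Module Pool.Agent.H51.TB Topology Matrix
open Pool.Agent.GD.Top (Bl TI Gam IsB SF)
open Pool.Agent.H21.NX (Sx mem_Sx)
open Pool.Agent.V7.BE (Kx mem_Kx Kx_near)

variable {c : ℕ → ℕ} {cz J e q m n d : ℕ}

/-! ### Openness -/

section Near

open Classical in
/-- the exponent of the coefficient at `α`, `a` -/
private noncomputable def sg (φ : Bl c J ⊕ Fin m ≃ Fin n) (A : Finset (Fin n → ℕ)) (α : Fin m →₀ ℕ)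
    (a : TI c J) : Option {e // e ∈ A} :=
  if h : ∃ e : {e // e ∈ A}, Top.HasX φ a e.1 ∧ Top.zp φ e.1 = α then some h.choose else none

private theorem coeff_sg (φ : Bl c J ⊕ Fin m ≃ Fin n) (A : Finset (Fin n → ℕ)) (α : Fin m →₀ ℕ)
    (a : TI c J) (f : {e // e ∈ A} → ℂ) :
    coeff α (Gam φ f a) = (sg φ A α a).elim 0 f := by
  unfold sg
  split_ifs with h
  · obtain ⟨h1, h2⟩ := h.choose_spec
    rw [Option.elim_some, ← Top.coeff_Gam φ f a h.choose h1, h2]
  · rw [Option.elim_none, Top.Gam_apply, coeff_sum]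
    refine sum_eq_zero fun e _ => ?_
    split_ifs with h1
    · rw [coeff_monomial, if_neg]
      intro h2
      exact h ⟨e, h1, h2⟩
    · exact coeff_zero _

/-- the extension by zero -/
private def exz (E : Type) : (E → ℂ) →ₗ[ℂ] (Option E → ℂ) where
  toFun f o := o.elim 0 f
  map_add' f g := by
    funext o
    cases o
    · exact (add_zero _).symm
    · rfl
  map_smul' x f := by
    funext o
    cases o
    · exact (mul_zero _).symm
    · rfl

private theorem exz_injective (E : Type) : Function.Injective (exz E) := by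
  intro f g h
  funext e
  exact congrFun h (some e)

/-- A bound for all `F` is an open condition. -/
theorem frm_near (φ : Bl c J ⊕ Fin m ≃ Fin n) {κ : Type} [Fintype κ] (rest : κ → Kd)
    (b : ℕ → ℕ) (p₁ : κ → Fin n × Fin (d + 1) → ℂ)
    (h : ∀ F : Submodule ℂ (TI c J → ℂ),
      finrank ℂ (SF φ ((LS d d (blk c n) (range J)).V rest p₁) F) ≤ b (finrank ℂ F)) :
    ∀ᶠ p in 𝓝 p₁, ∀ F : Submodule ℂ (TI c J → ℂ),
      finrank ℂ (SF φ ((LS d d (blk c n) (range J)).V rest p) F) ≤ b (finrank ℂ F) := by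
  classical
  set A := Ex (blk c n) d (range J) with hA'
  have hfin : ∀ i : κ, Finite ((LS d d (blk c n) (range J)).R (rest i)) := fun i =>
    (LS d d (blk c n) (range J)).fin _
  have : ∀ i : κ, Fintype ((LS d d (blk c n) (range J)).R (rest i)) := fun i => Fintype.ofFinite _
  let M : (κ → Fin n × Fin (d + 1) → ℂ) →
      Matrix ((Σ i : κ, (LS d d (blk c n) (range J)).R (rest i)) ⊕ Unit) (Option {e // e ∈ A}) ℂ :=
    fun p x o => Sum.elim (fun x => o.elim 0 fun e =>
      eval (p x.1) ((LS d d (blk c n) (range J)).co (rest x.1) x.2 e))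
      (fun _ => o.elim 1 fun _ => 0) x
  have hM : Continuous M := by
    refine continuous_matrix fun x o => ?_
    rcases x with x | x
    · cases o
      · exact continuous_const
      · exact (MvPolynomial.continuous_eval _).comp (continuous_apply x.1)
    · cases o
      · exact continuous_const
      · exact continuous_const
  let T : Finset (Fin m →₀ ℕ) := univ.image fun e : {e // e ∈ A} => Top.zp φ e.1
  let σ : {α // α ∈ T} → TI c J → Option {e // e ∈ A} := fun α a => sg φ A α.1 a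
  have hMv : ∀ p (G : Option {e // e ∈ A} → ℂ), M p *ᵥ G = 0 ↔ G none = 0 ∧
      ∀ (i : κ) (r : (LS d d (blk c n) (range J)).R (rest i)),
        ∑ e, eval (p i) ((LS d d (blk c n) (range J)).co (rest i) r e) * G (some e) = 0 := by
    intro p G
    have h1 : ∀ x, (M p *ᵥ G) (Sum.inl x) =
        ∑ e, eval (p x.1) ((LS d d (blk c n) (range J)).co (rest x.1) x.2 e) * G (some e) := by
      intro x
      show ∑ o, M p (Sum.inl x) o * G o = _
      rw [Fintype.sum_option]
      show 0 * G none + _ = _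
      rw [zero_mul, zero_add]
      rfl
    have h2 : (M p *ᵥ G) (Sum.inr ()) = G none := by
      show ∑ o, M p (Sum.inr ()) o * G o = _
      rw [Fintype.sum_option]
      show 1 * G none + _ = _
      rw [one_mul, sum_eq_zero, add_zero]
      intro e _
      exact zero_mul _
    constructor
    · intro h3
      exact ⟨by rw [← h2, h3]; rfl, fun i r => by rw [← h1 ⟨i, r⟩, h3]; rfl⟩
    · rintro ⟨h3, h4⟩
      funext x
      rcases x with x | x
      · rw [h1]
        exact h4 x.1 x.2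
      · rw [show x = () from rfl, h2, h3]
        rfl
  have hK : ∀ p F, (SF φ ((LS d d (blk c n) (range J)).V rest p) F).map (exz {e // e ∈ A}) =
      Kx (M p) σ F := by
    intro p F
    ext G
    rw [mem_Kx, hMv, Submodule.mem_map]
    constructor
    · rintro ⟨f, hf, rfl⟩
      rw [Top.mem_SF] at hf
      refine ⟨fun u => ?_, rfl, fun i r => ?_⟩
      · have h1 := hf.2 u.1
        have h2 : (fun a => exz {e // e ∈ A} f (σ u a)) = fun a => coeff u.1 (Gam φ f a) := by
          funext a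
          exact (coeff_sg φ A u.1 a f).symm
        rw [h2]
        exact h1
      · have h1 := hf.1
        rw [Sys.mem_V] at h1
        exact h1 i r
    · rintro ⟨h1, h2, h3⟩
      refine ⟨fun e => G (some e), ?_, ?_⟩
      · rw [Top.mem_SF]
        refine ⟨?_, fun α => ?_⟩
        · rw [Sys.mem_V]
          exact h3
        · by_cases hα : α ∈ T
          · have h4 := h1 ⟨α, hα⟩
            have h5 : (fun a => coeff α (Gam φ (fun e => G (some e)) a)) =
                fun a => G (σ ⟨α, hα⟩ a) := by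
              funext a
              rw [coeff_sg φ A]
              show _ = G (sg φ A α a)
              cases sg φ A α a
              · exact h2.symm
              · rfl
            rw [h5]
            exact h4
          · have h5 : (fun a => coeff α (Gam φ (fun e : {e // e ∈ A} => G (some e)) a)) = 0 := by
              funext a
              rw [coeff_sg φ A]
              have h6 : sg φ A α a = none := by
                unfold sg
                rw [dif_neg]
                rintro ⟨e, -, he⟩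
                exact hα (mem_image.2 ⟨e, mem_univ _, he⟩)
              rw [h6]
              rfl
            rw [h5]
            exact F.zero_mem
      · funext o
        cases o
        · exact h2.symm
        · rfl
  have hKf : ∀ p F, finrank ℂ (SF φ ((LS d d (blk c n) (range J)).V rest p) F) =
      finrank ℂ (Kx (M p) σ F) := by
    intro p F
    rw [← hK]
    exact (Submodule.equivMapOfInjective _ (exz_injective _) _).finrank_eq
  have h1 := Kx_near M hM σ b p₁ (fun F => by rw [← hKf]; exact h F)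
  refine h1.mono fun p hp F => ?_
  rw [hKf]
  exact hp F

end Near

/-! ### The number of the junk exponents -/

section Jk

private theorem FrmN_mono {i j : ℕ} (h : i ≤ j) : ∑ k ∈ range i, c k ≤ ∑ k ∈ range j, c k :=
  sum_le_sum_of_subset (range_mono h)

private theorem FrmN_le (hc : ∀ i < J, 0 < c i) {i : ℕ} (hi : i ≤ J) : i ≤ ∑ k ∈ range i, c k := by
  induction i with
  | zero => exact Nat.zero_le _
  | succ i ih =>
    rw [sum_range_succ]
    have h1 := ih (by omega)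
    have h2 := hc i (by omega)
    omega

private theorem bidx_small (hc : ∀ i < J, 0 < c i) {i r : ℕ} (hi : i < J) (hr : r < c i) :
    bidx c (∑ k ∈ range i, c k + r) = i := by
  unfold bidx
  have h : ((range (∑ k ∈ range i, c k + r + 1)).filter fun k =>
      ∑ l ∈ range (k + 1), c l ≤ ∑ k ∈ range i, c k + r) = range i := by
    ext k
    rw [mem_filter, mem_range, mem_range]
    constructor
    · rintro ⟨-, h2⟩
      by_contra h3
      have h4 := FrmN_mono (c := c) (show i + 1 ≤ k + 1 by omega)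
      rw [sum_range_succ] at h4
      omega
    · intro h1
      have h2 := FrmN_mono (c := c) (show k + 1 ≤ i by omega)
      have h3 := FrmN_le hc hi.le
      omega
  rw [h, card_range]

private theorem le_bidx (hc : ∀ i < J, 0 < c i) {s : ℕ} (hs : ∑ k ∈ range J, c k ≤ s) :
    J ≤ bidx c s := by
  unfold bidx
  have h : range J ⊆ (range (s + 1)).filter fun k => ∑ l ∈ range (k + 1), c l ≤ s := by
    intro k hk
    rw [mem_range] at hk
    rw [mem_filter, mem_range]
    have h2 := FrmN_mono (c := c) (show k + 1 ≤ J by omega)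
    have h3 := FrmN_le hc le_rfl
    omega
  have h1 := card_le_card h
  rwa [card_range] at h1

private theorem exists_phi (hc : ∀ i < J, 0 < c i) (h : ∑ i ∈ range J, c i ≤ n) :
    ∃ φ : Bl c J ⊕ Fin (n - ∑ i ∈ range J, c i) ≃ Fin n, IsB φ (blk c n) := by
  have h0 : ∑ i : Fin J, c i = ∑ i ∈ range J, c i := Fin.sum_univ_eq_sum_range c J
  refine ⟨((Equiv.sumCongr finSigmaFinEquiv (Equiv.refl _)).trans finSumFinEquiv).trans
    (finCongr (by omega)), ?_, ?_⟩
  · rintro ⟨i, r⟩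
    have h1 : ((((Equiv.sumCongr (finSigmaFinEquiv (n := fun i : Fin J => c i))
        (Equiv.refl (Fin (n - ∑ i ∈ range J, c i)))).trans finSumFinEquiv).trans
        (finCongr (by omega : ∑ i : Fin J, c i + (n - ∑ i ∈ range J, c i) = n))
          (Sum.inl ⟨i, r⟩) : Fin n) : ℕ) = ∑ k ∈ range i, c k + r := by
      show ((finSigmaFinEquiv (n := fun i : Fin J => c i) ⟨i, r⟩ : Fin _) : ℕ) = _
      rw [finSigmaFinEquiv_apply]
      congr 1
      exact Fin.sum_univ_eq_sum_range c i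
    unfold blk
    rw [h1]
    exact bidx_small hc i.2 r.2
  · intro t
    have h1 : ((((Equiv.sumCongr (finSigmaFinEquiv (n := fun i : Fin J => c i))
        (Equiv.refl (Fin (n - ∑ i ∈ range J, c i)))).trans finSumFinEquiv).trans
        (finCongr (by omega : ∑ i : Fin J, c i + (n - ∑ i ∈ range J, c i) = n))
          (Sum.inr t) : Fin n) : ℕ) = ∑ i : Fin J, c i + t := rfl
    unfold blk
    rw [h1]
    exact le_bidx hc (by omega)

private theorem FrmN_card_Sx (m k : ℕ) : (Sx (Fin m) k).card = Nat.multichoose m k := by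
  have h0 : Nat.multichoose m k = Nat.multichoose (univ : Finset (Fin m)).card k := by
    rw [card_univ, Fintype.card_fin]
  rw [h0, ← card_finsuppAntidiag_nat_eq_multichoose]
  symm
  apply card_bij (fun (α : Fin m →₀ ℕ) _ => (⇑α : Fin m → ℕ))
  · intro α hα
    rw [mem_finsuppAntidiag] at hα
    exact mem_Sx.2 hα.1
  · intro α _ β _ h
    exact DFunLike.coe_injective h
  · intro f hf
    refine ⟨Finsupp.equivFunOnFinite.symm f, ?_, rfl⟩
    rw [mem_finsuppAntidiag]
    exact ⟨mem_Sx.1 hf, subset_univ _⟩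

private theorem pow_gap (a b K : ℕ) (h1 : b ≤ a) (h2 : a ≤ b + K) (k : ℕ) :
    a ^ (k + 1) ≤ b ^ (k + 1) + (k + 1) * K * a ^ k := by
  induction k with
  | zero => simpa using h2
  | succ k ih =>
    calc a ^ (k + 1 + 1) = a ^ (k + 1) * a := pow_succ _ _
      _ ≤ a ^ (k + 1) * (b + K) := Nat.mul_le_mul_left _ h2
      _ = a ^ (k + 1) * b + K * a ^ (k + 1) := by ring
      _ ≤ (b ^ (k + 1) + (k + 1) * K * a ^ k) * b + K * a ^ (k + 1) :=
        Nat.add_le_add_right (Nat.mul_le_mul_right _ ih) _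
      _ = b ^ (k + 1 + 1) + (k + 1) * K * a ^ k * b + K * a ^ (k + 1) := by ring
      _ ≤ b ^ (k + 1 + 1) + (k + 1) * K * a ^ k * a + K * a ^ (k + 1) :=
        Nat.add_le_add_right (Nat.add_le_add_left (Nat.mul_le_mul_left _ h1) _) _
      _ = b ^ (k + 1 + 1) + (k + 1 + 1) * K * a ^ (k + 1) := by ring

/-- the numbers of the monomials of degree `e` -/
private theorem mc_gap (e cz R m q : ℕ) (h1 : q * cz ≤ m) (h2 : m ≤ q * cz + R) :
    Nat.multichoose m (e + 1) ≤ cz ^ (e + 1) * q.choose (e + 1) +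
      (e + 1) * (R + cz * (e + 1) + (e + 1)) * (m + e) ^ e := by
  have h3 : (m + e) ^ (e + 1) ≤ (cz * (q + 1 - (e + 1))) ^ (e + 1) +
      (e + 1) * (R + cz * (e + 1) + (e + 1)) * (m + e) ^ e := by
    refine pow_gap _ _ _ ?_ ?_ e
    · have h4 : cz * (q + 1 - (e + 1)) ≤ cz * q := Nat.mul_le_mul_left _ (by omega)
      rw [mul_comm cz q] at h4
      omega
    · have h4 : cz * q ≤ cz * (q + 1 - (e + 1)) + cz * (e + 1) := by
        rw [← mul_add]
        exact Nat.mul_le_mul_left _ (by omega)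
      rw [mul_comm cz q] at h4
      omega
  have h4 : (e + 1).factorial * Nat.multichoose m (e + 1) ≤ (m + e) ^ (e + 1) := by
    rw [Nat.multichoose_eq, ← Nat.descFactorial_eq_factorial_mul_choose]
    exact Nat.descFactorial_le_pow _ _
  have h5 : (cz * (q + 1 - (e + 1))) ^ (e + 1) ≤
      (e + 1).factorial * (cz ^ (e + 1) * q.choose (e + 1)) := by
    rw [mul_pow]
    calc cz ^ (e + 1) * (q + 1 - (e + 1)) ^ (e + 1) ≤ cz ^ (e + 1) * q.descFactorial (e + 1) :=
          Nat.mul_le_mul_left _ (Nat.pow_sub_le_descFactorial _ _)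
      _ = _ := by
        rw [Nat.descFactorial_eq_factorial_mul_choose]
        ring
  have h6 : 1 ≤ (e + 1).factorial := Nat.factorial_pos _
  by_contra h7
  push Not at h7
  obtain ⟨z, hz⟩ : ∃ z, Nat.multichoose m (e + 1) = cz ^ (e + 1) * q.choose (e + 1) +
      (e + 1) * (R + cz * (e + 1) + (e + 1)) * (m + e) ^ e + 1 + z :=
    ⟨_, (Nat.add_sub_of_le h7).symm⟩
  rw [hz] at h4
  have h8 := h4.trans (h3.trans (Nat.add_le_add_right h5 _))
  have h9 : (e + 1) * (R + cz * (e + 1) + (e + 1)) * (m + e) ^ e ≤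
      (e + 1).factorial * ((e + 1) * (R + cz * (e + 1) + (e + 1)) * (m + e) ^ e) :=
    Nat.le_mul_of_pos_left _ h6
  nlinarith

/-- The number of the junk exponents. -/
theorem jk_le (c : ℕ → ℕ) (J e cz : ℕ) (hc : ∀ i < J, 0 < c i) (hz : 0 < cz) (he : 0 < e) (R : ℕ) :
    ∃ C : ℝ, 0 ≤ C ∧ ∀ n q : ℕ, 1 ≤ n → ∑ i ∈ range J, c i ≤ n →
      q * cz ≤ n - ∑ i ∈ range J, c i → n - ∑ i ∈ range J, c i ≤ q * cz + R →
        (jk c cz J e q n (e + J) : ℝ) ≤ C * (n : ℝ) ^ (e - 1) := by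
  classical
  obtain ⟨e, rfl⟩ : ∃ e', e = e' + 1 := ⟨e - 1, by omega⟩
  set P : ℕ := ∏ i ∈ range J, c i with hP
  set X₂ : Finset (Bl c J → ℕ) := (range (e + 1 + J + 1)).biUnion (Sx (Bl c J)) with hX₂
  set K : ℕ := (e + 1) * (R + cz * (e + 1) + (e + 1)) with hK
  refine ⟨((P * K + X₂.card * (e + 1)) * (e + 1) ^ e : ℕ), Nat.cast_nonneg _, ?_⟩
  intro n q hn hsum hq1 hq2
  rw [Nat.add_sub_cancel]
  obtain ⟨m, hm⟩ : ∃ m, m = n - ∑ i ∈ range J, c i := ⟨_, rfl⟩
  obtain ⟨φ, hφ⟩ : ∃ φ : Bl c J ⊕ Fin m ≃ Fin n, IsB φ (blk c n) := by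
    rw [hm]
    exact exists_phi hc hsum
  rw [← hm] at hq1 hq2
  set X₁ : Finset (Bl c J → ℕ) := univ.image fun (a : TI c J) (x : Bl c J) =>
    if x.2 = a x.1 then 1 else 0 with hX₁
  set Z₂ : Finset (Fin m → ℕ) := (range (e + 1)).biUnion (Sx (Fin m)) with hZ₂
  have hX₁c : X₁.card ≤ P := by
    refine card_image_le.trans ?_
    rw [card_univ, Fintype.card_pi]
    simp only [Fintype.card_fin]
    rw [hP, Fin.prod_univ_eq_prod_range (fun i => c i) J]
  have hmn : m + e ≤ (e + 1) * n := by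
    have h1 : m ≤ n := hm ▸ Nat.sub_le _ _
    nlinarith
  have hpow : (m + e) ^ e ≤ (e + 1) ^ e * n ^ e := by
    rw [← mul_pow]
    exact Nat.pow_le_pow_left hmn e
  have hZ₂c : Z₂.card ≤ (e + 1) * ((e + 1) ^ e * n ^ e) := by
    refine card_biUnion_le.trans ?_
    have h1 : ∀ j ∈ range (e + 1), (Sx (Fin m) j).card ≤ (e + 1) ^ e * n ^ e := by
      intro j hj
      rw [mem_range] at hj
      rw [FrmN_card_Sx]
      rcases Nat.eq_zero_or_pos j with rfl | hj0
      · rw [Nat.multichoose_zero_right, ← mul_pow]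
        exact Nat.one_le_pow _ _ (by positivity)
      · obtain ⟨j, rfl⟩ : ∃ j', j = j' + 1 := ⟨j - 1, by omega⟩
        have h2 : Nat.multichoose m (j + 1) ≤ (m + j) ^ (j + 1) := by
          rw [Nat.multichoose_eq]
          exact (Nat.choose_le_descFactorial _ _).trans (Nat.descFactorial_le_pow _ _)
        rw [← mul_pow]
        refine h2.trans ((Nat.pow_le_pow_left (show m + j ≤ (e + 1) * n by omega) _).trans ?_)
        exact Nat.pow_le_pow_right (by positivity) (by omega)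
    refine (sum_le_sum h1).trans ?_
    rw [sum_const, card_range, smul_eq_mul]
  have hcard : (Ex (blk c n) (e + 1 + J) (range J)).card ≤
      (X₁ ×ˢ Sx (Fin m) (e + 1) ∪ X₂ ×ˢ Z₂).card := by
    refine card_le_card_of_injOn (fun a => (fun x => a (φ (Sum.inl x)), fun t => a (φ (Sum.inr t))))
      ?_ ?_
    · intro a ha
      rw [mem_coe] at ha
      have hs := Top.sum_split φ a
      rw [(mem_Ex.1 ha).1] at hs
      rw [mem_coe, mem_union, mem_product, mem_product]
      by_cases hx : ∑ x, a (φ (Sum.inl x)) ≤ J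
      · left
        obtain ⟨a', ha'⟩ := Top.exists_HasX hφ ha hx
        refine ⟨mem_image.2 ⟨a', mem_univ _, ?_⟩, mem_Sx.2 ?_⟩
        · funext x
          exact (ha' x).symm
        · have h1 := ha'.sum
          show ∑ t, a (φ (Sum.inr t)) = e + 1
          omega
      · right
        refine ⟨mem_biUnion.2 ⟨∑ x, a (φ (Sum.inl x)), mem_range.2 (by omega), mem_Sx.2 rfl⟩,
          mem_biUnion.2 ⟨∑ t, a (φ (Sum.inr t)), mem_range.2 (by omega), mem_Sx.2 rfl⟩⟩
    · intro a _ b _ hab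
      funext s
      obtain ⟨x, rfl⟩ := φ.surjective s
      rcases x with x | t
      · exact congrFun (congrArg Prod.fst hab) x
      · exact congrFun (congrArg Prod.snd hab) t
  have hcard2 : (Ex (blk c n) (e + 1 + J) (range J)).card ≤
      P * Nat.multichoose m (e + 1) + X₂.card * Z₂.card := by
    refine hcard.trans ((card_union_le _ _).trans ?_)
    rw [card_product, card_product, FrmN_card_Sx]
    exact Nat.add_le_add_right (Nat.mul_le_mul_right _ hX₁c) _
  have hgap := mc_gap e cz R m q hq1 hq2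
  rw [← hK] at hgap
  have hfin : jk c cz J (e + 1) q n (e + 1 + J) ≤
      (P * K + X₂.card * (e + 1)) * (e + 1) ^ e * n ^ e := by
    unfold jk
    rw [tsub_le_iff_left]
    calc (Ex (blk c n) (e + 1 + J) (range J)).card
        ≤ P * Nat.multichoose m (e + 1) + X₂.card * Z₂.card := hcard2
      _ ≤ P * (cz ^ (e + 1) * q.choose (e + 1) + K * ((e + 1) ^ e * n ^ e)) +
          X₂.card * ((e + 1) * ((e + 1) ^ e * n ^ e)) :=
        Nat.add_le_add (Nat.mul_le_mul_left _ (hgap.trans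
          (Nat.add_le_add_left (Nat.mul_le_mul_left _ hpow) _))) (Nat.mul_le_mul_left _ hZ₂c)
      _ = _ := by ring
  calc (jk c cz J (e + 1) q n (e + 1 + J) : ℝ)
      ≤ (((P * K + X₂.card * (e + 1)) * (e + 1) ^ e * n ^ e : ℕ) : ℝ) := by exact_mod_cast hfin
    _ = _ := by push_cast; ring

end Jk

end Pool.Agent.GD.BE

end
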