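import Mathlib

/-! The parts of this file: GD.AL.BTp, GD.BE.Cnt, GD.N.Mv, XE.Soft, XE2.Left. -/

section

/-!
# General d, ALPHA: the finite systems, polynomial bounds
-/

set_option autoImplicit false

namespace Pool.Agent.GD.AL

/-- Bounded by a polynomial in `x` with coefficients which depend on `r`. -/
def Pb (f : (ℕ → ℕ) → ℕ → ℕ) : Prop :=
  ∃ (k : ℕ) (q : (ℕ → ℕ) → ℕ), ∀ r x, f r x ≤ q r * (x + 1) ^ k

theorem Pb.coef (g : (ℕ → ℕ) → ℕ) : Pb fun r _ => g r :=
  ⟨0, g, fun r x => by rw [pow_zero, mul_one]⟩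

theorem Pb.id : Pb fun _ x => x :=
  ⟨1, fun _ => 1, fun r x => by rw [pow_one, one_mul]; exact Nat.le_succ x⟩

theorem Pb.add {f g : (ℕ → ℕ) → ℕ → ℕ} (hf : Pb f) (hg : Pb g) : Pb fun r x => f r x + g r x := by
  obtain ⟨k, q, h⟩ := hf
  obtain ⟨k', q', h'⟩ := hg
  refine ⟨k + k', fun r => q r + q' r, fun r x => ?_⟩
  have h1 : (x + 1) ^ k ≤ (x + 1) ^ (k + k') := Nat.pow_le_pow_right (Nat.succ_pos x) (by omega)
  have h2 : (x + 1) ^ k' ≤ (x + 1) ^ (k + k') := Nat.pow_le_pow_right (Nat.succ_pos x) (by omega)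
  calc f r x + g r x ≤ q r * (x + 1) ^ k + q' r * (x + 1) ^ k' := add_le_add (h r x) (h' r x)
    _ ≤ q r * (x + 1) ^ (k + k') + q' r * (x + 1) ^ (k + k') :=
        add_le_add (Nat.mul_le_mul_left _ h1) (Nat.mul_le_mul_left _ h2)
    _ = (q r + q' r) * (x + 1) ^ (k + k') := by ring

theorem Pb.mul {f g : (ℕ → ℕ) → ℕ → ℕ} (hf : Pb f) (hg : Pb g) : Pb fun r x => f r x * g r x := by
  obtain ⟨k, q, h⟩ := hf
  obtain ⟨k', q', h'⟩ := hg
  refine ⟨k + k', fun r => q r * q' r, fun r x => ?_⟩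
  calc f r x * g r x ≤ (q r * (x + 1) ^ k) * (q' r * (x + 1) ^ k') := Nat.mul_le_mul (h r x) (h' r x)
    _ = q r * q' r * (x + 1) ^ (k + k') := by ring

theorem Pb.pow {f : (ℕ → ℕ) → ℕ → ℕ} (hf : Pb f) (n : ℕ) : Pb fun r x => f r x ^ n := by
  obtain ⟨k, q, h⟩ := hf
  refine ⟨k * n, fun r => q r ^ n, fun r x => ?_⟩
  calc f r x ^ n ≤ (q r * (x + 1) ^ k) ^ n := Nat.pow_le_pow_left (h r x) n
    _ = q r ^ n * (x + 1) ^ (k * n) := by rw [mul_pow, pow_mul]

private theorem log_lin (a b : ℝ) (hb : 0 ≤ b) :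
    ∃ X : ℕ, ∀ x : ℕ, X ≤ x → a + b * Real.log ((x : ℝ) + 1) ≤ x := by
  obtain ⟨X₁, h1⟩ := exists_nat_ge (2 * a + 1)
  obtain ⟨X₂, h2⟩ := exists_nat_ge (16 * b ^ 2)
  refine ⟨X₁ + X₂, fun x hx => ?_⟩
  have hx1 : 2 * a + 1 ≤ (x : ℝ) := h1.trans (by exact_mod_cast (by omega : X₁ ≤ x))
  have hx2 : 16 * b ^ 2 ≤ (x : ℝ) := h2.trans (by exact_mod_cast (by omega : X₂ ≤ x))
  have h0 : (0 : ℝ) ≤ x := Nat.cast_nonneg x
  set y : ℝ := (x : ℝ) + 1 with hy
  have hy0 : 0 < y := by linarith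
  have hs : 0 < Real.sqrt y := Real.sqrt_pos.2 hy0
  have hsq : Real.sqrt y * Real.sqrt y = y := Real.mul_self_sqrt hy0.le
  have hl : Real.log y ≤ 2 * Real.sqrt y := by
    have h3 : Real.log y = 2 * Real.log (Real.sqrt y) := by
      rw [Real.log_sqrt hy0.le]
      ring
    have h4 := Real.log_le_sub_one_of_pos hs
    rw [h3]
    linarith
  have h5 : 4 * b ≤ Real.sqrt y := by
    apply Real.le_sqrt_of_sq_le
    nlinarith
  have h6 : b * Real.log y ≤ y / 2 := by
    calc b * Real.log y ≤ b * (2 * Real.sqrt y) := mul_le_mul_of_nonneg_left hl hb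
      _ = 4 * b * Real.sqrt y / 2 := by ring
      _ ≤ Real.sqrt y * Real.sqrt y / 2 := by
          have := mul_le_mul_of_nonneg_right h5 hs.le
          linarith
      _ = y / 2 := by rw [hsq]
  linarith

theorem Pb.log {f : (ℕ → ℕ) → ℕ → ℕ} (hf : Pb f) (K : ℝ) :
    ∃ F : (ℕ → ℕ) → ℕ, ∀ r x, F r ≤ x → K * (1 + Real.log (f r x)) ≤ x := by
  obtain ⟨k, q, h⟩ := hf
  have key : ∀ r : ℕ → ℕ, ∃ X : ℕ, ∀ x : ℕ, X ≤ x → K * (1 + Real.log (f r x)) ≤ x := by
    intro r
    obtain ⟨X, hX⟩ := log_lin (|K| * (1 + Real.log (q r))) (|K| * k) (by positivity)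
    refine ⟨X, fun x hx => ?_⟩
    refine le_trans ?_ (hX x hx)
    have h0 : 0 ≤ Real.log (f r x) := Real.log_natCast_nonneg _
    have h1 : K * (1 + Real.log (f r x)) ≤ |K| * (1 + Real.log (f r x)) :=
      mul_le_mul_of_nonneg_right (le_abs_self K) (by linarith)
    have h2 : Real.log (f r x) ≤ Real.log (q r) + k * Real.log ((x : ℝ) + 1) := by
      have hx1 : (0 : ℝ) ≤ Real.log ((x : ℝ) + 1) := by
        have := Real.log_natCast_nonneg (x + 1)
        push_cast at this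
        exact this
      rcases Nat.eq_zero_or_pos (f r x) with h3 | h3
      · rw [h3, Nat.cast_zero, Real.log_zero]
        exact add_nonneg (Real.log_natCast_nonneg _) (mul_nonneg (Nat.cast_nonneg _) hx1)
      · have h4 : 0 < q r := by
          rcases Nat.eq_zero_or_pos (q r) with h5 | h5
          · have h6 := h r x
            rw [h5, zero_mul] at h6
            omega
          · exact h5
        have h5 : (f r x : ℝ) ≤ q r * ((x : ℝ) + 1) ^ k := by exact_mod_cast h r x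
        have h6 : (0 : ℝ) < f r x := by exact_mod_cast h3
        have h7 : (0 : ℝ) < q r := by exact_mod_cast h4
        have h8 : (0 : ℝ) < (x : ℝ) + 1 := by positivity
        calc Real.log (f r x) ≤ Real.log (q r * ((x : ℝ) + 1) ^ k) := Real.log_le_log h6 h5
          _ = Real.log (q r) + k * Real.log ((x : ℝ) + 1) := by
              rw [Real.log_mul h7.ne' (pow_pos h8 k).ne', Real.log_pow]
    refine h1.trans ?_
    have h3 := mul_le_mul_of_nonneg_left h2 (abs_nonneg K)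
    calc |K| * (1 + Real.log (f r x)) = |K| + |K| * Real.log (f r x) := by ring
      _ ≤ |K| + |K| * (Real.log (q r) + k * Real.log ((x : ℝ) + 1)) := by linarith
      _ = _ := by ring
  choose F hF using key
  exact ⟨F, fun r x hx => hF r x hx⟩

end Pool.Agent.GD.AL

end

section

/-!
# General d, block BETA, module Cnt: increasing sequences with given residues

`cnt`: `w h x` depends only on `x % L`.  PROOF: for residues `ρ : Fin e → Fin L` the number of the
increasing `α` with `α h ≡ ρ h` is, for `q = L q'`, between `q'.choose e` and `(q' + e - 1).choose e`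
(`α h = L * β h + ρ h`, `β` weakly increasing, and strictly increasing `β` always work), so it is
`q ^ e / (e! L ^ e) + O(q ^ (e - 1))`; then `∑_ρ ∏_h w h (ρ h) = ∏_h ∑_x w h x` (`Finset.prod_univ_sum`).
-/

set_option autoImplicit false

namespace Pool.Agent.GD.BE

open Finset

private lemma card_emb (e n : ℕ) : Fintype.card (Fin e ↪o Fin n) = n.choose e := by
  rw [← Nat.card_eq_fintype_card, Nat.card_congr Set.powersetCard.ofFinEmbEquiv,
    Set.powersetCard.card, Nat.card_eq_fintype_card, Fintype.card_fin]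

private lemma cnt_lower {e L q' : ℕ} (ρ : Fin e → Fin L) :
    q'.choose e ≤
      (univ.filter fun α : Fin e ↪o Fin (L * q') => ∀ h, (α h : ℕ) % L = ρ h).card := by
  classical
  rw [← card_emb, ← Finset.card_univ]
  have hlt : ∀ (β : Fin e ↪o Fin q') (h : Fin e), L * (β h : ℕ) + (ρ h : ℕ) < L * q' := by
    intro β h
    have h1 : (β h : ℕ) + 1 ≤ q' := (β h).2
    have h2 : (ρ h : ℕ) < L := (ρ h).2
    calc L * (β h : ℕ) + (ρ h : ℕ) < L * (β h : ℕ) + L := by omega
      _ = L * ((β h : ℕ) + 1) := by ring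
      _ ≤ L * q' := Nat.mul_le_mul_left _ h1
  refine Finset.card_le_card_of_injOn
    (fun β => OrderEmbedding.ofStrictMono (fun h => ⟨L * (β h : ℕ) + (ρ h : ℕ), hlt β h⟩) ?_) ?_ ?_
  · intro h h' hh
    have h1 : (β h : ℕ) + 1 ≤ (β h' : ℕ) := β.strictMono hh
    have h2 : (ρ h : ℕ) < L := (ρ h).2
    change L * (β h : ℕ) + (ρ h : ℕ) < L * (β h' : ℕ) + (ρ h' : ℕ)
    have h3 := Nat.mul_le_mul_left L h1
    have h4 : L * ((β h : ℕ) + 1) = L * (β h : ℕ) + L := by ring
    omega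
  · intro β _
    simp only [Finset.coe_filter, Finset.mem_univ, true_and, Set.mem_setOf_eq]
    intro h
    change (L * (β h : ℕ) + (ρ h : ℕ)) % L = (ρ h : ℕ)
    rw [Nat.mul_add_mod, Nat.mod_eq_of_lt (ρ h).2]
  · intro β _ β' _ hb
    ext h
    have h1 : L * (β h : ℕ) + (ρ h : ℕ) = L * (β' h : ℕ) + (ρ h : ℕ) := by
      have h2 := congrArg (fun α : Fin e ↪o Fin (L * q') => ((α h : Fin (L * q')) : ℕ)) hb
      exact h2
    have hL : 0 < L := (Nat.zero_le _).trans_lt (ρ h).2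
    exact Nat.eq_of_mul_eq_mul_left hL (by omega)

private lemma cnt_upper {e L q' : ℕ} (ρ : Fin e → Fin L) :
    (univ.filter fun α : Fin e ↪o Fin (L * q') => ∀ h, (α h : ℕ) % L = ρ h).card ≤
      (q' + e - 1).choose e := by
  classical
  rw [← card_emb, ← Finset.card_univ]
  have hlt : ∀ (α : Fin e ↪o Fin (L * q')) (h : Fin e), (α h : ℕ) / L + (h : ℕ) < q' + e - 1 := by
    intro α h
    have h1 : (α h : ℕ) / L < q' := Nat.div_lt_of_lt_mul (α h).2
    have h2 : (h : ℕ) < e := h.2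
    omega
  refine Finset.card_le_card_of_injOn
    (fun α => OrderEmbedding.ofStrictMono (fun h => ⟨(α h : ℕ) / L + (h : ℕ), hlt α h⟩) ?_) ?_ ?_
  · intro h h' hh
    have h1 : (α h : ℕ) ≤ (α h' : ℕ) := (α.strictMono hh).le
    have h2 : (h : ℕ) < (h' : ℕ) := hh
    change (α h : ℕ) / L + (h : ℕ) < (α h' : ℕ) / L + (h' : ℕ)
    have h3 := Nat.div_le_div_right (c := L) h1
    omega
  · intro α _
    simp
  · intro α ha α' ha' hb
    simp only [Finset.coe_filter, Finset.mem_univ, true_and, Set.mem_setOf_eq] at ha ha'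
    ext h
    have h1 : (α h : ℕ) / L + (h : ℕ) = (α' h : ℕ) / L + (h : ℕ) := by
      have h2 := congrArg (fun β : Fin e ↪o Fin (q' + e - 1) => ((β h : Fin (q' + e - 1)) : ℕ)) hb
      exact h2
    have h2 : (α h : ℕ) / L = (α' h : ℕ) / L := by omega
    rw [← Nat.div_add_mod (α h : ℕ) L, ← Nat.div_add_mod (α' h : ℕ) L, h2, ha h, ha' h]

private lemma cnt_bound {e L q' : ℕ} (he : 0 < e) (hq : 1 ≤ q') (ρ : Fin e → Fin L) :
    |((univ.filter fun α : Fin e ↪o Fin (L * q') => ∀ h, (α h : ℕ) % L = ρ h).card : ℝ) -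
      (q' : ℝ) ^ e / e.factorial| ≤ (e * e * e ^ (e - 1) : ℝ) * (q' : ℝ) ^ (e - 1) := by
  set N := (univ.filter fun α : Fin e ↪o Fin (L * q') => ∀ h, (α h : ℕ) % L = ρ h).card with hN
  have hf : (1 : ℝ) ≤ (e.factorial : ℝ) := by exact_mod_cast Nat.one_le_iff_ne_zero.2 (Nat.factorial_ne_zero e)
  have hf0 : (0 : ℝ) < (e.factorial : ℝ) := lt_of_lt_of_le one_pos hf
  have he1 : (1 : ℝ) ≤ (e : ℝ) := by exact_mod_cast he
  have hq1 : (1 : ℝ) ≤ (q' : ℝ) := by exact_mod_cast hq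
  have hup : (N : ℝ) ≤ ((q' + e - 1 : ℕ) : ℝ) ^ e / e.factorial := by
    refine le_trans ?_ (Nat.choose_le_pow_div (α := ℝ) e (q' + e - 1))
    exact_mod_cast cnt_upper ρ
  have hlo : (((q' + 1 - e : ℕ) : ℝ)) ^ e / e.factorial ≤ (N : ℝ) := by
    refine le_trans (Nat.pow_le_choose (α := ℝ) e q') ?_
    exact_mod_cast cnt_lower ρ
  -- the comparison of the powers
  have key : ∀ a : ℕ, |(a : ℝ) - (q' : ℝ)| ≤ e → (a : ℝ) ≤ e * q' →
      |(a : ℝ) ^ e - (q' : ℝ) ^ e| ≤ (e * e * e ^ (e - 1) : ℝ) * (q' : ℝ) ^ (e - 1) := by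
    intro a h1 h2
    refine (abs_pow_sub_pow_le (a : ℝ) (q' : ℝ) e).trans ?_
    have h3 : max |(a : ℝ)| |(q' : ℝ)| ≤ e * q' := by
      rw [abs_of_nonneg (Nat.cast_nonneg a), abs_of_nonneg (Nat.cast_nonneg q')]
      refine max_le h2 ?_
      nlinarith
    have h4 : max |(a : ℝ)| |(q' : ℝ)| ^ (e - 1) ≤ (e * q' : ℝ) ^ (e - 1) :=
      pow_le_pow_left₀ (le_max_of_le_left (abs_nonneg _)) h3 _
    calc |(a : ℝ) - (q' : ℝ)| * e * max |(a : ℝ)| |(q' : ℝ)| ^ (e - 1)
        ≤ e * e * (e * q' : ℝ) ^ (e - 1) := by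
          refine mul_le_mul (mul_le_mul_of_nonneg_right h1 (Nat.cast_nonneg e)) h4
            (pow_nonneg (le_max_of_le_left (abs_nonneg _)) _) (by positivity)
      _ = (e * e * e ^ (e - 1) : ℝ) * (q' : ℝ) ^ (e - 1) := by
          rw [mul_pow]
          ring
  have hC : 0 ≤ (e * e * e ^ (e - 1) : ℝ) * (q' : ℝ) ^ (e - 1) := by positivity
  have hdiv : ∀ x : ℝ, |x| ≤ (e * e * e ^ (e - 1) : ℝ) * (q' : ℝ) ^ (e - 1) →
      |x / e.factorial| ≤ (e * e * e ^ (e - 1) : ℝ) * (q' : ℝ) ^ (e - 1) := by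
    intro x hx
    rw [abs_div, abs_of_pos hf0, div_le_iff₀ hf0]
    nlinarith
  have hu := hdiv _ (key (q' + e - 1) (by
    have : ((q' + e - 1 : ℕ) : ℝ) = q' + e - 1 := by
      rw [Nat.cast_sub (by omega)]
      push_cast
      ring
    rw [this, abs_le]
    constructor <;> linarith) (by
    have : ((q' + e - 1 : ℕ) : ℝ) = q' + e - 1 := by
      rw [Nat.cast_sub (by omega)]
      push_cast
      ring
    rw [this]
    nlinarith))
  have hl := hdiv _ (key (q' + 1 - e) (by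
    have h1 : ((q' + 1 - e : ℕ) : ℝ) ≤ q' := by exact_mod_cast (by omega : q' + 1 - e ≤ q')
    have h2 : (q' : ℝ) ≤ ((q' + 1 - e : ℕ) : ℝ) + e := by
      exact_mod_cast (by omega : q' ≤ (q' + 1 - e) + e)
    rw [abs_le]
    constructor <;> linarith) (by
    have h1 : ((q' + 1 - e : ℕ) : ℝ) ≤ q' := by exact_mod_cast (by omega : q' + 1 - e ≤ q')
    nlinarith))
  rw [sub_div] at hu hl
  rw [abs_le] at hu hl ⊢
  constructor <;> linarith [hu.1, hu.2, hl.1, hl.2]

theorem cnt (e L : ℕ) (he : 0 < e) (hL : 0 < L) (w : Fin e → ℕ → ℝ)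
    (hw : ∀ h x, w h (x % L) = w h x) :
    ∃ C : ℝ, 0 ≤ C ∧ ∀ q : ℕ, L ∣ q → 1 ≤ q →
      |∑ α : Fin e ↪o Fin q, ∏ h, w h (α h) -
        (q : ℝ) ^ e / e.factorial * ∏ h, ((∑ x ∈ range L, w h x) / L)| ≤ C * (q : ℝ) ^ (e - 1) := by
  classical
  refine ⟨(e * e * e ^ (e - 1) : ℝ) * ∑ ρ : Fin e → Fin L, |∏ h, w h (ρ h)|, by positivity, ?_⟩
  rintro q ⟨q', rfl⟩ hq
  have hq' : 1 ≤ q' := by
    rcases Nat.eq_zero_or_pos q' with h | h
    · rw [h] at hq
      omega
    · exact h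
  have hLR : (0 : ℝ) < L := by exact_mod_cast hL
  let g : (Fin e ↪o Fin (L * q')) → (Fin e → Fin L) := fun α h => ⟨(α h : ℕ) % L, Nat.mod_lt _ hL⟩
  have hg : ∀ (α : Fin e ↪o Fin (L * q')) (ρ : Fin e → Fin L),
      g α = ρ ↔ ∀ h, (α h : ℕ) % L = ρ h := by
    intro α ρ
    constructor
    · rintro rfl h
      rfl
    · intro h
      funext x
      exact Fin.ext (h x)
  have hS : ∑ α : Fin e ↪o Fin (L * q'), ∏ h, w h (α h) =
      ∑ ρ : Fin e → Fin L,
        ((univ.filter fun α : Fin e ↪o Fin (L * q') => ∀ h, (α h : ℕ) % L = ρ h).card : ℝ) *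
          ∏ h, w h (ρ h) := by
    rw [← Finset.sum_fiberwise univ g]
    refine Finset.sum_congr rfl fun ρ _ => ?_
    have h1 : (univ.filter fun α : Fin e ↪o Fin (L * q') => g α = ρ) =
        univ.filter fun α : Fin e ↪o Fin (L * q') => ∀ h, (α h : ℕ) % L = ρ h := by
      refine Finset.filter_congr fun α _ => hg α ρ
    rw [h1, ← nsmul_eq_mul]
    refine Finset.sum_eq_card_nsmul fun α hα => ?_
    have h2 := (Finset.mem_filter.1 hα).2
    refine Finset.prod_congr rfl fun h _ => ?_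
    rw [← hw h (α h : ℕ), h2 h]
  have hM : ((L * q' : ℕ) : ℝ) ^ e / e.factorial * ∏ h, ((∑ x ∈ range L, w h x) / L) =
      ∑ ρ : Fin e → Fin L, (q' : ℝ) ^ e / e.factorial * ∏ h, w h (ρ h) := by
    have h1 : ∏ h, ((∑ x ∈ range L, w h x) / L) = (∏ h, ∑ x : Fin L, w h x) / (L : ℝ) ^ e := by
      rw [Finset.prod_div_distrib, Finset.prod_const, Finset.card_univ, Fintype.card_fin]
      simp only [Finset.sum_range]
    rw [h1, Finset.prod_univ_sum, Fintype.piFinset_univ, ← Finset.mul_sum]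
    push_cast
    rw [mul_pow]
    field_simp
  rw [hS, hM, ← Finset.sum_sub_distrib]
  refine (Finset.abs_sum_le_sum_abs _ _).trans ?_
  have hqq : (q' : ℝ) ^ (e - 1) ≤ ((L * q' : ℕ) : ℝ) ^ (e - 1) := by
    refine pow_le_pow_left₀ (Nat.cast_nonneg q') ?_ _
    exact_mod_cast Nat.le_mul_of_pos_left q' hL
  calc ∑ ρ : Fin e → Fin L, |((univ.filter fun α : Fin e ↪o Fin (L * q') =>
          ∀ h, (α h : ℕ) % L = ρ h).card : ℝ) * ∏ h, w h (ρ h) -
          (q' : ℝ) ^ e / e.factorial * ∏ h, w h (ρ h)|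
      ≤ ∑ ρ : Fin e → Fin L, (e * e * e ^ (e - 1) : ℝ) * ((L * q' : ℕ) : ℝ) ^ (e - 1) *
          |∏ h, w h (ρ h)| := by
        refine Finset.sum_le_sum fun ρ _ => ?_
        rw [← sub_mul, abs_mul]
        refine mul_le_mul_of_nonneg_right ?_ (abs_nonneg _)
        refine (cnt_bound he hq' ρ).trans ?_
        exact mul_le_mul_of_nonneg_left hqq (by positivity)
    _ = (e * e * e ^ (e - 1) : ℝ) * (∑ ρ : Fin e → Fin L, |∏ h, w h (ρ h)|) *
          ((L * q' : ℕ) : ℝ) ^ (e - 1) := by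
        rw [← Finset.mul_sum]
        ring

end Pool.Agent.GD.BE

end

section

/-!
# General d, numerical block: the numbers of the points off the next subspace (real inequalities)

`N` points of a kind with natural number `a C n^w`, window `ε C n^w`; `T` of them are put off `L_j`
(`c = c_j`); the windows for the remaining ones are `ε C (n - c)^w` (trace) and `ε' C n^w` (residual), the
window for `T` is `ε' C c n^(w - 1)` around `a w C c n^(w - 1)`.
-/

set_option autoImplicit false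

namespace Pool.Agent.GD

private theorem mv_ev (K δ : ℝ) (hδ : 0 < δ) : ∃ n₀ : ℕ, ∀ n : ℕ, n₀ ≤ n → K ≤ δ * n := by
  obtain ⟨n₀, h⟩ := exists_nat_ge (K / δ)
  refine ⟨n₀, fun n hn => ?_⟩
  have h1 : (n₀ : ℝ) ≤ n := by exact_mod_cast hn
  rw [div_le_iff₀ hδ] at h
  nlinarith only [h, hδ, h1]

/-- upper bound for the difference of the powers -/
private theorem mv_up (x c : ℝ) (hc : 0 ≤ c) (hcx : c ≤ x) (w : ℕ) :
    x ^ (w + 1) - (x - c) ^ (w + 1) ≤ (w + 1) * c * x ^ w := by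
  induction w with
  | zero => simp
  | succ w ih =>
    have hx : 0 ≤ x := hc.trans hcx
    have h1 : x ^ (w + 1 + 1) - (x - c) ^ (w + 1 + 1) =
        x * (x ^ (w + 1) - (x - c) ^ (w + 1)) + c * (x - c) ^ (w + 1) := by ring
    have h2 : (x - c) ^ (w + 1) ≤ x ^ (w + 1) :=
      pow_le_pow_left₀ (by linarith only [hcx]) (by linarith only [hc]) _
    have h3 := mul_le_mul_of_nonneg_left ih hx
    have h4 := mul_le_mul_of_nonneg_left h2 hc
    rw [h1]
    have h5 : x * ((w + 1) * c * x ^ w) = (w + 1) * c * x ^ (w + 1) := by ring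
    push_cast
    linarith only [h3, h4, h5]

/-- lower bound for the difference of the powers -/
private theorem mv_lo (x c : ℝ) (hc : 0 ≤ c) (hcx : c ≤ x) (w : ℕ) :
    (w + 1 : ℝ) * c * (x - c) ^ w ≤ x ^ (w + 1) - (x - c) ^ (w + 1) := by
  induction w with
  | zero => simp
  | succ w ih =>
    have hx : 0 ≤ x := hc.trans hcx
    have h1 : x ^ (w + 1 + 1) - (x - c) ^ (w + 1 + 1) =
        x * (x ^ (w + 1) - (x - c) ^ (w + 1)) + c * (x - c) ^ (w + 1) := by ring
    have h0 : 0 ≤ (x - c) ^ w := pow_nonneg (by linarith only [hcx]) _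
    have h3 := mul_le_mul_of_nonneg_left ih hx
    rw [h1]
    have h5 : (x - c) * ((w + 1) * c * (x - c) ^ w) ≤ x * ((w + 1) * c * (x - c) ^ w) :=
      mul_le_mul_of_nonneg_right (by linarith only [hc]) (by positivity)
    have h6 : (x - c) * ((w + 1) * c * (x - c) ^ w) = (w + 1) * c * (x - c) ^ (w + 1) := by ring
    push_cast
    linarith only [h3, h5, h6]

/-- `w ≥ 2`, no new points. -/
theorem mv_two (w : ℕ) (hw : 2 ≤ w) (a ε ε' : ℝ) (ha : 0 ≤ a) (hε : 0 < ε) (h : 2 * (w + 1) * ε ≤ ε')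
    (C c : ℕ) (hC : 1 ≤ C) (hc : 1 ≤ c) : ∃ n₀ : ℕ, ∀ n, n₀ ≤ n → ∀ N : ℕ,
      |(N : ℝ) - a * C * (n : ℝ) ^ w| ≤ ε * C * (n : ℝ) ^ w →
      ∃ T : ℕ, 2 * T ≤ N ∧ |((N - T : ℕ) : ℝ) - a * C * ((n - c : ℕ) : ℝ) ^ w| ≤ ε * C * ((n - c : ℕ) : ℝ) ^ w ∧
        |((N - T : ℕ) : ℝ) - a * C * (n : ℝ) ^ w| ≤ ε' * C * (n : ℝ) ^ w ∧
        |(T : ℝ) - a * w * (C * c) * (n : ℝ) ^ (w - 1)| ≤ ε' * (C * c) * (n : ℝ) ^ (w - 1) := by
  obtain ⟨v, rfl⟩ : ∃ v, w = v + 2 := ⟨w - 2, by omega⟩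
  have hC' : (1 : ℝ) ≤ C := by exact_mod_cast hC
  have hc' : (1 : ℝ) ≤ c := by exact_mod_cast hc
  have hv0 : (0 : ℝ) ≤ v := Nat.cast_nonneg v
  -- the bounds for n
  obtain ⟨n₁, hn₁⟩ := mv_ev (4 * (v + 2) * c) 1 one_pos
  obtain ⟨n₂, hn₂⟩ := mv_ev (ε * c + 4) ε hε
  obtain ⟨n₃, hn₃⟩ : ∃ n₃ : ℕ, ∀ n : ℕ, n₃ ≤ n → a ≤ ε ∨ 4 ≤ (a - ε) * n := by
    by_cases hae : a ≤ ε
    · exact ⟨0, fun _ _ => Or.inl hae⟩
    · obtain ⟨m, hm⟩ := mv_ev 4 (a - ε) (by linarith only [hae])
      exact ⟨m, fun n hn => Or.inr (hm n hn)⟩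
  obtain ⟨n₄, hn₄⟩ := mv_ev ((a + ε) * (v + 2) * c + 1) ε hε
  obtain ⟨n₅, hn₅⟩ := mv_ev (a * (v + 2) * (v + 1) * c) ε hε
  refine ⟨max n₁ (max n₂ (max n₃ (max n₄ n₅))), fun n hn N hN => ?_⟩
  simp only [max_le_iff] at hn
  have b1 := hn₁ n hn.1
  have b2 := hn₂ n hn.2.1
  have b3 := hn₃ n hn.2.2.1
  have b4 := hn₄ n hn.2.2.2.1
  have b5 := hn₅ n hn.2.2.2.2
  rw [one_mul] at b1
  have hcx : (c : ℝ) ≤ n := by nlinarith only [hc', b1]
  have hcn : c ≤ n := by exact_mod_cast hcx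
  set x : ℝ := (n : ℝ) with hx
  have hx1 : 1 ≤ x := hc'.trans hcx
  have hx0 : 0 < x := by linarith only [hc', hcx]
  rw [Nat.cast_sub hcn, ← hx]
  have hw1 : v + 2 - 1 = v + 1 := rfl
  rw [hw1]
  -- the powers
  set P : ℝ := x ^ (v + 1) with hP
  have hP1 : 1 ≤ P := one_le_pow₀ hx1
  have hPw : x ^ (v + 2) = x * P := by rw [hP]; ring
  have hy0 : 0 ≤ x - c := by linarith only [hcx]
  set Y : ℝ := (x - c) ^ (v + 2) with hY
  have hY0 : 0 ≤ Y := pow_nonneg hy0 _
  set R : ℝ := x * P - Y with hR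
  have hRup : R ≤ (v + 2) * c * P := by
    have := mv_up x c (by linarith only [hc']) hcx (v + 1)
    push_cast at this
    have e : (v + 1 + 1 : ℝ) = v + 2 := by ring
    rw [e] at this
    rw [hR, ← hPw]
    exact this
  have hR0 : 0 ≤ R := by
    rw [hR, ← hPw, hY, sub_nonneg]
    exact pow_le_pow_left₀ hy0 (by linarith only [hc']) _
  have hRlo : (v + 2) * c * P - (v + 2) * (v + 1) * c ^ 2 * x ^ v ≤ R := by
    have h1 := mv_lo x c (by linarith only [hc']) hcx (v + 1)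
    have h2 := mv_up x c (by linarith only [hc']) hcx v
    push_cast at h1
    have e : (v + 1 + 1 : ℝ) = v + 2 := by ring
    rw [e] at h1
    have h3 : (v + 2) * c * (x ^ (v + 1) - (x - c) ^ (v + 1)) ≤
        (v + 2) * c * ((v + 1) * c * x ^ v) := mul_le_mul_of_nonneg_left h2 (by positivity)
    have h4 : R = x ^ (v + 1 + 1) - (x - c) ^ (v + 1 + 1) := by
      rw [hR, ← hPw, hY]
    rw [h4, hP]
    linarith only [h1, h3]
  -- a C E ≤ ε C c P
  have hE : a * C * ((v + 2) * (v + 1) * c ^ 2 * x ^ v) ≤ ε * (C * c) * P := by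
    have h1 : P = x * x ^ v := by rw [hP]; ring
    have h2 : 0 ≤ (C : ℝ) * c * x ^ v := by positivity
    have h3 := mul_le_mul_of_nonneg_left b5 h2
    rw [h1]
    calc a * C * ((v + 2) * (v + 1) * c ^ 2 * x ^ v) = C * c * x ^ v * (a * (v + 2) * (v + 1) * c) := by
          ring
      _ ≤ C * c * x ^ v * (ε * x) := h3
      _ = _ := by ring
  have hy1 : 1 ≤ x - c := by nlinarith only [hc', b1]
  have hεY : 1 ≤ ε * C * Y := by
    have h1 : x - c ≤ Y := by
      rw [hY, pow_succ]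
      exact le_mul_of_one_le_left hy0 (one_le_pow₀ hy1)
    have h2 : ε * (x - c) ≤ ε * Y := mul_le_mul_of_nonneg_left h1 hε.le
    have h3 : ε * Y ≤ ε * C * Y := by
      have : 0 ≤ ε * Y := by positivity
      nlinarith only [hC', b2, h2]
    linarith only [b2, h2, h3]
  have hεP : 1 ≤ ε * (C * c) * P := by
    have h1 : x ≤ P := by
      rw [hP, pow_succ]
      exact le_mul_of_one_le_left hx0.le (one_le_pow₀ hx1)
    have h2 : ε * x ≤ ε * P := mul_le_mul_of_nonneg_left h1 hε.le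
    have h3 : ε * P ≤ ε * (C * c) * P := by
      have h4 : (1 : ℝ) ≤ C * c := by nlinarith only [hC', hc']
      have h5 : 0 ≤ ε * P := by positivity
      nlinarith only [h4, h5]
    nlinarith only [b2, h2, h3, hε]
  rw [hPw] at hN ⊢
  have hε' : 2 * ε ≤ ε' := by
    push_cast at h
    nlinarith only [hε, h]
  have hxP : 0 < x * P := by positivity
  obtain ⟨hN1, hN2⟩ := abs_le.1 hN
  by_cases hA : a ≤ ε ∧ (N : ℝ) ≤ (a + ε) * C * Y
  · obtain ⟨hA1, hA2⟩ := hA
    refine ⟨0, by omega, ?_, ?_, ?_⟩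
    · rw [Nat.sub_zero, abs_le]
      have h1 : (0 : ℝ) ≤ N := Nat.cast_nonneg N
      have h2 : a * (C * Y) ≤ ε * (C * Y) := mul_le_mul_of_nonneg_right hA1 (by positivity)
      constructor <;> linarith only [h2, hA2]
    · rw [Nat.sub_zero]
      refine hN.trans ?_
      have h2 : ε * (C * (x * P)) ≤ ε' * (C * (x * P)) :=
        mul_le_mul_of_nonneg_right (by linarith only [hε, hε']) (by positivity)
      linarith only [h2]
    · rw [Nat.cast_zero, zero_sub, abs_neg, abs_of_nonneg (by positivity)]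
      have h2 : a * (v + 2) ≤ ε' := by
        push_cast at h
        nlinarith only [hε, hA1, h]
      have h3 := mul_le_mul_of_nonneg_right h2 (show (0 : ℝ) ≤ C * c * P by positivity)
      push_cast
      linarith only [h3]
  · have hN4 : (4 : ℝ) ≤ N := by
      rcases b3 with b3 | b3
      · have h1 : (a + ε) * C * Y < N := by
          by_contra hcon
          exact hA ⟨b3, not_lt.1 hcon⟩
        have h2 : 0 ≤ a * C * Y := by positivity
        have h3 : ε * (x - c) ≤ ε * C * Y := by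
          have h4 : x - c ≤ Y := by
            rw [hY, pow_succ]
            exact le_mul_of_one_le_left hy0 (one_le_pow₀ hy1)
          have h5 : ε * (x - c) ≤ ε * Y := mul_le_mul_of_nonneg_left h4 hε.le
          have h6 : 0 ≤ ε * Y := by positivity
          nlinarith only [hC', h5, b2]
        nlinarith only [b2, h1, h2, h3]
      · have h1 : (a - ε) * x ≤ (a - ε) * (C * (x * P)) := by
          have h2 : 0 < a - ε := by
            by_contra hcon
            nlinarith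
          refine mul_le_mul_of_nonneg_left ?_ h2.le
          have h3 : x ≤ x * P := le_mul_of_one_le_right hx0.le hP1
          have h4 : 0 ≤ x * P := hxP.le
          nlinarith
        nlinarith only [hN1, b3, h1]
    -- the real number
    set u : ℝ := N / (x * P) with hu
    have huN : u * (x * P) = N := div_mul_cancel₀ _ hxP.ne'
    have hu0 : 0 ≤ u := by positivity
    have hu1 : u ≤ a * C + ε * C := by
      rw [hu, div_le_iff₀ hxP]
      linarith only [hN2]
    have hu2 : a * C - ε * C ≤ u := by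
      rw [hu, le_div_iff₀ hxP]
      linarith only [hN1]
    have hS : N - u * R = u * Y := by
      rw [hR]
      linear_combination -huN
    have hS0 : 0 ≤ u * R := mul_nonneg hu0 hR0
    have hSN : 4 * (u * R) ≤ N := by
      have h1 : 4 * R ≤ x * P := by
        have h2 := mul_le_mul_of_nonneg_right b1 (by linarith only [hP1] : (0 : ℝ) ≤ P)
        linarith only [hRup, h2]
      have h3 := mul_le_mul_of_nonneg_left h1 hu0
      linarith only [huN, h3]
    -- the bound for the number T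
    have key : ∀ T : ℕ, |(T : ℝ) - u * R| ≤ 1 → 2 * T ≤ N ∧
        |((N - T : ℕ) : ℝ) - a * C * (x * P)| ≤ ε' * C * (x * P) ∧
        |(T : ℝ) - a * ((v + 2 : ℕ) : ℝ) * (C * c) * P| ≤ ε' * (C * c) * P := by
      intro T hT
      obtain ⟨hT1, hT2⟩ := abs_le.1 hT
      have h2T : (2 : ℝ) * T ≤ N := by linarith only [hN4, hSN, hT2]
      have h2T' : 2 * T ≤ N := by exact_mod_cast h2T
      refine ⟨h2T', ?_, ?_⟩
      · rw [Nat.cast_sub (by omega), abs_le]
        have h1 : (T : ℝ) ≤ ε * C * (x * P) := by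
          have h3 : u * R ≤ (a * C + ε * C) * ((v + 2) * c * P) :=
            mul_le_mul hu1 hRup hR0 (by positivity)
          have h4 : (1 : ℝ) ≤ C * P := by nlinarith only [hC', hP1]
          have h5 := mul_le_mul_of_nonneg_left b4 (show (0 : ℝ) ≤ C * P by positivity)
          linarith only [hT2, h3, h4, h5]
        have h2 : ε * (C * (x * P)) * 2 ≤ ε' * (C * (x * P)) := by
          have := mul_le_mul_of_nonneg_right hε' (show (0 : ℝ) ≤ C * (x * P) by positivity)
          linarith only [this]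
        have h3 : (0 : ℝ) ≤ T := Nat.cast_nonneg T
        constructor <;> linarith only [hN1, h1, h2, hN2]
      · have e1 : (T : ℝ) - a * ((v + 2 : ℕ) : ℝ) * (C * c) * P = (T - u * R) + (u - a * C) * R +
            a * C * (R - (v + 2) * c * P) := by
          push_cast
          ring
        have h1 : |(u - a * C) * R| ≤ ε * C * ((v + 2) * c * P) := by
          rw [abs_mul, abs_of_nonneg hR0]
          refine mul_le_mul ?_ hRup hR0 (by positivity)
          rw [abs_le]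
          constructor <;> linarith only [hu2, hu1]
        have h2 : |a * C * (R - (v + 2) * c * P)| ≤ ε * (C * c) * P := by
          rw [abs_mul, abs_of_nonneg (show (0 : ℝ) ≤ a * C by positivity), abs_of_nonpos (by linarith only [hRup])]
          have h3 := mul_le_mul_of_nonneg_left hRlo (show (0 : ℝ) ≤ a * C by positivity)
          linarith only [hE, h3]
        rw [e1]
        refine (abs_add_three _ _ _).trans ?_
        have h3 : (v + 4) * ε ≤ ε' := by
          push_cast at h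
          linarith only [hε', h]
        have h4 := mul_le_mul_of_nonneg_right h3 (show (0 : ℝ) ≤ C * c * P by positivity)
        linarith only [hεP, hT, h1, h2, h4]
    rcases le_or_gt (a * C) u with hcase | hcase
    · have hT1 : u * R ≤ ⌈u * R⌉₊ := Nat.le_ceil _
      have hT2 : (⌈u * R⌉₊ : ℝ) < u * R + 1 := Nat.ceil_lt_add_one hS0
      obtain ⟨k1, k2, k3⟩ := key ⌈u * R⌉₊ (by rw [abs_le]; constructor <;> linarith only [hT1, hT2])
      refine ⟨⌈u * R⌉₊, k1, ?_, k2, k3⟩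
      rw [Nat.cast_sub (by omega), abs_le]
      have h1 : (u - a * C) * Y ≤ ε * C * Y := mul_le_mul_of_nonneg_right (by linarith only [hu1]) hY0
      have h2 : 0 ≤ (u - a * C) * Y := mul_nonneg (by linarith only [hcase]) hY0
      constructor <;> linarith only [hεY, huN, hT2, h2, hT1, h1]
    · have hT1 : (⌊u * R⌋₊ : ℝ) ≤ u * R := Nat.floor_le hS0
      have hT2 : u * R < ⌊u * R⌋₊ + 1 := Nat.lt_floor_add_one _
      obtain ⟨k1, k2, k3⟩ := key ⌊u * R⌋₊ (by rw [abs_le]; constructor <;> linarith only [hT2, hT1])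
      refine ⟨⌊u * R⌋₊, k1, ?_, k2, k3⟩
      rw [Nat.cast_sub (by omega), abs_le]
      have h1 : -(ε * C * Y) ≤ (u - a * C) * Y := by
        have := mul_le_mul_of_nonneg_right (show -(ε * C) ≤ u - a * C by linarith only [hu2]) hY0
        linarith only [this]
      have h2 : (u - a * C) * Y ≤ 0 := mul_nonpos_of_nonpos_of_nonneg (by linarith only [hcase]) hY0
      constructor <;> linarith only [huN, hT1, h1, hεY, hT2, h2]

/-- `w ≥ 2`, `a = 0`, with room for new points. -/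
theorem mv_room (w : ℕ) (hw : 2 ≤ w) (β ε ε' : ℝ) (hβ : 0 < β) (hβ1 : β ≤ 1) (hε : 0 < ε)
    (h : 4 * (w + 1) * ε ≤ ε') (C c : ℕ) (hC : 1 ≤ C) (hc : 1 ≤ c) : ∃ (ρ : ℝ) (n₀ : ℕ), 0 < ρ ∧ ∀ n, n₀ ≤ n →
      ∀ N : ℕ, (N : ℝ) ≤ ε * C * (n : ℝ) ^ w →
      ∃ T : ℕ, T ≤ N ∧ (∀ X : ℕ, (X : ℝ) ≤ ρ * (n : ℝ) ^ (w - 1) →
          ((N - T + X : ℕ) : ℝ) ≤ ε * C * ((n - c : ℕ) : ℝ) ^ w) ∧
        (T : ℝ) ≤ ε' * (C * c) * (n : ℝ) ^ (w - 1) := by
  obtain ⟨v, rfl⟩ : ∃ v, w = v + 2 := ⟨w - 2, by omega⟩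
  have hC' : (1 : ℝ) ≤ C := by exact_mod_cast hC
  have hc' : (1 : ℝ) ≤ c := by exact_mod_cast hc
  have hv0 : (0 : ℝ) ≤ v := Nat.cast_nonneg v
  obtain ⟨n₁, hn₁⟩ := mv_ev ((v + 3) * c) 1 one_pos
  obtain ⟨n₂, hn₂⟩ := mv_ev 1 ε hε
  refine ⟨ε * (C * c), max n₁ n₂, by positivity, fun n hn N hN => ?_⟩
  simp only [max_le_iff] at hn
  have b1 := hn₁ n hn.1
  have b2 := hn₂ n hn.2
  rw [one_mul] at b1
  have hcx : (c : ℝ) ≤ n := by nlinarith only [hc', b1]
  have hcn : c ≤ n := by exact_mod_cast hcx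
  set x : ℝ := (n : ℝ) with hx
  have hx1 : 1 ≤ x := hc'.trans hcx
  have hx0 : 0 < x := by linarith only [hc', hcx]
  rw [Nat.cast_sub hcn, ← hx]
  have hw1 : v + 2 - 1 = v + 1 := rfl
  rw [hw1]
  set P : ℝ := x ^ (v + 1) with hP
  have hP1 : 1 ≤ P := one_le_pow₀ hx1
  have hPw : x ^ (v + 2) = x * P := by rw [hP]; ring
  set Y : ℝ := (x - c) ^ (v + 2) with hY
  rw [hPw] at hN
  have hRup : x * P - Y ≤ (v + 2) * c * P := by
    have := mv_up x c (by linarith only [hc']) hcx (v + 1)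
    push_cast at this
    have e : (v + 1 + 1 : ℝ) = v + 2 := by ring
    rw [e] at this
    rw [← hPw]
    exact this
  have hεP : 1 ≤ ε * (C * c) * P := by
    have h1 : x ≤ P := by
      rw [hP, pow_succ]
      exact le_mul_of_one_le_left hx0.le (one_le_pow₀ hx1)
    have h2 : ε * x ≤ ε * P := mul_le_mul_of_nonneg_left h1 hε.le
    have h3 : ε * P ≤ ε * (C * c) * P := by
      have h4 : (1 : ℝ) ≤ C * c := by nlinarith only [hC', hc']
      have h5 : 0 ≤ ε * P := by positivity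
      nlinarith only [h4, b2, h2]
    nlinarith only [b2, h2, h3]
  set Z : ℝ := ε * (C * c) * P with hZ
  have hYZ : Z ≤ ε * C * Y := by
    have h1 : (c : ℝ) * P ≤ Y := by
      have := mul_le_mul_of_nonneg_right b1 (show 0 ≤ P by linarith only [hP1])
      linarith only [hRup, this]
    have h2 := mul_le_mul_of_nonneg_left h1 (show (0 : ℝ) ≤ ε * C by positivity)
    rw [hZ]
    linarith only [h2]
  have hNY : (N : ℝ) ≤ ε * C * Y + (v + 2) * Z := by
    have h2 := mul_le_mul_of_nonneg_left hRup (show (0 : ℝ) ≤ ε * C by positivity)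
    rw [hZ]
    linarith only [hN, h2]
  have hε' : (v + 4) * Z ≤ ε' * (C * c) * P := by
    have h3 : (v + 4) * ε ≤ ε' := by
      push_cast at h
      nlinarith only [hε, h]
    have h4 := mul_le_mul_of_nonneg_right h3 (show (0 : ℝ) ≤ C * c * P by positivity)
    rw [hZ]
    linarith only [h4]
  have hT1 : (v + 3) * Z ≤ ⌈(v + 3) * Z⌉₊ := Nat.le_ceil _
  have hT2 : (⌈(v + 3) * Z⌉₊ : ℝ) < (v + 3) * Z + 1 := Nat.ceil_lt_add_one (by positivity)
  rcases le_total N ⌈(v + 3) * Z⌉₊ with hcase | hcase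
  · refine ⟨N, le_rfl, fun X hX => ?_, ?_⟩
    · rw [Nat.sub_self, zero_add]
      exact hX.trans hYZ
    · have h1 : (N : ℝ) ≤ ⌈(v + 3) * Z⌉₊ := by exact_mod_cast hcase
      linarith only [hεP, hε', hT2, h1]
  · refine ⟨⌈(v + 3) * Z⌉₊, hcase, fun X hX => ?_, ?_⟩
    · rw [Nat.cast_add, Nat.cast_sub hcase]
      have hX' : (X : ℝ) ≤ Z := hX
      linarith only [hNY, hT1, hX]
    · linarith only [hεP, hε', hT2]

/-- `w = 1`: one of two values `p > a > m` (times `C c`) is put off. -/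
theorem mv_one (a ε ε' β p m : ℝ) (ha : 0 ≤ a) (hε : 0 < ε) (hβ : 2 * ε ≤ β) (h : 2 * ε ≤ ε')
    (hp : a + β / 2 ≤ p ∧ p ≤ a + β) (hm : a ≠ 0 → m ≤ a - β / 2 ∧ a - β ≤ m) (hm0 : a = 0 → m = 0)
    (C c Tp Tm : ℕ) (hC : 1 ≤ C) (hc : 1 ≤ c) (hTp : (Tp : ℝ) = p * (C * c)) (hTm : (Tm : ℝ) = m * (C * c)) :
    ∃ n₀ : ℕ, ∀ n, n₀ ≤ n → ∀ N : ℕ, |(N : ℝ) - a * C * (n : ℝ)| ≤ ε * C * (n : ℝ) →
      ∃ T : ℕ, (T = Tp ∨ T = Tm) ∧ T ≤ N ∧ (a ≠ 0 → 2 * T ≤ N) ∧
        |((N - T : ℕ) : ℝ) - a * C * ((n - c : ℕ) : ℝ)| ≤ ε * C * ((n - c : ℕ) : ℝ) ∧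
        |((N - T : ℕ) : ℝ) - a * C * (n : ℝ)| ≤ ε' * C * (n : ℝ) := by
  have hC' : (1 : ℝ) ≤ C := by exact_mod_cast hC
  have hc' : (1 : ℝ) ≤ c := by exact_mod_cast hc
  have hCc : (0 : ℝ) < C * c := by positivity
  obtain ⟨n₁, hn₁⟩ := mv_ev (2 * c) 1 one_pos
  obtain ⟨n₂, hn₂⟩ := mv_ev (ε * c + β * c + Tp + Tm) ε hε
  obtain ⟨n₃, hn₃⟩ : ∃ n₃ : ℕ, ∀ n : ℕ, n₃ ≤ n → a = 0 ∨ (0 < a ∧ 2 * (Tp : ℝ) ≤ a * n) := by
    rcases eq_or_lt_of_le ha with h0 | h0
    · exact ⟨0, fun _ _ => Or.inl h0.symm⟩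
    · obtain ⟨k, hk⟩ := mv_ev (2 * Tp) a h0
      exact ⟨k, fun n hn => Or.inr ⟨h0, hk n hn⟩⟩
  refine ⟨max n₁ (max n₂ n₃), fun n hn N hN => ?_⟩
  simp only [max_le_iff] at hn
  have b1 := hn₁ n hn.1
  have b2 := hn₂ n hn.2.1
  have b3 := hn₃ n hn.2.2
  rw [one_mul] at b1
  have hcx : (c : ℝ) ≤ n := by linarith only [hc', b1]
  have hcn : c ≤ n := by exact_mod_cast hcx
  rw [Nat.cast_sub hcn]
  set x : ℝ := (n : ℝ) with hx
  have hx0 : 0 ≤ x := by linarith only [hc', b1]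
  have hTp0 : (0 : ℝ) ≤ Tp := Nat.cast_nonneg _
  have hTm0 : (0 : ℝ) ≤ Tm := Nat.cast_nonneg _
  have hN0 : (0 : ℝ) ≤ N := Nat.cast_nonneg _
  obtain ⟨hN1, hN2⟩ := abs_le.1 hN
  -- C times the bounds
  have hβ0 : 0 < β := by linarith only [hε, hβ]
  have b2' : C * (β * c) ≤ ε * C * (x - c) := by
    have h1 : β * c ≤ ε * (x - c) := by linarith only [b2]
    have := mul_le_mul_of_nonneg_left h1 (show (0 : ℝ) ≤ C by positivity)
    linarith only [this]
  have b2p : (Tp : ℝ) ≤ ε * C * (x - c) := by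
    have h1 : (Tp : ℝ) ≤ ε * (x - c) := by
      have : 0 ≤ β * c := by positivity
      linarith only [b2, this]
    have h2 : ε * (x - c) ≤ ε * C * (x - c) := by
      have h3 : 0 ≤ ε * (x - c) := mul_nonneg hε.le (by linarith only [hc', b1])
      nlinarith only [hC', h1]
    linarith only [h1, h2]
  have b2m : (Tm : ℝ) ≤ ε * C * x := by
    have h0 : 0 ≤ β * c := by positivity
    have h4 : 0 ≤ ε * c := by positivity
    have h1 : (Tm : ℝ) ≤ ε * x := by linarith only [b2, h0, h4]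
    have h2 : ε * x ≤ ε * C * x := by
      have h3 : 0 ≤ ε * x := by positivity
      nlinarith only [hC', b2, h0, h4]
    linarith only [b2, h0, h4, h2]
  have hεc : ε * C * (x - c) ≤ ε * C * x := mul_le_mul_of_nonneg_left (by linarith only [hc']) (by positivity)
  have hε' : 2 * (ε * C * x) ≤ ε' * C * x := by
    have := mul_le_mul_of_nonneg_right h (show (0 : ℝ) ≤ C * x by positivity)
    linarith only [this]
  by_cases hcase : a * C * x ≤ N ∧ Tp ≤ N
  · obtain ⟨h1, h2⟩ := hcase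
    refine ⟨Tp, Or.inl rfl, h2, fun ha0 => ?_, ?_, ?_⟩
    · rcases b3 with b3 | ⟨_, b3⟩
      · exact absurd b3 ha0
      · have h3 : a * x ≤ a * C * x := by
          have : 0 ≤ a * x := by positivity
          nlinarith only [hC', b3]
        have h4 : (2 : ℝ) * Tp ≤ N := by linarith only [h1, b3, h3]
        exact_mod_cast h4
    · rw [Nat.cast_sub h2, abs_le]
      have h3 : (a + β / 2) * (C * c) ≤ Tp := by
        rw [hTp]
        exact mul_le_mul_of_nonneg_right hp.1 hCc.le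
      have h4 : (Tp : ℝ) ≤ (a + β) * (C * c) := by
        rw [hTp]
        exact mul_le_mul_of_nonneg_right hp.2 hCc.le
      have h5 : ε * (C * c) ≤ β / 2 * (C * c) := mul_le_mul_of_nonneg_right (by linarith only [hβ]) hCc.le
      constructor <;> linarith only [b2', h1, h4, hN2, h3, h5]
    · rw [Nat.cast_sub h2, abs_le]
      constructor <;> linarith only [hN1, b2p, hεc, hε', hN2]
  · rcases b3 with b3 | ⟨ha0, b3⟩
    · -- a = 0
      have hTm' : Tm = 0 := by
        have : (Tm : ℝ) = 0 := by rw [hTm, hm0 b3, zero_mul]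
        exact_mod_cast this
      have hlt : N < Tp := by
        by_contra hcon
        refine hcase ⟨?_, not_lt.1 hcon⟩
        rw [b3]
        simpa using hN0
      have hlt' : (N : ℝ) ≤ Tp := by exact_mod_cast hlt.le
      refine ⟨Tm, Or.inr rfl, by omega, fun ha0 => absurd b3 ha0, ?_, ?_⟩
      · rw [hTm', Nat.sub_zero, b3, abs_le]
        constructor <;> linarith only [b2p, hlt']
      · rw [hTm', Nat.sub_zero, b3, abs_le]
        constructor <;> linarith only [hN1, hN2, hε', b2p, hεc, hlt']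
    · have hlt : (N : ℝ) < a * C * x := by
        by_contra hcon
        have h1 : a * C * x ≤ N := not_lt.1 hcon
        refine hcase ⟨h1, ?_⟩
        have h3 : a * x ≤ a * C * x := by
          have : 0 ≤ a * x := by positivity
          nlinarith only [hC', b3]
        have h4 : (Tp : ℝ) ≤ N := by linarith only [b3, hcon, h3]
        exact_mod_cast h4
      obtain ⟨hm1, hm2⟩ := hm ha0.ne'
      have h3 : (Tm : ℝ) ≤ (a - β / 2) * (C * c) := by
        rw [hTm]
        exact mul_le_mul_of_nonneg_right hm1 hCc.le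
      have h4 : (a - β) * (C * c) ≤ Tm := by
        rw [hTm]
        exact mul_le_mul_of_nonneg_right hm2 hCc.le
      have h5 : ε * (C * c) ≤ β / 2 * (C * c) := mul_le_mul_of_nonneg_right (by linarith only [hβ]) hCc.le
      have h6 : 0 ≤ a - β / 2 := by
        by_contra hcon
        have : (a - β / 2) * (C * c) < 0 := mul_neg_of_neg_of_pos (not_le.1 hcon) hCc
        linarith only [h3, this]
      have h7 : 2 * (Tm : ℝ) ≤ N := by
        have h8 : (a - β / 2) * C * (2 * c) ≤ (a - β / 2) * C * x :=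
          mul_le_mul_of_nonneg_left b1 (by positivity)
        have h9 : ε * (C * x) ≤ β / 2 * (C * x) := mul_le_mul_of_nonneg_right (by linarith only [hβ])
          (by positivity)
        linarith only [hN1, h3, h8, h9]
      have h7' : 2 * Tm ≤ N := by exact_mod_cast h7
      refine ⟨Tm, Or.inr rfl, by omega, fun _ => h7', ?_, ?_⟩
      · rw [Nat.cast_sub (by omega), abs_le]
        constructor <;> linarith only [hN1, h3, h5, b2', hlt, h4]
      · rw [Nat.cast_sub (by omega), abs_le]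
        constructor <;> linarith only [hN1, b2m, hε', hlt]

end Pool.Agent.GD

end

section

/-!
# XE, module S: the softplus potential

`BB c x = c log (1 + e^(x / c))`, `pp c x = BB'`.  `BB_sub_le` is convexity: with `p = pp c a`, `q = 1 - p`,
`y = h / c`: `q + p e^(-y) ≥ e^(-p y)`.  `le_BB_sub`: `y ≤ κ / 2`,
`q + p e^(-y) ≤ e^(-y p (1 - κ q))`: for `p ≥ 1/2` it is `e^(-y) (1 + q (e^y - 1)) ≤ exp (-y + q (y + y^2))`, for
`p < 1/2` it is `1 - p (1 - e^(-y)) ≤ exp (-p (y - y^2 / 2))`.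
-/

set_option autoImplicit false

namespace Pool.Agent.XE

/-- The potential. -/
noncomputable def BB (c x : ℝ) : ℝ := c * Real.log (1 + Real.exp (x / c))

/-- Its derivative. -/
noncomputable def pp (c x : ℝ) : ℝ := Real.exp (x / c) / (1 + Real.exp (x / c))

theorem pp_pos (c x : ℝ) : 0 < pp c x := by
  unfold pp
  positivity

theorem pp_lt_one (c x : ℝ) : pp c x < 1 := by
  unfold pp
  rw [div_lt_one (by positivity)]
  linarith [Real.exp_pos (x / c)]

theorem BB_nonneg {c : ℝ} (hc : 0 < c) (x : ℝ) : 0 ≤ BB c x := by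
  unfold BB
  have : 0 ≤ Real.log (1 + Real.exp (x / c)) :=
    Real.log_nonneg (by linarith [Real.exp_pos (x / c)])
  positivity

theorem le_BB {c : ℝ} (hc : 0 < c) (x : ℝ) : x ≤ BB c x := by
  unfold BB
  have h1 : x / c ≤ Real.log (1 + Real.exp (x / c)) := by
    rw [Real.le_log_iff_exp_le (by positivity)]
    linarith
  have h2 : c * (x / c) = x := by field_simp
  calc x = c * (x / c) := h2.symm
    _ ≤ _ := mul_le_mul_of_nonneg_left h1 hc.le

theorem BB_mono {c : ℝ} (hc : 0 < c) {x y : ℝ} (h : x ≤ y) : BB c x ≤ BB c y := by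
  unfold BB
  apply mul_le_mul_of_nonneg_left _ hc.le
  apply Real.log_le_log (by positivity)
  have : x / c ≤ y / c := div_le_div_of_nonneg_right h hc.le
  linarith [Real.exp_le_exp.2 this]

/-- The difference of two values. -/
theorem BB_diff (c a h : ℝ) :
    BB c (a - h) - BB c a = c * Real.log (1 - pp c a * (1 - Real.exp (-(h / c)))) := by
  have e1 : 1 - pp c a * (1 - Real.exp (-(h / c))) =
      (1 + Real.exp ((a - h) / c)) / (1 + Real.exp (a / c)) := by
    unfold pp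
    have h1 : Real.exp ((a - h) / c) = Real.exp (a / c) * Real.exp (-(h / c)) := by
      rw [← Real.exp_add]
      congr 1
      ring
    rw [h1]
    have : (1 + Real.exp (a / c)) ≠ 0 := by positivity
    field_simp
    ring
  rw [e1, Real.log_div (by positivity) (by positivity)]
  unfold BB
  ring

theorem BB_sub_le' {c : ℝ} (hc : 0 < c) (a h : ℝ) :
    BB c a - BB c (a - h) ≤ pp c a * h := by
  have hd := BB_diff c a h
  have hp := pp_pos c a
  have hq := pp_lt_one c a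
  have h1 : Real.exp (-(pp c a * (h / c))) ≤ 1 - pp c a * (1 - Real.exp (-(h / c))) := by
    have hcv := convexOn_exp.2 (Set.mem_univ (0 : ℝ)) (Set.mem_univ (-(h / c)))
      (show 0 ≤ 1 - pp c a by linarith) hp.le (by ring)
    simp only [smul_eq_mul, mul_zero, zero_add, Real.exp_zero, mul_one] at hcv
    have e : pp c a * -(h / c) = -(pp c a * (h / c)) := by ring
    rw [e] at hcv
    linarith
  have h2 : -(pp c a * (h / c)) ≤ Real.log (1 - pp c a * (1 - Real.exp (-(h / c)))) := by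
    rw [Real.le_log_iff_exp_le (lt_of_lt_of_le (Real.exp_pos _) h1)]
    exact h1
  have h3 := mul_le_mul_of_nonneg_left h2 hc.le
  have e2 : c * -(pp c a * (h / c)) = -(pp c a * h) := by field_simp
  rw [e2] at h3
  linarith

theorem le_BB_sub {c κ : ℝ} (hc : 0 < c) (hκ : 0 < κ) (hκ1 : κ ≤ 1) (a : ℝ) {h : ℝ} (hh : 0 ≤ h)
    (hh1 : h ≤ κ / 2 * c) :
    h * (pp c a - κ * pp c a * (1 - pp c a)) ≤ BB c a - BB c (a - h) := by
  have hd := BB_diff c a h
  obtain ⟨p, hpd⟩ : ∃ p, p = pp c a := ⟨_, rfl⟩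
  obtain ⟨y, hyd⟩ : ∃ y, y = h / c := ⟨_, rfl⟩
  have hp : 0 < p := by rw [hpd]; exact pp_pos c a
  have hq : p < 1 := by rw [hpd]; exact pp_lt_one c a
  have hy0 : 0 ≤ y := by rw [hyd]; positivity
  have hyk : y ≤ κ / 2 := by
    rw [hyd, div_le_iff₀ hc]
    exact hh1
  rw [← hpd, ← hyd] at hd
  rw [← hpd]
  have hexp1 : y - y ^ 2 / 2 ≤ 1 - Real.exp (-y) := by
    have h1 : Real.exp (-y) ≤ 1 - y + y ^ 2 / 2 := by
      have h3 : 1 + y + y ^ 2 / 2 ≤ Real.exp y := Real.quadratic_le_exp_of_nonneg hy0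
      rw [Real.exp_neg, inv_le_comm₀ (Real.exp_pos _) (by nlinarith)]
      refine le_trans ?_ h3
      rw [inv_le_comm₀ (by nlinarith) (by nlinarith)]
      rw [inv_eq_one_div, div_le_iff₀ (by nlinarith)]
      nlinarith [mul_nonneg hy0 hy0, mul_nonneg (mul_nonneg hy0 hy0) hy0, sq_nonneg (y ^ 2)]
    linarith
  have hlog : Real.log (1 - p * (1 - Real.exp (-y))) ≤ -(y * (p - κ * p * (1 - p))) := by
    have hpos : 0 < 1 - p * (1 - Real.exp (-y)) := by
      have : 0 < Real.exp (-y) := Real.exp_pos _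
      nlinarith
    rcases le_or_gt (1 / 2) p with hp2 | hp2
    · have e1 : 1 - p * (1 - Real.exp (-y)) = Real.exp (-y) * (1 + (1 - p) * (Real.exp y - 1)) := by
        have : Real.exp (-y) * Real.exp y = 1 := by rw [← Real.exp_add]; simp
        linear_combination -(1 - p) * this
      have hy1 : y ≤ 1 := by linarith
      have h2 : Real.exp y ≤ 1 + y + y ^ 2 := by
        have := Real.abs_exp_sub_one_sub_id_le (x := y) (by rw [abs_of_nonneg hy0]; exact hy1)
        have := (abs_le.1 this).2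
        linarith
      have h3 : 1 ≤ Real.exp y := Real.one_le_exp hy0
      rw [e1, Real.log_mul (by positivity) (by nlinarith), Real.log_exp]
      have h4 : Real.log (1 + (1 - p) * (Real.exp y - 1)) ≤ (1 - p) * (Real.exp y - 1) := by
        have := Real.log_le_sub_one_of_pos (x := 1 + (1 - p) * (Real.exp y - 1)) (by nlinarith)
        linarith
      have h5 : (1 - p) * (Real.exp y - 1) ≤ (1 - p) * (y + y ^ 2) :=
        mul_le_mul_of_nonneg_left (by linarith) (by linarith)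
      have h6 : y * y ≤ y * (κ * p) := mul_le_mul_of_nonneg_left (by nlinarith) hy0
      nlinarith [mul_le_mul_of_nonneg_left h6 (show 0 ≤ 1 - p by linarith)]
    · have h4 : Real.log (1 - p * (1 - Real.exp (-y))) ≤ -(p * (1 - Real.exp (-y))) := by
        have := Real.log_le_sub_one_of_pos hpos
        linarith
      have h5 : p * (y - y ^ 2 / 2) ≤ p * (1 - Real.exp (-y)) :=
        mul_le_mul_of_nonneg_left hexp1 hp.le
      have h6 : y * (y / 2) ≤ y * (κ * (1 - p)) := mul_le_mul_of_nonneg_left (by nlinarith) hy0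
      nlinarith [mul_le_mul_of_nonneg_left h6 hp.le]
  have h7 := mul_le_mul_of_nonneg_left hlog hc.le
  rw [← hd] at h7
  have e2 : c * -(y * (p - κ * p * (1 - p))) = -(h * (p - κ * p * (1 - p))) := by
    rw [hyd]
    field_simp
  rw [e2] at h7
  linarith

/-- On the positive side `BB c x` is close to `x`. -/
theorem BB_lt_add_one {c x : ℝ} (hc : 0 < c) (h : c * Real.log c < x) : BB c x < x + 1 := by
  have e : BB c x = x + c * Real.log (1 + Real.exp (-(x / c))) := by
    unfold BB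
    have h1 : 1 + Real.exp (x / c) = Real.exp (x / c) * (1 + Real.exp (-(x / c))) := by
      rw [mul_add, ← Real.exp_add]
      simp [add_comm]
    rw [h1, Real.log_mul (by positivity) (by positivity), Real.log_exp, mul_add]
    congr 1
    field_simp
  have h1 : Real.log (1 + Real.exp (-(x / c))) ≤ Real.exp (-(x / c)) := by
    have := Real.log_le_sub_one_of_pos (x := 1 + Real.exp (-(x / c))) (by positivity)
    linarith
  have h2 : Real.exp (-(x / c)) < 1 / c := by
    rw [← Real.exp_log (show 0 < 1 / c by positivity), Real.exp_lt_exp, one_div, Real.log_inv]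
    have : Real.log c < x / c := by
      rw [lt_div_iff₀ hc]
      linarith
    linarith
  have h3 : c * Real.log (1 + Real.exp (-(x / c))) < 1 := by
    calc c * Real.log (1 + Real.exp (-(x / c))) ≤ c * Real.exp (-(x / c)) :=
          mul_le_mul_of_nonneg_left h1 hc.le
      _ < c * (1 / c) := mul_lt_mul_of_pos_left h2 hc
      _ = 1 := by field_simp
  linarith

/-- On the negative side `BB c x` is small. -/
theorem BB_lt_one {c x : ℝ} (hc : 0 < c) (h : x < -(c * Real.log c)) : BB c x < 1 := by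
  unfold BB
  have h1 : Real.log (1 + Real.exp (x / c)) ≤ Real.exp (x / c) := by
    have := Real.log_le_sub_one_of_pos (x := 1 + Real.exp (x / c)) (by positivity)
    linarith
  have h2 : Real.exp (x / c) < 1 / c := by
    rw [← Real.exp_log (show 0 < 1 / c by positivity), Real.exp_lt_exp, one_div, Real.log_inv]
    rw [div_lt_iff₀ hc]
    linarith
  calc c * Real.log (1 + Real.exp (x / c)) ≤ c * Real.exp (x / c) :=
        mul_le_mul_of_nonneg_left h1 hc.le
    _ < c * (1 / c) := mul_lt_mul_of_pos_left h2 hc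
    _ = 1 := by field_simp

/-- `BB c x ≥ c / 4` if `x ≥ -c`. -/
theorem quarter_le_BB {c x : ℝ} (hc : 0 < c) (h : -c ≤ x) : c / 4 ≤ BB c x := by
  refine le_trans ?_ (BB_mono hc h)
  unfold BB
  have e : -c / c = -1 := by field_simp
  rw [e]
  have h1 : 1 - (1 + Real.exp (-1))⁻¹ ≤ Real.log (1 + Real.exp (-1)) :=
    Real.one_sub_inv_le_log_of_pos (by positivity)
  have h2 : Real.exp 1 < 3 := by
    have := Real.exp_one_lt_d9
    linarith
  have h3 : (1 : ℝ) / 3 < Real.exp (-1) := by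
    rw [Real.exp_neg, one_div]
    exact inv_strictAnti₀ (Real.exp_pos 1) h2
  have h4 : (1 + Real.exp (-1))⁻¹ ≤ 3 / 4 := by
    rw [inv_le_comm₀ (by positivity) (by norm_num)]
    norm_num
    linarith
  nlinarith

/-- The step of the transport. -/
theorem soft_step {c κ a α α₁ H H' H₁ u u₁ : ℝ} (hc : 0 < c) (hκ : 0 < κ) (hκ1 : κ ≤ 1 / 2)
    (hα : 0 ≤ α) (hαα : α ≤ α₁ / 2) (hα₁ : α₁ ≤ κ / 2 * c) (hH : H ≤ BB c a)
    (hH₁ : H₁ ≤ BB c (a - α₁)) (_hu : 0 ≤ u) (_hu1 : u ≤ 1) (h' : H' = H - u * α)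
    (h₁ : H₁ = H - u₁ * α₁) (hF : u₁ ≤ u - κ * u * (1 - u)) : H' ≤ BB c (a - α) := by
  by_contra hcon
  push Not at hcon
  obtain ⟨p, hpd⟩ : ∃ p, p = pp c a := ⟨_, rfl⟩
  have hp : 0 < p := by rw [hpd]; exact pp_pos c a
  have hq : p < 1 := by rw [hpd]; exact pp_lt_one c a
  have h0 : 0 ≤ α₁ := by linarith
  have ht := BB_sub_le' hc a α
  rw [← hpd] at ht
  have hup : u * α < p * α := by linarith
  have hup' : u < p := lt_of_mul_lt_mul_right hup hα
  have hdrop := le_BB_sub hc hκ (by linarith) a h0 hα₁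
  rw [← hpd] at hdrop
  have h2 : u₁ * α₁ ≤ (u - κ * u * (1 - u)) * α₁ := mul_le_mul_of_nonneg_right hF h0
  have h3 : (p - u) * α ≤ (p - u) * ((1 - κ) * α₁) :=
    mul_le_mul_of_nonneg_left (by nlinarith) (by linarith)
  have h4 : 0 ≤ κ * (p - u) * (p + u) * α₁ := by
    have : 0 ≤ p - u := by linarith
    positivity
  nlinarith

end Pool.Agent.XE

end

section

/-!
# XE2: the potential with a left end

`LB g K Z D x = g K z_+^D`, `z = x / g + Z`.  `left_step`: as `Pool.Agent.XE.soft_step`.  Suppose `H' = H - u α > LB (a - α)`.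
`z ≤ 0` or `LB a < 1`: `H = 0`.  Convexity: `u < p = K D z^(D-1)`, so `u₁ ≤ (K/4) z^D`, and
`LB a - LB (a - α₁) < p α + u₁ α₁`.  `α₁ ≤ g z`: the left side is `≥ α₁ K z^(D-1)`.  `α₁ > g z`: it is `g K z^D`, and
`p α ≤ g K z^D / 2` unless `g z < 2 D α`, `LB a < 1`.
-/

set_option autoImplicit false

namespace Pool.Agent.XE2

/-- The potential. -/
noncomputable def LB (g K Z : ℝ) (D : ℕ) (x : ℝ) : ℝ := g * K * (max 0 (x / g + Z)) ^ D

theorem LB_nonneg {g K : ℝ} (hg : 0 < g) (hK : 0 < K) (Z : ℝ) (D : ℕ) (x : ℝ) :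
    0 ≤ LB g K Z D x := by
  unfold LB
  have : 0 ≤ max 0 (x / g + Z) := le_max_left _ _
  positivity

theorem LB_zero {g K Z x : ℝ} {D : ℕ} (hD : 1 ≤ D) (h : x / g + Z ≤ 0) : LB g K Z D x = 0 := by
  unfold LB
  rw [max_eq_left h, zero_pow (by omega), mul_zero]

theorem LB_pos {g K Z x : ℝ} {D : ℕ} (h : 0 ≤ x / g + Z) :
    LB g K Z D x = g * K * (x / g + Z) ^ D := by
  unfold LB
  rw [max_eq_right h]

/-- Bernoulli. -/
private theorem pow_sub_ge {z δ : ℝ} (hz : 0 ≤ z) (D : ℕ) :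
    z ^ (D + 1) - (D + 1) * z ^ D * δ ≤ (max 0 (z - δ)) ^ (D + 1) := by
  rcases le_or_gt (z - δ) 0 with h | h
  · rw [max_eq_left h, zero_pow (by omega)]
    have h1 : z ^ (D + 1) ≤ z ^ D * δ := by
      rw [pow_succ]
      exact mul_le_mul_of_nonneg_left (by linarith only [h]) (by positivity)
    have h2 : 0 ≤ z ^ D * δ := by
      have : 0 ≤ δ := by linarith
      positivity
    have h3 : 0 ≤ (D : ℝ) * (z ^ D * δ) := by positivity
    nlinarith only [h1, h3]
  · rw [max_eq_right h.le]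
    induction D with
    | zero => simp
    | succ D ih =>
      have h1 := ih
      have h2 : (z ^ (D + 1) - (D + 1) * z ^ D * δ) * (z - δ) ≤ (z - δ) ^ (D + 1) * (z - δ) :=
        mul_le_mul_of_nonneg_right h1 h.le
      have h3 : (z - δ) ^ (D + 1 + 1) = (z - δ) ^ (D + 1) * (z - δ) := pow_succ _ _
      have h4 : 0 ≤ ((D : ℝ) + 1) * z ^ D * δ ^ 2 := by positivity
      have h5 : (z ^ (D + 1) - (D + 1) * z ^ D * δ) * (z - δ) =
          z ^ (D + 1 + 1) - ((D : ℝ) + 1 + 1) * z ^ (D + 1) * δ + ((D : ℝ) + 1) * z ^ D * δ ^ 2 := by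
        ring
      rw [h3]
      push_cast
      linarith only [h2, h4, h5]

theorem left_step {g K Z c a α α₁ H H' H₁ u u₁ : ℝ} {D : ℕ} (hD : 2 ≤ D) (hg : 0 < g)
    (hK : 0 < K) (hc : 0 < c) (hKc : c * K * (D : ℝ) ^ D * 4 ^ (D - 1) ≤ 1) (hz : a / g + Z ≤ 1)
    (hα : 0 ≤ α) (hαα : 2 * D * α ≤ α₁) (hα₁ : α₁ ≤ g) (hα₁0 : 0 < α₁)
    (hsm : g * K * (2 * D * α / g) ^ D < 1) (hH0 : H < 1 → H ≤ 0)
    (hH : H ≤ LB g K Z D a) (hH₁ : H₁ ≤ LB g K Z D (a - α₁)) (hu : 0 ≤ u) (hu₁ : 0 ≤ u₁)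
    (h' : H' = H - u * α) (h₁ : H₁ = H - u₁ * α₁) (hF : u₁ ^ (D - 1) ≤ c * u ^ D) :
    H' ≤ LB g K Z D (a - α) := by
  by_contra hcon
  push Not at hcon
  obtain ⟨E, rfl⟩ : ∃ E, D = E + 1 := ⟨D - 1, by omega⟩
  have hE1 : 1 ≤ E := by omega
  have hDr : (0 : ℝ) < ((E + 1 : ℕ) : ℝ) := by positivity
  have huα : 0 ≤ u * α := mul_nonneg hu hα
  have hHpos : 0 < H := by
    have := LB_nonneg hg hK Z (E + 1) (a - α)
    linarith only [h', hcon, huα, this]
  have hH1 : 1 ≤ H := by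
    by_contra h
    push Not at h
    have := hH0 h
    linarith only [hHpos, this]
  obtain ⟨z, hzd⟩ : ∃ z, z = a / g + Z := ⟨_, rfl⟩
  rw [← hzd] at hz
  have hz0 : 0 < z := by
    by_contra h
    push Not at h
    rw [LB_zero (by omega) (by rw [← hzd]; exact h)] at hH
    linarith only [hH, hHpos]
  have hBa : LB g K Z (E + 1) a = g * K * z ^ (E + 1) := by
    rw [hzd]
    exact LB_pos (by rw [← hzd]; exact hz0.le)
  have hdiv : ∀ x : ℝ, (a - x) / g + Z = z - x / g := by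
    intro x
    rw [hzd]
    ring
  obtain ⟨p, hp⟩ : ∃ p : ℝ, p = K * ((E : ℝ) + 1) * z ^ E := ⟨_, rfl⟩
  have hp0 : 0 < p := by
    rw [hp]
    positivity
  have hE' : ((E + 1 : ℕ) : ℝ) = (E : ℝ) + 1 := by push_cast; ring
  -- convexity
  have hcx : LB g K Z (E + 1) a - p * α ≤ LB g K Z (E + 1) (a - α) := by
    have h1 := pow_sub_ge (z := z) (δ := α / g) hz0.le E
    rw [hBa]
    unfold LB
    rw [hdiv]
    have h2 : g * K * (z ^ (E + 1) - (E + 1) * z ^ E * (α / g)) ≤
        g * K * (max 0 (z - α / g)) ^ (E + 1) :=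
      mul_le_mul_of_nonneg_left h1 (by positivity)
    have h3 : g * K * (z ^ (E + 1) - (E + 1) * z ^ E * (α / g)) =
        g * K * z ^ (E + 1) - p * α := by
      rw [hp]
      field_simp
    linarith only [h2, h3]
  have hup : u * α < p * α := by linarith
  have hup' : u ≤ p := by
    by_contra h
    push Not at h
    have := mul_le_mul_of_nonneg_right h.le hα
    linarith only [h', hH, hcon, hcx, this]
  -- the rank of a general linear form
  have hu₁' : u₁ ≤ K / 4 * z ^ (E + 1) := by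
    have h1 : u₁ ^ E ≤ (K / 4 * z ^ (E + 1)) ^ E := by
      have h2 : u₁ ^ E ≤ c * p ^ (E + 1) := by
        have h3 : u₁ ^ E ≤ c * u ^ (E + 1) := by simpa using hF
        exact h3.trans (mul_le_mul_of_nonneg_left (pow_le_pow_left₀ hu hup' _) hc.le)
      refine h2.trans ?_
      have h3 : c * K * ((E : ℝ) + 1) ^ (E + 1) * 4 ^ E ≤ 1 := by
        have h4 := hKc
        rw [hE'] at h4
        simpa using h4
      have h5 : c * p ^ (E + 1) = (c * K * ((E : ℝ) + 1) ^ (E + 1) * 4 ^ E) *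
          (K / 4 * z ^ (E + 1)) ^ E := by
        rw [hp]
        have h6 : (K / 4 * z ^ (E + 1)) ^ E = K ^ E / 4 ^ E * (z ^ E) ^ (E + 1) := by
          rw [mul_pow, div_pow, ← pow_mul, ← pow_mul, mul_comm (E + 1) E]
        rw [h6]
        have h7 : (4 : ℝ) ^ E ≠ 0 := by positivity
        field_simp
        rw [mul_pow, mul_pow]
        ring
      rw [h5]
      have h8 : 0 ≤ (K / 4 * z ^ (E + 1)) ^ E := by positivity
      nlinarith only [h3, h8]
    exact le_of_pow_le_pow_left₀ (by omega) (by positivity) h1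
  -- the drop
  have hdrop : LB g K Z (E + 1) a - LB g K Z (E + 1) (a - α₁) < p * α + u₁ * α₁ := by linarith only [h', h₁, hH₁, hcon, huα, hcx]
  have hzE : z ^ (E + 1) ≤ z ^ E := by
    rw [pow_succ]
    have : 0 < z ^ E := by positivity
    nlinarith only [hz, this]
  have hu₁2 : u₁ * α₁ ≤ K / 4 * z ^ (E + 1) * α₁ := mul_le_mul_of_nonneg_right hu₁' hα₁0.le
  rcases le_or_gt α₁ (g * z) with h | h
  · -- `α₁ ≤ g z`
    have h1 : 0 ≤ z - α₁ / g := by
      rw [sub_nonneg, div_le_iff₀ hg]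
      linarith only [h]
    have h2 : LB g K Z (E + 1) (a - α₁) ≤ g * K * ((z - α₁ / g) * z ^ E) := by
      rw [LB_pos (by rw [hdiv]; exact h1), hdiv]
      refine mul_le_mul_of_nonneg_left ?_ (by positivity)
      rw [pow_succ, mul_comm]
      refine mul_le_mul_of_nonneg_left (pow_le_pow_left₀ h1 ?_ _) h1
      have : 0 ≤ α₁ / g := by positivity
      linarith only [this]
    have h3 : g * K * ((z - α₁ / g) * z ^ E) = g * K * z ^ (E + 1) - K * z ^ E * α₁ := by
      rw [pow_succ]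
      field_simp
    have h4 : p * α ≤ K * z ^ E * α₁ / 2 := by
      have h5 : ((E : ℝ) + 1) * α ≤ α₁ / 2 := by
        rw [hE'] at hαα
        linarith only [hαα]
      have h6 : K * z ^ E * (((E : ℝ) + 1) * α) ≤ K * z ^ E * (α₁ / 2) :=
        mul_le_mul_of_nonneg_left h5 (by positivity)
      rw [hp]
      linarith only [h6]
    have h5 : K / 4 * z ^ (E + 1) * α₁ ≤ K / 4 * z ^ E * α₁ := by
      refine mul_le_mul_of_nonneg_right ?_ hα₁0.le
      exact mul_le_mul_of_nonneg_left hzE (by positivity)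
    have h6 : 0 < K * z ^ E * α₁ := by positivity
    rw [hBa] at hdrop
    linarith only [h', h₁, hH, hH₁, hcon, huα, hBa, hcx, hu₁2, h2, h3, h4, h5]
  · -- `α₁ > g z`
    have h1 : z - α₁ / g ≤ 0 := by
      rw [sub_nonpos, le_div_iff₀ hg]
      linarith only [h]
    have h2 : LB g K Z (E + 1) (a - α₁) = 0 := LB_zero (by omega) (by rw [hdiv]; exact h1)
    rw [h2, hBa] at hdrop
    have h3 : K / 4 * z ^ (E + 1) * α₁ ≤ g * K * z ^ (E + 1) / 4 := by
      have h4 : K / 4 * z ^ (E + 1) * α₁ ≤ K / 4 * z ^ (E + 1) * g :=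
        mul_le_mul_of_nonneg_left hα₁ (by positivity)
      linarith only [h4]
    rcases le_or_gt (2 * ((E : ℝ) + 1) * α) (g * z) with h4 | h4
    · have h5 : p * α ≤ g * K * z ^ (E + 1) / 2 := by
        have h6 : K * z ^ E * (2 * ((E : ℝ) + 1) * α) ≤ K * z ^ E * (g * z) :=
          mul_le_mul_of_nonneg_left h4 (by positivity)
        rw [hp, pow_succ]
        linarith only [h6]
      have h6 : 0 < g * K * z ^ (E + 1) := by positivity
      linarith only [h', hH, hcon, huα, hcx, hdrop, hu₁2, h3, h5]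
    · have h5 : g * K * z ^ (E + 1) ≤ g * K * (2 * ((E + 1 : ℕ) : ℝ) * α / g) ^ (E + 1) := by
        refine mul_le_mul_of_nonneg_left (pow_le_pow_left₀ hz0.le ?_ _) (by positivity)
        rw [le_div_iff₀ hg, hE']
        linarith only [h4]
      rw [hBa] at hH
      linarith only [h₁, hsm, hH₁, hHpos, hH1, hu₁2, h2, h3, h5]

end Pool.Agent.XE2

end
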