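import Pool.Agent.H94.LP7.M15
import Pool.Agent.H94.LP7.M25
import Pool.Agent.H94.LP7.M26
import Pool.Agent.H94.LP7.M38
import Pool.Agent.H94.LP7.M46
import Pool.Agent.H94.LP7.M47

/-! The parts of this file: GD.BE.MixA_1, GD.BE.SemG, GD.N.Close. -/

section

/-!
# General d, block BETA, module MixA: the mean of the virtual dimensions over the corners

`FR` is helper84's `FF` with real densities.  The corner seen by `α` has the densities `kcor`, the mean
densities are `kmix`.  `mixA`: for every family `P ∈ Dj univ` the product of the densities of the kinds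
`S ∈ P` which are not base kinds depends on the residues of `α (min (rt S))`, different slots for
different `S`, so `cnt` applies with `w h x` = the density of the `S ∈ P` with `min (rt S) = h` (or `1`).
`used`: the number of the points of the kinds `(K, a)` (`#rt = a`), `cnt` with `e := a`.
-/

set_option autoImplicit false

namespace Pool.Agent.GD.BE

open Finset

variable {ι : Type} [Fintype ι] [DecidableEq ι]

variable {J e q : ℕ}

/-- The densities of a corner: base densities `kb`, `D S` = the product of the dimensions. -/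
noncomputable def kcor (kb D : Finset (Fin J ⊕ Fin e) → ℝ) (η : Finset (Fin J ⊕ Fin e) → ℕ)
    (S : Finset (Fin J ⊕ Fin e)) : ℝ := if (rt S).Nonempty then η S / D S else kb S

/-- The mean number of the points of the kind `S`. -/
noncomputable def nmix (ν : Nos J) (K : Finset (Fin J)) (a : ℕ) : ℝ :=
  (ν.lo K a : ℝ) + ((min (ν.l K a) ν.L : ℕ) : ℝ) / ν.L * ((ν.hi K a : ℝ) - ν.lo K a)

/-- The mean densities. -/
noncomputable def kmix (kb D : Finset (Fin J ⊕ Fin e) → ℝ) (ν : Nos J)
    (S : Finset (Fin J ⊕ Fin e)) : ℝ :=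
  if (rt S).Nonempty then nmix ν (lf S) (rt S).card / D S else kb S

/-- The number of the points for the block `x`. -/
private noncomputable def vv (ν : Nos J) (K : Finset (Fin J)) (a x : ℕ) : ℝ :=
  if x % ν.L < ν.l K a then (ν.hi K a : ℝ) else (ν.lo K a : ℝ)

private theorem vv_mod (ν : Nos J) (K : Finset (Fin J)) (a x : ℕ) :
    vv ν K a (x % ν.L) = vv ν K a x := by
  unfold vv
  rw [Nat.mod_mod]

private theorem vv_mean (ν : Nos J) (hL : 0 < ν.L) (K : Finset (Fin J)) (a : ℕ) :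
    (∑ x ∈ range ν.L, vv ν K a x) / ν.L = nmix ν K a := by
  have hLR : (ν.L : ℝ) ≠ 0 := by exact_mod_cast hL.ne'
  have h1 : ∑ x ∈ range ν.L, vv ν K a x = ∑ x ∈ range ν.L,
      ((ν.lo K a : ℝ) + if x < ν.l K a then ((ν.hi K a : ℝ) - ν.lo K a) else 0) := by
    refine Finset.sum_congr rfl fun x hx => ?_
    unfold vv
    rw [Nat.mod_eq_of_lt (Finset.mem_range.1 hx)]
    split_ifs <;> ring
  have h2 : ((range ν.L).filter fun x => x < ν.l K a) = range (min (ν.l K a) ν.L) := by
    ext x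
    rw [Finset.mem_filter, Finset.mem_range, Finset.mem_range]
    omega
  rw [h1, Finset.sum_add_distrib, Finset.sum_const, Finset.card_range, ← Finset.sum_filter, h2,
    Finset.sum_const, Finset.card_range, nsmul_eq_mul, nsmul_eq_mul]
  unfold nmix
  field_simp

private theorem rt_map (α : Fin e ↪o Fin q) (S : Finset (Fin J ⊕ Fin e)) :
    rt (S.map (emb J α)) = (rt S).map α.toEmbedding := by
  ext b
  unfold rt
  simp only [Finset.mem_filter, Finset.mem_univ, true_and, Finset.mem_map]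
  constructor
  · rintro ⟨i, hi, hb⟩
    rcases i with j | h
    · exact absurd hb (by simp [emb])
    · exact ⟨h, hi, by simpa [emb] using hb⟩
  · rintro ⟨h, hh, rfl⟩
    exact ⟨Sum.inr h, hh, rfl⟩

private theorem lf_map (α : Fin e ↪o Fin q) (S : Finset (Fin J ⊕ Fin e)) :
    lf (S.map (emb J α)) = lf S := by
  ext b
  unfold lf
  simp only [Finset.mem_filter, Finset.mem_univ, true_and, Finset.mem_map]
  constructor
  · rintro ⟨i, hi, hb⟩
    rcases i with j | h
    · have h1 : j = b := by simpa [emb] using hb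
      exact h1 ▸ hi
    · exact absurd hb (by simp [emb])
  · intro h
    exact ⟨Sum.inl b, h, rfl⟩

private theorem cor_eq (ν : Nos J) (α : Fin e ↪o Fin q) (S : Finset (Fin J ⊕ Fin e))
    (hS : (rt S).Nonempty) :
    (cor ν α S : ℝ) = vv ν (lf S) (rt S).card (α ((rt S).min' hS)) := by
  have h0 : (rt (S.map (emb J α))).Nonempty := by
    rw [rt_map]
    exact hS.map
  have h1 : (rt (S.map (emb J α))).min' h0 = α ((rt S).min' hS) := by
    refine le_antisymm (Finset.min'_le _ _ ?_) (Finset.le_min' _ _ _ fun y hy => ?_)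
    · rw [rt_map]
      exact Finset.mem_map_of_mem _ (Finset.min'_mem _ _)
    · rw [rt_map, Finset.mem_map] at hy
      obtain ⟨z, hz, rfl⟩ := hy
      exact α.monotone (Finset.min'_le _ _ hz)
  unfold cor nb vv
  rw [dif_pos h0, h1, lf_map, rt_map, Finset.card_map]
  split_ifs <;> rfl

/-- The product over the family `P`: one factor for every slot. -/
private theorem term (he : 0 < e) (ν : Nos J) (hL : 0 < ν.L)
    (kb D : Finset (Fin J ⊕ Fin e) → ℝ) (P : Finset (Finset (Fin J ⊕ Fin e)))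
    (hP : ∀ S ∈ P, ∀ T ∈ P, S ≠ T → Disjoint S T) :
    ∃ C : ℝ, 0 ≤ C ∧ ∀ q : ℕ, ν.L ∣ q → 1 ≤ q →
      |∑ α : Fin e ↪o Fin q, ∏ S ∈ P, -kcor kb D (cor ν α) S -
        (q : ℝ) ^ e / e.factorial * ∏ S ∈ P, -kmix kb D ν S| ≤ C * (q : ℝ) ^ (e - 1) := by
  classical
  set Q := P.filter fun S => (rt S).Nonempty with hQ
  set B := ∏ S ∈ P.filter (fun S => ¬ (rt S).Nonempty), -kb S with hB
  let mn : Finset (Fin J ⊕ Fin e) → Fin e := fun S =>
    if h : (rt S).Nonempty then (rt S).min' h else ⟨0, he⟩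
  let w : Fin e → ℕ → ℝ := fun h x =>
    ∏ S ∈ Q.filter (fun S => mn S = h), -(vv ν (lf S) (rt S).card x / D S)
  have hmn : ∀ S, ∀ h : (rt S).Nonempty, mn S = (rt S).min' h := fun S h => dif_pos h
  -- the corners
  have h1 : ∀ (q : ℕ) (α : Fin e ↪o Fin q), ∏ S ∈ P, -kcor kb D (cor ν α) S =
      B * ∏ h, w h (α h) := by
    intro q α
    rw [← Finset.prod_filter_mul_prod_filter_not P (fun S => (rt S).Nonempty), mul_comm]
    have h2 : ∏ S ∈ P.filter (fun S => ¬ (rt S).Nonempty), -kcor kb D (cor ν α) S = B := by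
      refine Finset.prod_congr rfl fun S hS => ?_
      unfold kcor
      rw [if_neg (Finset.mem_filter.1 hS).2]
    have h3 : ∏ S ∈ P.filter (fun S => (rt S).Nonempty), -kcor kb D (cor ν α) S =
        ∏ h, w h (α h) := by
      rw [← Finset.prod_fiberwise Q mn]
      refine Finset.prod_congr rfl fun h _ => Finset.prod_congr rfl fun S hS => ?_
      obtain ⟨hS1, hS2⟩ := Finset.mem_filter.1 hS
      have hS3 := (Finset.mem_filter.1 hS1).2
      unfold kcor
      rw [if_pos hS3, cor_eq ν α S hS3, ← hmn S hS3, hS2]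
    rw [h2, h3]
  -- the mean
  have h4 : ∀ h, (∑ x ∈ range ν.L, w h x) / ν.L = ∏ S ∈ Q.filter (fun S => mn S = h),
      -(nmix ν (lf S) (rt S).card / D S) := by
    intro h
    have h5 : ((Q.filter fun S => mn S = h) : Finset (Finset (Fin J ⊕ Fin e))).card ≤ 1 := by
      rw [Finset.card_le_one]
      intro S hS T hT
      obtain ⟨hS1, hS2⟩ := Finset.mem_filter.1 hS
      obtain ⟨hS3, hS4⟩ := Finset.mem_filter.1 hS1
      obtain ⟨hT1, hT2⟩ := Finset.mem_filter.1 hT
      obtain ⟨hT3, hT4⟩ := Finset.mem_filter.1 hT1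
      by_contra hST
      have h6 := hP S hS3 T hT3 hST
      have h7 : Sum.inr h ∈ S := by
        have h8 := Finset.min'_mem _ hS4
        rw [← hmn S hS4, hS2] at h8
        exact (Finset.mem_filter.1 h8).2
      have h9 : Sum.inr h ∈ T := by
        have h8 := Finset.min'_mem _ hT4
        rw [← hmn T hT4, hT2] at h8
        exact (Finset.mem_filter.1 h8).2
      exact Finset.disjoint_left.1 h6 h7 h9
    have hLR : (ν.L : ℝ) ≠ 0 := by exact_mod_cast hL.ne'
    rcases Finset.card_le_one_iff_subset_singleton.1 h5 with ⟨S, hS⟩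
    rcases Finset.subset_singleton_iff.1 hS with h6 | h6
    · simp only [w, h6, Finset.prod_empty]
      rw [Finset.sum_const, Finset.card_range, nsmul_eq_mul, mul_one, div_self hLR]
    · simp only [w, h6, Finset.prod_singleton]
      rw [← vv_mean ν hL, Finset.sum_neg_distrib, ← Finset.sum_div]
      ring
  have h5 : ∏ S ∈ P, -kmix kb D ν S = B * ∏ h, ((∑ x ∈ range ν.L, w h x) / ν.L) := by
    rw [← Finset.prod_filter_mul_prod_filter_not P (fun S => (rt S).Nonempty), mul_comm]
    have h2 : ∏ S ∈ P.filter (fun S => ¬ (rt S).Nonempty), -kmix kb D ν S = B := by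
      refine Finset.prod_congr rfl fun S hS => ?_
      unfold kmix
      rw [if_neg (Finset.mem_filter.1 hS).2]
    have h3 : ∏ S ∈ P.filter (fun S => (rt S).Nonempty), -kmix kb D ν S =
        ∏ h, ((∑ x ∈ range ν.L, w h x) / ν.L) := by
      rw [← Finset.prod_fiberwise Q mn]
      refine Finset.prod_congr rfl fun h _ => ?_
      rw [h4 h]
      refine Finset.prod_congr rfl fun S hS => ?_
      unfold kmix
      rw [if_pos (Finset.mem_filter.1 (Finset.mem_filter.1 hS).1).2]
    rw [h2, h3]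
  obtain ⟨C, hC0, hC⟩ := cnt e ν.L he hL w fun h x => by
    refine Finset.prod_congr rfl fun S _ => ?_
    rw [vv_mod]
  refine ⟨|B| * C, mul_nonneg (abs_nonneg _) hC0, fun q hq hq1 => ?_⟩
  rw [h5, Finset.sum_congr rfl fun α _ => h1 q α, ← Finset.mul_sum]
  have h6 : ∀ s t x : ℝ, B * s - t * (B * x) = B * (s - t * x) := fun s t x => by ring
  rw [h6, abs_mul, mul_assoc]
  exact mul_le_mul_of_nonneg_left (hC q hq hq1) (abs_nonneg _)

theorem mixA (he : 0 < e) (ν : Nos J) (hL : 0 < ν.L) (kb D : Finset (Fin J ⊕ Fin e) → ℝ) :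
    ∃ C : ℝ, 0 ≤ C ∧ ∀ q : ℕ, ν.L ∣ q → 1 ≤ q →
      |∑ α : Fin e ↪o Fin q, FR (kcor kb D (cor ν α)) univ -
        (q : ℝ) ^ e / e.factorial * FR (kmix kb D ν) univ| ≤ C * (q : ℝ) ^ (e - 1) := by
  classical
  have h1 : ∀ P : {P // P ∈ Dj (univ : Finset (Fin J ⊕ Fin e))}, ∃ C : ℝ, 0 ≤ C ∧ ∀ q : ℕ, ν.L ∣ q →
      1 ≤ q → |∑ α : Fin e ↪o Fin q, ∏ S ∈ P.1, -kcor kb D (cor ν α) S -
        (q : ℝ) ^ e / e.factorial * ∏ S ∈ P.1, -kmix kb D ν S| ≤ C * (q : ℝ) ^ (e - 1) :=
    fun P => term he ν hL kb D P.1 (mem_Dj.1 P.2).2.2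
  choose C hC0 hC using h1
  refine ⟨∑ P, C P, Finset.sum_nonneg fun P _ => hC0 P, fun q hq hq1 => ?_⟩
  unfold FR
  rw [Finset.sum_comm, Finset.mul_sum, ← Finset.sum_sub_distrib,
    ← Finset.sum_coe_sort (Dj (univ : Finset (Fin J ⊕ Fin e)))]
  refine (Finset.abs_sum_le_sum_abs _ _).trans ?_
  rw [Finset.sum_mul]
  exact Finset.sum_le_sum fun P _ => hC P q hq hq1

/-- The number of the points used for the kinds `(K, a)`. -/
theorem used (ν : Nos J) (hL : 0 < ν.L) (K : Finset (Fin J)) (a : ℕ) (ha : 0 < a) :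
    ∃ C : ℝ, 0 ≤ C ∧ ∀ q : ℕ, ν.L ∣ q → 1 ≤ q →
      |((∑ S ∈ (univ : Finset (Finset (Fin J ⊕ Fin q))).filter (fun S => lf S = K ∧ (rt S).card = a),
        nb ν S : ℕ) : ℝ) - (q : ℝ) ^ a / a.factorial * nmix ν K a| ≤ C * (q : ℝ) ^ (a - 1) := by
  classical
  let w : Fin a → ℕ → ℝ := fun h x => if h = ⟨0, ha⟩ then vv ν K a x else 1
  have hLR : (ν.L : ℝ) ≠ 0 := by exact_mod_cast hL.ne'
  obtain ⟨C, hC0, hC⟩ := cnt a ν.L ha hL w fun h x => by
    simp only [w]
    rw [vv_mod]
  refine ⟨C, hC0, fun q hq hq1 => ?_⟩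
  have h1 : ∏ h, ((∑ x ∈ range ν.L, w h x) / ν.L) = nmix ν K a := by
    rw [Finset.prod_eq_single (⟨0, ha⟩ : Fin a)]
    · simp only [w, if_true]
      exact vv_mean ν hL K a
    · intro h _ hh
      simp only [w, if_neg hh]
      rw [Finset.sum_const, Finset.card_range, nsmul_eq_mul, mul_one, div_self hLR]
    · exact fun h => absurd (Finset.mem_univ _) h
  have h2 : (((∑ S ∈ (univ : Finset (Finset (Fin J ⊕ Fin q))).filter
      (fun S => lf S = K ∧ (rt S).card = a), nb ν S : ℕ)) : ℝ) =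
      ∑ α : Fin a ↪o Fin q, ∏ h, w h (α h) := by
    push_cast
    have h3 : ∀ α : Fin a ↪o Fin q, ∏ h, w h (α h) = vv ν K a (α ⟨0, ha⟩) := by
      intro α
      rw [Finset.prod_eq_single (⟨0, ha⟩ : Fin a)]
      · simp only [w, if_true]
      · intro h _ hh
        simp only [w, if_neg hh]
      · exact fun h => absurd (Finset.mem_univ _) h
    rw [Finset.sum_congr rfl fun α _ => h3 α]
    symm
    have hrt : ∀ α : Fin a ↪o Fin q, rt (K.disjSum (univ.map α.toEmbedding)) =
        univ.map α.toEmbedding := by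
      intro α
      ext b
      unfold rt
      rw [Finset.mem_filter, Finset.inr_mem_disjSum]
      simp
    have hlf : ∀ α : Fin a ↪o Fin q, lf (K.disjSum (univ.map α.toEmbedding)) = K := by
      intro α
      ext b
      unfold lf
      rw [Finset.mem_filter, Finset.inl_mem_disjSum]
      simp
    refine Finset.sum_bij (fun α _ => K.disjSum (univ.map α.toEmbedding)) ?_ ?_ ?_ ?_
    · intro α _
      rw [Finset.mem_filter]
      refine ⟨Finset.mem_univ _, hlf α, ?_⟩
      rw [hrt, Finset.card_map, Finset.card_univ, Fintype.card_fin]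
    · intro α _ β _ hαβ
      have h4 : univ.map α.toEmbedding = univ.map β.toEmbedding := by
        rw [← hrt α, ← hrt β]
        exact congrArg rt hαβ
      have h5 : Set.range α = Set.range β := by
        have h6 := congrArg (fun s : Finset (Fin q) => (s : Set (Fin q))) h4
        simpa using h6
      exact DFunLike.coe_injective ((StrictMono.range_inj α.strictMono β.strictMono).1 h5)
    · intro S hS
      obtain ⟨-, hS1, hS2⟩ := Finset.mem_filter.1 hS
      refine ⟨(rt S).orderEmbOfFin hS2, Finset.mem_univ _, ?_⟩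
      ext i
      rcases i with j | b
      · rw [Finset.inl_mem_disjSum, ← hS1]
        unfold lf
        simp
      · rw [Finset.inr_mem_disjSum, Finset.mem_map]
        constructor
        · rintro ⟨z, _, rfl⟩
          have h6 := Finset.orderEmbOfFin_mem (rt S) hS2 z
          exact (Finset.mem_filter.1 h6).2
        · intro hb
          have h6 : b ∈ Set.range ((rt S).orderEmbOfFin hS2) := by
            rw [Finset.range_orderEmbOfFin]
            exact Finset.mem_coe.2 (Finset.mem_filter.2 ⟨Finset.mem_univ _, hb⟩)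
          obtain ⟨z, hz⟩ := h6
          exact ⟨z, Finset.mem_univ _, hz⟩
    · intro α _
      have h0 : (rt (K.disjSum (univ.map α.toEmbedding))).Nonempty := by
        rw [hrt]
        exact ⟨α ⟨0, ha⟩, Finset.mem_map_of_mem _ (Finset.mem_univ _)⟩
      have h4 : (rt (K.disjSum (univ.map α.toEmbedding))).min' h0 = α ⟨0, ha⟩ := by
        refine le_antisymm (Finset.min'_le _ _ ?_) (Finset.le_min' _ _ _ fun y hy => ?_)
        · rw [hrt]
          exact Finset.mem_map_of_mem _ (Finset.mem_univ _)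
        · rw [hrt, Finset.mem_map] at hy
          obtain ⟨z, _, rfl⟩ := hy
          exact α.monotone (Nat.zero_le _)
      unfold nb vv
      rw [dif_pos h0, h4, hlf, hrt, Finset.card_map, Finset.card_univ, Fintype.card_fin]
      split_ifs <;> rfl
  rw [h2, ← h1]
  exact hC q hq hq1

end Pool.Agent.GD.BE

end

section

/-!
# General d, block BETA, module SemG: semistability for general additional points over an independent
base position, for all `E` at once

PROOF: with `l = lam` units the system kills everything at independent positions (`crit` as in `semi`,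
`ai_gd`); for the FIXED independent base position `r` the set of the positions `(y, u)` of the additional
points and the units with `V = ⊥` is general (a `Sys` with one constant kind as in `Rel`, or `gn_gE` for
`E = ⊤` and the configuration with the units: `gE = 0`), so `gn_exists_right` and `semist`.
-/

set_option autoImplicit false

namespace Pool.Agent.GD.BE

open Finset MvPolynomial Module Pool.Agent.H51.TB

variable {ι : Type} [Fintype ι] [DecidableEq ι]

theorem semi_gn_ai (T I : Finset ι) (hI : I ⊆ T) (hT : Tᶜ ≠ ∅) (κ : Finset ι → ℚ)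
    (hκ : ∀ S, 0 ≤ κ S) (hF : ∀ J ⊆ I ∪ Tᶜ, 0 < FF κ J) :
    ∃ N : ℕ, 0 < N ∧ ∀ c : ι → ℕ, (∀ i, 0 < c i ∧ N ∣ c i) →
      ∀ (P₀ P₁ : Type) [Fintype P₀] [Fintype P₁] (m₀ : P₀ → Finset ι) (m₁ : P₁ → Finset ι),
        (∀ S ⊆ I ∪ Tᶜ, S ≠ ∅ → κ S * pc c S ≤ (Nat.card {x // Sum.elim m₀ m₁ x = S} : ℚ)) →
          ∀ r : P₀ → (Σ i, Fin (c i)) → ℂ, AI r →
            Gn P₁ (Σ i, Fin (c i)) fun y => ∀ E : Submodule ℂ ((∀ i, Fin (c i)) → ℂ),
              (finrank ℂ (KE T (Sum.elim m₀ m₁) (Sum.elim r y) E) : ℚ) ≤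
                lam c T I κ * finrank ℂ E := by
  classical
  have e1 : (I ∪ Tᶜ) \ Tᶜ = I := by
    ext x
    rw [Finset.mem_sdiff, Finset.mem_union, Finset.mem_compl, not_not]
    constructor
    · rintro ⟨h1 | h1, h2⟩
      · exact h1
      · exact absurd h2 h1
    · exact fun h => ⟨Or.inl h, hI h⟩
  obtain ⟨N, hN, h⟩ := crit_add κ hκ (I ∪ Tᶜ) Tᶜ Finset.subset_union_right hT hF
  refine ⟨N, hN, fun c hc P₀ P₁ _ _ m₀ m₁ hm r hr => ?_⟩
  obtain ⟨l, hl, h2⟩ := h c hc
  rw [e1] at hl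
  have h3 := h2 (P₀ ⊕ P₁) (Sum.elim m₀ m₁) hm
  have hV : ∀ (y : P₁ → (Σ i, Fin (c i)) → ℂ) (q : Fin l → (Σ i, Fin (c i)) → ℂ),
      (TS ι c).V (Sum.elim (Sum.elim m₀ m₁) fun _ : Fin l => Tᶜ) (Sum.elim (Sum.elim r y) q) =
        (TS ι c).V (Sum.elim m₀ (Sum.elim m₁ fun _ : Fin l => Tᶜ))
          (Sum.elim r (Sum.elim y q)) := by
    intro y q
    ext G
    rw [mem_TS, mem_TS]
    constructor
    · rintro h (i | i | i) w
      · exact h (Sum.inl (Sum.inl i)) w
      · exact h (Sum.inl (Sum.inr i)) w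
      · exact h (Sum.inr i) w
    · rintro h ((i | i) | i) w
      · exact h (Sum.inl i) w
      · exact h (Sum.inr (Sum.inl i)) w
      · exact h (Sum.inr (Sum.inr i)) w
  have hgd : (TS ι c).gd (Sum.elim m₀ (Sum.elim m₁ fun _ : Fin l => Tᶜ)) = 0 := by
    rw [← h3, ← gd_comp_equiv (TS ι c) (Equiv.sumAssoc P₀ P₁ (Fin l))
      (Sum.elim m₀ (Sum.elim m₁ fun _ : Fin l => Tᶜ))]
    congr 1
    funext i
    rcases i with (i | i) | i <;> rfl
  -- an independent position kills everything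
  obtain ⟨y', hy', _⟩ := ai_extend (P₁ := P₁ ⊕ Fin l) r hr (Pr := fun _ => True)
    ⟨1, one_ne_zero, fun _ _ => trivial⟩
  have h4 := ai_gd (Sum.elim m₀ (Sum.elim m₁ fun _ : Fin l => Tᶜ)) (Sum.elim r y') hy'
  rw [hgd] at h4
  have hKE : ∀ p : P₀ ⊕ (P₁ ⊕ Fin l) → (Σ i, Fin (c i)) → ℂ,
      KE T (Sum.elim m₀ (Sum.elim m₁ fun _ : Fin l => Tᶜ)) p ⊤ =
        (TS ι c).V (Sum.elim m₀ (Sum.elim m₁ fun _ : Fin l => Tᶜ)) p := by
    intro p
    rw [KE_eq]
    refine inf_eq_left.2 fun G _ => ?_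
    rw [mem_VE]
    exact fun w => Submodule.mem_top
  have h5 : gE T m₀ r (Sum.elim m₁ fun _ : Fin l => Tᶜ) ⊤ = 0 := by
    have h6 := gE_le T m₀ r (Sum.elim m₁ fun _ : Fin l => Tᶜ) ⊤ y'
    rw [hKE, h4] at h6
    exact Nat.le_zero.1 h6
  have h6 := gn_gE T m₀ r (Sum.elim m₁ fun _ : Fin l => Tᶜ) ⊤
  rw [h5] at h6
  refine (gn_exists_right h6).mono fun y hy E => ?_
  obtain ⟨q, hq⟩ := hy
  rw [hKE] at hq
  have h7 := semist (fun i => (hc i).1) (Sum.elim m₀ m₁) (Sum.elim r y) Tᶜ l q (by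
    rw [hV]
    exact Submodule.finrank_eq_zero.1 hq) E
  rw [KE_eq]
  have h8 : (finrank ℂ ((TS ι c).V (Sum.elim m₀ m₁) (Sum.elim r y) ⊓ VE Tᶜ E :
      Submodule ℂ ((∀ i, Fin (c i)) → ℂ)) : ℚ) ≤ ((l * finrank ℂ E : ℕ) : ℚ) := by
    exact_mod_cast h7
  refine h8.trans (le_of_eq ?_)
  push_cast
  rw [hl]
  rfl

end Pool.Agent.GD.BE

end

section

/-!
# General d: the closing

The proof is the one of `Pool/Agent/KZ/Cl0.lean`, `Bx0.down` and below.  For `n ≥ n₁` let `E T n` be: all
`ms` with `Cls P j n ms`, `ms.count (P.u j) ≤ (kap e + ρ) n ^ e` and `T ≤ v` have `H ≤ v`.  `E T n` holds for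
`T ≥ η cc n ^ (d - j)` (`SUB`).  `E T (n - c j) → E (T - 1) n`: for `0 ≤ v = g < η cc n ^ (d - j)` take `NUM` with
`g = v` (the hypothesis on the number of main points is `WIN` (b)); add `g` points `ord d {j}` to `ms'`:
trace `A + (g + r) sm`, `v A = g + r ≥ T`, so `H A = g + r` at most and the trace is `0` (`simple`); the residual has
`v = 0` (`vd_add`), so it is `0` by `PROP (j + 1)`; `STEP` gives `H (ms + g sm) = 0`, `simple` gives `H ms ≤ g`.
`v < 0`, or more than `(kap e + ρ) n ^ e` main points: remove main points down to the first negative value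
(`WIN` (a), (c), (d)), then `NUM` with `g = 0`.
-/

set_option autoImplicit false

namespace Pool.Agent.GD

open Finset Pool.Agent.V7.ST

/-- The geometric step (`Pool/Agent/GD/ST/Step.lean`). -/
def STEP (d : ℕ) : Prop := ∀ (j : ℕ) (c : ℕ → ℕ) (n : ℕ) (ms : Multiset Kd), (∀ k ∈ ms, k.Ok d (j + 1)) →
  (∀ i, 1 ≤ c i) → ∑ i ∈ range (j + 1), c i ≤ n → HL d d c (n - c j) j (ms.bind (tr j)) = 0 →
    HL d d c n j (ms.bind (un j)) ≤ HL d d c n (j + 1) ms

/-- Additivity (`Pool/Agent/GD/ST/Add.lean`). -/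
def ADD (d : ℕ) : Prop := ∀ (j : ℕ) (c : ℕ → ℕ) (n : ℕ) (ms : Multiset Kd), (∀ k ∈ ms, k.Ok d (j + 1)) →
  vd d (range j) c n (ms.bind (un j)) =
    vd d (range j) c (n - c j) (ms.bind (tr j)) + vd d (range (j + 1)) c n ms

/-- Simple points (`Pool/Agent/GD/ST/Ctr.lean`). -/
def SMP (d : ℕ) : Prop := ∀ (j : ℕ) (c : ℕ → ℕ) (n r : ℕ) (ms : Multiset Kd),
  HL d d c n j (ms + Multiset.replicate r (sm d)) = HL d d c n j ms - r

/-- The kinds of a class are admissible for the geometric step. -/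
theorem Cls.ok {P : Par} {j n : ℕ} {ms : Multiset Kd} (he : 2 ≤ P.e) (hj : j ≤ P.J) (h : Cls P j n ms) :
    ∀ k ∈ ms, k.Ok P.d j := by
  intro k hk
  have hJ : j ≤ P.d - P.e := hj
  rcases h.mem k hk with ⟨x, A, rfl, h2, hxd, hA, -⟩ | ⟨i, hi, τ, hτ, rfl⟩
  · exact ⟨by omega, hxd.le, hA⟩
  · have h1 := nm_kd he hJ hi hτ
    have h2 := pts_kd he hi hτ
    have hm : ∀ k S, 1 ≤ k → (mbs i j k S).length = k := by
      intro k S hk
      unfold mbs
      split_ifs with h3
      · rw [h3]; rfl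
      · rw [List.length_cons, List.length_replicate]; omega
    cases τ with
    | pl k S =>
      refine ⟨he, h1.1, ?_, hi, fun A hA =>
        (h2 (P.e, A) (Multiset.mem_coe.2 (List.mem_map.2 ⟨A, hA, rfl⟩))).2.1⟩
      obtain ⟨h3, h4, -, -⟩ := hτ
      rw [hm k S (by omega)]
      have h5 := Nat.mul_le_of_le_div _ _ _ h4
      unfold trx
      omega
    | b0 S =>
      refine ⟨he, h1.1, ?_, hi, fun A hA =>
        (h2 (P.e, A) (Multiset.mem_coe.2 (List.mem_map.2 ⟨A, hA, rfl⟩))).2.1⟩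
      have h3 : 1 ≤ (P.d - i - 1) / (P.e - 1) := by
        rw [Nat.one_le_div_iff (by omega)]
        omega
      rw [hm _ S h3]
      have h5 := Nat.div_add_mod' (P.d - i - 1) (P.e - 1)
      unfold trx
      omega
    | br r =>
      refine ⟨he, h1.1, ?_, hi, fun A hA =>
        (h2 (P.e, A) (Multiset.mem_coe.2 (List.mem_map.2 ⟨A, hA, rfl⟩))).2.1⟩
      obtain ⟨h3, h4⟩ := hτ
      have h5 := Nat.div_add_mod' (P.d - i + r - 1) (P.e - 1)
      have h6 : (mbr i j ((P.d - i + r - 1) / (P.e - 1)) P.e r).length =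
          (P.d - i + r - 1) / (P.e - 1) := by
        unfold mbr
        rw [List.length_map, List.length_range]
      rw [h6]
      unfold trx
      omega

/-- More objects. -/
theorem HL_mono (d D : ℕ) (c : ℕ → ℕ) (n j : ℕ) (ms ms' : Multiset Kd) :
    HL d D c n j (ms + ms') ≤ HL d D c n j ms := by
  induction ms' using Multiset.induction with
  | empty => rw [add_zero]
  | cons k ms' ih =>
    rw [Multiset.add_cons]
    exact (gM_cons_le (LS d D (blk c n) (range j)) (ms + ms') k).trans ih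

private theorem npt_cons_u {P : Par} {j : ℕ} {ms : Multiset Kd} {x : ℕ} {A : Finset ℕ}
    (h : x ≠ P.e ∨ A ≠ range j) : npt (P.u j ::ₘ ms) x A = npt ms x A := by
  unfold npt
  rw [Multiset.cons_bind, Multiset.count_add]
  have h1 : Multiset.count (x, A) (Kd.pts (P.u j)) = 0 := by
    show Multiset.count (x, A) {(P.e, range j)} = 0
    rw [Multiset.count_singleton, if_neg]
    intro h2
    rw [Prod.mk.injEq] at h2
    rcases h with h | h
    · exact h h2.1
    · exact h h2.2
  omega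

/-- The classes do not depend on the number of the main points. -/
theorem cls_cons_u {P : Par} {j n : ℕ} {ms : Multiset Kd} (he : 2 ≤ P.e) (hed : P.e < P.d) :
    Cls P j n (P.u j ::ₘ ms) ↔ Cls P j n ms := by
  have h0 : ∀ x A, 2 ≤ x → (range j \ A).card = x → (x ≠ P.e ∨ A ≠ range j) := by
    intro x A hx hc
    right
    rintro rfl
    rw [Finset.sdiff_self, card_empty] at hc
    omega
  have h1 : ∀ i (τ : CT), (P.u j ::ₘ ms).count (τ.kd P.d P.e i j) = ms.count (τ.kd P.d P.e i j) := by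
    intro i τ
    refine Multiset.count_cons_of_ne ?_ _
    cases τ <;> exact fun h => Kd.noConfusion h
  constructor
  · intro h
    refine ⟨fun k hk => h.mem k (Multiset.mem_cons_of_mem hk), ?_, ?_, ?_⟩
    · intro x A hx hxd hA hc hne
      have := h.win x A hx hxd hA hc hne
      rwa [npt_cons_u hne] at this
    · intro x A hx hxd hA hc
      have := h.zero x A hx hxd hA hc
      rwa [npt_cons_u (h0 x A hx hc)] at this
    · intro i hi τ hτ
      have := h.cnt i hi τ hτ
      rwa [h1] at this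
  · intro h
    refine ⟨fun k hk => ?_, ?_, ?_, ?_⟩
    · rcases Multiset.mem_cons.1 hk with rfl | hk
      · left
        exact ⟨P.e, range j, rfl, he, hed, Subset.refl _, by rw [Finset.sdiff_self, card_empty]; omega⟩
      · exact h.mem k hk
    · intro x A hx hxd hA hc hne
      rw [npt_cons_u hne]
      exact h.win x A hx hxd hA hc hne
    · intro x A hx hxd hA hc
      rw [npt_cons_u (h0 x A hx hc)]
      exact h.zero x A hx hxd hA hc
    · intro i hi τ hτ
      rw [h1]
      exact h.cnt i hi τ hτ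

theorem cls_add_u {P : Par} {j n : ℕ} {ms : Multiset Kd} (he : 2 ≤ P.e) (hed : P.e < P.d) (k : ℕ) :
    Cls P j n (ms + Multiset.replicate k (P.u j)) ↔ Cls P j n ms := by
  induction k with
  | zero => rw [Multiset.replicate_zero, add_zero]
  | succ k ih => rw [Multiset.replicate_succ, Multiset.add_cons, cls_cons_u he hed, ih]

private theorem ex_pos {d j : ℕ} {k : Kd} (h : k.Ok d j) : 1 ≤ k.ex := by
  cases k with
  | ord e A => exact h.1
  | cl e dl i As => exact le_trans (by norm_num) h.1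

/-- One step. -/
private theorem core {P : Par} (he : 2 ≤ P.e) (hed : P.e < P.d) (hc : ∀ i, 1 ≤ P.c i) {j : ℕ}
    (hj : j < P.J) (h1 : STEP P.d) (h2 : ADD P.d) (h3 : SMP P.d) {n : ℕ}
    (hn : ∑ i ∈ range (j + 1), P.c i ≤ n) {ms ms' A : Multiset Kd} {g r : ℕ}
    (hv : P.v j n ms ≤ g) (hms' : Cls P (j + 1) n ms') (hA : Cls P j (n - P.c j) A)
    (hvA : P.v j (n - P.c j) A = g + r) (hun : ms'.bind (un j) = ms)
    (htr : ms'.bind (tr j) = A + Multiset.replicate r (sm P.d))
    (hHA : (P.H j (n - P.c j) A : ℤ) ≤ P.v j (n - P.c j) A)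
    (hR : (P.H (j + 1) n ms' : ℤ) ≤ max 0 (P.v (j + 1) n ms')) : P.H j n ms ≤ g := by
  have hok' := hms'.ok he (Nat.succ_le_of_lt hj)
  have hokA := hA.ok he hj.le
  -- the residual
  have e1 := h2 j P.c n ms' hok'
  rw [hun, htr, vd_sm P.d (range j) P.c (n - P.c j) A (fun k hk => ex_pos (hokA k hk)) (by omega) r] at e1
  have e2 : P.v (j + 1) n ms' = P.v j n ms - g := by
    have e3 : P.v j n ms = P.v j (n - P.c j) A - r + P.v (j + 1) n ms' := e1
    linarith
  have e4 : P.H (j + 1) n ms' = 0 := by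
    rw [e2, max_eq_left (by linarith)] at hR
    omega
  -- the specialised configuration with `g` simple points on `L_j`
  have e5 : (ms' + Multiset.replicate g (Kd.ord P.d {j})).bind (un j) =
      ms + Multiset.replicate g (sm P.d) := by
    rw [Multiset.add_bind, hun]
    congr 1
    induction g with
    | zero => rfl
    | succ g ih =>
      rw [Multiset.replicate_succ, Multiset.cons_bind, Multiset.replicate_succ]
      have h5 : un j (Kd.ord P.d {j}) = {sm P.d} := by
        show ({Kd.ord P.d (({j} : Finset ℕ).erase j)} : Multiset Kd) = _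
        rw [erase_singleton]
      rw [h5, Multiset.singleton_add]
      congr 1
      have : ∀ g : ℕ, (Multiset.replicate g (Kd.ord P.d {j})).bind (un j) =
          Multiset.replicate g (sm P.d) := by
        intro g
        induction g with
        | zero => rfl
        | succ g ih => rw [Multiset.replicate_succ, Multiset.cons_bind, Multiset.replicate_succ, h5,
            Multiset.singleton_add, ih]
      exact this g
  have e6 : (ms' + Multiset.replicate g (Kd.ord P.d {j})).bind (tr j) =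
      A + Multiset.replicate (r + g) (sm P.d) := by
    rw [Multiset.add_bind, htr, Multiset.replicate_add, add_assoc]
    congr 2
    have h5 : tr j (Kd.ord P.d {j}) = {sm P.d} := by
      show (if j ∈ ({j} : Finset ℕ) then ({Kd.ord P.d (({j} : Finset ℕ).erase j)} : Multiset Kd)
        else 0) = _
      rw [if_pos (mem_singleton_self j), erase_singleton]
    have : ∀ g : ℕ, (Multiset.replicate g (Kd.ord P.d {j})).bind (tr j) =
        Multiset.replicate g (sm P.d) := by
      intro g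
      induction g with
      | zero => rfl
      | succ g ih => rw [Multiset.replicate_succ, Multiset.cons_bind, Multiset.replicate_succ, h5,
          Multiset.singleton_add, ih]
    exact this g
  have e7 := h1 j P.c n (ms' + Multiset.replicate g (Kd.ord P.d {j})) (by
    intro k hk
    rcases Multiset.mem_add.1 hk with hk | hk
    · exact hok' k hk
    · rw [Multiset.eq_of_mem_replicate hk]
      exact ⟨by omega, le_rfl, by
        rw [singleton_subset_iff, mem_range]
        omega⟩) hc hn (by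
    rw [e6, h3]
    have : HL P.d P.d P.c (n - P.c j) j A ≤ r + g := by
      have h5 : ((HL P.d P.d P.c (n - P.c j) j A : ℕ) : ℤ) ≤ P.v j (n - P.c j) A := hHA
      rw [hvA] at h5
      omega
    omega)
  rw [e5, h3] at e7
  have e8 := HL_mono P.d P.d P.c n (j + 1) ms' (Multiset.replicate g (Kd.ord P.d {j}))
  have e9 : HL P.d P.d P.c n (j + 1) ms' = 0 := e4
  show HL P.d P.d P.c n j ms ≤ g
  omega

/-- All configurations with few main points and `v ≥ T` are exact. -/
private def EE (P : Par) (j : ℕ) (ρ : ℝ) (n T : ℕ) : Prop := ∀ ms, Cls P j n ms →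
  (ms.count (P.u j) : ℝ) ≤ (P.kap P.e + ρ) * (n : ℝ) ^ P.e → (T : ℤ) ≤ P.v j n ms →
    (P.H j n ms : ℤ) ≤ P.v j n ms

/-- The closing. -/
theorem close (P : Par) (Cs E : ℝ) (hP : P.Ok Cs E) (hc : ∀ i, 1 ≤ P.c i) (j : ℕ) (hj : j < P.J)
    (h1 : STEP P.d) (h2 : ADD P.d) (h3 : SMP P.d) (η Cw ρ : ℝ) (hη : 0 < η) (hρ : 0 < ρ)
    (hρk : ρ ≤ P.kap P.e) (_ : Cw * P.eps j < ρ) (hS : SUB P j η ρ) (hN : NUM P j η Cw ρ) (hW : WIN P j η Cw ρ)
    (hP' : PROP P (j + 1)) : PROP P j := by
  have he : 2 ≤ P.e := hP.two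
  have hed : P.e < P.d := hP.lt
  obtain ⟨nS, hS⟩ := hS
  obtain ⟨nN, hN⟩ := hN
  obtain ⟨nW, hW⟩ := hW
  obtain ⟨nP, hP'⟩ := hP'
  set c := P.c j with hcdef
  have hcj : 1 ≤ c := hc j
  set n₁ := nS + nN + nW + nP + ∑ i ∈ range (j + 1), P.c i + 1 with hn₁
  have hcc : (0 : ℝ) ≤ (P.cc (range j) : ℝ) := Nat.cast_nonneg _
  -- one step down
  have down : ∀ n, n₁ ≤ n → ∀ T, EE P j ρ (n - c) T → EE P j ρ n (T - 1) := by
    intro n hn T hT ms hms hcnt hv
    have hv0 : (0 : ℤ) ≤ P.v j n ms := le_trans (Int.natCast_nonneg _) hv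
    by_cases hl : η * P.cc (range j) * (n : ℝ) ^ (P.d - j) ≤ (P.v j n ms : ℝ)
    · exact hS n (by omega) ms hms hcnt hl
    push Not at hl
    obtain ⟨g, hg⟩ := Int.eq_ofNat_of_zero_le hv0
    have hgr : ((P.v j n ms : ℤ) : ℝ) = (g : ℝ) := by rw [hg]; norm_cast
    have hw := (hW n (by omega) ms hms hcnt).2.1 (by
      rw [hgr, abs_of_nonneg (Nat.cast_nonneg g), ← hgr]
      exact hl.le)
    obtain ⟨ms', A, r, hm', hA, hr, hAc, hvA, hun, htr⟩ := hN n (by omega) ms hms g
      (by rw [← hgr]; exact hl.le) (by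
        rw [hgr, sub_self, abs_zero]
        positivity) hw
    have hk := core he hed hc hj h1 h2 h3 (by omega) hg.le hm' hA hvA hun htr
      (hT A hA hAc (by
        rw [hvA]
        omega)) (hP' n (by omega) ms' hm')
    rw [hg]
    exact_mod_cast hk
  -- nonnegative values
  have hzero : ∃ n₃ : ℕ, n₁ ≤ n₃ ∧ ∀ n, n₃ ≤ n → EE P j ρ n 0 := by
    have hall : ∀ n, n₁ ≤ n → ∀ i T : ℕ, EE P j ρ n T → EE P j ρ (n + i * c) (T - i) := by
      intro n hn i
      induction i with
      | zero =>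
        intro T hT
        simpa using hT
      | succ i ih =>
        intro T hT
        have h4 := ih T hT
        have h5 : (i + 1) * c = i * c + c := by ring
        have h6 := down (n + (i + 1) * c) (by omega) (T - i)
        have h7 : n + (i + 1) * c - c = n + i * c := by omega
        rw [h7] at h6
        have h8 : T - i - 1 = T - (i + 1) := by omega
        rw [h8] at h6
        exact h6 h4
    obtain ⟨T₀, hT₀⟩ : ∃ T₀ : ℕ, η * P.cc (range j) * ((n₁ + c : ℕ) : ℝ) ^ (P.d - j) ≤ T₀ :=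
      exists_nat_ge _
    refine ⟨n₁ + c + T₀ * c, by omega, fun n hn => ?_⟩
    obtain ⟨m, i, hm1, hm2, hi, hmi⟩ : ∃ m i : ℕ, n₁ ≤ m ∧ m < n₁ + c ∧ T₀ ≤ i ∧
        n = m + i * c := by
      refine ⟨n₁ + (n - n₁) % c, (n - n₁) / c, by omega, ?_, ?_, ?_⟩
      · have := Nat.mod_lt (n - n₁) (by omega : 0 < c)
        omega
      · rw [Nat.le_div_iff_mul_le (by omega)]
        omega
      · have := Nat.mod_add_div (n - n₁) c
        have h4 : c * ((n - n₁) / c) = (n - n₁) / c * c := mul_comm _ _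
        omega
    have h4 := hall m hm1 i T₀ (fun ms hms hcnt hv => by
      refine hS m (by omega) ms hms hcnt ?_
      have h5 : (T₀ : ℝ) ≤ (P.v j m ms : ℝ) := by exact_mod_cast hv
      refine le_trans ?_ (hT₀.trans h5)
      have h6 : (m : ℝ) ≤ ((n₁ + c : ℕ) : ℝ) := by exact_mod_cast hm2.le
      have h7 : (0 : ℝ) ≤ η * P.cc (range j) := by positivity
      exact mul_le_mul_of_nonneg_left (pow_le_pow_left₀ (Nat.cast_nonneg m) h6 _) h7)
    rw [← hmi] at h4
    have h5 : T₀ - i = 0 := by omega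
    rwa [h5] at h4
  obtain ⟨n₃, hn₃, hzero⟩ := hzero
  obtain ⟨n₅, hn₅⟩ : ∃ n₅ : ℕ, 2 / ρ ≤ n₅ := exists_nat_ge _
  refine ⟨n₃ + c + n₅, fun n hn ms hms => ?_⟩
  have hn1 : 1 ≤ n := by omega
  have hnr : (1 : ℝ) ≤ n := by exact_mod_cast hn1
  have hne : (n : ℝ) ≤ (n : ℝ) ^ P.e := le_self_pow₀ hnr (by omega)
  have hnρ : 1 ≤ ρ / 2 * (n : ℝ) ^ P.e := by
    have h4 : (n₅ : ℝ) ≤ n := by exact_mod_cast (by omega : n₅ ≤ n)
    have h5 : 2 / ρ ≤ (n : ℝ) ^ P.e := (hn₅.trans h4).trans hne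
    rw [div_le_iff₀ hρ] at h5
    linarith
  have hne0 : (0 : ℝ) ≤ (n : ℝ) ^ P.e := by linarith
  by_cases hv : 0 ≤ P.v j n ms ∧ (ms.count (P.u j) : ℝ) ≤ (P.kap P.e + ρ) * (n : ℝ) ^ P.e
  · rw [max_eq_right hv.1]
    exact hzero n (by omega) ms hms hv.2 hv.1
  -- remove the main points
  obtain ⟨ms₀, hms₀, h0⟩ : ∃ ms₀, ms = ms₀ + Multiset.replicate (ms.count (P.u j)) (P.u j) ∧
      ms₀.count (P.u j) = 0 := by
    refine ⟨ms.filter (fun k => P.u j ≠ k), ?_, ?_⟩
    · have h4 := Multiset.filter_add_not (fun k => P.u j = k) ms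
      rw [Multiset.filter_eq, add_comm] at h4
      exact h4.symm
    · exact Multiset.count_filter_of_neg (by simp)
  have hms₀c : Cls P j n ms₀ := by
    rw [hms₀] at hms
    exact (cls_add_u he hed _).1 hms
  set m := ms.count (P.u j) with hm
  set f : ℕ → Multiset Kd := fun k => ms₀ + Multiset.replicate k (P.u j) with hf
  have hfc : ∀ k, Cls P j n (f k) := fun k => (cls_add_u he hed k).2 hms₀c
  have hfn : ∀ k, (f k).count (P.u j) = k := by
    intro k
    rw [hf]
    show Multiset.count (P.u j) (ms₀ + Multiset.replicate k (P.u j)) = k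
    rw [Multiset.count_add, h0, Multiset.count_replicate_self, zero_add]
  have hnW : nW ≤ n := by omega
  -- a negative value with few main points
  have hex : ∃ k, k ≤ m ∧ (k : ℝ) ≤ (P.kap P.e + ρ) * (n : ℝ) ^ P.e ∧ P.v j n (f k) < 0 := by
    by_cases h4 : (m : ℝ) ≤ (P.kap P.e + ρ) * (n : ℝ) ^ P.e
    · refine ⟨m, le_rfl, h4, ?_⟩
      have h5 : f m = ms := hms₀.symm
      rw [h5]
      by_contra hcon
      exact hv ⟨not_lt.1 hcon, h4⟩
    · push Not at h4
      have h5 : (0 : ℝ) ≤ (P.kap P.e + ρ) * (n : ℝ) ^ P.e :=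
        mul_nonneg (by linarith [hP.nonneg P.e]) hne0
      refine ⟨⌊(P.kap P.e + ρ) * (n : ℝ) ^ P.e⌋₊, ?_, Nat.floor_le h5, ?_⟩
      · have h6 := Nat.floor_le h5
        exact_mod_cast h6.trans h4.le
      · refine (hW n hnW _ (hfc _) (by rw [hfn]; exact Nat.floor_le h5)).2.2.1 ?_
        rw [hfn]
        have h6 := Nat.lt_floor_add_one ((P.kap P.e + ρ) * (n : ℝ) ^ P.e)
        have h7 : (P.kap P.e + ρ) * (n : ℝ) ^ P.e = (P.kap P.e + ρ / 2) * (n : ℝ) ^ P.e +
          ρ / 2 * (n : ℝ) ^ P.e := by ring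
        linarith
  classical
  obtain ⟨k, ⟨hkm, hkc, hkv⟩, hkmin⟩ : ∃ k, (k ≤ m ∧ (k : ℝ) ≤ (P.kap P.e + ρ) * (n : ℝ) ^ P.e ∧
      P.v j n (f k) < 0) ∧ ∀ k' < k, ¬ (k' ≤ m ∧ (k' : ℝ) ≤ (P.kap P.e + ρ) * (n : ℝ) ^ P.e ∧
      P.v j n (f k') < 0) := ⟨Nat.find hex, Nat.find_spec hex, fun k' hk' => Nat.find_min hex hk'⟩
  have hk0 : k ≠ 0 := by
    rintro rfl
    have h4 := (hW n hnW (f 0) (hfc 0) (by rw [hfn]; exact hkc)).2.2.2 (by
      rw [hfn, Nat.cast_zero]
      exact mul_nonneg (by linarith) hne0)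
    omega
  obtain ⟨l, rfl⟩ := Nat.exists_eq_succ_of_ne_zero hk0
  have hlc : (l : ℝ) ≤ (P.kap P.e + ρ) * (n : ℝ) ^ P.e := by
    refine le_trans ?_ hkc
    exact_mod_cast Nat.le_succ l
  have hl0 : 0 ≤ P.v j n (f l) := by
    have h4 := hkmin l (Nat.lt_succ_self l)
    by_contra hcon
    exact h4 ⟨by omega, hlc, not_le.1 hcon⟩
  have hfs : f (l + 1) = P.u j ::ₘ f l := by
    rw [hf]
    show ms₀ + Multiset.replicate (l + 1) (P.u j) = P.u j ::ₘ (ms₀ + Multiset.replicate l (P.u j))
    rw [Multiset.replicate_succ, Multiset.add_cons]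
  have hstep := (hW n hnW (f l) (hfc l) (by rw [hfn]; exact hlc)).1.2
  rw [← hfs] at hstep
  have hsmall : |(P.v j n (f (l + 1)) : ℝ)| ≤ η * P.cc (range j) * (n : ℝ) ^ (P.d - j - 1) := by
    have h4 : (0 : ℝ) ≤ (P.v j n (f l) : ℝ) := by exact_mod_cast hl0
    have h5 : (P.v j n (f (l + 1)) : ℝ) < 0 := by exact_mod_cast hkv
    rw [abs_of_neg h5]
    push_cast at hstep
    linarith
  have hsmall2 : |(P.v j n (f (l + 1)) : ℝ)| ≤ η * P.cc (range j) * (n : ℝ) ^ (P.d - j) := by
    refine hsmall.trans (mul_le_mul_of_nonneg_left (pow_le_pow_right₀ hnr (Nat.sub_le _ _)) ?_)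
    positivity
  have hw := (hW n hnW (f (l + 1)) (hfc _) (by rw [hfn]; exact hkc)).2.1 hsmall2
  obtain ⟨ms', A, r, hm', hA, hr, hAc, hvA, hun, htr⟩ := hN n (by omega) (f (l + 1)) (hfc _) 0
    (by rw [Nat.cast_zero]; positivity) (by
      rw [Nat.cast_zero, sub_zero]
      exact hsmall) hw
  have hk := core he hed hc hj h1 h2 h3 (n := n) (ms := f (l + 1)) (g := 0) (by omega)
    (by rw [Nat.cast_zero]; exact hkv.le) hm' hA hvA hun htr
    (hzero (n - c) (by omega) A hA hAc (by
      have : P.v j (n - c) A = ((0 : ℕ) : ℤ) + r := hvA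
      rw [this]
      omega)) (hP' n (by omega) ms' hm')
  have h4 : f m = f (l + 1) + Multiset.replicate (m - (l + 1)) (P.u j) := by
    rw [hf]
    show ms₀ + Multiset.replicate m (P.u j) = ms₀ + Multiset.replicate (l + 1) (P.u j) +
      Multiset.replicate (m - (l + 1)) (P.u j)
    rw [add_assoc, ← Multiset.replicate_add]
    congr 2
    omega
  have h5 : P.H j n ms ≤ P.H j n (f (l + 1)) := by
    have h6 : ms = f m := hms₀
    rw [h6, h4]
    exact HL_mono P.d P.d P.c n j _ _
  have h6 : P.H j n ms = 0 := by omega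
  rw [h6]
  exact le_max_left _ _

end Pool.Agent.GD

end
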