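import Pool.Agent.H94.LP7.M04
import Pool.Agent.H94.LP7.M34

/-! The parts of this file: GD.VT.Fac, GD.BE.Obj. -/

section

/-!
# General d, VT: the factors of the summands of `vd`

`clK P j`: the cluster kinds of the level `j`; `us j k` = the support of the sum `u` of the members (without
the creation block).  The factor of a cluster is the product of the factors of its members as ordinary
points and of `1 - t^trx` if its creation block is in `I'` and `I'` without it is disjoint from `us`.
-/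

set_option autoImplicit false

namespace Pool.Agent.GD.VT

open Finset PowerSeries

variable (P : Par)

open Classical in
/-- The types of the clusters (a finite set which contains all allowed ones). -/
noncomputable def ctf (d e i j : ℕ) : Finset CT :=
  (((range (d + 1) ×ˢ (range j).powerset).image fun x => CT.pl x.1 x.2) ∪
    ((range j).powerset.image CT.b0) ∪ ((range (d + 1)).image CT.br)).filter fun τ => τ.Ok d e i j

theorem mem_ctf {d e i j : ℕ} (hij : i < j) (hj : j ≤ d) (τ : CT) :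
    τ ∈ ctf d e i j ↔ τ.Ok d e i j := by
  classical
  unfold ctf
  rw [mem_filter, and_iff_right_iff_imp]
  intro h
  have hS : ∀ S : Finset ℕ, S ⊆ Ico (i + 1) j → S ⊆ range j := by
    intro S hS x hx
    have := mem_Ico.1 (hS hx)
    exact mem_range.2 this.2
  cases τ with
  | pl k S =>
    obtain ⟨_, h2, h3, _⟩ := h
    have h4 : (d - i - 1) / (e - 1) ≤ d - i - 1 := Nat.div_le_self _ _
    refine mem_union_left _ (mem_union_left _ (mem_image.2 ⟨(k, S), ?_, rfl⟩))
    exact mem_product.2 ⟨mem_range.2 (by show k < d + 1; omega), mem_powerset.2 (hS S h3)⟩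
  | b0 S =>
    obtain ⟨_, h3, _⟩ := h
    exact mem_union_left _ (mem_union_right _ (mem_image.2 ⟨S, mem_powerset.2 (hS S h3), rfl⟩))
  | br r =>
    obtain ⟨_, h2⟩ := h
    exact mem_union_right _ (mem_image.2 ⟨r, mem_range.2 (by omega), rfl⟩)

/-- The cluster kinds of the level `j`. -/
noncomputable def clK (j : ℕ) : Finset Kd :=
  (range j).biUnion fun i => (ctf P.d P.e i j).image fun τ => τ.kd P.d P.e i j

/-- The creation block, the support of the sum and the trace exponent of a cluster. -/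
def cb : Kd → ℕ
  | .ord _ _ => 0
  | .cl _ _ i _ => i

def us (j : ℕ) : Kd → Finset ℕ
  | .ord _ _ => ∅
  | .cl _ _ i As => (range j).erase i \ inter As

def tx : Kd → ℕ
  | .ord _ _ => 1
  | .cl e dl _ As => trx e dl As.length

private lemma mem_inter {As : List (Finset ℕ)} (h : As ≠ []) (x : ℕ) :
    x ∈ inter As ↔ ∀ A ∈ As, x ∈ A := by
  unfold inter
  rw [mem_filter, and_iff_right_iff_imp]
  intro hx
  cases As with
  | nil => exact absurd rfl h
  | cons A As => exact hx A (List.mem_cons_self)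

/-- The members of a cluster. -/
private def Mem (e i j : ℕ) (A : Finset ℕ) : Prop := A ⊆ (range j).erase i ∧ (range j \ A).card ≤ e

private lemma mem_sdiff_bd {e i j : ℕ} (he : 1 ≤ e) {S : Finset ℕ} (hS : S.card ≤ e - 1) :
    Mem e i j ((range j).erase i \ S) := by
  refine ⟨sdiff_subset, ?_⟩
  have h1 : range j \ ((range j).erase i \ S) ⊆ insert i S := by
    intro x hx
    rw [mem_sdiff, mem_sdiff, mem_erase] at hx
    rw [mem_insert]
    by_cases h1 : x = i
    · exact Or.inl h1
    · right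
      by_contra h2
      exact hx.2 ⟨⟨h1, hx.1⟩, h2⟩
  have h2 := card_le_card h1
  have h3 := card_insert_le i S
  omega

private lemma mbs_ne {i j k : ℕ} {S : Finset ℕ} : mbs i j k S ≠ [] := by
  unfold mbs
  split_ifs <;> simp

private lemma mem_mbs {e i j k : ℕ} (he : 1 ≤ e) {S : Finset ℕ} (hS : S.card ≤ e - 1) :
    ∀ A ∈ mbs i j k S, Mem e i j A := by
  intro A hA
  unfold mbs at hA
  split_ifs at hA
  · rw [List.mem_singleton] at hA
    rw [hA]
    exact mem_sdiff_bd he hS
  · rcases List.mem_cons.1 hA with h | h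
    · have h1 : A = (range j).erase i \ ∅ := by rw [h, sdiff_empty]
      rw [h1]
      exact mem_sdiff_bd he (by simp)
    · rw [List.eq_of_mem_replicate h]
      exact mem_sdiff_bd he hS

private lemma mem_mbr {e i j k r : ℕ} (he : 1 ≤ e) : ∀ A ∈ mbr i j k e r, Mem e i j A := by
  intro A hA
  unfold mbr at hA
  obtain ⟨s, _, rfl⟩ := List.mem_map.1 hA
  refine mem_sdiff_bd he ?_
  refine (card_le_card inter_subset_left).trans ?_
  rw [Nat.card_Ico, Nat.add_mul, Nat.one_mul, Nat.add_sub_cancel_left]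

/-- The shape of a cluster kind. -/
private lemma kd_mem {d e i j : ℕ} (he : 1 ≤ e) {τ : CT} (h : τ.Ok d e i j) :
    ∃ dl As, τ.kd d e i j = .cl e dl i As ∧ ∀ A ∈ As, Mem e i j A := by
  cases τ with
  | pl k S => exact ⟨_, _, rfl, mem_mbs he h.2.2.2⟩
  | b0 S => exact ⟨_, _, rfl, mem_mbs he (h.2.2.trans (by omega))⟩
  | br r => exact ⟨_, _, rfl, mem_mbr he⟩

/-- The objects which occur. -/
private def Gd (d e j : ℕ) (K : Finset Kd) (k : Kd) : Prop :=
  (∃ x A, k = .ord x A ∧ 1 ≤ x ∧ x ≤ d ∧ A ⊆ range j) ∨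
    (∃ dl i As, k = .cl e dl i As ∧ k ∈ K ∧ ∀ A ∈ As, Mem e i j A)

private lemma mem_clK {j : ℕ} (hj : j ≤ P.d) {k : Kd} :
    k ∈ clK P j ↔ ∃ i < j, ∃ τ : CT, τ.Ok P.d P.e i j ∧ k = τ.kd P.d P.e i j := by
  unfold clK
  rw [mem_biUnion]
  constructor
  · rintro ⟨i, hi, hk⟩
    obtain ⟨τ, hτ, rfl⟩ := mem_image.1 hk
    have hi' := mem_range.1 hi
    exact ⟨i, hi', τ, (mem_ctf hi' hj τ).1 hτ, rfl⟩
  · rintro ⟨i, hi, τ, hτ, rfl⟩
    exact ⟨i, mem_range.2 hi, mem_image.2 ⟨τ, (mem_ctf hi hj τ).2 hτ, rfl⟩⟩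

private lemma gd_of_cls (he : 2 ≤ P.e) {j : ℕ} (hj : j ≤ P.d) {n : ℕ} {ms : Multiset Kd}
    (h : Cls P j n ms) : ∀ k ∈ ms, Gd P.d P.e j (clK P j) k := by
  intro k hk
  rcases h.mem k hk with ⟨x, A, rfl, h1, h2, h3, _⟩ | ⟨i, hi, τ, hτ, rfl⟩
  · exact Or.inl ⟨x, A, rfl, by omega, h2.le, h3⟩
  · right
    obtain ⟨dl, As, h1, h2⟩ := kd_mem (j := j) (by omega : 1 ≤ P.e) hτ
    exact ⟨dl, i, As, h1, (mem_clK P hj).2 ⟨i, hi, τ, hτ, rfl⟩, h2⟩

/-- The product of the factors of the points. -/
private noncomputable def pf (d j : ℕ) (I' : Finset ℕ) (s : Multiset (ℕ × Finset ℕ)) :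
    PowerSeries ℝ :=
  ∏ K ∈ (range j).powerset, if Disjoint K I' then
    ∏ x ∈ Icc 1 d, (1 - X ^ x) ^ s.count (x, range j \ K) else 1

private lemma pf_zero (d j : ℕ) (I' : Finset ℕ) : pf d j I' 0 = 1 := by
  unfold pf
  refine prod_eq_one fun K _ => ?_
  split_ifs
  · exact prod_eq_one fun x _ => by rw [Multiset.count_zero, pow_zero]
  · rfl

private lemma pf_add (d j : ℕ) (I' : Finset ℕ) (s t : Multiset (ℕ × Finset ℕ)) :
    pf d j I' (s + t) = pf d j I' s * pf d j I' t := by
  unfold pf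
  rw [← prod_mul_distrib]
  refine prod_congr rfl fun K _ => ?_
  split_ifs
  · rw [← prod_mul_distrib]
    refine prod_congr rfl fun x _ => ?_
    rw [Multiset.count_add, pow_add]
  · rw [one_mul]

private lemma pf_single {d j : ℕ} {I' : Finset ℕ} (hI' : I' ⊆ range j) {x : ℕ} {A : Finset ℕ}
    (hx : 1 ≤ x) (hxd : x ≤ d) (hA : A ⊆ range j) :
    pf d j I' {(x, A)} = if I' ⊆ A then 1 - X ^ x else 1 := by
  unfold pf
  have hAA : range j \ (range j \ A) = A := Finset.sdiff_sdiff_eq_self hA
  have hd : Disjoint (range j \ A) I' ↔ I' ⊆ A := by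
    rw [disjoint_left]
    constructor
    · intro h y hy
      by_contra h1
      exact h (mem_sdiff.2 ⟨hI' hy, h1⟩) hy
    · intro h y hy hy'
      exact (mem_sdiff.1 hy).2 (h hy')
  rw [prod_eq_single (range j \ A)]
  · rw [hAA]
    by_cases h : I' ⊆ A
    · rw [if_pos (hd.2 h), if_pos h, prod_eq_single x]
      · rw [Multiset.count_singleton_self, pow_one]
      · intro y _ hy
        rw [Multiset.count_singleton, if_neg, pow_zero]
        intro h1
        exact hy (congrArg Prod.fst h1)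
      · intro h1
        exact absurd (mem_Icc.2 ⟨hx, hxd⟩) h1
    · rw [if_neg (fun h1 => h (hd.1 h1)), if_neg h]
  · intro K hK hne
    split_ifs
    · refine prod_eq_one fun y _ => ?_
      rw [Multiset.count_singleton, if_neg, pow_zero]
      intro h1
      apply hne
      have h2 : range j \ K = A := congrArg Prod.snd h1
      rw [← h2, Finset.sdiff_sdiff_eq_self (mem_powerset.1 hK)]
    · rfl
  · intro h1
    exact absurd (mem_powerset.2 sdiff_subset) h1

private lemma pf_list {d j : ℕ} {I' : Finset ℕ} (hI' : I' ⊆ range j) {e : ℕ} (he : 1 ≤ e)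
    (hed : e ≤ d) (As : List (Finset ℕ)) (hAs : ∀ A ∈ As, A ⊆ range j) :
    pf d j I' ((As.map fun A => (e, A) : List (ℕ × Finset ℕ)) : Multiset (ℕ × Finset ℕ)) =
      (As.map fun A => if I' ⊆ A then 1 - X ^ e else (1 : PowerSeries ℝ)).prod := by
  induction As with
  | nil => exact pf_zero d j I'
  | cons A As ih =>
    rw [List.map_cons, List.map_cons, List.prod_cons, ← Multiset.cons_coe,
      ← Multiset.singleton_add, pf_add, pf_single hI' he hed (hAs A (List.mem_cons_self)),
      ih fun B hB => hAs B (List.mem_cons_of_mem _ hB)]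

/-- The product of the factors of the clusters. -/
private noncomputable def cf (Ks : Finset Kd) (j : ℕ) (I' : Finset ℕ) (ms : Multiset Kd) :
    PowerSeries ℝ :=
  ∏ k ∈ Ks, if cb k ∈ I' ∧ Disjoint (us j k) (I'.erase (cb k)) then
    (1 - X ^ tx k) ^ ms.count k else 1

private lemma cf_zero (Ks : Finset Kd) (j : ℕ) (I' : Finset ℕ) : cf Ks j I' 0 = 1 := by
  unfold cf
  refine prod_eq_one fun K _ => ?_
  split_ifs
  · rw [Multiset.count_zero, pow_zero]
  · rfl

private lemma cf_add (Ks : Finset Kd) (j : ℕ) (I' : Finset ℕ) (s t : Multiset Kd) :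
    cf Ks j I' (s + t) = cf Ks j I' s * cf Ks j I' t := by
  unfold cf
  rw [← prod_mul_distrib]
  refine prod_congr rfl fun K _ => ?_
  split_ifs
  · rw [Multiset.count_add, pow_add]
  · rw [one_mul]

private lemma cf_single (Ks : Finset Kd) (j : ℕ) (I' : Finset ℕ) (k : Kd) :
    cf Ks j I' {k} = if k ∈ Ks ∧ cb k ∈ I' ∧ Disjoint (us j k) (I'.erase (cb k)) then
      1 - X ^ tx k else 1 := by
  unfold cf
  by_cases hk : k ∈ Ks
  · rw [prod_eq_single_of_mem k hk]
    · rw [Multiset.count_singleton_self, pow_one]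
      by_cases h : cb k ∈ I' ∧ Disjoint (us j k) (I'.erase (cb k))
      · rw [if_pos h, if_pos ⟨hk, h⟩]
      · rw [if_neg h, if_neg fun h1 => h h1.2]
    · intro y _ hy
      split_ifs
      · rw [Multiset.count_singleton, if_neg hy, pow_zero]
      · rfl
  · rw [if_neg fun h => hk h.1]
    refine prod_eq_one fun y hy => ?_
    split_ifs
    · rw [Multiset.count_singleton, if_neg, pow_zero]
      rintro rfl
      exact hk hy
    · rfl

private lemma map_ite (p : Prop) [Decidable p] (e : ℕ) :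
    PowerSeries.map (Int.castRingHom ℝ) (if p then 1 - X ^ e else 1) =
      if p then 1 - X ^ e else 1 := by
  split_ifs
  · rw [map_sub, map_one, map_pow, PowerSeries.map_X]
  · exact map_one _

private lemma single {d e j : ℕ} (he : 1 ≤ e) (hed : e ≤ d) {Ks : Finset Kd} {I' : Finset ℕ}
    (hI' : I' ⊆ range j) (hKs : ∀ x A, Kd.ord x A ∉ Ks) {k : Kd} (hk : Gd d e j Ks k) :
    PowerSeries.map (Int.castRingHom ℝ) (Kd.P I' k) = pf d j I' k.pts * cf Ks j I' {k} := by
  rcases hk with ⟨x, A, rfl, h1, h2, h3⟩ | ⟨dl, i, As, rfl, h1, h2⟩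
  · rw [cf_single, if_neg fun h => hKs x A h.1, mul_one]
    change PowerSeries.map (Int.castRingHom ℝ) (if I' ⊆ A then 1 - PowerSeries.X ^ x else 1) =
      pf d j I' {(x, A)}
    rw [pf_single hI' h1 h2 h3, map_ite]
  · have hsub : ∀ A ∈ As, A ⊆ range j := fun A hA => (h2 A hA).1.trans (erase_subset _ _)
    rw [cf_single]
    change PowerSeries.map (Int.castRingHom ℝ) (if i ∈ I' then
        (if I'.erase i ⊆ inter As then 1 - PowerSeries.X ^ trx e dl As.length else 1)
      else (As.map fun A => if I' ⊆ A then 1 - PowerSeries.X ^ e else (1 : PowerSeries ℤ)).prod) =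
      pf d j I' ((As.map fun A => (e, A) : List (ℕ × Finset ℕ)) : Multiset (ℕ × Finset ℕ)) *
        if Kd.cl e dl i As ∈ Ks ∧ i ∈ I' ∧ Disjoint ((range j).erase i \ inter As) (I'.erase i) then
          1 - X ^ trx e dl As.length else 1
    rw [pf_list hI' he hed As hsub]
    have hd : Disjoint ((range j).erase i \ inter As) (I'.erase i) ↔ I'.erase i ⊆ inter As := by
      rw [disjoint_left]
      constructor
      · intro h y hy
        by_contra h1
        exact h (mem_sdiff.2 ⟨erase_subset_erase _ hI' hy, h1⟩) hy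
      · intro h y hy hy'
        exact (mem_sdiff.1 hy).2 (h hy')
    by_cases hi : i ∈ I'
    · rw [if_pos hi, map_ite]
      have h3 : (As.map fun A => if I' ⊆ A then 1 - X ^ e else (1 : PowerSeries ℝ)).prod = 1 := by
        apply List.prod_eq_one
        intro y hy
        obtain ⟨A, hA, rfl⟩ := List.mem_map.1 hy
        rw [if_neg]
        intro h4
        exact (mem_erase.1 ((h2 A hA).1 (h4 hi))).1 rfl
      rw [h3, one_mul]
      by_cases h4 : I'.erase i ⊆ inter As
      · rw [if_pos h4, if_pos ⟨h1, hi, hd.2 h4⟩]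
      · rw [if_neg h4, if_neg fun h => h4 (hd.1 h.2.2)]
    · rw [if_neg hi, if_neg fun h => hi h.2.1, mul_one, map_list_prod, List.map_map]
      congr 1
      refine List.map_congr_left fun A _ => ?_
      exact map_ite _ _

private lemma ord_notMem_clK {j : ℕ} (x : ℕ) (A : Finset ℕ) : Kd.ord x A ∉ clK P j := by
  unfold clK
  rw [mem_biUnion]
  rintro ⟨i, _, hk⟩
  obtain ⟨τ, _, h⟩ := mem_image.1 hk
  cases τ <;> simp [CT.kd] at h

theorem fac (he : 2 ≤ P.e) (hed : P.e < P.d) {j : ℕ} (hj : j ≤ P.J) {n : ℕ} {ms : Multiset Kd}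
    (h : Cls P j n ms) {I' : Finset ℕ} (hI' : I' ⊆ range j) :
    PowerSeries.map (Int.castRingHom ℝ) ((ms.map (Kd.P I')).prod) =
      (∏ K ∈ (range j).powerset, if Disjoint K I' then
          ∏ x ∈ Icc 1 P.d, (1 - X ^ x) ^ npt ms x (range j \ K) else 1) *
        ∏ k ∈ clK P j, if cb k ∈ I' ∧ Disjoint (us j k) (I'.erase (cb k)) then
          (1 - X ^ tx k) ^ ms.count k else 1 := by
  have hJ : P.J = P.d - P.e := rfl
  have hg := gd_of_cls P he (by omega : j ≤ P.d) h
  change PowerSeries.map (Int.castRingHom ℝ) ((ms.map (Kd.P I')).prod) =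
    pf P.d j I' (ms.bind Kd.pts) * cf (clK P j) j I' ms
  clear h
  induction ms using Multiset.induction_on with
  | empty => rw [Multiset.map_zero, Multiset.prod_zero, map_one, Multiset.zero_bind, pf_zero,
      cf_zero, one_mul]
  | cons k ms ih =>
    rw [Multiset.map_cons, Multiset.prod_cons, map_mul, Multiset.cons_bind, pf_add,
      ← Multiset.singleton_add, cf_add, ih fun x hx => hg x (Multiset.mem_cons_of_mem hx),
      single (by omega) hed.le hI' (ord_notMem_clK P) (hg k (Multiset.mem_cons_self k ms))]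
    ring

private lemma length_mbs {i j k : ℕ} (hk : 1 ≤ k) (S : Finset ℕ) : (mbs i j k S).length = k := by
  unfold mbs
  split_ifs with h
  · rw [h]
    rfl
  · rw [List.length_cons, List.length_replicate]
    omega

private lemma us_mbs {i j k : ℕ} (S : Finset ℕ) : (range j).erase i \ inter (mbs i j k S) ⊆ S := by
  intro x hx
  rw [mem_sdiff, mem_inter mbs_ne] at hx
  by_contra h
  apply hx.2
  intro A hA
  unfold mbs at hA
  split_ifs at hA
  · rw [List.mem_singleton] at hA
    rw [hA]
    exact mem_sdiff.2 ⟨hx.1, h⟩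
  · rcases List.mem_cons.1 hA with h1 | h1
    · rw [h1]
      exact hx.1
    · rw [List.eq_of_mem_replicate h1]
      exact mem_sdiff.2 ⟨hx.1, h⟩

private lemma length_mbr {i j k e r : ℕ} : (mbr i j k e r).length = k := by
  unfold mbr
  rw [List.length_map, List.length_range]

private lemma us_mbr {i j k e r : ℕ} (hk : 1 ≤ k) :
    (range j).erase i \ inter (mbr i j k e r) ⊆ range r := by
  have hne : mbr i j k e r ≠ [] := by
    intro h
    have h1 := length_mbr (i := i) (j := j) (k := k) (e := e) (r := r)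
    rw [h, List.length_nil] at h1
    omega
  intro x hx
  rw [mem_sdiff, mem_inter hne] at hx
  by_contra h
  apply hx.2
  intro A hA
  unfold mbr at hA
  obtain ⟨s, _, rfl⟩ := List.mem_map.1 hA
  refine mem_sdiff.2 ⟨hx.1, fun h1 => h (Finset.mem_inter.1 h1).2⟩

private lemma exc_bd {d e i j : ℕ} (he : 2 ≤ e) (hj : j ≤ d - e) (hi : i < j) {τ : CT}
    (h : τ.Ok d e i j) :
    (us j (τ.kd d e i j)).card + 2 + τ.w e ≤ tx (τ.kd d e i j) := by
  cases τ with
  | pl k S =>
    obtain ⟨h1, h2, h3, h4⟩ := h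
    change ((range j).erase i \ inter (mbs i j k S)).card + 2 + (e - 1 - S.card) ≤
      (mbs i j k S).length * (e - 1) + 1 + 0
    rw [length_mbs (by omega)]
    have h5 := card_le_card (us_mbs (i := i) (j := j) (k := k) S)
    have h6 : 2 * (e - 1) ≤ k * (e - 1) := Nat.mul_le_mul_right _ h1
    omega
  | b0 S =>
    obtain ⟨h1, h3, h4⟩ := h
    change ((range j).erase i \ inter (mbs i j ((d - i - 1) / (e - 1)) S)).card + 2 +
      (e - 2 - S.card) ≤ (mbs i j ((d - i - 1) / (e - 1)) S).length * (e - 1) + 1 +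
        (d - i - 1) % (e - 1)
    have hk : 1 ≤ (d - i - 1) / (e - 1) := (Nat.one_le_div_iff (by omega)).2 (by omega)
    rw [length_mbs hk]
    have h5 := card_le_card (us_mbs (i := i) (j := j) (k := (d - i - 1) / (e - 1)) S)
    have h6 := Nat.div_add_mod (d - i - 1) (e - 1)
    rw [mul_comm] at h6
    omega
  | br r =>
    obtain ⟨h1, h2⟩ := h
    change ((range j).erase i \ inter (mbr i j ((d - i + r - 1) / (e - 1)) e r)).card + 2 + 0 ≤
      (mbr i j ((d - i + r - 1) / (e - 1)) e r).length * (e - 1) + 1 + (d - i + r - 1) % (e - 1)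
    have hk : 1 ≤ (d - i + r - 1) / (e - 1) := (Nat.one_le_div_iff (by omega)).2 (by omega)
    rw [length_mbr]
    have h5 := card_le_card (us_mbr (i := i) (j := j) (e := e) (r := r) hk)
    rw [card_range] at h5
    have h6 := Nat.div_add_mod (d - i + r - 1) (e - 1)
    rw [mul_comm] at h6
    omega

/-- The number of a cluster kind and the excess of its type. -/
theorem cl_bd (he : 2 ≤ P.e) (hed : P.e < P.d) {j : ℕ} (hj : j ≤ P.J) {k : Kd}
    (hk : k ∈ clK P j) : ∃ (w : ℕ) (C₀ : ℝ), 0 ≤ C₀ ∧ cb k ∉ us j k ∧ us j k ⊆ range j ∧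
      cb k < j ∧ 1 ≤ tx k ∧ (us j k).card + 2 + w ≤ tx k ∧
      ∀ n ms, Cls P j n ms → (ms.count k : ℝ) ≤ C₀ * (n : ℝ) ^ w := by
  have hJ : P.J = P.d - P.e := rfl
  obtain ⟨i, hi, τ, hτ, rfl⟩ := (mem_clK P (by omega : j ≤ P.d)).1 hk
  refine ⟨τ.w P.e, (τ.mm P : ℕ), Nat.cast_nonneg _, ?_, ?_, ?_, ?_, ?_, ?_⟩
  · cases τ <;> simp [CT.kd, cb, us]
  · cases τ <;> exact (sdiff_subset).trans (erase_subset _ _)
  · cases τ <;> exact hi
  · cases τ <;> simp only [CT.kd, tx, trx] <;> omega
  · exact exc_bd he (by omega) hi hτ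
  · intro n ms h
    exact_mod_cast h.cnt i hi τ hτ

private lemma npt_ne (he : 2 ≤ P.e) (hed : P.e < P.d) {j n : ℕ} {ms : Multiset Kd}
    (h : Cls P j n ms) {K : Finset ℕ} (hK : K ⊆ range j) {x : ℕ}
    (hx : npt ms x (range j \ K) ≠ 0) : K.card ≤ x ∧ x < P.d ∧ 2 ≤ x := by
  unfold npt at hx
  have h1 : (x, range j \ K) ∈ ms.bind Kd.pts := Multiset.count_ne_zero.1 hx
  obtain ⟨k, hk, hk'⟩ := Multiset.mem_bind.1 h1
  have hKK : range j \ (range j \ K) = K := Finset.sdiff_sdiff_eq_self hK
  rcases h.mem k hk with ⟨y, A, rfl, h2, h3, h4, h5⟩ | ⟨i, hi, τ, hτ, rfl⟩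
  · have h6 : (x, range j \ K) = (y, A) := Multiset.mem_singleton.1 hk'
    have h7 : x = y := congrArg Prod.fst h6
    have h8 : range j \ K = A := congrArg Prod.snd h6
    rw [← h8, hKK] at h5
    exact ⟨by omega, by omega, by omega⟩
  · obtain ⟨dl, As, h6, h7⟩ := kd_mem (j := j) (by omega : 1 ≤ P.e) hτ
    rw [h6] at hk'
    have h8 : (x, range j \ K) ∈ As.map fun A => (P.e, A) := Multiset.mem_coe.1 hk'
    obtain ⟨A, hA, h9⟩ := List.mem_map.1 h8
    have h10 : P.e = x := congrArg Prod.fst h9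
    have h11 : A = range j \ K := congrArg Prod.snd h9
    have h12 := (h7 A hA).2
    rw [h11, hKK] at h12
    exact ⟨by omega, by omega, by omega⟩

/-- The numbers of the points. -/
theorem npt_bd (he : 2 ≤ P.e) (hed : P.e < P.d) {j : ℕ} (hj : j ≤ P.J) (C₁ : ℝ) :
    ∃ C₀ : ℝ, 0 ≤ C₀ ∧ ∀ n, 1 ≤ n → ∀ ms, Cls P j n ms →
      (npt ms P.e (range j) : ℝ) ≤ C₁ * (n : ℝ) ^ P.e → ∀ K ⊆ range j, ∀ x,
        ((x < K.card ∨ P.d ≤ x ∨ x ≤ 1) → npt ms x (range j \ K) = 0) ∧
          (K.card ≤ x → (npt ms x (range j \ K) : ℝ) ≤ C₀ * (n : ℝ) ^ (x - K.card)) := by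
  let t : ℕ → Finset ℕ → ℝ := fun x K =>
    (|P.nat x K| + |P.eps j| + |(P.xp x K : ℝ)| + |(P.xm x K : ℝ)|) * P.cc K
  have ht : ∀ x K, 0 ≤ t x K := fun x K => by positivity
  refine ⟨|C₁| + ∑ x ∈ range P.d, ∑ K ∈ (range j).powerset, t x K,
    add_nonneg (abs_nonneg _) (sum_nonneg fun x _ => sum_nonneg fun K _ => ht x K), ?_⟩
  intro n hn ms h hC K hK x
  have hn1 : (1 : ℝ) ≤ (n : ℝ) := by exact_mod_cast hn
  have hz : (x < K.card ∨ P.d ≤ x ∨ x ≤ 1) → npt ms x (range j \ K) = 0 := by
    intro h1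
    by_contra h2
    obtain ⟨h3, h4, h5⟩ := npt_ne P he hed h hK h2
    omega
  refine ⟨hz, fun hKx => ?_⟩
  have hpow : 0 ≤ (n : ℝ) ^ (x - K.card) := by positivity
  have hsum : 0 ≤ ∑ x ∈ range P.d, ∑ K ∈ (range j).powerset, t x K :=
    sum_nonneg fun x _ => sum_nonneg fun K _ => ht x K
  by_cases h0 : P.d ≤ x ∨ x ≤ 1
  · rw [hz (Or.inr h0), Nat.cast_zero]
    exact mul_nonneg (add_nonneg (abs_nonneg _) hsum) hpow
  push Not at h0
  have htle : t x K ≤ ∑ x ∈ range P.d, ∑ K ∈ (range j).powerset, t x K := by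
    refine le_trans ?_ (single_le_sum (f := fun x => ∑ K ∈ (range j).powerset, t x K)
      (fun x _ => sum_nonneg fun K _ => ht x K) (mem_range.2 h0.1))
    exact single_le_sum (f := fun K => t x K) (fun K _ => ht x K) (mem_powerset.2 hK)
  have hfin : (npt ms x (range j \ K) : ℝ) ≤ t x K * (n : ℝ) ^ (x - K.card) →
      (npt ms x (range j \ K) : ℝ) ≤
        (|C₁| + ∑ x ∈ range P.d, ∑ K ∈ (range j).powerset, t x K) * (n : ℝ) ^ (x - K.card) := by
    intro h1
    refine h1.trans (mul_le_mul_of_nonneg_right ?_ hpow)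
    linarith [abs_nonneg C₁]
  have hKK : range j \ (range j \ K) = K := Finset.sdiff_sdiff_eq_self hK
  have hcc : (0 : ℝ) ≤ (P.cc K : ℝ) := Nat.cast_nonneg _
  rcases Nat.eq_or_lt_of_le hKx with h1 | h1
  · apply hfin
    rw [h1, Nat.sub_self, pow_zero, mul_one]
    have h2 := h.zero x (range j \ K) (by omega) h0.1 sdiff_subset (by rw [hKK]; exact h1)
    rw [hKK] at h2
    rw [← h1] at h2 ⊢
    rcases h2 with h2 | h2
    · have h3 : (npt ms K.card (range j \ K) : ℝ) = (P.xp K.card K : ℝ) * P.cc K := by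
        exact_mod_cast congrArg (fun q : ℚ => (q : ℝ)) h2
      rw [h3]
      refine mul_le_mul_of_nonneg_right ?_ hcc
      linarith [le_abs_self (P.xp K.card K : ℝ), abs_nonneg (P.nat K.card K), abs_nonneg (P.eps j),
        abs_nonneg (P.xm K.card K : ℝ)]
    · have h3 : (npt ms K.card (range j \ K) : ℝ) = (P.xm K.card K : ℝ) * P.cc K := by
        exact_mod_cast congrArg (fun q : ℚ => (q : ℝ)) h2
      rw [h3]
      refine mul_le_mul_of_nonneg_right ?_ hcc
      linarith [le_abs_self (P.xm K.card K : ℝ), abs_nonneg (P.nat K.card K), abs_nonneg (P.eps j),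
        abs_nonneg (P.xp K.card K : ℝ)]
  · by_cases h2 : x = P.e ∧ range j \ K = range j
    · have h3 : K = ∅ := by
        rw [← hKK, h2.2, sdiff_self]
        rfl
      rw [h2.1, h2.2, h3, card_empty, Nat.sub_zero]
      refine hC.trans (mul_le_mul_of_nonneg_right ?_ (by positivity))
      linarith [le_abs_self C₁]
    · apply hfin
      have h3 := h.win x (range j \ K) (by omega) h0.1 sdiff_subset (by rw [hKK]; exact h1)
        (by rwa [not_and_or] at h2)
      rw [hKK] at h3
      have h4 := (abs_le.1 h3).2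
      have h5 : (npt ms x (range j \ K) : ℝ) ≤
          (P.nat x K + P.eps j) * P.cc K * (n : ℝ) ^ (x - K.card) := by linarith
      refine h5.trans (mul_le_mul_of_nonneg_right (mul_le_mul_of_nonneg_right ?_ hcc) hpow)
      linarith [le_abs_self (P.nat x K), le_abs_self (P.eps j), abs_nonneg (P.xp x K : ℝ),
        abs_nonneg (P.xm x K : ℝ)]

private lemma map_hs (N : ℕ) : PowerSeries.map (Int.castRingHom ℝ) (hs N) = hr N := by
  ext k
  simp [hs, hr]

private lemma hr_zero : hr 0 = 1 := by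
  ext k
  cases k with
  | zero => simp [hr]
  | succ k => simp [hr, PowerSeries.coeff_one]

private lemma hr_sum (c : ℕ → ℕ) (s : Finset ℕ) : hr (∑ i ∈ s, c i) = ∏ i ∈ s, hr (c i) := by
  induction s using Finset.induction_on with
  | empty => rw [sum_empty, prod_empty, hr_zero]
  | insert a s ha ih => rw [sum_insert ha, prod_insert ha, hr_add, ih]

theorem hs_fac (c : ℕ → ℕ) {j n : ℕ} (hn : ∑ i ∈ range j, c i ≤ n) {I' : Finset ℕ}
    (hI' : I' ⊆ range j) : PowerSeries.map (Int.castRingHom ℝ) (hs (n - ∑ i ∈ I', c i)) =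
      hr (n - ∑ i ∈ range j, c i) * ∏ i ∈ range j, if Disjoint {i} I' then hr (c i) else 1 := by
  have h1 : ∏ i ∈ range j, (if Disjoint {i} I' then hr (c i) else 1) =
      hr (∑ i ∈ range j \ I', c i) := by
    rw [hr_sum, ← prod_filter]
    refine prod_congr ?_ fun _ _ => rfl
    ext i
    rw [mem_filter, mem_sdiff, disjoint_singleton_left]
  have h2 := sum_sdiff (f := c) hI'
  rw [h1, ← hr_add, map_hs]
  congr 1
  omega

end Pool.Agent.GD.VT

end

section

/-!
# General d, block BETA, module Obj: the members of the objects, usable members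

The *members* of a configuration `rest : κ → Kd` are the pairs `y : κ × Fin (d + 1)` with
`y.2 < (rest y.1).nm`.  A cluster is *pure* if all its members have the kind `{i}` (`i` = creation block) and
`dl = 0`: the types `pl k ∅`.  A member is *usable*: points of ordinary objects; all members of pure clusters; the
members with `#K = ex` (base points); the members `≠ {i}` of the clusters with `dl = 0` whose first member is of
the kind `{i}` (types `pl k S`, `S ≠ ∅`).  Not usable are: the first members of `pl k S`, `S ≠ ∅` (number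
`≤ C n^(e - 1 - |S|) ≤ C n^(e - 2)`, `K = {i}`), the members of `b0 S` (number `≤ C n^(e - 2 - |S|)`, `K = {i}` or
`insert i S`), the members with `#K < e` of `br r` (bounded number).  In every cluster which is not pure there is a
member which is not usable: the first one for `pl`, `b0` (`#{i} = 1 < e`; for `k = 1` the only one,
`#(insert i S) ≤ e - 1`), the last one for `br`: `k (e - 1) > r`, because `k = (d - i + r - 1) / (e - 1)` and
`d - i + r - 1 ≥ e - 1 + r` (`i < J = d - e`).
-/

set_option autoImplicit false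

namespace Pool.Agent.GD.BE

open Finset
open Pool.Agent.GD.VT (cb)

/-- The vanishing set of the member `x`. -/
def mA : Kd → ℕ → Finset ℕ
  | .ord _ A, _ => A
  | .cl _ _ _ As, x => As.getD x ∅

/-- Pure clusters. -/
def Pur (J : ℕ) : Kd → Prop
  | .ord _ _ => False
  | .cl _ dl i As => dl = 0 ∧ ∀ A ∈ As, A = (range J).erase i

/-- Clusters. -/
def IsCl : Kd → Prop
  | .ord _ _ => False
  | .cl _ _ _ _ => True

/-- Usable members. -/
def Usb (J : ℕ) : Kd → ℕ → Prop
  | .ord _ _, x => x < 1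
  | .cl e dl i As, x => x < As.length ∧ (Pur J (.cl e dl i As) ∨
      (range J \ As.getD x ∅).card = e ∨
      (dl = 0 ∧ As.headD ∅ = (range J).erase i ∧ As.getD x ∅ ≠ (range J).erase i))

variable {P : Par} {n : ℕ} {ms : Multiset Kd}

private lemma getD_mem {As : List (Finset ℕ)} {x : ℕ} (hx : x < As.length) :
    As.getD x ∅ ∈ As := by
  rw [List.getD_eq_getElem As ∅ hx]
  exact List.getElem_mem hx

private lemma mbs_len {i j k : ℕ} {S : Finset ℕ} (hk : 1 ≤ k) : (mbs i j k S).length = k := by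
  unfold mbs
  split_ifs with h
  · rw [h]
    rfl
  · rw [List.length_cons, List.length_replicate]
    omega

private lemma mbr_len {i j k e r : ℕ} : (mbr i j k e r).length = k := by
  unfold mbr
  rw [List.length_map, List.length_range]

private lemma mbs_sub {i j k : ℕ} {S : Finset ℕ} : ∀ A ∈ mbs i j k S, A ⊆ (range j).erase i := by
  intro A hA
  unfold mbs at hA
  split_ifs at hA
  · rw [List.mem_singleton] at hA
    rw [hA]
    exact sdiff_subset
  · rcases List.mem_cons.1 hA with h | h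
    · rw [h]
    · rw [List.eq_of_mem_replicate h]
      exact sdiff_subset

private lemma mbr_sub {i j k e r : ℕ} : ∀ A ∈ mbr i j k e r, A ⊆ (range j).erase i := by
  intro A hA
  unfold mbr at hA
  obtain ⟨s, _, rfl⟩ := List.mem_map.1 hA
  exact sdiff_subset

/-- The first member of `mbr` does not vanish on the block `0`. -/
private lemma mbr_head {i j k e r : ℕ} (he : 2 ≤ e) (hk : 1 ≤ k) (hr : 1 ≤ r) (hri : r ≤ i)
    (hij : i < j) : (mbr i j k e r).headD ∅ ≠ (range j).erase i ∧
      (mbr i j k e r).headD ∅ ∈ mbr i j k e r := by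
  obtain ⟨k', rfl⟩ : ∃ k', k = k' + 1 := ⟨k - 1, by omega⟩
  have h1 : mbr i j (k' + 1) e r = ((range j).erase i \
      (Ico (0 * (e - 1)) ((0 + 1) * (e - 1)) ∩ range r)) ::
        ((List.range k').map Nat.succ).map fun s => (range j).erase i \
          (Ico (s * (e - 1)) ((s + 1) * (e - 1)) ∩ range r) := by
    unfold mbr
    rw [List.range_succ_eq_map, List.map_cons]
  rw [h1, List.headD_cons]
  refine ⟨fun h2 => ?_, List.mem_cons_self⟩
  have h3 : (0 : ℕ) ∈ (range j).erase i := mem_erase.2 ⟨by omega, mem_range.2 (by omega)⟩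
  rw [← h2, mem_sdiff] at h3
  refine h3.2 (mem_inter.2 ⟨mem_Ico.2 ⟨by simp, by omega⟩, mem_range.2 (by omega)⟩)

/-- The shape of a cluster of the class. -/
private lemma shape (he : 2 ≤ P.e) (hed : P.e < P.d) (h : Cls P P.J n ms) {k : Kd} (hk : k ∈ ms) :
    (∃ x A, k = .ord x A) ∨ ∃ i < P.J, ∃ dl As, k = .cl P.e dl i As ∧
      (∀ A ∈ As, A ⊆ (range P.J).erase i) ∧ 1 ≤ As.length ∧ As.length ≤ P.d ∧
      (2 ≤ As.length ∧ As.headD ∅ = (range P.J).erase i ∨
        dl ≠ 0 ∧ (As.headD ∅ = (range P.J).erase i ∨ As.length = 1 ∧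
          (range P.J \ As.headD ∅).card ≤ P.e - 1) ∨
        As.headD ∅ ≠ (range P.J).erase i ∧
          (range P.J \ As.getD (As.length - 1) ∅).card ≤ P.e - 1) := by
  rcases h.mem k hk with ⟨x, A, rfl, _⟩ | ⟨i, hi, τ, hτ, rfl⟩
  · exact Or.inl ⟨x, A, rfl⟩
  · right
    have hJ : P.J = P.d - P.e := rfl
    refine ⟨i, hi, ?_⟩
    cases τ with
    | pl k S =>
      obtain ⟨h1, h2, h3, h4⟩ := hτ
      have h5 : (P.d - i - 1) / (P.e - 1) ≤ P.d - i - 1 := Nat.div_le_self _ _
      refine ⟨0, mbs i P.J k S, rfl, mbs_sub, ?_, ?_, Or.inl ⟨?_, ?_⟩⟩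
      · rw [mbs_len (by omega)]
        omega
      · rw [mbs_len (by omega)]
        omega
      · rw [mbs_len (by omega)]
        omega
      · unfold mbs
        rw [if_neg (by omega)]
        rfl
    | b0 S =>
      obtain ⟨h1, h3, h4⟩ := hτ
      have h5 : (P.d - i - 1) / (P.e - 1) ≤ P.d - i - 1 := Nat.div_le_self _ _
      have h6 : 1 ≤ (P.d - i - 1) / (P.e - 1) := by
        rw [Nat.one_le_div_iff (by omega)]
        omega
      refine ⟨_, _, rfl, mbs_sub, ?_, ?_, Or.inr (Or.inl ⟨h1, ?_⟩)⟩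
      · rw [mbs_len h6]
        exact h6
      · rw [mbs_len h6]
        omega
      · unfold mbs
        split_ifs with h7
        · right
          refine ⟨rfl, ?_⟩
          rw [List.headD_cons]
          have h8 : range P.J \ ((range P.J).erase i \ S) ⊆ insert i S := by
            intro x hx
            rw [mem_sdiff, mem_sdiff, mem_erase] at hx
            rw [mem_insert]
            by_cases h1 : x = i
            · exact Or.inl h1
            · right
              by_contra h2
              exact hx.2 ⟨⟨h1, hx.1⟩, h2⟩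
          have h9 := card_le_card h8
          have h10 := card_insert_le i S
          omega
        · left
          rfl
    | br r =>
      obtain ⟨h1, h2⟩ := hτ
      have h5 : (P.d - i + r - 1) / (P.e - 1) ≤ P.d - i + r - 1 := Nat.div_le_self _ _
      have h6 : 1 ≤ (P.d - i + r - 1) / (P.e - 1) := by
        rw [Nat.one_le_div_iff (by omega)]
        omega
      refine ⟨_, _, rfl, mbr_sub, ?_, ?_, Or.inr (Or.inr ⟨?_, ?_⟩)⟩
      · rw [mbr_len]
        exact h6
      · rw [mbr_len]
        omega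
      · exact (mbr_head he h6 h1 h2 hi).1
      · rw [mbr_len]
        generalize hK : (P.d - i + r - 1) / (P.e - 1) = K at h5 h6
        have h7 : (mbr i P.J K P.e r).getD (K - 1) ∅ = (range P.J).erase i \
            (Ico ((K - 1) * (P.e - 1)) (((K - 1) + 1) * (P.e - 1)) ∩ range r) := by
          rw [List.getD_eq_getElem _ ∅ (by rw [mbr_len]; omega)]
          unfold mbr
          rw [List.getElem_map, List.getElem_range]
        rw [h7]
        have h8 : range P.J \ ((range P.J).erase i \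
            (Ico ((K - 1) * (P.e - 1)) (((K - 1) + 1) * (P.e - 1)) ∩ range r)) ⊆
              insert i (Ico ((K - 1) * (P.e - 1)) r) := by
          intro x hx
          rw [mem_sdiff, mem_sdiff, mem_erase] at hx
          rw [mem_insert]
          by_cases h1 : x = i
          · exact Or.inl h1
          · right
            by_contra h2
            refine hx.2 ⟨⟨h1, hx.1⟩, fun h3 => h2 ?_⟩
            obtain ⟨h4, h5⟩ := mem_inter.1 h3
            exact mem_Ico.2 ⟨(mem_Ico.1 h4).1, mem_range.1 h5⟩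
        have h9 := card_le_card h8
        have h10 := card_insert_le i (Ico ((K - 1) * (P.e - 1)) r)
        rw [Nat.card_Ico] at h10
        have h11 : P.d - i + r - 1 < (K + 1) * (P.e - 1) := by
          rw [← hK, mul_comm]
          exact Nat.lt_mul_div_succ _ (by omega)
        have h12 : (K + 1) * (P.e - 1) = (K - 1) * (P.e - 1) + 2 * (P.e - 1) := by
          obtain ⟨K', rfl⟩ : ∃ K', K = K' + 1 := ⟨K - 1, by omega⟩
          rw [Nat.add_sub_cancel]
          ring
        omega

theorem nm_le (he : 2 ≤ P.e) (hed : P.e < P.d) (h : Cls P P.J n ms) {k : Kd} (hk : k ∈ ms) :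
    k.nm ≤ P.d := by
  rcases shape he hed h hk with ⟨x, A, rfl⟩ | ⟨i, hi, dl, As, rfl, _, _, h1, _⟩
  · change 1 ≤ P.d
    omega
  · exact h1

theorem cl_blk (he : 2 ≤ P.e) (hed : P.e < P.d) (h : Cls P P.J n ms) {k : Kd} (hk : k ∈ ms)
    (hc : IsCl k) : cb k < P.J ∧ k.ex = P.e ∧ ∀ x < k.nm, cb k ∉ mA k x ∧ mA k x ⊆ range P.J := by
  rcases shape he hed h hk with ⟨x, A, rfl⟩ | ⟨i, hi, dl, As, rfl, h1, _, _, _⟩
  · exact hc.elim
  · refine ⟨hi, rfl, fun x hx => ?_⟩
    have h2 := h1 _ (getD_mem hx)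
    exact ⟨fun h3 => (mem_erase.1 (h2 h3)).1 rfl, h2.trans (erase_subset _ _)⟩

theorem pur_mem (he : 2 ≤ P.e) (hed : P.e < P.d) (h : Cls P P.J n ms) {k : Kd} (hk : k ∈ ms)
    (hp : Pur P.J k) : IsCl k ∧ 2 ≤ k.nm ∧ ∀ x < k.nm, Usb P.J k x ∧ mA k x = (range P.J).erase (cb k) := by
  rcases shape he hed h hk with ⟨x, A, rfl⟩ | ⟨i, hi, dl, As, rfl, h1, h2, _, h3⟩
  · exact hp.elim
  · refine ⟨trivial, ?_, fun x hx => ⟨⟨hx, Or.inl hp⟩, hp.2 _ (getD_mem hx)⟩⟩
    rcases h3 with h3 | h3 | h3
    · exact h3.1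
    · exact absurd hp.1 h3.1
    · refine absurd (hp.2 _ ?_) h3.1
      cases As with
      | nil => exact absurd h2 (by simp)
      | cons A As => exact List.mem_cons_self

/-- A member which is not usable. -/
theorem absorb (he : 2 ≤ P.e) (hed : P.e < P.d) (h : Cls P P.J n ms) {k : Kd} (hk : k ∈ ms)
    (hc : IsCl k) (hp : ¬ Pur P.J k) : ∃ x < k.nm, ¬ Usb P.J k x := by
  rcases shape he hed h hk with ⟨x, A, rfl⟩ | ⟨i, hi, dl, As, rfl, h1, h2, _, h3⟩
  · exact hc.elim
  · have h4 : As.getD 0 ∅ = As.headD ∅ := by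
      cases As <;> rfl
    have h5 : (range P.J \ (range P.J).erase i).card ≤ 1 := by
      have h6 : range P.J \ (range P.J).erase i ⊆ {i} := by
        intro x hx
        rw [mem_sdiff, mem_erase] at hx
        rw [mem_singleton]
        by_contra h1
        exact hx.2 ⟨h1, hx.1⟩
      have h7 := card_le_card h6
      rwa [card_singleton] at h7
    rcases h3 with h3 | h3 | h3
    · refine ⟨0, h2, ?_⟩
      rintro ⟨_, h6 | h6 | h6⟩
      · exact hp h6
      · rw [h4, h3.2] at h6
        omega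
      · exact h6.2.2 (by rw [h4, h3.2])
    · refine ⟨0, h2, ?_⟩
      rintro ⟨_, h6 | h6 | h6⟩
      · exact hp h6
      · rw [h4] at h6
        rcases h3.2 with h7 | h7
        · rw [h7] at h6
          omega
        · omega
      · exact h3.1 h6.1
    · refine ⟨As.length - 1, Nat.sub_lt h2 one_pos, ?_⟩
      rintro ⟨_, h6 | h6 | h6⟩
      · exact hp h6
      · omega
      · exact h3.1 h6.2.1

/-- Realization of the points of an object. -/
theorem pt_real {ν : Type} [Fintype ν] [DecidableEq ν] {d : ℕ} (β : ν → ℕ) (k : Kd)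
    (hk : k.nm ≤ d + 1) (t : Fin (d + 1) → ν → ℂ)
    (h1 : ∀ x : Fin (d + 1), x.1 < k.nm → ∀ s, β s ∈ mA k x → t x s = 0)
    (h2 : IsCl k → (∀ x < k.nm, cb k ∉ mA k x) ∧
      ∀ s, β s = cb k → ∑ x : Fin (d + 1), (if x.1 < k.nm then t x s else 0) = 0) :
    ∃ q : ν × Fin (d + 1) → ℂ, ∀ x : Fin (d + 1), x.1 < k.nm → pt β k x q = t x := by
  refine ⟨fun y => t y.2 y.1, fun x hx => ?_⟩
  cases k with
  | ord e A =>
    have hx0 : x = 0 := Fin.ext (by
      change x.1 < 1 at hx
      rw [Fin.val_zero]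
      omega)
    subst hx0
    funext s
    change (if β s ∈ A then 0 else t 0 s) = t 0 s
    split_ifs with h3
    · exact (h1 0 hx s h3).symm
    · rfl
  | cl e dl i As =>
    funext s
    change (if β s ∈ As.getD x ∅ then 0 else (if β s = i ∧ x.1 + 1 = As.length then
        - ∑ y : Fin (d + 1), (if y.1 + 1 < As.length then t y s else 0)
      else t x s)) = t x s
    split_ifs with h3 h4
    · exact (h1 x hx s h3).symm
    · have h5 := (h2 trivial).2 s h4.1
      change ∑ x : Fin (d + 1), (if x.1 < As.length then t x s else 0) = 0 at h5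
      have h6 : ∀ y : Fin (d + 1), (if y.1 < As.length then t y s else 0) =
          (if y.1 + 1 < As.length then t y s else 0) + (if y = x then t y s else 0) := by
        intro y
        by_cases h7 : y = x
        · subst h7
          have h9 : y.1 < As.length := hx
          rw [if_pos h9, if_neg (by omega), if_pos rfl, zero_add]
        · have h8 : y.1 ≠ x.1 := fun h9 => h7 (Fin.ext h9)
          rw [if_neg h7, add_zero]
          by_cases h9 : y.1 + 1 < As.length
          · rw [if_pos h9, if_pos (by omega)]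
          · rw [if_neg h9, if_neg (by omega)]
      rw [sum_congr rfl fun y _ => h6 y, sum_add_distrib, sum_ite_eq' univ x, if_pos (mem_univ x)]
        at h5
      rw [neg_eq_iff_add_eq_zero]
      exact h5
    · rfl

end Pool.Agent.GD.BE

end
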