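import Pool.Agent.H94.LP7.GD.BE.Box
import Pool.Agent.H94.LP7.GD.VT.Main
import Pool.Agent.H94.LP7.M30
import Pool.Agent.H94.LP7.M59

/-! The parts of this file: GD.N.DCls, GD.VT.Exf_1, GD.BE.Vb, GD.BE.NumA. -/

section

/-!
# General d, numerical block: the configurations of the step are in the classes

PROOF.  `ms'` (level `j + 1`, the same `n`), kind `(x, A)`, `K = range (j + 1) \ A`:
* `j ∈ A`, `B = A.erase j`: `K = range j \ B`, `npt ms' x A = npt ms x B - T x B` (`Res.on`): `win` by `GT.res` (`bet (j + 1) ≤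
  eps (j + 1)`), `zero` by `GT.zero` (`T = 0`) and `Cls.zero`;
* `j ∉ A`: `K = insert j (range j \ A)`, `npt ms' x A = T x A` (`Res.off`): `win` by `GT.off` resp. `Dat.tuw` for `(e, range j)`,
  `zero` by `GT.one`.
`mem`: `Res.mem'`; an ordinary point `(x, A)` with `j ∉ A` has `T x A ≠ 0`, so `w ≥ 1` (`GT.zero`).
`cnt`: `i = j`: `Res.cNew`, `Dat.nw`, `M₀ ≤ M` (only `S = ∅`); `i < j`: `j ∉ S`: `Res.cOn`; `j ∈ S`: `Res.cPl`, `Res.cB0`,
`mv_cl` (`oc ≤ mm * d * c j * n ^ (w - 1)`), `mm` of `insert j S` is `mm * d * c j`.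
`A` (level `j`, `n - c j`): `npt A x B = npt ms x B - T x B + np x B` (`Res.nA`), `np x B ≤ ∑ nw ≤ θ n ^ (w - 1)` for `n` large and
`np = 0` unless `|K| + e < x` (`E_new`: so `kap x = 0`, `w ≥ e + 1`): `GT.win`, `GT.room`; `zero`: `T = 0`, `np = 0`.
`mem`: `Res.memA`, `pts_kd`, `E_new`.  `cnt`: `Res.cA` and the formula for `oc`.
-/

set_option autoImplicit false

namespace Pool.Agent.GD

open Finset

private lemma ord_mem {P : Par} {j n : ℕ} {ms : Multiset Kd} (h : Cls P j n ms) {x : ℕ}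
    {B : Finset ℕ} (hB : Kd.ord x B ∈ ms) :
    2 ≤ x ∧ x < P.d ∧ B ⊆ range j ∧ (range j \ B).card ≤ x := by
  rcases h.mem _ hB with ⟨x', A', he, h1, h2, h3, h4⟩ | ⟨i, _, τ, _, he⟩
  · injection he with e1 e2
    subst e1 e2
    exact ⟨h1, h2, h3, h4⟩
  · cases τ <;> simp [CT.kd] at he

private lemma npt_of_mem {ms : Multiset Kd} {x : ℕ} {B : Finset ℕ} (hB : Kd.ord x B ∈ ms) :
    npt ms x B ≠ 0 := by
  unfold npt
  rw [Multiset.count_ne_zero, Multiset.mem_bind]
  exact ⟨_, hB, Multiset.mem_singleton_self _⟩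

private lemma npt_mem {P : Par} (h2 : 2 ≤ P.e) (hed : P.e < P.d) {j n : ℕ} {ms : Multiset Kd}
    (h : Cls P j n ms) {x : ℕ} {B : Finset ℕ} (hx : npt ms x B ≠ 0) :
    2 ≤ x ∧ x < P.d ∧ B ⊆ range j ∧ (range j \ B).card ≤ x := by
  unfold npt at hx
  rw [Multiset.count_ne_zero, Multiset.mem_bind] at hx
  obtain ⟨k, hk, hk'⟩ := hx
  rcases h.mem k hk with ⟨x', A', rfl, h3, h4, h5, h6⟩ | ⟨i, hi, τ, hτ, rfl⟩
  · have h7 : (x, B) = (x', A') := Multiset.mem_singleton.1 hk'
    obtain ⟨rfl, rfl⟩ := Prod.mk.inj h7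
    exact ⟨h3, h4, h5, h6⟩
  · obtain ⟨h3, h4, h5⟩ := pts_kd h2 hi hτ _ hk'
    simp only at h3 h4 h5
    subst h3
    exact ⟨h2, hed, h4.trans (erase_subset _ _), h5⟩

/-! Sets. -/

private lemma sd_on {j : ℕ} {A : Finset ℕ} (hA : A ⊆ range (j + 1)) (hj : j ∈ A) :
    A = insert j (A.erase j) ∧ A.erase j ⊆ range j ∧ range (j + 1) \ A = range j \ A.erase j := by
  refine ⟨(insert_erase hj).symm, ?_, ?_⟩
  · intro x hx
    obtain ⟨h1, h2⟩ := mem_erase.1 hx
    have := mem_range.1 (hA h2)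
    exact mem_range.2 (by omega)
  · ext x
    rw [mem_sdiff, mem_sdiff, mem_range, mem_range, mem_erase]
    constructor
    · rintro ⟨h1, h2⟩
      have h3 : x ≠ j := by rintro rfl; exact h2 hj
      exact ⟨by omega, fun h => h2 h.2⟩
    · rintro ⟨h1, h2⟩
      exact ⟨by omega, fun h => h2 ⟨by omega, h⟩⟩

private lemma sd_off {j : ℕ} {A : Finset ℕ} (hA : A ⊆ range (j + 1)) (hj : j ∉ A) :
    A ⊆ range j ∧ range (j + 1) \ A = insert j (range j \ A) ∧
      (insert j (range j \ A)).card = (range j \ A).card + 1 := by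
  refine ⟨?_, ?_, ?_⟩
  · intro x hx
    have h1 := mem_range.1 (hA hx)
    have h3 : x ≠ j := by rintro rfl; exact hj hx
    exact mem_range.2 (by omega)
  · ext x
    rw [mem_sdiff, mem_insert, mem_sdiff, mem_range, mem_range]
    constructor
    · rintro ⟨h1, h2⟩
      by_cases h3 : x = j
      · exact Or.inl h3
      · exact Or.inr ⟨by omega, h2⟩
    · rintro (rfl | ⟨h1, h2⟩)
      · exact ⟨by omega, hj⟩
      · exact ⟨by omega, h2⟩
  · rw [card_insert_of_notMem]
    rw [mem_sdiff, mem_range]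
    omega

/-- The numbers of the clusters. -/
private lemma pow_le (n c w : ℕ) : n ^ (w + 1) ≤ (n - c) ^ (w + 1) + (w + 1) * c * n ^ w := by
  induction w with
  | zero =>
    simp only [zero_add, pow_one, pow_zero, mul_one, one_mul]
    omega
  | succ w ih =>
    have h1 : n ≤ (n - c) + c := by omega
    have h2 : n - c ≤ n := Nat.sub_le _ _
    calc n ^ (w + 1 + 1) = n * n ^ (w + 1) := by ring
      _ ≤ ((n - c) + c) * n ^ (w + 1) := Nat.mul_le_mul_right _ h1
      _ = (n - c) * n ^ (w + 1) + c * n ^ (w + 1) := by ring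
      _ ≤ (n - c) * ((n - c) ^ (w + 1) + (w + 1) * c * n ^ w) + c * n ^ (w + 1) :=
        Nat.add_le_add_right (Nat.mul_le_mul_left _ ih) _
      _ = (n - c) ^ (w + 1 + 1) + (n - c) * ((w + 1) * c * n ^ w) + c * n ^ (w + 1) := by ring
      _ ≤ (n - c) ^ (w + 1 + 1) + n * ((w + 1) * c * n ^ w) + c * n ^ (w + 1) :=
        Nat.add_le_add_right (Nat.add_le_add_left (Nat.mul_le_mul_right _ h2) _) _
      _ = (n - c) ^ (w + 1 + 1) + (w + 1 + 1) * c * n ^ (w + 1) := by ring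

private lemma oc_le {m n c w d N : ℕ} (hw : w + 1 ≤ d) (hN : N ≤ m * n ^ (w + 1)) :
    N - m * (n - c) ^ (w + 1) ≤ m * (d * c) * n ^ w := by
  have h1 := Nat.mul_le_mul_left m (pow_le n c w)
  have h2 : m * ((n - c) ^ (w + 1) + (w + 1) * c * n ^ w) =
      m * (n - c) ^ (w + 1) + m * ((w + 1) * c) * n ^ w := by ring
  have h3 : m * ((w + 1) * c) * n ^ w ≤ m * (d * c) * n ^ w :=
    Nat.mul_le_mul_right _ (Nat.mul_le_mul_left _ (Nat.mul_le_mul_right _ hw))
  omega

section up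

variable {P : Par} {M₀ j n : ℕ} {θ : ℝ} {ms ms' A₀ : Multiset Kd} {s : Stp}

private lemma mem_up (h2 : 2 ≤ P.e) (h : Cls P j n ms) (D : P.Dat j n θ M₀ ms s)
    (R : s.Res P.d P.e j ms ms' A₀) :
    ∀ k ∈ ms', (∃ x A, k = .ord x A ∧ 2 ≤ x ∧ x < P.d ∧ A ⊆ range (j + 1) ∧
      (range (j + 1) \ A).card ≤ x) ∨
      ∃ i < j + 1, ∃ τ : CT, τ.Ok P.d P.e i (j + 1) ∧ k = τ.kd P.d P.e i (j + 1) := by
  intro k hk
  rcases R.mem' k hk with ⟨x, B, rfl, hB⟩ | hcl
  · left
    obtain ⟨hx2, hxd, hBs, hc⟩ := ord_mem h hB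
    have hBB : B ⊆ range (j + 1) := by
      intro y hy
      by_cases hyj : y = j
      · rw [hyj]
        exact self_mem_range_succ j
      · have h3 := mem_range.1 (hBs (mem_erase.2 ⟨hyj, hy⟩))
        exact mem_range.2 (by omega)
    refine ⟨x, B, rfl, hx2, hxd, hBB, ?_⟩
    by_cases hjB : j ∈ B
    · rw [(sd_on hBB hjB).2.2]
      exact hc
    · obtain ⟨h3, h4, h5⟩ := sd_off hBB hjB
      rw [h4, h5]
      rw [erase_eq_of_notMem hjB] at hc
      by_contra hlt
      have hcx : (range j \ B).card = x := by omega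
      have hT : s.T x B = 0 := by
        refine (D.gt x B hx2 hxd h3 hc ?_).zero hcx
        by_contra hcon
        push Not at hcon
        rw [hcon.2, sdiff_self] at hcx
        simp at hcx
        omega
      exact npt_of_mem hk (by rw [R.off x B h3, hT])
  · exact Or.inr hcl

private lemma win_up (h2 : 2 ≤ P.e) (f : ℕ → ℝ) (hf : P.bet (j + 1) ≤ f (j + 1))
    (D : P.Dat j n θ M₀ ms s) (R : s.Res P.d P.e j ms ms' A₀)
    (htu : |(s.T P.e (range j) : ℝ) - P.kap P.e * P.e * P.c j * (n : ℝ) ^ (P.e - 1)| ≤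
      f (j + 1) * P.c j * (n : ℝ) ^ (P.e - 1)) :
    ∀ x A, 2 ≤ x → x < P.d → A ⊆ range (j + 1) → (range (j + 1) \ A).card < x →
      (x ≠ P.e ∨ A ≠ range (j + 1)) →
      |(npt ms' x A : ℝ) - P.nat x (range (j + 1) \ A) * P.cc (range (j + 1) \ A) *
        (n : ℝ) ^ (x - (range (j + 1) \ A).card)| ≤
      f (j + 1) * P.cc (range (j + 1) \ A) * (n : ℝ) ^ (x - (range (j + 1) \ A).card) := by
  intro x A hx2 hxd hA hc hne
  by_cases hjA : j ∈ A
  · obtain ⟨h3, h4, h5⟩ := sd_on hA hjA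
    have hne' : x ≠ P.e ∨ A.erase j ≠ range j := by
      rcases hne with h6 | h6
      · exact Or.inl h6
      · right
        intro h7
        apply h6
        rw [h3, h7, range_add_one]
    rw [h5] at hc ⊢
    have hG := D.gt x (A.erase j) hx2 hxd h4 hc.le hne'
    have h6 := R.on x (A.erase j) h4
    rw [← h3] at h6
    have h7 : npt ms' x A = npt ms x (A.erase j) - s.T x (A.erase j) := by omega
    rw [h7]
    refine (hG.res hc).trans ?_
    refine mul_le_mul_of_nonneg_right (mul_le_mul_of_nonneg_right hf (Nat.cast_nonneg _)) ?_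
    positivity
  · obtain ⟨h3, h4, h5⟩ := sd_off hA hjA
    rw [h4] at hc ⊢
    rw [h5] at hc ⊢
    rw [R.off x A h3]
    by_cases hm : x = P.e ∧ A = range j
    · obtain ⟨rfl, rfl⟩ := hm
      rw [sdiff_self]
      have h6 : P.nat P.e (insert j ∅) = P.kap P.e * P.e := by
        unfold Par.nat
        rw [card_insert_of_notMem (notMem_empty j), card_empty, zero_add, Nat.descFactorial_one]
      have h7 : P.cc (insert j ∅) = P.c j := by
        unfold Par.cc
        rw [insert_empty_eq, prod_singleton]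
      have h8 : (⊥ : Finset ℕ) = ∅ := rfl
      rw [h8, h6, h7, card_empty, zero_add]
      exact htu
    · have hne' : x ≠ P.e ∨ A ≠ range j := by
        by_contra hcon
        push Not at hcon
        exact hm hcon
      have hG := D.gt x A hx2 hxd h3 (by omega) hne'
      have h6 : x - ((range j \ A).card + 1) = x - (range j \ A).card - 1 := by omega
      rw [h6]
      refine (hG.off (by omega)).trans ?_
      refine mul_le_mul_of_nonneg_right (mul_le_mul_of_nonneg_right hf (Nat.cast_nonneg _)) ?_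
      positivity

private lemma zero_up (h2 : 2 ≤ P.e) (h : Cls P j n ms) (D : P.Dat j n θ M₀ ms s)
    (R : s.Res P.d P.e j ms ms' A₀) :
    ∀ x A, 2 ≤ x → x < P.d → A ⊆ range (j + 1) → (range (j + 1) \ A).card = x →
    (npt ms' x A : ℚ) = P.xp x (range (j + 1) \ A) * P.cc (range (j + 1) \ A) ∨
      (npt ms' x A : ℚ) = P.xm x (range (j + 1) \ A) * P.cc (range (j + 1) \ A) := by
  intro x A hx2 hxd hA hc
  by_cases hjA : j ∈ A
  · obtain ⟨h3, h4, h5⟩ := sd_on hA hjA
    rw [h5] at hc ⊢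
    have hne' : x ≠ P.e ∨ A.erase j ≠ range j := by
      right
      intro h6
      rw [h6, sdiff_self] at hc
      simp at hc
      omega
    have hG := D.gt x (A.erase j) hx2 hxd h4 hc.le hne'
    have h6 := R.on x (A.erase j) h4
    rw [← h3, hG.zero hc, add_zero] at h6
    rw [h6]
    exact h.zero x (A.erase j) hx2 hxd h4 hc
  · obtain ⟨h3, h4, h5⟩ := sd_off hA hjA
    rw [h4] at hc ⊢
    rw [h5] at hc
    rw [R.off x A h3]
    have hne' : x ≠ P.e ∨ A ≠ range j := by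
      right
      intro h6
      rw [h6, sdiff_self] at hc
      simp at hc
      omega
    exact (D.gt x A hx2 hxd h3 (by omega) hne').one hc

private lemma nwB_le (h2 : 2 ≤ P.e) (hM : M₀ ≤ P.M) {τ : CT} (hτ : τ.Ok P.d P.e j (j + 1)) :
    nwB P.e P.c M₀ n τ ≤ τ.mm P * n ^ τ.w P.e := by
  cases τ with
  | pl k S =>
    obtain ⟨_, _, h3, _⟩ := hτ
    have hS : S = ∅ := by
      rw [Ico_self] at h3
      exact subset_empty.1 h3
    subst hS
    change M₀ * n ^ (P.e - 1) ≤ P.M * P.d ^ (∅ : Finset ℕ).card * P.cc ∅ *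
      n ^ (P.e - 1 - (∅ : Finset ℕ).card)
    have h4 : P.cc ∅ = 1 := by unfold Par.cc; exact prod_empty
    rw [card_empty, pow_zero, mul_one, h4, mul_one, Nat.sub_zero]
    exact Nat.mul_le_mul_right _ hM
  | b0 S =>
    obtain ⟨_, h3, _⟩ := hτ
    have hS : S = ∅ := by
      rw [Ico_self] at h3
      exact subset_empty.1 h3
    subst hS
    change M₀ * n ^ (P.e - 2) ≤ P.M * P.d ^ (∅ : Finset ℕ).card * P.cc ∅ *
      n ^ (P.e - 2 - (∅ : Finset ℕ).card)
    have h4 : P.cc ∅ = 1 := by unfold Par.cc; exact prod_empty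
    rw [card_empty, pow_zero, mul_one, h4, mul_one, Nat.sub_zero]
    exact Nat.mul_le_mul_right _ hM
  | br r =>
    change M₀ * P.c (r - 1) ≤ P.M * P.c (r - 1) * n ^ 0
    rw [pow_zero, mul_one]
    exact Nat.mul_le_mul_right _ hM

private lemma cc_insert {S : Finset ℕ} {j : ℕ} (hj : j ∉ S) :
    P.cc (insert j S) = P.c j * P.cc S := by
  unfold Par.cc
  exact prod_insert hj

private lemma sub_of {i j : ℕ} {S : Finset ℕ} (hS : S ⊆ Ico (i + 1) (j + 1)) :
    S.erase j ⊆ Ico (i + 1) j := by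
  intro x hx
  obtain ⟨h1, h2⟩ := mem_erase.1 hx
  have := mem_Ico.1 (hS h2)
  exact mem_Ico.2 ⟨this.1, by omega⟩

private lemma cnt_up (h2 : 2 ≤ P.e) (hed : P.e < P.d) (hM : M₀ ≤ P.M) (h : Cls P j n ms)
    (D : P.Dat j n θ M₀ ms s) (R : s.Res P.d P.e j ms ms' A₀) :
    ∀ i < j + 1, ∀ τ : CT, τ.Ok P.d P.e i (j + 1) →
      ms'.count (τ.kd P.d P.e i (j + 1)) ≤ τ.mm P * n ^ τ.w P.e := by
  intro i hi τ hτ
  rcases Nat.lt_succ_iff_lt_or_eq.1 hi with hij | rfl
  swap
  · rw [R.cNew τ hτ]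
    exact (D.nw τ ((mem_newT h2).2 hτ)).trans (nwB_le h2 hM hτ)
  have hon : ∀ τ' : CT, τ'.Ok P.d P.e i j →
      ms'.count (τ'.kd P.d P.e i (j + 1)) ≤ τ'.mm P * n ^ τ'.w P.e := by
    intro τ' hτ'
    have h3 := R.cOn i hij τ' hτ'
    have h4 := h.cnt i hij τ' hτ'
    omega
  cases τ with
  | pl k S =>
    obtain ⟨h3, h4, h5, h6⟩ := hτ
    by_cases hj : j ∈ S
    · have h7 : insert j (S.erase j) = S := insert_erase hj
      have h8 : (S.erase j).card + 1 = S.card := card_erase_add_one hj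
      have h9 : (CT.pl k (S.erase j)).Ok P.d P.e i j := ⟨h3, h4, sub_of h5, by omega⟩
      have h10 := R.cPl i hij k (S.erase j) h9 (by omega)
      rw [h7] at h10
      rw [h10, D.oc i _]
      have h11 := h.cnt i hij _ h9
      have h12 : (CT.pl k (S.erase j)).w P.e = (P.e - 1 - S.card) + 1 := by
        change P.e - 1 - (S.erase j).card = _
        omega
      rw [h12] at h11 ⊢
      refine (oc_le (d := P.d) (c := P.c j) (by omega) h11).trans (le_of_eq ?_)
      change P.M * P.d ^ (S.erase j).card * P.cc (S.erase j) * (P.d * P.c j) *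
        n ^ (P.e - 1 - S.card) = P.M * P.d ^ S.card * P.cc S * n ^ (P.e - 1 - S.card)
      have h13 : P.cc S = P.c j * P.cc (S.erase j) := by
        rw [← cc_insert (notMem_erase j S), h7]
      rw [h13, ← h8, pow_succ]
      ring
    · refine hon _ ⟨h3, h4, ?_, h6⟩
      rw [← erase_eq_of_notMem hj]
      exact sub_of h5
  | b0 S =>
    obtain ⟨h3, h5, h6⟩ := hτ
    by_cases hj : j ∈ S
    · have h7 : insert j (S.erase j) = S := insert_erase hj
      have h8 : (S.erase j).card + 1 = S.card := card_erase_add_one hj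
      have h9 : (CT.b0 (S.erase j)).Ok P.d P.e i j := ⟨h3, sub_of h5, by omega⟩
      have h10 := R.cB0 i hij (S.erase j) h9 (by omega)
      rw [h7] at h10
      rw [h10, D.oc i _]
      have h11 := h.cnt i hij _ h9
      have h12 : (CT.b0 (S.erase j)).w P.e = (P.e - 2 - S.card) + 1 := by
        change P.e - 2 - (S.erase j).card = _
        omega
      rw [h12] at h11 ⊢
      refine (oc_le (d := P.d) (c := P.c j) (by omega) h11).trans (le_of_eq ?_)
      change P.M * P.d ^ (S.erase j).card * P.cc (S.erase j) * (P.d * P.c j) *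
        n ^ (P.e - 2 - S.card) = P.M * P.d ^ S.card * P.cc S * n ^ (P.e - 2 - S.card)
      have h13 : P.cc S = P.c j * P.cc (S.erase j) := by
        rw [← cc_insert (notMem_erase j S), h7]
      rw [h13, ← h8, pow_succ]
      ring
    · refine hon _ ⟨h3, ?_, h6⟩
      rw [← erase_eq_of_notMem hj]
      exact sub_of h5
  | br r => exact hon _ hτ

private lemma cls_up (h2 : 2 ≤ P.e) (hed : P.e < P.d) (hM : M₀ ≤ P.M) (f : ℕ → ℝ)
    (hf : P.bet (j + 1) ≤ f (j + 1)) (h : Cls P j n ms) (D : P.Dat j n θ M₀ ms s)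
    (R : s.Res P.d P.e j ms ms' A₀)
    (htu : |(s.T P.e (range j) : ℝ) - P.kap P.e * P.e * P.c j * (n : ℝ) ^ (P.e - 1)| ≤
      f (j + 1) * P.c j * (n : ℝ) ^ (P.e - 1)) : Cls { P with eps := f } (j + 1) n ms' where
  mem := mem_up (P := P) h2 h D R
  win := win_up (P := P) h2 f hf D R htu
  zero := zero_up (P := P) h2 h D R
  cnt := by
    intro i hi τ hτ
    have h3 := cnt_up h2 hed hM h D R i hi τ hτ
    cases τ <;> exact h3

/-! The trace. -/

private lemma np_ne {x : ℕ} {B : Finset ℕ}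
    (hx : s.np P.d P.e j x B ≠ 0) :
    x ≠ P.d ∧ ∃ τ ∈ newT P.d P.e j, τ.E P.d P.e j = x ∧ τ.A j = B := by
  unfold Stp.np at hx
  split_ifs at hx with hxd
  · exact absurd rfl hx
  · refine ⟨hxd, ?_⟩
    by_contra hcon
    push Not at hcon
    apply hx
    refine sum_eq_zero fun τ hτ => ?_
    rw [if_neg]
    rintro ⟨h3, h4⟩
    exact hcon τ hτ h3 h4

private lemma np_bd (h2 : 2 ≤ P.e) (hn : 1 ≤ n) (D : P.Dat j n θ M₀ ms s) (x : ℕ) (B : Finset ℕ) :
    s.np P.d P.e j x B ≤ (newT P.d P.e j).card * (M₀ * (1 + ∑ i ∈ range j, P.c i)) *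
      n ^ (P.e - 1) := by
  have hn1 : 1 ≤ n ^ (P.e - 1) := Nat.one_le_pow _ _ hn
  have h3 : ∀ τ ∈ newT P.d P.e j, s.nw τ ≤ (M₀ * (1 + ∑ i ∈ range j, P.c i)) * n ^ (P.e - 1) := by
    intro τ hτ
    refine (D.nw τ hτ).trans ?_
    have hτ' := (mem_newT h2).1 hτ
    have h4 : M₀ ≤ M₀ * (1 + ∑ i ∈ range j, P.c i) := Nat.le_mul_of_pos_right _ (by omega)
    cases τ with
    | pl k S => exact Nat.mul_le_mul_right _ h4
    | b0 S =>
      refine Nat.mul_le_mul h4 (Nat.pow_le_pow_right hn ?_)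
      omega
    | br r =>
      obtain ⟨h5, h6⟩ := hτ'
      have h7 : P.c (r - 1) ≤ ∑ i ∈ range j, P.c i :=
        single_le_sum (f := P.c) (fun _ _ => Nat.zero_le _) (mem_range.2 (by omega))
      change M₀ * P.c (r - 1) ≤ _
      calc M₀ * P.c (r - 1) ≤ M₀ * (1 + ∑ i ∈ range j, P.c i) := Nat.mul_le_mul_left _ (by omega)
        _ = M₀ * (1 + ∑ i ∈ range j, P.c i) * 1 := (mul_one _).symm
        _ ≤ _ := Nat.mul_le_mul_left _ hn1
  unfold Stp.np
  split_ifs
  · exact Nat.zero_le _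
  · calc ∑ τ ∈ newT P.d P.e j, (if τ.E P.d P.e j = x ∧ τ.A j = B then s.nw τ else 0)
        ≤ ∑ τ ∈ newT P.d P.e j, (M₀ * (1 + ∑ i ∈ range j, P.c i)) * n ^ (P.e - 1) := by
          refine sum_le_sum fun τ hτ => ?_
          split_ifs
          · exact h3 τ hτ
          · exact Nat.zero_le _
      _ = _ := by
          rw [sum_const, smul_eq_mul]
          ring

private lemma cls_tr (hk : Crit P.d P.e P.kap) (hj : j < P.J) (hn : 1 ≤ n) (h : Cls P j n ms)
    (D : P.Dat j n θ M₀ ms s) (R : s.Res P.d P.e j ms ms' A₀)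
    (hnθ : (((newT P.d P.e j).card * (M₀ * (1 + ∑ i ∈ range j, P.c i)) : ℕ) : ℝ) ≤ θ * n) :
    Cls P j (n - P.c j) A₀ := by
  have h2 := hk.two
  have hed := hk.lt
  have hj' : j < P.d - P.e := hj
  have hθ : 0 ≤ θ := by
    have h3 : (0 : ℝ) ≤ θ * n := le_trans (Nat.cast_nonneg _) hnθ
    have h4 : (0 : ℝ) < n := by exact_mod_cast hn
    exact nonneg_of_mul_nonneg_left h3 h4
  have hE : ∀ x B, s.np P.d P.e j x B ≠ 0 → x < P.d ∧ P.e < x ∧ B ⊆ range j ∧
      (range j \ B).card + P.e < x := by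
    intro x B hx
    obtain ⟨h3, τ, hτ, rfl, rfl⟩ := np_ne hx
    obtain ⟨h4, h5, h6, h7, _⟩ := E_new h2 hj' ((mem_newT h2).1 hτ)
    exact ⟨by omega, h4, h6, h7⟩
  refine ⟨?_, ?_, ?_, ?_⟩
  · intro k hk'
    rcases R.memA k hk' with ⟨x, B, rfl, hB⟩ | hcl
    · left
      rcases hB with hB | ⟨h3, τ, hτ, rfl, rfl⟩
      · obtain ⟨h3, h4, h5, h6⟩ := npt_mem h2 hed h hB
        exact ⟨x, B, rfl, h3, h4, h5, h6⟩
      · obtain ⟨h4, h5, h6, h7, _⟩ := E_new h2 hj' ((mem_newT h2).1 hτ)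
        exact ⟨_, _, rfl, by omega, by omega, h6, by omega⟩
    · exact Or.inr hcl
  · intro x B hx2 hxd hB hc hne
    have hG := D.gt x B hx2 hxd hB hc.le hne
    have h3 := R.nA x B hB
    have h4 := hG.le
    have h5 : npt A₀ x B = npt ms x B - s.T x B + s.np P.d P.e j x B := by omega
    rw [h5]
    by_cases hnp : s.np P.d P.e j x B = 0
    · rw [hnp, add_zero]
      exact hG.win hc
    · obtain ⟨_, h7, _, h8⟩ := hE x B hnp
      have hkap : P.kap x = 0 := by
        by_contra h9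
        have := (hk.supp x h9).2
        omega
      have hroom := hG.room hkap (by omega) (s.np P.d P.e j x B) (by
        have h9 : (s.np P.d P.e j x B : ℝ) ≤
            (((newT P.d P.e j).card * (M₀ * (1 + ∑ i ∈ range j, P.c i)) : ℕ) : ℝ) *
              (n : ℝ) ^ (P.e - 1) := by exact_mod_cast np_bd h2 hn D x B
        have hn1 : (1 : ℝ) ≤ n := by exact_mod_cast hn
        refine h9.trans ?_
        calc (((newT P.d P.e j).card * (M₀ * (1 + ∑ i ∈ range j, P.c i)) : ℕ) : ℝ) *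
              (n : ℝ) ^ (P.e - 1) ≤ θ * n * (n : ℝ) ^ (P.e - 1) :=
              mul_le_mul_of_nonneg_right hnθ (by positivity)
          _ = θ * (n : ℝ) ^ (P.e - 1 + 1) := by rw [pow_succ]; ring
          _ ≤ θ * (n : ℝ) ^ (x - (range j \ B).card - 1) :=
              mul_le_mul_of_nonneg_left (pow_le_pow_right₀ hn1 (by omega)) hθ)
      have hnat : P.nat x (range j \ B) = 0 := by
        unfold Par.nat
        rw [hkap, zero_mul]
      rw [hnat, zero_mul, zero_mul, sub_zero, abs_of_nonneg (Nat.cast_nonneg _)]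
      exact hroom
  · intro x B hx2 hxd hB hc
    have hne' : x ≠ P.e ∨ B ≠ range j := by
      right
      intro h6
      rw [h6, sdiff_self] at hc
      simp at hc
      omega
    have hG := D.gt x B hx2 hxd hB hc.le hne'
    have hnp : s.np P.d P.e j x B = 0 := by
      by_contra h4
      have := (hE x B h4).2.2.2
      omega
    have h3 := R.nA x B hB
    rw [hG.zero hc, hnp, add_zero, add_zero] at h3
    rw [h3]
    exact h.zero x B hx2 hxd hB hc
  · intro i hi τ hτ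
    have h3 := R.cA i hi τ hτ
    have h4 := D.oc i τ
    omega

end up

theorem dat_cls (d e : ℕ) (kap : ℕ → ℝ) (hk : Crit d e kap) (M₀ : ℕ) :
    ∀ P : Par, P.d = d → P.e = e → P.kap = kap → M₀ ≤ P.M → P.Ok 1 1 → ∀ j < P.J, P.Sz j 1 → ∀ θ : ℝ, 0 < θ →
      ∃ n₀ : ℕ, ∀ n, n₀ ≤ n → ∀ ms, Cls P j n ms → ∀ s : Stp, P.Dat j n θ M₀ ms s → ∀ ms' A : Multiset Kd,
        s.Res d e j ms ms' A → Cls P (j + 1) n ms' ∧ Cls P j (n - P.c j) A := by
  rintro P rfl rfl rfl hM hOk j hj hSz θ hθ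
  refine ⟨⌈(((newT P.d P.e j).card * (M₀ * (1 + ∑ i ∈ range j, P.c i)) : ℕ) : ℝ) / θ⌉₊ + 1, ?_⟩
  intro n hn ms h s D ms' A R
  refine ⟨cls_up (f := P.eps) hk.two hk.lt hM (by simpa using hOk.be j hj) h D R D.tuw,
    cls_tr hk hj (by omega) h D R ?_⟩
  have h1 := Nat.le_ceil ((((newT P.d P.e j).card * (M₀ * (1 + ∑ i ∈ range j, P.c i)) : ℕ) : ℝ) / θ)
  have h2 : ((⌈(((newT P.d P.e j).card * (M₀ * (1 + ∑ i ∈ range j, P.c i)) : ℕ) : ℝ) / θ⌉₊ : ℕ) : ℝ) ≤
      n := by
    exact_mod_cast (by omega : _ ≤ n)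
  have h3 := h1.trans h2
  rw [div_le_iff₀ hθ] at h3
  linarith

/-- The same for the finer windows of the level `j + 1` (`bet (j + 1)` instead of `eps (j + 1)`), if the number of
the main points is closer to the natural one. -/
theorem dat_cls' (d e : ℕ) (kap : ℕ → ℝ) (hk : Crit d e kap) (M₀ : ℕ) :
    ∀ P : Par, P.d = d → P.e = e → P.kap = kap → M₀ ≤ P.M → P.Ok 1 1 → ∀ j < P.J, P.Sz j 1 → ∀ θ : ℝ, 0 < θ →
      ∃ n₀ : ℕ, ∀ n, n₀ ≤ n → ∀ ms, Cls P j n ms → ∀ s : Stp, P.Dat j n θ M₀ ms s → ∀ ms' A : Multiset Kd,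
        s.Res d e j ms ms' A → |(s.T P.e (range j) : ℝ) - P.kap P.e * P.e * P.c j * (n : ℝ) ^ (P.e - 1)| ≤
          P.bet (j + 1) * P.c j * (n : ℝ) ^ (P.e - 1) →
            Cls { P with eps := Function.update P.eps (j + 1) (P.bet (j + 1)) } (j + 1) n ms' := by
  rintro P rfl rfl rfl hM hOk j hj hSz θ hθ
  refine ⟨0, ?_⟩
  intro n hn ms h s D ms' A R htu
  refine cls_up (f := Function.update P.eps (j + 1) (P.bet (j + 1))) hk.two hk.lt hM ?_ h D R ?_
  · rw [Function.update_self]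
  · rw [Function.update_self]
    exact htu

end Pool.Agent.GD

end

section

/-!
# General d, VT: the exponential formula

`GV y I a`: the virtual dimension of the tensor system with the slots `I ⊔ Fin a` and the densities
`y K b` of the kinds with the base part `K` and `b` slots in `Fin a`.
`GV_series`: `[t^a]` of the sum over the families of pairwise disjoint nonempty subsets of `I`; both sides
satisfy the same recursion in `a` (derivative of the series; the recursion `IsF` for the last slot, the value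
depends only on the number of the slots in `Fin a`) and agree for `a = 0`.
-/

set_option autoImplicit false

namespace Pool.Agent.GD.VT

open Finset PowerSeries Pool.Agent.GD.BE

/-- The slots of the tensor systems. -/
theorem GV_eq (y : Finset ℕ → ℕ → ℝ) (J a : ℕ) :
    GV y (range J) a = FR (fun S : Finset (Fin J ⊕ Fin a) =>
      y ((Pool.Agent.GD.BE.lf S).map Fin.valEmbedding) (rt S).card) univ := by
  let f : Fin J ⊕ Fin a ↪ ℕ ⊕ Fin a := Fin.valEmbedding.sumMap (Function.Embedding.refl _)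
  have h1 : (range J).disjSum (univ : Finset (Fin a)) = (univ : Finset (Fin J ⊕ Fin a)).map f := by
    ext x
    rw [Finset.mem_map]
    constructor
    · intro hx
      rcases x with x | x
      · rw [Finset.inl_mem_disjSum, Finset.mem_range] at hx
        exact ⟨Sum.inl ⟨x, hx⟩, Finset.mem_univ _, rfl⟩
      · exact ⟨Sum.inr x, Finset.mem_univ _, rfl⟩
    · rintro ⟨z, _, rfl⟩
      rcases z with z | z
      · show Sum.inl (z : ℕ) ∈ _
        rw [Finset.inl_mem_disjSum, Finset.mem_range]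
        exact z.2
      · show Sum.inr z ∈ _
        rw [Finset.inr_mem_disjSum]
        exact Finset.mem_univ _
  unfold GV
  rw [h1, FR_map]
  refine FR_congr fun S _ _ => ?_
  have h2 : (S.map f).preimage Sum.inl Sum.inl_injective.injOn = (Pool.Agent.GD.BE.lf S).map Fin.valEmbedding := by
    ext x
    rw [Finset.mem_preimage, Finset.mem_map, Finset.mem_map]
    constructor
    · rintro ⟨z, hz, h⟩
      rcases z with z | z
      · refine ⟨z, ?_, Sum.inl_injective h⟩
        rw [Pool.Agent.GD.BE.lf, Finset.mem_filter]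
        exact ⟨Finset.mem_univ _, hz⟩
      · exact absurd h (by simp [f])
    · rintro ⟨z, hz, rfl⟩
      rw [Pool.Agent.GD.BE.lf, Finset.mem_filter] at hz
      exact ⟨Sum.inl z, hz.2, rfl⟩
  have h3 : (S.map f).preimage Sum.inr Sum.inr_injective.injOn = rt S := by
    ext x
    rw [Finset.mem_preimage, Finset.mem_map, rt, Finset.mem_filter]
    constructor
    · rintro ⟨z, hz, h⟩
      rcases z with z | z
      · exact absurd h (by simp [f])
      · have h4 : z = x := Sum.inr_injective h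
        exact ⟨Finset.mem_univ _, h4 ▸ hz⟩
    · rintro ⟨_, hz⟩
      exact ⟨Sum.inr x, hz, rfl⟩
  rw [h2, h3]

end Pool.Agent.GD.VT

end

section

/-!
# General d, block BETA, module Vb: the virtual dimensions of a configuration of the class as values of
tensor systems

`yS` are the densities of the configuration.  `v_eq`: `vt` for `I = range J`, `D = d`, `GV_series`, `GV_eq`.
`b_eq`: `vt` for `I = range J`, `D = J` (the error is `C / n < 1 / 2`, both sides are integers), `GV_series`,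
`GV_eq`, `FR_map` for `Fin J ⊕ Fin 0 ↪ Fin J ⊕ Fin e`.  `ms.count (P.u P.J) = 0` gives `npt ms P.e (range P.J) =
0` (no member of a cluster vanishes on its creation block).
-/

set_option autoImplicit false

namespace Pool.Agent.GD.BE

open Finset
open Pool.Agent.GD.VT (vt GV GV_eq GV_series NN Mser)

/-- The densities of a configuration. -/
noncomputable def yS (P : Par) (n : ℕ) (ms : Multiset Kd) (K : Finset (Fin P.J)) (a : ℕ) : ℝ :=
  (a.factorial : ℝ) * npt ms (K.card + a) (range P.J \ K.map Fin.valEmbedding) /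
    ((∏ i ∈ K, (P.c i : ℝ)) * (n : ℝ) ^ a)

variable (P : Par)

private theorem Vb_mbs {i j k : ℕ} {S A : Finset ℕ} (h : A ∈ mbs i j k S) : A ⊆ (range j).erase i := by
  unfold mbs at h
  split_ifs at h with hk
  · rw [List.mem_singleton] at h
    rw [h]
    exact sdiff_subset
  · rcases List.mem_cons.1 h with h | h
    · rw [h]
    · rw [List.eq_of_mem_replicate h]
      exact sdiff_subset

private theorem Vb_mbr {i j k e r : ℕ} {A : Finset ℕ} (h : A ∈ mbr i j k e r) : A ⊆ (range j).erase i := by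
  unfold mbr at h
  rw [List.mem_map] at h
  obtain ⟨s, _, rfl⟩ := h
  exact sdiff_subset

private theorem Vb_pts {d e i j x : ℕ} {A : Finset ℕ} (τ : CT) (h : (x, A) ∈ (τ.kd d e i j).pts) :
    A ⊆ (range j).erase i := by
  cases τ with
  | pl k S =>
    have h1 : (x, A) ∈ (mbs i j k S).map fun A => (e, A) := h
    rw [List.mem_map] at h1
    obtain ⟨B, hB, h2⟩ := h1
    rw [← (Prod.mk.inj h2).2]
    exact Vb_mbs hB
  | b0 S =>
    have h1 : (x, A) ∈ (mbs i j ((d - i - 1) / (e - 1)) S).map fun A => (e, A) := h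
    rw [List.mem_map] at h1
    obtain ⟨B, hB, h2⟩ := h1
    rw [← (Prod.mk.inj h2).2]
    exact Vb_mbs hB
  | br r =>
    have h1 : (x, A) ∈ (mbr i j ((d - i + r - 1) / (e - 1)) e r).map fun A => (e, A) := h
    rw [List.mem_map] at h1
    obtain ⟨B, hB, h2⟩ := h1
    rw [← (Prod.mk.inj h2).2]
    exact Vb_mbr hB

theorem npt_u (he : 2 ≤ P.e) (hed : P.e < P.d) {n : ℕ} {ms : Multiset Kd} (h : Cls P P.J n ms)
    (h0 : ms.count (P.u P.J) = 0) : npt ms P.e (range P.J) = 0 := by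
  unfold npt
  rw [Multiset.count_eq_zero, Multiset.mem_bind]
  rintro ⟨k, hk, hk'⟩
  rcases h.mem k hk with ⟨x, A, rfl, _, _, _, _⟩ | ⟨i, hi, τ, _, rfl⟩
  · have h1 : (P.e, range P.J) = (x, A) := Multiset.mem_singleton.1 hk'
    obtain ⟨h2, h3⟩ := Prod.mk.inj h1
    rw [Multiset.count_eq_zero] at h0
    apply h0
    show Kd.ord P.e (range P.J) ∈ ms
    rw [h2, h3]
    exact hk
  · have h1 := Vb_pts τ hk'
    exact absurd (h1 (mem_range.2 hi)) (notMem_erase i _)

/-- The densities on the level `J`. -/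
private theorem Vb_dens (n : ℕ) (ms : Multiset Kd) (K : Finset (Fin P.J)) (b : ℕ) :
    (b.factorial : ℝ) * Pool.Agent.GD.VT.NN P.J ms (K.map Fin.valEmbedding) b /
      ((∏ i ∈ K.map Fin.valEmbedding, (P.c i : ℝ)) * (n : ℝ) ^ b) = yS P n ms K b := by
  unfold yS NN
  rw [card_map, prod_map]
  rfl

private theorem Vb_GV (n : ℕ) (ms : Multiset Kd) (a : ℕ) :
    GV (fun K b => (b.factorial : ℝ) * NN P.J ms K b / ((∏ i ∈ K, (P.c i : ℝ)) * (n : ℝ) ^ b))
      (range P.J) a = FR (fun S : Finset (Fin P.J ⊕ Fin a) => yS P n ms (lf S) (rt S).card) univ := by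
  rw [GV_eq]
  refine Pool.Agent.GD.VT.FR_congr fun S _ _ => ?_
  exact Vb_dens P n ms (lf S) (rt S).card

private theorem Vb_vt (he : 2 ≤ P.e) (hed : P.e < P.d) (hc : ∀ i < P.J, 1 ≤ P.c i) :
    ∃ C : ℝ, 0 ≤ C ∧ ∃ n₀ : ℕ, 1 ≤ n₀ ∧ ∀ n, n₀ ≤ n → ∀ ms, Cls P P.J n ms → ms.count (P.u P.J) = 0 →
      ∀ D a : ℕ, D = P.J + a → D ≤ P.d →
      |(vd D (range P.J) P.c n ms : ℝ) - (∏ i ∈ range P.J, (P.c i : ℝ)) * (n : ℝ) ^ a / a.factorial *
        FR (fun S : Finset (Fin P.J ⊕ Fin a) => yS P n ms (lf S) (rt S).card) univ| ≤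
        C * (n : ℝ) ^ ((a : ℤ) - 1) := by
  obtain ⟨C, hC, h⟩ := vt P he hed (le_refl P.J) 0
  refine ⟨C, hC, 1 + ∑ i ∈ range P.J, P.c i, by omega, fun n hn ms hcls h0 D a hD hDd => ?_⟩
  have h1 := h n (by omega) (by omega) ms hcls (by rw [npt_u P he hed hcls h0]; simp) (range P.J)
    (Subset.refl _) D hDd (by rw [card_range]; omega)
  rw [card_range] at h1
  have h2 : D - P.J = a := by omega
  have h3 : (D : ℤ) - P.J - 1 = (a : ℤ) - 1 := by omega
  rw [h2, h3, GV_series P.d P.c n (by omega) _ _ (fun i hi => hc i (mem_range.1 hi)) a (by omega),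
    Vb_GV] at h1
  exact h1

theorem v_eq (he : 2 ≤ P.e) (hed : P.e < P.d) (hc : ∀ i < P.J, 1 ≤ P.c i) :
    ∃ C : ℝ, 0 ≤ C ∧ ∃ n₀ : ℕ, ∀ n, n₀ ≤ n → ∀ ms, Cls P P.J n ms → ms.count (P.u P.J) = 0 →
      |(P.v P.J n ms : ℝ) - (∏ i ∈ range P.J, (P.c i : ℝ)) * (n : ℝ) ^ P.e / P.e.factorial *
        FR (fun S : Finset (Fin P.J ⊕ Fin P.e) => yS P n ms (lf S) (rt S).card) univ| ≤
        C * (n : ℝ) ^ (P.e - 1) := by
  obtain ⟨C, hC, n₀, hn₀, h⟩ := Vb_vt P he hed hc
  refine ⟨C, hC, n₀, fun n hn ms hcls h0 => ?_⟩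
  have hJ : P.J = P.d - P.e := rfl
  have h1 := h n hn ms hcls h0 P.d P.e (by omega) le_rfl
  have h2 : ((P.e : ℤ) - 1) = ((P.e - 1 : ℕ) : ℤ) := by omega
  rw [h2, zpow_natCast] at h1
  exact h1

/-- The embedding of the base slots. -/
private def Vb_f (J e : ℕ) : Fin J ⊕ Fin 0 ↪ Fin J ⊕ Fin e where
  toFun := Sum.elim Sum.inl fun x => x.elim0
  inj' := by
    rintro (a | a) (b | b) h
    · exact congrArg _ (Sum.inl_injective h)
    · exact b.elim0
    · exact a.elim0
    · exact a.elim0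

private theorem Vb_tb (J e : ℕ) : tb J e = (univ : Finset (Fin J ⊕ Fin 0)).map (Vb_f J e) := by
  ext x
  rw [mem_map]
  unfold tb
  rw [mem_filter]
  constructor
  · rintro ⟨_, hx⟩
    rcases x with x | x
    · exact ⟨Sum.inl x, mem_univ _, rfl⟩
    · exact absurd hx (by simp)
  · rintro ⟨z, _, rfl⟩
    rcases z with z | z
    · exact ⟨mem_univ _, rfl⟩
    · exact z.elim0

private theorem Vb_lf (J e : ℕ) (S : Finset (Fin J ⊕ Fin 0)) : lf (S.map (Vb_f J e)) = lf S := by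
  ext x
  unfold lf
  rw [mem_filter, mem_filter, mem_map]
  constructor
  · rintro ⟨_, z, hz, h⟩
    rcases z with z | z
    · have : z = x := Sum.inl_injective h
      exact ⟨mem_univ _, this ▸ hz⟩
    · exact z.elim0
  · rintro ⟨_, hx⟩
    exact ⟨mem_univ _, Sum.inl x, hx, rfl⟩

theorem b_eq (he : 2 ≤ P.e) (hed : P.e < P.d) (hc : ∀ i < P.J, 1 ≤ P.c i)
    (kb : Finset (Fin P.J) → ℚ) (b : ℕ)
    (hb : (b : ℝ) = (∏ i ∈ range P.J, (P.c i : ℝ)) * FR (kbR (e := P.e) kb) (tb P.J P.e)) :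
    ∃ n₀ : ℕ, ∀ n, n₀ ≤ n → ∀ ms, Cls P P.J n ms → ms.count (P.u P.J) = 0 →
      (∀ K : Finset (Fin P.J), K ≠ ∅ → (npt ms K.card (range P.J \ K.map Fin.valEmbedding) : ℚ) =
        kb K * ∏ i ∈ K, (P.c i : ℚ)) → P.b n ms = b := by
  obtain ⟨C, hC, n₀, hn₀, h⟩ := Vb_vt P he hed hc
  obtain ⟨m, hm⟩ := exists_nat_gt C
  refine ⟨n₀ + m, fun n hn ms hcls h0 hK => ?_⟩
  have hJ : P.J = P.d - P.e := rfl
  have h1 := h n (by omega) ms hcls h0 P.J 0 (by omega) (by omega)
  have hn1 : (1 : ℝ) ≤ n := by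
    have : 1 ≤ n := by omega
    exact_mod_cast this
  have hn0 : (0 : ℝ) < n := by linarith
  have h2 : FR (fun S : Finset (Fin P.J ⊕ Fin 0) => yS P n ms (lf S) (rt S).card) univ =
      FR (kbR (e := P.e) kb) (tb P.J P.e) := by
    rw [Vb_tb, Pool.Agent.GD.VT.FR_map]
    refine Pool.Agent.GD.VT.FR_congr fun S _ hS => ?_
    show yS P n ms (lf S) (rt S).card = ((kb (lf (S.map (Vb_f P.J P.e))) : ℚ) : ℝ)
    rw [Vb_lf]
    have h3 : (rt S).card = 0 := by
      rw [card_eq_zero, eq_empty_iff_forall_notMem]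
      intro x
      exact x.elim0
    have h4 : lf S ≠ ∅ := by
      intro h5
      apply hS
      rw [eq_empty_iff_forall_notMem]
      intro x hx
      rcases x with x | x
      · have h6 : x ∈ lf S := by
          unfold lf
          rw [mem_filter]
          exact ⟨mem_univ _, hx⟩
        rw [h5] at h6
        exact notMem_empty x h6
      · exact x.elim0
    rw [h3]
    unfold yS
    rw [Nat.factorial_zero, Nat.cast_one, one_mul, add_zero, pow_zero, mul_one]
    have h5 := hK (lf S) h4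
    have h6 : (npt ms (lf S).card (range P.J \ (lf S).map Fin.valEmbedding) : ℝ) =
        (kb (lf S) : ℝ) * ∏ i ∈ lf S, (P.c i : ℝ) := by exact_mod_cast h5
    rw [h6]
    refine mul_div_cancel_right₀ _ ?_
    rw [prod_ne_zero_iff]
    intro i _
    have h7 := hc i.1 i.2
    have h8 : P.c i.1 ≠ 0 := by omega
    exact_mod_cast h8
  rw [h2, pow_zero, mul_one, Nat.factorial_zero, Nat.cast_one, div_one, ← hb] at h1
  have h3 : C * (n : ℝ) ^ (((0 : ℕ) : ℤ) - 1) < 1 := by
    rw [Nat.cast_zero, zero_sub, zpow_neg_one, ← div_eq_mul_inv, div_lt_one hn0]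
    refine hm.trans_le ?_
    have : m ≤ n := by omega
    exact_mod_cast this
  have h4 : |(P.b n ms : ℝ) - ((b : ℤ) : ℝ)| < 1 := by
    rw [Int.cast_natCast]
    exact h1.trans_lt h3
  have h5 : |P.b n ms - (b : ℤ)| < 1 := by exact_mod_cast h4
  have h6 := Int.abs_lt_one_iff.1 h5
  omega

end Pool.Agent.GD.BE

end

section

/-!
# General d, block BETA, module NumA: the choice of the numbers of the residues

`Dc`: the data and hypotheses which are fixed in the numerical modules (`kl`, `kh` from `dens`, `lo`, `hi` from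
`gain`).  `IsK K a`: the kinds `(K, a)` of additional points which occur (`1 ≤ a ≤ e`, `2 ≤ x < d`, `x = #K + a`, not
`K = ∅, a = e`).  `LOk`: `l K a` of the `L` residues get the larger number; with `y = yS P n ms K a`, `w = kh x - kl x`,
`z = kl x + l / L * w` either `kl x = 0`, `l = 0`, `y ≤ w / L`, or `z + w / L ≤ y ≤ z + 2 * w / L`.

PROOF of `lch`: by the window (`Cls.win`; `P.nat x K * a ! = x ! * kap x`): `|y - x ! * kap x| ≤ a ! * E ≤ e ! * E`, so
`y ≤ kh x`, and `kl x = 0` or `y - kl x ≥ (d ! - e !) * E ≥ w / L` for large `L`; `ch`.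
-/

set_option autoImplicit false

namespace Pool.Agent.GD.BE

open Finset

/-- Choice of the number of the residues. -/
theorem ch (kl kh y : ℝ) (h0 : 0 ≤ kl) (hw : kl < kh) (L : ℕ) (hL : 0 < L) (hy : y ≤ kh)
    (h1 : kl = 0 ∧ 0 ≤ y ∨ (kh - kl) / L ≤ y - kl) : ∃ l : ℕ, l ≤ L ∧
      ((kl = 0 ∧ l = 0 ∧ y ≤ (kh - kl) / L) ∨
        (kl + l / L * (kh - kl) + (kh - kl) / L ≤ y ∧
          y ≤ kl + l / L * (kh - kl) + 2 * ((kh - kl) / L))) := by
  have hL' : (0 : ℝ) < L := by exact_mod_cast hL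
  have hv0 : 0 < (kh - kl) / L := div_pos (sub_pos.2 hw) hL'
  have he : ∀ r : ℝ, r / L * (kh - kl) = r * ((kh - kl) / L) := fun r => by ring
  have hvL : (kh - kl) / L * L = kh - kl := div_mul_cancel₀ _ hL'.ne'
  simp only [he]
  set v : ℝ := (kh - kl) / L with hv
  by_cases hs : y - kl < v
  · rcases h1 with ⟨h1, _⟩ | h1
    · exact ⟨0, Nat.zero_le _, Or.inl ⟨h1, rfl, by rw [h1] at hs; linarith⟩⟩
    · exact absurd h1 (not_le.2 hs)
  · have hs1 : 1 ≤ (y - kl) / v := by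
      rw [le_div_iff₀ hv0, one_mul]
      exact not_lt.1 hs
    have hm1 : ((⌊(y - kl) / v⌋₊ : ℕ) : ℝ) ≤ (y - kl) / v := Nat.floor_le (by linarith)
    have hm2 : (y - kl) / v < ((⌊(y - kl) / v⌋₊ : ℕ) : ℝ) + 1 := Nat.lt_floor_add_one _
    have hm3 : 1 ≤ ⌊(y - kl) / v⌋₊ := Nat.le_floor (by rw [Nat.cast_one]; exact hs1)
    obtain ⟨m, hm⟩ : ∃ m, ⌊(y - kl) / v⌋₊ = m + 1 := ⟨⌊(y - kl) / v⌋₊ - 1, by omega⟩
    rw [hm] at hm1 hm2
    rw [le_div_iff₀ hv0] at hm1
    rw [div_lt_iff₀ hv0] at hm2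
    push_cast at hm1 hm2
    refine ⟨m, ?_, Or.inr ⟨by linarith, by linarith⟩⟩
    have h2 : (m : ℝ) * v ≤ L * v := by
      have : (L : ℝ) * v = kh - kl := by rw [mul_comm]; exact hvL
      linarith
    have h3 : (m : ℝ) ≤ L := le_of_mul_le_mul_right h2 hv0
    exact_mod_cast h3

/-- The hypotheses. -/
structure Dc (P : Par) (E : ℝ) (kl kh : ℕ → ℚ) (kb : Finset (Fin P.J) → ℚ) (cz : ℕ)
    (lo hi : Finset (Fin P.J) → ℕ → ℕ) : Prop where
  he : 2 ≤ P.e
  hed : P.e < P.d
  hc : ∀ i < P.J, 1 ≤ P.c i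
  hE : 0 < E
  h0 : ∀ x, 0 ≤ kl x ∧ kl x < kh x
  hk0 : ∀ x, P.kap x = 0 → kl x = 0
  hpos : 0 < P.kap P.e
  hkl : ∀ x, P.kap x ≠ 0 → 0 < kl x ∧ (kl x : ℝ) + P.d.factorial * E ≤ x.factorial * P.kap x
  hkh : ∀ x, (x.factorial : ℝ) * P.kap x + P.d.factorial * E ≤ kh x
  heps : P.eps P.J ≤ E
  hkb0 : kb ∅ = 0
  hcz : 0 < cz
  hlo : ∀ K a, (lo K a : ℚ) = dK P.d P.e kl K a * (∏ i ∈ K, (P.c i : ℚ)) * (cz : ℚ) ^ a
  hhi : ∀ K a, (hi K a : ℚ) = dK P.d P.e kh K a * (∏ i ∈ K, (P.c i : ℚ)) * (cz : ℚ) ^ a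

/-- The kinds of the additional points. -/
def IsK {J : ℕ} (d e : ℕ) (K : Finset (Fin J)) (a : ℕ) : Prop :=
  1 ≤ a ∧ a ≤ e ∧ 2 ≤ K.card + a ∧ K.card + a < d ∧ ¬ (K.card = 0 ∧ a = e)

/-- The mean density for `l` of `L` residues. -/
noncomputable def zl (kl kh : ℕ → ℚ) (L : ℕ) (x l : ℕ) : ℝ :=
  (kl x : ℝ) + (l : ℝ) / L * ((kh x : ℝ) - kl x)

/-- The numbers of the residues are right. -/
structure LOk (P : Par) (kl kh : ℕ → ℚ) (L n : ℕ) (ms : Multiset Kd)
    (l : Finset (Fin P.J) → ℕ → ℕ) : Prop where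
  le : ∀ K a, l K a ≤ L
  zero : ∀ K a, ¬ IsK P.d P.e K a → l K a = 0
  ok : ∀ K a, IsK P.d P.e K a →
    (kl (K.card + a) = 0 ∧ l K a = 0 ∧
      yS P n ms K a ≤ ((kh (K.card + a) : ℝ) - kl (K.card + a)) / L) ∨
    (zl kl kh L (K.card + a) (l K a) + ((kh (K.card + a) : ℝ) - kl (K.card + a)) / L ≤
        yS P n ms K a ∧
      yS P n ms K a ≤ zl kl kh L (K.card + a) (l K a) +
        2 * (((kh (K.card + a) : ℝ) - kl (K.card + a)) / L))

/-- the densities are in the windows -/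
private theorem yS_win (P : Par) {E : ℝ} {kl kh : ℕ → ℚ} {kb : Finset (Fin P.J) → ℚ} {cz : ℕ}
    {lo hi : Finset (Fin P.J) → ℕ → ℕ} (h : Dc P E kl kh kb cz lo hi) {n : ℕ} (hn : 1 ≤ n)
    {ms : Multiset Kd} (hc : Cls P P.J n ms) {K : Finset (Fin P.J)} {a : ℕ}
    (hK : IsK P.d P.e K a) :
    0 ≤ yS P n ms K a ∧ |yS P n ms K a - ((K.card + a).factorial : ℝ) * P.kap (K.card + a)| ≤
      P.e.factorial * E := by
  obtain ⟨ha1, hae, hx2, hxd, hne⟩ := hK
  have hsub : K.map Fin.valEmbedding ⊆ range P.J := by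
    intro i hi
    rw [mem_map] at hi
    obtain ⟨j, _, rfl⟩ := hi
    exact mem_range.2 j.2
  have hsd : range P.J \ (range P.J \ K.map Fin.valEmbedding) = K.map Fin.valEmbedding := by
    rw [sdiff_sdiff_right_self]
    exact inter_eq_right.2 hsub
  have hcard : (K.map Fin.valEmbedding).card = K.card := card_map _
  have hwin := hc.win (K.card + a) (range P.J \ K.map Fin.valEmbedding) hx2 hxd sdiff_subset
    (by rw [hsd, hcard]; omega) (by
      by_contra hcon
      push Not at hcon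
      obtain ⟨h1, h2⟩ := hcon
      have h3 : K.map Fin.valEmbedding = ∅ := by rw [← hsd, h2, sdiff_self]; rfl
      have h4 : K.card = 0 := by rw [← hcard, h3, card_empty]
      exact hne ⟨h4, by omega⟩)
  rw [hsd, hcard, Nat.add_sub_cancel_left] at hwin
  have hcc : (P.cc (K.map Fin.valEmbedding) : ℝ) = ∏ i ∈ K, (P.c i : ℝ) := by
    unfold Par.cc
    rw [prod_map]
    push_cast
    rfl
  rw [hcc] at hwin
  have hcc0 : 0 < ∏ i ∈ K, (P.c i : ℝ) :=
    prod_pos fun i _ => by exact_mod_cast h.hc i i.2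
  have hn0 : 0 < (n : ℝ) ^ a := pow_pos (by exact_mod_cast hn) a
  have hZ : 0 < (∏ i ∈ K, (P.c i : ℝ)) * (n : ℝ) ^ a := mul_pos hcc0 hn0
  have hfac : (a.factorial : ℝ) * P.nat (K.card + a) (K.map Fin.valEmbedding) =
      ((K.card + a).factorial : ℝ) * P.kap (K.card + a) := by
    unfold Par.nat
    rw [hcard]
    have h1 : a.factorial * (K.card + a).descFactorial K.card = (K.card + a).factorial := by
      have := Nat.factorial_mul_descFactorial (show K.card ≤ K.card + a by omega)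
      rwa [Nat.add_sub_cancel_left] at this
    rw [← h1]
    push_cast
    ring
  have ha0 : (0 : ℝ) < a.factorial := by exact_mod_cast Nat.factorial_pos a
  refine ⟨?_, ?_⟩
  · unfold yS
    positivity
  · rw [← hfac]
    have e1 : yS P n ms K a - (a.factorial : ℝ) * P.nat (K.card + a) (K.map Fin.valEmbedding) =
        a.factorial * (((npt ms (K.card + a) (range P.J \ K.map Fin.valEmbedding) : ℝ) -
          P.nat (K.card + a) (K.map Fin.valEmbedding) * (∏ i ∈ K, (P.c i : ℝ)) * (n : ℝ) ^ a) /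
            ((∏ i ∈ K, (P.c i : ℝ)) * (n : ℝ) ^ a)) := by
      unfold yS
      field_simp
    rw [e1, abs_mul, abs_of_pos ha0, abs_div, abs_of_pos hZ]
    have h1 : |(npt ms (K.card + a) (range P.J \ K.map Fin.valEmbedding) : ℝ) -
          P.nat (K.card + a) (K.map Fin.valEmbedding) * (∏ i ∈ K, (P.c i : ℝ)) * (n : ℝ) ^ a| /
            ((∏ i ∈ K, (P.c i : ℝ)) * (n : ℝ) ^ a) ≤ E := by
      rw [div_le_iff₀ hZ]
      refine hwin.trans ?_
      rw [mul_assoc]
      exact mul_le_mul_of_nonneg_right h.heps hZ.le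
    exact mul_le_mul (by exact_mod_cast Nat.factorial_le hae) h1 (by positivity) (by positivity)

theorem lch (P : Par) {E : ℝ} {kl kh : ℕ → ℚ} {kb : Finset (Fin P.J) → ℚ} {cz : ℕ}
    {lo hi : Finset (Fin P.J) → ℕ → ℕ} (h : Dc P E kl kh kb cz lo hi) :
    ∃ L₀ : ℕ, 0 < L₀ ∧ ∀ L, L₀ ≤ L → ∀ n, 1 ≤ n → ∀ ms, Cls P P.J n ms →
      ∃ l, LOk P kl kh L n ms l := by
  classical
  have hfe : (P.e.factorial : ℝ) < P.d.factorial := by
    have := Nat.factorial_lt (show 0 < P.e by have := h.he; omega) |>.2 h.hed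
    exact_mod_cast this
  have hδ : 0 < ((P.d.factorial : ℝ) - P.e.factorial) * E := mul_pos (by linarith) h.hE
  -- the bound for L
  obtain ⟨L₀, hL₀⟩ : ∃ L₀ : ℕ, ∀ x ∈ range P.d, ((kh x : ℝ) - kl x) ≤
      L₀ * (((P.d.factorial : ℝ) - P.e.factorial) * E) := by
    have h1 : ∀ x : ℕ, ∃ N : ℕ, ((kh x : ℝ) - kl x) ≤
        N * (((P.d.factorial : ℝ) - P.e.factorial) * E) := by
      intro x
      obtain ⟨N, hN⟩ := exists_nat_ge (((kh x : ℝ) - kl x) /
        (((P.d.factorial : ℝ) - P.e.factorial) * E))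
      exact ⟨N, (div_le_iff₀ hδ).1 hN⟩
    choose N hN using h1
    refine ⟨∑ x ∈ range P.d, N x, fun x hx => (hN x).trans ?_⟩
    refine mul_le_mul_of_nonneg_right ?_ hδ.le
    exact_mod_cast single_le_sum (f := N) (fun _ _ => Nat.zero_le _) hx
  refine ⟨L₀ + 1, Nat.succ_pos _, fun L hL n hn ms hcls => ?_⟩
  have hL0 : 0 < L := by omega
  have hL' : (0 : ℝ) < L := by exact_mod_cast hL0
  have key : ∀ K : Finset (Fin P.J), ∀ a : ℕ, ∃ l : ℕ, l ≤ L ∧ (¬ IsK P.d P.e K a → l = 0) ∧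
      (IsK P.d P.e K a →
        (kl (K.card + a) = 0 ∧ l = 0 ∧
          yS P n ms K a ≤ ((kh (K.card + a) : ℝ) - kl (K.card + a)) / L) ∨
        (zl kl kh L (K.card + a) l + ((kh (K.card + a) : ℝ) - kl (K.card + a)) / L ≤
            yS P n ms K a ∧
          yS P n ms K a ≤ zl kl kh L (K.card + a) l +
            2 * (((kh (K.card + a) : ℝ) - kl (K.card + a)) / L))) := by
    intro K a
    by_cases hK : IsK P.d P.e K a
    · obtain ⟨hy0, hy⟩ := yS_win P h hn hcls hK
      obtain ⟨hy1, hy2⟩ := abs_le.1 hy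
      obtain ⟨hk1, hk2⟩ := h.h0 (K.card + a)
      have hk1' : (0 : ℝ) ≤ kl (K.card + a) := by exact_mod_cast hk1
      have hk2' : (kl (K.card + a) : ℝ) < kh (K.card + a) := by exact_mod_cast hk2
      have hfe' : (P.e.factorial : ℝ) * E ≤ P.d.factorial * E :=
        mul_le_mul_of_nonneg_right hfe.le h.hE.le
      have hkh := h.hkh (K.card + a)
      obtain ⟨l, hl1, hl2⟩ := ch (kl (K.card + a)) (kh (K.card + a)) (yS P n ms K a) hk1' hk2' L hL0
        (by linarith) (by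
          by_cases hkap : P.kap (K.card + a) = 0
          · left
            exact ⟨by exact_mod_cast h.hk0 _ hkap, hy0⟩
          · right
            have hkl := (h.hkl _ hkap).2
            rw [div_le_iff₀ hL']
            have h2 := hL₀ (K.card + a) (mem_range.2 hK.2.2.2.1)
            have h3 : (L₀ : ℝ) ≤ L := by exact_mod_cast (by omega : L₀ ≤ L)
            have h4 : (L₀ : ℝ) * (((P.d.factorial : ℝ) - P.e.factorial) * E) ≤
                L * (((P.d.factorial : ℝ) - P.e.factorial) * E) :=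
              mul_le_mul_of_nonneg_right h3 hδ.le
            have h5 : ((P.d.factorial : ℝ) - P.e.factorial) * E ≤
                yS P n ms K a - kl (K.card + a) := by linarith
            have h6 := mul_le_mul_of_nonneg_left h5 hL'.le
            linarith)
      refine ⟨l, hl1, fun h0 => absurd hK h0, fun _ => ?_⟩
      rcases hl2 with ⟨h1, h2, h3⟩ | ⟨h1, h2⟩
      · left
        exact ⟨by exact_mod_cast h1, h2, h3⟩
      · right
        exact ⟨h1, h2⟩
    · exact ⟨0, Nat.zero_le _, fun _ => rfl, fun h0 => absurd h0 hK⟩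
  choose l hl1 hl2 hl3 using key
  exact ⟨l, ⟨hl1, hl2, hl3⟩⟩

/-- The class without points of the main kind and with given base numbers. -/
structure Ck (P : Par) (kb : Finset (Fin P.J) → ℚ) (n : ℕ) (ms : Multiset Kd) : Prop where
  cls : Cls P P.J n ms
  u : ms.count (P.u P.J) = 0
  base : ∀ K : Finset (Fin P.J), (npt ms K.card (range P.J \ K.map Fin.valEmbedding) : ℚ) =
    kb K * ∏ i ∈ K, (P.c i : ℚ)

/-- The number of the blocks is `e * (2 * s) * qz`. -/
def qz (e s L cz m : ℕ) : ℕ := L * (m / (e * (2 * s) * L * cz))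

end Pool.Agent.GD.BE

end
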