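import Pool.Agent.H94.LP7.M04
import Pool.Agent.H94.LP7.M09
import Pool.Agent.H94.LP7.M10
import Pool.Agent.H94.LP7.M14
import Pool.Agent.H94.LP7.M19
import Pool.Agent.H94.LP7.M21
import Pool.Agent.H94.LP7.M22

/-! The parts of this file: H18.Ex.Final, H18.FatLin_1, H21.HD.FroAsymp, H21.HD.Region, GD.BE.Near, GD.Top.Stmt, V7.Cls, V7.ST.TraceAbs. -/

section

/-!
# Module Final: translation to fat points in projective space
-/

namespace Pool.Agent.H18.Ex

open Finset Pool.Agent.H18.Fat

/-- The coefficient function of a polynomial. -/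
noncomputable def cf {n : ℕ} (F : MvPolynomial (Fin n) ℂ) (a : Fin n → ℕ) : ℂ :=
  F.coeff (Finsupp.equivFunOnFinite.symm a)

/-- The condition at a free point from the order of vanishing. -/
theorem sat_of_vanishes {n d : ℕ} {w : Fin n → ℕ} {F : MvPolynomial (Fin n) ℂ}
    (hsupp : ∀ α ∈ F.support, ⇑α ∈ Rg d w) {q : Fin n → ℂ} {m : ℕ}
    (h : VanishesToOrder F q m) : Sat (Rg d w) (cf F) (Kind.free m) q := by
  intro b hb
  have h1 := h (Finsupp.equivFunOnFinite.symm b) (by
    rw [Finsupp.degree_eq_sum]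
    exact hb)
  rw [coeff_shift] at h1
  rw [← h1]
  symm
  apply sum_bij_ne_zero (fun (α : Fin n →₀ ℕ) _ _ => (⇑α : Fin n → ℕ))
  · intro α hα _
    exact hsupp α hα
  · intro α _ _ β _ _ hαβ
    exact DFunLike.coe_injective hαβ
  · intro a _ hne
    refine ⟨Finsupp.equivFunOnFinite.symm a, ?_, ?_, ?_⟩
    · rw [MvPolynomial.mem_support_iff]
      intro h0
      apply hne
      unfold cf
      rw [h0, zero_mul]
    · exact hne
    · rfl
  · intro α _ _
    unfold cf tcr tc
    congr 1
    rw [show Finsupp.equivFunOnFinite.symm (⇑α) = α from by ext; rfl]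

end Pool.Agent.H18.Ex

end

section

namespace Pool.Agent.H18.Fat

open MvPolynomial Finset

section

variable {ι : Type*} [Fintype ι]

/-- The matrix of the linear conditions imposed by the fat points. -/
noncomputable def condMat (r d : ℕ) (p : ι → Fin (r + 1) → ℂ) (m : ι → ℕ) :
    Matrix (Cond r m) (mons (r + 1) d) ℂ :=
  fun x α => tc (p x.1) α.1 x.2.1

omit [Fintype ι] in
theorem toPoly_mem_fatForms {r d : ℕ} {p : ι → Fin (r + 1) → ℂ} (hp : ∀ i, p i 0 ≠ 0)
    (m : ι → ℕ) (f : mons (r + 1) d → ℂ) :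
    toPoly (r + 1) d f ∈ fatForms r d p m ↔ (condMat r d p m).mulVec f = 0 := by
  constructor
  · intro h
    funext x
    have h1 := h.2 x.1 x.2.1 (mem_aff.1 x.2.2).2
    rw [coeff_shift_toPoly] at h1
    rw [Pi.zero_apply, ← h1]
    unfold Matrix.mulVec dotProduct condMat
    exact sum_congr rfl fun α _ => mul_comm _ _
  · intro h
    refine ⟨toPoly_isHomogeneous f, fun i => ?_⟩
    apply vanishes_of_affine (hp i)
    intro β h0 hdeg
    have h1 := congrFun h ⟨i, β, mem_aff.2 ⟨h0, hdeg⟩⟩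
    rw [coeff_shift_toPoly]
    rw [Pi.zero_apply] at h1
    rw [← h1]
    unfold Matrix.mulVec dotProduct condMat
    exact sum_congr rfl fun α _ => mul_comm _ _

theorem fatForms_eq_map {r d : ℕ} {p : ι → Fin (r + 1) → ℂ} (hp : ∀ i, p i 0 ≠ 0)
    (m : ι → ℕ) :
    fatForms r d p m = Submodule.map (toPoly (r + 1) d)
      (LinearMap.ker (condMat r d p m).mulVecLin) := by
  ext F
  constructor
  · intro h
    refine ⟨fun α => coeff α.1 F, ?_, exists_toPoly h.1⟩
    rw [SetLike.mem_coe, LinearMap.mem_ker, Matrix.mulVecLin_apply]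
    rw [← toPoly_mem_fatForms hp, exists_toPoly h.1]
    exact h
  · rintro ⟨f, hf, rfl⟩
    rw [SetLike.mem_coe, LinearMap.mem_ker, Matrix.mulVecLin_apply] at hf
    exact (toPoly_mem_fatForms hp m f).2 hf

theorem finrank_fatForms_eq {r d : ℕ} {p : ι → Fin (r + 1) → ℂ} (hp : ∀ i, p i 0 ≠ 0)
    (m : ι → ℕ) :
    Module.finrank ℂ (fatForms r d p m) =
      Module.finrank ℂ (LinearMap.ker (condMat r d p m).mulVecLin) := by
  rw [fatForms_eq_map hp]
  exact (Submodule.equivMapOfInjective _ (toPoly_injective _ _) _).finrank_eq.symm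

theorem rank_add_finrank {r d : ℕ} {p : ι → Fin (r + 1) → ℂ} (hp : ∀ i, p i 0 ≠ 0)
    (m : ι → ℕ) :
    Module.finrank ℂ (LinearMap.range (condMat r d p m).mulVecLin) +
      Module.finrank ℂ (fatForms r d p m) = (d + r).choose r := by
  rw [finrank_fatForms_eq hp, LinearMap.finrank_range_add_finrank_ker, Module.finrank_fintype_fun_eq_card,
    Fintype.card_coe, card_mons]

theorem finrank_range_le {r : ℕ} (d : ℕ) (hr : 1 ≤ r) (p : ι → Fin (r + 1) → ℂ) (m : ι → ℕ) :
    Module.finrank ℂ (LinearMap.range (condMat r d p m).mulVecLin) ≤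
      ∑ i, (m i + r - 1).choose r := by
  rw [← card_cond hr m, ← Module.finrank_fintype_fun_eq_card (R := ℂ)]
  exact Submodule.finrank_le _

/-- Every fat point scheme imposes at most its length many conditions. -/
theorem finrank_fatForms_ge {r d : ℕ} (hr : 1 ≤ r) {p : ι → Fin (r + 1) → ℂ}
    (hp : ∀ i, p i 0 ≠ 0) (m : ι → ℕ) :
    ((d + r).choose r : ℤ) - ∑ i, ((m i + r - 1).choose r : ℤ) ≤
      Module.finrank ℂ (fatForms r d p m) := by
  have h1 := rank_add_finrank (d := d) hp m
  have h2 := finrank_range_le d hr p m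
  have h3 : ((∑ i, (m i + r - 1).choose r : ℕ) : ℤ) = ∑ i, ((m i + r - 1).choose r : ℤ) := by
    push_cast
    rfl
  rw [← h3]
  omega

end

end Pool.Agent.H18.Fat

end

section

/-!
Asymptotics of fro.
-/

namespace Pool.Agent.H21.HD

open scoped Classical

namespace FroAsympX

/-- The limit coefficients. -/
noncomputable def lam (κ : ℕ → ℝ) (t : ℕ) : ℝ :=
  (if t = 0 then 1 else 0) - κ (t + 1) / (t.factorial : ℝ)

/-- The coefficients of the logarithmic derivative. -/
noncomputable def ell {P : Type} (r : ℕ) (e : P → ℕ) (I : Finset P) (t : ℕ) : ℝ :=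
  (((r : ℝ) + 1) - ∑ i ∈ I.filter (fun i => e i ∣ t + 1), (e i : ℝ)) / ((r : ℝ) + 1) ^ (t + 1)

theorem phi_succ (κ : ℕ → ℝ) (j : ℕ) : phi κ (j + 1) =
    phi κ j - ∑ e ∈ Finset.range (j + 1), κ (e + 1) * (j.choose e : ℝ) * phi κ (j - e) := by
  rw [phi, Finset.sum_range]

theorem psi_rec (κ : ℕ → ℝ) (j : ℕ) :
    ((j : ℝ) + 1) * (phi κ (j + 1) / ((j + 1).factorial : ℝ)) =
      ∑ t ∈ Finset.range (j + 1), lam κ t * (phi κ (j - t) / ((j - t).factorial : ℝ)) := by
  have hj : ((j.factorial : ℕ) : ℝ) ≠ 0 := Nat.cast_ne_zero.2 (Nat.factorial_ne_zero j)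
  have hj1 : ((j : ℝ) + 1) ≠ 0 := by positivity
  have h1 : ((j : ℝ) + 1) * (phi κ (j + 1) / ((j + 1).factorial : ℝ)) =
      phi κ (j + 1) / (j.factorial : ℝ) := by
    rw [Nat.factorial_succ]
    push_cast
    field_simp
  rw [h1, phi_succ, sub_div, Finset.sum_div]
  have h2 : ∀ t ∈ Finset.range (j + 1), lam κ t * (phi κ (j - t) / ((j - t).factorial : ℝ)) =
      (if t = 0 then phi κ j / (j.factorial : ℝ) else 0) -
        κ (t + 1) * (j.choose t : ℝ) * phi κ (j - t) / (j.factorial : ℝ) := by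
    intro t ht
    have ht' : t ≤ j := Nat.lt_succ_iff.1 (Finset.mem_range.1 ht)
    have h3 := Nat.choose_mul_factorial_mul_factorial ht'
    have h4 : (j.choose t : ℝ) * (t.factorial : ℝ) * ((j - t).factorial : ℝ) =
        (j.factorial : ℝ) := by exact_mod_cast h3
    have h5 : ((t.factorial : ℕ) : ℝ) ≠ 0 := Nat.cast_ne_zero.2 (Nat.factorial_ne_zero t)
    have h6 : (((j - t).factorial : ℕ) : ℝ) ≠ 0 :=
      Nat.cast_ne_zero.2 (Nat.factorial_ne_zero (j - t))
    unfold lam
    by_cases h0 : t = 0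
    · subst h0
      simp
      ring
    · rw [if_neg h0, if_neg h0, zero_sub, zero_sub, ← h4]
      have h7 : (j.choose t : ℝ) ≠ 0 := by
        intro h
        rw [h, zero_mul, zero_mul] at h4
        exact hj h4.symm
      field_simp
  rw [Finset.sum_congr rfl h2, Finset.sum_sub_distrib, Finset.sum_ite_eq']
  rw [if_pos (Finset.mem_range.2 (Nat.succ_pos j))]

theorem alpha_rec {P : Type} (r : ℕ) (e : P → ℕ) (I : Finset P) (he : ∀ i ∈ I, 1 ≤ e i) (j : ℕ) :
    ((j : ℝ) + 1) * ((fro r e I (j + 1) : ℝ) / ((r : ℝ) + 1) ^ (j + 1)) =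
      ∑ t ∈ Finset.range (j + 1), ell r e I t *
        ((fro r e I (j - t) : ℝ) / ((r : ℝ) + 1) ^ (j - t)) := by
  have hn : ((r : ℝ) + 1) ≠ 0 := by positivity
  have h1 := fro_rec r e I he (j + 1)
  have h2 : ((((j + 1 : ℕ) : ℤ) * fro r e I (j + 1) : ℤ) : ℝ) =
      ((∑ t ∈ Finset.range (j + 1),
      (((r : ℤ) + 1) - ∑ i ∈ I.filter (fun i => e i ∣ t + 1), (e i : ℤ)) *
        fro r e I (j + 1 - 1 - t) : ℤ) : ℝ) := by rw [h1]
  push_cast at h2
  rw [← mul_div_assoc, h2, Finset.sum_div]
  refine Finset.sum_congr rfl fun t ht => ?_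
  have ht' : t ≤ j := Nat.lt_succ_iff.1 (Finset.mem_range.1 ht)
  unfold ell
  have h3 : ((r : ℝ) + 1) ^ (j + 1) = ((r : ℝ) + 1) ^ (t + 1) * ((r : ℝ) + 1) ^ (j - t) := by
    rw [← pow_add]
    congr 1
    omega
  rw [h3, div_mul_div_comm]

theorem ell_sub_lam {P : Type} (r : ℕ) (e : P → ℕ) (I : Finset P) (t : ℕ) (C : ℝ) (hC : 0 ≤ C)
    (hload : ∀ i, 1 ≤ i → i ≤ t + 1 → load r e I i ≤ C) :
    |ell r e I t - lam (load r e I) t| ≤ (1 + ((t : ℝ) + 1) * C) / ((r : ℝ) + 1) := by
  have hn1 : (1 : ℝ) ≤ (r : ℝ) + 1 := by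
    have : (0 : ℝ) ≤ (r : ℝ) := Nat.cast_nonneg r
    linarith
  have hn0 : (0 : ℝ) < (r : ℝ) + 1 := by linarith
  set n : ℝ := (r : ℝ) + 1 with hndef
  -- group the sum by the value of the exponent
  have h1 : ∑ i ∈ I.filter (fun i => e i ∣ t + 1), (e i : ℝ) =
      ∑ d ∈ (t + 1).divisors, (d : ℝ) * ((I.filter (fun p => e p = d)).card : ℝ) := by
    rw [← Finset.sum_fiberwise_of_maps_to (s := I.filter (fun i => e i ∣ t + 1))
      (t := (t + 1).divisors) (g := e)]
    · refine Finset.sum_congr rfl fun d hd => ?_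
      have hd' := Nat.dvd_of_mem_divisors hd
      have h2 : (I.filter (fun i => e i ∣ t + 1)).filter (fun i => e i = d) =
          I.filter (fun p => e p = d) := by
        ext p
        simp only [Finset.mem_filter]
        constructor
        · rintro ⟨⟨h3, _⟩, h4⟩
          exact ⟨h3, h4⟩
        · rintro ⟨h3, h4⟩
          exact ⟨⟨h3, h4 ▸ hd'⟩, h4⟩
      rw [h2, Finset.sum_congr rfl (g := fun _ => (d : ℝ))]
      · rw [Finset.sum_const, nsmul_eq_mul, mul_comm]
      · intro p hp
        rw [(Finset.mem_filter.1 hp).2]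
    · intro p hp
      exact Nat.mem_divisors.2 ⟨(Finset.mem_filter.1 hp).2, Nat.succ_ne_zero t⟩
  have hk : ∀ d : ℕ, ((I.filter (fun p => e p = d)).card : ℝ) =
      load r e I d * n ^ d / (d.factorial : ℝ) := by
    intro d
    have h5 : ((d.factorial : ℕ) : ℝ) ≠ 0 := Nat.cast_ne_zero.2 (Nat.factorial_ne_zero d)
    unfold load
    rw [← hndef]
    field_simp
  have hload0 : ∀ d, 0 ≤ load r e I d := by
    intro d
    unfold load
    positivity
  have h6 : ∑ d ∈ (t + 1).divisors, (d : ℝ) * ((I.filter (fun p => e p = d)).card : ℝ) =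
      (∑ d ∈ (t + 1).properDivisors, (d : ℝ) * ((I.filter (fun p => e p = d)).card : ℝ)) +
      ((t + 1 : ℕ) : ℝ) * ((I.filter (fun p => e p = t + 1)).card : ℝ) := by
    rw [← Nat.cons_self_properDivisors (Nat.succ_ne_zero t), Finset.sum_cons, add_comm]
  have h7 : ((t + 1 : ℕ) : ℝ) * ((I.filter (fun p => e p = t + 1)).card : ℝ) / n ^ (t + 1) =
      load r e I (t + 1) / (t.factorial : ℝ) := by
    have h5 : ((t.factorial : ℕ) : ℝ) ≠ 0 := Nat.cast_ne_zero.2 (Nat.factorial_ne_zero t)
    have h8 : ((t : ℝ) + 1) ≠ 0 := by positivity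
    rw [hk, Nat.factorial_succ]
    push_cast
    field_simp
  have h9 : ell r e I t - lam (load r e I) t =
      (n / n ^ (t + 1) - (if t = 0 then 1 else 0)) -
      (∑ d ∈ (t + 1).properDivisors, (d : ℝ) * ((I.filter (fun p => e p = d)).card : ℝ)) /
        n ^ (t + 1) := by
    unfold ell lam
    rw [h1, h6, ← h7, ← hndef]
    ring
  rw [h9]
  have h10 : |n / n ^ (t + 1) - (if t = 0 then 1 else 0)| ≤ 1 / n := by
    by_cases h0 : t = 0
    · subst h0
      rw [if_pos rfl, zero_add, pow_one, div_self hn0.ne', sub_self, abs_zero]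
      positivity
    · rw [if_neg h0, sub_zero, abs_of_nonneg (by positivity), div_le_div_iff₀ (by positivity) hn0,
        one_mul, ← pow_two]
      exact pow_le_pow_right₀ hn1 (by omega)
  have h11 : |(∑ d ∈ (t + 1).properDivisors,
      (d : ℝ) * ((I.filter (fun p => e p = d)).card : ℝ)) / n ^ (t + 1)| ≤
      ((t : ℝ) + 1) * C / n := by
    rw [abs_of_nonneg (div_nonneg (Finset.sum_nonneg fun d _ => mul_nonneg (Nat.cast_nonneg _)
      (Nat.cast_nonneg _)) (pow_nonneg hn0.le _)), Finset.sum_div]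
    have h12 : ∀ d ∈ (t + 1).properDivisors,
        (d : ℝ) * ((I.filter (fun p => e p = d)).card : ℝ) / n ^ (t + 1) ≤ C / n := by
      intro d hd
      have hd1 := Nat.mem_properDivisors.1 hd
      have hd2 : 1 ≤ d := Nat.pos_of_dvd_of_pos hd1.1 (Nat.succ_pos t)
      have hl := hload d hd2 (by omega)
      have hl0 := hload0 d
      have h13 : (d : ℝ) ≤ (d.factorial : ℝ) := by exact_mod_cast Nat.self_le_factorial d
      have h14 : (0 : ℝ) < (d.factorial : ℝ) := by exact_mod_cast Nat.factorial_pos d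
      rw [hk, div_le_div_iff₀ (by positivity) hn0]
      have h15 : n ^ d * n ≤ n ^ (t + 1) := by
        rw [← pow_succ]
        exact pow_le_pow_right₀ hn1 (by omega)
      calc (d : ℝ) * (load r e I d * n ^ d / (d.factorial : ℝ)) * n
          = ((d : ℝ) / (d.factorial : ℝ)) * (load r e I d * (n ^ d * n)) := by ring
        _ ≤ 1 * (load r e I d * (n ^ d * n)) := by
          apply mul_le_mul_of_nonneg_right
          · rw [div_le_one h14]
            exact h13
          · positivity
        _ ≤ 1 * (C * n ^ (t + 1)) := by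
          rw [one_mul, one_mul]
          exact mul_le_mul hl h15 (by positivity) hC
        _ = C * n ^ (t + 1) := one_mul _
    refine le_trans (Finset.sum_le_card_nsmul _ _ _ h12) ?_
    rw [nsmul_eq_mul, mul_div_assoc]
    apply mul_le_mul_of_nonneg_right
    · have h16 : ((t + 1).properDivisors).card ≤ t + 1 := by
        have h17 : (t + 1).properDivisors ⊆ Finset.range (t + 1) := by
          intro d hd
          exact Finset.mem_range.2 (Nat.mem_properDivisors.1 hd).2
        calc _ ≤ (Finset.range (t + 1)).card := Finset.card_le_card h17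
          _ = t + 1 := Finset.card_range _
      exact_mod_cast h16
    · positivity
  calc _ ≤ |n / n ^ (t + 1) - (if t = 0 then 1 else 0)| + |(∑ d ∈ (t + 1).properDivisors,
      (d : ℝ) * ((I.filter (fun p => e p = d)).card : ℝ)) / n ^ (t + 1)| := abs_sub _ _
    _ ≤ 1 / n + ((t : ℝ) + 1) * C / n := add_le_add h10 h11
    _ = (1 + ((t : ℝ) + 1) * C) / n := by ring

theorem abs_lam_le {P : Type} (r : ℕ) (e : P → ℕ) (I : Finset P) (t : ℕ) (C : ℝ)
    (hload : load r e I (t + 1) ≤ C) : |lam (load r e I) t| ≤ 1 + C := by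
  have h0 : 0 ≤ load r e I (t + 1) := by
    unfold load
    positivity
  have h1 : (1 : ℝ) ≤ (t.factorial : ℝ) := by exact_mod_cast Nat.factorial_pos t
  have h2 : load r e I (t + 1) / (t.factorial : ℝ) ≤ C :=
    le_trans (div_le_self h0 h1) hload
  have h3 : 0 ≤ load r e I (t + 1) / (t.factorial : ℝ) := by positivity
  unfold lam
  refine le_trans (abs_sub _ _) (add_le_add ?_ ?_)
  · by_cases ht : t = 0
    · rw [if_pos ht, abs_one]
    · rw [if_neg ht, abs_zero]
      exact zero_le_one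
  · rw [abs_of_nonneg h3]
    exact h2

theorem fro_zero {P : Type} (r : ℕ) (e : P → ℕ) (I : Finset P) (he : ∀ i ∈ I, 1 ≤ e i) :
    fro r e I 0 = 1 := by
  induction I using Finset.induction_on with
  | empty => simp [fro]
  | insert a s ha ih =>
    have h1 := he a (Finset.mem_insert_self a s)
    rw [fro_insert r e s a ha, ih fun i hi => he i (Finset.mem_insert_of_mem hi),
      if_neg (by omega), sub_zero]

theorem main (j : ℕ) (C : ℝ) (hC : 0 ≤ C) : ∃ K : ℝ, 0 ≤ K ∧ ∀ r : ℕ,
    ∀ (P : Type) (e : P → ℕ) (I : Finset P), (∀ i ∈ I, 1 ≤ e i) →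
    (∀ i, 1 ≤ i → i ≤ j → load r e I i ≤ C) → ∀ i ≤ j,
    |(fro r e I i : ℝ) / ((r : ℝ) + 1) ^ i - phi (load r e I) i / (i.factorial : ℝ)| ≤
      K / ((r : ℝ) + 1) ∧ |(fro r e I i : ℝ) / ((r : ℝ) + 1) ^ i| ≤ K ∧
      |phi (load r e I) i / (i.factorial : ℝ)| ≤ K := by
  induction j with
  | zero =>
    refine ⟨1, zero_le_one, fun r P e I he _ i hi => ?_⟩
    have : i = 0 := by omega
    subst this
    rw [fro_zero r e I he, phi]
    have hn0 : (0 : ℝ) < (r : ℝ) + 1 := by positivity
    simp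
    positivity
  | succ j ih =>
    obtain ⟨K, hK0, hK⟩ := ih
    refine ⟨K * (3 + ((j : ℝ) + 3) * C), by positivity, fun r P e I he hload i hi => ?_⟩
    have hKK : K ≤ K * (3 + ((j : ℝ) + 3) * C) := by
      apply le_mul_of_one_le_right hK0
      have : 0 ≤ ((j : ℝ) + 3) * C := by positivity
      linarith only [this]
    have hn0 : (0 : ℝ) < (r : ℝ) + 1 := by positivity
    have hn1 : (1 : ℝ) ≤ (r : ℝ) + 1 := by
      have : (0 : ℝ) ≤ (r : ℝ) := Nat.cast_nonneg r
      linarith only
    have hK' := hK r P e I he fun i h1 h2 => hload i h1 (by omega)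
    rcases Nat.lt_or_ge j i with hji | hji
    · have : i = j + 1 := by omega
      subst this
      have hj0 : (0 : ℝ) < (j : ℝ) + 1 := by positivity
      have hA := alpha_rec r e I he j
      have hB := psi_rec (load r e I) j
      set α : ℕ → ℝ := fun i => (fro r e I i : ℝ) / ((r : ℝ) + 1) ^ i with hα
      set ψ : ℕ → ℝ := fun i => phi (load r e I) i / (i.factorial : ℝ) with hψ
      have hlam : ∀ t ∈ Finset.range (j + 1), |lam (load r e I) t| ≤ 1 + C := by
        intro t ht
        have ht' := Finset.mem_range.1 ht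
        exact abs_lam_le r e I t C (hload (t + 1) (by omega) (by omega))
      have hell : ∀ t ∈ Finset.range (j + 1), |ell r e I t - lam (load r e I) t| ≤
          (1 + ((j : ℝ) + 1) * C) / ((r : ℝ) + 1) := by
        intro t ht
        have ht' := Finset.mem_range.1 ht
        refine le_trans (ell_sub_lam r e I t C hC fun i h1 h2 => hload i h1 (by omega)) ?_
        apply div_le_div_of_nonneg_right _ hn0.le
        have : (t : ℝ) ≤ (j : ℝ) := by exact_mod_cast Nat.lt_succ_iff.1 ht'
        nlinarith only [hC, this]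
      have h1 : |α (j + 1) - ψ (j + 1)| ≤ K * (2 + ((j : ℝ) + 2) * C) / ((r : ℝ) + 1) := by
        have h2 : ((j : ℝ) + 1) * (α (j + 1) - ψ (j + 1)) = ∑ t ∈ Finset.range (j + 1),
            ((ell r e I t - lam (load r e I) t) * α (j - t) +
              lam (load r e I) t * (α (j - t) - ψ (j - t))) := by
          rw [mul_sub]
          simp only [hα, hψ]
          rw [hA, hB, ← Finset.sum_sub_distrib]
          refine Finset.sum_congr rfl fun t _ => ?_
          ring
        have h3 : |((j : ℝ) + 1) * (α (j + 1) - ψ (j + 1))| ≤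
            ((j : ℝ) + 1) * (K * (2 + ((j : ℝ) + 2) * C) / ((r : ℝ) + 1)) := by
          rw [h2]
          refine le_trans (Finset.abs_sum_le_sum_abs _ _) ?_
          have h4 : ∀ t ∈ Finset.range (j + 1),
              |(ell r e I t - lam (load r e I) t) * α (j - t) +
              lam (load r e I) t * (α (j - t) - ψ (j - t))| ≤
              K * (2 + ((j : ℝ) + 2) * C) / ((r : ℝ) + 1) := by
            intro t ht
            have ht' := Finset.mem_range.1 ht
            obtain ⟨h5, h6, _⟩ := hK' (j - t) (by omega)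
            refine le_trans (abs_add_le _ _) ?_
            rw [abs_mul, abs_mul]
            calc _ ≤ (1 + ((j : ℝ) + 1) * C) / ((r : ℝ) + 1) * K +
                  (1 + C) * (K / ((r : ℝ) + 1)) :=
                  add_le_add (mul_le_mul (hell t ht) h6 (abs_nonneg _) (by positivity))
                    (mul_le_mul (hlam t ht) h5 (abs_nonneg _) (by positivity))
              _ = K * (2 + ((j : ℝ) + 2) * C) / ((r : ℝ) + 1) := by ring
          refine le_trans (Finset.sum_le_card_nsmul _ _ _ h4) ?_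
          rw [Finset.card_range, nsmul_eq_mul]
          push_cast
          exact le_rfl
        rw [abs_mul, abs_of_pos hj0] at h3
        exact le_of_mul_le_mul_left h3 hj0
      have h7 : |ψ (j + 1)| ≤ (1 + C) * K := by
        have h3 : |((j : ℝ) + 1) * ψ (j + 1)| ≤ ((j : ℝ) + 1) * ((1 + C) * K) := by
          simp only [hψ]
          rw [hB]
          refine le_trans (Finset.abs_sum_le_sum_abs _ _) ?_
          have h4 : ∀ t ∈ Finset.range (j + 1), |lam (load r e I) t *
              (phi (load r e I) (j - t) / ((j - t).factorial : ℝ))| ≤ (1 + C) * K := by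
            intro t ht
            have ht' := Finset.mem_range.1 ht
            obtain ⟨_, _, h6⟩ := hK' (j - t) (by omega)
            rw [abs_mul]
            exact mul_le_mul (hlam t ht) h6 (abs_nonneg _) (by positivity)
          refine le_trans (Finset.sum_le_card_nsmul _ _ _ h4) ?_
          rw [Finset.card_range, nsmul_eq_mul]
          push_cast
          exact le_rfl
        rw [abs_mul, abs_of_pos hj0] at h3
        exact le_of_mul_le_mul_left h3 hj0
      have hX : 0 ≤ K * (2 + ((j : ℝ) + 2) * C) := by positivity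
      have h8 : K * (2 + ((j : ℝ) + 2) * C) / ((r : ℝ) + 1) ≤ K * (2 + ((j : ℝ) + 2) * C) :=
        div_le_self hX hn1
      have h9 : |α (j + 1)| ≤ K * (2 + ((j : ℝ) + 2) * C) + (1 + C) * K := by
        have h10 : α (j + 1) = (α (j + 1) - ψ (j + 1)) + ψ (j + 1) := by ring
        rw [h10]
        exact le_trans (abs_add_le _ _) (add_le_add (le_trans h1 h8) h7)
      have hKC : 0 ≤ K * C := mul_nonneg hK0 hC
      refine ⟨?_, ?_, ?_⟩
      · refine le_trans h1 ?_
        apply div_le_div_of_nonneg_right _ hn0.le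
        nlinarith only [hK0, hKC]
      · refine le_trans h9 ?_
        nlinarith only
      · refine le_trans h7 ?_
        have : 0 ≤ K * C * (j : ℝ) := by positivity
        nlinarith only [hX]
    · obtain ⟨h1, h2, h3⟩ := hK' i hji
      exact ⟨le_trans h1 (div_le_div_of_nonneg_right hKK hn0.le), le_trans h2 hKK,
        le_trans h3 hKK⟩

theorem phi_load_empty {P : Type} (r : ℕ) (e : P → ℕ) (j : ℕ) :
    phi (load r e (∅ : Finset P)) j = 1 := by
  induction j with
  | zero => rw [phi]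
  | succ j ih =>
    rw [phi_succ, ih, Finset.sum_eq_zero, sub_zero]
    intro t _
    simp [load]

theorem pow_le_choose (r j : ℕ) :
    ((r : ℝ) + 1) ^ j ≤ (j.factorial : ℝ) * ((j + r).choose r : ℝ) := by
  have h1 := Nat.pow_succ_le_ascFactorial (r + 1) j
  rw [Nat.ascFactorial_eq_factorial_mul_choose] at h1
  have h2 : (r + j).choose j = (j + r).choose r := by
    rw [Nat.add_comm r j]
    exact Nat.choose_symm_add
  rw [h2] at h1
  exact_mod_cast h1

end FroAsympX

/-- The asymptotic value of `fro`, uniformly for bounded loads. -/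
theorem fro_asymp (j : ℕ) (C : ℝ) (η : ℝ) (hη : 0 < η) : ∃ r₀ : ℕ, ∀ r : ℕ, r₀ ≤ r →
    ∀ (P : Type) (e : P → ℕ) (I : Finset P), (∀ i ∈ I, 1 ≤ e i) →
    (∀ i, 1 ≤ i → i ≤ j → load r e I i ≤ C) →
    |(fro r e I j : ℝ) - phi (load r e I) j * ((j + r).choose r : ℝ)| ≤
      η * ((j + r).choose r : ℝ) := by
  obtain ⟨K, hK0, hK⟩ := FroAsympX.main j (max C 0) (le_max_right _ _)
  have hfac : (0 : ℝ) < (j.factorial : ℝ) := by exact_mod_cast Nat.factorial_pos j
  obtain ⟨r₀, hr₀⟩ := exists_nat_ge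
    ((j.factorial : ℝ) * (K + (j.factorial : ℝ) * K * K) / η)
  refine ⟨r₀, fun r hr P e I he hload => ?_⟩
  have hn0 : (0 : ℝ) < (r : ℝ) + 1 := by positivity
  obtain ⟨h1, _, h3⟩ := hK r P e I he
    (fun i ha hb => le_trans (hload i ha hb) (le_max_left _ _)) j le_rfl
  obtain ⟨h4, _, _⟩ := hK r P e (∅ : Finset P) (fun i hi => absurd hi (Finset.notMem_empty i))
    (fun i _ _ => by simp [load]) j le_rfl
  rw [FroAX.fro_empty, FroAsympX.phi_load_empty, Nat.add_comm r j] at h4
  push_cast at h4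
  set n : ℝ := (r : ℝ) + 1 with hn
  set cb : ℝ := ((j + r).choose r : ℝ) with hcb
  set φ : ℝ := phi (load r e I) j with hφ
  have hcb0 : 0 ≤ cb := Nat.cast_nonneg _
  have h5 : |φ| ≤ (j.factorial : ℝ) * K := by
    rw [abs_div, abs_of_pos hfac, div_le_iff₀ hfac] at h3
    linarith only [h3]
  have hnj : (0 : ℝ) < n ^ j := by positivity
  have h6 : (fro r e I j : ℝ) - φ * cb =
      n ^ j * (((fro r e I j : ℝ) / n ^ j - φ / (j.factorial : ℝ)) +
        φ * (1 / (j.factorial : ℝ) - cb / n ^ j)) := by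
    field_simp
    ring
  rw [h6, abs_mul, abs_of_pos hnj]
  have h7 : |((fro r e I j : ℝ) / n ^ j - φ / (j.factorial : ℝ)) +
        φ * (1 / (j.factorial : ℝ) - cb / n ^ j)| ≤ (K + (j.factorial : ℝ) * K * K) / n := by
    refine le_trans (abs_add_le _ _) ?_
    rw [abs_mul, abs_sub_comm (1 / (j.factorial : ℝ))]
    calc _ ≤ K / n + (j.factorial : ℝ) * K * (K / n) :=
          add_le_add h1 (mul_le_mul h5 h4 (abs_nonneg _) (by positivity))
      _ = (K + (j.factorial : ℝ) * K * K) / n := by ring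
  have h8 := FroAsympX.pow_le_choose r j
  rw [← hn, ← hcb] at h8
  have h9 : (j.factorial : ℝ) * (K + (j.factorial : ℝ) * K * K) ≤ η * n := by
    rw [div_le_iff₀ hη] at hr₀
    have h10 : (r₀ : ℝ) ≤ (r : ℝ) := by exact_mod_cast hr
    have h11 : (r₀ : ℝ) * η ≤ n * η := mul_le_mul_of_nonneg_right (by linarith only [h10]) hη.le
    linarith only [hr₀, h11]
  calc n ^ j * |((fro r e I j : ℝ) / n ^ j - φ / (j.factorial : ℝ)) +
        φ * (1 / (j.factorial : ℝ) - cb / n ^ j)|
      ≤ ((j.factorial : ℝ) * cb) * ((K + (j.factorial : ℝ) * K * K) / n) :=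
        mul_le_mul h8 h7 (abs_nonneg _) (by positivity)
    _ = ((j.factorial : ℝ) * (K + (j.factorial : ℝ) * K * K)) * cb / n := by ring
    _ ≤ (η * n) * cb / n := by
        apply div_le_div_of_nonneg_right _ hn0.le
        exact mul_le_mul_of_nonneg_right h9 hcb0
    _ = η * cb := by
        field_simp

end Pool.Agent.H21.HD

end

section

/-!
The region in terms of `fro`.
-/

namespace Pool.Agent.H21.HD

open scoped Classical

namespace RegionX

lemma phi_nonneg_le (j : ℕ) (κ : ℕ → ℝ) (h0 : ∀ i, 0 ≤ κ i) (hpos : ∀ i ≤ j, 0 ≤ phi κ i) :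
    ∀ i ≤ j + 1, phi κ i ≤ 1 := by
  intro i
  induction i with
  | zero => intro _; rw [phi]
  | succ i ih =>
    intro hi
    rw [phi]
    have h1 := ih (by omega)
    have h2 : 0 ≤ ∑ e : Fin (i + 1), κ (e + 1) * (i.choose e : ℝ) * phi κ (i - e) := by
      apply Finset.sum_nonneg
      intro e _
      have h3 := hpos (i - e) (by omega)
      have h4 := h0 (e + 1)
      positivity
    linarith

lemma phi_congr' {κ κ' : ℕ → ℝ} : ∀ j : ℕ, (∀ i, 1 ≤ i → i ≤ j → κ i = κ' i) →
    phi κ j = phi κ' j := by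
  intro j
  induction j using Nat.strong_induction_on with
  | _ j ih =>
    intro h
    cases j with
    | zero => rw [phi, phi]
    | succ j =>
      rw [phi, phi, ih j (Nat.lt_succ_self j) fun i h1 h2 => h i h1 (by omega)]
      congr 1
      refine Finset.sum_congr rfl fun e _ => ?_
      have he := e.2
      rw [h (e + 1) (by omega) (by omega), ih (j - e) (by omega) fun i h1 h2 => h i h1 (by omega)]

lemma load_nonneg' {P : Type} (r : ℕ) (e : P → ℕ) (I : Finset P) (i : ℕ) : 0 ≤ load r e I i := by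
  unfold load
  positivity

/-- `j! binom(j + r, r) ≤ 2 (r + 1)^j` for large `r`. -/
lemma choose_le_two (j : ℕ) : ∃ r₀ : ℕ, ∀ r : ℕ, r₀ ≤ r →
    (j.factorial : ℝ) * ((j + r).choose r : ℝ) ≤ 2 * ((r : ℝ) + 1) ^ j := by
  have key : ∀ r : ℕ, (j.factorial : ℝ) * ((j + r).choose r : ℝ) ≤ ((r : ℝ) + j) ^ j := by
    intro r
    have h1 : (j + r).choose r = (j + r).choose j := by
      rw [Nat.choose_symm_add]
    have h2 : j.factorial * (j + r).choose j ≤ (j + r) ^ j := by
      rw [← Nat.descFactorial_eq_factorial_mul_choose]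
      exact Nat.descFactorial_le_pow _ _
    rw [h1]
    have h3 : ((j.factorial * (j + r).choose j : ℕ) : ℝ) ≤ (((j + r) ^ j : ℕ) : ℝ) := by
      exact_mod_cast h2
    push_cast at h3
    rw [add_comm (j : ℝ) (r : ℝ)] at h3
    exact h3
  -- `(r + j)^j ≤ 2 (r+1)^j`
  have hlim : Filter.Tendsto (fun r : ℕ => (((r : ℝ) + j) / ((r : ℝ) + 1)) ^ j) Filter.atTop
      (nhds (1 ^ j)) := by
    apply Filter.Tendsto.pow
    have h1 : (fun r : ℕ => ((r : ℝ) + j) / ((r : ℝ) + 1)) =
        fun r : ℕ => 1 + ((j : ℝ) - 1) / ((r : ℝ) + 1) := by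
      funext r
      have : (r : ℝ) + 1 ≠ 0 := by positivity
      field_simp
      ring
    rw [h1]
    have h2 : Filter.Tendsto (fun r : ℕ => ((j : ℝ) - 1) / ((r : ℝ) + 1)) Filter.atTop (nhds 0) := by
      apply Filter.Tendsto.div_atTop tendsto_const_nhds
      exact Filter.tendsto_atTop_add_const_right _ _ tendsto_natCast_atTop_atTop
    simpa using h2.const_add 1
  rw [one_pow] at hlim
  have h1 := hlim.eventually (gt_mem_nhds (show (1 : ℝ) < 2 by norm_num))
  obtain ⟨r₀, hr₀⟩ := Filter.eventually_atTop.1 h1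
  refine ⟨r₀, fun r hr => (key r).trans ?_⟩
  have h2 := (hr₀ r hr).le
  rw [div_pow, div_le_iff₀ (by positivity)] at h2
  exact h2

end RegionX

open RegionX

/-- If the Fröberg numbers are large then the loads are bounded and `phi` is large. -/
theorem region_of_fro (d : ℕ) (η : ℝ) (hη : 0 < η) : ∃ r₀ : ℕ, ∀ r : ℕ, r₀ ≤ r →
    ∀ (P : Type) (e : P → ℕ) (I : Finset P), (∀ i ∈ I, 1 ≤ e i) →
    (∀ j ≤ d, η * ((j + r).choose r : ℝ) ≤ (fro r e I j : ℝ)) →
    (∀ i, 1 ≤ i → i ≤ d → load r e I i ≤ 2) ∧ ∀ j ≤ d, η / 2 ≤ phi (load r e I) j := by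
  choose R hR using fun j : ℕ => fro_asymp j 2 (η / 2) (by linarith)
  choose S hS using fun j : ℕ => choose_le_two j
  refine ⟨(Finset.range (d + 1)).sup R + (Finset.range (d + 1)).sup S, fun r hr P e I he hfro => ?_⟩
  have hRr : ∀ j ≤ d, R j ≤ r := by
    intro j hj
    have h1 : R j ≤ (Finset.range (d + 1)).sup R :=
      Finset.le_sup (f := R) (Finset.mem_range.2 (Nat.lt_succ_of_le hj))
    omega
  have hSr : ∀ j ≤ d, S j ≤ r := by
    intro j hj
    have h1 : S j ≤ (Finset.range (d + 1)).sup S :=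
      Finset.le_sup (f := S) (Finset.mem_range.2 (Nat.lt_succ_of_le hj))
    omega
  have hs : ∀ j, (0 : ℝ) < ((j + r).choose r : ℝ) := by
    intro j
    exact_mod_cast Nat.choose_pos (by omega)
  have key : ∀ j ≤ d, (∀ i, 1 ≤ i → i ≤ j → load r e I i ≤ 2) ∧
      ∀ i ≤ j, η / 2 ≤ phi (load r e I) i := by
    intro j
    induction j with
    | zero =>
      intro _
      refine ⟨fun i h1 h2 => by omega, fun i hi => ?_⟩
      have hi0 : i = 0 := by omega
      subst hi0
      have h1 := hfro 0 (Nat.zero_le _)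
      rw [fro_zero r e I he] at h1
      have h2 : (0 + r).choose r = 1 := by simp
      rw [h2] at h1
      rw [phi]
      push_cast at h1
      linarith
    | succ j ih =>
      intro hj
      obtain ⟨ih1, ih2⟩ := ih (by omega)
      -- the load of `j + 1`
      have hload : load r e I (j + 1) ≤ 2 := by
        set I₁ := I.filter (fun p => e p < j + 1) with hI₁
        set I₂ := I.filter (fun p => e p = j + 1) with hI₂
        set I₃ := I.filter (fun p => j + 1 < e p) with hI₃
        have hd12 : Disjoint I₁ I₂ := by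
          rw [Finset.disjoint_left]
          intro x hx hx'
          rw [Finset.mem_filter] at hx hx'
          omega
        have hd3 : Disjoint (I₁ ∪ I₂) I₃ := by
          rw [Finset.disjoint_left]
          intro x hx hx'
          rw [Finset.mem_union, Finset.mem_filter, Finset.mem_filter] at hx
          rw [Finset.mem_filter] at hx'
          omega
        have hI : I = (I₁ ∪ I₂) ∪ I₃ := by
          ext x
          simp only [hI₁, hI₂, hI₃, Finset.mem_union, Finset.mem_filter]
          constructor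
          · intro hx
            rcases lt_trichotomy (e x) (j + 1) with h | h | h
            · exact Or.inl (Or.inl ⟨hx, h⟩)
            · exact Or.inl (Or.inr ⟨hx, h⟩)
            · exact Or.inr ⟨hx, h⟩
          · rintro ((h | h) | h) <;> exact h.1
        have h1 : fro r e I (j + 1) = fro r e I₁ (j + 1) - I₂.card := by
          conv_lhs => rw [hI]
          rw [fro_union_large r (j + 1) e _ _ hd3 (fun i hi => (Finset.mem_filter.1 hi).2),
            fro_simple r (j + 1) e I₁ I₂ hd12 (fun i hi => he i (Finset.mem_filter.1 hi).1)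
              (by omega) (fun i hi => (Finset.mem_filter.1 hi).2)]
        have hload₁ : ∀ i, 1 ≤ i → i ≤ j + 1 → load r e I₁ i =
            if i = j + 1 then 0 else load r e I i := by
          intro i h2 h3
          unfold load
          split_ifs with h4
          · have h5 : I₁.filter (fun p => e p = i) = ∅ := by
              rw [Finset.filter_eq_empty_iff]
              intro x hx hxi
              rw [hI₁, Finset.mem_filter] at hx
              omega
            rw [h5]
            simp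
          · have h5 : I₁.filter (fun p => e p = i) = I.filter (fun p => e p = i) := by
              ext x
              simp only [hI₁, Finset.mem_filter]
              constructor
              · rintro ⟨⟨h6, _⟩, h7⟩
                exact ⟨h6, h7⟩
              · rintro ⟨h6, h7⟩
                exact ⟨⟨h6, by omega⟩, h7⟩
            rw [h5]
        have h2 := hR (j + 1) r (hRr (j + 1) hj) P e I₁
          (fun i hi => he i (Finset.mem_filter.1 hi).1) (by
            intro i h3 h4
            rw [hload₁ i h3 h4]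
            split_ifs with h5
            · norm_num
            · exact ih1 i h3 (by omega))
        have h3 : phi (load r e I₁) (j + 1) ≤ 1 := by
          apply phi_nonneg_le j _ (load_nonneg' r e I₁) _ (j + 1) le_rfl
          intro i hi
          rw [phi_congr' (κ' := load r e I) i]
          · have := ih2 i hi
            linarith
          · intro t h4 h5
            rw [hload₁ t h4 (by omega), if_neg (by omega)]
        have h4 := (abs_le.1 h2).2
        have h5 := hfro (j + 1) hj
        have hsj := hs (j + 1)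
        have h6 : (I₂.card : ℝ) ≤ ((j + 1 + r).choose r : ℝ) := by
          rw [h1] at h5
          push_cast at h5
          have h7 : phi (load r e I₁) (j + 1) * ((j + 1 + r).choose r : ℝ) ≤
              1 * ((j + 1 + r).choose r : ℝ) := mul_le_mul_of_nonneg_right h3 hsj.le
          have h8 : 0 ≤ η / 2 * ((j + 1 + r).choose r : ℝ) := by positivity
          linarith
        unfold load
        rw [div_le_iff₀ (by positivity)]
        have h7 := hS (j + 1) r (hSr (j + 1) hj)
        have h8 : ((j + 1).factorial : ℝ) * (I₂.card : ℝ) ≤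
            ((j + 1).factorial : ℝ) * ((j + 1 + r).choose r : ℝ) :=
          mul_le_mul_of_nonneg_left h6 (by positivity)
        exact h8.trans h7
      have hload' : ∀ i, 1 ≤ i → i ≤ j + 1 → load r e I i ≤ 2 := by
        intro i h1 h2
        rcases Nat.lt_or_ge i (j + 1) with h3 | h3
        · exact ih1 i h1 (by omega)
        · have : i = j + 1 := by omega
          rw [this]
          exact hload
      refine ⟨hload', fun i hi => ?_⟩
      rcases Nat.lt_or_ge i (j + 1) with h3 | h3
      · exact ih2 i (by omega)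
      · have hi' : i = j + 1 := by omega
        subst hi'
        have h4 := hR (j + 1) r (hRr (j + 1) hj) P e I he hload'
        have h5 := (abs_le.1 h4).2
        have h6 := hfro (j + 1) hj
        have h7 : η / 2 * ((j + 1 + r).choose r : ℝ) ≤
            phi (load r e I) (j + 1) * ((j + 1 + r).choose r : ℝ) := by linarith
        exact le_of_mul_le_mul_right h7 (hs (j + 1))
  exact key d le_rfl

end Pool.Agent.H21.HD

end

section

/-!
# General d, block BETA, module Near: openness

As `V7/BE/Proj.lean` (`Kx_near_frame`, `Kx_cover`): the subspaces `E ≤ D` of dimension `h` are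
parametrised by the compact set of orthonormal frames `Q` with `Fr.sp Q ≤ D` (closed in `Fr`).
-/

set_option autoImplicit false
set_option linter.unusedSectionVars false
set_option linter.unusedVariables false

namespace Pool.Agent.GD.BE

open Finset MvPolynomial Module Pool.Agent.H51.TB Topology Pool.Agent.V7.BE

/-- Alternatives (indexed by `Λ`) for the subspaces `E ≤ D` of dimension `h`. -/
theorem Kx_near_or {X : Type*} [TopologicalSpace X] {Λ : Type*} {R : Λ → Type*}
    [∀ l, Fintype (R l)] {J U ι' : Type*} [Fintype J] [Fintype U] [Fintype ι']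
    (A : ∀ l, X → Matrix (R l) J ℂ) (hA : ∀ l, Continuous (A l)) (σ : U → ι' → J) (b : Λ → ℕ)
    (D : Submodule ℂ (ι' → ℂ)) (h : ℕ) (x₀ : X)
    (H : ∀ E ≤ D, finrank ℂ E = h → ∃ l, finrank ℂ (Kx (A l x₀) σ E) ≤ b l) :
    ∀ᶠ x in 𝓝 x₀, ∀ E ≤ D, finrank ℂ E = h → ∃ l, finrank ℂ (Kx (A l x) σ E) ≤ b l := by
  have hcl : IsClosed {Q : Matrix ι' (Fin h) ℂ | Fr.sp Q ≤ D} := by
    have h1 : {Q : Matrix ι' (Fin h) ℂ | Fr.sp Q ≤ D} =
        ⋂ w : Fin h → ℂ, {Q | Matrix.mulVec Q w ∈ (D : Set (ι' → ℂ))} := by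
      ext Q
      rw [Set.mem_iInter]
      constructor
      · intro hQ w
        exact hQ ⟨w, rfl⟩
      · rintro hQ _ ⟨w, rfl⟩
        exact hQ w
    rw [h1]
    refine isClosed_iInter fun w => ?_
    refine IsClosed.preimage ?_ (Submodule.closed_of_finiteDimensional D)
    exact Continuous.matrix_mulVec continuous_id continuous_const
  have hK : IsCompact (Fr ι' h ∩ {Q : Matrix ι' (Fin h) ℂ | Fr.sp Q ≤ D}) :=
    (Fr_compact h).inter_right hcl
  have h1 : ∀ᶠ x in 𝓝 x₀, ∀ Q ∈ Fr ι' h ∩ {Q : Matrix ι' (Fin h) ℂ | Fr.sp Q ≤ D},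
      Q ∈ Fr ι' h → ∃ l, finrank ℂ (Kx (A l x) σ (Fr.sp Q)) ≤ b l := by
    refine IsCompact.eventually_forall_of_forall_eventually (Y := Matrix ι' (Fin h) ℂ)
      (P := fun x Q => Q ∈ Fr ι' h → ∃ l, finrank ℂ (Kx (A l x) σ (Fr.sp Q)) ≤ b l)
      hK fun Q hQ => ?_
    obtain ⟨l, hl⟩ := H (Fr.sp Q) hQ.2 (Fr.finrank_sp hQ.1)
    exact (Kx_near_frame (A l) (hA l) σ (b l) x₀ hQ.1 hl).mono fun z hz hF => ⟨l, hz hF⟩
  refine h1.mono fun x hx E hE hh => ?_
  subst hh
  obtain ⟨Q, hQ, hQE⟩ := Fr.exists_frame E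
  obtain ⟨l, hl⟩ := hx Q ⟨hQ, by show Fr.sp Q ≤ D; rw [hQE]; exact hE⟩ hQ
  exact ⟨l, by rwa [hQE] at hl⟩

variable {ι : Type} [Fintype ι] [DecidableEq ι] {c : ι → ℕ}

/-- The matrix of the conditions. -/
noncomputable def near_mat {P : Type} (m : P → Finset ι) (p : P → (Σ i, Fin (c i)) → ℂ) :
    Matrix (P × ∀ i, Fin (c i)) (∀ i, Fin (c i)) ℂ :=
  fun x e => if ∀ j, j ∉ m x.1 → e j = x.2 j then ∏ j ∈ m x.1, p x.1 ⟨j, e j⟩ else 0

theorem near_KE (T : Finset ι) {P : Type} (m : P → Finset ι) (p : P → (Σ i, Fin (c i)) → ℂ)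
    (E : Submodule ℂ ((∀ i, Fin (c i)) → ℂ)) :
    KE T m p E = Kx (near_mat m p) (fun (u : ∀ i, Fin (c i)) w => mix T w u) E := by
  ext G
  rw [mem_KE, mem_Kx]
  refine and_congr Iff.rfl ?_
  have h1 : ∀ i w, (Matrix.mulVec (near_mat m p) G) (i, w) = ctr (m i) (p i) G w := by
    intro i w
    show ∑ e, (if ∀ j, j ∉ m i → e j = w j then ∏ j ∈ m i, p i ⟨j, e j⟩ else 0) * G e = _
    unfold ctr
    refine sum_congr rfl fun e _ => ?_
    rw [ite_mul, zero_mul]
  constructor
  · intro h
    funext x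
    obtain ⟨i, w⟩ := x
    rw [h1, h i w]
    rfl
  · intro h i w
    rw [← h1, h]
    rfl

theorem near_cont {P P' : Type} (m : P → Finset ι) (f : (P' → (Σ i, Fin (c i)) → ℂ) →
    P → (Σ i, Fin (c i)) → ℂ) (hf : Continuous f) : Continuous fun r => near_mat m (f r) := by
  refine continuous_pi fun x => continuous_pi fun e => ?_
  show Continuous fun r => if ∀ j, j ∉ m x.1 → e j = x.2 j then ∏ j ∈ m x.1, f r x.1 ⟨j, e j⟩ else 0
  split_ifs
  · refine continuous_finsetProd _ fun j _ => ?_
    exact (continuous_apply (⟨j, e j⟩ : Σ i, Fin (c i))).comp ((continuous_apply x.1).comp hf)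
  · exact continuous_const

theorem near_elim {P₀ P₁ : Type} (y : P₁ → (Σ i, Fin (c i)) → ℂ) :
    Continuous fun r : P₀ → (Σ i, Fin (c i)) → ℂ => Sum.elim r y := by
  refine continuous_pi fun x => ?_
  rcases x with x | x
  · exact continuous_apply x
  · exact continuous_const

/-- The same for the spaces `KE`: two kinds of alternatives (configurations `m₁`, `m₂` of additional
points with bounds `b₁ h`, `b₂ h` depending on `h = finrank E`). -/
theorem KE_near (T : Finset ι) {P₀ P₁ P₂ : Type} [Fintype P₀] [Fintype P₁] [Fintype P₂]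
    (m₀ : P₀ → Finset ι) (m₁ : P₁ → Finset ι) (m₂ : P₂ → Finset ι) (b₁ b₂ : ℕ → ℕ)
    (D : Submodule ℂ ((∀ i, Fin (c i)) → ℂ)) (S : Set ℕ) (r₀ : P₀ → (Σ i, Fin (c i)) → ℂ)
    (H : ∀ E ≤ D, finrank ℂ E ∈ S →
      (∃ y : P₁ → (Σ i, Fin (c i)) → ℂ,
        finrank ℂ (KE T (Sum.elim m₀ m₁) (Sum.elim r₀ y) E) ≤ b₁ (finrank ℂ E)) ∨
      ∃ y : P₂ → (Σ i, Fin (c i)) → ℂ,
        finrank ℂ (KE T (Sum.elim m₀ m₂) (Sum.elim r₀ y) E) ≤ b₂ (finrank ℂ E)) :
    ∀ᶠ r in 𝓝 r₀, ∀ E ≤ D, finrank ℂ E ∈ S →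
      (∃ y : P₁ → (Σ i, Fin (c i)) → ℂ,
        finrank ℂ (KE T (Sum.elim m₀ m₁) (Sum.elim r y) E) ≤ b₁ (finrank ℂ E)) ∨
      ∃ y : P₂ → (Σ i, Fin (c i)) → ℂ,
        finrank ℂ (KE T (Sum.elim m₀ m₂) (Sum.elim r y) E) ≤ b₂ (finrank ℂ E) := by
  classical
  let Λ : Type := (P₁ → (Σ i, Fin (c i)) → ℂ) ⊕ (P₂ → (Σ i, Fin (c i)) → ℂ)
  let R : Λ → Type := Sum.elim (fun _ => (P₀ ⊕ P₁) × ∀ i, Fin (c i))
    fun _ => (P₀ ⊕ P₂) × ∀ i, Fin (c i)
  have hR : ∀ l : Λ, Fintype (R l) := by
    rintro (l | l)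
    · exact (inferInstance : Fintype ((P₀ ⊕ P₁) × ∀ i, Fin (c i)))
    · exact (inferInstance : Fintype ((P₀ ⊕ P₂) × ∀ i, Fin (c i)))
  let A : ∀ l : Λ, (P₀ → (Σ i, Fin (c i)) → ℂ) → Matrix (R l) (∀ i, Fin (c i)) ℂ := fun l =>
    match l with
    | Sum.inl y => fun r => near_mat (Sum.elim m₀ m₁) (Sum.elim r y)
    | Sum.inr y => fun r => near_mat (Sum.elim m₀ m₂) (Sum.elim r y)
  have hA : ∀ l, Continuous (A l) := by
    rintro (y | y)
    · exact near_cont _ _ (near_elim y)
    · exact near_cont _ _ (near_elim y)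
  have h1 : ∀ h ∈ range (Fintype.card (∀ i, Fin (c i)) + 1), ∀ᶠ r in 𝓝 r₀, h ∈ S → ∀ E ≤ D,
      finrank ℂ E = h → ∃ l : Λ, finrank ℂ (Kx (A l r) (fun (u : ∀ i, Fin (c i)) w => mix T w u) E) ≤
        Sum.elim (fun _ => b₁ h) (fun _ => b₂ h) l := by
    intro h _
    by_cases hS : h ∈ S
    · refine (Kx_near_or A hA (fun (u : ∀ i, Fin (c i)) w => mix T w u)
        (Sum.elim (fun _ => b₁ h) (fun _ => b₂ h)) D h r₀ fun E hE hh => ?_).mono fun r hr _ => hr
      subst hh
      rcases H E hE hS with ⟨y, hy⟩ | ⟨y, hy⟩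
      · refine ⟨Sum.inl y, ?_⟩
        rw [near_KE] at hy
        exact hy
      · refine ⟨Sum.inr y, ?_⟩
        rw [near_KE] at hy
        exact hy
    · exact Filter.Eventually.of_forall fun r h' => absurd h' hS
  refine ((Finset.eventually_all _).2 h1).mono fun r hr E hE hS => ?_
  have h2 : finrank ℂ E ∈ range (Fintype.card (∀ i, Fin (c i)) + 1) := by
    rw [mem_range, Nat.lt_succ_iff]
    have := Submodule.finrank_le E
    rwa [finrank_fintype_fun_eq_card] at this
  obtain ⟨l, hl⟩ := hr _ h2 hS E hE rfl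
  rcases l with y | y
  · refine Or.inl ⟨y, ?_⟩
    rw [near_KE]
    exact hl
  · refine Or.inr ⟨y, ?_⟩
    rw [near_KE]
    exact hl

end Pool.Agent.GD.BE

end

section

/-!
# GD, TOP: the input statements for exactness on the last level `J = d - e`

`P.b n ms` is the virtual dimension in degree `J`: the number of the values of the vector valued form.
All the statements are for configurations of the class of the level `J` without points of the main kind
`(e, range J)`.

* `BETJ`: strictness of the slopes near some position;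
* `GAMJ`: a form of `V` with `Gam f = 0` is zero;
* `CVJ`: the values of `Gam f` lie in a space of dimension `P.b n ms`;
* `POSJ`: the virtual dimension is at least `η * n ^ e`.
-/

set_option autoImplicit false
set_option linter.unusedSectionVars false

namespace Pool.Agent.GD

open Finset MvPolynomial Module Pool.Agent.H51.TB Pool.Agent.V7.ST Topology

variable (P : Par)

/-- The number of the values. -/
noncomputable def Par.b (n : ℕ) (ms : Multiset Kd) : ℤ := vd P.J (range P.J) P.c n ms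

/-- A statement about the parameters with the quantifiers of the target of TOP. -/
def TargetT (S : Par → Prop) : Prop := ∀ (d e : ℕ) (kap : ℕ → ℝ), Crit d e kap →
  ∃ Cs E : ℝ, 1 ≤ Cs ∧ 0 < E ∧ ∀ P : Par, P.d = d → P.e = e → P.kap = kap → P.Ok Cs E →
    ∃ (N : ℕ) (F : (ℕ → ℕ) → ℕ), 0 < N ∧ ∀ c, Hier N F P.J c → S (P.wc c)

end Pool.Agent.GD

end

section

/-!
# V7: the classes of configurations

`C = binom(2M-1, M)`.  On the level `j` the nominal number of the points which lie exactly on the `L_i`,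
`i ∈ I`, and impose as many conditions as an `M`-fold point is `nom M c j I * n ^ (M + |I| - j)`.
-/

set_option autoImplicit false

namespace Pool.Agent.V7

open Finset Pool.Agent.H51.TB Pool.Agent.V7.ST

/-- The finite set of the kinds on the level `j`. -/
def kds (M j : ℕ) : Finset Kd :=
  ((Icc 1 M ×ˢ (range j).powerset).image fun x => Kd.ord x.1 x.2) ∪
    ((range j ×ˢ (range j).powerset).filter (fun x => x.2 ⊆ Ico (x.1 + 1) j)).image fun x =>
      Kd.sw x.1 x.2

theorem mem_kds {M j : ℕ} {τ : Kd} : τ ∈ kds M j ↔ τ.Ok M j := by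
  unfold kds
  cases τ with
  | ord μ I =>
    simp only [mem_union, mem_image, mem_product, mem_powerset, mem_filter, mem_Icc, Prod.exists,
      Kd.ord.injEq, reduceCtorEq, and_false, exists_false, or_false, Kd.Ok]
    constructor
    · rintro ⟨a, b, ⟨⟨h1, h2⟩, h3⟩, rfl, rfl⟩
      exact ⟨h1, h2, h3⟩
    · rintro ⟨h1, h2, h3⟩
      exact ⟨μ, I, ⟨⟨h1, h2⟩, h3⟩, rfl, rfl⟩
  | sw i I =>
    simp only [mem_union, mem_image, mem_product, mem_powerset, mem_filter, mem_range, Prod.exists,
      Kd.sw.injEq, reduceCtorEq, and_false, exists_false, false_or, Kd.Ok]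
    constructor
    · rintro ⟨a, b, ⟨⟨h1, h2⟩, h3⟩, rfl, rfl⟩
      exact ⟨h1, h3⟩
    · rintro ⟨h1, h2⟩
      refine ⟨i, I, ⟨⟨h1, fun x hx => ?_⟩, h2⟩, rfl, rfl⟩
      have := mem_Ico.1 (h2 hx)
      rw [mem_range]
      exact this.2

/-- The virtual dimension of a system with `N τ` points of the kind `τ`. -/
def vN (M c j n : ℕ) (N : Kd → ℕ) : ℤ :=
  (bb c (2 * M - 1) j n : ℤ) - ∑ τ ∈ kds M j, (N τ : ℤ) * (wt M c n τ : ℤ)

theorem vd_eq_vN (M c j n : ℕ) (s : Multiset Kd) (hs : ∀ τ ∈ s, τ ∈ kds M j) :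
    vd M c j n s = vN M c j n fun τ => s.count τ := by
  unfold vd vN
  congr 1
  have h1 : (s.map (wt M c n)).sum = ∑ τ ∈ s.toFinset, s.count τ * wt M c n τ :=
    Finset.sum_multiset_map_count s (wt M c n)
  rw [h1]
  push_cast
  refine Finset.sum_subset (fun τ hτ => hs τ (Multiset.mem_toFinset.1 hτ)) fun τ _ hτ => ?_
  rw [Multiset.mem_toFinset] at hτ
  rw [Multiset.count_eq_zero_of_notMem hτ, Nat.cast_zero, zero_mul]

/-- The nominal density of the points of multiplicity `M` with support `I` on the level `j`. -/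
noncomputable def nom (M c j : ℕ) (I : Finset ℕ) : ℝ :=
  (c : ℝ) ^ (j - I.card) / (((2 * M - 1).choose M : ℝ) * ((M + I.card - j).factorial : ℝ))

/-- The number of the points of type `I` with as many conditions as an `M`-fold point (swapped points
included). -/
def tot (M j : ℕ) (N : Kd → ℕ) (I : Finset ℕ) : ℕ := N (.ord M I) + ∑ i ∈ range j, N (.sw i I)

/-- The densities are within `e` of the nominal ones, except possibly for the type `range j`, for
which nothing is required. -/
structure Cls0 (M c j n : ℕ) (e : ℝ) (N : Kd → ℕ) : Prop where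
  /-- only the kinds of the level `j` occur -/
  ok : ∀ τ, N τ ≠ 0 → τ ∈ kds M j
  /-- `M`-fold points and swapped points together -/
  big : ∀ I, I ⊆ range j → I ≠ range j →
    |(tot M j N I : ℝ) - nom M c j I * (n : ℝ) ^ (M + I.card - j)| ≤ e * (n : ℝ) ^ (M + I.card - j)
  /-- the share of the swapped points -/
  swp : ∀ i < j, ∀ I, I ⊆ range j → (N (.sw i I) : ℝ) ≤
    (2 * ((2 * M - 1).choose M : ℝ) / c * nom M c j I + e) * (n : ℝ) ^ (M + I.card - j)
  /-- the points of smaller multiplicity -/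
  sml : ∀ μ, 1 ≤ μ → μ < M → ∀ I, I ⊆ range j →
    (N (.ord μ I) : ℝ) ≤ e * (n : ℝ) ^ (2 * M - μ + I.card - j)

/-- The densities are within `e` of the nominal ones. -/
structure Cls (M c j n : ℕ) (e : ℝ) (N : Kd → ℕ) : Prop extends Cls0 M c j n e N where
  /-- the type `range j` -/
  top : |(N (.ord M (range j)) : ℝ) - nom M c j (range j) * (n : ℝ) ^ M| ≤ e * (n : ℝ) ^ M

/-- The numbers of the residual system: `N` points on the level `j` in `n` variables, `N'` of them
specialised to `L_j`, and `y` further points of the kind `ord M ∅` swapped to `L_j`. -/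
def resN (M j : ℕ) (N N' : Kd → ℕ) (y : ℕ) : Kd → ℕ
  | .ord μ I => if j ∈ I then N' (.ord μ (I.erase j)) else
      N (.ord μ I) - N' (.ord μ I) - if μ = M ∧ I = ∅ then y else 0
  | .sw i I => if i = j then (if I = ∅ then y else 0) else
      if j ∈ I then N' (.sw i (I.erase j)) else N (.sw i I) - N' (.sw i I)

/-- Exactness on the level `j` (one half; the other one is `vd ≤ gM`). -/
def PROP (M c j : ℕ) : Prop :=
  ∃ e : ℝ, 0 < e ∧ ∃ n₀ : ℕ, ∀ n : ℕ, n₀ ≤ n → ∀ s : Multiset Kd,
    Cls M c j n e (fun τ => s.count τ) → (gM (LS M (blk c n) j) s : ℤ) ≤ max 0 (vd M c j n s)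

/-- Independence without points of the kind `ord M (range j)`. -/
def OJ (M c j : ℕ) : Prop :=
  ∃ e : ℝ, 0 < e ∧ ∃ n₀ : ℕ, ∀ n : ℕ, n₀ ≤ n → ∀ s : Multiset Kd,
    Cls0 M c j n e (fun τ => s.count τ) → Kd.ord M (range j) ∉ s →
    (gM (LS M (blk c n) j) s : ℤ) ≤ vd M c j n s

end Pool.Agent.V7

end

section

/-!
# V7: the lemma TRACE, abstract form

`S` is a system on `E`, `S₁` (trace) one on `E₁`, `S₂` (residual) one on `E₂`, where the index set `E`
is covered by the images of `E₁` and `E₂`.  The points of `m` are put in special position `ρ q₁`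
(`q₁` a position for `S₁`).  The restriction to `E₁` of a solution satisfies the conditions of the trace,
and the solutions which vanish on `E₁` satisfy the conditions of the residual.  Then
`gd ≤ gd trace + gd residual`.
-/

namespace Pool.Agent.V7.ST

open Finset MvPolynomial Pool.Agent.H51.TB

/-- Pull back of a general statement (change of the points and of the coordinates). -/
theorem gn_pull {κ κ' ν ν' : Type} (φ : κ' → κ) (hφ : Function.Injective φ) (ψ : ν' → ν)
    (hψ : Function.Injective ψ) {P : (κ' → ν' → ℂ) → Prop} (h : Gn κ' ν' P) :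
    Gn κ ν fun p => P fun i x => p (φ i) (ψ x) := by
  obtain ⟨G, hG, h⟩ := h
  have hinj : Function.Injective (fun x : κ' × ν' => (φ x.1, ψ x.2)) := by
    intro x y hxy
    have h1 := congrArg Prod.fst hxy
    have h2 := congrArg Prod.snd hxy
    exact Prod.ext (hφ h1) (hψ h2)
  refine ⟨rename (fun x : κ' × ν' => (φ x.1, ψ x.2)) G, ?_, fun p hp => ?_⟩
  · intro h0
    apply hG
    apply rename_injective _ hinj
    rw [h0, map_zero]
  · apply h
    rw [eval_rename] at hp
    exact hp

/-- Rank nullity for the restriction of functions to a part of the index set. -/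
theorem finrank_split {E E₁ E₂ : Type} [Fintype E] [Fintype E₁] [Fintype E₂]
    (i₁ : E₁ → E) (i₂ : E₂ → E) (hcov : ∀ e, (∃ a, i₁ a = e) ∨ ∃ b, i₂ b = e)
    (V : Submodule ℂ (E → ℂ)) (V₁ : Submodule ℂ (E₁ → ℂ)) (V₂ : Submodule ℂ (E₂ → ℂ))
    (h1 : ∀ f ∈ V, (fun a => f (i₁ a)) ∈ V₁)
    (h2 : ∀ f ∈ V, (∀ a, f (i₁ a) = 0) → (fun b => f (i₂ b)) ∈ V₂) :
    Module.finrank ℂ V ≤ Module.finrank ℂ V₁ + Module.finrank ℂ V₂ := by
  let L : V →ₗ[ℂ] V₁ := LinearMap.codRestrict V₁
    ((LinearMap.funLeft ℂ ℂ i₁).comp V.subtype) fun f => h1 f.1 f.2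
  have hL : ∀ f : V, ∀ a, (L f).1 a = f.1 (i₁ a) := fun f a => rfl
  have hk : ∀ f : LinearMap.ker L, ∀ a, f.1.1 (i₁ a) = 0 := by
    intro f a
    have h := f.2
    rw [LinearMap.mem_ker] at h
    rw [← hL, h]
    rfl
  let K : LinearMap.ker L →ₗ[ℂ] V₂ := LinearMap.codRestrict V₂
    ((LinearMap.funLeft ℂ ℂ i₂).comp (V.subtype.comp (LinearMap.ker L).subtype))
      fun f => h2 f.1.1 f.1.2 (hk f)
  have hK : Function.Injective K := by
    intro f g hfg
    apply Subtype.ext
    apply Subtype.ext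
    funext e
    rcases hcov e with ⟨a, rfl⟩ | ⟨b, rfl⟩
    · exact (hk f a).trans (hk g a).symm
    · have h : (K f).1 b = (K g).1 b := by rw [hfg]
      exact h
  have e1 := LinearMap.finrank_range_add_finrank_ker L
  have e2 : Module.finrank ℂ (LinearMap.range L) ≤ Module.finrank ℂ V₁ :=
    Submodule.finrank_le _
  have e3 : Module.finrank ℂ (LinearMap.ker L) ≤ Module.finrank ℂ V₂ :=
    LinearMap.finrank_le_finrank_of_injective hK
  omega

/-- TRACE, abstract form. -/
theorem gd_trace {E E₁ E₂ ν ν₁ T : Type} [Fintype E] [Fintype E₁] [Fintype E₂]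
    (S : Sys E ν T) (S₁ : Sys E₁ ν₁ T) (S₂ : Sys E₂ ν T)
    (i₁ : E₁ → E) (i₂ : E₂ → E) (hcov : ∀ e, (∃ a, i₁ a = e) ∨ ∃ b, i₂ b = e)
    (σ : ν₁ → ν) (hσ : Function.Injective σ) (ρ : (ν₁ → ℂ) → ν → ℂ)
    {κ κ' : Type} [Fintype κ] [Fintype κ'] (m m₂ : κ → T) (n : κ' → T)
    (h1 : ∀ i (q : ν₁ → ℂ) (f : E → ℂ), f ∈ S.V (fun _ : Unit => m i) (fun _ => ρ q) →
      (fun a => f (i₁ a)) ∈ S₁.V (fun _ : Unit => m i) fun _ => q)
    (h2 : ∀ i (q : ν → ℂ) (f : E → ℂ),
      f ∈ S.V (fun _ : Unit => m i) (fun _ => ρ fun x => q (σ x)) → (∀ a, f (i₁ a) = 0) →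
      (fun b => f (i₂ b)) ∈ S₂.V (fun _ : Unit => m₂ i) fun _ => q)
    (h3 : ∀ i (q : ν → ℂ) (f : E → ℂ), f ∈ S.V (fun _ : Unit => n i) (fun _ => q) →
      (∀ a, f (i₁ a) = 0) → (fun b => f (i₂ b)) ∈ S₂.V (fun _ : Unit => n i) fun _ => q) :
    S.gd (Sum.elim m n) ≤ S₁.gd m + S₂.gd (Sum.elim m₂ n) := by
  obtain ⟨p, hp1, hp2⟩ := ((gn_pull (κ := κ ⊕ κ') Sum.inl Sum.inl_injective σ hσ
    (gn_gd S₁ m)).and (gn_gd S₂ (Sum.elim m₂ n))).exists
  rw [← hp1, ← hp2]
  refine (gd_le S (Sum.elim m n)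
    (Sum.elim (fun i => ρ fun x => p (Sum.inl i) (σ x)) fun i => p (Sum.inr i))).trans ?_
  refine finrank_split i₁ i₂ hcov _ _ _ ?_ ?_
  · intro f hf i r
    exact h1 i (fun x => p (Sum.inl i) (σ x)) f (fun _ r => hf (Sum.inl i) r) () r
  · intro f hf h0 i r
    rcases i with i | i
    · exact h2 i (p (Sum.inl i)) f (fun _ r => hf (Sum.inl i) r) h0 () r
    · exact h3 i (p (Sum.inr i)) f (fun _ r => hf (Sum.inr i) r) h0 () r

end Pool.Agent.V7.ST

end
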