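import Pool.Agent.H94.LP7.M02
import Pool.Agent.H94.LP7.M14

/-! The parts of this file: V7.BE.Ctr, V7.BE.Geo, GD.AL.Cl2, GD.N.Vd, GD.Top.Gam. -/

section

/-!
# V7, block BETA, module Ctr: contraction in one slot

`Dk i y G` is the contraction of `G` with the vector `y` in the slot `i`, considered as a tensor
which does not depend on the slot `i`.
-/

namespace Pool.Agent.V7

open Finset

variable {ι : Type} [Fintype ι] [DecidableEq ι] {c : ℕ}

/-- Contraction with `y` in the slot `i`. -/
noncomputable def Dk (i : ι) (y : Fin c → ℂ) : ((ι → Fin c) → ℂ) →ₗ[ℂ] ((ι → Fin c) → ℂ) where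
  toFun G e := ∑ b, y b * G (Function.update e i b)
  map_add' G H := by
    funext e
    simp only [Pi.add_apply, mul_add, sum_add_distrib]
  map_smul' x G := by
    funext e
    simp only [Pi.smul_apply, smul_eq_mul, RingHom.id_apply, mul_sum]
    refine sum_congr rfl fun b _ => ?_
    ring

theorem Dk_apply (i : ι) (y : Fin c → ℂ) (G : (ι → Fin c) → ℂ) (e : ι → Fin c) :
    Dk i y G e = ∑ b, y b * G (Function.update e i b) := rfl

theorem ctr_eq (S : Finset ι) (y : ι × Fin c → ℂ) (F : (ι → Fin c) → ℂ) (w : ι → Fin c) :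
    ctr S y F w = ∑ e ∈ univ.filter (fun e : ι → Fin c => ∀ j, j ∉ S → e j = w j),
      (∏ j ∈ S, y (j, e j)) * F e := by
  unfold ctr
  rw [sum_filter]

/-- The contraction as a linear map. -/
noncomputable def ctrL (S : Finset ι) (y : ι × Fin c → ℂ) :
    ((ι → Fin c) → ℂ) →ₗ[ℂ] ((ι → Fin c) → ℂ) where
  toFun F w := ctr S y F w
  map_add' F G := by
    funext w
    simp only [ctr_eq, Pi.add_apply, mul_add, sum_add_distrib]
  map_smul' x F := by
    funext w
    simp only [ctr_eq, Pi.smul_apply, smul_eq_mul, RingHom.id_apply, mul_sum]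
    refine sum_congr rfl fun b _ => ?_
    ring

/-- Contraction in a further slot commutes with `ctr S`. -/
theorem ctr_Dk {S : Finset ι} {i : ι} (hi : i ∉ S) (q : ι × Fin c → ℂ) (y : Fin c → ℂ)
    (G : (ι → Fin c) → ℂ) (w : ι → Fin c) :
    ctr S q (Dk i y G) w = Dk i y (fun w => ctr S q G w) w := by
  rw [Dk_apply]
  have h1 : ctr S q (Dk i y G) w = ∑ b, y b *
      ∑ e ∈ univ.filter (fun e : ι → Fin c => ∀ j, j ∉ S → e j = w j),
        (∏ j ∈ S, q (j, e j)) * G (Function.update e i b) := by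
    rw [ctr_eq]
    simp only [Dk_apply, mul_sum]
    rw [sum_comm]
    refine sum_congr rfl fun b _ => sum_congr rfl fun e _ => ?_
    ring
  rw [h1]
  refine sum_congr rfl fun b _ => ?_
  rw [ctr_eq]
  congr 1
  refine sum_nbij' (fun e => Function.update e i b) (fun e => Function.update e i (w i)) ?_ ?_ ?_ ?_ ?_
  · intro e he
    rw [mem_filter] at he ⊢
    refine ⟨mem_univ _, fun j hj => ?_⟩
    by_cases hji : j = i
    · subst hji
      simp
    · rw [Function.update_of_ne hji, Function.update_of_ne hji]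
      exact he.2 j hj
  · intro e he
    rw [mem_filter] at he ⊢
    refine ⟨mem_univ _, fun j hj => ?_⟩
    by_cases hji : j = i
    · subst hji
      simp
    · rw [Function.update_of_ne hji]
      have := he.2 j hj
      rwa [Function.update_of_ne hji] at this
  · intro e he
    rw [mem_filter] at he
    rw [Function.update_idem]
    rw [← he.2 i hi]
    exact Function.update_eq_self i e
  · intro e he
    rw [mem_filter] at he
    rw [Function.update_idem]
    have := he.2 i hi
    rw [Function.update_self] at this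
    rw [← this]
    exact Function.update_eq_self i e
  · intro e _
    congr 1
    refine prod_congr rfl fun j hj => ?_
    rw [Function.update_of_ne]
    rintro rfl
    exact hi hj

/-- Splitting off one slot. -/
theorem ctr_erase {S : Finset ι} {i : ι} (hi : i ∈ S) (q : ι × Fin c → ℂ)
    (G : (ι → Fin c) → ℂ) (w : ι → Fin c) :
    ctr S q G w = ctr (S.erase i) q (Dk i (fun b => q (i, b)) G) w := by
  rw [ctr_eq, ctr_eq]
  simp only [Dk_apply, mul_sum]
  rw [← sum_product']
  refine sum_nbij' (fun e => (Function.update e i (w i), e i)) (fun x => Function.update x.1 i x.2)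
    ?_ ?_ ?_ ?_ ?_
  · intro e he
    rw [mem_filter] at he
    rw [mem_product, mem_filter]
    refine ⟨⟨mem_univ _, fun j hj => ?_⟩, mem_univ _⟩
    by_cases hji : j = i
    · subst hji
      simp
    · simp only
      rw [Function.update_of_ne hji]
      exact he.2 j fun h => hj (mem_erase.2 ⟨hji, h⟩)
  · rintro ⟨e, b⟩ he
    rw [mem_product, mem_filter] at he
    rw [mem_filter]
    refine ⟨mem_univ _, fun j hj => ?_⟩
    have hji : j ≠ i := by
      rintro rfl
      exact hj hi
    simp only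
    rw [Function.update_of_ne hji]
    exact he.1.2 j fun h => hj (mem_of_mem_erase h)
  · intro e _
    simp only
    rw [Function.update_idem]
    exact Function.update_eq_self i e
  · rintro ⟨e, b⟩ he
    rw [mem_product, mem_filter] at he
    simp only
    rw [Function.update_idem, Function.update_self]
    congr 1
    have := he.1.2 i (notMem_erase i S)
    rw [← this]
    exact Function.update_eq_self i e
  · intro e _
    simp only
    rw [Function.update_idem, Function.update_eq_self i e, ← mul_prod_erase S _ hi]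
    have : ∏ x ∈ S.erase i, q (x, Function.update e i (w i) x) = ∏ x ∈ S.erase i, q (x, e x) := by
      refine prod_congr rfl fun j hj => ?_
      rw [Function.update_of_ne (ne_of_mem_erase hj)]
    rw [this]
    ring

/-- A tensor which does not depend on the slot `i`. -/
theorem Dk_update (i : ι) (y : Fin c → ℂ) (G : (ι → Fin c) → ℂ) (e : ι → Fin c) (b : Fin c) :
    Dk i y G (Function.update e i b) = Dk i y G e := by
  rw [Dk_apply, Dk_apply]
  refine sum_congr rfl fun b' _ => ?_
  rw [Function.update_idem]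

end Pool.Agent.V7

end

section

/-!
# V7, block BETA, module Geo: squarefree exponents and contractions

`vr : (Fin k ⊕ Fin q) × Fin c → ν` numbers the variables of the first `k` blocks and of `q` blocks of
`z`-variables.  `mn vr α w` is the exponent with one variable in each of the first `k` blocks and in the
blocks `α 0, …, α (M - 1)`.
-/

set_option autoImplicit false
set_option linter.unusedSectionVars false

namespace Pool.Agent.V7.BE

open Finset Pool.Agent.V7 Pool.Agent.H54.V7
open Pool.Agent.H18.Ex (tcr)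

section

variable {ν : Type} [Fintype ν] [DecidableEq ν]

/-- The indicator function of a finite set, as an exponent. -/
def ind (A : Finset ν) : ν → ℕ := fun s => if s ∈ A then 1 else 0

theorem sum_ind (A : Finset ν) : ∑ s, ind A s = A.card := by
  unfold ind
  rw [sum_ite_mem, univ_inter, sum_const, smul_eq_mul, mul_one]

theorem ind_inj {A B : Finset ν} (h : ind A = ind B) : A = B := by
  ext s
  have h1 := congrFun h s
  unfold ind at h1
  by_cases h2 : s ∈ A <;> by_cases h3 : s ∈ B <;> simp_all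

/-- Taylor coefficients of squarefree monomials. -/
theorem tcr_ind (P : ν → ℂ) (A B : Finset ν) :
    tcr P (ind A) (ind B) = if B ⊆ A then ∏ s ∈ A \ B, P s else 0 := by
  unfold tcr
  split_ifs with h
  · rw [← prod_sdiff (subset_univ (A \ B))]
    have h1 : ∏ s ∈ univ \ (A \ B),
        (((ind A s).choose (ind B s) : ℕ) : ℂ) * P s ^ (ind A s - ind B s) = 1 := by
      refine prod_eq_one fun s hs => ?_
      rw [mem_sdiff, mem_sdiff] at hs
      have h2 : s ∈ A → s ∈ B := by
        intro h3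
        by_contra h4
        exact hs.2 ⟨h3, h4⟩
      unfold ind
      by_cases h3 : s ∈ A
      · rw [if_pos h3, if_pos (h2 h3)]
        simp
      · have h4 : s ∉ B := fun h4 => h3 (h h4)
        rw [if_neg h3, if_neg h4]
        simp
    rw [h1, one_mul]
    refine prod_congr rfl fun s hs => ?_
    rw [mem_sdiff] at hs
    unfold ind
    rw [if_pos hs.1, if_neg hs.2]
    simp
  · rw [not_subset] at h
    obtain ⟨s, hs, hs'⟩ := h
    refine prod_eq_zero (mem_univ s) ?_
    unfold ind
    rw [if_neg hs', if_pos hs]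
    simp

theorem tcr_ind_ne {P : ν → ℂ} {A B : Finset ν} (h : tcr P (ind A) (ind B) ≠ 0) :
    B ⊆ A ∧ ∀ s ∈ A \ B, P s ≠ 0 := by
  rw [tcr_ind] at h
  split_ifs at h with h1
  · exact ⟨h1, fun s hs => (prod_ne_zero_iff.1 h) s hs⟩
  · exact absurd rfl h

end

variable {ν : Type} [Fintype ν] [DecidableEq ν] {k M c q : ℕ}

/-- The embedding of the slots given by `α`. -/
abbrev emα (k : ℕ) (α : Fin M ↪o Fin q) : Slot k M ↪ Fin k ⊕ Fin q :=
  (Function.Embedding.refl (Fin k)).sumMap α.toEmbedding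

theorem emα_apply (α : Fin M ↪o Fin q) (x : Slot k M) : emα k α x = Sum.map id α x := by
  rcases x with i | h <;> rfl

variable (vr : (Fin k ⊕ Fin q) × Fin c → ν)

/-- The variables `w x`, `x ∈ S`. -/
def pS (α : Fin M ↪o Fin q) (S : Finset (Slot k M)) (w : Slot k M → Fin c) : Finset ν :=
  S.image fun x => vr (emα k α x, w x)

/-- The squarefree exponents. -/
def mn (α : Fin M ↪o Fin q) (w : Slot k M → Fin c) : ν → ℕ := ind (pS vr α univ w)

variable {vr}

theorem mem_pS {α : Fin M ↪o Fin q} {S : Finset (Slot k M)} {w : Slot k M → Fin c} {s : ν} :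
    s ∈ pS vr α S w ↔ ∃ x ∈ S, vr (emα k α x, w x) = s := by
  unfold pS
  rw [mem_image]

theorem pS_injOn (hvr : Function.Injective vr) (α : Fin M ↪o Fin q) (w : Slot k M → Fin c) :
    Function.Injective fun x : Slot k M => vr (emα k α x, w x) := by
  intro x y h
  have h1 := hvr h
  exact (emα k α).injective (congrArg Prod.fst h1)

theorem card_pS (hvr : Function.Injective vr) (α : Fin M ↪o Fin q) (S : Finset (Slot k M))
    (w : Slot k M → Fin c) : (pS vr α S w).card = S.card :=
  card_image_of_injective _ (pS_injOn hvr α w)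

theorem pS_sdiff (hvr : Function.Injective vr) (α : Fin M ↪o Fin q) (S : Finset (Slot k M))
    (w : Slot k M → Fin c) : pS vr α univ w \ pS vr α Sᶜ w = pS vr α S w := by
  unfold pS
  rw [← image_sdiff _ _ (pS_injOn hvr α w)]
  congr 1
  rw [← compl_eq_univ_sdiff, compl_compl]

theorem range_eq {α α' : Fin M ↪o Fin q} (h : ∀ y, ∃ x, α x = α' y) : α' = α := by
  have h1 : ∀ y, α' y ∈ (univ : Finset (Fin M)).map α.toEmbedding := by
    intro y
    obtain ⟨x, hx⟩ := h y
    rw [mem_map]
    exact ⟨x, mem_univ x, hx⟩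
  have h2 : (univ : Finset (Fin M)).map α'.toEmbedding ⊆ (univ : Finset (Fin M)).map α.toEmbedding := by
    intro z hz
    rw [mem_map] at hz
    obtain ⟨y, _, rfl⟩ := hz
    exact h1 y
  have h3 : (univ : Finset (Fin M)).map α'.toEmbedding = (univ : Finset (Fin M)).map α.toEmbedding :=
    eq_of_subset_of_card_le h2 (by rw [card_map, card_map])
  have hc : ((univ : Finset (Fin M)).map α.toEmbedding).card = M := by
    rw [card_map, card_univ, Fintype.card_fin]
  have e1 : ∀ x, α x ∈ (univ : Finset (Fin M)).map α.toEmbedding := fun x =>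
    mem_map_of_mem _ (mem_univ x)
  have e2 := Finset.orderEmbOfFin_unique' hc e1
  have e3 := Finset.orderEmbOfFin_unique' hc h1
  exact e3.trans e2.symm

theorem mn_inj (hvr : Function.Injective vr) {α α' : Fin M ↪o Fin q} {w w' : Slot k M → Fin c}
    (h : mn vr α w = mn vr α' w') : α' = α ∧ w' = w := by
  have h1 : pS vr α univ w = pS vr α' univ w' := ind_inj h
  have h2 : ∀ y, ∃ x, emα k α x = emα k α' y ∧ w x = w' y := by
    intro y
    have h3 : vr (emα k α' y, w' y) ∈ pS vr α univ w := by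
      rw [h1]
      exact mem_pS.2 ⟨y, mem_univ y, rfl⟩
    obtain ⟨x, _, hx⟩ := mem_pS.1 h3
    have h4 := hvr hx
    exact ⟨x, congrArg Prod.fst h4, congrArg Prod.snd h4⟩
  have h3 : α' = α := by
    refine range_eq fun y => ?_
    obtain ⟨x, hx, _⟩ := h2 (Sum.inr y)
    rcases x with i | x
    · exact absurd hx Sum.inl_ne_inr
    · exact ⟨x, Sum.inr_injective hx⟩
  subst h3
  refine ⟨rfl, funext fun y => ?_⟩
  obtain ⟨x, hx, hx'⟩ := h2 y
  have hxy := (emα k α').injective hx
  subst hxy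
  exact hx'.symm

/-- The key computation: on the forms with squarefree exponents of the types `mn`, the Taylor
coefficients at a point supported on the slots of `S` are contractions. -/
theorem sum_tcr (hvr : Function.Injective vr) {A : Finset (ν → ℕ)} {f : {a // a ∈ A} → ℂ}
    (hA : ∀ (α : Fin M ↪o Fin q) (w : Slot k M → Fin c), mn vr α w ∈ A)
    (hf : ∀ e, f e ≠ 0 → ∃ (α : Fin M ↪o Fin q) (w : Slot k M → Fin c), e.1 = mn vr α w)
    (α : Fin M ↪o Fin q) (S : Finset (Slot k M)) (y : Slot k M × Fin c → ℂ) {P : ν → ℂ}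
    (hP : ∀ x ∈ S, ∀ t, P (vr (emα k α x, t)) = y (x, t))
    (hP0 : ∀ s, P s ≠ 0 → ∃ x ∈ S, ∃ t, vr (emα k α x, t) = s) (w : Slot k M → Fin c) :
    ∑ e : {a // a ∈ A}, f e * tcr P e.1 (ind (pS vr α Sᶜ w)) =
      ctr S y (fun w' => f ⟨mn vr α w', hA α w'⟩) w := by
  classical
  rw [ctr_eq]
  set F : Finset (Slot k M → Fin c) := univ.filter fun e => ∀ j, j ∉ S → e j = w j with hF
  have hinj : Function.Injective fun w' : Slot k M → Fin c => (⟨mn vr α w', hA α w'⟩ : {a // a ∈ A}) := by
    intro w₁ w₂ h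
    exact ((mn_inj hvr (congrArg Subtype.val h)).2).symm
  have h1 : ∑ e ∈ F.image (fun w' : Slot k M → Fin c => (⟨mn vr α w', hA α w'⟩ : {a // a ∈ A})),
      f e * tcr P e.1 (ind (pS vr α Sᶜ w)) =
      ∑ e : {a // a ∈ A}, f e * tcr P e.1 (ind (pS vr α Sᶜ w)) := by
    refine sum_subset (subset_univ _) fun e _ he => ?_
    by_contra hne
    have hfe : f e ≠ 0 := left_ne_zero_of_mul hne
    have hte := right_ne_zero_of_mul hne
    obtain ⟨α', w', hew⟩ := hf e hfe
    rw [hew] at hte
    obtain ⟨h2, h3⟩ := tcr_ind_ne hte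
    -- every slot of `α'` is a slot of `α`
    have h4 : ∀ z, ∃ x, emα k α x = emα k α' z ∧ (x ∉ S → w x = w' z) := by
      intro z
      by_cases hz : vr (emα k α' z, w' z) ∈ pS vr α Sᶜ w
      · obtain ⟨x, hx, hx'⟩ := mem_pS.1 hz
        have h5 := hvr hx'
        exact ⟨x, congrArg Prod.fst h5, fun _ => congrArg Prod.snd h5⟩
      · have h5 : vr (emα k α' z, w' z) ∈ pS vr α' univ w' \ pS vr α Sᶜ w := by
          rw [mem_sdiff]
          exact ⟨mem_pS.2 ⟨z, mem_univ z, rfl⟩, hz⟩
        obtain ⟨x, hx, t, hxt⟩ := hP0 _ (h3 _ h5)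
        have h6 := hvr hxt
        exact ⟨x, congrArg Prod.fst h6, fun h7 => absurd hx h7⟩
    have h5 : α' = α := by
      refine range_eq fun z => ?_
      obtain ⟨x, hx, _⟩ := h4 (Sum.inr z)
      rcases x with i | x
      · exact absurd hx Sum.inl_ne_inr
      · exact ⟨x, Sum.inr_injective hx⟩
    subst h5
    apply he
    rw [mem_image]
    refine ⟨w', ?_, Subtype.ext hew.symm⟩
    rw [hF, mem_filter]
    refine ⟨mem_univ _, fun j hj => ?_⟩
    obtain ⟨x, hx, hx'⟩ := h4 j
    have h6 := (emα k α').injective hx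
    subst h6
    exact (hx' hj).symm
  rw [← h1, sum_image fun a _ b _ h => hinj h]
  refine sum_congr rfl fun w' hw' => ?_
  rw [hF, mem_filter] at hw'
  have h2 : pS vr α Sᶜ w = pS vr α Sᶜ w' := by
    unfold pS
    refine image_congr fun x hx => ?_
    have hx' : x ∉ S := by
      intro h3
      have h4 : x ∈ Sᶜ := hx
      rw [mem_compl] at h4
      exact h4 h3
    show vr (emα k α x, w x) = vr (emα k α x, w' x)
    rw [hw'.2 x hx']
  rw [mul_comm]
  congr 1
  show tcr P (ind (pS vr α univ w')) (ind (pS vr α Sᶜ w)) = _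
  rw [h2, tcr_ind, if_pos, pS_sdiff hvr]
  · unfold pS
    rw [prod_image fun a _ b _ h => pS_injOn hvr α w' h]
    exact prod_congr rfl fun x hx => hP x hx _
  · unfold pS
    exact image_subset_image (subset_univ _)

/-- The contraction in one slot of `S` and then in the others. -/
theorem ctr_split {S : Finset (Slot k M)} {i : Slot k M} (hi : i ∈ S) (y : Slot k M × Fin c → ℂ)
    (G : (Slot k M → Fin c) → ℂ) (w : Slot k M → Fin c) :
    ctr S y G w = ∑ t, y (i, t) * ctr (S.erase i) y G (Function.update w i t) := by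
  rw [ctr_erase hi, ctr_Dk (notMem_erase i S), Dk_apply]

/-- The contraction from the conditions of an ordinary point. -/
theorem ctr_of_Fat (hvr : Function.Injective vr) {A : Finset (ν → ℕ)} {f : {a // a ∈ A} → ℂ}
    (hA : ∀ (α : Fin M ↪o Fin q) (w : Slot k M → Fin c), mn vr α w ∈ A)
    (hf : ∀ e, f e ≠ 0 → ∃ (α : Fin M ↪o Fin q) (w : Slot k M → Fin c), e.1 = mn vr α w)
    (hk : k < M) (α : Fin M ↪o Fin q) {S : Finset (Slot k M)} (hS : S.card = M)
    (y : Slot k M × Fin c → ℂ) {P : ν → ℂ}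
    (hP : ∀ x ∈ S, ∀ t, P (vr (emα k α x, t)) = y (x, t))
    (hP0 : ∀ s, P s ≠ 0 → ∃ x ∈ S, ∃ t, vr (emα k α x, t) = s)
    (hfat : Fat (fun e : {a // a ∈ A} => e.1) M P f) (w : Slot k M → Fin c) :
    ctr S y (fun w' => f ⟨mn vr α w', hA α w'⟩) w = 0 := by
  rw [← sum_tcr hvr hA hf α S y hP hP0 w]
  apply hfat
  rw [sum_ind, card_pS hvr, card_compl, hS, Fintype.card_sum, Fintype.card_fin, Fintype.card_fin]
  omega

/-- The contraction from the conditions of a swapped point. -/
theorem ctr_of_Sw (hvr : Function.Injective vr) {A : Finset (ν → ℕ)} {f : {a // a ∈ A} → ℂ}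
    (hA : ∀ (α : Fin M ↪o Fin q) (w : Slot k M → Fin c), mn vr α w ∈ A)
    (hf : ∀ e, f e ≠ 0 → ∃ (α : Fin M ↪o Fin q) (w : Slot k M → Fin c), e.1 = mn vr α w)
    (hk : k + 1 = M) (hM : 2 ≤ M) (α : Fin M ↪o Fin q) {S : Finset (Slot k M)} (hS : S.card = M)
    {i : Slot k M} (hi : i ∈ S) (y : Slot k M × Fin c → ℂ) {P V : ν → ℂ}
    (hP : ∀ x ∈ S.erase i, ∀ t, P (vr (emα k α x, t)) = y (x, t))
    (hP0 : ∀ s, P s ≠ 0 → ∃ x ∈ S.erase i, ∃ t, vr (emα k α x, t) = s)
    (hV : ∀ t, V (vr (emα k α i, t)) = y (i, t))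
    (hV0 : ∀ s, V s ≠ 0 → ∃ t, vr (emα k α i, t) = s)
    {B : Finset ν} (hB : ∀ x, x ≠ i → ∀ t, vr (emα k α x, t) ∉ B)
    (hsw : Sw (fun e : {a // a ∈ A} => e.1) M (2 * M) B P V f) (w : Slot k M → Fin c) :
    ctr S y (fun w' => f ⟨mn vr α w', hA α w'⟩) w = 0 := by
  classical
  have hcard : (pS vr α Sᶜ w).card = k := by
    rw [card_pS hvr, card_compl, hS, Fintype.card_sum, Fintype.card_fin, Fintype.card_fin]
    omega
  have h0 := hsw (ind (pS vr α Sᶜ w)) (by
    intro s hs
    unfold ind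
    rw [if_neg]
    intro h1
    obtain ⟨x, hx, hx'⟩ := mem_pS.1 h1
    rw [mem_compl] at hx
    have h2 : x ≠ i := fun h2 => hx (h2 ▸ hi)
    exact hB x h2 (w x) (hx' ▸ hs)) (by rw [sum_ind, hcard]; omega) (by rw [sum_ind, hcard]; omega)
  rw [ctr_split hi, ← h0]
  -- the exponents `b` which contribute
  have hins : ∀ t, pS vr α (S.erase i)ᶜ (Function.update w i t) =
      insert (vr (emα k α i, t)) (pS vr α Sᶜ w) := by
    intro t
    ext s
    rw [mem_insert, mem_pS, mem_pS]
    constructor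
    · rintro ⟨x, hx, hx'⟩
      by_cases hxi : x = i
      · subst hxi
        rw [Function.update_self] at hx'
        exact Or.inl hx'.symm
      · rw [Function.update_of_ne hxi] at hx'
        refine Or.inr ⟨x, ?_, hx'⟩
        rw [mem_compl, mem_erase] at hx
        rw [mem_compl]
        exact fun h => hx ⟨hxi, h⟩
    · rintro (rfl | ⟨x, hx, hx'⟩)
      · refine ⟨i, ?_, ?_⟩
        · rw [mem_compl]
          exact notMem_erase i S
        · rw [Function.update_self]
      · rw [mem_compl] at hx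
        have hxi : x ≠ i := fun h => hx (h ▸ hi)
        refine ⟨x, ?_, ?_⟩
        · rw [mem_compl, mem_erase]
          exact fun h => hx h.2
        · rw [Function.update_of_ne hxi]
          exact hx'
  have hnot : ∀ t, vr (emα k α i, t) ∉ pS vr α Sᶜ w := by
    intro t h1
    obtain ⟨x, hx, hx'⟩ := mem_pS.1 h1
    rw [mem_compl] at hx
    have h2 := congrArg Prod.fst (hvr hx')
    have h3 := (emα k α).injective h2
    exact hx (h3 ▸ hi)
  set φ : Fin c → ν → ℕ := fun t => ind (insert (vr (emα k α i, t)) (pS vr α Sᶜ w)) with hφ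
  have hφinj : Function.Injective φ := by
    intro t t' h
    have h1 := ind_inj h
    have h2 : vr (emα k α i, t) ∈ insert (vr (emα k α i, t')) (pS vr α Sᶜ w) := by
      rw [← h1]
      exact mem_insert_self _ _
    rcases mem_insert.1 h2 with h3 | h3
    · exact congrArg Prod.snd (hvr h3)
    · exact absurd h3 (hnot t)
  have hφmem : ∀ t, φ t ∈ bxd ν (2 * M) M := by
    intro t
    unfold bxd bx
    rw [mem_filter]
    refine ⟨?_, ?_⟩
    · rw [Fintype.mem_piFinset]
      intro s
      rw [mem_range]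
      show ind _ s < 2 * M
      unfold ind
      split_ifs <;> omega
    · show ∑ s, ind _ s = M
      rw [sum_ind, card_insert_of_notMem (hnot t), hcard]
      exact hk
  have hsub : ∑ b ∈ univ.image φ, tcr V b (ind (pS vr α Sᶜ w)) *
      ∑ e : {a // a ∈ A}, f e * tcr P e.1 b =
      ∑ b ∈ bxd ν (2 * M) M, tcr V b (ind (pS vr α Sᶜ w)) *
        ∑ e : {a // a ∈ A}, f e * tcr P e.1 b := by
    refine sum_subset ?_ fun b hb hb' => ?_
    · intro b hb
      obtain ⟨t, _, rfl⟩ := mem_image.1 hb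
      exact hφmem t
    · by_contra hne
      have hV1 := left_ne_zero_of_mul hne
      have hbsum : ∑ s, b s = M := by
        unfold bxd at hb
        exact (mem_filter.1 hb).2
      have hle : ∀ s, ind (pS vr α Sᶜ w) s ≤ b s := by
        intro s
        by_contra h1
        apply hV1
        unfold tcr
        refine prod_eq_zero (mem_univ s) ?_
        rw [Nat.choose_eq_zero_of_lt (by omega)]
        simp
      have hsup : ∀ s, ind (pS vr α Sᶜ w) s < b s → V s ≠ 0 := by
        intro s h1 h2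
        apply hV1
        unfold tcr
        refine prod_eq_zero (mem_univ s) ?_
        rw [h2, zero_pow (by omega), mul_zero]
      have hone : ∑ s, (b s - ind (pS vr α Sᶜ w) s) = 1 := by
        have h1 : ∑ s, (b s - ind (pS vr α Sᶜ w) s) + ∑ s, ind (pS vr α Sᶜ w) s = ∑ s, b s := by
          rw [← sum_add_distrib]
          exact sum_congr rfl fun s _ => Nat.sub_add_cancel (hle s)
        rw [sum_ind, hcard, hbsum] at h1
        omega
      obtain ⟨s₀, hs₀, hs₀'⟩ : ∃ s₀, b s₀ - ind (pS vr α Sᶜ w) s₀ = 1 ∧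
          ∀ s, s ≠ s₀ → b s - ind (pS vr α Sᶜ w) s = 0 := by
        have h1 : ∃ s₀, b s₀ - ind (pS vr α Sᶜ w) s₀ ≠ 0 := by
          by_contra hcon
          push Not at hcon
          rw [sum_eq_zero fun s _ => hcon s] at hone
          omega
        obtain ⟨s₀, h2⟩ := h1
        have h3 := add_sum_erase univ (fun s => b s - ind (pS vr α Sᶜ w) s) (mem_univ s₀)
        rw [hone] at h3
        have h4 : b s₀ - ind (pS vr α Sᶜ w) s₀ = 1 := by omega
        refine ⟨s₀, h4, fun s hs => ?_⟩
        have h5 : ∑ s ∈ univ.erase s₀, (b s - ind (pS vr α Sᶜ w) s) = 0 := by omega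
        exact (sum_eq_zero_iff.1 h5) s (mem_erase.2 ⟨hs, mem_univ s⟩)
      obtain ⟨t, ht⟩ := hV0 s₀ (hsup s₀ (by omega))
      apply hb'
      rw [mem_image]
      refine ⟨t, mem_univ t, ?_⟩
      funext s
      show ind (insert (vr (emα k α i, t)) (pS vr α Sᶜ w)) s = b s
      have h1 := hle s
      by_cases hs : s = s₀
      · subst hs
        have h2 : ind (pS vr α Sᶜ w) s = 0 := by
          unfold ind
          rw [if_neg]
          rw [← ht]
          exact hnot t
        have h3 : ind (insert (vr (emα k α i, t)) (pS vr α Sᶜ w)) s = 1 := by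
          unfold ind
          rw [if_pos]
          rw [ht]
          exact mem_insert_self _ _
        omega
      · have h2 := hs₀' s hs
        have h3 : ind (insert (vr (emα k α i, t)) (pS vr α Sᶜ w)) s = ind (pS vr α Sᶜ w) s := by
          have h4 : s ∈ insert (vr (emα k α i, t)) (pS vr α Sᶜ w) ↔ s ∈ pS vr α Sᶜ w := by
            rw [mem_insert, ht]
            exact or_iff_right hs
          by_cases h5 : s ∈ pS vr α Sᶜ w
          · rw [show ind (insert (vr (emα k α i, t)) (pS vr α Sᶜ w)) s = 1 from if_pos (h4.2 h5),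
              show ind (pS vr α Sᶜ w) s = 1 from if_pos h5]
          · rw [show ind (insert (vr (emα k α i, t)) (pS vr α Sᶜ w)) s = 0 from
                if_neg fun h6 => h5 (h4.1 h6),
              show ind (pS vr α Sᶜ w) s = 0 from if_neg h5]
        omega
  rw [← hsub, sum_image fun a _ b _ h => hφinj h]
  refine sum_congr rfl fun t _ => ?_
  have h1 : tcr V (φ t) (ind (pS vr α Sᶜ w)) = y (i, t) := by
    show tcr V (ind _) (ind _) = _
    rw [tcr_ind, if_pos (subset_insert _ _), insert_sdiff_of_notMem _ (hnot t),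
      Finset.sdiff_self, prod_insert (notMem_empty _), prod_empty, mul_one]
    exact hV t
  rw [h1]
  congr 1
  rw [← sum_tcr hvr hA hf α (S.erase i) y hP hP0 (Function.update w i t)]
  refine sum_congr rfl fun e _ => ?_
  rw [hins t]

end Pool.Agent.V7.BE

end

section

/-!
# General d, ALPHA, clusters: a plain cluster with general members (CL2)

`cl2`: for `c` groups of `l` points of the kind `(E + 1, B)`, `i ∉ B`, `I - i ⊆ B`, and a configuration `S`
without additional conditions of clusters created at `i`.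
-/

set_option autoImplicit false
set_option linter.unusedSectionVars false

namespace Pool.Agent.GD.AL

open Finset MvPolynomial Pool.Agent.H51.TB Pool.Agent.V7.ST
open Pool.Agent.V7 (msk)

/-! ### Multisets -/

theorem map_ite {α T : Type} [Fintype α] (P : α → Prop) [DecidablePred P] (a b : T) :
    (univ : Finset α).val.map (fun x => if P x then a else b) =
      Multiset.replicate (univ.filter P).card a + Multiset.replicate (univ.filter fun x => ¬ P x).card b := by
  have h1 : (univ : Finset α).val = (univ : Finset α).val.filter P +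
      (univ : Finset α).val.filter fun x => ¬ P x := (Multiset.filter_add_not P _).symm
  conv_lhs => rw [h1]
  rw [Multiset.map_add]
  congr 1
  · rw [Multiset.map_congr rfl fun x hx => if_pos (Multiset.mem_filter.1 hx).2, Multiset.map_const']
    rfl
  · rw [Multiset.map_congr rfl fun x hx => if_neg (Multiset.mem_filter.1 hx).2, Multiset.map_const']
    rfl

theorem card_lt {c l t : ℕ} (ht : t ≤ c) :
    (univ.filter fun x : Fin c × Fin l => x.1.1 < t).card = t * l := by
  have h1 : (univ.filter fun x : Fin c × Fin l => x.1.1 < t) =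
      (univ.filter fun b : Fin c => b.1 < t) ×ˢ (univ : Finset (Fin l)) := by
    ext x
    simp
  have h2 : (univ.filter fun b : Fin c => b.1 < t).map Fin.valEmbedding = range t := by
    ext x
    rw [mem_map, mem_range]
    constructor
    · rintro ⟨b, hb, rfl⟩
      exact (mem_filter.1 hb).2
    · intro hx
      exact ⟨⟨x, by omega⟩, mem_filter.2 ⟨mem_univ _, hx⟩, rfl⟩
  have h3 := congrArg Finset.card h2
  rw [card_map, card_range] at h3
  rw [h1, card_product, h3, card_univ, Fintype.card_fin]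

theorem map_groups {T : Type} {c l t : ℕ} (ht : t ≤ c) (a b : T) :
    (univ : Finset (Fin c × Fin l)).val.map (fun x => if x.1.1 < t then a else b) =
      Multiset.replicate (t * l) a + Multiset.replicate ((c - t) * l) b := by
  rw [map_ite (fun x : Fin c × Fin l => x.1.1 < t) a b, card_lt ht]
  congr 2
  have h1 := card_filter_add_card_filter_not (s := (univ : Finset (Fin c × Fin l)))
    (fun x => x.1.1 < t)
  rw [card_lt ht, card_univ, Fintype.card_prod, Fintype.card_fin, Fintype.card_fin] at h1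
  have h2 : c * l = t * l + (c - t) * l := by
    rw [← add_mul]
    congr 1
    omega
  omega

theorem card_ne {c l b : ℕ} (hb : b < c) :
    Fintype.card {x : Fin c × Fin l // x.1.1 ≠ b} = (c - 1) * l := by
  have h0 : (univ.filter fun x : Fin c × Fin l => x.1.1 = b).card = l := by
    have h1 : (univ.filter fun x : Fin c × Fin l => x.1.1 = b) =
        ({⟨b, hb⟩} : Finset (Fin c)) ×ˢ (univ : Finset (Fin l)) := by
      ext x
      simp only [mem_filter, mem_univ, true_and, mem_product, mem_singleton, and_true]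
      exact ⟨fun h => Fin.ext h, fun h => congrArg Fin.val h⟩
    rw [h1, card_product, card_singleton, one_mul, card_univ, Fintype.card_fin]
  have h1 := card_filter_add_card_filter_not (s := (univ : Finset (Fin c × Fin l)))
    (fun x => x.1.1 = b)
  rw [h0, card_univ, Fintype.card_prod, Fintype.card_fin, Fintype.card_fin] at h1
  rw [Fintype.card_subtype]
  have h2 : c * l = l + (c - 1) * l := by
    obtain ⟨c', rfl⟩ : ∃ c', c = c' + 1 := ⟨c - 1, by omega⟩
    rw [Nat.add_sub_cancel]
    ring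
  have h3 : (univ.filter fun x : Fin c × Fin l => x.1.1 ≠ b) =
      univ.filter fun x : Fin c × Fin l => ¬ x.1.1 = b := rfl
  rw [h3]
  omega

section

variable {ν : Type} [Fintype ν] [DecidableEq ν] {d : ℕ}
variable {β : ν → ℕ} {I B : Finset ℕ} {i : ℕ} {κ : Type}

/-- The kinds of the family. -/
def mF (m : κ → Kd) {c l : ℕ} (B : Finset ℕ) (i : ℕ) (f : Fin c × Fin l → ℕ) (e : ℕ) :
    κ ⊕ ((Fin c × Fin l) ⊕ Unit) → Kd :=
  Sum.elim m (Sum.elim (fun x => .ord (f x) B) fun _ => .ord e (insert i B))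

end

end Pool.Agent.GD.AL

end

section

/-!
# General d, numerical block: the virtual dimension, one more ordinary point
-/

set_option autoImplicit false

namespace Pool.Agent.GD

open Finset

/-- The summand of `vd`. -/
private noncomputable def nvd (D : ℕ) (I' : Finset ℕ) (c : ℕ → ℕ) (n : ℕ) (ms : Multiset Kd) : ℤ :=
  (-1) ^ I'.card * PowerSeries.coeff D ((ms.map (Kd.P I')).prod * hs (n - ∑ i ∈ I', c i))

private theorem nvd_cons (D : ℕ) (I' : Finset ℕ) (c : ℕ → ℕ) (n : ℕ) (ms : Multiset Kd) (x : ℕ)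
    (A : Finset ℕ) (h : x ≤ D) : nvd D I' c n (.ord x A ::ₘ ms) =
      nvd D I' c n ms - if I' ⊆ A then nvd (D - x) I' c n ms else 0 := by
  unfold nvd
  rw [Multiset.map_cons, Multiset.prod_cons]
  by_cases hA : I' ⊆ A
  · have h1 : Kd.P I' (.ord x A) = 1 - PowerSeries.X ^ x := if_pos hA
    rw [h1, if_pos hA, mul_assoc, sub_mul, one_mul, map_sub, PowerSeries.coeff_X_pow_mul',
      if_pos h]
    ring
  · have h1 : Kd.P I' (.ord x A) = 1 := if_neg hA
    rw [h1, if_neg hA, one_mul, sub_zero]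

private theorem nvd_cons_lt (D : ℕ) (I' : Finset ℕ) (c : ℕ → ℕ) (n : ℕ) (ms : Multiset Kd) (x : ℕ)
    (A : Finset ℕ) (h : D < x) : nvd D I' c n (.ord x A ::ₘ ms) = nvd D I' c n ms := by
  unfold nvd
  rw [Multiset.map_cons, Multiset.prod_cons]
  by_cases hA : I' ⊆ A
  · have h1 : Kd.P I' (.ord x A) = 1 - PowerSeries.X ^ x := if_pos hA
    rw [h1, mul_assoc, sub_mul, one_mul, map_sub, PowerSeries.coeff_X_pow_mul',
      if_neg (not_le.2 h), sub_zero]
  · have h1 : Kd.P I' (.ord x A) = 1 := if_neg hA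
    rw [h1, one_mul]

/-- One more ordinary point of exponent `x ≤ D`. -/
theorem vd_cons (D : ℕ) (I : Finset ℕ) (c : ℕ → ℕ) (n : ℕ) (ms : Multiset Kd) (x : ℕ) (A : Finset ℕ)
    (h : x ≤ D) : vd D I c n (.ord x A ::ₘ ms) = vd D I c n ms - vd (D - x) (I ∩ A) c n ms := by
  show ∑ I' ∈ I.powerset, nvd D I' c n (.ord x A ::ₘ ms) =
    ∑ I' ∈ I.powerset, nvd D I' c n ms - ∑ I' ∈ (I ∩ A).powerset, nvd (D - x) I' c n ms
  rw [sum_congr rfl fun I' _ => nvd_cons D I' c n ms x A h, sum_sub_distrib, ← sum_filter]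
  congr 2
  ext I'
  rw [mem_filter, mem_powerset, mem_powerset, subset_inter_iff]

/-- One more ordinary point of exponent `x > D`. -/
theorem vd_cons_lt (D : ℕ) (I : Finset ℕ) (c : ℕ → ℕ) (n : ℕ) (ms : Multiset Kd) (x : ℕ) (A : Finset ℕ)
    (h : D < x) : vd D I c n (.ord x A ::ₘ ms) = vd D I c n ms :=
  sum_congr rfl fun I' _ => nvd_cons_lt D I' c n ms x A h

private theorem nvd_P0 (I' : Finset ℕ) (k : Kd) (h : 1 ≤ k.ex) :
    PowerSeries.constantCoeff (Kd.P I' k) = 1 := by
  have h0 : ∀ e : ℕ, 1 ≤ e → PowerSeries.constantCoeff (1 - PowerSeries.X ^ e : PowerSeries ℤ) = 1 := by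
    intro e he
    rw [map_sub, map_one, map_pow, PowerSeries.constantCoeff_X, zero_pow (by omega), sub_zero]
  cases k with
  | ord e A =>
    show PowerSeries.constantCoeff (if I' ⊆ A then 1 - PowerSeries.X ^ e else 1 : PowerSeries ℤ) = 1
    split_ifs with h1
    · exact h0 e h
    · exact map_one _
  | cl e dl i As =>
    show PowerSeries.constantCoeff (if i ∈ I' then
        (if I'.erase i ⊆ inter As then 1 - PowerSeries.X ^ trx e dl As.length else 1)
      else (As.map fun A => if I' ⊆ A then 1 - PowerSeries.X ^ e else (1 : PowerSeries ℤ)).prod :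
        PowerSeries ℤ) = 1
    split_ifs with h1 h2
    · exact h0 _ (by unfold trx; omega)
    · exact map_one _
    · rw [map_list_prod, List.map_map]
      apply List.prod_eq_one
      intro y hy
      obtain ⟨A, -, rfl⟩ := List.mem_map.1 hy
      show PowerSeries.constantCoeff (if I' ⊆ A then 1 - PowerSeries.X ^ e else (1 : PowerSeries ℤ)) = 1
      split_ifs with h3
      · exact h0 e h
      · exact map_one _

/-- Degree `0`. -/
theorem vd_zero (I : Finset ℕ) (c : ℕ → ℕ) (n : ℕ) (ms : Multiset Kd) (h : ∀ k ∈ ms, 1 ≤ k.ex) :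
    vd 0 I c n ms = if I = ∅ then 1 else 0 := by
  rw [← sum_powerset_neg_one_pow_card]
  unfold vd
  refine sum_congr rfl fun I' _ => ?_
  have h1 : PowerSeries.coeff 0 ((ms.map (Kd.P I')).prod * hs (n - ∑ i ∈ I', c i)) = 1 := by
    rw [PowerSeries.coeff_zero_eq_constantCoeff, map_mul, map_multiset_prod, Multiset.map_map]
    have h2 : (ms.map (PowerSeries.constantCoeff ∘ Kd.P I')).prod = 1 := by
      apply Multiset.prod_eq_one
      intro y hy
      obtain ⟨k, hk, rfl⟩ := Multiset.mem_map.1 hy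
      exact nvd_P0 I' k (h k hk)
    rw [h2, one_mul, ← PowerSeries.coeff_zero_eq_constantCoeff_apply]
    unfold hs
    rw [PowerSeries.coeff_mk]
    simp
  rw [h1, mul_one]

/-- Simple points. -/
theorem vd_sm (d : ℕ) (I : Finset ℕ) (c : ℕ → ℕ) (n : ℕ) (ms : Multiset Kd) (h : ∀ k ∈ ms, 1 ≤ k.ex)
    (hd : 1 ≤ d) (r : ℕ) : vd d I c n (ms + Multiset.replicate r (sm d)) = vd d I c n ms - r := by
  induction r with
  | zero => simp
  | succ r ih =>
    rw [Multiset.replicate_succ, Multiset.add_cons, vd_cons d I c n _ d ∅ le_rfl, ih, Nat.sub_self,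
      inter_empty, vd_zero, if_pos rfl]
    · push_cast
      ring
    · intro k hk
      rcases Multiset.mem_add.1 hk with hk | hk
      · exact h k hk
      · rw [Multiset.eq_of_mem_replicate hk]
        exact hd

end Pool.Agent.GD

end

section

/-!
# GD, TOP: the vector valued form of a form of the level `J`

The variables are `φ (inl ⟨i, r⟩)`, `i < J`, `r < c i` (the blocks `Z_i`) and `φ (inr t)`, `t < m` (the
space `W`).  `Gam φ f a` is the coefficient of `∏ i, x (i, a i)` in `f`, a form in the last `m`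
variables.
-/

set_option autoImplicit false
set_option linter.unusedSectionVars false

namespace Pool.Agent.GD.Top

open Finset Module MvPolynomial Pool.Agent.H51.TB Pool.Agent.GD Pool.Agent.H54.V7 Pool.Agent.V7.ST
open Pool.Agent.H18.Ex (tcr)
open Pool.Agent.V7 (msk)

/-- The variables of the blocks. -/
abbrev Bl (c : ℕ → ℕ) (J : ℕ) : Type := (i : Fin J) × Fin (c i)

/-- The indices of the coefficient vectors. -/
abbrev TI (c : ℕ → ℕ) (J : ℕ) : Type := (i : Fin J) → Fin (c i)

variable {ν : Type} [Fintype ν] [DecidableEq ν] {c : ℕ → ℕ} {J m : ℕ}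

/-- The exponent of `∏ i, x (i, a i)` times a monomial in the last variables. -/
def HasX (φ : Bl c J ⊕ Fin m ≃ ν) (a : TI c J) (e : ν → ℕ) : Prop :=
  ∀ x : Bl c J, e (φ (Sum.inl x)) = if x.2 = a x.1 then 1 else 0

instance (φ : Bl c J ⊕ Fin m ≃ ν) (a : TI c J) (e : ν → ℕ) : Decidable (HasX φ a e) := by
  unfold HasX
  infer_instance

/-- The exponents of the last variables. -/
noncomputable def zp (φ : Bl c J ⊕ Fin m ≃ ν) (e : ν → ℕ) : Fin m →₀ ℕ :=
  Finsupp.equivFunOnFinite.symm fun t => e (φ (Sum.inr t))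

theorem zp_apply (φ : Bl c J ⊕ Fin m ≃ ν) (e : ν → ℕ) (t : Fin m) :
    zp φ e t = e (φ (Sum.inr t)) := rfl

/-- The vector valued form. -/
noncomputable def Gam (φ : Bl c J ⊕ Fin m ≃ ν) {A : Finset (ν → ℕ)} :
    ({e // e ∈ A} → ℂ) →ₗ[ℂ] (TI c J → MvPolynomial (Fin m) ℂ) :=
  LinearMap.pi fun a => ∑ e : {e // e ∈ A},
    if HasX φ a e.1 then (monomial (zp φ e.1)).comp (LinearMap.proj e) else 0

theorem Gam_apply (φ : Bl c J ⊕ Fin m ≃ ν) {A : Finset (ν → ℕ)} (f : {e // e ∈ A} → ℂ)
    (a : TI c J) : Gam φ f a =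
      ∑ e : {e // e ∈ A}, if HasX φ a e.1 then monomial (zp φ e.1) (f e) else 0 := by
  simp only [Gam, LinearMap.pi_apply, LinearMap.sum_apply]
  refine sum_congr rfl fun e _ => ?_
  split_ifs
  · rfl
  · rfl

theorem sum_split (φ : Bl c J ⊕ Fin m ≃ ν) (e : ν → ℕ) :
    ∑ s, e s = ∑ x, e (φ (Sum.inl x)) + ∑ t, e (φ (Sum.inr t)) := by
  rw [← φ.sum_comp, Fintype.sum_sum_type]

theorem sum_one (a : TI c J) : ∑ x : Bl c J, (if x.2 = a x.1 then 1 else 0) = J := by
  rw [Fintype.sum_sigma]
  simp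

theorem HasX.sum {φ : Bl c J ⊕ Fin m ≃ ν} {a : TI c J} {e : ν → ℕ} (h : HasX φ a e) :
    ∑ x, e (φ (Sum.inl x)) = J := by
  have h1 : ∀ x : Bl c J, e (φ (Sum.inl x)) = if x.2 = a x.1 then 1 else 0 := h
  simp only [h1]
  exact sum_one a

theorem Gam_hom (φ : Bl c J ⊕ Fin m ≃ ν) {D : ℕ} (β : ν → ℕ) (I : Finset ℕ)
    (f : {e // e ∈ Ex β D I} → ℂ) (a : TI c J) : (Gam φ f a).IsHomogeneous (D - J) := by
  rw [Gam_apply]
  refine IsHomogeneous.sum _ _ _ fun e _ => ?_
  split_ifs with h
  · apply isHomogeneous_monomial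
    have h1 := (mem_Ex.1 e.2).1
    rw [sum_split φ, h.sum] at h1
    rw [Finsupp.degree_eq_sum]
    simp only [zp_apply]
    omega
  · exact isHomogeneous_zero _ _ _

/-- Two exponents with the same `x`-part and `z`-part are equal. -/
theorem ext_HasX {φ : Bl c J ⊕ Fin m ≃ ν} {a : TI c J} {e e' : ν → ℕ}
    (h : HasX φ a e) (h' : HasX φ a e') (hz : zp φ e = zp φ e') : e = e' := by
  funext s
  obtain ⟨x, rfl⟩ := φ.surjective s
  rcases x with x | t
  · rw [h x, h' x]
  · exact DFunLike.congr_fun hz t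

theorem coeff_Gam (φ : Bl c J ⊕ Fin m ≃ ν) {A : Finset (ν → ℕ)}
    (f : {e // e ∈ A} → ℂ) (a : TI c J) (e : {e // e ∈ A}) (h : HasX φ a e.1) :
    coeff (zp φ e.1) (Gam φ f a) = f e := by
  classical
  rw [Gam_apply, coeff_sum, sum_eq_single e]
  · rw [if_pos h, coeff_monomial, if_pos rfl]
  · intro e' _ hne
    split_ifs with h'
    · rw [coeff_monomial, if_neg]
      intro h1
      exact hne (Subtype.ext (ext_HasX h' h h1))
    · exact coeff_zero _
  · intro h1
    exact absurd (mem_univ e) h1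

/-- The block numbers are as expected. -/
def IsB (φ : Bl c J ⊕ Fin m ≃ ν) (β : ν → ℕ) : Prop :=
  (∀ x : Bl c J, β (φ (Sum.inl x)) = x.1) ∧ ∀ t, J ≤ β (φ (Sum.inr t))

theorem exists_HasX {φ : Bl c J ⊕ Fin m ≃ ν} {β : ν → ℕ} (hβ : IsB φ β) {D : ℕ}
    {e : ν → ℕ} (he : e ∈ Ex β D (range J)) (h : ∑ x, e (φ (Sum.inl x)) ≤ J) :
    ∃ a : TI c J, HasX φ a e := by
  classical
  have h1 : ∀ i : Fin J, ∃ r : Fin (c i), e (φ (Sum.inl ⟨i, r⟩)) ≠ 0 := by
    intro i
    obtain ⟨s, hs, hs'⟩ := (mem_Ex.1 he).2 i (mem_range.2 i.2)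
    obtain ⟨x, rfl⟩ := φ.surjective s
    rcases x with ⟨i', r⟩ | t
    · have h2 := hβ.1 ⟨i', r⟩
      rw [hs] at h2
      have h3 : i = i' := Fin.ext h2
      subst h3
      exact ⟨r, hs'⟩
    · have h2 := hβ.2 t
      have := i.2
      omega
  choose a ha using h1
  refine ⟨a, ?_⟩
  rw [Fintype.sum_sigma] at h
  have h2 : ∀ i : Fin J, 1 ≤ ∑ r : Fin (c i), e (φ (Sum.inl ⟨i, r⟩)) := by
    intro i
    refine le_trans ?_ (single_le_sum (f := fun r : Fin (c i) => e (φ (Sum.inl ⟨i, r⟩)))
      (fun _ _ => Nat.zero_le _) (mem_univ (a i)))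
    have := ha i
    omega
  have h3 : ∀ i : Fin J, ∑ r : Fin (c i), e (φ (Sum.inl ⟨i, r⟩)) = 1 := by
    have h4 : ∑ _i : Fin J, 1 ≤ ∑ i : Fin J, ∑ r : Fin (c i), e (φ (Sum.inl ⟨i, r⟩)) :=
      sum_le_sum fun i _ => h2 i
    have h5 : ∑ _i : Fin J, 1 = ∑ i : Fin J, ∑ r : Fin (c i), e (φ (Sum.inl ⟨i, r⟩)) := by
      apply le_antisymm h4
      rw [sum_const, card_univ, Fintype.card_fin, smul_eq_mul, mul_one]
      exact h
    intro i
    exact ((sum_eq_sum_iff_of_le fun i _ => h2 i).1 h5 i (mem_univ i)).symm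
  rintro ⟨i, r⟩
  show e (φ (Sum.inl ⟨i, r⟩)) = if r = a i then 1 else 0
  have h4 := h3 i
  rw [← add_sum_erase _ _ (mem_univ (a i))] at h4
  have h5 := ha i
  split_ifs with hr
  · rw [hr]
    omega
  · have h6 : e (φ (Sum.inl ⟨i, r⟩)) ≤
        ∑ r ∈ univ.erase (a i), e (φ (Sum.inl ⟨i, r⟩)) :=
      single_le_sum (f := fun r : Fin (c i) => e (φ (Sum.inl ⟨i, r⟩))) (fun _ _ => Nat.zero_le _)
        (mem_erase.2 ⟨hr, mem_univ r⟩)
    omega

theorem sum_blocks {φ : Bl c J ⊕ Fin m ≃ ν} {β : ν → ℕ} (hβ : IsB φ β) (e : ν → ℕ) :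
    ∑ s ∈ univ.filter (fun s => β s < J), e s = ∑ x, e (φ (Sum.inl x)) := by
  classical
  rw [sum_filter, ← φ.sum_comp, Fintype.sum_sum_type]
  have h2 : ∑ t, (if β (φ (Sum.inr t)) < J then e (φ (Sum.inr t)) else 0) = 0 := by
    apply sum_eq_zero
    intro t _
    rw [if_neg]
    have := hβ.2 t
    omega
  rw [h2, add_zero]
  refine sum_congr rfl fun x _ => ?_
  rw [if_pos]
  rw [hβ.1 x]
  exact x.1.2

/-- The coefficients of the monomials of `x`-degree `J` vanish if the vector valued form does. -/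
theorem Gam_zero {φ : Bl c J ⊕ Fin m ≃ ν} {β : ν → ℕ} (hβ : IsB φ β) {D : ℕ}
    (f : {e // e ∈ Ex β D (range J)} → ℂ) (hf : Gam φ f = 0)
    (e : {e // e ∈ Ex β D (range J)})
    (he : ∑ s ∈ univ.filter (fun s => β s < J), e.1 s ≤ J) : f e = 0 := by
  classical
  rw [sum_blocks hβ] at he
  obtain ⟨a, ha⟩ := exists_HasX hβ e.2 he
  rw [← coeff_Gam φ f a e ha, hf]
  exact coeff_zero _

theorem eval_Gam (φ : Bl c J ⊕ Fin m ≃ ν) {A : Finset (ν → ℕ)}
    (f : {e // e ∈ A} → ℂ) (a : TI c J) (z : Fin m → ℂ) :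
    eval z (Gam φ f a) =
      ∑ e : {e // e ∈ A}, if HasX φ a e.1 then f e * ∏ t, z t ^ e.1 (φ (Sum.inr t)) else 0 := by
  rw [Gam_apply, map_sum]
  refine sum_congr rfl fun e _ => ?_
  split_ifs
  · rw [eval_monomial, Finsupp.prod_fintype _ _ (fun t => pow_zero _)]
    rfl
  · exact map_zero _

/-- The solutions whose coefficient vectors lie in `F`. -/
noncomputable def SF (φ : Bl c J ⊕ Fin m ≃ ν) {A : Finset (ν → ℕ)}
    (V : Submodule ℂ ({e // e ∈ A} → ℂ)) (F : Submodule ℂ (TI c J → ℂ)) :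
    Submodule ℂ ({e // e ∈ A} → ℂ) where
  carrier := {f | f ∈ V ∧ ∀ α, (fun a => coeff α (Gam φ f a)) ∈ F}
  add_mem' := by
    rintro f f' ⟨h1, h2⟩ ⟨h3, h4⟩
    refine ⟨V.add_mem h1 h3, fun α => ?_⟩
    have h5 : (fun a => coeff α (Gam φ (f + f') a)) =
        (fun a => coeff α (Gam φ f a)) + fun a => coeff α (Gam φ f' a) := by
      funext a
      simp
    rw [h5]
    exact F.add_mem (h2 α) (h4 α)
  zero_mem' := by
    refine ⟨V.zero_mem, fun α => ?_⟩
    have h5 : (fun a => coeff α (Gam φ (0 : {e // e ∈ A} → ℂ) a)) = 0 := by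
      funext a
      simp
    rw [h5]
    exact F.zero_mem
  smul_mem' := by
    rintro x f ⟨h1, h2⟩
    refine ⟨V.smul_mem x h1, fun α => ?_⟩
    have h5 : (fun a => coeff α (Gam φ (x • f) a)) = x • fun a => coeff α (Gam φ f a) := by
      funext a
      simp
    rw [h5]
    exact F.smul_mem x (h2 α)

theorem mem_SF (φ : Bl c J ⊕ Fin m ≃ ν) {A : Finset (ν → ℕ)}
    (V : Submodule ℂ ({e // e ∈ A} → ℂ)) (F : Submodule ℂ (TI c J → ℂ)) (f : {e // e ∈ A} → ℂ) :
    f ∈ SF φ V F ↔ f ∈ V ∧ ∀ α, (fun a => coeff α (Gam φ f a)) ∈ F := Iff.rfl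

/-! ### The conditions of an ordinary object -/

theorem mem_ord {d D : ℕ} {β : ν → ℕ} {I : Finset ℕ} {A : Finset (ν → ℕ)} (e : ℕ) (B : Finset ℕ)
    (q : ν × Fin (d + 1) → ℂ) (f : {a // a ∈ A} → ℂ) :
    f ∈ (LSA d D β I A).V (fun _ : Unit => Kd.ord e B) (fun _ => q) ↔
      ∀ b : ν → ℕ, ∑ s, b s + e ≤ D →
        ∑ a : {a // a ∈ A}, f a * tcr (msk β B fun s => q (s, 0)) a.1 b = 0 := by
  have key : ∀ (a b : ν → ℕ), eval q (tcr (pt (d := d) β (Kd.ord e B) 0
      fun s => (X s : MvPolynomial (ν × Fin (d + 1)) ℂ)) a b) =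
        tcr (msk β B fun s => q (s, 0)) a b := by
    intro a b
    unfold tcr
    rw [map_prod]
    refine prod_congr rfl fun s _ => ?_
    rw [map_mul, map_pow, map_natCast]
    congr 2
    simp only [pt, msk]
    split_ifs
    · rw [map_zero]
    · rw [eval_X]
  rw [Sys.mem_V]
  constructor
  · intro h b hb
    have h1 := h () (Sum.inl ⟨(0, b), Nat.zero_lt_one, hb⟩)
    rw [← h1]
    refine sum_congr rfl fun a _ => ?_
    rw [mul_comm]
    congr 1
    exact (key a.1 b).symm
  · rintro h - (⟨⟨x, b⟩, hx, hb⟩ | r)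
    · have hx' : x.1 < 1 := hx
      have hx0 : x = 0 := Fin.ext (by
        show x.1 = 0
        omega)
      subst hx0
      have h1 := h b hb
      rw [← h1]
      refine sum_congr rfl fun a _ => ?_
      rw [mul_comm]
      congr 1
      exact key a.1 b
    · exact r.elim

/-- The position of a point on all the subspaces. -/
noncomputable def posz (d : ℕ) (φ : Bl c J ⊕ Fin m ≃ ν) (z : Fin m → ℂ) : ν × Fin (d + 1) → ℂ :=
  fun s => Sum.elim (fun _ => 0) z (φ.symm s.1)

/-- The conditions of a point on all the subspaces. -/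
theorem htop {φ : Bl c J ⊕ Fin m ≃ ν} {β : ν → ℕ} (hβ : IsB φ β) {d D e : ℕ} (hD : J + e ≤ D)
    {I : Finset ℕ} (z : Fin m → ℂ) {A : Finset (ν → ℕ)} (f : {e // e ∈ A} → ℂ)
    (hf : f ∈ (LSA d D β I A).V (fun _ : Unit => Kd.ord e (range J)) fun _ => posz d φ z)
    (a : TI c J) : eval z (Gam φ f a) = 0 := by
  classical
  rw [mem_ord] at hf
  let b : ν → ℕ := fun s => Sum.elim (fun x : Bl c J => if x.2 = a x.1 then 1 else 0)
    (fun _ => 0) (φ.symm s)
  have hb1 : ∀ x, b (φ (Sum.inl x)) = if x.2 = a x.1 then 1 else 0 := by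
    intro x
    simp [b]
  have hb2 : ∀ t, b (φ (Sum.inr t)) = 0 := by
    intro t
    simp [b]
  have hb : ∑ s, b s + e ≤ D := by
    rw [sum_split φ]
    simp only [hb1, hb2, sum_const_zero, add_zero]
    rw [sum_one]
    exact hD
  rw [← hf b hb, eval_Gam]
  refine sum_congr rfl fun e _ => ?_
  have hx : ∀ x, (msk β (range J) fun s => posz d φ z (s, 0)) (φ (Sum.inl x)) = 0 := by
    intro x
    unfold msk
    rw [if_pos]
    rw [hβ.1 x, mem_range]
    exact x.1.2
  have hz : ∀ t, (msk β (range J) fun s => posz d φ z (s, 0)) (φ (Sum.inr t)) = z t := by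
    intro t
    unfold msk
    rw [if_neg]
    · simp [posz]
    · rw [mem_range]
      have := hβ.2 t
      omega
  have h2 : tcr (msk β (range J) fun s => posz d φ z (s, 0)) e.1 b =
      (∏ x, if e.1 (φ (Sum.inl x)) = b (φ (Sum.inl x)) then (1 : ℂ) else 0) *
        ∏ t, z t ^ e.1 (φ (Sum.inr t)) := by
    unfold tcr
    rw [← φ.prod_comp, Fintype.prod_sum_type]
    congr 1
    · refine prod_congr rfl fun x _ => ?_
      rw [hx]
      split_ifs with h
      · rw [h, Nat.choose_self, Nat.sub_self, pow_zero, Nat.cast_one, mul_one]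
      · rcases Nat.lt_or_ge (e.1 (φ (Sum.inl x))) (b (φ (Sum.inl x))) with h3 | h3
        · rw [Nat.choose_eq_zero_of_lt h3, Nat.cast_zero, zero_mul]
        · rw [zero_pow (by omega), mul_zero]
    · refine prod_congr rfl fun t _ => ?_
      rw [hz, hb2, Nat.choose_zero_right, Nat.cast_one, one_mul, Nat.sub_zero]
  rw [h2]
  by_cases h : HasX φ a e.1
  · have h4 : (∏ x, if e.1 (φ (Sum.inl x)) = b (φ (Sum.inl x)) then (1 : ℂ) else 0) = 1 :=
      prod_eq_one fun x _ => by rw [if_pos]; rw [hb1, h x]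
    rw [if_pos h, h4, one_mul]
  · rw [if_neg h]
    have h3 : ∃ x, e.1 (φ (Sum.inl x)) ≠ b (φ (Sum.inl x)) := by
      by_contra hcon
      push Not at hcon
      apply h
      intro x
      rw [hcon x, hb1]
    obtain ⟨x, hx'⟩ := h3
    rw [prod_eq_zero (mem_univ x) (by rw [if_neg hx']), zero_mul, mul_zero]

/-! ### The standard blocks -/

theorem le_bidx {c : ℕ → ℕ} (hc : ∀ i, 1 ≤ c i) (J s : ℕ) (hs : ∑ j ∈ range J, c j ≤ s) :
    J ≤ bidx c s := by
  have hle : ∀ k, k ≤ ∑ j ∈ range k, c j := by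
    intro k
    calc k = ∑ _j ∈ range k, 1 := by simp
      _ ≤ _ := sum_le_sum fun j _ => hc j
  unfold bidx
  rw [← card_range J]
  refine card_le_card fun k hk => ?_
  rw [mem_range] at hk
  rw [mem_filter, mem_range]
  have h1 : ∑ j ∈ range (k + 1), c j ≤ ∑ j ∈ range J, c j :=
    sum_le_sum_of_subset (range_mono (by omega))
  have h2 := hle J
  exact ⟨by omega, by omega⟩

/-- The numbering of the variables. -/
noncomputable def phn (c : ℕ → ℕ) (J n : ℕ) (h : ∑ i ∈ range J, c i ≤ n) :
    Bl c J ⊕ Fin (n - ∑ i ∈ range J, c i) ≃ Fin n :=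
  ((Equiv.sumCongr finSigmaFinEquiv (Equiv.refl _)).trans finSumFinEquiv).trans
    (finCongr (by rw [← Fin.sum_univ_eq_sum_range c J]; rw [← Fin.sum_univ_eq_sum_range c J] at h; omega))

theorem phn_inl (c : ℕ → ℕ) (J n : ℕ) (h : ∑ i ∈ range J, c i ≤ n) (x : Bl c J) :
    (phn c J n h (Sum.inl x)).1 = ∑ j ∈ range x.1, c j + x.2 := by
  have h1 := finSigmaFinEquiv_apply (n := fun i : Fin J => c i) x
  have h2 : (phn c J n h (Sum.inl x)).1 = (finSigmaFinEquiv x : Fin (∑ i : Fin J, c i)).1 := rfl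
  rw [h2, h1]
  congr 1
  rw [← Fin.sum_univ_eq_sum_range c x.1]
  rfl

theorem phn_inr (c : ℕ → ℕ) (J n : ℕ) (h : ∑ i ∈ range J, c i ≤ n)
    (t : Fin (n - ∑ i ∈ range J, c i)) :
    (phn c J n h (Sum.inr t)).1 = ∑ i ∈ range J, c i + t := by
  have h2 : (phn c J n h (Sum.inr t)).1 = ∑ i : Fin J, c i + t.1 := rfl
  rw [h2, Fin.sum_univ_eq_sum_range c J]

end Pool.Agent.GD.Top

end
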