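import Pool.Agent.H94.LP7.M07
import Pool.Agent.H94.LP7.M10
import Pool.Agent.H94.LP7.M15
import Pool.Agent.H94.LP7.M48

/-! The parts of this file: GD.Top.CV, XD.Num.Euler, XD.Num.Layer. -/

section

/-!
# GD, TOP: the values of the vector valued forms

The members of `W`-degree `0` (support in the blocks of size = the exponent) give rank one conditions on
the coefficient vectors; the tensor system of these conditions is general.
-/

set_option autoImplicit false
set_option linter.unusedSectionVars false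

namespace Pool.Agent.GD

open Finset Module MvPolynomial Pool.Agent.H51.TB Pool.Agent.V7.ST
open Pool.Agent.GD.Top (Bl TI Gam HasX IsB zp zp_apply Gam_apply exists_HasX sum_split)
open Pool.Agent.H18.Ex (tcr)
open Pool.Agent.V7 (msk)

/-- The vanishing sets of the members. -/
def Kd.mA : Kd → ℕ → Finset ℕ
  | .ord _ A, _ => A
  | .cl _ _ _ As, y => As.getD y ∅

/-- The support of a member in the first `J` blocks. -/
def Kd.sp (J : ℕ) (k : Kd) (y : ℕ) : Finset (Fin J) := univ.filter fun i => i.1 ∉ k.mA y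

/-- The member has the `W`-degree `0`. -/
def Kd.isz (J : ℕ) (k : Kd) (y : ℕ) : Prop := y < k.nm ∧ (k.sp J y).card = k.ex

instance (J : ℕ) (k : Kd) (y : ℕ) : Decidable (k.isz J y) := by
  unfold Kd.isz
  infer_instance

/-- The members of `W`-degree `0` are independent of one another. -/
def Kd.Gd (d J : ℕ) : Kd → Prop
  | .ord _ _ => True
  | .cl e dl i As => As.length ≤ d ∧ ∃ y < As.length, ¬ (Kd.cl e dl i As).isz J y

section

variable {ν : Type} [Fintype ν] [DecidableEq ν] {c : ℕ → ℕ} {J m d : ℕ}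

theorem eval_pt (β : ν → ℕ) (k : Kd) (x : Fin (d + 1)) (q : ν × Fin (d + 1) → ℂ) (s : ν) :
    eval q (pt β k x (fun s => (X s : MvPolynomial (ν × Fin (d + 1)) ℂ)) s) = pt β k x q s := by
  rcases k with ⟨e, A⟩ | ⟨e, dl, i, As⟩
  · simp only [pt, msk]
    split_ifs
    · rw [map_zero]
    · rw [eval_X]
  · simp only [pt, msk]
    split_ifs
    · rw [map_zero]
    · rw [map_neg, map_sum]
      congr 1
      refine sum_congr rfl fun y _ => ?_
      split_ifs
      · rw [eval_X]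
      · rw [map_zero]
    · rw [eval_X]

theorem eval_tcr_pt (β : ν → ℕ) (k : Kd) (x : Fin (d + 1)) (q : ν × Fin (d + 1) → ℂ) (a b : ν → ℕ) :
    eval q (tcr (pt β k x (fun s => (X s : MvPolynomial (ν × Fin (d + 1)) ℂ))) a b) =
      tcr (pt β k x q) a b := by
  unfold tcr
  rw [map_prod]
  refine prod_congr rfl fun s _ => ?_
  rw [map_mul, map_pow, map_natCast, eval_pt]

/-- The conditions of the points. -/
theorem V_pt {D : ℕ} {β : ν → ℕ} {I : Finset ℕ} {A : Finset (ν → ℕ)} {κ : Type} {rest : κ → Kd}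
    {p : κ → ν × Fin (d + 1) → ℂ} {f : {a // a ∈ A} → ℂ} (hf : f ∈ (LSA d D β I A).V rest p) (i : κ)
    (x : Fin (d + 1)) (hx : x.1 < (rest i).nm) (b : ν → ℕ) (hb : ∑ s, b s + (rest i).ex ≤ D) :
    ∑ a : {a // a ∈ A}, f a * tcr (pt β (rest i) x (p i)) a.1 b = 0 := by
  have h1 := (Sys.mem_V _ rest p f).1 hf i (Sum.inl ⟨(x, b), hx, hb⟩)
  rw [← h1]
  refine sum_congr rfl fun a _ => ?_
  rw [mul_comm]
  congr 1
  exact (eval_tcr_pt β (rest i) x (p i) a.1 b).symm

/-- The system of the tensors. -/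
noncomputable def cvS (d : ℕ) (φ : Bl c J ⊕ Fin m ≃ ν) (β : ν → ℕ) :
    Sys (TI c J) (ν × Fin (d + 1)) Kd where
  R := fun k => {x : Fin (d + 1) // k.isz J x.1} × TI c J
  fin := fun _ => inferInstance
  co := fun k x a => if ∀ j, j ∉ k.sp J x.1.1.1 → a j = x.2 j then
    ∏ j ∈ k.sp J x.1.1.1, pt β k x.1.1 (fun s => (X s : MvPolynomial (ν × Fin (d + 1)) ℂ))
      (φ (Sum.inl ⟨j, a j⟩)) else 0

/-- The members of `W`-degree `0`. -/
abbrev Mz (J d : ℕ) {κ : Type} (rest : κ → Kd) : Type :=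
  {x : κ × Fin (d + 1) // (rest x.1).isz J x.2.1}

/-- Their supports. -/
def mz (J d : ℕ) {κ : Type} (rest : κ → Kd) (x : Mz J d rest) : Finset (Fin J) :=
  (rest x.1.1).sp J x.1.2.1

/-- Their positions. -/
def qz (φ : Bl c J ⊕ Fin m ≃ ν) (β : ν → ℕ) {κ : Type} (rest : κ → Kd)
    (p : κ → ν × Fin (d + 1) → ℂ) (x : Mz J d rest) (s : Bl c J) : ℂ :=
  pt β (rest x.1.1) x.1.2 (p x.1.1) (φ (Sum.inl s))

theorem V_cvS (φ : Bl c J ⊕ Fin m ≃ ν) (β : ν → ℕ) {κ : Type} (rest : κ → Kd)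
    (p : κ → ν × Fin (d + 1) → ℂ) : (cvS d φ β).V rest p =
      (TS (Fin J) fun i => c i).V (mz J d rest) (qz φ β rest p) := by
  ext g
  rw [Sys.mem_V, mem_TS]
  have key : ∀ (i : κ) (x : {x : Fin (d + 1) // (rest i).isz J x.1}) (w a : TI c J)
      (hd : Decidable (∀ j, j ∉ mz J d rest ⟨(i, x.1), x.2⟩ → a j = w j)),
      eval (p i) ((cvS d φ β).co (rest i) (x, w) a) * g a =
        @ite ℂ (∀ j, j ∉ mz J d rest ⟨(i, x.1), x.2⟩ → a j = w j) hd
          ((∏ j ∈ mz J d rest ⟨(i, x.1), x.2⟩, qz φ β rest p ⟨(i, x.1), x.2⟩ ⟨j, a j⟩) * g a) 0 := by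
    intro i x w a _
    have e1 : (cvS d φ β).co (rest i) (x, w) a = if ∀ j, j ∉ (rest i).sp J x.1.1 → a j = w j then
        ∏ j ∈ (rest i).sp J x.1.1, pt β (rest i) x.1 (fun s => (X s : MvPolynomial (ν × Fin (d + 1)) ℂ))
          (φ (Sum.inl ⟨j, a j⟩)) else 0 := rfl
    by_cases h : ∀ j, j ∉ (rest i).sp J x.1.1 → a j = w j
    · rw [e1, if_pos h, map_prod]
      refine Eq.trans ?_ (if_pos h).symm
      congr 1
      refine prod_congr rfl fun j _ => ?_
      rw [eval_pt]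
      rfl
    · rw [e1, if_neg h, map_zero, zero_mul]
      exact (if_neg h).symm
  constructor
  · rintro h ⟨⟨i, x⟩, hx⟩ w
    have h1 := h i (⟨x, hx⟩, w)
    rw [← h1]
    unfold ctr
    exact sum_congr rfl fun a _ => (key i ⟨x, hx⟩ w a _).symm
  · rintro h i ⟨⟨x, hx⟩, w⟩
    have h1 := h ⟨(i, x), hx⟩ w
    rw [← h1]
    unfold ctr
    exact sum_congr rfl fun a _ => key i ⟨x, hx⟩ w a _

/-! ### Realisation of the positions -/

theorem sum_fin_lt (f : ℕ → ℂ) (d l : ℕ) (hl : l ≤ d + 1) :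
    ∑ y : Fin (d + 1), (if y.1 < l then f y.1 else 0) = ∑ y ∈ range l, f y := by
  rw [Fin.sum_univ_eq_sum_range (fun y => if y < l then f y else 0) (d + 1), ← sum_filter]
  congr 1
  ext y
  rw [mem_filter, mem_range, mem_range]
  omega

theorem pt_real {φ : Bl c J ⊕ Fin m ≃ ν} {β : ν → ℕ} (hφ : IsB φ β) (e dl i : ℕ)
    (As : List (Finset ℕ)) (hl : As.length ≤ d) (T : ℕ → Bl c J → ℂ)
    (hT : ∀ s, ∑ y ∈ range As.length, T y s = 0) (y : Fin (d + 1)) (_ : y.1 < As.length)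
    (s : Bl c J) (hs : s.1.1 ∉ As.getD y.1 ∅) :
    pt β (Kd.cl e dl i As) y (fun z : ν × Fin (d + 1) =>
      Sum.elim (fun s => T z.2.1 s) (fun _ => 0) (φ.symm z.1)) (φ (Sum.inl s)) = T y.1 s := by
  have hβ : β (φ (Sum.inl s)) = s.1.1 := hφ.1 s
  simp only [pt, msk]
  rw [hβ, if_neg hs]
  simp only [Equiv.symm_apply_apply, Sum.elim_inl]
  by_cases h : s.1.1 = i ∧ y.1 + 1 = As.length
  · rw [if_pos h]
    have h1 : ∀ y' : Fin (d + 1), (if y'.1 + 1 < As.length then T y'.1 s else 0) =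
        if y'.1 < y.1 then T y'.1 s else 0 := by
      intro y'
      have h2 : y'.1 + 1 < As.length ↔ y'.1 < y.1 := by omega
      rw [if_congr h2 rfl rfl]
    rw [sum_congr rfl fun y' _ => h1 y', sum_fin_lt (fun y => T y s) d y.1 (by omega)]
    have h3 := hT s
    rw [← h.2, sum_range_succ] at h3
    rw [neg_eq_iff_add_eq_zero, h3]
  · rw [if_neg h]

theorem realise {φ : Bl c J ⊕ Fin m ≃ ν} {β : ν → ℕ} (hφ : IsB φ β) {κ : Type} (rest : κ → Kd)
    (hG : ∀ i, (rest i).Gd d J) (t : Mz J d rest → Bl c J → ℂ) :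
    ∃ p : κ → ν × Fin (d + 1) → ℂ, ∀ (x : Mz J d rest) (s : Bl c J), s.1 ∈ mz J d rest x →
      qz φ β rest p x s = t x s := by
  classical
  have key : ∀ (k : Kd) (_ : k.Gd d J) (T₀ : ℕ → Bl c J → ℂ), ∃ q : ν × Fin (d + 1) → ℂ,
      ∀ y : Fin (d + 1), k.isz J y.1 → ∀ s : Bl c J, s.1 ∈ k.sp J y.1 →
        pt β k y q (φ (Sum.inl s)) = T₀ y.1 s := by
    intro k hk T₀
    rcases k with ⟨e, A⟩ | ⟨e, dl, i₀, As⟩
    · refine ⟨fun z => Sum.elim (fun s => T₀ 0 s) (fun _ => 0) (φ.symm z.1), ?_⟩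
      intro y hy s hs
      have hy0 : y = 0 := by
        apply Fin.ext
        have := hy.1
        have h2 : (Kd.ord e A).nm = 1 := rfl
        rw [h2] at this
        show y.1 = 0
        omega
      subst hy0
      have hβ : β (φ (Sum.inl s)) = s.1.1 := hφ.1 s
      have hs' : s.1.1 ∉ A := by
        have := (mem_filter.1 hs).2
        exact this
      simp only [pt, msk]
      rw [hβ, if_neg hs']
      simp only [Equiv.symm_apply_apply, Sum.elim_inl]
      rfl
    · obtain ⟨hl, y₀, hy₀, hz⟩ := hk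
      let T : ℕ → Bl c J → ℂ := fun y s => if y = y₀ then
        - ∑ y' ∈ (range As.length).erase y₀, T₀ y' s else T₀ y s
      have hT : ∀ s, ∑ y ∈ range As.length, T y s = 0 := by
        intro s
        rw [← add_sum_erase _ _ (mem_range.2 hy₀)]
        have h3 : ∑ y' ∈ (range As.length).erase y₀, T y' s =
            ∑ y' ∈ (range As.length).erase y₀, T₀ y' s :=
          sum_congr rfl fun y' hy' => if_neg (ne_of_mem_erase hy')
        rw [h3]
        show (if y₀ = y₀ then _ else _) + _ = _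
        rw [if_pos rfl, neg_add_cancel]
      refine ⟨fun z => Sum.elim (fun s => T z.2.1 s) (fun _ => 0) (φ.symm z.1), ?_⟩
      intro y hy s hs
      have hy' : y.1 < As.length := hy.1
      have hs' : s.1.1 ∉ As.getD y.1 ∅ := (mem_filter.1 hs).2
      rw [pt_real hφ e dl i₀ As hl T hT y hy' s hs']
      have hne : y.1 ≠ y₀ := by
        intro h
        apply hz
        rw [← h]
        exact hy
      show (if y.1 = y₀ then _ else _) = _
      rw [if_neg hne]
  have h1 : ∀ i : κ, ∃ q : ν × Fin (d + 1) → ℂ, ∀ y : Fin (d + 1), (rest i).isz J y.1 →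
      ∀ s : Bl c J, s.1 ∈ (rest i).sp J y.1 → pt β (rest i) y q (φ (Sum.inl s)) =
        if h : y.1 < d + 1 ∧ (rest i).isz J y.1 then t ⟨(i, ⟨y.1, h.1⟩), h.2⟩ s else 0 := fun i =>
    key (rest i) (hG i) fun y s => if h : y < d + 1 ∧ (rest i).isz J y then
      t ⟨(i, ⟨y, h.1⟩), h.2⟩ s else 0
  choose p hp using h1
  refine ⟨p, fun x s hs => ?_⟩
  have h2 := hp x.1.1 x.1.2 x.2 s hs
  rw [dif_pos ⟨x.1.2.2, x.2⟩] at h2
  exact h2

theorem ctr_congr' {ι : Type} [Fintype ι] [DecidableEq ι] {c : ι → ℕ} (S : Finset ι)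
    {y y' : (Σ i, Fin (c i)) → ℂ} (h : ∀ s : Σ i, Fin (c i), s.1 ∈ S → y s = y' s)
    (F : (∀ i, Fin (c i)) → ℂ) (w : ∀ i, Fin (c i)) : ctr S y F w = ctr S y' F w := by
  unfold ctr
  refine sum_congr rfl fun e _ => ?_
  split_ifs
  · congr 1
    exact prod_congr rfl fun j hj => h _ hj
  · rfl

/-- The system of the tensors has the general dimension of the tensor system. -/
theorem gn_cvS {φ : Bl c J ⊕ Fin m ≃ ν} {β : ν → ℕ} (hφ : IsB φ β) {κ : Type} [Fintype κ]
    (rest : κ → Kd) (hG : ∀ i, (rest i).Gd d J) :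
    Gn κ (ν × Fin (d + 1)) fun p =>
      finrank ℂ ((cvS d φ β).V rest p) = (TS (Fin J) fun i => c i).gd (mz J d rest) := by
  classical
  obtain ⟨t, ht⟩ := gd_attained (TS (Fin J) fun i => c i) (mz J d rest)
  obtain ⟨p₀, hp₀⟩ := realise hφ rest hG t
  have h1 : (cvS d φ β).gd rest ≤ (TS (Fin J) fun i => c i).gd (mz J d rest) := by
    refine (gd_le (cvS d φ β) rest p₀).trans_eq ?_
    rw [V_cvS, ← ht]
    have h2 : (TS (Fin J) fun i => c i).V (mz J d rest) (qz φ β rest p₀) =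
        (TS (Fin J) fun i => c i).V (mz J d rest) t := by
      ext g
      rw [mem_TS, mem_TS]
      refine forall_congr' fun x => forall_congr' fun w => ?_
      rw [ctr_congr' (mz J d rest x) (fun s hs => hp₀ x s hs)]
    rw [h2]
  refine (gn_gd (cvS d φ β) rest).mono fun p hp => ?_
  have h2 : (TS (Fin J) fun i => c i).gd (mz J d rest) ≤ finrank ℂ ((cvS d φ β).V rest p) := by
    rw [V_cvS]
    exact gd_le (TS (Fin J) fun i => c i) (mz J d rest) (qz φ β rest p)
  exact le_antisymm (hp.trans_le h1) h2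

/-! ### The conditions -/

theorem coeff_Gam' (φ : Bl c J ⊕ Fin m ≃ ν) {A : Finset (ν → ℕ)}
    (f : {e // e ∈ A} → ℂ) (a : TI c J) (α : Fin m →₀ ℕ) :
    coeff α (Gam φ f a) = ∑ e : {e // e ∈ A},
      if HasX φ a e.1 ∧ zp φ e.1 = α then f e else 0 := by
  classical
  rw [Gam_apply, coeff_sum]
  refine sum_congr rfl fun e _ => ?_
  by_cases h : HasX φ a e.1
  · rw [if_pos h, coeff_monomial]
    by_cases h' : zp φ e.1 = α
    · rw [if_pos h', if_pos ⟨h, h'⟩]
    · rw [if_neg h', if_neg fun h'' => h' h''.2]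
  · rw [if_neg h, if_neg fun h'' => h h''.1, coeff_zero]

/-- The derivative. -/
noncomputable def der (φ : Bl c J ⊕ Fin m ≃ ν) (S : Finset (Fin J)) (w : TI c J) (α : Fin m →₀ ℕ)
    (s : ν) : ℕ :=
  Sum.elim (fun x : Bl c J => if x.1 ∉ S ∧ x.2 = w x.1 then 1 else 0) (fun t => α t) (φ.symm s)

theorem der_inl (φ : Bl c J ⊕ Fin m ≃ ν) (S : Finset (Fin J)) (w : TI c J) (α : Fin m →₀ ℕ)
    (x : Bl c J) : der φ S w α (φ (Sum.inl x)) = if x.1 ∉ S ∧ x.2 = w x.1 then 1 else 0 := by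
  unfold der
  rw [Equiv.symm_apply_apply]
  rfl

theorem der_inr (φ : Bl c J ⊕ Fin m ≃ ν) (S : Finset (Fin J)) (w : TI c J) (α : Fin m →₀ ℕ)
    (t : Fin m) : der φ S w α (φ (Sum.inr t)) = α t := by
  unfold der
  rw [Equiv.symm_apply_apply]
  rfl

theorem sum_der (φ : Bl c J ⊕ Fin m ≃ ν) (S : Finset (Fin J)) (w : TI c J) (α : Fin m →₀ ℕ) :
    ∑ s, der φ S w α s + S.card = J + ∑ t, α t := by
  classical
  rw [sum_split φ]
  simp only [der_inl, der_inr]
  rw [Fintype.sum_sigma]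
  have h1 : ∀ i : Fin J, ∑ r : Fin (c i), (if i ∉ S ∧ r = w i then 1 else 0) =
      if i ∈ S then 0 else 1 := by
    intro i
    by_cases h : i ∈ S
    · rw [if_pos h]
      exact sum_eq_zero fun r _ => if_neg fun h' => h'.1 h
    · rw [if_neg h, sum_eq_single (w i)]
      · rw [if_pos ⟨h, rfl⟩]
      · intro r _ hr
        rw [if_neg fun h' => hr h'.2]
      · intro h'
        exact absurd (mem_univ _) h'
  rw [sum_congr rfl fun i _ => h1 i]
  have h2 : ∑ i : Fin J, (if i ∈ S then 0 else 1) + S.card = J := by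
    have h3 : ∑ i : Fin J, (if i ∈ S then 0 else 1) = (univ.filter fun i => i ∉ S).card := by
      rw [card_filter]
      exact sum_congr rfl fun i _ => by split_ifs <;> rfl
    have h4 : (univ.filter fun i : Fin J => i ∉ S) = Sᶜ := by
      ext i
      simp
    rw [h3, h4, card_compl, Fintype.card_fin]
    have := card_le_univ S
    rw [Fintype.card_fin] at this
    omega
  omega

/-- The conditions of a point of `W`-degree `0` are conditions on the coefficient vectors. -/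
theorem tcr_eq {φ : Bl c J ⊕ Fin m ≃ ν} {β : ν → ℕ} (hφ : IsB φ β) {D : ℕ} (q : ν → ℂ)
    (S : Finset (Fin J)) (w : TI c J) (α : Fin m →₀ ℕ) (hα : J + ∑ t, α t = D)
    (e : {e // e ∈ Ex β D (range J)}) :
    tcr q e.1 (der φ S w α) = ∑ a : TI c J,
      if (∀ j, j ∉ S → a j = w j) ∧ HasX φ a e.1 ∧ zp φ e.1 = α then
        ∏ j ∈ S, q (φ (Sum.inl ⟨j, a j⟩)) else 0 := by
  classical
  have hsum := (mem_Ex.1 e.2).1
  rw [sum_split φ] at hsum
  have hX : J ≤ ∑ x, e.1 (φ (Sum.inl x)) := by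
    have h1 : ∀ i : Fin J, 1 ≤ ∑ r, e.1 (φ (Sum.inl ⟨i, r⟩)) := by
      intro i
      obtain ⟨s, hs, hs'⟩ := (mem_Ex.1 e.2).2 i.1 (mem_range.2 i.2)
      obtain ⟨x, rfl⟩ := φ.surjective s
      rcases x with ⟨i', r⟩ | t
      · have h2 := hφ.1 ⟨i', r⟩
        rw [hs] at h2
        have h3 : i = i' := Fin.ext h2
        subst h3
        refine le_trans (Nat.one_le_iff_ne_zero.2 hs') ?_
        exact single_le_sum (f := fun r => e.1 (φ (Sum.inl ⟨i, r⟩))) (fun _ _ => Nat.zero_le _)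
          (mem_univ r)
      · have h2 := hφ.2 t
        have := i.2
        omega
    rw [Fintype.sum_sigma]
    calc J = ∑ _i : Fin J, 1 := by simp
      _ ≤ _ := sum_le_sum fun i _ => h1 i
  by_cases hz : zp φ e.1 = α
  · have hz' : ∀ t, e.1 (φ (Sum.inr t)) = α t := fun t => by rw [← hz, zp_apply]
    have h2 : ∑ x, e.1 (φ (Sum.inl x)) = J := by
      simp only [hz'] at hsum
      omega
    obtain ⟨a, ha⟩ := exists_HasX hφ e.2 h2.le
    have huniq : ∀ a' : TI c J, HasX φ a' e.1 → a' = a := by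
      intro a' h3
      funext i
      have h4 := ha ⟨i, a' i⟩
      have h5 := h3 ⟨i, a' i⟩
      simp only [if_true] at h5
      rw [h5] at h4
      by_contra h6
      simp only [if_neg h6] at h4
      omega
    have h3 : tcr q e.1 (der φ S w α) = ∏ i : Fin J, ∏ r : Fin (c i),
        (((e.1 (φ (Sum.inl ⟨i, r⟩))).choose (der φ S w α (φ (Sum.inl ⟨i, r⟩))) : ℕ) : ℂ) *
          q (φ (Sum.inl ⟨i, r⟩)) ^ (e.1 (φ (Sum.inl ⟨i, r⟩)) - der φ S w α (φ (Sum.inl ⟨i, r⟩))) := by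
      unfold tcr
      rw [← φ.prod_comp, Fintype.prod_sum_type, Fintype.prod_sigma]
      have h4 : ∏ t : Fin m, (((e.1 (φ (Sum.inr t))).choose (der φ S w α (φ (Sum.inr t))) : ℕ) : ℂ) *
          q (φ (Sum.inr t)) ^ (e.1 (φ (Sum.inr t)) - der φ S w α (φ (Sum.inr t))) = 1 := by
        refine prod_eq_one fun t _ => ?_
        rw [der_inr, hz', Nat.choose_self, Nat.sub_self, pow_zero, Nat.cast_one, mul_one]
      rw [h4, mul_one]
    have h4 : ∀ i : Fin J, ∏ r : Fin (c i),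
        (((e.1 (φ (Sum.inl ⟨i, r⟩))).choose (der φ S w α (φ (Sum.inl ⟨i, r⟩))) : ℕ) : ℂ) *
          q (φ (Sum.inl ⟨i, r⟩)) ^ (e.1 (φ (Sum.inl ⟨i, r⟩)) - der φ S w α (φ (Sum.inl ⟨i, r⟩))) =
        if i ∈ S then q (φ (Sum.inl ⟨i, a i⟩)) else if a i = w i then 1 else 0 := by
      intro i
      by_cases hi : i ∈ S
      · rw [if_pos hi, prod_eq_single (a i)]
        · rw [der_inl, ha ⟨i, a i⟩, if_pos rfl, if_neg fun h => h.1 hi, Nat.choose_zero_right,
            Nat.cast_one, one_mul, Nat.sub_zero, pow_one]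
        · intro r _ hr
          rw [der_inl, ha ⟨i, r⟩, if_neg hr, if_neg fun h => h.1 hi, Nat.choose_zero_right,
            Nat.cast_one, one_mul, Nat.sub_zero, pow_zero]
        · intro h
          exact absurd (mem_univ _) h
      · rw [if_neg hi]
        by_cases haw : a i = w i
        · rw [if_pos haw]
          refine prod_eq_one fun r _ => ?_
          rw [der_inl, ha ⟨i, r⟩]
          show (((if r = a i then 1 else 0 : ℕ).choose (if i ∉ S ∧ r = w i then 1 else 0) : ℕ) : ℂ) *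
            q (φ (Sum.inl ⟨i, r⟩)) ^ ((if r = a i then 1 else 0) - if i ∉ S ∧ r = w i then 1 else 0) = 1
          by_cases hr : r = a i
          · rw [if_pos hr, if_pos ⟨hi, hr.trans haw⟩]
            simp
          · rw [if_neg hr, if_neg fun h => hr (h.2.trans haw.symm)]
            simp
        · rw [if_neg haw]
          refine prod_eq_zero (mem_univ (w i)) ?_
          rw [der_inl, ha ⟨i, w i⟩]
          show (((if w i = a i then 1 else 0 : ℕ).choose (if i ∉ S ∧ w i = w i then 1 else 0) : ℕ) : ℂ) *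
            _ = 0
          rw [if_neg fun h => haw h.symm, if_pos ⟨hi, rfl⟩]
          simp
    rw [h3, prod_congr rfl fun i _ => h4 i, sum_eq_single a]
    · by_cases haw : ∀ j, j ∉ S → a j = w j
      · rw [if_pos ⟨haw, ha, hz⟩]
        have h5 : ∀ i : Fin J, (if i ∈ S then q (φ (Sum.inl ⟨i, a i⟩)) else
            if a i = w i then (1 : ℂ) else 0) = if i ∈ S then q (φ (Sum.inl ⟨i, a i⟩)) else 1 := by
          intro i
          by_cases hi : i ∈ S
          · rw [if_pos hi, if_pos hi]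
          · rw [if_neg hi, if_neg hi, if_pos (haw i hi)]
        rw [prod_congr rfl fun i _ => h5 i, prod_ite_mem, univ_inter]
      · rw [if_neg fun h => haw h.1]
        push Not at haw
        obtain ⟨j, hj, hj'⟩ := haw
        refine prod_eq_zero (mem_univ j) ?_
        rw [if_neg hj, if_neg hj']
    · intro a' _ hne
      rw [if_neg]
      rintro ⟨_, h5, _⟩
      exact hne (huniq a' h5)
    · intro h
      exact absurd (mem_univ a) h
  · rw [sum_eq_zero fun a _ => if_neg fun h => hz h.2.2]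
    have h1 : ∃ t, e.1 (φ (Sum.inr t)) < α t := by
      by_contra hcon
      push Not at hcon
      apply hz
      have h2 : ∑ t, α t = ∑ t, e.1 (φ (Sum.inr t)) := by
        have := sum_le_sum fun t (_ : t ∈ (univ : Finset (Fin m))) => hcon t
        omega
      ext t
      rw [zp_apply]
      exact ((sum_eq_sum_iff_of_le fun t _ => hcon t).1 h2 t (mem_univ t)).symm
    obtain ⟨t, ht⟩ := h1
    unfold tcr
    refine prod_eq_zero (mem_univ (φ (Sum.inr t))) ?_
    rw [der_inr, Nat.choose_eq_zero_of_lt ht, Nat.cast_zero, zero_mul]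

theorem mem_B {φ : Bl c J ⊕ Fin m ≃ ν} {β : ν → ℕ} (hφ : IsB φ β) {κ : Type}
    (rest : κ → Kd) (p : κ → ν × Fin (d + 1) → ℂ) (f : {e // e ∈ Ex β d (range J)} → ℂ)
    (hf : f ∈ (LS d d β (range J)).V rest p) (α : Fin m →₀ ℕ) :
    (fun a => coeff α (Gam φ f a)) ∈ (cvS d φ β).V rest p := by
  classical
  rw [V_cvS, mem_TS]
  rintro ⟨⟨i, x⟩, hx, hx'⟩ w
  have hsp : mz J d rest ⟨(i, x), hx, hx'⟩ = (rest i).sp J x.1 := rfl
  have hqz : qz φ β rest p ⟨(i, x), hx, hx'⟩ = fun s => pt β (rest i) x (p i) (φ (Sum.inl s)) := rfl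
  rw [hsp, hqz]
  unfold ctr
  by_cases hα : J + ∑ t, α t = d
  · have hb : ∑ s, der φ ((rest i).sp J x.1) w α s + (rest i).ex ≤ d := by
      have := sum_der φ ((rest i).sp J x.1) w α
      have hx2 : ((rest i).sp J x.1).card = (rest i).ex := hx'
      omega
    have h2 := V_pt hf i x hx _ hb
    have h3 : ∀ e : {e // e ∈ Ex β d (range J)}, f e * tcr (pt β (rest i) x (p i)) e.1
        (der φ ((rest i).sp J x.1) w α) = ∑ a : TI c J,
          if ∀ j, j ∉ (rest i).sp J x.1 → a j = w j then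
            (∏ j ∈ (rest i).sp J x.1, pt β (rest i) x (p i) (φ (Sum.inl ⟨j, a j⟩))) *
              (if HasX φ a e.1 ∧ zp φ e.1 = α then f e else 0) else 0 := by
      intro e
      rw [tcr_eq hφ _ _ w α hα e, mul_sum]
      refine sum_congr rfl fun a _ => ?_
      by_cases h4 : ∀ j, j ∉ (rest i).sp J x.1 → a j = w j
      · by_cases h5 : HasX φ a e.1 ∧ zp φ e.1 = α
        · rw [if_pos ⟨h4, h5⟩, if_pos h4, if_pos h5, mul_comm]
        · rw [if_neg fun h => h5 h.2, if_pos h4, if_neg h5, mul_zero, mul_zero]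
      · rw [if_neg fun h => h4 h.1, if_neg h4, mul_zero]
    rw [sum_congr rfl fun e _ => h3 e, sum_comm] at h2
    refine Eq.trans ?_ h2
    refine sum_congr rfl fun a _ => ?_
    by_cases h4 : ∀ j, j ∉ (rest i).sp J x.1 → a j = w j
    · simp only [if_pos h4]
      rw [coeff_Gam', mul_sum]
    · simp only [if_neg h4]
      rw [sum_const_zero]
  · refine sum_eq_zero fun a _ => ?_
    have h4 : coeff α (Gam φ f a) = 0 := by
      rw [coeff_Gam']
      refine sum_eq_zero fun e _ => if_neg ?_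
      rintro ⟨h1, h2⟩
      apply hα
      have h3 := (mem_Ex.1 e.2).1
      rw [sum_split φ, h1.sum] at h3
      have h4 : ∀ t, e.1 (φ (Sum.inr t)) = α t := fun t => by rw [← h2, zp_apply]
      simp only [h4] at h3
      exact h3
    simp only [h4, mul_zero, ite_self]

end

end Pool.Agent.GD

end

section

/-!
# XD, module N7: the Euler relation

`fro_range`: induction on `t` (`fro_insert'`, `Finset.range_succ`, `Nat.multichoose_eq`).
`A_euler`: `Pool.Agent.H21.HD.fro_rec` with `P = ℕ`, `I = range t`.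
-/

set_option autoImplicit false

namespace Pool.Agent.XD

open Finset Pool.Agent.H21.HD

theorem fro_range (e : ℕ → ℕ) (r t j : ℕ) : fro r e (range t) j = A e (r + 1) t j := by
  induction t generalizing j with
  | zero =>
    rw [range_zero, A_zero, Nat.multichoose_eq]
    unfold fro
    simp
    exact_mod_cast Nat.choose_symm_of_eq_add (by omega)
  | succ t ih =>
    have h1 : range (t + 1) = insert t (range t) := range_add_one
    rw [h1, fro_insert' r e (range t) t notMem_range_self j, A_succ, ih]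
    split_ifs with h
    · rw [ih]
    · rfl

theorem A_euler {e : ℕ → ℕ} (he : ∀ t, 1 ≤ e t) (m t j : ℕ) (hm : 1 ≤ m) :
    ((j : ℤ) + 1) * A e m t (j + 1) = ∑ l ∈ range (j + 1),
      ((m : ℤ) - ∑ s ∈ (range t).filter (fun s => e s ∣ l + 1), (e s : ℤ)) * A e m t (j - l) := by
  obtain ⟨r, rfl⟩ := Nat.exists_eq_add_of_le' hm
  have h := fro_rec r e (range t) (fun i _ => he i) (j + 1)
  rw [fro_range] at h
  push_cast at h ⊢
  rw [h]
  refine sum_congr rfl fun l _ => ?_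
  rw [fro_range]

end Pool.Agent.XD

end

section

/-!
# XD, module N8: the signs of the numbers

Let `N_e` be the number of `s < t` with `e s = e`.  If `A e m t l ≥ 0` for `l < J` then `N_e ≤ m^e` for
`e < J` (`A e m _ e` starts at `≤ m^e`, never rises and drops by `1` for each exponent `e`).

`step`: `J ≥ 2` (for `J ≤ 1` take `c' = 1/2`: `A e m t 0 = 1`, `A e m t 1 = m`).  By `A_euler`
`J A_J ≥ m A_{J-1} - ∑_{2 ≤ e ≤ J} e N_e A_{J-e} - C m^(J-1)`, so, if `A_J ≤ c' m^J`, some `e ≤ J` has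
`e N_e ≥ (c / (4 J)) m^e`; and then `(J+1) A_{J+1} ≤ m A_J + C m^J - e N_e A_{J+1-e}`, where
`1 ≤ J + 1 - e < J` and so `A_{J+1-e} ≥ c m^(J+1-e)`; `C` depends on `J` only, `c'` is small (about
`c² / (16 J)`), `m` large.  (The other `s` with `e s ∣ l + 1`, `e s < l + 1`: their number is `≤ m^l` for each
`e s < J`; those with `e s = J` or `J + 1` only help in the upper bound.)

`layer`, first part: if `A_J < c m^J` for some `J < d` (take the least one, `c` small) then
`A_{J+1} < 0` by `step`.  Second part: let `J < d` be the least degree with `A_J ≤ 0`; by the first part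
(with `d := J - 1`) `A_l ≥ c m^l` for `l < J - 1`; `step` at `J - 1` or at `J`.
-/

set_option autoImplicit false

namespace Pool.Agent.XD

open Finset

/-- the number of exponents equal to `a` -/
private def cN (e : ℕ → ℕ) (t a : ℕ) : ℕ := ((range t).filter (fun s => e s = a)).card

private theorem cN_le {e : ℕ → ℕ} (he : ∀ s, 1 ≤ e s) {m t J : ℕ} (h : ∀ j < J, 0 ≤ A e m t j)
    {a : ℕ} (ha : a < J) : (cN e t a : ℤ) ≤ (m : ℤ) ^ a := by
  have key : ∀ T, T ≤ t → A e m T a + (cN e T a : ℤ) ≤ (Nat.multichoose m a : ℤ) := by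
    intro T
    induction T with
    | zero =>
      intro _
      simp [cN, A_zero]
    | succ T ih =>
      intro hT
      have h1 := ih (by omega)
      have hc : cN e (T + 1) a = cN e T a + if e T = a then 1 else 0 := by
        unfold cN
        rw [range_add_one, filter_insert]
        split_ifs with hh
        · rw [card_insert_of_notMem (by simp)]
        · simp
      rw [A_succ, hc]
      by_cases h2 : e T = a
      · rw [if_pos h2, if_pos h2.le, h2, Nat.sub_self, A_deg_zero he]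
        push_cast
        linarith only [h1]
      · rw [if_neg h2]
        by_cases h3 : e T ≤ a
        · rw [if_pos h3]
          have h4 : A e m t (a - e T) ≤ A e m T (a - e T) :=
            A_anti_t he h (by omega) (by omega)
          have h5 := h (a - e T) (by omega)
          push_cast
          linarith only [h1, h4, h5]
        · rw [if_neg h3]
          push_cast
          linarith only [h1]
  have h1 := key t le_rfl
  have h2 := h a ha
  have h3 : (Nat.multichoose m a : ℤ) ≤ (m : ℤ) ^ a := by exact_mod_cast multichoose_le_pow m a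
  linarith only [h1, h2, h3]

/-- the sum of the exponents dividing `k` -/
private def sD (e : ℕ → ℕ) (t k : ℕ) : ℕ := ∑ s ∈ (range t).filter (fun s => e s ∣ k), e s

private theorem cN_sum (e : ℕ → ℕ) (t a : ℕ) :
    ∑ s ∈ (range t).filter (fun s => e s = a), e s = a * cN e t a := by
  rw [sum_congr rfl (fun s hs => (mem_filter.1 hs).2), sum_const, smul_eq_mul, mul_comm]
  rfl

private theorem le_sD (e : ℕ → ℕ) (t a : ℕ) : a * cN e t a ≤ sD e t a := by
  rw [← cN_sum, sD]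
  refine sum_le_sum_of_subset ?_
  intro s hs
  rw [mem_filter] at hs ⊢
  exact ⟨hs.1, by rw [hs.2]⟩

private theorem sD_one {e : ℕ → ℕ} (he : ∀ s, 2 ≤ e s) (t : ℕ) : sD e t 1 = 0 := by
  unfold sD
  refine sum_eq_zero ?_
  intro s hs
  have h1 := Nat.dvd_one.1 (mem_filter.1 hs).2
  have h2 := he s
  omega

private theorem sD_le {e : ℕ → ℕ} (he : ∀ s, 1 ≤ e s) {m t J : ℕ} (hm : 1 ≤ m)
    (h : ∀ j < J, 0 ≤ A e m t j) {l : ℕ} (hl : l < J) :
    sD e t (l + 1) ≤ (l + 1) * cN e t (l + 1) + (l + 1) ^ 2 * m ^ l := by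
  have h1 : sD e t (l + 1) ≤ ∑ s ∈ (range t).filter (fun s => e s = l + 1), e s +
      ∑ s ∈ (range t).filter (fun s => e s ≤ l), e s := by
    unfold sD
    rw [← sum_union]
    · refine sum_le_sum_of_subset ?_
      intro s hs
      rw [mem_filter] at hs
      rw [mem_union, mem_filter, mem_filter]
      have := Nat.le_of_dvd (by omega) hs.2
      rcases Nat.lt_or_ge l (e s) with h2 | h2
      · left
        exact ⟨hs.1, by omega⟩
      · right
        exact ⟨hs.1, h2⟩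
    · rw [disjoint_filter]
      intro s _ h2
      omega
  have h2 : ∑ s ∈ (range t).filter (fun s => e s ≤ l), e s ≤
      l * ((range t).filter (fun s => e s ≤ l)).card := by
    calc ∑ s ∈ (range t).filter (fun s => e s ≤ l), e s
        ≤ ∑ _s ∈ (range t).filter (fun s => e s ≤ l), l :=
          sum_le_sum fun s hs => (mem_filter.1 hs).2
      _ = l * ((range t).filter (fun s => e s ≤ l)).card := by
          rw [sum_const, smul_eq_mul, mul_comm]
  have h3 : ((range t).filter (fun s => e s ≤ l)).card ≤ (l + 1) * m ^ l := by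
    rw [card_eq_sum_card_fiberwise (f := e) (t := range (l + 1))]
    · calc ∑ a ∈ range (l + 1), (((range t).filter (fun s => e s ≤ l)).filter
            (fun s => e s = a)).card ≤ ∑ _a ∈ range (l + 1), m ^ l := by
            refine sum_le_sum ?_
            intro a ha
            rw [mem_range] at ha
            have h4 : (((range t).filter (fun s => e s ≤ l)).filter
                (fun s => e s = a)).card ≤ cN e t a := by
              refine card_le_card ?_
              intro s hs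
              rw [mem_filter, mem_filter] at hs
              rw [mem_filter]
              exact ⟨hs.1.1, hs.2⟩
            have h5 : (cN e t a : ℤ) ≤ (m : ℤ) ^ a := cN_le he h (by omega)
            have h6 : cN e t a ≤ m ^ a := by exact_mod_cast h5
            have h7 : m ^ a ≤ m ^ l := Nat.pow_le_pow_right hm (by omega)
            exact h4.trans (h6.trans h7)
        _ = (l + 1) * m ^ l := by rw [sum_const, card_range, smul_eq_mul]
    · intro s hs
      have := (mem_filter.1 (mem_coe.1 hs)).2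
      simp only [coe_range, Set.mem_Iio]
      omega
  have h4 := cN_sum e t (l + 1)
  have h5 : l * ((range t).filter (fun s => e s ≤ l)).card ≤ (l + 1) ^ 2 * m ^ l := by
    calc l * ((range t).filter (fun s => e s ≤ l)).card ≤ (l + 1) * ((l + 1) * m ^ l) :=
          Nat.mul_le_mul (by omega) h3
      _ = (l + 1) ^ 2 * m ^ l := by ring
  omega

private theorem euler_real {e : ℕ → ℕ} (he : ∀ t, 1 ≤ e t) (m t j : ℕ) (hm : 1 ≤ m) :
    ((j : ℝ) + 1) * (A e m t (j + 1) : ℝ) = ∑ l ∈ range (j + 1),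
      ((m : ℝ) - (sD e t (l + 1) : ℝ)) * (A e m t (j - l) : ℝ) := by
  have h := congrArg (Int.cast (R := ℝ)) (A_euler he m t j hm)
  push_cast at h
  rw [h]
  refine sum_congr rfl ?_
  intro l _
  unfold sD
  push_cast
  rfl

/-- The main case of `step`. -/
private theorem step_aux (K : ℕ) (hK : 1 ≤ K) (c : ℝ) (hc : 0 < c) (c' : ℝ) (hc' : 0 < c')
    (h1 : (K + 1 : ℝ) * c' ≤ c / 4) (h2 : (K + 2 : ℝ) * c' ≤ c ^ 2 / (8 * (K + 1))) (m : ℕ)
    (hm : 1 ≤ m) (hm1 : 4 * (K + 1 : ℝ) ^ 3 / c < m) (hm2 : 8 * (K + 1 : ℝ) ^ 2 / c ^ 2 ≤ m)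
    (e : ℕ → ℕ) (he : ∀ s, 2 ≤ e s) (t : ℕ)
    (hA : ∀ l < K + 1, c * (m : ℝ) ^ l ≤ (A e m t l : ℝ))
    (hJ : (A e m t (K + 1) : ℝ) ≤ c' * (m : ℝ) ^ (K + 1)) :
    (A e m t (K + 2) : ℝ) ≤ -(c' * (m : ℝ) ^ (K + 2)) := by
  have he1 : ∀ s, 1 ≤ e s := fun s => (by decide : 1 ≤ 2).trans (he s)
  have hM : (0 : ℝ) < m := by exact_mod_cast hm
  have hM1 : (1 : ℝ) ≤ m := by exact_mod_cast hm
  have hKr : (0 : ℝ) < (K : ℝ) + 1 := by positivity
  have hApos : ∀ l < K + 1, (0 : ℝ) ≤ (A e m t l : ℝ) := fun l hl =>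
    le_trans (by positivity) (hA l hl)
  have hAz : ∀ l < K + 1, 0 ≤ A e m t l := fun l hl => by exact_mod_cast hApos l hl
  have hAle : ∀ l ≤ K + 1, (A e m t l : ℝ) ≤ (m : ℝ) ^ l := fun l hl => by
    exact_mod_cast A_le_pow he1 hAz hl
  -- a large number of exponents
  have hex : ∃ l, 1 ≤ l ∧ l ≤ K ∧
      c / (2 * (K + 1)) * (m : ℝ) ^ (l + 1) ≤ ((l : ℝ) + 1) * cN e t (l + 1) := by
    by_contra hcon
    push Not at hcon
    have hE := euler_real he1 m t K hm
    have hlow : (m : ℝ) * (A e m t K : ℝ) - ∑ _l ∈ range K,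
        (c / (2 * (K + 1)) * (m : ℝ) ^ (K + 1) + (K + 1 : ℝ) ^ 2 * (m : ℝ) ^ K) ≤
        ∑ l ∈ range (K + 1), ((m : ℝ) - (sD e t (l + 1) : ℝ)) * (A e m t (K - l) : ℝ) := by
      rw [sum_range_succ', sD_one he]
      have h3 : ∑ l ∈ range K, -(c / (2 * (K + 1)) * (m : ℝ) ^ (K + 1) +
          (K + 1 : ℝ) ^ 2 * (m : ℝ) ^ K) ≤ ∑ l ∈ range K,
          ((m : ℝ) - (sD e t (l + 1 + 1) : ℝ)) * (A e m t (K - (l + 1)) : ℝ) := by
        refine sum_le_sum ?_
        intro l hl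
        rw [mem_range] at hl
        have h4 : sD e t (l + 1 + 1) ≤ (l + 1 + 1) * cN e t (l + 1 + 1) +
            (l + 1 + 1) ^ 2 * m ^ (l + 1) := sD_le he1 hm hAz (by omega)
        have h5 : (sD e t (l + 1 + 1) : ℝ) ≤ ((l : ℝ) + 1 + 1) * cN e t (l + 1 + 1) +
            ((l : ℝ) + 1 + 1) ^ 2 * (m : ℝ) ^ (l + 1) := by exact_mod_cast h4
        have h6 := hcon (l + 1) (by omega) (by omega)
        push_cast at h6
        have h7 : ((l : ℝ) + 1 + 1) ≤ K + 1 := by
          have : l + 1 + 1 ≤ K + 1 := by omega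
          exact_mod_cast this
        have h8 : ((l : ℝ) + 1 + 1) ^ 2 ≤ (K + 1 : ℝ) ^ 2 :=
          pow_le_pow_left₀ (by positivity) h7 2
        have hB := hApos (K - (l + 1)) (by omega)
        have hB2 := hAle (K - (l + 1)) (by omega)
        have hp1 : (m : ℝ) ^ (l + 1 + 1) * (m : ℝ) ^ (K - (l + 1)) = (m : ℝ) ^ (K + 1) := by
          rw [← pow_add]
          congr 1
          omega
        have hp2 : (m : ℝ) ^ (l + 1) * (m : ℝ) ^ (K - (l + 1)) = (m : ℝ) ^ K := by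
          rw [← pow_add]
          congr 1
          omega
        have h9 : (sD e t (l + 1 + 1) : ℝ) ≤ c / (2 * (K + 1)) * (m : ℝ) ^ (l + 1 + 1) +
            (K + 1 : ℝ) ^ 2 * (m : ℝ) ^ (l + 1) := by
          have h10 : ((l : ℝ) + 1 + 1) ^ 2 * (m : ℝ) ^ (l + 1) ≤
              (K + 1 : ℝ) ^ 2 * (m : ℝ) ^ (l + 1) :=
            mul_le_mul_of_nonneg_right h8 (by positivity)
          linarith only [h5, h6, h10]
        have h11 : ((m : ℝ) - (sD e t (l + 1 + 1) : ℝ)) * (A e m t (K - (l + 1)) : ℝ) ≥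
            -((sD e t (l + 1 + 1) : ℝ) * (A e m t (K - (l + 1)) : ℝ)) := by
          have := mul_nonneg hM.le hB
          nlinarith only [this]
        have h12 : (sD e t (l + 1 + 1) : ℝ) * (A e m t (K - (l + 1)) : ℝ) ≤
            (c / (2 * (K + 1)) * (m : ℝ) ^ (l + 1 + 1) +
            (K + 1 : ℝ) ^ 2 * (m : ℝ) ^ (l + 1)) * (m : ℝ) ^ (K - (l + 1)) :=
          mul_le_mul h9 hB2 hB (by positivity)
        have h13 : (c / (2 * (K + 1)) * (m : ℝ) ^ (l + 1 + 1) +
            (K + 1 : ℝ) ^ 2 * (m : ℝ) ^ (l + 1)) * (m : ℝ) ^ (K - (l + 1)) =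
            c / (2 * (K + 1)) * (m : ℝ) ^ (K + 1) + (K + 1 : ℝ) ^ 2 * (m : ℝ) ^ K := by
          rw [add_mul, mul_assoc, hp1, mul_assoc, hp2]
        linarith only [h11, h12, h13]
      rw [sum_neg_distrib] at h3
      simp only [Nat.cast_zero, sub_zero, Nat.sub_zero]
      linarith only [h3]
    rw [← hE] at hlow
    rw [sum_const, card_range, nsmul_eq_mul] at hlow
    have h3 := hA K (by omega)
    have h4 : ((K : ℝ) + 1) * (A e m t (K + 1) : ℝ) ≤ c / 4 * (m : ℝ) ^ (K + 1) := by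
      calc ((K : ℝ) + 1) * (A e m t (K + 1) : ℝ) ≤ ((K : ℝ) + 1) * (c' * (m : ℝ) ^ (K + 1)) :=
            mul_le_mul_of_nonneg_left hJ hKr.le
        _ = (((K : ℝ) + 1) * c') * (m : ℝ) ^ (K + 1) := by ring
        _ ≤ c / 4 * (m : ℝ) ^ (K + 1) := mul_le_mul_of_nonneg_right h1 (by positivity)
    have h5 : (m : ℝ) * (A e m t K : ℝ) ≥ c * (m : ℝ) ^ (K + 1) := by
      have := mul_le_mul_of_nonneg_left h3 hM.le
      calc (m : ℝ) * (A e m t K : ℝ) ≥ (m : ℝ) * (c * (m : ℝ) ^ K) := this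
        _ = c * (m : ℝ) ^ (K + 1) := by ring
    have h6 : (K : ℝ) * (c / (2 * (K + 1)) * (m : ℝ) ^ (K + 1)) ≤ c / 2 * (m : ℝ) ^ (K + 1) := by
      have : (K : ℝ) * (c / (2 * (K + 1))) ≤ c / 2 := by
        rw [mul_div_assoc', div_le_div_iff₀ (by positivity) (by positivity)]
        nlinarith only [hc]
      calc (K : ℝ) * (c / (2 * (K + 1)) * (m : ℝ) ^ (K + 1))
          = ((K : ℝ) * (c / (2 * (K + 1)))) * (m : ℝ) ^ (K + 1) := by ring
        _ ≤ c / 2 * (m : ℝ) ^ (K + 1) := mul_le_mul_of_nonneg_right this (by positivity)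
    have h7 : (K : ℝ) * ((K + 1 : ℝ) ^ 2 * (m : ℝ) ^ K) < c / 4 * (m : ℝ) ^ (K + 1) := by
      have h8 : 4 * (K + 1 : ℝ) ^ 3 < m * c := (div_lt_iff₀ hc).1 hm1
      have h9 : (0 : ℝ) < (m : ℝ) ^ K := by positivity
      have h10 : (K : ℝ) * (K + 1 : ℝ) ^ 2 ≤ (K + 1 : ℝ) ^ 3 := by nlinarith only [sq_nonneg ((K : ℝ) + 1)]
      calc (K : ℝ) * ((K + 1 : ℝ) ^ 2 * (m : ℝ) ^ K) = ((K : ℝ) * (K + 1 : ℝ) ^ 2) * (m : ℝ) ^ K := by
            ring
        _ ≤ (K + 1 : ℝ) ^ 3 * (m : ℝ) ^ K := mul_le_mul_of_nonneg_right h10 h9.le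
        _ < (m * c / 4) * (m : ℝ) ^ K := mul_lt_mul_of_pos_right (by linarith only [h8]) h9
        _ = c / 4 * (m : ℝ) ^ (K + 1) := by ring
    nlinarith only [hlow, h4, h5, h6, h7]
  obtain ⟨l₀, hl1, hl2, hl3⟩ := hex
  have hE := euler_real he1 m t (K + 1) hm
  -- upper bound
  set X : ℝ := c ^ 2 / (2 * (K + 1)) * (m : ℝ) ^ (K + 2) with hX
  have hup : ∑ l ∈ range (K + 1 + 1), ((m : ℝ) - (sD e t (l + 1) : ℝ)) *
      (A e m t (K + 1 - l) : ℝ) ≤ c' * (m : ℝ) ^ (K + 2) + ∑ l ∈ range (K + 1),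
      ((m : ℝ) ^ (K + 1) - if l + 1 = l₀ then X else 0) := by
    rw [sum_range_succ', sD_one he, add_comm]
    refine add_le_add ?_ (sum_le_sum ?_)
    · simp only [Nat.cast_zero, sub_zero, Nat.sub_zero]
      calc (m : ℝ) * (A e m t (K + 1) : ℝ) ≤ (m : ℝ) * (c' * (m : ℝ) ^ (K + 1)) :=
            mul_le_mul_of_nonneg_left hJ hM.le
        _ = c' * (m : ℝ) ^ (K + 2) := by ring
    · intro l hl
      rw [mem_range] at hl
      have hB := hApos (K + 1 - (l + 1)) (by omega)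
      have hB2 := hAle (K + 1 - (l + 1)) (by omega)
      have h3 : (m : ℝ) * (A e m t (K + 1 - (l + 1)) : ℝ) ≤ (m : ℝ) ^ (K + 1) := by
        calc (m : ℝ) * (A e m t (K + 1 - (l + 1)) : ℝ)
            ≤ (m : ℝ) * (m : ℝ) ^ (K + 1 - (l + 1)) := mul_le_mul_of_nonneg_left hB2 hM.le
          _ = (m : ℝ) ^ (K + 1 - (l + 1) + 1) := by ring
          _ ≤ (m : ℝ) ^ (K + 1) := pow_le_pow_right₀ hM1 (by omega)
      by_cases h4 : l + 1 = l₀
      · rw [if_pos h4]
        subst h4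
        have h5 : (((l : ℝ) + 1) + 1) * cN e t (l + 1 + 1) ≤ (sD e t (l + 1 + 1) : ℝ) := by
          exact_mod_cast le_sD e t (l + 1 + 1)
        push_cast at hl3
        have h6 := hA (K + 1 - (l + 1)) (by omega)
        have h7 : c / (2 * (K + 1)) * (m : ℝ) ^ (l + 1 + 1) ≤ (sD e t (l + 1 + 1) : ℝ) :=
          hl3.trans h5
        have h8 : (c / (2 * (K + 1)) * (m : ℝ) ^ (l + 1 + 1)) * (c * (m : ℝ) ^ (K + 1 - (l + 1))) ≤
            (sD e t (l + 1 + 1) : ℝ) * (A e m t (K + 1 - (l + 1)) : ℝ) :=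
          mul_le_mul h7 h6 (by positivity) (by positivity)
        have h9 : (c / (2 * (K + 1)) * (m : ℝ) ^ (l + 1 + 1)) *
            (c * (m : ℝ) ^ (K + 1 - (l + 1))) = X := by
          rw [hX]
          have : (m : ℝ) ^ (l + 1 + 1) * (m : ℝ) ^ (K + 1 - (l + 1)) = (m : ℝ) ^ (K + 2) := by
            rw [← pow_add]
            congr 1
            omega
          rw [← this]
          ring
        nlinarith only [h3, h8, h9]
      · rw [if_neg h4]
        have h5 : (0 : ℝ) ≤ (sD e t (l + 1 + 1) : ℝ) * (A e m t (K + 1 - (l + 1)) : ℝ) :=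
          mul_nonneg (Nat.cast_nonneg _) hB
        nlinarith only [h3, h5]
  have hsum : ∑ l ∈ range (K + 1), ((m : ℝ) ^ (K + 1) - if l + 1 = l₀ then X else 0) =
      (K + 1 : ℝ) * (m : ℝ) ^ (K + 1) - X := by
    rw [sum_sub_distrib, sum_const, card_range, nsmul_eq_mul]
    have : ∑ l ∈ range (K + 1), (if l + 1 = l₀ then X else 0) = X := by
      rw [sum_eq_single (l₀ - 1)]
      · rw [if_pos (by omega)]
      · intro b _ hb
        rw [if_neg (by omega)]
      · intro hb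
        exact absurd (mem_range.2 (by omega)) hb
    rw [this]
    push_cast
    ring
  rw [hsum, ← hE] at hup
  have h3 : (K + 1 : ℝ) * (m : ℝ) ^ (K + 1) ≤ c ^ 2 / (8 * (K + 1)) * (m : ℝ) ^ (K + 2) := by
    have h4 : 8 * (K + 1 : ℝ) ^ 2 ≤ m * c ^ 2 := (div_le_iff₀ (by positivity)).1 hm2
    have h5 : (K + 1 : ℝ) ≤ c ^ 2 / (8 * (K + 1)) * m := by
      rw [div_mul_eq_mul_div, le_div_iff₀ (by positivity)]
      nlinarith only [h4]
    calc (K + 1 : ℝ) * (m : ℝ) ^ (K + 1) ≤ (c ^ 2 / (8 * (K + 1)) * m) * (m : ℝ) ^ (K + 1) :=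
          mul_le_mul_of_nonneg_right h5 (by positivity)
      _ = c ^ 2 / (8 * (K + 1)) * (m : ℝ) ^ (K + 2) := by ring
  have h4 : c' * (m : ℝ) ^ (K + 2) ≤ c ^ 2 / (8 * (K + 1)) * (m : ℝ) ^ (K + 2) := by
    refine mul_le_mul_of_nonneg_right ?_ (by positivity)
    have : c' ≤ (K + 2 : ℝ) * c' := by
      have : (0 : ℝ) ≤ K := Nat.cast_nonneg K
      nlinarith only [hc']
    linarith only [h2, this]
  have h5 : X = 4 * (c ^ 2 / (8 * (K + 1)) * (m : ℝ) ^ (K + 2)) := by
    rw [hX]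
    field_simp
    ring
  have h6 : (K + 2 : ℝ) * (A e m t (K + 2) : ℝ) ≤ (K + 2 : ℝ) * -(c' * (m : ℝ) ^ (K + 2)) := by
    have h7 : (K + 2 : ℝ) * c' * (m : ℝ) ^ (K + 2) ≤
        c ^ 2 / (8 * (K + 1)) * (m : ℝ) ^ (K + 2) :=
      mul_le_mul_of_nonneg_right h2 (by positivity)
    have h8 : (K + 2 : ℝ) * (A e m t (K + 2) : ℝ) =
        (((K + 1 : ℕ) : ℝ) + 1) * (A e m t (K + 1 + 1) : ℝ) := by
      push_cast
      ring
    rw [h8]
    nlinarith only [hup, h3, h4, h5, h7]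
  exact le_of_mul_le_mul_left h6 (by positivity)

private theorem A_one {e : ℕ → ℕ} (he : ∀ s, 2 ≤ e s) (m t : ℕ) : A e m t 1 = (m : ℤ) := by
  induction t with
  | zero => rw [A_zero, Nat.multichoose_one_right]
  | succ t ih =>
    rw [A_succ, ih, if_neg (by have := he t; omega), sub_zero]

theorem step (J : ℕ) (c : ℝ) (hc : 0 < c) : ∃ c' : ℝ, 0 < c' ∧ ∃ n₀ : ℕ, ∀ m, n₀ ≤ m →
    ∀ (e : ℕ → ℕ), (∀ s, 2 ≤ e s) → ∀ t, (∀ l < J, c * (m : ℝ) ^ l ≤ (A e m t l : ℝ)) →
      (A e m t J : ℝ) ≤ c' * (m : ℝ) ^ J → (A e m t (J + 1) : ℝ) ≤ -(c' * (m : ℝ) ^ (J + 1)) := by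
  match J with
  | 0 =>
    refine ⟨1 / 2, by norm_num, 1, ?_⟩
    intro m _ e he t _ h
    rw [A_deg_zero (fun s => (by decide : 1 ≤ 2).trans (he s))] at h
    norm_num at h
  | 1 =>
    refine ⟨1 / 2, by norm_num, 1, ?_⟩
    intro m hm e he t _ h
    rw [A_one he] at h
    have : (1 : ℝ) ≤ m := by exact_mod_cast hm
    push_cast at h
    rw [pow_one] at h
    linarith only [this, h]
  | (K + 2) =>
    have hK : (0 : ℝ) < ((K + 1 : ℕ) : ℝ) + 1 := by positivity
    refine ⟨min (c / (4 * (((K + 1 : ℕ) : ℝ) + 1)))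
      (c ^ 2 / (8 * (((K + 1 : ℕ) : ℝ) + 1) * (((K + 1 : ℕ) : ℝ) + 2))),
      lt_min (by positivity) (by positivity),
      ⌊4 * (((K + 1 : ℕ) : ℝ) + 1) ^ 3 / c⌋₊ + 1 + ⌈8 * (((K + 1 : ℕ) : ℝ) + 1) ^ 2 / c ^ 2⌉₊, ?_⟩
    intro m hm e he t h1 h2
    refine step_aux (K + 1) (by omega) c hc _ (lt_min (by positivity) (by positivity)) ?_ ?_ m
      (by omega) ?_ ?_ e he t h1 h2
    · calc (((K + 1 : ℕ) : ℝ) + 1) * _ ≤ (((K + 1 : ℕ) : ℝ) + 1) *
            (c / (4 * (((K + 1 : ℕ) : ℝ) + 1))) :=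
            mul_le_mul_of_nonneg_left (min_le_left _ _) hK.le
        _ = c / 4 := by field_simp
    · calc (((K + 1 : ℕ) : ℝ) + 2) * _ ≤ (((K + 1 : ℕ) : ℝ) + 2) *
            (c ^ 2 / (8 * (((K + 1 : ℕ) : ℝ) + 1) * (((K + 1 : ℕ) : ℝ) + 2))) :=
            mul_le_mul_of_nonneg_left (min_le_right _ _) (by positivity)
        _ = c ^ 2 / (8 * (((K + 1 : ℕ) : ℝ) + 1)) := by field_simp
    · have h3 := Nat.lt_floor_add_one (4 * (((K + 1 : ℕ) : ℝ) + 1) ^ 3 / c)
      have h4 : ((⌊4 * (((K + 1 : ℕ) : ℝ) + 1) ^ 3 / c⌋₊ + 1 : ℕ) : ℝ) ≤ m := by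
        exact_mod_cast (show ⌊4 * (((K + 1 : ℕ) : ℝ) + 1) ^ 3 / c⌋₊ + 1 ≤ m by omega)
      push_cast at h3 h4 ⊢
      linarith only [h3, h4]
    · have h3 := Nat.le_ceil (8 * (((K + 1 : ℕ) : ℝ) + 1) ^ 2 / c ^ 2)
      have h4 : ((⌈8 * (((K + 1 : ℕ) : ℝ) + 1) ^ 2 / c ^ 2⌉₊ : ℕ) : ℝ) ≤ m := by
        exact_mod_cast (show ⌈8 * (((K + 1 : ℕ) : ℝ) + 1) ^ 2 / c ^ 2⌉₊ ≤ m by omega)
      exact h3.trans h4

/-- Positive numbers are large, one degree earlier. -/
private theorem layer_pos (d : ℕ) : ∃ c : ℝ, 0 < c ∧ ∃ n₀ : ℕ, ∀ m, n₀ ≤ m →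
    ∀ (e : ℕ → ℕ), (∀ s, 2 ≤ e s) → ∀ t,
      (∀ j ≤ d, 0 < A e m t j) → ∀ j < d, c * (m : ℝ) ^ j ≤ (A e m t j : ℝ) := by
  induction d with
  | zero => exact ⟨1, one_pos, 0, fun m _ e _ t _ j hj => absurd hj (Nat.not_lt_zero j)⟩
  | succ d ih =>
    obtain ⟨c, hc, n₀, h⟩ := ih
    obtain ⟨c', hc', n₁, h'⟩ := step d c hc
    refine ⟨min c c', lt_min hc hc', max n₀ n₁, ?_⟩
    intro m hm e he t hA j hj
    have h1 := h m ((le_max_left _ _).trans hm) e he t (fun j hj => hA j (by omega))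
    rcases Nat.lt_or_ge j d with hjd | hjd
    · exact (mul_le_mul_of_nonneg_right (min_le_left _ _) (by positivity)).trans (h1 j hjd)
    · have hjd' : j = d := by omega
      subst hjd'
      by_contra hcon
      push Not at hcon
      have h2 : (A e m t j : ℝ) ≤ c' * (m : ℝ) ^ j :=
        hcon.le.trans (mul_le_mul_of_nonneg_right (min_le_right _ _) (by positivity))
      have h3 := h' m ((le_max_right _ _).trans hm) e he t h1 h2
      have h4 : (0 : ℝ) < (A e m t (j + 1) : ℝ) := by exact_mod_cast hA (j + 1) le_rfl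
      have h5 : (0 : ℝ) ≤ c' * (m : ℝ) ^ (j + 1) := by positivity
      linarith only [h3, h4, h5]

private theorem layer_neg (d : ℕ) : ∃ c : ℝ, 0 < c ∧ ∃ n₀ : ℕ, ∀ m, n₀ ≤ m →
    ∀ (e : ℕ → ℕ), (∀ s, 2 ≤ e s) → ∀ t,
      (∃ j < d, A e m t j ≤ 0) → ∃ j ≤ d, (A e m t j : ℝ) ≤ -(c * (m : ℝ) ^ j) := by
  induction d with
  | zero => exact ⟨1, one_pos, 0, fun m _ e _ t h => absurd h.choose_spec.1 (Nat.not_lt_zero _)⟩
  | succ d ih =>
    obtain ⟨c₁, hc₁, n₁, h₁⟩ := ih
    match d with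
    | 0 =>
      refine ⟨1, one_pos, 0, ?_⟩
      intro m _ e he t h
      obtain ⟨j, hj, h⟩ := h
      have : j = 0 := by omega
      subst this
      rw [A_deg_zero (fun s => (by decide : 1 ≤ 2).trans (he s))] at h
      omega
    | (d + 1) =>
      obtain ⟨c₂, hc₂, n₂, h₂⟩ := layer_pos d
      obtain ⟨c₃, hc₃, n₃, h₃⟩ := step d c₂ hc₂
      obtain ⟨c₄, hc₄, n₄, h₄⟩ := step (d + 1) (min c₂ c₃) (lt_min hc₂ hc₃)
      refine ⟨min c₁ (min c₃ c₄), lt_min hc₁ (lt_min hc₃ hc₄), max (max n₁ n₂) (max n₃ n₄), ?_⟩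
      intro m hm e he t h
      have hm1 : n₁ ≤ m := ((le_max_left _ _).trans (le_max_left _ _)).trans hm
      have hm2 : n₂ ≤ m := ((le_max_right _ _).trans (le_max_left _ _)).trans hm
      have hm3 : n₃ ≤ m := ((le_max_left _ _).trans (le_max_right _ _)).trans hm
      have hm4 : n₄ ≤ m := ((le_max_right _ _).trans (le_max_right _ _)).trans hm
      have hwk : ∀ (c : ℝ) (j : ℕ), min c₁ (min c₃ c₄) ≤ c → (A e m t j : ℝ) ≤ -(c * (m : ℝ) ^ j) →
          (A e m t j : ℝ) ≤ -(min c₁ (min c₃ c₄) * (m : ℝ) ^ j) := by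
        intro c j hcc hA
        have : min c₁ (min c₃ c₄) * (m : ℝ) ^ j ≤ c * (m : ℝ) ^ j :=
          mul_le_mul_of_nonneg_right hcc (by positivity)
        linarith only [hA, this]
      by_cases hex : ∃ j < d + 1, A e m t j ≤ 0
      · obtain ⟨j, hj, hA⟩ := h₁ m hm1 e he t hex
        exact ⟨j, by omega, hwk c₁ j (min_le_left _ _) hA⟩
      · push Not at hex
        obtain ⟨j, hj, hA⟩ := h
        have hjd : j = d + 1 := by
          by_contra hne
          exact absurd (hex j (by omega)) (not_lt.2 hA)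
        subst hjd
        have h5 := h₂ m hm2 e he t (fun j hj => hex j (by omega))
        rcases le_or_gt (A e m t d : ℝ) (c₃ * (m : ℝ) ^ d) with h6 | h6
        · exact ⟨d + 1, by omega, hwk c₃ (d + 1) ((min_le_right _ _).trans (min_le_left _ _))
            (h₃ m hm3 e he t h5 h6)⟩
        · have h7 : ∀ l < d + 1, min c₂ c₃ * (m : ℝ) ^ l ≤ (A e m t l : ℝ) := by
            intro l hl
            rcases Nat.lt_or_ge l d with hld | hld
            · exact (mul_le_mul_of_nonneg_right (min_le_left _ _) (by positivity)).trans (h5 l hld)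
            · have : l = d := by omega
              subst this
              exact (mul_le_mul_of_nonneg_right (min_le_right _ _) (by positivity)).trans h6.le
          have h8 : (A e m t (d + 1) : ℝ) ≤ c₄ * (m : ℝ) ^ (d + 1) := by
            have h9 : (A e m t (d + 1) : ℝ) ≤ 0 := by exact_mod_cast hA
            exact h9.trans (by positivity)
          exact ⟨d + 1 + 1, le_rfl, hwk c₄ (d + 1 + 1) ((min_le_right _ _).trans (min_le_right _ _))
            (h₄ m hm4 e he t h7 h8)⟩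

theorem layer (d : ℕ) : ∃ c : ℝ, 0 < c ∧ ∃ n₀ : ℕ, ∀ m, n₀ ≤ m →
    ∀ (e : ℕ → ℕ), (∀ s, 2 ≤ e s) → ∀ t,
      ((∀ j ≤ d, 0 < A e m t j) → ∀ j < d, c * (m : ℝ) ^ j ≤ (A e m t j : ℝ)) ∧
      ((∃ j < d, A e m t j ≤ 0) → ∃ j ≤ d, (A e m t j : ℝ) ≤ -(c * (m : ℝ) ^ j)) := by
  obtain ⟨c₁, hc₁, n₁, h₁⟩ := layer_pos d
  obtain ⟨c₂, hc₂, n₂, h₂⟩ := layer_neg d
  refine ⟨min c₁ c₂, lt_min hc₁ hc₂, max n₁ n₂, ?_⟩
  intro m hm e he t
  constructor
  · intro h j hj
    exact (mul_le_mul_of_nonneg_right (min_le_left _ _) (by positivity)).trans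
      (h₁ m ((le_max_left _ _).trans hm) e he t h j hj)
  · intro h
    obtain ⟨j, hj, hA⟩ := h₂ m ((le_max_right _ _).trans hm) e he t h
    refine ⟨j, hj, ?_⟩
    have : min c₁ c₂ * (m : ℝ) ^ j ≤ c₂ * (m : ℝ) ^ j :=
      mul_le_mul_of_nonneg_right (min_le_right _ _) (by positivity)
    linarith only [hA, this]

end Pool.Agent.XD

end
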