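import Pool.Agent.H94.LP7.M24
import Pool.Agent.H94.LP7.M39
import Pool.Agent.H94.LP7.M48
import Pool.Agent.H94.LP7.M63

/-! The parts of this file: GD.BE.ObjN, XD.Subst, XD.Borel. -/

section

/-!
# General d, block BETA, module ObjN: the numbers of the members

See the header of `Obj.lean`.  `card_mb`: `npt` counts the pairs `(i, x)`.  `card_un`, `card_pur`: sum over the
finitely many types `τ` (`VT.ctf`), `Cls.cnt`.
-/

set_option autoImplicit false

namespace Pool.Agent.GD.BE

open Finset
open Pool.Agent.GD.VT (cb)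

variable {P : Par} {n : ℕ} {ms : Multiset Kd}

open Classical in
private lemma card_sum {κ : Type} [Fintype κ] {rest : κ → Kd} {ms : Multiset Kd}
    (hr : (univ : Finset κ).val.map rest = ms) (N : ℕ) (p : Kd → ℕ → Prop) :
    ((univ : Finset (κ × Fin N)).filter fun y => p (rest y.1) y.2.1).card =
      (ms.map fun k => ((univ : Finset (Fin N)).filter fun t => p k t.1).card).sum := by
  rw [← hr, Multiset.map_map, card_filter, Fintype.sum_prod_type]
  change _ = ∑ i : κ, _
  refine sum_congr rfl fun i _ => ?_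
  rw [Function.comp, card_filter]

private lemma fin_range {N m : ℕ} (hm : m ≤ N) (p : ℕ → Prop) [DecidablePred p] :
    ((univ : Finset (Fin N)).filter fun t => t.1 < m ∧ p t.1).card = ((range m).filter p).card := by
  rw [card_filter, ← Finset.sum_range (fun t => if t < m ∧ p t then 1 else 0), ← card_filter]
  congr 1
  ext t
  rw [mem_filter, mem_filter, mem_range, mem_range]
  constructor
  · rintro ⟨_, h2, h3⟩
    exact ⟨h2, h3⟩
  · rintro ⟨h2, h3⟩
    exact ⟨by omega, h2, h3⟩

private lemma fin_le {N m : ℕ} (s : Finset (Fin N)) (hs : ∀ t ∈ s, t.1 < m) : s.card ≤ m := by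
  have h1 : s.card ≤ (range m).card :=
    card_le_card_of_injOn (fun t => t.1) (fun t ht => mem_coe.2 (mem_range.2 (hs t ht)))
      fun a _ b _ hab => Fin.ext hab
  rwa [card_range] at h1

private lemma count_getD (As : List (Finset ℕ)) (A : Finset ℕ) :
    ((range As.length).filter fun t => As.getD t ∅ = A).card = As.count A := by
  induction As with
  | nil => simp
  | cons B As ih =>
    rw [card_filter] at ih ⊢
    rw [List.length_cons, sum_range_succ', List.count_cons, ← ih]
    congr 1
    simp

private lemma mb_one {N : ℕ} {k : Kd} (hk : k.nm ≤ N) (x : ℕ) (A : Finset ℕ) :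
    ((univ : Finset (Fin N)).filter fun t => t.1 < k.nm ∧ k.ex = x ∧ mA k t.1 = A).card =
      k.pts.count (x, A) := by
  rw [fin_range hk (fun t => k.ex = x ∧ mA k t = A)]
  cases k with
  | ord x' A' =>
    change ((range 1).filter fun t => x' = x ∧ A' = A).card = Multiset.count (x, A) {(x', A')}
    rw [Multiset.count_singleton]
    by_cases h : x' = x ∧ A' = A
    · rw [if_pos (by rw [h.1, h.2]), filter_true_of_mem fun _ _ => h, card_range]
    · rw [if_neg fun h' => h ⟨(congrArg Prod.fst h').symm, (congrArg Prod.snd h').symm⟩,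
        filter_false_of_mem fun _ _ => h, card_empty]
  | cl e dl i As =>
    change ((range As.length).filter fun t => e = x ∧ As.getD t ∅ = A).card =
      Multiset.count (x, A) ((As.map fun A => (e, A) : List (ℕ × Finset ℕ)) :
        Multiset (ℕ × Finset ℕ))
    rw [← Multiset.map_coe]
    by_cases h : e = x
    · subst h
      rw [Multiset.count_map_eq_count' (fun A : Finset ℕ => (e, A)) (As : Multiset (Finset ℕ))
        (fun a b hab => (Prod.mk.inj hab).2) A, Multiset.coe_count, ← count_getD]
      congr 1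
      refine filter_congr fun t _ => ?_
      exact and_iff_right rfl
    · rw [filter_false_of_mem fun _ _ h' => h h'.1, card_empty]
      symm
      rw [Multiset.count_eq_zero]
      intro h1
      obtain ⟨B, _, hB⟩ := Multiset.mem_map.1 h1
      exact h (congrArg Prod.fst hB)

open Classical in
/-- The number of the members of a kind. -/
theorem card_mb (he : 2 ≤ P.e) (hed : P.e < P.d) (h : Cls P P.J n ms) {κ : Type} [Fintype κ]
    (rest : κ → Kd) (hr : (univ : Finset κ).val.map rest = ms) (x : ℕ) (A : Finset ℕ) :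
    ((univ : Finset (κ × Fin (P.d + 1))).filter fun y => y.2.1 < (rest y.1).nm ∧
      (rest y.1).ex = x ∧ mA (rest y.1) y.2 = A).card = npt ms x A := by
  have h1 := card_sum hr (P.d + 1) fun k t => t < k.nm ∧ k.ex = x ∧ mA k t = A
  have h2 : ((univ : Finset (κ × Fin (P.d + 1))).filter fun y => y.2.1 < (rest y.1).nm ∧
      (rest y.1).ex = x ∧ mA (rest y.1) y.2 = A).card = (ms.map fun k => k.pts.count (x, A)).sum := by
    refine Eq.trans ?_ (h1.trans ?_)
    · congr
    · congr 1
      refine Multiset.map_congr rfl fun k hk => ?_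
      rw [← mb_one (N := P.d + 1) ((nm_le he hed h hk).trans (by omega)) x A]
      congr
  rw [h2]
  unfold npt
  rw [Multiset.count_bind]

private lemma sum_kinds {ms : Multiset Kd} {u : Kd → ℕ} {Ks : Finset Kd}
    (hu : ∀ k ∈ ms, u k ≠ 0 → k ∈ Ks) : (ms.map u).sum = ∑ k ∈ Ks, ms.count k * u k := by
  induction ms using Multiset.induction_on with
  | empty => simp
  | cons a s ih =>
    rw [Multiset.map_cons, Multiset.sum_cons,
      ih fun k hk => hu k (Multiset.mem_cons_of_mem hk)]
    have h1 : ∀ k, (a ::ₘ s).count k * u k = s.count k * u k + if k = a then u a else 0 := by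
      intro k
      rw [Multiset.count_cons, add_mul]
      congr 1
      by_cases hk : k = a
      · rw [if_pos hk, if_pos hk, one_mul, hk]
      · rw [if_neg hk, if_neg hk, zero_mul]
    simp only [h1]
    rw [sum_add_distrib, sum_ite_eq', add_comm]
    congr 1
    by_cases ha : a ∈ Ks
    · rw [if_pos ha]
    · rw [if_neg ha]
      by_contra h2
      exact ha (hu a (Multiset.mem_cons_self a s) h2)

private lemma mem_clK {k : Kd} : k ∈ VT.clK P P.J ↔
    ∃ i < P.J, ∃ τ : CT, τ.Ok P.d P.e i P.J ∧ k = τ.kd P.d P.e i P.J := by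
  have hJ : P.J ≤ P.d := Nat.sub_le _ _
  unfold VT.clK
  rw [mem_biUnion]
  constructor
  · rintro ⟨i, hi, hk⟩
    obtain ⟨τ, hτ, rfl⟩ := mem_image.1 hk
    have hi' := mem_range.1 hi
    exact ⟨i, hi', τ, (VT.mem_ctf hi' hJ τ).1 hτ, rfl⟩
  · rintro ⟨i, hi, τ, hτ, rfl⟩
    exact ⟨i, mem_range.2 hi, mem_image.2 ⟨τ, (VT.mem_ctf hi hJ τ).2 hτ, rfl⟩⟩

private lemma getD_mem {As : List (Finset ℕ)} {x : ℕ} (hx : x < As.length) :
    As.getD x ∅ ∈ As := by
  rw [List.getD_eq_getElem _ _ hx]
  exact List.getElem_mem hx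

private lemma mbs_two {i j k : ℕ} (hk : 2 ≤ k) (S : Finset ℕ) :
    mbs i j k S = (range j).erase i :: List.replicate (k - 1) ((range j).erase i \ S) := by
  unfold mbs
  rw [if_neg (by omega)]

private lemma sd_erase {i J : ℕ} (hi : i < J) : range J \ (range J).erase i = {i} := by
  ext x
  rw [mem_sdiff, mem_erase, mem_singleton, mem_range]
  constructor
  · rintro ⟨h1, h2⟩
    by_contra h3
    exact h2 ⟨h3, h1⟩
  · rintro rfl
    exact ⟨hi, fun h => h.1 rfl⟩

private lemma sd_erase_le {i J : ℕ} (S : Finset ℕ) :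
    (range J \ ((range J).erase i \ S)).card ≤ S.card + 1 := by
  have h1 : range J \ ((range J).erase i \ S) ⊆ insert i S := by
    intro x hx
    rw [mem_sdiff, mem_sdiff, mem_erase] at hx
    rw [mem_insert]
    by_cases h1 : x = i
    · exact Or.inl h1
    · right
      by_contra h2
      exact hx.2 ⟨⟨h1, hx.1⟩, h2⟩
  exact (card_le_card h1).trans (card_insert_le i S)

private lemma mbs_le {i J k : ℕ} (hi : i < J) {S : Finset ℕ} {A : Finset ℕ}
    (hA : A ∈ mbs i J k S) : (range J \ A).card ≤ S.card + 1 := by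
  unfold mbs at hA
  split_ifs at hA
  · rw [List.mem_singleton] at hA
    rw [hA]
    exact sd_erase_le S
  · rcases List.mem_cons.1 hA with h | h
    · rw [h, sd_erase hi, card_singleton]
      omega
    · rw [List.eq_of_mem_replicate h]
      exact sd_erase_le S

/-- A type with a member which is not usable. -/
private lemma un_w {i : ℕ} (hi : i < P.J) {τ : CT} (hτ : τ.Ok P.d P.e i P.J) {A : Finset ℕ}
    {w : ℕ} (hx : ∃ x < (τ.kd P.d P.e i P.J).nm, (τ.kd P.d P.e i P.J).ex =
      (range P.J \ A).card + (w + 1) ∧ mA (τ.kd P.d P.e i P.J) x = A ∧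
        ¬ Usb P.J (τ.kd P.d P.e i P.J) x) : τ.w P.e ≤ w := by
  obtain ⟨x, hx, hex, hA, hU⟩ := hx
  cases τ with
  | pl k S =>
    obtain ⟨hk, _, hS, _⟩ := hτ
    change x < (mbs i P.J k S).length at hx
    change P.e = (range P.J \ A).card + (w + 1) at hex
    change (mbs i P.J k S).getD x ∅ = A at hA
    change ¬ (x < (mbs i P.J k S).length ∧ ((0 = 0 ∧ ∀ A ∈ mbs i P.J k S, A = (range P.J).erase i) ∨
      (range P.J \ (mbs i P.J k S).getD x ∅).card = P.e ∨
      (0 = 0 ∧ (mbs i P.J k S).headD ∅ = (range P.J).erase i ∧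
        (mbs i P.J k S).getD x ∅ ≠ (range P.J).erase i))) at hU
    change P.e - 1 - S.card ≤ w
    have h1 : A = (range P.J).erase i := by
      by_contra h2
      apply hU
      refine ⟨hx, Or.inr (Or.inr ⟨rfl, ?_, by rw [hA]; exact h2⟩)⟩
      rw [mbs_two hk]
      rfl
    have h3 : S ≠ ∅ := by
      rintro rfl
      apply hU
      refine ⟨hx, Or.inl ⟨rfl, fun B hB => ?_⟩⟩
      rw [mbs_two hk] at hB
      rcases List.mem_cons.1 hB with h | h
      · exact h
      · rw [List.eq_of_mem_replicate h, sdiff_empty]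
    have h4 := card_pos.2 (nonempty_iff_ne_empty.2 h3)
    rw [h1, sd_erase hi, card_singleton] at hex
    omega
  | b0 S =>
    obtain ⟨_, hS, _⟩ := hτ
    change x < (mbs i P.J ((P.d - i - 1) / (P.e - 1)) S).length at hx
    change P.e = (range P.J \ A).card + (w + 1) at hex
    change (mbs i P.J ((P.d - i - 1) / (P.e - 1)) S).getD x ∅ = A at hA
    change P.e - 2 - S.card ≤ w
    have h1 := getD_mem hx
    rw [hA] at h1
    have h2 := mbs_le hi h1
    omega
  | br r => exact Nat.zero_le _

open Classical in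
/-- The number of the members which are not usable. -/
theorem card_un (he : 2 ≤ P.e) (hed : P.e < P.d) : ∃ C : ℝ, 0 ≤ C ∧ ∀ n, 1 ≤ n → ∀ ms,
    Cls P P.J n ms → ∀ (κ : Type) [Fintype κ] (rest : κ → Kd),
      (univ : Finset κ).val.map rest = ms → ∀ (A : Finset ℕ) (w : ℕ), A ⊆ range P.J →
        (((univ : Finset (κ × Fin (P.d + 1))).filter fun y => y.2.1 < (rest y.1).nm ∧
          (rest y.1).ex = (range P.J \ A).card + (w + 1) ∧ mA (rest y.1) y.2 = A ∧
            ¬ Usb P.J (rest y.1) y.2).card : ℝ) ≤ C * (n : ℝ) ^ w := by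
  have hex : ∀ k : Kd, ∃ C : ℕ, k ∈ VT.clK P P.J → ∀ n, 1 ≤ n → ∀ ms, Cls P P.J n ms →
      ∀ (A : Finset ℕ) (w : ℕ), (∃ x < k.nm, k.ex = (range P.J \ A).card + (w + 1) ∧ mA k x = A ∧
        ¬ Usb P.J k x) → ms.count k ≤ C * n ^ w := by
    intro k
    by_cases hk : k ∈ VT.clK P P.J
    · obtain ⟨i, hi, τ, hτ, rfl⟩ := mem_clK.1 hk
      refine ⟨τ.mm P, fun _ n hn ms h A w hx => ?_⟩
      exact (h.cnt i hi τ hτ).trans (Nat.mul_le_mul_left _ (Nat.pow_le_pow_right hn (un_w hi hτ hx)))
    · exact ⟨0, fun h => absurd h hk⟩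
  choose C hC using hex
  refine ⟨((∑ k ∈ VT.clK P P.J, C k * (P.d + 1) : ℕ) : ℝ), Nat.cast_nonneg _, ?_⟩
  intro n hn ms h κ _ rest hr A w _
  obtain ⟨p, hp⟩ : ∃ p : Kd → ℕ → Prop, p = fun k t => t < k.nm ∧
    k.ex = (range P.J \ A).card + (w + 1) ∧ mA k t = A ∧ ¬ Usb P.J k t := ⟨_, rfl⟩
  let u : Kd → ℕ := fun k => ((univ : Finset (Fin (P.d + 1))).filter fun t => p k t.1).card
  have h1 : ((univ : Finset (κ × Fin (P.d + 1))).filter fun y => y.2.1 < (rest y.1).nm ∧
      (rest y.1).ex = (range P.J \ A).card + (w + 1) ∧ mA (rest y.1) y.2 = A ∧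
        ¬ Usb P.J (rest y.1) y.2).card = (ms.map u).sum := by
    refine Eq.trans ?_ (card_sum hr (P.d + 1) p)
    subst hp
    congr
  have h0 : ∀ k, u k ≠ 0 → ∃ x < k.nm, k.ex = (range P.J \ A).card + (w + 1) ∧ mA k x = A ∧
      ¬ Usb P.J k x := by
    intro k hk
    obtain ⟨t, ht⟩ := card_pos.1 (Nat.pos_of_ne_zero hk)
    have h2 := (mem_filter.1 ht).2
    rw [hp] at h2
    exact ⟨t.1, h2⟩
  have h2 : ∀ k ∈ ms, u k ≠ 0 → k ∈ VT.clK P P.J := by
    intro k hk hu
    rcases h.mem k hk with ⟨x, B, rfl, _⟩ | hcl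
    · obtain ⟨t, ht, _, _, hU⟩ := h0 _ hu
      exact absurd ht hU
    · exact mem_clK.2 hcl
  rw [h1, sum_kinds h2]
  have h3 : ∑ k ∈ VT.clK P P.J, ms.count k * u k ≤
      (∑ k ∈ VT.clK P P.J, C k * (P.d + 1)) * n ^ w := by
    rw [sum_mul]
    refine sum_le_sum fun k hk => ?_
    by_cases hu : u k = 0
    · rw [hu, mul_zero]
      exact Nat.zero_le _
    · have h4 := hC k hk n hn ms h A w (h0 k hu)
      have h5 : u k ≤ P.d + 1 := (card_filter_le _ _).trans (by rw [card_univ, Fintype.card_fin])
      calc ms.count k * u k ≤ (C k * n ^ w) * (P.d + 1) := Nat.mul_le_mul h4 h5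
        _ = C k * (P.d + 1) * n ^ w := by ring
  exact_mod_cast h3

/-- The pure clusters are the clusters of the types `pl m ∅`. -/
private lemma pur_type (he : 2 ≤ P.e) {i : ℕ} (hi : i < P.J) {τ : CT}
    (hτ : τ.Ok P.d P.e i P.J) (hp : Pur P.J (τ.kd P.d P.e i P.J)) :
    ∃ m, 2 ≤ m ∧ m ≤ (P.d - i - 1) / (P.e - 1) ∧ τ = .pl m ∅ := by
  have hJ : P.J = P.d - P.e := rfl
  cases τ with
  | pl k S =>
    obtain ⟨hk, hk2, hS, _⟩ := hτ
    refine ⟨k, hk, hk2, ?_⟩
    have h1 : (range P.J).erase i \ S = (range P.J).erase i := by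
      refine hp.2 _ ?_
      rw [mbs_two hk]
      refine List.mem_cons_of_mem _ (List.mem_replicate.2 ⟨by omega, rfl⟩)
    have h2 : S = ∅ := by
      rw [eq_empty_iff_forall_notMem]
      intro y hy
      have h3 := mem_Ico.1 (hS hy)
      have h4 : y ∈ (range P.J).erase i := mem_erase.2 ⟨by omega, mem_range.2 h3.2⟩
      rw [← h1] at h4
      exact (mem_sdiff.1 h4).2 hy
    rw [h2]
  | b0 S => exact absurd hp.1 hτ.1
  | br r =>
    exfalso
    obtain ⟨h1, h2⟩ := hτ
    have hk : 1 ≤ (P.d - i + r - 1) / (P.e - 1) := (Nat.one_le_div_iff (by omega)).2 (by omega)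
    have h3 : (range P.J).erase i \ (Ico (0 * (P.e - 1)) ((0 + 1) * (P.e - 1)) ∩ range r) =
        (range P.J).erase i := by
      refine hp.2 _ ?_
      unfold mbr
      exact List.mem_map.2 ⟨0, List.mem_range.2 (by omega), rfl⟩
    have h4 : 0 ∈ (range P.J).erase i := mem_erase.2 ⟨by omega, mem_range.2 (by omega)⟩
    rw [← h3] at h4
    apply (mem_sdiff.1 h4).2
    refine mem_inter.2 ⟨mem_Ico.2 ⟨by omega, by omega⟩, mem_range.2 (by omega)⟩

open Classical in
/-- The number of the members of the pure clusters created at the level `i`. -/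
theorem card_pur (he : 2 ≤ P.e) (hed : P.e < P.d) (h : Cls P P.J n ms) {κ : Type} [Fintype κ]
    (rest : κ → Kd) (hr : (univ : Finset κ).val.map rest = ms) (i : ℕ) (hi : i < P.J) :
    ((univ : Finset (κ × Fin (P.d + 1))).filter fun y => y.2.1 < (rest y.1).nm ∧
      Pur P.J (rest y.1) ∧ cb (rest y.1) = i).card ≤ P.d ^ 2 * P.M * n ^ (P.e - 1) := by
  have hJ : P.J = P.d - P.e := rfl
  obtain ⟨p, hp⟩ : ∃ p : Kd → ℕ → Prop, p = fun k t => t < k.nm ∧ Pur P.J k ∧ cb k = i := ⟨_, rfl⟩
  let u : Kd → ℕ := fun k => ((univ : Finset (Fin (P.d + 1))).filter fun t => p k t.1).card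
  have h1 : ((univ : Finset (κ × Fin (P.d + 1))).filter fun y => y.2.1 < (rest y.1).nm ∧
      Pur P.J (rest y.1) ∧ cb (rest y.1) = i).card = (ms.map u).sum := by
    refine Eq.trans ?_ (card_sum hr (P.d + 1) p)
    subst hp
    congr
  let Ks : Finset Kd := (Icc 2 ((P.d - i - 1) / (P.e - 1))).image fun m =>
    (CT.pl m ∅).kd P.d P.e i P.J
  have h2 : ∀ k ∈ ms, u k ≠ 0 → k ∈ Ks := by
    intro k hk hu
    obtain ⟨t, ht⟩ := card_pos.1 (Nat.pos_of_ne_zero hu)
    have h5 := (mem_filter.1 ht).2
    rw [hp] at h5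
    obtain ⟨_, hpu, hcb⟩ := h5
    rcases h.mem k hk with ⟨x, B, rfl, _⟩ | ⟨i', hi', τ, hτ, rfl⟩
    · exact absurd hpu id
    · have hii : i' = i := by
        rw [← hcb]
        cases τ <;> rfl
      subst hii
      obtain ⟨m, hm, hm', rfl⟩ := pur_type he hi' hτ hpu
      exact mem_image.2 ⟨m, mem_Icc.2 ⟨hm, hm'⟩, rfl⟩
  rw [h1, sum_kinds h2]
  have h3 : ∀ k ∈ Ks, ms.count k * u k ≤ (P.M * n ^ (P.e - 1)) * P.d := by
    intro k hk
    obtain ⟨m, hm, rfl⟩ := mem_image.1 hk
    obtain ⟨hm, hm'⟩ := mem_Icc.1 hm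
    have h4 := h.cnt i hi (.pl m ∅) ⟨hm, hm', empty_subset _, by rw [card_empty]; omega⟩
    have h5 : (CT.pl m ∅).mm P * n ^ (CT.pl m ∅).w P.e = P.M * n ^ (P.e - 1) := by
      change P.M * P.d ^ (∅ : Finset ℕ).card * P.cc ∅ * n ^ (P.e - 1 - (∅ : Finset ℕ).card) = _
      have h6 : P.cc ∅ = 1 := by unfold Par.cc; exact prod_empty
      rw [card_empty, pow_zero, mul_one, h6, mul_one, Nat.sub_zero]
    rw [h5] at h4
    have hmd : m ≤ P.d := by
      have h6 : (P.d - i - 1) / (P.e - 1) ≤ P.d - i - 1 := Nat.div_le_self _ _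
      omega
    have hnm : ((CT.pl m ∅).kd P.d P.e i P.J).nm = m := by
      change (mbs i P.J m ∅).length = m
      rw [mbs_two hm, List.length_cons, List.length_replicate]
      omega
    have h7 : u ((CT.pl m ∅).kd P.d P.e i P.J) ≤ P.d := by
      refine (fin_le (m := m) _ fun t ht => ?_).trans hmd
      have h8 := (mem_filter.1 ht).2
      rw [hp] at h8
      rw [← hnm]
      exact h8.1
    exact Nat.mul_le_mul h4 h7
  refine (sum_le_sum h3).trans ?_
  rw [sum_const, smul_eq_mul]
  have h4 : Ks.card ≤ P.d := by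
    refine card_image_le.trans ?_
    rw [Nat.card_Icc]
    have h6 : (P.d - i - 1) / (P.e - 1) ≤ P.d - i - 1 := Nat.div_le_self _ _
    omega
  calc Ks.card * (P.M * n ^ (P.e - 1) * P.d) ≤ P.d * (P.M * n ^ (P.e - 1) * P.d) :=
        Nat.mul_le_mul_right _ h4
    _ = P.d ^ 2 * P.M * n ^ (P.e - 1) := by ring

end Pool.Agent.GD.BE

end

section

/-!
# Project XD: elementary substitutions on coefficients
-/

set_option autoImplicit false

namespace Pool.Agent.XD

open Finset MvPolynomial Pool.Agent.H18.Fat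

/-- `x^α` with `l` factors `x_i` replaced by `x_k`. -/
noncomputable def mv {n : ℕ} (i k : Fin n) (l : ℕ) (α : Fin n →₀ ℕ) : Fin n →₀ ℕ :=
  α - Finsupp.single i l + Finsupp.single k l

theorem mv_apply {n : ℕ} (i k : Fin n) (l : ℕ) (α : Fin n →₀ ℕ) (x : Fin n) :
    mv i k l α x = α x - (if x = i then l else 0) + if x = k then l else 0 := by
  unfold mv
  rw [Finsupp.add_apply, Finsupp.tsub_apply, Finsupp.single_apply, Finsupp.single_apply]
  congr 1
  · congr 1
    by_cases h : i = x
    · rw [if_pos h, if_pos h.symm]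
    · rw [if_neg h, if_neg (Ne.symm h)]
  · by_cases h : k = x
    · rw [if_pos h, if_pos h.symm]
    · rw [if_neg h, if_neg (Ne.symm h)]

theorem mv_zero {n : ℕ} (i k : Fin n) (α : Fin n →₀ ℕ) : mv i k 0 α = α := by
  ext x
  rw [mv_apply]
  split_ifs <;> rfl

private theorem Subst_g {n : ℕ} {i k : Fin n} (t : ℂ) (x : Fin n) :
    (∑ j, C (Matrix.transvection i k t x j) * X j : MvPolynomial (Fin n) ℂ) =
      (if x = i then C t * X k else 0) + X x := by
  unfold Matrix.transvection
  have h1 : ∀ j, (C ((1 + Matrix.single i k t : Matrix (Fin n) (Fin n) ℂ) x j) * X j :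
      MvPolynomial (Fin n) ℂ) = (if i = x ∧ k = j then C t * X j else 0) +
        if x = j then X j else 0 := by
    intro j
    rw [Matrix.add_apply, C_add, add_mul, Matrix.one_apply, Matrix.single_apply, add_comm]
    congr 1
    · split_ifs
      · rfl
      · rw [C_0, zero_mul]
    · split_ifs
      · rw [C_1, one_mul]
      · rw [C_0, zero_mul]
  rw [sum_congr rfl fun j _ => h1 j, sum_add_distrib]
  congr 1
  · by_cases hx : x = i
    · subst hx
      simp
    · rw [if_neg hx]
      refine sum_eq_zero fun j _ => ?_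
      rw [if_neg]
      rintro ⟨h, _⟩
      exact hx h.symm
  · simp

theorem lin_mono {n : ℕ} {i k : Fin n} (hik : k ≠ i) (t : ℂ) (α : Fin n →₀ ℕ) (c : ℂ) :
    linSubst (Matrix.transvection i k t) (monomial α c) =
      ∑ l ∈ range (α i + 1), monomial (mv i k l α) (c * ((α i).choose l : ℂ) * t ^ l) := by
  classical
  unfold linSubst
  rw [aeval_monomial, algebraMap_eq, Finsupp.prod_fintype _ _ (by intro x; simp),
    ← mul_prod_erase univ _ (mem_univ i)]
  have h1 : (∑ j, C (Matrix.transvection i k t i j) * X j : MvPolynomial (Fin n) ℂ) =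
      C t * X k + X i := by
    rw [Subst_g, if_pos rfl]
  have h2 : ∏ x ∈ univ.erase i, (∑ j, C (Matrix.transvection i k t x j) * X j) ^ α x =
      ∏ x ∈ univ.erase i, (X x : MvPolynomial (Fin n) ℂ) ^ α x := by
    refine prod_congr rfl fun x hx => ?_
    rw [Subst_g, if_neg (ne_of_mem_erase hx), zero_add]
  rw [h1, h2, add_pow, sum_mul, mul_sum]
  refine sum_congr rfl fun l _ => ?_
  rw [monomial_eq, Finsupp.prod_fintype _ _ (by intro x; simp),
    ← mul_prod_erase univ _ (mem_univ i)]
  have h3 : ∏ x ∈ univ.erase i, (X x : MvPolynomial (Fin n) ℂ) ^ mv i k l α x =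
      (∏ x ∈ univ.erase i, (X x : MvPolynomial (Fin n) ℂ) ^ α x) * X k ^ l := by
    have h4 : ∀ x ∈ univ.erase i, (X x : MvPolynomial (Fin n) ℂ) ^ mv i k l α x =
        (X x : MvPolynomial (Fin n) ℂ) ^ α x * if x = k then X k ^ l else 1 := by
      intro x hx
      rw [mv_apply, if_neg (ne_of_mem_erase hx), Nat.sub_zero]
      by_cases hk : x = k
      · rw [if_pos hk, if_pos hk, pow_add, hk]
      · rw [if_neg hk, if_neg hk, mul_one, add_zero]
    rw [prod_congr rfl h4, prod_mul_distrib, prod_ite_eq', if_pos (mem_erase.2 ⟨hik, mem_univ _⟩)]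
  have h5 : mv i k l α i = α i - l := by
    rw [mv_apply, if_pos rfl, if_neg (Ne.symm hik), add_zero]
  rw [h3, h5, mul_pow, C_mul, C_mul, C_pow, ← C_eq_coe_nat]
  simp only [map_natCast]
  ring

/-- The coefficients of the transformed polynomial, as polynomials in `t`. -/
noncomputable def Tp {n : ℕ} (i k : Fin n) (F : MvPolynomial (Fin n) ℂ) (u : Fin n →₀ ℕ) :
    Polynomial ℂ :=
  ∑ α ∈ F.support, ∑ l ∈ range (α i + 1),
    if mv i k l α = u then Polynomial.monomial l (coeff α F * ((α i).choose l : ℂ)) else 0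

theorem eval_Tp {n : ℕ} {i k : Fin n} (hik : k ≠ i) (t : ℂ) (F : MvPolynomial (Fin n) ℂ)
    (u : Fin n →₀ ℕ) :
    Polynomial.eval t (Tp i k F u) = coeff u (linSubst (Matrix.transvection i k t) F) := by
  classical
  conv_rhs => rw [F.as_sum]
  rw [map_sum, coeff_sum]
  unfold Tp
  rw [Polynomial.eval_finset_sum]
  refine sum_congr rfl fun α _ => ?_
  rw [lin_mono hik, coeff_sum, Polynomial.eval_finset_sum]
  refine sum_congr rfl fun l _ => ?_
  rw [coeff_monomial]
  split_ifs
  · rw [Polynomial.eval_monomial]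
  · rw [Polynomial.eval_zero]

/-- The constant term. -/
theorem Tp_zero {n : ℕ} {i k : Fin n} (F : MvPolynomial (Fin n) ℂ) (u : Fin n →₀ ℕ) :
    (Tp i k F u).coeff 0 = coeff u F := by
  classical
  unfold Tp
  rw [Polynomial.finsetSum_coeff]
  have h1 : ∀ α ∈ F.support, (∑ l ∈ range (α i + 1),
      if mv i k l α = u then Polynomial.monomial l (coeff α F * ((α i).choose l : ℂ)) else 0 :
      Polynomial ℂ).coeff 0 = if α = u then coeff α F else 0 := by
    intro α _
    rw [Polynomial.finsetSum_coeff, sum_eq_single 0]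
    · rw [mv_zero]
      split_ifs
      · rw [Polynomial.coeff_monomial, if_pos rfl, Nat.choose_zero_right, Nat.cast_one, mul_one]
      · rw [Polynomial.coeff_zero]
    · intro l _ hl
      split_ifs
      · rw [Polynomial.coeff_monomial, if_neg hl]
      · rw [Polynomial.coeff_zero]
    · intro h
      exact absurd (mem_range.2 (Nat.succ_pos _)) h
  rw [sum_congr rfl h1, sum_ite_eq']
  split_ifs with h
  · rfl
  · exact (notMem_support_iff.1 h).symm

/-- The linear term at an exponent `v` with `w + e_k = v + e_i`. -/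
theorem Tp_one {n : ℕ} {i k : Fin n} (hik : k ≠ i) (F : MvPolynomial (Fin n) ℂ)
    (v w : Fin n →₀ ℕ) (h : w + Finsupp.single k 1 = v + Finsupp.single i 1) :
    (Tp i k F v).coeff 1 = coeff w F * (w i : ℂ) := by
  classical
  unfold Tp
  rw [Polynomial.finsetSum_coeff]
  have hwi : 1 ≤ w i := by
    have h1 := DFunLike.congr_fun h i
    rw [Finsupp.add_apply, Finsupp.add_apply, Finsupp.single_eq_same,
      Finsupp.single_eq_of_ne hik.symm] at h1
    omega
  have h1 : ∀ α ∈ F.support, (∑ l ∈ range (α i + 1),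
      if mv i k l α = v then Polynomial.monomial l (coeff α F * ((α i).choose l : ℂ)) else 0 :
      Polynomial ℂ).coeff 1 = if α = w then coeff α F * (α i : ℂ) else 0 := by
    intro α _
    rw [Polynomial.finsetSum_coeff]
    by_cases hα : α = w
    · subst hα
      rw [if_pos rfl, sum_eq_single 1]
      · rw [if_pos, Polynomial.coeff_monomial, if_pos rfl, Nat.choose_one_right]
        ext x
        have h2 := DFunLike.congr_fun h x
        rw [Finsupp.add_apply, Finsupp.add_apply, Finsupp.single_apply,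
          Finsupp.single_apply] at h2
        rw [mv_apply]
        by_cases hx : x = i
        · subst hx
          rw [if_pos rfl, if_neg hik.symm]
          rw [if_neg hik, if_pos rfl] at h2
          omega
        · rw [if_neg hx]
          rw [if_neg (Ne.symm hx)] at h2
          by_cases hx' : x = k
          · subst hx'
            rw [if_pos rfl] at h2 ⊢
            omega
          · rw [if_neg hx']
            rw [if_neg (Ne.symm hx')] at h2
            omega
      · intro l _ hl
        split_ifs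
        · rw [Polynomial.coeff_monomial, if_neg hl]
        · rw [Polynomial.coeff_zero]
      · intro h2
        exact absurd (mem_range.2 (by omega)) h2
    · rw [if_neg hα]
      refine sum_eq_zero fun l hl => ?_
      rw [mem_range] at hl
      by_cases hl1 : l = 1
      · subst hl1
        rw [if_neg]
        · rw [Polynomial.coeff_zero]
        · intro h2
          apply hα
          ext x
          have h3 := DFunLike.congr_fun h x
          have h4 := DFunLike.congr_fun h2 x
          rw [Finsupp.add_apply, Finsupp.add_apply, Finsupp.single_apply,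
            Finsupp.single_apply] at h3
          rw [mv_apply] at h4
          by_cases hx : x = i
          · subst hx
            rw [if_pos rfl, if_neg hik.symm] at h4
            rw [if_neg hik, if_pos rfl] at h3
            omega
          · rw [if_neg hx] at h4
            rw [if_neg (Ne.symm hx)] at h3
            by_cases hx' : x = k
            · subst hx'
              rw [if_pos rfl] at h3 h4
              omega
            · rw [if_neg hx'] at h4
              rw [if_neg (Ne.symm hx')] at h3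
              omega
      · split_ifs
        · rw [Polynomial.coeff_monomial, if_neg hl1]
        · rw [Polynomial.coeff_zero]
  rw [sum_congr rfl h1, sum_ite_eq']
  split_ifs with h2
  · rfl
  · rw [notMem_support_iff.1 h2, zero_mul]

/-- The linear term at an exponent not involving `k`. -/
theorem Tp_one' {n : ℕ} {i k : Fin n} (F : MvPolynomial (Fin n) ℂ)
    (u : Fin n →₀ ℕ) (h : u k = 0) : (Tp i k F u).coeff 1 = 0 := by
  classical
  unfold Tp
  rw [Polynomial.finsetSum_coeff]
  refine sum_eq_zero fun α _ => ?_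
  rw [Polynomial.finsetSum_coeff]
  refine sum_eq_zero fun l _ => ?_
  by_cases hl1 : l = 1
  · subst hl1
    rw [if_neg]
    · rw [Polynomial.coeff_zero]
    · intro h2
      have h4 := DFunLike.congr_fun h2 k
      rw [mv_apply, if_pos rfl] at h4
      omega
  · split_ifs
    · rw [Polynomial.coeff_monomial, if_neg hl1]
    · rw [Polynomial.coeff_zero]

end Pool.Agent.XD

end

section

/-!
# Project XD: the leading exponents are Borel-closed
-/

set_option autoImplicit false

namespace Pool.Agent.XD

open Finset MvPolynomial Pool.Agent.H18.Fat Pool.Agent.H21.NX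

open Classical in
/-- The exponents of degree `d` below `v`. -/
noncomputable def bel {n : ℕ} (d : ℕ) (v : Fin n →₀ ℕ) : Finset (Fin n →₀ ℕ) :=
  (mons n d).filter fun u => clt u v

theorem mem_bel {n d : ℕ} {u v : Fin n →₀ ℕ} : u ∈ bel d v ↔ u ∈ mons n d ∧ clt u v := by
  classical
  unfold bel
  simp only [mem_filter]

theorem bel_subset {n d : ℕ} (v : Fin n →₀ ℕ) : bel d v ⊆ mons n d :=
  fun _ hu => (mem_bel.1 hu).1

private theorem Borel_inv {n : ℕ} {i k : Fin n} (hik : i ≠ k) (t : ℂ) :
    Matrix.transvection i k (-t) * Matrix.transvection i k t = (1 : Matrix (Fin n) (Fin n) ℂ) := by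
  rw [Matrix.transvection_mul_transvection_same i k hik, neg_add_cancel,
    Matrix.transvection_zero]

theorem borel {r j : ℕ} {κ : Type} (m : κ → ℕ) (p : κ → Fin (r + 1) → ℂ)
    (hp : ∀ v ∈ mons (r + 1) j, ∀ p' : κ → Fin (r + 1) → ℂ,
      Module.finrank ℂ (fatForms r j p m ⊓ sup (bel j v) :
        Submodule ℂ (MvPolynomial (Fin (r + 1)) ℂ)) ≤
      Module.finrank ℂ (fatForms r j p' m ⊓ sup (bel j v) :
        Submodule ℂ (MvPolynomial (Fin (r + 1)) ℂ)))
    {w v : Fin (r + 1) →₀ ℕ} (hw : w ∈ Ld j (fatForms r j p m)) {i k : Fin (r + 1)} (hik : i < k)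
    (h : w + Finsupp.single k 1 = v + Finsupp.single i 1) : v ∈ Ld j (fatForms r j p m) := by
  classical
  have hne : k ≠ i := ne_of_gt hik
  obtain ⟨hwd, F, hF, hFw, hFu⟩ := mem_Ld.1 hw
  have hvd : v ∈ mons (r + 1) j := by
    rw [mem_mons] at hwd ⊢
    have h1 := congrArg Finsupp.degree h
    rw [map_add, map_add, Finsupp.degree_single, Finsupp.degree_single] at h1
    omega
  have hwv : clt w v := by
    refine ⟨k, ?_, fun x hx => ?_⟩
    · have h1 := DFunLike.congr_fun h k
      rw [Finsupp.add_apply, Finsupp.add_apply, Finsupp.single_eq_same,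
        Finsupp.single_eq_of_ne hne] at h1
      omega
    · have h1 := DFunLike.congr_fun h x
      rw [Finsupp.add_apply, Finsupp.add_apply, Finsupp.single_eq_of_ne (ne_of_gt hx),
        Finsupp.single_eq_of_ne (ne_of_gt (hik.trans hx))] at h1
      omega
  have hwi : 1 ≤ w i := by
    have h1 := DFunLike.congr_fun h i
    rw [Finsupp.add_apply, Finsupp.add_apply, Finsupp.single_eq_same,
      Finsupp.single_eq_of_ne (ne_of_lt hik)] at h1
    omega
  let E : Type := {u // u ∈ (mons (r + 1) j).filter fun u => u = v ∨ clt v u}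
  let _ : Fintype E := inferInstanceAs
    (Fintype {u // u ∈ (mons (r + 1) j).filter fun u => u = v ∨ clt v u})
  have hE : ∀ e : E, e.1 ∉ bel j v := by
    intro e he
    have h1 := (mem_bel.1 he).2
    rcases (mem_filter.1 e.2).2 with h2 | h2
    · rw [h2] at h1
      exact clt_irrefl _ h1
    · exact clt_irrefl _ (clt_trans h1 h2)
  let W := fatForms r j p m
  have hfin : Module.Finite ℂ W := ConvX.finite_fat' (d := j) p m
  let b := Module.finBasis ℂ W
  let R : Fin (Module.finrank ℂ W) → E → Polynomial ℂ := fun a e => Tp i k (b a).1 e.1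
  let g : E → Polynomial ℂ := fun e => (Tp i k F e.1).divX
  let Ψ : ℂ → (W →ₗ[ℂ] (E → ℂ)) := fun t =>
    { toFun := fun G e => coeff e.1 (linSubst (Matrix.transvection i k t) G.1)
      map_add' := fun G G' => by
        funext e
        rw [Submodule.coe_add, map_add, coeff_add]
        rfl
      map_smul' := fun c G => by
        funext e
        rw [Submodule.coe_smul, map_smul, coeff_smul]
        rfl }
  have hΨ : ∀ t (G : W) (e : E), Ψ t G e = Polynomial.eval t (Tp i k G.1 e.1) := by
    intro t G e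
    rw [eval_Tp hne]
    rfl
  have hrange : ∀ t, Submodule.span ℂ (Set.range fun a (e : E) => Polynomial.eval t (R a e)) =
      LinearMap.range (Ψ t) := by
    intro t
    have h1 : (fun a (e : E) => Polynomial.eval t (R a e)) = fun a => Ψ t (b a) := by
      funext a e
      rw [hΨ]
    rw [h1]
    have h2 : Set.range (fun a => Ψ t (b a)) = Ψ t '' Set.range b := by
      rw [← Set.range_comp]
      rfl
    rw [h2, Submodule.span_image, b.span_eq, LinearMap.range_eq_map]
  -- the dimensions of the kernels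
  have hker0 : Module.finrank ℂ (LinearMap.ker (Ψ 0)) ≤
      Module.finrank ℂ (fatForms r j p m ⊓ sup (bel j v) :
        Submodule ℂ (MvPolynomial (Fin (r + 1)) ℂ)) := by
    let f : LinearMap.ker (Ψ 0) →ₗ[ℂ] (fatForms r j p m ⊓ sup (bel j v) :
        Submodule ℂ (MvPolynomial (Fin (r + 1)) ℂ)) :=
      { toFun := fun G => ⟨G.1.1, G.1.2, fun α hα => by
          by_cases hαd : α ∈ mons (r + 1) j
          · have h1 : α = v ∨ clt v α := by
              rcases clt_trichotomy hαd hvd with h2 | h2 | h2
              · exact absurd (mem_bel.2 ⟨hαd, h2⟩) hα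
              · exact Or.inl h2
              · exact Or.inr h2
            have h2 := congrFun G.2 ⟨α, mem_filter.2 ⟨hαd, h1⟩⟩
            have h3 : coeff α (linSubst (Matrix.transvection i k 0) G.1.1) = 0 := h2
            rwa [Matrix.transvection_zero, linSubst_one] at h3
          · rw [mem_mons] at hαd
            exact G.1.2.1.coeff_eq_zero hαd⟩
        map_add' := fun G G' => rfl
        map_smul' := fun c G => rfl }
    have : Module.Finite ℂ (fatForms r j p m ⊓ sup (bel j v) :
        Submodule ℂ (MvPolynomial (Fin (r + 1)) ℂ)) :=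
      Module.Finite.of_injective (Submodule.inclusion inf_le_left)
        (Submodule.inclusion_injective _)
    refine LinearMap.finrank_le_finrank_of_injective (f := f) ?_
    intro G G' hG
    have h5 : G.1.1 = G'.1.1 := congrArg (fun x => x.1) hG
    exact Subtype.ext (Subtype.ext h5)
  have hkert : ∀ t, Module.finrank ℂ (fatForms r j
      (fun s => (Matrix.transvection i k (-t)).mulVec (p s)) m ⊓ sup (bel j v) :
        Submodule ℂ (MvPolynomial (Fin (r + 1)) ℂ)) ≤
      Module.finrank ℂ (LinearMap.ker (Ψ t)) := by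
    intro t
    have h1 : ∀ H : MvPolynomial (Fin (r + 1)) ℂ,
        linSubst (Matrix.transvection i k t) (linSubst (Matrix.transvection i k (-t)) H) = H := by
      intro H
      rw [linSubst_comp, Borel_inv (ne_of_lt hik), linSubst_one]
    let f : (fatForms r j (fun s => (Matrix.transvection i k (-t)).mulVec (p s)) m ⊓
        sup (bel j v) : Submodule ℂ (MvPolynomial (Fin (r + 1)) ℂ)) →ₗ[ℂ]
        LinearMap.ker (Ψ t) :=
      { toFun := fun H => ⟨⟨linSubst (Matrix.transvection i k (-t)) H.1,
          linSubst_isHomogeneous _ H.2.1.1, fun s => vanishes_linSubst (H.2.1.2 s)⟩, by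
            rw [LinearMap.mem_ker]
            funext e
            show coeff e.1 (linSubst (Matrix.transvection i k t)
              (linSubst (Matrix.transvection i k (-t)) H.1)) = 0
            rw [h1]
            exact H.2.2 e.1 (hE e)⟩
        map_add' := fun H H' => by
          apply Subtype.ext
          apply Subtype.ext
          exact map_add (linSubst (Matrix.transvection i k (-t))) _ _
        map_smul' := fun c H => by
          apply Subtype.ext
          apply Subtype.ext
          exact map_smul (linSubst (Matrix.transvection i k (-t))) _ _ }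
    refine LinearMap.finrank_le_finrank_of_injective (f := f) ?_
    intro H H' hH
    have h2 : linSubst (Matrix.transvection i k (-t)) H.1 =
        linSubst (Matrix.transvection i k (-t)) H'.1 :=
      congrArg (fun x : LinearMap.ker (Ψ t) => x.1.1) hH
    have h3 := congrArg (linSubst (Matrix.transvection i k t)) h2
    rw [h1, h1] at h3
    exact Subtype.ext h3
  -- the limit
  have hlim := fam_lim R g (by
    intro t ht
    rw [hrange]
    refine ⟨t⁻¹ • ⟨F, hF⟩, ?_⟩
    funext e
    rw [map_smul, Pi.smul_apply, hΨ, smul_eq_mul]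
    have h1 := congrArg (Polynomial.eval t) (Polynomial.divX_mul_X_add (Tp i k F e.1))
    have h2 : (Tp i k F e.1).coeff 0 = 0 := by
      rw [Tp_zero]
      rcases (mem_filter.1 e.2).2 with h2 | h2
      · rw [h2]
        exact hFu v hwv
      · exact hFu e.1 (clt_trans hwv h2)
    rw [h2, Polynomial.C_0, add_zero, Polynomial.eval_mul, Polynomial.eval_X] at h1
    show t⁻¹ * Polynomial.eval t (Tp i k F e.1) = Polynomial.eval t (Tp i k F e.1).divX
    rw [← h1]
    field_simp) (by
    intro t
    rw [hrange, hrange]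
    have h1 := LinearMap.finrank_range_add_finrank_ker (Ψ t)
    have h2 := LinearMap.finrank_range_add_finrank_ker (Ψ 0)
    have h3 := hp v hvd fun s => (Matrix.transvection i k (-t)).mulVec (p s)
    have h4 := hkert t
    omega)
  rw [hrange] at hlim
  obtain ⟨G, hG⟩ := hlim
  have hGe : ∀ e : E, coeff e.1 G.1 = (Tp i k F e.1).coeff 1 := by
    intro e
    have h1 := congrFun hG e
    have h2 : coeff e.1 (linSubst (Matrix.transvection i k 0) G.1) =
        Polynomial.eval 0 (Tp i k F e.1).divX := h1
    rw [Matrix.transvection_zero, linSubst_one] at h2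
    rw [h2, ← Polynomial.coeff_zero_eq_eval_zero, Polynomial.coeff_divX]
  rw [mem_Ld]
  refine ⟨hvd, G.1, G.2, ?_, fun u hu => ?_⟩
  · rw [hGe ⟨v, mem_filter.2 ⟨hvd, Or.inl rfl⟩⟩, Tp_one hne F v w h]
    refine mul_ne_zero hFw ?_
    rw [Nat.cast_ne_zero]
    omega
  · by_cases hud : u ∈ mons (r + 1) j
    · rw [hGe ⟨u, mem_filter.2 ⟨hud, Or.inr hu⟩⟩]
      show (Tp i k F u).coeff 1 = 0
      by_cases huk : u k = 0
      · exact Tp_one' F u huk
      · -- `u' + e_k = u + e_i`
        let u' : Fin (r + 1) →₀ ℕ := u + Finsupp.single i 1 - Finsupp.single k 1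
        have hu' : u' + Finsupp.single k 1 = u + Finsupp.single i 1 := by
          apply tsub_add_cancel_of_le
          rw [Finsupp.single_le_iff]
          rw [Finsupp.add_apply]
          omega
        rw [Tp_one hne F u u' hu']
        have h1 : clt w u' := by
          rw [← clt_add_iff (Finsupp.single k 1), hu', h, clt_add_iff]
          exact hu
        rw [hFu u' h1, zero_mul]
    · rw [mem_mons] at hud
      exact G.2.1.coeff_eq_zero hud

end Pool.Agent.XD

end
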