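import Pool.Agent.H94.LP7.M54
import Pool.Agent.H94.LP7.M65

/-! The parts of this file: XD.Coord, XD.Struct. -/

section

/-!
# XD, module G: general points and the standard coordinates

For general points (all ranks maximal) the leading positions (colex order) of the spaces `V_j(Γ)` of
coefficient vectors: `N j`.  Divisor closed, Borel closed, numbers.  See xd_proof.txt, (1).
-/

set_option autoImplicit false

namespace Pool.Agent.XD

open Finset MvPolynomial Pool.Agent.H18.Fat Pool.Agent.H21.NX Pool.Agent.H51.TB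

/-- Pulling back along an injection of the coordinates. -/
private theorem Coord_comap {κ ν ν' : Type} (c : ν' → ν) (hc : Function.Injective c)
    {P : (κ → ν' → ℂ) → Prop} (h : Gn κ ν' P) : Gn κ ν fun p => P fun s x => p s (c x) := by
  obtain ⟨G, hG, h⟩ := h
  have hinj : Function.Injective (fun x : κ × ν' => (x.1, c x.2)) := by
    intro x y hxy
    have h1 := congrArg Prod.fst hxy
    have h2 := congrArg Prod.snd hxy
    exact Prod.ext h1 (hc h2)
  refine ⟨rename (fun x : κ × ν' => (x.1, c x.2)) G, ?_, fun p hp => ?_⟩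
  · intro h0
    apply hG
    apply rename_injective _ hinj
    rw [h0, map_zero]
  · apply h
    rw [eval_rename] at hp
    exact hp

private theorem Coord_Lv {r j i : ℕ} : ∀ v ∈ Lv r j i, ∀ u ∈ mons (r + 1) j, clt u v →
    u ∈ Lv r j i := by
  intro v hv u hu ⟨x, hx, hx'⟩
  rw [mem_Lv] at hv ⊢
  refine ⟨hu, fun l hl => ?_⟩
  rcases lt_trichotomy x l with h | h | h
  · rw [hx' l h]
    exact hv.2 l hl
  · subst h
    have := hv.2 x hl
    omega
  · have h1 : l.1 < x.1 := h
    have := hv.2 x (by omega)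
    omega

private theorem Coord_Lc {r j c : ℕ} : ∀ v ∈ Lc r j c, ∀ u ∈ mons (r + 1) j, clt u v →
    u ∈ Lc r j c := by
  intro v hv u hu ⟨x, hx, hx'⟩
  rw [mem_Lc] at hv ⊢
  refine ⟨hu, ?_⟩
  rcases eq_or_lt_of_le (Fin.le_last x) with h | h
  · rw [h] at hx
    omega
  · rw [hx' _ h]
    exact hv.2

private theorem Coord_div {r : ℕ} {κ : Type} (e : κ → ℕ) (p : κ → Fin (r + 1) → ℂ)
    (u : Fin (r + 1) →₀ ℕ) : ∀ (n : ℕ) (v : Fin (r + 1) →₀ ℕ), u ≤ v → v.degree = u.degree + n →
    v ∈ Ld v.degree (fatForms r v.degree p fun s => v.degree + 1 - e s) →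
    u ∈ Ld u.degree (fatForms r u.degree p fun s => u.degree + 1 - e s) := by
  intro n
  induction n with
  | zero =>
    intro v huv hdeg hv
    have h1 : u = v := by
      have h2 : ∑ x, u x = ∑ x, v x := by
        rw [← Finsupp.degree_eq_sum, ← Finsupp.degree_eq_sum]
        omega
      ext x
      exact (sum_eq_sum_iff_of_le fun x _ => huv x).1 h2 x (mem_univ x)
    rw [h1]
    exact hv
  | succ n ih =>
    intro v huv hdeg hv
    obtain ⟨x, hx⟩ : ∃ x, u x < v x := by
      by_contra hcon
      push Not at hcon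
      have h1 : ∑ x, v x ≤ ∑ x, u x := sum_le_sum fun x _ => hcon x
      rw [← Finsupp.degree_eq_sum, ← Finsupp.degree_eq_sum] at h1
      omega
    let v' : Fin (r + 1) →₀ ℕ := v - Finsupp.single x 1
    have hv' : v' + Finsupp.single x 1 = v := by
      apply tsub_add_cancel_of_le
      rw [Finsupp.single_le_iff]
      omega
    have hd : v.degree = v'.degree + 1 := by
      rw [← hv', map_add, Finsupp.degree_single]
    refine ih v' ?_ (by omega) ?_
    · intro y
      have h1 := huv y
      rw [← hv', Finsupp.add_apply, Finsupp.single_apply] at h1 hx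
      by_cases hy : x = y
      · subst hy
        rw [if_pos rfl] at hx
        omega
      · rw [if_neg hy] at h1
        omega
    · apply Ld_pderiv e p x
      rw [hv', ← hd]
      exact hv

/-- General points and the standard coordinates; `n = r + 1` variables. -/
theorem gen_coord (r d : ℕ) {κ : Type} [Fintype κ] (e : κ → ℕ) (he : ∀ s, 1 ≤ e s) :
    ∃ N : ℕ → Finset (Fin (r + 1) → ℕ),
      (∀ j, ∀ v ∈ N j, ∑ i, v i = j) ∧
      (∀ j ≤ d, ∀ v ∈ N j, ∀ u : Fin (r + 1) → ℕ, (∀ i, u i ≤ v i) → u ∈ N (∑ i, u i)) ∧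
      (∀ j ≤ d, ∀ w ∈ N j, ∀ v : Fin (r + 1) → ℕ, ∀ i k, i < k → w i = v i + 1 → v k = w k + 1 →
        (∀ l, l ≠ i → l ≠ k → v l = w l) → v ∈ N j) ∧
      (∀ j ≤ d, ∀ i ≤ r, ((N j).filter fun v => ∀ l : Fin (r + 1), i < l.1 → v l = 0).card =
        gdim i j fun s => j + 1 - e s) ∧
      (∀ j ≤ d, ∀ c, 1 ≤ c → ((N j).filter fun v => v (Fin.last r) < c).card =
        gdim r j (Sum.elim (fun s => j + 1 - e s) fun _ : Unit => j + 1 - c)) := by
  classical
  -- the conditions on the general points
  have hG1 : Gn κ (Fin (r + 1)) fun p => ∀ j ∈ range (d + 1), ∀ i ∈ range (r + 1),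
      Module.finrank ℂ (fatForms r j p (fun s => j + 1 - e s) ⊓ sup (Lv r j i) :
        Submodule ℂ (MvPolynomial (Fin (r + 1)) ℂ)) = gdim i j fun s => j + 1 - e s := by
    refine Gn.all _ fun j _ => Gn.all _ fun i hi => ?_
    rw [mem_range] at hi
    have h1 : Gn κ (Fin (i + 1)) fun p => Module.finrank ℂ
        (fatForms i j p fun s => j + 1 - e s) = gdim i j fun s => j + 1 - e s :=
      gen_gdim i j _
    refine (Coord_comap (Fin.castLE (by omega)) (Fin.castLE_injective _) h1).mono fun p hp => ?_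
    rw [finrank_Lv (by omega)]
    exact hp
  have hG2 : Gn κ (Fin (r + 1)) fun p => ∀ j ∈ range (d + 1), ∀ v ∈ mons (r + 1) j,
      ∀ p' : κ → Fin (r + 1) → ℂ,
      Module.finrank ℂ (fatForms r j p (fun s => j + 1 - e s) ⊓ sup (bel j v) :
        Submodule ℂ (MvPolynomial (Fin (r + 1)) ℂ)) ≤
      Module.finrank ℂ (fatForms r j p' (fun s => j + 1 - e s) ⊓ sup (bel j v) :
        Submodule ℂ (MvPolynomial (Fin (r + 1)) ℂ)) :=
    Gn.all _ fun j _ => Gn.all _ fun v _ => gn_sup _ _ (bel_subset v)
  have hG3 : Gn κ (Fin (r + 1)) fun p => ∀ j ∈ range (d + 1), ∀ c ∈ range (j + 2), 1 ≤ c →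
      Module.finrank ℂ (fatForms r j p (fun s => j + 1 - e s) ⊓ sup (Lc r j c) :
        Submodule ℂ (MvPolynomial (Fin (r + 1)) ℂ)) =
      gdim r j (Sum.elim (fun s => j + 1 - e s) fun _ : Unit => j + 1 - c) := by
    refine Gn.all _ fun j _ => Gn.all _ fun c _ => ?_
    refine (gn_sup (fun s => j + 1 - e s) (Lc r j c)
      (fun u hu => (mem_Lc.1 hu).1)).mono fun p hp hc => ?_
    apply le_antisymm
    · obtain ⟨p', hp'⟩ := exists_last (r := r) (d := j) hc fun s => j + 1 - e s
      rw [← hp']
      exact hp p'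
    · rw [← fat_last hc]
      exact gdim_le _ _ _ _
  obtain ⟨p, ⟨hp1, hp2⟩, hp3⟩ := ((hG1.and hG2).and hG3).exists
  let W : ℕ → Submodule ℂ (MvPolynomial (Fin (r + 1)) ℂ) := fun j =>
    fatForms r j p fun s => j + 1 - e s
  have hW : ∀ j, ∀ F ∈ W j, F.IsHomogeneous j := fun j F hF => hF.1
  let φ : (Fin (r + 1) →₀ ℕ) ↪ (Fin (r + 1) → ℕ) := ⟨fun v => ⇑v, DFunLike.coe_injective⟩
  let N : ℕ → Finset (Fin (r + 1) → ℕ) := fun j => (Ld j (W j)).map φ
  have hN : ∀ j (v : Fin (r + 1) →₀ ℕ), (⇑v : Fin (r + 1) → ℕ) ∈ N j ↔ v ∈ Ld j (W j) := by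
    intro j v
    exact mem_map' φ
  have hNe : ∀ j, ∀ v ∈ N j, ∃ w ∈ Ld j (W j), (⇑w : Fin (r + 1) → ℕ) = v := by
    intro j v hv
    exact mem_map.1 hv
  have hcard : ∀ (j : ℕ) (P : (Fin (r + 1) → ℕ) → Prop) [DecidablePred P]
      (L : Finset (Fin (r + 1) →₀ ℕ)),
      (∀ v : Fin (r + 1) →₀ ℕ, v ∈ L ↔ v ∈ mons (r + 1) j ∧ P ⇑v) →
      ((N j).filter P).card = ((Ld j (W j)).filter fun v => v ∈ L).card := by
    intro j P _ L hL
    have h1 : (N j).filter P =
        ((Ld j (W j)).filter fun v : Fin (r + 1) →₀ ℕ => P ⇑v).map φ := by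
      rw [filter_map]
      rfl
    rw [h1, card_map]
    congr 1
    refine filter_congr fun v hv => ?_
    rw [hL]
    exact ⟨fun h => ⟨(mem_Ld.1 hv).1, h⟩, fun h => h.2⟩
  refine ⟨N, ?_, ?_, ?_, ?_, ?_⟩
  · intro j v hv
    obtain ⟨w, hw, rfl⟩ := hNe j v hv
    rw [← Finsupp.degree_eq_sum]
    exact mem_mons.1 (mem_Ld.1 hw).1
  · intro j hj v hv u hu
    obtain ⟨w, hw, rfl⟩ := hNe j v hv
    have hwd : w.degree = j := mem_mons.1 (mem_Ld.1 hw).1
    let u' : Fin (r + 1) →₀ ℕ := Finsupp.equivFunOnFinite.symm u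
    have hu' : (⇑u' : Fin (r + 1) → ℕ) = u := rfl
    have hle : u' ≤ w := hu
    have hdle : u'.degree ≤ w.degree := by
      rw [Finsupp.degree_eq_sum, Finsupp.degree_eq_sum]
      exact sum_le_sum fun x _ => hu x
    have h1 := Coord_div e p u' (w.degree - u'.degree) w hle (by omega) (by
      rw [hwd]
      exact hw)
    have h2 : ∑ i, u i = u'.degree := by
      rw [Finsupp.degree_eq_sum]
      rfl
    rw [h2, ← hu', hN]
    exact h1
  · intro j hj w hw v i k hik h1 h2 h3
    obtain ⟨w', hw', rfl⟩ := hNe j w hw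
    let v' : Fin (r + 1) →₀ ℕ := Finsupp.equivFunOnFinite.symm v
    have hv' : (⇑v' : Fin (r + 1) → ℕ) = v := rfl
    rw [← hv', hN]
    refine borel _ p (hp2 j (mem_range.2 (by omega))) hw' hik ?_
    ext x
    rw [Finsupp.add_apply, Finsupp.add_apply, Finsupp.single_apply, Finsupp.single_apply]
    show w' x + _ = v x + _
    by_cases hxi : i = x
    · subst hxi
      rw [if_neg (ne_of_gt hik), if_pos rfl]
      omega
    · by_cases hxk : k = x
      · subst hxk
        rw [if_pos rfl, if_neg hxi]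
        omega
      · rw [if_neg hxi, if_neg hxk, h3 x (Ne.symm hxi) (Ne.symm hxk)]
  · intro j hj i hi
    have h1 := hcard j (fun v => ∀ l : Fin (r + 1), i < l.1 → v l = 0) (Lv r j i)
      fun v => mem_Lv
    refine h1.trans ?_
    rw [card_Ld (W j) (hW j) _ Coord_Lv (fun u hu => (mem_Lv.1 hu).1)]
    exact hp1 j (mem_range.2 (by omega)) i (mem_range.2 (by omega))
  · intro j hj c hc
    have h0 := hcard j (fun v => v (Fin.last r) < c) (Lc r j c) fun v => mem_Lc
    refine h0.trans ?_
    rw [card_Ld (W j) (hW j) _ Coord_Lc (fun u hu => (mem_Lc.1 hu).1)]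
    rcases le_or_gt c (j + 1) with h | h
    · exact hp3 j (mem_range.2 (by omega)) c (mem_range.2 (by omega)) hc
    · have h1 : Lc r j c = Lc r j (j + 1) := by
        ext u
        rw [mem_Lc, mem_Lc]
        refine and_congr_right fun hu => ?_
        rw [mem_mons, Finsupp.degree_eq_sum] at hu
        have h2 : u (Fin.last r) ≤ ∑ x, u x :=
          single_le_sum (fun _ _ => Nat.zero_le _) (mem_univ _)
        omega
      have h2 : j + 1 - c = j + 1 - (j + 1) := by omega
      rw [h1, h2]
      exact hp3 j (mem_range.2 (by omega)) (j + 1) (mem_range.2 (by omega)) (by omega)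

end Pool.Agent.XD

end

section

/-!
# XD, module S: the system of the dimensions

For `m = r + 1` take `N j` from `gen_coord r d (fun s : Fin t => e s)` and the multisets
`∑ i, Multiset.replicate (v i) i.val`, `v ∈ N j`, `j ≤ d`.  (`u ≤ v` as multisets: coordinatewise.)
`cnt` for `i = 0`: only the empty multiset (`N 0 = {0}`, by the number `gdim 0 0 _ = 1`, or `div`).
The last clause with `c = e t`: `Fin (t + 1) ≃ Fin t ⊕ Unit` (`gdim_comp_equiv`).
`zero`: `gdim_empty`, `Nat.multichoose_eq`.
-/

set_option autoImplicit false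

namespace Pool.Agent.XD

open Finset Pool.Agent.H21.NX

namespace StructX

open MvPolynomial Pool.Agent.H18.Fat Pool.Agent.H21.HD

/-- The multiset of an exponent vector. -/
private def ms {n : ℕ} (v : Fin n → ℕ) : Multiset ℕ := ∑ i, Multiset.replicate (v i) i.val

/-- The exponent vector of a multiset. -/
private def vec (n : ℕ) (u : Multiset ℕ) : Fin n → ℕ := fun i => u.count i.val

private theorem count_ms {n : ℕ} (v : Fin n → ℕ) (i : Fin n) : (ms v).count i.val = v i := by
  classical
  unfold ms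
  rw [Multiset.count_sum', Finset.sum_eq_single i]
  · rw [Multiset.count_replicate, if_pos rfl]
  · intro k _ hk
    rw [Multiset.count_replicate, if_neg]
    intro h
    exact hk (Fin.ext h)
  · intro h
    exact absurd (mem_univ i) h

private theorem lt_of_mem_ms {n : ℕ} (v : Fin n → ℕ) {x : ℕ} (hx : x ∈ ms v) : x < n := by
  unfold ms at hx
  rw [Multiset.mem_sum] at hx
  obtain ⟨i, _, hi⟩ := hx
  rw [Multiset.eq_of_mem_replicate hi]
  exact i.2

private theorem vec_ms {n : ℕ} (v : Fin n → ℕ) : vec n (ms v) = v := by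
  funext i
  exact count_ms v i

private theorem ms_vec {n : ℕ} (u : Multiset ℕ) (hu : ∀ x ∈ u, x < n) : ms (vec n u) = u := by
  classical
  ext a
  by_cases ha : a < n
  · exact count_ms (vec n u) ⟨a, ha⟩
  · rw [Multiset.count_eq_zero.2 fun h => ha (hu a h),
      Multiset.count_eq_zero.2 fun h => ha (lt_of_mem_ms _ h)]

private theorem card_ms {n : ℕ} (v : Fin n → ℕ) : Multiset.card (ms v) = ∑ i, v i := by
  unfold ms
  rw [Multiset.card_sum]
  exact sum_congr rfl fun i _ => Multiset.card_replicate _ _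

private theorem ms_inj {n : ℕ} : Function.Injective (ms : (Fin n → ℕ) → Multiset ℕ) := by
  intro v w h
  rw [← vec_ms v, ← vec_ms w, h]

/-- No conditions. -/
private theorem gdim_zero' (r d : ℕ) {κ : Type} (m : κ → ℕ) (hm : ∀ i, m i = 0) :
    gdim r d m = (d + r).choose r := by
  obtain ⟨p₀, hp₀⟩ := GenBX.gdim_attained r d m
  have h : fatForms r d p₀ m = homogeneousSubmodule (Fin (r + 1)) ℂ d := by
    ext F
    refine ⟨fun hF => hF.1, fun hF => ⟨hF, fun i => ?_⟩⟩
    rw [hm i]
    intro a ha
    exact absurd ha (Nat.not_lt_zero _)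
  rw [← hp₀, h, Pool.Agent.H21.HD.BridgeDX.finrank_homog']

/-- The stair in `r + 1` variables. -/
private theorem stair_succ (d : ℕ) (e : ℕ → ℕ) (he : ∀ t, 1 ≤ e t) (r t : ℕ) :
    ∃ N : Finset (Multiset ℕ), Stair (r + 1) d N (fun i j => FF e i t j) ∧
      ∀ j ≤ d, FF e (r + 1) (t + 1) j =
        ((lay N (r + 1) j).filter fun v => v.count r < e t).card := by
  classical
  obtain ⟨N, h1, h2, h3, h4, h5⟩ := gen_coord r d (fun s : Fin t => e s) (fun s => he s)
  let M : Finset (Multiset ℕ) := (range (d + 1)).biUnion fun j => (N j).image ms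
  have memM : ∀ u, u ∈ M ↔ (∀ x ∈ u, x < r + 1) ∧ Multiset.card u ≤ d ∧
      vec (r + 1) u ∈ N (Multiset.card u) := by
    intro u
    constructor
    · intro hu
      rw [mem_biUnion] at hu
      obtain ⟨j, hj, hu⟩ := hu
      rw [mem_image] at hu
      obtain ⟨v, hv, rfl⟩ := hu
      have hc : Multiset.card (ms v) = j := by
        rw [card_ms, h1 j v hv]
      refine ⟨fun x hx => lt_of_mem_ms v hx, ?_, ?_⟩
      · rw [hc]
        exact Nat.lt_succ_iff.1 (mem_range.1 hj)
      · rw [hc, vec_ms]
        exact hv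
    · rintro ⟨hu1, hu2, hu3⟩
      rw [mem_biUnion]
      refine ⟨Multiset.card u, mem_range.2 (Nat.lt_succ_iff.2 hu2), ?_⟩
      rw [mem_image]
      exact ⟨_, hu3, ms_vec u hu1⟩
  have layM : ∀ i j, j ≤ d → lay M i j =
      ((N j).filter fun v => ∀ l : Fin (r + 1), i ≤ l.1 → v l = 0).image ms := by
    intro i j hj
    ext u
    rw [mem_lay, memM, mem_image]
    constructor
    · rintro ⟨⟨hu1, hu2, hu3⟩, hu4, hu5⟩
      refine ⟨vec (r + 1) u, ?_, ms_vec u hu1⟩
      rw [mem_filter]
      refine ⟨by rw [← hu4]; exact hu3, fun l hl => ?_⟩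
      exact Multiset.count_eq_zero.2 fun h => absurd (hu5 l.1 h) (not_lt.2 hl)
    · rintro ⟨v, hv, rfl⟩
      rw [mem_filter] at hv
      have hc : Multiset.card (ms v) = j := by
        rw [card_ms, h1 j v hv.1]
      refine ⟨⟨fun x hx => lt_of_mem_ms v hx, by rw [hc]; exact hj, ?_⟩, hc, fun x hx => ?_⟩
      · rw [hc, vec_ms]
        exact hv.1
      · by_contra hcon
        push Not at hcon
        have hx' := lt_of_mem_ms v hx
        have h0 := hv.2 ⟨x, hx'⟩ hcon
        have h0' := count_ms v ⟨x, hx'⟩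
        rw [h0] at h0'
        exact Multiset.count_eq_zero.1 h0' hx
  have hone : (0 : Multiset ℕ) ∈ M := by
    have hcard := h4 0 (Nat.zero_le d) 0 (Nat.zero_le r)
    rw [gdim_zero' 0 0 _ (fun s => by have := he s; omega)] at hcard
    have hne : ((N 0).filter fun v => ∀ l : Fin (r + 1), 0 < l.1 → v l = 0).Nonempty := by
      rw [← card_pos, hcard]
      decide
    obtain ⟨v, hv⟩ := hne
    rw [mem_filter] at hv
    rw [memM]
    refine ⟨fun x hx => absurd hx (Multiset.notMem_zero x), by simp, ?_⟩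
    have hv0 : v = vec (r + 1) 0 := by
      funext i
      have hs := h1 0 v hv.1
      rw [sum_eq_zero_iff] at hs
      rw [hs i (mem_univ i)]
      simp [vec]
    rw [Multiset.card_zero, ← hv0]
    exact hv.1
  refine ⟨M, ⟨?_, ?_, ?_, ?_⟩, ?_⟩
  · intro v hv
    exact ((memM v).1 hv).1
  · intro v hv u hu
    obtain ⟨hv1, hv2, hv3⟩ := (memM v).1 hv
    have hu1 : ∀ x ∈ u, x < r + 1 := fun x hx => hv1 x (Multiset.mem_of_le hu hx)
    rw [memM]
    refine ⟨hu1, (Multiset.card_le_card hu).trans hv2, ?_⟩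
    have hs : ∑ i, vec (r + 1) u i = Multiset.card u := by
      rw [← card_ms, ms_vec u hu1]
    rw [← hs]
    exact h2 _ hv2 _ hv3 _ fun i => Multiset.count_le_of_le i.1 hu
  · intro v hv a ha b hab hb
    obtain ⟨hv1, hv2, hv3⟩ := (memM v).1 hv
    have har : a < r + 1 := hv1 a ha
    have hcard : Multiset.card (b ::ₘ v.erase a) = Multiset.card v := by
      rw [Multiset.card_cons, Multiset.card_erase_add_one ha]
    rw [memM]
    refine ⟨?_, by rw [hcard]; exact hv2, ?_⟩
    · intro x hx
      rcases Multiset.mem_cons.1 hx with rfl | hx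
      · exact hb
      · exact hv1 x (Multiset.mem_of_mem_erase hx)
    · rw [hcard]
      refine h3 _ hv2 _ hv3 _ ⟨a, har⟩ ⟨b, hb⟩ hab ?_ ?_ ?_
      · change v.count a = (b ::ₘ v.erase a).count a + 1
        rw [Multiset.count_cons_of_ne hab.ne, Multiset.count_erase_self]
        have : 0 < v.count a := Multiset.count_pos.2 ha
        omega
      · change (b ::ₘ v.erase a).count b = v.count b + 1
        rw [Multiset.count_cons_self, Multiset.count_erase_of_ne hab.ne']
      · intro l hla hlb
        have hla' : l.1 ≠ a := fun h => hla (Fin.ext h)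
        have hlb' : l.1 ≠ b := fun h => hlb (Fin.ext h)
        change (b ::ₘ v.erase a).count l.1 = v.count l.1
        rw [Multiset.count_cons_of_ne hlb', Multiset.count_erase_of_ne hla']
  · intro i hi j hj
    rcases i with _ | i
    · change (lay M 0 j).card = if j = 0 then 1 else 0
      by_cases hj0 : j = 0
      · subst hj0
        rw [if_pos rfl]
        have : lay M 0 0 = {0} := by
          ext u
          rw [mem_lay, mem_singleton]
          constructor
          · rintro ⟨_, hu, _⟩
            exact Multiset.card_eq_zero.1 hu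
          · rintro rfl
            exact ⟨hone, Multiset.card_zero, fun x hx => absurd hx (Multiset.notMem_zero x)⟩
        rw [this, card_singleton]
      · rw [if_neg hj0, card_eq_zero]
        apply eq_empty_of_forall_notMem
        intro u hu
        rw [mem_lay] at hu
        obtain ⟨_, hu1, hu2⟩ := hu
        have hpos : 0 < Multiset.card u := by omega
        obtain ⟨x, hx⟩ := Multiset.card_pos_iff_exists_mem.1 hpos
        exact absurd (hu2 x hx) (Nat.not_lt_zero x)
    · change (lay M (i + 1) j).card = gdim i j fun s : Fin t => j + 1 - e s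
      rw [layM (i + 1) j hj, card_image_of_injective _ ms_inj, ← h4 j hj i (by omega)]
      rfl
  · intro j hj
    change gdim r j (fun s : Fin (t + 1) => j + 1 - e s) = _
    have hlay : lay M (r + 1) j = (N j).image ms := by
      rw [layM (r + 1) j hj]
      congr 1
      apply filter_true_of_mem
      intro v _ l hl
      exact absurd l.2 (not_lt.2 hl)
    have hcount : ∀ v : Fin (r + 1) → ℕ, (ms v).count r = v (Fin.last r) := by
      intro v
      exact count_ms v (Fin.last r)
    rw [hlay, filter_image, card_image_of_injective _ ms_inj]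
    have hfil : ((N j).filter fun v => (ms v).count r < e t) =
        (N j).filter fun v => v (Fin.last r) < e t := by
      apply filter_congr
      intro v _
      rw [hcount v]
    rw [hfil, h5 j hj (e t) (he t)]
    let ε : Fin t ⊕ Unit ≃ Fin (t + 1) :=
      (Equiv.sumCongr (Equiv.refl (Fin t)) (Equiv.ofUnique Unit (Fin 1))).trans finSumFinEquiv
    rw [← gdim_comp_equiv r j ε (fun s : Fin (t + 1) => j + 1 - e s)]
    congr 1
    funext x
    rcases x with s | u
    · rfl
    · rfl

end StructX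

open StructX

theorem sys_FF (d : ℕ) (e : ℕ → ℕ) (he : ∀ t, 1 ≤ e t) : Sys d e (FF e) := by
  constructor
  · intro m j _
    rcases m with _ | m
    · change (if j = 0 then 1 else 0) = Nat.multichoose 0 j
      rcases j with _ | j
      · simp
      · simp
    · change gdim m j (fun s : Fin 0 => j + 1 - e s) = _
      rw [gdim_empty, Nat.multichoose_eq, Nat.choose_symm_add.symm]
      congr 1
      omega
  · intro m t hm
    obtain ⟨r, rfl⟩ : ∃ r, m = r + 1 := ⟨m - 1, by omega⟩
    exact stair_succ d e he r t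

end Pool.Agent.XD

end
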