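import Pool.Agent.H94.LP7.M06
import Pool.Agent.H94.LP7.M22

/-! The parts of this file: H21.HD.BlockA, H21.HD.ColGood, H21.HD.LeadL, H21.HD.LeadS, H21.HD.PhiCol. -/

section

/-!
Components and the substitution.
-/

namespace Pool.Agent.H21.HD

open MvPolynomial
open scoped Classical

set_option linter.unusedSectionVars false

variable {N : ℕ} {A Λ : Type} [Fintype A] [Fintype Λ]

namespace BlockAX

theorem comp_monomial (a : Fin N → ℕ) (μ : Λ → ℕ) (δ : Sg N A Λ →₀ ℕ) :
    comp a μ (monomial δ (1 : ℂ)) =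
      if bdeg δ = a ∧ (fun l => δ (Sum.inr l)) = μ then monomial δ (1 : ℂ) else 0 := by
  unfold comp
  have h := (basisMonomials (Sg N A Λ) ℂ).constr_basis ℂ
    (fun γ => if bdeg γ = a ∧ (fun l => γ (Sum.inr l)) = μ then monomial γ (1 : ℂ) else 0) δ
  simpa using h

end BlockAX

open BlockAX

theorem coeff_comp (a : Fin N → ℕ) (μ : Λ → ℕ) (F : MvPolynomial (Sg N A Λ) ℂ)
    (γ : Sg N A Λ →₀ ℕ) :
    coeff γ (comp a μ F) =
      if bdeg γ = a ∧ (fun l => γ (Sum.inr l)) = μ then coeff γ F else 0 := by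
  induction F using MvPolynomial.induction_on' with
  | monomial δ r =>
    have h1 : (monomial δ r : MvPolynomial (Sg N A Λ) ℂ) = r • monomial δ (1 : ℂ) := by
      rw [MvPolynomial.smul_monomial, smul_eq_mul, mul_one]
    rw [h1, map_smul, comp_monomial, coeff_smul, coeff_smul]
    by_cases hγδ : δ = γ
    · subst hγδ
      split_ifs <;> simp
    · split_ifs <;> simp [coeff_monomial, hγδ]
  | add p q hp hq =>
    rw [map_add, coeff_add, hp, hq, coeff_add]
    split_ifs <;> simp

namespace BlockAX

/-- All the monomials of `F` have block degrees `a` and label exponents `μ`. -/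
def Gr (a : Fin N → ℕ) (μ : Λ → ℕ) (F : MvPolynomial (Sg N A Λ) ℂ) : Prop :=
  ∀ γ, coeff γ F ≠ 0 → bdeg γ = a ∧ (fun l => γ (Sum.inr l)) = μ

theorem bdeg_add (γ δ : Sg N A Λ →₀ ℕ) : bdeg (γ + δ) = bdeg γ + bdeg δ := by
  funext i
  simp [bdeg, Finset.sum_add_distrib]

theorem Gr.mul {a a' : Fin N → ℕ} {μ μ' : Λ → ℕ} {F G : MvPolynomial (Sg N A Λ) ℂ}
    (hF : Gr a μ F) (hG : Gr a' μ' G) : Gr (a + a') (μ + μ') (F * G) := by
  intro γ hγ
  rw [coeff_mul] at hγ
  obtain ⟨x, hx, hne⟩ := Finset.exists_ne_zero_of_sum_ne_zero hγ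
  have h1 := hF x.1 (left_ne_zero_of_mul hne)
  have h2 := hG x.2 (right_ne_zero_of_mul hne)
  rw [Finset.HasAntidiagonal.mem_antidiagonal] at hx
  rw [← hx]
  refine ⟨by rw [bdeg_add, h1.1, h2.1], ?_⟩
  rw [← h1.2, ← h2.2]
  rfl

theorem Gr.sum {κ : Type*} {a : Fin N → ℕ} {μ : Λ → ℕ} (S : Finset κ)
    (F : κ → MvPolynomial (Sg N A Λ) ℂ)
    (hF : ∀ k ∈ S, Gr a μ (F k)) : Gr a μ (∑ k ∈ S, F k) := by
  intro γ hγ
  rw [coeff_sum] at hγ
  obtain ⟨k, hk, hne⟩ := Finset.exists_ne_zero_of_sum_ne_zero hγ
  exact hF k hk γ hne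

theorem Gr.C_mul {a : Fin N → ℕ} {μ : Λ → ℕ} {F : MvPolynomial (Sg N A Λ) ℂ}
    (r : ℂ) (hF : Gr a μ F) : Gr a μ (C r * F) := by
  intro γ hγ
  rw [coeff_C_mul] at hγ
  exact hF γ (right_ne_zero_of_mul hγ)

theorem bdeg_single_inl (i : Fin N) (x : A) (n : ℕ) :
    bdeg (Finsupp.single (Sum.inl (i, x) : Sg N A Λ) n) = Pi.single i n := by
  funext j
  unfold bdeg
  by_cases hj : j = i
  · subst hj
    rw [Pi.single_eq_same, Finset.sum_eq_single x]
    · simp
    · intro b _ hb
      rw [Finsupp.single_apply, if_neg]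
      intro h
      apply hb
      simpa using (Sum.inl.inj h).symm
    · intro h; exact absurd (Finset.mem_univ x) h
  · rw [Pi.single_eq_of_ne hj]
    apply Finset.sum_eq_zero
    intro b _
    rw [Finsupp.single_apply, if_neg]
    intro h
    apply hj
    have := (Prod.mk.inj (Sum.inl.inj h)).1
    exact this.symm

theorem Gr.X (s : Sg N A Λ) : Gr (bdeg (Finsupp.single s 1))
    (fun l => (Finsupp.single s 1 : Sg N A Λ →₀ ℕ) (Sum.inr l))
    (MvPolynomial.X s : MvPolynomial (Sg N A Λ) ℂ) := by
  intro γ hγ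
  rw [coeff_X] at hγ
  have h : Finsupp.single s 1 = γ := by
    by_contra h
    simp [h] at hγ
  subst h
  exact ⟨rfl, rfl⟩

theorem sbt_X_gr (c : Finset (Fin N)) (ref : Fin N → A) (v : Fin N → A → ℂ) (s : Sg N A Λ) :
    Gr (bdeg (Finsupp.single s 1))
    (fun l => (Finsupp.single s 1 : Sg N A Λ →₀ ℕ) (Sum.inr l))
    (sbt c ref v (MvPolynomial.X s)) := by
  unfold sbt
  rw [aeval_X]
  rcases s with ⟨i, x⟩ | l
  · simp only [Sum.elim_inl]
    split_ifs with h
    · apply Gr.sum
      intro b _
      apply Gr.C_mul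
      have := Gr.X (A := A) (Λ := Λ) (Sum.inl (i, b))
      rw [bdeg_single_inl] at this ⊢
      convert this using 1
      funext l
      rw [Finsupp.single_apply, Finsupp.single_apply, if_neg, if_neg]
      · intro h; cases h
      · intro h; cases h
    · exact Gr.X _
  · simp only [Sum.elim_inr]
    exact Gr.X _

theorem sbt_monomial_gr (c : Finset (Fin N)) (ref : Fin N → A) (v : Fin N → A → ℂ)
    (δ : Sg N A Λ →₀ ℕ) :
    Gr (bdeg δ) (fun l => δ (Sum.inr l)) (sbt c ref v (monomial δ (1 : ℂ))) := by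
  induction δ using Finsupp.induction_linear with
  | zero =>
    have h : (monomial (0 : Sg N A Λ →₀ ℕ) (1 : ℂ)) = 1 := rfl
    rw [h, map_one]
    intro γ hγ
    rw [coeff_one] at hγ
    have h : 0 = γ := by
      by_contra h
      simp [h] at hγ
    subst h
    exact ⟨rfl, rfl⟩
  | add f g hf hg =>
    have h : (monomial (f + g) (1 : ℂ) : MvPolynomial (Sg N A Λ) ℂ)
        = monomial f 1 * monomial g 1 := by
      rw [monomial_mul, one_mul]
    rw [h, map_mul, bdeg_add]
    exact hf.mul hg
  | single s n =>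
    induction n with
    | zero =>
      rw [Finsupp.single_zero]
      have h : (monomial (0 : Sg N A Λ →₀ ℕ) (1 : ℂ)) = 1 := rfl
      rw [h, map_one]
      intro γ hγ
      rw [coeff_one] at hγ
      have h : 0 = γ := by
        by_contra h
        simp [h] at hγ
      subst h
      exact ⟨rfl, rfl⟩
    | succ n ih =>
      have h : (monomial (Finsupp.single s (n + 1)) (1 : ℂ) : MvPolynomial (Sg N A Λ) ℂ)
          = monomial (Finsupp.single s n) 1 * MvPolynomial.X s := by
        rw [MvPolynomial.X, monomial_mul, one_mul, Finsupp.single_add]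
      rw [h, map_mul, Finsupp.single_add, bdeg_add]
      exact ih.mul (sbt_X_gr c ref v s)

theorem comp_of_gr {a a' : Fin N → ℕ} {μ μ' : Λ → ℕ} {F : MvPolynomial (Sg N A Λ) ℂ}
    (hF : Gr a' μ' F) : comp a μ F = if a' = a ∧ μ' = μ then F else 0 := by
  ext γ
  rw [coeff_comp]
  by_cases hc : coeff γ F = 0
  · rw [hc]
    split_ifs <;> simp [hc]
  · obtain ⟨h1, h2⟩ := hF γ hc
    rw [h1, h2]
    split_ifs <;> simp

end BlockAX

/-- The substitution preserves the block degrees and the label exponents. -/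
theorem comp_sbt (c : Finset (Fin N)) (ref : Fin N → A) (v : Fin N → A → ℂ)
    (a : Fin N → ℕ) (μ : Λ → ℕ) (F : MvPolynomial (Sg N A Λ) ℂ) :
    comp a μ (sbt c ref v F) = sbt c ref v (comp a μ F) := by
  induction F using MvPolynomial.induction_on' with
  | monomial δ r =>
    have h1 : (monomial δ r : MvPolynomial (Sg N A Λ) ℂ) = r • monomial δ (1 : ℂ) := by
      rw [MvPolynomial.smul_monomial, smul_eq_mul, mul_one]
    rw [h1, map_smul, map_smul, map_smul, map_smul, comp_monomial,
      comp_of_gr (sbt_monomial_gr c ref v δ)]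
    split_ifs <;> simp
  | add p q hp hq =>
    rw [map_add, map_add, map_add, map_add, hp, hq]

namespace BlockAX

/-- The inverse substitution. -/
noncomputable def theta (c : Finset (Fin N)) (ref : Fin N → A) (v : Fin N → A → ℂ) :
    MvPolynomial (Sg N A Λ) ℂ →ₐ[ℂ] MvPolynomial (Sg N A Λ) ℂ :=
  aeval (Sum.elim
    (fun x => if x.1 ∈ c ∧ x.2 = ref x.1 then
        C (v x.1 (ref x.1))⁻¹ * (X (Sum.inl (x.1, ref x.1)) -
          ∑ a ∈ Finset.univ.erase (ref x.1), C (v x.1 a) * X (Sum.inl (x.1, a)))
      else X (Sum.inl x))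
    (fun l => X (Sum.inr l)))

theorem sbt_X_inl_of (c : Finset (Fin N)) (ref : Fin N → A) (v : Fin N → A → ℂ)
    (i : Fin N) (hi : i ∈ c) :
    sbt (Λ := Λ) c ref v (X (Sum.inl (i, ref i))) =
      ∑ a, C (v i a) * X (Sum.inl (i, a)) := by
  unfold sbt
  rw [aeval_X, Sum.elim_inl, if_pos ⟨hi, rfl⟩]

theorem sbt_X_inl_not (c : Finset (Fin N)) (ref : Fin N → A) (v : Fin N → A → ℂ)
    (i : Fin N) (x : A) (h : ¬ (i ∈ c ∧ x = ref i)) :
    sbt (Λ := Λ) c ref v (X (Sum.inl (i, x))) = X (Sum.inl (i, x)) := by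
  unfold sbt
  rw [aeval_X, Sum.elim_inl, if_neg h]

theorem sbt_X_inr (c : Finset (Fin N)) (ref : Fin N → A) (v : Fin N → A → ℂ)
    (l : Λ) :
    sbt (Λ := Λ) c ref v (X (Sum.inr l)) = X (Sum.inr l) := by
  unfold sbt
  rw [aeval_X, Sum.elim_inr]

theorem theta_X_inl_of (c : Finset (Fin N)) (ref : Fin N → A) (v : Fin N → A → ℂ)
    (i : Fin N) (hi : i ∈ c) :
    theta (Λ := Λ) c ref v (X (Sum.inl (i, ref i))) =
      C (v i (ref i))⁻¹ * (X (Sum.inl (i, ref i)) -
          ∑ a ∈ Finset.univ.erase (ref i), C (v i a) * X (Sum.inl (i, a))) := by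
  unfold theta
  rw [aeval_X, Sum.elim_inl, if_pos ⟨hi, rfl⟩]

theorem theta_X_inl_not (c : Finset (Fin N)) (ref : Fin N → A) (v : Fin N → A → ℂ)
    (i : Fin N) (x : A) (h : ¬ (i ∈ c ∧ x = ref i)) :
    theta (Λ := Λ) c ref v (X (Sum.inl (i, x))) = X (Sum.inl (i, x)) := by
  unfold theta
  rw [aeval_X, Sum.elim_inl, if_neg h]

theorem theta_X_inr (c : Finset (Fin N)) (ref : Fin N → A) (v : Fin N → A → ℂ)
    (l : Λ) :
    theta (Λ := Λ) c ref v (X (Sum.inr l)) = X (Sum.inr l) := by
  unfold theta
  rw [aeval_X, Sum.elim_inr]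

theorem theta_sbt (c : Finset (Fin N)) (ref : Fin N → A) (v : Fin N → A → ℂ)
    (hv : ∀ i ∈ c, v i (ref i) ≠ 0) (F : MvPolynomial (Sg N A Λ) ℂ) :
    theta c ref v (sbt c ref v F) = F := by
  have h : (theta (Λ := Λ) c ref v).comp (sbt c ref v) = AlgHom.id ℂ _ := by
    apply MvPolynomial.algHom_ext
    intro s
    rw [AlgHom.comp_apply, AlgHom.id_apply]
    rcases s with ⟨i, x⟩ | l
    · by_cases h : i ∈ c ∧ x = ref i
      · obtain ⟨hi, rfl⟩ := h
        rw [sbt_X_inl_of c ref v i hi, map_sum, ← Finset.add_sum_erase _ _ (Finset.mem_univ (ref i)),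
          map_mul, theta_X_inl_of c ref v i hi, algHom_C]
        have h2 : ∑ x ∈ Finset.univ.erase (ref i), theta (Λ := Λ) c ref v
            (C (v i x) * X (Sum.inl (i, x)))
            = ∑ x ∈ Finset.univ.erase (ref i), C (v i x) * X (Sum.inl (i, x)) := by
          apply Finset.sum_congr rfl
          intro x hx
          rw [map_mul, theta_X_inl_not c ref v i x, algHom_C]
          · rfl
          · intro h
            exact (Finset.ne_of_mem_erase hx) h.2
        rw [h2, ← mul_assoc]
        have h3 : (algebraMap ℂ (MvPolynomial (Sg N A Λ) ℂ)) (v i (ref i)) *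
            C (v i (ref i))⁻¹ = 1 := by
          rw [← algebraMap_eq, ← map_mul, mul_inv_cancel₀ (hv i hi), map_one]
        rw [h3, one_mul]
        ring
      · rw [sbt_X_inl_not c ref v i x h, theta_X_inl_not c ref v i x h]
    · rw [sbt_X_inr, theta_X_inr]
  have := DFunLike.congr_fun h F
  simpa using this

theorem sbt_theta (c : Finset (Fin N)) (ref : Fin N → A) (v : Fin N → A → ℂ)
    (hv : ∀ i ∈ c, v i (ref i) ≠ 0) (F : MvPolynomial (Sg N A Λ) ℂ) :
    sbt c ref v (theta c ref v F) = F := by
  have h : (sbt (Λ := Λ) c ref v).comp (theta c ref v) = AlgHom.id ℂ _ := by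
    apply MvPolynomial.algHom_ext
    intro s
    rw [AlgHom.comp_apply, AlgHom.id_apply]
    rcases s with ⟨i, x⟩ | l
    · by_cases h : i ∈ c ∧ x = ref i
      · obtain ⟨hi, rfl⟩ := h
        rw [theta_X_inl_of c ref v i hi, map_mul, map_sub, map_sum, sbt_X_inl_of c ref v i hi,
          algHom_C]
        have h2 : ∑ x ∈ Finset.univ.erase (ref i), sbt (Λ := Λ) c ref v
            (C (v i x) * X (Sum.inl (i, x)))
            = ∑ x ∈ Finset.univ.erase (ref i), C (v i x) * X (Sum.inl (i, x)) := by
          apply Finset.sum_congr rfl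
          intro x hx
          rw [map_mul, sbt_X_inl_not c ref v i x, algHom_C]
          · rfl
          · intro h
            exact (Finset.ne_of_mem_erase hx) h.2
        rw [h2, ← Finset.add_sum_erase _ _ (Finset.mem_univ (ref i)), add_sub_cancel_right,
          ← mul_assoc]
        have h3 : (algebraMap ℂ (MvPolynomial (Sg N A Λ) ℂ)) (v i (ref i))⁻¹ *
            C (v i (ref i)) = 1 := by
          rw [← algebraMap_eq, ← map_mul, inv_mul_cancel₀ (hv i hi), map_one]
        rw [h3, one_mul]
      · rw [theta_X_inl_not c ref v i x h, sbt_X_inl_not c ref v i x h]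
    · rw [theta_X_inr, sbt_X_inr]
  have := DFunLike.congr_fun h F
  simpa using this

end BlockAX

/-- The substitution is injective if the reference coefficients do not vanish. -/
theorem sbt_injective (c : Finset (Fin N)) (ref : Fin N → A) (v : Fin N → A → ℂ)
    (hv : ∀ i ∈ c, v i (ref i) ≠ 0) :
    Function.Injective (sbt (Λ := Λ) c ref v) :=
  Function.LeftInverse.injective (g := theta c ref v) (theta_sbt c ref v hv)

/-- At a coordinate vector the substitution is the identity. -/
theorem sbt_single (c : Finset (Fin N)) (ref : Fin N → A) (v : Fin N → A → ℂ)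
    (hv : ∀ i ∈ c, v i = Pi.single (ref i) 1) (F : MvPolynomial (Sg N A Λ) ℂ) :
    sbt c ref v F = F := by
  have h : sbt (Λ := Λ) c ref v = AlgHom.id ℂ _ := by
    apply MvPolynomial.algHom_ext
    intro s
    rw [AlgHom.id_apply]
    rcases s with ⟨i, x⟩ | l
    · by_cases h : i ∈ c ∧ x = ref i
      · obtain ⟨hi, rfl⟩ := h
        rw [sbt_X_inl_of c ref v i hi, hv i hi, Finset.sum_eq_single (ref i)]
        · rw [Pi.single_eq_same, C_1, one_mul]
        · intro b _ hb
          rw [Pi.single_eq_of_ne hb, C_0, zero_mul]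
        · intro h; exact absurd (Finset.mem_univ _) h
      · rw [sbt_X_inl_not c ref v i x h]
    · rw [sbt_X_inr]
  rw [h, AlgHom.id_apply]

/-- The coefficients of `sbt c ref v F` are polynomial functions of `v`. -/
theorem sbt_poly (c : Finset (Fin N)) (ref : Fin N → A) (F : MvPolynomial (Sg N A Λ) ℂ)
    (γ : Sg N A Λ →₀ ℕ) :
    PolyFun (fun v : Fin N × A → ℂ => coeff γ (sbt c ref (fun i a => v (i, a)) F)) := by
  induction F using MvPolynomial.induction_on generalizing γ with
  | C r =>
    have h : (fun v : Fin N × A → ℂ => coeff γ (sbt (Λ := Λ) c ref (fun i a => v (i, a)) (C r)))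
        = fun _ => coeff γ (C r : MvPolynomial (Sg N A Λ) ℂ) := by
      funext v
      rw [algHom_C]
      rfl
    rw [h]
    exact PolyFun.const _
  | add p q hp hq =>
    have h := (hp γ).add (hq γ)
    convert h using 2 with v
    rw [map_add, coeff_add]
  | mul_X p s hp =>
    have h1 : ∀ δ : Sg N A Λ →₀ ℕ, PolyFun (fun v : Fin N × A → ℂ =>
        coeff δ (sbt (Λ := Λ) c ref (fun i a => v (i, a)) (X s))) := by
      intro δ
      rcases s with ⟨i, x⟩ | l
      · by_cases h : i ∈ c ∧ x = ref i
        · obtain ⟨hi, rfl⟩ := h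
          have h2 : (fun v : Fin N × A → ℂ => coeff δ
              (sbt (Λ := Λ) c ref (fun i a => v (i, a)) (X (Sum.inl (i, ref i)))))
              = fun v => ∑ a, v (i, a) * coeff δ (X (Sum.inl (i, a)) : MvPolynomial (Sg N A Λ) ℂ) := by
            funext v
            rw [sbt_X_inl_of c ref _ i hi, coeff_sum]
            apply Finset.sum_congr rfl
            intro a _
            rw [coeff_C_mul]
          rw [h2]
          apply PolyFun.sum
          intro a _
          exact (PolyFun.coord _).mul (PolyFun.const _)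
        · have h2 : (fun v : Fin N × A → ℂ => coeff δ
              (sbt (Λ := Λ) c ref (fun i a => v (i, a)) (X (Sum.inl (i, x)))))
              = fun _ => coeff δ (X (Sum.inl (i, x)) : MvPolynomial (Sg N A Λ) ℂ) := by
            funext v
            rw [sbt_X_inl_not c ref _ i x h]
          rw [h2]
          exact PolyFun.const _
      · have h2 : (fun v : Fin N × A → ℂ => coeff δ
              (sbt (Λ := Λ) c ref (fun i a => v (i, a)) (X (Sum.inr l))))
              = fun _ => coeff δ (X (Sum.inr l) : MvPolynomial (Sg N A Λ) ℂ) := by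
          funext v
          rw [sbt_X_inr]
        rw [h2]
        exact PolyFun.const _
    have h3 : (fun v : Fin N × A → ℂ => coeff γ
        (sbt (Λ := Λ) c ref (fun i a => v (i, a)) (p * X s)))
        = fun v => ∑ x ∈ Finset.HasAntidiagonal.antidiagonal γ,
          coeff x.1 (sbt (Λ := Λ) c ref (fun i a => v (i, a)) p) *
          coeff x.2 (sbt (Λ := Λ) c ref (fun i a => v (i, a)) (X s)) := by
      funext v
      rw [map_mul, coeff_mul]
    rw [h3]
    apply PolyFun.sum
    intro x _
    exact (hp x.1).mul (h1 x.2)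

end Pool.Agent.H21.HD

end

section

/-!
From Good to ColInj.
-/

namespace Pool.Agent.H21.HD

open MvPolynomial
open scoped Classical

variable {N : ℕ} {A Λ P : Type} [Fintype A] [Fintype Λ] [Fintype P]

namespace ColGoodX

/-- The exponent vector with blocks `β` and label exponents `μ`. -/
noncomputable def Gam (β : Fin N → A → ℕ) (μ : Λ → ℕ) : Sg N A Λ →₀ ℕ :=
  Finsupp.equivFunOnFinite.symm (Sum.elim (fun x => β x.1 x.2) μ)

theorem Gam_inl (β : Fin N → A → ℕ) (μ : Λ → ℕ) (i : Fin N) (a : A) :
    Gam β μ (Sum.inl (i, a)) = β i a := rfl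

theorem Gam_inr (β : Fin N → A → ℕ) (μ : Λ → ℕ) (l : Λ) :
    Gam β μ (Sum.inr l) = μ l := rfl

theorem Gam_self (γ : Sg N A Λ →₀ ℕ) :
    Gam (fun i a => γ (Sum.inl (i, a))) (fun l => γ (Sum.inr l)) = γ := by
  ext s
  rcases s with ⟨i, a⟩ | l
  · rfl
  · rfl

theorem Gam_inj (β β' : Fin N → A → ℕ) (μ μ' : Λ → ℕ) :
    Gam β μ = Gam β' μ' ↔ β = β' ∧ μ = μ' := by
  constructor
  · intro h
    constructor
    · funext i a
      have := DFunLike.congr_fun h (Sum.inl (i, a))
      simpa [Gam_inl] using this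
    · funext l
      have := DFunLike.congr_fun h (Sum.inr l)
      simpa [Gam_inr] using this
  · rintro ⟨rfl, rfl⟩
    rfl

theorem monomial_Gam (β : Fin N → A → ℕ) (μ : Λ → ℕ) :
    (monomial (Gam β μ) (1 : ℂ)) =
      (∏ i : Fin N, ∏ a : A, X (Sum.inl (i, a)) ^ β i a) * ∏ l : Λ, X (Sum.inr l) ^ μ l := by
  rw [monomial_eq, C_1, one_mul, Finsupp.prod_fintype _ _ (fun _ => pow_zero _),
    Fintype.prod_sum_type, Fintype.prod_prod_type]
  rfl

theorem block_factor (v : A → ℂ) (i : Fin N) (n : ℕ) :
    (∑ a, C (v a) * X (Sum.inl (i, a)) : MvPolynomial (Sg N A Λ) ℂ) ^ n =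
      ∑ k ∈ Finset.piAntidiag Finset.univ n,
        C ((Nat.multinomial Finset.univ k : ℂ) * ∏ a, v a ^ k a) *
          ∏ a, X (Sum.inl (i, a)) ^ k a := by
  rw [Finset.sum_pow_eq_sum_piAntidiag]
  apply Finset.sum_congr rfl
  intro k _
  simp only [mul_pow, Finset.prod_mul_distrib, map_mul, map_prod, map_pow, map_natCast]
  ring

theorem coeff_sbt_monomial (c : Finset (Fin N)) (ref : Fin N → A) (v : Fin N → A → ℂ)
    (γ : Sg N A Λ →₀ ℕ) (hpure : ∀ i ∈ c, ∀ a, a ≠ ref i → γ (Sum.inl (i, a)) = 0)
    (y : Fin N → A → ℕ) (μ : Λ → ℕ) (hy : ∀ i ∈ c, ∑ a, y i a = bdeg γ i) (r : ℂ) :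
    coeff (Gam y μ) (sbt c ref v (monomial γ r)) =
      if (∀ i, i ∉ c → y i = fun a => γ (Sum.inl (i, a))) ∧ (fun l => γ (Sum.inr l)) = μ then
        r * ∏ i ∈ c, ((Nat.multinomial Finset.univ (y i) : ℂ) * ∏ a, v i a ^ y i a)
      else 0 := by
  let T : Fin N → Finset (A → ℕ) := fun i =>
    if i ∈ c then Finset.piAntidiag Finset.univ (bdeg γ i) else {fun a => γ (Sum.inl (i, a))}
  let w : Fin N → (A → ℕ) → ℂ := fun i k =>
    if i ∈ c then (Nat.multinomial Finset.univ k : ℂ) * ∏ a, v i a ^ k a else 1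
  have hblock : ∀ i : Fin N,
      (∏ a : A, (if i ∈ c ∧ a = ref i then ∑ a', C (v i a') * X (Sum.inl (i, a'))
        else X (Sum.inl (i, a)) : MvPolynomial (Sg N A Λ) ℂ) ^ γ (Sum.inl (i, a))) =
      ∑ k ∈ T i, C (w i k) * ∏ a, X (Sum.inl (i, a)) ^ k a := by
    intro i
    by_cases hi : i ∈ c
    · simp only [T, w, hi, if_true, true_and]
      rw [← block_factor]
      have h1 : bdeg γ i = γ (Sum.inl (i, ref i)) := by
        unfold bdeg
        rw [Finset.sum_eq_single (ref i)]
        · intro b _ hb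
          exact hpure i hi b hb
        · intro h
          exact absurd (Finset.mem_univ _) h
      rw [h1, Finset.prod_eq_single (ref i)]
      · rw [if_pos rfl]
      · intro b _ hb
        rw [if_neg hb, hpure i hi b hb, pow_zero]
      · intro h
        exact absurd (Finset.mem_univ _) h
    · simp only [T, w, hi, if_false, false_and, Finset.sum_singleton, C_1, one_mul]
  have hexp : sbt c ref v (monomial γ r) =
      ∑ β ∈ Fintype.piFinset T, monomial (Gam β (fun l => γ (Sum.inr l)))
        (r * ∏ i, w i (β i)) := by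
    unfold sbt
    rw [aeval_monomial, Finsupp.prod_fintype _ _ (fun _ => pow_zero _), Fintype.prod_sum_type,
      Fintype.prod_prod_type]
    simp only [Sum.elim_inl, Sum.elim_inr]
    rw [Finset.prod_congr rfl (fun i _ => hblock i), Finset.prod_univ_sum, Finset.sum_mul,
      Finset.mul_sum]
    apply Finset.sum_congr rfl
    intro β _
    have h2 : monomial (Gam β (fun l => γ (Sum.inr l))) (r * ∏ i, w i (β i)) =
        C (r * ∏ i, w i (β i)) * monomial (Gam β (fun l => γ (Sum.inr l))) (1 : ℂ) := by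
      rw [C_mul_monomial, mul_one]
    rw [h2, monomial_Gam, Finset.prod_mul_distrib, map_mul, map_prod]
    rw [MvPolynomial.algebraMap_eq]
    ring
  rw [hexp, coeff_sum]
  simp only [coeff_monomial, Gam_inj]
  by_cases hμ : (fun l => γ (Sum.inr l)) = μ
  · simp only [hμ, and_true]
    rw [Finset.sum_ite_eq' ]
    have hmem : y ∈ Fintype.piFinset T ↔ ∀ i, i ∉ c → y i = fun a => γ (Sum.inl (i, a)) := by
      rw [Fintype.mem_piFinset]
      constructor
      · intro h i hi
        have := h i
        simp only [T, hi, if_false, Finset.mem_singleton] at this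
        exact this
      · intro h i
        by_cases hi : i ∈ c
        · simp only [T, hi, if_true, Finset.mem_piAntidiag]
          exact ⟨hy i hi, fun _ _ => Finset.mem_univ _⟩
        · simp only [T, hi, if_false, Finset.mem_singleton]
          exact h i hi
    by_cases h3 : ∀ i, i ∉ c → y i = fun a => γ (Sum.inl (i, a))
    · rw [if_pos (hmem.2 h3), if_pos h3]
      congr 1
      simp only [w]
      rw [Finset.prod_ite_mem, Finset.univ_inter]
    · rw [if_neg (fun h => h3 (hmem.1 h)), if_neg h3]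
  · simp only [hμ, and_false, if_false, Finset.sum_const_zero]

theorem eval_multinomial (v : A → ℂ) (β : A →₀ ℕ) :
    eval v (monomial β (Nat.multinomial Finset.univ β : ℂ)) =
      (Nat.multinomial Finset.univ β : ℂ) * ∏ a, v a ^ β a := by
  rw [eval_monomial, Finsupp.prod_fintype _ _ (fun _ => pow_zero _)]

end ColGoodX

open ColGoodX

/-- From the tensor statement to the column: exponent vectors of degree `a i` in the block `i`. -/
theorem colInj_of_good [Nonempty A] (c : P → Finset (Fin N)) (lab : P → Λ)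
    (ref : P → Fin N → A) (a : Fin N → ℕ)
    (μ : Λ → ℕ) (hc : ∀ p, ∀ i ∈ c p, a i ≠ 0) (v : P → Fin N → A → ℂ)
    (hv : ∀ p, μ (lab p) ≠ 0 → ∀ i ∈ c p, v p i = Pi.single (ref p i) 1)
    (h : Good (B := fun i => {β : A →₀ ℕ // β.degree = a i})
      (fun i s => ⟨Finsupp.single s (a i), by simp⟩)
      (fun i β => monomial β.1 (Nat.multinomial Finset.univ β.1 : ℂ))
      (Finset.univ.filter (fun i => a i ≠ 0))
      (Finset.univ.filter (fun p => μ (lab p) = 0)) (Finset.univ.filter (fun p => μ (lab p) ≠ 0))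
      c (fun p => (c p).card - μ (lab p)) ref v) :
    ColInj c lab ref a μ v := by
  intro ft hadm hsum
  let B : Fin N → Type := fun i => {β : A →₀ ℕ // β.degree = a i}
  let pt : ∀ i, A → B i := fun i s => ⟨Finsupp.single s (a i), by simp⟩
  let G : (∀ i, B i) → (Sg N A Λ →₀ ℕ) := fun y => Gam (fun i s => (y i).1 s) μ
  let pur : P → (∀ i, B i) → (∀ i, B i) := fun p y i => if i ∈ c p then pt i (ref p i) else y i
  let κ : P → (∀ i, B i) → ℂ := fun p y =>
    if μ (lab p) = 0 then coeff (G (pur p y)) (ft p) else coeff (G y) (ft p)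
  -- blocks of degree zero
  have hB0 : ∀ i, a i = 0 → ∀ x y : B i, x = y := by
    intro i hi x y
    have h1 : x.1 = 0 := (Finsupp.degree_eq_zero_iff _).1 (x.2.trans hi)
    have h2 : y.1 = 0 := (Finsupp.degree_eq_zero_iff _).1 (y.2.trans hi)
    exact Subtype.ext (h1.trans h2.symm)
  have hsumB : ∀ (i : Fin N) (x : B i), ∑ s, x.1 s = a i :=
    fun i x => (Finsupp.degree_eq_sum x.1).symm.trans x.2
  have hdeg : ∀ (y : ∀ i, B i) (i : Fin N), ∑ s, (y i).1 s = a i :=
    fun y i => hsumB i (y i)
  have hbG : ∀ y : ∀ i, B i, bdeg (G y) = a := by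
    intro y
    funext i
    exact hdeg y i
  -- pure blocks
  have hpureB : ∀ (i : Fin N) (x : B i) (s : A), (∀ t, t ≠ s → x.1 t = 0) → x = pt i s := by
    intro i x s hx
    apply Subtype.ext
    ext t
    show x.1 t = Finsupp.single s (a i) t
    rw [Finsupp.single_apply]
    split_ifs with h1
    · subst h1
      have h2 : ∑ u, x.1 u = a i := hsumB i x
      rw [Finset.sum_eq_single s] at h2
      · exact h2
      · intro b _ hb
        exact hx b hb
      · intro h3
        exact absurd (Finset.mem_univ _) h3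
    · exact hx t (fun h2 => h1 h2.symm)
  have hres := h κ ?_ ?_ ?_ ?_
  · -- conclusion
    intro p
    by_contra hp
    obtain ⟨γ, hγ⟩ := MvPolynomial.ne_zero_iff.1 hp
    obtain ⟨hb, hl, hcard⟩ := hadm p γ hγ
    let y : ∀ i, B i := fun i => ⟨Finsupp.equivFunOnFinite.symm (fun s => γ (Sum.inl (i, s))), by
      rw [Finsupp.degree_eq_sum]
      exact congrFun hb i⟩
    have hGy : G y = γ := by
      show Gam _ μ = γ
      rw [← hl]
      exact Gam_self γ
    by_cases hμ : μ (lab p) = 0
    · have h1 := congrFun (hres.1 p (by simp [hμ])) y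
      simp only [κ, hμ, if_true, Pi.zero_apply] at h1
      have h2 : pur p y = y := by
        funext i
        simp only [pur]
        split_ifs with hi
        · symm
          apply hpureB
          intro t ht
          have h3 : (c p).card ≤ pureCount (c p) (ref p) γ := by omega
          unfold pureCount at h3
          have h4 := Finset.filter_card_eq (le_antisymm (Finset.card_filter_le _ _) h3) i hi
          exact h4 t ht
        · rfl
      rw [h2, hGy] at h1
      exact hγ h1
    · have h1 := congrFun (hres.2 p (by simp [hμ])) y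
      simp only [κ, hμ, if_false, Pi.zero_apply] at h1
      rw [hGy] at h1
      exact hγ h1
  · -- ordinary points
    intro p hp x y hxy
    have hμ : μ (lab p) = 0 := by simpa using hp
    simp only [κ, hμ, if_true]
    have h1 : pur p x = pur p y := by
      funext i
      simp only [pur]
      split_ifs with hi
      · rfl
      · by_cases hi0 : a i = 0
        · exact hB0 i hi0 _ _
        · exact hxy i (by simp [hi, hi0])
    rw [h1]
  · -- special points
    intro q hq x y hxy
    have hμ : μ (lab q) ≠ 0 := by simpa using hq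
    simp only [κ, hμ, if_false]
    have h1 : x = y := by
      funext i
      by_cases hi0 : a i = 0
      · exact hB0 i hi0 _ _
      · exact hxy i (by simp [hi0])
    rw [h1]
  · intro q hq y hy
    have hμ : μ (lab q) ≠ 0 := by simpa using hq
    simp only [κ, hμ, if_false] at hy
    obtain ⟨_, _, hcard⟩ := hadm q _ hy
    have h1 : pureCount (c q) (ref q) (G y) ≤
        ((c q).filter (fun i => y i = pt i (ref q i))).card := by
      unfold pureCount
      apply Finset.card_le_card
      intro i hi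
      rw [Finset.mem_filter] at hi ⊢
      refine ⟨hi.1, ?_⟩
      apply hpureB
      intro t ht
      exact hi.2 t ht
    have h2 : (c q).card - μ (lab q) ≤ pureCount (c q) (ref q) (G y) := by omega
    refine h2.trans (h1.trans (le_of_eq ?_))
    congr 1
    ext i
    simp only [Finset.mem_filter]
    rfl
  · intro y
    have h1 : coeff (G y) (∑ p, sbt (c p) (ref p) (v p) (ft p)) = 0 := by
      rw [hsum, coeff_zero]
    rw [coeff_sum, ← Finset.sum_filter_add_sum_filter_not Finset.univ
      (fun p => μ (lab p) = 0)] at h1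
    rw [← h1]
    congr 1
    · apply Finset.sum_congr rfl
      intro p hp
      have hμ : μ (lab p) = 0 := by simpa using hp
      simp only [κ, hμ, if_true]
      -- expand ft p
      have h2 : ft p = ∑ γ ∈ (ft p).support, monomial γ (coeff γ (ft p)) :=
        (ft p).as_sum
      conv_rhs => rw [h2]
      rw [map_sum, coeff_sum]
      have h3 : ∀ γ ∈ (ft p).support,
          coeff (G y) (sbt (c p) (ref p) (v p) (monomial γ (coeff γ (ft p)))) =
          if γ = G (pur p y) then coeff γ (ft p) *
            ∏ i ∈ c p, ((Nat.multinomial Finset.univ (y i).1 : ℂ) * ∏ s, v p i s ^ (y i).1 s)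
          else 0 := by
        intro γ hγ
        obtain ⟨hb, hl, hcard⟩ := hadm p γ (mem_support_iff.1 hγ)
        have h4 : (c p).card ≤ pureCount (c p) (ref p) γ := by omega
        unfold pureCount at h4
        have h5 := Finset.filter_card_eq (le_antisymm (Finset.card_filter_le _ _) h4)
        rw [show G y = Gam (fun i s => (y i).1 s) μ from rfl,
          coeff_sbt_monomial (c p) (ref p) (v p) γ (fun i hi t ht => h5 i hi t ht) _ μ
            (fun i hi => (hdeg y i).trans (congrFun hb i).symm)]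
        have h6 : ((∀ i, i ∉ c p → (fun s => (y i).1 s) = fun s => γ (Sum.inl (i, s))) ∧
            (fun l => γ (Sum.inr l)) = μ) ↔ γ = G (pur p y) := by
          constructor
          · rintro ⟨h7, _⟩
            rw [← Gam_self γ, hl]
            show Gam _ μ = Gam _ μ
            congr 1
            funext i s
            simp only [pur]
            split_ifs with hi
            · show γ (Sum.inl (i, s)) = Finsupp.single (ref p i) (a i) s
              rw [Finsupp.single_apply]
              split_ifs with h8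
              · subst h8
                rw [← congrFun hb i]
                unfold bdeg
                rw [Finset.sum_eq_single (ref p i)]
                · intro b _ hb'
                  exact h5 i hi b hb'
                · intro h9
                  exact absurd (Finset.mem_univ _) h9
              · exact h5 i hi s (fun h9 => h8 h9.symm)
            · exact (congrFun (h7 i hi) s).symm
          · intro h7
            refine ⟨?_, hl⟩
            intro i hi
            funext s
            rw [h7]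
            show (y i).1 s = (pur p y i).1 s
            simp only [pur, hi, if_false]
        simp only [h6]
      rw [Finset.sum_congr rfl h3, Finset.sum_ite_eq']
      have h8 : ∏ i ∈ c p, eval (v p i) (monomial (y i).1
          (Nat.multinomial Finset.univ (y i).1 : ℂ)) =
          ∏ i ∈ c p, ((Nat.multinomial Finset.univ (y i).1 : ℂ) * ∏ s, v p i s ^ (y i).1 s) := by
        apply Finset.prod_congr rfl
        intro i _
        exact eval_multinomial _ _
      rw [h8]
      split_ifs with h9
      · ring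
      · rw [notMem_support_iff.1 h9, mul_zero]
    · apply Finset.sum_congr
      · ext q
        simp
      · intro q hq
        have hμ : μ (lab q) ≠ 0 := by simpa using hq
        simp only [κ, hμ, if_false]
        rw [sbt_single (c q) (ref q) (v q) (hv q hμ)]

end Pool.Agent.H21.HD

end

section

/-!
The leading coefficient lemma.
-/

namespace Pool.Agent.H21.HD

namespace LeadLX

open MvPolynomial

theorem key_lt_iff {N : ℕ} (a b : Fin N → ℕ) : key a < key b ↔
    ∃ i, (∀ j, j < i → rk0 (a j) = rk0 (b j)) ∧ rk0 (a i) < rk0 (b i) := Iff.rfl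

theorem key_lt_head {N : ℕ} (a b : Fin (N + 1) → ℕ) (h : rk0 (a 0) < rk0 (b 0)) :
    key a < key b := by
  rw [key_lt_iff]
  exact ⟨0, fun j hj => absurd hj (Fin.not_lt_zero j), h⟩

theorem key_lt_tail {N : ℕ} (a b : Fin (N + 1) → ℕ) (h0 : a 0 = b 0)
    (h : key (fun i => a i.succ) < key (fun i => b i.succ)) : key a < key b := by
  rw [key_lt_iff] at h ⊢
  obtain ⟨i, h1, h2⟩ := h
  refine ⟨i.succ, fun j hj => ?_, h2⟩
  refine Fin.cases ?_ (fun j' => ?_) j hj
  · intro _
    rw [h0]
  · intro hj'
    exact h1 j' (Fin.succ_lt_succ_iff.1 hj')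

theorem rk0_lt_of {a b : ℕ} (ha : a ≠ 0) (h : a < b) : rk0 a < rk0 b := by
  unfold rk0
  rw [if_neg ha, if_neg (by omega)]
  exact_mod_cast h

theorem rk0_lt_zero {a : ℕ} (ha : a ≠ 0) : rk0 a < rk0 0 := by
  unfold rk0
  rw [if_neg ha, if_pos rfl]
  exact ENat.natCast_lt_top a

/-- The remaining coordinates. -/
def tl {N : ℕ} (c : Finset (Fin (N + 1))) : Finset (Fin N) :=
  Finset.univ.filter (fun i : Fin N => i.succ ∈ c)

theorem form_split {R : Type} [CommRing R] {N : ℕ} (c : Finset (Fin (N + 1))) (y : R) :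
    finSuccEquiv R N ((∑ i ∈ c, X i) + C y) =
      (if (0 : Fin (N + 1)) ∈ c then Polynomial.X else 0) +
        Polynomial.C ((∑ i ∈ tl c, X i) + C y) := by
  have h1 : (∑ i ∈ c, X i : MvPolynomial (Fin (N + 1)) R) =
      ∑ i, if i ∈ c then X i else 0 := by
    rw [Finset.sum_ite_mem, Finset.univ_inter]
  have h2 : finSuccEquiv R N (C y) = Polynomial.C (C y) := by
    simp [finSuccEquiv_apply]
  have h3 : finSuccEquiv R N (if (0 : Fin (N + 1)) ∈ c then X 0 else 0) =
      (if (0 : Fin (N + 1)) ∈ c then Polynomial.X else 0) := by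
    split_ifs
    · exact finSuccEquiv_X_zero
    · exact map_zero _
  have h4 : finSuccEquiv R N (∑ i : Fin N, if i.succ ∈ c then X i.succ else 0) =
      Polynomial.C (∑ i ∈ tl c, X i) := by
    unfold tl
    rw [map_sum, Finset.sum_filter, map_sum]
    refine Finset.sum_congr rfl fun i _ => ?_
    split_ifs
    · exact finSuccEquiv_X_succ
    · rw [map_zero, map_zero]
  rw [h1, Fin.sum_univ_succ, map_add, map_add, h2, h3, h4, map_add, add_assoc]

theorem card_split {N : ℕ} (c : Finset (Fin (N + 1))) (ω : Fin (N + 1) → ℕ) :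
    (c.filter (fun i => ω i = 0)).card =
      (if (0 : Fin (N + 1)) ∈ c ∧ ω 0 = 0 then 1 else 0) +
        ((tl c).filter (fun i => ω i.succ = 0)).card := by
  have h1 : (c.filter (fun i => ω i = 0)).card =
      ∑ i : Fin (N + 1), if i ∈ c ∧ ω i = 0 then 1 else 0 := by
    rw [Finset.card_filter, ← Finset.sum_filter, ← Finset.sum_filter]
    congr 1
    ext i
    simp
  have h2 : ((tl c).filter (fun i => ω i.succ = 0)).card =
      ∑ i : Fin N, if i.succ ∈ c ∧ ω i.succ = 0 then 1 else 0 := by
    rw [Finset.card_filter, ← Finset.sum_filter, ← Finset.sum_filter]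
    congr 1
    ext i
    simp [tl]
  rw [h1, h2, Fin.sum_univ_succ]

theorem form_ne {R : Type} [CommRing R] {N : ℕ} (c : Finset (Fin N)) (y : R) (hy : y ≠ 0) :
    ((∑ i ∈ c, X i) + C y : MvPolynomial (Fin N) R) ≠ 0 := by
  intro h
  have h1 := congrArg (MvPolynomial.constantCoeff) h
  simp at h1
  exact hy h1

end LeadLX

open LeadLX MvPolynomial in
/-- The leading coefficient lemma. -/
theorem lead_lemma {R : Type} [CommRing R] [IsDomain R] [Algebra ℚ R] (N : ℕ)
    (c : Finset (Fin N)) (ω : Fin N → ℕ) (y : R) (hy : y ≠ 0) (E : ℕ)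
    (hE : (c.filter (fun i => ω i = 0)).card ≤ E) (Q : MvPolynomial (Fin N) R)
    (hdiv : ((∑ i ∈ c, X i) + C y) ^ E ∣ Q) (b : Fin N →₀ ℕ) (hb : coeff b Q ≠ 0)
    (hlow : ∀ b' : Fin N →₀ ℕ, key (fun i => b' i + ω i) < key (fun i => b i + ω i) →
      coeff b' Q = 0) :
    (∀ i ∈ c, b i + ω i ≠ 0) ∧ y ^ (E - (c.filter (fun i => ω i = 0)).card) ∣ coeff b Q := by
  induction N generalizing E with
  | zero =>
    have hc : c = ∅ := Finset.eq_empty_of_isEmpty c
    subst hc
    refine ⟨fun i hi => absurd hi (Finset.notMem_empty i), ?_⟩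
    simp only [Finset.sum_empty, zero_add, Finset.filter_empty, Finset.card_empty,
      Nat.sub_zero] at hdiv ⊢
    obtain ⟨M, rfl⟩ := hdiv
    rw [← map_pow, coeff_C_mul]
    exact dvd_mul_right _ _
  | succ N ih =>
    -- the slices
    set Qh : Polynomial (MvPolynomial (Fin N) R) := finSuccEquiv R N Q with hQh
    have hbc : b = Finsupp.cons (b 0) b.tail := (Finsupp.cons_tail b).symm
    have hcb : coeff b Q = coeff b.tail (Qh.coeff (b 0)) := by
      rw [hQh, finSuccEquiv_coeff_coeff, ← hbc]
    have hdiv' : ((if (0 : Fin (N + 1)) ∈ c then Polynomial.X else 0) +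
        Polynomial.C ((∑ i ∈ tl c, X i) + C y : MvPolynomial (Fin N) R)) ^ E ∣ Qh := by
      have h1 := map_dvd (finSuccEquiv R N) hdiv
      rwa [map_pow, form_split] at h1
    have htail : ∀ b'' : Fin N →₀ ℕ,
        key (fun i => b'' i + ω i.succ) < key (fun i => b.tail i + ω i.succ) →
        coeff b'' (Qh.coeff (b 0)) = 0 := by
      intro b'' hk
      rw [hQh, finSuccEquiv_coeff_coeff]
      apply hlow
      apply key_lt_tail
      · simp
      · simpa [Finsupp.tail_apply] using hk
    have hhead : ∀ t, rk0 (t + ω 0) < rk0 (b 0 + ω 0) → Qh.coeff t = 0 := by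
      intro t ht
      ext b''
      rw [hQh, finSuccEquiv_coeff_coeff, coeff_zero]
      apply hlow
      apply key_lt_head
      simpa using ht
    have hx := form_ne (tl c) y hy
    have hcard := card_split c ω
    have hb' : coeff b.tail (Qh.coeff (b 0)) ≠ 0 := by
      rw [← hcb]
      exact hb
    -- the last step
    have fin : ∀ E', ((tl c).filter (fun i => ω i.succ = 0)).card ≤ E' →
        ((∑ i ∈ tl c, X i) + C y : MvPolynomial (Fin N) R) ^ E' ∣ Qh.coeff (b 0) →
        ((0 : Fin (N + 1)) ∈ c → b 0 + ω 0 ≠ 0) →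
        E' - ((tl c).filter (fun i => ω i.succ = 0)).card =
          E - (c.filter (fun i => ω i = 0)).card →
        (∀ i ∈ c, b i + ω i ≠ 0) ∧
          y ^ (E - (c.filter (fun i => ω i = 0)).card) ∣ coeff b Q := by
      intro E' hE' hd h0 hEE
      have h1 := ih (tl c) (fun i => ω i.succ) E' hE' (Qh.coeff (b 0)) hd b.tail hb' htail
      refine ⟨?_, ?_⟩
      · intro i
        refine Fin.cases ?_ (fun j => ?_) i
        · exact h0
        · intro hj
          have h2 := h1.1 j (by simp [tl, hj])
          simpa [Finsupp.tail_apply] using h2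
      · rw [← hEE, hcb]
        exact h1.2
    by_cases h0 : (0 : Fin (N + 1)) ∈ c
    · rw [if_pos h0] at hdiv'
      by_cases hω : ω 0 = 0
      · rw [if_pos ⟨h0, hω⟩] at hcard
        -- the first degree is not zero
        have hb0 : b 0 ≠ 0 := by
          intro hb0
          have h1 : ∀ t, t ≠ 0 → Qh.coeff t = 0 := by
            intro t ht
            apply hhead
            rw [hω, hb0]
            simpa using rk0_lt_zero ht
          have h2 : Qh = Polynomial.C (Qh.coeff 0) := by
            ext1 t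
            by_cases ht : t = 0
            · subst ht
              simp
            · rw [h1 t ht, Polynomial.coeff_C, if_neg ht]
          have h3 : (Polynomial.X + Polynomial.C ((∑ i ∈ tl c, X i) + C y :
              MvPolynomial (Fin N) R)) ∣ Qh :=
            dvd_trans (dvd_pow_self _ (by omega)) hdiv'
          obtain ⟨M, hM⟩ := h3
          have h4 := congrArg (Polynomial.eval (-((∑ i ∈ tl c, X i) + C y :
              MvPolynomial (Fin N) R))) hM
          rw [Polynomial.eval_mul, Polynomial.eval_add, Polynomial.eval_X, Polynomial.eval_C,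
            neg_add_cancel, zero_mul, h2, Polynomial.eval_C] at h4
          apply hb'
          rw [hb0, h4, coeff_zero]
        apply fin (E - 1) (by omega)
        · apply one_var _ hx E Qh hdiv' (b 0) (by omega)
          intro t ht1 ht2
          apply hhead
          rw [hω]
          exact rk0_lt_of (by omega) (by omega)
        · intro _
          omega
        · omega
      · rw [if_neg (fun h => hω h.2)] at hcard
        apply fin E (by omega)
        · apply one_var' _ hx E Qh hdiv' (b 0)
          intro t ht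
          apply hhead
          exact rk0_lt_of (by omega) (by omega)
        · intro _
          omega
        · omega
    · rw [if_neg h0, zero_add, ← map_pow] at hdiv'
      rw [if_neg (fun h => h0 h.1)] at hcard
      apply fin E (by omega)
      · exact (Polynomial.C_dvd_iff_dvd_coeff _ _).1 hdiv' (b 0)
      · intro h
        exact absurd h h0
      · omega

end Pool.Agent.H21.HD

end

section

/-!
The leading structure.
-/

namespace Pool.Agent.H21.HD

open MvPolynomial
open scoped Classical

set_option linter.unusedSectionVars false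

variable {N : ℕ} {A Λ : Type} [Fintype A] [Fintype Λ]

namespace LeadSX

/-- The spectator variables. -/
def IsSpec (c : Finset (Fin N)) (ref : Fin N → A) (lam : Λ) : Sg N A Λ → Prop :=
  Sum.elim (fun x => ¬ (x.1 ∈ c ∧ x.2 = ref x.1)) (fun l => l ≠ lam)

/-- The spectator part of an exponent vector. -/
noncomputable def spec (c : Finset (Fin N)) (ref : Fin N → A) (lam : Λ) (γ : Sg N A Λ →₀ ℕ) :
    Sg N A Λ →₀ ℕ :=
  Finsupp.equivFunOnFinite.symm (fun s => if IsSpec c ref lam s then γ s else 0)

/-- The reference part. -/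
noncomputable def refp (c : Finset (Fin N)) (ref : Fin N → A) (γ : Sg N A Λ →₀ ℕ) :
    Fin N →₀ ℕ :=
  Finsupp.equivFunOnFinite.symm (fun i => if i ∈ c then γ (Sum.inl (i, ref i)) else 0)

theorem spec_apply (c : Finset (Fin N)) (ref : Fin N → A) (lam : Λ) (γ : Sg N A Λ →₀ ℕ)
    (s : Sg N A Λ) : spec c ref lam γ s = if IsSpec c ref lam s then γ s else 0 := rfl

theorem refp_apply (c : Finset (Fin N)) (ref : Fin N → A) (γ : Sg N A Λ →₀ ℕ)
    (i : Fin N) : refp c ref γ i = if i ∈ c then γ (Sum.inl (i, ref i)) else 0 := rfl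

theorem spec_add (c : Finset (Fin N)) (ref : Fin N → A) (lam : Λ) (γ δ : Sg N A Λ →₀ ℕ) :
    spec c ref lam (γ + δ) = spec c ref lam γ + spec c ref lam δ := by
  ext s
  rw [Finsupp.add_apply, spec_apply, spec_apply, spec_apply, Finsupp.add_apply]
  split_ifs <;> simp

theorem refp_add (c : Finset (Fin N)) (ref : Fin N → A) (γ δ : Sg N A Λ →₀ ℕ) :
    refp c ref (γ + δ) = refp c ref γ + refp c ref δ := by
  ext s
  rw [Finsupp.add_apply, refp_apply, refp_apply, refp_apply, Finsupp.add_apply]
  split_ifs <;> simp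

theorem spec_zero (c : Finset (Fin N)) (ref : Fin N → A) (lam : Λ) :
    spec c ref lam (0 : Sg N A Λ →₀ ℕ) = 0 := by
  ext s
  rw [spec_apply]
  simp

theorem refp_zero (c : Finset (Fin N)) (ref : Fin N → A) :
    refp c ref (0 : Sg N A Λ →₀ ℕ) = 0 := by
  ext s
  rw [refp_apply]
  simp

/-- The image of a monomial. -/
noncomputable def TT (c : Finset (Fin N)) (ref : Fin N → A) (lam : Λ) (δ : Sg N A Λ →₀ ℕ) (r : ℂ) :
    MvPolynomial (Sg N A Λ) (MvPolynomial (Fin N) (Polynomial ℂ)) :=
  monomial (spec c ref lam δ) (monomial (refp c ref δ)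
    (Polynomial.monomial (δ (Sum.inr lam)) r))

theorem TT_mul (c : Finset (Fin N)) (ref : Fin N → A) (lam : Λ) (γ δ : Sg N A Λ →₀ ℕ) (r s : ℂ) :
    TT c ref lam γ r * TT c ref lam δ s = TT c ref lam (γ + δ) (r * s) := by
  unfold TT
  rw [monomial_mul, monomial_mul, Polynomial.monomial_mul_monomial, spec_add, refp_add,
    Finsupp.add_apply]

theorem TT_zero (c : Finset (Fin N)) (ref : Fin N → A) (lam : Λ) (r : ℂ) :
    TT c ref lam (0 : Sg N A Λ →₀ ℕ) r = C (C (Polynomial.C r)) := by
  unfold TT
  rw [spec_zero, refp_zero, Finsupp.zero_apply, Polynomial.monomial_zero_left]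
  rfl

/-- The separation of the variables. -/
noncomputable def Psi (c : Finset (Fin N)) (ref : Fin N → A) (lam : Λ) :
    MvPolynomial (Sg N A Λ) ℂ →+*
      MvPolynomial (Sg N A Λ) (MvPolynomial (Fin N) (Polynomial ℂ)) :=
  eval₂Hom ((C.comp C).comp Polynomial.C)
    (Sum.elim (fun x => if x.1 ∈ c ∧ x.2 = ref x.1 then C (X x.1) else X (Sum.inl x))
      (fun l => if l = lam then C (C Polynomial.X) else X (Sum.inr l)))

theorem Psi_C (c : Finset (Fin N)) (ref : Fin N → A) (lam : Λ) (r : ℂ) :
    Psi c ref lam (C r) = C (C (Polynomial.C r)) := by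
  unfold Psi
  rw [coe_eval₂Hom, eval₂_C]
  rfl

theorem Psi_X (c : Finset (Fin N)) (ref : Fin N → A) (lam : Λ) (s : Sg N A Λ) :
    Psi c ref lam (X s) = Sum.elim
      (fun x => if x.1 ∈ c ∧ x.2 = ref x.1 then C (X x.1) else X (Sum.inl x))
      (fun l => if l = lam then C (C Polynomial.X) else X (Sum.inr l)) s := by
  unfold Psi
  rw [coe_eval₂Hom, eval₂_X]

theorem Psi_X' (c : Finset (Fin N)) (ref : Fin N → A) (lam : Λ) (s : Sg N A Λ) :
    Psi c ref lam (X s) = TT c ref lam (Finsupp.single s 1) 1 := by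
  rw [Psi_X]
  unfold TT
  rcases s with ⟨i, x⟩ | l
  · simp only [Sum.elim_inl]
    have h0 : (Finsupp.single (Sum.inl (i, x)) 1 : Sg N A Λ →₀ ℕ) (Sum.inr lam) = 0 := by
      rw [Finsupp.single_apply, if_neg]
      intro h; cases h
    rw [h0]
    split_ifs with h
    · obtain ⟨hi, rfl⟩ := h
      have h1 : spec c ref lam (Finsupp.single (Sum.inl (i, ref i)) 1) = 0 := by
        ext s
        rw [spec_apply]
        split_ifs with hs
        · rw [Finsupp.single_apply, if_neg, Finsupp.zero_apply]
          intro h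
          subst h
          exact hs ⟨hi, rfl⟩
        · rfl
      have h2 : refp c ref (Finsupp.single (Sum.inl (i, ref i) : Sg N A Λ) 1)
          = Finsupp.single i 1 := by
        ext j
        rw [refp_apply]
        by_cases hj : j = i
        · subst hj
          rw [if_pos hi]
          simp
        · have e1 : (Finsupp.single i 1 : Fin N →₀ ℕ) j = 0 := by
            rw [Finsupp.single_apply, if_neg (fun h => hj h.symm)]
          have e2 : (Finsupp.single (Sum.inl (i, ref i)) 1 : Sg N A Λ →₀ ℕ)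
              (Sum.inl (j, ref j)) = 0 := by
            rw [Finsupp.single_apply, if_neg]
            intro h
            apply hj
            exact (Prod.mk.inj (Sum.inl.inj h)).1.symm
          rw [e1, e2, ite_self]
      rw [h1, h2]
      rfl
    · have h1 : spec c ref lam (Finsupp.single (Sum.inl (i, x)) 1)
          = Finsupp.single (Sum.inl (i, x)) 1 := by
        ext s
        rw [spec_apply]
        split_ifs with hs
        · rfl
        · rw [Finsupp.single_apply, if_neg]
          intro h'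
          subst h'
          exact hs h
      have h2 : refp c ref (Finsupp.single (Sum.inl (i, x) : Sg N A Λ) 1) = 0 := by
        ext j
        rw [refp_apply]
        split_ifs with hj
        · rw [Finsupp.single_apply, if_neg, Finsupp.zero_apply]
          intro h'
          have := Prod.mk.inj (Sum.inl.inj h')
          obtain ⟨rfl, rfl⟩ := this
          exact h ⟨hj, rfl⟩
        · rfl
      rw [h1, h2]
      rfl
  · simp only [Sum.elim_inr]
    have h2 : refp c ref (Finsupp.single (Sum.inr l : Sg N A Λ) 1) = 0 := by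
      ext j
      rw [refp_apply]
      split_ifs with hj
      · rw [Finsupp.single_apply, if_neg, Finsupp.zero_apply]
        intro h'
        cases h'
      · rfl
    rw [h2]
    split_ifs with h
    · subst h
      have h1 : spec c ref l (Finsupp.single (Sum.inr l) 1) = 0 := by
        ext s
        rw [spec_apply]
        split_ifs with hs
        · rw [Finsupp.single_apply, if_neg, Finsupp.zero_apply]
          intro h
          subst h
          exact hs rfl
        · rfl
      rw [h1, Finsupp.single_eq_same]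
      rfl
    · have h1 : spec c ref lam (Finsupp.single (Sum.inr l) 1) = Finsupp.single (Sum.inr l) 1 := by
        ext s
        rw [spec_apply]
        split_ifs with hs
        · rfl
        · rw [Finsupp.single_apply, if_neg]
          intro h'
          subst h'
          exact hs h
      have h3 : (Finsupp.single (Sum.inr l) 1 : Sg N A Λ →₀ ℕ) (Sum.inr lam) = 0 := by
        rw [Finsupp.single_apply, if_neg]
        intro h'
        exact h (Sum.inr.inj h')
      rw [h1, h3]
      rfl

theorem Psi_monomial (c : Finset (Fin N)) (ref : Fin N → A) (lam : Λ) (δ : Sg N A Λ →₀ ℕ) (r : ℂ) :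
    Psi c ref lam (monomial δ r) = TT c ref lam δ r := by
  have key1 : ∀ δ : Sg N A Λ →₀ ℕ, Psi c ref lam (monomial δ 1) = TT c ref lam δ 1 := by
    intro δ
    induction δ using Finsupp.induction_linear with
    | zero =>
      rw [TT_zero]
      have h : (monomial (0 : Sg N A Λ →₀ ℕ) (1 : ℂ)) = C 1 := rfl
      rw [h, Psi_C]
    | add f g hf hg =>
      have h : (monomial (f + g) (1 : ℂ) : MvPolynomial (Sg N A Λ) ℂ)
          = monomial f 1 * monomial g 1 := by
        rw [monomial_mul, one_mul]
      rw [h, map_mul, hf, hg, TT_mul, one_mul]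
    | single s n =>
      induction n with
      | zero =>
        rw [Finsupp.single_zero, TT_zero]
        have h : (monomial (0 : Sg N A Λ →₀ ℕ) (1 : ℂ)) = C 1 := rfl
        rw [h, Psi_C]
      | succ n ih =>
        have h : (monomial (Finsupp.single s (n + 1)) (1 : ℂ) : MvPolynomial (Sg N A Λ) ℂ)
            = monomial (Finsupp.single s n) 1 * MvPolynomial.X s := by
          rw [MvPolynomial.X, monomial_mul, one_mul, Finsupp.single_add]
        rw [h, map_mul, ih, Psi_X', TT_mul, one_mul, Finsupp.single_add]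
  have h : (monomial δ r : MvPolynomial (Sg N A Λ) ℂ) = C r * monomial δ 1 := by
    rw [C_mul_monomial, mul_one]
  rw [h, map_mul, key1, Psi_C, ← TT_zero c ref lam, TT_mul, zero_add, mul_one]

theorem sep_inj (c : Finset (Fin N)) (ref : Fin N → A) (lam : Λ) (γ δ : Sg N A Λ →₀ ℕ)
    (h1 : spec c ref lam γ = spec c ref lam δ) (h2 : refp c ref γ = refp c ref δ)
    (h3 : γ (Sum.inr lam) = δ (Sum.inr lam)) : γ = δ := by
  ext s
  by_cases hs : IsSpec c ref lam s
  · have h := DFunLike.congr_fun h1 s
    rwa [spec_apply, spec_apply, if_pos hs, if_pos hs] at h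
  · rcases s with ⟨i, x⟩ | l
    · have h : i ∈ c ∧ x = ref i := by
        by_contra h
        exact hs h
      obtain ⟨hi, rfl⟩ := h
      have h := DFunLike.congr_fun h2 i
      rwa [refp_apply, refp_apply, if_pos hi, if_pos hi] at h
    · have h : l = lam := by
        by_contra h
        exact hs h
      rw [h, h3]

theorem coeff_Psi (c : Finset (Fin N)) (ref : Fin N → A) (lam : Λ)
    (F : MvPolynomial (Sg N A Λ) ℂ) (γ : Sg N A Λ →₀ ℕ) :
    (coeff (refp c ref γ) (coeff (spec c ref lam γ) (Psi c ref lam F))).coeff (γ (Sum.inr lam))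
      = coeff γ F := by
  induction F using MvPolynomial.induction_on' with
  | monomial δ r =>
    rw [Psi_monomial, TT, coeff_monomial]
    by_cases h : δ = γ
    · subst h
      rw [if_pos rfl, coeff_monomial, if_pos rfl, Polynomial.coeff_monomial, if_pos rfl,
        coeff_monomial, if_pos rfl]
    · rw [coeff_monomial, if_neg h]
      split_ifs with h1
      · rw [coeff_monomial]
        split_ifs with h2
        · rw [Polynomial.coeff_monomial]
          split_ifs with h3
          · exact absurd (sep_inj c ref lam δ γ h1 h2 h3) h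
          · rfl
        · rfl
      · rw [coeff_zero]; rfl
  | add p q hp hq =>
    rw [map_add, coeff_add, coeff_add, Polynomial.coeff_add, hp, hq, coeff_add]

theorem coeff_Psi_zero (c : Finset (Fin N)) (ref : Fin N → A) (lam : Λ)
    (F : MvPolynomial (Sg N A Λ) ℂ) (σ : Sg N A Λ →₀ ℕ) (b : Fin N →₀ ℕ)
    (i : Fin N) (hi : i ∉ c) (hb : b i ≠ 0) :
    coeff b (coeff σ (Psi c ref lam F)) = 0 := by
  induction F using MvPolynomial.induction_on' with
  | monomial δ r =>
    rw [Psi_monomial, TT, coeff_monomial]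
    split_ifs with h1
    · rw [coeff_monomial, if_neg]
      intro h
      apply hb
      rw [← h, refp_apply, if_neg hi]
    · rfl
  | add p q hp hq =>
    rw [map_add, coeff_add, coeff_add, hp, hq, add_zero]

/-- The exponent vector with given parts. -/
noncomputable def mk (c : Finset (Fin N)) (ref : Fin N → A) (lam : Λ)
    (σ : Sg N A Λ →₀ ℕ) (b : Fin N →₀ ℕ) (j : ℕ) : Sg N A Λ →₀ ℕ :=
  Finsupp.equivFunOnFinite.symm (Sum.elim
    (fun x => if x.1 ∈ c ∧ x.2 = ref x.1 then b x.1 else σ (Sum.inl x))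
    (fun l => if l = lam then j else σ (Sum.inr l)))

theorem mk_inl (c : Finset (Fin N)) (ref : Fin N → A) (lam : Λ)
    (σ : Sg N A Λ →₀ ℕ) (b : Fin N →₀ ℕ) (j : ℕ) (x : Fin N × A) :
    mk c ref lam σ b j (Sum.inl x) = if x.1 ∈ c ∧ x.2 = ref x.1 then b x.1 else σ (Sum.inl x) :=
  rfl

theorem mk_inr (c : Finset (Fin N)) (ref : Fin N → A) (lam : Λ)
    (σ : Sg N A Λ →₀ ℕ) (b : Fin N →₀ ℕ) (j : ℕ) (l : Λ) :
    mk c ref lam σ b j (Sum.inr l) = if l = lam then j else σ (Sum.inr l) :=
  rfl

theorem spec_mk (c : Finset (Fin N)) (ref : Fin N → A) (lam : Λ)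
    (γ : Sg N A Λ →₀ ℕ) (b : Fin N →₀ ℕ) (j : ℕ) :
    spec c ref lam (mk c ref lam (spec c ref lam γ) b j) = spec c ref lam γ := by
  ext s
  rw [spec_apply]
  rcases s with ⟨i, x⟩ | l
  · rw [mk_inl]
    by_cases h : i ∈ c ∧ x = ref i
    · rw [if_pos h, if_neg (show ¬ IsSpec c ref lam (Sum.inl (i, x)) from fun h' => h' h),
        spec_apply, if_neg (show ¬ IsSpec c ref lam (Sum.inl (i, x)) from fun h' => h' h)]
    · rw [if_neg h, if_pos (show IsSpec c ref lam (Sum.inl (i, x)) from h)]
  · rw [mk_inr]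
    by_cases h : l = lam
    · rw [if_pos h, if_neg (show ¬ IsSpec c ref lam (Sum.inr l) from fun h' => h' h),
        spec_apply, if_neg (show ¬ IsSpec c ref lam (Sum.inr l) from fun h' => h' h)]
    · rw [if_neg h, if_pos (show IsSpec c ref lam (Sum.inr l) from h)]

theorem refp_mk (c : Finset (Fin N)) (ref : Fin N → A) (lam : Λ)
    (σ : Sg N A Λ →₀ ℕ) (b : Fin N →₀ ℕ) (j : ℕ) (hb : ∀ i, i ∉ c → b i = 0) :
    refp c ref (mk c ref lam σ b j) = b := by
  ext i
  rw [refp_apply]
  by_cases hi : i ∈ c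
  · rw [if_pos hi, mk_inl, if_pos ⟨hi, rfl⟩]
  · rw [if_neg hi, hb i hi]

/-- The degree of the spectators in a block. -/
noncomputable def om (c : Finset (Fin N)) (ref : Fin N → A) (lam : Λ) (γ : Sg N A Λ →₀ ℕ)
    (i : Fin N) : ℕ := ∑ a, spec c ref lam γ (Sum.inl (i, a))

theorem bdeg_mk (c : Finset (Fin N)) (ref : Fin N → A) (lam : Λ)
    (γ : Sg N A Λ →₀ ℕ) (b : Fin N →₀ ℕ) (j : ℕ) (hb : ∀ i, i ∉ c → b i = 0) (i : Fin N) :
    bdeg (mk c ref lam (spec c ref lam γ) b j) i = b i + om c ref lam γ i := by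
  unfold bdeg om
  by_cases hi : i ∈ c
  · rw [← Finset.add_sum_erase _ _ (Finset.mem_univ (ref i)),
      ← Finset.add_sum_erase _ (fun a => spec c ref lam γ (Sum.inl (i, a)))
        (Finset.mem_univ (ref i)), mk_inl, if_pos ⟨hi, rfl⟩, spec_apply,
      if_neg (show ¬ IsSpec c ref lam (Sum.inl (i, ref i)) from fun h' => h' ⟨hi, rfl⟩), zero_add]
    congr 1
    apply Finset.sum_congr rfl
    intro a ha
    rw [mk_inl, if_neg]
    intro h
    exact Finset.ne_of_mem_erase ha h.2
  · rw [hb i hi, zero_add]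
    apply Finset.sum_congr rfl
    intro a _
    rw [mk_inl, if_neg]
    intro h
    exact hi h.1

theorem mk_self (c : Finset (Fin N)) (ref : Fin N → A) (lam : Λ)
    (γ : Sg N A Λ →₀ ℕ) :
    mk c ref lam (spec c ref lam γ) (refp c ref γ) (γ (Sum.inr lam)) = γ := by
  have hb : ∀ i, i ∉ c → refp c ref γ i = 0 := by
    intro i hi
    rw [refp_apply, if_neg hi]
  apply sep_inj c ref lam
  · exact spec_mk c ref lam γ _ _
  · exact refp_mk c ref lam _ _ _ hb
  · rw [mk_inr, if_pos rfl]

theorem bdeg_eq (c : Finset (Fin N)) (ref : Fin N → A) (lam : Λ)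
    (γ : Sg N A Λ →₀ ℕ) (i : Fin N) :
    bdeg γ i = refp c ref γ i + om c ref lam γ i := by
  have hb : ∀ i, i ∉ c → refp c ref γ i = 0 := by
    intro i hi
    rw [refp_apply, if_neg hi]
  have h := bdeg_mk c ref lam γ (refp c ref γ) (γ (Sum.inr lam)) hb i
  rwa [mk_self] at h

theorem om_zero_card (c : Finset (Fin N)) (ref : Fin N → A) (lam : Λ)
    (γ : Sg N A Λ →₀ ℕ) :
    (c.filter (fun i => om c ref lam γ i = 0)).card = pureCount c ref γ := by
  unfold pureCount
  congr 1
  apply Finset.filter_congr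
  intro i hi
  unfold om
  rw [Finset.sum_eq_zero_iff]
  constructor
  · intro h a ha
    have := h a (Finset.mem_univ a)
    rwa [spec_apply, if_pos] at this
    intro h'
    exact ha h'.2
  · intro h a _
    rw [spec_apply]
    split_ifs with h1
    · apply h
      intro h2
      exact h1 ⟨hi, h2⟩
    · rfl

theorem lin_vec (c : Finset (Fin N)) (ref : Fin N → A) (v : Fin N → A → ℂ) (lam : Λ) :
    lin (vec c v (Pi.single lam 1)) =
      sbt c ref v (∑ i ∈ c, X (Sum.inl (i, ref i)) + X (Sum.inr lam)) := by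
  unfold lin
  rw [map_add, map_sum, BlockAX.sbt_X_inr, Fintype.sum_sum_type]
  congr 1
  · rw [Fintype.sum_prod_type, ← Finset.sum_subset (Finset.subset_univ c)]
    · apply Finset.sum_congr rfl
      intro i hi
      rw [BlockAX.sbt_X_inl_of c ref v i hi]
      apply Finset.sum_congr rfl
      intro a _
      simp only [vec, Sum.elim_inl, if_pos hi]
    · intro i _ hi
      apply Finset.sum_eq_zero
      intro a _
      simp only [vec, Sum.elim_inl, if_neg hi, C_0, zero_mul]
  · rw [Finset.sum_eq_single lam]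
    · simp only [vec, Sum.elim_inr, Pi.single_eq_same, C_1, one_mul]
    · intro l _ hl
      simp only [vec, Sum.elim_inr, Pi.single_eq_of_ne hl, C_0, zero_mul]
    · intro h
      exact absurd (Finset.mem_univ _) h

theorem Psi_L (c : Finset (Fin N)) (ref : Fin N → A) (lam : Λ) :
    Psi c ref lam (∑ i ∈ c, X (Sum.inl (i, ref i)) + X (Sum.inr lam)) =
      C ((∑ i ∈ c, X i) + C Polynomial.X) := by
  rw [map_add, map_sum, map_add, map_sum, Psi_X, Sum.elim_inr, if_pos rfl]
  congr 1
  apply Finset.sum_congr rfl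
  intro i hi
  rw [Psi_X, Sum.elim_inl, if_pos ⟨hi, rfl⟩]

end LeadSX

open LeadSX

/-- The leading structure of a multiple of the power of the linear form of a point. -/
theorem lead_struct (c : Finset (Fin N)) (ref : Fin N → A) (v : Fin N → A → ℂ)
    (hv : ∀ i ∈ c, v i (ref i) ≠ 0) (lam : Λ) (g : MvPolynomial (Sg N A Λ) ℂ) (a : Fin N → ℕ)
    (hlow : ∀ γ, key (bdeg γ) < key a →
      coeff γ (g * lin (vec c v (Pi.single lam 1)) ^ c.card) = 0) :
    ∃ ft : MvPolynomial (Sg N A Λ) ℂ,
      sbt c ref v ft = g * lin (vec c v (Pi.single lam 1)) ^ c.card ∧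
      ∀ γ, bdeg γ = a → coeff γ ft ≠ 0 →
        (∀ i ∈ c, a i ≠ 0) ∧ c.card ≤ γ (Sum.inr lam) + pureCount c ref γ := by
  set f := g * lin (vec c v (Pi.single lam 1)) ^ c.card with hf
  set ft := BlockAX.theta c ref v f with hft
  have hsbt : sbt c ref v ft = f := BlockAX.sbt_theta c ref v hv f
  refine ⟨ft, hsbt, ?_⟩
  have hft2 : ft = BlockAX.theta c ref v g *
      (∑ i ∈ c, X (Sum.inl (i, ref i)) + X (Sum.inr lam)) ^ c.card := by
    rw [hft, hf, map_mul, map_pow, lin_vec c ref v lam, BlockAX.theta_sbt c ref v hv]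
  -- low coefficients of `ft`
  have hlow' : ∀ γ, key (bdeg γ) < key a → coeff γ ft = 0 := by
    intro γ hγ
    have h1 : comp (bdeg γ) (fun l => γ (Sum.inr l)) f = 0 := by
      ext δ
      rw [coeff_comp, coeff_zero]
      split_ifs with h
      · apply hlow
        rw [h.1]
        exact hγ
      · rfl
    rw [← hsbt, comp_sbt] at h1
    have h2 : comp (bdeg γ) (fun l => γ (Sum.inr l)) ft = 0 := by
      apply sbt_injective c ref v hv
      rw [h1, map_zero]
    have h3 := coeff_comp (bdeg γ) (fun l => γ (Sum.inr l)) ft γ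
    rw [h2, coeff_zero, if_pos ⟨rfl, rfl⟩] at h3
    exact h3.symm
  intro γ hγa hγ
  set Q : MvPolynomial (Fin N) (Polynomial ℂ) :=
    coeff (spec c ref lam γ) (Psi c ref lam ft) with hQ
  have hdiv : ((∑ i ∈ c, X i) + C Polynomial.X) ^ c.card ∣ Q := by
    rw [hQ, hft2, map_mul, map_pow, Psi_L, ← map_pow, mul_comm, coeff_C_mul]
    exact dvd_mul_right _ _
  have hb : coeff (refp c ref γ) Q ≠ 0 := by
    intro h
    apply hγ
    rw [← coeff_Psi c ref lam ft γ, ← hQ, h, Polynomial.coeff_zero]
  have hkey : (fun i => refp c ref γ i + om c ref lam γ i) = a := by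
    rw [← hγa]
    funext i
    rw [bdeg_eq c ref lam γ i]
  obtain ⟨h1, h2⟩ := lead_lemma (R := Polynomial ℂ) N c (om c ref lam γ) Polynomial.X
    Polynomial.X_ne_zero c.card (Finset.card_filter_le _ _) Q hdiv (refp c ref γ) hb (by
      intro b' hb'
      rw [hkey] at hb'
      by_cases hsupp : ∀ i, i ∉ c → b' i = 0
      · ext j
        rw [Polynomial.coeff_zero]
        have h3 := coeff_Psi c ref lam ft (mk c ref lam (spec c ref lam γ) b' j)
        rw [spec_mk, refp_mk _ _ _ _ _ _ hsupp, mk_inr, if_pos rfl] at h3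
        rw [hQ, h3]
        apply hlow'
        have h4 : bdeg (mk c ref lam (spec c ref lam γ) b' j)
            = fun i => b' i + om c ref lam γ i := by
          funext i
          exact bdeg_mk c ref lam γ b' j hsupp i
        rw [h4]
        exact hb'
      · push Not at hsupp
        obtain ⟨i, hi, hbi⟩ := hsupp
        exact coeff_Psi_zero c ref lam ft _ b' i hi hbi)
  refine ⟨?_, ?_⟩
  · intro i hi
    have := h1 i hi
    rwa [congrFun hkey i] at this
  · rw [om_zero_card] at h2
    by_contra hlt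
    push Not at hlt
    apply hγ
    rw [← coeff_Psi c ref lam ft γ, ← hQ]
    obtain ⟨q, hq⟩ := h2
    rw [hq, Polynomial.coeff_X_pow_mul']
    rw [if_neg]
    omega

end Pool.Agent.H21.HD

end

section

/-!
From columns to PhiInj.
-/

namespace Pool.Agent.H21.HD

open MvPolynomial
open scoped Classical

variable {N : ℕ} {A Λ P : Type} [Fintype A] [Fintype Λ] [Fintype P]

private theorem PhiColX_coeff_lin {σ : Type} [Fintype σ] (v : σ → ℂ) (γ : σ →₀ ℕ)
    (h : coeff γ (lin v) ≠ 0) : ∃ s, v s ≠ 0 ∧ γ = Finsupp.single s 1 := by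
  unfold lin at h
  rw [coeff_sum] at h
  obtain ⟨s, -, hs⟩ := Finset.exists_ne_zero_of_sum_ne_zero h
  rw [coeff_C_mul, coeff_X] at hs
  refine ⟨s, left_ne_zero_of_mul hs, ?_⟩
  by_contra hne
  apply right_ne_zero_of_mul hs
  rw [if_neg (fun h' => hne h'.symm)]

private theorem PhiColX_lin_single {σ : Type} [Fintype σ] (v : σ → ℂ) (s : σ) :
    coeff (Finsupp.single s 1) (lin v) = v s := by
  unfold lin
  rw [coeff_sum, Finset.sum_eq_single s]
  · rw [coeff_C_mul, coeff_X, if_pos rfl, mul_one]
  · intro t _ hts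
    rw [coeff_C_mul, coeff_X, if_neg, mul_zero]
    intro h'
    exact hts ((Finsupp.single_left_injective one_ne_zero) h')
  · intro h'
    exact absurd (Finset.mem_univ s) h'

private theorem PhiColX_lin_hom {σ : Type} [Fintype σ] (v : σ → ℂ) :
    (lin v).IsHomogeneous 1 := by
  unfold lin
  apply IsHomogeneous.sum
  intro s _
  have := (isHomogeneous_C σ (v s)).mul (isHomogeneous_X ℂ s)
  rwa [zero_add] at this

private theorem PhiColX_pow_supp {σ : Type} [Fintype σ] (v : σ → ℂ) (e : ℕ) (γ : σ →₀ ℕ)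
    (h : coeff γ (lin v ^ e) ≠ 0) (s : σ) (hs : γ s ≠ 0) : v s ≠ 0 := by
  induction e generalizing γ with
  | zero =>
    rw [pow_zero, coeff_one] at h
    have : (0 : σ →₀ ℕ) = γ := by
      by_contra hne
      exact h (if_neg hne)
    rw [← this] at hs
    exact absurd rfl hs
  | succ n ih =>
    rw [pow_succ, coeff_mul] at h
    obtain ⟨x, hx, hxn⟩ := Finset.exists_ne_zero_of_sum_ne_zero h
    replace hx := Finset.HasAntidiagonal.mem_antidiagonal.1 hx
    have h1 := left_ne_zero_of_mul hxn
    have h2 := right_ne_zero_of_mul hxn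
    obtain ⟨t, ht, hxt⟩ := PhiColX_coeff_lin v x.2 h2
    by_cases hst : x.1 s ≠ 0
    · exact ih x.1 h1 hst
    · push Not at hst
      rw [← hx, Finsupp.add_apply, hst, zero_add, hxt] at hs
      have : t = s := by
        by_contra hne
        exact hs (Finsupp.single_eq_of_ne (fun h' => hne h'.symm))
      rw [← this]
      exact ht

private theorem PhiColX_bdeg_degree (γ : Sg N A Λ →₀ ℕ) :
    ∑ i, bdeg γ i + ∑ l, γ (Sum.inr l) = γ.degree := by
  unfold bdeg
  rw [Finsupp.degree_eq_sum, Fintype.sum_sum_type, Fintype.sum_prod_type]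

omit [Fintype Λ] in
private theorem PhiColX_bsupp (γ : Sg N A Λ →₀ ℕ) (i : Fin N) :
    i ∈ bsupp γ ↔ ∃ a, γ (Sum.inl (i, a)) ≠ 0 := by
  unfold bsupp bdeg
  rw [Finset.mem_filter]
  simp only [Finset.mem_univ, true_and]
  constructor
  · intro h
    by_contra hcon
    push Not at hcon
    exact h (Finset.sum_eq_zero fun a _ => hcon a)
  · rintro ⟨a, ha⟩ h
    rw [Finset.sum_eq_zero_iff] at h
    exact ha (h a (Finset.mem_univ a))

/-- `PhiInj` from the injectivity in all columns, for points with distinct labels; here all the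
sets `c p` are contained in `J`. -/
theorem phiInj_of_col (d : ℕ) (J : Finset (Fin N)) (c : P → Finset (Fin N)) (hc : ∀ p, c p ⊆ J)
    (hcd : ∀ p, (c p).card ≤ d) (lab : P → Λ) (v : P → Fin N → A → ℂ)
    (hv : ∀ p i a, v p i a ≠ 0)
    (h : ∀ (a : Fin N → ℕ) (μ : Λ → ℕ), Finset.univ.filter (fun i => a i ≠ 0) = J →
      ∑ i, a i + ∑ l, μ l = d → ∃ ref : P → Fin N → A, ColInj c lab ref a μ v) :
    PhiInj d J c v (fun p => Pi.single (lab p) 1) := by
  intro g hg hgJ hsum
  by_contra hcon
  push Not at hcon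
  obtain ⟨p₁, hp₁⟩ := hcon
  -- the products
  set L : P → MvPolynomial (Sg N A Λ) ℂ :=
    fun p => lin (vec (c p) (v p) (Pi.single (lab p) 1)) with hL
  set f : P → MvPolynomial (Sg N A Λ) ℂ := fun p => g p * L p ^ (c p).card with hf
  have hL0 : ∀ p, L p ≠ 0 := by
    intro p h0
    have h1 := PhiColX_lin_single (vec (c p) (v p) (Pi.single (lab p) 1)) (Sum.inr (lab p))
    have h2 : lin (vec (c p) (v p) (Pi.single (lab p) 1)) = 0 := h0
    rw [h2, coeff_zero] at h1
    simp [vec] at h1
  have hf1 : f p₁ ≠ 0 := mul_ne_zero hp₁ (pow_ne_zero _ (hL0 p₁))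
  -- the supports
  have hfhom : ∀ p, (f p).IsHomogeneous d := by
    intro p
    have h1 := (hg p).mul ((PhiColX_lin_hom
      (vec (c p) (v p) (Pi.single (lab p) 1))).pow (c p).card)
    rw [one_mul, Nat.sub_add_cancel (hcd p)] at h1
    exact h1
  -- minimal key
  obtain ⟨x₀, hx₀, hmin⟩ : ∃ x₀ : (p : P) × (Sg N A Λ →₀ ℕ),
      coeff x₀.2 (f x₀.1) ≠ 0 ∧ ∀ p γ, key (bdeg γ) < key (bdeg x₀.2) → coeff γ (f p) = 0 := by
    let S : Finset ((p : P) × (Sg N A Λ →₀ ℕ)) := Finset.univ.sigma (fun p => (f p).support)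
    have hS : S.Nonempty := by
      obtain ⟨γ, hγ⟩ := MvPolynomial.ne_zero_iff.1 hf1
      exact ⟨⟨p₁, γ⟩, by
        rw [Finset.mem_sigma]
        exact ⟨Finset.mem_univ _, MvPolynomial.mem_support_iff.2 hγ⟩⟩
    obtain ⟨x₀, hx₀, hmin⟩ := S.exists_min_image (fun x => key (bdeg x.2)) hS
    refine ⟨x₀, MvPolynomial.mem_support_iff.1 (Finset.mem_sigma.1 hx₀).2, ?_⟩
    intro p γ hlt
    by_contra hne
    have h1 := hmin ⟨p, γ⟩ (by
      rw [Finset.mem_sigma]
      exact ⟨Finset.mem_univ _, MvPolynomial.mem_support_iff.2 hne⟩)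
    exact absurd hlt (not_lt.2 h1)
  obtain ⟨p₀, γ₀⟩ := x₀
  simp only at hx₀ hmin
  set a : Fin N → ℕ := bdeg γ₀ with ha
  set μ : Λ → ℕ := fun l => γ₀ (Sum.inr l) with hμ
  -- decomposition of γ₀
  obtain ⟨γ₁, γ₂, hγ12, hγ1, hγ2⟩ : ∃ γ₁ γ₂, γ₁ + γ₂ = γ₀ ∧ coeff γ₁ (g p₀) ≠ 0 ∧
      coeff γ₂ (L p₀ ^ (c p₀).card) ≠ 0 := by
    have h1 := hx₀
    rw [hf] at h1
    simp only at h1
    rw [coeff_mul] at h1
    obtain ⟨x, hx, hxn⟩ := Finset.exists_ne_zero_of_sum_ne_zero h1
    replace hx := Finset.HasAntidiagonal.mem_antidiagonal.1 hx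
    exact ⟨x.1, x.2, hx, left_ne_zero_of_mul hxn, right_ne_zero_of_mul hxn⟩
  have hJ1 := hgJ p₀ γ₁ hγ1
  have hb2 : bsupp γ₂ ⊆ c p₀ := by
    intro i hi
    rw [PhiColX_bsupp] at hi
    obtain ⟨b, hb⟩ := hi
    have h1 := PhiColX_pow_supp _ _ γ₂ hγ2 (Sum.inl (i, b)) hb
    by_contra hic
    apply h1
    simp [vec, hic]
  have hb0 : bsupp γ₀ = bsupp γ₁ ∪ bsupp γ₂ := by
    ext i
    rw [Finset.mem_union, PhiColX_bsupp, PhiColX_bsupp, PhiColX_bsupp, ← exists_or]
    apply exists_congr
    intro b
    rw [← hγ12, Finsupp.add_apply]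
    omega
  have hdeg0 : γ₀.degree = d := by
    have h1 := hfhom p₀ hx₀
    rwa [Finsupp.degree_eq_weight_one]
  -- a first reference function
  obtain ⟨ref₀, -⟩ : ∃ ref : P → Fin N → A, ColInj c lab ref
      (fun i => if i ∈ J then 1 else 0) (fun l => if l = lab p₀ then d - J.card else 0) v := by
    apply h
    · ext i
      rw [Finset.mem_filter]
      simp
    · have hcard : J.card ≤ d := by
        have h1 : γ₁.degree = d - (c p₀).card := by
          have h2 := hg p₀ hγ1
          rwa [Finsupp.degree_eq_weight_one]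
        have h3 : (bsupp γ₁).card ≤ γ₁.degree := by
          rw [← PhiColX_bdeg_degree γ₁]
          calc (bsupp γ₁).card = ∑ i ∈ bsupp γ₁, 1 := by simp
            _ ≤ ∑ i ∈ bsupp γ₁, bdeg γ₁ i := by
              apply Finset.sum_le_sum
              intro i hi
              unfold bsupp at hi
              rw [Finset.mem_filter] at hi
              omega
            _ ≤ ∑ i, bdeg γ₁ i := Finset.sum_le_sum_of_subset (Finset.subset_univ _)
            _ ≤ _ := Nat.le_add_right _ _
        have h4 := hcd p₀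
        have h5 : J.card ≤ (bsupp γ₁).card + (c p₀).card := by
          rw [← hJ1]
          exact Finset.card_union_le _ _
        omega
      rw [Finset.sum_ite_mem, Finset.univ_inter, Finset.sum_ite_eq' Finset.univ (lab p₀)]
      simp
      omega
  -- the first claim
  have hne_comp : comp a μ (f p₀) ≠ 0 := by
    intro h0
    have h1 := coeff_comp a μ (f p₀) γ₀
    rw [h0, coeff_zero, if_pos ⟨ha.symm, hμ.symm⟩] at h1
    exact hx₀ h1.symm
  have hc0 : ∀ i ∈ c p₀, a i ≠ 0 := by
    obtain ⟨ft, hft, hst⟩ := lead_struct (c p₀) (ref₀ p₀) (v p₀) (fun i _ => hv p₀ i _) (lab p₀)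
      (g p₀) a (fun γ hγ => hmin p₀ γ hγ)
    have h1 : comp a μ ft ≠ 0 := by
      intro h0
      apply hne_comp
      have h2 : f p₀ = sbt (c p₀) (ref₀ p₀) (v p₀) ft := hft.symm
      rw [h2, comp_sbt, h0, map_zero]
    obtain ⟨γ, hγ⟩ := MvPolynomial.ne_zero_iff.1 h1
    rw [coeff_comp] at hγ
    have h2 : bdeg γ = a ∧ (fun l => γ (Sum.inr l)) = μ := by
      by_contra hne
      exact hγ (if_neg hne)
    rw [if_pos h2] at hγ
    exact (hst γ h2.1 hγ).1
  have haJ : Finset.univ.filter (fun i => a i ≠ 0) = J := by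
    have h1 : Finset.univ.filter (fun i => a i ≠ 0) = bsupp γ₀ := rfl
    rw [h1]
    apply Finset.Subset.antisymm
    · rw [hb0, ← hJ1]
      exact Finset.union_subset_union_right hb2
    · rw [← hJ1]
      apply Finset.union_subset
      · rw [hb0]
        exact Finset.subset_union_left
      · intro i hi
        rw [← h1, Finset.mem_filter]
        exact ⟨Finset.mem_univ i, hc0 i hi⟩
  have hsumd : ∑ i, a i + ∑ l, μ l = d := by
    rw [← hdeg0, ← PhiColX_bdeg_degree γ₀]
  obtain ⟨ref, hcol⟩ := h a μ haJ hsumd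
  -- leading structures for all points
  have hex : ∀ p, ∃ ft : MvPolynomial (Sg N A Λ) ℂ, sbt (c p) (ref p) (v p) ft = f p ∧
      ∀ γ, bdeg γ = a → coeff γ ft ≠ 0 →
        (∀ i ∈ c p, a i ≠ 0) ∧
          (c p).card ≤ γ (Sum.inr (lab p)) + pureCount (c p) (ref p) γ := fun p =>
    lead_struct (c p) (ref p) (v p) (fun i _ => hv p i _) (lab p) (g p) a
      (fun γ hγ => hmin p γ hγ)
  choose ft hft hst using hex
  have hAdm : Adm c lab ref a μ (fun p => comp a μ (ft p)) := by
    intro p γ hγ
    rw [coeff_comp] at hγ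
    have h2 : bdeg γ = a ∧ (fun l => γ (Sum.inr l)) = μ := by
      by_contra hne
      exact hγ (if_neg hne)
    rw [if_pos h2] at hγ
    refine ⟨h2.1, h2.2, ?_⟩
    have h3 := (hst p γ h2.1 hγ).2
    have h4 : γ (Sum.inr (lab p)) = μ (lab p) := congrFun h2.2 (lab p)
    rwa [h4] at h3
  have hzero : ∑ p, sbt (c p) (ref p) (v p) (comp a μ (ft p)) = 0 := by
    have h1 : ∀ p, sbt (c p) (ref p) (v p) (comp a μ (ft p)) = comp a μ (f p) := by
      intro p
      rw [← comp_sbt, hft p]
    rw [Finset.sum_congr rfl (fun p _ => h1 p), ← map_sum]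
    ext γ
    rw [coeff_comp, coeff_zero]
    split_ifs with h2
    · apply hsum γ
      rw [← haJ, ← h2.1]
      rfl
    · rfl
  have hfin := hcol _ hAdm hzero p₀
  apply hne_comp
  rw [← hft p₀, comp_sbt]
  rw [hfin, map_zero]

end Pool.Agent.H21.HD

end
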