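import Pool.Agent.H94.LP7.M09
import Pool.Agent.H94.LP7.M20

/-! The parts of this file: H21.HD.GoodOpen, H21.HD.InjStep, H21.HD.SpanOpen, H21.HD.SpanSplit, H21.HD.SpanStep, H21.HD.SpanT. -/

section

/-!
Good is open.
-/

namespace Pool.Agent.H21.HD

open MvPolynomial
open scoped Classical

namespace GoodOpenX

/-- The functions that depend only on the coordinates in `T`. -/
noncomputable def depSub {ι : Type*} (B : ι → Type*) (T : Finset ι) :
    Submodule ℂ ((∀ i, B i) → ℂ) where
  carrier := {f | DepOn T f}
  add_mem' := by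
    intro f g hf hg x y hxy
    simp only [Pi.add_apply]
    rw [hf x y hxy, hg x y hxy]
  zero_mem' := by
    intro x y _
    rfl
  smul_mem' := by
    intro c f hf x y hxy
    simp only [Pi.smul_apply]
    rw [hf x y hxy]

/-- The functions that depend only on the coordinates in `J`, supported on `S`. -/
noncomputable def supSub {ι : Type*} (B : ι → Type*) (J : Finset ι) (S : (∀ i, B i) → Prop) :
    Submodule ℂ ((∀ i, B i) → ℂ) where
  carrier := {f | DepOn J f ∧ ∀ y, f y ≠ 0 → S y}
  add_mem' := by
    rintro f g ⟨hf, hf'⟩ ⟨hg, hg'⟩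
    refine ⟨?_, ?_⟩
    · intro x y hxy
      simp only [Pi.add_apply]
      rw [hf x y hxy, hg x y hxy]
    · intro y hy
      by_cases h0 : f y = 0
      · refine hg' y fun h1 => hy ?_
        simp only [Pi.add_apply]
        rw [h0, h1, add_zero]
      · exact hf' y h0
  zero_mem' := by
    refine ⟨fun x y _ => rfl, ?_⟩
    intro y hy
    exact absurd rfl hy
  smul_mem' := by
    rintro c f ⟨hf, hf'⟩
    refine ⟨?_, ?_⟩
    · intro x y hxy
      simp only [Pi.smul_apply]
      rw [hf x y hxy]
    · intro y hy
      refine hf' y fun h0 => hy ?_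
      simp only [Pi.smul_apply]
      rw [h0, smul_zero]

/-- The linear map attached to the parameters `x`. -/
noncomputable def goodMap {ι A α : Type} {B : ι → Type} [Fintype ι] [∀ i, Fintype (B i)]
    (N : ∀ i, B i → MvPolynomial A ℂ) (J : Finset ι) (P Q : Finset α) (c : α → Finset ι)
    (S : α → (∀ i, B i) → Prop) (x : α × ι × A → ℂ) :
    ((∀ p : P, depSub B (J \ c p)) × (∀ q : Q, supSub B J (S q))) →ₗ[ℂ] ((∀ i, B i) → ℂ) where
  toFun κ := fun y => ∑ p : P, (∏ i ∈ c p, eval (fun a => x (p.1, i, a)) (N i (y i))) *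
      (κ.1 p).1 y + ∑ q : Q, (κ.2 q).1 y
  map_add' := by
    intro κ κ'
    funext y
    simp only [Prod.fst_add, Prod.snd_add, Pi.add_apply, Submodule.coe_add, mul_add,
      Finset.sum_add_distrib]
    ring
  map_smul' := by
    intro r κ
    funext y
    simp only [Prod.smul_fst, Prod.smul_snd, Pi.smul_apply, Submodule.coe_smul, smul_eq_mul,
      RingHom.id_apply, mul_add, Finset.mul_sum]
    congr 1
    refine Finset.sum_congr rfl fun p _ => ?_
    ring

theorem goodMap_apply {ι A α : Type} {B : ι → Type} [Fintype ι] [∀ i, Fintype (B i)]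
    (N : ∀ i, B i → MvPolynomial A ℂ) (J : Finset ι) (P Q : Finset α) (c : α → Finset ι)
    (S : α → (∀ i, B i) → Prop) (x : α × ι × A → ℂ)
    (κ : (∀ p : P, depSub B (J \ c p)) × (∀ q : Q, supSub B J (S q))) (y : ∀ i, B i) :
    goodMap N J P Q c S x κ y =
      ∑ p : P, (∏ i ∈ c p, eval (fun a => x (p.1, i, a)) (N i (y i))) *
        (κ.1 p).1 y + ∑ q : Q, (κ.2 q).1 y := rfl

theorem polyFun_eval {ι A α : Type} (M : MvPolynomial A ℂ) (p : α) (i : ι) :
    PolyFun (fun x : α × ι × A → ℂ => eval (fun a => x (p, i, a)) M) := by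
  refine ⟨rename (fun a => (p, i, a)) M, fun x => ?_⟩
  rw [eval_rename]
  rfl

end GoodOpenX

open GoodOpenX in
/-- `Good` is an open condition. -/
theorem good_open {ι A α : Type} {B : ι → Type} [Fintype ι] [∀ i, Fintype (B i)]
    [∀ i, Nonempty (B i)] (pt : ∀ i, A → B i) (N : ∀ i, B i → MvPolynomial A ℂ)
    (J : Finset ι) (P Q : Finset α) (c : α → Finset ι) (f : α → ℕ) (ref : α → ι → A)
    (hPQ : Disjoint P Q) (v₀ : α → ι → A → ℂ) (h : Good pt N J P Q c f ref v₀) :
    ∃ G : MvPolynomial (α × ι × A) ℂ, G ≠ 0 ∧ ∀ v : α → ι → A → ℂ,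
      eval (fun x => v x.1 x.2.1 x.2.2) G ≠ 0 → Good pt N J P Q c f ref v := by
  set S : α → (∀ i, B i) → Prop := fun q y =>
    f q ≤ ((c q).filter (fun i => y i = pt i (ref q i))).card with hS
  have hT : ∀ (κ : (∀ p : P, depSub B (J \ c p)) × (∀ q : Q, supSub B J (S q)))
      (y : ∀ i, B i), PolyFun (fun x => goodMap N J P Q c S x κ y) := by
    intro κ y
    simp only [goodMap_apply]
    refine PolyFun.add ?_ (PolyFun.const _)
    refine PolyFun.sum _ _ fun p _ => ?_
    refine PolyFun.mul ?_ (PolyFun.const _)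
    exact PolyFun.prod _ (fun i x => eval (fun a => x (p.1, i, a)) (N i (y i)))
      fun i _ => polyFun_eval _ _ _
  have hinj : Function.Injective (goodMap N J P Q c S (fun x => v₀ x.1 x.2.1 x.2.2)) := by
    rw [injective_iff_map_eq_zero]
    intro κ hκ
    have hQP : ∀ q ∈ Q, q ∉ P := fun q hq hp => Finset.disjoint_left.1 hPQ hp hq
    let κ' : α → (∀ i, B i) → ℂ := fun p =>
      if hp : p ∈ P then (κ.1 ⟨p, hp⟩).1 else if hq : p ∈ Q then (κ.2 ⟨p, hq⟩).1 else 0
    have hP' : ∀ p (hp : p ∈ P), κ' p = (κ.1 ⟨p, hp⟩).1 := by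
      intro p hp
      simp only [κ', dif_pos hp]
    have hQ' : ∀ q (hq : q ∈ Q), κ' q = (κ.2 ⟨q, hq⟩).1 := by
      intro q hq
      simp only [κ', dif_neg (hQP q hq), dif_pos hq]
    have h1 := h κ' ?_ ?_ ?_ ?_
    · obtain ⟨h2, h3⟩ := h1
      apply Prod.ext
      · funext p
        apply Subtype.ext
        have := h2 p.1 p.2
        rw [hP' p.1 p.2] at this
        exact this
      · funext q
        apply Subtype.ext
        have := h3 q.1 q.2
        rw [hQ' q.1 q.2] at this
        exact this
    · intro p hp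
      rw [hP' p hp]
      exact (κ.1 ⟨p, hp⟩).2
    · intro q hq
      rw [hQ' q hq]
      exact (κ.2 ⟨q, hq⟩).2.1
    · intro q hq y hy
      rw [hQ' q hq] at hy
      exact (κ.2 ⟨q, hq⟩).2.2 y hy
    · intro y
      have h2 := congrFun hκ y
      rw [goodMap_apply] at h2
      rw [← Finset.sum_coe_sort P
        (fun p => (∏ i ∈ c p, eval (v₀ p i) (N i (y i))) * κ' p y),
        ← Finset.sum_coe_sort Q (fun q => κ' q y)]
      refine Eq.trans ?_ h2
      congr 1
      · refine Finset.sum_congr rfl fun p _ => ?_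
        rw [hP' p.1 p.2]
      · refine Finset.sum_congr rfl fun q _ => ?_
        rw [hQ' q.1 q.2]
  obtain ⟨G, hG0, hG⟩ := open_inj (goodMap N J P Q c S) hT _ hinj
  refine ⟨G, ?_, ?_⟩
  · rintro rfl
    simp at hG0
  · intro v hv κ hκ1 hκ2 hκ3 hκ4
    have h1 := hG _ hv
    rw [injective_iff_map_eq_zero] at h1
    have h2 := h1 (⟨fun p => ⟨κ p.1, hκ1 p.1 p.2⟩, fun q => ⟨κ q.1, hκ2 q.1 q.2, hκ3 q.1 q.2⟩⟩) ?_
    · refine ⟨fun p hp => ?_, fun q hq => ?_⟩
      · have h3 := congrFun (congrArg Prod.fst h2) ⟨p, hp⟩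
        exact congrArg Subtype.val h3
      · have h3 := congrFun (congrArg Prod.snd h2) ⟨q, hq⟩
        exact congrArg Subtype.val h3
    · funext y
      rw [goodMap_apply]
      have h3 := hκ4 y
      rw [← Finset.sum_coe_sort P
        (fun p => (∏ i ∈ c p, eval (v p i) (N i (y i))) * κ p y),
        ← Finset.sum_coe_sort Q (fun q => κ q y)] at h3
      exact h3

end Pool.Agent.H21.HD

end

section

/-!
The slicing step for injectivity.
-/

namespace Pool.Agent.H21.HD

open MvPolynomial
open scoped Classical

/-- `Good` only involves the values `v p k` with `k ∈ c p`. -/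
private theorem good_congr {ι A α : Type} {B : ι → Type} (pt : ∀ i, A → B i)
    (N : ∀ i, B i → MvPolynomial A ℂ) (J : Finset ι) (P Q : Finset α) (c : α → Finset ι)
    (f : α → ℕ) (ref : α → ι → A) (v v' : α → ι → A → ℂ) (hv : ∀ p ∈ P, ∀ k ∈ c p, v p k = v' p k)
    (h : Good pt N J P Q c f ref v) : Good pt N J P Q c f ref v' := by
  intro κ h1 h2 h3 h4
  refine h κ h1 h2 h3 fun y => ?_
  rw [← h4 y]
  congr 1
  refine Finset.sum_congr rfl fun p hp => ?_
  congr 1
  exact Finset.prod_congr rfl fun k hk => by rw [hv p hp k hk]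

/-- One slicing step. The slice `y i = b` contains the ordinary points `p` with `i ∉ c p` or
`b = pt i (t p)`. -/
theorem inj_step {ι A α : Type} {B : ι → Type} [Fintype ι] [Fintype A] [∀ i, Fintype (B i)]
    [∀ i, Nonempty (B i)] (pt : ∀ i, A → B i) (N : ∀ i, B i → MvPolynomial A ℂ)
    (J : Finset ι) (i : ι) (hi : i ∈ J)
    (hN : ∀ (a : A) (b : B i), eval (Pi.single a 1) (N i b) = if b = pt i a then 1 else 0)
    (P Q : Finset α) (c : α → Finset ι) (f : α → ℕ) (ref : α → ι → A)
    (hPQ : Disjoint P Q) (hP : ∀ p ∈ P, c p ⊆ J) (hQ : ∀ q ∈ Q, c q ⊆ J) (t : α → A)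
    (h : ∀ b : B i, ∃ v : α → ι → A → ℂ,
      Good pt N (J.erase i) (P.filter (fun p => i ∈ c p → b = pt i (t p))) Q
        (fun p => (c p).erase i)
        (fun q => if i ∈ c q ∧ b = pt i (ref q i) then f q - 1 else f q) ref v) :
    ∃ v : α → ι → A → ℂ, Good pt N J P Q c f ref v := by
  -- a common choice in the directions `k ≠ i`
  have h1 : ∀ b : B i, ∃ G : MvPolynomial (α × ι × A) ℂ, G ≠ 0 ∧ ∀ v : α → ι → A → ℂ,
      eval (fun x => v x.1 x.2.1 x.2.2) G ≠ 0 →
        Good pt N (J.erase i) (P.filter (fun p => i ∈ c p → b = pt i (t p))) Q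
          (fun p => (c p).erase i)
          (fun q => if i ∈ c q ∧ b = pt i (ref q i) then f q - 1 else f q) ref v := by
    intro b
    obtain ⟨v, hv⟩ := h b
    exact good_open pt N _ _ Q _ _ ref (hPQ.mono_left (Finset.filter_subset _ _)) v hv
  choose G hG0 hG using h1
  obtain ⟨x, hx⟩ := exists_common Finset.univ G fun b _ => hG0 b
  set v₀ : α → ι → A → ℂ := fun p k a => x (p, k, a) with hv₀
  set v : α → ι → A → ℂ := fun p k => if k = i then Pi.single (t p) 1 else v₀ p k with hv
  have h2 : ∀ b : B i, Good pt N (J.erase i) (P.filter (fun p => i ∈ c p → b = pt i (t p))) Q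
      (fun p => (c p).erase i)
      (fun q => if i ∈ c q ∧ b = pt i (ref q i) then f q - 1 else f q) ref v := by
    intro b
    refine good_congr pt N _ _ Q _ _ ref v₀ v (fun p _ k hk => ?_) (hG b v₀ (hx b (Finset.mem_univ b)))
    have hk' : k ≠ i := (Finset.mem_erase.1 hk).1
    simp only [hv, if_neg hk']
  refine ⟨v, fun κ k1 k2 k3 k4 => ?_⟩
  -- the slices
  have h3 : ∀ b : B i,
      (∀ p ∈ P.filter (fun p => i ∈ c p → b = pt i (t p)),
        (fun y => κ p (Function.update y i b)) = 0) ∧
      ∀ q ∈ Q, (fun y => κ q (Function.update y i b)) = 0 := by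
    intro b
    refine h2 b (fun p y => κ p (Function.update y i b)) ?_ ?_ ?_ ?_
    · intro p hp y y' hy
      have hp' := (Finset.mem_filter.1 hp).1
      refine k1 p hp' _ _ fun k hk => ?_
      obtain ⟨hk1, hk2⟩ := Finset.mem_sdiff.1 hk
      by_cases hki : k = i
      · subst hki; simp
      · rw [Function.update_of_ne hki, Function.update_of_ne hki]
        exact hy k (Finset.mem_sdiff.2 ⟨Finset.mem_erase.2 ⟨hki, hk1⟩,
          fun h => hk2 (Finset.mem_erase.1 h).2⟩)
    · intro q hq y y' hy
      refine k2 q hq _ _ fun k hk => ?_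
      by_cases hki : k = i
      · subst hki; simp
      · rw [Function.update_of_ne hki, Function.update_of_ne hki]
        exact hy k (Finset.mem_erase.2 ⟨hki, hk⟩)
    · intro q hq y hne
      have h4 := k3 q hq _ hne
      have h5 : ((c q).filter (fun k => Function.update y i b k = pt k (ref q k))).card ≤
          (((c q).erase i).filter (fun k => y k = pt k (ref q k))).card +
            (if i ∈ c q ∧ b = pt i (ref q i) then 1 else 0) := by
        by_cases h6 : i ∈ c q ∧ b = pt i (ref q i)
        · rw [if_pos h6]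
          have : (c q).filter (fun k => Function.update y i b k = pt k (ref q k)) ⊆
              insert i (((c q).erase i).filter (fun k => y k = pt k (ref q k))) := by
            intro k hk
            obtain ⟨hk1, hk2⟩ := Finset.mem_filter.1 hk
            by_cases hki : k = i
            · subst hki; exact Finset.mem_insert_self _ _
            · rw [Function.update_of_ne hki] at hk2
              exact Finset.mem_insert_of_mem
                (Finset.mem_filter.2 ⟨Finset.mem_erase.2 ⟨hki, hk1⟩, hk2⟩)
          exact (Finset.card_le_card this).trans (Finset.card_insert_le _ _)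
        · rw [if_neg h6, add_zero]
          refine Finset.card_le_card ?_
          intro k hk
          obtain ⟨hk1, hk2⟩ := Finset.mem_filter.1 hk
          by_cases hki : k = i
          · subst hki
            rw [Function.update_self] at hk2
            exact absurd ⟨hk1, hk2⟩ h6
          · rw [Function.update_of_ne hki] at hk2
            exact Finset.mem_filter.2 ⟨Finset.mem_erase.2 ⟨hki, hk1⟩, hk2⟩
      show (if i ∈ c q ∧ b = pt i (ref q i) then f q - 1 else f q) ≤
        (((c q).erase i).filter (fun k => y k = pt k (ref q k))).card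
      split_ifs at h5 ⊢ <;> omega
    · intro y
      rw [← k4 (Function.update y i b)]
      congr 1
      rw [Finset.sum_filter]
      refine Finset.sum_congr rfl fun p _ => ?_
      have hrest : ∀ k ∈ (c p).erase i, eval (v p k) (N k (Function.update y i b k)) =
          eval (v p k) (N k (y k)) := by
        intro k hk
        rw [Function.update_of_ne (Finset.mem_erase.1 hk).1]
      by_cases hip : i ∈ c p
      · have h7 : ∏ k ∈ c p, eval (v p k) (N k (Function.update y i b k)) =
            (if b = pt i (t p) then 1 else 0) * ∏ k ∈ (c p).erase i, eval (v p k) (N k (y k)) := by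
          rw [← Finset.mul_prod_erase _ _ hip, Finset.prod_congr rfl hrest, Function.update_self]
          congr 1
          rw [← hN (t p) b]
          simp only [hv, if_true]
        rw [h7]
        by_cases hb : b = pt i (t p)
        · rw [if_pos (fun _ => hb), if_pos hb, one_mul]
        · rw [if_neg (fun h => hb (h hip)), if_neg hb, zero_mul, zero_mul]
      · rw [if_pos (fun h => absurd h hip)]
        rw [← Finset.prod_congr rfl hrest, Finset.erase_eq_of_notMem hip]
  constructor
  · intro p hp
    funext y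
    by_cases hip : i ∈ c p
    · have h4 := (h3 (pt i (t p))).1 p (Finset.mem_filter.2 ⟨hp, fun _ => rfl⟩)
      have h5 := congrFun h4 y
      simp only [Pi.zero_apply] at h5 ⊢
      rw [← h5]
      refine k1 p hp _ _ fun k hk => ?_
      have hki : k ≠ i := by
        rintro rfl
        exact (Finset.mem_sdiff.1 hk).2 hip
      rw [Function.update_of_ne hki]
    · have h4 := (h3 (y i)).1 p (Finset.mem_filter.2 ⟨hp, fun h => absurd h hip⟩)
      have h5 := congrFun h4 y
      simpa using h5
  · intro q hq
    funext y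
    have h5 := congrFun ((h3 (y i)).2 q hq) y
    simpa using h5

end Pool.Agent.H21.HD

end

section

/-!
SpanGood is open.
-/

namespace Pool.Agent.H21.HD

open MvPolynomial
open scoped Classical

namespace SpanOpenX

/-- The functions that depend only on the coordinates in `T`. -/
noncomputable def depSub {ι : Type*} (B : ι → Type*) (T : Finset ι) :
    Submodule ℂ ((∀ i, B i) → ℂ) where
  carrier := {f | DepOn T f}
  add_mem' := by
    intro f g hf hg x y hxy
    simp only [Pi.add_apply]
    rw [hf x y hxy, hg x y hxy]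
  zero_mem' := by
    intro x y _
    rfl
  smul_mem' := by
    intro c f hf x y hxy
    simp only [Pi.smul_apply]
    rw [hf x y hxy]

/-- The linear map attached to the parameters `x`. -/
noncomputable def spanMap {ι A α : Type} [Fintype ι] [Fintype A] (base : A)
    (J : Finset ι) (P : Finset α) (c : α → Finset ι) (x : α × ι × A → ℂ) :
    (∀ p : P, depSub (fun _ : ι => A) (J \ c p)) →ₗ[ℂ]
      ({y : ι → A // ∀ i, i ∉ J → y i = base} → ℂ) where
  toFun κ := fun y => ∑ p : P, (∏ i ∈ c p, x (p.1, i, y.1 i)) * (κ p).1 y.1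
  map_add' := by
    intro κ κ'
    funext y
    simp only [Pi.add_apply, Submodule.coe_add, mul_add, Finset.sum_add_distrib]
  map_smul' := by
    intro r κ
    funext y
    simp only [Pi.smul_apply, Submodule.coe_smul, smul_eq_mul, RingHom.id_apply, Finset.mul_sum]
    refine Finset.sum_congr rfl fun p _ => ?_
    ring

theorem spanMap_apply {ι A α : Type} [Fintype ι] [Fintype A] (base : A)
    (J : Finset ι) (P : Finset α) (c : α → Finset ι) (x : α × ι × A → ℂ)
    (κ : ∀ p : P, depSub (fun _ : ι => A) (J \ c p))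
    (y : {y : ι → A // ∀ i, i ∉ J → y i = base}) :
    spanMap base J P c x κ y = ∑ p : P, (∏ i ∈ c p, x (p.1, i, y.1 i)) * (κ p).1 y.1 := rfl

end SpanOpenX

open SpanOpenX in
/-- `SpanGood` is an open condition. -/
theorem spanGood_open {ι A α : Type} [Fintype ι] [Fintype A] [Nonempty A]
    (J : Finset ι) (P : Finset α) (c : α → Finset ι) (hc : ∀ p ∈ P, c p ⊆ J)
    (v₀ : α → ι → A → ℂ) (h : SpanGood J P c v₀) :
    ∃ G : MvPolynomial (α × ι × A) ℂ, G ≠ 0 ∧ ∀ v : α → ι → A → ℂ,
      eval (fun x => v x.1 x.2.1 x.2.2) G ≠ 0 → SpanGood J P c v := by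
  obtain ⟨base⟩ := ‹Nonempty A›
  have hT : ∀ (κ : ∀ p : P, depSub (fun _ : ι => A) (J \ c p))
      (y : {y : ι → A // ∀ i, i ∉ J → y i = base}),
      PolyFun (fun x => spanMap base J P c x κ y) := by
    intro κ y
    simp only [spanMap_apply]
    refine PolyFun.sum _ _ fun p _ => ?_
    refine PolyFun.mul ?_ (PolyFun.const _)
    exact PolyFun.prod _ (fun i x => x (p.1, i, y.1 i)) fun i _ => PolyFun.coord _
  have hsurj : Function.Surjective (spanMap base J P c (fun x => v₀ x.1 x.2.1 x.2.2)) := by
    intro f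
    let F : (ι → A) → ℂ := fun y => f ⟨fun i => if i ∈ J then y i else base, by
      intro i hi
      simp [hi]⟩
    have hF : DepOn J F := by
      intro x y hxy
      have : (fun i => if i ∈ J then x i else base) = fun i => if i ∈ J then y i else base := by
        funext i
        by_cases hi : i ∈ J
        · simp [hi, hxy i hi]
        · simp [hi]
      simp only [F, this]
    obtain ⟨κ, hκ1, hκ2⟩ := h F hF
    refine ⟨fun p => ⟨κ p.1, hκ1 p.1 p.2⟩, ?_⟩
    funext y
    rw [spanMap_apply]
    have h1 : f y = F y.1 := by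
      simp only [F]
      congr 1
      apply Subtype.ext
      funext i
      by_cases hi : i ∈ J
      · simp [hi]
      · simp [hi, y.2 i hi]
    rw [h1, hκ2 y.1, ← Finset.sum_coe_sort P
      (fun p => (∏ i ∈ c p, v₀ p i (y.1 i)) * κ p y.1)]
  obtain ⟨G, hG0, hG⟩ := open_surj (spanMap base J P c) hT _ hsurj
  refine ⟨G, ?_, ?_⟩
  · rintro rfl
    simp at hG0
  · intro v hv f hf
    obtain ⟨κ, hκ⟩ := hG _ hv (fun y => f y.1)
    refine ⟨fun p => if hp : p ∈ P then (κ ⟨p, hp⟩).1 else 0, ?_, ?_⟩
    · intro p hp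
      simp only [dif_pos hp]
      exact (κ ⟨p, hp⟩).2
    · intro y
      have hz : ∀ i, i ∉ J → (fun i => if i ∈ J then y i else base) i = base := by
        intro i hi
        simp [hi]
      have h1 := congrFun hκ ⟨fun i => if i ∈ J then y i else base, hz⟩
      rw [spanMap_apply] at h1
      have h2 : f (fun i => if i ∈ J then y i else base) = f y := by
        apply hf
        intro i hi
        simp [hi]
      simp only [h2] at h1
      rw [← h1, ← Finset.sum_coe_sort P
        (fun p => (∏ i ∈ c p, v p i (y i)) *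
          (if hp : p ∈ P then (κ ⟨p, hp⟩).1 else 0) y)]
      refine Finset.sum_congr rfl fun p _ => ?_
      rw [dif_pos p.2]
      congr 1
      · refine Finset.prod_congr rfl fun i hi => ?_
        simp [hc p.1 p.2 hi]
      · apply (κ p).2
        intro i hi
        simp [(Finset.mem_sdiff.1 hi).1]

end Pool.Agent.H21.HD

end

section

/-!
The real-number part of the slicing step.
-/

namespace Pool.Agent.H21.HD

open MvPolynomial
open scoped Classical

/-- `FF` decreases when the set grows -/
private lemma spanSplit_anti {ι : Type} (J : Finset ι) (lam : Finset ι → ℝ)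
    (h0 : ∀ T, 0 ≤ lam T) (hpos : ∀ J' ⊂ J, 0 < FF lam J') (K : Finset ι) (hK : K ⊂ J) :
    ∀ n : ℕ, ∀ L : Finset ι, L ⊆ K → (K \ L).card = n → FF lam K ≤ FF lam L := by
  intro n
  induction n with
  | zero =>
    intro L hL hc
    have h1 : K \ L = ∅ := Finset.card_eq_zero.mp hc
    have h2 : K ⊆ L := Finset.sdiff_eq_empty_iff_subset.mp h1
    rw [Finset.Subset.antisymm hL h2]
  | succ n ih =>
    intro L hL hc
    have hne : (K \ L).Nonempty := by
      rw [← Finset.card_pos, hc]; exact Nat.succ_pos n
    obtain ⟨x, hx⟩ := hne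
    have hxK : x ∈ K := (Finset.mem_sdiff.mp hx).1
    have hxL : x ∉ L := (Finset.mem_sdiff.mp hx).2
    have hins : insert x L ⊆ K := Finset.insert_subset hxK hL
    have hcard : (K \ insert x L).card = n := by
      have e1 := Finset.card_sdiff_add_card_eq_card hL
      have e2 := Finset.card_sdiff_add_card_eq_card hins
      rw [Finset.card_insert_of_notMem hxL] at e2
      omega
    have h1 := ih (insert x L) hins hcard
    have h2 := FF_rec lam (insert x L) x (Finset.mem_insert_self x L)
    rw [Finset.erase_insert hxL] at h2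
    have h3 : 0 ≤ ∑ T ∈ subs (insert x L) x, lam T * FF lam (insert x L \ T) := by
      apply Finset.sum_nonneg
      intro T _
      apply mul_nonneg (h0 T)
      apply le_of_lt
      apply hpos
      exact lt_of_le_of_lt (Finset.sdiff_subset.trans hins) hK
    linarith only [h1, h2, h3]

/-- Real-number part of the slicing step. If `FF lam` is positive on all proper subsets of `J`
and `FF lam J ≤ 0`, then the `w` slices can be distributed to the sets `T ∋ i`. -/
theorem span_split {ι : Type} (J : Finset ι) (i : ι) (hi : i ∈ J) (lam : Finset ι → ℝ)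
    (h0 : ∀ T, 0 ≤ lam T) (hpos : ∀ J' ⊂ J, 0 < FF lam J') (hle : FF lam J ≤ 0)
    (η : ℝ) (hη : 0 < η) (w : ℕ) (hw : 4 / η ≤ w) :
    ∃ (n : Finset ι → ℕ) (m : Finset ι → ℕ) (μ : Finset ι → ℝ),
      w ≤ ∑ T ∈ subs J i, n T ∧
      (∀ T ∈ subs J i, n T ≤ w) ∧
      (∀ T ∈ subs J i, 0 < n T → 0 < lam T) ∧
      (∀ T ∈ subs J i, 0 < μ T ∧ μ T ≤ 1) ∧
      (∀ T ∈ subs J i, FF lam (J.erase i) - μ T * FF lam (J \ T) ≤ 0) ∧
      (∀ T ∈ subs J i, (μ T + η / 2) * (w : ℝ) ^ (T.card - 1) ≤ m T) ∧
      (∀ T ∈ subs J i, 1 < T.card → (n T : ℝ) * m T ≤ (lam T + η) * (w : ℝ) ^ T.card) ∧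
      (∀ T ∈ subs J i, T.card = 1 → (n T : ℝ) ≤ (lam T + η) * (w : ℝ)) := by
  have hwη : 4 ≤ (w : ℝ) * η := by
    rw [div_le_iff₀ hη] at hw
    exact hw
  have hw0 : 0 < (w : ℝ) := by
    by_contra hcon
    push Not at hcon
    nlinarith only [hwη, hη, hcon]
  have hw1 : (1 : ℝ) ≤ w := by
    have : 0 < w := by exact_mod_cast hw0
    exact_mod_cast this
  have hE : 0 < FF lam (J.erase i) := hpos _ (Finset.erase_ssubset hi)
  have hD : ∀ T ∈ subs J i, 0 < FF lam (J \ T) := by
    intro T hT
    rw [mem_subs] at hT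
    exact hpos _ (Finset.sdiff_ssubset hT.1 ⟨i, hT.2⟩)
  have hmono : ∀ T ∈ subs J i, FF lam (J.erase i) ≤ FF lam (J \ T) := by
    intro T hT
    rw [mem_subs] at hT
    refine spanSplit_anti J lam h0 hpos (J.erase i) (Finset.erase_ssubset hi) _ (J \ T) ?_ rfl
    intro x hx
    rw [Finset.mem_sdiff] at hx
    rw [Finset.mem_erase]
    refine ⟨?_, hx.1⟩
    rintro rfl
    exact hx.2 hT.2
  set μ : Finset ι → ℝ := fun T => FF lam (J.erase i) / FF lam (J \ T) with hμ
  have hμ0 : ∀ T ∈ subs J i, 0 < μ T := fun T hT => div_pos hE (hD T hT)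
  have hμ1 : ∀ T ∈ subs J i, μ T ≤ 1 := fun T hT => (div_le_one (hD T hT)).mpr (hmono T hT)
  set y : Finset ι → ℝ := fun T => lam T / μ T with hy
  have hy0 : ∀ T ∈ subs J i, 0 ≤ y T := fun T hT => div_nonneg (h0 T) (hμ0 T hT).le
  have hyμ : ∀ T ∈ subs J i, y T * μ T = lam T := fun T hT =>
    div_mul_cancel₀ _ (hμ0 T hT).ne'
  have hsum : 1 ≤ ∑ T ∈ subs J i, y T := by
    have h1 := FF_rec lam J i hi
    have h2 : FF lam (J.erase i) ≤ ∑ T ∈ subs J i, lam T * FF lam (J \ T) := by linarith
    have h3 : ∑ T ∈ subs J i, y T =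
        (∑ T ∈ subs J i, lam T * FF lam (J \ T)) / FF lam (J.erase i) := by
      rw [Finset.sum_div]
      apply Finset.sum_congr rfl
      intro T hT
      have hd := (hD T hT).ne'
      have he := hE.ne'
      simp only [hy, hμ]
      field_simp
    rw [h3, one_le_div hE]
    exact h2
  set n : Finset ι → ℕ := fun T => min ⌈y T * w⌉₊ w with hn
  set m : Finset ι → ℕ := fun T => ⌈(μ T + η / 2) * (w : ℝ) ^ (T.card - 1)⌉₊ with hm
  have hnlt : ∀ T ∈ subs J i, (n T : ℝ) ≤ y T * w + 1 := by
    intro T hT
    have h1 : (n T : ℝ) ≤ (⌈y T * w⌉₊ : ℝ) := by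
      exact_mod_cast min_le_left _ _
    have h2 := Nat.ceil_lt_add_one (mul_nonneg (hy0 T hT) hw0.le)
    linarith
  have hnw : ∀ T, (n T : ℝ) ≤ w := by
    intro T
    exact_mod_cast min_le_right _ _
  refine ⟨n, m, μ, ?_, ?_, ?_, ?_, ?_, ?_, ?_, ?_⟩
  · by_cases hex : ∃ T ∈ subs J i, n T = w
    · obtain ⟨T, hT, hTw⟩ := hex
      calc w = n T := hTw.symm
        _ ≤ ∑ T ∈ subs J i, n T := Finset.single_le_sum (fun _ _ => Nat.zero_le _) hT
    · push Not at hex
      have h1 : ∀ T ∈ subs J i, y T * w ≤ (n T : ℝ) := by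
        intro T hT
        have h2 : n T = ⌈y T * w⌉₊ := by
          rcases min_choice ⌈y T * (w : ℝ)⌉₊ w with h | h
          · exact h
          · exact absurd h (hex T hT)
        rw [h2]
        exact Nat.le_ceil _
      have h3 : (w : ℝ) ≤ ((∑ T ∈ subs J i, n T : ℕ) : ℝ) := by
        push_cast
        calc (w : ℝ) = 1 * w := (one_mul _).symm
          _ ≤ (∑ T ∈ subs J i, y T) * w := mul_le_mul_of_nonneg_right hsum hw0.le
          _ = ∑ T ∈ subs J i, y T * w := Finset.sum_mul _ _ _
          _ ≤ ∑ T ∈ subs J i, (n T : ℝ) := Finset.sum_le_sum h1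
      exact_mod_cast h3
  · intro T _
    exact min_le_right _ _
  · intro T hT hpos'
    rcases (h0 T).lt_or_eq with h | h
    · exact h
    · exfalso
      have h1 : y T = 0 := by simp only [hy]; rw [← h]; simp
      have h2 : n T = 0 := by
        simp only [hn, h1]; simp
      omega
  · intro T hT
    exact ⟨hμ0 T hT, hμ1 T hT⟩
  · intro T hT
    have : μ T * FF lam (J \ T) = FF lam (J.erase i) := div_mul_cancel₀ _ (hD T hT).ne'
    rw [this, sub_self]
  · intro T _
    exact Nat.le_ceil _
  · intro T hT hc
    obtain ⟨s, hs⟩ : ∃ s, T.card = s + 2 := ⟨T.card - 2, by omega⟩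
    have e1 : T.card - 1 = s + 1 := by omega
    have hm1 : (m T : ℝ) ≤ (μ T + η / 2) * (w : ℝ) ^ (s + 1) + 1 := by
      have hnn : 0 ≤ (μ T + η / 2) * (w : ℝ) ^ (s + 1) := by
        have := (hμ0 T hT).le
        positivity
      have h2 := Nat.ceil_lt_add_one hnn
      simp only [hm, e1]
      linarith only [h2]
    have hn0 : (0 : ℝ) ≤ n T := Nat.cast_nonneg _
    have hP : (1 : ℝ) ≤ (w : ℝ) ^ s := one_le_pow₀ hw1
    rw [hs]
    set P := (w : ℝ) ^ s with hPdef
    have eP1 : (w : ℝ) ^ (s + 1) = P * w := pow_succ _ _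
    have eP2 : (w : ℝ) ^ (s + 2) = P * w * w := by rw [pow_succ, pow_succ]
    rw [eP1] at hm1
    rw [eP2]
    have hPw : 0 ≤ P * w := by positivity
    have hμnn := (hμ0 T hT).le
    have hstep1 : (n T : ℝ) * m T ≤ n T * ((μ T + η / 2) * (P * w) + 1) :=
      mul_le_mul_of_nonneg_left hm1 hn0
    have hstep2 : (n T : ℝ) * (μ T * (P * w)) ≤ (y T * w + 1) * (μ T * (P * w)) :=
      mul_le_mul_of_nonneg_right (hnlt T hT) (mul_nonneg hμnn hPw)
    have hstep3 : (n T : ℝ) * (η / 2 * (P * w) + 1) ≤ w * (η / 2 * (P * w) + 1) :=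
      mul_le_mul_of_nonneg_right (hnw T) (by positivity)
    have hstep4 : (y T * w + 1) * (μ T * (P * w)) = lam T * (P * w * w) + μ T * (P * w) := by
      rw [← hyμ T hT]; ring
    have hstep5 : μ T * (P * w) ≤ P * w := by
      have := mul_le_mul_of_nonneg_right (hμ1 T hT) hPw
      linarith only [this]
    have hstep6 : (w : ℝ) ≤ P * w := by nlinarith only [hP]
    have hstep7 : 2 * (P * w) ≤ η / 2 * (P * w * w) := by
      have := mul_le_mul_of_nonneg_left hwη hPw
      nlinarith only [this]
    nlinarith only [hstep1, hstep2, hstep3, hstep4, hstep5, hstep6, hstep7]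
  · intro T hT hc
    have hTi : T = {i} := by
      obtain ⟨a, ha⟩ := Finset.card_eq_one.mp hc
      rw [mem_subs] at hT
      have := hT.2
      rw [ha, Finset.mem_singleton] at this
      rw [ha, this]
    have hμT : μ T = 1 := by
      simp only [hμ]
      have : J \ T = J.erase i := by rw [hTi]; exact Finset.sdiff_singleton_eq_erase i J
      rw [this, div_self hE.ne']
    have hyT : y T = lam T := by
      have := hyμ T hT
      rw [hμT, mul_one] at this
      exact this
    have h1 := hnlt T hT
    rw [hyT] at h1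
    nlinarith only [hwη, h1]

end Pool.Agent.H21.HD

end

section

/-!
The slicing step for spanning.
-/

namespace Pool.Agent.H21.HD

open MvPolynomial
open scoped Classical

private lemma depOn_mono {ι : Type*} {B : ι → Type*} {T T' : Finset ι} {f : (∀ i, B i) → ℂ}
    (h : DepOn T f) (hT : T ⊆ T') : DepOn T' f :=
  fun x y hxy => h x y fun i hi => hxy i (hT hi)

private lemma depOn_update {ι A : Type*} {J : Finset ι} {i : ι} {f : (ι → A) → ℂ}
    (h : DepOn J f) (t : A) : DepOn (J.erase i) (fun y => f (Function.update y i t)) := by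
  intro x y hxy
  refine h _ _ fun k hk => ?_
  by_cases hki : k = i
  · subst hki; simp
  · rw [Function.update_of_ne hki, Function.update_of_ne hki]
    exact hxy k (Finset.mem_erase.2 ⟨hki, hk⟩)

/-- One slicing step. -/
theorem span_step {ι A α : Type} [Fintype ι] [Fintype A] [Nonempty A]
    (J : Finset ι) (i : ι) (hi : i ∈ J) (P : Finset α) (c : α → Finset ι)
    (hc : ∀ p ∈ P, c p ⊆ J) (s : α → A)
    (h : ∀ t : A, (∃ p ∈ P, c p = {i} ∧ s p = t) ∨
      ∃ v : α → ι → A → ℂ, SpanGood (J.erase i) (P.filter (fun p => i ∈ c p → s p = t))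
        (fun p => (c p).erase i) v) :
    ∃ v : α → ι → A → ℂ, SpanGood J P c v := by
  -- a polynomial for every slice
  have key : ∀ t : A, ∃ G : MvPolynomial (α × ι × A) ℂ, G ≠ 0 ∧ ∀ v : α → ι → A → ℂ,
      eval (fun x => v x.1 x.2.1 x.2.2) G ≠ 0 →
        SpanGood (J.erase i) (P.filter (fun p => i ∈ c p → s p = t)) (fun p => (c p).erase i) v := by
    intro t
    rcases h t with ⟨p₀, hp₀, hcp, hsp⟩ | ⟨v₀, hv₀⟩
    · refine ⟨1, one_ne_zero, fun v _ f hf => ?_⟩
      refine ⟨fun p y => if p = p₀ then f y else 0, ?_, ?_⟩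
      · intro p _
        by_cases hpp : p = p₀
        · subst hpp
          have h1 : J.erase i \ (c p).erase i = J.erase i := by
            rw [hcp]
            ext k
            simp
          simp only [if_true]
          show DepOn (J.erase i \ (c p).erase i) fun y => f y
          rw [h1]
          exact hf
        · intro x y _
          simp [hpp]
      · intro y
        rw [Finset.sum_eq_single p₀]
        · simp [hcp]
        · intro p _ hpp
          simp [hpp]
        · intro hno
          exact absurd (Finset.mem_filter.2 ⟨hp₀, fun _ => hsp⟩) hno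
    · exact spanGood_open (J.erase i) _ _ (by
        intro p hp
        exact Finset.erase_subset_erase i (hc p (Finset.mem_filter.1 hp).1)) v₀ hv₀
  choose G hG0 hG using key
  obtain ⟨x, hx⟩ := exists_common (Finset.univ : Finset A) G (fun t _ => hG0 t)
  set v0 : α → ι → A → ℂ := fun p k a => x (p, k, a) with hv0
  have hgood : ∀ t : A, SpanGood (J.erase i) (P.filter (fun p => i ∈ c p → s p = t))
      (fun p => (c p).erase i) v0 := by
    intro t
    refine hG t v0 ?_
    have h1 : (fun x : α × ι × A => v0 x.1 x.2.1 x.2.2) = x := by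
      funext z
      rfl
    rw [h1]
    exact hx t (Finset.mem_univ t)
  refine ⟨fun p k a => if k = i then (if a = s p then 1 else 0) else v0 p k a, ?_⟩
  intro f hf
  have hk : ∀ t : A, ∃ κ : α → (ι → A) → ℂ,
      (∀ p ∈ P.filter (fun p => i ∈ c p → s p = t), DepOn (J.erase i \ (c p).erase i) (κ p)) ∧
        ∀ y, f (Function.update y i t) = ∑ p ∈ P.filter (fun p => i ∈ c p → s p = t),
          (∏ k ∈ (c p).erase i, v0 p k (y k)) * κ p y :=
    fun t => hgood t _ (depOn_update hf t)
  choose κ hκ1 hκ2 using hk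
  refine ⟨fun p y => if i ∈ c p then κ (s p) p y else κ (y i) p y, ?_, ?_⟩
  · intro p hp
    have hsub : J.erase i \ (c p).erase i ⊆ J \ c p := by
      intro k hk
      simp only [Finset.mem_sdiff, Finset.mem_erase, not_and] at hk ⊢
      exact ⟨hk.1.2, fun hkc => hk.2 hk.1.1 hkc⟩
    by_cases hic : i ∈ c p
    · simp only [hic, if_true]
      exact depOn_mono (hκ1 (s p) p (Finset.mem_filter.2 ⟨hp, fun _ => rfl⟩)) hsub
    · simp only [hic, if_false]
      intro y z hyz
      have h1 : y i = z i := hyz i (Finset.mem_sdiff.2 ⟨hi, hic⟩)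
      show κ (y i) p y = κ (z i) p z
      rw [h1]
      exact hκ1 (z i) p (Finset.mem_filter.2 ⟨hp, fun h => absurd h hic⟩) y z
        fun k hk => hyz k (hsub hk)
  · intro y
    have h1 : f y = f (Function.update y i (y i)) := by rw [Function.update_eq_self]
    rw [h1, hκ2 (y i) y, Finset.sum_filter]
    refine Finset.sum_congr rfl fun p _ => ?_
    by_cases hic : i ∈ c p
    · have h2 : ∏ k ∈ c p, (if k = i then (if y k = s p then (1 : ℂ) else 0) else v0 p k (y k)) =
          (if y i = s p then 1 else 0) * ∏ k ∈ (c p).erase i, v0 p k (y k) := by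
        rw [← Finset.mul_prod_erase (c p) _ hic]
        simp only [if_true]
        congr 1
        refine Finset.prod_congr rfl fun k hk => ?_
        rw [if_neg (Finset.mem_erase.1 hk).1]
      rw [h2]
      by_cases hs : s p = y i
      · simp only [hic, hs, if_true, one_mul, forall_const]
      · have hs' : ¬ (y i = s p) := fun h => hs h.symm
        simp only [hic, hs, hs', if_false, zero_mul, forall_const]
    · have h2 : ∏ k ∈ c p, (if k = i then (if y k = s p then (1 : ℂ) else 0) else v0 p k (y k)) =
          ∏ k ∈ (c p).erase i, v0 p k (y k) := by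
        rw [Finset.erase_eq_of_notMem hic]
        refine Finset.prod_congr rfl fun k hk => ?_
        rw [if_neg]
        rintro rfl
        exact hic hk
      rw [h2]
      simp only [hic, false_imp_iff, if_true, if_false]

end Pool.Agent.H21.HD

end

section

/-!
Spanning by product functions.
-/

namespace Pool.Agent.H21.HD

open MvPolynomial
open scoped Classical

/-- The statement for fixed `j`, `η`, `W`. -/
private def SpanTQ (j : ℕ) (η : ℝ) (W : ℕ) : Prop :=
  ∀ (ι A α : Type) [Fintype ι] [Fintype A],
    W ≤ Fintype.card A → ∀ (J : Finset ι), J.card = j → ∀ (lam : Finset ι → ℝ),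
    (∀ T, 0 ≤ lam T) → (∃ J' ⊆ J, FF lam J' ≤ 0) →
    ∀ (P : Finset α) (c : α → Finset ι), (∀ p ∈ P, c p ⊆ J ∧ (c p).Nonempty) →
    (∀ T ⊆ J, T.Nonempty → 0 < lam T →
      (lam T + η) * (Fintype.card A : ℝ) ^ T.card ≤ (P.filter (fun p => c p = T)).card) →
    ∃ v : α → ι → A → ℂ, SpanGood J P c v

/-- Enlarging the set of coordinates. -/
private lemma spanGood_enlarge {ι A α : Type} [Nonempty A] {J' J : Finset ι} (hJ : J' ⊆ J)
    {P : Finset α} {c : α → Finset ι} {v : α → ι → A → ℂ}
    (h : SpanGood J' (P.filter (fun p => c p ⊆ J')) c v) : SpanGood J P c v := by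
  intro f hf
  obtain ⟨a₀⟩ := ‹Nonempty A›
  set r : (ι → A) → (ι → A) := fun y i => if i ∈ J \ J' then y i else a₀ with hr
  have hfy : ∀ z : ι → A, DepOn J' (fun x => f (fun i => if i ∈ J' then x i else z i)) := by
    intro z x x' hx
    show f (fun i => if i ∈ J' then x i else z i) = f (fun i => if i ∈ J' then x' i else z i)
    congr 1
    funext i
    by_cases hi : i ∈ J'
    · simp only [hi, if_true]
      exact hx i hi
    · simp only [hi, if_false]
  choose κ hκ1 hκ2 using fun z : ι → A => h _ (hfy z)
  refine ⟨fun p y => if c p ⊆ J' then κ (r y) p y else 0, ?_, ?_⟩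
  · intro p hp
    by_cases hcp : c p ⊆ J'
    · intro x y hxy
      have h1 : r x = r y := by
        funext i
        simp only [hr]
        by_cases hi : i ∈ J \ J'
        · simp only [hi, if_true]
          have h2 := Finset.mem_sdiff.1 hi
          exact hxy i (Finset.mem_sdiff.2 ⟨h2.1, fun h3 => h2.2 (hcp h3)⟩)
        · simp only [hi, if_false]
      show (if c p ⊆ J' then κ (r x) p x else 0) = (if c p ⊆ J' then κ (r y) p y else 0)
      rw [if_pos hcp, if_pos hcp, h1]
      refine hκ1 (r y) p (Finset.mem_filter.2 ⟨hp, hcp⟩) x y fun i hi => hxy i ?_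
      exact Finset.sdiff_subset_sdiff hJ le_rfl hi
    · intro x y _
      show (if c p ⊆ J' then κ (r x) p x else 0) = (if c p ⊆ J' then κ (r y) p y else 0)
      rw [if_neg hcp, if_neg hcp]
  · intro y
    have h1 : f y = f (fun i => if i ∈ J' then y i else r y i) := by
      refine hf _ _ fun i hi => ?_
      by_cases hi' : i ∈ J'
      · simp only [hi', if_true]
      · have h2 : i ∈ J \ J' := Finset.mem_sdiff.2 ⟨hi, hi'⟩
        simp only [hi', if_false, hr, h2, if_true]
    rw [h1]
    have h3 := hκ2 (r y) y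
    rw [h3, Finset.sum_filter]
    refine Finset.sum_congr rfl fun p _ => ?_
    by_cases hcp : c p ⊆ J'
    · simp only [hcp, if_true]
    · simp only [hcp, if_false, mul_zero]

/-- Distributing the slices to the types. -/
private lemma exists_tau {A T : Type*} [Fintype A] (S : Finset T) (n : T → ℕ)
    (h : Fintype.card A ≤ ∑ t ∈ S, n t) :
    ∃ τ : A → T, (∀ a, τ a ∈ S) ∧
      ∀ t ∈ S, (Finset.univ.filter (fun a => τ a = t)).card ≤ n t := by
  classical
  set E : Finset ((_ : T) × ℕ) := S.sigma (fun t => Finset.range (n t)) with hE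
  have hcard : Fintype.card A ≤ Fintype.card E := by
    rw [Fintype.card_coe, hE, Finset.card_sigma]
    simpa using h
  obtain ⟨e⟩ := Function.Embedding.nonempty_of_card_le hcard
  refine ⟨fun a => (e a).1.1, fun a => (Finset.mem_sigma.1 (e a).2).1, fun t _ => ?_⟩
  have h1 : (Finset.univ.filter (fun a => (e a).1.1 = t)).card ≤ (Finset.range (n t)).card := by
    refine Finset.card_le_card_of_injOn (fun a => (e a).1.2) ?_ ?_
    · intro a ha
      have h2 := (Finset.mem_filter.1 (Finset.mem_coe.1 ha)).2
      have h3 := (Finset.mem_sigma.1 (e a).2).2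
      rw [h2] at h3
      exact h3
    · intro a ha b hb hab
      have h2 := (Finset.mem_filter.1 (Finset.mem_coe.1 ha)).2
      have h3 := (Finset.mem_filter.1 (Finset.mem_coe.1 hb)).2
      apply e.injective
      apply Subtype.ext
      exact Sigma.ext (h2.trans h3.symm) (heq_of_eq hab)
  simpa using h1

/-- Distributing the points of one type to the slices. -/
private lemma exists_fiber {α A : Type*} [Nonempty A] (m : ℕ) (F : Finset A) :
    ∀ Q : Finset α, F.card * m ≤ Q.card →
      ∃ s : α → A, ∀ t ∈ F, m ≤ (Q.filter (fun p => s p = t)).card := by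
  classical
  induction F using Finset.induction_on with
  | empty =>
    intro Q _
    obtain ⟨a₀⟩ := ‹Nonempty A›
    exact ⟨fun _ => a₀, fun t ht => absurd ht (Finset.notMem_empty t)⟩
  | insert a F ha ih =>
    intro Q hQ
    rw [Finset.card_insert_of_notMem ha, add_mul, one_mul] at hQ
    obtain ⟨Q1, hQ1, hc⟩ := Finset.exists_subset_card_eq (show m ≤ Q.card by omega)
    obtain ⟨s, hs⟩ := ih (Q \ Q1) (by
      rw [Finset.card_sdiff_of_subset hQ1, hc]
      omega)
    refine ⟨fun p => if p ∈ Q1 then a else s p, fun t ht => ?_⟩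
    rcases Finset.mem_insert.1 ht with rfl | ht
    · rw [← hc]
      refine Finset.card_le_card fun p hp => ?_
      simp [hQ1 hp, hp]
    · refine (hs t ht).trans (Finset.card_le_card fun p hp => ?_)
      obtain ⟨h1, h2⟩ := Finset.mem_filter.1 hp
      obtain ⟨h3, h4⟩ := Finset.mem_sdiff.1 h1
      simp [h3, h4, h2]

private lemma spanT_main (j : ℕ) (ih : ∀ j' < j, ∀ η : ℝ, 0 < η → ∃ W, SpanTQ j' η W)
    (η : ℝ) (hη : 0 < η) : ∃ W, SpanTQ j η W := by
  choose W hW using fun x : Fin j => ih x x.2 η hη
  obtain ⟨W2, hW2⟩ : ∃ W2, 0 < j → SpanTQ (j - 1) (η / 2) W2 := by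
    by_cases hj : 0 < j
    · obtain ⟨W2, h⟩ := ih (j - 1) (by omega) (η / 2) (by positivity)
      exact ⟨W2, fun _ => h⟩
    · exact ⟨0, fun h => absurd h hj⟩
  refine ⟨Finset.univ.sup W + W2 + ⌈4 / η⌉₊ + 1, ?_⟩
  intro ι A α _ _ hA J hJ lam hlam hex P c hP hcount
  have hAne : Nonempty A := Fintype.card_pos_iff.1 (by omega)
  by_cases hprop : ∃ J' ⊂ J, FF lam J' ≤ 0
  · -- a proper subset
    obtain ⟨J', hJ', hFF⟩ := hprop
    have hlt : J'.card < j := hJ ▸ Finset.card_lt_card hJ'
    have h1 : SpanTQ J'.card η (W ⟨J'.card, hlt⟩) := hW ⟨J'.card, hlt⟩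
    have h2 : W ⟨J'.card, hlt⟩ ≤ Fintype.card A := by
      have := Finset.le_sup (f := W) (Finset.mem_univ (⟨J'.card, hlt⟩ : Fin j))
      omega
    obtain ⟨v, hv⟩ := h1 ι A α h2 J' rfl lam hlam ⟨J', le_rfl, hFF⟩
      (P.filter (fun p => c p ⊆ J')) c
      (by
        intro p hp
        obtain ⟨h3, h4⟩ := Finset.mem_filter.1 hp
        exact ⟨h4, (hP p h3).2⟩)
      (by
        intro T hT hTne hTl
        refine (hcount T (hT.trans hJ'.1) hTne hTl).trans ?_
        norm_cast
        refine Finset.card_le_card fun p hp => ?_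
        obtain ⟨h3, h4⟩ := Finset.mem_filter.1 hp
        exact Finset.mem_filter.2 ⟨Finset.mem_filter.2 ⟨h3, h4 ▸ hT⟩, h4⟩)
    exact ⟨v, spanGood_enlarge hJ'.1 hv⟩
  · push Not at hprop
    obtain ⟨J', hJ', hFF⟩ := hex
    have hJJ : J' = J := by
      by_contra hne
      exact absurd hFF (not_le.2 (hprop J' (Finset.ssubset_iff_subset_ne.2 ⟨hJ', hne⟩)))
    subst hJJ
    have hJne : J'.Nonempty := by
      rw [Finset.nonempty_iff_ne_empty]
      rintro rfl
      rw [FF_empty] at hFF
      linarith
    obtain ⟨i, hi⟩ := hJne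
    have hjpos : 0 < j := by
      rw [← hJ]
      exact Finset.card_pos.2 ⟨i, hi⟩
    have hw : 4 / η ≤ (Fintype.card A : ℝ) := by
      refine (Nat.le_ceil (4 / η)).trans ?_
      exact_mod_cast (show ⌈4 / η⌉₊ ≤ Fintype.card A by omega)
    obtain ⟨n, m, μ, hn1, hn2, hn3, hμ, hFFμ, hm, hnm, hn4⟩ :=
      span_split J' i hi lam hlam hprop hFF η hη (Fintype.card A) hw
    obtain ⟨τ, hτ1, hτ2⟩ := exists_tau (subs J' i) n hn1
    -- the points of type `T`
    have hfib : ∀ T : Finset ι, ∃ s : α → A, ∀ t : A, τ t = T →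
        (if T.card = 1 then 1 else m T) ≤
          ((P.filter (fun p => c p = T)).filter (fun p => s p = t)).card := by
      intro T
      by_cases hT : ∃ t, τ t = T
      · obtain ⟨t₀, ht₀⟩ := hT
        have hTs : T ∈ subs J' i := ht₀ ▸ hτ1 t₀
        have hTJ := (mem_subs.1 hTs).1
        have hiT := (mem_subs.1 hTs).2
        set F : Finset A := Finset.univ.filter (fun a => τ a = T) with hF
        have hFn : F.card ≤ n T := by
          have h1 := hτ2 T hTs
          convert h1
        have hFpos : 0 < F.card := Finset.card_pos.2 ⟨t₀, by simp [hF, ht₀]⟩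
        have hlT : 0 < lam T := hn3 T hTs (by omega)
        have hc := hcount T hTJ ⟨i, hiT⟩ hlT
        have hle : F.card * (if T.card = 1 then 1 else m T) ≤
            (P.filter (fun p => c p = T)).card := by
          by_cases hT1 : T.card = 1
          · simp only [hT1, if_true, mul_one]
            have h1 := hn4 T hTs hT1
            rw [hT1, pow_one] at hc
            have h2 : (n T : ℝ) ≤ ((P.filter (fun p => c p = T)).card : ℝ) := h1.trans hc
            exact hFn.trans (by exact_mod_cast h2)
          · simp only [hT1, if_false]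
            have hTc : 1 < T.card := by
              have := Finset.card_pos.2 ⟨i, hiT⟩
              omega
            have h1 := hnm T hTs hTc
            have h2 : (n T : ℝ) * m T ≤ ((P.filter (fun p => c p = T)).card : ℝ) := h1.trans hc
            refine (Nat.mul_le_mul_right (m T) hFn).trans ?_
            exact_mod_cast h2
        obtain ⟨s, hs⟩ := exists_fiber (if T.card = 1 then 1 else m T) F
          (P.filter (fun p => c p = T)) hle
        exact ⟨s, fun t ht => hs t (by simp [hF, ht])⟩
      · obtain ⟨a₀⟩ := hAne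
        exact ⟨fun _ => a₀, fun t ht => absurd ⟨t, ht⟩ hT⟩
    choose s hs using hfib
    refine span_step J' i hi P c (fun p hp => (hP p hp).1) (fun p => s (c p) p) ?_
    intro t
    by_cases hfirst : ∃ p ∈ P, c p = {i} ∧ s (c p) p = t
    · exact Or.inl hfirst
    · right
      set T := τ t with hT
      have hTs : T ∈ subs J' i := hτ1 t
      have hTJ := (mem_subs.1 hTs).1
      have hiT := (mem_subs.1 hTs).2
      have hTc : T.card ≠ 1 := by
        intro hT1
        have h1 := hs T t rfl
        rw [if_pos hT1] at h1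
        obtain ⟨p, hp⟩ := Finset.card_pos.1 (lt_of_lt_of_le one_pos h1)
        obtain ⟨h2, h3⟩ := Finset.mem_filter.1 hp
        obtain ⟨h4, h5⟩ := Finset.mem_filter.1 h2
        obtain ⟨k, hk⟩ := Finset.card_eq_one.1 hT1
        have hki : k = i := by
          rw [hk, Finset.mem_singleton] at hiT
          exact hiT.symm
        exact hfirst ⟨p, h4, by rw [h5, hk, hki], by rw [h5]; exact h3⟩
      have hTc' : 1 < T.card := by
        have := Finset.card_pos.2 ⟨i, hiT⟩
        omega
      have hTe : (T.erase i).Nonempty := by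
        rw [← Finset.card_pos, Finset.card_erase_of_mem hiT]
        omega
      set lam' : Finset ι → ℝ := fun S => if S = T.erase i then lam S + μ T else lam S with hlam'
      have hFF' : FF lam' (J'.erase i) = FF lam (J'.erase i) - μ T * FF lam (J' \ T) := by
        rw [FF_add (lam := lam) (lam' := lam') (J'.erase i) (T.erase i) hTe
          (Finset.erase_subset_erase i hTJ) (μ T) (by simp [hlam'])
          (fun S hS => by simp [hlam', hS])]
        congr 3
        ext k
        simp only [Finset.mem_sdiff, Finset.mem_erase, not_and]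
        constructor
        · rintro ⟨⟨h1, h2⟩, h3⟩
          exact ⟨h2, h3 h1⟩
        · rintro ⟨h1, h2⟩
          exact ⟨⟨fun h => h2 (h ▸ hiT), h1⟩, fun _ => h2⟩
      have hcJ : (J'.erase i).card = j - 1 := by rw [Finset.card_erase_of_mem hi, hJ]
      refine hW2 hjpos ι A α (by omega) (J'.erase i) hcJ lam' ?_
        ⟨J'.erase i, le_rfl, by rw [hFF']; exact hFFμ T hTs⟩ _ _ ?_ ?_
      · intro S
        simp only [hlam']
        split_ifs
        · have := (hμ T hTs).1
          have := hlam S
          linarith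
        · exact hlam S
      · intro p hp
        obtain ⟨h1, h2⟩ := Finset.mem_filter.1 hp
        refine ⟨Finset.erase_subset_erase i (hP p h1).1, ?_⟩
        by_cases hic : i ∈ c p
        · by_contra hne
          rw [Finset.not_nonempty_iff_eq_empty, Finset.erase_eq_empty_iff] at hne
          rcases hne with h3 | h3
          · rw [h3] at hic
            exact absurd hic (Finset.notMem_empty i)
          · exact hfirst ⟨p, h1, h3, h2 hic⟩
        · rw [Finset.erase_eq_of_notMem hic]
          exact (hP p h1).2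
      · intro S hS hSne hSl
        have hiS : i ∉ S := fun h => Finset.notMem_erase i J' (hS h)
        have hSJ : S ⊆ J' := hS.trans (Finset.erase_subset i J')
        have hApos : (0 : ℝ) ≤ (Fintype.card A : ℝ) ^ S.card := by positivity
        -- the two kinds of points
        have hA1 : P.filter (fun p => c p = S) ⊆
            (P.filter (fun p => i ∈ c p → s (c p) p = t)).filter
              (fun p => (c p).erase i = S) := by
          intro p hp
          obtain ⟨h1, h2⟩ := Finset.mem_filter.1 hp
          refine Finset.mem_filter.2 ⟨Finset.mem_filter.2 ⟨h1, fun h => ?_⟩, ?_⟩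
          · rw [h2] at h
            exact absurd h hiS
          · rw [h2, Finset.erase_eq_of_notMem hiS]
        have hcS : 0 < lam S → (lam S + η) * (Fintype.card A : ℝ) ^ S.card ≤
            ((P.filter (fun p => c p = S)).card : ℝ) := hcount S hSJ hSne
        have hcS' : lam S * (Fintype.card A : ℝ) ^ S.card ≤
            ((P.filter (fun p => c p = S)).card : ℝ) := by
          rcases eq_or_lt_of_le (hlam S) with h0 | h0
          · rw [← h0, zero_mul]
            positivity
          · refine le_trans ?_ (hcS h0)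
            exact mul_le_mul_of_nonneg_right (by linarith) hApos
        by_cases hST : S = T.erase i
        · have hl : lam' S = lam S + μ T := by simp [hlam', hST]
          rw [hl]
          have hins : insert i S = T := by rw [hST, Finset.insert_erase hiT]
          have hScard : T.card - 1 = S.card := by
            rw [hST, Finset.card_erase_of_mem hiT]
          have h1 := hs T t rfl
          rw [if_neg hTc] at h1
          have h2 := hm T hTs
          rw [hScard] at h2
          have hB1 : (P.filter (fun p => c p = T)).filter (fun p => s T p = t) ⊆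
              (P.filter (fun p => i ∈ c p → s (c p) p = t)).filter
                (fun p => (c p).erase i = S) := by
            intro p hp
            obtain ⟨h3, h4⟩ := Finset.mem_filter.1 hp
            obtain ⟨h5, h6⟩ := Finset.mem_filter.1 h3
            refine Finset.mem_filter.2 ⟨Finset.mem_filter.2 ⟨h5, fun _ => ?_⟩, ?_⟩
            · rw [h6]; exact h4
            · rw [h6, hST]
          have hdisj : Disjoint (P.filter (fun p => c p = S))
              ((P.filter (fun p => c p = T)).filter (fun p => s T p = t)) := by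
            rw [Finset.disjoint_left]
            intro p hp hp'
            have h3 := (Finset.mem_filter.1 hp).2
            have h4 := (Finset.mem_filter.1 (Finset.mem_filter.1 hp').1).2
            rw [h3] at h4
            rw [h4] at hiS
            exact hiS hiT
          have h3 := Finset.card_le_card (Finset.union_subset hA1 hB1)
          rw [Finset.card_union_of_disjoint hdisj] at h3
          have h4 : ((P.filter (fun p => c p = S)).card : ℝ) +
              (((P.filter (fun p => c p = T)).filter (fun p => s T p = t)).card : ℝ) ≤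
              (((P.filter (fun p => i ∈ c p → s (c p) p = t)).filter
                (fun p => (c p).erase i = S)).card : ℝ) := by exact_mod_cast h3
          have h5 : (m T : ℝ) ≤
              (((P.filter (fun p => c p = T)).filter (fun p => s T p = t)).card : ℝ) := by
            exact_mod_cast h1
          refine le_trans ?_ h4
          have h6 : (lam S + μ T + η / 2) * (Fintype.card A : ℝ) ^ S.card =
              lam S * (Fintype.card A : ℝ) ^ S.card +
                (μ T + η / 2) * (Fintype.card A : ℝ) ^ S.card := by ring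
          rw [h6]
          linarith
        · have hl : lam' S = lam S := by simp [hlam', hST]
          rw [hl] at hSl ⊢
          refine le_trans ?_ ((hcS hSl).trans ?_)
          · exact mul_le_mul_of_nonneg_right (by linarith) hApos
          · exact_mod_cast Finset.card_le_card hA1

/-- Spanning outside the region of convergence. -/
theorem tensor_span (j : ℕ) : ∀ η : ℝ, 0 < η → ∃ W : ℕ, ∀ (ι A α : Type) [Fintype ι] [Fintype A],
    W ≤ Fintype.card A → ∀ (J : Finset ι), J.card = j → ∀ (lam : Finset ι → ℝ),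
    (∀ T, 0 ≤ lam T) → (∃ J' ⊆ J, FF lam J' ≤ 0) →
    ∀ (P : Finset α) (c : α → Finset ι), (∀ p ∈ P, c p ⊆ J ∧ (c p).Nonempty) →
    (∀ T ⊆ J, T.Nonempty → 0 < lam T →
      (lam T + η) * (Fintype.card A : ℝ) ^ T.card ≤ (P.filter (fun p => c p = T)).card) →
    ∃ v : α → ι → A → ℂ, SpanGood J P c v := by
  induction j using Nat.strong_induction_on with
  | _ j ih =>
    intro η hη
    exact spanT_main j (fun j' hj' η' hη' => ih j' hj' η' hη') η hη

end Pool.Agent.H21.HD

end
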