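import Pool.Agent.H94.LP7.M16
import Pool.Agent.H94.LP7.M21
import Pool.Agent.H94.LP7.M34
import Pool.Agent.H94.LP7.M87
import Pool.Agent.H94.LP7.M88

/-! The parts of this file: H21.HD.ColOpen, H21.HD.InjT, H21.HD.ColM, H21.HD.PhiEx, H21.HD.IndMain. -/

section

/-!
ColInj is open.
-/

namespace Pool.Agent.H21.HD

open MvPolynomial
open scoped Classical

variable {N : ℕ} {A Λ P : Type} [Fintype A] [Fintype Λ] [Fintype P]

namespace ColOpenX

/-- the exponent vectors of the column -/
def Gam (N : ℕ) (A Λ : Type) [Fintype A] [Fintype Λ] (a : Fin N → ℕ) (μ : Λ → ℕ) :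
    Set (Sg N A Λ →₀ ℕ) :=
  {γ | bdeg γ = a ∧ (fun l => γ (Sum.inr l)) = μ}

theorem gam_finite (a : Fin N → ℕ) (μ : Λ → ℕ) : (Gam N A Λ a μ).Finite := by
  let b : Sg N A Λ →₀ ℕ := Finsupp.equivFunOnFinite.symm (Sum.elim (fun x => a x.1) μ)
  refine (Set.finite_Iic b).subset ?_
  rintro γ ⟨h1, h2⟩
  rw [Set.mem_Iic]
  intro s
  rcases s with ⟨i, t⟩ | l
  · have h3 : γ (Sum.inl (i, t)) ≤ bdeg γ i := by
      unfold bdeg
      exact Finset.single_le_sum (f := fun t => γ (Sum.inl (i, t))) (fun _ _ => Nat.zero_le _)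
        (Finset.mem_univ t)
    rw [h1] at h3
    simpa [b] using h3
  · have h3 : γ (Sum.inr l) = μ l := congrFun h2 l
    simp [b, h3]

/-- the space of the admissible families -/
noncomputable def VV (c : P → Finset (Fin N)) (lab : P → Λ) (ref : P → Fin N → A) (a : Fin N → ℕ)
    (μ : Λ → ℕ) : Submodule ℂ (P → MvPolynomial (Sg N A Λ) ℂ) where
  carrier := {ft | Adm c lab ref a μ ft}
  zero_mem' := by
    intro p γ h
    simp at h
  add_mem' := by
    intro f g hf hg p γ h
    rw [Pi.add_apply, coeff_add] at h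
    by_cases h1 : coeff γ (f p) = 0
    · rw [h1, zero_add] at h
      exact hg p γ h
    · exact hf p γ h1
  smul_mem' := by
    intro z f hf p γ h
    rw [Pi.smul_apply, coeff_smul] at h
    exact hf p γ (right_ne_zero_of_mul (by simpa using h))

theorem finiteDimensional_VV (c : P → Finset (Fin N)) (lab : P → Λ) (ref : P → Fin N → A)
    (a : Fin N → ℕ) (μ : Λ → ℕ) : FiniteDimensional ℂ (VV c lab ref a μ) := by
  have : Finite (Gam N A Λ a μ) := gam_finite a μ
  let f : VV c lab ref a μ →ₗ[ℂ] (P × Gam N A Λ a μ → ℂ) :=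
    { toFun := fun ft q => coeff q.2.1 (ft.1 q.1)
      map_add' := by
        intro x y
        funext q
        simp
      map_smul' := by
        intro z x
        funext q
        simp }
  refine FiniteDimensional.of_injective f ?_
  rw [injective_iff_map_eq_zero]
  intro ft h
  apply Subtype.ext
  funext p
  apply MvPolynomial.ext
  intro γ
  rw [Submodule.coe_zero, Pi.zero_apply, coeff_zero]
  by_contra hne
  have h1 := ft.2 p γ hne
  have h2 : f ft (p, ⟨γ, h1.1, h1.2.1⟩) = 0 := by
    rw [h]; rfl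
  exact hne h2

/-- the linear map of the column -/
noncomputable def TT (c : P → Finset (Fin N)) (lab : P → Λ) (ref : P → Fin N → A) (a : Fin N → ℕ)
    (μ : Λ → ℕ) (x : P × Fin N × A → ℂ) : VV c lab ref a μ →ₗ[ℂ] (Gam N A Λ a μ → ℂ) where
  toFun := fun ft γ => coeff γ.1 (∑ p, sbt (c p) (ref p) (fun i t => x (p, i, t)) (ft.1 p))
  map_add' := by
    intro f g
    funext γ
    simp only [Submodule.coe_add, Pi.add_apply, map_add, Finset.sum_add_distrib, coeff_add]
  map_smul' := by
    intro z f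
    funext γ
    simp only [Submodule.coe_smul, Pi.smul_apply, map_smul, RingHom.id_apply]
    rw [← Finset.smul_sum, coeff_smul]

theorem TT_apply (c : P → Finset (Fin N)) (lab : P → Λ) (ref : P → Fin N → A) (a : Fin N → ℕ)
    (μ : Λ → ℕ) (x : P × Fin N × A → ℂ) (ft : VV c lab ref a μ) (γ : Gam N A Λ a μ) :
    TT c lab ref a μ x ft γ
      = coeff γ.1 (∑ p, sbt (c p) (ref p) (fun i t => x (p, i, t)) (ft.1 p)) := rfl

theorem TT_poly (c : P → Finset (Fin N)) (lab : P → Λ) (ref : P → Fin N → A) (a : Fin N → ℕ)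
    (μ : Λ → ℕ) (ft : VV c lab ref a μ) (γ : Gam N A Λ a μ) :
    PolyFun (fun x => TT c lab ref a μ x ft γ) := by
  have h1 : (fun x => TT c lab ref a μ x ft γ)
      = fun x => ∑ p ∈ Finset.univ, coeff γ.1 (sbt (c p) (ref p) (fun i t => x (p, i, t)) (ft.1 p)) := by
    funext x
    rw [TT_apply, coeff_sum]
  rw [h1]
  apply PolyFun.sum
  intro p _
  obtain ⟨M, hM⟩ := sbt_poly (Λ := Λ) (c p) (ref p) (ft.1 p) γ.1
  refine ⟨rename (fun q : Fin N × A => (p, q.1, q.2)) M, fun x => ?_⟩
  rw [eval_rename]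
  exact hM (fun q => x (p, q.1, q.2))

/-- a family with vanishing image -/
theorem sum_eq_zero_iff (c : P → Finset (Fin N)) (lab : P → Λ) (ref : P → Fin N → A) (a : Fin N → ℕ)
    (μ : Λ → ℕ) (v : P → Fin N → A → ℂ) (ft : P → MvPolynomial (Sg N A Λ) ℂ)
    (hft : Adm c lab ref a μ ft)
    (h : ∀ γ ∈ Gam N A Λ a μ, coeff γ (∑ p, sbt (c p) (ref p) (v p) (ft p)) = 0) :
    ∑ p, sbt (c p) (ref p) (v p) (ft p) = 0 := by
  have h1 : ∀ p, comp a μ (ft p) = ft p := by
    intro p
    apply MvPolynomial.ext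
    intro γ
    rw [coeff_comp]
    split_ifs with h2
    · rfl
    · by_contra h3
      have h4 := hft p γ (Ne.symm h3)
      exact h2 ⟨h4.1, h4.2.1⟩
  have h5 : comp a μ (∑ p, sbt (c p) (ref p) (v p) (ft p)) = ∑ p, sbt (c p) (ref p) (v p) (ft p) := by
    rw [map_sum]
    apply Finset.sum_congr rfl
    intro p _
    rw [comp_sbt, h1]
  apply MvPolynomial.ext
  intro γ
  rw [coeff_zero]
  by_cases h6 : γ ∈ Gam N A Λ a μ
  · exact h γ h6
  · rw [← h5, coeff_comp]
    exact if_neg h6

end ColOpenX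

open ColOpenX

/-- `ColInj` is an open condition. -/
theorem colInj_open (c : P → Finset (Fin N)) (lab : P → Λ) (ref : P → Fin N → A) (a : Fin N → ℕ)
    (μ : Λ → ℕ) (v₀ : P → Fin N → A → ℂ) (h : ColInj c lab ref a μ v₀) :
    ∃ G : MvPolynomial (P × Fin N × A) ℂ, G ≠ 0 ∧ ∀ v : P → Fin N → A → ℂ,
      eval (fun x => v x.1 x.2.1 x.2.2) G ≠ 0 → ColInj c lab ref a μ v := by
  have : Finite (Gam N A Λ a μ) := gam_finite a μ
  have := finiteDimensional_VV c lab ref a μ
  obtain ⟨G, hG1, hG2⟩ := open_inj (TT c lab ref a μ) (TT_poly c lab ref a μ)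
    (fun x => v₀ x.1 x.2.1 x.2.2) (by
      rw [injective_iff_map_eq_zero]
      intro ft h1
      have h2 : ∑ p, sbt (c p) (ref p) (v₀ p) (ft.1 p) = 0 := by
        apply sum_eq_zero_iff c lab ref a μ v₀ ft.1 ft.2
        intro γ hγ
        have h3 := congrFun h1 ⟨γ, hγ⟩
        rw [TT_apply] at h3
        exact h3
      have h4 := h ft.1 ft.2 h2
      apply Subtype.ext
      funext p
      exact h4 p)
  refine ⟨G, ?_, ?_⟩
  · rintro rfl
    simp at hG1
  · intro v hv ft hft h1
    have h2 := (injective_iff_map_eq_zero _).1 (hG2 _ hv) ⟨ft, hft⟩ (by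
      funext γ
      rw [TT_apply]
      have h3 := congrArg (coeff γ.1) h1
      rw [coeff_zero] at h3
      exact h3)
    intro p
    have h3 := congrArg Subtype.val h2
    exact congrFun h3 p

end Pool.Agent.H21.HD

end

section

/-!
Injectivity for product functions.
-/

namespace Pool.Agent.H21.HD

open MvPolynomial
open scoped Classical

/-- The case of an ordinary point of empty type. -/
private theorem injT_empty {ι A α : Type} {B : ι → Type} (pt : ∀ i, A → B i)
    (N : ∀ i, B i → MvPolynomial A ℂ) (J : Finset ι) (P Q : Finset α) (c : α → Finset ι)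
    (f : α → ℕ) (ref : α → ι → A)
    (hPP : ∀ p ∈ P, ∀ p' ∈ P, p ≠ p' → (c p ∩ c p').Nonempty)
    (hPQ : ∀ p ∈ P, ∀ q ∈ Q, (c p ∪ c q).card + 1 ≤ (c p).card + f q)
    (p₀ : α) (hp₀ : p₀ ∈ P) (h0 : c p₀ = ∅) (v : α → ι → A → ℂ) : Good pt N J P Q c f ref v := by
  intro κ _ _ k3 k4
  have hQ : ∀ q ∈ Q, κ q = 0 := by
    intro q hq
    funext y
    by_contra hne
    have h1 := k3 q hq y hne
    have h2 := hPQ p₀ hp₀ q hq
    rw [h0, Finset.empty_union, Finset.card_empty] at h2
    have h3 := Finset.card_filter_le (c q) (fun i => y i = pt i (ref q i))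
    omega
  have hP : P = {p₀} := by
    ext p
    rw [Finset.mem_singleton]
    constructor
    · intro hp
      by_contra hne
      have h1 := hPP p hp p₀ hp₀ hne
      rw [h0, Finset.inter_empty] at h1
      exact Finset.not_nonempty_empty h1
    · rintro rfl; exact hp₀
  refine ⟨fun p hp => ?_, hQ⟩
  have hp' : p = p₀ := by rw [hP] at hp; exact Finset.mem_singleton.1 hp
  subst hp'
  funext y
  have h1 := k4 y
  rw [Finset.sum_eq_zero (s := Q) (fun q hq => by rw [hQ q hq]; rfl), add_zero, hP,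
    Finset.sum_singleton, h0, Finset.prod_empty, one_mul] at h1
  exact h1

/-- The case of no coordinates. -/
private theorem injT_zero {ι A α : Type} {B : ι → Type} (pt : ∀ i, A → B i)
    (N : ∀ i, B i → MvPolynomial A ℂ) (P Q : Finset α) (c : α → Finset ι)
    (f : α → ℕ) (ref : α → ι → A) (hP : P = ∅) (hc : ∀ q ∈ Q, c q = ∅)
    (hQQ : ∀ q ∈ Q, ∀ q' ∈ Q, q ≠ q' → (c q ∪ c q').card + 1 ≤ f q + f q')
    (v : α → ι → A → ℂ) : Good pt N ∅ P Q c f ref v := by
  intro κ _ _ k3 k4
  subst hP
  refine ⟨fun p hp => absurd hp (Finset.notMem_empty p), fun q hq => ?_⟩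
  have h0 : ∀ q ∈ Q, ∀ y, κ q y ≠ 0 → f q = 0 := by
    intro q hq y hne
    have h1 := k3 q hq y hne
    rw [hc q hq, Finset.filter_empty, Finset.card_empty] at h1
    omega
  funext y
  by_contra hne
  have hf := h0 q hq y hne
  have h2 : ∀ q' ∈ Q, q' ≠ q → κ q' y = 0 := by
    intro q' hq' hne'
    by_contra hne2
    have hf' := h0 q' hq' y hne2
    have := hQQ q' hq' q hq hne'
    omega
  have h1 := k4 y
  rw [Finset.sum_empty, zero_add, Finset.sum_eq_single_of_mem q hq h2] at h1
  exact hne h1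

/-- Injectivity below the critical load. -/
theorem tensor_inj (s j : ℕ) : ∀ ε : ℝ, 0 < ε → ∃ W : ℕ, ∀ (ι A α : Type) (B : ι → Type)
    [Fintype ι] [Fintype A] [∀ i, Fintype (B i)] [∀ i, Nonempty (B i)],
    W ≤ Fintype.card A → ∀ (pt : ∀ i, A → B i) (N : ∀ i, B i → MvPolynomial A ℂ)
    (J : Finset ι), J.card = j → (∀ i ∈ J, Function.Injective (pt i)) →
    (∀ i ∈ J, ∀ (a : A) (b : B i),
      eval (Pi.single a 1) (N i b) = if b = pt i a then 1 else 0) →
    ∀ (P Q : Finset α) (c : α → Finset ι) (f : α → ℕ) (ref : α → ι → A),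
    Disjoint P Q → (∀ p ∈ P, c p ⊆ J) → (∀ q ∈ Q, c q ⊆ J) →
    (∀ p ∈ P, ∀ p' ∈ P, p ≠ p' → (c p ∩ c p').Nonempty) →
    (∀ p ∈ P, ∀ q ∈ Q, (c p ∪ c q).card + 1 ≤ (c p).card + f q) →
    (∀ q ∈ Q, ∀ q' ∈ Q, q ≠ q' → (c q ∪ c q').card + 1 ≤ f q + f q') →
    (∀ i ∈ J, Set.InjOn (fun q => ref q i) (Q : Set α)) → Q.card ≤ s →
    ((∃ p ∈ P, c p = ∅) ∨
      ∑ p ∈ P, (1 : ℝ) / (Fintype.card A : ℝ) ^ (c p).card ≤ 1 - ε) →
    ∃ v : α → ι → A → ℂ, Good pt N J P Q c f ref v := by
  induction j with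
  | zero =>
    intro ε _
    refine ⟨0, ?_⟩
    intro ι A α B _ _ _ _ _ pt N J hJ _ _ P Q c f ref _ hP hQ hPP hPQ hQQ _ _ hload
    rw [Finset.card_eq_zero] at hJ
    subst hJ
    by_cases hemp : ∃ p ∈ P, c p = ∅
    · obtain ⟨p₀, hp₀, h0⟩ := hemp
      exact ⟨0, injT_empty pt N ∅ P Q c f ref hPP hPQ p₀ hp₀ h0 0⟩
    · push Not at hemp
      have hP0 : P = ∅ := by
        rw [Finset.eq_empty_iff_forall_notMem]
        exact fun p hp => (hemp p hp).ne_empty (Finset.subset_empty.1 (hP p hp))
      exact ⟨0, injT_zero pt N P Q c f ref hP0 (fun q hq => Finset.subset_empty.1 (hQ q hq)) hQQ 0⟩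
  | succ j ih =>
    intro ε hε
    obtain ⟨W₁, hW₁⟩ := distribute (j + 1) s ε hε
    obtain ⟨W₂, hW₂⟩ := ih (ε / 2) (by positivity)
    refine ⟨max W₁ W₂, ?_⟩
    intro ι A α B _ _ _ _ hW pt N J hJ hpt hN P Q c f ref hdis hP hQ hPP hPQ hQQ href hs hload
    by_cases hemp : ∃ p ∈ P, c p = ∅
    · obtain ⟨p₀, hp₀, h0⟩ := hemp
      exact ⟨0, injT_empty pt N J P Q c f ref hPP hPQ p₀ hp₀ h0 0⟩
    have hload' : ∑ p ∈ P, (1 : ℝ) / (Fintype.card A : ℝ) ^ (c p).card ≤ 1 - ε :=
      hload.resolve_left hemp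
    obtain ⟨i, hi⟩ : J.Nonempty := by
      rw [← Finset.card_pos, hJ]; omega
    obtain ⟨t, ht1, ht2, ht3, ht4⟩ := hW₁ ι A α ((le_max_left _ _).trans hW) J hJ i hi P c hP
      (Q.image fun q => ref q i) (Finset.card_image_le.trans hs) hload'
    have hinj := hpt i hi
    refine inj_step pt N J i hi (hN i hi) P Q c f ref hdis hP hQ t fun b => ?_
    have hcardJ : (J.erase i).card = j := by
      rw [Finset.card_erase_of_mem hi, hJ]; rfl
    refine hW₂ ι A α B ((le_max_right _ _).trans hW) pt N (J.erase i) hcardJ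
      (fun k hk => hpt k (Finset.mem_erase.1 hk).2) (fun k hk => hN k (Finset.mem_erase.1 hk).2)
      (P.filter (fun p => i ∈ c p → b = pt i (t p))) Q (fun p => (c p).erase i)
      (fun q => if i ∈ c q ∧ b = pt i (ref q i) then f q - 1 else f q) ref
      (hdis.mono_left (Finset.filter_subset _ _)) ?_ ?_ ?_ ?_ ?_ ?_ hs ?_
    · intro p hp
      exact Finset.erase_subset_erase i (hP p (Finset.mem_filter.1 hp).1)
    · intro q hq
      exact Finset.erase_subset_erase i (hQ q hq)
    · -- two ordinary points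
      intro p hp p' hp' hne
      obtain ⟨hp1, hp2⟩ := Finset.mem_filter.1 hp
      obtain ⟨hp1', hp2'⟩ := Finset.mem_filter.1 hp'
      by_cases h1 : i ∈ c p ∧ i ∈ c p'
      · have htt : t p = t p' := hinj ((hp2 h1.1).symm.trans (hp2' h1.2))
        have hcc := ht2 p hp1 p' hp1' h1.1 h1.2 htt
        have hns : c p ≠ {i} := fun h => hne (ht3 p hp1 p' hp1' h1.1 h1.2 htt h)
        obtain ⟨k, hk, hki⟩ : ∃ k ∈ c p, k ≠ i := by
          by_contra hcon
          push Not at hcon
          apply hns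
          ext k
          rw [Finset.mem_singleton]
          exact ⟨fun h => hcon k h, fun h => h ▸ h1.1⟩
        exact ⟨k, Finset.mem_inter.2 ⟨Finset.mem_erase.2 ⟨hki, hk⟩,
          Finset.mem_erase.2 ⟨hki, hcc ▸ hk⟩⟩⟩
      · obtain ⟨k, hk⟩ := hPP p hp1 p' hp1' hne
        obtain ⟨hk1, hk2⟩ := Finset.mem_inter.1 hk
        have hki : k ≠ i := by
          rintro rfl
          exact h1 ⟨hk1, hk2⟩
        exact ⟨k, Finset.mem_inter.2 ⟨Finset.mem_erase.2 ⟨hki, hk1⟩,
          Finset.mem_erase.2 ⟨hki, hk2⟩⟩⟩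
    · -- an ordinary and a special point
      intro p hp q hq
      obtain ⟨hp1, hp2⟩ := Finset.mem_filter.1 hp
      have h1 := hPQ p hp1 q hq
      show ((c p).erase i ∪ (c q).erase i).card + 1 ≤ ((c p).erase i).card +
        (if i ∈ c q ∧ b = pt i (ref q i) then f q - 1 else f q)
      rw [← Finset.erase_union_distrib]
      by_cases hip : i ∈ c p
      · have hb := hp2 hip
        have hne : ¬ (i ∈ c q ∧ b = pt i (ref q i)) := by
          rintro ⟨-, h2⟩
          exact ht1 p hp1 hip (Finset.mem_image.2 ⟨q, hq, (hinj (hb.symm.trans h2)).symm⟩)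
        rw [if_neg hne, Finset.card_erase_of_mem (Finset.mem_union_left _ hip),
          Finset.card_erase_of_mem hip]
        have h3 : 0 < (c p).card := Finset.card_pos.2 ⟨i, hip⟩
        have h4 : 0 < (c p ∪ c q).card := Finset.card_pos.2 ⟨i, Finset.mem_union_left _ hip⟩
        omega
      · rw [Finset.erase_eq_of_notMem hip]
        by_cases hiq : i ∈ c q
        · rw [Finset.card_erase_of_mem (Finset.mem_union_right _ hiq)]
          have h3 : (c p).card < (c p ∪ c q).card := by
            refine Finset.card_lt_card ⟨Finset.subset_union_left, fun h => hip ?_⟩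
            exact h (Finset.mem_union_right _ hiq)
          split_ifs <;> omega
        · have h2 : i ∉ c p ∪ c q := by
            rw [Finset.mem_union]; tauto
          rw [Finset.erase_eq_of_notMem h2, if_neg fun h => hiq h.1]
          exact h1
    · -- two special points
      intro q hq q' hq' hne
      have h1 := hQQ q hq q' hq' hne
      show ((c q).erase i ∪ (c q').erase i).card + 1 ≤
        (if i ∈ c q ∧ b = pt i (ref q i) then f q - 1 else f q) +
          (if i ∈ c q' ∧ b = pt i (ref q' i) then f q' - 1 else f q')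
      rw [← Finset.erase_union_distrib]
      by_cases h2 : i ∈ c q ∧ b = pt i (ref q i)
      · have h3 : ¬ (i ∈ c q' ∧ b = pt i (ref q' i)) := by
          rintro ⟨-, h4⟩
          exact hne (href i hi hq hq' (hinj (h2.2.symm.trans h4)))
        rw [if_pos h2, if_neg h3, Finset.card_erase_of_mem (Finset.mem_union_left _ h2.1)]
        have h4 : 0 < (c q ∪ c q').card := Finset.card_pos.2 ⟨i, Finset.mem_union_left _ h2.1⟩
        omega
      · rw [if_neg h2]
        by_cases h3 : i ∈ c q' ∧ b = pt i (ref q' i)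
        · rw [if_pos h3, Finset.card_erase_of_mem (Finset.mem_union_right _ h3.1)]
          have h4 : 0 < (c q ∪ c q').card := Finset.card_pos.2 ⟨i, Finset.mem_union_right _ h3.1⟩
          omega
        · rw [if_neg h3]
          have h4 := Finset.card_le_card (Finset.erase_subset i (c q ∪ c q'))
          omega
    · exact fun k hk => href k (Finset.mem_erase.1 hk).2
    · -- the load of the slice
      by_cases hb : ∃ a, b = pt i a
      · obtain ⟨a, rfl⟩ := hb
        by_cases h1 : ∃ p ∈ P, i ∈ c p ∧ t p = a ∧ c p = {i}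
        · left
          obtain ⟨p, hp, hip, htp, hcp⟩ := h1
          refine ⟨p, Finset.mem_filter.2 ⟨hp, fun _ => by rw [htp]⟩, ?_⟩
          rw [hcp]
          simp
        · right
          push Not at h1
          have h2 := ht4 a fun p hp hip htp => h1 p hp hip htp
          have h3 : P.filter (fun p => i ∈ c p → pt i a = pt i (t p)) =
              P.filter (fun p => i ∈ c p → t p = a) := by
            refine Finset.filter_congr fun p _ => ?_
            exact ⟨fun h hip => (hinj (h hip)).symm, fun h hip => by rw [h hip]⟩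
          rw [h3]
          exact h2
      · right
        have h3 : P.filter (fun p => i ∈ c p → b = pt i (t p)) = P.filter (fun p => i ∉ c p) := by
          refine Finset.filter_congr fun p _ => ?_
          exact ⟨fun h hip => hb ⟨_, h hip⟩, fun h hip => absurd hip h⟩
        rw [h3]
        calc ∑ p ∈ P.filter (fun p => i ∉ c p),
              (1 : ℝ) / (Fintype.card A : ℝ) ^ ((c p).erase i).card
            = ∑ p ∈ P.filter (fun p => i ∉ c p), (1 : ℝ) / (Fintype.card A : ℝ) ^ (c p).card := by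
              refine Finset.sum_congr rfl fun p hp => ?_
              rw [Finset.erase_eq_of_notMem (Finset.mem_filter.1 hp).2]
          _ ≤ ∑ p ∈ P, (1 : ℝ) / (Fintype.card A : ℝ) ^ (c p).card :=
              Finset.sum_le_sum_of_subset_of_nonneg (Finset.filter_subset _ _)
                fun _ _ _ => by positivity
          _ ≤ 1 - ε / 2 := by linarith

end Pool.Agent.H21.HD

end

section

/-!
The column lemma.
-/

namespace Pool.Agent.H21.HD

open MvPolynomial
open scoped Classical

variable {N : ℕ} {A Λ P : Type} [Fintype A] [Fintype Λ] [Fintype P]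

/-- `Good` does not depend on the values of `v` at the special points. -/
theorem ColMX.good_congr {ι A α : Type} {B : ι → Type} {pt : ∀ i, A → B i}
    {N : ∀ i, B i → MvPolynomial A ℂ} {J : Finset ι} {P Q : Finset α} {c : α → Finset ι}
    {f : α → ℕ} {ref : α → ι → A} {v v' : α → ι → A → ℂ} (hv : ∀ p ∈ P, v p = v' p)
    (h : Good pt N J P Q c f ref v) : Good pt N J P Q c f ref v' := by
  intro κ h1 h2 h3 h4
  refine h κ h1 h2 h3 fun y => ?_
  rw [← h4 y]
  congr 1
  refine Finset.sum_congr rfl fun p hp => ?_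
  rw [hv p hp]

/-- The value of a monomial with multinomial coefficient at a unit vector. -/
theorem ColMX.eval_unit (k : ℕ) (a : A) (β : A →₀ ℕ) (hβ : β.degree = k) :
    eval (Pi.single a (1 : ℂ)) (monomial β (Nat.multinomial Finset.univ β : ℂ)) =
      if β = Finsupp.single a k then 1 else 0 := by
  rw [eval_monomial]
  by_cases h : β = Finsupp.single a k
  · rw [if_pos h, h]
    have h1 : Nat.multinomial Finset.univ (Finsupp.single a k : A →₀ ℕ) = 1 := by
      rw [Nat.multinomial]
      have e1 : ∑ i : A, (Finsupp.single a k : A →₀ ℕ) i = k := by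
        simp [Finsupp.single_apply]
      have e2 : ∏ i : A, ((Finsupp.single a k : A →₀ ℕ) i).factorial = k.factorial := by
        rw [Finset.prod_eq_single a]
        · simp
        · intro b _ hb
          rw [Finsupp.single_apply, if_neg (Ne.symm hb)]
          rfl
        · simp
      rw [e1, e2]
      exact Nat.div_self (Nat.factorial_pos k)
    rw [h1, Finsupp.prod_single_index]
    · simp
    · simp
  · rw [if_neg h]
    have h2 : ∃ b ∈ β.support, b ≠ a := by
      by_contra hcon
      push Not at hcon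
      apply h
      have h3 : β.support ⊆ {a} := fun b hb => Finset.mem_singleton.mpr (hcon b hb)
      have h4 := Finsupp.support_subset_singleton.mp h3
      rw [h4] at hβ
      rw [h4]
      congr 1
      rw [← hβ]
      simp
    obtain ⟨b, hb, hba⟩ := h2
    have h5 : (β.prod fun n e => (Pi.single a (1 : ℂ) : A → ℂ) n ^ e) = 0 := by
      rw [Finsupp.prod]
      apply Finset.prod_eq_zero hb
      rw [Pi.single_apply, if_neg hba, zero_pow (Finsupp.mem_support_iff.mp hb)]
    rw [h5, mul_zero]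

theorem ColMX.union_le {ι : Type} {inst : DecidableEq ι} {s t u : Finset ι} (hs : s ⊆ u)
    (ht : t ⊆ u) : (@Union.union _ (@Finset.instUnion _ inst) s t).card ≤ u.card :=
  Finset.card_le_card (@Finset.union_subset _ inst _ _ _ hs ht)

theorem ColMX.inter_ne {ι : Type} {inst : DecidableEq ι} {s t u : Finset ι} (hs : s ⊆ u)
    (ht : t ⊆ u) (h : u.card < s.card + t.card) :
    (@Inter.inter _ (@Finset.instInter _ inst) s t).Nonempty := by
  rw [← Finset.card_pos]
  have h1 := @Finset.card_union_add_card_inter _ inst s t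
  have h2 : (@Union.union _ (@Finset.instUnion _ inst) s t).card ≤ u.card :=
    ColMX.union_le hs ht
  omega

/-- Finitely many exponent vectors of given degree. -/
theorem ColMX.finite_deg (k : ℕ) : Finite {β : A →₀ ℕ // β.degree = k} := by
  have h : Function.Injective (fun β : {β : A →₀ ℕ // β.degree = k} =>
      (fun a : A => (⟨β.1 a, Nat.lt_succ_of_le (by
        have := β.2
        calc β.1 a ≤ β.1.degree := Finsupp.le_degree a β.1
          _ = k := this)⟩ : Fin (k + 1)))) := by
    intro β γ hβγ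
    apply Subtype.ext
    ext a
    have := congrFun hβγ a
    simpa using this
  exact Finite.of_injective _ h

/-- The column lemma. -/
theorem col_inj (d : ℕ) (ε : ℝ) (hε : 0 < ε) : ∃ W : ℕ, ∀ (N : ℕ) (A Λ P : Type) [Fintype A]
    [Fintype Λ] [Fintype P], W ≤ Fintype.card A → ∀ (c : P → Finset (Fin N)) (lab : P → Λ)
    (a : Fin N → ℕ) (μ : Λ → ℕ), Function.Injective lab →
    (∀ p, ∀ i ∈ c p, a i ≠ 0) → (∀ p q, p ≠ q → d + 1 ≤ (c p).card + (c q).card) →
    (∀ p, (c p).Nonempty) →
    ∑ i, a i + ∑ l, μ l = d →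
    ∑ p, (1 : ℝ) / (Fintype.card A : ℝ) ^ (c p).card ≤ 1 - ε →
    ∃ ref : P → Fin N → A, ∃ G : MvPolynomial (P × Fin N × A) ℂ, G ≠ 0 ∧
      ∀ v : P → Fin N → A → ℂ, eval (fun x => v x.1 x.2.1 x.2.2) G ≠ 0 →
        ColInj c lab ref a μ v := by
  choose W hW using fun j => tensor_inj d j ε hε
  refine ⟨(∑ j ∈ Finset.range (d + 1), W j) + d + 1, ?_⟩
  intro N A Λ P _ _ _ hA c lab a μ hlab hca hpair hne hsum hload
  have hAd : d < Fintype.card A := by omega
  have hAne : Nonempty A := Fintype.card_pos_iff.mp (by omega)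
  -- the set of blocks
  set J : Finset (Fin N) := Finset.univ.filter (fun i => a i ≠ 0) with hJ
  have hJcard : J.card ≤ ∑ i, a i := by
    calc J.card = ∑ i ∈ J, 1 := by simp
      _ ≤ ∑ i ∈ J, a i := by
          apply Finset.sum_le_sum
          intro i hi
          rw [hJ, Finset.mem_filter] at hi
          omega
      _ ≤ ∑ i, a i := Finset.sum_le_sum_of_subset (Finset.subset_univ _)
  have hcJ : ∀ p, c p ⊆ J := fun p i hi => by
    rw [hJ, Finset.mem_filter]
    exact ⟨Finset.mem_univ _, hca p i hi⟩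
  set Ps : Finset P := Finset.univ.filter (fun p => μ (lab p) = 0) with hPs
  set Qs : Finset P := Finset.univ.filter (fun p => μ (lab p) ≠ 0) with hQs
  have hQmu : ∑ q ∈ Qs, μ (lab q) ≤ ∑ l, μ l := by
    rw [← Finset.sum_image (f := μ) (g := lab) (fun x _ y _ h => hlab h)]
    exact Finset.sum_le_sum_of_subset (Finset.subset_univ _)
  have hQcard : Qs.card ≤ d := by
    calc Qs.card = ∑ q ∈ Qs, 1 := by simp
      _ ≤ ∑ q ∈ Qs, μ (lab q) := by
          apply Finset.sum_le_sum
          intro q hq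
          rw [hQs, Finset.mem_filter] at hq
          omega
      _ ≤ ∑ l, μ l := hQmu
      _ ≤ d := by omega
  have hmu1 : ∀ q, μ (lab q) ≤ ∑ l, μ l := fun q =>
    Finset.single_le_sum (f := μ) (fun _ _ => Nat.zero_le _) (Finset.mem_univ _)
  have hmu2 : ∀ q q', q ≠ q' → μ (lab q) + μ (lab q') ≤ ∑ l, μ l := by
    intro q q' hqq
    have h1 : lab q ≠ lab q' := fun h => hqq (hlab h)
    rw [← Finset.sum_pair (f := μ) h1]
    exact Finset.sum_le_sum_of_subset (Finset.subset_univ _)
  -- reference values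
  have hemb : Nonempty (Qs ↪ A) := by
    apply Function.Embedding.nonempty_of_card_le
    rw [Fintype.card_coe]
    omega
  obtain ⟨emb⟩ := hemb
  let ref : P → Fin N → A := fun p _ => if h : p ∈ Qs then emb ⟨p, h⟩ else Classical.arbitrary A
  have hrefinj : ∀ i ∈ J, Set.InjOn (fun q => ref q i) (Qs : Set P) := by
    intro i _ q hq q' hq' h
    have hq1 : q ∈ Qs := hq
    have hq2 : q' ∈ Qs := hq'
    simp only [ref, dif_pos hq1, dif_pos hq2] at h
    have := emb.injective h
    exact congrArg Subtype.val this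
  haveI : ∀ i : Fin N, Fintype {β : A →₀ ℕ // β.degree = a i} := fun i =>
    @Fintype.ofFinite _ (ColMX.finite_deg (a i))
  haveI : ∀ i : Fin N, Nonempty {β : A →₀ ℕ // β.degree = a i} := fun i =>
    ⟨⟨Finsupp.single (Classical.arbitrary A) (a i), by simp⟩⟩
  have hWj : W J.card ≤ Fintype.card A := by
    have h1 : W J.card ≤ ∑ j ∈ Finset.range (d + 1), W j :=
      Finset.single_le_sum (f := W) (fun _ _ => Nat.zero_le _)
        (Finset.mem_range.mpr (by omega))
    omega
  obtain ⟨v, hv⟩ := hW J.card (Fin N) A P (fun i => {β : A →₀ ℕ // β.degree = a i}) hWj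
    (fun i s => ⟨Finsupp.single s (a i), by simp⟩)
    (fun i β => monomial β.1 (Nat.multinomial Finset.univ β.1 : ℂ)) J rfl
    (by
      intro i hi s t hst
      rw [hJ, Finset.mem_filter] at hi
      have h1 : Finsupp.single s (a i) = Finsupp.single t (a i) := congrArg Subtype.val hst
      rw [Finsupp.single_eq_single_iff] at h1
      rcases h1 with h1 | h1
      · exact h1.1
      · exact absurd h1.1 hi.2)
    (by
      intro i _ s β
      rw [ColMX.eval_unit (a i) s β.1 β.2]
      by_cases h : β.1 = Finsupp.single s (a i)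
      · rw [if_pos h, if_pos (Subtype.ext h)]
      · rw [if_neg h, if_neg fun h' => h (congrArg Subtype.val h')])
    Ps Qs c (fun p => (c p).card - μ (lab p)) ref
    (by
      rw [Finset.disjoint_left]
      intro p hp hq
      rw [hPs, Finset.mem_filter] at hp
      rw [hQs, Finset.mem_filter] at hq
      exact hq.2 hp.2)
    (fun p _ => hcJ p) (fun q _ => hcJ q)
    (by
      intro p _ p' _ hpp
      have h2 := hpair p p' hpp
      exact ColMX.inter_ne (hcJ p) (hcJ p') (by omega))
    (by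
      intro p hp q hq
      have hpq : p ≠ q := by
        rintro rfl
        rw [hPs, Finset.mem_filter] at hp
        rw [hQs, Finset.mem_filter] at hq
        exact hq.2 hp.2
      have h2 := hpair p q hpq
      have h4 := hmu1 q
      refine le_trans (Nat.add_le_add_right (ColMX.union_le (hcJ p) (hcJ q)) 1) ?_
      show J.card + 1 ≤ (c p).card + ((c q).card - μ (lab q))
      omega)
    (by
      intro q _ q' _ hqq
      have h2 := hpair q q' hqq
      have h4 := hmu2 q q' hqq
      refine le_trans (Nat.add_le_add_right (ColMX.union_le (hcJ q) (hcJ q')) 1) ?_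
      show J.card + 1 ≤ ((c q).card - μ (lab q)) + ((c q').card - μ (lab q'))
      omega)
    hrefinj hQcard
    (by
      right
      refine le_trans ?_ hload
      apply Finset.sum_le_sum_of_subset_of_nonneg (Finset.subset_univ _)
      intro p _ _
      positivity)
  let v' : P → Fin N → A → ℂ := fun p i =>
    if μ (lab p) = 0 then v p i else Pi.single (ref p i) 1
  have hv' : Good (B := fun i => {β : A →₀ ℕ // β.degree = a i})
      (fun i s => ⟨Finsupp.single s (a i), by simp⟩)
      (fun i β => monomial β.1 (Nat.multinomial Finset.univ β.1 : ℂ)) J Ps Qs c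
      (fun p => (c p).card - μ (lab p)) ref v' := by
    refine ColMX.good_congr (fun p hp => ?_) hv
    rw [hPs, Finset.mem_filter] at hp
    funext i
    simp only [v', if_pos hp.2]
  have hcol : ColInj c lab ref a μ v' :=
    colInj_of_good c lab ref a μ hca v' (fun p hp i _ => by simp only [v', if_neg hp]) hv'
  obtain ⟨G, hG, hGv⟩ := colInj_open c lab ref a μ v' hcol
  exact ⟨ref, G, hG, hGv⟩

end Pool.Agent.H21.HD

end

section

/-!
Existence for PhiInj, independence in blocks.
-/

namespace Pool.Agent.H21.HD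

open MvPolynomial
open scoped Classical

variable {N : ℕ} {A Λ P : Type} [Fintype A] [Fintype Λ] [Fintype P]

namespace PhiExX

omit [Fintype A] [Fintype Λ] in
/-- Extension of `PhiInj` from the points with `c p ⊆ J` to all points. -/
theorem phiInj_extend [Fintype A] [Fintype Λ] (d : ℕ) (J : Finset (Fin N)) (c : P → Finset (Fin N))
    (v : {p : P // c p ⊆ J} → Fin N → A → ℂ) (y : {p : P // c p ⊆ J} → Λ → ℂ)
    (h : PhiInj d J (fun p : {p : P // c p ⊆ J} => c p.1) v y) :
    PhiInj d J c (fun p => if hp : c p ⊆ J then v ⟨p, hp⟩ else 0)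
      (fun p => if hp : c p ⊆ J then y ⟨p, hp⟩ else 0) := by
  intro g hg1 hg2 hg3
  have h0 : ∀ p, ¬ c p ⊆ J → g p = 0 := by
    intro p hp
    ext γ
    rw [coeff_zero]
    by_contra hne
    exact hp (hg2 p γ hne ▸ Finset.subset_union_right)
  have h1 := h (fun p => g p.1) (fun p => hg1 p.1) (fun p γ hne => hg2 p.1 γ hne) (by
    intro γ hγ
    rw [← hg3 γ hγ]
    congr 1
    have h2 : ∀ p : {p : P // c p ⊆ J},
        g p.1 * lin (vec (c p.1) (v p) (y p)) ^ (c p.1).card =
        g p.1 * lin (vec (c p.1) (if hp : c p.1 ⊆ J then v ⟨p.1, hp⟩ else 0)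
          (if hp : c p.1 ⊆ J then y ⟨p.1, hp⟩ else 0)) ^ (c p.1).card := by
      intro p
      rw [dif_pos p.2, dif_pos p.2]
    rw [Finset.sum_congr rfl fun p _ => h2 p]
    rw [← Finset.sum_filter_add_sum_filter_not Finset.univ (fun p => c p ⊆ J)
      (fun p => g p * lin (vec (c p) (if hp : c p ⊆ J then v ⟨p, hp⟩ else 0)
          (if hp : c p ⊆ J then y ⟨p, hp⟩ else 0)) ^ (c p).card)]
    rw [Finset.sum_eq_zero (s := Finset.univ.filter fun p => ¬ c p ⊆ J), add_zero]
    · exact (Finset.sum_subtype (Finset.univ.filter (fun p => c p ⊆ J)) (by simp)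
        (fun p => g p * lin (vec (c p) (if hp : c p ⊆ J then v ⟨p, hp⟩ else 0)
          (if hp : c p ⊆ J then y ⟨p, hp⟩ else 0)) ^ (c p).card)).symm
    · intro p hp
      rw [Finset.mem_filter] at hp
      rw [h0 p hp.2, zero_mul])
  intro p
  by_cases hp : c p ⊆ J
  · exact h1 ⟨p, hp⟩
  · exact h0 p hp

end PhiExX

/-- `PhiInj` holds for suitable parameters below the critical load. -/
theorem phiInj_exists (d : ℕ) (ε : ℝ) (hε : 0 < ε) : ∃ W : ℕ, ∀ (N : ℕ) (A Λ P : Type)
    [Fintype A] [Fintype Λ] [Fintype P], W ≤ Fintype.card A →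
    ∀ (c : P → Finset (Fin N)) (J : Finset (Fin N)), J.card ≤ d →
    (∀ p, (c p).card ≤ d) → (∀ p, (c p).Nonempty) →
    (∀ p q, p ≠ q → d + 1 ≤ (c p).card + (c q).card) →
    (Finset.univ.filter (fun p => c p ⊆ J)).card ≤ Fintype.card Λ →
    ∑ p ∈ Finset.univ.filter (fun p => c p ⊆ J),
      (1 : ℝ) / (Fintype.card A : ℝ) ^ (c p).card ≤ 1 - ε →
    ∃ (v : P → Fin N → A → ℂ) (y : P → Λ → ℂ), PhiInj d J c v y := by
  obtain ⟨W, hW⟩ := col_inj d ε hε
  refine ⟨W, ?_⟩
  intro N A Λ P _ _ _ hWA c J hJ hcd hne hpair hcard hload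
  obtain ⟨lab, hlab⟩ : ∃ lab : {p : P // c p ⊆ J} → Λ, Function.Injective lab := by
    have h1 : Fintype.card {p : P // c p ⊆ J} ≤ Fintype.card Λ := by
      rw [Fintype.card_subtype]
      exact hcard
    obtain ⟨f⟩ := Function.Embedding.nonempty_of_card_le h1
    exact ⟨f, f.injective⟩
  have hload' : ∑ p : {p : P // c p ⊆ J}, (1 : ℝ) / (Fintype.card A : ℝ) ^ (c p.1).card ≤ 1 - ε := by
    refine le_of_eq_of_le ?_ hload
    exact (Finset.sum_subtype (Finset.univ.filter (fun p => c p ⊆ J)) (by simp)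
      (fun p => (1 : ℝ) / (Fintype.card A : ℝ) ^ (c p).card)).symm
  have key : ∀ (a : Fin N → ℕ) (μ : Λ → ℕ), ∃ G : MvPolynomial ({p : P // c p ⊆ J} × Fin N × A) ℂ,
      G ≠ 0 ∧ (Finset.univ.filter (fun i => a i ≠ 0) = J → ∑ i, a i + ∑ l, μ l = d →
        ∀ v : {p : P // c p ⊆ J} → Fin N → A → ℂ, eval (fun x => v x.1 x.2.1 x.2.2) G ≠ 0 →
        ∃ ref : {p : P // c p ⊆ J} → Fin N → A,
          ColInj (fun p : {p : P // c p ⊆ J} => c p.1) lab ref a μ v) := by
    intro a μ
    by_cases hJa : Finset.univ.filter (fun i => a i ≠ 0) = J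
    · by_cases hs : ∑ i, a i + ∑ l, μ l = d
      · obtain ⟨ref, G, hG0, hG⟩ := hW N A Λ {p : P // c p ⊆ J} hWA
          (fun p : {p : P // c p ⊆ J} => c p.1) lab a μ hlab
          (by
            intro p i hi
            have h1 : i ∈ J := p.2 hi
            rw [← hJa] at h1
            simpa using h1)
          (by
            intro p q hpq
            exact hpair p.1 q.1 fun h => hpq (Subtype.ext h))
          (fun p => hne p.1) hs hload'
        exact ⟨G, hG0, fun _ _ v hv => ⟨ref, hG v hv⟩⟩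
      · exact ⟨1, one_ne_zero, fun _ h => absurd h hs⟩
    · exact ⟨1, one_ne_zero, fun h => absurd h hJa⟩
  choose G hG0 hG using key
  obtain ⟨x, hx⟩ := exists_common (σ := {p : P // c p ⊆ J} × Fin N × A)
    (Finset.univ : Finset (((Fin N → Fin (d + 1)) × (Λ → Fin (d + 1))) ⊕
      ({p : P // c p ⊆ J} × Fin N × A)))
    (Sum.elim (fun z => G (fun i => (z.1 i : ℕ)) (fun l => (z.2 l : ℕ))) (fun z => X z))
    (by
      rintro (z | z) _
      · exact hG0 _ _
      · exact X_ne_zero z)
  have hphi : PhiInj d J (fun p : {p : P // c p ⊆ J} => c p.1)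
      (fun p i a => x (p, i, a)) (fun p => Pi.single (lab p) 1) := by
    apply phiInj_of_col d J _ (fun p => p.2) (fun p => hcd p.1) lab
    · intro p i a
      simpa using hx (Sum.inr (p, i, a)) (Finset.mem_univ _)
    · intro a μ hJa hs
      have ha : ∀ i, a i < d + 1 := by
        intro i
        have : a i ≤ ∑ i, a i := Finset.single_le_sum (fun _ _ => Nat.zero_le _) (Finset.mem_univ i)
        omega
      have hμ : ∀ l, μ l < d + 1 := by
        intro l
        have : μ l ≤ ∑ l, μ l := Finset.single_le_sum (fun _ _ => Nat.zero_le _) (Finset.mem_univ l)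
        omega
      have h1 := hx (Sum.inl (fun i => ⟨a i, ha i⟩, fun l => ⟨μ l, hμ l⟩)) (Finset.mem_univ _)
      exact hG a μ hJa hs _ h1
  exact ⟨_, _, PhiExX.phiInj_extend d J c _ _ hphi⟩

/-- Independence of powers of suitable linear forms in `N * |A| + |Λ|` variables. -/
theorem ind_blocks (d : ℕ) (ε : ℝ) (hε : 0 < ε) : ∃ W : ℕ, ∀ (N : ℕ) (A Λ P : Type)
    [Fintype A] [Fintype Λ] [Fintype P], W ≤ Fintype.card A →
    ∀ (c : P → Finset (Fin N)), (∀ p, (c p).card ≤ d) → (∀ p, (c p).Nonempty) →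
    (∀ p q, p ≠ q → d + 1 ≤ (c p).card + (c q).card) →
    (∀ J : Finset (Fin N), J.card ≤ d →
      (Finset.univ.filter (fun p => c p ⊆ J)).card ≤ Fintype.card Λ ∧
      ∑ p ∈ Finset.univ.filter (fun p => c p ⊆ J),
        (1 : ℝ) / (Fintype.card A : ℝ) ^ (c p).card ≤ 1 - ε) →
    ∃ w : P → Sg N A Λ → ℂ, Indep d w (fun p => (c p).card) := by
  obtain ⟨W, hW⟩ := phiInj_exists d ε hε
  refine ⟨W, ?_⟩
  intro N A Λ P _ _ _ hWA c hcd hne hpair hJ
  have key : ∀ J : Finset (Fin N), ∃ G : MvPolynomial ((P × Fin N × A) ⊕ (P × Λ)) ℂ, G ≠ 0 ∧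
      (J.card ≤ d → ∀ (v : P → Fin N → A → ℂ) (y : P → Λ → ℂ),
        eval (Sum.elim (fun x => v x.1 x.2.1 x.2.2) (fun x => y x.1 x.2)) G ≠ 0 →
        PhiInj d J c v y) := by
    intro J
    by_cases hJd : J.card ≤ d
    · obtain ⟨v, y, hvy⟩ := hW N A Λ P hWA c J hJd hcd hne hpair (hJ J hJd).1 (hJ J hJd).2
      obtain ⟨G, hG0, hG⟩ := phiInj_open d J c v y hvy
      exact ⟨G, hG0, fun _ => hG⟩
    · exact ⟨1, one_ne_zero, fun h => absurd h hJd⟩
  choose G hG0 hG using key
  obtain ⟨x, hx⟩ := exists_common (Finset.univ : Finset (Finset (Fin N))) G fun J _ => hG0 J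
  refine ⟨fun p => vec (c p) (fun i a => x (Sum.inl (p, i, a))) (fun l => x (Sum.inr (p, l))), ?_⟩
  apply indep_of_phiInj d c hcd (fun p i a => x (Sum.inl (p, i, a))) (fun p l => x (Sum.inr (p, l)))
  intro J hJd
  apply hG J hJd
  have h1 := hx J (Finset.mem_univ J)
  have h2 : Sum.elim (fun z : P × Fin N × A => x (Sum.inl (z.1, z.2.1, z.2.2)))
      (fun z : P × Λ => x (Sum.inr (z.1, z.2))) = x := by
    funext z
    rcases z with z | z <;> rfl
  rw [h2]
  exact h1

end Pool.Agent.H21.HD

end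

section

/-!
The independence theorem.
-/

namespace Pool.Agent.H21.HD

open MvPolynomial
open scoped Classical

/-- balanced types -/
private lemma indMain_types {P : Type} [Fintype P] (d N : ℕ) (hN : d ≤ N) (e : P → ℕ)
    (he : ∀ p, 1 ≤ e p ∧ e p ≤ d) :
    ∃ c : P → Finset (Fin N), (∀ p, (c p).card = e p) ∧
      ∀ s : Finset (Fin N), s.card ≤ d → (Finset.univ.filter (fun p => c p = s)).card ≤
        (Finset.univ.filter (fun p => e p = s.card)).card / N.choose s.card + 1 := by
  have h1 : ∀ i : ℕ, i ≤ d → ∃ f : {p // e p = i} → {s : Finset (Fin N) // s.card = i},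
      ∀ y, (Finset.univ.filter (fun x => f x = y)).card ≤
        Fintype.card {p // e p = i} / Fintype.card {s : Finset (Fin N) // s.card = i} + 1 := by
    intro i hi
    have : Nonempty {s : Finset (Fin N) // s.card = i} := by
      obtain ⟨s, hs1, hs2⟩ := Finset.exists_subset_card_eq
        (s := (Finset.univ : Finset (Fin N))) (n := i) (by simp; omega)
      exact ⟨⟨s, hs2⟩⟩
    obtain ⟨f, hf⟩ := exists_balanced (X := {p // e p = i}) (Y := {s : Finset (Fin N) // s.card = i})
    refine ⟨f, fun y => ?_⟩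
    convert hf y
  choose f hf using h1
  refine ⟨fun p => (f (e p) (he p).2 ⟨p, rfl⟩).1, fun p => (f (e p) (he p).2 ⟨p, rfl⟩).2, ?_⟩
  intro s hs
  have h2 := hf s.card hs ⟨s, rfl⟩
  have h3 : Fintype.card {s' : Finset (Fin N) // s'.card = s.card} = N.choose s.card := by
    rw [Fintype.card_finset_len, Fintype.card_fin]
  have h4 : Fintype.card {p // e p = s.card} =
      (Finset.univ.filter (fun p => e p = s.card)).card := by
    rw [Fintype.card_subtype]
  rw [h3, h4] at h2
  refine le_trans ?_ h2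
  apply Finset.card_le_card_of_surjOn (fun x : {p // e p = s.card} => x.1)
  intro p hp
  simp only [Finset.coe_filter, Finset.mem_univ, true_and, Set.mem_ofPred_eq] at hp
  have h5 : e p = s.card := by
    rw [← hp]
    exact (f (e p) (he p).2 ⟨p, rfl⟩).2.symm
  refine ⟨⟨p, h5⟩, ?_, rfl⟩
  simp only [Finset.coe_filter, Finset.mem_univ, true_and, Set.mem_ofPred_eq]
  apply Subtype.ext
  show (f s.card hs ⟨p, h5⟩).1 = s
  have key : ∀ (i : ℕ) (hi : i ≤ d) (hpi : e p = i),
      (f i hi ⟨p, hpi⟩).1 = (f (e p) (he p).2 ⟨p, rfl⟩).1 := by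
    intro i hi hpi
    subst hpi
    rfl
  rw [key s.card hs h5, hp]

/-- the load of a set of blocks -/
private lemma indMain_load {P : Type} [Fintype P] (d N h r : ℕ) (hh : 1 ≤ h) (ε : ℝ)
    (hε : 0 < ε) (hh2 : 4 * (2 : ℝ) ^ d ≤ ε * h) (e : P → ℕ)
    (he : ∀ p, 1 ≤ e p ∧ e p ≤ d)
    (hsum : (∑ p, ((r + (d - e p)).choose r : ℝ)) ≤ (1 - ε) * ((r + d).choose r : ℝ))
    (hest : ∀ e : ℕ, 1 ≤ e → e ≤ d →
        (d.choose e : ℝ) / ((N.choose e : ℝ) * (h : ℝ) ^ e) ≤
          (1 + ε / 2) * ((r + (d - e)).choose r : ℝ) / ((r + d).choose r : ℝ))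
    (c : P → Finset (Fin N)) (hc : ∀ p, (c p).card = e p)
    (hc2 : ∀ s : Finset (Fin N), s.card ≤ d → (Finset.univ.filter (fun p => c p = s)).card ≤
        (Finset.univ.filter (fun p => e p = s.card)).card / N.choose s.card + 1)
    (J : Finset (Fin N)) (hJ : J.card ≤ d) :
    ∑ p ∈ Finset.univ.filter (fun p => c p ⊆ J), (1 : ℝ) / (h : ℝ) ^ (c p).card ≤
      1 - ε / 4 := by
  have hh0 : (0 : ℝ) < h := by exact_mod_cast hh
  have hh1 : (1 : ℝ) ≤ h := by exact_mod_cast hh
  have hS : (0 : ℝ) < ((r + d).choose r : ℝ) := by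
    exact_mod_cast Nat.choose_pos (Nat.le_add_right r d)
  set k : ℕ → ℕ := fun i => (Finset.univ.filter (fun p => e p = i)).card with hk
  set F : ℕ → ℝ := fun i => if i = 0 then 0 else ((k i : ℝ) / (N.choose i : ℝ) + 1) /
    (h : ℝ) ^ i with hF
  have hF0 : ∀ i, 0 ≤ F i := by
    intro i
    simp only [hF]
    split_ifs
    · exact le_refl _
    · positivity
  have e1 : ∑ p ∈ Finset.univ.filter (fun p => c p ⊆ J), (1 : ℝ) / (h : ℝ) ^ (c p).card =
      ∑ s ∈ J.powerset, ∑ p ∈ (Finset.univ.filter (fun p => c p ⊆ J)).filter (fun p => c p = s),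
        (1 : ℝ) / (h : ℝ) ^ (c p).card := by
    rw [Finset.sum_fiberwise_of_maps_to]
    intro p hp
    rw [Finset.mem_powerset]
    exact (Finset.mem_filter.mp hp).2
  have e2 : ∀ s ∈ J.powerset, ∑ p ∈ (Finset.univ.filter (fun p => c p ⊆ J)).filter
      (fun p => c p = s), (1 : ℝ) / (h : ℝ) ^ (c p).card ≤ F s.card := by
    intro s hs
    rw [Finset.mem_powerset] at hs
    have hsd : s.card ≤ d := (Finset.card_le_card hs).trans hJ
    have h1 : ∑ p ∈ (Finset.univ.filter (fun p => c p ⊆ J)).filter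
        (fun p => c p = s), (1 : ℝ) / (h : ℝ) ^ (c p).card =
        (((Finset.univ.filter (fun p => c p ⊆ J)).filter (fun p => c p = s)).card : ℝ) *
          (1 / (h : ℝ) ^ s.card) := by
      rw [← nsmul_eq_mul, ← Finset.sum_const]
      apply Finset.sum_congr rfl
      intro p hp
      rw [(Finset.mem_filter.mp hp).2]
    rw [h1]
    by_cases hs0 : s.card = 0
    · have h2 : ((Finset.univ.filter (fun p => c p ⊆ J)).filter (fun p => c p = s)).card = 0 := by
        rw [Finset.card_eq_zero, Finset.filter_eq_empty_iff]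
        intro p _ hps
        have h3 := hc p
        rw [hps, hs0] at h3
        have := (he p).1
        omega
      rw [h2]
      simp only [hF, hs0, if_true]
      simp
    · simp only [hF, hs0, if_false]
      have h2 : (((Finset.univ.filter (fun p => c p ⊆ J)).filter (fun p => c p = s)).card : ℝ) ≤
          (k s.card : ℝ) / (N.choose s.card : ℝ) + 1 := by
        have h3 : ((Finset.univ.filter (fun p => c p ⊆ J)).filter (fun p => c p = s)).card ≤
            k s.card / N.choose s.card + 1 := by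
          refine le_trans (Finset.card_le_card ?_) (hc2 s hsd)
          intro p hp
          rw [Finset.mem_filter] at hp ⊢
          exact ⟨Finset.mem_univ _, hp.2⟩
        have h4 : (((Finset.univ.filter (fun p => c p ⊆ J)).filter (fun p => c p = s)).card : ℝ) ≤
            ((k s.card / N.choose s.card + 1 : ℕ) : ℝ) := by exact_mod_cast h3
        push_cast at h4
        have h5 : ((k s.card / N.choose s.card : ℕ) : ℝ) ≤
            (k s.card : ℝ) / (N.choose s.card : ℝ) := Nat.cast_div_le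
        linarith
      rw [mul_one_div]
      apply div_le_div_of_nonneg_right h2 (by positivity)
  have e3 : ∑ s ∈ J.powerset, F s.card ≤ ∑ m ∈ Finset.range (d + 1), (d.choose m : ℝ) * F m := by
    rw [Finset.sum_powerset_apply_card]
    calc ∑ m ∈ Finset.range (J.card + 1), (J.card.choose m) • F m
        ≤ ∑ m ∈ Finset.range (J.card + 1), (d.choose m : ℝ) * F m := by
          apply Finset.sum_le_sum
          intro m _
          rw [nsmul_eq_mul]
          apply mul_le_mul_of_nonneg_right _ (hF0 m)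
          exact_mod_cast Nat.choose_le_choose m hJ
      _ ≤ ∑ m ∈ Finset.range (d + 1), (d.choose m : ℝ) * F m := by
          apply Finset.sum_le_sum_of_subset_of_nonneg
          · intro m hm
            rw [Finset.mem_range] at hm ⊢
            omega
          · intro m _ _
            exact mul_nonneg (Nat.cast_nonneg _) (hF0 m)
  have e4 : ∀ m ∈ Finset.range (d + 1), (d.choose m : ℝ) * F m ≤
      (k m : ℝ) * ((1 + ε / 2) * ((r + (d - m)).choose r : ℝ) / ((r + d).choose r : ℝ)) +
        (d.choose m : ℝ) * (1 / h) := by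
    intro m hm
    rw [Finset.mem_range] at hm
    by_cases hm0 : m = 0
    · have : F m = 0 := by simp only [hF, hm0, if_true]
      rw [this]
      have h1 : (0 : ℝ) ≤ 1 + ε / 2 := by linarith
      simp only [mul_zero]
      positivity
    · have h1 : F m = ((k m : ℝ) / (N.choose m : ℝ) + 1) / (h : ℝ) ^ m := by
        simp only [hF, hm0, if_false]
      rw [h1]
      have h2 := hest m (by omega) (by omega)
      have h3 : (d.choose m : ℝ) * (((k m : ℝ) / (N.choose m : ℝ) + 1) / (h : ℝ) ^ m) =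
          (k m : ℝ) * ((d.choose m : ℝ) / ((N.choose m : ℝ) * (h : ℝ) ^ m)) +
            (d.choose m : ℝ) * (1 / (h : ℝ) ^ m) := by
        rw [add_div, mul_add, div_div]
        ring
      rw [h3]
      apply add_le_add
      · exact mul_le_mul_of_nonneg_left h2 (Nat.cast_nonneg _)
      · apply mul_le_mul_of_nonneg_left _ (Nat.cast_nonneg _)
        apply one_div_le_one_div_of_le hh0
        exact le_self_pow₀ hh1 hm0
  have e5 : ∑ m ∈ Finset.range (d + 1), (k m : ℝ) *
      ((1 + ε / 2) * ((r + (d - m)).choose r : ℝ) / ((r + d).choose r : ℝ)) =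
      ∑ p, ((1 + ε / 2) * ((r + (d - e p)).choose r : ℝ) / ((r + d).choose r : ℝ)) := by
    rw [← Finset.sum_fiberwise_of_maps_to (s := (Finset.univ : Finset P))
      (t := Finset.range (d + 1)) (g := e)
      (fun p _ => Finset.mem_range.mpr (Nat.lt_succ_of_le (he p).2))]
    apply Finset.sum_congr rfl
    intro m _
    rw [hk, ← nsmul_eq_mul, ← Finset.sum_const]
    apply Finset.sum_congr rfl
    intro p hp
    rw [(Finset.mem_filter.mp hp).2]
  have e6 : ∑ p, ((1 + ε / 2) * ((r + (d - e p)).choose r : ℝ) / ((r + d).choose r : ℝ)) ≤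
      (1 + ε / 2) * (1 - ε) := by
    rw [← Finset.sum_div, ← Finset.mul_sum, div_le_iff₀ hS, mul_assoc]
    exact mul_le_mul_of_nonneg_left hsum (by linarith)
  have e7 : ∑ m ∈ Finset.range (d + 1), (d.choose m : ℝ) * (1 / h) ≤ ε / 4 := by
    rw [← Finset.sum_mul]
    have h1 : ∑ m ∈ Finset.range (d + 1), (d.choose m : ℝ) = (2 : ℝ) ^ d := by
      exact_mod_cast Nat.sum_range_choose d
    rw [h1, mul_one_div, div_le_iff₀ hh0]
    linarith
  calc ∑ p ∈ Finset.univ.filter (fun p => c p ⊆ J), (1 : ℝ) / (h : ℝ) ^ (c p).card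
      ≤ ∑ s ∈ J.powerset, F s.card := by
        rw [e1]; exact Finset.sum_le_sum e2
    _ ≤ ∑ m ∈ Finset.range (d + 1), (d.choose m : ℝ) * F m := e3
    _ ≤ ∑ m ∈ Finset.range (d + 1), ((k m : ℝ) *
        ((1 + ε / 2) * ((r + (d - m)).choose r : ℝ) / ((r + d).choose r : ℝ)) +
        (d.choose m : ℝ) * (1 / h)) := Finset.sum_le_sum e4
    _ ≤ (1 + ε / 2) * (1 - ε) + ε / 4 := by
        rw [Finset.sum_add_distrib, e5]
        exact add_le_add e6 e7
    _ ≤ 1 - ε / 4 := by nlinarith

/-- The independence theorem. -/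
theorem ind_main (d : ℕ) (hd : 1 ≤ d) (ε : ℝ) (hε : 0 < ε) : ∃ r₀ : ℕ, ∀ r : ℕ, r₀ ≤ r →
    ∀ (P : Type) [Fintype P] (e : P → ℕ), (∀ p, 1 ≤ e p ∧ e p ≤ d) →
    (∀ p q, p ≠ q → d + 1 ≤ e p + e q) →
    (∑ p, ((r + (d - e p)).choose r : ℝ)) ≤ (1 - ε) * ((r + d).choose r : ℝ) →
    ∃ w : P → Fin (r + 1) → ℂ, Indep d w e := by
  obtain ⟨W, hW⟩ := ind_blocks d (ε / 4) (by positivity)
  set h : ℕ := max W (max 1 ⌈4 * (2 : ℝ) ^ d / ε⌉₊) with hh
  have hhW : W ≤ h := le_max_left _ _
  have hh1 : 1 ≤ h := (le_max_left _ _).trans (le_max_right _ _)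
  have hh2 : 4 * (2 : ℝ) ^ d ≤ ε * h := by
    have h1 : ⌈4 * (2 : ℝ) ^ d / ε⌉₊ ≤ h := (le_max_right _ _).trans (le_max_right _ _)
    have h2 : 4 * (2 : ℝ) ^ d / ε ≤ h := (Nat.le_ceil _).trans (by exact_mod_cast h1)
    rw [div_le_iff₀ hε] at h2
    linarith
  have hh0 : (0 : ℝ) < h := by exact_mod_cast hh1
  obtain ⟨r₁, hr₁⟩ := load_estimate d h hd hh1 (ε / 2) (by positivity)
  refine ⟨max r₁ (h ^ d), ?_⟩
  intro r hr P _ e he hpair hsum
  have hr1 : r₁ ≤ r := (le_max_left _ _).trans hr
  have hr2 : h ^ d ≤ r := (le_max_right _ _).trans hr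
  set N : ℕ := (r + 1 - h ^ d) / h with hN
  have hN1 : N * h ≤ r + 1 - h ^ d := Nat.div_mul_le_self _ _
  have hN2 : r + 1 - h ^ d < (N + 1) * h := by
    have h1 := Nat.lt_mul_div_succ (r + 1 - h ^ d) hh1
    rw [hN, mul_comm]
    exact h1
  obtain ⟨hdN, hest⟩ := hr₁ r hr1 N (by omega)
  obtain ⟨c, hc, hc2⟩ := indMain_types d N hdN e he
  have hload := fun J hJ => indMain_load d N h r hh1 ε hε hh2 e he hsum hest c hc hc2 J hJ
  obtain ⟨w, hw⟩ := hW N (Fin h) (Fin (r + 1 - N * h)) P (by simpa using hhW) c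
    (fun p => by rw [hc p]; exact (he p).2)
    (fun p => by rw [← Finset.card_pos, hc p]; exact (he p).1)
    (fun p q hpq => by rw [hc p, hc q]; exact hpair p q hpq)
    (by
      intro J hJ
      have h1 := hload J hJ
      rw [Fintype.card_fin, Fintype.card_fin]
      refine ⟨?_, h1⟩
      have h2 : ((Finset.univ.filter (fun p => c p ⊆ J)).card : ℝ) * (1 / (h : ℝ) ^ d) ≤
          ∑ p ∈ Finset.univ.filter (fun p => c p ⊆ J), (1 : ℝ) / (h : ℝ) ^ (c p).card := by
        rw [← nsmul_eq_mul, ← Finset.sum_const]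
        apply Finset.sum_le_sum
        intro p _
        apply one_div_le_one_div_of_le (by positivity)
        apply pow_le_pow_right₀ (by exact_mod_cast hh1)
        rw [hc p]
        exact (he p).2
      have h3 : ((Finset.univ.filter (fun p => c p ⊆ J)).card : ℝ) ≤ (h : ℝ) ^ d := by
        have h4 := h2.trans h1
        rw [mul_one_div, div_le_iff₀ (by positivity)] at h4
        have h5 : (0 : ℝ) < (h : ℝ) ^ d := by positivity
        nlinarith
      have h4 : (Finset.univ.filter (fun p => c p ⊆ J)).card ≤ h ^ d := by exact_mod_cast h3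
      omega)
  have hcard : (fun p => (c p).card) = e := funext hc
  rw [hcard] at hw
  have hE : Fintype.card (Sg N (Fin h) (Fin (r + 1 - N * h))) = r + 1 := by
    simp only [Fintype.card_sum, Fintype.card_prod, Fintype.card_fin]
    omega
  exact ⟨_, indep_transport (Fintype.equivFinOfCardEq hE) d w e hw⟩

end Pool.Agent.H21.HD

end
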