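import Pool.Agent.H94.LP7.M17
import Pool.Agent.H94.LP7.M23
import Pool.Agent.H94.LP7.M28
import Pool.Agent.H94.LP7.M35
import Pool.Agent.H94.LP7.M48
import Pool.Agent.H94.LP7.M53
import Pool.Agent.H94.LP7.M88

/-! The parts of this file: H21.HD.SpanBlocks, H21.HD.SpanMain_1, H21.HD.Vanish, H21.HD.Upper, H21.HD.Lower_1. -/

section

/-!
Spanning in blocks.
-/

namespace Pool.Agent.H21.HD

open MvPolynomial
open scoped Classical

/-- `powSpan` grows when the family is enlarged. -/
private lemma powSpan_inl {σ X α : Type*} [Fintype σ] (d : ℕ) (w₁ : X → σ → ℂ) (w₂ : α → σ → ℂ)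
    (e₁ : X → ℕ) (e₂ : α → ℕ) :
    powSpan d w₁ e₁ ≤ powSpan d (Sum.elim w₁ w₂) (Sum.elim e₁ e₂) := by
  apply Submodule.span_mono
  rintro F ⟨p, g, h1, h2, rfl⟩
  exact ⟨Sum.inl p, g, h1, h2, rfl⟩

/-- Spanning in `N * |A|` variables. -/
theorem span_blocks (d : ℕ) (η : ℝ) (hη : 0 < η) : ∃ W : ℕ, ∀ (A : Type) [Fintype A],
    W ≤ Fintype.card A → ∀ (N e₀ : ℕ), 2 ≤ e₀ → e₀ ≤ d → d ≤ N →
    ∀ (X : Type) [Fintype X],
    N.choose (e₀ - 1) * ((e₀ - 1) * Fintype.card A - 1 + e₀).choose e₀ ≤ Fintype.card X →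
    ∀ (α : Type) [Fintype α] (c : α → Finset (Fin N)), (∀ p, (c p).Nonempty) →
    ∀ lam : ℕ → ℝ, (∀ i, 0 ≤ lam i) → (∃ j ≤ d, phi lam j ≤ 0) →
    (∀ T : Finset (Fin N), T.Nonempty → T.card ≤ d → 0 < lam T.card →
      (lam T.card + η) * (Fintype.card A : ℝ) ^ T.card ≤
        (Finset.univ.filter (fun p => c p = T)).card) →
    ∃ (w : X ⊕ α → Fin N × A → ℂ),
      homogeneousSubmodule (Fin N × A) ℂ d ≤
        powSpan d w (Sum.elim (fun _ => e₀) (fun p => (c p).card)) := by
  obtain ⟨W₀, hW₀⟩ := tensor_span d η hη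
  refine ⟨max W₀ 1, ?_⟩
  intro A _ hA N e₀ h2 hed hdN X _ hX α _ c hc lam hlam hphi hT
  have hA1 : 1 ≤ Fintype.card A := le_trans (le_max_right _ _) hA
  haveI : Nonempty A := Fintype.card_pos_iff.1 hA1
  obtain ⟨j, hjd, hj⟩ := hphi
  -- the columns
  have hcol : ∀ J : Finset (Fin N), J.card = d → ∃ v : α → Fin N → A → ℂ,
      SpanGood J (Finset.univ.filter (fun p => c p ⊆ J)) c v := by
    intro J hJ
    refine hW₀ (Fin N) A α (le_trans (le_max_left _ _) hA) J hJ (fun T => lam T.card)
      (fun T => hlam _) ?_ _ c ?_ ?_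
    · obtain ⟨J', hJ', hJ'c⟩ := Finset.exists_subset_card_eq (s := J) (n := j) (by omega)
      refine ⟨J', hJ', ?_⟩
      rw [FF_card lam J' (fun T => lam T.card) (fun T _ _ => rfl), hJ'c]
      exact hj
    · intro p hp
      exact ⟨(Finset.mem_filter.1 hp).2, hc p⟩
    · intro T hTJ hTn hTl
      have h1 := hT T hTn (by rw [← hJ]; exact Finset.card_le_card hTJ) hTl
      refine h1.trans (le_of_eq ?_)
      congr 2
      ext p
      simp only [Finset.mem_filter, Finset.mem_univ, true_and]
      constructor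
      · intro h
        exact ⟨by rw [h]; exact hTJ, h⟩
      · intro h
        exact h.2
  choose! vJ hvJ using hcol
  have hopen : ∀ J : Finset (Fin N), J.card = d → ∃ G : MvPolynomial (α × Fin N × A) ℂ, G ≠ 0 ∧
      ∀ v : α → Fin N → A → ℂ, eval (fun x => v x.1 x.2.1 x.2.2) G ≠ 0 →
        SpanGood J (Finset.univ.filter (fun p => c p ⊆ J)) c v := by
    intro J hJ
    exact spanGood_open J _ c (fun p hp => (Finset.mem_filter.1 hp).2) (vJ J) (hvJ J hJ)
  choose! G hG0 hG using hopen
  obtain ⟨x, hx⟩ := exists_common (Finset.powersetCard d (Finset.univ : Finset (Fin N))) G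
    (fun J hJ => hG0 J (Finset.mem_powersetCard.1 hJ).2)
  -- the killers
  obtain ⟨w₁, hw₁⟩ := exists_block_powers (N := N) (A := A) e₀ h2 X hX
  refine ⟨Sum.elim w₁ (fun p => vecB (c p) (fun i a => x (p, i, a))), ?_⟩
  refine span_of_columns d _ _ ?_ c (fun p i a => x (p, i, a)) Sum.inr ?_ ?_
  · intro γ hγ hi
    refine nonsquarefree_of_blocks d e₀ h2 hed (by omega) _ _ ?_ γ hγ hi
    intro b hb F hF hFb
    exact powSpan_inl e₀ w₁ _ (fun _ => e₀) _ (hw₁ b hb F hF hFb)
  · intro p
    exact ⟨rfl, rfl⟩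
  · intro J hJ
    refine ⟨Finset.univ.filter (fun p => c p ⊆ J), fun p hp => (Finset.mem_filter.1 hp).2, ?_⟩
    refine hG J hJ (fun p i a => x (p, i, a)) ?_
    have h1 := hx J (Finset.mem_powersetCard.2 ⟨Finset.subset_univ J, hJ⟩)
    exact h1

end Pool.Agent.H21.HD

end

section

/-!
The spanning theorem.
-/

namespace Pool.Agent.H21.HD

open MvPolynomial
open scoped Classical

namespace SpanMainX

end SpanMainX

open SpanMainX in
/-- The spanning theorem. -/
theorem span_main (d : ℕ) (hd : 1 ≤ d) (η : ℝ) (hη : 0 < η) : ∃ r₀ : ℕ, ∀ r : ℕ, r₀ ≤ r →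
    ∀ (P : Type) [Fintype P] (e : P → ℕ) (lam : ℕ → ℝ), (∀ i, 0 ≤ lam i ∧ lam i ≤ 1) →
    (∃ j ≤ d, phi lam j ≤ 0) →
    (∀ i, 1 ≤ i → i ≤ d → 0 < lam i → (lam i + η) * ((r : ℝ) + 1) ^ i / (i.factorial : ℝ) ≤
      (Finset.univ.filter (fun p => e p = i)).card) →
    ∃ w : P → Fin (r + 1) → ℂ, homogeneousSubmodule (Fin (r + 1)) ℂ d ≤ powSpan d w e := by
  obtain ⟨W, hW⟩ := span_blocks d (η / 4) (by positivity)
  obtain ⟨h, hWh, hh, hηh⟩ : ∃ h : ℕ, W ≤ h ∧ 1 ≤ h ∧ 4 ≤ η * h := by
    refine ⟨max W (max 1 ⌈4 / η⌉₊), le_max_left _ _, le_trans (le_max_left _ _) (le_max_right _ _), ?_⟩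
    have h1 : 4 / η ≤ (⌈4 / η⌉₊ : ℝ) := Nat.le_ceil _
    have h2 : (⌈4 / η⌉₊ : ℝ) ≤ ((max W (max 1 ⌈4 / η⌉₊) : ℕ) : ℝ) := by
      exact_mod_cast le_trans (le_max_right _ _) (le_max_right _ _)
    have h3 : 4 / η ≤ ((max W (max 1 ⌈4 / η⌉₊) : ℕ) : ℝ) := h1.trans h2
    rw [div_le_iff₀ hη] at h3
    linarith only [h3]
  set M : ℕ := 2 ^ (d * h + d) * d + d with hM
  refine ⟨max (h * M) ⌈(1 + η) * (h : ℝ) ^ (d + 1) * d⌉₊, ?_⟩
  intro r hr P _ e lam hlam hphi hcount
  by_cases hcase : ∃ e₀, 2 ≤ e₀ ∧ e₀ ≤ d ∧ 0 < lam e₀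
  swap
  · apply case_one d hd η hη r P e lam hlam hphi _ hcount
    intro i h2 hid
    by_contra hne
    exact hcase ⟨i, h2, hid, lt_of_le_of_ne (hlam i).1 (Ne.symm hne)⟩
  obtain ⟨e₀, he2, hed, hle0⟩ := hcase
  set N : ℕ := (r + h) / h with hNdef
  obtain ⟨hN1, hN2⟩ := ceil_bounds h r hh
  rw [← hNdef] at hN1 hN2
  have hrM : h * M ≤ r := le_trans (le_max_left _ _) hr
  have hrη : (1 + η) * (h : ℝ) ^ (d + 1) * d ≤ (r : ℝ) + 1 := by
    have h1 : ⌈(1 + η) * (h : ℝ) ^ (d + 1) * d⌉₊ ≤ r := le_trans (le_max_right _ _) hr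
    have h2 := Nat.le_ceil ((1 + η) * (h : ℝ) ^ (d + 1) * d)
    have h3 : ((⌈(1 + η) * (h : ℝ) ^ (d + 1) * d⌉₊ : ℕ) : ℝ) ≤ (r : ℝ) := by exact_mod_cast h1
    linarith only [h2, h3]
  have hMN : M ≤ N := by
    have h1 : M * h ≤ N * h := by
      calc M * h = h * M := mul_comm _ _
        _ ≤ r := hrM
        _ ≤ N * h := by omega
    exact Nat.le_of_mul_le_mul_right h1 (by omega)
  have hdN : d ≤ N := by omega
  -- numerical facts
  have hnum : ∀ i, 1 ≤ i → i ≤ d → 0 < lam i →
      (lam i + η / 4) * (h : ℝ) ^ i ≤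
        (((Finset.univ.filter (fun p => e p = i)).card : ℝ) / (N.choose i : ℝ)) - 2 ∧
      N.choose i ≤ (Finset.univ.filter (fun p => e p = i)).card := by
    intro i h1 h2 h3
    exact num_est d η hη h hh hηh r hrη N hN1 hN2 i h1 h2 (by omega) (lam i) (hlam i).1 (hlam i).2 _
      (hcount i h1 h2 h3)
  have hkill := killers d h N e₀ he2 hed hMN
  set K1 : ℕ := N.choose (e₀ - 1) * ((e₀ - 1) * h - 1 + e₀).choose e₀ with hK1
  -- the killers
  obtain ⟨K, hKsub, hKcard⟩ := Finset.exists_subset_card_eq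
    (hkill.trans (hnum e₀ (by omega) hed hle0).2)
  -- the other points
  let α : Type := {p : P // p ∉ K ∧ 1 ≤ e p ∧ e p ≤ d}
  have hbal : ∀ i : ℕ, i ≤ N → ∃ f : {p : α // e p.1 = i} → {T : Finset (Fin N) // T.card = i},
      ∀ T, Fintype.card {p : α // e p.1 = i} / N.choose i ≤
        (Finset.univ.filter (fun x => f x = T)).card := by
    intro i hi
    have hne : Nonempty {T : Finset (Fin N) // T.card = i} := by
      obtain ⟨T, -, hT⟩ := Finset.exists_subset_card_eq (s := (Finset.univ : Finset (Fin N)))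
        (n := i) (by simpa using hi)
      exact ⟨⟨T, hT⟩⟩
    obtain ⟨f, hf⟩ := exists_balanced' (X := {p : α // e p.1 = i})
      (Y := {T : Finset (Fin N) // T.card = i})
    refine ⟨f, fun T => ?_⟩
    have hcY : Fintype.card {T : Finset (Fin N) // T.card = i} = N.choose i := by
      rw [Fintype.card_finset_len, Fintype.card_fin]
    rw [← hcY]
    convert hf T
  choose f hf using hbal
  have hαN : ∀ p : α, e p.1 ≤ N := fun p => le_trans p.2.2.2 hdN
  let c : α → Finset (Fin N) := fun p => (f (e p.1) (hαN p) ⟨p, rfl⟩).1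
  have hc : ∀ p, (c p).card = e p.1 := fun p => (f (e p.1) (hαN p) ⟨p, rfl⟩).2
  have hcne : ∀ p, (c p).Nonempty := by
    intro p
    rw [← Finset.card_pos, hc p]
    exact p.2.2.1
  have hcast : ∀ (i : ℕ) (hi : i ≤ N) (x : {p : α // e p.1 = i}), c x.1 = (f i hi x).1 := by
    rintro i hi ⟨p, hp⟩
    subst hp
    rfl
  have hcountα : ∀ i, 1 ≤ i → i ≤ d →
      (Finset.univ.filter (fun p : P => e p = i)).card ≤
        Fintype.card {p : α // e p.1 = i} + N.choose i := by
    intro i hi hid
    by_cases hie : i = e₀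
    · have h1 : (Finset.univ.filter (fun p : P => e p = i) \ K).card ≤
          Fintype.card {p : α // e p.1 = i} := by
        rw [← Fintype.card_coe]
        apply Fintype.card_le_of_injective
          (fun x : ↥(Finset.univ.filter (fun p : P => e p = i) \ K) =>
            (⟨⟨x.1, (Finset.mem_sdiff.1 x.2).2, by
              have := (Finset.mem_filter.1 (Finset.mem_sdiff.1 x.2).1).2
              omega, by
              have := (Finset.mem_filter.1 (Finset.mem_sdiff.1 x.2).1).2
              omega⟩, (Finset.mem_filter.1 (Finset.mem_sdiff.1 x.2).1).2⟩ :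
              {p : α // e p.1 = i}))
        intro x y hxy
        have := congrArg (fun z : {p : α // e p.1 = i} => z.1.1) hxy
        exact Subtype.ext this
      have h2 := Finset.le_card_sdiff K (Finset.univ.filter (fun p : P => e p = i))
      rw [hKcard] at h2
      rw [hie] at h1 h2 ⊢
      omega
    · have h1 : (Finset.univ.filter (fun p : P => e p = i)).card ≤
          Fintype.card {p : α // e p.1 = i} := by
        rw [← Fintype.card_coe]
        apply Fintype.card_le_of_injective
          (fun x : ↥(Finset.univ.filter (fun p : P => e p = i)) =>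
            (⟨⟨x.1, fun hxK => hie (by
              have h3 := (Finset.mem_filter.1 (hKsub hxK)).2
              have h4 := (Finset.mem_filter.1 x.2).2
              omega), by
              have := (Finset.mem_filter.1 x.2).2
              omega, by
              have := (Finset.mem_filter.1 x.2).2
              omega⟩, (Finset.mem_filter.1 x.2).2⟩ :
              {p : α // e p.1 = i}))
        intro x y hxy
        have := congrArg (fun z : {p : α // e p.1 = i} => z.1.1) hxy
        exact Subtype.ext this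
      omega
  have hT : ∀ T : Finset (Fin N), T.Nonempty → T.card ≤ d → 0 < lam T.card →
      (lam T.card + η / 4) * (Fintype.card (Fin h) : ℝ) ^ T.card ≤
        (Finset.univ.filter (fun p => c p = T)).card := by
    intro T hTne hTd hlT
    have hT1 : 1 ≤ T.card := Finset.card_pos.2 hTne
    have hTN : T.card ≤ N := by omega
    obtain ⟨hn1, -⟩ := hnum T.card hT1 hTd hlT
    rw [Fintype.card_fin]
    refine hn1.trans ?_
    have h1 := hcountα T.card hT1 hTd
    have h2 := hf T.card hTN ⟨T, rfl⟩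
    have h3 : (Finset.univ.filter (fun x => f T.card hTN x = ⟨T, rfl⟩)).card ≤
        (Finset.univ.filter (fun p : α => c p = T)).card := by
      apply Finset.card_le_card_of_injOn (fun x => x.1)
      · intro x hx
        simp only [Finset.coe_filter, Finset.mem_univ, true_and, Set.mem_ofPred_eq] at hx ⊢
        rw [hcast T.card hTN x, hx]
      · intro x _ y _ hxy
        exact Subtype.ext hxy
    have hC : 0 < N.choose T.card := Nat.choose_pos hTN
    have hC0 : (0 : ℝ) < (N.choose T.card : ℝ) := by exact_mod_cast hC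
    have h4 : ((Fintype.card {p : α // e p.1 = T.card} : ℕ) : ℝ) / (N.choose T.card : ℝ) - 1 ≤
        ((Fintype.card {p : α // e p.1 = T.card} / N.choose T.card : ℕ) : ℝ) := by
      have h5 := Nat.lt_div_mul_add (a := Fintype.card {p : α // e p.1 = T.card}) hC
      have h6 : ((Fintype.card {p : α // e p.1 = T.card} : ℕ) : ℝ) ≤
          ((Fintype.card {p : α // e p.1 = T.card} / N.choose T.card : ℕ) : ℝ) *
            (N.choose T.card : ℝ) + (N.choose T.card : ℝ) := by exact_mod_cast h5.le
      rw [sub_le_iff_le_add, div_le_iff₀ hC0]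
      linarith only [h6]
    have h7 : ((Finset.univ.filter (fun p : P => e p = T.card)).card : ℝ) / (N.choose T.card : ℝ) ≤
        ((Fintype.card {p : α // e p.1 = T.card} : ℕ) : ℝ) / (N.choose T.card : ℝ) + 1 := by
      rw [div_le_iff₀ hC0, add_mul, div_mul_cancel₀ _ hC0.ne', one_mul]
      exact_mod_cast h1
    have h8 : ((Fintype.card {p : α // e p.1 = T.card} / N.choose T.card : ℕ) : ℝ) ≤
        ((Finset.univ.filter (fun p : α => c p = T)).card : ℝ) := by
      exact_mod_cast h2.trans h3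
    linarith only [h4, h7, h8]
  obtain ⟨w', hw'⟩ := hW (Fin h) (by rw [Fintype.card_fin]; exact hWh) N e₀ he2 hed hdN
    {p : P // p ∈ K} (by rw [Fintype.card_fin, Fintype.card_coe, hKcard]) α c hcne lam
    (fun i => (hlam i).1) hphi hT
  -- restriction
  have hcardle : Fintype.card (Fin (r + 1)) ≤ Fintype.card (Fin N × Fin h) := by
    rw [Fintype.card_prod, Fintype.card_fin, Fintype.card_fin, Fintype.card_fin]
    exact hN1
  obtain ⟨g⟩ := Function.Embedding.nonempty_of_card_le hcardle
  have h5 := span_restrict (g : Fin (r + 1) → Fin N × Fin h) g.injective d w' _ hw'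
  let ι : {p : P // p ∈ K} ⊕ α → P := Sum.elim (fun x => x.1) (fun x => x.1)
  have hι : Function.Injective ι := by
    rintro (x | x) (y | y) hxy
    · exact congrArg Sum.inl (Subtype.ext hxy)
    · exfalso
      have h6 : x.1 = y.1 := hxy
      exact y.2.1 (h6 ▸ x.2)
    · exfalso
      have h6 : x.1 = y.1 := hxy
      exact x.2.1 (h6 ▸ y.2)
    · exact congrArg Sum.inr (Subtype.ext hxy)
  refine ⟨_, h5.trans (transport d e _ ι hι ?_ _)⟩
  rintro (x | x)
  · exact (Finset.mem_filter.1 (hKsub x.2)).2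
  · exact (hc x).symm

end Pool.Agent.H21.HD

end

section

/-!
Vanishing outside the region.
-/

namespace Pool.Agent.H21.HD

open MvPolynomial Pool.Agent.H18.Fat
open scoped Classical

namespace VanishX

/-- `phi` depends only on the loads `1, …, j`. -/
lemma phi_congr {κ κ' : ℕ → ℝ} : ∀ j : ℕ, (∀ i, 1 ≤ i → i ≤ j → κ i = κ' i) →
    phi κ j = phi κ' j := by
  intro j
  induction j using Nat.strong_induction_on with
  | _ j ih =>
    intro h
    cases j with
    | zero => rw [phi, phi]
    | succ j =>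
      rw [phi, phi, ih j (Nat.lt_succ_self j) fun i h1 h2 => h i h1 (by omega)]
      congr 1
      refine Finset.sum_congr rfl fun e _ => ?_
      have he := e.2
      rw [h (e + 1) (by omega) (by omega), ih (j - e) (by omega) fun i h1 h2 => h i h1 (by omega)]

lemma load_nonneg {P : Type} (r : ℕ) (e : P → ℕ) (I : Finset P) (i : ℕ) : 0 ≤ load r e I i := by
  unfold load
  positivity

/-- The case distinction: loads `lam ≤ 1` outside the region, dominated with a margin. -/
lemma exists_lam (j : ℕ) (η : ℝ) (hη : 0 < η) : ∃ η' : ℝ, 0 < η' ∧ ∃ r₀ : ℕ, ∀ r : ℕ, r₀ ≤ r →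
    ∀ (P : Type) (e : P → ℕ) (I : Finset P), (∀ i ∈ I, 1 ≤ e i) →
    (fro r e I j : ℝ) ≤ - (η * ((j + r).choose r : ℝ)) →
    ∃ lam : ℕ → ℝ, (∀ i, 0 ≤ lam i ∧ lam i ≤ 1) ∧ (∃ i ≤ j, phi lam i ≤ 0) ∧
      ∀ i, 1 ≤ i → i ≤ j → 0 < lam i → lam i + η' ≤ load r e I i := by
  obtain ⟨L, hL0, hL⟩ := phi_lipschitz j 2
  obtain ⟨r₀, hr₀⟩ := fro_asymp j 2 (η / 2) (by linarith)
  set η' : ℝ := min 1 (η / 2 / (L + 1)) with hη'
  have hL1 : 0 < L + 1 := by linarith
  have hη'0 : 0 < η' := lt_min one_pos (by positivity)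
  have hη'1 : η' ≤ 1 := min_le_left _ _
  have hη'2 : L * η' ≤ η / 2 := by
    have h1 : η' ≤ η / 2 / (L + 1) := min_le_right _ _
    calc L * η' ≤ (L + 1) * η' := by nlinarith
      _ ≤ (L + 1) * (η / 2 / (L + 1)) := mul_le_mul_of_nonneg_left h1 hL1.le
      _ = η / 2 := by field_simp
  refine ⟨η', hη'0, r₀, fun r hr P e I he hfro => ?_⟩
  by_cases hbig : ∃ i, 1 ≤ i ∧ i ≤ j ∧ 2 < load r e I i
  · obtain ⟨i, hi1, hi2, hi3⟩ := hbig
    refine ⟨fun t => if t = i then 1 else 0, ?_, ⟨i, hi2, (phi_single i hi1).le⟩, ?_⟩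
    · intro t
      simp only
      split_ifs <;> norm_num
    · intro t _ _ h3
      simp only at h3 ⊢
      split_ifs at h3 ⊢ with h4
      · subst h4
        linarith
      · exact absurd h3 (lt_irrefl _)
  · push Not at hbig
    set κ : ℕ → ℝ := fun i => if 1 ≤ i ∧ i ≤ j then load r e I i else 0 with hκ
    have hκ0 : ∀ i, 0 ≤ κ i ∧ κ i ≤ 2 := by
      intro i
      simp only [hκ]
      split_ifs with h1
      · exact ⟨load_nonneg r e I i, hbig i h1.1 h1.2⟩
      · norm_num
    have hκload : phi κ j = phi (load r e I) j := by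
      apply phi_congr
      intro i h1 h2
      simp only [hκ]
      rw [if_pos ⟨h1, h2⟩]
    have hs : (0 : ℝ) < ((j + r).choose r : ℝ) := by
      exact_mod_cast Nat.choose_pos (by omega)
    have h1 := hr₀ r hr P e I he (fun i h1 h2 => hbig i h1 h2)
    rw [← hκload] at h1
    have h2 : phi κ j ≤ - (η / 2) := by
      have h3 := (abs_le.1 h1).1
      have h4 : phi κ j * ((j + r).choose r : ℝ) ≤ - (η / 2) * ((j + r).choose r : ℝ) := by
        linarith
      exact le_of_mul_le_mul_right h4 hs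
    set lam₀ : ℕ → ℝ := fun i => max (κ i - η') 0 with hlam₀
    have hlam₀b : ∀ i, 0 ≤ lam₀ i ∧ lam₀ i ≤ 2 := by
      intro i
      have := hκ0 i
      refine ⟨le_max_right _ _, max_le (by linarith) (by norm_num)⟩
    have hdiff : ∀ i, |κ i - lam₀ i| ≤ η' := by
      intro i
      have := hκ0 i
      simp only [hlam₀]
      rcases le_total (κ i - η') 0 with h3 | h3
      · rw [max_eq_right h3, abs_le]
        constructor <;> linarith
      · rw [max_eq_left h3, abs_le]
        constructor <;> linarith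
    have h3 := hL κ lam₀ hκ0 hlam₀b η' hdiff
    have h4 : phi lam₀ j ≤ 0 := by
      have h5 := (abs_le.1 h3).1
      linarith
    obtain ⟨i, hi, h5⟩ := phi_cap j lam₀ (fun i => (hlam₀b i).1) ⟨j, le_rfl, h4⟩
    refine ⟨fun i => min (lam₀ i) 1, fun i => ⟨le_min (hlam₀b i).1 zero_le_one, min_le_right _ _⟩,
      ⟨i, hi, h5⟩, ?_⟩
    intro t ht1 ht2 ht3
    simp only at ht3 ⊢
    have h6 : 0 < lam₀ t := lt_of_lt_of_le ht3 (min_le_left _ _)
    have h7 : lam₀ t = κ t - η' := by
      simp only [hlam₀] at h6 ⊢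
      rcases le_total (κ t - η') 0 with h8 | h8
      · rw [max_eq_right h8] at h6
        exact absurd h6 (lt_irrefl _)
      · exact max_eq_left h8
    have h8 : κ t = load r e I t := by
      simp only [hκ]
      rw [if_pos ⟨ht1, ht2⟩]
    have h9 : min (lam₀ t) 1 ≤ lam₀ t := min_le_left _ _
    linarith

end VanishX

open VanishX

/-- Outside the region no form vanishes at the fat points. -/
theorem vanish_general (j d : ℕ) (hjd : j ≤ d) (η : ℝ) (hη : 0 < η) : ∃ r₀ : ℕ, ∀ r : ℕ, r₀ ≤ r →
    ∀ (k : ℕ) (e : Fin k → ℕ), (∀ i, 1 ≤ e i) → ∀ I : Finset (Fin k),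
    (fro r e I j : ℝ) ≤ - (η * ((j + r).choose r : ℝ)) →
    ForGeneralPoints r k fun p =>
      Module.finrank ℂ (fatForms r d p (fun i => if i ∈ I then d + 1 - e i else 0)) = 0 := by
  rcases Nat.eq_zero_or_pos j with hj0 | hj1
  · -- degree zero
    subst hj0
    refine ⟨0, fun r _ k e he I hfro => ?_⟩
    exfalso
    have h1 : fro r e I 0 = 1 := by
      unfold fro
      rw [Finset.sum_eq_single ∅]
      · simp
      · intro T hT hne
        obtain ⟨i, hi⟩ := Finset.nonempty_iff_ne_empty.2 hne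
        rw [if_neg, mul_zero]
        have h2 : e i ≤ ∑ i ∈ T, e i := Finset.single_le_sum (fun _ _ => Nat.zero_le _) hi
        have h3 := he i
        omega
      · intro h2
        exact absurd (Finset.empty_mem_powerset I) h2
    rw [h1] at hfro
    have h2 : (0 : ℝ) ≤ η * ((0 + r).choose r : ℝ) := by positivity
    norm_num at hfro
    linarith
  obtain ⟨η', hη', r₁, h₁⟩ := exists_lam j η hη
  obtain ⟨r₂, h₂⟩ := span_main j hj1 η' hη'
  refine ⟨max r₁ r₂, fun r hr k e he I hfro => ?_⟩
  obtain ⟨lam, hlam, hphi, hload⟩ := h₁ r ((le_max_left _ _).trans hr) (Fin k) e I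
    (fun i _ => he i) hfro
  obtain ⟨w, hw⟩ := h₂ r ((le_max_right _ _).trans hr) {i : Fin k // i ∈ I} (fun i => e i.1) lam
    hlam hphi (by
      intro i hi1 hi2 hi3
      have h3 := hload i hi1 hi2 hi3
      have hr1 : (0 : ℝ) < ((r : ℝ) + 1) ^ i := by positivity
      have hf : (0 : ℝ) < (i.factorial : ℝ) := by exact_mod_cast i.factorial_pos
      have hcard : ((Finset.univ.filter (fun p : {i : Fin k // i ∈ I} => e p.1 = i)).card : ℝ) =
          ((I.filter (fun p => e p = i)).card : ℝ) := by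
        congr 1
        rw [← Finset.card_map (Function.Embedding.subtype _)]
        congr 1
        ext x
        simp only [Finset.mem_map, Finset.mem_filter, Finset.mem_univ, true_and,
          Function.Embedding.subtype_apply, Subtype.exists, exists_and_right, exists_eq_right]
        constructor
        · rintro ⟨h4, h5⟩
          exact ⟨h4, h5⟩
        · rintro ⟨h4, h5⟩
          exact ⟨h4, h5⟩
      rw [hcard]
      unfold load at h3
      rw [le_div_iff₀ hr1] at h3
      rw [div_le_iff₀ hf]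
      linarith)
  -- the special points
  let p₀ : Fin k → Fin (r + 1) → ℂ := fun i => if h : i ∈ I then w ⟨i, h⟩ else 0
  have h4 : homogeneousSubmodule (Fin (r + 1)) ℂ d ≤
      powSpan d p₀ (fun i => d + 1 - (if i ∈ I then d + 1 - e i else 0)) := by
    refine (powSpan_up j d hjd w _ hw).trans ?_
    -- points with exponent larger than `d` do not contribute
    unfold powSpan
    apply Submodule.span_mono
    rintro F ⟨p, g, hp, hg, rfl⟩
    simp only at hp hg ⊢
    have he1 := he p.1
    have h5 : d + 1 - (if p.1 ∈ I then d + 1 - e p.1 else 0) = e p.1 := by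
      rw [if_pos p.2]
      omega
    have h6 : p₀ p.1 = w p := by
      simp only [p₀]
      rw [dif_pos p.2]
    refine ⟨p.1, g, ?_, ?_, ?_⟩
    · simp only [h5]; exact hp
    · simp only [h5]; exact hg
    · simp only [h5, h6]
  have h5 := fat_eq_bot_of_span d p₀ _ h4
  refine (general_finrank_le d p₀ (fun i => if i ∈ I then d + 1 - e i else 0)).mono
    fun p hp => ?_
  rw [h5] at hp
  exact Nat.le_zero.1 hp

end Pool.Agent.H21.HD

end

section

/-!
Upper bound.
-/

namespace Pool.Agent.H21.HD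

open MvPolynomial Pool.Agent.H18.Fat
open scoped Classical

namespace UpperX

lemma exists_point {r k : ℕ} {P : (Fin k → Fin (r + 1) → ℂ) → Prop}
    (h : ForGeneralPoints r k P) : ∃ p, P p := by
  obtain ⟨G, hG, hG'⟩ := h
  obtain ⟨x, hx⟩ := exists_common {0} (fun _ => G) (by simpa using hG)
  refine ⟨fun i j => x (i, j), hG' _ ?_⟩
  have := hx 0 (Finset.mem_singleton_self 0)
  simpa using this

end UpperX

open UpperX

/-- Upper bound. -/
theorem upper_general (d : ℕ) (η : ℝ) (hη : 0 < η) : ∃ r₀ : ℕ, ∀ r : ℕ, r₀ ≤ r →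
    ∀ (k : ℕ) (e : Fin k → ℕ), (∀ i, 1 ≤ e i) → ∀ I : Finset (Fin k),
    0 ≤ (fro r e I d : ℝ) + η * ((d + r).choose r : ℝ) →
    ForGeneralPoints r k fun p =>
      (Module.finrank ℂ (fatForms r d p (fun i => if i ∈ I then d + 1 - e i else 0)) : ℝ) ≤
        (fro r e I d : ℝ) + η * ((d + r).choose r : ℝ) := by
  rcases Nat.eq_zero_or_pos d with hd0 | hd1
  · subst hd0
    refine ⟨0, fun r _ k e he I _ => ?_⟩
    refine (general_finrank_le 0 (fun _ _ => 0)
      (fun i => if i ∈ I then 0 + 1 - e i else 0)).mono fun p _ => ?_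
    have h1 := rank_full_add_finrank (d := 0) p (fun i => if i ∈ I then 0 + 1 - e i else 0)
    have h2 : (0 + r).choose r = 1 := by simp
    rw [h2] at h1
    have h3 : Module.finrank ℂ (fatForms r 0 p (fun i => if i ∈ I then 0 + 1 - e i else 0)) ≤ 1 :=
      by omega
    have h4 : (Module.finrank ℂ
        (fatForms r 0 p (fun i => if i ∈ I then 0 + 1 - e i else 0)) : ℝ) ≤ 1 := by
      exact_mod_cast h3
    rw [fro_zero r e I fun i _ => he i, h2]
    push_cast
    linarith
  obtain ⟨r₁, h₁⟩ := vanish_general d d le_rfl (η / 2) (by linarith)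
  refine ⟨max (max r₁ 1) ⌈2 / η⌉₊, fun r hr k e he I hpos => ?_⟩
  have hr1 : r₁ ≤ r := (le_max_left _ _).trans ((le_max_left _ _).trans hr)
  have hr2 : 1 ≤ r := (le_max_right _ _).trans ((le_max_left _ _).trans hr)
  have hr3 : 2 / η ≤ (r : ℝ) := (Nat.le_ceil _).trans (by exact_mod_cast (le_max_right _ _).trans hr)
  have hs : (r : ℝ) ≤ ((d + r).choose r : ℝ) := by
    have h1 : (1 + r).choose r ≤ (d + r).choose r := Nat.choose_le_choose r (by omega)
    have h2 : (1 + r).choose r = r + 1 := by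
      rw [add_comm, Nat.choose_succ_self_right]
    rw [h2] at h1
    have : r ≤ (d + r).choose r := by omega
    exact_mod_cast this
  have hs1 : 1 ≤ η / 2 * ((d + r).choose r : ℝ) := by
    have h1 : η / 2 * (2 / η) = 1 := by field_simp
    calc (1 : ℝ) = η / 2 * (2 / η) := h1.symm
      _ ≤ η / 2 * ((d + r).choose r : ℝ) :=
        mul_le_mul_of_nonneg_left (hr3.trans hs) (by linarith)
  set D : ℝ := ((d + r).choose r : ℝ) with hD
  set s : ℕ := ⌈(fro r e I d : ℝ) + η / 2 * D⌉₊ with hsdef
  have hs2 : (s : ℝ) ≤ (fro r e I d : ℝ) + η * D := by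
    rcases le_or_gt 0 ((fro r e I d : ℝ) + η / 2 * D) with h1 | h1
    · have h2 := Nat.ceil_lt_add_one h1
      rw [← hsdef] at h2
      linarith
    · have h2 : s = 0 := by
        rw [hsdef]
        exact Nat.ceil_eq_zero.2 h1.le
      rw [h2]
      push_cast
      exact hpos
  have hs3 : (fro r e I d : ℝ) + η / 2 * D ≤ s := Nat.le_ceil _
  -- the enlarged family
  let e' : Fin (k + s) → ℕ := Fin.append e (fun _ => d)
  let I' : Finset (Fin (k + s)) := I.map (Fin.castAddEmb s) ∪ Finset.univ.map (Fin.natAddEmb k)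
  have hdisj : Disjoint (I.map (Fin.castAddEmb s)) (Finset.univ.map (Fin.natAddEmb k)) := by
    rw [Finset.disjoint_left]
    intro x hx hx'
    obtain ⟨a, -, rfl⟩ := Finset.mem_map.1 hx
    obtain ⟨b, -, hb⟩ := Finset.mem_map.1 hx'
    have h1 := congrArg Fin.val hb
    simp at h1
    have := a.2
    omega
  have he'1 : ∀ i : Fin k, e' (Fin.castAdd s i) = e i := fun i => Fin.append_left _ _ i
  have he'2 : ∀ i : Fin s, e' (Fin.natAdd k i) = d := fun i => Fin.append_right _ _ i
  have he' : ∀ i, 1 ≤ e' i := by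
    intro i
    refine Fin.addCases (fun i => ?_) (fun i => ?_) i
    · rw [he'1]; exact he i
    · rw [he'2]; exact hd1
  have hfro : fro r e' I' d = fro r e I d - s := by
    have h1 := fro_simple' r d e' (I.map (Fin.castAddEmb s)) (Finset.univ.map (Fin.natAddEmb k))
      hdisj (fun i _ => he' i) hd1 (by
        intro i hi
        obtain ⟨b, -, rfl⟩ := Finset.mem_map.1 hi
        exact he'2 b)
    rw [fro_map] at h1
    have h2 : (fun p => e' ((Fin.castAddEmb s) p)) = e := by
      funext i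
      exact he'1 i
    rw [h2, Finset.card_map, Finset.card_univ, Fintype.card_fin] at h1
    exact h1
  have h2 := h₁ r hr1 (k + s) e' he' I' (by
    rw [hfro]
    push_cast
    linarith)
  obtain ⟨p', hp'1, hp'2⟩ := exists_point (h2.and (ForGeneralPoints.coord_ne_zero r (k + s)))
  let p₀ : Fin k → Fin (r + 1) → ℂ := fun i => p' (Fin.castAdd s i)
  have h3 := finrank_add_length_ge (d := d) hr2 p₀ (fun i => if i ∈ I then d + 1 - e i else 0)
    (fun j : Fin s => p' (Fin.natAdd k j)) (fun j => hp'2 _ 0) (fun _ => 1)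
  have h4 : Module.finrank ℂ (fatForms r d (Sum.elim p₀ (fun j : Fin s => p' (Fin.natAdd k j)))
      (Sum.elim (fun i => if i ∈ I then d + 1 - e i else 0) (fun _ => 1))) ≤
      Module.finrank ℂ (fatForms r d p' (fun i => if i ∈ I' then d + 1 - e' i else 0)) := by
    apply Submodule.finrank_mono
    rintro F ⟨hF1, hF2⟩
    refine ⟨hF1, fun i => ?_⟩
    refine Fin.addCases (fun i => ?_) (fun i => ?_) i
    · have h5 := hF2 (Sum.inl i)
      simp only [Sum.elim_inl] at h5
      have h6 : (Fin.castAdd s i ∈ I') ↔ i ∈ I := by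
        simp only [I', Finset.mem_union, Finset.mem_map, Finset.mem_univ, true_and]
        constructor
        · rintro (⟨a, ha, hab⟩ | ⟨b, hb⟩)
          · have h7 := (Fin.castAddEmb s).injective hab
            rw [← h7]
            exact ha
          · exfalso
            have h7 := congrArg Fin.val hb
            simp at h7
            have := i.2
            omega
        · intro hi
          exact Or.inl ⟨i, hi, rfl⟩
      have h7 : (if Fin.castAdd s i ∈ I' then d + 1 - e' (Fin.castAdd s i) else 0) =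
          if i ∈ I then d + 1 - e i else 0 := by
        rw [he'1]
        by_cases hi : i ∈ I
        · rw [if_pos hi, if_pos (h6.2 hi)]
        · rw [if_neg hi, if_neg (fun h => hi (h6.1 h))]
      change VanishesToOrder F (p' (Fin.castAdd s i))
        (if Fin.castAdd s i ∈ I' then d + 1 - e' (Fin.castAdd s i) else 0)
      rw [h7]
      exact h5
    · have h5 := hF2 (Sum.inr i)
      simp only [Sum.elim_inr] at h5
      have h6 : Fin.natAdd k i ∈ I' := by
        simp only [I', Finset.mem_union, Finset.mem_map, Finset.mem_univ, true_and]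
        exact Or.inr ⟨i, rfl⟩
      change VanishesToOrder F (p' (Fin.natAdd k i))
        (if Fin.natAdd k i ∈ I' then d + 1 - e' (Fin.natAdd k i) else 0)
      rw [if_pos h6, he'2]
      have h7 : d + 1 - d = 1 := by omega
      rw [h7]
      exact h5
  have h5 : Module.finrank ℂ (fatForms r d p₀ (fun i => if i ∈ I then d + 1 - e i else 0)) ≤ s := by
    have h6 : ∑ _j : Fin s, (1 + r - 1).choose r = s := by
      have h7 : (1 + r - 1).choose r = 1 := by
        have : 1 + r - 1 = r := by omega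
        rw [this, Nat.choose_self]
      simp only [h7, Finset.sum_const, Finset.card_univ, Fintype.card_fin, smul_eq_mul, mul_one]
    rw [h6] at h3
    omega
  refine (general_finrank_le d p₀ (fun i => if i ∈ I then d + 1 - e i else 0)).mono fun p hp => ?_
  have h6 : Module.finrank ℂ (fatForms r d p (fun i => if i ∈ I then d + 1 - e i else 0)) ≤ s :=
    hp.trans h5
  have h7 : (Module.finrank ℂ
      (fatForms r d p (fun i => if i ∈ I then d + 1 - e i else 0)) : ℝ) ≤ s := by
    exact_mod_cast h6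
  exact h7.trans hs2

end Pool.Agent.H21.HD

end

section

/-!
Lower bound.
-/

namespace Pool.Agent.H21.HD

open MvPolynomial Pool.Agent.H18.Fat
open scoped Classical

namespace LowerX

end LowerX

open LowerX

/-- Lower bound inside the region. -/
theorem lower_general (d : ℕ) (η ε : ℝ) (hη : 0 < η) (hε : 0 < ε) : ∃ r₀ : ℕ, ∀ r : ℕ, r₀ ≤ r →
    ∀ (k : ℕ) (e : Fin k → ℕ), (∀ i, 1 ≤ e i) →
    (∀ j ≤ d, η * ((j + r).choose r : ℝ) ≤ (fro r e Finset.univ j : ℝ)) →
    ForGeneralPoints r k fun p =>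
      (fro r e Finset.univ d : ℝ) - ε * ((d + r).choose r : ℝ) ≤
        (Module.finrank ℂ (fatForms r d p (fun i => d + 1 - e i)) : ℝ) := by
  set ε' : ℝ := ε / 2 ^ (d + 1) with hε'
  have hε'0 : 0 < ε' := by positivity
  obtain ⟨r₁, h₁⟩ := region_of_fro d η hη
  choose R hR using fun j : ℕ => fro_asymp j 2 (η / 2) (by linarith)
  choose U hU using fun j : ℕ => upper_general j ε' hε'0
  refine ⟨r₁ + (Finset.range (d + 1)).sup R + (Finset.range (d + 1)).sup U,
    fun r hr k e he hfro => ?_⟩
  have hRr : ∀ j ≤ d, R j ≤ r := by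
    intro j hj
    have h1 : R j ≤ (Finset.range (d + 1)).sup R :=
      Finset.le_sup (f := R) (Finset.mem_range.2 (Nat.lt_succ_of_le hj))
    omega
  have hUr : ∀ j ≤ d, U j ≤ r := by
    intro j hj
    have h1 : U j ≤ (Finset.range (d + 1)).sup U :=
      Finset.le_sup (f := U) (Finset.mem_range.2 (Nat.lt_succ_of_le hj))
    omega
  obtain ⟨hload, hphi⟩ := h₁ r (by omega) (Fin k) e Finset.univ (fun i _ => he i) hfro
  have hs : ∀ j, (0 : ℝ) < ((j + r).choose r : ℝ) := by
    intro j
    exact_mod_cast Nat.choose_pos (by omega)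
  -- the numbers of the prefixes are nonnegative
  have hpre : ∀ t ≤ k, ∀ j < d, 0 ≤ (fro r e (pre k t) j : ℝ) := by
    intro t _ j hj
    have h1 := hR j r (hRr j hj.le) (Fin k) e (pre k t) (fun i _ => he i) (fun i h2 h3 =>
      (load_mono r e (Finset.subset_univ _) i).trans (hload i h2 (by omega)))
    have h2 : phi (load r e Finset.univ) j ≤ phi (load r e (pre k t)) j := by
      apply phi_anti d _ _ (fun i => RegionX.load_nonneg' r e _ i)
        (fun i => load_mono r e (Finset.subset_univ _) i) _ j hj.le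
      intro i hi
      have := hphi i hi
      linarith
    have h3 := hphi j hj.le
    have h4 := (abs_le.1 h1).1
    have h5 : η / 2 * ((j + r).choose r : ℝ) ≤
        phi (load r e (pre k t)) j * ((j + r).choose r : ℝ) :=
      mul_le_mul_of_nonneg_right (h3.trans h2) (hs j).le
    linarith
  have h2 : ForGeneralPoints r k fun p => ∀ x ∈ (Finset.range (k + 1)) ×ˢ (Finset.range d),
      (Module.finrank ℂ (fatForms r x.2 p (mu e (pre k x.1) x.2)) : ℝ) ≤
      (fro r e (pre k x.1) x.2 : ℝ) + ε' * ((x.2 + r).choose r : ℝ) := by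
    apply forGeneral_forall
    rintro ⟨t, j⟩ hx
    rw [Finset.mem_product, Finset.mem_range, Finset.mem_range] at hx
    simp only at hx ⊢
    have h3 := hpre t (by omega) j hx.2
    have h4 : 0 ≤ ε' * ((j + r).choose r : ℝ) := mul_nonneg hε'0.le (hs j).le
    exact hU j r (hUr j hx.2.le) k e he (pre k t) (by linarith)
  refine h2.mono fun p hp => ?_
  have h3 := telescope (d := d) e he p ε' (fun t ht j hj => hp (t, j) (by
    rw [Finset.mem_product, Finset.mem_range, Finset.mem_range]
    simp only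
    omega)) k le_rfl
  have h4 : pre k k = Finset.univ := by
    ext i
    rw [mem_pre]
    simp
  rw [h4] at h3
  have h5 : mu e Finset.univ d = fun i => d + 1 - e i := by
    funext i
    simp [mu]
  rw [h5] at h3
  have h6 := sum_le r d k e he hload
  have h7 : ε' * ∑ i ∈ Finset.univ.filter (fun i : Fin k => e i ≤ d),
      ((d - e i + r).choose r : ℝ) ≤ ε * ((d + r).choose r : ℝ) := by
    calc ε' * ∑ i ∈ Finset.univ.filter (fun i : Fin k => e i ≤ d), ((d - e i + r).choose r : ℝ)
        ≤ ε' * (2 ^ (d + 1) * ((d + r).choose r : ℝ)) := mul_le_mul_of_nonneg_left h6 hε'0.le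
      _ = ε * ((d + r).choose r : ℝ) := by
        rw [hε']
        field_simp
  linarith

end Pool.Agent.H21.HD

end
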