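import Pool.Agent.H94.LP7.M06
import Pool.Agent.H94.LP7.XD.Comb.P

/-! The parts of this file: XD.Comb.Growth_1, XD.Comb.KK, XD.Comb.KK_1. -/

section

/-!
# XD, module C2: the growth of the sets `UU`

`UU N m d j`: the `v ∈ N` of degree `j` in the variables `< m - 1` with `v y_{m-1}^{d-j} ∉ N`.
`UU_dn`, `UU_up`: if `w ∈ N` and `a ∈ w`, `a < b < m` then the move `a → b` stays in `N` (`Stair.up`);
use the contrapositive.  `growth`: the elements `l ::ₘ v`, `v ∈ UU N m d j` in the variables `≤ l`,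
`τ (j + 1) ≤ l < m - 1`, are in `UU N m d (j + 1)` (`push`, `UU_up`), pairwise different, and
`density` with `i = m - 1`, `i' = l + 1` bounds their number;
`∑_{τ (j + 1) ≤ l < m - 1} f (l + 1) j = f (m - 1) (j + 1) - f (τ (j + 1)) (j + 1) ≥ (1 - ε) f (m - 1) (j + 1)`.
-/

set_option autoImplicit false

namespace Pool.Agent.XD

open Finset

variable {m d : ℕ} {N : Finset (Multiset ℕ)} {f : ℕ → ℕ → ℕ} {τ : ℕ → ℕ} {ε : ℝ}

theorem UU_dn (hN : Stair m d N f) {j : ℕ} (hj : j < d) : Dn N (UU N m d j) := by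
  intro v hv b hb a hab hN'
  rw [mem_UU] at hv ⊢
  obtain ⟨⟨hv1, hv2, hv3⟩, hv4⟩ := hv
  have hbm := hv3 b hb
  have hbe : b ::ₘ v.erase b = v := Multiset.cons_erase hb
  refine ⟨⟨hN', ?_, ?_⟩, fun h => hv4 ?_⟩
  · rw [Multiset.card_cons, ← hv2]
    conv_rhs => rw [← hbe]
    rw [Multiset.card_cons]
  · intro x hx
    rcases Multiset.mem_cons.1 hx with rfl | hx
    · omega
    · exact hv3 x (Multiset.mem_of_mem_erase hx)
  · have h1 := hN.up _ h a (by simp) b hab (by omega)
    rw [Multiset.cons_add, Multiset.erase_cons_head, ← Multiset.cons_add, hbe] at h1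
    exact h1

theorem growth (hN : Stair m d N f) (hT : Thr m d f τ ε) (hε : 0 ≤ ε) (hm : 1 ≤ m) {j : ℕ}
    (hj : j + 1 < d) :
    (1 - ((j : ℝ) + 1) * ε) * ((UU N m d j).card : ℝ) * (f (m - 1) (j + 1) : ℝ) ≤
      ((UU N m d (j + 1)).card : ℝ) * (f (m - 1) j : ℝ) := by
  set U := UU N m d j with hU
  have hR : (0 : ℝ) ≤ ((UU N m d (j + 1)).card : ℝ) * (f (m - 1) j : ℝ) := by positivity
  by_cases hneg : 1 - (j : ℝ) * ε < 0
  · have h1 : (1 - ((j : ℝ) + 1) * ε) ≤ 0 := by nlinarith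
    have h2 : (1 - ((j : ℝ) + 1) * ε) * (U.card : ℝ) * (f (m - 1) (j + 1) : ℝ) ≤ 0 := by
      have h3 : (0 : ℝ) ≤ (U.card : ℝ) * (f (m - 1) (j + 1) : ℝ) := by positivity
      rw [mul_assoc]
      exact mul_nonpos_of_nonpos_of_nonneg h1 h3
    exact h2.trans hR
  · push Not at hneg
    have hτ : τ (j + 1) ≤ m - 1 := by
      have := hT.lt (j + 1) (by omega) hj
      omega
    set D : ℕ → Finset (Multiset ℕ) := fun l => U.filter fun v => ∀ x ∈ v, x < l + 1 with hD
    have hUl : U ⊆ lay N (m - 1) j := filter_subset _ _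
    -- the elements `l ::ₘ v`
    have hcard : ∑ l ∈ Ico (τ (j + 1)) (m - 1), (D l).card ≤ (UU N m d (j + 1)).card := by
      rw [← card_sigma]
      refine card_le_card_of_injOn (fun p : (_ : ℕ) × Multiset ℕ => p.1 ::ₘ p.2) ?_ ?_
      · rintro ⟨l, v⟩ hp
        rw [mem_coe, mem_sigma, mem_Ico] at hp
        obtain ⟨⟨h1, h2⟩, h3⟩ := hp
        have h3' : v ∈ U ∧ ∀ x ∈ v, x < l + 1 := by
          have h4 : v ∈ U.filter fun v => ∀ x ∈ v, x < l + 1 := h3
          exact mem_filter.1 h4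
        have h4 := mem_lay.1 (hUl h3'.1)
        rw [mem_coe]
        refine UU_up hN hj h3'.1 h2 (push hN hT hj h1 (by omega) ?_)
        rw [mem_lay]
        exact ⟨h4.1, h4.2.1, h3'.2⟩
      · rintro ⟨l, v⟩ hp ⟨l', v'⟩ hp' heq
        rw [mem_coe, mem_sigma] at hp hp'
        have h3 : ∀ x ∈ v, x < l + 1 := by
          have h4 : v ∈ U.filter fun v => ∀ x ∈ v, x < l + 1 := hp.2
          exact (mem_filter.1 h4).2
        have h3' : ∀ x ∈ v', x < l' + 1 := by
          have h4 : v' ∈ U.filter fun v => ∀ x ∈ v, x < l' + 1 := hp'.2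
          exact (mem_filter.1 h4).2
        have heq' : l ::ₘ v = l' ::ₘ v' := heq
        have h5 : l ≤ l' := by
          have : l ∈ l' ::ₘ v' := by
            rw [← heq']
            exact Multiset.mem_cons_self _ _
          rcases Multiset.mem_cons.1 this with h | h
          · exact h.le
          · have := h3' l h
            omega
        have h6 : l' ≤ l := by
          have : l' ∈ l ::ₘ v := by
            rw [heq']
            exact Multiset.mem_cons_self _ _
          rcases Multiset.mem_cons.1 this with h | h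
          · exact h.le
          · have := h3 l' h
            omega
        obtain rfl : l = l' := le_antisymm h5 h6
        rw [Multiset.cons_inj_right] at heq'
        rw [heq']
    have hdens : ∀ l ∈ Ico (τ (j + 1)) (m - 1),
        (1 - j * ε) * (U.card : ℝ) * (f (l + 1) j : ℝ) ≤ ((D l).card : ℝ) * (f (m - 1) j : ℝ) := by
      intro l hl
      rw [mem_Ico] at hl
      exact density hN hT hε j hj (m - 1) (l + 1) (by omega) (by omega) (by omega) U hUl
        (UU_dn hN (by omega))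
    have hsum := sum_le_sum hdens
    rw [← mul_sum, ← sum_mul] at hsum
    have h1 : ∑ l ∈ Ico (τ (j + 1)) (m - 1), (f (l + 1) j : ℝ) =
        (f (m - 1) (j + 1) : ℝ) - (f (τ (j + 1)) (j + 1) : ℝ) := by
      have h2 := sum_recu hT hj (m - 1) hτ (by omega)
      have h3 : (f (m - 1) (j + 1) : ℝ) = (f (τ (j + 1)) (j + 1) : ℝ) +
          ∑ l ∈ Ico (τ (j + 1)) (m - 1), (f (l + 1) j : ℝ) := by exact_mod_cast h2
      linarith
    have h2 : (f (τ (j + 1)) (j + 1) : ℝ) ≤ ε * f (m - 1) (j + 1) := hT.last (j + 1) (by omega) hj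
    have h3 : (1 - ε) * (f (m - 1) (j + 1) : ℝ) ≤ ∑ l ∈ Ico (τ (j + 1)) (m - 1), (f (l + 1) j : ℝ) := by
      rw [h1]
      linarith
    have h4 : ∑ l ∈ Ico (τ (j + 1)) (m - 1), ((D l).card : ℝ) ≤ ((UU N m d (j + 1)).card : ℝ) := by
      exact_mod_cast hcard
    have h5 : (0 : ℝ) ≤ (f (m - 1) j : ℝ) := by positivity
    have h6 : (0 : ℝ) ≤ (1 - j * ε) * (U.card : ℝ) := mul_nonneg hneg (by positivity)
    calc (1 - ((j : ℝ) + 1) * ε) * (U.card : ℝ) * (f (m - 1) (j + 1) : ℝ)
        ≤ ((1 - j * ε) * (U.card : ℝ)) * ((1 - ε) * (f (m - 1) (j + 1) : ℝ)) := by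
          have h7 : (1 - ((j : ℝ) + 1) * ε) ≤ (1 - j * ε) * (1 - ε) := by
            have : (0 : ℝ) ≤ (j : ℝ) * ε * ε := by positivity
            nlinarith
          have h8 : (0 : ℝ) ≤ (U.card : ℝ) * (f (m - 1) (j + 1) : ℝ) := by positivity
          calc (1 - ((j : ℝ) + 1) * ε) * (U.card : ℝ) * (f (m - 1) (j + 1) : ℝ)
              = (1 - ((j : ℝ) + 1) * ε) * ((U.card : ℝ) * (f (m - 1) (j + 1) : ℝ)) := by ring
            _ ≤ ((1 - j * ε) * (1 - ε)) * ((U.card : ℝ) * (f (m - 1) (j + 1) : ℝ)) :=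
                mul_le_mul_of_nonneg_right h7 h8
            _ = ((1 - j * ε) * (U.card : ℝ)) * ((1 - ε) * (f (m - 1) (j + 1) : ℝ)) := by ring
      _ ≤ ((1 - j * ε) * (U.card : ℝ)) * ∑ l ∈ Ico (τ (j + 1)) (m - 1), (f (l + 1) j : ℝ) :=
          mul_le_mul_of_nonneg_left h3 h6
      _ ≤ (∑ l ∈ Ico (τ (j + 1)) (m - 1), ((D l).card : ℝ)) * (f (m - 1) j : ℝ) := hsum
      _ ≤ ((UU N m d (j + 1)).card : ℝ) * (f (m - 1) j : ℝ) := mul_le_mul_of_nonneg_right h4 h5

end Pool.Agent.XD

end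

section

/-!
# XD, module C3: the comparison of the kernels

`kk_sum`: `v ∈ lay N m (d - e)` with `v + replicate e (m - 1) ∉ N` is `u + replicate a (m - 1)` with
`u ∈ UU N m d (d - e - a)`; conversely `u + replicate a (m - 1) ∈ N` by `push` (`i = m - 1`, the
degrees are `< d`).

`kk_le`: if `(d + 1) ε ≤ 1 / 4` then by `growth`
`|UU (d - 1)| f (m-1) (d - e) ≥ (1 - d ε)^d |UU (d - e)| f (m-1) (d - 1)` and
`|UU j| ≤ 2 ε |UU (j + 1)|` (`small`), so `kk N m d e ≤ (1 + 4 ε) |UU (d - e)|`; and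
`kk N m d 1 ≥ |UU (d - 1)|`.  If `(d + 1) ε > 1 / 4` take `C ≥ 4 (d + 1)`: the left side is `≤ 0`.
-/

set_option autoImplicit false

namespace Pool.Agent.XD

open Finset

variable {m d : ℕ} {N : Finset (Multiset ℕ)} {f : ℕ → ℕ → ℕ} {τ : ℕ → ℕ} {ε : ℝ}

private theorem push_rep (hN : Stair m d N f) (hT : Thr m d f τ ε) (hm : 1 ≤ m) {j : ℕ}
    {u : Multiset ℕ} (hu : u ∈ N) (hc : Multiset.card u = j) (hx : ∀ x ∈ u, x < m) (a : ℕ)
    (ha : j + a < d) : u + Multiset.replicate a (m - 1) ∈ N := by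
  induction a with
  | zero => simpa using hu
  | succ a ih =>
    have h1 := ih (by omega)
    rw [Multiset.replicate_succ, Multiset.add_cons]
    have hτ := hT.lt (j + a + 1) (by omega) (by omega)
    refine push hN hT (j := j + a) (i := m - 1) (by omega) (by omega) (by omega) ?_
    rw [mem_lay]
    refine ⟨h1, by simp [hc], ?_⟩
    intro x hx'
    rcases Multiset.mem_add.1 hx' with h | h
    · have := hx x h
      omega
    · have := Multiset.eq_of_mem_replicate h
      omega

theorem kk_sum (hN : Stair m d N f) (hT : Thr m d f τ ε) (hm : 1 ≤ m) {e : ℕ} (he : 1 ≤ e)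
    (hed : e ≤ d) : kk N m d e = ∑ j ∈ range (d - e + 1), (UU N m d j).card := by
  have hsplit : ∀ v : Multiset ℕ, v.filter (fun x => x ≠ m - 1) +
      Multiset.replicate (v.count (m - 1)) (m - 1) = v := by
    intro v
    rw [← Multiset.filter_eq' v (m - 1), add_comm]
    exact Multiset.filter_add_not (fun x => x = m - 1) v
  unfold kk
  rw [← card_sigma]
  refine card_nbij' (fun v => ⟨Multiset.card (v.filter fun x => x ≠ m - 1), v.filter fun x => x ≠ m - 1⟩)
    (fun p => p.2 + Multiset.replicate (d - e - p.1) (m - 1)) ?_ ?_ ?_ ?_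
  · intro v hv
    rw [mem_coe, mem_filter, mem_lay] at hv
    obtain ⟨⟨h1, h2, h3⟩, h4⟩ := hv
    have h5 := hsplit v
    have h6 : Multiset.card (v.filter fun x => x ≠ m - 1) + v.count (m - 1) = d - e := by
      rw [← h2]
      conv_rhs => rw [← h5]
      rw [Multiset.card_add, Multiset.card_replicate]
    rw [mem_coe, mem_sigma]
    refine ⟨?_, ?_⟩
    · rw [mem_range]
      show Multiset.card (v.filter fun x => x ≠ m - 1) < d - e + 1
      omega
    · show v.filter (fun x => x ≠ m - 1) ∈ UU N m d (Multiset.card (v.filter fun x => x ≠ m - 1))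
      rw [mem_UU]
      refine ⟨⟨hN.div v h1 _ (Multiset.filter_le _ _), rfl, ?_⟩, ?_⟩
      · intro x hx
        rw [Multiset.mem_filter] at hx
        have := h3 x hx.1
        have := hx.2
        omega
      · intro h
        apply h4
        have h7 : d - Multiset.card (v.filter fun x => x ≠ m - 1) = v.count (m - 1) + e := by omega
        rw [h7, Multiset.replicate_add, ← add_assoc, h5] at h
        exact h
  · rintro ⟨j, u⟩ hp
    rw [mem_coe, mem_sigma, mem_range] at hp
    obtain ⟨hj, hu⟩ := hp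
    replace hj : j < d - e + 1 := hj
    replace hu : u ∈ UU N m d j := hu
    rw [mem_UU] at hu
    obtain ⟨⟨h1, h2, h3⟩, h4⟩ := hu
    rw [mem_coe, mem_filter, mem_lay]
    show (u + Multiset.replicate (d - e - j) (m - 1) ∈ N ∧
      Multiset.card (u + Multiset.replicate (d - e - j) (m - 1)) = d - e ∧
      ∀ x ∈ u + Multiset.replicate (d - e - j) (m - 1), x < m) ∧
      u + Multiset.replicate (d - e - j) (m - 1) + Multiset.replicate e (m - 1) ∉ N
    refine ⟨⟨?_, ?_, ?_⟩, ?_⟩
    · exact push_rep hN hT hm h1 h2 (fun x hx => by have := h3 x hx; omega) _ (by omega)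
    · rw [Multiset.card_add, Multiset.card_replicate, h2]
      omega
    · intro x hx
      rcases Multiset.mem_add.1 hx with h | h
      · have := h3 x h
        omega
      · have := Multiset.eq_of_mem_replicate h
        omega
    · intro h
      apply h4
      have h7 : d - j = (d - e - j) + e := by omega
      rw [h7, Multiset.replicate_add, ← add_assoc]
      exact h
  · intro v hv
    rw [mem_coe, mem_filter, mem_lay] at hv
    obtain ⟨⟨h1, h2, h3⟩, h4⟩ := hv
    have h5 := hsplit v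
    have h6 : Multiset.card (v.filter fun x => x ≠ m - 1) + v.count (m - 1) = d - e := by
      rw [← h2]
      conv_rhs => rw [← h5]
      rw [Multiset.card_add, Multiset.card_replicate]
    show v.filter (fun x => x ≠ m - 1) +
      Multiset.replicate (d - e - Multiset.card (v.filter fun x => x ≠ m - 1)) (m - 1) = v
    have h7 : d - e - Multiset.card (v.filter fun x => x ≠ m - 1) = v.count (m - 1) := by omega
    rw [h7]
    exact h5
  · rintro ⟨j, u⟩ hp
    rw [mem_coe, mem_sigma, mem_range] at hp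
    obtain ⟨hj, hu⟩ := hp
    replace hu : u ∈ UU N m d j := hu
    rw [mem_UU] at hu
    obtain ⟨⟨h1, h2, h3⟩, h4⟩ := hu
    have h5 : (u + Multiset.replicate (d - e - j) (m - 1)).filter (fun x => x ≠ m - 1) = u := by
      rw [Multiset.filter_add, Multiset.filter_eq_self.2, Multiset.filter_eq_nil.2, add_zero]
      · intro x hx h
        exact h (Multiset.eq_of_mem_replicate hx)
      · intro x hx
        have := h3 x hx
        omega
    show (⟨Multiset.card ((u + Multiset.replicate (d - e - j) (m - 1)).filter (fun x => x ≠ m - 1)),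
      (u + Multiset.replicate (d - e - j) (m - 1)).filter (fun x => x ≠ m - 1)⟩ :
        (_ : ℕ) × Multiset ℕ) = ⟨j, u⟩
    rw [h5, h2]

end Pool.Agent.XD

end

section

/-!
# XD, module C3: the comparison of the kernels

`kk_sum`: `v ∈ lay N m (d - e)` with `v + replicate e (m - 1) ∉ N` is `u + replicate a (m - 1)` with
`u ∈ UU N m d (d - e - a)`; conversely `u + replicate a (m - 1) ∈ N` by `push` (`i = m - 1`, the
degrees are `< d`).

`kk_le`: if `(d + 1) ε ≤ 1 / 4` then by `growth`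
`|UU (d - 1)| f (m-1) (d - e) ≥ (1 - d ε)^d |UU (d - e)| f (m-1) (d - 1)` and
`|UU j| ≤ 2 ε |UU (j + 1)|` (`small`), so `kk N m d e ≤ (1 + 4 ε) |UU (d - e)|`; and
`kk N m d 1 ≥ |UU (d - 1)|`.  If `(d + 1) ε > 1 / 4` take `C ≥ 4 (d + 1)`: the left side is `≤ 0`.
-/

set_option autoImplicit false

namespace Pool.Agent.XD

open Finset

variable {m d : ℕ} {N : Finset (Multiset ℕ)} {f : ℕ → ℕ → ℕ} {τ : ℕ → ℕ} {ε : ℝ}

theorem kk_le (d : ℕ) : ∃ C : ℝ, 0 ≤ C ∧ ∀ (e m : ℕ) (N : Finset (Multiset ℕ)) (f : ℕ → ℕ → ℕ)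
    (τ : ℕ → ℕ) (ε : ℝ), 2 ≤ e → e ≤ d → 1 ≤ m → 0 ≤ ε → Stair m d N f → Thr m d f τ ε →
    (1 - C * ε) * (kk N m d e : ℝ) * (f (m - 1) (d - 1) : ℝ) ≤
      (kk N m d 1 : ℝ) * (f (m - 1) (d - e) : ℝ) := by
  refine ⟨(d : ℝ) ^ 2 + 4 * (d + 1), by positivity, ?_⟩
  intro e m N f τ ε he hed hm hε hN hT
  set C : ℝ := (d : ℝ) ^ 2 + 4 * (d + 1) with hC
  have hR : (0 : ℝ) ≤ (kk N m d 1 : ℝ) * (f (m - 1) (d - e) : ℝ) := by positivity
  by_cases hneg : 1 - C * ε ≤ 0
  · have h1 : (0 : ℝ) ≤ (kk N m d e : ℝ) * (f (m - 1) (d - 1) : ℝ) := by positivity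
    have h2 := mul_nonpos_of_nonpos_of_nonneg hneg h1
    rw [← mul_assoc] at h2
    exact h2.trans hR
  push Not at hneg
  have hd0 : (0 : ℝ) ≤ d := by positivity
  have hε4 : ((d : ℝ) + 1) * ε ≤ 1 / 4 := by
    have h1 : 4 * ((d : ℝ) + 1) * ε ≤ C * ε := by
      apply mul_le_mul_of_nonneg_right _ hε
      rw [hC]
      nlinarith
    nlinarith
  have hε1 : ε ≤ 1 / 4 := by nlinarith
  have hdε : (d : ℝ) * ε ≤ 1 / 4 := by nlinarith
  set U : ℕ → ℝ := fun j => ((UU N m d j).card : ℝ) with hU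
  set g : ℕ → ℝ := fun j => (f (m - 1) j : ℝ) with hg
  have hU0 : ∀ j, 0 ≤ U j := fun j => by positivity
  have hgp : ∀ j, j < d → 0 < g j := fun j hj => by
    have h1 := hT.pos j hj
    show (0 : ℝ) < (f (m - 1) j : ℝ)
    exact_mod_cast h1
  have hgr : ∀ j, j + 1 < d → (1 - d * ε) * U j * g (j + 1) ≤ U (j + 1) * g j := by
    intro j hj
    have h1 := growth hN hT hε hm hj
    have h2 : (j : ℝ) + 1 ≤ d := by exact_mod_cast hj.le
    have h3 : (1 - d * ε) ≤ (1 - ((j : ℝ) + 1) * ε) := by nlinarith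
    have h4 : (0 : ℝ) ≤ U j * g (j + 1) := mul_nonneg (hU0 j) (hgp _ hj).le
    calc (1 - d * ε) * U j * g (j + 1) = (1 - d * ε) * (U j * g (j + 1)) := by ring
      _ ≤ (1 - ((j : ℝ) + 1) * ε) * (U j * g (j + 1)) := mul_le_mul_of_nonneg_right h3 h4
      _ = (1 - ((j : ℝ) + 1) * ε) * U j * g (j + 1) := by ring
      _ ≤ _ := h1
  have hsm : ∀ j, j + 1 < d → U j ≤ 2 * ε * U (j + 1) := by
    intro j hj
    have h1 := hgr j hj
    have h2 : g j ≤ ε * g (j + 1) := hT.small j hj
    have h3 := hgp _ hj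
    have h4 : U (j + 1) * g j ≤ U (j + 1) * (ε * g (j + 1)) := mul_le_mul_of_nonneg_left h2 (hU0 _)
    have h5 : (1 - d * ε) * U j ≤ U (j + 1) * ε := by
      refine le_of_mul_le_mul_right ?_ h3
      linarith
    have h6 := hU0 j
    nlinarith
  -- the sum is bounded by its last term
  have hsum : ∀ n, n < d → ∑ j ∈ range (n + 1), U j ≤ (1 + 4 * ε) * U n := by
    intro n
    induction n with
    | zero =>
      intro _
      rw [sum_range_one]
      nlinarith [hU0 0]
    | succ n ih =>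
      intro hn
      rw [sum_range_succ]
      have h1 := ih (by omega)
      have h2 := hsm n hn
      have h3 := hU0 (n + 1)
      have h4 : (1 + 4 * ε) * U n ≤ (1 + 4 * ε) * (2 * ε * U (n + 1)) :=
        mul_le_mul_of_nonneg_left h2 (by positivity)
      have h5 : (1 + 4 * ε) * (2 * ε * U (n + 1)) ≤ 4 * ε * U (n + 1) := by
        have h6 : (1 + 4 * ε) * (2 * ε) ≤ 4 * ε := by nlinarith
        calc (1 + 4 * ε) * (2 * ε * U (n + 1)) = (1 + 4 * ε) * (2 * ε) * U (n + 1) := by ring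
          _ ≤ _ := mul_le_mul_of_nonneg_right h6 h3
      linarith
  -- the growth from `d - e` to `d - 1`
  have hchain : ∀ k, d - e + k < d → (1 - d * ε) ^ k * U (d - e) * g (d - e + k) ≤
      U (d - e + k) * g (d - e) := by
    intro k
    induction k with
    | zero => intro _; simp
    | succ k ih =>
      intro hk
      have h1 := ih (by omega)
      have h2 := hgr (d - e + k) (by omega)
      have h3 := hgp (d - e + k) (by omega)
      have h4 := hgp (d - e + k + 1) (by omega)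
      have h5 := hgp (d - e) (by omega)
      have h6 : (0 : ℝ) ≤ 1 - d * ε := by linarith
      rw [← add_assoc]
      refine le_of_mul_le_mul_right ?_ h3
      calc (1 - d * ε) ^ (k + 1) * U (d - e) * g (d - e + k + 1) * g (d - e + k)
          = ((1 - d * ε) ^ k * U (d - e) * g (d - e + k)) * ((1 - d * ε) * g (d - e + k + 1)) := by
            ring
        _ ≤ (U (d - e + k) * g (d - e)) * ((1 - d * ε) * g (d - e + k + 1)) :=
            mul_le_mul_of_nonneg_right h1 (mul_nonneg h6 h4.le)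
        _ = ((1 - d * ε) * U (d - e + k) * g (d - e + k + 1)) * g (d - e) := by ring
        _ ≤ (U (d - e + k + 1) * g (d - e + k)) * g (d - e) := mul_le_mul_of_nonneg_right h2 h5.le
        _ = U (d - e + k + 1) * g (d - e) * g (d - e + k) := by ring
  have hke : (kk N m d e : ℝ) ≤ (1 + 4 * ε) * U (d - e) := by
    rw [kk_sum hN hT hm (by omega) hed]
    push_cast
    exact hsum (d - e) (by omega)
  have hk1 : U (d - 1) ≤ (kk N m d 1 : ℝ) := by
    rw [kk_sum hN hT hm le_rfl (by omega)]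
    push_cast
    exact single_le_sum (f := U) (fun j _ => hU0 j) (self_mem_range_succ (d - 1))
  have hc := hchain (e - 1) (by omega)
  have e1 : d - e + (e - 1) = d - 1 := by omega
  rw [e1] at hc
  have hpow : 1 - (d : ℝ) ^ 2 * ε ≤ (1 - d * ε) ^ (e - 1) := by
    have h1 := one_add_mul_le_pow (a := -(d * ε)) (by linarith) (e - 1)
    have h2 : ((e - 1 : ℕ) : ℝ) ≤ d := by
      have : e - 1 ≤ d := by omega
      exact_mod_cast this
    have h3 : ((e - 1 : ℕ) : ℝ) * (d * ε) ≤ d * (d * ε) :=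
      mul_le_mul_of_nonneg_right h2 (by positivity)
    rw [← sub_eq_add_neg] at h1
    nlinarith
  have hgd := hgp (d - 1) (by omega)
  have hge := hgp (d - e) (by omega)
  have hUe := hU0 (d - e)
  show (1 - C * ε) * (kk N m d e : ℝ) * g (d - 1) ≤ (kk N m d 1 : ℝ) * g (d - e)
  calc (1 - C * ε) * (kk N m d e : ℝ) * g (d - 1)
      ≤ (1 - C * ε) * ((1 + 4 * ε) * U (d - e)) * g (d - 1) := by
        apply mul_le_mul_of_nonneg_right _ hgd.le
        exact mul_le_mul_of_nonneg_left hke hneg.le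
    _ = ((1 - C * ε) * (1 + 4 * ε)) * (U (d - e) * g (d - 1)) := by ring
    _ ≤ (1 - d * ε) ^ (e - 1) * (U (d - e) * g (d - 1)) := by
        apply mul_le_mul_of_nonneg_right _ (mul_nonneg hUe hgd.le)
        refine le_trans ?_ hpow
        rw [hC]
        have h1 : (0 : ℝ) ≤ (d : ℝ) ^ 2 * ε ^ 2 := by positivity
        have h2 : (0 : ℝ) ≤ (d : ℝ) * ε ^ 2 := by positivity
        have h3 : (0 : ℝ) ≤ ε ^ 2 := by positivity
        have h4 : (0 : ℝ) ≤ (d : ℝ) * ε := by positivity
        nlinarith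
    _ = (1 - d * ε) ^ (e - 1) * U (d - e) * g (d - 1) := by ring
    _ ≤ U (d - 1) * g (d - e) := hc
    _ ≤ (kk N m d 1 : ℝ) * g (d - e) := mul_le_mul_of_nonneg_right hk1 hge.le

end Pool.Agent.XD

end
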