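import Pool.Agent.H94.LP7.M41
import Pool.Agent.H94.LP7.M68
import Pool.Agent.H94.LP7.XD.Num.Thr
import Pool.Agent.H94.LP7.XD.Num.Transport
import Pool.Agent.H94.LP7.XE.Gain

/-! The parts of this file: XD.Num.Star, XD.Num.Xd, XE.Thr2_1. -/

section

/-!
# XD, module N4: the comparison of the increments

By `Sys.ker` and `thr`, `dl (m, t+1) - dl (m, t) = kk N m d (e t)` and
`dl (m-1, t) - dl (m, t) = kk N m d 1`; then `kk_le` with a small `ε'`, and
`A e (m-1) t (d-1) = A e m t (d-1) - A e m t (d-2) ≥ (1 - ε'') A e m t (d-1)` for large `n`,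
`A e (m-1) t (d - e t) ≤ A e m t (d - e t)`.
-/

set_option autoImplicit false

namespace Pool.Agent.XD

open Finset

/-- The excess of the dimension in degree `d`. -/
noncomputable def dl (F : ℕ → ℕ → ℕ → ℕ) (e : ℕ → ℕ) (d m t : ℕ) : ℝ :=
  (F m t d : ℝ) - (A e m t d : ℝ)

theorem star (d : ℕ) (hd : 2 ≤ d) (IH : ∀ l < d, ∀ η : ℝ, 0 < η → ∃ n₀ : ℕ, Exact l η n₀)
    (η ε : ℝ) (hη : 0 < η) (hε : 0 < ε) : ∃ n₁ : ℕ, ∀ n, n₁ ≤ n →
    ∀ (e : ℕ → ℕ) (F : ℕ → ℕ → ℕ → ℕ), (∀ t, 2 ≤ e t) → Sys d e F → ∀ m t, m ≤ n →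
      (∀ j < d, η * (n : ℝ) ^ j ≤ (A e m t j : ℝ)) → e t ≤ d →
      dl F e d m t ≤ dl F e d m (t + 1) ∧
      (dl F e d m (t + 1) - dl F e d m t) * ((1 - ε) * (A e m t (d - 1) : ℝ)) ≤
        (dl F e d (m - 1) t - dl F e d m t) * (A e m t (d - e t) : ℝ) := by
  obtain ⟨C, hC, hkk⟩ := kk_le d
  have hε' : 0 < ε / (2 * (C + 1)) := by positivity
  obtain ⟨n₁, hn₁⟩ := thr d hd IH η (ε / (2 * (C + 1))) hη hε'
  refine ⟨max n₁ (⌈2 / (ε * η)⌉₊ + 1), fun n hn e F he hS m t hm hA het => ?_⟩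
  have hna : n₁ ≤ n := le_trans (le_max_left _ _) hn
  have hnb : 2 / (ε * η) ≤ n := by
    have h1 : ⌈2 / (ε * η)⌉₊ ≤ n := by
      have := le_trans (le_max_right _ _) hn
      omega
    exact le_trans (Nat.le_ceil _) (by exact_mod_cast h1)
  have hn0 : 1 ≤ n := by
    have := le_trans (le_max_right _ _) hn
    omega
  have hnR : (1 : ℝ) ≤ n := by exact_mod_cast hn0
  have he1 : ∀ t, 1 ≤ e t := fun t => le_trans (by norm_num) (he t)
  obtain ⟨hm1, hF, hF', τ, hτ⟩ := hn₁ n hna e F he hS m t hm hA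
  obtain ⟨N, hN, hk1, hk2⟩ := hS.ker m t hm1
  have hk1' := hk1 het
  have hk2' := hk2 (by omega)
  have het2 := he t
  -- the increments
  have c1 : (F m t (d - e t) : ℝ) = (A e m t (d - e t) : ℝ) := by
    exact_mod_cast hF (d - e t) (by omega)
  have c2 : (F m t (d - 1) : ℝ) = (A e m t (d - 1) : ℝ) := by
    exact_mod_cast hF (d - 1) (by omega)
  have c3 : (F m (t + 1) d : ℝ) + F m t (d - e t) = F m t d + kk N m d (e t) := by
    exact_mod_cast hk1'
  have c4 : (F (m - 1) t d : ℝ) + F m t (d - 1) = F m t d + kk N m d 1 := by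
    exact_mod_cast hk2'
  have c5 : (A e m (t + 1) d : ℝ) = (A e m t d : ℝ) - (A e m t (d - e t) : ℝ) := by
    rw [A_succ, if_pos het]
    push_cast
    ring
  have pas : ∀ j, (A e m t (j + 1) : ℝ) = (A e (m - 1) t (j + 1) : ℝ) + (A e m t j : ℝ) := by
    intro j
    have := A_pascal he1 (m - 1) t j
    rw [Nat.sub_add_cancel hm1] at this
    exact_mod_cast this
  have c6 : (A e m t d : ℝ) = (A e (m - 1) t d : ℝ) + (A e m t (d - 1) : ℝ) := by
    have := pas (d - 1)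
    rwa [Nat.sub_add_cancel (by omega : 1 ≤ d)] at this
  have i1 : dl F e d m (t + 1) - dl F e d m t = kk N m d (e t) := by
    unfold dl
    rw [c5]
    linarith only [c1, c3]
  have i2 : dl F e d (m - 1) t - dl F e d m t = kk N m d 1 := by
    unfold dl
    linarith only [c2, c4, c6]
  have hkk0 : (0 : ℝ) ≤ kk N m d (e t) := Nat.cast_nonneg _
  have hkk1 : (0 : ℝ) ≤ kk N m d 1 := Nat.cast_nonneg _
  refine ⟨by linarith only [i1], ?_⟩
  rw [i1, i2]
  -- the numbers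
  have hApos : ∀ j < d, (0 : ℝ) ≤ (A e m t j : ℝ) := fun j hj =>
    le_trans (by positivity) (hA j hj)
  have hAposZ : ∀ j < d, (0 : ℤ) ≤ A e m t j := fun j hj => by exact_mod_cast hApos j hj
  have hA'pos : ∀ j < d, (0 : ℤ) ≤ A e (m - 1) t j := fun j hj => by
    rw [← hF' j hj]
    exact Int.natCast_nonneg _
  have a1 : (A e (m - 1) t (d - e t) : ℝ) ≤ (A e m t (d - e t) : ℝ) := by
    have := A_mono_m he1 (D := d) hA'pos (m' := m) (Nat.sub_le m 1) (j := d - e t) (by omega)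
    exact_mod_cast this
  have g1 : (F (m - 1) t (d - 1) : ℝ) = (A e (m - 1) t (d - 1) : ℝ) := by
    exact_mod_cast hF' (d - 1) (by omega)
  have g2 : (F (m - 1) t (d - e t) : ℝ) = (A e (m - 1) t (d - e t) : ℝ) := by
    exact_mod_cast hF' (d - e t) (by omega)
  by_cases hε1 : ε ≤ 1
  · have hmain := hkk (e t) m N (fun i j => F i t j) τ (ε / (2 * (C + 1))) het2 het hm1 hε'.le hN hτ
    rw [g1, g2] at hmain
    have a2 : (A e m t (d - 2) : ℝ) ≤ ε / 2 * (A e m t (d - 1) : ℝ) := by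
      have h1 : (A e m t (d - 2) : ℝ) ≤ (m : ℝ) ^ (d - 2) := by
        exact_mod_cast A_le_pow he1 (D := d) hAposZ (j := d - 2) (by omega)
      have h2 : (m : ℝ) ^ (d - 2) ≤ (n : ℝ) ^ (d - 2) := by
        have : (m : ℝ) ≤ n := by exact_mod_cast hm
        gcongr
      have h3 : (1 : ℝ) ≤ ε / 2 * η * n := by
        have h4 : 2 / (ε * η) * (ε * η) ≤ n * (ε * η) := by
          have : 0 < ε * η := by positivity
          gcongr
        rw [div_mul_cancel₀ _ (by positivity)] at h4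
        linarith only [h4]
      have h5 : (n : ℝ) ^ (d - 2) ≤ ε / 2 * (η * (n : ℝ) ^ (d - 1)) := by
        have h6 : (n : ℝ) ^ (d - 1) = (n : ℝ) ^ (d - 2) * n := by
          rw [← pow_succ]
          congr 1
          omega
        rw [h6]
        have h7 : 0 < (n : ℝ) ^ (d - 2) := by positivity
        nlinarith only [h3, h7]
      have h8 := hA (d - 1) (by omega)
      have h9 : ε / 2 * (η * (n : ℝ) ^ (d - 1)) ≤ ε / 2 * (A e m t (d - 1) : ℝ) := by
        gcongr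
      linarith only [h1, h2, h5, h9]
    have a3 : (1 - ε / 2) * (A e m t (d - 1) : ℝ) ≤ (A e (m - 1) t (d - 1) : ℝ) := by
      have := pas (d - 2)
      rw [show d - 2 + 1 = d - 1 by omega] at this
      linarith only [a2, this]
    have a4 : C * (ε / (2 * (C + 1))) ≤ ε / 2 := by
      rw [show C * (ε / (2 * (C + 1))) = ε / 2 * (C / (C + 1)) by
        field_simp]
      have : C / (C + 1) ≤ 1 := by
        rw [div_le_one (by positivity)]
        linarith only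
      nlinarith only [hε, this]
    have hX := hApos (d - 1) (by omega)
    have a5 : (1 - ε) * (A e m t (d - 1) : ℝ)
        ≤ (1 - C * (ε / (2 * (C + 1)))) * (A e (m - 1) t (d - 1) : ℝ) := by
      have b1 : (1 - ε / 2) * (A e (m - 1) t (d - 1) : ℝ)
          ≤ (1 - C * (ε / (2 * (C + 1)))) * (A e (m - 1) t (d - 1) : ℝ) := by
        have : (0 : ℝ) ≤ (A e (m - 1) t (d - 1) : ℝ) := by
          exact_mod_cast hA'pos (d - 1) (by omega)
        gcongr
      have b2 : (1 - ε / 2) * ((1 - ε / 2) * (A e m t (d - 1) : ℝ))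
          ≤ (1 - ε / 2) * (A e (m - 1) t (d - 1) : ℝ) := by
        have : (0 : ℝ) ≤ 1 - ε / 2 := by linarith only [hε1]
        gcongr
      nlinarith only [b1, b2, hε, hX, mul_nonneg (mul_nonneg hε.le hε.le) hX]
    calc (kk N m d (e t) : ℝ) * ((1 - ε) * (A e m t (d - 1) : ℝ))
        ≤ (kk N m d (e t) : ℝ) * ((1 - C * (ε / (2 * (C + 1)))) * (A e (m - 1) t (d - 1) : ℝ)) := by
          gcongr
      _ = (1 - C * (ε / (2 * (C + 1)))) * (kk N m d (e t) : ℝ) * (A e (m - 1) t (d - 1) : ℝ) := by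
          ring
      _ ≤ (kk N m d 1 : ℝ) * (A e (m - 1) t (d - e t) : ℝ) := hmain
      _ ≤ (kk N m d 1 : ℝ) * (A e m t (d - e t) : ℝ) := by gcongr
  · have h1 : (kk N m d (e t) : ℝ) * ((1 - ε) * (A e m t (d - 1) : ℝ)) ≤ 0 := by
      apply mul_nonpos_of_nonneg_of_nonpos hkk0
      exact mul_nonpos_of_nonpos_of_nonneg (by linarith only [hε1, not_le.1 hε1]) (hApos _ (by omega))
    exact le_trans h1 (mul_nonneg hkk1 (hApos _ (by omega)))

end Pool.Agent.XD

end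

section

/-!
# XD, module N6: the theorem for systems

Degrees `0`, `1`: `Sys.deg_zero`, `Sys.skip` (`F m t 1 = m = A e m t 1`).  `d ≥ 2`: strong induction;
`transport` (WLOG `η ≤ 1`), `star` for `η / 4` (for the sign of `dl` in the region) and for `η / 2` with
the `ε` of `transport`; `δ = dl F e d`.  Exactness in the degrees `< d` in the region: `IH` with `η / 4`.
Then `A e m t d ≤ F m t d ≤ n^(d-j) F m t j = n^(d-j) A e m t j`.  At the end `0 ≤ δ m₁ T < 1` is an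
integer.
-/

set_option autoImplicit false

namespace Pool.Agent.XD

open Finset

private theorem eq_one {e : ℕ → ℕ} {F : ℕ → ℕ → ℕ → ℕ} (he : ∀ t, 2 ≤ e t) (hF : Sys 1 e F)
    (m t : ℕ) : (F m t 1 : ℤ) = A e m t 1 := by
  have he1 : ∀ t, 1 ≤ e t := fun t => (he t).trans' (by norm_num)
  induction t with
  | zero => rw [hF.zero m 1 le_rfl, A_zero]
  | succ t ih =>
    have h2 := he t
    rw [hF.skip he1 m t le_rfl (by omega), A_succ, if_neg (by omega), sub_zero]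
    exact ih

private theorem eq_zero {e : ℕ → ℕ} {F : ℕ → ℕ → ℕ → ℕ} (he : ∀ t, 2 ≤ e t) (hF : Sys 0 e F)
    (m t : ℕ) : (F m t 0 : ℤ) = A e m t 0 := by
  have he1 : ∀ t, 1 ≤ e t := fun t => (he t).trans' (by norm_num)
  rw [hF.deg_zero he1 m t, A_deg_zero he1]
  rfl

/-- One bound for all degrees `< d`. -/
private theorem xd_all (d : ℕ) (η : ℝ) (IH : ∀ l < d, ∃ n₀ : ℕ, Exact l η n₀) :
    ∃ N : ℕ, ∀ l < d, Exact l η N := by
  induction d with
  | zero => exact ⟨0, fun l hl => absurd hl (Nat.not_lt_zero l)⟩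
  | succ d ih =>
    obtain ⟨N, hN⟩ := ih fun l hl => IH l (Nat.lt_succ_of_lt hl)
    obtain ⟨M, hM⟩ := IH d (Nat.lt_succ_self d)
    refine ⟨max N M, fun l hl n hn => ?_⟩
    rcases Nat.lt_succ_iff_lt_or_eq.1 hl with h | rfl
    · exact hN l h n ((le_max_left _ _).trans hn)
    · exact hM n ((le_max_right _ _).trans hn)

/-- `dl` is nonnegative in the region. -/
private theorem xd_nonneg {d : ℕ} {e : ℕ → ℕ} {F : ℕ → ℕ → ℕ → ℕ} (he : ∀ t, 2 ≤ e t)
    (hF : Sys d e F) (m T : ℕ) (h0 : ∀ j < d, 0 ≤ A e m T j)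
    (h : ∀ t < T, (∀ j < d, A e m T j ≤ A e m t j) → e t ≤ d → dl F e d m t ≤ dl F e d m (t + 1)) :
    0 ≤ dl F e d m T := by
  have he1 : ∀ t, 1 ≤ e t := fun t => (he t).trans' (by norm_num)
  have key : ∀ t ≤ T, 0 ≤ dl F e d m t := by
    intro t
    induction t with
    | zero =>
      intro _
      unfold dl
      rw [hF.zero m d le_rfl, A_zero]
      simp
    | succ t ih =>
      intro ht
      refine (ih (by omega)).trans ?_
      by_cases hed : e t ≤ d
      · exact h t ht (fun j hj => A_anti_t he1 h0 (by omega) hj.le) hed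
      · unfold dl
        rw [hF.skip he1 m t le_rfl (by omega), A_succ, if_neg hed, sub_zero]
  exact key T le_rfl

private theorem xd_le_one (d : ℕ) (hd : 2 ≤ d) (IH : ∀ l < d, ∀ η : ℝ, 0 < η → ∃ n₀ : ℕ, Exact l η n₀)
    (η : ℝ) (hη : 0 < η) (hη1 : η ≤ 1) : ∃ n₀ : ℕ, Exact d η n₀ := by
  obtain ⟨ε, hε, n₂, htr⟩ := transport d hd η hη hη1
  have h2 : 0 < η / 2 := by positivity
  have h4 : 0 < η / 4 := by positivity
  obtain ⟨n₁, hst⟩ := star d hd IH (η / 2) ε h2 hε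
  obtain ⟨n₃, hst'⟩ := star d hd IH (η / 4) 1 h4 one_pos
  obtain ⟨n₄, hex⟩ := xd_all d (η / 4) fun l hl => IH l hl (η / 4) h4
  refine ⟨n₁ + n₂ + n₃ + n₄ + 1, fun n hn e F he hF m₁ T hm₁ hA => ?_⟩
  have he1 : ∀ t, 1 ≤ e t := fun t => (he t).trans' (by norm_num)
  have hn0 : (0 : ℝ) < n := by
    have : 0 < n := by omega
    exact_mod_cast this
  -- nonnegative in the region
  have hnn : ∀ m ≤ m₁, ∀ t, (∀ j < d, η / 4 * (n : ℝ) ^ j ≤ (A e m t j : ℝ)) →
      0 ≤ dl F e d m t := by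
    intro m hm t ht
    refine xd_nonneg he hF m t (fun j hj => ?_) fun s _ hs hed => ?_
    · have h5 : (0 : ℝ) ≤ (A e m t j : ℝ) := le_trans (by positivity) (ht j hj)
      exact_mod_cast h5
    · refine (hst' n (by omega) e F he hF m s (hm.trans hm₁) (fun j hj => ?_) hed).1
      refine (ht j hj).trans ?_
      exact_mod_cast hs j hj
  have hA4 : ∀ j ≤ d, η / 4 * (n : ℝ) ^ j ≤ (A e m₁ T j : ℝ) := by
    intro j hj
    refine le_trans ?_ (hA j hj)
    have : (0 : ℝ) ≤ (n : ℝ) ^ j := by positivity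
    nlinarith
  have hlt : dl F e d m₁ T < 1 := by
    refine htr n (by omega) e he (dl F e d) m₁ T hm₁ hA ?_ ?_ ?_ ?_ ?_
    · intro m _
      unfold dl
      rw [hF.zero m d le_rfl, A_zero]
      simp
    · intro m hm t _ _
      unfold dl
      have h5 : F m t d ≤ m ^ d := hF.le_pow he1 m t le_rfl
      have h6 : m ^ d ≤ n ^ d := Nat.pow_le_pow_left (hm.trans hm₁) d
      have h7 : (F m t d : ℝ) ≤ (n : ℝ) ^ d := by exact_mod_cast h5.trans h6
      linarith
    · intro m _ t _ hed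
      unfold dl
      rw [hF.skip he1 m t le_rfl hed, A_succ, if_neg (by omega), sub_zero]
    · intro m hm t _ hlow htop j hj
      rcases Nat.lt_or_ge j d with hjd | hjd
      · have h5 := hnn m hm t hlow
        have h6 : (A e m t d : ℝ) ≤ F m t d := by
          unfold dl at h5
          linarith
        have h7 : F m t d ≤ m ^ (d - j) * F m t j := hF.le_pow_mul m t hj le_rfl
        have h8 : m ^ (d - j) ≤ n ^ (d - j) := Nat.pow_le_pow_left (hm.trans hm₁) _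
        have h9 : (F m t d : ℝ) ≤ (n : ℝ) ^ (d - j) * F m t j := by
          exact_mod_cast h7.trans (Nat.mul_le_mul_right _ h8)
        have h10 : (F m t j : ℤ) = A e m t j :=
          hex j hjd n (by omega) e F he (hF.mono hj) m t (hm.trans hm₁)
            fun l hl => hlow l (lt_of_le_of_lt hl hjd)
        have h11 : (F m t j : ℝ) = (A e m t j : ℝ) := by exact_mod_cast congrArg (fun z : ℤ => (z : ℝ)) h10
        have h12 : (0 : ℝ) < (n : ℝ) ^ (d - j) := by positivity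
        have h13 : (n : ℝ) ^ d = (n : ℝ) ^ (d - j) * (n : ℝ) ^ j := by
          rw [← pow_add]
          congr 1
          omega
        have h14 : (n : ℝ) ^ (d - j) * (η / 2 * (n : ℝ) ^ j) ≤ (n : ℝ) ^ (d - j) * (A e m t j : ℝ) := by
          rw [← h11]
          calc (n : ℝ) ^ (d - j) * (η / 2 * (n : ℝ) ^ j) = η / 2 * (n : ℝ) ^ d := by rw [h13]; ring
            _ ≤ (A e m t d : ℝ) := htop
            _ ≤ F m t d := h6
            _ ≤ (n : ℝ) ^ (d - j) * F m t j := h9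
        exact le_of_mul_le_mul_left h14 h12
      · obtain rfl : j = d := le_antisymm hj hjd
        exact htop
    · intro m hm t _ hreg hed
      exact hst n (by omega) e F he hF m t (hm.trans hm₁) (fun j hj => hreg j hj.le) hed
  have hge := hnn m₁ le_rfl T fun j hj => hA4 j hj.le
  unfold dl at hlt hge
  have h5 : ((F m₁ T d : ℤ) - A e m₁ T d : ℤ) < 1 := by
    have : (((F m₁ T d : ℤ) - A e m₁ T d : ℤ) : ℝ) < 1 := by
      push_cast
      exact hlt
    exact_mod_cast this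
  have h6 : (0 : ℤ) ≤ (F m₁ T d : ℤ) - A e m₁ T d := by
    have : (0 : ℝ) ≤ (((F m₁ T d : ℤ) - A e m₁ T d : ℤ) : ℝ) := by
      push_cast
      exact hge
    exact_mod_cast this
  omega

theorem xd (d : ℕ) (η : ℝ) (hη : 0 < η) : ∃ n₀ : ℕ, Exact d η n₀ := by
  induction d using Nat.strong_induction_on generalizing η with
  | _ d IH =>
    rcases Nat.lt_or_ge d 2 with hd | hd
    · interval_cases d
      · exact ⟨0, fun n _ e F he hF m t _ _ => eq_zero he hF m t⟩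
      · exact ⟨0, fun n _ e F he hF m t _ _ => eq_one he hF m t⟩
    · obtain ⟨n₀, h⟩ := xd_le_one d hd (fun l hl η' hη' => IH l hl η' hη') (min η 1)
        (lt_min hη one_pos) (min_le_right _ _)
      refine ⟨n₀, fun n hn e F he hF m t hm hA => h n hn e F he hF m t hm fun j hj => ?_⟩
      refine le_trans ?_ (hA j hj)
      exact mul_le_mul_of_nonneg_right (min_le_left _ _) (by positivity)

/-- The lower bound: only the lower degrees are off the layer. -/
theorem xd_lower (d : ℕ) (η : ℝ) (hη : 0 < η) : ∃ n₀ : ℕ, ∀ n, n₀ ≤ n →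
    ∀ (e : ℕ → ℕ) (F : ℕ → ℕ → ℕ → ℕ), (∀ t, 2 ≤ e t) → Sys d e F → ∀ m t, m ≤ n →
      (∀ j < d, η * (n : ℝ) ^ j ≤ (A e m t j : ℝ)) → A e m t d ≤ (F m t d : ℤ) := by
  rcases Nat.lt_or_ge d 2 with hd | hd
  · interval_cases d
    · exact ⟨0, fun n _ e F he hF m t _ _ => (eq_zero he hF m t).ge⟩
    · exact ⟨0, fun n _ e F he hF m t _ _ => (eq_one he hF m t).ge⟩
  · obtain ⟨n₁, hst⟩ := star d hd (fun l _ η' hη' => xd l η' hη') η 1 hη one_pos
    refine ⟨n₁, fun n hn e F he hF m t hm hA => ?_⟩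
    have h1 : 0 ≤ dl F e d m t := by
      refine xd_nonneg he hF m t (fun j hj => ?_) fun s _ hs hed => ?_
      · have h5 : (0 : ℝ) ≤ (A e m t j : ℝ) := le_trans (by positivity) (hA j hj)
        exact_mod_cast h5
      · refine (hst n hn e F he hF m s hm (fun j hj => ?_) hed).1
        refine (hA j hj).trans ?_
        exact_mod_cast hs j hj
    unfold dl at h1
    have h2 : (A e m t d : ℝ) ≤ ((F m t d : ℤ) : ℝ) := by
      push_cast
      linarith
    exact_mod_cast h2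

end Pool.Agent.XD

end

section

/-!
# XE, module N: the thresholds, with room below `m`

From `Pool.Agent.XD.thr` (`IH` = `xd`), at `m` for exactness, `small`; and at `m' = m - (d + 3) s - 1`, `s = ⌊θ m⌋`, `θ`
small depending on `η`, `d`, for the `τ` (`n = m`; `A e m' t j ≥ A e m t j - ((d+3) s + 1) m^(j-1) ≥ (η/2) m^j`).  `recu`
for `i ≥ m'`: exactness (`xd`) and `A_pascal`.  `Gn.half`, `Gn.incr`: `F i t j = A e i t j`,
`A e i t j - A e (i - s) t j = ∑_{i - s < l ≤ i} A e l t (j - 1)`, `(η/2) m^(j-1) ≤ A e l t (j-1) ≤ m^(j-1)`.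
-/

set_option autoImplicit false

namespace Pool.Agent.XE

open Finset Pool.Agent.XD

private theorem T2_all (d : ℕ) (η : ℝ) (hη : 0 < η) : ∃ N : ℕ, ∀ l < d, Exact l η N := by
  induction d with
  | zero => exact ⟨0, fun l hl => absurd hl (Nat.not_lt_zero l)⟩
  | succ d ih =>
    obtain ⟨N, hN⟩ := ih
    obtain ⟨M, hM⟩ := xd d η hη
    refine ⟨max N M, fun l hl n hn => ?_⟩
    rcases Nat.lt_succ_iff_lt_or_eq.1 hl with h | rfl
    · exact hN l h n ((le_max_left _ _).trans hn)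
    · exact hM n ((le_max_right _ _).trans hn)

theorem thr2 (d : ℕ) (hd : 2 ≤ d) (η : ℝ) (hη : 0 < η) : ∃ ω : ℝ, 0 < ω ∧ ω ≤ 1 ∧
    ∀ ε : ℝ, 0 < ε → ∃ n₁ : ℕ, ∀ m, n₁ ≤ m →
    ∀ (e : ℕ → ℕ) (F : ℕ → ℕ → ℕ → ℕ), (∀ t, 2 ≤ e t) → Sys d e F → ∀ t,
      (∀ j < d, η * (m : ℝ) ^ j ≤ (A e m t j : ℝ)) →
      1 ≤ m ∧ (∀ j < d, (F m t j : ℤ) = A e m t j) ∧
        ∃ (τ : ℕ → ℕ) (s : ℕ), Thr m d (fun i j => F i t j) τ ε ∧
          Gn m d s (fun i j => F i t j) τ ω := by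
  obtain ⟨η', hη', hη'0, hη'1⟩ : ∃ η' : ℝ, η' ≤ η ∧ 0 < η' ∧ η' ≤ 1 :=
    ⟨min η 1, min_le_left _ _, lt_min hη one_pos, min_le_right _ _⟩
  obtain ⟨θ, hθ⟩ : ∃ θ : ℝ, θ = η' / (4 * (d + 4)) := ⟨_, rfl⟩
  have hd4 : (0 : ℝ) < 4 * ((d : ℝ) + 4) := by positivity
  have hθ0 : 0 < θ := by rw [hθ]; positivity
  have hθd : ((d : ℝ) + 4) * θ = η' / 4 := by
    rw [hθ]
    field_simp
  have hθη : θ ≤ η' / 4 := by
    rw [← hθd]
    have h1 : (1 : ℝ) ≤ (d : ℝ) + 4 := by
      have : (0 : ℝ) ≤ d := Nat.cast_nonneg _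
      linarith only
    nlinarith only [hη'0, hθd, hθ0]
  refine ⟨θ * η' / 4, by positivity, ?_, fun ε hε => ?_⟩
  · nlinarith only [hη'1, hθ0, hθd, hη, hη', hη'0]
  obtain ⟨n₁, h₁⟩ := thr d hd (fun l _ η hη => xd l η hη) η' ε hη'0 hε
  obtain ⟨n₂, h₂⟩ := thr d hd (fun l _ η hη => xd l η hη) (η' / 2) ε (by positivity) hε
  obtain ⟨n₃, h₃⟩ := T2_all d (η' / 2) (by positivity)
  obtain ⟨n₄, h₄⟩ := exists_nat_ge (8 / η')
  obtain ⟨n₅, h₅⟩ := exists_nat_ge (2 / θ)
  refine ⟨n₁ + n₂ + n₃ + n₄ + n₅, fun m hm e F he hS t hA => ?_⟩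
  have he1 : ∀ t, 1 ≤ e t := fun t => (he t).trans' (by norm_num)
  have hA' : ∀ j < d, η' * (m : ℝ) ^ j ≤ (A e m t j : ℝ) := fun j hj =>
    (mul_le_mul_of_nonneg_right hη' (by positivity)).trans (hA j hj)
  have hm4 : 8 ≤ η' * m := by
    have h6 : (n₄ : ℝ) ≤ m := by exact_mod_cast (by omega : n₄ ≤ m)
    have h7 := h₄.trans h6
    rw [div_le_iff₀ hη'0] at h7
    linarith only [h7]
  have hm5 : 2 ≤ θ * m := by
    have h6 : (n₅ : ℝ) ≤ m := by exact_mod_cast (by omega : n₅ ≤ m)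
    have h7 := h₅.trans h6
    rw [div_le_iff₀ hθ0] at h7
    linarith only [h7]
  have hm0 : (0 : ℝ) < m := by
    by_contra h
    push Not at h
    nlinarith only [hη'1, hθ0, hθd, hm4, h]
  obtain ⟨s, hs⟩ : ∃ s : ℕ, s = ⌊θ * m⌋₊ := ⟨_, rfl⟩
  have hs1 : (s : ℝ) ≤ θ * m := by
    rw [hs]
    exact Nat.floor_le (by positivity)
  have hs2 : θ * m / 2 ≤ s := by
    have h6 := Nat.lt_floor_add_one (θ * m)
    rw [← hs] at h6
    linarith only [hm5, h6]
  have hs3 : 1 ≤ s := by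
    have h6 : (1 : ℝ) ≤ s := by linarith only [hm5, hs2]
    exact_mod_cast h6
  -- the room below `m`
  obtain ⟨K, hK⟩ : ∃ K : ℕ, K = (d + 3) * s + 2 := ⟨_, rfl⟩
  have hKr : (K : ℝ) ≤ η' / 2 * m := by
    rw [hK]
    push_cast
    have h6 : ((d : ℝ) + 3) * s ≤ (d + 3) * (θ * m) := mul_le_mul_of_nonneg_left hs1 (by positivity)
    have h7 : ((d : ℝ) + 3) * (θ * m) = ((d + 4) * θ) * m - θ * m := by ring
    rw [hθd] at h7
    nlinarith only [hη'1, hθ0, hθη, hm4, hm5, h6, h7]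
  have hKm : K ≤ m := by
    have h6 : (K : ℝ) ≤ m := by
      refine hKr.trans ?_
      nlinarith only [hη'1, hθ0, hθd, hm4]
    exact_mod_cast h6
  have hbd : ∀ i, m ≤ i + K → i ≤ m → ∀ j < d,
      η' / 2 * (m : ℝ) ^ j ≤ (A e i t j : ℝ) ∧ (A e i t j : ℝ) ≤ (m : ℝ) ^ j :=
    fun i hi him j hj => T2_bd he1 hη'0 hA' hKm hKr hi him hj
  have hex : ∀ i, m ≤ i + K → i ≤ m → ∀ j < d, (F i t j : ℤ) = A e i t j := by
    intro i hi him j hj
    exact h₃ j hj m (by omega) e F he (hS.mono hj.le) i t him fun l hl =>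
      (hbd i hi him l (by omega)).1
  have hexR : ∀ i, m ≤ i + K → i ≤ m → ∀ j < d, (F i t j : ℝ) = (A e i t j : ℝ) := by
    intro i hi him j hj
    exact_mod_cast hex i hi him j hj
  have hinc : ∀ i, m ≤ i + K → ∀ g, i + g ≤ m → ∀ j, j + 1 < d →
      g * (η' / 2 * (m : ℝ) ^ j) ≤ (F (i + g) t (j + 1) : ℝ) - (F i t (j + 1) : ℝ) ∧
      (F (i + g) t (j + 1) : ℝ) - (F i t (j + 1) : ℝ) ≤ g * (m : ℝ) ^ j := by
    intro i hi g hg j hj
    rw [hexR (i + g) (by omega) hg (j + 1) hj, hexR i hi (by omega) (j + 1) hj]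
    exact T2_incr he1 hη'0 hA' hKm hKr hi hj g hg
  obtain ⟨hm1, hF, -, τ₀, hτ₀⟩ := h₁ m (by omega) e F he hS m t le_rfl hA'
  obtain ⟨m', hm'⟩ : ∃ m' : ℕ, m' + ((d + 3) * s + 1) = m := ⟨m - ((d + 3) * s + 1), by omega⟩
  have hm'K : m ≤ m' + K := by omega
  obtain ⟨hm'1, -, -, τ, hτ⟩ := h₂ m (by omega) e F he hS m' t (by omega) fun j hj =>
    (hbd m' hm'K (by omega) j hj).1
  -- the numbers grow with the number of variables
  have hmon : ∀ j < d, F (m' - 1) t j ≤ F (m - 1) t j := by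
    intro j hj
    rcases j with _ | j
    · rw [hS.deg_zero he1, hS.deg_zero he1]
    · obtain ⟨h6, -⟩ := hinc (m' - 1) (by omega) (m - 1 - (m' - 1)) (by omega) j hj
      rw [show m' - 1 + (m - 1 - (m' - 1)) = m - 1 by omega] at h6
      have h7 : (0 : ℝ) ≤ ((m - 1 - (m' - 1) : ℕ) : ℝ) * (η' / 2 * (m : ℝ) ^ j) := by positivity
      have h8 : (F (m' - 1) t (j + 1) : ℝ) ≤ (F (m - 1) t (j + 1) : ℝ) := by linarith only [h6, h7]
      exact_mod_cast h8
  have hsds : (d + 3) * s = (d + 1) * s + 2 * s := by ring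
  refine ⟨hm1, hF, τ, s, ⟨?_, hτ.mono, ?_, hτ.ratio, ?_, hτ₀.small, hτ₀.pos⟩,
    ⟨fun i _ => T2_one (by omega) he hS i t, hs3, ?_, ?_, ?_, ?_⟩⟩
  · intro j hj hjd
    have := hτ.lt j hj hjd
    omega
  · intro j hj i hi him
    rcases Nat.lt_or_ge i m' with h6 | h6
    · exact hτ.recu j hj i hi h6
    · have h7 := hex (i + 1) (by omega) (by omega) (j + 1) hj
      have h8 := hex i (by omega) (by omega) (j + 1) hj
      have h9 := hex (i + 1) (by omega) (by omega) j (by omega)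
      have h10 := A_pascal he1 i t j
      rw [← h7, ← h8, ← h9] at h10
      exact_mod_cast h10
  · intro j hj hjd
    refine (hτ.last j hj hjd).trans (mul_le_mul_of_nonneg_left ?_ hε.le)
    exact_mod_cast hmon j hjd
  · intro j hj hjd
    have := hτ.lt j hj hjd
    omega
  · intro j hj hjd i hi him
    obtain ⟨j, rfl⟩ : ∃ j', j = j' + 1 := ⟨j - 1, by omega⟩
    obtain ⟨-, h6⟩ := hinc (i - 2 * s) (by omega) s (by omega) j hjd
    rw [show i - 2 * s + s = i - s by omega] at h6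
    have h7 := (hbd (i - 2 * s) (by omega) (by omega) (j + 1) hjd).1
    rw [← hexR (i - 2 * s) (by omega) (by omega) (j + 1) hjd] at h7
    have h8 : (s : ℝ) * (m : ℝ) ^ j ≤ η' / 2 * (m : ℝ) ^ (j + 1) := by
      have h9 : (s : ℝ) * (m : ℝ) ^ j ≤ θ * m * (m : ℝ) ^ j :=
        mul_le_mul_of_nonneg_right hs1 (by positivity)
      have h10 : (0 : ℝ) ≤ (m : ℝ) * (m : ℝ) ^ j := by positivity
      rw [pow_succ]
      nlinarith only [h9, hη'0, h10, hθη]
    show (F (i - s) t (j + 1) : ℝ) ≤ 2 * (F (i - 2 * s) t (j + 1) : ℝ)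
    linarith only [h6, h7, h8]
  · intro j hj hjd i hi him
    obtain ⟨j, rfl⟩ : ∃ j', j = j' + 1 := ⟨j - 1, by omega⟩
    obtain ⟨h6, -⟩ := hinc (i - s) (by omega) s (by omega) j hjd
    rw [show i - s + s = i by omega] at h6
    have h7 := (hbd i (by omega) him (j + 1) hjd).2
    rw [← hexR i (by omega) him (j + 1) hjd] at h7
    have h8 : θ * η' / 4 * (m : ℝ) ^ (j + 1) ≤ (s : ℝ) * (η' / 2 * (m : ℝ) ^ j) := by
      have h9 : θ * m / 2 * (η' / 2 * (m : ℝ) ^ j) ≤ (s : ℝ) * (η' / 2 * (m : ℝ) ^ j) :=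
        mul_le_mul_of_nonneg_right hs2 (by positivity)
      refine le_trans (le_of_eq ?_) h9
      rw [pow_succ]
      ring
    have h9 : θ * η' / 4 * (F i t (j + 1) : ℝ) ≤ θ * η' / 4 * (m : ℝ) ^ (j + 1) :=
      mul_le_mul_of_nonneg_left h7 (by positivity)
    show θ * η' / 4 * (F i t (j + 1) : ℝ) ≤ (F i t (j + 1) : ℝ) - (F (i - s) t (j + 1) : ℝ)
    linarith only [h6, h8, h9]
  · intro j hj hjd
    obtain ⟨j, rfl⟩ : ∃ j', j = j' + 1 := ⟨j - 1, by omega⟩
    obtain ⟨-, h6⟩ := hinc (m - 1 - s) (by omega) s (by omega) j hjd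
    rw [show m - 1 - s + s = m - 1 by omega] at h6
    have h7 := (hbd (m - 1 - s) (by omega) (by omega) (j + 1) hjd).1
    rw [← hexR (m - 1 - s) (by omega) (by omega) (j + 1) hjd] at h7
    have h8 : (s : ℝ) * (m : ℝ) ^ j ≤ η' / 2 * (m : ℝ) ^ (j + 1) := by
      have h9 : (s : ℝ) * (m : ℝ) ^ j ≤ θ * m * (m : ℝ) ^ j :=
        mul_le_mul_of_nonneg_right hs1 (by positivity)
      have h10 : (0 : ℝ) ≤ (m : ℝ) * (m : ℝ) ^ j := by positivity
      rw [pow_succ]
      nlinarith only [h9, hη'0, h10, hθη]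
    show (F (m - 1) t (j + 1) : ℝ) ≤ 2 * (F (m - 1 - s) t (j + 1) : ℝ)
    linarith only [h6, h7, h8]

end Pool.Agent.XE

end
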