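import Pool.Agent.H94.LP7.M46
import Pool.Agent.H94.LP7.M49
import Pool.Agent.H94.LP7.M70
import Pool.Agent.H94.LP7.M91
import Pool.Agent.H94.LP7.XE.Star2
import Pool.Agent.H94.LP7.XE2.Star3

/-! The parts of this file: XD.Kill, XE.Bd, XE.Step, XE2.Step2. -/

section

/-!
# XD, module K: beyond the layer

From the second part of `Pool.Agent.H21.HD.main` (`k = t`, `m s = d + 1 - e s`, `I = univ`), `fro_range`,
`gen_gdim`.  `fro r (fun s : Fin t => ..) univ j = fro r .. (range t) j`: `fro_map` or induction.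
-/

set_option autoImplicit false

namespace Pool.Agent.XD

open Finset Pool.Agent.H21.NX Pool.Agent.H21.HD Pool.Agent.H18.Fat

private theorem Kill_fro (e : ℕ → ℕ) (r t j : ℕ) :
    fro r (fun s : Fin t => e s) univ j = A e (r + 1) t j := by
  have h1 : (univ : Finset (Fin t)).map Fin.valEmbedding = range t := by
    ext x
    rw [mem_map, mem_range]
    constructor
    · rintro ⟨y, -, rfl⟩
      exact y.2
    · intro hx
      exact ⟨⟨x, hx⟩, mem_univ _, rfl⟩
  have h2 := fro_map r (Fin.valEmbedding : Fin t ↪ ℕ) e univ j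
  rw [h1, fro_range] at h2
  exact h2.symm

theorem kill (d : ℕ) (η : ℝ) (hη : 0 < η) : ∃ n₀ : ℕ, ∀ m, n₀ ≤ m → ∀ (e : ℕ → ℕ) (t : ℕ),
    (∀ s < t, 1 ≤ e s ∧ e s ≤ d) → (∃ j ≤ d, (A e m t j : ℝ) ≤ -(η * (m : ℝ) ^ j)) →
      FF e m t d = 0 := by
  obtain ⟨r₀, h⟩ := main d η hη
  refine ⟨r₀ + 1, fun m hm e t he hA => ?_⟩
  obtain ⟨r, rfl⟩ : ∃ r, m = r + 1 := ⟨m - 1, by omega⟩
  obtain ⟨j, hj, hA⟩ := hA
  have he' : (fun i : Fin t => d + 1 - (d + 1 - e i)) = fun i : Fin t => e i := by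
    funext i
    have := he i i.2
    omega
  have h1 := (h r (by omega) t (fun s => d + 1 - e s) fun i => by
    have := he i i.2
    omega).2 (Or.inr ⟨univ, fun i _ => by
      have := he i i.2
      omega, j, hj, by
      rw [he', Kill_fro]
      refine hA.trans (neg_le_neg (mul_le_mul_of_nonneg_left ?_ hη.le))
      have h2 : (j + r).choose r ≤ (r + 1) ^ j := by
        have h3 := multichoose_le_pow (r + 1) j
        rw [Nat.multichoose_eq] at h3
        have h4 : r + 1 + j - 1 = j + r := by omega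
        rw [h4] at h3
        have h5 : (j + r).choose r = (j + r).choose j := by
          rw [Nat.choose_symm_add]
        rw [h5]
        exact h3
      exact_mod_cast h2⟩)
  obtain ⟨p, hp⟩ := Gen.exists (r := r) (κ := Fin t) h1
  have h6 := gdim_le r d (fun s : Fin t => d + 1 - e s) p
  rw [hp.1] at h6
  exact Nat.le_zero.1 h6

end Pool.Agent.XD

end

section

/-!
# XE, module B: the boundary

`bd`: if some `A e m t j ≤ 0`, `j < d`: `layer`, second part, and `kill`.  Otherwise `layer (d - 1)`, first part, for `j < d - 1`,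
and `step (d - 1)` (if `A e m t (d - 1)` is small then `A e m t d ≤ - c' m^d`: `kill`).
`Sys_small`: if `F m t d ≠ 0` then every power removes at least one monomial (`Sys.stair`: `y_{m-1}^d ∈ N`).
`A_abs`: induction on `t`.
-/

set_option autoImplicit false

namespace Pool.Agent.XE

open Finset Pool.Agent.XD

theorem bd (d : ℕ) (hd : 2 ≤ d) : ∃ η : ℝ, 0 < η ∧ ∃ n₁ : ℕ, ∀ m, n₁ ≤ m → ∀ e : ℕ → ℕ,
    (∀ s, 2 ≤ e s) → ∀ t, (∀ s < t, e s ≤ d) →
      FF e m t d = 0 ∨ ∀ j < d, η * (m : ℝ) ^ j ≤ (A e m t j : ℝ) := by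
  obtain ⟨c, hc, n₁, hL⟩ := layer d
  obtain ⟨c₂, hc₂, n₂, hL₂⟩ := layer (d - 1)
  obtain ⟨c', hc', n₃, hst⟩ := step (d - 1) c₂ hc₂
  obtain ⟨n₄, hK⟩ := kill d (min c c') (lt_min hc hc')
  refine ⟨min c₂ c', lt_min hc₂ hc', n₁ + n₂ + n₃ + n₄, fun m hm e he t ht => ?_⟩
  have hpow : ∀ j : ℕ, 0 ≤ (m : ℝ) ^ j := fun j => by positivity
  have hes : ∀ s < t, 1 ≤ e s ∧ e s ≤ d := fun s hs => ⟨le_trans (by norm_num) (he s), ht s hs⟩
  by_cases h : ∃ j < d, A e m t j ≤ 0
  · left
    obtain ⟨j, hj, h'⟩ := (hL m (by omega) e he t).2 h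
    refine hK m (by omega) e t hes ⟨j, hj, h'.trans (neg_le_neg ?_)⟩
    exact mul_le_mul_of_nonneg_right (min_le_left _ _) (hpow j)
  · push Not at h
    have h1 := (hL₂ m (by omega) e he t).1 fun j hj => h j (by omega)
    by_cases h2 : (A e m t (d - 1) : ℝ) ≤ c' * (m : ℝ) ^ (d - 1)
    · left
      have h3 := hst m (by omega) e he t h1 h2
      rw [Nat.sub_add_cancel (by omega : 1 ≤ d)] at h3
      refine hK m (by omega) e t hes ⟨d, le_rfl, h3.trans (neg_le_neg ?_)⟩
      exact mul_le_mul_of_nonneg_right (min_le_right _ _) (hpow d)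
    · right
      intro j hj
      rcases Nat.lt_or_ge j (d - 1) with h3 | h3
      · exact (mul_le_mul_of_nonneg_right (min_le_left _ _) (hpow j)).trans (h1 j h3)
      · obtain rfl : j = d - 1 := by omega
        push Not at h2
        exact (mul_le_mul_of_nonneg_right (min_le_right _ _) (hpow _)).trans h2.le

/-- A nonempty stair contains the power of the last variable. -/
private theorem last_mem {m d : ℕ} {N : Finset (Multiset ℕ)} {f : ℕ → ℕ → ℕ} (hN : Stair m d N f)
    (hm : 1 ≤ m) {v : Multiset ℕ} (hv : v ∈ N) :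
    Multiset.replicate (Multiset.card v) (m - 1) ∈ N := by
  have key : ∀ k : ℕ, ∀ u : Multiset ℕ, u ∈ N → Multiset.card u = Multiset.card v →
      Multiset.card v ≤ u.count (m - 1) + k → Multiset.replicate (Multiset.card v) (m - 1) ∈ N := by
    intro k
    induction k with
    | zero =>
      intro u hu hc hk
      have h1 : Multiset.replicate (Multiset.card v) (m - 1) ≤ u :=
        Multiset.le_count_iff_replicate_le.1 (by omega)
      exact hN.div u hu _ h1
    | succ k ih =>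
      intro u hu hc hk
      by_cases h : ∀ x ∈ u, x = m - 1
      · have h1 : u = Multiset.replicate (Multiset.card v) (m - 1) :=
          Multiset.eq_replicate.2 ⟨hc, h⟩
        rw [← h1]
        exact hu
      · push Not at h
        obtain ⟨x, hx, hx1⟩ := h
        have hxm := hN.lt u hu x hx
        have h1 := hN.up u hu x hx (m - 1) (by omega) (by omega)
        refine ih _ h1 ?_ ?_
        · rw [Multiset.card_cons, Multiset.card_erase_of_mem hx, ← hc]
          have := Multiset.card_pos_iff_exists_mem.2 ⟨x, hx⟩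
          exact Nat.succ_pred_eq_of_pos this
        · rw [Multiset.count_cons_self, Multiset.count_erase_of_ne (Ne.symm hx1)]
          omega
  exact key (Multiset.card v) v hv rfl (by omega)

theorem Sys_small {d : ℕ} {e : ℕ → ℕ} {F : ℕ → ℕ → ℕ → ℕ} (hF : Sys d e F) (_he : ∀ s, 2 ≤ e s)
    (m : ℕ) (hm : 1 ≤ m) (t : ℕ) (ht : ∀ s < t, e s ≤ d) : F m t d = 0 ∨ F m t d + t ≤ m ^ d := by
  induction t with
  | zero =>
    right
    rw [hF.zero m d le_rfl, Nat.add_zero]
    exact multichoose_le_pow m d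
  | succ t ih =>
    obtain ⟨N, hN, hF'⟩ := hF.stair m t hm
    have h1 : (lay N m d).card = F m t d := hN.cnt m le_rfl d le_rfl
    have h2 := hF' d le_rfl
    rcases Nat.eq_zero_or_pos (F m (t + 1) d) with h0 | h0
    · exact Or.inl h0
    right
    have h3 : F m (t + 1) d ≤ F m t d := by
      rw [h2, ← h1]
      exact card_filter_le _ _
    obtain ⟨v, hv⟩ := card_pos.1 (by rw [h1]; omega : 0 < (lay N m d).card)
    have hv' := mem_lay.1 hv
    have h4 := last_mem hN hm hv'.1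
    rw [hv'.2.1] at h4
    have h5 : F m (t + 1) d < F m t d := by
      rw [h2, ← h1]
      refine card_lt_card ?_
      refine filter_ssubset.2 ⟨Multiset.replicate d (m - 1), ?_, ?_⟩
      · rw [mem_lay]
        refine ⟨h4, Multiset.card_replicate _ _, fun x hx => ?_⟩
        have := Multiset.eq_of_mem_replicate hx
        omega
      · rw [Multiset.count_replicate_self]
        have := ht t (by omega)
        omega
    rcases ih fun s hs => ht s (by omega) with h6 | h6
    · omega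
    · omega

theorem A_abs {e : ℕ → ℕ} (he : ∀ s, 2 ≤ e s) (m t j : ℕ) : |A e m t j| ≤ ((m : ℤ) + t) ^ j := by
  induction t generalizing j with
  | zero =>
    rw [A_zero, abs_of_nonneg (Int.natCast_nonneg _)]
    push_cast
    rw [add_zero]
    exact_mod_cast multichoose_le_pow m j
  | succ t ih =>
    rw [A_succ]
    set x : ℤ := (m : ℤ) + t with hx
    have hx0 : 0 ≤ x := by positivity
    have hx1 : ((m : ℤ) + ((t + 1 : ℕ) : ℤ)) = x + 1 := by
      rw [hx]
      push_cast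
      ring
    rw [hx1]
    have h1 := ih j
    split_ifs with h
    · have h2 := ih (j - e t)
      have h3 := he t
      have h4 : x ^ j + x ^ (j - e t) ≤ (x + 1) ^ j := by
        obtain ⟨i, hi⟩ : ∃ i, j = i + 1 := ⟨j - 1, by omega⟩
        have h5 : x ^ (j - e t) ≤ (x + 1) ^ i := by
          calc x ^ (j - e t) ≤ (x + 1) ^ (j - e t) := pow_le_pow_left₀ hx0 (by linarith) _
            _ ≤ (x + 1) ^ i := pow_le_pow_right₀ (by linarith) (by omega)
        have h6 : x ^ j ≤ x * (x + 1) ^ i := by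
          rw [hi, pow_succ, mul_comm]
          exact mul_le_mul_of_nonneg_left (pow_le_pow_left₀ hx0 (by linarith) _) hx0
        calc x ^ j + x ^ (j - e t) ≤ x * (x + 1) ^ i + (x + 1) ^ i := add_le_add h6 h5
          _ = (x + 1) ^ j := by rw [hi]; ring
      calc |A e m t j - A e m t (j - e t)| ≤ |A e m t j| + |A e m t (j - e t)| := abs_sub _ _
        _ ≤ x ^ j + x ^ (j - e t) := add_le_add h1 h2
        _ ≤ (x + 1) ^ j := h4
    · rw [sub_zero]
      exact h1.trans (pow_le_pow_left₀ hx0 (by linarith) _)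

end Pool.Agent.XE

end

section

/-!
# XE, module M: the transport

`main_bound`: `n₁ ≥` the thresholds of `bd`, `star2 (η of bd)` and `A e m t (d - e) ≤ m^(d-2) ≤ η m^(d-1) / 2` for `m ≥ n₁`;
`lam = κ / 2`, `c = n^(d-1) / lam`.  Induction on `t`, for all `n₁ ≤ m ≤ n`.  `t = 0`: `FF = A ≤ BB`.  `m > n₁`: `bd` at
`(m, t + 1)`; if not `FF = 0` then the numbers at `(m, t)` are larger (`A_anti_t`), `star2`, `soft_step`.
`m = n₁`: `FF ≤ n₁^d ≤ c / 4 ≤ BB c x` if `x ≥ -c` (`n` large), and if `A e n₁ t d < -c` then `(n₁ + t)^d > c`, so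
`t > n₁^d` and `FF = 0` (`Sys_small`).
`xe`: `main_bound` at `m = n`, `BB_lt_add_one`, `BB_lt_one`, `xd_lower`, `bd`, `layer`, `kill`.
-/

set_option autoImplicit false

namespace Pool.Agent.XE

open Finset Pool.Agent.XD

/-- The bound for a fixed number of variables. -/
private theorem base_bound {d n₁ : ℕ} (hn₁ : 1 ≤ n₁) {c : ℝ} (h1 : 4 * (n₁ : ℝ) ^ d ≤ c)
    (h2 : ((n₁ : ℝ) + (n₁ : ℝ) ^ d) ^ d ≤ c) (e : ℕ → ℕ) (he : ∀ s, 2 ≤ e s) (t : ℕ)
    (ht : ∀ s < t, e s ≤ d) : (FF e n₁ t d : ℝ) ≤ BB c (A e n₁ t d : ℝ) := by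
  have hF : Sys d e (FF e) := sys_FF d e fun s => le_trans (by norm_num) (he s)
  have hn : (1 : ℝ) ≤ n₁ := by exact_mod_cast hn₁
  have hc : 0 < c := by
    refine lt_of_lt_of_le ?_ h1
    positivity
  rcases Sys_small hF he n₁ hn₁ t ht with h | h
  · rw [h]
    simpa using BB_nonneg hc _
  · have h3 : (FF e n₁ t d : ℝ) + t ≤ (n₁ : ℝ) ^ d := by exact_mod_cast h
    have h4 : (0 : ℝ) ≤ t := Nat.cast_nonneg t
    have h5 : (0 : ℝ) ≤ FF e n₁ t d := Nat.cast_nonneg _
    have h6 : |(A e n₁ t d : ℝ)| ≤ ((n₁ : ℝ) + t) ^ d := by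
      have := A_abs he n₁ t d
      exact_mod_cast this
    have h7 : ((n₁ : ℝ) + t) ^ d ≤ ((n₁ : ℝ) + (n₁ : ℝ) ^ d) ^ d :=
      pow_le_pow_left₀ (by positivity) (by linarith) _
    have h8 : -c ≤ (A e n₁ t d : ℝ) := by
      have := (abs_le.1 (h6.trans (h7.trans h2))).1
      exact this
    have h9 := quarter_le_BB hc h8
    linarith

theorem main_bound (d : ℕ) (hd : 2 ≤ d) : ∃ lam : ℝ, 0 < lam ∧ ∃ n₁ n₀ : ℕ, n₁ ≤ n₀ ∧
    ∀ n, n₀ ≤ n → ∀ e : ℕ → ℕ, (∀ s, 2 ≤ e s) → ∀ t, (∀ s < t, e s ≤ d) → ∀ m, n₁ ≤ m → m ≤ n →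
      (FF e m t d : ℝ) ≤ BB ((n : ℝ) ^ (d - 1) / lam) (A e m t d : ℝ) := by
  obtain ⟨η, hη, a₁, hbd⟩ := bd d hd
  obtain ⟨κ, hκ, hκ1, a₂, hst⟩ := star2 d hd η hη
  obtain ⟨a₃, ha₃⟩ := exists_nat_ge (2 / η)
  set n₁ : ℕ := a₁ + a₂ + a₃ + 1 with hn₁
  obtain ⟨n₂, hn₂⟩ : ∃ n₂ : ℕ, 4 * (n₁ : ℝ) ^ d ≤ n₂ ∧ ((n₁ : ℝ) + (n₁ : ℝ) ^ d) ^ d ≤ n₂ := by
    refine ⟨4 * n₁ ^ d + (n₁ + n₁ ^ d) ^ d, ?_, ?_⟩
    · push_cast
      have : (0 : ℝ) ≤ ((n₁ : ℝ) + (n₁ : ℝ) ^ d) ^ d := by positivity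
      linarith
    · push_cast
      have : (0 : ℝ) ≤ 4 * (n₁ : ℝ) ^ d := by positivity
      linarith
  refine ⟨κ / 2, by positivity, n₁, n₁ + n₂, by omega, fun n hn e he => ?_⟩
  have hn1 : 1 ≤ n := by omega
  have hnR : (1 : ℝ) ≤ n := by exact_mod_cast hn1
  set c : ℝ := (n : ℝ) ^ (d - 1) / (κ / 2) with hc
  have hc0 : 0 < c := by positivity
  have hcn : (n : ℝ) ^ (d - 1) = κ / 2 * c := by
    rw [hc]
    field_simp
  have hnc : (n : ℝ) ≤ c := by
    have h1 : (n : ℝ) ≤ (n : ℝ) ^ (d - 1) := by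
      calc (n : ℝ) = (n : ℝ) ^ 1 := (pow_one _).symm
        _ ≤ (n : ℝ) ^ (d - 1) := pow_le_pow_right₀ hnR (by omega)
    rw [hcn] at h1
    have h2 : κ / 2 * c ≤ 1 * c := mul_le_mul_of_nonneg_right (by linarith) hc0.le
    linarith
  have hn₂c : (n₂ : ℝ) ≤ c := by
    have h1 : (n₂ : ℝ) ≤ n := by
      have : n₂ ≤ n := by omega
      exact_mod_cast this
    linarith
  have he1 : ∀ s, 1 ≤ e s := fun s => le_trans (by norm_num) (he s)
  have hF : Sys d e (FF e) := sys_FF d e he1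
  intro t
  induction t with
  | zero =>
    intro _ m _ _
    rw [hF.zero m d le_rfl, A_zero]
    simpa using le_BB hc0 ((Nat.multichoose m d : ℤ) : ℝ)
  | succ t ih =>
    intro ht m hm hmn
    rcases Nat.eq_or_lt_of_le hm with h0 | h0
    · rw [← h0]
      exact base_bound (by omega) (hn₂.1.trans hn₂c) (hn₂.2.trans hn₂c) e he (t + 1) ht
    have ih' := ih fun s hs => ht s (by omega)
    rcases hbd m (by omega) e he (t + 1) ht with h | h
    · rw [h]
      simpa using BB_nonneg hc0 _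
    have hm1 : 1 ≤ m := by omega
    have hmR : (1 : ℝ) ≤ m := by exact_mod_cast hm1
    have hpos : ∀ j < d, 0 ≤ A e m (t + 1) j := by
      intro j hj
      have h1 : (0 : ℝ) ≤ η * (m : ℝ) ^ j := by positivity
      exact_mod_cast h1.trans (h j hj)
    have hanti : ∀ j < d, A e m (t + 1) j ≤ A e m t j := fun j hj =>
      A_anti_t he1 hpos (Nat.le_succ t) hj.le
    have hreg : ∀ j < d, η * (m : ℝ) ^ j ≤ (A e m t j : ℝ) := by
      intro j hj
      refine (h j hj).trans ?_
      exact_mod_cast hanti j hj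
    have hpos' : ∀ j < d, 0 ≤ A e m t j := fun j hj => (hpos j hj).trans (hanti j hj)
    have hle : ∀ j < d, (A e m t j : ℝ) ≤ (m : ℝ) ^ j := by
      intro j hj
      exact_mod_cast A_le_pow he1 hpos' hj.le
    have het : e t ≤ d := ht t (by omega)
    have het2 := he t
    obtain ⟨u, u₁, hu, hu1, hH', hH₁, hF'⟩ := hst m (by omega) e (FF e) he hF t hreg het
    have hA1 : (A e m (t + 1) d : ℝ) = (A e m t d : ℝ) - (A e m t (d - e t) : ℝ) := by
      rw [A_succ, if_pos het]
      push_cast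
      ring
    have hA2 : (A e (m - 1) t d : ℝ) = (A e m t d : ℝ) - (A e m t (d - 1) : ℝ) := by
      have h1 := A_pascal he1 (m - 1) t (d - 1)
      rw [Nat.sub_add_cancel hm1, Nat.sub_add_cancel (by omega : 1 ≤ d)] at h1
      have h2 : (A e m t d : ℝ) = (A e (m - 1) t d : ℝ) + (A e m t (d - 1) : ℝ) := by
        exact_mod_cast h1
      linarith
    rw [hA1]
    have hα : (A e m t (d - e t) : ℝ) ≤ (A e m t (d - 1) : ℝ) / 2 := by
      have h1 := hle (d - e t) (by omega)
      have h2 : (m : ℝ) ^ (d - e t) ≤ (m : ℝ) ^ (d - 2) := pow_le_pow_right₀ hmR (by omega)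
      have h3 := hreg (d - 1) (by omega)
      have h4 : 2 ≤ η * m := by
        rw [div_le_iff₀ hη] at ha₃
        have h5 : (a₃ : ℝ) ≤ m := by
          have : a₃ ≤ m := by omega
          exact_mod_cast this
        nlinarith
      have h5 : (m : ℝ) ^ (d - 1) = (m : ℝ) ^ (d - 2) * m := by
        rw [← pow_succ]
        congr 1
        omega
      have h6 : 0 < (m : ℝ) ^ (d - 2) := by positivity
      rw [h5] at h3
      have h7 : 2 * (m : ℝ) ^ (d - 2) ≤ η * m * (m : ℝ) ^ (d - 2) :=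
        mul_le_mul_of_nonneg_right h4 h6.le
      linarith
    have hα₁ : (A e m t (d - 1) : ℝ) ≤ κ / 2 * c := by
      rw [← hcn]
      refine (hle (d - 1) (by omega)).trans (pow_le_pow_left₀ (by positivity) ?_ _)
      exact_mod_cast hmn
    have hα0 : (0 : ℝ) ≤ (A e m t (d - e t) : ℝ) := by exact_mod_cast hpos' (d - e t) (by omega)
    have hIH := ih' m hm hmn
    have hIH₁ := ih' (m - 1) (by omega) (by omega)
    rw [hA2] at hIH₁
    exact soft_step hc0 hκ hκ1 hα0 hα hα₁ hIH hIH₁ hu hu1 hH' hH₁ hF'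

private theorem xe_two (d : ℕ) (hd : 2 ≤ d) : ∃ C : ℝ, 0 < C ∧ ∃ n₀ : ℕ, ∀ m, n₀ ≤ m →
    ∀ e : ℕ → ℕ, (∀ s, 2 ≤ e s) → ∀ t, (∀ s < t, e s ≤ d) →
      ((∀ j < d, 0 < A e m t j) → C * (m : ℝ) ^ (d - 1) * Real.log m ≤ (A e m t d : ℝ) →
        (FF e m t d : ℤ) = A e m t d) ∧
      ((∃ j < d, A e m t j ≤ 0) ∨ (A e m t d : ℝ) ≤ -(C * (m : ℝ) ^ (d - 1) * Real.log m) →
        FF e m t d = 0) := by
  obtain ⟨lam, hlam, n₁, n₀, hn, hM⟩ := main_bound d hd
  obtain ⟨η, hη, a₁, hbd⟩ := bd d hd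
  obtain ⟨c, hc, a₂, hL⟩ := layer d
  obtain ⟨a₃, hlow⟩ := xd_lower d c hc
  obtain ⟨a₄, ha₄⟩ := exists_nat_ge (1 / lam)
  refine ⟨((d : ℝ) + 1) / lam, by positivity, n₀ + a₁ + a₂ + a₃ + a₄ + 2, fun m hm e he t ht => ?_⟩
  have he1 : ∀ s, 1 ≤ e s := fun s => le_trans (by norm_num) (he s)
  have hF : Sys d e (FF e) := sys_FF d e he1
  have hm2 : (2 : ℝ) ≤ m := by
    have : 2 ≤ m := by omega
    exact_mod_cast this
  have hm0 : (0 : ℝ) < m := by linarith
  have hlog : 0 < Real.log m := Real.log_pos (by linarith)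
  set g : ℝ := (m : ℝ) ^ (d - 1) / lam with hg
  have hg0 : 0 < g := by positivity
  have hb := hM m (by omega) e he t ht m (by omega) le_rfl
  rw [← hg] at hb
  have hgl : g * Real.log g < ((d : ℝ) + 1) / lam * (m : ℝ) ^ (d - 1) * Real.log m := by
    have h1 : Real.log g ≤ d * Real.log m := by
      rw [hg, Real.log_div (by positivity) hlam.ne', Real.log_pow]
      have h2 : -Real.log lam ≤ Real.log m := by
        rw [← Real.log_inv]
        refine Real.log_le_log (by positivity) ?_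
        rw [← one_div]
        refine ha₄.trans ?_
        have : a₄ ≤ m := by omega
        exact_mod_cast this
      have h3 : ((d - 1 : ℕ) : ℝ) = (d : ℝ) - 1 := by
        rw [Nat.cast_sub (by omega)]
        simp
      rw [h3]
      linarith
    have h2 : ((d : ℝ) + 1) / lam * (m : ℝ) ^ (d - 1) * Real.log m =
        g * ((d + 1) * Real.log m) := by
      rw [hg]
      ring
    rw [h2]
    refine mul_lt_mul_of_pos_left ?_ hg0
    linarith
  have hK : 0 < ((d : ℝ) + 1) / lam * (m : ℝ) ^ (d - 1) * Real.log m := by positivity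
  refine ⟨fun h h' => ?_, fun h => ?_⟩
  · have h1 : ∀ j ≤ d, 0 < A e m t j := by
      intro j hj
      rcases lt_or_eq_of_le hj with hj | rfl
      · exact h j hj
      · have h2 : (0 : ℝ) < (A e m t j : ℝ) := lt_of_lt_of_le hK h'
        exact_mod_cast h2
    have h2 := (hL m (by omega) e he t).1 h1
    have h3 := hlow m (by omega) e (FF e) he hF m t le_rfl h2
    have h4 := BB_lt_add_one hg0 (lt_of_lt_of_le hgl h')
    have h5 : ((FF e m t d : ℤ) : ℝ) < ((A e m t d + 1 : ℤ) : ℝ) := by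
      push_cast
      linarith
    have h6 : (FF e m t d : ℤ) < A e m t d + 1 := by exact_mod_cast h5
    omega
  · rcases h with h | h
    · rcases hbd m (by omega) e he t ht with h1 | h1
      · exact h1
      · exfalso
        obtain ⟨j, hj, h2⟩ := h
        have h3 := h1 j hj
        have h4 : (0 : ℝ) < η * (m : ℝ) ^ j := by positivity
        have h5 : (0 : ℝ) < (A e m t j : ℝ) := lt_of_lt_of_le h4 h3
        have h6 : 0 < A e m t j := by exact_mod_cast h5
        omega
    · have h4 := BB_lt_one hg0 (lt_of_le_of_lt h (neg_lt_neg hgl))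
      have h5 : (FF e m t d : ℝ) < 1 := lt_of_le_of_lt hb h4
      have h6 : FF e m t d < 1 := by exact_mod_cast h5
      omega

theorem xe (d : ℕ) : ∃ C : ℝ, 0 < C ∧ ∃ n₀ : ℕ, ∀ m, n₀ ≤ m → ∀ e : ℕ → ℕ, (∀ s, 2 ≤ e s) →
    ∀ t, (∀ s < t, e s ≤ d) →
      ((∀ j < d, 0 < A e m t j) → C * (m : ℝ) ^ (d - 1) * Real.log m ≤ (A e m t d : ℝ) →
        (FF e m t d : ℤ) = A e m t d) ∧
      ((∃ j < d, A e m t j ≤ 0) ∨ (A e m t d : ℝ) ≤ -(C * (m : ℝ) ^ (d - 1) * Real.log m) →
        FF e m t d = 0) := by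
  rcases Nat.lt_or_ge d 2 with hd | hd
  · refine ⟨1, one_pos, 1, fun m hm e he t ht => ?_⟩
    have ht0 : t = 0 := by
      by_contra h
      have h1 := ht 0 (by omega)
      have h2 := he 0
      omega
    subst ht0
    have hF : Sys d e (FF e) := sys_FF d e fun s => le_trans (by norm_num) (he s)
    have hmR : (1 : ℝ) ≤ m := by exact_mod_cast hm
    have hm0 : (0 : ℝ) < m := by linarith
    have hlog : 0 ≤ Real.log m := Real.log_nonneg hmR
    have hK : 0 ≤ 1 * (m : ℝ) ^ (d - 1) * Real.log m := by positivity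
    have hA : 0 < A e m 0 d := by
      rw [A_zero]
      interval_cases d
      · simp
      · simp
        omega
    refine ⟨fun _ _ => ?_, fun h => ?_⟩
    · rw [hF.zero m d le_rfl, A_zero]
    · exfalso
      rcases h with ⟨j, hj, h⟩ | h
      · have hj0 : j = 0 := by omega
        subst hj0
        rw [A_zero, Nat.multichoose_zero_right] at h
        norm_num at h
      · have h1 : (0 : ℝ) < (A e m 0 d : ℝ) := by exact_mod_cast hA
        linarith
  · exact xe_two d hd

end Pool.Agent.XE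

end

section

/-!
# XE2: the transport on the negative side

`main_left`: for `n₁ ≤ m ≤ n`, `g = n^(d-1)`, if `A e m t d ≤ -(Z - 1) g` then `FF e m t d ≤ LB g K Z (d - 1) (A e m t d)`.  The
constants: `K = 1 / (2 c (8 D)^D)`, `D = d - 1`, `c` of `star3`; `exp (-lam (Z - 1)) ≤ lam K / 2^D`, `lam` of `main_bound`.
Induction on `t`: if `A e m t d > -(Z - 1) g` then `main_bound` at `(m, t + 1)`, and `LB` is `≥ g K / 2^D`; otherwise
`left_step`.  `m = n₁`: the number of the conditions is large, `FF = 0` (`Sys_small`).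
`xe2`: `m = n`; `d = 2`: simple points.
-/

set_option autoImplicit false

namespace Pool.Agent.XE2

open Finset Pool.Agent.XD Pool.Agent.XE

private theorem BB_le_exp {c : ℝ} (hc : 0 < c) (x : ℝ) : BB c x ≤ c * Real.exp (x / c) := by
  unfold BB
  refine mul_le_mul_of_nonneg_left ?_ hc.le
  have h := Real.log_le_sub_one_of_pos (x := 1 + Real.exp (x / c)) (by positivity)
  linarith only [h]

theorem main_left (d : ℕ) (hd : 3 ≤ d) : ∃ K Z : ℝ, 0 < K ∧ 1 < Z ∧ ∃ n₁ n₀ : ℕ, n₁ ≤ n₀ ∧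
    ∀ n, n₀ ≤ n → ∀ e : ℕ → ℕ, (∀ s, 2 ≤ e s) → ∀ t, (∀ s < t, e s ≤ d) → ∀ m, n₁ ≤ m → m ≤ n →
      (A e m t d : ℝ) ≤ -((Z - 1) * (n : ℝ) ^ (d - 1)) →
      (FF e m t d : ℝ) ≤ LB ((n : ℝ) ^ (d - 1)) K Z (d - 1) (A e m t d : ℝ) := by
  obtain ⟨lam, hlam, a₀, b₀, hab, hM⟩ := main_bound d (by omega)
  obtain ⟨η, hη, a₁, hbd⟩ := bd d (by omega)
  obtain ⟨c, hc1, a₂, hst⟩ := star3 d hd η hη
  have hc0 : 0 < c := by linarith only [hc1]
  obtain ⟨D, hD⟩ : ∃ D, D = d - 1 := ⟨_, rfl⟩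
  rw [← hD]
  have hD2 : 2 ≤ D := by omega
  have hDr : (2 : ℝ) ≤ D := by exact_mod_cast hD2
  obtain ⟨a₃, ha₃⟩ := exists_nat_ge (2 * D / η)
  -- `K`
  obtain ⟨K, hK⟩ : ∃ K : ℝ, K = 1 / (2 * c * (2 * D) ^ D * 4 ^ D) := ⟨_, rfl⟩
  have hK0 : 0 < K := by
    rw [hK]
    positivity
  have hK1 : c * K * (D : ℝ) ^ D * 4 ^ (D - 1) ≤ 1 := by
    have h1 : (4 : ℝ) ^ (D - 1) ≤ 4 ^ D := pow_le_pow_right₀ (by norm_num) (by omega)
    have h2 : (D : ℝ) ^ D ≤ (2 * D) ^ D := pow_le_pow_left₀ (by positivity) (by linarith only [hDr]) _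
    calc c * K * (D : ℝ) ^ D * 4 ^ (D - 1) ≤ c * K * (2 * D) ^ D * 4 ^ D := by gcongr
      _ = 1 / 2 := by
          rw [hK]
          field_simp
      _ ≤ 1 := by norm_num
  have hK2 : K * (2 * D) ^ D < 1 := by
    have h1 : (1 : ℝ) ≤ 4 ^ D := one_le_pow₀ (by norm_num)
    have h2 : K * (2 * D) ^ D = 1 / (2 * c * 4 ^ D) := by
      rw [hK]
      field_simp
    rw [h2, div_lt_one (by positivity)]
    nlinarith only [hc1, h1]
  -- `Z`
  obtain ⟨w, hw⟩ : ∃ w : ℝ, w = lam * (K * (1 / 2) ^ D) := ⟨_, rfl⟩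
  have hw0 : 0 < w := by
    rw [hw]
    positivity
  obtain ⟨y, hy1, hy2⟩ : ∃ y : ℝ, 1 ≤ y ∧ Real.exp (-(lam * y)) ≤ w := by
    refine ⟨max 1 (-Real.log w / lam), le_max_left _ _, ?_⟩
    calc Real.exp (-(lam * max 1 (-Real.log w / lam))) ≤ Real.exp (Real.log w) := by
          rw [Real.exp_le_exp]
          have h1 : lam * (-Real.log w / lam) ≤ lam * max 1 (-Real.log w / lam) :=
            mul_le_mul_of_nonneg_left (le_max_right _ _) hlam.le
          rw [mul_div_cancel₀ _ hlam.ne'] at h1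
          linarith only [h1]
      _ = w := Real.exp_log hw0
  obtain ⟨n₁, hn₁⟩ : ∃ n₁ : ℕ, n₁ = a₀ + a₁ + a₂ + a₃ + 1 := ⟨_, rfl⟩
  obtain ⟨n₂, hn₂⟩ : ∃ n₂ : ℕ, ((n₁ : ℝ) + (n₁ : ℝ) ^ d) ^ d < n₂ := exists_nat_gt _
  refine ⟨K, y + 1, hK0, by linarith only [hy1], n₁, n₁ + b₀ + n₂ + 2, by omega, fun n hn e he => ?_⟩
  rw [show y + 1 - 1 = y by ring]
  have hn2 : 2 ≤ n := by omega
  have hnR : (2 : ℝ) ≤ n := by exact_mod_cast hn2
  have hn0 : (0 : ℝ) < n := by linarith only [hnR]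
  obtain ⟨g, hg⟩ : ∃ g : ℝ, g = (n : ℝ) ^ D := ⟨_, rfl⟩
  have hg0 : 0 < g := by
    rw [hg]
    positivity
  have hgn : (n : ℝ) ≤ g := by
    rw [hg]
    calc (n : ℝ) = (n : ℝ) ^ 1 := (pow_one _).symm
      _ ≤ (n : ℝ) ^ D := pow_le_pow_right₀ (by linarith only [hnR]) (by omega)
  rw [← hg]
  have he1 : ∀ s, 1 ≤ e s := fun s => le_trans (by norm_num) (he s)
  have hF : Sys d e (FF e) := sys_FF d e he1
  have hyg : 0 < y * g := by positivity
  have hgd : g = (n : ℝ) ^ (d - 2) * n := by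
    rw [hg, ← pow_succ]
    congr 1
    omega
  intro t
  induction t with
  | zero =>
    intro _ m _ _ hA
    exfalso
    rw [A_zero] at hA
    have h1 : (0 : ℝ) ≤ (((Nat.multichoose m d : ℕ) : ℤ) : ℝ) := by positivity
    linarith only [hyg, hA, h1]
  | succ t ih =>
    intro ht m hm hmn hA
    have ih' := ih fun s hs => ht s (by omega)
    rcases Nat.eq_or_lt_of_le hm with h0 | h0
    · -- `m = n₁`
      subst h0
      rcases Sys_small hF he n₁ (by omega) (t + 1) ht with h | h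
      · rw [h]
        simpa using LB_nonneg hg0 hK0 _ _ _
      · exfalso
        have h3 : (((t + 1 : ℕ) : ℝ)) ≤ (n₁ : ℝ) ^ d := by
          have : t + 1 ≤ n₁ ^ d := by omega
          exact_mod_cast this
        have h6 : |(A e n₁ (t + 1) d : ℝ)| ≤ ((n₁ : ℝ) + ((t + 1 : ℕ) : ℝ)) ^ d := by
          have := A_abs he n₁ (t + 1) d
          exact_mod_cast this
        have h7 : ((n₁ : ℝ) + ((t + 1 : ℕ) : ℝ)) ^ d ≤ ((n₁ : ℝ) + (n₁ : ℝ) ^ d) ^ d :=
          pow_le_pow_left₀ (by positivity) (by linarith only [h3]) _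
        have h8 := (abs_le.1 (h6.trans h7)).1
        have h9 : (n₂ : ℝ) ≤ n := by
          have : n₂ ≤ n := by omega
          exact_mod_cast this
        have h10 : g ≤ y * g := by nlinarith only [hn₂, hgn, hA, h8, h9, hy1, hg0]
        linarith only [hn₂, hgn, hA, h8, h9, h10]
    rcases hbd m (by omega) e he (t + 1) ht with h | h
    · rw [h]
      simpa using LB_nonneg hg0 hK0 _ _ _
    have hm1 : 1 ≤ m := by omega
    have hmR : (1 : ℝ) ≤ m := by exact_mod_cast hm1
    have hmnR : (m : ℝ) ≤ n := by exact_mod_cast hmn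
    have hpos : ∀ j < d, 0 ≤ A e m (t + 1) j := by
      intro j hj
      have h1 : (0 : ℝ) ≤ η * (m : ℝ) ^ j := by positivity
      exact_mod_cast h1.trans (h j hj)
    have hanti : ∀ j < d, A e m (t + 1) j ≤ A e m t j := fun j hj =>
      A_anti_t he1 hpos (Nat.le_succ t) hj.le
    have hreg : ∀ j < d, η * (m : ℝ) ^ j ≤ (A e m t j : ℝ) := by
      intro j hj
      refine (h j hj).trans ?_
      exact_mod_cast hanti j hj
    have hpos' : ∀ j < d, 0 ≤ A e m t j := fun j hj => (hpos j hj).trans (hanti j hj)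
    have hle : ∀ j < d, (A e m t j : ℝ) ≤ (m : ℝ) ^ j := by
      intro j hj
      exact_mod_cast A_le_pow he1 hpos' hj.le
    have het : e t ≤ d := ht t (by omega)
    have het2 := he t
    obtain ⟨u, u₁, hu, hu₁, hH', hH₁, hF'⟩ := hst m (by omega) e (FF e) he hF t hreg het
    have hA1 : (A e m (t + 1) d : ℝ) = (A e m t d : ℝ) - (A e m t (d - e t) : ℝ) := by
      rw [A_succ, if_pos het]
      push_cast
      ring
    have hA2 : (A e (m - 1) t d : ℝ) = (A e m t d : ℝ) - (A e m t (d - 1) : ℝ) := by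
      have h1 := A_pascal he1 (m - 1) t (d - 1)
      rw [Nat.sub_add_cancel hm1, Nat.sub_add_cancel (by omega : 1 ≤ d)] at h1
      have h2 : (A e m t d : ℝ) = (A e (m - 1) t d : ℝ) + (A e m t (d - 1) : ℝ) := by
        exact_mod_cast h1
      linarith only [h2]
    have hα0 : (0 : ℝ) ≤ (A e m t (d - e t) : ℝ) := by exact_mod_cast hpos' (d - e t) (by omega)
    have hαm : (A e m t (d - e t) : ℝ) ≤ (m : ℝ) ^ (d - 2) :=
      (hle (d - e t) (by omega)).trans (pow_le_pow_right₀ hmR (by omega))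
    have hαn : (A e m t (d - e t) : ℝ) ≤ (n : ℝ) ^ (d - 2) :=
      hαm.trans (pow_le_pow_left₀ (by positivity) hmnR _)
    have hαg : (A e m t (d - e t) : ℝ) / g ≤ 1 / n := by
      rw [div_le_div_iff₀ hg0 hn0, one_mul, hgd]
      exact mul_le_mul_of_nonneg_right hαn hn0.le
    have hα₁ : (A e m t (d - 1) : ℝ) ≤ g := by
      rw [hg, hD]
      exact (hle (d - 1) (by omega)).trans (pow_le_pow_left₀ (by positivity) hmnR _)
    have hα₁0 : 0 < (A e m t (d - 1) : ℝ) := by
      refine lt_of_lt_of_le ?_ (hreg (d - 1) (by omega))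
      positivity
    rcases le_or_gt (A e m t d : ℝ) (-(y * g)) with hcase | hcase
    · -- the step
      rw [hA1]
      have hαα : 2 * D * (A e m t (d - e t) : ℝ) ≤ (A e m t (d - 1) : ℝ) := by
        have h3 := hreg (d - 1) (by omega)
        have h4 : 2 * D ≤ η * m := by
          rw [div_le_iff₀ hη] at ha₃
          have h5 : (a₃ : ℝ) ≤ m := by
            have : a₃ ≤ m := by omega
            exact_mod_cast this
          nlinarith only [ha₃, hη, h5]
        have h5 : (m : ℝ) ^ (d - 1) = (m : ℝ) ^ (d - 2) * m := by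
          rw [← pow_succ]
          congr 1
          omega
        rw [h5] at h3
        calc 2 * D * (A e m t (d - e t) : ℝ) ≤ 2 * D * (m : ℝ) ^ (d - 2) :=
              mul_le_mul_of_nonneg_left hαm (by positivity)
          _ ≤ η * m * (m : ℝ) ^ (d - 2) := mul_le_mul_of_nonneg_right h4 (by positivity)
          _ = η * ((m : ℝ) ^ (d - 2) * m) := by ring
          _ ≤ _ := h3
      have hsm : g * K * (2 * D * (A e m t (d - e t) : ℝ) / g) ^ D < 1 := by
        have h1 : 2 * D * (A e m t (d - e t) : ℝ) / g ≤ 2 * D * (1 / n) := by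
          rw [mul_div_assoc]
          exact mul_le_mul_of_nonneg_left hαg (by positivity)
        have h2 : g * K * (2 * D * (A e m t (d - e t) : ℝ) / g) ^ D ≤
            g * K * (2 * D * (1 / n)) ^ D := by
          refine mul_le_mul_of_nonneg_left (pow_le_pow_left₀ ?_ h1 _) (by positivity)
          positivity
        have h3 : g * K * (2 * D * (1 / n)) ^ D = K * (2 * D) ^ D := by
          rw [hg, mul_pow, one_div, inv_pow]
          field_simp
        linarith only [hK2, h2, h3]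
      have hIH := ih' m hm hmn hcase
      have hIH₁ := ih' (m - 1) (by omega) (by omega) (by rw [hA2]; linarith only [hα₁0, hcase])
      rw [hA2] at hIH₁
      have hz : (A e m t d : ℝ) / g + (y + 1) ≤ 1 := by
        have h1 : (A e m t d : ℝ) / g ≤ -y := by
          rw [div_le_iff₀ hg0]
          linarith only [hcase]
        linarith only [h1]
      refine left_step hD2 hg0 hK0 hc0 hK1 hz hα0 hαα hα₁ hα₁0 hsm ?_ hIH hIH₁ hu hu₁ hH' hH₁ ?_
      · intro h1
        have h2 : FF e m t d < 1 := by exact_mod_cast h1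
        have h3 : FF e m t d = 0 := by omega
        rw [h3]
        simp
      · rw [show D - 1 = d - 2 by omega, hD]
        exact hF'
    · -- the first small number
      have h1 := hM n (by omega) e he (t + 1) ht m (by omega) hmn
      rw [← hD, ← hg] at h1
      have h2 : (FF e m (t + 1) d : ℝ) ≤ g * (K * (1 / 2) ^ D) := by
        refine h1.trans ((BB_le_exp (by positivity) _).trans ?_)
        have h3 : (A e m (t + 1) d : ℝ) / (g / lam) ≤ -(lam * y) := by
          rw [div_le_iff₀ (by positivity)]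
          have h4 : -(lam * y) * (g / lam) = -(y * g) := by
            field_simp
          rw [h4]
          exact hA
        have h4 : Real.exp ((A e m (t + 1) d : ℝ) / (g / lam)) ≤ w :=
          (Real.exp_le_exp.2 h3).trans hy2
        calc g / lam * Real.exp ((A e m (t + 1) d : ℝ) / (g / lam)) ≤ g / lam * w :=
              mul_le_mul_of_nonneg_left h4 (by positivity)
          _ = g * (K * (1 / 2) ^ D) := by
              rw [hw]
              field_simp
      refine h2.trans ?_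
      have h3 : 1 / 2 ≤ (A e m (t + 1) d : ℝ) / g + (y + 1) := by
        rw [hA1, sub_div]
        have h4 : -y ≤ (A e m t d : ℝ) / g := by
          rw [le_div_iff₀ hg0]
          linarith only [hcase]
        have h5 : (1 : ℝ) / n ≤ 1 / 2 := one_div_le_one_div_of_le (by norm_num) hnR
        linarith only [hαg, h4, h5]
      rw [LB_pos (by linarith only [h3]), mul_assoc]
      refine mul_le_mul_of_nonneg_left ?_ hg0.le
      exact mul_le_mul_of_nonneg_left (pow_le_pow_left₀ (by norm_num) h3 _) hK0.le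

/-- Simple points. -/
private theorem simple_pt {d : ℕ} {e : ℕ → ℕ} {F : ℕ → ℕ → ℕ → ℕ} (hF : Sys d e F)
    (he : ∀ s, 1 ≤ e s) {m t : ℕ} (hm : 1 ≤ m) (h : e t = d) :
    F m (t + 1) d = 0 ∨ F m (t + 1) d + 1 = F m t d := by
  obtain ⟨N, hN, hk, -⟩ := hF.ker m t hm
  have h1 := hk h.le
  rw [h, Nat.sub_self, hF.deg_zero he] at h1
  have h2 := EE_card N m (le_refl d)
  rw [Nat.sub_self, hN.cnt m le_rfl 0 (Nat.zero_le d)] at h2
  have h3 : F m t 0 = 1 := hF.deg_zero he m t
  rw [h3] at h2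
  rcases Nat.eq_zero_or_pos (EE N m d 0).card with h0 | h0
  · left
    have h4 : EE N m d 0 = ∅ := card_eq_zero.1 h0
    have h5 := EE_empty hN hm (Nat.zero_le d) le_rfl h4
    have h6 : (lay N m d).card = F m t d := hN.cnt m le_rfl d le_rfl
    have h7 : lay N m d = ∅ := by
      rw [Finset.eq_empty_iff_forall_notMem]
      intro v hv
      have h8 : v ∈ EE N m d d := by
        rw [mem_EE]
        refine ⟨mem_lay.1 hv, ?_⟩
        rw [Nat.sub_self, Multiset.replicate_zero, add_zero]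
        exact (mem_lay.1 hv).1
      rw [h5] at h8
      exact Finset.notMem_empty _ h8
    rw [h7, card_empty] at h6
    omega
  · right
    omega

private theorem two_case (e : ℕ → ℕ) (he : ∀ s, 2 ≤ e s) (m : ℕ) (hm : 1 ≤ m) (t : ℕ)
    (ht : ∀ s < t, e s ≤ 2) : FF e m t 2 = 0 ∨ (FF e m t 2 : ℤ) = A e m t 2 := by
  have he1 : ∀ s, 1 ≤ e s := fun s => le_trans (by norm_num) (he s)
  have hF : Sys 2 e (FF e) := sys_FF 2 e he1
  induction t with
  | zero =>
    right
    rw [hF.zero m 2 le_rfl, A_zero]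
  | succ t ih =>
    have h2 : e t = 2 := le_antisymm (ht t (by omega)) (he t)
    rcases simple_pt hF he1 hm h2 with h | h
    · exact Or.inl h
    · right
      rcases ih fun s hs => ht s (by omega) with h3 | h3
      · omega
      · rw [A_succ, if_pos h2.le, h2, Nat.sub_self, A_deg_zero he1, ← h3]
        omega

/-- The numbers `A e m t j` and the dimension: the positive side with a logarithm, the negative side without. -/
theorem xe2 (d : ℕ) : ∃ C : ℝ, 0 < C ∧ ∃ n₀ : ℕ, ∀ m, n₀ ≤ m → ∀ e : ℕ → ℕ, (∀ s, 2 ≤ e s) →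
    ∀ t, (∀ s < t, e s ≤ d) →
      ((∀ j < d, 0 < A e m t j) → C * (m : ℝ) ^ (d - 1) * Real.log m ≤ (A e m t d : ℝ) →
        (FF e m t d : ℤ) = A e m t d) ∧
      ((∃ j < d, A e m t j ≤ 0) ∨ (A e m t d : ℝ) ≤ -(C * (m : ℝ) ^ (d - 1)) →
        FF e m t d = 0) := by
  obtain ⟨C, hC, n₀, h⟩ := xe d
  have key : ∃ Z : ℝ, 0 < Z ∧ ∃ n₁ : ℕ, ∀ m, n₁ ≤ m → ∀ e : ℕ → ℕ, (∀ s, 2 ≤ e s) →
      ∀ t, (∀ s < t, e s ≤ d) → (A e m t d : ℝ) ≤ -(Z * (m : ℝ) ^ (d - 1)) → FF e m t d = 0 := by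
    rcases Nat.lt_or_ge d 3 with hd | hd
    · refine ⟨1, one_pos, 1, fun m hm e he t ht hA => ?_⟩
      have hm1 : (1 : ℝ) ≤ m := by exact_mod_cast hm
      have h0 : (A e m t d : ℝ) < 0 := by
        have h1 : (0 : ℝ) < 1 * (m : ℝ) ^ (d - 1) := by positivity
        linarith only [hA, h1]
      have h0' : A e m t d < 0 := by exact_mod_cast h0
      rcases Nat.lt_or_ge d 2 with hd2 | hd2
      · exfalso
        have ht0 : t = 0 := by
          by_contra h1
          have h2 := ht 0 (by omega)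
          have h3 := he 0
          omega
        subst ht0
        rw [A_zero] at h0'
        omega
      · obtain rfl : d = 2 := by omega
        rcases two_case e he m hm t ht with h1 | h1
        · exact h1
        · omega
    · obtain ⟨K, Z, hK, hZ, n₁, n₂, hn, hM⟩ := main_left d hd
      refine ⟨Z, by linarith only [hZ], n₂ + 1, fun m hm e he t ht hA => ?_⟩
      have hm1 : (1 : ℝ) ≤ m := by
        have : 1 ≤ m := by omega
        exact_mod_cast this
      have hg0 : (0 : ℝ) < (m : ℝ) ^ (d - 1) := by positivity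
      have h1 := hM m (by omega) e he t ht m (by omega) le_rfl (by nlinarith only [hA, hg0])
      rw [LB_zero (by omega)] at h1
      · have h2 : FF e m t d ≤ 0 := by exact_mod_cast h1
        omega
      · have h2 : (A e m t d : ℝ) / (m : ℝ) ^ (d - 1) ≤ -Z := by
          rw [div_le_iff₀ hg0]
          linarith only [hA]
        linarith only [h2]
  obtain ⟨Z, hZ, n₁, h'⟩ := key
  refine ⟨C + Z, by positivity, n₀ + n₁ + 1, fun m hm e he t ht => ?_⟩
  have hm1 : (1 : ℝ) ≤ m := by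
    have : 1 ≤ m := by omega
    exact_mod_cast this
  have hlog : 0 ≤ Real.log m := Real.log_nonneg hm1
  have hpow : (0 : ℝ) < (m : ℝ) ^ (d - 1) := by positivity
  obtain ⟨hX, hY⟩ := h m (by omega) e he t ht
  refine ⟨fun h1 h2 => hX h1 (le_trans ?_ h2), fun h1 => ?_⟩
  · refine mul_le_mul_of_nonneg_right ?_ hlog
    exact mul_le_mul_of_nonneg_right (by linarith only [hZ]) hpow.le
  · rcases h1 with h1 | h1
    · exact hY (Or.inl h1)
    · refine h' m (by omega) e he t ht (h1.trans ?_)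
      have h2 : 0 ≤ C * (m : ℝ) ^ (d - 1) := by positivity
      linarith only [h2]

end Pool.Agent.XE2

end
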