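import Pool.Agent.H94.LP7.M85
import Pool.Agent.H94.LP7.M92

/-! The parts of this file: XD.Final, GD.Fin.Cpt_1, XE2.Final2, GD.Fin.Final_1, GD.Fin.Zero_1. -/

section

/-!
# XD: the dimension for all configurations off a thin layer

Let `a_j = fro r (d + 1 - m) univ j`; `a_1 = r + 1 - #{i | m i = d}` is the number of variables left when the
cones are removed.
-/

set_option autoImplicit false

namespace Pool.Agent.XD

open Finset Pool.Agent.H21.NX Pool.Agent.H21.HD Pool.Agent.H18.Fat

/-- The dimension of `V_d(Γ)`, for all configurations with at least `n₀` variables left when the cones are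
removed, off the layer `- η a_1^d < a_d ≤ 0 < a_j` (`j < d`); a lower bound for `0 < a_d < η a_1^d`. -/
theorem classify (d : ℕ) (η : ℝ) (hη : 0 < η) : ∃ n₀ : ℕ, ∀ (r k : ℕ) (m : Fin k → ℕ),
    (∀ i, 1 ≤ m i ∧ m i ≤ d) → (n₀ : ℤ) ≤ fro r (fun i => d + 1 - m i) univ 1 →
      ((∃ j < d, fro r (fun i => d + 1 - m i) univ j ≤ 0) ∨
          (fro r (fun i => d + 1 - m i) univ d : ℝ) ≤
            -(η * (fro r (fun i => d + 1 - m i) univ 1 : ℝ) ^ d) →
        ForGeneralPoints r k fun p => Module.finrank ℂ (fatForms r d p m) = 0) ∧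
      ((∀ j ≤ d, 0 < fro r (fun i => d + 1 - m i) univ j) →
        ForGeneralPoints r k fun p =>
          fro r (fun i => d + 1 - m i) univ d ≤ (Module.finrank ℂ (fatForms r d p m) : ℤ)) ∧
      ((∀ j ≤ d, 0 < fro r (fun i => d + 1 - m i) univ j) →
        η * (fro r (fun i => d + 1 - m i) univ 1 : ℝ) ^ d ≤
          (fro r (fun i => d + 1 - m i) univ d : ℝ) →
        ForGeneralPoints r k fun p => (Module.finrank ℂ (fatForms r d p m) : ℤ) =
          fro r (fun i => d + 1 - m i) univ d) := by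
  obtain ⟨c, hc, n₁, hL⟩ := layer d
  have hη' : 0 < min c η := lt_min hc hη
  obtain ⟨n₂, hK⟩ := kill d (min c η) hη'
  obtain ⟨n₃, hLow⟩ := xd_lower d c hc
  obtain ⟨n₄, hX⟩ := xd d (min c η) hη'
  refine ⟨n₁ + n₂ + n₃ + n₄ + 1, fun r k m hm hn => ?_⟩
  have h1 : 0 < fro r (fun i => d + 1 - m i) univ 1 := by
    refine lt_of_lt_of_le ?_ hn
    push_cast
    positivity
  obtain ⟨e, m', t, he, hed, _, hm1, hA, hg⟩ := exists_seq r d k m hm h1
  have he1 : ∀ s, 1 ≤ e s := fun s => le_trans (by norm_num) (he s)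
  have hF : Sys d e (FF e) := sys_FF d e he1
  have hn' : n₁ + n₂ + n₃ + n₄ + 1 ≤ m' := by
    rw [← hm1] at hn
    exact_mod_cast hn
  have hgen : ForGeneralPoints r k fun p =>
      Module.finrank ℂ (fatForms r d p m) = FF e m' t d := by
    rw [← hg]
    exact gen_gdim r d m
  have hm1R : (fro r (fun i => d + 1 - m i) univ 1 : ℝ) = (m' : ℝ) := by
    rw [← hm1]
    push_cast
    rfl
  obtain ⟨hL1, hL2⟩ := hL m' (by omega) e he t
  have hpow : ∀ j : ℕ, 0 ≤ (m' : ℝ) ^ j := fun j => by positivity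
  refine ⟨fun h => ?_, fun h => ?_, fun h h' => ?_⟩
  · have h2 : ∃ j ≤ d, (A e m' t j : ℝ) ≤ -(min c η * (m' : ℝ) ^ j) := by
      rcases h with ⟨j, hj, hj0⟩ | h
      · obtain ⟨i, hi, hi'⟩ := hL2 ⟨j, hj, by rw [← hA j]; exact hj0⟩
        refine ⟨i, hi, hi'.trans (neg_le_neg ?_)⟩
        exact mul_le_mul_of_nonneg_right (min_le_left _ _) (hpow i)
      · refine ⟨d, le_rfl, ?_⟩
        rw [hm1R, hA d] at h
        exact h.trans (neg_le_neg (mul_le_mul_of_nonneg_right (min_le_right _ _) (hpow d)))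
    have h3 := hK m' (by omega) e t (fun s hs => ⟨he1 s, hed s hs⟩) h2
    rw [h3] at hgen
    exact hgen
  · have h2 := hL1 fun j hj => by rw [← hA j]; exact h j hj
    have h3 := hLow m' (by omega) e (FF e) he hF m' t le_rfl h2
    refine hgen.mono fun p hp => ?_
    rw [hp, hA d]
    exact h3
  · have h2 := hL1 fun j hj => by rw [← hA j]; exact h j hj
    have h3 := hX m' (by omega) e (FF e) he hF m' t le_rfl fun j hj => by
      rcases lt_or_eq_of_le hj with hj | rfl
      · exact (mul_le_mul_of_nonneg_right (min_le_left _ _) (hpow j)).trans (h2 j hj)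
      · rw [hm1R, hA j] at h'
        exact (mul_le_mul_of_nonneg_right (min_le_right _ _) (hpow j)).trans h'
    refine hgen.mono fun p hp => ?_
    rw [hp, hA d]
    exact h3

end Pool.Agent.XD

end

section

/-!
# General d, the final part: compactness

`Zero d`: near every critical vector of densities the dimension is at most `max 0 a_d`.  Then this holds for
all sequences of exponents `< d` with `a_j > 0` (`j < d`) and a large number of variables: off the layer by
`xe2`; a sequence of counterexamples in the layer has a subsequence whose densities converge, the limit is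
critical by `lim_A`, `Pool.Agent.XD.layer` and `Pool.Agent.XD.step`.
-/

set_option autoImplicit false

namespace Pool.Agent.GD.FIN

open Finset Filter Topology Pool.Agent.XD

/-- No exponents `≥ d`. -/
theorem upper_big {d : ℕ} (hZ : Zero d) : ∃ n₀ : ℕ, ∀ m, n₀ ≤ m → ∀ e : ℕ → ℕ, (∀ s, 2 ≤ e s) →
    ∀ t, (∀ s < t, e s < d) → (∀ j < d, 0 < A e m t j) →
      (Pool.Agent.XD.FF e m t d : ℤ) ≤ max 0 (A e m t d) := by
  by_contra hcon
  push Not at hcon
  choose m hm e he t ht hpos hbad using hcon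
  have he1 : ∀ i s, 1 ≤ e i s := fun i s => by have := he i s; omega
  -- `d ≥ 3`
  have hd3 : 3 ≤ d := by
    by_contra hd
    have ht0 : t 0 = 0 := by
      by_contra h1
      have h2 := ht 0 0 (by omega)
      have h3 := he 0 0
      omega
    have h1 := hbad 0
    have h2 := (sys_FF d (e 0) (he1 0)).zero (m 0) d le_rfl
    rw [ht0, h2, A_zero] at h1
    exact absurd (le_max_right _ _) (not_le.2 h1)
  -- the densities
  obtain ⟨κ, hκ⟩ : ∃ κ : ℕ → ℕ → ℝ, κ = fun i x => (cnt (e i) (t i) x : ℝ) / (m i : ℝ) ^ x :=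
    ⟨_, rfl⟩
  have hκ0 : ∀ i x, (x < 2 ∨ d ≤ x) → κ i x = 0 := by
    intro i x hx
    rw [hκ]
    simp only
    rw [cnt_zero, Nat.cast_zero, zero_div]
    intro s hs
    have h1 := ht i s hs
    have h2 := he i s
    omega
  have hκK : ∀ i, κ i ∈ Set.pi Set.univ (fun _ : ℕ => Set.Icc (0 : ℝ) 1) := by
    intro i x _
    rcases Nat.lt_or_ge x d with hx | hx
    · rw [hκ]
      refine ⟨by positivity, ?_⟩
      have h1 : cnt (e i) (t i) x ≤ (m i) ^ x :=
        cnt_le (he1 i) (J := d) (fun j hj => (hpos i j hj).le) hx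
      refine div_le_one_of_le₀ ?_ (by positivity)
      exact_mod_cast h1
    · rw [hκ0 i x (Or.inr hx)]
      exact ⟨le_rfl, zero_le_one⟩
  obtain ⟨kap, hkap, φ, hφ, hlim⟩ :=
    (isCompact_univ_pi (fun _ : ℕ => isCompact_Icc (a := (0 : ℝ)) (b := 1))).tendsto_subseq hκK
  rw [tendsto_pi_nhds] at hlim
  have hmt : Tendsto (fun i => m (φ i)) atTop atTop := by
    have h1 : Tendsto m atTop atTop := tendsto_atTop_mono hm tendsto_id
    exact h1.comp hφ.tendsto_atTop
  have hlim' : ∀ x, Tendsto (fun i => (cnt (e (φ i)) (t (φ i)) x : ℝ) / (m (φ i) : ℝ) ^ x) atTop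
      (𝓝 (kap x)) := by
    intro x
    have h1 := hlim x
    rw [hκ] at h1
    exact h1
  have hA := lim_A (m := fun i => m (φ i)) (e := fun i => e (φ i)) (t := fun i => t (φ i)) hmt
    (fun i s => he _ s) hlim'
  -- the layer
  obtain ⟨C, hC, n₁, hxe⟩ := Pool.Agent.XE2.xe2 d
  have hm1 := hmt.eventually_ge_atTop (max n₁ 1)
  have hlayer : ∀ᶠ i in atTop, -(C * (m (φ i) : ℝ) ^ (d - 1)) < (A (e (φ i)) (m (φ i)) (t (φ i)) d : ℝ) ∧
      (A (e (φ i)) (m (φ i)) (t (φ i)) d : ℝ) <
        C * (m (φ i) : ℝ) ^ (d - 1) * Real.log (m (φ i)) := by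
    filter_upwards [hm1] with i hi
    obtain ⟨h1, h2⟩ := hxe (m (φ i)) ((le_max_left _ _).trans hi) (e (φ i)) (he _) (t (φ i))
      (fun s hs => (ht _ s hs).le)
    have h3 := hbad (φ i)
    constructor
    · by_contra hc
      push Not at hc
      rw [h2 (Or.inr hc)] at h3
      exact absurd (le_max_left _ _) (not_le.2 h3)
    · by_contra hc
      push Not at hc
      rw [h1 (hpos _) hc] at h3
      exact absurd (le_max_right _ _) (not_le.2 h3)
  have hpowd : ∀ i, (m (φ i) : ℝ) ^ d = (m (φ i) : ℝ) ^ (d - 1) * (m (φ i) : ℝ) := by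
    intro i
    rw [← pow_succ]
    congr 1
    omega
  have hgd : gg kap d = 0 := by
    refine tendsto_nhds_unique (hA d) ?_
    have h1 : Tendsto (fun i => C * ((m (φ i) : ℝ) ^ 1)⁻¹) atTop (𝓝 0) := by
      have := (pow_inv_lim hmt (k := 1) one_ne_zero).const_mul C
      rwa [mul_zero] at this
    have h1' : Tendsto (fun i => -(C * ((m (φ i) : ℝ) ^ 1)⁻¹)) atTop (𝓝 0) := by
      have := h1.neg
      rwa [neg_zero] at this
    refine tendsto_of_tendsto_of_tendsto_of_le_of_le' h1' (log_lim C hmt) ?_ ?_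
    · filter_upwards [hlayer, hm1] with i hi hi1
      have hmi : (0 : ℝ) < m (φ i) := by
        have : 1 ≤ m (φ i) := (le_max_right _ _).trans hi1
        exact_mod_cast this
      rw [le_div_iff₀ (by positivity), hpowd, pow_one]
      have h2 : -(C * (m (φ i) : ℝ)⁻¹) * ((m (φ i) : ℝ) ^ (d - 1) * (m (φ i) : ℝ)) =
          -(C * (m (φ i) : ℝ) ^ (d - 1)) := by
        field_simp
      rw [h2]
      exact hi.1.le
    · filter_upwards [hlayer, hm1] with i hi hi1
      have hmi : (0 : ℝ) < m (φ i) := by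
        have : 1 ≤ m (φ i) := (le_max_right _ _).trans hi1
        exact_mod_cast this
      rw [div_le_div_iff₀ (by positivity) hmi, hpowd]
      nlinarith [hi.2]
  have hgpos : ∀ D < d, 0 < gg kap D := by
    obtain ⟨c, hc, n₂, hL⟩ := layer (d - 1)
    obtain ⟨c', hc', n₃, hS⟩ := Pool.Agent.XD.step (d - 1) c hc
    obtain ⟨n₄, hn₄⟩ := exists_nat_gt (C / c')
    have hm2 := hmt.eventually_ge_atTop (n₂ + n₃ + n₄ + 1)
    intro D hD
    refine lt_of_lt_of_le (lt_min hc hc') (ge_of_tendsto (hA D) ?_)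
    filter_upwards [hlayer, hm2] with i hi hi1
    have hmi : (0 : ℝ) < m (φ i) := by
      have : 1 ≤ m (φ i) := by omega
      exact_mod_cast this
    have h1 : ∀ j < d - 1, c * (m (φ i) : ℝ) ^ j ≤ (A (e (φ i)) (m (φ i)) (t (φ i)) j : ℝ) :=
      (hL (m (φ i)) (by omega) (e (φ i)) (he _) (t (φ i))).1 fun j hj => hpos _ j (by omega)
    rw [le_div_iff₀ (by positivity)]
    rcases Nat.lt_or_ge D (d - 1) with hD1 | hD1
    · exact (mul_le_mul_of_nonneg_right (min_le_left _ _) (by positivity)).trans (h1 D hD1)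
    · obtain rfl : D = d - 1 := by omega
      refine (mul_le_mul_of_nonneg_right (min_le_right _ _) (by positivity)).trans ?_
      by_contra hcc
      push Not at hcc
      have h2 := hS (m (φ i)) (by omega) (e (φ i)) (he _) (t (φ i)) h1 hcc.le
      have h3 : d - 1 + 1 = d := by omega
      rw [h3, hpowd] at h2
      have h4 : C < c' * m (φ i) := by
        have h5 : (n₄ : ℝ) ≤ m (φ i) := by exact_mod_cast (by omega : n₄ ≤ m (φ i))
        rw [div_lt_iff₀ hc'] at hn₄
        nlinarith
      have h5 : (0 : ℝ) < (m (φ i) : ℝ) ^ (d - 1) := by positivity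
      nlinarith [hi.1]
  have hk0 : ∀ x, 0 ≤ kap x := fun x => (hkap x (Set.mem_univ x)).1
  have hks : ∀ x, (x < 2 ∨ d ≤ x) → kap x = 0 := by
    intro x hx
    refine tendsto_nhds_unique (hlim x) ?_
    refine tendsto_const_nhds.congr fun i => ?_
    exact (hκ0 (φ i) x hx).symm
  obtain ⟨η, n₀, hη, hfin⟩ := hZ kap hk0 (fun x hx => by
    by_contra hc
    exact hx (hks x (by omega))) hgd hgpos
  have h1 : ∀ᶠ i in atTop, ∀ x ∈ range d,
      |(cnt (e (φ i)) (t (φ i)) x : ℝ) / (m (φ i) : ℝ) ^ x - kap x| < η := by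
    rw [Filter.eventually_all_finset]
    intro x _
    have h2 := (Metric.tendsto_nhds.1 (hlim' x)) η hη
    filter_upwards [h2] with i hi
    rwa [Real.dist_eq] at hi
  obtain ⟨i, hi, hi1⟩ := (h1.and (hmt.eventually_ge_atTop (n₀ + 1))).exists
  have hmi : (0 : ℝ) < m (φ i) := by
    have : 1 ≤ m (φ i) := by omega
    exact_mod_cast this
  refine absurd (hfin (m (φ i)) (by omega) (e (φ i)) (t (φ i)) (he _) (ht _) fun x => ?_)
    (not_le.2 (hbad (φ i)))
  rcases Nat.lt_or_ge x d with hx | hx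
  · have h2 := hi x (mem_range.2 hx)
    have h3 : (cnt (e (φ i)) (t (φ i)) x : ℝ) - kap x * (m (φ i) : ℝ) ^ x =
        ((cnt (e (φ i)) (t (φ i)) x : ℝ) / (m (φ i) : ℝ) ^ x - kap x) * (m (φ i) : ℝ) ^ x := by
      field_simp
    rw [h3, abs_mul, abs_of_pos (by positivity : (0 : ℝ) < (m (φ i) : ℝ) ^ x)]
    exact mul_le_mul_of_nonneg_right h2.le (by positivity)
  · have h2 : cnt (e (φ i)) (t (φ i)) x = 0 := by
      refine cnt_zero fun s hs => ?_
      have := ht (φ i) s hs
      omega
    rw [h2, hks x (Or.inr hx), Nat.cast_zero, zero_mul, sub_zero, abs_zero]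
    positivity

end Pool.Agent.GD.FIN

end

section

/-!
# XE2: the dimension for all configurations off the layer `-C N^(d-1) < a_d < C N^(d-1) log N`

As `Pool.Agent.XE.classify2` (`exists_seq`, `gen_gdim`), with `xe2`.
-/

set_option autoImplicit false

namespace Pool.Agent.XE2

open Finset Pool.Agent.H21.NX Pool.Agent.H21.HD Pool.Agent.H18.Fat Pool.Agent.XD Pool.Agent.XE

theorem classify3 (d : ℕ) : ∃ C : ℝ, 0 < C ∧ ∃ n₀ : ℕ, ∀ (r k : ℕ) (m : Fin k → ℕ),
    (∀ i, 1 ≤ m i ∧ m i ≤ d) → ∀ N : ℕ, (N : ℤ) = fro r (fun i => d + 1 - m i) univ 1 → n₀ ≤ N →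
      ((∃ j < d, fro r (fun i => d + 1 - m i) univ j ≤ 0) ∨
          (fro r (fun i => d + 1 - m i) univ d : ℝ) ≤ -(C * (N : ℝ) ^ (d - 1)) →
        ForGeneralPoints r k fun p => Module.finrank ℂ (fatForms r d p m) = 0) ∧
      ((∀ j < d, 0 < fro r (fun i => d + 1 - m i) univ j) →
        C * (N : ℝ) ^ (d - 1) * Real.log N ≤ (fro r (fun i => d + 1 - m i) univ d : ℝ) →
        ForGeneralPoints r k fun p => (Module.finrank ℂ (fatForms r d p m) : ℤ) =
          fro r (fun i => d + 1 - m i) univ d) := by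
  obtain ⟨C, hC, n₀, h⟩ := xe2 d
  refine ⟨C, hC, n₀ + 1, fun r k m hm N hN hn => ?_⟩
  have h1 : 0 < fro r (fun i => d + 1 - m i) univ 1 := by
    rw [← hN]
    exact_mod_cast (by omega : 0 < N)
  obtain ⟨e, m', t, he, hed, _, hm1, hA, hg⟩ := exists_seq r d k m hm h1
  have hmN : m' = N := by
    rw [← hm1] at hN
    exact_mod_cast hN.symm
  subst hmN
  have hgen : ForGeneralPoints r k fun p =>
      Module.finrank ℂ (fatForms r d p m) = FF e m' t d := by
    rw [← hg]
    exact gen_gdim r d m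
  obtain ⟨hX1, hX2⟩ := h m' (by omega) e he t hed
  refine ⟨fun h' => ?_, fun h' h'' => ?_⟩
  · have h2 := hX2 (by
      rcases h' with ⟨j, hj, h'⟩ | h'
      · exact Or.inl ⟨j, hj, by rw [← hA j]; exact h'⟩
      · exact Or.inr (by rw [← hA d]; exact h'))
    rw [h2] at hgen
    exact hgen
  · have h2 := hX1 (fun j hj => by rw [← hA j]; exact h' j hj) (by rw [← hA d]; exact h'')
    refine hgen.mono fun p hp => ?_
    rw [hp, hA d]
    exact h2

end Pool.Agent.XE2

end

section

/-!
# General d, the final part: simple points, and the dimension for all configurations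
-/

set_option autoImplicit false

namespace Pool.Agent.GD.FIN

open Finset Pool.Agent.XD Pool.Agent.H18.Fat Pool.Agent.H21.HD Pool.Agent.H21.NX Pool.Agent.H74.V8C Pool.Agent.H74.V9

/-- All exponents `≤ d`. -/
theorem upper {d : ℕ} (hZ : Zero d) : ∃ n₀ : ℕ, ∀ m, n₀ ≤ m → ∀ e : ℕ → ℕ, (∀ s, 2 ≤ e s) →
    ∀ t, (∀ s < t, e s ≤ d) → (∀ j < d, 0 < A e m t j) →
      (Pool.Agent.XD.FF e m t d : ℤ) ≤ max 0 (A e m t d) := by
  classical
  obtain ⟨n₀, h₀⟩ := upper_big hZ
  refine ⟨n₀ + 1, fun m hm e he t ht hpos => ?_⟩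
  rcases Nat.lt_or_ge d 2 with hd | hd
  · have ht0 : t = 0 := by
      by_contra h1
      have h2 := ht 0 (by omega)
      have h3 := he 0
      omega
    have h2 := (sys_FF d e fun s => by have := he s; omega).zero m d le_rfl
    rw [ht0, h2, A_zero]
    exact le_max_right _ _
  obtain ⟨r, rfl⟩ : ∃ r, m = r + 1 := ⟨m - 1, by omega⟩
  obtain ⟨M, hM⟩ : ∃ M : Fin t → ℕ, M = fun s : Fin t => d + 1 - e s := ⟨_, rfl⟩
  have hMb : ∀ i, 1 ≤ M i ∧ M i ≤ d := by
    intro i
    rw [hM]
    have h1 := he i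
    have h2 := ht i i.2
    constructor
    · show 1 ≤ d + 1 - e i
      omega
    · show d + 1 - e i ≤ d
      omega
  obtain ⟨k', m', hm', hne, hcard, hj, hdd, hg⟩ := simple_exact2 r d t M hd hMb
  have hmd : ∀ i, m' i ≠ d := by
    have h1 : (univ.filter fun i => M i = d) = ∅ := by
      rw [filter_eq_empty_iff]
      intro i _
      rw [hM]
      have h1 := he i
      have h2 := ht i i.2
      show ¬ (d + 1 - e i = d)
      omega
    rw [h1, card_empty, card_eq_zero, filter_eq_empty_iff] at hcard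
    exact fun i => hcard (mem_univ i)
  obtain ⟨e', he'⟩ : ∃ e' : ℕ → ℕ, e' = fun s => if h : s < k' then d + 1 - m' ⟨s, h⟩ else 2 :=
    ⟨_, rfl⟩
  have hes : ∀ s : Fin k', e' s = d + 1 - m' s := by
    intro s
    rw [he']
    exact dif_pos s.2
  have he'2 : ∀ s, 2 ≤ e' s := by
    intro s
    rw [he']
    show 2 ≤ if h : s < k' then d + 1 - m' ⟨s, h⟩ else 2
    split_ifs with h
    · have h1 := hm' ⟨s, h⟩
      have h2 := hmd ⟨s, h⟩
      omega
    · exact le_rfl
  have he'd : ∀ s < k', e' s < d := by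
    intro s hs
    have h1 := hes ⟨s, hs⟩
    have h2 := hm' ⟨s, hs⟩
    have h3 := hne ⟨s, hs⟩
    have h4 : e' s = d + 1 - m' ⟨s, hs⟩ := h1
    omega
  have hA' : ∀ j, fro r (fun i => d + 1 - m' i) univ j = A e' (r + 1) k' j := by
    intro j
    rw [← fro_fin]
    congr 1
    funext s
    exact (hes s).symm
  have hA : ∀ j, fro r (fun i => d + 1 - M i) univ j = A e (r + 1) t j := by
    intro j
    rw [← fro_fin]
    congr 1
    funext s
    rw [hM]
    have h1 := he s
    have h2 := ht s s.2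
    show d + 1 - (d + 1 - e s) = e s
    omega
  have hF' : Pool.Agent.XD.FF e' (r + 1) k' d = gdim r d m' := by
    show gdim r d (fun s : Fin k' => d + 1 - e' s) = gdim r d m'
    congr 1
    funext s
    rw [hes s]
    have := hm' s
    omega
  have hF : Pool.Agent.XD.FF e (r + 1) t d = gdim r d M := by
    rw [hM]
    rfl
  have h1 := h₀ (r + 1) (by omega) e' he'2 k' he'd fun j hjd => by
    rw [← hA', hj j hjd, hA]
    exact hpos j hjd
  rw [hF', ← hA', hdd, hA] at h1
  rw [hF]
  obtain ⟨c, hc⟩ : ∃ c, c = (univ.filter fun i => M i = 1).card := ⟨_, rfl⟩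
  rw [← hc] at h1 hg
  omega

/-- The dimension for all configurations with a large number of variables. -/
theorem complete {d : ℕ} (hZ : Zero d) : ∃ n₀ : ℕ, ∀ (r k : ℕ) (m : Fin k → ℕ),
    (∀ i, 1 ≤ m i ∧ m i ≤ d) →
    ∀ N : ℕ, N + (univ.filter fun i => m i = d).card = r + 1 → n₀ ≤ N →
      (¬ (∀ j ≤ d, 0 < fro r (fun i => d + 1 - m i) univ j) →
        ForGeneralPoints r k fun p => Module.finrank ℂ (fatForms r d p m) = 0) ∧
      ((∀ j ≤ d, 0 < fro r (fun i => d + 1 - m i) univ j) →
        ForGeneralPoints r k fun p => (Module.finrank ℂ (fatForms r d p m) : ℤ) =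
          fro r (fun i => d + 1 - m i) univ d) := by
  classical
  obtain ⟨n₁, h₁⟩ := upper hZ
  obtain ⟨C, hC, n₂, hX⟩ := Pool.Agent.XE2.classify3 d
  obtain ⟨n₃, hL⟩ := Pool.Agent.XD.classify d 1 one_pos
  refine ⟨n₁ + n₂ + n₃ + 1, fun r k m hm N hN hn => ?_⟩
  -- `a_1 = N`
  have hone : fro r (fun i => d + 1 - m i) univ 1 = (N : ℤ) := by
    have h1 := fro_one_add r (fun i => d + 1 - m i) univ fun i _ => by
      have := hm i
      omega
    have h2 : (univ.filter fun i => d + 1 - m i = 1) = univ.filter fun i => m i = d := by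
      refine filter_congr fun i _ => ?_
      have := hm i
      omega
    rw [h2] at h1
    have h3 : (N : ℤ) + ((univ.filter fun i => m i = d).card : ℤ) = r + 1 := by exact_mod_cast hN
    linarith
  obtain ⟨e, m', t, he, hed, _, hm1, hA, hg⟩ := exists_seq r d k m hm (by
    rw [hone]
    exact_mod_cast (by omega : 0 < N))
  have hmN : m' = N := by
    rw [hone] at hm1
    exact_mod_cast hm1
  subst hmN
  have hgen : ForGeneralPoints r k fun p =>
      Module.finrank ℂ (fatForms r d p m) = Pool.Agent.XD.FF e m' t d := by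
    rw [← hg]
    exact gen_gdim r d m
  obtain ⟨hV, -⟩ := hX r k m hm m' hone.symm (by omega)
  obtain ⟨-, hLow, -⟩ := hL r k m hm (by rw [hone]; exact_mod_cast (by omega))
  constructor
  · intro hneg
    by_cases h5 : ∀ j < d, 0 < fro r (fun i => d + 1 - m i) univ j
    · have h6 : fro r (fun i => d + 1 - m i) univ d ≤ 0 := by
        by_contra hcon
        push Not at hcon
        refine hneg fun j hj => ?_
        rcases lt_or_eq_of_le hj with hj | rfl
        · exact h5 j hj
        · exact hcon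
      have h7 := h₁ m' (by omega) e he t hed fun j hj => by
        rw [← hA]
        exact h5 j hj
      rw [← hA, max_eq_left h6] at h7
      have h8 : Pool.Agent.XD.FF e m' t d = 0 := by omega
      rw [h8] at hgen
      exact hgen
    · push Not at h5
      exact hV (Or.inl h5)
  · intro hpos
    have h7 := h₁ m' (by omega) e he t hed fun j hj => by
      rw [← hA]
      exact hpos j hj.le
    rw [← hA, max_eq_right (hpos d le_rfl).le] at h7
    have h8 : Gen r (Fin k) fun p => (Module.finrank ℂ (fatForms r d p m) : ℤ) =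
        fro r (fun i => d + 1 - m i) univ d := by
      have h9 : Gen r (Fin k) fun p => Module.finrank ℂ (fatForms r d p m) = Pool.Agent.XD.FF e m' t d := hgen
      have h10 : Gen r (Fin k) fun p => fro r (fun i => d + 1 - m i) univ d ≤
          (Module.finrank ℂ (fatForms r d p m) : ℤ) := hLow hpos
      refine (h9.and h10).mono ?_
      rintro p ⟨hq1, hq2⟩
      rw [hq1] at hq2 ⊢
      omega
    exact h8

end Pool.Agent.GD.FIN

end

section

/-!
# General d, the final part: `TargetZero` and the complete answer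
-/

set_option autoImplicit false

namespace Pool.Agent.GD.FIN

open Finset Pool.Agent.XD Pool.Agent.H18.Fat Pool.Agent.H21.HD Pool.Agent.H21.NX

/-- The complete answer in degree `d` for a large number of variables. -/
theorem complete_of_target (hT : TargetZero) (d : ℕ) : ∃ n₀ : ℕ, ∀ (r k : ℕ) (m : Fin k → ℕ),
    (∀ i, 1 ≤ m i ∧ m i ≤ d) →
    ∀ N : ℕ, N + (univ.filter fun i => m i = d).card = r + 1 → n₀ ≤ N →
      (¬ (∀ j ≤ d, 0 < fro r (fun i => d + 1 - m i) univ j) →
        ForGeneralPoints r k fun p => Module.finrank ℂ (fatForms r d p m) = 0) ∧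
      ((∀ j ≤ d, 0 < fro r (fun i => d + 1 - m i) univ j) →
        ForGeneralPoints r k fun p => (Module.finrank ℂ (fatForms r d p m) : ℤ) =
          fro r (fun i => d + 1 - m i) univ d) :=
  complete (zero_of_target hT d)

end Pool.Agent.GD.FIN

end
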