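import Pool.Agent.H94.LP7.M10
import Pool.Agent.H94.LP7.M102

/-! The parts of this file: H18.Ta.Key, H21.NX.Layer, H51.TB.Nt, V7.Num.StepA. -/

section

/-!
# Module Key (TA): the keys realise the ranks

Let `G = bG ℓ = 4 (ℓ+1)^2`, `W = G ^ (ℓ - u)`, `e = ex ℓ u j`, `K s = e * s + kap ℓ s`.
For `s < ℓ` we have `kap ℓ s = kap ℓ (s+1) + G ^ (ℓ - s)` (`sum_range_succ`, as `ℓ - s = (ℓ - (s+1)) + 1`).
Hence `K (s+1) + G ^ (ℓ - s) = K s + e`.

Facts about `e`: `e ≤ 2 W`; for `j = 0`, `e = 2 W > W`; for `j ≥ 1`: `j e < W` and, as `j ≤ ℓ`,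
`j e ≥ W - j`, so `e ≥ (W - j)/j`, hence `(j + 1) e ≥ W - j + (W - j)/j > W + 2 W / G` because `G ≥ 4 ℓ²`,
`W ≥ G`; in particular `e ≥ W / (2 ℓ)` and `e > W / G = G ^ (ℓ - u - 1)`.

* On `[0, u]` the key decreases strictly: for `s < u`, `G ^ (ℓ - s) ≥ G W > 2 W ≥ e`.
* On `[u+1, ℓ-1]` the key increases strictly: for `u + 1 ≤ s`, `s + 1 < ℓ`, `G ^ (ℓ - s) ≤ W / G < e`.
* The keys of the layers `< u` are larger than all keys of the layers `≥ u`:
  `K (u-1) = K u + G W - e`, `K s ≤ K u + e (s - u)` for `s ≥ u`, and `G W > e (ℓ + 1)` by `e ≤ 2 W`.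
* `j = 0`: `K (u+1) = K u + e - W > K u`.
* `j ≥ 1`: `K (u+j) < K u`, as `K (u+j) ≤ K u + j e - W`, and (if `u + j + 1 < ℓ`)
  `K (u+j+1) > K u`, as `K (u+j+1) ≥ K u + (j+1) e - W - 2 W / G` (geometric sum
  `∑_{i=1}^{j} G ^ (ℓ-u-i) ≤ 2 G ^ (ℓ-u-1)`).
These give the order of the keys `u+1 < … < u+j < u < u+j+1 < … < ℓ-1 < u-1 < … < 0`.
-/

namespace Pool.Agent.H18.Ta

open Finset

private theorem Key_G (ℓ : ℕ) : 4 ≤ bG ℓ := by
  unfold bG
  nlinarith only [Nat.zero_le ℓ]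

private theorem Key_step {ℓ s : ℕ} (hs : s < ℓ) : kap ℓ s = kap ℓ (s + 1) + bG ℓ ^ (ℓ - s) := by
  unfold kap
  have h : ℓ - s = (ℓ - (s + 1)) + 1 := by omega
  rw [h, Finset.sum_range_succ]

private theorem Key_anti {ℓ s t : ℕ} (h : s ≤ t) : kap ℓ t ≤ kap ℓ s := by
  unfold kap
  refine Finset.sum_le_sum_of_subset ?_
  intro i hi
  rw [Finset.mem_range] at hi ⊢
  omega

private theorem Key_geo (ℓ n : ℕ) : ∑ i ∈ range n, bG ℓ ^ (i + 1) ≤ 2 * bG ℓ ^ n := by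
  have hG := Key_G ℓ
  induction n with
  | zero => simp
  | succ n ih =>
    rw [Finset.sum_range_succ]
    have h1 : 4 * bG ℓ ^ n ≤ bG ℓ ^ (n + 1) := by
      rw [pow_succ, mul_comm (bG ℓ ^ n)]
      exact Nat.mul_le_mul_right _ hG
    omega

private theorem Key_kap {ℓ u : ℕ} (hu : u < ℓ) :
    kap ℓ u ≤ bG ℓ ^ (ℓ - u) + 2 * bG ℓ ^ (ℓ - u - 1) := by
  unfold kap
  have h : ℓ - u = (ℓ - u - 1) + 1 := by omega
  have h2 := Key_geo ℓ (ℓ - u - 1)
  calc ∑ i ∈ range (ℓ - u), bG ℓ ^ (i + 1)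
      = ∑ i ∈ range (ℓ - u - 1 + 1), bG ℓ ^ (i + 1) := by rw [← h]
    _ = ∑ i ∈ range (ℓ - u - 1), bG ℓ ^ (i + 1) + bG ℓ ^ (ℓ - u - 1 + 1) := by
        rw [Finset.sum_range_succ]
    _ ≤ bG ℓ ^ (ℓ - u) + 2 * bG ℓ ^ (ℓ - u - 1) := by rw [← h]; omega

private theorem Key_ex_le (ℓ u j : ℕ) : ex ℓ u j ≤ 2 * bG ℓ ^ (ℓ - u) := by
  unfold ex
  split_ifs with h
  · exact le_rfl
  · exact (Nat.div_le_self _ _).trans ((Nat.sub_le _ _).trans (by omega))

private theorem Key_pow {ℓ u : ℕ} (hu : u < ℓ) :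
    bG ℓ ^ (ℓ - u) = bG ℓ * bG ℓ ^ (ℓ - u - 1) := by
  rw [← pow_succ']
  congr 1
  omega

/-- The main lower bound. -/
private theorem Key_big {ℓ u j : ℕ} (h : u + j < ℓ) :
    bG ℓ ^ (ℓ - u) + 2 * bG ℓ ^ (ℓ - u - 1) < ex ℓ u j * (j + 1) := by
  have hG := Key_G ℓ
  have hp := Key_pow (show u < ℓ by omega)
  set V := bG ℓ ^ (ℓ - u - 1) with hV
  have hV1 : 1 ≤ V := Nat.one_le_pow _ _ (by omega)
  unfold ex
  split_ifs with hj
  · subst hj
    rw [hp]
    nlinarith only [hG, hV1]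
  · have hj1 : 1 ≤ j := Nat.one_le_iff_ne_zero.mpr hj
    set W := bG ℓ ^ (ℓ - u) with hW
    set e := (W - 1) / j with he
    have h1 : W ≤ e * j + j := by
      have h2 := Nat.div_add_mod (W - 1) j
      have h3 := Nat.mod_lt (W - 1) hj1
      rw [← he] at h2
      have h4 : j * e = e * j := mul_comm _ _
      have h5 : 1 ≤ W := by rw [hp]; nlinarith only [hG, hV1]
      omega
    have hjl : j ≤ ℓ := by omega
    have h6 : j * j + j + 2 * j * V < W := by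
      rw [hp]
      unfold bG
      nlinarith only [h, hV1, hj1, hjl, Nat.mul_le_mul hjl hjl, Nat.mul_le_mul hjl hV1, Nat.zero_le (ℓ * V)]
    -- e > j + 2 V
    have h7 : j + 2 * V < e := by
      by_contra hc
      push Not at hc
      have : e * j ≤ (j + 2 * V) * j := Nat.mul_le_mul_right _ hc
      nlinarith only [h1, h6, this]
    nlinarith only [h1, h7]

private theorem Key_e_gt {ℓ u j : ℕ} (h : u + j < ℓ) : bG ℓ ^ (ℓ - u - 1) < ex ℓ u j := by
  have hG := Key_G ℓ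
  have h1 := Key_big h
  have hp := Key_pow (show u < ℓ by omega)
  set V := bG ℓ ^ (ℓ - u - 1) with hV
  have hV1 : 1 ≤ V := Nat.one_le_pow _ _ (by omega)
  by_contra hc
  push Not at hc
  have h2 : ex ℓ u j * (j + 1) ≤ V * (j + 1) := Nat.mul_le_mul_right _ hc
  have h3 : V * (j + 1) ≤ V * bG ℓ := by
    refine Nat.mul_le_mul_left _ ?_
    unfold bG
    nlinarith only [h]
  rw [hp] at h1
  nlinarith only [h1, hV1, h2, h3]

private theorem Key_low {ℓ u j : ℕ} (hj : 1 ≤ j) : ex ℓ u j * j < bG ℓ ^ (ℓ - u) := by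
  have hG := Key_G ℓ
  unfold ex
  rw [if_neg (by omega)]
  have h1 := Nat.div_mul_le_self (bG ℓ ^ (ℓ - u) - 1) j
  have h2 : 1 ≤ bG ℓ ^ (ℓ - u) := Nat.one_le_pow _ _ (by omega)
  omega

private theorem Key_dec {ℓ u j s t : ℕ} (h : u + j < ℓ) (hst : s < t) (ht : t ≤ u) :
    ex ℓ u j * t + kap ℓ t < ex ℓ u j * s + kap ℓ s := by
  have hG := Key_G ℓ
  have h1 := Key_step (show s < ℓ by omega)
  have h2 : kap ℓ t ≤ kap ℓ (s + 1) := Key_anti (by omega)
  have h3 := Key_ex_le ℓ u j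
  -- ex * (t - s) < G ^ (ℓ - s)
  have h4 : bG ℓ ^ (ℓ - u) * bG ℓ ≤ bG ℓ ^ (ℓ - s) := by
    rw [← pow_succ]
    exact Nat.pow_le_pow_right (by omega) (by omega)
  obtain ⟨k, hk⟩ : ∃ k, t = s + k := ⟨t - s, by omega⟩
  have h5 : 1 ≤ bG ℓ ^ (ℓ - u) := Nat.one_le_pow _ _ (by omega)
  have h6 : ex ℓ u j * k < bG ℓ ^ (ℓ - s) := by
    refine lt_of_lt_of_le ?_ h4
    have h7 : ex ℓ u j * k ≤ 2 * bG ℓ ^ (ℓ - u) * ℓ := Nat.mul_le_mul h3 (by omega)
    refine lt_of_le_of_lt h7 ?_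
    have h8 : 2 * ℓ < bG ℓ := by unfold bG; nlinarith only [h, hst, ht]
    calc 2 * bG ℓ ^ (ℓ - u) * ℓ = bG ℓ ^ (ℓ - u) * (2 * ℓ) := by ring
      _ < bG ℓ ^ (ℓ - u) * bG ℓ := Nat.mul_lt_mul_of_pos_left h8 h5
  rw [hk] at h2 ⊢
  rw [h1, Nat.mul_add]
  omega

private theorem Key_inc {ℓ u j s t : ℕ} (h : u + j < ℓ) (hs : u < s) (hst : s < t) (ht : t < ℓ) :
    ex ℓ u j * s + kap ℓ s < ex ℓ u j * t + kap ℓ t := by
  have hG := Key_G ℓ
  have he := Key_e_gt h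
  induction t, hst using Nat.le_induction with
  | base =>
    have h1 := Key_step (show s < ℓ by omega)
    have h2 : bG ℓ ^ (ℓ - s) ≤ bG ℓ ^ (ℓ - u - 1) :=
      Nat.pow_le_pow_right (by omega) (by omega)
    rw [h1]
    have h3 : ex ℓ u j * (s + 1) = ex ℓ u j * s + ex ℓ u j := by ring
    have h4 : s.succ = s + 1 := rfl
    rw [h4] at *
    omega
  | succ t hst ih =>
    have h0 := ih (by omega)
    have h1 := Key_step (show t < ℓ by omega)
    have h2 : bG ℓ ^ (ℓ - t) ≤ bG ℓ ^ (ℓ - u - 1) :=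
      Nat.pow_le_pow_right (by omega) (by omega)
    have h3 : ex ℓ u j * (t + 1) = ex ℓ u j * t + ex ℓ u j := by ring
    omega

private theorem Key_up {ℓ u j s t : ℕ} (h : u + j < ℓ) (hs : u ≤ s) (hsl : s < ℓ) (ht : t < u) :
    ex ℓ u j * s + kap ℓ s < ex ℓ u j * t + kap ℓ t := by
  have hG := Key_G ℓ
  have h1 := Key_step (show t < ℓ by omega)
  have h2 : kap ℓ s ≤ kap ℓ (t + 1) := Key_anti (by omega)
  have h3 := Key_ex_le ℓ u j
  have h4 : bG ℓ ^ (ℓ - u) * bG ℓ ≤ bG ℓ ^ (ℓ - t) := by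
    rw [← pow_succ]
    exact Nat.pow_le_pow_right (by omega) (by omega)
  have h5 : 1 ≤ bG ℓ ^ (ℓ - u) := Nat.one_le_pow _ _ (by omega)
  have h6 : ex ℓ u j * s < bG ℓ ^ (ℓ - t) := by
    refine lt_of_lt_of_le ?_ h4
    have h7 : ex ℓ u j * s ≤ 2 * bG ℓ ^ (ℓ - u) * ℓ := Nat.mul_le_mul h3 (by omega)
    refine lt_of_le_of_lt h7 ?_
    have h8 : 2 * ℓ < bG ℓ := by unfold bG; nlinarith only [h, ht]
    calc 2 * bG ℓ ^ (ℓ - u) * ℓ = bG ℓ ^ (ℓ - u) * (2 * ℓ) := by ring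
      _ < bG ℓ ^ (ℓ - u) * bG ℓ := Nat.mul_lt_mul_of_pos_left h8 h5
  rw [h1]
  omega

private theorem Key_mid_lt {ℓ u j s : ℕ} (h : u + j < ℓ) (hs : u < s) (hsj : s ≤ u + j) :
    ex ℓ u j * s + kap ℓ s < ex ℓ u j * u + kap ℓ u := by
  have h1 := Key_step (show u < ℓ by omega)
  have h2 : kap ℓ s ≤ kap ℓ (u + 1) := Key_anti (by omega)
  have h3 := Key_low (ℓ := ℓ) (u := u) (j := j) (by omega)
  have h4 : ex ℓ u j * s ≤ ex ℓ u j * (u + j) := Nat.mul_le_mul_left _ hsj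
  rw [Nat.mul_add] at h4
  rw [h1]
  omega

private theorem Key_mid_gt {ℓ u j t : ℕ} (h : u + j < ℓ) (ht : u + j < t) :
    ex ℓ u j * u + kap ℓ u < ex ℓ u j * t + kap ℓ t := by
  have h1 := Key_kap (show u < ℓ by omega)
  have h2 := Key_big h
  have h4 : ex ℓ u j * (u + (j + 1)) ≤ ex ℓ u j * t := Nat.mul_le_mul_left _ (by omega)
  rw [Nat.mul_add] at h4
  omega

/-- The keys are ordered as the ranks. -/
theorem key_lt {ℓ u j s t : ℕ} (h : u + j < ℓ) (hs : s < ℓ) (ht : t < ℓ)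
    (hr : rk ℓ u j s < rk ℓ u j t) :
    ex ℓ u j * s + kap ℓ s < ex ℓ u j * t + kap ℓ t := by
  unfold rk at hr
  by_cases hsu : s < u
  · rw [if_pos hsu] at hr
    by_cases htu : t < u
    · rw [if_pos htu] at hr
      exact Key_dec h (by omega) hsu.le
    · exfalso
      rw [if_neg htu] at hr
      split_ifs at hr <;> omega
  · by_cases htu : t < u
    · exact Key_up h (by omega) hs htu
    · rw [if_neg hsu, if_neg htu] at hr
      by_cases hs0 : s = u
      · subst hs0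
        rw [if_pos rfl] at hr
        by_cases ht0 : t = s
        · rw [if_pos ht0] at hr; omega
        · rw [if_neg ht0] at hr
          by_cases htj : t ≤ s + j
          · rw [if_pos htj] at hr; omega
          · exact Key_mid_gt h (by omega)
      · rw [if_neg hs0] at hr
        by_cases ht0 : t = u
        · subst ht0
          rw [if_pos rfl] at hr
          by_cases hsj : s ≤ t + j
          · exact Key_mid_lt h (by omega) hsj
          · rw [if_neg hsj] at hr; omega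
        · rw [if_neg ht0] at hr
          refine Key_inc h (by omega) ?_ ht
          split_ifs at hr <;> omega

end Pool.Agent.H18.Ta

end

section

/-!
# Module Layer: forms not involving a variable
-/

namespace Pool.Agent.H21.NX

open Finset MvPolynomial Pool.Agent.H18.Ex

/-- insertion of the value `c` at the coordinate `l` -/
private def lins {α : Type} {n : ℕ} (l : Fin (n + 1)) (c : α) (a : Fin n → α) : Fin (n + 1) → α :=
  l.insertNth (α := fun _ => α) c a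

private theorem lins_same {α : Type} {n : ℕ} (l : Fin (n + 1)) (c : α) (a : Fin n → α) :
    lins l c a l = c := by
  unfold lins
  simp

private theorem lins_succ {α : Type} {n : ℕ} (l : Fin (n + 1)) (c : α) (a : Fin n → α)
    (i : Fin n) : lins l c a (l.succAbove i) = a i := by
  unfold lins
  simp

private theorem lins_eta {α : Type} {n : ℕ} (l : Fin (n + 1)) (c : α) (a : Fin (n + 1) → α)
    (h : a l = c) : lins l c (fun i => a (l.succAbove i)) = a := by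
  funext i
  rcases Fin.eq_self_or_eq_succAbove l i with h1 | ⟨j, h1⟩
  · rw [h1, lins_same, h]
  · rw [h1, lins_succ]

private theorem lins_inj {α : Type} {n : ℕ} (l : Fin (n + 1)) (c : α) :
    Function.Injective (lins l c : (Fin n → α) → Fin (n + 1) → α) := by
  intro a b h
  funext i
  rw [← lins_succ l c a i, h, lins_succ]

private theorem lins_sum {n : ℕ} (l : Fin (n + 1)) (a : Fin n → ℕ) :
    ∑ i, lins l 0 a i = ∑ i, a i := by
  rw [Fin.sum_univ_succAbove _ l, lins_same, zero_add]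
  exact sum_congr rfl fun i _ => lins_succ l 0 a i

private theorem lins_tcr {n : ℕ} (l : Fin (n + 1)) (q : Fin n → ℂ) (a b : Fin n → ℕ) :
    tcr (lins l 1 q) (lins l 0 a) (lins l 0 b) = tcr q a b := by
  unfold tcr
  rw [Fin.prod_univ_succAbove _ l]
  simp only [lins_same, lins_succ]
  simp

/-- Forms not involving the variable `l`.  Positions: insert any value (say `1`) at the
coordinate `l` (`Fin.insertNth`).  For `a l = 0` the Taylor coefficients `tcr q a b` with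
`b l ≥ 1` are zero and those with `b l = 0` are the Taylor coefficients in the other variables
(`Fin.succAbove`, `Fin.prod_univ_succAbove`, `Fin.sum_univ_succAbove`). -/
theorem GI_layer {n σ : ℕ} {κ : Type} (l : Fin (n + 1)) (m : κ → ℕ)
    (h : GI (Sx (Fin n) σ) fun i => Kind.free (m i)) :
    GI ((Sx (Fin (n + 1)) σ).filter fun a => a l = 0) fun i => Kind.free (m i) := by
  obtain ⟨pos, hpos⟩ := h
  refine ⟨fun i => lins l 1 (pos i), fun f hf => ?_⟩
  have key : ∀ a ∈ Sx (Fin n) σ, f (lins l 0 a) = 0 := by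
    refine hpos (fun a => f (lins l 0 a)) fun i b hb => ?_
    have h1 := hf i (lins l 0 b) (by
      show ∑ j, lins l 0 b j < m i
      rw [lins_sum]
      exact hb)
    rw [← h1]
    refine sum_nbij (fun a => lins l 0 a) ?_ ?_ ?_ ?_
    · intro a ha
      rw [mem_filter, mem_Sx, lins_sum]
      exact ⟨mem_Sx.1 ha, lins_same _ _ _⟩
    · intro a _ a' _ haa
      exact lins_inj l 0 haa
    · intro a ha
      rw [mem_coe, mem_filter, mem_Sx] at ha
      refine ⟨fun j => a (l.succAbove j), ?_, lins_eta l 0 a ha.2⟩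
      rw [mem_coe, mem_Sx, ← ha.1, Fin.sum_univ_succAbove _ l, ha.2, zero_add]
    · intro a _
      show f (lins l 0 a) * tcr (pos i) a b =
        f (lins l 0 a) * tcr (lins l 1 (pos i)) (lins l 0 a) (lins l 0 b)
      rw [lins_tcr]
  intro a ha
  rw [mem_filter, mem_Sx] at ha
  have h2 := key (fun j => a (l.succAbove j)) (by
    rw [mem_Sx, ← ha.1, Fin.sum_univ_succAbove _ l, ha.2, zero_add])
  rwa [lins_eta l 0 a ha.2] at h2

end Pool.Agent.H21.NX

end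

section

/-!
# Module D7 (TB): the choice of the number of `X`-variables

Proof.  Let `z = ⌊log n / 8⌋`, `W = (M!)^2 * primorial z ≤ (M!)^2 * 4^z` (`primorial_le_4_pow`), which is
at most `n^(1/2)` for `n` large, and `a - 2 = W * y`, `y ∈ [y₁, y₂]` such that
`|2 a - n| ≤ ε n`; there are at least `c n / W ≥ c n^(1/2)` values of `y`.
`multichoose (a - 1) t = binom (a - 2 + t, t) = ∏_{i=1}^t (a - 2 + i) / i`.  If a prime `p ≤ z` or
`p ≤ M` divides `n - 2` then `(a - 2) / i` is divisible by `p` for all `1 ≤ i ≤ M` (as `W` is divisible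
by `i * p`), so `multichoose (a - 1) t ≡ 1 (mod p)`.  A prime `p > max(z, M)` dividing `n - 2` divides
`multichoose (a - 1) t`, `t ≤ M`, only if it divides one of the `a - 2 + i`, `1 ≤ i ≤ M`, that is, if
`y` is in one of at most `M` residue classes modulo `p` (`p` does not divide `W`).  The number of such
`y` in an interval of `Y` integers is at most `M (Y / p + 1)`; the number of primes `p > z` dividing
`n - 2` is at most `log n / log z`.  The total number of bad `y` is at most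
`M (log n / log z) (Y / z + 1)`, smaller than `Y` for `n` large since `z ≥ log n / 8 - 1`, that is
`log n / (z log z) → 0`, and `Y ≥ c n^(1/2)`.
-/

namespace Pool.Agent.H51.TB

private theorem Nt_small (M m p : ℕ) (hp : p.Prime) (h : ∀ i, 1 ≤ i → i ≤ M → i * p ∣ m) :
    ∀ t, t ≤ M → ¬ p ∣ Nat.choose (m + t) t := by
  intro t
  induction t with
  | zero =>
    intro _ hd
    rw [Nat.choose_zero_right] at hd
    exact hp.one_lt.ne' (Nat.dvd_one.1 hd)
  | succ t ih =>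
    intro ht hd
    obtain ⟨k, hk⟩ := h (t + 1) (by omega) ht
    have h1 : (m + t + 1) * Nat.choose (m + t) t = Nat.choose (m + t + 1) (t + 1) * (t + 1) :=
      Nat.add_one_mul_choose_eq (m + t) t
    have h2 : Nat.choose (m + t + 1) (t + 1) = (p * k + 1) * Nat.choose (m + t) t := by
      have h3 : (t + 1) * Nat.choose (m + t + 1) (t + 1) = (t + 1) * ((p * k + 1) * Nat.choose (m + t) t) := by
        rw [mul_comm (t + 1) (Nat.choose (m + t + 1) (t + 1)), ← h1, ← mul_assoc]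
        congr 1
        rw [add_assoc, hk]
        ring
      exact Nat.eq_of_mul_eq_mul_left (Nat.succ_pos t) h3
    rw [← add_assoc, h2] at hd
    rcases (Nat.Prime.dvd_mul hp).1 hd with h4 | h4
    · have h5 : p ∣ 1 := (Nat.dvd_add_right (Dvd.intro k rfl)).1 h4
      exact hp.one_lt.ne' (Nat.dvd_one.1 h5)
    · exact ih (by omega) h4

private theorem Nt_large (m p : ℕ) (hp : p.Prime) :
    ∀ t, p ∣ Nat.choose (m + t) t → ∃ i, 1 ≤ i ∧ i ≤ t ∧ p ∣ m + i := by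
  intro t
  induction t with
  | zero =>
    intro hd
    rw [Nat.choose_zero_right] at hd
    exact absurd (Nat.dvd_one.1 hd) hp.one_lt.ne'
  | succ t ih =>
    intro hd
    have h1 : (m + t + 1) * Nat.choose (m + t) t = Nat.choose (m + t + 1) (t + 1) * (t + 1) :=
      Nat.add_one_mul_choose_eq (m + t) t
    have h2 : p ∣ (m + t + 1) * Nat.choose (m + t) t := by
      rw [h1]
      exact Dvd.dvd.mul_right hd _
    rcases (Nat.Prime.dvd_mul hp).1 h2 with h3 | h3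
    · exact ⟨t + 1, by omega, le_refl _, h3⟩
    · obtain ⟨i, h4, h5, h6⟩ := ih h3
      exact ⟨i, h4, by omega, h6⟩

/-- the arithmetic core: among `z` consecutive `y` one is good -/
private theorem Nt_core (M N L z y₀ : ℕ) (hN : N ≠ 0) (hNL : N < 2 ^ (L + 1)) (hz : z = L / 8)
    (hzM : M ≤ z) (hz1 : 1 ≤ z) (hzB : 2 ^ (16 * (M + 1)) ≤ z) :
    ∃ y, y₀ ≤ y ∧ y < y₀ + z ∧ ∀ t, 1 ≤ t → t ≤ M →
      Nat.Coprime (Nat.choose (M.factorial * primorial z * y + t) t) N := by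
  classical
  set W := M.factorial * primorial z with hW
  by_contra hcon
  push Not at hcon
  set S := N.primeFactors.filter (fun p => z < p) with hS
  -- every `y` is bad
  have hbad : ∀ y ∈ Finset.Ico y₀ (y₀ + z), ∃ pi : ℕ × ℕ, pi ∈ S ×ˢ Finset.Icc 1 M ∧ pi.1 ∣ W * y + pi.2 := by
    intro y hy
    rw [Finset.mem_Ico] at hy
    obtain ⟨t, ht1, htM, hnc⟩ := hcon y hy.1 hy.2
    obtain ⟨p, hp, hpc, hpN⟩ := Nat.Prime.not_coprime_iff_dvd.1 hnc
    by_cases hpz : p ≤ z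
    · exfalso
      refine Nt_small M (W * y) p hp (fun i hi1 hiM => ?_) t htM hpc
      have h1 : i ∣ M.factorial := Nat.dvd_factorial hi1 hiM
      have h2 : p ∣ primorial z := hp.dvd_primorial_iff.2 hpz
      exact Dvd.dvd.mul_right (Nat.mul_dvd_mul h1 h2) y
    · obtain ⟨i, hi1, hit, hid⟩ := Nt_large (W * y) p hp t hpc
      refine ⟨(p, i), ?_, hid⟩
      rw [Finset.mem_product]
      refine ⟨?_, Finset.mem_Icc.2 ⟨hi1, hit.trans htM⟩⟩
      rw [hS, Finset.mem_filter]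
      exact ⟨Nat.mem_primeFactors.2 ⟨hp, hpN, hN⟩, not_le.1 hpz⟩
  choose! f hf1 hf2 using hbad
  -- counting
  have hcardS : 16 * (M + 1) * S.card ≤ L := by
    have h1 : (2 ^ (16 * (M + 1))) ^ S.card ≤ ∏ p ∈ S, p := by
      refine Finset.pow_card_le_prod S (fun p => p) _ (fun p hp => ?_)
      rw [hS, Finset.mem_filter] at hp
      exact hzB.trans hp.2.le
    have h2 : ∏ p ∈ S, p ≤ N := by
      refine Nat.le_of_dvd (Nat.pos_of_ne_zero hN) ?_
      refine Dvd.dvd.trans ?_ (Nat.prod_primeFactors_dvd N)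
      exact Finset.prod_dvd_prod_of_subset _ _ _ (Finset.filter_subset _ _)
    rw [← pow_mul] at h1
    have h3 : 2 ^ (16 * (M + 1) * S.card) < 2 ^ (L + 1) := lt_of_le_of_lt (h1.trans h2) hNL
    have h4 := (Nat.pow_lt_pow_iff_right (by norm_num : 1 < 2)).1 h3
    omega
  have hlt : (S ×ˢ Finset.Icc 1 M).card < (Finset.Ico y₀ (y₀ + z)).card := by
    rw [Finset.card_product, Nat.card_Icc, Nat.card_Ico]
    have h5 : 16 * (S.card * M) ≤ L := by
      refine le_trans ?_ hcardS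
      nlinarith [Nat.zero_le S.card]
    have h6 : S.card * (M + 1 - 1) = S.card * M := by rw [Nat.add_sub_cancel]
    rw [h6, Nat.add_sub_cancel_left]
    omega
  obtain ⟨y, hy, y', hy', hne, heq⟩ := Finset.exists_ne_map_eq_of_card_lt_of_maps_to hlt hf1
  -- two different `y` with the same pair
  have key : ∀ a b : ℕ, a ∈ Finset.Ico y₀ (y₀ + z) → b ∈ Finset.Ico y₀ (y₀ + z) → a < b → f a = f b → False := by
    intro a b ha hb hab hfab
    have h1 := hf2 a ha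
    have h2 := hf2 b hb
    have h3 := hf1 a ha
    rw [← hfab] at h2
    rw [Finset.mem_product, hS, Finset.mem_filter] at h3
    obtain ⟨⟨h4, h5⟩, -⟩ := h3
    have hp : (f a).1.Prime := (Nat.mem_primeFactors.1 h4).1
    rw [Finset.mem_Ico] at ha hb
    have h6 : (f a).1 ∣ W * (b - a) := by
      have h7 : W * b + (f a).2 = (W * a + (f a).2) + W * (b - a) := by
        have : b = a + (b - a) := by omega
        calc W * b + (f a).2 = W * (a + (b - a)) + (f a).2 := by rw [← this]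
          _ = _ := by ring
      rw [h7] at h2
      exact (Nat.dvd_add_right h1).1 h2
    rcases (Nat.Prime.dvd_mul hp).1 h6 with h8 | h8
    · rw [hW] at h8
      rcases (Nat.Prime.dvd_mul hp).1 h8 with h9 | h9
      · have := (Nat.Prime.dvd_factorial hp).1 h9
        omega
      · have := hp.dvd_primorial_iff.1 h9
        omega
    · have := Nat.le_of_dvd (by omega) h8
      omega
  rcases lt_or_gt_of_ne hne with h | h
  · exact key y y' hy hy' h heq
  · exact key y' y hy' hy h heq.symm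

theorem exists_coprime (M : ℕ) (ε : ℝ) (hε : 0 < ε) : ∃ n₀ : ℕ, ∀ n : ℕ, n₀ ≤ n →
    ∃ a : ℕ, 2 ≤ a ∧ a + 2 ≤ n ∧ |2 * (a : ℝ) - n| ≤ ε * n ∧
      ∀ t, 1 ≤ t → t ≤ M → Nat.Coprime (Nat.multichoose (a - 1) t) (n - 2) := by
  obtain ⟨F, hF⟩ : ∃ F, F = M.factorial := ⟨_, rfl⟩
  obtain ⟨n₁, hn₁⟩ := exists_nat_ge (((2 * (F : ℝ) + 4) / ε) ^ 2)
  refine ⟨n₁ + (2 * F) ^ 2 + 2 ^ (8 * 2 ^ (16 * (M + 1))) + 8, fun n hn => ?_⟩
  have hB1 : 1 ≤ 2 ^ (16 * (M + 1)) := Nat.one_le_two_pow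
  have hBM : M < 2 ^ (16 * (M + 1)) := lt_trans (by omega : M < 16 * (M + 1)) Nat.lt_two_pow_self
  have hall : n₁ ≤ n ∧ (2 * F) ^ 2 ≤ n ∧ 2 ^ (8 * 2 ^ (16 * (M + 1))) ≤ n ∧ 8 ≤ n := by
    generalize 2 ^ (8 * 2 ^ (16 * (M + 1))) = T at hn ⊢
    generalize (2 * F) ^ 2 = T' at hn ⊢
    omega
  obtain ⟨hn1', hnF, h2B, hn8⟩ := hall
  have hn0 : n ≠ 0 := by
    clear hn
    omega
  clear hn
  obtain ⟨B, hB⟩ : ∃ B, B = 2 ^ (16 * (M + 1)) := ⟨_, rfl⟩
  rw [← hB] at h2B hB1 hBM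
  obtain ⟨L, hL⟩ : ∃ L, L = Nat.log 2 n := ⟨_, rfl⟩
  obtain ⟨z, hz⟩ : ∃ z, z = L / 8 := ⟨_, rfl⟩
  have hLB : 8 * B ≤ L := by
    rw [hL]
    exact (Nat.le_log_iff_pow_le (by norm_num) hn0).2 h2B
  have hzB : B ≤ z := by omega
  have hz1 : 1 ≤ z := hB1.trans hzB
  have hzM : M ≤ z := hBM.le.trans hzB
  have hLn : 2 ^ L ≤ n := by
    rw [hL]
    exact Nat.pow_log_le_self 2 hn0
  have hLn' : n < 2 ^ (L + 1) := by
    rw [hL]
    exact Nat.lt_pow_succ_log_self (by norm_num) n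
  -- the size of `W`
  obtain ⟨W, hW⟩ : ∃ W, W = F * primorial z := ⟨_, rfl⟩
  have hF1 : 1 ≤ F := hF ▸ Nat.factorial_pos M
  have hW1 : 1 ≤ W := hW ▸ Nat.mul_pos hF1 (primorial_pos z)
  have h16 : (16 ^ z) ^ 2 ≤ n := by
    calc (16 ^ z) ^ 2 = 2 ^ (8 * z) := by
          rw [show (16 : ℕ) = 2 ^ 4 by norm_num, ← pow_mul, ← pow_mul]
          congr 1
          ring
      _ ≤ 2 ^ L := Nat.pow_le_pow_right (by norm_num) (by omega)
      _ ≤ n := hLn
  have hWz : W * (z + 1) ≤ F * 16 ^ z := by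
    have h1 : primorial z ≤ 4 ^ z := primorial_le_four_pow z
    have h2 : z + 1 ≤ 4 ^ z := Nat.lt_pow_self (by norm_num)
    calc W * (z + 1) = F * (primorial z * (z + 1)) := by rw [hW, mul_assoc]
      _ ≤ F * (4 ^ z * 4 ^ z) := Nat.mul_le_mul_left _ (Nat.mul_le_mul h1 h2)
      _ = F * 16 ^ z := by rw [← mul_pow]; norm_num
  -- real estimates
  have hsq : ((16 ^ z : ℕ) : ℝ) ≤ Real.sqrt n := by
    apply Real.le_sqrt_of_sq_le
    exact_mod_cast h16
  have hWzR : ((W * (z + 1) : ℕ) : ℝ) ≤ F * Real.sqrt n := by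
    calc ((W * (z + 1) : ℕ) : ℝ) ≤ ((F * 16 ^ z : ℕ) : ℝ) := by exact_mod_cast hWz
      _ = F * ((16 ^ z : ℕ) : ℝ) := by push_cast; ring
      _ ≤ F * Real.sqrt n := mul_le_mul_of_nonneg_left hsq (Nat.cast_nonneg F)
  have hnR : (0 : ℝ) < n := by exact_mod_cast Nat.pos_of_ne_zero hn0
  have hss : Real.sqrt n * Real.sqrt n = n := Real.mul_self_sqrt hnR.le
  have hs1 : (1 : ℝ) ≤ Real.sqrt n := by
    rw [Real.one_le_sqrt]
    exact_mod_cast (by omega : 1 ≤ n)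
  have hsE : (2 * (F : ℝ) + 4) / ε ≤ Real.sqrt n := by
    apply Real.le_sqrt_of_sq_le
    exact hn₁.trans (by exact_mod_cast hn1')
  have hsF : 2 * (F : ℝ) ≤ Real.sqrt n := by
    apply Real.le_sqrt_of_sq_le
    exact_mod_cast hnF
  have hEps : 2 * (F * Real.sqrt n) + 4 ≤ ε * n := by
    have h1 : 2 * (F : ℝ) + 4 ≤ ε * Real.sqrt n := by
      rw [div_le_iff₀ hε] at hsE
      linarith
    have h2 : (2 * (F : ℝ) + 4) * Real.sqrt n ≤ ε * Real.sqrt n * Real.sqrt n :=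
      mul_le_mul_of_nonneg_right h1 (Real.sqrt_nonneg _)
    rw [mul_assoc ε, hss] at h2
    have h4 : (2 * (F : ℝ) + 4) * Real.sqrt n = 2 * (F * Real.sqrt n) + 4 * Real.sqrt n := by ring
    linarith
  -- the interval
  obtain ⟨u, hu⟩ : ∃ u, u = n / (2 * W) := ⟨_, rfl⟩
  have hzu : z ≤ u := by
    rw [hu, Nat.le_div_iff_mul_le (by omega)]
    have h1 : ((z * (2 * W) : ℕ) : ℝ) ≤ (n : ℝ) := by
      have h2 : ((z * (2 * W) : ℕ) : ℝ) ≤ 2 * ((W * (z + 1) : ℕ) : ℝ) := by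
        have : z * (2 * W) ≤ 2 * (W * (z + 1)) := by
          have h5 : 2 * (W * (z + 1)) = z * (2 * W) + 2 * W := by ring
          rw [h5]
          exact Nat.le_add_right _ _
        exact_mod_cast this
      have h3 : 2 * (F : ℝ) * Real.sqrt n ≤ Real.sqrt n * Real.sqrt n :=
        mul_le_mul_of_nonneg_right hsF (Real.sqrt_nonneg _)
      rw [hss] at h3
      linarith
    exact_mod_cast h1
  obtain ⟨y, hy1, hy2, hy3⟩ := Nt_core M (n - 2) L z (u - z) (by omega)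
    (lt_of_le_of_lt (Nat.sub_le _ _) hLn') hz hzM hz1 (hB ▸ hzB)
  have hyu : y < u := by omega
  have hup : 2 * W * (y + 1) ≤ n := by
    calc 2 * W * (y + 1) ≤ 2 * W * u := Nat.mul_le_mul_left _ hyu
      _ ≤ n := hu ▸ Nat.mul_div_le n (2 * W)
  have hlo : n < 2 * W * (y + z + 1) := by
    have h1 : n < 2 * W * (u + 1) := by
      rw [hu]
      exact Nat.lt_mul_div_succ n (by omega : 0 < 2 * W)
    refine lt_of_lt_of_le h1 (Nat.mul_le_mul_left _ ?_)
    omega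
  refine ⟨W * y + 2, by omega, ?_, ?_, ?_⟩
  · have h1 : 2 * W * (y + 1) = 2 * (W * y) + 2 * W := by ring
    omega
  · have h1 : (2 : ℝ) * W * (y + 1) ≤ n := by exact_mod_cast hup
    have h2 : (n : ℝ) < 2 * W * (y + z + 1) := by exact_mod_cast hlo
    have h3 : (W : ℝ) * (z + 1) ≤ F * Real.sqrt n := by
      have := hWzR
      push_cast at this
      exact this
    have hW1R : (1 : ℝ) ≤ W := by exact_mod_cast hW1
    push_cast
    have h4 : (2 : ℝ) * W * (y + 1) = 2 * (W * y) + 2 * W := by ring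
    have h5 : (2 : ℝ) * W * (y + z + 1) = 2 * (W * y) + 2 * (W * (z + 1)) := by ring
    have h6 : (0 : ℝ) ≤ F * Real.sqrt n := mul_nonneg (Nat.cast_nonneg F) (Real.sqrt_nonneg _)
    rw [abs_le]
    constructor
    · linarith
    · linarith
  · intro t ht1 htM
    rw [Nat.multichoose_eq]
    have h1 : W * y + 2 - 1 + t - 1 = W * y + t := by omega
    rw [h1, hW, hF]
    exact hy3 t ht1 htM

end Pool.Agent.H51.TB

end

section

/-!
# V7: the numbers of one step, preparations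
-/

set_option autoImplicit false

namespace Pool.Agent.V7

open Finset

namespace NumStep

/-! ### Real numbers -/

/-- `h = c / m`, `q = 1 - h`. -/
theorem pow_ge {h : ℝ} (h1 : h ≤ 1) (d : ℕ) : 1 - d * h ≤ (1 - h) ^ d := by
  have := one_add_mul_le_pow (a := -h) (by linarith) d
  have e : (1 + -h) = 1 - h := by ring
  rw [e] at this
  linarith

theorem pow_le' {h : ℝ} (h0 : 0 ≤ h) (h1 : h ≤ 1) (d : ℕ) :
    (1 - h) ^ d ≤ 1 - d * h + (d : ℝ) ^ 2 * h ^ 2 := by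
  induction d with
  | zero => simp
  | succ d ih =>
    have h2 : 0 ≤ 1 - h := by linarith
    have h3 := mul_le_mul_of_nonneg_right ih h2
    rw [pow_succ]
    refine h3.trans ?_
    push_cast
    have hd : (0 : ℝ) ≤ d := Nat.cast_nonneg d
    have h5 : 0 ≤ (d : ℝ) * h ^ 2 := by positivity
    have h6 : 0 ≤ (d : ℝ) ^ 2 * h ^ 3 := by positivity
    have h7 : 0 ≤ h ^ 2 := by positivity
    nlinarith

/-- The setting: `m = n + c`, `1 / n ≤ δ ≤ 1`. -/
structure Set' (c n m : ℕ) (δ : ℝ) : Prop where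
  hc : 1 ≤ c
  hm : m = n + c
  hcn : c ≤ n
  hδ : 1 / (n : ℝ) ≤ δ
  hδ1 : δ ≤ 1

namespace Set'

variable {c n m : ℕ} {δ : ℝ} (S : Set' c n m δ)

include S

theorem n0 : (0 : ℝ) < n := by
  have := S.hc.trans S.hcn
  exact_mod_cast this

theorem m0 : (0 : ℝ) < m := by
  have h1 := S.hc
  have h2 := S.hm
  have : 0 < m := by omega
  exact_mod_cast this

theorem c0 : (0 : ℝ) < c := by
  have h1 := S.hc
  exact_mod_cast h1

theorem n1 : (1 : ℝ) ≤ n := by
  have := S.hc.trans S.hcn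
  exact_mod_cast this

theorem m1 : (1 : ℝ) ≤ m := by
  have h1 := S.hc
  have h2 := S.hm
  have : 1 ≤ m := by omega
  exact_mod_cast this

theorem nm : (n : ℝ) ≤ m := by
  have h2 := S.hm
  have : n ≤ m := by omega
  exact_mod_cast this

theorem mc : (m : ℝ) = n + c := by
  rw [S.hm]
  push_cast
  ring

theorem δ0 : 0 < δ := lt_of_lt_of_le (one_div_pos.2 S.n0) S.hδ

theorem mδ : 1 / (m : ℝ) ≤ δ := (one_div_le_one_div_of_le S.n0 S.nm).trans S.hδ

theorem mδ' : 1 ≤ δ * m := by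
  have h := S.mδ
  rw [div_le_iff₀ S.m0] at h
  exact h

theorem h0 : 0 ≤ (c : ℝ) / m := div_nonneg (Nat.cast_nonneg _) (Nat.cast_nonneg _)

theorem h1 : (c : ℝ) / m ≤ 1 := by
  rw [div_le_one S.m0, S.mc]
  linarith [S.n0]

theorem q_eq : (n : ℝ) / m = 1 - c / m := by
  have := S.m0
  rw [eq_sub_iff_add_eq, ← add_div, ← S.mc, div_self this.ne']

theorem q0 : 0 ≤ (n : ℝ) / m := div_nonneg (Nat.cast_nonneg _) (Nat.cast_nonneg _)

theorem q1 : (n : ℝ) / m ≤ 1 := by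
  rw [S.q_eq]
  linarith [S.h0]

theorem qm (d : ℕ) : ((n : ℝ) / m) ^ d * (m : ℝ) ^ d = (n : ℝ) ^ d := by
  rw [← mul_pow, div_mul_cancel₀ _ S.m0.ne']

theorem q_ge (d : ℕ) : 1 - d * (c / m : ℝ) ≤ ((n : ℝ) / m) ^ d := by
  rw [S.q_eq]
  exact pow_ge S.h1 d

theorem q_le (d : ℕ) : ((n : ℝ) / m) ^ d ≤ 1 - d * (c / m : ℝ) + (d : ℝ) ^ 2 * (c / m : ℝ) ^ 2 := by
  rw [S.q_eq]
  exact pow_le' S.h0 S.h1 d

theorem q_pow_le (d : ℕ) : ((n : ℝ) / m) ^ d ≤ 1 := pow_le_one₀ S.q0 S.q1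

theorem one_le_δW {e : ℕ} (he : 1 ≤ e) : 1 ≤ δ * (m : ℝ) ^ e := by
  have h1 : (m : ℝ) ≤ (m : ℝ) ^ e := by
    calc (m : ℝ) = (m : ℝ) ^ 1 := (pow_one _).symm
      _ ≤ (m : ℝ) ^ e := pow_le_pow_right₀ S.m1 he
  exact S.mδ'.trans (mul_le_mul_of_nonneg_left h1 S.δ0.le)

/-- the difference of the totals: nominal size of the next level -/
theorem diff {T T' ν ν₁ J : ℝ} {e E : ℕ} (he : 1 ≤ e) (hE : e + 1 ≤ E) (hJ : 0 ≤ J) (hν : 0 ≤ ν)
    (hν₁ : ν ≤ ν₁) (hT0 : 0 ≤ T)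
    (hT : |T - ν * (m : ℝ) ^ (e + 1)| ≤ δ * (m : ℝ) ^ (e + 1))
    (h1 : ((n : ℝ) / m) ^ (e + 1) * T - J ≤ T') (h2 : T' ≤ ((n : ℝ) / m) ^ (e + 1) * T) :
    |T - T' - ν * ((e + 1 : ℕ) : ℝ) * c * (m : ℝ) ^ e| ≤
      (J + (ν₁ + 1) * (E : ℝ) ^ 2 * (c : ℝ) ^ 2 + E * c) * δ * (m : ℝ) ^ e := by
  set W : ℝ := (m : ℝ) ^ e with hW
  have hm := S.m0
  have hW0 : 0 < W := pow_pos hm e
  have hmW : (m : ℝ) ^ (e + 1) = m * W := by rw [pow_succ]; ring
  rw [hmW] at hT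
  set d : ℝ := ((e + 1 : ℕ) : ℝ) with hd
  have hd0 : 0 ≤ d := Nat.cast_nonneg _
  have hdE : d ≤ E := Nat.cast_le.2 hE
  set h : ℝ := (c : ℝ) / m with hh
  have hhm : h * m = c := div_mul_cancel₀ _ hm.ne'
  have hh0 : 0 ≤ h := S.h0
  have hq1 := S.q_ge (e + 1)
  have hq2 := S.q_le (e + 1)
  set Q : ℝ := ((n : ℝ) / m) ^ (e + 1) with hQ
  obtain ⟨hTa, hTb⟩ := abs_le.1 hT
  have hc0 : (0 : ℝ) < c := S.c0
  have hE0 : (0 : ℝ) ≤ E := Nat.cast_nonneg _
  -- bounds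
  have b1 : T ≤ (ν₁ + 1) * (m * W) := by
    have : δ * (m * W) ≤ 1 * (m * W) := mul_le_mul_of_nonneg_right S.hδ1 (by positivity)
    have h3 : ν * (m * W) ≤ ν₁ * (m * W) := mul_le_mul_of_nonneg_right hν₁ (by positivity)
    linarith
  have b2 : T * (d * h) ≤ ν * d * c * W + E * c * δ * W := by
    have h3 : T ≤ ν * (m * W) + δ * (m * W) := by linarith
    have h4 : T * (d * h) ≤ (ν * (m * W) + δ * (m * W)) * (d * h) :=
      mul_le_mul_of_nonneg_right h3 (by positivity)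
    have h5 : (ν * (m * W) + δ * (m * W)) * (d * h) = ν * d * (h * m) * W + d * (h * m) * δ * W := by
      ring
    rw [h5, hhm] at h4
    have h6 : d * c * δ * W ≤ E * c * δ * W := by
      have := S.δ0
      gcongr
    linarith
  have b3 : ν * d * c * W - E * c * δ * W ≤ T * (d * h) := by
    have h3 : ν * (m * W) - δ * (m * W) ≤ T := by linarith
    have h4 : (ν * (m * W) - δ * (m * W)) * (d * h) ≤ T * (d * h) :=
      mul_le_mul_of_nonneg_right h3 (by positivity)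
    have h5 : (ν * (m * W) - δ * (m * W)) * (d * h) = ν * d * (h * m) * W - d * (h * m) * δ * W := by
      ring
    rw [h5, hhm] at h4
    have h6 : d * c * δ * W ≤ E * c * δ * W := by
      have := S.δ0
      gcongr
    linarith
  have b4 : T * (d ^ 2 * h ^ 2) ≤ (ν₁ + 1) * (E : ℝ) ^ 2 * (c : ℝ) ^ 2 * δ * W := by
    have hν₁0 : 0 ≤ ν₁ := hν.trans hν₁
    have h3 : T * (d ^ 2 * h ^ 2) ≤ ((ν₁ + 1) * (m * W)) * (d ^ 2 * h ^ 2) :=
      mul_le_mul_of_nonneg_right b1 (by positivity)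
    have h4 : ((ν₁ + 1) * (m * W)) * (d ^ 2 * h ^ 2) =
        (ν₁ + 1) * d ^ 2 * (h * m) * h * W := by ring
    rw [h4, hhm] at h3
    refine h3.trans ?_
    have h5 : h = c * (1 / m) := by rw [hh]; ring
    have h6 : h ≤ c * δ := by
      rw [h5]
      exact mul_le_mul_of_nonneg_left S.mδ hc0.le
    have h7 : d ^ 2 ≤ (E : ℝ) ^ 2 := pow_le_pow_left₀ hd0 hdE 2
    calc (ν₁ + 1) * d ^ 2 * c * h * W ≤ (ν₁ + 1) * (E : ℝ) ^ 2 * c * (c * δ) * W := by gcongr
      _ = (ν₁ + 1) * (E : ℝ) ^ 2 * (c : ℝ) ^ 2 * δ * W := by ring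
  have b5 : J ≤ J * δ * W := by
    have h3 := S.one_le_δW he
    rw [← hW] at h3
    calc J = J * 1 := (mul_one J).symm
      _ ≤ J * (δ * W) := mul_le_mul_of_nonneg_left h3 hJ
      _ = J * δ * W := by ring
  -- 1 - Q
  have c1 : T - T' ≤ T * (d * h) + J := by
    have h3 : T * (1 - d * h) ≤ T * Q := mul_le_mul_of_nonneg_left hq1 hT0
    have h4 : Q * T = T * Q := mul_comm _ _
    linarith
  have c2 : T * (d * h) - T * (d ^ 2 * h ^ 2) ≤ T - T' := by
    have h3 : T * Q ≤ T * (1 - d * h + d ^ 2 * h ^ 2) := mul_le_mul_of_nonneg_left hq2 hT0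
    have h4 : Q * T = T * Q := mul_comm _ _
    linarith
  have hsplit : (J + (ν₁ + 1) * (E : ℝ) ^ 2 * (c : ℝ) ^ 2 + E * c) * δ * W =
      J * δ * W + (ν₁ + 1) * (E : ℝ) ^ 2 * (c : ℝ) ^ 2 * δ * W + E * c * δ * W := by ring
  have hp1 : 0 ≤ (ν₁ + 1) * (E : ℝ) ^ 2 * (c : ℝ) ^ 2 * δ * W := by
    have := S.δ0
    have hν₁0 : 0 ≤ ν₁ := hν.trans hν₁
    positivity
  have hp2 : 0 ≤ J * δ * W := by
    have := S.δ0
    positivity
  rw [hsplit, abs_le]
  constructor <;> linarith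

/-- the totals of the trace: nominal size of the same level -/
theorem same {T T' ν ν₁ J : ℝ} {d E : ℕ} (hd : 1 ≤ d) (hE : d ≤ E) (hJ : 0 ≤ J) (hν : 0 ≤ ν)
    (hν₁ : ν ≤ ν₁) (hT0 : 0 ≤ T) (hT : |T - ν * (m : ℝ) ^ d| ≤ δ * (m : ℝ) ^ d)
    (h1 : ((n : ℝ) / m) ^ d * T - J ≤ T') (h2 : T' ≤ ((n : ℝ) / m) ^ d * T) :
    |T' - ν * (m : ℝ) ^ d| ≤ (J + (ν₁ + 1) * E * c + 1) * δ * (m : ℝ) ^ d := by
  set W : ℝ := (m : ℝ) ^ d with hW
  have hm := S.m0
  have hW0 : 0 < W := pow_pos hm d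
  have hd0 : (0 : ℝ) ≤ d := Nat.cast_nonneg _
  have hdE : (d : ℝ) ≤ E := by exact_mod_cast hE
  set h : ℝ := (c : ℝ) / m with hh
  have hh0 : 0 ≤ h := S.h0
  have hq1 := S.q_ge d
  have hq2 := S.q_pow_le d
  set Q : ℝ := ((n : ℝ) / m) ^ d with hQ
  obtain ⟨hTa, hTb⟩ := abs_le.1 hT
  have hc0 : (0 : ℝ) < c := S.c0
  have hν₁0 : 0 ≤ ν₁ := hν.trans hν₁
  have b1 : T ≤ (ν₁ + 1) * W := by
    have : δ * W ≤ 1 * W := mul_le_mul_of_nonneg_right S.hδ1 hW0.le
    have h3 : ν * W ≤ ν₁ * W := mul_le_mul_of_nonneg_right hν₁ hW0.le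
    linarith
  have h5 : h = c * (1 / m) := by rw [hh]; ring
  have h6 : h ≤ c * δ := by
    rw [h5]
    exact mul_le_mul_of_nonneg_left S.mδ hc0.le
  have b4 : T * (d * h) ≤ (ν₁ + 1) * E * c * δ * W := by
    have h3 : T * (d * h) ≤ ((ν₁ + 1) * W) * (d * h) :=
      mul_le_mul_of_nonneg_right b1 (by positivity)
    refine h3.trans ?_
    calc ((ν₁ + 1) * W) * (d * h) ≤ ((ν₁ + 1) * W) * (E * (c * δ)) := by gcongr
      _ = (ν₁ + 1) * E * c * δ * W := by ring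
  have b5 : J ≤ J * δ * W := by
    have h3 := S.one_le_δW hd
    rw [← hW] at h3
    calc J = J * 1 := (mul_one J).symm
      _ ≤ J * (δ * W) := mul_le_mul_of_nonneg_left h3 hJ
      _ = J * δ * W := by ring
  have c1 : T - T * (d * h) ≤ Q * T := by
    have h3 : T * (1 - d * h) ≤ T * Q := mul_le_mul_of_nonneg_left hq1 hT0
    have h4 : Q * T = T * Q := mul_comm _ _
    linarith
  have c2 : Q * T ≤ T := by
    have h3 : Q * T ≤ 1 * T := mul_le_mul_of_nonneg_right hq2 hT0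
    linarith
  have hsplit : (J + (ν₁ + 1) * E * c + 1) * δ * W =
      J * δ * W + (ν₁ + 1) * E * c * δ * W + δ * W := by ring
  have hp1 : 0 ≤ (ν₁ + 1) * E * c * δ * W := by
    have := S.δ0
    positivity
  have hp2 : 0 ≤ J * δ * W := by
    have := S.δ0
    positivity
  rw [hsplit, abs_le]
  constructor <;> linarith

/-- upper bounds for one kind: the residual part -/
theorem one_res {a a' b : ℝ} {e E : ℕ} (he : 1 ≤ e) (hE : e + 1 ≤ E) (ha : 0 ≤ a)
    (hab : a ≤ (b + δ) * (m : ℝ) ^ (e + 1))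
    (h1 : ((n : ℝ) / m) ^ (e + 1) * a - 1 ≤ a') :
    a - a' ≤ (b * ((e + 1 : ℕ) : ℝ) * c + (E * c + 1) * δ) * (m : ℝ) ^ e := by
  set W : ℝ := (m : ℝ) ^ e with hW
  have hm := S.m0
  have hW0 : 0 < W := pow_pos hm e
  have hmW : (m : ℝ) ^ (e + 1) = m * W := by rw [pow_succ]; ring
  rw [hmW] at hab
  set d : ℝ := ((e + 1 : ℕ) : ℝ) with hd
  have hd0 : 0 ≤ d := Nat.cast_nonneg _
  have hdE : d ≤ E := Nat.cast_le.2 hE
  set h : ℝ := (c : ℝ) / m with hh
  have hhm : h * m = c := div_mul_cancel₀ _ hm.ne'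
  have hh0 : 0 ≤ h := S.h0
  have hq1 := S.q_ge (e + 1)
  set Q : ℝ := ((n : ℝ) / m) ^ (e + 1) with hQ
  have hc0 : (0 : ℝ) < c := S.c0
  have c1 : a - a' ≤ a * (d * h) + 1 := by
    have h3 : a * (1 - d * h) ≤ a * Q := mul_le_mul_of_nonneg_left hq1 ha
    have h4 : Q * a = a * Q := mul_comm _ _
    linarith
  have c2 : a * (d * h) ≤ ((b + δ) * (m * W)) * (d * h) :=
    mul_le_mul_of_nonneg_right hab (by positivity)
  have c3 : ((b + δ) * (m * W)) * (d * h) = b * d * (h * m) * W + d * (h * m) * δ * W := by ring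
  rw [c3, hhm] at c2
  have c4 : d * c * δ * W ≤ E * c * δ * W := by
    have := S.δ0
    gcongr
  have c5 := S.one_le_δW he
  rw [← hW] at c5
  have c6 : (b * d * c + (E * c + 1) * δ) * W = b * d * c * W + E * c * δ * W + δ * W := by ring
  rw [c6]
  linarith

/-- upper bounds for one kind: the trace -/
theorem one_tr {a a' b : ℝ} {d : ℕ} (ha : 0 ≤ a) (hab : a ≤ (b + δ) * (m : ℝ) ^ d)
    (h2 : a' ≤ ((n : ℝ) / m) ^ d * a) : a' ≤ (b + δ) * (m : ℝ) ^ d := by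
  have hq2 := S.q_pow_le d
  have h3 : ((n : ℝ) / m) ^ d * a ≤ 1 * a := mul_le_mul_of_nonneg_right hq2 ha
  linarith

end Set'

end NumStep

end Pool.Agent.V7

end
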