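import Pool.Agent.H94.LP7.M02
import Pool.Agent.H94.LP7.M09
import Pool.Agent.H94.LP7.M104
import Pool.Agent.H94.LP7.M34

/-! The parts of this file: H51.TB.Cell, H51.TB.Bnd, H51.TB.Eul, H51.TB.URank, V7.ST.Bb. -/

section

/-!
# Module D8 (TB): all size classes occur on all levels

For `j + μ ≤ d` the cell `(j, μ - t)`: the rank of `j` is `ρ = μ - t`, and for a window
`[gy, d - gx] ∋ j` not containing all of `j + 1, …, j + ρ` one has `wr = d - gx - j`,
`gx + gy + wr ≥ d - j ≥ μ`, so `g ∉ Lam`; otherwise `wr = ρ`.  So `g ∈ Lam` iff `gy ≤ j`,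
`gx + j ≤ d` and `|g| < t`, at least for `g = (t - 1, 0)` (`t - 1 + j + ρ ≤ d`), and `g ∈ Lam` implies
`|g| < t`.

For `d < j + μ` (hence `μ ≤ j`) the cell `(j - ρ, 0)`, `ρ = μ - t`: the levels `j - ρ, …, j - 1` (those of
them in the window) are the ones before `j`; if `gy ≤ j - ρ` then `wr = ρ`, and if `gy > j - ρ` then
`wr = j - gy` and `gx + gy + wr ≥ j ≥ μ`, so `g ∉ Lam`.  The bidegree `g = (0, t - 1)` is in `Lam`:
`t - 1 ≤ j - ρ`.
-/

namespace Pool.Agent.H51.TB

open Finset Pool.Agent.H18.Ex Pool.Agent.H21.NX Pool.Agent.H18.Ta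

private theorem Cell_mem {d m j : ℕ} {c g : ℕ × ℕ} : g ∈ Lam d m c j ↔
    g.2 ≤ j ∧ j + g.1 ≤ d ∧ g.1 + g.2 + wr d c g j < m := by
  unfold Lam
  rw [mem_filter, mem_product, mem_range, mem_range]
  constructor
  · exact fun h => h.2
  · exact fun h => ⟨⟨by omega, by omega⟩, h⟩

/-- the class is determined by an upper bound and an element -/
private theorem Cell_cls {d m j t : ℕ} {c : ℕ × ℕ} (h1 : ∀ g ∈ Lam d m c j, g.1 + g.2 + 1 ≤ t)
    (h2 : ∃ g ∈ Lam d m c j, g.1 + g.2 + 1 = t) : cls d m c j = t := by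
  unfold cls
  apply le_antisymm
  · exact Finset.sup_le h1
  · obtain ⟨g, hg, he⟩ := h2
    rw [← he]
    exact Finset.le_sup (f := fun g : ℕ × ℕ => g.1 + g.2 + 1) hg

private theorem Cell_A {d μ j t : ℕ} (ht : 1 ≤ t) (htμ : t ≤ μ) (hA : j + μ ≤ d) :
    cls d μ (j, μ - t) j = t := by
  have hrk : rk (d + 1) j (μ - t) j = μ - t := by
    unfold rk
    rw [if_neg (lt_irrefl j), if_pos rfl]
  apply Cell_cls
  · intro g hg
    rw [Cell_mem] at hg
    obtain ⟨g1, g2, g3⟩ := hg
    have hwr : min (μ - t) (d - g.1 - j) ≤ wr d (j, μ - t) g j := by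
      have hsub : Finset.Ioc j (j + min (μ - t) (d - g.1 - j)) ⊆
          (range (d + 1)).filter fun i => g.2 ≤ i ∧ i + g.1 ≤ d ∧
            rk (d + 1) j (μ - t) i < rk (d + 1) j (μ - t) j := by
        intro i hi
        rw [Finset.mem_Ioc] at hi
        rw [mem_filter, mem_range, hrk]
        refine ⟨by omega, by omega, by omega, ?_⟩
        unfold rk
        split_ifs <;> omega
      have hc := card_le_card hsub
      rw [Nat.card_Ioc] at hc
      exact le_trans (by omega) hc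
    omega
  · refine ⟨(t - 1, 0), ?_, by simp only; omega⟩
    rw [Cell_mem]
    have hwr : wr d (j, μ - t) (t - 1, 0) j ≤ μ - t := by
      have hsub : ((range (d + 1)).filter fun i => 0 ≤ i ∧ i + (t - 1) ≤ d ∧
            rk (d + 1) j (μ - t) i < rk (d + 1) j (μ - t) j) ⊆ Finset.Ioc j (j + (μ - t)) := by
        intro i hi
        rw [mem_filter, mem_range, hrk] at hi
        obtain ⟨h1, _, _, h4⟩ := hi
        rw [Finset.mem_Ioc]
        unfold rk at h4
        split_ifs at h4 <;> omega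
      have hc := card_le_card hsub
      rw [Nat.card_Ioc] at hc
      exact le_trans hc (by omega)
    simp only
    omega

private theorem Cell_B {d μ j t : ℕ} (h2 : 2 * μ ≤ d) (hj : j ≤ d) (ht : 1 ≤ t) (htμ : t ≤ μ)
    (hB : d < j + μ) : cls d μ (j - (μ - t), 0) j = t := by
  have hrk : rk (d + 1) (j - (μ - t)) 0 j = μ - t := by
    unfold rk
    split_ifs <;> omega
  apply Cell_cls
  · intro g hg
    rw [Cell_mem] at hg
    obtain ⟨g1, g2, g3⟩ := hg
    have hwr : min (μ - t) (j - g.2) ≤ wr d (j - (μ - t), 0) g j := by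
      have hsub : Finset.Ico (j - min (μ - t) (j - g.2)) j ⊆
          (range (d + 1)).filter fun i => g.2 ≤ i ∧ i + g.1 ≤ d ∧
            rk (d + 1) (j - (μ - t)) 0 i < rk (d + 1) (j - (μ - t)) 0 j := by
        intro i hi
        rw [Finset.mem_Ico] at hi
        rw [mem_filter, mem_range, hrk]
        refine ⟨by omega, by omega, by omega, ?_⟩
        unfold rk
        split_ifs <;> omega
      have hc := card_le_card hsub
      rw [Nat.card_Ico] at hc
      exact le_trans (by omega) hc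
    omega
  · refine ⟨(0, t - 1), ?_, by simp only; omega⟩
    rw [Cell_mem]
    have hwr : wr d (j - (μ - t), 0) (0, t - 1) j ≤ μ - t := by
      have hsub : ((range (d + 1)).filter fun i => t - 1 ≤ i ∧ i + 0 ≤ d ∧
            rk (d + 1) (j - (μ - t)) 0 i < rk (d + 1) (j - (μ - t)) 0 j) ⊆
            Finset.Ico (j - (μ - t)) j := by
        intro i hi
        rw [mem_filter, mem_range, hrk] at hi
        obtain ⟨h1, _, _, h4⟩ := hi
        rw [Finset.mem_Ico]
        unfold rk at h4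
        split_ifs at h4 <;> omega
      have hc := card_le_card hsub
      rw [Nat.card_Ico] at hc
      exact le_trans hc (by omega)
    simp only
    omega

theorem cell {d μ j t : ℕ} (h2 : 2 * μ ≤ d) (hj : j ≤ d) (ht : 1 ≤ t) (htμ : t ≤ μ) :
    ∃ c ∈ KK d, c.2 ≤ μ ∧ cls d μ c j = t := by
  by_cases hA : j + μ ≤ d
  · refine ⟨(j, μ - t), ?_, by simp only; omega, Cell_A ht htμ hA⟩
    rw [mem_KK]
    simp only
    omega
  · refine ⟨(j - (μ - t), 0), ?_, Nat.zero_le _, Cell_B h2 hj ht htμ (by omega)⟩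
    rw [mem_KK]
    simp only
    omega

theorem cls_le {d m j : ℕ} (c : ℕ × ℕ) : cls d m c j ≤ m := by
  unfold cls
  apply Finset.sup_le
  intro g hg
  rw [Cell_mem] at hg
  omega

/-- A class is attained. -/
theorem cls_attained {d m j : ℕ} (c : ℕ × ℕ) (h : 1 ≤ cls d m c j) :
    ∃ g ∈ Lam d m c j, g.1 + g.2 + 1 = cls d m c j := by
  have hne : (Lam d m c j).Nonempty := by
    rw [Finset.nonempty_iff_ne_empty]
    intro h0
    unfold cls at h
    rw [h0, Finset.sup_empty] at h
    exact absurd h (by decide)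
  obtain ⟨g, hg, he⟩ := Finset.exists_mem_eq_sup (Lam d m c j) hne
    (fun g : ℕ × ℕ => g.1 + g.2 + 1)
  exact ⟨g, hg, he.symm⟩

end Pool.Agent.H51.TB

end

section

/-!
# Module D12 (TB): lower bounds for the masses

`Eg`: `asy` with `δ = 1 / 2^(d+1)` for the finitely many `g` with `|g| ≤ d`
(`binom (p+q, q) / 2^(p+q) ≥ 1 / 2^d`), so `κ = 1 / 2^(d+1)`.

`mass`: for a level `j` and `1 ≤ t ≤ μ` take the cell `x` of `cell` (`cls d μ x j = t`, `x.2 ≤ μ`).  The sum
is at least `c x * wt a b d μ x j ≥ c x * Eg a b g`, `g ∈ Lam d μ x j`, `|g| + 1 = t` (`cls_attained`),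
`≥ c x * κ₀ * ell (n - 1) t`, `n = a + b`, and `c x ≥ κ * ell (n - 1) (d + 1) / ell (n - 1) μ`.  For `t < μ` use
`grow_three` (with a large constant), for `t = μ` use `grow_big`.
-/

namespace Pool.Agent.H51.TB

open Finset Pool.Agent.H18.Ex Pool.Agent.H21.NX Pool.Agent.H18.Ta

theorem Eg_ge (d : ℕ) : ∃ κ : ℝ, 0 < κ ∧ ∃ ε : ℝ, 0 < ε ∧ ∃ n₀ : ℕ, ∀ a b : ℕ, 1 ≤ a → 1 ≤ b →
    n₀ ≤ a + b → |(a : ℝ) - b| ≤ ε * (a + b : ℕ) → ∀ g : ℕ × ℕ, g.1 + g.2 ≤ d →
    κ * (ell (a + b - 1) (g.1 + g.2 + 1) : ℝ) ≤ (Eg a b g : ℝ) := by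
  have hδ : (0 : ℝ) < 1 / 2 ^ (d + 1) := by positivity
  choose ε hε n0 h using fun p q : ℕ => asy p q (1 / 2 ^ (d + 1)) hδ
  obtain ⟨S, hS⟩ : ∃ S : Finset (ℕ × ℕ), S = range (d + 1) ×ˢ range (d + 1) := ⟨_, rfl⟩
  have hne : S.Nonempty := by
    rw [hS]
    exact ⟨(0, 0), by simp⟩
  refine ⟨1 / 2 ^ (d + 1), hδ, S.inf' hne fun x => ε x.1 x.2, ?_, S.sup fun x => n0 x.1 x.2, ?_⟩
  · rw [Finset.lt_inf'_iff]
    exact fun x _ => hε x.1 x.2
  · intro a b ha hb hn hab g hg
    have hgS : g ∈ S := by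
      rw [hS, mem_product, mem_range, mem_range]
      omega
    have h1 : n0 g.1 g.2 ≤ a + b := (Finset.le_sup (f := fun x : ℕ × ℕ => n0 x.1 x.2) hgS).trans hn
    have h2 : |(a : ℝ) - b| ≤ ε g.1 g.2 * (a + b : ℕ) := by
      refine hab.trans (mul_le_mul_of_nonneg_right ?_ (Nat.cast_nonneg _))
      exact Finset.inf'_le (fun x : ℕ × ℕ => ε x.1 x.2) hgS
    have h3 := h g.1 g.2 a b ha hb h1 h2
    have h4 := (abs_le.1 h3).1
    have h5 : (1 : ℝ) / 2 ^ d ≤ ((g.1 + g.2).choose g.2 : ℝ) / 2 ^ (g.1 + g.2) := by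
      have h6 : (1 : ℝ) ≤ ((g.1 + g.2).choose g.2 : ℝ) := by
        exact_mod_cast Nat.choose_pos (Nat.le_add_left g.2 g.1)
      have h7 : (2 : ℝ) ^ (g.1 + g.2) ≤ 2 ^ d := pow_le_pow_right₀ (by norm_num) hg
      have h8 : (0 : ℝ) < 2 ^ (g.1 + g.2) := by positivity
      calc (1 : ℝ) / 2 ^ d ≤ 1 / 2 ^ (g.1 + g.2) := one_div_le_one_div_of_le h8 h7
        _ ≤ ((g.1 + g.2).choose g.2 : ℝ) / 2 ^ (g.1 + g.2) := div_le_div_of_nonneg_right h6 h8.le
    have h6 : (1 : ℝ) / 2 ^ d = 2 * (1 / 2 ^ (d + 1)) := by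
      rw [pow_succ]
      field_simp
    have h7 : (0 : ℝ) ≤ (ell (a + b - 1) (g.1 + g.2 + 1) : ℝ) := Nat.cast_nonneg _
    have h8 := mul_le_mul_of_nonneg_right h5 h7
    have h9 : (Eg a b g : ℝ) = ((Nat.multichoose (a - 1) g.1 * Nat.multichoose (b - 1) g.2 : ℕ) : ℝ) := rfl
    rw [h9]
    rw [h6] at h8
    linarith

theorem mass (d : ℕ) (κ : ℝ) (hκ : 0 < κ) : ∃ ε : ℝ, 0 < ε ∧ ∃ n₀ : ℕ, ∀ a b : ℕ, 1 ≤ a → 1 ≤ b →
    n₀ ≤ a + b → |(a : ℝ) - b| ≤ ε * (a + b : ℕ) → ∀ M μ : ℕ, 1 ≤ μ → μ ≤ M → μ + M ≤ d →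
    ∀ c : ℕ × ℕ → ℕ,
    (∀ x ∈ KK d, x.2 ≤ μ →
      κ * (ell (a + b - 1) (d + 1) : ℝ) ≤ (c x : ℝ) * (ell (a + b - 1) μ : ℝ)) →
    (∀ j ≤ d, ∀ t, 1 ≤ t → t < μ → ell (a + b) (t + 1) * ell (a + b) M ≤
      ∑ x ∈ KK d, if cls d μ x j = t then c x * wt a b d μ x j else 0) ∧
    (∀ j ≤ d, ell (a + b) (d + 1 - M) * ell (a + b) M ≤
      ∑ x ∈ KK d, if cls d μ x j = μ then c x * wt a b d μ x j else 0) := by
  obtain ⟨κ₀, hκ₀, ε, hε, n1, hE⟩ := Eg_ge d
  obtain ⟨n2, h2⟩ := grow_three d (1 / (κ * κ₀))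
  obtain ⟨n3, h3⟩ := grow_big d (1 / (κ * κ₀))
  refine ⟨ε, hε, max n1 (max n2 n3), ?_⟩
  intro a b ha hb hn hab M μ hμ hμM hMd c hc
  have hn1 : n1 ≤ a + b := (le_max_left _ _).trans hn
  have hn2 : n2 ≤ a + b := ((le_max_left _ _).trans (le_max_right _ _)).trans hn
  have hn3 : n3 ≤ a + b := ((le_max_right _ _).trans (le_max_right _ _)).trans hn
  have hKK : 0 < κ * κ₀ := mul_pos hκ hκ₀
  have hkey : ∀ j ≤ d, ∀ t, 1 ≤ t → t ≤ μ → ∃ s : ℕ,
      s ≤ (∑ x ∈ KK d, if cls d μ x j = t then c x * wt a b d μ x j else 0) ∧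
      κ * κ₀ * ((ell (a + b - 1) t : ℝ) * ell (a + b - 1) (d + 1)) ≤ (s : ℝ) * (ell (a + b - 1) μ : ℝ) := by
    intro j hj t ht htμ
    obtain ⟨x, hx, hxμ, hxt⟩ := cell (d := d) (μ := μ) (j := j) (t := t) (by omega) hj ht htμ
    obtain ⟨g, hg, hgt⟩ := cls_attained (d := d) (m := μ) (j := j) x (by omega)
    refine ⟨c x * wt a b d μ x j, ?_, ?_⟩
    · have h4 := Finset.single_le_sum (f := fun x => if cls d μ x j = t then c x * wt a b d μ x j else 0)
        (fun y _ => Nat.zero_le _) hx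
      rw [if_pos hxt] at h4
      exact h4
    · have h4 : Eg a b g ≤ wt a b d μ x j :=
        Finset.single_le_sum (f := fun g => Eg a b g) (fun y _ => Nat.zero_le _) hg
      have h5 := hE a b ha hb hn1 hab g (by omega)
      rw [hgt, hxt] at h5
      have h6 := hc x hx hxμ
      have h7 : (Eg a b g : ℝ) ≤ (wt a b d μ x j : ℝ) := by exact_mod_cast h4
      have h8 : κ₀ * (ell (a + b - 1) t : ℝ) ≤ (wt a b d μ x j : ℝ) := h5.trans h7
      have h9 : 0 ≤ κ₀ * (ell (a + b - 1) t : ℝ) := by positivity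
      have h10 : (0 : ℝ) ≤ (c x : ℝ) * (ell (a + b - 1) μ : ℝ) := by positivity
      push_cast
      calc κ * κ₀ * ((ell (a + b - 1) t : ℝ) * ell (a + b - 1) (d + 1))
          = (κ * (ell (a + b - 1) (d + 1) : ℝ)) * (κ₀ * (ell (a + b - 1) t : ℝ)) := by ring
        _ ≤ ((c x : ℝ) * (ell (a + b - 1) μ : ℝ)) * (κ₀ * (ell (a + b - 1) t : ℝ)) :=
            mul_le_mul_of_nonneg_right h6 h9
        _ ≤ ((c x : ℝ) * (ell (a + b - 1) μ : ℝ)) * (wt a b d μ x j : ℝ) :=
            mul_le_mul_of_nonneg_left h8 h10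
        _ = (c x : ℝ) * (wt a b d μ x j : ℝ) * (ell (a + b - 1) μ : ℝ) := by ring
  have hμpos : (0 : ℝ) < (ell (a + b - 1) μ : ℝ) := by
    have h4 : 0 < ell (a + b - 1) μ := by
      unfold ell
      exact Nat.choose_pos (by omega)
    exact_mod_cast h4
  constructor
  · intro j hj t ht htμ
    obtain ⟨s, hs1, hs2⟩ := hkey j hj t ht htμ.le
    refine le_trans ?_ hs1
    have h4 := h2 (a + b) hn2 t M μ ht (by omega) hμ (by omega) (by omega)
    rw [one_div, inv_mul_le_iff₀ hKK] at h4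
    have h5 := h4.trans hs2
    have h6 : (ell (a + b) (t + 1) : ℝ) * ell (a + b) M ≤ s := le_of_mul_le_mul_right h5 hμpos
    exact_mod_cast h6
  · intro j hj
    obtain ⟨s, hs1, hs2⟩ := hkey j hj μ hμ le_rfl
    refine le_trans ?_ hs1
    have h4 := h3 (a + b) hn3 M (by omega) (by omega)
    rw [one_div, inv_mul_le_iff₀ hKK] at h4
    have h5 : κ * κ₀ * (ell (a + b - 1) (d + 1) : ℝ) ≤ s := by
      have h6 : κ * κ₀ * (ell (a + b - 1) (d + 1) : ℝ) * (ell (a + b - 1) μ : ℝ) ≤ s * (ell (a + b - 1) μ : ℝ) := by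
        calc κ * κ₀ * (ell (a + b - 1) (d + 1) : ℝ) * (ell (a + b - 1) μ : ℝ)
            = κ * κ₀ * ((ell (a + b - 1) μ : ℝ) * ell (a + b - 1) (d + 1)) := by ring
          _ ≤ _ := hs2
      exact le_of_mul_le_mul_right h6 hμpos
    have h6 := h4.trans h5
    exact_mod_cast h6

end Pool.Agent.H51.TB

end

section

/-!
# Module C1 (TB): the Euler relations
-/

namespace Pool.Agent.H51.TB

open Finset Pool.Agent.H18.Ex Pool.Agent.H21.NX Pool.Agent.H18.Ta

private theorem Eul_num {R : Type*} [CommRing R] (A B : ℕ) (x : R) :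
    ((B + 1 : ℕ) : R) * x * (((A.choose (B + 1) : ℕ) : R) * x ^ (A - (B + 1))) =
      ((A : R) - (B : R)) * (((A.choose B : ℕ) : R) * x ^ (A - B)) := by
  rcases lt_trichotomy B A with h | h | h
  · have h1 : A - B = (A - (B + 1)) + 1 := by omega
    have h2 := Nat.choose_succ_right_eq A B
    have h3 : ((A.choose (B + 1) : ℕ) : R) * ((B + 1 : ℕ) : R) = ((A.choose B : ℕ) : R) * ((A : R) - (B : R)) := by
      rw [← Nat.cast_sub h.le, ← Nat.cast_mul, ← Nat.cast_mul, h2]
    rw [h1, pow_succ]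
    calc ((B + 1 : ℕ) : R) * x * (((A.choose (B + 1) : ℕ) : R) * x ^ (A - (B + 1))) =
        (((A.choose (B + 1) : ℕ) : R) * ((B + 1 : ℕ) : R)) * (x ^ (A - (B + 1)) * x) := by ring
      _ = _ := by
        rw [h3]
        ring
  · subst h
    rw [Nat.choose_succ_self, Nat.cast_zero, zero_mul, mul_zero, sub_self, zero_mul]
  · rw [Nat.choose_eq_zero_of_lt h, Nat.choose_eq_zero_of_lt (h.trans (Nat.lt_succ_self B)), Nat.cast_zero]
    ring

private theorem Eul_one {ι : Type} [Fintype ι] [DecidableEq ι] {R : Type*} [CommRing R] (q : ι → R)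
    (α β : ι → ℕ) (l : ι) :
    ((β l + 1 : ℕ) : R) * q l * tcr q α (β + Pi.single l 1) = ((α l : R) - (β l : R)) * tcr q α β := by
  rw [tcr_eq q α (β + Pi.single l 1) l, tcr_eq q α β l]
  have h1 : (β + Pi.single l 1 : ι → ℕ) l = β l + 1 := by simp
  have h2 : ∏ i ∈ univ.erase l, (((α i).choose ((β + Pi.single l 1 : ι → ℕ) i) : ℕ) : R) *
      q i ^ (α i - (β + Pi.single l 1 : ι → ℕ) i) =
      ∏ i ∈ univ.erase l, (((α i).choose (β i) : ℕ) : R) * q i ^ (α i - β i) := by
    refine rest_congr (fun _ _ => rfl) (fun _ _ => rfl) (fun i hi => ?_)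
    rw [Pi.add_apply, Pi.single_eq_of_ne hi, Nat.add_zero]
  rw [h2, h1]
  have h3 := Eul_num (α l) (β l) (q l)
  linear_combination (∏ i ∈ univ.erase l, (((α i).choose (β i) : ℕ) : R) * q i ^ (α i - β i)) * h3

private theorem Eul_xd {a b : ℕ} (β : Z a b → ℕ) (i : Fin b) :
    xd (β + Pi.single (Sum.inr i) 1) = xd β := by
  unfold xd
  refine Finset.sum_congr rfl (fun k _ => ?_)
  rw [Pi.add_apply, Pi.single_eq_of_ne (by simp), Nat.add_zero]

private theorem Eul_yd {a b : ℕ} (β : Z a b → ℕ) (i : Fin b) :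
    yd (β + Pi.single (Sum.inr i) 1) = yd β + 1 := by
  unfold yd
  have h : ∀ k : Fin b, (β + Pi.single (Sum.inr i) 1 : Z a b → ℕ) (Sum.inr k) =
      β (Sum.inr k) + (Pi.single i 1 : Fin b → ℕ) k := by
    intro k
    rw [Pi.add_apply]
    congr 1
    by_cases hk : k = i
    · subst hk
      simp
    · rw [Pi.single_eq_of_ne hk, Pi.single_eq_of_ne (by
        intro h1
        exact hk (Sum.inr_injective h1))]
  rw [Finset.sum_congr rfl (fun k _ => h k), Finset.sum_add_distrib]
  congr 1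
  simp

private theorem Eul_zero {ι : Type} [Fintype ι] {R : Type*} [CommRing R] (q : ι → R)
    {α β : ι → ℕ} {l : ι} (h : α l < β l) : tcr q α β = 0 := by
  unfold tcr
  refine Finset.prod_eq_zero (mem_univ l) ?_
  rw [Nat.choose_eq_zero_of_lt h, Nat.cast_zero, zero_mul]

/-- The Euler relation in the `Y`-variables.  For each `i`,
`(β_i + 1) * binom(α_i, β_i + 1) * q_i^(α_i - β_i - 1) * q_i = (α_i - β_i) * binom(α_i, β_i) *
q_i^(α_i - β_i)` if `β_i < α_i`; if `β_i = α_i` both sides vanish; if `α_i < β_i` then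
`tcr q α β = 0` and `tcr q α (β + e_i) = 0`.  (If `β ≤ α` fails at another coordinate both
sides vanish as well.) -/
theorem euler {R : Type*} [CommRing R] {a b : ℕ} (q : Z a b → R) (α β : Z a b → ℕ) :
    ∑ i : Fin b, ((β (Sum.inr i) + 1 : ℕ) : R) * q (Sum.inr i) *
      tcr q α (β + Pi.single (Sum.inr i) 1) = ((yd α : ℕ) - (yd β : ℕ) : R) * tcr q α β := by
  have h1 : ∀ i : Fin b, ((β (Sum.inr i) + 1 : ℕ) : R) * q (Sum.inr i) *
      tcr q α (β + Pi.single (Sum.inr i) 1) =
      ((α (Sum.inr i) : R) - (β (Sum.inr i) : R)) * tcr q α β := fun i => Eul_one q α β (Sum.inr i)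
  rw [Finset.sum_congr rfl (fun i _ => h1 i), ← Finset.sum_mul, Finset.sum_sub_distrib]
  unfold yd
  push_cast
  rfl

/-- Let `T j β = ∑_{α on the level j} g α * tcr q α β` and suppose
`∑_{j ≤ d} w j * T j β = 0` for all `β` with `|β| < m`.  Then
`∑_{j ≤ d} (∏_{u ∈ S} (j - u)) * (w j * T j β) = 0` if `|β| + |S| < m`.

Induction on `S`: by `euler`,
`(j - u) * T j β = ∑_i (β_i + 1) q_i T j (β + e_i) + (yd β - u) * T j β`. -/
theorem weighted {R : Type*} [CommRing R] {a b d m : ℕ} (q : Z a b → R) (g : (Z a b → ℕ) → R)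
    (w : ℕ → R)
    (h : ∀ β : Z a b → ℕ, xd β + yd β < m →
      ∑ j ∈ range (d + 1), w j * ∑ α ∈ Bx a b d j, g α * tcr q α β = 0)
    (S : Finset ℕ) (β : Z a b → ℕ) (hβ : xd β + yd β + S.card < m) :
    ∑ j ∈ range (d + 1), (∏ u ∈ S, ((j : R) - (u : R))) *
      (w j * ∑ α ∈ Bx a b d j, g α * tcr q α β) = 0 := by
  induction S using Finset.induction_on generalizing β with
  | empty =>
    simp only [Finset.prod_empty, one_mul]
    refine h β ?_
    rw [Finset.card_empty] at hβ
    omega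
  | insert u S hu ih =>
    rw [Finset.card_insert_of_notMem hu] at hβ
    have h1 : ∀ j ∈ range (d + 1), (∏ u' ∈ insert u S, ((j : R) - (u' : R))) *
        (w j * ∑ α ∈ Bx a b d j, g α * tcr q α β) =
        (∑ i : Fin b, (((β (Sum.inr i) + 1 : ℕ) : R) * q (Sum.inr i)) *
          ((∏ u' ∈ S, ((j : R) - (u' : R))) *
            (w j * ∑ α ∈ Bx a b d j, g α * tcr q α (β + Pi.single (Sum.inr i) 1)))) +
        ((yd β : R) - (u : R)) * ((∏ u' ∈ S, ((j : R) - (u' : R))) *
            (w j * ∑ α ∈ Bx a b d j, g α * tcr q α β)) := by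
      intro j _
      rw [Finset.prod_insert hu]
      have h2 : ((j : R) - (u : R)) * ∑ α ∈ Bx a b d j, g α * tcr q α β =
          (∑ i : Fin b, (((β (Sum.inr i) + 1 : ℕ) : R) * q (Sum.inr i)) *
            ∑ α ∈ Bx a b d j, g α * tcr q α (β + Pi.single (Sum.inr i) 1)) +
          ((yd β : R) - (u : R)) * ∑ α ∈ Bx a b d j, g α * tcr q α β := by
        have h3 : ∑ i : Fin b, (((β (Sum.inr i) + 1 : ℕ) : R) * q (Sum.inr i)) *
            ∑ α ∈ Bx a b d j, g α * tcr q α (β + Pi.single (Sum.inr i) 1) =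
            ∑ α ∈ Bx a b d j, g α * (((j : R) - (yd β : R)) * tcr q α β) := by
          rw [Finset.sum_congr rfl (fun i _ => Finset.mul_sum _ _ _), Finset.sum_comm]
          refine Finset.sum_congr rfl (fun α hα => ?_)
          have h4 := euler q α β
          rw [(mem_Bx.1 hα).2] at h4
          rw [← h4, Finset.mul_sum]
          refine Finset.sum_congr rfl (fun i _ => ?_)
          ring
        rw [h3, Finset.mul_sum, Finset.mul_sum, ← Finset.sum_add_distrib]
        refine Finset.sum_congr rfl (fun α _ => ?_)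
        ring
      have h5 : ((j : R) - (u : R)) * (∏ u' ∈ S, ((j : R) - (u' : R))) *
          (w j * ∑ α ∈ Bx a b d j, g α * tcr q α β) =
          (∏ u' ∈ S, ((j : R) - (u' : R))) * w j *
            (((j : R) - (u : R)) * ∑ α ∈ Bx a b d j, g α * tcr q α β) := by ring
      rw [h5, h2, mul_add, Finset.mul_sum]
      congr 1
      · refine Finset.sum_congr rfl (fun i _ => ?_)
        ring
      · ring
    rw [Finset.sum_congr rfl h1, Finset.sum_add_distrib, Finset.sum_comm, ← Finset.mul_sum,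
      ih β (by omega), mul_zero, add_zero]
    refine Finset.sum_eq_zero (fun i _ => ?_)
    rw [← Finset.mul_sum, ih (β + Pi.single (Sum.inr i) 1) (by rw [Eul_xd, Eul_yd]; omega), mul_zero]

/-- On the level `j` the derivatives of bidegree `g` vanish unless `gy ≤ j` and `gx ≤ d - j`. -/
theorem tcr_zero {R : Type*} [CommRing R] {a b d j : ℕ} (q : Z a b → R) (α β : Z a b → ℕ)
    (hα : α ∈ Bx a b d j) (h : ¬ (yd β ≤ j ∧ j + xd β ≤ d)) : tcr q α β = 0 := by
  obtain ⟨h1, h2⟩ := mem_Bx.1 hα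
  have h3 : (∃ i : Fin b, α (Sum.inr i) < β (Sum.inr i)) ∨ ∃ i : Fin a, α (Sum.inl i) < β (Sum.inl i) := by
    by_contra hcon
    push Not at hcon
    obtain ⟨h4, h5⟩ := hcon
    have h6 : yd β ≤ yd α := Finset.sum_le_sum (fun i _ => h4 i)
    have h7 : xd β ≤ xd α := Finset.sum_le_sum (fun i _ => h5 i)
    exact h ⟨by omega, by omega⟩
  rcases h3 with ⟨i, hi⟩ | ⟨i, hi⟩
  · exact Eul_zero q hi
  · exact Eul_zero q hi

/-- Scaling of the `Y`-coordinates. -/
theorem tcr_scale {R : Type*} [CommRing R] {a b : ℕ} (x : Fin a → R) (y : Fin b → R) (s : R)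
    (α β : Z a b → ℕ) :
    s ^ yd β * tcr (Sum.elim x fun i => s * y i) α β = s ^ yd α * tcr (Sum.elim x y) α β := by
  unfold tcr
  rw [Fintype.prod_sum_type, Fintype.prod_sum_type]
  simp only [Sum.elim_inl, Sum.elim_inr]
  have h1 : s ^ yd β * ∏ i : Fin b, (((α (Sum.inr i)).choose (β (Sum.inr i)) : ℕ) : R) *
      (s * y i) ^ (α (Sum.inr i) - β (Sum.inr i)) =
      s ^ yd α * ∏ i : Fin b, (((α (Sum.inr i)).choose (β (Sum.inr i)) : ℕ) : R) *
      y i ^ (α (Sum.inr i) - β (Sum.inr i)) := by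
    unfold yd
    rw [← Finset.prod_pow_eq_pow_sum, ← Finset.prod_pow_eq_pow_sum, ← Finset.prod_mul_distrib,
      ← Finset.prod_mul_distrib]
    refine Finset.prod_congr rfl (fun i _ => ?_)
    by_cases hi : β (Sum.inr i) ≤ α (Sum.inr i)
    · obtain ⟨k, hk⟩ := Nat.exists_eq_add_of_le hi
      rw [hk, Nat.add_sub_cancel_left, mul_pow, pow_add]
      ring
    · rw [Nat.choose_eq_zero_of_lt (not_le.1 hi), Nat.cast_zero]
      ring
  calc _ = (∏ i : Fin a, (((α (Sum.inl i)).choose (β (Sum.inl i)) : ℕ) : R) *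
        x i ^ (α (Sum.inl i) - β (Sum.inl i))) *
        (s ^ yd β * ∏ i : Fin b, (((α (Sum.inr i)).choose (β (Sum.inr i)) : ℕ) : R) *
      (s * y i) ^ (α (Sum.inr i) - β (Sum.inr i))) := by ring
    _ = _ := by
      rw [h1]
      ring

end Pool.Agent.H51.TB

end

section

/-!
# Module U5 (TB2): membership, domination and sizes for `ASys`

As `LBas.mem_LV`, `LBas.dom_of_subset` and `LRank` (delivered, complete; the proofs can be copied).  For
`le_size_U` use the position `q` with `q = 1` at an `X`-variable `≠ o` and at the first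
`Y`-variable: the exponent determined by `β` (zero at these two variables, bidegree `g ∈ Λ`) has
`α_o = β_o ≤ g.1 ≤ e`, so it is in `Bu a b d j o e`.
-/

namespace Pool.Agent.H51.TB

open Finset MvPolynomial Pool.Agent.H18.Ex Pool.Agent.H21.NX Pool.Agent.H18.Ta

private theorem URank_eval {a b : ℕ} (q : Z a b → ℂ) (α β : Z a b → ℕ) :
    eval q (tcr (fun i => (X i : MvPolynomial (Z a b) ℂ)) α β) = tcr q α β := by
  unfold tcr
  rw [map_prod]
  refine prod_congr rfl fun i _ => ?_
  rw [map_mul, map_natCast, map_pow, eval_X]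

theorem mem_AV {a b : ℕ} (A : Finset (Z a b → ℕ)) {κ : Type} (m : κ → Finset (ℕ × ℕ))
    (p : κ → Z a b → ℂ) (f : {α // α ∈ A} → ℂ) :
    f ∈ (ASys A).V m p ↔ ∀ i (β : Z a b → ℕ), (xd β, yd β) ∈ m i →
      ∑ α : {α // α ∈ A}, tcr (p i) α.1 β * f α = 0 := by
  rw [Sys.mem_V]
  constructor
  · intro h i β hβ
    have h1 := h i ⟨β, hβ⟩
    refine Eq.trans (sum_congr rfl fun α _ => ?_) h1
    rw [← URank_eval (p i) α.1 β]
    rfl
  · intro h i r
    have h1 := h i r.1 r.2
    refine Eq.trans (sum_congr rfl fun α _ => ?_) h1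
    rw [← URank_eval (p i) α.1 r.1]
    rfl

theorem dom_A {a b : ℕ} (A : Finset (Z a b → ℕ)) {Λ Λ' : Finset (ℕ × ℕ)} (h : Λ ⊆ Λ') :
    (ASys A).Dom Λ' Λ := by
  intro q f hf
  rw [mem_AV] at hf ⊢
  exact fun i β hβ => hf i β (h hβ)

private theorem URank_card_Sx {ι : Type} [Fintype ι] [DecidableEq ι] (n : ℕ) :
    (Sx ι n).card = Nat.multichoose (Fintype.card ι) n := by
  rw [← card_univ, ← card_finsuppAntidiag_nat_eq_multichoose]
  symm
  apply card_bij (fun (α : ι →₀ ℕ) _ => (⇑α : ι → ℕ))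
  · intro α hα
    rw [mem_finsuppAntidiag] at hα
    exact mem_Sx.2 hα.1
  · intro α _ β _ h
    exact DFunLike.coe_injective h
  · intro f hf
    refine ⟨Finsupp.equivFunOnFinite.symm f, ?_, rfl⟩
    rw [mem_finsuppAntidiag]
    exact ⟨mem_Sx.1 hf, subset_univ _⟩

theorem size_le_A {a b : ℕ} (ha : 1 ≤ a) (A : Finset (Z a b → ℕ)) (Λ : Finset (ℕ × ℕ)) (t : ℕ)
    (hΛ : ∀ g ∈ Λ, g.1 + g.2 < t) : (ASys A).size Λ ≤ ell (a + b) t := by
  obtain ⟨p, hp⟩ := gd_attained (ASys A) (fun _ : Unit => Λ)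
  have : Finite {β : Z a b → ℕ // (xd β, yd β) ∈ Λ} := finite_idx a b Λ
  letI : Fintype {β : Z a b → ℕ // (xd β, yd β) ∈ Λ} := Fintype.ofFinite _
  -- the number of conditions
  have hcard : Fintype.card {β : Z a b → ℕ // (xd β, yd β) ∈ Λ} ≤ ell (a + b) t := by
    rcases Nat.eq_zero_or_pos t with rfl | ht
    · have : IsEmpty {β : Z a b → ℕ // (xd β, yd β) ∈ Λ} := ⟨fun β => by
        have := hΛ _ β.2
        omega⟩
      rw [Fintype.card_eq_zero]
      exact Nat.zero_le _
    · have hsum : ∀ β : Z a b → ℕ, ∑ z, β z = xd β + yd β := fun β => Fintype.sum_sum_type β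
      let ψ : {β : Z a b → ℕ // (xd β, yd β) ∈ Λ} → {x // x ∈ Sx (Option (Z a b)) (t - 1)} := fun β =>
        ⟨fun o => o.elim (t - 1 - ∑ z, β.1 z) β.1, by
          rw [mem_Sx, Fintype.sum_option]
          have h1 := hΛ _ β.2
          have h2 := hsum β.1
          simp only [Option.elim_none, Option.elim_some]
          omega⟩
      have hψ : Function.Injective ψ := by
        intro β γ h
        apply Subtype.ext
        funext z
        have h1 := congrArg Subtype.val h
        exact congrFun h1 (some z)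
      have h1 := Fintype.card_le_of_injective ψ hψ
      rw [Fintype.card_coe, URank_card_Sx, Fintype.card_option, Fintype.card_sum, Fintype.card_fin, Fintype.card_fin,
        Nat.multichoose_eq] at h1
      refine h1.trans (le_of_eq ?_)
      unfold ell
      have h2 : a + b + 1 + (t - 1) - 1 = (a + b) + (t - 1) := by omega
      have h3 : t + (a + b) - 1 = (a + b) + (t - 1) := by omega
      rw [h2, h3]
      exact (Nat.choose_symm_add (a := a + b) (b := t - 1)).symm
  -- the linear map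
  let L : ({α // α ∈ A} → ℂ) →ₗ[ℂ] ({β : Z a b → ℕ // (xd β, yd β) ∈ Λ} → ℂ) :=
    { toFun := fun f β => ∑ α : {α // α ∈ A}, tcr (p ()) α.1 β.1 * f α
      map_add' := by
        intro f g
        funext β
        simp only [Pi.add_apply, mul_add, sum_add_distrib]
      map_smul' := by
        intro c f
        funext β
        simp only [Pi.smul_apply, smul_eq_mul, RingHom.id_apply, mul_sum]
        exact sum_congr rfl fun α _ => by ring }
  have hker : LinearMap.ker L = (ASys A).V (fun _ : Unit => Λ) p := by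
    ext f
    rw [LinearMap.mem_ker, mem_AV]
    constructor
    · intro h i β hβ
      exact congrFun h ⟨β, hβ⟩
    · intro h
      funext β
      exact h () β.1 β.2
  have hrn := LinearMap.finrank_range_add_finrank_ker L
  rw [hker, hp, Module.finrank_fintype_fun_eq_card] at hrn
  have hr : Module.finrank ℂ (LinearMap.range L) ≤ Fintype.card {β : Z a b → ℕ // (xd β, yd β) ∈ Λ} := by
    have := Submodule.finrank_le (LinearMap.range L)
    rwa [Module.finrank_fintype_fun_eq_card] at this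
  unfold Sys.size
  omega

/-- the special variables -/
private def URank_sp {a b : ℕ} (c : Fin a) (c' : Fin b) : Z a b → Prop
  | Sum.inl i => i = c
  | Sum.inr i => i = c'

private instance {a b : ℕ} (c : Fin a) (c' : Fin b) : DecidablePred (URank_sp c c') := fun z => by
  rcases z with i | i <;> unfold URank_sp <;> infer_instance

/-- the special position -/
private noncomputable def URank_q {a b : ℕ} (c : Fin a) (c' : Fin b) (z : Z a b) : ℂ :=
  if URank_sp c c' z then 1 else 0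

/-- `α` with the special coordinates removed -/
private def URank_red {a b : ℕ} (c : Fin a) (c' : Fin b) (α : Z a b → ℕ) (z : Z a b) : ℕ :=
  if URank_sp c c' z then 0 else α z

private theorem URank_sp_inl {a b : ℕ} (c : Fin a) (c' : Fin b) : URank_sp c c' (Sum.inl c) := rfl

private theorem URank_sp_inr {a b : ℕ} (c : Fin a) (c' : Fin b) : URank_sp c c' (Sum.inr c') := rfl

private theorem URank_nsp_inl {a b : ℕ} (c : Fin a) (c' : Fin b) {i : Fin a} (h : i ≠ c) :
    ¬ URank_sp c c' (Sum.inl i) := h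

private theorem URank_nsp_inr {a b : ℕ} (c : Fin a) (c' : Fin b) {i : Fin b} (h : i ≠ c') :
    ¬ URank_sp c c' (Sum.inr i) := h

private theorem URank_xd' {a b : ℕ} (c : Fin a) (α : Z a b → ℕ) :
    xd α = α (Sum.inl c) + ∑ i : {i // i ≠ c}, α (Sum.inl i.1) := by
  unfold xd
  exact Fintype.sum_eq_add_sum_subtype_ne (fun i => α (Sum.inl i)) c

private theorem URank_yd' {a b : ℕ} (c' : Fin b) (α : Z a b → ℕ) :
    yd α = α (Sum.inr c') + ∑ i : {i // i ≠ c'}, α (Sum.inr i.1) := by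
  unfold yd
  exact Fintype.sum_eq_add_sum_subtype_ne (fun i => α (Sum.inr i)) c'

private theorem URank_xd_red {a b : ℕ} (c : Fin a) (c' : Fin b) (α : Z a b → ℕ) :
    xd (URank_red c c' α) = ∑ i : {i // i ≠ c}, α (Sum.inl i.1) := by
  rw [URank_xd' c]
  have h0 : URank_red c c' α (Sum.inl c) = 0 := by
    unfold URank_red
    rw [if_pos (URank_sp_inl c c')]
  rw [h0, Nat.zero_add]
  refine sum_congr rfl fun i _ => ?_
  unfold URank_red
  rw [if_neg (URank_nsp_inl c c' i.2)]

private theorem URank_yd_red {a b : ℕ} (c : Fin a) (c' : Fin b) (α : Z a b → ℕ) :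
    yd (URank_red c c' α) = ∑ i : {i // i ≠ c'}, α (Sum.inr i.1) := by
  rw [URank_yd' c']
  have h0 : URank_red c c' α (Sum.inr c') = 0 := by
    unfold URank_red
    rw [if_pos (URank_sp_inr c c')]
  rw [h0, Nat.zero_add]
  refine sum_congr rfl fun i _ => ?_
  unfold URank_red
  rw [if_neg (URank_nsp_inr c c' i.2)]

private theorem URank_xd {a b : ℕ} (c : Fin a) (c' : Fin b) (α : Z a b → ℕ) :
    xd α = α (Sum.inl c) + xd (URank_red c c' α) := by
  rw [URank_xd_red, URank_xd' c]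

private theorem URank_yd {a b : ℕ} (c : Fin a) (c' : Fin b) (α : Z a b → ℕ) :
    yd α = α (Sum.inr c') + yd (URank_red c c' α) := by
  rw [URank_yd_red, URank_yd' c']

private theorem URank_eq {a b d j : ℕ} (c : Fin a) (c' : Fin b) {α α' : Z a b → ℕ}
    (h : α ∈ Bx a b d j) (h' : α' ∈ Bx a b d j) (hr : URank_red c c' α = URank_red c c' α') :
    α = α' := by
  rw [mem_Bx] at h h'
  have hx := URank_xd c c' α
  have hx' := URank_xd c c' α'
  have hy := URank_yd c c' α
  have hy' := URank_yd c c' α'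
  rw [hr] at hx hy
  funext z
  by_cases hz : URank_sp c c' z
  · rcases z with i | i
    · have : i = c := hz
      subst this
      omega
    · have : i = c' := hz
      subst this
      omega
  · have := congrFun hr z
    unfold URank_red at this
    rwa [if_neg hz, if_neg hz] at this

private theorem URank_tcr {a b : ℕ} (c : Fin a) (c' : Fin b) (α β : Z a b → ℕ) :
    tcr (URank_q c c') α (URank_red c c' β) =
      if URank_red c c' α = URank_red c c' β then 1 else 0 := by
  unfold tcr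
  split_ifs with h
  · apply prod_eq_one
    intro z _
    have h1 := congrFun h z
    unfold URank_q
    by_cases hz : URank_sp c c' z
    · have h2 : URank_red c c' β z = 0 := by
        unfold URank_red
        rw [if_pos hz]
      rw [if_pos hz, h2]
      simp
    · have h2 : URank_red c c' α z = α z := by
        unfold URank_red
        rw [if_neg hz]
      rw [if_neg hz, ← h1, h2]
      simp
  · have h1 : ∃ z, URank_red c c' α z ≠ URank_red c c' β z := by
      by_contra hc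
      push Not at hc
      exact h (funext hc)
    obtain ⟨z, hz⟩ := h1
    apply prod_eq_zero (mem_univ z)
    have hsp : ¬ URank_sp c c' z := by
      intro hs
      apply hz
      unfold URank_red
      rw [if_pos hs, if_pos hs]
    have h2 : URank_red c c' α z = α z := by
      unfold URank_red
      rw [if_neg hsp]
    rw [h2] at hz
    unfold URank_q
    rw [if_neg hsp]
    rcases Nat.lt_or_gt_of_ne hz with h3 | h3
    · rw [Nat.choose_eq_zero_of_lt h3]
      simp
    · rw [zero_pow (by omega), mul_zero]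

/-- the exponents whose coefficients vanish -/
private def URank_T {a b : ℕ} (d j : ℕ) (o : Fin a) (e : ℕ) (c : Fin a) (c' : Fin b)
    (Λ : Finset (ℕ × ℕ)) : Finset (Z a b → ℕ) :=
  (Bu a b d j o e).filter fun α => (xd (URank_red c c' α), yd (URank_red c c' α)) ∈ Λ

/-- the exponent with given coordinates off the special variables -/
private def URank_ext {a b : ℕ} (c : Fin a) (c' : Fin b) (s s' : ℕ)
    (w : ({i : Fin a // i ≠ c} → ℕ) × ({i : Fin b // i ≠ c'} → ℕ)) : Z a b → ℕ
  | Sum.inl i => if h : i = c then s else w.1 ⟨i, h⟩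
  | Sum.inr i => if h : i = c' then s' else w.2 ⟨i, h⟩

private theorem URank_ext_inl {a b : ℕ} (c : Fin a) (c' : Fin b) (s s' : ℕ)
    (w : ({i : Fin a // i ≠ c} → ℕ) × ({i : Fin b // i ≠ c'} → ℕ)) (i : {i : Fin a // i ≠ c}) :
    URank_ext c c' s s' w (Sum.inl i.1) = w.1 i := by
  unfold URank_ext
  simp only
  rw [dif_neg i.2]

private theorem URank_ext_inr {a b : ℕ} (c : Fin a) (c' : Fin b) (s s' : ℕ)
    (w : ({i : Fin a // i ≠ c} → ℕ) × ({i : Fin b // i ≠ c'} → ℕ)) (i : {i : Fin b // i ≠ c'}) :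
    URank_ext c c' s s' w (Sum.inr i.1) = w.2 i := by
  unfold URank_ext
  simp only
  rw [dif_neg i.2]

private theorem URank_card_fib {a b d j : ℕ} (hj : j ≤ d) (o : Fin a) (e : ℕ) (c : Fin a)
    (c' : Fin b) (hoc : o ≠ c) (g : ℕ × ℕ) (hg : j + g.1 ≤ d ∧ g.2 ≤ j ∧ g.1 ≤ e) :
    Eg a b g ≤ ((Bu a b d j o e).filter fun α =>
      (xd (URank_red c c' α), yd (URank_red c c' α)) = g).card := by
  have h1 := URank_card_Sx (ι := {i : Fin a // i ≠ c}) g.1
  have h2 := URank_card_Sx (ι := {i : Fin b // i ≠ c'}) g.2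
  have h3 : Fintype.card {i : Fin a // i ≠ c} = a - 1 := by
    rw [Fintype.card_subtype_compl, Fintype.card_fin, Fintype.card_unique]
  have h4 : Fintype.card {i : Fin b // i ≠ c'} = b - 1 := by
    rw [Fintype.card_subtype_compl, Fintype.card_fin, Fintype.card_unique]
  rw [h3] at h1
  rw [h4] at h2
  unfold Eg
  rw [← h1, ← h2, ← card_product]
  apply card_le_card_of_injOn (URank_ext c c' (d - j - g.1) (j - g.2))
  · intro w hw
    rw [Finset.mem_coe, mem_product, mem_Sx, mem_Sx] at hw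
    rw [Finset.mem_coe, mem_filter]
    have e1 : xd (URank_red c c' (URank_ext c c' (d - j - g.1) (j - g.2) w)) = g.1 := by
      rw [URank_xd_red, ← hw.1]
      exact sum_congr rfl fun i _ => URank_ext_inl c c' _ _ w i
    have e2 : yd (URank_red c c' (URank_ext c c' (d - j - g.1) (j - g.2) w)) = g.2 := by
      rw [URank_yd_red, ← hw.2]
      exact sum_congr rfl fun i _ => URank_ext_inr c c' _ _ w i
    have e3 : URank_ext c c' (d - j - g.1) (j - g.2) w (Sum.inl c) = d - j - g.1 := by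
      unfold URank_ext
      simp
    have e4 : URank_ext c c' (d - j - g.1) (j - g.2) w (Sum.inr c') = j - g.2 := by
      unfold URank_ext
      simp
    have e5 : URank_ext c c' (d - j - g.1) (j - g.2) w (Sum.inl o) ≤ g.1 := by
      rw [URank_ext_inl c c' _ _ w ⟨o, hoc⟩, ← hw.1]
      exact single_le_sum (f := w.1) (fun i _ => Nat.zero_le _) (mem_univ _)
    have hx := URank_xd c c' (URank_ext c c' (d - j - g.1) (j - g.2) w)
    have hy := URank_yd c c' (URank_ext c c' (d - j - g.1) (j - g.2) w)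
    rw [e1, e3] at hx
    rw [e2, e4] at hy
    refine ⟨?_, by rw [e1, e2]⟩
    unfold Bu
    rw [mem_filter, mem_Bx]
    exact ⟨⟨by omega, by omega⟩, by omega⟩
  · intro w _ w' _ h
    ext i
    · have := congrFun h (Sum.inl i.1)
      rwa [URank_ext_inl, URank_ext_inl] at this
    · have := congrFun h (Sum.inr i.1)
      rwa [URank_ext_inr, URank_ext_inr] at this

private theorem URank_card_T {a b d j : ℕ} (hj : j ≤ d) (o : Fin a) (e : ℕ) (c : Fin a)
    (c' : Fin b) (hoc : o ≠ c) (Λ : Finset (ℕ × ℕ))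
    (hΛ : ∀ g ∈ Λ, j + g.1 ≤ d ∧ g.2 ≤ j ∧ g.1 ≤ e) :
    ∑ g ∈ Λ, Eg a b g ≤ (URank_T d j o e c c' Λ).card := by
  have h1 : (URank_T d j o e c c' Λ).card =
      ∑ g ∈ Λ, ((URank_T d j o e c c' Λ).filter fun α =>
        (xd (URank_red c c' α), yd (URank_red c c' α)) = g).card := by
    apply card_eq_sum_card_fiberwise
    intro α hα
    unfold URank_T at hα
    rw [Finset.mem_coe, mem_filter] at hα
    exact hα.2
  rw [h1]
  refine sum_le_sum fun g hg => ?_
  refine (URank_card_fib hj o e c c' hoc g (hΛ g hg)).trans (card_le_card ?_)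
  intro α hα
  rw [mem_filter] at hα
  unfold URank_T
  rw [mem_filter, mem_filter]
  exact ⟨⟨hα.1, by rw [hα.2]; exact hg⟩, hα.2⟩

theorem le_size_U {a b d j : ℕ} (ha : 2 ≤ a) (hb : 1 ≤ b) (hj : j ≤ d) (o : Fin a) (e : ℕ)
    (Λ : Finset (ℕ × ℕ)) (hΛ : ∀ g ∈ Λ, j + g.1 ≤ d ∧ g.2 ≤ j ∧ g.1 ≤ e) :
    ∑ g ∈ Λ, Eg a b g ≤ (ASys (Bu a b d j o e)).size Λ := by
  obtain ⟨c, hoc⟩ : ∃ c : Fin a, o ≠ c := by
    haveI : Nontrivial (Fin a) := Fin.nontrivial_iff_two_le.mpr ha
    obtain ⟨c, hc⟩ := exists_ne o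
    exact ⟨c, hc.symm⟩
  let c' : Fin b := ⟨0, by omega⟩
  refine (URank_card_T hj o e c c' hoc Λ hΛ).trans ?_
  let T : Finset {α // α ∈ Bu a b d j o e} := univ.filter fun α => α.1 ∈ URank_T d j o e c c' Λ
  have hT : T.card = (URank_T d j o e c c' Λ).card := by
    apply card_bij (fun (α : {α // α ∈ Bu a b d j o e}) _ => α.1)
    · intro α hα
      exact (mem_filter.1 hα).2
    · intro α _ β _ h
      exact Subtype.ext h
    · intro α hα
      have h1 : α ∈ Bu a b d j o e := by
        unfold URank_T at hα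
        exact (mem_filter.1 hα).1
      exact ⟨⟨α, h1⟩, mem_filter.2 ⟨mem_univ _, hα⟩, rfl⟩
  have hBx : ∀ α : {α // α ∈ Bu a b d j o e}, α.1 ∈ Bx a b d j := by
    intro α
    have h1 := α.2
    unfold Bu at h1
    exact (mem_filter.1 h1).1
  -- the solutions vanish on `T`
  have hvan : ∀ f ∈ (ASys (Bu a b d j o e)).V (fun _ : Unit => Λ) (fun _ => URank_q c c'),
      ∀ α ∈ T, f α = 0 := by
    intro f hf α hα
    rw [mem_AV] at hf
    have hα' : (xd (URank_red c c' α.1), yd (URank_red c c' α.1)) ∈ Λ := by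
      have := (mem_filter.1 hα).2
      unfold URank_T at this
      exact (mem_filter.1 this).2
    have h1 := hf () (URank_red c c' α.1) hα'
    rw [sum_eq_single α] at h1
    · rw [URank_tcr, if_pos rfl, one_mul] at h1
      exact h1
    · intro β _ hβ
      rw [URank_tcr, if_neg, zero_mul]
      intro h
      exact hβ (Subtype.ext (URank_eq c c' (hBx β) (hBx α) h))
    · intro h
      exact absurd (mem_univ α) h
  have hfin : Module.finrank ℂ ((ASys (Bu a b d j o e)).V (fun _ : Unit => Λ)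
      (fun _ => URank_q c c')) ≤ Fintype.card {α // α ∈ Bu a b d j o e} - T.card := by
    let φ : (ASys (Bu a b d j o e)).V (fun _ : Unit => Λ) (fun _ => URank_q c c') →ₗ[ℂ]
        ({α // α ∉ T} → ℂ) :=
      (LinearMap.funLeft ℂ ℂ (fun α : {α // α ∉ T} => α.1)).comp (Submodule.subtype _)
    have hφ : Function.Injective φ := by
      rw [← LinearMap.ker_eq_bot, LinearMap.ker_eq_bot']
      intro f hf
      apply Subtype.ext
      funext α
      by_cases hα : α ∈ T
      · exact hvan f.1 f.2 α hα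
      · exact congrFun hf ⟨α, hα⟩
    have h1 := LinearMap.finrank_le_finrank_of_injective hφ
    rw [Module.finrank_fintype_fun_eq_card] at h1
    have h2 : Fintype.card {α // α ∉ T} = Fintype.card {α // α ∈ Bu a b d j o e} - T.card := by
      rw [Fintype.card_subtype_compl, Fintype.card_coe, Fintype.card_coe]
    rw [h2] at h1
    exact h1
  have hgd := gd_le (ASys (Bu a b d j o e)) (fun _ : Unit => Λ) (fun _ => URank_q c c')
  have hc : T.card ≤ Fintype.card {α // α ∈ Bu a b d j o e} := card_le_univ T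
  unfold Sys.size
  omega

end Pool.Agent.H51.TB

end

section

/-!
# V7, block STEP: the numbers `bb`
-/

set_option autoImplicit false

namespace Pool.Agent.V7.ST

open Finset Pool.Agent.H54.V7

theorem bb_eq (c k j n : ℕ) : bb c k j n = bbc c k j n := by
  induction j generalizing n with
  | zero => exact Nat.multichoose_eq n k
  | succ j ih =>
    show bb c k j n - bb c k j (n - c) = bbc c k j n - bbc c k j (n - c)
    rw [ih, ih]

/-- The coordinates of the block `i`. -/
def bk (c n i : ℕ) : Finset (Fin n) := univ.filter fun s => blk c n s = i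

theorem mem_bk {c n i : ℕ} {s : Fin n} : s ∈ bk c n i ↔ s.1 / c = i := by
  unfold bk
  rw [mem_filter]
  exact ⟨fun h => h.2, fun h => ⟨mem_univ s, h⟩⟩

theorem card_bk {c n i : ℕ} (hc : 0 < c) (h : (i + 1) * c ≤ n) : (bk c n i).card = c := by
  have h1 : (bk c n i).map Fin.valEmbedding = Ico (i * c) ((i + 1) * c) := by
    ext x
    rw [mem_map, mem_Ico]
    constructor
    · rintro ⟨s, hs, rfl⟩
      rw [mem_bk] at hs
      show i * c ≤ s.1 ∧ s.1 < (i + 1) * c
      rw [← hs]
      exact ⟨Nat.div_mul_le_self _ _, by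
        rw [mul_comm]
        exact Nat.lt_mul_div_succ _ hc⟩
    · rintro ⟨h2, h3⟩
      refine ⟨⟨x, by omega⟩, ?_, rfl⟩
      rw [mem_bk]
      show x / c = i
      refine Nat.div_eq_of_lt_le ?_ ?_
      · rw [mul_comm] at h2 ⊢
        linarith
      · rw [mul_comm] at h3 ⊢
        linarith
  rw [← card_map, h1, Nat.card_Ico, add_mul, one_mul, Nat.add_sub_cancel_left]

theorem bk_disj {c n i k : ℕ} (h : i ≠ k) : Disjoint (bk c n i) (bk c n k) := by
  rw [disjoint_left]
  intro s hs hs'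
  rw [mem_bk] at hs hs'
  exact h (hs.symm.trans hs')

/-- The first `n'` coordinates. -/
def fst (n n' : ℕ) : Finset (Fin n) := univ.filter fun s => s.1 < n'

theorem card_fst {n n' : ℕ} (h : n' ≤ n) : (fst n n').card = n' := by
  have h1 : (fst n n').map Fin.valEmbedding = range n' := by
    ext x
    rw [mem_map, mem_range]
    constructor
    · rintro ⟨s, hs, rfl⟩
      unfold fst at hs
      rw [mem_filter] at hs
      exact hs.2
    · intro h2
      exact ⟨⟨x, by omega⟩, by unfold fst; rw [mem_filter]; exact ⟨mem_univ _, h2⟩, rfl⟩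
  rw [← card_map, h1, card_range]

/-- `bb` is the number of exponents in the first `n'` of `n` variables. -/
theorem card_fst_mset {c n n' : ℕ} (hc : 0 < c) (k : ℕ) (I : Finset ℕ)
    (h : ∀ i ∈ I, (i + 1) * c ≤ n') (h' : n' ≤ n) :
    (mset (bk c n) (fst n n') I k).card = bb c k I.card n' := by
  rw [bb_eq, card_mset (bk c n) c k I (fst n n') ?_ ?_, card_fst h']
  · intro i hi
    refine ⟨fun s hs => ?_, card_bk hc ((h i hi).trans h')⟩
    rw [mem_bk] at hs
    unfold fst
    rw [mem_filter]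
    refine ⟨mem_univ _, ?_⟩
    have h1 := h i hi
    rw [← hs] at h1
    have h2 : s.1 < (s.1 / c + 1) * c := by
      rw [mul_comm]
      exact Nat.lt_mul_div_succ _ hc
    omega
  · intro i _ k _ hik
    exact bk_disj hik

theorem card_mset_bb {c n : ℕ} (hc : 0 < c) (k : ℕ) (I : Finset ℕ)
    (h : ∀ i ∈ I, (i + 1) * c ≤ n) : (mset (bk c n) univ I k).card = bb c k I.card n := by
  rw [← card_fst_mset hc k I h le_rfl]
  congr 2
  ext s
  unfold fst
  rw [mem_filter]
  exact ⟨fun h => ⟨h, s.2⟩, fun h => h.1⟩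

theorem Ex_eq_mset (c n k j : ℕ) : Ex (blk c n) k j = mset (bk c n) univ (range j) k := by
  ext a
  rw [mem_Ex, mem_mset]
  constructor
  · rintro ⟨h1, h2⟩
    refine ⟨⟨h1, fun x _ => mem_univ x⟩, fun i hi h3 => ?_⟩
    obtain ⟨s, hs, hs'⟩ := h2 i (mem_range.1 hi)
    exact hs' (h3 s (mem_bk.2 hs))
  · rintro ⟨⟨h1, -⟩, h2⟩
    refine ⟨h1, fun i hi => ?_⟩
    have h3 := h2 i (mem_range.2 hi)
    push Not at h3
    obtain ⟨s, hs, hs'⟩ := h3
    exact ⟨s, mem_bk.1 hs, hs'⟩

theorem card_Ex {c n j : ℕ} (hc : 0 < c) (k : ℕ) (h : j * c ≤ n) :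
    (Ex (blk c n) k j).card = bb c k j n := by
  rw [Ex_eq_mset, card_mset_bb hc k (range j), card_range]
  intro i hi
  rw [mem_range] at hi
  exact (Nat.mul_le_mul_right c hi).trans h

theorem bb_mono {c j n n' : ℕ} (hc : 0 < c) (k : ℕ) (h : j * c ≤ n') (h' : n' ≤ n) :
    bb c k j n' ≤ bb c k j n := by
  have h1 : ∀ i ∈ range j, (i + 1) * c ≤ n' := by
    intro i hi
    rw [mem_range] at hi
    exact (Nat.mul_le_mul_right c hi).trans h
  have h2 := card_fst_mset hc k (range j) h1 h'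
  have h3 := card_mset_bb hc k (range j) fun i hi => (h1 i hi).trans h'
  rw [card_range] at h2 h3
  rw [← h2, ← h3]
  exact card_le_card (mset_mono _ (subset_univ _) _ _)

theorem bb_succ_add {c j n : ℕ} (hc : 0 < c) (k : ℕ) (h : (j + 1) * c ≤ n) :
    bb c k (j + 1) n + bb c k j (n - c) = bb c k j n := by
  have h1 : bb c k j (n - c) ≤ bb c k j n := by
    refine bb_mono hc k ?_ (Nat.sub_le _ _)
    rw [add_mul, one_mul] at h
    omega
  show bb c k j n - bb c k j (n - c) + bb c k j (n - c) = bb c k j n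
  exact Nat.sub_add_cancel h1

theorem bb_pos {c j n : ℕ} (hc : 0 < c) (k : ℕ) (hk : j ≤ k) (h : j * c + 1 ≤ n) :
    0 < bb c k j n := by
  rw [← card_Ex hc k (by omega), card_pos]
  have hlt : ∀ i, i ≤ j → i * c < n := by
    intro i hi
    have := Nat.mul_le_mul_right c hi
    omega
  refine ⟨fun x => (∑ i ∈ range j, if x.1 = i * c then 1 else 0) +
    if x.1 = j * c then k - j else 0, mem_Ex.2 ⟨?_, fun i hi => ?_⟩⟩
  · rw [sum_add_distrib, sum_comm]
    have h1 : ∀ i ∈ range j, ∑ x : Fin n, (if x.1 = i * c then 1 else 0) = 1 := by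
      intro i hi
      rw [mem_range] at hi
      rw [sum_eq_single (⟨i * c, hlt i hi.le⟩ : Fin n)]
      · exact if_pos rfl
      · intro x _ hx
        exact if_neg fun h2 => hx (Fin.ext h2)
      · intro h2
        exact absurd (mem_univ _) h2
    rw [sum_congr rfl h1, sum_const, card_range, smul_eq_mul, mul_one,
      sum_eq_single (⟨j * c, hlt j le_rfl⟩ : Fin n)]
    · rw [if_pos rfl]
      omega
    · intro x _ hx
      exact if_neg fun h2 => hx (Fin.ext h2)
    · intro h2
      exact absurd (mem_univ _) h2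
  · refine ⟨⟨i * c, hlt i hi.le⟩, Nat.mul_div_cancel i hc, ?_⟩
    have h1 : (1 : ℕ) ≤ ∑ i' ∈ range j, if i * c = i' * c then 1 else 0 := by
      refine le_trans ?_ (single_le_sum (f := fun i' => if i * c = i' * c then 1 else 0)
        (fun _ _ => Nat.zero_le _) (mem_range.2 hi))
      rw [if_pos rfl]
    show (∑ i' ∈ range j, if i * c = i' * c then 1 else 0) + (if i * c = j * c then k - j else 0) ≠ 0
    omega

/-- The block `j` does not contain the point. -/
def Off (j : ℕ) : Kd → Prop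
  | .ord _ I => j ∉ I
  | .sw _ I => j ∉ I

theorem Off.of_ok {M j : ℕ} {k : Kd} (h : k.Ok M j) : Off j k := by
  rcases k with ⟨μ, I⟩ | ⟨i, I⟩
  · intro h1
    exact absurd (mem_range.1 (h.2.2 h1)) (lt_irrefl j)
  · intro h1
    exact absurd (mem_Ico.1 (h.2 h1)).2 (lt_irrefl j)

theorem card_le_of_ok {M j μ : ℕ} {I : Finset ℕ} (h : (Kd.ord μ I).Ok M j) : I.card ≤ j := by
  have h1 := card_le_card h.2.2
  rwa [card_range] at h1

theorem card_le_of_ok' {M j i : ℕ} {I : Finset ℕ} (h : (Kd.sw i I).Ok M j) : I.card + 1 ≤ j := by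
  have h1 := card_le_card h.2
  rw [Nat.card_Ico] at h1
  have h2 := h.1
  omega

theorem wt_add {M c j n : ℕ} (hc : 0 < c) (hn : (j + 1) * c + 1 ≤ n) {k : Kd} (h : k.Ok M j) :
    wt M c n (k.add j) + wt M c (n - c) k = wt M c n k := by
  have hoff := Off.of_ok h
  rcases k with ⟨μ, I⟩ | ⟨i, I⟩
  · have h1 : I.card ≤ j := card_le_of_ok h
    have h2 := bb_succ_add (c := c) (j := I.card) (n := n) hc (μ - 1)
      ((Nat.mul_le_mul_right c (Nat.succ_le_succ h1)).trans (Nat.le_of_succ_le hn))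
    show bb c (μ - 1) (insert j I).card n + bb c (μ - 1) I.card (n - c) = bb c (μ - 1) I.card n
    rw [card_insert_of_notMem hoff]
    exact h2
  · have h1 : I.card + 1 ≤ j := card_le_of_ok' h
    have h2 := bb_succ_add (c := c) (j := I.card) (n := n) hc (M - 1)
      ((Nat.mul_le_mul_right c (Nat.succ_le_succ (by omega : I.card ≤ j))).trans
        (Nat.le_of_succ_le hn))
    show bb c (M - 1) (insert j I).card n - (if insert j I = ∅ then 1 else 0) +
      (bb c (M - 1) I.card (n - c) - if I = ∅ then 1 else 0) =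
      bb c (M - 1) I.card n - if I = ∅ then 1 else 0
    rw [card_insert_of_notMem hoff, if_neg (insert_ne_empty j I)]
    split_ifs with h3
    · have h4 : 0 < bb c (M - 1) I.card (n - c) := by
        subst h3
        refine bb_pos hc (M - 1) (Nat.zero_le _) ?_
        rw [card_empty, zero_mul]
        have h5 : (j + 1) * c = j * c + c := by ring
        have h6 : 0 ≤ j * c := Nat.zero_le _
        omega
      omega
    · omega

theorem sum_wt_add {M c j n : ℕ} (hc : 0 < c) (hn : (j + 1) * c + 1 ≤ n) (s : Multiset Kd)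
    (h : ∀ k ∈ s, k.Ok M j) :
    ((s.map (Kd.add j)).map (wt M c n)).sum + (s.map (wt M c (n - c))).sum =
      (s.map (wt M c n)).sum := by
  induction s using Multiset.induction_on with
  | empty => rfl
  | cons k s ih =>
    have h1 := ih fun k' hk' => h k' (Multiset.mem_cons_of_mem hk')
    have h2 := wt_add hc hn (h k (Multiset.mem_cons_self k s))
    rw [Multiset.map_cons, Multiset.map_cons, Multiset.map_cons, Multiset.map_cons,
      Multiset.sum_cons, Multiset.sum_cons, Multiset.sum_cons]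
    omega

theorem wt_sj {M c j n : ℕ} (hc : 0 < c) (hn : 1 ≤ n) :
    wt M c n (.sw j ∅) + 1 = wt M c n (.ord M ∅) := by
  show bb c (M - 1) (∅ : Finset ℕ).card n - (if (∅ : Finset ℕ) = ∅ then 1 else 0) + 1 =
    bb c (M - 1) (∅ : Finset ℕ).card n
  rw [if_pos rfl]
  have h : 0 < bb c (M - 1) (∅ : Finset ℕ).card n := by
    refine bb_pos hc (M - 1) (Nat.zero_le _) ?_
    rw [card_empty, zero_mul]
    omega
  omega

/-- The virtual dimension of the residual system. -/
theorem vd_res {M c j n : ℕ} (hc : 0 < c) (hn : (j + 1) * c + 1 ≤ n) (sL sO : Multiset Kd)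
    (y : ℕ) (h : ∀ k ∈ sL, k.Ok M j) :
    vd M c (j + 1) n (sL.map (Kd.add j) + sO + Multiset.replicate y (.sw j ∅)) =
      vd M c j n (sL + sO + Multiset.replicate y (.ord M ∅)) - vd M c j (n - c) sL + y := by
  have h1 := bb_succ_add (c := c) (j := j) (n := n) hc (2 * M - 1) (by omega)
  have h2 := sum_wt_add (M := M) hc hn sL h
  have h3 := wt_sj (M := M) (c := c) (j := j) (n := n) hc (by omega)
  have h4 : y * wt M c n (.sw j ∅) + y = y * wt M c n (.ord M ∅) := by
    rw [← h3]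
    ring
  unfold vd
  simp only [Multiset.map_add, Multiset.sum_add, Multiset.map_replicate, Multiset.sum_replicate,
    smul_eq_mul]
  rw [← h1, ← h2, ← h4]
  push_cast
  ring

end Pool.Agent.V7.ST

end
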