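import Pool.Agent.H94.LP7.M09
import Pool.Agent.H94.LP7.M102
import Pool.Agent.H94.LP7.M103

/-! The parts of this file: H18.Ex.Conv, H51.TB.LBas, H51.TB.LRank, H51.TB.LSpan, H51.TB.UPt, V7.AL.SwapK. -/

section

/-!
# Module Conv: preparation of configurations, conversion of multiple points
-/

namespace Pool.Agent.H18.Ex

open Finset

/-- Drop superfluous points. -/
theorem exists_drop (g : ℕ → ℕ) (L a : ℕ) : ∀ (G : Multiset ℕ), (∀ m ∈ G, g m ≤ L) →
    a ≤ (G.map g).sum →
    ∃ G₁ ≤ G, a ≤ (G₁.map g).sum ∧ (G₁.map g).sum ≤ a + L ∧ ∀ m ∈ G₁, 0 < g m := by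
  intro G
  induction G using Multiset.strongInductionOn with
  | ih G ih =>
    intro hG ha
    by_cases h : ∃ m ∈ G, a ≤ ((G.erase m).map g).sum
    · obtain ⟨m, hm, h⟩ := h
      obtain ⟨G₁, h1, h2⟩ := ih (G.erase m) (Multiset.erase_lt.2 hm)
        (fun x hx => hG x (Multiset.mem_of_mem_erase hx)) h
      exact ⟨G₁, h1.trans (Multiset.erase_le _ _), h2⟩
    · push Not at h
      rcases Multiset.empty_or_exists_mem G with h0 | ⟨m, hm⟩
      · subst h0
        exact ⟨0, le_rfl, ha, by simp, by simp⟩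
      · have key : ∀ m ∈ G, g m + ((G.erase m).map g).sum = (G.map g).sum := by
          intro m hm
          rw [← Multiset.sum_cons, ← Multiset.map_cons, Multiset.cons_erase hm]
        refine ⟨G, le_rfl, ha, ?_, ?_⟩
        · have h1 := key m hm
          have h2 := h m hm
          have h3 := hG m hm
          omega
        · intro x hx
          have h1 := key x hx
          have h2 := h x hx
          omega

section

variable {ι : Type} [Fintype ι] [DecidableEq ι]

/-- The configuration of a multiset of free points. -/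
def cfg0 (ι : Type) (G : Multiset ℕ) : Cfg ι where
  N := G.filter fun m => 2 ≤ m
  s := G.count 1
  Φ := fun _ => 0

omit [DecidableEq ι] in
theorem cfg0_kinds (G : Multiset ℕ) (hG : ∀ m ∈ G, 1 ≤ m) :
    (cfg0 ι G).kinds = G.map (Kind.free : ℕ → Kind ι) := by
  classical
  unfold Cfg.kinds cfg0
  simp only [Multiset.map_zero, sum_const_zero, add_zero]
  have h1 : G = G.filter (fun m => 2 ≤ m) + Multiset.replicate (G.count 1) 1 := by
    ext a
    rw [Multiset.count_add, Multiset.count_replicate, Multiset.count_filter]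
    by_cases ha : 2 ≤ a
    · rw [if_pos ha, if_neg (by omega), add_zero]
    · rw [if_neg ha]
      by_cases h1 : a = 1
      · subst h1
        simp
      · rw [if_neg (by omega), Multiset.count_eq_zero_of_notMem]
        intro h
        have := hG a h
        omega
  conv_rhs => rw [h1, Multiset.map_add, Multiset.map_replicate]

omit [DecidableEq ι] in
theorem cfg0_sz (n : ℕ) (G : Multiset ℕ) (hG : ∀ m ∈ G, 1 ≤ m) :
    (cfg0 ι G).sz n = (G.map (ell (n + 1))).sum ∧ (cfg0 ι G).nsz n = (G.map (ell (n + 1))).sum := by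
  classical
  have h0 : (cfg0 ι G).nsz n = (G.map (ell (n + 1))).sum := by
    unfold Cfg.nsz cfg0
    have h1 : G = G.filter (fun m => 2 ≤ m) + Multiset.replicate (G.count 1) 1 := by
      ext a
      rw [Multiset.count_add, Multiset.count_replicate, Multiset.count_filter]
      by_cases ha : 2 ≤ a
      · rw [if_pos ha, if_neg (by omega), add_zero]
      · rw [if_neg ha]
        by_cases h1 : a = 1
        · subst h1
          simp
        · rw [if_neg (by omega), Multiset.count_eq_zero_of_notMem]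
          intro h
          have := hG a h
          omega
    conv_rhs => rw [h1, Multiset.map_add, Multiset.map_replicate, Multiset.sum_add,
      Multiset.sum_replicate, ell_one, smul_eq_mul, mul_one]
  refine ⟨?_, h0⟩
  unfold Cfg.sz
  rw [h0]
  simp [Cfg.fl, cfg0]

theorem cfg0_OK (M : ℕ) (G : Multiset ℕ) (hG : ∀ m ∈ G, m ≤ M) : (cfg0 ι G).OK M := by
  refine ⟨?_, ?_⟩
  · intro m hm
    rw [cfg0, Multiset.mem_filter] at hm
    exact ⟨hm.2, hG m hm.1⟩
  · intro l x hx
    simp [cfg0] at hx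

end

end Pool.Agent.H18.Ex

end

section

/-!
# Module B1 (TB): the system of a level, first facts
-/

namespace Pool.Agent.H51.TB

open Finset MvPolynomial Pool.Agent.H18.Ex Pool.Agent.H21.NX Pool.Agent.H18.Ta

private theorem LBas_eval {a b : ℕ} (q : Z a b → ℂ) (α β : Z a b → ℕ) :
    eval q (tcr (fun i => (X i : MvPolynomial (Z a b) ℂ)) α β) = tcr q α β := by
  unfold tcr
  rw [map_prod]
  refine prod_congr rfl fun i _ => ?_
  rw [map_mul, map_natCast, map_pow, eval_X]

/-- The conditions in terms of `tcr` (`MvPolynomial.eval` of the coefficients, `tcr_map` in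
`Pool/Agent/H18/Ex/Gen.lean`). -/
theorem mem_LV {a b d j : ℕ} {κ : Type} (m : κ → Finset (ℕ × ℕ)) (p : κ → Z a b → ℂ)
    (f : {α // α ∈ Bx a b d j} → ℂ) :
    f ∈ (LSys a b d j).V m p ↔ ∀ i (β : Z a b → ℕ), (xd β, yd β) ∈ m i →
      ∑ α : {α // α ∈ Bx a b d j}, tcr (p i) α.1 β * f α = 0 := by
  rw [Sys.mem_V]
  constructor
  · intro h i β hβ
    have h1 := h i ⟨β, hβ⟩
    refine Eq.trans (sum_congr rfl fun α _ => ?_) h1
    rw [← LBas_eval (p i) α.1 β]
    rfl
  · intro h i r
    have h1 := h i r.1 r.2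
    refine Eq.trans (sum_congr rfl fun α _ => ?_) h1
    rw [← LBas_eval (p i) α.1 r.1]
    rfl

theorem dom_of_subset {a b d j : ℕ} {Λ Λ' : Finset (ℕ × ℕ)} (h : Λ ⊆ Λ') :
    (LSys a b d j).Dom Λ' Λ := by
  intro q f hf
  rw [mem_LV] at hf ⊢
  exact fun i β hβ => hf i β (h hβ)

private theorem LBas_card_Sx {ι : Type} [Fintype ι] [DecidableEq ι] (n : ℕ) :
    (Sx ι n).card = Nat.multichoose (Fintype.card ι) n := by
  rw [← card_univ, ← card_finsuppAntidiag_nat_eq_multichoose]
  symm
  apply card_bij (fun (α : ι →₀ ℕ) _ => (⇑α : ι → ℕ))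
  · intro α hα
    rw [mem_finsuppAntidiag] at hα
    exact mem_Sx.2 hα.1
  · intro α _ β _ h
    exact DFunLike.coe_injective h
  · intro f hf
    refine ⟨Finsupp.equivFunOnFinite.symm f, ?_, rfl⟩
    rw [mem_finsuppAntidiag]
    exact ⟨mem_Sx.1 hf, subset_univ _⟩

/-- The exponents of the level `j` are pairs of a multi-index of degree `d - j` in `a` variables and
one of degree `j` in `b` variables (`multichoose a (d - j)` and `multichoose b j` of them;
e.g. `Finset.card_piAntidiag`, or `Sym.card_sym_eq_multichoose`). -/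
theorem card_Bx {a b d j : ℕ} (hj : j ≤ d) : (Bx a b d j).card = bet a b d j := by
  unfold bet
  have h1 := LBas_card_Sx (ι := Fin a) (d - j)
  have h2 := LBas_card_Sx (ι := Fin b) j
  rw [Fintype.card_fin] at h1 h2
  rw [← h1, ← h2, ← card_product]
  apply card_bij (fun (α : Z a b → ℕ) _ => ((fun i => α (Sum.inl i), fun i => α (Sum.inr i)) : (Fin a → ℕ) × (Fin b → ℕ)))
  · intro α hα
    rw [mem_Bx] at hα
    rw [mem_product, mem_Sx, mem_Sx]
    constructor
    · change xd α = d - j
      omega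
    · exact hα.2
  · intro α _ β _ h
    rw [Prod.mk.injEq] at h
    funext z
    rcases z with i | i
    · exact congrFun h.1 i
    · exact congrFun h.2 i
  · intro f hf
    rw [mem_product, mem_Sx, mem_Sx] at hf
    refine ⟨Sum.elim f.1 f.2, ?_, rfl⟩
    rw [mem_Bx]
    have h3 : xd (Sum.elim f.1 f.2 : Z a b → ℕ) = ∑ i, f.1 i := rfl
    have h4 : yd (Sum.elim f.1 f.2 : Z a b → ℕ) = ∑ i, f.2 i := rfl
    omega

/-- `∑_j bet = binom(a + b - 1 + d, d) = ell (a + b - 1) (d + 1)` (Vandermonde for `multichoose`; or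
count `Sx (Z a b) d`). -/
theorem sum_bet {a b : ℕ} (ha : 1 ≤ a) (hb : 1 ≤ b) (d : ℕ) :
    ∑ j ∈ range (d + 1), bet a b d j = ell (a + b - 1) (d + 1) := by
  have h1 := LBas_card_Sx (ι := Z a b) d
  rw [Fintype.card_sum, Fintype.card_fin, Fintype.card_fin] at h1
  have h2 : (Sx (Z a b) d).card = ∑ j ∈ range (d + 1), (Bx a b d j).card := by
    unfold Bx
    apply card_eq_sum_card_fiberwise
    intro α hα
    rw [Finset.mem_coe, mem_Sx, Fintype.sum_sum_type] at hα
    rw [Finset.mem_coe, mem_range]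
    unfold yd
    omega
  have h3 : ∑ j ∈ range (d + 1), bet a b d j = ∑ j ∈ range (d + 1), (Bx a b d j).card := by
    refine sum_congr rfl fun j hj => ?_
    rw [mem_range] at hj
    rw [card_Bx (by omega)]
  rw [h3, ← h2, h1, Nat.multichoose_eq]
  unfold ell
  have h4 : d + 1 + (a + b - 1) - 1 = a + b + d - 1 := by omega
  rw [h4]
  have h5 : a + b + d - 1 = (a + b - 1) + d := by omega
  rw [h5]
  exact (Nat.choose_symm_add (a := a + b - 1) (b := d)).symm

end Pool.Agent.H51.TB

end

section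

/-!
# Module B2 (TB): the size of a type on a level

Lower bound: at the position `q` with `q = 1` at the first `X`-variable and at the first
`Y`-variable and `q = 0` at the others, consider the conditions `β` which vanish at these two
variables and have bidegree `g ∈ Λ`; there are `multichoose (a-1) gx * multichoose (b-1) gy` of them for
each `g`.  `tcr q α β` is `1` if `α = β` off the two special variables and `0` otherwise, and for `α` on
the level `j` this determines `α` (first `X`-coordinate `d - j - gx`, first `Y`-coordinate `j - gy`).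
So these conditions say that the coefficients of different exponents vanish.

Upper bound: the number of conditions is at most the number of multi-indices `β : Z a b → ℕ` of degree
less than `t`, which is `ell (a + b) t`.
-/

namespace Pool.Agent.H51.TB

open Finset MvPolynomial Pool.Agent.H18.Ex Pool.Agent.H21.NX Pool.Agent.H18.Ta

private theorem LRank_card_Sx {ι : Type} [Fintype ι] [DecidableEq ι] (n : ℕ) :
    (Sx ι n).card = Nat.multichoose (Fintype.card ι) n := by
  rw [← card_univ, ← card_finsuppAntidiag_nat_eq_multichoose]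
  symm
  apply card_bij (fun (α : ι →₀ ℕ) _ => (⇑α : ι → ℕ))
  · intro α hα
    rw [mem_finsuppAntidiag] at hα
    exact mem_Sx.2 hα.1
  · intro α _ β _ h
    exact DFunLike.coe_injective h
  · intro f hf
    refine ⟨Finsupp.equivFunOnFinite.symm f, ?_, rfl⟩
    rw [mem_finsuppAntidiag]
    exact ⟨mem_Sx.1 hf, subset_univ _⟩

/-- the special variables -/
private def LRank_sp {a b : ℕ} : Z (a + 1) (b + 1) → Prop
  | Sum.inl i => i = 0
  | Sum.inr i => i = 0

private instance {a b : ℕ} : DecidablePred (LRank_sp (a := a) (b := b)) := fun z => by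
  rcases z with i | i <;> unfold LRank_sp <;> infer_instance

/-- the special position -/
private noncomputable def LRank_q (a b : ℕ) (z : Z (a + 1) (b + 1)) : ℂ := if LRank_sp z then 1 else 0

/-- `α` with the special coordinates removed -/
private def LRank_red {a b : ℕ} (α : Z (a + 1) (b + 1) → ℕ) (z : Z (a + 1) (b + 1)) : ℕ :=
  if LRank_sp z then 0 else α z

private theorem LRank_sp_inl {a b : ℕ} : LRank_sp (Sum.inl 0 : Z (a + 1) (b + 1)) := rfl

private theorem LRank_sp_inr {a b : ℕ} : LRank_sp (Sum.inr 0 : Z (a + 1) (b + 1)) := rfl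

private theorem LRank_nsp_inl {a b : ℕ} (i : Fin a) : ¬ LRank_sp (Sum.inl i.succ : Z (a + 1) (b + 1)) :=
  fun h => Fin.succ_ne_zero i h

private theorem LRank_nsp_inr {a b : ℕ} (i : Fin b) : ¬ LRank_sp (Sum.inr i.succ : Z (a + 1) (b + 1)) :=
  fun h => Fin.succ_ne_zero i h

private theorem LRank_xd {a b : ℕ} (α : Z (a + 1) (b + 1) → ℕ) :
    xd α = α (Sum.inl 0) + xd (LRank_red α) := by
  unfold xd
  rw [Fin.sum_univ_succ, Fin.sum_univ_succ (fun i => LRank_red α (Sum.inl i))]
  have h0 : LRank_red α (Sum.inl 0) = 0 := by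
    unfold LRank_red
    rw [if_pos LRank_sp_inl]
  have h1 : ∀ i : Fin a, LRank_red α (Sum.inl i.succ) = α (Sum.inl i.succ) := by
    intro i
    unfold LRank_red
    rw [if_neg (LRank_nsp_inl i)]
  rw [h0, Nat.zero_add]
  rw [sum_congr rfl fun i _ => h1 i]

private theorem LRank_yd {a b : ℕ} (α : Z (a + 1) (b + 1) → ℕ) :
    yd α = α (Sum.inr 0) + yd (LRank_red α) := by
  unfold yd
  rw [Fin.sum_univ_succ, Fin.sum_univ_succ (fun i => LRank_red α (Sum.inr i))]
  have h0 : LRank_red α (Sum.inr 0) = 0 := by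
    unfold LRank_red
    rw [if_pos LRank_sp_inr]
  have h1 : ∀ i : Fin b, LRank_red α (Sum.inr i.succ) = α (Sum.inr i.succ) := by
    intro i
    unfold LRank_red
    rw [if_neg (LRank_nsp_inr i)]
  rw [h0, Nat.zero_add]
  rw [sum_congr rfl fun i _ => h1 i]

private theorem LRank_eq {a b d j : ℕ} {α α' : Z (a + 1) (b + 1) → ℕ} (h : α ∈ Bx (a + 1) (b + 1) d j)
    (h' : α' ∈ Bx (a + 1) (b + 1) d j) (hr : LRank_red α = LRank_red α') : α = α' := by
  rw [mem_Bx] at h h'
  have hx := LRank_xd α
  have hx' := LRank_xd α'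
  have hy := LRank_yd α
  have hy' := LRank_yd α'
  rw [hr] at hx hy
  funext z
  by_cases hz : LRank_sp z
  · rcases z with i | i
    · have : i = 0 := hz
      subst this
      omega
    · have : i = 0 := hz
      subst this
      omega
  · have := congrFun hr z
    unfold LRank_red at this
    rwa [if_neg hz, if_neg hz] at this

private theorem LRank_tcr {a b : ℕ} (α β : Z (a + 1) (b + 1) → ℕ) :
    tcr (LRank_q a b) α (LRank_red β) = if LRank_red α = LRank_red β then 1 else 0 := by
  unfold tcr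
  split_ifs with h
  · apply prod_eq_one
    intro z _
    have h1 := congrFun h z
    unfold LRank_q
    by_cases hz : LRank_sp z
    · have h2 : LRank_red β z = 0 := by
        unfold LRank_red
        rw [if_pos hz]
      rw [if_pos hz, h2]
      simp
    · have h2 : LRank_red α z = α z := by
        unfold LRank_red
        rw [if_neg hz]
      rw [if_neg hz, ← h1, h2]
      simp
  · have h1 : ∃ z, LRank_red α z ≠ LRank_red β z := by
      by_contra hc
      push Not at hc
      exact h (funext hc)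
    obtain ⟨z, hz⟩ := h1
    apply prod_eq_zero (mem_univ z)
    have hsp : ¬ LRank_sp z := by
      intro hs
      apply hz
      unfold LRank_red
      rw [if_pos hs, if_pos hs]
    have h2 : LRank_red α z = α z := by
      unfold LRank_red
      rw [if_neg hsp]
    rw [h2] at hz
    unfold LRank_q
    rw [if_neg hsp]
    rcases Nat.lt_or_gt_of_ne hz with h3 | h3
    · rw [Nat.choose_eq_zero_of_lt h3]
      simp
    · rw [zero_pow (by omega), mul_zero]

/-- the exponents whose coefficients vanish -/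
private def LRank_T (a b d j : ℕ) (Λ : Finset (ℕ × ℕ)) : Finset (Z (a + 1) (b + 1) → ℕ) :=
  (Bx (a + 1) (b + 1) d j).filter fun α => (xd (LRank_red α), yd (LRank_red α)) ∈ Λ

private theorem LRank_card_fib {a b d j : ℕ} (hj : j ≤ d) (g : ℕ × ℕ) (hg : j + g.1 ≤ d ∧ g.2 ≤ j) :
    ((Bx (a + 1) (b + 1) d j).filter fun α => (xd (LRank_red α), yd (LRank_red α)) = g).card =
      Nat.multichoose a g.1 * Nat.multichoose b g.2 := by
  have h1 := LRank_card_Sx (ι := Fin a) g.1
  have h2 := LRank_card_Sx (ι := Fin b) g.2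
  rw [Fintype.card_fin] at h1 h2
  rw [← h1, ← h2, ← card_product]
  symm
  have hext : ∀ (u : Fin a → ℕ) (v : Fin b → ℕ), xd (LRank_red (Sum.elim (Fin.cons (d - j - g.1) u : Fin (a + 1) → ℕ)
      (Fin.cons (j - g.2) v : Fin (b + 1) → ℕ))) = ∑ i, u i := by
    intro u v
    unfold xd
    rw [Fin.sum_univ_succ]
    have h0 : LRank_red (Sum.elim (Fin.cons (d - j - g.1) u : Fin (a + 1) → ℕ) (Fin.cons (j - g.2) v : Fin (b + 1) → ℕ))
        (Sum.inl 0) = 0 := by
      unfold LRank_red
      rw [if_pos LRank_sp_inl]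
    rw [h0, Nat.zero_add]
    refine sum_congr rfl fun i _ => ?_
    unfold LRank_red
    rw [if_neg (LRank_nsp_inl i)]
    simp
  have hext' : ∀ (u : Fin a → ℕ) (v : Fin b → ℕ), yd (LRank_red (Sum.elim (Fin.cons (d - j - g.1) u : Fin (a + 1) → ℕ)
      (Fin.cons (j - g.2) v : Fin (b + 1) → ℕ))) = ∑ i, v i := by
    intro u v
    unfold yd
    rw [Fin.sum_univ_succ]
    have h0 : LRank_red (Sum.elim (Fin.cons (d - j - g.1) u : Fin (a + 1) → ℕ) (Fin.cons (j - g.2) v : Fin (b + 1) → ℕ))
        (Sum.inr 0) = 0 := by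
      unfold LRank_red
      rw [if_pos LRank_sp_inr]
    rw [h0, Nat.zero_add]
    refine sum_congr rfl fun i _ => ?_
    unfold LRank_red
    rw [if_neg (LRank_nsp_inr i)]
    simp
  apply card_bij (fun (w : (Fin a → ℕ) × (Fin b → ℕ)) _ =>
    (Sum.elim (Fin.cons (d - j - g.1) w.1 : Fin (a + 1) → ℕ) (Fin.cons (j - g.2) w.2 : Fin (b + 1) → ℕ) : Z (a + 1) (b + 1) → ℕ))
  · intro w hw
    rw [mem_product, mem_Sx, mem_Sx] at hw
    rw [mem_filter, mem_Bx]
    have hx := LRank_xd (Sum.elim (Fin.cons (d - j - g.1) w.1 : Fin (a + 1) → ℕ) (Fin.cons (j - g.2) w.2 : Fin (b + 1) → ℕ))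
    have hy := LRank_yd (Sum.elim (Fin.cons (d - j - g.1) w.1 : Fin (a + 1) → ℕ) (Fin.cons (j - g.2) w.2 : Fin (b + 1) → ℕ))
    rw [hext, hw.1] at hx
    rw [hext', hw.2] at hy
    simp only [Sum.elim_inl, Sum.elim_inr, Fin.cons_zero] at hx hy
    refine ⟨⟨by omega, by omega⟩, ?_⟩
    rw [hext, hext', hw.1, hw.2]
  · intro w _ w' _ h
    ext i
    · have := congrFun h (Sum.inl i.succ)
      simpa using this
    · have := congrFun h (Sum.inr i.succ)
      simpa using this
  · intro α hα
    rw [mem_filter, mem_Bx] at hα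
    obtain ⟨⟨h3, h4⟩, h5⟩ := hα
    have hx := LRank_xd α
    have hy := LRank_yd α
    have h6 : xd (LRank_red α) = g.1 := by rw [← h5]
    have h7 : yd (LRank_red α) = g.2 := by rw [← h5]
    have h8 : xd α = α (Sum.inl 0) + ∑ i : Fin a, α (Sum.inl i.succ) := by
      unfold xd
      exact Fin.sum_univ_succ _
    have h9 : yd α = α (Sum.inr 0) + ∑ i : Fin b, α (Sum.inr i.succ) := by
      unfold yd
      exact Fin.sum_univ_succ _
    refine ⟨(fun i => α (Sum.inl i.succ), fun i => α (Sum.inr i.succ)), ?_, ?_⟩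
    · rw [mem_product, mem_Sx, mem_Sx]
      constructor
      · change ∑ i : Fin a, α (Sum.inl i.succ) = g.1
        omega
      · change ∑ i : Fin b, α (Sum.inr i.succ) = g.2
        omega
    · funext z
      rcases z with i | i
      · refine Fin.cases ?_ (fun i => ?_) i
        · change d - j - g.1 = α (Sum.inl 0)
          omega
        · rfl
      · refine Fin.cases ?_ (fun i => ?_) i
        · change j - g.2 = α (Sum.inr 0)
          omega
        · rfl

private theorem LRank_card_T {a b d j : ℕ} (hj : j ≤ d) (Λ : Finset (ℕ × ℕ))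
    (hΛ : ∀ g ∈ Λ, j + g.1 ≤ d ∧ g.2 ≤ j) :
    (LRank_T a b d j Λ).card = ∑ g ∈ Λ, Eg (a + 1) (b + 1) g := by
  have h1 : (LRank_T a b d j Λ).card =
      ∑ g ∈ Λ, ((LRank_T a b d j Λ).filter fun α => (xd (LRank_red α), yd (LRank_red α)) = g).card := by
    apply card_eq_sum_card_fiberwise
    intro α hα
    unfold LRank_T at hα
    rw [Finset.mem_coe, mem_filter] at hα
    exact hα.2
  rw [h1]
  refine sum_congr rfl fun g hg => ?_
  rw [show Eg (a + 1) (b + 1) g = Nat.multichoose a g.1 * Nat.multichoose b g.2 from rfl,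
    ← LRank_card_fib hj g (hΛ g hg)]
  congr 1
  unfold LRank_T
  rw [filter_filter]
  apply filter_congr
  intro α _
  constructor
  · exact fun h => h.2
  · intro h
    exact ⟨by rw [h]; exact hg, h⟩

theorem le_size {a b d j : ℕ} (ha : 1 ≤ a) (hb : 1 ≤ b) (hj : j ≤ d) (Λ : Finset (ℕ × ℕ))
    (hΛ : ∀ g ∈ Λ, j + g.1 ≤ d ∧ g.2 ≤ j) : ∑ g ∈ Λ, Eg a b g ≤ (LSys a b d j).size Λ := by
  obtain ⟨a, rfl⟩ : ∃ a', a = a' + 1 := ⟨a - 1, by omega⟩
  obtain ⟨b, rfl⟩ : ∃ b', b = b' + 1 := ⟨b - 1, by omega⟩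
  rw [← LRank_card_T hj Λ hΛ]
  let T : Finset {α // α ∈ Bx (a + 1) (b + 1) d j} := univ.filter fun α => α.1 ∈ LRank_T a b d j Λ
  have hT : T.card = (LRank_T a b d j Λ).card := by
    apply card_bij (fun (α : {α // α ∈ Bx (a + 1) (b + 1) d j}) _ => α.1)
    · intro α hα
      exact (mem_filter.1 hα).2
    · intro α _ β _ h
      exact Subtype.ext h
    · intro α hα
      have h1 : α ∈ Bx (a + 1) (b + 1) d j := by
        unfold LRank_T at hα
        exact (mem_filter.1 hα).1
      exact ⟨⟨α, h1⟩, mem_filter.2 ⟨mem_univ _, hα⟩, rfl⟩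
  -- the solutions vanish on `T`
  have hvan : ∀ f ∈ (LSys (a + 1) (b + 1) d j).V (fun _ : Unit => Λ) (fun _ => LRank_q a b), ∀ α ∈ T, f α = 0 := by
    intro f hf α hα
    rw [mem_LV] at hf
    have hα' : (xd (LRank_red α.1), yd (LRank_red α.1)) ∈ Λ := by
      have := (mem_filter.1 hα).2
      unfold LRank_T at this
      exact (mem_filter.1 this).2
    have h1 := hf () (LRank_red α.1) hα'
    rw [sum_eq_single α] at h1
    · rw [LRank_tcr, if_pos rfl, one_mul] at h1
      exact h1
    · intro β _ hβ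
      rw [LRank_tcr, if_neg, zero_mul]
      intro h
      exact hβ (Subtype.ext (LRank_eq β.2 α.2 h))
    · intro h
      exact absurd (mem_univ α) h
  have hfin : Module.finrank ℂ ((LSys (a + 1) (b + 1) d j).V (fun _ : Unit => Λ) (fun _ => LRank_q a b)) ≤
      Fintype.card {α // α ∈ Bx (a + 1) (b + 1) d j} - T.card := by
    let φ : (LSys (a + 1) (b + 1) d j).V (fun _ : Unit => Λ) (fun _ => LRank_q a b) →ₗ[ℂ] ({α // α ∉ T} → ℂ) :=
      (LinearMap.funLeft ℂ ℂ (fun α : {α // α ∉ T} => α.1)).comp (Submodule.subtype _)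
    have hφ : Function.Injective φ := by
      rw [← LinearMap.ker_eq_bot, LinearMap.ker_eq_bot']
      intro f hf
      apply Subtype.ext
      funext α
      by_cases hα : α ∈ T
      · exact hvan f.1 f.2 α hα
      · exact congrFun hf ⟨α, hα⟩
    have h1 := LinearMap.finrank_le_finrank_of_injective hφ
    rw [Module.finrank_fintype_fun_eq_card] at h1
    have h2 : Fintype.card {α // α ∉ T} = Fintype.card {α // α ∈ Bx (a + 1) (b + 1) d j} - T.card := by
      rw [Fintype.card_subtype_compl, Fintype.card_coe, Fintype.card_coe]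
    rw [h2] at h1
    exact h1
  have hgd := gd_le (LSys (a + 1) (b + 1) d j) (fun _ : Unit => Λ) (fun _ => LRank_q a b)
  have hc : T.card ≤ Fintype.card {α // α ∈ Bx (a + 1) (b + 1) d j} := card_le_univ T
  unfold Sys.size
  omega

theorem size_le {a b d j : ℕ} (ha : 1 ≤ a) (Λ : Finset (ℕ × ℕ)) (t : ℕ)
    (hΛ : ∀ g ∈ Λ, g.1 + g.2 < t) : (LSys a b d j).size Λ ≤ ell (a + b) t := by
  obtain ⟨p, hp⟩ := gd_attained (LSys a b d j) (fun _ : Unit => Λ)
  have : Finite {β : Z a b → ℕ // (xd β, yd β) ∈ Λ} := finite_idx a b Λ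
  letI : Fintype {β : Z a b → ℕ // (xd β, yd β) ∈ Λ} := Fintype.ofFinite _
  -- the number of conditions
  have hcard : Fintype.card {β : Z a b → ℕ // (xd β, yd β) ∈ Λ} ≤ ell (a + b) t := by
    rcases Nat.eq_zero_or_pos t with rfl | ht
    · have : IsEmpty {β : Z a b → ℕ // (xd β, yd β) ∈ Λ} := ⟨fun β => by
        have := hΛ _ β.2
        omega⟩
      rw [Fintype.card_eq_zero]
      exact Nat.zero_le _
    · have hsum : ∀ β : Z a b → ℕ, ∑ z, β z = xd β + yd β := fun β => Fintype.sum_sum_type β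
      let ψ : {β : Z a b → ℕ // (xd β, yd β) ∈ Λ} → {x // x ∈ Sx (Option (Z a b)) (t - 1)} := fun β =>
        ⟨fun o => o.elim (t - 1 - ∑ z, β.1 z) β.1, by
          rw [mem_Sx, Fintype.sum_option]
          have h1 := hΛ _ β.2
          have h2 := hsum β.1
          simp only [Option.elim_none, Option.elim_some]
          omega⟩
      have hψ : Function.Injective ψ := by
        intro β γ h
        apply Subtype.ext
        funext z
        have h1 := congrArg Subtype.val h
        exact congrFun h1 (some z)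
      have h1 := Fintype.card_le_of_injective ψ hψ
      rw [Fintype.card_coe, LRank_card_Sx, Fintype.card_option, Fintype.card_sum, Fintype.card_fin, Fintype.card_fin,
        Nat.multichoose_eq] at h1
      refine h1.trans (le_of_eq ?_)
      unfold ell
      have h2 : a + b + 1 + (t - 1) - 1 = (a + b) + (t - 1) := by omega
      have h3 : t + (a + b) - 1 = (a + b) + (t - 1) := by omega
      rw [h2, h3]
      exact (Nat.choose_symm_add (a := a + b) (b := t - 1)).symm
  -- the linear map
  let L : ({α // α ∈ Bx a b d j} → ℂ) →ₗ[ℂ] ({β : Z a b → ℕ // (xd β, yd β) ∈ Λ} → ℂ) :=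
    { toFun := fun f β => ∑ α : {α // α ∈ Bx a b d j}, tcr (p ()) α.1 β.1 * f α
      map_add' := by
        intro f g
        funext β
        simp only [Pi.add_apply, mul_add, sum_add_distrib]
      map_smul' := by
        intro c f
        funext β
        simp only [Pi.smul_apply, smul_eq_mul, RingHom.id_apply, mul_sum]
        exact sum_congr rfl fun α _ => by ring }
  have hker : LinearMap.ker L = (LSys a b d j).V (fun _ : Unit => Λ) p := by
    ext f
    rw [LinearMap.mem_ker, mem_LV]
    constructor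
    · intro h i β hβ
      exact congrFun h ⟨β, hβ⟩
    · intro h
      funext β
      exact h () β.1 β.2
  have hrn := LinearMap.finrank_range_add_finrank_ker L
  rw [hker, hp, Module.finrank_fintype_fun_eq_card] at hrn
  have hr : Module.finrank ℂ (LinearMap.range L) ≤ Fintype.card {β : Z a b → ℕ // (xd β, yd β) ∈ Λ} := by
    have := Submodule.finrank_le (LinearMap.range L)
    rwa [Module.finrank_fintype_fun_eq_card] at this
  unfold Sys.size
  omega

end Pool.Agent.H51.TB

end

section

/-!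
# Module B3 (TB): the span property of the system of a level

Proof (compare `Pool/Agent/H21/NX/GL.lean`).  Let `φ ≠ 0` be a functional on `E → ℂ`,
`E = {α // α ∈ Bx a b d j}`, and `G ≠ 0` a polynomial such that `V m p ≤ ker φ` if `G(p) ≠ 0`.  Take
`p₀` with `G(p₀) ≠ 0` and `f ∈ V m p₀`; we show `f = 0` (then `gd_le` gives `gd m = 0`).  Let
`F = ∑_α f_α z^α` (a polynomial in the variables `Z a b`).  For matrices `A` (size `a`) and `B` (size
`b`) let `F_{A,B}(x, y) = F(A x, B y)`; its coefficients (on the level `j`) are polynomials in the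
entries of `A`, `B`.  At `p_i = (adj(A) x_i, adj(B) y_i)`, where `p₀ i = (x_i, y_i)`, we have
`(A, B) p_i = (det A x_i, det B y_i)`, and the coefficients of `F_{A,B}` lie in `V m p` if
`det A ≠ 0`, `det B ≠ 0`: the vanishing of all derivatives of one bidegree `g` is preserved by
`(A, B)` (chain rule: the part of bidegree `g` of `F_{A,B}(p + z)` is obtained from the part of
bidegree `g` of `F((A,B)p + w)` by `w = (A, B) z`), and for `F` of bidegree `(d - j, j)` the derivatives
at `(λ x, μ y)` and at `(x, y)` differ by powers of `λ`, `μ`.  Hence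
`φ(F_{A,B}) * det A * det B * G(p) = 0` for all `A`, `B`, and the last three factors are not the
zero polynomial (value `G(p₀)` at `A = 1`, `B = 1`), so `φ(F_{A,B}) = 0` for all `A`, `B`.  For
`A i k = c i * v k`, `B i k = e i * w k` one has
`F_{A,B} = F(c, e) * (∑ v_k x_k)^(d-j) * (∑ w_k y_k)^j`.  If `f ≠ 0` there is `(c, e)` with
`F(c, e) ≠ 0`, so `φ` vanishes on `(∑ v_k x_k)^(d-j) (∑ w_k y_k)^j` for all `v`, `w`; its value is
`∑_α (multinomial coefficients) v^{α_x} w^{α_y} φ(e_α)`, a polynomial in `(v, w)` vanishing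
identically, so `φ(e_α) = 0` for all `α`, a contradiction.
-/

namespace Pool.Agent.H51.TB

open Finset MvPolynomial Pool.Agent.H18.Ex Pool.Agent.H21.NX Pool.Agent.H18.Ta

/-- The weights of the variables. -/
private def LSpan_w (a b : ℕ) : Z a b → ℕ × ℕ := Sum.elim (fun _ => (1, 0)) fun _ => (0, 1)

private lemma LSpan_weight {a b : ℕ} (α : Z a b →₀ ℕ) :
    Finsupp.weight (LSpan_w a b) α = (xd α, yd α) := by
  rw [Finsupp.weight_apply, Finsupp.sum_fintype _ _ (by intro i; simp),
    Fintype.sum_sum_type]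
  unfold xd yd LSpan_w
  ext <;> simp [Prod.fst_sum, Prod.snd_sum]

/-- The finitely supported function of a function. -/
private noncomputable def LSpan_sf {a b : ℕ} (α : Z a b → ℕ) : Z a b →₀ ℕ :=
  Finsupp.equivFunOnFinite.symm α

private lemma LSpan_sf_coe {a b : ℕ} (α : Z a b → ℕ) : ⇑(LSpan_sf α) = α := rfl

private lemma LSpan_sf_eta {a b : ℕ} (α : Z a b →₀ ℕ) : LSpan_sf ⇑α = α := by
  ext i
  rfl

private lemma LSpan_sf_inj {a b : ℕ} {α β : Z a b → ℕ} : LSpan_sf α = LSpan_sf β ↔ α = β :=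
  Finsupp.equivFunOnFinite.symm.injective.eq_iff

/-- The Taylor coefficients of a monomial. -/
private lemma LSpan_shift_monomial {a b : ℕ} (q : Z a b → ℂ) (α β : Z a b → ℕ) (c : ℂ) :
    coeff (LSpan_sf β) (aeval (fun i => X i + C (q i)) (monomial (LSpan_sf α) c) :
      MvPolynomial (Z a b) ℂ) = c * tcr q α β := by
  classical
  rw [aeval_monomial, algebraMap_eq, coeff_C_mul, Finsupp.prod_fintype _ _ (by intro i; simp)]
  congr 1
  have h1 : ∀ j : Z a b, (X j + C (q j) : MvPolynomial (Z a b) ℂ) ^ (LSpan_sf α j) =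
      ∑ b ∈ range (α j + 1), monomial (Finsupp.single j b)
        (((α j).choose b : ℂ) * q j ^ (α j - b)) := by
    intro j
    rw [LSpan_sf_coe, add_pow]
    refine sum_congr rfl fun b _ => ?_
    rw [X_pow_eq_monomial, ← C_pow, mul_assoc, mul_comm (C (q j ^ (α j - b)))]
    rw [← C_eq_coe_nat, ← C_mul, mul_comm, C_mul_monomial, mul_one]
  simp_rw [h1]
  rw [prod_univ_sum, coeff_sum]
  have h2 : ∀ x ∈ Fintype.piFinset fun j => range (α j + 1),
      coeff (LSpan_sf β) (∏ j, monomial (Finsupp.single j (x j))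
        (((α j).choose (x j) : ℂ) * q j ^ (α j - x j)) : MvPolynomial (Z a b) ℂ) =
      if x = β then tcr q α β else 0 := by
    intro x _
    rw [← monomial_sum_prod, coeff_monomial]
    have h4 : (∑ j, Finsupp.single j (x j)) = LSpan_sf x := by
      unfold LSpan_sf
      rw [Finsupp.equivFunOnFinite_symm_eq_sum]
    rw [h4]
    by_cases hx : x = β
    · subst hx
      simp [tcr]
    · rw [if_neg, if_neg hx]
      intro h5
      exact hx (LSpan_sf_inj.1 h5)
  rw [sum_congr rfl h2, sum_ite_eq']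
  split_ifs with h
  · rfl
  · rw [Fintype.mem_piFinset] at h
    push Not at h
    obtain ⟨j, hj⟩ := h
    rw [mem_range] at hj
    symm
    unfold tcr
    apply prod_eq_zero (mem_univ j)
    rw [Nat.choose_eq_zero_of_lt (by omega)]
    simp

/-- The polynomial of a coefficient vector. -/
private noncomputable def LSpan_P {a b d j : ℕ} (f : {α // α ∈ Bx a b d j} → ℂ) :
    MvPolynomial (Z a b) ℂ := ∑ α : {α // α ∈ Bx a b d j}, monomial (LSpan_sf α.1) (f α)

private lemma LSpan_coeff_P {a b d j : ℕ} (f : {α // α ∈ Bx a b d j} → ℂ)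
    (α : {α // α ∈ Bx a b d j}) : coeff (LSpan_sf α.1) (LSpan_P f) = f α := by
  classical
  unfold LSpan_P
  rw [coeff_sum]
  simp only [coeff_monomial, LSpan_sf_inj, Subtype.coe_inj]
  simp

private lemma LSpan_coeff_P_zero {a b d j : ℕ} (f : {α // α ∈ Bx a b d j} → ℂ)
    (α : Z a b → ℕ) (hα : α ∉ Bx a b d j) : coeff (LSpan_sf α) (LSpan_P f) = 0 := by
  classical
  unfold LSpan_P
  rw [coeff_sum]
  refine sum_eq_zero fun β _ => ?_
  rw [coeff_monomial, if_neg]
  intro h
  rw [LSpan_sf_inj] at h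
  exact hα (h ▸ β.2)

private lemma LSpan_shift_P {a b d j : ℕ} (q : Z a b → ℂ) (f : {α // α ∈ Bx a b d j} → ℂ)
    (β : Z a b → ℕ) :
    coeff (LSpan_sf β) (aeval (fun i => X i + C (q i)) (LSpan_P f) : MvPolynomial (Z a b) ℂ) =
      ∑ α : {α // α ∈ Bx a b d j}, tcr q α.1 β * f α := by
  unfold LSpan_P
  rw [map_sum, coeff_sum]
  refine sum_congr rfl fun α _ => ?_
  rw [LSpan_shift_monomial, mul_comm]

/-- Substitutions respecting the weights. -/
private lemma LSpan_mono_hom {a b : ℕ} {g : Z a b → MvPolynomial (Z a b) ℂ}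
    (hg : ∀ i, IsWeightedHomogeneous (LSpan_w a b) (g i) (LSpan_w a b i)) (α : Z a b →₀ ℕ)
    (c : ℂ) : IsWeightedHomogeneous (LSpan_w a b) (aeval g (monomial α c)) (xd α, yd α) := by
  rw [aeval_monomial, algebraMap_eq, Finsupp.prod_fintype _ _ (by intro i; simp)]
  have h1 : IsWeightedHomogeneous (LSpan_w a b) (∏ i, g i ^ α i) (xd α, yd α) := by
    rw [← LSpan_weight, Finsupp.weight_apply, Finsupp.sum_fintype _ _ (by intro i; simp)]
    exact IsWeightedHomogeneous.prod _ _ _ fun i _ => (hg i).pow (α i)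
  exact h1.C_mul c

private lemma LSpan_pres {a b : ℕ} {g : Z a b → MvPolynomial (Z a b) ℂ}
    (hg : ∀ i, IsWeightedHomogeneous (LSpan_w a b) (g i) (LSpan_w a b i)) (n : ℕ × ℕ)
    {H : MvPolynomial (Z a b) ℂ} (hH : ∀ β : Z a b →₀ ℕ, (xd β, yd β) = n → coeff β H = 0)
    (β : Z a b →₀ ℕ) (hβ : (xd β, yd β) = n) : coeff β (aeval g H) = 0 := by
  classical
  rw [H.as_sum, map_sum, coeff_sum]
  refine sum_eq_zero fun α hα => ?_
  by_cases h : (xd α, yd α) = n
  · exact absurd (hH α h) (mem_support_iff.1 hα)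
  · refine (LSpan_mono_hom hg α _).coeff_eq_zero β ?_
    rw [LSpan_weight, hβ]
    exact Ne.symm h

/-- The block substitution. -/
private noncomputable def LSpan_g {a b : ℕ} (A : Matrix (Fin a) (Fin a) ℂ)
    (B : Matrix (Fin b) (Fin b) ℂ) : Z a b → MvPolynomial (Z a b) ℂ :=
  Sum.elim (fun i => ∑ k, C (A i k) * X (Sum.inl k)) fun i => ∑ k, C (B i k) * X (Sum.inr k)

private lemma LSpan_g_hom {a b : ℕ} (A : Matrix (Fin a) (Fin a) ℂ)
    (B : Matrix (Fin b) (Fin b) ℂ) (i : Z a b) :
    IsWeightedHomogeneous (LSpan_w a b) (LSpan_g A B i) (LSpan_w a b i) := by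
  rcases i with i | i
  · show IsWeightedHomogeneous (LSpan_w a b) (∑ k, C (A i k) * X (Sum.inl k)) (1, 0)
    exact IsWeightedHomogeneous.sum _ _ _ fun k _ =>
      (isWeightedHomogeneous_X ℂ (LSpan_w a b) (Sum.inl k)).C_mul _
  · show IsWeightedHomogeneous (LSpan_w a b) (∑ k, C (B i k) * X (Sum.inr k)) (0, 1)
    exact IsWeightedHomogeneous.sum _ _ _ fun k _ =>
      (isWeightedHomogeneous_X ℂ (LSpan_w a b) (Sum.inr k)).C_mul _

/-- The point `(A x, B y)`. -/
private def LSpan_mv {a b : ℕ} (A : Matrix (Fin a) (Fin a) ℂ)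
    (B : Matrix (Fin b) (Fin b) ℂ) (q : Z a b → ℂ) : Z a b → ℂ :=
  Sum.elim (A.mulVec fun k => q (Sum.inl k)) (B.mulVec fun k => q (Sum.inr k))

private lemma LSpan_shift_comm {a b : ℕ} (A : Matrix (Fin a) (Fin a) ℂ)
    (B : Matrix (Fin b) (Fin b) ℂ) (q : Z a b → ℂ) (F : MvPolynomial (Z a b) ℂ) :
    aeval (fun i => X i + C (q i)) (aeval (LSpan_g A B) F) =
      aeval (LSpan_g A B) (aeval (fun i => X i + C (LSpan_mv A B q i)) F) := by
  have h : (aeval (fun j => X j + C (q j)) :
      MvPolynomial (Z a b) ℂ →ₐ[ℂ] MvPolynomial (Z a b) ℂ).comp (aeval (LSpan_g A B)) =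
      (aeval (LSpan_g A B)).comp (aeval (fun j => X j + C (LSpan_mv A B q j))) := by
    apply algHom_ext
    rintro (i | i)
    · simp only [LSpan_g, LSpan_mv, AlgHom.comp_apply, aeval_X, map_sum, map_mul, aeval_C,
        algebraMap_eq, map_add, mul_add, sum_add_distrib, Matrix.mulVec, dotProduct, Sum.elim_inl]
    · simp only [LSpan_g, LSpan_mv, AlgHom.comp_apply, aeval_X, map_sum, map_mul, aeval_C,
        algebraMap_eq, map_add, mul_add, sum_add_distrib, Matrix.mulVec, dotProduct, Sum.elim_inr]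
  exact DFunLike.congr_fun h F

/-- Scalar multiples of the two blocks. -/
private lemma LSpan_tcr_smul {a b : ℕ} (l m : ℂ) (x : Fin a → ℂ) (y : Fin b → ℂ)
    (α β : Z a b → ℕ) :
    tcr (Sum.elim (fun k => l * x k) fun k => m * y k : Z a b → ℂ) α β =
      l ^ (xd α - xd β) * m ^ (yd α - yd β) * tcr (Sum.elim x y : Z a b → ℂ) α β := by
  by_cases h : ∀ i, β i ≤ α i
  · unfold tcr
    rw [Fintype.prod_sum_type, Fintype.prod_sum_type]
    simp only [Sum.elim_inl, Sum.elim_inr, mul_pow]
    have e1 : ∑ i, (α (Sum.inl i) - β (Sum.inl i)) = xd α - xd β := by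
      unfold xd
      rw [Finset.sum_tsub_distrib _ fun i _ => h _]
    have e2 : ∑ i, (α (Sum.inr i) - β (Sum.inr i)) = yd α - yd β := by
      unfold yd
      rw [Finset.sum_tsub_distrib _ fun i _ => h _]
    rw [← e1, ← e2, ← prod_pow_eq_pow_sum, ← prod_pow_eq_pow_sum]
    simp only [prod_mul_distrib]
    ring
  · push Not at h
    obtain ⟨i, hi⟩ := h
    have h0 : ∀ q : Z a b → ℂ, tcr q α β = 0 := by
      intro q
      unfold tcr
      apply prod_eq_zero (mem_univ i)
      rw [Nat.choose_eq_zero_of_lt hi]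
      simp
    rw [h0, h0, mul_zero]

/-- The coefficients of the transformed polynomial. -/
private noncomputable def LSpan_T {a b d j : ℕ} (A : Matrix (Fin a) (Fin a) ℂ)
    (B : Matrix (Fin b) (Fin b) ℂ) (f : {α // α ∈ Bx a b d j} → ℂ) :
    {α // α ∈ Bx a b d j} → ℂ :=
  fun α => coeff (LSpan_sf α.1) (aeval (LSpan_g A B) (LSpan_P f))

private lemma LSpan_P_T {a b d j : ℕ} (A : Matrix (Fin a) (Fin a) ℂ)
    (B : Matrix (Fin b) (Fin b) ℂ) (f : {α // α ∈ Bx a b d j} → ℂ) :
    LSpan_P (LSpan_T A B f) = aeval (LSpan_g A B) (LSpan_P f) := by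
  classical
  ext γ
  rw [← LSpan_sf_eta γ]
  by_cases hγ : ⇑γ ∈ Bx a b d j
  · exact LSpan_coeff_P (LSpan_T A B f) ⟨⇑γ, hγ⟩
  · rw [LSpan_coeff_P_zero _ _ hγ]
    symm
    unfold LSpan_P
    rw [map_sum, coeff_sum]
    refine sum_eq_zero fun α _ => ?_
    refine (LSpan_mono_hom (LSpan_g_hom A B) _ _).coeff_eq_zero _ ?_
    rw [LSpan_weight, LSpan_sf_coe, LSpan_sf_coe]
    intro h
    apply hγ
    have h1 := mem_Bx.1 α.2
    rw [Prod.mk.injEq] at h
    rw [mem_Bx, h.1, h.2]
    exact h1

private lemma LSpan_mem {a b d j : ℕ} {κ : Type} (m : κ → Finset (ℕ × ℕ)) (p : κ → Z a b → ℂ)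
    (f : {α // α ∈ Bx a b d j} → ℂ) (hf : f ∈ (LSys a b d j).V m p)
    (A : Matrix (Fin a) (Fin a) ℂ) (B : Matrix (Fin b) (Fin b) ℂ) :
    LSpan_T A B f ∈ (LSys a b d j).V m fun i => LSpan_mv A.adjugate B.adjugate (p i) := by
  rw [mem_LV] at hf ⊢
  intro i β hβ
  rw [← LSpan_shift_P, LSpan_P_T, LSpan_shift_comm]
  refine LSpan_pres (LSpan_g_hom A B) (xd β, yd β) ?_ _ rfl
  intro γ hγ
  rw [← LSpan_sf_eta γ, LSpan_shift_P]
  have h1 : LSpan_mv A B (LSpan_mv A.adjugate B.adjugate (p i)) =
      Sum.elim (fun k => A.det * p i (Sum.inl k)) fun k => B.det * p i (Sum.inr k) := by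
    have e1 : A.mulVec (A.adjugate.mulVec fun k => p i (Sum.inl k)) =
        fun k => A.det * p i (Sum.inl k) := by
      rw [Matrix.mulVec_mulVec, Matrix.mul_adjugate, Matrix.smul_mulVec, Matrix.one_mulVec]
      rfl
    have e2 : B.mulVec (B.adjugate.mulVec fun k => p i (Sum.inr k)) =
        fun k => B.det * p i (Sum.inr k) := by
      rw [Matrix.mulVec_mulVec, Matrix.mul_adjugate, Matrix.smul_mulVec, Matrix.one_mulVec]
      rfl
    unfold LSpan_mv
    simp only [Sum.elim_inl, Sum.elim_inr]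
    rw [e1, e2]
  rw [h1]
  have h2 : (Sum.elim (fun k => p i (Sum.inl k)) fun k => p i (Sum.inr k) : Z a b → ℂ) = p i := by
    funext x
    rcases x with x | x <;> rfl
  have h3 : ∀ α : {α // α ∈ Bx a b d j},
      tcr (Sum.elim (fun k => A.det * p i (Sum.inl k)) fun k => B.det * p i (Sum.inr k) :
        Z a b → ℂ) α.1 ⇑γ * f α =
      A.det ^ (d - j - xd γ) * B.det ^ (j - yd γ) * (tcr (p i) α.1 ⇑γ * f α) := by
    intro α
    have h4 := mem_Bx.1 α.2
    rw [LSpan_tcr_smul, h2, show xd α.1 = d - j by omega, show yd α.1 = j by omega]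
    ring
  simp_rw [h3]
  rw [← mul_sum, hf i ⇑γ (by rw [hγ]; exact hβ), mul_zero]

/-- The parameters of the pair `(A, B)`. -/
private def LSpan_t {a b : ℕ} (A : Matrix (Fin a) (Fin a) ℂ) (B : Matrix (Fin b) (Fin b) ℂ) :
    (Fin a × Fin a) ⊕ (Fin b × Fin b) → ℂ :=
  Sum.elim (fun x => A x.1 x.2) fun x => B x.1 x.2

/-- The generic substitution. -/
private noncomputable def LSpan_gF {a b : ℕ} : MvPolynomial (Z a b) ℂ →+*
    MvPolynomial (Z a b) (MvPolynomial ((Fin a × Fin a) ⊕ (Fin b × Fin b)) ℂ) :=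
  eval₂Hom (C.comp C) (Sum.elim (fun i => ∑ k, C (X (Sum.inl (i, k))) * X (Sum.inl k))
    fun i => ∑ k, C (X (Sum.inr (i, k))) * X (Sum.inr k))

private lemma LSpan_map_gF {a b : ℕ} (A : Matrix (Fin a) (Fin a) ℂ)
    (B : Matrix (Fin b) (Fin b) ℂ) (F : MvPolynomial (Z a b) ℂ) :
    MvPolynomial.map (eval (LSpan_t A B)) (LSpan_gF F) = aeval (LSpan_g A B) F := by
  have h : (MvPolynomial.map (eval (LSpan_t A B))).comp LSpan_gF =
      (aeval (LSpan_g A B) : MvPolynomial (Z a b) ℂ →ₐ[ℂ] MvPolynomial (Z a b) ℂ).toRingHom := by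
    apply ringHom_ext
    · intro c
      simp [LSpan_gF]
    · rintro (i | i)
      · simp [LSpan_gF, LSpan_g, LSpan_t]
      · simp [LSpan_gF, LSpan_g, LSpan_t]
  exact DFunLike.congr_fun h F

private lemma LSpan_functional {a b d j : ℕ} (φ : ({α // α ∈ Bx a b d j} → ℂ) →ₗ[ℂ] ℂ)
    (f : {α // α ∈ Bx a b d j} → ℂ) :
    φ f = ∑ α, φ (Pi.single α 1) * f α := by
  classical
  rw [LinearMap.pi_apply_eq_sum_univ φ f]
  refine sum_congr rfl fun α _ => ?_
  rw [smul_eq_mul, mul_comm]
  congr 2
  funext β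
  by_cases h : α = β
  · subst h; simp
  · rw [if_neg h, Pi.single_eq_of_ne (Ne.symm h)]

private lemma LSpan_functional_poly {a b d j : ℕ} (φ : ({α // α ∈ Bx a b d j} → ℂ) →ₗ[ℂ] ℂ)
    (f : {α // α ∈ Bx a b d j} → ℂ) :
    ∃ Q : MvPolynomial ((Fin a × Fin a) ⊕ (Fin b × Fin b)) ℂ,
      ∀ (A : Matrix (Fin a) (Fin a) ℂ) (B : Matrix (Fin b) (Fin b) ℂ),
      eval (LSpan_t A B) Q = φ (LSpan_T A B f) := by
  classical
  refine ⟨∑ α : {α // α ∈ Bx a b d j},
    C (φ (Pi.single α 1)) * coeff (LSpan_sf α.1) (LSpan_gF (LSpan_P f)), fun A B => ?_⟩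
  rw [LSpan_functional, map_sum]
  refine sum_congr rfl fun α _ => ?_
  rw [map_mul, eval_C]
  unfold LSpan_T
  rw [← LSpan_map_gF, coeff_map]

private lemma LSpan_eval_aeval {σ τ : Type*} (a : τ → ℂ) (g : σ → MvPolynomial τ ℂ)
    (G : MvPolynomial σ ℂ) : eval a (aeval g G) = eval (fun x => eval a (g x)) G := by
  induction G using MvPolynomial.induction_on with
  | C c => simp
  | add p q hp hq => rw [map_add, map_add, map_add, hp, hq]
  | mul_X p i hp => rw [map_mul, map_mul, map_mul, hp, aeval_X, eval_X]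

/-- The polynomial `G(p_{A,B})`. -/
private lemma LSpan_D {a b : ℕ} {κ : Type} (G : MvPolynomial (κ × Z a b) ℂ)
    (p₀ : κ → Z a b → ℂ) :
    ∃ D : MvPolynomial ((Fin a × Fin a) ⊕ (Fin b × Fin b)) ℂ,
      ∀ (A : Matrix (Fin a) (Fin a) ℂ) (B : Matrix (Fin b) (Fin b) ℂ),
      eval (LSpan_t A B) D =
        eval (fun x : κ × Z a b => LSpan_mv A.adjugate B.adjugate (p₀ x.1) x.2) G := by
  classical
  let NA : Matrix (Fin a) (Fin a) (MvPolynomial ((Fin a × Fin a) ⊕ (Fin b × Fin b)) ℂ) :=
    Matrix.of fun i k => X (Sum.inl (i, k))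
  let NB : Matrix (Fin b) (Fin b) (MvPolynomial ((Fin a × Fin a) ⊕ (Fin b × Fin b)) ℂ) :=
    Matrix.of fun i k => X (Sum.inr (i, k))
  have hNA : ∀ (A : Matrix (Fin a) (Fin a) ℂ) (B : Matrix (Fin b) (Fin b) ℂ),
      (eval (LSpan_t A B)).mapMatrix NA = A := by
    intro A B
    ext i k
    simp [NA, LSpan_t]
  have hNB : ∀ (A : Matrix (Fin a) (Fin a) ℂ) (B : Matrix (Fin b) (Fin b) ℂ),
      (eval (LSpan_t A B)).mapMatrix NB = B := by
    intro A B
    ext i k
    simp [NB, LSpan_t]
  refine ⟨aeval (fun x : κ × Z a b => Sum.elim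
    (fun i => ∑ k, NA.adjugate i k * C (p₀ x.1 (Sum.inl k)))
    (fun i => ∑ k, NB.adjugate i k * C (p₀ x.1 (Sum.inr k))) x.2) G, fun A B => ?_⟩
  rw [LSpan_eval_aeval]
  have h1 : ∀ i k, eval (LSpan_t A B) (NA.adjugate i k) = A.adjugate i k := by
    intro i k
    have h3 := RingHom.map_adjugate (eval (LSpan_t A B)) NA
    rw [hNA] at h3
    have h4 := congrFun (congrFun h3 i) k
    simpa using h4
  have h2 : ∀ i k, eval (LSpan_t A B) (NB.adjugate i k) = B.adjugate i k := by
    intro i k
    have h3 := RingHom.map_adjugate (eval (LSpan_t A B)) NB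
    rw [hNB] at h3
    have h4 := congrFun (congrFun h3 i) k
    simpa using h4
  have h3 : (fun x : κ × Z a b => eval (LSpan_t A B) (Sum.elim
      (fun i => ∑ k, NA.adjugate i k * C (p₀ x.1 (Sum.inl k)))
      (fun i => ∑ k, NB.adjugate i k * C (p₀ x.1 (Sum.inr k))) x.2)) =
      fun x : κ × Z a b => LSpan_mv A.adjugate B.adjugate (p₀ x.1) x.2 := by
    funext x
    obtain ⟨x, i | i⟩ := x
    · simp only [Sum.elim_inl, map_sum, map_mul, h1, eval_C]
      rfl
    · simp only [Sum.elim_inr, map_sum, map_mul, h2, eval_C]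
      rfl
  rw [h3]

/-- Step 1: `φ` vanishes on all transformed solutions. -/
private lemma LSpan_all {a b d j : ℕ} {κ : Type} (m : κ → Finset (ℕ × ℕ))
    (φ : ({α // α ∈ Bx a b d j} → ℂ) →ₗ[ℂ] ℂ) (G : MvPolynomial (κ × Z a b) ℂ)
    (hG : ∀ p : κ → Z a b → ℂ, eval (fun x => p x.1 x.2) G ≠ 0 →
      (LSys a b d j).V m p ≤ LinearMap.ker φ)
    (p₀ : κ → Z a b → ℂ) (hp₀ : eval (fun x => p₀ x.1 x.2) G ≠ 0)
    (f : {α // α ∈ Bx a b d j} → ℂ) (hf : f ∈ (LSys a b d j).V m p₀)
    (A : Matrix (Fin a) (Fin a) ℂ) (B : Matrix (Fin b) (Fin b) ℂ) :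
    φ (LSpan_T A B f) = 0 := by
  classical
  obtain ⟨Q, hQ⟩ := LSpan_functional_poly φ f
  obtain ⟨D, hD⟩ := LSpan_D G p₀
  have hQD : Q * D = 0 := by
    apply MvPolynomial.funext
    intro t
    let A : Matrix (Fin a) (Fin a) ℂ := Matrix.of fun i k => t (Sum.inl (i, k))
    let B : Matrix (Fin b) (Fin b) ℂ := Matrix.of fun i k => t (Sum.inr (i, k))
    have ht : t = LSpan_t A B := by
      funext x
      rcases x with x | x <;> rfl
    rw [map_mul, map_zero, ht, hQ, hD]
    by_cases hGA : eval (fun x : κ × Z a b => LSpan_mv A.adjugate B.adjugate (p₀ x.1) x.2) G = 0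
    · rw [hGA, mul_zero]
    have h1 : φ (LSpan_T A B f) = 0 :=
      hG (fun i => LSpan_mv A.adjugate B.adjugate (p₀ i)) hGA (LSpan_mem m p₀ f hf A B)
    rw [h1, zero_mul]
  have hD0 : D ≠ 0 := by
    intro h0
    have h1 := hD 1 1
    rw [h0, map_zero] at h1
    apply hp₀
    rw [h1]
    have h2 : (fun x : κ × Z a b => p₀ x.1 x.2) = fun x : κ × Z a b =>
        LSpan_mv (1 : Matrix (Fin a) (Fin a) ℂ).adjugate (1 : Matrix (Fin b) (Fin b) ℂ).adjugate
          (p₀ x.1) x.2 := by
      funext x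
      rw [Matrix.adjugate_one, Matrix.adjugate_one]
      unfold LSpan_mv
      rw [Matrix.one_mulVec, Matrix.one_mulVec]
      obtain ⟨x, i | i⟩ := x <;> rfl
    rw [h2]
  have hQ0 : Q = 0 := (mul_eq_zero.1 hQD).resolve_right hD0
  rw [← hQ, hQ0, map_zero]

/-- Step 2: rank one matrices. -/
private lemma LSpan_rank_one {a b d j : ℕ} (hj : j ≤ d) (f : {α // α ∈ Bx a b d j} → ℂ)
    (c v : Z a b → ℂ) :
    aeval (LSpan_g (Matrix.of fun i k => c (Sum.inl i) * v (Sum.inl k))
      (Matrix.of fun i k => c (Sum.inr i) * v (Sum.inr k))) (LSpan_P f) =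
      C (eval c (LSpan_P f)) * ((∑ k, C (v (Sum.inl k)) * X (Sum.inl k)) ^ (d - j) *
        (∑ k, C (v (Sum.inr k)) * X (Sum.inr k)) ^ j) := by
  classical
  unfold LSpan_P
  rw [map_sum, map_sum, map_sum, sum_mul]
  refine sum_congr rfl fun α _ => ?_
  have h4 := mem_Bx.1 α.2
  have e1 : ∑ i, α.1 (Sum.inl i) = d - j := by
    have : xd α.1 = d - j := by omega
    exact this
  have e2 : ∑ i, α.1 (Sum.inr i) = j := h4.2
  rw [aeval_monomial, algebraMap_eq, eval_monomial, Finsupp.prod_fintype _ _ (by intro i; simp),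
    Finsupp.prod_fintype _ _ (by intro i; simp), Fintype.prod_sum_type, Fintype.prod_sum_type,
    LSpan_sf_coe]
  have h5 : ∀ i : Fin a, LSpan_g (Matrix.of fun i k => c (Sum.inl i) * v (Sum.inl k))
      (Matrix.of fun i k => c (Sum.inr i) * v (Sum.inr k)) (Sum.inl i) =
      C (c (Sum.inl i)) * ∑ k, C (v (Sum.inl k)) * X (Sum.inl k) := by
    intro i
    simp only [LSpan_g, Sum.elim_inl, Matrix.of_apply, mul_sum, C_mul, mul_assoc]
  have h6 : ∀ i : Fin b, LSpan_g (Matrix.of fun i k => c (Sum.inl i) * v (Sum.inl k))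
      (Matrix.of fun i k => c (Sum.inr i) * v (Sum.inr k)) (Sum.inr i) =
      C (c (Sum.inr i)) * ∑ k, C (v (Sum.inr k)) * X (Sum.inr k) := by
    intro i
    simp only [LSpan_g, Sum.elim_inr, Matrix.of_apply, mul_sum, C_mul, mul_assoc]
  simp_rw [h5, h6, mul_pow]
  rw [prod_mul_distrib, prod_mul_distrib, prod_pow_eq_pow_sum, prod_pow_eq_pow_sum, e1, e2]
  simp only [C_mul, map_prod, C_pow]
  ring

/-- The coefficients of the products of powers of two linear forms. -/
private lemma LSpan_coeff_pow {a b d j : ℕ} (hj : j ≤ d) (v : Z a b → ℂ)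
    (α : {α // α ∈ Bx a b d j}) :
    coeff (LSpan_sf α.1) ((∑ k, C (v (Sum.inl k)) * X (Sum.inl k)) ^ (d - j) *
        (∑ k, C (v (Sum.inr k)) * X (Sum.inr k)) ^ j : MvPolynomial (Z a b) ℂ) =
      ((Nat.multinomial univ (fun i => α.1 (Sum.inl i)) *
        Nat.multinomial univ (fun i => α.1 (Sum.inr i)) : ℕ) : ℂ) * ∏ i, v i ^ α.1 i := by
  classical
  rw [sum_pow_eq_sum_piAntidiag, sum_pow_eq_sum_piAntidiag, sum_mul_sum, coeff_sum]
  have h1 : ∀ (k : Fin a → ℕ) (l : Fin b → ℕ),
      ((Nat.multinomial univ k : MvPolynomial (Z a b) ℂ) *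
        ∏ i, (C (v (Sum.inl i)) * X (Sum.inl i)) ^ k i) *
      ((Nat.multinomial univ l : MvPolynomial (Z a b) ℂ) *
        ∏ i, (C (v (Sum.inr i)) * X (Sum.inr i)) ^ l i) =
      monomial (LSpan_sf (Sum.elim k l)) (((Nat.multinomial univ k * Nat.multinomial univ l : ℕ) : ℂ)
        * ((∏ i, v (Sum.inl i) ^ k i) * ∏ i, v (Sum.inr i) ^ l i)) := by
    intro k l
    rw [monomial_eq, Finsupp.prod_fintype _ _ (by intro i; simp), Fintype.prod_sum_type,
      LSpan_sf_coe]
    simp only [Sum.elim_inl, Sum.elim_inr, mul_pow, prod_mul_distrib, C_mul, map_prod, C_pow,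
      Nat.cast_mul, ← C_eq_coe_nat]
    ring
  have e1 : ∑ i, α.1 (Sum.inl i) = d - j := by
    have h4 := mem_Bx.1 α.2
    have : xd α.1 = d - j := by omega
    exact this
  have e2 : ∑ i, α.1 (Sum.inr i) = j := (mem_Bx.1 α.2).2
  have h2 : ∀ k ∈ piAntidiag (univ : Finset (Fin a)) (d - j),
      coeff (LSpan_sf α.1) (∑ l ∈ piAntidiag (univ : Finset (Fin b)) j,
      ((Nat.multinomial univ k : MvPolynomial (Z a b) ℂ) *
        ∏ i, (C (v (Sum.inl i)) * X (Sum.inl i)) ^ k i) *
      ((Nat.multinomial univ l : MvPolynomial (Z a b) ℂ) *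
        ∏ i, (C (v (Sum.inr i)) * X (Sum.inr i)) ^ l i)) =
      if k = (fun i => α.1 (Sum.inl i)) then
        (((Nat.multinomial univ (fun i => α.1 (Sum.inl i)) *
        Nat.multinomial univ (fun i => α.1 (Sum.inr i)) : ℕ) : ℂ) * ∏ i, v i ^ α.1 i) else 0 := by
    intro k _
    rw [coeff_sum]
    have h3 : ∀ l ∈ piAntidiag (univ : Finset (Fin b)) j, coeff (LSpan_sf α.1)
      (((Nat.multinomial univ k : MvPolynomial (Z a b) ℂ) *
        ∏ i, (C (v (Sum.inl i)) * X (Sum.inl i)) ^ k i) *
      ((Nat.multinomial univ l : MvPolynomial (Z a b) ℂ) *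
        ∏ i, (C (v (Sum.inr i)) * X (Sum.inr i)) ^ l i)) =
        if l = (fun i => α.1 (Sum.inr i)) then (if k = (fun i => α.1 (Sum.inl i)) then
        (((Nat.multinomial univ (fun i => α.1 (Sum.inl i)) *
        Nat.multinomial univ (fun i => α.1 (Sum.inr i)) : ℕ) : ℂ) * ∏ i, v i ^ α.1 i) else 0)
        else 0 := by
      intro l _
      rw [h1, coeff_monomial]
      by_cases hk : k = (fun i => α.1 (Sum.inl i))
      · by_cases hl : l = (fun i => α.1 (Sum.inr i))
        · have h5 : LSpan_sf (Sum.elim k l) = LSpan_sf α.1 := by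
            rw [LSpan_sf_inj, hk, hl]
            funext x
            rcases x with x | x <;> rfl
          rw [if_pos hk, if_pos hl, if_pos h5, Fintype.prod_sum_type, hk, hl]
        · rw [if_neg hl, if_neg]
          intro h
          apply hl
          rw [LSpan_sf_inj] at h
          funext x
          exact congrFun h (Sum.inr x)
      · rw [if_neg hk, ite_self, if_neg]
        intro h
        apply hk
        rw [LSpan_sf_inj] at h
        funext x
        exact congrFun h (Sum.inl x)
    rw [sum_congr rfl h3, sum_ite_eq' , if_pos]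
    rw [mem_piAntidiag]
    exact ⟨e2, fun i _ => mem_univ i⟩
  rw [sum_congr rfl h2, sum_ite_eq', if_pos]
  rw [mem_piAntidiag]
  exact ⟨e1, fun i _ => mem_univ i⟩

theorem span_L {a b d j : ℕ} (ha : 1 ≤ a) (hb : 1 ≤ b) (hj : j ≤ d) : (LSys a b d j).Span := by
  classical
  intro κ _ m φ hφ hgn
  obtain ⟨G, hG0, hG⟩ := hgn
  obtain ⟨t, ht⟩ : ∃ t, eval t G ≠ 0 := by
    by_contra hcon
    push Not at hcon
    exact hG0 (MvPolynomial.funext fun t => by rw [hcon t, map_zero])
  let p₀ : κ → Z a b → ℂ := fun i k => t (i, k)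
  have hp₀ : eval (fun x : κ × Z a b => p₀ x.1 x.2) G ≠ 0 := ht
  have hbot : (LSys a b d j).V m p₀ = ⊥ := by
    rw [Submodule.eq_bot_iff]
    intro f hf
    by_contra hf0
    obtain ⟨c, hc⟩ : ∃ c, eval c (LSpan_P f) ≠ 0 := by
      by_contra hcon
      push Not at hcon
      have h0 : LSpan_P f = 0 := MvPolynomial.funext fun a => by rw [hcon a, map_zero]
      apply hf0
      funext α
      rw [← LSpan_coeff_P f α, h0, coeff_zero]
      rfl
    have h1 : ∀ v : Z a b → ℂ, ∑ α : {α // α ∈ Bx a b d j}, φ (Pi.single α 1) *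
        (((Nat.multinomial univ (fun i => α.1 (Sum.inl i)) *
        Nat.multinomial univ (fun i => α.1 (Sum.inr i)) : ℕ) : ℂ) * ∏ i, v i ^ α.1 i) = 0 := by
      intro v
      have h2 := LSpan_all m φ G hG p₀ hp₀ f hf
        (Matrix.of fun i k => c (Sum.inl i) * v (Sum.inl k))
        (Matrix.of fun i k => c (Sum.inr i) * v (Sum.inr k))
      rw [LSpan_functional] at h2
      have h3 : ∀ α : {α // α ∈ Bx a b d j}, φ (Pi.single α 1) *
          LSpan_T (Matrix.of fun i k => c (Sum.inl i) * v (Sum.inl k))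
            (Matrix.of fun i k => c (Sum.inr i) * v (Sum.inr k)) f α =
          eval c (LSpan_P f) * (φ (Pi.single α 1) *
          (((Nat.multinomial univ (fun i => α.1 (Sum.inl i)) *
          Nat.multinomial univ (fun i => α.1 (Sum.inr i)) : ℕ) : ℂ) * ∏ i, v i ^ α.1 i)) := by
        intro α
        unfold LSpan_T
        rw [LSpan_rank_one hj, coeff_C_mul, LSpan_coeff_pow hj]
        ring
      simp_rw [h3] at h2
      rw [← mul_sum] at h2
      exact (mul_eq_zero.1 h2).resolve_left hc
    have h4 : LSpan_P (fun α : {α // α ∈ Bx a b d j} => φ (Pi.single α 1) *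
        ((Nat.multinomial univ (fun i => α.1 (Sum.inl i)) *
        Nat.multinomial univ (fun i => α.1 (Sum.inr i)) : ℕ) : ℂ)) = 0 := by
      apply MvPolynomial.funext
      intro v
      rw [map_zero, ← h1 v]
      unfold LSpan_P
      rw [map_sum]
      refine sum_congr rfl fun α _ => ?_
      rw [eval_monomial, Finsupp.prod_fintype _ _ (by intro i; simp), LSpan_sf_coe]
      ring
    apply hφ
    ext α
    have h5 := LSpan_coeff_P (fun α : {α // α ∈ Bx a b d j} => φ (Pi.single α 1) *
        ((Nat.multinomial univ (fun i => α.1 (Sum.inl i)) *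
        Nat.multinomial univ (fun i => α.1 (Sum.inr i)) : ℕ) : ℂ)) α
    rw [h4, coeff_zero] at h5
    have h6 : ((Nat.multinomial univ (fun i => α.1 (Sum.inl i)) *
        Nat.multinomial univ (fun i => α.1 (Sum.inr i)) : ℕ) : ℂ) ≠ 0 := by
      rw [Nat.cast_ne_zero]
      exact Nat.mul_ne_zero (Nat.multinomial_pos _ _).ne' (Nat.multinomial_pos _ _).ne'
    have h7 : φ (Pi.single α 1) = 0 := (mul_eq_zero.1 h5.symm).resolve_right h6
    simpa using h7
  have h4 := gd_le (LSys a b d j) m p₀
  rw [hbot, finrank_bot] at h4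
  omega

end Pool.Agent.H51.TB

end

section

/-!
# Module U7 (TB2): a point at a coordinate point; the number of exponents

`GM_cons`: the position of the new point is the coordinate point `q` (`q o = 1`, `q = 0` at the other
variables).  For `α` with `α o + M > d` and `β = α` with `β o = 0` (so `|β| = d - α o < M`), the condition
`β` at `q` is `f α = 0`: `tcr q α' β ≠ 0` only if `α' = β` off `o`, that is `α' = α`.  So `f` is supported on
the exponents with `α o + M ≤ d`, and satisfies the conditions `S` there.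

`card_Bu_add`: `wr d (0, 0) g j = j - g.2` for `g.2 ≤ j ≤ d - g.1` (`rk (d + 1) 0 0 i = i`), so
`Lam d M (0, 0) j = {g : g.2 ≤ j, g.1 + j < M}` and `wt a b d M (0, 0) j` is
`multichoose a (M - j - 1) * multichoose b j` for `j < M` and `0` for `j ≥ M`
(`∑_{k ≤ n} multichoose (a - 1) k = multichoose a n`), which is the number of the exponents of the level `j`
with `α_o ≥ d - M + 1`.  (`card_Bx` in `LBas.lean` has the proof of the product formula.)
-/

namespace Pool.Agent.H51.TB

open Finset Pool.Agent.H18.Ex Pool.Agent.H21.NX Pool.Agent.H18.Ta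

private theorem UPt_tcr_eq {ι : Type} [Fintype ι] [DecidableEq ι] (o : ι) (a : ι → ℕ) :
    tcr (fun i => if i = o then (1 : ℂ) else 0) a (Function.update a o 0) = 1 := by
  unfold tcr
  refine prod_eq_one fun i _ => ?_
  beta_reduce
  by_cases hi : i = o
  · subst hi
    rw [Function.update_self, if_pos rfl, Nat.choose_zero_right, one_pow, Nat.cast_one, one_mul]
  · rw [Function.update_of_ne hi, if_neg hi, Nat.choose_self, Nat.sub_self, pow_zero, Nat.cast_one,
      one_mul]

private theorem UPt_tcr_zero {ι : Type} [Fintype ι] [DecidableEq ι] (o : ι) (a c : ι → ℕ)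
    (h : ∑ i, a i = ∑ i, c i) (hne : c ≠ a) :
    tcr (fun i => if i = o then (1 : ℂ) else 0) c (Function.update a o 0) = 0 := by
  by_contra h00
  apply hne
  unfold tcr at h00
  have h0 := prod_ne_zero_iff.1 h00
  have h1 : ∀ i, i ≠ o → c i = a i := by
    intro i hi
    have h2 := h0 i (mem_univ i)
    beta_reduce at h2
    rw [Function.update_of_ne hi, if_neg hi] at h2
    have h3 : ((c i).choose (a i) : ℂ) ≠ 0 := left_ne_zero_of_mul h2
    have h4 : (0 : ℂ) ^ (c i - a i) ≠ 0 := right_ne_zero_of_mul h2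
    have h5 : a i ≤ c i := by
      by_contra h6
      apply h3
      rw [Nat.choose_eq_zero_of_lt (by omega), Nat.cast_zero]
    have h7 : c i - a i = 0 := by
      by_contra h8
      exact h4 (zero_pow h8)
    omega
  have h9 : c o = a o := by
    have e1 := Finset.add_sum_erase univ a (mem_univ o)
    have e2 := Finset.add_sum_erase univ c (mem_univ o)
    have e3 : ∑ i ∈ univ.erase o, c i = ∑ i ∈ univ.erase o, a i :=
      sum_congr rfl fun i hi => h1 i (ne_of_mem_erase hi)
    omega
  funext i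
  by_cases hi : i = o
  · rw [hi]; exact h9
  · exact h1 i hi

theorem GM_cons {ι : Type} [Fintype ι] [DecidableEq ι] (o : ι) (d M : ℕ) (S : Multiset (Kind ι))
    (h : GM ((Sx ι d).filter fun α => α o + M ≤ d) S) : GM (Sx ι d) (Kind.free M ::ₘ S) := by
  obtain ⟨n, k, rfl, pos, hpos⟩ := h
  refine ⟨n + 1, Fin.cons (Kind.free M) k, ?_,
    Fin.cons (fun i => if i = o then (1 : ℂ) else 0) pos, ?_⟩
  · rw [Fin.univ_val_map, Fin.univ_val_map, List.ofFn_cons]
    rfl
  · intro f hf
    have hz : ∀ a ∈ Sx ι d, d < a o + M → f a = 0 := by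
      intro a ha hao
      have h1 := hf 0 (Function.update a o 0)
      rw [Fin.cons_zero, Fin.cons_zero] at h1
      have ha' := mem_Sx.1 ha
      have h2 : ∑ i, Function.update a o 0 i < M := by
        have e1 := Finset.add_sum_erase univ a (mem_univ o)
        have e2 := Finset.add_sum_erase univ (Function.update a o 0) (mem_univ o)
        have e3 : ∑ i ∈ univ.erase o, Function.update a o 0 i = ∑ i ∈ univ.erase o, a i :=
          sum_congr rfl fun i hi => Function.update_of_ne (ne_of_mem_erase hi) _ _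
        rw [Function.update_self] at e2
        omega
      have h3 := h1 h2
      rw [sum_eq_single a] at h3
      · have h4 : (Kind.free M : Kind ι).pt (fun i => if i = o then (1 : ℂ) else 0) =
            fun i => if i = o then (1 : ℂ) else 0 := rfl
        rw [h4, UPt_tcr_eq, mul_one] at h3
        exact h3
      · intro c hc hca
        have h4 : (Kind.free M : Kind ι).pt (fun i => if i = o then (1 : ℂ) else 0) =
            fun i => if i = o then (1 : ℂ) else 0 := rfl
        rw [h4, UPt_tcr_zero o a c (by rw [ha', mem_Sx.1 hc]) hca, mul_zero]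
      · intro hn
        exact absurd ha hn
    have hA : ∀ a ∈ (Sx ι d).filter fun α => α o + M ≤ d, f a = 0 := by
      refine hpos f fun j b hb => ?_
      have h1 := hf j.succ b
      rw [Fin.cons_succ, Fin.cons_succ] at h1
      rw [← h1 hb]
      refine sum_subset (filter_subset _ _) fun a ha hna => ?_
      rw [mem_filter, not_and] at hna
      rw [hz a ha (by have := hna ha; omega), zero_mul]
    intro a ha
    by_cases hao : a o + M ≤ d
    · exact hA a (mem_filter.2 ⟨ha, hao⟩)
    · exact hz a ha (by omega)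

private theorem UPt_mc {n : ℕ} (hn : 1 ≤ n) (k : ℕ) :
    ∑ i ∈ range (k + 1), Nat.multichoose (n - 1) i = Nat.multichoose n k := by
  obtain ⟨m, rfl⟩ : ∃ m, n = m + 1 := ⟨n - 1, by omega⟩
  rw [Nat.sum_range_multichoose, Nat.multichoose_eq]
  have h1 : m + 1 + k - 1 = m + k := by omega
  have h2 : k + (m + 1 - 1) = m + k := by omega
  have h3 : m + 1 - 1 = m := by omega
  rw [h1, h2, h3]
  exact Nat.choose_symm_add

private theorem UPt_rk (l i : ℕ) : rk l 0 0 i = i := by
  unfold rk
  split_ifs <;> omega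

private theorem UPt_wr {d j : ℕ} {g : ℕ × ℕ} (h1 : g.2 ≤ j) (h2 : j + g.1 ≤ d) :
    wr d (0, 0) g j = j - g.2 := by
  unfold wr
  have h3 : ((range (d + 1)).filter fun i => g.2 ≤ i ∧ i + g.1 ≤ d ∧
      rk (d + 1) (0, 0).1 (0, 0).2 i < rk (d + 1) (0, 0).1 (0, 0).2 j) = Finset.Ico g.2 j := by
    ext i
    rw [mem_filter, mem_range, mem_Ico, UPt_rk, UPt_rk]
    omega
  rw [h3, Nat.card_Ico]

private theorem UPt_Lam {d j M : ℕ} (hM : M ≤ d) :
    Lam d M (0, 0) j = range (M - j) ×ˢ range (j + 1) := by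
  ext g
  unfold Lam
  rw [mem_filter, mem_product, mem_product, mem_range, mem_range, mem_range, mem_range]
  constructor
  · rintro ⟨⟨h1, h2⟩, h3, h4, h5⟩
    rw [UPt_wr h3 h4] at h5
    omega
  · rintro ⟨h1, h2⟩
    refine ⟨⟨by omega, by omega⟩, by omega, by omega, ?_⟩
    rw [UPt_wr (by omega) (by omega)]
    omega

private theorem UPt_wt {a b d j M : ℕ} (hM : M ≤ d) (ha : 1 ≤ a) (hb : 1 ≤ b) :
    wt a b d M (0, 0) j = if j < M then bet a b (M - 1) j else 0 := by
  unfold wt
  rw [UPt_Lam hM, sum_product]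
  split_ifs with h
  · have h1 : M - j = (M - 1 - j) + 1 := by omega
    unfold Eg bet
    rw [h1, ← UPt_mc ha (M - 1 - j), ← UPt_mc hb j, sum_mul_sum]
  · have h1 : M - j = 0 := by omega
    rw [h1, range_zero, sum_empty]

private theorem UPt_hi {a b d j M : ℕ} (hj : j ≤ d) (hM : M ≤ d) (o : Fin a) :
    ((Bx a b d j).filter fun α => ¬ α (Sum.inl o) ≤ d - M).card =
      if j < M then bet a b (M - 1) j else 0 := by
  have hxd : ∀ α : Z a b → ℕ, α (Sum.inl o) ≤ xd α := by
    intro α
    unfold xd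
    exact single_le_sum (f := fun i => α (Sum.inl i)) (fun i _ => Nat.zero_le _) (mem_univ o)
  split_ifs with h
  · rw [← card_Bx (a := a) (b := b) (d := M - 1) (j := j) (by omega)]
    symm
    have hup : ∀ (α : Z a b → ℕ) (v : ℕ),
        xd (Function.update α (Sum.inl o) v) + α (Sum.inl o) = xd α + v ∧
          yd (Function.update α (Sum.inl o) v) = yd α := by
      intro α v
      constructor
      · unfold xd
        have e1 := Finset.add_sum_erase univ (fun i => α (Sum.inl i)) (mem_univ o)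
        have e2 := Finset.add_sum_erase univ
          (fun i => Function.update α (Sum.inl o) v (Sum.inl i)) (mem_univ o)
        have e3 : ∑ i ∈ univ.erase o, Function.update α (Sum.inl o) v (Sum.inl i) =
            ∑ i ∈ univ.erase o, α (Sum.inl i) :=
          sum_congr rfl fun i hi => Function.update_of_ne
            (fun hh => ne_of_mem_erase hi (Sum.inl_injective hh)) _ _
        simp only [Function.update_self] at e2
        beta_reduce at e1 e2
        omega
      · unfold yd
        exact sum_congr rfl fun i _ => Function.update_of_ne (by exact Sum.inr_ne_inl) _ _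
    refine card_bij' (fun α _ => Function.update α (Sum.inl o) (α (Sum.inl o) + (d - M + 1)))
      (fun α _ => Function.update α (Sum.inl o) (α (Sum.inl o) - (d - M + 1))) ?_ ?_ ?_ ?_
    · intro α hα
      rw [mem_Bx] at hα
      have h1 := hup α (α (Sum.inl o) + (d - M + 1))
      rw [mem_filter, mem_Bx, Function.update_self]
      omega
    · intro α hα
      rw [mem_filter, mem_Bx] at hα
      have h1 := hup α (α (Sum.inl o) - (d - M + 1))
      rw [mem_Bx]
      omega
    · intro α _
      rw [Function.update_self, Function.update_idem]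
      have h1 : α (Sum.inl o) + (d - M + 1) - (d - M + 1) = α (Sum.inl o) := by omega
      rw [h1, Function.update_eq_self]
    · intro α hα
      rw [mem_filter] at hα
      rw [Function.update_self, Function.update_idem]
      have h1 : α (Sum.inl o) - (d - M + 1) + (d - M + 1) = α (Sum.inl o) := by omega
      rw [h1, Function.update_eq_self]
  · rw [card_eq_zero, filter_eq_empty_iff]
    intro α hα
    rw [mem_Bx] at hα
    have h1 := hxd α
    omega

theorem card_Bu_add {a b d j M : ℕ} (hb : 1 ≤ b) (hj : j ≤ d) (hM : M ≤ d) (o : Fin a) :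
    ((Bx a b d j).filter fun α => α (Sum.inl o) ≤ d - M).card + wt a b d M (0, 0) j =
      bet a b d j := by
  have ha : 1 ≤ a := by
    have := o.isLt
    omega
  rw [UPt_wt hM ha hb, ← UPt_hi hj hM o, ← card_Bx (a := a) (b := b) hj]
  exact card_filter_add_card_filter_not _

end Pool.Agent.H51.TB

end

section

/-!
# V7, block ALPHA, module SwapK: the swap lemma and the window lemma for several kinds

As `swap`, `window` of `Pool/Agent/H51/TB/Sw.lean`, `Win.lean`, without a dominating type: one round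
consists of one further point of every kind which occurs.
-/

namespace Pool.Agent.V7

open Finset MvPolynomial Pool.Agent.H51.TB

/-- The index of the point used at `a`: `y a` if `a ∈ A`, else `x a`. -/
private def SkX.zt {κ : Type} [DecidableEq κ] (A : Finset κ) (a : κ) : κ ⊕ (κ ⊕ Unit) :=
  if a ∈ A then Sum.inr (Sum.inl a) else Sum.inl a

private theorem SkX.zt_inj {κ : Type} [DecidableEq κ] (A : Finset κ) :
    Function.Injective (SkX.zt A) := by
  intro a b h
  unfold SkX.zt at h
  split_ifs at h with h1 h2 h2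
  · exact Sum.inl_injective (Sum.inr_injective h)
  · exact Sum.inl_injective h

private theorem SkX.zt_ne_ell {κ : Type} [DecidableEq κ] (A : Finset κ) (a : κ) :
    SkX.zt A a ≠ Sum.inr (Sum.inr ()) := by
  unfold SkX.zt
  split_ifs
  · intro h
    cases h
  · intro h
    cases h

private theorem SkX.zt_ne_y {κ : Type} [DecidableEq κ] (A : Finset κ) (a b : κ) (hb : b ∉ A) :
    SkX.zt A a ≠ Sum.inr (Sum.inl b) := by
  unfold SkX.zt
  split_ifs with h1
  · intro h
    have := Sum.inl_injective (Sum.inr_injective h)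
    exact hb (this ▸ h1)
  · intro h
    cases h

private theorem SkX.elim_inj {α β : Type} (f : α → β) (b : β) (hf : Function.Injective f)
    (hb : ∀ a, f a ≠ b) : Function.Injective (Sum.elim f fun _ : Unit => b) := by
  rintro (x | x) (y | y) h
  · exact congrArg Sum.inl (hf h)
  · exact absurd h (hb x)
  · exact absurd h.symm (hb y)
  · rfl

private theorem SkX.comp_elim {α β γ : Type} (p : β → γ) (f : α → β) (b : β) :
    (fun i => p (Sum.elim f (fun _ : Unit => b) i)) =
      Sum.elim (fun i => p (f i)) fun _ : Unit => p b := by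
  funext i
  rcases i with i | i <;> rfl

/-- Pulling back a general statement along points where the other coordinates are fixed. -/
private theorem SkX.gen_fix {ν κ : Type} (G : MvPolynomial ((κ ⊕ (κ ⊕ Unit)) × ν) ℂ)
    (p₀ : κ ⊕ (κ ⊕ Unit) → ν → ℂ) (h0 : eval (fun x => p₀ x.1 x.2) G ≠ 0)
    (P : (κ → ν → ℂ) → Prop)
    (hP : ∀ y : κ → ν → ℂ,
      eval (fun x : (κ ⊕ (κ ⊕ Unit)) × ν =>
        (Sum.elim (fun a => p₀ (Sum.inl a))
          (Sum.elim y fun _ : Unit => p₀ (Sum.inr (Sum.inr ())))) x.1 x.2) G ≠ 0 → P y) :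
    Gn κ ν P := by
  let s : (κ ⊕ (κ ⊕ Unit)) × ν → MvPolynomial (κ × ν) ℂ := fun x =>
    Sum.elim (fun a => C (p₀ (Sum.inl a) x.2))
      (Sum.elim (fun a => X (a, x.2)) fun _ : Unit => C (p₀ (Sum.inr (Sum.inr ())) x.2)) x.1
  have hea : ∀ (y : κ × ν → ℂ) (F : MvPolynomial ((κ ⊕ (κ ⊕ Unit)) × ν) ℂ),
      eval y (aeval s F) = eval (fun x => eval y (s x)) F := by
    intro y F
    induction F using MvPolynomial.induction_on with
    | C c => simp
    | add p q hp hq => rw [map_add, map_add, map_add, hp, hq]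
    | mul_X p i hp => rw [map_mul, map_mul, map_mul, hp, aeval_X, eval_X]
  have hs : ∀ y : κ → ν → ℂ, eval (fun x => y x.1 x.2) (aeval s G) =
      eval (fun x : (κ ⊕ (κ ⊕ Unit)) × ν =>
        (Sum.elim (fun a => p₀ (Sum.inl a))
          (Sum.elim y fun _ : Unit => p₀ (Sum.inr (Sum.inr ())))) x.1 x.2) G := by
    intro y
    rw [hea]
    refine congrArg (fun f : (κ ⊕ (κ ⊕ Unit)) × ν → ℂ => eval f G) (funext fun x => ?_)
    obtain ⟨x, j⟩ := x
    rcases x with a | a | a <;> simp [s]
  refine ⟨aeval s G, ?_, ?_⟩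
  · intro h
    have h1 := hs fun a => p₀ (Sum.inr (Sum.inl a))
    rw [h, map_zero] at h1
    apply h0
    rw [h1]
    refine congrArg (fun f : (κ ⊕ (κ ⊕ Unit)) × ν → ℂ => eval f G) (funext fun x => ?_)
    obtain ⟨x, j⟩ := x
    rcases x with a | a | a <;> rfl
  · intro y hy
    rw [hs] at hy
    exact hP y hy

variable {E ν T : Type} [Fintype E] (S : Sys E ν T) {κ : Type}

/-- The spaces of solutions at general positions are not contained in a fixed proper subspace,
unless their dimension is at most `D`, for configurations of points of the types in `P`. -/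
def SpanP (P : T → Prop) (D : ℕ) : Prop :=
  ∀ (κ : Type) [Fintype κ] (m : κ → T) (φ : (E → ℂ) →ₗ[ℂ] ℂ), (∀ i, P (m i)) → φ ≠ 0 →
    Gn κ ν (fun p => S.V m p ≤ LinearMap.ker φ) → S.gd m ≤ D

/-- If one further point of any kind which occurs does not change the number of conditions imposed
by a point of type `t`, then this number is `size t`, or the dimension is at most `D`. -/
theorem swapP {P : T → Prop} {D : ℕ} (hS : SpanP S P D) [Fintype κ] [DecidableEq κ] (m : κ → T)
    (hm : ∀ i, P (m i)) (t : T)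
    (hc : ∀ a, S.gd m + S.gd (ad (ad m (m a)) t) = S.gd (ad m t) + S.gd (ad m (m a))) :
    S.gd m ≤ D ∨ S.gd m = S.gd (ad m t) + S.size t := by
  -- the point `ℓ`
  let ℓ : κ ⊕ (κ ⊕ Unit) := Sum.inr (Sum.inr ())
  let yy : κ → κ ⊕ (κ ⊕ Unit) := fun a => Sum.inr (Sum.inl a)
  -- the general conditions
  have c1 : ∀ A ∈ (univ : Finset (Finset κ)), Gn (κ ⊕ (κ ⊕ Unit)) ν fun p =>
      Module.finrank ℂ (S.V m (fun a => p (SkX.zt A a))) = S.gd m := fun A _ =>
    Gn.comap (SkX.zt A) (SkX.zt_inj A) (gn_gd S m)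
  have c2 : Gn (κ ⊕ (κ ⊕ Unit)) ν fun p =>
      Module.finrank ℂ (S.V (fun _ : Unit => t) (fun _ : Unit => p ℓ)) =
        S.gd fun _ : Unit => t :=
    Gn.comap (fun _ : Unit => ℓ) (fun _ _ _ => rfl) (gn_gd S fun _ : Unit => t)
  have c3 : ∀ A ∈ (univ : Finset (Finset κ)), Gn (κ ⊕ (κ ⊕ Unit)) ν fun p =>
      Module.finrank ℂ (S.V (Sum.elim m fun _ : Unit => t)
        (Sum.elim (fun a => p (SkX.zt A a)) fun _ : Unit => p ℓ)) = S.gd (ad m t) := by
    intro A _
    have h := Gn.comap (Sum.elim (SkX.zt A) fun _ : Unit => ℓ)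
      (SkX.elim_inj _ _ (SkX.zt_inj A) (SkX.zt_ne_ell A)) (gn_gd S (ad m t))
    refine h.mono fun p hp => ?_
    rwa [SkX.comp_elim] at hp
  have c4 : ∀ A ∈ (univ : Finset (Finset κ)), Gn (κ ⊕ (κ ⊕ Unit)) ν fun p =>
      ∀ a ∈ (univ : Finset κ), a ∉ A → Module.finrank ℂ (S.V (Sum.elim m fun _ : Unit => m a)
        (Sum.elim (fun a => p (SkX.zt A a)) fun _ : Unit => p (yy a))) = S.gd (ad m (m a)) := by
    intro A _
    refine Gn.all _ fun a _ => ?_
    by_cases ha : a ∈ A
    · refine (c2).mono fun p _ h => absurd ha h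
    · have h := Gn.comap (Sum.elim (SkX.zt A) fun _ : Unit => yy a)
        (SkX.elim_inj _ _ (SkX.zt_inj A) fun b => SkX.zt_ne_y A b a ha)
        (gn_gd S (ad m (m a)))
      refine h.mono fun p hp _ => ?_
      rwa [SkX.comp_elim] at hp
  have c5 : ∀ A ∈ (univ : Finset (Finset κ)), Gn (κ ⊕ (κ ⊕ Unit)) ν fun p =>
      ∀ a ∈ (univ : Finset κ), a ∉ A → Module.finrank ℂ (S.V
        (Sum.elim (Sum.elim m fun _ : Unit => m a) fun _ : Unit => t)
        (Sum.elim (Sum.elim (fun a => p (SkX.zt A a)) fun _ : Unit => p (yy a))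
          fun _ : Unit => p ℓ)) = S.gd (ad (ad m (m a)) t) := by
    intro A _
    refine Gn.all _ fun a _ => ?_
    by_cases ha : a ∈ A
    · refine (c2).mono fun p _ h => absurd ha h
    · have h := Gn.comap (Sum.elim (Sum.elim (SkX.zt A) fun _ : Unit => yy a) fun _ : Unit => ℓ)
        (SkX.elim_inj _ _ (SkX.elim_inj _ _ (SkX.zt_inj A) fun b => SkX.zt_ne_y A b a ha) (by
          rintro (b | b)
          · exact SkX.zt_ne_ell A b
          · intro h
            exact absurd (Sum.inr_injective h) Sum.inl_ne_inr))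
        (gn_gd S (ad (ad m (m a)) t))
      refine h.mono fun p hp _ => ?_
      rwa [SkX.comp_elim, SkX.comp_elim] at hp
  have hall := ((Gn.all _ c1).and c2).and (((Gn.all _ c3).and (Gn.all _ c4)).and
    (Gn.all _ c5))
  -- the key inclusion for general points
  have hkey : Gn (κ ⊕ (κ ⊕ Unit)) ν fun p =>
      Module.finrank ℂ (S.V m (fun a => p (Sum.inl a)) ⊔
        S.V (fun _ : Unit => t) (fun _ : Unit => p ℓ) : Submodule ℂ (E → ℂ)) +
          S.gd (ad m t) = S.gd m + S.gd (fun _ : Unit => t) ∧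
      S.V m (fun a => p (yy a)) ≤ S.V m (fun a => p (Sum.inl a)) ⊔
        S.V (fun _ : Unit => t) (fun _ : Unit => p ℓ) := by
    refine hall.mono ?_
    rintro p ⟨⟨h1, h2⟩, ⟨h3, h4⟩, h5⟩
    let XT : Finset κ → Submodule ℂ (E → ℂ) := fun A =>
      S.V m (fun a => p (SkX.zt A a)) ⊔ S.V (fun _ : Unit => t) (fun _ : Unit => p ℓ)
    have hX : ∀ A, Module.finrank ℂ (XT A) + S.gd (ad m t) =
        S.gd m + S.gd (fun _ : Unit => t) := by
      intro A
      have h := finrank_V_sup S m (fun _ : Unit => t) (fun a => p (SkX.zt A a))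
        (fun _ : Unit => p ℓ)
      rw [h1 A (mem_univ _), h2, h3 A (mem_univ _)] at h
      exact h
    have hstep : ∀ (A : Finset κ) (a : κ), a ∉ A → XT A = XT (insert a A) := by
      intro A a ha
      let U : Submodule ℂ (E → ℂ) :=
        S.V (Sum.elim m fun _ : Unit => m a)
          (Sum.elim (fun a => p (SkX.zt A a)) fun _ : Unit => p (yy a)) ⊔
          S.V (fun _ : Unit => t) (fun _ : Unit => p ℓ)
      have hW : Module.finrank ℂ U + S.gd (ad (ad m (m a)) t) =
          S.gd (ad m (m a)) + S.gd (fun _ : Unit => t) := by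
        have h := finrank_V_sup S (Sum.elim m fun _ : Unit => m a) (fun _ : Unit => t)
          (Sum.elim (fun a => p (SkX.zt A a)) fun _ : Unit => p (yy a)) (fun _ : Unit => p ℓ)
        rw [h4 A (mem_univ _) a (mem_univ _) ha, h2, h5 A (mem_univ _) a (mem_univ _) ha] at h
        exact h
      have hW1 : U ≤ XT A := by
        refine sup_le_sup_right ?_ _
        rw [V_elim]
        exact inf_le_left
      have hW2 : U ≤ XT (insert a A) := by
        refine sup_le_sup_right ?_ _
        intro w hw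
        rw [S.mem_V] at hw ⊢
        intro c
        by_cases hc : c = a
        · subst hc
          have h6 := hw (Sum.inr ())
          have h7 : SkX.zt (insert c A) c = yy c := by
            unfold SkX.zt
            rw [if_pos (mem_insert_self c A)]
          rw [h7]
          exact h6
        · have h6 := hw (Sum.inl c)
          have h7 : SkX.zt (insert a A) c = SkX.zt A c := by
            unfold SkX.zt
            by_cases hbT : c ∈ A
            · rw [if_pos hbT, if_pos (mem_insert_of_mem hbT)]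
            · rw [if_neg hbT, if_neg]
              intro h
              rcases mem_insert.1 h with h | h
              · exact hc h
              · exact hbT h
          rw [h7]
          exact h6
      have e1 : U = XT A := by
        refine Submodule.eq_of_le_of_finrank_eq hW1 ?_
        have := hX A
        have := hc a
        omega
      have e2 : U = XT (insert a A) := by
        refine Submodule.eq_of_le_of_finrank_eq hW2 ?_
        have := hX (insert a A)
        have := hc a
        omega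
      rw [← e1, e2]
    have hind : ∀ A : Finset κ, XT A = XT ∅ := by
      intro A
      induction A using Finset.induction_on with
      | empty => rfl
      | insert a A ha ih => rw [← hstep A a ha, ih]
    have z0 : (fun a => p (SkX.zt (∅ : Finset κ) a)) = fun a => p (Sum.inl a) := by
      funext a
      unfold SkX.zt
      rw [if_neg (Finset.notMem_empty a)]
    have z1 : (fun a => p (SkX.zt (univ : Finset κ) a)) = fun a => p (yy a) := by
      funext a
      unfold SkX.zt
      rw [if_pos (mem_univ a)]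
    constructor
    · have e : XT ∅ = S.V m (fun a => p (Sum.inl a)) ⊔
          S.V (fun _ : Unit => t) (fun _ : Unit => p ℓ) := by
        simp only [XT]
        rw [z0]
      have h := hX ∅
      rw [e] at h
      exact h
    · have h := hind univ
      simp only [XT] at h
      rw [z0, z1] at h
      rw [← h]
      exact le_sup_left
  obtain ⟨G, hG0, hG⟩ := hkey
  obtain ⟨v, hv⟩ : ∃ a, eval a G ≠ 0 := by
    by_contra hcon
    push Not at hcon
    exact hG0 (MvPolynomial.funext fun a => by rw [hcon a, map_zero])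
  let p₀ : κ ⊕ (κ ⊕ Unit) → ν → ℂ := fun i j => v (i, j)
  have hp₀ : eval (fun x => p₀ x.1 x.2) G ≠ 0 := hv
  let X : Submodule ℂ (E → ℂ) :=
    S.V m (fun a => p₀ (Sum.inl a)) ⊔ S.V (fun _ : Unit => t) (fun _ : Unit => p₀ ℓ)
  by_cases hX : X = ⊤
  · right
    have h1 := (hG p₀ hp₀).1
    change Module.finrank ℂ X + _ = _ at h1
    rw [hX, finrank_top, Module.finrank_fintype_fun_eq_card] at h1
    have h2 := gd_unit S t
    omega
  · left
    obtain ⟨φ, hφ0, hφ⟩ := Submodule.exists_le_ker_of_lt_top X (lt_top_iff_ne_top.mpr hX)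
    refine hS κ m φ hm hφ0 ?_
    refine SkX.gen_fix G p₀ hp₀ _ fun y hy => ?_
    exact ((hG (Sum.elim (fun a => p₀ (Sum.inl a))
      (Sum.elim y fun _ : Unit => p₀ (Sum.inr (Sum.inr ())))) hy).2).trans hφ

end Pool.Agent.V7

end
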