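import Pool.Agent.H94.LP7.M106
import Pool.Agent.H94.LP7.M108
import Pool.Agent.H94.LP7.M11
import Pool.Agent.H94.LP7.M116
import Pool.Agent.H94.LP7.M121

/-! The parts of this file: H21.NX.Final, H51.TB.Ridx, H51.TB.Lim, H51.TB.Sw, H51.TB.Win, H51.TB.Fam, H51.TB.Lev, H51.TB.Cnt. -/

section

/-!
# Module Final: exactness in high dimension
-/

namespace Pool.Agent.H21.NX

open Finset Pool.Agent.H18.Fat Pool.Agent.H18.Ex

theorem ell_eq_choose (r d : ℕ) : ell r (d + 1) = (d + r).choose r := by
  unfold ell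
  rw [show d + 1 + r - 1 = d + r by omega]

/-- The multiplicities together with simple points up to the expected number of conditions. -/
def aug (r d : ℕ) {k : ℕ} (m : Fin k → ℕ) : Multiset ℕ :=
  (univ : Finset (Fin k)).val.map m +
    Multiset.replicate ((d + r).choose r - ∑ i, ell r (m i)) 1

theorem aug_map (r d : ℕ) {k : ℕ} (m : Fin k → ℕ) :
    (aug r d m).map (Kind.free (ι := Fin (r + 1))) =
      ((univ : Finset (Fin k)).val.map fun i => Kind.free (m i)) +
      Multiset.replicate ((d + r).choose r - ∑ i, ell r (m i)) (Kind.free 1) := by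
  unfold aug
  rw [Multiset.map_add, Multiset.map_map, Multiset.map_replicate]
  rfl

theorem le_tot_aug (r d : ℕ) {k : ℕ} (m : Fin k → ℕ) :
    ell r (d + 1) ≤ tot r (aug r d m) := by
  unfold aug
  rw [tot_add, tot_replicate, ell_one, mul_one, ell_eq_choose]
  have : tot r ((univ : Finset (Fin k)).val.map m) = ∑ i, ell r (m i) := by
    unfold tot
    rw [Multiset.map_map]
    rfl
  omega

theorem mem_aug {r d k : ℕ} {m : Fin k → ℕ} {M : ℕ} (hM : 1 ≤ M) (h : ∀ i, m i ≤ M) :
    ∀ x ∈ aug r d m, x ≤ M := by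
  intro x hx
  rcases Multiset.mem_add.1 hx with hx | hx
  · obtain ⟨i, -, rfl⟩ := Multiset.mem_map.1 hx
    exact h i
  · rw [Multiset.eq_of_mem_replicate hx]
    exact hM

theorem count_le_aug (r d : ℕ) {k : ℕ} (m : Fin k → ℕ) (μ : ℕ) :
    (univ.filter fun i => m i = μ).card ≤ (aug r d m).count μ := by
  unfold aug
  rw [Multiset.count_add]
  refine le_trans (le_of_eq ?_) (Nat.le_add_right _ _)
  rw [Multiset.count_map, ← Finset.filter_val, Finset.card_def]
  congr 2
  exact Finset.filter_congr fun x _ => eq_comm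

/-- Pigeonhole. -/
theorem exists_count (n M X : ℕ) (S : Multiset ℕ) (hn : 1 ≤ n) (hS : ∀ m ∈ S, m ≤ M)
    (hM : M * X < tot n S) : ∃ μ, 1 ≤ μ ∧ μ ≤ M ∧ X ≤ S.count μ * ell n μ := by
  by_contra hcon
  push Not at hcon
  have h1 : tot n S = ∑ μ ∈ Finset.range (M + 1), S.count μ * ell n μ := by
    unfold tot
    have h2 := Finset.sum_multiset_map_count S (ell n)
    rw [h2]
    rw [Finset.sum_subset (s₂ := Finset.range (M + 1))]
    · exact Finset.sum_congr rfl fun x _ => by rw [smul_eq_mul]
    · intro x hx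
      rw [Finset.mem_range, Nat.lt_succ_iff]
      exact hS x (Multiset.mem_toFinset.1 hx)
    · intro x _ hx
      rw [Multiset.count_eq_zero_of_notMem (fun h => hx (Multiset.mem_toFinset.2 h)), zero_smul]
  rw [Finset.sum_range_succ', ell_zero hn, mul_zero, add_zero] at h1
  have h3 : ∑ μ ∈ Finset.range M, S.count (μ + 1) * ell n (μ + 1) ≤
      ∑ μ ∈ Finset.range M, X := by
    refine Finset.sum_le_sum fun μ hμ => ?_
    exact (hcon (μ + 1) (by omega) (by have := Finset.mem_range.1 hμ; omega)).le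
  rw [Finset.sum_const, Finset.card_range, smul_eq_mul] at h3
  omega

end Pool.Agent.H21.NX

end

section

/-!
# Module E2 (TB): renaming the variables

An equivalence `e : ι ≃ ι'` of the variables (here `finSumFinEquiv : Fin a ⊕ Fin b ≃ Fin (a + b)`)
transports exponents, positions and conditions.
-/

namespace Pool.Agent.H51.TB

open Finset Pool.Agent.H18.Ex Pool.Agent.H21.NX

private theorem Ridx_mem {ι ι' : Type} [Fintype ι] [DecidableEq ι] [Fintype ι'] [DecidableEq ι']
    (e : ι ≃ ι') (d : ℕ) (a : ι → ℕ) : (fun j => a (e.symm j)) ∈ Sx ι' d ↔ a ∈ Sx ι d := by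
  rw [mem_Sx, mem_Sx, Equiv.sum_comp e.symm a]

private theorem Ridx_mem' {ι ι' : Type} [Fintype ι] [DecidableEq ι] [Fintype ι'] [DecidableEq ι']
    (e : ι ≃ ι') (d : ℕ) (a : ι' → ℕ) : (fun i => a (e i)) ∈ Sx ι d ↔ a ∈ Sx ι' d := by
  rw [mem_Sx, mem_Sx, Equiv.sum_comp e a]

private theorem Ridx_tcr {ι ι' : Type} [Fintype ι] [Fintype ι'] (e : ι ≃ ι') (q : ι → ℂ)
    (a b : ι → ℕ) :
    tcr (fun j => q (e.symm j)) (fun j => a (e.symm j)) (fun j => b (e.symm j)) = tcr q a b := by
  unfold tcr
  exact Equiv.prod_comp e.symm fun i => (((a i).choose (b i) : ℕ) : ℂ) * q i ^ (a i - b i)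

theorem GM_equiv {ι ι' : Type} [Fintype ι] [DecidableEq ι] [Fintype ι'] [DecidableEq ι']
    (e : ι ≃ ι') (d : ℕ) (S : Multiset ℕ) (h : GM (Sx ι d) (S.map Kind.free)) :
    GM (Sx ι' d) (S.map Kind.free) := by
  obtain ⟨m, t, rfl⟩ := multi_exists_fin S
  rw [Multiset.map_map, GM_iff] at h ⊢
  obtain ⟨pos, hpos⟩ := h
  refine ⟨fun i j => pos i (e.symm j), fun f' hf' a' ha' => ?_⟩
  have key : ∀ a ∈ Sx ι d, (fun a : ι → ℕ => f' fun j => a (e.symm j)) a = 0 := by
    refine hpos (fun a => f' fun j => a (e.symm j)) fun i b hb => ?_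
    have hb' : ∑ i, b i < t i := hb
    have h1 : ∑ a ∈ Sx ι' d, f' a * tcr (fun j => pos i (e.symm j)) a (fun j => b (e.symm j)) = 0 := by
      refine hf' i (fun j => b (e.symm j)) ?_
      show ∑ j, b (e.symm j) < t i
      rw [Equiv.sum_comp e.symm b]
      exact hb'
    rw [← h1]
    show ∑ a ∈ Sx ι d, (f' fun j => a (e.symm j)) * tcr (pos i) a b = _
    refine Finset.sum_bij (fun a _ => fun j => a (e.symm j)) (fun a ha => (Ridx_mem e d a).2 ha)
      (fun a _ b _ hab => ?_) (fun a ha => ⟨fun i => a (e i), (Ridx_mem' e d a).2 ha, ?_⟩)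
      (fun a _ => ?_)
    · funext i
      have h2 := congrFun hab (e i)
      simpa using h2
    · funext j
      show a (e (e.symm j)) = a j
      rw [e.apply_symm_apply]
    · rw [Ridx_tcr]
  have h3 := key (fun i => a' (e i)) ((Ridx_mem' e d a').2 ha')
  have h4 : (fun j => a' (e (e.symm j))) = a' := by
    funext j
    rw [e.apply_symm_apply]
  have h5 : f' (fun j => a' (e (e.symm j))) = 0 := h3
  rw [h4] at h5
  exact h5

end Pool.Agent.H51.TB

end

section

/-!
# Module C2 (TB): the limit lemma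

Compare `Pool/Agent/H18/Ta/Core.lean` (the same argument for two variables).

Proof.  By `gn_gd` and `Gn.all` there are positions `p i` such that `V (Lam ... j) p = ⊥` for all
levels `j ≤ d`.  Let `e i = ex (d+1) u ρ`, `c i = (u, ρ)`, `kap = kap (d+1)` and
`key i j = e i * j + kap j`; by `key_lt` (with `ℓ = d + 1`) the keys are ordered as the ranks, and
the ranks are different (`rk_inj`).  We claim that for some `t` the positions
`p_t i = (x_i, t^(e i) y_i)` prove `GI`.  Otherwise for all `t` there is a nonzero `f` (on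
`Sx (Z a b) d`) with `∑_α f_α tcr (p_t i) α β = 0` for all `i`, `|β| < m i`; write
`f_α = t^(kap (yd α)) g_α` and multiply by `t^(e i * yd β)` (`tcr_scale`):
`∑_j t^(key i j) T_j = 0`, `T_j = ∑_{α on level j} g_α tcr (p i) α β` (as in Core, an additional factor
`X` takes care of `t = 0`).  By `exists_poly_solution` there are polynomials `g_α(t)`, not all zero
at `t = 0`, which satisfy these identities as polynomials in `t`.

Fix `i`, a level `j` and `β` with `(xd β, yd β) ∈ Lam d (m i) (c i) j`.  Let `S` be the set of the levels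
of the window `[yd β, d - xd β]` of rank smaller than that of `j`; `S.card = wr d (c i) (xd β, yd β) j`,
so `|β| + S.card < m i` and `weighted` gives `∑_{j'} ∏_{u ∈ S} (j' - u) t^(key i j') T_{j'} = 0`.  Take
the coefficient of `t^(key i j)`: the levels `j'` outside of the window have `T_{j'} = 0` (`tcr_zero`),
those of smaller rank are in `S`, those of larger rank have a larger key.  So `T_j(0) = 0` (the
product over `S` is nonzero at `j`).  Hence the values `g_α(0)` on the level `j` are in
`V (Lam ... j) p = ⊥` for all `j`, a contradiction.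
-/

namespace Pool.Agent.H51.TB

open Finset Pool.Agent.H18.Ex Pool.Agent.H21.NX Pool.Agent.H18.Ta

/-- The positions at the parameter `t`. -/
private def Lim_pos {a b : ℕ} (q : Z a b → ℂ) (s : ℂ) : Z a b → ℂ :=
  Sum.elim (fun v => q (Sum.inl v)) fun v => s * q (Sum.inr v)

private theorem Lim_scale {a b : ℕ} (q : Z a b → ℂ) (s : ℂ) (α β : Z a b → ℕ) :
    s ^ yd β * tcr (Lim_pos q s) α β = s ^ yd α * tcr q α β := by
  have h1 := tcr_scale (fun v => q (Sum.inl v)) (fun v => q (Sum.inr v)) s α β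
  have h2 : (Sum.elim (fun v => q (Sum.inl v)) fun v => q (Sum.inr v) : Z a b → ℂ) = q := by
    funext v
    cases v <;> rfl
  rw [h2] at h1
  exact h1

private theorem Lim_fiber {a b d : ℕ} {M : Type*} [AddCommMonoid M] (f : (Z a b → ℕ) → M) :
    ∑ α ∈ Sx (Z a b) d, f α = ∑ j ∈ range (d + 1), ∑ α ∈ Bx a b d j, f α := by
  symm
  unfold Bx
  refine sum_fiberwise_of_maps_to (g := fun α : Z a b → ℕ => yd α) ?_ f
  intro α hα
  rw [mem_Sx, Fintype.sum_sum_type] at hα
  rw [mem_range]
  show yd α < d + 1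
  unfold yd
  omega

/-- The positions at which all levels are killed. -/
private theorem Lim_gen {a b d : ℕ} {κ : Type} [Fintype κ] (m : κ → ℕ) (c : κ → ℕ × ℕ)
    (h : ∀ j ≤ d, (LSys a b d j).gd (fun i => Lam d (m i) (c i) j) = 0) :
    ∃ p : κ → Z a b → ℂ, ∀ j ≤ d, ∀ f ∈ (LSys a b d j).V (fun i => Lam d (m i) (c i) j) p,
      f = 0 := by
  have h1 : Gn κ (Z a b) fun p => ∀ j ∈ range (d + 1),
      Module.finrank ℂ ((LSys a b d j).V (fun i => Lam d (m i) (c i) j) p) =
        (LSys a b d j).gd (fun i => Lam d (m i) (c i) j) :=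
    Gn.all (range (d + 1)) fun j _ => gn_gd (LSys a b d j) _
  obtain ⟨p, hp⟩ := h1.exists
  refine ⟨p, fun j hj f hf => ?_⟩
  have h2 := hp j (mem_range.2 (by omega))
  rw [h j hj, Submodule.finrank_eq_zero] at h2
  rw [h2] at hf
  exact (Submodule.mem_bot ℂ).1 hf

theorem limit {a b d : ℕ} {κ : Type} [Fintype κ] (m : κ → ℕ) (c : κ → ℕ × ℕ)
    (hc : ∀ i, (c i).1 + (c i).2 ≤ d)
    (h : ∀ j ≤ d, (LSys a b d j).gd (fun i => Lam d (m i) (c i) j) = 0) :
    GI (Sx (Z a b) d) fun i => Kind.free (m i) := by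
  classical
  obtain ⟨p, hp⟩ := Lim_gen m c h
  by_contra hcon
  unfold GI InjAt at hcon
  push Not at hcon
  let e : κ → ℕ := fun i => ex (d + 1) (c i).1 (c i).2
  let key : κ → ℕ → ℕ := fun i j => e i * j + kap (d + 1) j
  let A : Finset (Z a b → ℕ) := Sx (Z a b) d
  let ρ : Type := (i : κ) × {β // β ∈ (Kind.free (m i) : Kind (Z a b)).idxs}
  let Mx : ρ → (Z a b → ℕ) → Polynomial ℂ := fun r α =>
    Polynomial.C (tcr (p r.1) α r.2.1) * (Polynomial.X ^ key r.1 (yd α) * Polynomial.X)
  have hsol : ∀ t : ℂ, ∃ f : (Z a b → ℕ) → ℂ,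
      (∀ r, ∑ α ∈ A, f α * (Mx r α).eval t = 0) ∧ ∃ α ∈ A, f α ≠ 0 := by
    intro t
    obtain ⟨f, hf, α₁, hα₁, hne⟩ := hcon fun i => Lim_pos (p i) (t ^ e i)
    by_cases ht : t = 0
    · refine ⟨fun _ => 1, fun r => sum_eq_zero fun α _ => ?_, α₁, hα₁, one_ne_zero⟩
      subst ht
      simp only [Mx]
      simp
    · refine ⟨fun α => f α * (t ^ kap (d + 1) (yd α))⁻¹, fun r => ?_, α₁, hα₁, ?_⟩
      · have h1 : ∑ α ∈ Sx (Z a b) d, f α * tcr (Lim_pos (p r.1) (t ^ e r.1)) α r.2.1 = 0 :=
          hf r.1 r.2.1 (Kind.mem_idxs.1 r.2.2)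
        have h2 : ∑ α ∈ A, f α * (t ^ kap (d + 1) (yd α))⁻¹ * (Mx r α).eval t =
            (t * (t ^ e r.1) ^ yd r.2.1) *
              ∑ α ∈ Sx (Z a b) d, f α * tcr (Lim_pos (p r.1) (t ^ e r.1)) α r.2.1 := by
          rw [mul_sum]
          refine sum_congr rfl fun α _ => ?_
          simp only [Mx, key]
          simp only [Polynomial.eval_mul, Polynomial.eval_C, Polynomial.eval_pow, Polynomial.eval_X]
          have h3 := Lim_scale (p r.1) (t ^ e r.1) α r.2.1
          have h5 : t ^ kap (d + 1) (yd α) ≠ 0 := pow_ne_zero _ ht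
          calc f α * (t ^ kap (d + 1) (yd α))⁻¹ * (tcr (p r.1) α r.2.1 *
                (t ^ (e r.1 * yd α + kap (d + 1) (yd α)) * t))
              = t * f α * ((t ^ e r.1) ^ yd α * tcr (p r.1) α r.2.1) *
                ((t ^ kap (d + 1) (yd α))⁻¹ * t ^ kap (d + 1) (yd α)) := by
                rw [pow_add, pow_mul]
                ring
            _ = t * f α * ((t ^ e r.1) ^ yd r.2.1 *
                tcr (Lim_pos (p r.1) (t ^ e r.1)) α r.2.1) := by
                rw [inv_mul_cancel₀ h5, mul_one, h3]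
            _ = _ := by ring
        rw [h2, h1, mul_zero]
      · exact mul_ne_zero hne (inv_ne_zero (pow_ne_zero _ ht))
  obtain ⟨F, hF, α₀, hα₀, hne⟩ := Pool.Agent.H18.Ex.exists_poly_solution A Mx hsol
  -- the equations without the factor `X`
  have heq : ∀ i (β : Z a b → ℕ), xd β + yd β < m i → ∑ j ∈ range (d + 1),
      (Polynomial.X : Polynomial ℂ) ^ key i j *
        ∑ α ∈ Bx a b d j, F α * tcr (fun v => Polynomial.C (p i v)) α β = 0 := by
    intro i β hβ
    have hmem : β ∈ (Kind.free (m i) : Kind (Z a b)).idxs := by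
      rw [Kind.mem_idxs]
      show ∑ v, β v < m i
      rw [Fintype.sum_sum_type]
      exact hβ
    have h1 := hF ⟨i, ⟨β, hmem⟩⟩
    have h2 : Polynomial.X * ∑ j ∈ range (d + 1),
        (Polynomial.X : Polynomial ℂ) ^ key i j *
          ∑ α ∈ Bx a b d j, F α * tcr (fun v => Polynomial.C (p i v)) α β = 0 := by
      rw [← h1]
      show _ = ∑ α ∈ Sx (Z a b) d, _
      rw [Lim_fiber, mul_sum]
      refine sum_congr rfl fun j _ => ?_
      rw [mul_sum, mul_sum]
      refine sum_congr rfl fun α hα => ?_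
      have h3 : yd α = j := (mem_Bx.1 hα).2
      simp only [Mx]
      rw [h3, tcr_map Polynomial.C (p i) α β]
      ring
    exact (mul_eq_zero.1 h2).resolve_left Polynomial.X_ne_zero
  -- the vanishing at zero
  have hkeyv : ∀ i, ∀ j₀ ≤ d, ∀ β : Z a b → ℕ, (xd β, yd β) ∈ Lam d (m i) (c i) j₀ →
      ∑ α ∈ Bx a b d j₀, tcr (p i) α β * (F α).eval 0 = 0 := by
    intro i j₀ hj₀ β hβ
    unfold Lam at hβ
    rw [mem_filter] at hβ
    obtain ⟨_, hy, hx, hw⟩ := hβ
    simp only at hy hx hw
    have hci : (c i).1 + (c i).2 < d + 1 := by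
      have := hc i
      omega
    set S : Finset ℕ := (range (d + 1)).filter fun k => yd β ≤ k ∧ k + xd β ≤ d ∧
      rk (d + 1) (c i).1 (c i).2 k < rk (d + 1) (c i).1 (c i).2 j₀ with hS
    have hScard : S.card = wr d (c i) (xd β, yd β) j₀ := rfl
    have h2 := weighted (m := m i) (fun v => Polynomial.C (p i v)) F
      (fun j => (Polynomial.X : Polynomial ℂ) ^ key i j) (fun β' hβ' => heq i β' hβ') S β
      (by rw [hScard]; exact hw)
    have h3 := congrArg (fun q => Polynomial.coeff q (key i j₀)) h2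
    simp only [Polynomial.finsetSum_coeff, Polynomial.coeff_zero] at h3
    rw [sum_eq_single j₀] at h3
    · -- the main term
      have h4 : (∏ u ∈ S, (((j₀ : ℕ) : Polynomial ℂ) - ((u : ℕ) : Polynomial ℂ))) =
          Polynomial.C (∏ u ∈ S, ((j₀ : ℂ) - (u : ℂ))) := by
        rw [map_prod]
        refine prod_congr rfl fun u _ => ?_
        rw [map_sub]
        simp
      rw [h4, Polynomial.coeff_C_mul, Polynomial.coeff_X_pow_mul', if_pos le_rfl,
        Nat.sub_self] at h3
      have h5 : (∏ u ∈ S, ((j₀ : ℂ) - (u : ℂ))) ≠ 0 := by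
        rw [prod_ne_zero_iff]
        intro u hu
        rw [sub_ne_zero]
        intro h6
        have h7 : j₀ = u := by exact_mod_cast h6
        have h8 := (mem_filter.1 hu).2.2.2
        rw [← h7] at h8
        exact lt_irrefl _ h8
      have h6 := (mul_eq_zero.1 h3).resolve_left h5
      rw [Polynomial.coeff_zero_eq_eval_zero, Polynomial.eval_finsetSum] at h6
      refine Eq.trans (sum_congr rfl fun α _ => ?_) h6
      rw [← tcr_map Polynomial.C (p i) α β, Polynomial.eval_mul, Polynomial.eval_C, mul_comm]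
    · -- the other terms
      intro j hj hne
      rw [mem_range] at hj
      by_cases hwin : yd β ≤ j ∧ j + xd β ≤ d
      · by_cases hjS : j ∈ S
        · rw [prod_eq_zero hjS (sub_self _), zero_mul, Polynomial.coeff_zero]
        · have h4 : rk (d + 1) (c i).1 (c i).2 j₀ ≤ rk (d + 1) (c i).1 (c i).2 j := by
            by_contra h5
            exact hjS (mem_filter.2 ⟨mem_range.2 hj, hwin.1, hwin.2, by omega⟩)
          have h5 : rk (d + 1) (c i).1 (c i).2 j₀ < rk (d + 1) (c i).1 (c i).2 j := by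
            refine lt_of_le_of_ne h4 fun h6 => hne ?_
            exact (rk_inj hci (by omega) hj h6).symm
          have h6 : key i j₀ < key i j := key_lt hci (by omega) hj h5
          rw [mul_left_comm, Polynomial.coeff_X_pow_mul', if_neg (by omega)]
      · have h4 : ∑ α ∈ Bx a b d j, F α * tcr (fun v => Polynomial.C (p i v)) α β = 0 := by
          refine sum_eq_zero fun α hα => ?_
          rw [tcr_zero _ α β hα hwin, mul_zero]
        rw [h4, mul_zero, mul_zero, Polynomial.coeff_zero]
    · intro hj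
      exact absurd (mem_range.2 (by omega)) hj
  -- conclusion
  have hα₀' : yd α₀ ≤ d ∧ α₀ ∈ Bx a b d (yd α₀) := by
    have h1 : α₀ ∈ Sx (Z a b) d := hα₀
    have h2 : α₀ ∈ Bx a b d (yd α₀) := by
      unfold Bx
      exact mem_filter.2 ⟨h1, rfl⟩
    refine ⟨?_, h2⟩
    have h3 := (mem_Bx.1 h2).1
    omega
  apply hne
  have h1 := hp (yd α₀) hα₀'.1 (fun α => (F α.1).eval 0) (by
    rw [mem_LV]
    intro i β hβ
    rw [sum_coe_sort (Bx a b d (yd α₀)) fun α => tcr (p i) α β * (F α).eval 0]
    exact hkeyv i (yd α₀) hα₀'.1 β hβ)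
  exact congrFun h1 ⟨α₀, hα₀'.2⟩

end Pool.Agent.H51.TB

end

section

/-!
# Module A4 (TB): the swap lemma

As `swap_step` in `Pool/Agent/H21/NX/Swap.lean`: `gdim r d` is replaced by `S.gd`, the homogeneous
forms of degree `d` by all of `E → ℂ` (dimension `Fintype.card E`), `M` by the dominating type `b`
(`hb` is used where the original uses `m a ≤ M`), `gl_lemma` by the hypothesis `hS : S.Span`
(a proper subspace is contained in the kernel of a functional `φ ≠ 0`), `gen_fix` by `Gn.fix`.
-/

namespace Pool.Agent.H51.TB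

open Finset MvPolynomial

/-- The index of the point used at `a`: `y a` if `a ∈ A`, else `x a`. -/
private def SwX.zt {κ : Type} [DecidableEq κ] (A : Finset κ) (a : κ) : κ ⊕ (κ ⊕ Unit) :=
  if a ∈ A then Sum.inr (Sum.inl a) else Sum.inl a

private theorem SwX.zt_inj {κ : Type} [DecidableEq κ] (A : Finset κ) :
    Function.Injective (SwX.zt A) := by
  intro a b h
  unfold SwX.zt at h
  split_ifs at h with h1 h2 h2
  · exact Sum.inl_injective (Sum.inr_injective h)
  · exact Sum.inl_injective h

private theorem SwX.zt_ne_ell {κ : Type} [DecidableEq κ] (A : Finset κ) (a : κ) :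
    SwX.zt A a ≠ Sum.inr (Sum.inr ()) := by
  unfold SwX.zt
  split_ifs
  · intro h
    cases h
  · intro h
    cases h

private theorem SwX.zt_ne_y {κ : Type} [DecidableEq κ] (A : Finset κ) (a b : κ) (hb : b ∉ A) :
    SwX.zt A a ≠ Sum.inr (Sum.inl b) := by
  unfold SwX.zt
  split_ifs with h1
  · intro h
    have := Sum.inl_injective (Sum.inr_injective h)
    exact hb (this ▸ h1)
  · intro h
    cases h

private theorem SwX.elim_inj {α β : Type} (f : α → β) (b : β) (hf : Function.Injective f)
    (hb : ∀ a, f a ≠ b) : Function.Injective (Sum.elim f fun _ : Unit => b) := by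
  rintro (x | x) (y | y) h
  · exact congrArg Sum.inl (hf h)
  · exact absurd h (hb x)
  · exact absurd h.symm (hb y)
  · rfl

private theorem SwX.comp_elim {α β γ : Type} (p : β → γ) (f : α → β) (b : β) :
    (fun i => p (Sum.elim f (fun _ : Unit => b) i)) =
      Sum.elim (fun i => p (f i)) fun _ : Unit => p b := by
  funext i
  rcases i with i | i <;> rfl

private theorem SwX.dom {E ν T : Type} [Fintype E] (S : Sys E ν T) {b t : T} (h : S.Dom b t)
    (q : ν → ℂ) (f : E → ℂ)
    (hf : ∀ r : S.R b, ∑ e, eval q (S.co b r e) * f e = 0) (r : S.R t) :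
    ∑ e, eval q (S.co t r e) * f e = 0 := by
  have h1 : f ∈ S.V (fun _ : Unit => b) fun _ => q := fun _ r => hf r
  exact h q h1 () r

/-- Pulling back a general statement along points where the other coordinates are fixed. -/
private theorem SwX.gen_fix {ν κ : Type} (G : MvPolynomial ((κ ⊕ (κ ⊕ Unit)) × ν) ℂ)
    (p₀ : κ ⊕ (κ ⊕ Unit) → ν → ℂ) (h0 : eval (fun x => p₀ x.1 x.2) G ≠ 0)
    (P : (κ → ν → ℂ) → Prop)
    (hP : ∀ y : κ → ν → ℂ,
      eval (fun x : (κ ⊕ (κ ⊕ Unit)) × ν =>
        (Sum.elim (fun a => p₀ (Sum.inl a))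
          (Sum.elim y fun _ : Unit => p₀ (Sum.inr (Sum.inr ())))) x.1 x.2) G ≠ 0 → P y) :
    Gn κ ν P := by
  let s : (κ ⊕ (κ ⊕ Unit)) × ν → MvPolynomial (κ × ν) ℂ := fun x =>
    Sum.elim (fun a => C (p₀ (Sum.inl a) x.2))
      (Sum.elim (fun a => X (a, x.2)) fun _ : Unit => C (p₀ (Sum.inr (Sum.inr ())) x.2)) x.1
  have hea : ∀ (y : κ × ν → ℂ) (F : MvPolynomial ((κ ⊕ (κ ⊕ Unit)) × ν) ℂ),
      eval y (aeval s F) = eval (fun x => eval y (s x)) F := by
    intro y F
    induction F using MvPolynomial.induction_on with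
    | C c => simp
    | add p q hp hq => rw [map_add, map_add, map_add, hp, hq]
    | mul_X p i hp => rw [map_mul, map_mul, map_mul, hp, aeval_X, eval_X]
  have hs : ∀ y : κ → ν → ℂ, eval (fun x => y x.1 x.2) (aeval s G) =
      eval (fun x : (κ ⊕ (κ ⊕ Unit)) × ν =>
        (Sum.elim (fun a => p₀ (Sum.inl a))
          (Sum.elim y fun _ : Unit => p₀ (Sum.inr (Sum.inr ())))) x.1 x.2) G := by
    intro y
    rw [hea]
    refine congrArg (fun f : (κ ⊕ (κ ⊕ Unit)) × ν → ℂ => eval f G) (funext fun x => ?_)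
    obtain ⟨x, j⟩ := x
    rcases x with a | a | a <;> simp [s]
  refine ⟨aeval s G, ?_, ?_⟩
  · intro h
    have h1 := hs fun a => p₀ (Sum.inr (Sum.inl a))
    rw [h, map_zero] at h1
    apply h0
    rw [h1]
    refine congrArg (fun f : (κ ⊕ (κ ⊕ Unit)) × ν → ℂ => eval f G) (funext fun x => ?_)
    obtain ⟨x, j⟩ := x
    rcases x with a | a | a <;> rfl
  · intro y hy
    rw [hs] at hy
    exact hP y hy

variable {E ν T : Type} [Fintype E] (S : Sys E ν T) {κ : Type}

theorem swap (hS : S.Span) [Fintype κ] [DecidableEq κ] (m : κ → T) (t b : T)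
    (hb : ∀ i, S.Dom b (m i))
    (hc : S.gd m + S.gd (ad (ad m b) t) = S.gd (ad m t) + S.gd (ad m b)) :
    S.gd m = 0 ∨ S.gd m = S.gd (ad m t) + S.size t := by
  -- the point `ℓ`
  let ℓ : κ ⊕ (κ ⊕ Unit) := Sum.inr (Sum.inr ())
  let yy : κ → κ ⊕ (κ ⊕ Unit) := fun a => Sum.inr (Sum.inl a)
  -- the general conditions
  have c1 : ∀ A ∈ (univ : Finset (Finset κ)), Gn (κ ⊕ (κ ⊕ Unit)) ν fun p =>
      Module.finrank ℂ (S.V m (fun a => p (SwX.zt A a))) = S.gd m := fun A _ =>
    Gn.comap (SwX.zt A) (SwX.zt_inj A) (gn_gd S m)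
  have c2 : Gn (κ ⊕ (κ ⊕ Unit)) ν fun p =>
      Module.finrank ℂ (S.V (fun _ : Unit => t) (fun _ : Unit => p ℓ)) =
        S.gd fun _ : Unit => t :=
    Gn.comap (fun _ : Unit => ℓ) (fun _ _ _ => rfl) (gn_gd S fun _ : Unit => t)
  have c3 : ∀ A ∈ (univ : Finset (Finset κ)), Gn (κ ⊕ (κ ⊕ Unit)) ν fun p =>
      Module.finrank ℂ (S.V (Sum.elim m fun _ : Unit => t)
        (Sum.elim (fun a => p (SwX.zt A a)) fun _ : Unit => p ℓ)) = S.gd (ad m t) := by
    intro A _
    have h := Gn.comap (Sum.elim (SwX.zt A) fun _ : Unit => ℓ)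
      (SwX.elim_inj _ _ (SwX.zt_inj A) (SwX.zt_ne_ell A)) (gn_gd S (ad m t))
    refine h.mono fun p hp => ?_
    rwa [SwX.comp_elim] at hp
  have c4 : ∀ A ∈ (univ : Finset (Finset κ)), Gn (κ ⊕ (κ ⊕ Unit)) ν fun p =>
      ∀ a ∈ (univ : Finset κ), a ∉ A → Module.finrank ℂ (S.V (Sum.elim m fun _ : Unit => b)
        (Sum.elim (fun a => p (SwX.zt A a)) fun _ : Unit => p (yy a))) = S.gd (ad m b) := by
    intro A _
    refine Gn.all _ fun a _ => ?_
    by_cases ha : a ∈ A
    · refine (c2).mono fun p _ h => absurd ha h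
    · have h := Gn.comap (Sum.elim (SwX.zt A) fun _ : Unit => yy a)
        (SwX.elim_inj _ _ (SwX.zt_inj A) fun b => SwX.zt_ne_y A b a ha)
        (gn_gd S (ad m b))
      refine h.mono fun p hp _ => ?_
      rwa [SwX.comp_elim] at hp
  have c5 : ∀ A ∈ (univ : Finset (Finset κ)), Gn (κ ⊕ (κ ⊕ Unit)) ν fun p =>
      ∀ a ∈ (univ : Finset κ), a ∉ A → Module.finrank ℂ (S.V
        (Sum.elim (Sum.elim m fun _ : Unit => b) fun _ : Unit => t)
        (Sum.elim (Sum.elim (fun a => p (SwX.zt A a)) fun _ : Unit => p (yy a))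
          fun _ : Unit => p ℓ)) = S.gd (ad (ad m b) t) := by
    intro A _
    refine Gn.all _ fun a _ => ?_
    by_cases ha : a ∈ A
    · refine (c2).mono fun p _ h => absurd ha h
    · have h := Gn.comap (Sum.elim (Sum.elim (SwX.zt A) fun _ : Unit => yy a) fun _ : Unit => ℓ)
        (SwX.elim_inj _ _ (SwX.elim_inj _ _ (SwX.zt_inj A) fun b => SwX.zt_ne_y A b a ha) (by
          rintro (b | b)
          · exact SwX.zt_ne_ell A b
          · intro h
            exact absurd (Sum.inr_injective h) Sum.inl_ne_inr))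
        (gn_gd S (ad (ad m b) t))
      refine h.mono fun p hp _ => ?_
      rwa [SwX.comp_elim, SwX.comp_elim] at hp
  have hall := ((Gn.all _ c1).and c2).and (((Gn.all _ c3).and (Gn.all _ c4)).and
    (Gn.all _ c5))
  -- the key inclusion for general points
  have hkey : Gn (κ ⊕ (κ ⊕ Unit)) ν fun p =>
      Module.finrank ℂ (S.V m (fun a => p (Sum.inl a)) ⊔
        S.V (fun _ : Unit => t) (fun _ : Unit => p ℓ) : Submodule ℂ (E → ℂ)) +
          S.gd (ad m t) = S.gd m + S.gd (fun _ : Unit => t) ∧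
      S.V m (fun a => p (yy a)) ≤ S.V m (fun a => p (Sum.inl a)) ⊔
        S.V (fun _ : Unit => t) (fun _ : Unit => p ℓ) := by
    refine hall.mono ?_
    rintro p ⟨⟨h1, h2⟩, ⟨h3, h4⟩, h5⟩
    let XT : Finset κ → Submodule ℂ (E → ℂ) := fun A =>
      S.V m (fun a => p (SwX.zt A a)) ⊔ S.V (fun _ : Unit => t) (fun _ : Unit => p ℓ)
    have hX : ∀ A, Module.finrank ℂ (XT A) + S.gd (ad m t) =
        S.gd m + S.gd (fun _ : Unit => t) := by
      intro A
      have h := finrank_V_sup S m (fun _ : Unit => t) (fun a => p (SwX.zt A a))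
        (fun _ : Unit => p ℓ)
      rw [h1 A (mem_univ _), h2, h3 A (mem_univ _)] at h
      exact h
    have hstep : ∀ (A : Finset κ) (a : κ), a ∉ A → XT A = XT (insert a A) := by
      intro A a ha
      let U : Submodule ℂ (E → ℂ) :=
        S.V (Sum.elim m fun _ : Unit => b)
          (Sum.elim (fun a => p (SwX.zt A a)) fun _ : Unit => p (yy a)) ⊔
          S.V (fun _ : Unit => t) (fun _ : Unit => p ℓ)
      have hW : Module.finrank ℂ U + S.gd (ad (ad m b) t) =
          S.gd (ad m b) + S.gd (fun _ : Unit => t) := by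
        have h := finrank_V_sup S (Sum.elim m fun _ : Unit => b) (fun _ : Unit => t)
          (Sum.elim (fun a => p (SwX.zt A a)) fun _ : Unit => p (yy a)) (fun _ : Unit => p ℓ)
        rw [h4 A (mem_univ _) a (mem_univ _) ha, h2, h5 A (mem_univ _) a (mem_univ _) ha] at h
        exact h
      have hW1 : U ≤ XT A := by
        refine sup_le_sup_right ?_ _
        rw [V_elim]
        exact inf_le_left
      have hW2 : U ≤ XT (insert a A) := by
        refine sup_le_sup_right ?_ _
        intro w hw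
        rw [S.mem_V] at hw ⊢
        intro c
        by_cases hc : c = a
        · subst hc
          have h6 := hw (Sum.inr ())
          have h7 : SwX.zt (insert c A) c = yy c := by
            unfold SwX.zt
            rw [if_pos (mem_insert_self c A)]
          rw [h7]
          exact SwX.dom S (hb c) _ w h6
        · have h6 := hw (Sum.inl c)
          have h7 : SwX.zt (insert a A) c = SwX.zt A c := by
            unfold SwX.zt
            by_cases hbT : c ∈ A
            · rw [if_pos hbT, if_pos (mem_insert_of_mem hbT)]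
            · rw [if_neg hbT, if_neg]
              intro h
              rcases mem_insert.1 h with h | h
              · exact hc h
              · exact hbT h
          rw [h7]
          exact h6
      have e1 : U = XT A := by
        refine Submodule.eq_of_le_of_finrank_eq hW1 ?_
        have := hX A
        omega
      have e2 : U = XT (insert a A) := by
        refine Submodule.eq_of_le_of_finrank_eq hW2 ?_
        have := hX (insert a A)
        omega
      rw [← e1, e2]
    have hind : ∀ A : Finset κ, XT A = XT ∅ := by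
      intro A
      induction A using Finset.induction_on with
      | empty => rfl
      | insert a A ha ih => rw [← hstep A a ha, ih]
    have z0 : (fun a => p (SwX.zt (∅ : Finset κ) a)) = fun a => p (Sum.inl a) := by
      funext a
      unfold SwX.zt
      rw [if_neg (Finset.notMem_empty a)]
    have z1 : (fun a => p (SwX.zt (univ : Finset κ) a)) = fun a => p (yy a) := by
      funext a
      unfold SwX.zt
      rw [if_pos (mem_univ a)]
    constructor
    · have e : XT ∅ = S.V m (fun a => p (Sum.inl a)) ⊔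
          S.V (fun _ : Unit => t) (fun _ : Unit => p ℓ) := by
        simp only [XT]
        rw [z0]
      have h := hX ∅
      rw [e] at h
      exact h
    · have h := hind univ
      simp only [XT] at h
      rw [z0, z1] at h
      rw [← h]
      exact le_sup_left
  obtain ⟨G, hG0, hG⟩ := hkey
  obtain ⟨v, hv⟩ : ∃ a, eval a G ≠ 0 := by
    by_contra hcon
    push Not at hcon
    exact hG0 (MvPolynomial.funext fun a => by rw [hcon a, map_zero])
  let p₀ : κ ⊕ (κ ⊕ Unit) → ν → ℂ := fun i j => v (i, j)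
  have hp₀ : eval (fun x => p₀ x.1 x.2) G ≠ 0 := hv
  let X : Submodule ℂ (E → ℂ) :=
    S.V m (fun a => p₀ (Sum.inl a)) ⊔ S.V (fun _ : Unit => t) (fun _ : Unit => p₀ ℓ)
  by_cases hX : X = ⊤
  · right
    have h1 := (hG p₀ hp₀).1
    change Module.finrank ℂ X + _ = _ at h1
    rw [hX, finrank_top, Module.finrank_fintype_fun_eq_card] at h1
    have h2 := gd_unit S t
    omega
  · left
    obtain ⟨φ, hφ0, hφ⟩ := Submodule.exists_le_ker_of_lt_top X (lt_top_iff_ne_top.mpr hX)
    refine hS κ m φ hφ0 ?_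
    refine SwX.gen_fix G p₀ hp₀ _ fun y hy => ?_
    exact ((hG (Sum.elim (fun a => p₀ (Sum.inl a))
      (Sum.elim y fun _ : Unit => p₀ (Sum.inr (Sum.inr ())))) hy).2).trans hφ

end Pool.Agent.H51.TB

end

section

/-!
# Module A5 (TB): the window lemma

Proof (as in `Pool/Agent/H21/NX/Chain.lean`).  Let `A_j = m + j b` (`j` further points of type `b`;
e.g. `Sum.elim m fun _ : Fin j => b`), `g_j = gd A_j`, `G_j = gd (A_j, t)`, `c_j = g_j - G_j`.
`g_{j+1} ≥ g_j - size b` (`gd_le_ad`), so `g_j ≥ gd m - j * size b > 0` for `j ≤ size t - 1`.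
Suppose `c_0 ≠ size t`, so `c_0 < size t` (`gd_le_ad`) and `size t ≥ 1`.  By `gd_submod`
`c_{j+1} ≤ c_j`, and if equality holds and `g_j ≠ 0` then `c_j = size t` by `swap` (all types of
`A_j` are dominated by `b`), impossible since `c_j ≤ c_0 < size t`.  Hence `c_{j+1} < c_j` for
`j < size t - 1`, so `c_{size t - 1} = 0`, and `gd_simple` gives `g_{size t - 1} = 0`, a contradiction.
(The order in which points are added does not matter: `gd_comp_equiv`.)
-/

namespace Pool.Agent.H51.TB

open Finset MvPolynomial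

/-- An equivalence of index types. -/
private noncomputable def WinX.eqv (κ : Type) (j : ℕ) : (κ ⊕ Fin j) ⊕ Unit ≃ κ ⊕ Fin (j + 1) :=
  (Equiv.sumAssoc κ (Fin j) Unit).trans
    (Equiv.sumCongr (Equiv.refl κ) (Fintype.equivOfCardEq (by simp)))

private theorem WinX.g_succ {E ν T : Type} [Fintype E] (S : Sys E ν T) {κ : Type} (m : κ → T)
    (b : T) (j : ℕ) :
    S.gd (ad (Sum.elim m fun _ : Fin j => b) b) = S.gd (Sum.elim m fun _ : Fin (j + 1) => b) := by
  rw [← gd_comp_equiv S (WinX.eqv κ j)]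
  congr 1
  funext i
  rcases i with (i | i) | i <;> rfl

private theorem WinX.G_succ {E ν T : Type} [Fintype E] (S : Sys E ν T) {κ : Type} (m : κ → T)
    (t b : T) (j : ℕ) :
    S.gd (ad (ad (Sum.elim m fun _ : Fin j => b) b) t) =
      S.gd (ad (Sum.elim m fun _ : Fin (j + 1) => b) t) := by
  rw [← gd_comp_equiv S (Equiv.sumCongr (WinX.eqv κ j) (Equiv.refl Unit))]
  congr 1
  funext i
  rcases i with ((i | i) | i) | i <;> rfl

private theorem WinX.g_zero {E ν T : Type} [Fintype E] (S : Sys E ν T) {κ : Type} (m : κ → T)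
    (b : T) : S.gd (Sum.elim m fun _ : Fin 0 => b) = S.gd m := by
  rw [← gd_comp_equiv S (Equiv.sumEmpty κ (Fin 0))]
  congr 1
  funext i
  rcases i with i | i
  · rfl
  · exact i.elim0

private theorem WinX.G_zero {E ν T : Type} [Fintype E] (S : Sys E ν T) {κ : Type} (m : κ → T)
    (t b : T) : S.gd (ad (Sum.elim m fun _ : Fin 0 => b) t) = S.gd (ad m t) := by
  rw [← gd_comp_equiv S (Equiv.sumCongr (Equiv.sumEmpty κ (Fin 0)) (Equiv.refl Unit))]
  congr 1
  funext i
  rcases i with (i | i) | i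
  · rfl
  · exact i.elim0
  · rfl

variable {E ν T : Type} [Fintype E] (S : Sys E ν T) {κ : Type}

theorem window (hS : S.Span) [Fintype κ] (m : κ → T) (t b : T) (hb : ∀ i, S.Dom b (m i))
    (h : (S.size t - 1) * S.size b < S.gd m) : S.gd m = S.gd (ad m t) + S.size t := by
  classical
  set g : ℕ → ℕ := fun j => S.gd (Sum.elim m fun _ : Fin j => b) with hg
  set G : ℕ → ℕ := fun j => S.gd (ad (Sum.elim m fun _ : Fin j => b) t) with hG
  have h1 : ∀ j, G j ≤ g j := fun j => gd_ad_le S _ t
  have h2 : ∀ j, g j ≤ G j + S.size t := fun j => gd_le_ad S (Sum.elim m fun _ : Fin j => b) t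
  have h3 : ∀ j, g j ≤ g (j + 1) + S.size b := fun j => by
    have := gd_le_ad S (Sum.elim m fun _ : Fin j => b) b
    rw [WinX.g_succ] at this
    exact this
  have h4 : ∀ j, G j + g (j + 1) ≤ g j + G (j + 1) := fun j => by
    have := gd_submod S (Sum.elim m fun _ : Fin j => b) b t
    rw [WinX.g_succ, WinX.G_succ] at this
    change g (j + 1) + G j ≤ g j + G (j + 1) at this
    omega
  have h5 : ∀ j, g j ≠ 0 → G j + g (j + 1) = g j + G (j + 1) → g j = G j + S.size t := by
    intro j hj he
    have hmj : ∀ a, S.Dom b ((Sum.elim m fun _ : Fin j => b) a) := by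
      rintro (a | a)
      · exact hb a
      · exact fun q => le_rfl
    rcases swap S hS (Sum.elim m fun _ : Fin j => b) t b hmj (by
      rw [WinX.g_succ, WinX.G_succ]
      change g j + G (j + 1) = G j + g (j + 1)
      exact he.symm) with h | h
    · exact absurd h hj
    · exact h
  have hg0 : g 0 = S.gd m := WinX.g_zero S m b
  have hG0 : G 0 = S.gd (ad m t) := WinX.G_zero S m t b
  have hlow : ∀ j, g 0 ≤ g j + j * S.size b := by
    intro j
    induction j with
    | zero => simp
    | succ j ih =>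
      have := h3 j
      have e : (j + 1) * S.size b = j * S.size b + S.size b := by ring
      omega
  have hne : ∀ j, j ≤ S.size t - 1 → g j ≠ 0 := by
    intro j hj h0
    have i1 := hlow j
    have i2 : j * S.size b ≤ (S.size t - 1) * S.size b := Nat.mul_le_mul_right _ hj
    omega
  rw [← hg0, ← hG0]
  by_contra hcon
  have a1 := h1 0
  have a2 := h2 0
  have hpos : 1 ≤ S.size t := by omega
  have key : ∀ j, j ≤ S.size t - 1 → g j - G j + j ≤ S.size t - 1 := by
    intro j
    induction j with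
    | zero => intro _; omega
    | succ j ih =>
      intro hj
      have i1 := ih (by omega)
      have i2 := h4 j
      have i3 := h1 j
      have i4 := h1 (j + 1)
      have i5 : g j ≠ 0 := hne j (by omega)
      have i6 : G j + g (j + 1) ≠ g j + G (j + 1) := fun he => by
        have := h5 j i5 he
        omega
      omega
  have k1 := key _ le_rfl
  have k2 := h1 (S.size t - 1)
  have k3 : G (S.size t - 1) = g (S.size t - 1) := by omega
  exact hne _ le_rfl (gd_simple S hS _ t hpos k3)

end Pool.Agent.H51.TB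

end

section

/-!
# Module A6 (TB): families of points

`S.gf m A` is the general dimension for the points of the finite set `A` of a family `m`.
-/

namespace Pool.Agent.H51.TB

open Finset MvPolynomial

variable {E ν T : Type} [Fintype E] (S : Sys E ν T) {κ : Type}

/-- The general dimension for the points of `A`. -/
noncomputable def Sys.gf (m : κ → T) (A : Finset κ) : ℕ := S.gd fun i : {x // x ∈ A} => m i.1

theorem gf_univ [Fintype κ] (m : κ → T) : S.gf m univ = S.gd m :=
  gd_comp_equiv S (Equiv.subtypeUnivEquiv fun x : κ => mem_univ x) m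

theorem gf_singleton (m : κ → T) (i : κ) : S.gf m {i} + S.size (m i) = Fintype.card E := by
  have h : S.gf m {i} = S.gd fun _ : Unit => m i := by
    let e : Unit ≃ {x : κ // x ∈ ({i} : Finset κ)} :=
      { toFun := fun _ => ⟨i, mem_singleton_self i⟩
        invFun := fun _ => ()
        left_inv := fun _ => rfl
        right_inv := fun x => Subtype.ext (mem_singleton.1 x.2).symm }
    exact (gd_comp_equiv S e fun x => m x.1).symm
  rw [h]
  exact gd_unit S (m i)

theorem gf_insert [DecidableEq κ] (m : κ → T) (A : Finset κ) (i : κ) (hi : i ∉ A) :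
    S.gf m (insert i A) = S.gd (ad (fun i : {x // x ∈ A} => m i.1) (m i)) := by
  let g : {x // x ∈ A} ⊕ Unit → {x // x ∈ insert i A} :=
    Sum.elim (fun x => ⟨x.1, mem_insert_of_mem x.2⟩) fun _ => ⟨i, mem_insert_self i A⟩
  have hg : Function.Bijective g := by
    constructor
    · rintro (x | x) (y | y) h
      · have h1 : x.1 = y.1 := congrArg (fun z : {x // x ∈ insert i A} => z.1) h
        exact congrArg Sum.inl (Subtype.ext h1)
      · have h1 : x.1 = i := congrArg (fun z : {x // x ∈ insert i A} => z.1) h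
        exact absurd (h1 ▸ x.2) hi
      · have h1 : i = y.1 := congrArg (fun z : {x // x ∈ insert i A} => z.1) h
        exact absurd (h1 ▸ y.2) hi
      · rfl
    · rintro ⟨x, hx⟩
      rcases mem_insert.1 hx with h | h
      · exact ⟨Sum.inr (), Subtype.ext h.symm⟩
      · exact ⟨Sum.inl ⟨x, h⟩, rfl⟩
  have h1 := gd_comp_equiv S (Equiv.ofBijective g hg) fun x => m x.1
  have h2 : (fun j => m ((Equiv.ofBijective g hg) j).1) =
      ad (fun i : {x // x ∈ A} => m i.1) (m i) := by
    funext j
    rcases j with x | x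
    · rfl
    · rfl
  rw [h2] at h1
  exact h1.symm

/-- A phase: the points of `B` are added one after the other (induction on `B`, `window`).  If the
dimension is larger than `W` then the next point imposes `size` conditions; the dimension never
increases. -/
theorem gf_phase (hS : S.Span) [DecidableEq κ] (m : κ → T) (b : T) (hb : ∀ i, S.Dom b (m i))
    (W : ℕ) (A B : Finset κ) (hAB : Disjoint A B)
    (hW : ∀ i ∈ B, (S.size (m i) - 1) * S.size b ≤ W) :
    S.gf m (A ∪ B) ≤ max (S.gf m A - ∑ i ∈ B, S.size (m i)) W := by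
  induction B using Finset.induction_on with
  | empty =>
    rw [union_empty, sum_empty]
    exact le_max_left _ _
  | insert i B hi ih =>
    have hAB' : Disjoint A B := hAB.mono_right (subset_insert i B)
    have ih' := ih hAB' fun j hj => hW j (mem_insert_of_mem hj)
    have hiA : i ∉ A := fun h => (Finset.disjoint_left.1 hAB) h (mem_insert_self i B)
    have hiU : i ∉ A ∪ B := by
      rw [mem_union]
      rintro (h | h)
      · exact hiA h
      · exact hi h
    have e : A ∪ insert i B = insert i (A ∪ B) := union_insert i A B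
    rw [e, gf_insert S m (A ∪ B) i hiU, sum_insert hi]
    have hW' := hW i (mem_insert_self i B)
    rcases lt_or_ge W (S.gf m (A ∪ B)) with h | h
    · have h1 : S.gf m (A ∪ B) = S.gd (ad (fun i : {x // x ∈ A ∪ B} => m i.1) (m i)) +
          S.size (m i) :=
        window S hS (fun i : {x // x ∈ A ∪ B} => m i.1) (m i) b (fun j => hb j.1)
          (lt_of_le_of_lt hW' h)
      have h2 : S.gf m (A ∪ B) ≤ S.gf m A - ∑ i ∈ B, S.size (m i) := by
        rcases le_max_iff.1 ih' with h3 | h3
        · exact h3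
        · omega
      refine le_trans ?_ (le_max_left _ _)
      omega
    · refine le_trans ?_ (le_max_right _ _)
      have h1 : S.gd (ad (fun i : {x // x ∈ A ∪ B} => m i.1) (m i)) ≤ S.gf m (A ∪ B) :=
        gd_elim_le S (fun i : {x // x ∈ A ∪ B} => m i.1) fun _ : Unit => m i
      exact h1.trans h

end Pool.Agent.H51.TB

end

section

/-!
# Module A7 (TB): the level lemma

The points are added in the following order: first `i₀`, then those of class larger than `μ`, then
class `μ`, then class `μ - 1`, …, class `1`, class `0`; one phase (`gf_phase`) for each group.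
Let `R t` be the dimension after the classes `≥ t` (and `i₀`) have been added.  Then for
`t ≤ μ`: `R t ≤ max (card E - (mass of i₀ and of the classes ≥ t)) (W t)`, by descending induction,
since `R t ≤ max (R (t+1) - mass_t) (W t)` and `W (t+1) ≤ mass_t` for `1 ≤ t < μ`, `Wb ≤ mass_μ`; for `t = 1`
and `t = 0` use `W 1 = 0`, `W 0 = 0`.  At the end `card E - total mass = 0`.
-/

namespace Pool.Agent.H51.TB

open Finset MvPolynomial

variable {E ν T : Type} [Fintype E] (S : Sys E ν T) {κ : Type}

theorem level (hS : S.Span) [Fintype κ] [DecidableEq κ] (m : κ → T) (b : T)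
    (hb : ∀ i, S.Dom b (m i)) (i₀ : κ) (cls : κ → ℕ) (μ : ℕ) (hμ : 1 ≤ μ) (W : ℕ → ℕ) (Wb : ℕ)
    (hW0 : W 0 = 0) (hW1 : W 1 = 0)
    (h1 : ∀ i, i ≠ i₀ → cls i ≤ μ → (S.size (m i) - 1) * S.size b ≤ W (cls i))
    (h2 : ∀ i, i ≠ i₀ → μ < cls i → (S.size (m i) - 1) * S.size b ≤ Wb)
    (h3 : ∀ t, 1 ≤ t → t < μ →
      W (t + 1) ≤ ∑ i ∈ univ.filter (fun i => i ≠ i₀ ∧ cls i = t), S.size (m i))
    (h4 : Wb ≤ ∑ i ∈ univ.filter (fun i => i ≠ i₀ ∧ cls i = μ), S.size (m i))
    (h5 : Fintype.card E ≤ ∑ i, S.size (m i)) : S.gd m = 0 := by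
  -- the groups
  let A : ℕ → Finset κ := fun t => univ.filter (fun i => i = i₀ ∨ t ≤ cls i)
  let B : ℕ → Finset κ := fun t => univ.filter (fun i => i ≠ i₀ ∧ cls i = t)
  have hmemA : ∀ t i, i ∈ A t ↔ (i = i₀ ∨ t ≤ cls i) := fun t i => by simp [A]
  have hmemB : ∀ t i, i ∈ B t ↔ (i ≠ i₀ ∧ cls i = t) := fun t i => by simp [B]
  have hunion : ∀ t, A t = A (t + 1) ∪ B t := by
    intro t
    ext i
    rw [mem_union, hmemA, hmemA, hmemB]
    constructor
    · rintro (h | h)
      · exact Or.inl (Or.inl h)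
      · by_cases hi : i = i₀
        · exact Or.inl (Or.inl hi)
        · rcases Nat.lt_or_ge t (cls i) with h' | h'
          · exact Or.inl (Or.inr h')
          · exact Or.inr ⟨hi, le_antisymm h' h⟩
    · rintro ((h | h) | ⟨_, h⟩)
      · exact Or.inl h
      · exact Or.inr (by omega)
      · exact Or.inr h.ge
  have hdisj : ∀ t, Disjoint (A (t + 1)) (B t) := by
    intro t
    rw [Finset.disjoint_left]
    intro i hi hi'
    rw [hmemA] at hi
    rw [hmemB] at hi'
    rcases hi with h | h
    · exact hi'.1 h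
    · omega
  have hmass : ∀ t, ∑ i ∈ A t, S.size (m i) = ∑ i ∈ A (t + 1), S.size (m i) + ∑ i ∈ B t, S.size (m i) := by
    intro t
    rw [hunion t, sum_union (hdisj t)]
  -- a phase
  have hphase : ∀ t, t ≤ μ → S.gf m (A t) ≤ max (S.gf m (A (t + 1)) - ∑ i ∈ B t, S.size (m i)) (W t) := by
    intro t ht
    rw [hunion t]
    refine gf_phase S hS m b hb (W t) (A (t + 1)) (B t) (hdisj t) ?_
    intro i hi
    obtain ⟨hi1, hi2⟩ := (hmemB t i).1 hi
    have := h1 i hi1 (by omega)
    rwa [hi2] at this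
  -- the large classes
  have hbig : S.gf m (A (μ + 1)) ≤ max (Fintype.card E - ∑ i ∈ A (μ + 1), S.size (m i)) Wb := by
    let C : Finset κ := univ.filter (fun i => i ≠ i₀ ∧ μ < cls i)
    have hmemC : ∀ i, i ∈ C ↔ (i ≠ i₀ ∧ μ < cls i) := fun i => by simp [C]
    have hU : A (μ + 1) = {i₀} ∪ C := by
      ext i
      rw [mem_union, hmemA, hmemC, mem_singleton]
      constructor
      · rintro (h | h)
        · exact Or.inl h
        · by_cases hi : i = i₀
          · exact Or.inl hi
          · exact Or.inr ⟨hi, h⟩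
      · rintro (h | ⟨_, h⟩)
        · exact Or.inl h
        · exact Or.inr h
    have hd : Disjoint ({i₀} : Finset κ) C := by
      rw [Finset.disjoint_singleton_left, hmemC]
      exact fun h => h.1 rfl
    have hp := gf_phase S hS m b hb Wb {i₀} C hd (fun i hi => h2 i ((hmemC i).1 hi).1 ((hmemC i).1 hi).2)
    rw [← hU] at hp
    have hs := gf_singleton S m i₀
    have hm : ∑ i ∈ A (μ + 1), S.size (m i) = S.size (m i₀) + ∑ i ∈ C, S.size (m i) := by
      rw [hU, sum_union hd, sum_singleton]
    rw [hm]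
    have h6 : S.gf m {i₀} - ∑ i ∈ C, S.size (m i) = Fintype.card E - (S.size (m i₀) + ∑ i ∈ C, S.size (m i)) := by
      omega
    rwa [h6] at hp
  -- the descending induction
  have hind : ∀ k, k < μ → S.gf m (A (μ - k)) ≤ max (Fintype.card E - ∑ i ∈ A (μ - k), S.size (m i)) (W (μ - k)) := by
    intro k
    induction k with
    | zero =>
      intro _
      rw [Nat.sub_zero]
      have h7 := hphase μ le_rfl
      have h8 := hmass μ
      have h4' : Wb ≤ ∑ i ∈ B μ, S.size (m i) := h4
      rcases le_max_iff.1 hbig with h | h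
      · rcases le_max_iff.1 h7 with h' | h'
        · exact le_max_of_le_left (by omega)
        · exact le_max_of_le_right h'
      · rcases le_max_iff.1 h7 with h' | h'
        · exact le_max_of_le_left (by omega)
        · exact le_max_of_le_right h'
    | succ k ih =>
      intro hk
      have ih' := ih (by omega)
      have hst : μ - k = (μ - (k + 1)) + 1 := by omega
      have ht1 : 1 ≤ μ - (k + 1) := by omega
      rw [hst] at ih'
      generalize μ - (k + 1) = t at *
      have h7 := hphase t (by omega)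
      have h8 := hmass t
      have h9 : W (t + 1) ≤ ∑ i ∈ B t, S.size (m i) := h3 t ht1 (by omega)
      rcases le_max_iff.1 ih' with h | h
      · rcases le_max_iff.1 h7 with h' | h'
        · exact le_max_of_le_left (by omega)
        · exact le_max_of_le_right h'
      · rcases le_max_iff.1 h7 with h' | h'
        · exact le_max_of_le_left (by omega)
        · exact le_max_of_le_right h'
  have hone := hind (μ - 1) (by omega)
  have hsub : μ - (μ - 1) = 1 := by omega
  rw [hsub, hW1, Nat.max_zero] at hone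
  have h7 := hphase 0 (Nat.zero_le _)
  rw [hW0, Nat.max_zero] at h7
  have h8 := hmass 0
  have hA0 : A 0 = univ := by
    ext i
    simp [A]
  rw [hA0] at h7 h8
  rw [gf_univ] at h7
  simp only [Nat.zero_add] at h7 h8
  omega

end Pool.Agent.H51.TB

end

section

/-!
# Module E1 (TB): from the numbers of points in the cells to `GM`

Index type `κ = Unit ⊕ Σ y : {y : ℕ × (ℕ × ℕ) // y ∈ range (d + 1) ×ˢ KK d}, Fin (c y.1.1 y.1.2)`;
multiplicity `m₀` and cell `(0, 0)` for `Sum.inl ()`, multiplicity `y.1.1` and cell `y.1.2` for the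
others.  The multiset of multiplicities of this family is
`m₀ ::ₘ ∑ m ∈ range (d + 1), replicate (A m) m`, so by `GM_iff`
(`Pool/Agent/H18/Ex/Multi.lean`) it suffices to prove `GI` for this family, and by `limit` that
`gd = 0` on each level `j ≤ d`.  Use `level` with `hS = span_L`, the dominating type
`b = {g : |g| < M}` (`dom_of_subset`; the multiplicities are `≤ M`), `i₀ = Sum.inl ()`,
`cls i = cls d (mult i) (cell i) j`, `W t = ell n t * ell n M` for `t ≥ 2`, `W 0 = W 1 = 0`,
`Wb = ell n (d + 1 - M) * ell n M`, `n = a + b`.  Sizes: `size_le` (with `t = cls`; `ell n 1 = 1`, so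
`size - 1 = 0` if `cls ≤ 1`; `cls ≤ mult ≤ d + 1 - M` for `i ≠ i₀` with `cls_le`), `le_size` (the sums of
`size` are at least the sums of `wt`), `card_Bx`.
-/

namespace Pool.Agent.H51.TB

open Finset Pool.Agent.H18.Ex Pool.Agent.H21.NX Pool.Agent.H18.Ta

private abbrev Cnt_I (d : ℕ) (c : ℕ → ℕ × ℕ → ℕ) : Type :=
  Σ y : {y : ℕ × (ℕ × ℕ) // y ∈ range (d + 1) ×ˢ KK d}, Fin (c y.1.1 y.1.2)

private theorem Cnt_sum {M : Type} [AddCommMonoid M] (d : ℕ) (c : ℕ → ℕ × ℕ → ℕ) (F : ℕ → ℕ × ℕ → M) :
    ∑ s : Cnt_I d c, F s.1.1.1 s.1.1.2 = ∑ m ∈ range (d + 1), ∑ x ∈ KK d, c m x • F m x := by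
  rw [Fintype.sum_sigma]
  have h1 : ∀ y : {y : ℕ × (ℕ × ℕ) // y ∈ range (d + 1) ×ˢ KK d},
      ∑ _t : Fin (c y.1.1 y.1.2), F y.1.1 y.1.2 = (fun z : ℕ × (ℕ × ℕ) => c z.1 z.2 • F z.1 z.2) y.1 := by
    intro y
    rw [sum_const, card_univ, Fintype.card_fin]
  rw [sum_congr rfl fun y _ => h1 y]
  rw [← Finset.sum_product']
  exact Finset.sum_coe_sort (range (d + 1) ×ˢ KK d) fun z : ℕ × (ℕ × ℕ) => c z.1 z.2 • F z.1 z.2

private theorem Cnt_univ_map {κ X : Type} [Fintype κ] (f : κ → X) :
    (univ : Finset κ).val.map f = ∑ i, ({f i} : Multiset X) := by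
  show _ = ((univ : Finset κ).val.map fun i => ({f i} : Multiset X)).sum
  have h := Multiset.sum_map_singleton ((univ : Finset κ).val.map f)
  rw [Multiset.map_map] at h
  exact h.symm

theorem GM_of_counts {a b d M μ m₀ : ℕ} (ha : 2 ≤ a) (hb : 2 ≤ b) (hμ : 1 ≤ μ) (hμM : μ ≤ M)
    (hM : μ + M ≤ d) (hm₀ : m₀ ≤ M) (A : ℕ → ℕ)
    (hA : ∀ m, A m ≠ 0 → 1 ≤ m ∧ m ≤ M ∧ m + M ≤ d + 1) (c : ℕ → ℕ × ℕ → ℕ)
    (hc : ∀ m ∈ range (d + 1), ∑ x ∈ KK d, c m x = A m)
    (h1 : ∀ j ≤ d, bet a b d j ≤ wt a b d m₀ (0, 0) j +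
      ∑ m ∈ range (d + 1), ∑ x ∈ KK d, c m x * wt a b d m x j)
    (h2 : ∀ j ≤ d, ∀ t, 1 ≤ t → t < μ → ell (a + b) (t + 1) * ell (a + b) M ≤
      ∑ m ∈ range (d + 1), ∑ x ∈ KK d, if cls d m x j = t then c m x * wt a b d m x j else 0)
    (h3 : ∀ j ≤ d, ell (a + b) (d + 1 - M) * ell (a + b) M ≤
      ∑ m ∈ range (d + 1), ∑ x ∈ KK d,
        if cls d m x j = μ then c m x * wt a b d m x j else 0) :
    GM (Sx (Z a b) d) ((m₀ ::ₘ ∑ m ∈ range (d + 1), Multiset.replicate (A m) m).map
      Kind.free) := by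
  classical
  have hn1 : 1 ≤ a + b := by omega
  let mult : Unit ⊕ Cnt_I d c → ℕ := Sum.elim (fun _ => m₀) fun s => s.1.1.1
  let cell : Unit ⊕ Cnt_I d c → ℕ × ℕ := Sum.elim (fun _ => (0, 0)) fun s => s.1.1.2
  have hmul : (univ : Finset (Unit ⊕ Cnt_I d c)).val.map mult =
      m₀ ::ₘ ∑ m ∈ range (d + 1), Multiset.replicate (A m) m := by
    rw [Cnt_univ_map, Fintype.sum_sum_type]
    have h4 : ∑ s : Cnt_I d c, ({mult (Sum.inr s)} : Multiset ℕ) =
        ∑ m ∈ range (d + 1), Multiset.replicate (A m) m := by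
      refine (Cnt_sum d c (fun m _ => ({m} : Multiset ℕ))).trans ?_
      refine sum_congr rfl fun m hm => ?_
      rw [← Finset.sum_smul, hc m hm, Multiset.nsmul_singleton]
    rw [h4]
    simp [mult]
  rw [← hmul, Multiset.map_map, GM_iff]
  -- the range of the multiplicities
  have hi : ∀ s : Cnt_I d c, A s.1.1.1 ≠ 0 := by
    intro s
    have h5 := s.1.2
    rw [mem_product] at h5
    rw [← hc _ h5.1]
    have h6 : 0 < c s.1.1.1 s.1.1.2 := lt_of_le_of_lt (Nat.zero_le _) s.2.2
    have h7 : c s.1.1.1 s.1.1.2 ≤ ∑ x ∈ KK d, c s.1.1.1 x :=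
      single_le_sum (fun x _ => Nat.zero_le (c s.1.1.1 x)) h5.2
    omega
  have hcell : ∀ i, (cell i).1 + (cell i).2 ≤ d := by
    rintro (i | s)
    · exact Nat.zero_le d
    · have h5 := s.1.2
      rw [mem_product] at h5
      exact mem_KK.1 h5.2
  have hmM : ∀ i, mult i ≤ M := by
    rintro (i | s)
    · exact hm₀
    · exact (hA _ (hi s)).2.1
  refine limit mult cell hcell fun j hj => ?_
  -- sizes
  have hle : ∀ i, wt a b d (mult i) (cell i) j ≤
      (LSys a b d j).size (Lam d (mult i) (cell i) j) := by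
    intro i
    refine le_size (by omega) (by omega) hj _ fun g hg => ?_
    unfold Lam at hg
    rw [mem_filter] at hg
    exact ⟨hg.2.2.1, hg.2.1⟩
  have hcls : ∀ i, ∀ g ∈ Lam d (mult i) (cell i) j, g.1 + g.2 + 1 ≤ cls d (mult i) (cell i) j := by
    intro i g hg
    exact le_sup (f := fun g : ℕ × ℕ => g.1 + g.2 + 1) hg
  have hsz : ∀ i t, cls d (mult i) (cell i) j ≤ t →
      (LSys a b d j).size (Lam d (mult i) (cell i) j) ≤ ell (a + b) t := by
    intro i t ht
    refine size_le (by omega) _ t fun g hg => ?_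
    have := hcls i g hg
    omega
  let B : Finset (ℕ × ℕ) := (range M ×ˢ range M).filter fun g => g.1 + g.2 < M
  have hB : (LSys a b d j).size B ≤ ell (a + b) M := by
    refine size_le (by omega) _ M fun g hg => ?_
    exact (mem_filter.1 hg).2
  have hdom : ∀ i, (LSys a b d j).Dom B (Lam d (mult i) (cell i) j) := by
    intro i
    refine dom_of_subset fun g hg => ?_
    have h5 := hmM i
    unfold Lam at hg
    rw [mem_filter] at hg
    rw [mem_filter, mem_product, mem_range, mem_range]
    omega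
  -- sums
  have hsumF : ∀ F : ℕ → ℕ × ℕ → ℕ, (∑ s : Cnt_I d c, F (mult (Sum.inr s)) (cell (Sum.inr s))) =
      ∑ m ∈ range (d + 1), ∑ x ∈ KK d, c m x * F m x := by
    intro F
    exact Cnt_sum d c F
  have hsumt : ∀ t, (∑ m ∈ range (d + 1), ∑ x ∈ KK d,
      if cls d m x j = t then c m x * wt a b d m x j else 0) ≤
      ∑ i ∈ univ.filter (fun i : Unit ⊕ Cnt_I d c => i ≠ Sum.inl () ∧ cls d (mult i) (cell i) j = t),
        (LSys a b d j).size (Lam d (mult i) (cell i) j) := by
    intro t
    rw [sum_filter, Fintype.sum_sum_type]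
    have h5 := hsumF fun m x => if cls d m x j = t then wt a b d m x j else 0
    have h6 : (∑ m ∈ range (d + 1), ∑ x ∈ KK d,
        if cls d m x j = t then c m x * wt a b d m x j else 0) =
        ∑ m ∈ range (d + 1), ∑ x ∈ KK d, c m x * if cls d m x j = t then wt a b d m x j else 0 := by
      refine sum_congr rfl fun m _ => sum_congr rfl fun x _ => ?_
      split_ifs
      · rfl
      · rw [mul_zero]
    rw [h6, ← h5]
    refine le_trans (sum_le_sum fun s _ => ?_) (Nat.le_add_left _ _)
    by_cases h7 : cls d (mult (Sum.inr s)) (cell (Sum.inr s)) j = t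
    · rw [if_pos h7, if_pos ⟨Sum.inr_ne_inl, h7⟩]
      exact hle (Sum.inr s)
    · rw [if_neg h7]
      exact Nat.zero_le _
  refine level (LSys a b d j) (span_L (by omega) (by omega) hj)
    (fun i => Lam d (mult i) (cell i) j) B hdom (Sum.inl ())
    (fun i => cls d (mult i) (cell i) j) μ hμ
    (fun t => if t ≤ 1 then 0 else ell (a + b) t * ell (a + b) M)
    (ell (a + b) (d + 1 - M) * ell (a + b) M) (if_pos (by omega)) (if_pos (by omega))
    ?_ ?_ ?_ ?_ ?_
  · intro i _ _
    show ((LSys a b d j).size (Lam d (mult i) (cell i) j) - 1) * (LSys a b d j).size B ≤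
      if cls d (mult i) (cell i) j ≤ 1 then 0
        else ell (a + b) (cls d (mult i) (cell i) j) * ell (a + b) M
    split_ifs with h5
    · have h6 := hsz i 1 h5
      rw [ell_one] at h6
      have h7 : (LSys a b d j).size (Lam d (mult i) (cell i) j) - 1 = 0 := by omega
      rw [h7, zero_mul]
    · exact Nat.mul_le_mul ((Nat.sub_le _ _).trans (hsz i _ le_rfl)) hB
  · rintro (i | s) hne _
    · exact absurd rfl hne
    · have h5 := (hA _ (hi s)).2.2
      have h6 : cls d (mult (Sum.inr s)) (cell (Sum.inr s)) j ≤ d + 1 - M := by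
        refine (cls_le _).trans ?_
        show s.1.1.1 ≤ d + 1 - M
        omega
      exact Nat.mul_le_mul ((Nat.sub_le _ _).trans (hsz _ _ h6)) hB
  · intro t ht1 htμ
    show (if t + 1 ≤ 1 then 0 else ell (a + b) (t + 1) * ell (a + b) M) ≤ _
    rw [if_neg (by omega)]
    exact (h2 j hj t ht1 htμ).trans (hsumt t)
  · exact (h3 j hj).trans (hsumt μ)
  · rw [Fintype.card_coe, card_Bx hj, Fintype.sum_sum_type]
    refine (h1 j hj).trans (Nat.add_le_add ?_ ?_)
    · refine le_trans (hle (Sum.inl ())) ?_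
      rw [Fintype.sum_unique]
    · rw [← hsumF fun m x => wt a b d m x j]
      exact sum_le_sum fun s _ => hle (Sum.inr s)

end Pool.Agent.H51.TB

end
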