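import Pool.Agent.H94.LP7.M10
import Pool.Agent.H94.LP7.M102

/-! The parts of this file: H21.NX.Arith, H51.TB.Solve, H51.TB.Sub, H51.TB.Mov, H51.TB.Adj. -/

section

/-!
# Module Arith: arithmetic for the Horace steps
-/

namespace Pool.Agent.H21.NX

/-- There are enough points. `E0 = ell s S`, `Z` is the length of the other conditions. -/
theorem fit_arith (s S B μ α ρ f τ Z E0 F0 Eμ Fμ : ℕ) (h1 : (μ + s) * Eμ = (s + 1) * Fμ)
    (h2 : (S + s) * E0 = (s + 1) * F0) (h3 : F0 ≤ Z + f * Fμ) (h4 : (s + 1) * Z ≤ (B + s) * τ)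
    (h5 : α * Eμ + ρ + τ = E0) (h6 : μ ≤ B) (h7 : B + 1 ≤ S)
    (h8 : 4 * ((B + s) * (ρ * Eμ)) ≤ E0) (h9 : 0 < E0) : α + ρ ≤ f := by
  by_contra hcon
  have h10 : f ≤ α + ρ := by omega
  have e1 : (s + 1) * (f * Fμ) ≤ (B + s) * (α * Eμ + ρ * Eμ) := by
    calc (s + 1) * (f * Fμ) = f * ((s + 1) * Fμ) := by ring
      _ = f * ((μ + s) * Eμ) := by rw [h1]
      _ ≤ (α + ρ) * ((B + s) * Eμ) := by
          refine Nat.mul_le_mul h10 (Nat.mul_le_mul_right _ (by omega))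
      _ = (B + s) * (α * Eμ + ρ * Eμ) := by ring
  have e2 : (S + s) * E0 ≤ (B + s) * τ + (B + s) * (α * Eμ + ρ * Eμ) := by
    calc (S + s) * E0 = (s + 1) * F0 := h2
      _ ≤ (s + 1) * (Z + f * Fμ) := Nat.mul_le_mul_left _ h3
      _ = (s + 1) * Z + (s + 1) * (f * Fμ) := by ring
      _ ≤ _ := Nat.add_le_add h4 e1
  have e3 : (B + s) * τ + (B + s) * (α * Eμ + ρ * Eμ) ≤ (B + s) * E0 + (B + s) * (ρ * Eμ) := by
    rw [← Nat.mul_add, ← Nat.mul_add]
    refine Nat.mul_le_mul_left _ ?_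
    omega
  have e4 : (B + s) * E0 + E0 ≤ (S + s) * E0 := by
    calc (B + s) * E0 + E0 = (B + 1 + s) * E0 := by ring
      _ ≤ (S + s) * E0 := Nat.mul_le_mul_right _ (by omega)
  omega

/-- The bound `4 (B + s) ρ Eμ ≤ E0` from the numerical conditions. `E1 = ell s (S - 1)`. -/
theorem room_arith (d s S B ρ E0 E1 Eμ : ℕ) (h1 : E1 * (S - 1 + s) = E0 * (S - 1))
    (h2 : 4 * (d + 1) * (ρ * Eμ) ≤ E1) (h3 : B + 1 ≤ S) (h4 : S ≤ d + 1) (h5 : 2 ≤ S) :
    4 * ((B + s) * (ρ * Eμ)) ≤ E0 := by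
  have h6 : 0 < S - 1 := by omega
  refine Nat.le_of_mul_le_mul_right ?_ h6
  calc 4 * ((B + s) * (ρ * Eμ)) * (S - 1) = (B + s) * (4 * (S - 1) * (ρ * Eμ)) := by ring
    _ ≤ (S - 1 + s) * (4 * (d + 1) * (ρ * Eμ)) := by
        refine Nat.mul_le_mul (by omega) (Nat.mul_le_mul_right _ (by omega))
    _ ≤ (S - 1 + s) * E1 := Nat.mul_le_mul_left _ h2
    _ = E0 * (S - 1) := by rw [← h1]; ring

/-- The load after a step. -/
theorem load_arith (d s x S τ' R E0 E1 : ℕ) (h1 : E1 * (S - 1 + s) = E0 * (S - 1))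
    (h2 : (x + s) * τ' ≤ x * E0 + (x + s) * R) (h3 : 4 * (d + 1) * R ≤ E1) (h4 : x + 2 ≤ S)
    (h5 : S ≤ d + 1) (h6 : d + 1 ≤ s) : 4 * (d + 1) * τ' ≤ (4 * (d + 1) - 1) * E1 := by
  obtain ⟨k, rfl⟩ : ∃ k, S = k + 1 := ⟨S - 1, by omega⟩
  rw [Nat.add_sub_cancel] at h1
  have hk : 0 < k := by omega
  have hxs : 0 < x + s := by omega
  have hpos : 0 < k * (x + s) := Nat.mul_pos hk hxs
  refine Nat.le_of_mul_le_mul_left ?_ hpos
  have e1 : k * (x + s) * (4 * (d + 1) * τ') ≤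
      4 * (d + 1) * (x * (k + s)) * E1 + k * (x + s) * E1 := by
    calc k * (x + s) * (4 * (d + 1) * τ') = 4 * (d + 1) * k * ((x + s) * τ') := by ring
      _ ≤ 4 * (d + 1) * k * (x * E0 + (x + s) * R) := Nat.mul_le_mul_left _ h2
      _ = 4 * (d + 1) * x * (E0 * k) + k * (x + s) * (4 * (d + 1) * R) := by ring
      _ = 4 * (d + 1) * x * (E1 * (k + s)) + k * (x + s) * (4 * (d + 1) * R) := by rw [h1]
      _ ≤ 4 * (d + 1) * x * (E1 * (k + s)) + k * (x + s) * E1 :=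
          Nat.add_le_add_left (Nat.mul_le_mul_left _ h3) _
      _ = _ := by ring
  have e2 : 4 * (d + 1) * (x * (k + s)) + 2 * (k * (x + s)) ≤ 4 * (d + 1) * (k * (x + s)) := by
    obtain ⟨j, rfl⟩ : ∃ j, k = x + 1 + j := ⟨k - x - 1, by omega⟩
    have e3 : 2 * ((x + 1 + j) * (x + s)) ≤ 4 * (d + 1) * (s * (j + 1)) := by
      calc 2 * ((x + 1 + j) * (x + s)) ≤ 2 * ((d + 1) * (s + s)) := by
            refine Nat.mul_le_mul_left _ (Nat.mul_le_mul (by omega) (by omega))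
        _ = 4 * (d + 1) * (s * 1) := by ring
        _ ≤ _ := Nat.mul_le_mul_left _ (Nat.mul_le_mul_left _ (by omega))
    calc 4 * (d + 1) * (x * (x + 1 + j + s)) + 2 * ((x + 1 + j) * (x + s)) ≤
        4 * (d + 1) * (x * (x + 1 + j + s)) + 4 * (d + 1) * (s * (j + 1)) :=
          Nat.add_le_add_left e3 _
      _ = 4 * (d + 1) * ((x + 1 + j) * (x + s)) := by ring
  refine le_trans e1 ?_
  obtain ⟨K, hK⟩ : ∃ K, 4 * (d + 1) = K + 1 := ⟨4 * (d + 1) - 1, by omega⟩
  rw [hK] at e2 ⊢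
  rw [Nat.add_sub_cancel]
  have e4 : (K + 1) * (x * (k + s)) + k * (x + s) ≤ K * (k * (x + s)) := by nlinarith
  calc (K + 1) * (x * (k + s)) * E1 + k * (x + s) * E1 =
      ((K + 1) * (x * (k + s)) + k * (x + s)) * E1 := by ring
    _ ≤ (K * (k * (x + s))) * E1 := Nat.mul_le_mul_right _ e4
    _ = k * (x + s) * (K * E1) := by ring

/-- The number of the remaining points at the end. -/
theorem rest_arith (s S B f τ Z E0 F0 Fμ K : ℕ) (h2 : (S + s) * E0 = (s + 1) * F0)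
    (h3 : F0 ≤ Z + f * Fμ) (h4 : (s + 1) * Z ≤ (B + s) * τ) (h5 : (K + 1) * τ ≤ K * E0)
    (h6 : B ≤ S) (h7 : 1 ≤ B) : E0 ≤ (K + 1) * (f * Fμ) := by
  have h8 : 0 < s + 1 := by omega
  refine Nat.le_of_mul_le_mul_left ?_ h8
  have e1 : (K + 1) * ((S + s) * E0) ≤ (B + s) * (K * E0) + (K + 1) * ((s + 1) * (f * Fμ)) := by
    calc (K + 1) * ((S + s) * E0) = (K + 1) * ((s + 1) * F0) := by rw [h2]
      _ ≤ (K + 1) * ((s + 1) * (Z + f * Fμ)) :=
          Nat.mul_le_mul_left _ (Nat.mul_le_mul_left _ h3)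
      _ = (K + 1) * ((s + 1) * Z) + (K + 1) * ((s + 1) * (f * Fμ)) := by ring
      _ ≤ (K + 1) * ((B + s) * τ) + (K + 1) * ((s + 1) * (f * Fμ)) :=
          Nat.add_le_add_right (Nat.mul_le_mul_left _ h4) _
      _ = (B + s) * ((K + 1) * τ) + (K + 1) * ((s + 1) * (f * Fμ)) := by ring
      _ ≤ _ := Nat.add_le_add_right (Nat.mul_le_mul_left _ h5) _
  have e2 : (B + s) * (K * E0) + (B + s) * E0 ≤ (K + 1) * ((S + s) * E0) := by
    calc (B + s) * (K * E0) + (B + s) * E0 = (K + 1) * ((B + s) * E0) := by ring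
      _ ≤ _ := Nat.mul_le_mul_left _ (Nat.mul_le_mul_right _ (by omega))
  have e3 : (s + 1) * E0 ≤ (B + s) * E0 := Nat.mul_le_mul_right _ (by omega)
  calc (s + 1) * E0 ≤ (K + 1) * ((s + 1) * (f * Fμ)) := by omega
    _ = (s + 1) * ((K + 1) * (f * Fμ)) := by ring

end Pool.Agent.H21.NX

end

section

/-!
# Module D9 (TB): the Diophantine system

The unknowns are integers `z s ρ` (`ρ < μ`, `s + ρ + 1 ≤ d`).  `z s ρ` contributes
`z s ρ * v s ρ` to the positions `j` with `s ≤ j ≤ s + ρ` (`j < d`).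

Step 1.  `z₁ s 0 = P s / v s 0` (integer division), so that the remaining `P' s = P s - z₁ s 0 * v s 0`
is in `[0, v s 0) ⊂ [0, B)`, `|z₁ s 0| ≤ E + 1` (indeed `≤ E` if `E ≥ 1`).

Step 2 (`μ ≥ 2`; for `μ = 1` step 1 is the solution since `v s 0 = 1`).  For a vector `Q` (on
`[0, d)`) let `Q^i = ∑_{j ≡ i mod μ} Q j`, `0 ≤ i < μ`.  Choose `x t ∈ [0, q)`, `t = 1, …, μ - 1`, with
`x t * v 0 (μ - 1 - t) ≡ P'^(μ - 1 - t) - P'^(μ - t) (mod q)` (`hcop`), and subtract
`x t * v 0 (μ - 1 - t)` on the positions `[0, μ - 1 - t]`.  Then all `Q^i` are congruent mod `q`: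
the vector subtracted for `t` changes `Q^i - Q^(i+1)` only for `i = μ - 1 - t`.
Step 3.  Subtract unit windows `[s, s + μ - 1]` (`z s (μ - 1)`, `v = 1`) from the right
(`s = d - μ, …, 0`) such that the entries `j ≥ μ - 1` become zero; this does not change the differences
`Q^i - Q^(i')`.  The remaining entries `r i`, `i < μ - 1`, are `Q^i - Q^(μ-1)`, hence divisible by `q`.
Step 4.  `q * 1_{i} = q * 1_{[i, i + μ - 1]} - q * 1_{[i + 1, i + μ - 1]}`: use `z i (μ - 1)` and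
`z (i + 1) (μ - 2)` (`v = q`, `1 ≤ i + 1`, `i + 1 + μ ≤ d`).
All coefficients are bounded by a constant (depending on `d`) times `q * B`.
(If `(s, ρ)` is used in several steps the values are added.)
-/

namespace Pool.Agent.H51.TB

open Finset

/-- `f` is represented on `[0, d)` with coefficients bounded by `C` -/
private def Solve_Rep (d μ : ℕ) (v : ℕ → ℕ → ℤ) (C : ℤ) (f : ℕ → ℤ) : Prop :=
  ∃ z : ℕ → ℕ → ℤ, (∀ s ρ, |z s ρ| ≤ C) ∧
    ∀ j < d, f j = ∑ s ∈ range d, ∑ ρ ∈ range μ,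
      if s ≤ j ∧ j ≤ s + ρ ∧ s + ρ + 1 ≤ d then z s ρ * v s ρ else 0

private theorem Solve_mono {d μ : ℕ} {v : ℕ → ℕ → ℤ} {C C' : ℤ} {f : ℕ → ℤ}
    (h : Solve_Rep d μ v C f) (hC : C ≤ C') : Solve_Rep d μ v C' f := by
  obtain ⟨z, h1, h2⟩ := h
  exact ⟨z, fun s ρ => (h1 s ρ).trans hC, h2⟩

private theorem Solve_congr {d μ : ℕ} {v : ℕ → ℕ → ℤ} {C : ℤ} {f g : ℕ → ℤ}
    (h : Solve_Rep d μ v C f) (hfg : ∀ j < d, g j = f j) : Solve_Rep d μ v C g := by
  obtain ⟨z, h1, h2⟩ := h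
  exact ⟨z, h1, fun j hj => (hfg j hj).trans (h2 j hj)⟩

private theorem Solve_zero (d μ : ℕ) (v : ℕ → ℕ → ℤ) : Solve_Rep d μ v 0 (fun _ => 0) := by
  refine ⟨fun _ _ => 0, fun s ρ => by simp, fun j _ => ?_⟩
  simp

private theorem Solve_add {d μ : ℕ} {v : ℕ → ℕ → ℤ} {C C' : ℤ} {f g : ℕ → ℤ}
    (h : Solve_Rep d μ v C f) (h' : Solve_Rep d μ v C' g) :
    Solve_Rep d μ v (C + C') (fun j => f j + g j) := by
  obtain ⟨z, h1, h2⟩ := h
  obtain ⟨z', h1', h2'⟩ := h'
  refine ⟨fun s ρ => z s ρ + z' s ρ, fun s ρ => ?_, fun j hj => ?_⟩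
  · exact (abs_add_le _ _).trans (add_le_add (h1 s ρ) (h1' s ρ))
  · simp only
    rw [h2 j hj, h2' j hj, ← Finset.sum_add_distrib]
    refine Finset.sum_congr rfl fun s _ => ?_
    rw [← Finset.sum_add_distrib]
    refine Finset.sum_congr rfl fun ρ _ => ?_
    split_ifs
    · ring
    · ring

private theorem Solve_sum {d μ : ℕ} {v : ℕ → ℕ → ℤ} (S : Finset ℕ) (C : ℕ → ℤ)
    (f : ℕ → ℕ → ℤ) (h : ∀ i ∈ S, Solve_Rep d μ v (C i) (f i)) :
    Solve_Rep d μ v (∑ i ∈ S, C i) (fun j => ∑ i ∈ S, f i j) := by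
  classical
  induction S using Finset.induction_on with
  | empty => simpa using Solve_zero d μ v
  | insert a S ha ih =>
    have h1 := h a (Finset.mem_insert_self a S)
    have h2 := ih fun i hi => h i (Finset.mem_insert_of_mem hi)
    have h3 := Solve_add h1 h2
    rw [Finset.sum_insert ha]
    refine Solve_congr h3 fun j _ => ?_
    rw [Finset.sum_insert ha]

private theorem Solve_basic {d μ : ℕ} (v : ℕ → ℕ → ℤ) {s0 ρ0 : ℕ} (hρ : ρ0 < μ)
    (hs : s0 + ρ0 + 1 ≤ d) (x : ℤ) :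
    Solve_Rep d μ v |x| (fun j => if s0 ≤ j ∧ j ≤ s0 + ρ0 then x * v s0 ρ0 else 0) := by
  refine ⟨fun s ρ => if s = s0 ∧ ρ = ρ0 then x else 0, fun s ρ => ?_, fun j _ => ?_⟩
  · simp only
    split_ifs
    · exact le_rfl
    · rw [abs_zero]
      exact abs_nonneg x
  · rw [Finset.sum_eq_single s0, Finset.sum_eq_single ρ0]
    · simp only [if_true, and_self]
      by_cases h : s0 ≤ j ∧ j ≤ s0 + ρ0
      · rw [if_pos h, if_pos ⟨h.1, h.2, hs⟩]
      · rw [if_neg h, if_neg fun h' => h ⟨h'.1, h'.2.1⟩]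
    · intro ρ _ hne
      beta_reduce
      rw [if_neg (fun h' : s0 = s0 ∧ ρ = ρ0 => hne h'.2), zero_mul, ite_self]
    · intro h
      exact absurd (Finset.mem_range.2 hρ) h
    · intro s _ hne
      refine Finset.sum_eq_zero fun ρ _ => ?_
      beta_reduce
      rw [if_neg (fun h' : s = s0 ∧ ρ = ρ0 => hne h'.1), zero_mul, ite_self]
    · intro h
      exact absurd (Finset.mem_range.2 (by omega)) h

/-- unit windows -/
private theorem Solve_win {d μ : ℕ} (hμ : 1 ≤ μ) {v : ℕ → ℕ → ℤ}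
    (hv : ∀ s, s + μ ≤ d → v s (μ - 1) = 1) {s0 : ℕ} (hs : s0 + μ ≤ d) (x : ℤ) :
    Solve_Rep d μ v |x| (fun j => if s0 ≤ j ∧ j < s0 + μ then x else 0) := by
  refine Solve_congr (Solve_basic v (show μ - 1 < μ by omega) (show s0 + (μ - 1) + 1 ≤ d by omega) x)
    fun j _ => ?_
  rw [hv s0 hs, mul_one]
  by_cases h : s0 ≤ j ∧ j < s0 + μ
  · rw [if_pos h, if_pos ⟨h.1, by omega⟩]
  · rw [if_neg h, if_neg fun h' => h ⟨h'.1, by omega⟩]

private theorem Solve_shift {d μ : ℕ} (hμ : 1 ≤ μ) {v : ℕ → ℕ → ℤ}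
    (hv : ∀ s, s + μ ≤ d → v s (μ - 1) = 1) {j0 : ℕ} (h1 : μ ≤ j0) (h2 : j0 < d) (x : ℤ) :
    Solve_Rep d μ v (2 * |x|) (fun j => (if j = j0 then x else 0) -
      (if j = j0 - μ then x else 0)) := by
  have h3 := Solve_add (Solve_win hμ hv (show j0 - μ + 1 + μ ≤ d by omega) x)
    (Solve_win hμ hv (show j0 - μ + μ ≤ d by omega) (-x))
  rw [abs_neg, ← two_mul] at h3
  refine Solve_congr h3 fun j _ => ?_
  by_cases e1 : j = j0
  · rw [if_pos e1, if_neg (by omega), if_pos (by omega), if_neg (by omega)]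
    ring
  · by_cases e2 : j = j0 - μ
    · rw [if_neg e1, if_pos e2, if_neg (by omega), if_pos (by omega)]
      ring
    · rw [if_neg e1, if_neg e2]
      by_cases e3 : j0 - μ + 1 ≤ j ∧ j < j0 - μ + 1 + μ
      · rw [if_pos e3, if_pos (by omega)]
        ring
      · rw [if_neg e3, if_neg (by omega)]
        ring

private theorem Solve_mod {d μ : ℕ} (hμ : 1 ≤ μ) {v : ℕ → ℕ → ℤ}
    (hv : ∀ s, s + μ ≤ d → v s (μ - 1) = 1) (x : ℤ) (j0 : ℕ) (h2 : j0 < d) :
    Solve_Rep d μ v (2 * j0 * |x|) (fun j => (if j = j0 then x else 0) -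
      (if j = j0 % μ then x else 0)) := by
  induction j0 using Nat.strong_induction_on with
  | _ j0 ih =>
    rcases Nat.lt_or_ge j0 μ with h | h
    · refine Solve_mono (Solve_congr (Solve_zero d μ v) fun j _ => ?_) (by positivity)
      rw [Nat.mod_eq_of_lt h, sub_self]
    · have h3 := Solve_add (Solve_shift hμ hv h h2 x) (ih (j0 - μ) (by omega) (by omega))
      refine Solve_mono (Solve_congr h3 fun j _ => ?_) ?_
      · rw [Nat.mod_eq_sub_mod h]
        ring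
      · have e1 : ((j0 - μ : ℕ) : ℤ) + 1 ≤ (j0 : ℤ) := by omega
        have e2 : (((j0 - μ : ℕ) : ℤ) + 1) * |x| ≤ (j0 : ℤ) * |x| :=
          mul_le_mul_of_nonneg_right e1 (abs_nonneg x)
        linarith

/-- the class sums -/
private def Solve_cls (d μ : ℕ) (f : ℕ → ℤ) (i : ℕ) : ℤ :=
  ∑ j0 ∈ range d, if i = j0 % μ then f j0 else 0

private theorem Solve_fold {d μ : ℕ} (hμ : 1 ≤ μ) {v : ℕ → ℕ → ℤ}
    (hv : ∀ s, s + μ ≤ d → v s (μ - 1) = 1) {f : ℕ → ℤ} {M : ℤ} (hf : ∀ j < d, |f j| ≤ M) :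
    Solve_Rep d μ v (2 * d ^ 2 * M) (fun j => f j - Solve_cls d μ f j) := by
  have h1 := Solve_sum (range d) (fun j0 => 2 * j0 * |f j0|)
    (fun j0 j => (if j = j0 then f j0 else 0) - (if j = j0 % μ then f j0 else 0))
    (fun j0 hj0 => Solve_mod hμ hv (f j0) j0 (Finset.mem_range.1 hj0))
  refine Solve_mono (Solve_congr h1 fun j hj => ?_) ?_
  · rw [Finset.sum_sub_distrib, Finset.sum_ite_eq (range d) j f, if_pos (Finset.mem_range.2 hj)]
    rfl
  · calc ∑ j0 ∈ range d, 2 * (j0 : ℤ) * |f j0| ≤ ∑ _j0 ∈ range d, 2 * (d : ℤ) * M := by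
          refine Finset.sum_le_sum fun j0 hj0 => ?_
          have e1 := Finset.mem_range.1 hj0
          have e2 : (j0 : ℤ) ≤ d := by exact_mod_cast e1.le
          exact mul_le_mul (by linarith) (hf j0 e1) (abs_nonneg _) (by positivity)
      _ = 2 * d ^ 2 * M := by
          rw [Finset.sum_const, Finset.card_range, nsmul_eq_mul]
          ring

private theorem Solve_cls_le {d μ : ℕ} {f : ℕ → ℤ} {M : ℤ} (hM : 0 ≤ M)
    (hf : ∀ j < d, |f j| ≤ M) (i : ℕ) : |Solve_cls d μ f i| ≤ d * M := by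
  unfold Solve_cls
  refine (Finset.abs_sum_le_sum_abs _ _).trans ?_
  calc ∑ j0 ∈ range d, |if i = j0 % μ then f j0 else 0| ≤ ∑ _j0 ∈ range d, M := by
        refine Finset.sum_le_sum fun j0 hj0 => ?_
        split_ifs
        · exact hf j0 (Finset.mem_range.1 hj0)
        · rw [abs_zero]
          exact hM
    _ = d * M := by rw [Finset.sum_const, Finset.card_range, nsmul_eq_mul]

private theorem Solve_cls_sub (d μ : ℕ) (f g : ℕ → ℤ) (i : ℕ) :
    Solve_cls d μ (fun j => f j - g j) i = Solve_cls d μ f i - Solve_cls d μ g i := by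
  unfold Solve_cls
  rw [← Finset.sum_sub_distrib]
  refine Finset.sum_congr rfl fun j _ => ?_
  split_ifs
  · rfl
  · ring

private theorem Solve_cls_sum (d μ : ℕ) (S : Finset ℕ) (f : ℕ → ℕ → ℤ) (i : ℕ) :
    Solve_cls d μ (fun j => ∑ t ∈ S, f t j) i = ∑ t ∈ S, Solve_cls d μ (f t) i := by
  unfold Solve_cls
  rw [Finset.sum_comm]
  refine Finset.sum_congr rfl fun j _ => ?_
  split_ifs
  · rfl
  · rw [Finset.sum_const_zero]

private theorem Solve_cls_ind {d μ i' k : ℕ} (h1 : i' < μ) (h2 : k < μ) (h3 : μ ≤ d) (x : ℤ) :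
    Solve_cls d μ (fun j => if 0 ≤ j ∧ j ≤ 0 + i' then x else 0) k =
      if k ≤ i' then x else 0 := by
  unfold Solve_cls
  by_cases h : k ≤ i'
  · rw [if_pos h, Finset.sum_eq_single k]
    · rw [Nat.mod_eq_of_lt h2, if_pos rfl]
      beta_reduce
      rw [if_pos ⟨Nat.zero_le _, by omega⟩]
    · intro j _ hj
      by_cases h4 : j ≤ i'
      · rw [Nat.mod_eq_of_lt (by omega), if_neg (Ne.symm hj)]
      · beta_reduce
        rw [if_neg (fun h' : 0 ≤ j ∧ j ≤ 0 + i' => h4 (by omega)), ite_self]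
    · intro h'
      exact absurd (Finset.mem_range.2 (by omega)) h'
  · rw [if_neg h]
    refine Finset.sum_eq_zero fun j _ => ?_
    by_cases h4 : j ≤ i'
    · rw [Nat.mod_eq_of_lt (by omega), if_neg (by omega)]
    · beta_reduce
      rw [if_neg (fun h' : 0 ≤ j ∧ j ≤ 0 + i' => h4 (by omega)), ite_self]

/-- the points of the first period -/
private theorem Solve_point {d μ : ℕ} (hμ : 1 ≤ μ) (h2 : 2 * μ ≤ d) {v : ℕ → ℕ → ℤ} {q : ℤ}
    (hq : 1 ≤ q) (hv : ∀ s, s + μ ≤ d → v s (μ - 1) = 1)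
    (hvq : 2 ≤ μ → ∀ s, 1 ≤ s → s + μ ≤ d → v s (μ - 2) = q) {i : ℕ} (hi : i < μ - 1) {x : ℤ}
    (hx : q ∣ x) : Solve_Rep d μ v (2 * |x|) (fun j => if j = i then x else 0) := by
  obtain ⟨c, rfl⟩ := hx
  have h3 := Solve_add (Solve_win hμ hv (show i + μ ≤ d by omega) (q * c))
    (Solve_basic v (show μ - 2 < μ by omega) (show i + 1 + (μ - 2) + 1 ≤ d by omega) (-c))
  rw [hvq (by omega) (i + 1) (by omega) (by omega), abs_neg] at h3
  refine Solve_mono (Solve_congr h3 fun j _ => ?_) ?_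
  · by_cases e1 : j = i
    · rw [if_pos e1, if_pos (by omega), if_neg (by omega)]
      ring
    · rw [if_neg e1]
      by_cases e2 : i ≤ j ∧ j < i + μ
      · rw [if_pos e2, if_pos (by omega)]
        ring
      · rw [if_neg e2, if_neg (by omega)]
        ring
  · have e1 : |c| ≤ |q * c| := by
      rw [abs_mul, abs_of_nonneg (by linarith : (0 : ℤ) ≤ q)]
      nlinarith [abs_nonneg c]
    linarith

private theorem Solve_last {d μ : ℕ} (hμ : 1 ≤ μ) (h2 : 2 * μ ≤ d) {v : ℕ → ℕ → ℤ} {q : ℤ}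
    (hq : 1 ≤ q) (hv : ∀ s, s + μ ≤ d → v s (μ - 1) = 1)
    (hvq : 2 ≤ μ → ∀ s, 1 ≤ s → s + μ ≤ d → v s (μ - 2) = q) {f : ℕ → ℤ} {M : ℤ} (hM : 0 ≤ M)
    (hf : ∀ j < d, |f j| ≤ M)
    (hdvd : ∀ i < μ - 1, q ∣ Solve_cls d μ f i - Solve_cls d μ f (μ - 1)) :
    Solve_Rep d μ v (d * M + d * (2 * (2 * (d * M)))) (Solve_cls d μ f) := by
  have h1 := Solve_win hμ hv (show 0 + μ ≤ d by omega) (Solve_cls d μ f (μ - 1))
  have h3 := Solve_sum (range (μ - 1))
    (fun i => 2 * |Solve_cls d μ f i - Solve_cls d μ f (μ - 1)|)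
    (fun i j => if j = i then Solve_cls d μ f i - Solve_cls d μ f (μ - 1) else 0)
    (fun i hi => Solve_point hμ h2 hq hv hvq (Finset.mem_range.1 hi) (hdvd i (Finset.mem_range.1 hi)))
  refine Solve_mono (Solve_congr (Solve_add h1 h3) fun j _ => ?_) ?_
  · rw [Finset.sum_ite_eq (range (μ - 1)) j
      (fun i => Solve_cls d μ f i - Solve_cls d μ f (μ - 1))]
    by_cases e1 : j < μ - 1
    · rw [if_pos (Finset.mem_range.2 e1), if_pos (by omega)]
      ring
    · rw [if_neg (fun h => e1 (Finset.mem_range.1 h)), add_zero]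
      by_cases e2 : j = μ - 1
      · rw [if_pos (by omega), e2]
      · rw [if_neg (by omega)]
        unfold Solve_cls
        refine Finset.sum_eq_zero fun j0 _ => ?_
        have := Nat.mod_lt j0 (show 0 < μ by omega)
        rw [if_neg (by omega)]
  · have e1 := Solve_cls_le (μ := μ) hM hf (μ - 1)
    have e2 : ∑ i ∈ range (μ - 1), 2 * |Solve_cls d μ f i - Solve_cls d μ f (μ - 1)| ≤
        d * (2 * (2 * (d * M))) := by
      calc ∑ i ∈ range (μ - 1), 2 * |Solve_cls d μ f i - Solve_cls d μ f (μ - 1)|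
          ≤ ∑ _i ∈ range (μ - 1), 2 * (2 * (d * M)) := by
            refine Finset.sum_le_sum fun i _ => ?_
            have e3 := Solve_cls_le (μ := μ) hM hf i
            have e4 := abs_sub (Solve_cls d μ f i) (Solve_cls d μ f (μ - 1))
            linarith
        _ = ((μ - 1 : ℕ) : ℤ) * (2 * (2 * (d * M))) := by
            rw [Finset.sum_const, Finset.card_range, nsmul_eq_mul]
        _ ≤ d * (2 * (2 * (d * M))) := by
            have e5 : ((μ - 1 : ℕ) : ℤ) ≤ d := by omega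
            exact mul_le_mul_of_nonneg_right e5 (by positivity)
    exact add_le_add e1 e2

private theorem Solve_cop {a q : ℤ} (hq : 1 ≤ q) (h : IsCoprime a q) (b : ℤ) :
    ∃ y : ℤ, 0 ≤ y ∧ y < q ∧ q ∣ b - y * a := by
  obtain ⟨u, w, huw⟩ := h
  refine ⟨(u * b) % q, Int.emod_nonneg _ (by omega), Int.emod_lt_of_pos _ (by omega), ?_⟩
  refine ⟨b * w + (u * b / q) * a, ?_⟩
  have e1 := Int.emod_add_mul_ediv (u * b) q
  linear_combination (-b) * huw + (-a) * e1

theorem solve (d μ : ℕ) (hμ : 1 ≤ μ) (h2 : 2 * μ ≤ d) : ∃ K : ℕ, 1 ≤ K ∧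
    ∀ (v : ℕ → ℕ → ℤ) (q B E : ℤ) (P : ℕ → ℤ), 1 ≤ q → 1 ≤ B →
    (∀ s, s + μ ≤ d → v s (μ - 1) = 1) →
    (2 ≤ μ → ∀ s, 1 ≤ s → s + μ ≤ d → v s (μ - 2) = q) →
    (∀ t, 1 ≤ t → t < μ → IsCoprime (v 0 (μ - 1 - t)) q) →
    (∀ s < d, 1 ≤ v s 0) → (∀ s < d, ∀ ρ < μ, |v s ρ| ≤ B) →
    K * (q * B) ≤ E → (∀ s < d, |P s| ≤ E * v s 0) →
    ∃ z : ℕ → ℕ → ℤ, (∀ s ρ, |z s ρ| ≤ 2 * E) ∧
      ∀ j < d, P j = ∑ s ∈ range d, ∑ ρ ∈ range μ,
        if s ≤ j ∧ j ≤ s + ρ ∧ s + ρ + 1 ≤ d then z s ρ * v s ρ else 0 := by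
  refine ⟨1 + d + d ^ 2 + 6 * d ^ 3, by omega, ?_⟩
  intro v q B E P hq hB hv hvq hcop hv0 hvB hK hP
  show Solve_Rep d μ v (2 * E) P
  have hqB : 1 ≤ q * B := by nlinarith
  have hqB2 : B ≤ q * B := by nlinarith
  have hqB3 : q ≤ q * B := by nlinarith
  have hd1 : (1 : ℤ) ≤ d := by omega
  have hμd : (μ : ℤ) ≤ d := by omega
  have hE0 : 0 ≤ E := le_trans (by positivity) hK
  -- step 1
  obtain ⟨P', hP'⟩ : ∃ P' : ℕ → ℤ, P' = fun s => P s % v s 0 := ⟨_, rfl⟩
  have hP'B : ∀ j < d, |P' j| ≤ B := by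
    intro j hj
    have h1 := hv0 j hj
    have h3 := (le_abs_self _).trans (hvB j hj 0 (by omega))
    have h4 := Int.emod_nonneg (P j) (show v j 0 ≠ 0 by omega)
    have h5 := Int.emod_lt_of_pos (P j) (show 0 < v j 0 by omega)
    rw [hP']
    simp only
    rw [abs_of_nonneg h4]
    omega
  have hR1 : Solve_Rep d μ v E (fun j => P j - P' j) := by
    refine ⟨fun s ρ => if s < d ∧ ρ = 0 then P s / v s 0 else 0, fun s ρ => ?_, fun j hj => ?_⟩
    · simp only
      split_ifs with h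
      · have h1 := hv0 s h.1
        have h3 := abs_le.1 (hP s h.1)
        rw [abs_le]
        constructor
        · rw [Int.le_ediv_iff_mul_le (by omega)]
          linarith [h3.1]
        · refine Int.ediv_le_of_le_mul (by omega) h3.2
      · rw [abs_zero]
        exact hE0
    · rw [Finset.sum_eq_single j, Finset.sum_eq_single 0]
      · rw [if_pos ⟨le_rfl, le_rfl, hj⟩, hP']
        beta_reduce
        rw [if_pos ⟨hj, rfl⟩]
        have := Int.emod_add_mul_ediv (P j) (v j 0)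
        linear_combination (-1 : ℤ) * this
      · intro ρ _ hρ
        beta_reduce
        rw [if_neg (fun h' : j < d ∧ ρ = 0 => hρ h'.2), zero_mul, ite_self]
      · intro h
        exact absurd (Finset.mem_range.2 (by omega)) h
      · intro s _ hs
        refine Finset.sum_eq_zero fun ρ _ => ?_
        by_cases h0 : ρ = 0
        · rw [h0, if_neg (by omega)]
        · beta_reduce
          rw [if_neg (fun h' : s < d ∧ ρ = 0 => h0 h'.2), zero_mul, ite_self]
      · intro h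
        exact absurd (Finset.mem_range.2 hj) h
  -- step 2
  have hy : ∀ i : ℕ, ∃ y : ℤ, 0 ≤ y ∧ y < q ∧ (i < μ - 1 →
      q ∣ (Solve_cls d μ P' i - Solve_cls d μ P' (i + 1)) - y * v 0 i) := by
    intro i
    by_cases hi : i < μ - 1
    · have h1 := hcop (μ - 1 - i) (by omega) (by omega)
      have e1 : μ - 1 - (μ - 1 - i) = i := by omega
      rw [e1] at h1
      obtain ⟨y, hy1, hy2, hy3⟩ := Solve_cop hq h1 (Solve_cls d μ P' i - Solve_cls d μ P' (i + 1))
      exact ⟨y, hy1, hy2, fun _ => hy3⟩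
    · exact ⟨0, le_rfl, by omega, fun h => absurd h hi⟩
  choose y hy0 hyq hyd using hy
  have hR2 := Solve_sum (range (μ - 1)) (fun i => |y i|)
    (fun i j => if 0 ≤ j ∧ j ≤ 0 + i then y i * v 0 i else 0)
    (fun i hi => by
      have hi' := Finset.mem_range.1 hi
      exact Solve_basic v (show i < μ by omega) (show 0 + i + 1 ≤ d by omega) (y i))
  obtain ⟨Q, hQ⟩ : ∃ Q : ℕ → ℤ, Q = fun j => P' j -
    ∑ i ∈ range (μ - 1), if 0 ≤ j ∧ j ≤ 0 + i then y i * v 0 i else 0 := ⟨_, rfl⟩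
  obtain ⟨M, hM⟩ : ∃ M : ℤ, M = d * (q * B) := ⟨_, rfl⟩
  have hM0 : 0 ≤ M := by rw [hM]; positivity
  have hQM : ∀ j < d, |Q j| ≤ M := by
    intro j hj
    rw [hQ]
    simp only
    refine (abs_sub _ _).trans ?_
    have h1 : |∑ i ∈ range (μ - 1), if 0 ≤ j ∧ j ≤ 0 + i then y i * v 0 i else 0| ≤
        ((μ - 1 : ℕ) : ℤ) * (q * B) := by
      refine (Finset.abs_sum_le_sum_abs _ _).trans ?_
      calc ∑ i ∈ range (μ - 1), |if 0 ≤ j ∧ j ≤ 0 + i then y i * v 0 i else 0|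
          ≤ ∑ _i ∈ range (μ - 1), q * B := by
            refine Finset.sum_le_sum fun i hi => ?_
            have hi' := Finset.mem_range.1 hi
            split_ifs
            · rw [abs_mul]
              refine mul_le_mul ?_ (hvB 0 (by omega) i (by omega)) (abs_nonneg _) (by omega)
              rw [abs_of_nonneg (hy0 i)]
              exact (hyq i).le
            · rw [abs_zero]
              omega
        _ = ((μ - 1 : ℕ) : ℤ) * (q * B) := by
            rw [Finset.sum_const, Finset.card_range, nsmul_eq_mul]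
    have h3 := hP'B j hj
    have h4 : (((μ - 1 : ℕ) : ℤ) + 1) * (q * B) ≤ d * (q * B) :=
      mul_le_mul_of_nonneg_right (by omega) (by omega)
    rw [hM]
    linarith
  -- the class sums of `Q`
  have hcls : ∀ k < μ, Solve_cls d μ Q k = Solve_cls d μ P' k -
      ∑ i ∈ range (μ - 1), if k ≤ i then y i * v 0 i else 0 := by
    intro k hk
    rw [hQ, Solve_cls_sub, Solve_cls_sum]
    congr 1
    refine Finset.sum_congr rfl fun i hi => ?_
    have hi' := Finset.mem_range.1 hi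
    exact Solve_cls_ind (by omega) hk (by omega) _
  have hstep : ∀ k < μ - 1, q ∣ Solve_cls d μ Q k - Solve_cls d μ Q (k + 1) := by
    intro k hk
    have h1 : (∑ i ∈ range (μ - 1), if k ≤ i then y i * v 0 i else 0) -
        (∑ i ∈ range (μ - 1), if k + 1 ≤ i then y i * v 0 i else 0) = y k * v 0 k := by
      rw [← Finset.sum_sub_distrib, Finset.sum_eq_single k]
      · rw [if_pos le_rfl, if_neg (by omega), sub_zero]
      · intro i _ hi
        by_cases h3 : k ≤ i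
        · rw [if_pos h3, if_pos (by omega), sub_self]
        · rw [if_neg h3, if_neg (by omega), sub_self]
      · intro h
        exact absurd (Finset.mem_range.2 hk) h
    rw [hcls k (by omega), hcls (k + 1) (by omega)]
    have h3 := hyd k hk
    rw [← h1] at h3
    have e : Solve_cls d μ P' k - (∑ i ∈ range (μ - 1), if k ≤ i then y i * v 0 i else 0) -
        (Solve_cls d μ P' (k + 1) -
          ∑ i ∈ range (μ - 1), if k + 1 ≤ i then y i * v 0 i else 0) =
        Solve_cls d μ P' k - Solve_cls d μ P' (k + 1) -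
          ((∑ i ∈ range (μ - 1), if k ≤ i then y i * v 0 i else 0) -
            ∑ i ∈ range (μ - 1), if k + 1 ≤ i then y i * v 0 i else 0) := by ring
    rw [e]
    exact h3
  have hdvd' : ∀ t ≤ μ - 1, q ∣ Solve_cls d μ Q (μ - 1 - t) - Solve_cls d μ Q (μ - 1) := by
    intro t
    induction t with
    | zero =>
      intro _
      rw [Nat.sub_zero, sub_self]
      exact dvd_zero q
    | succ t ih =>
      intro ht
      have h1 := ih (by omega)
      have h3 := hstep (μ - 1 - (t + 1)) (by omega)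
      have e1 : μ - 1 - (t + 1) + 1 = μ - 1 - t := by omega
      rw [e1] at h3
      have h4 := dvd_add h3 h1
      rwa [sub_add_sub_cancel] at h4
  have hdvd : ∀ i < μ - 1, q ∣ Solve_cls d μ Q i - Solve_cls d μ Q (μ - 1) := by
    intro i hi
    have h1 := hdvd' (μ - 1 - i) (by omega)
    have e1 : μ - 1 - (μ - 1 - i) = i := by omega
    rwa [e1] at h1
  have hR3 := Solve_fold hμ hv hQM
  have hR4 := Solve_last hμ h2 hq hv hvq hM0 hQM hdvd
  have hR := Solve_add (Solve_add hR1 hR2) (Solve_add hR3 hR4)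
  refine Solve_mono (Solve_congr hR fun j _ => ?_) ?_
  · rw [hQ]
    ring
  · have h1 : ∑ i ∈ range (μ - 1), |y i| ≤ d * (q * B) := by
      calc ∑ i ∈ range (μ - 1), |y i| ≤ ∑ _i ∈ range (μ - 1), q * B := by
            refine Finset.sum_le_sum fun i _ => ?_
            rw [abs_of_nonneg (hy0 i)]
            exact (hyq i).le.trans hqB3
        _ = ((μ - 1 : ℕ) : ℤ) * (q * B) := by
            rw [Finset.sum_const, Finset.card_range, nsmul_eq_mul]
        _ ≤ d * (q * B) := mul_le_mul_of_nonneg_right (by omega) (by omega)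
    have h3 : (d : ℤ) * (q * B) + (2 * d ^ 2 * M + (d * M + d * (2 * (2 * (d * M))))) =
        ((d : ℤ) + d ^ 2 + 6 * d ^ 3) * (q * B) := by
      rw [hM]
      ring
    have h4 : ((d : ℤ) + d ^ 2 + 6 * d ^ 3) * (q * B) ≤ E := by
      refine le_trans ?_ hK
      push_cast
      refine mul_le_mul_of_nonneg_right ?_ (by omega)
      linarith
    linarith

end Pool.Agent.H51.TB

end

section

/-!
# Module E3 (TB): choosing a part of the points

`greedy`: induction on `S`.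

`choose_part`: let `q = S.count μ`, `S = replicate q μ + R`.  If `e₀ + q * w μ ≥ N` take the smallest
`q' ≤ q` with `e₀ + q' * w μ ≥ N` (`greedy`), so `q' * w μ ≥ N - e₀ ≥ N / 2`.  Otherwise take all `q` of them
and a part of `R` (`greedy` with `N - e₀ - q * w μ`).
-/

namespace Pool.Agent.H51.TB

open Finset

theorem greedy (w : ℕ → ℕ) (B X : ℕ) (S : Multiset ℕ) (hB : ∀ m ∈ S, w m ≤ B)
    (hX : X ≤ (S.map w).sum) : ∃ T ≤ S, X ≤ (T.map w).sum ∧ (T.map w).sum ≤ X + B := by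
  induction S using Multiset.induction_on with
  | empty =>
    refine ⟨0, le_rfl, ?_, ?_⟩
    · simpa using hX
    · simp
  | cons a S ih =>
    by_cases h : X ≤ (S.map w).sum
    · obtain ⟨T, hT, h1, h2⟩ := ih (fun m hm => hB m (Multiset.mem_cons_of_mem hm)) h
      exact ⟨T, hT.trans (Multiset.le_cons_self S a), h1, h2⟩
    · refine ⟨a ::ₘ S, le_rfl, hX, ?_⟩
      have h3 := hB a (Multiset.mem_cons_self a S)
      rw [Multiset.map_cons, Multiset.sum_cons]
      omega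

theorem choose_part (w : ℕ → ℕ) (B N e₀ μ : ℕ) (S : Multiset ℕ) (hB : ∀ m ∈ S, w m ≤ B)
    (he : 2 * e₀ ≤ N) (hN : N ≤ e₀ + (S.map w).sum) :
    ∃ T ≤ S, N ≤ e₀ + (T.map w).sum ∧ e₀ + (T.map w).sum ≤ N + B ∧
      (T.count μ = S.count μ ∨ N ≤ 2 * (T.count μ * w μ)) := by
  set q := S.count μ with hq
  set R := S.filter (fun x => ¬ x = μ) with hR
  have hS : Multiset.replicate q μ + R = S := by
    rw [hq, ← Multiset.filter_eq', hR]
    exact Multiset.filter_add_not _ S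
  have hsum : (S.map w).sum = q * w μ + (R.map w).sum := by
    rw [← hS, Multiset.map_add, Multiset.sum_add, Multiset.map_replicate, Multiset.sum_replicate,
      smul_eq_mul]
  by_cases h : N ≤ e₀ + q * w μ
  · have h1 : N - e₀ ≤ ((Multiset.replicate q μ).map w).sum := by
      rw [Multiset.map_replicate, Multiset.sum_replicate, smul_eq_mul]
      omega
    obtain ⟨T, hT, h2, h3⟩ := greedy w B (N - e₀) (Multiset.replicate q μ)
      (fun m hm => hB m (by rw [← hS]; exact Multiset.mem_add.2 (Or.inl hm))) h1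
    obtain ⟨k, hk, rfl⟩ := Multiset.le_replicate_iff.1 hT
    rw [Multiset.map_replicate, Multiset.sum_replicate, smul_eq_mul] at h2 h3
    refine ⟨Multiset.replicate k μ, ?_, ?_, ?_, Or.inr ?_⟩
    · refine hT.trans ?_
      conv_rhs => rw [← hS]
      exact Multiset.le_add_right _ _
    · rw [Multiset.map_replicate, Multiset.sum_replicate, smul_eq_mul]
      omega
    · rw [Multiset.map_replicate, Multiset.sum_replicate, smul_eq_mul]
      omega
    · rw [Multiset.count_replicate_self]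
      omega
  · have h1 : N - e₀ - q * w μ ≤ (R.map w).sum := by omega
    obtain ⟨T, hT, h2, h3⟩ := greedy w B (N - e₀ - q * w μ) R
      (fun m hm => hB m (by rw [← hS]; exact Multiset.mem_add.2 (Or.inr hm))) h1
    have hcT : T.count μ = 0 := by
      rw [Multiset.count_eq_zero]
      intro hm
      have h4 := Multiset.mem_of_le hT hm
      rw [hR, Multiset.mem_filter] at h4
      exact h4.2 rfl
    have hsT : ((Multiset.replicate q μ + T).map w).sum = q * w μ + (T.map w).sum := by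
      rw [Multiset.map_add, Multiset.sum_add, Multiset.map_replicate, Multiset.sum_replicate,
        smul_eq_mul]
    refine ⟨Multiset.replicate q μ + T, ?_, ?_, ?_, Or.inl ?_⟩
    · conv_rhs => rw [← hS]
      exact Multiset.add_le_add_left hT
    · rw [hsT]
      omega
    · rw [hsT]
      omega
    · rw [Multiset.count_add, Multiset.count_replicate_self, hcT, add_zero]

end Pool.Agent.H51.TB

end

section

/-!
# Module D2 (TB): moving a point from the cell `(s, ρ)` to the cell `(s, ρ + 1)`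

The ranks of the cells `(s, ρ)` and `(s, ρ + 1)` (with `s + ρ + 1 ≤ d`) differ by the transposition of
the levels `s` and `s + ρ + 1`, which have the ranks `ρ`, `ρ + 1`.  For a bidegree `g` whose window
`[gy, d - gx]` does not contain both levels the window ranks `wr` of all levels of the window are the
same for both cells.  If it contains both (`gy ≤ s`, `gx + s + ρ + 1 ≤ d`) it contains
`s + 1, …, s + ρ`, and the window ranks of `s` and `s + ρ + 1` are `ρ`, `ρ + 1` for the cell `(s, ρ)`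
and `ρ + 1`, `ρ` for the cell `(s, ρ + 1)`; all others are the same.  So `g` is moved from the level
`s` to the level `s + ρ + 1` if `|g| + ρ + 1 = m`, and nothing changes otherwise.
-/

namespace Pool.Agent.H51.TB

open Finset Pool.Agent.H18.Ex Pool.Agent.H21.NX Pool.Agent.H18.Ta

private theorem Mov_wr_ne {d s ρ j : ℕ} (hs : s + ρ + 1 ≤ d) (hj : j ≤ d) (g : ℕ × ℕ) (h1 : j ≠ s)
    (h2 : j ≠ s + ρ + 1) : wr d (s, ρ + 1) g j = wr d (s, ρ) g j := by
  unfold wr
  congr 1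
  refine filter_congr fun i hi => ?_
  have hi' : i < d + 1 := mem_range.1 hi
  have hk : rk (d + 1) s (ρ + 1) i < rk (d + 1) s (ρ + 1) j ↔ rk (d + 1) s ρ i < rk (d + 1) s ρ j := by
    unfold rk
    split_ifs <;> omega
  show (g.2 ≤ i ∧ i + g.1 ≤ d ∧ rk (d + 1) s (ρ + 1) i < rk (d + 1) s (ρ + 1) j) ↔
    (g.2 ≤ i ∧ i + g.1 ≤ d ∧ rk (d + 1) s ρ i < rk (d + 1) s ρ j)
  rw [hk]

/-- both levels in the window -/
private theorem Mov_wr_both {d s ρ : ℕ} (hs : s + ρ + 1 ≤ d) (g : ℕ × ℕ) (h1 : g.2 ≤ s)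
    (h2 : g.1 + s + ρ + 1 ≤ d) : wr d (s, ρ) g s = ρ ∧ wr d (s, ρ + 1) g s = ρ + 1 ∧
      wr d (s, ρ) g (s + ρ + 1) = ρ + 1 ∧ wr d (s, ρ + 1) g (s + ρ + 1) = ρ := by
  refine ⟨?_, ?_, ?_, ?_⟩
  · have h : ((range (d + 1)).filter fun i => g.2 ≤ i ∧ i + g.1 ≤ d ∧
        rk (d + 1) s ρ i < rk (d + 1) s ρ s) = Ioc s (s + ρ) := by
      ext i
      rw [mem_filter, mem_range, mem_Ioc]
      unfold rk
      split_ifs <;> omega
    unfold wr
    show ((range (d + 1)).filter fun i => g.2 ≤ i ∧ i + g.1 ≤ d ∧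
        rk (d + 1) s ρ i < rk (d + 1) s ρ s).card = ρ
    rw [h, Nat.card_Ioc]
    omega
  · have h : ((range (d + 1)).filter fun i => g.2 ≤ i ∧ i + g.1 ≤ d ∧
        rk (d + 1) s (ρ + 1) i < rk (d + 1) s (ρ + 1) s) = Ioc s (s + ρ + 1) := by
      ext i
      rw [mem_filter, mem_range, mem_Ioc]
      unfold rk
      split_ifs <;> omega
    unfold wr
    show ((range (d + 1)).filter fun i => g.2 ≤ i ∧ i + g.1 ≤ d ∧
        rk (d + 1) s (ρ + 1) i < rk (d + 1) s (ρ + 1) s).card = ρ + 1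
    rw [h, Nat.card_Ioc]
    omega
  · have h : ((range (d + 1)).filter fun i => g.2 ≤ i ∧ i + g.1 ≤ d ∧
        rk (d + 1) s ρ i < rk (d + 1) s ρ (s + ρ + 1)) = Icc s (s + ρ) := by
      ext i
      rw [mem_filter, mem_range, mem_Icc]
      unfold rk
      split_ifs <;> omega
    unfold wr
    show ((range (d + 1)).filter fun i => g.2 ≤ i ∧ i + g.1 ≤ d ∧
        rk (d + 1) s ρ i < rk (d + 1) s ρ (s + ρ + 1)).card = ρ + 1
    rw [h, Nat.card_Icc]
    omega
  · have h : ((range (d + 1)).filter fun i => g.2 ≤ i ∧ i + g.1 ≤ d ∧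
        rk (d + 1) s (ρ + 1) i < rk (d + 1) s (ρ + 1) (s + ρ + 1)) = Ioc s (s + ρ) := by
      ext i
      rw [mem_filter, mem_range, mem_Ioc]
      unfold rk
      split_ifs <;> omega
    unfold wr
    show ((range (d + 1)).filter fun i => g.2 ≤ i ∧ i + g.1 ≤ d ∧
        rk (d + 1) s (ρ + 1) i < rk (d + 1) s (ρ + 1) (s + ρ + 1)).card = ρ
    rw [h, Nat.card_Ioc]
    omega

private theorem Mov_wr_lo {d s ρ : ℕ} (hs : s + ρ + 1 ≤ d) (g : ℕ × ℕ)
    (h2 : ¬ g.1 + s + ρ + 1 ≤ d) : wr d (s, ρ + 1) g s = wr d (s, ρ) g s := by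
  unfold wr
  congr 1
  refine filter_congr fun i hi => ?_
  have hi' : i < d + 1 := mem_range.1 hi
  show (g.2 ≤ i ∧ i + g.1 ≤ d ∧ rk (d + 1) s (ρ + 1) i < rk (d + 1) s (ρ + 1) s) ↔
    (g.2 ≤ i ∧ i + g.1 ≤ d ∧ rk (d + 1) s ρ i < rk (d + 1) s ρ s)
  unfold rk
  split_ifs <;> omega

private theorem Mov_wr_hi {d s ρ : ℕ} (hs : s + ρ + 1 ≤ d) (g : ℕ × ℕ)
    (h1 : ¬ g.2 ≤ s) : wr d (s, ρ + 1) g (s + ρ + 1) = wr d (s, ρ) g (s + ρ + 1) := by
  unfold wr
  congr 1
  refine filter_congr fun i hi => ?_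
  have hi' : i < d + 1 := mem_range.1 hi
  show (g.2 ≤ i ∧ i + g.1 ≤ d ∧ rk (d + 1) s (ρ + 1) i < rk (d + 1) s (ρ + 1) (s + ρ + 1)) ↔
    (g.2 ≤ i ∧ i + g.1 ≤ d ∧ rk (d + 1) s ρ i < rk (d + 1) s ρ (s + ρ + 1))
  unfold rk
  split_ifs <;> omega

private theorem Mov_point {d m s ρ j : ℕ} (hs : s + ρ + 1 ≤ d) (hj : j ≤ d) (g : ℕ × ℕ) (E : ℕ) :
    (if g.2 ≤ j ∧ j + g.1 ≤ d ∧ g.1 + g.2 + wr d (s, ρ + 1) g j < m then E else 0) +
      (if j = s then (if g.1 + g.2 + ρ + 1 = m ∧ g.2 ≤ s ∧ g.1 + s + ρ + 1 ≤ d then E else 0) else 0) =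
    (if g.2 ≤ j ∧ j + g.1 ≤ d ∧ g.1 + g.2 + wr d (s, ρ) g j < m then E else 0) +
      (if j = s + ρ + 1 then
        (if g.1 + g.2 + ρ + 1 = m ∧ g.2 ≤ s ∧ g.1 + s + ρ + 1 ≤ d then E else 0) else 0) := by
  by_cases h1 : j = s
  · subst h1
    by_cases h2 : g.1 + j + ρ + 1 ≤ d
    · by_cases h3 : g.2 ≤ j
      · obtain ⟨w1, w2, -, -⟩ := Mov_wr_both hs g h3 h2
        rw [w1, w2]
        split_ifs <;> omega
      · split_ifs <;> omega
    · rw [Mov_wr_lo hs g h2]
      split_ifs <;> omega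
  · by_cases h4 : j = s + ρ + 1
    · subst h4
      by_cases h3 : g.2 ≤ s
      · by_cases h2 : g.1 + s + ρ + 1 ≤ d
        · obtain ⟨-, -, w1, w2⟩ := Mov_wr_both hs g h3 h2
          rw [w1, w2]
          split_ifs <;> omega
        · split_ifs <;> omega
      · rw [Mov_wr_hi hs g h3]
        split_ifs <;> omega
    · rw [Mov_wr_ne hs hj g h1 h4, if_neg h1, if_neg h4]

theorem wt_move {a b d m s ρ : ℕ} (hs : s + ρ + 1 ≤ d) (j : ℕ) (hj : j ≤ d) :
    wt a b d m (s, ρ + 1) j + (if j = s then Mv a b d m s ρ else 0) =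
      wt a b d m (s, ρ) j + (if j = s + ρ + 1 then Mv a b d m s ρ else 0) := by
  have hM : ∀ P : Prop, ∀ _ : Decidable P, (if P then Mv a b d m s ρ else 0) =
      ∑ g ∈ range m ×ˢ range m, (if P then
        (if g.1 + g.2 + ρ + 1 = m ∧ g.2 ≤ s ∧ g.1 + s + ρ + 1 ≤ d then Eg a b g else 0) else 0) := by
    intro P _
    by_cases hP : P
    · rw [if_pos hP]
      unfold Mv
      rw [sum_filter]
      exact sum_congr rfl fun g _ => by rw [if_pos hP]
    · rw [if_neg hP]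
      symm
      exact sum_eq_zero fun g _ => by rw [if_neg hP]
  rw [hM, hM]
  unfold wt Lam
  rw [sum_filter, sum_filter, ← sum_add_distrib, ← sum_add_distrib]
  exact sum_congr rfl fun g _ => Mov_point hs hj g (Eg a b g)

theorem Pre_move {a b d m s ρ : ℕ} (hs : s + ρ + 1 ≤ d) (j : ℕ) (hj : j ≤ d) :
    Pre a b d m (s, ρ + 1) j + (if s ≤ j ∧ j ≤ s + ρ then Mv a b d m s ρ else 0) =
      Pre a b d m (s, ρ) j := by
  have h : ∑ i ∈ range (j + 1), (wt a b d m (s, ρ + 1) i + (if i = s then Mv a b d m s ρ else 0)) =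
      ∑ i ∈ range (j + 1), (wt a b d m (s, ρ) i + (if i = s + ρ + 1 then Mv a b d m s ρ else 0)) :=
    sum_congr rfl fun i hi => wt_move hs i (by have := mem_range.1 hi; omega)
  rw [sum_add_distrib, sum_add_distrib, sum_ite_eq', sum_ite_eq'] at h
  simp only [mem_range] at h
  unfold Pre
  revert h
  generalize ∑ i ∈ range (j + 1), wt a b d m (s, ρ + 1) i = A
  generalize ∑ i ∈ range (j + 1), wt a b d m (s, ρ) i = B
  generalize Mv a b d m s ρ = C
  intro h
  split_ifs at h ⊢ <;> omega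

private theorem Mov_Eg_zero (a b t : ℕ) : Eg a b (t, 0) = Nat.multichoose (a - 1) t := by
  unfold Eg
  show Nat.multichoose (a - 1) t * Nat.multichoose (b - 1) 0 = _
  rw [Nat.multichoose_zero_right, mul_one]

theorem Mv_one {a b d m s : ℕ} (hm : 1 ≤ m) (hs : s + m ≤ d) : Mv a b d m s (m - 1) = 1 := by
  have h : ((range m ×ˢ range m).filter fun g : ℕ × ℕ =>
      g.1 + g.2 + (m - 1) + 1 = m ∧ g.2 ≤ s ∧ g.1 + s + (m - 1) + 1 ≤ d) = {((0, 0) : ℕ × ℕ)} := by
    ext g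
    rw [mem_filter, mem_product, mem_range, mem_range, mem_singleton, Prod.ext_iff]
    show _ ↔ g.1 = 0 ∧ g.2 = 0
    omega
  unfold Mv
  rw [h, sum_singleton, Mov_Eg_zero, Nat.multichoose_zero_right]

theorem Mv_two {a b d m s : ℕ} (ha : 1 ≤ a) (hb : 1 ≤ b) (hm : 2 ≤ m) (h1 : 1 ≤ s)
    (hs : s + m ≤ d) : Mv a b d m s (m - 2) = a + b - 2 := by
  have h : ((range m ×ˢ range m).filter fun g : ℕ × ℕ =>
      g.1 + g.2 + (m - 2) + 1 = m ∧ g.2 ≤ s ∧ g.1 + s + (m - 2) + 1 ≤ d) =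
      {((1, 0) : ℕ × ℕ), ((0, 1) : ℕ × ℕ)} := by
    ext g
    rw [mem_filter, mem_product, mem_range, mem_range, mem_insert, mem_singleton, Prod.ext_iff,
      Prod.ext_iff]
    show _ ↔ (g.1 = 1 ∧ g.2 = 0) ∨ (g.1 = 0 ∧ g.2 = 1)
    omega
  unfold Mv
  rw [h, sum_pair (by decide), Mov_Eg_zero, Nat.multichoose_one_right]
  unfold Eg
  show a - 1 + Nat.multichoose (a - 1) 0 * Nat.multichoose (b - 1) 1 = a + b - 2
  rw [Nat.multichoose_zero_right, Nat.multichoose_one_right]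
  omega

theorem Mv_zero {a b d m t : ℕ} (hb : 1 ≤ b) (hm : m ≤ d) (ht : t + 1 ≤ m) :
    Mv a b d m 0 (m - 1 - t) = Nat.multichoose (a - 1) t := by
  have h : ((range m ×ˢ range m).filter fun g : ℕ × ℕ =>
      g.1 + g.2 + (m - 1 - t) + 1 = m ∧ g.2 ≤ 0 ∧ g.1 + 0 + (m - 1 - t) + 1 ≤ d) = {((t, 0) : ℕ × ℕ)} := by
    ext g
    rw [mem_filter, mem_product, mem_range, mem_range, mem_singleton, Prod.ext_iff]
    show _ ↔ g.1 = t ∧ g.2 = 0
    omega
  unfold Mv
  rw [h, sum_singleton, Mov_Eg_zero]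

private theorem Mov_vand (p : ℕ) : ∀ q k : ℕ,
    ∑ x ∈ antidiagonal k, Nat.multichoose p x.1 * Nat.multichoose q x.2 = Nat.multichoose (p + q) k := by
  intro q
  induction q with
  | zero =>
    intro k
    cases k with
    | zero =>
      rw [Nat.antidiagonal_zero, sum_singleton]
      show Nat.multichoose p 0 * Nat.multichoose 0 0 = Nat.multichoose p 0
      rw [Nat.multichoose_zero_right, Nat.multichoose_zero_right]
    | succ k =>
      rw [Nat.sum_antidiagonal_succ']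
      have h : ∑ x ∈ antidiagonal k, Nat.multichoose p x.1 * Nat.multichoose 0 (x.2 + 1) = 0 :=
        sum_eq_zero fun x _ => by rw [Nat.multichoose_zero_succ, mul_zero]
      rw [h, Nat.multichoose_zero_right, mul_one]
      rfl
  | succ q ih =>
    intro k
    induction k with
    | zero =>
      rw [Nat.antidiagonal_zero, sum_singleton]
      show Nat.multichoose p 0 * Nat.multichoose (q + 1) 0 = Nat.multichoose (p + (q + 1)) 0
      rw [Nat.multichoose_zero_right, Nat.multichoose_zero_right, Nat.multichoose_zero_right]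
    | succ k ihk =>
      rw [Nat.sum_antidiagonal_succ']
      have h1 : ∑ x ∈ antidiagonal k, Nat.multichoose p x.1 * Nat.multichoose (q + 1) (x.2 + 1) =
          ∑ x ∈ antidiagonal k, Nat.multichoose p x.1 * Nat.multichoose q (x.2 + 1) +
            ∑ x ∈ antidiagonal k, Nat.multichoose p x.1 * Nat.multichoose (q + 1) x.2 := by
        rw [← sum_add_distrib]
        exact sum_congr rfl fun x _ => by rw [Nat.multichoose_succ_succ, mul_add]
      have h2 := ih (k + 1)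
      rw [Nat.sum_antidiagonal_succ', Nat.multichoose_zero_right] at h2
      dsimp only at h2 ⊢
      rw [h1, ihk, Nat.multichoose_zero_right, ← add_assoc p q 1, Nat.multichoose_succ_succ, ← h2]
      omega

private theorem Mov_mc_left (n k : ℕ) : Nat.multichoose n k ≤ Nat.multichoose (n + 1) k := by
  cases k with
  | zero => rw [Nat.multichoose_zero_right, Nat.multichoose_zero_right]
  | succ k =>
    rw [Nat.multichoose_succ_succ]
    exact Nat.le_add_right _ _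

private theorem Mov_mc_right (n : ℕ) {k l : ℕ} (h : k ≤ l) :
    Nat.multichoose (n + 1) k ≤ Nat.multichoose (n + 1) l := by
  induction l, h using Nat.le_induction with
  | base => exact le_refl _
  | succ l _ ih =>
    refine ih.trans ?_
    rw [Nat.multichoose_succ_succ]
    exact Nat.le_add_left _ _

theorem Mv_le {a b d m s ρ : ℕ} (ha : 1 ≤ a) (hb : 1 ≤ b) : Mv a b d m s ρ ≤ ell (a + b) m := by
  by_cases hm : m < ρ + 1
  · have h : ((range m ×ˢ range m).filter fun g : ℕ × ℕ =>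
        g.1 + g.2 + ρ + 1 = m ∧ g.2 ≤ s ∧ g.1 + s + ρ + 1 ≤ d) = ∅ := by
      refine filter_eq_empty_iff.2 fun g _ => ?_
      omega
    unfold Mv
    rw [h, sum_empty]
    exact Nat.zero_le _
  · have h1 : Mv a b d m s ρ ≤ ∑ x ∈ antidiagonal (m - 1 - ρ), Eg a b x := by
      unfold Mv
      refine sum_le_sum_of_subset fun g hg => ?_
      rw [mem_filter] at hg
      rw [HasAntidiagonal.mem_antidiagonal]
      omega
    have h2 : ∑ x ∈ antidiagonal (m - 1 - ρ), Eg a b x =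
        Nat.multichoose (a - 1 + (b - 1)) (m - 1 - ρ) := Mov_vand (a - 1) (b - 1) _
    have h3 : Nat.multichoose (a - 1 + (b - 1)) (m - 1 - ρ) ≤ Nat.multichoose (a + b + 1) (m - 1) := by
      have e : a + b + 1 = a - 1 + (b - 1) + 1 + 1 + 1 := by omega
      rw [e]
      exact ((Mov_mc_left _ _).trans ((Mov_mc_left _ _).trans (Mov_mc_left _ _))).trans
        (Mov_mc_right _ (by omega))
    have h4 : Nat.multichoose (a + b + 1) (m - 1) = ell (a + b) m := by
      rw [Nat.multichoose_eq]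
      unfold ell
      rw [show a + b + 1 + (m - 1) - 1 = (a + b) + (m - 1) by omega,
        show m + (a + b) - 1 = (a + b) + (m - 1) by omega]
      exact Nat.choose_symm_add.symm
    rw [h2] at h1
    exact (h1.trans h3).trans (le_of_eq h4)

/-- Some bidegree is moved. -/
theorem Mv_ge {a b d m s : ℕ} (hm : 1 ≤ m) (hmd : m ≤ d) (hs : s < d) :
    ∃ g : ℕ × ℕ, g.1 + g.2 + 1 = m ∧ Eg a b g ≤ Mv a b d m s 0 := by
  have key : ∀ g : ℕ × ℕ, g.1 + g.2 + 1 = m → g.2 ≤ s → g.1 + s + 1 ≤ d → Eg a b g ≤ Mv a b d m s 0 := by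
    intro g h1 h2 h3
    unfold Mv
    refine single_le_sum (f := fun g => Eg a b g) (fun _ _ => Nat.zero_le _) ?_
    rw [mem_filter, mem_product, mem_range, mem_range]
    omega
  by_cases h : m - 1 ≤ s
  · refine ⟨(0, m - 1), ?_, key _ ?_ ?_ ?_⟩ <;> show _ <;> dsimp only <;> omega
  · refine ⟨(m - 1 - s, s), ?_, key _ ?_ ?_ ?_⟩ <;> show _ <;> dsimp only <;> omega

end Pool.Agent.H51.TB

end

section

/-!
# Module D10 (TB): exact adjustment of the number of conditions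

`z` from `solve` for `v s ρ = Mv a b d μ s ρ`, `q = a + b - 2`, `B = ell (a + b) μ` (`Mv_one`, `Mv_two`,
`Mv_zero`, `Mv_ge`, `Mv_le`).  `z s ρ` points (of multiplicity `μ`) are moved from the cell `(s, ρ)`
to the cell `(s, ρ + 1)`, i.e.
`c₁ (s, ρ) = c₀ (s, ρ) - z s ρ + z s (ρ - 1)` (where `z s ρ` counts only for `ρ < μ`, `s < d`,
`s + ρ + 1 ≤ d`); the number is at least `E - 4 E' ≥ E / 2` if `solve` is used with `E' ≤ E / 8`, and the
total number does not change.  `Pre_move` gives the last statement.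
-/

namespace Pool.Agent.H51.TB

open Finset Pool.Agent.H18.Ex Pool.Agent.H21.NX Pool.Agent.H18.Ta

/-- The change of the number of points of the cell `x`. -/
private def Adj_w (d μ : ℕ) (z : ℕ → ℕ → ℤ) (x : ℕ × ℕ) : ℤ :=
  (if 1 ≤ x.2 ∧ x.2 ≤ μ then z x.1 (x.2 - 1) else 0) -
    (if x.2 < μ ∧ x.1 + x.2 + 1 ≤ d then z x.1 x.2 else 0)

private theorem Adj_sum (d μ : ℕ) (z : ℕ → ℕ → ℤ) (f : ℕ × ℕ → ℤ) :
    ∑ x ∈ KK d, Adj_w d μ z x * f x = ∑ s ∈ range d, ∑ ρ ∈ range μ,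
      if s + ρ + 1 ≤ d then z s ρ * (f (s, ρ + 1) - f (s, ρ)) else 0 := by
  have h0 : ∑ s ∈ range d, ∑ ρ ∈ range μ,
      (if s + ρ + 1 ≤ d then z s ρ * (f (s, ρ + 1) - f (s, ρ)) else 0) =
      ∑ p ∈ (range d ×ˢ range μ).filter (fun p : ℕ × ℕ => p.1 + p.2 + 1 ≤ d),
        z p.1 p.2 * (f (p.1, p.2 + 1) - f (p.1, p.2)) := by
    rw [sum_filter, sum_product]
  have h1 : ∑ x ∈ KK d, (if 1 ≤ x.2 ∧ x.2 ≤ μ then z x.1 (x.2 - 1) else 0) * f x =
      ∑ p ∈ (range d ×ˢ range μ).filter (fun p : ℕ × ℕ => p.1 + p.2 + 1 ≤ d),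
        z p.1 p.2 * f (p.1, p.2 + 1) := by
    rw [sum_congr rfl (g := fun x : ℕ × ℕ => if 1 ≤ x.2 ∧ x.2 ≤ μ then z x.1 (x.2 - 1) * f x else 0)
      (fun x _ => by rw [ite_mul, zero_mul]), ← sum_filter]
    refine sum_nbij' (fun x => (x.1, x.2 - 1)) (fun p => (p.1, p.2 + 1)) ?_ ?_ ?_ ?_ ?_
    · intro x hx
      rw [mem_filter, mem_KK] at hx
      rw [mem_filter, mem_product, mem_range, mem_range]
      simp only
      omega
    · intro p hp
      rw [mem_filter, mem_product, mem_range, mem_range] at hp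
      rw [mem_filter, mem_KK]
      simp only
      omega
    · intro x hx
      rw [mem_filter, mem_KK] at hx
      ext
      · rfl
      · simp only
        omega
    · intro p _
      simp
    · intro x hx
      rw [mem_filter, mem_KK] at hx
      simp only
      have h : x.2 - 1 + 1 = x.2 := by omega
      rw [h]
  have h2 : ∑ x ∈ KK d, (if x.2 < μ ∧ x.1 + x.2 + 1 ≤ d then z x.1 x.2 else 0) * f x =
      ∑ p ∈ (range d ×ˢ range μ).filter (fun p : ℕ × ℕ => p.1 + p.2 + 1 ≤ d),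
        z p.1 p.2 * f (p.1, p.2) := by
    rw [sum_congr rfl (g := fun x : ℕ × ℕ => if x.2 < μ ∧ x.1 + x.2 + 1 ≤ d then z x.1 x.2 * f x
      else 0) (fun x _ => by rw [ite_mul, zero_mul]), ← sum_filter]
    refine sum_congr ?_ fun x _ => rfl
    ext x
    rw [mem_filter, mem_KK, mem_filter, mem_product, mem_range, mem_range]
    omega
  have h3 : ∑ p ∈ (range d ×ˢ range μ).filter (fun p : ℕ × ℕ => p.1 + p.2 + 1 ≤ d),
        z p.1 p.2 * (f (p.1, p.2 + 1) - f (p.1, p.2)) =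
      ∑ p ∈ (range d ×ˢ range μ).filter (fun p : ℕ × ℕ => p.1 + p.2 + 1 ≤ d),
        z p.1 p.2 * f (p.1, p.2 + 1) -
      ∑ p ∈ (range d ×ˢ range μ).filter (fun p : ℕ × ℕ => p.1 + p.2 + 1 ≤ d),
        z p.1 p.2 * f (p.1, p.2) := by
    rw [← sum_sub_distrib]
    exact sum_congr rfl fun x _ => by rw [mul_sub]
  rw [h0, h3, ← h1, ← h2, ← sum_sub_distrib]
  refine sum_congr rfl fun x _ => ?_
  unfold Adj_w
  ring

private theorem Adj_abs (d μ : ℕ) (z : ℕ → ℕ → ℤ) (F : ℤ) (hz : ∀ s ρ, |z s ρ| ≤ F) (x : ℕ × ℕ) :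
    |Adj_w d μ z x| ≤ 2 * F := by
  have hF : 0 ≤ F := le_trans (abs_nonneg _) (hz 0 0)
  have h1 : |(if 1 ≤ x.2 ∧ x.2 ≤ μ then z x.1 (x.2 - 1) else 0 : ℤ)| ≤ F := by
    split_ifs
    · exact hz _ _
    · simpa using hF
  have h2 : |(if x.2 < μ ∧ x.1 + x.2 + 1 ≤ d then z x.1 x.2 else 0 : ℤ)| ≤ F := by
    split_ifs
    · exact hz _ _
    · simpa using hF
  unfold Adj_w
  calc _ ≤ _ := abs_sub _ _
    _ ≤ 2 * F := by linarith

theorem adjust (d μ : ℕ) (hμ : 1 ≤ μ) (h2 : 2 * μ ≤ d) : ∃ K : ℕ, 1 ≤ K ∧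
    ∀ a b : ℕ, 2 ≤ a → 2 ≤ b →
    (∀ t, 1 ≤ t → t < μ → Nat.Coprime (Nat.multichoose (a - 1) t) (a + b - 2)) →
    ∀ (c₀ : ℕ × ℕ → ℕ) (E : ℕ) (P : ℕ → ℤ), (∀ x ∈ KK d, x.2 ≤ μ → E ≤ c₀ x) →
    K * ((a + b) * ell (a + b) μ) ≤ E →
    (∀ s < d, (K : ℤ) * |P s| ≤ (E : ℤ) * (Mv a b d μ s 0 : ℤ)) →
    ∃ c₁ : ℕ × ℕ → ℕ, ∑ x ∈ KK d, c₁ x = ∑ x ∈ KK d, c₀ x ∧
      (∀ x ∈ KK d, x.2 ≤ μ → E ≤ 2 * c₁ x) ∧
      ∀ j < d, ∑ x ∈ KK d, (c₁ x : ℤ) * (Pre a b d μ x j : ℤ) =
        ∑ x ∈ KK d, (c₀ x : ℤ) * (Pre a b d μ x j : ℤ) - P j := by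
  obtain ⟨K, hK1, hK⟩ := solve d μ hμ h2
  refine ⟨16 * K, by omega, ?_⟩
  intro a b ha hb hcop c₀ E P hE hKE hP
  have hell : 1 ≤ ell (a + b) μ := by
    unfold ell
    exact Nat.choose_pos (by omega)
  have hE64 : 64 ≤ E := by
    have h1 : 4 * 1 ≤ (a + b) * ell (a + b) μ := Nat.mul_le_mul (by omega) hell
    have h3 : 16 * 1 * (4 * 1) ≤ 16 * K * ((a + b) * ell (a + b) μ) :=
      Nat.mul_le_mul (Nat.mul_le_mul le_rfl hK1) h1
    omega
  have hE16 : E ≤ 16 * (E / 8) := by omega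
  have hE8 : 8 * (E / 8) ≤ E := by omega
  set E' : ℕ := E / 8 with hE'
  have hab : ((a + b - 2 : ℕ) : ℤ) = (a : ℤ) + b - 2 := by
    rw [Nat.cast_sub (by omega)]
    push_cast
    ring
  obtain ⟨z, hz, hzP⟩ := hK (fun s ρ => (Mv a b d μ s ρ : ℤ)) ((a + b - 2 : ℕ) : ℤ)
    (ell (a + b) μ : ℤ) (E' : ℤ) P (by rw [hab]; omega) (by exact_mod_cast hell)
    (fun s hs => by
      rw [Mv_one hμ hs]
      rfl)
    (fun hm s h1 hs => by
      rw [Mv_two (by omega) (by omega) hm h1 hs])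
    (fun t ht1 ht2 => by
      rw [Mv_zero (by omega) (by omega) (by omega)]
      exact Nat.isCoprime_iff_coprime.mpr (hcop t ht1 ht2))
    (fun s hs => by
      obtain ⟨g, _, hg⟩ := Mv_ge (a := a) (b := b) hμ (by omega) hs
      have hg1 : 1 ≤ Eg a b g := by
        unfold Eg
        refine Nat.mul_pos ?_ ?_
        · rw [Nat.multichoose_eq]
          exact Nat.choose_pos (by omega)
        · rw [Nat.multichoose_eq]
          exact Nat.choose_pos (by omega)
      exact_mod_cast le_trans hg1 hg)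
    (fun s _ ρ _ => by
      rw [Nat.abs_cast]
      exact_mod_cast Mv_le (by omega) (by omega))
    (by
      have h1 : K * ((a + b - 2) * ell (a + b) μ) ≤ E' := by
        have h3 : 16 * (K * ((a + b - 2) * ell (a + b) μ)) ≤
            16 * K * ((a + b) * ell (a + b) μ) := by
          rw [Nat.mul_assoc]
          exact Nat.mul_le_mul le_rfl (Nat.mul_le_mul le_rfl
            (Nat.mul_le_mul (Nat.sub_le _ _) le_rfl))
        omega
      exact_mod_cast h1)
    (fun s hs => by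
      have h1 := hP s hs
      push_cast at h1
      have h3 : (1 : ℤ) ≤ K := by exact_mod_cast hK1
      have h4 : (16 : ℤ) * |P s| ≤ 16 * K * |P s| := by
        nlinarith [abs_nonneg (P s)]
      have h5 : (E : ℤ) * (Mv a b d μ s 0 : ℤ) ≤ 16 * E' * (Mv a b d μ s 0 : ℤ) := by
        refine mul_le_mul_of_nonneg_right ?_ (Nat.cast_nonneg _)
        exact_mod_cast hE16
      linarith)
  have hw : ∀ x ∈ KK d, x.2 ≤ μ → (E : ℤ) ≤ 2 * ((c₀ x : ℤ) + Adj_w d μ z x) := by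
    intro x hx hx2
    have h1 := hE x hx hx2
    have h3 := Adj_abs d μ z (2 * (E' : ℤ)) hz x
    have h4 := (abs_le.mp h3).1
    omega
  have hpos : ∀ x ∈ KK d, 0 ≤ (c₀ x : ℤ) + Adj_w d μ z x := by
    intro x hx
    by_cases hx2 : x.2 ≤ μ
    · have := hw x hx hx2
      omega
    · unfold Adj_w
      rw [if_neg (by omega), if_neg (by omega)]
      simp
  refine ⟨fun x => ((c₀ x : ℤ) + Adj_w d μ z x).toNat, ?_, ?_, ?_⟩
  · have h1 : ∑ x ∈ KK d, Adj_w d μ z x = 0 := by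
      have h3 := Adj_sum d μ z (fun _ => 1)
      simp only [mul_one, sub_self, mul_zero, ite_self, sum_const_zero] at h3
      exact h3
    have h3 : ((∑ x ∈ KK d, ((c₀ x : ℤ) + Adj_w d μ z x).toNat : ℕ) : ℤ) =
        ((∑ x ∈ KK d, c₀ x : ℕ) : ℤ) := by
      rw [Nat.cast_sum, Nat.cast_sum, sum_congr rfl fun x hx => Int.toNat_of_nonneg (hpos x hx),
        sum_add_distrib, h1, add_zero]
    exact_mod_cast h3
  · intro x hx hx2
    have h1 := hw x hx hx2
    simp only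
    omega
  · intro j hj
    rw [sum_congr rfl (g := fun x => (c₀ x : ℤ) * (Pre a b d μ x j : ℤ) +
      Adj_w d μ z x * (Pre a b d μ x j : ℤ)) (fun x hx => by
        simp only
        rw [Int.toNat_of_nonneg (hpos x hx)]
        ring), sum_add_distrib, Adj_sum, hzP j hj, sub_eq_add_neg, ← sum_neg_distrib]
    congr 1
    refine sum_congr rfl fun s _ => ?_
    rw [← sum_neg_distrib]
    refine sum_congr rfl fun ρ _ => ?_
    by_cases hs : s + ρ + 1 ≤ d
    · rw [if_pos hs]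
      have h1 := Pre_move (a := a) (b := b) (m := μ) hs j (by omega)
      by_cases h3 : s ≤ j ∧ j ≤ s + ρ
      · rw [if_pos h3] at h1
        rw [if_pos ⟨h3.1, h3.2, hs⟩]
        have h4 : (Pre a b d μ (s, ρ + 1) j : ℤ) + (Mv a b d μ s ρ : ℤ) =
            (Pre a b d μ (s, ρ) j : ℤ) := by exact_mod_cast h1
        rw [← h4]
        ring
      · rw [if_neg h3, add_zero] at h1
        rw [if_neg (fun h => h3 ⟨h.1, h.2.1⟩), h1]
        ring
    · rw [if_neg hs, if_neg (fun h => hs h.2.2), neg_zero]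

end Pool.Agent.H51.TB

end
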