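import Pool.Agent.H94.LP7.H18.FatBasic
import Pool.Agent.H94.LP7.M02
import Pool.Agent.H94.LP7.M03

/-! The parts of this file: H18.FatPerfect, H21.HD.BridgeC, H21.HD.BridgeD, GD.Cls, GD.ST.Core. -/

section

namespace Pool.Agent.H18.Fat

open MvPolynomial Finset

/-! ### Counting -/

/-! ### Adding simple points -/

instance finiteDimensional_fatForms {r d : ℕ} {ι : Type*} (p : ι → Fin (r + 1) → ℂ)
    (m : ι → ℕ) : FiniteDimensional ℂ (fatForms r d p m) := by
  have h1 : fatForms r d p m ≤ LinearMap.range (toPoly (r + 1) d) := by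
    intro F hF
    exact ⟨_, exists_toPoly hF.1⟩
  exact Submodule.finiteDimensional_of_le h1

theorem vanishesToOrder_one {n : ℕ} (F : MvPolynomial (Fin n) ℂ) (q : Fin n → ℂ) :
    VanishesToOrder F q 1 ↔ eval q F = 0 := by
  have h1 : coeff 0 (shift q F) = eval q F := by
    unfold shift
    rw [← constantCoeff_eq]
    have h2 : (constantCoeff.comp (aeval (fun j => X j + C (q j) :
        Fin n → MvPolynomial (Fin n) ℂ)).toRingHom) = eval q := by
      apply ringHom_ext
      · intro c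
        simp [algebraMap_eq]
      · intro i
        simp
    exact DFunLike.congr_fun h2 F
  constructor
  · intro h
    rw [← h1]
    exact h 0 (by simp)
  · intro h β hβ
    have : β = 0 := by
      rw [← Finsupp.degree_eq_zero_iff]
      omega
    rw [this, h1, h]

end Pool.Agent.H18.Fat

end

section

/-!
Adding a point.
-/

namespace Pool.Agent.H21.HD

open MvPolynomial Pool.Agent.H18.Fat
open scoped Classical

namespace BridgeCX

/-- The derivative in the direction `P`. -/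
noncomputable def dd {n : ℕ} (P : Fin n → ℂ) : MvPolynomial (Fin n) ℂ →ₗ[ℂ] MvPolynomial (Fin n) ℂ :=
  ∑ j, P j • (pderiv j : Derivation ℂ (MvPolynomial (Fin n) ℂ) (MvPolynomial (Fin n) ℂ)).toLinearMap

theorem dd_apply {n : ℕ} (P : Fin n → ℂ) (F : MvPolynomial (Fin n) ℂ) :
    dd P F = ∑ j, P j • pderiv j F := by
  unfold dd
  rw [LinearMap.sum_apply]
  rfl

theorem shift_pderiv {n : ℕ} (q : Fin n → ℂ) (j : Fin n) (F : MvPolynomial (Fin n) ℂ) :
    shift q (pderiv j F) = pderiv j (shift q F) := by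
  unfold shift
  induction F using MvPolynomial.induction_on with
  | C a => simp
  | add F G hF hG => simp only [map_add, hF, hG]
  | mul_X F i hF =>
    rw [pderiv_mul, map_add, map_mul, map_mul, map_mul, pderiv_mul, hF, aeval_X, map_add,
      pderiv_C, add_zero]
    have hx : aeval (fun j => X j + C (q j) : Fin n → MvPolynomial (Fin n) ℂ)
        (pderiv j (X i : MvPolynomial (Fin n) ℂ)) = pderiv j (X i : MvPolynomial (Fin n) ℂ) := by
      by_cases hij : i = j
      · subst hij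
        rw [pderiv_X_self, map_one]
      · rw [pderiv_X_of_ne hij, map_zero]
    rw [hx]

theorem coeff_shift_dd {n : ℕ} (P q : Fin n → ℂ) (F : MvPolynomial (Fin n) ℂ)
    (β : Fin n →₀ ℕ) :
    coeff β (shift q (dd P F)) =
      ∑ j, P j * ((β j : ℂ) + 1) * coeff (β + Finsupp.single j 1) (shift q F) := by
  rw [dd_apply]
  have h1 : shift q (∑ j, P j • pderiv j F) = ∑ j, P j • pderiv j (shift q F) := by
    have h2 : shift q (∑ j, P j • pderiv j F) = ∑ j, P j • shift q (pderiv j F) := by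
      unfold shift
      rw [map_sum]
      exact Finset.sum_congr rfl fun j _ => by rw [map_smul]
    rw [h2]
    exact Finset.sum_congr rfl fun j _ => by rw [shift_pderiv]
  rw [h1, coeff_sum]
  refine Finset.sum_congr rfl fun j _ => ?_
  rw [coeff_smul, coeff_pderiv, smul_eq_mul]
  ring

theorem dd_isHomogeneous {n d : ℕ} (P : Fin n → ℂ) {F : MvPolynomial (Fin n) ℂ}
    (hF : F.IsHomogeneous d) : (dd P F).IsHomogeneous (d - 1) := by
  rw [dd_apply]
  apply IsHomogeneous.sum
  intro j _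
  rw [smul_eq_C_mul]
  simpa using (isHomogeneous_C (Fin n) (P j)).mul (hF.pderiv (i := j))

theorem dd_vanishes {n m : ℕ} (P q : Fin n → ℂ) {F : MvPolynomial (Fin n) ℂ}
    (hF : VanishesToOrder F q m) : VanishesToOrder (dd P F) q (m - 1) := by
  intro β hβ
  rw [coeff_shift_dd]
  refine Finset.sum_eq_zero fun j _ => ?_
  rw [hF (β + Finsupp.single j 1) (by
    simp only [map_add, Finsupp.degree_single]
    omega), mul_zero]

theorem vanishes_of_dd {n d m : ℕ} (P : Fin n → ℂ) {F : MvPolynomial (Fin n) ℂ}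
    (hF : F.IsHomogeneous d) (hm : m ≤ d) (h : VanishesToOrder (dd P F) P m) :
    VanishesToOrder F P m := by
  intro β hβ
  have h1 := h β hβ
  rw [coeff_shift_dd] at h1
  have h2 := coeff_shift_euler P β (fun α : mons n d => coeff α.1 F)
  rw [exists_toPoly hF, h1] at h2
  have h3 : (d : ℂ) - (β.degree : ℂ) ≠ 0 := by
    intro h4
    have h5 : (d : ℂ) = (β.degree : ℂ) := sub_eq_zero.1 h4
    have h6 : d = β.degree := by exact_mod_cast h5
    omega
  exact (mul_eq_zero.1 h2.symm).resolve_left h3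

theorem iter_isHomogeneous {n : ℕ} (P : Fin n → ℂ) (e : ℕ) :
    ∀ {d : ℕ} {F : MvPolynomial (Fin n) ℂ}, F.IsHomogeneous d →
      (((dd P) ^ e) F).IsHomogeneous (d - e) := by
  induction e with
  | zero =>
    intro d F hF
    simpa using hF
  | succ e ih =>
    intro d F hF
    rw [pow_succ, Module.End.mul_apply]
    have h1 := ih (dd_isHomogeneous P hF)
    have h2 : d - 1 - e = d - (e + 1) := by omega
    rwa [h2] at h1

theorem iter_vanishes {n : ℕ} (P q : Fin n → ℂ) (e : ℕ) :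
    ∀ {m : ℕ} {F : MvPolynomial (Fin n) ℂ}, VanishesToOrder F q m →
      VanishesToOrder (((dd P) ^ e) F) q (m - e) := by
  induction e with
  | zero =>
    intro m F hF
    simpa using hF
  | succ e ih =>
    intro m F hF
    rw [pow_succ, Module.End.mul_apply]
    have h1 := ih (dd_vanishes P q hF)
    have h2 : m - 1 - e = m - (e + 1) := by omega
    rwa [h2] at h1

theorem vanishes_of_iter {n : ℕ} (P : Fin n → ℂ) (e : ℕ) :
    ∀ {d : ℕ} {F : MvPolynomial (Fin n) ℂ}, F.IsHomogeneous d → e ≤ d →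
      ((dd P) ^ e) F = 0 → VanishesToOrder F P (d + 1 - e) := by
  induction e with
  | zero =>
    intro d F _ _ h
    rw [pow_zero, Module.End.one_apply] at h
    subst h
    intro β _
    simp [shift]
  | succ e ih =>
    intro d F hF he h
    rw [pow_succ, Module.End.mul_apply] at h
    have h1 := ih (dd_isHomogeneous P hF) (by omega) h
    have h2 : d - 1 + 1 - e = d + 1 - (e + 1) := by omega
    rw [h2] at h1
    exact vanishes_of_dd P hF (by omega) h1

theorem finite_fat {r d : ℕ} {ι : Type*} (p : ι → Fin (r + 1) → ℂ) (m : ι → ℕ) :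
    Module.Finite ℂ (fatForms r d p m) := by
  have h1 : fatForms r d p m ≤ LinearMap.range (toPoly (r + 1) d) := fun F hF =>
    ⟨_, exists_toPoly hF.1⟩
  exact Module.Finite.of_injective (Submodule.inclusion h1) (Submodule.inclusion_injective h1)

end BridgeCX

open BridgeCX

/-- Adding a point of multiplicity `d + 1 - e` imposes at most as many conditions as there are
forms of degree `d - e` with the other multiplicities lowered by `e`. -/
theorem finrank_fat_le_add {r : ℕ} {ι : Type} [Fintype ι] (d : ℕ)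
    (p : ι → Fin (r + 1) → ℂ) (m : ι → ℕ) (i₀ : ι) (e : ℕ) (he : e ≤ d) (hi₀ : m i₀ = 0) :
    Module.finrank ℂ (fatForms r d p m) ≤
      Module.finrank ℂ (fatForms r d p (Function.update m i₀ (d + 1 - e))) +
        Module.finrank ℂ (fatForms r (d - e) p (fun i => m i - e)) := by
  have hfin1 := finite_fat (d := d) p m
  have hfin2 := finite_fat (d := d) p (Function.update m i₀ (d + 1 - e))
  have hfin3 := finite_fat (d := d - e) p (fun i => m i - e)
  let T : fatForms r d p m →ₗ[ℂ] MvPolynomial (Fin (r + 1)) ℂ :=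
    ((dd (p i₀)) ^ e).comp (fatForms r d p m).subtype
  have hT : ∀ F : fatForms r d p m, T F = ((dd (p i₀)) ^ e) F.1 := fun _ => rfl
  have h1 := LinearMap.finrank_range_add_finrank_ker T
  have h2 : Module.finrank ℂ (LinearMap.range T) ≤
      Module.finrank ℂ (fatForms r (d - e) p (fun i => m i - e)) := by
    apply Submodule.finrank_mono
    rintro _ ⟨F, rfl⟩
    rw [hT]
    exact ⟨iter_isHomogeneous _ e F.2.1, fun i => iter_vanishes _ _ e (F.2.2 i)⟩
  have h3 : Module.finrank ℂ (LinearMap.ker T) ≤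
      Module.finrank ℂ (fatForms r d p (Function.update m i₀ (d + 1 - e))) := by
    rw [(Submodule.equivMapOfInjective _ (Submodule.subtype_injective (fatForms r d p m))
      (LinearMap.ker T)).finrank_eq]
    apply Submodule.finrank_mono
    rintro _ ⟨F, hF, rfl⟩
    refine ⟨F.2.1, fun i => ?_⟩
    by_cases hi : i = i₀
    · subst hi
      rw [Function.update_self]
      exact vanishes_of_iter _ e F.2.1 he hF
    · rw [Function.update_of_ne hi]
      exact F.2.2 i
  omega

end Pool.Agent.H21.HD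

end

section

/-!
Pairs with large multiplicities.
-/

namespace Pool.Agent.H21.HD

open MvPolynomial Pool.Agent.H18.Fat
open scoped Classical

namespace BridgeDX

open BridgeCX

theorem range_toPoly' (n d : ℕ) :
    LinearMap.range (toPoly n d) = homogeneousSubmodule (Fin n) ℂ d := by
  ext F
  constructor
  · rintro ⟨f, rfl⟩
    exact toPoly_isHomogeneous f
  · intro hF
    exact ⟨_, exists_toPoly hF⟩

theorem finrank_homog' (r d : ℕ) :
    Module.finrank ℂ (homogeneousSubmodule (Fin (r + 1)) ℂ d) = (d + r).choose r := by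
  rw [← range_toPoly', LinearMap.finrank_range_of_inj (toPoly_injective (r + 1) d),
    Module.finrank_fintype_fun_eq_card, Fintype.card_coe, card_mons]

end BridgeDX

open BridgeCX BridgeDX

end Pool.Agent.H21.HD

end

section

/-!
# General d: classes of configurations and the main statements

Note 4211 (plan part CL).  `kap x` is the density of the points of exponent `x` (number / `n^x`),
`gg kap D = [t^D] exp (t - ∑ kap x t^x)`.  The support of a point of the level `j` which vanishes on the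
blocks of `A ⊆ range j` is `K = range j \ A`; `w = x - |K|`.
-/

set_option autoImplicit false

namespace Pool.Agent.GD

open Finset

/-! ### Critical densities -/

/-- `[t^D] exp (t - ∑_x kap x t^x)` (`x ≥ 2`). -/
noncomputable def gg (kap : ℕ → ℝ) : ℕ → ℝ
  | 0 => 1
  | D + 1 => (gg kap D - ∑ x : Fin D, ((D + 1 - x.1 : ℕ) : ℝ) * kap (D + 1 - x.1) * gg kap x.1) / (D + 1)
decreasing_by
  · omega
  · have := x.2; omega

/-- A critical vector of densities with the largest exponent `e`. -/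
structure Crit (d e : ℕ) (kap : ℕ → ℝ) : Prop where
  nonneg : ∀ x, 0 ≤ kap x
  supp : ∀ x, kap x ≠ 0 → 2 ≤ x ∧ x ≤ e
  pos : 0 < kap e
  two : 2 ≤ e
  lt : e < d
  crit : gg kap d = 0
  gpos : ∀ D < d, 0 < gg kap D

/-- The constants of the classes. -/
structure Par where
  d : ℕ
  e : ℕ
  kap : ℕ → ℝ
  /-- the windows of the levels -/
  eps : ℕ → ℝ
  /-- the distances of the values `xp`, `xm` for the kinds with `max K = i - 1` -/
  bet : ℕ → ℝ
  /-- the two values for the kinds `|K| = x`, divided by `∏ c` -/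
  xp : ℕ → Finset ℕ → ℚ
  xm : ℕ → Finset ℕ → ℚ
  /-- the constant for the numbers of the clusters -/
  M : ℕ
  /-- the sizes of the blocks -/
  c : ℕ → ℕ

variable (P : Par)

/-- The number of the levels. -/
def Par.J : ℕ := P.d - P.e

/-- The same constants with other sizes of the blocks. -/
def Par.wc (c : ℕ → ℕ) : Par := { P with c := c }

/-- `∏_{i ∈ K} c i`. -/
def Par.cc (K : Finset ℕ) : ℕ := ∏ i ∈ K, P.c i

/-- The natural density of the kind `(x, K)`, without the factor `∏ c`. -/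
noncomputable def Par.nat (x : ℕ) (K : Finset ℕ) : ℝ := P.kap x * (x.descFactorial K.card : ℕ)

/-- The conditions on the constants without the sizes; `Cs` = the ratio, `E` = the bound for the windows. -/
structure Par.Ok (Cs E : ℝ) : Prop extends Crit P.d P.e P.kap where
  eps0 : 0 < P.eps 0
  eb : ∀ j < P.J, Cs * P.eps j ≤ P.bet (j + 1)
  be : ∀ j < P.J, Cs * P.bet (j + 1) ≤ P.eps (j + 1)
  epsJ : P.eps P.J ≤ E
  xp : ∀ x K, 2 ≤ x → K ⊆ range P.J → K.card = x → ∀ i : ℕ, K.max = i →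
    P.nat x K + P.bet (i + 1) / 2 ≤ P.xp x K ∧ (P.xp x K : ℝ) ≤ P.nat x K + P.bet (i + 1)
  xm : ∀ x K, 2 ≤ x → K ⊆ range P.J → K.card = x → ∀ i : ℕ, K.max = i → P.kap x ≠ 0 →
    (P.xm x K : ℝ) ≤ P.nat x K - P.bet (i + 1) / 2 ∧ P.nat x K - P.bet (i + 1) ≤ P.xm x K
  xm0 : ∀ x K, P.kap x = 0 → P.xm x K = 0

/-- The conditions on the sizes: divisible by `N`, and every size is at least a number which depends on the
sizes with larger indices. -/
def Hier (N : ℕ) (F : (ℕ → ℕ) → ℕ) (J : ℕ) (c : ℕ → ℕ) : Prop :=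
  ∀ i < J, N ∣ c i ∧ 1 ≤ c i ∧ F (fun x => if i < x ∧ x < J then c x else 0) ≤ c i

/-! ### Clusters -/

/-- The types of the clusters created at the level `i`. -/
inductive CT : Type
  | pl (k : ℕ) (S : Finset ℕ) : CT
  | b0 (S : Finset ℕ) : CT
  | br (r : ℕ) : CT
  deriving DecidableEq

/-- The vanishing sets of the members. -/
def mbs (i j k : ℕ) (S : Finset ℕ) : List (Finset ℕ) :=
  if k = 1 then [(range j).erase i \ S]
  else (range j).erase i :: List.replicate (k - 1) ((range j).erase i \ S)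

/-- The vanishing sets of the members of the clusters with the support `range r`. -/
def mbr (i j k e r : ℕ) : List (Finset ℕ) :=
  (List.range k).map fun s => (range j).erase i \ (Ico (s * (e - 1)) ((s + 1) * (e - 1)) ∩ range r)

/-- The kind of the level `j` of a cluster created at the level `i`. -/
def CT.kd (d e i j : ℕ) : CT → Kd
  | .pl k S => .cl e 0 i (mbs i j k S)
  | .b0 S => .cl e ((d - i - 1) % (e - 1)) i (mbs i j ((d - i - 1) / (e - 1)) S)
  | .br r => .cl e ((d - i + r - 1) % (e - 1)) i (mbr i j ((d - i + r - 1) / (e - 1)) e r)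

/-- The allowed types. -/
def CT.Ok (d e i j : ℕ) : CT → Prop
  | .pl k S => 2 ≤ k ∧ k ≤ (d - i - 1) / (e - 1) ∧ S ⊆ Ico (i + 1) j ∧ S.card ≤ e - 1
  | .b0 S => (d - i - 1) % (e - 1) ≠ 0 ∧ S ⊆ Ico (i + 1) j ∧ S.card ≤ e - 2
  | .br r => 1 ≤ r ∧ r ≤ i

/-- The exponent of the bound for the number. -/
def CT.w (e : ℕ) : CT → ℕ
  | .pl _ S => e - 1 - S.card
  | .b0 S => e - 2 - S.card
  | .br _ => 0

/-- The constant of the bound for the number. -/
def CT.mm (P : Par) : CT → ℕ
  | .pl _ S => P.M * P.d ^ S.card * P.cc S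
  | .b0 S => P.M * P.d ^ S.card * P.cc S
  | .br r => P.M * P.c (r - 1)

/-! ### The classes -/

/-- The class of the level `j`: nothing is required of the number of the points of the kind `(e, ∅)`. -/
structure Cls (j n : ℕ) (ms : Multiset Kd) : Prop where
  mem : ∀ k ∈ ms, (∃ x A, k = .ord x A ∧ 2 ≤ x ∧ x < P.d ∧ A ⊆ range j ∧ (range j \ A).card ≤ x) ∨
    ∃ i < j, ∃ τ : CT, τ.Ok P.d P.e i j ∧ k = τ.kd P.d P.e i j
  win : ∀ x A, 2 ≤ x → x < P.d → A ⊆ range j → (range j \ A).card < x → (x ≠ P.e ∨ A ≠ range j) →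
    |(npt ms x A : ℝ) - P.nat x (range j \ A) * P.cc (range j \ A) * (n : ℝ) ^ (x - (range j \ A).card)| ≤
      P.eps j * P.cc (range j \ A) * (n : ℝ) ^ (x - (range j \ A).card)
  zero : ∀ x A, 2 ≤ x → x < P.d → A ⊆ range j → (range j \ A).card = x →
    (npt ms x A : ℚ) = P.xp x (range j \ A) * P.cc (range j \ A) ∨
      (npt ms x A : ℚ) = P.xm x (range j \ A) * P.cc (range j \ A)
  cnt : ∀ i < j, ∀ τ : CT, τ.Ok P.d P.e i j → ms.count (τ.kd P.d P.e i j) ≤ τ.mm P * n ^ τ.w P.e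

/-- The general dimension and the virtual dimension of the level `j`. -/
noncomputable def Par.H (j n : ℕ) (ms : Multiset Kd) : ℕ := HL P.d P.d P.c n j ms

noncomputable def Par.v (j n : ℕ) (ms : Multiset Kd) : ℤ := vd P.d (range j) P.c n ms

/-- Exactness on the level `j`. -/
def PROP (j : ℕ) : Prop := ∃ n₀ : ℕ, ∀ n, n₀ ≤ n → ∀ ms, Cls P j n ms →
  (P.H j n ms : ℤ) ≤ max 0 (P.v j n ms)

/-- The main kind on the level `j`. -/
abbrev Par.u (j : ℕ) : Kd := .ord P.e (range j)

/-- Exactness off the layer on the level `j` (the natural size of `v` is `∏ c * n^(d - j)`). -/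
def SUB (j : ℕ) (η ρ : ℝ) : Prop := ∃ n₀ : ℕ, ∀ n, n₀ ≤ n → ∀ ms, Cls P j n ms →
  (ms.count (P.u j) : ℝ) ≤ (P.kap P.e + ρ) * (n : ℝ) ^ P.e →
    η * P.cc (range j) * (n : ℝ) ^ (P.d - j) ≤ (P.v j n ms : ℝ) → (P.H j n ms : ℤ) ≤ P.v j n ms

/-- The numerical step on the level `j`; the number of the points of the main kind is within `Cw * eps j`
of the natural one. -/
def NUM (j : ℕ) (η Cw ρ : ℝ) : Prop := ∃ n₀ : ℕ, ∀ n, n₀ ≤ n → ∀ ms, Cls P j n ms → ∀ g : ℕ,
  (g : ℝ) ≤ η * P.cc (range j) * (n : ℝ) ^ (P.d - j) →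
  |(P.v j n ms : ℝ) - g| ≤ η * P.cc (range j) * (n : ℝ) ^ (P.d - j - 1) →
  |(ms.count (P.u j) : ℝ) - P.kap P.e * (n : ℝ) ^ P.e| ≤ Cw * P.eps j * (n : ℝ) ^ P.e →
    ∃ (ms' A : Multiset Kd) (r : ℕ), Cls P (j + 1) n ms' ∧ Cls P j (n - P.c j) A ∧ 1 ≤ r ∧
      (A.count (P.u j) : ℝ) ≤ (P.kap P.e + ρ) * ((n - P.c j : ℕ) : ℝ) ^ P.e ∧
      P.v j (n - P.c j) A = g + r ∧ ms'.bind (un j) = ms ∧
      ms'.bind (tr j) = A + Multiset.replicate r (sm P.d)

/-- The dependence on the number of the points of the main kind. -/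
def WIN (j : ℕ) (η Cw ρ : ℝ) : Prop := ∃ n₀ : ℕ, ∀ n, n₀ ≤ n → ∀ ms, Cls P j n ms →
  (ms.count (P.u j) : ℝ) ≤ (P.kap P.e + ρ) * (n : ℝ) ^ P.e →
    (P.v j n (P.u j ::ₘ ms) < P.v j n ms ∧
      ((P.v j n ms - P.v j n (P.u j ::ₘ ms) : ℤ) : ℝ) ≤ η * P.cc (range j) * (n : ℝ) ^ (P.d - j - 1)) ∧
    (|(P.v j n ms : ℝ)| ≤ η * P.cc (range j) * (n : ℝ) ^ (P.d - j) →
      |(ms.count (P.u j) : ℝ) - P.kap P.e * (n : ℝ) ^ P.e| ≤ Cw * P.eps j * (n : ℝ) ^ P.e) ∧
    ((P.kap P.e + ρ / 2) * (n : ℝ) ^ P.e ≤ ms.count (P.u j) → P.v j n ms < 0) ∧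
    ((ms.count (P.u j) : ℝ) ≤ (P.kap P.e - ρ) * (n : ℝ) ^ P.e → 0 < P.v j n ms)

/-- The target of the block ALPHA. -/
def TargetSub : Prop := ∀ (d e : ℕ) (kap : ℕ → ℝ), Crit d e kap → ∃ Cs E ρ : ℝ, 1 ≤ Cs ∧ 0 < E ∧ 0 < ρ ∧
  ∀ P : Par, P.d = d → P.e = e → P.kap = kap → P.Ok Cs E → ∀ η : ℝ, 0 < η →
    ∃ (N : ℕ) (F : (ℕ → ℕ) → ℕ), 0 < N ∧ ∀ c, Hier N F P.J c → ∀ j ≤ P.J, SUB (P.wc c) j η ρ

/-- The target of the blocks BETA, GAMMA, TOP (`SUB` on the last level gives the exactness of the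
configurations without points of the kind `(e, ∅)`). -/
def TargetTop : Prop := ∀ (d e : ℕ) (kap : ℕ → ℝ), Crit d e kap → ∃ Cs E η : ℝ, 1 ≤ Cs ∧ 0 < E ∧ 0 < η ∧
  ∀ P : Par, P.d = d → P.e = e → P.kap = kap → P.Ok Cs E →
    ∃ (N : ℕ) (F : (ℕ → ℕ) → ℕ), 0 < N ∧ ∀ c, Hier N F P.J c → SUB (P.wc c) P.J η 0 → PROP (P.wc c) P.J

/-- The target of the first half of the numerical block. -/
def TargetWin : Prop := ∀ (d e : ℕ) (kap : ℕ → ℝ), Crit d e kap → ∃ ρ₀ : ℝ, 0 < ρ₀ ∧ ∀ ρ : ℝ, 0 < ρ → ρ ≤ ρ₀ →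
  ∃ Cw Cs E : ℝ, 1 ≤ Cw ∧ 1 ≤ Cs ∧ 0 < E ∧ ∀ P : Par, P.d = d → P.e = e → P.kap = kap → P.Ok Cs E →
    (∀ i, 1 ≤ P.c i) → ∀ j ≤ P.J, ∀ η : ℝ, 0 < η → η ≤ P.eps 0 → WIN P j η Cw ρ

/-- The target of the numerical block. -/
def TargetNum : Prop := ∀ (d e : ℕ) (kap : ℕ → ℝ), Crit d e kap → ∀ Cw ρ : ℝ, 1 ≤ Cw → 0 < ρ →
  ∃ Cs E : ℝ, 1 ≤ Cs ∧ 0 < E ∧ ∃ M₀ : ℕ,
    ∀ P : Par, P.d = d → P.e = e → P.kap = kap → P.Ok Cs E → M₀ ≤ P.M →
      ∃ (N : ℕ) (F : (ℕ → ℕ) → ℕ), 0 < N ∧ ∀ c, Hier N F P.J c → ∀ j < P.J, ∀ η : ℝ, 0 < η →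
        η ≤ P.eps 0 → NUM (P.wc c) j η Cw ρ

/-- The result for a critical vector of densities. -/
def TargetZero : Prop := ∀ (d e : ℕ) (kap : ℕ → ℝ), Crit d e kap → ∃ (η : ℝ) (n₀ : ℕ), 0 < η ∧
  ∀ n, n₀ ≤ n → ∀ ms : Multiset Kd, (∀ k ∈ ms, ∃ x, k = .ord x ∅ ∧ 2 ≤ x ∧ x < d) →
    (∀ x, |(ms.count (.ord x ∅) : ℝ) - kap x * (n : ℝ) ^ x| ≤ η * (n : ℝ) ^ x) →
      ∀ c : ℕ → ℕ, (HL d d c n 0 ms : ℤ) ≤ max 0 (vd d ∅ c n ms)

end Pool.Agent.GD

end

section

/-!
# General d, step: one object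

`Qn`: the positions (over `ℂ[t]`) of the objects of the level `j` which belong to an object `k` of the level
`j + 1` at the position `q`.  `sat_trace`: the coefficients of `t^B`, `B < (d + 1)!`, of a polynomial family
of solutions satisfy the conditions of the trace; `sat_resid`: the value at `t = 0` satisfies the conditions
of `k` if the trace is divisible by `t^((d + 1)!)`.
-/

set_option autoImplicit false
set_option linter.unusedSectionVars false

namespace Pool.Agent.GD

open Finset Polynomial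
open Pool.Agent.V7 (msk)

/-- The exponent of `t` of a cluster. -/
def ta (d dl : ℕ) : ℕ := (d + 1).factorial / (dl + 1)

theorem ta_mul {d dl : ℕ} (h : dl ≤ d) : ta d dl * (dl + 1) = (d + 1).factorial :=
  Nat.div_mul_cancel (Nat.dvd_factorial (by omega) (by omega))

theorem ta_pos {d dl : ℕ} (h : dl ≤ d) : 1 ≤ ta d dl := by
  rcases Nat.eq_zero_or_pos (ta d dl) with h1 | h1
  · have h2 := ta_mul h
    rw [h1, zero_mul] at h2
    exact absurd h2 (Nat.factorial_ne_zero _).symm
  · exact h1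

/-! ### Linear forms -/

section

variable {ν : Type} [Fintype ν] {R : Type} [CommRing R]

theorem lf_add (p p' : ν → R) : lf (fun s => p s + p' s) = lf p + lf p' := by
  unfold lf
  rw [← sum_add_distrib]
  refine sum_congr rfl fun s _ => ?_
  rw [map_add, add_mul]

theorem lf_smul (r : R) (p : ν → R) : lf (fun s => r * p s) = MvPolynomial.C r * lf p := by
  unfold lf
  rw [mul_sum]
  refine sum_congr rfl fun s _ => ?_
  rw [map_mul, mul_assoc]

theorem lf_sum {ι : Type} (t : Finset ι) (p : ι → ν → R) :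
    lf (fun s => ∑ x ∈ t, p x s) = ∑ x ∈ t, lf (p x) := by
  unfold lf
  rw [sum_comm]
  refine sum_congr rfl fun s _ => ?_
  rw [map_sum, sum_mul]

/-- The annihilator of a functional. -/
def Ann (Φ : MvPolynomial ν R →ₗ[R] R) : Ideal (MvPolynomial ν R) where
  carrier := {P | ∀ y, Φ (P * y) = 0}
  zero_mem' := fun y => by rw [zero_mul, map_zero]
  add_mem' := fun {a b} ha hb y => by rw [add_mul, map_add, ha y, hb y, add_zero]
  smul_mem' := fun c {a} ha y => by
    rw [smul_eq_mul, show c * a * y = a * (c * y) by ring]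
    exact ha _

end

section

variable {ν : Type} [Fintype ν] [DecidableEq ν] {R : Type} [CommRing R]

theorem Fn_dvd_of (r : R) (φ : (ν → ℕ) → R) (h : ∀ a, r ∣ φ a) (P : MvPolynomial ν R) :
    r ∣ Fn φ P := by
  induction P using MvPolynomial.induction_on' with
  | monomial b a =>
    have h1 : MvPolynomial.monomial b a = MvPolynomial.C a * mon R (b : ν → ℕ) := by
      rw [mon_eq, Finsupp.equivFunOnFinite_symm_coe, MvPolynomial.C_mul_monomial, mul_one]
    rw [h1, C_mul_eq_smul, (Fn φ).map_smul, Fn_mon, smul_eq_mul]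
    exact Dvd.dvd.mul_left (Dvd.dvd.mul_left (h _) _) _
  | add p q hp hq =>
    rw [map_add]
    exact dvd_add hp hq

end

/-! ### The positions -/

section

variable {ν : Type} [Fintype ν] [DecidableEq ν] {d : ℕ}

/-- The positions of the objects of the level `j`. -/
noncomputable def Qn (β : ν → ℕ) (j : ℕ) (k : Kd) (x : Fin (d + 1)) (q : ν × Fin (d + 1) → ℂ)
    (z : ν × Fin (d + 1)) : ℂ[X] :=
  match k with
  | .ord e A => C (pt β (.ord e A) 0 q z.1)
  | .cl e dl i As =>
      if i = j then C (pt β (.cl e dl i As) x q z.1) +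
        (if x.1 = 0 then X ^ ta d dl * C (zz β j q z.1) else 0)
      else C (if β z.1 = j ∧ j ∈ As.getD z.2 ∅ then 0 else q z)

theorem uu_cl {R : Type} [CommRing R] (β : ν → ℕ) (e dl i : ℕ) (As : List (Finset ℕ))
    (q : ν × Fin (d + 1) → R) (s : ν) : uu β (.cl e dl i As) q s =
      ∑ x : Fin (d + 1), if x.1 < As.length then pt β (.cl e dl i As) x q s else 0 := rfl

theorem getD_erase (As : List (Finset ℕ)) (j x : ℕ) :
    (As.map fun A => A.erase j).getD x ∅ = (As.getD x ∅).erase j := by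
  have h := List.getD_map (l := As) (d := (∅ : Finset ℕ)) (n := x) (fun A : Finset ℕ => A.erase j)
  simp only [erase_empty] at h
  exact h

theorem pt_old {β : ν → ℕ} {j e dl i : ℕ} {As : List (Finset ℕ)} (hij : i ≠ j)
    (q : ν × Fin (d + 1) → ℂ) (x x₀ : Fin (d + 1)) (s : ν) :
    pt β (.cl e dl i (As.map fun A => A.erase j)) x (Qn β j (.cl e dl i As) x₀ q) s =
      C (pt β (.cl e dl i As) x q s) := by
  simp only [pt, msk, Qn, if_neg hij, List.length_map, getD_erase]
  by_cases h1 : β s ∈ As.getD x ∅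
  · by_cases h2 : β s ∈ (As.getD x ∅).erase j
    · rw [if_pos h1, if_pos h2, map_zero]
    · have h3 : β s = j := by
        by_contra h4
        exact h2 (mem_erase.2 ⟨h4, h1⟩)
      have h4 : ¬ β s = i := fun h => hij (h.symm.trans h3)
      have h5 : j ∈ As.getD x ∅ := h3 ▸ h1
      rw [if_pos h1, if_neg h2, if_neg fun h => h4 h.1, if_pos ⟨h3, h5⟩]
  · have h2 : β s ∉ (As.getD x ∅).erase j := fun h => h1 (mem_of_mem_erase h)
    have h3 : ¬ (β s = j ∧ j ∈ As.getD x ∅) := fun h => h1 (h.1 ▸ h.2)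
    rw [if_neg h1, if_neg h2]
    by_cases h4 : β s = i ∧ x.1 + 1 = As.length
    · rw [if_pos h4, if_pos h4, map_neg, map_sum]
      congr 1
      refine sum_congr rfl fun y _ => ?_
      have h5 : ¬ (β s = j ∧ j ∈ As.getD y ∅) := fun h => hij (h4.1.symm.trans h.1)
      rw [if_neg h5]
      split_ifs
      · rfl
      · rw [map_zero]
    · rw [if_neg h4, if_neg h4, if_neg h3]

theorem uu_old {β : ν → ℕ} {j e dl i : ℕ} {As : List (Finset ℕ)} (hij : i ≠ j)
    (q : ν × Fin (d + 1) → ℂ) (x₀ : Fin (d + 1)) (s : ν) :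
    uu β (.cl e dl i (As.map fun A => A.erase j)) (Qn β j (.cl e dl i As) x₀ q) s =
      C (uu β (.cl e dl i As) q s) := by
  rw [uu_cl, uu_cl, map_sum, List.length_map]
  refine sum_congr rfl fun x _ => ?_
  split_ifs
  · exact pt_old hij q x x₀ s
  · rw [map_zero]

theorem zz_old {β : ν → ℕ} {j e dl i : ℕ} {As : List (Finset ℕ)} (hij : i ≠ j)
    (q : ν × Fin (d + 1) → ℂ) (x₀ : Fin (d + 1)) (s : ν) :
    zz β i (Qn β j (.cl e dl i As) x₀ q) s = C (zz β i q s) := by
  simp only [zz, Qn, if_neg hij]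
  by_cases h : β s = i
  · have h5 : ¬ (β s = j ∧ j ∈ As.getD (Fin.last d).1 ∅) := fun h' => hij (h.symm.trans h'.1)
    rw [if_pos h, if_neg h5, if_pos h]
  · rw [if_neg h, if_neg h, map_zero]

end

end Pool.Agent.GD

end
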