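import Pool.Agent.H94.LP7.M06

/-! The parts of this file: H21.HD.PowSpanL, H21.HD.BlockPow, H21.NX.GenB, XD.Num.Basic, XD.Num.FB. -/

section

/-!
Powers of linear forms span.
-/

namespace Pool.Agent.H21.HD

open MvPolynomial
open scoped Classical

namespace PowSpanLX

theorem coeff_lin_pow {τ : Type} [Fintype τ] (v : τ → ℂ) (s : τ →₀ ℕ) (e : ℕ) :
    coeff s (lin v ^ e) = if s.degree = e then (s.multinomial : ℂ) * ∏ t, v t ^ s t else 0 := by
  have h1 : lin v = (Finsupp.equivFunOnFinite.symm v).linearCombination ℂ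
      (X : τ → MvPolynomial τ ℂ) := by
    rw [Finsupp.linearCombination_apply, Finsupp.sum_fintype _ _ (fun i => by rw [zero_smul])]
    unfold lin
    refine Finset.sum_congr rfl fun t _ => ?_
    rw [smul_eq_C_mul]
    rfl
  rw [h1, coeff_linearCombination_X_pow]
  have h2 : s.sum (fun _ m => m) = s.degree := rfl
  rw [h2, Finsupp.prod_fintype _ _ (fun i => by rw [pow_zero])]
  rfl

theorem multinomial_ne_zero {τ : Type} (s : τ →₀ ℕ) : (s.multinomial : ℂ) ≠ 0 := by
  rw [Nat.cast_ne_zero]
  unfold Finsupp.multinomial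
  exact (Nat.multinomial_pos _ _).ne'

theorem mem_anti {τ : Type} [Fintype τ] (e : ℕ) (s : τ →₀ ℕ) :
    s ∈ Finset.finsuppAntidiag (Finset.univ : Finset τ) e ↔ s.degree = e := by
  rw [Finset.mem_finsuppAntidiag, Finsupp.degree_eq_sum]
  simp

/-- A homogeneous polynomial is the sum of its monomials. -/
theorem homog_eq {τ : Type} [Fintype τ] {e : ℕ} {F : MvPolynomial τ ℂ} (hF : F.IsHomogeneous e) :
    F = ∑ s ∈ Finset.finsuppAntidiag (Finset.univ : Finset τ) e, monomial s (coeff s F) := by
  ext s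
  rw [coeff_sum]
  simp only [coeff_monomial]
  rw [Finset.sum_ite_eq']
  split_ifs with h
  · rfl
  · rw [mem_anti] at h
    exact hF.coeff_eq_zero h

theorem span_all (τ : Type) [Fintype τ] (e : ℕ) :
    homogeneousSubmodule τ ℂ e = Submodule.span ℂ (Set.range fun v : τ → ℂ => lin v ^ e) := by
  apply le_antisymm
  · intro F hF
    by_contra hcon
    obtain ⟨f, hfF, hker⟩ := Submodule.exists_le_ker_of_notMem hcon
    apply hfF
    have h0 : ∀ v : τ → ℂ, f (lin v ^ e) = 0 := fun v =>
      hker (Submodule.subset_span ⟨v, rfl⟩)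
    set S := Finset.finsuppAntidiag (Finset.univ : Finset τ) e with hS
    have hhom : ∀ v : τ → ℂ, (lin v ^ e).IsHomogeneous e := by
      intro v
      have h1 : (lin v).IsHomogeneous 1 := by
        unfold lin
        apply IsHomogeneous.sum
        intro t _
        exact isHomogeneous_C_mul_X _ _
      have := h1.pow e
      rwa [one_mul] at this
    have hP : ∑ s ∈ S, monomial s ((s.multinomial : ℂ) * f (monomial s 1)) = 0 := by
      apply MvPolynomial.funext
      intro v
      rw [map_sum, map_zero, ← h0 v]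
      conv_rhs => rw [homog_eq (hhom v), map_sum]
      refine Finset.sum_congr rfl fun s hs => ?_
      rw [coeff_lin_pow, if_pos ((mem_anti e s).1 hs), eval_monomial,
        Finsupp.prod_fintype _ _ (fun i => by rw [pow_zero])]
      have : (monomial s) ((s.multinomial : ℂ) * ∏ t, v t ^ s t) =
          ((s.multinomial : ℂ) * ∏ t, v t ^ s t) • (monomial s (1 : ℂ)) := by
        rw [smul_monomial, smul_eq_mul, mul_one]
      rw [this, map_smul, smul_eq_mul]
      ring
    have hcoef : ∀ s ∈ S, f (monomial s 1) = 0 := by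
      intro s hs
      have h1 : coeff s (∑ s ∈ S, monomial s ((s.multinomial : ℂ) * f (monomial s 1))) = 0 := by
        rw [hP, coeff_zero]
      rw [coeff_sum] at h1
      simp only [coeff_monomial] at h1
      rw [Finset.sum_ite_eq', if_pos hs] at h1
      rcases mul_eq_zero.1 h1 with h | h
      · exact absurd h (multinomial_ne_zero s)
      · exact h
    rw [homog_eq hF, map_sum]
    refine Finset.sum_eq_zero fun s hs => ?_
    have : (monomial s) (coeff s F) = coeff s F • (monomial s (1 : ℂ)) := by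
      rw [smul_monomial, smul_eq_mul, mul_one]
    rw [this, map_smul, hcoef s hs, smul_zero]
  · rw [Submodule.span_le]
    rintro _ ⟨v, rfl⟩
    have h1 : (lin v).IsHomogeneous 1 := by
      unfold lin
      apply IsHomogeneous.sum
      intro t _
      exact isHomogeneous_C_mul_X _ _
    have := h1.pow e
    rw [one_mul] at this
    exact this

theorem finrank_le (τ : Type) [Fintype τ] (e : ℕ) :
    Module.finrank ℂ (homogeneousSubmodule τ ℂ e) ≤ (Fintype.card τ + e - 1).choose e := by
  set S := Finset.finsuppAntidiag (Finset.univ : Finset τ) e with hS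
  have h1 : homogeneousSubmodule τ ℂ e ≤
      Submodule.span ℂ ((S.image fun s => monomial s (1 : ℂ) : Finset (MvPolynomial τ ℂ)) :
        Set (MvPolynomial τ ℂ)) := by
    intro F hF
    rw [homog_eq hF]
    refine Submodule.sum_mem _ fun s hs => ?_
    have : (monomial s) (coeff s F) = coeff s F • (monomial s (1 : ℂ)) := by
      rw [smul_monomial, smul_eq_mul, mul_one]
    rw [this]
    refine Submodule.smul_mem _ _ (Submodule.subset_span ?_)
    exact Finset.mem_coe.2 (Finset.mem_image_of_mem _ hs)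
  have h2 := Submodule.finrank_mono h1
  refine h2.trans ?_
  refine (finrank_span_finset_le_card _).trans ?_
  refine Finset.card_image_le.trans ?_
  rw [hS, Finset.card_finsuppAntidiag_nat_eq_choose, Finset.card_univ]

end PowSpanLX

open PowSpanLX in
/-- The powers of linear forms span: a family of `dim S_e` linear forms whose `e`-th powers span
the forms of degree `e`. -/
theorem pow_span (τ : Type) [Fintype τ] [Nonempty τ] (e : ℕ) :
    ∃ w : Fin ((Fintype.card τ - 1 + e).choose e) → τ → ℂ,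
      homogeneousSubmodule τ ℂ e ≤ Submodule.span ℂ (Set.range fun k => lin (w k) ^ e) := by
  have hcard : 1 ≤ Fintype.card τ := Fintype.card_pos
  have hle := finrank_le τ e
  rw [show Fintype.card τ + e - 1 = Fintype.card τ - 1 + e by omega] at hle
  have hfin : Module.Finite ℂ (homogeneousSubmodule τ ℂ e) :=
    Module.Finite.iff_fg.2 (homogeneousSubmodule_fg _ _ e)
  rw [span_all] at hfin hle
  obtain ⟨f, hf1, hf2, -⟩ := Submodule.exists_fun_fin_finrank_span_eq ℂ
    (Set.range fun v : τ → ℂ => lin v ^ e)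
  choose v hv using hf1
  refine ⟨fun k => if hk : (k : ℕ) < Module.finrank ℂ
    (Submodule.span ℂ (Set.range fun v : τ → ℂ => lin v ^ e)) then v ⟨k, hk⟩ else 0, ?_⟩
  refine ((span_all τ e).trans hf2.symm).le.trans ?_
  apply Submodule.span_mono
  rintro _ ⟨i, rfl⟩
  refine ⟨⟨i, lt_of_lt_of_le i.2 hle⟩, ?_⟩
  change lin (dite ((i : ℕ) < _) _ _) ^ e = f i
  rw [dif_pos i.2]
  exact hv i

end Pool.Agent.H21.HD

end

section

/-!
Powers spanning each set of blocks.
-/

namespace Pool.Agent.H21.HD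

open MvPolynomial
open scoped Classical

namespace BlockPowX

/-- extension by zero -/
noncomputable def extv {N : ℕ} {A : Type} (b : Finset (Fin N)) (u : {x : Fin N × A // x.1 ∈ b} → ℂ) :
    Fin N × A → ℂ := fun x => if h : x.1 ∈ b then u ⟨x, h⟩ else 0

theorem rename_lin {N : ℕ} {A : Type} [Fintype A] (b : Finset (Fin N))
    (u : {x : Fin N × A // x.1 ∈ b} → ℂ) :
    rename (Subtype.val : {x : Fin N × A // x.1 ∈ b} → Fin N × A) (lin u) = lin (extv b u) := by
  unfold lin
  rw [map_sum]
  apply Fintype.sum_of_injective Subtype.val Subtype.val_injective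
  · intro x hx
    have h1 : x.1 ∉ b := by
      intro h
      exact hx ⟨⟨x, h⟩, rfl⟩
    simp [extv, h1]
  · intro x
    have h1 : extv b u x.1 = u x := by
      unfold extv
      rw [dif_pos x.2]
    rw [h1, map_mul, rename_C, rename_X]

theorem card_sub {N : ℕ} {A : Type} [Fintype A] (b : Finset (Fin N)) :
    Fintype.card {x : Fin N × A // x.1 ∈ b} = b.card * Fintype.card A := by
  rw [Fintype.card_subtype]
  have h1 : Finset.univ.filter (fun x : Fin N × A => x.1 ∈ b) = b ×ˢ Finset.univ := by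
    ext x
    simp
  rw [h1, Finset.card_product, Finset.card_univ]

end BlockPowX

open BlockPowX

/-- Linear forms whose `e₀`-th powers span the forms of degree `e₀` in every set of `e₀ - 1`
blocks. -/
theorem exists_block_powers {N : ℕ} {A : Type} [Fintype A] [Nonempty A] (e₀ : ℕ) (h2 : 2 ≤ e₀)
    (X : Type) [Fintype X]
    (hX : N.choose (e₀ - 1) * ((e₀ - 1) * Fintype.card A - 1 + e₀).choose e₀ ≤ Fintype.card X) :
    ∃ w : X → Fin N × A → ℂ, ∀ b : Finset (Fin N), b.card = e₀ - 1 →
      ∀ F : MvPolynomial (Fin N × A) ℂ, F.IsHomogeneous e₀ →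
        (∀ γ ∈ F.support, ∀ x, γ x ≠ 0 → x.1 ∈ b) →
        F ∈ powSpan e₀ w (fun _ => e₀) := by
  have h1 : ∀ b : {b : Finset (Fin N) // b.card = e₀ - 1},
      ∃ w : Fin (((e₀ - 1) * Fintype.card A - 1 + e₀).choose e₀) → {x : Fin N × A // x.1 ∈ b.1} → ℂ,
      homogeneousSubmodule {x : Fin N × A // x.1 ∈ b.1} ℂ e₀
        ≤ Submodule.span ℂ (Set.range fun k => lin (w k) ^ e₀) := by
    intro b
    have hne : Nonempty {x : Fin N × A // x.1 ∈ b.1} := by
      have h3 : b.1.Nonempty := by
        rw [← Finset.card_pos, b.2]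
        omega
      obtain ⟨i, hi⟩ := h3
      exact ⟨⟨(i, Classical.arbitrary A), hi⟩⟩
    have h4 := pow_span {x : Fin N × A // x.1 ∈ b.1} e₀
    rw [card_sub b.1, b.2] at h4
    exact h4
  choose W hW using h1
  have h3 : Fintype.card ({b : Finset (Fin N) // b.card = e₀ - 1}
      × Fin (((e₀ - 1) * Fintype.card A - 1 + e₀).choose e₀)) ≤ Fintype.card X := by
    rw [Fintype.card_prod, Fintype.card_fin, Fintype.card_finset_len, Fintype.card_fin]
    exact hX
  obtain ⟨ι⟩ := Function.Embedding.nonempty_of_card_le h3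
  refine ⟨fun x => if h : ∃ q, ι q = x then extv h.choose.1.1 (W h.choose.1 h.choose.2) else 0, ?_⟩
  intro b hb F hF hsupp
  have hvars : (F.vars : Set (Fin N × A)) ⊆ Set.range (Subtype.val : {x : Fin N × A // x.1 ∈ b} → _) := by
    intro x hx
    rw [Finset.mem_coe, mem_vars] at hx
    obtain ⟨γ, hγ, hxγ⟩ := hx
    exact ⟨⟨x, hsupp γ hγ x (Finsupp.mem_support_iff.1 hxγ)⟩, rfl⟩
  obtain ⟨F', hF'⟩ := exists_rename_eq_of_vars_subset_range F Subtype.val Subtype.val_injective hvars
  have hhom : F'.IsHomogeneous e₀ := by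
    rw [← IsHomogeneous.rename_isHomogeneous_iff (f := (Subtype.val : {x : Fin N × A // x.1 ∈ b} → _))
      Subtype.val_injective, hF']
    exact hF
  have h5 := hW ⟨b, hb⟩ ((mem_homogeneousSubmodule _ _).2 hhom)
  have h6 : rename (Subtype.val : {x : Fin N × A // x.1 ∈ b} → _) F' ∈
      (Submodule.span ℂ (Set.range fun k => lin (W ⟨b, hb⟩ k) ^ e₀)).map
        (rename (R := ℂ) (Subtype.val : {x : Fin N × A // x.1 ∈ b} → _)).toLinearMap :=
    ⟨F', h5, rfl⟩
  rw [hF', Submodule.map_span] at h6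
  refine Submodule.span_le.2 ?_ h6
  rintro _ ⟨_, ⟨k, rfl⟩, rfl⟩
  apply Submodule.subset_span
  refine ⟨ι (⟨b, hb⟩, k), 1, le_rfl, ?_, ?_⟩
  · rw [Nat.sub_self]
    exact isHomogeneous_one _ _
  · have h7 : ∃ q, ι q = ι (⟨b, hb⟩, k) := ⟨_, rfl⟩
    have h8 : h7.choose = (⟨b, hb⟩, k) := ι.injective h7.choose_spec
    simp only
    rw [dif_pos h7, one_mul, AlgHom.toLinearMap_apply, map_pow, rename_lin, h8]

end Pool.Agent.H21.HD

end

section

/-!
# Module GenB: the general dimension

Useful: `general_finrank_le`, `finrank_add_length_ge` (H18/FatToric), `finite_fat` (H21/HD/BridgeC),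
`Nat.sInf_mem`, `Nat.sInf_le`, `Submodule.finrank_mono`, `Submodule.finrank_sup_add_finrank_inf_eq`,
`finrank_homog'` (H21/HD/BridgeD).
-/

namespace Pool.Agent.H21.NX

open Finset MvPolynomial Pool.Agent.H18.Fat

namespace GenBX

theorem vanishes_anti {n : ℕ} {F : MvPolynomial (Fin n) ℂ} {q : Fin n → ℂ} {m m' : ℕ}
    (h : m ≤ m') (hF : VanishesToOrder F q m') : VanishesToOrder F q m :=
  fun β hβ => hF β (lt_of_lt_of_le hβ h)

/-- Fewer points. -/
theorem fat_comp_le {r d : ℕ} {ι ι' : Type*} (φ : ι' → ι) (p : ι → Fin (r + 1) → ℂ)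
    (m : ι → ℕ) : fatForms r d p m ≤ fatForms r d (fun i => p (φ i)) (fun i => m (φ i)) :=
  fun _ hF => ⟨hF.1, fun i => hF.2 (φ i)⟩

theorem fat_comp_equiv {r d : ℕ} {ι ι' : Type*} (e : ι' ≃ ι) (p : ι → Fin (r + 1) → ℂ)
    (m : ι → ℕ) : fatForms r d (fun i => p (e i)) (fun i => m (e i)) = fatForms r d p m := by
  apply le_antisymm
  · intro F hF
    refine ⟨hF.1, fun i => ?_⟩
    have := hF.2 (e.symm i)
    simpa using this
  · exact fat_comp_le e p m

theorem gdim_attained (r d : ℕ) {κ : Type} (m : κ → ℕ) :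
    ∃ p : κ → Fin (r + 1) → ℂ, Module.finrank ℂ (fatForms r d p m) = gdim r d m := by
  have h := Nat.sInf_mem (Set.range_nonempty
    fun p : κ → Fin (r + 1) → ℂ => Module.finrank ℂ (fatForms r d p m))
  obtain ⟨p, hp⟩ := h
  exact ⟨p, hp⟩

theorem eval_aeval' {σ τ : Type*} (a : τ → ℂ) (g : σ → MvPolynomial τ ℂ)
    (G : MvPolynomial σ ℂ) : eval a (aeval g G) = eval (fun x => eval a (g x)) G := by
  induction G using MvPolynomial.induction_on with
  | C c => simp
  | add p q hp hq => rw [map_add, map_add, map_add, hp, hq]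
  | mul_X p i hp => rw [map_mul, map_mul, map_mul, hp, aeval_X, eval_X]

end GenBX

open GenBX

theorem gdim_le (r d : ℕ) {κ : Type} (m : κ → ℕ) (p : κ → Fin (r + 1) → ℂ) :
    gdim r d m ≤ Module.finrank ℂ (fatForms r d p m) :=
  Nat.sInf_le ⟨p, rfl⟩

theorem gdim_comp_equiv (r d : ℕ) {κ κ' : Type} (e : κ' ≃ κ) (m : κ → ℕ) :
    gdim r d (fun i => m (e i)) = gdim r d m := by
  apply le_antisymm
  · obtain ⟨p₀, hp₀⟩ := gdim_attained r d m
    rw [← hp₀, ← fat_comp_equiv e p₀ m]
    exact gdim_le _ _ _ _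
  · obtain ⟨p₀, hp₀⟩ := gdim_attained r d (fun i => m (e i))
    rw [← hp₀, ← fat_comp_equiv e.symm p₀ (fun i => m (e i))]
    have : (fun i => m (e (e.symm i))) = m := by
      funext i
      rw [e.apply_symm_apply]
    rw [this]
    exact gdim_le _ _ _ _

end Pool.Agent.H21.NX

end

section

/-!
# XD, module N1: the numbers `A e m t j`

`A_pascal`: induction on `t`, `Nat.multichoose_succ_succ`.  `A_anti_t`: by strong induction on `j`
(`A e m (s + 1) j = A e m s j - A e m s (j - e s)`, the last number is `≥ A e m T (j - e s) ≥ 0`).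
`A_mono_m`: `A_pascal`.  `A_le_pow`: `A_anti_t` with `t = 0` and `multichoose_le_pow`.
-/

set_option autoImplicit false

namespace Pool.Agent.XD

open Finset MvPolynomial Pool.Agent.H18.Fat

private theorem Basic_mc_step (m j : ℕ) (hm : 1 ≤ m) :
    Nat.multichoose m (j + 1) * (j + 1) = (m + j) * Nat.multichoose m j := by
  obtain ⟨n, rfl⟩ : ∃ n, m = n + 1 := ⟨m - 1, by omega⟩
  rw [Nat.multichoose_eq, Nat.multichoose_eq, show n + 1 + (j + 1) - 1 = n + j + 1 by omega,
    show n + 1 + j - 1 = n + j by omega, show n + 1 + j = n + j + 1 by omega]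
  exact (Nat.add_one_mul_choose_eq (n + j) j).symm

theorem multichoose_le_pow (m j : ℕ) : Nat.multichoose m j ≤ m ^ j := by
  induction j with
  | zero => rw [Nat.multichoose_zero_right, pow_zero]
  | succ j ih =>
    rcases Nat.eq_zero_or_pos m with rfl | hm
    · rw [Nat.multichoose_zero_succ]
      exact Nat.zero_le _
    have h1 := Basic_mc_step m j hm
    have h2 : m + j ≤ m * (j + 1) := by nlinarith
    apply Nat.le_of_mul_le_mul_right _ (by omega : 0 < j + 1)
    calc Nat.multichoose m (j + 1) * (j + 1) = (m + j) * Nat.multichoose m j := h1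
      _ ≤ (m * (j + 1)) * m ^ j := Nat.mul_le_mul h2 ih
      _ = m ^ (j + 1) * (j + 1) := by ring

theorem A_zero (e : ℕ → ℕ) (m j : ℕ) : A e m 0 j = (Nat.multichoose m j : ℤ) := rfl

theorem A_succ (e : ℕ → ℕ) (m t j : ℕ) :
    A e m (t + 1) j = A e m t j - if e t ≤ j then A e m t (j - e t) else 0 := rfl

theorem A_deg_zero {e : ℕ → ℕ} (he : ∀ t, 1 ≤ e t) (m t : ℕ) : A e m t 0 = 1 := by
  induction t with
  | zero => rw [A_zero, Nat.multichoose_zero_right, Nat.cast_one]
  | succ t ih =>
    have h := he t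
    rw [A_succ, ih, if_neg (by omega), sub_zero]

theorem A_pascal {e : ℕ → ℕ} (he : ∀ t, 1 ≤ e t) (m t j : ℕ) :
    A e (m + 1) t (j + 1) = A e m t (j + 1) + A e (m + 1) t j := by
  induction t generalizing j with
  | zero =>
    rw [A_zero, A_zero, A_zero, Nat.multichoose_succ_succ, Nat.cast_add]
  | succ t ih =>
    rw [A_succ, A_succ, A_succ, ih j]
    have h : (if e t ≤ j + 1 then A e (m + 1) t (j + 1 - e t) else 0) =
        (if e t ≤ j + 1 then A e m t (j + 1 - e t) else 0) +
          (if e t ≤ j then A e (m + 1) t (j - e t) else 0) := by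
      rcases Nat.lt_trichotomy (e t) (j + 1) with h1 | h1 | h1
      · rw [if_pos h1.le, if_pos h1.le, if_pos (by omega), show j + 1 - e t = j - e t + 1 by omega]
        exact ih (j - e t)
      · rw [if_pos h1.le, if_pos h1.le, if_neg (by omega), h1, Nat.sub_self, A_deg_zero he,
          A_deg_zero he, add_zero]
      · rw [if_neg (by omega), if_neg (by omega), if_neg (by omega), add_zero]
    rw [h]
    ring

/-- Nonnegative in the degrees `< D` for `T` powers: decreasing in `t ≤ T` in the degrees `≤ D`. -/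
theorem A_anti_t {e : ℕ → ℕ} (he : ∀ t, 1 ≤ e t) {m T D : ℕ} (h : ∀ j < D, 0 ≤ A e m T j) {t : ℕ}
    (ht : t ≤ T) {j : ℕ} (hj : j ≤ D) : A e m T j ≤ A e m t j := by
  induction j using Nat.strong_induction_on generalizing t with
  | _ j ih =>
    have hstep : ∀ s, s < T → A e m (s + 1) j ≤ A e m s j := by
      intro s hs
      rw [A_succ]
      split_ifs with h1
      · have h2 := he s
        have h3 : A e m T (j - e s) ≤ A e m s (j - e s) := ih (j - e s) (by omega) hs.le (by omega)
        have h4 := h (j - e s) (by omega)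
        linarith
      · rw [sub_zero]
    have hall : ∀ k, t + k ≤ T → A e m (t + k) j ≤ A e m t j := by
      intro k
      induction k with
      | zero => exact fun _ => le_refl _
      | succ k ihk =>
        intro hk
        exact (hstep (t + k) (by omega)).trans (ihk (by omega))
    have h5 := hall (T - t) (by omega)
    rwa [show t + (T - t) = T by omega] at h5

/-- Nonnegative in the degrees `< D` for `m` variables: increasing in the number of variables. -/
theorem A_mono_m {e : ℕ → ℕ} (he : ∀ t, 1 ≤ e t) {m t D : ℕ} (h : ∀ j < D, 0 ≤ A e m t j) {m' : ℕ}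
    (hm : m ≤ m') {j : ℕ} (hj : j ≤ D) : A e m t j ≤ A e m' t j := by
  have hall : ∀ k, ∀ j ≤ D, A e m t j ≤ A e (m + k) t j := by
    intro k
    induction k with
    | zero => exact fun j _ => le_refl _
    | succ k ihk =>
      intro j
      induction j with
      | zero =>
        intro _
        rw [A_deg_zero he, A_deg_zero he]
      | succ j ihj =>
        intro hj
        rw [show m + (k + 1) = m + k + 1 by omega, A_pascal he (m + k) t j]
        have h1 := ihk (j + 1) hj
        have h2 := ihj (by omega)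
        rw [show m + (k + 1) = m + k + 1 by omega] at h2
        have h3 := h j (by omega)
        linarith
  have h1 := hall (m' - m) j hj
  rwa [show m + (m' - m) = m' by omega] at h1

theorem A_le_pow {e : ℕ → ℕ} (he : ∀ t, 1 ≤ e t) {m t D : ℕ} (h : ∀ j < D, 0 ≤ A e m t j) {j : ℕ}
    (hj : j ≤ D) : A e m t j ≤ (m : ℤ) ^ j := by
  refine (A_anti_t he h (Nat.zero_le t) hj).trans ?_
  rw [A_zero]
  exact_mod_cast multichoose_le_pow m j

end Pool.Agent.XD

end

section

/-!
# XD, module N2: the numbers `F m t j` of a system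

All from `Sys.stair` at `(m, t)` (for `m = 0` use the stair at `m = 1`, `cnt` with `i = 0`).
`le_mul`: `v ∈ lay N m (j + 1)` is `x ::ₘ u` with `x < m`, `u ∈ lay N m j`.
`ker`: `w ∈ lay N m d` with `count (m - 1) w ≥ e` is `v + replicate e (m - 1)`; for the second
formula `(lay N m d).filter (count (m - 1) = 0) = lay N (m - 1) d`.
-/

set_option autoImplicit false

namespace Pool.Agent.XD

open Finset MvPolynomial Pool.Agent.H18.Fat

variable {d : ℕ} {e : ℕ → ℕ} {F : ℕ → ℕ → ℕ → ℕ}

theorem Sys.mono (h : Sys d e F) {d' : ℕ} (hd : d' ≤ d) : Sys d' e F := by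
  refine ⟨fun m j hj => h.zero m j (hj.trans hd), fun m t hm => ?_⟩
  obtain ⟨N, hN, hF⟩ := h.stair m t hm
  exact ⟨N, ⟨hN.lt, hN.div, hN.up, fun i hi j hj => hN.cnt i hi j (hj.trans hd)⟩,
    fun j hj => hF j (hj.trans hd)⟩

private theorem FB_lay_zero (N : Finset (Multiset ℕ)) (i : ℕ) : lay N i 0 ⊆ {0} := by
  intro v hv
  rw [mem_lay] at hv
  rw [mem_singleton]
  exact Multiset.card_eq_zero.1 hv.2.1

private theorem FB_lay_zero_eq (N : Finset (Multiset ℕ)) (i i' : ℕ) : lay N i 0 = lay N i' 0 := by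
  ext v
  rw [mem_lay, mem_lay]
  constructor
  · rintro ⟨h1, h2, -⟩
    refine ⟨h1, h2, fun x hx => ?_⟩
    rw [Multiset.card_eq_zero.1 h2] at hx
    exact absurd hx (Multiset.notMem_zero x)
  · rintro ⟨h1, h2, -⟩
    refine ⟨h1, h2, fun x hx => ?_⟩
    rw [Multiset.card_eq_zero.1 h2] at hx
    exact absurd hx (Multiset.notMem_zero x)

theorem Sys.deg_zero (h : Sys d e F) (he : ∀ t, 1 ≤ e t) (m t : ℕ) : F m t 0 = 1 := by
  have key : ∀ t m, 1 ≤ m → F m t 0 = 1 := by
    intro t
    induction t with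
    | zero =>
      intro m _
      rw [h.zero m 0 (Nat.zero_le _), Nat.multichoose_zero_right]
    | succ t ih =>
      intro m hm
      obtain ⟨N, hN, hF⟩ := h.stair m t hm
      have h1 : (lay N m 0).card = 1 := by
        rw [hN.cnt m le_rfl 0 (Nat.zero_le _)]
        exact ih m hm
      rw [hF 0 (Nat.zero_le _), ← h1]
      congr 1
      rw [filter_eq_self]
      intro v hv
      have h2 := mem_singleton.1 (FB_lay_zero N m hv)
      rw [h2, Multiset.count_zero]
      exact he t
  rcases Nat.eq_zero_or_pos m with h0 | h0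
  · subst h0
    obtain ⟨N, hN, -⟩ := h.stair 1 t le_rfl
    have h1 := hN.cnt 0 (Nat.zero_le _) 0 (Nat.zero_le _)
    have h2 := hN.cnt 1 le_rfl 0 (Nat.zero_le _)
    rw [FB_lay_zero_eq N 0 1, h2] at h1
    have h3 := key t 1 le_rfl
    exact h1.symm.trans h3
  · exact key t m h0

theorem Sys.no_vars (h : Sys d e F) (t : ℕ) {j : ℕ} (hj : j < d) : F 0 t (j + 1) = 0 := by
  obtain ⟨N, hN, -⟩ := h.stair 1 t le_rfl
  have h1 := hN.cnt 0 (Nat.zero_le _) (j + 1) hj
  have h2 : lay N 0 (j + 1) = ∅ := by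
    rw [eq_empty_iff_forall_notMem]
    intro v hv
    rw [mem_lay] at hv
    obtain ⟨x, hx⟩ := Multiset.card_pos_iff_exists_mem.1 (by rw [hv.2.1]; exact Nat.succ_pos j)
    exact absurd (hv.2.2 x hx) (Nat.not_lt_zero x)
  rw [h2, card_empty] at h1
  exact h1.symm

theorem Sys.le_mul (h : Sys d e F) (m t : ℕ) {j : ℕ} (hj : j < d) :
    F m t (j + 1) ≤ m * F m t j := by
  rcases Nat.eq_zero_or_pos m with h0 | h0
  · subst h0
    rw [h.no_vars t hj]
    exact Nat.zero_le _
  · obtain ⟨N, hN, -⟩ := h.stair m t h0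
    have h1 : (lay N m (j + 1)).card = F m t (j + 1) := hN.cnt m le_rfl (j + 1) hj
    have h2 : (lay N m j).card = F m t j := hN.cnt m le_rfl j hj.le
    rw [← h1, ← h2]
    have h3 : lay N m (j + 1) ⊆ (range m ×ˢ lay N m j).image fun p => p.1 ::ₘ p.2 := by
      intro v hv
      rw [mem_lay] at hv
      obtain ⟨x, hx⟩ := Multiset.card_pos_iff_exists_mem.1 (by rw [hv.2.1]; exact Nat.succ_pos j)
      rw [mem_image]
      refine ⟨(x, v.erase x), ?_, Multiset.cons_erase hx⟩
      rw [mem_product, mem_range, mem_lay]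
      refine ⟨hv.2.2 x hx, hN.div v hv.1 _ (Multiset.erase_le x v), ?_, fun y hy =>
        hv.2.2 y (Multiset.mem_of_mem_erase hy)⟩
      rw [Multiset.card_erase_of_mem hx, hv.2.1]
      rfl
    refine (card_le_card h3).trans (card_image_le.trans ?_)
    rw [card_product, card_range]

theorem Sys.le_pow_mul (h : Sys d e F) (m t : ℕ) {l j : ℕ} (hlj : l ≤ j) (hj : j ≤ d) :
    F m t j ≤ m ^ (j - l) * F m t l := by
  obtain ⟨s, rfl⟩ := Nat.exists_eq_add_of_le hlj
  clear hlj
  induction s with
  | zero =>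
    rw [Nat.add_zero, Nat.sub_self, pow_zero, one_mul]
  | succ s ih =>
    have h1 := ih (by omega)
    have h2 := h.le_mul m t (j := l + s) (by omega)
    have h3 : l + s - l = s := by omega
    have h4 : l + (s + 1) - l = s + 1 := by omega
    rw [h3] at h1
    rw [h4, pow_succ]
    calc F m t (l + (s + 1)) ≤ m * F m t (l + s) := h2
      _ ≤ m * (m ^ s * F m t l) := Nat.mul_le_mul_left _ h1
      _ = m ^ s * m * F m t l := by ring

theorem Sys.le_pow (h : Sys d e F) (he : ∀ t, 1 ≤ e t) (m t : ℕ) {j : ℕ} (hj : j ≤ d) :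
    F m t j ≤ m ^ j := by
  have h1 := h.le_pow_mul m t (Nat.zero_le j) hj
  rw [h.deg_zero he, mul_one, Nat.sub_zero] at h1
  exact h1

theorem Sys.skip (h : Sys d e F) (he : ∀ t, 1 ≤ e t) (m t : ℕ) {j : ℕ} (hj : j ≤ d)
    (hjt : j < e t) : F m (t + 1) j = F m t j := by
  rcases Nat.eq_zero_or_pos m with h0 | h0
  · subst h0
    rcases j with _ | j
    · rw [h.deg_zero he, h.deg_zero he]
    · rw [h.no_vars (t + 1) hj, h.no_vars t hj]
  · obtain ⟨N, hN, hF⟩ := h.stair m t h0
    have h1 : (lay N m j).card = F m t j := hN.cnt m le_rfl j hj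
    rw [hF j hj, ← h1]
    congr 1
    rw [filter_eq_self]
    intro v hv
    rw [mem_lay] at hv
    have h2 := Multiset.count_le_card (m - 1) v
    rw [hv.2.1] at h2
    omega

private theorem FB_ker {m d : ℕ} {N : Finset (Multiset ℕ)} {f : ℕ → ℕ → ℕ}
    (hN : Stair m d N f) (a : ℕ) (ha : a ≤ d) :
    ((lay N m d).filter fun v => v.count (m - 1) < a).card + (lay N m (d - a)).card =
      (lay N m d).card + kk N m d a := by
  unfold kk
  have h1 := card_filter_add_card_filter_not (s := lay N m d) fun v => v.count (m - 1) < a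
  have h2 := card_filter_add_card_filter_not (s := lay N m (d - a))
    fun v => v + Multiset.replicate a (m - 1) ∉ N
  have h3 : ((lay N m d).filter fun v => ¬ v.count (m - 1) < a).card =
      ((lay N m (d - a)).filter fun v => ¬ v + Multiset.replicate a (m - 1) ∉ N).card := by
    refine (card_bij (fun v _ => v + Multiset.replicate a (m - 1)) ?_ ?_ ?_).symm
    · intro v hv
      rw [mem_filter, not_not, mem_lay] at hv
      obtain ⟨⟨h4, h5, h6⟩, h7⟩ := hv
      rw [mem_filter, mem_lay, Multiset.card_add, Multiset.card_replicate, h5,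
        Multiset.count_add, Multiset.count_replicate_self]
      refine ⟨⟨h7, by omega, hN.lt _ h7⟩, by omega⟩
    · intro v _ v' _ h4
      exact add_right_cancel h4
    · intro v hv
      rw [mem_filter, mem_lay, not_lt] at hv
      obtain ⟨⟨h4, h5, h6⟩, h7⟩ := hv
      have h8 : Multiset.replicate a (m - 1) ≤ v := Multiset.le_count_iff_replicate_le.1 h7
      have h9 : v - Multiset.replicate a (m - 1) + Multiset.replicate a (m - 1) = v :=
        Multiset.sub_add_cancel h8
      refine ⟨v - Multiset.replicate a (m - 1), ?_, h9⟩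
      rw [mem_filter, not_not, mem_lay, h9, Multiset.card_sub h8, Multiset.card_replicate, h5]
      exact ⟨⟨hN.div v h4 _ (Multiset.sub_le_self _ _), rfl, fun x hx =>
        h6 x (Multiset.mem_of_le (Multiset.sub_le_self _ _) hx)⟩, h4⟩
  omega

/-- The stair at `(m, t)` and the kernels. -/
theorem Sys.ker (h : Sys d e F) (m t : ℕ) (hm : 1 ≤ m) : ∃ N : Finset (Multiset ℕ),
    Stair m d N (fun i j => F i t j) ∧
    (e t ≤ d → F m (t + 1) d + F m t (d - e t) = F m t d + kk N m d (e t)) ∧
    (1 ≤ d → F (m - 1) t d + F m t (d - 1) = F m t d + kk N m d 1) := by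
  obtain ⟨N, hN, hF⟩ := h.stair m t hm
  have hc : ∀ j ≤ d, (lay N m j).card = F m t j := fun j hj => hN.cnt m le_rfl j hj
  refine ⟨N, hN, fun he => ?_, fun hd => ?_⟩
  · rw [hF d le_rfl, ← hc d le_rfl, ← hc (d - e t) (Nat.sub_le _ _)]
    exact FB_ker hN (e t) he
  · have h1 : (lay N (m - 1) d).card = F (m - 1) t d := hN.cnt (m - 1) (Nat.sub_le _ _) d le_rfl
    rw [← h1, ← hc d le_rfl, ← hc (d - 1) (Nat.sub_le _ _), ← FB_ker hN 1 hd]
    congr 2
    ext v
    rw [mem_filter, mem_lay, mem_lay]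
    constructor
    · rintro ⟨h2, h3, h4⟩
      refine ⟨⟨h2, h3, fun x hx => lt_of_lt_of_le (h4 x hx) (Nat.sub_le _ _)⟩, ?_⟩
      rw [Nat.lt_one_iff, Multiset.count_eq_zero]
      intro h5
      exact lt_irrefl _ (h4 _ h5)
    · rintro ⟨⟨h2, h3, h4⟩, h5⟩
      refine ⟨h2, h3, fun x hx => ?_⟩
      rw [Nat.lt_one_iff, Multiset.count_eq_zero] at h5
      have h6 := h4 x hx
      have h7 : x ≠ m - 1 := fun h8 => h5 (h8 ▸ hx)
      omega

end Pool.Agent.XD

end
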