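import Pool.Agent.H94.LP7.M04
import Pool.Agent.H94.LP7.M07

/-! The parts of this file: H21.NX.GenB_2, GD.N.Defs, GD.ST.Core2. -/

section

/-!
# Module GenB: the general dimension

Useful: `general_finrank_le`, `finrank_add_length_ge` (H18/FatToric), `finite_fat` (H21/HD/BridgeC),
`Nat.sInf_mem`, `Nat.sInf_le`, `Submodule.finrank_mono`, `Submodule.finrank_sup_add_finrank_inf_eq`,
`finrank_homog'` (H21/HD/BridgeD).
-/

namespace Pool.Agent.H21.NX

open Finset MvPolynomial Pool.Agent.H18.Fat

namespace GenBX

theorem finite_fat {r d : ℕ} {ι : Type*} (p : ι → Fin (r + 1) → ℂ) (m : ι → ℕ) :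
    Module.Finite ℂ (fatForms r d p m) :=
  Pool.Agent.H21.HD.BridgeCX.finite_fat p m

end GenBX

open GenBX

theorem gdim_elim_le (r d : ℕ) {κ κ' : Type} [Fintype κ] [Fintype κ'] (m : κ → ℕ) (n : κ' → ℕ) :
    gdim r d (Sum.elim m n) ≤ gdim r d m := by
  obtain ⟨p₀, hp₀⟩ := gdim_attained r d m
  have := finite_fat (d := d) p₀ m
  rw [← hp₀]
  exact (gdim_le r d (Sum.elim m n) (Sum.elim p₀ 0)).trans
    (Submodule.finrank_mono (fat_comp_le Sum.inl (Sum.elim p₀ 0) (Sum.elim m n)))

theorem gdim_empty (r d : ℕ) (m : Fin 0 → ℕ) : gdim r d m = (d + r).choose r := by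
  obtain ⟨p₀, hp₀⟩ := gdim_attained r d m
  have h : fatForms r d p₀ m = homogeneousSubmodule (Fin (r + 1)) ℂ d := by
    ext F
    exact ⟨fun hF => hF.1, fun hF => ⟨hF, fun i => i.elim0⟩⟩
  rw [← hp₀, h, Pool.Agent.H21.HD.BridgeDX.finrank_homog']

end Pool.Agent.H21.NX

end

section

/-!
# General d, numerical block: definitions
-/

set_option autoImplicit false

namespace Pool.Agent.GD

open Finset

/-- The object is put on `L_j`. -/
def onK (j : ℕ) : Kd → Kd
  | .ord x A => .ord x (insert j A)
  | .cl e dl i As => .cl e dl i (As.map (insert j))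

/-- The object is put off `L_j`: of a cluster with at least two members the first one stays on `L_j`. -/
def offK (j : ℕ) : Kd → Kd
  | .ord x A => .ord x A
  | .cl e dl i (A :: B :: As) => .cl e dl i (insert j A :: B :: As)
  | .cl e dl i As => .cl e dl i As

/-- The types of the new clusters of the level `j`. -/
def newT (d e j : ℕ) : Finset CT :=
  (Icc 2 ((d - j - 1) / (e - 1))).image (fun k => CT.pl k ∅) ∪
    (if (d - j - 1) % (e - 1) = 0 then ∅ else {CT.b0 ∅}) ∪ (Icc 1 j).image CT.br

/-- The exponent of the trace of a new cluster. -/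
def CT.E (d e j : ℕ) : CT → ℕ
  | .pl k _ => k * (e - 1) + 1
  | .b0 _ => d - j
  | .br r => d - j + r

/-- The set of the blocks on which the trace of a new cluster vanishes. -/
def CT.A (j : ℕ) : CT → Finset ℕ
  | .pl _ _ => range j
  | .b0 _ => range j
  | .br r => Ico r j

end Pool.Agent.GD

end

section

/-!
# General d, step: one object, trace and residual
-/

set_option autoImplicit false
set_option linter.unusedSectionVars false

namespace Pool.Agent.GD

open Finset Polynomial
open Pool.Agent.V7 (msk)

theorem getD_mem {As : List (Finset ℕ)} {x : ℕ} (h : x < As.length) : As.getD x ∅ ∈ As := by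
  rw [List.getD_eq_getElem _ _ h]
  exact List.getElem_mem h

section

variable {ν ν' : Type} [Fintype ν] [DecidableEq ν] [Fintype ν'] [DecidableEq ν'] {d : ℕ}
  {β : ν → ℕ} {β' : ν' → ℕ} {σ : ν' → ν} {j : ℕ}

/-- The sum of the members vanishes on the block `i`. -/
theorem uu_zero {e dl i : ℕ} {As : List (Finset ℕ)} (hl : 1 ≤ As.length) (hlen : As.length ≤ d + 1)
    (hiA : ∀ A ∈ As, i ∉ A) (q : ν × Fin (d + 1) → ℂ) {s : ν} (hs : β s = i) :
    uu β (.cl e dl i As) q s = 0 := by
  have h5 : ∀ y : Fin (d + 1), β s ∉ As.getD y ∅ := by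
    intro y hy
    by_cases h6 : y.1 < As.length
    · exact hiA _ (getD_mem h6) (hs ▸ hy)
    · rw [List.getD_eq_default _ _ (by omega)] at hy
      exact notMem_empty _ hy
  have h6 : ∀ y : Fin (d + 1), (if y.1 < As.length then pt β (.cl e dl i As) y q s else 0) =
      (if y.1 + 1 < As.length then q (s, y) else 0) +
        (if y.1 + 1 = As.length then - ∑ y : Fin (d + 1),
          (if y.1 + 1 < As.length then q (s, y) else 0) else 0) := by
    intro y
    have h0 : pt β (.cl e dl i As) y q s = if y.1 + 1 = As.length then - ∑ y : Fin (d + 1),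
        (if y.1 + 1 < As.length then q (s, y) else 0) else q (s, y) := by
      simp only [pt, msk, if_neg (h5 y)]
      simp only [hs, true_and]
    rw [h0]
    rcases Nat.lt_trichotomy (y.1 + 1) As.length with h7 | h7 | h7
    · rw [if_pos (by omega), if_neg h7.ne, if_pos h7, if_neg h7.ne, add_zero]
    · rw [if_pos (by omega), if_pos h7, if_neg (by omega), if_pos h7, zero_add]
    · rw [if_neg (by omega), if_neg (by omega), if_neg (by omega), zero_add]
  rw [uu_cl, sum_congr rfl fun y _ => h6 y, sum_add_distrib]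
  have h7 : ∑ y : Fin (d + 1), (if y.1 + 1 = As.length then - ∑ y : Fin (d + 1),
      (if y.1 + 1 < As.length then q (s, y) else 0) else 0) =
      - ∑ y : Fin (d + 1), (if y.1 + 1 < As.length then q (s, y) else 0) := by
    rw [sum_eq_single (⟨As.length - 1, by omega⟩ : Fin (d + 1))]
    · rw [if_pos (by show As.length - 1 + 1 = As.length; omega)]
    · intro y _ hy
      rw [if_neg]
      intro h8
      exact hy (Fin.ext (by show y.1 = As.length - 1; omega))
    · intro h8
      exact absurd (mem_univ _) h8
  rw [h7, add_neg_cancel]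

end

end Pool.Agent.GD

end
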