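import Pool.Agent.H94.LP7.M01

/-! The parts of this file: H21.Pol, H21.QR, H21.XF.Rat. -/

section

/-!
Polarization and restitution of polynomials.
-/

set_option linter.unusedSectionVars false

namespace Pool.Agent.H21

open scoped Classical
open MvPolynomial

variable {K : Type} [Field K] {P : Type} [Fintype P] {A : Type} [Fintype A]

/-- The squarefree exponent with support `U`. -/
noncomputable def one (U : Finset P) : P →₀ ℕ :=
  Finsupp.equivFunOnFinite.symm (fun p => if p ∈ U then 1 else 0)

lemma one_apply (U : Finset P) (p : P) : one U p = if p ∈ U then 1 else 0 := rfl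

lemma one_eq_zero_iff (U : Finset P) : (0 = one U) ↔ U = ∅ := by
  constructor
  · intro h
    rw [Finset.eq_empty_iff_forall_notMem]
    intro p hp
    have := DFunLike.congr_fun h p
    rw [one_apply, if_pos hp] at this
    simp at this
  · rintro rfl
    ext p
    rw [one_apply]
    simp

lemma one_sub_single {U : Finset P} {p : P} (hp : p ∈ U) :
    one U - Finsupp.single p 1 = one (U.erase p) := by
  ext q
  rw [Finsupp.tsub_apply, one_apply, one_apply, Finsupp.single_apply]
  by_cases hq : p = q
  · subst hq
    simp [hp]
  · have : q ∈ U.erase p ↔ q ∈ U := by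
      rw [Finset.mem_erase]
      exact ⟨fun h => h.2, fun h => ⟨fun h' => hq h'.symm, h⟩⟩
    simp only [this, if_neg hq, Nat.sub_zero]

variable (K) in
/-- Substitute for each variable the sum of the formal variables of the positions it occupies. -/
noncomputable def phi (y : P → A) : MvPolynomial A K →ₐ[K] MvPolynomial P K :=
  aeval (fun a => ∑ p ∈ Finset.univ.filter (fun p => y p = a), X p)

/-- Polarization: the coefficient of the product of the variables of the positions in `U`. -/
noncomputable def pol (U : Finset P) (w : MvPolynomial A K) (y : P → A) : K :=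
  coeff (one U) (phi K y w)

lemma pol_add (U : Finset P) (w w' : MvPolynomial A K) (y : P → A) :
    pol U (w + w') y = pol U w y + pol U w' y := by
  unfold pol
  rw [map_add, coeff_add]

lemma pol_zero (U : Finset P) (y : P → A) : pol U (0 : MvPolynomial A K) y = 0 := by
  unfold pol
  rw [map_zero, coeff_zero]

lemma pol_sum {ι : Type*} (s : Finset ι) (U : Finset P) (w : ι → MvPolynomial A K) (y : P → A) :
    pol U (∑ i ∈ s, w i) y = ∑ i ∈ s, pol U (w i) y := by
  unfold pol
  rw [map_sum, coeff_sum]

lemma pol_C (U : Finset P) (c : K) (y : P → A) :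
    pol U (C c : MvPolynomial A K) y = if U = ∅ then c else 0 := by
  unfold pol phi
  rw [algHom_C, algebraMap_eq, coeff_C]
  simp only [one_eq_zero_iff]

lemma pol_C_mul (U : Finset P) (c : K) (w : MvPolynomial A K) (y : P → A) :
    pol U (C c * w) y = c * pol U w y := by
  unfold pol
  rw [map_mul]
  have : phi K y (C c) = C c := by
    unfold phi
    rw [algHom_C, algebraMap_eq]
  rw [this, coeff_C_mul]

lemma pol_mul_X (U : Finset P) (w : MvPolynomial A K) (a : A) (y : P → A) :
    pol U (w * X a) y = ∑ p ∈ U.filter (fun p => y p = a), pol (U.erase p) w y := by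
  unfold pol
  rw [map_mul]
  have h1 : phi K y (X a) = ∑ p ∈ Finset.univ.filter (fun p => y p = a), X p := by
    unfold phi
    rw [aeval_X]
  rw [h1, Finset.mul_sum, coeff_sum]
  simp only [coeff_mul_X']
  have h2 : ∀ p, p ∈ (one U).support ↔ p ∈ U := by
    intro p
    rw [Finsupp.mem_support_iff, one_apply]
    by_cases hp : p ∈ U <;> simp [hp]
  simp only [h2]
  rw [← Finset.sum_filter]
  have h3 : (Finset.univ.filter (fun p => y p = a)).filter (fun p => p ∈ U) =
      U.filter (fun p => y p = a) := by
    ext p
    simp only [Finset.mem_filter, Finset.mem_univ, true_and]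
    tauto
  rw [h3]
  refine Finset.sum_congr rfl fun p hp => ?_
  rw [one_sub_single (Finset.mem_filter.mp hp).1]

/-- Polarization only depends on the coordinates in `U`. -/
lemma pol_congr (w : MvPolynomial A K) : ∀ (U : Finset P) (y y' : P → A),
    (∀ p ∈ U, y p = y' p) → pol U w y = pol U w y' := by
  induction w using MvPolynomial.induction_on with
  | C c =>
    intro U y y' _
    rw [pol_C, pol_C]
  | add p q hp hq =>
    intro U y y' h
    rw [pol_add, pol_add, hp U y y' h, hq U y y' h]
  | mul_X p a hp =>
    intro U y y' h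
    rw [pol_mul_X, pol_mul_X]
    have h1 : U.filter (fun p => y p = a) = U.filter (fun p => y' p = a) := by
      apply Finset.filter_congr
      intro q hq
      rw [h q hq]
    rw [h1]
    refine Finset.sum_congr rfl fun q hq => ?_
    exact hp (U.erase q) y y' fun r hr => h r (Finset.mem_of_mem_erase hr)

/-- Product rule. -/
lemma pol_mul (U : Finset P) (w f : MvPolynomial A K) (y : P → A) :
    pol U (w * f) y = ∑ V ∈ U.powerset, pol V w y * pol (U \ V) f y := by
  unfold pol
  rw [map_mul, coeff_mul]
  symm
  refine Finset.sum_nbij' (fun V => (one V, one (U \ V))) (fun x => x.1.support) ?_ ?_ ?_ ?_ ?_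
  · intro V hV
    rw [Finset.mem_powerset] at hV
    rw [Finset.HasAntidiagonal.mem_antidiagonal]
    ext p
    simp only [Finsupp.add_apply, one_apply, Finset.mem_sdiff]
    by_cases h1 : p ∈ V
    · simp [h1, hV h1]
    · by_cases h2 : p ∈ U <;> simp [h1, h2]
  · rintro ⟨a, b⟩ hab
    rw [Finset.HasAntidiagonal.mem_antidiagonal] at hab
    simp only at hab ⊢
    rw [Finset.mem_powerset]
    intro p hp
    rw [Finsupp.mem_support_iff] at hp
    have h1 := DFunLike.congr_fun hab p
    rw [Finsupp.add_apply, one_apply] at h1
    by_contra h2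
    rw [if_neg h2] at h1
    omega
  · intro V _
    ext p
    rw [Finsupp.mem_support_iff, one_apply]
    by_cases h1 : p ∈ V <;> simp [h1]
  · rintro ⟨a, b⟩ hab
    rw [Finset.HasAntidiagonal.mem_antidiagonal] at hab
    simp only at hab ⊢
    have h1 : ∀ p, a p + b p = if p ∈ U then 1 else 0 := by
      intro p
      have := DFunLike.congr_fun hab p
      rwa [Finsupp.add_apply, one_apply] at this
    rw [Prod.mk.injEq]
    constructor
    · ext p
      have h2 := h1 p
      rw [one_apply]
      by_cases h3 : a p = 0
      · rw [if_neg (by rw [Finsupp.mem_support_iff]; simpa using h3)]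
        exact h3.symm
      · rw [if_pos (by rw [Finsupp.mem_support_iff]; exact h3)]
        split_ifs at h2 <;> omega
    · ext p
      have h2 := h1 p
      rw [one_apply]
      by_cases h3 : p ∈ U \ a.support
      · rw [if_pos h3]
        rw [Finset.mem_sdiff, Finsupp.mem_support_iff, not_not] at h3
        rw [if_pos h3.1, h3.2] at h2
        omega
      · rw [if_neg h3]
        rw [Finset.mem_sdiff, Finsupp.mem_support_iff] at h3
        by_cases h4 : p ∈ U
        · rw [if_pos h4] at h2
          have h5 : a p ≠ 0 := by tauto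
          omega
        · rw [if_neg h4] at h2
          omega
  · intro V _
    rfl

/-- Polarization of a derivative. -/
lemma pol_pderiv (a : A) (w : MvPolynomial A K) : ∀ (U : Finset P) (p : P), p ∉ U →
    ∀ y : P → A, pol U (pderiv a w) y = pol (insert p U) w (Function.update y p a) := by
  induction w using MvPolynomial.induction_on with
  | C c =>
    intro U p _ y
    rw [pderiv_C, pol_zero, pol_C, if_neg (Finset.insert_ne_empty _ _)]
  | add f g hf hg =>
    intro U p hp y
    rw [map_add, pol_add, pol_add, hf U p hp y, hg U p hp y]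
  | mul_X f b hf =>
    intro U p hp y
    have hcongr : ∀ V : Finset P, p ∉ V → ∀ g : MvPolynomial A K,
        pol V g (Function.update y p a) = pol V g y := by
      intro V hV g
      apply pol_congr
      intro q hq
      rw [Function.update_of_ne (fun h : q = p => hV (h ▸ hq))]
    rw [pderiv_mul, pol_add, pol_mul_X, pol_mul_X]
    have h1 : ∀ q ∈ U, (Function.update y p a q = b ↔ y q = b) := by
      intro q hq
      rw [Function.update_of_ne (fun h : q = p => hp (h ▸ hq))]
    rw [Finset.filter_insert, Function.update_self, Finset.filter_congr h1]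
    have h2 : ∑ q ∈ U.filter (fun q => y q = b), pol (U.erase q) (pderiv a f) y =
        ∑ q ∈ U.filter (fun q => y q = b),
          pol ((insert p U).erase q) f (Function.update y p a) := by
      refine Finset.sum_congr rfl fun q hq => ?_
      have hqU := (Finset.mem_filter.mp hq).1
      have hqp : q ≠ p := fun h => hp (h ▸ hqU)
      rw [hf (U.erase q) p (fun h => hp (Finset.mem_of_mem_erase h)) y,
        Finset.erase_insert_of_ne hqp.symm]
    rw [h2]
    by_cases hab : a = b
    · subst hab
      rw [if_pos rfl, pderiv_X_self, mul_one, Finset.sum_insert, Finset.erase_insert hp,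
        hcongr U hp, add_comm]
      intro h
      exact hp (Finset.mem_filter.mp h).1
    · rw [if_neg hab, pderiv_X_of_ne (fun h => hab h.symm), mul_zero, pol_zero, add_zero]

variable (K) in
/-- Restitution. -/
noncomputable def rho (U : Finset P) : ((P → A) → K) →ₗ[K] MvPolynomial A K where
  toFun φ := ∑ y : P → A, φ y • ∏ p ∈ U, X (y p)
  map_add' φ ψ := by
    simp only [Pi.add_apply, add_smul, Finset.sum_add_distrib]
  map_smul' c φ := by
    simp only [Pi.smul_apply, smul_eq_mul, mul_smul, Finset.smul_sum, RingHom.id_apply]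

lemma rho_apply (U : Finset P) (φ : (P → A) → K) :
    rho K U φ = ∑ y : P → A, φ y • ∏ p ∈ U, (X (y p) : MvPolynomial A K) := rfl

lemma sum_update {M : Type*} [AddCommMonoid M] (p : P) (F : (P → A) → M) :
    ∑ a : A, ∑ y : P → A, F (Function.update y p a) = Fintype.card A • ∑ y : P → A, F y := by
  rw [← Finset.sum_product', ← Finset.card_univ, ← Finset.sum_const, ← Finset.sum_product']
  refine Finset.sum_nbij' (fun x => (x.2 p, Function.update x.2 p x.1))
    (fun x => (x.2 p, Function.update x.2 p x.1)) ?_ ?_ ?_ ?_ ?_
  · intro x _; simp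
  · intro x _; simp
  · rintro ⟨a, y⟩ _
    simp
  · rintro ⟨a, y⟩ _
    simp
  · rintro ⟨a, y⟩ _
    rfl

/-- Restitution of a polarization. -/
lemma rho_pol (U : Finset P) : ∀ w : MvPolynomial A K, w.IsHomogeneous U.card →
    Fintype.card A ^ U.card • rho K U (pol U w) =
      (Fintype.card A ^ Fintype.card P * U.card.factorial) • w := by
  induction U using Finset.induction_on with
  | empty =>
    intro w hw
    rw [Finset.card_empty, ← totalDegree_zero_iff_isHomogeneous,
      totalDegree_eq_zero_iff_eq_C] at hw
    rw [hw, rho_apply]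
    simp only [pol_C, if_true, Finset.prod_empty, Finset.card_empty, pow_zero, one_smul,
      Finset.sum_const, Finset.card_univ, Fintype.card_fun, Nat.factorial_zero, mul_one]
    rw [smul_eq_C_mul, mul_one]
  | insert p U hp ih =>
    intro w hw
    rw [Finset.card_insert_of_notMem hp] at hw ⊢
    have hEuler := hw.sum_X_mul_pderiv
    have h1 : Fintype.card A • rho K (insert p U) (pol (insert p U) w) =
        ∑ a : A, X a * rho K U (pol U (pderiv a w)) := by
      rw [rho_apply, ← sum_update p]
      refine Finset.sum_congr rfl fun a _ => ?_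
      rw [rho_apply, Finset.mul_sum]
      refine Finset.sum_congr rfl fun y _ => ?_
      rw [pol_pderiv a w U p hp y, Finset.prod_insert hp, Function.update_self, mul_smul_comm]
      congr 2
      refine Finset.prod_congr rfl fun q hq => ?_
      rw [Function.update_of_ne (fun h : q = p => hp (h ▸ hq))]
    rw [pow_succ, mul_smul, h1, Finset.smul_sum]
    have h2 : ∀ a : A, Fintype.card A ^ U.card • (X a * rho K U (pol U (pderiv a w))) =
        (Fintype.card A ^ Fintype.card P * U.card.factorial) • (X a * pderiv a w) := by
      intro a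
      rw [← mul_smul_comm, ih (pderiv a w) (by
        have := hw.pderiv (i := a)
        simpa using this), mul_smul_comm]
    rw [Finset.sum_congr rfl fun a _ => h2 a, ← Finset.smul_sum, hEuler, smul_smul,
      Nat.factorial_succ]
    congr 1
    ring

/-- Restitution of a product. -/
lemma rho_mul (U V : Finset P) (hVU : V ⊆ U) (φ ψ : (P → A) → K)
    (hφ : ∀ x y, (∀ p ∈ V, x p = y p) → φ x = φ y)
    (hψ : ∀ x y, (∀ p ∈ U \ V, x p = y p) → ψ x = ψ y) :
    Fintype.card (P → A) • rho K U (φ * ψ) = rho K V φ * rho K (U \ V) ψ := by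
  rw [rho_apply, rho_apply, rho_apply, Finset.sum_mul_sum, ← Finset.card_univ,
    ← Finset.sum_const, ← Finset.sum_product', ← Finset.sum_product']
  let mix : (P → A) → (P → A) → (P → A) := fun y y' p => if p ∈ V then y p else y' p
  refine Finset.sum_nbij' (fun x => (mix x.2 x.1, mix x.1 x.2))
    (fun x => (mix x.2 x.1, mix x.1 x.2)) ?_ ?_ ?_ ?_ ?_
  · intro x _; simp
  · intro x _; simp
  · rintro ⟨y, y'⟩ _
    simp only [Prod.mk.injEq]
    constructor <;>
    · funext p
      simp only [mix]
      by_cases hp : p ∈ V <;> simp [hp]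
  · rintro ⟨y, y'⟩ _
    simp only [Prod.mk.injEq]
    constructor <;>
    · funext p
      simp only [mix]
      by_cases hp : p ∈ V <;> simp [hp]
  · rintro ⟨y, y'⟩ _
    simp only
    have h1 : φ (mix y' y) = φ y' := hφ _ _ fun p hp => by simp [mix, hp]
    have h2 : ψ (mix y y') = ψ y' := hψ _ _ fun p hp => by
      simp [mix, (Finset.mem_sdiff.mp hp).2]
    have h3 : ∏ p ∈ V, (X (mix y' y p) : MvPolynomial A K) = ∏ p ∈ V, X (y' p) :=
      Finset.prod_congr rfl fun p hp => by simp [mix, hp]
    have h4 : ∏ p ∈ U \ V, (X (mix y y' p) : MvPolynomial A K) = ∏ p ∈ U \ V, X (y' p) :=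
      Finset.prod_congr rfl fun p hp => by simp [mix, (Finset.mem_sdiff.mp hp).2]
    rw [h1, h2, h3, h4, smul_mul_smul_comm, Pi.mul_apply]
    congr 1
    rw [mul_comm]
    exact (Finset.prod_sdiff hVU).symm

end Pool.Agent.H21

end

section

/-!
From the derivative property to the Hilbert function of the ideal.
-/

set_option linter.unusedSectionVars false

namespace Pool.Agent.H21

open scoped Classical
open MvPolynomial

section Chain

variable {K : Type} [Field K] {A : Type} [Fintype A] {ι : Type} [Fintype ι]

/-- Differentiate the coefficients. -/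
noncomputable def dcoef (a : A) (F : MvPolynomial ι (MvPolynomial A K)) :
    MvPolynomial ι (MvPolynomial A K) :=
  ∑ m ∈ F.support, monomial m (pderiv a (coeff m F))

lemma coeff_dcoef (a : A) (F : MvPolynomial ι (MvPolynomial A K)) (m : ι →₀ ℕ) :
    coeff m (dcoef a F) = pderiv a (coeff m F) := by
  unfold dcoef
  rw [coeff_sum]
  simp only [coeff_monomial]
  rw [Finset.sum_ite_eq' F.support m]
  split_ifs with h
  · rfl
  · rw [notMem_support_iff.mp h, map_zero]

lemma dcoef_homogeneous (a : A) {F : MvPolynomial ι (MvPolynomial A K)} {r : ℕ}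
    (hF : F.IsHomogeneous r) : (dcoef a F).IsHomogeneous r := by
  unfold dcoef
  apply IsHomogeneous.sum
  intro m hm
  apply isHomogeneous_monomial
  by_contra h
  exact (mem_support_iff.mp hm) (hF.coeff_eq_zero h)

/-- The chain rule. -/
lemma pderiv_eval (a : A) (f : ι → MvPolynomial A K) (F : MvPolynomial ι (MvPolynomial A K)) :
    pderiv a (eval f F) = eval f (dcoef a F) + ∑ l, eval f (pderiv l F) * pderiv a (f l) := by
  induction F using MvPolynomial.induction_on with
  | C c =>
    have h1 : dcoef a (C c : MvPolynomial ι (MvPolynomial A K)) = C (pderiv a c) := by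
      ext1 m
      rw [coeff_dcoef, coeff_C, coeff_C]
      split_ifs
      · rfl
      · rw [map_zero]
    rw [h1, eval_C, eval_C]
    simp
  | add F G hF hG =>
    have h1 : dcoef a (F + G) = dcoef a F + dcoef a G := by
      ext1 m
      rw [coeff_add, coeff_dcoef, coeff_dcoef, coeff_dcoef, coeff_add, map_add]
    rw [h1]
    simp only [map_add, add_mul, Finset.sum_add_distrib, hF, hG]
    ring
  | mul_X F l hF =>
    have h1 : dcoef a (F * X l) = dcoef a F * X l := by
      ext1 m
      rw [coeff_dcoef, coeff_mul_X', coeff_mul_X']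
      split_ifs
      · rw [coeff_dcoef]
      · rw [map_zero]
    rw [h1, map_mul, eval_X, pderiv_mul, hF, map_mul, eval_X]
    have h2 : ∀ l', eval f (pderiv l' (F * X l)) * pderiv a (f l') =
        eval f (pderiv l' F) * f l * pderiv a (f l') +
        (if l' = l then eval f F * pderiv a (f l) else 0) := by
      intro l'
      rw [pderiv_mul, map_add, map_mul, map_mul, eval_X]
      by_cases h : l' = l
      · subst h
        rw [pderiv_X_self, map_one, if_pos rfl]
        ring
      · rw [pderiv_X_of_ne (fun h' => h h'.symm), map_zero, if_neg h]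
        ring
    rw [Finset.sum_congr rfl fun l' _ => h2 l', Finset.sum_add_distrib, Finset.sum_ite_eq',
      if_pos (Finset.mem_univ l), add_mul, Finset.sum_mul]
    have h3 : ∑ i, eval f (pderiv i F) * pderiv a (f i) * f l =
        ∑ i, eval f (pderiv i F) * f l * pderiv a (f i) :=
      Finset.sum_congr rfl fun i _ => by ring
    rw [h3]
    ring

variable {f : ι → MvPolynomial A K}

lemma eval_mem_pow {F : MvPolynomial ι (MvPolynomial A K)} {r : ℕ} (hF : F.IsHomogeneous r) :
    eval f F ∈ (Ideal.span (Set.range f)) ^ r :=
  (Ideal.mem_span_pow_iff_exists_isHomogeneous f _).mpr ⟨F, hF, rfl⟩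

lemma pderiv_mem_pow (a : A) {r : ℕ} {g : MvPolynomial A K}
    (hg : g ∈ (Ideal.span (Set.range f)) ^ (r + 1)) :
    pderiv a g ∈ (Ideal.span (Set.range f)) ^ r := by
  obtain ⟨F, hF, rfl⟩ := (Ideal.mem_span_pow_iff_exists_isHomogeneous f _).mp hg
  rw [pderiv_eval]
  apply Ideal.add_mem
  · exact Ideal.pow_le_pow_right (Nat.le_succ r) (eval_mem_pow (dcoef_homogeneous a hF))
  · refine Ideal.sum_mem _ fun l _ => Ideal.mul_mem_right _ _ ?_
    have := hF.pderiv (i := l)
    exact eval_mem_pow (by simpa using this)

lemma mem_of_nat_mul_mem [CharZero K] {I : Ideal (MvPolynomial A K)} {n : ℕ}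
    {g : MvPolynomial A K} (h : g * ((n : MvPolynomial A K) + 1) ∈ I) : g ∈ I := by
  have hn : ((n : K) + 1) ≠ 0 := by exact_mod_cast Nat.succ_ne_zero n
  have h1 : g = C (((n : K) + 1)⁻¹) * (g * ((n : MvPolynomial A K) + 1)) := by
    have h2 : ((n : MvPolynomial A K) + 1) = C ((n : K) + 1) := by
      rw [C_add, C_1, map_natCast]
    rw [h2, mul_comm g, ← mul_assoc, ← C_mul, inv_mul_cancel₀ hn, C_1, one_mul]
  rw [h1]
  exact I.mul_mem_left _ h

/-- Quasi-regularity from the derivative property. -/
theorem quasi_regular [CharZero K] (f : ι → MvPolynomial A K) (d D : ℕ) (hd : 1 ≤ d)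
    (hf : ∀ l, (f l).IsHomogeneous d)
    (hDS : ∀ e, e + d ≤ D → ∀ w : ι → MvPolynomial A K, (∀ l, (w l).IsHomogeneous e) →
      (∀ a, ∑ l, w l * pderiv a (f l) ∈ Ideal.span (Set.range f)) →
      ∀ l, w l ∈ Ideal.span (Set.range f)) :
    ∀ (r e : ℕ), e + r * d ≤ D → ∀ F : MvPolynomial ι (MvPolynomial A K), F.IsHomogeneous r →
      (∀ m, (coeff m F).IsHomogeneous e) →
      eval f F ∈ (Ideal.span (Set.range f)) ^ (r + 1) →
      ∀ m, coeff m F ∈ Ideal.span (Set.range f) := by
  intro r
  induction r with
  | zero =>
    intro e _ F hF _ hmem m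
    rw [← totalDegree_zero_iff_isHomogeneous, totalDegree_eq_zero_iff_eq_C] at hF
    rw [hF, eval_C, zero_add, pow_one] at hmem
    rw [hF, coeff_C]
    split_ifs
    · exact hmem
    · exact Ideal.zero_mem _
  | succ r ih =>
    intro e he F hF hFc hmem m
    -- the coefficients of the derivative
    have hG : ∀ a, ∀ m, coeff m (∑ l, pderiv l F * C (pderiv a (f l))) =
        ∑ l, (coeff (m + Finsupp.single l 1) F * ((m l : MvPolynomial A K) + 1)) *
          pderiv a (f l) := by
      intro a m
      rw [coeff_sum]
      refine Finset.sum_congr rfl fun l _ => ?_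
      rw [mul_comm, coeff_C_mul, coeff_pderiv]
      ring
    have hstep : ∀ a, ∀ m, coeff m (∑ l, pderiv l F * C (pderiv a (f l))) ∈
        Ideal.span (Set.range f) := by
      intro a
      apply ih (e + (d - 1)) (by
        have : (r + 1) * d = r * d + d := by ring
        omega)
      · apply IsHomogeneous.sum
        intro l _
        have h1 := hF.pderiv (i := l)
        rw [Nat.add_sub_cancel] at h1
        have h2 := h1.mul (isHomogeneous_C ι (pderiv a (f l)))
        simpa using h2
      · intro m
        rw [hG]
        apply IsHomogeneous.sum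
        intro l _
        apply IsHomogeneous.mul
        · have h2 : ((m l : MvPolynomial A K) + 1) = C ((m l : K) + 1) := by
            rw [C_add, C_1, map_natCast]
          rw [h2, mul_comm]
          exact (hFc _).C_mul _
        · exact (hf l).pderiv
      · have h1 := pderiv_mem_pow a hmem
        rw [pderiv_eval] at h1
        have h2 := eval_mem_pow (f := f) (dcoef_homogeneous a hF)
        have h3 := Ideal.sub_mem _ h1 h2
        rw [add_sub_cancel_left] at h3
        rw [map_sum]
        convert h3 using 1
        refine Finset.sum_congr rfl fun l _ => ?_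
        rw [map_mul, eval_C]
    by_cases hm : m = 0
    · subst hm
      have : coeff 0 F = 0 := hF.coeff_eq_zero (by simp)
      rw [this]
      exact Ideal.zero_mem _
    · obtain ⟨l₀, hl₀⟩ : ∃ l, m l ≠ 0 := by
        by_contra hcon
        push Not at hcon
        exact hm (Finsupp.ext hcon)
      set m' := m - Finsupp.single l₀ 1 with hm'
      have hmm : m' + Finsupp.single l₀ 1 = m := by
        rw [hm']
        apply tsub_add_cancel_of_le
        rw [Finsupp.single_le_iff]
        omega
      have h1 := hDS e (by
        have : (r + 1) * d = r * d + d := by ring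
        omega) (fun l => coeff (m' + Finsupp.single l 1) F * ((m' l : MvPolynomial A K) + 1))
        (fun l => by
          have h2 : ((m' l : MvPolynomial A K) + 1) = C ((m' l : K) + 1) := by
            rw [C_add, C_1, map_natCast]
          rw [h2, mul_comm]
          exact (hFc _).C_mul _)
        (fun a => by
          have := hstep a m'
          rw [hG] at this
          exact this) l₀
      have h2 := mem_of_nat_mul_mem h1
      rwa [hmm] at h2

end Chain

section Dim

variable {K : Type} [Field K] {A : Type} [Fintype A] {ι : Type} [Fintype ι]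

/-- The space of forms has the expected dimension. -/
lemma finrank_forms (e : ℕ) : Module.finrank K (homogeneousSubmodule A K e) =
    (Fintype.card A + e - 1).choose e := by
  have e1 : homogeneousSubmodule A K e ≃ₗ[K]
      (↥(Finset.finsuppAntidiag (Finset.univ : Finset A) e) → K) :=
    { toFun := fun p m => coeff m.1 p.1
      map_add' := fun _ _ => rfl
      map_smul' := fun _ _ => rfl
      invFun := fun c => ⟨∑ m : ↥(Finset.finsuppAntidiag (Finset.univ : Finset A) e),
        monomial m.1 (c m), by
        rw [mem_homogeneousSubmodule]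
        apply IsHomogeneous.sum
        intro m _
        apply isHomogeneous_monomial
        have := (Finset.mem_finsuppAntidiag.mp m.2).1
        rw [Finsupp.degree_eq_sum]
        exact this⟩
      left_inv := by
        intro p
        apply Subtype.ext
        simp only
        ext1 m
        rw [coeff_sum]
        simp only [coeff_monomial]
        by_cases hm : m ∈ Finset.finsuppAntidiag (Finset.univ : Finset A) e
        · rw [Finset.sum_eq_single ⟨m, hm⟩]
          · rw [if_pos rfl]
          · intro m' _ hne
            rw [if_neg fun h => hne (Subtype.ext h)]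
          · intro h
            exact absurd (Finset.mem_univ _) h
        · rw [Finset.sum_eq_zero]
          · symm
            have hp := p.2
            rw [mem_homogeneousSubmodule] at hp
            apply hp.coeff_eq_zero
            intro h
            apply hm
            rw [Finset.mem_finsuppAntidiag]
            rw [Finsupp.degree_eq_sum] at h
            exact ⟨h, Finset.subset_univ _⟩
          · intro m' _
            rw [if_neg fun h => hm (by rw [← h]; exact m'.2)]
      right_inv := by
        intro c
        funext m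
        simp only
        rw [coeff_sum]
        simp only [coeff_monomial]
        rw [Finset.sum_eq_single m]
        · rw [if_pos rfl]
        · intro m' _ hne
          rw [if_neg fun h => hne (Subtype.ext h)]
        · intro h
          exact absurd (Finset.mem_univ _) h }
  rw [e1.finrank_eq, Module.finrank_fintype_fun_eq_card, Fintype.card_coe,
    Finset.card_finsuppAntidiag_nat_eq_choose, Finset.card_univ]

instance finite_forms (e : ℕ) : Module.Finite K (homogeneousSubmodule A K e) :=
  Module.Finite.of_fg (homogeneousSubmodule_fg A K e)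

lemma hc_mul (p : MvPolynomial A K) {q : MvPolynomial A K} {k : ℕ} (hq : q.IsHomogeneous k)
    (e : ℕ) : homogeneousComponent (e + k) (p * q) = homogeneousComponent e p * q := by
  conv_lhs => rw [← sum_homogeneousComponent p]
  rw [Finset.sum_mul, map_sum]
  have h1 : ∀ i, homogeneousComponent (e + k) (homogeneousComponent i p * q) =
      if i = e then homogeneousComponent e p * q else 0 := by
    intro i
    have h2 : (homogeneousComponent i p * q) ∈ homogeneousSubmodule A K (i + k) := by
      rw [mem_homogeneousSubmodule]
      exact (homogeneousComponent_isHomogeneous i p).mul hq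
    rw [homogeneousComponent_of_mem h2]
    by_cases hi : i = e
    · subst hi
      rw [if_pos rfl, if_pos rfl]
    · rw [if_neg hi, if_neg]
      omega
  rw [Finset.sum_congr rfl fun i _ => h1 i, Finset.sum_ite_eq']
  split_ifs with h
  · rfl
  · rw [homogeneousComponent_eq_zero]
    · rw [zero_mul]
    · rw [Finset.mem_range] at h
      omega

lemma hc_mul_zero (p : MvPolynomial A K) {q : MvPolynomial A K} {k : ℕ}
    (hq : q.IsHomogeneous k) (E : ℕ) (hE : E < k) : homogeneousComponent E (p * q) = 0 := by
  conv_lhs => rw [← sum_homogeneousComponent p]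
  rw [Finset.sum_mul, map_sum]
  apply Finset.sum_eq_zero
  intro i _
  have h2 : (homogeneousComponent i p * q) ∈ homogeneousSubmodule A K (i + k) := by
    rw [mem_homogeneousSubmodule]
    exact (homogeneousComponent_isHomogeneous i p).mul hq
  rw [homogeneousComponent_of_mem h2, if_neg]
  omega

/-- The degree `E` part of the `r`-th power of the ideal. -/
noncomputable def Jr (f : ι → MvPolynomial A K) (r E : ℕ) : Submodule K (MvPolynomial A K) :=
  (Submodule.restrictScalars K ((Ideal.span (Set.range f)) ^ r)) ⊓ homogeneousSubmodule A K E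

variable {f : ι → MvPolynomial A K} {d : ℕ}

lemma mem_Jr {r E : ℕ} {g : MvPolynomial A K} :
    g ∈ Jr f r E ↔ g ∈ (Ideal.span (Set.range f)) ^ r ∧ g.IsHomogeneous E := by
  unfold Jr
  rw [Submodule.mem_inf, Submodule.restrictScalars_mem, mem_homogeneousSubmodule]

/-- The product of generators with exponent `m`. -/
noncomputable def fm (f : ι → MvPolynomial A K) (m : ι →₀ ℕ) : MvPolynomial A K :=
  ∏ l, f l ^ m l

lemma fm_homogeneous (hf : ∀ l, (f l).IsHomogeneous d) (m : ι →₀ ℕ) :
    (fm f m).IsHomogeneous (m.degree * d) := by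
  unfold fm
  have h := IsHomogeneous.prod Finset.univ (fun l => f l ^ m l) (fun l => d * m l)
    (fun l _ => (hf l).pow (m l))
  convert h using 1
  rw [Finsupp.degree_eq_sum, ← Finset.mul_sum, mul_comm]

lemma eval_monomial_eq (m : ι →₀ ℕ) (c : MvPolynomial A K) :
    eval f (monomial m c) = c * fm f m := by
  rw [eval_monomial, Finsupp.prod_fintype _ _ (fun i => pow_zero _)]
  rfl

lemma eval_eq_sum {F : MvPolynomial ι (MvPolynomial A K)} {r : ℕ} (hF : F.IsHomogeneous r) :
    eval f F = ∑ m ∈ Finset.finsuppAntidiag (Finset.univ : Finset ι) r,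
      coeff m F * fm f m := by
  conv_lhs => rw [F.as_sum]
  rw [map_sum]
  have hsub : F.support ⊆ Finset.finsuppAntidiag (Finset.univ : Finset ι) r := by
    intro m hm
    rw [Finset.mem_finsuppAntidiag]
    refine ⟨?_, Finset.subset_univ _⟩
    rw [← Finsupp.degree_eq_sum]
    by_contra h
    exact (mem_support_iff.mp hm) (hF.coeff_eq_zero h)
  rw [← Finset.sum_subset hsub]
  · exact Finset.sum_congr rfl fun m _ => eval_monomial_eq m _
  · intro m _ hm
    rw [notMem_support_iff.mp hm, zero_mul]

lemma Jr_eq_bot (hf : ∀ l, (f l).IsHomogeneous d) {r E : ℕ} (h : E < r * d) :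
    Jr f r E = ⊥ := by
  rw [eq_bot_iff]
  intro g hg
  rw [mem_Jr] at hg
  obtain ⟨F, hF, hFg⟩ := (Ideal.mem_span_pow_iff_exists_isHomogeneous f g).mp hg.1
  rw [eval_eq_sum hF] at hFg
  have h1 : homogeneousComponent E g = g := by
    rw [homogeneousComponent_of_mem (m := E) (n := E)
      ((mem_homogeneousSubmodule _ _).mpr hg.2), if_pos rfl]
  rw [Submodule.mem_bot, ← h1, ← hFg, map_sum]
  apply Finset.sum_eq_zero
  intro m hm
  apply hc_mul_zero _ (fm_homogeneous hf m)
  rw [Finset.mem_finsuppAntidiag] at hm
  rw [Finsupp.degree_eq_sum, hm.1]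
  exact h

/-- Rank-nullity for the restriction of a linear map to a subspace. -/
lemma finrank_map_add_ker {V W : Type*} [AddCommGroup V] [Module K V]
    [AddCommGroup W] [Module K W] (g : V →ₗ[K] W) (J : Submodule K V) [FiniteDimensional K J] :
    Module.finrank K (↥(J ⊓ LinearMap.ker g)) + Module.finrank K (↥(J.map g)) =
      Module.finrank K J := by
  have h1 := LinearMap.finrank_range_add_finrank_ker (g.domRestrict J)
  rw [LinearMap.range_domRestrict, LinearMap.ker_domRestrict] at h1
  have h2 := (Submodule.equivMapOfInjective J.subtype (Submodule.injective_subtype J)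
    (Submodule.comap J.subtype (LinearMap.ker g))).finrank_eq
  rw [Submodule.map_comap_subtype] at h2
  rw [← h2]
  omega

lemma Jr_le (r E : ℕ) : Jr f r E ≤ homogeneousSubmodule A K E := inf_le_right

instance finite_Jr (r E : ℕ) : Module.Finite K (Jr f r E) :=
  Submodule.finiteDimensional_of_le (Jr_le r E)

/-- The dimensions of the graded pieces of the powers of the ideal. -/
theorem dim_step (hf : ∀ l, (f l).IsHomogeneous d) (r e : ℕ)
    (hQR : ∀ F : MvPolynomial ι (MvPolynomial A K), F.IsHomogeneous r →
      (∀ m, (coeff m F).IsHomogeneous e) →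
      eval f F ∈ (Ideal.span (Set.range f)) ^ (r + 1) →
      ∀ m, coeff m F ∈ Ideal.span (Set.range f)) :
    Module.finrank K (Jr f r (e + r * d)) +
        (Fintype.card ι + r - 1).choose r * Module.finrank K (Jr f 1 e) =
      Module.finrank K (Jr f (r + 1) (e + r * d)) +
        (Fintype.card ι + r - 1).choose r * Module.finrank K (homogeneousSubmodule A K e) := by
  set E := e + r * d with hE
  set Mr := Finset.finsuppAntidiag (Finset.univ : Finset ι) r with hMr
  have hMrd : ∀ m ∈ Mr, m.degree = r := by
    intro m hm
    rw [hMr, Finset.mem_finsuppAntidiag] at hm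
    rw [Finsupp.degree_eq_sum]
    exact hm.1
  have hMrcard : Mr.card = (Fintype.card ι + r - 1).choose r := by
    rw [hMr, Finset.card_finsuppAntidiag_nat_eq_choose, Finset.card_univ]
  let Φ : (↥Mr → ↥(homogeneousSubmodule A K e)) →ₗ[K] MvPolynomial A K :=
    { toFun := fun w => ∑ m : ↥Mr, (w m).1 * fm f m.1
      map_add' := by
        intro w w'
        simp only [Pi.add_apply, Submodule.coe_add, add_mul, Finset.sum_add_distrib]
      map_smul' := by
        intro c w
        simp only [Pi.smul_apply, Submodule.coe_smul, smul_mul_assoc, RingHom.id_apply,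
          Finset.smul_sum] }
  have hΦ : ∀ w, Φ w = ∑ m : ↥Mr, (w m).1 * fm f m.1 := fun _ => rfl
  -- the polynomial of a tuple
  have hpoly : ∀ w : ↥Mr → ↥(homogeneousSubmodule A K e),
      ∃ F : MvPolynomial ι (MvPolynomial A K), F.IsHomogeneous r ∧
        (∀ m, (coeff m F).IsHomogeneous e) ∧ eval f F = Φ w ∧ ∀ m : ↥Mr, coeff m.1 F = (w m).1 := by
    intro w
    have hc : ∀ m, coeff m (∑ m' : ↥Mr, monomial m'.1 (w m').1) =
        if h : m ∈ Mr then (w ⟨m, h⟩).1 else 0 := by
      intro m
      rw [coeff_sum]
      simp only [coeff_monomial]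
      split_ifs with h
      · rw [Finset.sum_eq_single ⟨m, h⟩]
        · rw [if_pos rfl]
        · intro m' _ hne
          rw [if_neg fun h' => hne (Subtype.ext h')]
        · intro h'
          exact absurd (Finset.mem_univ _) h'
      · apply Finset.sum_eq_zero
        intro m' _
        rw [if_neg fun h' => h (by rw [← h']; exact m'.2)]
    refine ⟨∑ m' : ↥Mr, monomial m'.1 (w m').1, ?_, ?_, ?_, ?_⟩
    · apply IsHomogeneous.sum
      intro m _
      exact isHomogeneous_monomial _ (hMrd m.1 m.2)
    · intro m
      rw [hc]
      split_ifs with h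
      · exact (mem_homogeneousSubmodule _ _).mp (w ⟨m, h⟩).2
      · exact isHomogeneous_zero _ _ _
    · rw [map_sum, hΦ]
      exact Finset.sum_congr rfl fun m _ => eval_monomial_eq m.1 _
    · intro m
      rw [hc, dif_pos m.2]
  -- the range
  have hrange : LinearMap.range Φ = Jr f r E := by
    apply le_antisymm
    · rintro _ ⟨w, rfl⟩
      rw [mem_Jr]
      constructor
      · obtain ⟨F, hF, _, hFe, _⟩ := hpoly w
        rw [← hFe]
        exact eval_mem_pow hF
      · rw [hΦ]
        apply IsHomogeneous.sum
        intro m _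
        have h1 := ((mem_homogeneousSubmodule _ _).mp (w m).2).mul (fm_homogeneous hf m.1)
        rwa [hMrd m.1 m.2] at h1
    · intro g hg
      rw [mem_Jr] at hg
      obtain ⟨F, hF, hFg⟩ := (Ideal.mem_span_pow_iff_exists_isHomogeneous f g).mp hg.1
      rw [eval_eq_sum hF] at hFg
      refine ⟨fun m => ⟨homogeneousComponent e (coeff m.1 F), ?_⟩, ?_⟩
      · exact homogeneousComponent_mem e _
      · rw [hΦ]
        have h1 : homogeneousComponent E g = g := by
          rw [homogeneousComponent_of_mem (m := E) (n := E)
            ((mem_homogeneousSubmodule _ _).mpr hg.2), if_pos rfl]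
        rw [← h1, ← hFg, map_sum]
        rw [Finset.sum_coe_sort Mr (fun m => homogeneousComponent e (coeff m F) * fm f m)]
        refine Finset.sum_congr rfl fun m hm => ?_
        have h2 := fm_homogeneous hf m
        rw [hMrd m hm] at h2
        rw [hE, hc_mul _ h2]
  have hle : Jr f (r + 1) E ≤ Jr f r E := by
    intro g hg
    rw [mem_Jr] at hg ⊢
    exact ⟨Ideal.pow_le_pow_right (Nat.le_succ r) hg.1, hg.2⟩
  set ρ := (Jr f (r + 1) E).mkQ ∘ₗ Φ with hρ
  have h1 := LinearMap.finrank_range_add_finrank_ker ρ
  have h2 : Module.finrank K (↥Mr → ↥(homogeneousSubmodule A K e)) =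
      (Fintype.card ι + r - 1).choose r * Module.finrank K (homogeneousSubmodule A K e) := by
    rw [Module.finrank_pi_fintype, Finset.sum_const, Finset.card_univ, Fintype.card_coe, hMrcard,
      smul_eq_mul]
  have h3 : LinearMap.range ρ = (Jr f r E).map (Jr f (r + 1) E).mkQ := by
    rw [hρ, LinearMap.range_comp, hrange]
  have h4 : Module.finrank K (Jr f (r + 1) E) + Module.finrank K (LinearMap.range ρ) =
      Module.finrank K (Jr f r E) := by
    rw [h3]
    have h5 := finrank_map_add_ker (Jr f (r + 1) E).mkQ (Jr f r E)
    rwa [Submodule.ker_mkQ, inf_eq_right.mpr hle] at h5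
  let κ : (↥Mr → ↥(Jr f 1 e)) →ₗ[K] (↥Mr → ↥(homogeneousSubmodule A K e)) :=
    { toFun := fun w m => ⟨(w m).1, Jr_le 1 e (w m).2⟩
      map_add' := fun _ _ => rfl
      map_smul' := fun _ _ => rfl }
  have hκ : Function.Injective κ := by
    intro w w' hww
    funext m
    apply Subtype.ext
    have h8 := congrArg Subtype.val (congrFun hww m)
    exact h8
  have h5 : LinearMap.range κ = LinearMap.ker ρ := by
    apply le_antisymm
    · rintro _ ⟨w, rfl⟩
      rw [LinearMap.mem_ker, hρ, LinearMap.comp_apply, Submodule.mkQ_apply,
        Submodule.Quotient.mk_eq_zero, mem_Jr]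
      constructor
      · rw [hΦ]
        refine Ideal.sum_mem _ fun m _ => ?_
        have h6 : (w m).1 ∈ Ideal.span (Set.range f) := by
          have := (mem_Jr.mp (w m).2).1
          rwa [pow_one] at this
        have h7 : fm f m.1 ∈ (Ideal.span (Set.range f)) ^ r := by
          have h8 := eval_mem_pow (f := f) (isHomogeneous_monomial (1 : MvPolynomial A K)
            (hMrd m.1 m.2))
          rwa [eval_monomial_eq, one_mul] at h8
        rw [pow_succ, mul_comm (κ w m).1]
        exact Ideal.mul_mem_mul h7 h6
      · have h6 : Φ (κ w) ∈ Jr f r E := by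
          rw [← hrange]
          exact ⟨_, rfl⟩
        exact (mem_Jr.mp h6).2
    · intro w hw
      rw [LinearMap.mem_ker, hρ, LinearMap.comp_apply, Submodule.mkQ_apply,
        Submodule.Quotient.mk_eq_zero, mem_Jr] at hw
      obtain ⟨F, hF, hFc, hFe, hFm⟩ := hpoly w
      have h6 := hQR F hF hFc (by rw [hFe]; exact hw.1)
      refine ⟨fun m => ⟨(w m).1, ?_⟩, rfl⟩
      rw [mem_Jr, pow_one, ← hFm m]
      exact ⟨h6 _, hFc _⟩
  have h6 : Module.finrank K (LinearMap.range κ) =
      (Fintype.card ι + r - 1).choose r * Module.finrank K (Jr f 1 e) := by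
    rw [LinearMap.finrank_range_of_inj hκ, Module.finrank_pi_fintype, Finset.sum_const,
      Finset.card_univ, Fintype.card_coe, hMrcard, smul_eq_mul]
  rw [h5] at h6
  omega

/-- Codimension of the ideal in degree `E`. -/
noncomputable def Hc (f : ι → MvPolynomial A K) (E : ℕ) : ℤ :=
  (Module.finrank K (homogeneousSubmodule A K E) : ℤ) - (Module.finrank K (Jr f 1 E) : ℤ)

/-- The generating identity. -/
theorem sum_Hc (hf : ∀ l, (f l).IsHomogeneous d) (hd : 1 ≤ d) (D : ℕ)
    (hQR : ∀ r e, e + r * d ≤ D → ∀ F : MvPolynomial ι (MvPolynomial A K), F.IsHomogeneous r →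
      (∀ m, (coeff m F).IsHomogeneous e) →
      eval f F ∈ (Ideal.span (Set.range f)) ^ (r + 1) →
      ∀ m, coeff m F ∈ Ideal.span (Set.range f)) (E : ℕ) (hE : E ≤ D) :
    (Module.finrank K (homogeneousSubmodule A K E) : ℤ) =
      ∑ r ∈ Finset.range (E + 1), if r * d ≤ E then
        ((Fintype.card ι + r - 1).choose r : ℤ) * Hc f (E - r * d) else 0 := by
  have key : ∀ R : ℕ, (Module.finrank K (Jr f 0 E) : ℤ) =
      (Module.finrank K (Jr f R E) : ℤ) + ∑ r ∈ Finset.range R, if r * d ≤ E then
        ((Fintype.card ι + r - 1).choose r : ℤ) * Hc f (E - r * d) else 0 := by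
    intro R
    induction R with
    | zero => simp
    | succ R ih =>
      rw [ih, Finset.sum_range_succ]
      by_cases hR : R * d ≤ E
      · rw [if_pos hR]
        have h1 := dim_step hf R (E - R * d) (hQR R (E - R * d) (by omega))
        rw [Nat.sub_add_cancel hR] at h1
        unfold Hc
        have h2 : (Module.finrank K (Jr f R E) : ℤ) +
            ((Fintype.card ι + R - 1).choose R : ℤ) *
              (Module.finrank K (Jr f 1 (E - R * d)) : ℤ) =
            (Module.finrank K (Jr f (R + 1) E) : ℤ) +
            ((Fintype.card ι + R - 1).choose R : ℤ) *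
              (Module.finrank K (homogeneousSubmodule A K (E - R * d)) : ℤ) := by
          exact_mod_cast h1
        linarith
      · rw [if_neg hR]
        push Not at hR
        have h3 : E < (R + 1) * d := by
          have : (R + 1) * d = R * d + d := by ring
          omega
        rw [Jr_eq_bot hf hR, Jr_eq_bot hf h3]
        simp
  have h0 : Jr f 0 E = homogeneousSubmodule A K E := by
    unfold Jr
    rw [pow_zero, Ideal.one_eq_top, Submodule.restrictScalars_top, top_inf_eq]
  have h1 := key (E + 1)
  have h2 : E < (E + 1) * d := by nlinarith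
  rw [h0, Jr_eq_bot hf h2] at h1
  rw [h1]
  simp

end Dim

end Pool.Agent.H21

end

section

/-!
# XF, module 2: rational general points
-/

set_option autoImplicit false

namespace Pool.Agent.H21.XF

open MvPolynomial Pool.Agent.H21.NX

/-- A nonzero polynomial over `ℂ` has a rational point of nonvanishing. -/
theorem exists_rat_point {σ : Type} {G : MvPolynomial σ ℂ} (hG : G ≠ 0) :
    ∃ x : σ → ℚ, eval (fun s => (x s : ℂ)) G ≠ 0 := by
  by_contra hcon
  push Not at hcon
  apply hG
  apply MvPolynomial.funext_set (fun _ : σ => Set.range (fun q : ℚ => (q : ℂ)))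
    (fun _ => Set.infinite_range_of_injective Rat.cast_injective)
  intro x hx
  choose y hy using fun s => hx s (Set.mem_univ s)
  have h1 : x = fun s => ((y s : ℚ) : ℂ) := by
    funext s
    exact (hy s).symm
  rw [h1, hcon y, map_zero]

theorem exists_rat_gen {r : ℕ} {κ : Type} {P : (κ → Fin (r + 1) → ℂ) → Prop} (h : Gen r κ P) :
    ∃ q : κ → Fin (r + 1) → ℚ, P fun i j => (q i j : ℂ) := by
  obtain ⟨G, hG, h⟩ := h
  obtain ⟨x, hx⟩ := exists_rat_point hG
  exact ⟨fun i j => x (i, j), h _ hx⟩

end Pool.Agent.H21.XF

end
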