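import Pool.Agent.H94.LP7.H21.Defs
import Pool.Agent.H94.LP7.M04
import Pool.Agent.H94.LP7.M19
import Pool.Agent.H94.LP7.M94

/-! The parts of this file: H21.Defs_1, H21.Numeric, H21.Invert, H21.XF.Apo, H21.XF.Near. -/

section

/-!
The definitions used in the statements about the Hilbert function of general forms.
-/

namespace Pool.Agent.H21

open MvPolynomial

/-- The coefficient of `z ^ i` in `exp (z - c z^d)`. -/
noncomputable def expCoeff {F : Type*} [Field F] (d i : ℕ) (c : F) : F :=
  ∑ k ∈ Finset.range (i / d + 1),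
    (-c) ^ k / ((k.factorial : F) * ((i - d * k).factorial : F))

end Pool.Agent.H21

end

section

/-!
Numerical facts on the coefficients of `(1 - z^d)^u / (1 - z)^n` and their scaling limits.
-/

namespace Pool.Agent.H21

open Filter Topology

lemma sum_range_extend {M : Type*} [AddCommMonoid M] (N L : ℕ) (f : ℕ → M)
    (hN : ∀ k, N < k → f k = 0) (hL : ∀ k, L < k → f k = 0) :
    ∑ k ∈ Finset.range (N + 1), f k = ∑ k ∈ Finset.range (L + 1), f k := by
  have h1 : ∀ A : ℕ, (∀ k, A < k → f k = 0) →
      ∑ k ∈ Finset.range (A + 1), f k = ∑ k ∈ Finset.range (N + L + 1), f k ∨ N + L < A := by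
    intro A hA
    by_cases h : N + L < A
    · exact Or.inr h
    · left
      apply Finset.sum_subset
      · intro x hx
        rw [Finset.mem_range] at *
        omega
      · intro x _ hx
        rw [Finset.mem_range] at hx
        exact hA x (by omega)
  rcases h1 N hN with h | h
  · rcases h1 L hL with h' | h'
    · rw [h, h']
    · omega
  · omega

lemma fc_eq (n d u i : ℕ) (hd : 1 ≤ d) :
    serCoeff n d u i = ∑ k ∈ Finset.range (i + 1), (-1 : ℤ) ^ k * (u.choose k : ℤ) *
      (if d * k ≤ i then ((n - 1 + i - d * k).choose (n - 1) : ℤ) else 0) := by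
  unfold serCoeff
  apply sum_range_extend
  · intro k hk
    rw [Nat.choose_eq_zero_of_lt hk]
    simp
  · intro k hk
    rw [if_neg]
    · simp
    · intro h
      have : k ≤ d * k := Nat.le_mul_of_pos_left k hd
      omega

lemma hh_eq {F : Type*} [Field F] (d i : ℕ) (hd : 1 ≤ d) (c : F) :
    expCoeff d i c = ∑ k ∈ Finset.range (i + 1),
      if d * k ≤ i then (-c) ^ k / ((k.factorial : F) * ((i - d * k).factorial : F)) else 0 := by
  unfold expCoeff
  rw [← sum_range_extend (i / d) i]
  · refine Finset.sum_congr rfl fun k hk => ?_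
    rw [Finset.mem_range] at hk
    have h : d * k ≤ i := by
      calc d * k ≤ d * (i / d) := Nat.mul_le_mul_left d (by omega)
        _ ≤ i := Nat.mul_div_le i d
    rw [if_pos h]
  · intro k hk
    rw [if_neg]
    intro h
    have : k ≤ i / d := by
      rw [Nat.le_div_iff_mul_le hd, mul_comm]
      exact h
    omega
  · intro k hk
    rw [if_neg]
    intro h
    have : k ≤ d * k := Nat.le_mul_of_pos_left k hd
    omega

lemma fc_zero (n d i : ℕ) : serCoeff n d 0 i = ((n - 1 + i).choose (n - 1) : ℤ) := by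
  unfold serCoeff
  simp

lemma fc_succ (n d u i : ℕ) (hd : 1 ≤ d) :
    serCoeff n d (u + 1) i = serCoeff n d u i - (if d ≤ i then serCoeff n d u (i - d) else 0) := by
  rw [fc_eq n d (u + 1) i hd, fc_eq n d u i hd]
  rw [Finset.sum_range_succ', Finset.sum_range_succ' (n := i)]
  have h2 : (if d ≤ i then serCoeff n d u (i - d) else 0) = ∑ k ∈ Finset.range i,
      (-1 : ℤ) ^ k * (u.choose k : ℤ) *
      (if d * (k + 1) ≤ i then ((n - 1 + i - d * (k + 1)).choose (n - 1) : ℤ) else 0) := by
    by_cases h : d ≤ i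
    · rw [if_pos h, fc_eq n d u (i - d) hd]
      have h3 : ∑ k ∈ Finset.range i,
          (-1 : ℤ) ^ k * (u.choose k : ℤ) *
          (if d * (k + 1) ≤ i then ((n - 1 + i - d * (k + 1)).choose (n - 1) : ℤ) else 0) =
          ∑ k ∈ Finset.range ((i - 1) + 1),
          (-1 : ℤ) ^ k * (u.choose k : ℤ) *
          (if d * (k + 1) ≤ i then ((n - 1 + i - d * (k + 1)).choose (n - 1) : ℤ) else 0) := by
        rw [Nat.sub_add_cancel (by omega)]
      rw [h3]
      rw [← sum_range_extend (i - d) (i - 1)]
      · refine Finset.sum_congr rfl fun k hk => ?_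
        have h4 : d * (k + 1) = d * k + d := by ring
        by_cases h5 : d * k ≤ i - d
        · rw [if_pos h5, if_pos (by omega)]
          congr 3
          omega
        · rw [if_neg h5, if_neg (by omega)]
      · intro k hk
        rw [if_neg, mul_zero]
        have : k ≤ d * k := Nat.le_mul_of_pos_left k hd
        have h4 : d * (k + 1) = d * k + d := by ring
        omega
      · intro k hk
        rw [if_neg, mul_zero]
        have : k ≤ d * k := Nat.le_mul_of_pos_left k hd
        have h4 : d * (k + 1) = d * k + d := by ring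
        omega
    · rw [if_neg h]
      symm
      apply Finset.sum_eq_zero
      intro k _
      rw [if_neg, mul_zero]
      have h4 : d * (k + 1) = d * k + d := by ring
      omega
  rw [h2]
  have h5 : ∀ A B C E : ℤ, A = B - C → A + E = B + E - C := by intros; linarith
  simp only [Nat.choose_zero_right]
  apply h5
  rw [← Finset.sum_sub_distrib]
  refine Finset.sum_congr rfl fun k _ => ?_
  rw [Nat.choose_succ_succ, pow_succ]
  push_cast
  ring

lemma fc_nonneg_of_succ (n d u D : ℕ) (hd : 1 ≤ d) (h : ∀ m ≤ D, 0 ≤ serCoeff n d (u + 1) m) :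
    ∀ m ≤ D, 0 ≤ serCoeff n d u m := by
  intro m
  induction m using Nat.strong_induction_on with
  | _ m ih =>
    intro hm
    have h1 := fc_succ n d u m hd
    have h2 := h m hm
    by_cases h3 : d ≤ m
    · rw [if_pos h3] at h1
      have h4 := ih (m - d) (by omega) (by omega)
      linarith
    · rw [if_neg h3] at h1
      linarith

lemma fc_nonneg_of_le (n d D : ℕ) (hd : 1 ≤ d) (u u' : ℕ) (huu : u ≤ u')
    (h : ∀ m ≤ D, 0 ≤ serCoeff n d u' m) : ∀ m ≤ D, 0 ≤ serCoeff n d u m := by
  induction u', huu using Nat.le_induction with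
  | base => exact h
  | succ w _ ih => exact ih (fc_nonneg_of_succ n d w D hd h)

section Recursion

variable {F : Type*} [Field F] [CharZero F]

lemma hh_zero (d : ℕ) (c : F) : expCoeff d 0 c = 1 := by
  unfold expCoeff
  simp

lemma hh_succ (d i : ℕ) (hd : 1 ≤ d) (c : F) :
    ((i + 1 : ℕ) : F) * expCoeff d (i + 1) c =
      expCoeff d i c - c * (d : F) * (if d ≤ i + 1 then expCoeff d (i + 1 - d) c else 0) := by
  have hf : ∀ k : ℕ, (k.factorial : F) ≠ 0 := fun k => by exact_mod_cast k.factorial_ne_zero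
  rw [hh_eq d (i + 1) hd, Finset.mul_sum]
  have hterm : ∀ k ∈ Finset.range (i + 1 + 1),
      ((i + 1 : ℕ) : F) * (if d * k ≤ i + 1 then (-c) ^ k /
        ((k.factorial : F) * ((i + 1 - d * k).factorial : F)) else 0) =
      (if d * k ≤ i then (-c) ^ k / ((k.factorial : F) * ((i - d * k).factorial : F)) else 0) +
      (if d * k ≤ i + 1 then ((d * k : ℕ) : F) * ((-c) ^ k /
        ((k.factorial : F) * ((i + 1 - d * k).factorial : F))) else 0) := by
    intro k _
    by_cases h1 : d * k ≤ i
    · rw [if_pos h1, if_pos (by omega), if_pos (by omega)]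
      have h2 : i + 1 - d * k = (i - d * k) + 1 := by omega
      rw [h2, Nat.factorial_succ]
      have h3 : ((i + 1 : ℕ) : F) = ((i - d * k + 1 : ℕ) : F) + ((d * k : ℕ) : F) := by
        rw [← Nat.cast_add]
        congr 1
        omega
      rw [h3]
      have h4 := hf k
      have h5 := hf (i - d * k)
      have h6 : ((i - d * k + 1 : ℕ) : F) ≠ 0 := Nat.cast_ne_zero.mpr (Nat.succ_ne_zero _)
      push_cast at h6 ⊢
      field_simp
    · rw [if_neg h1, zero_add]
      by_cases h2 : d * k ≤ i + 1
      · rw [if_pos h2, if_pos h2]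
        congr 2
        omega
      · rw [if_neg h2, if_neg h2, mul_zero]
  rw [Finset.sum_congr rfl hterm, Finset.sum_add_distrib]
  have hA : ∑ k ∈ Finset.range (i + 1 + 1), (if d * k ≤ i then (-c) ^ k /
      ((k.factorial : F) * ((i - d * k).factorial : F)) else 0) = expCoeff d i c := by
    rw [hh_eq d i hd]
    apply sum_range_extend
    · intro k hk
      rw [if_neg]
      intro h
      have : k ≤ d * k := Nat.le_mul_of_pos_left k hd
      omega
    · intro k hk
      rw [if_neg]
      intro h
      have : k ≤ d * k := Nat.le_mul_of_pos_left k hd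
      omega
  have hB : ∑ k ∈ Finset.range (i + 1 + 1), (if d * k ≤ i + 1 then ((d * k : ℕ) : F) * ((-c) ^ k /
      ((k.factorial : F) * ((i + 1 - d * k).factorial : F))) else 0) =
      - (c * (d : F) * (if d ≤ i + 1 then expCoeff d (i + 1 - d) c else 0)) := by
    rw [Finset.sum_range_succ']
    have h0 : (if d * 0 ≤ i + 1 then ((d * 0 : ℕ) : F) * ((-c) ^ 0 /
      (((0 : ℕ).factorial : F) * ((i + 1 - d * 0).factorial : F))) else 0) = 0 := by
      simp
    rw [h0, add_zero]
    by_cases hdi : d ≤ i + 1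
    · rw [if_pos hdi, hh_eq d (i + 1 - d) hd]
      rw [sum_range_extend i (i + 1 - d)]
      · rw [Finset.mul_sum, ← Finset.sum_neg_distrib]
        refine Finset.sum_congr rfl fun k _ => ?_
        have h4 : d * (k + 1) = d * k + d := by ring
        by_cases h5 : d * k ≤ i + 1 - d
        · rw [if_pos h5, if_pos (by omega)]
          have h6 : i + 1 - d * (k + 1) = i + 1 - d - d * k := by omega
          rw [h6, Nat.factorial_succ, pow_succ]
          have h7 := hf k
          have h8 := hf (i + 1 - d - d * k)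
          have h9 : ((k + 1 : ℕ) : F) ≠ 0 := Nat.cast_ne_zero.mpr (Nat.succ_ne_zero _)
          push_cast at h9 ⊢
          field_simp
        · rw [if_neg h5, if_neg (by omega), mul_zero, neg_zero]
      · intro k hk
        rw [if_neg]
        have : k ≤ d * k := Nat.le_mul_of_pos_left k hd
        have h4 : d * (k + 1) = d * k + d := by ring
        omega
      · intro k hk
        rw [if_neg]
        have : k ≤ d * k := Nat.le_mul_of_pos_left k hd
        have h4 : d * (k + 1) = d * k + d := by ring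
        omega
    · rw [if_neg hdi, mul_zero, neg_zero]
      apply Finset.sum_eq_zero
      intro k _
      rw [if_neg]
      have h4 : d * (k + 1) = d * k + d := by ring
      omega
  rw [hA, hB]
  ring

/-- the normalized numbers `k! * expCoeff d k (v / d!)` -/
noncomputable def ee (F : Type*) [Field F] (d : ℕ) (v : F) (k : ℕ) : F :=
  (k.factorial : F) * expCoeff d k (v / (d.factorial : F))

lemma ee_zero (d : ℕ) (v : F) : ee F d v 0 = 1 := by
  unfold ee
  rw [hh_zero]
  simp

lemma ee_succ (d : ℕ) (hd : 1 ≤ d) (v : F) (k : ℕ) :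
    ee F d v (k + 1) = ee F d v k - (k.choose (d - 1) : F) * v * ee F d v (k + 1 - d) := by
  have hf : ∀ k : ℕ, (k.factorial : F) ≠ 0 := fun k => by exact_mod_cast k.factorial_ne_zero
  unfold ee
  have h1 := hh_succ d k hd (v / (d.factorial : F))
  have h2 : ((k + 1).factorial : F) = (k.factorial : F) * ((k + 1 : ℕ) : F) := by
    rw [Nat.factorial_succ]
    push_cast
    ring
  rw [h2, mul_assoc, h1, mul_sub]
  congr 1
  by_cases hdk : d ≤ k + 1
  · rw [if_pos hdk]
    have h3 : k.choose (d - 1) * (d - 1).factorial * (k + 1 - d).factorial = k.factorial := by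
      have h4 : k + 1 - d = k - (d - 1) := by omega
      rw [h4]
      exact Nat.choose_mul_factorial_mul_factorial (by omega)
    have h5 : (k.factorial : F) = (k.choose (d - 1) : F) * ((d - 1).factorial : F) *
        ((k + 1 - d).factorial : F) := by
      rw [← h3]
      push_cast
      ring
    have h6 : (d.factorial : F) = (d : F) * ((d - 1).factorial : F) := by
      obtain ⟨d', rfl⟩ : ∃ d', d = d' + 1 := ⟨d - 1, by omega⟩
      rw [Nat.factorial_succ]
      push_cast
      simp
    have h7 := hf (d - 1)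
    have h8 : (d : F) ≠ 0 := by
      have : d ≠ 0 := by omega
      exact_mod_cast this
    rw [h5, h6]
    field_simp
  · rw [if_neg hdk, Nat.choose_eq_zero_of_lt (by omega)]
    simp

end Recursion

section Limits

variable {ι : Type*} {F : Filter ι} {n u : ι → ℕ} {d : ℕ} {c : ℝ}

lemma tendsto_sub_div (hn : Tendsto n F atTop) (hd : 1 ≤ d)
    (hu : Tendsto (fun l => (u l : ℝ) / (n l : ℝ) ^ d) F (𝓝 c)) (k : ℕ) :
    Tendsto (fun l => ((u l - k : ℕ) : ℝ) / (n l : ℝ) ^ d) F (𝓝 c) := by
  have h0 : Tendsto (fun l => (k : ℝ) / (n l : ℝ) ^ d) F (𝓝 0) := by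
    apply Tendsto.div_atTop tendsto_const_nhds
    exact (tendsto_pow_atTop (by omega)).comp (tendsto_natCast_atTop_atTop.comp hn)
  have h1 : Tendsto (fun l => (u l : ℝ) / (n l : ℝ) ^ d - (k : ℝ) / (n l : ℝ) ^ d) F (𝓝 c) := by
    simpa using hu.sub h0
  refine tendsto_of_tendsto_of_tendsto_of_le_of_le h1 hu ?_ ?_
  · intro l
    simp only
    rw [← sub_div]
    apply div_le_div_of_nonneg_right _ (by positivity)
    have : u l ≤ (u l - k) + k := by omega
    have h2 : (u l : ℝ) ≤ ((u l - k : ℕ) : ℝ) + (k : ℝ) := by exact_mod_cast this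
    linarith
  · intro l
    simp only
    apply div_le_div_of_nonneg_right _ (by positivity)
    exact_mod_cast Nat.sub_le _ _

lemma tendsto_descFactorial (hn : Tendsto n F atTop) (hd : 1 ≤ d)
    (hu : Tendsto (fun l => (u l : ℝ) / (n l : ℝ) ^ d) F (𝓝 c)) (k : ℕ) :
    Tendsto (fun l => ((u l).descFactorial k : ℝ) / ((n l : ℝ) ^ d) ^ k) F (𝓝 (c ^ k)) := by
  induction k with
  | zero => simpa using tendsto_const_nhds
  | succ k ih =>
    have h1 := (tendsto_sub_div hn hd hu k).mul ih
    rw [← pow_succ'] at h1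
    refine h1.congr fun l => ?_
    rw [Nat.descFactorial_succ, pow_succ' ((n l : ℝ) ^ d) k]
    push_cast
    rw [div_mul_div_comm]

lemma tendsto_choose_u (hn : Tendsto n F atTop) (hd : 1 ≤ d)
    (hu : Tendsto (fun l => (u l : ℝ) / (n l : ℝ) ^ d) F (𝓝 c)) (k : ℕ) :
    Tendsto (fun l => ((u l).choose k : ℝ) / ((n l : ℝ) ^ d) ^ k) F
      (𝓝 (c ^ k / (k.factorial : ℝ))) := by
  have h1 := (tendsto_descFactorial hn hd hu k).div_const (k.factorial : ℝ)
  refine h1.congr fun l => ?_
  rw [Nat.descFactorial_eq_factorial_mul_choose]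
  push_cast
  have : (k.factorial : ℝ) ≠ 0 := by positivity
  field_simp

lemma tendsto_ascFactorial (hn : Tendsto n F atTop) (k : ℕ) :
    Tendsto (fun l => ((n l).ascFactorial k : ℝ) / (n l : ℝ) ^ k) F (𝓝 1) := by
  induction k with
  | zero => simpa using tendsto_const_nhds
  | succ k ih =>
    have h2 : Tendsto (fun l => (n l : ℝ)) F atTop := tendsto_natCast_atTop_atTop.comp hn
    have h3 : Tendsto (fun l => ((n l : ℝ) + k) / (n l : ℝ)) F (𝓝 1) := by
      have h4 : Tendsto (fun l => 1 + (k : ℝ) / (n l : ℝ)) F (𝓝 (1 + 0)) :=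
        tendsto_const_nhds.add (h2.const_div_atTop (k : ℝ))
      rw [add_zero] at h4
      refine h4.congr' ?_
      filter_upwards [h2.eventually_gt_atTop 0] with l hl
      rw [add_div, div_self hl.ne']
    have h1 := h3.mul ih
    rw [mul_one] at h1
    refine h1.congr fun l => ?_
    rw [Nat.ascFactorial_succ, pow_succ']
    push_cast
    rw [div_mul_div_comm]

lemma tendsto_choose_n (hn : Tendsto n F atTop) (k : ℕ) :
    Tendsto (fun l => ((n l - 1 + k).choose (n l - 1) : ℝ) / (n l : ℝ) ^ k) F
      (𝓝 (1 / (k.factorial : ℝ))) := by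
  have h1 := (tendsto_ascFactorial hn k).div_const (k.factorial : ℝ)
  refine h1.congr' ?_
  filter_upwards [hn.eventually_ge_atTop 1] with l hl
  have h2 : (n l - 1 + k).choose (n l - 1) = (n l + k - 1).choose k := by
    rw [show n l - 1 + k = n l + k - 1 by omega]
    rw [← Nat.choose_symm (show k ≤ n l + k - 1 by omega)]
    congr 1
    omega
  rw [h2, Nat.ascFactorial_eq_factorial_mul_choose']
  push_cast
  have : (k.factorial : ℝ) ≠ 0 := by positivity
  field_simp

lemma tendsto_fc (hn : Tendsto n F atTop) (hd : 1 ≤ d)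
    (hu : Tendsto (fun l => (u l : ℝ) / (n l : ℝ) ^ d) F (𝓝 c)) (i : ℕ) :
    Tendsto (fun l => (serCoeff (n l) d (u l) i : ℝ) / (n l : ℝ) ^ i) F (𝓝 (expCoeff d i c)) := by
  rw [hh_eq d i hd]
  have h1 : ∀ l, (serCoeff (n l) d (u l) i : ℝ) / (n l : ℝ) ^ i =
      ∑ k ∈ Finset.range (i + 1), ((-1 : ℝ) ^ k * ((u l).choose k : ℝ) *
      (if d * k ≤ i then ((n l - 1 + i - d * k).choose (n l - 1) : ℝ) else 0)) /
        (n l : ℝ) ^ i := by
    intro l
    rw [fc_eq (n l) d (u l) i hd, ← Finset.sum_div]
    congr 1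
    push_cast
    rfl
  simp only [h1]
  apply tendsto_finsetSum
  intro k _
  by_cases h : d * k ≤ i
  · simp only [if_pos h]
    have h2 := ((tendsto_choose_u hn hd hu k).mul (tendsto_choose_n hn (i - d * k))).const_mul
      ((-1 : ℝ) ^ k)
    have h3 : (-1 : ℝ) ^ k * (c ^ k / (k.factorial : ℝ) * (1 / ((i - d * k).factorial : ℝ))) =
        (-c) ^ k / ((k.factorial : ℝ) * ((i - d * k).factorial : ℝ)) := by
      rw [neg_pow c k]
      have : (k.factorial : ℝ) ≠ 0 := by positivity
      have : ((i - d * k).factorial : ℝ) ≠ 0 := by positivity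
      field_simp
    rw [h3] at h2
    refine h2.congr fun l => ?_
    have h4 : n l - 1 + i - d * k = n l - 1 + (i - d * k) := by omega
    have h5 : (n l : ℝ) ^ i = ((n l : ℝ) ^ d) ^ k * (n l : ℝ) ^ (i - d * k) := by
      rw [← pow_mul, ← pow_add]
      congr 1
      omega
    rw [h4, h5, div_mul_div_comm, ← mul_div_assoc, mul_assoc]
  · simp only [if_neg h, mul_zero, zero_div]
    exact tendsto_const_nhds

end Limits

end Pool.Agent.H21

end

section

/-!
Inversion of the generating identity.
-/

set_option linter.unusedSectionVars false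

namespace Pool.Agent.H21

open scoped Classical
open MvPolynomial

lemma sum_ser (n d : ℕ) (hd : 1 ≤ d) (E : ℕ) : ∀ u : ℕ,
    serCoeff n d 0 E = ∑ r ∈ Finset.range (E + 1), if r * d ≤ E then
      ((u + r - 1).choose r : ℤ) * serCoeff n d u (E - r * d) else 0 := by
  intro u
  induction u with
  | zero =>
    rw [Finset.sum_eq_single 0]
    · simp
    · intro r _ hr
      have : (0 + r - 1).choose r = 0 := Nat.choose_eq_zero_of_lt (by omega)
      rw [this]
      simp
    · intro h
      exact absurd (Finset.mem_range.mpr (Nat.succ_pos E)) h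
  | succ u ih =>
    rw [ih]
    set a : ℕ → ℤ := fun r => if r * d ≤ E then serCoeff n d u (E - r * d) else 0 with ha
    have h1 : ∀ r, (if r * d ≤ E then
        ((u + 1 + r - 1).choose r : ℤ) * serCoeff n d (u + 1) (E - r * d) else 0) =
        ((u + r).choose r : ℤ) * a r - ((u + r).choose r : ℤ) * a (r + 1) := by
      intro r
      have h2 : u + 1 + r - 1 = u + r := by omega
      have h3 : (r + 1) * d = r * d + d := by ring
      rw [h2]
      simp only [ha]
      by_cases hr : r * d ≤ E
      · rw [if_pos hr, if_pos hr, fc_succ n d u _ hd]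
        by_cases hr' : (r + 1) * d ≤ E
        · rw [if_pos hr', if_pos (by omega)]
          have h4 : E - r * d - d = E - (r + 1) * d := by omega
          rw [h4]
          ring
        · rw [if_neg hr', if_neg (by omega)]
          ring
      · rw [if_neg hr, if_neg hr, if_neg (by omega)]
        ring
    have h2 : ∀ r, (if r * d ≤ E then
        ((u + r - 1).choose r : ℤ) * serCoeff n d u (E - r * d) else 0) =
        ((u + r - 1).choose r : ℤ) * a r := by
      intro r
      simp only [ha]
      split_ifs <;> simp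
    rw [Finset.sum_congr rfl fun r _ => h1 r, Finset.sum_congr rfl fun r _ => h2 r,
      Finset.sum_sub_distrib, Finset.sum_range_succ', Finset.sum_range_succ',
      Finset.sum_range_succ (n := E) (f := fun r => ((u + r).choose r : ℤ) * a (r + 1))]
    have h3 : a (E + 1) = 0 := by
      simp only [ha]
      rw [if_neg]
      nlinarith
    rw [h3, mul_zero, add_zero]
    have h4 : ∀ r, ((u + (r + 1)).choose (r + 1) : ℤ) =
        ((u + r).choose r : ℤ) + ((u + (r + 1) - 1).choose (r + 1) : ℤ) := by
      intro r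
      have h5 : u + (r + 1) - 1 = u + r := by omega
      have h6 : u + (r + 1) = (u + r) + 1 := by omega
      rw [h5, h6, Nat.choose_succ_succ]
      push_cast
      ring
    have h5 : ∑ r ∈ Finset.range E, ((u + (r + 1)).choose (r + 1) : ℤ) * a (r + 1) =
        ∑ r ∈ Finset.range E, ((u + r).choose r : ℤ) * a (r + 1) +
        ∑ r ∈ Finset.range E, ((u + (r + 1) - 1).choose (r + 1) : ℤ) * a (r + 1) := by
      rw [← Finset.sum_add_distrib]
      refine Finset.sum_congr rfl fun r _ => ?_
      rw [h4]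
      ring
    rw [h5]
    simp
    ring

/-- The Hilbert function of an ideal with the quasi-regularity property. -/
theorem Hc_eq {K : Type} [Field K] {A : Type} [Fintype A] [Nonempty A] {ι : Type} [Fintype ι]
    {f : ι → MvPolynomial A K} {d : ℕ}
    (hf : ∀ l, (f l).IsHomogeneous d) (hd : 1 ≤ d) (D : ℕ)
    (hQR : ∀ r e, e + r * d ≤ D → ∀ F : MvPolynomial ι (MvPolynomial A K), F.IsHomogeneous r →
      (∀ m, (coeff m F).IsHomogeneous e) →
      eval f F ∈ (Ideal.span (Set.range f)) ^ (r + 1) →
      ∀ m, coeff m F ∈ Ideal.span (Set.range f)) :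
    ∀ E ≤ D, Hc f E = serCoeff (Fintype.card A) d (Fintype.card ι) E := by
  intro E
  induction E using Nat.strong_induction_on with
  | _ E ih =>
    intro hE
    have h1 := sum_Hc hf hd D hQR E hE
    have h2 := sum_ser (Fintype.card A) d hd E (Fintype.card ι)
    have hn : 0 < Fintype.card A := Fintype.card_pos
    have h3 : (Module.finrank K (homogeneousSubmodule A K E) : ℤ) =
        serCoeff (Fintype.card A) d 0 E := by
      rw [finrank_forms, fc_zero]
      have h4 : (Fintype.card A + E - 1) = Fintype.card A - 1 + E := by omega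
      rw [h4]
      have h5 := Nat.choose_symm_add (a := Fintype.card A - 1) (b := E)
      rw [h5]
    rw [h1, h2, Finset.sum_range_succ', Finset.sum_range_succ'] at h3
    have h6 : ∑ r ∈ Finset.range E, (if (r + 1) * d ≤ E then
        ((Fintype.card ι + (r + 1) - 1).choose (r + 1) : ℤ) * Hc f (E - (r + 1) * d) else 0) =
        ∑ r ∈ Finset.range E, (if (r + 1) * d ≤ E then
        ((Fintype.card ι + (r + 1) - 1).choose (r + 1) : ℤ) *
          serCoeff (Fintype.card A) d (Fintype.card ι) (E - (r + 1) * d) else 0) := by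
      refine Finset.sum_congr rfl fun r _ => ?_
      split_ifs with h
      · have h7 : 0 < (r + 1) * d := by positivity
        rw [ih (E - (r + 1) * d) (by omega) (by omega)]
      · rfl
    rw [h6] at h3
    simpa using h3

end Pool.Agent.H21

end

section

/-!
# XF, module 1: apolarity, the converse inequality

The codimension of the span of the products of forms with the powers `lin (p i) ^ e` in degree `d` is at
most the dimension of the space of forms of degree `d` with multiplicity `d + 1 - e` at the points `p i`.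
-/

set_option autoImplicit false

namespace Pool.Agent.H21.XF

open MvPolynomial Pool.Agent.H18.Fat Pool.Agent.H21.HD
open scoped Classical

open BridgeAX in
/-- Descending Euler induction: if the derivatives of order `m` vanish, so do those of order `≤ m`. -/
theorem vanish_of_top {n d : ℕ} (q : Fin n → ℂ) (f : mons n d → ℂ) (m : ℕ) (hm : m ≤ d)
    (h : ∀ β : Fin n →₀ ℕ, β.degree = m → coeff β (shift q (toPoly n d f)) = 0) :
    ∀ β : Fin n →₀ ℕ, β.degree ≤ m → coeff β (shift q (toPoly n d f)) = 0 := by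
  have key : ∀ t : ℕ, t ≤ m → ∀ β : Fin n →₀ ℕ, β.degree + t = m →
      coeff β (shift q (toPoly n d f)) = 0 := by
    intro t
    induction t with
    | zero =>
      intro _ β hβ
      exact h β hβ
    | succ t ih =>
      intro ht β hβ
      have h1 := coeff_shift_euler q β f
      have h2 : ∑ j, q j * ((β j : ℂ) + 1) *
          coeff (β + Finsupp.single j 1) (shift q (toPoly n d f)) = 0 := by
        refine Finset.sum_eq_zero fun j _ => ?_
        rw [ih (by omega) (β + Finsupp.single j 1) (by
          simp only [map_add, Finsupp.degree_single]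
          omega), mul_zero]
      rw [h2] at h1
      have h3 : ((d : ℂ) - (β.degree : ℂ)) ≠ 0 := by
        rw [sub_ne_zero]
        intro h4
        have h5 : d = β.degree := by exact_mod_cast h4
        omega
      exact (mul_eq_zero.1 h1.symm).resolve_left h3
  intro β hβ
  exact key (m - β.degree) (by omega) β (by omega)

open BridgeAX in
theorem choose_le_fat_add_powSpan {r : ℕ} {ι : Type} [Fintype ι] (d e : ℕ) (he : e ≤ d)
    (p : ι → Fin (r + 1) → ℂ) :
    (d + r).choose r ≤ Module.finrank ℂ (fatForms r d p (fun _ => d + 1 - e)) +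
      Module.finrank ℂ (powSpan d p (fun _ => e)) := by
  have h1 : fatForms r d p (fun _ => d + 1 - e) ≤ homogeneousSubmodule (Fin (r + 1)) ℂ d :=
    fun F hF => hF.1
  rw [← finrank_comap h1, ← finrank_comap (powSpan_le d p (fun _ => e))]
  set W₁ := (fatForms r d p (fun _ => d + 1 - e)).comap (toPoly (r + 1) d) with hW₁
  set W₂ := (powSpan d p (fun _ => e)).comap (toPoly (r + 1) d) with hW₂
  let u : (mons (r + 1) d → ℂ) →ₗ[ℂ] Module.Dual ℂ (mons (r + 1) d → ℂ) :=
    { toFun := fun f => (pair f).comp (toPoly (r + 1) d)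
      map_add' := fun f g => by
        ext x
        simp only [LinearMap.comp_apply, LinearMap.add_apply, pair_apply, Pi.add_apply]
        rw [← Finset.sum_add_distrib]
        exact Finset.sum_congr rfl fun α _ => by ring
      map_smul' := fun c f => by
        ext x
        simp only [LinearMap.comp_apply, LinearMap.smul_apply, pair_apply, Pi.smul_apply,
          RingHom.id_apply, smul_eq_mul]
        rw [Finset.mul_sum]
        exact Finset.sum_congr rfl fun α _ => by ring }
  have hu : ∀ f x, u f x = pair f (toPoly (r + 1) d x) := fun _ _ => rfl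
  have huinj : Function.Injective u := by
    rw [← LinearMap.ker_eq_bot, LinearMap.ker_eq_bot']
    intro f hf
    funext β
    have h2 : u f (Pi.single β 1) = 0 := by rw [hf]; rfl
    rw [hu, pair_apply, Finset.sum_eq_single β] at h2
    · rw [coeff_toPoly, Pi.single_eq_same, mul_one] at h2
      exact (mul_eq_zero.1 h2).resolve_left (fact_ne_zero _)
    · intro α _ hα
      rw [coeff_toPoly, Pi.single_eq_of_ne hα, mul_zero]
    · intro h
      exact absurd (Finset.mem_univ _) h
  have husurj : Function.Surjective u :=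
    (LinearMap.injective_iff_surjective_of_finrank_eq_finrank
      (Subspace.dual_finrank_eq (K := ℂ) (V := mons (r + 1) d → ℂ)).symm).1 huinj
  have hcomap : W₂.dualAnnihilator.comap u ≤ W₁ := by
    intro f hf
    rw [Submodule.mem_comap, Submodule.mem_dualAnnihilator] at hf
    rw [hW₁, Submodule.mem_comap]
    refine ⟨toPoly_isHomogeneous f, fun i β hβ => ?_⟩
    have hβ' : β.degree < d + 1 - e := hβ
    have hdeg : β.degree ≤ d - e := by omega
    refine vanish_of_top (p i) f (d - e) (by omega) (fun β hβ => ?_) β hdeg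
    obtain ⟨x, hx⟩ : ∃ x, toPoly (r + 1) d x = monomial β 1 * lin (p i) ^ e := by
      refine ⟨_, exists_toPoly ?_⟩
      have h3 := (isHomogeneous_monomial (R := ℂ) (1 : ℂ) hβ).mul ((lin_isHomogeneous (p i)).pow e)
      have h4 : d - e + 1 * e = d := by omega
      rwa [h4] at h3
    have h5 : x ∈ W₂ := by
      rw [hW₂, Submodule.mem_comap, hx]
      exact Submodule.subset_span ⟨i, monomial β 1, he, isHomogeneous_monomial _ hβ, rfl⟩
    have h6 := hf x h5
    rw [hu, hx, pair_monomial_mul_lin_pow (p i) f e β (by omega)] at h6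
    exact (mul_eq_zero.1 h6).resolve_left
      (mul_ne_zero (Nat.cast_ne_zero.2 (Nat.factorial_ne_zero _)) (fact_ne_zero _))
  have h5 : Module.finrank ℂ (W₂.dualAnnihilator.comap u) = Module.finrank ℂ W₂.dualAnnihilator := by
    have h6 : (W₂.dualAnnihilator.comap u).map u = W₂.dualAnnihilator :=
      Submodule.map_comap_eq_of_surjective husurj _
    conv_rhs => rw [← h6]
    exact (Submodule.equivMapOfInjective u huinj _).finrank_eq
  have h7 : Module.finrank ℂ (W₂.dualAnnihilator.comap u) ≤ Module.finrank ℂ W₁ :=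
    Submodule.finrank_mono hcomap
  have h8 := Subspace.finrank_add_finrank_dualAnnihilator_eq W₂
  rw [Module.finrank_fintype_fun_eq_card, Fintype.card_coe, card_mons] at h8
  have h9 : (r + d).choose r = (d + r).choose r := by rw [Nat.add_comm]
  omega

end Pool.Agent.H21.XF

end

section

/-!
# XF, module 5: the coefficients up to an error `O(1 / n)`

For `u ≤ M n^d` the coefficient of `z^i` in `(1 - z^d)^u / (1 - z)^n`, divided by `n^i`, differs from
`h_i (u / n^d)` by `O(1 / n)`.
-/

set_option autoImplicit false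

namespace Pool.Agent.H21.XF

open Pool.Agent.H21

/-- `F n u = G n u + O(1 / n)` and `G n u = O(1)` for `u ≤ M n^d`. -/
def Near (M : ℝ) (d : ℕ) (F G : ℕ → ℕ → ℝ) : Prop :=
  ∃ C : ℝ, 0 ≤ C ∧ ∀ n u : ℕ, 1 ≤ n → (u : ℝ) ≤ M * (n : ℝ) ^ d →
    |F n u - G n u| ≤ C / n ∧ |G n u| ≤ C

theorem Near.mono {M : ℝ} {d : ℕ} {F G F' G' : ℕ → ℕ → ℝ} (h : Near M d F G)
    (hF : ∀ n u, 1 ≤ n → F' n u = F n u) (hG : ∀ n u, 1 ≤ n → G' n u = G n u) : Near M d F' G' := by
  obtain ⟨C, hC, h⟩ := h
  refine ⟨C, hC, fun n u hn hu => ?_⟩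
  rw [hF n u hn, hG n u hn]
  exact h n u hn hu

theorem Near.const (M : ℝ) (d : ℕ) (c : ℝ) : Near M d (fun _ _ => c) (fun _ _ => c) :=
  ⟨|c|, abs_nonneg c, fun n u hn _ => by
    have h1 : (0 : ℝ) ≤ |c| / n := by positivity
    simpa using h1⟩

theorem Near.add {M : ℝ} {d : ℕ} {F G F' G' : ℕ → ℕ → ℝ} (h : Near M d F G) (h' : Near M d F' G') :
    Near M d (fun n u => F n u + F' n u) (fun n u => G n u + G' n u) := by
  obtain ⟨C, hC, h⟩ := h
  obtain ⟨C', hC', h'⟩ := h'
  refine ⟨C + C', by positivity, fun n u hn hu => ?_⟩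
  obtain ⟨h1, h2⟩ := h n u hn hu
  obtain ⟨h3, h4⟩ := h' n u hn hu
  constructor
  · have h5 : F n u + F' n u - (G n u + G' n u) = (F n u - G n u) + (F' n u - G' n u) := by ring
    rw [h5, add_div]
    exact (abs_add_le _ _).trans (add_le_add h1 h3)
  · exact (abs_add_le _ _).trans (add_le_add h2 h4)

theorem Near.sum {M : ℝ} {d : ℕ} {ι : Type} (s : Finset ι) {F G : ι → ℕ → ℕ → ℝ}
    (h : ∀ i ∈ s, Near M d (F i) (G i)) :
    Near M d (fun n u => ∑ i ∈ s, F i n u) (fun n u => ∑ i ∈ s, G i n u) := by
  classical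
  induction s using Finset.induction_on with
  | empty => simpa using Near.const M d 0
  | insert a s ha ih =>
    have h1 := h a (Finset.mem_insert_self a s)
    have h2 := ih fun i hi => h i (Finset.mem_insert_of_mem hi)
    exact (h1.add h2).mono (fun n u _ => Finset.sum_insert ha) (fun n u _ => Finset.sum_insert ha)

theorem Near.mul {M : ℝ} {d : ℕ} {F G F' G' : ℕ → ℕ → ℝ} (h : Near M d F G) (h' : Near M d F' G') :
    Near M d (fun n u => F n u * F' n u) (fun n u => G n u * G' n u) := by
  obtain ⟨C, hC, h⟩ := h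
  obtain ⟨C', hC', h'⟩ := h'
  refine ⟨3 * (C * C'), by positivity, fun n u hn hu => ?_⟩
  obtain ⟨h1, h2⟩ := h n u hn hu
  obtain ⟨h3, h4⟩ := h' n u hn hu
  have hn1 : (1 : ℝ) ≤ n := by exact_mod_cast hn
  have hn0 : (0 : ℝ) < n := by linarith
  have h0 : (0 : ℝ) ≤ C * C' := by positivity
  constructor
  · have h5 : F n u * F' n u - G n u * G' n u =
        (F n u - G n u) * (F' n u - G' n u) + (F n u - G n u) * G' n u +
          G n u * (F' n u - G' n u) := by ring
    rw [h5]
    have h6 : |(F n u - G n u) * (F' n u - G' n u)| ≤ C / n * (C' / n) := by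
      rw [abs_mul]
      exact mul_le_mul h1 h3 (abs_nonneg _) (by positivity)
    have h7 : |(F n u - G n u) * G' n u| ≤ C / n * C' := by
      rw [abs_mul]
      exact mul_le_mul h1 h4 (abs_nonneg _) (by positivity)
    have h8 : |G n u * (F' n u - G' n u)| ≤ C * (C' / n) := by
      rw [abs_mul]
      exact mul_le_mul h2 h3 (abs_nonneg _) hC
    have h9 : C / n * (C' / n) ≤ C * C' / n := by
      rw [div_mul_div_comm]
      refine div_le_div_of_nonneg_left h0 hn0 ?_
      nlinarith
    have h10 := abs_add_three ((F n u - G n u) * (F' n u - G' n u)) ((F n u - G n u) * G' n u)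
      (G n u * (F' n u - G' n u))
    calc _ ≤ _ := h10
      _ ≤ C * C' / n + C / n * C' + C * (C' / n) := by linarith
      _ = 3 * (C * C') / n := by ring
  · rw [abs_mul]
    calc |G n u| * |G' n u| ≤ C * C' := mul_le_mul h2 h4 (abs_nonneg _) hC
      _ ≤ 3 * (C * C') := by linarith

private theorem near_sub {M : ℝ} (hM : 0 ≤ M) {d : ℕ} (hd : 1 ≤ d) (k : ℕ) :
    Near M d (fun n u => ((u - k : ℕ) : ℝ) / (n : ℝ) ^ d) (fun n u => (u : ℝ) / (n : ℝ) ^ d) := by
  refine ⟨M + k, by positivity, fun n u hn hu => ?_⟩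
  have hn1 : (1 : ℝ) ≤ n := by exact_mod_cast hn
  have hn0 : (0 : ℝ) < n := by linarith
  have hnd : (0 : ℝ) < (n : ℝ) ^ d := by positivity
  constructor
  · rw [← sub_div, abs_div, abs_of_pos hnd]
    have h1 : |((u - k : ℕ) : ℝ) - (u : ℝ)| ≤ k := by
      have h2 : u - k ≤ u := Nat.sub_le _ _
      have h3 : u ≤ (u - k) + k := by omega
      have h4 : ((u - k : ℕ) : ℝ) ≤ u := by exact_mod_cast h2
      have h5 : (u : ℝ) ≤ ((u - k : ℕ) : ℝ) + k := by exact_mod_cast h3
      rw [abs_le]
      constructor <;> linarith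
    have h6 : (n : ℝ) ≤ (n : ℝ) ^ d := by
      calc (n : ℝ) = (n : ℝ) ^ 1 := (pow_one _).symm
        _ ≤ (n : ℝ) ^ d := pow_le_pow_right₀ hn1 hd
    calc |((u - k : ℕ) : ℝ) - (u : ℝ)| / (n : ℝ) ^ d ≤ k / (n : ℝ) ^ d :=
          div_le_div_of_nonneg_right h1 hnd.le
      _ ≤ k / n := div_le_div_of_nonneg_left (Nat.cast_nonneg k) hn0 h6
      _ ≤ (M + k) / n := div_le_div_of_nonneg_right (by linarith) hn0.le
  · rw [abs_of_nonneg (by positivity), div_le_iff₀ hnd]
    have : (0 : ℝ) ≤ k * (n : ℝ) ^ d := by positivity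
    linarith

private theorem near_desc {M : ℝ} (hM : 0 ≤ M) {d : ℕ} (hd : 1 ≤ d) (k : ℕ) :
    Near M d (fun n u => (u.descFactorial k : ℝ) / ((n : ℝ) ^ d) ^ k)
      (fun n u => ((u : ℝ) / (n : ℝ) ^ d) ^ k) := by
  induction k with
  | zero => exact (Near.const M d 1).mono (fun n u _ => by simp) (fun n u _ => by simp)
  | succ k ih =>
    refine ((near_sub hM hd k).mul ih).mono (fun n u _ => ?_) (fun n u _ => by rw [pow_succ'])
    rw [Nat.descFactorial_succ, pow_succ' ((n : ℝ) ^ d) k]
    push_cast
    rw [div_mul_div_comm]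

private theorem near_choose_u {M : ℝ} (hM : 0 ≤ M) {d : ℕ} (hd : 1 ≤ d) (k : ℕ) :
    Near M d (fun n u => (u.choose k : ℝ) / ((n : ℝ) ^ d) ^ k)
      (fun n u => ((u : ℝ) / (n : ℝ) ^ d) ^ k / (k.factorial : ℝ)) := by
  refine ((near_desc hM hd k).mul (Near.const M d (1 / (k.factorial : ℝ)))).mono
    (fun n u _ => ?_) (fun n u _ => by ring)
  rw [Nat.descFactorial_eq_factorial_mul_choose]
  push_cast
  have : (k.factorial : ℝ) ≠ 0 := by positivity
  field_simp

private theorem near_asc (M : ℝ) (d k : ℕ) :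
    Near M d (fun n _ => (n.ascFactorial k : ℝ) / (n : ℝ) ^ k) (fun _ _ => 1) := by
  induction k with
  | zero => exact (Near.const M d 1).mono (fun n u _ => by simp) (fun n u _ => rfl)
  | succ k ih =>
    have h1 : Near M d (fun n _ => ((n : ℝ) + k) / (n : ℝ)) (fun _ _ => 1) := by
      refine ⟨1 + k, by positivity, fun n u hn _ => ?_⟩
      have hn0 : (0 : ℝ) < n := by exact_mod_cast hn
      constructor
      · have h2 : ((n : ℝ) + k) / n - 1 = k / n := by
          field_simp
          ring
        rw [h2, abs_of_nonneg (by positivity)]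
        exact div_le_div_of_nonneg_right (by linarith) hn0.le
      · rw [abs_one]
        have : (0 : ℝ) ≤ k := Nat.cast_nonneg k
        linarith
    refine (h1.mul ih).mono (fun n u _ => ?_) (fun n u _ => by ring)
    rw [Nat.ascFactorial_succ, pow_succ']
    push_cast
    rw [div_mul_div_comm]

private theorem near_choose_n (M : ℝ) (d k : ℕ) :
    Near M d (fun n _ => ((n - 1 + k).choose (n - 1) : ℝ) / (n : ℝ) ^ k)
      (fun _ _ => 1 / (k.factorial : ℝ)) := by
  refine ((near_asc M d k).mul (Near.const M d (1 / (k.factorial : ℝ)))).mono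
    (fun n u hn => ?_) (fun n u _ => by ring)
  have h2 : (n - 1 + k).choose (n - 1) = (n + k - 1).choose k := by
    rw [show n - 1 + k = n + k - 1 by omega]
    rw [← Nat.choose_symm (show k ≤ n + k - 1 by omega)]
    congr 1
    omega
  rw [h2, Nat.ascFactorial_eq_factorial_mul_choose']
  push_cast
  have : (k.factorial : ℝ) ≠ 0 := by positivity
  field_simp

theorem near_ser {M : ℝ} (hM : 0 ≤ M) {d : ℕ} (hd : 1 ≤ d) (i : ℕ) :
    Near M d (fun n u => (serCoeff n d u i : ℝ) / (n : ℝ) ^ i)
      (fun n u => expCoeff d i ((u : ℝ) / (n : ℝ) ^ d)) := by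
  have key : Near M d (fun n u => ∑ k ∈ Finset.range (i + 1),
      (if d * k ≤ i then (-1 : ℝ) ^ k * (((u.choose k : ℝ) / ((n : ℝ) ^ d) ^ k) *
        (((n - 1 + (i - d * k)).choose (n - 1) : ℝ) / (n : ℝ) ^ (i - d * k))) else 0))
      (fun n u => ∑ k ∈ Finset.range (i + 1), (if d * k ≤ i then (-1 : ℝ) ^ k *
        ((((u : ℝ) / (n : ℝ) ^ d) ^ k / (k.factorial : ℝ)) *
          (1 / ((i - d * k).factorial : ℝ))) else 0)) := by
    refine Near.sum (Finset.range (i + 1)) (F := fun k n u =>
      (if d * k ≤ i then (-1 : ℝ) ^ k * (((u.choose k : ℝ) / ((n : ℝ) ^ d) ^ k) *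
        (((n - 1 + (i - d * k)).choose (n - 1) : ℝ) / (n : ℝ) ^ (i - d * k))) else 0))
      (G := fun k n u => (if d * k ≤ i then (-1 : ℝ) ^ k *
        ((((u : ℝ) / (n : ℝ) ^ d) ^ k / (k.factorial : ℝ)) *
          (1 / ((i - d * k).factorial : ℝ))) else 0)) fun k _ => ?_
    by_cases h : d * k ≤ i
    · simp only [if_pos h]
      exact (Near.const M d ((-1) ^ k)).mul ((near_choose_u hM hd k).mul (near_choose_n M d (i - d * k)))
    · simp only [if_neg h]
      exact Near.const M d 0
  refine key.mono (fun n u hn => ?_) (fun n u hn => ?_)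
  · rw [fc_eq n d u i hd]
    push_cast
    rw [Finset.sum_div]
    refine Finset.sum_congr rfl fun k _ => ?_
    by_cases h : d * k ≤ i
    · simp only [if_pos h]
      have h4 : n - 1 + i - d * k = n - 1 + (i - d * k) := by omega
      have h5 : (n : ℝ) ^ i = ((n : ℝ) ^ d) ^ k * (n : ℝ) ^ (i - d * k) := by
        rw [← pow_mul, ← pow_add]
        congr 1
        omega
      rw [h4, h5, div_mul_div_comm, mul_assoc, mul_div_assoc]
    · simp only [if_neg h, mul_zero, zero_div]
  · rw [hh_eq d i hd]
    refine Finset.sum_congr rfl fun k _ => ?_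
    by_cases h : d * k ≤ i
    · simp only [if_pos h]
      rw [neg_pow]
      have h1 : (k.factorial : ℝ) ≠ 0 := by positivity
      have h2 : ((i - d * k).factorial : ℝ) ≠ 0 := by positivity
      field_simp
    · simp only [if_neg h]

/-- The form used. -/
theorem ser_rate (d : ℕ) (hd : 1 ≤ d) (i : ℕ) (M : ℝ) (hM : 0 ≤ M) : ∃ C : ℝ, 0 ≤ C ∧
    ∀ n u : ℕ, 1 ≤ n → (u : ℝ) ≤ M * (n : ℝ) ^ d →
      |(serCoeff n d u i : ℝ) - expCoeff d i ((u : ℝ) / (n : ℝ) ^ d) * (n : ℝ) ^ i| ≤
        C * (n : ℝ) ^ i / n := by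
  obtain ⟨C, hC, h⟩ := near_ser hM hd i
  refine ⟨C, hC, fun n u hn hu => ?_⟩
  have h1 := (h n u hn hu).1
  have hn0 : (0 : ℝ) < n := by exact_mod_cast hn
  have hni : (0 : ℝ) < (n : ℝ) ^ i := by positivity
  have h2 : (serCoeff n d u i : ℝ) - expCoeff d i ((u : ℝ) / (n : ℝ) ^ d) * (n : ℝ) ^ i =
      ((serCoeff n d u i : ℝ) / (n : ℝ) ^ i - expCoeff d i ((u : ℝ) / (n : ℝ) ^ d)) * (n : ℝ) ^ i := by
    rw [sub_mul, div_mul_cancel₀ _ hni.ne']
  rw [h2, abs_mul, abs_of_pos hni]
  calc _ ≤ C / n * (n : ℝ) ^ i := mul_le_mul_of_nonneg_right h1 hni.le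
    _ = C * (n : ℝ) ^ i / n := by ring

end Pool.Agent.H21.XF

end
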