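import Pool.Agent.H94.LP7.H21.Defs
import Pool.Agent.H94.LP7.H21.Generic

/-! The parts of this file: H21.Reach, H21.Split, H21.Uniform, H21.Multi, H21.Poly, H21.Asym, H21.Super. -/

section

/-!
Block systems: functions on `I → ℕ`, boxes `∏ B i`, and the reachability predicate.
-/

set_option linter.unusedSectionVars false

namespace Pool.Agent.H21

open scoped Classical

variable (K : Type*) [Field K] {I : Type*} [Fintype I] [DecidableEq I]

/-- Functions on `I → ℕ` that depend only on the coordinates in `T`. -/
def dep (T : Set I) : Submodule K ((I → ℕ) → K) where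
  carrier := {f | ∀ x y : I → ℕ, (∀ i ∈ T, x i = y i) → f x = f y}
  add_mem' := by
    intro f g hf hg x y h
    simp only [Pi.add_apply]
    rw [hf x y h, hg x y h]
  zero_mem' := by
    intro x y _
    rfl
  smul_mem' := by
    intro c f hf x y h
    simp only [Pi.smul_apply]
    rw [hf x y h]

variable {K}

lemma mul_mem_dep {T : Set I} {f g : (I → ℕ) → K} (hf : f ∈ dep K T) (hg : g ∈ dep K T) :
    f * g ∈ dep K T := by
  intro x y h
  simp only [Pi.mul_apply]
  rw [hf x y h, hg x y h]

/-- The indicator function of `x y ∈ C`. -/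
noncomputable def ind (y : I) (C : Finset ℕ) : (I → ℕ) → K := fun x => if x y ∈ C then 1 else 0

lemma ind_mem_dep {y : I} {C : Finset ℕ} {T : Set I} (hy : y ∈ T) :
    (ind y C : (I → ℕ) → K) ∈ dep K T := by
  intro a b h
  simp only [ind]
  rw [h y hy]

variable (K)

/-- Restriction of functions to the box `∏ B i`. -/
def res (B : I → Finset ℕ) : ((I → ℕ) → K) →ₗ[K] (↥(Fintype.piFinset B) → K) where
  toFun f := fun x => f x.1
  map_add' _ _ := rfl
  map_smul' _ _ := rfl

variable {K}

@[simp] lemma res_apply (B : I → Finset ℕ) (f : (I → ℕ) → K) (x : ↥(Fintype.piFinset B)) :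
    res K B f x = f x.1 := rfl

/-- The products generating the multilinear ideal in the top multidegree. -/
def prods (G : Finset I → Finset ((I → ℕ) → K)) : Set ((I → ℕ) → K) :=
  {h | ∃ T : Finset I, ∃ f ∈ G T, ∃ g ∈ dep K ((T : Set I)ᶜ), h = f * g}

/-- The rank of the multilinear ideal on the box `∏ B i`. -/
noncomputable def rk (B : I → Finset ℕ) (G : Finset I → Finset ((I → ℕ) → K)) : ℕ :=
  Module.finrank K (Submodule.map (res K B) (Submodule.span K (prods G)))

variable (K)

/-- `Reach K w q`: for all boxes with side lengths divisible by some fixed `N`, one can choose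
at most `w T * ∏_{i ∈ T} |B i|` functions depending only on the coordinates in `T`, for each `T`,
such that the multilinear ideal they generate has codimension at most `q * ∏ |B i|`. -/
def Reach (w : Finset I → ℚ) (q : ℚ) : Prop :=
  ∃ N : ℕ, 0 < N ∧ ∀ B : I → Finset ℕ, (∀ i, N ∣ (B i).card) →
    ∃ G : Finset I → Finset ((I → ℕ) → K),
      (∀ T, ∀ f ∈ G T, f ∈ dep K (T : Set I)) ∧
      (∀ T, ((G T).card : ℚ) ≤ w T * ∏ i ∈ T, ((B i).card : ℚ)) ∧
      (∏ i, ((B i).card : ℚ)) - (rk B G : ℚ) ≤ q * ∏ i, ((B i).card : ℚ)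

variable {K}

lemma Reach.mono {w w' : Finset I → ℚ} {q q' : ℚ} (h : Reach K w q) (hw : ∀ T, w T ≤ w' T)
    (hq : q ≤ q') : Reach K w' q' := by
  obtain ⟨N, hN, hR⟩ := h
  refine ⟨N, hN, fun B hB => ?_⟩
  obtain ⟨G, h1, h2, h3⟩ := hR B hB
  refine ⟨G, h1, fun T => (h2 T).trans ?_, h3.trans ?_⟩
  · exact mul_le_mul_of_nonneg_right (hw T) (Finset.prod_nonneg fun i _ => Nat.cast_nonneg _)
  · exact mul_le_mul_of_nonneg_right hq (Finset.prod_nonneg fun i _ => Nat.cast_nonneg _)

lemma reach_zero : Reach K (fun _ : Finset I => (0 : ℚ)) 1 := by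
  refine ⟨1, one_pos, fun B _ => ⟨fun _ => ∅, ?_, ?_, ?_⟩⟩
  · simp
  · simp
  · rw [one_mul]
    have : (0 : ℚ) ≤ (rk B (fun _ => ∅ : Finset I → Finset ((I → ℕ) → K)) : ℚ) :=
      Nat.cast_nonneg _
    linarith

/-- The indicator of agreeing with `b` on `T`. -/
noncomputable def indPt (T : Set I) (b : I → ℕ) : (I → ℕ) → K :=
  fun x => if ∀ i ∈ T, x i = b i then 1 else 0

lemma indPt_mem_dep (T : Set I) (b : I → ℕ) : (indPt T b : (I → ℕ) → K) ∈ dep K T := by
  intro x y h
  simp only [indPt]
  have : (∀ i ∈ T, x i = b i) ↔ (∀ i ∈ T, y i = b i) := by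
    constructor
    · intro h' i hi; rw [← h i hi]; exact h' i hi
    · intro h' i hi; rw [h i hi]; exact h' i hi
  simp only [this]

lemma reach_full (w : Finset I → ℚ) (hw0 : ∀ T, 0 ≤ w T) (T : Finset I) (hw : 1 ≤ w T) :
    Reach K w 0 := by
  refine ⟨1, one_pos, fun B _ => ?_⟩
  -- extend a partial point by 0
  let ext0 : (∀ i ∈ T, ℕ) → (I → ℕ) := fun b i => if h : i ∈ T then b i h else 0
  let G : Finset I → Finset ((I → ℕ) → K) := fun T' =>
    if T' = T then (T.pi B).image (fun b => indPt (T : Set I) (ext0 b)) else ∅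
  refine ⟨G, ?_, ?_, ?_⟩
  · intro T' f hf
    by_cases hT : T' = T
    · subst hT
      simp only [G, if_true, Finset.mem_image] at hf
      obtain ⟨b, _, rfl⟩ := hf
      exact indPt_mem_dep _ _
    · simp only [G, if_neg hT] at hf
      simp at hf
  · intro T'
    by_cases hT : T' = T
    · subst hT
      simp only [G, if_true]
      have h1 : ((T'.pi B).image (fun b => (indPt (T' : Set I) (ext0 b) : (I → ℕ) → K))).card
          ≤ ∏ i ∈ T', (B i).card := by
        refine Finset.card_image_le.trans ?_
        rw [Finset.card_pi]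
      have h2 : (((T'.pi B).image (fun b => (indPt (T' : Set I) (ext0 b) : (I → ℕ) → K))).card : ℚ)
          ≤ ∏ i ∈ T', ((B i).card : ℚ) := by
        exact_mod_cast h1
      have h3 : (0 : ℚ) ≤ ∏ i ∈ T', ((B i).card : ℚ) :=
        Finset.prod_nonneg fun i _ => Nat.cast_nonneg _
      nlinarith
    · simp only [G, if_neg hT]
      simp only [Finset.card_empty, Nat.cast_zero]
      exact mul_nonneg (hw0 T') (Finset.prod_nonneg fun i _ => Nat.cast_nonneg _)
  · -- the rank is full
    have htop : Submodule.map (res K B) (Submodule.span K (prods G)) = ⊤ := by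
      rw [eq_top_iff]
      intro f _
      -- f is a combination of point indicators
      have hf : f = ∑ x : ↥(Fintype.piFinset B), f x • (res K B (indPt Set.univ x.1)) := by
        funext y
        rw [Finset.sum_apply]
        rw [Finset.sum_eq_single y]
        · simp [indPt]
        · intro x _ hxy
          simp only [Pi.smul_apply, res_apply, indPt, Set.mem_univ, true_imp_iff, smul_eq_mul]
          rw [if_neg, mul_zero]
          intro h
          exact hxy (Subtype.ext (funext h)).symm
        · intro h; exact absurd (Finset.mem_univ _) h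
      rw [hf]
      refine Submodule.sum_mem _ fun x _ => Submodule.smul_mem _ _ ?_
      refine Submodule.mem_map_of_mem (Submodule.subset_span ?_)
      refine ⟨T, indPt (T : Set I) x.1, ?_, indPt ((T : Set I)ᶜ) x.1, indPt_mem_dep _ _, ?_⟩
      · simp only [G, if_true, Finset.mem_image]
        refine ⟨fun i _ => x.1 i, ?_, ?_⟩
        · rw [Finset.mem_pi]
          intro i _
          exact Fintype.mem_piFinset.mp x.2 i
        · funext z
          simp only [indPt]
          congr 1
          simp only [Finset.mem_coe, eq_iff_iff]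
          constructor
          · intro h i hi
            have := h i hi
            simpa [ext0, hi] using this
          · intro h i hi
            simpa [ext0, hi] using h i hi
      · funext z
        simp only [indPt, Pi.mul_apply]
        by_cases h1 : ∀ i ∈ (T : Set I), z i = x.1 i
        · by_cases h2 : ∀ i ∈ ((T : Set I)ᶜ), z i = x.1 i
          · rw [if_pos h1, if_pos h2, if_pos]
            · simp
            · intro i _
              by_cases hi : i ∈ (T : Set I)
              · exact h1 i hi
              · exact h2 i hi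
          · rw [if_pos h1, if_neg h2, if_neg]
            · simp
            · intro h; exact h2 fun i _ => h i (Set.mem_univ i)
        · rw [if_neg h1, if_neg]
          · simp
          · intro h; exact h1 fun i _ => h i (Set.mem_univ i)
    have hrk : rk B G = ∏ i, (B i).card := by
      unfold rk
      rw [htop, finrank_top, Module.finrank_fintype_fun_eq_card]
      simp [Fintype.card_piFinset]
    rw [hrk]
    simp

end Pool.Agent.H21

end

section

/-!
The splitting lemma for `Reach`: a block `y` is cut into pieces.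
-/

set_option linter.unusedSectionVars false

namespace Pool.Agent.H21

open scoped Classical

variable {K : Type*} [Field K] {I : Type*} [Fintype I] [DecidableEq I]

/-- Disjoint subsets of prescribed sizes. -/
lemma exists_disjoint_family {ι : Type*} (S : Finset ι) (A : Finset ℕ) (n : ι → ℕ)
    (h : ∑ p ∈ S, n p ≤ A.card) :
    ∃ C : ι → Finset ℕ, (∀ p ∈ S, C p ⊆ A ∧ (C p).card = n p) ∧
      (∀ p ∈ S, ∀ q ∈ S, p ≠ q → Disjoint (C p) (C q)) := by
  induction S using Finset.induction_on generalizing A with
  | empty => exact ⟨fun _ => ∅, by simp, by simp⟩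
  | insert p S hp ih =>
    rw [Finset.sum_insert hp] at h
    obtain ⟨Cp, hCp, hCpc⟩ := Finset.exists_subset_card_eq (s := A) (n := n p) (by omega)
    have h2 : ∑ q ∈ S, n q ≤ (A \ Cp).card := by
      rw [Finset.card_sdiff_of_subset hCp]; omega
    obtain ⟨C, hC1, hC2⟩ := ih (A \ Cp) h2
    refine ⟨fun q => if q = p then Cp else C q, ?_, ?_⟩
    · intro q hq
      by_cases hqp : q = p
      · subst hqp; simp [hCp, hCpc]
      · have hqS : q ∈ S := by
          rcases Finset.mem_insert.mp hq with h | h
          · exact absurd h hqp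
          · exact h
        simp only [if_neg hqp]
        exact ⟨(hC1 q hqS).1.trans Finset.sdiff_subset, (hC1 q hqS).2⟩
    · intro q hq q' hq' hne
      have key : ∀ q ∈ S, Disjoint Cp (C q) := by
        intro q hq
        have := (hC1 q hq).1
        exact Finset.disjoint_left.mpr fun a ha hb => (Finset.mem_sdiff.mp (this hb)).2 ha
      by_cases hqp : q = p
      · subst hqp
        have hq'S : q' ∈ S := by
          rcases Finset.mem_insert.mp hq' with h | h
          · exact absurd h.symm hne
          · exact h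
        simp only [if_true, if_neg (Ne.symm hne)]
        exact key q' hq'S
      · have hqS : q ∈ S := by
          rcases Finset.mem_insert.mp hq with h | h
          · exact absurd h hqp
          · exact h
        by_cases hq'p : q' = p
        · subst hq'p
          simp only [if_true, if_neg hqp]
          exact (key q hqS).symm
        · have hq'S : q' ∈ S := by
            rcases Finset.mem_insert.mp hq' with h | h
            · exact absurd h hq'p
            · exact h
          simp only [if_neg hqp, if_neg hq'p]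
          exact hC2 q hqS q' hq'S hne

/-- Extension by zero from a smaller box. -/
noncomputable def extz (B B' : I → Finset ℕ) :
    (↥(Fintype.piFinset B') → K) →ₗ[K] (↥(Fintype.piFinset B) → K) where
  toFun f := fun x => if h : x.1 ∈ Fintype.piFinset B' then f ⟨x.1, h⟩ else 0
  map_add' f g := by
    funext x
    by_cases h : x.1 ∈ Fintype.piFinset B'
    · simp only [dif_pos h, Pi.add_apply]
    · simp only [dif_neg h, Pi.add_apply, add_zero]
  map_smul' c f := by
    funext x
    by_cases h : x.1 ∈ Fintype.piFinset B'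
    · simp only [dif_pos h, Pi.smul_apply, RingHom.id_apply]
    · simp only [dif_neg h, Pi.smul_apply, RingHom.id_apply, smul_zero]

lemma extz_res (B : I → Finset ℕ) (y : I) (C : Finset ℕ) (hC : C ⊆ B y) (f : (I → ℕ) → K) :
    extz B (Function.update B y C) (res K (Function.update B y C) f)
      = res K B (ind y C * f) := by
  funext x
  have hx : ∀ i, x.1 i ∈ B i := fun i => Fintype.mem_piFinset.mp x.2 i
  have hiff : x.1 ∈ Fintype.piFinset (Function.update B y C) ↔ x.1 y ∈ C := by
    rw [Fintype.mem_piFinset]
    constructor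
    · intro h
      have := h y
      simpa using this
    · intro h i
      by_cases hi : i = y
      · subst hi; simpa using h
      · rw [Function.update_of_ne hi]; exact hx i
  simp only [extz, LinearMap.coe_mk, AddHom.coe_mk, res_apply, Pi.mul_apply, ind]
  by_cases h : x.1 y ∈ C
  · rw [dif_pos (hiff.mpr h), if_pos h, one_mul]
  · rw [dif_neg (fun h' => h (hiff.mp h')), if_neg h, zero_mul]

/-- Additivity of the rank over disjoint sub-boxes. -/
lemma sum_finrank_le (B : I → Finset ℕ) (y : I) {ι : Type*} (S : Finset ι) (C : ι → Finset ℕ)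
    (hC : ∀ p ∈ S, C p ⊆ B y) (hdis : ∀ p ∈ S, ∀ q ∈ S, p ≠ q → Disjoint (C p) (C q))
    (J : Submodule K (↥(Fintype.piFinset B) → K))
    (Jp : ∀ p, Submodule K (↥(Fintype.piFinset (Function.update B y (C p))) → K))
    (hJ : ∀ p ∈ S, Submodule.map (extz B (Function.update B y (C p))) (Jp p) ≤ J) :
    ∑ p ∈ S, Module.finrank K (Jp p) ≤ Module.finrank K J := by
  -- linear injection from the product
  let Ψ0 : (∀ p : S, Jp p.1) →ₗ[K] (↥(Fintype.piFinset B) → K) :=
    ∑ p : S, (extz B (Function.update B y (C p.1))) ∘ₗ (Jp p.1).subtype ∘ₗ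
      (LinearMap.proj p : (∀ p : S, Jp p.1) →ₗ[K] Jp p.1)
  have hΨ0 : ∀ f, Ψ0 f = ∑ p : S, extz B (Function.update B y (C p.1)) ((f p : _) ) := by
    intro f
    simp [Ψ0, LinearMap.sum_apply]
  have hmem : ∀ f, Ψ0 f ∈ J := by
    intro f
    rw [hΨ0]
    refine Submodule.sum_mem _ fun p _ => ?_
    exact hJ p.1 p.2 (Submodule.mem_map_of_mem (f p).2)
  let Ψ : (∀ p : S, Jp p.1) →ₗ[K] J := Ψ0.codRestrict J hmem
  have hinj : Function.Injective Ψ := by
    rw [← LinearMap.ker_eq_bot, LinearMap.ker_eq_bot']
    intro f hf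
    have hf0 : Ψ0 f = 0 := by
      have := congrArg Subtype.val hf
      simpa [Ψ] using this
    funext p
    apply Subtype.ext
    funext x
    have hxB : x.1 ∈ Fintype.piFinset B := by
      rw [Fintype.mem_piFinset]
      intro i
      have h := Fintype.mem_piFinset.mp x.2 i
      by_cases hi : i = y
      · subst hi
        rw [Function.update_self] at h
        exact hC p.1 p.2 h
      · rwa [Function.update_of_ne hi] at h
    have hxy : x.1 y ∈ C p.1 := by
      have h := Fintype.mem_piFinset.mp x.2 y
      rwa [Function.update_self] at h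
    have h1 := congrFun hf0 ⟨x.1, hxB⟩
    rw [hΨ0, Finset.sum_apply] at h1
    rw [Finset.sum_eq_single p] at h1
    · have h2 : extz B (Function.update B y (C p.1)) (f p : _) ⟨x.1, hxB⟩
          = (f p : ↥(Fintype.piFinset (Function.update B y (C p.1))) → K) x := by
        simp only [extz, LinearMap.coe_mk, AddHom.coe_mk]
        rw [dif_pos x.2]
      rw [h2] at h1
      simpa using h1
    · intro q _ hqp
      simp only [extz, LinearMap.coe_mk, AddHom.coe_mk]
      rw [dif_neg]
      intro hmem'
      have h3 := Fintype.mem_piFinset.mp hmem' y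
      rw [Function.update_self] at h3
      have hne : q.1 ≠ p.1 := fun h => hqp (Subtype.ext h)
      exact (Finset.disjoint_left.mp (hdis q.1 q.2 p.1 p.2 hne)) h3 hxy
    · intro h; exact absurd (Finset.mem_univ _) h
  have h4 := LinearMap.finrank_le_finrank_of_injective hinj
  rw [Module.finrank_pi_fintype] at h4
  rw [← Finset.sum_coe_sort S (fun p => Module.finrank K (Jp p))]
  exact h4

lemma prod_update_card_of_mem (B : I → Finset ℕ) (y : I) (C : Finset ℕ) (T : Finset I)
    (hy : y ∈ T) (x : ℚ) (hx : (C.card : ℚ) = x * (B y).card) :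
    ∏ i ∈ T, ((Function.update B y C i).card : ℚ) = x * ∏ i ∈ T, ((B i).card : ℚ) := by
  rw [← Finset.mul_prod_erase T _ hy, ← Finset.mul_prod_erase T (fun i => ((B i).card : ℚ)) hy]
  rw [Function.update_self, hx, mul_assoc]
  congr 2
  refine Finset.prod_congr rfl fun i hi => ?_
  rw [Function.update_of_ne (Finset.ne_of_mem_erase hi)]

lemma prod_update_card_of_notMem (B : I → Finset ℕ) (y : I) (C : Finset ℕ) (T : Finset I)
    (hy : y ∉ T) :
    ∏ i ∈ T, ((Function.update B y C i).card : ℚ) = ∏ i ∈ T, ((B i).card : ℚ) := by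
  refine Finset.prod_congr rfl fun i hi => ?_
  have hne : i ≠ y := by
    intro h
    subst h
    exact hy hi
  rw [Function.update_of_ne hne]

theorem Reach.split [Infinite K] {ι : Type*} (S : Finset ι) (y : I)
    (w' : ι → Finset I → ℚ) (q' lam : ι → ℚ)
    (hlam : ∀ p ∈ S, 0 ≤ lam p) (hsum : ∑ p ∈ S, lam p = 1)
    (hR : ∀ p ∈ S, Reach K (w' p) (q' p)) (w : Finset I → ℚ)
    (hw0 : ∀ T, 0 ≤ w T)
    (hw1 : ∀ T, y ∉ T → ∀ p ∈ S, w' p T ≤ w T)
    (hw2 : ∀ T, y ∈ T → ∑ p ∈ S, lam p * w' p T ≤ w T) :
    Reach K w (∑ p ∈ S, lam p * q' p) := by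
  have hR' : ∀ p : S, Reach K (w' p) (q' p) := fun p => hR p.1 p.2
  unfold Reach at hR'
  choose N hN hRN using hR'
  have hden : ∀ p : S, 0 < (lam p).den := fun p => (lam p).den_pos
  refine ⟨∏ p : S, (N p * (lam p).den), Finset.prod_pos fun p _ => Nat.mul_pos (hN p) (hden p),
    fun B hB => ?_⟩
  -- sizes of the pieces
  have hdvd : ∀ p : S, N p * (lam p).den ∣ (B y).card := fun p =>
    (Finset.dvd_prod_of_mem (fun p : S => N p * (lam p).den) (Finset.mem_univ p)).trans (hB y)
  have hn : ∀ p : S, ∃ n : ℕ, (n : ℚ) = lam p * (B y).card ∧ N p ∣ n := by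
    intro p
    obtain ⟨b, hb⟩ := hdvd p
    refine ⟨(lam p).num.toNat * (N p * b), ?_, ⟨(lam p).num.toNat * b, by ring⟩⟩
    have h0 : 0 ≤ (lam p).num := Rat.num_nonneg.mpr (hlam p.1 p.2)
    have h1 : (((lam p).num.toNat : ℕ) : ℚ) = ((lam p).num : ℚ) := by
      have : (((lam p).num.toNat : ℕ) : ℤ) = (lam p).num := Int.toNat_of_nonneg h0
      exact_mod_cast this
    rw [hb]
    push_cast
    rw [h1]
    have h2 : (lam p : ℚ) * ((lam p).den : ℚ) = (lam p).num := Rat.mul_den_eq_num _
    calc ((lam p).num : ℚ) * ((N p : ℚ) * b) = (lam p * ((lam p).den : ℚ)) * ((N p : ℚ) * b) := by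
          rw [h2]
      _ = _ := by ring
  choose n hnq hnd using hn
  have hsumS : ∑ p : S, lam p.1 = 1 := by
    rw [Finset.sum_coe_sort S lam]; exact hsum
  have hsumn : ∑ p : S, n p = (B y).card := by
    have : ((∑ p : S, n p : ℕ) : ℚ) = ((B y).card : ℚ) := by
      push_cast
      rw [Finset.sum_congr rfl (fun p _ => hnq p), ← Finset.sum_mul, hsumS, one_mul]
    exact_mod_cast this
  obtain ⟨C, hC, hCdis⟩ := exists_disjoint_family (Finset.univ : Finset S) (B y) n hsumn.le
  have hC1 : ∀ p : S, C p ⊆ B y := fun p => (hC p (Finset.mem_univ p)).1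
  have hC2 : ∀ p : S, ((C p).card : ℚ) = lam p * (B y).card := fun p => by
    rw [(hC p (Finset.mem_univ p)).2]; exact hnq p
  have hBp : ∀ p : S, ∀ i, N p ∣ (Function.update B y (C p) i).card := by
    intro p i
    by_cases hi : i = y
    · subst hi
      rw [Function.update_self, (hC p (Finset.mem_univ p)).2]
      exact hnd p
    · rw [Function.update_of_ne hi]
      exact (Dvd.intro _ rfl : N p ∣ N p * (lam p).den).trans
        ((Finset.dvd_prod_of_mem (fun p : S => N p * (lam p).den) (Finset.mem_univ p)).trans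
          (hB i))
  have hG := fun p : S => hRN p (Function.update B y (C p)) (hBp p)
  choose G hG1 hG2 hG3 using hG
  -- numbers of generators
  let a : Finset I → ℕ := fun T => Finset.univ.sup fun p : S => (G p T).card
  have ha : ∀ (p : S) T, (G p T).card ≤ a T := fun p T =>
    Finset.le_sup (f := fun p : S => (G p T).card) (Finset.mem_univ p)
  -- parameters
  let adm : Set (Finset I → ℕ → ((I → ℕ) → K)) := {t | ∀ (T : Finset I) (l : ℕ), t T l ∈ dep K (T : Set I)}
  let σ : S → Type _ := fun p =>
    {s : Finset I × ℕ × ((I → ℕ) → K) // y ∉ s.1 ∧ s.2.1 < a s.1 ∧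
      s.2.2 ∈ dep K ((s.1 : Set I)ᶜ)} ⊕
    {s : Finset I × ((I → ℕ) → K) × ((I → ℕ) → K) // y ∈ s.1 ∧ s.2.1 ∈ G p s.1 ∧
      s.2.2 ∈ dep K ((s.1 : Set I)ᶜ)}
  let v : ∀ p : S, (Finset I → ℕ → ((I → ℕ) → K)) → σ p →
      (↥(Fintype.piFinset (Function.update B y (C p))) → K) := fun p t s =>
    match s with
    | Sum.inl s => res K (Function.update B y (C p)) (t s.1.1 s.1.2.1 * s.1.2.2)
    | Sum.inr s => res K (Function.update B y (C p)) (s.1.2.1 * s.1.2.2)
  obtain ⟨t, ht, htr⟩ := exists_simultaneous (K := K) adm (by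
      intro t ht t' ht' c T l
      exact Submodule.add_mem _ (ht T l) (Submodule.smul_mem _ c
        (Submodule.sub_mem _ (ht' T l) (ht T l))))
    ⟨0, fun T l => Submodule.zero_mem _⟩ (Finset.univ : Finset S)
    (fun p => (↥(Fintype.piFinset (Function.update B y (C p))) → K)) σ v
    (by
      intro p t t' c s
      rcases s with s | s
      · funext x
        simp only [v, res_apply, Pi.mul_apply, Pi.add_apply, Pi.smul_apply, Pi.sub_apply,
          smul_eq_mul]
        ring
      · simp only [v, sub_self, smul_zero, add_zero])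
    (fun p => rk (Function.update B y (C p)) (G p))
    (by
      intro p _
      let tp : Finset I → ℕ → ((I → ℕ) → K) := fun T l =>
        if h : l < (G p T).card then ((G p T).equivFin.symm ⟨l, h⟩).1 else 0
      refine ⟨tp, ?_, ?_⟩
      · intro T l
        by_cases h : l < (G p T).card
        · simp only [tp, dif_pos h]
          exact hG1 p T _ ((G p T).equivFin.symm ⟨l, h⟩).2
        · simp only [tp, dif_neg h]
          exact Submodule.zero_mem _
      · unfold rk
        apply Submodule.finrank_mono
        rw [Submodule.map_span_le]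
        rintro _ ⟨T, f, hf, g, hg, rfl⟩
        apply Submodule.subset_span
        by_cases hy : y ∈ T
        · exact ⟨Sum.inr ⟨(T, f, g), hy, hf, hg⟩, rfl⟩
        · let l := (G p T).equivFin ⟨f, hf⟩
          refine ⟨Sum.inl ⟨(T, l.1, g), hy, lt_of_lt_of_le l.2 (ha p T), hg⟩, ?_⟩
          simp only [v, tp]
          rw [dif_pos l.2]
          simp [l])
  -- the combined system
  let Gt : Finset I → Finset ((I → ℕ) → K) := fun T =>
    if y ∈ T then (Finset.univ : Finset S).biUnion fun p => (G p T).image fun f => ind y (C p) * f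
    else (Finset.range (a T)).image (t T)
  refine ⟨Gt, ?_, ?_, ?_⟩
  · intro T f hf
    by_cases hy : y ∈ T
    · simp only [Gt, if_pos hy, Finset.mem_biUnion, Finset.mem_image] at hf
      obtain ⟨p, _, f', hf', rfl⟩ := hf
      exact mul_mem_dep (ind_mem_dep (Finset.mem_coe.mpr hy)) (hG1 p T f' hf')
    · simp only [Gt, if_neg hy, Finset.mem_image] at hf
      obtain ⟨l, _, rfl⟩ := hf
      exact ht T l
  · intro T
    by_cases hy : y ∈ T
    · have hcard : (Gt T).card ≤ ∑ p : S, (G p T).card := by
        simp only [Gt, if_pos hy]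
        refine Finset.card_biUnion_le.trans ?_
        exact Finset.sum_le_sum fun p _ => Finset.card_image_le
      have hcardq : ((Gt T).card : ℚ) ≤ ∑ p : S, ((G p T).card : ℚ) := by exact_mod_cast hcard
      refine hcardq.trans ?_
      have h1 : ∀ p : S, ((G p T).card : ℚ) ≤ (lam p * w' p T) * ∏ i ∈ T, ((B i).card : ℚ) := by
        intro p
        refine (hG2 p T).trans (le_of_eq ?_)
        rw [prod_update_card_of_mem B y (C p) T hy (lam p) (hC2 p)]
        ring
      refine (Finset.sum_le_sum fun p _ => h1 p).trans ?_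
      rw [← Finset.sum_mul, Finset.sum_coe_sort S (fun p => lam p * w' p T)]
      exact mul_le_mul_of_nonneg_right (hw2 T hy) (Finset.prod_nonneg fun i _ => Nat.cast_nonneg _)
    · have hcard : (Gt T).card ≤ a T := by
        simp only [Gt, if_neg hy]
        refine Finset.card_image_le.trans ?_
        simp
      have haT : (a T : ℚ) ≤ w T * ∏ i ∈ T, ((B i).card : ℚ) := by
        refine Finset.sup_induction (p := fun n : ℕ => (n : ℚ) ≤ w T * ∏ i ∈ T, ((B i).card : ℚ))
          ?_ ?_ ?_
        · simp only [Nat.bot_eq_zero, Nat.cast_zero]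
          exact mul_nonneg (hw0 T) (Finset.prod_nonneg fun i _ => Nat.cast_nonneg _)
        · intro n hn' m hm'
          rcases le_total n m with h | h
          · rw [sup_eq_right.mpr h]; exact hm'
          · rw [sup_eq_left.mpr h]; exact hn'
        · intro p _
          refine (hG2 p T).trans ?_
          rw [prod_update_card_of_notMem B y (C p) T hy]
          exact mul_le_mul_of_nonneg_right (hw1 T hy p.1 p.2)
            (Finset.prod_nonneg fun i _ => Nat.cast_nonneg _)
      have : ((Gt T).card : ℚ) ≤ (a T : ℚ) := by exact_mod_cast hcard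
      exact this.trans haT
  · -- rank
    have hle := sum_finrank_le (K := K) B y (Finset.univ : Finset S) C (fun p _ => hC1 p)
      (fun p hp q hq => hCdis p hp q hq) (Submodule.map (res K B) (Submodule.span K (prods Gt)))
      (fun p => Submodule.span K (Set.range (v p t))) (by
        intro p _
        rw [Submodule.map_span_le]
        rintro _ ⟨s, rfl⟩
        rcases s with ⟨⟨T, l, g⟩, hy, hl, hg⟩ | ⟨⟨T, f, g⟩, hy, hf, hg⟩
        · simp only [v]
          rw [extz_res B y (C p) (hC1 p)]
          refine Submodule.mem_map_of_mem (Submodule.subset_span ⟨T, t T l, ?_,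
            ind y (C p) * g, mul_mem_dep (ind_mem_dep ?_) hg, ?_⟩)
          · simp only [Gt, if_neg hy, Finset.mem_image, Finset.mem_range]
            exact ⟨l, hl, rfl⟩
          · simpa using hy
          · funext x
            simp only [Pi.mul_apply]
            ring
        · simp only [v]
          rw [extz_res B y (C p) (hC1 p)]
          refine Submodule.mem_map_of_mem (Submodule.subset_span ⟨T, ind y (C p) * f, ?_,
            g, hg, ?_⟩)
          · simp only [Gt, if_pos hy, Finset.mem_biUnion, Finset.mem_image]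
            exact ⟨p, Finset.mem_univ p, f, hf, rfl⟩
          · rw [mul_assoc])
    have h1 : ∑ p : S, rk (Function.update B y (C p)) (G p) ≤ rk B Gt :=
      (Finset.sum_le_sum fun p hp => htr p hp).trans hle
    have h1q : ∑ p : S, (rk (Function.update B y (C p)) (G p) : ℚ) ≤ (rk B Gt : ℚ) := by
      exact_mod_cast h1
    have h2 : ∀ p : S, lam p * (∏ i, ((B i).card : ℚ)) -
        (rk (Function.update B y (C p)) (G p) : ℚ) ≤ (lam p * q' p) * ∏ i, ((B i).card : ℚ) := by
      intro p
      have h3 := hG3 p
      rw [prod_update_card_of_mem B y (C p) Finset.univ (Finset.mem_univ y) (lam p) (hC2 p)] at h3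
      linarith
    have h4 := Finset.sum_le_sum fun (p : S) (_ : p ∈ Finset.univ) => h2 p
    rw [Finset.sum_sub_distrib, ← Finset.sum_mul, ← Finset.sum_mul, hsumS,
      Finset.sum_coe_sort S (fun p => lam p * q' p), one_mul] at h4
    linarith

end Pool.Agent.H21

end

section

/-!
Uniform weights: `Reach` for the complete `d`-uniform system, by iterated splitting.
-/

set_option linter.unusedSectionVars false

namespace Pool.Agent.H21

open scoped Classical

variable {K : Type*} [Field K] [Infinite K] {I : Type*} [Fintype I] [DecidableEq I]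

/-- Uniform weight `v` on the `d`-subsets of `Y`. -/
noncomputable def wA (d : ℕ) (v : ℚ) (Y : Finset I) : Finset I → ℚ :=
  fun T' => if T'.card = d ∧ T' ⊆ Y then v else 0

/-- Uniform weight `v` on the `d`-subsets of `Y \ L`, and weight `s` on `T`. -/
noncomputable def wB (d : ℕ) (v : ℚ) (s : ℚ) (Y L T : Finset I) : Finset I → ℚ :=
  fun T' => (if T'.card = d ∧ T' ⊆ Y \ L then v else 0) + (if T' = T then s else 0)

lemma card_filter_mem_powersetCard (d : ℕ) (hd : 1 ≤ d) (Z : Finset I) (y : I) (hy : y ∈ Z) :
    ((Z.powersetCard d).filter (fun T => y ∈ T)).card = (Z.card - 1).choose (d - 1) := by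
  obtain ⟨d', rfl⟩ : ∃ d', d = d' + 1 := ⟨d - 1, by omega⟩
  have h1 : (Z.powersetCard (d' + 1)).filter (fun T => y ∈ T)
      = ((Z.erase y).powersetCard d').image (insert y) := by
    ext T
    simp only [Finset.mem_filter, Finset.mem_powersetCard, Finset.mem_image]
    constructor
    · rintro ⟨⟨h1, h2⟩, h3⟩
      refine ⟨T.erase y, ⟨Finset.erase_subset_erase _ h1, ?_⟩, Finset.insert_erase h3⟩
      rw [Finset.card_erase_of_mem h3, h2]; rfl
    · rintro ⟨T', ⟨h1, h2⟩, rfl⟩
      refine ⟨⟨?_, ?_⟩, Finset.mem_insert_self _ _⟩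
      · exact Finset.insert_subset hy (h1.trans (Finset.erase_subset _ _))
      · rw [Finset.card_insert_of_notMem, h2]
        intro h
        exact (Finset.mem_erase.mp (h1 h)).1 rfl
  rw [h1, Finset.card_image_of_injOn, Finset.card_powersetCard, Finset.card_erase_of_mem hy]
  · rfl
  · intro A hA B hB hAB
    have hA' : y ∉ A := fun h => (Finset.mem_erase.mp ((Finset.mem_powersetCard.mp hA).1 h)).1 rfl
    have hB' : y ∉ B := fun h => (Finset.mem_erase.mp ((Finset.mem_powersetCard.mp hB).1 h)).1 rfl
    have := congrArg (fun C => C.erase y) hAB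
    simpa [Finset.erase_insert hA', Finset.erase_insert hB'] using this

theorem reach_wB (d : ℕ) (hd : 1 ≤ d) (v : ℚ) (hv : 0 ≤ v) (e : ℕ → ℚ)
    (hrec : ∀ k, e (k + 1) = e k - (k.choose (d - 1) : ℚ) * v * e (k + 1 - d)) :
    ∀ (n m : ℕ) (Y L T : Finset I), Y.card = n → (T \ L).card = m → L ⊆ T → T ⊆ Y →
      L.Nonempty → T.card = d → (∀ i < n, 0 < e i) →
      Reach K (wB d v (e (Y \ L).card / e (Y \ T).card) Y L T) 0 := by
  intro n
  induction n using Nat.strong_induction_on with
  | _ n ihn =>
  intro m
  induction m with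
  | zero =>
    intro Y L T hY hm hLT hTY hL hT hpos
    have hTL : T = L := by
      have : T \ L = ∅ := Finset.card_eq_zero.mp hm
      exact Finset.Subset.antisymm (Finset.sdiff_eq_empty_iff_subset.mp this) hLT
    subst hTL
    have hlt : (Y \ T).card < n := by
      rw [← hY]
      exact Finset.card_lt_card (Finset.sdiff_ssubset hTY hL)
    have hne : e (Y \ T).card ≠ 0 := (hpos _ hlt).ne'
    refine reach_full _ (fun T' => ?_) T ?_
    · unfold wB
      rw [div_self hne]
      split_ifs <;> linarith
    · unfold wB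
      rw [div_self hne]
      simp only [if_true]
      split_ifs <;> linarith
  | succ m ihm =>
    intro Y L T hY hm hLT hTY hL hT hpos
    obtain ⟨y, hy⟩ : (T \ L).Nonempty := by
      rw [← Finset.card_pos, hm]; omega
    have hyT : y ∈ T := (Finset.mem_sdiff.mp hy).1
    have hyL : y ∉ L := (Finset.mem_sdiff.mp hy).2
    have hyZ : y ∈ Y \ L := Finset.mem_sdiff.mpr ⟨hTY hyT, hyL⟩
    obtain ⟨k, hk⟩ : ∃ k, (Y \ L).card = k + 1 := by
      have : 0 < (Y \ L).card := Finset.card_pos.mpr ⟨y, hyZ⟩
      exact ⟨(Y \ L).card - 1, by omega⟩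
    have hlt : (Y \ L).card < n := by
      rw [← hY]
      exact Finset.card_lt_card (Finset.sdiff_ssubset (hLT.trans hTY) hL)
    have hltT : (Y \ T).card < n := by
      rw [← hY]
      exact Finset.card_lt_card (Finset.sdiff_ssubset hTY ⟨y, hyT⟩)
    have hek : 0 < e k := hpos k (by omega)
    have hek1 : 0 < e (k + 1) := hpos (k + 1) (by omega)
    have hekd : 0 < e (k + 1 - d) := hpos _ (by omega)
    have heT : 0 < e (Y \ T).card := hpos _ hltT
    set S2 : Finset (Finset I) := ((Y \ L).powersetCard d).filter (fun T => y ∈ T) with hS2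
    have hS2mem : ∀ T'', T'' ∈ S2 ↔ (T'' ⊆ Y \ L ∧ T''.card = d) ∧ y ∈ T'' := by
      intro T''
      rw [hS2, Finset.mem_filter, Finset.mem_powersetCard]
    have hTS2 : T ∉ S2 := by
      intro h
      obtain ⟨l, hl⟩ := hL
      have := ((hS2mem T).mp h).1.1 (hLT hl)
      exact (Finset.mem_sdiff.mp this).2 hl
    have hcardS2 : S2.card = k.choose (d - 1) := by
      rw [hS2, card_filter_mem_powersetCard d hd _ y hyZ, hk]; rfl
    let lam : Finset I → ℚ := fun T' => if T' = T then e (k + 1) / e k
      else v * e (k + 1 - d) / e k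
    let w' : Finset I → Finset I → ℚ := fun T' =>
      if T' = T then wB d v (e (Y \ insert y L).card / e (Y \ T).card) Y (insert y L) T
      else wB d v (e ((Y \ L) \ {y}).card / e ((Y \ L) \ T').card) (Y \ L) {y} T'
    have hcard1 : (Y \ insert y L).card = k := by
      have : Y \ insert y L = (Y \ L).erase y := by
        ext z; simp only [Finset.mem_sdiff, Finset.mem_insert, Finset.mem_erase]; tauto
      rw [this, Finset.card_erase_of_mem hyZ, hk]; rfl
    have hcard2 : ((Y \ L) \ {y}).card = k := by
      rw [Finset.sdiff_singleton_eq_erase, Finset.card_erase_of_mem hyZ, hk]; rfl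
    have hR := Reach.split (K := K) (insert T S2) y w' (fun _ => 0) lam
      (by
        intro p _
        simp only [lam]
        split_ifs
        · positivity
        · positivity)
      (by
        rw [Finset.sum_insert hTS2]
        have h1 : ∑ p ∈ S2, lam p = ∑ p ∈ S2, v * e (k + 1 - d) / e k := by
          refine Finset.sum_congr rfl fun p hp => ?_
          simp only [lam]
          rw [if_neg]
          intro h; exact hTS2 (h ▸ hp)
        rw [h1, Finset.sum_const, hcardS2]
        simp only [lam, if_true, nsmul_eq_mul]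
        rw [hrec k]
        field_simp
        ring)
      (by
        intro p hp
        rcases Finset.mem_insert.mp hp with h | h
        · subst h
          simp only [w', if_true]
          refine ihm Y (insert y L) p hY ?_ ?_ hTY ⟨y, Finset.mem_insert_self _ _⟩ hT hpos
          · have : p \ insert y L = (p \ L).erase y := by
              ext z; simp only [Finset.mem_sdiff, Finset.mem_insert, Finset.mem_erase]; tauto
            rw [this, Finset.card_erase_of_mem hy, hm]; rfl
          · exact Finset.insert_subset hyT hLT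
        · have hpT : p ≠ T := fun h' => hTS2 (h' ▸ h)
          simp only [w', if_neg hpT]
          have hp' := (hS2mem p).mp h
          refine ihn (Y \ L).card hlt (p \ {y}).card (Y \ L) {y} p rfl rfl ?_ hp'.1.1
            ⟨y, Finset.mem_singleton_self y⟩ hp'.1.2 (fun i hi => hpos i (hi.trans hlt))
          exact Finset.singleton_subset_iff.mpr hp'.2)
      (wB d v (e (Y \ L).card / e (Y \ T).card) Y L T)
      (by
        intro T'
        unfold wB
        have : 0 ≤ e (Y \ L).card / e (Y \ T).card := by rw [hk]; positivity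
        split_ifs <;> linarith)
      (by
        intro T' hyT' p hp
        have hT'T : T' ≠ T := fun h => hyT' (h ▸ hyT)
        rcases Finset.mem_insert.mp hp with h | h
        · subst h
          simp only [w', if_true, wB, if_neg hT'T, add_zero]
          by_cases hc : T'.card = d ∧ T' ⊆ Y \ insert y L
          · have hc' : T'.card = d ∧ T' ⊆ Y \ L := ⟨hc.1, hc.2.trans
              (Finset.sdiff_subset_sdiff (Finset.Subset.refl _) (Finset.subset_insert _ _))⟩
            rw [if_pos hc, if_pos hc']
          · rw [if_neg hc]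
            split_ifs <;> linarith
        · have hpT : p ≠ T := fun h' => hTS2 (h' ▸ h)
          have hp' := (hS2mem p).mp h
          have hT'p : T' ≠ p := fun h => hyT' (h ▸ hp'.2)
          simp only [w', if_neg hpT, wB, if_neg hT'T, if_neg hT'p, add_zero]
          by_cases hc : T'.card = d ∧ T' ⊆ (Y \ L) \ {y}
          · have hc' : T'.card = d ∧ T' ⊆ Y \ L := ⟨hc.1, hc.2.trans Finset.sdiff_subset⟩
            rw [if_pos hc, if_pos hc']
          · rw [if_neg hc]
            split_ifs <;> linarith)
      (by
        intro T' hyT'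
        -- only the part `T'` itself contributes
        have hterm : ∀ p ∈ insert T S2, lam p * w' p T' =
            if p = T' then (if T' = T then e (Y \ L).card / e (Y \ T).card else v) else 0 := by
          intro p hp
          rcases Finset.mem_insert.mp hp with h | h
          · subst h
            simp only [w', lam, if_true, wB]
            rw [if_neg (fun h => ?_), zero_add, hcard1, hk]
            · by_cases h : T' = p
              · subst h
                simp only [if_true]
                field_simp
              · rw [if_neg h, if_neg (fun h' => h h'.symm), mul_zero]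
            · have := h.2 hyT'
              simp at this
          · have hpT : p ≠ T := fun h' => hTS2 (h' ▸ h)
            have hp' := (hS2mem p).mp h
            simp only [w', lam, if_neg hpT, wB]
            rw [if_neg (fun h => ?_), zero_add, hcard2]
            · by_cases h : T' = p
              · subst h
                simp only [if_true, if_neg hpT]
                have hc3 : ((Y \ L) \ T').card = k + 1 - d := by
                  rw [Finset.card_sdiff_of_subset hp'.1.1, hk, hp'.1.2]
                rw [hc3]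
                field_simp
              · rw [if_neg h, if_neg (fun h' => h h'.symm), mul_zero]
            · have := h.2 hyT'
              simp at this
        rw [Finset.sum_congr rfl hterm, Finset.sum_ite_eq']
        by_cases hT' : T' ∈ insert T S2
        · rw [if_pos hT']
          unfold wB
          rcases Finset.mem_insert.mp hT' with h | h
          · subst h
            simp only [if_true]
            split_ifs <;> linarith
          · have hpT : T' ≠ T := fun h' => hTS2 (h' ▸ h)
            have hp' := (hS2mem T').mp h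
            rw [if_neg hpT, if_neg hpT, if_pos ⟨hp'.1.2, hp'.1.1⟩, add_zero]
        · rw [if_neg hT']
          unfold wB
          have : 0 ≤ e (Y \ L).card / e (Y \ T).card := by rw [hk]; positivity
          split_ifs <;> linarith)
    simpa using hR

/-- Splitting one vertex `x` of a complete uniform system into a part on which `x` is free and
parts on which `x` lies in a single edge. -/
theorem reach_wA_step (d : ℕ) (hd : 1 ≤ d) (v : ℚ) (hv : 0 ≤ v) (e : ℕ → ℚ)
    (hrec : ∀ k, e (k + 1) = e k - (k.choose (d - 1) : ℚ) * v * e (k + 1 - d))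
    (k : ℕ) (Y : Finset I) (hY : Y.card = k + 1) (x : I) (hx : x ∈ Y)
    (hpos : ∀ i < k + 1, 0 < e i) (q0 lam0 lam1 : ℚ) (h0 : 0 ≤ lam0) (h1 : 0 ≤ lam1)
    (hR0 : Reach K (wA d v (Y.erase x)) q0)
    (hsum : lam0 + (k.choose (d - 1) : ℚ) * lam1 = 1)
    (hle : lam1 * (e k / e (k + 1 - d)) ≤ v) :
    Reach K (wA d v Y) (lam0 * q0) := by
  have hek : 0 < e k := hpos k (by omega)
  have hekd : 0 < e (k + 1 - d) := hpos _ (by omega)
  set S2 : Finset (Finset I) := (Y.powersetCard d).filter (fun T => x ∈ T) with hS2
  have hS2mem : ∀ T'', T'' ∈ S2 ↔ (T'' ⊆ Y ∧ T''.card = d) ∧ x ∈ T'' := by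
    intro T''
    rw [hS2, Finset.mem_filter, Finset.mem_powersetCard]
  have hES2 : (∅ : Finset I) ∉ S2 := by
    intro h
    have := ((hS2mem ∅).mp h).2
    simp at this
  have hcardS2 : S2.card = k.choose (d - 1) := by
    rw [hS2, card_filter_mem_powersetCard d hd _ x hx, hY]; rfl
  have hcard2 : (Y \ {x}).card = k := by
    rw [Finset.sdiff_singleton_eq_erase, Finset.card_erase_of_mem hx, hY]; rfl
  let lam : Finset I → ℚ := fun T' => if T' = ∅ then lam0 else lam1
  let q' : Finset I → ℚ := fun T' => if T' = ∅ then q0 else 0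
  let w' : Finset I → Finset I → ℚ := fun T' =>
    if T' = ∅ then wA d v (Y.erase x)
    else wB d v (e (Y \ {x}).card / e (Y \ T').card) Y {x} T'
  have hR := Reach.split (K := K) (insert ∅ S2) x w' q' lam
    (by
      intro p _
      simp only [lam]
      split_ifs <;> assumption)
    (by
      rw [Finset.sum_insert hES2]
      have h1 : ∑ p ∈ S2, lam p = ∑ p ∈ S2, lam1 := by
        refine Finset.sum_congr rfl fun p hp => ?_
        simp only [lam]
        rw [if_neg]
        intro h; exact hES2 (h ▸ hp)
      rw [h1, Finset.sum_const, hcardS2]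
      simp only [lam, if_true, nsmul_eq_mul]
      exact hsum)
    (by
      intro p hp
      rcases Finset.mem_insert.mp hp with h | h
      · subst h
        simp only [w', q', if_true]
        exact hR0
      · have hpE : p ≠ ∅ := fun h' => hES2 (h' ▸ h)
        simp only [w', q', if_neg hpE]
        have hp' := (hS2mem p).mp h
        exact reach_wB d hd v hv e hrec (k + 1) (p \ {x}).card Y {x} p hY rfl
          (Finset.singleton_subset_iff.mpr hp'.2) hp'.1.1 ⟨x, Finset.mem_singleton_self x⟩
          hp'.1.2 hpos)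
    (wA d v Y)
    (by
      intro T'
      unfold wA
      split_ifs <;> linarith)
    (by
      intro T' hxT' p hp
      rcases Finset.mem_insert.mp hp with h | h
      · subst h
        simp only [w', if_true, wA]
        by_cases hc : T'.card = d ∧ T' ⊆ Y.erase x
        · have hc' : T'.card = d ∧ T' ⊆ Y := ⟨hc.1, hc.2.trans (Finset.erase_subset _ _)⟩
          rw [if_pos hc, if_pos hc']
        · rw [if_neg hc]
          split_ifs <;> linarith
      · have hpE : p ≠ ∅ := fun h' => hES2 (h' ▸ h)
        have hp' := (hS2mem p).mp h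
        have hT'p : T' ≠ p := fun h => hxT' (h ▸ hp'.2)
        simp only [w', if_neg hpE, wB, if_neg hT'p, add_zero, wA]
        by_cases hc : T'.card = d ∧ T' ⊆ Y \ {x}
        · have hc' : T'.card = d ∧ T' ⊆ Y := ⟨hc.1, hc.2.trans Finset.sdiff_subset⟩
          rw [if_pos hc, if_pos hc']
        · rw [if_neg hc]
          split_ifs <;> linarith)
    (by
      intro T' hxT'
      have hterm : ∀ p ∈ insert ∅ S2, lam p * w' p T' =
          if p = T' then lam1 * (e k / e (k + 1 - d)) else 0 := by
        intro p hp
        rcases Finset.mem_insert.mp hp with h | h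
        · subst h
          simp only [w', lam, if_true, wA]
          have hne : (∅ : Finset I) ≠ T' := by
            intro h'
            rw [← h'] at hxT'
            simp at hxT'
          rw [if_neg (fun h => ?_), if_neg hne, mul_zero]
          have := h.2 hxT'
          simp at this
        · have hpE : p ≠ ∅ := fun h' => hES2 (h' ▸ h)
          have hp' := (hS2mem p).mp h
          simp only [w', lam, if_neg hpE, wB]
          rw [if_neg (fun h => ?_), zero_add, hcard2]
          · by_cases h : T' = p
            · subst h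
              simp only [if_true]
              have hc3 : (Y \ T').card = k + 1 - d := by
                rw [Finset.card_sdiff_of_subset hp'.1.1, hY, hp'.1.2]
              rw [hc3]
            · rw [if_neg h, if_neg (fun h' => h h'.symm), mul_zero]
          · have := h.2 hxT'
            simp at this
      rw [Finset.sum_congr rfl hterm, Finset.sum_ite_eq']
      by_cases hT' : T' ∈ insert ∅ S2
      · rw [if_pos hT']
        have hTE : T' ≠ ∅ := by
          intro h'
          rw [h'] at hxT'
          simp at hxT'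
        rcases Finset.mem_insert.mp hT' with h | h
        · exact absurd h hTE
        · have hp' := (hS2mem T').mp h
          unfold wA
          rw [if_pos ⟨hp'.1.2, hp'.1.1⟩]
          exact hle
      · rw [if_neg hT']
        unfold wA
        split_ifs <;> linarith)
  refine hR.mono (fun _ => le_refl _) ?_
  rw [Finset.sum_insert hES2]
  have h1 : ∑ p ∈ S2, lam p * q' p = 0 := by
    refine Finset.sum_eq_zero fun p hp => ?_
    have hpE : p ≠ ∅ := fun h' => hES2 (h' ▸ hp)
    simp only [q', if_neg hpE, mul_zero]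
  rw [h1]
  simp [lam, q']

/-- The complete uniform system with weight `v` reaches codimension `e |Y|`, as long as the
numbers `e i`, `i < |Y|`, are positive. -/
theorem reach_wA (d : ℕ) (hd : 1 ≤ d) (v : ℚ) (hv : 0 ≤ v) (e : ℕ → ℚ) (he0 : e 0 = 1)
    (hrec : ∀ k, e (k + 1) = e k - (k.choose (d - 1) : ℚ) * v * e (k + 1 - d)) :
    ∀ (k : ℕ) (Y : Finset I), Y.card = k → (∀ i < k, 0 < e i) → 0 ≤ e k →
      Reach K (wA d v Y) (e k) := by
  intro k
  induction k with
  | zero =>
    intro Y _ _ _
    rw [he0]
    refine reach_zero.mono (fun T => ?_) le_rfl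
    unfold wA
    split_ifs
    · exact hv
    · exact le_rfl
  | succ k ih =>
    intro Y hY hpos hek1
    obtain ⟨x, hx⟩ : Y.Nonempty := by
      rw [← Finset.card_pos, hY]; omega
    have hek : 0 < e k := hpos k (by omega)
    have hekd : 0 < e (k + 1 - d) := hpos _ (by omega)
    have h := reach_wA_step (K := K) d hd v hv e hrec k Y hY x hx hpos (e k) (e (k + 1) / e k)
      (v * e (k + 1 - d) / e k) (by positivity) (by positivity)
      (ih (Y.erase x) (by rw [Finset.card_erase_of_mem hx, hY]; rfl)
        (fun i hi => hpos i (by omega)) hek.le)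
      (by rw [hrec k]; field_simp; ring) (by apply le_of_eq; field_simp)
    have h2 : e (k + 1) / e k * e k = e (k + 1) := by field_simp
    rw [h2] at h
    exact h

/-- The supercritical case: the complete uniform system reaches codimension `0` as soon as
`e |Y| ≤ 0`. -/
theorem reach_wA_super (d : ℕ) (hd : 1 ≤ d) (v : ℚ) (hv : 0 ≤ v) (e : ℕ → ℚ) (he0 : e 0 = 1)
    (hrec : ∀ k, e (k + 1) = e k - (k.choose (d - 1) : ℚ) * v * e (k + 1 - d))
    (k : ℕ) (Y : Finset I) (hY : Y.card = k + 1) (hpos : ∀ i < k + 1, 0 < e i)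
    (hek1 : e (k + 1) ≤ 0) :
    Reach K (wA d v Y) 0 := by
  obtain ⟨x, hx⟩ : Y.Nonempty := by
    rw [← Finset.card_pos, hY]; omega
  have hek : 0 < e k := hpos k (by omega)
  have hekd : 0 < e (k + 1 - d) := hpos _ (by omega)
  have h3 : e k ≤ (k.choose (d - 1) : ℚ) * v * e (k + 1 - d) := by
    have := hrec k
    linarith
  have hC : 0 < (k.choose (d - 1) : ℚ) := by
    rcases Nat.eq_zero_or_pos (k.choose (d - 1)) with h0 | h0
    · rw [h0] at h3; simp at h3; linarith
    · exact_mod_cast h0
  have h := reach_wA_step (K := K) d hd v hv e hrec k Y hY x hx hpos (e k) 0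
      (1 / (k.choose (d - 1) : ℚ)) le_rfl (by positivity)
      (reach_wA d hd v hv e he0 hrec k (Y.erase x)
        (by rw [Finset.card_erase_of_mem hx, hY]; rfl)
        (fun i hi => hpos i (by omega)) hek.le)
      (by field_simp; ring)
      (by
        rw [div_mul_div_comm, one_mul, div_le_iff₀ (by positivity)]
        linarith)
  rw [zero_mul] at h
  exact h

end Pool.Agent.H21

end

section

/-!
A system of generic functions that is good for all `D`-subsets of the vertex set at once, and the
slicing lemma.
-/

set_option linter.unusedSectionVars false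

namespace Pool.Agent.H21

open scoped Classical

variable {K : Type*} [Field K] [Infinite K]

/-- Index set for the generators `t T l * g` with `T ⊆ X`, `|T| = d`, `l < a`. -/
def GenIx (K : Type*) [Field K] {k : ℕ} (d a : ℕ) (X : Finset (Fin k)) : Type _ :=
  {s : Finset (Fin k) × ℕ × ((Fin k → ℕ) → K) //
    s.1 ⊆ X ∧ s.1.card = d ∧ s.2.1 < a ∧ s.2.2 ∈ dep K ((s.1 : Set (Fin k))ᶜ)}

/-- The generator attached to an index. -/
def gen {k : ℕ} {d a : ℕ} {X : Finset (Fin k)} (t : Finset (Fin k) → ℕ → ((Fin k → ℕ) → K))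
    (s : GenIx K d a X) : (Fin k → ℕ) → K := t s.1.1 s.1.2.1 * s.1.2.2

theorem exists_system (k d D : ℕ) (v q : ℚ) (hv : 0 ≤ v)
    (hR : ∀ X : Finset (Fin k), X.card = D → Reach K (wA d v X) q) :
    ∃ N : ℕ, 0 < N ∧ ∀ m : ℕ, N ∣ m →
      ∃ (a : ℕ) (t : Finset (Fin k) → ℕ → ((Fin k → ℕ) → K)),
        (∀ (T : Finset (Fin k)) (l : ℕ), t T l ∈ dep K (T : Set (Fin k))) ∧ ((a : ℚ) ≤ v * (m : ℚ) ^ d) ∧
        ∀ X : Finset (Fin k), X.card = D →
          (1 - q) * (m : ℚ) ^ k ≤ (Module.finrank K (Submodule.span K (Set.range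
            (fun s : GenIx K d a X => res K (fun _ => Finset.range m) (gen t s)))) : ℚ) := by
  have hR' : ∀ X : {X : Finset (Fin k) // X.card = D}, Reach K (wA d v X.1) q :=
    fun X => hR X.1 X.2
  unfold Reach at hR'
  choose N hN hRN using hR'
  refine ⟨∏ X : {X : Finset (Fin k) // X.card = D}, N X, Finset.prod_pos fun X _ => hN X,
    fun m hm => ?_⟩
  let B : Fin k → Finset ℕ := fun _ => Finset.range m
  have hBc : ∀ i, (B i).card = m := fun i => Finset.card_range m
  have hdv : ∀ (X : {X : Finset (Fin k) // X.card = D}) (i : Fin k), N X ∣ (B i).card := by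
    intro X i
    rw [hBc i]
    exact (Finset.dvd_prod_of_mem (fun X => N X) (Finset.mem_univ X)).trans hm
  have hG := fun X : {X : Finset (Fin k) // X.card = D} => hRN X B (hdv X)
  choose G hG1 hG2 hG3 using hG
  let a : ℕ := ⌊v * (m : ℚ) ^ d⌋₊
  have hvm : 0 ≤ v * (m : ℚ) ^ d := mul_nonneg hv (by positivity)
  have ha : (a : ℚ) ≤ v * (m : ℚ) ^ d := Nat.floor_le hvm
  have hcard : ∀ X T, (G X T).card ≤ a := by
    intro X T
    have h := hG2 X T
    simp only [hBc, Finset.prod_const] at h
    apply Nat.le_floor
    by_cases hT : T.card = d ∧ T ⊆ X.1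
    · rw [wA, if_pos hT, hT.1] at h
      exact h
    · rw [wA, if_neg hT, zero_mul] at h
      linarith
  have hempty : ∀ X T, ¬ (T.card = d ∧ T ⊆ X.1) → G X T = ∅ := by
    intro X T hT
    have h := hG2 X T
    rw [wA, if_neg hT, zero_mul] at h
    have : (G X T).card = 0 := by
      have h' : ((G X T).card : ℚ) = 0 := le_antisymm h (Nat.cast_nonneg _)
      exact_mod_cast h'
    exact Finset.card_eq_zero.mp this
  let adm : Set (Finset (Fin k) → ℕ → ((Fin k → ℕ) → K)) :=
    {t | ∀ (T : Finset (Fin k)) (l : ℕ), t T l ∈ dep K (T : Set (Fin k))}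
  obtain ⟨t, ht, htr⟩ := exists_simultaneous (K := K) adm (by
      intro t ht t' ht' c T l
      exact Submodule.add_mem _ (ht T l) (Submodule.smul_mem _ c
        (Submodule.sub_mem _ (ht' T l) (ht T l))))
    ⟨0, fun T l => Submodule.zero_mem _⟩
    (Finset.univ : Finset {X : Finset (Fin k) // X.card = D})
    (fun _ => (↥(Fintype.piFinset B) → K)) (fun X => GenIx K d a X.1)
    (fun X t s => res K B (gen t s))
    (by
      intro X t t' c s
      funext x
      simp only [gen, res_apply, Pi.mul_apply, Pi.add_apply, Pi.smul_apply, Pi.sub_apply,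
        smul_eq_mul]
      ring)
    (fun X => rk B (G X))
    (by
      intro X _
      let tX : Finset (Fin k) → ℕ → ((Fin k → ℕ) → K) := fun T l =>
        if h : l < (G X T).card then ((G X T).equivFin.symm ⟨l, h⟩).1 else 0
      refine ⟨tX, ?_, ?_⟩
      · intro T l
        by_cases h : l < (G X T).card
        · simp only [tX, dif_pos h]
          exact hG1 X T _ ((G X T).equivFin.symm ⟨l, h⟩).2
        · simp only [tX, dif_neg h]
          exact Submodule.zero_mem _
      · unfold rk
        apply Submodule.finrank_mono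
        rw [Submodule.map_span_le]
        rintro _ ⟨T, f, hf, g, hg, rfl⟩
        apply Submodule.subset_span
        have hT : T.card = d ∧ T ⊆ X.1 := by
          by_contra hT
          rw [hempty X T hT] at hf
          simp at hf
        let l := (G X T).equivFin ⟨f, hf⟩
        refine ⟨⟨(T, l.1, g), hT.2, hT.1, lt_of_lt_of_le l.2 (hcard X T), hg⟩, ?_⟩
        simp only [gen, tX]
        rw [dif_pos l.2]
        simp [l])
  refine ⟨a, t, ht, ha, fun X hX => ?_⟩
  have h1 := htr ⟨X, hX⟩ (Finset.mem_univ _)
  have h2 := hG3 ⟨X, hX⟩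
  simp only [hBc, Finset.prod_const, Finset.card_univ, Fintype.card_fin] at h2
  have h3 : (rk B (G ⟨X, hX⟩) : ℚ) ≤ (Module.finrank K (Submodule.span K (Set.range
      (fun s : GenIx K d a X => res K B (gen t s)))) : ℚ) := by
    exact_mod_cast h1
  refine le_trans ?_ h3
  linarith

/-- Points of the box supported on `X`. -/
def pts {k : ℕ} (m : ℕ) (X : Finset (Fin k)) : Finset (Fin k → ℕ) :=
  Fintype.piFinset (fun i => if i ∈ X then Finset.range m else {0})

lemma mem_pts {k m : ℕ} {X : Finset (Fin k)} {z : Fin k → ℕ} :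
    z ∈ pts m X ↔ (∀ i ∈ X, z i < m) ∧ (∀ i ∉ X, z i = 0) := by
  unfold pts
  rw [Fintype.mem_piFinset]
  constructor
  · intro h
    refine ⟨fun i hi => ?_, fun i hi => ?_⟩
    · have := h i
      rw [if_pos hi, Finset.mem_range] at this
      exact this
    · have := h i
      rw [if_neg hi, Finset.mem_singleton] at this
      exact this
  · rintro ⟨h1, h2⟩ i
    by_cases hi : i ∈ X
    · rw [if_pos hi, Finset.mem_range]; exact h1 i hi
    · rw [if_neg hi, Finset.mem_singleton]; exact h2 i hi

lemma card_pts {k : ℕ} (m : ℕ) (X : Finset (Fin k)) : (pts m X).card = m ^ X.card := by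
  unfold pts
  rw [Fintype.card_piFinset]
  have : ∀ i : Fin k, (if i ∈ X then Finset.range m else ({0} : Finset ℕ)).card
      = if i ∈ X then m else 1 := by
    intro i
    by_cases hi : i ∈ X
    · simp [hi]
    · simp [hi]
  rw [Finset.prod_congr rfl (fun i _ => this i), Finset.prod_ite_mem]
  simp

/-- Restriction to the points supported on `X`. -/
def resP {k : ℕ} (m : ℕ) (X : Finset (Fin k)) :
    ((Fin k → ℕ) → K) →ₗ[K] (↥(pts m X) → K) where
  toFun f := fun x => f x.1
  map_add' _ _ := rfl
  map_smul' _ _ := rfl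

/-- Slicing: the rank on the whole box is at most `m ^ (k - |X|)` times the rank on the points
supported on `X`. -/
theorem finrank_slice {k : ℕ} (m d a : ℕ) (X : Finset (Fin k))
    (t : Finset (Fin k) → ℕ → ((Fin k → ℕ) → K)) (ht : ∀ (T : Finset (Fin k)) (l : ℕ), t T l ∈ dep K (T : Set (Fin k))) :
    Module.finrank K (Submodule.span K (Set.range
      (fun s : GenIx K d a X => res K (fun _ => Finset.range m) (gen t s)))) ≤
    m ^ (k - X.card) * Module.finrank K (Submodule.span K (Set.range
      (fun s : GenIx K d a X => resP (K := K) m X (gen t s)))) := by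
  -- outer points
  let O := ↥(pts m (Xᶜ : Finset (Fin k)))
  let J := Submodule.span K (Set.range (fun s : GenIx K d a X => resP (K := K) m X (gen t s)))
  let J0 := Submodule.span K (Set.range
      (fun s : GenIx K d a X => res K (fun _ => Finset.range m) (gen t s)))
  have hpt : ∀ (z : ↥(pts m X)) (η : O), z.1 + η.1 ∈
      Fintype.piFinset (fun _ : Fin k => Finset.range m) := by
    intro z η
    rw [Fintype.mem_piFinset]
    intro i
    have hz := mem_pts.mp z.2
    have hη := mem_pts.mp η.2
    rw [Finset.mem_range, Pi.add_apply]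
    by_cases hi : i ∈ X
    · have h1 := hz.1 i hi
      have h2 := hη.2 i (by simp [hi])
      omega
    · have h1 := hz.2 i hi
      have h2 := hη.1 i (by simp [hi])
      omega
  -- the slicing map
  let Ψ0 : (↥(Fintype.piFinset (fun _ : Fin k => Finset.range m)) → K) →ₗ[K]
      (O → (↥(pts m X) → K)) :=
    { toFun := fun f η z => f ⟨z.1 + η.1, hpt z η⟩
      map_add' := fun _ _ => rfl
      map_smul' := fun _ _ => rfl }
  have hmem : ∀ f ∈ J0, ∀ η, Ψ0 f η ∈ J := by
    intro f hf
    refine Submodule.span_induction ?_ ?_ ?_ ?_ hf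
    · rintro _ ⟨s, rfl⟩ η
      obtain ⟨⟨T, l, g⟩, hTX, hTd, hl, hg⟩ := s
      -- modify g
      let g' : (Fin k → ℕ) → K := fun x => g (fun i => if i ∈ X then x i else η.1 i)
      have hg' : g' ∈ dep K ((T : Set (Fin k))ᶜ) := by
        intro x y hxy
        simp only [g']
        apply hg
        intro i hi
        by_cases hiX : i ∈ X
        · rw [if_pos hiX, if_pos hiX]; exact hxy i hi
        · rw [if_neg hiX, if_neg hiX]
      apply Submodule.subset_span
      refine ⟨⟨(T, l, g'), hTX, hTd, hl, hg'⟩, ?_⟩
      funext z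
      have hz := mem_pts.mp z.2
      have hη := mem_pts.mp η.2
      simp only [Ψ0, resP, gen, LinearMap.coe_mk, AddHom.coe_mk, res_apply, Pi.mul_apply, g']
      congr 1
      · apply ht
        intro i hi
        have hiX : i ∈ X := hTX hi
        rw [Pi.add_apply, hη.2 i (by simp [hiX]), add_zero]
      · congr 1
        funext i
        by_cases hiX : i ∈ X
        · rw [if_pos hiX, Pi.add_apply, hη.2 i (by simp [hiX]), add_zero]
        · rw [if_neg hiX, Pi.add_apply, hz.2 i hiX, zero_add]
    · intro η
      rw [map_zero]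
      exact Submodule.zero_mem _
    · intro f g _ _ hf hg η
      rw [map_add]
      exact Submodule.add_mem _ (hf η) (hg η)
    · intro c f _ hf η
      rw [map_smul]
      exact Submodule.smul_mem _ c (hf η)
  let Ψ : J0 →ₗ[K] (O → J) :=
    { toFun := fun f η => ⟨Ψ0 f.1 η, hmem f.1 f.2 η⟩
      map_add' := fun f g => by
        funext η
        apply Subtype.ext
        simp only [Submodule.coe_add, map_add, Pi.add_apply]
      map_smul' := fun c f => by
        funext η
        apply Subtype.ext
        simp only [Submodule.coe_smul, map_smul, Pi.smul_apply, RingHom.id_apply] }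
  have hinj : Function.Injective Ψ := by
    rw [← LinearMap.ker_eq_bot, LinearMap.ker_eq_bot']
    intro f hf
    apply Subtype.ext
    funext x
    -- decompose x
    have hx := Fintype.mem_piFinset.mp x.2
    let z : Fin k → ℕ := fun i => if i ∈ X then x.1 i else 0
    let η : Fin k → ℕ := fun i => if i ∈ X then 0 else x.1 i
    have hz : z ∈ pts m X := by
      rw [mem_pts]
      refine ⟨fun i hi => ?_, fun i hi => ?_⟩
      · simp only [z, if_pos hi]; exact Finset.mem_range.mp (hx i)
      · simp only [z, if_neg hi]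
    have hη : η ∈ pts m (Xᶜ : Finset (Fin k)) := by
      rw [mem_pts]
      refine ⟨fun i hi => ?_, fun i hi => ?_⟩
      · have hi' : i ∉ X := by simpa using hi
        simp only [η, if_neg hi']; exact Finset.mem_range.mp (hx i)
      · have hi' : i ∈ X := by simpa using hi
        simp only [η, if_pos hi']
    have h1 := congrFun hf ⟨η, hη⟩
    have h2 := congrFun (congrArg Subtype.val h1) ⟨z, hz⟩
    have h3 : (⟨z + η, hpt ⟨z, hz⟩ ⟨η, hη⟩⟩ :
        ↥(Fintype.piFinset (fun _ : Fin k => Finset.range m))) = x := by
      apply Subtype.ext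
      funext i
      by_cases hi : i ∈ X
      · simp [z, η, hi]
      · simp [z, η, hi]
    have h4 : f.1 ⟨z + η, hpt ⟨z, hz⟩ ⟨η, hη⟩⟩ = 0 := by
      simpa [Ψ, Ψ0] using h2
    rw [h3] at h4
    exact h4
  have h5 := LinearMap.finrank_le_finrank_of_injective hinj
  rw [Module.finrank_pi_fintype, Finset.sum_const, Finset.card_univ, Fintype.card_coe, card_pts,
    Finset.card_compl, Fintype.card_fin, smul_eq_mul] at h5
  exact h5

end Pool.Agent.H21

end

section

/-!
From block systems to spaces of forms in a polynomial ring.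
-/

set_option linter.unusedSectionVars false

namespace Pool.Agent.H21

open scoped Classical
open MvPolynomial

variable {K : Type*} [Field K]

/-- word products span the forms of degree `e` -/
lemma homogeneousSubmodule_le_span_words (n e : ℕ) :
    homogeneousSubmodule (Fin n) K e ≤
      Submodule.span K (Set.range fun q : Fin e → Fin n => ∏ j, (X (q j) : MvPolynomial (Fin n) K)) := by
  intro p hp
  rw [mem_homogeneousSubmodule] at hp
  rw [p.as_sum]
  refine Submodule.sum_mem _ fun s hs => ?_
  have hdeg : s.degree = e := by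
    have := hp (mem_support_iff.mp hs)
    rw [Finsupp.degree_eq_weight_one]
    exact this
  have hmon : monomial s (coeff s p) = coeff s p • (monomial s (1 : K)) := by
    rw [smul_monomial, smul_eq_mul, mul_one]
  rw [hmon]
  refine Submodule.smul_mem _ _ (Submodule.subset_span ?_)
  -- write the monomial as a word
  have hcard : (Finsupp.toMultiset s).toList.length = e := by
    rw [Multiset.length_toList, Finsupp.card_toMultiset]
    rw [← hdeg]
    rfl
  refine ⟨fun j => (Finsupp.toMultiset s).toList.get (j.cast hcard.symm), ?_⟩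
  have h1 : ∏ j : Fin e, (X ((Finsupp.toMultiset s).toList.get (j.cast hcard.symm)) :
      MvPolynomial (Fin n) K) = ((Finsupp.toMultiset s).toList.map
        (fun i => (X i : MvPolynomial (Fin n) K))).prod := by
    rw [← List.prod_ofFn]
    congr 1
    apply List.ext_get
    · simp [hcard]
    · intro i h1 h2
      simp
  simp only
  rw [h1, ← Multiset.prod_coe, ← Multiset.map_coe, Multiset.coe_toList]
  rw [Finsupp.toMultiset_map, Finsupp.prod_toMultiset, monomial_eq, C_1, one_mul,
    Finsupp.prod_mapDomain_index]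
  · intro b
    rw [pow_zero]
  · intro b n1 n2
    rw [pow_add]

/-- The product over a finite set of variables is a word product. -/
lemma prod_eq_word {n : ℕ} {ι : Type*} (A : Finset ι) (w : ι → Fin n) :
    ∃ q : Fin A.card → Fin n, ∏ j ∈ A, (X (w j) : MvPolynomial (Fin n) K) = ∏ l, X (q l) := by
  refine ⟨fun l => w (A.equivFin.symm l), ?_⟩
  rw [← Finset.prod_coe_sort A]
  exact (Equiv.prod_comp A.equivFin.symm (fun j : A => (X (w j) : MvPolynomial (Fin n) K))).symm

lemma prod_eq_word' {n : ℕ} {ι : Type*} (A : Finset ι) (w : ι → Fin n) (e : ℕ) (he : A.card = e) :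
    ∃ q : Fin e → Fin n, ∏ j ∈ A, (X (w j) : MvPolynomial (Fin n) K) = ∏ l, X (q l) := by
  subst he
  exact prod_eq_word A w

lemma prod_mem_homogeneous {n : ℕ} {ι : Type*} (A : Finset ι) (w : ι → Fin n) (e : ℕ)
    (he : A.card = e) :
    ∏ j ∈ A, (X (w j) : MvPolynomial (Fin n) K) ∈ homogeneousSubmodule (Fin n) K e := by
  rw [mem_homogeneousSubmodule, ← he]
  have h := IsHomogeneous.prod A (fun j => (X (w j) : MvPolynomial (Fin n) K)) (fun _ => 1)
    (fun j _ => isHomogeneous_X K (w j))
  simpa using h

section Blocks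

variable {n : ℕ} (hn : 0 < n) {k : ℕ} (m : ℕ)

/-- the variable number `a` of block `i` -/
def vr (i : Fin k) (a : ℕ) : Fin n := ⟨(i.1 * m + a) % n, Nat.mod_lt _ hn⟩

/-- the squarefree monomial attached to a point -/
noncomputable def mon (Y : Finset (Fin k)) (z : Fin k → ℕ) : MvPolynomial (Fin n) K :=
  ∏ i ∈ Y, X (vr hn m i (z i))

lemma mon_mem (Y : Finset (Fin k)) (z : Fin k → ℕ) (e : ℕ) (he : Y.card = e) :
    (mon hn m Y z : MvPolynomial (Fin n) K) ∈ homogeneousSubmodule (Fin n) K e :=
  prod_mem_homogeneous Y (fun i => vr hn m i (z i)) e he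

/-- from functions on points to forms -/
noncomputable def PhiP (Y : Finset (Fin k)) :
    (↥(pts m Y) → K) →ₗ[K] MvPolynomial (Fin n) K where
  toFun f := ∑ z : ↥(pts m Y), f z • mon hn m Y z.1
  map_add' f g := by
    simp only [Pi.add_apply, add_smul, Finset.sum_add_distrib]
  map_smul' c f := by
    simp only [Pi.smul_apply, smul_eq_mul, mul_smul, Finset.smul_sum, RingHom.id_apply]

lemma PhiP_apply (Y : Finset (Fin k)) (f : (Fin k → ℕ) → K) :
    PhiP hn m Y (resP m Y f) = ∑ z ∈ pts m Y, f z • mon hn m Y z := by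
  rw [← Finset.sum_coe_sort (pts m Y) (fun z => f z • (mon hn m Y z : MvPolynomial (Fin n) K))]
  rfl

lemma PhiP_mem (Y : Finset (Fin k)) (f : ↥(pts m Y) → K) (e : ℕ) (he : Y.card = e) :
    PhiP hn m Y f ∈ homogeneousSubmodule (Fin n) K e := by
  refine Submodule.sum_mem _ fun z _ => Submodule.smul_mem _ _ (mon_mem hn m Y z.1 e he)

lemma PhiP_mul (T Y : Finset (Fin k)) (hTY : T ⊆ Y) (f g : (Fin k → ℕ) → K)
    (hf : f ∈ dep K (T : Set (Fin k))) (hg : g ∈ dep K ((T : Set (Fin k))ᶜ)) :
    PhiP hn m Y (resP m Y (f * g)) =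
      PhiP hn m T (resP m T f) * PhiP hn m (Y \ T) (resP m (Y \ T) g) := by
  rw [PhiP_apply, PhiP_apply, PhiP_apply, Finset.sum_mul_sum, ← Finset.sum_product']
  refine Finset.sum_nbij' (fun x => ((fun i => if i ∈ T then x i else 0),
    (fun i => if i ∈ Y \ T then x i else 0))) (fun p => p.1 + p.2) ?_ ?_ ?_ ?_ ?_
  · intro x hx
    have hx' := mem_pts.mp hx
    rw [Finset.mem_product]
    constructor
    · rw [mem_pts]
      refine ⟨fun i hi => ?_, fun i hi => ?_⟩
      · simp only [if_pos hi]; exact hx'.1 i (hTY hi)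
      · simp only [if_neg hi]
    · rw [mem_pts]
      refine ⟨fun i hi => ?_, fun i hi => ?_⟩
      · simp only [if_pos hi]; exact hx'.1 i (Finset.mem_sdiff.mp hi).1
      · simp only [if_neg hi]
  · rintro ⟨z, z'⟩ hp
    rw [Finset.mem_product] at hp
    have h1 := mem_pts.mp hp.1
    have h2 := mem_pts.mp hp.2
    rw [mem_pts]
    refine ⟨fun i hi => ?_, fun i hi => ?_⟩
    · by_cases hiT : i ∈ T
      · have h3 := h1.1 i hiT
        have h4 := h2.2 i (fun h => (Finset.mem_sdiff.mp h).2 hiT)
        simp only [Pi.add_apply] at *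
        omega
      · have h3 := h1.2 i hiT
        have h4 := h2.1 i (Finset.mem_sdiff.mpr ⟨hi, hiT⟩)
        simp only [Pi.add_apply] at *
        omega
    · have h3 := h1.2 i (fun h => hi (hTY h))
      have h4 := h2.2 i (fun h => hi (Finset.mem_sdiff.mp h).1)
      simp only [Pi.add_apply] at *
      omega
  · intro x hx
    have hx' := mem_pts.mp hx
    funext i
    simp only [Pi.add_apply]
    by_cases hiT : i ∈ T
    · have : i ∉ Y \ T := fun h => (Finset.mem_sdiff.mp h).2 hiT
      rw [if_pos hiT, if_neg this, add_zero]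
    · by_cases hiY : i ∈ Y
      · rw [if_neg hiT, if_pos (Finset.mem_sdiff.mpr ⟨hiY, hiT⟩), zero_add]
      · have : i ∉ Y \ T := fun h => hiY (Finset.mem_sdiff.mp h).1
        rw [if_neg hiT, if_neg this, hx'.2 i hiY]
  · rintro ⟨z, z'⟩ hp
    rw [Finset.mem_product] at hp
    have h1 : (∀ i ∈ T, z i < m) ∧ (∀ i ∉ T, z i = 0) := mem_pts.mp hp.1
    have h2 : (∀ i ∈ Y \ T, z' i < m) ∧ (∀ i ∉ Y \ T, z' i = 0) := mem_pts.mp hp.2
    apply Prod.ext
    · funext i
      simp only [Pi.add_apply]
      by_cases hiT : i ∈ T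
      · have h3 := h2.2 i (fun h => (Finset.mem_sdiff.mp h).2 hiT)
        rw [if_pos hiT, h3, add_zero]
      · have h3 := h1.2 i hiT
        rw [if_neg hiT, h3]
    · funext i
      simp only [Pi.add_apply]
      by_cases hi : i ∈ Y \ T
      · have h3 := h1.2 i (Finset.mem_sdiff.mp hi).2
        rw [if_pos hi, h3, zero_add]
      · have h3 := h2.2 i hi
        rw [if_neg hi, h3]
  · intro x hx
    have hx' := mem_pts.mp hx
    simp only [Pi.mul_apply]
    have hfx : f x = f (fun i => if i ∈ T then x i else 0) := by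
      apply hf
      intro i hi
      rw [if_pos (Finset.mem_coe.mp hi)]
    have hgx : g x = g (fun i => if i ∈ Y \ T then x i else 0) := by
      apply hg
      intro i hi
      have hiT : i ∉ T := fun h => hi (Finset.mem_coe.mpr h)
      by_cases hiY : i ∈ Y
      · rw [if_pos (Finset.mem_sdiff.mpr ⟨hiY, hiT⟩)]
      · rw [if_neg (fun h => hiY (Finset.mem_sdiff.mp h).1), hx'.2 i hiY]
    rw [← hfx, ← hgx, smul_mul_smul_comm]
    congr 1
    unfold mon
    rw [← Finset.prod_sdiff hTY, mul_comm]
    congr 1
    · refine Finset.prod_congr rfl fun i hi => ?_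
      simp only [if_pos hi]
    · refine Finset.prod_congr rfl fun i hi => ?_
      simp only [if_pos hi]

end Blocks

lemma mul_mem_prodSpan {n e : ℕ} {V : Submodule K (MvPolynomial (Fin n) K)}
    {f g : MvPolynomial (Fin n) K} (hf : f ∈ homogeneousSubmodule (Fin n) K e) (hg : g ∈ V) :
    f * g ∈ prodSpan e V :=
  Submodule.subset_span ⟨f, hf, g, hg, rfl⟩

lemma mul_mem_prodSpan' {n e : ℕ} {V : Submodule K (MvPolynomial (Fin n) K)}
    {f g : MvPolynomial (Fin n) K} (hf : f ∈ homogeneousSubmodule (Fin n) K e) (hg : g ∈ V) :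
    g * f ∈ prodSpan e V := by
  rw [mul_comm]
  exact mul_mem_prodSpan hf hg

lemma prodSpan_mono {n e : ℕ} {V W : Submodule K (MvPolynomial (Fin n) K)} (h : V ≤ W) :
    prodSpan e V ≤ prodSpan e W :=
  Submodule.span_mono (Set.image2_subset_left h)

lemma prodSpan_le {n e d : ℕ} {V : Submodule K (MvPolynomial (Fin n) K)}
    (h : V ≤ homogeneousSubmodule (Fin n) K d) :
    prodSpan e V ≤ homogeneousSubmodule (Fin n) K (e + d) := by
  unfold prodSpan
  rw [Submodule.span_le]
  rintro _ ⟨f, hf, g, hg, rfl⟩
  have h2 := h hg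
  rw [SetLike.mem_coe, mem_homogeneousSubmodule] at *
  exact hf.mul h2

instance finite_homogeneous (n e : ℕ) :
    FiniteDimensional K (homogeneousSubmodule (Fin n) K e) := by
  have h : FiniteDimensional K (Submodule.span K
      (Set.range fun q : Fin e → Fin n => ∏ j, (X (q j) : MvPolynomial (Fin n) K))) :=
    FiniteDimensional.span_of_finite K (Set.finite_range _)
  exact Submodule.finiteDimensional_of_le (homogeneousSubmodule_le_span_words n e)

lemma finrank_finset_sup_le {M : Type*} [AddCommGroup M] [Module K M] {ι : Type*}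
    (s : Finset ι) (f : ι → Submodule K M) (hf : ∀ i ∈ s, FiniteDimensional K (f i)) :
    FiniteDimensional K (↥(s.sup f)) ∧ Module.finrank K (↥(s.sup f)) ≤ ∑ i ∈ s, Module.finrank K (f i) := by
  induction s using Finset.induction_on with
  | empty =>
    rw [Finset.sup_empty]
    refine ⟨inferInstance, ?_⟩
    simp
  | insert i s hi ih =>
    obtain ⟨h1, h2⟩ := ih (fun j hj => hf j (Finset.mem_insert_of_mem hj))
    have h3 := hf i (Finset.mem_insert_self i s)
    rw [Finset.sup_insert, Finset.sum_insert hi]
    refine ⟨inferInstance, ?_⟩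
    exact (Submodule.finrank_add_le_finrank_add_finrank (f i) (s.sup f)).trans
      (Nat.add_le_add_left h2 _)

theorem poly_main {n k m d D a r : ℕ} (hd : 2 ≤ d) (hdD : d ≤ D) (hm : 0 < m) (hn : 0 < n)
    (hkm : k * m ≤ n)
    (t : Finset (Fin k) → ℕ → ((Fin k → ℕ) → K))
    (ht : ∀ (T : Finset (Fin k)) (l : ℕ), t T l ∈ dep K (T : Set (Fin k)))
    (hr : ∀ X : Finset (Fin k), X.card = D → m ^ D ≤ Module.finrank K (Submodule.span K (Set.range
      (fun s : GenIx K d a X => resP (K := K) m X (gen t s)))) + r) :
    ∃ V : Submodule K (MvPolynomial (Fin n) K), V ≤ homogeneousSubmodule (Fin n) K d ∧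
      Module.finrank K V ≤ k.choose d * a + (n - k * m) * n ^ (d - 1) + k * m ^ 2 * n ^ (d - 2) ∧
      Module.finrank K (homogeneousSubmodule (Fin n) K D) ≤
        Module.finrank K (prodSpan (D - d) V) + k.choose D * r := by
  -- the three families of generators
  let v1 : (↥(Finset.powersetCard d (Finset.univ : Finset (Fin k))) × Fin a) →
      MvPolynomial (Fin n) K := fun p => PhiP hn m p.1.1 (resP m p.1.1 (t p.1.1 p.2.1))
  let v2 : (Fin (n - k * m) × (Fin (d - 1) → Fin n)) → MvPolynomial (Fin n) K :=
    fun p => X ⟨(k * m + p.1.1) % n, Nat.mod_lt _ hn⟩ * ∏ j, X (p.2 j)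
  let v3 : ((Fin k × Fin m × Fin m) × (Fin (d - 2) → Fin n)) → MvPolynomial (Fin n) K :=
    fun p => (X (vr hn m p.1.1 p.1.2.1.1) * X (vr hn m p.1.1 p.1.2.2.1)) * ∏ j, X (p.2 j)
  let V1 := Submodule.span K (Set.range v1)
  let V2 := Submodule.span K (Set.range v2)
  let V3 := Submodule.span K (Set.range v3)
  have : FiniteDimensional K V1 := FiniteDimensional.span_of_finite K (Set.finite_range _)
  have : FiniteDimensional K V2 := FiniteDimensional.span_of_finite K (Set.finite_range _)
  have : FiniteDimensional K V3 := FiniteDimensional.span_of_finite K (Set.finite_range _)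
  let V := V1 ⊔ V2 ⊔ V3
  have hV1 : V1 ≤ V := le_sup_left.trans le_sup_left
  have hV2 : V2 ≤ V := le_sup_right.trans le_sup_left
  have hV3 : V3 ≤ V := le_sup_right
  have hXh : ∀ i : Fin n, (X i : MvPolynomial (Fin n) K).IsHomogeneous 1 :=
    fun i => isHomogeneous_X K i
  have hword : ∀ (e : ℕ) (q : Fin e → Fin n),
      (∏ j, (X (q j) : MvPolynomial (Fin n) K)).IsHomogeneous e := by
    intro e q
    have h := prod_mem_homogeneous (K := K) (Finset.univ : Finset (Fin e)) q e (by simp)
    rwa [mem_homogeneousSubmodule] at h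
  have hVd : V ≤ homogeneousSubmodule (Fin n) K d := by
    refine sup_le (sup_le ?_ ?_) ?_
    · rw [Submodule.span_le]
      rintro _ ⟨p, rfl⟩
      exact PhiP_mem hn m p.1.1 _ d (Finset.mem_powersetCard.mp p.1.2).2
    · rw [Submodule.span_le]
      rintro _ ⟨p, rfl⟩
      rw [SetLike.mem_coe, mem_homogeneousSubmodule]
      have h := (hXh ⟨(k * m + p.1.1) % n, Nat.mod_lt _ hn⟩).mul (hword (d - 1) p.2)
      have h2 : 1 + (d - 1) = d := by omega
      rwa [h2] at h
    · rw [Submodule.span_le]
      rintro _ ⟨p, rfl⟩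
      rw [SetLike.mem_coe, mem_homogeneousSubmodule]
      have h := ((hXh (vr hn m p.1.1 p.1.2.1.1)).mul (hXh (vr hn m p.1.1 p.1.2.2.1))).mul
        (hword (d - 2) p.2)
      have h2 : 1 + 1 + (d - 2) = d := by omega
      rwa [h2] at h
  refine ⟨V, hVd, ?_, ?_⟩
  · have h1 : Module.finrank K V1 ≤ k.choose d * a := by
      refine (finrank_range_le_card v1).trans ?_
      rw [Fintype.card_prod, Fintype.card_coe, Finset.card_powersetCard, Finset.card_univ,
        Fintype.card_fin, Fintype.card_fin]
    have h2 : Module.finrank K V2 ≤ (n - k * m) * n ^ (d - 1) := by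
      refine (finrank_range_le_card v2).trans ?_
      simp
    have h3 : Module.finrank K V3 ≤ k * m ^ 2 * n ^ (d - 2) := by
      refine (finrank_range_le_card v3).trans ?_
      simp only [Fintype.card_prod, Fintype.card_fin, Fintype.card_fun]
      rw [pow_two]
    have h4 := Submodule.finrank_add_le_finrank_add_finrank V1 V2
    have h5 := Submodule.finrank_add_le_finrank_add_finrank (V1 ⊔ V2) V3
    have h6 : V = (V1 ⊔ V2) ⊔ V3 := rfl
    rw [h6]
    omega
  · -- complements
    have hcompl : ∀ X : Finset (Fin k), ∃ W : Submodule K (↥(pts m X) → K),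
        IsCompl (Submodule.span K (Set.range
          (fun s : GenIx K d a X => resP (K := K) m X (gen t s)))) W :=
      fun X => Submodule.exists_isCompl _
    choose W hW using hcompl
    let Q := (Finset.powersetCard D (Finset.univ : Finset (Fin k))).sup
      (fun X => (W X).map (PhiP hn m X))
    have hQ := finrank_finset_sup_le (Finset.powersetCard D (Finset.univ : Finset (Fin k)))
      (fun X => (W X).map (PhiP (K := K) hn m X)) (fun X _ => inferInstance)
    have hQfd : FiniteDimensional K Q := hQ.1
    have hQle : Module.finrank K Q ≤ k.choose D * r := by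
      refine hQ.2.trans ?_
      have h1 : ∀ X ∈ Finset.powersetCard D (Finset.univ : Finset (Fin k)),
          Module.finrank K (↥((W X).map (PhiP (K := K) hn m X))) ≤ r := by
        intro X hX
        have hXD : X.card = D := (Finset.mem_powersetCard.mp hX).2
        refine (Submodule.finrank_map_le (PhiP (K := K) hn m X) (W X)).trans ?_
        have h2 := Submodule.finrank_add_eq_of_isCompl (hW X)
        rw [Module.finrank_fintype_fun_eq_card, Fintype.card_coe, card_pts, hXD] at h2
        have h3 := hr X hXD
        omega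
      refine (Finset.sum_le_card_nsmul _ _ _ h1).trans ?_
      rw [Finset.card_powersetCard, Finset.card_univ, Fintype.card_fin, smul_eq_mul]
    -- the main inclusion
    have hJfd : FiniteDimensional K (prodSpan (D - d) V) :=
      Submodule.finiteDimensional_of_le (prodSpan_le hVd)
    have hmain : homogeneousSubmodule (Fin n) K D ≤ prodSpan (D - d) V ⊔ Q := by
      refine (homogeneousSubmodule_le_span_words n D).trans ?_
      rw [Submodule.span_le]
      rintro _ ⟨q, rfl⟩
      rw [SetLike.mem_coe]
      simp only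
      by_cases hc1 : ∃ j0, k * m ≤ (q j0).1
      · obtain ⟨j0, hj0⟩ := hc1
        apply Submodule.mem_sup_left
        -- choose d - 1 further positions
        have hcard : d - 1 ≤ ((Finset.univ : Finset (Fin D)).erase j0).card := by
          rw [Finset.card_erase_of_mem (Finset.mem_univ _), Finset.card_univ, Fintype.card_fin]
          omega
        obtain ⟨A, hA1, hA2⟩ := Finset.exists_subset_card_eq hcard
        have hsplit : ∏ j, (X (q j) : MvPolynomial (Fin n) K) =
            (X (q j0) * ∏ j ∈ A, X (q j)) *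
              ∏ j ∈ ((Finset.univ : Finset (Fin D)).erase j0) \ A, X (q j) := by
          rw [← Finset.mul_prod_erase Finset.univ _ (Finset.mem_univ j0), mul_assoc]
          congr 1
          rw [mul_comm, Finset.prod_sdiff hA1]
        rw [hsplit]
        apply mul_mem_prodSpan'
        · apply prod_mem_homogeneous
          rw [Finset.card_sdiff_of_subset hA1, hA2, Finset.card_erase_of_mem (Finset.mem_univ _),
            Finset.card_univ, Fintype.card_fin]
          omega
        · apply hV2
          apply Submodule.subset_span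
          obtain ⟨q', hq'⟩ := prod_eq_word' (K := K) A q (d - 1) hA2
          have hlt := (q j0).2
          refine ⟨(⟨(q j0).1 - k * m, by omega⟩, q'), ?_⟩
          simp only [v2]
          rw [hq']
          congr 2
          apply Fin.ext
          simp only
          rw [Nat.add_sub_cancel' hj0, Nat.mod_eq_of_lt hlt]
      · push Not at hc1
        have hblk : ∀ j, (q j).1 / m < k := fun j => Nat.div_lt_of_lt_mul (by
          rw [mul_comm]; exact hc1 j)
        have hvr : ∀ j, q j = vr hn m (⟨(q j).1 / m, hblk j⟩ : Fin k) ((q j).1 % m) := by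
          intro j
          apply Fin.ext
          simp only [vr]
          rw [mul_comm, Nat.div_add_mod, Nat.mod_eq_of_lt (q j).2]
        by_cases hc2 : ∃ j1 j2, j1 ≠ j2 ∧ (q j1).1 / m = (q j2).1 / m
        · obtain ⟨j1, j2, hj12, hq12⟩ := hc2
          apply Submodule.mem_sup_left
          have hj2' : j2 ∈ (Finset.univ : Finset (Fin D)).erase j1 :=
            Finset.mem_erase.mpr ⟨hj12.symm, Finset.mem_univ _⟩
          have hcard : d - 2 ≤ (((Finset.univ : Finset (Fin D)).erase j1).erase j2).card := by
            rw [Finset.card_erase_of_mem hj2', Finset.card_erase_of_mem (Finset.mem_univ _),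
              Finset.card_univ, Fintype.card_fin]
            omega
          obtain ⟨A, hA1, hA2⟩ := Finset.exists_subset_card_eq hcard
          have hsplit : ∏ j, (X (q j) : MvPolynomial (Fin n) K) =
              ((X (q j1) * X (q j2)) * ∏ j ∈ A, X (q j)) *
                ∏ j ∈ (((Finset.univ : Finset (Fin D)).erase j1).erase j2) \ A, X (q j) := by
            rw [← Finset.mul_prod_erase Finset.univ _ (Finset.mem_univ j1),
              ← Finset.mul_prod_erase (Finset.univ.erase j1) _ hj2', mul_assoc, mul_assoc]
            congr 2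
            rw [mul_comm, Finset.prod_sdiff hA1]
          rw [hsplit]
          apply mul_mem_prodSpan'
          · apply prod_mem_homogeneous
            rw [Finset.card_sdiff_of_subset hA1, hA2, Finset.card_erase_of_mem hj2',
              Finset.card_erase_of_mem (Finset.mem_univ _), Finset.card_univ, Fintype.card_fin]
            omega
          · apply hV3
            apply Submodule.subset_span
            obtain ⟨q', hq'⟩ := prod_eq_word' (K := K) A q (d - 2) hA2
            refine ⟨((⟨(q j1).1 / m, hblk j1⟩, ⟨(q j1).1 % m, Nat.mod_lt _ hm⟩,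
              ⟨(q j2).1 % m, Nat.mod_lt _ hm⟩), q'), ?_⟩
            simp only [v3]
            rw [hq']
            congr 2
            · rw [← hvr j1]
            · have h5 : (⟨(q j1).1 / m, hblk j1⟩ : Fin k) = ⟨(q j2).1 / m, hblk j2⟩ :=
                Fin.ext hq12
              rw [h5, ← hvr j2]
        · push Not at hc2
          -- transversal words
          let bl : Fin D → Fin k := fun j => ⟨(q j).1 / m, hblk j⟩
          have hbl : Function.Injective bl := by
            intro j1 j2 h
            by_contra hne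
            exact hc2 j1 j2 hne (congrArg Fin.val h)
          let Y : Finset (Fin k) := Finset.univ.map ⟨bl, hbl⟩
          have hYD : Y.card = D := by simp [Y]
          let z : Fin k → ℕ := fun i => if h : ∃ j, bl j = i then (q h.choose).1 % m else 0
          have hz : ∀ j, z (bl j) = (q j).1 % m := by
            intro j
            have hex : ∃ j', bl j' = bl j := ⟨j, rfl⟩
            have h2 : hex.choose = j := hbl hex.choose_spec
            simp only [z]
            rw [dif_pos hex, h2]
          have hzp : z ∈ pts m Y := by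
            rw [mem_pts]
            refine ⟨fun i hi => ?_, fun i hi => ?_⟩
            · obtain ⟨j, _, hj⟩ := Finset.mem_map.mp hi
              have hj' : bl j = i := hj
              rw [← hj', hz j]
              exact Nat.mod_lt _ hm
            · have hnex : ¬ ∃ j, bl j = i := by
                rintro ⟨j, hj⟩
                exact hi (Finset.mem_map.mpr ⟨j, Finset.mem_univ _, hj⟩)
              simp only [z]
              rw [dif_neg hnex]
          have hmon : ∏ j, (X (q j) : MvPolynomial (Fin n) K) = mon hn m Y z := by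
            unfold mon
            simp only [Y]
            rw [Finset.prod_map]
            refine Finset.prod_congr rfl fun j _ => ?_
            have h1 : ((⟨bl, hbl⟩ : Fin D ↪ Fin k) j) = bl j := rfl
            rw [h1, hz j]
            congr 1
            exact hvr j
          have hPhi : (mon hn m Y z : MvPolynomial (Fin n) K) =
              PhiP hn m Y (Pi.single ⟨z, hzp⟩ (1 : K)) := by
            simp only [PhiP, LinearMap.coe_mk, AddHom.coe_mk]
            rw [Finset.sum_eq_single ⟨z, hzp⟩]
            · simp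
            · intro b _ hb
              rw [Pi.single_eq_of_ne hb, zero_smul]
            · intro h
              exact absurd (Finset.mem_univ _) h
          rw [hmon, hPhi]
          have htop : (Pi.single ⟨z, hzp⟩ (1 : K) : ↥(pts m Y) → K) ∈
              Submodule.span K (Set.range
                (fun s : GenIx K d a Y => resP (K := K) m Y (gen t s))) ⊔ W Y := by
            rw [(hW Y).sup_eq_top]
            exact Submodule.mem_top
          obtain ⟨f, hf, w, hw, hfw⟩ := Submodule.mem_sup.mp htop
          rw [← hfw, map_add]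
          apply Submodule.add_mem
          · apply Submodule.mem_sup_left
            refine Submodule.span_induction ?_ ?_ ?_ ?_ hf
            · rintro _ ⟨⟨⟨T, l, g⟩, hTY, hTd, hl, hg⟩, rfl⟩
              simp only [gen]
              rw [PhiP_mul hn m T Y hTY _ _ (ht T l) hg]
              apply mul_mem_prodSpan'
              · apply PhiP_mem
                have hTd' : T.card = d := hTd
                have hTY' : T ⊆ Y := hTY
                rw [Finset.card_sdiff_of_subset hTY', hYD, hTd']
              · apply hV1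
                apply Submodule.subset_span
                exact ⟨(⟨T, Finset.mem_powersetCard.mpr ⟨Finset.subset_univ _, hTd⟩⟩, ⟨l, hl⟩), rfl⟩
            · rw [map_zero]
              exact Submodule.zero_mem _
            · intro f g _ _ hf hg
              rw [map_add]
              exact Submodule.add_mem _ hf hg
            · intro c f _ hf
              rw [map_smul]
              exact Submodule.smul_mem _ c hf
          · apply Submodule.mem_sup_right
            have hYm : Y ∈ Finset.powersetCard D (Finset.univ : Finset (Fin k)) :=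
              Finset.mem_powersetCard.mpr ⟨Finset.subset_univ _, hYD⟩
            have h6 : (W Y).map (PhiP (K := K) hn m Y) ≤ Q :=
              Finset.le_sup (f := fun X => (W X).map (PhiP (K := K) hn m X)) hYm
            exact h6 (Submodule.mem_map_of_mem hw)
    have h1 := Submodule.finrank_mono hmain
    have h2 := Submodule.finrank_add_le_finrank_add_finrank (prodSpan (D - d) V) Q
    omega

end Pool.Agent.H21

end

section

/-!
Asymptotic existence of good spaces of forms, from reachability.
-/

set_option linter.unusedSectionVars false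

namespace Pool.Agent.H21

open scoped Classical
open MvPolynomial

variable {K : Type*} [Field K] [Infinite K]

theorem asym_exists (d D : ℕ) (hd : 2 ≤ d) (hdD : d ≤ D) (v q : ℚ) (hv : 0 ≤ v) (hq : 0 ≤ q)
    (hR : ∀ (k : ℕ) (X : Finset (Fin k)), X.card = D → Reach K (wA d v X) q)
    (ε : ℚ) (hε : 0 < ε) :
    ∃ n₀ : ℕ, ∀ n : ℕ, n₀ ≤ n → ∃ V : Submodule K (MvPolynomial (Fin n) K),
      V ≤ homogeneousSubmodule (Fin n) K d ∧
      ((Module.finrank K V : ℕ) : ℚ) ≤ (v / (d.factorial : ℚ) + ε) * (n : ℚ) ^ d ∧
      ((Module.finrank K (homogeneousSubmodule (Fin n) K D) : ℕ) : ℚ) ≤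
        ((Module.finrank K (prodSpan (D - d) V) : ℕ) : ℚ) +
          q / (D.factorial : ℚ) * (n : ℚ) ^ D := by
  obtain ⟨k, hk⟩ := exists_nat_ge (2 / ε)
  have hk2 : 2 ≤ ε * (k : ℚ) := by
    rw [div_le_iff₀ hε] at hk
    linarith
  have hkpos : 0 < k := by
    rcases Nat.eq_zero_or_pos k with h | h
    · subst h
      simp at hk2
      linarith
    · exact h
  obtain ⟨N, hN, hsys⟩ := exists_system (K := K) k d D v q hv (hR k)
  obtain ⟨M, hM⟩ := exists_nat_ge (2 * (k * N : ℕ) / ε : ℚ)
  have hkN : 0 < k * N := Nat.mul_pos hkpos hN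
  refine ⟨max (k * N) M, fun n hn => ?_⟩
  have hn1 : k * N ≤ n := (le_max_left _ _).trans hn
  have hn2 : M ≤ n := (le_max_right _ _).trans hn
  have hn0 : 0 < n := lt_of_lt_of_le hkN hn1
  set m := N * (n / (k * N)) with hmdef
  have hm : 0 < m := Nat.mul_pos hN (Nat.div_pos hn1 hkN)
  have hkm' : k * m = k * N * (n / (k * N)) := by rw [hmdef, mul_assoc]
  have hkm : k * m ≤ n := by
    rw [hkm']; exact Nat.mul_div_le n (k * N)
  have hrem : n - k * m ≤ k * N := by
    have h1 := Nat.div_add_mod n (k * N)
    have h2 := Nat.mod_lt n hkN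
    rw [← hkm'] at h1
    omega
  obtain ⟨a, t, ht, ha, hX⟩ := hsys m (Dvd.intro _ rfl)
  clear_value m
  have hmQ : (0 : ℚ) < (m : ℚ) := by exact_mod_cast hm
  have hqm : 0 ≤ q * (m : ℚ) ^ D := mul_nonneg hq (by positivity)
  have hr : ∀ X : Finset (Fin k), X.card = D → m ^ D ≤ Module.finrank K (Submodule.span K
      (Set.range (fun s : GenIx K d a X => resP (K := K) m X (gen t s)))) + ⌊q * (m : ℚ) ^ D⌋₊ := by
    intro X hXD
    have hDk : D ≤ k := by
      rw [← hXD]
      have := Finset.card_le_univ X
      rwa [Fintype.card_fin] at this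
    have h1 := hX X hXD
    have h2 := finrank_slice (K := K) m d a X t ht
    rw [hXD] at h2
    set J := Module.finrank K (Submodule.span K
      (Set.range (fun s : GenIx K d a X => resP (K := K) m X (gen t s)))) with hJ
    have h3 : (1 - q) * (m : ℚ) ^ k ≤ (m : ℚ) ^ (k - D) * (J : ℚ) := by
      refine h1.trans ?_
      exact_mod_cast h2
    have h4 : (m : ℚ) ^ k = (m : ℚ) ^ (k - D) * (m : ℚ) ^ D := by
      rw [← pow_add, Nat.sub_add_cancel hDk]
    have h5 : (0 : ℚ) < (m : ℚ) ^ (k - D) := by positivity
    have h6 : (1 - q) * (m : ℚ) ^ D ≤ (J : ℚ) := by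
      have h7 : (m : ℚ) ^ (k - D) * ((1 - q) * (m : ℚ) ^ D) ≤ (m : ℚ) ^ (k - D) * (J : ℚ) := by
        calc (m : ℚ) ^ (k - D) * ((1 - q) * (m : ℚ) ^ D) = (1 - q) * (m : ℚ) ^ k := by
              rw [h4]; ring
          _ ≤ _ := h3
      exact le_of_mul_le_mul_left h7 h5
    have h8 : m ^ D - J ≤ ⌊q * (m : ℚ) ^ D⌋₊ := by
      apply Nat.le_floor
      by_cases h9 : J ≤ m ^ D
      · rw [Nat.cast_sub h9]
        push_cast
        linarith
      · rw [Nat.sub_eq_zero_of_le (by omega)]
        simpa using hqm
    omega
  obtain ⟨V, hV1, hV2, hV3⟩ := poly_main (K := K) hd hdD hm hn0 hkm t ht hr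
  have hnQ : (0 : ℚ) < (n : ℚ) := by exact_mod_cast hn0
  have hkmQ : (k : ℚ) * (m : ℚ) ≤ (n : ℚ) := by exact_mod_cast hkm
  refine ⟨V, hV1, ?_, ?_⟩
  · have h1 : ((Module.finrank K V : ℕ) : ℚ) ≤ ((k.choose d : ℕ) : ℚ) * (a : ℚ) +
        ((n - k * m : ℕ) : ℚ) * (n : ℚ) ^ (d - 1) + (k : ℚ) * (m : ℚ) ^ 2 * (n : ℚ) ^ (d - 2) := by
      exact_mod_cast hV2
    have h2 : ((k.choose d : ℕ) : ℚ) * (a : ℚ) ≤ v / (d.factorial : ℚ) * (n : ℚ) ^ d := by
      have h3 : ((k.choose d : ℕ) : ℚ) ≤ (k : ℚ) ^ d / (d.factorial : ℚ) :=
        Nat.choose_le_pow_div d k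
      calc ((k.choose d : ℕ) : ℚ) * (a : ℚ) ≤ ((k : ℚ) ^ d / (d.factorial : ℚ)) *
            (v * (m : ℚ) ^ d) := by
            apply mul_le_mul h3 ha (Nat.cast_nonneg _)
            positivity
        _ = v / (d.factorial : ℚ) * ((k : ℚ) * (m : ℚ)) ^ d := by
            rw [mul_pow]; ring
        _ ≤ v / (d.factorial : ℚ) * (n : ℚ) ^ d := by
            apply mul_le_mul_of_nonneg_left _ (by positivity)
            exact pow_le_pow_left₀ (by positivity) hkmQ d
    have h4 : ((n - k * m : ℕ) : ℚ) * (n : ℚ) ^ (d - 1) ≤ (ε / 2) * (n : ℚ) ^ d := by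
      have h5 : ((n - k * m : ℕ) : ℚ) ≤ (ε / 2) * (n : ℚ) := by
        have h6 : ((n - k * m : ℕ) : ℚ) ≤ ((k * N : ℕ) : ℚ) := by exact_mod_cast hrem
        have h7 : (M : ℚ) ≤ (n : ℚ) := by exact_mod_cast hn2
        have h8 : 2 * ((k * N : ℕ) : ℚ) / ε ≤ (n : ℚ) := hM.trans h7
        rw [div_le_iff₀ hε] at h8
        linarith
      have h9 : (n : ℚ) ^ d = (n : ℚ) * (n : ℚ) ^ (d - 1) := by
        rw [← pow_succ']
        congr 1
        omega
      rw [h9, ← mul_assoc]
      exact mul_le_mul_of_nonneg_right h5 (by positivity)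
    have h10 : (k : ℚ) * (m : ℚ) ^ 2 * (n : ℚ) ^ (d - 2) ≤ (ε / 2) * (n : ℚ) ^ d := by
      have h11 : (k : ℚ) * (m : ℚ) ^ 2 ≤ (ε / 2) * (n : ℚ) ^ 2 := by
        have h12 : (0 : ℚ) ≤ (k : ℚ) * (m : ℚ) ^ 2 := by positivity
        have h13 : ((k : ℚ) * (m : ℚ)) ^ 2 ≤ (n : ℚ) ^ 2 :=
          pow_le_pow_left₀ (by positivity) hkmQ 2
        have h14 : (ε / 2) * ((k : ℚ) * (m : ℚ)) ^ 2 ≤ (ε / 2) * (n : ℚ) ^ 2 :=
          mul_le_mul_of_nonneg_left h13 (by positivity)
        nlinarith
      have h15 : (n : ℚ) ^ d = (n : ℚ) ^ 2 * (n : ℚ) ^ (d - 2) := by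
        rw [← pow_add]
        congr 1
        omega
      rw [h15, ← mul_assoc]
      exact mul_le_mul_of_nonneg_right h11 (by positivity)
    linarith
  · have h1 : ((Module.finrank K (homogeneousSubmodule (Fin n) K D) : ℕ) : ℚ) ≤
        ((Module.finrank K (prodSpan (D - d) V) : ℕ) : ℚ) +
          ((k.choose D : ℕ) : ℚ) * ((⌊q * (m : ℚ) ^ D⌋₊ : ℕ) : ℚ) := by
      exact_mod_cast hV3
    have h2 : ((k.choose D : ℕ) : ℚ) * ((⌊q * (m : ℚ) ^ D⌋₊ : ℕ) : ℚ) ≤
        q / (D.factorial : ℚ) * (n : ℚ) ^ D := by
      have h3 : ((k.choose D : ℕ) : ℚ) ≤ (k : ℚ) ^ D / (D.factorial : ℚ) :=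
        Nat.choose_le_pow_div D k
      calc ((k.choose D : ℕ) : ℚ) * ((⌊q * (m : ℚ) ^ D⌋₊ : ℕ) : ℚ) ≤
            ((k : ℚ) ^ D / (D.factorial : ℚ)) * (q * (m : ℚ) ^ D) := by
            apply mul_le_mul h3 (Nat.floor_le hqm) (Nat.cast_nonneg _)
            positivity
        _ = q / (D.factorial : ℚ) * ((k : ℚ) * (m : ℚ)) ^ D := by
            rw [mul_pow]; ring
        _ ≤ q / (D.factorial : ℚ) * (n : ℚ) ^ D := by
            apply mul_le_mul_of_nonneg_left _ (by positivity)
            exact pow_le_pow_left₀ (by positivity) hkmQ D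
    linarith

end Pool.Agent.H21

end

section

/-!
The supercritical range: forms of degree `d` generating everything in degree `D`.
-/

set_option linter.unusedSectionVars false

namespace Pool.Agent.H21

open scoped Classical
open MvPolynomial Filter Topology

section General

variable {K : Type*} [Field K]

lemma mul_prodSpan {n a b : ℕ} {V : Submodule K (MvPolynomial (Fin n) K)}
    {f g : MvPolynomial (Fin n) K} (hf : f ∈ homogeneousSubmodule (Fin n) K a)
    (hg : g ∈ prodSpan b V) : f * g ∈ prodSpan (a + b) V := by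
  unfold prodSpan at hg
  refine Submodule.span_induction ?_ ?_ ?_ ?_ hg
  · rintro _ ⟨x, hx, y, hy, rfl⟩
    rw [← mul_assoc]
    apply mul_mem_prodSpan _ hy
    rw [SetLike.mem_coe, mem_homogeneousSubmodule] at hx
    rw [mem_homogeneousSubmodule] at hf ⊢
    exact hf.mul hx
  · rw [mul_zero]
    exact Submodule.zero_mem _
  · intro x y _ _ hx hy
    rw [mul_add]
    exact Submodule.add_mem _ hx hy
  · intro c x _ hx
    rw [mul_smul_comm]
    exact Submodule.smul_mem _ c hx

/-- words split into a product of two shorter words -/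
lemma word_split {n a b : ℕ} (q : Fin (a + b) → Fin n) :
    ∏ j, (X (q j) : MvPolynomial (Fin n) K) =
      (∏ j : Fin a, X (q (Fin.castAdd b j))) * ∏ j : Fin b, X (q (Fin.natAdd a j)) :=
  Fin.prod_univ_add _

lemma word_mem {n e : ℕ} (q : Fin e → Fin n) :
    ∏ j, (X (q j) : MvPolynomial (Fin n) K) ∈ homogeneousSubmodule (Fin n) K e :=
  prod_mem_homogeneous (K := K) (Finset.univ : Finset (Fin e)) q e (by simp)

lemma prodSpan_full {n d D₁ D : ℕ} {V : Submodule K (MvPolynomial (Fin n) K)}
    (h1 : d ≤ D₁) (h2 : D₁ ≤ D)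
    (h : homogeneousSubmodule (Fin n) K D₁ ≤ prodSpan (D₁ - d) V) :
    homogeneousSubmodule (Fin n) K D ≤ prodSpan (D - d) V := by
  obtain ⟨c, rfl⟩ : ∃ c, D = c + D₁ := ⟨D - D₁, by omega⟩
  refine (homogeneousSubmodule_le_span_words n (c + D₁)).trans ?_
  rw [Submodule.span_le]
  rintro _ ⟨q, rfl⟩
  rw [SetLike.mem_coe]
  simp only
  rw [word_split]
  have h3 : c + D₁ - d = c + (D₁ - d) := by omega
  rw [h3]
  exact mul_prodSpan (word_mem _) (h (word_mem _))

/-- A subspace can be enlarged to any intermediate dimension. -/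
lemma exists_extend {M : Type*} [AddCommGroup M] [Module K M] (S : Submodule K M)
    [FiniteDimensional K S] (u : ℕ) (hu : u ≤ Module.finrank K S) (V : Submodule K M)
    (hV : V ≤ S) (hVu : Module.finrank K V ≤ u) :
    ∃ V' : Submodule K M, V ≤ V' ∧ V' ≤ S ∧ Module.finrank K V' = u := by
  obtain ⟨r, hr⟩ : ∃ r, u = Module.finrank K V + r := ⟨u - Module.finrank K V, by omega⟩
  induction r generalizing V with
  | zero => exact ⟨V, le_rfl, hV, by omega⟩
  | succ r ih =>
    have hne : ¬ S ≤ V := by
      intro h
      have : S = V := le_antisymm h hV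
      rw [this] at hu
      omega
    obtain ⟨x, hxS, hxV⟩ := SetLike.not_le_iff_exists.mp hne
    have hVfd : FiniteDimensional K V := Submodule.finiteDimensional_of_le hV
    have h1 : V ⊔ Submodule.span K {x} ≤ S := by
      refine sup_le hV ?_
      rw [Submodule.span_singleton_le_iff_mem]
      exact hxS
    have hx0 : x ≠ 0 := fun h => hxV (h ▸ V.zero_mem)
    have h2 : Module.finrank K (V ⊔ Submodule.span K {x} : Submodule K M) =
        Module.finrank K V + 1 := by
      have h3 := Submodule.finrank_sup_add_finrank_inf_eq V (Submodule.span K {x})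
      have h4 : V ⊓ Submodule.span K {x} = ⊥ := by
        rw [← disjoint_iff, Submodule.disjoint_span_singleton' hx0]
        exact hxV
      rw [h4, finrank_bot, finrank_span_singleton hx0] at h3
      omega
    obtain ⟨V', h5, h6, h7⟩ := ih (V ⊔ Submodule.span K {x}) h1 (by omega) (by omega)
    exact ⟨V', le_sup_left.trans h5, h6, h7⟩

end General

section BaseChange

variable {K : Type*} [Field K] [CharZero K]

/-- extension of scalars from the rationals -/
noncomputable def bc {n : ℕ} (W : Submodule ℚ (MvPolynomial (Fin n) ℚ)) :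
    Submodule K (MvPolynomial (Fin n) K) :=
  Submodule.span K ((MvPolynomial.map (algebraMap ℚ K)) '' (W : Set (MvPolynomial (Fin n) ℚ)))

lemma map_smul_rat {n : ℕ} (c : ℚ) (f : MvPolynomial (Fin n) ℚ) :
    MvPolynomial.map (algebraMap ℚ K) (c • f) =
      (algebraMap ℚ K c) • MvPolynomial.map (algebraMap ℚ K) f := by
  rw [MvPolynomial.smul_eq_C_mul, map_mul, map_C, MvPolynomial.smul_eq_C_mul]

lemma bc_span_le {n : ℕ} {s : Set (MvPolynomial (Fin n) ℚ)} :
    bc (K := K) (Submodule.span ℚ s) ≤
      Submodule.span K ((MvPolynomial.map (algebraMap ℚ K)) '' s) := by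
  unfold bc
  rw [Submodule.span_le]
  rintro _ ⟨f, hf, rfl⟩
  rw [SetLike.mem_coe]
  rw [SetLike.mem_coe] at hf
  refine Submodule.span_induction ?_ ?_ ?_ ?_ hf
  · intro x hx
    exact Submodule.subset_span ⟨x, hx, rfl⟩
  · rw [map_zero]
    exact Submodule.zero_mem _
  · intro x y _ _ hx hy
    rw [map_add]
    exact Submodule.add_mem _ hx hy
  · intro c x _ hx
    rw [map_smul_rat]
    exact Submodule.smul_mem _ _ hx

lemma finrank_bc_le {n : ℕ} (W : Submodule ℚ (MvPolynomial (Fin n) ℚ)) [FiniteDimensional ℚ W] :
    Module.finrank K (bc (K := K) W) ≤ Module.finrank ℚ W := by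
  let b := Module.finBasis ℚ W
  have h1 : W = Submodule.span ℚ (Set.range fun i => (b i : MvPolynomial (Fin n) ℚ)) := by
    have h2 := b.span_eq
    have h3 := congrArg (Submodule.map W.subtype) h2
    rw [Submodule.map_span, Submodule.map_top, Submodule.range_subtype, ← Set.range_comp] at h3
    exact h3.symm
  have h4 : bc (K := K) W ≤ Submodule.span K (Set.range fun i =>
      MvPolynomial.map (algebraMap ℚ K) (b i : MvPolynomial (Fin n) ℚ)) := by
    conv_lhs => rw [h1]
    refine bc_span_le.trans ?_
    rw [← Set.range_comp]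
    rfl
  have hfd : FiniteDimensional K (Submodule.span K (Set.range fun i =>
      MvPolynomial.map (algebraMap ℚ K) (b i : MvPolynomial (Fin n) ℚ))) :=
    FiniteDimensional.span_of_finite K (Set.finite_range _)
  refine (Submodule.finrank_mono h4).trans ?_
  refine (finrank_range_le_card _).trans ?_
  simp

lemma bc_le_homogeneous {n e : ℕ} {W : Submodule ℚ (MvPolynomial (Fin n) ℚ)}
    (hW : W ≤ homogeneousSubmodule (Fin n) ℚ e) :
    bc (K := K) W ≤ homogeneousSubmodule (Fin n) K e := by
  unfold bc
  rw [Submodule.span_le]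
  rintro _ ⟨f, hf, rfl⟩
  have h1 := hW hf
  rw [mem_homogeneousSubmodule] at h1
  rw [SetLike.mem_coe, mem_homogeneousSubmodule]
  exact h1.map _

lemma homogeneous_le_bc (n e : ℕ) :
    homogeneousSubmodule (Fin n) K e ≤ bc (K := K) (homogeneousSubmodule (Fin n) ℚ e) := by
  refine (homogeneousSubmodule_le_span_words n e).trans ?_
  rw [Submodule.span_le]
  rintro _ ⟨q, rfl⟩
  apply Submodule.subset_span
  refine ⟨∏ j, X (q j), word_mem q, ?_⟩
  rw [map_prod]
  simp

lemma bc_mono {n : ℕ} {W W' : Submodule ℚ (MvPolynomial (Fin n) ℚ)} (h : W ≤ W') :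
    bc (K := K) W ≤ bc (K := K) W' :=
  Submodule.span_mono (Set.image_mono h)

lemma bc_sup_le {n : ℕ} (W W' : Submodule ℚ (MvPolynomial (Fin n) ℚ)) :
    bc (K := K) (W ⊔ W') ≤ bc (K := K) W ⊔ bc (K := K) W' := by
  unfold bc
  rw [Submodule.span_le]
  rintro _ ⟨f, hf, rfl⟩
  obtain ⟨x, hx, y, hy, rfl⟩ := Submodule.mem_sup.mp hf
  rw [map_add]
  exact Submodule.add_mem_sup (Submodule.subset_span ⟨x, hx, rfl⟩)
    (Submodule.subset_span ⟨y, hy, rfl⟩)

lemma bc_prodSpan_le {n e : ℕ} (W : Submodule ℚ (MvPolynomial (Fin n) ℚ)) :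
    bc (K := K) (prodSpan e W) ≤ prodSpan e (bc (K := K) W) := by
  unfold prodSpan
  refine bc_span_le.trans ?_
  rw [Submodule.span_le]
  rintro _ ⟨_, ⟨x, hx, y, hy, rfl⟩, rfl⟩
  rw [SetLike.mem_coe]
  simp only
  rw [map_mul]
  apply mul_mem_prodSpan
  · rw [mem_homogeneousSubmodule]
    exact IsHomogeneous.map ((mem_homogeneousSubmodule _ _).mp hx) _
  · exact Submodule.subset_span ⟨y, hy, rfl⟩

end BaseChange

end Pool.Agent.H21

end
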