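import Pool.Agent.H94.LP7.M49
import Pool.Agent.H94.LP7.M95
import Pool.Agent.H94.LP7.M96

/-! The parts of this file: H21.SuperFinal, H21.Threshold, H21.Upper, H21.XF.Strict, H21.XF.Quad. -/

section

/-!
The supercritical theorem.
-/

set_option linter.unusedSectionVars false

namespace Pool.Agent.H21

open scoped Classical
open MvPolynomial Filter Topology

lemma continuous_hh (d i : ℕ) : Continuous (fun c : ℝ => expCoeff d i c) := by
  unfold expCoeff
  fun_prop

lemma hh_cast (d i : ℕ) (c : ℚ) : ((expCoeff d i c : ℚ) : ℝ) = expCoeff d i (c : ℝ) := by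
  unfold expCoeff
  push_cast
  rfl

lemma pos_of_hh_neg {d i : ℕ} {c : ℝ} (h : expCoeff d i c < 0) : 0 < c := by
  by_contra hc
  push Not at hc
  have h1 : 0 ≤ expCoeff d i c := by
    unfold expCoeff
    apply Finset.sum_nonneg
    intro k _
    have : 0 ≤ -c := by linarith
    positivity
  linarith

/-- A rational point slightly to the left where some coefficient is still negative. -/
lemma exists_rat_left {d i : ℕ} {c : ℝ} (h : expCoeff d i c < 0) :
    ∃ c₁ ε : ℚ, 0 ≤ c₁ ∧ 0 < ε ∧ ((c₁ + ε : ℚ) : ℝ) ≤ c ∧ expCoeff d i c₁ < 0 := by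
  have hc := pos_of_hh_neg h
  have h1 : ∀ᶠ x in 𝓝 c, expCoeff d i x < 0 :=
    (continuous_hh d i).continuousAt.eventually_lt continuousAt_const h
  obtain ⟨δ, hδ, h2⟩ := Metric.eventually_nhds_iff.mp h1
  obtain ⟨c₁, h3, h4⟩ := exists_rat_btwn (show max (c - δ) 0 < c by
    rw [max_lt_iff]; constructor <;> linarith)
  obtain ⟨ε, h5, h6⟩ := exists_rat_btwn (show (0 : ℝ) < c - c₁ by linarith)
  rw [max_lt_iff] at h3
  refine ⟨c₁, ε, ?_, ?_, ?_, ?_⟩
  · have := h3.2.le
    exact_mod_cast this
  · exact_mod_cast h5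
  · push_cast
    linarith
  · have h7 : expCoeff d i (c₁ : ℝ) < 0 := by
      apply h2
      rw [Real.dist_eq, abs_lt]
      constructor <;> linarith [h3.1]
    rw [← hh_cast] at h7
    exact_mod_cast h7

theorem super_exists (d D : ℕ) (hd : 2 ≤ d) (c : ℝ) (h : ∃ i ≤ D, expCoeff d i c < 0) :
    ∃ n₀ : ℕ, ∀ n : ℕ, n₀ ≤ n → ∃ V : Submodule ℚ (MvPolynomial (Fin n) ℚ),
      V ≤ homogeneousSubmodule (Fin n) ℚ d ∧
      ((Module.finrank ℚ V : ℕ) : ℝ) ≤ c * (n : ℝ) ^ d ∧
      homogeneousSubmodule (Fin n) ℚ D ≤ prodSpan (D - d) V := by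
  obtain ⟨i, hi, hneg⟩ := h
  obtain ⟨c₁, ε, hc₁, hε, hcε, hneg₁⟩ := exists_rat_left hneg
  set v : ℚ := (d.factorial : ℚ) * c₁ with hvdef
  have hdf : (d.factorial : ℚ) ≠ 0 := by exact_mod_cast d.factorial_ne_zero
  have hv : 0 ≤ v := by positivity
  have hvd : v / (d.factorial : ℚ) = c₁ := by
    rw [hvdef]; field_simp
  have hex : ∃ i, ee ℚ d v i ≤ 0 := by
    refine ⟨i, ?_⟩
    unfold ee
    rw [hvd]
    have : (0 : ℚ) < (i.factorial : ℚ) := by positivity
    nlinarith
  have hiD : Nat.find hex ≤ D := by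
    refine (Nat.find_min' hex ?_).trans hi
    unfold ee
    rw [hvd]
    have : (0 : ℚ) < (i.factorial : ℚ) := by positivity
    nlinarith
  have hD₁ := Nat.find_spec hex
  have hmin : ∀ m < Nat.find hex, 0 < ee ℚ d v m := by
    intro m hm
    have := Nat.find_min hex hm
    push Not at this
    exact this
  set D₁ := Nat.find hex with hD₁def
  obtain ⟨D₂, hD₂⟩ : ∃ D₂, D₁ = D₂ + 1 := by
    refine ⟨D₁ - 1, ?_⟩
    rcases Nat.eq_zero_or_pos D₁ with h0 | h0
    · rw [h0, ee_zero] at hD₁
      linarith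
    · omega
  have hdD : d ≤ D₁ := by
    by_contra hlt
    push Not at hlt
    have h1 := ee_succ d (by omega) v D₂
    rw [Nat.choose_eq_zero_of_lt (by omega)] at h1
    have h2 := hmin D₂ (by omega)
    rw [hD₂, h1] at hD₁
    push_cast at hD₁
    linarith
  have hR : ∀ (k : ℕ) (X : Finset (Fin k)), X.card = D₁ → Reach ℚ (wA d v X) 0 := by
    intro k X hX
    exact reach_wA_super d (by omega) v hv (ee ℚ d v) (ee_zero d v) (ee_succ d (by omega) v)
      D₂ X (by rw [hX, hD₂]) (fun i hi => hmin i (by omega)) (by rw [← hD₂]; exact hD₁)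
  obtain ⟨n₀, hn₀⟩ := asym_exists (K := ℚ) d D₁ hd hdD v 0 hv le_rfl hR ε hε
  refine ⟨n₀, fun n hn => ?_⟩
  obtain ⟨V, hV1, hV2, hV3⟩ := hn₀ n hn
  refine ⟨V, hV1, ?_, ?_⟩
  · rw [hvd] at hV2
    have h1 : ((Module.finrank ℚ V : ℕ) : ℝ) ≤ ((c₁ + ε : ℚ) : ℝ) * (n : ℝ) ^ d := by
      exact_mod_cast hV2
    refine h1.trans ?_
    exact mul_le_mul_of_nonneg_right hcε (by positivity)
  · apply prodSpan_full hdD hiD
    have h2 : prodSpan (D₁ - d) V ≤ homogeneousSubmodule (Fin n) ℚ D₁ := by
      have := prodSpan_le (e := D₁ - d) hV1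
      rwa [Nat.sub_add_cancel hdD] at this
    have h3 : prodSpan (D₁ - d) V = homogeneousSubmodule (Fin n) ℚ D₁ := by
      apply Submodule.eq_of_le_of_finrank_le h2
      rw [zero_div, zero_mul, add_zero] at hV3
      exact_mod_cast hV3
    rw [h3]

/-- Some coefficient of the Fröberg series is negative in the supercritical range. -/
theorem exists_fc_neg (d D : ℕ) (hd : 1 ≤ d) (c : ℝ) (h : ∃ i ≤ D, expCoeff d i c < 0) :
    ∃ n₀ : ℕ, ∀ n : ℕ, n₀ ≤ n → ∀ u : ℕ, c * (n : ℝ) ^ d ≤ (u : ℝ) →
      ∃ m ≤ D, serCoeff n d u m < 0 := by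
  obtain ⟨i, hi, hneg⟩ := h
  have hc := pos_of_hh_neg hneg
  have hlim : Tendsto (fun n : ℕ => ((⌈c * (n : ℝ) ^ d⌉₊ : ℕ) : ℝ) / (n : ℝ) ^ d) atTop (𝓝 c) := by
    have h1 : Tendsto (fun n : ℕ => (n : ℝ) ^ d) atTop atTop :=
      (tendsto_pow_atTop (by omega)).comp tendsto_natCast_atTop_atTop
    have h2 := (tendsto_nat_ceil_mul_div_atTop (R := ℝ) hc.le).comp h1
    exact h2
  have h3 := tendsto_fc (n := fun n : ℕ => n) tendsto_id hd hlim i
  have h4 : ∀ᶠ n : ℕ in atTop, (serCoeff n d ⌈c * (n : ℝ) ^ d⌉₊ i : ℝ) / (n : ℝ) ^ i < 0 :=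
    h3.eventually_lt tendsto_const_nhds hneg
  obtain ⟨n₀, hn₀⟩ := eventually_atTop.mp h4
  refine ⟨n₀, fun n hn u hu => ?_⟩
  by_contra hcon
  push Not at hcon
  have h5 : ⌈c * (n : ℝ) ^ d⌉₊ ≤ u := Nat.ceil_le.mpr hu
  have h6 := fc_nonneg_of_le n d D hd _ u h5 hcon i hi
  have h7 := hn₀ n hn
  have h8 : (0 : ℝ) ≤ (serCoeff n d ⌈c * (n : ℝ) ^ d⌉₊ i : ℝ) / (n : ℝ) ^ i := by
    have : (0 : ℝ) ≤ (serCoeff n d ⌈c * (n : ℝ) ^ d⌉₊ i : ℝ) := by exact_mod_cast h6
    positivity
  linarith

theorem super_main (d j : ℕ) (hd : 2 ≤ d) (c : ℝ) (h : ∃ i ≤ j + d, expCoeff d i c < 0) :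
    ∃ n₀ : ℕ, ∀ n : ℕ, n₀ ≤ n → ∀ u : ℕ, c * (n : ℝ) ^ d ≤ (u : ℝ) →
      (∃ m ≤ j + d, serCoeff n d u m < 0) ∧
      ∀ (K : Type) [Field K] [CharZero K],
        u ≤ Module.finrank K (homogeneousSubmodule (Fin n) K d) →
        ∃ V : Submodule K (MvPolynomial (Fin n) K), V ≤ homogeneousSubmodule (Fin n) K d ∧
          Module.finrank K V = u ∧ prodSpan j V = homogeneousSubmodule (Fin n) K (j + d) := by
  obtain ⟨n₁, h₁⟩ := super_exists d (j + d) hd c h
  obtain ⟨n₂, h₂⟩ := exists_fc_neg d (j + d) (by omega) c h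
  refine ⟨max n₁ n₂, fun n hn u hu => ⟨h₂ n ((le_max_right _ _).trans hn) u hu, ?_⟩⟩
  intro K _ _ huK
  obtain ⟨V₀, hV1, hV2, hV3⟩ := h₁ n ((le_max_left _ _).trans hn)
  have hfd : FiniteDimensional ℚ V₀ := Submodule.finiteDimensional_of_le hV1
  have h4 : Module.finrank K (bc (K := K) V₀) ≤ u := by
    refine (finrank_bc_le V₀).trans ?_
    have : ((Module.finrank ℚ V₀ : ℕ) : ℝ) ≤ (u : ℝ) := hV2.trans hu
    exact_mod_cast this
  obtain ⟨V, hVV, hVd, hVu⟩ := exists_extend (homogeneousSubmodule (Fin n) K d) u huK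
    (bc (K := K) V₀) (bc_le_homogeneous hV1) h4
  refine ⟨V, hVd, hVu, ?_⟩
  apply le_antisymm
  · exact prodSpan_le hVd
  · have h5 : j + d - d = j := by omega
    rw [h5] at hV3
    calc homogeneousSubmodule (Fin n) K (j + d) ≤
        bc (K := K) (homogeneousSubmodule (Fin n) ℚ (j + d)) := homogeneous_le_bc n (j + d)
      _ ≤ bc (K := K) (prodSpan j V₀) := bc_mono hV3
      _ ≤ prodSpan j (bc (K := K) V₀) := bc_prodSpan_le V₀
      _ ≤ prodSpan j V := prodSpan_mono hVV

end Pool.Agent.H21

end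

section

/-!
The thresholds of the asymptotic theorem.
-/

set_option linter.unusedSectionVars false

namespace Pool.Agent.H21

open scoped Classical
open Filter Topology

lemma expCoeff_small (d i : ℕ) (hi : i < d) (c : ℝ) : expCoeff d i c = 1 / (i.factorial : ℝ) := by
  unfold expCoeff
  rw [Nat.div_eq_of_lt hi]
  simp

lemma hasDerivAt_expCoeff (d i : ℕ) (hd : 1 ≤ d) (hi : d ≤ i) (x : ℝ) :
    HasDerivAt (fun x : ℝ => expCoeff d i x) (-expCoeff d (i - d) x) x := by
  unfold expCoeff
  have hterm : ∀ k ∈ Finset.range (i / d + 1), HasDerivAt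
      (fun x : ℝ => (-x) ^ k / ((k.factorial : ℝ) * ((i - d * k).factorial : ℝ)))
      (((k : ℝ) * (-x) ^ (k - 1) * (-1)) / ((k.factorial : ℝ) * ((i - d * k).factorial : ℝ))) x := by
    intro k _
    exact ((hasDerivAt_neg x).pow k).div_const _
  have h1 := HasDerivAt.fun_sum hterm
  refine h1.congr_deriv ?_
  have hdiv : i / d = (i - d) / d + 1 := by
    rw [← Nat.add_div_right _ (by omega : 0 < d), Nat.sub_add_cancel hi]
  rw [hdiv, Finset.sum_range_succ']
  have h0 : ((0 : ℕ) : ℝ) * (-x) ^ (0 - 1) * (-1) /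
      (((0 : ℕ).factorial : ℝ) * ((i - d * 0).factorial : ℝ)) = 0 := by simp
  rw [h0, add_zero, ← Finset.sum_neg_distrib]
  refine Finset.sum_congr rfl fun k _ => ?_
  have h2 : i - d * (k + 1) = i - d - d * k := by
    rw [mul_add, mul_one]
    omega
  rw [h2, Nat.factorial_succ, Nat.add_sub_cancel]
  have h3 : (k.factorial : ℝ) ≠ 0 := by exact_mod_cast k.factorial_ne_zero
  have h4 : ((i - d - d * k).factorial : ℝ) ≠ 0 := by
    exact_mod_cast (i - d - d * k).factorial_ne_zero
  have h5 : ((k : ℝ) + 1) ≠ 0 := by positivity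
  push_cast
  field_simp

lemma nonneg_below (d D : ℕ) (hd : 1 ≤ d) (c : ℝ) (h : ∀ i ≤ D, 0 ≤ expCoeff d i c) :
    ∀ i ≤ D, ∀ x, 0 ≤ x → x ≤ c → 0 ≤ expCoeff d i x := by
  intro i
  induction i using Nat.strong_induction_on with
  | _ i ih =>
    intro hi x hx hxc
    by_cases hid : i < d
    · rw [expCoeff_small d i hid]
      positivity
    · push Not at hid
      have hanti : AntitoneOn (fun y : ℝ => expCoeff d i y) (Set.Icc 0 c) := by
        apply antitoneOn_of_deriv_nonpos (convex_Icc 0 c) (continuous_hh d i).continuousOn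
        · intro y _
          exact (hasDerivAt_expCoeff d i hd hid y).differentiableAt.differentiableWithinAt
        · intro y hy
          rw [interior_Icc] at hy
          rw [(hasDerivAt_expCoeff d i hd hid y).deriv]
          have := ih (i - d) (by omega) (by omega) y hy.1.le hy.2.le
          linarith
      have h1 := hanti ⟨hx, hxc⟩ ⟨hx.trans hxc, le_rfl⟩ hxc
      exact (h i hi).trans h1

lemma neg_above (d D : ℕ) (hd : 1 ≤ d) (c c' : ℝ) (hcc : c ≤ c')
    (h : ∃ i ≤ D, expCoeff d i c < 0) : ∃ i ≤ D, expCoeff d i c' < 0 := by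
  by_contra hcon
  push Not at hcon
  obtain ⟨i, hi, hneg⟩ := h
  have h1 := nonneg_below d D hd c' hcon i hi c (pos_of_hh_neg hneg).le hcc
  linarith

lemma pos_below (d D : ℕ) (hd : 1 ≤ d) (c : ℝ)
    (h : ∀ i ≤ D, ∀ x, 0 ≤ x → x < c → 0 ≤ expCoeff d i x) :
    ∀ i ≤ D, ∀ x, 0 ≤ x → x < c → 0 < expCoeff d i x := by
  intro i
  induction i using Nat.strong_induction_on with
  | _ i ih =>
    intro hi x hx hxc
    by_cases hid : i < d
    · rw [expCoeff_small d i hid]
      positivity
    · push Not at hid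
      obtain ⟨y, hxy, hyc⟩ := exists_between hxc
      have hanti : StrictAntiOn (fun y : ℝ => expCoeff d i y) (Set.Icc x y) := by
        apply strictAntiOn_of_deriv_neg (convex_Icc x y) (continuous_hh d i).continuousOn
        intro z hz
        rw [interior_Icc] at hz
        rw [(hasDerivAt_expCoeff d i hd hid z).deriv]
        have := ih (i - d) (by omega) (by omega) z (hx.trans hz.1.le) (hz.2.trans hyc)
        linarith
      have h1 := hanti ⟨le_rfl, hxy.le⟩ ⟨hxy.le, le_rfl⟩ hxy
      have h2 := h i hi y (hx.trans hxy.le) hyc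
      simp only at h1
      linarith

/-- Every `c > 0` has a negative coefficient. -/
lemma exists_neg (d : ℕ) (hd : 2 ≤ d) (c : ℝ) (hc : 0 < c) : ∃ i, expCoeff d i c < 0 := by
  by_contra hcon
  push Not at hcon
  set h : ℕ → ℝ := fun i => expCoeff d i c with hh
  have hrec : ∀ i : ℕ, ((i : ℝ) + 1) * h (i + 1) =
      h i - c * (d : ℝ) * (if d ≤ i + 1 then h (i + 1 - d) else 0) := by
    intro i
    have := hh_succ d i (by omega) c
    push_cast at this
    exact this
  have hdec1 : ∀ i : ℕ, ((i : ℝ) + 1) * h (i + 1) ≤ h i := by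
    intro i
    rw [hrec i]
    have h1 : 0 ≤ (if d ≤ i + 1 then h (i + 1 - d) else 0) := by
      split_ifs
      · exact hcon _
      · exact le_rfl
    have h2 : 0 ≤ c * (d : ℝ) := by positivity
    nlinarith
  have hdec : ∀ i, h (i + 1) ≤ h i := by
    intro i
    have h1 := hdec1 i
    have h2 : 0 ≤ h (i + 1) := hcon _
    have h3 : (0 : ℝ) ≤ (i : ℝ) := Nat.cast_nonneg i
    nlinarith
  have hanti : Antitone h := antitone_nat_of_succ_le hdec
  -- the recursion solved for the early term
  have hearly : ∀ m : ℕ, c * (d : ℝ) * h m = h (m + d - 1) - ((m : ℝ) + d) * h (m + d) := by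
    intro m
    have h1 := hrec (m + d - 1)
    have h2 : m + d - 1 + 1 = m + d := by omega
    rw [h2, if_pos (Nat.le_add_left d m), Nat.add_sub_cancel] at h1
    have h3 : (((m + d - 1 : ℕ) : ℝ) + 1) = (m : ℝ) + d := by
      have : ((m + d - 1 : ℕ) : ℝ) + 1 = ((m + d - 1 + 1 : ℕ) : ℝ) := by push_cast; ring
      rw [this, h2]
      push_cast
      ring
    rw [h3] at h1
    linarith
  obtain ⟨M, hM⟩ := exists_nat_gt (1 / (c * d))
  have hcd : 0 < c * (d : ℝ) := by
    have : (0 : ℝ) < (d : ℝ) := by exact_mod_cast (by omega : 0 < d)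
    positivity
  have hzero : ∀ m, M ≤ m → h m = 0 := by
    intro m hm
    have h1 := hearly m
    have h2 : 0 ≤ h (m + d) := hcon _
    have h3 : h (m + d - 1) ≤ h (m + 1) := hanti (by omega)
    have h4 := hdec1 m
    have h5 : 0 ≤ h m := hcon _
    have h6 : (M : ℝ) ≤ (m : ℝ) := by exact_mod_cast hm
    rw [div_lt_iff₀ hcd] at hM
    have h7 : 1 < ((m : ℝ) + 1) * (c * d) := by nlinarith
    have h8 : c * d * h m ≤ h (m + 1) := by
      have h9 : 0 ≤ ((m : ℝ) + d) * h (m + d) := by positivity
      linarith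
    have h9 : ((m : ℝ) + 1) * (c * d * h m) ≤ h m := by
      have h10 : (0 : ℝ) ≤ (m : ℝ) + 1 := by positivity
      calc ((m : ℝ) + 1) * (c * d * h m) ≤ ((m : ℝ) + 1) * h (m + 1) :=
            mul_le_mul_of_nonneg_left h8 h10
        _ ≤ h m := h4
    by_contra hne
    have h10 : 0 < h m := lt_of_le_of_ne h5 (Ne.symm hne)
    nlinarith
  have hdown : ∀ k m, M ≤ m + k → h m = 0 := by
    intro k
    induction k with
    | zero => intro m hm; exact hzero m hm
    | succ k ih =>
      intro m hm
      have h1 := hearly m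
      rw [ih (m + d - 1) (by omega), ih (m + d) (by omega), mul_zero, sub_zero] at h1
      rcases mul_eq_zero.mp h1 with h2 | h2
      · linarith
      · exact h2
  have h0 := hdown M 0 (by omega)
  have h1 : h 0 = 1 := by
    rw [hh]
    exact hh_zero d c
  linarith

/-- The threshold: the infimum of the `γ` for which some coefficient of `exp (z - γ z^d)` in degree
at most `D` is negative. -/
noncomputable def asymThreshold (d D : ℕ) : ℝ := sInf {γ : ℝ | ∃ i ≤ D, expCoeff d i γ < 0}

lemma thr_bddBelow (d D : ℕ) : BddBelow {γ : ℝ | ∃ i ≤ D, expCoeff d i γ < 0} :=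
  ⟨0, fun _ ⟨_, _, h⟩ => (pos_of_hh_neg h).le⟩

lemma thr_nonempty (d D : ℕ) (hd : 2 ≤ d) (hD : d ≤ D) :
    {γ : ℝ | ∃ i ≤ D, expCoeff d i γ < 0}.Nonempty := by
  refine ⟨1, d, hD, ?_⟩
  have h1 : expCoeff d d (1 : ℝ) = 1 / (d.factorial : ℝ) - 1 := by
    unfold expCoeff
    rw [Nat.div_self (by omega), Finset.sum_range_succ, Finset.sum_range_one]
    simp
    ring
  rw [h1]
  have h2 : (1 : ℝ) < (d.factorial : ℝ) := by
    have : 1 < d.factorial := by
      have h3 := Nat.self_le_factorial d
      omega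
    exact_mod_cast this
  have h3 : 1 / (d.factorial : ℝ) < 1 := by
    rw [div_lt_one (by linarith)]
    exact h2
  linarith

lemma neg_of_thr_lt (d D : ℕ) (hd : 2 ≤ d) (hD : d ≤ D) (c : ℝ) (h : asymThreshold d D < c) :
    ∃ i ≤ D, expCoeff d i c < 0 := by
  obtain ⟨c', hc', hlt⟩ := exists_lt_of_csInf_lt (thr_nonempty d D hd hD) h
  exact neg_above d D (by omega) c' c hlt.le hc'

lemma pos_of_lt_thr (d D : ℕ) (hd : 1 ≤ d) (c : ℝ) (hc : 0 ≤ c) (h : c < asymThreshold d D) :
    ∀ i ≤ D, 0 < expCoeff d i c := by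
  intro i hi
  refine pos_below d D hd (asymThreshold d D) ?_ i hi c hc h
  intro i hi x _ hxc
  by_contra hcon
  push Not at hcon
  have : asymThreshold d D ≤ x := csInf_le (thr_bddBelow d D) ⟨i, hi, hcon⟩
  linarith

lemma thr_pos (d D : ℕ) (hd : 2 ≤ d) (hD : d ≤ D) : 0 < asymThreshold d D := by
  have h1 : ∀ᶠ x in 𝓝 (0 : ℝ), ∀ i ∈ Finset.range (D + 1), 0 < expCoeff d i x := by
    rw [Filter.eventually_all_finset]
    intro i _
    apply continuousAt_const.eventually_lt (continuous_hh d i).continuousAt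
    unfold expCoeff
    rw [Finset.sum_range_succ']
    simp only [neg_zero]
    have : ∑ k ∈ Finset.range (i / d), (0 : ℝ) ^ (k + 1) /
        (((k + 1).factorial : ℝ) * ((i - d * (k + 1)).factorial : ℝ)) = 0 := by
      apply Finset.sum_eq_zero
      intro k _
      simp
    rw [this]
    positivity
  obtain ⟨δ, hδ, h2⟩ := Metric.eventually_nhds_iff.mp h1
  have h3 : δ ≤ asymThreshold d D := by
    apply le_csInf (thr_nonempty d D hd hD)
    rintro x ⟨i, hi, hneg⟩
    by_contra hlt
    push Not at hlt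
    have hx := pos_of_hh_neg hneg
    have h4 := h2 (y := x) (by rw [Real.dist_eq, abs_lt]; constructor <;> linarith) i
      (Finset.mem_range.mpr (by omega))
    linarith
  linarith

/-- The thresholds tend to `0`. -/
lemma thr_small (d : ℕ) (hd : 2 ≤ d) (a : ℝ) (ha : 0 < a) :
    ∃ D, d ≤ D ∧ asymThreshold d D < a := by
  obtain ⟨i, hi⟩ := exists_neg d hd (a / 2) (by linarith)
  refine ⟨max d i, le_max_left _ _, ?_⟩
  have h1 : asymThreshold d (max d i) ≤ a / 2 :=
    csInf_le (thr_bddBelow d _) ⟨i, le_max_right _ _, hi⟩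
  linarith

end Pool.Agent.H21

end

section

/-!
The upper bound for the dimension of `S_e V`, for all `V`.
-/

set_option linter.unusedSectionVars false

namespace Pool.Agent.H21

open scoped Classical
open MvPolynomial

section General

variable {K : Type} [Field K] {n d : ℕ}

/-- The graded pieces of the ideal. -/
lemma Jr_eq_prodSpan {ι : Type} [Fintype ι] {f : ι → MvPolynomial (Fin n) K}
    (hf : ∀ l, (f l).IsHomogeneous d) (e : ℕ) :
    Jr f 1 (e + d) = prodSpan e (Submodule.span K (Set.range f)) := by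
  apply le_antisymm
  · intro g hg
    rw [mem_Jr, pow_one] at hg
    obtain ⟨c, hc⟩ := Ideal.mem_span_range_iff_exists_fun.mp hg.1
    have h1 : homogeneousComponent (e + d) g = g := by
      rw [homogeneousComponent_of_mem (m := e + d) (n := e + d)
        ((mem_homogeneousSubmodule _ _).mpr hg.2), if_pos rfl]
    rw [← h1, ← hc, map_sum]
    refine Submodule.sum_mem _ fun l _ => ?_
    rw [hc_mul _ (hf l)]
    exact mul_mem_prodSpan (homogeneousComponent_mem e _)
      (Submodule.subset_span (Set.mem_range_self l))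
  · unfold prodSpan
    rw [Submodule.span_le]
    rintro _ ⟨s, hs, v, hv, rfl⟩
    rw [SetLike.mem_coe, mem_Jr, pow_one]
    rw [SetLike.mem_coe] at hs hv
    have h2 : v ∈ (Submodule.restrictScalars K (Ideal.span (Set.range f))) ⊓
        homogeneousSubmodule (Fin n) K d := by
      refine (Submodule.span_le.mpr ?_) hv
      rintro _ ⟨l, rfl⟩
      exact ⟨Ideal.subset_span (Set.mem_range_self l), (mem_homogeneousSubmodule _ _).mpr (hf l)⟩
    rw [Submodule.mem_inf, Submodule.restrictScalars_mem, mem_homogeneousSubmodule] at h2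
    exact ⟨Ideal.mul_mem_left _ _ h2.1, ((mem_homogeneousSubmodule _ _).mp hs).mul h2.2⟩

variable {u : ℕ}

/-- Forms of degree `d`. -/
abbrev Fd (K : Type) [Field K] (n d : ℕ) : Type := ↥(homogeneousSubmodule (Fin n) K d)

/-- The part of degree `e + d` of the ideal generated by the first `k` forms. -/
noncomputable def PS (t : Fin u → Fd K n d) (k e : ℕ) : Submodule K (Fd K n (e + d)) :=
  Submodule.span K (Set.range fun x : {i : Fin u // i.1 < k} × Fd K n e =>
    (⟨x.2.1 * (t x.1.1).1, by
      rw [mem_homogeneousSubmodule]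
      exact ((mem_homogeneousSubmodule _ _).mp x.2.2).mul
        ((mem_homogeneousSubmodule _ _).mp (t x.1.1).2)⟩ : Fd K n (e + d)))

lemma map_PS (t : Fin u → Fd K n d) (k e : ℕ) :
    (PS t k e).map (homogeneousSubmodule (Fin n) K (e + d)).subtype =
      prodSpan e (Submodule.span K ((fun i => (t i).1) '' {i | i.1 < k})) := by
  unfold PS
  rw [Submodule.map_span]
  apply le_antisymm
  · rw [Submodule.span_le]
    rintro _ ⟨_, ⟨x, rfl⟩, rfl⟩
    exact mul_mem_prodSpan x.2.2 (Submodule.subset_span ⟨x.1.1, x.1.2, rfl⟩)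
  · unfold prodSpan
    rw [Submodule.span_le]
    rintro _ ⟨s, hs, v, hv, rfl⟩
    rw [SetLike.mem_coe] at hs hv ⊢
    simp only
    refine Submodule.span_induction ?_ ?_ ?_ ?_ hv
    · rintro _ ⟨i, hi, rfl⟩
      apply Submodule.subset_span
      exact ⟨_, ⟨(⟨i, hi⟩, ⟨s, hs⟩), rfl⟩, rfl⟩
    · rw [mul_zero]
      exact Submodule.zero_mem _
    · intro x y _ _ hx hy
      rw [mul_add]
      exact Submodule.add_mem _ hx hy
    · intro c x _ hx
      rw [mul_smul_comm]
      exact Submodule.smul_mem _ c hx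

lemma finrank_PS (t : Fin u → Fd K n d) (k e : ℕ) :
    Module.finrank K (PS t k e) = Module.finrank K
      (prodSpan e (Submodule.span K ((fun i => (t i).1) '' {i | i.1 < k}))) := by
  rw [← map_PS]
  exact (Submodule.equivMapOfInjective _ (Submodule.injective_subtype _) _).finrank_eq

/-- Codimension in degree `E` of the ideal generated by the first `k` forms. -/
noncomputable def cd (t : Fin u → Fd K n d) (k E : ℕ) : ℤ :=
  (Module.finrank K (Fd K n E) : ℤ) -
    (if d ≤ E then (Module.finrank K (prodSpan (E - d)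
      (Submodule.span K ((fun i => (t i).1) '' {i | i.1 < k}))) : ℤ) else 0)

lemma cd_step (t : Fin u → Fd K n d) (k : ℕ) (hk : k < u) (e : ℕ) :
    cd t k (e + d) - cd t k e ≤ cd t (k + 1) (e + d) := by
  set Vk := Submodule.span K ((fun i => (t i).1) '' {i : Fin u | i.1 < k}) with hVk
  set Vk1 := Submodule.span K ((fun i => (t i).1) '' {i : Fin u | i.1 < k + 1}) with hVk1
  set g := (t ⟨k, hk⟩).1 with hg
  have hgd : g.IsHomogeneous d := (mem_homogeneousSubmodule _ _).mp (t ⟨k, hk⟩).2
  have hVkd : Vk ≤ homogeneousSubmodule (Fin n) K d := by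
    rw [hVk, Submodule.span_le]
    rintro _ ⟨i, _, rfl⟩
    exact (t i).2
  let μ : MvPolynomial (Fin n) K →ₗ[K] MvPolynomial (Fin n) K := LinearMap.mulRight K g
  have hμ : ∀ s, μ s = s * g := fun s => rfl
  set J0 := prodSpan e Vk with hJ0
  have hfin0 : FiniteDimensional K J0 := Submodule.finiteDimensional_of_le (prodSpan_le hVkd)
  -- the elements of degree e already in the ideal
  set J' : Submodule K (MvPolynomial (Fin n) K) :=
    if d ≤ e then prodSpan (e - d) Vk else ⊥ with hJ'
  have hJ'le : J' ≤ homogeneousSubmodule (Fin n) K e := by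
    rw [hJ']
    split_ifs with h
    · have := prodSpan_le (e := e - d) hVkd
      rwa [Nat.sub_add_cancel h] at this
    · exact bot_le
  have hJ'map : J'.map μ ≤ J0 := by
    rw [hJ']
    split_ifs with h
    · rw [Submodule.map_le_iff_le_comap]
      conv_lhs => unfold prodSpan
      rw [Submodule.span_le]
      rintro _ ⟨s, hs, v, hv, rfl⟩
      rw [SetLike.mem_coe] at hs hv
      rw [SetLike.mem_coe, Submodule.mem_comap, hμ]
      have h1 : s * v * g = (s * g) * v := by ring
      simp only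
      rw [h1]
      apply mul_mem_prodSpan _ hv
      rw [mem_homogeneousSubmodule]
      have h2 := ((mem_homogeneousSubmodule _ _).mp hs).mul hgd
      rwa [Nat.sub_add_cancel h] at h2
    · rw [Submodule.map_bot]
      exact bot_le
  have hle : prodSpan e Vk1 ≤ J0 ⊔ (homogeneousSubmodule (Fin n) K e).map μ := by
    conv_lhs => unfold prodSpan
    rw [Submodule.span_le]
    rintro _ ⟨s, hs, v, hv, rfl⟩
    rw [SetLike.mem_coe] at hs hv ⊢
    simp only
    refine Submodule.span_induction ?_ ?_ ?_ ?_ hv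
    · rintro _ ⟨i, hi, rfl⟩
      change i.1 < k + 1 at hi
      by_cases hik : i.1 < k
      · exact Submodule.mem_sup_left (mul_mem_prodSpan hs (Submodule.subset_span ⟨i, hik, rfl⟩))
      · have hi' : i = ⟨k, hk⟩ := Fin.ext (by simp only; omega)
        rw [hi']
        exact Submodule.mem_sup_right ⟨s, hs, rfl⟩
    · rw [mul_zero]
      exact Submodule.zero_mem _
    · intro x y _ _ hx hy
      rw [mul_add]
      exact Submodule.add_mem _ hx hy
    · intro c x _ hx
      rw [mul_smul_comm]
      exact Submodule.smul_mem _ c hx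
  -- dimension count
  have hfinS : FiniteDimensional K ↥((homogeneousSubmodule (Fin n) K e).map μ) := inferInstance
  have h3 : Module.finrank K (prodSpan e Vk1) + Module.finrank K J' ≤
      Module.finrank K J0 + Module.finrank K (homogeneousSubmodule (Fin n) K e) := by
    have h4 := Submodule.finrank_mono hle
    have h5 := finrank_map_add_ker J0.mkQ (J0 ⊔ (homogeneousSubmodule (Fin n) K e).map μ)
    rw [Submodule.ker_mkQ, inf_eq_right.mpr le_sup_left, Submodule.map_sup,
      Submodule.mkQ_map_self, bot_sup_eq, ← Submodule.map_comp] at h5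
    have h6 := finrank_map_add_ker (J0.mkQ ∘ₗ μ) (homogeneousSubmodule (Fin n) K e)
    have h7 : J' ≤ homogeneousSubmodule (Fin n) K e ⊓ LinearMap.ker (J0.mkQ ∘ₗ μ) := by
      refine le_inf hJ'le ?_
      intro φ hφ
      rw [LinearMap.mem_ker, LinearMap.comp_apply, Submodule.mkQ_apply,
        Submodule.Quotient.mk_eq_zero]
      exact hJ'map ⟨φ, hφ, rfl⟩
    have hfin7 : FiniteDimensional K
        ↥(homogeneousSubmodule (Fin n) K e ⊓ LinearMap.ker (J0.mkQ ∘ₗ μ)) :=
      Submodule.finiteDimensional_of_le inf_le_left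
    have h8 := Submodule.finrank_mono h7
    omega
  have h9 : (if d ≤ e then (Module.finrank K (prodSpan (e - d) Vk) : ℤ) else 0) =
      (Module.finrank K J' : ℤ) := by
    by_cases h : d ≤ e
    · have h10 : J' = prodSpan (e - d) Vk := by rw [hJ', if_pos h]
      rw [if_pos h, h10]
    · have h10 : J' = ⊥ := by rw [hJ', if_neg h]
      rw [if_neg h, h10]
      simp
  unfold cd
  rw [← hVk, ← hVk1, if_pos (Nat.le_add_left d e), if_pos (Nat.le_add_left d e),
    Nat.add_sub_cancel, h9]
  have h10 : (Module.finrank K (prodSpan e Vk1) : ℤ) + (Module.finrank K J' : ℤ) ≤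
      (Module.finrank K J0 : ℤ) + (Module.finrank K (homogeneousSubmodule (Fin n) K e) : ℤ) := by
    exact_mod_cast h3
  linarith

lemma cd_small (t : Fin u → Fd K n d) (k E : ℕ) (hE : E < d) :
    cd t k E = (Module.finrank K (Fd K n E) : ℤ) := by
  unfold cd
  rw [if_neg (by omega), sub_zero]

lemma cd_zero (t : Fin u → Fd K n d) (E : ℕ) :
    cd t 0 E = (Module.finrank K (Fd K n E) : ℤ) := by
  unfold cd
  have h1 : (fun i => (t i).1) '' {i : Fin u | i.1 < 0} = ∅ := by
    rw [Set.image_eq_empty]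
    ext i
    simp
  have h2 : prodSpan (E - d) (Submodule.span K (∅ : Set (MvPolynomial (Fin n) K))) = ⊥ := by
    unfold prodSpan
    rw [Submodule.span_empty, Submodule.span_eq_bot]
    rintro _ ⟨s, _, v, hv, rfl⟩
    rw [SetLike.mem_coe, Submodule.mem_bot] at hv
    simp only
    rw [hv, mul_zero]
  rw [h1, h2]
  simp

lemma finrank_Fd (hn : 0 < n) (E : ℕ) :
    (Module.finrank K (Fd K n E) : ℤ) = serCoeff n d 0 E := by
  rw [finrank_forms, fc_zero, Fintype.card_fin]
  have h4 : (n + E - 1) = n - 1 + E := by omega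
  rw [h4]
  have h5 := Nat.choose_symm_add (a := n - 1) (b := E)
  rw [h5]

lemma ser_small (hd : 1 ≤ d) (E : ℕ) (hE : E < d) : ∀ k, serCoeff n d k E = serCoeff n d 0 E := by
  intro k
  induction k with
  | zero => rfl
  | succ k ih => rw [fc_succ n d k E hd, if_neg (by omega), ih, sub_zero]

/-- If every prefix is at least as good as predicted then it is exactly as predicted. -/
lemma cd_eq (hn : 0 < n) (hd : 1 ≤ d) (D : ℕ) (t : Fin u → Fd K n d)
    (h : ∀ k ≤ u, ∀ e, e + d ≤ D → cd t k (e + d) ≤ serCoeff n d k (e + d)) :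
    ∀ k ≤ u, ∀ E ≤ D, cd t k E = serCoeff n d k E := by
  intro k
  induction k with
  | zero =>
    intro _ E _
    rw [cd_zero, finrank_Fd hn]
  | succ k ih =>
    intro hk E hE
    by_cases hEd : E < d
    · rw [cd_small _ _ _ hEd, ser_small hd E hEd, finrank_Fd hn]
    · push Not at hEd
      obtain ⟨e, rfl⟩ : ∃ e, E = e + d := ⟨E - d, by omega⟩
      refine le_antisymm (h (k + 1) hk e hE) ?_
      have h1 := cd_step t k (by omega) e
      rw [ih (by omega) _ hE, ih (by omega) e (by omega)] at h1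
      rw [fc_succ n d k _ hd, if_pos (Nat.le_add_left d e), Nat.add_sub_cancel]
      exact h1

/-- The upper bound. -/
theorem upper_bound [Infinite K] (hn : 0 < n) (hd : 1 ≤ d) (D : ℕ)
    (hex : ∀ k ≤ u, ∃ f : Fin k → Fd K n d, ∀ e, e + d ≤ D →
      cd f k (e + d) ≤ serCoeff n d k (e + d)) (g : Fin u → Fd K n d) (e₀ : ℕ)
    (he₀ : e₀ + d ≤ D) :
    serCoeff n d u (e₀ + d) ≤ cd g u (e₀ + d) ∧ ∀ E ≤ D, 0 ≤ serCoeff n d u E := by
  let r : ℕ → ℕ → ℕ := fun k e =>
    ((Module.finrank K (Fd K n (e + d)) : ℤ) - serCoeff n d k (e + d)).toNat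
  -- the list of conditions
  let S : Finset (ℕ × ℕ × ℕ) :=
    insert (u, e₀, Module.finrank K (PS g u e₀))
      (((Finset.range (u + 1)) ×ˢ (Finset.range (D + 1))).image
        (fun x => (x.1, x.2, if x.2 + d ≤ D then r x.1 x.2 else 0)))
  obtain ⟨h, _, hS⟩ := exists_simultaneous (K := K) (P := Fin u → Fd K n d) Set.univ
    (fun _ _ _ _ _ => Set.mem_univ _) Set.univ_nonempty S
    (fun p => Fd K n (p.2.1 + d)) (fun p => {i : Fin u // i.1 < p.1} × Fd K n p.2.1)
    (fun p t x => (⟨x.2.1 * (t x.1.1).1, by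
      rw [mem_homogeneousSubmodule]
      exact ((mem_homogeneousSubmodule _ _).mp x.2.2).mul
        ((mem_homogeneousSubmodule _ _).mp (t x.1.1).2)⟩ : Fd K n (p.2.1 + d)))
    (by
      intro p t t' c x
      apply Subtype.ext
      simp only [Pi.add_apply, Pi.smul_apply, Pi.sub_apply, Submodule.coe_add,
        Submodule.coe_smul, Submodule.coe_sub, mul_add, mul_smul_comm, mul_sub])
    (fun p => p.2.2)
    (by
      intro p hp
      rw [Finset.mem_insert, Finset.mem_image] at hp
      rcases hp with rfl | ⟨⟨k, e⟩, hke, rfl⟩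
      · exact ⟨g, Set.mem_univ _, le_rfl⟩
      · rw [Finset.mem_product, Finset.mem_range, Finset.mem_range] at hke
        simp only at hke ⊢
        by_cases he : e + d ≤ D
        · rw [if_pos he]
          obtain ⟨f, hf⟩ := hex k (by omega)
          have h1 := hf e he
          refine ⟨fun i => if hi : i.1 < k then f ⟨i.1, hi⟩ else 0, Set.mem_univ _, ?_⟩
          simp only [r]
          rw [Int.toNat_le]
          unfold cd at h1
          rw [if_pos (Nat.le_add_left d e), Nat.add_sub_cancel] at h1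
          have h2 := finrank_PS (fun i : Fin u => if hi : i.1 < k then f ⟨i.1, hi⟩ else 0) k e
          unfold PS at h2
          rw [h2]
          have h3 : (fun i : Fin u => (if hi : i.1 < k then f ⟨i.1, hi⟩ else 0 :
              Fd K n d).1) '' {i : Fin u | i.1 < k} = (fun i => (f i).1) '' {i : Fin k | i.1 < k} := by
            ext q
            constructor
            · rintro ⟨i, hi, rfl⟩
              change i.1 < k at hi
              refine ⟨⟨i.1, hi⟩, hi, ?_⟩
              simp only
              rw [dif_pos hi]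
            · rintro ⟨i, hi, rfl⟩
              change i.1 < k at hi
              refine ⟨⟨i.1, by omega⟩, hi, ?_⟩
              simp only
              rw [dif_pos hi]
          rw [h3]
          linarith
        · rw [if_neg he]
          exact ⟨g, Set.mem_univ _, Nat.zero_le _⟩)
  -- consequences
  have hcond : ∀ k ≤ u, ∀ e, e + d ≤ D → cd h k (e + d) ≤ serCoeff n d k (e + d) := by
    intro k hk e he
    have h1 := hS (k, e, if e + d ≤ D then r k e else 0) (Finset.mem_insert_of_mem
      (Finset.mem_image.mpr ⟨(k, e), Finset.mem_product.mpr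
        ⟨Finset.mem_range.mpr (by simp only; omega), Finset.mem_range.mpr (by simp only; omega)⟩,
        rfl⟩))
    simp only at h1
    rw [if_pos he] at h1
    have h2 := finrank_PS h k e
    unfold PS at h2
    rw [h2] at h1
    simp only [r] at h1
    rw [Int.toNat_le] at h1
    unfold cd
    rw [if_pos (Nat.le_add_left d e), Nat.add_sub_cancel]
    linarith
  have heq := cd_eq hn hd D h hcond
  have hge : Module.finrank K (PS g u e₀) ≤ Module.finrank K (PS h u e₀) :=
    hS (u, e₀, Module.finrank K (PS g u e₀)) (Finset.mem_insert_self _ _)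
  constructor
  · rw [← heq u le_rfl _ he₀]
    unfold cd
    rw [if_pos (Nat.le_add_left d e₀), if_pos (Nat.le_add_left d e₀), Nat.add_sub_cancel,
      ← finrank_PS, ← finrank_PS]
    have : (Module.finrank K (PS g u e₀) : ℤ) ≤ (Module.finrank K (PS h u e₀) : ℤ) := by
      exact_mod_cast hge
    linarith
  · intro E hE
    rw [← heq u le_rfl E hE]
    by_cases hEd : E < d
    · rw [cd_small _ _ _ hEd]
      positivity
    · push Not at hEd
      obtain ⟨e, rfl⟩ : ∃ e, E = e + d := ⟨E - d, by omega⟩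
      unfold cd
      rw [if_pos (Nat.le_add_left d e), Nat.add_sub_cancel, ← finrank_PS]
      have h1 : Module.finrank K (PS h u e) ≤ Module.finrank K (Fd K n (e + d)) :=
        Submodule.finrank_le _
      have h2 : (Module.finrank K (PS h u e) : ℤ) ≤ (Module.finrank K (Fd K n (e + d)) : ℤ) := by
        exact_mod_cast h1
      linarith

end General

end Pool.Agent.H21

end

section

/-!
# XF, module 6: the limit functions near the threshold

At `t = asymThreshold d D`: `h_i > 0` for `i < D` and `h_D = 0`.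
-/

set_option autoImplicit false

namespace Pool.Agent.H21.XF

open Pool.Agent.H21 Filter Topology

theorem thr_nonneg_at (d D : ℕ) (hd : 2 ≤ d) (hD : d ≤ D) :
    ∀ i ≤ D, 0 ≤ expCoeff d i (asymThreshold d D) := by
  intro i hi
  by_contra hcon
  push Not at hcon
  have ht := thr_pos d D hd hD
  have h1 : ∀ᶠ x in 𝓝 (asymThreshold d D), expCoeff d i x < 0 :=
    (continuous_hh d i).continuousAt.eventually_lt continuousAt_const hcon
  obtain ⟨δ, hδ, h2⟩ := Metric.eventually_nhds_iff.mp h1
  have h3 := h2 (y := max 0 (asymThreshold d D - δ / 2)) (by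
    rw [Real.dist_eq, abs_lt]
    constructor
    · have := le_max_right 0 (asymThreshold d D - δ / 2)
      linarith
    · have : max 0 (asymThreshold d D - δ / 2) < asymThreshold d D + δ :=
        max_lt (by linarith) (by linarith)
      linarith)
  have h4 := pos_of_lt_thr d D (by omega) (max 0 (asymThreshold d D - δ / 2)) (le_max_left _ _)
    (max_lt ht (by linarith)) i hi
  linarith

theorem thr_pos_at (d D : ℕ) (hd : 2 ≤ d) (hD : d ≤ D) :
    ∀ i < D, 0 < expCoeff d i (asymThreshold d D) := by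
  have hnn := thr_nonneg_at d D hd hD
  have ht := thr_pos d D hd hD
  intro i
  induction i using Nat.strong_induction_on with
  | _ i ih =>
    intro hi
    by_contra hcon
    push Not at hcon
    have h0 : expCoeff d i (asymThreshold d D) = 0 := le_antisymm hcon (hnn i hi.le)
    have hid : d ≤ i := by
      by_contra hlt
      push Not at hlt
      rw [expCoeff_small d i hlt] at h0
      have : (0 : ℝ) < 1 / (i.factorial : ℝ) := by positivity
      linarith
    have h1 := hh_succ d i (by omega) (asymThreshold d D)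
    rw [h0, if_pos (by omega)] at h1
    have h2 := ih (i + 1 - d) (by omega) (by omega)
    have h3 := hnn (i + 1) (by omega)
    have h4 : (0 : ℝ) < asymThreshold d D * d * expCoeff d (i + 1 - d) (asymThreshold d D) := by
      have : (0 : ℝ) < d := by exact_mod_cast (by omega : 0 < d)
      positivity
    have h5 : (0 : ℝ) ≤ ((i + 1 : ℕ) : ℝ) * expCoeff d (i + 1) (asymThreshold d D) := by
      positivity
    linarith

theorem thr_zero_at (d D : ℕ) (hd : 2 ≤ d) (hD : d ≤ D) : expCoeff d D (asymThreshold d D) = 0 := by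
  refine le_antisymm ?_ (thr_nonneg_at d D hd hD D le_rfl)
  by_contra hcon
  push Not at hcon
  have h1 : ∀ᶠ x in 𝓝 (asymThreshold d D), ∀ i ∈ Finset.range (D + 1), 0 < expCoeff d i x := by
    rw [Filter.eventually_all_finset]
    intro i hi
    rw [Finset.mem_range] at hi
    apply continuousAt_const.eventually_lt (continuous_hh d i).continuousAt
    rcases lt_or_eq_of_le (by omega : i ≤ D) with h | rfl
    · exact thr_pos_at d D hd hD i h
    · exact hcon
  obtain ⟨δ, hδ, h2⟩ := Metric.eventually_nhds_iff.mp h1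
  obtain ⟨i, hi, hneg⟩ := neg_of_thr_lt d D hd hD (asymThreshold d D + δ / 2) (by linarith)
  have h3 := h2 (y := asymThreshold d D + δ / 2) (by
    rw [Real.dist_eq, abs_lt]
    constructor <;> linarith) i (Finset.mem_range.mpr (by omega))
  linarith

/-- Uniform positivity in the degrees `< D` on an interval which contains the threshold. -/
theorem unif_pos (d D : ℕ) (hd : 2 ≤ d) (hD : d ≤ D) : ∃ δ η : ℝ, 0 < δ ∧ 0 < η ∧
    ∀ i < D, ∀ g, 0 ≤ g → g ≤ asymThreshold d D + δ → η ≤ expCoeff d i g := by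
  have ht := thr_pos d D hd hD
  have hone : ∀ i < D, ∃ δ η : ℝ, 0 < δ ∧ 0 < η ∧
      ∀ g, 0 ≤ g → g ≤ asymThreshold d D + δ → η ≤ expCoeff d i g := by
    intro i hi
    have hp := thr_pos_at d D hd hD i hi
    obtain ⟨x, hx, hmin⟩ := isCompact_Icc.exists_isMinOn (s := Set.Icc 0 (asymThreshold d D))
      (Set.nonempty_Icc.2 ht.le) (continuous_hh d i).continuousOn
    have hx0 : 0 < expCoeff d i x := by
      rcases lt_or_eq_of_le hx.2 with h | h
      · exact pos_of_lt_thr d D (by omega) x hx.1 h i hi.le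
      · rw [h]
        exact hp
    have h1 : ∀ᶠ y in 𝓝 (asymThreshold d D),
        expCoeff d i (asymThreshold d D) / 2 < expCoeff d i y :=
      continuousAt_const.eventually_lt (continuous_hh d i).continuousAt (by linarith)
    obtain ⟨δ, hδ, h2⟩ := Metric.eventually_nhds_iff.mp h1
    refine ⟨δ / 2, min (expCoeff d i x) (expCoeff d i (asymThreshold d D) / 2), by linarith,
      lt_min hx0 (by linarith), fun g hg hg' => ?_⟩
    rcases le_or_gt g (asymThreshold d D) with h | h
    · exact (min_le_left _ _).trans (hmin ⟨hg, h⟩)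
    · refine (min_le_right _ _).trans (h2 ?_).le
      rw [Real.dist_eq, abs_lt]
      constructor <;> linarith
  have key : ∀ m, m ≤ D → ∃ δ η : ℝ, 0 < δ ∧ 0 < η ∧
      ∀ i < m, ∀ g, 0 ≤ g → g ≤ asymThreshold d D + δ → η ≤ expCoeff d i g := by
    intro m
    induction m with
    | zero => exact fun _ => ⟨1, 1, one_pos, one_pos, fun i hi => absurd hi (Nat.not_lt_zero i)⟩
    | succ m ih =>
      intro hm
      obtain ⟨δ, η, hδ, hη, h⟩ := ih (by omega)
      obtain ⟨δ', η', hδ', hη', h'⟩ := hone m (by omega)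
      refine ⟨min δ δ', min η η', lt_min hδ hδ', lt_min hη hη', fun i hi g hg hg' => ?_⟩
      have h1 := min_le_left δ δ'
      have h2 := min_le_right δ δ'
      rcases lt_or_eq_of_le (by omega : i ≤ m) with h3 | rfl
      · exact (min_le_left _ _).trans (h i h3 g hg (by linarith))
      · exact (min_le_right _ _).trans (h' g hg (by linarith))
  exact key D le_rfl

/-- The function in degree `D` on both sides of the threshold. -/
theorem slope (d D : ℕ) (hd : 2 ≤ d) (hD : d ≤ D) {δ η : ℝ} (hδ : 0 < δ)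
    (h : ∀ i < D, ∀ g, 0 ≤ g → g ≤ asymThreshold d D + δ → η ≤ expCoeff d i g) :
    (∀ g, 0 ≤ g → g ≤ asymThreshold d D → η * (asymThreshold d D - g) ≤ expCoeff d D g) ∧
    (∀ g, asymThreshold d D ≤ g → g ≤ asymThreshold d D + δ →
      expCoeff d D g ≤ -(η * (g - asymThreshold d D))) := by
  have ht := thr_pos d D hd hD
  have hanti : AntitoneOn (fun y : ℝ => expCoeff d D y + η * y)
      (Set.Icc 0 (asymThreshold d D + δ)) := by
    have hder : ∀ y, HasDerivAt (fun y : ℝ => expCoeff d D y + η * y)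
        (-expCoeff d (D - d) y + η * 1) y := fun y =>
      (hasDerivAt_expCoeff d D (by omega) hD y).add ((hasDerivAt_id y).const_mul η)
    apply antitoneOn_of_deriv_nonpos (convex_Icc _ _)
    · exact ((continuous_hh d D).add (continuous_const.mul continuous_id)).continuousOn
    · intro y _
      exact (hder y).differentiableAt.differentiableWithinAt
    · intro y hy
      rw [interior_Icc] at hy
      rw [(hder y).deriv]
      have := h (D - d) (by omega) y hy.1.le hy.2.le
      linarith
  have h0 := thr_zero_at d D hd hD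
  constructor
  · intro g hg hg'
    have h1 := hanti ⟨hg, by linarith⟩ ⟨ht.le, by linarith⟩ hg'
    simp only at h1
    rw [h0] at h1
    linarith
  · intro g hg hg'
    have h1 := hanti ⟨ht.le, by linarith⟩ ⟨by linarith, hg'⟩ hg
    simp only at h1
    rw [h0] at h1
    linarith

end Pool.Agent.H21.XF

end

section

/-!
# XF, module 9: quadrics in degree `4`

The squares of general linear forms are exact in degree `4`: `Pool.Agent.KQ.exact4` with all multiplicities
equal to `3`.
-/

set_option autoImplicit false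

namespace Pool.Agent.H21.XF

open MvPolynomial Pool.Agent.H18.Fat Pool.Agent.H21.HD Pool.Agent.H21 Pool.Agent.H21.NX Pool.Agent.XD
open scoped Classical

theorem fro_eq_A (e : ℕ → ℕ) (r t j : ℕ) :
    fro r (fun s : Fin t => e s) Finset.univ j = A e (r + 1) t j := by
  have h1 : (Finset.univ : Finset (Fin t)).map Fin.valEmbedding = Finset.range t := by
    ext x
    rw [Finset.mem_map, Finset.mem_range]
    constructor
    · rintro ⟨y, -, rfl⟩
      exact y.2
    · intro hx
      exact ⟨⟨x, hx⟩, Finset.mem_univ _, rfl⟩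
  have h2 := fro_map r (Fin.valEmbedding : Fin t ↪ ℕ) e Finset.univ j
  rw [h1, fro_range] at h2
  exact h2.symm

end Pool.Agent.H21.XF

end
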