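import Pool.Agent.H94.LP7.H21.Generic

/-! The parts of this file: H21.Fam, H21.Match, H21.Exact, H21.Merge, H21.Label. -/

section

/-!
Families of functions on `P → A`, each depending on few coordinates and supported in a box, and
the multilinear ideals they generate.
-/

set_option linter.unusedSectionVars false

namespace Pool.Agent.H21

open scoped Classical

/-- Rank-nullity for the restriction of a linear map to a subspace. -/
lemma finrank_inf_ker_add_map {K V W : Type*} [Field K] [AddCommGroup V] [Module K V]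
    [AddCommGroup W] [Module K W] (f : V →ₗ[K] W) (J : Submodule K V) [FiniteDimensional K J] :
    Module.finrank K (↥(J ⊓ LinearMap.ker f)) + Module.finrank K (↥(J.map f)) =
      Module.finrank K J := by
  have h1 := LinearMap.finrank_range_add_finrank_ker (f.domRestrict J)
  rw [LinearMap.range_domRestrict, LinearMap.ker_domRestrict] at h1
  have h2 := (Submodule.equivMapOfInjective J.subtype (Submodule.injective_subtype J)
    (Submodule.comap J.subtype (LinearMap.ker f))).finrank_eq
  rw [Submodule.map_comap_subtype] at h2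
  rw [← h2]
  omega

variable {K : Type*} [Field K] {P : Type*} [Fintype P] {A : Type*} [Fintype A]

variable (K) in
/-- Functions that depend only on the coordinates in `Q` and vanish off the box. -/
def MM (B : P → Finset A) (Q : Finset P) : Submodule K ((P → A) → K) where
  carrier := {φ | (∀ x y, (∀ p ∈ Q, x p = y p) → φ x = φ y) ∧
    ∀ x, (∃ p ∈ Q, x p ∉ B p) → φ x = 0}
  add_mem' := by
    intro f g hf hg
    refine ⟨fun x y h => ?_, fun x h => ?_⟩
    · simp only [Pi.add_apply]
      rw [hf.1 x y h, hg.1 x y h]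
    · simp only [Pi.add_apply]
      rw [hf.2 x h, hg.2 x h, add_zero]
  zero_mem' := ⟨fun _ _ _ => rfl, fun _ _ => rfl⟩
  smul_mem' := by
    intro c f hf
    refine ⟨fun x y h => ?_, fun x h => ?_⟩
    · simp only [Pi.smul_apply]
      rw [hf.1 x y h]
    · simp only [Pi.smul_apply]
      rw [hf.2 x h, smul_zero]

variable {B : P → Finset A}

lemma mem_MM {Q : Finset P} {φ : (P → A) → K} :
    φ ∈ MM K B Q ↔ (∀ x y, (∀ p ∈ Q, x p = y p) → φ x = φ y) ∧
    ∀ x, (∃ p ∈ Q, x p ∉ B p) → φ x = 0 := Iff.rfl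

lemma MM_congr {B' : P → Finset A} {Q : Finset P} (h : ∀ p ∈ Q, B p = B' p) :
    MM K B Q = MM K B' Q := by
  ext φ
  rw [mem_MM, mem_MM]
  apply and_congr_right
  intro _
  apply forall_congr'
  intro x
  have : (∃ p ∈ Q, x p ∉ B p) ↔ (∃ p ∈ Q, x p ∉ B' p) := by
    constructor
    · rintro ⟨p, hp, hx⟩; exact ⟨p, hp, by rwa [← h p hp]⟩
    · rintro ⟨p, hp, hx⟩; exact ⟨p, hp, by rwa [h p hp]⟩
  rw [this]

lemma MM_mul {Q Q' Q'' : Finset P} {f g : (P → A) → K} (hf : f ∈ MM K B Q)
    (hg : g ∈ MM K B Q') (h : Q ∪ Q' = Q'') : f * g ∈ MM K B Q'' := by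
  subst h
  refine ⟨fun x y hxy => ?_, fun x hx => ?_⟩
  · simp only [Pi.mul_apply]
    rw [hf.1 x y fun p hp => hxy p (Finset.mem_union_left _ hp),
      hg.1 x y fun p hp => hxy p (Finset.mem_union_right _ hp)]
  · simp only [Pi.mul_apply]
    obtain ⟨p, hp, hxp⟩ := hx
    rcases Finset.mem_union.mp hp with h | h
    · rw [hf.2 x ⟨p, h, hxp⟩, zero_mul]
    · rw [hg.2 x ⟨p, h, hxp⟩, mul_zero]

lemma finrank_MM [Nonempty A] (Q : Finset P) :
    Module.finrank K (MM K B Q) = ∏ q ∈ Q, (B q).card := by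
  let x₀ : A := Classical.arbitrary A
  let ex : (∀ q : ↥Q, ↥(B q.1)) → P → A := fun y p => if h : p ∈ Q then (y ⟨p, h⟩).1 else x₀
  have e : MM K B Q ≃ₗ[K] ((∀ q : ↥Q, ↥(B q.1)) → K) :=
    { toFun := fun φ y => φ.1 (ex y)
      map_add' := fun _ _ => rfl
      map_smul' := fun _ _ => rfl
      invFun := fun ψ => ⟨fun x => if h : ∀ q ∈ Q, x q ∈ B q then
          ψ (fun q => ⟨x q.1, h q.1 q.2⟩) else 0, by
        refine ⟨fun x y hxy => ?_, fun x hx => ?_⟩
        · simp only
          by_cases h : ∀ q ∈ Q, x q ∈ B q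
          · have h' : ∀ q ∈ Q, y q ∈ B q := fun q hq => by rw [← hxy q hq]; exact h q hq
            rw [dif_pos h, dif_pos h']
            congr 1
            funext q
            apply Subtype.ext
            exact hxy q.1 q.2
          · have h' : ¬ ∀ q ∈ Q, y q ∈ B q := fun h' => h fun q hq => by
              rw [hxy q hq]; exact h' q hq
            rw [dif_neg h, dif_neg h']
        · simp only
          rw [dif_neg]
          intro h
          obtain ⟨p, hp, hxp⟩ := hx
          exact hxp (h p hp)⟩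
      left_inv := by
        intro φ
        apply Subtype.ext
        funext x
        simp only
        by_cases h : ∀ q ∈ Q, x q ∈ B q
        · rw [dif_pos h]
          apply φ.2.1
          intro p hp
          simp only [ex, dif_pos hp]
        · rw [dif_neg h]
          push Not at h
          exact (φ.2.2 x h).symm
      right_inv := by
        intro ψ
        funext y
        have h : ∀ q ∈ Q, ex y q ∈ B q := by
          intro q hq
          simp only [ex, dif_pos hq]
          exact (y ⟨q, hq⟩).2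
        simp only
        rw [dif_pos h]
        congr 1
        funext q
        apply Subtype.ext
        simp only [ex, dif_pos q.2] }
  rw [e.finrank_eq, Module.finrank_fintype_fun_eq_card, Fintype.card_pi]
  simp only [Fintype.card_coe]
  exact Finset.prod_coe_sort Q (fun q => (B q).card)

variable (K) in
/-- The slice `x p = b`. -/
noncomputable def sl (p : P) (b : A) : ((P → A) → K) →ₗ[K] ((P → A) → K) where
  toFun φ := fun x => φ (Function.update x p b)
  map_add' _ _ := rfl
  map_smul' _ _ := rfl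

lemma sl_apply (p : P) (b : A) (φ : (P → A) → K) (x : P → A) :
    sl K p b φ x = φ (Function.update x p b) := rfl

lemma sl_mul (p : P) (b : A) (φ ψ : (P → A) → K) :
    sl K p b (φ * ψ) = sl K p b φ * sl K p b ψ := rfl

lemma sl_mem {p : P} {b : A} {Q : Finset P} {φ : (P → A) → K} (h : φ ∈ MM K B Q) :
    sl K p b φ ∈ MM K B (Q.erase p) := by
  refine ⟨fun x y hxy => ?_, fun x hx => ?_⟩
  · rw [sl_apply, sl_apply]
    apply h.1
    intro q hq
    by_cases hqp : q = p
    · subst hqp
      simp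
    · rw [Function.update_of_ne hqp, Function.update_of_ne hqp]
      exact hxy q (Finset.mem_erase.mpr ⟨hqp, hq⟩)
  · rw [sl_apply]
    apply h.2
    obtain ⟨q, hq, hxq⟩ := hx
    rw [Finset.mem_erase] at hq
    exact ⟨q, hq.2, by rwa [Function.update_of_ne hq.1]⟩

lemma sl_eq {p : P} {b : A} {Q : Finset P} {φ : (P → A) → K} (h : φ ∈ MM K B Q)
    (hp : p ∉ Q) : sl K p b φ = φ := by
  funext x
  rw [sl_apply]
  apply h.1
  intro q hq
  have : q ≠ p := fun h' => hp (h' ▸ hq)
  rw [Function.update_of_ne this]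

variable (K) in
/-- The indicator of `x p = b`. -/
noncomputable def ch (p : P) (b : A) : (P → A) → K := fun x => if x p = b then 1 else 0

lemma ch_mem {p : P} {b : A} (hb : b ∈ B p) : ch K p b ∈ MM K B {p} := by
  refine ⟨fun x y hxy => ?_, fun x hx => ?_⟩
  · simp only [ch]
    rw [hxy p (Finset.mem_singleton_self p)]
  · obtain ⟨q, hq, hxq⟩ := hx
    rw [Finset.mem_singleton] at hq
    subst hq
    simp only [ch]
    rw [if_neg]
    rintro rfl
    exact hxq hb

lemma sum_ch_sl {p : P} {Q : Finset P} (hp : p ∈ Q) {φ : (P → A) → K} (hφ : φ ∈ MM K B Q) :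
    ∑ b : ↥(B p), ch K p b.1 * sl K p b.1 φ = φ := by
  funext x
  rw [Finset.sum_apply]
  by_cases hx : x p ∈ B p
  · rw [Finset.sum_eq_single ⟨x p, hx⟩]
    · simp [ch, sl_apply]
    · intro b _ hb
      simp only [Pi.mul_apply, ch]
      rw [if_neg (fun h => hb (Subtype.ext h.symm)), zero_mul]
    · intro h
      exact absurd (Finset.mem_univ _) h
  · rw [hφ.2 x ⟨p, hp, hx⟩]
    apply Finset.sum_eq_zero
    intro b _
    simp only [Pi.mul_apply, ch]
    rw [if_neg (fun h => hx (by rw [h]; exact b.2)), zero_mul]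

section Family

variable {Λ : Type*} (B) (supp : Λ → Finset P) (h : Λ → ((P → A) → K)) (S : Finset Λ)

/-- The multilinear ideal in the set of coordinates `Q`. -/
def JJ (Q : Finset P) : Submodule K ((P → A) → K) :=
  Submodule.span K {φ | ∃ l ∈ S, supp l ⊆ Q ∧ ∃ g ∈ MM K B (Q \ supp l), φ = h l * g}

/-- The gens containing `p`, inside `Q`. -/
noncomputable def Sp (Q : Finset P) (p : P) : Finset Λ :=
  S.filter (fun l => p ∈ supp l ∧ supp l ⊆ Q)

/-- The gens avoiding `p`. -/
noncomputable def Sn (p : P) : Finset Λ := S.filter (fun l => p ∉ supp l)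

variable {B supp h S}

lemma mem_Sp {Q : Finset P} {p : P} {l : Λ} :
    l ∈ Sp supp S Q p ↔ l ∈ S ∧ p ∈ supp l ∧ supp l ⊆ Q := by
  unfold Sp
  rw [Finset.mem_filter]

lemma mem_Sn {p : P} {l : Λ} : l ∈ Sn supp S p ↔ l ∈ S ∧ p ∉ supp l := by
  unfold Sn
  rw [Finset.mem_filter]

lemma mem_JJ {Q : Finset P} {l : Λ} (hl : l ∈ S) (hQ : supp l ⊆ Q) {g : (P → A) → K}
    (hg : g ∈ MM K B (Q \ supp l)) : h l * g ∈ JJ B supp h S Q :=
  Submodule.subset_span ⟨l, hl, hQ, g, hg, rfl⟩

lemma JJ_mono {S' : Finset Λ} (hS : S ⊆ S') (Q : Finset P) :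
    JJ B supp h S Q ≤ JJ B supp h S' Q := by
  apply Submodule.span_mono
  rintro _ ⟨l, hl, hQ, g, hg, rfl⟩
  exact ⟨l, hS hl, hQ, g, hg, rfl⟩

lemma JJ_le_MM (hh : ∀ l ∈ S, h l ∈ MM K B (supp l)) (Q : Finset P) :
    JJ B supp h S Q ≤ MM K B Q := by
  unfold JJ
  rw [Submodule.span_le]
  rintro _ ⟨l, hl, hQ, g, hg, rfl⟩
  exact MM_mul (hh l hl) hg (Finset.union_sdiff_of_subset hQ)

lemma JJ_mul {Q Q' : Finset P} (hQ : Q ⊆ Q') {φ ψ : (P → A) → K}
    (hφ : φ ∈ JJ B supp h S Q) (hψ : ψ ∈ MM K B (Q' \ Q)) : φ * ψ ∈ JJ B supp h S Q' := by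
  unfold JJ at hφ
  refine Submodule.span_induction ?_ ?_ ?_ ?_ hφ
  · rintro _ ⟨l, hl, hlQ, g, hg, rfl⟩
    rw [mul_assoc]
    apply mem_JJ hl (hlQ.trans hQ)
    apply MM_mul hg hψ
    ext q
    simp only [Finset.mem_union, Finset.mem_sdiff]
    constructor
    · rintro (⟨h1, h2⟩ | ⟨h1, h2⟩)
      · exact ⟨hQ h1, h2⟩
      · exact ⟨h1, fun h' => h2 (hlQ h')⟩
    · rintro ⟨h1, h2⟩
      by_cases h3 : q ∈ Q
      · exact Or.inl ⟨h3, h2⟩
      · exact Or.inr ⟨h1, h3⟩
  · rw [zero_mul]; exact Submodule.zero_mem _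
  · intro x y _ _ hx hy
    rw [add_mul]; exact Submodule.add_mem _ hx hy
  · intro c x _ hx
    rw [smul_mul_assoc]; exact Submodule.smul_mem _ c hx

/-- Slices of the ideal generated by gens avoiding `p`. -/
lemma sl_JJ (hh : ∀ l ∈ S, h l ∈ MM K B (supp l)) {Q : Finset P} {p : P} (b : A)
    {φ : (P → A) → K} (hφ : φ ∈ JJ B supp h (Sn supp S p) Q) :
    sl K p b φ ∈ JJ B supp h S (Q.erase p) := by
  unfold JJ at hφ
  refine Submodule.span_induction ?_ ?_ ?_ ?_ hφ
  · rintro _ ⟨l, hl, hlQ, g, hg, rfl⟩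
    rw [mem_Sn] at hl
    rw [sl_mul, sl_eq (hh l hl.1) hl.2]
    apply mem_JJ hl.1
    · intro q hq
      refine Finset.mem_erase.mpr ⟨fun h' => hl.2 (h' ▸ hq), hlQ hq⟩
    · have h1 := sl_mem (b := b) (p := p) hg
      have h2 : (Q \ supp l).erase p = Q.erase p \ supp l := by
        ext q
        simp only [Finset.mem_erase, Finset.mem_sdiff]
        tauto
      rwa [h2] at h1
  · rw [map_zero]; exact Submodule.zero_mem _
  · intro x y _ _ hx hy
    rw [map_add]; exact Submodule.add_mem _ hx hy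
  · intro c x _ hx
    rw [map_smul]; exact Submodule.smul_mem _ c hx

lemma JJ_erase_le {Q : Finset P} {p : P} (hp : p ∉ Q) :
    JJ B supp h S Q ≤ JJ B supp h (Sn supp S p) Q := by
  apply Submodule.span_mono
  rintro _ ⟨l, hl, hQ, g, hg, rfl⟩
  exact ⟨l, mem_Sn.mpr ⟨hl, fun h' => hp (hQ h')⟩, hQ, g, hg, rfl⟩

/-- Elements whose slices lie in the ideal. -/
lemma mem_JJ_Sn_of_slices {Q : Finset P} {p : P} (hp : p ∈ Q) {φ : (P → A) → K}
    (hφ : φ ∈ MM K B Q) (hs : ∀ b ∈ B p, sl K p b φ ∈ JJ B supp h S (Q.erase p)) :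
    φ ∈ JJ B supp h (Sn supp S p) Q := by
  rw [← sum_ch_sl hp hφ]
  refine Submodule.sum_mem _ fun b _ => ?_
  rw [mul_comm]
  apply JJ_mul (Finset.erase_subset p Q) (JJ_erase_le (Finset.notMem_erase p Q) (hs b.1 b.2))
  have h1 : Q \ Q.erase p = {p} := by
    ext q
    simp only [Finset.mem_sdiff, Finset.mem_erase, Finset.mem_singleton]
    constructor
    · rintro ⟨h1, h2⟩
      by_contra h3
      exact h2 ⟨h3, h1⟩
    · rintro rfl
      exact ⟨hp, fun h' => h'.1 rfl⟩
  rw [h1]
  exact ch_mem b.2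

lemma finrank_JJ_Sn (hh : ∀ l ∈ S, h l ∈ MM K B (supp l)) (Q : Finset P) (p : P) (hp : p ∈ Q) :
    Module.finrank K (JJ B supp h (Sn supp S p) Q) =
      (B p).card * Module.finrank K (JJ B supp h S (Q.erase p)) := by
  have h1 : Q \ Q.erase p = {p} := by
    ext q
    simp only [Finset.mem_sdiff, Finset.mem_erase, Finset.mem_singleton]
    constructor
    · rintro ⟨h1, h2⟩
      by_contra h3
      exact h2 ⟨h3, h1⟩
    · rintro rfl
      exact ⟨hp, fun h' => h'.1 rfl⟩
  have e : JJ B supp h (Sn supp S p) Q ≃ₗ[K] (↥(B p) → JJ B supp h S (Q.erase p)) :=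
    { toFun := fun φ b => ⟨sl K p b.1 φ.1, sl_JJ hh b.1 φ.2⟩
      map_add' := fun _ _ => rfl
      map_smul' := fun _ _ => rfl
      invFun := fun ψ => ⟨∑ b : ↥(B p), (ψ b).1 * ch K p b.1, by
        refine Submodule.sum_mem _ fun b _ => ?_
        apply JJ_mul (Finset.erase_subset p Q)
          (JJ_erase_le (Finset.notMem_erase p Q) (ψ b).2)
        rw [h1]
        exact ch_mem b.2⟩
      left_inv := by
        intro φ
        apply Subtype.ext
        simp only
        have h2 : φ.1 ∈ MM K B Q :=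
          JJ_le_MM (fun l hl => hh l (mem_Sn.mp hl).1) Q φ.2
        conv_rhs => rw [← sum_ch_sl hp h2]
        refine Finset.sum_congr rfl fun b _ => mul_comm _ _
      right_inv := by
        intro ψ
        funext b
        apply Subtype.ext
        simp only
        rw [map_sum, Finset.sum_eq_single b]
        · rw [sl_mul, sl_eq (JJ_le_MM hh _ (ψ b).2) (Finset.notMem_erase p Q)]
          funext x
          simp [sl_apply, ch]
        · intro b' _ hb'
          rw [sl_mul]
          funext x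
          simp only [Pi.mul_apply, sl_apply, ch, Function.update_self, Pi.zero_apply]
          rw [if_neg (fun h' => hb' (Subtype.ext h'.symm)), mul_zero]
        · intro h'
          exact absurd (Finset.mem_univ _) h' }
  rw [e.finrank_eq, Module.finrank_pi_fintype]
  simp

variable (B supp h S) in
/-- The sum map from tuples of coefficients. -/
noncomputable def sg (Q : Finset P) (p : P) :
    (∀ l : ↥(Sp supp S Q p), ↥(MM K B (Q \ supp l.1))) →ₗ[K] ((P → A) → K) where
  toFun w := ∑ l, h l.1 * (w l).1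
  map_add' w w' := by
    rw [← Finset.sum_add_distrib]
    refine Finset.sum_congr rfl fun l _ => ?_
    rw [Pi.add_apply, Submodule.coe_add, mul_add]
  map_smul' c w := by
    rw [RingHom.id_apply, Finset.smul_sum]
    refine Finset.sum_congr rfl fun l _ => ?_
    rw [Pi.smul_apply, Submodule.coe_smul, mul_smul_comm]

lemma JJ_eq_sup (Q : Finset P) (p : P) :
    JJ B supp h S Q = JJ B supp h (Sn supp S p) Q ⊔ LinearMap.range (sg B supp h S Q p) := by
  apply le_antisymm
  · conv_lhs => unfold JJ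
    rw [Submodule.span_le]
    rintro _ ⟨l, hl, hlQ, g, hg, rfl⟩
    by_cases hp : p ∈ supp l
    · apply Submodule.mem_sup_right
      refine ⟨Pi.single ⟨l, mem_Sp.mpr ⟨hl, hp, hlQ⟩⟩ ⟨g, hg⟩, ?_⟩
      simp only [sg, LinearMap.coe_mk, AddHom.coe_mk]
      rw [Finset.sum_eq_single ⟨l, mem_Sp.mpr ⟨hl, hp, hlQ⟩⟩]
      · rw [Pi.single_eq_same]
      · intro l' _ hl'
        rw [Pi.single_eq_of_ne hl', Submodule.coe_zero, mul_zero]
      · intro h'
        exact absurd (Finset.mem_univ _) h'
    · apply Submodule.mem_sup_left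
      exact mem_JJ (mem_Sn.mpr ⟨hl, hp⟩) hlQ hg
  · refine sup_le (JJ_mono (Finset.filter_subset _ _) Q) ?_
    rintro _ ⟨w, rfl⟩
    refine Submodule.sum_mem _ fun l _ => ?_
    have hl := mem_Sp.mp l.2
    exact mem_JJ hl.1 hl.2.2 (w l).2

variable (B supp h S) in
/-- Injectivity of the sum map modulo lower ideals. -/
def Inj (Q : Finset P) (p : P) : Prop :=
  ∀ w : Λ → ((P → A) → K), (∀ l ∈ Sp supp S Q p, w l ∈ MM K B (Q \ supp l)) →
    ∑ l ∈ Sp supp S Q p, h l * w l ∈ JJ B supp h (Sn supp S p) Q →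
      ∀ l ∈ Sp supp S Q p, w l ∈ JJ B supp h S (Q \ supp l)

/-- The basic rank estimate, with its equality case. -/
theorem finrank_JJ_le [Nonempty A] (hh : ∀ l ∈ S, h l ∈ MM K B (supp l)) (Q : Finset P)
    (p : P) (hp : p ∈ Q) :
    Module.finrank K (JJ B supp h S Q) +
        ∑ l ∈ Sp supp S Q p, Module.finrank K (JJ B supp h S (Q \ supp l)) ≤
      (B p).card * Module.finrank K (JJ B supp h S (Q.erase p)) +
        ∑ l ∈ Sp supp S Q p, ∏ q ∈ Q \ supp l, (B q).card ∧
    (Inj B supp h S Q p ↔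
      (B p).card * Module.finrank K (JJ B supp h S (Q.erase p)) +
        ∑ l ∈ Sp supp S Q p, ∏ q ∈ Q \ supp l, (B q).card ≤
      Module.finrank K (JJ B supp h S Q) +
        ∑ l ∈ Sp supp S Q p, Module.finrank K (JJ B supp h S (Q \ supp l))) := by
  rw [← Finset.sum_coe_sort (Sp supp S Q p)
      (fun l => Module.finrank K (JJ B supp h S (Q \ supp l))),
    ← Finset.sum_coe_sort (Sp supp S Q p) (fun l => ∏ q ∈ Q \ supp l, (B q).card)]
  set J0 := JJ B supp h (Sn supp S p) Q with hJ0
  set ρ := J0.mkQ ∘ₗ sg B supp h S Q p with hρ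
  -- rank-nullity for ρ
  have h1 := LinearMap.finrank_range_add_finrank_ker ρ
  have h2 : Module.finrank K (∀ l : ↥(Sp supp S Q p), ↥(MM K B (Q \ supp l.1))) =
      ∑ l : ↥(Sp supp S Q p), ∏ q ∈ Q \ supp l.1, (B q).card := by
    rw [Module.finrank_pi_fintype]
    exact Finset.sum_congr rfl fun l _ => finrank_MM _
  -- the image of JJ
  have h3 : LinearMap.range ρ = (JJ B supp h S Q).map J0.mkQ := by
    rw [hρ, LinearMap.range_comp, JJ_eq_sup Q p, Submodule.map_sup]
    rw [← hJ0, Submodule.mkQ_map_self, bot_sup_eq]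
  have h4 : Module.finrank K J0 + Module.finrank K (LinearMap.range ρ) =
      Module.finrank K (JJ B supp h S Q) := by
    rw [h3]
    have hle : J0 ≤ JJ B supp h S Q := JJ_mono (Finset.filter_subset _ _) Q
    have h5 := finrank_inf_ker_add_map J0.mkQ (JJ B supp h S Q)
    rwa [Submodule.ker_mkQ, inf_eq_right.mpr hle] at h5
  have h6 : Module.finrank K J0 =
      (B p).card * Module.finrank K (JJ B supp h S (Q.erase p)) :=
    finrank_JJ_Sn hh Q p hp
  -- the obvious part of the kernel
  let ι : (∀ l : ↥(Sp supp S Q p), ↥(JJ B supp h S (Q \ supp l.1))) →ₗ[K]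
      (∀ l : ↥(Sp supp S Q p), ↥(MM K B (Q \ supp l.1))) :=
    { toFun := fun w l => ⟨(w l).1, JJ_le_MM hh _ (w l).2⟩
      map_add' := fun _ _ => rfl
      map_smul' := fun _ _ => rfl }
  have hι : Function.Injective ι := by
    intro w w' hww
    funext l
    apply Subtype.ext
    have h8 := congrArg Subtype.val (congrFun hww l)
    exact h8
  have h7 : LinearMap.range ι ≤ LinearMap.ker ρ := by
    rintro _ ⟨w, rfl⟩
    rw [LinearMap.mem_ker, hρ, LinearMap.comp_apply, Submodule.mkQ_apply,
      Submodule.Quotient.mk_eq_zero]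
    refine Submodule.sum_mem _ fun l _ => ?_
    have hl := mem_Sp.mp l.2
    have h8 : (w l).1 * h l.1 ∈ JJ B supp h (Sn supp S p) Q := by
      have h9 : (w l).1 ∈ JJ B supp h (Sn supp S p) (Q \ supp l.1) :=
        JJ_erase_le (fun h' => (Finset.mem_sdiff.mp h').2 hl.2.1) (w l).2
      apply JJ_mul Finset.sdiff_subset h9
      rw [Finset.sdiff_sdiff_eq_self hl.2.2]
      exact hh l.1 hl.1
    rw [mul_comm]
    exact h8
  have h12 : Module.finrank K (LinearMap.range ι) =
      ∑ l : ↥(Sp supp S Q p), Module.finrank K (JJ B supp h S (Q \ supp l.1)) := by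
    rw [LinearMap.finrank_range_of_inj hι, Module.finrank_pi_fintype]
  have h13 := Submodule.finrank_mono h7
  constructor
  · omega
  · constructor
    · intro hInj
      have h14 : LinearMap.ker ρ ≤ LinearMap.range ι := by
        intro w hw
        rw [LinearMap.mem_ker, hρ, LinearMap.comp_apply, Submodule.mkQ_apply,
          Submodule.Quotient.mk_eq_zero] at hw
        have h15 := hInj (fun l => if hl : l ∈ Sp supp S Q p then (w ⟨l, hl⟩).1 else 0)
          (fun l hl => by simp only [dif_pos hl]; exact (w ⟨l, hl⟩).2)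
          (by
            rw [← Finset.sum_coe_sort]
            convert hw using 1
            simp only [sg, LinearMap.coe_mk, AddHom.coe_mk]
            refine Finset.sum_congr rfl fun l _ => ?_
            rw [dif_pos l.2])
        refine ⟨fun l => ⟨(w l).1, ?_⟩, rfl⟩
        have h16 := h15 l.1 l.2
        rwa [dif_pos l.2] at h16
      have h15 := Submodule.finrank_mono h14
      omega
    · intro hle w hwm hw l hl
      have h16 : LinearMap.range ι = LinearMap.ker ρ :=
        Submodule.eq_of_le_of_finrank_le h7 (by omega)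
      have h17 : (fun l : ↥(Sp supp S Q p) => (⟨w l.1, hwm l.1 l.2⟩ :
          ↥(MM K B (Q \ supp l.1)))) ∈ LinearMap.ker ρ := by
        rw [LinearMap.mem_ker, hρ, LinearMap.comp_apply, Submodule.mkQ_apply,
          Submodule.Quotient.mk_eq_zero]
        rw [← Finset.sum_coe_sort] at hw
        exact hw
      rw [← h16] at h17
      obtain ⟨w', hw'⟩ := h17
      have h18 := congrArg Subtype.val (congrFun hw' ⟨l, hl⟩)
      have h19 : w l = (w' ⟨l, hl⟩).1 := h18.symm
      rw [h19]
      exact (w' ⟨l, hl⟩).2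

end Family

end Pool.Agent.H21

end

section

/-!
The numbers `EE W Q = ∑ over set partitions of Q of ∏ W(part)`, defined by the recursion that
removes the part containing a chosen element.
-/

namespace Pool.Agent.H21

open scoped Classical

variable {P : Type*}

/-- The subsets of `Q` that contain `p`. -/
noncomputable def sub (Q : Finset P) (p : P) : Finset (Finset P) :=
  Q.powerset.filter (fun T => p ∈ T)

lemma mem_sub {Q : Finset P} {p : P} {T : Finset P} : T ∈ sub Q p ↔ T ⊆ Q ∧ p ∈ T := by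
  unfold sub
  rw [Finset.mem_filter, Finset.mem_powerset]

lemma card_sdiff_lt {Q T : Finset P} {p : P} (hT : T ⊆ Q) (hp : p ∈ T) :
    (Q \ T).card < Q.card :=
  Finset.card_lt_card (Finset.sdiff_ssubset hT ⟨p, hp⟩)

/-- Sum over set partitions, by the recursion on the part of a chosen element. -/
noncomputable def EE (W : Finset P → ℤ) (Q : Finset P) : ℤ :=
  if h : Q.Nonempty then
    ∑ T : {T : Finset P // T ∈ sub Q h.choose}, W T.1 * EE W (Q \ T.1)
  else 1
termination_by Q.card
decreasing_by exact card_sdiff_lt (mem_sub.mp T.2).1 (mem_sub.mp T.2).2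

lemma EE_empty (W : Finset P → ℤ) : EE W ∅ = 1 := by
  rw [EE]
  simp

lemma EE_choose (W : Finset P → ℤ) (Q : Finset P) (h : Q.Nonempty) :
    EE W Q = ∑ T ∈ sub Q h.choose, W T * EE W (Q \ T) := by
  rw [EE, dif_pos h]
  exact Finset.sum_coe_sort (sub Q h.choose) (fun T => W T * EE W (Q \ T))

/-- The recursion holds for every element. -/
lemma EE_rec (W : Finset P → ℤ) : ∀ (n : ℕ) (Q : Finset P), Q.card = n → ∀ p ∈ Q,
    EE W Q = ∑ T ∈ sub Q p, W T * EE W (Q \ T) := by
  intro n
  induction n using Nat.strong_induction_on with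
  | _ n ih =>
    intro Q hQ p hp
    have hne : Q.Nonempty := ⟨p, hp⟩
    rw [EE_choose W Q hne]
    set q := hne.choose with hq
    have hqQ : q ∈ Q := hne.choose_spec
    -- split both sums according to whether the other element is contained
    have key : ∀ a ∈ Q, ∀ b ∈ Q, ∑ T ∈ sub Q a, W T * EE W (Q \ T) =
        ∑ T ∈ (sub Q a).filter (fun T => b ∈ T), W T * EE W (Q \ T) +
        ∑ T ∈ (sub Q a).filter (fun T => b ∉ T), ∑ T' ∈ sub (Q \ T) b,
          W T * (W T' * EE W ((Q \ T) \ T')) := by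
      intro a ha b hb
      rw [← Finset.sum_filter_add_sum_filter_not (sub Q a) (fun T => b ∈ T)]
      congr 1
      refine Finset.sum_congr rfl fun T hT => ?_
      rw [Finset.mem_filter, mem_sub] at hT
      rw [ih _ (by rw [← hQ]; exact card_sdiff_lt hT.1.1 hT.1.2) (Q \ T) rfl b
        (Finset.mem_sdiff.mpr ⟨hb, hT.2⟩), Finset.mul_sum]
    rw [key q hqQ p hp, key p hp q hqQ]
    congr 1
    · refine Finset.sum_congr ?_ fun _ _ => rfl
      ext T
      rw [Finset.mem_filter, Finset.mem_filter, mem_sub, mem_sub]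
      tauto
    · -- swap the two parts
      rw [Finset.sum_sigma', Finset.sum_sigma']
      refine Finset.sum_nbij' (fun x => ⟨x.2, x.1⟩) (fun x => ⟨x.2, x.1⟩) ?_ ?_ ?_ ?_ ?_
      · rintro ⟨T, T'⟩ hx
        rw [Finset.mem_sigma, Finset.mem_filter, mem_sub, mem_sub] at hx
        obtain ⟨⟨⟨h1, h2⟩, h3⟩, h4, h5⟩ := hx
        simp only at h1 h2 h3 h4 h5
        rw [Finset.mem_sigma, Finset.mem_filter, mem_sub, mem_sub]
        have hdisj : Disjoint T T' := by
          rw [Finset.disjoint_right]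
          intro y hy hyT
          exact (Finset.mem_sdiff.mp (h4 hy)).2 hyT
        refine ⟨⟨⟨h4.trans Finset.sdiff_subset, h5⟩, ?_⟩, ?_, h2⟩
        · intro hqT'
          exact (Finset.disjoint_left.mp hdisj h2) hqT'
        · intro y hy
          exact Finset.mem_sdiff.mpr ⟨h1 hy, fun h => (Finset.disjoint_left.mp hdisj hy) h⟩
      · rintro ⟨T, T'⟩ hx
        rw [Finset.mem_sigma, Finset.mem_filter, mem_sub, mem_sub] at hx
        obtain ⟨⟨⟨h1, h2⟩, h3⟩, h4, h5⟩ := hx
        simp only at h1 h2 h3 h4 h5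
        rw [Finset.mem_sigma, Finset.mem_filter, mem_sub, mem_sub]
        have hdisj : Disjoint T T' := by
          rw [Finset.disjoint_right]
          intro y hy hyT
          exact (Finset.mem_sdiff.mp (h4 hy)).2 hyT
        refine ⟨⟨⟨h4.trans Finset.sdiff_subset, h5⟩, ?_⟩, ?_, h2⟩
        · intro hqT'
          exact (Finset.disjoint_left.mp hdisj h2) hqT'
        · intro y hy
          exact Finset.mem_sdiff.mpr ⟨h1 hy, fun h => (Finset.disjoint_left.mp hdisj hy) h⟩
      · rintro ⟨T, T'⟩ _; rfl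
      · rintro ⟨T, T'⟩ _; rfl
      · rintro ⟨T, T'⟩ _
        simp only
        rw [sdiff_sdiff_comm]
        ring

lemma EE_rec' (W : Finset P → ℤ) (Q : Finset P) (p : P) (hp : p ∈ Q) :
    EE W Q = ∑ T ∈ sub Q p, W T * EE W (Q \ T) :=
  EE_rec W _ Q rfl p hp

lemma EE_congr {W W' : Finset P → ℤ} : ∀ (n : ℕ) (Q : Finset P), Q.card = n →
    (∀ T ⊆ Q, W T = W' T) → EE W Q = EE W' Q := by
  intro n
  induction n using Nat.strong_induction_on with
  | _ n ih =>
    intro Q hQ h
    by_cases hne : Q.Nonempty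
    · obtain ⟨p, hp⟩ := hne
      rw [EE_rec' W Q p hp, EE_rec' W' Q p hp]
      refine Finset.sum_congr rfl fun T hT => ?_
      rw [mem_sub] at hT
      rw [h T hT.1, ih _ (by rw [← hQ]; exact card_sdiff_lt hT.1 hT.2) (Q \ T) rfl
        (fun T' hT' => h T' (hT'.trans Finset.sdiff_subset))]
    · rw [Finset.not_nonempty_iff_eq_empty] at hne
      rw [hne, EE_empty, EE_empty]

lemma EE_congr' {W W' : Finset P → ℤ} (Q : Finset P) (h : ∀ T ⊆ Q, W T = W' T) :
    EE W Q = EE W' Q := EE_congr _ Q rfl h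

/-- Additivity in the weights of the parts that contain `q`. -/
lemma EE_add {W W₁ W₂ : Finset P → ℤ} (Q : Finset P) (q : P) (hq : q ∈ Q)
    (h1 : ∀ T ⊆ Q, q ∈ T → W T = W₁ T + W₂ T) (h2 : ∀ T ⊆ Q, q ∉ T → W T = W₁ T)
    (h3 : ∀ T ⊆ Q, q ∉ T → W T = W₂ T) : EE W Q = EE W₁ Q + EE W₂ Q := by
  rw [EE_rec' W Q q hq, EE_rec' W₁ Q q hq, EE_rec' W₂ Q q hq, ← Finset.sum_add_distrib]
  refine Finset.sum_congr rfl fun T hT => ?_
  rw [mem_sub] at hT
  have h4 : EE W (Q \ T) = EE W₁ (Q \ T) := EE_congr' _ fun T' hT' =>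
    h2 T' (hT'.trans Finset.sdiff_subset) fun h => (Finset.mem_sdiff.mp (hT' h)).2 hT.2
  have h5 : EE W (Q \ T) = EE W₂ (Q \ T) := EE_congr' _ fun T' hT' =>
    h3 T' (hT'.trans Finset.sdiff_subset) fun h => (Finset.mem_sdiff.mp (hT' h)).2 hT.2
  rw [h1 T hT.1 hT.2, add_mul, ← h4, ← h5]

/-- Lowering the weight of one part by `1`. -/
lemma EE_sub_one {W W' : Finset P → ℤ} (Q T₀ : Finset P) (hT₀ : T₀.Nonempty) (hQ : T₀ ⊆ Q)
    (h1 : W T₀ = W' T₀ - 1) (h2 : ∀ T, T ≠ T₀ → W T = W' T) :
    EE W Q = EE W' Q - EE W' (Q \ T₀) := by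
  obtain ⟨p, hp⟩ := hT₀
  have hpQ := hQ hp
  have hsmall : ∀ T ∈ sub Q p, EE W (Q \ T) = EE W' (Q \ T) := by
    intro T hT
    rw [mem_sub] at hT
    apply EE_congr'
    intro T' hT'
    apply h2
    rintro rfl
    exact (Finset.mem_sdiff.mp (hT' hp)).2 hT.2
  have hT₀m : T₀ ∈ sub Q p := mem_sub.mpr ⟨hQ, hp⟩
  rw [EE_rec' W Q p hpQ, EE_rec' W' Q p hpQ]
  rw [← Finset.add_sum_erase _ _ hT₀m, ← Finset.add_sum_erase _ _ hT₀m]
  have h3 : ∑ T ∈ (sub Q p).erase T₀, W T * EE W (Q \ T) =
      ∑ T ∈ (sub Q p).erase T₀, W' T * EE W' (Q \ T) := by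
    refine Finset.sum_congr rfl fun T hT => ?_
    rw [Finset.mem_erase] at hT
    rw [hsmall T hT.2, h2 T hT.1]
  rw [h3, hsmall T₀ hT₀m, h1]
  ring

end Pool.Agent.H21

end

section

/-!
Exactness of multilinear families.
-/

set_option linter.unusedSectionVars false

namespace Pool.Agent.H21

open scoped Classical

variable {K : Type*} [Field K] {P : Type*} [Fintype P] {A : Type*} [Fintype A] [Nonempty A]

section Family

variable {Λ : Type*} (B : P → Finset A) (supp : Λ → Finset P) (h : Λ → ((P → A) → K))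
  (S : Finset Λ)

/-- The codimension of the multilinear ideal. -/
noncomputable def DD (Q : Finset P) : ℤ :=
  (∏ q ∈ Q, ((B q).card : ℤ)) - (Module.finrank K (JJ B supp h S Q) : ℤ)

/-- The weight of a part. -/
noncomputable def wt (T : Finset P) : ℤ :=
  (if T.card = 1 then ∏ q ∈ T, ((B q).card : ℤ) else 0) -
    ((S.filter (fun l => supp l = T)).card : ℤ)

/-- Exactness on all subsets of `Q`. -/
def Ex (Q : Finset P) : Prop := ∀ Q' ⊆ Q, DD B supp h S Q' ≤ EE (wt B supp S) Q'

variable {B supp h S}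

lemma sum_wt {Q : Finset P} {p : P} (hp : p ∈ Q) (F : Finset P → ℤ) :
    ∑ T ∈ sub Q p, wt B supp S T * F T =
      ((B p).card : ℤ) * F {p} - ∑ l ∈ Sp supp S Q p, F (supp l) := by
  have h1 : ∑ T ∈ sub Q p, (if T.card = 1 then ∏ q ∈ T, ((B q).card : ℤ) else 0) * F T =
      ((B p).card : ℤ) * F {p} := by
    rw [Finset.sum_eq_single {p}]
    · rw [if_pos (Finset.card_singleton p), Finset.prod_singleton]
    · intro T hT hne
      rw [mem_sub] at hT
      rw [if_neg, zero_mul]
      intro hc
      obtain ⟨q, hq⟩ := Finset.card_eq_one.mp hc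
      rw [hq] at hT hne
      have := Finset.mem_singleton.mp hT.2
      rw [this] at hne
      exact hne rfl
    · intro h'
      exact absurd (mem_sub.mpr ⟨Finset.singleton_subset_iff.mpr hp,
        Finset.mem_singleton_self p⟩) h'
  have h2 : ∑ l ∈ Sp supp S Q p, F (supp l) =
      ∑ T ∈ sub Q p, ((S.filter (fun l => supp l = T)).card : ℤ) * F T := by
    rw [← Finset.sum_fiberwise_of_maps_to (s := Sp supp S Q p) (t := sub Q p) (g := supp)
      (fun l hl => by
        have := mem_Sp.mp hl
        exact mem_sub.mpr ⟨this.2.2, this.2.1⟩)]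
    refine Finset.sum_congr rfl fun T hT => ?_
    rw [mem_sub] at hT
    have h3 : (Sp supp S Q p).filter (fun l => supp l = T) = S.filter (fun l => supp l = T) := by
      ext l
      rw [Finset.mem_filter, mem_Sp, Finset.mem_filter]
      constructor
      · rintro ⟨⟨h4, _, _⟩, h5⟩
        exact ⟨h4, h5⟩
      · rintro ⟨h4, h5⟩
        exact ⟨⟨h4, h5 ▸ hT.2, h5 ▸ hT.1⟩, h5⟩
    rw [h3]
    have h4 : ∑ l ∈ S.filter (fun l => supp l = T), F (supp l) =
        ∑ l ∈ S.filter (fun l => supp l = T), F T :=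
      Finset.sum_congr rfl fun l hl => by rw [(Finset.mem_filter.mp hl).2]
    rw [h4, Finset.sum_const, nsmul_eq_mul]
  rw [h2, ← h1, ← Finset.sum_sub_distrib]
  refine Finset.sum_congr rfl fun T _ => ?_
  unfold wt
  ring

lemma DD_iff (hh : ∀ l ∈ S, h l ∈ MM K B (supp l)) {Q : Finset P} {p : P} (hp : p ∈ Q) :
    ∑ T ∈ sub Q p, wt B supp S T * DD B supp h S (Q \ T) ≤ DD B supp h S Q ∧
    (Inj B supp h S Q p ↔
      DD B supp h S Q ≤ ∑ T ∈ sub Q p, wt B supp S T * DD B supp h S (Q \ T)) := by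
  obtain ⟨h1, h2⟩ := finrank_JJ_le hh Q p hp
  rw [sum_wt hp (fun T => DD B supp h S (Q \ T))]
  have h3 : ∑ l ∈ Sp supp S Q p, DD B supp h S (Q \ supp l) =
      (∑ l ∈ Sp supp S Q p, ∏ q ∈ Q \ supp l, ((B q).card : ℤ)) -
      ∑ l ∈ Sp supp S Q p, (Module.finrank K (JJ B supp h S (Q \ supp l)) : ℤ) := by
    rw [← Finset.sum_sub_distrib]
    rfl
  rw [h3]
  have h4 : (∏ q ∈ Q, ((B q).card : ℤ)) = ((B p).card : ℤ) * ∏ q ∈ Q.erase p, ((B q).card : ℤ) :=
    (Finset.mul_prod_erase Q _ hp).symm
  have h5 : Q \ {p} = Q.erase p := Finset.sdiff_singleton_eq_erase p Q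
  unfold DD
  rw [h4, h5]
  have h1' : (Module.finrank K (JJ B supp h S Q) : ℤ) +
        ∑ l ∈ Sp supp S Q p, (Module.finrank K (JJ B supp h S (Q \ supp l)) : ℤ) ≤
      ((B p).card : ℤ) * (Module.finrank K (JJ B supp h S (Q.erase p)) : ℤ) +
        ∑ l ∈ Sp supp S Q p, ∏ q ∈ Q \ supp l, ((B q).card : ℤ) := by
    exact_mod_cast h1
  constructor
  · rw [mul_sub]
    linarith
  · rw [h2]
    have h6 : ((B p).card * Module.finrank K (JJ B supp h S (Q.erase p)) +
        ∑ l ∈ Sp supp S Q p, ∏ q ∈ Q \ supp l, (B q).card ≤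
      Module.finrank K (JJ B supp h S Q) +
        ∑ l ∈ Sp supp S Q p, Module.finrank K (JJ B supp h S (Q \ supp l))) ↔
      (((B p).card : ℤ) * (Module.finrank K (JJ B supp h S (Q.erase p)) : ℤ) +
        ∑ l ∈ Sp supp S Q p, ∏ q ∈ Q \ supp l, ((B q).card : ℤ) ≤
      (Module.finrank K (JJ B supp h S Q) : ℤ) +
        ∑ l ∈ Sp supp S Q p, (Module.finrank K (JJ B supp h S (Q \ supp l)) : ℤ)) := by
      constructor
      · intro h7; exact_mod_cast h7
      · intro h7; exact_mod_cast h7
    rw [h6, mul_sub]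
    constructor
    · intro h7; linarith
    · intro h7; linarith

lemma JJ_empty (hne : ∀ l ∈ S, (supp l).Nonempty) : JJ B supp h S ∅ = ⊥ := by
  unfold JJ
  rw [Submodule.span_eq_bot]
  rintro _ ⟨l, hl, hQ, _⟩
  exact absurd (Finset.subset_empty.mp hQ) (hne l hl).ne_empty

lemma DD_empty (hne : ∀ l ∈ S, (supp l).Nonempty) : DD B supp h S ∅ = 1 := by
  unfold DD
  rw [JJ_empty hne]
  simp

/-- Exactness means equality. -/
lemma Ex.eq (hh : ∀ l ∈ S, h l ∈ MM K B (supp l)) (hne : ∀ l ∈ S, (supp l).Nonempty)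
    {Q : Finset P} (hE : Ex B supp h S Q) :
    ∀ (n : ℕ) (Q' : Finset P), Q'.card = n → Q' ⊆ Q →
      DD B supp h S Q' = EE (wt B supp S) Q' := by
  intro n
  induction n using Nat.strong_induction_on with
  | _ n ih =>
    intro Q' hn hQ'
    by_cases hem : Q'.Nonempty
    · obtain ⟨p, hp⟩ := hem
      refine le_antisymm (hE Q' hQ') ?_
      rw [EE_rec' _ Q' p hp]
      refine le_trans (le_of_eq ?_) (DD_iff hh hp).1
      refine Finset.sum_congr rfl fun T hT => ?_
      rw [mem_sub] at hT
      rw [ih _ (by rw [← hn]; exact card_sdiff_lt hT.1 hT.2) _ rfl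
        (Finset.sdiff_subset.trans hQ')]
    · rw [Finset.not_nonempty_iff_eq_empty] at hem
      rw [hem, DD_empty hne, EE_empty]

lemma Ex.eq' (hh : ∀ l ∈ S, h l ∈ MM K B (supp l)) (hne : ∀ l ∈ S, (supp l).Nonempty)
    {Q : Finset P} (hE : Ex B supp h S Q) {Q' : Finset P} (hQ' : Q' ⊆ Q) :
    DD B supp h S Q' = EE (wt B supp S) Q' := hE.eq hh hne _ Q' rfl hQ'

lemma Ex.inj (hh : ∀ l ∈ S, h l ∈ MM K B (supp l)) (hne : ∀ l ∈ S, (supp l).Nonempty)
    {Q : Finset P} (hE : Ex B supp h S Q) {Q' : Finset P} (hQ' : Q' ⊆ Q) {p : P} (hp : p ∈ Q') :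
    Inj B supp h S Q' p := by
  rw [(DD_iff hh hp).2, hE.eq' hh hne hQ', EE_rec' _ Q' p hp]
  refine le_of_eq (Finset.sum_congr rfl fun T hT => ?_)
  rw [hE.eq' hh hne (Finset.sdiff_subset.trans hQ')]

/-- One step of the converse. -/
lemma DD_le_of_inj (hh : ∀ l ∈ S, h l ∈ MM K B (supp l))
    {Q : Finset P} {p : P} (hp : p ∈ Q) (hI : Inj B supp h S Q p)
    (hsm : ∀ T ∈ sub Q p, DD B supp h S (Q \ T) = EE (wt B supp S) (Q \ T)) :
    DD B supp h S Q ≤ EE (wt B supp S) Q := by
  rw [EE_rec' _ Q p hp]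
  refine le_trans ((DD_iff hh hp).2.mp hI) (le_of_eq ?_)
  refine Finset.sum_congr rfl fun T hT => ?_
  rw [hsm T hT]

/-- Removing one generator. -/
lemma DD_erase_le (hh : ∀ l ∈ S, h l ∈ MM K B (supp l)) (l₀ : Λ) (hl₀ : l₀ ∈ S)
    (Q : Finset P) (hQ : supp l₀ ⊆ Q) :
    DD B supp h (S.erase l₀) Q ≤ DD B supp h S Q + DD B supp h (S.erase l₀) (Q \ supp l₀) := by
  -- multiplication by `h l₀`
  let μ : ((P → A) → K) →ₗ[K] ((P → A) → K) := LinearMap.mulLeft K (h l₀)
  set J' := JJ B supp h (S.erase l₀) (Q \ supp l₀) with hJ'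
  set M := MM K B (Q \ supp l₀) with hM
  have hJM : J' ≤ M := JJ_le_MM (fun l hl => hh l (Finset.mem_of_mem_erase hl)) _
  have h1 : JJ B supp h S Q = JJ B supp h (S.erase l₀) Q ⊔ M.map μ := by
    apply le_antisymm
    · conv_lhs => unfold JJ
      rw [Submodule.span_le]
      rintro _ ⟨l, hl, hlQ, g, hg, rfl⟩
      by_cases hll : l = l₀
      · subst hll
        exact Submodule.mem_sup_right ⟨g, hg, rfl⟩
      · exact Submodule.mem_sup_left (mem_JJ (Finset.mem_erase.mpr ⟨hll, hl⟩) hlQ hg)
    · refine sup_le (JJ_mono (Finset.erase_subset _ _) Q) ?_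
      rintro _ ⟨g, hg, rfl⟩
      exact mem_JJ hl₀ hQ hg
  have h2 : J'.map μ ≤ JJ B supp h (S.erase l₀) Q := by
    rintro _ ⟨φ, hφ, rfl⟩
    change h l₀ * φ ∈ _
    rw [mul_comm]
    apply JJ_mul Finset.sdiff_subset hφ
    rw [Finset.sdiff_sdiff_eq_self hQ]
    exact hh l₀ hl₀
  -- finrank of the sup
  set J0 := JJ B supp h (S.erase l₀) Q with hJ0
  have h3 : Module.finrank K (JJ B supp h S Q) + Module.finrank K J' ≤
      Module.finrank K J0 + Module.finrank K M := by
    -- map M → (quotient by J0), with kernel containing J'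
    have h4 := finrank_inf_ker_add_map J0.mkQ (JJ B supp h S Q)
    rw [Submodule.ker_mkQ, inf_eq_right.mpr (h1 ▸ le_sup_left), h1, Submodule.map_sup,
      Submodule.mkQ_map_self, bot_sup_eq, ← Submodule.map_comp, ← h1] at h4
    have h5 := finrank_inf_ker_add_map (J0.mkQ ∘ₗ μ) M
    have h6 : J' ≤ M ⊓ LinearMap.ker (J0.mkQ ∘ₗ μ) := by
      refine le_inf hJM ?_
      intro φ hφ
      rw [LinearMap.mem_ker, LinearMap.comp_apply, Submodule.mkQ_apply,
        Submodule.Quotient.mk_eq_zero]
      exact h2 ⟨φ, hφ, rfl⟩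
    have h7 := Submodule.finrank_mono h6
    omega
  have h8 : Module.finrank K M = ∏ q ∈ Q \ supp l₀, (B q).card := finrank_MM _
  have h9 : (Module.finrank K (JJ B supp h S Q) : ℤ) + (Module.finrank K J' : ℤ) ≤
      (Module.finrank K J0 : ℤ) + ∏ q ∈ Q \ supp l₀, ((B q).card : ℤ) := by
    rw [h8] at h3
    exact_mod_cast h3
  unfold DD
  linarith

lemma wt_erase (l₀ : Λ) (hl₀ : l₀ ∈ S) :
    wt B supp S (supp l₀) = wt B supp (S.erase l₀) (supp l₀) - 1 ∧
    ∀ T, T ≠ supp l₀ → wt B supp S T = wt B supp (S.erase l₀) T := by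
  constructor
  · unfold wt
    have h1 : (S.erase l₀).filter (fun l => supp l = supp l₀) =
        (S.filter (fun l => supp l = supp l₀)).erase l₀ := by
      ext l
      simp only [Finset.mem_filter, Finset.mem_erase]
      tauto
    have h2 : l₀ ∈ S.filter (fun l => supp l = supp l₀) := Finset.mem_filter.mpr ⟨hl₀, rfl⟩
    rw [h1, Finset.card_erase_of_mem h2]
    have h3 : 1 ≤ (S.filter (fun l => supp l = supp l₀)).card := Finset.card_pos.mpr ⟨l₀, h2⟩
    rw [Nat.cast_sub h3]
    push_cast
    ring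
  · intro T hT
    unfold wt
    have h1 : (S.erase l₀).filter (fun l => supp l = T) = S.filter (fun l => supp l = T) := by
      ext l
      simp only [Finset.mem_filter, Finset.mem_erase]
      constructor
      · rintro ⟨⟨_, h2⟩, h3⟩
        exact ⟨h2, h3⟩
      · rintro ⟨h2, h3⟩
        exact ⟨⟨fun h4 => hT (h4 ▸ h3.symm), h2⟩, h3⟩
    rw [h1]

lemma Ex.erase (hh : ∀ l ∈ S, h l ∈ MM K B (supp l)) (hne : ∀ l ∈ S, (supp l).Nonempty)
    {Q : Finset P} (hE : Ex B supp h S Q) (l₀ : Λ) (hl₀ : l₀ ∈ S) :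
    Ex B supp h (S.erase l₀) Q := by
  obtain ⟨hw1, hw2⟩ := wt_erase (B := B) (supp := supp) l₀ hl₀
  have key : ∀ (n : ℕ) (Q' : Finset P), Q'.card = n → Q' ⊆ Q →
      DD B supp h (S.erase l₀) Q' ≤ EE (wt B supp (S.erase l₀)) Q' := by
    intro n
    induction n using Nat.strong_induction_on with
    | _ n ih =>
      intro Q' hn hQ'
      by_cases hT : supp l₀ ⊆ Q'
      · have h1 := DD_erase_le hh l₀ hl₀ Q' hT
        have h2 := hE Q' hQ'
        rw [EE_sub_one Q' (supp l₀) (hne l₀ hl₀) hT hw1 hw2] at h2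
        obtain ⟨p, hp⟩ := hne l₀ hl₀
        have h3 := ih _ (by rw [← hn]; exact card_sdiff_lt hT hp) (Q' \ supp l₀) rfl
          (Finset.sdiff_subset.trans hQ')
        linarith
      · have h1 : JJ B supp h (S.erase l₀) Q' = JJ B supp h S Q' := by
          apply le_antisymm (JJ_mono (Finset.erase_subset _ _) Q')
          apply Submodule.span_mono
          rintro _ ⟨l, hl, hlQ, g, hg, rfl⟩
          exact ⟨l, Finset.mem_erase.mpr ⟨fun h4 => hT (h4 ▸ hlQ), hl⟩, hlQ, g, hg, rfl⟩
        have h2 : EE (wt B supp S) Q' = EE (wt B supp (S.erase l₀)) Q' :=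
          EE_congr' Q' fun T hTQ => hw2 T fun h4 => hT (h4 ▸ hTQ)
        unfold DD
        rw [h1, ← h2]
        exact hE Q' hQ'
  exact fun Q' hQ' => key _ Q' rfl hQ'

/-- A subfamily of an exact family is exact. -/
lemma Ex.sub (hh : ∀ l ∈ S, h l ∈ MM K B (supp l)) (hne : ∀ l ∈ S, (supp l).Nonempty)
    {Q : Finset P} (hE : Ex B supp h S Q) {S' : Finset Λ} (hS : S' ⊆ S) :
    Ex B supp h S' Q := by
  have key : ∀ (n : ℕ) (S : Finset Λ), (S \ S').card = n → S' ⊆ S →
      (∀ l ∈ S, h l ∈ MM K B (supp l)) → (∀ l ∈ S, (supp l).Nonempty) → Ex B supp h S Q →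
      Ex B supp h S' Q := by
    intro n
    induction n with
    | zero =>
      intro S hn hS hh hne hE
      have : S \ S' = ∅ := Finset.card_eq_zero.mp hn
      have h2 : S' = S := Finset.Subset.antisymm hS (Finset.sdiff_eq_empty_iff_subset.mp this)
      rw [h2]
      exact hE
    | succ n ih =>
      intro S hn hS hh hne hE
      obtain ⟨l₀, hl₀⟩ : (S \ S').Nonempty := by
        rw [← Finset.card_pos, hn]
        omega
      rw [Finset.mem_sdiff] at hl₀
      refine ih (S.erase l₀) ?_ ?_ (fun l hl => hh l (Finset.mem_of_mem_erase hl))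
        (fun l hl => hne l (Finset.mem_of_mem_erase hl)) (hE.erase hh hne l₀ hl₀.1)
      · have h1 : S.erase l₀ \ S' = (S \ S').erase l₀ := by
          ext l
          simp only [Finset.mem_sdiff, Finset.mem_erase]
          tauto
        rw [h1, Finset.card_erase_of_mem (Finset.mem_sdiff.mpr hl₀), hn]
        rfl
      · intro l hl
        exact Finset.mem_erase.mpr ⟨fun h4 => hl₀.2 (h4 ▸ hl), hS hl⟩
  exact key _ S rfl hS hh hne hE

end Family

end Pool.Agent.H21

end

section

/-!
Changing the box in one coordinate.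
-/

set_option linter.unusedSectionVars false

namespace Pool.Agent.H21

open scoped Classical

variable {K : Type*} [Field K] {P : Type*} [Fintype P] {A : Type*} [Fintype A] [Nonempty A]

variable (K) in
/-- Functions that depend only on the coordinates in `T`. -/
def Dp (T : Finset P) : Submodule K ((P → A) → K) where
  carrier := {φ | ∀ x y, (∀ p ∈ T, x p = y p) → φ x = φ y}
  add_mem' := by
    intro f g hf hg x y h
    simp only [Pi.add_apply]
    rw [hf x y h, hg x y h]
  zero_mem' := fun _ _ _ => rfl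
  smul_mem' := by
    intro c f hf x y h
    simp only [Pi.smul_apply]
    rw [hf x y h]

variable (K) in
/-- The indicator of the box in the coordinates `T`. -/
noncomputable def bx (B : P → Finset A) (T : Finset P) : (P → A) → K :=
  fun x => if ∀ p ∈ T, x p ∈ B p then 1 else 0

lemma bx_mul_mem {B : P → Finset A} {T : Finset P} {φ : (P → A) → K} (hφ : φ ∈ Dp K T) :
    bx K B T * φ ∈ MM K B T := by
  refine ⟨fun x y hxy => ?_, fun x hx => ?_⟩
  · simp only [Pi.mul_apply, bx]
    rw [hφ x y hxy]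
    have : (∀ p ∈ T, x p ∈ B p) ↔ (∀ p ∈ T, y p ∈ B p) := by
      constructor
      · intro h p hp; rw [← hxy p hp]; exact h p hp
      · intro h p hp; rw [hxy p hp]; exact h p hp
    simp only [this]
  · simp only [Pi.mul_apply, bx]
    rw [if_neg, zero_mul]
    intro h
    obtain ⟨p, hp, hxp⟩ := hx
    exact hxp (h p hp)

lemma bx_congr {B B' : P → Finset A} {T : Finset P} (h : ∀ p ∈ T, B p = B' p) :
    bx K B T = bx K B' T := by
  funext x
  simp only [bx]
  have : (∀ p ∈ T, x p ∈ B p) ↔ (∀ p ∈ T, x p ∈ B' p) := by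
    constructor
    · intro h' p hp; rw [← h p hp]; exact h' p hp
    · intro h' p hp; rw [h p hp]; exact h' p hp
  simp only [this]

lemma MM_box_mono {B B' : P → Finset A} {Q : Finset P} (h : ∀ p ∈ Q, B p ⊆ B' p) :
    MM K B Q ≤ MM K B' Q := by
  intro φ hφ
  refine ⟨hφ.1, fun x hx => ?_⟩
  obtain ⟨p, hp, hxp⟩ := hx
  exact hφ.2 x ⟨p, hp, fun h' => hxp (h p hp h')⟩

/-- Comparison of the ideals of two families. -/
lemma JJ_le_of {Λ Λ' : Type*} {B B' : P → Finset A} {supp : Λ → Finset P}
    {supp' : Λ' → Finset P} {h : Λ → ((P → A) → K)} {h' : Λ' → ((P → A) → K)} {S : Finset Λ}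
    {S' : Finset Λ'} {Q : Finset P} (hB : ∀ p ∈ Q, B p = B' p)
    (hgen : ∀ l ∈ S, supp l ⊆ Q → ∃ l' ∈ S', supp' l' = supp l ∧ h' l' = h l) :
    JJ B supp h S Q ≤ JJ B' supp' h' S' Q := by
  apply Submodule.span_mono
  rintro _ ⟨l, hl, hQ, g, hg, rfl⟩
  obtain ⟨l', hl', hs, hh⟩ := hgen l hl hQ
  refine ⟨l', hl', hs ▸ hQ, g, ?_, by rw [hh]⟩
  rw [hs, ← MM_congr fun p hp => hB p (Finset.sdiff_subset hp)]
  exact hg

section Family

variable {Λ : Type*} (supp : Λ → Finset P) (H : Λ → ((P → A) → K))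

/-- The functions of a family, restricted to the box. -/
noncomputable def hb (B : P → Finset A) (l : Λ) : (P → A) → K := bx K B (supp l) * H l

variable {supp H}

lemma hb_mem (B : P → Finset A) {l : Λ} (hH : H l ∈ Dp K (supp l)) :
    hb supp H B l ∈ MM K B (supp l) := bx_mul_mem hH

lemma hb_congr {B B' : P → Finset A} {l : Λ} (h : ∀ p ∈ supp l, B p = B' p) :
    hb supp H B l = hb supp H B' l := by
  unfold hb
  rw [bx_congr h]

variable (K) in
/-- Multiplication by the indicator of `x q ∈ Z`. -/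
noncomputable def rs (q : P) (Z : Finset A) : ((P → A) → K) →ₗ[K] ((P → A) → K) where
  toFun φ := fun x => if x q ∈ Z then φ x else 0
  map_add' φ ψ := by
    funext x
    simp only [Pi.add_apply]
    split_ifs <;> simp
  map_smul' c φ := by
    funext x
    simp only [Pi.smul_apply, RingHom.id_apply]
    split_ifs <;> simp

lemma rs_apply (q : P) (Z : Finset A) (φ : (P → A) → K) (x : P → A) :
    rs K q Z φ x = if x q ∈ Z then φ x else 0 := rfl

/-- Splitting the box in one coordinate. -/
lemma DD_merge {B : P → Finset A} {S SX SZ : Finset Λ} (hH : ∀ l ∈ S, H l ∈ Dp K (supp l))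
    {q : P} {Q : Finset P} (hq : q ∈ Q) {X Z : Finset A} (hXZ : Disjoint X Z)
    (hB : B q = X ∪ Z) (hSX : SX ⊆ S) (hSZ : SZ ⊆ S)
    (hvan : ∀ l ∈ SX, q ∈ supp l → ∀ x, x q ∈ Z → H l x = 0) :
    DD B supp (hb supp H B) S Q ≤
      DD (Function.update B q X) supp (hb supp H (Function.update B q X)) SX Q +
      DD (Function.update B q Z) supp (hb supp H (Function.update B q Z)) SZ Q := by
  set BX := Function.update B q X with hBX
  set BZ := Function.update B q Z with hBZ
  have hBXq : BX q = X := Function.update_self _ _ _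
  have hBZq : BZ q = Z := Function.update_self _ _ _
  have hBXn : ∀ p, p ≠ q → BX p = B p := fun p hp => Function.update_of_ne hp _ _
  have hBZn : ∀ p, p ≠ q → BZ p = B p := fun p hp => Function.update_of_ne hp _ _
  have hBXle : ∀ p, BX p ⊆ B p := by
    intro p
    by_cases hp : p = q
    · subst hp
      rw [hBXq, hB]
      exact Finset.subset_union_left
    · rw [hBXn p hp]
  have hBZle : ∀ p, BZ p ⊆ B p := by
    intro p
    by_cases hp : p = q
    · subst hp
      rw [hBZq, hB]
      exact Finset.subset_union_right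
    · rw [hBZn p hp]
  have h1 := finrank_inf_ker_add_map (rs K q Z) (JJ B supp (hb supp H B) S Q)
  -- the part on X
  have h2 : JJ BX supp (hb supp H BX) SX Q ≤
      JJ B supp (hb supp H B) S Q ⊓ LinearMap.ker (rs K q Z) := by
    refine le_inf ?_ ?_
    · conv_lhs => unfold JJ
      rw [Submodule.span_le]
      rintro _ ⟨l, hl, hlQ, g, hg, rfl⟩
      have h3 : hb supp H BX l = hb supp H B l := by
        by_cases hql : q ∈ supp l
        · funext x
          simp only [hb, Pi.mul_apply, bx]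
          by_cases hxZ : x q ∈ Z
          · rw [hvan l hl hql x hxZ, mul_zero, mul_zero]
          · congr 1
            have : (∀ p ∈ supp l, x p ∈ BX p) ↔ (∀ p ∈ supp l, x p ∈ B p) := by
              constructor
              · intro h4 p hp
                exact hBXle p (h4 p hp)
              · intro h4 p hp
                by_cases hpq : p = q
                · subst hpq
                  have := h4 p hp
                  rw [hB, Finset.mem_union] at this
                  rw [hBXq]
                  tauto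
                · rw [hBXn p hpq]
                  exact h4 p hp
            simp only [this]
        · exact hb_congr fun p hp => hBXn p fun h4 => hql (h4 ▸ hp)
      rw [h3]
      exact mem_JJ (hSX hl) hlQ (MM_box_mono (fun p _ => hBXle p) hg)
    · intro φ hφ
      have h3 : φ ∈ MM K BX Q := JJ_le_MM (fun l hl => hb_mem BX (hH l (hSX hl))) Q hφ
      rw [LinearMap.mem_ker]
      funext x
      rw [rs_apply]
      by_cases hxZ : x q ∈ Z
      · rw [if_pos hxZ]
        apply h3.2
        refine ⟨q, hq, ?_⟩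
        rw [hBXq]
        exact Finset.disjoint_right.mp hXZ hxZ
      · rw [if_neg hxZ]
        rfl
  -- the part on Z
  have h4 : JJ BZ supp (hb supp H BZ) SZ Q ≤ (JJ B supp (hb supp H B) S Q).map (rs K q Z) := by
    conv_lhs => unfold JJ
    rw [Submodule.span_le]
    rintro _ ⟨l, hl, hlQ, g, hg, rfl⟩
    refine ⟨hb supp H B l * g, mem_JJ (hSZ hl) hlQ (MM_box_mono (fun p _ => hBZle p) hg), ?_⟩
    funext x
    rw [rs_apply]
    by_cases hxZ : x q ∈ Z
    · rw [if_pos hxZ]
      simp only [hb, Pi.mul_apply, bx]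
      congr 2
      have : (∀ p ∈ supp l, x p ∈ BZ p) ↔ (∀ p ∈ supp l, x p ∈ B p) := by
        constructor
        · intro h4 p hp
          exact hBZle p (h4 p hp)
        · intro h4 p hp
          by_cases hpq : p = q
          · subst hpq
            rw [hBZq]
            exact hxZ
          · rw [hBZn p hpq]
            exact h4 p hp
      simp only [this]
    · rw [if_neg hxZ]
      have h3 : hb supp H BZ l * g ∈ MM K BZ Q :=
        MM_mul (hb_mem BZ (hH l (hSZ hl))) hg (Finset.union_sdiff_of_subset hlQ)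
      rw [h3.2 x ⟨q, hq, by rwa [hBZq]⟩]
  have h5 := Submodule.finrank_mono h2
  have h6 := Submodule.finrank_mono h4
  have h7 : (∏ p ∈ Q, ((B p).card : ℤ)) =
      (∏ p ∈ Q, ((BX p).card : ℤ)) + ∏ p ∈ Q, ((BZ p).card : ℤ) := by
    rw [← Finset.mul_prod_erase Q _ hq, ← Finset.mul_prod_erase Q _ hq,
      ← Finset.mul_prod_erase Q _ hq]
    have h8 : ∏ p ∈ Q.erase q, ((BX p).card : ℤ) = ∏ p ∈ Q.erase q, ((B p).card : ℤ) :=
      Finset.prod_congr rfl fun p hp => by rw [hBXn p (Finset.mem_erase.mp hp).1]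
    have h9 : ∏ p ∈ Q.erase q, ((BZ p).card : ℤ) = ∏ p ∈ Q.erase q, ((B p).card : ℤ) :=
      Finset.prod_congr rfl fun p hp => by rw [hBZn p (Finset.mem_erase.mp hp).1]
    rw [h8, h9, hBXq, hBZq, hB, Finset.card_union_of_disjoint hXZ]
    push_cast
    ring
  unfold DD
  rw [h7]
  have h10 : Module.finrank K (JJ BX supp (hb supp H BX) SX Q) +
      Module.finrank K (JJ BZ supp (hb supp H BZ) SZ Q) ≤
      Module.finrank K (JJ B supp (hb supp H B) S Q) := by omega
  have h11 : (Module.finrank K (JJ BX supp (hb supp H BX) SX Q) : ℤ) +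
      (Module.finrank K (JJ BZ supp (hb supp H BZ) SZ Q) : ℤ) ≤
      (Module.finrank K (JJ B supp (hb supp H B) S Q) : ℤ) := by exact_mod_cast h10
  linarith

/-- Away from the changed coordinate nothing happens. -/
lemma DD_box_congr {B B' : P → Finset A} {S S' : Finset Λ} {Q : Finset P}
    (hB : ∀ p ∈ Q, B p = B' p) (hS : ∀ l, supp l ⊆ Q → (l ∈ S ↔ l ∈ S')) :
    DD B supp (hb supp H B) S Q = DD B' supp (hb supp H B') S' Q := by
  unfold DD
  have h1 : JJ B supp (hb supp H B) S Q = JJ B' supp (hb supp H B') S' Q := by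
    apply le_antisymm
    · apply JJ_le_of hB
      intro l hl hlQ
      exact ⟨l, (hS l hlQ).mp hl, rfl, (hb_congr fun p hp => hB p (hlQ hp)).symm⟩
    · apply JJ_le_of fun p hp => (hB p hp).symm
      intro l hl hlQ
      exact ⟨l, (hS l hlQ).mpr hl, rfl, hb_congr fun p hp => hB p (hlQ hp)⟩
  rw [h1, Finset.prod_congr rfl fun p hp => by rw [hB p hp]]

lemma EE_box_congr {B B' : P → Finset A} {S S' : Finset Λ} {Q : Finset P}
    (hB : ∀ p ∈ Q, B p = B' p) (hS : ∀ l, supp l ⊆ Q → (l ∈ S ↔ l ∈ S')) :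
    EE (wt B supp S) Q = EE (wt B' supp S') Q := by
  apply EE_congr'
  intro T hT
  unfold wt
  have h1 : S.filter (fun l => supp l = T) = S'.filter (fun l => supp l = T) := by
    ext l
    rw [Finset.mem_filter, Finset.mem_filter]
    constructor
    · rintro ⟨h2, h3⟩
      exact ⟨(hS l (h3 ▸ hT)).mp h2, h3⟩
    · rintro ⟨h2, h3⟩
      exact ⟨(hS l (h3 ▸ hT)).mpr h2, h3⟩
  rw [h1]
  have h2 : ∏ p ∈ T, ((B p).card : ℤ) = ∏ p ∈ T, ((B' p).card : ℤ) :=
    Finset.prod_congr rfl fun p hp => by rw [hB p (hT hp)]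
  rw [h2]

lemma Ex.merge {B : P → Finset A} {S SX SZ : Finset Λ} (hH : ∀ l ∈ S, H l ∈ Dp K (supp l))
    {q : P} {Q : Finset P} {X Z : Finset A} (hXZ : Disjoint X Z)
    (hB : B q = X ∪ Z) (hSX : SX ⊆ S) (hSZ : SZ ⊆ S)
    (hn : ∀ l ∈ S, q ∉ supp l → l ∈ SX ∧ l ∈ SZ)
    (hc : ∀ l ∈ S, q ∈ supp l → (l ∈ SX ↔ l ∉ SZ))
    (hvan : ∀ l ∈ SX, q ∈ supp l → ∀ x, x q ∈ Z → H l x = 0)
    (hEX : Ex (Function.update B q X) supp (hb supp H (Function.update B q X)) SX Q)
    (hEZ : Ex (Function.update B q Z) supp (hb supp H (Function.update B q Z)) SZ Q) :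
    Ex B supp (hb supp H B) S Q := by
  intro Q' hQ'
  by_cases hq : q ∈ Q'
  · refine le_trans (DD_merge hH hq hXZ hB hSX hSZ hvan) ?_
    refine le_trans (add_le_add (hEX Q' hQ') (hEZ Q' hQ')) (le_of_eq ?_)
    symm
    apply EE_add Q' q hq
    · intro T hT hqT
      unfold wt
      have h1 : ∏ p ∈ T, ((B p).card : ℤ) =
          (∏ p ∈ T, ((Function.update B q X p).card : ℤ)) +
          ∏ p ∈ T, ((Function.update B q Z p).card : ℤ) := by
        rw [← Finset.mul_prod_erase T _ hqT, ← Finset.mul_prod_erase T _ hqT,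
          ← Finset.mul_prod_erase T _ hqT]
        have h8 : ∏ p ∈ T.erase q, ((Function.update B q X p).card : ℤ) =
            ∏ p ∈ T.erase q, ((B p).card : ℤ) :=
          Finset.prod_congr rfl fun p hp => by
            rw [Function.update_of_ne (Finset.mem_erase.mp hp).1]
        have h9 : ∏ p ∈ T.erase q, ((Function.update B q Z p).card : ℤ) =
            ∏ p ∈ T.erase q, ((B p).card : ℤ) :=
          Finset.prod_congr rfl fun p hp => by
            rw [Function.update_of_ne (Finset.mem_erase.mp hp).1]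
        rw [h8, h9, Function.update_self, Function.update_self, hB,
          Finset.card_union_of_disjoint hXZ]
        push_cast
        ring
      have h2 : (S.filter (fun l => supp l = T)).card =
          (SX.filter (fun l => supp l = T)).card + (SZ.filter (fun l => supp l = T)).card := by
        rw [← Finset.card_union_of_disjoint]
        · congr 1
          ext l
          simp only [Finset.mem_filter, Finset.mem_union]
          constructor
          · rintro ⟨h3, h4⟩
            have h5 := hc l h3 (h4 ▸ hqT)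
            by_cases h6 : l ∈ SZ
            · exact Or.inr ⟨h6, h4⟩
            · exact Or.inl ⟨h5.mpr h6, h4⟩
          · rintro (⟨h3, h4⟩ | ⟨h3, h4⟩)
            · exact ⟨hSX h3, h4⟩
            · exact ⟨hSZ h3, h4⟩
        · rw [Finset.disjoint_left]
          intro l h3 h4
          rw [Finset.mem_filter] at h3 h4
          exact (hc l (hSX h3.1) (h3.2 ▸ hqT)).mp h3.1 h4.1
      rw [h1, h2]
      push_cast
      split_ifs <;> ring
    · intro T hT hqT
      unfold wt
      have h2 : S.filter (fun l => supp l = T) = SX.filter (fun l => supp l = T) := by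
        ext l
        simp only [Finset.mem_filter]
        constructor
        · rintro ⟨h3, h4⟩
          exact ⟨(hn l h3 (h4 ▸ hqT)).1, h4⟩
        · rintro ⟨h3, h4⟩
          exact ⟨hSX h3, h4⟩
      have h8 : ∏ p ∈ T, ((Function.update B q X p).card : ℤ) =
          ∏ p ∈ T, ((B p).card : ℤ) :=
        Finset.prod_congr rfl fun p hp => by
          rw [Function.update_of_ne (fun h : p = q => hqT (h ▸ hp))]
      rw [h2, h8]
    · intro T hT hqT
      unfold wt
      have h2 : S.filter (fun l => supp l = T) = SZ.filter (fun l => supp l = T) := by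
        ext l
        simp only [Finset.mem_filter]
        constructor
        · rintro ⟨h3, h4⟩
          exact ⟨(hn l h3 (h4 ▸ hqT)).2, h4⟩
        · rintro ⟨h3, h4⟩
          exact ⟨hSZ h3, h4⟩
      have h8 : ∏ p ∈ T, ((Function.update B q Z p).card : ℤ) =
          ∏ p ∈ T, ((B p).card : ℤ) :=
        Finset.prod_congr rfl fun p hp => by
          rw [Function.update_of_ne (fun h : p = q => hqT (h ▸ hp))]
      rw [h2, h8]
  · have hB' : ∀ p ∈ Q', B p = Function.update B q X p := fun p hp => by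
      rw [Function.update_of_ne (fun h : p = q => hq (h ▸ hp))]
    have hS' : ∀ l, supp l ⊆ Q' → (l ∈ S ↔ l ∈ SX) := by
      intro l hl
      exact ⟨fun h1 => (hn l h1 fun h2 => hq (hl h2)).1, fun h1 => hSX h1⟩
    rw [DD_box_congr hB' hS', EE_box_congr hB' hS']
    exact hEX Q' hQ'

/-- Enlarging the box in one coordinate. -/
lemma Ex.extend {B : P → Finset A} {S : Finset Λ} (hH : ∀ l ∈ S, H l ∈ Dp K (supp l))
    (hne : ∀ l ∈ S, (supp l).Nonempty)
    {q : P} {Q : Finset P} {X : Finset A} (hX : X ⊆ B q)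
    (hE : Ex (Function.update B q X) supp (hb supp H (Function.update B q X)) S Q) :
    Ex B supp (hb supp H B) S Q := by
  intro Q' hQ'
  set BX := Function.update B q X with hBX
  have hBXq : BX q = X := Function.update_self _ _ _
  have hBXn : ∀ p, p ≠ q → BX p = B p := fun p hp => Function.update_of_ne hp _ _
  have haway : ∀ Q'' : Finset P, q ∉ Q'' → ∀ p ∈ Q'', B p = BX p := fun Q'' hq'' p hp =>
    (hBXn p fun h => hq'' (h ▸ hp)).symm
  by_cases hq : q ∈ Q'
  · have hhB : ∀ l ∈ S, hb supp H B l ∈ MM K B (supp l) := fun l hl => hb_mem B (hH l hl)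
    have hhX : ∀ l ∈ S, hb supp H BX l ∈ MM K BX (supp l) := fun l hl => hb_mem BX (hH l hl)
    apply DD_le_of_inj hhB hq
    · -- injectivity
      have hI := hE.inj hhX hne hQ' hq
      intro w hw hsum l hl
      have hl' := mem_Sp.mp hl
      have h1 : ∀ l ∈ Sp supp S Q' q, w l ∈ MM K BX (Q' \ supp l) := by
        intro l hl
        rw [← MM_congr (haway _ fun h => (Finset.mem_sdiff.mp h).2 (mem_Sp.mp hl).2.1)]
        exact hw l hl
      have h2 : ∑ l ∈ Sp supp S Q' q, hb supp H BX l * w l ∈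
          JJ BX supp (hb supp H BX) (Sn supp S q) Q' := by
        have h3 : ∑ l ∈ Sp supp S Q' q, hb supp H BX l * w l =
            rs K q X (∑ l ∈ Sp supp S Q' q, hb supp H B l * w l) := by
          rw [map_sum]
          refine Finset.sum_congr rfl fun l hl => ?_
          have hql := (mem_Sp.mp hl).2.1
          funext x
          rw [rs_apply]
          simp only [hb, Pi.mul_apply, bx]
          by_cases hx : x q ∈ X
          · rw [if_pos hx]
            have : (∀ p ∈ supp l, x p ∈ BX p) ↔ (∀ p ∈ supp l, x p ∈ B p) := by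
              constructor
              · intro h4 p hp
                by_cases hpq : p = q
                · subst hpq
                  exact hX hx
                · rw [← hBXn p hpq]
                  exact h4 p hp
              · intro h4 p hp
                by_cases hpq : p = q
                · subst hpq
                  rw [hBXq]
                  exact hx
                · rw [hBXn p hpq]
                  exact h4 p hp
            simp only [this]
          · rw [if_neg hx, if_neg, zero_mul, zero_mul]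
            intro h4
            have := h4 q hql
            rw [hBXq] at this
            exact hx this
        rw [h3]
        have h5 : (JJ B supp (hb supp H B) (Sn supp S q) Q').map (rs K q X) ≤
            JJ BX supp (hb supp H BX) (Sn supp S q) Q' := by
          conv_lhs => unfold JJ
          rw [Submodule.map_span, Submodule.span_le]
          rintro _ ⟨_, ⟨l, hl, hlQ, g, hg, rfl⟩, rfl⟩
          have hql := (mem_Sn.mp hl).2
          have h6 : rs K q X (hb supp H B l * g) = hb supp H BX l * rs K q X g := by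
            rw [hb_congr (haway _ hql)]
            funext x
            simp only [rs_apply, Pi.mul_apply]
            split_ifs <;> simp
          rw [h6]
          apply mem_JJ hl hlQ
          refine ⟨fun x y hxy => ?_, fun x hx => ?_⟩
          · rw [rs_apply, rs_apply]
            have h7 : x q = y q := hxy q (Finset.mem_sdiff.mpr ⟨hq, hql⟩)
            rw [h7, hg.1 x y hxy]
          · rw [rs_apply]
            obtain ⟨p, hp, hxp⟩ := hx
            by_cases hpq : p = q
            · subst hpq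
              rw [hBXq] at hxp
              rw [if_neg hxp]
            · rw [hBXn p hpq] at hxp
              rw [hg.2 x ⟨p, hp, hxp⟩]
              simp
        exact h5 ⟨_, hsum, rfl⟩
      have h3 := hI w h1 h2 l hl
      refine JJ_le_of (fun p hp => ?_) ?_ h3
      · exact (haway _ (fun h => (Finset.mem_sdiff.mp h).2 hl'.2.1) p hp).symm
      · intro l'' hl'' hs
        refine ⟨l'', hl'', rfl, hb_congr fun p hp => ?_⟩
        exact haway _ (fun h => (Finset.mem_sdiff.mp h).2 hl'.2.1) p (hs hp)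
    · intro T hT
      rw [mem_sub] at hT
      have hqT : q ∉ Q' \ T := fun h => (Finset.mem_sdiff.mp h).2 hT.2
      rw [DD_box_congr (haway _ hqT) (fun l _ => Iff.rfl),
        EE_box_congr (haway _ hqT) (fun l _ => Iff.rfl)]
      exact hE.eq' hhX hne (Finset.sdiff_subset.trans hQ')
  · rw [DD_box_congr (haway _ hq) (fun l _ => Iff.rfl),
      EE_box_congr (haway _ hq) (fun l _ => Iff.rfl)]
    exact hE Q' hQ'

end Family

end Pool.Agent.H21

end

section

/-!
Labelled systems: the same function is used at all position sets with the same set of labels.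
-/

set_option linter.unusedSectionVars false

namespace Pool.Agent.H21

open scoped Classical

variable {K : Type} [Field K] {P : Type} [Fintype P] {A : Type} [Fintype A] [Nonempty A]

/-- The point of `ℕ → A` with the coordinates of `x` at the labels of `T`. -/
noncomputable def liftx (lam : P → ℕ) (T : Finset P) (x : P → A) : ℕ → A :=
  fun i => if h : ∃ q ∈ T, lam q = i then x h.choose else Classical.arbitrary A

lemma liftx_apply {lam : P → ℕ} {T : Finset P} (hinj : Set.InjOn lam T) (x : P → A) {q : P}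
    (hq : q ∈ T) : liftx lam T x (lam q) = x q := by
  unfold liftx
  have h : ∃ q' ∈ T, lam q' = lam q := ⟨q, hq, rfl⟩
  rw [dif_pos h]
  congr 1
  exact hinj h.choose_spec.1 hq h.choose_spec.2

lemma liftx_congr {lam : P → ℕ} {T : Finset P} {x y : P → A} (h : ∀ q ∈ T, x q = y q) :
    liftx lam T x = liftx lam T y := by
  funext i
  unfold liftx
  by_cases hi : ∃ q ∈ T, lam q = i
  · rw [dif_pos hi, dif_pos hi]
    exact h _ hi.choose_spec.1
  · rw [dif_neg hi, dif_neg hi]

/-- Systems of functions of labelled variables. -/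
abbrev Sys (K A : Type) : Type := Finset ℕ → ℕ → ((ℕ → A) → K)

/-- `t T l` depends only on the labels in `T`. -/
def adm (K A : Type) : Set (Sys K A) :=
  {t | ∀ T l, ∀ x y : ℕ → A, (∀ i ∈ T, x i = y i) → t T l x = t T l y}

/-- The functions of a labelled system. -/
noncomputable def HL (lam : P → ℕ) (t : Sys K A) (l : Finset P × ℕ) : (P → A) → K :=
  fun x => t (l.1.image lam) l.2 (liftx lam l.1 x)

lemma HL_mem (lam : P → ℕ) (t : Sys K A) (l : Finset P × ℕ) :
    HL lam t l ∈ Dp (A := A) K l.1 := by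
  intro x y hxy
  unfold HL
  rw [liftx_congr hxy]

/-- The family with index sets `C T`. -/
noncomputable def fam (C : Finset P → Finset ℕ) : Finset (Finset P × ℕ) :=
  (Finset.univ ×ˢ (Finset.univ.biUnion C)).filter (fun a => a.2 ∈ C a.1)

lemma mem_fam {C : Finset P → Finset ℕ} {l : Finset P × ℕ} : l ∈ fam C ↔ l.2 ∈ C l.1 := by
  unfold fam
  rw [Finset.mem_filter, Finset.mem_product, Finset.mem_biUnion]
  constructor
  · rintro ⟨_, h⟩; exact h
  · intro h
    exact ⟨⟨Finset.mem_univ _, l.1, Finset.mem_univ _, h⟩, h⟩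

lemma card_fam_filter (C : Finset P → Finset ℕ) (T : Finset P) :
    ((fam C).filter (fun l => Prod.fst l = T)).card = (C T).card := by
  have h1 : (fam C).filter (fun l => Prod.fst l = T) = (C T).image (fun l => (T, l)) := by
    ext ⟨T', l⟩
    rw [Finset.mem_filter, mem_fam, Finset.mem_image]
    constructor
    · rintro ⟨h1, h2⟩
      simp only at h1 h2
      subst h2
      exact ⟨l, h1, rfl⟩
    · rintro ⟨l', h1, h2⟩
      rw [Prod.mk.injEq] at h2
      obtain ⟨h3, h4⟩ := h2
      subst h3 h4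
      exact ⟨h1, rfl⟩
  rw [h1, Finset.card_image_of_injective]
  intro a b hab
  exact (Prod.mk.inj hab).2

/-- The index sets of a labelled system. -/
noncomputable def CL (d : ℕ) (lam : P → ℕ) (C : Finset ℕ → Finset ℕ) (T : Finset P) : Finset ℕ :=
  if T.card = d ∧ Set.InjOn lam T then C (T.image lam) else ∅

/-- A labelled system is good at `Q` if the codimension is at most the expected one. -/
def Good (d : ℕ) (lam : P → ℕ) (B : ℕ → Finset A) (C : Finset ℕ → Finset ℕ) (Q : Finset P)
    (t : Sys K A) : Prop :=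
  DD (fun p => B (lam p)) Prod.fst (hb Prod.fst (HL lam t) (fun p => B (lam p)))
      (fam (CL d lam C)) Q ≤
    EE (wt (fun p => B (lam p)) Prod.fst (fam (CL d lam C))) Q

/-- Specifications of rank conditions. -/
structure Spec (A : Type) where
  /-- positions -/
  P : Type
  /-- finitely many -/
  fin : Fintype P
  /-- labels -/
  lam : P → ℕ
  /-- boxes -/
  B : ℕ → Finset A
  /-- index sets -/
  C : Finset ℕ → Finset ℕ
  /-- the positions used -/
  Q : Finset P

/-- A specification is satisfied. -/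
def Spec.Sat (d : ℕ) (s : Spec A) (t : Sys K A) : Prop :=
  letI := s.fin
  Good d s.lam s.B s.C s.Q t

/-- Simultaneous genericity. -/
lemma spec_simul [Infinite K] (d : ℕ) {ι : Type} (S : Finset ι) (sp : ι → Spec A)
    (hgood : ∀ s ∈ S, ∃ t ∈ adm K A, (sp s).Sat d t) :
    ∃ t ∈ adm K A, ∀ s ∈ S, (sp s).Sat d t := by
  letI hfin : ∀ s, Fintype (sp s).P := fun s => (sp s).fin
  let BP : ∀ s, (sp s).P → Finset A := fun s p => (sp s).B ((sp s).lam p)
  let FS : ∀ s, Finset (Finset (sp s).P × ℕ) := fun s => fam (CL d (sp s).lam (sp s).C)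
  let σ : ι → Type := fun s =>
    {x : (Finset (sp s).P × ℕ) × (((sp s).P → A) → K) //
      x.1 ∈ FS s ∧ x.1.1 ⊆ (sp s).Q ∧ x.2 ∈ MM K (BP s) ((sp s).Q \ x.1.1)}
  let v : ∀ s, Sys K A → σ s → (((sp s).P → A) → K) := fun s t x =>
    hb Prod.fst (HL (sp s).lam t) (BP s) x.1.1 * x.1.2
  let r : ι → ℕ := fun s =>
    ((∏ q ∈ (sp s).Q, ((BP s q).card : ℤ)) - EE (wt (BP s) Prod.fst (FS s)) (sp s).Q).toNat
  have hspan : ∀ s t, Submodule.span K (Set.range (v s t)) =
      JJ (BP s) Prod.fst (hb Prod.fst (HL (sp s).lam t) (BP s)) (FS s) (sp s).Q := by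
    intro s t
    unfold JJ
    congr 1
    ext φ
    constructor
    · rintro ⟨x, rfl⟩
      exact ⟨x.1.1, x.2.1, x.2.2.1, x.1.2, x.2.2.2, rfl⟩
    · rintro ⟨l, hl, hQ, g, hg, rfl⟩
      exact ⟨⟨(l, g), hl, hQ, hg⟩, rfl⟩
  have hiff : ∀ s t, (sp s).Sat d t ↔
      r s ≤ Module.finrank K (Submodule.span K (Set.range (v s t))) := by
    intro s t
    rw [hspan]
    unfold Spec.Sat Good DD
    simp only [r]
    rw [Int.toNat_le]
    constructor
    · intro h
      linarith
    · intro h
      linarith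
  have key := exists_simultaneous (K := K) (adm K A)
    (by
      intro t ht t' ht' c T l x y hxy
      simp only [Pi.add_apply, Pi.smul_apply, Pi.sub_apply]
      rw [ht T l x y hxy, ht' T l x y hxy])
    ⟨fun _ _ _ => 0, fun _ _ _ _ _ => rfl⟩ S (fun s => (((sp s).P → A) → K)) σ v
    (by
      intro s t t' c x
      funext y
      simp only [v, hb, HL, Pi.mul_apply, Pi.add_apply, Pi.smul_apply, Pi.sub_apply, smul_eq_mul]
      ring)
    r
    (by
      intro s hs
      obtain ⟨t, ht, hst⟩ := hgood s hs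
      exact ⟨t, ht, (hiff s t).mp hst⟩)
  obtain ⟨t, ht, h⟩ := key
  exact ⟨t, ht, fun s hs => (hiff s t).mpr (h s hs)⟩

/-- Exactness of a labelled system. -/
def LEx (d : ℕ) (lam : P → ℕ) (B : ℕ → Finset A) (C : Finset ℕ → Finset ℕ) (Q : Finset P)
    (t : Sys K A) : Prop :=
  Ex (fun p => B (lam p)) Prod.fst (hb Prod.fst (HL lam t) (fun p => B (lam p)))
      (fam (CL d lam C)) Q

/-- A labelled system stays exact for smaller index sets. -/
lemma LEx.sub {d : ℕ} (hd : 1 ≤ d) {lam : P → ℕ} {B : ℕ → Finset A} {C C' : Finset ℕ → Finset ℕ}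
    {Q : Finset P} {t : Sys K A} (h : LEx d lam B C Q t)
    (hC : ∀ T ⊆ Q.image lam, T.card = d → C' T ⊆ C T) : LEx d lam B C' Q t := by
  -- replace C' by its intersection with C
  have h1 : LEx d lam B (fun T => C' T ∩ C T) Q t := by
    refine Ex.sub (fun l _ => hb_mem _ (HL_mem lam t l)) ?_ h ?_
    · intro l hl
      rw [mem_fam] at hl
      unfold CL at hl
      split_ifs at hl with h2
      · rw [← Finset.card_pos]
        omega
      · simp at hl
    · intro l hl
      rw [mem_fam] at hl ⊢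
      unfold CL at hl ⊢
      split_ifs at hl ⊢ with h2
      · exact (Finset.mem_inter.mp hl).2
      · exact hl
  intro Q' hQ'
  have h2 := h1 Q' hQ'
  have h3 : ∀ l : Finset P × ℕ, Prod.fst l ⊆ Q' →
      (l ∈ fam (CL d lam C') ↔ l ∈ fam (CL d lam (fun T => C' T ∩ C T))) := by
    intro l hl
    rw [mem_fam, mem_fam]
    unfold CL
    split_ifs with h4
    · have h5 := hC (l.1.image lam) (Finset.image_subset_image (hl.trans hQ'))
        (by rw [Finset.card_image_of_injOn h4.2, h4.1])
      simp only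
      rw [Finset.inter_eq_left.mpr h5]
    · rfl
  rw [DD_box_congr (fun _ _ => rfl) h3, EE_box_congr (fun _ _ => rfl) h3]
  exact h2

end Pool.Agent.H21

end
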