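import Pool.Agent.H94.LP7.M95
import Pool.Agent.H94.LP7.M96
import Pool.Agent.H94.LP7.M98

/-! The parts of this file: H21.Pol2, H21.Pol3, H21.State, H21.Base, H21.ClaimAll, H21.ExactPoly. -/

section

/-!
The polynomial system attached to a labelled system, and its derivative property.
-/

set_option linter.unusedSectionVars false

namespace Pool.Agent.H21

open scoped Classical
open MvPolynomial

variable {K : Type} [Field K] {P : Type} [Fintype P] {A : Type} [Fintype A] [Nonempty A]

/-- The variables in block `i`. -/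
noncomputable def BB (blk : A → ℕ) (i : ℕ) : Finset A := Finset.univ.filter (fun a => blk a = i)

lemma mem_BB {blk : A → ℕ} {i : ℕ} {a : A} : a ∈ BB blk i ↔ blk a = i := by
  unfold BB
  rw [Finset.mem_filter]
  exact ⟨fun h => h.2, fun h => ⟨Finset.mem_univ _, h⟩⟩

/-- Extend a point with coordinates in `T`. -/
noncomputable def extl (T : Finset ℕ) (z : ↥T → A) : ℕ → A :=
  fun i => if h : i ∈ T then z ⟨i, h⟩ else Classical.arbitrary A

lemma extl_apply (T : Finset ℕ) (z : ↥T → A) (i : ↥T) : extl T z i.1 = z i := by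
  unfold extl
  rw [dif_pos i.2]

/-- The polynomial attached to a function of labelled variables. -/
noncomputable def fpol (blk : A → ℕ) (t : Sys K A) (T : Finset ℕ) (l : ℕ) : MvPolynomial A K :=
  ∑ z : ↥T → A, (if ∀ i : ↥T, blk (z i) = i.1 then t T l (extl T z) else 0) • ∏ i : ↥T, X (z i)

lemma prod_X_homogeneous {ι : Type*} (s : Finset ι) (z : ι → A) :
    (∏ i ∈ s, (X (z i) : MvPolynomial A K)).IsHomogeneous s.card := by
  have h := IsHomogeneous.prod s (fun i => (X (z i) : MvPolynomial A K)) (fun _ => 1)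
    (fun i _ => isHomogeneous_X K (z i))
  simpa using h

lemma fpol_homogeneous (blk : A → ℕ) (t : Sys K A) (T : Finset ℕ) (l : ℕ) :
    (fpol blk t T l).IsHomogeneous T.card := by
  unfold fpol
  apply IsHomogeneous.sum
  intro z _
  have h := prod_X_homogeneous (K := K) (Finset.univ : Finset ↥T) z
  rw [Finset.card_univ, Fintype.card_coe] at h
  rw [smul_eq_C_mul]
  exact h.C_mul _

/-- Polarization of a monomial with one variable in each block of `T`. -/
lemma pol_prod_X (blk : A → ℕ) (z : ℕ → A) (T : Finset ℕ) : (∀ i ∈ T, blk (z i) = i) →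
    ∀ (V : Finset P) (y : P → A), pol V (∏ i ∈ T, (X (z i) : MvPolynomial A K)) y =
      if Set.InjOn (fun p => blk (y p)) V ∧ V.image (fun p => blk (y p)) = T ∧
        ∀ p ∈ V, z (blk (y p)) = y p then 1 else 0 := by
  induction T using Finset.induction_on with
  | empty =>
    intro _ V y
    rw [Finset.prod_empty, ← C_1, pol_C]
    by_cases hV : V = ∅
    · subst hV
      simp
    · rw [if_neg hV, if_neg]
      rintro ⟨_, h, _⟩
      exact hV (Finset.image_eq_empty.mp h)
  | insert i T hi ih =>
    intro hz V y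
    rw [Finset.prod_insert hi, mul_comm, pol_mul_X]
    have hz' : ∀ j ∈ T, blk (z j) = j := fun j hj => hz j (Finset.mem_insert_of_mem hj)
    have hzi : blk (z i) = i := hz i (Finset.mem_insert_self _ _)
    rw [Finset.sum_congr rfl fun p _ => ih hz' (V.erase p) y]
    by_cases hc : Set.InjOn (fun p => blk (y p)) V ∧ V.image (fun p => blk (y p)) = insert i T ∧
        ∀ p ∈ V, z (blk (y p)) = y p
    · rw [if_pos hc]
      obtain ⟨hinj, himg, hall⟩ := hc
      obtain ⟨p₀, hp₀, hp₀i⟩ : ∃ p₀ ∈ V, blk (y p₀) = i := by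
        have : i ∈ V.image (fun p => blk (y p)) := by
          rw [himg]
          exact Finset.mem_insert_self _ _
        obtain ⟨p₀, hp₀, h⟩ := Finset.mem_image.mp this
        exact ⟨p₀, hp₀, h⟩
      have hyp₀ : y p₀ = z i := by
        rw [← hall p₀ hp₀, hp₀i]
      rw [Finset.sum_eq_single p₀]
      · rw [if_pos]
        refine ⟨hinj.mono (by exact_mod_cast Finset.erase_subset _ _), ?_, ?_⟩
        · ext j
          rw [Finset.mem_image]
          constructor
          · rintro ⟨p, hp, rfl⟩
            rw [Finset.mem_erase] at hp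
            have h1 : blk (y p) ∈ insert i T := by
              rw [← himg]
              exact Finset.mem_image.mpr ⟨p, hp.2, rfl⟩
            rcases Finset.mem_insert.mp h1 with h2 | h2
            · exact absurd (hinj hp.2 hp₀ (by simp only; rw [h2, hp₀i])) hp.1
            · exact h2
          · intro hj
            have h1 : j ∈ V.image (fun p => blk (y p)) := by
              rw [himg]
              exact Finset.mem_insert_of_mem hj
            obtain ⟨p, hp, hpj⟩ := Finset.mem_image.mp h1
            refine ⟨p, Finset.mem_erase.mpr ⟨fun h => hi ?_, hp⟩, hpj⟩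
            rw [← hp₀i, ← h, hpj]
            exact hj
        · intro p hp
          exact hall p (Finset.mem_of_mem_erase hp)
      · intro p hp hpp₀
        rw [Finset.mem_filter] at hp
        exfalso
        apply hpp₀
        apply hinj hp.1 hp₀
        simp only
        rw [hp.2, hyp₀]
      · intro h
        exact absurd (Finset.mem_filter.mpr ⟨hp₀, hyp₀⟩) h
    · rw [if_neg hc]
      apply Finset.sum_eq_zero
      intro p hp
      rw [Finset.mem_filter] at hp
      rw [if_neg]
      rintro ⟨hinj, himg, hall⟩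
      apply hc
      have hpi : blk (y p) = i := by rw [hp.2, hzi]
      refine ⟨?_, ?_, ?_⟩
      · intro q hq q' hq' hqq'
        simp only at hqq'
        by_cases h1 : q = p
        · by_cases h2 : q' = p
          · rw [h1, h2]
          · exfalso
            apply hi
            rw [← himg, Finset.mem_image]
            exact ⟨q', Finset.mem_erase.mpr ⟨h2, hq'⟩, by rw [← hqq', h1, hpi]⟩
        · by_cases h2 : q' = p
          · exfalso
            apply hi
            rw [← himg, Finset.mem_image]
            exact ⟨q, Finset.mem_erase.mpr ⟨h1, hq⟩, by rw [hqq', h2, hpi]⟩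
          · exact hinj (Finset.mem_coe.mpr (Finset.mem_erase.mpr ⟨h1, hq⟩))
              (Finset.mem_coe.mpr (Finset.mem_erase.mpr ⟨h2, hq'⟩)) hqq'
      · have h1 := Finset.image_insert (fun p => blk (y p)) p (V.erase p)
        rw [Finset.insert_erase hp.1] at h1
        simp only [himg, hpi] at h1
        exact h1
      · intro q hq
        by_cases h1 : q = p
        · rw [h1, hpi, hp.2]
        · exact hall q (Finset.mem_erase.mpr ⟨h1, hq⟩)

/-- Polarization of the polynomial of a function. -/
lemma pol_fpol (blk : A → ℕ) {t : Sys K A} (ht : t ∈ adm K A) (T : Finset ℕ) (l : ℕ)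
    (lam : P → ℕ) (V : Finset P) (y : P → A) (hy : ∀ p ∈ V, blk (y p) = lam p) :
    pol V (fpol blk t T l) y =
      if Set.InjOn lam V ∧ V.image lam = T then t T l (liftx lam V y) else 0 := by
  unfold fpol
  rw [pol_sum]
  have hterm : ∀ z : ↥T → A,
      pol V ((if ∀ i : ↥T, blk (z i) = i.1 then t T l (extl T z) else 0) •
        ∏ i : ↥T, (X (z i) : MvPolynomial A K)) y =
      if (∀ i : ↥T, blk (z i) = i.1) ∧ (Set.InjOn lam V ∧ V.image lam = T) ∧
        ∀ p ∈ V, extl T z (lam p) = y p then t T l (extl T z) else 0 := by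
    intro z
    rw [smul_eq_C_mul, pol_C_mul]
    by_cases hz : ∀ i : ↥T, blk (z i) = i.1
    · rw [if_pos hz]
      have h1 : ∏ i : ↥T, (X (z i) : MvPolynomial A K) = ∏ i ∈ T, X (extl T z i) := by
        rw [← Finset.prod_coe_sort T (fun i => (X (extl T z i) : MvPolynomial A K))]
        exact Finset.prod_congr rfl fun i _ => by rw [extl_apply]
      rw [h1, pol_prod_X blk (extl T z) T (fun i hi => by
        have := hz ⟨i, hi⟩
        rw [← extl_apply T z ⟨i, hi⟩] at this
        exact this) V y]
      have h2 : Set.InjOn (fun p => blk (y p)) V ↔ Set.InjOn lam V := by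
        constructor
        · intro h p hp q hq hpq
          exact h hp hq (by simp only; rw [hy p hp, hy q hq, hpq])
        · intro h p hp q hq hpq
          simp only at hpq
          rw [hy p hp, hy q hq] at hpq
          exact h hp hq hpq
      have h3 : V.image (fun p => blk (y p)) = V.image lam :=
        Finset.image_congr fun p hp => hy p hp
      have h4 : (∀ p ∈ V, extl T z (blk (y p)) = y p) ↔ ∀ p ∈ V, extl T z (lam p) = y p := by
        constructor
        · intro h p hp
          rw [← hy p hp]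
          exact h p hp
        · intro h p hp
          rw [hy p hp]
          exact h p hp
      rw [h3]
      simp only [h2, h4]
      by_cases hc : Set.InjOn lam V ∧ V.image lam = T ∧ ∀ p ∈ V, extl T z (lam p) = y p
      · rw [if_pos hc, if_pos ⟨hz, ⟨hc.1, hc.2.1⟩, hc.2.2⟩, mul_one]
      · rw [if_neg hc, if_neg (fun h => hc ⟨h.2.1.1, h.2.1.2, h.2.2⟩), mul_zero]
    · rw [if_neg hz, zero_mul, if_neg (fun h => hz h.1)]
  rw [Finset.sum_congr rfl fun z _ => hterm z]
  by_cases hc : Set.InjOn lam V ∧ V.image lam = T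
  · rw [if_pos hc]
    obtain ⟨hinj, himg⟩ := hc
    set z₀ : ↥T → A := fun i => liftx lam V y i.1 with hz₀
    have hlab : ∀ i : ↥T, ∃ p ∈ V, lam p = i.1 := by
      rintro ⟨i, hi⟩
      rw [← himg] at hi
      obtain ⟨p, hp, h⟩ := Finset.mem_image.mp hi
      exact ⟨p, hp, h⟩
    have hmemT : ∀ p ∈ V, lam p ∈ T := fun p hp => by
      rw [← himg]
      exact Finset.mem_image_of_mem lam hp
    have hext : ∀ i ∈ T, extl T z₀ i = liftx lam V y i := by
      intro i hi
      rw [extl_apply T z₀ ⟨i, hi⟩]
    rw [Finset.sum_eq_single z₀]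
    · rw [if_pos]
      · exact ht T l _ _ hext
      · refine ⟨?_, ⟨hinj, himg⟩, ?_⟩
        · intro i
          obtain ⟨p, hp, hpi⟩ := hlab i
          simp only [hz₀]
          rw [← hpi, liftx_apply hinj y hp, hy p hp]
        · intro p hp
          rw [hext _ (hmemT p hp), liftx_apply hinj y hp]
    · intro z _ hzz
      rw [if_neg]
      rintro ⟨_, _, h⟩
      apply hzz
      funext i
      obtain ⟨p, hp, hpi⟩ := hlab i
      have h1 := h p hp
      rw [hpi, extl_apply] at h1
      simp only [hz₀]
      rw [h1, ← hpi, liftx_apply hinj y hp]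
    · intro h
      exact absurd (Finset.mem_univ _) h
  · rw [if_neg hc]
    apply Finset.sum_eq_zero
    intro z _
    rw [if_neg (fun h => hc h.2.1)]

/-- Restitution of a generator. -/
lemma rho_gen (blk : A → ℕ) {t : Sys K A} (ht : t ∈ adm K A) (lam : P → ℕ) (V : Finset P)
    (hinj : Set.InjOn lam V) (l : ℕ) :
    ∃ c : ℕ, rho K V (hb Prod.fst (HL lam t) (fun p => BB blk (lam p)) (V, l)) =
      c • fpol blk t (V.image lam) l := by
  set T := V.image lam with hT
  let eT : {p // p ∈ V} ≃ ↥T := Equiv.ofBijective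
    (fun p => ⟨lam p.1, Finset.mem_image_of_mem lam p.2⟩) (by
      constructor
      · intro p q hpq
        apply Subtype.ext
        exact hinj p.2 q.2 (congrArg Subtype.val hpq)
      · intro i
        obtain ⟨p, hp, hpi⟩ := Finset.mem_image.mp i.2
        exact ⟨⟨p, hp⟩, Subtype.ext hpi⟩)
  have heT : ∀ p, (eT p).1 = lam p.1 := fun p => rfl
  let G : ({p // p ∈ V} → A) → MvPolynomial A K := fun u =>
    (if ∀ p : {p // p ∈ V}, blk (u p) = lam p.1 then
      t T l (extl T (fun i => u (eT.symm i))) else 0) • ∏ p : {p // p ∈ V}, X (u p)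
  refine ⟨Fintype.card ({p // ¬ p ∈ V} → A), ?_⟩
  have h1 : rho K V (hb Prod.fst (HL lam t) (fun p => BB blk (lam p)) (V, l)) =
      ∑ y : P → A, G (fun p => y p.1) := by
    rw [rho_apply]
    refine Finset.sum_congr rfl fun y _ => ?_
    have h2 : ∏ p : {p // p ∈ V}, (X (y p.1) : MvPolynomial A K) = ∏ p ∈ V, X (y p) :=
      Finset.prod_coe_sort V (fun p => (X (y p) : MvPolynomial A K))
    simp only [G]
    rw [h2]
    congr 1
    simp only [hb, bx, HL, Pi.mul_apply]
    by_cases hc : ∀ p ∈ V, y p ∈ BB blk (lam p)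
    · rw [if_pos hc, one_mul, if_pos]
      · apply ht
        intro i hi
        obtain ⟨p, hp, hpi⟩ := Finset.mem_image.mp hi
        rw [← hpi, liftx_apply hinj y hp]
        have h3 : extl T (fun i => y (eT.symm i).1) (lam p) = y p := by
          rw [extl_apply T _ ⟨lam p, Finset.mem_image_of_mem lam hp⟩]
          have h4 : eT.symm ⟨lam p, Finset.mem_image_of_mem lam hp⟩ = ⟨p, hp⟩ := by
            rw [Equiv.symm_apply_eq]
            rfl
          rw [h4]
        exact h3.symm
      · intro p
        exact mem_BB.mp (hc p.1 p.2)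
    · rw [if_neg hc, zero_mul, if_neg]
      intro h
      apply hc
      intro p hp
      exact mem_BB.mpr (h ⟨p, hp⟩)
  rw [h1]
  have h2 : ∑ y : P → A, G (fun p => y p.1) =
      Fintype.card ({p // ¬ p ∈ V} → A) • ∑ u : {p // p ∈ V} → A, G u := by
    rw [← Equiv.sum_comp (Equiv.piEquivPiSubtypeProd (fun p => p ∈ V) (fun _ => A)).symm]
    rw [Fintype.sum_prod_type, Finset.smul_sum]
    refine Finset.sum_congr rfl fun u _ => ?_
    rw [← Finset.card_univ, ← Finset.sum_const]
    refine Finset.sum_congr rfl fun v _ => ?_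
    congr 1
    funext p
    simp [Equiv.piEquivPiSubtypeProd]
  rw [h2]
  congr 1
  unfold fpol
  rw [← Equiv.sum_comp (Equiv.arrowCongr eT (Equiv.refl A)).symm]
  refine Finset.sum_congr rfl fun z _ => ?_
  have h3 : ((Equiv.arrowCongr eT (Equiv.refl A)).symm z) = fun p => z (eT p) := by
    funext p
    rfl
  rw [h3]
  simp only [G]
  have h4 : ∏ p : {p // p ∈ V}, (X (z (eT p)) : MvPolynomial A K) = ∏ i : ↥T, X (z i) :=
    Equiv.prod_comp eT (fun i => (X (z i) : MvPolynomial A K))
  rw [h4]
  congr 1
  have h5 : (∀ p : {p // p ∈ V}, blk (z (eT p)) = lam p.1) ↔ ∀ i : ↥T, blk (z i) = i.1 := by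
    constructor
    · intro h i
      have := h (eT.symm i)
      rw [Equiv.apply_symm_apply, ← heT, Equiv.apply_symm_apply] at this
      exact this
    · intro h p
      rw [h (eT p), heT]
  have h6 : (fun i => z (eT (eT.symm i))) = z := by
    funext i
    rw [Equiv.apply_symm_apply]
  simp only [h5, h6]

end Pool.Agent.H21

end

section

/-!
The derivative property of the polynomial system.
-/

set_option linter.unusedSectionVars false

namespace Pool.Agent.H21

open scoped Classical
open MvPolynomial

variable {K : Type} [Field K] {P : Type} [Fintype P] {A : Type} [Fintype A] [Nonempty A]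

/-- The ideal of the polynomial system. -/
noncomputable def fI (blk : A → ℕ) (t : Sys K A) (GI : Finset (Finset ℕ × ℕ)) :
    Ideal (MvPolynomial A K) :=
  Ideal.span ((fun x : Finset ℕ × ℕ => fpol blk t x.1 x.2) '' (GI : Set (Finset ℕ × ℕ)))

lemma fpol_mem_fI {blk : A → ℕ} {t : Sys K A} {GI : Finset (Finset ℕ × ℕ)} {x : Finset ℕ × ℕ}
    (hx : x ∈ GI) : fpol blk t x.1 x.2 ∈ fI blk t GI :=
  Ideal.subset_span ⟨x, by exact_mod_cast hx, rfl⟩

lemma bx_mul_pol_mem (B : P → Finset A) (V : Finset P) (w : MvPolynomial A K) :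
    (bx K B V * pol V w) ∈ MM K B V :=
  bx_mul_mem fun x y hxy => pol_congr w V x y hxy

/-- Polarizations of elements of the ideal. -/
lemma pol_mem_JJ {blk : A → ℕ} {t : Sys K A} (ht : t ∈ adm K A) {GI : Finset (Finset ℕ × ℕ)}
    {d : ℕ} {C : Finset ℕ → Finset ℕ} (hGI : ∀ x ∈ GI, x.1.card = d ∧ x.2 ∈ C x.1)
    (lam : P → ℕ) {g : MvPolynomial A K} (hg : g ∈ fI blk t GI) :
    ∀ U : Finset P, (bx K (fun p => BB blk (lam p)) U * pol U g) ∈
      JJ (fun p => BB blk (lam p)) Prod.fst (hb Prod.fst (HL lam t) (fun p => BB blk (lam p)))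
        (fam (CL d lam C)) U := by
  unfold fI at hg
  refine Submodule.span_induction ?_ ?_ ?_ ?_ hg
  · rintro _ ⟨⟨T, l⟩, hx, rfl⟩ U
    obtain ⟨hTd, hlC⟩ := hGI (T, l) (by exact_mod_cast hx)
    simp only at hTd hlC ⊢
    by_cases hc : Set.InjOn lam (U : Set P) ∧ U.image lam = T
    · have hmem : (U, l) ∈ fam (CL d lam C) := by
        rw [mem_fam]
        unfold CL
        simp only
        rw [if_pos, hc.2]
        · exact hlC
        · refine ⟨?_, hc.1⟩
          rw [← hTd, ← hc.2, Finset.card_image_of_injOn hc.1]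
      have h1 : (1 : (P → A) → K) ∈ MM K (fun p => BB blk (lam p)) (U \ U) := by
        rw [Finset.sdiff_self]
        refine ⟨fun _ _ _ => rfl, fun x hx => ?_⟩
        obtain ⟨p, hp, _⟩ := hx
        simp at hp
      have h2 := mem_JJ (h := hb Prod.fst (HL lam t) (fun p => BB blk (lam p)))
        (supp := Prod.fst) hmem (Finset.Subset.refl U) h1
      rw [mul_one] at h2
      convert h2 using 1
      funext y
      simp only [hb, HL, bx, Pi.mul_apply]
      by_cases hy : ∀ p ∈ U, y p ∈ BB blk (lam p)
      · rw [if_pos hy, one_mul, one_mul,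
          pol_fpol blk ht T l lam U y (fun p hp => mem_BB.mp (hy p hp)), if_pos hc, hc.2]
      · rw [if_neg hy, zero_mul, zero_mul]
    · have h1 : bx K (fun p => BB blk (lam p)) U * pol U (fpol blk t T l) = 0 := by
        funext y
        simp only [bx, Pi.mul_apply]
        by_cases hy : ∀ p ∈ U, y p ∈ BB blk (lam p)
        · rw [if_pos hy, one_mul,
            pol_fpol blk ht T l lam U y (fun p hp => mem_BB.mp (hy p hp)), if_neg hc]
          rfl
        · rw [if_neg hy, zero_mul]
          rfl
      rw [h1]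
      exact Submodule.zero_mem _
  · intro U
    have : (bx K (fun p => BB blk (lam p)) U * pol U (0 : MvPolynomial A K)) = 0 := by
      funext y
      simp only [Pi.mul_apply, pol_zero, mul_zero]
      rfl
    rw [this]
    exact Submodule.zero_mem _
  · intro f g _ _ hf hg U
    have : (bx K (fun p => BB blk (lam p)) U * pol U (f + g)) =
        bx K (fun p => BB blk (lam p)) U * pol U f +
        bx K (fun p => BB blk (lam p)) U * pol U g := by
      funext y
      simp only [Pi.mul_apply, Pi.add_apply, pol_add, mul_add]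
    rw [this]
    exact Submodule.add_mem _ (hf U) (hg U)
  · intro r g _ hg U
    rw [smul_eq_mul]
    have : (bx K (fun p => BB blk (lam p)) U * pol U (r * g)) =
        ∑ V ∈ U.powerset, (bx K (fun p => BB blk (lam p)) (U \ V) * pol (U \ V) g) *
          (bx K (fun p => BB blk (lam p)) V * pol V r) := by
      funext y
      rw [Finset.sum_apply]
      simp only [Pi.mul_apply]
      rw [pol_mul, Finset.mul_sum]
      refine Finset.sum_congr rfl fun V hV => ?_
      rw [Finset.mem_powerset] at hV
      have h3 : bx K (fun p => BB blk (lam p)) U y =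
          bx K (fun p => BB blk (lam p)) (U \ V) y * bx K (fun p => BB blk (lam p)) V y := by
        simp only [bx]
        by_cases h4 : ∀ p ∈ U, y p ∈ BB blk (lam p)
        · rw [if_pos h4, if_pos fun p hp => h4 p (Finset.mem_sdiff.mp hp).1,
            if_pos fun p hp => h4 p (hV hp), one_mul]
        · rw [if_neg h4]
          by_cases h5 : ∀ p ∈ V, y p ∈ BB blk (lam p)
          · rw [if_neg, zero_mul]
            intro h6
            apply h4
            intro p hp
            by_cases hpV : p ∈ V
            · exact h5 p hpV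
            · exact h6 p (Finset.mem_sdiff.mpr ⟨hp, hpV⟩)
          · rw [if_neg h5, mul_zero]
      rw [h3]
      ring
    rw [this]
    refine Submodule.sum_mem _ fun V hV => ?_
    rw [Finset.mem_powerset] at hV
    apply JJ_mul Finset.sdiff_subset (hg (U \ V))
    rw [Finset.sdiff_sdiff_eq_self hV]
    exact bx_mul_pol_mem _ V r

/-- A scalar multiple in the ideal. -/
lemma mem_of_nsmul_mem [CharZero K] {I : Ideal (MvPolynomial A K)} {n : ℕ} (hn : n ≠ 0)
    {g : MvPolynomial A K} (h : n • g ∈ I) : g ∈ I := by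
  have h1 : g = C ((n : K)⁻¹) * (n • g) := by
    rw [nsmul_eq_mul, ← mul_assoc, ← map_natCast (C : K →+* MvPolynomial A K), ← C_mul,
      inv_mul_cancel₀ (by exact_mod_cast hn), C_1, one_mul]
  rw [h1]
  exact I.mul_mem_left _ h

/-- Restitution of elements of the multilinear ideal. -/
lemma rho_mem_fI [CharZero K] {blk : A → ℕ} {t : Sys K A} (ht : t ∈ adm K A)
    {GI : Finset (Finset ℕ × ℕ)} {d : ℕ} {C : Finset ℕ → Finset ℕ} (lam : P → ℕ) (U : Finset P)
    (hGI : ∀ T ⊆ U.image lam, ∀ l, T.card = d → l ∈ C T → (T, l) ∈ GI)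
    {φ : (P → A) → K}
    (hφ : φ ∈ JJ (fun p => BB blk (lam p)) Prod.fst
      (hb Prod.fst (HL lam t) (fun p => BB blk (lam p))) (fam (CL d lam C)) U) :
    rho K U φ ∈ fI blk t GI := by
  unfold JJ at hφ
  refine Submodule.span_induction ?_ ?_ ?_ ?_ hφ
  · rintro _ ⟨⟨V, l⟩, hl, hVU, g, hg, rfl⟩
    rw [mem_fam] at hl
    unfold CL at hl
    simp only at hl hVU hg
    split_ifs at hl with hc
    · have h1 := rho_mul (K := K) U V hVU
        (hb Prod.fst (HL lam t) (fun p => BB blk (lam p)) (V, l)) g
        (hb_mem (fun p => BB blk (lam p)) (HL_mem lam t (V, l))).1 hg.1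
      obtain ⟨c, hc'⟩ := rho_gen blk ht lam V hc.2 l
      have h2 : (V.image lam, l) ∈ GI := hGI _ (Finset.image_subset_image hVU) l
        (by rw [Finset.card_image_of_injOn hc.2, hc.1]) hl
      have h3 : fpol blk t (V.image lam) l ∈ fI blk t GI :=
        fpol_mem_fI (x := (V.image lam, l)) h2
      have h4 : c • fpol blk t (V.image lam) l ∈ fI blk t GI := by
        rw [nsmul_eq_mul]
        exact Ideal.mul_mem_left _ _ h3
      have h5 : rho K V (hb Prod.fst (HL lam t) (fun p => BB blk (lam p)) (V, l)) *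
          rho K (U \ V) g ∈ fI blk t GI := by
        rw [hc']
        exact Ideal.mul_mem_right _ _ h4
      rw [← h1] at h5
      have h6 : Fintype.card (P → A) ≠ 0 := Fintype.card_ne_zero
      exact mem_of_nsmul_mem h6 h5
    · simp at hl
  · rw [map_zero]
    exact Ideal.zero_mem _
  · intro x y _ _ hx hy
    rw [map_add]
    exact Ideal.add_mem _ hx hy
  · intro c x _ hx
    rw [map_smul, smul_eq_C_mul]
    exact Ideal.mul_mem_left _ _ hx

/-- The derivative property, polarized. -/
lemma ds_inj {blk : A → ℕ} {t : Sys K A} (ht : t ∈ adm K A) {GI : Finset (Finset ℕ × ℕ)}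
    {d : ℕ} (hd : 1 ≤ d) {C : Finset ℕ → Finset ℕ}
    (hGI : ∀ x, x ∈ GI ↔ x.1.card = d ∧ x.2 ∈ C x.1) (lam : P → ℕ)
    (hE : LEx d lam (BB blk) C Finset.univ t) (p : P)
    (w : Finset ℕ × ℕ → MvPolynomial A K)
    (hsum : ∀ a, ∑ x ∈ GI, w x * pderiv a (fpol blk t x.1 x.2) ∈ fI blk t GI)
    (T : Finset P) (hpT : p ∈ T) (hTd : T.card = d) (hinj : Set.InjOn lam T) (l : ℕ)
    (hl : l ∈ C (T.image lam)) :
    (bx K (fun p => BB blk (lam p)) (Finset.univ \ T) *
        pol (Finset.univ \ T) (w (T.image lam, l))) ∈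
      JJ (fun p => BB blk (lam p)) Prod.fst (hb Prod.fst (HL lam t) (fun p => BB blk (lam p)))
        (fam (CL d lam C)) (Finset.univ \ T) := by
  set Bp : P → Finset A := fun p => BB blk (lam p) with hBp
  have hne : ∀ l ∈ fam (CL d lam C), (Prod.fst l : Finset P).Nonempty := by
    intro l hl
    rw [mem_fam] at hl
    unfold CL at hl
    split_ifs at hl with h2
    · rw [← Finset.card_pos]
      omega
    · simp at hl
  have hhb : ∀ l ∈ fam (CL d lam C), hb Prod.fst (HL lam t) Bp l ∈ MM K Bp (Prod.fst l) :=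
    fun l _ => hb_mem _ (HL_mem lam t l)
  have hInj := Ex.inj hhb hne hE (Finset.Subset.refl _) (Finset.mem_univ p)
  set W : Finset P × ℕ → ((P → A) → K) := fun l' =>
    bx K Bp (Finset.univ \ l'.1) * pol (Finset.univ \ l'.1) (w (l'.1.image lam, l'.2)) with hW
  have hWm : ∀ l' : Finset P × ℕ, W l' ∈ MM K Bp (Finset.univ \ l'.1) :=
    fun l' => bx_mul_pol_mem _ _ _
  have hSpmem : ∀ l' : Finset P × ℕ, l' ∈ Sp Prod.fst (fam (CL d lam C)) Finset.univ p ↔
      (l'.1.card = d ∧ Set.InjOn lam (l'.1 : Set P)) ∧ l'.2 ∈ C (l'.1.image lam) ∧ p ∈ l'.1 := by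
    intro l'
    rw [mem_Sp, mem_fam]
    unfold CL
    constructor
    · rintro ⟨h1, h2, _⟩
      split_ifs at h1 with h3
      · exact ⟨h3, h1, h2⟩
      · simp at h1
    · rintro ⟨h1, h2, h3⟩
      rw [if_pos h1]
      exact ⟨h2, h3, Finset.subset_univ _⟩
  have hTl : (T, l) ∈ Sp Prod.fst (fam (CL d lam C)) Finset.univ p :=
    (hSpmem (T, l)).mpr ⟨⟨hTd, hinj⟩, hl, hpT⟩
  refine hInj W (fun l' _ => hWm l') ?_ (T, l) hTl
  have hφ : ∑ l' ∈ Sp Prod.fst (fam (CL d lam C)) Finset.univ p,
      hb Prod.fst (HL lam t) Bp l' * W l' ∈ MM K Bp Finset.univ := by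
    refine Submodule.sum_mem _ fun l' hl' => ?_
    refine MM_mul (hhb l' (mem_Sp.mp hl').1) (hWm l') ?_
    exact Finset.union_sdiff_of_subset (Finset.subset_univ _)
  refine mem_JJ_Sn_of_slices (Finset.mem_univ p) hφ ?_
  intro b hb'
  have hkey : sl K p b (∑ l' ∈ Sp Prod.fst (fam (CL d lam C)) Finset.univ p,
      hb Prod.fst (HL lam t) Bp l' * W l') =
      bx K Bp (Finset.univ.erase p) * pol (Finset.univ.erase p)
        (∑ x ∈ GI, w x * pderiv b (fpol blk t x.1 x.2)) := by
    funext y
    rw [sl_apply]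
    set y' := Function.update y p b with hy'
    by_cases hbox : ∀ q ∈ Finset.univ.erase p, y q ∈ Bp q
    · have hbox' : ∀ q, y' q ∈ Bp q := by
        intro q
        by_cases hqp : q = p
        · rw [hqp, hy', Function.update_self]
          exact hb'
        · rw [hy', Function.update_of_ne hqp]
          exact hbox q (Finset.mem_erase.mpr ⟨hqp, Finset.mem_univ q⟩)
      have hblk : ∀ q, blk (y' q) = lam q := fun q => mem_BB.mp (hbox' q)
      rw [Finset.sum_apply, Pi.mul_apply]
      have h1 : bx K Bp (Finset.univ.erase p) y = 1 := by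
        simp only [bx]
        rw [if_pos hbox]
      rw [h1, one_mul, pol_sum]
      -- expand the right-hand side
      have h2 : ∀ x ∈ GI, pol (Finset.univ.erase p) (w x * pderiv b (fpol blk t x.1 x.2)) y =
          ∑ V ∈ (Finset.univ.erase p).powerset, pol V (w x) y' *
            (if Set.InjOn lam ((Finset.univ \ V : Finset P) : Set P) ∧
              (Finset.univ \ V).image lam = x.1 then
              t x.1 x.2 (liftx lam (Finset.univ \ V) y') else 0) := by
        intro x _
        rw [pol_mul]
        refine Finset.sum_congr rfl fun V hV => ?_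
        rw [Finset.mem_powerset] at hV
        have hpV : p ∉ V := fun h => (Finset.mem_erase.mp (hV h)).1 rfl
        have h3 : pol V (w x) y = pol V (w x) y' := by
          apply pol_congr
          intro q hq
          rw [hy', Function.update_of_ne (fun h : q = p => hpV (h ▸ hq))]
        have h4 : pol ((Finset.univ.erase p) \ V) (pderiv b (fpol blk t x.1 x.2)) y =
            pol (Finset.univ \ V) (fpol blk t x.1 x.2) y' := by
          rw [pol_pderiv b _ _ p (fun h => (Finset.mem_erase.mp (Finset.mem_sdiff.mp h).1).1 rfl)]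
          congr 1
          ext q
          simp only [Finset.mem_insert, Finset.mem_sdiff, Finset.mem_erase, Finset.mem_univ,
            and_true, true_and]
          by_cases hqp : q = p
          · subst hqp
            simp [hpV]
          · simp [hqp]
        rw [h3, h4, pol_fpol blk ht x.1 x.2 lam (Finset.univ \ V) y' (fun q _ => hblk q)]
      rw [Finset.sum_congr rfl h2, ← Finset.sum_product']
      -- match the two sums
      have h5 : ∀ l' ∈ Sp Prod.fst (fam (CL d lam C)) Finset.univ p,
          (hb Prod.fst (HL lam t) Bp l' * W l') y' =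
          pol (Finset.univ \ l'.1) (w (l'.1.image lam, l'.2)) y' *
            t (l'.1.image lam) l'.2 (liftx lam l'.1 y') := by
        intro l' _
        simp only [hW, hb, HL, bx, Pi.mul_apply]
        rw [if_pos fun q _ => hbox' q, if_pos fun q _ => hbox' q]
        ring
      rw [Finset.sum_congr rfl h5]
      rw [← Finset.sum_filter_add_sum_filter_not (GI ×ˢ (Finset.univ.erase p).powerset)
        (fun z => Set.InjOn lam ((Finset.univ \ z.2 : Finset P) : Set P) ∧
              (Finset.univ \ z.2).image lam = z.1.1)]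
      have h6 : ∑ z ∈ (GI ×ˢ (Finset.univ.erase p).powerset).filter
          (fun z => ¬ (Set.InjOn lam ((Finset.univ \ z.2 : Finset P) : Set P) ∧
              (Finset.univ \ z.2).image lam = z.1.1)), pol z.2 (w z.1) y' *
            (if Set.InjOn lam ((Finset.univ \ z.2 : Finset P) : Set P) ∧
              (Finset.univ \ z.2).image lam = z.1.1 then
              t z.1.1 z.1.2 (liftx lam (Finset.univ \ z.2) y') else 0) = 0 := by
        apply Finset.sum_eq_zero
        intro z hz
        rw [if_neg (Finset.mem_filter.mp hz).2, mul_zero]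
      rw [h6, add_zero]
      refine Finset.sum_nbij' (fun l' => ((l'.1.image lam, l'.2), Finset.univ \ l'.1))
        (fun z => (Finset.univ \ z.2, z.1.2)) ?_ ?_ ?_ ?_ ?_
      · intro l' hl'
        rw [hSpmem] at hl'
        obtain ⟨⟨h7, h8⟩, h9, h10⟩ := hl'
        rw [Finset.mem_filter, Finset.mem_product, Finset.mem_powerset, hGI]
        simp only
        rw [Finset.sdiff_sdiff_eq_self (Finset.subset_univ _)]
        refine ⟨⟨⟨by rw [Finset.card_image_of_injOn h8, h7], h9⟩, ?_⟩, h8, rfl⟩
        intro q hq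
        rw [Finset.mem_sdiff] at hq
        exact Finset.mem_erase.mpr ⟨fun h => hq.2 (h ▸ h10), hq.1⟩
      · rintro ⟨⟨T', l'⟩, V⟩ hz
        rw [Finset.mem_filter, Finset.mem_product, Finset.mem_powerset, hGI] at hz
        simp only at hz
        obtain ⟨⟨⟨h7, h8⟩, h9⟩, h10, h11⟩ := hz
        rw [hSpmem]
        simp only
        refine ⟨⟨?_, h10⟩, by rw [h11]; exact h8, ?_⟩
        · rw [← h7, ← h11, Finset.card_image_of_injOn h10]
        · rw [Finset.mem_sdiff]
          exact ⟨Finset.mem_univ _, fun h => (Finset.mem_erase.mp (h9 h)).1 rfl⟩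
      · intro l' hl'
        simp only
        rw [Finset.sdiff_sdiff_eq_self (Finset.subset_univ _)]
      · rintro ⟨⟨T', l'⟩, V⟩ hz
        rw [Finset.mem_filter] at hz
        simp only at hz ⊢
        rw [hz.2.2, Finset.sdiff_sdiff_eq_self (Finset.subset_univ _)]
      · intro l' hl'
        rw [hSpmem] at hl'
        simp only
        rw [Finset.sdiff_sdiff_eq_self (Finset.subset_univ _), if_pos ⟨hl'.1.2, rfl⟩]
    · have h1 : bx K Bp (Finset.univ.erase p) y = 0 := by
        simp only [bx]
        rw [if_neg hbox]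
      rw [Pi.mul_apply, h1, zero_mul]
      apply hφ.2
      push Not at hbox
      obtain ⟨q, hq, hyq⟩ := hbox
      refine ⟨q, Finset.mem_univ q, ?_⟩
      rw [hy', Function.update_of_ne (Finset.mem_erase.mp hq).1]
      exact hyq
  rw [hkey]
  exact pol_mem_JJ ht (fun x hx => (hGI x).mp hx) lam (hsum b) _

/-- The derivative property. -/
theorem ds_main [CharZero K] {blk : A → ℕ} {t : Sys K A} (ht : t ∈ adm K A)
    {GI : Finset (Finset ℕ × ℕ)} {d : ℕ} (hd : 1 ≤ d) {C : Finset ℕ → Finset ℕ}
    (hGI : ∀ x, x ∈ GI ↔ x.1.card = d ∧ x.2 ∈ C x.1) {k : ℕ} (hblk : ∀ a, blk a < k)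
    (hGk : ∀ x ∈ GI, ∀ i ∈ x.1, i < k)
    (hE : ∀ lam : P → ℕ, (∀ p, lam p < k) → LEx d lam (BB blk) C Finset.univ t) {e : ℕ}
    (hP : Fintype.card P = e + d)
    (w : Finset ℕ × ℕ → MvPolynomial A K) (hw : ∀ x ∈ GI, (w x).IsHomogeneous e)
    (hsum : ∀ a, ∑ x ∈ GI, w x * pderiv a (fpol blk t x.1 x.2) ∈ fI blk t GI) :
    ∀ x ∈ GI, w x ∈ fI blk t GI := by
  rintro ⟨T₀, l₀⟩ hx
  obtain ⟨hT₀d, hl₀⟩ := (hGI (T₀, l₀)).mp hx
  simp only at hT₀d hl₀
  -- positions of the generator
  obtain ⟨T, _, hT⟩ := Finset.exists_subset_card_eq (s := (Finset.univ : Finset P)) (n := d)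
    (by rw [Finset.card_univ, hP]; omega)
  set U := Finset.univ \ T with hU
  have hUc : U.card = e := by
    rw [hU, Finset.card_sdiff_of_subset (Finset.subset_univ _), Finset.card_univ, hP, hT]
    omega
  obtain ⟨p, hpT⟩ : T.Nonempty := by
    rw [← Finset.card_pos]
    omega
  -- labels of these positions
  have heq : T.card = T₀.card := by rw [hT, hT₀d]
  let eT := Finset.equivOfCardEq heq
  let lam₀ : P → ℕ := fun q => if h : q ∈ T then (eT ⟨q, h⟩).1 else 0
  have hlam₀ : ∀ q (h : q ∈ T), lam₀ q = (eT ⟨q, h⟩).1 := fun q h => by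
    simp only [lam₀]
    rw [dif_pos h]
  let lamy : (P → A) → (P → ℕ) := fun y q => if q ∈ U then blk (y q) else lam₀ q
  have hUT : ∀ q, q ∈ U ↔ q ∉ T := by
    intro q
    rw [hU, Finset.mem_sdiff]
    exact ⟨fun h => h.2, fun h => ⟨Finset.mem_univ _, h⟩⟩
  have hlamyT : ∀ y, ∀ q (h : q ∈ T), lamy y q = (eT ⟨q, h⟩).1 := by
    intro y q h
    simp only [lamy]
    rw [if_neg (fun h' => ((hUT q).mp h') h), hlam₀ q h]
  have hlamyk : ∀ y q, lamy y q < k := by
    intro y q
    by_cases h : q ∈ T
    · rw [hlamyT y q h]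
      exact hGk _ hx _ (eT ⟨q, h⟩).2
    · simp only [lamy]
      rw [if_pos ((hUT q).mpr h)]
      exact hblk _
  have hlamyinj : ∀ y, Set.InjOn (lamy y) (T : Set P) := by
    intro y q hq q' hq' hqq'
    rw [hlamyT y q hq, hlamyT y q' hq'] at hqq'
    have := eT.injective (Subtype.ext hqq')
    exact congrArg Subtype.val this
  have hlamyimg : ∀ y, T.image (lamy y) = T₀ := by
    intro y
    ext i
    rw [Finset.mem_image]
    constructor
    · rintro ⟨q, hq, rfl⟩
      rw [hlamyT y q hq]
      exact (eT ⟨q, hq⟩).2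
    · intro hi
      refine ⟨(eT.symm ⟨i, hi⟩).1, (eT.symm ⟨i, hi⟩).2, ?_⟩
      rw [hlamyT y _ (eT.symm ⟨i, hi⟩).2]
      have : eT ⟨(eT.symm ⟨i, hi⟩).1, (eT.symm ⟨i, hi⟩).2⟩ = ⟨i, hi⟩ := by
        rw [Subtype.coe_eta, Equiv.apply_symm_apply]
      rw [this]
  -- the pieces of the polarization
  have hpiece : ∀ y, rho K U (bx K (fun q => BB blk (lamy y q)) U *
      pol U (w (T₀, l₀))) ∈ fI blk t GI := by
    intro y
    have h1 := ds_inj ht hd hGI (lamy y) (hE (lamy y) (hlamyk y)) p w hsum T hpT hT (hlamyinj y)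
      l₀ (by rw [hlamyimg y]; exact hl₀)
    rw [hlamyimg y] at h1
    exact rho_mem_fI ht (lamy y) U (fun T' _ l' h2 h3 => (hGI (T', l')).mpr ⟨h2, h3⟩) h1
  -- the sum of the pieces
  have hsumpieces : pol U (w (T₀, l₀)) = ∑ lam ∈ Finset.univ.image lamy,
      bx K (fun q => BB blk (lam q)) U * pol U (w (T₀, l₀)) := by
    funext y
    rw [Finset.sum_apply, Finset.sum_eq_single (lamy y)]
    · simp only [Pi.mul_apply, bx]
      rw [if_pos, one_mul]
      intro q hq
      rw [mem_BB]
      simp only [lamy]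
      rw [if_pos hq]
    · intro lam hlam hne
      obtain ⟨y', _, hy'⟩ := Finset.mem_image.mp hlam
      simp only [Pi.mul_apply, bx]
      rw [if_neg, zero_mul]
      intro h
      apply hne
      funext q
      by_cases hq : q ∈ U
      · have h2 := mem_BB.mp (h q hq)
        rw [← h2]
        simp only [lamy]
        rw [if_pos hq]
      · have hqT : q ∈ T := by
          by_contra h3
          exact hq ((hUT q).mpr h3)
        rw [← hy', hlamyT y' q hqT, hlamyT y q hqT]
    · intro h
      exact absurd (Finset.mem_image_of_mem _ (Finset.mem_univ y)) h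
  have hrho : rho K U (pol U (w (T₀, l₀))) ∈ fI blk t GI := by
    rw [hsumpieces, map_sum]
    refine Ideal.sum_mem _ fun lam hlam => ?_
    obtain ⟨y, _, rfl⟩ := Finset.mem_image.mp hlam
    exact hpiece y
  have hfin := rho_pol U (w (T₀, l₀)) (by rw [hUc]; exact hw _ hx)
  have hApos : 0 < Fintype.card A := Fintype.card_pos
  apply mem_of_nsmul_mem (n := Fintype.card A ^ Fintype.card P * U.card.factorial)
  · positivity
  · rw [← hfin, nsmul_eq_mul]
    exact Ideal.mul_mem_left _ _ hrho

end Pool.Agent.H21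

end

section

/-!
Exactness for repeated labels: the states of a split block.
-/

set_option linter.unusedSectionVars false

namespace Pool.Agent.H21

open scoped Classical

variable {K : Type} [Field K] {P : Type} [Fintype P] {A : Type} [Fintype A] [Nonempty A]

lemma Ex.congr {Λ : Type*} {B B' : P → Finset A} {supp : Λ → Finset P}
    {h h' : Λ → ((P → A) → K)} {S S' : Finset Λ} {Q : Finset P}
    (hE : Ex B supp h S Q) (hB : ∀ p ∈ Q, B p = B' p)
    (hS : ∀ l, supp l ⊆ Q → (l ∈ S ↔ l ∈ S')) (hh : ∀ l ∈ S, supp l ⊆ Q → h l = h' l) :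
    Ex B' supp h' S' Q := by
  intro Q' hQ'
  have h1 := hE Q' hQ'
  have hB' : ∀ p ∈ Q', B p = B' p := fun p hp => hB p (hQ' hp)
  have hS' : ∀ l, supp l ⊆ Q' → (l ∈ S ↔ l ∈ S') := fun l hl => hS l (hl.trans hQ')
  rw [EE_box_congr hB' hS'] at h1
  refine le_trans (le_of_eq ?_) h1
  unfold DD
  have h2 : JJ B' supp h' S' Q' = JJ B supp h S Q' := by
    apply le_antisymm
    · apply JJ_le_of fun p hp => (hB' p hp).symm
      intro l hl hlQ
      have hl' := (hS' l hlQ).mpr hl
      exact ⟨l, hl', rfl, hh l hl' (hlQ.trans hQ')⟩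
    · apply JJ_le_of hB'
      intro l hl hlQ
      exact ⟨l, (hS' l hlQ).mp hl, rfl, (hh l hl (hlQ.trans hQ')).symm⟩
  rw [h2, Finset.prod_congr rfl fun p hp => by rw [← hB' p hp]]

/-- Exactness from injectivity. -/
lemma Ex_of_inj {Λ : Type*} {B : P → Finset A} {supp : Λ → Finset P}
    {h : Λ → ((P → A) → K)} {S : Finset Λ} {Q : Finset P}
    (hh : ∀ l ∈ S, h l ∈ MM K B (supp l)) (hne : ∀ l ∈ S, (supp l).Nonempty)
    (hI : ∀ Q' ⊆ Q, Q'.Nonempty → ∃ p ∈ Q', Inj B supp h S Q' p) : Ex B supp h S Q := by
  have key : ∀ (n : ℕ) (Q' : Finset P), Q'.card = n → Q' ⊆ Q →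
      DD B supp h S Q' = EE (wt B supp S) Q' := by
    intro n
    induction n using Nat.strong_induction_on with
    | _ n ih =>
      intro Q' hn hQ'
      by_cases hem : Q'.Nonempty
      · obtain ⟨p, hp, hIp⟩ := hI Q' hQ' hem
        have hsm : ∀ T ∈ sub Q' p, DD B supp h S (Q' \ T) = EE (wt B supp S) (Q' \ T) := by
          intro T hT
          rw [mem_sub] at hT
          exact ih _ (by rw [← hn]; exact card_sdiff_lt hT.1 hT.2) _ rfl
            (Finset.sdiff_subset.trans hQ')
        refine le_antisymm (DD_le_of_inj hh hp hIp hsm) ?_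
        rw [EE_rec' _ Q' p hp]
        refine le_trans (le_of_eq ?_) (DD_iff hh hp).1
        exact Finset.sum_congr rfl fun T hT => by rw [hsm T hT]
      · rw [Finset.not_nonempty_iff_eq_empty] at hem
        rw [hem, DD_empty hne, EE_empty]
  exact fun Q' hQ' => (key _ Q' rfl hQ').le

section Defs

variable (lam : P → ℕ) (i z : ℕ) (X Z : Finset A) (B : ℕ → Finset A)
  (C Old New : Finset ℕ → Finset ℕ) (t : Sys K A) (Zs Ys R : Finset P) (d : ℕ)

/-- Relabel the positions in `Zs` by `z`. -/
noncomputable def lamZ (q : P) : ℕ := if q ∈ Zs then z else lam q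

/-- Boxes after splitting. -/
noncomputable def Bm : ℕ → Finset A := Function.update (Function.update B i X) z Z

/-- Index sets after splitting. -/
noncomputable def Cm (W : Finset ℕ → Finset ℕ) (T : Finset ℕ) : Finset ℕ :=
  if z ∈ T then (if i ∈ T then ∅ else New (insert i (T.erase z))) else W T

/-- The system on the union of the two parts. -/
noncomputable def Fsys : Sys K A := fun T l x =>
  if i ∈ T then
    (if x i ∈ X then t T l x else 0) +
    (if x i ∈ Z ∧ l ∈ New T then t (insert z (T.erase i)) l (Function.update x z (x i)) else 0)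
  else t T l x

/-- Boxes of a state. -/
noncomputable def Bst (q : P) : Finset A :=
  if q ∈ Zs then Z else if q ∈ Ys then X ∪ Z else if q ∈ R then X else B (lam q)

/-- Index sets of a state. -/
noncomputable def Cst (T : Finset P) : Finset ℕ :=
  if T.card = d ∧ Set.InjOn lam T then
    (if ∃ q ∈ T, q ∈ Zs then New (T.image lam)
    else if ∃ q ∈ T, q ∈ Ys then C (T.image lam) else Old (T.image lam))
  else ∅

end Defs

variable {lam : P → ℕ} {i z : ℕ} {X Z : Finset A} {B : ℕ → Finset A}
  {C Old New : Finset ℕ → Finset ℕ} {t : Sys K A} {Q R : Finset P} {d : ℕ}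

lemma Fsys_adm (ht : t ∈ adm K A) : Fsys i z X Z New t ∈ adm K A := by
  intro T l x y hxy
  unfold Fsys
  by_cases hi : i ∈ T
  · rw [if_pos hi, if_pos hi, hxy i hi, ht T l x y hxy]
    congr 1
    have : t (insert z (T.erase i)) l (Function.update x z (y i)) =
        t (insert z (T.erase i)) l (Function.update y z (y i)) := by
      apply ht
      intro j hj
      by_cases hjz : j = z
      · subst hjz
        rw [Function.update_self, Function.update_self]
      · rw [Function.update_of_ne hjz, Function.update_of_ne hjz]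
        rcases Finset.mem_insert.mp hj with h | h
        · exact absurd h hjz
        · exact hxy j (Finset.mem_of_mem_erase h)
    rw [this]
  · rw [if_neg hi, if_neg hi]
    exact ht T l x y hxy

/-- Facts about label-injective sets of positions. -/
lemma image_lamZ_of_disjoint {Zs T : Finset P} (h : ¬ ∃ q ∈ T, q ∈ Zs) :
    T.image (lamZ lam z Zs) = T.image lam := by
  apply Finset.image_congr
  intro q hq
  unfold lamZ
  rw [if_neg fun h' => h ⟨q, hq, h'⟩]

lemma image_lamZ_of_mem {Zs T : Finset P} (hinj : Set.InjOn lam T) (hZs : ∀ q ∈ Zs, lam q = i)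
    {q : P} (hq : q ∈ T) (hqZ : q ∈ Zs) :
    T.image (lamZ lam z Zs) = insert z ((T.image lam).erase i) := by
  ext j
  simp only [Finset.mem_image, Finset.mem_insert, Finset.mem_erase]
  constructor
  · rintro ⟨p, hp, rfl⟩
    unfold lamZ
    by_cases hpZ : p ∈ Zs
    · rw [if_pos hpZ]
      exact Or.inl rfl
    · rw [if_neg hpZ]
      refine Or.inr ⟨fun h => ?_, p, hp, rfl⟩
      have : p = q := hinj hp hq (by rw [h, hZs q hqZ])
      exact hpZ (this ▸ hqZ)
  · rintro (h | ⟨h1, p, hp, rfl⟩)
    · refine ⟨q, hq, ?_⟩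
      unfold lamZ
      rw [if_pos hqZ, h]
    · refine ⟨p, hp, ?_⟩
      unfold lamZ
      rw [if_neg fun h => h1 (hZs p h)]

lemma injOn_lamZ {Zs T : Finset P} (hinj : Set.InjOn lam T) (hZs : ∀ q ∈ Zs, lam q = i)
    (hz : z ∉ T.image lam) : Set.InjOn (lamZ lam z Zs) T := by
  intro p hp q hq hpq
  unfold lamZ at hpq
  by_cases h1 : p ∈ Zs
  · by_cases h2 : q ∈ Zs
    · exact hinj hp hq (by rw [hZs p h1, hZs q h2])
    · rw [if_pos h1, if_neg h2] at hpq
      exact absurd (Finset.mem_image.mpr ⟨q, hq, hpq.symm⟩) hz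
  · by_cases h2 : q ∈ Zs
    · rw [if_neg h1, if_pos h2] at hpq
      exact absurd (Finset.mem_image.mpr ⟨p, hp, hpq⟩) hz
    · rw [if_neg h1, if_neg h2] at hpq
      exact hinj hp hq hpq

/-- The index sets of a split labelled system. -/
lemma CL_lamZ {Zs T : Finset P} (W : Finset ℕ → Finset ℕ) (hZs : ∀ q ∈ Zs, lam q = i)
    (hiz : i ≠ z) (hz : z ∉ T.image lam) :
    CL d (lamZ lam z Zs) (Cm i z New W) T =
      if T.card = d ∧ Set.InjOn lam T then
        (if ∃ q ∈ T, q ∈ Zs then New (T.image lam) else W (T.image lam)) else ∅ := by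
  unfold CL
  by_cases hd : T.card = d
  · by_cases hinj : Set.InjOn lam T
    · rw [if_pos ⟨hd, injOn_lamZ hinj hZs hz⟩, if_pos ⟨hd, hinj⟩]
      by_cases hex : ∃ q ∈ T, q ∈ Zs
      · rw [if_pos hex]
        obtain ⟨q, hq, hqZ⟩ := hex
        rw [image_lamZ_of_mem hinj hZs hq hqZ]
        unfold Cm
        rw [if_pos (Finset.mem_insert_self _ _), if_neg]
        · congr 1
          have h1 : i ∈ T.image lam := Finset.mem_image.mpr ⟨q, hq, hZs q hqZ⟩
          rw [Finset.erase_insert, Finset.insert_erase h1]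
          intro h2
          exact hz (Finset.mem_of_mem_erase h2)
        · intro h1
          rcases Finset.mem_insert.mp h1 with h2 | h2
          · exact hiz h2
          · exact (Finset.mem_erase.mp h2).1 rfl
      · rw [if_neg hex, image_lamZ_of_disjoint hex]
        unfold Cm
        rw [if_neg hz]
    · rw [if_neg (c := T.card = d ∧ Set.InjOn lam T) fun h => hinj h.2]
      by_cases hinj' : Set.InjOn (lamZ lam z Zs) T
      · rw [if_pos ⟨hd, hinj'⟩]
        -- both i and z occur
        have h1 : ∃ p ∈ T, ∃ q ∈ T, lam p = lam q ∧ p ≠ q := by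
          by_contra hcon
          push Not at hcon
          exact hinj fun p hp q hq hpq => hcon p hp q hq hpq
        obtain ⟨p, hp, q, hq, hpq, hne⟩ := h1
        have h2 : ∃ a ∈ T, ∃ b ∈ T, a ∈ Zs ∧ b ∉ Zs ∧ lam a = lam b := by
          by_cases hpZ : p ∈ Zs
          · by_cases hqZ : q ∈ Zs
            · exfalso
              apply hne
              apply hinj' hp hq
              unfold lamZ
              rw [if_pos hpZ, if_pos hqZ]
            · exact ⟨p, hp, q, hq, hpZ, hqZ, hpq⟩
          · by_cases hqZ : q ∈ Zs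
            · exact ⟨q, hq, p, hp, hqZ, hpZ, hpq.symm⟩
            · exfalso
              apply hne
              apply hinj' hp hq
              unfold lamZ
              rw [if_neg hpZ, if_neg hqZ, hpq]
        obtain ⟨a, ha, b, hb, haZ, hbZ, hab⟩ := h2
        unfold Cm
        rw [if_pos, if_pos]
        · refine Finset.mem_image.mpr ⟨b, hb, ?_⟩
          unfold lamZ
          rw [if_neg hbZ, ← hab, hZs a haZ]
        · refine Finset.mem_image.mpr ⟨a, ha, ?_⟩
          unfold lamZ
          rw [if_pos haZ]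
      · rw [if_neg fun h => hinj' h.2]
  · rw [if_neg fun h => hd h.1, if_neg fun h => hd h.1]

/-- The functions of a split labelled system. -/
lemma hb_lamZ (ht : t ∈ adm K A) {Zs T : Finset P} (hinj : Set.InjOn lam T)
    (hZs : ∀ q ∈ Zs, lam q = i) (hiz : i ≠ z) (hz : z ∉ T.image lam) (hXZ : Disjoint X Z)
    (Bp : P → Finset A) (hBp : ∀ q ∈ T, Bp q = Bm i z X Z B (lamZ lam z Zs q))
    (l : ℕ) (hl : (∃ q ∈ T, q ∈ Zs) → l ∈ New (T.image lam)) :
    hb Prod.fst (HL (lamZ lam z Zs) t) Bp (T, l) =
      hb Prod.fst (HL lam (Fsys i z X Z New t)) Bp (T, l) := by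
  funext x
  simp only [hb, bx, Pi.mul_apply]
  by_cases hx : ∀ p ∈ T, x p ∈ Bp p
  · rw [if_pos hx, one_mul, one_mul]
    unfold HL
    simp only
    have hinj' := injOn_lamZ hinj hZs hz
    by_cases hex : ∃ q ∈ T, q ∈ Zs
    · have hlN := hl hex
      obtain ⟨q, hq, hqZ⟩ := hex
      have hqi := hZs q hqZ
      have hiT : i ∈ T.image lam := Finset.mem_image.mpr ⟨q, hq, hqi⟩
      have hxq : x q ∈ Z := by
        have h1 := hx q hq
        rw [hBp q hq] at h1
        have h2 : lamZ lam z Zs q = z := by
          unfold lamZ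
          rw [if_pos hqZ]
        rw [h2] at h1
        unfold Bm at h1
        rwa [Function.update_self] at h1
      have hlift : liftx lam T x i = x q := by
        rw [← hqi]
        exact liftx_apply hinj x hq
      rw [image_lamZ_of_mem hinj hZs hq hqZ]
      unfold Fsys
      rw [if_pos hiT, hlift, if_neg (Finset.disjoint_right.mp hXZ hxq), zero_add,
        if_pos ⟨hxq, hlN⟩]
      apply ht
      intro j hj
      rcases Finset.mem_insert.mp hj with h3 | h3
      · rw [h3, Function.update_self]
        have h2 : lamZ lam z Zs q = z := by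
          unfold lamZ
          rw [if_pos hqZ]
        have h8 := liftx_apply hinj' x hq
        rw [h2] at h8
        exact h8
      · obtain ⟨h4, h5⟩ := Finset.mem_erase.mp h3
        obtain ⟨p, hp, hpj⟩ := Finset.mem_image.mp h5
        have hjz : j ≠ z := fun h => hz (h ▸ h5)
        rw [Function.update_of_ne hjz]
        have h6 : lamZ lam z Zs p = j := by
          unfold lamZ
          rw [if_neg, hpj]
          intro h7
          exact h4 (by rw [← hpj]; exact hZs p h7)
        conv_lhs => rw [← h6, liftx_apply hinj' x hp]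
        rw [← hpj, liftx_apply hinj x hp]
    · rw [image_lamZ_of_disjoint hex]
      have hliftEq : ∀ j ∈ T.image lam, liftx (lamZ lam z Zs) T x j = liftx lam T x j := by
        intro j hj
        obtain ⟨p, hp, hpj⟩ := Finset.mem_image.mp hj
        have h6 : lamZ lam z Zs p = j := by
          unfold lamZ
          rw [if_neg fun h7 => hex ⟨p, hp, h7⟩, hpj]
        conv_lhs => rw [← h6, liftx_apply hinj' x hp]
        rw [← hpj, liftx_apply hinj x hp]
      unfold Fsys
      by_cases hiT : i ∈ T.image lam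
      · obtain ⟨q, hq, hqi⟩ := Finset.mem_image.mp hiT
        have hlift : liftx lam T x i = x q := by
          rw [← hqi]
          exact liftx_apply hinj x hq
        have hxq : x q ∈ X := by
          have h1 := hx q hq
          rw [hBp q hq] at h1
          have h2 : lamZ lam z Zs q = i := by
            unfold lamZ
            rw [if_neg fun h7 => hex ⟨q, hq, h7⟩, hqi]
          rw [h2] at h1
          unfold Bm at h1
          rwa [Function.update_of_ne hiz, Function.update_self] at h1
        rw [if_pos hiT, hlift, if_pos hxq,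
          if_neg (fun h => Finset.disjoint_left.mp hXZ hxq h.1), add_zero]
        exact ht _ _ _ _ hliftEq
      · rw [if_neg hiT]
        exact ht _ _ _ _ hliftEq
  · rw [if_neg hx, zero_mul, zero_mul]

/-- All states of a split block are exact, hence so is the labelled system. -/
theorem state_ex (hd : 1 ≤ d) (ht : t ∈ adm K A) (hR : R = Q.filter (fun q => lam q = i))
    (hz : z ∉ Q.image lam) (hiz : i ≠ z) (hXZ : Disjoint X Z) (hB : B i = X ∪ Z)
    (hON : ∀ T, Old T ∪ New T = C T) (hdisj : ∀ T, Disjoint (Old T) (New T))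
    (hnew : ∀ T, i ∉ T → New T = ∅) (p : P) (hp : p ∈ R)
    (h1 : LEx d lam (Function.update B i X) Old Q t)
    (h2 : ∀ Zs ⊆ R, Zs.Nonempty → Zs ≠ R →
      LEx d (lamZ lam z Zs) (Bm i z X Z B) (Cm i z New Old) Q t)
    (h3 : LEx d (lamZ lam z (R.erase p)) (Bm i z X Z B) (Cm i z New C) Q t) :
    LEx d lam B C Q (Fsys i z X Z New t) := by
  have hRi : ∀ q ∈ R, lam q = i := fun q hq => by
    rw [hR] at hq
    exact (Finset.mem_filter.mp hq).2
  have hRmem : ∀ q, q ∈ Q → lam q = i → q ∈ R := fun q hq hqi => by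
    rw [hR]
    exact Finset.mem_filter.mpr ⟨hq, hqi⟩
  have hzT : ∀ T : Finset P, T ⊆ Q → z ∉ T.image lam := fun T hT h =>
    hz (Finset.image_subset_image hT h)
  -- boxes of states without Y
  have hBst0 : ∀ Zs ⊆ R, ∀ q ∈ Q, Bst lam X Z B Zs ∅ R q = Bm i z X Z B (lamZ lam z Zs q) := by
    intro Zs hZs q hq
    unfold Bst lamZ Bm
    by_cases hqZ : q ∈ Zs
    · rw [if_pos hqZ, if_pos hqZ, Function.update_self]
    · rw [if_neg hqZ, if_neg hqZ, if_neg (Finset.notMem_empty q)]
      have hqz : lam q ≠ z := fun h => hz (Finset.mem_image.mpr ⟨q, hq, h⟩)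
      by_cases hqR : q ∈ R
      · rw [if_pos hqR, hRi q hqR, Function.update_of_ne hiz, Function.update_self]
      · rw [if_neg hqR, Function.update_of_ne hqz, Function.update_of_ne]
        intro h
        exact hqR (hRmem q hq h)
  -- states without Y
  have hst0 : ∀ Zs ⊆ R, Zs ≠ R → Ex (Bst lam X Z B Zs ∅ R) Prod.fst
      (hb Prod.fst (HL lam (Fsys i z X Z New t)) (Bst lam X Z B Zs ∅ R))
      (fam (Cst lam C Old New Zs ∅ d)) Q := by
    intro Zs hZs hZsR
    have hZsi : ∀ q ∈ Zs, lam q = i := fun q hq => hRi q (hZs hq)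
    have hCst : ∀ T ⊆ Q, Cst lam C Old New Zs ∅ d T =
        CL d (lamZ lam z Zs) (Cm i z New Old) T := by
      intro T hT
      rw [CL_lamZ Old hZsi hiz (hzT T hT)]
      unfold Cst
      split_ifs <;> first | rfl | (exfalso; simp_all)
    by_cases hem : Zs.Nonempty
    · refine (h2 Zs hZs hem hZsR).congr (fun q hq => (hBst0 Zs hZs q hq).symm) ?_ ?_
      · intro l hl
        rw [mem_fam, mem_fam, hCst l.1 hl]
      · rintro ⟨T, l⟩ hl hT
        rw [mem_fam] at hl
        simp only at hl hT
        have hT' := hl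
        rw [CL_lamZ Old hZsi hiz (hzT T hT)] at hT'
        have hinj : Set.InjOn lam T := by
          by_contra hcon
          rw [if_neg fun h => hcon h.2] at hT'
          simp at hT'
        have hTd : T.card = d := by
          by_contra hcon
          rw [if_neg fun h => hcon h.1] at hT'
          simp at hT'
        rw [if_pos ⟨hTd, hinj⟩] at hT'
        have h5 := hb_lamZ (New := New) ht hinj hZsi hiz (hzT T hT) hXZ
          (fun q => Bm i z X Z B (lamZ lam z Zs q)) (fun q _ => rfl) l (fun hex => by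
            rw [if_pos hex] at hT'
            exact hT')
        rw [h5]
        exact hb_congr fun q hq => (hBst0 Zs hZs q (hT hq)).symm
    · rw [Finset.not_nonempty_iff_eq_empty] at hem
      subst hem
      have hlamZ : lamZ lam z (∅ : Finset P) = lam := by
        funext q
        unfold lamZ
        rw [if_neg (Finset.notMem_empty q)]
      refine h1.congr ?_ ?_ ?_
      · intro q hq
        rw [hBst0 ∅ (Finset.empty_subset _) q hq, hlamZ]
        unfold Bm
        exact (Function.update_of_ne
          (fun h => hz (Finset.mem_image.mpr ⟨q, hq, h⟩)) _ _).symm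
      · intro l hl
        rw [mem_fam, mem_fam]
        unfold CL Cst
        split_ifs <;> first | rfl | (exfalso; simp_all)
      · rintro ⟨T, l⟩ hl hT
        rw [mem_fam] at hl
        simp only at hl hT
        unfold CL at hl
        have hinj : Set.InjOn lam T := by
          by_contra hcon
          rw [if_neg fun h => hcon h.2] at hl
          simp at hl
        have h5 := hb_lamZ (New := New) (Zs := ∅) ht hinj (by simp) hiz (hzT T hT) hXZ
          (fun q => Bm i z X Z B (lamZ lam z ∅ q)) (fun q _ => rfl) l (by simp)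
        have h6 : hb Prod.fst (HL lam t) (fun p => Function.update B i X (lam p)) (T, l) =
            hb Prod.fst (HL (lamZ lam z ∅) t)
              (fun q => Bm i z X Z B (lamZ lam z ∅ q)) (T, l) := by
          rw [hlamZ]
          refine hb_congr fun q hq => ?_
          unfold Bm
          rw [Function.update_of_ne (a := lam q) (a' := z)]
          exact fun h => hz (Finset.mem_image.mpr ⟨q, hT hq, h⟩)
        rw [h6, h5]
        exact hb_congr fun q hq => (hBst0 ∅ (Finset.empty_subset _) q (hT hq)).symm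
  -- functions vanish on Z for the old index set
  have hH : ∀ l : Finset P × ℕ, HL lam (Fsys i z X Z New t) l ∈ Dp (A := A) K (Prod.fst l) :=
    fun l => HL_mem lam _ l
  have hfamne : ∀ Zs Ys : Finset P, ∀ l ∈ fam (Cst lam C Old New Zs Ys d),
      l.1.card = d ∧ Set.InjOn lam (l.1 : Set P) := by
    intro Zs Ys l hl
    rw [mem_fam] at hl
    unfold Cst at hl
    split_ifs at hl with h4 <;> first | exact h4 | (simp at hl)
  -- merging at a position in state Y
  have hmerge : ∀ Zs Ys : Finset P, Zs ⊆ R → Ys ⊆ R → Disjoint Zs Ys → ∀ q ∈ Ys,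
      Ex (Bst lam X Z B Zs (Ys.erase q) R) Prod.fst
        (hb Prod.fst (HL lam (Fsys i z X Z New t)) (Bst lam X Z B Zs (Ys.erase q) R))
        (fam (Cst lam C Old New Zs (Ys.erase q) d)) Q →
      Ex (Bst lam X Z B (insert q Zs) (Ys.erase q) R) Prod.fst
        (hb Prod.fst (HL lam (Fsys i z X Z New t)) (Bst lam X Z B (insert q Zs) (Ys.erase q) R))
        (fam (Cst lam C Old New (insert q Zs) (Ys.erase q) d)) Q →
      Ex (Bst lam X Z B Zs Ys R) Prod.fst
        (hb Prod.fst (HL lam (Fsys i z X Z New t)) (Bst lam X Z B Zs Ys R))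
        (fam (Cst lam C Old New Zs Ys d)) Q := by
    intro Zs Ys hZs hYs hdis q hq hEX hEZ
    have hqR : q ∈ R := hYs hq
    have hqZ : q ∉ Zs := Finset.disjoint_right.mp hdis hq
    have hBX : Function.update (Bst lam X Z B Zs Ys R) q X = Bst lam X Z B Zs (Ys.erase q) R := by
      funext p'
      by_cases hp' : p' = q
      · subst hp'
        rw [Function.update_self]
        unfold Bst
        rw [if_neg hqZ, if_neg (Finset.notMem_erase _ _), if_pos hqR]
      · rw [Function.update_of_ne hp']
        unfold Bst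
        have : p' ∈ Ys.erase q ↔ p' ∈ Ys := by
          rw [Finset.mem_erase]
          exact ⟨fun h => h.2, fun h => ⟨hp', h⟩⟩
        simp only [this]
    have hBZ : Function.update (Bst lam X Z B Zs Ys R) q Z =
        Bst lam X Z B (insert q Zs) (Ys.erase q) R := by
      funext p'
      by_cases hp' : p' = q
      · subst hp'
        rw [Function.update_self]
        unfold Bst
        rw [if_pos (Finset.mem_insert_self _ _)]
      · rw [Function.update_of_ne hp']
        unfold Bst
        have h4 : p' ∈ Ys.erase q ↔ p' ∈ Ys := by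
          rw [Finset.mem_erase]
          exact ⟨fun h => h.2, fun h => ⟨hp', h⟩⟩
        have h5 : p' ∈ insert q Zs ↔ p' ∈ Zs := by
          rw [Finset.mem_insert]
          exact ⟨fun h => h.resolve_left hp', fun h => Or.inr h⟩
        simp only [h4, h5]
    -- only q among the positions of R
    have honly : ∀ T : Finset P, Set.InjOn lam (T : Set P) → q ∈ T → ∀ q' ∈ T, q' ∈ R → q' = q := by
      intro T hinj hqT q' hq' hq'R
      exact hinj hq' hqT (by rw [hRi q' hq'R, hRi q hqR])
    have hCq : ∀ T : Finset P, T.card = d → Set.InjOn lam (T : Set P) → q ∈ T →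
        Cst lam C Old New Zs Ys d T = C (T.image lam) ∧
        Cst lam C Old New Zs (Ys.erase q) d T = Old (T.image lam) ∧
        Cst lam C Old New (insert q Zs) (Ys.erase q) d T = New (T.image lam) := by
      intro T hTd hinj hqT
      have h4 : ¬ ∃ q' ∈ T, q' ∈ Zs := by
        rintro ⟨q', hq', hq'Z⟩
        rw [honly T hinj hqT q' hq' (hZs hq'Z)] at hq'Z
        exact hqZ hq'Z
      have h5 : ¬ ∃ q' ∈ T, q' ∈ Ys.erase q := by
        rintro ⟨q', hq', hq'Z⟩
        rw [Finset.mem_erase] at hq'Z
        exact hq'Z.1 (honly T hinj hqT q' hq' (hYs hq'Z.2))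
      refine ⟨?_, ?_, ?_⟩
      · unfold Cst
        rw [if_pos ⟨hTd, hinj⟩, if_neg h4, if_pos ⟨q, hqT, hq⟩]
      · unfold Cst
        rw [if_pos ⟨hTd, hinj⟩, if_neg h4, if_neg h5]
      · unfold Cst
        rw [if_pos ⟨hTd, hinj⟩, if_pos ⟨q, hqT, Finset.mem_insert_self _ _⟩]
    have hCn : ∀ T : Finset P, q ∉ T →
        Cst lam C Old New Zs (Ys.erase q) d T = Cst lam C Old New Zs Ys d T ∧
        Cst lam C Old New (insert q Zs) (Ys.erase q) d T = Cst lam C Old New Zs Ys d T := by
      intro T hqT
      have h4 : (∃ q' ∈ T, q' ∈ Ys.erase q) ↔ ∃ q' ∈ T, q' ∈ Ys := by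
        constructor
        · rintro ⟨q', hq', h⟩
          exact ⟨q', hq', Finset.mem_of_mem_erase h⟩
        · rintro ⟨q', hq', h⟩
          exact ⟨q', hq', Finset.mem_erase.mpr ⟨fun h5 => hqT (h5 ▸ hq'), h⟩⟩
      have h5 : (∃ q' ∈ T, q' ∈ insert q Zs) ↔ ∃ q' ∈ T, q' ∈ Zs := by
        constructor
        · rintro ⟨q', hq', h⟩
          rcases Finset.mem_insert.mp h with h6 | h6
          · exact absurd (h6 ▸ hq') hqT
          · exact ⟨q', hq', h6⟩
        · rintro ⟨q', hq', h⟩
          exact ⟨q', hq', Finset.mem_insert_of_mem h⟩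
      unfold Cst
      simp only [h4, h5, and_self]
    refine Ex.merge (q := q) (X := X) (Z := Z) (SX := fam (Cst lam C Old New Zs (Ys.erase q) d))
      (SZ := fam (Cst lam C Old New (insert q Zs) (Ys.erase q) d))
      (fun l _ => hH l) hXZ ?_ ?_ ?_ ?_ ?_ ?_ (by rw [hBX]; exact hEX) (by rw [hBZ]; exact hEZ)
    · unfold Bst
      rw [if_neg hqZ, if_pos hq]
    · rintro ⟨T, l⟩ hl
      obtain ⟨hTd, hinj⟩ := hfamne _ _ _ hl
      rw [mem_fam] at hl ⊢
      simp only at hl hTd hinj ⊢
      by_cases hqT : q ∈ T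
      · rw [(hCq T hTd hinj hqT).2.1] at hl
        rw [(hCq T hTd hinj hqT).1, ← hON]
        exact Finset.mem_union_left _ hl
      · rwa [(hCn T hqT).1] at hl
    · rintro ⟨T, l⟩ hl
      obtain ⟨hTd, hinj⟩ := hfamne _ _ _ hl
      rw [mem_fam] at hl ⊢
      simp only at hl hTd hinj ⊢
      by_cases hqT : q ∈ T
      · rw [(hCq T hTd hinj hqT).2.2] at hl
        rw [(hCq T hTd hinj hqT).1, ← hON]
        exact Finset.mem_union_right _ hl
      · rwa [(hCn T hqT).2] at hl
    · rintro ⟨T, l⟩ hl hqT
      rw [mem_fam] at hl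
      rw [mem_fam, mem_fam]
      simp only at hl hqT ⊢
      rw [(hCn T hqT).1, (hCn T hqT).2]
      exact ⟨hl, hl⟩
    · rintro ⟨T, l⟩ hl hqT
      obtain ⟨hTd, hinj⟩ := hfamne _ _ _ hl
      rw [mem_fam] at hl
      rw [mem_fam, mem_fam]
      simp only at hl hqT hTd hinj ⊢
      rw [(hCq T hTd hinj hqT).1, ← hON, Finset.mem_union] at hl
      rw [(hCq T hTd hinj hqT).2.1, (hCq T hTd hinj hqT).2.2]
      constructor
      · intro h4 h5
        exact Finset.disjoint_left.mp (hdisj _) h4 h5
      · intro h4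
        exact hl.resolve_right h4
    · rintro ⟨T, l⟩ hl hqT x hxZ
      obtain ⟨hTd, hinj⟩ := hfamne _ _ _ hl
      rw [mem_fam] at hl
      simp only at hl hqT hTd hinj
      rw [(hCq T hTd hinj hqT).2.1] at hl
      have hiT : i ∈ T.image lam := Finset.mem_image.mpr ⟨q, hqT, hRi q hqR⟩
      have hlift : liftx lam T x i = x q := by
        rw [← hRi q hqR]
        exact liftx_apply hinj x hqT
      unfold HL Fsys
      simp only
      rw [if_pos hiT, hlift, if_neg (Finset.disjoint_right.mp hXZ hxZ), if_neg, add_zero]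
      rintro ⟨_, h5⟩
      exact Finset.disjoint_left.mp (hdisj _) hl h5
  -- the last state
  have hlast : Ex (Bst lam X Z B (R.erase p) {p} R) Prod.fst
      (hb Prod.fst (HL lam (Fsys i z X Z New t)) (Bst lam X Z B (R.erase p) {p} R))
      (fam (Cst lam C Old New (R.erase p) {p} d)) Q := by
    have hpZ : p ∉ R.erase p := Finset.notMem_erase _ _
    have hZsi : ∀ q ∈ R.erase p, lam q = i := fun q hq => hRi q (Finset.mem_of_mem_erase hq)
    have hBX : Function.update (Bst lam X Z B (R.erase p) {p} R) p X =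
        Bst lam X Z B (R.erase p) ∅ R := by
      funext p'
      by_cases hp' : p' = p
      · subst hp'
        rw [Function.update_self]
        unfold Bst
        rw [if_neg hpZ, if_neg (Finset.notMem_empty _), if_pos hp]
      · rw [Function.update_of_ne hp']
        unfold Bst
        have : p' ∈ ({p} : Finset P) ↔ p' ∈ (∅ : Finset P) := by
          simp [hp']
        simp only [this]
    have hCst : ∀ T ⊆ Q, Cst lam C Old New (R.erase p) {p} d T =
        CL d (lamZ lam z (R.erase p)) (Cm i z New C) T := by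
      intro T hT
      rw [CL_lamZ C hZsi hiz (hzT T hT)]
      unfold Cst
      by_cases h4 : T.card = d ∧ Set.InjOn lam (T : Set P)
      · rw [if_pos h4, if_pos h4]
        by_cases h5 : ∃ q ∈ T, q ∈ R.erase p
        · rw [if_pos h5, if_pos h5]
        · rw [if_neg h5, if_neg h5]
          by_cases h6 : ∃ q ∈ T, q ∈ ({p} : Finset P)
          · rw [if_pos h6]
          · rw [if_neg h6]
            have h7 : i ∉ T.image lam := by
              intro h8
              obtain ⟨q, hq, hqi⟩ := Finset.mem_image.mp h8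
              have hqR := hRmem q (hT hq) hqi
              by_cases hqp : q = p
              · exact h6 ⟨q, hq, Finset.mem_singleton.mpr hqp⟩
              · exact h5 ⟨q, hq, Finset.mem_erase.mpr ⟨hqp, hqR⟩⟩
            rw [← hON (T.image lam), hnew _ h7, Finset.union_empty]
      · rw [if_neg h4, if_neg h4]
    refine Ex.extend (q := p) (X := X) (fun l _ => hH l) ?_ ?_ ?_
    · intro l hl
      rw [← Finset.card_pos]
      have := (hfamne _ _ l hl).1
      omega
    · unfold Bst
      rw [if_neg hpZ, if_pos (Finset.mem_singleton_self p)]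
      exact Finset.subset_union_left
    · rw [hBX]
      refine h3.congr (fun q hq => (hBst0 _ (Finset.erase_subset _ _) q hq).symm) ?_ ?_
      · intro l hl
        rw [mem_fam, mem_fam, hCst l.1 hl]
      · rintro ⟨T, l⟩ hl hT
        rw [mem_fam] at hl
        simp only at hl hT
        have hT' := hl
        rw [CL_lamZ C hZsi hiz (hzT T hT)] at hT'
        have hinj : Set.InjOn lam T := by
          by_contra hcon
          rw [if_neg fun h => hcon h.2] at hT'
          simp at hT'
        have hTd : T.card = d := by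
          by_contra hcon
          rw [if_neg fun h => hcon h.1] at hT'
          simp at hT'
        rw [if_pos ⟨hTd, hinj⟩] at hT'
        have h5 := hb_lamZ (New := New) ht hinj hZsi hiz (hzT T hT) hXZ
          (fun q => Bm i z X Z B (lamZ lam z (R.erase p) q)) (fun q _ => rfl) l (fun hex => by
            rw [if_pos hex] at hT'
            exact hT')
        rw [h5]
        exact hb_congr fun q hq => (hBst0 _ (Finset.erase_subset _ _) q (hT hq)).symm
  -- all states with p not in Z
  have hall : ∀ (n : ℕ) (Zs Ys : Finset P), Ys.card = n → Zs ⊆ R → Ys ⊆ R → Disjoint Zs Ys →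
      p ∉ Zs → Ex (Bst lam X Z B Zs Ys R) Prod.fst
        (hb Prod.fst (HL lam (Fsys i z X Z New t)) (Bst lam X Z B Zs Ys R))
        (fam (Cst lam C Old New Zs Ys d)) Q := by
    intro n
    induction n with
    | zero =>
      intro Zs Ys hn hZs _ _ hpZ
      rw [Finset.card_eq_zero] at hn
      subst hn
      exact hst0 Zs hZs fun h => hpZ (h ▸ hp)
    | succ n ih =>
      intro Zs Ys hn hZs hYs hdis hpZ
      by_cases hex : ∃ q ∈ Ys, q ≠ p
      · obtain ⟨q, hq, hqp⟩ := hex
        refine hmerge Zs Ys hZs hYs hdis q hq ?_ ?_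
        · exact ih Zs (Ys.erase q) (by rw [Finset.card_erase_of_mem hq, hn]; rfl) hZs
            ((Finset.erase_subset _ _).trans hYs) (hdis.mono_right (Finset.erase_subset _ _)) hpZ
        · refine ih (insert q Zs) (Ys.erase q) (by rw [Finset.card_erase_of_mem hq, hn]; rfl)
            (Finset.insert_subset (hYs hq) hZs) ((Finset.erase_subset _ _).trans hYs) ?_ ?_
          · rw [Finset.disjoint_insert_left]
            exact ⟨Finset.notMem_erase _ _, hdis.mono_right (Finset.erase_subset _ _)⟩
          · rw [Finset.mem_insert]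
            rintro (h | h)
            · exact hqp h.symm
            · exact hpZ h
      · push Not at hex
        have hYp : Ys = {p} := by
          apply Finset.Subset.antisymm
          · intro q hq
            exact Finset.mem_singleton.mpr (hex q hq)
          · rw [Finset.singleton_subset_iff]
            obtain ⟨q, hq⟩ : Ys.Nonempty := by
              rw [← Finset.card_pos]
              omega
            rw [← hex q hq]
            exact hq
        subst hYp
        by_cases hZR : Zs = R.erase p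
        · rw [hZR]
          exact hlast
        · have he : ({p} : Finset P).erase p = ∅ := by simp
          refine hmerge Zs {p} hZs hYs hdis p (Finset.mem_singleton_self p) ?_ ?_
          · rw [he]
            exact hst0 Zs hZs fun h => hpZ (h ▸ hp)
          · rw [he]
            refine hst0 _ (Finset.insert_subset hp hZs) fun h => hZR ?_
            rw [← h, Finset.erase_insert hpZ]
  -- the full state
  refine (hall _ ∅ R rfl (Finset.empty_subset _) (Finset.Subset.refl _)
    (Finset.disjoint_empty_left _) (Finset.notMem_empty _)).congr ?_ ?_ ?_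
  · intro q hq
    unfold Bst
    rw [if_neg (Finset.notMem_empty _)]
    by_cases hqR : q ∈ R
    · rw [if_pos hqR, hRi q hqR, hB]
    · rw [if_neg hqR, if_neg hqR]
  · intro l hl
    rw [mem_fam, mem_fam]
    unfold CL Cst
    by_cases h4 : l.1.card = d ∧ Set.InjOn lam (l.1 : Set P)
    · rw [if_pos h4, if_pos h4, if_neg (by simp)]
      by_cases h6 : ∃ q ∈ l.1, q ∈ R
      · rw [if_pos h6]
      · rw [if_neg h6]
        have h7 : i ∉ l.1.image lam := by
          intro h8
          obtain ⟨q, hq, hqi⟩ := Finset.mem_image.mp h8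
          exact h6 ⟨q, hq, hRmem q (hl hq) hqi⟩
        rw [← hON (l.1.image lam), hnew _ h7, Finset.union_empty]
    · rw [if_neg h4, if_neg h4]
  · intro l _ hl
    apply hb_congr
    intro q hq
    unfold Bst
    rw [if_neg (Finset.notMem_empty _)]
    by_cases hqR : q ∈ R
    · rw [if_pos hqR, hRi q hqR, hB]
    · rw [if_neg hqR, if_neg hqR]

end Pool.Agent.H21

end

section

/-!
Exactness of labelled systems with distinct labels.
-/

set_option linter.unusedSectionVars false

namespace Pool.Agent.H21

open scoped Classical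

/-- The sum over partitions for uniform weights. -/
lemma EE_uniform {P : Type} [Fintype P] (d : ℕ) (hd : 2 ≤ d) (v : ℚ) (e : ℕ → ℚ) (he0 : e 0 = 1)
    (hrec : ∀ k, e (k + 1) = e k - (k.choose (d - 1) : ℚ) * v * e (k + 1 - d))
    (b : P → ℕ) (W : Finset P → ℤ) (Q : Finset P)
    (h1 : ∀ q ∈ Q, W {q} = b q)
    (hdT : ∀ T ⊆ Q, T.card = d → (W T : ℚ) = - (v * ∏ q ∈ T, (b q : ℚ)))
    (h0 : ∀ T ⊆ Q, T.Nonempty → T.card ≠ 1 → T.card ≠ d → W T = 0) :
    ∀ (n : ℕ) (Q' : Finset P), Q'.card = n → Q' ⊆ Q →
      (EE W Q' : ℚ) = e n * ∏ q ∈ Q', (b q : ℚ) := by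
  intro n
  induction n using Nat.strong_induction_on with
  | _ n ih =>
    intro Q' hn hQ'
    rcases Nat.eq_zero_or_pos n with hn0 | hn0
    · subst hn0
      rw [Finset.card_eq_zero] at hn
      rw [hn, EE_empty, he0]
      simp
    · obtain ⟨k, rfl⟩ : ∃ k, n = k + 1 := ⟨n - 1, by omega⟩
      obtain ⟨p, hp⟩ : Q'.Nonempty := by
        rw [← Finset.card_pos]
        omega
      rw [EE_rec' W Q' p hp]
      push_cast
      have hterm : ∀ T ∈ sub Q' p, (W T : ℚ) * (EE W (Q' \ T) : ℚ) =
          (if T = {p} then e k * ∏ q ∈ Q', (b q : ℚ) else 0) +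
          (if T.card = d then - (v * e (k + 1 - d) * ∏ q ∈ Q', (b q : ℚ)) else 0) := by
        intro T hT
        rw [mem_sub] at hT
        have hcard : (Q' \ T).card = k + 1 - T.card := by
          rw [Finset.card_sdiff_of_subset hT.1, hn]
        have hTpos : 0 < T.card := Finset.card_pos.mpr ⟨p, hT.2⟩
        have hEE := ih (k + 1 - T.card) (by omega) (Q' \ T) hcard (Finset.sdiff_subset.trans hQ')
        have hprod : (∏ q ∈ Q', (b q : ℚ)) = (∏ q ∈ T, (b q : ℚ)) * ∏ q ∈ Q' \ T, (b q : ℚ) := by
          rw [mul_comm]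
          exact (Finset.prod_sdiff hT.1).symm
        by_cases hTp : T = {p}
        · rw [if_pos hTp, if_neg (by rw [hTp, Finset.card_singleton]; omega), add_zero]
          rw [hEE, hprod, hTp, Finset.card_singleton, h1 p (hQ' hp), Finset.prod_singleton]
          simp only [Nat.add_sub_cancel, Int.cast_natCast]
          ring
        · rw [if_neg hTp, zero_add]
          by_cases hTd : T.card = d
          · rw [if_pos hTd, hEE, hTd, hdT T (hT.1.trans hQ') hTd, hprod]
            ring
          · rw [if_neg hTd, h0 T (hT.1.trans hQ') ⟨p, hT.2⟩ ?_ hTd]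
            · simp
            · intro hc
              obtain ⟨q, hq⟩ := Finset.card_eq_one.mp hc
              rw [hq] at hT hTp
              exact hTp (by rw [Finset.mem_singleton.mp hT.2])
      rw [Finset.sum_congr rfl hterm, Finset.sum_add_distrib, Finset.sum_ite_eq',
        if_pos (mem_sub.mpr ⟨Finset.singleton_subset_iff.mpr hp, Finset.mem_singleton_self p⟩),
        ← Finset.sum_filter, Finset.sum_const]
      have hcount : ((sub Q' p).filter (fun T => T.card = d)).card = k.choose (d - 1) := by
        have h2 := card_filter_mem_powersetCard d (by omega) Q' p hp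
        rw [hn] at h2
        simp only [Nat.add_sub_cancel] at h2
        rw [← h2]
        congr 1
        ext T
        rw [Finset.mem_filter, mem_sub, Finset.mem_filter, Finset.mem_powersetCard]
        tauto
      rw [hcount, hrec k, nsmul_eq_mul]
      ring

/-- Enumerate a small set by a larger one. -/
lemma exists_enum {α β : Type*} [Zero α] (s : Finset α) (t : Finset β) (h : s.card ≤ t.card) :
    ∃ c : β → α, (∀ a ∈ s, ∃ b ∈ t, c b = a) ∧ ∀ b, c b ∈ s ∨ c b = 0 := by
  have h1 : Fintype.card ↥s ≤ Fintype.card ↥t := by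
    rw [Fintype.card_coe, Fintype.card_coe]
    exact h
  obtain ⟨f⟩ := Function.Embedding.nonempty_of_card_le h1
  refine ⟨fun b => if hb : ∃ a : ↥s, (f a).1 = b then hb.choose.1 else 0, ?_, ?_⟩
  · intro a ha
    refine ⟨(f ⟨a, ha⟩).1, (f ⟨a, ha⟩).2, ?_⟩
    have hex : ∃ a' : ↥s, (f a').1 = (f ⟨a, ha⟩).1 := ⟨⟨a, ha⟩, rfl⟩
    simp only
    rw [dif_pos hex]
    have h2 := hex.choose_spec
    have h3 : f hex.choose = f ⟨a, ha⟩ := Subtype.ext h2
    rw [f.injective h3]
  · intro b
    simp only
    split_ifs with hb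
    · exact Or.inl hb.choose.2
    · exact Or.inr rfl

/-- The claim about labelled systems. -/
def Claim (K : Type) [Field K] (d : ℕ) {P : Type} [Fintype P] (lam : P → ℕ) (Q : Finset P)
    (v : ℚ) : Prop :=
  ∃ N : ℕ, 0 < N ∧ ∀ (L : ℕ) (B : ℕ → Finset (Fin (L + 1))), (∀ q ∈ Q, N ∣ (B (lam q)).card) →
    ∀ C : Finset ℕ → Finset ℕ,
      (∀ T ⊆ Q.image lam, T.card = d → ((C T).card : ℚ) ≤ v * ∏ i ∈ T, ((B i).card : ℚ)) →
      ∃ t ∈ adm K (Fin (L + 1)), LEx d lam B C Q t

lemma base_one (K : Type) [Field K] [Infinite K] (d : ℕ) (hd : 2 ≤ d) (v : ℚ) (hv : 0 ≤ v)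
    (e : ℕ → ℚ) (he0 : e 0 = 1)
    (hrec : ∀ k, e (k + 1) = e k - (k.choose (d - 1) : ℚ) * v * e (k + 1 - d))
    {P : Type} [Fintype P] (lam : P → ℕ) (Q : Finset P) (hinj : Set.InjOn lam Q)
    (hpos : ∀ i < Q.card, 0 < e i) (hpos' : 0 ≤ e Q.card) :
    ∃ N : ℕ, 0 < N ∧ ∀ (L : ℕ) (B : ℕ → Finset (Fin (L + 1))),
      (∀ q ∈ Q, N ∣ (B (lam q)).card) → ∀ C : Finset ℕ → Finset ℕ,
      (∀ T ⊆ Q.image lam, T.card = d → ((C T).card : ℚ) = v * ∏ i ∈ T, ((B i).card : ℚ)) →
      ∃ t ∈ adm K (Fin (L + 1)), Good d lam B C Q t := by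
  have hR := reach_wA (K := K) (I := ↥Q) d (by omega) v hv e he0 hrec Q.card Finset.univ
    (by rw [Finset.card_univ, Fintype.card_coe]) hpos hpos'
  obtain ⟨N, hN, hR⟩ := hR
  refine ⟨N, hN, fun L B hB C hC => ?_⟩
  set Bq : ↥Q → Finset ℕ := fun q => (B (lam q.1)).map Fin.valEmbedding with hBq
  have hBqc : ∀ q, (Bq q).card = (B (lam q.1)).card := fun q => Finset.card_map _
  obtain ⟨G, hG1, hG2, hG3⟩ := hR Bq (fun q => by rw [hBqc]; exact hB q.1 q.2)
  -- positions of a set of labels
  set TH : Finset ℕ → Finset ↥Q := fun T => Finset.univ.filter (fun q => lam q.1 ∈ T) with hTH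
  -- the enumeration
  have henum : ∀ T : Finset ℕ, ∃ c : ℕ → ((↥Q → ℕ) → K),
      (((T ⊆ Q.image lam ∧ T.card = d) → ∀ a ∈ G (TH T), ∃ b ∈ C T, c b = a)) ∧
      ∀ b, c b ∈ G (TH T) ∨ c b = 0 := by
    intro T
    by_cases hT : T ⊆ Q.image lam ∧ T.card = d
    · have h1 : (G (TH T)).card ≤ (C T).card := by
        have h2 := hG2 (TH T)
        have h3 : wA d v Finset.univ (TH T) ≤ v := by
          unfold wA
          split_ifs
          · exact le_rfl
          · exact hv
        have h4 : ∏ q ∈ TH T, ((Bq q).card : ℚ) = ∏ i ∈ T, ((B i).card : ℚ) := by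
          refine Finset.prod_bij (fun q _ => lam q.1) ?_ ?_ ?_ ?_
          · intro q hq
            exact (Finset.mem_filter.mp hq).2
          · intro q _ q' _ hqq
            exact Subtype.ext (hinj q.2 q'.2 hqq)
          · intro i hi
            obtain ⟨q, hq, hqi⟩ := Finset.mem_image.mp (hT.1 hi)
            exact ⟨⟨q, hq⟩, Finset.mem_filter.mpr ⟨Finset.mem_univ _, by rw [hqi]; exact hi⟩, hqi⟩
          · intro q _
            rw [hBqc]
        have h5 : ((G (TH T)).card : ℚ) ≤ ((C T).card : ℚ) := by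
          rw [hC T hT.1 hT.2, ← h4]
          exact h2.trans (mul_le_mul_of_nonneg_right h3
            (Finset.prod_nonneg fun _ _ => Nat.cast_nonneg _))
        exact_mod_cast h5
      obtain ⟨c, hc1, hc2⟩ := exists_enum (G (TH T)) (C T) h1
      exact ⟨c, fun _ => hc1, hc2⟩
    · exact ⟨fun _ => 0, fun h => absurd h hT, fun _ => Or.inr rfl⟩
  choose c hc1 hc2 using henum
  set t : Sys K (Fin (L + 1)) := fun T l z =>
    c T l (fun q => if lam q.1 ∈ T then (z (lam q.1)).val else 0) with ht
  refine ⟨t, ?_, ?_⟩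
  · intro T l x y hxy
    simp only [ht]
    congr 1
    funext q
    split_ifs with hq
    · rw [hxy _ hq]
    · rfl
  -- weights
  have hEE : (EE (wt (fun p => B (lam p)) Prod.fst (fam (CL d lam C))) Q : ℚ) =
      e Q.card * ∏ q ∈ Q, ((B (lam q)).card : ℚ) := by
    refine EE_uniform d hd v e he0 hrec (fun p => (B (lam p)).card) _ Q ?_ ?_ ?_ _ Q rfl
      (Finset.Subset.refl _)
    · intro q _
      unfold wt
      rw [card_fam_filter]
      unfold CL
      rw [if_pos (Finset.card_singleton q), if_neg (by rw [Finset.card_singleton]; omega),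
        Finset.prod_singleton]
      simp
    · intro T hT hTd
      unfold wt
      rw [card_fam_filter]
      unfold CL
      have hinjT : Set.InjOn lam T := hinj.mono (by exact_mod_cast hT)
      rw [if_neg (by omega), if_pos ⟨hTd, hinjT⟩]
      push_cast
      rw [hC _ (Finset.image_subset_image hT) (by rw [Finset.card_image_of_injOn hinjT, hTd]),
        Finset.prod_image hinjT]
      ring
    · intro T hT _ hT1 hTd
      unfold wt
      rw [card_fam_filter]
      unfold CL
      rw [if_neg hT1, if_neg (fun h => hTd h.1)]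
      simp
  -- the comparison map
  let Ψ : (↥(Fintype.piFinset Bq) → K) →ₗ[K] ((P → Fin (L + 1)) → K) :=
    { toFun := fun ψ x => if h : ∀ q ∈ Q, x q ∈ B (lam q) then
        ψ ⟨fun q => (x q.1).val, Fintype.mem_piFinset.mpr fun q =>
          Finset.mem_map.mpr ⟨x q.1, h q.1 q.2, rfl⟩⟩ else 0
      map_add' := by
        intro f g
        funext x
        simp only [Pi.add_apply]
        split_ifs <;> simp
      map_smul' := by
        intro a f
        funext x
        simp only [Pi.smul_apply, RingHom.id_apply]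
        split_ifs <;> simp }
  have hΨapp : ∀ ψ x, Ψ ψ x = if h : ∀ q ∈ Q, x q ∈ B (lam q) then
        ψ ⟨fun q => (x q.1).val, Fintype.mem_piFinset.mpr fun q =>
          Finset.mem_map.mpr ⟨x q.1, h q.1 q.2, rfl⟩⟩ else 0 := fun _ _ => rfl
  have hΨinj : Function.Injective Ψ := by
    rw [← LinearMap.ker_eq_bot, LinearMap.ker_eq_bot']
    intro ψ hψ
    funext y
    have hy := Fintype.mem_piFinset.mp y.2
    have hy' : ∀ q : ↥Q, ∃ z ∈ B (lam q.1), z.val = y.1 q := by
      intro q
      obtain ⟨z, hz, hzq⟩ := Finset.mem_map.mp (hy q)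
      exact ⟨z, hz, hzq⟩
    choose z hz hzq using hy'
    have h1 := congrFun hψ (fun p => if hp : p ∈ Q then z ⟨p, hp⟩ else 0)
    rw [hΨapp, dif_pos (fun q hq => by rw [dif_pos hq]; exact hz ⟨q, hq⟩)] at h1
    refine Eq.trans ?_ h1
    congr 1
    apply Subtype.ext
    funext q
    simp only
    rw [dif_pos q.2, hzq]
  -- the image of the old ideal lies in the new one
  have hincl : ((Submodule.span K (prods G)).map (res K Bq)).map Ψ ≤
      JJ (fun p => B (lam p)) Prod.fst (hb Prod.fst (HL lam t) (fun p => B (lam p)))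
        (fam (CL d lam C)) Q := by
    rw [← Submodule.map_comp, Submodule.map_span, Submodule.span_le]
    rintro _ ⟨_, ⟨T', f, hf, g, hg, rfl⟩, rfl⟩
    have hT'd : T'.card = d := by
      by_contra hne
      have h2 := hG2 T'
      unfold wA at h2
      rw [if_neg (fun h => hne h.1), zero_mul] at h2
      have h3 : (G T').card = 0 := by
        have : (0 : ℚ) ≤ ((G T').card : ℚ) := Nat.cast_nonneg _
        exact_mod_cast le_antisymm h2 this
      rw [Finset.card_eq_zero] at h3
      rw [h3] at hf
      simp at hf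
    -- the positions and labels
    set Tt : Finset P := T'.map (Function.Embedding.subtype _) with hTt
    have hTtQ : Tt ⊆ Q := by
      intro p hp
      obtain ⟨q, _, rfl⟩ := Finset.mem_map.mp hp
      exact q.2
    have hTtinj : Set.InjOn lam Tt := hinj.mono (by exact_mod_cast hTtQ)
    have hTtd : Tt.card = d := by rw [hTt, Finset.card_map, hT'd]
    have hmemTt : ∀ q : ↥Q, q.1 ∈ Tt ↔ q ∈ T' := by
      intro q
      rw [hTt, Finset.mem_map]
      constructor
      · rintro ⟨q', hq', h4⟩
        have : q' = q := Subtype.ext h4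
        rwa [← this]
      · intro h4
        exact ⟨q, h4, rfl⟩
    have hTHT : TH (Tt.image lam) = T' := by
      ext q
      rw [hTH, Finset.mem_filter, Finset.mem_image]
      constructor
      · rintro ⟨_, p, hp, hpq⟩
        have : p = q.1 := hinj (hTtQ hp) q.2 hpq
        rw [this] at hp
        exact (hmemTt q).mp hp
      · intro hq
        exact ⟨Finset.mem_univ _, q.1, (hmemTt q).mpr hq, rfl⟩
    have hlab : Tt.image lam ⊆ Q.image lam ∧ (Tt.image lam).card = d :=
      ⟨Finset.image_subset_image hTtQ, by rw [Finset.card_image_of_injOn hTtinj, hTtd]⟩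
    obtain ⟨l, hl, hcl⟩ := hc1 (Tt.image lam) hlab f (by rw [hTHT]; exact hf)
    have hmem : (Tt, l) ∈ fam (CL d lam C) := by
      rw [mem_fam]
      unfold CL
      rw [if_pos ⟨hTtd, hTtinj⟩]
      exact hl
    -- the cofactor
    let g' : (P → Fin (L + 1)) → K := fun x =>
      if ∀ p ∈ Q \ Tt, x p ∈ B (lam p) then g (fun q => if q ∈ T' then 0 else (x q.1).val) else 0
    have hg' : g' ∈ MM K (fun p => B (lam p)) (Q \ Tt) := by
      refine ⟨fun x y hxy => ?_, fun x hx => ?_⟩
      · simp only [g']
        have h5 : (∀ p ∈ Q \ Tt, x p ∈ B (lam p)) ↔ (∀ p ∈ Q \ Tt, y p ∈ B (lam p)) := by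
          constructor
          · intro h p hp; rw [← hxy p hp]; exact h p hp
          · intro h p hp; rw [hxy p hp]; exact h p hp
        have h6 : (fun q : ↥Q => if q ∈ T' then 0 else (x q.1).val) =
            (fun q : ↥Q => if q ∈ T' then 0 else (y q.1).val) := by
          funext q
          split_ifs with hq
          · rfl
          · rw [hxy q.1 (Finset.mem_sdiff.mpr ⟨q.2, fun h => hq ((hmemTt q).mp h)⟩)]
        simp only [h5, h6]
      · simp only [g']
        rw [if_neg]
        intro h
        obtain ⟨p, hp, hxp⟩ := hx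
        exact hxp (h p hp)
    have heq : (Ψ ∘ₗ res K Bq) (f * g) =
        hb Prod.fst (HL lam t) (fun p => B (lam p)) (Tt, l) * g' := by
      funext x
      rw [LinearMap.comp_apply, hΨapp]
      simp only [res_apply, hb, bx, HL, Pi.mul_apply, g', ht]
      by_cases hx : ∀ q ∈ Q, x q ∈ B (lam q)
      · rw [dif_pos hx, if_pos (fun p hp => hx p (hTtQ hp)),
          if_pos (fun p hp => hx p (Finset.mem_sdiff.mp hp).1), one_mul]
        congr 1
        · rw [hcl]
          apply hG1 T' f hf
          intro q hq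
          have hq' : q ∈ T' := by exact_mod_cast hq
          have hqT : q.1 ∈ Tt := (hmemTt q).mpr hq'
          rw [if_pos (Finset.mem_image_of_mem lam hqT), liftx_apply hTtinj x hqT]
        · apply hg
          intro q hq
          have hq' : q ∉ T' := by simpa using hq
          rw [if_neg hq']
      · rw [dif_neg hx]
        by_cases hx1 : ∀ p ∈ Tt, x p ∈ B (lam p)
        · rw [if_neg (c := ∀ p ∈ Q \ Tt, x p ∈ B (lam p)), mul_zero]
          intro hx2
          apply hx
          intro q hq
          by_cases hqT : q ∈ Tt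
          · exact hx1 q hqT
          · exact hx2 q (Finset.mem_sdiff.mpr ⟨hq, hqT⟩)
        · rw [if_neg hx1, zero_mul, zero_mul]
    rw [heq]
    exact mem_JJ hmem hTtQ hg'
  have hrk : rk Bq G ≤ Module.finrank K
      (JJ (fun p => B (lam p)) Prod.fst (hb Prod.fst (HL lam t) (fun p => B (lam p)))
        (fam (CL d lam C)) Q) := by
    unfold rk
    rw [(Submodule.equivMapOfInjective Ψ hΨinj _).finrank_eq]
    exact Submodule.finrank_mono hincl
  -- conclusion
  unfold Good DD
  have h7 : ∏ q : ↥Q, ((Bq q).card : ℚ) = ∏ q ∈ Q, ((B (lam q)).card : ℚ) := by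
    rw [← Finset.prod_coe_sort Q (fun q => ((B (lam q)).card : ℚ))]
    exact Finset.prod_congr rfl fun q _ => by rw [hBqc]
  rw [h7] at hG3
  have h8 : (rk Bq G : ℚ) ≤ (Module.finrank K
      (JJ (fun p => B (lam p)) Prod.fst (hb Prod.fst (HL lam t) (fun p => B (lam p)))
        (fam (CL d lam C)) Q) : ℚ) := by exact_mod_cast hrk
  have h9 : (((∏ q ∈ Q, ((B (lam q)).card : ℤ)) - (Module.finrank K
      (JJ (fun p => B (lam p)) Prod.fst (hb Prod.fst (HL lam t) (fun p => B (lam p)))
        (fam (CL d lam C)) Q) : ℤ) : ℤ) : ℚ) ≤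
      (EE (wt (fun p => B (lam p)) Prod.fst (fam (CL d lam C))) Q : ℚ) := by
    rw [hEE]
    push_cast
    linarith
  exact_mod_cast h9

/-- Integrality of `v * ∏ |B i|`. -/
lemma exists_nat_eq_mul_prod (v : ℚ) (hv : 0 ≤ v) {ι : Type*} (T : Finset ι) (hT : T.Nonempty)
    (b : ι → ℕ) (N : ℕ) (hN : v.den ∣ N) (hb : ∀ i ∈ T, N ∣ b i) :
    ∃ m : ℕ, (m : ℚ) = v * ∏ i ∈ T, (b i : ℚ) := by
  obtain ⟨i, hi⟩ := hT
  obtain ⟨k, hk⟩ := hN.trans (hb i hi)
  refine ⟨v.num.toNat * (k * ∏ j ∈ T.erase i, b j), ?_⟩
  rw [← Finset.mul_prod_erase T _ hi]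
  push_cast
  rw [hk]
  have h1 : ((v.num.toNat : ℕ) : ℚ) = v * v.den := by
    have h2 : ((v.num.toNat : ℕ) : ℤ) = v.num := Int.toNat_of_nonneg (Rat.num_nonneg.mpr hv)
    have h3 : ((v.num.toNat : ℕ) : ℚ) = (v.num : ℚ) := by exact_mod_cast h2
    rw [h3]
    exact (Rat.mul_den_eq_num v).symm
  rw [h1]
  push_cast
  ring

theorem base_claim (K : Type) [Field K] [Infinite K] (d : ℕ) (hd : 2 ≤ d) (v : ℚ) (hv : 0 ≤ v)
    (e : ℕ → ℚ) (he0 : e 0 = 1)
    (hrec : ∀ k, e (k + 1) = e k - (k.choose (d - 1) : ℚ) * v * e (k + 1 - d))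
    {P : Type} [Fintype P] (lam : P → ℕ) (Q : Finset P) (hinj : Set.InjOn lam Q)
    (hpos : ∀ i ≤ Q.card, 0 < e i) : Claim K d lam Q v := by
  have h1 : ∀ Q' : Finset P, ∃ N : ℕ, 0 < N ∧ (Q' ⊆ Q →
      ∀ (L : ℕ) (B : ℕ → Finset (Fin (L + 1))),
      (∀ q ∈ Q', N ∣ (B (lam q)).card) → ∀ C : Finset ℕ → Finset ℕ,
      (∀ T ⊆ Q'.image lam, T.card = d → ((C T).card : ℚ) = v * ∏ i ∈ T, ((B i).card : ℚ)) →
      ∃ t ∈ adm K (Fin (L + 1)), Good d lam B C Q' t) := by
    intro Q'
    by_cases hQ' : Q' ⊆ Q
    · have hc := Finset.card_le_card hQ'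
      obtain ⟨N, hN, h⟩ := base_one K d hd v hv e he0 hrec lam Q'
        (hinj.mono (by exact_mod_cast hQ')) (fun i hi => hpos i (by omega)) (hpos _ hc).le
      exact ⟨N, hN, fun _ => h⟩
    · exact ⟨1, one_pos, fun h => absurd h hQ'⟩
  choose Nf hNf hgood using h1
  refine ⟨v.den * ∏ Q' ∈ Q.powerset, Nf Q', Nat.mul_pos v.den_pos
    (Finset.prod_pos fun Q' _ => hNf Q'), ?_⟩
  intro L B hB C hC
  -- enlarge the index sets
  have h2 : ∀ T : Finset ℕ, ∃ C' : Finset ℕ, (T ⊆ Q.image lam → T.card = d →
      (C T ⊆ C' ∧ (C'.card : ℚ) = v * ∏ i ∈ T, ((B i).card : ℚ))) := by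
    intro T
    by_cases hT : T ⊆ Q.image lam ∧ T.card = d
    · obtain ⟨m, hm⟩ := exists_nat_eq_mul_prod v hv T
        (by rw [← Finset.card_pos]; omega) (fun i => (B i).card) _
        (Dvd.intro _ rfl) (fun i hi => by
          obtain ⟨q, hq, hqi⟩ := Finset.mem_image.mp (hT.1 hi)
          rw [← hqi]
          exact hB q hq)
      have h3 : (C T).card ≤ m := by
        have := hC T hT.1 hT.2
        rw [← hm] at this
        exact_mod_cast this
      obtain ⟨C', hC'1, hC'2⟩ := Infinite.exists_superset_card_eq (C T) m h3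
      exact ⟨C', fun _ _ => ⟨hC'1, by rw [hC'2, hm]⟩⟩
    · exact ⟨∅, fun h h' => absurd ⟨h, h'⟩ hT⟩
  choose C' hC' using h2
  obtain ⟨t, ht, hsat⟩ := spec_simul (K := K) d Q.powerset
    (fun Q' => (⟨P, inferInstance, lam, B, C', Q'⟩ : Spec (Fin (L + 1)))) (by
      intro Q' hQ'
      rw [Finset.mem_powerset] at hQ'
      refine hgood Q' hQ' L B ?_ C' ?_
      · intro q hq
        refine Dvd.dvd.trans ?_ (hB q (hQ' hq))
        exact Dvd.dvd.mul_left (Finset.dvd_prod_of_mem Nf (Finset.mem_powerset.mpr hQ')) _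
      · intro T hT hTd
        exact (hC' T (hT.trans (Finset.image_subset_image hQ')) hTd).2)
  refine ⟨t, ht, ?_⟩
  have h4 : LEx d lam B C' Q t := fun Q' hQ' => hsat Q' (Finset.mem_powerset.mpr hQ')
  exact h4.sub (by omega) fun T hT hTd => (hC' T hT hTd).1

/-- The claim is monotone in the density. -/
lemma Claim.mono {K : Type} [Field K] {d : ℕ} {P : Type} [Fintype P] {lam : P → ℕ}
    {Q : Finset P} {v v' : ℚ} (h : Claim K d lam Q v) (hv : v' ≤ v) : Claim K d lam Q v' := by
  obtain ⟨N, hN, h⟩ := h
  refine ⟨N, hN, fun L B hB C hC => h L B hB C fun T hT hTd => (hC T hT hTd).trans ?_⟩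
  exact mul_le_mul_of_nonneg_right hv (Finset.prod_nonneg fun _ _ => Nat.cast_nonneg _)

end Pool.Agent.H21

end

section

/-!
Exactness of labelled systems for all labellings.
-/

set_option linter.unusedSectionVars false

namespace Pool.Agent.H21

open scoped Classical

variable {K : Type} [Field K] [Infinite K] {P : Type} [Fintype P]

lemma lex_simul {A : Type} [Fintype A] [Nonempty A] (d : ℕ) {ι : Type} (S : Finset ι)
    (lamF : ι → P → ℕ) (BF : ι → ℕ → Finset A) (CF : ι → Finset ℕ → Finset ℕ) (Q : Finset P)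
    (h : ∀ s ∈ S, ∃ t ∈ adm K A, LEx d (lamF s) (BF s) (CF s) Q t) :
    ∃ t ∈ adm K A, ∀ s ∈ S, LEx d (lamF s) (BF s) (CF s) Q t := by
  obtain ⟨t, ht, h'⟩ := spec_simul (K := K) d (S ×ˢ Q.powerset)
    (fun s => (⟨P, inferInstance, lamF s.1, BF s.1, CF s.1, s.2⟩ : Spec A)) (by
      rintro ⟨s, Q'⟩ hs
      rw [Finset.mem_product, Finset.mem_powerset] at hs
      obtain ⟨t, ht, hE⟩ := h s hs.1
      exact ⟨t, ht, hE Q' hs.2⟩)
  exact ⟨t, ht, fun s hs Q' hQ' =>
    h' (s, Q') (Finset.mem_product.mpr ⟨hs, Finset.mem_powerset.mpr hQ'⟩)⟩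

/-- The inductive step: a repeated label is split. -/
theorem claim_step (d : ℕ) (hd : 2 ≤ d) (lam : P → ℕ) (Q R : Finset P) (i z : ℕ)
    (hR : R = Q.filter (fun q => lam q = i)) (hz : z ∉ Q.image lam) (p p' : P) (hp : p ∈ R)
    (hp' : p' ∈ R) (hpp' : p' ≠ p) (v v' : ℚ) (hv' : 0 ≤ v') (hvv' : v ≤ v') (M : ℕ) (hM : 2 ≤ M)
    (hvM : v * M ≤ (M - 1) * v')
    (hbase : Claim K d lam (Q \ R) v')
    (hmix : ∀ Zs ⊆ R, Zs.Nonempty → Zs ≠ R → Claim K d (lamZ lam z Zs) Q v') :
    Claim K d lam Q v := by
  have hpQ : p ∈ Q ∧ lam p = i := by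
    rw [hR] at hp
    exact Finset.mem_filter.mp hp
  have hRmem : ∀ q, q ∈ R ↔ q ∈ Q ∧ lam q = i := fun q => by rw [hR, Finset.mem_filter]
  have hiz : i ≠ z := fun h => hz (Finset.mem_image.mpr ⟨p, hpQ.1, hpQ.2.trans h⟩)
  obtain ⟨Nb, hNb, hbase⟩ := hbase
  have h1 : ∀ Zs : Finset P, ∃ N : ℕ, 0 < N ∧ (Zs ⊆ R → Zs.Nonempty → Zs ≠ R →
      ∀ (L : ℕ) (B : ℕ → Finset (Fin (L + 1))), (∀ q ∈ Q, N ∣ (B (lamZ lam z Zs q)).card) →
      ∀ C : Finset ℕ → Finset ℕ,
      (∀ T ⊆ Q.image (lamZ lam z Zs), T.card = d →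
        ((C T).card : ℚ) ≤ v' * ∏ i ∈ T, ((B i).card : ℚ)) →
      ∃ t ∈ adm K (Fin (L + 1)), LEx d (lamZ lam z Zs) B C Q t) := by
    intro Zs
    by_cases hc : Zs ⊆ R ∧ Zs.Nonempty ∧ Zs ≠ R
    · obtain ⟨N, hN, h⟩ := hmix Zs hc.1 hc.2.1 hc.2.2
      exact ⟨N, hN, fun _ _ _ => h⟩
    · exact ⟨1, one_pos, fun h1 h2 h3 => absurd ⟨h1, h2, h3⟩ hc⟩
  choose Nf hNf hmix using h1
  set N₀ := v'.den * Nb * ∏ Zs ∈ R.powerset, Nf Zs with hN₀
  have hN₀pos : 0 < N₀ := Nat.mul_pos (Nat.mul_pos v'.den_pos hNb)
    (Finset.prod_pos fun _ _ => hNf _)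
  have hden : v'.den ∣ N₀ := Dvd.dvd.mul_right (Dvd.intro _ rfl) _
  have hNbd : Nb ∣ N₀ := Dvd.dvd.mul_right (Dvd.intro_left _ rfl) _
  have hNfd : ∀ Zs ⊆ R, Nf Zs ∣ N₀ := fun Zs hZs =>
    Dvd.dvd.mul_left (Finset.dvd_prod_of_mem Nf (Finset.mem_powerset.mpr hZs)) _
  refine ⟨N₀ * M, Nat.mul_pos hN₀pos (by omega), ?_⟩
  intro L B hB C hC
  -- the size of a part
  obtain ⟨k, hk⟩ : N₀ * M ∣ (B i).card := by
    have := hB p hpQ.1
    rwa [hpQ.2] at this
  set x₀ := N₀ * k with hx₀
  have hBi : (B i).card = M * x₀ := by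
    rw [hk, hx₀]
    ring
  have hN₀x : N₀ ∣ x₀ := Dvd.intro _ rfl
  have hN₀B : ∀ q ∈ Q, N₀ ∣ (B (lam q)).card := fun q hq =>
    (Dvd.intro _ rfl : N₀ ∣ N₀ * M).trans (hB q hq)
  set b : ℕ → ℕ := fun j => if j = i then x₀ else (B j).card with hb_def
  have hbi : b i = x₀ := by rw [hb_def]; simp
  have hbj : ∀ j, j ≠ i → b j = (B j).card := fun j hj => by rw [hb_def]; simp [hj]
  -- the number of new functions
  have h2 : ∀ T : Finset ℕ, ∃ m : ℕ, T ⊆ Q.image lam → T.card = d →
      (m : ℚ) = v' * ∏ j ∈ T, (b j : ℚ) := by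
    intro T
    by_cases hT : T ⊆ Q.image lam ∧ T.card = d
    · obtain ⟨m, hm⟩ := exists_nat_eq_mul_prod v' hv' T
        (by rw [← Finset.card_pos]; omega) b N₀ hden (fun j hj => by
          by_cases hji : j = i
          · rw [hji, hbi]
            exact hN₀x
          · rw [hbj j hji]
            obtain ⟨q, hq, hqj⟩ := Finset.mem_image.mp (hT.1 hj)
            rw [← hqj]
            exact hN₀B q hq)
      exact ⟨m, fun _ _ => hm⟩
    · exact ⟨0, fun h h' => absurd ⟨h, h'⟩ hT⟩
  choose bT hbT using h2
  -- products over T with the box of i changed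
  have hprod : ∀ (T : Finset ℕ), i ∈ T → ∏ j ∈ T, (b j : ℚ) =
      (x₀ : ℚ) * ∏ j ∈ T.erase i, ((B j).card : ℚ) := by
    intro T hi
    rw [← Finset.mul_prod_erase T _ hi, hbi]
    congr 1
    exact Finset.prod_congr rfl fun j hj => by rw [hbj j (Finset.mem_erase.mp hj).1]
  have hprod' : ∀ (T : Finset ℕ), i ∉ T → ∏ j ∈ T, (b j : ℚ) = ∏ j ∈ T, ((B j).card : ℚ) := by
    intro T hi
    exact Finset.prod_congr rfl fun j hj => by rw [hbj j (fun h => hi (h ▸ hj))]
  -- the inner induction
  have inner : ∀ (s : ℕ) (X : Finset (Fin (L + 1))), X.card = (s + 1) * x₀ →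
      ∀ C' : Finset ℕ → Finset ℕ,
      (∀ T ⊆ Q.image lam, T.card = d → i ∈ T → (C' T).card ≤ s * bT T) →
      (∀ T ⊆ Q.image lam, T.card = d → i ∉ T → (C' T).card ≤ bT T) →
      ∃ t ∈ adm K (Fin (L + 1)), LEx d lam (Function.update B i X) C' Q t := by
    intro s
    induction s with
    | zero =>
      intro X hX C' hC1 hC2
      obtain ⟨t, ht, hE⟩ := hbase L (Function.update B i X)
        (fun q hq => by
          rw [Finset.mem_sdiff, hRmem] at hq
          have hqi : lam q ≠ i := fun h => hq.2 ⟨hq.1, h⟩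
          rw [Function.update_of_ne hqi]
          exact hNbd.trans (hN₀B q hq.1)) C'
        (fun T hT hTd => by
          have hTQ : T ⊆ Q.image lam := hT.trans (Finset.image_subset_image Finset.sdiff_subset)
          have hiT : i ∉ T := by
            intro h
            obtain ⟨q, hq, hqi⟩ := Finset.mem_image.mp (hT h)
            rw [Finset.mem_sdiff, hRmem] at hq
            exact hq.2 ⟨hq.1, hqi⟩
          have h3 := hC2 T hTQ hTd hiT
          have h4 := hbT T hTQ hTd
          rw [hprod' T hiT] at h4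
          have h5 : ∏ j ∈ T, (((Function.update B i X) j).card : ℚ) =
              ∏ j ∈ T, ((B j).card : ℚ) :=
            Finset.prod_congr rfl fun j hj => by
              rw [Function.update_of_ne (fun h : j = i => hiT (h ▸ hj))]
          rw [h5, ← h4]
          exact_mod_cast h3)
      refine ⟨t, ht, ?_⟩
      have hne : ∀ l ∈ fam (CL d lam C'), (Prod.fst l : Finset P).Nonempty := by
        intro l hl
        rw [mem_fam] at hl
        unfold CL at hl
        split_ifs at hl with h2
        · rw [← Finset.card_pos]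
          omega
        · simp at hl
      refine Ex_of_inj (fun l _ => hb_mem _ (HL_mem lam t l)) hne ?_
      intro Q' hQ' hQ'ne
      by_cases hex : ∃ q ∈ Q', q ∈ R
      · obtain ⟨q, hq, hqR⟩ := hex
        refine ⟨q, hq, ?_⟩
        intro w _ _ l hl
        exfalso
        rw [mem_Sp, mem_fam] at hl
        obtain ⟨h3, h4, h5⟩ := hl
        unfold CL at h3
        split_ifs at h3 with h6
        · have h7 : i ∈ l.1.image lam := Finset.mem_image.mpr ⟨q, h4, ((hRmem q).mp hqR).2⟩
          have h8 := hC1 (l.1.image lam) (Finset.image_subset_image (h5.trans hQ'))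
            (by rw [Finset.card_image_of_injOn h6.2, h6.1]) h7
          rw [zero_mul, Nat.le_zero, Finset.card_eq_zero] at h8
          rw [h8] at h3
          simp at h3
        · simp at h3
      · obtain ⟨q, hq⟩ := hQ'ne
        refine ⟨q, hq, Ex.inj (fun l _ => hb_mem _ (HL_mem lam t l)) hne hE ?_ hq⟩
        intro q' hq'
        exact Finset.mem_sdiff.mpr ⟨hQ' hq', fun h => hex ⟨q', hq', h⟩⟩
    | succ s ih =>
      intro X' hX' C' hC1 hC2
      -- split the box
      obtain ⟨X, hXX', hX⟩ := Finset.exists_subset_card_eq (s := X') (n := (s + 1) * x₀)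
        (by rw [hX']; exact Nat.mul_le_mul_right _ (by omega))
      set Z := X' \ X with hZ
      have hZc : Z.card = x₀ := by
        rw [hZ, Finset.card_sdiff_of_subset hXX', hX', hX]
        have : (s + 1 + 1) * x₀ = (s + 1) * x₀ + x₀ := by ring
        omega
      have hXZ : Disjoint X Z := Finset.disjoint_sdiff
      have hXZ' : X' = X ∪ Z := (Finset.union_sdiff_of_subset hXX').symm
      -- split the index sets
      have hold : ∀ T : Finset ℕ, ∃ O ⊆ C' T, (i ∉ T → O = C' T) ∧
          (i ∈ T → T ⊆ Q.image lam → T.card = d → O.card ≤ s * bT T ∧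
            (C' T \ O).card ≤ bT T) := by
        intro T
        by_cases hi : i ∈ T
        · obtain ⟨O, hO, hOc⟩ := Finset.exists_subset_card_eq (s := C' T)
            (n := min (C' T).card (s * bT T)) (min_le_left _ _)
          refine ⟨O, hO, fun h => absurd hi h, fun _ hT hTd => ?_⟩
          have h3 := hC1 T hT hTd hi
          have h4 : (s + 1) * bT T = s * bT T + bT T := by ring
          rw [Finset.card_sdiff_of_subset hO, hOc]
          constructor
          · exact min_le_right _ _
          · omega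
        · exact ⟨C' T, Finset.Subset.refl _, fun _ => rfl, fun h => absurd h hi⟩
      choose Old hOldsub hOldn hOldc using hold
      set New : Finset ℕ → Finset ℕ := fun T => C' T \ Old T with hNew
      have hlab : ∀ Zs ⊆ R, ∀ q ∈ Q, N₀ ∣ (Bm i z X Z (Function.update B i X')
          (lamZ lam z Zs q)).card := by
        intro Zs hZs q hq
        unfold Bm lamZ
        by_cases hqZ : q ∈ Zs
        · rw [if_pos hqZ, Function.update_self, hZc]
          exact hN₀x
        · rw [if_neg hqZ]
          have hqz : lam q ≠ z := fun h => hz (Finset.mem_image.mpr ⟨q, hq, h⟩)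
          rw [Function.update_of_ne hqz]
          by_cases hqi : lam q = i
          · rw [hqi, Function.update_self, hX]
            exact Dvd.dvd.mul_left hN₀x _
          · rw [Function.update_of_ne hqi, Function.update_of_ne hqi]
            exact hN₀B q hq
      -- labels occurring after relabelling
      have hTlab : ∀ Zs ⊆ R, ∀ T ⊆ Q.image (lamZ lam z Zs), T.erase z ⊆ Q.image lam := by
        intro Zs _ T hT j hj
        rw [Finset.mem_erase] at hj
        obtain ⟨q, hq, hqj⟩ := Finset.mem_image.mp (hT hj.2)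
        unfold lamZ at hqj
        by_cases hqZ : q ∈ Zs
        · rw [if_pos hqZ] at hqj
          exact absurd hqj.symm hj.1
        · rw [if_neg hqZ] at hqj
          exact Finset.mem_image.mpr ⟨q, hq, hqj⟩
      have hiQ : i ∈ Q.image lam := Finset.mem_image.mpr ⟨p, hpQ.1, hpQ.2⟩
      -- the bound for the split index sets
      have hbound : ∀ W : Finset ℕ → Finset ℕ, (∀ T ⊆ Q.image lam, T.card = d → i ∈ T →
            (W T).card ≤ (s + 1) * bT T) →
          (∀ T ⊆ Q.image lam, T.card = d → i ∉ T → (W T).card ≤ bT T) →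
          ∀ Zs ⊆ R, ∀ T ⊆ Q.image (lamZ lam z Zs), T.card = d →
          ((Cm i z New W T).card : ℚ) ≤
            v' * ∏ j ∈ T, ((Bm i z X Z (Function.update B i X') j).card : ℚ) := by
        intro W hW1 hW2 Zs hZs T hT hTd
        have hBmz : Bm i z X Z (Function.update B i X') z = Z := by
          unfold Bm
          rw [Function.update_self]
        have hBmi : Bm i z X Z (Function.update B i X') i = X := by
          unfold Bm
          rw [Function.update_of_ne hiz, Function.update_self]
        have hBmj : ∀ j, j ≠ i → j ≠ z → Bm i z X Z (Function.update B i X') j = B j := by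
          intro j hji hjz
          unfold Bm
          rw [Function.update_of_ne hjz, Function.update_of_ne hji, Function.update_of_ne hji]
        unfold Cm
        by_cases hzT : z ∈ T
        · rw [if_pos hzT]
          by_cases hiT : i ∈ T
          · rw [if_pos hiT]
            simp only [Finset.card_empty, Nat.cast_zero]
            exact mul_nonneg hv' (Finset.prod_nonneg fun _ _ => Nat.cast_nonneg _)
          · rw [if_neg hiT]
            have hiT' : i ∉ T.erase z := fun h => hiT (Finset.mem_of_mem_erase h)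
            have hT1 : insert i (T.erase z) ⊆ Q.image lam :=
              Finset.insert_subset hiQ (hTlab Zs hZs T hT)
            have hT1d : (insert i (T.erase z)).card = d := by
              rw [Finset.card_insert_of_notMem hiT', Finset.card_erase_of_mem hzT, hTd]
              omega
            have h3 := (hOldc _ (Finset.mem_insert_self i (T.erase z)) hT1 hT1d).2
            have h4 := hbT _ hT1 hT1d
            rw [hprod _ (Finset.mem_insert_self _ _), Finset.erase_insert hiT'] at h4
            have h5 : ∏ j ∈ T, ((Bm i z X Z (Function.update B i X') j).card : ℚ) =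
                (x₀ : ℚ) * ∏ j ∈ T.erase z, ((B j).card : ℚ) := by
              rw [← Finset.mul_prod_erase T _ hzT, hBmz, hZc]
              congr 1
              refine Finset.prod_congr rfl fun j hj => ?_
              rw [hBmj j (fun h => hiT' (h ▸ hj)) (Finset.mem_erase.mp hj).1]
            rw [h5, ← h4]
            exact_mod_cast h3
        · rw [if_neg hzT]
          have hTQ : T ⊆ Q.image lam := by
            have := hTlab Zs hZs T hT
            rwa [Finset.erase_eq_of_notMem hzT] at this
          by_cases hiT : i ∈ T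
          · have h3 := hW1 T hTQ hTd hiT
            have h4 := hbT T hTQ hTd
            rw [hprod T hiT] at h4
            have h5 : ∏ j ∈ T, ((Bm i z X Z (Function.update B i X') j).card : ℚ) =
                (((s + 1) * x₀ : ℕ) : ℚ) * ∏ j ∈ T.erase i, ((B j).card : ℚ) := by
              rw [← Finset.mul_prod_erase T _ hiT, hBmi, hX]
              congr 1
              refine Finset.prod_congr rfl fun j hj => ?_
              rw [hBmj j (Finset.mem_erase.mp hj).1
                (fun h => hzT (h ▸ Finset.mem_of_mem_erase hj))]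
            have h6 : ((W T).card : ℚ) ≤ (s + 1) * (bT T : ℚ) := by exact_mod_cast h3
            rw [h5]
            refine h6.trans (le_of_eq ?_)
            rw [h4]
            push_cast
            ring
          · have h3 := hW2 T hTQ hTd hiT
            have h4 := hbT T hTQ hTd
            rw [hprod' T hiT] at h4
            have h5 : ∏ j ∈ T, ((Bm i z X Z (Function.update B i X') j).card : ℚ) =
                ∏ j ∈ T, ((B j).card : ℚ) := by
              refine Finset.prod_congr rfl fun j hj => ?_
              rw [hBmj j (fun h => hiT (h ▸ hj)) (fun h => hzT (h ▸ hj))]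
            rw [h5, ← h4]
            exact_mod_cast h3
      -- the conditions on t
      obtain ⟨t, ht, hall⟩ := lex_simul (K := K) (P := P) (A := Fin (L + 1)) d
        (insert none (insert (some none) ((R.powerset.filter
          (fun Zs => Zs.Nonempty ∧ Zs ≠ R)).image (fun Zs => some (some Zs)))))
        (fun s : Option (Option (Finset P)) => match s with
          | none => lam
          | some none => lamZ lam z (R.erase p)
          | some (some Zs) => lamZ lam z Zs)
        (fun s : Option (Option (Finset P)) => match s with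
          | none => Function.update B i X
          | some _ => Bm i z X Z (Function.update B i X'))
        (fun s : Option (Option (Finset P)) => match s with
          | none => Old
          | some none => Cm i z New C'
          | some (some _) => Cm i z New Old) Q (by
          intro s' hs'
          rw [Finset.mem_insert, Finset.mem_insert, Finset.mem_image] at hs'
          rcases hs' with rfl | rfl | ⟨Zs, hZs, rfl⟩
          · exact ih X hX Old (fun T hT hTd hi => (hOldc T hi hT hTd).1)
              (fun T hT hTd hi => by rw [hOldn T hi]; exact hC2 T hT hTd hi)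
          · have hsub : R.erase p ⊆ R := Finset.erase_subset _ _
            exact hmix (R.erase p) hsub
              ⟨p', Finset.mem_erase.mpr ⟨hpp', hp'⟩⟩
              (fun h => (Finset.notMem_erase p R) (h.symm ▸ hp)) L _
              (fun q hq => (hNfd _ hsub).trans (hlab _ hsub q hq)) _
              (hbound C' (fun T hT hTd hi => hC1 T hT hTd hi)
                (fun T hT hTd hi => hC2 T hT hTd hi) _ hsub)
          · rw [Finset.mem_filter, Finset.mem_powerset] at hZs
            exact hmix Zs hZs.1 hZs.2.1 hZs.2.2 L _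
              (fun q hq => (hNfd _ hZs.1).trans (hlab _ hZs.1 q hq)) _
              (hbound Old (fun T hT hTd hi => by
                  have := (hOldc T hi hT hTd).1
                  have h4 : (s + 1) * bT T = s * bT T + bT T := by ring
                  omega)
                (fun T hT hTd hi => by rw [hOldn T hi]; exact hC2 T hT hTd hi) _ hZs.1))
      refine ⟨Fsys i z X Z New t, Fsys_adm ht, ?_⟩
      refine state_ex (R := R) (Old := Old) (by omega) ht hR hz hiz hXZ
        (by rw [Function.update_self, hXZ']; ext a; simp only [Finset.mem_union])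
        ?_ ?_ ?_ p hp ?_ ?_ ?_
      · intro T
        exact Finset.union_sdiff_of_subset (hOldsub T)
      · intro T
        exact Finset.disjoint_sdiff
      · intro T hi
        simp only [hNew, hOldn T hi, Finset.sdiff_self]
      · have h3 := hall none (Finset.mem_insert_self _ _)
        rw [Function.update_idem]
        exact h3
      · intro Zs hZs hZs1 hZs2
        exact hall (some (some Zs)) (Finset.mem_insert_of_mem (Finset.mem_insert_of_mem
          (Finset.mem_image.mpr ⟨Zs, Finset.mem_filter.mpr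
            ⟨Finset.mem_powerset.mpr hZs, hZs1, hZs2⟩, rfl⟩)))
      · exact hall (some none) (Finset.mem_insert_of_mem (Finset.mem_insert_self _ _))
  -- conclusion
  have hfin := inner (M - 1) (B i) (by rw [hBi]; congr 1; omega) C
    (by
      intro T hT hTd hi
      have h3 := hC T hT hTd
      have h4 := hbT T hT hTd
      rw [hprod T hi] at h4
      rw [← Finset.mul_prod_erase T _ hi, hBi] at h3
      have h5 : ((C T).card : ℚ) ≤ (((M - 1 : ℕ) * bT T : ℕ) : ℚ) := by
        push_cast
        rw [h4, Nat.cast_sub (by omega : 1 ≤ M)]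
        push_cast at h3 ⊢
        have h6 : 0 ≤ (x₀ : ℚ) * ∏ j ∈ T.erase i, ((B j).card : ℚ) :=
          mul_nonneg (Nat.cast_nonneg _) (Finset.prod_nonneg fun _ _ => Nat.cast_nonneg _)
        calc ((C T).card : ℚ) ≤ v * ((M : ℚ) * (x₀ : ℚ) * ∏ j ∈ T.erase i, ((B j).card : ℚ)) := h3
          _ = (v * M) * ((x₀ : ℚ) * ∏ j ∈ T.erase i, ((B j).card : ℚ)) := by ring
          _ ≤ ((M - 1) * v') * ((x₀ : ℚ) * ∏ j ∈ T.erase i, ((B j).card : ℚ)) :=
            mul_le_mul_of_nonneg_right hvM h6
          _ = _ := by ring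
      exact_mod_cast h5)
    (by
      intro T hT hTd hi
      have h3 := hC T hT hTd
      have h4 := hbT T hT hTd
      rw [hprod' T hi] at h4
      have h5 : ((C T).card : ℚ) ≤ (bT T : ℚ) := by
        rw [h4]
        exact h3.trans (mul_le_mul_of_nonneg_right hvv'
          (Finset.prod_nonneg fun _ _ => Nat.cast_nonneg _))
      exact_mod_cast h5)
  rw [Function.update_eq_self] at hfin
  exact hfin

/-- Splitting a repeated label increases the number of labels. -/
lemma card_image_lamZ (lam : P → ℕ) (Q R Zs : Finset P) (i z : ℕ)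
    (hR : R = Q.filter (fun q => lam q = i)) (hz : z ∉ Q.image lam) (hZs : Zs ⊆ R)
    (hne : Zs.Nonempty) (hneR : Zs ≠ R) :
    (Q.image lam).card < (Q.image (lamZ lam z Zs)).card := by
  have hRmem : ∀ q, q ∈ R ↔ q ∈ Q ∧ lam q = i := fun q => by rw [hR, Finset.mem_filter]
  have h1 : insert z (Q.image lam) ⊆ Q.image (lamZ lam z Zs) := by
    intro j hj
    rw [Finset.mem_insert] at hj
    rcases hj with rfl | hj
    · obtain ⟨q, hq⟩ := hne
      refine Finset.mem_image.mpr ⟨q, ((hRmem q).mp (hZs hq)).1, ?_⟩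
      unfold lamZ
      rw [if_pos hq]
    · obtain ⟨q, hq, hqj⟩ := Finset.mem_image.mp hj
      by_cases hji : j = i
      · obtain ⟨q', hq'R, hq'Z⟩ : ∃ q' ∈ R, q' ∉ Zs := by
          by_contra hcon
          push Not at hcon
          exact hneR (Finset.Subset.antisymm hZs hcon)
        have := (hRmem q').mp hq'R
        refine Finset.mem_image.mpr ⟨q', this.1, ?_⟩
        unfold lamZ
        rw [if_neg hq'Z, this.2, hji]
      · refine Finset.mem_image.mpr ⟨q, hq, ?_⟩
        unfold lamZ
        rw [if_neg, hqj]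
        intro h
        exact hji (by rw [← hqj]; exact ((hRmem q).mp (hZs h)).2)
  have h2 := Finset.card_le_card h1
  rw [Finset.card_insert_of_notMem hz] at h2
  omega

/-- Exactness for all labellings. -/
theorem claim_all (d : ℕ) (hd : 2 ≤ d) (v₁ : ℚ) (e : ℕ → ℚ) (he0 : e 0 = 1)
    (hrec : ∀ k, e (k + 1) = e k - (k.choose (d - 1) : ℚ) * v₁ * e (k + 1 - d)) (D : ℕ)
    (hpos : ∀ i ≤ D, 0 < e i) :
    ∀ (n : ℕ) (Q : Finset P), Q.card = n → n ≤ D → ∀ (m : ℕ) (lam : P → ℕ),
      Q.card - (Q.image lam).card = m → ∀ v : ℚ, 0 ≤ v → v < v₁ → Claim K d lam Q v := by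
  intro n
  induction n using Nat.strong_induction_on with
  | _ n ihn =>
    intro Q hQ hn m
    induction m using Nat.strong_induction_on with
    | _ m ihm =>
      intro lam hm v hv hvv
      by_cases hinj : Set.InjOn lam Q
      · exact (base_claim K d hd v₁ (hv.trans hvv.le) e he0 hrec lam Q hinj
          (fun i hi => hpos i (by omega))).mono hvv.le
      · have h1 : ∃ p ∈ Q, ∃ p' ∈ Q, lam p' = lam p ∧ p' ≠ p := by
          by_contra hcon
          push Not at hcon
          exact hinj fun p hp q hq hpq => hcon q hq p hp hpq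
        obtain ⟨p, hp, p', hp', hpp', hne⟩ := h1
        obtain ⟨z, hz⟩ := Infinite.exists_notMem_finset (Q.image lam)
        set R := Q.filter (fun q => lam q = lam p) with hR
        have hpR : p ∈ R := Finset.mem_filter.mpr ⟨hp, rfl⟩
        have hp'R : p' ∈ R := Finset.mem_filter.mpr ⟨hp', hpp'⟩
        set v' := (v + v₁) / 2 with hv'
        have hvv' : v < v' := by rw [hv']; linarith
        have hv'v₁ : v' < v₁ := by rw [hv']; linarith
        obtain ⟨M₀, hM₀⟩ := exists_nat_ge (v' / (v' - v))
        set M := max 2 M₀ with hM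
        have hMM : (M₀ : ℚ) ≤ (M : ℚ) := by
          exact_mod_cast le_max_right 2 M₀
        have hvM : v * M ≤ (M - 1) * v' := by
          have h2 : 0 < v' - v := by linarith
          rw [div_le_iff₀ h2] at hM₀
          nlinarith
        refine claim_step d hd lam Q R (lam p) z hR hz p p' hpR hp'R hne v v' (by linarith)
          hvv'.le M (le_max_left _ _) hvM ?_ ?_
        · have hlt : (Q \ R).card < n := by
            rw [← hQ]
            exact card_sdiff_lt (Finset.filter_subset _ _) hpR
          exact ihn _ hlt (Q \ R) rfl (by omega) _ lam rfl v' (by linarith) hv'v₁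
        · intro Zs hZs hZ1 hZ2
          have h3 := card_image_lamZ lam Q R Zs (lam p) z hR hz hZs hZ1 hZ2
          have h4 : (Q.image (lamZ lam z Zs)).card ≤ Q.card := Finset.card_image_le
          exact ihm _ (by omega) (lamZ lam z Zs) rfl v' (by linarith) hv'v₁

end Pool.Agent.H21

end

section

/-!
Existence of systems of forms with the expected Hilbert function.
-/

set_option linter.unusedSectionVars false

namespace Pool.Agent.H21

open scoped Classical
open MvPolynomial

/-- Positions whose label carries no generators do not matter. -/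
lemma LEx_extend {K : Type} [Field K] {P : Type} [Fintype P] {A : Type} [Fintype A] [Nonempty A]
    {d : ℕ} (hd : 1 ≤ d) {lam : P → ℕ} {B : ℕ → Finset A} {C : Finset ℕ → Finset ℕ}
    {Q Q₀ : Finset P} {t : Sys K A}
    (hC : ∀ q ∈ Q, q ∉ Q₀ → ∀ T, lam q ∈ T → C T = ∅)
    (hE : LEx d lam B C Q₀ t) : LEx d lam B C Q t := by
  have hne : ∀ l ∈ fam (CL d lam C), (Prod.fst l : Finset P).Nonempty := by
    intro l hl
    rw [mem_fam] at hl
    unfold CL at hl
    split_ifs at hl with h2
    · rw [← Finset.card_pos]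
      omega
    · simp at hl
  refine Ex_of_inj (fun l _ => hb_mem _ (HL_mem lam t l)) hne ?_
  intro Q' hQ' hQ'ne
  by_cases hex : ∃ q ∈ Q', q ∉ Q₀
  · obtain ⟨q, hq, hqR⟩ := hex
    refine ⟨q, hq, ?_⟩
    intro w _ _ l hl
    exfalso
    rw [mem_Sp, mem_fam] at hl
    obtain ⟨h3, h4, h5⟩ := hl
    unfold CL at h3
    split_ifs at h3 with h6
    · rw [hC q (hQ' hq) hqR _ (Finset.mem_image_of_mem lam h4)] at h3
      simp at h3
    · simp at h3
  · obtain ⟨q, hq⟩ := hQ'ne
    refine ⟨q, hq, Ex.inj (fun l _ => hb_mem _ (HL_mem lam t l)) hne hE ?_ hq⟩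
    intro q' hq'
    by_contra h
    exact hex ⟨q', hq', h⟩

/-- The block of a variable. -/
def blkf (L m k : ℕ) (a : Fin (L + 1)) : ℕ := min (a.val / m) k

lemma card_BB_blkf {L m k : ℕ} (hm : 0 < m) (hkm : k * m ≤ L + 1) {i : ℕ} (hi : i < k) :
    (BB (blkf L m k) i).card = m := by
  have h1 : BB (blkf L m k) i = Finset.univ.filter (fun a : Fin (L + 1) => a.val / m = i) := by
    ext a
    rw [mem_BB, Finset.mem_filter]
    unfold blkf
    simp only [Finset.mem_univ, true_and]
    constructor
    · intro h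
      rcases min_choice (a.val / m) k with h2 | h2
      · rw [h2] at h; exact h
      · rw [h2] at h; omega
    · intro h
      rw [h]
      exact min_eq_left hi.le
  rw [h1]
  have h2 : (Finset.univ.filter (fun a : Fin (L + 1) => a.val / m = i)).card =
      (Finset.range m).card := by
    symm
    have hlt : ∀ b < m, i * m + b < L + 1 := by
      intro b hb
      have : (i + 1) * m ≤ k * m := Nat.mul_le_mul_right m hi
      have h3 : (i + 1) * m = i * m + m := by ring
      omega
    refine Finset.card_bij (fun b hb => ⟨i * m + b, hlt b (Finset.mem_range.mp hb)⟩) ?_ ?_ ?_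
    · intro b hb
      rw [Finset.mem_range] at hb
      rw [Finset.mem_filter]
      refine ⟨Finset.mem_univ _, ?_⟩
      simp only
      rw [mul_comm, Nat.mul_add_div hm, Nat.div_eq_of_lt hb, add_zero]
    · intro b _ b' _ h
      have := congrArg Fin.val h
      simp only at this
      omega
    · intro a ha
      rw [Finset.mem_filter] at ha
      have h3 := Nat.div_add_mod a.val m
      rw [ha.2] at h3
      refine ⟨a.val % m, Finset.mem_range.mpr (Nat.mod_lt _ hm), ?_⟩
      apply Fin.ext
      simp only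
      rw [mul_comm] at h3
      exact h3
  rw [h2, Finset.card_range]

theorem exact_exists (K : Type) [Field K] [CharZero K] [Infinite K] (d D : ℕ) (hd : 2 ≤ d)
    (v₁ v : ℚ) (hv : 0 ≤ v) (hvv : v < v₁) (hpos : ∀ i ≤ D, 0 < ee ℚ d v₁ i) (k : ℕ) :
    ∃ N : ℕ, 0 < N ∧ ∀ m L : ℕ, N ∣ m → 0 < m → k * m ≤ L + 1 →
      ∀ u : ℕ, u ≤ k.choose d * ⌊v * (m : ℚ) ^ d⌋₊ →
      ∃ f : Fin u → MvPolynomial (Fin (L + 1)) K, (∀ l, (f l).IsHomogeneous d) ∧
        ∀ E ≤ D, Hc f E = serCoeff (L + 1) d u E := by
  -- the claims for all labellings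
  let Q₀ : ∀ (e : Fin (D + 1)) (lam : Fin e.1 → Fin (k + 1)), Finset (Fin e.1) :=
    fun e lam => Finset.univ.filter (fun p => (lam p).1 < k)
  have hclaim : ∀ x : (e : Fin (D + 1)) × (Fin e.1 → Fin (k + 1)),
      Claim K d (fun p => (x.2 p).1) (Q₀ x.1 x.2) v := by
    intro x
    refine claim_all (K := K) d hd v₁ (ee ℚ d v₁) (ee_zero d v₁) (ee_succ d (by omega) v₁) D hpos
      _ (Q₀ x.1 x.2) rfl ?_ _ _ rfl v hv hvv
    have h1 := Finset.card_le_univ (Q₀ x.1 x.2)
    rw [Fintype.card_fin] at h1
    have h2 := x.1.2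
    omega
  choose Nf hNf hcl using hclaim
  refine ⟨∏ x, Nf x, Finset.prod_pos fun x _ => hNf x, ?_⟩
  intro m L hNm hm hkm u hu
  set blk := blkf L m k with hblk
  -- the index set of the generators
  set Gfull : Finset (Finset ℕ × ℕ) :=
    (Finset.powersetCard d (Finset.range k)) ×ˢ (Finset.range ⌊v * (m : ℚ) ^ d⌋₊) with hGfull
  have hGfc : Gfull.card = k.choose d * ⌊v * (m : ℚ) ^ d⌋₊ := by
    rw [hGfull, Finset.card_product, Finset.card_powersetCard, Finset.card_range,
      Finset.card_range]
  obtain ⟨GI, hGIsub, hGIc⟩ := Finset.exists_subset_card_eq (s := Gfull) (n := u)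
    (by rw [hGfc]; exact hu)
  have hGImem : ∀ x ∈ GI, x.1 ⊆ Finset.range k ∧ x.1.card = d ∧ x.2 < ⌊v * (m : ℚ) ^ d⌋₊ := by
    intro x hx
    have := hGIsub hx
    rw [hGfull, Finset.mem_product, Finset.mem_powersetCard, Finset.mem_range] at this
    exact ⟨this.1.1, this.1.2, this.2⟩
  set C : Finset ℕ → Finset ℕ := fun T => (GI.filter (fun x => x.1 = T)).image Prod.snd with hC
  have hCmem : ∀ T l, l ∈ C T ↔ (T, l) ∈ GI := by
    intro T l
    rw [hC, Finset.mem_image]
    constructor
    · rintro ⟨⟨T', l'⟩, h1, h2⟩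
      rw [Finset.mem_filter] at h1
      simp only at h1 h2
      rw [← h1.2, ← h2]
      exact h1.1
    · intro h
      exact ⟨(T, l), Finset.mem_filter.mpr ⟨h, rfl⟩, rfl⟩
  have hGI : ∀ x, x ∈ GI ↔ x.1.card = d ∧ x.2 ∈ C x.1 := by
    rintro ⟨T, l⟩
    rw [hCmem]
    exact ⟨fun h => ⟨(hGImem _ h).2.1, h⟩, fun h => h.2⟩
  have hCc : ∀ T, ((C T).card : ℚ) ≤ v * (m : ℚ) ^ d := by
    intro T
    have h1 : C T ⊆ Finset.range ⌊v * (m : ℚ) ^ d⌋₊ := by
      intro l hl
      rw [hCmem] at hl
      exact Finset.mem_range.mpr (hGImem _ hl).2.2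
    have h2 := Finset.card_le_card h1
    rw [Finset.card_range] at h2
    have h3 : ((C T).card : ℚ) ≤ (⌊v * (m : ℚ) ^ d⌋₊ : ℚ) := by exact_mod_cast h2
    exact h3.trans (Nat.floor_le (by positivity))
  have hBc : ∀ i < k, (BB blk i).card = m := fun i hi => card_BB_blkf hm hkm hi
  -- choose the system
  let idx := (x : (e : Fin (D + 1)) × (Fin e.1 → Fin (k + 1))) × Finset (Fin x.1.1)
  let sp : idx → Spec (Fin (L + 1)) := fun s =>
    ⟨Fin s.1.1.1, inferInstance, fun p => (s.1.2 p).1, BB blk, C, s.2⟩
  obtain ⟨t, ht, hsat⟩ := spec_simul (K := K) (A := Fin (L + 1)) d (Finset.univ : Finset idx) sp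
    (by
      rintro ⟨x, Q'⟩ _
      have h1 := hcl x L (BB blk) (fun q hq => by
          rw [Finset.mem_filter] at hq
          rw [hBc _ hq.2]
          exact (Finset.dvd_prod_of_mem Nf (Finset.mem_univ x)).trans hNm) C
        (fun T hT hTd => by
          have h2 : ∏ i ∈ T, ((BB blk i).card : ℚ) = (m : ℚ) ^ d := by
            rw [← hTd, ← Finset.prod_const]
            refine Finset.prod_congr rfl fun i hi => ?_
            obtain ⟨q, hq, hqi⟩ := Finset.mem_image.mp (hT hi)
            rw [Finset.mem_filter] at hq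
            rw [hBc i (by rw [← hqi]; exact hq.2)]
          rw [h2]
          exact hCc T)
      obtain ⟨t, ht, hE⟩ := h1
      refine ⟨t, ht, ?_⟩
      have h3 : LEx d (fun p => (x.2 p).1) (BB blk) C Finset.univ t := by
        refine LEx_extend (by omega) ?_ hE
        intro q _ hq T hqT
        have h4 : k ≤ (x.2 q).1 := by
          by_contra h5
          push Not at h5
          exact hq (Finset.mem_filter.mpr ⟨Finset.mem_univ _, h5⟩)
        rw [Finset.eq_empty_iff_forall_notMem]
        intro l hl
        rw [hCmem] at hl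
        have h5 := (hGImem _ hl).1 hqT
        rw [Finset.mem_range] at h5
        omega
      exact h3 Q' (Finset.subset_univ _))
  have hLEx : ∀ e ≤ D, ∀ lam : Fin e → ℕ, (∀ p, lam p < k + 1) →
      LEx d lam (BB blk) C Finset.univ t := by
    intro e he lam hlam Q' _
    exact hsat ⟨⟨⟨e, by omega⟩, fun p => ⟨lam p, hlam p⟩⟩, Q'⟩ (Finset.mem_univ _)
  -- the forms
  let g : ↥GI → MvPolynomial (Fin (L + 1)) K := fun x => fpol blk t x.1.1 x.1.2
  have hg : ∀ l, (g l).IsHomogeneous d := by
    intro l
    have h1 := fpol_homogeneous blk t l.1.1 l.1.2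
    rw [(hGImem _ l.2).2.1] at h1
    exact h1
  have hspan : Ideal.span (Set.range g) = fI blk t GI := by
    unfold fI
    congr 1
    ext p
    constructor
    · rintro ⟨x, rfl⟩
      exact ⟨x.1, by exact_mod_cast x.2, rfl⟩
    · rintro ⟨x, hx, rfl⟩
      exact ⟨⟨x, by exact_mod_cast hx⟩, rfl⟩
  have hDS : ∀ e, e + d ≤ D → ∀ w : ↥GI → MvPolynomial (Fin (L + 1)) K,
      (∀ l, (w l).IsHomogeneous e) →
      (∀ a, ∑ l, w l * pderiv a (g l) ∈ Ideal.span (Set.range g)) →
      ∀ l, w l ∈ Ideal.span (Set.range g) := by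
    intro e he w hw hsum
    rw [hspan] at hsum ⊢
    let w' : Finset ℕ × ℕ → MvPolynomial (Fin (L + 1)) K := fun x =>
      if hx : x ∈ GI then w ⟨x, hx⟩ else 0
    have hw' : ∀ l : ↥GI, w' l.1 = w l := fun l => by
      simp only [w']
      rw [dif_pos l.2]
    have h1 := ds_main (K := K) (P := Fin (e + d)) (A := Fin (L + 1)) (blk := blk) ht
      (by omega) hGI (k := k + 1)
      (fun a => by
        rw [hblk]
        unfold blkf
        exact Nat.lt_succ_of_le (min_le_right _ _))
      (fun x hx i hi => by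
        have := (hGImem x hx).1 hi
        rw [Finset.mem_range] at this
        omega)
      (fun lam hlam => hLEx (e + d) he lam hlam) (by rw [Fintype.card_fin]) w'
      (fun x hx => by
        have := hw ⟨x, hx⟩
        rw [← hw' ⟨x, hx⟩] at this
        exact this)
      (fun a => by
        have := hsum a
        convert this using 1
        rw [← Finset.sum_coe_sort GI]
        refine Finset.sum_congr rfl fun l _ => ?_
        rw [hw' l])
    intro l
    rw [← hw' l]
    exact h1 l.1 l.2
  have hQR := quasi_regular g d D (by omega) hg hDS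
  have hH := Hc_eq hg (by omega) D hQR
  -- reindex
  have hcard : Fintype.card ↥GI = u := by rw [Fintype.card_coe, hGIc]
  let eq : Fin u ≃ ↥GI := (Fintype.equivFinOfCardEq hcard).symm
  refine ⟨g ∘ eq, fun l => hg _, ?_⟩
  intro E hE
  have h1 := hH E hE
  rw [Fintype.card_fin, hcard] at h1
  rw [← h1]
  unfold Hc Jr
  rw [Set.range_comp, eq.range_eq_univ, Set.image_univ]

end Pool.Agent.H21

end
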