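import Pool.Agent.H94.LP7.M35
import Pool.Agent.H94.LP7.M97
import Pool.Agent.H94.LP7.M99

/-! The parts of this file: H21.SubFinal, H21.XF.Forms, H21.XF.Sys. -/

section

/-!
The subcritical theorem.
-/

set_option linter.unusedSectionVars false

namespace Pool.Agent.H21

open scoped Classical
open MvPolynomial Filter Topology

section BaseChange

variable {K : Type} [Field K] [CharZero K]

/-- Base change does not lower dimensions. -/
lemma finrank_bc_ge {n e : ℕ} {W : Submodule ℚ (MvPolynomial (Fin n) ℚ)}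
    (hW : W ≤ homogeneousSubmodule (Fin n) ℚ e) :
    Module.finrank ℚ W ≤ Module.finrank K (bc (K := K) W) := by
  set S := homogeneousSubmodule (Fin n) ℚ e with hS
  obtain ⟨W₁', hc⟩ := Submodule.exists_isCompl (W.comap S.subtype)
  set W' := W₁'.map S.subtype with hW'
  have hW'S : W' ≤ S := by
    rw [hW']
    exact Submodule.map_subtype_le S W₁'
  have hWW : (W.comap S.subtype).map S.subtype = W := by
    rw [Submodule.map_comap_subtype]
    exact inf_eq_right.mpr hW
  have hsup : W ⊔ W' = S := by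
    rw [← hWW, hW', ← Submodule.map_sup, hc.sup_eq_top, Submodule.map_top,
      Submodule.range_subtype]
  have hfW : FiniteDimensional ℚ W := Submodule.finiteDimensional_of_le hW
  have hfW' : FiniteDimensional ℚ W' := Submodule.finiteDimensional_of_le hW'S
  have h1 : Module.finrank ℚ W + Module.finrank ℚ W' = Module.finrank ℚ S := by
    have h2 := Submodule.finrank_add_eq_of_isCompl hc
    have h3 := (Submodule.equivMapOfInjective S.subtype (Submodule.injective_subtype S)
      (W.comap S.subtype)).finrank_eq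
    have h4 := (Submodule.equivMapOfInjective S.subtype (Submodule.injective_subtype S)
      W₁').finrank_eq
    rw [hWW] at h3
    rw [← h3, hW', ← h4]
    exact h2
  have h5 : homogeneousSubmodule (Fin n) K e ≤ bc (K := K) W ⊔ bc (K := K) W' := by
    refine (homogeneous_le_bc n e).trans ?_
    rw [← hS, ← hsup]
    exact bc_sup_le W W'
  have hb1 : FiniteDimensional K (bc (K := K) W) :=
    Submodule.finiteDimensional_of_le (bc_le_homogeneous hW)
  have hb2 : FiniteDimensional K (bc (K := K) W') :=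
    Submodule.finiteDimensional_of_le (bc_le_homogeneous hW'S)
  have h6 := Submodule.finrank_mono h5
  have h7 := Submodule.finrank_add_le_finrank_add_finrank (bc (K := K) W) (bc (K := K) W')
  have h8 := finrank_bc_le (K := K) W'
  have h9 : Module.finrank K (homogeneousSubmodule (Fin n) K e) = Module.finrank ℚ S := by
    rw [hS, finrank_forms, finrank_forms]
  omega

/-- Systems over `ℚ` give systems over `K`. -/
lemma exists_over {n d k D : ℕ} (f : Fin k → MvPolynomial (Fin n) ℚ)
    (hf : ∀ l, (f l).IsHomogeneous d) (hH : ∀ E ≤ D, Hc f E = serCoeff n d k E) :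
    ∃ g : Fin k → Fd K n d, ∀ e, e + d ≤ D → cd g k (e + d) ≤ serCoeff n d k (e + d) := by
  let g : Fin k → Fd K n d := fun l => ⟨MvPolynomial.map (algebraMap ℚ K) (f l), by
    rw [mem_homogeneousSubmodule]
    exact (hf l).map _⟩
  refine ⟨g, fun e he => ?_⟩
  rw [← hH (e + d) he]
  unfold cd Hc
  rw [if_pos (Nat.le_add_left d e), Nat.add_sub_cancel, Jr_eq_prodSpan hf]
  set V := Submodule.span ℚ (Set.range f) with hV
  have hVd : V ≤ homogeneousSubmodule (Fin n) ℚ d := by
    rw [hV, Submodule.span_le]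
    rintro _ ⟨l, rfl⟩
    exact (mem_homogeneousSubmodule _ _).mpr (hf l)
  have h1 : bc (K := K) V ≤ Submodule.span K ((fun i => (g i).1) '' {i : Fin k | i.1 < k}) := by
    refine bc_span_le.trans ?_
    rw [Submodule.span_le]
    rintro _ ⟨_, ⟨l, rfl⟩, rfl⟩
    exact Submodule.subset_span ⟨l, l.2, rfl⟩
  have hVg : Submodule.span K ((fun i => (g i).1) '' {i : Fin k | i.1 < k}) ≤
      homogeneousSubmodule (Fin n) K d := by
    rw [Submodule.span_le]
    rintro _ ⟨l, _, rfl⟩
    exact (g l).2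
  have h2 : bc (K := K) (prodSpan e V) ≤
      prodSpan e (Submodule.span K ((fun i => (g i).1) '' {i : Fin k | i.1 < k})) :=
    (bc_prodSpan_le V).trans (prodSpan_mono h1)
  have hfin : FiniteDimensional K
      (prodSpan e (Submodule.span K ((fun i => (g i).1) '' {i : Fin k | i.1 < k}))) :=
    Submodule.finiteDimensional_of_le (prodSpan_le hVg)
  have h3 := Submodule.finrank_mono h2
  have h4 := finrank_bc_ge (K := K) (prodSpan_le (e := e) hVd)
  have h5 : Module.finrank K (Fd K n (e + d)) =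
      Module.finrank ℚ (homogeneousSubmodule (Fin n) ℚ (e + d)) := by
    rw [finrank_forms, finrank_forms]
  have h6 : (Module.finrank ℚ (prodSpan e V) : ℤ) ≤ (Module.finrank K
      (prodSpan e (Submodule.span K ((fun i => (g i).1) '' {i : Fin k | i.1 < k}))) : ℤ) := by
    exact_mod_cast h4.trans h3
  rw [h5]
  linarith

lemma ser_deg_d (n d : ℕ) (hd : 1 ≤ d) : ∀ k : ℕ, serCoeff n d k d = serCoeff n d 0 d - k := by
  intro k
  induction k with
  | zero => simp
  | succ k ih =>
    rw [fc_succ n d k d hd, if_pos le_rfl, ih, Nat.sub_self, ser_small hd 0 (by omega)]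
    have : serCoeff n d 0 0 = 1 := by
      rw [fc_zero]
      simp
    rw [this]
    push_cast
    ring

lemma prodSpan_zero_le {n : ℕ} (V : Submodule K (MvPolynomial (Fin n) K)) :
    prodSpan 0 V ≤ V := by
  unfold prodSpan
  rw [Submodule.span_le]
  rintro _ ⟨s, hs, v, hv, rfl⟩
  rw [SetLike.mem_coe, mem_homogeneousSubmodule, ← totalDegree_zero_iff_isHomogeneous,
    totalDegree_eq_zero_iff_eq_C] at hs
  simp only
  rw [hs, ← smul_eq_C_mul]
  exact Submodule.smul_mem _ _ hv

/-- Fröberg's formula from good systems of all sizes up to `u`. -/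
theorem froberg_of_systems {n d u j : ℕ} (hn : 0 < n) (hd : 1 ≤ d)
    (hex : ∀ k ≤ u, ∃ f : Fin k → Fd K n d, ∀ e, e + d ≤ j + d →
      cd f k (e + d) ≤ serCoeff n d k (e + d)) : FrobergAt K n d u j := by
  have hcdfull : ∀ (g : Fin u → Fd K n d) (e : ℕ), cd g u (e + d) =
      (Module.finrank K (homogeneousSubmodule (Fin n) K (e + d)) : ℤ) -
        (Module.finrank K (prodSpan e (Submodule.span K (Set.range fun i => (g i).1))) : ℤ) := by
    intro g e
    unfold cd
    rw [if_pos (Nat.le_add_left d e), Nat.add_sub_cancel]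
    have h1 : (fun i => (g i).1) '' {i : Fin u | i.1 < u} = Set.range fun i => (g i).1 := by
      rw [← Set.image_univ]
      congr 1
      ext i
      exact ⟨fun _ => Set.mem_univ _, fun _ => i.2⟩
    rw [h1]
  have hnonneg : ∀ E ≤ j + d, 0 ≤ serCoeff n d u E := by
    obtain ⟨f, _⟩ := hex u le_rfl
    exact (upper_bound hn hd (j + d) hex f j le_rfl).2
  have htrunc : truncCoeff n d u (j + d) = serCoeff n d u (j + d) := by
    unfold truncCoeff
    rw [if_pos hnonneg]
  unfold FrobergAt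
  rw [htrunc]
  constructor
  · intro V hV hVu
    have hfV : FiniteDimensional K V := Submodule.finiteDimensional_of_le hV
    let b := Module.finBasisOfFinrankEq K V hVu
    let g : Fin u → Fd K n d := fun i => ⟨(b i).1, hV (b i).2⟩
    have h1 := (upper_bound hn hd (j + d) hex g j le_rfl).1
    rw [hcdfull] at h1
    have h2 : Submodule.span K (Set.range fun i => (g i).1) = V := by
      have h3 := congrArg (Submodule.map V.subtype) b.span_eq
      rw [Submodule.map_span, Submodule.map_top, Submodule.range_subtype, ← Set.range_comp] at h3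
      exact h3
    rw [h2] at h1
    linarith
  · obtain ⟨f, hf⟩ := hex u le_rfl
    set V := Submodule.span K (Set.range fun i => (f i).1) with hV
    have hVd : V ≤ homogeneousSubmodule (Fin n) K d := by
      rw [hV, Submodule.span_le]
      rintro _ ⟨i, rfl⟩
      exact (f i).2
    have heq : ∀ e, e + d ≤ j + d → cd f u (e + d) = serCoeff n d u (e + d) := fun e he =>
      le_antisymm (hf e he) (upper_bound hn hd (j + d) hex f e he).1
    have hfV : FiniteDimensional K V := Submodule.finiteDimensional_of_le hVd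
    refine ⟨V, hVd, ?_, ?_⟩
    · have h1 := heq 0 (by omega)
      rw [hcdfull, ← hV, zero_add, ser_deg_d n d hd, ← finrank_Fd (K := K) hn] at h1
      have h2 : Module.finrank K (prodSpan 0 V) = u := by
        have h3 : (Module.finrank K (prodSpan 0 V) : ℤ) = (u : ℤ) := by
          linarith
        exact_mod_cast h3
      have h4 := Submodule.finrank_mono (prodSpan_zero_le V)
      have h5 : Module.finrank K V ≤ u := by
        have h6 := finrank_range_le_card (R := K) (fun i => (f i).1)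
        rw [Fintype.card_fin] at h6
        exact h6
      omega
    · have h1 := heq j le_rfl
      rw [hcdfull, ← hV] at h1
      linarith

end BaseChange

/-- Rational points slightly to the right where all coefficients are still positive. -/
lemma exists_rat_right {d D : ℕ} {c : ℝ} (h0 : 0 ≤ c) (h : ∀ i ≤ D, 0 < expCoeff d i c) :
    ∃ c₁ c₂ : ℚ, c < c₂ ∧ c₂ < c₁ ∧ 0 < c₂ ∧ ∀ i ≤ D, 0 < expCoeff d i c₁ := by
  have h1 : ∀ᶠ x in 𝓝 c, ∀ i ∈ Finset.range (D + 1), 0 < expCoeff d i x := by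
    rw [Filter.eventually_all_finset]
    intro i hi
    rw [Finset.mem_range] at hi
    exact continuousAt_const.eventually_lt (continuous_hh d i).continuousAt (h i (by omega))
  obtain ⟨δ, hδ, h2⟩ := Metric.eventually_nhds_iff.mp h1
  obtain ⟨c₁, h3, h4⟩ := exists_rat_btwn (show c < c + δ by linarith)
  obtain ⟨c₂, h5, h6⟩ := exists_rat_btwn h3
  refine ⟨c₁, c₂, h5, by exact_mod_cast h6, ?_, ?_⟩
  · have : (0 : ℝ) < (c₂ : ℝ) := by linarith
    exact_mod_cast this
  · intro i hi
    have h7 : 0 < expCoeff d i (c₁ : ℝ) := by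
      apply h2 _ i (Finset.mem_range.mpr (by omega))
      rw [Real.dist_eq, abs_lt]
      constructor <;> linarith
    rw [← hh_cast] at h7
    exact_mod_cast h7

/-- Counting the available generators. -/
lemma exists_block_number (d : ℕ) (hd : 1 ≤ d) (c c₂ : ℝ) (hc : c < c₂) (hc₂ : 0 < c₂) :
    ∃ k : ℕ, 0 < k ∧ ∀ N : ℕ, 0 < N → ∃ n₀ : ℕ, ∀ n : ℕ, n₀ ≤ n →
      k * N ≤ n ∧ c * (n : ℝ) ^ d ≤
        ((k.choose d * ⌊(d.factorial : ℝ) * c₂ * ((N * (n / (k * N)) : ℕ) : ℝ) ^ d⌋₊ : ℕ) : ℝ) := by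
  -- choose k
  have hlim1 : Tendsto (fun k : ℕ => c₂ * (1 + (1 - (d : ℝ)) / (k : ℝ)) ^ d) atTop
      (𝓝 (c₂ * (1 + 0) ^ d)) := by
    apply Tendsto.const_mul
    apply Tendsto.pow
    apply Tendsto.const_add
    exact Tendsto.div_atTop tendsto_const_nhds tendsto_natCast_atTop_atTop
  rw [add_zero, one_pow, mul_one] at hlim1
  obtain ⟨k, hk1, hk2⟩ := ((hlim1.eventually_const_lt hc).and
    (eventually_ge_atTop (d + 1))).exists
  have hkpos : 0 < k := by omega
  refine ⟨k, hkpos, fun N hN => ?_⟩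
  set c₃ := c₂ * (1 + (1 - (d : ℝ)) / (k : ℝ)) ^ d with hc₃
  set Cb : ℝ := (k.choose d : ℝ) with hCb
  have hlim2 : Tendsto (fun n : ℕ => c₃ * (1 - ((k * N : ℕ) : ℝ) / (n : ℝ)) ^ d -
      Cb / (n : ℝ) ^ d) atTop (𝓝 (c₃ * (1 - 0) ^ d - 0)) := by
    apply Tendsto.sub
    · apply Tendsto.const_mul
      apply Tendsto.pow
      apply Tendsto.const_sub
      exact Tendsto.div_atTop tendsto_const_nhds tendsto_natCast_atTop_atTop
    · apply Tendsto.div_atTop tendsto_const_nhds
      exact (tendsto_pow_atTop (by omega)).comp tendsto_natCast_atTop_atTop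
  rw [sub_zero, sub_zero, one_pow, mul_one] at hlim2
  obtain ⟨n₀, hn₀⟩ := eventually_atTop.mp ((hlim2.eventually_const_lt hk1).and
    (eventually_ge_atTop (k * N)))
  refine ⟨n₀, fun n hn => ?_⟩
  obtain ⟨h1, h2⟩ := hn₀ n hn
  refine ⟨h2, ?_⟩
  have hkN : 0 < k * N := Nat.mul_pos hkpos hN
  have hnpos : 0 < n := lt_of_lt_of_le hkN h2
  have hnR : (0 : ℝ) < (n : ℝ) := by exact_mod_cast hnpos
  have hkR : (0 : ℝ) < (k : ℝ) := by exact_mod_cast hkpos
  set m := N * (n / (k * N)) with hm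
  -- lower bound for m
  have hkm : n - k * N ≤ k * m := by
    have h3 := Nat.div_add_mod n (k * N)
    have h4 := Nat.mod_lt n hkN
    have h5 : k * m = k * N * (n / (k * N)) := by rw [hm]; ring
    omega
  have hmR : (n : ℝ) - ((k * N : ℕ) : ℝ) ≤ (k : ℝ) * (m : ℝ) := by
    have h3 : ((n - k * N : ℕ) : ℝ) ≤ ((k * m : ℕ) : ℝ) := by exact_mod_cast hkm
    rw [Nat.cast_sub h2] at h3
    push_cast at h3 ⊢
    exact h3
  -- the floor
  have hfl : (d.factorial : ℝ) * c₂ * (m : ℝ) ^ d - 1 ≤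
      (⌊(d.factorial : ℝ) * c₂ * (m : ℝ) ^ d⌋₊ : ℝ) := (Nat.sub_one_lt_floor _).le
  have hch : (((k + 1 - d : ℕ) : ℝ) ^ d) / (d.factorial : ℝ) ≤ Cb := Nat.pow_le_choose d k
  have hCb0 : 0 ≤ Cb := Nat.cast_nonneg _
  have hk1d : ((k + 1 - d : ℕ) : ℝ) = (k : ℝ) * (1 + (1 - (d : ℝ)) / (k : ℝ)) := by
    rw [Nat.cast_sub (by omega)]
    push_cast
    field_simp
    ring
  have hfact : (0 : ℝ) < (d.factorial : ℝ) := by exact_mod_cast d.factorial_pos
  have hnk : 0 ≤ (n : ℝ) - ((k * N : ℕ) : ℝ) := by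
    have : ((k * N : ℕ) : ℝ) ≤ (n : ℝ) := by exact_mod_cast h2
    linarith
  have h6 : c₃ * ((n : ℝ) - ((k * N : ℕ) : ℝ)) ^ d ≤
      Cb * ((d.factorial : ℝ) * c₂ * (m : ℝ) ^ d) := by
    have h7 : ((n : ℝ) - ((k * N : ℕ) : ℝ)) ^ d ≤ ((k : ℝ) * (m : ℝ)) ^ d :=
      pow_le_pow_left₀ hnk hmR d
    have hc₃0 : 0 ≤ c₃ := by
      rw [hc₃]
      have h8 : 0 ≤ 1 + (1 - (d : ℝ)) / (k : ℝ) := by
        have h9 : 0 ≤ (k : ℝ) * (1 + (1 - (d : ℝ)) / (k : ℝ)) := by
          rw [← hk1d]
          positivity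
        exact nonneg_of_mul_nonneg_right h9 hkR
      positivity
    calc c₃ * ((n : ℝ) - ((k * N : ℕ) : ℝ)) ^ d ≤ c₃ * ((k : ℝ) * (m : ℝ)) ^ d :=
          mul_le_mul_of_nonneg_left h7 hc₃0
      _ = ((((k + 1 - d : ℕ) : ℝ) ^ d) / (d.factorial : ℝ)) *
            ((d.factorial : ℝ) * c₂ * (m : ℝ) ^ d) := by
          rw [hk1d, hc₃, mul_pow, mul_pow]
          field_simp
      _ ≤ _ := mul_le_mul_of_nonneg_right hch (by positivity)
  have h8 : c * (n : ℝ) ^ d ≤ c₃ * ((n : ℝ) - ((k * N : ℕ) : ℝ)) ^ d - Cb := by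
    have h9 := mul_le_mul_of_nonneg_right h1.le (by positivity : (0 : ℝ) ≤ (n : ℝ) ^ d)
    refine h9.trans (le_of_eq ?_)
    rw [sub_mul, div_mul_cancel₀ _ (by positivity), mul_assoc, ← mul_pow]
    congr 3
    field_simp
  push_cast
  rw [← hCb]
  calc c * (n : ℝ) ^ d ≤ c₃ * ((n : ℝ) - ((k * N : ℕ) : ℝ)) ^ d - Cb := h8
    _ ≤ Cb * ((d.factorial : ℝ) * c₂ * (m : ℝ) ^ d) - Cb := by linarith
    _ = Cb * ((d.factorial : ℝ) * c₂ * (m : ℝ) ^ d - 1) := by ring
    _ ≤ _ := mul_le_mul_of_nonneg_left hfl hCb0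

/-- The subcritical range. -/
theorem sub_main (d j : ℕ) (hd : 2 ≤ d) (c : ℝ) (hc0 : 0 ≤ c)
    (hc : ∀ i ≤ j + d, 0 < expCoeff d i c) :
    ∃ n₀ : ℕ, ∀ n : ℕ, n₀ ≤ n → ∀ u : ℕ, (u : ℝ) ≤ c * (n : ℝ) ^ d →
      ∀ (K : Type) [Field K] [CharZero K], FrobergAt K n d u j := by
  obtain ⟨c₁, c₂, hcc, hcc', hc₂, hpos⟩ := exists_rat_right hc0 hc
  set v₁ : ℚ := (d.factorial : ℚ) * c₁ with hv₁
  set v : ℚ := (d.factorial : ℚ) * c₂ with hv
  have hf : (0 : ℚ) < (d.factorial : ℚ) := by exact_mod_cast d.factorial_pos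
  have hv0 : 0 ≤ v := by positivity
  have hvv : v < v₁ := mul_lt_mul_of_pos_left hcc' hf
  have hee : ∀ i ≤ j + d, 0 < ee ℚ d v₁ i := by
    intro i hi
    unfold ee
    have h1 : v₁ / (d.factorial : ℚ) = c₁ := by
      rw [hv₁]
      field_simp
    rw [h1]
    have h2 : (0 : ℚ) < (i.factorial : ℚ) := by exact_mod_cast i.factorial_pos
    exact mul_pos h2 (hpos i hi)
  obtain ⟨k, hk, hblock⟩ := exists_block_number d (by omega) c c₂ hcc (by exact_mod_cast hc₂)
  obtain ⟨N, hN, hex⟩ := exact_exists ℚ d (j + d) hd v₁ v hv0 hvv hee k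
  obtain ⟨n₀, hn₀⟩ := hblock N hN
  refine ⟨n₀, fun n hn u hu K _ _ => ?_⟩
  obtain ⟨h1, h2⟩ := hn₀ n hn
  have hkN : 0 < k * N := Nat.mul_pos hk hN
  have hnpos : 0 < n := lt_of_lt_of_le hkN h1
  obtain ⟨L, rfl⟩ : ∃ L, n = L + 1 := ⟨n - 1, by omega⟩
  set m := N * ((L + 1) / (k * N)) with hm
  have hmpos : 0 < m := Nat.mul_pos hN (Nat.div_pos h1 hkN)
  have hkm : k * m ≤ L + 1 := by
    have h5 : k * m = k * N * ((L + 1) / (k * N)) := by rw [hm]; ring
    rw [h5]
    exact Nat.mul_div_le _ _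
  have hfloor : ⌊(d.factorial : ℝ) * (c₂ : ℝ) * (m : ℝ) ^ d⌋₊ = ⌊v * (m : ℚ) ^ d⌋₊ := by
    have h3 : (d.factorial : ℝ) * (c₂ : ℝ) * (m : ℝ) ^ d = ((v * (m : ℚ) ^ d : ℚ) : ℝ) := by
      rw [hv]
      push_cast
      ring
    rw [h3]
    rw [← Int.floor_toNat, ← Int.floor_toNat, Rat.floor_cast]
  rw [hfloor] at h2
  have hu' : u ≤ k.choose d * ⌊v * (m : ℚ) ^ d⌋₊ := by
    have h3 := hu.trans h2
    exact_mod_cast h3
  apply froberg_of_systems (by omega) (by omega)
  intro k' hk'
  obtain ⟨f, hf1, hf2⟩ := hex m L (Dvd.intro _ rfl) hmpos hkm k' (hk'.trans hu')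
  exact exists_over f hf1 hf2

end Pool.Agent.H21

end

section

/-!
# XF, module 3: powers of rational linear forms
-/

set_option autoImplicit false

namespace Pool.Agent.H21.XF

open MvPolynomial Pool.Agent.H18.Fat Pool.Agent.H21.HD Pool.Agent.H21
open scoped Classical

/-- The power of the linear form with rational coefficients. -/
noncomputable def qpow {n : ℕ} (d : ℕ) (q : Fin n → ℚ) : MvPolynomial (Fin n) ℚ :=
  (∑ s, C (q s) * X s) ^ d

theorem qpow_hom {n : ℕ} (d : ℕ) (q : Fin n → ℚ) : (qpow d q).IsHomogeneous d := by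
  have h1 : (∑ s, C (q s) * X s : MvPolynomial (Fin n) ℚ).IsHomogeneous 1 :=
    IsHomogeneous.sum _ _ _ fun s _ => isHomogeneous_C_mul_X _ _
  have h2 := h1.pow d
  rw [one_mul] at h2
  exact h2

theorem map_qpow {n : ℕ} (d : ℕ) (q : Fin n → ℚ) :
    MvPolynomial.map (algebraMap ℚ ℂ) (qpow d q) = lin (fun s => (q s : ℂ)) ^ d := by
  unfold qpow lin
  rw [map_pow, map_sum]
  congr 1
  refine Finset.sum_congr rfl fun s _ => ?_
  rw [map_mul, map_C, map_X]
  rfl

/-- The span of the powers. -/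
noncomputable def qV {n k : ℕ} (d : ℕ) (q : Fin k → Fin n → ℚ) :
    Submodule ℚ (MvPolynomial (Fin n) ℚ) :=
  Submodule.span ℚ (Set.range fun l => qpow d (q l))

theorem qV_le {n k : ℕ} (d : ℕ) (q : Fin k → Fin n → ℚ) :
    qV d q ≤ homogeneousSubmodule (Fin n) ℚ d := by
  unfold qV
  rw [Submodule.span_le]
  rintro _ ⟨l, rfl⟩
  exact (mem_homogeneousSubmodule _ _).2 (qpow_hom d (q l))

theorem powSpan_le_bc {n k d e : ℕ} (q : Fin k → Fin n → ℚ) :
    powSpan (e + d) (fun l s => (q l s : ℂ)) (fun _ => d) ≤ bc (K := ℂ) (prodSpan e (qV d q)) := by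
  unfold powSpan
  rw [Submodule.span_le]
  rintro _ ⟨l, g, _, hg, rfl⟩
  rw [Nat.add_sub_cancel] at hg
  have h1 : g ∈ bc (K := ℂ) (homogeneousSubmodule (Fin n) ℚ e) := homogeneous_le_bc n e hg
  rw [SetLike.mem_coe]
  unfold bc at h1
  rw [← map_qpow]
  refine Submodule.span_induction ?_ ?_ ?_ ?_ h1
  · rintro _ ⟨x, hx, rfl⟩
    rw [← map_mul]
    apply Submodule.subset_span
    refine ⟨x * qpow d (q l), ?_, rfl⟩
    exact mul_mem_prodSpan hx (Submodule.subset_span ⟨l, rfl⟩)
  · rw [zero_mul]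
    exact Submodule.zero_mem _
  · intro x y _ _ hx hy
    rw [add_mul]
    exact Submodule.add_mem _ hx hy
  · intro c x _ hx
    rw [smul_mul_assoc]
    exact Submodule.smul_mem _ c hx

/-- The codimension of the ideal of the powers over `ℚ` is at most the dimension of the space of the
forms vanishing at the points. -/
theorem choose_le_qV {r k d e : ℕ} (q : Fin k → Fin (r + 1) → ℚ) :
    (e + d + r).choose r ≤ Module.finrank ℂ (fatForms r (e + d) (fun l s => (q l s : ℂ))
      (fun _ => e + d + 1 - d)) + Module.finrank ℚ (prodSpan e (qV d q)) := by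
  have h1 := choose_le_fat_add_powSpan (e + d) d (by omega) (fun l s => ((q l s : ℚ) : ℂ))
  have hfin : FiniteDimensional ℚ (prodSpan e (qV d q)) :=
    Submodule.finiteDimensional_of_le (prodSpan_le (qV_le d q))
  have hfin2 : FiniteDimensional ℂ (bc (K := ℂ) (prodSpan e (qV d q))) :=
    Submodule.finiteDimensional_of_le (bc_le_homogeneous (prodSpan_le (qV_le d q)))
  have h2 := Submodule.finrank_mono (powSpan_le_bc (d := d) (e := e) q)
  have h3 := finrank_bc_le (K := ℂ) (prodSpan e (qV d q))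
  omega

/-- Rational systems give systems over `K`. -/
theorem exists_over' {K : Type} [Field K] [CharZero K] {n d k D : ℕ}
    (f : Fin k → MvPolynomial (Fin n) ℚ) (hf : ∀ l, (f l).IsHomogeneous d)
    (hH : ∀ e, e + d ≤ D → (Module.finrank ℚ (homogeneousSubmodule (Fin n) ℚ (e + d)) : ℤ) ≤
      serCoeff n d k (e + d) +
        (Module.finrank ℚ (prodSpan e (Submodule.span ℚ (Set.range f))) : ℤ)) :
    ∃ g : Fin k → Fd K n d, ∀ e, e + d ≤ D → cd g k (e + d) ≤ serCoeff n d k (e + d) := by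
  let g : Fin k → Fd K n d := fun l => ⟨MvPolynomial.map (algebraMap ℚ K) (f l), by
    rw [mem_homogeneousSubmodule]
    exact (hf l).map _⟩
  refine ⟨g, fun e he => ?_⟩
  have hH' := hH e he
  unfold cd
  rw [if_pos (Nat.le_add_left d e), Nat.add_sub_cancel]
  set V := Submodule.span ℚ (Set.range f) with hV
  have hVd : V ≤ homogeneousSubmodule (Fin n) ℚ d := by
    rw [hV, Submodule.span_le]
    rintro _ ⟨l, rfl⟩
    exact (mem_homogeneousSubmodule _ _).mpr (hf l)
  have h1 : bc (K := K) V ≤ Submodule.span K ((fun i => (g i).1) '' {i : Fin k | i.1 < k}) := by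
    refine bc_span_le.trans ?_
    rw [Submodule.span_le]
    rintro _ ⟨_, ⟨l, rfl⟩, rfl⟩
    exact Submodule.subset_span ⟨l, l.2, rfl⟩
  have hVg : Submodule.span K ((fun i => (g i).1) '' {i : Fin k | i.1 < k}) ≤
      homogeneousSubmodule (Fin n) K d := by
    rw [Submodule.span_le]
    rintro _ ⟨l, _, rfl⟩
    exact (g l).2
  have h2 : bc (K := K) (prodSpan e V) ≤
      prodSpan e (Submodule.span K ((fun i => (g i).1) '' {i : Fin k | i.1 < k})) :=
    (bc_prodSpan_le V).trans (prodSpan_mono h1)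
  have hfin : FiniteDimensional K
      (prodSpan e (Submodule.span K ((fun i => (g i).1) '' {i : Fin k | i.1 < k}))) :=
    Submodule.finiteDimensional_of_le (prodSpan_le hVg)
  have h3 := Submodule.finrank_mono h2
  have h4 := finrank_bc_ge (K := K) (prodSpan_le (e := e) hVd)
  have h5 : Module.finrank K (Fd K n (e + d)) =
      Module.finrank ℚ (homogeneousSubmodule (Fin n) ℚ (e + d)) := by
    rw [finrank_forms, finrank_forms]
  have h6 : (Module.finrank ℚ (prodSpan e V) : ℤ) ≤ (Module.finrank K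
      (prodSpan e (Submodule.span K ((fun i => (g i).1) '' {i : Fin k | i.1 < k}))) : ℤ) := by
    exact_mod_cast h4.trans h3
  rw [h5]
  linarith

end Pool.Agent.H21.XF

end

section

/-!
# XF, module 4: from the dimensions of the spaces of forms with fat points to systems of forms
-/

set_option autoImplicit false

namespace Pool.Agent.H21.XF

open MvPolynomial Pool.Agent.H18.Fat Pool.Agent.H21.HD Pool.Agent.H21 Pool.Agent.H21.NX Pool.Agent.XD
open scoped Classical

theorem A_eq_ser {n d : ℕ} (hn : 1 ≤ n) (hd : 1 ≤ d) (k i : ℕ) :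
    A (fun _ => d) n k i = serCoeff n d k i := by
  induction k generalizing i with
  | zero =>
    rw [A_zero, fc_zero, Nat.multichoose_eq]
    have h1 : n + i - 1 = n - 1 + i := by omega
    rw [h1, Nat.choose_symm_add]
  | succ k ih =>
    rw [A_succ, fc_succ n d k i hd, ih i]
    split_ifs with h
    · rw [ih (i - d)]
    · rfl

theorem finrank_hom {F : Type} [Field F] (r E : ℕ) :
    Module.finrank F (homogeneousSubmodule (Fin (r + 1)) F E) = (E + r).choose r := by
  rw [finrank_forms, Fintype.card_fin]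
  have h1 : r + 1 + E - 1 = E + r := by omega
  rw [h1, Nat.choose_symm_add]

/-- A rational point which is general in all degrees `≤ D`. -/
theorem exists_q (r k d D : ℕ) : ∃ q : Fin k → Fin (r + 1) → ℚ, ∀ i ≤ D,
    Module.finrank ℂ (fatForms r i (fun l s => (q l s : ℂ)) (fun _ => i + 1 - d)) =
      Pool.Agent.XD.FF (fun _ => d) (r + 1) k i := by
  have h1 : Gen r (Fin k) fun p => ∀ i ∈ Finset.range (D + 1),
      Module.finrank ℂ (fatForms r i p (fun _ => i + 1 - d)) = Pool.Agent.XD.FF (fun _ => d) (r + 1) k i :=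
    Gen.all (Finset.range (D + 1)) fun i _ => gen_gdim r i fun _ : Fin k => i + 1 - d
  obtain ⟨q, hq⟩ := exists_rat_gen h1
  exact ⟨q, fun i hi => hq i (Finset.mem_range.2 (by omega))⟩

theorem systems {r k d D : ℕ} (hd : 1 ≤ d)
    (h : ∀ i, d ≤ i → i ≤ D → (Pool.Agent.XD.FF (fun _ => d) (r + 1) k i : ℤ) = A (fun _ => d) (r + 1) k i)
    (K : Type) [Field K] [CharZero K] :
    ∃ g : Fin k → Fd K (r + 1) d, ∀ e, e + d ≤ D →
      cd g k (e + d) ≤ serCoeff (r + 1) d k (e + d) := by
  obtain ⟨q, hq⟩ := exists_q r k d D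
  refine exists_over' (fun l => qpow d (q l)) (fun l => qpow_hom d (q l)) fun e he => ?_
  have h1 := choose_le_qV (d := d) (e := e) q
  rw [hq (e + d) he] at h1
  have h2 := h (e + d) (Nat.le_add_left d e) he
  rw [A_eq_ser (by omega) hd] at h2
  rw [finrank_hom, ← h2]
  exact_mod_cast h1

/-- If there are no forms of degree `D` with the multiplicity `D + 1 - d` at `u` general points, then `u`
general forms of degree `d` generate all forms of degree `D`. -/
theorem full_of_zero {r u d j : ℕ} (h : Pool.Agent.XD.FF (fun _ => d) (r + 1) u (j + d) = 0)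
    (K : Type) [Field K] [CharZero K]
    (hu : u ≤ Module.finrank K (homogeneousSubmodule (Fin (r + 1)) K d)) :
    ∃ V : Submodule K (MvPolynomial (Fin (r + 1)) K), V ≤ homogeneousSubmodule (Fin (r + 1)) K d ∧
      Module.finrank K V = u ∧ prodSpan j V = homogeneousSubmodule (Fin (r + 1)) K (j + d) := by
  obtain ⟨q, hq⟩ := exists_q r u d (j + d)
  have h1 := choose_le_qV (d := d) (e := j) q
  rw [hq (j + d) le_rfl, h, zero_add, ← finrank_hom (F := ℚ)] at h1
  have hV := qV_le d q
  have h2 : prodSpan j (qV d q) = homogeneousSubmodule (Fin (r + 1)) ℚ (j + d) :=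
    Submodule.eq_of_le_of_finrank_le (prodSpan_le hV) h1
  have hfd : FiniteDimensional ℚ (qV d q) := Submodule.finiteDimensional_of_le hV
  have h3 : Module.finrank ℚ (qV d q) ≤ u := by
    have h6 := finrank_range_le_card (R := ℚ) (fun l => qpow d (q l))
    rw [Fintype.card_fin] at h6
    exact h6
  have h4 : Module.finrank K (bc (K := K) (qV d q)) ≤ u := (finrank_bc_le (qV d q)).trans h3
  obtain ⟨V, hVV, hVd, hVu⟩ := exists_extend (homogeneousSubmodule (Fin (r + 1)) K d) u hu
    (bc (K := K) (qV d q)) (bc_le_homogeneous hV) h4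
  refine ⟨V, hVd, hVu, ?_⟩
  apply le_antisymm
  · exact prodSpan_le hVd
  · calc homogeneousSubmodule (Fin (r + 1)) K (j + d) ≤
        bc (K := K) (homogeneousSubmodule (Fin (r + 1)) ℚ (j + d)) := homogeneous_le_bc _ (j + d)
      _ = bc (K := K) (prodSpan j (qV d q)) := by rw [h2]
      _ ≤ prodSpan j (bc (K := K) (qV d q)) := bc_prodSpan_le (qV d q)
      _ ≤ prodSpan j V := prodSpan_mono hVV

/-- The formula beyond the first negative coefficient. -/
theorem froberg_super {r u d j D : ℕ} (hdD : d ≤ D) (hDj : D ≤ j + d)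
    (h : Pool.Agent.XD.FF (fun _ => d) (r + 1) u D = 0) (hneg : ∃ m ≤ D, serCoeff (r + 1) d u m < 0)
    (K : Type) [Field K] [CharZero K]
    (hu : u ≤ Module.finrank K (homogeneousSubmodule (Fin (r + 1)) K d)) :
    FrobergAt K (r + 1) d u j := by
  obtain ⟨m, hm, hneg⟩ := hneg
  have hc0 : truncCoeff (r + 1) d u (j + d) = 0 := by
    unfold truncCoeff
    rw [if_neg]
    intro h
    have := h m (hm.trans hDj)
    omega
  refine ⟨?_, ?_⟩
  · intro V hV _
    rw [hc0, sub_zero]
    have h1 := prodSpan_le (e := j) hV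
    exact_mod_cast Submodule.finrank_mono h1
  · have hD : D - d + d = D := Nat.sub_add_cancel hdD
    obtain ⟨V, hV1, hV2, hV3⟩ := full_of_zero (j := D - d) (by rw [hD]; exact h) K hu
    refine ⟨V, hV1, hV2, ?_⟩
    rw [hc0, sub_zero]
    have h2 : homogeneousSubmodule (Fin (r + 1)) K D ≤ prodSpan (D - d) V := by
      rw [hV3, hD]
    have h3 := prodSpan_full hdD hDj h2
    rw [Nat.add_sub_cancel] at h3
    have h4 : prodSpan j V = homogeneousSubmodule (Fin (r + 1)) K (j + d) :=
      le_antisymm (prodSpan_le hV1) h3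
    rw [h4]

end Pool.Agent.H21.XF

end
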