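import Pool.Agent.H94.LP7.H21.Final
import Pool.Agent.H94.LP7.M100
import Pool.Agent.H94.LP7.M92

/-! The parts of this file: H21.Final_1, H21.XF.Closed, H21.XF.Main. -/

section

/-!
Fröberg's formula away from the thresholds, in all degrees, and the density statement.
-/

set_option linter.unusedSectionVars false

namespace Pool.Agent.H21

open scoped Classical
open MvPolynomial Filter Topology

/-- One negative coefficient settles all larger degrees. -/
theorem super_all (d D : ℕ) (hd : 2 ≤ d) (hdD : d ≤ D) (c : ℝ)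
    (h : ∃ i ≤ D, expCoeff d i c < 0) :
    ∃ n₀ : ℕ, ∀ n : ℕ, n₀ ≤ n → ∀ u : ℕ, c * (n : ℝ) ^ d ≤ (u : ℝ) →
      ∀ (K : Type) [Field K] [CharZero K],
        u ≤ Module.finrank K (homogeneousSubmodule (Fin n) K d) →
        ∀ j : ℕ, D ≤ j + d → FrobergAt K n d u j := by
  have h' : ∃ i ≤ (D - d) + d, expCoeff d i c < 0 := by
    rw [Nat.sub_add_cancel hdD]
    exact h
  obtain ⟨n₀, h₀⟩ := super_main d (D - d) hd c h'
  refine ⟨n₀, fun n hn u hu K _ _ huK j hj => ?_⟩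
  obtain ⟨⟨m, hm, hneg⟩, hex⟩ := h₀ n hn u hu
  rw [Nat.sub_add_cancel hdD] at hm
  have hc0 : truncCoeff n d u (j + d) = 0 := by
    unfold truncCoeff
    rw [if_neg]
    intro h
    have := h m (hm.trans hj)
    omega
  refine ⟨?_, ?_⟩
  · intro V hV _
    rw [hc0, sub_zero]
    have h1 := prodSpan_le (e := j) hV
    exact_mod_cast Submodule.finrank_mono h1
  · obtain ⟨V, hV1, hV2, hV3⟩ := hex K huK
    refine ⟨V, hV1, hV2, ?_⟩
    rw [hc0, sub_zero]
    have h2 : homogeneousSubmodule (Fin n) K D ≤ prodSpan (D - d) V := by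
      rw [hV3, Nat.sub_add_cancel hdD]
    have h3 := prodSpan_full hdD hj h2
    rw [Nat.add_sub_cancel] at h3
    have h4 : prodSpan j V = homogeneousSubmodule (Fin n) K (j + d) :=
      le_antisymm (prodSpan_le hV1) h3
    rw [h4]

/-- The formula in one degree, for all `u` away from the threshold. -/
theorem one_degree (d j : ℕ) (hd : 2 ≤ d) (ε : ℝ) (hε : 0 < ε) :
    ∃ n₀ : ℕ, ∀ n : ℕ, n₀ ≤ n → ∀ u : ℕ,
      ε * (n : ℝ) ^ d ≤ |(u : ℝ) - asymThreshold d (j + d) * (n : ℝ) ^ d| →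
      ∀ (K : Type) [Field K] [CharZero K],
        u ≤ Module.finrank K (homogeneousSubmodule (Fin n) K d) → FrobergAt K n d u j := by
  set t := asymThreshold d (j + d) with ht
  obtain ⟨n₁, h₁⟩ := super_all d (j + d) hd (by omega) (t + ε)
    (neg_of_thr_lt d (j + d) hd (by omega) _ (by linarith))
  -- the subcritical side
  obtain ⟨n₂, h₂⟩ : ∃ n₂ : ℕ, ∀ n : ℕ, n₂ ≤ n → ∀ u : ℕ, (u : ℝ) ≤ (t - ε) * (n : ℝ) ^ d →
      ∀ (K : Type) [Field K] [CharZero K], FrobergAt K n d u j := by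
    by_cases hte : 0 ≤ t - ε
    · exact sub_main d j hd (t - ε) hte
        (pos_of_lt_thr d (j + d) (by omega) _ hte (by linarith))
    · push Not at hte
      refine ⟨1, fun n hn u hu => ?_⟩
      exfalso
      have h1 : (0 : ℝ) < (n : ℝ) ^ d := by
        have : (0 : ℝ) < (n : ℝ) := by exact_mod_cast hn
        positivity
      have h2 : (0 : ℝ) ≤ (u : ℝ) := Nat.cast_nonneg u
      nlinarith
  refine ⟨max n₁ n₂, fun n hn u hu K _ _ huK => ?_⟩
  rcases le_abs.mp hu with h | h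
  · exact h₁ n ((le_max_left _ _).trans hn) u (by linarith) K huK j le_rfl
  · exact h₂ n ((le_max_right _ _).trans hn) u (by linarith) K

/-- All degrees at once, for `u ≥ a n^d` away from finitely many thresholds. -/
theorem all_degrees_aux (d Dm : ℕ) (hd : 2 ≤ d) (hDm : d ≤ Dm) (a ε : ℝ)
    (ha : asymThreshold d Dm < a) (hε : 0 < ε) :
    ∃ n₀ : ℕ, ∀ n : ℕ, n₀ ≤ n → ∀ u : ℕ, a * (n : ℝ) ^ d ≤ (u : ℝ) →
      (∀ D, d ≤ D → D ≤ Dm →
        ε * (n : ℝ) ^ d ≤ |(u : ℝ) - asymThreshold d D * (n : ℝ) ^ d|) →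
      FrobergAll n d u := by
  choose f hf using fun j : ℕ => one_degree d j hd ε hε
  have hg : ∀ D : ℕ, ∃ n₀ : ℕ, d ≤ D → ∀ n : ℕ, n₀ ≤ n → ∀ u : ℕ,
      (asymThreshold d D + ε) * (n : ℝ) ^ d ≤ (u : ℝ) →
      ∀ (K : Type) [Field K] [CharZero K],
        u ≤ Module.finrank K (homogeneousSubmodule (Fin n) K d) →
        ∀ j : ℕ, D ≤ j + d → FrobergAt K n d u j := by
    intro D
    by_cases hD : d ≤ D
    · obtain ⟨n₀, h₀⟩ := super_all d D hd hD (asymThreshold d D + ε)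
        (neg_of_thr_lt d D hd hD _ (by linarith))
      exact ⟨n₀, fun _ => h₀⟩
    · exact ⟨0, fun h => absurd h hD⟩
  choose g hg using hg
  refine ⟨1 + (∑ j ∈ Finset.range (Dm + 1), f j) + ∑ D ∈ Finset.range (Dm + 1), g D,
    fun n hn u hu hwin K _ _ huK j => ?_⟩
  have hfn : ∀ j ≤ Dm, f j ≤ n := by
    intro j hj
    have := Finset.single_le_sum (f := f) (fun i _ => Nat.zero_le _)
      (Finset.mem_range.mpr (by omega : j < Dm + 1))
    omega
  have hgn : ∀ j ≤ Dm, g j ≤ n := by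
    intro j hj
    have := Finset.single_le_sum (f := g) (fun i _ => Nat.zero_le _)
      (Finset.mem_range.mpr (by omega : j < Dm + 1))
    omega
  have hnd : (0 : ℝ) < (n : ℝ) ^ d := by
    have : (0 : ℝ) < (n : ℝ) := by exact_mod_cast (by omega : 0 < n)
    positivity
  have hex : ∃ D, d ≤ D ∧ asymThreshold d D * (n : ℝ) ^ d < (u : ℝ) :=
    ⟨Dm, hDm, lt_of_lt_of_le (mul_lt_mul_of_pos_right ha hnd) hu⟩
  have hD₀ := Nat.find_spec hex
  have hDle : Nat.find hex ≤ Dm :=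
    Nat.find_min' hex ⟨hDm, lt_of_lt_of_le (mul_lt_mul_of_pos_right ha hnd) hu⟩
  set D₀ := Nat.find hex with hD₀def
  by_cases hj : D₀ ≤ j + d
  · have h1 := hwin D₀ hD₀.1 hDle
    have h2 : |(u : ℝ) - asymThreshold d D₀ * (n : ℝ) ^ d| =
        (u : ℝ) - asymThreshold d D₀ * (n : ℝ) ^ d := abs_of_pos (by linarith [hD₀.2])
    rw [h2] at h1
    exact hg D₀ hD₀.1 n (hgn D₀ hDle) u (by linarith) K huK j hj
  · push Not at hj
    exact hf j n (hfn j (by omega)) u (hwin (j + d) (by omega) (by omega)) K huK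

lemma card_window (s : Finset ℕ) (t w : ℝ) (hw : 0 ≤ w) (hs : ∀ u ∈ s, |(u : ℝ) - t| < w) :
    (s.card : ℝ) ≤ 2 * w + 1 := by
  rcases s.eq_empty_or_nonempty with h | ⟨u₀, hu₀⟩
  · rw [h]
    simp only [Finset.card_empty, Nat.cast_zero]
    linarith
  · have h0 : 0 ≤ t + w := by
      have h1 := (abs_lt.mp (hs u₀ hu₀)).2
      have h2 : (0 : ℝ) ≤ (u₀ : ℝ) := Nat.cast_nonneg _
      linarith
    have hsub : s ⊆ Finset.Icc ⌈t - w⌉₊ ⌊t + w⌋₊ := by
      intro u hu
      have h1 := abs_lt.mp (hs u hu)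
      rw [Finset.mem_Icc]
      constructor
      · apply Nat.ceil_le.mpr
        linarith [h1.1]
      · apply Nat.le_floor
        linarith [h1.2]
    have h1 := Finset.card_le_card hsub
    rw [Nat.card_Icc] at h1
    have h2 : (s.card : ℝ) ≤ ((⌊t + w⌋₊ + 1 - ⌈t - w⌉₊ : ℕ) : ℝ) := by exact_mod_cast h1
    refine h2.trans ?_
    rcases le_total ⌈t - w⌉₊ (⌊t + w⌋₊ + 1) with h3 | h3
    · rw [Nat.cast_sub h3]
      push_cast
      have h4 := Nat.floor_le h0
      have h5 := Nat.le_ceil (t - w)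
      linarith
    · rw [Nat.sub_eq_zero_of_le h3]
      simp only [Nat.cast_zero]
      linarith

lemma pow_le_choose (n d : ℕ) (hn : 1 ≤ n) :
    (n : ℝ) ^ d / (d.factorial : ℝ) ≤ ((n - 1 + d).choose (n - 1) : ℝ) := by
  have h1 : (n - 1 + d).choose (n - 1) = (n - 1 + d).choose d := by
    rw [Nat.choose_symm_add]
  rw [h1, Nat.choose_eq_descFactorial_div_factorial]
  rw [div_le_iff₀ (by positivity)]
  have h2 : (((n - 1 + d).descFactorial d / d.factorial : ℕ) : ℝ) * (d.factorial : ℝ) =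
      ((n - 1 + d).descFactorial d : ℝ) := by
    have := Nat.div_mul_cancel (Nat.factorial_dvd_descFactorial (n - 1 + d) d)
    exact_mod_cast this
  rw [h2]
  have h3 : n ^ d ≤ (n - 1 + d).descFactorial d := by
    have := Nat.pow_sub_le_descFactorial (n - 1 + d) d
    have h4 : n - 1 + d + 1 - d = n := by omega
    rwa [h4] at this
  exact_mod_cast h3

/-- The conjecture holds for asymptotically all `u`. -/
theorem density (d : ℕ) (hd : 2 ≤ d) (η : ℝ) (hη : 0 < η) :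
    ∃ n₀ : ℕ, ∀ n : ℕ, n₀ ≤ n →
      (((Finset.Icc 1 ((n - 1 + d).choose (n - 1))).filter
        (fun u => ¬ FrobergAll n d u)).card : ℝ) ≤ η * ((n - 1 + d).choose (n - 1) : ℝ) := by
  set F : ℝ := (d.factorial : ℝ) with hF
  have hFpos : 0 < F := by positivity
  set a : ℝ := η / (4 * F) with ha
  have hapos : 0 < a := by positivity
  obtain ⟨Dm, hDm, hlt⟩ := thr_small d hd a hapos
  set M : ℝ := (Dm : ℝ) + 1 with hM
  have hMpos : 0 < M := by positivity
  set ε : ℝ := η / (8 * F * M) with hε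
  have hεpos : 0 < ε := by positivity
  obtain ⟨n₁, h₁⟩ := all_degrees_aux d Dm hd hDm a ε hlt hεpos
  obtain ⟨n₂, h₂⟩ := exists_nat_gt (4 * F * (M + 1) / η)
  refine ⟨max n₁ (n₂ + 1), fun n hn => ?_⟩
  have hn1 : n₁ ≤ n := (le_max_left _ _).trans hn
  have hn2 : n₂ + 1 ≤ n := (le_max_right _ _).trans hn
  have hn0 : 1 ≤ n := by omega
  have hnr : (1 : ℝ) ≤ (n : ℝ) := by exact_mod_cast hn0
  have hndpos : (0 : ℝ) < (n : ℝ) ^ d := by positivity
  have hnn : (n : ℝ) ≤ (n : ℝ) ^ d := by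
    calc (n : ℝ) = (n : ℝ) ^ 1 := (pow_one _).symm
      _ ≤ (n : ℝ) ^ d := pow_le_pow_right₀ hnr (by omega)
  set bad := (Finset.Icc 1 ((n - 1 + d).choose (n - 1))).filter
        (fun u => ¬ FrobergAll n d u) with hbad
  set A : Finset ℕ := bad.filter (fun u : ℕ => |(u : ℝ) - 0| < a * (n : ℝ) ^ d) with hA
  set B : ℕ → Finset ℕ := fun D =>
    bad.filter (fun u : ℕ => |(u : ℝ) - asymThreshold d D * (n : ℝ) ^ d| < ε * (n : ℝ) ^ d) with hB
  have hcover : bad ⊆ A ∪ (Finset.range (Dm + 1)).biUnion B := by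
    intro u hu
    rw [Finset.mem_union, Finset.mem_biUnion]
    by_contra hcon
    push Not at hcon
    have hnot : ¬ FrobergAll n d u := (Finset.mem_filter.mp hu).2
    apply hnot
    apply h₁ n hn1 u
    · by_contra hlt'
      push Not at hlt'
      apply hcon.1
      rw [hA, Finset.mem_filter]
      refine ⟨hu, ?_⟩
      rw [sub_zero, abs_of_nonneg (Nat.cast_nonneg u)]
      exact hlt'
    · intro D _ hD
      by_contra hlt'
      push Not at hlt'
      apply hcon.2 D (Finset.mem_range.mpr (by omega))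
      rw [hB]
      simp only [Finset.mem_filter]
      exact ⟨hu, hlt'⟩
  have hcA : (A.card : ℝ) ≤ a * (n : ℝ) ^ d + 1 := by
    have hsub : A ⊆ Finset.Icc 1 ⌊a * (n : ℝ) ^ d⌋₊ := by
      intro u hu
      rw [hA, Finset.mem_filter] at hu
      obtain ⟨hu1, hu2⟩ := hu
      rw [hbad, Finset.mem_filter, Finset.mem_Icc] at hu1
      rw [sub_zero, abs_of_nonneg (Nat.cast_nonneg u)] at hu2
      rw [Finset.mem_Icc]
      exact ⟨hu1.1.1, Nat.le_floor hu2.le⟩
    have h3 := Finset.card_le_card hsub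
    rw [Nat.card_Icc, Nat.add_sub_cancel] at h3
    have h4 : (A.card : ℝ) ≤ ((⌊a * (n : ℝ) ^ d⌋₊ : ℕ) : ℝ) := by exact_mod_cast h3
    have h5 := Nat.floor_le (show (0 : ℝ) ≤ a * (n : ℝ) ^ d by positivity)
    linarith
  have hcB : ∀ D, ((B D).card : ℝ) ≤ 2 * (ε * (n : ℝ) ^ d) + 1 := by
    intro D
    apply card_window (B D) (asymThreshold d D * (n : ℝ) ^ d) (ε * (n : ℝ) ^ d) (by positivity)
    intro u hu
    rw [hB] at hu
    exact (Finset.mem_filter.mp hu).2
  have h3 : (bad.card : ℝ) ≤ (A.card : ℝ) + ∑ D ∈ Finset.range (Dm + 1), ((B D).card : ℝ) := by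
    have h4 := Finset.card_le_card hcover
    have h5 := Finset.card_union_le A ((Finset.range (Dm + 1)).biUnion B)
    have h6 := Finset.card_biUnion_le (s := Finset.range (Dm + 1)) (t := B)
    have h7 : bad.card ≤ A.card + ∑ D ∈ Finset.range (Dm + 1), (B D).card := by omega
    exact_mod_cast h7
  have h4 : ∑ D ∈ Finset.range (Dm + 1), ((B D).card : ℝ) ≤ M * (2 * (ε * (n : ℝ) ^ d) + 1) := by
    calc ∑ D ∈ Finset.range (Dm + 1), ((B D).card : ℝ) ≤
        ∑ D ∈ Finset.range (Dm + 1), (2 * (ε * (n : ℝ) ^ d) + 1) :=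
          Finset.sum_le_sum fun D _ => hcB D
      _ = M * (2 * (ε * (n : ℝ) ^ d) + 1) := by
          rw [Finset.sum_const, Finset.card_range, nsmul_eq_mul, hM]
          push_cast
          ring
  have h5 : M * (2 * (ε * (n : ℝ) ^ d)) = η / (4 * F) * (n : ℝ) ^ d := by
    rw [hε]
    field_simp
    ring
  have h6 : M + 1 ≤ η / (4 * F) * (n : ℝ) ^ d := by
    rw [div_lt_iff₀ hη] at h₂
    have h7 : (n₂ : ℝ) ≤ (n : ℝ) := by exact_mod_cast (by omega : n₂ ≤ n)
    have h8 : 4 * F * (M + 1) ≤ η * (n : ℝ) ^ d := by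
      have h9 : (n₂ : ℝ) * η ≤ (n : ℝ) ^ d * η :=
        mul_le_mul_of_nonneg_right (h7.trans hnn) hη.le
      linarith
    rw [div_mul_eq_mul_div, le_div_iff₀ (by positivity)]
    linarith
  have h7 := pow_le_choose n d hn0
  have h8 : η * ((n : ℝ) ^ d / F) ≤ η * ((n - 1 + d).choose (n - 1) : ℝ) :=
    mul_le_mul_of_nonneg_left h7 hη.le
  have h9 : η * ((n : ℝ) ^ d / F) = 4 * (η / (4 * F) * (n : ℝ) ^ d) := by
    field_simp
  have h10 : 0 < η / (4 * F) * (n : ℝ) ^ d := by positivity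
  rw [ha] at hcA
  rw [mul_add, h5, mul_one] at h4
  linarith

end Pool.Agent.H21

end

section

/-!
# XF: the window is closed by exactness near the threshold
-/

set_option autoImplicit false

namespace Pool.Agent.H21.XF

open MvPolynomial Pool.Agent.H21

/-- Fröberg's conjecture in every degree for all `u ≥ a n^d` and all large `n`, if every window is
closed. -/
theorem froberg_all_of_closed (d : ℕ) (hd : 2 ≤ d)
    (hP : ∀ D, d ≤ D → ∃ n₀ : ℕ, ∀ n, n₀ ≤ n → ∀ u : ℕ, ∀ (K : Type) [Field K] [CharZero K],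
      u ≤ Module.finrank K (homogeneousSubmodule (Fin n) K d) → FrobergAt K n d u (D - d))
    (a : ℝ) (ha : 0 < a) :
    ∃ n₀ : ℕ, ∀ n, n₀ ≤ n → ∀ u : ℕ, a * (n : ℝ) ^ d ≤ (u : ℝ) → FrobergAll n d u := by
  obtain ⟨Dm, hDm, hlt⟩ := thr_small d hd a ha
  obtain ⟨n₁, h₁⟩ := super_all d Dm hd hDm a
    (neg_of_thr_lt d Dm hd hDm _ hlt)
  have hP' : ∀ D, ∃ n₀ : ℕ, d ≤ D → ∀ n, n₀ ≤ n → ∀ u : ℕ,
      ∀ (K : Type) [Field K] [CharZero K],
      u ≤ Module.finrank K (homogeneousSubmodule (Fin n) K d) → FrobergAt K n d u (D - d) := by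
    intro D
    by_cases hD : d ≤ D
    · obtain ⟨n₀, h⟩ := hP D hD
      exact ⟨n₀, fun _ => h⟩
    · exact ⟨0, fun h => absurd h hD⟩
  choose pf hpf using hP'
  refine ⟨n₁ + ∑ D ∈ Finset.range (Dm + 1), pf D, fun n hn u hu K _ _ huK j => ?_⟩
  rcases Nat.lt_or_ge (j + d) (Dm + 1) with hj | hj
  · have := Finset.single_le_sum (f := pf) (fun i _ => Nat.zero_le _)
      (Finset.mem_range.mpr hj)
    have h2 := hpf (j + d) (by omega) n (by omega) u K huK
    rwa [Nat.add_sub_cancel] at h2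
  · exact h₁ n (by omega) u hu K huK j (by omega)

end Pool.Agent.H21.XF

end

section

/-!
# XF, module 7: Fröberg's formula off windows of size `C n^(d-1) log n`
-/

set_option autoImplicit false

namespace Pool.Agent.H21.XF

open MvPolynomial Pool.Agent.H18.Fat Pool.Agent.H21.HD Pool.Agent.H21 Pool.Agent.H21.NX Pool.Agent.XD

/-- The numbers and the dimensions on both sides of the threshold. -/
theorem sides (d D : ℕ) (hd : 2 ≤ d) (hD : d ≤ D) : ∃ δ C : ℝ, 0 < δ ∧ 0 < C ∧ ∃ n₀ : ℕ, 1 ≤ n₀ ∧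
    ∀ n, n₀ ≤ n → ∀ u : ℕ,
      ((u : ℝ) ≤ asymThreshold d D * (n : ℝ) ^ d - C * (n : ℝ) ^ (d - 1) * Real.log n →
        ∀ i, d ≤ i → i ≤ D → (FF (fun _ => d) n u i : ℤ) = A (fun _ => d) n u i) ∧
      (asymThreshold d D * (n : ℝ) ^ d + C * (n : ℝ) ^ (d - 1) ≤ (u : ℝ) →
        (u : ℝ) ≤ (asymThreshold d D + δ) * (n : ℝ) ^ d →
        FF (fun _ => d) n u D = 0 ∧ serCoeff n d u D < 0) ∧
      ((u : ℝ) ≤ (asymThreshold d D + δ) * (n : ℝ) ^ d →
        (∀ i < D, 0 < A (fun _ => d) n u i) ∧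
        ∀ i < D, (FF (fun _ => d) n u i : ℤ) = A (fun _ => d) n u i) := by
  have ht := thr_pos d D hd hD
  obtain ⟨t, htdef⟩ : ∃ t, t = asymThreshold d D := ⟨_, rfl⟩
  rw [← htdef] at ht ⊢
  obtain ⟨δ, η, hδ, hη, hpos⟩ := unif_pos d D hd hD
  obtain ⟨hsl1, hsl2⟩ := slope d D hd hD hδ hpos
  rw [← htdef] at hpos hsl1 hsl2
  have hM : 0 ≤ t + δ := by linarith
  choose Cf hCf0 hCf using fun i => ser_rate d (by omega : 1 ≤ d) i (t + δ) hM
  obtain ⟨Cm, hCm⟩ : ∃ Cm : ℝ, Cm = ∑ i ∈ Finset.range (D + 1), Cf i := ⟨_, rfl⟩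
  have hCfle : ∀ i ≤ D, Cf i ≤ Cm := fun i hi => by
    rw [hCm]
    exact Finset.single_le_sum (fun j _ => hCf0 j) (Finset.mem_range.2 (by omega))
  have hCm0 : 0 ≤ Cm := by
    rw [hCm]
    exact Finset.sum_nonneg fun i _ => hCf0 i
  obtain ⟨C₁, hC₁, n₁, h₁⟩ := Pool.Agent.XE2.xe2 D
  have hη2 : 0 < η / 2 := by linarith
  choose nf hnf using fun i => xd i (η / 2) hη2
  obtain ⟨n₂, hn₂⟩ := exists_nat_ge (2 * Cm / η)
  obtain ⟨C, hC⟩ : ∃ C : ℝ, C = (C₁ + Cm + 1) / η := ⟨_, rfl⟩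
  have hCη : η * C = C₁ + Cm + 1 := by
    rw [hC]
    field_simp
  have hC0 : 0 < C := by
    rw [hC]
    positivity
  refine ⟨δ, C, hδ, hC0, n₁ + n₂ + (∑ i ∈ Finset.range (D + 1), nf i) + 3, by omega,
    fun n hn u => ?_⟩
  have hnf' : ∀ i ≤ D, nf i ≤ n := by
    intro i hi
    have := Finset.single_le_sum (f := nf) (fun i _ => Nat.zero_le _)
      (Finset.mem_range.2 (by omega : i < D + 1))
    omega
  have hn1 : 1 ≤ n := by omega
  have hnR : (3 : ℝ) ≤ n := by exact_mod_cast (by omega : 3 ≤ n)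
  have hn0 : (0 : ℝ) < n := by linarith
  have hnd : (0 : ℝ) < (n : ℝ) ^ d := by positivity
  have hn2 : 2 * Cm / η ≤ n := hn₂.trans (by exact_mod_cast (by omega : n₂ ≤ n))
  have hlog : 1 ≤ Real.log n := by
    rw [Real.le_log_iff_exp_le hn0]
    have := Real.exp_one_lt_d9
    linarith
  have hlog0 : 0 ≤ Real.log n := by linarith
  have hD1 : (n : ℝ) ^ D / n = (n : ℝ) ^ (D - 1) := by
    rw [div_eq_iff hn0.ne', ← pow_succ]
    congr 1
    omega
  have hDd : (n : ℝ) ^ d * (n : ℝ) ^ (D - d) = (n : ℝ) ^ D := by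
    rw [← pow_add]
    congr 1
    omega
  have hDd1 : (n : ℝ) ^ (d - 1) * (n : ℝ) ^ (D - d) = (n : ℝ) ^ (D - 1) := by
    rw [← pow_add]
    congr 1
    omega
  have hpD : (0 : ℝ) < (n : ℝ) ^ (D - 1) := by positivity
  have hpDd : (0 : ℝ) < (n : ℝ) ^ (D - d) := by positivity
  have hpd : (0 : ℝ) < (n : ℝ) ^ (d - 1) := by positivity
  -- positivity in the degrees `< D`
  have hlow : (u : ℝ) ≤ (t + δ) * (n : ℝ) ^ d → ∀ i < D,
      η / 2 * (n : ℝ) ^ i ≤ (A (fun _ => d) n u i : ℝ) := by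
    intro hu i hi
    rw [A_eq_ser hn1 (by omega)]
    have h2 := hCf i n u hn1 hu
    have hg0 : (0 : ℝ) ≤ (u : ℝ) / (n : ℝ) ^ d := by positivity
    have hg1 : (u : ℝ) / (n : ℝ) ^ d ≤ t + δ := by
      rw [div_le_iff₀ hnd]
      exact hu
    have h3 := hpos i hi _ hg0 hg1
    have h4 : (0 : ℝ) < (n : ℝ) ^ i := by positivity
    have h5 : Cf i * (n : ℝ) ^ i / n ≤ η / 2 * (n : ℝ) ^ i := by
      rw [div_le_iff₀ hn0]
      have h6 : Cf i ≤ η / 2 * n := by
        rw [div_le_iff₀ hη] at hn2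
        have := hCfle i hi.le
        linarith
      calc Cf i * (n : ℝ) ^ i ≤ (η / 2 * n) * (n : ℝ) ^ i := mul_le_mul_of_nonneg_right h6 h4.le
        _ = _ := by ring
    have h6 := (abs_le.1 h2).1
    have h7 := mul_le_mul_of_nonneg_right h3 h4.le
    linarith
  have he2 : ∀ _s : ℕ, 2 ≤ (fun _ : ℕ => d) _s := fun _ => hd
  have he1 : ∀ _s : ℕ, 1 ≤ (fun _ : ℕ => d) _s := fun _ => by
    show 1 ≤ d
    omega
  have hxe := h₁ n (by omega) (fun _ => d) he2 u (fun s _ => hD)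
  have hApos : (u : ℝ) ≤ (t + δ) * (n : ℝ) ^ d → ∀ j < D, 0 < A (fun _ => d) n u j := by
    intro hu j hj
    have h3 := hlow hu j hj
    have h4 : (0 : ℝ) < η / 2 * (n : ℝ) ^ j := by positivity
    have h5 : (0 : ℝ) < (A (fun _ => d) n u j : ℝ) := lt_of_lt_of_le h4 h3
    exact_mod_cast h5
  have hFlow : (u : ℝ) ≤ (t + δ) * (n : ℝ) ^ d → ∀ i < D,
      (FF (fun _ => d) n u i : ℤ) = A (fun _ => d) n u i := fun hu' i hi =>
    hnf i n (hnf' i hi.le) (fun _ => d) (FF fun _ => d) he2 (sys_FF i _ he1) n u le_rfl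
      fun j hj => hlow hu' j (by omega)
  refine ⟨?_, ?_, fun hu' => ⟨hApos hu', hFlow hu'⟩⟩
  · intro hu i hdi hi
    have hLpos : 0 ≤ C * (n : ℝ) ^ (d - 1) * Real.log n := by positivity
    have hu' : (u : ℝ) ≤ (t + δ) * (n : ℝ) ^ d := by
      have : 0 ≤ δ * (n : ℝ) ^ d := by positivity
      linarith
    rcases lt_or_eq_of_le hi with hi | rfl
    · -- degrees `< D`
      exact hFlow hu' i hi
    · refine hxe.1 (hApos hu') ?_
      rw [A_eq_ser hn1 (by omega)]
      have h2 := hCf i n u hn1 hu'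
      have hg0 : (0 : ℝ) ≤ (u : ℝ) / (n : ℝ) ^ d := by positivity
      have hg1 : (u : ℝ) / (n : ℝ) ^ d ≤ t := by
        rw [div_le_iff₀ hnd]
        linarith
      have h3 := hsl1 _ hg0 hg1
      have h4 : (0 : ℝ) < (n : ℝ) ^ i := by positivity
      have h5 := mul_le_mul_of_nonneg_right h3 h4.le
      have h6 : η * (t - (u : ℝ) / (n : ℝ) ^ d) * (n : ℝ) ^ i =
          η * (t * (n : ℝ) ^ d - u) * (n : ℝ) ^ (i - d) := by
        rw [← hDd]
        field_simp
      have h7 : η * (C * (n : ℝ) ^ (d - 1) * Real.log n) * (n : ℝ) ^ (i - d) ≤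
          η * (t * (n : ℝ) ^ d - u) * (n : ℝ) ^ (i - d) := by
        refine mul_le_mul_of_nonneg_right (mul_le_mul_of_nonneg_left ?_ hη.le) hpDd.le
        linarith
      have h8 : η * (C * (n : ℝ) ^ (d - 1) * Real.log n) * (n : ℝ) ^ (i - d) =
          (C₁ + Cm + 1) * (n : ℝ) ^ (i - 1) * Real.log n := by
        rw [← hCη, ← hDd1]
        ring
      have h9 : Cf i * (n : ℝ) ^ i / n ≤ Cm * (n : ℝ) ^ (i - 1) * Real.log n := by
        rw [mul_div_assoc, hD1]
        have h10 : Cf i * (n : ℝ) ^ (i - 1) ≤ Cm * (n : ℝ) ^ (i - 1) :=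
          mul_le_mul_of_nonneg_right (hCfle i le_rfl) hpD.le
        have h11 : Cm * (n : ℝ) ^ (i - 1) * 1 ≤ Cm * (n : ℝ) ^ (i - 1) * Real.log n :=
          mul_le_mul_of_nonneg_left hlog (by positivity)
        linarith
      have h10 := (abs_le.1 h2).1
      have h11 : 0 ≤ (n : ℝ) ^ (i - 1) * Real.log n := by positivity
      linarith
  · intro hu hu'
    have h2 := hCf D n u hn1 hu'
    have hg0 : t ≤ (u : ℝ) / (n : ℝ) ^ d := by
      rw [le_div_iff₀ hnd]
      have : 0 ≤ C * (n : ℝ) ^ (d - 1) := by positivity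
      linarith
    have hg1 : (u : ℝ) / (n : ℝ) ^ d ≤ t + δ := by
      rw [div_le_iff₀ hnd]
      exact hu'
    have h3 := hsl2 _ hg0 hg1
    have h4 : (0 : ℝ) < (n : ℝ) ^ D := by positivity
    have h5 := mul_le_mul_of_nonneg_right h3 h4.le
    have h6 : -(η * ((u : ℝ) / (n : ℝ) ^ d - t)) * (n : ℝ) ^ D =
        -(η * (u - t * (n : ℝ) ^ d) * (n : ℝ) ^ (D - d)) := by
      rw [← hDd]
      field_simp
    have h7 : η * (C * (n : ℝ) ^ (d - 1)) * (n : ℝ) ^ (D - d) ≤
        η * (u - t * (n : ℝ) ^ d) * (n : ℝ) ^ (D - d) := by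
      refine mul_le_mul_of_nonneg_right (mul_le_mul_of_nonneg_left ?_ hη.le) hpDd.le
      linarith
    have h8 : η * (C * (n : ℝ) ^ (d - 1)) * (n : ℝ) ^ (D - d) =
        (C₁ + Cm + 1) * (n : ℝ) ^ (D - 1) := by
      rw [← hCη, ← hDd1]
      ring
    have h9 : Cf D * (n : ℝ) ^ D / n ≤ Cm * (n : ℝ) ^ (D - 1) := by
      rw [mul_div_assoc, hD1]
      exact mul_le_mul_of_nonneg_right (hCfle D le_rfl) hpD.le
    have h10 := (abs_le.1 h2).2
    have h11 : (serCoeff n d u D : ℝ) ≤ -((C₁ + 1) * (n : ℝ) ^ (D - 1)) := by linarith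
    constructor
    · refine hxe.2 (Or.inr ?_)
      rw [A_eq_ser hn1 (by omega)]
      linarith
    · have h12 : (0 : ℝ) < (C₁ + 1) * (n : ℝ) ^ (D - 1) := by positivity
      have h13 : (serCoeff n d u D : ℝ) < 0 := by linarith
      exact_mod_cast h13

/-- If the powers of general linear forms are exact in degree `D` near the threshold, then Fröberg's
formula holds in degree `D` for all large `n` and all `u`. -/
theorem closed_of_exact (d D : ℕ) (hd : 2 ≤ d) (hD : d ≤ D)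
    (hex : ∃ n₁ T : ℕ, ∀ n, n₁ ≤ n → ∀ k, T ≤ k → (∀ j < D, 0 < A (fun _ => d) n k j) →
      (FF (fun _ => d) n k D : ℤ) = max (A (fun _ => d) n k D) 0) :
    ∃ n₀ : ℕ, ∀ n, n₀ ≤ n → ∀ u : ℕ, ∀ (K : Type) [Field K] [CharZero K],
      u ≤ Module.finrank K (homogeneousSubmodule (Fin n) K d) → FrobergAt K n d u (D - d) := by
  obtain ⟨δ, C, hδ, hC, n₁, hn₁, h₁⟩ := sides d D hd hD
  obtain ⟨n₂, h₂⟩ := super_all d D hd hD (asymThreshold d D + δ)
    (neg_of_thr_lt d D hd hD _ (by linarith))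
  obtain ⟨n₃, T, h₃⟩ := hex
  have ht := thr_pos d D hd hD
  -- few powers are on the left of the window
  obtain ⟨n₄, hn₄⟩ : ∃ n₄ : ℕ, ∀ n : ℕ, n₄ ≤ n →
      (T : ℝ) ≤ asymThreshold d D * (n : ℝ) ^ d - C * (n : ℝ) ^ (d - 1) * Real.log n := by
    have h4 : Filter.Tendsto (fun n : ℕ => (n : ℝ) * (asymThreshold d D - C * (Real.log n / n)))
        Filter.atTop Filter.atTop := by
      refine Filter.Tendsto.atTop_mul_pos (C := asymThreshold d D) ht
        tendsto_natCast_atTop_atTop ?_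
      have h5 : Filter.Tendsto (fun n : ℕ => Real.log n / (n : ℝ)) Filter.atTop (nhds 0) := by
        have h6 := Real.isLittleO_log_id_atTop.tendsto_div_nhds_zero
        exact h6.comp tendsto_natCast_atTop_atTop
      have h7 := (tendsto_const_nhds (x := asymThreshold d D)).sub (h5.const_mul C)
      rw [mul_zero, sub_zero] at h7
      exact h7
    obtain ⟨n₄, h5⟩ := Filter.eventually_atTop.1 ((h4.eventually_ge_atTop (T : ℝ)).and
      (Filter.eventually_ge_atTop 1))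
    refine ⟨n₄, fun n hn => ?_⟩
    obtain ⟨h6, h7⟩ := h5 n hn
    have hn1 : (1 : ℝ) ≤ n := by exact_mod_cast h7
    have hn0 : (0 : ℝ) < n := by linarith
    have h8 : (1 : ℝ) ≤ (n : ℝ) ^ (d - 1) := one_le_pow₀ hn1
    have h9 : asymThreshold d D * (n : ℝ) ^ d - C * (n : ℝ) ^ (d - 1) * Real.log n =
        (n : ℝ) ^ (d - 1) * ((n : ℝ) * (asymThreshold d D - C * (Real.log n / n))) := by
      have h10 : (n : ℝ) ^ d = (n : ℝ) ^ (d - 1) * n := by
        rw [← pow_succ]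
        congr 1
        omega
      rw [h10]
      field_simp
    rw [h9]
    have h10 : (0 : ℝ) ≤ (n : ℝ) * (asymThreshold d D - C * (Real.log n / n)) :=
      le_trans (Nat.cast_nonneg T) h6
    calc (T : ℝ) ≤ 1 * ((n : ℝ) * (asymThreshold d D - C * (Real.log n / n))) := by
          rw [one_mul]
          exact h6
      _ ≤ _ := mul_le_mul_of_nonneg_right h8 h10
  refine ⟨n₁ + n₂ + n₃ + n₄, fun n hn u K _ _ huK => ?_⟩
  obtain ⟨r, rfl⟩ : ∃ r, n = r + 1 := ⟨n - 1, by omega⟩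
  rcases le_or_gt (u : ℝ) ((asymThreshold d D + δ) * ((r + 1 : ℕ) : ℝ) ^ d) with h | h
  · -- the dimension for all `k ≤ u`
    have hk : ∀ k ≤ u, (∀ i < D, 0 < A (fun _ => d) (r + 1) k i) ∧
        (∀ i < D, (FF (fun _ => d) (r + 1) k i : ℤ) = A (fun _ => d) (r + 1) k i) ∧
        (FF (fun _ => d) (r + 1) k D : ℤ) = max (A (fun _ => d) (r + 1) k D) 0 := by
      intro k hk
      have hku : (k : ℝ) ≤ u := by exact_mod_cast hk
      obtain ⟨h5, _, h6⟩ := h₁ (r + 1) (by omega) k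
      obtain ⟨h7, h8⟩ := h6 (hku.trans h)
      refine ⟨h7, h8, ?_⟩
      rcases Nat.lt_or_ge k T with h9 | h9
      · have h10 : (k : ℝ) ≤ T := by exact_mod_cast h9.le
        have h11 := h5 (h10.trans (hn₄ (r + 1) (by omega))) D hD le_rfl
        have h12 : 0 ≤ A (fun _ => d) (r + 1) k D := by
          rw [← h11]
          exact Int.natCast_nonneg _
        rw [h11, max_eq_left h12]
      · exact h₃ (r + 1) (by omega) k h9 h7
    obtain ⟨_, _, hu3⟩ := hk u le_rfl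
    rcases lt_or_ge (A (fun _ => d) (r + 1) u D) 0 with h5 | h5
    · rw [max_eq_right h5.le] at hu3
      rw [A_eq_ser (by omega) (by omega)] at h5
      exact froberg_super hD (by omega) (by exact_mod_cast hu3) ⟨D, le_rfl, h5⟩ K huK
    · refine froberg_of_systems (by omega) (by omega) fun k hku => ?_
      rw [Nat.sub_add_cancel hD]
      refine systems (by omega) (fun i hi hi' => ?_) K
      obtain ⟨h6, h7, h8⟩ := hk k hku
      rcases lt_or_eq_of_le hi' with h9 | rfl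
      · exact h7 i h9
      · rw [h8, max_eq_left]
        -- `A` decreases
        have he1 : ∀ _s : ℕ, 1 ≤ (fun _ : ℕ => d) _s := fun _ => by
          show 1 ≤ d
          omega
        refine h5.trans (A_anti_t he1 (T := u) (D := i) (fun j hj => ?_) hku le_rfl)
        exact ((hk u le_rfl).1 j hj).le
  · exact h₂ (r + 1) (by omega) u h.le K huK (D - d) (by omega)

end Pool.Agent.H21.XF

end
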