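import Pool.Agent.H94.LP7.M104
import Pool.Agent.H94.LP7.M105

/-! The parts of this file: H21.NX.Defs_1, H21.NX.LensB, H21.NX.UDefs. -/

section

/-!
# Project NX: exactness in high dimension, definitions

`ell n m = binom(m + n - 1, n)` is the length of a point of multiplicity `m` in dimension `n`.
Forms of degree `σ` in `s + 2` variables (dimension `s + 1`): `ell (s + 1) (σ + 1)` exponents;
the exponents with `a l = 0` (dimension `s`): `ell s (σ + 1)`.
-/

namespace Pool.Agent.H21.NX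

open Finset MvPolynomial Pool.Agent.H18.Fat Pool.Agent.H18.Ex

/-- The total length of a multiset of multiplicities in dimension `n`. -/
def tot (n : ℕ) (S : Multiset ℕ) : ℕ := (S.map (ell n)).sum

/-- The forced conditions on `x_l = 0` given by a multiset of pairs `(c, e)`. -/
def fk {ι : Type} (l : ι) (Φ : Multiset (ℕ × ℕ)) : Multiset (Kind ι) :=
  Φ.map fun x => Kind.forced l x.1 x.2

/-- Validity of a multiset of forced conditions with multiplicities at most `B`. -/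
def OKF (B : ℕ) (Φ : Multiset (ℕ × ℕ)) : Prop :=
  ∀ x ∈ Φ, 1 ≤ x.2 ∧ x.2 ≤ 2 ∧ x.2 ≤ x.1 ∧ x.1 ≤ B

/-- The trace length (dimension `s`) of forced conditions. -/
def tl (s : ℕ) (Φ : Multiset (ℕ × ℕ)) : ℕ := (Φ.map fun x => ell s x.1).sum

/-- The length (dimension `s + 1`) of forced conditions. -/
def fl (s : ℕ) (Φ : Multiset (ℕ × ℕ)) : ℕ := (Φ.map fun x => ell (s + 1) x.1 + 1 - x.2).sum

/-- The forced conditions after a Horace step: `Φ` were forced before, the points of `N0` and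
`α` points of multiplicity `μ` are put on the hyperplane, `ρ` points of multiplicity `μ` are
differential. -/
def nxt (Φ : Multiset (ℕ × ℕ)) (N0 : Multiset ℕ) (μ α ρ : ℕ) : Multiset (ℕ × ℕ) :=
  (Φ.map (fun x : ℕ × ℕ => (x.1 - 1, x.2)) + N0.map (fun m => (m - 1, 1)) +
    Multiset.replicate α (μ - 1, 1) + Multiset.replicate ρ (μ, 2)).filter fun x : ℕ × ℕ => x.2 ≤ x.1

/-- The multiplicities of the traces in the Horace step. -/
def trc (Φ : Multiset (ℕ × ℕ)) (N0 : Multiset ℕ) (μ α ρ : ℕ) : Multiset ℕ :=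
  Φ.map Prod.fst + N0 + Multiset.replicate α μ + Multiset.replicate ρ 1

/-- The bound for the multiplicities on the hyperplane at stage `c`. -/
def Bc (M μ c : ℕ) : ℕ := max (M - μ + c) μ

/-- The numerical conditions. -/
structure Num (d s μ M A : ℕ) : Prop where
  hμ : 2 ≤ μ
  hμM : μ ≤ M
  h2 : 2 * μ + M ≤ d + 1
  hds : d + 1 ≤ s
  nc : ∀ c, 2 ≤ c → c ≤ μ →
    4 * (d + 1) * (ell s c * ell s (Bc M μ c) + ell s μ) * ell s μ ≤ ell s (d - μ + c)
  q : ∀ c, 1 ≤ c → c ≤ μ → ell s (Bc M μ c) ^ 2 ≤ A * ell s c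
  f1 : ell (s + 1) (d - μ + 1) + ell (s + 1) M + ell s (Bc M μ 1) ^ 2 ≤ A
  f2 : 8 * (d + 1) * ell (s + 1) μ * ell (s + 1) (d + 2 - 2 * μ) ≤ ell s (d - μ + 2)

end Pool.Agent.H21.NX

end

section

/-!
# Module LensB: lengths and bounds for the Horace step (only multiset arithmetic and `ell`)

Facts about `ell` (H18/Ex/Ell): `ell_zero`, `ell_one`, `ell_mono`, `ell_pos`, `ell_succ`.
-/

namespace Pool.Agent.H21.NX

open Finset Pool.Agent.H18.Ex

/-- The main batch of `a` points of multiplicity `c ≥ 2`. -/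
theorem nxt_batch (Ψ : Multiset (ℕ × ℕ)) (a c μ α ρ : ℕ) (hc : 2 ≤ c) :
    nxt (Ψ + Multiset.replicate a (c, 1)) 0 μ α ρ =
      nxt Ψ 0 μ α ρ + Multiset.replicate a (c - 1, 1) := by
  have h : (Multiset.replicate a (c - 1, 1)).filter (fun x : ℕ × ℕ => x.2 ≤ x.1) =
      Multiset.replicate a (c - 1, 1) := by
    rw [Multiset.filter_eq_self]
    intro x hx
    rw [Multiset.eq_of_mem_replicate hx]
    simp only
    omega
  unfold nxt
  simp only [Multiset.map_add, Multiset.map_replicate, Multiset.filter_add, h]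
  abel

/-- In the first step `α` points of multiplicity `μ ≥ 2` become the main batch. -/
theorem nxt_start (N0 : Multiset ℕ) (μ α ρ : ℕ) (hμ : 2 ≤ μ) :
    nxt 0 N0 μ α ρ = nxt 0 N0 μ 0 ρ + Multiset.replicate α (μ - 1, 1) := by
  have h : (Multiset.replicate α (μ - 1, 1)).filter (fun x : ℕ × ℕ => x.2 ≤ x.1) =
      Multiset.replicate α (μ - 1, 1) := by
    rw [Multiset.filter_eq_self]
    intro x hx
    rw [Multiset.eq_of_mem_replicate hx]
    simp only
    omega
  unfold nxt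
  simp only [Multiset.filter_add, h, Multiset.replicate_zero, Multiset.filter_zero]
  abel

/-- The length of a forced condition is at least the length of its trace. -/
theorem tl_le_fl {B : ℕ} {Φ : Multiset (ℕ × ℕ)} (s : ℕ) (hs : 1 ≤ s) (hΦ : OKF B Φ) :
    tl s Φ ≤ fl s Φ := by
  have _ := hs
  unfold tl fl
  refine Multiset.sum_map_le_sum_map _ _ fun x hx => ?_
  have h := hΦ x hx
  have h2 := wgt_here s x.1 x.2 h.1 h.2.1 h.2.2.1
  omega

/-- `(s + 1) * fl ≤ (B + s) * tl`. -/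
theorem fl_le_tl {B : ℕ} {Φ : Multiset (ℕ × ℕ)} (s : ℕ) (hs : 1 ≤ s) (hΦ : OKF B Φ) :
    (s + 1) * fl s Φ ≤ (B + s) * tl s Φ := by
  unfold tl fl
  rw [← Multiset.sum_map_mul_left, ← Multiset.sum_map_mul_left]
  refine Multiset.sum_map_le_sum_map _ _ fun x hx => ?_
  have h := hΦ x hx
  calc (s + 1) * (ell (s + 1) x.1 + 1 - x.2) ≤ (s + 1) * ell (s + 1) x.1 :=
        Nat.mul_le_mul_left _ (by omega)
    _ = (x.1 + s) * ell s x.1 := (ell_succ_mul s x.1 hs).symm
    _ ≤ (B + s) * ell s x.1 := Nat.mul_le_mul_right _ (by omega)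

theorem tot_succ_le {B : ℕ} {N0 : Multiset ℕ} (s : ℕ) (hs : 1 ≤ s) (hN0 : ∀ m ∈ N0, m ≤ B) :
    (s + 1) * tot (s + 1) N0 ≤ (B + s) * tot s N0 := by
  unfold tot
  rw [← Multiset.sum_map_mul_left, ← Multiset.sum_map_mul_left]
  refine Multiset.sum_map_le_sum_map _ _ fun x hx => ?_
  rw [← ell_succ_mul s x hs]
  exact Nat.mul_le_mul_right _ (by have := hN0 x hx; omega)

theorem tot_le_tot_succ {N0 : Multiset ℕ} (s : ℕ) (hs : 1 ≤ s) :
    tot s N0 ≤ tot (s + 1) N0 := by
  unfold tot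
  refine Multiset.sum_map_le_sum_map _ _ fun x _ => ?_
  rcases Nat.eq_zero_or_pos x with h | h
  · rw [h, ell_zero hs]
    exact Nat.zero_le _
  · rw [← ell_pred_add s x h]
    exact Nat.le_add_left _ _

theorem tot_add (n : ℕ) (S T : Multiset ℕ) : tot n (S + T) = tot n S + tot n T := by
  simp only [tot, Multiset.map_add, Multiset.sum_add]

theorem tot_replicate (n k x : ℕ) : tot n (Multiset.replicate k x) = k * ell n x := by
  simp only [tot, Multiset.map_replicate, Multiset.sum_replicate, smul_eq_mul]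

theorem tot_filter_le (n t : ℕ) (S : Multiset ℕ) : tot n (S.filter (t ≤ ·)) ≤ tot n S := by
  conv_rhs => rw [← Multiset.filter_add_not (t ≤ ·) S, tot_add]
  exact Nat.le_add_right _ _

theorem filter_replicate_lt (k x t : ℕ) (h : x < t) :
    (Multiset.replicate k x).filter (t ≤ ·) = 0 := by
  rw [Multiset.filter_eq_nil]
  intro y hy
  rw [Multiset.eq_of_mem_replicate hy]
  omega

/-- The conditions of the window theorem for a trace which contains `a` points of multiplicity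
`c` and `ρ` simple points, with `ell c * ell B ≤ ρ` and `ell B ^ 2 ≤ a * ell c`: for `2 ≤ t ≤ c`
the simple points are not in the filter, for `t > c` neither are the points of multiplicity `c`. -/
theorem window_cond (s : ℕ) (hs : 1 ≤ s) (T1 : Multiset ℕ) (a c ρ B E : ℕ) (hcB : c ≤ B)
    (hc1 : 1 ≤ c) (hT1 : ∀ t ∈ T1, t ≤ B) (hρ : ell s c * ell s B ≤ ρ)
    (ha : ell s B ^ 2 ≤ a * ell s c) (hE : tot s T1 + a * ell s c + ρ ≤ E) (t : ℕ) (ht : 2 ≤ t)
    (htB : t ≤ B) :
    tot s ((T1 + Multiset.replicate a c + Multiset.replicate ρ 1).filter (t ≤ ·)) +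
      (ell s t - 1) * (ell s B - 1) ≤ E := by
  have _ := hs
  have _ := hcB
  have _ := hc1
  have _ := hT1
  rw [Multiset.filter_add, Multiset.filter_add, filter_replicate_lt ρ 1 t (by omega), add_zero,
    tot_add]
  have h1 := tot_filter_le s t T1
  have h2 := tot_filter_le s t (Multiset.replicate a c)
  rw [tot_replicate] at h2
  rcases Nat.lt_or_ge c t with h | h
  · rw [filter_replicate_lt a c t h]
    have h3 : (ell s t - 1) * (ell s B - 1) ≤ ell s B ^ 2 := by
      rw [pow_two]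
      exact Nat.mul_le_mul ((Nat.sub_le _ _).trans (ell_mono s htB)) (Nat.sub_le _ _)
    have h4 : tot s (0 : Multiset ℕ) = 0 := rfl
    omega
  · have h3 : (ell s t - 1) * (ell s B - 1) ≤ ell s c * ell s B :=
      Nat.mul_le_mul ((Nat.sub_le _ _).trans (ell_mono s h)) (Nat.sub_le _ _)
    omega

/-- The conditions of the window theorem for a trace with `τ + ell B ^ 2 ≤ E`, `τ` the length of
the part without the `q` simple points. -/
theorem window_cond' (s : ℕ) (hs : 1 ≤ s) (T1 : Multiset ℕ) (q B E : ℕ)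
    (hE : tot s T1 + ell s B ^ 2 ≤ E) (t : ℕ) (ht : 2 ≤ t) (htB : t ≤ B) :
    tot s ((T1 + Multiset.replicate q 1).filter (t ≤ ·)) +
      (ell s t - 1) * (ell s B - 1) ≤ E := by
  have _ := hs
  rw [Multiset.filter_add, filter_replicate_lt q 1 t (by omega), add_zero]
  have h1 := tot_filter_le s t T1
  have h3 : (ell s t - 1) * (ell s B - 1) ≤ ell s B ^ 2 := by
    rw [pow_two]
    exact Nat.mul_le_mul ((Nat.sub_le _ _).trans (ell_mono s htB)) (Nat.sub_le _ _)
  omega

theorem tot_trc (s : ℕ) (Φ : Multiset (ℕ × ℕ)) (N0 : Multiset ℕ) (μ α ρ : ℕ) :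
    tot s (trc Φ N0 μ α ρ) = tl s Φ + tot s N0 + α * ell s μ + ρ := by
  unfold trc
  rw [tot_add, tot_add, tot_add, tot_replicate, tot_replicate, ell_one, mul_one]
  congr 3
  unfold tot tl
  rw [Multiset.map_map]
  rfl

end Pool.Agent.H21.NX

end

section

/-!
# Module UDefs: the uniform version, numerical conditions
-/

namespace Pool.Agent.H21.NX

open Finset Pool.Agent.H18.Ex

/-- The maximal number of simple traces in a step. -/
def GG (s M : ℕ) : ℕ := ell s M ^ 2 + ell s M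

/-- The numerical conditions of the uniform version. -/
structure UNum (s M D0 : ℕ) : Prop where
  hM : 1 ≤ M
  hs : 16 * M ≤ s
  hD : 16 * M ≤ D0
  room : 16 * M * ell (s + 1) M ^ 3 ≤ ell s D0

/-- The size of the batch. -/
def a0 (s M D0 d : ℕ) : ℕ :=
  (d + 1) * GG s M + ell (s + 1) M + ell s M ^ 2 + ell (s + 1) D0

theorem ell_le_succ (s m : ℕ) (hs : 1 ≤ s) : ell s m ≤ ell (s + 1) m := by
  have := tot_le_tot_succ (N0 := {m}) s hs
  simpa [tot] using this

/-- Greedy choice of a sub-multiset, from below. -/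
theorem greedy_below (n M x T : ℕ) (hx : x ≤ T) (R : Multiset ℕ) :
    (∀ m ∈ R, m ≤ M) → T ≤ x + tot n R →
      ∃ R' ≤ R, x + tot n R' ≤ T ∧ T ≤ x + tot n R' + ell n M := by
  induction R using Multiset.induction_on with
  | empty =>
    intro _ hT
    refine ⟨0, le_rfl, ?_, ?_⟩
    · rw [show tot n 0 = 0 from rfl]
      exact hx
    · exact le_trans hT (Nat.le_add_right _ _)
  | cons a R ih =>
    intro hM hT
    have hcons : tot n (a ::ₘ R) = ell n a + tot n R := by
      unfold tot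
      rw [Multiset.map_cons, Multiset.sum_cons]
    by_cases h : T ≤ x + tot n R
    · obtain ⟨R', h1, h2, h3⟩ := ih (fun m hm => hM m (Multiset.mem_cons_of_mem hm)) h
      exact ⟨R', le_trans h1 (Multiset.le_cons_self _ _), h2, h3⟩
    · refine ⟨R, Multiset.le_cons_self _ _, by omega, ?_⟩
      have := ell_mono n (hM a (Multiset.mem_cons_self _ _))
      omega

namespace UNum

variable {s M D0 : ℕ} (h : UNum s M D0)

include h

theorem s1 : 1 ≤ s := by
  have := h.hs
  have := h.hM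
  omega

theorem F1 : 1 ≤ ell (s + 1) M := ell_pos _ h.hM

theorem E1 : 1 ≤ ell s M := ell_pos _ h.hM

theorem EF : ell s M ≤ ell (s + 1) M := ell_le_succ s M h.s1

theorem GG_le : GG s M ≤ 2 * ell (s + 1) M ^ 2 := by
  have h1 := h.E1
  have h2 := h.EF
  unfold GG
  have h3 : ell s M ^ 2 ≤ ell (s + 1) M ^ 2 := Nat.pow_le_pow_left h2 2
  have h4 : ell s M ≤ ell (s + 1) M ^ 2 := by nlinarith
  omega

theorem roomS {S : ℕ} (hS : D0 ≤ S) : 16 * M * ell (s + 1) M ^ 3 ≤ ell s S :=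
  le_trans h.room (ell_mono _ hS)

/-- `2 * E(M)^2 ≤ E(S)`. -/
theorem r1 {S : ℕ} (hS : D0 ≤ S) : 2 * ell s M ^ 2 ≤ ell s S := by
  refine le_trans ?_ (h.roomS hS)
  have h1 := h.F1
  have h2 := h.EF
  have h3 : ell s M ^ 2 ≤ ell (s + 1) M ^ 2 := Nat.pow_le_pow_left h2 2
  calc 2 * ell s M ^ 2 ≤ 2 * ell (s + 1) M ^ 2 := Nat.mul_le_mul_left _ h3
    _ = 2 * 1 * (ell (s + 1) M ^ 2 * 1) := by ring
    _ ≤ 16 * M * (ell (s + 1) M ^ 2 * ell (s + 1) M) :=
        Nat.mul_le_mul (Nat.mul_le_mul (by omega) h.hM) (Nat.mul_le_mul_left _ h1)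
    _ = _ := by ring

/-- `8 * G * E(M) ≤ E(S)`. -/
theorem r2 {S : ℕ} (hS : D0 ≤ S) : 8 * (GG s M * ell s M) ≤ ell s S := by
  refine le_trans ?_ (h.roomS hS)
  calc 8 * (GG s M * ell s M) ≤ 8 * (2 * ell (s + 1) M ^ 2 * ell (s + 1) M) :=
        Nat.mul_le_mul_left _ (Nat.mul_le_mul h.GG_le h.EF)
    _ = 16 * 1 * ell (s + 1) M ^ 3 := by ring
    _ ≤ _ := Nat.mul_le_mul_right _ (Nat.mul_le_mul_left _ h.hM)

/-- `2 * M * G * E(M) ≤ E(S)`. -/
theorem r3 {S : ℕ} (hS : D0 ≤ S) : 2 * (M * GG s M * ell s M) ≤ ell s S := by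
  refine le_trans ?_ (h.roomS hS)
  calc 2 * (M * GG s M * ell s M) ≤ 2 * (M * (2 * ell (s + 1) M ^ 2) * ell (s + 1) M) :=
        Nat.mul_le_mul_left _ (Nat.mul_le_mul (Nat.mul_le_mul_left _ h.GG_le) h.EF)
    _ = 4 * M * ell (s + 1) M ^ 3 := by ring
    _ ≤ _ := Nat.mul_le_mul_right _ (Nat.mul_le_mul_right _ (by omega))

/-- `2 * (F(M)^2 + F(M)) * F(M) ≤ E(S)`. -/
theorem r4 {S : ℕ} (hS : D0 ≤ S) :
    2 * ((ell (s + 1) M ^ 2 + ell (s + 1) M) * ell (s + 1) M) ≤ ell s S := by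
  refine le_trans ?_ (h.roomS hS)
  have h1 := h.F1
  have h2 : ell (s + 1) M ≤ ell (s + 1) M ^ 2 := by nlinarith
  calc 2 * ((ell (s + 1) M ^ 2 + ell (s + 1) M) * ell (s + 1) M) ≤
      2 * ((ell (s + 1) M ^ 2 + ell (s + 1) M ^ 2) * ell (s + 1) M) :=
        Nat.mul_le_mul_left _ (Nat.mul_le_mul_right _ (Nat.add_le_add_left h2 _))
    _ = 4 * 1 * ell (s + 1) M ^ 3 := by ring
    _ ≤ _ := Nat.mul_le_mul_right _ (Nat.mul_le_mul (by omega) h.hM)

/-- The new load is small: `8 * x * E(S) ≤ (x + s) * E(S - 1)` for `x = M - 1`. -/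
theorem load {S : ℕ} (hS : D0 + 1 ≤ S) :
    8 * ((M - 1) * ell s S) ≤ (M - 1 + s) * ell s (S - 1) := by
  have h1 := h.hs
  have h2 := h.hD
  have h3 := h.hM
  obtain ⟨k, rfl⟩ : ∃ k, S = k + 1 := ⟨S - 1, by omega⟩
  rw [Nat.add_sub_cancel]
  have hrel : ell s k * (k + s) = ell s (k + 1) * k := ell_mul_add s k h.s1
  have hk : 0 < k := by omega
  refine Nat.le_of_mul_le_mul_right ?_ (show 0 < k from hk)
  obtain ⟨x, hx⟩ : ∃ x, M - 1 = x := ⟨_, rfl⟩
  rw [hx]
  have e1 : 8 * (x * (k + s)) ≤ (x + s) * k := by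
    have hxs : 16 * x ≤ s := by omega
    have hxk : 16 * x ≤ k := by omega
    have e2 : 16 * x * k ≤ s * k := Nat.mul_le_mul_right _ hxs
    have e3 : 16 * x * s ≤ k * s := Nat.mul_le_mul_right _ hxk
    nlinarith
  calc 8 * (x * ell s (k + 1)) * k = 8 * x * (ell s (k + 1) * k) := by ring
    _ = 8 * x * (ell s k * (k + s)) := by rw [hrel]
    _ = 8 * (x * (k + s)) * ell s k := by ring
    _ ≤ (x + s) * k * ell s k := Nat.mul_le_mul_right _ e1
    _ = (x + s) * ell s k * k := by ring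

end UNum

end Pool.Agent.H21.NX

end
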