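import Pool.Agent.H94.LP7.M07
import Pool.Agent.H94.LP7.M10
import Pool.Agent.H94.LP7.M21

/-! The parts of this file: H18.Ex.Base, H21.NX.GL, H21.NX.UAll, V7.ST.Abs. -/

section

/-!
# Module Base: dimension one
-/

namespace Pool.Agent.H18.Ex

open Finset

variable {ι : Type} [Fintype ι] [DecidableEq ι]

lemma base_ell_one (m : ℕ) : ell 1 m = m := by
  unfold ell
  simp

/-- presentation of a multiset by a family on `Fin n` -/
lemma base_exists_fin (G : Multiset ℕ) :
    ∃ (n : ℕ) (m : Fin n → ℕ), (univ : Finset (Fin n)).val.map m = G := by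
  induction G using Quotient.inductionOn with
  | h L =>
    refine ⟨L.length, L.get, ?_⟩
    rw [Fin.univ_val_map, List.ofFn_get]
    rfl

/-- The polynomial of one variable with coefficients `f`. -/
noncomputable def basePoly (A : Finset (ι → ℕ)) (f : (ι → ℕ) → ℂ) (u : ι) (i0 : ℕ) :
    Polynomial ℂ :=
  ∑ a ∈ A, Polynomial.monomial (a u - i0) (f a)

lemma base_tcr (u : ι) (q : ℂ) (a : ι → ℕ) (β : ℕ) :
    tcr (Function.update (fun _ => (1 : ℂ)) u q) a (Function.update (fun _ => 0) u β) =
      (((a u).choose β : ℕ) : ℂ) * q ^ (a u - β) := by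
  unfold tcr
  rw [← mul_prod_erase univ _ (mem_univ u), Function.update_self, Function.update_self]
  rw [prod_eq_one fun i hi => ?_, mul_one]
  have hi' : i ≠ u := (mem_erase.1 hi).1
  rw [Function.update_of_ne hi', Function.update_of_ne hi']
  simp

lemma base_dvd (A : Finset (ι → ℕ)) (f : (ι → ℕ) → ℂ) (u : ι) (q : ℂ) (m : ℕ)
    (h : Sat A f (Kind.free m) (Function.update (fun _ => (1 : ℂ)) u q)) :
    (Polynomial.X - Polynomial.C q) ^ m ∣ basePoly A f u 0 := by
  rw [Polynomial.X_sub_C_pow_dvd_iff, ← Polynomial.taylor_apply, Polynomial.X_pow_dvd_iff]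
  intro β hβ
  rw [Polynomial.taylor_coeff]
  have h1 := h (Function.update (fun _ => 0) u β) (by
    show ∑ i, Function.update (fun _ => 0) u β i < m
    rw [sum_update_of_mem (mem_univ u)]
    simpa using hβ)
  unfold basePoly
  rw [map_sum, Polynomial.eval_finsetSum, ← h1]
  refine sum_congr rfl fun a _ => ?_
  rw [Polynomial.hasseDeriv_monomial, Polynomial.eval_monomial, Nat.sub_zero]
  show _ = f a * tcr (Function.update (fun _ => (1 : ℂ)) u q) a (Function.update (fun _ => 0) u β)
  rw [base_tcr]
  ring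

/-- Dimension one is always exact.

Proof.  Let `u ≠ v` be the two active coordinates; every `a ∈ Rg σ w` is determined by `a u`,
which runs through an interval `[i₀, i₀ + N - 1]`, `N = |Rg σ w|`, `a v = σ - a u`.  Take positions
with `q_v = 1` (and all inactive coordinates `1`), `q_u` pairwise distinct and nonzero.  For
`b = β e_u` the condition `∑_a f a tcr q a b = 0` says that the `β`-th Hasse derivative at `q_u` of
`P = ∑_a f a X^(a u)` vanishes; for `β < m` this gives `(X - q_u)^m ∣ P`
(`Polynomial.hasseDeriv`, `Polynomial.taylor`, e.g. `Polynomial.X_sub_C_pow_dvd_iff`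
/ `Polynomial.taylor_coeff`).  `P = X^i₀ * P'` with `deg P' < N`; the pairwise coprime powers
`(X - q_i)^(m_i)` are coprime to `X` and divide `P'`, their product has degree
`∑ m_i ≥ N`, so `P' = 0`.  (`ell 1 m = m`.) -/
theorem base_one (M σ : ℕ) (w : ι → ℕ) (h : (univ.filter fun i => 0 < w i).card = 2) :
    Exa 1 M (Rg σ w) := by
  intro G _ hG
  obtain ⟨n, m, hm⟩ := base_exists_fin G
  refine ⟨n, fun i => Kind.free (m i), ?_, ?_⟩
  · rw [← hm, Multiset.map_map]
    rfl
  have hsum : (Rg σ w).card ≤ ∑ i, m i := by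
    refine hG.trans (le_of_eq ?_)
    rw [← hm, Multiset.map_map]
    show ∑ i, ell 1 (m i) = _
    exact sum_congr rfl fun i _ => base_ell_one _
  obtain ⟨u, v, huv, hact⟩ := card_eq_two.1 h
  -- structure of the region
  have hzero : ∀ a ∈ Rg σ w, ∀ i, i ≠ u → i ≠ v → a i = 0 := by
    intro a ha i hiu hiv
    rw [mem_Rg] at ha
    have h1 : i ∉ univ.filter fun i => 0 < w i := by
      rw [hact]
      simp [hiu, hiv]
    simp only [mem_filter, mem_univ, true_and, not_lt, Nat.le_zero] at h1
    have := ha.1 i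
    omega
  have huvsum : ∀ a ∈ Rg σ w, a u + a v = σ := by
    intro a ha
    have h1 : ∑ i, a i = a u + (a v + ∑ i ∈ (univ.erase u).erase v, a i) := by
      rw [add_sum_erase _ _ (mem_erase.2 ⟨huv.symm, mem_univ v⟩), add_sum_erase _ _ (mem_univ u)]
    have h2 : ∑ i ∈ (univ.erase u).erase v, a i = 0 := by
      refine sum_eq_zero fun i hi => ?_
      rw [mem_erase, mem_erase] at hi
      exact hzero a ha i hi.2.1 hi.1
    have h3 := (mem_Rg.1 ha).2
    omega
  have hinj : ∀ a ∈ Rg σ w, ∀ a' ∈ Rg σ w, a u = a' u → a = a' := by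
    intro a ha a' ha' he
    have h1 := huvsum a ha
    have h2 := huvsum a' ha'
    funext i
    by_cases hiu : i = u
    · rw [hiu, he]
    · by_cases hiv : i = v
      · rw [hiv]; omega
      · rw [hzero a ha i hiu hiv, hzero a' ha' i hiu hiv]
  set i0 := σ - w v with hi0
  have hge : ∀ a ∈ Rg σ w, i0 ≤ a u := by
    intro a ha
    have h1 := huvsum a ha
    have h2 := (mem_Rg.1 ha).1 v
    omega
  have hlt : ∀ a ∈ Rg σ w, a u - i0 < (Rg σ w).card := by
    intro a ha
    have hsub : Icc i0 (min (w u) σ) ⊆ (Rg σ w).image fun x => x u := by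
      intro t ht
      rw [mem_Icc] at ht
      have ht1 : t ≤ w u := ht.2.trans (min_le_left _ _)
      have ht2 : t ≤ σ := ht.2.trans (min_le_right _ _)
      rw [mem_image]
      refine ⟨Function.update (Function.update (fun _ => 0) u t) v (σ - t), mem_Rg.2 ⟨?_, ?_⟩, ?_⟩
      · intro i
        by_cases hiv : i = v
        · rw [hiv, Function.update_self]; omega
        · rw [Function.update_of_ne hiv]
          by_cases hiu : i = u
          · rw [hiu, Function.update_self]; exact ht1
          · rw [Function.update_of_ne hiu]; exact Nat.zero_le _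
      · rw [sum_update_of_mem (mem_univ v), ← erase_eq, ← add_sum_erase _ _
          (mem_erase.2 ⟨huv, mem_univ u⟩ : u ∈ univ.erase v), Function.update_self,
          sum_eq_zero fun i hi => ?_]
        · omega
        · rw [mem_erase] at hi
          rw [Function.update_of_ne hi.1]
      · show Function.update (Function.update (fun _ => 0) u t) v (σ - t) u = t
        rw [Function.update_of_ne huv, Function.update_self]
    have h1 := (card_le_card hsub).trans card_image_le
    rw [Nat.card_Icc] at h1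
    have h2 := huvsum a ha
    have h3 := (mem_Rg.1 ha).1 u
    have h4 : a u ≤ min (w u) σ := le_min h3 (by omega)
    have h5 := hge a ha
    omega
  -- the positions
  refine ⟨fun i => Function.update (fun _ => (1 : ℂ)) u ((i : ℕ) + 1 : ℂ), ?_⟩
  intro f hf
  set P := basePoly (Rg σ w) f u 0 with hP
  set P' := basePoly (Rg σ w) f u i0 with hP'
  have hPP : P = Polynomial.X ^ i0 * P' := by
    rw [hP, hP']
    unfold basePoly
    rw [mul_sum]
    refine sum_congr rfl fun a ha => ?_
    rw [Polynomial.X_pow_eq_monomial, Polynomial.monomial_mul_monomial, one_mul, Nat.sub_zero,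
      Nat.add_sub_cancel' (hge a ha)]
  set s : Fin n → ℂ := fun i => ((i : ℕ) + 1 : ℂ) with hs
  have hsinj : Function.Injective s := by
    intro i j hij
    simp only [hs, add_left_inj, Nat.cast_inj] at hij
    exact Fin.ext hij
  have hs0 : ∀ i, s i ≠ 0 := fun i => Nat.cast_add_one_ne_zero _
  set D : Polynomial ℂ := ∏ i, (Polynomial.X - Polynomial.C (s i)) ^ m i with hD
  have hDdvd : D ∣ P := by
    rw [hD]
    refine prod_dvd_of_coprime ?_ fun i _ => base_dvd _ _ _ _ _ (hf i)
    intro i _ j _ hij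
    exact (Polynomial.pairwise_coprime_X_sub_C hsinj hij).pow
  have hcop : IsCoprime D (Polynomial.X ^ i0) := by
    rw [hD]
    refine IsCoprime.prod_left fun i _ => IsCoprime.pow ?_
    have h1 := Polynomial.isCoprime_X_sub_C_of_isUnit_sub (a := s i) (b := (0 : ℂ))
      (by simpa using hs0 i)
    simpa using h1
  have hDP' : D ∣ P' := by
    rw [hPP] at hDdvd
    exact hcop.dvd_of_dvd_mul_left hDdvd
  have hDmonic : D.Monic := by
    rw [hD]
    exact Polynomial.monic_prod_of_monic _ _ fun i _ => (Polynomial.monic_X_sub_C _).pow _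
  have hDdeg : D.natDegree = ∑ i, m i := by
    rw [hD, Polynomial.natDegree_prod_of_monic _ _ fun i _ => (Polynomial.monic_X_sub_C _).pow _]
    refine sum_congr rfl fun i _ => ?_
    rw [(Polynomial.monic_X_sub_C (s i)).natDegree_pow, Polynomial.natDegree_X_sub_C, mul_one]
  have hP'0 : P' = 0 := by
    refine Polynomial.eq_zero_of_dvd_of_degree_lt hDP' ?_
    rw [Polynomial.degree_eq_natDegree hDmonic.ne_zero, hDdeg]
    refine lt_of_lt_of_le ?_ (Nat.cast_le.2 hsum)
    rw [← Polynomial.mem_degreeLT]
    refine Submodule.sum_mem _ fun a ha => ?_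
    rw [Polynomial.mem_degreeLT]
    exact lt_of_le_of_lt (Polynomial.degree_monomial_le _ _) (Nat.cast_lt.2 (hlt a ha))
  intro a ha
  have hc : P.coeff (a u) = f a := by
    rw [hP]
    unfold basePoly
    rw [Polynomial.finsetSum_coeff, sum_eq_single_of_mem a ha]
    · rw [Nat.sub_zero, Polynomial.coeff_monomial, if_pos rfl]
    · intro a' ha' hne
      rw [Nat.sub_zero, Polynomial.coeff_monomial, if_neg fun he => hne (hinj a' ha' a ha he)]
  rw [← hc, hPP, hP'0, mul_zero, Polynomial.coeff_zero]

end Pool.Agent.H18.Ex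

end

section

/-!
# Module GL: the span of the spaces `V_d(Γ)`

If `V_d(Γ)` is, for general `Γ`, contained in a fixed subspace `X` not containing all forms of
degree `d`, then `V_d(Γ) = 0` for general `Γ`.

Proof.  Let `φ` be a linear functional killing `X` but not all forms of degree `d`
(`Submodule.exists_le_ker_of_notMem`), and `G ≠ 0` the polynomial of `h`; take `p₀` with
`G(p₀) ≠ 0` and show `fatForms r d p₀ m = ⊥` (then `gdim_le`).  Let `F ∈ fatForms r d p₀ m`.  For
a square matrix `A` put `p_A i = adjugate(A) *ᵥ p₀ i`.  Then `linSubst A F` (`F(Ax)`) is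
homogeneous of degree `d` and vanishes to order `m i` at `p_A i` if `det A ≠ 0`, since
`A p_A i = det A • p₀ i` (`linSubst_shift`, `vanishes_linSubst` etc. in H18/FatToric; vanishing of
a homogeneous form at `c • q`, `c ≠ 0`, is the same as at `q`: `linSubst` with a scalar matrix).  So
`φ(linSubst A F) = 0` whenever `det A * G(p_A) ≠ 0`; both sides are polynomials in the entries of
`A`, and `det A * G(p_A)` is not the zero polynomial (value `G(p₀)` at `A = 1`), hence
`φ(linSubst A F) = 0` for all `A`.  For the rank one matrix `A i j = c i * v j` one has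
`linSubst A F = C (F(c)) * lin v ^ d` (`lin` from H21/HD/Defs), so `F(c) * φ(lin v ^ d) = 0`
for all `c`, `v`.  If `F ≠ 0` there is `c` with `F(c) ≠ 0`, so `φ` kills all `lin v ^ d`, which span
the forms of degree `d` (`Pool.Agent.H21.HD.PowSpanLX.span_all`): contradiction.
-/

namespace Pool.Agent.H21.NX

open Finset MvPolynomial Pool.Agent.H18.Fat Pool.Agent.H21.HD

namespace GLX

/-- Homogeneous polynomials and scalar multiples of the arguments. -/
theorem aeval_mul_homog {n d : ℕ} {S : Type*} [CommRing S] [Algebra ℂ S]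
    {F : MvPolynomial (Fin n) ℂ} (hF : F.IsHomogeneous d) (z : S) (f : Fin n → S) :
    aeval (fun i => z * f i) F = z ^ d * aeval f F := by
  rw [aeval_def, aeval_def, eval₂_eq', eval₂_eq', mul_sum]
  refine sum_congr rfl fun s hs => ?_
  have h1 : s.degree = d := by
    by_contra hne
    exact (mem_support_iff.1 hs) (hF.coeff_eq_zero hne)
  have h2 : ∏ i, (z * f i) ^ s i = z ^ d * ∏ i, f i ^ s i := by
    simp_rw [mul_pow]
    rw [prod_mul_distrib, prod_pow_eq_pow_sum, ← Finsupp.degree_eq_sum, h1]
  rw [h2]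
  ring

theorem linSubst_scalar {n d : ℕ} {F : MvPolynomial (Fin n) ℂ} (hF : F.IsHomogeneous d) (c : ℂ) :
    linSubst (c • (1 : Matrix (Fin n) (Fin n) ℂ)) F = C (c ^ d) * F := by
  have h1 : linSubst (c • (1 : Matrix (Fin n) (Fin n) ℂ)) F =
      aeval (fun i => (C c : MvPolynomial (Fin n) ℂ) * X i) F := by
    unfold linSubst
    refine congrArg (fun f : Fin n → MvPolynomial (Fin n) ℂ => aeval f F) (funext fun i => ?_)
    rw [sum_eq_single i]
    · simp
    · intro j _ hj
      simp [Ne.symm hj]
    · intro h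
      exact absurd (mem_univ i) h
  rw [h1, aeval_mul_homog hF, C_pow, aeval_X_left, AlgHom.id_apply]

theorem vanishes_smul {n d m : ℕ} {F : MvPolynomial (Fin n) ℂ} (hF : F.IsHomogeneous d)
    {q : Fin n → ℂ} (h : VanishesToOrder F q m) {c : ℂ} (hc : c ≠ 0) :
    VanishesToOrder F (c • q) m := by
  have h1 : ((c⁻¹ • (1 : Matrix (Fin n) (Fin n) ℂ)).mulVec (c • q)) = q := by
    rw [Matrix.smul_mulVec, Matrix.one_mulVec, smul_smul, inv_mul_cancel₀ hc, one_smul]
  have h2 : VanishesToOrder (linSubst (c⁻¹ • (1 : Matrix (Fin n) (Fin n) ℂ)) F) (c • q) m :=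
    vanishes_linSubst (by rw [h1]; exact h)
  rw [linSubst_scalar hF] at h2
  intro β hβ
  have h3 := h2 β hβ
  unfold shift at h3 ⊢
  rw [map_mul, aeval_C, algebraMap_eq, coeff_C_mul] at h3
  rcases mul_eq_zero.1 h3 with h4 | h4
  · exact absurd h4 (pow_ne_zero _ (inv_ne_zero hc))
  · exact h4

/-- The generic substitution. -/
noncomputable def gF {n : ℕ} :
    MvPolynomial (Fin n) ℂ →+* MvPolynomial (Fin n) (MvPolynomial (Fin n × Fin n) ℂ) :=
  eval₂Hom (C.comp C) (fun i => ∑ j, C (X (i, j)) * X j)

theorem map_gF {n : ℕ} (A : Matrix (Fin n) (Fin n) ℂ) (F : MvPolynomial (Fin n) ℂ) :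
    MvPolynomial.map (eval fun x : Fin n × Fin n => A x.1 x.2) (gF F) = linSubst A F := by
  have h : (MvPolynomial.map (eval fun x : Fin n × Fin n => A x.1 x.2)).comp gF =
      (linSubst A).toRingHom := by
    apply ringHom_ext
    · intro c
      simp [gF, linSubst]
    · intro i
      simp [gF, linSubst]
  exact DFunLike.congr_fun h F

theorem aeval_C_eq {n : ℕ} (c : Fin n → ℂ) (F : MvPolynomial (Fin n) ℂ) :
    aeval (fun i => (C (c i) : MvPolynomial (Fin n) ℂ)) F = C (eval c F) := by
  induction F using MvPolynomial.induction_on with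
  | C c => simp
  | add p q hp hq => rw [map_add, map_add, map_add, hp, hq]
  | mul_X p i hp => rw [map_mul, map_mul, map_mul, hp, aeval_X, eval_X]

theorem homog_eq' {n d : ℕ} {F : MvPolynomial (Fin n) ℂ} (hF : F.IsHomogeneous d) :
    F = ∑ s ∈ mons n d, monomial s (coeff s F) := by
  classical
  ext s
  rw [coeff_sum]
  simp only [coeff_monomial]
  rw [Finset.sum_ite_eq']
  split_ifs with h
  · rfl
  · rw [mem_mons] at h
    exact hF.coeff_eq_zero h

theorem eval_aeval' {σ τ : Type*} (a : τ → ℂ) (g : σ → MvPolynomial τ ℂ)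
    (G : MvPolynomial σ ℂ) : eval a (aeval g G) = eval (fun x => eval a (g x)) G := by
  induction G using MvPolynomial.induction_on with
  | C c => simp
  | add p q hp hq => rw [map_add, map_add, map_add, hp, hq]
  | mul_X p i hp => rw [map_mul, map_mul, map_mul, hp, aeval_X, eval_X]

theorem functional_poly {n d : ℕ} (φ : MvPolynomial (Fin n) ℂ →ₗ[ℂ] ℂ)
    {F : MvPolynomial (Fin n) ℂ} (hF : F.IsHomogeneous d) :
    ∃ Q : MvPolynomial (Fin n × Fin n) ℂ, ∀ A : Matrix (Fin n) (Fin n) ℂ,
      eval (fun x => A x.1 x.2) Q = φ (linSubst A F) := by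
  refine ⟨∑ t ∈ mons n d, coeff t (gF F) * C (φ (monomial t 1)), fun A => ?_⟩
  conv_rhs => rw [homog_eq' (linSubst_isHomogeneous A hF), map_sum]
  rw [map_sum]
  refine sum_congr rfl fun t _ => ?_
  rw [map_mul, eval_C]
  have h1 : (monomial t) (coeff t (linSubst A F)) =
      (coeff t (linSubst A F)) • (monomial t (1 : ℂ)) := by
    rw [smul_monomial, smul_eq_mul, mul_one]
  rw [h1, map_smul, smul_eq_mul, ← map_gF, coeff_map]

end GLX

open GLX

/-- Step 1: the polynomial identity in the entries of the matrix. -/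
theorem gl_all {r d : ℕ} {κ : Type} [Fintype κ] (m : κ → ℕ)
    (φ : MvPolynomial (Fin (r + 1)) ℂ →ₗ[ℂ] ℂ) (G : MvPolynomial (κ × Fin (r + 1)) ℂ)
    (hG : ∀ p : κ → Fin (r + 1) → ℂ, eval (fun x => p x.1 x.2) G ≠ 0 →
      ∀ F ∈ fatForms r d p m, φ F = 0)
    (p₀ : κ → Fin (r + 1) → ℂ) (hp₀ : eval (fun x => p₀ x.1 x.2) G ≠ 0)
    (F : MvPolynomial (Fin (r + 1)) ℂ) (hF : F ∈ fatForms r d p₀ m)
    (A : Matrix (Fin (r + 1)) (Fin (r + 1)) ℂ) : φ (linSubst A F) = 0 := by
  classical
  obtain ⟨Q, hQ⟩ := functional_poly φ hF.1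
  -- the polynomial `det A * G(p_A)`
  let N := Matrix.mvPolynomialX (Fin (r + 1)) (Fin (r + 1)) ℂ
  have hN : ∀ A : Matrix (Fin (r + 1)) (Fin (r + 1)) ℂ,
      (eval fun x : Fin (r + 1) × Fin (r + 1) => A x.1 x.2).mapMatrix N = A :=
    fun A => Matrix.mvPolynomialX_mapMatrix_eval A
  let D : MvPolynomial (Fin (r + 1) × Fin (r + 1)) ℂ :=
    N.det * aeval (fun x : κ × Fin (r + 1) => ∑ j, N.adjugate x.2 j * C (p₀ x.1 j)) G
  have hD : ∀ A : Matrix (Fin (r + 1)) (Fin (r + 1)) ℂ,
      eval (fun x => A x.1 x.2) D = A.det *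
        eval (fun x : κ × Fin (r + 1) => (A.adjugate.mulVec (p₀ x.1)) x.2) G := by
    intro A
    have h1 : eval (fun x : Fin (r + 1) × Fin (r + 1) => A x.1 x.2) N.det = A.det := by
      rw [RingHom.map_det, hN]
    have h2 : ∀ i j, eval (fun x : Fin (r + 1) × Fin (r + 1) => A x.1 x.2) (N.adjugate i j) =
        A.adjugate i j := by
      intro i j
      have h3 := RingHom.map_adjugate (eval fun x : Fin (r + 1) × Fin (r + 1) => A x.1 x.2) N
      rw [hN] at h3
      have h4 := congrFun (congrFun h3 i) j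
      simpa using h4
    simp only [D, map_mul, h1]
    rw [eval_aeval']
    have h6 : (fun x : κ × Fin (r + 1) => eval (fun x : Fin (r + 1) × Fin (r + 1) => A x.1 x.2)
        (∑ j, N.adjugate x.2 j * C (p₀ x.1 j))) =
        fun x : κ × Fin (r + 1) => (A.adjugate.mulVec (p₀ x.1)) x.2 := by
      funext x
      rw [map_sum]
      simp only [map_mul, h2, eval_C]
      rfl
    rw [h6]
  have hQD : Q * D = 0 := by
    apply MvPolynomial.funext
    intro a
    let A : Matrix (Fin (r + 1)) (Fin (r + 1)) ℂ := Matrix.of fun i j => a (i, j)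
    have ha : a = fun x : Fin (r + 1) × Fin (r + 1) => A x.1 x.2 := by
      funext x
      rfl
    rw [map_mul, map_zero, ha, hQ, hD]
    by_cases hdet : A.det = 0
    · rw [hdet, zero_mul, mul_zero]
    by_cases hGA : eval (fun x : κ × Fin (r + 1) => (A.adjugate.mulVec (p₀ x.1)) x.2) G = 0
    · rw [hGA, mul_zero, mul_zero]
    have h1 : φ (linSubst A F) = 0 := by
      refine hG (fun i => A.adjugate.mulVec (p₀ i)) hGA _ ?_
      refine ⟨linSubst_isHomogeneous A hF.1, fun i => ?_⟩
      apply vanishes_linSubst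
      have h2 : A.mulVec (A.adjugate.mulVec (p₀ i)) = A.det • p₀ i := by
        rw [Matrix.mulVec_mulVec, Matrix.mul_adjugate, Matrix.smul_mulVec, Matrix.one_mulVec]
      rw [h2]
      exact vanishes_smul hF.1 (hF.2 i) hdet
    rw [h1, zero_mul]
  have hD0 : D ≠ 0 := by
    intro h0
    have h1 := hD 1
    rw [h0, map_zero, Matrix.det_one, one_mul] at h1
    apply hp₀
    rw [h1]
    have h2 : (fun x : κ × Fin (r + 1) => p₀ x.1 x.2) = fun x : κ × Fin (r + 1) =>
        ((1 : Matrix (Fin (r + 1)) (Fin (r + 1)) ℂ).adjugate.mulVec (p₀ x.1)) x.2 := by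
      funext x
      rw [Matrix.adjugate_one, Matrix.one_mulVec]
    rw [h2]
  have hQ0 : Q = 0 := (mul_eq_zero.1 hQD).resolve_right hD0
  rw [← hQ, hQ0, map_zero]

/-- Step 2: rank one matrices. -/
theorem linSubst_rank_one {r d : ℕ} (F : MvPolynomial (Fin (r + 1)) ℂ) (hF : F.IsHomogeneous d)
    (c v : Fin (r + 1) → ℂ) :
    linSubst (Matrix.of fun i j => c i * v j) F = C (eval c F) * lin v ^ d := by
  have h1 : linSubst (Matrix.of fun i j => c i * v j) F =
      aeval (fun i => lin v * (C (c i) : MvPolynomial (Fin (r + 1)) ℂ)) F := by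
    unfold linSubst lin
    refine congrArg (fun f : Fin (r + 1) → MvPolynomial (Fin (r + 1)) ℂ => aeval f F)
      (funext fun i => ?_)
    rw [sum_mul]
    refine sum_congr rfl fun j _ => ?_
    rw [Matrix.of_apply, C_mul]
    ring
  rw [h1, aeval_mul_homog hF, mul_comm, aeval_C_eq]

theorem gl_lemma (r d : ℕ) {κ : Type} [Fintype κ] (m : κ → ℕ)
    (X : Submodule ℂ (MvPolynomial (Fin (r + 1)) ℂ))
    (hX : ¬ homogeneousSubmodule (Fin (r + 1)) ℂ d ≤ X)
    (h : Gen r κ fun p => fatForms r d p m ≤ X) : gdim r d m = 0 := by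
  classical
  obtain ⟨F₀, hF₀, hF₀X⟩ := SetLike.not_le_iff_exists.1 hX
  obtain ⟨φ, hφF₀, hφ⟩ := Submodule.exists_le_ker_of_notMem hF₀X
  obtain ⟨G, hG0, hG⟩ := h
  obtain ⟨a, ha⟩ : ∃ a, eval a G ≠ 0 := by
    by_contra hcon
    push Not at hcon
    exact hG0 (MvPolynomial.funext fun a => by rw [hcon a, map_zero])
  let p₀ : κ → Fin (r + 1) → ℂ := fun i j => a (i, j)
  have hp₀ : eval (fun x : κ × Fin (r + 1) => p₀ x.1 x.2) G ≠ 0 := ha
  have hbot : fatForms r d p₀ m = ⊥ := by
    rw [Submodule.eq_bot_iff]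
    intro F hF
    by_contra hF0
    obtain ⟨c, hc⟩ : ∃ c, eval c F ≠ 0 := by
      by_contra hcon
      push Not at hcon
      exact hF0 (MvPolynomial.funext fun a => by rw [hcon a, map_zero])
    have h1 : ∀ v : Fin (r + 1) → ℂ, φ (lin v ^ d) = 0 := by
      intro v
      have h2 := gl_all m φ G (fun p hp F hF => hφ (hG p hp hF)) p₀ hp₀ F hF
        (Matrix.of fun i j => c i * v j)
      rw [linSubst_rank_one F hF.1, ← smul_eq_C_mul, map_smul, smul_eq_mul] at h2
      exact (mul_eq_zero.1 h2).resolve_left hc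
    have h3 : homogeneousSubmodule (Fin (r + 1)) ℂ d ≤ LinearMap.ker φ := by
      rw [PowSpanLX.span_all, Submodule.span_le]
      rintro _ ⟨v, rfl⟩
      exact h1 v
    exact hφF₀ (h3 hF₀)
  have h4 := gdim_le r d m p₀
  rw [hbot, finrank_bot] at h4
  omega

end Pool.Agent.H21.NX

end

section

/-!
# Module UAll: all but finitely many pairs (dimension, degree)
-/

namespace Pool.Agent.H21.NX

open Finset Pool.Agent.H18.Ex

theorem Rg_eq_Sx (s d : ℕ) : Pool.Agent.H18.Ex.Rg d (fun _ : Fin (s + 2) => d) = Sx (Fin (s + 2)) d := by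
  ext a
  rw [Pool.Agent.H18.Ex.mem_Rg, mem_Sx]
  constructor
  · exact fun h => h.2
  · intro h
    refine ⟨fun i => ?_, h⟩
    rw [← h]
    exact single_le_sum (fun j _ => Nat.zero_le (a j)) (mem_univ i)

end Pool.Agent.H21.NX

end

section

/-!
# V7, block STEP: the arithmetic of the closing, abstract form

`g n s`, `v n s` are the dimension and the virtual dimension of the system of level `j` in `n` variables with the
multiset `s` of kinds; `g'`, `v'` belong to the level `j + 1`.  `top` is the kind `(M, [j])`, `sm` a simple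
point, `fe` an `M`-fold point in general position, `sj` a swapped point.
-/

set_option autoImplicit false

namespace Pool.Agent.V7.ST

/-- A convex sequence with slopes `≥ -b` whose first `N` slopes are not all equal to `-b`. -/
theorem slope_lemma (G : ℕ → ℕ) (b : ℕ) (h1 : ∀ i, G i ≤ G (i + 1) + b)
    (h2 : ∀ i, G (i + 1) + G (i + 1) ≤ G i + G (i + 2)) (N : ℕ)
    (hN : G 0 < G N + N * b) (x : ℕ) : G N + x ≤ G (N + x) + x * b := by
  -- if one slope at `i ≥ N` is `-b`, so are all the earlier ones
  have key : ∀ i, G i = G (i + 1) + b → ∀ k ≤ i, G k = G (k + 1) + b := by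
    intro i
    induction i with
    | zero =>
      intro h k hk
      obtain rfl : k = 0 := by omega
      exact h
    | succ i ih =>
      intro h k hk
      have e : G i = G (i + 1) + b := by
        have := h1 i
        have := h2 i
        have h' : G (i + 1) = G (i + 2) + b := h
        omega
      rcases Nat.lt_or_ge k (i + 1) with hk' | hk'
      · exact ih e k (by omega)
      · obtain rfl : k = i + 1 := by omega
        exact h
  have all : ∀ i, (∀ k < i, G k = G (k + 1) + b) → G 0 = G i + i * b := by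
    intro i
    induction i with
    | zero => intro _; simp
    | succ i ih =>
      intro h
      have h3 := ih fun k hk => h k (by omega)
      have h4 := h i (by omega)
      have h5 : (i + 1) * b = i * b + b := by ring
      omega
  have lt : ∀ i, N ≤ i → G i + 1 ≤ G (i + 1) + b := by
    intro i hi
    have h3 := h1 i
    by_contra hcon
    have h4 : G i = G (i + 1) + b := by omega
    have h5 := all N fun k hk => key i h4 k (by omega)
    omega
  induction x with
  | zero => simp
  | succ x ih =>
    have h3 := lt (N + x) (by omega)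
    have h4 : (x + 1) * b = x * b + b := by ring
    have h5 : N + (x + 1) = N + x + 1 := by ring
    rw [h5, h4]
    omega

/-- The numbers of points of the other kinds and of the kind `top`. -/
theorem split_top {K : Type} [DecidableEq K] (top : K) (s : Multiset K) :
    ∃ N s0, s = Multiset.replicate N top + s0 ∧ top ∉ s0 := by
  refine ⟨s.count top, s.filter (fun k => ¬ k = top), ?_, ?_⟩
  · conv_lhs => rw [← Multiset.filter_add_not (fun k => k = top) s]
    congr 1
    rw [Multiset.filter_eq']
  · rw [Multiset.mem_filter]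
    rintro ⟨-, h⟩
    exact h rfl

open Multiset in
theorem step_abs {K : Type} [DecidableEq K] (c : ℕ) (hc : 0 < c)
    (g g' : ℕ → Multiset K → ℕ) (v v' : ℕ → Multiset K → ℤ) (b : ℕ → ℕ)
    (P P' : ℕ → Multiset K → Prop) (sm fe sj top : K) (add : K → K) (n0 : ℕ)
    (bpos : ∀ n, n0 ≤ n → 0 < b n)
    (bmono : ∀ n, n0 ≤ n → b (n - c) ≤ b n)
    (gbd : ∀ n, ∃ C : ℕ, ∀ s, g n s ≤ C)
    (F1 : ∀ n s, n0 ≤ n → P n s → v n s ≤ g n s)
    (F3 : ∀ n s a, n0 ≤ n → g n (s + replicate a sm) = g n s - a)
    (Ranti : ∀ n s, g n (top ::ₘ s) ≤ g n s)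
    (Rle : ∀ n s, n0 ≤ n → g n s ≤ g n (top ::ₘ s) + b n)
    (Rsub : ∀ n s, g n (top ::ₘ s) + g n (top ::ₘ s) ≤ g n s + g n (top ::ₘ top ::ₘ s))
    (Vtop : ∀ n s, n0 ≤ n → v n (top ::ₘ s) = v n s - b n)
    (Ptop : ∀ n s, P n (top ::ₘ s) ↔ P n s)
    (OJ : ∀ n s, n0 ≤ n → P n s → top ∉ s → (g n s : ℤ) ≤ v n s)
    (DH : ∀ n sL sO y a, n0 ≤ n → P n (sL + sO + replicate y fe) →
      g (n - c) (sL + replicate (y + a) sm) = 0 →
      g n (sL + sO + replicate y fe + replicate a sm) ≤ g' n (sL.map add + sO + replicate y sj))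
    (PR : ∀ n s, n0 ≤ n → P' n s → (g' n s : ℤ) ≤ max 0 (v' n s))
    (VR : ∀ n sL sO y, n0 ≤ n → P n (sL + sO + replicate y fe) →
      v' n (sL.map add + sO + replicate y sj) =
        v n (sL + sO + replicate y fe) - v (n - c) sL + y)
    (NUM : ∀ X : ℕ, ∃ n1, ∀ n, n1 ≤ n → ∀ s, P n s → -(b n : ℤ) ≤ v n s →
      v n s < (X + 1) * b n → ∀ x, x ≤ X → ∃ sL sO,
        s = sL + sO + replicate (2 * b (n - c)) fe ∧ P (n - c) sL ∧
        (x : ℤ) * b (n - c) ≤ v (n - c) sL ∧ v (n - c) sL < (x + 1) * b (n - c) ∧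
        ∀ y, y ≤ 2 * b (n - c) →
          P' n (sL.map add + (sO + replicate (2 * b (n - c) - y) fe) + replicate y sj)) :
    ∃ n2, ∀ n, n2 ≤ n → ∀ s, P n s → (g n s : ℤ) ≤ max 0 (v n s) := by
  -- the trace is killed by `y` fillers and `a` simple points
  have main : ∀ X : ℕ, ∃ n1, n0 + c ≤ n1 ∧ ∀ n, n1 ≤ n → ∀ s, P n s → -(b n : ℤ) ≤ v n s →
      v n s < (X + 1) * b n → ∀ x, x ≤ X → ∃ sL, P (n - c) sL ∧
        (x : ℤ) * b (n - c) ≤ v (n - c) sL ∧ v (n - c) sL < (x + 1) * b (n - c) ∧
        ∀ y a, y ≤ 2 * b (n - c) → g (n - c) sL ≤ y + a →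
          ((g n s - a : ℕ) : ℤ) ≤ max 0 (v n s - v (n - c) sL + y) := by
    intro X
    obtain ⟨n1, h⟩ := NUM X
    refine ⟨max n1 (n0 + c), le_max_right _ _, fun n hn s hs h1 h2 x hx => ?_⟩
    have hn1 : n1 ≤ n := (le_max_left _ _).trans hn
    have hn0 : n0 + c ≤ n := (le_max_right _ _).trans hn
    obtain ⟨sL, sO, e, hL, h3, h4, h5⟩ := h n hn1 s hs h1 h2 x hx
    refine ⟨sL, hL, h3, h4, fun y a hy ha => ?_⟩
    have e' : s = sL + (sO + replicate (2 * b (n - c) - y) fe) + replicate y fe := by
      have e1 : replicate (2 * b (n - c)) fe =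
          replicate (2 * b (n - c) - y) fe + replicate y fe := by
        rw [← Multiset.replicate_add]
        congr 1
        omega
      rw [e, e1]
      simp only [add_assoc]
    have hPs : P n (sL + (sO + replicate (2 * b (n - c) - y) fe) + replicate y fe) := e' ▸ hs
    have h6 : g (n - c) (sL + replicate (y + a) sm) = 0 := by
      rw [F3 _ _ _ (by omega)]
      omega
    have h7 := DH n sL (sO + replicate (2 * b (n - c) - y) fe) y a (by omega) hPs h6
    rw [← e', F3 _ _ _ (by omega)] at h7
    have h8 := PR n _ (by omega) (h5 y hy)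
    rw [VR n sL _ y (by omega) hPs, ← e'] at h8
    exact (Int.ofNat_le.2 h7).trans h8
  -- (a) the defect is bounded
  obtain ⟨nA, hnA, hA⟩ := main 0
  choose Cb hCb using gbd
  set D : ℕ := (Finset.range (nA + c)).sup Cb with hD
  have stepA : ∀ n, nA ≤ n → ∀ s, P n s → 0 ≤ v n s → v n s < b n →
      (g n s : ℤ) ≤ v n s + D := by
    intro n
    induction n using Nat.strong_induction_on with
    | _ n ih =>
      intro hn s hs h1 h2
      rcases Nat.lt_or_ge n (nA + c) with hlt | hge
      · have h3 : g n s ≤ D := (hCb n s).trans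
          (Finset.le_sup (f := Cb) (Finset.mem_range.2 hlt))
        have h4 : (g n s : ℤ) ≤ D := by exact_mod_cast h3
        linarith
      · have hneg : -(b n : ℤ) ≤ v n s := by
          have : (0 : ℤ) ≤ b n := Int.natCast_nonneg _
          linarith
        obtain ⟨sL, hL, h3, h4, h5⟩ := hA n (by omega) s hs hneg
          (by push_cast; linarith) 0 le_rfl
        have h6 := ih (n - c) (by omega) (by omega) sL hL (by simpa using h3)
          (by simpa using h4)
        have h7 := F1 (n - c) sL (by omega) hL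
        -- the virtual dimension of the trace
        obtain ⟨w, hw⟩ : ∃ w : ℕ, v (n - c) sL = w :=
          ⟨(v (n - c) sL).toNat, by
            have : (0 : ℤ) ≤ v (n - c) sL := by simpa using h3
            omega⟩
        obtain ⟨u, hu⟩ : ∃ u : ℕ, v n s = u := ⟨(v n s).toNat, by omega⟩
        rw [hw] at h4 h5 h6 h7
        rw [hu] at h5 ⊢
        have h4' : w < b (n - c) := by
          have h8 : (w : ℤ) < b (n - c) := by simpa using h4
          exact_mod_cast h8
        have h7' : w ≤ g (n - c) sL := by exact_mod_cast h7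
        have h6' : g (n - c) sL ≤ w + D := by exact_mod_cast h6
        have h9 := h5 (w - min u w) (min u w + (g (n - c) sL - w))
          (by omega) (by omega)
        have h10 : (0 : ℤ) ≤ (u : ℤ) - w + (w - min u w : ℕ) := by
          have : min u w ≤ u := min_le_left _ _
          have : min u w ≤ w := min_le_right _ _
          omega
        rw [max_eq_right h10] at h9
        have : min u w ≤ u := min_le_left _ _
        have : min u w ≤ w := min_le_right _ _
        omega
  -- (b) exactness for large virtual dimension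
  have stepB : ∀ n, nA ≤ n → ∀ s, P n s → (D : ℤ) * b n ≤ v n s → (g n s : ℤ) ≤ v n s := by
    intro n hn s hs hv
    by_contra hcon
    push Not at hcon
    have hn0 : n0 ≤ n := by omega
    have hbp := bpos n hn0
    obtain ⟨N, s0, hs0, htop⟩ := split_top top s
    have hPi : ∀ i, P n (replicate i top + s0) ↔ P n s0 := by
      intro i
      induction i with
      | zero => simp
      | succ i ih =>
        rw [Multiset.replicate_succ, Multiset.cons_add, Ptop, ih]
    have hVi : ∀ i : ℕ, v n (replicate i top + s0) = v n s0 - i * b n := by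
      intro i
      induction i with
      | zero => simp
      | succ i ih =>
        rw [Multiset.replicate_succ, Multiset.cons_add, Vtop _ _ hn0, ih]
        push_cast
        ring
    have hP0 : P n s0 := (hPi N).1 (hs0 ▸ hs)
    have h0 := OJ n s0 hn0 hP0 htop
    set G : ℕ → ℕ := fun i => g n (replicate i top + s0) with hG
    have hG1 : ∀ i, G i ≤ G (i + 1) + b n := by
      intro i
      have h3 := Rle n (replicate i top + s0) hn0
      rwa [← Multiset.cons_add, ← Multiset.replicate_succ] at h3
    have hG2 : ∀ i, G (i + 1) + G (i + 1) ≤ G i + G (i + 2) := by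
      intro i
      have h3 := Rsub n (replicate i top + s0)
      rwa [← Multiset.cons_add, ← Multiset.replicate_succ, ← Multiset.cons_add,
        ← Multiset.replicate_succ] at h3
    have hvs : v n s = v n s0 - N * b n := by rw [hs0, hVi]
    have hgs : g n s = G N := by rw [hs0]
    have hg0 : g n s0 = G 0 := by
      show g n s0 = g n (replicate 0 top + s0)
      simp
    -- the number of points to be added
    obtain ⟨x, hx1, hx2⟩ : ∃ x : ℕ, (x : ℤ) * b n ≤ v n s ∧ v n s < (x + 1) * b n := by
      have hbz : (0 : ℤ) < b n := by exact_mod_cast hbp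
      have hv0 : 0 ≤ v n s := le_trans (by positivity) hv
      refine ⟨(v n s / b n).toNat, ?_, ?_⟩
      · have h3 : ((v n s / b n).toNat : ℤ) = v n s / b n :=
          Int.toNat_of_nonneg (Int.ediv_nonneg hv0 hbz.le)
        rw [h3]
        exact Int.ediv_mul_le _ hbz.ne'
      · have h3 : ((v n s / b n).toNat : ℤ) = v n s / b n :=
          Int.toNat_of_nonneg (Int.ediv_nonneg hv0 hbz.le)
        rw [h3]
        exact Int.lt_ediv_add_one_mul_self _ hbz
    have hxD : D ≤ x := by
      by_contra h3
      push Not at h3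
      have h4 : ((x : ℤ) + 1) * b n ≤ D * b n := by
        refine mul_le_mul_of_nonneg_right ?_ (Int.natCast_nonneg _)
        exact_mod_cast h3
      linarith
    have h3 := stepA n hn (replicate (N + x) top + s0) ((hPi _).2 hP0)
      (by rw [hVi]; push_cast; linarith) (by rw [hVi]; push_cast; linarith)
    have h4 : G 0 < G N + N * b n := by
      have h5 : (G 0 : ℤ) < G N + N * b n := by
        rw [← hg0, ← hgs]
        linarith
      exact_mod_cast h5
    have h5 := slope_lemma G (b n) hG1 hG2 N h4 x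
    have h6 : (g n (replicate (N + x) top + s0) : ℤ) = G (N + x) := rfl
    rw [h6, hVi] at h3
    have h7 : (G N : ℤ) + x ≤ G (N + x) + x * b n := by exact_mod_cast h5
    have h8 : v n s + 1 ≤ G N := by
      rw [← hgs]
      exact hcon
    have h9 : (D : ℤ) ≤ x := by exact_mod_cast hxD
    push_cast at h3
    linarith
  -- (c) descending induction
  have stepC : ∀ k x : ℕ, D ≤ x + k → ∃ nx, ∀ n, nx ≤ n → ∀ s, P n s →
      (x : ℤ) * b n ≤ v n s → (g n s : ℤ) ≤ v n s := by
    intro k
    induction k with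
    | zero =>
      intro x hx
      refine ⟨nA, fun n hn s hs hv => stepB n hn s hs (le_trans ?_ hv)⟩
      refine mul_le_mul_of_nonneg_right ?_ (Int.natCast_nonneg _)
      exact_mod_cast hx
    | succ k ih =>
      intro x hx
      obtain ⟨nx, hnx⟩ := ih (x + 1) (by omega)
      obtain ⟨nM, hnM0, hnM⟩ := main (x + 1)
      refine ⟨max (nx + c) nM, fun n hn s hs hv => ?_⟩
      have hn1 : nx + c ≤ n := (le_max_left _ _).trans hn
      have hn2 : nM ≤ n := (le_max_right _ _).trans hn
      rcases le_or_gt (((x + 1 : ℕ) : ℤ) * b n) (v n s) with hge | hlt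
      · exact hnx n (by omega) s hs hge
      have hb0 : (0 : ℤ) ≤ b n := Int.natCast_nonneg _
      have hx0 : (0 : ℤ) ≤ (x : ℤ) * b n := mul_nonneg (Int.natCast_nonneg _) hb0
      obtain ⟨sL, hL, h3, h4, h5⟩ := hnM n hn2 s hs (by linarith)
        (by push_cast at hlt ⊢; linarith) (x + 1) le_rfl
      have h6 := hnx (n - c) (by omega) sL hL h3
      have h7 : x * b (n - c) ≤ x * b n := Nat.mul_le_mul_left _ (bmono n (by omega))
      obtain ⟨w, hw⟩ : ∃ w : ℕ, v (n - c) sL = w :=
        ⟨(v (n - c) sL).toNat, by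
          have : (0 : ℤ) ≤ ((x + 1 : ℕ) : ℤ) * b (n - c) := by positivity
          omega⟩
      rw [hw] at h3 h4 h5 h6
      have h3' : (x + 1) * b (n - c) ≤ w := by exact_mod_cast h3
      have h4' : w < (x + 1 + 1) * b (n - c) := by exact_mod_cast h4
      have h6' : g (n - c) sL ≤ w := by exact_mod_cast h6
      have e1 : (x + 1) * b (n - c) = x * b (n - c) + b (n - c) := by ring
      have e2 : (x + 1 + 1) * b (n - c) = x * b (n - c) + 2 * b (n - c) := by ring
      rw [e1] at h3'
      rw [e2] at h4'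
      have h8 := h5 (w - x * b (n - c)) (x * b (n - c)) (by omega) (by omega)
      have h9 : (v n s) - w + ((w - x * b (n - c) : ℕ) : ℤ) = v n s - (x * b (n - c) : ℕ) := by
        have : x * b (n - c) ≤ w := by omega
        push_cast [this]
        ring
      rw [h9] at h8
      have h10 : ((x * b (n - c) : ℕ) : ℤ) ≤ v n s := by
        have h11 : ((x * b (n - c) : ℕ) : ℤ) ≤ ((x * b n : ℕ) : ℤ) := by exact_mod_cast h7
        refine h11.trans ?_
        push_cast
        exact hv
      rw [max_eq_right (by linarith)] at h8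
      have h12 : (g n s : ℤ) - (x * b (n - c) : ℕ) ≤ ((g n s - x * b (n - c) : ℕ) : ℤ) := by
        omega
      linarith
  obtain ⟨nQ, hnQ⟩ := stepC D 0 (by omega)
  -- (d) negative virtual dimension
  refine ⟨max (nQ + c) nA, fun n hn s hs => ?_⟩
  have hn1 : nQ + c ≤ n := (le_max_left _ _).trans hn
  have hn2 : nA ≤ n := (le_max_right _ _).trans hn
  have hn0 : n0 ≤ n := by omega
  rcases le_or_gt 0 (v n s) with hpos | hneg
  · rw [max_eq_right hpos]
    exact hnQ n (by omega) s hs (by simpa using hpos)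
  · rw [max_eq_left hneg.le]
    obtain ⟨N, s0, hs0, htop⟩ := split_top top s
    have hPi : ∀ i, P n (replicate i top + s0) ↔ P n s0 := by
      intro i
      induction i with
      | zero => simp
      | succ i ih =>
        rw [Multiset.replicate_succ, Multiset.cons_add, Ptop, ih]
    have hVi : ∀ i : ℕ, v n (replicate i top + s0) = v n s0 - i * b n := by
      intro i
      induction i with
      | zero => simp
      | succ i ih =>
        rw [Multiset.replicate_succ, Multiset.cons_add, Vtop _ _ hn0, ih]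
        push_cast
        ring
    have hP0 : P n s0 := (hPi N).1 (hs0 ▸ hs)
    have h0 := OJ n s0 hn0 hP0 htop
    have hgi : ∀ i k, g n (replicate (i + k) top + s0) ≤ g n (replicate i top + s0) := by
      intro i k
      induction k with
      | zero => exact le_rfl
      | succ k ih =>
        refine le_trans ?_ ih
        have h3 := Ranti n (replicate (i + k) top + s0)
        rwa [← Multiset.cons_add, ← Multiset.replicate_succ] at h3
    have hbp : (0 : ℤ) < b n := by exact_mod_cast bpos n hn0
    have hv0 : 0 ≤ v n s0 := le_trans (Int.natCast_nonneg _) h0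
    obtain ⟨i, hi1, hi2⟩ : ∃ i : ℕ, (i : ℤ) * b n ≤ v n s0 ∧ v n s0 < (i + 1) * b n := by
      refine ⟨(v n s0 / b n).toNat, ?_, ?_⟩
      · have h3 : ((v n s0 / b n).toNat : ℤ) = v n s0 / b n :=
          Int.toNat_of_nonneg (Int.ediv_nonneg hv0 hbp.le)
        rw [h3]
        exact Int.ediv_mul_le _ hbp.ne'
      · have h3 : ((v n s0 / b n).toNat : ℤ) = v n s0 / b n :=
          Int.toNat_of_nonneg (Int.ediv_nonneg hv0 hbp.le)
        rw [h3]
        exact Int.lt_ediv_add_one_mul_self _ hbp
    have hvs : v n s = v n s0 - N * b n := by rw [hs0, hVi]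
    have hiN : i + 1 ≤ N := by
      by_contra h3
      push Not at h3
      have h4 : (N : ℤ) * b n ≤ i * b n := by
        refine mul_le_mul_of_nonneg_right ?_ hbp.le
        have : N ≤ i := by omega
        exact_mod_cast this
      linarith
    set s1 : Multiset K := replicate (i + 1) top + s0 with hs1
    have h4 : g n s ≤ g n s1 := by
      rw [hs0]
      have h5 := hgi (i + 1) (N - (i + 1))
      rwa [Nat.add_sub_cancel' hiN] at h5
    have hv1 : v n s1 = v n s0 - (i + 1) * b n := by
      rw [hs1, hVi]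
      push_cast
      ring
    obtain ⟨sL, hL, h5, h6, h7⟩ := hA n hn2 s1 ((hPi _).2 hP0) (by rw [hv1]; linarith)
      (by rw [hv1]; push_cast; linarith) 0 le_rfl
    have h8 := hnQ (n - c) (by omega) sL hL (by simpa using h5)
    obtain ⟨w, hw⟩ : ∃ w : ℕ, v (n - c) sL = w :=
      ⟨(v (n - c) sL).toNat, by
        have : (0 : ℤ) ≤ v (n - c) sL := by simpa using h5
        omega⟩
    rw [hw] at h6 h7 h8
    have h6' : w < b (n - c) := by
      have h9 : (w : ℤ) < b (n - c) := by simpa using h6
      exact_mod_cast h9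
    have h8' : g (n - c) sL ≤ w := by exact_mod_cast h8
    have h9 := h7 w 0 (by omega) (by omega)
    have h10 : v n s1 - w + w ≤ 0 := by rw [hv1]; linarith
    rw [max_eq_left h10] at h9
    have h11 : (g n s : ℤ) ≤ g n s1 := by exact_mod_cast h4
    rw [Nat.sub_zero] at h9
    exact h11.trans h9

end Pool.Agent.V7.ST

end
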