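import Pool.Agent.H94.LP7.M07
import Pool.Agent.H94.LP7.M106
import Pool.Agent.H94.LP7.M110
import Pool.Agent.H94.LP7.M22
import Pool.Agent.H94.LP7.M24

/-! The parts of this file: H21.NX.KillMu, H21.NX.LensA_1, H21.NX.Phase, H21.NX.Core, H21.NX.VDefs. -/

section

/-!
# Module KillMu: many general points of multiplicity `μ` kill everything

Proof.  Let `e = σ + 1 - μ`.  The forms of degree `e` are spanned by the powers `lin v ^ e`
(`PowSpanLX.span_all`), a space of dimension `ell (s + 1) (e + 1) = (Sx _ e).card ≤ f`; so there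
are `f` vectors `p i` such that the `lin (p i) ^ e` span all forms of degree `e`
(a spanning set contains a basis, e.g. `Submodule.exists_fun_fin_finrank_span_eq` or
`exists_linearIndependent`; the remaining `p i` are arbitrary).  Then every monomial of degree `σ`
is a product of a form of degree `μ - 1` and a form of degree `e`, so
`homogeneousSubmodule _ ℂ σ ≤ powSpan σ p (fun _ => σ + 1 - μ)`, and `fat_eq_bot_of_span`
(H21/HD/BridgeB) gives `finrank (fatForms ..) = 0`; `GI_of_fat`, `GM_iff`.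
-/

namespace Pool.Agent.H21.NX

open Finset Pool.Agent.H18.Ex

open MvPolynomial Pool.Agent.H21.HD in
/-- There are `f` vectors whose powers generate all forms of degree `σ`. -/
private theorem killMu_points (s e σ f : ℕ) (he : e ≤ σ)
    (hf : (s + 1 + e).choose e ≤ f) :
    ∃ p : Fin f → Fin (s + 2) → ℂ,
      homogeneousSubmodule (Fin (s + 2)) ℂ σ ≤ powSpan σ p (fun _ => e) := by
  obtain ⟨w, hw⟩ := pow_span (Fin (s + 2)) e
  have hcard : (Fintype.card (Fin (s + 2)) - 1 + e).choose e ≤ f := by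
    rw [Fintype.card_fin, show s + 2 - 1 = s + 1 by omega]
    exact hf
  refine ⟨fun i => if hi : (i : ℕ) < (Fintype.card (Fin (s + 2)) - 1 + e).choose e then w ⟨i, hi⟩
    else 0, ?_⟩
  apply powSpan_up e σ he
  refine hw.trans ?_
  rw [Submodule.span_le]
  rintro _ ⟨k, rfl⟩
  refine Submodule.subset_span ⟨⟨k, lt_of_lt_of_le k.2 hcard⟩, 1, le_refl _, ?_, ?_⟩
  · rw [Nat.sub_self]
    exact isHomogeneous_one _ _
  · show lin (w k) ^ e = 1 * lin (dite ((k : ℕ) < _) _ _) ^ e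
    rw [dif_pos k.2, one_mul]

theorem kill_mu (s μ σ f : ℕ) (hμ : 1 ≤ μ) (h : μ ≤ σ + 1)
    (hf : ell (s + 1) (σ + 2 - μ) ≤ f) :
    GM (Sx (Fin (s + 2)) σ) (Multiset.replicate f (Kind.free μ)) := by
  have hf' : (s + 1 + (σ + 1 - μ)).choose (σ + 1 - μ) ≤ f := by
    refine le_trans (le_of_eq ?_) hf
    unfold ell
    rw [show σ + 2 - μ + (s + 1) - 1 = s + 1 + (σ + 1 - μ) by omega]
    exact Nat.choose_symm_of_eq_add (by omega)
  obtain ⟨p, hp⟩ := killMu_points s (σ + 1 - μ) σ f (by omega) hf'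
  have h1 := Pool.Agent.H21.HD.fat_eq_bot_of_span (r := s + 1) σ p (fun _ => μ) hp
  have h2 := GI_of_fat (n := s + 1) (d := σ) p (fun _ => μ) h1
  have h3 := (GM_iff (Sx (Fin (s + 2)) σ) (fun _ : Fin f => Kind.free μ)).mpr h2
  rw [Multiset.map_const', Finset.card_val, Finset.card_univ, Fintype.card_fin] at h3
  exact h3

end Pool.Agent.H21.NX

end

section

/-!
# Module LensA: lengths and bounds for the Horace step (only multiset arithmetic and `ell`)

Facts about `ell` (H18/Ex/Ell): `ell_zero`, `ell_one`, `ell_mono`, `ell_pos`, `ell_succ`.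
-/

namespace Pool.Agent.H21.NX

open Finset Pool.Agent.H18.Ex

theorem OKF_nxt {B B' : ℕ} {Φ : Multiset (ℕ × ℕ)} {N0 : Multiset ℕ} {μ α ρ : ℕ}
    (hΦ : OKF B Φ) (hN0 : ∀ m ∈ N0, m ≤ B) (hB : B ≤ B' + 1) (hμ : μ ≤ B' + 1)
    (hρ : ρ = 0 ∨ μ ≤ B') : OKF B' (nxt Φ N0 μ α ρ) := by
  intro y hy
  unfold nxt at hy
  rw [Multiset.mem_filter, Multiset.mem_add, Multiset.mem_add, Multiset.mem_add,
    Multiset.mem_map, Multiset.mem_map, Multiset.mem_replicate, Multiset.mem_replicate] at hy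
  obtain ⟨((⟨x, hx, rfl⟩ | ⟨m, hm, rfl⟩) | ⟨hα, rfl⟩) | ⟨hρ', rfl⟩, h2⟩ := hy
  · have h := hΦ x hx
    simp only at h2 ⊢
    omega
  · have h := hN0 m hm
    simp only at h2 ⊢
    omega
  · simp only at h2 ⊢
    omega
  · simp only at h2 ⊢
    omega

theorem fl_filter (s : ℕ) (S : Multiset (ℕ × ℕ)) :
    fl s (S.filter fun x : ℕ × ℕ => x.2 ≤ x.1) = (S.map (wgt s)).sum := by
  induction S using Multiset.induction_on with
  | empty => rfl
  | cons a S ih =>
    rw [Multiset.map_cons, Multiset.sum_cons, ← ih]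
    by_cases h : a.2 ≤ a.1
    · rw [Multiset.filter_cons_of_pos (p := fun x : ℕ × ℕ => x.2 ≤ x.1) S h, wgt, if_pos h, fl,
        Multiset.map_cons, Multiset.sum_cons]
      rfl
    · rw [Multiset.filter_cons_of_neg (p := fun x : ℕ × ℕ => x.2 ≤ x.1) S h, wgt, if_neg h,
        zero_add]

/-- Lengths: the total length drops by the length of the trace. -/
theorem fl_nxt {B : ℕ} {Φ : Multiset (ℕ × ℕ)} {N0 : Multiset ℕ} {μ α ρ : ℕ} (s : ℕ)
    (hs : 1 ≤ s) (hΦ : OKF B Φ) (hN0 : ∀ m ∈ N0, 1 ≤ m) (hμ : 1 ≤ μ) (hρ : ρ = 0 ∨ 2 ≤ μ) :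
    fl s (nxt Φ N0 μ α ρ) + (tl s Φ + tot s N0 + α * ell s μ + ρ) =
      fl s Φ + tot (s + 1) N0 + (α + ρ) * ell (s + 1) μ := by
  unfold nxt
  rw [fl_filter]
  simp only [Multiset.map_add, Multiset.sum_add, Multiset.map_map, Multiset.map_replicate,
    Multiset.sum_replicate, smul_eq_mul]
  have h1 : (Φ.map (wgt s ∘ fun x : ℕ × ℕ => (x.1 - 1, x.2))).sum + tl s Φ = fl s Φ := by
    unfold tl fl
    rw [← Multiset.sum_map_add]
    refine congrArg _ (Multiset.map_congr rfl fun x hx => ?_)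
    have h := hΦ x hx
    exact wgt_here s x.1 x.2 h.1 h.2.1 h.2.2.1
  have h2 : (N0.map (wgt s ∘ fun m => (m - 1, 1))).sum + tot s N0 = tot (s + 1) N0 := by
    unfold tot
    rw [← Multiset.sum_map_add]
    refine congrArg _ (Multiset.map_congr rfl fun m hm => ?_)
    exact wgt_here s m 1 le_rfl (by omega) (hN0 m hm)
  have h3 : α * wgt s (μ - 1, 1) + α * ell s μ = α * ell (s + 1) μ := by
    rw [← mul_add, wgt_here s μ 1 le_rfl (by omega) hμ, Nat.add_sub_cancel]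
  have h4 : ρ * wgt s (μ, 2) + ρ = ρ * ell (s + 1) μ := by
    rcases hρ with h | h
    · rw [h]
      simp
    · unfold wgt
      rw [if_pos h]
      simp only
      have h5 := ell_pos (s + 1) hμ
      calc ρ * (ell (s + 1) μ + 1 - 2) + ρ = ρ * ((ell (s + 1) μ + 1 - 2) + 1) := by ring
        _ = ρ * ell (s + 1) μ := by
            congr 1
            omega
  rw [add_mul]
  omega

theorem tl_filter_le (s : ℕ) (S : Multiset (ℕ × ℕ)) :
    tl s (S.filter fun x : ℕ × ℕ => x.2 ≤ x.1) ≤ tl s S := by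
  induction S using Multiset.induction_on with
  | empty => exact le_rfl
  | cons a S ih =>
    have h2 : tl s (a ::ₘ S) = ell s a.1 + tl s S := by
      rw [tl, Multiset.map_cons, Multiset.sum_cons]
      rfl
    by_cases h : a.2 ≤ a.1
    · rw [Multiset.filter_cons_of_pos (p := fun x : ℕ × ℕ => x.2 ≤ x.1) S h, h2, tl,
        Multiset.map_cons, Multiset.sum_cons]
      exact Nat.add_le_add_left ih _
    · rw [Multiset.filter_cons_of_neg (p := fun x : ℕ × ℕ => x.2 ≤ x.1) S h, h2]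
      omega

theorem tl_add (s : ℕ) (S T : Multiset (ℕ × ℕ)) : tl s (S + T) = tl s S + tl s T := by
  simp only [tl, Multiset.map_add, Multiset.sum_add]

theorem tl_replicate (s n : ℕ) (x : ℕ × ℕ) :
    tl s (Multiset.replicate n x) = n * ell s x.1 := by
  simp only [tl, Multiset.map_replicate, Multiset.sum_replicate, smul_eq_mul]

/-- The new traces. -/
theorem tl_nxt {B : ℕ} {Φ : Multiset (ℕ × ℕ)} {N0 : Multiset ℕ} {μ α ρ : ℕ} (s x : ℕ)
    (hs : 1 ≤ s) (hΦ : OKF B Φ) (hN0 : ∀ m ∈ N0, m ≤ B) (hμ : μ ≤ x + 1) (hB : B ≤ x + 1) :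
    (x + s) * tl s (nxt Φ N0 μ α ρ) ≤
      x * (tl s Φ + tot s N0 + α * ell s μ) + (x + s) * (ρ * ell s μ) := by
  have h1 : (x + s) * tl s (Φ.map fun y : ℕ × ℕ => (y.1 - 1, y.2)) ≤ x * tl s Φ := by
    unfold tl
    rw [Multiset.map_map, ← Multiset.sum_map_mul_left, ← Multiset.sum_map_mul_left]
    refine Multiset.sum_map_le_sum_map _ _ fun y hy => ?_
    have h := hΦ y hy
    exact ell_pred_le s y.1 x hs (by omega)
  have h2 : (x + s) * tl s (N0.map fun m => (m - 1, 1)) ≤ x * tot s N0 := by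
    unfold tl tot
    rw [Multiset.map_map, ← Multiset.sum_map_mul_left, ← Multiset.sum_map_mul_left]
    refine Multiset.sum_map_le_sum_map _ _ fun y hy => ?_
    have h := hN0 y hy
    exact ell_pred_le s y x hs (by omega)
  have h3 : (x + s) * (α * ell s (μ - 1)) ≤ x * (α * ell s μ) := by
    have := Nat.mul_le_mul_left α (ell_pred_le s μ x hs hμ)
    calc (x + s) * (α * ell s (μ - 1)) = α * ((x + s) * ell s (μ - 1)) := by ring
      _ ≤ α * (x * ell s μ) := this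
      _ = x * (α * ell s μ) := by ring
  unfold nxt
  refine (Nat.mul_le_mul_left _ (tl_filter_le s _)).trans ?_
  rw [tl_add, tl_add, tl_add, tl_replicate, tl_replicate]
  simp only
  rw [mul_add, mul_add, mul_add, mul_add, mul_add]
  omega

end Pool.Agent.H21.NX

end

section

/-!
# Module Phase: the Horace steps with the main batch
-/

namespace Pool.Agent.H21.NX

open Finset Pool.Agent.H18.Ex

theorem fk_add {ι : Type} (l : ι) (Φ Φ' : Multiset (ℕ × ℕ)) : fk l (Φ + Φ') = fk l Φ + fk l Φ' :=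
  Multiset.map_add _ _ _

theorem fk_replicate {ι : Type} (l : ι) (a c e : ℕ) :
    fk l (Multiset.replicate a (c, e)) = Multiset.replicate a (Kind.forced l c e) :=
  Multiset.map_replicate _ _ _

theorem tlr (s a c e : ℕ) : tl s (Multiset.replicate a (c, e)) = a * ell s c := by
  unfold tl
  rw [Multiset.map_replicate, Multiset.sum_replicate, smul_eq_mul]

theorem tot_zero (n : ℕ) : tot n 0 = 0 := rfl

theorem tot_fst (s : ℕ) (Φ : Multiset (ℕ × ℕ)) : tot s (Φ.map Prod.fst) = tl s Φ := by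
  unfold tot tl
  rw [Multiset.map_map]
  rfl

theorem Bc_ge (M μ c : ℕ) : μ ≤ Bc M μ c := le_max_right _ _

theorem Num.ell_step {d s μ M A : ℕ} (hn : Num d s μ M A) : 1 ≤ s := by
  have := hn.hds
  omega

/-- The bound for the number of the remaining points at the end. -/
theorem f_bound {d s μ M A : ℕ} (hn : Num d s μ M A) (Ψ : Multiset (ℕ × ℕ)) (a f : ℕ)
    (hΨ : OKF (Bc M μ 1) Ψ)
    (hT1 : ell (s + 1) (d - μ + 1 + 1) ≤
      fl s Ψ + a * ell (s + 1) 1 + f * ell (s + 1) μ)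
    (hload : 4 * (d + 1) * (tl s Ψ + a * ell s 1) ≤
      (4 * (d + 1) - 1) * ell s (d - μ + 1 + 1)) :
    ell (s + 1) (d + 2 - 2 * μ) ≤ f := by
  have hs := hn.ell_step
  have h1 := hn.h2
  have h2 := hn.hμ
  have h3 := hn.hμM
  have hB1 : 1 ≤ Bc M μ 1 := le_trans (by omega) (Bc_ge M μ 1)
  have hB : Bc M μ 1 ≤ d - μ + 1 + 1 := by
    unfold Bc
    omega
  have hZ : (s + 1) * (fl s Ψ + a * ell (s + 1) 1) ≤
      (Bc M μ 1 + s) * (tl s Ψ + a * ell s 1) := by
    have e1 := fl_le_tl s hs hΨ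
    have e2 : (s + 1) * (a * ell (s + 1) 1) ≤ (Bc M μ 1 + s) * (a * ell s 1) := by
      calc (s + 1) * (a * ell (s + 1) 1) = a * ((s + 1) * ell (s + 1) 1) := by ring
        _ = a * ((1 + s) * ell s 1) := by rw [ell_succ_mul s 1 hs]
        _ ≤ a * ((Bc M μ 1 + s) * ell s 1) :=
            Nat.mul_le_mul_left _ (Nat.mul_le_mul_right _ (by omega))
        _ = _ := by ring
    rw [Nat.mul_add, Nat.mul_add]
    exact Nat.add_le_add e1 e2
  have hK : 4 * (d + 1) = (4 * (d + 1) - 1) + 1 := by omega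
  have e3 := rest_arith s (d - μ + 1 + 1) (Bc M μ 1) f (tl s Ψ + a * ell s 1)
    (fl s Ψ + a * ell (s + 1) 1) (ell s (d - μ + 1 + 1)) (ell (s + 1) (d - μ + 1 + 1))
    (ell (s + 1) μ) (4 * (d + 1) - 1) (ell_succ_mul s _ hs) hT1 hZ (by rw [← hK]; exact hload)
    hB hB1
  rw [← hK] at e3
  have e4 := hn.f2
  rw [show d - μ + 2 = d - μ + 1 + 1 by omega] at e4
  have e5 : 0 < 4 * (d + 1) * ell (s + 1) μ := Nat.mul_pos (by omega) (ell_pos _ (by omega))
  have e6 : 4 * (d + 1) * ell (s + 1) μ * (2 * ell (s + 1) (d + 2 - 2 * μ)) ≤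
      4 * (d + 1) * ell (s + 1) μ * f := by
    calc 4 * (d + 1) * ell (s + 1) μ * (2 * ell (s + 1) (d + 2 - 2 * μ)) =
        8 * (d + 1) * ell (s + 1) μ * ell (s + 1) (d + 2 - 2 * μ) := by ring
      _ ≤ ell s (d - μ + 1 + 1) := e4
      _ ≤ 4 * (d + 1) * (f * ell (s + 1) μ) := e3
      _ = _ := by ring
  have e7 := Nat.le_of_mul_le_mul_left e6 e5
  omega

/-- The choice of the numbers in a step: `Δ = E0 - τ` is the room. -/
theorem choose_arith (Δ W Eμ : ℕ) (hE : 1 ≤ Eμ) (hW : W ≤ Δ) :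
    ∃ α ρ, α * Eμ + ρ = Δ ∧ W ≤ ρ ∧ ρ ≤ W + Eμ ∧ (Δ - W) / Eμ = α := by
  refine ⟨(Δ - W) / Eμ, Δ - (Δ - W) / Eμ * Eμ, ?_, ?_, ?_, rfl⟩
  · have := Nat.div_mul_le_self (Δ - W) Eμ
    omega
  · have := Nat.div_mul_le_self (Δ - W) Eμ
    omega
  · have := Nat.lt_div_mul_add (a := Δ - W) (b := Eμ) (by omega)
    omega

end Pool.Agent.H21.NX

end

section

/-!
# Module Core: many points of multiplicity `μ`
-/

namespace Pool.Agent.H21.NX

open Finset Pool.Agent.H18.Ex

theorem tot_cons (n a : ℕ) (S : Multiset ℕ) : tot n (a ::ₘ S) = ell n a + tot n S := by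
  unfold tot
  rw [Multiset.map_cons, Multiset.sum_cons]

/-- Greedy choice of a sub-multiset. -/
theorem greedy (n M x T : ℕ) (hx : x ≤ T) (R : Multiset ℕ) :
    (∀ m ∈ R, m ≤ M) → T ≤ x + tot n R →
      ∃ R' ≤ R, T ≤ x + tot n R' ∧ x + tot n R' ≤ T + ell n M := by
  induction R using Multiset.induction_on with
  | empty =>
    intro _ hT
    refine ⟨0, le_rfl, hT, ?_⟩
    rw [tot_zero]
    omega
  | cons a R ih =>
    intro hM hT
    by_cases h : T ≤ x + tot n R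
    · obtain ⟨R', h1, h2, h3⟩ := ih (fun m hm => hM m (Multiset.mem_cons_of_mem hm)) h
      exact ⟨R', le_trans h1 (Multiset.le_cons_self _ _), h2, h3⟩
    · refine ⟨_, le_rfl, hT, ?_⟩
      rw [tot_cons]
      have := ell_mono n (hM a (Multiset.mem_cons_self _ _))
      omega

theorem tot_filter_pos (n : ℕ) (hn : 1 ≤ n) (S : Multiset ℕ) :
    tot n (S.filter (1 ≤ ·)) = tot n S := by
  induction S using Multiset.induction_on with
  | empty => rfl
  | cons a S ih =>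
    by_cases h : 1 ≤ a
    · rw [Multiset.filter_cons_of_pos _ h, tot_cons, tot_cons, ih]
    · rw [Multiset.filter_cons_of_neg _ h, tot_cons, ih, show a = 0 by omega, ell_zero hn,
        Nat.zero_add]

end Pool.Agent.H21.NX

end

section

/-!
# Module VDefs: the version for every dimension, numerical conditions
-/

namespace Pool.Agent.H21.NX

open Finset Pool.Agent.H18.Ex

/-- The numerical conditions, every dimension. -/
structure VNum (s M D0 : ℕ) : Prop where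
  hM : 1 ≤ M
  s1 : 1 ≤ s
  hD : 16 * M ≤ D0
  room : 16 * M * ell (s + 1) M ^ 3 ≤ ell s D0

/-- The excess needed on the hyperplane in the overfull case. -/
def WW (s M : ℕ) : ℕ := GG s M * ell s M

/-- The base case of the overfull peeling. -/
def base (s M D0 : ℕ) : ℕ := ell (s + 1) D0 * ell (s + 1) M + M * ell s D0

namespace VNum

variable {s M D0 : ℕ} (h : VNum s M D0)

include h

theorem F1 : 1 ≤ ell (s + 1) M := ell_pos _ h.hM

theorem E1 : 1 ≤ ell s M := ell_pos _ h.hM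

theorem EF : ell s M ≤ ell (s + 1) M := ell_le_succ s M h.s1

theorem GG_le : GG s M ≤ 2 * ell (s + 1) M ^ 2 := by
  have h1 := h.E1
  have h2 := h.EF
  unfold GG
  have h3 : ell s M ^ 2 ≤ ell (s + 1) M ^ 2 := Nat.pow_le_pow_left h2 2
  have h4 : ell s M ≤ ell (s + 1) M ^ 2 := by nlinarith
  omega

theorem roomS {S : ℕ} (hS : D0 ≤ S) : 16 * M * ell (s + 1) M ^ 3 ≤ ell s S :=
  le_trans h.room (ell_mono _ hS)

/-- `2 * M * E(M)^2 ≤ E(S)`. -/
theorem r1 {S : ℕ} (hS : D0 ≤ S) : 2 * M * ell s M ^ 2 ≤ ell s S := by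
  refine le_trans ?_ (h.roomS hS)
  have h1 := h.F1
  have h2 := h.EF
  have h3 : ell s M ^ 2 ≤ ell (s + 1) M ^ 2 := Nat.pow_le_pow_left h2 2
  calc 2 * M * ell s M ^ 2 ≤ 2 * M * ell (s + 1) M ^ 2 := Nat.mul_le_mul_left _ h3
    _ = 2 * M * (ell (s + 1) M ^ 2 * 1) := by ring
    _ ≤ 16 * M * (ell (s + 1) M ^ 2 * ell (s + 1) M) :=
        Nat.mul_le_mul (Nat.mul_le_mul_right _ (by omega)) (Nat.mul_le_mul_left _ h1)
    _ = _ := by ring

/-- `4 * M * (G * E(M)) ≤ E(S)`. -/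
theorem r2 {S : ℕ} (hS : D0 ≤ S) : 4 * M * (GG s M * ell s M) ≤ ell s S := by
  refine le_trans ?_ (h.roomS hS)
  calc 4 * M * (GG s M * ell s M) ≤ 4 * M * (2 * ell (s + 1) M ^ 2 * ell (s + 1) M) :=
        Nat.mul_le_mul_left _ (Nat.mul_le_mul h.GG_le h.EF)
    _ = 8 * M * ell (s + 1) M ^ 3 := by ring
    _ ≤ _ := Nat.mul_le_mul_right _ (Nat.mul_le_mul_right _ (by omega))

/-- `2 * M * G * E(M) ≤ E(S)`. -/
theorem r3 {S : ℕ} (hS : D0 ≤ S) : 2 * (M * GG s M * ell s M) ≤ ell s S := by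
  refine le_trans ?_ (h.r2 hS)
  calc 2 * (M * GG s M * ell s M) = 2 * M * (GG s M * ell s M) := by ring
    _ ≤ _ := Nat.mul_le_mul_right _ (Nat.mul_le_mul_right _ (by omega))

/-- `4 * M * (W + E(M)) ≤ E(S)`. -/
theorem r4 {S : ℕ} (hS : D0 ≤ S) : 4 * M * (WW s M + ell s M) ≤ ell s S := by
  refine le_trans ?_ (h.roomS hS)
  have h1 := h.F1
  have h2 := h.EF
  have h3 : ell s M ≤ ell (s + 1) M ^ 3 := by
    calc ell s M ≤ ell (s + 1) M := h2
      _ = ell (s + 1) M ^ 1 := (pow_one _).symm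
      _ ≤ _ := Nat.pow_le_pow_right h1 (by omega)
  have h4 : WW s M ≤ 2 * ell (s + 1) M ^ 3 := by
    unfold WW
    calc GG s M * ell s M ≤ 2 * ell (s + 1) M ^ 2 * ell (s + 1) M :=
          Nat.mul_le_mul h.GG_le h.EF
      _ = _ := by ring
  calc 4 * M * (WW s M + ell s M) ≤ 4 * M * (2 * ell (s + 1) M ^ 3 + ell (s + 1) M ^ 3) :=
        Nat.mul_le_mul_left _ (Nat.add_le_add h4 h3)
    _ = 12 * M * ell (s + 1) M ^ 3 := by ring
    _ ≤ _ := Nat.mul_le_mul_right _ (Nat.mul_le_mul_right _ (by omega))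

/-- `E(M)^2 ≤ E(S) - load`. -/
theorem below {S x : ℕ} (hS : D0 ≤ S) (hx : 2 * M * x ≤ (2 * M - 1) * ell s S) :
    x + ell s M ^ 2 ≤ ell s S := by
  have h1 := h.r1 hS
  have hM := h.hM
  have hpos : 0 < 2 * M := by omega
  refine Nat.le_of_mul_le_mul_left ?_ hpos
  have h2 : (2 * M - 1) * ell s S + ell s S = 2 * M * ell s S := by
    obtain ⟨K, hK⟩ : ∃ K, 2 * M = K + 1 := ⟨2 * M - 1, by omega⟩
    rw [hK, Nat.add_sub_cancel]
    ring
  calc 2 * M * (x + ell s M ^ 2) = 2 * M * x + 2 * M * ell s M ^ 2 := by ring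
    _ ≤ (2 * M - 1) * ell s S + ell s S := Nat.add_le_add hx h1
    _ = _ := h2

/-- The new load. -/
theorem load {S t e : ℕ} (hS : D0 + 1 ≤ S)
    (ht : (M - 1 + s) * t ≤ (M - 1) * ell s S + (M - 1 + s) * e)
    (he : 4 * M * e ≤ ell s (S - 1)) : 2 * M * t ≤ (2 * M - 1) * ell s (S - 1) := by
  have h1 := h.s1
  have h2 := h.hD
  have h3 := h.hM
  obtain ⟨k, rfl⟩ : ∃ k, S = k + 1 := ⟨S - 1, by omega⟩
  rw [Nat.add_sub_cancel] at he ⊢
  have hrel : ell s k * (k + s) = ell s (k + 1) * k := ell_mul_add s k h.s1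
  have hk : 0 < k := by omega
  obtain ⟨x, rfl⟩ : ∃ x, M = x + 1 := ⟨M - 1, by omega⟩
  rw [Nat.add_sub_cancel] at ht
  rw [show 2 * (x + 1) - 1 = 2 * x + 1 by omega]
  have hpos : 0 < 2 * (k * (x + s)) := Nat.mul_pos (by omega) (Nat.mul_pos hk (by omega))
  refine Nat.le_of_mul_le_mul_left ?_ hpos
  have e1 : 2 * (k * (x + s)) * (2 * (x + 1) * t) ≤
      (4 * (x + 1) * (x * (k + s)) + k * (x + s)) * ell s k := by
    calc 2 * (k * (x + s)) * (2 * (x + 1) * t) = 4 * (x + 1) * k * ((x + s) * t) := by ring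
      _ ≤ 4 * (x + 1) * k * (x * ell s (k + 1) + (x + s) * e) := Nat.mul_le_mul_left _ ht
      _ = 4 * (x + 1) * x * (ell s (k + 1) * k) + k * (x + s) * (4 * (x + 1) * e) := by ring
      _ ≤ 4 * (x + 1) * x * (ell s (k + 1) * k) + k * (x + s) * ell s k :=
          Nat.add_le_add_left (Nat.mul_le_mul_left _ he) _
      _ = 4 * (x + 1) * x * (ell s k * (k + s)) + k * (x + s) * ell s k := by rw [hrel]
      _ = _ := by ring
  have e2 : 4 * (x + 1) * (x * (k + s)) + k * (x + s) ≤ 2 * (k * (x + s)) * (2 * x + 1) := by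
    obtain ⟨y, rfl⟩ : ∃ y, s = y + 1 := ⟨s - 1, by omega⟩
    obtain ⟨j, rfl⟩ : ∃ j, k = 4 * x + j := ⟨k - 4 * x, by omega⟩
    -- 3 k (x + s) ≤ 4 M s (k - x)
    have e3 : 3 * ((4 * x + j) * (x + (y + 1))) ≤
        4 * (x + 1) * ((y + 1) * (3 * x + j)) := by
      have e4 : x + (y + 1) ≤ (x + 1) * (y + 1) := by nlinarith [Nat.zero_le (x * y)]
      calc 3 * ((4 * x + j) * (x + (y + 1))) ≤ 3 * ((4 * x + j) * ((x + 1) * (y + 1))) :=
            Nat.mul_le_mul_left _ (Nat.mul_le_mul_left _ e4)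
        _ = (12 * x + 3 * j) * ((x + 1) * (y + 1)) := by ring
        _ ≤ (12 * x + 4 * j) * ((x + 1) * (y + 1)) := Nat.mul_le_mul_right _ (by omega)
        _ = _ := by ring
    nlinarith [e3]
  calc 2 * (k * (x + s)) * (2 * (x + 1) * t) ≤
      (4 * (x + 1) * (x * (k + s)) + k * (x + s)) * ell s k := e1
    _ ≤ (2 * (k * (x + s)) * (2 * x + 1)) * ell s k := Nat.mul_le_mul_right _ e2
    _ = _ := by ring

end VNum

end Pool.Agent.H21.NX

end
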