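import Pool.Agent.H94.LP7.M109
import Pool.Agent.H94.LP7.M111

/-! The parts of this file: H21.NX.Stage, H21.NX.PeelAll, H21.NX.VPeel. -/

section

/-!
# Module Stage: one Horace step along `x_l = 0`

Proof of `stage`: `GM.step` (H18/Ex/Multi) with the multiset of roles
`Φ.map (here c e) + N0.map ord + replicate α (ord μ) + replicate ρ dif +
replicate f (stay (free μ))`, `A = Sx σ`, `A' = Sx (σ - 1)` (`Sx_resid`).  Its `before` is the
given multiset of conditions; its layers are `trc Φ N0 μ α ρ` and `f` zeros (`trace_GM`, applied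
to `trc Φ N0 μ α ρ`, and `GM.mono`); its `after` contains `fk l (nxt Φ N0 μ α ρ)` and
`replicate f (free μ)` (`GM.mono`; the filter in `nxt` only removes conditions).
-/

namespace Pool.Agent.H21.NX

open Finset Pool.Agent.H18.Ex

namespace StageX

/-- The roles. -/
def roles {ι : Type} (Φ : Multiset (ℕ × ℕ)) (N0 : Multiset ℕ) (μ α ρ f : ℕ) :
    Multiset (Role ι) :=
  Φ.map (fun x => Role.here x.1 x.2) + N0.map Role.ord + Multiset.replicate α (Role.ord μ) +
    Multiset.replicate ρ Role.dif + Multiset.replicate f (Role.stay (Kind.free μ))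

theorem roles_before {ι : Type} (l : ι) (Φ : Multiset (ℕ × ℕ)) (N0 : Multiset ℕ)
    (μ α ρ f : ℕ) :
    (roles Φ N0 μ α ρ f).map (Role.before l μ) = fk l Φ + N0.map Kind.free +
      Multiset.replicate (α + ρ + f) (Kind.free μ) := by
  unfold roles fk
  simp only [Multiset.map_add, Multiset.map_map, Multiset.map_replicate, Multiset.replicate_add]
  have e1 : (Role.before l μ ∘ fun x : ℕ × ℕ => Role.here x.1 x.2) =
      fun x : ℕ × ℕ => Kind.forced l x.1 x.2 := rfl
  have e2 : (Role.before l μ ∘ (Role.ord : ℕ → Role ι)) = (Kind.free : ℕ → Kind ι) := rfl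
  have e3 : Role.before l μ (Role.ord μ : Role ι) = Kind.free μ := rfl
  have e4 : Role.before l μ (Role.dif : Role ι) = Kind.free μ := rfl
  have e5 : Role.before l μ (Role.stay (Kind.free μ) : Role ι) = Kind.free μ := rfl
  rw [e1, e2, e3, e4, e5]
  simp only [add_assoc]

theorem roles_layer {ι : Type} (Φ : Multiset (ℕ × ℕ)) (N0 : Multiset ℕ) (μ α ρ f : ℕ)
    (hΦ : ∀ x ∈ Φ, x.2 ≤ x.1) :
    ((trc Φ N0 μ α ρ).map (Kind.free : ℕ → Kind ι)) ≤
      (roles Φ N0 μ α ρ f).map (fun r : Role ι => (Kind.free r.layer : Kind ι)) := by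
  unfold roles trc
  simp only [Multiset.map_add, Multiset.map_map, Multiset.map_replicate]
  refine le_trans (le_of_eq ?_) (Multiset.le_add_right _ _)
  have e1 : Multiset.map ((Kind.free : ℕ → Kind ι) ∘ Prod.fst) Φ =
      Multiset.map ((fun r : Role ι => (Kind.free r.layer : Kind ι)) ∘
        fun x : ℕ × ℕ => Role.here x.1 x.2) Φ := by
    refine Multiset.map_congr rfl fun x hx => ?_
    have h := hΦ x hx
    simp only [Function.comp, Role.layer, h, if_true]
  rw [e1]
  rfl

theorem roles_after {ι : Type} (l : ι) (Φ : Multiset (ℕ × ℕ)) (N0 : Multiset ℕ)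
    (μ α ρ f : ℕ) :
    fk l (nxt Φ N0 μ α ρ) + Multiset.replicate f (Kind.free μ) ≤
      (roles Φ N0 μ α ρ f).map (Role.after l μ) := by
  have h1 : fk l (nxt Φ N0 μ α ρ) ≤ fk l
      (Φ.map (fun x : ℕ × ℕ => (x.1 - 1, x.2)) + N0.map (fun m => (m - 1, 1)) +
        Multiset.replicate α (μ - 1, 1) + Multiset.replicate ρ (μ, 2)) :=
    Multiset.map_le_map (Multiset.filter_le _ _)
  refine le_trans (add_le_add h1 le_rfl) (le_of_eq ?_)
  unfold roles fk
  simp only [Multiset.map_add, Multiset.map_map, Multiset.map_replicate]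
  rfl

end StageX

theorem stage (s : ℕ) (hs : 1 ≤ s) (l : Fin (s + 2)) (σ : ℕ) (hσ : 1 ≤ σ)
    (Φ : Multiset (ℕ × ℕ)) (N0 : Multiset ℕ) (μ α ρ f M : ℕ) (hμ : 1 ≤ μ)
    (hΦ : ∀ x ∈ Φ, x.2 ≤ x.1) (hM : ∀ t ∈ trc Φ N0 μ α ρ, t ≤ M)
    (hc : ∀ t ∈ trc Φ N0 μ α ρ, 2 ≤ t → tot s ((trc Φ N0 μ α ρ).filter (t ≤ ·)) +
      (ell s t - 1) * (ell s M - 1) ≤ ell s (σ + 1))
    (ht : ell s (σ + 1) ≤ tl s Φ + tot s N0 + α * ell s μ + ρ)
    (h1 : GM (Sx (Fin (s + 2)) (σ - 1)) (fk l (nxt Φ N0 μ α ρ) +
      Multiset.replicate f (Kind.free μ))) :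
    GM (Sx (Fin (s + 2)) σ) (fk l Φ + N0.map Kind.free +
      Multiset.replicate (α + ρ + f) (Kind.free μ)) := by
  rw [← StageX.roles_before l Φ N0 μ α ρ f]
  refine GM.step (Sx (Fin (s + 2)) σ) (Sx (Fin (s + 2)) (σ - 1)) l (Sx_resid σ hσ l) μ hμ _
    ?_ ?_ ?_
  · intro k hk
    have hk' : k = Kind.free μ := by
      unfold StageX.roles at hk
      simp only [Multiset.mem_add, Multiset.mem_map, Multiset.mem_replicate] at hk
      rcases hk with (((⟨x, _, hx⟩ | ⟨x, _, hx⟩) | ⟨_, hx⟩) | ⟨_, hx⟩) | ⟨_, hx⟩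
      · cases hx
      · cases hx
      · cases hx
      · cases hx
      · cases hx
        rfl
    rw [hk']
    trivial
  · refine GM.mono (StageX.roles_layer Φ N0 μ α ρ f hΦ) ?_
    refine trace_GM s σ hs l (trc Φ N0 μ α ρ) M hM hc ?_
    refine le_trans ht (le_of_eq ?_)
    unfold tot trc tl
    simp only [Multiset.map_add, Multiset.sum_add, Multiset.map_map, Multiset.map_replicate,
      Multiset.sum_replicate, smul_eq_mul, ell_one, mul_one]
    rfl
  · exact GM.mono (StageX.roles_after l Φ N0 μ α ρ f) h1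

end Pool.Agent.H21.NX

end

section

/-!
# Module PeelAll: complete peeling with many free simple points

Proof of `peel_all`: induction on `B`.  If `B = 0` then `Φ = 0` and `N0 = 0`, and `GM.of_card`
with `card_Sx`.  In the step let `q = ell s S - tl s Φ - tot s N0`.  If `S = 1` then `B = 1` and
`ell s 1 = 1` forces `Φ = 0`, `N0 = 0` (all their lengths are positive), and `GM.of_card` again.
Otherwise apply `stage` with `μ = 1`, `α = q`, `ρ = 0`, `f = p - q`, `M = B`, `σ = S - 1`
(`window_cond'`), and the induction hypothesis to `nxt Φ N0 1 q 0` (`OKF_nxt`), `N0 = 0`, `S - 1`.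
* `q ≤ p`: `(s + 1) * (fl Φ + tot (s + 1) N0) ≤ (B + s) * τ` with `τ = tl Φ + tot s N0`
  (`fl_le_tl`, `tot_succ_le`) and `(s + 1) * ell (s + 1) S = (S + s) * ell s S` (`ell_succ_mul`),
  so `(s + 1) p ≥ (S + s) ell s S - (B + s) τ ≥ (s + 1) (ell s S - τ)` since `τ ≤ ell s S`,
  `B ≤ S`.
* lengths: `fl_nxt` and `ell (s + 1) S = ell (s + 1) (S - 1) + ell s S`.
* traces: with `x = B - 1`, `tl_nxt` gives `(x + s) * τ' ≤ x * (τ + q * ell s 1) ≤ ...`; careful:
  the simple points disappear, so use `tl_nxt` only for the part without them, that is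
  `nxt Φ N0 1 q 0 = nxt Φ N0 1 0 0`; so `(x + s) τ' ≤ x τ`, `(x + s) * ell s (B - 1) ≤ x * ell s B`
  (`ell_pred_le`) and `x * ell s S * (S - 1 + s) ... `: from `τ + ell s B ^ 2 ≤ ell s S` follows
  `(x + s) * (τ' + ell s (B - 1) ^ 2) ≤ x * ell s S`, and
  `x * ell s S ≤ (x + s) * ell s (S - 1)` because `ell s (S - 1) * (S - 1 + s) = ell s S * (S - 1)`
  and `x ≤ S - 1`.
-/

namespace Pool.Agent.H21.NX

open Finset Pool.Agent.H18.Ex

namespace PeelAllX

theorem of_simple (s : ℕ) (S : ℕ) (hS : 1 ≤ S) (T : Multiset (Kind (Fin (s + 2)))) (p : ℕ)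
    (h : ell (s + 1) S ≤ p) :
    GM (Sx (Fin (s + 2)) (S - 1)) (T + Multiset.replicate p (Kind.free 1)) := by
  have h1 : Multiset.replicate p (Kind.free 1 : Kind (Fin (s + 2))) =
      (Multiset.replicate p 1).map Kind.free := by
    rw [Multiset.map_replicate]
  rw [h1, add_comm T]
  refine GM.of_card _ _ _ (fun m hm => ?_) ?_
  · rw [Multiset.eq_of_mem_replicate hm]
  · rw [Multiset.card_replicate, card_Sx (s + 1) (S - 1), Nat.sub_add_cancel hS]
    exact h

theorem nxt_simple (Φ : Multiset (ℕ × ℕ)) (N0 : Multiset ℕ) (q : ℕ) :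
    nxt Φ N0 1 q 0 = nxt Φ N0 1 0 0 := by
  unfold nxt
  simp only [Multiset.filter_add, Multiset.replicate_zero, add_zero]
  have : Multiset.filter (fun x : ℕ × ℕ => x.2 ≤ x.1) (Multiset.replicate q (1 - 1, 1)) = 0 := by
    rw [Multiset.filter_eq_nil]
    intro a ha
    rw [Multiset.eq_of_mem_replicate ha]
    simp
  rw [this, add_zero]

end PeelAllX

open PeelAllX in
theorem peel_all (s : ℕ) (hs : 1 ≤ s) (l : Fin (s + 2)) (B : ℕ) :
    ∀ (S : ℕ) (Φ : Multiset (ℕ × ℕ)) (N0 : Multiset ℕ) (p : ℕ), OKF B Φ →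
      (∀ m ∈ N0, 1 ≤ m ∧ m ≤ B) → 1 ≤ S → B ≤ S →
      tl s Φ + tot s N0 + ell s B ^ 2 ≤ ell s S →
      ell (s + 1) S ≤ fl s Φ + tot (s + 1) N0 + p →
      GM (Sx (Fin (s + 2)) (S - 1)) (fk l Φ + N0.map Kind.free +
        Multiset.replicate p (Kind.free 1)) := by
  induction B with
  | zero =>
    intro S Φ N0 p hΦ hN0 hS _ _ hl
    have h1 : Φ = 0 := by
      rw [Multiset.eq_zero_iff_forall_notMem]
      intro x hx
      have := hΦ x hx
      omega
    have h2 : N0 = 0 := by
      rw [Multiset.eq_zero_iff_forall_notMem]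
      intro m hm
      have := hN0 m hm
      omega
    subst h1 h2
    refine of_simple s S hS _ p ?_
    simpa [fl, tot] using hl
  | succ B ih =>
    intro S Φ N0 p hΦ hN0 hS hBS htr hl
    have hfl : (s + 1) * fl s Φ ≤ (B + 1 + s) * tl s Φ := fl_le_tl s hs hΦ
    have hto : (s + 1) * tot (s + 1) N0 ≤ (B + 1 + s) * tot s N0 :=
      tot_succ_le s hs fun m hm => (hN0 m hm).2
    rcases Nat.lt_or_ge S 2 with hS2 | hS2
    · -- S = 1
      have hS1 : S = 1 := by omega
      have hB0 : B = 0 := by omega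
      subst hS1 hB0
      rw [ell_one] at htr
      have h1 : tl s Φ = 0 := by omega
      have h2 : tot s N0 = 0 := by omega
      rw [h1, mul_zero] at hfl
      rw [h2, mul_zero] at hto
      have h3 : fl s Φ = 0 := by
        rcases Nat.mul_eq_zero.1 (Nat.le_zero.1 hfl) with h | h
        · omega
        · exact h
      have h4 : tot (s + 1) N0 = 0 := by
        rcases Nat.mul_eq_zero.1 (Nat.le_zero.1 hto) with h | h
        · omega
        · exact h
      refine of_simple s 1 le_rfl _ p ?_
      omega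
    · -- the step
      obtain ⟨S, rfl⟩ : ∃ S', S = S' + 1 := ⟨S - 1, by omega⟩
      have hS1 : 1 ≤ S := by omega
      have hBS' : B ≤ S := by omega
      set τ := tl s Φ + tot s N0 with hτ
      have hτL : τ ≤ ell s (S + 1) := le_trans (Nat.le_add_right _ _) htr
      obtain ⟨q, hq⟩ : ∃ q, ell s (S + 1) = τ + q := ⟨ell s (S + 1) - τ, by omega⟩
      have hmul : (S + 1 + s) * ell s (S + 1) = (s + 1) * ell (s + 1) (S + 1) :=
        ell_succ_mul s (S + 1) hs
      have hqp : q ≤ p := by
        by_contra hcon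
        rw [not_le] at hcon
        have h1 : (s + 1) * ell (s + 1) (S + 1) ≤
            (s + 1) * (fl s Φ + tot (s + 1) N0 + p) := Nat.mul_le_mul_left _ hl
        have h2 : (s + 1) * (fl s Φ + tot (s + 1) N0) ≤ (B + 1 + s) * τ := by
          rw [hτ, mul_add, mul_add]
          exact add_le_add hfl hto
        have h3 : (s + 1) * (p + 1) ≤ (s + 1) * q := Nat.mul_le_mul_left _ hcon
        have h4 : B * τ ≤ S * (τ + q) := Nat.mul_le_mul hBS' (Nat.le_add_right _ _)
        rw [← hmul, hq] at h1
        linarith only [h1, h2, h3, h4]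
      have hp : q + 0 + (p - q) = p := by omega
      rw [← hp, Nat.add_sub_cancel]
      have htrc : trc Φ N0 1 q 0 = Φ.map Prod.fst + N0 + Multiset.replicate q 1 := by
        unfold trc
        rw [Multiset.replicate_zero, add_zero]
      have htot : tot s (Φ.map Prod.fst + N0) = τ := by
        rw [hτ]
        unfold tot tl
        rw [Multiset.map_add, Multiset.sum_add, Multiset.map_map]
        rfl
      have hM : ∀ t ∈ trc Φ N0 1 q 0, t ≤ B + 1 := by
        intro t ht
        rw [htrc, Multiset.mem_add, Multiset.mem_add, Multiset.mem_map] at ht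
        rcases ht with (⟨x, hx, rfl⟩ | ht) | ht
        · exact (hΦ x hx).2.2.2
        · exact (hN0 t ht).2
        · rw [Multiset.eq_of_mem_replicate ht]
          omega
      refine stage s hs l S hS1 Φ N0 1 q 0 (p - q) (B + 1) le_rfl (fun x hx => (hΦ x hx).2.2.1)
        hM ?_ ?_ ?_
      · intro t ht ht2
        have htB := hM t ht
        rw [htrc]
        refine window_cond' s hs _ q (B + 1) _ ?_ t ht2 htB
        rw [htot]
        exact htr
      · rw [ell_one, mul_one, add_zero, hq]
      · have hΦ' : OKF B (nxt Φ N0 1 q 0) :=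
          OKF_nxt hΦ (fun m hm => (hN0 m hm).2) le_rfl (by omega) (Or.inl rfl)
        have key := ih S (nxt Φ N0 1 q 0) 0 (p - q) hΦ' (by simp) hS1 hBS' ?_ ?_
        · rw [Multiset.map_zero, add_zero] at key
          exact key
        · -- traces
          rw [nxt_simple]
          have h0 : tot s (0 : Multiset ℕ) = 0 := rfl
          rw [h0, add_zero]
          have h1 := tl_nxt (α := 0) (ρ := 0) (μ := 1) s B hs hΦ
            (fun m hm => (hN0 m hm).2) (by omega) le_rfl
          rw [zero_mul, mul_zero, add_zero, add_zero, ← hτ] at h1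
          have h2 : (B + s) * ell s B ≤ B * ell s (B + 1) := by
            have := ell_pred_le s (B + 1) B hs le_rfl
            rwa [Nat.add_sub_cancel] at this
          have h3 : ell s B ≤ ell s (B + 1) := ell_mono s (Nat.le_succ B)
          have h4 : ell s S * (S + s) = ell s (S + 1) * S := ell_mul_add s S hs
          set T' := tl s (nxt Φ N0 1 0 0) with hT'
          -- (B + s) * (T' + ell s B ^ 2) ≤ B * ell s (S + 1)
          have h5 : (B + s) * (T' + ell s B ^ 2) ≤ B * ell s (S + 1) := by
            calc (B + s) * (T' + ell s B ^ 2) = (B + s) * T' + ((B + s) * ell s B) * ell s B := by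
                  ring
              _ ≤ B * τ + (B * ell s (B + 1)) * ell s (B + 1) :=
                  add_le_add h1 (Nat.mul_le_mul h2 h3)
              _ = B * (τ + ell s (B + 1) ^ 2) := by ring
              _ ≤ B * ell s (S + 1) := Nat.mul_le_mul_left _ htr
          have h6 : B * ell s (S + 1) ≤ (B + s) * ell s S := by
            refine Nat.le_of_mul_le_mul_right ?_ hS1
            calc B * ell s (S + 1) * S = B * (ell s (S + 1) * S) := by ring
              _ = B * (S + s) * ell s S := by rw [← h4]; ring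
              _ ≤ ((B + s) * S) * ell s S := by
                  refine Nat.mul_le_mul_right _ ?_
                  calc B * (S + s) = B * S + B * s := Nat.mul_add B S s
                    _ ≤ B * S + S * s := Nat.add_le_add_left (Nat.mul_le_mul_right s hBS') _
                    _ = (B + s) * S := by ring
              _ = (B + s) * ell s S * S := by ring
          exact Nat.le_of_mul_le_mul_left (h5.trans h6) (by omega)
        · -- lengths
          have h1 := fl_nxt (μ := 1) (α := q) (ρ := 0) s hs hΦ (fun m hm => (hN0 m hm).1)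
            le_rfl (Or.inl rfl)
          rw [ell_one, ell_one, mul_one, mul_one, add_zero, add_zero, ← hτ] at h1
          have h2 := ell_succ s S
          have h0 : tot (s + 1) (0 : Multiset ℕ) = 0 := rfl
          rw [h0]
          omega

end Pool.Agent.H21.NX

end

section

/-!
# Module VPeel: peeling with many free simple points, arbitrarily many steps
-/

namespace Pool.Agent.H21.NX

open Finset Pool.Agent.H18.Ex

theorem peel_longV {s M D0 : ℕ} (h : VNum s M D0) (l : Fin (s + 2)) (X : ℕ) :
    ∀ (S : ℕ) (Φ : Multiset (ℕ × ℕ)) (R : Multiset ℕ) (p : ℕ), OKF M Φ →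
      (∀ m ∈ R, 1 ≤ m ∧ m ≤ M) →
      ell (s + 1) S ≤ fl s Φ + tot (s + 1) R + p →
      fl s Φ + tot (s + 1) R + p ≤ ell (s + 1) S + X →
      2 * M * tl s Φ ≤ (2 * M - 1) * ell s S →
      S * GG s M + X + ell s M ^ 2 + ell (s + 1) D0 ≤ p →
      GM (Sx (Fin (s + 2)) (S - 1)) (fk l Φ + R.map Kind.free +
        Multiset.replicate p (Kind.free 1)) := by
  have hs := h.s1
  have hE1 := h.E1
  have hM := h.hM
  have hDM := h.hD
  intro S
  induction S with
  | zero =>
    intro Φ R p _ _ _ hT2 _ hp
    exfalso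
    have h1 : ell (s + 1) 0 = 0 := ell_zero (by omega)
    have h2 : 1 ≤ ell s M ^ 2 := Nat.one_le_pow _ _ hE1
    omega
  | succ S ih =>
    intro Φ R p hΦ hR hT1 hT2 hload hp
    have hE2 : 1 ≤ ell s M ^ 2 := Nat.one_le_pow _ _ hE1
    -- the degree is large
    have hSD : D0 + 1 ≤ S + 1 := by
      by_contra hcon
      have h1 : ell (s + 1) (S + 1) ≤ ell (s + 1) D0 := ell_mono _ (by omega)
      omega
    by_cases hA : tl s Φ + tot s R + ell s M ^ 2 ≤ ell s (S + 1)
    · exact peel_all s hs l M (S + 1) Φ R p hΦ hR (by omega) (by omega) hA hT1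
    · have hr1 := h.below (S := S + 1) (by omega) hload
      obtain ⟨N0, hN0R, hN1, hN2⟩ := greedy_below s M (tl s Φ) (ell s (S + 1) - ell s M ^ 2)
        (by omega) R (fun m hm => (hR m hm).2) (by omega)
      obtain ⟨Q, hQ⟩ := Multiset.le_iff_exists_add.1 hN0R
      have hN0 : ∀ m ∈ N0, 1 ≤ m ∧ m ≤ M := fun m hm => hR m (Multiset.mem_of_le hN0R hm)
      have hQm : ∀ m ∈ Q, 1 ≤ m ∧ m ≤ M := fun m hm => hR m (by
        rw [hQ]
        exact Multiset.mem_add.2 (Or.inr hm))
      obtain ⟨q, hq⟩ : ∃ q, q = ell s (S + 1) - tl s Φ - tot s N0 := ⟨_, rfl⟩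
      have hqsum : tl s Φ + tot s N0 + q = ell s (S + 1) := by omega
      have hq1 : ell s M ^ 2 ≤ q := by omega
      have hq2 : q ≤ GG s M := by
        unfold GG
        omega
      have hSG : (S + 1) * GG s M = S * GG s M + GG s M := by ring
      have hqp : q ≤ p := by
        omega
      have htrc : trc Φ N0 1 q 0 = (Φ.map Prod.fst + N0) + Multiset.replicate q 1 := by
        unfold trc
        rw [Multiset.replicate_zero, add_zero]
      have hT1M : ∀ t ∈ Φ.map Prod.fst + N0, t ≤ M := by
        intro t ht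
        rcases Multiset.mem_add.1 ht with ht | ht
        · obtain ⟨x, hx, rfl⟩ := Multiset.mem_map.1 ht
          exact (hΦ x hx).2.2.2
        · exact (hN0 t ht).2
      have htM : ∀ t ∈ trc Φ N0 1 q 0, t ≤ M := by
        intro t ht
        rw [htrc] at ht
        rcases Multiset.mem_add.1 ht with ht | ht
        · exact hT1M t ht
        · rw [Multiset.eq_of_mem_replicate ht]
          exact hM
      have htot1 : tot s (Φ.map Prod.fst + N0) = tl s Φ + tot s N0 := by
        rw [tot_add]
        congr 1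
        unfold tot tl
        rw [Multiset.map_map]
        rfl
      have hstep := stageQ s hs l S (by omega) Φ N0 (Q + Multiset.replicate (p - q) 1) 1 q 0 M
        le_rfl (fun x hx => (hΦ x hx).2.2.1) htM ?_ ?_ ?_
      · rw [hQ, Multiset.map_add, Nat.add_sub_cancel]
        rw [Multiset.map_add, Multiset.map_replicate, Nat.add_zero q] at hstep
        have hpq : Multiset.replicate p (Kind.free 1 : Kind (Fin (s + 2))) =
            Multiset.replicate q (Kind.free 1) + Multiset.replicate (p - q) (Kind.free 1) := by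
          rw [← Multiset.replicate_add]
          congr 1
          omega
        rw [hpq]
        have e : fk l Φ + N0.map Kind.free + Multiset.replicate q (Kind.free 1) +
            (Q.map Kind.free + Multiset.replicate (p - q) (Kind.free 1)) =
            fk l Φ + (N0.map Kind.free + Q.map Kind.free) +
              (Multiset.replicate q (Kind.free 1) + Multiset.replicate (p - q) (Kind.free 1)) := by
          abel
        rw [e] at hstep
        exact hstep
      · intro t ht ht2
        rw [htrc]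
        exact window_cond' s hs _ q M _ (by rw [htot1]; omega) t ht2 (htM t ht)
      · rw [ell_one]
        omega
      · -- the next state
        have hfl := fl_nxt (α := q) (ρ := 0) (μ := 1) (N0 := N0) s hs hΦ
          (fun m hm => (hN0 m hm).1) le_rfl (Or.inl rfl)
        have hF : ell (s + 1) (S + 1) = ell (s + 1) S + ell s (S + 1) := ell_succ s S
        have htotR : tot (s + 1) R = tot (s + 1) N0 + tot (s + 1) Q := by rw [hQ, tot_add]
        rw [ell_one, ell_one, mul_one, mul_one, Nat.add_zero, Nat.add_zero] at hfl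
        have hnext := ih (nxt Φ N0 1 q 0) Q (p - q) ?_ hQm ?_ ?_ ?_ ?_
        · rw [Multiset.map_add, Multiset.map_replicate, ← add_assoc]
          exact hnext
        · exact OKF_nxt hΦ (fun m hm => (hN0 m hm).2) (Nat.le_succ _) (by omega) (Or.inl rfl)
        · omega
        · omega
        · have htl := tl_nxt (α := q) (ρ := 0) (μ := 1) (N0 := N0) s (M - 1) hs hΦ
            (fun m hm => (hN0 m hm).2) (by omega) (by omega)
          rw [ell_one, mul_one, Nat.zero_mul, Nat.mul_zero, Nat.add_zero, hqsum] at htl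
          have hl := h.load (S := S + 1) (t := tl s (nxt Φ N0 1 q 0)) (e := 0) hSD
            (by rw [Nat.mul_zero, Nat.add_zero]; exact htl) (by omega)
          rwa [Nat.add_sub_cancel] at hl
        · omega

end Pool.Agent.H21.NX

end
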