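import Pool.Agent.H94.LP7.M109
import Pool.Agent.H94.LP7.M111
import Pool.Agent.H94.LP7.M114

/-! The parts of this file: H18.Ex.Fin, H21.NX.VOver, H21.NX.VRun. -/

section

/-!
# Module Fin: the two endings
-/

namespace Pool.Agent.H18.Ex

open Finset

variable {ι : Type} [Fintype ι] [DecidableEq ι]

/-- The cleaning list: `M + 1` peels in each direction. -/
def clean (M : ℕ) (dirs : List ι) : List ι := dirs.flatMap fun l => List.replicate (M + 1) l

private theorem fin_shf_aux (j : ℕ) (S : Multiset (ℕ × ℕ))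
    (hS : ∀ x ∈ S, 1 ≤ x.2 ∧ x.2 ≤ x.1 ∧ x.1 ≤ j) : shf^[j] S = 0 := by
  induction j generalizing S with
  | zero =>
    apply Multiset.eq_zero_of_forall_notMem
    intro x hx
    have := hS x hx
    omega
  | succ j ih =>
    rw [Function.iterate_succ_apply]
    apply ih
    intro x hx
    unfold shf at hx
    rw [Multiset.mem_filter, Multiset.mem_map] at hx
    obtain ⟨⟨y, hy, rfl⟩, h⟩ := hx
    have h1 := hS y hy
    refine ⟨h1.1, h, ?_⟩
    change y.1 - 1 ≤ j
    omega

/-- After `M` shifts all forced conditions are gone. -/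
theorem shf_iterate_eq_zero {M j : ℕ} (hj : M ≤ j) (S : Multiset (ℕ × ℕ))
    (hS : ∀ x ∈ S, 1 ≤ x.2 ∧ x.2 ≤ x.1 ∧ x.1 ≤ M) : shf^[j] S = 0 :=
  fin_shf_aux j S fun x hx => ⟨(hS x hx).1, (hS x hx).2.1, le_trans (hS x hx).2.2 hj⟩

omit [Fintype ι] in
private theorem fin_count_clean (M : ℕ) (dirs : List ι) (l : ι) (hl : l ∈ dirs) :
    M + 1 ≤ (clean M dirs).count l := by
  unfold clean
  induction dirs with
  | nil => exact absurd hl List.not_mem_nil
  | cons d ds ih =>
    rw [List.flatMap_cons, List.count_append]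
    by_cases h : l = d
    · subst h
      rw [List.count_replicate_self]
      exact Nat.le_add_right _ _
    · have h1 : l ∈ ds := by
        rcases List.mem_cons.1 hl with h2 | h2
        · exact absurd h2 h
        · exact h2
      exact le_trans (ih h1) (Nat.le_add_left _ _)

omit [DecidableEq ι] in
private theorem fin_kinds_simple {c : Cfg ι} (hN : c.N = 0) (hΦ : ∀ l, c.Φ l = 0) :
    c.kinds = (Multiset.replicate c.s 1).map Kind.free + 0 := by
  have h1 : c.kinds = c.N.map Kind.free + Multiset.replicate c.s (Kind.free 1) +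
      ∑ l, (c.Φ l).map fun x => Kind.forced l x.1 x.2 := rfl
  rw [h1, hN, Finset.sum_eq_zero (fun l _ => by rw [hΦ l, Multiset.map_zero]),
    Multiset.map_zero, zero_add, Multiset.map_replicate]

/-- Ending (A): there are so many simple points that the points of higher multiplicity are used
up before the end.

Proof.  `run` along `L` gives `c₁` with `c₁.N.card < g0 n M`: otherwise `c₁.s = c.s`, but
`c₁.s ≤ c₁.sz n = c.sz n - |Rg σ w| + |end| < c.s`.  Then `run` along the first element of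
`clean M dirs` gives `c₂.N = 0`, `run` along the rest gives `c₃` with `c₃.N = 0`,
`c₃.Φ l = shf^[≥ M] _ = 0` for `l ∈ dirs` and `c₃.Φ l = c.Φ l = 0` for `l ∉ dirs`; so
`c₃.s = c₃.sz n ≥ |end|` and `GM.of_card` finishes. -/
theorem ending_A (n M : ℕ) (hn : 1 ≤ n) (hM : 1 ≤ M) (dirs L : List ι) (hd : dirs ≠ [])
    (hnd : dirs.Nodup) (hLd : ∀ l ∈ L, l ∈ dirs) (σ : ℕ) (w φ : ι → ℕ)
    (hG : Good n M (fun σ w => Exa n M (Rg σ w)) (L ++ clean M dirs) σ w φ)
    (c : Cfg ι) (hc : c.OK M) (htr : ∀ l, c.tr n l ≤ φ l) (hsz : (Rg σ w).card ≤ c.sz n)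
    (hΦ : ∀ l ∉ dirs, c.Φ l = 0)
    (hs : c.sz n + (Rg (σ - L.length) (ew L w)).card < c.s + (Rg σ w).card) :
    GM (Rg σ w) c.kinds := by
  rw [Good.append] at hG
  obtain ⟨hG1, hG2⟩ := hG
  obtain ⟨c₁, hc₁, hGM₁, htr₁, hsz₁, hs₁, -, -, -, -, hcnt₁⟩ :=
    run n M hn hM L σ w φ hG1 c hc htr hsz
  apply hGM₁
  have hN₁ : c₁.N.card < g0 n M := by
    rcases hs₁ with h | h
    · exfalso
      have h1 : c₁.s ≤ c₁.sz n := by
        unfold Cfg.sz Cfg.nsz
        omega
      omega
    · exact h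
  set σ₁ := σ - L.length with hσ₁
  set w₁ := ew L w with hw₁
  set φ₁ := eph n M L σ w φ with hφ₁
  obtain ⟨d, ds, rfl⟩ := List.exists_cons_of_ne_nil hd
  have hclean : clean M (d :: ds) = [d] ++ (List.replicate M d ++ clean M ds) := by
    unfold clean
    rw [List.flatMap_cons, List.replicate_succ]
    rfl
  rw [hclean, Good.append] at hG2
  obtain ⟨hG3, hG4⟩ := hG2
  obtain ⟨c₂, hc₂, hGM₂, htr₂, hsz₂, -, -, hN₂, -, -, hcnt₂⟩ :=
    run n M hn hM [d] σ₁ w₁ φ₁ hG3 c₁ hc₁ htr₁ (by omega)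
  apply hGM₂
  have hN₂' : c₂.N = 0 := hN₂ (List.cons_ne_nil d []) hN₁
  obtain ⟨c₃, hc₃, hGM₃, -, hsz₃, -, -, -, hz₃, -, -⟩ :=
    run n M hn hM (List.replicate M d ++ clean M ds) _ _ _ hG4 c₂ hc₂ htr₂ (by omega)
  apply hGM₃
  obtain ⟨hN₃, hΦ₃⟩ := hz₃ hN₂'
  have hΦ₃' : ∀ l, c₃.Φ l = 0 := by
    intro l
    rw [hΦ₃ l]
    by_cases hl : l ∈ d :: ds
    · have hcount : M ≤ (List.replicate M d ++ clean M ds).count l := by
        rw [List.count_append]
        rcases List.mem_cons.1 hl with h | h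
        · subst h
          rw [List.count_replicate_self]
          exact Nat.le_add_right _ _
        · have := fin_count_clean M ds l h
          omega
      apply shf_iterate_eq_zero hcount
      intro x hx
      have := hc₂.hΦ l x hx
      exact ⟨this.1, this.2.2.1, this.2.2.2⟩
    · have h1 : L.count l = 0 := List.count_eq_zero_of_not_mem fun h => hl (hLd l h)
      have h2 : c₁.Φ l = 0 := by rw [hcnt₁ l h1, hΦ l hl]
      have h3 : [d].count l = 0 := by
        apply List.count_eq_zero_of_not_mem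
        intro h
        rw [List.mem_singleton] at h
        exact hl (h ▸ List.mem_cons_self)
      rw [hcnt₂ l h3, h2]
      apply fin_shf_aux
      intro x hx
      exact absurd hx (Multiset.notMem_zero x)
  rw [fin_kinds_simple hN₃ hΦ₃']
  apply GM.of_card
  · intro m hm
    rw [Multiset.eq_of_mem_replicate hm]
  · rw [Multiset.card_replicate]
    have h1 : c₃.sz n = c₃.s := by
      unfold Cfg.sz Cfg.nsz Cfg.fl
      rw [hN₃, Finset.sum_eq_zero (fun l _ => by rw [hΦ₃' l, Multiset.map_zero,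
        Multiset.sum_zero])]
      simp
    omega

/-- Ending (B): the excess is so large that at the end there are more free points than
exponents.

Proof.  `run` along `L` gives `c₁` with
`c₁.nsz n = c₁.sz n - ∑ fl ≥ c.sz n - |Rg σ w| + |end| - M * ∑ eph ≥ ell (n + 1) M * |end|`, and
`c₁.nsz n ≤ ell (n + 1) M * (c₁.N.card + c₁.s)`; so `c₁.N.card + c₁.s ≥ |end|` and `GM.of_card`
applies to `T = c₁.N + replicate c₁.s 1`. -/
theorem ending_B (n M : ℕ) (hn : 1 ≤ n) (hM : 1 ≤ M) (L : List ι) (σ : ℕ) (w φ : ι → ℕ)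
    (hG : Good n M (fun σ w => Exa n M (Rg σ w)) L σ w φ)
    (c : Cfg ι) (hc : c.OK M) (htr : ∀ l, c.tr n l ≤ φ l)
    (hs : ell (n + 1) M * (Rg (σ - L.length) (ew L w)).card +
        M * ∑ l, eph n M L σ w φ l + (Rg σ w).card ≤
      c.sz n + (Rg (σ - L.length) (ew L w)).card) (hsz : (Rg σ w).card ≤ c.sz n) :
    GM (Rg σ w) c.kinds := by
  obtain ⟨c₁, hc₁, hGM₁, htr₁, hsz₁, -, -, -, -, -, -⟩ :=
    run n M hn hM L σ w φ hG c hc htr hsz
  apply hGM₁
  have hfl : ∑ l, c₁.fl n l ≤ M * ∑ l, eph n M L σ w φ l := by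
    rw [Finset.mul_sum]
    refine Finset.sum_le_sum fun l _ => ?_
    exact le_trans (Cfg.fl_le n M c₁ hc₁ l) (Nat.mul_le_mul_left _ (htr₁ l))
  have hszdef : c₁.sz n = c₁.nsz n + ∑ l, c₁.fl n l := rfl
  have hN : (c₁.N.map (ell (n + 1))).sum ≤ ell (n + 1) M * c₁.N.card := by
    have h1 : (c₁.N.map (ell (n + 1))).sum ≤ (c₁.N.map fun _ => ell (n + 1) M).sum := by
      apply Multiset.sum_map_le_sum_map
      intro m hm
      exact ell_mono _ (hc₁.hN m hm).2
    rw [Multiset.map_const', Multiset.sum_replicate, smul_eq_mul, Nat.mul_comm] at h1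
    exact h1
  have hell := ell_pos (n + 1) hM
  have hnsz : c₁.nsz n ≤ ell (n + 1) M * (c₁.N.card + c₁.s) := by
    unfold Cfg.nsz
    rw [Nat.mul_add]
    have h2 : c₁.s ≤ ell (n + 1) M * c₁.s := Nat.le_mul_of_pos_left _ hell
    omega
  have hcard : (Rg (σ - L.length) (ew L w)).card ≤ c₁.N.card + c₁.s := by
    apply Nat.le_of_mul_le_mul_left _ hell
    omega
  have h1 : c₁.kinds = (c₁.N + Multiset.replicate c₁.s 1).map Kind.free +
      ∑ l, (c₁.Φ l).map fun x => Kind.forced l x.1 x.2 := by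
    rw [Multiset.map_add, Multiset.map_replicate]
    rfl
  rw [h1]
  apply GM.of_card
  · intro m hm
    rw [Multiset.mem_add] at hm
    rcases hm with hm | hm
    · have := hc₁.hN m hm
      omega
    · rw [Multiset.eq_of_mem_replicate hm]
  · rw [Multiset.card_add, Multiset.card_replicate]
    exact hcard

end Pool.Agent.H18.Ex

end

section

/-!
# Module VOver: overfull peeling
-/

namespace Pool.Agent.H21.NX

open Finset Pool.Agent.H18.Ex

/-- From the hyperplane to the layer. -/
theorem layer_GM (s d : ℕ) (l : Fin (s + 2)) (T : Multiset ℕ)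
    (h : GM (Sx (Fin (s + 1)) d) (T.map Kind.free)) :
    GM ((Sx (Fin (s + 2)) d).filter fun a => a l = 0) (T.map Kind.free) := by
  obtain ⟨k, m, hm⟩ := multi_exists_fin T
  rw [← hm, Multiset.map_map] at h ⊢
  exact (GM_iff _ _).2 (GI_layer l m ((GM_iff _ _).1 h))

/-- A Horace step, the trace being given. -/
theorem stageH (s : ℕ) (l : Fin (s + 2)) (σ : ℕ) (hσ : 1 ≤ σ)
    (Φ : Multiset (ℕ × ℕ)) (N0 Q : Multiset ℕ) (μ α ρ : ℕ) (hμ : 1 ≤ μ)
    (hΦ : ∀ x ∈ Φ, x.2 ≤ x.1)
    (hT : GM (Sx (Fin (s + 1)) σ) ((trc Φ N0 μ α ρ).map Kind.free))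
    (h1 : GM (Sx (Fin (s + 2)) (σ - 1)) (fk l (nxt Φ N0 μ α ρ) + Q.map Kind.free)) :
    GM (Sx (Fin (s + 2)) σ) (fk l Φ + N0.map Kind.free +
      Multiset.replicate (α + ρ) (Kind.free μ) + Q.map Kind.free) := by
  rw [← UStageX.roles_before l Φ N0 Q μ α ρ]
  refine GM.step (Sx (Fin (s + 2)) σ) (Sx (Fin (s + 2)) (σ - 1)) l (Sx_resid σ hσ l) μ hμ _
    ?_ ?_ ?_
  · intro k hk
    have hk' : ∃ m, k = Kind.free m := by
      unfold UStageX.roles at hk
      simp only [Multiset.mem_add, Multiset.mem_map, Multiset.mem_replicate] at hk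
      rcases hk with (((⟨x, _, hx⟩ | ⟨x, _, hx⟩) | ⟨_, hx⟩) | ⟨_, hx⟩) | ⟨x, _, hx⟩
      · cases hx
      · cases hx
      · cases hx
      · cases hx
      · cases hx
        exact ⟨x, rfl⟩
    obtain ⟨m, rfl⟩ := hk'
    trivial
  · exact GM.mono (UStageX.roles_layer Φ N0 Q μ α ρ hΦ) (layer_GM s σ l _ hT)
  · exact GM.mono (UStageX.roles_after l Φ N0 Q μ α ρ) h1

theorem fl_le_mul {B : ℕ} {Φ : Multiset (ℕ × ℕ)} (s : ℕ) (hs : 1 ≤ s) (hB : 1 ≤ B)
    (hΦ : OKF B Φ) : fl s Φ ≤ B * tl s Φ := by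
  have h1 := fl_le_tl s hs hΦ
  have hpos : 0 < s + 1 := by omega
  refine Nat.le_of_mul_le_mul_left (le_trans h1 ?_) hpos
  calc (B + s) * tl s Φ ≤ ((s + 1) * B) * tl s Φ := by
        refine Nat.mul_le_mul_right _ ?_
        obtain ⟨b, rfl⟩ : ∃ b, B = b + 1 := ⟨B - 1, by omega⟩
        nlinarith [Nat.zero_le (s * b)]
    _ = _ := by ring

theorem tot_le_card (n M : ℕ) (T : Multiset ℕ) :
    (∀ m ∈ T, m ≤ M) → tot n T ≤ Multiset.card T * ell n M := by
  induction T using Multiset.induction_on with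
  | empty => exact fun _ => Nat.zero_le _
  | cons a T ih =>
    intro hT
    have h3 := ih fun m hm => hT m (Multiset.mem_cons_of_mem hm)
    have h4 := ell_mono n (hT a (Multiset.mem_cons_self _ _))
    unfold tot at h3 ⊢
    rw [Multiset.map_cons, Multiset.sum_cons, Multiset.card_cons, Nat.add_mul, Nat.one_mul]
    omega

/-- Overfull conditions kill everything. -/
theorem over_peel {s M D0 : ℕ} (h : VNum s M D0) (l : Fin (s + 2)) :
    ∀ S, D0 ≤ S → ∀ (Φ : Multiset (ℕ × ℕ)) (R : Multiset ℕ), OKF M Φ →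
      (∀ m ∈ R, 1 ≤ m ∧ m ≤ M) → 2 * M * tl s Φ ≤ (2 * M - 1) * ell s S →
      ell (s + 1) S + S * (WW s M + ell s M) + base s M D0 ≤ fl s Φ + tot (s + 1) R →
      GM (Sx (Fin (s + 2)) (S - 1)) (fk l Φ + R.map Kind.free) := by
  have hs := h.s1
  have hM := h.hM
  have hDM := h.hD
  have hE1 := h.E1
  have hF1 := h.F1
  intro S hS
  induction S, hS using Nat.le_induction with
  | base =>
    intro Φ R hΦ hR hload hT
    have h1 := fl_le_mul s hs hM hΦ
    have h2 : tl s Φ ≤ ell s D0 := by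
      have := h.below le_rfl hload
      omega
    have h3 : fl s Φ ≤ M * ell s D0 := le_trans h1 (Nat.mul_le_mul_left _ h2)
    have h4 : ell (s + 1) D0 * ell (s + 1) M ≤ tot (s + 1) R := by
      unfold base at hT
      omega
    have h5 := tot_le_card (s + 1) M R fun m hm => (hR m hm).2
    have h6 : ell (s + 1) D0 ≤ Multiset.card R :=
      Nat.le_of_mul_le_mul_right (le_trans h4 h5) hF1
    rw [add_comm (fk l Φ)]
    refine GM.of_card _ _ _ (fun m hm => (hR m hm).1) ?_
    rw [card_Sx (s + 1) (D0 - 1), Nat.sub_add_cancel (by omega)]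
    exact h6
  | succ S hS ih =>
    intro Φ R hΦ hR hload hT
    have htl := h.below (S := S + 1) (by omega) hload
    have hfl : (s + 1) * fl s Φ ≤ (M + s) * tl s Φ := fl_le_tl s hs hΦ
    have hto : (s + 1) * tot (s + 1) R ≤ (M + s) * tot s R :=
      tot_succ_le s hs fun m hm => (hR m hm).2
    have hmul : (S + 1 + s) * ell s (S + 1) = (s + 1) * ell (s + 1) (S + 1) :=
      ell_succ_mul s (S + 1) hs
    have hfit : ell s (S + 1) + WW s M ≤ tl s Φ + tot s R := by
      by_contra hcon
      rw [not_le] at hcon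
      have e1 : (M + s) * (tl s Φ + tot s R + 1) ≤ (M + s) * (ell s (S + 1) + WW s M) :=
        Nat.mul_le_mul_left _ hcon
      have e2 : (M + s) * ell s (S + 1) ≤ (s + 1) * ell (s + 1) (S + 1) := by
        rw [← hmul]
        exact Nat.mul_le_mul_right _ (by omega)
      have e3 : (M + s) * WW s M ≤ (s + 1) * ((S + 1) * (WW s M + ell s M)) := by
        calc (M + s) * WW s M ≤ ((s + 1) * (S + 1)) * (WW s M + ell s M) := by
              refine Nat.mul_le_mul ?_ (Nat.le_add_right _ _)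
              have : M ≤ S := by omega
              nlinarith [Nat.zero_le (s * S)]
          _ = _ := by ring
      have e4 : (s + 1) * (ell (s + 1) (S + 1) + (S + 1) * (WW s M + ell s M) +
          base s M D0) ≤ (s + 1) * (fl s Φ + tot (s + 1) R) := Nat.mul_le_mul_left _ hT
      have e5 : (M + s) * (tl s Φ + tot s R + 1) =
          (M + s) * tl s Φ + (M + s) * tot s R + (M + s) := by ring
      have e6 : (s + 1) * (ell (s + 1) (S + 1) + (S + 1) * (WW s M + ell s M) +
          base s M D0) = (s + 1) * ell (s + 1) (S + 1) +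
            (s + 1) * ((S + 1) * (WW s M + ell s M)) + (s + 1) * base s M D0 := by ring
      have e7 : (s + 1) * (fl s Φ + tot (s + 1) R) =
          (s + 1) * fl s Φ + (s + 1) * tot (s + 1) R := by ring
      have e8 : (M + s) * (ell s (S + 1) + WW s M) =
          (M + s) * ell s (S + 1) + (M + s) * WW s M := by ring
      omega
    obtain ⟨N0, hN0R, hN1, hN2⟩ := greedy s M (tl s Φ) (ell s (S + 1) + WW s M)
      (by omega) R (fun m hm => (hR m hm).2) hfit
    obtain ⟨Q, hQ⟩ := Multiset.le_iff_exists_add.1 hN0R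
    have hN0 : ∀ m ∈ N0, 1 ≤ m ∧ m ≤ M := fun m hm => hR m (Multiset.mem_of_le hN0R hm)
    have hQm : ∀ m ∈ Q, 1 ≤ m ∧ m ≤ M := fun m hm => hR m (by
      rw [hQ]
      exact Multiset.mem_add.2 (Or.inr hm))
    have htrc : trc Φ N0 1 0 0 = Φ.map Prod.fst + N0 := by
      unfold trc
      rw [Multiset.replicate_zero, add_zero, add_zero]
    have htot1 : tot s (Φ.map Prod.fst + N0) = tl s Φ + tot s N0 := by
      rw [tot_add]
      congr 1
      unfold tot tl
      rw [Multiset.map_map]
      rfl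
    have hmem : ∀ m ∈ Φ.map Prod.fst + N0, 1 ≤ m ∧ m ≤ M := by
      intro t ht
      rcases Multiset.mem_add.1 ht with ht | ht
      · obtain ⟨x, hx, rfl⟩ := Multiset.mem_map.1 ht
        have := hΦ x hx
        omega
      · exact hN0 t ht
    have hstep := stageH s l S (by omega) Φ N0 Q 1 0 0 le_rfl (fun x hx => (hΦ x hx).2.2.1)
      (by
        rw [htrc]
        refine over_GM s S M hs _ hmem ?_ ?_
        · omega
        · rw [htot1]
          exact hN1) ?_
    · rw [Multiset.replicate_zero, add_zero] at hstep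
      rw [hQ, Multiset.map_add, Nat.add_sub_cancel, ← add_assoc]
      exact hstep
    · -- the next state
      have hfl' := fl_nxt (α := 0) (ρ := 0) (μ := 1) (N0 := N0) s hs hΦ
        (fun m hm => (hN0 m hm).1) le_rfl (Or.inl rfl)
      have hF : ell (s + 1) (S + 1) = ell (s + 1) S + ell s (S + 1) := ell_succ s S
      have htotR : tot (s + 1) R = tot (s + 1) N0 + tot (s + 1) Q := by rw [hQ, tot_add]
      have hSW : (S + 1) * (WW s M + ell s M) = S * (WW s M + ell s M) + (WW s M + ell s M) := by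
        ring
      refine ih (nxt Φ N0 1 0 0) Q ?_ hQm ?_ ?_
      · exact OKF_nxt hΦ (fun m hm => (hN0 m hm).2) (Nat.le_succ _) (by omega) (Or.inl rfl)
      · have htl' := tl_nxt (α := 0) (ρ := 0) (μ := 1) (N0 := N0) s (M - 1) hs hΦ
          (fun m hm => (hN0 m hm).2) (by omega) (by omega)
        have hl := h.load (S := S + 1) (t := tl s (nxt Φ N0 1 0 0)) (e := WW s M + ell s M)
          (by omega) ?_ (by rw [Nat.add_sub_cancel]; exact h.r4 hS)
        · rwa [Nat.add_sub_cancel] at hl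
        · refine le_trans htl' ?_
          rw [Nat.zero_mul, Nat.mul_zero, Nat.add_zero, Nat.add_zero]
          calc (M - 1) * (tl s Φ + tot s N0) ≤
              (M - 1) * (ell s (S + 1) + (WW s M + ell s M)) :=
                Nat.mul_le_mul_left _ (by omega)
            _ = (M - 1) * ell s (S + 1) + (M - 1) * (WW s M + ell s M) := by ring
            _ ≤ _ := Nat.add_le_add_left (Nat.mul_le_mul_right _ (by omega)) _
      · simp only [Nat.zero_mul, Nat.add_zero] at hfl'
        omega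

end Pool.Agent.H21.NX

end

section

/-!
# Module VRun: the Horace steps, every dimension
-/

namespace Pool.Agent.H21.NX

open Finset Pool.Agent.H18.Ex

/-- One step: `a` points of multiplicity `μ` and a part of the points `R` are put on the
hyperplane, the rest of the trace is filled by differential points of multiplicity `μ`. -/
theorem ustepV {s M D0 : ℕ} (h : VNum s M D0) (l : Fin (s + 2)) (S μ a : ℕ) (hS : D0 + 1 ≤ S)
    (hμ : 2 ≤ μ) (hμM : μ ≤ M) (Φ : Multiset (ℕ × ℕ)) (R : Multiset ℕ) (g : ℕ) (hΦ : OKF M Φ)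
    (hR : ∀ m ∈ R, 1 ≤ m ∧ m ≤ M)
    (hx : 2 * M * (tl s Φ + a * ell s μ) ≤ (2 * M - 1) * ell s S)
    (hg1 : GG s M ≤ g) (hg2 : g ≤ M * GG s M)
    (hT1 : ell (s + 1) S ≤ fl s Φ + a * ell (s + 1) μ + tot (s + 1) R + g * ell (s + 1) μ) :
    ∃ (N0 Q : Multiset ℕ) (ρ : ℕ), R = N0 + Q ∧ ρ ≤ GG s M ∧
      tl s Φ + tot s N0 + a * ell s μ + ρ = ell s S ∧
      2 * M * tl s (nxt Φ N0 μ a ρ) ≤ (2 * M - 1) * ell s (S - 1) ∧
      (GM (Sx (Fin (s + 2)) (S - 2)) (fk l (nxt Φ N0 μ a ρ) + Q.map Kind.free +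
        Multiset.replicate (g - ρ) (Kind.free μ)) →
      GM (Sx (Fin (s + 2)) (S - 1)) (fk l Φ + R.map Kind.free +
        Multiset.replicate (a + g) (Kind.free μ))) := by
  have hs := h.s1
  have hE1 := h.E1
  have hM := h.hM
  have hDM := h.hD
  have hr1 := h.below (S := S) (by omega) hx
  have hr2 := h.r2 (S := S - 1) (by omega)
  have hr3 := h.r3 (S := S - 1) (by omega)
  have hES : 0 < ell s S := ell_pos _ (by omega)
  have hEμ : ell s μ ≤ ell s M := ell_mono _ hμM
  -- there are enough points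
  have hfit : ell s S ≤ tl s Φ + a * ell s μ + tot s R + ell s M ^ 2 := by
    by_contra hcon
    push Not at hcon
    have e1 : (s + 1) * fl s Φ ≤ (M + s) * tl s Φ := fl_le_tl s hs hΦ
    have e2 : (s + 1) * (a * ell (s + 1) μ) ≤ (M + s) * (a * ell s μ) := by
      calc (s + 1) * (a * ell (s + 1) μ) = a * ((s + 1) * ell (s + 1) μ) := by ring
        _ = a * ((μ + s) * ell s μ) := by rw [ell_succ_mul s μ hs]
        _ ≤ a * ((M + s) * ell s μ) :=
            Nat.mul_le_mul_left _ (Nat.mul_le_mul_right _ (by omega))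
        _ = _ := by ring
    have e3 : (s + 1) * tot (s + 1) R ≤ (M + s) * tot s R :=
      tot_succ_le s hs fun m hm => (hR m hm).2
    have e4 : (s + 1) * (g * ell (s + 1) μ) ≤ (M + s) * (g * ell s M) := by
      calc (s + 1) * (g * ell (s + 1) μ) = g * ((s + 1) * ell (s + 1) μ) := by ring
        _ = g * ((μ + s) * ell s μ) := by rw [ell_succ_mul s μ hs]
        _ ≤ g * ((M + s) * ell s M) :=
            Nat.mul_le_mul_left _ (Nat.mul_le_mul (by omega) hEμ)
        _ = _ := by ring
    have e5 : (S + s) * ell s S = (s + 1) * ell (s + 1) S := ell_succ_mul s S hs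
    have e6 : (S + s) * ell s S ≤ (M + s) * (ell s S + g * ell s M) := by
      calc (S + s) * ell s S = (s + 1) * ell (s + 1) S := e5
        _ ≤ (s + 1) * (fl s Φ + a * ell (s + 1) μ + tot (s + 1) R + g * ell (s + 1) μ) :=
            Nat.mul_le_mul_left _ hT1
        _ = (s + 1) * fl s Φ + (s + 1) * (a * ell (s + 1) μ) + (s + 1) * tot (s + 1) R +
            (s + 1) * (g * ell (s + 1) μ) := by ring
        _ ≤ (M + s) * tl s Φ + (M + s) * (a * ell s μ) + (M + s) * tot s R +
            (M + s) * (g * ell s M) := by omega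
        _ = (M + s) * (tl s Φ + a * ell s μ + tot s R + g * ell s M) := by ring
        _ ≤ _ := Nat.mul_le_mul_left _ (by omega)
    have e7 : 2 * (g * ell s M) ≤ ell s (S - 1) := by
      refine le_trans ?_ hr3
      exact Nat.mul_le_mul_left _ (Nat.mul_le_mul_right _ hg2)
    have e8 : (M + s) * ell s (S - 1) ≤ (S - 1) * ell s S := by
      have hrel : ell s (S - 1) * (S - 1 + s) = ell s S * (S - 1) := by
        have := ell_mul_add s (S - 1) hs
        rwa [Nat.sub_add_cancel (by omega)] at this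
      calc (M + s) * ell s (S - 1) ≤ (S - 1 + s) * ell s (S - 1) :=
            Nat.mul_le_mul_right _ (by omega)
        _ = ell s (S - 1) * (S - 1 + s) := by ring
        _ = ell s S * (S - 1) := hrel
        _ = _ := by ring
    have e9 : 2 * (S + s) * ell s S ≤ (2 * (M + s) + (S - 1)) * ell s S := by
      calc 2 * (S + s) * ell s S = 2 * ((S + s) * ell s S) := by ring
        _ ≤ 2 * ((M + s) * (ell s S + g * ell s M)) := Nat.mul_le_mul_left _ e6
        _ = 2 * (M + s) * ell s S + (M + s) * (2 * (g * ell s M)) := by ring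
        _ ≤ 2 * (M + s) * ell s S + (M + s) * ell s (S - 1) :=
            Nat.add_le_add_left (Nat.mul_le_mul_left _ e7) _
        _ ≤ 2 * (M + s) * ell s S + (S - 1) * ell s S := Nat.add_le_add_left e8 _
        _ = _ := by ring
    have e10 := Nat.le_of_mul_le_mul_right e9 hES
    omega
  obtain ⟨N0, hN0R, hN1, hN2⟩ := greedy_below s M (tl s Φ + a * ell s μ)
    (ell s S - ell s M ^ 2) (by omega) R (fun m hm => (hR m hm).2) (by omega)
  obtain ⟨Q, hQ⟩ := Multiset.le_iff_exists_add.1 hN0R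
  have hN0 : ∀ m ∈ N0, 1 ≤ m ∧ m ≤ M := fun m hm => hR m (Multiset.mem_of_le hN0R hm)
  obtain ⟨ρ, hρ⟩ : ∃ ρ, ρ = ell s S - tl s Φ - a * ell s μ - tot s N0 := ⟨_, rfl⟩
  have hsum : tl s Φ + tot s N0 + a * ell s μ + ρ = ell s S := by omega
  have hρ1 : ell s M ^ 2 ≤ ρ := by omega
  have hρ2 : ρ ≤ GG s M := by
    unfold GG
    omega
  have htrc : trc Φ N0 μ a ρ = (Φ.map Prod.fst + N0 + Multiset.replicate a μ) +
      Multiset.replicate ρ 1 := rfl
  have hT1M : ∀ t ∈ Φ.map Prod.fst + N0 + Multiset.replicate a μ, t ≤ M := by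
    intro t ht
    rcases Multiset.mem_add.1 ht with ht | ht
    · rcases Multiset.mem_add.1 ht with ht | ht
      · obtain ⟨x, hx, rfl⟩ := Multiset.mem_map.1 ht
        exact (hΦ x hx).2.2.2
      · exact (hN0 t ht).2
    · rw [Multiset.eq_of_mem_replicate ht]
      exact hμM
  have htM : ∀ t ∈ trc Φ N0 μ a ρ, t ≤ M := by
    intro t ht
    rw [htrc] at ht
    rcases Multiset.mem_add.1 ht with ht | ht
    · exact hT1M t ht
    · rw [Multiset.eq_of_mem_replicate ht]
      exact hM
  have htot1 : tot s (Φ.map Prod.fst + N0 + Multiset.replicate a μ) =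
      tl s Φ + tot s N0 + a * ell s μ := by
    rw [tot_add, tot_add, tot_replicate]
    congr 2
    unfold tot tl
    rw [Multiset.map_map]
    rfl
  refine ⟨N0, Q, ρ, hQ, hρ2, hsum, ?_, ?_⟩
  · -- the new load
    have htl := tl_nxt (α := a) (ρ := ρ) (μ := μ) (N0 := N0) s (M - 1) hs hΦ
      (fun m hm => (hN0 m hm).2) (by omega) (by omega)
    refine h.load (S := S) (e := ρ * ell s μ) hS (le_trans htl ?_) ?_
    · exact Nat.add_le_add_right (Nat.mul_le_mul_left _ (by omega)) _
    · exact le_trans (Nat.mul_le_mul_left _ (Nat.mul_le_mul hρ2 hEμ)) hr2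
  · intro hGM
    have hstep := stageQ s hs l (S - 1) (by omega) Φ N0 (Q + Multiset.replicate (g - ρ) μ) μ a ρ M
      (by omega) (fun x hx => (hΦ x hx).2.2.1) htM ?_ ?_ ?_
    · rw [hQ, Multiset.map_add]
      rw [Multiset.map_add, Multiset.map_replicate] at hstep
      have hpq : Multiset.replicate (a + g) (Kind.free μ : Kind (Fin (s + 2))) =
          Multiset.replicate (a + ρ) (Kind.free μ) +
            Multiset.replicate (g - ρ) (Kind.free μ) := by
        rw [← Multiset.replicate_add]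
        congr 1
        omega
      rw [hpq]
      have e : fk l Φ + N0.map Kind.free + Multiset.replicate (a + ρ) (Kind.free μ) +
          (Q.map Kind.free + Multiset.replicate (g - ρ) (Kind.free μ)) =
          fk l Φ + (N0.map Kind.free + Q.map Kind.free) +
            (Multiset.replicate (a + ρ) (Kind.free μ) +
              Multiset.replicate (g - ρ) (Kind.free μ)) := by
        abel
      rw [e] at hstep
      exact hstep
    · intro t ht ht2
      rw [htrc]
      rw [show S - 1 + 1 = S by omega]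
      exact window_cond' s hs _ ρ M _ (by rw [htot1]; omega) t ht2 (htM t ht)
    · rw [show S - 1 + 1 = S by omega]
      omega
    · rw [Multiset.map_add, Multiset.map_replicate, ← add_assoc]
      rwa [show S - 1 - 1 = S - 2 by omega]

theorem fk_nxt_dn {ι : Type} [DecidableEq ι] (l : ι) (Ψ : Multiset (ℕ × ℕ)) :
    fk l (nxt Ψ 0 1 0 0) ≤ (fk l Ψ).map (Kind.dn l) := by
  have h1 : fk l (nxt Ψ 0 1 0 0) ≤ fk l (Ψ.map (fun x : ℕ × ℕ => (x.1 - 1, x.2))) := by
    refine Multiset.map_le_map ?_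
    unfold nxt
    refine le_trans (Multiset.filter_le _ _) (le_of_eq ?_)
    rw [Multiset.map_zero, Multiset.replicate_zero, Multiset.replicate_zero, add_zero, add_zero,
      add_zero]
  refine le_trans h1 (le_of_eq ?_)
  unfold fk
  rw [Multiset.map_map, Multiset.map_map]
  refine Multiset.map_congr rfl fun x _ => ?_
  simp [Kind.dn]

end Pool.Agent.H21.NX

end
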