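import Pool.Agent.H94.LP7.M106
import Pool.Agent.H94.LP7.M108
import Pool.Agent.H94.LP7.M116
import Pool.Agent.H94.LP7.M23

/-! The parts of this file: H21.NX.URun, H51.TB.ULim, V7.AL.KDefs, V7.AL.ChainA. -/

section

/-!
# Module URun: the Horace steps of the uniform version
-/

namespace Pool.Agent.H21.NX

open Finset Pool.Agent.H18.Ex

theorem count_nxt {Ψ : Multiset (ℕ × ℕ)} {N0 : Multiset ℕ} {μ α ρ a c : ℕ} (hc : 1 ≤ c)
    (h : a ≤ Ψ.count (c + 1, 1)) : a ≤ (nxt Ψ N0 μ α ρ).count (c, 1) := by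
  rw [Multiset.le_count_iff_replicate_le] at h ⊢
  unfold nxt
  rw [Multiset.le_filter]
  refine ⟨?_, fun x hx => ?_⟩
  · have h1 : Multiset.replicate a (c, 1) ≤ Ψ.map (fun x : ℕ × ℕ => (x.1 - 1, x.2)) := by
      have := Multiset.map_le_map (f := fun x : ℕ × ℕ => (x.1 - 1, x.2)) h
      rwa [Multiset.map_replicate] at this
    exact le_trans h1 (le_trans (Multiset.le_add_right _ _) (le_trans (Multiset.le_add_right _ _)
      (Multiset.le_add_right _ _)))
  · rw [Multiset.eq_of_mem_replicate hx]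
    exact hc

theorem count_nxt_start {N0 : Multiset ℕ} {μ ρ a : ℕ} (hμ : 2 ≤ μ) :
    a ≤ (nxt 0 N0 μ a ρ).count (μ - 1, 1) := by
  rw [Multiset.le_count_iff_replicate_le]
  unfold nxt
  rw [Multiset.le_filter]
  refine ⟨?_, fun x hx => ?_⟩
  · exact le_trans (Multiset.le_add_left _ _) (Multiset.le_add_right _ _)
  · rw [Multiset.eq_of_mem_replicate hx]
    change 1 ≤ μ - 1
    omega

end Pool.Agent.H21.NX

end

section

/-!
# Module U6 (TB2): the limit lemma for a set of exponents

The same as `limit` in `Pool/Agent/H51/TB/Lim.lean` (proof there; helper59), with `Sx (Z a b) d` replaced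
by a subset `A` and the level `Bx a b d j` by `A.filter fun α => yd α = j`.  `weighted` (module Eul) is needed
for arbitrary subsets of the levels: extend `g` by `0`.
-/

namespace Pool.Agent.H51.TB

open Finset Pool.Agent.H18.Ex Pool.Agent.H21.NX Pool.Agent.H18.Ta

private theorem ULim_map {ι : Type} [Fintype ι] [DecidableEq ι] {R R' : Type*} [CommRing R]
    [CommRing R'] (φ : R →+* R') (q : ι → R) (α β : ι → ℕ) :
    tcr (fun i => φ (q i)) α β = φ (tcr q α β) := by
  unfold tcr
  rw [map_prod]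
  refine prod_congr rfl fun i _ => ?_
  rw [map_mul, map_natCast, map_pow]

private theorem ULim_eval {a b : ℕ} (q : Z a b → ℂ) (α β : Z a b → ℕ) :
    MvPolynomial.eval q (tcr (fun i => (MvPolynomial.X i : MvPolynomial (Z a b) ℂ)) α β) =
      tcr q α β := by
  rw [← ULim_map (MvPolynomial.eval q)]
  simp only [MvPolynomial.eval_X]

private theorem ULim_mem {a b : ℕ} (A : Finset (Z a b → ℕ)) {κ : Type} (m : κ → Finset (ℕ × ℕ))
    (p : κ → Z a b → ℂ) (f : {α // α ∈ A} → ℂ) :
    f ∈ (ASys A).V m p ↔ ∀ i (β : Z a b → ℕ), (xd β, yd β) ∈ m i →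
      ∑ α : {α // α ∈ A}, tcr (p i) α.1 β * f α = 0 := by
  rw [Sys.mem_V]
  constructor
  · intro h i β hβ
    have h1 := h i ⟨β, hβ⟩
    refine Eq.trans (sum_congr rfl fun α _ => ?_) h1
    rw [← ULim_eval (p i) α.1 β]
    rfl
  · intro h i r
    have h1 := h i r.1 r.2
    refine Eq.trans (sum_congr rfl fun α _ => ?_) h1
    rw [← ULim_eval (p i) α.1 r.1]
    rfl

/-- The positions at the time `t`. -/
private noncomputable def ULim_pos {a b : ℕ} (q : Z a b → ℂ) (s : ℂ) : Z a b → ℂ :=
  Sum.elim (fun k => q (Sum.inl k)) fun k => s * q (Sum.inr k)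

private theorem ULim_scale {a b : ℕ} (q : Z a b → ℂ) (s : ℂ) (α β : Z a b → ℕ) :
    s ^ yd β * tcr (ULim_pos q s) α β = s ^ yd α * tcr q α β := by
  have h := tcr_scale (fun k => q (Sum.inl k)) (fun k => q (Sum.inr k)) s α β
  have h1 : Sum.elim (fun k => q (Sum.inl k)) (fun k => q (Sum.inr k)) = q := by
    funext k
    rcases k with k | k <;> rfl
  rw [h1] at h
  exact h

private theorem ULim_sum {a b : ℕ} (β : Z a b → ℕ) : ∑ k, β k = xd β + yd β := by
  unfold xd yd
  exact Fintype.sum_sum_type β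

/-- The polynomial solution. -/
private theorem ULim_poly {a b : ℕ} (A : Finset (Z a b → ℕ)) {κ : Type} [Fintype κ]
    (m : κ → ℕ) (e : κ → ℕ) (kp : ℕ → ℕ) (p : κ → Z a b → ℂ)
    (hcon : ¬ GI A fun i => Kind.free (m i)) :
    ∃ F : (Z a b → ℕ) → Polynomial ℂ,
      (∀ i (β : Z a b → ℕ), xd β + yd β < m i →
        ∑ α ∈ A, Polynomial.X ^ (e i * yd α + kp (yd α)) *
          (F α * Polynomial.C (tcr (p i) α β)) = 0) ∧ ∃ α ∈ A, (F α).eval 0 ≠ 0 := by
  classical
  let ρ : Type := (i : κ) × (Z a b → Fin (m i))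
  let Mx : ρ → (Z a b → ℕ) → Polynomial ℂ := fun r α =>
    if xd (fun k => (r.2 k : ℕ)) + yd (fun k => (r.2 k : ℕ)) < m r.1 then
      Polynomial.C (tcr (p r.1) α fun k => (r.2 k : ℕ)) *
        (Polynomial.X ^ (e r.1 * yd α + kp (yd α)) * Polynomial.X)
    else 0
  have hsol : ∀ t : ℂ, ∃ f : (Z a b → ℕ) → ℂ,
      (∀ r, ∑ α ∈ A, f α * (Mx r α).eval t = 0) ∧ ∃ α ∈ A, f α ≠ 0 := by
    intro t
    have h1 : ¬ InjAt A (fun i => Kind.free (m i)) fun i => ULim_pos (p i) (t ^ e i) := fun h2 =>
      hcon ⟨_, h2⟩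
    unfold InjAt at h1
    push Not at h1
    obtain ⟨f, hf, α₁, hα₁, hne⟩ := h1
    by_cases ht : t = 0
    · refine ⟨fun _ => 1, fun r => sum_eq_zero fun α _ => ?_, α₁, hα₁, one_ne_zero⟩
      subst ht
      simp only [Mx]
      split_ifs
      · simp
      · simp
    · refine ⟨fun α => f α * (t ^ kp (yd α))⁻¹, fun r => ?_, α₁, hα₁, ?_⟩
      · set β : Z a b → ℕ := fun k => (r.2 k : ℕ) with hβ
        by_cases hr : xd β + yd β < m r.1
        · have h1 := hf r.1 β (by
            show ∑ k, β k < m r.1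
            rw [ULim_sum]
            exact hr)
          have h2 : ∑ α ∈ A, f α * (t ^ kp (yd α))⁻¹ * (Mx r α).eval t =
              ((t ^ e r.1) ^ yd β * t) * ∑ α ∈ A, f α *
                tcr ((Kind.free (m r.1) : Kind (Z a b)).pt (ULim_pos (p r.1) (t ^ e r.1))) α β := by
            rw [mul_sum]
            refine sum_congr rfl fun α _ => ?_
            simp only [Mx]
            rw [if_pos hr]
            simp only [Polynomial.eval_mul, Polynomial.eval_C, Polynomial.eval_pow,
              Polynomial.eval_X]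
            have h3 := ULim_scale (p r.1) (t ^ e r.1) α β
            have h4 : (Kind.free (m r.1) : Kind (Z a b)).pt (ULim_pos (p r.1) (t ^ e r.1)) =
                ULim_pos (p r.1) (t ^ e r.1) := rfl
            rw [h4]
            have h5 : t ^ kp (yd α) ≠ 0 := pow_ne_zero _ ht
            have h6 : t ^ (e r.1 * yd α + kp (yd α)) = (t ^ e r.1) ^ yd α * t ^ kp (yd α) := by
              rw [← pow_mul, ← pow_add]
            rw [h6]
            calc f α * (t ^ kp (yd α))⁻¹ * (tcr (p r.1) α β *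
                  ((t ^ e r.1) ^ yd α * t ^ kp (yd α) * t)) =
                f α * t * ((t ^ kp (yd α))⁻¹ * t ^ kp (yd α)) *
                  ((t ^ e r.1) ^ yd α * tcr (p r.1) α β) := by ring
              _ = _ := by
                rw [inv_mul_cancel₀ h5, ← h3]
                ring
          rw [h2, h1, mul_zero]
        · refine sum_eq_zero fun α _ => ?_
          simp only [Mx]
          rw [if_neg hr, Polynomial.eval_zero, mul_zero]
      · exact mul_ne_zero hne (inv_ne_zero (pow_ne_zero _ ht))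
  obtain ⟨F, hF, hne⟩ := exists_poly_solution A Mx hsol
  refine ⟨F, fun i β hβ => ?_, hne⟩
  have hβk : ∀ k, β k < m i := by
    intro k
    have h1 : β k ≤ ∑ k, β k := single_le_sum (fun j _ => Nat.zero_le (β j)) (mem_univ k)
    rw [ULim_sum] at h1
    omega
  have h1 := hF ⟨i, fun k => ⟨β k, hβk k⟩⟩
  have h2 : Polynomial.X * ∑ α ∈ A, Polynomial.X ^ (e i * yd α + kp (yd α)) *
      (F α * Polynomial.C (tcr (p i) α β)) = 0 := by
    rw [← h1, mul_sum]
    refine sum_congr rfl fun α _ => ?_
    simp only [Mx]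
    rw [if_pos hβ]
    ring
  exact (mul_eq_zero.1 h2).resolve_left Polynomial.X_ne_zero

theorem limit_A {a b d : ℕ} (A : Finset (Z a b → ℕ)) (hA : A ⊆ Sx (Z a b) d) {κ : Type}
    [Fintype κ] (m : κ → ℕ) (c : κ → ℕ × ℕ) (hc : ∀ i, (c i).1 + (c i).2 ≤ d)
    (h : ∀ j ≤ d, (ASys (A.filter fun α => yd α = j)).gd (fun i => Lam d (m i) (c i) j) = 0) :
    GI A fun i => Kind.free (m i) := by
  classical
  obtain ⟨p, hp⟩ := (Gn.all (range (d + 1)) fun j _ =>
    gn_gd (ASys (A.filter fun α => yd α = j)) fun i => Lam d (m i) (c i) j).exists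
  have hbot : ∀ j ≤ d, (ASys (A.filter fun α => yd α = j)).V
      (fun i => Lam d (m i) (c i) j) p = ⊥ := by
    intro j hj
    have h1 := hp j (mem_range.2 (by omega))
    rw [h j hj] at h1
    exact Submodule.finrank_eq_zero.1 h1
  by_contra hcon
  obtain ⟨F, hF, α₀, hα₀, hne⟩ := ULim_poly A m (fun i => ex (d + 1) (c i).1 (c i).2)
    (kap (d + 1)) p hcon
  set K : κ → ℕ → ℕ := fun i j => ex (d + 1) (c i).1 (c i).2 * j + kap (d + 1) j with hK
  set g : (Z a b → ℕ) → Polynomial ℂ := fun α => if α ∈ A then F α else 0 with hg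
  -- the equations level by level
  have heq : ∀ i (β : Z a b → ℕ), xd β + yd β < m i →
      ∑ j ∈ range (d + 1), Polynomial.X ^ K i j *
        ∑ α ∈ Bx a b d j, g α * tcr (fun k => Polynomial.C (p i k)) α β = 0 := by
    intro i β hβ
    rw [← hF i β hβ]
    have h1 : ∀ j ∈ range (d + 1), Polynomial.X ^ K i j *
        ∑ α ∈ Bx a b d j, g α * tcr (fun k => Polynomial.C (p i k)) α β =
        ∑ α ∈ (Sx (Z a b) d).filter (fun α => yd α = j), Polynomial.X ^ K i (yd α) *
          (g α * Polynomial.C (tcr (p i) α β)) := by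
      intro j _
      rw [mul_sum]
      refine sum_congr rfl fun α hα => ?_
      rw [(mem_filter.1 hα).2, ULim_map (Polynomial.C : ℂ →+* Polynomial ℂ)]
    rw [sum_congr rfl h1]
    have h2 := sum_fiberwise_of_maps_to (s := Sx (Z a b) d) (t := range (d + 1))
      (g := fun α : Z a b → ℕ => yd α) (by
        intro α hα
        rw [mem_Sx, ULim_sum] at hα
        rw [mem_range]
        omega)
      (fun α => Polynomial.X ^ K i (yd α) * (g α * Polynomial.C (tcr (p i) α β)))
    rw [h2, ← sum_subset hA]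
    · refine sum_congr rfl fun α hα => ?_
      rw [hg]
      simp only
      rw [if_pos hα]
    · intro α _ hα
      rw [hg]
      simp only
      rw [if_neg hα, zero_mul, mul_zero]
  set j₀ := yd α₀ with hj₀
  have hj₀d : j₀ ≤ d := by
    have h1 := mem_Sx.1 (hA hα₀)
    rw [ULim_sum] at h1
    omega
  -- the values at zero
  have hmem : (fun α : {α // α ∈ A.filter fun α => yd α = j₀} => (F α.1).eval 0) ∈
      (ASys (A.filter fun α => yd α = j₀)).V (fun i => Lam d (m i) (c i) j₀) p := by
    rw [ULim_mem]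
    intro i β hβ
    obtain ⟨hβ1, hβ2, hβ3, hβ4⟩ := mem_filter.1 hβ
    simp only at hβ2 hβ3 hβ4
    set S : Finset ℕ := (range (d + 1)).filter fun j => yd β ≤ j ∧ j + xd β ≤ d ∧
      rk (d + 1) (c i).1 (c i).2 j < rk (d + 1) (c i).1 (c i).2 j₀ with hS
    have hcard : S.card = wr d (c i) (xd β, yd β) j₀ := rfl
    have h2 := weighted (d := d) (m := m i) (fun k => Polynomial.C (p i k)) g
      (fun j => Polynomial.X ^ K i j) (heq i) S β (by rw [hcard]; exact hβ4)
    have h3 := congrArg (fun q => Polynomial.coeff q (K i j₀)) h2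
    simp only [Polynomial.finsetSum_coeff, Polynomial.coeff_zero] at h3
    rw [sum_eq_single j₀] at h3
    · have h4 : (∏ u ∈ S, (((j₀ : ℕ) : Polynomial ℂ) - ((u : ℕ) : Polynomial ℂ))) =
          Polynomial.C (∏ u ∈ S, ((j₀ : ℂ) - (u : ℂ))) := by
        rw [map_prod]
        refine prod_congr rfl fun u _ => ?_
        rw [map_sub]
        simp
      rw [h4, Polynomial.coeff_C_mul, Polynomial.coeff_X_pow_mul', if_pos le_rfl,
        Nat.sub_self] at h3
      have h5 : (∏ u ∈ S, ((j₀ : ℂ) - (u : ℂ))) ≠ 0 := by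
        rw [prod_ne_zero_iff]
        intro u hu
        rw [sub_ne_zero]
        intro h6
        have h7 : j₀ = u := by exact_mod_cast h6
        have h8 := (mem_filter.1 hu).2.2.2
        rw [h7] at h8
        exact lt_irrefl _ h8
      have h6 := (mul_eq_zero.1 h3).resolve_left h5
      rw [Polynomial.coeff_zero_eq_eval_zero, Polynomial.eval_finsetSum] at h6
      refine Eq.trans (sum_coe_sort (A.filter fun α => yd α = j₀)
        (fun α => tcr (p i) α β * (F α).eval 0)) (Eq.trans ?_ h6)
      have h7 : A.filter (fun α => yd α = j₀) ⊆ Bx a b d j₀ := by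
        intro α hα
        obtain ⟨h8, h9⟩ := mem_filter.1 hα
        exact mem_filter.2 ⟨hA h8, h9⟩
      rw [← sum_subset h7]
      · refine sum_congr rfl fun α hα => ?_
        rw [hg]
        simp only
        rw [if_pos (mem_filter.1 hα).1, ULim_map (Polynomial.C : ℂ →+* Polynomial ℂ),
          Polynomial.eval_mul, Polynomial.eval_C, mul_comm]
      · intro α hα hα'
        have h8 : α ∉ A := by
          intro h9
          exact hα' (mem_filter.2 ⟨h9, (mem_filter.1 hα).2⟩)
        rw [hg]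
        simp only
        rw [if_neg h8, zero_mul, Polynomial.eval_zero]
    · intro j hj hne'
      rw [mem_range] at hj
      by_cases hw : yd β ≤ j ∧ j + xd β ≤ d
      · by_cases hjS : j ∈ S
        · rw [prod_eq_zero hjS (sub_self _), zero_mul, Polynomial.coeff_zero]
        · have h4 : rk (d + 1) (c i).1 (c i).2 j₀ ≤ rk (d + 1) (c i).1 (c i).2 j := by
            by_contra h5
            exact hjS (mem_filter.2 ⟨mem_range.2 hj, hw.1, hw.2, by omega⟩)
          have h5 : rk (d + 1) (c i).1 (c i).2 j₀ < rk (d + 1) (c i).1 (c i).2 j := by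
            refine lt_of_le_of_ne h4 fun h6 => hne' ?_
            exact (rk_inj (show (c i).1 + (c i).2 < d + 1 by have := hc i; omega)
              (show j₀ < d + 1 by omega) hj h6).symm
          have h6 := key_lt (show (c i).1 + (c i).2 < d + 1 by have := hc i; omega)
            (show j₀ < d + 1 by omega) hj h5
          rw [mul_left_comm, Polynomial.coeff_X_pow_mul', if_neg (by
            have h7 : K i j₀ < K i j := h6
            omega)]
      · have h4 : ∑ α ∈ Bx a b d j, g α * tcr (fun k => Polynomial.C (p i k)) α β = 0 := by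
          refine sum_eq_zero fun α hα => ?_
          rw [tcr_zero _ α β hα hw, mul_zero]
        rw [h4, mul_zero, mul_zero, Polynomial.coeff_zero]
    · intro hj
      exact absurd (mem_range.2 (by omega)) hj
  rw [hbot j₀ hj₀d, Submodule.mem_bot] at hmem
  exact hne (congrFun hmem ⟨α₀, mem_filter.2 ⟨hα₀, rfl⟩⟩)

end Pool.Agent.H51.TB

end

section

/-!
# V7, block ALPHA: the numbers of points of the chain

On the level `l` (`j ≤ l ≤ 2M-1`) of the chain there are `rho k * (ν - (l-j)).choose (dgr k - l)` points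
of the kind `k` (none if `dgr k < l`), `n = c ν + r` variables.  The kinds `ord M I` with
`range j ⊆ I` do not occur.
-/

set_option autoImplicit false

namespace Pool.Agent.V7

open Finset

/-- The number of points of the kind `k` on the level `l` is of degree `dgr k - l` in `n`. -/
def dgr (M : ℕ) : Kd → ℕ
  | .ord μ I => 2 * M - μ + I.card
  | .sw _ I => M + I.card

/-- The kinds of the chain which starts at the level `j`. -/
def Kd.In (M j : ℕ) : Kd → Prop
  | .ord μ I => μ = M → ¬ range j ⊆ I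
  | .sw i _ => i < j

instance (M j : ℕ) : DecidablePred (Kd.In M j) := fun k => by
  cases k <;> unfold Kd.In <;> infer_instance

/-- The densities. -/
def rho (M c : ℕ) : Kd → ℕ
  | .ord μ _ => if μ = M then c ^ M / (2 * M - 1).choose M + c ^ (M - 1) else 1
  | .sw _ _ => 3 * c ^ (M - 1)

/-- The number of points of the kind `k` on the level `l`. -/
def nmb (M c j l ν : ℕ) (k : Kd) : ℕ :=
  if k ∈ kds M l ∧ k.In M j ∧ l ≤ dgr M k then rho M c k * (ν - (l - j)).choose (dgr M k - l) else 0

/-- The configuration on the level `l`. -/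
def cfg (M c j l ν : ℕ) : Multiset Kd := ∑ k ∈ kds M l, Multiset.replicate (nmb M c j l ν k) k

end Pool.Agent.V7

end

section

/-!
# V7, block ALPHA, the chain: the numbers

Trace and residual of the configurations of the chain.
-/

set_option autoImplicit false

namespace Pool.Agent.V7

open Finset Pool.Agent.H51.TB Pool.Agent.V7.ST

/-- The index set of a kind. -/
def Kd.ix : Kd → Finset ℕ
  | .ord _ I => I
  | .sw _ I => I

/-- The kind without the subspace `L_l`. -/
def Kd.del (l : ℕ) : Kd → Kd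
  | .ord μ I => .ord μ (I.erase l)
  | .sw i I => .sw i (I.erase l)

theorem nmb_pos {M c j l ν : ℕ} {k : Kd} (h : k ∈ kds M l) (h' : k.In M j) (h'' : l ≤ dgr M k) :
    nmb M c j l ν k = rho M c k * (ν - (l - j)).choose (dgr M k - l) := if_pos ⟨h, h', h''⟩

theorem nmb_neg {M c j l ν : ℕ} {k : Kd} (h : ¬ (k ∈ kds M l ∧ k.In M j ∧ l ≤ dgr M k)) :
    nmb M c j l ν k = 0 := if_neg h

theorem nmb_of_not {M c j l ν : ℕ} {k : Kd} (h : k ∉ kds M l) : nmb M c j l ν k = 0 :=
  if_neg fun h1 => h h1.1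

theorem count_cfg (M c j l ν : ℕ) (k : Kd) : (cfg M c j l ν).count k = nmb M c j l ν k := by
  unfold cfg
  rw [Multiset.count_sum']
  simp only [Multiset.count_replicate]
  rw [Finset.sum_ite_eq']
  split_ifs with h
  · rfl
  · exact (nmb_of_not h).symm

theorem mem_cfg {M c j l ν : ℕ} {k : Kd} (h : k ∈ cfg M c j l ν) :
    k.Ok M l ∧ k.In M j ∧ l ≤ dgr M k := by
  have h1 := Multiset.count_pos.2 h
  rw [count_cfg] at h1
  unfold nmb at h1
  split_ifs at h1 with h2
  · exact ⟨mem_kds.1 h2.1, h2.2.1, h2.2.2⟩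
  · exact absurd h1 (lt_irrefl 0)

theorem notMem_ix {M l : ℕ} {k : Kd} (h : k ∈ kds M l) : l ∉ k.ix := by
  rw [mem_kds] at h
  cases k with
  | ord μ I =>
    intro h1
    exact absurd (mem_range.1 (h.2.2 h1)) (lt_irrefl l)
  | sw i I =>
    intro h1
    exact absurd (mem_Ico.1 (h.2 h1)).2 (lt_irrefl l)

theorem add_eq_iff {M l : ℕ} {k k' : Kd} (h : k' ∈ kds M l) :
    k'.add l = k ↔ l ∈ k.ix ∧ k' = k.del l := by
  have h1 := notMem_ix h
  constructor
  · rintro rfl
    cases k' with
    | ord μ I => exact ⟨mem_insert_self _ _, by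
        show Kd.ord μ I = Kd.ord μ ((insert l I).erase l)
        rw [erase_insert (show l ∉ I from h1)]⟩
    | sw i I => exact ⟨mem_insert_self _ _, by
        show Kd.sw i I = Kd.sw i ((insert l I).erase l)
        rw [erase_insert (show l ∉ I from h1)]⟩
  · rintro ⟨h2, rfl⟩
    cases k with
    | ord μ I =>
      show Kd.ord μ (insert l (I.erase l)) = Kd.ord μ I
      rw [insert_erase (show l ∈ I from h2)]
    | sw i I =>
      show Kd.sw i (insert l (I.erase l)) = Kd.sw i I
      rw [insert_erase (show l ∈ I from h2)]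

theorem mem_kds_del {M l : ℕ} {k : Kd} (h : l ∈ k.ix) : k ∈ kds M (l + 1) ↔ k.del l ∈ kds M l := by
  rw [mem_kds, mem_kds]
  cases k with
  | ord μ I =>
    show (1 ≤ μ ∧ μ ≤ M ∧ I ⊆ range (l + 1)) ↔ (1 ≤ μ ∧ μ ≤ M ∧ I.erase l ⊆ range l)
    refine and_congr_right fun _ => and_congr_right fun _ => ?_
    constructor
    · intro h1 x hx
      rw [mem_erase] at hx
      have h2 := mem_range.1 (h1 hx.2)
      rw [mem_range]
      omega
    · intro h1 x hx
      by_cases hx' : x = l
      · rw [hx', mem_range]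
        omega
      · have h2 := mem_range.1 (h1 (mem_erase.2 ⟨hx', hx⟩))
        rw [mem_range]
        omega
  | sw i I =>
    show (i < l + 1 ∧ I ⊆ Ico (i + 1) (l + 1)) ↔ (i < l ∧ I.erase l ⊆ Ico (i + 1) l)
    constructor
    · rintro ⟨_, h1⟩
      have h3 := (mem_Ico.1 (h1 h)).1
      refine ⟨by omega, fun x hx => ?_⟩
      rw [mem_erase] at hx
      have h2 := mem_Ico.1 (h1 hx.2)
      rw [mem_Ico]
      omega
    · rintro ⟨h0, h1⟩
      refine ⟨by omega, fun x hx => ?_⟩
      by_cases hx' : x = l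
      · rw [hx', mem_Ico]
        omega
      · have h2 := mem_Ico.1 (h1 (mem_erase.2 ⟨hx', hx⟩))
        rw [mem_Ico]
        omega

theorem mem_kds_off {M j l : ℕ} {k : Kd} (hjl : j ≤ l) (hk : k.In M j) (h : l ∉ k.ix) :
    k ∈ kds M (l + 1) ↔ k ∈ kds M l := by
  rw [mem_kds, mem_kds]
  cases k with
  | ord μ I =>
    show (1 ≤ μ ∧ μ ≤ M ∧ I ⊆ range (l + 1)) ↔ (1 ≤ μ ∧ μ ≤ M ∧ I ⊆ range l)
    refine and_congr_right fun _ => and_congr_right fun _ => ?_
    constructor
    · intro h1 x hx
      have h2 := mem_range.1 (h1 hx)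
      have h3 : x ≠ l := fun h4 => h (h4 ▸ hx)
      rw [mem_range]
      omega
    · intro h1 x hx
      have h2 := mem_range.1 (h1 hx)
      rw [mem_range]
      omega
  | sw i I =>
    show (i < l + 1 ∧ I ⊆ Ico (i + 1) (l + 1)) ↔ (i < l ∧ I ⊆ Ico (i + 1) l)
    have h0 : i < j := hk
    constructor
    · rintro ⟨_, h1⟩
      refine ⟨by omega, fun x hx => ?_⟩
      have h2 := mem_Ico.1 (h1 hx)
      have h3 : x ≠ l := fun h4 => h (h4 ▸ hx)
      rw [mem_Ico]
      omega
    · rintro ⟨_, h1⟩
      refine ⟨by omega, fun x hx => ?_⟩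
      have h2 := mem_Ico.1 (h1 hx)
      rw [mem_Ico]
      omega

theorem In_del {M j l : ℕ} (hjl : j ≤ l) {k : Kd} : (k.del l).In M j ↔ k.In M j := by
  cases k with
  | ord μ I =>
    show (μ = M → ¬ range j ⊆ I.erase l) ↔ (μ = M → ¬ range j ⊆ I)
    refine imp_congr_right fun _ => not_congr ?_
    rw [subset_erase]
    constructor
    · exact fun h => h.1
    · exact fun h => ⟨h, by rw [mem_range]; omega⟩
  | sw i I => exact Iff.rfl

theorem dgr_del {M l : ℕ} {k : Kd} (h : l ∈ k.ix) : dgr M (k.del l) + 1 = dgr M k := by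
  cases k with
  | ord μ I =>
    have h1 : (I.erase l).card + 1 = I.card := card_erase_add_one h
    show 2 * M - μ + (I.erase l).card + 1 = 2 * M - μ + I.card
    omega
  | sw i I =>
    have h1 : (I.erase l).card + 1 = I.card := card_erase_add_one h
    show M + (I.erase l).card + 1 = M + I.card
    omega

theorem rho_del {M c l : ℕ} {k : Kd} : rho M c (k.del l) = rho M c k := by
  cases k <;> rfl

theorem nmb_add {M c j l ν : ℕ} {k : Kd} (hjl : j ≤ l) (h : l ∈ k.ix) :
    nmb M c j (l + 1) (ν + 1) k = nmb M c j l ν (k.del l) := by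
  have h1 := dgr_del (M := M) h
  have h4 := mem_kds_del (M := M) h
  have h5 := In_del (M := M) hjl (k := k)
  by_cases h2 : k.del l ∈ kds M l ∧ (k.del l).In M j ∧ l ≤ dgr M (k.del l)
  · rw [nmb_pos (h4.2 h2.1) (h5.1 h2.2.1) (by omega), nmb_pos h2.1 h2.2.1 h2.2.2, rho_del]
    congr 2
    · omega
    · omega
  · rw [nmb_neg h2, nmb_neg fun h3 => h2 ⟨h4.1 h3.1, h5.2 h3.2.1, by omega⟩]

theorem nmb_off {M c j l ν : ℕ} {k : Kd} (hjl : j ≤ l) (hν : l ≤ ν + j) (h : l ∉ k.ix) :
    nmb M c j (l + 1) (ν + 1) k + nmb M c j l ν k = nmb M c j l (ν + 1) k := by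
  by_cases h0 : k.In M j
  · have h6 := mem_kds_off hjl h0 h
    by_cases h1 : k ∈ kds M l
    · have e1 : ν + 1 - (l - j) = (ν - (l - j)) + 1 := by omega
      have e2 : ν + 1 - (l + 1 - j) = ν - (l - j) := by omega
      rcases Nat.lt_trichotomy (dgr M k) l with h2 | h2 | h2
      · rw [nmb_neg fun h3 => absurd h3.2.2 (by omega), nmb_neg fun h3 => absurd h3.2.2 (by omega),
          nmb_neg fun h3 => absurd h3.2.2 (by omega)]
      · rw [nmb_neg fun h3 => absurd h3.2.2 (by omega), nmb_pos h1 h0 (by omega),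
          nmb_pos h1 h0 (by omega), h2, Nat.sub_self, Nat.choose_zero_right,
          Nat.choose_zero_right, zero_add]
      · rw [nmb_pos (h6.2 h1) h0 (by omega), nmb_pos h1 h0 (by omega), nmb_pos h1 h0 (by omega),
          e1, e2]
        have e3 : dgr M k - l = (dgr M k - (l + 1)) + 1 := by omega
        rw [e3, Nat.choose_succ_succ, mul_add]
    · rw [nmb_neg fun h3 => h1 (h6.1 h3.1), nmb_neg fun h3 => h1 h3.1, nmb_neg fun h3 => h1 h3.1]
  · rw [nmb_neg fun h3 => h0 h3.2.1, nmb_neg fun h3 => h0 h3.2.1, nmb_neg fun h3 => h0 h3.2.1]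

theorem nmb_mono {M c j l ν : ℕ} {k : Kd} : nmb M c j l ν k ≤ nmb M c j l (ν + 1) k := by
  unfold nmb
  split_ifs
  · exact Nat.mul_le_mul_left _ (Nat.choose_le_choose _ (by omega))
  · exact le_rfl

theorem cfg_mono {M c j l ν : ℕ} : cfg M c j l ν ≤ cfg M c j l (ν + 1) := by
  rw [Multiset.le_iff_count]
  intro k
  rw [count_cfg, count_cfg]
  exact nmb_mono

/-- Trace and residual of a configuration of the chain. -/
theorem cfg_step {M c j l ν : ℕ} (hjl : j ≤ l) (hν : l ≤ ν + j) :
    (cfg M c j l ν).map (Kd.add l) + (cfg M c j l (ν + 1) - cfg M c j l ν) =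
      cfg M c j (l + 1) (ν + 1) := by
  rw [Multiset.ext]
  intro k
  rw [Multiset.count_add, Multiset.count_sub, count_cfg, count_cfg, count_cfg]
  have h1 : ((cfg M c j l ν).map (Kd.add l)).count k =
      if l ∈ k.ix then nmb M c j l ν (k.del l) else 0 := by
    unfold cfg
    have e : (∑ k ∈ kds M l, Multiset.replicate (nmb M c j l ν k) k).map (Kd.add l) =
        ∑ k ∈ kds M l, (Multiset.replicate (nmb M c j l ν k) k).map (Kd.add l) :=
      map_sum (Multiset.mapAddMonoidHom (Kd.add l)) _ _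
    rw [e, Multiset.count_sum']
    simp only [Multiset.map_replicate, Multiset.count_replicate]
    split_ifs with h2
    · rw [Finset.sum_eq_single (k.del l)]
      · split_ifs with h3
        · rfl
        · by_cases h4 : k.del l ∈ kds M l
          · exact absurd ((add_eq_iff h4).2 ⟨h2, rfl⟩) h3
          · exact (nmb_of_not h4).symm
      · intro k' hk' hne
        exact if_neg fun h3 => hne ((add_eq_iff hk').1 h3).2
      · intro h4
        rw [nmb_of_not h4]
        exact ite_self 0
    · refine Finset.sum_eq_zero fun k' hk' => if_neg fun h3 => h2 ((add_eq_iff hk').1 h3).1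
  rw [h1]
  split_ifs with h2
  · have h3 : ∀ ν', nmb M c j l ν' k = 0 := fun ν' => nmb_of_not fun h4 => notMem_ix h4 h2
    rw [nmb_add hjl h2, h3, h3]
    omega
  · have h3 := nmb_off (M := M) (c := c) hjl hν h2
    omega

end Pool.Agent.V7

end
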