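import Pool.Agent.H94.LP7.M02
import Pool.Agent.H94.LP7.M104

/-! The parts of this file: H51.TB.LieD, V7.Num.BB, V7.Num.Asym. -/

section

/-!
# Module U2 (TB2): the Lie derivative of a section

Let `T i β = ∑_α F α * tcr (X_i) α β` (`α` in `Bu a b d j o e`; equivalently in `Bx a b d j`, as `F α = 0` for
`α_o > k`).  For `(xd β, yd β) ∈ m i`: `T i β = 0`.  Apply `pderiv (i', c)`: since
`pderiv (i', c) (tcr (X_i) α β) = [i' = i] (β_c + 1) * tcr (X_i) α (β + e_c)` one gets
`∑_α (pderiv (i', c) (F α)) * tcr (X_i) α β = - [i' = i] (β_c + 1) * T i (β + e_c)`.  Multiply by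
`X (i', o)` and sum over `i'`: the first part of `Lie` contributes `- X (i, o) (β_c + 1) T i (β + e_c)`.
For the second part use, with `α = α' - e_c + e_o` (i.e. `α' = sh o c α`, `α'_c ≥ 1`),
`α'_c * tcr q (α' - e_c + e_o) β = (β_c + 1) * (q_o * tcr q α' (β + e_c) + [β_o ≥ 1] tcr q α' (β + e_c - e_o))`
(`tcr_shift` below; `binom (α'_o + 1, β_o) = binom (α'_o, β_o) + binom (α'_o, β_o - 1)`).
As `α'` runs over the exponents of the level with `α'_c ≥ 1` (those with `α'_o > k` do not contribute,
the others give `α_o ≤ k + 1 ≤ e`), the second part contributes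
`(β_c + 1) (X (i, o) T i (β + e_c) + T i (β + e_c - e_o))`, and the last term vanishes since
`β + e_c - e_o` has the same bidegree as `β`.
-/

namespace Pool.Agent.H51.TB

open Finset MvPolynomial Pool.Agent.H18.Ex Pool.Agent.H21.NX Pool.Agent.H18.Ta

private theorem LieD_prod_zero {a b : ℕ} {κ : Type} (i i' : κ) (c : Fin a)
    (n m : Z a b → ℕ) (s : Finset (Z a b)) (hs : ∀ v ∈ s, (i', (Sum.inl c : Z a b)) ≠ (i, v)) :
    pderiv (i', (Sum.inl c : Z a b))
      (∏ v ∈ s, ((m v : ℕ) : MvPolynomial (κ × Z a b) ℂ) * X (i, v) ^ n v) = 0 := by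
  induction s using Finset.induction_on with
  | empty => rw [Finset.prod_empty]; exact Derivation.map_one_eq_zero _
  | insert v s hv ih =>
    rw [Finset.prod_insert hv, pderiv_mul, ih fun w hw => hs w (Finset.mem_insert_of_mem hw),
      mul_zero, add_zero, pderiv_mul, pderiv_pow,
      pderiv_X_of_ne (Ne.symm (hs v (Finset.mem_insert_self v s))), mul_zero, mul_zero, add_zero,
      Derivation.map_natCast, zero_mul, zero_mul]

private theorem LieD_up {a b : ℕ} (c : Z a b) (β : Z a b → ℕ) :
    β + Pi.single c 1 = Function.update β c (β c + 1) := by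
  funext v
  by_cases hv : v = c
  · subst hv
    simp
  · simp [hv]

/-- `pderiv` of a Taylor coefficient. -/
theorem pderiv_tcr {a b : ℕ} {κ : Type} (i i' : κ) (c : Fin a) (α β : Z a b → ℕ) :
    pderiv (i', Sum.inl c) (tcr (fun v => (X (i, v) : MvPolynomial (κ × Z a b) ℂ)) α β) =
      open Classical in if i' = i then ((β (Sum.inl c) + 1 : ℕ) : MvPolynomial (κ × Z a b) ℂ) *
        tcr (fun v => X (i, v)) α (β + Pi.single (Sum.inl c) 1) else 0 := by
  classical
  by_cases hi : i' = i
  · subst hi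
    rw [if_pos rfl, LieD_up, tcr_eq _ α β (Sum.inl c), tcr_eq _ α _ (Sum.inl c),
      rest_congr (q' := fun v => (X (i', v) : MvPolynomial (κ × Z a b) ℂ)) (a := α) (a' := α)
        (b := Function.update β (Sum.inl c) (β (Sum.inl c) + 1)) (b' := β) (l := Sum.inl c)
        (fun _ _ => rfl) (fun _ _ => rfl) (update_other β (Sum.inl c) _),
      Function.update_self, pderiv_mul,
      LieD_prod_zero i' i' c (fun v => α v - β v) (fun v => (α v).choose (β v))
        (univ.erase (Sum.inl c)) ?_, mul_zero, add_zero, pderiv_mul, pderiv_pow, pderiv_X_self,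
      Derivation.map_natCast, zero_mul, zero_add]
    · have h1 := Nat.choose_succ_right_eq (α (Sum.inl c)) (β (Sum.inl c))
      have h2 : (((α (Sum.inl c)).choose (β (Sum.inl c)) : ℕ) : MvPolynomial (κ × Z a b) ℂ) *
          ((α (Sum.inl c) - β (Sum.inl c) : ℕ) : MvPolynomial (κ × Z a b) ℂ) =
          (((α (Sum.inl c)).choose (β (Sum.inl c) + 1) : ℕ) : MvPolynomial (κ × Z a b) ℂ) *
          ((β (Sum.inl c) + 1 : ℕ) : MvPolynomial (κ × Z a b) ℂ) := by
        rw [← Nat.cast_mul, ← Nat.cast_mul, h1]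
      have h3 : α (Sum.inl c) - β (Sum.inl c) - 1 = α (Sum.inl c) - (β (Sum.inl c) + 1) := by
        omega
      rw [h3]
      linear_combination (X (i', (Sum.inl c : Z a b)) ^ (α (Sum.inl c) - (β (Sum.inl c) + 1)) *
        ∏ i ∈ univ.erase (Sum.inl c), (((α i).choose (β i) : ℕ) : MvPolynomial (κ × Z a b) ℂ) *
          X (i', i) ^ (α i - β i)) * h2
    · intro v hv h
      exact (ne_of_mem_erase hv) (Prod.mk.inj h).2.symm
  · rw [if_neg hi]
    exact LieD_prod_zero i i' c (fun v => α v - β v) (fun v => (α v).choose (β v)) univ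
      fun v _ h => hi (Prod.mk.inj h).1

private theorem LieD_c {R : Type*} [CommRing R] {a b : ℕ} (c : Z a b) (q : Z a b → R)
    (α β : Z a b → ℕ) :
    ((α c + 1 : ℕ) : R) * tcr q α β = ((β c + 1 : ℕ) : R) *
      tcr q (Function.update α c (α c + 1)) (Function.update β c (β c + 1)) := by
  rw [tcr_eq q α β c, tcr_eq q _ (Function.update β c (β c + 1)) c,
    rest_congr (q' := q) (a := Function.update α c (α c + 1)) (a' := α)
      (b := Function.update β c (β c + 1)) (b' := β) (l := c) (fun _ _ => rfl)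
      (update_other α c _) (update_other β c _), Function.update_self, Function.update_self,
    Nat.add_sub_add_right]
  have h1 := Nat.add_one_mul_choose_eq (α c) (β c)
  have h2 : ((α c + 1 : ℕ) : R) * (((α c).choose (β c) : ℕ) : R) =
      (((α c + 1).choose (β c + 1) : ℕ) : R) * ((β c + 1 : ℕ) : R) := by
    rw [← Nat.cast_mul, ← Nat.cast_mul]
    exact congrArg _ h1
  linear_combination (q c ^ (α c - β c) *
    ∏ i ∈ univ.erase c, (((α i).choose (β i) : ℕ) : R) * q i ^ (α i - β i)) * h2

/-- The binomial identity. -/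
theorem tcr_shift {R : Type*} [CommRing R] {a b : ℕ} (o c : Fin a) (hoc : c ≠ o) (q : Z a b → R)
    (α β : Z a b → ℕ) (hα : 1 ≤ α (Sum.inl o)) :
    ((α (Sum.inl c) + 1 : ℕ) : R) * tcr q α β =
      ((β (Sum.inl c) + 1 : ℕ) : R) *
        (q (Sum.inl o) * tcr q (sh o c α) (β + Pi.single (Sum.inl c) 1) +
          if 1 ≤ β (Sum.inl o) then tcr q (sh o c α) (sh o c β) else 0) := by
  have hne : (Sum.inl c : Z a b) ≠ Sum.inl o := fun h => hoc (Sum.inl.inj h)
  have hup : Function.update (Function.update α (Sum.inl o) (α (Sum.inl o) - 1)) (Sum.inl o)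
      (Function.update α (Sum.inl o) (α (Sum.inl o) - 1) (Sum.inl o) + 1) = α := by
    rw [Function.update_self, Function.update_idem, Nat.sub_add_cancel hα,
      Function.update_eq_self]
  have hac : Function.update α (Sum.inl o) (α (Sum.inl o) - 1) (Sum.inl c) = α (Sum.inl c) :=
    Function.update_of_ne hne _ _
  have hsh : Function.update (Function.update α (Sum.inl o) (α (Sum.inl o) - 1)) (Sum.inl c)
      (Function.update α (Sum.inl o) (α (Sum.inl o) - 1) (Sum.inl c) + 1) = sh o c α := by
    rw [hac]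
    rfl
  have h1 := LieD_c (Sum.inl c) q (Function.update α (Sum.inl o) (α (Sum.inl o) - 1)) β
  rw [hsh, hac] at h1
  rw [LieD_up]
  split_ifs with hβ
  · have hupb : Function.update (Function.update β (Sum.inl o) (β (Sum.inl o) - 1)) (Sum.inl o)
        (Function.update β (Sum.inl o) (β (Sum.inl o) - 1) (Sum.inl o) + 1) = β := by
      rw [Function.update_self, Function.update_idem, Nat.sub_add_cancel hβ,
        Function.update_eq_self]
    have hbc : Function.update β (Sum.inl o) (β (Sum.inl o) - 1) (Sum.inl c) = β (Sum.inl c) :=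
      Function.update_of_ne hne _ _
    have hshb : Function.update (Function.update β (Sum.inl o) (β (Sum.inl o) - 1)) (Sum.inl c)
        (Function.update β (Sum.inl o) (β (Sum.inl o) - 1) (Sum.inl c) + 1) = sh o c β := by
      rw [hbc]
      rfl
    have h2 := LieD_c (Sum.inl c) q (Function.update α (Sum.inl o) (α (Sum.inl o) - 1))
      (Function.update β (Sum.inl o) (β (Sum.inl o) - 1))
    rw [hsh, hshb, hac, hbc] at h2
    have h3 := tcr_up_up q (Function.update α (Sum.inl o) (α (Sum.inl o) - 1))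
      (Function.update β (Sum.inl o) (β (Sum.inl o) - 1)) (Sum.inl o)
    rw [hup, hupb] at h3
    rw [h3]
    linear_combination q (Sum.inl o) * h1 + h2
  · have h3 := tcr_up_zero q (Function.update α (Sum.inl o) (α (Sum.inl o) - 1)) β (Sum.inl o)
      (by omega)
    rw [hup] at h3
    rw [h3, add_zero]
    linear_combination q (Sum.inl o) * h1

private theorem LieD_sh_add {a b : ℕ} (o c : Fin a) (hoc : c ≠ o) (α : Z a b → ℕ)
    (hα : 1 ≤ α (Sum.inl o)) (v : Z a b) :
    sh o c α v + (if v = Sum.inl o then 1 else 0) = α v + (if v = Sum.inl c then 1 else 0) := by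
  have hne : (Sum.inl c : Z a b) ≠ Sum.inl o := fun h => hoc (Sum.inl.inj h)
  unfold sh
  by_cases h1 : v = Sum.inl c
  · rw [h1, Function.update_self, if_neg hne, if_pos rfl]
  · rw [Function.update_of_ne h1, if_neg h1]
    by_cases h2 : v = Sum.inl o
    · rw [h2, Function.update_self, if_pos rfl]
      omega
    · rw [Function.update_of_ne h2, if_neg h2]

private theorem LieD_xd {a b : ℕ} (o c : Fin a) (hoc : c ≠ o) (α : Z a b → ℕ)
    (hα : 1 ≤ α (Sum.inl o)) : xd (sh o c α) = xd α := by
  have h1 : ∑ i : Fin a, (sh o c α (Sum.inl i) + (if i = o then 1 else 0)) =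
      ∑ i : Fin a, (α (Sum.inl i) + (if i = c then 1 else 0)) := by
    refine sum_congr rfl fun i _ => ?_
    have h := LieD_sh_add o c hoc α hα (Sum.inl i)
    rw [if_congr (Sum.inl_injective.eq_iff (a := i) (b := o)) rfl rfl,
      if_congr (Sum.inl_injective.eq_iff (a := i) (b := c)) rfl rfl] at h
    exact h
  rw [sum_add_distrib, sum_add_distrib, sum_ite_eq' univ o, sum_ite_eq' univ c,
    if_pos (mem_univ _), if_pos (mem_univ _)] at h1
  unfold xd
  omega

private theorem LieD_yd {a b : ℕ} (o c : Fin a) (α : Z a b → ℕ) : yd (sh o c α) = yd α := by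
  unfold yd sh
  refine sum_congr rfl fun i _ => ?_
  rw [Function.update_of_ne Sum.inr_ne_inl, Function.update_of_ne Sum.inr_ne_inl]

private theorem LieD_o {a b : ℕ} (o c : Fin a) (hoc : c ≠ o) (α : Z a b → ℕ) :
    sh o c α (Sum.inl o) = α (Sum.inl o) - 1 := by
  unfold sh
  rw [Function.update_of_ne (fun h => hoc (Sum.inl.inj h).symm), Function.update_self]

private theorem LieD_cc {a b : ℕ} (o c : Fin a) (α : Z a b → ℕ) :
    sh o c α (Sum.inl c) = α (Sum.inl c) + 1 := by
  unfold sh
  rw [Function.update_self]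

private theorem LieD_inv {a b : ℕ} (o c : Fin a) (hoc : c ≠ o) (α : Z a b → ℕ)
    (hα : 1 ≤ α (Sum.inl o)) : sh c o (sh o c α) = α := by
  funext v
  have h1 := LieD_sh_add o c hoc α hα v
  have h2 := LieD_sh_add c o hoc.symm (sh o c α) (by rw [LieD_cc]; omega) v
  omega

private theorem LieD_tcr_zero {R : Type*} [CommRing R] {a b : ℕ} (c : Z a b) (q : Z a b → R)
    (α β : Z a b → ℕ) (h : α c < β c) : tcr q α β = 0 := by
  rw [tcr_eq q α β c, Nat.choose_eq_zero_of_lt h, Nat.cast_zero, zero_mul, zero_mul]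

theorem lie_sec {a b d j e k : ℕ} {κ : Type} [Fintype κ] (o c : Fin a) (hoc : c ≠ o) (hk : k < e)
    (m : κ → Finset (ℕ × ℕ)) (F : (Z a b → ℕ) → MvPolynomial (κ × Z a b) ℂ)
    (hF : Sec (Bu a b d j o e) m F)
    (h0 : ∀ α ∈ Bx a b d j, k < α (Sum.inl o) → F α = 0) :
    Sec (Bu a b d j o e) m (Lie o c F) := by
  classical
  intro i β hβ
  have hT := hF i β hβ
  -- the first part
  have h1 : ∀ i' : κ, ∑ α ∈ Bu a b d j o e, pderiv (i', Sum.inl c) (F α) *
      tcr (fun v => X (i, v)) α β = - (if i' = i then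
        ((β (Sum.inl c) + 1 : ℕ) : MvPolynomial (κ × Z a b) ℂ) *
          ∑ α ∈ Bu a b d j o e, F α * tcr (fun v => X (i, v)) α (β + Pi.single (Sum.inl c) 1)
        else 0) := by
    intro i'
    have h2 : pderiv (i', (Sum.inl c : Z a b)) (∑ α ∈ Bu a b d j o e, F α *
        tcr (fun v => (X (i, v) : MvPolynomial (κ × Z a b) ℂ)) α β) = 0 := by
      rw [hT, map_zero]
    rw [map_sum] at h2
    have h3 : ∀ α ∈ Bu a b d j o e, pderiv (i', (Sum.inl c : Z a b)) (F α *
        tcr (fun v => (X (i, v) : MvPolynomial (κ × Z a b) ℂ)) α β) =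
        pderiv (i', Sum.inl c) (F α) * tcr (fun v => X (i, v)) α β +
          (if i' = i then ((β (Sum.inl c) + 1 : ℕ) : MvPolynomial (κ × Z a b) ℂ) *
            (F α * tcr (fun v => X (i, v)) α (β + Pi.single (Sum.inl c) 1)) else 0) := by
      intro α _
      rw [pderiv_mul, pderiv_tcr]
      split_ifs
      · ring
      · rw [mul_zero]
    rw [sum_congr rfl h3, sum_add_distrib] at h2
    rw [eq_neg_of_add_eq_zero_left h2]
    congr 1
    by_cases hi : i' = i
    · rw [if_pos hi, mul_sum]
      exact sum_congr rfl fun α _ => by rw [if_pos hi]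
    · rw [if_neg hi]
      exact sum_eq_zero fun α _ => by rw [if_neg hi]
  have hA : ∑ α ∈ Bu a b d j o e, (∑ i' : κ, X (i', Sum.inl o) * pderiv (i', Sum.inl c) (F α)) *
      tcr (fun v => X (i, v)) α β = - (X (i, Sum.inl o) *
        (((β (Sum.inl c) + 1 : ℕ) : MvPolynomial (κ × Z a b) ℂ) *
        ∑ α ∈ Bu a b d j o e, F α * tcr (fun v => X (i, v)) α (β + Pi.single (Sum.inl c) 1))) := by
    have h2 : ∑ α ∈ Bu a b d j o e,
        (∑ i' : κ, X (i', Sum.inl o) * pderiv (i', Sum.inl c) (F α)) *
        tcr (fun v => X (i, v)) α β = ∑ i' : κ, X (i', Sum.inl o) *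
          ∑ α ∈ Bu a b d j o e, pderiv (i', Sum.inl c) (F α) * tcr (fun v => X (i, v)) α β := by
      simp_rw [sum_mul, mul_sum]
      rw [sum_comm]
      exact sum_congr rfl fun i' _ => sum_congr rfl fun α _ => by ring
    rw [h2, sum_eq_single i]
    · rw [h1 i, if_pos rfl, mul_neg]
    · intro i' _ hne
      rw [h1 i', if_neg hne, neg_zero, mul_zero]
    · intro h
      exact absurd (mem_univ i) h
  -- the second part
  have hB : ∑ α ∈ Bu a b d j o e, (if 1 ≤ α (Sum.inl o) then
      ((α (Sum.inl c) + 1 : ℕ) : MvPolynomial (κ × Z a b) ℂ) * F (sh o c α) else 0) *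
      tcr (fun v => X (i, v)) α β = ((β (Sum.inl c) + 1 : ℕ) : MvPolynomial (κ × Z a b) ℂ) *
        (X (i, Sum.inl o) * ∑ α ∈ Bu a b d j o e, F α *
          tcr (fun v => X (i, v)) α (β + Pi.single (Sum.inl c) 1) +
        if 1 ≤ β (Sum.inl o) then ∑ α ∈ Bu a b d j o e, F α *
          tcr (fun v => X (i, v)) α (sh o c β) else 0) := by
    have h2 : ∑ α ∈ Bu a b d j o e, (if 1 ≤ α (Sum.inl o) then
        ((α (Sum.inl c) + 1 : ℕ) : MvPolynomial (κ × Z a b) ℂ) * F (sh o c α) else 0) *
        tcr (fun v => X (i, v)) α β =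
        ∑ α ∈ (Bu a b d j o e).filter (fun α => 1 ≤ α (Sum.inl o)),
          F (sh o c α) * (((β (Sum.inl c) + 1 : ℕ) : MvPolynomial (κ × Z a b) ℂ) *
            (X (i, Sum.inl o) * tcr (fun v => X (i, v)) (sh o c α)
              (β + Pi.single (Sum.inl c) 1) +
            if 1 ≤ β (Sum.inl o) then tcr (fun v => X (i, v)) (sh o c α) (sh o c β) else 0)) := by
      rw [sum_filter]
      refine sum_congr rfl fun α _ => ?_
      split_ifs with hα hβo
      · have h := tcr_shift o c hoc (fun v => (X (i, v) : MvPolynomial (κ × Z a b) ℂ)) α β hα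
        rw [if_pos hβo] at h
        linear_combination F (sh o c α) * h
      · have h := tcr_shift o c hoc (fun v => (X (i, v) : MvPolynomial (κ × Z a b) ℂ)) α β hα
        rw [if_neg hβo] at h
        linear_combination F (sh o c α) * h
      · rw [zero_mul]
    rw [h2]
    have h3 : ∑ α ∈ (Bu a b d j o e).filter (fun α => 1 ≤ α (Sum.inl o)),
          F (sh o c α) * (((β (Sum.inl c) + 1 : ℕ) : MvPolynomial (κ × Z a b) ℂ) *
            (X (i, Sum.inl o) * tcr (fun v => X (i, v)) (sh o c α)
              (β + Pi.single (Sum.inl c) 1) +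
            if 1 ≤ β (Sum.inl o) then tcr (fun v => X (i, v)) (sh o c α) (sh o c β) else 0)) =
        ∑ α ∈ (Bx a b d j).filter (fun α => 1 ≤ α (Sum.inl c) ∧ α (Sum.inl o) + 1 ≤ e),
          F α * (((β (Sum.inl c) + 1 : ℕ) : MvPolynomial (κ × Z a b) ℂ) *
            (X (i, Sum.inl o) * tcr (fun v => X (i, v)) α
              (β + Pi.single (Sum.inl c) 1) +
            if 1 ≤ β (Sum.inl o) then tcr (fun v => X (i, v)) α (sh o c β) else 0)) := by
      refine sum_nbij' (sh o c) (sh c o) ?_ ?_ ?_ ?_ ?_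
      · intro α hα
        rw [mem_filter] at hα
        obtain ⟨hα1, hα2⟩ := hα
        unfold Bu at hα1
        rw [mem_filter, mem_Bx] at hα1
        rw [mem_filter, mem_Bx, LieD_xd o c hoc α hα2, LieD_yd, LieD_cc, LieD_o o c hoc]
        exact ⟨hα1.1, by omega, by omega⟩
      · intro α hα
        rw [mem_filter, mem_Bx] at hα
        obtain ⟨hα1, hα2, hα3⟩ := hα
        rw [mem_filter]
        unfold Bu
        rw [mem_filter, mem_Bx, LieD_xd c o hoc.symm α hα2, LieD_yd, LieD_cc]
        exact ⟨⟨hα1, hα3⟩, by omega⟩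
      · intro α hα
        exact LieD_inv o c hoc α (mem_filter.1 hα).2
      · intro α hα
        exact LieD_inv c o hoc.symm α (mem_filter.1 hα).2.1
      · intro α _
        rfl
    rw [h3]
    have h4 : ∑ α ∈ (Bx a b d j).filter (fun α => 1 ≤ α (Sum.inl c) ∧ α (Sum.inl o) + 1 ≤ e),
          F α * (((β (Sum.inl c) + 1 : ℕ) : MvPolynomial (κ × Z a b) ℂ) *
            (X (i, Sum.inl o) * tcr (fun v => X (i, v)) α
              (β + Pi.single (Sum.inl c) 1) +
            if 1 ≤ β (Sum.inl o) then tcr (fun v => X (i, v)) α (sh o c β) else 0)) =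
        ∑ α ∈ Bu a b d j o e,
          F α * (((β (Sum.inl c) + 1 : ℕ) : MvPolynomial (κ × Z a b) ℂ) *
            (X (i, Sum.inl o) * tcr (fun v => X (i, v)) α
              (β + Pi.single (Sum.inl c) 1) +
            if 1 ≤ β (Sum.inl o) then tcr (fun v => X (i, v)) α (sh o c β) else 0)) := by
      refine sum_subset ?_ ?_
      · intro α hα
        rw [mem_filter] at hα
        unfold Bu
        rw [mem_filter]
        exact ⟨hα.1, by omega⟩
      · intro α hα hn
        unfold Bu at hα
        rw [mem_filter] at hα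
        rw [mem_filter] at hn
        by_cases hc0 : 1 ≤ α (Sum.inl c)
        · have ho : k < α (Sum.inl o) := by
            by_contra hle
            exact hn ⟨hα.1, hc0, by omega⟩
          rw [h0 α hα.1 ho, zero_mul]
        · have e1 : tcr (fun v => (X (i, v) : MvPolynomial (κ × Z a b) ℂ)) α
              (β + Pi.single (Sum.inl c) 1) = 0 := by
            refine LieD_tcr_zero (Sum.inl c) _ _ _ ?_
            rw [LieD_up, Function.update_self]
            omega
          have e2 : tcr (fun v => (X (i, v) : MvPolynomial (κ × Z a b) ℂ)) α (sh o c β) = 0 := by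
            refine LieD_tcr_zero (Sum.inl c) _ _ _ ?_
            rw [LieD_cc]
            omega
          rw [e1, e2, mul_zero, zero_add, ite_self, mul_zero, mul_zero]
    rw [h4, mul_add, mul_sum, mul_sum]
    split_ifs with hβo
    · rw [mul_sum, ← sum_add_distrib]
      exact sum_congr rfl fun α _ => by ring
    · rw [mul_zero, add_zero]
      exact sum_congr rfl fun α _ => by ring
  have hC : (if 1 ≤ β (Sum.inl o) then ∑ α ∈ Bu a b d j o e, F α *
          tcr (fun v => (X (i, v) : MvPolynomial (κ × Z a b) ℂ)) α (sh o c β) else 0) = 0 := by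
    split_ifs with hβo
    · refine hF i (sh o c β) ?_
      rw [LieD_xd o c hoc β hβo, LieD_yd]
      exact hβ
    · rfl
  have hsum : ∑ α ∈ Bu a b d j o e, Lie o c F α * tcr (fun v => X (i, v)) α β =
      ∑ α ∈ Bu a b d j o e, (∑ i' : κ, X (i', Sum.inl o) * pderiv (i', Sum.inl c) (F α)) *
        tcr (fun v => X (i, v)) α β +
      ∑ α ∈ Bu a b d j o e, (if 1 ≤ α (Sum.inl o) then
        ((α (Sum.inl c) + 1 : ℕ) : MvPolynomial (κ × Z a b) ℂ) * F (sh o c α) else 0) *
        tcr (fun v => X (i, v)) α β := by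
    rw [← sum_add_distrib]
    exact sum_congr rfl fun α _ => by
      unfold Lie
      rw [add_mul]
  rw [hsum, hA, hB, hC]
  ring

end Pool.Agent.H51.TB

end

section

/-!
# V7, NUM: the numbers `bb`

`bb_vand` (one more block of free variables), `bb_zero`, `bb_self`.
-/

set_option autoImplicit false

namespace Pool.Agent.V7

open Finset

/-- Vandermonde for `multichoose`. -/
theorem mc_vand (n c k : ℕ) :
    (n + c).multichoose k = ∑ l ∈ range (k + 1), c.multichoose l * n.multichoose (k - l) := by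
  induction c generalizing k with
  | zero =>
    rw [sum_range_succ']
    have h1 : ∑ l ∈ range k, Nat.multichoose 0 (l + 1) * n.multichoose (k - (l + 1)) = 0 :=
      sum_eq_zero fun l _ => by rw [Nat.multichoose_zero_succ, zero_mul]
    rw [h1, Nat.multichoose_zero_right, zero_add, one_mul, Nat.add_zero, Nat.sub_zero]
  | succ c ihc =>
    induction k with
    | zero => simp
    | succ k ihk =>
      have h1 : (n + (c + 1)).multichoose (k + 1) =
          (n + c).multichoose (k + 1) + (n + (c + 1)).multichoose k := by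
        rw [← add_assoc, Nat.multichoose_succ_succ]
      rw [h1, ihc (k + 1), ihk, sum_range_succ', sum_range_succ' _ (k + 1)]
      simp only [Nat.multichoose_zero_right, one_mul, Nat.sub_zero]
      have h2 : ∀ l ∈ range (k + 1), (c + 1).multichoose (l + 1) * n.multichoose (k + 1 - (l + 1)) =
          c.multichoose (l + 1) * n.multichoose (k + 1 - (l + 1)) +
            (c + 1).multichoose l * n.multichoose (k - l) := by
        intro l _
        rw [Nat.multichoose_succ_succ, add_mul, Nat.add_sub_add_right]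
      rw [sum_congr rfl h2, sum_add_distrib]
      ring

/-- NUM-A1. -/
theorem bb_vand (c k j n : ℕ) (h : j * c ≤ n) :
    bb c k j (n + c) = ∑ l ∈ range (k + 1), c.multichoose l * bb c (k - l) j n := by
  induction j generalizing n k with
  | zero => exact mc_vand n c k
  | succ j ih =>
    have h1 : j * c + c ≤ n := by
      rw [add_mul, one_mul] at h
      exact h
    obtain ⟨n, rfl⟩ : ∃ n', n = n' + c := ⟨n - c, by omega⟩
    have h2 : j * c ≤ n := by omega
    have h3 : ∀ k, bb c k j n ≤ bb c k j (n + c) := by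
      intro k
      rw [ih k n h2, sum_range_succ']
      simp
    show bb c k j (n + c + c) - bb c k j (n + c + c - c) =
      ∑ l ∈ range (k + 1), c.multichoose l * (bb c (k - l) j (n + c) - bb c (k - l) j (n + c - c))
    rw [Nat.add_sub_cancel, Nat.add_sub_cancel, ih k (n + c) (by omega)]
    conv_lhs => rw [ih k n h2]
    have h4 : ∑ l ∈ range (k + 1), c.multichoose l * bb c (k - l) j (n + c) =
        ∑ l ∈ range (k + 1), c.multichoose l * (bb c (k - l) j (n + c) - bb c (k - l) j n) +
          ∑ l ∈ range (k + 1), c.multichoose l * bb c (k - l) j n := by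
      rw [← sum_add_distrib]
      refine sum_congr rfl fun l _ => ?_
      rw [← mul_add, Nat.sub_add_cancel (h3 (k - l))]
    rw [h4, Nat.add_sub_cancel]

/-- The monomials which meet one more block, by their degree in this block. -/
theorem bb_succ_sum (c k j n : ℕ) (h : (j + 1) * c ≤ n) :
    bb c k (j + 1) n = ∑ l ∈ range k, c.multichoose (l + 1) * bb c (k - (l + 1)) j (n - c) := by
  have h1 : j * c + c ≤ n := by
    rw [add_mul, one_mul] at h
    exact h
  obtain ⟨n, rfl⟩ : ∃ n', n = n' + c := ⟨n - c, by omega⟩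
  show bb c k j (n + c) - bb c k j (n + c - c) = _
  rw [Nat.add_sub_cancel, bb_vand c k j n (by omega), sum_range_succ']
  simp

/-- NUM-A3. -/
theorem bb_zero (c k j n : ℕ) (h : j * c ≤ n) (hk : k < j) : bb c k j n = 0 := by
  induction j generalizing n k with
  | zero => exact absurd hk (Nat.not_lt_zero k)
  | succ j ih =>
    rw [bb_succ_sum c k j n h]
    refine sum_eq_zero fun l hl => ?_
    rw [mem_range] at hl
    have h1 : j * c + c ≤ n := by
      rw [add_mul, one_mul] at h
      exact h
    rw [ih (k - (l + 1)) (n - c) (by omega) (by omega), mul_zero]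

/-- NUM-A4. -/
theorem bb_self (c k n : ℕ) (h : k * c ≤ n) : bb c k k n = c ^ k := by
  induction k generalizing n with
  | zero => exact Nat.multichoose_zero_right n
  | succ k ih =>
    have h1 : k * c + c ≤ n := by
      rw [add_mul, one_mul] at h
      exact h
    rw [bb_succ_sum c (k + 1) k n h, sum_range_succ']
    have h2 : ∑ l ∈ range k, c.multichoose (l + 1 + 1) * bb c (k + 1 - (l + 1 + 1)) k (n - c) = 0 := by
      refine sum_eq_zero fun l hl => ?_
      rw [mem_range] at hl
      rw [bb_zero c (k + 1 - (l + 1 + 1)) k (n - c) (by omega) (by omega), mul_zero]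
    rw [h2, zero_add]
    show c.multichoose 1 * bb c (k + 1 - 1) k (n - c) = c ^ (k + 1)
    rw [Nat.add_sub_cancel, ih (n - c) (by omega), Nat.multichoose_one_right, pow_succ, mul_comm]

end Pool.Agent.V7

end

section

/-!
# V7, NUM: the asymptotic size of the numbers `bb`
-/

set_option autoImplicit false

namespace Pool.Agent.V7

open Finset Polynomial

/-- The polynomials with the values `bb`. -/
private noncomputable def asymP (c k : ℕ) : ℕ → ℝ[X]
  | 0 => C (1 / (k.factorial : ℝ)) * ascPochhammer ℝ k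
  | j + 1 => asymP c k j - (asymP c k j).comp (X - C (c : ℝ))

private theorem asym_coeff_comp (c : ℝ) (p : ℝ[X]) (D : ℕ) (hp : p.natDegree ≤ D) (m : ℕ) :
    (p.comp (X - C c)).coeff m =
      ∑ i ∈ range (D + 1), p.coeff i * ((-c) ^ (i - m) * (i.choose m : ℝ)) := by
  rw [comp_eq_sum_left, p.sum_over_range' _ (D + 1) (by omega), finsetSum_coeff]
  · refine sum_congr rfl fun i _ => ?_
    rw [coeff_C_mul, sub_eq_add_neg, ← C_neg, coeff_X_add_C_pow]
  · intro i
    rw [C_0, zero_mul]

private theorem asym_step (c : ℝ) (p : ℝ[X]) (D : ℕ) (hp : p.natDegree ≤ D + 1) :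
    (p - p.comp (X - C c)).natDegree ≤ D ∧
      (p - p.comp (X - C c)).coeff D = c * (D + 1) * p.coeff (D + 1) := by
  constructor
  · rw [natDegree_le_iff_coeff_eq_zero]
    intro N hN
    rw [coeff_sub, asym_coeff_comp c p (D + 1) hp]
    rcases Nat.lt_or_ge (D + 1) N with h | h
    · rw [coeff_eq_zero_of_natDegree_lt (lt_of_le_of_lt hp h), zero_sub, neg_eq_zero]
      refine sum_eq_zero fun i hi => ?_
      rw [mem_range] at hi
      rw [Nat.choose_eq_zero_of_lt (by omega), Nat.cast_zero, mul_zero, mul_zero]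
    · obtain rfl : N = D + 1 := by omega
      rw [sum_range_succ, Nat.sub_self, pow_zero, Nat.choose_self, Nat.cast_one, mul_one, mul_one]
      have h1 : ∑ i ∈ range (D + 1), p.coeff i * ((-c) ^ (i - (D + 1)) *
          (i.choose (D + 1) : ℝ)) = 0 := by
        refine sum_eq_zero fun i hi => ?_
        rw [mem_range] at hi
        rw [Nat.choose_eq_zero_of_lt hi, Nat.cast_zero, mul_zero, mul_zero]
      rw [h1]
      ring
  · rw [coeff_sub, asym_coeff_comp c p (D + 1) hp, sum_range_succ, sum_range_succ]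
    have h1 : ∑ i ∈ range D, p.coeff i * ((-c) ^ (i - D) * (i.choose D : ℝ)) = 0 := by
      refine sum_eq_zero fun i hi => ?_
      rw [mem_range] at hi
      rw [Nat.choose_eq_zero_of_lt hi, Nat.cast_zero, mul_zero, mul_zero]
    rw [h1, Nat.sub_self, pow_zero, Nat.choose_self, Nat.cast_one, Nat.add_sub_cancel_left, pow_one,
      Nat.choose_succ_self_right]
    push_cast
    ring

private theorem asymP_eval (c k j n : ℕ) (h : j * c ≤ n) :
    (asymP c k j).eval (n : ℝ) = (bb c k j n : ℝ) := by
  induction j generalizing n with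
  | zero =>
    show (C (1 / (k.factorial : ℝ)) * ascPochhammer ℝ k).eval (n : ℝ) = (n.multichoose k : ℝ)
    rw [eval_mul, eval_C, ascPochhammer_nat_eq_natCast_ascFactorial]
    have h1 : n.ascFactorial k = k.factorial * n.multichoose k := by
      rw [Nat.multichoose_eq, Nat.ascFactorial_eq_factorial_mul_choose']
    rw [h1, Nat.cast_mul]
    have h2 : (k.factorial : ℝ) ≠ 0 := by exact_mod_cast k.factorial_ne_zero
    field_simp
  | succ j ih =>
    have h1 : j * c + c ≤ n := by
      rw [add_mul, one_mul] at h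
      exact h
    obtain ⟨n, rfl⟩ : ∃ n', n = n' + c := ⟨n - c, by omega⟩
    have h2 : j * c ≤ n := by omega
    have h3 : bb c k j n ≤ bb c k j (n + c) := by
      rw [bb_vand c k j n h2, sum_range_succ']
      simp
    show (asymP c k j - (asymP c k j).comp (X - C (c : ℝ))).eval ((n + c : ℕ) : ℝ) =
      ((bb c k j (n + c) - bb c k j (n + c - c) : ℕ) : ℝ)
    rw [Nat.add_sub_cancel, Nat.cast_sub h3, eval_sub, eval_comp, ih (n + c) (by omega), eval_sub,
      eval_X, eval_C]
    have h4 : ((n + c : ℕ) : ℝ) - (c : ℝ) = (n : ℝ) := by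
      push_cast
      ring
    rw [h4, ih n h2]

private theorem asymP_deg (c k j : ℕ) (hj : j ≤ k) :
    (asymP c k j).natDegree ≤ k - j ∧
      (asymP c k j).coeff (k - j) = (c : ℝ) ^ j / ((k - j).factorial : ℝ) := by
  induction j with
  | zero =>
    show (C (1 / (k.factorial : ℝ)) * ascPochhammer ℝ k).natDegree ≤ k - 0 ∧
      (C (1 / (k.factorial : ℝ)) * ascPochhammer ℝ k).coeff (k - 0) =
        (c : ℝ) ^ 0 / ((k - 0).factorial : ℝ)
    rw [Nat.sub_zero, pow_zero]
    have h1 : (ascPochhammer ℝ k).natDegree = k := ascPochhammer_natDegree ℝ k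
    refine ⟨(natDegree_C_mul_le _ _).trans h1.le, ?_⟩
    rw [coeff_C_mul]
    have h2 : (ascPochhammer ℝ k).coeff k = 1 := by
      have h3 := monic_ascPochhammer ℝ k
      rw [Monic, leadingCoeff, h1] at h3
      exact h3
    rw [h2, mul_one]
  | succ j ih =>
    obtain ⟨D, hD⟩ : ∃ D, k - j = D + 1 := ⟨k - j - 1, by omega⟩
    have hD' : k - (j + 1) = D := by omega
    obtain ⟨h1, h2⟩ := ih (by omega)
    rw [hD] at h1 h2
    rw [hD']
    obtain ⟨h3, h4⟩ := asym_step (c : ℝ) (asymP c k j) D h1
    refine ⟨h3, ?_⟩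
    show (asymP c k j - (asymP c k j).comp (X - C (c : ℝ))).coeff D = _
    rw [h4, h2, Nat.factorial_succ, pow_succ]
    have h5 : (D.factorial : ℝ) ≠ 0 := by exact_mod_cast D.factorial_ne_zero
    have h6 : ((D : ℝ) + 1) ≠ 0 := by positivity
    push_cast
    field_simp

/-- NUM-A5. -/
theorem bb_asym (c k j : ℕ) (hj : j ≤ k) : ∃ K : ℝ, 0 < K ∧ ∀ n : ℕ, 1 ≤ n → j * c ≤ n →
    |(bb c k j n : ℝ) - (c : ℝ) ^ j / ((k - j).factorial : ℝ) * (n : ℝ) ^ (k - j)| ≤
      K / n * (n : ℝ) ^ (k - j) := by
  obtain ⟨h1, h2⟩ := asymP_deg c k j hj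
  set p := asymP c k j with hp
  set D := k - j with hD
  refine ⟨(∑ i ∈ range D, |p.coeff i|) + 1, by positivity, fun n hn hjn => ?_⟩
  have hn1 : (1 : ℝ) ≤ (n : ℝ) := by exact_mod_cast hn
  have hn0 : (0 : ℝ) < (n : ℝ) := by linarith
  rw [← asymP_eval c k j n hjn, ← h2, ← hp, eval_eq_sum_range' (Nat.lt_succ_of_le h1),
    sum_range_succ, add_sub_cancel_right]
  calc |∑ i ∈ range D, p.coeff i * (n : ℝ) ^ i| ≤ ∑ i ∈ range D, |p.coeff i * (n : ℝ) ^ i| :=
        abs_sum_le_sum_abs _ _
    _ ≤ ∑ i ∈ range D, |p.coeff i| * (1 / (n : ℝ) * (n : ℝ) ^ D) := by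
        refine sum_le_sum fun i hi => ?_
        rw [mem_range] at hi
        rw [abs_mul, abs_of_nonneg (pow_nonneg hn0.le i)]
        refine mul_le_mul_of_nonneg_left ?_ (abs_nonneg _)
        obtain ⟨E, hE⟩ : ∃ E, D = E + 1 := ⟨D - 1, by omega⟩
        rw [hE, pow_succ, one_div, mul_comm ((n : ℝ) ^ E), inv_mul_cancel_left₀ hn0.ne']
        exact pow_le_pow_right₀ hn1 (by omega)
    _ = (∑ i ∈ range D, |p.coeff i|) * (1 / (n : ℝ) * (n : ℝ) ^ D) := by rw [sum_mul]
    _ ≤ ((∑ i ∈ range D, |p.coeff i|) + 1) * (1 / (n : ℝ) * (n : ℝ) ^ D) := by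
        refine mul_le_mul_of_nonneg_right (by linarith) (by positivity)
    _ = ((∑ i ∈ range D, |p.coeff i|) + 1) / n * (n : ℝ) ^ D := by ring

end Pool.Agent.V7

end
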