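import Pool.Agent.H94.LP7.M103

/-! The parts of this file: H21.NX.NumA, H51.TB.Sect, V7.CritB. -/

section

/-!
# Module NumA: upper and lower bounds for `ell`

`ell n c = binom(c + n - 1, n) = binom(c + n - 1, c - 1)` for `c ≥ 1` (`Nat.choose_symm_diff`);
`Nat.choose_le_pow`, `Nat.pow_le_choose` (or `Nat.pow_sub_le_descFactorial`,
`Nat.choose_eq_descFactorial_div_factorial`; or induction with `ell_mul_add`-type identities).
-/

namespace Pool.Agent.H21.NX

open Pool.Agent.H18.Ex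

private theorem numA_ell_eq (s k : ℕ) : ell s (k + 1) = (k + s).choose k := by
  unfold ell
  rw [show k + 1 + s - 1 = k + s by omega, Nat.choose_symm_add]

private theorem numA_choose_le (n k : ℕ) : n.choose k ≤ n ^ k := by
  have h1 : n.choose k ≤ n.descFactorial k := by
    rw [Nat.descFactorial_eq_factorial_mul_choose]
    exact Nat.le_mul_of_pos_left _ (Nat.factorial_pos k)
  exact h1.trans (Nat.descFactorial_le_pow n k)

private theorem numA_le_choose (n k : ℕ) : (n + 1 - k) ^ k ≤ (k + 1) ^ (k + 1) * n.choose k := by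
  have h1 := Nat.pow_sub_le_descFactorial n k
  rw [Nat.descFactorial_eq_factorial_mul_choose] at h1
  refine h1.trans (Nat.mul_le_mul_right _ ?_)
  calc k.factorial ≤ (k + 1).factorial := Nat.factorial_le (Nat.le_succ k)
    _ ≤ (k + 1) ^ (k + 1) := Nat.factorial_le_pow (k + 1)

theorem ell_le_pow (s c : ℕ) (hc : 1 ≤ c) (h : c ≤ s) : ell s c ≤ (2 * s) ^ (c - 1) := by
  obtain ⟨k, rfl⟩ : ∃ k, c = k + 1 := ⟨c - 1, by omega⟩
  rw [numA_ell_eq, Nat.add_sub_cancel]
  exact (numA_choose_le _ _).trans (Nat.pow_le_pow_left (by omega) _)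

theorem ell_succ_le_pow (s c : ℕ) (hc : 1 ≤ c) (h : c ≤ s) :
    ell (s + 1) c ≤ (2 * s) ^ (c - 1) := by
  obtain ⟨k, rfl⟩ : ∃ k, c = k + 1 := ⟨c - 1, by omega⟩
  rw [numA_ell_eq, Nat.add_sub_cancel]
  exact (numA_choose_le _ _).trans (Nat.pow_le_pow_left (by omega) _)

theorem pow_le_ell (s c : ℕ) (hc : 1 ≤ c) : s ^ (c - 1) ≤ c ^ c * ell s c := by
  obtain ⟨k, rfl⟩ : ∃ k, c = k + 1 := ⟨c - 1, by omega⟩
  rw [numA_ell_eq, Nat.add_sub_cancel]
  refine le_trans (Nat.pow_le_pow_left ?_ _) (numA_le_choose (k + s) k)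
  omega

theorem pow_le_ell_succ (s c : ℕ) (hc : 1 ≤ c) : s ^ (c - 1) ≤ c ^ c * ell (s + 1) c := by
  obtain ⟨k, rfl⟩ : ∃ k, c = k + 1 := ⟨c - 1, by omega⟩
  rw [numA_ell_eq, Nat.add_sub_cancel]
  refine le_trans (Nat.pow_le_pow_left ?_ _) (numA_le_choose (k + (s + 1)) k)
  omega

end Pool.Agent.H21.NX

end

section

/-!
# Module U1 (TB2): sections

If the general dimension is not `0`, there are nonzero solutions with polynomial coefficients.

Proof.  Let `K` be the fraction field of `R = MvPolynomial (κ × ν) ℂ` and `Mx` the matrix over `R` of all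
conditions (rows `Σ i, S.R (m i)`, finite; columns `E`).  If `Mx` has a nonzero kernel vector over `K`, clear
denominators.  Otherwise its rank over `K` is `card E`, so some square submatrix with all columns has a
nonzero determinant, a polynomial; at a position where it does not vanish `V m p = ⊥`, so `gd m = 0`.
(Compare the proof of `exists_poly_solution` in `Pool/Agent/H18/Ex/OnePar.lean`.  Alternatively: let
`r < card E` be the largest rank at a position, take an `r`-minor which is a nonzero polynomial, add one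
column and use Cramer's rule; all `(r+1)`-minors vanish identically.)
-/

namespace Pool.Agent.H51.TB

open Finset MvPolynomial

variable {E ν T : Type} [Fintype E] (S : Sys E ν T) {κ : Type}

private theorem Sect_solution {α ρ σ : Type} [Fintype ρ] [Fintype α]
    (Mx : ρ → α → MvPolynomial σ ℂ)
    (h : ∀ t : σ → ℂ, ∃ f : α → ℂ, (∀ r, ∑ a, f a * eval t (Mx r a) = 0) ∧ ∃ a, f a ≠ 0) :
    ∃ F : α → MvPolynomial σ ℂ, (∀ r, ∑ a, Mx r a * F a = 0) ∧ ∃ a, F a ≠ 0 := by
  classical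
  let K := FractionRing (MvPolynomial σ ℂ)
  let φ : MvPolynomial σ ℂ →+* K := algebraMap (MvPolynomial σ ℂ) K
  have hφ : Function.Injective φ := IsFractionRing.injective (MvPolynomial σ ℂ) K
  let Mk : Matrix ρ α K := fun r a => φ (Mx r a)
  by_cases hker : LinearMap.ker Mk.mulVecLin = ⊥
  · exfalso
    obtain ⟨g, hg⟩ := LinearMap.exists_leftInverse_of_injective Mk.mulVecLin hker
    let B : Matrix α ρ K := LinearMap.toMatrix' g
    have hB : B * Mk = 1 := by
      have h1 : LinearMap.toMatrix' (g ∘ₗ Mk.mulVecLin) = 1 := by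
        rw [hg, LinearMap.toMatrix'_id]
      rw [LinearMap.toMatrix'_comp] at h1
      rw [← h1]
      congr 1
      rw [← Matrix.toLin'_apply', LinearMap.toMatrix'_toLin']
    obtain ⟨δ, hδ⟩ := IsLocalization.exist_integer_multiples_of_finite
      (nonZeroDivisors (MvPolynomial σ ℂ)) (fun x : α × ρ => B x.1 x.2)
    choose B' hB' using hδ
    have hδ0 : (δ : MvPolynomial σ ℂ) ≠ 0 := nonZeroDivisors.coe_ne_zero δ
    have key : ∀ a a' : α, ∑ r, B' (a, r) * Mx r a' = if a = a' then (δ : MvPolynomial σ ℂ) else 0 := by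
      intro a a'
      apply hφ
      rw [map_sum]
      have h1 : ∀ r, φ (B' (a, r) * Mx r a') = φ δ * (B a r * Mk r a') := by
        intro r
        rw [map_mul]
        have h2 := hB' (a, r)
        rw [Algebra.smul_def] at h2
        rw [show φ (B' (a, r)) = φ δ * B a r from h2]
        show φ δ * B a r * φ (Mx r a') = φ δ * (B a r * φ (Mx r a'))
        ring
      rw [sum_congr rfl fun r _ => h1 r, ← mul_sum]
      have h3 : ∑ r, B a r * Mk r a' = (B * Mk) a a' := rfl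
      rw [h3, hB, Matrix.one_apply]
      split_ifs with hh
      · rw [mul_one]
      · rw [mul_zero, map_zero]
    obtain ⟨t, ht⟩ : ∃ t : σ → ℂ, eval t (δ : MvPolynomial σ ℂ) ≠ 0 := by
      by_contra hcon
      push Not at hcon
      apply hδ0
      exact MvPolynomial.funext fun t => by rw [hcon t, map_zero]
    obtain ⟨f, hf, a, hfa⟩ := h t
    apply hfa
    have h4 : eval t (δ : MvPolynomial σ ℂ) * f a = 0 := by
      have h5 : ∑ a' : α, (∑ r, eval t (B' (a, r)) * eval t (Mx r a')) * f a' = 0 := by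
        simp only [sum_mul]
        rw [sum_comm]
        refine sum_eq_zero fun r _ => ?_
        have h6 := hf r
        have h7 : ∑ a' : α, eval t (B' (a, r)) * eval t (Mx r a') * f a' =
            eval t (B' (a, r)) * ∑ a' : α, f a' * eval t (Mx r a') := by
          rw [mul_sum]
          exact sum_congr rfl fun a' _ => by ring
        rw [h7, h6, mul_zero]
      have h8 : ∀ a' : α, (∑ r, eval t (B' (a, r)) * eval t (Mx r a')) =
          if a = a' then eval t (δ : MvPolynomial σ ℂ) else 0 := by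
        intro a'
        have h9 := congrArg (eval t) (key a a')
        rw [map_sum] at h9
        simp only [map_mul] at h9
        rw [h9]
        split_ifs
        · rfl
        · exact map_zero _
      rw [sum_congr rfl fun a' _ => by rw [h8 a']] at h5
      rw [Finset.sum_eq_single a] at h5
      · rw [if_pos rfl] at h5
        exact h5
      · intro b _ hb
        rw [if_neg (fun h => hb h.symm), zero_mul]
      · intro hh
        exact absurd (mem_univ _) hh
    rcases mul_eq_zero.1 h4 with h5 | h5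
    · exact absurd h5 ht
    · exact h5
  · obtain ⟨v, hv, hv0⟩ := (Submodule.ne_bot_iff _).1 hker
    rw [LinearMap.mem_ker, Matrix.mulVecLin_apply] at hv
    obtain ⟨a₀, ha₀⟩ : ∃ a, v a ≠ 0 := by
      by_contra hcon
      push Not at hcon
      exact hv0 (funext hcon)
    obtain ⟨δ, hδ⟩ := IsLocalization.exist_integer_multiples_of_finite
      (nonZeroDivisors (MvPolynomial σ ℂ)) v
    choose F hF' using hδ
    have hδ0 : (δ : MvPolynomial σ ℂ) ≠ 0 := nonZeroDivisors.coe_ne_zero δ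
    have hFa : ∀ a : α, φ (F a) = φ δ * v a := by
      intro a
      have h2 := hF' a
      rw [Algebra.smul_def] at h2
      exact h2
    refine ⟨F, ?_, a₀, ?_⟩
    · intro r
      apply hφ
      rw [map_zero, map_sum]
      have h1 : ∑ a : α, φ (Mx r a * F a) = φ δ * ∑ a : α, Mk r a * v a := by
        rw [mul_sum]
        refine sum_congr rfl fun a _ => ?_
        rw [map_mul, hFa a]
        show φ (Mx r a) * (φ δ * v a) = φ δ * (φ (Mx r a) * v a)
        ring
      rw [h1]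
      have h2 : ∑ a : α, Mk r a * v a = Mk.mulVec v r := rfl
      rw [h2, hv]
      show φ δ * 0 = 0
      rw [mul_zero]
    · intro hz
      have h1 := hFa a₀
      rw [hz, map_zero] at h1
      rcases mul_eq_zero.1 h1.symm with h2 | h2
      · apply hδ0
        apply hφ
        rw [h2, map_zero]
      · exact ha₀ h2

theorem exists_section [Fintype κ] (m : κ → T) (h : S.gd m ≠ 0) :
    ∃ F : E → MvPolynomial (κ × ν) ℂ, (∃ e, F e ≠ 0) ∧
      ∀ i (r : S.R (m i)), ∑ e, rename (fun v => (i, v)) (S.co (m i) r e) * F e = 0 := by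
  classical
  have hfin : ∀ i, Finite (S.R (m i)) := fun i => S.fin (m i)
  let _ : Fintype (Σ i, S.R (m i)) := Fintype.ofFinite _
  obtain ⟨F, hF, hne⟩ := Sect_solution (ρ := Σ i, S.R (m i)) (σ := κ × ν)
    (fun x e => rename (fun v => (x.1, v)) (S.co (m x.1) x.2 e)) (by
      intro t
      have h1 : Module.finrank ℂ (S.V m fun i v => t (i, v)) ≠ 0 := by
        intro h0
        apply h
        unfold Sys.gd
        exact Nat.sInf_eq_zero.2 (Or.inl ⟨_, h0⟩)
      have h2 : S.V m (fun i v => t (i, v)) ≠ ⊥ := by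
        intro hb
        rw [hb] at h1
        exact h1 (finrank_bot ℂ (E → ℂ))
      obtain ⟨f, hf, hf0⟩ := (Submodule.ne_bot_iff _).1 h2
      refine ⟨f, fun r => ?_, ?_⟩
      · have h3 := hf r.1 r.2
        rw [← h3]
        refine sum_congr rfl fun e _ => ?_
        rw [eval_rename, mul_comm]
        rfl
      · by_contra hcon
        push Not at hcon
        exact hf0 (funext hcon))
  exact ⟨F, hne, fun i r => hF ⟨i, r⟩⟩

/-- The values of a section are solutions. -/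
theorem section_mem (m : κ → T) (F : E → MvPolynomial (κ × ν) ℂ)
    (hF : ∀ i (r : S.R (m i)), ∑ e, rename (fun v => (i, v)) (S.co (m i) r e) * F e = 0)
    (p : κ → ν → ℂ) : (fun e => eval (fun x : κ × ν => p x.1 x.2) (F e)) ∈ S.V m p := by
  rw [S.mem_V]
  intro i r
  have h1 := congrArg (eval (fun x : κ × ν => p x.1 x.2)) (hF i r)
  rw [map_sum, map_zero] at h1
  rw [← h1]
  refine sum_congr rfl fun e _ => ?_
  rw [map_mul, eval_rename]
  rfl

end Pool.Agent.H51.TB

end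

section

/-!
# V7: the numbers for `PROP M c 0 → Crit M`
-/

namespace Pool.Agent.V7

open Finset
open Pool.Agent.H18.Ex (ell ell_mono ell_pos)
open Pool.Agent.H21.NX (ell_le_pow pow_le_ell)

/-- `binom(2M-1+r, r) * (C * M!) = ell r M * ∏_(i < M) (r + M + i)`. -/
theorem critB_prod (M r : ℕ) (hM : 1 ≤ M) :
    (2 * M - 1 + r).choose r * ((2 * M - 1).choose M * M.factorial) =
      ell r M * ∏ i ∈ range M, (r + M + i) := by
  -- multiply by `(M - 1)! * r!`
  have h1 : (2 * M - 1).choose M * M.factorial * (M - 1).factorial = (2 * M - 1).factorial := by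
    have h := Nat.choose_mul_factorial_mul_factorial (show M ≤ 2 * M - 1 by omega)
    rwa [show 2 * M - 1 - M = M - 1 by omega] at h
  have h2 : (2 * M - 1 + r).choose r * r.factorial * (2 * M - 1).factorial =
      (2 * M - 1 + r).factorial := by
    have h := Nat.choose_mul_factorial_mul_factorial (show r ≤ 2 * M - 1 + r by omega)
    rwa [show 2 * M - 1 + r - r = 2 * M - 1 by omega] at h
  have h3 : ell r M * r.factorial * (M - 1).factorial = (M + r - 1).factorial := by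
    have h := Nat.choose_mul_factorial_mul_factorial (show r ≤ M + r - 1 by omega)
    rwa [show M + r - 1 - r = M - 1 by omega] at h
  have h4 : (M + r - 1).factorial * ∏ i ∈ range M, (r + M + i) = (2 * M - 1 + r).factorial := by
    have h := Nat.factorial_mul_ascFactorial (M + r - 1) M
    rw [show M + r - 1 + M = 2 * M - 1 + r by omega] at h
    rw [← h, Nat.ascFactorial_eq_prod_range]
    congr 1
    refine Finset.prod_congr rfl fun i _ => ?_
    omega
  have hpos : 0 < (M - 1).factorial * r.factorial := by positivity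
  refine Nat.eq_of_mul_eq_mul_right hpos ?_
  calc (2 * M - 1 + r).choose r * ((2 * M - 1).choose M * M.factorial) *
        ((M - 1).factorial * r.factorial)
      = (2 * M - 1 + r).choose r * r.factorial *
        ((2 * M - 1).choose M * M.factorial * (M - 1).factorial) := by ring
    _ = (2 * M - 1 + r).factorial := by rw [h1, h2]
    _ = (M + r - 1).factorial * ∏ i ∈ range M, (r + M + i) := h4.symm
    _ = (ell r M * r.factorial * (M - 1).factorial) * ∏ i ∈ range M, (r + M + i) := by rw [h3]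
    _ = _ := by ring

/-- The product is close to `n ^ M`, `n = r + 1`. -/
theorem critB_lim (M : ℕ) (δ : ℝ) (hδ : 0 < δ) : ∃ r₀ : ℕ, ∀ r, r₀ ≤ r →
    |((∏ i ∈ range M, (r + M + i) : ℕ) : ℝ) - ((r + 1 : ℕ) : ℝ) ^ M| ≤ δ * ((r + 1 : ℕ) : ℝ) ^ M := by
  have h1 : Filter.Tendsto (fun r : ℕ => ∏ i ∈ range M, (((r + M + i : ℕ) : ℝ) / ((r + 1 : ℕ) : ℝ)))
      Filter.atTop (nhds (∏ _i ∈ range M, (1 : ℝ))) := by
    refine tendsto_finsetProd _ fun i _ => ?_
    have h2 : (fun r : ℕ => ((r + M + i : ℕ) : ℝ) / ((r + 1 : ℕ) : ℝ)) =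
        fun r : ℕ => 1 + ((M : ℝ) + i - 1) / ((r + 1 : ℕ) : ℝ) := by
      funext r
      have : ((r + 1 : ℕ) : ℝ) ≠ 0 := by positivity
      field_simp
      push_cast
      ring
    rw [h2]
    have h3 : Filter.Tendsto (fun r : ℕ => ((M : ℝ) + i - 1) / ((r + 1 : ℕ) : ℝ)) Filter.atTop
        (nhds 0) :=
      Filter.Tendsto.div_atTop tendsto_const_nhds
        ((tendsto_natCast_atTop_atTop).comp (Filter.tendsto_add_atTop_nat 1))
    simpa using h3.const_add 1
  rw [Finset.prod_const_one] at h1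
  have h2 := (Metric.tendsto_atTop.1 h1) δ hδ
  obtain ⟨r₀, h⟩ := h2
  refine ⟨r₀, fun r hr => ?_⟩
  have h3 := (h r hr).le
  rw [Real.dist_eq, Finset.prod_div_distrib, Finset.prod_const, Finset.card_range] at h3
  have hpos : (0 : ℝ) < ((r + 1 : ℕ) : ℝ) ^ M := by positivity
  have h4 : ((∏ i ∈ range M, (r + M + i) : ℕ) : ℝ) - ((r + 1 : ℕ) : ℝ) ^ M =
      ((∏ i ∈ range M, ((r + M + i : ℕ) : ℝ)) / ((r + 1 : ℕ) : ℝ) ^ M - 1) *
        ((r + 1 : ℕ) : ℝ) ^ M := by
    rw [sub_mul, one_mul, div_mul_cancel₀ _ hpos.ne', Nat.cast_prod]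
  rw [h4, abs_mul, abs_of_pos hpos]
  exact mul_le_mul_of_nonneg_right h3 hpos.le

/-- The number of the `M`-fold points. -/
theorem critB_top (M : ℕ) (hM : 1 ≤ M) (e : ℝ) (he : 0 < e) : ∃ ε : ℝ, 0 < ε ∧ ∃ r₀ : ℕ,
    ∀ r, r₀ ≤ r → ∀ N : ℕ, |((N * ell r M : ℕ) : ℝ) - ((2 * M - 1 + r).choose r : ℝ)| ≤
      ε * ((2 * M - 1 + r).choose r : ℝ) →
    |(N : ℝ) - 1 / (((2 * M - 1).choose M : ℝ) * (M.factorial : ℝ)) * ((r + 1 : ℕ) : ℝ) ^ M| ≤
      e * ((r + 1 : ℕ) : ℝ) ^ M := by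
  obtain ⟨r₀, h⟩ := critB_lim M (min 1 (e / 4)) (by positivity)
  refine ⟨e / 4, by positivity, r₀, fun r hr N hN => ?_⟩
  have h1 := h r hr
  obtain ⟨s, hs⟩ : ∃ s : ℝ, s = ((2 * M - 1 + r).choose r : ℝ) := ⟨_, rfl⟩
  obtain ⟨ℓ, hℓ⟩ : ∃ ℓ : ℝ, ℓ = (ell r M : ℝ) := ⟨_, rfl⟩
  obtain ⟨Q, hQ⟩ : ∃ Q : ℝ, Q = ((∏ i ∈ range M, (r + M + i) : ℕ) : ℝ) := ⟨_, rfl⟩
  obtain ⟨D, hD⟩ : ∃ D : ℝ, D = ((2 * M - 1).choose M : ℝ) * (M.factorial : ℝ) := ⟨_, rfl⟩
  obtain ⟨P, hP⟩ : ∃ P : ℝ, P = ((r + 1 : ℕ) : ℝ) ^ M := ⟨_, rfl⟩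
  have hprod : s * D = ℓ * Q := by
    have := critB_prod M r hM
    rw [hs, hD, hℓ, hQ]
    exact_mod_cast this
  have hℓ1 : 1 ≤ ℓ := by
    rw [hℓ]
    exact_mod_cast ell_pos r hM
  have hD1 : 1 ≤ D := by
    rw [hD]
    have h2 : 1 ≤ (2 * M - 1).choose M := Nat.choose_pos (by omega)
    have h3 : 1 ≤ M.factorial := Nat.factorial_pos M
    have h4 : 1 ≤ (2 * M - 1).choose M * M.factorial := Nat.one_le_iff_ne_zero.2 (by positivity)
    exact_mod_cast h4
  have hPpos : 0 ≤ P := by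
    rw [hP]
    positivity
  rw [← hP, ← hQ] at h1
  rw [← hs] at hN
  rw [← hD, ← hP]
  have hN' : |(N : ℝ) * ℓ - s| ≤ e / 4 * s := by
    rw [hℓ]
    have : ((N * ell r M : ℕ) : ℝ) = (N : ℝ) * (ell r M : ℝ) := by push_cast; ring
    rwa [this] at hN
  have hmin1 : min 1 (e / 4) ≤ 1 := min_le_left _ _
  have hmin2 : min 1 (e / 4) ≤ e / 4 := min_le_right _ _
  rw [abs_le] at hN' h1
  -- `|N D - Q| ≤ (e / 4) Q`
  have h5 : (N : ℝ) * D - Q ≤ e / 4 * Q := by
    have : ℓ * ((N : ℝ) * D - Q) ≤ ℓ * (e / 4 * Q) := by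
      have h6 := mul_le_mul_of_nonneg_right hN'.2 (by linarith : (0 : ℝ) ≤ D)
      nlinarith
    exact le_of_mul_le_mul_left this (by linarith)
  have h5' : -(e / 4 * Q) ≤ (N : ℝ) * D - Q := by
    have : ℓ * (-(e / 4 * Q)) ≤ ℓ * ((N : ℝ) * D - Q) := by
      have h6 := mul_le_mul_of_nonneg_right hN'.1 (by linarith : (0 : ℝ) ≤ D)
      nlinarith
    exact le_of_mul_le_mul_left this (by linarith)
  have hQ2 : Q ≤ 2 * P := by nlinarith [h1.2]
  have h7 : |(N : ℝ) * D - P| ≤ e * P := by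
    rw [abs_le]
    constructor <;> nlinarith [h1.1, h1.2]
  have h8 : (N : ℝ) - 1 / D * P = ((N : ℝ) * D - P) / D := by
    field_simp
  rw [h8, abs_div, abs_of_pos (by linarith : (0 : ℝ) < D), div_le_iff₀ (by linarith)]
  have : 0 ≤ e * P := by positivity
  nlinarith

/-- The numbers of the points of smaller multiplicity. -/
theorem critB_sml (M : ℕ) (hM : 1 ≤ M) (e : ℝ) (he : 0 < e) : ∃ ε : ℝ, 0 < ε ∧ ∀ r, 2 * M ≤ r →
    ∀ μ, 1 ≤ μ → μ < M → ∀ N : ℕ, ((N * ell r μ : ℕ) : ℝ) ≤ ε * ((2 * M - 1 + r).choose r : ℝ) →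
    (N : ℝ) ≤ e * ((r + 1 : ℕ) : ℝ) ^ (2 * M - μ) := by
  obtain ⟨K, hK⟩ : ∃ K : ℝ, K = (2 * M : ℝ) ^ (2 * M) * 2 ^ (2 * M) * 2 ^ (2 * M - 1) := ⟨_, rfl⟩
  have hKpos : 0 < K := by
    rw [hK]
    have : (0 : ℝ) < M := by exact_mod_cast hM
    positivity
  refine ⟨e / K, by positivity, fun r hr μ hμ1 hμM N hN => ?_⟩
  have hs : (((2 * M - 1 + r).choose r : ℕ) : ℝ) ≤ 2 ^ (2 * M - 1) * (r : ℝ) ^ (2 * M - 1) := by
    have h1 := ell_le_pow r (2 * M) (by omega) hr
    have h2 : ell r (2 * M) = (2 * M - 1 + r).choose r := by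
      unfold ell
      rw [show 2 * M + r - 1 = 2 * M - 1 + r by omega]
    rw [h2, mul_pow] at h1
    exact_mod_cast h1
  have hl : (r : ℝ) ^ (μ - 1) ≤ (2 * M : ℝ) ^ (2 * M) * (ell r μ : ℝ) := by
    have h1 := pow_le_ell r μ hμ1
    have h2 : μ ^ μ ≤ (2 * M) ^ (2 * M) := by
      calc μ ^ μ ≤ (2 * M) ^ μ := Nat.pow_le_pow_left (by omega) μ
        _ ≤ (2 * M) ^ (2 * M) := Nat.pow_le_pow_right (by omega) (by omega)
    have h3 := h1.trans (Nat.mul_le_mul_right (ell r μ) h2)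
    exact_mod_cast h3
  have hr0 : (0 : ℝ) < r := by exact_mod_cast (show 0 < r by omega)
  -- `N r^(μ-1) ≤ (2M)^(2M) N ell ≤ ...`
  have h1 : (N : ℝ) * (r : ℝ) ^ (μ - 1) ≤
      (2 * M : ℝ) ^ (2 * M) * (e / K * (2 ^ (2 * M - 1) * (r : ℝ) ^ (2 * M - 1))) := by
    calc (N : ℝ) * (r : ℝ) ^ (μ - 1) ≤ (N : ℝ) * ((2 * M : ℝ) ^ (2 * M) * (ell r μ : ℝ)) :=
          mul_le_mul_of_nonneg_left hl (Nat.cast_nonneg _)
      _ = (2 * M : ℝ) ^ (2 * M) * ((N * ell r μ : ℕ) : ℝ) := by push_cast; ring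
      _ ≤ (2 * M : ℝ) ^ (2 * M) * (e / K * ((2 * M - 1 + r).choose r : ℝ)) :=
          mul_le_mul_of_nonneg_left hN (by positivity)
      _ ≤ _ := by
          refine mul_le_mul_of_nonneg_left (mul_le_mul_of_nonneg_left hs (by positivity))
            (by positivity)
  have h2 : (r : ℝ) ^ (2 * M - 1) = (r : ℝ) ^ (2 * M - μ) * (r : ℝ) ^ (μ - 1) := by
    rw [← pow_add]
    congr 1
    omega
  rw [h2] at h1
  have h3 : (N : ℝ) ≤ (2 * M : ℝ) ^ (2 * M) * (e / K * (2 ^ (2 * M - 1) * (r : ℝ) ^ (2 * M - μ))) := by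
    have hp : (0 : ℝ) < (r : ℝ) ^ (μ - 1) := by positivity
    refine le_of_mul_le_mul_right ?_ hp
    calc (N : ℝ) * (r : ℝ) ^ (μ - 1) ≤ _ := h1
      _ = _ := by ring
  have h4 : (r : ℝ) ^ (2 * M - μ) ≤ ((r + 1 : ℕ) : ℝ) ^ (2 * M - μ) :=
    pow_le_pow_left₀ hr0.le (by push_cast; linarith) _
  refine h3.trans ?_
  calc (2 * M : ℝ) ^ (2 * M) * (e / K * (2 ^ (2 * M - 1) * (r : ℝ) ^ (2 * M - μ)))
      = e * ((2 * M : ℝ) ^ (2 * M) * 2 ^ (2 * M - 1) / K) * (r : ℝ) ^ (2 * M - μ) := by ring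
    _ ≤ e * 1 * (r : ℝ) ^ (2 * M - μ) := by
        have : (2 * M : ℝ) ^ (2 * M) * 2 ^ (2 * M - 1) / K ≤ 1 := by
          rw [div_le_one hKpos, hK]
          have h5 : (1 : ℝ) ≤ 2 ^ (2 * M) := one_le_pow₀ (by norm_num)
          have h6 : (0 : ℝ) ≤ (2 * M : ℝ) ^ (2 * M) * 2 ^ (2 * M - 1) := by positivity
          nlinarith
        have h7 : (0 : ℝ) ≤ (r : ℝ) ^ (2 * M - μ) := by positivity
        exact mul_le_mul_of_nonneg_right (mul_le_mul_of_nonneg_left this he.le) h7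
    _ ≤ e * ((r + 1 : ℕ) : ℝ) ^ (2 * M - μ) := by
        rw [mul_one]
        exact mul_le_mul_of_nonneg_left h4 he.le

end Pool.Agent.V7

end
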