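import Pool.Agent.H94.LP7.M106
import Pool.Agent.H94.LP7.M119
import Pool.Agent.H94.LP7.M121
import Pool.Agent.H94.LP7.M23
import Pool.Agent.H94.LP7.M24
import Pool.Agent.H94.LP7.M35
import Pool.Agent.H94.LP7.M48

/-! The parts of this file: H18.Ex.Asm, H21.NX.MaxGM, H21.NX.NumB, KQ.M3, V7.AL.WinK, V7.CritA, V7.AL.BaseAbs, V7.ST.F3. -/

section

/-!
# Module Asm: assembly of the induction step
-/

namespace Pool.Agent.H18.Ex

open Finset

section

variable {ι : Type} [Fintype ι] [DecidableEq ι]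

/-- Replace the forced conditions on `x_l = 0`. -/
def Cfg.upd (c : Cfg ι) (l : ι) (X : Multiset (ℕ × ℕ)) (s : ℕ) : Cfg ι where
  N := c.N
  s := s
  Φ := Function.update c.Φ l X

theorem Cfg.kinds_split (c : Cfg ι) (l : ι) :
    c.kinds = c.N.map Kind.free + Multiset.replicate c.s (Kind.free 1) +
      ∑ i ∈ univ.erase l, ((c.Φ i).map fun x => Kind.forced i x.1 x.2) +
      (c.Φ l).map fun x => Kind.forced l x.1 x.2 := by
  unfold Cfg.kinds
  rw [← add_sum_erase univ _ (mem_univ l), add_comm ((c.Φ l).map _), ← add_assoc]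

theorem Cfg.kinds_upd (c : Cfg ι) (l : ι) (X : Multiset (ℕ × ℕ)) (s : ℕ) :
    (c.upd l X s).kinds = c.N.map Kind.free + Multiset.replicate s (Kind.free 1) +
      ∑ i ∈ univ.erase l, ((c.Φ i).map fun x => Kind.forced i x.1 x.2) +
      X.map fun x => Kind.forced l x.1 x.2 := by
  rw [Cfg.kinds_split _ l]
  unfold Cfg.upd
  simp only [Function.update_self]
  congr 2
  refine sum_congr rfl fun i hi => ?_
  rw [Function.update_of_ne (ne_of_mem_erase hi)]

theorem Cfg.sz_split (n : ℕ) (c : Cfg ι) (l : ι) :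
    c.sz n = (c.N.map (ell (n + 1))).sum + c.s + ∑ i ∈ univ.erase l, c.fl n i + c.fl n l := by
  unfold Cfg.sz Cfg.nsz
  rw [← add_sum_erase univ _ (mem_univ l), add_comm (c.fl n l), ← add_assoc]

theorem Cfg.sz_upd (n : ℕ) (c : Cfg ι) (l : ι) (X : Multiset (ℕ × ℕ)) (s : ℕ) :
    (c.upd l X s).sz n = (c.N.map (ell (n + 1))).sum + s + ∑ i ∈ univ.erase l, c.fl n i +
      (X.map fun x => ell (n + 1) x.1 + 1 - x.2).sum := by
  rw [Cfg.sz_split _ _ l]
  unfold Cfg.upd Cfg.fl
  simp only [Function.update_self]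
  congr 2
  refine sum_congr rfl fun i hi => ?_
  rw [Function.update_of_ne (ne_of_mem_erase hi)]

theorem Cfg.tr_upd_self (n : ℕ) (c : Cfg ι) (l : ι) (X : Multiset (ℕ × ℕ)) (s : ℕ) :
    (c.upd l X s).tr n l = (X.map fun x => ell n x.1).sum := by
  unfold Cfg.upd Cfg.tr
  simp only [Function.update_self]

theorem Cfg.OK_upd {M : ℕ} {c : Cfg ι} (hc : c.OK M) (l : ι) (X : Multiset (ℕ × ℕ)) (s : ℕ)
    (hX : ∀ x ∈ X, 1 ≤ x.2 ∧ x.2 ≤ 2 ∧ x.2 ≤ x.1 ∧ x.1 ≤ M) : (c.upd l X s).OK M := by
  refine ⟨hc.hN, ?_⟩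
  intro l' x hx
  by_cases h : l' = l
  · subst h
    rw [show (c.upd l' X s).Φ l' = X from Function.update_self _ _ _] at hx
    exact hX x hx
  · rw [show (c.upd l X s).Φ l' = c.Φ l' from Function.update_of_ne h _ _] at hx
    exact hc.hΦ l' x hx

omit [Fintype ι] [DecidableEq ι] in
/-- Numbers of the shift of a valid multiset of forced conditions. -/
theorem shf_numbers (n M : ℕ) (hn : 1 ≤ n) (X : Multiset (ℕ × ℕ))
    (hX : ∀ x ∈ X, 1 ≤ x.2 ∧ x.2 ≤ 2 ∧ x.2 ≤ x.1 ∧ x.1 ≤ M) :
    (∀ x ∈ shf X, 1 ≤ x.2 ∧ x.2 ≤ 2 ∧ x.2 ≤ x.1 ∧ x.1 ≤ M) ∧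
    ((shf X).map fun x => ell (n + 1) x.1 + 1 - x.2).sum + (X.map fun x => ell n x.1).sum =
      (X.map fun x => ell (n + 1) x.1 + 1 - x.2).sum ∧
    M * ((shf X).map fun x => ell n x.1).sum ≤ (M - 1) * (X.map fun x => ell n x.1).sum := by
  induction X using Multiset.induction_on with
  | empty => simp [shf]
  | cons y X ih =>
    obtain ⟨h1, h2, h3⟩ := ih fun x hx => hX x (Multiset.mem_cons_of_mem hx)
    obtain ⟨hy1, hy2, hy3, hy4⟩ := hX y (Multiset.mem_cons_self _ _)
    obtain ⟨c, hc⟩ : ∃ c, y.1 = c + 1 := ⟨y.1 - 1, by omega⟩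
    have hs := ell_succ n c
    have hr := ell_ratio (n := n) (c := c) (M := M) hn (by omega)
    by_cases hlt : y.2 ≤ c
    · have hshf : shf (y ::ₘ X) = (y.1 - 1, y.2) ::ₘ shf X := by
        unfold shf
        rw [Multiset.map_cons, Multiset.filter_cons_of_pos]
        simp only
        omega
      rw [hshf]
      refine ⟨?_, ?_, ?_⟩
      · intro x hx
        rcases Multiset.mem_cons.1 hx with rfl | hx
        · simp only
          omega
        · exact h1 x hx
      · simp only [Multiset.map_cons, Multiset.sum_cons]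
        rw [hc] at *
        simp only [Nat.add_sub_cancel]
        have hp : 1 ≤ ell (n + 1) c := ell_pos _ (by omega)
        omega
      · simp only [Multiset.map_cons, Multiset.sum_cons, mul_add]
        rw [hc]
        simp only [Nat.add_sub_cancel]
        omega
    · have hshf : shf (y ::ₘ X) = shf X := by
        unfold shf
        rw [Multiset.map_cons, Multiset.filter_cons_of_neg]
        simp only
        omega
      rw [hshf]
      have hy : y.2 = c + 1 := by omega
      refine ⟨h1, ?_, ?_⟩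
      · simp only [Multiset.map_cons, Multiset.sum_cons]
        rw [hc, hy]
        have hc2 : c = 0 ∨ c = 1 := by omega
        rcases hc2 with rfl | rfl
        · rw [ell_one, ell_one]
          omega
        · have h5 := ell_succ n 1
          rw [ell_one] at h5
          rw [h5]
          omega
      · simp only [Multiset.map_cons, Multiset.sum_cons, mul_add]
        omega

omit [Fintype ι] [DecidableEq ι] in
theorem shf_iterate_replicate (s c j : ℕ) (hj : j ≤ c) :
    shf^[j] (Multiset.replicate s (c + 1, 1)) = Multiset.replicate s (c - j + 1, 1) := by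
  induction j with
  | zero => rfl
  | succ j ih =>
    rw [Function.iterate_succ_apply', ih (by omega)]
    unfold shf
    rw [Multiset.map_replicate, Multiset.filter_eq_self.2]
    · congr 2
      simp only
      omega
    · intro x hx
      rw [Multiset.eq_of_mem_replicate hx]
      simp only
      omega

/-- Bridging for configurations. -/
theorem bridge_cfg (n M : ℕ) (c : Cfg ι) (hc : c.OK M) (l : ι) (s₀ : ℕ)
    (hs : Multiset.replicate s₀ (1, 1) ≤ c.Φ l) (A A' : Finset (ι → ℕ))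
    (hA : ∀ a, a ∈ A' ↔ Function.update a l (a l + 1) ∈ A)
    (h1 : GM A (c.upd l (c.Φ l - Multiset.replicate s₀ (1, 1)) (c.s + s₀)).kinds)
    (h2 : GM A' (c.upd l (shf (c.Φ l - Multiset.replicate s₀ (1, 1))) c.s).kinds) :
    GM A c.kinds := by
  set X := c.Φ l - Multiset.replicate s₀ (1, 1) with hX
  have hXs : c.Φ l = X + Multiset.replicate s₀ (1, 1) := by
    rw [hX, tsub_add_cancel_of_le hs]
  set S : Multiset (Kind ι) := c.N.map Kind.free + Multiset.replicate c.s (Kind.free 1) +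
      ∑ i ∈ univ.erase l, ((c.Φ i).map fun x => Kind.forced i x.1 x.2) +
      X.map fun x => Kind.forced l x.1 x.2 with hS
  have e1 : c.kinds = S + Multiset.replicate s₀ (Kind.forced l 1 1) := by
    rw [Cfg.kinds_split c l, hXs, Multiset.map_add, Multiset.map_replicate, ← add_assoc]
  rw [e1]
  apply GM.bridge A A' l hA S s₀
  · rw [Cfg.kinds_upd] at h1
    convert h1 using 1
    rw [hS, Multiset.replicate_add]
    abel
  · rw [Cfg.kinds_upd] at h2
    refine GM.mono ?_ h2
    rw [hS, Multiset.map_add, Multiset.map_add, Multiset.map_add]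
    have e2 : (c.N.map (Kind.free : ℕ → Kind ι)).map (Kind.dn l) = c.N.map Kind.free := by
      rw [Multiset.map_map]
      rfl
    have e3 : (Multiset.replicate c.s (Kind.free 1 : Kind ι)).map (Kind.dn l) =
        Multiset.replicate c.s (Kind.free 1) := by
      rw [Multiset.map_replicate]
      rfl
    have e4 : (∑ i ∈ univ.erase l, ((c.Φ i).map fun x => Kind.forced i x.1 x.2)).map
        (Kind.dn l) = ∑ i ∈ univ.erase l, ((c.Φ i).map fun x => Kind.forced i x.1 x.2) := by
      have e5 : ∀ (T : Finset ι), (∀ i ∈ T, i ≠ l) →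
          (∑ i ∈ T, ((c.Φ i).map fun x => Kind.forced i x.1 x.2)).map (Kind.dn l) =
            ∑ i ∈ T, ((c.Φ i).map fun x => Kind.forced i x.1 x.2) := by
        intro T
        induction T using Finset.induction_on with
        | empty => simp
        | insert i T hi ih =>
          intro hT
          rw [sum_insert hi, Multiset.map_add, ih fun j hj => hT j (mem_insert_of_mem hj),
            Multiset.map_map]
          congr 1
          refine Multiset.map_congr rfl fun x _ => ?_
          simp only [Function.comp_apply, Kind.dn]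
          rw [if_neg (hT i (mem_insert_self _ _))]
      exact e5 _ fun i hi => ne_of_mem_erase hi
    rw [e2, e3, e4]
    refine add_le_add le_rfl ?_
    unfold shf
    rw [Multiset.map_map]
    refine (Multiset.map_le_map (Multiset.filter_le _ _)).trans (le_of_eq ?_)
    rw [Multiset.map_map]
    refine Multiset.map_congr rfl fun x _ => ?_
    simp [Kind.dn]

end

end Pool.Agent.H18.Ex

end

section

/-!
# Module MaxGM: from `GM` to general points
-/

namespace Pool.Agent.H21.NX

open Finset MvPolynomial Pool.Agent.H18.Fat Pool.Agent.H18.Ex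

namespace MaxGMX

theorem Sx_eq_Rg {ι : Type} [Fintype ι] [DecidableEq ι] (σ : ℕ) :
    Sx ι σ = H18.Ex.Rg σ (fun _ => σ) := rfl

/-- The special configuration. -/
theorem special (r k d L : ℕ) (m : Fin k → ℕ)
    (h : GM (Sx (Fin (r + 1)) d) ((univ.val.map fun i => Kind.free (m i)) +
      Multiset.replicate L (Kind.free 1))) :
    ∃ p₀ : Fin k → Fin (r + 1) → ℂ, Module.finrank ℂ (fatForms r d p₀ m) ≤ L := by
  classical
  let kk : Fin k ⊕ Fin L → Kind (Fin (r + 1)) :=
    Sum.elim (fun i => Kind.free (m i)) fun _ => Kind.free 1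
  have hGI : GI (Sx (Fin (r + 1)) d) kk := by
    rw [← GM_iff, multi_map_sum]
    have h2 : (univ : Finset (Fin L)).val.map (fun _ : Fin L => (Kind.free 1 : Kind (Fin (r + 1))))
        = Multiset.replicate L (Kind.free 1) := by
      rw [Multiset.map_const', Finset.card_val, card_univ, Fintype.card_fin]
    rw [h2]
    exact h
  rw [Sx_eq_Rg] at hGI
  obtain ⟨pos, hpos⟩ := hGI
  refine ⟨fun i => pos (Sum.inl i), ?_⟩
  set p₀ : Fin k → Fin (r + 1) → ℂ := fun i => pos (Sum.inl i) with hp₀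
  have hsupp : ∀ F ∈ fatForms r d p₀ m, ∀ α ∈ F.support,
      (⇑α : Fin (r + 1) → ℕ) ∈ H18.Ex.Rg d (fun _ => d) := by
    intro F hF α hα
    rw [MvPolynomial.mem_support_iff] at hα
    have hαd : α ∈ mons (r + 1) d := by
      rw [mem_mons]
      by_contra h
      exact hα (hF.1.coeff_eq_zero h)
    rw [← Sx_eq_Rg, mem_Sx]
    have hdeg := mem_mons.1 hαd
    rwa [Finsupp.degree_eq_sum] at hdeg
  let Ψ : fatForms r d p₀ m →ₗ[ℂ] (Fin L → ℂ) :=
    { toFun := fun F j => ∑ a ∈ H18.Ex.Rg d (fun _ => d), cf F.1 a * tcr (pos (Sum.inr j)) a 0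
      map_add' := fun F G => by
        funext j
        simp only [Submodule.coe_add, cf, MvPolynomial.coeff_add, Pi.add_apply, add_mul,
          sum_add_distrib]
      map_smul' := fun c F => by
        funext j
        simp only [Submodule.coe_smul, cf, MvPolynomial.coeff_smul, smul_eq_mul, RingHom.id_apply,
          Pi.smul_apply, mul_sum, mul_assoc] }
  have hΨ : Function.Injective Ψ := by
    rw [← LinearMap.ker_eq_bot, LinearMap.ker_eq_bot']
    intro F hF
    have h1 : ∀ i, Sat (H18.Ex.Rg d (fun _ => d)) (cf F.1) (kk i) (pos i) := by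
      rintro (i | j)
      · exact sat_of_vanishes (hsupp F.1 F.2) (F.2.2 i)
      · intro b hb
        have hb0 : b = 0 := by
          change ∑ i, b i < 1 at hb
          have h2 : ∑ i, b i = 0 := by omega
          rw [sum_eq_zero_iff] at h2
          funext i
          exact h2 i (mem_univ _)
        subst hb0
        exact congrFun hF j
    have h2 := hpos (cf F.1) h1
    apply Subtype.ext
    change F.1 = 0
    by_contra hne
    obtain ⟨α, hα⟩ := MvPolynomial.ne_zero_iff.1 hne
    have h3 := hsupp F.1 F.2 α (MvPolynomial.mem_support_iff.2 hα)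
    have h4 := h2 _ h3
    unfold cf at h4
    rw [show Finsupp.equivFunOnFinite.symm (⇑α) = α from by ext; rfl] at h4
    exact hα h4
  have := LinearMap.finrank_le_finrank_of_injective hΨ
  rwa [Module.finrank_fintype_fun_eq_card, Fintype.card_fin] at this

end MaxGMX

/-- From `GM` to general points (`∃ p₀` with `finrank ≤ N - L`, `general_finrank_le`, and
`finrank_fatForms_ge`; see `general_of_special` in H18/FatLin). -/
theorem max_of_GM (r k d : ℕ) (hr : 1 ≤ r) (m : Fin k → ℕ)
    (h : GM (Sx (Fin (r + 1)) d) ((univ.val.map fun i => Kind.free (m i)) +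
      Multiset.replicate ((d + r).choose r - ∑ i, ell r (m i)) (Kind.free 1))) :
    ForGeneralPoints r k fun p => ImposesMaximalConditions r d p m := by
  obtain ⟨p₀, hp₀⟩ := MaxGMX.special r k d _ m h
  refine ((general_finrank_le d p₀ m).and (ForGeneralPoints.coord_ne_zero r k)).mono ?_
  rintro p ⟨hp1, hp0⟩
  have hge := finrank_fatForms_ge (d := d) hr (fun i => hp0 i 0) m
  have hcast : ∑ i, ((m i + r - 1).choose r : ℤ) = ((∑ i, ell r (m i) : ℕ) : ℤ) := by
    push_cast
    rfl
  unfold ImposesMaximalConditions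
  rw [hcast] at hge ⊢
  omega

end Pool.Agent.H21.NX

end

section

/-!
# Module NumB: the numerical conditions hold for large `s`

Everything follows from the bounds of NumA by comparing exponents of `s`: with `U = 2 ^ (d + 1)`,
`V = (d + 1) ^ (d + 1)` and `d + 1 ≤ s` we have `ell s c ≤ U * s ^ (c - 1)` and
`s ^ (c - 1) ≤ V * ell s c` for `1 ≤ c ≤ d + 1` (and the same for `s + 1`).
Exponents, with `B = Bc M μ c = max (M - μ + c) μ`:
* `nc`: left `(c - 1) + (B - 1) + (μ - 1)` and `2 (μ - 1)`, right `d - μ + c - 1`, strictly larger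
  because `2 μ + M ≤ d + 1` and `2 ≤ c ≤ μ ≤ M`: gain a factor `s`;
* `q`: left `2 (B - 1)`, right `(d - μ) + (c - 1)`, at least as large because `2 M ≤ d + 1`,
  `3 μ ≤ d + 1`: use that `K` is large;
* `f1`: left `d - μ`, `M - 1`, `2 (B - 1)` with `c = 1`, right `d - μ` (`K` large);
* `f2`: left `(μ - 1) + (d + 1 - 2 μ)`, right `d - μ + 1`: gain a factor `s`;
* `e2`: left `(d - μ) + (μ - 1)`, `(μ - 1) + (M - 1)`, `d - 1`, `M - 1`, right `(d - μ) + (μ - 1)`:
  `K0` large compared with `K`;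
* `e3`: left `(d - μ) + (μ - 1) = d - 1`, right `d`: gain a factor `s`;
* `e4`: left `2 (M - 1)`, right `d - 1` (`K0` large).
-/

namespace Pool.Agent.H21.NX

open Pool.Agent.H18.Ex

namespace NumBX

/-- upper constant -/
def U (d : ℕ) : ℕ := 2 ^ (d + 1)

/-- lower constant -/
def V (d : ℕ) : ℕ := (d + 1) ^ (d + 1)

theorem U_pos (d : ℕ) : 1 ≤ U d := Nat.one_le_two_pow

theorem V_pos (d : ℕ) : 1 ≤ V d := Nat.one_le_pow _ _ (by omega)

theorem up (d s c : ℕ) (hc : 1 ≤ c) (hcd : c ≤ d + 1) (hs : d + 1 ≤ s) :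
    ell s c ≤ U d * s ^ (c - 1) := by
  refine (ell_le_pow s c hc (by omega)).trans ?_
  rw [mul_pow]
  exact Nat.mul_le_mul_right _ (Nat.pow_le_pow_right (by norm_num) (by omega))

theorem up' (d s c : ℕ) (hc : 1 ≤ c) (hcd : c ≤ d + 1) (hs : d + 1 ≤ s) :
    ell (s + 1) c ≤ U d * s ^ (c - 1) := by
  refine (ell_succ_le_pow s c hc (by omega)).trans ?_
  rw [mul_pow]
  exact Nat.mul_le_mul_right _ (Nat.pow_le_pow_right (by norm_num) (by omega))

theorem cc_le (d c : ℕ) (hcd : c ≤ d + 1) : c ^ c ≤ V d :=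
  (Nat.pow_le_pow_left hcd c).trans (Nat.pow_le_pow_right (by omega) hcd)

theorem lo (d s c : ℕ) (hc : 1 ≤ c) (hcd : c ≤ d + 1) : s ^ (c - 1) ≤ V d * ell s c :=
  (pow_le_ell s c hc).trans (Nat.mul_le_mul_right _ (cc_le d c hcd))

theorem lo' (d s c : ℕ) (hc : 1 ≤ c) (hcd : c ≤ d + 1) : s ^ (c - 1) ≤ V d * ell (s + 1) c :=
  (pow_le_ell_succ s c hc).trans (Nat.mul_le_mul_right _ (cc_le d c hcd))

theorem Bc_le {M μ c : ℕ} (hμM : μ ≤ M) (hc : c ≤ μ) : Bc M μ c ≤ M := by
  unfold Bc; exact max_le (by omega) hμM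

theorem Bc_ge {M μ c : ℕ} : μ ≤ Bc M μ c := by
  unfold Bc; exact le_max_right _ _

/-- `2 (B - 1) ≤ (d - μ) + (c - 1)` -/
theorem Bc_exp {d M μ c : ℕ} (hμ : 1 ≤ μ) (hμM : μ ≤ M) (hM : 2 * M ≤ d + 1)
    (h : 2 * μ + M ≤ d + 1) (h1 : 1 ≤ c) (hc : c ≤ μ) :
    2 * (Bc M μ c - 1) ≤ (d - μ) + (c - 1) := by
  unfold Bc
  rcases max_cases (M - μ + c) μ with ⟨h', _⟩ | ⟨h', _⟩ <;> rw [h'] <;> omega

end NumBX

open NumBX

theorem num_e1 (d : ℕ) : ∃ K1 : ℕ, ∀ K, K1 ≤ K → ∃ s0 : ℕ, ∀ s, s0 ≤ s → ∀ μ M : ℕ, 2 ≤ μ →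
    μ ≤ M → 2 * M ≤ d + 1 → 2 * μ + M ≤ d + 1 → Num d s μ M (K * s ^ (d - μ)) := by
  refine ⟨3 * U d ^ 2 * V d, fun K hK => ⟨d + 1 + 8 * (d + 1) * U d ^ 3 * V d,
    fun s hs μ M hμ hμM hM h => ?_⟩⟩
  have hds : d + 1 ≤ s := by omega
  have hs1 : 1 ≤ s := by omega
  have hbig : 8 * (d + 1) * U d ^ 3 * V d ≤ s := by omega
  have hV := V_pos d
  have hU := U_pos d
  refine ⟨hμ, hμM, h, hds, fun c hc2 hcμ => ?_, fun c hc1 hcμ => ?_, ?_, ?_⟩
  · -- nc
    have hB := Bc_le hμM hcμ
    have hB' : μ ≤ Bc M μ c := NumBX.Bc_ge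
    set B := Bc M μ c with hBdef
    have u1 := up d s c (by omega) (by omega) hds
    have u2 := up d s B (by omega) (by omega) hds
    have u3 := up d s μ (by omega) (by omega) hds
    have l1 := lo d s (d - μ + c) (by omega) (by omega)
    set e := d - μ + c - 1 with he
    obtain ⟨f, hf⟩ : ∃ f, e = f + 1 := ⟨e - 1, by omega⟩
    have hpow1 : s ^ (c - 1) * s ^ (B - 1) * s ^ (μ - 1) ≤ s ^ f := by
      rw [← pow_add, ← pow_add]; exact Nat.pow_le_pow_right hs1 (by omega)
    have hpow2 : s ^ (μ - 1) * s ^ (μ - 1) ≤ s ^ f := by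
      rw [← pow_add]; exact Nat.pow_le_pow_right hs1 (by omega)
    have hU23 : U d ^ 2 ≤ U d ^ 3 := Nat.pow_le_pow_right hU (by norm_num)
    have hL : (ell s c * ell s B + ell s μ) * ell s μ ≤ 2 * (U d ^ 3 * s ^ f) := by
      calc (ell s c * ell s B + ell s μ) * ell s μ
          ≤ ((U d * s ^ (c - 1)) * (U d * s ^ (B - 1)) + U d * s ^ (μ - 1)) *
              (U d * s ^ (μ - 1)) :=
            Nat.mul_le_mul (Nat.add_le_add (Nat.mul_le_mul u1 u2) u3) u3
        _ = U d ^ 3 * (s ^ (c - 1) * s ^ (B - 1) * s ^ (μ - 1)) +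
              U d ^ 2 * (s ^ (μ - 1) * s ^ (μ - 1)) := by ring
        _ ≤ U d ^ 3 * s ^ f + U d ^ 3 * s ^ f :=
            Nat.add_le_add (Nat.mul_le_mul_left _ hpow1) (Nat.mul_le_mul hU23 hpow2)
        _ = 2 * (U d ^ 3 * s ^ f) := by ring
    refine le_of_mul_le_mul_left ?_ (show 0 < V d from hV)
    calc V d * (4 * (d + 1) * (ell s c * ell s B + ell s μ) * ell s μ)
        = V d * (4 * (d + 1)) * ((ell s c * ell s B + ell s μ) * ell s μ) := by ring
      _ ≤ V d * (4 * (d + 1)) * (2 * (U d ^ 3 * s ^ f)) := Nat.mul_le_mul_left _ hL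
      _ = (8 * (d + 1) * U d ^ 3 * V d) * s ^ f := by ring
      _ ≤ s * s ^ f := Nat.mul_le_mul_right _ hbig
      _ = s ^ e := by rw [hf, pow_succ]; ring
      _ ≤ V d * ell s (d - μ + c) := l1
  · -- q
    have hB := Bc_le hμM hcμ
    have hB' : μ ≤ Bc M μ c := NumBX.Bc_ge
    have hexp := Bc_exp (by omega) hμM hM h hc1 hcμ
    set B := Bc M μ c with hBdef
    have u2 := up d s B (by omega) (by omega) hds
    have l1 := lo d s c hc1 (by omega)
    have hK' : U d ^ 2 * V d ≤ K := by nlinarith only [hK, Nat.zero_le (U d ^ 2 * V d)]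
    calc ell s B ^ 2 ≤ (U d * s ^ (B - 1)) ^ 2 := Nat.pow_le_pow_left u2 2
      _ = U d ^ 2 * s ^ (2 * (B - 1)) := by rw [mul_pow, ← pow_mul, mul_comm 2 (B - 1)]
      _ ≤ U d ^ 2 * s ^ ((d - μ) + (c - 1)) :=
          Nat.mul_le_mul_left _ (Nat.pow_le_pow_right hs1 hexp)
      _ = U d ^ 2 * s ^ (d - μ) * s ^ (c - 1) := by rw [pow_add]; ring
      _ ≤ U d ^ 2 * s ^ (d - μ) * (V d * ell s c) := Nat.mul_le_mul_left _ l1
      _ = (U d ^ 2 * V d) * s ^ (d - μ) * ell s c := by ring
      _ ≤ K * s ^ (d - μ) * ell s c :=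
          Nat.mul_le_mul_right _ (Nat.mul_le_mul_right _ hK')
  · -- f1
    have hB := Bc_le (c := 1) hμM (by omega)
    have hB' : μ ≤ Bc M μ 1 := NumBX.Bc_ge
    have hexp := Bc_exp (c := 1) (by omega) hμM hM h le_rfl (by omega)
    set B := Bc M μ 1 with hBdef
    have u1 := up' d s (d - μ + 1) (by omega) (by omega) hds
    have u2 := up' d s M (by omega) (by omega) hds
    have u3 := up d s B (by omega) (by omega) hds
    have hU12 : U d ≤ U d ^ 2 := by nlinarith only [hU]
    have hp1 : U d * s ^ (d - μ + 1 - 1) ≤ U d ^ 2 * s ^ (d - μ) :=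
      Nat.mul_le_mul hU12 (Nat.pow_le_pow_right hs1 (by omega))
    have hp2 : U d * s ^ (M - 1) ≤ U d ^ 2 * s ^ (d - μ) :=
      Nat.mul_le_mul hU12 (Nat.pow_le_pow_right hs1 (by omega))
    have hp3 : ell s B ^ 2 ≤ U d ^ 2 * s ^ (d - μ) := by
      calc ell s B ^ 2 ≤ (U d * s ^ (B - 1)) ^ 2 := Nat.pow_le_pow_left u3 2
        _ = U d ^ 2 * s ^ (2 * (B - 1)) := by rw [mul_pow, ← pow_mul, mul_comm 2 (B - 1)]
        _ ≤ U d ^ 2 * s ^ (d - μ) :=
            Nat.mul_le_mul_left _ (Nat.pow_le_pow_right hs1 (by omega))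
    have hK' : 3 * U d ^ 2 ≤ K := by
      calc 3 * U d ^ 2 = 3 * U d ^ 2 * 1 := by ring
        _ ≤ 3 * U d ^ 2 * V d := Nat.mul_le_mul_left _ hV
        _ ≤ K := hK
    calc ell (s + 1) (d - μ + 1) + ell (s + 1) M + ell s B ^ 2
        ≤ U d ^ 2 * s ^ (d - μ) + U d ^ 2 * s ^ (d - μ) + U d ^ 2 * s ^ (d - μ) :=
          Nat.add_le_add (Nat.add_le_add (u1.trans hp1) (u2.trans hp2)) hp3
      _ = (3 * U d ^ 2) * s ^ (d - μ) := by ring
      _ ≤ K * s ^ (d - μ) := Nat.mul_le_mul_right _ hK'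
  · -- f2
    have u1 := up' d s μ (by omega) (by omega) hds
    have u2 := up' d s (d + 2 - 2 * μ) (by omega) (by omega) hds
    have l1 := lo d s (d - μ + 2) (by omega) (by omega)
    have hpow : s ^ (μ - 1) * s ^ (d + 2 - 2 * μ - 1) ≤ s ^ (d - μ) := by
      rw [← pow_add]; exact Nat.pow_le_pow_right hs1 (by omega)
    have hU23 : U d ^ 2 ≤ U d ^ 3 := Nat.pow_le_pow_right hU (by norm_num)
    refine le_of_mul_le_mul_left ?_ (show 0 < V d from hV)
    calc V d * (8 * (d + 1) * ell (s + 1) μ * ell (s + 1) (d + 2 - 2 * μ))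
        = V d * (8 * (d + 1)) * (ell (s + 1) μ * ell (s + 1) (d + 2 - 2 * μ)) := by ring
      _ ≤ V d * (8 * (d + 1)) * ((U d * s ^ (μ - 1)) * (U d * s ^ (d + 2 - 2 * μ - 1))) :=
          Nat.mul_le_mul_left _ (Nat.mul_le_mul u1 u2)
      _ = V d * (8 * (d + 1)) * (U d ^ 2 * (s ^ (μ - 1) * s ^ (d + 2 - 2 * μ - 1))) := by ring
      _ ≤ V d * (8 * (d + 1)) * (U d ^ 3 * s ^ (d - μ)) :=
          Nat.mul_le_mul_left _ (Nat.mul_le_mul hU23 hpow)
      _ = (8 * (d + 1) * U d ^ 3 * V d) * s ^ (d - μ) := by ring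
      _ ≤ s * s ^ (d - μ) := Nat.mul_le_mul_right _ hbig
      _ = s ^ (d - μ + 2 - 1) := by
          rw [show d - μ + 2 - 1 = (d - μ) + 1 by omega, pow_succ]; ring
      _ ≤ V d * ell s (d - μ + 2) := l1

theorem num_e2 (d K : ℕ) : ∃ K0 : ℕ, ∀ K', K0 ≤ K' → ∃ s0 : ℕ, ∀ s, s0 ≤ s → ∀ μ M : ℕ, 1 ≤ μ →
    μ ≤ M → 2 * M ≤ d + 1 → 2 * μ + M ≤ d + 1 →
    (K * s ^ (d - μ) + 1) * ell s μ + ell s μ * ell s M + ell (s + 1) d + ell (s + 1) M ≤
      K' * s ^ (d - μ) * ell (s + 1) μ := by
  refine ⟨(K * U d + 4 * U d ^ 2) * V d, fun K' hK' => ⟨d + 1, fun s hds μ M hμ hμM hM h => ?_⟩⟩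
  have hs1 : 1 ≤ s := by omega
  have hU := U_pos d
  have hU12 : U d ≤ U d ^ 2 := by nlinarith only [hU]
  have u1 := up d s μ (by omega) (by omega) hds
  have u2 := up d s M (by omega) (by omega) hds
  have u3 := up' d s d (by omega) (by omega) hds
  have u4 := up' d s M (by omega) (by omega) hds
  have l1 := lo' d s μ hμ (by omega)
  have t1 : (K * s ^ (d - μ) + 1) * ell s μ ≤ (K * U d + U d ^ 2) * s ^ (d - 1) := by
    calc (K * s ^ (d - μ) + 1) * ell s μ ≤ (K * s ^ (d - μ) + 1) * (U d * s ^ (μ - 1)) :=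
          Nat.mul_le_mul_left _ u1
      _ = K * U d * (s ^ (d - μ) * s ^ (μ - 1)) + U d * s ^ (μ - 1) := by ring
      _ ≤ K * U d * s ^ (d - 1) + U d ^ 2 * s ^ (d - 1) := by
          refine Nat.add_le_add (Nat.mul_le_mul_left _ ?_)
            (Nat.mul_le_mul hU12 (Nat.pow_le_pow_right hs1 (by omega)))
          rw [← pow_add]; exact Nat.pow_le_pow_right hs1 (by omega)
      _ = (K * U d + U d ^ 2) * s ^ (d - 1) := by ring
  have t2 : ell s μ * ell s M ≤ U d ^ 2 * s ^ (d - 1) := by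
    calc ell s μ * ell s M ≤ (U d * s ^ (μ - 1)) * (U d * s ^ (M - 1)) := Nat.mul_le_mul u1 u2
      _ = U d ^ 2 * (s ^ (μ - 1) * s ^ (M - 1)) := by ring
      _ ≤ U d ^ 2 * s ^ (d - 1) := by
          refine Nat.mul_le_mul_left _ ?_
          rw [← pow_add]; exact Nat.pow_le_pow_right hs1 (by omega)
  have t3 : ell (s + 1) d ≤ U d ^ 2 * s ^ (d - 1) :=
    u3.trans (Nat.mul_le_mul_right _ hU12)
  have t4 : ell (s + 1) M ≤ U d ^ 2 * s ^ (d - 1) :=
    u4.trans (Nat.mul_le_mul hU12 (Nat.pow_le_pow_right hs1 (by omega)))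
  calc (K * s ^ (d - μ) + 1) * ell s μ + ell s μ * ell s M + ell (s + 1) d + ell (s + 1) M
      ≤ (K * U d + U d ^ 2) * s ^ (d - 1) + U d ^ 2 * s ^ (d - 1) + U d ^ 2 * s ^ (d - 1) +
          U d ^ 2 * s ^ (d - 1) :=
        Nat.add_le_add (Nat.add_le_add (Nat.add_le_add t1 t2) t3) t4
    _ = (K * U d + 4 * U d ^ 2) * s ^ (d - 1) := by ring
    _ = (K * U d + 4 * U d ^ 2) * (s ^ (d - μ) * s ^ (μ - 1)) := by
        rw [← pow_add, show d - μ + (μ - 1) = d - 1 by omega]
    _ ≤ (K * U d + 4 * U d ^ 2) * (s ^ (d - μ) * (V d * ell (s + 1) μ)) :=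
        Nat.mul_le_mul_left _ (Nat.mul_le_mul_left _ l1)
    _ = ((K * U d + 4 * U d ^ 2) * V d) * s ^ (d - μ) * ell (s + 1) μ := by ring
    _ ≤ K' * s ^ (d - μ) * ell (s + 1) μ :=
        Nat.mul_le_mul_right _ (Nat.mul_le_mul_right _ hK')

theorem num_e3 (d K' : ℕ) : ∃ s0 : ℕ, ∀ s, s0 ≤ s → ∀ μ : ℕ, 1 ≤ μ → μ ≤ d →
    (d + 1) * (K' * s ^ (d - μ) * ell (s + 1) μ) ≤ ell (s + 1) (d + 1) := by
  refine ⟨d + 1 + (d + 1) * K' * U d * V d, fun s hs μ hμ hμd => ?_⟩
  have hds : d + 1 ≤ s := by omega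
  have hs1 : 1 ≤ s := by omega
  have hbig : (d + 1) * K' * U d * V d ≤ s := by omega
  have hV := V_pos d
  have u1 := up' d s μ hμ (by omega) hds
  have l1 := lo' d s (d + 1) (by omega) (by omega)
  refine le_of_mul_le_mul_left ?_ (show 0 < V d from hV)
  calc V d * ((d + 1) * (K' * s ^ (d - μ) * ell (s + 1) μ))
      ≤ V d * ((d + 1) * (K' * s ^ (d - μ) * (U d * s ^ (μ - 1)))) :=
        Nat.mul_le_mul_left _ (Nat.mul_le_mul_left _ (Nat.mul_le_mul_left _ u1))
    _ = ((d + 1) * K' * U d * V d) * (s ^ (d - μ) * s ^ (μ - 1)) := by ring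
    _ = ((d + 1) * K' * U d * V d) * s ^ (d - 1) := by
        rw [← pow_add, show d - μ + (μ - 1) = d - 1 by omega]
    _ ≤ s * s ^ (d - 1) := Nat.mul_le_mul_right _ hbig
    _ = s ^ (d + 1 - 1) := by
        rw [mul_comm, ← pow_succ, show d - 1 + 1 = d + 1 - 1 by omega]
    _ ≤ V d * ell (s + 1) (d + 1) := l1

theorem num_e4 (d : ℕ) : ∃ K0 : ℕ, ∀ K', K0 ≤ K' → ∃ s0 : ℕ, ∀ s, s0 ≤ s → ∀ M : ℕ,
    2 * M ≤ d + 1 → 1 ≤ M →
    ell (s + 1) M + ell (s + 1) M ^ 2 ≤ K' * s ^ (d - 1) := by
  refine ⟨2 * U d ^ 2, fun K' hK' => ⟨d + 1, fun s hds M hM hM1 => ?_⟩⟩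
  have hs1 : 1 ≤ s := by omega
  have hU := U_pos d
  have hU12 : U d ≤ U d ^ 2 := by nlinarith only [hU]
  have u1 := up' d s M hM1 (by omega) hds
  have t1 : ell (s + 1) M ≤ U d ^ 2 * s ^ (d - 1) :=
    u1.trans (Nat.mul_le_mul hU12 (Nat.pow_le_pow_right hs1 (by omega)))
  have t2 : ell (s + 1) M ^ 2 ≤ U d ^ 2 * s ^ (d - 1) := by
    calc ell (s + 1) M ^ 2 ≤ (U d * s ^ (M - 1)) ^ 2 := Nat.pow_le_pow_left u1 2
      _ = U d ^ 2 * s ^ (2 * (M - 1)) := by rw [mul_pow, ← pow_mul, mul_comm 2 (M - 1)]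
      _ ≤ U d ^ 2 * s ^ (d - 1) :=
          Nat.mul_le_mul_left _ (Nat.pow_le_pow_right hs1 (by omega))
  calc ell (s + 1) M + ell (s + 1) M ^ 2 ≤ U d ^ 2 * s ^ (d - 1) + U d ^ 2 * s ^ (d - 1) :=
        Nat.add_le_add t1 t2
    _ = (2 * U d ^ 2) * s ^ (d - 1) := by ring
    _ ≤ K' * s ^ (d - 1) := Nat.mul_le_mul_right _ hK'

/-- All conditions together. -/
theorem exists_num (d : ℕ) : ∃ K K' s0 : ℕ, 1 ≤ K' ∧ 1 ≤ s0 ∧ ∀ s, s0 ≤ s → ∀ μ M : ℕ, 1 ≤ μ →
    μ ≤ M → 2 * M ≤ d + 1 → 2 * μ + M ≤ d + 1 →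
    (2 ≤ μ → Num d s μ M (K * s ^ (d - μ))) ∧
    (K * s ^ (d - μ) + 1) * ell s μ + ell s μ * ell s M + ell (s + 1) d + ell (s + 1) M ≤
      K' * s ^ (d - μ) * ell (s + 1) μ ∧
    (d + 1) * (K' * s ^ (d - μ) * ell (s + 1) μ) ≤ ell (s + 1) (d + 1) ∧
    ell (s + 1) M + ell (s + 1) M ^ 2 ≤ K' * s ^ (d - 1) := by
  obtain ⟨K, hK⟩ := num_e1 d
  obtain ⟨s1, h1⟩ := hK K le_rfl
  obtain ⟨K2, hK2⟩ := num_e2 d K
  obtain ⟨K4, hK4⟩ := num_e4 d
  obtain ⟨s2, h2⟩ := hK2 (K2 + K4 + 1) (by omega)
  obtain ⟨s3, h3⟩ := num_e3 d (K2 + K4 + 1)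
  obtain ⟨s4, h4⟩ := hK4 (K2 + K4 + 1) (by omega)
  refine ⟨K, K2 + K4 + 1, s1 + s2 + s3 + s4 + 1, by omega, by omega, fun s hs μ M hμ hμM hM h => ?_⟩
  exact ⟨fun hμ2 => h1 s (by omega) μ M hμ2 hμM hM h, h2 s (by omega) μ M hμ hμM hM h,
    h3 s (by omega) μ hμ (by omega), h4 s (by omega) M hM (by omega)⟩

end Pool.Agent.H21.NX

end

section

/-!
# Multiplicities at most `3`, degree at least `5`

For all but finitely many `(r, d)` with `d ≥ 5` and all multiplicities `≤ 3`: `dim V_d = a_d` if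
`a_0, …, a_d > 0`, and `V_d = 0` otherwise.
-/

set_option autoImplicit false

namespace Pool.Agent.KQ

open Finset Pool.Agent.H18.Fat Pool.Agent.H21.HD

theorem fro_low {P : Type} [DecidableEq P] (r : ℕ) (e : P → ℕ) (I : Finset P) (j : ℕ)
    (h : ∀ i ∈ I, j < e i) : fro r e I j = ((r + j).choose r : ℤ) := by
  induction I using Finset.induction_on with
  | empty => exact FroAX.fro_empty r e j
  | insert b s hb ih =>
    rw [fro_insert' r e s b hb j, if_neg (by
      have := h b (mem_insert_self b s)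
      omega), sub_zero]
    exact ih fun i hi => h i (mem_insert_of_mem hi)

/-- Without products. -/
theorem fro_lin {P : Type} [DecidableEq P] (r d : ℕ) (e : P → ℕ) (I : Finset P)
    (h : ∀ i ∈ I, d < 2 * e i) (j : ℕ) (hj : j ≤ d) : fro r e I j = ((r + j).choose r : ℤ) -
      ∑ i ∈ I, (if e i ≤ j then ((r + (j - e i)).choose r : ℤ) else 0) := by
  induction I using Finset.induction_on with
  | empty =>
    rw [FroAX.fro_empty r e j, sum_empty, sub_zero]
  | insert b s hb ih =>
    have hb2 := h b (mem_insert_self b s)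
    rw [fro_insert' r e s b hb j, ih fun i hi => h i (mem_insert_of_mem hi), sum_insert hb,
      fro_low r e s (j - e b) fun i hi => by
        have := h i (mem_insert_of_mem hi)
        omega]
    ring

/-- The quotients of binomial coefficients decrease. -/
theorem choose_step (r x e : ℕ) : (r + x).choose r * (r + (x + e) + 1).choose r ≤
    (r + x + 1).choose r * (r + (x + e)).choose r := by
  have h1 : ∀ y : ℕ, (r + y + 1).choose r * (y + 1) = (r + y).choose r * (r + y + 1) := by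
    intro y
    have h2 := Nat.choose_mul_succ_eq (r + y) r
    have h3 : r + y + 1 - r = y + 1 := by omega
    rw [h3] at h2
    exact h2.symm
  have h2 := h1 x
  have h3 := h1 (x + e)
  have hpos : 0 < (x + 1) * (x + e + 1) := by positivity
  refine le_of_mul_le_mul_right ?_ hpos
  calc (r + x).choose r * (r + (x + e) + 1).choose r * ((x + 1) * (x + e + 1))
      = (r + x).choose r * (x + 1) * ((r + (x + e) + 1).choose r * (x + e + 1)) := by ring
    _ = (r + x).choose r * (x + 1) * ((r + (x + e)).choose r * (r + (x + e) + 1)) := by rw [h3]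
    _ = (r + x).choose r * (r + (x + e)).choose r * ((x + 1) * (r + (x + e) + 1)) := by ring
    _ ≤ (r + x).choose r * (r + (x + e)).choose r * ((x + e + 1) * (r + x + 1)) := by
        apply Nat.mul_le_mul_left
        nlinarith
    _ = ((r + x).choose r * (r + x + 1)) * ((r + (x + e)).choose r * (x + e + 1)) := by ring
    _ = ((r + x + 1).choose r * (x + 1)) * ((r + (x + e)).choose r * (x + e + 1)) := by rw [h2]
    _ = (r + x + 1).choose r * (r + (x + e)).choose r * ((x + 1) * (x + e + 1)) := by ring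

theorem choose_ratio (r e j : ℕ) (hj : e ≤ j) (k : ℕ) :
    (r + (j - e)).choose r * (r + (j + k)).choose r ≤
      (r + (j + k - e)).choose r * (r + j).choose r := by
  induction k with
  | zero => exact le_rfl
  | succ k ih =>
    have h1 := choose_step r (j + k - e) e
    rw [show j + k - e + e = j + k by omega] at h1
    rw [show r + (j + (k + 1)) = r + (j + k) + 1 by ring,
      show r + (j + (k + 1) - e) = r + (j + k - e) + 1 by omega]
    have hpos : 0 < (r + (j + k)).choose r := Nat.choose_pos (by omega)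
    refine le_of_mul_le_mul_right ?_ hpos
    calc (r + (j - e)).choose r * (r + (j + k) + 1).choose r * (r + (j + k)).choose r
        = (r + (j - e)).choose r * (r + (j + k)).choose r * (r + (j + k) + 1).choose r := by ring
      _ ≤ (r + (j + k - e)).choose r * (r + j).choose r * (r + (j + k) + 1).choose r :=
          Nat.mul_le_mul_right _ ih
      _ = (r + (j + k - e)).choose r * (r + (j + k) + 1).choose r * (r + j).choose r := by ring
      _ ≤ (r + (j + k - e) + 1).choose r * (r + (j + k)).choose r * (r + j).choose r :=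
          Nat.mul_le_mul_right _ h1
      _ = (r + (j + k - e) + 1).choose r * (r + j).choose r * (r + (j + k)).choose r := by ring

/-- If the last coefficient is positive, then so are the others. -/
theorem fro_pos {P : Type} [DecidableEq P] (r d : ℕ) (e : P → ℕ) (I : Finset P)
    (h : ∀ i ∈ I, d < 2 * e i) (hd : 0 < fro r e I d) (j : ℕ) (hj : j ≤ d) : 0 < fro r e I j := by
  rw [fro_lin r d e I h d le_rfl] at hd
  rw [fro_lin r d e I h j hj]
  have hposd : (0 : ℤ) < ((r + d).choose r : ℤ) := by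
    exact_mod_cast Nat.choose_pos (by omega : r ≤ r + d)
  have hposj : (0 : ℤ) < ((r + j).choose r : ℤ) := by
    exact_mod_cast Nat.choose_pos (by omega : r ≤ r + j)
  have key : (∑ i ∈ I, (if e i ≤ j then ((r + (j - e i)).choose r : ℤ) else 0)) *
      ((r + d).choose r : ℤ) ≤
      (∑ i ∈ I, (if e i ≤ d then ((r + (d - e i)).choose r : ℤ) else 0)) *
        ((r + j).choose r : ℤ) := by
    rw [sum_mul, sum_mul]
    refine sum_le_sum fun i _ => ?_
    by_cases h1 : e i ≤ j
    · rw [if_pos h1, if_pos (h1.trans hj)]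
      have h2 := choose_ratio r (e i) j h1 (d - j)
      rw [show j + (d - j) = d by omega] at h2
      exact_mod_cast h2
    · rw [if_neg h1, zero_mul]
      split_ifs
      · positivity
      · rw [zero_mul]
  nlinarith

end Pool.Agent.KQ

end

section

/-!
# V7, block ALPHA, module WinK: the window lemma for several kinds

Proof.  Suppose that a point of type `t` imposes fewer than `size t` conditions on the general
configuration `m`.  Add rounds, one point of every kind `b a`.  The number of conditions imposed by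
`t` is non-increasing; if it does not change in a round then it does not change for one further
point of any kind, so by `swapP` it is `size t` (impossible) or the dimension is at most `D`.
-/

namespace Pool.Agent.V7

open Finset MvPolynomial Pool.Agent.H51.TB

variable {E ν T : Type} [Fintype E] (S : Sys E ν T) {κ κ' : Type}

/-- Submodularity for a family of further points. -/
theorem gd_submod_fam [Fintype κ] [Fintype κ'] (m : κ → T) (n : κ' → T) (t : T) :
    S.gd (ad m t) + S.gd (Sum.elim m n) ≤ S.gd m + S.gd (ad (Sum.elim m n) t) := by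
  have hinj : Function.Injective (fun i : κ => (Sum.inl (Sum.inl i) : (κ ⊕ κ') ⊕ Unit)) :=
    fun a b h => Sum.inl_injective (Sum.inl_injective h)
  obtain ⟨P, hP1, hP2⟩ := ((gn_gd S (ad (Sum.elim m n) t)).and
    ((gn_gd S m).comap (fun i : κ => (Sum.inl (Sum.inl i) : (κ ⊕ κ') ⊕ Unit)) hinj)).exists
  let P₁ : κ ⊕ Unit → ν → ℂ :=
    Sum.elim (fun i => P (Sum.inl (Sum.inl i))) fun j => P (Sum.inr j)
  let P₂ : κ ⊕ κ' → ν → ℂ := fun i => P (Sum.inl i)
  let P₀ : κ → ν → ℂ := fun i => P (Sum.inl (Sum.inl i))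
  have h1 := Submodule.finrank_sup_add_finrank_inf_eq (S.V (ad m t) P₁) (S.V (Sum.elim m n) P₂)
  have h2 : S.V (ad m t) P₁ ⊔ S.V (Sum.elim m n) P₂ ≤ S.V m P₀ := by
    refine sup_le (fun w hw => ?_) (fun w hw => ?_)
    · rw [S.mem_V] at hw ⊢
      exact fun i => hw (Sum.inl i)
    · rw [S.mem_V] at hw ⊢
      exact fun i => hw (Sum.inl i)
  have h3 : S.V (ad m t) P₁ ⊓ S.V (Sum.elim m n) P₂ = S.V (ad (Sum.elim m n) t) P := by
    ext w
    rw [Submodule.mem_inf, S.mem_V, S.mem_V, S.mem_V]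
    constructor
    · rintro ⟨hF1, hF2⟩ (i | j)
      · exact hF2 i
      · exact hF1 (Sum.inr j)
    · intro hF
      refine ⟨?_, fun i => hF (Sum.inl i)⟩
      rintro (i | j)
      · exact hF (Sum.inl (Sum.inl i))
      · exact hF (Sum.inr j)
  have h4 := Submodule.finrank_mono h2
  have h5 := gd_le S (ad m t) P₁
  have h6 := gd_le S (Sum.elim m n) P₂
  rw [h3, hP1] at h1
  have hP2' : Module.finrank ℂ (S.V m P₀) = S.gd m := hP2
  omega

/-- A family of further points imposes at most the sum of the sizes. -/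
theorem gd_le_fam [Fintype κ] {w : ℕ} (m : κ → T) (b : Fin w → T) :
    S.gd m ≤ S.gd (Sum.elim m b) + ∑ a, S.size (b a) := by
  induction w with
  | zero =>
    have h := gd_comp_equiv S (Equiv.sumEmpty κ (Fin 0)) m
    have e : (fun i => m ((Equiv.sumEmpty κ (Fin 0)) i)) = Sum.elim m b := by
      funext i
      rcases i with i | i
      · rfl
      · exact i.elim0
    rw [e] at h
    rw [h]
    simp
  | succ w ih =>
    have h1 := ih fun a => b (Fin.castSucc a)
    have h2 := gd_le_ad S (Sum.elim m fun a => b (Fin.castSucc a)) (b (Fin.last w))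
    let e : (κ ⊕ Fin w) ⊕ Unit ≃ κ ⊕ Fin (w + 1) :=
      (Equiv.sumAssoc κ (Fin w) Unit).trans (Equiv.sumCongr (Equiv.refl κ)
        ((Equiv.sumCongr (Equiv.refl (Fin w)) (Equiv.equivPUnit (Fin 1)).symm).trans
          finSumFinEquiv))
    have h3 := gd_comp_equiv S e (Sum.elim m b)
    have e3 : (fun i => Sum.elim m b (e i)) =
        ad (Sum.elim m fun a => b (Fin.castSucc a)) (b (Fin.last w)) := by
      funext i
      rcases i with (i | i) | i
      · rfl
      · simp [e, ad, Fin.castSucc]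
      · have : (e (Sum.inr i)) = Sum.inr (Fin.last w) := by
          simp only [e, Equiv.trans_apply, Equiv.sumAssoc_apply_inr, Equiv.sumCongr_apply,
            Sum.map_inr, Equiv.coe_trans, Function.comp_apply, finSumFinEquiv_apply_right]
          congr 1
        rw [this]
        rfl
    rw [e3] at h3
    rw [Fin.sum_univ_castSucc]
    omega

/-- Equivalences of index types for the rounds. -/
private noncomputable def WkX.eqv (κ : Type) (j w : ℕ) :
    (κ ⊕ (Fin j × Fin w)) ⊕ Fin w ≃ κ ⊕ (Fin (j + 1) × Fin w) :=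
  (Equiv.sumAssoc κ (Fin j × Fin w) (Fin w)).trans
    (Equiv.sumCongr (Equiv.refl κ) (((Equiv.sumCongr (Equiv.refl (Fin j × Fin w))
      (Equiv.uniqueProd (Fin w) (Fin 1)).symm).trans (Equiv.sumProdDistrib _ _ _).symm).trans
        (Equiv.prodCongr finSumFinEquiv (Equiv.refl (Fin w)))))

private theorem WkX.eqv_snd {κ : Type} {j w : ℕ} (m : κ → T) (b : Fin w → T) :
    (fun i => Sum.elim m (fun x : Fin (j + 1) × Fin w => b x.2) (WkX.eqv κ j w i)) =
      Sum.elim (Sum.elim m fun x : Fin j × Fin w => b x.2) b := by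
  funext i
  rcases i with (i | i) | i <;> rfl

/-- Splitting off one member of a round. -/
private def WkX.eqa (κ : Type) (w : ℕ) (a : Fin w) : (κ ⊕ Unit) ⊕ {x : Fin w // x ≠ a} ≃ κ ⊕ Fin w where
  toFun := Sum.elim (Sum.elim Sum.inl fun _ => Sum.inr a) fun x => Sum.inr x.1
  invFun := Sum.elim (fun i => Sum.inl (Sum.inl i)) fun x =>
    if h : x = a then Sum.inl (Sum.inr ()) else Sum.inr ⟨x, h⟩
  left_inv := by
    rintro ((i | i) | ⟨x, hx⟩)
    · rfl
    · simp
    · simp [hx]
  right_inv := by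
    rintro (i | x)
    · rfl
    · by_cases h : x = a
      · simp [h]
      · simp [h]

/-- The window lemma for several kinds. -/
theorem windowP {P : T → Prop} {D : ℕ} (hS : SpanP S P D) [Fintype κ] {w : ℕ} (m : κ → T) (t : T)
    (b : Fin w → T) (hm : ∀ i, P (m i)) (hbP : ∀ a, P (b a)) (hb : ∀ i, ∃ a, m i = b a) (h : D + S.size t * ∑ a, S.size (b a) < S.gd m) :
    S.gd m = S.gd (ad m t) + S.size t := by
  classical
  set g : ℕ → ℕ := fun j => S.gd (Sum.elim m fun x : Fin j × Fin w => b x.2) with hg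
  set G : ℕ → ℕ := fun j => S.gd (ad (Sum.elim m fun x : Fin j × Fin w => b x.2) t) with hG
  set B := ∑ a, S.size (b a) with hB
  have h1 : ∀ j, G j ≤ g j := fun j => gd_ad_le S _ t
  have h2 : ∀ j, g j ≤ G j + S.size t := fun j => gd_le_ad S _ t
  have gs : ∀ j, g (j + 1) = S.gd (Sum.elim (Sum.elim m fun x : Fin j × Fin w => b x.2) b) := by
    intro j
    have e := gd_comp_equiv S (WkX.eqv κ j w) (Sum.elim m fun x : Fin (j + 1) × Fin w => b x.2)
    rw [WkX.eqv_snd] at e
    exact e.symm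
  have Gs : ∀ j, G (j + 1) = S.gd (ad (Sum.elim (Sum.elim m fun x : Fin j × Fin w => b x.2) b) t) := by
    intro j
    have e := gd_comp_equiv S (Equiv.sumCongr (WkX.eqv κ j w) (Equiv.refl Unit))
      (ad (Sum.elim m fun x : Fin (j + 1) × Fin w => b x.2) t)
    rw [← show (fun i => ad (Sum.elim m fun x : Fin (j + 1) × Fin w => b x.2) t
        ((Equiv.sumCongr (WkX.eqv κ j w) (Equiv.refl Unit)) i)) =
        ad (Sum.elim (Sum.elim m fun x : Fin j × Fin w => b x.2) b) t from ?_]
    · exact e.symm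
    · funext i
      rcases i with ((i | i) | i) | i <;> rfl
  have h3 : ∀ j, g j ≤ g (j + 1) + B := fun j => by
    rw [gs j]
    exact gd_le_fam S _ b
  have hg0 : g 0 = S.gd m := by
    rw [← gd_comp_equiv S (Equiv.sumEmpty κ (Fin 0 × Fin w)) m]
    simp only [hg]
    congr 1
    funext i
    rcases i with i | i
    · rfl
    · exact i.1.elim0
  have hG0 : G 0 = S.gd (ad m t) := by
    rw [← gd_comp_equiv S (Equiv.sumCongr (Equiv.sumEmpty κ (Fin 0 × Fin w)) (Equiv.refl Unit))
      (ad m t)]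
    simp only [hG]
    congr 1
    funext i
    rcases i with (i | i) | i
    · rfl
    · exact i.1.elim0
    · rfl
  have hlow : ∀ j, g 0 ≤ g j + j * B := by
    intro j
    induction j with
    | zero => simp
    | succ j ih =>
      have := h3 j
      have e : (j + 1) * B = j * B + B := by ring
      omega
  -- a round without a drop
  have key : ∀ j, D < g j → g j ≠ G j + S.size t → g (j + 1) - G (j + 1) < g j - G j := by
    intro j hj hne
    by_contra hcon
    push Not at hcon
    apply hne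
    have hmon : G j + g (j + 1) ≤ g j + G (j + 1) := by
      rw [gs j, Gs j]
      exact gd_submod_fam S _ b t
    have i3 := h1 j
    have i4 := h1 (j + 1)
    have heq : G j + g (j + 1) = g j + G (j + 1) := by omega
    have hst : ∀ a, S.gd (Sum.elim m fun x : Fin j × Fin w => b x.2) +
        S.gd (ad (ad (Sum.elim m fun x : Fin j × Fin w => b x.2) (b a)) t) =
        S.gd (ad (Sum.elim m fun x : Fin j × Fin w => b x.2) t) +
        S.gd (ad (Sum.elim m fun x : Fin j × Fin w => b x.2) (b a)) := by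
      intro a
      have k1 := gd_submod S (Sum.elim m fun x : Fin j × Fin w => b x.2) t (b a)
      have k1' := gd_submod S (Sum.elim m fun x : Fin j × Fin w => b x.2) (b a) t
      have k2 := gd_submod_fam S (ad (Sum.elim m fun x : Fin j × Fin w => b x.2) (b a))
        (fun x : {x : Fin w // x ≠ a} => b x.1) t
      have e1 := gd_comp_equiv S (WkX.eqa (κ ⊕ (Fin j × Fin w)) w a)
        (Sum.elim (Sum.elim m fun x : Fin j × Fin w => b x.2) b)
      have e1' : (fun i => Sum.elim (Sum.elim m fun x : Fin j × Fin w => b x.2) b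
          (WkX.eqa (κ ⊕ (Fin j × Fin w)) w a i)) =
          Sum.elim (ad (Sum.elim m fun x : Fin j × Fin w => b x.2) (b a))
            (fun x : {x : Fin w // x ≠ a} => b x.1) := by
        funext i
        rcases i with (i | i) | i <;> rfl
      rw [e1'] at e1
      have e2 := gd_comp_equiv S (Equiv.sumCongr (WkX.eqa (κ ⊕ (Fin j × Fin w)) w a)
        (Equiv.refl Unit)) (ad (Sum.elim (Sum.elim m fun x : Fin j × Fin w => b x.2) b) t)
      have e2' : (fun i => ad (Sum.elim (Sum.elim m fun x : Fin j × Fin w => b x.2) b) t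
          ((Equiv.sumCongr (WkX.eqa (κ ⊕ (Fin j × Fin w)) w a) (Equiv.refl Unit)) i)) =
          ad (Sum.elim (ad (Sum.elim m fun x : Fin j × Fin w => b x.2) (b a))
            (fun x : {x : Fin w // x ≠ a} => b x.1)) t := by
        funext i
        rcases i with ((i | i) | i) | i <;> rfl
      rw [e2'] at e2
      rw [e1, e2, ← gs j, ← Gs j] at k2
      change G j + g (j + 1) = g j + G (j + 1) at heq
      simp only [hg, hG] at heq k2
      have k3 := gd_ad_le S (ad (Sum.elim m fun x : Fin j × Fin w => b x.2) (b a)) t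
      omega
    rcases swapP S hS (Sum.elim m fun x : Fin j × Fin w => b x.2) (by
      rintro (i | i)
      · exact hm i
      · exact hbP i.2) t (by
      rintro (i | i)
      · obtain ⟨a, ha⟩ := hb i
        have := hst a
        rw [← ha] at this
        exact this
      · exact hst i.2) with h | h
    · exact absurd h (by simp only [hg] at hj; omega)
    · exact h
  by_contra hcon
  rw [← hg0, ← hG0] at hcon
  have a1 := h1 0
  have a2 := h2 0
  have hDj : ∀ j, j ≤ S.size t → D < g j := by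
    intro j hj
    have i1 := hlow j
    have i2 : j * B ≤ S.size t * B := Nat.mul_le_mul_right _ hj
    have i3 : g 0 = S.gd m := hg0
    omega
  have kk : ∀ j, j ≤ S.size t → g j - G j + j < S.size t := by
    intro j
    induction j with
    | zero => intro _; omega
    | succ j ih =>
      intro hj
      have i1 := ih (by omega)
      have i2 := key j (hDj j (by omega)) (by omega)
      omega
  have := kk (S.size t) le_rfl
  omega

end Pool.Agent.V7

end

section

/-!
# V7: forms in `r + 1` variables as the system of the level `0`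
-/

namespace Pool.Agent.V7

open Finset MvPolynomial Pool.Agent.H51.TB Pool.Agent.H54.V7
open Pool.Agent.H18.Fat (fatForms VanishesToOrder mons mem_mons)
open Pool.Agent.H18.Ex (tcr cf sat_of_vanishes Kind ell)
open Pool.Agent.H21.NX (gdim Sx mem_Sx)
open Pool.Agent.H21.NX.ConvX (mem_Sx_coe symm_coe)

theorem critA_mem_Ex {ν : Type} [Fintype ν] [DecidableEq ν] {β : ν → ℕ} {d : ℕ} {a : ν → ℕ} :
    a ∈ Ex β d 0 ↔ ∑ s, a s = d := by
  rw [mem_Ex]
  constructor
  · exact fun h => h.1
  · exact fun h => ⟨h, fun i hi => absurd hi (Nat.not_lt_zero i)⟩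

/-- The coefficient function on a set of exponents. -/
noncomputable def CritA_Phi {n : ℕ} (A : Finset (Fin n → ℕ)) :
    MvPolynomial (Fin n) ℂ →ₗ[ℂ] ({a // a ∈ A} → ℂ) where
  toFun F := fun e => cf F e.1
  map_add' F G := by
    funext e
    exact coeff_add _ _ _
  map_smul' c F := by
    funext e
    exact coeff_smul _ _ _

theorem critA_gdim_le (M r : ℕ) (β : Fin (r + 1) → ℕ) {κ : Type} [Fintype κ] (m : κ → ℕ) :
    gdim r (2 * M - 1) m ≤ (LS M β 0).gd fun i => Kd.ord (m i) ∅ := by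
  classical
  obtain ⟨p, hp⟩ := gd_attained (LS M β 0) fun i => Kd.ord (m i) ∅
  rw [← hp]
  let pos : κ → Fin (r + 1) → ℂ := fun i s => p i (Sum.inl s)
  have h1 : gdim r (2 * M - 1) m ≤ Module.finrank ℂ (fatForms r (2 * M - 1) pos m) :=
    Nat.sInf_le ⟨pos, rfl⟩
  refine h1.trans ?_
  have hsupp : ∀ F ∈ fatForms r (2 * M - 1) pos m, ∀ α ∈ F.support,
      (⇑α : Fin (r + 1) → ℕ) ∈ Pool.Agent.H18.Ex.Rg (2 * M - 1) (fun _ => 2 * M - 1) := by
    intro F hF α hα
    rw [MvPolynomial.mem_support_iff] at hα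
    have hαd : α ∈ mons (r + 1) (2 * M - 1) := by
      rw [mem_mons]
      by_contra h
      exact hα (hF.1.coeff_eq_zero h)
    exact mem_Sx_coe.2 hαd
  have hmem : ∀ F ∈ fatForms r (2 * M - 1) pos m,
      CritA_Phi (Ex β (2 * M - 1) 0) F ∈ (LS M β 0).V (fun i => Kd.ord (m i) ∅) p := by
    intro F hF
    rw [mem_LSA]
    intro i b hb
    have h2 := sat_of_vanishes (hsupp F hF) (hF.2 i) b hb
    have h3 : msk β ∅ (fun s => p i (Sum.inl s)) = pos i := by
      funext s
      simp [msk, pos]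
    rw [h3]
    show ∑ e : {a // a ∈ Ex β (2 * M - 1) 0}, cf F e.1 * tcr (pos i) e.1 b = 0
    rw [← h2]
    rw [Finset.sum_coe_sort (Ex β (2 * M - 1) 0) fun e => cf F e * tcr (pos i) e b]
    refine Finset.sum_congr ?_ fun _ _ => rfl
    ext a
    rw [critA_mem_Ex]
    exact (mem_Sx (ι := Fin (r + 1))).symm
  let Ψ : fatForms r (2 * M - 1) pos m →ₗ[ℂ] (LS M β 0).V (fun i => Kd.ord (m i) ∅) p :=
    ((CritA_Phi (Ex β (2 * M - 1) 0)).comp (fatForms r (2 * M - 1) pos m).subtype).codRestrict _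
      fun F => hmem F.1 F.2
  refine LinearMap.finrank_le_finrank_of_injective (f := Ψ) ?_
  rw [← LinearMap.ker_eq_bot, LinearMap.ker_eq_bot']
  intro F hF
  have h4 : ∀ a ∈ Ex β (2 * M - 1) 0, cf F.1 a = 0 := by
    intro a ha
    have h5 : (Ψ F : {a // a ∈ Ex β (2 * M - 1) 0} → ℂ) ⟨a, ha⟩ = 0 := by
      rw [hF]
      rfl
    exact h5
  apply Subtype.ext
  by_contra hne
  obtain ⟨α, hα⟩ := MvPolynomial.ne_zero_iff.1 hne
  have h6 := hsupp F.1 F.2 α (MvPolynomial.mem_support_iff.2 hα)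
  have h7 := h4 (⇑α) (by
    rw [critA_mem_Ex]
    exact (mem_Sx (ι := Fin (r + 1))).1 h6)
  unfold cf at h7
  rw [symm_coe] at h7
  exact hα h7

theorem critA_bb (c k r : ℕ) (hk : 1 ≤ k) : bb c (k - 1) 0 (r + 1) = ell r k := by
  show Nat.multichoose (r + 1) (k - 1) = (k + r - 1).choose r
  rw [Nat.multichoose_eq, show r + 1 + (k - 1) - 1 = k + r - 1 by omega]
  rw [← Nat.choose_symm (show k - 1 ≤ k + r - 1 by omega)]
  congr 1
  omega

end Pool.Agent.V7

end

section

/-!
# V7, block ALPHA, module BaseAbs: independence from room against window (abstract form)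
-/

set_option autoImplicit false

namespace Pool.Agent.V7

open Finset MvPolynomial Pool.Agent.H51.TB Pool.Agent.V7.ST

variable {E ν T : Type} [Fintype E] (S : Sys E ν T)

/-- If the span property holds up to `D`, the kinds lie in the finite set `K`, every size is at most
`B` and there is room `D + |K| B²`, then the configuration is independent. -/
theorem base_abs {P : T → Prop} {D : ℕ} (hS : SpanP S P D) (K : Finset T) (hK : ∀ k ∈ K, P k)
    (B : ℕ) (hB : ∀ k ∈ K, S.size k ≤ B) (s : Multiset T) (hs : ∀ k ∈ s, k ∈ K)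
    (hroom : D + K.card * B * B + (s.map S.size).sum < Fintype.card E) :
    gM S s + (s.map S.size).sum = Fintype.card E := by
  classical
  induction s using Multiset.induction_on with
  | empty => rw [gM_zero]; simp
  | cons t s ih =>
    rw [Multiset.map_cons, Multiset.sum_cons] at hroom ⊢
    have h1 := ih (fun k hk => hs k (Multiset.mem_cons_of_mem hk)) (by omega)
    have htK : t ∈ K := hs t (Multiset.mem_cons_self t s)
    obtain ⟨m, hm, h⟩ := exists_conf S s
    let b : Fin K.card → T := fun a => (K.equivFin.symm a : T)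
    have hbK : ∀ a, b a ∈ K := fun a => (K.equivFin.symm a).2
    have hmK : ∀ i, m i ∈ K := by
      intro i
      refine hs _ (Multiset.mem_cons_of_mem ?_)
      rw [← hm]
      exact Multiset.mem_map_of_mem m (Finset.mem_univ i)
    have hsum : ∑ a, S.size (b a) ≤ K.card * B := by
      calc ∑ a, S.size (b a) ≤ ∑ _a : Fin K.card, B := sum_le_sum fun a _ => hB _ (hbK a)
        _ = K.card * B := by simp
    have hprod : S.size t * ∑ a, S.size (b a) ≤ K.card * B * B := by
      calc S.size t * ∑ a, S.size (b a) ≤ B * (K.card * B) := Nat.mul_le_mul (hB t htK) hsum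
        _ = K.card * B * B := by ring
    have h2 := windowP S hS m t b (fun i => hK _ (hmK i)) (fun a => hK _ (hbK a)) (fun i =>
      ⟨K.equivFin ⟨m i, hmK i⟩, by simp [b]⟩) (by rw [h]; omega)
    have h3 : S.gd (ad m t) = gM S (t ::ₘ s) := by
      rw [gd_eq_gM, map_ad, hm]
    rw [h, h3] at h2
    omega

end Pool.Agent.V7

end

section

/-!
# V7, fact (F3): a simple point imposes exactly one condition, unless the dimension is `0`
-/

set_option autoImplicit false
set_option linter.unusedSectionVars false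

namespace Pool.Agent.V7

open Finset MvPolynomial Pool.Agent.H51.TB Pool.Agent.H54.V7 Pool.Agent.V7.ST
open Pool.Agent.H18.Ex (tcr)

section

variable {ν : Type} [Fintype ν] [DecidableEq ν] (M : ℕ) (β : ν → ℕ) (A : Finset (ν → ℕ))

theorem msk_none {ν' R : Type} [Zero R] (β' : ν' → ℕ) (q : ν' → R) : msk β' ∅ q = q := by
  funext s
  unfold msk
  rw [if_neg (Finset.notMem_empty _)]

/-- The condition of a simple point. -/
theorem satK_sm (q : ν ⊕ ν → ℂ) (f : {a // a ∈ A} → ℂ) :
    SatK M β Kd.sm q f ↔ ∑ e : {a // a ∈ A}, f e * ∏ s, q (Sum.inl s) ^ e.1 s = 0 := by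
  show Fat (fun e : {a // a ∈ A} => e.1) 1 (msk β ∅ fun s => q (Sum.inl s)) f ↔ _
  rw [msk_none]
  have key : ∀ e : {a // a ∈ A}, tcr (fun s => q (Sum.inl s)) e.1 (fun _ => 0) =
      ∏ s, q (Sum.inl s) ^ e.1 s := by
    intro e
    unfold tcr
    refine prod_congr rfl fun s _ => ?_
    rw [Nat.choose_zero_right, Nat.cast_one, one_mul, Nat.sub_zero]
  constructor
  · intro h
    have h1 := h (fun _ => 0) (by simp)
    simp only [key] at h1
    exact h1
  · intro h b hb
    have hb0 : b = fun _ => 0 := by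
      funext s
      have h1 : b s ≤ ∑ s, b s := single_le_sum (f := b) (fun _ _ => Nat.zero_le _) (mem_univ s)
      show b s = 0
      omega
    rw [hb0]
    simp only [key]
    exact h

/-- A simple point imposes at most one condition. -/
theorem size_sm_le : (LSA M β A).size Kd.sm ≤ 1 := by
  obtain ⟨p, hp⟩ := gd_attained (LSA M β A) fun _ : Unit => Kd.sm
  let L : ({a // a ∈ A} → ℂ) →ₗ[ℂ] ℂ :=
    ∑ e : {a // a ∈ A}, (∏ s, p () (Sum.inl s) ^ e.1 s) • LinearMap.proj e
  have hL : ∀ f, L f = ∑ e : {a // a ∈ A}, f e * ∏ s, p () (Sum.inl s) ^ e.1 s := by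
    intro f
    simp only [L, LinearMap.sum_apply, LinearMap.smul_apply, LinearMap.proj_apply, smul_eq_mul]
    exact sum_congr rfl fun e _ => mul_comm _ _
  have h1 : LinearMap.ker L ≤ (LSA M β A).V (fun _ : Unit => Kd.sm) p := by
    intro f hf
    rw [LinearMap.mem_ker, hL] at hf
    rw [mem_LSA]
    rintro ⟨⟩
    rw [satK_sm]
    exact hf
  have h2 := Submodule.finrank_mono h1
  have h3 := LinearMap.finrank_range_add_finrank_ker L
  have h4 : Module.finrank ℂ (LinearMap.range L) ≤ 1 := by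
    refine (Submodule.finrank_le _).trans ?_
    rw [Module.finrank_self]
  rw [Module.finrank_fintype_fun_eq_card] at h3
  unfold Sys.size
  omega

/-- A nonzero form does not vanish at a general point. -/
theorem exists_ne_zero {f : {a // a ∈ A} → ℂ} (hf : f ≠ 0) :
    ∃ q : ν → ℂ, ∑ e : {a // a ∈ A}, f e * ∏ s, q s ^ e.1 s ≠ 0 := by
  classical
  let P : MvPolynomial ν ℂ :=
    ∑ e : {a // a ∈ A}, monomial (Finsupp.equivFunOnFinite.symm e.1) (f e)
  have hP : P ≠ 0 := by
    intro h0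
    apply hf
    funext e₀
    have h1 : coeff (Finsupp.equivFunOnFinite.symm e₀.1) P = f e₀ := by
      simp only [P]
      rw [coeff_sum, sum_eq_single e₀]
      · rw [coeff_monomial, if_pos rfl]
      · intro e _ he
        rw [coeff_monomial, if_neg]
        intro h
        exact he (Subtype.ext (Finsupp.equivFunOnFinite.symm.injective h))
      · intro h
        exact absurd (mem_univ _) h
    rw [h0, coeff_zero] at h1
    exact h1.symm
  by_contra hcon
  push Not at hcon
  apply hP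
  refine MvPolynomial.funext fun q => ?_
  rw [map_zero]
  simp only [P]
  rw [map_sum, ← hcon q]
  refine sum_congr rfl fun e _ => ?_
  rw [eval_monomial, Finsupp.prod_fintype]
  · rfl
  · intro s
    rw [pow_zero]

/-- A simple point imposes a condition, unless the dimension is `0`. -/
theorem gd_ad_sm_lt {κ : Type} [Fintype κ] (m : κ → Kd) (h : 0 < (LSA M β A).gd m) :
    (LSA M β A).gd (ad m Kd.sm) < (LSA M β A).gd m := by
  obtain ⟨p, hp⟩ := gd_attained (LSA M β A) m
  have hne : (LSA M β A).V m p ≠ ⊥ := by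
    intro h0
    rw [h0, finrank_bot] at hp
    omega
  obtain ⟨f, hf, hf0⟩ := Submodule.exists_mem_ne_zero_of_ne_bot hne
  obtain ⟨q, hq⟩ := exists_ne_zero A hf0
  have h1 := gd_le (LSA M β A) (ad m Kd.sm)
    (Sum.elim p fun _ : Unit => (Sum.elim q 0 : ν ⊕ ν → ℂ))
  refine h1.trans_lt ?_
  rw [← hp]
  refine Submodule.finrank_lt_finrank_of_lt ?_
  unfold ad
  rw [V_elim]
  refine lt_of_le_of_ne inf_le_left fun heq => hq ?_
  have h2 : f ∈ (LSA M β A).V (fun _ : Unit => Kd.sm)
      (fun _ : Unit => (Sum.elim q 0 : ν ⊕ ν → ℂ)) := by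
    have h3 : f ∈ (LSA M β A).V m p ⊓ (LSA M β A).V (fun _ : Unit => Kd.sm)
      (fun _ : Unit => (Sum.elim q 0 : ν ⊕ ν → ℂ)) := by
      rw [heq]
      exact hf
    exact h3.2
  rw [mem_LSA] at h2
  have h4 := (satK_sm M β A _ f).1 (h2 ())
  exact h4

/-- **(F3)**, one simple point. -/
theorem gM_cons_sm (s : Multiset Kd) :
    gM (LSA M β A) (Kd.sm ::ₘ s) = gM (LSA M β A) s - 1 := by
  have h1 := gM_cons_le (LSA M β A) s Kd.sm
  have h2 := gM_le_cons (LSA M β A) s Kd.sm
  have h3 := size_sm_le M β A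
  rcases Nat.eq_zero_or_pos (gM (LSA M β A) s) with h0 | h0
  · omega
  · obtain ⟨m, hm, h⟩ := exists_conf (LSA M β A) s
    have h4 := gd_ad_sm_lt M β A m (by rw [h]; exact h0)
    rw [gd_eq_gM (LSA M β A) (ad m Kd.sm), map_ad, hm, h] at h4
    omega

/-- **(F3)**: `a` simple points impose `a` conditions. -/
theorem gM_add_sm (s : Multiset Kd) (a : ℕ) :
    gM (LSA M β A) (s + Multiset.replicate a Kd.sm) = gM (LSA M β A) s - a := by
  induction a with
  | zero => rw [Multiset.replicate_zero, Multiset.add_zero, Nat.sub_zero]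
  | succ a ih =>
    rw [Multiset.replicate_succ, Multiset.add_cons, gM_cons_sm, ih]
    omega

end

end Pool.Agent.V7

end
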