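import Pool.Agent.H94.LP7.M112
import Pool.Agent.H94.LP7.M115
import Pool.Agent.H94.LP7.M117
import Pool.Agent.H94.LP7.M120
import Pool.Agent.H94.LP7.M122
import Pool.Agent.H94.LP7.M123

/-! The parts of this file: H21.NX.VRun_1, H21.NX.VCore, H21.NX.VCrit. -/

section

/-!
# Module VRun: the Horace steps, every dimension
-/

namespace Pool.Agent.H21.NX

open Finset Pool.Agent.H18.Ex

/-- The last stage: the batch is simple. -/
theorem uendV {s M D0 μ a : ℕ} (h : VNum s M D0) (l : Fin (s + 2)) (σ : ℕ) (hσ : D0 ≤ σ)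
    (hμ : 2 ≤ μ) (hμM : μ ≤ M)
    (ha : (σ + 1) * GG s M + ell (s + 1) M + ell s M ^ 2 + ell (s + 1) D0 ≤ a)
    (he : 2 * M * (σ * (WW s M + ell s M) + base s M D0) ≤ ell s (σ + 1))
    (Ψ : Multiset (ℕ × ℕ)) (R : Multiset ℕ) (g : ℕ) (hΨ : OKF M Ψ)
    (hcount : a ≤ Ψ.count (1, 1)) (hR : ∀ m ∈ R, 1 ≤ m ∧ m ≤ M)
    (hT1 : ell (s + 1) (σ + 1) ≤ fl s Ψ + tot (s + 1) R + g * ell (s + 1) μ)
    (hT2 : fl s Ψ + tot (s + 1) R + g * ell (s + 1) μ ≤ ell (s + 1) (σ + 1) + ell (s + 1) M)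
    (hload : 2 * M * tl s Ψ ≤ (2 * M - 1) * ell s (σ + 1)) :
    GM (Sx (Fin (s + 2)) σ) (fk l Ψ + R.map Kind.free + Multiset.replicate g (Kind.free μ)) := by
  have hs := h.s1
  have hM := h.hM
  have hDM := h.hD
  rw [Multiset.le_count_iff_replicate_le] at hcount
  obtain ⟨Ψ1, hΨ1⟩ := Multiset.le_iff_exists_add.1 hcount
  have hOK1 : OKF M Ψ1 := fun x hx => hΨ x (by
    rw [hΨ1]
    exact Multiset.mem_add.2 (Or.inr hx))
  have hfl : fl s Ψ = a + fl s Ψ1 := by
    rw [hΨ1]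
    unfold fl
    rw [Multiset.map_add, Multiset.sum_add, Multiset.map_replicate, Multiset.sum_replicate,
      smul_eq_mul]
    change a * (ell (s + 1) 1 + 1 - 1) + _ = _
    rw [ell_one, Nat.add_sub_cancel, Nat.mul_one]
  have htl : tl s Ψ = a + tl s Ψ1 := by
    rw [hΨ1, tl_add, tl_replicate, ell_one, Nat.mul_one]
  have hfk : fk l Ψ = Multiset.replicate a (Kind.forced l 1 1) + fk l Ψ1 := by
    rw [hΨ1]
    unfold fk
    rw [Multiset.map_add, Multiset.map_replicate]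
  have hRg : ∀ m ∈ R + Multiset.replicate g μ, 1 ≤ m ∧ m ≤ M := by
    intro m hm
    rcases Multiset.mem_add.1 hm with hm | hm
    · exact hR m hm
    · rw [Multiset.eq_of_mem_replicate hm]
      omega
  have htotRg : tot (s + 1) (R + Multiset.replicate g μ) =
      tot (s + 1) R + g * ell (s + 1) μ := by
    rw [tot_add, tot_replicate]
  have hload1 : 2 * M * tl s Ψ1 ≤ (2 * M - 1) * ell s (σ + 1) :=
    le_trans (Nat.mul_le_mul_left _ (by omega)) hload
  have hmain := GM.bridge (Sx (Fin (s + 2)) σ) (Sx (Fin (s + 2)) (σ - 1)) l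
    (fun b => Sx_resid σ (by omega) l b)
    (fk l Ψ1 + R.map Kind.free + Multiset.replicate g (Kind.free μ)) a ?_ ?_
  · rw [hfk]
    have e : Multiset.replicate a (Kind.forced l 1 1) + fk l Ψ1 + R.map Kind.free +
        Multiset.replicate g (Kind.free μ) =
        fk l Ψ1 + R.map Kind.free + Multiset.replicate g (Kind.free μ) +
          Multiset.replicate a (Kind.forced l 1 1) := by
      abel
    rw [e]
    exact hmain
  · have hp := peel_longV h l (ell (s + 1) M) (σ + 1) Ψ1 (R + Multiset.replicate g μ) a hOK1 hRg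
      (by rw [htotRg]; omega) (by rw [htotRg]; omega) hload1 (by omega)
    rw [Nat.add_sub_cancel, Multiset.map_add, Multiset.map_replicate, ← add_assoc] at hp
    exact hp
  · have hE : ell (s + 1) (σ + 1) = ell (s + 1) σ + ell s (σ + 1) := ell_succ s σ
    have hOK2 : OKF M (nxt Ψ1 0 1 0 0) :=
      OKF_nxt hOK1 (fun m hm => absurd hm (Multiset.notMem_zero m)) (Nat.le_succ _) (by omega)
        (Or.inl rfl)
    have hfl2 := fl_nxt (α := 0) (ρ := 0) (μ := 1) (N0 := 0) s hs hOK1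
      (fun m hm => absurd hm (Multiset.notMem_zero m)) le_rfl (Or.inl rfl)
    rw [show tot s (0 : Multiset ℕ) = 0 from rfl, show tot (s + 1) (0 : Multiset ℕ) = 0 from rfl]
      at hfl2
    simp only [Nat.zero_mul, Nat.add_zero] at hfl2
    have htl2 := tl_nxt (α := 0) (ρ := 0) (μ := 1) (N0 := 0) s (M - 1) hs hOK1
      (fun m hm => absurd hm (Multiset.notMem_zero m)) (by omega) (by omega)
    rw [show tot s (0 : Multiset ℕ) = 0 from rfl] at htl2
    simp only [Nat.zero_mul, Nat.add_zero, Nat.mul_zero] at htl2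
    have htl1 : tl s Ψ1 ≤ ell s (σ + 1) := by
      have := h.below (S := σ + 1) (by omega) hload1
      omega
    have hl2 := h.load (S := σ + 1) (t := tl s (nxt Ψ1 0 1 0 0)) (e := 0) (by omega)
      (by
        rw [Nat.mul_zero, Nat.add_zero]
        exact le_trans htl2 (Nat.mul_le_mul_left _ htl1)) (by omega)
    rw [Nat.add_sub_cancel] at hl2
    have hslack : tl s Ψ + (σ * (WW s M + ell s M) + base s M D0) ≤ ell s (σ + 1) := by
      have hpos : 0 < 2 * M := by omega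
      refine Nat.le_of_mul_le_mul_left ?_ hpos
      have h2 : (2 * M - 1) * ell s (σ + 1) + ell s (σ + 1) = 2 * M * ell s (σ + 1) := by
        obtain ⟨K, hK⟩ : ∃ K, 2 * M = K + 1 := ⟨2 * M - 1, by omega⟩
        rw [hK, Nat.add_sub_cancel]
        ring
      calc 2 * M * (tl s Ψ + (σ * (WW s M + ell s M) + base s M D0)) =
          2 * M * tl s Ψ + 2 * M * (σ * (WW s M + ell s M) + base s M D0) := by ring
        _ ≤ (2 * M - 1) * ell s (σ + 1) + ell s (σ + 1) := Nat.add_le_add hload he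
        _ = _ := h2
    have hov := over_peel h l σ hσ (nxt Ψ1 0 1 0 0) (R + Multiset.replicate g μ) hOK2 hRg hl2
      (by rw [htotRg]; omega)
    refine GM.mono ?_ hov
    rw [Multiset.map_add, Multiset.map_add, Multiset.map_add, Multiset.map_map,
      Multiset.map_replicate, Multiset.map_replicate,
      add_assoc (Multiset.map (Kind.dn l) (fk l Ψ1))]
    exact add_le_add (fk_nxt_dn l Ψ1) le_rfl

theorem urunV {s M D0 d μ a : ℕ} (h : VNum s M D0) (l : Fin (s + 2)) (hμ : 2 ≤ μ) (hμM : μ ≤ M)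
    (hd : D0 + M ≤ d)
    (ha : (d + 1) * GG s M + ell (s + 1) M + ell s M ^ 2 + ell (s + 1) D0 ≤ a)
    (he : 2 * M * ((d + 1) * (WW s M + ell s M) + base s M D0) ≤ ell s (d + 2 - M)) :
    ∀ c, 1 ≤ c → c < μ → ∀ (Ψ : Multiset (ℕ × ℕ)) (R : Multiset ℕ) (g : ℕ), OKF M Ψ →
      a ≤ Ψ.count (c, 1) → (∀ m ∈ R, 1 ≤ m ∧ m ≤ M) →
      ell (s + 1) (d - μ + 1 + c) ≤ fl s Ψ + tot (s + 1) R + g * ell (s + 1) μ →
      fl s Ψ + tot (s + 1) R + g * ell (s + 1) μ ≤
        ell (s + 1) (d - μ + 1 + c) + ell (s + 1) M →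
      2 * M * tl s Ψ ≤ (2 * M - 1) * ell s (d - μ + 1 + c) → c * GG s M ≤ g → g ≤ M * GG s M →
      GM (Sx (Fin (s + 2)) (d - μ + c)) (fk l Ψ + R.map Kind.free +
        Multiset.replicate g (Kind.free μ)) := by
  have hs := h.s1
  have hM := h.hM
  intro c
  induction c with
  | zero => intro h0; omega
  | succ c ih =>
    intro _ hcμ Ψ R g hΨ hcount hR hT1 hT2 hload hg1 hg2
    rcases Nat.eq_zero_or_pos c with hc0 | hc0
    · subst hc0
      refine uendV h l (d - μ + (0 + 1)) (by omega) hμ hμM ?_ ?_ Ψ R g hΨ hcount hR ?_ ?_ ?_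
      · refine le_trans ?_ ha
        have : (d - μ + (0 + 1) + 1) * GG s M ≤ (d + 1) * GG s M :=
          Nat.mul_le_mul_right _ (by omega)
        omega
      · refine le_trans ?_ (le_trans he (ell_mono _ (by omega)))
        refine Nat.mul_le_mul_left _ (Nat.add_le_add_right (Nat.mul_le_mul_right _ ?_) _)
        omega
      · rw [show d - μ + (0 + 1) + 1 = d - μ + 1 + (0 + 1) by omega]
        exact hT1
      · rw [show d - μ + (0 + 1) + 1 = d - μ + 1 + (0 + 1) by omega]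
        exact hT2
      · rw [show d - μ + (0 + 1) + 1 = d - μ + 1 + (0 + 1) by omega]
        exact hload
    · have hGG : (c + 1) * GG s M = c * GG s M + GG s M := by ring
      obtain ⟨N0, Q, ρ, hQ, hρ, hsum, hload', himp⟩ := ustepV h l (d - μ + 1 + (c + 1)) μ 0
        (by omega) hμ hμM Ψ R g hΨ hR (by rw [Nat.zero_mul, Nat.add_zero]; exact hload) (by omega) hg2
        (by omega)
      rw [show d - μ + 1 + (c + 1) - 1 = d - μ + (c + 1) by omega, Nat.zero_add g] at himp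
      refine himp ?_
      rw [show d - μ + 1 + (c + 1) - 2 = d - μ + c by omega]
      have hN0 : ∀ m ∈ N0, 1 ≤ m ∧ m ≤ M := fun m hm => hR m (by
        rw [hQ]
        exact Multiset.mem_add.2 (Or.inl hm))
      have hQm : ∀ m ∈ Q, 1 ≤ m ∧ m ≤ M := fun m hm => hR m (by
        rw [hQ]
        exact Multiset.mem_add.2 (Or.inr hm))
      have hfl := fl_nxt (α := 0) (ρ := ρ) (μ := μ) (N0 := N0) s hs hΨ
        (fun m hm => (hN0 m hm).1) (by omega) (Or.inr hμ)
      have hF : ell (s + 1) (d - μ + 1 + (c + 1)) =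
          ell (s + 1) (d - μ + 1 + c) + ell s (d - μ + 1 + (c + 1)) :=
        ell_succ s (d - μ + 1 + c)
      have htotR : tot (s + 1) R = tot (s + 1) N0 + tot (s + 1) Q := by rw [hQ, tot_add]
      have hgρ : g * ell (s + 1) μ = ρ * ell (s + 1) μ + (g - ρ) * ell (s + 1) μ := by
        rw [← Nat.add_mul]
        congr 1
        omega
      rw [Nat.zero_add ρ] at hfl
      refine ih hc0 (by omega) (nxt Ψ N0 μ 0 ρ) Q (g - ρ) ?_ (count_nxt hc0 hcount) hQm ?_ ?_ ?_
        ?_ ?_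
      · exact OKF_nxt hΨ (fun m hm => (hN0 m hm).2) (Nat.le_succ _) (by omega) (Or.inr hμM)
      · omega
      · omega
      · exact hload'
      · omega
      · omega

end Pool.Agent.H21.NX

end

section

/-!
# Module VCore: exactness, every dimension
-/

namespace Pool.Agent.H21.NX

open Finset Pool.Agent.H18.Ex

theorem vcore {s M D0 d : ℕ} (h : VNum s M D0) (hd : D0 + M ≤ d)
    (hbig : 2 * ((a0 s M D0 d + M * GG s M) * (M * ell (s + 1) M)) ≤ ell s (d + 1))
    (he : 2 * M * ((d + 1) * (WW s M + ell s M) + base s M D0) ≤ ell s (d + 2 - M))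
    (S : Multiset ℕ) (hS : ∀ m ∈ S, m ≤ M) (hT : ell (s + 1) (d + 1) ≤ tot (s + 1) S) :
    GM (Sx (Fin (s + 2)) d) (S.map Kind.free) := by
  have hs := h.s1
  have hM := h.hM
  have hF1 := h.F1
  have hE1 := h.E1
  have hEF := h.EF
  have hED := ell_le_succ s (d + 1) hs
  have hpos : 1 ≤ ell s (d + 1) := ell_pos _ (by omega)
  -- a sub-multiset of nearly the right length
  obtain ⟨R1, hR1, hR1a, hR1b⟩ := greedy (s + 1) M 0 (ell (s + 1) (d + 1)) (Nat.zero_le _)
    (S.filter (1 ≤ ·)) (fun m hm => hS m (Multiset.mem_filter.1 hm).1)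
    (by rw [tot_filter_pos (s + 1) (by omega), Nat.zero_add]; exact hT)
  rw [Nat.zero_add] at hR1a hR1b
  have hR1m : ∀ m ∈ R1, 1 ≤ m ∧ m ≤ M := fun m hm => by
    have h1 := Multiset.mem_filter.1 (Multiset.mem_of_le hR1 hm)
    exact ⟨h1.2, hS m h1.1⟩
  have hle : R1 ≤ S := le_trans hR1 (Multiset.filter_le _ _)
  refine GM.mono (Multiset.map_le_map hle) ?_
  -- a frequent multiplicity
  set κ := a0 s M D0 d + M * GG s M with hκ
  obtain ⟨μ, hμ1, hμM, hμ⟩ := exists_count (s + 1) M (κ * ell (s + 1) M) R1 (by omega)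
    (fun m hm => (hR1m m hm).2) (by
      have e1 : 2 * (M * (κ * ell (s + 1) M)) ≤ ell s (d + 1) := by
        calc 2 * (M * (κ * ell (s + 1) M)) = 2 * (κ * (M * ell (s + 1) M)) := by ring
          _ ≤ _ := hbig
      omega)
  have hcount : κ ≤ R1.count μ := by
    have e1 : κ * ell (s + 1) M ≤ R1.count μ * ell (s + 1) M :=
      le_trans hμ (Nat.mul_le_mul_left _ (ell_mono _ hμM))
    exact Nat.le_of_mul_le_mul_right e1 hF1
  rw [Multiset.le_count_iff_replicate_le] at hcount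
  obtain ⟨R2, hR2⟩ := Multiset.le_iff_exists_add.1 hcount
  have hR2m : ∀ m ∈ R2, 1 ≤ m ∧ m ≤ M := fun m hm => hR1m m (by
    rw [hR2]
    exact Multiset.mem_add.2 (Or.inr hm))
  have htot : tot (s + 1) R1 = κ * ell (s + 1) μ + tot (s + 1) R2 := by
    rw [hR2, tot_add, tot_replicate]
  rcases Nat.eq_or_lt_of_le hμ1 with hμe | hμ2
  · -- many simple points
    subst hμe
    rw [ell_one, Nat.mul_one] at htot
    have hκ2 : ell (s + 1) M + ell (s + 1) M ^ 2 ≤ κ := by
      have e1 : ell s D0 ≤ ell (s + 1) D0 := ell_le_succ s D0 hs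
      have e2 := h.room
      have e3 : ell (s + 1) M ^ 2 ≤ 16 * M * ell (s + 1) M ^ 3 := by
        calc ell (s + 1) M ^ 2 = 1 * (ell (s + 1) M ^ 2 * 1) := by ring
          _ ≤ (16 * M) * (ell (s + 1) M ^ 2 * ell (s + 1) M) :=
              Nat.mul_le_mul (by omega) (Nat.mul_le_mul_left _ hF1)
          _ = _ := by ring
      have e4 : ell (s + 1) M + ell (s + 1) D0 ≤ a0 s M D0 d := by
        unfold a0
        omega
      omega
    rw [add_comm] at hR2
    have hmem : ∀ t ∈ R1, t ≤ M := fun t ht => (hR1m t ht).2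
    refine window_GM (s + 1) d (by omega) R1 M hmem ?_ hR1a
    intro t ht ht2
    have htM := hmem t ht
    rw [hR2]
    exact window_cond' (s + 1) (by omega) R2 κ M _ (by omega) t ht2 htM
  · -- the batch
    have hEμ : ell s μ ≤ ell (s + 1) M := le_trans (ell_mono _ hμM) hEF
    have hx : 2 * (tl s 0 + a0 s M D0 d * ell s μ) ≤ ell s (d + 1) := by
      refine le_trans ?_ hbig
      rw [show tl s 0 = 0 from rfl, Nat.zero_add]
      refine Nat.mul_le_mul_left _ (Nat.mul_le_mul (Nat.le_add_right _ _) ?_)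
      calc ell s μ ≤ 1 * ell (s + 1) M := by rw [Nat.one_mul]; exact hEμ
        _ ≤ _ := Nat.mul_le_mul_right _ hM
    have hxV : 2 * M * (tl s 0 + a0 s M D0 d * ell s μ) ≤ (2 * M - 1) * ell s (d + 1) := by
      calc 2 * M * (tl s 0 + a0 s M D0 d * ell s μ) =
          M * (2 * (tl s 0 + a0 s M D0 d * ell s μ)) := by ring
        _ ≤ M * ell s (d + 1) := Nat.mul_le_mul_left _ hx
        _ ≤ _ := Nat.mul_le_mul_right _ (by omega)
    have hGG : (μ - 1) * GG s M + GG s M = μ * GG s M := by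
      obtain ⟨j, rfl⟩ : ∃ j, μ = j + 1 := ⟨μ - 1, by omega⟩
      rw [Nat.add_sub_cancel]
      ring
    have hGG2 : μ * GG s M ≤ M * GG s M := Nat.mul_le_mul_right _ hμM
    have hOK0 : OKF M (0 : Multiset (ℕ × ℕ)) := fun x hx => absurd hx (Multiset.notMem_zero x)
    have hκm : κ * ell (s + 1) μ =
        a0 s M D0 d * ell (s + 1) μ + M * GG s M * ell (s + 1) μ := by
      rw [hκ]
      ring
    obtain ⟨N0, Q, ρ, hQ, hρ, hsum, hload, himp⟩ := ustepV h (0 : Fin (s + 2)) (d + 1) μ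
      (a0 s M D0 d) (by omega) hμ2 hμM 0 R2 (M * GG s M) hOK0 hR2m hxV (by omega) le_rfl (by
        rw [show fl s 0 = 0 from rfl]
        omega)
    rw [hR2, Multiset.map_add, Multiset.map_replicate]
    rw [Nat.add_sub_cancel, show fk (0 : Fin (s + 2)) 0 = 0 from rfl, Multiset.zero_add,
      add_comm (Multiset.map _ _)] at himp
    refine himp ?_
    have hN0 : ∀ m ∈ N0, 1 ≤ m ∧ m ≤ M := fun m hm => hR2m m (by
      rw [hQ]
      exact Multiset.mem_add.2 (Or.inl hm))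
    have hQm : ∀ m ∈ Q, 1 ≤ m ∧ m ≤ M := fun m hm => hR2m m (by
      rw [hQ]
      exact Multiset.mem_add.2 (Or.inr hm))
    have hfl := fl_nxt (α := a0 s M D0 d) (ρ := ρ) (μ := μ) (N0 := N0) s hs hOK0
      (fun m hm => (hN0 m hm).1) (by omega) (Or.inr hμ2)
    rw [show fl s (0 : Multiset (ℕ × ℕ)) = 0 from rfl] at hfl
    have hF : ell (s + 1) (d + 1) = ell (s + 1) d + ell s (d + 1) := ell_succ s d
    have htotR : tot (s + 1) R2 = tot (s + 1) N0 + tot (s + 1) Q := by rw [hQ, tot_add]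
    have hgρ : M * GG s M * ell (s + 1) μ =
        ρ * ell (s + 1) μ + (M * GG s M - ρ) * ell (s + 1) μ := by
      rw [← Nat.add_mul]
      congr 1
      omega
    rw [Nat.add_mul, Nat.zero_add] at hfl
    have hrun := urunV h (0 : Fin (s + 2)) (d := d) (μ := μ) (a := a0 s M D0 d) hμ2 hμM hd le_rfl
      he (μ - 1) (by omega) (by omega) (nxt 0 N0 μ (a0 s M D0 d) ρ) Q (M * GG s M - ρ) ?_
      (count_nxt_start hμ2) hQm ?_ ?_ ?_ ?_ ?_
    · rw [show d + 1 - 2 = d - μ + (μ - 1) by omega]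
      exact hrun
    · exact OKF_nxt hOK0 (fun m hm => (hN0 m hm).2) (Nat.le_succ _) (by omega) (Or.inr hμM)
    · rw [show d - μ + 1 + (μ - 1) = d by omega]
      omega
    · rw [show d - μ + 1 + (μ - 1) = d by omega]
      omega
    · rw [show d - μ + 1 + (μ - 1) = d by omega]
      rwa [Nat.add_sub_cancel] at hload
    · omega
    · omega

end Pool.Agent.H21.NX

end

section

/-!
# Module VCrit: a numerical criterion for exactness
-/

namespace Pool.Agent.H21.NX

open Finset Pool.Agent.H18.Ex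

theorem end_step (s M D0 d : ℕ) (hs : 1 ≤ s) (hM : 1 ≤ M) (hd : M ≤ d + 1)
    (h : 2 * M * ((d + 1) * (WW s M + ell s M) + base s M D0) ≤ ell s (d + 2 - M)) :
    2 * M * ((d + 1 + 1) * (WW s M + ell s M) + base s M D0) ≤ ell s (d + 1 + 2 - M) := by
  obtain ⟨y, hy⟩ : ∃ y, d + 2 - M = y := ⟨_, rfl⟩
  have hy1 : 1 ≤ y := by omega
  have hyd : y ≤ d + 1 := by omega
  rw [hy] at h
  rw [show d + 1 + 2 - M = y + 1 by omega]
  have hrel : ell s y * (y + s) = ell s (y + 1) * y := ell_mul_add s y hs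
  refine Nat.le_of_mul_le_mul_right ?_ (show 0 < y from hy1)
  rw [← hrel]
  obtain ⟨W, hW⟩ : ∃ W, WW s M + ell s M = W := ⟨_, rfl⟩
  rw [hW] at h ⊢
  have h1 : 2 * M * (W * y) ≤ ell s y := by
    refine le_trans ?_ h
    refine Nat.mul_le_mul_left _ (le_trans ?_ (Nat.le_add_right _ _))
    rw [mul_comm]
    exact Nat.mul_le_mul_right _ hyd
  calc 2 * M * ((d + 1 + 1) * W + base s M D0) * y =
      2 * M * ((d + 1) * W + base s M D0) * y + 2 * M * (W * y) * 1 := by ring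
    _ ≤ ell s y * y + ell s y * s :=
        Nat.add_le_add (Nat.mul_le_mul_right _ h) (Nat.mul_le_mul h1 hs)
    _ = _ := by ring

/-- Exactness in all degrees from `d0` on. -/
theorem exact_from {s M D0 d0 : ℕ} (h : VNum s M D0) (hd0 : D0 + M ≤ d0)
    (hB : 2 * ((a0 s M D0 d0 + M * GG s M) * (M * ell (s + 1) M)) ≤ ell s (d0 + 1))
    (hE : 2 * M * ((d0 + 1) * (WW s M + ell s M) + base s M D0) ≤ ell s (d0 + 2 - M)) :
    ∀ d, d0 ≤ d → ∀ (k : ℕ) (m : Fin k → ℕ), (∀ i, m i ≤ M) →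
    Pool.Agent.H18.Fat.ForGeneralPoints (s + 1) k fun p =>
      Pool.Agent.H18.Fat.ImposesMaximalConditions (s + 1) d p m := by
  intro d hd k m hm
  have hM := h.hM
  have hs := h.s1
  have hB' : 2 * ((a0 s M D0 d + M * GG s M) * (M * ell (s + 1) M)) ≤ ell s (d + 1) :=
    Nat.le_induction hB (fun d _ ih => big_step s M D0 d hs ih) d hd
  have hE' : 2 * M * ((d + 1) * (WW s M + ell s M) + base s M D0) ≤ ell s (d + 2 - M) :=
    Nat.le_induction hE (fun d hd ih => end_step s M D0 d hs hM (by omega) ih) d hd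
  refine max_of_GM (s + 1) k d (by omega) m ?_
  rw [← aug_map]
  exact vcore h (by omega) hB' hE' (aug (s + 1) d m) (mem_aug hM hm) (le_tot_aug _ _ m)

/-- The criterion. -/
theorem crit {s M D0 d0 : ℕ} (hs : 1 ≤ s) (hM : 1 ≤ M) (hD : 16 * M ≤ D0) (hd0 : D0 + M ≤ d0)
    (h1 : 16 * M ^ 4 * ell s M ^ 3 ≤ ell s D0)
    (h2 : 16 * M ^ 2 * d0 * ell s M ^ 3 ≤ ell s (d0 + 2 - M))
    (h3 : 8 * M ^ 2 * D0 * (ell s M * ell s D0) ≤ ell s (d0 + 2 - M)) :
    ∀ d, d0 ≤ d → ∀ (k : ℕ) (m : Fin k → ℕ), (∀ i, m i ≤ M) →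
    Pool.Agent.H18.Fat.ForGeneralPoints (s + 1) k fun p =>
      Pool.Agent.H18.Fat.ImposesMaximalConditions (s + 1) d p m := by
  obtain ⟨E, hE⟩ : ∃ E, ell s M = E := ⟨_, rfl⟩
  obtain ⟨F, hF⟩ : ∃ F, ell (s + 1) M = F := ⟨_, rfl⟩
  obtain ⟨E0, hE0⟩ : ∃ E0, ell s D0 = E0 := ⟨_, rfl⟩
  obtain ⟨F0, hF0⟩ : ∃ F0, ell (s + 1) D0 = F0 := ⟨_, rfl⟩
  have hEpos : 1 ≤ E := by rw [← hE]; exact ell_pos _ hM
  have hE0pos : 1 ≤ E0 := by rw [← hE0]; exact ell_pos _ (by omega)
  have hFE : F ≤ M * E := by rw [← hF, ← hE]; exact ell_le_mul s M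
  have hFE0 : F0 ≤ D0 * E0 := by rw [← hF0, ← hE0]; exact ell_le_mul s D0
  rw [hE, hE0] at h3
  rw [hE] at h1 h2
  rw [hE0] at h1
  have hG : GG s M ≤ 2 * E ^ 2 := by
    unfold GG
    rw [hE]
    nlinarith only [hE, hEpos]
  have hGE : GG s M * E + E ≤ 3 * E ^ 3 := by
    have e1 : GG s M * E ≤ 2 * E ^ 2 * E := Nat.mul_le_mul_right _ hG
    have e2 : E ≤ E ^ 3 := by
      calc E = E ^ 1 := (pow_one _).symm
        _ ≤ _ := Nat.pow_le_pow_right hEpos (by omega)
    calc GG s M * E + E ≤ 2 * E ^ 2 * E + E ^ 3 := Nat.add_le_add e1 e2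
      _ = _ := by ring
  have hE23 : E ^ 2 ≤ E ^ 3 := Nat.pow_le_pow_right hEpos (by omega)
  refine exact_from (D0 := D0) (d0 := d0) ⟨hM, hs, hD, ?_⟩ hd0 ?_ ?_
  · rw [hF, hE0]
    refine le_trans ?_ h1
    calc 16 * M * F ^ 3 ≤ 16 * M * (M * E) ^ 3 :=
          Nat.mul_le_mul_left _ (Nat.pow_le_pow_left hFE 3)
      _ = _ := by ring
  · have e0 : a0 s M D0 d0 + M * GG s M ≤ 3 * d0 * E ^ 2 + D0 * E0 := by
      unfold a0
      rw [hF, hE, hF0]
      have e1 : (d0 + 1) * GG s M ≤ (d0 + 1) * (2 * E ^ 2) := Nat.mul_le_mul_left _ hG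
      have e2 : M * GG s M ≤ M * (2 * E ^ 2) := Nat.mul_le_mul_left _ hG
      have e3 : F ≤ M * E ^ 2 := by
        refine le_trans hFE (Nat.mul_le_mul_left _ ?_)
        nlinarith only [hE, hGE]
      have e4 : (2 * (d0 + 1) + M + 1 + 2 * M) * E ^ 2 ≤ (3 * d0) * E ^ 2 :=
        Nat.mul_le_mul_right _ (by omega)
      have e5 : (2 * (d0 + 1) + M + 1 + 2 * M) * E ^ 2 = (d0 + 1) * (2 * E ^ 2) + M * E ^ 2 +
        E ^ 2 + M * (2 * E ^ 2) := by ring
      omega
    have e1 : ell s (d0 + 2 - M) ≤ ell s (d0 + 1) := ell_mono _ (by omega)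
    refine le_trans ?_ e1
    rw [hF]
    have e2 : 2 * (2 * ((a0 s M D0 d0 + M * GG s M) * (M * F))) ≤ 2 * ell s (d0 + 2 - M) := by
      calc 2 * (2 * ((a0 s M D0 d0 + M * GG s M) * (M * F))) ≤
          2 * (2 * ((3 * d0 * E ^ 2 + D0 * E0) * (M * (M * E)))) :=
            Nat.mul_le_mul_left _ (Nat.mul_le_mul_left _ (Nat.mul_le_mul e0
              (Nat.mul_le_mul_left _ hFE)))
        _ = 12 * M ^ 2 * d0 * E ^ 3 + 4 * M ^ 2 * D0 * (E * E0) := by ring
        _ ≤ 16 * M ^ 2 * d0 * E ^ 3 + 8 * M ^ 2 * D0 * (E * E0) := by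
            refine Nat.add_le_add ?_ ?_
            · exact Nat.mul_le_mul_right _ (Nat.mul_le_mul_right _ (Nat.mul_le_mul_right _
                (by omega)))
            · exact Nat.mul_le_mul_right _ (Nat.mul_le_mul_right _ (Nat.mul_le_mul_right _
                (by omega)))
        _ ≤ ell s (d0 + 2 - M) + ell s (d0 + 2 - M) := Nat.add_le_add h2 h3
        _ = _ := by ring
    omega
  · unfold WW base
    rw [hF, hE, hE0, hF0]
    have e1 : M * E0 ≤ M * (D0 * (E * E0)) := by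
      refine Nat.mul_le_mul_left _ ?_
      calc E0 = 1 * (1 * E0) := by ring
        _ ≤ D0 * (E * E0) := Nat.mul_le_mul (by omega) (Nat.mul_le_mul_right _ hEpos)
    have e2 : F0 * F ≤ M * (D0 * (E * E0)) := by
      calc F0 * F ≤ (D0 * E0) * (M * E) := Nat.mul_le_mul hFE0 hFE
        _ = _ := by ring
    have e3 : (d0 + 1) * (GG s M * E + E) ≤ (d0 + 1) * (3 * E ^ 3) := Nat.mul_le_mul_left _ hGE
    have hM2 : M ≤ M ^ 2 := by nlinarith only [hM]
    have e4 : 2 * (2 * M * ((d0 + 1) * (GG s M * E + E) + (F0 * F + M * E0))) ≤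
        2 * ell s (d0 + 2 - M) := by
      calc 2 * (2 * M * ((d0 + 1) * (GG s M * E + E) + (F0 * F + M * E0))) ≤
          2 * (2 * M * ((d0 + 1) * (3 * E ^ 3) + (M * (D0 * (E * E0)) +
            M * (D0 * (E * E0))))) :=
            Nat.mul_le_mul_left _ (Nat.mul_le_mul_left _ (Nat.add_le_add e3
              (Nat.add_le_add e2 e1)))
        _ = (12 * (d0 + 1)) * M * E ^ 3 + 8 * M ^ 2 * D0 * (E * E0) := by ring
        _ ≤ (16 * d0) * M ^ 2 * E ^ 3 + 8 * M ^ 2 * D0 * (E * E0) := by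
            refine Nat.add_le_add_right (Nat.mul_le_mul_right _ (Nat.mul_le_mul ?_ hM2)) _
            omega
        _ = 16 * M ^ 2 * d0 * E ^ 3 + 8 * M ^ 2 * D0 * (E * E0) := by ring
        _ ≤ ell s (d0 + 2 - M) + ell s (d0 + 2 - M) := Nat.add_le_add h2 h3
        _ = _ := by ring
    omega

end Pool.Agent.H21.NX

end
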