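import Pool.Agent.H94.LP7.M124
import Pool.Agent.H94.LP7.M125
import Pool.Agent.H94.LP7.M126

/-! The parts of this file: H21.NX.Final_1, H21.NX.UNum_1, H21.NX.VFin, H21.NX.VNumII. -/

section

/-!
# Module Final: exactness in high dimension
-/

namespace Pool.Agent.H21.NX

open Finset Pool.Agent.H18.Fat Pool.Agent.H18.Ex

/-- Part 2. -/
theorem exact_many (d : ℕ) : ∃ K r₀ : ℕ, ∀ r, r₀ ≤ r → ∀ μ M : ℕ, 1 ≤ μ → μ ≤ M →
    2 * M ≤ d + 1 → 2 * μ + M ≤ d + 1 → ∀ (k : ℕ) (m : Fin k → ℕ), (∀ i, m i ≤ M) →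
    K * r ^ (d - μ) ≤ (univ.filter fun i => m i = μ).card →
    ForGeneralPoints r k fun p => ImposesMaximalConditions r d p m := by
  obtain ⟨K', s0, hK', hs0, hcore⟩ := core d
  refine ⟨K', s0 + 1, fun r hr μ M hμ hμM hM h k m hm hcount => ?_⟩
  obtain ⟨s, rfl⟩ : ∃ s, r = s + 1 := ⟨r - 1, by omega⟩
  obtain ⟨-, hc⟩ := hcore s (by omega) μ M hμ hμM hM h
  refine max_of_GM (s + 1) k d (by omega) m ?_
  rw [← aug_map]
  refine hc (aug (s + 1) d m) (mem_aug (by omega) hm) ?_ (le_tot_aug _ _ m)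
  refine le_trans ?_ (le_trans hcount (count_le_aug _ _ m μ))
  exact Nat.mul_le_mul_left _ (Nat.pow_le_pow_left (Nat.le_succ _) _)

/-- Part 1. -/
theorem exact_small (d : ℕ) : ∃ r₀ : ℕ, ∀ r, r₀ ≤ r → ∀ (k : ℕ) (m : Fin k → ℕ),
    (∀ i, 3 * m i ≤ d + 1) →
    ForGeneralPoints r k fun p => ImposesMaximalConditions r d p m := by
  obtain ⟨K', s0, hK', hs0, hcore⟩ := core d
  refine ⟨s0 + 1, fun r hr k m hm => ?_⟩
  obtain ⟨s, rfl⟩ : ∃ s, r = s + 1 := ⟨r - 1, by omega⟩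
  set M := (d + 1) / 3 with hMdef
  have hmM : ∀ i, m i ≤ M := fun i => by
    have := hm i
    omega
  rcases Nat.eq_zero_or_pos M with hM0 | hM1
  · exact window_fin (s + 1) d (by omega) 0 m (fun i => by have := hmM i; omega)
      (fun i hi => by have := hmM i; omega)
  refine max_of_GM (s + 1) k d (by omega) m ?_
  rw [← aug_map]
  have hS := mem_aug (r := s + 1) (d := d) hM1 hmM
  have htot := le_tot_aug (s + 1) d m
  have hs1 : 1 ≤ s := by omega
  -- the lengths are large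
  have hX : ∀ μ, 1 ≤ μ → μ ≤ M → (d + 1) * (K' * s ^ (d - μ) * ell (s + 1) μ) ≤
      ell (s + 1) (d + 1) := fun μ h1 h2 =>
    (hcore s (by omega) μ M h1 h2 (by omega) (by omega)).1
  have hpos : 1 ≤ ell (s + 1) (d + 1) := ell_pos _ (by omega)
  obtain ⟨μ, hμ1, hμM, hμ⟩ := exists_count (s + 1) M (ell (s + 1) (d + 1) / (d + 1))
    (aug (s + 1) d m) (by omega) hS (by
      refine lt_of_lt_of_le ?_ htot
      have h1 : M < d + 1 := by omega
      by_cases h0 : ell (s + 1) (d + 1) / (d + 1) = 0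
      · rw [h0, Nat.mul_zero]
        exact hpos
      · calc M * (ell (s + 1) (d + 1) / (d + 1)) < (d + 1) * (ell (s + 1) (d + 1) / (d + 1)) :=
              Nat.mul_lt_mul_of_pos_right h1 (Nat.pos_of_ne_zero h0)
          _ ≤ _ := Nat.mul_div_le _ _)
  have hcount : K' * s ^ (d - μ) ≤ (aug (s + 1) d m).count μ := by
    refine Nat.le_of_mul_le_mul_right ?_ (ell_pos (s + 1) hμ1)
    refine le_trans ?_ hμ
    rw [Nat.le_div_iff_mul_le (by omega), mul_comm]
    exact hX μ hμ1 hμM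
  exact (hcore s (by omega) μ M hμ1 hμM (by omega) (by omega)).2 _ hS hcount htot

end Pool.Agent.H21.NX

end

section

/-!
# Module UNum: the numerical conditions of the uniform version
-/

namespace Pool.Agent.H21.NX

open Finset Pool.Agent.H18.Ex

/-- Exactness for large dimension and large degree, both bounds depending only on `M`. -/
theorem exact_uniform (M : ℕ) : ∃ D1 r₀ : ℕ, ∀ r, r₀ ≤ r → ∀ d, D1 ≤ d →
    ∀ (k : ℕ) (m : Fin k → ℕ), (∀ i, m i ≤ M) →
    Pool.Agent.H18.Fat.ForGeneralPoints r k fun p =>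
      Pool.Agent.H18.Fat.ImposesMaximalConditions r d p m := by
  obtain ⟨D0, D1, s0, h⟩ := exists_unum (M + 1) (by omega)
  refine ⟨D1, s0 + 1, fun r hr d hd k m hm => ?_⟩
  obtain ⟨s, rfl⟩ : ∃ s, r = s + 1 := ⟨r - 1, by omega⟩
  obtain ⟨h1, h2, h3⟩ := h s (by omega) d hd
  refine max_of_GM (s + 1) k d (by omega) m ?_
  rw [← aug_map]
  exact ucore h1 h2 h3 (aug (s + 1) d m) (mem_aug (by omega) fun i => le_trans (hm i)
    (Nat.le_succ M)) (le_tot_aug _ _ m)

/-- Exactness for large dimension and `d ≥ 3 M - 1`. -/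
theorem exact_three (M : ℕ) : ∃ r₀ : ℕ, ∀ r, r₀ ≤ r → ∀ d, 3 * M ≤ d + 1 →
    ∀ (k : ℕ) (m : Fin k → ℕ), (∀ i, m i ≤ M) →
    Pool.Agent.H18.Fat.ForGeneralPoints r k fun p =>
      Pool.Agent.H18.Fat.ImposesMaximalConditions r d p m := by
  obtain ⟨D1, r₁, h1⟩ := exact_uniform M
  choose r₂ h2 using exact_small
  refine ⟨r₁ + (Finset.range D1).sup r₂, fun r hr d hd k m hm => ?_⟩
  by_cases hdD : D1 ≤ d
  · exact h1 r (by omega) d hdD k m hm
  · refine h2 d r ?_ k m fun i => by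
      have := hm i
      omega
    have : r₂ d ≤ (Finset.range D1).sup r₂ :=
      Finset.le_sup (f := r₂) (Finset.mem_range.2 (by omega))
    omega

end Pool.Agent.H21.NX

end

section

/-!
# Module VFin: the complete region
-/

namespace Pool.Agent.H21.NX

open Finset Pool.Agent.H18.Ex
open Pool.Agent.H18.Fat

/-- High dimension, degrees at least `2 M - 1`. -/
theorem exact_high (M : ℕ) : ∃ r₀ K : ℕ, ∀ r d : ℕ, r₀ ≤ r → 2 * M ≤ d + 1 →
    ∀ (k : ℕ) (m : Fin k → ℕ), (∀ i, m i ≤ M) →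
    (3 * M ≤ d + 1 ∨ ∃ μ, 1 ≤ μ ∧ 2 * μ + M ≤ d + 1 ∧
      K * r ^ (d - μ) ≤ (univ.filter fun i => m i = μ).card) →
    ForGeneralPoints r k fun p => ImposesMaximalConditions r d p m := by
  obtain ⟨r₁, h1⟩ := exact_three M
  choose K₂ r₂ h2 using exact_many
  refine ⟨r₁ + (range (3 * M)).sup r₂ + 1, (range (3 * M)).sup K₂ + 1,
    fun r d hr hd k m hm hcase => ?_⟩
  by_cases hdM : 3 * M ≤ d + 1
  · exact h1 r (by omega) d hdM k m hm
  · rcases hcase with hcase | ⟨μ, hμ1, hμ2, hμ3⟩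
    · exact absurd hcase hdM
    · have hr2 : r₂ d ≤ (range (3 * M)).sup r₂ := le_sup (f := r₂) (mem_range.2 (by omega))
      have hK2 : K₂ d ≤ (range (3 * M)).sup K₂ := le_sup (f := K₂) (mem_range.2 (by omega))
      have hr1 : 1 ≤ r := by omega
      have hpow : 1 ≤ r ^ (d - μ) := Nat.one_le_pow _ _ hr1
      have hK1 : 1 ≤ (univ.filter fun i => m i = μ).card := by
        refine le_trans ?_ hμ3
        calc 1 = 1 * 1 := rfl
          _ ≤ _ := Nat.mul_le_mul (by omega) hpow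
      obtain ⟨i, hi⟩ := card_pos.1 hK1
      have hμM : μ ≤ M := by
        rw [← (mem_filter.1 hi).2]
        exact hm i
      refine h2 d r (by omega) μ M hμ1 hμM hd hμ2 k m hm (le_trans ?_ hμ3)
      exact Nat.mul_le_mul_right _ (by omega)

end Pool.Agent.H21.NX

end

section

/-!
# Module VNumII: the dimension is at least the multiplicities
-/

namespace Pool.Agent.H21.NX

open Finset Pool.Agent.H18.Ex

theorem cube_le (s M : ℕ) (hM : 1 ≤ M) : ell s M ^ 3 ≤ 2 ^ (5 * M) * ell s (4 * M) := by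
  have h1 := ell_mul_ell_le_two s M M hM hM
  have h2 := ell_mul_ell_le_two s (M + M) M (by omega) hM
  calc ell s M ^ 3 = (ell s M * ell s M) * ell s M := by ring
    _ ≤ (2 ^ (M + M) * ell s (M + M)) * ell s M := Nat.mul_le_mul_right _ h1
    _ = 2 ^ (M + M) * (ell s (M + M) * ell s M) := by ring
    _ ≤ 2 ^ (M + M) * (2 ^ (M + M + M) * ell s (M + M + M)) := Nat.mul_le_mul_left _ h2
    _ = 2 ^ (5 * M) * ell s (M + M + M) := by
        rw [← mul_assoc, ← pow_add]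
        congr 2
        ring
    _ ≤ _ := Nat.mul_le_mul_left _ (ell_mono _ (by omega))

theorem region_two (s M : ℕ) (hs : 2 ≤ s) (hM : 1 ≤ M) (hMs : M ≤ s) :
    ∀ d, 2 ^ 162 * M ≤ d → ∀ (k : ℕ) (m : Fin k → ℕ), (∀ i, m i ≤ M) →
    Pool.Agent.H18.Fat.ForGeneralPoints (s + 1) k fun p =>
      Pool.Agent.H18.Fat.ImposesMaximalConditions (s + 1) d p m := by
  have hs1 : 1 ≤ s := by omega
  have hc := cube_le s M hM
  have hM2 : M ≤ 2 ^ M := Nat.lt_two_pow_self.le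
  have hconst : ∀ a : ℕ, 2 ^ a ≤ 2 ^ (a * M) := fun a =>
    Nat.pow_le_pow_right (by omega) (Nat.le_mul_of_pos_right _ hM)
  have hpow : ∀ j : ℕ, M ^ j ≤ 2 ^ (j * M) := fun j => by
    calc M ^ j ≤ (2 ^ M) ^ j := Nat.pow_le_pow_left hM2 j
      _ = _ := by rw [← pow_mul, mul_comm]
  refine crit (s := s) (M := M) (D0 := 2 ^ 28 * M) (d0 := 2 ^ 162 * M) hs1 hM
    (Nat.mul_le_mul_right _ (by norm_num)) (by omega) ?_ ?_ ?_
  · calc 16 * M ^ 4 * ell s M ^ 3 ≤ 2 ^ (4 * M) * 2 ^ (4 * M) * (2 ^ (5 * M) * ell s (4 * M)) :=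
          Nat.mul_le_mul (Nat.mul_le_mul (hconst 4) (hpow 4)) hc
      _ = 2 ^ (13 * M) * ell s (4 * M) := by
          rw [← mul_assoc, ← pow_add, ← pow_add]
          congr 2
          ring
      _ ≤ ell s (4 ^ 13 * 4 * M) := iter_quad s M 4 hM hMs 13
      _ = _ := by norm_num
  · have e1 : (2 : ℕ) ^ 162 ≤ ell s (2 ^ 82) := by
      have h1 := sq_le_ell s (2 ^ 82) hs
      have h2 : ((2 : ℕ) ^ 82) ^ 2 = 2 * 2 ^ 163 := by norm_num
      rw [h2] at h1
      have h3 : (2 : ℕ) ^ 162 ≤ 2 ^ 163 := by norm_num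
      omega
    calc 16 * M ^ 2 * (2 ^ 162 * M) * ell s M ^ 3 =
        2 ^ 162 * (2 ^ 4 * M ^ 3 * ell s M ^ 3) := by ring
      _ ≤ ell s (2 ^ 82) * (2 ^ (4 * M) * 2 ^ (3 * M) * (2 ^ (5 * M) * ell s (4 * M))) :=
          Nat.mul_le_mul e1 (Nat.mul_le_mul (Nat.mul_le_mul (hconst 4) (hpow 3)) hc)
      _ = ell s (2 ^ 82) * (2 ^ (12 * M) * ell s (4 * M)) := by
          congr 1
          rw [← mul_assoc, ← pow_add, ← pow_add]
          congr 2
          ring
      _ ≤ ell s (2 ^ 82) * ell s (4 ^ 12 * 4 * M) :=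
          Nat.mul_le_mul_left _ (iter_quad s M 4 hM hMs 12)
      _ ≤ ell s (2 ^ 82 * (4 ^ 12 * 4 * M)) :=
          ell_mul_le s _ _ (by norm_num) (Nat.mul_pos (by norm_num) hM) hs1
      _ ≤ _ := by
          refine ell_mono s ?_
          have h1 : 2 ^ 82 * (4 ^ 12 * 4 * M) = 2 ^ 108 * M := by ring
          rw [h1]
          omega
  · have e1 : ell s M * ell s (2 ^ 28 * M) ≤ 2 ^ (31 * M) * ell s (2 ^ 29 * M) := by
      obtain ⟨a, rfl⟩ : ∃ a, M = a + 1 := ⟨M - 1, by omega⟩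
      obtain ⟨b, hb⟩ : ∃ b, 2 ^ 28 * (a + 1) = b + 1 := ⟨2 ^ 28 * (a + 1) - 1, by omega⟩
      have h1 := ell_mul_ell_le s a b
      have h2 : (a + b).choose a ≤ (8 * 2 ^ 28) ^ (a + 1) := by
        calc (a + b).choose a ≤ (a + b + 1).choose (a + 1) := by
              rw [Nat.choose_succ_succ]
              exact Nat.le_add_right _ _
          _ ≤ ell (a + 1) (2 ^ 28 * (a + 1)) := by
              unfold ell
              exact Nat.choose_le_choose _ (by omega)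
          _ ≤ _ := ell_mul_le_pow (a + 1) (2 ^ 28) (by norm_num)
      rw [hb]
      refine le_trans h1 (Nat.mul_le_mul ?_ (ell_mono s (by omega)))
      refine le_trans h2 (le_of_eq ?_)
      rw [show (8 * 2 ^ 28 : ℕ) = 2 ^ 31 by norm_num, ← pow_mul]
    calc 8 * M ^ 2 * (2 ^ 28 * M) * (ell s M * ell s (2 ^ 28 * M)) =
        2 ^ 31 * M ^ 3 * (ell s M * ell s (2 ^ 28 * M)) := by ring
      _ ≤ 2 ^ (31 * M) * 2 ^ (3 * M) * (2 ^ (31 * M) * ell s (2 ^ 29 * M)) :=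
          Nat.mul_le_mul (Nat.mul_le_mul (hconst 31) (hpow 3)) e1
      _ = 2 ^ (65 * M) * ell s (2 ^ 29 * M) := by
          rw [← mul_assoc, ← pow_add, ← pow_add]
          congr 2
          ring
      _ ≤ ell s (4 ^ 65 * 2 ^ 29 * M) := iter_quad s M (2 ^ 29) hM hMs 65
      _ ≤ _ := by
          refine ell_mono s ?_
          have h1 : 4 ^ 65 * 2 ^ 29 * M = 2 ^ 159 * M := by ring
          rw [h1]
          omega

end Pool.Agent.H21.NX

end
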