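import Pool.Agent.H94.LP7.M115
import Pool.Agent.H94.LP7.M123

/-! The parts of this file: H18.Ex.Sched, H18.Ex.Main. -/

section

/-!
# Module Sched: existence of the schedule
-/

namespace Pool.Agent.H18.Ex

open Finset

/-- The active directions different from `o`. -/
noncomputable def dirs {ι : Type} [Fintype ι] [DecidableEq ι] (o : ι) (w : ι → ℕ) : List ι :=
  (univ.filter fun i => 0 < w i ∧ i ≠ o).toList

section

variable {ι : Type} [Fintype ι] [DecidableEq ι]

private theorem SchedX_mem_dirs {o : ι} {w : ι → ℕ} {i : ι} :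
    i ∈ dirs o w ↔ 0 < w i ∧ i ≠ o := by
  unfold dirs
  rw [mem_toList, mem_filter]
  simp

private theorem SchedX_nodup (o : ι) (w : ι → ℕ) : (dirs o w).Nodup := by
  unfold dirs
  exact nodup_toList _

omit [Fintype ι] in
private theorem SchedX_count_flat (l : List ι) (hl : l.Nodup) (k : ι → ℕ) (i : ι) :
    (l.flatMap fun x => List.replicate (k x) x).count i = if i ∈ l then k i else 0 := by
  induction l with
  | nil => simp
  | cons a l ih =>
    rw [List.flatMap_cons, List.count_append, ih (List.nodup_cons.1 hl).2, List.count_replicate]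
    by_cases h : a = i
    · subst h
      simp [(List.nodup_cons.1 hl).1]
    · have h' : i ≠ a := fun e => h e.symm
      simp [h, h']

private theorem SchedX_length (L : List ι) : L.length = ∑ i, L.count i := by
  have h := Multiset.sum_count_eq_card (s := (univ : Finset ι)) (m := (L : Multiset ι))
    (fun a _ => mem_univ a)
  simpa using h.symm

/-- Admissible states. -/
private structure SchedX_St (b : ℕ) (o : ι) (w : ι → ℕ) (s : ℕ) (v : ι → ℕ) : Prop where
  act : ∀ i, 0 < v i ↔ 0 < w i
  hvo : ∀ i, v i ≤ v o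
  hvb : ∀ i, 0 < w i → 2 * b ≤ v i
  hsb : 2 * b ≤ s
  hτ : ∀ l, l ≠ o → 0 < w l → s + b ≤ ∑ i ∈ univ.erase l, v i

/-- The bounds of the traces. -/
private structure SchedX_Ph (M : ℕ) (o : ι) (w : ι → ℕ) (s : ℕ) (v : ι → ℕ) (φ : ι → ℕ) :
    Prop where
  h1 : ∀ i, i ≠ o → 0 < w i → 2 * M * φ i ≤ (2 * M - 1) * fc s v i
  h2 : ∀ i, i = o ∨ w i = 0 → φ i = 0

/-- `round_good` for an admissible state. -/
private theorem SchedX_round {n M D' q b : ℕ} (hn : 1 ≤ n) (hM : 1 ≤ M)
    (hq : 32 * M * (n + 1) ^ 3 ≤ q)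
    (hb1 : D' ≤ b) (hb2 : 2 * (n + 1) ^ 2 * (M * (n + 1) + 2 * ell (n + 1) M + 2) ≤ b)
    (hb3 : 16 * M ^ 2 * ell n M ^ 2 ≤ b) {o : ι} {w : ι → ℕ}
    (hcard : (univ.filter fun i => 0 < w i).card = n + 2) (ho : 0 < w o)
    {s : ℕ} {v : ι → ℕ} (hst : SchedX_St b o w s v) {φ : ι → ℕ} (hφ : SchedX_Ph M o w s v φ)
    (k : ι → ℕ) (hk : ∀ i, q * k i ≤ v i) (hkσ : ∀ i, q * k i ≤ s) (hko : k o = 0)
    (L : List ι) (hL : ∀ i, L.count i ≤ k i) :
    Good n M (Fat n D') L s v φ ∧
    (∀ i, i ≠ o → 0 < w i → 1 ≤ L.count i →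
      4 * M * eph n M L s v φ i ≤ (4 * M - 3) * fc (s - L.length) (ew L v) i) ∧
    (∀ i, L.count i = 0 → eph n M L s v φ i = φ i) ∧
    (∀ i, i ≠ o → 0 < w i →
      (8 * M - 1) * fc s v i ≤ 8 * M * fc (s - L.length) (ew L v) i) := by
  have hcard' : (univ.filter fun i => 0 < v i).card = n + 2 := by
    rw [← hcard]
    congr 1
    ext i
    simp only [mem_filter, mem_univ, true_and]
    exact hst.act i
  have h := round_good n M D' q b hn hM hq hb1 hb2 hb3 o s v k hcard' ((hst.act o).2 ho) hst.hvo
    hk hkσ hko (fun i hi => hst.hvb i ((hst.act i).1 hi)) hst.hsb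
    (fun l hl hvl => hst.hτ l hl ((hst.act l).1 hvl)) φ
    (fun i hi hvi => hφ.h1 i hi ((hst.act i).1 hvi))
    (fun i hi => hφ.h2 i (hi.imp id (fun h0 => by
      by_contra hne
      have := (hst.act i).2 (Nat.pos_of_ne_zero hne)
      omega))) L hL
  refine ⟨h.1, fun i hi hwi hc => h.2.1 i hi ((hst.act i).2 hwi) hc, h.2.2.1,
    fun i hi hwi => h.2.2.2 i hi ((hst.act i).2 hwi)⟩

omit [Fintype ι] in
private theorem SchedX_rk_le (q : ℕ) (o : ι) (s : ℕ) (v : ι → ℕ) (i : ι) :
    q * rk q o s v i ≤ v i ∧ q * rk q o s v i ≤ s ∧ rk q o s v i ≤ v i := by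
  unfold rk
  split_ifs with h
  · simp
  · have h1 : q * (min (v i) s / q) ≤ min (v i) s := Nat.mul_div_le _ _
    have h2 : min (v i) s / q ≤ min (v i) s := Nat.div_le_self _ _
    exact ⟨h1.trans (min_le_left _ _), h1.trans (min_le_right _ _), h2.trans (min_le_left _ _)⟩

private theorem SchedX_rounds (n M D' q b B : ℕ) (hn : 1 ≤ n) (hM : 1 ≤ M)
    (hq : 32 * M * (n + 1) ^ 3 ≤ q) (hqB : q ≤ B) (hB : 1 ≤ B) (hq0 : 0 < q)
    (hbB : 2 * b ≤ B) (hb1 : D' ≤ b)
    (hb2 : 2 * (n + 1) ^ 2 * (M * (n + 1) + 2 * ell (n + 1) M + 2) ≤ b)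
    (hb3 : 16 * M ^ 2 * ell n M ^ 2 ≤ b) (o : ι) (w : ι → ℕ)
    (hcard : (univ.filter fun i => 0 < w i).card = n + 2) (ho : 0 < w o)
    (hwo : ∀ i, w i ≤ w o) (s : ℕ) (w' : ι → ℕ) (hw' : ∀ i, w' i ≤ w i) (hw'o : w' o = w o)
    (hτ : ∀ l, l ≠ o → 0 < w l → s + b ≤ ∑ i ∈ univ.erase l, w' i) (φ : ι → ℕ)
    (hφ : SchedX_Ph M o w s w' φ) (T : ℕ)
    (hT : ∀ t ≤ T, B ≤ ((rnd q o)^[t] (s, w')).1 ∧
      ∀ i, 0 < w i → B ≤ ((rnd q o)^[t] (s, w')).2 i) :
    ∀ t ≤ T, ∃ L : List ι, (∀ i ∈ L, i ∈ dirs o w) ∧ Good n M (Fat n D') L s w' φ ∧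
      s - L.length = ((rnd q o)^[t] (s, w')).1 ∧ ew L w' = ((rnd q o)^[t] (s, w')).2 ∧
      SchedX_Ph M o w ((rnd q o)^[t] (s, w')).1 ((rnd q o)^[t] (s, w')).2
        (eph n M L s w' φ) ∧
      SchedX_St b o w ((rnd q o)^[t] (s, w')).1 ((rnd q o)^[t] (s, w')).2 := by
  intro t
  induction t with
  | zero =>
    intro ht
    have h0 := hT 0 ht
    simp only [Function.iterate_zero, id_eq] at h0 ⊢
    refine ⟨[], by simp, trivial, by simp, ?_, hφ, ?_, ?_, ?_, ?_, hτ⟩
    · funext i
      simp [ew]
    · intro i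
      constructor
      · intro h
        exact h.trans_le (hw' i)
      · intro h
        have := h0.2 i h
        omega
    · intro i
      rw [hw'o]
      exact (hw' i).trans (hwo i)
    · intro i hi
      exact hbB.trans (h0.2 i hi)
    · exact hbB.trans h0.1
  | succ t ih =>
    intro ht
    obtain ⟨L, hLd, hLg, hLl, hLe, hph, hst⟩ := ih (by omega)
    have ht1 := hT (t + 1) ht
    have ht0 := hT t (by omega)
    rw [Function.iterate_succ_apply'] at ht1 ⊢
    set p := (rnd q o)^[t] (s, w') with hp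
    set k := rk q o p.1 p.2 with hk
    have hkp : ∀ i, q * k i ≤ p.2 i ∧ q * k i ≤ p.1 ∧ k i ≤ p.2 i := fun i =>
      SchedX_rk_le q o p.1 p.2 i
    have hko : k o = 0 := by
      rw [hk]
      unfold rk
      rw [if_pos rfl]
    have hr1 : (rnd q o p).1 = p.1 - ∑ i, k i := rfl
    have hr2 : (rnd q o p).2 = fun i => p.2 i - k i := rfl
    set R : List ι := (dirs o w).flatMap fun x => List.replicate (k x) x with hR
    have hRc : ∀ i, R.count i = k i := by
      intro i
      rw [hR, SchedX_count_flat _ (SchedX_nodup o w)]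
      split_ifs with h
      · rfl
      · rw [SchedX_mem_dirs] at h
        by_cases hio : i = o
        · rw [hio, hko]
        · have h3 : w i = 0 := by
            by_contra hne
            exact h ⟨Nat.pos_of_ne_zero hne, hio⟩
          have h4 : p.2 i = 0 := by
            by_contra hne
            have := (hst.act i).1 (Nat.pos_of_ne_zero hne)
            omega
          have h5 := (hkp i).2.2
          omega
    have hRd : ∀ i ∈ R, i ∈ dirs o w := by
      intro i hi
      rw [hR, List.mem_flatMap] at hi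
      obtain ⟨x, hx, hix⟩ := hi
      rw [List.mem_replicate] at hix
      rw [hix.2]
      exact hx
    have hRl : R.length = ∑ i, k i := by
      rw [SchedX_length]
      exact sum_congr rfl fun i _ => hRc i
    have hrd := SchedX_round hn hM hq hb1 hb2 hb3 hcard ho hst hph k (fun i => (hkp i).1)
      (fun i => (hkp i).2.1) hko R (fun i => (hRc i).le)
    have hew : ew R p.2 = (rnd q o p).2 := by
      rw [hr2]
      funext i
      unfold ew
      rw [hRc]
    have hsl : p.1 - R.length = (rnd q o p).1 := by rw [hr1, hRl]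
    refine ⟨L ++ R, ?_, ?_, ?_, ?_, ?_, ?_⟩
    · intro i hi
      rcases List.mem_append.1 hi with h | h
      · exact hLd i h
      · exact hRd i h
    · rw [Good.append]
      refine ⟨hLg, ?_⟩
      rw [hLl, hLe]
      exact hrd.1
    · rw [List.length_append, ← Nat.sub_sub, hLl, hsl]
    · rw [ew_append, hLe, hew]
    · rw [eph_append, hLl, hLe]
      constructor
      · intro i hio hwi
        have hk1 : 1 ≤ k i := by
          rw [hk]
          unfold rk
          rw [if_neg hio]
          rw [Nat.le_div_iff_mul_le hq0, one_mul]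
          exact le_min (hqB.trans (ht0.2 i hwi)) (hqB.trans ht0.1)
        have h1 := hrd.2.1 i hio hwi (by rw [hRc]; exact hk1)
        rw [hsl, hew] at h1
        have h2 : (4 * M - 3) * fc (rnd q o p).1 (rnd q o p).2 i ≤
            2 * ((2 * M - 1) * fc (rnd q o p).1 (rnd q o p).2 i) := by
          rw [← mul_assoc]
          apply Nat.mul_le_mul_right
          omega
        have h3 : 2 * (2 * M * eph n M R p.1 p.2 (eph n M L s w' φ) i) =
            4 * M * eph n M R p.1 p.2 (eph n M L s w' φ) i := by ring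
        omega
      · intro i hi
        have hki : R.count i = 0 := by
          rw [hRc]
          rcases hi with hi | hi
          · rw [hi, hko]
          · have h4 : p.2 i = 0 := by
              by_contra hne
              have := (hst.act i).1 (Nat.pos_of_ne_zero hne)
              omega
            have h5 := (hkp i).2.2
            omega
        rw [hrd.2.2.1 i hki]
        exact hph.h2 i hi
    · have hpos : ∑ i, k i ≤ p.1 := by
        have h1 := ht1.1
        rw [hr1] at h1
        omega
      refine ⟨?_, ?_, ?_, ?_, ?_⟩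
      · intro i
        constructor
        · intro h
          rw [hr2] at h
          apply (hst.act i).1
          simp only at h
          omega
        · intro h
          have := ht1.2 i h
          omega
      · intro i
        rw [hr2]
        simp only
        rw [hko]
        have := hst.hvo i
        omega
      · intro i hi
        exact hbB.trans (ht1.2 i hi)
      · exact hbB.trans ht1.1
      · intro l hl hwl
        have h1 := hst.hτ l hl hwl
        rw [hr1, hr2]
        simp only
        have h2 : ∑ i ∈ univ.erase l, (p.2 i - k i) + ∑ i ∈ univ.erase l, k i =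
            ∑ i ∈ univ.erase l, p.2 i := by
          rw [← sum_add_distrib]
          apply sum_congr rfl
          intro i _
          have := (hkp i).2.2
          omega
        have h3 : ∑ i ∈ univ.erase l, k i ≤ ∑ i, k i :=
          sum_le_sum_of_subset (subset_univ _)
        omega

end

/-- `32 M (n+1)³`. -/
def cq (n M : ℕ) : ℕ := 32 * M * (n + 1) ^ 3

/-- Minimal width along the way. -/
def cb (n M D' C : ℕ) : ℕ := D' + 2 * (n + 1) ^ 2 * (M * (n + 1) + 2 * ell (n + 1) M + 2) +
    16 * M ^ 2 * ell n M ^ 2 + C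

/-- Minimal width at the ends of the rounds. -/
def cB (n M D' C : ℕ) : ℕ := 2 * cb n M D' C + cq n M * (M + 1) + 1

/-- The required width of the schedule. -/
def cD (n M D' C : ℕ) : ℕ :=
  cD0 n M (cq n M) C (cB n M D' C) + 2 * cB n M D' C + 2 * M + 2

/-- The schedule.

`q = 32 M (n+1)³`, `b = D' + 2 (n+1)² (M (n+1) + 2 ell (n+1) M + 2) + 16 M² (ell n M)² + C`,
`B = 2 b + 2 q (M + 1) + ...`, `D` from `rounds_exist` and `D ≥ 2 B + 2 M + ...`.
For `Nrm (n+1) D o σ w` and active `l ≠ o`:
`2 (∑_{i ≠ l} w i - σ) ≥ (w o - w l) + ∑_{i ≠ o, l} w i ≥ n D ≥ D`, which gives `hτ` of `round_good` with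
`b ≤ D / 2` (and the difference does not decrease along the way).
(a) `C ≤ fc σ w ls`: `card_ge` for the facet.
(b), (c): `round_good` at `(σ, w)` with `k = (M + 1)` at `ls`, `0` elsewhere, `φ = 0`.
(d): let `T` be given by `rounds_exist` for `σ' = σ - j`, `w' = update w ls (w ls - j)`.
`L` = the concatenation of the rounds `0, …, T - 1`, the `t`-th round being
`(dirs o w).flatMap fun i => replicate (rk … i) i`; by induction on the number of rounds,
using `Good.append`, `eph_append`, `ew_append` and `round_good` for each round: all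
`rk … i ≥ 1` for `i ∈ dirs o w`, so after every round `4 M eph i ≤ (4 M - 3) fc i`, which implies
`2 M eph i ≤ (2 M - 1) fc i`.  Finally `clean M (dirs o w)` is one more (short) round with
`k i = M + 1` (`q * (M + 1) ≤ B`). -/
theorem schedule (n M D' C : ℕ) (hn : 1 ≤ n) (hM : 1 ≤ M) (hC : 1 ≤ C) :
    ∀ (ι : Type) [Fintype ι] [DecidableEq ι] (o ls : ι) (σ : ℕ) (w : ι → ℕ),
      Nrm (n + 1) (cD n M D' C) o σ w → ls ≠ o → 0 < w ls →
      (∀ i, i ≠ o → 0 < w i → w ls ≤ w i) →
      C ≤ fc σ w ls ∧
      Good n M (Fat n D') (List.replicate (M + 1) ls) σ w (fun _ => 0) ∧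
      (∀ j, 1 ≤ j → j ≤ M + 1 → 4 * M * eph n M (List.replicate j ls) σ w (fun _ => 0) ls ≤
        (4 * M - 3) * fc (σ - j) (Function.update w ls (w ls - j)) ls) ∧
      (∀ j, j ≤ M + 1 → (8 * M - 1) * fc σ w ls ≤
        8 * M * fc (σ - j) (Function.update w ls (w ls - j)) ls) ∧
      (∀ j, j ≤ M → ∀ φ : ι → ℕ, (∀ i, i ≠ ls → φ i = 0) →
        2 * M * φ ls ≤ (2 * M - 1) * fc (σ - j) (Function.update w ls (w ls - j)) ls →
        ∃ L : List ι, (∀ i ∈ L, i ∈ dirs o w) ∧
          Good n M (Fat n D') (L ++ clean M (dirs o w)) (σ - j)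
            (Function.update w ls (w ls - j)) φ ∧
          C * (Rg (σ - j - L.length) (ew L (Function.update w ls (w ls - j)))).card ≤
            fc σ w ls ∧
          ∑ i, eph n M L (σ - j) (Function.update w ls (w ls - j)) φ i ≤
            (n + 1) * (Rg (σ - j - L.length) (ew L (Function.update w ls (w ls - j)))).card) := by
  set q : ℕ := 32 * M * (n + 1) ^ 3 with hqdef
  set b : ℕ := D' + 2 * (n + 1) ^ 2 * (M * (n + 1) + 2 * ell (n + 1) M + 2) +
    16 * M ^ 2 * ell n M ^ 2 + C with hbdef
  set B : ℕ := 2 * b + q * (M + 1) + 1 with hBdef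
  have hq0 : 0 < q := by positivity
  have hqN : 2 * (n + 1) ≤ q := by
    have h1 : 1 ≤ (n + 1) ^ 2 := Nat.one_le_pow _ _ (by omega)
    calc 2 * (n + 1) = 2 * (n + 1) * 1 := by ring
      _ ≤ 2 * (n + 1) * (16 * M * (n + 1) ^ 2) := by
        apply Nat.mul_le_mul_left
        nlinarith only [hM, h1]
      _ = q := by rw [hqdef]; ring
  have hb1 : D' ≤ b := by omega
  have hb2 : 2 * (n + 1) ^ 2 * (M * (n + 1) + 2 * ell (n + 1) M + 2) ≤ b := by omega
  have hb3 : 16 * M ^ 2 * ell n M ^ 2 ≤ b := by omega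
  have hbC : C ≤ b := by omega
  have hD₀ := rounds_exist n M q C B hn hqN hC
  intro ι _ _ o ls σ w hN hlso hls hthin
  have hcD : cD n M D' C = cD0 n M q C B + 2 * B + 2 * M + 2 := rfl
  rw [hcD] at hN
  set D₀ := cD0 n M q C B with hD₀def
  have hNrm0 : Nrm (n + 1) D₀ o σ w :=
    ⟨hN.hcard, hN.ho, hN.hwo, hN.hwσ, hN.hσ, fun i hi => by have := hN.hD i hi; omega⟩
  have hcard : (univ.filter fun i => 0 < w i).card = n + 2 := hN.hcard
  have hwoD := hN.hD o hN.ho
  have hσD := hwoD.trans (hN.hwσ o)
  have hlsD := hN.hD ls hls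
  have hqM : q * (M + 1) ≤ B := by omega
  have hthird : ∀ l, ∃ i, 0 < w i ∧ i ≠ o ∧ i ≠ l := by
    intro l
    by_contra hcon
    push Not at hcon
    have h3 : (univ.filter fun i => 0 < w i) ⊆ {o, l} := by
      intro i hi
      rw [mem_filter] at hi
      rw [mem_insert, mem_singleton]
      by_cases h : i = o
      · exact Or.inl h
      · exact Or.inr (hcon i hi.2 h)
    have h4 := card_le_card h3
    have h5 := card_le_two (a := o) (b := l)
    omega
  have hτ : ∀ l, l ≠ o → 0 < w l → σ + b ≤ ∑ i ∈ univ.erase l, w i := by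
    intro l hl hwl
    have h1 : w l + ∑ i ∈ univ.erase l, w i = ∑ i, w i := add_sum_erase _ _ (mem_univ l)
    have h2 := hN.hσ
    obtain ⟨i, hi, hio, hil⟩ := hthird l
    have h6 : w o + w i ≤ ∑ i ∈ univ.erase l, w i := by
      rw [← sum_pair (Ne.symm hio)]
      apply sum_le_sum_of_subset
      intro x hx
      rw [mem_insert, mem_singleton] at hx
      rw [mem_erase]
      refine ⟨?_, mem_univ _⟩
      rcases hx with hx | hx
      · rw [hx]
        exact hl.symm
      · rw [hx]
        exact hil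
    have h7 := hN.hD i hi
    have h8 := hN.hwo l
    omega
  have hst0 : SchedX_St b o w σ w :=
    ⟨fun _ => Iff.rfl, hN.hwo, fun i hi => by have := hN.hD i hi; omega, by omega, hτ⟩
  have hph0 : SchedX_Ph M o w σ w (fun _ => 0) :=
    ⟨fun i _ _ => by simp, fun i _ => rfl⟩
  have hrep : ∀ j, j ≤ M + 1 → _ := fun j hj =>
    SchedX_round (D' := D') (q := q) hn hM le_rfl hb1 hb2 hb3 hcard hN.ho hst0 hph0
      (fun i => if i = ls then M + 1 else 0)
      (fun i => by
        split_ifs with h
        · rw [h]; omega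
        · simp)
      (fun i => by
        split_ifs with h
        · omega
        · simp) (if_neg (Ne.symm hlso)) (List.replicate j ls)
      (fun i => by
        rw [List.count_replicate]
        by_cases h : i = ls
        · simp [h, hj]
        · have h' : ls ≠ i := fun e => h e.symm
          simp [h, h'])
  have hewr : ∀ j, ew (List.replicate j ls) w = Function.update w ls (w ls - j) := by
    intro j
    funext i
    unfold ew
    rw [List.count_replicate]
    by_cases h : i = ls
    · subst h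
      simp
    · have h' : ls ≠ i := fun e => h e.symm
      simp [h, h']
  refine ⟨?_, (hrep (M + 1) le_rfl).1, ?_, ?_, ?_⟩
  · obtain ⟨i, hi, hio, hil⟩ := hthird ls
    have h1 : Function.update w ls 0 o = w o := Function.update_of_ne hlso.symm _ _
    have h2 : Function.update w ls 0 i = w i := Function.update_of_ne hil _ _
    have h3 : ∑ x, Function.update w ls 0 x = ∑ x ∈ univ.erase ls, w x := by
      rw [← add_sum_erase univ _ (mem_univ ls), Function.update_self, zero_add]
      apply sum_congr rfl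
      intro x hx
      exact Function.update_of_ne (ne_of_mem_erase hx) _ _
    have h4 := card_ge σ (Function.update w ls 0) b o i hio.symm (by rw [h1]; omega)
      (by rw [h2]; have := hN.hD i hi; omega) (by omega)
      (by rw [h3]; exact hτ ls hlso hls)
    unfold fc
    omega
  · intro j hj1 hj2
    have h1 := (hrep j hj2).2.1 ls hlso hls (by
      rw [List.count_replicate_self]; exact hj1)
    rwa [List.length_replicate, hewr] at h1
  · intro j hj
    have h1 := (hrep j hj).2.2.2 ls hlso hls
    rwa [List.length_replicate, hewr] at h1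
  · intro j hj φ hφ0 hφ1
    set s := σ - j with hs
    set w' := Function.update w ls (w ls - j) with hw'
    have hw'le : ∀ i, w' i ≤ w i := by
      intro i
      rw [hw']
      by_cases h : i = ls
      · rw [h, Function.update_self]
        omega
      · rw [Function.update_of_ne h]
    have hw'ge : ∀ i, w i ≤ w' i + (if i = ls then j else 0) := by
      intro i
      rw [hw']
      by_cases h : i = ls
      · rw [h, Function.update_self, if_pos rfl]
        omega
      · rw [Function.update_of_ne h]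
        omega
    have hw'o : w' o = w o := Function.update_of_ne hlso.symm _ _
    have hτ' : ∀ l, l ≠ o → 0 < w l → s + b ≤ ∑ i ∈ univ.erase l, w' i := by
      intro l hl hwl
      have h1 := hτ l hl hwl
      have h2 : ∑ i ∈ univ.erase l, w i ≤ ∑ i ∈ univ.erase l, w' i + j := by
        calc ∑ i ∈ univ.erase l, w i
            ≤ ∑ i ∈ univ.erase l, (w' i + (if i = ls then j else 0)) :=
              sum_le_sum fun i _ => hw'ge i
          _ = ∑ i ∈ univ.erase l, w' i + ∑ i ∈ univ.erase l, (if i = ls then j else 0) :=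
              sum_add_distrib
          _ ≤ ∑ i ∈ univ.erase l, w' i + j := by
            apply Nat.add_le_add_left
            rw [sum_ite_eq']
            split_ifs <;> omega
      omega
    have hph' : SchedX_Ph M o w s w' φ := by
      constructor
      · intro i hio hwi
        by_cases h : i = ls
        · rw [h]
          exact hφ1
        · rw [hφ0 i h]
          simp
      · intro i hi
        apply hφ0
        rintro rfl
        rcases hi with hi | hi
        · exact hlso hi
        · omega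
    obtain ⟨T, hT1, hT2⟩ := hD₀ ι o ls σ w hNrm0 hlso hls hthin s w' (by omega) (by omega)
      (fun i => by
        have := hw'ge i
        split_ifs at this <;> omega) hw'le
    obtain ⟨L, hLd, hLg, hLl, hLe, hph, hst⟩ := SchedX_rounds n M D' q b B hn hM le_rfl
      (by nlinarith only [hBdef]) (by omega) hq0 (by omega) hb1 hb2 hb3 o w hcard hN.ho hN.hwo s w' hw'le
      hw'o hτ' φ hph' T hT2 T le_rfl
    have hpT := hT2 T le_rfl
    set p := (rnd q o)^[T] (s, w') with hp
    have hcl := SchedX_round (q := q) hn hM le_rfl hb1 hb2 hb3 hcard hN.ho hst hph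
      (fun i => if i ∈ dirs o w then M + 1 else 0)
      (fun i => by
        split_ifs with h
        · rw [SchedX_mem_dirs] at h
          exact hqM.trans (hpT.2 i h.1)
        · simp)
      (fun i => by
        split_ifs with h
        · exact hqM.trans hpT.1
        · simp)
      (if_neg (by rw [SchedX_mem_dirs]; simp)) (clean M (dirs o w))
      (fun i => (SchedX_count_flat (dirs o w) (SchedX_nodup o w) (fun _ => M + 1) i).le)
    refine ⟨L, hLd, ?_, ?_, ?_⟩
    · rw [Good.append]
      refine ⟨hLg, ?_⟩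
      rw [hLl, hLe]
      exact hcl.1
    · rw [hLl, hLe]
      exact hT1
    · rw [hLl, hLe]
      have h1 : ∑ i, eph n M L s w' φ i =
          ∑ i ∈ (univ.filter fun i => 0 < w i).erase o, eph n M L s w' φ i := by
        symm
        apply sum_subset (subset_univ _)
        intro i _ hi
        apply hph.h2
        rw [mem_erase, mem_filter] at hi
        by_cases h : i = o
        · exact Or.inl h
        · right
          by_contra hne
          exact hi ⟨h, mem_univ _, Nat.pos_of_ne_zero hne⟩
      have h2 : ((univ.filter fun i => 0 < w i).erase o).card = n + 1 := by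
        rw [card_erase_of_mem (by rw [mem_filter]; exact ⟨mem_univ _, hN.ho⟩), hcard]
        rfl
      rw [h1, ← h2]
      rw [← smul_eq_mul]
      apply sum_le_card_nsmul
      intro i hi
      rw [mem_erase, mem_filter] at hi
      have h3 := hph.h1 i hi.1 hi.2.2
      have h4 := fc_le p.1 p.2 i
      have h5 : 2 * M * eph n M L s w' φ i ≤ 2 * M * fc p.1 p.2 i :=
        h3.trans (Nat.mul_le_mul_right _ (by omega))
      exact (Nat.le_of_mul_le_mul_left h5 (by omega)).trans h4

end Pool.Agent.H18.Ex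

end

section

/-!
# Module Main: the induction step for normalised regions
-/

namespace Pool.Agent.H18.Ex

open Finset

/-- Prefix of a good list of equal directions. -/
theorem Good.replicate_le {ι : Type} [Fintype ι] [DecidableEq ι] {n M : ℕ}
    {X : ℕ → (ι → ℕ) → Prop} {l : ι} {a b : ℕ} (hab : a ≤ b) {σ : ℕ} {w φ : ι → ℕ}
    (h : Good n M X (List.replicate b l) σ w φ) : Good n M X (List.replicate a l) σ w φ := by
  obtain ⟨c, rfl⟩ := Nat.exists_eq_add_of_le hab
  rw [List.replicate_add, Good.append] at h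
  exact h.1

theorem ew_replicate {ι : Type} [DecidableEq ι] (j : ℕ) (l : ι) (w : ι → ℕ) :
    ew (List.replicate j l) w = Function.update w l (w l - j) := by
  funext i
  unfold ew
  rw [List.count_replicate]
  by_cases h : l = i
  · subst h
    simp
  · rw [if_neg (by simpa using h), Function.update_of_ne (Ne.symm h)]
    rfl

section

variable {ι : Type} [Fintype ι] [DecidableEq ι]

/-- The region after `j` peels in direction `l`. -/
def RR (σ : ℕ) (w : ι → ℕ) (l : ι) (j : ℕ) : Finset (ι → ℕ) :=
  Rg (σ - j) (Function.update w l (w l - j))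

/-- Its facet in direction `l`. -/
def ff (σ : ℕ) (w : ι → ℕ) (l : ι) (j : ℕ) : ℕ :=
  fc (σ - j) (Function.update w l (w l - j)) l

theorem RR_zero (σ : ℕ) (w : ι → ℕ) (l : ι) : RR σ w l 0 = Rg σ w := by
  unfold RR
  rw [Nat.sub_zero, Nat.sub_zero, Function.update_eq_self]

theorem update_step (w : ι → ℕ) (l : ι) (j : ℕ) :
    Function.update (Function.update w l (w l - j)) l
      (Function.update w l (w l - j) l - 1) = Function.update w l (w l - (j + 1)) := by
  rw [Function.update_idem, Function.update_self, Nat.sub_sub]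

end

/-- The constant of the induction step. -/
def cC (n M : ℕ) : ℕ :=
  2 * (1 + ell (n + 1) M * M) * (ell (n + 1) M + 1) + 2 * ell n M * (ell (n + 1) M + 1) +
    2 * M * (ell (n + 1) M + M * (n + 1)) + 1

/-- The induction step for normalised regions. -/
theorem exa_nrm (n M : ℕ) (hn : 1 ≤ n) (hM : 1 ≤ M) (D' : ℕ)
    (IH : ∀ (ι : Type) [Fintype ι] [DecidableEq ι] (σ : ℕ) (w : ι → ℕ),
      Fat n D' σ w → Exa n M (Rg σ w)) :
    ∀ (ι : Type) [Fintype ι] [DecidableEq ι] (o : ι) (σ : ℕ) (w : ι → ℕ),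
      Nrm (n + 1) (cD n M D' (cC n M)) o σ w → Exa (n + 1) M (Rg σ w) := by
  set L := ell (n + 1) M with hL
  set L' := ell n M with hL'
  have hcC : cC n M = 2 * (1 + L * M) * (L + 1) + 2 * L' * (L + 1) +
    2 * M * (L + M * (n + 1)) + 1 := rfl
  rw [hcC]
  set C := 2 * (1 + L * M) * (L + 1) + 2 * L' * (L + 1) + 2 * M * (L + M * (n + 1)) + 1 with hC
  have hD := schedule n M D' C hn hM (by omega)
  intro ι _ _ o σ w hN G hG hsum
  have hL1 : 1 ≤ L := ell_pos _ hM
  have hL'1 : 1 ≤ L' := ell_pos _ hM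
  -- the thinnest direction
  obtain ⟨ls, hls1, hls2, hls3⟩ : ∃ ls, ls ≠ o ∧ 0 < w ls ∧
      ∀ i, i ≠ o → 0 < w i → w ls ≤ w i := by
    have h1 : (univ.filter fun i => 0 < w i ∧ i ≠ o).Nonempty := by
      by_contra h
      rw [not_nonempty_iff_eq_empty] at h
      have h2 := hN.hcard
      have h3 : (univ.filter fun i => 0 < w i) ⊆ {o} := by
        intro i hi
        rw [mem_filter] at hi
        by_contra h4
        rw [mem_singleton] at h4
        have h5 : i ∈ univ.filter fun i => 0 < w i ∧ i ≠ o := by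
          rw [mem_filter]
          exact ⟨mem_univ _, hi.2, h4⟩
        rw [h] at h5
        exact absurd h5 (notMem_empty _)
      have h4 := card_le_card h3
      rw [card_singleton] at h4
      omega
    obtain ⟨ls, h2, h3⟩ := exists_min_image _ w h1
    rw [mem_filter] at h2
    refine ⟨ls, h2.2.2, h2.2.1, fun i hi hi' => h3 i ?_⟩
    rw [mem_filter]
    exact ⟨mem_univ _, hi', hi⟩
  obtain ⟨hF, hrep, hr1, hr2, hsch⟩ := hD ι o ls σ w hN hls1 hls2 hls3
  have hwls : w ls ≤ σ := hN.hwσ ls
  set F := fc σ w ls with hFdef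
  set s₀ := F / C + L + 1 with hs₀
  have hFP : F ≤ (Rg σ w).card := fc_le _ _ _
  have hIH : ∀ σ (w : ι → ℕ), Fat n D' σ w → Exa n M (Rg σ w) := fun σ w h => IH ι σ w h
  -- the list of directions
  have hrep' : Good n M (fun σ w => Exa n M (Rg σ w)) (List.replicate (M + 1) ls) σ w
      (fun _ => 0) := Good.mono hIH _ _ _ _ hrep
  have hr1' : ∀ j, 1 ≤ j → j ≤ M + 1 →
      4 * M * eph n M (List.replicate j ls) σ w (fun _ => 0) ls ≤ (4 * M - 3) * ff σ w ls j := hr1
  have hr2' : ∀ j, j ≤ M + 1 → (8 * M - 1) * F ≤ 8 * M * ff σ w ls j := hr2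
  -- ending (A)
  have endA : ∀ j ≤ M, ∀ (x : ℕ) (c : Cfg ι), c.OK M → (∀ i, i ≠ ls → c.Φ i = 0) →
      c.tr n ls ≤ x → 2 * M * x ≤ (2 * M - 1) * ff σ w ls j → (RR σ w ls j).card ≤ c.sz n →
      c.sz n ≤ (RR σ w ls j).card + L → s₀ ≤ c.s → GM (RR σ w ls j) c.kinds := by
    intro j hj x c hc hΦ hx hx2 hsz1 hsz2 hs
    obtain ⟨Ls, hLs1, hLs2, hLs3, hLs4⟩ := hsch j hj (Function.update (fun _ => 0) ls x)
      (fun i hi => by rw [Function.update_of_ne hi]) (by
        rw [Function.update_self]
        exact hx2)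
    refine ending_A n M hn hM (dirs o w) Ls ?_ (nodup_toList _) hLs1 _ _
      (Function.update (fun _ => 0) ls x) (Good.mono hIH _ _ _ _ hLs2) c hc ?_ hsz1 ?_ ?_
    · intro h0
      have h1 : ls ∈ dirs o w := by
        unfold dirs
        rw [mem_toList, mem_filter]
        exact ⟨mem_univ _, hls2, hls1⟩
      rw [h0] at h1
      exact absurd h1 List.not_mem_nil
    · intro l
      by_cases h : l = ls
      · subst h
        rw [Function.update_self]
        exact hx
      · rw [Function.update_of_ne h]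
        unfold Cfg.tr
        rw [hΦ l h]
        simp
    · intro l hl
      refine hΦ l ?_
      rintro rfl
      apply hl
      unfold dirs
      rw [mem_toList, mem_filter]
      exact ⟨mem_univ _, hls2, hls1⟩
    · have h1 : (Rg (σ - j - Ls.length) (ew Ls (Function.update w ls (w ls - j)))).card ≤
          F / C := by
        rw [Nat.le_div_iff_mul_le (by omega), mul_comm]
        exact hLs3
      change c.sz n + _ < c.s + (RR σ w ls j).card
      omega
  -- ending (B)
  have endB : ∀ j ≤ M, ∀ (x : ℕ) (c : Cfg ι), c.OK M → (∀ i, i ≠ ls → c.Φ i = 0) →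
      c.tr n ls ≤ x → 2 * M * x ≤ (2 * M - 1) * ff σ w ls j →
      2 * M * ((RR σ w ls j).card) + F ≤ 2 * M * c.sz n → GM (RR σ w ls j) c.kinds := by
    intro j hj x c hc hΦ hx hx2 hsz
    obtain ⟨Ls, hLs1, hLs2, hLs3, hLs4⟩ := hsch j hj (Function.update (fun _ => 0) ls x)
      (fun i hi => by rw [Function.update_of_ne hi]) (by
        rw [Function.update_self]
        exact hx2)
    rw [Good.append] at hLs2
    have h2M : 0 < 2 * M := by omega
    set e := (Rg (σ - j - Ls.length) (ew Ls (Function.update w ls (w ls - j)))).card with he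
    refine ending_B n M hn hM Ls _ _ (Function.update (fun _ => 0) ls x)
      (Good.mono hIH _ _ _ _ hLs2.1) c hc ?_ ?_ ?_
    · intro l
      by_cases h : l = ls
      · subst h
        rw [Function.update_self]
        exact hx
      · rw [Function.update_of_ne h]
        unfold Cfg.tr
        rw [hΦ l h]
        simp
    · change L * e + M * _ + (RR σ w ls j).card ≤ c.sz n + e
      have h1 : 2 * M * (L + M * (n + 1)) * e ≤ F := by
        refine le_trans (Nat.mul_le_mul_right e ?_) hLs3
        omega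
      have h2 : M * ∑ i, eph n M Ls (σ - j) (Function.update w ls (w ls - j))
          (Function.update (fun _ => 0) ls x) i ≤ M * ((n + 1) * e) :=
        Nat.mul_le_mul_left M hLs4
      have h3 : 2 * M * (L * e + M * ((n + 1) * e) + (RR σ w ls j).card) ≤
          2 * M * c.sz n := by
        calc 2 * M * (L * e + M * ((n + 1) * e) + (RR σ w ls j).card) =
            2 * M * (L + M * (n + 1)) * e + 2 * M * (RR σ w ls j).card := by ring
          _ ≤ F + 2 * M * (RR σ w ls j).card := Nat.add_le_add_right h1 _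
          _ ≤ 2 * M * c.sz n := by omega
      have h4 := Nat.le_of_mul_le_mul_left h3 h2M
      omega
    · change (RR σ w ls j).card ≤ c.sz n
      have h3 : 2 * M * (RR σ w ls j).card ≤ 2 * M * c.sz n := by omega
      exact Nat.le_of_mul_le_mul_left h3 h2M
  -- drop superfluous points
  obtain ⟨G₁, hG₁, hs1, hs2, hG₁pos⟩ := exists_drop (ell (n + 1)) L (Rg σ w).card G
    (fun m hm => ell_mono _ (hG m hm)) hsum
  have hG1 : ∀ m ∈ G₁, 1 ≤ m := by
    intro m hm
    by_contra h
    have h0 : m = 0 := by omega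
    have := hG₁pos m hm
    rw [h0, ell_zero (by omega)] at this
    omega
  have hGM : ∀ m ∈ G₁, m ≤ M := fun m hm => hG m (Multiset.mem_of_le hG₁ hm)
  refine GM.mono (Multiset.map_le_map hG₁) ?_
  rw [← cfg0_kinds (ι := ι) G₁ hG1]
  set c := cfg0 ι G₁ with hcdef
  have hcOK : c.OK M := cfg0_OK M G₁ hGM
  obtain ⟨hcsz, hcnsz⟩ := cfg0_sz (ι := ι) n G₁ hG1
  rw [← hcdef] at hcsz hcnsz
  rw [← hcsz] at hs1 hs2
  have hcsz' : c.nsz n = c.sz n := by rw [hcsz, hcnsz]
  have hcΦ : ∀ i, c.Φ i = 0 := fun i => rfl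
  have htr0 : ∀ i, c.tr n i = 0 := fun i => by
    unfold Cfg.tr
    rw [hcΦ]
    simp
  by_cases hbig : s₀ ≤ c.s
  · have := endA 0 (by omega) 0 c hcOK (fun i _ => hcΦ i) (by rw [htr0]) (by simp)
      (by rw [RR_zero]; exact hs1) (by rw [RR_zero]; exact hs2) hbig
    rwa [RR_zero] at this
  push Not at hbig
  -- many points of the same multiplicity
  have hdiv : F / C * C ≤ F := Nat.div_mul_le_self F C
  have hb1 : (1 + L * M) * s₀ ≤ F := by
    have h1 : 2 * ((1 + L * M) * (F / C)) ≤ F := by
      refine le_trans ?_ hdiv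
      calc 2 * ((1 + L * M) * (F / C)) = (F / C) * (2 * (1 + L * M) * 1) := by ring
        _ ≤ (F / C) * C := by
          apply Nat.mul_le_mul_left
          have : 2 * (1 + L * M) * 1 ≤ 2 * (1 + L * M) * (L + 1) :=
            Nat.mul_le_mul_left _ (by omega)
          omega
    have h2 : 2 * ((1 + L * M) * (L + 1)) ≤ F := by
      refine le_trans ?_ hF
      have : 2 * ((1 + L * M) * (L + 1)) = 2 * (1 + L * M) * (L + 1) := by ring
      omega
    have h3 : (1 + L * M) * s₀ = (1 + L * M) * (F / C) + (1 + L * M) * (L + 1) := by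
      rw [hs₀]; ring
    omega
  have hb2 : s₀ * L' ≤ F := by
    have h1 : 2 * (L' * (F / C)) ≤ F := by
      refine le_trans ?_ hdiv
      calc 2 * (L' * (F / C)) = (F / C) * (2 * L' * 1) := by ring
        _ ≤ (F / C) * C := by
          apply Nat.mul_le_mul_left
          have : 2 * L' * 1 ≤ 2 * L' * (L + 1) := Nat.mul_le_mul_left _ (by omega)
          omega
    have h2 : 2 * (L' * (L + 1)) ≤ F := by
      refine le_trans ?_ hF
      have : 2 * (L' * (L + 1)) = 2 * L' * (L + 1) := by ring
      omega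
    have h3 : s₀ * L' = L' * (F / C) + L' * (L + 1) := by
      rw [hs₀]; ring
    omega
  have hcard : M * s₀ ≤ c.N.card := by
    have h1 : (c.N.map (ell (n + 1))).sum ≤ L * c.N.card := by
      have := Multiset.sum_le_card_nsmul (c.N.map (ell (n + 1))) L (by
        intro x hx
        obtain ⟨m, hm, rfl⟩ := Multiset.mem_map.1 hx
        exact ell_mono _ (hcOK.hN m hm).2)
      rw [Multiset.card_map, smul_eq_mul, mul_comm] at this
      exact this
    have h2 : c.sz n = (c.N.map (ell (n + 1))).sum + c.s := by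
      rw [← hcsz']; rfl
    have h3 : L * (M * s₀) ≤ L * c.N.card := by
      have h4 : (1 + L * M) * s₀ = s₀ + L * (M * s₀) := by ring
      have h5 : (Rg σ w).card ≤ (c.N.map (ell (n + 1))).sum + c.s := by
        rw [← h2]; exact hs1
      have h6 : s₀ + L * (M * s₀) ≤ (Rg σ w).card := by
        rw [← h4]; exact hb1.trans hFP
      clear_value L L' C F s₀ c
      omega
    exact Nat.le_of_mul_le_mul_left h3 (by omega)
  obtain ⟨μ, hμN, hμ⟩ := exists_replicate_le c.N M s₀ (fun m hm => by
    have := hcOK.hN m hm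
    omega) hcard hM (by omega)
  have hμ2 := hcOK.hN μ hμN
  -- the first step
  have hg1 := hrep'
  rw [List.replicate_succ] at hg1
  obtain ⟨hσ1, hw1, hE1, hφ1, hav1, hrest⟩ := hg1
  obtain ⟨c₁, hc₁OK, hc₁GM, hc₁Φ, hc₁tr, hc₁sz, -, -, -, -, hc₁I⟩ :=
    peel n M hn hM (Rg σ w) (Rg (σ - 1) (Function.update w ls (w ls - 1))) ls
      (Rg_resid σ w ls hσ1 hw1) F (by rw [Rg_layer]; rfl) (by rw [Rg_layer]; exact hE1) c hcOK
      (Multiset.replicate s₀ μ) hμ (by
        rw [htr0, Multiset.map_replicate, Multiset.sum_replicate, smul_eq_mul, zero_add]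
        exact (Nat.mul_le_mul_left _ (ell_mono _ hμ2.2)).trans hb2) (by
        rw [hcsz']
        simp only [sum_const_zero, mul_zero, zero_add] at hav1
        exact hav1.trans hs1)
  refine hc₁GM ?_
  have hc₁I' : Multiset.replicate s₀ (μ - 1, 1) ≤ c₁.Φ ls := by
    refine le_trans ?_ hc₁I
    rw [hcΦ, Multiset.map_replicate]
    simp [shf]
  have hcard1 := card_Rg_peel σ w ls hσ1 hw1
  -- the following steps
  obtain ⟨ν, hν⟩ : ∃ ν, μ = ν + 2 := ⟨μ - 2, by omega⟩
  have hnphi : c₁.tr n ls ≤ nphi n M F := by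
    unfold nphi
    have h1 : M * (c₁.tr n ls - L' ^ 2) ≤ (M - 1) * F := by
      rw [Nat.mul_sub]
      exact Nat.sub_le_iff_le_add.2 hc₁tr
    have h2 : c₁.tr n ls - L' ^ 2 ≤ (M - 1) * F / M := by
      rw [Nat.le_div_iff_mul_le (by omega), mul_comm]
      exact h1
    exact Nat.sub_le_iff_le_add.1 h2
  have hgν : Good n M (fun σ w => Exa n M (Rg σ w)) (List.replicate ν ls) (σ - 1)
      (Function.update w ls (w ls - 1)) (Function.update (fun _ => 0) ls (nphi n M F)) :=
    Good.replicate_le (by omega) hrest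
  obtain ⟨c₂, hc₂OK, hc₂GM, hc₂tr, hc₂sz, -, -, -, -, hc₂I, hc₂Φ⟩ :=
    run n M hn hM (List.replicate ν ls) (σ - 1) (Function.update w ls (w ls - 1))
      (Function.update (fun _ => 0) ls (nphi n M F)) hgν c₁ hc₁OK (by
        intro l
        by_cases h : l = ls
        · subst h
          rw [Function.update_self]
          exact hnphi
        · rw [Function.update_of_ne h]
          unfold Cfg.tr
          rw [hc₁Φ l h, hcΦ]
          simp) (by omega)
  have hRR : Rg (σ - 1 - (List.replicate ν ls).length)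
      (ew (List.replicate ν ls) (Function.update w ls (w ls - 1))) = RR σ w ls (ν + 1) := by
    unfold RR
    rw [ew_replicate, List.length_replicate, Nat.sub_sub, Function.update_idem,
      Function.update_self, Nat.sub_sub, add_comm 1 ν]
  rw [hRR] at hc₂GM hc₂sz
  refine hc₂GM ?_
  -- the trace
  have heph : eph n M (List.replicate ν ls) (σ - 1) (Function.update w ls (w ls - 1))
      (Function.update (fun _ => 0) ls (nphi n M F)) ls =
      eph n M (List.replicate (ν + 1) ls) σ w (fun _ => 0) ls := by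
    rw [List.replicate_succ]
    rfl
  have htr2 := hc₂tr ls
  rw [heph] at htr2
  have hr1a := hr1' (ν + 1) (by omega) (by omega)
  -- the forced simple points
  have hrepl : Multiset.replicate s₀ (1, 1) ≤ c₂.Φ ls := by
    refine le_trans ?_ (hc₂I ls)
    rw [List.count_replicate_self]
    have h1 : shf^[ν] (Multiset.replicate s₀ (μ - 1, 1)) ≤ shf^[ν] (c₁.Φ ls) := by
      have hmono : Monotone shf := fun X Y h =>
        Multiset.filter_le_filter _ (Multiset.map_le_map h)
      exact hmono.iterate ν hc₁I'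
    refine le_trans (le_of_eq ?_) h1
    have h2 : μ - 1 = ν + 1 := by omega
    rw [h2, shf_iterate_replicate _ _ _ le_rfl]
    simp
  have hc₂0 : ∀ i, i ≠ ls → c₂.Φ i = 0 := by
    intro i hi
    rw [hc₂Φ i, hc₁Φ i hi, hcΦ]
    rw [List.count_replicate]
    rw [if_neg (by simpa using (Ne.symm hi))]
  -- the next step exists
  have hgν1 : Good n M (fun σ w => Exa n M (Rg σ w)) (List.replicate (ν + 2) ls) σ w
      (fun _ => 0) := Good.replicate_le (by omega) hrep'
  rw [show ν + 2 = (ν + 1) + 1 from rfl, List.replicate_add, Good.append] at hgν1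
  obtain ⟨_, hσ2, hw2, hE2, hφ2, hav2, -⟩ := hgν1
  rw [List.length_replicate] at hσ2
  rw [ew_replicate] at hw2
  have hRes := Rg_resid (σ - (ν + 1)) (Function.update w ls (w ls - (ν + 1))) ls hσ2 hw2
  have hcardR := card_Rg_peel (σ - (ν + 1)) (Function.update w ls (w ls - (ν + 1))) ls hσ2 hw2
  rw [update_step, Nat.sub_sub] at hRes hcardR
  change (RR σ w ls (ν + 2)).card + ff σ w ls (ν + 1) = (RR σ w ls (ν + 1)).card at hcardR
  -- sizes
  have hszc2 : c₂.sz n + (Rg σ w).card = c.sz n + (RR σ w ls (ν + 1)).card := by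
    have : F = fc σ w ls := rfl
    omega
  set X := c₂.Φ ls - Multiset.replicate s₀ (1, 1) with hX
  have hXs : c₂.Φ ls = X + Multiset.replicate s₀ (1, 1) := by
    rw [hX, tsub_add_cancel_of_le hrepl]
  clear_value X
  have hXval : ∀ x ∈ X, 1 ≤ x.2 ∧ x.2 ≤ 2 ∧ x.2 ≤ x.1 ∧ x.1 ≤ M := by
    intro x hx
    exact hc₂OK.hΦ ls x (by rw [hXs]; exact Multiset.mem_add.2 (Or.inl hx))
  obtain ⟨hY1, hY2, hY3⟩ := shf_numbers n M hn X hXval
  have htrX : c₂.tr n ls = (X.map fun x => ell n x.1).sum + s₀ := by
    unfold Cfg.tr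
    rw [hXs, Multiset.map_add, Multiset.sum_add, Multiset.map_replicate, Multiset.sum_replicate]
    simp only [ell_one, smul_eq_mul, mul_one]
  have hflX : c₂.fl n ls = (X.map fun x => ell (n + 1) x.1 + 1 - x.2).sum + s₀ := by
    unfold Cfg.fl
    rw [hXs, Multiset.map_add, Multiset.sum_add, Multiset.map_replicate, Multiset.sum_replicate]
    simp only [ell_one, smul_eq_mul]
    omega
  have hszA : (c₂.upd ls X (c₂.s + s₀)).sz n = c₂.sz n := by
    rw [Cfg.sz_upd, Cfg.sz_split n c₂ ls, hflX]
    omega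
  have hszB : (c₂.upd ls (shf X) c₂.s).sz n + c₂.tr n ls = c₂.sz n := by
    rw [Cfg.sz_upd, Cfg.sz_split n c₂ ls, hflX, htrX]
    omega
  have hM1 : 0 < 4 * M := by omega
  refine bridge_cfg n M c₂ hc₂OK ls s₀ hrepl (RR σ w ls (ν + 1)) (RR σ w ls (ν + 2)) hRes ?_ ?_ <;>
    rw [← hX]
  · -- (A)
    refine endA (ν + 1) (by omega) (eph n M (List.replicate (ν + 1) ls) σ w (fun _ => 0) ls) _
      (Cfg.OK_upd hc₂OK _ _ _ hXval) ?_ ?_ ?_ ?_ ?_ ?_
    · intro i hi
      rw [show (c₂.upd ls X (c₂.s + s₀)).Φ i = c₂.Φ i from Function.update_of_ne hi _ _]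
      exact hc₂0 i hi
    · rw [Cfg.tr_upd_self]
      omega
    · have h1 : 2 * (2 * M * eph n M (List.replicate (ν + 1) ls) σ w (fun _ => 0) ls) ≤
          2 * ((2 * M - 1) * ff σ w ls (ν + 1)) := by
        calc 2 * (2 * M * eph n M (List.replicate (ν + 1) ls) σ w (fun _ => 0) ls) =
            4 * M * eph n M (List.replicate (ν + 1) ls) σ w (fun _ => 0) ls := by ring
          _ ≤ (4 * M - 3) * ff σ w ls (ν + 1) := hr1a
          _ ≤ (2 * (2 * M - 1)) * ff σ w ls (ν + 1) := Nat.mul_le_mul_right _ (by omega)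
          _ = 2 * ((2 * M - 1) * ff σ w ls (ν + 1)) := by ring
      exact Nat.le_of_mul_le_mul_left h1 (by norm_num)
    · rw [hszA]; omega
    · rw [hszA]; omega
    · change s₀ ≤ c₂.s + s₀
      omega
  · -- (B)
    have hr1b := hr1' (ν + 2) (by omega) (by omega)
    have heph2 : eph n M (List.replicate (ν + 2) ls) σ w (fun _ => 0) ls =
        nphi n M (ff σ w ls (ν + 1)) := by
      rw [show ν + 2 = (ν + 1) + 1 from rfl, List.replicate_add, eph_append]
      rw [List.length_replicate, ew_replicate]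
      change (Function.update _ ls (nphi n M _) : ι → ℕ) ls = _
      rw [Function.update_self]
      rfl
    rw [heph2] at hr1b
    have htrle : 4 * M * c₂.tr n ls ≤ (4 * M - 3) * ff σ w ls (ν + 1) :=
      (Nat.mul_le_mul_left _ htr2).trans hr1a
    have htrlef : c₂.tr n ls ≤ ff σ w ls (ν + 1) := by
      have h1 : 4 * M * c₂.tr n ls ≤ 4 * M * ff σ w ls (ν + 1) :=
        htrle.trans (Nat.mul_le_mul_right _ (by omega))
      exact Nat.le_of_mul_le_mul_left h1 hM1
    refine endB (ν + 2) (by omega) (nphi n M (ff σ w ls (ν + 1))) _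
      (Cfg.OK_upd hc₂OK _ _ _ hY1) ?_ ?_ ?_ ?_
    · intro i hi
      rw [show (c₂.upd ls (shf X) c₂.s).Φ i = c₂.Φ i from Function.update_of_ne hi _ _]
      exact hc₂0 i hi
    · rw [Cfg.tr_upd_self]
      have h1 : M * ((shf X).map fun x => ell n x.1).sum ≤ (M - 1) * ff σ w ls (ν + 1) :=
        hY3.trans (Nat.mul_le_mul_left _ (by omega))
      unfold nphi
      have h2 : ((shf X).map fun x => ell n x.1).sum ≤ (M - 1) * ff σ w ls (ν + 1) / M := by
        rw [Nat.le_div_iff_mul_le (by omega), mul_comm]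
        exact h1
      omega
    · have h1 : 2 * (2 * M * nphi n M (ff σ w ls (ν + 1))) ≤
          2 * ((2 * M - 1) * ff σ w ls (ν + 2)) := by
        calc 2 * (2 * M * nphi n M (ff σ w ls (ν + 1))) =
            4 * M * nphi n M (ff σ w ls (ν + 1)) := by ring
          _ ≤ (4 * M - 3) * ff σ w ls (ν + 2) := hr1b
          _ ≤ (2 * (2 * M - 1)) * ff σ w ls (ν + 2) := Nat.mul_le_mul_right _ (by omega)
          _ = 2 * ((2 * M - 1) * ff σ w ls (ν + 2)) := by ring
      exact Nat.le_of_mul_le_mul_left h1 (by norm_num)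
    · -- the excess
      have hk : (RR σ w ls (ν + 2)).card + (ff σ w ls (ν + 1) - c₂.tr n ls) ≤
          (c₂.upd ls (shf X) c₂.s).sz n := by omega
      have hk2 : F ≤ 2 * M * (ff σ w ls (ν + 1) - c₂.tr n ls) := by
        have h1 := hr2' (ν + 1) (by omega)
        have h2 : 3 * ff σ w ls (ν + 1) ≤ 4 * M * (ff σ w ls (ν + 1) - c₂.tr n ls) := by
          rw [Nat.mul_sub]
          have h3 : 4 * M * ff σ w ls (ν + 1) =
              (4 * M - 3) * ff σ w ls (ν + 1) + 3 * ff σ w ls (ν + 1) := by
            rw [← add_mul]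
            congr 1
            omega
          omega
        -- `(8 M - 1) F ≤ 8 M f` and `3 f ≤ 4 M κ`
        have h4 : 7 * F ≤ 8 * ff σ w ls (ν + 1) := by
          have h5 : M * (7 * F) ≤ M * (8 * ff σ w ls (ν + 1)) := by
            calc M * (7 * F) = (7 * M) * F := by ring
              _ ≤ (8 * M - 1) * F := Nat.mul_le_mul_right _ (by omega)
              _ ≤ 8 * M * ff σ w ls (ν + 1) := h1
              _ = M * (8 * ff σ w ls (ν + 1)) := by ring
          exact Nat.le_of_mul_le_mul_left h5 (by omega)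
        have h6 : 2 * (2 * M * (ff σ w ls (ν + 1) - c₂.tr n ls)) =
            4 * M * (ff σ w ls (ν + 1) - c₂.tr n ls) := by ring
        omega
      calc 2 * M * (RR σ w ls (ν + 2)).card + F ≤ 2 * M * (RR σ w ls (ν + 2)).card +
            2 * M * (ff σ w ls (ν + 1) - c₂.tr n ls) := Nat.add_le_add_left hk2 _
        _ = 2 * M * ((RR σ w ls (ν + 2)).card + (ff σ w ls (ν + 1) - c₂.tr n ls)) := by ring
        _ ≤ 2 * M * (c₂.upd ls (shf X) c₂.s).sz n := Nat.mul_le_mul_left _ hk

end Pool.Agent.H18.Ex

end
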