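import Pool.Agent.H94.LP7.M105
import Pool.Agent.H94.LP7.M11
import Pool.Agent.H94.LP7.M121
import Pool.Agent.H94.LP7.M23
import Pool.Agent.H94.LP7.M53

/-! The parts of this file: H18.Ex.Refl, H54.V7.Lim_2, V7.AL.Span, V7.AL.N3, V7.DH, V7.DHm, V7.TrM. -/

section

/-!
# Module Refl: the toric reflection `x ↦ 1/x`
-/

namespace Pool.Agent.H18.Ex

open Finset

variable {ι : Type} [Fintype ι] [DecidableEq ι]

/-! ### Auxiliary facts -/

theorem refl_choose (β : ℕ) : ∀ a w : ℕ, a ≤ w →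
    ∑ b ∈ range (β + 1), (-1 : ℂ) ^ b * (a.choose b : ℂ) * ((w - b).choose (β - b) : ℂ) =
      ((w - a).choose β : ℂ) := by
  induction β with
  | zero => intro a w _; simp
  | succ β ihβ =>
    intro a
    induction a with
    | zero =>
      intro w _
      rw [Finset.sum_eq_single 0]
      · simp
      · intro b _ hb
        obtain ⟨c, rfl⟩ := Nat.exists_eq_succ_of_ne_zero hb
        simp
      · simp
    | succ a iha =>
      intro w hw
      obtain ⟨w, rfl⟩ : ∃ v, w = v + 1 := ⟨w - 1, by omega⟩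
      have h1 := iha (w + 1) (by omega)
      have h2 := ihβ a w (by omega)
      rw [Finset.sum_range_succ'] at h1 ⊢
      have h3 : ∀ b : ℕ, (-1 : ℂ) ^ (b + 1) * ((a + 1).choose (b + 1) : ℂ) *
          ((w + 1 - (b + 1)).choose (β + 1 - (b + 1)) : ℂ) =
          (-1 : ℂ) ^ (b + 1) * (a.choose (b + 1) : ℂ) *
          ((w + 1 - (b + 1)).choose (β + 1 - (b + 1)) : ℂ) -
          (-1 : ℂ) ^ b * (a.choose b : ℂ) * ((w - b).choose (β - b) : ℂ) := by
        intro b
        rw [Nat.choose_succ_succ, Nat.add_sub_add_right, Nat.add_sub_add_right]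
        push_cast
        ring
      rw [Finset.sum_congr rfl fun b _ => h3 b, Finset.sum_sub_distrib, h2]
      have h4 : (((w + 1 - a).choose (β + 1) : ℕ) : ℂ) =
          ((w - a).choose β : ℂ) + ((w - a).choose (β + 1) : ℂ) := by
        rw [show w + 1 - a = (w - a) + 1 by omega, Nat.choose_succ_succ]
        push_cast
        rfl
      rw [h4] at h1
      rw [show w + 1 - (a + 1) = w - a by omega]
      simp only [pow_zero, Nat.choose_zero_right, Nat.cast_one, one_mul, Nat.sub_zero] at h1 ⊢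
      linear_combination h1

theorem refl_one (a w β : ℕ) (haw : a ≤ w) (q : ℂ) (hq : q ≠ 0) :
    ((w - a).choose β : ℂ) * (q⁻¹) ^ (w - a - β) =
      ∑ b ∈ range (β + 1), ((a.choose b : ℂ) * q ^ (a - b)) *
        ((-1 : ℂ) ^ b * ((w - b).choose (β - b) : ℂ) * q ^ b * (q⁻¹) ^ (w - β)) := by
  have h1 : ∀ b ∈ range (β + 1), ((a.choose b : ℂ) * q ^ (a - b)) *
        ((-1 : ℂ) ^ b * ((w - b).choose (β - b) : ℂ) * q ^ b * (q⁻¹) ^ (w - β)) =
      ((-1 : ℂ) ^ b * (a.choose b : ℂ) * ((w - b).choose (β - b) : ℂ)) *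
        (q ^ a * (q⁻¹) ^ (w - β)) := by
    intro b _
    rcases Nat.lt_or_ge a b with hb | hb
    · rw [Nat.choose_eq_zero_of_lt hb]
      simp
    · have : q ^ a = q ^ (a - b) * q ^ b := by
        rw [← pow_add, Nat.sub_add_cancel hb]
      rw [this]
      ring
  rw [Finset.sum_congr rfl h1, ← Finset.sum_mul, refl_choose β a w haw]
  rcases Nat.lt_or_ge (w - a) β with hb | hb
  · rw [Nat.choose_eq_zero_of_lt hb]
    simp
  · have h2 : (q⁻¹) ^ (w - β) = (q⁻¹) ^ a * (q⁻¹) ^ (w - a - β) := by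
      rw [← pow_add]
      congr 1
      omega
    rw [h2, ← mul_assoc (q ^ a), ← mul_pow, mul_inv_cancel₀ hq, one_pow, one_mul]

theorem refl_mem {σ : ℕ} {w : ι → ℕ} {a : ι → ℕ} (ha : a ∈ Rg σ w) :
    (fun i => w i - a i) ∈ Rg (∑ i, w i - σ) w := by
  rw [mem_Rg] at ha ⊢
  refine ⟨fun i => Nat.sub_le _ _, ?_⟩
  rw [← ha.2]
  exact Finset.sum_tsub_distrib _ fun i _ => ha.1 i

theorem refl_mem' {σ : ℕ} {w : ι → ℕ} (hσ : σ ≤ ∑ i, w i) {a : ι → ℕ}
    (ha : a ∈ Rg (∑ i, w i - σ) w) : (fun i => w i - a i) ∈ Rg σ w := by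
  have h := refl_mem ha
  rwa [Nat.sub_sub_self hσ] at h

theorem refl_refl {σ : ℕ} {w : ι → ℕ} {a : ι → ℕ} (ha : a ∈ Rg σ w) :
    (fun i => w i - (w i - a i)) = a := by
  rw [mem_Rg] at ha
  funext i
  exact Nat.sub_sub_self (ha.1 i)

theorem refl_tcr (w a β : ι → ℕ) (haw : ∀ i, a i ≤ w i) (q : ι → ℂ) (hq : ∀ i, q i ≠ 0) :
    tcr (fun i => (q i)⁻¹) (fun i => w i - a i) β =
      ∑ b ∈ Fintype.piFinset fun i => range (β i + 1), tcr q a b *
        ∏ i, ((-1 : ℂ) ^ b i * ((w i - b i).choose (β i - b i) : ℂ) * q i ^ b i *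
          ((q i)⁻¹) ^ (w i - β i)) := by
  unfold tcr
  rw [Finset.prod_congr rfl fun i _ => refl_one (a i) (w i) (β i) (haw i) (q i) (hq i),
    Finset.prod_univ_sum]
  refine Finset.sum_congr rfl fun b _ => ?_
  rw [Finset.prod_mul_distrib]

/-- Reflection of one condition.  For `q` with nonzero coordinates and `A ⊆ {a ≤ w}`: if
`f` on `A` vanishes to order `m` at `q`, then `g a = f (w - a)` on `w - A` vanishes to order `m`
at `1/q`.

Proof.  Let `T b = ∑_{a ∈ A} f a tcr q a b` (Taylor coefficients, `T b = 0` for `|b| < m`, and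
`T b = 0` unless `b ≤ w`).  Taylor's formula at the level of monomials:
`∑_{a ∈ A} f a y^(w - a) = ∑_{b ≤ w} T b y^(w - b) (1 - q y)^b` (expand
`x^a = ∑_b tcr q a b (x - q)^b` and multiply by `y^w` with `x = 1/y`; one variable at a time:
`y^(w-a) = ∑_{b ≤ a} binom(a,b) q^(a-b) y^(w-b) (1 - q y)^b`, which is
`y^(w-a) * (1)^a = y^(w-a) * (q y + (1 - q y))^a`).  Every term with `T b ≠ 0` is divisible by
`(1 - q y)^b` with `|b| ≥ m`, and `1 - q_i y_i = - q_i (y_i - 1/q_i)`, so it vanishes to order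
`m` at `1/q`.

Purely combinatorial version (recommended): for `a ≤ w` (numbers)
`binom(w - a, β) = ∑_{b ≤ β} (-1)^b binom(a, b) binom(w - b, β - b)` (induction on `a`, Pascal),
hence with `c b β = (-1)^b binom(w - b, β - b) q^b (q⁻¹)^(w - β)` one has
`binom(w - a, β) (q⁻¹)^(w - a - β) = ∑_{b ≤ β} binom(a, b) q^(a - b) c b β`, and taking the product
over the coordinates (`Finset.prod_univ_sum`)
`tcr q⁻¹ (w - a) β = ∑_{b ≤ β} tcr q a b * ∏ i, c_i (b i) (β i)`; therefore
`∑_a f a tcr q⁻¹ (w - a) β = ∑_{b ≤ β} T b * ∏ i, c_i (b i) (β i) = 0` for `|β| < m`. -/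
theorem sat_reflect (σ : ℕ) (w : ι → ℕ) (hσ : σ ≤ ∑ i, w i) (f : (ι → ℕ) → ℂ) (m : ℕ)
    (q : ι → ℂ) (hq : ∀ i, q i ≠ 0) (h : Sat (Rg σ w) f (Kind.free m) q) :
    Sat (Rg (∑ i, w i - σ) w) (fun a => f (fun i => w i - a i)) (Kind.free m)
      (fun i => (q i)⁻¹) := by
  intro β hβ
  have hβ' : ∑ i, β i < m := hβ
  have h' : ∀ b : ι → ℕ, ∑ i, b i < m → ∑ a ∈ Rg σ w, f a * tcr q a b = 0 := h
  change ∑ a ∈ Rg (∑ i, w i - σ) w, f (fun i => w i - a i) * tcr (fun i => (q i)⁻¹) a β = 0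
  have h1 : ∑ a ∈ Rg (∑ i, w i - σ) w, f (fun i => w i - a i) * tcr (fun i => (q i)⁻¹) a β =
      ∑ a ∈ Rg σ w, f a * tcr (fun i => (q i)⁻¹) (fun i => w i - a i) β := by
    refine Finset.sum_nbij' (fun a i => w i - a i) (fun a i => w i - a i)
      (fun a ha => refl_mem' hσ ha) (fun a ha => refl_mem ha) (fun a ha => refl_refl ha)
      (fun a ha => refl_refl ha) fun a ha => ?_
    have h2 := refl_refl ha
    simp only
    rw [h2]
  rw [h1]
  have h3 : ∀ a ∈ Rg σ w, f a * tcr (fun i => (q i)⁻¹) (fun i => w i - a i) β =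
      ∑ b ∈ Fintype.piFinset fun i => range (β i + 1), (f a * tcr q a b) *
        ∏ i, ((-1 : ℂ) ^ b i * ((w i - b i).choose (β i - b i) : ℂ) * q i ^ b i *
          ((q i)⁻¹) ^ (w i - β i)) := by
    intro a ha
    rw [refl_tcr w a β (mem_Rg.1 ha).1 q hq, Finset.mul_sum]
    exact Finset.sum_congr rfl fun b _ => by rw [mul_assoc]
  rw [Finset.sum_congr rfl h3, Finset.sum_comm]
  refine Finset.sum_eq_zero fun b hb => ?_
  rw [← Finset.sum_mul, h' b, zero_mul]
  rw [Fintype.mem_piFinset] at hb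
  refine lt_of_le_of_lt (Finset.sum_le_sum fun i _ => ?_) hβ'
  exact Nat.lt_succ_iff.1 (Finset.mem_range.1 (hb i))

/-- Reflection of the region (take general positions with nonzero coordinates by `GI.general`
or `GI.exists_common` and invert them). -/
theorem GM.reflect (σ : ℕ) (w : ι → ℕ) (hσ : σ ≤ ∑ i, w i) (G : Multiset ℕ)
    (h : GM (Rg (∑ i, w i - σ) w) (G.map Kind.free)) : GM (Rg σ w) (G.map Kind.free) := by
  obtain ⟨n, k, hk, hGI⟩ := h
  obtain ⟨pos, hpos, -, hne⟩ := GI.exists_common hGI hGI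
  refine ⟨n, k, hk, fun i j => (pos i j)⁻¹, ?_⟩
  intro f hf a ha
  have hkf : ∀ i, ∃ m, k i = Kind.free m := by
    intro i
    have h1 : k i ∈ (univ : Finset (Fin n)).val.map k :=
      Multiset.mem_map.2 ⟨i, Finset.mem_univ_val i, rfl⟩
    rw [hk, Multiset.mem_map] at h1
    obtain ⟨m, -, hm⟩ := h1
    exact ⟨m, hm.symm⟩
  have h2 : ∀ i, Sat (Rg (∑ i, w i - σ) w) (fun a => f (fun i => w i - a i)) (k i) (pos i) := by
    intro i
    obtain ⟨m, hm⟩ := hkf i
    have h3 := hf i
    rw [hm] at h3 ⊢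
    have h4 := sat_reflect σ w hσ f m (fun j => (pos i j)⁻¹) (fun j => inv_ne_zero (hne i j)) h3
    simpa only [inv_inv] using h4
  have h5 := hpos _ h2 _ (refl_mem ha)
  simp only [refl_refl ha] at h5
  exact h5

/-- The reflected region has the same number of points. -/
theorem card_reflect (σ : ℕ) (w : ι → ℕ) (hσ : σ ≤ ∑ i, w i) :
    (Rg (∑ i, w i - σ) w).card = (Rg σ w).card :=
  Finset.card_nbij' (fun a i => w i - a i) (fun a i => w i - a i)
    (fun _ ha => refl_mem' hσ ha) (fun _ ha => refl_mem ha) (fun _ ha => refl_refl ha)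
    (fun _ ha => refl_refl ha)

end Pool.Agent.H18.Ex

end

section

/-!
# The limit of the solution spaces of a linear system depending on one parameter
-/

namespace Pool.Agent.H54.V7

open Finset Polynomial Pool.Agent.H18.Ex

section

set_option linter.unusedSectionVars false

variable {ι : Type} [Fintype ι] [DecidableEq ι] {E : Type} [Fintype E]

/-- The forms of `W` which vanish to order `M` at the points `q s`. -/
def fatSub {κ : Type} (W : Submodule ℂ (E → ℂ)) (ex : E → ι → ℕ) (M : ℕ) (q : κ → ι → ℂ) :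
    Submodule ℂ (E → ℂ) where
  carrier := {f | f ∈ W ∧ ∀ s, Fat ex M (q s) f}
  zero_mem' := ⟨W.zero_mem, fun s b _ => by simp⟩
  add_mem' := by
    intro f g hf hg
    refine ⟨W.add_mem hf.1 hg.1, fun s b hb => ?_⟩
    simp only [Pi.add_apply, add_mul, sum_add_distrib]
    rw [hf.2 s b hb, hg.2 s b hb, add_zero]
  smul_mem' := by
    intro c f hf
    refine ⟨W.smul_mem c hf.1, fun s b hb => ?_⟩
    have h2 : ∑ e, (c • f) e * tcr (q s) (ex e) b = c * ∑ e, f e * tcr (q s) (ex e) b := by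
      rw [mul_sum]
      exact sum_congr rfl fun e _ => by rw [Pi.smul_apply, smul_eq_mul, mul_assoc]
    rw [h2, hf.2 s b hb, mul_zero]

/-- The residual system. -/
def resSub {κ : Type} (W : Submodule ℂ (E → ℂ)) (ex : E → ι → ℕ) (M N : ℕ) (B : Finset ι)
    (p v : κ → ι → ℂ) : Submodule ℂ (E → ℂ) where
  carrier := {f | f ∈ W ∧ (∀ e, (∀ i ∈ B, ex e i = 0) → f e = 0) ∧ (∀ s, Fat ex M (p s) f) ∧
    ∀ s, Sw ex M N B (p s) (v s) f}
  zero_mem' := ⟨W.zero_mem, fun e _ => rfl, fun s b _ => by simp, fun s a _ _ _ => by simp⟩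
  add_mem' := by
    intro f g hf hg
    refine ⟨W.add_mem hf.1 hg.1, fun e he => ?_, fun s b hb => ?_, fun s a ha h1 h2 => ?_⟩
    · rw [Pi.add_apply, hf.2.1 e he, hg.2.1 e he, add_zero]
    · simp only [Pi.add_apply, add_mul, sum_add_distrib]
      rw [hf.2.2.1 s b hb, hg.2.2.1 s b hb, add_zero]
    · simp only [Pi.add_apply, add_mul, sum_add_distrib, mul_add]
      rw [hf.2.2.2 s a ha h1 h2, hg.2.2.2 s a ha h1 h2, add_zero]
  smul_mem' := by
    intro c f hf
    have h2 : ∀ (q : ι → ℂ) (b : ι → ℕ), ∑ e, (c • f) e * tcr q (ex e) b =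
        c * ∑ e, f e * tcr q (ex e) b := by
      intro q b
      rw [mul_sum]
      exact sum_congr rfl fun e _ => by rw [Pi.smul_apply, smul_eq_mul, mul_assoc]
    refine ⟨W.smul_mem c hf.1, fun e he => ?_, fun s b hb => ?_, fun s a ha h3 h4 => ?_⟩
    · rw [Pi.smul_apply, hf.2.1 e he, smul_zero]
    · rw [h2, hf.2.2.1 s b hb, mul_zero]
    · have h5 : ∑ b ∈ bxd ι N M, tcr (v s) b a * ∑ e, (c • f) e * tcr (p s) (ex e) b =
          c * ∑ b ∈ bxd ι N M, tcr (v s) b a * ∑ e, f e * tcr (p s) (ex e) b := by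
        rw [mul_sum]
        refine sum_congr rfl fun b _ => ?_
        rw [h2]
        ring
      rw [h5, hf.2.2.2 s a ha h3 h4, mul_zero]

theorem eval_tcr_mv_gen (p v : ι → ℂ) (t : ℂ) (m b : ι → ℕ) :
    (tcr (mv p v) m b).eval t = tcr (fun i => p i + t * v i) m b := by
  unfold tcr mv
  rw [eval_prod]
  refine prod_congr rfl fun i _ => ?_
  rw [eval_mul, eval_natCast, eval_pow, eval_add, eval_mul, eval_C, eval_C, eval_X]

/-- **The differential Horace lemma** for a subspace `x_i = 0` (`i ∈ B`) of any codimension, with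
simple trace.  `W` is the system of the fixed conditions; the points `p s + t v s` of multiplicity
`M` move, with `p s` on the subspace.  If a form of `W` whose trace vanishes at all `p s` has trace
zero, then for some `t` the system has at most the dimension of the residual system. -/
theorem dh_step {κ : Type} [Fintype κ] (ex : E → ι → ℕ) (M N : ℕ) (hM : 1 ≤ M) (hN : ∀ e i, ex e i < N)
    (B : Finset ι) (W : Submodule ℂ (E → ℂ)) (p v : κ → ι → ℂ) (hp : ∀ s, ∀ i ∈ B, p s i = 0)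
    (htr : ∀ f ∈ W, (∀ s, ∑ e ∈ univ.filter (fun e => ∀ i ∈ B, ex e i = 0),
      f e * tcr (p s) (ex e) 0 = 0) → ∀ e, (∀ i ∈ B, ex e i = 0) → f e = 0) :
    ∃ t : ℂ, Module.finrank ℂ (fatSub W ex M fun s i => p s i + t * v s i) ≤
      Module.finrank ℂ (resSub W ex M N B p v) := by
  classical
  obtain ⟨k, c, hc⟩ := exists_eqns W
  let Mx : Fin k ⊕ (κ × (ι → Fin M)) → E → ℂ[X] := Sum.elim (fun r e => C (c r e))
    fun r e => if ∑ i, (r.2 i : ℕ) < M then
      tcr (mv (p r.1) (v r.1)) (ex e) (fun i => (r.2 i : ℕ)) else 0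
  have hlt : ∀ b : ι → ℕ, ∑ i, b i < M → ∀ i, b i < M := by
    intro b hb i
    have h1 : b i ≤ ∑ i, b i := single_le_sum (f := b) (fun _ _ => Nat.zero_le _) (mem_univ i)
    omega
  obtain ⟨t, ht⟩ := poly_limit Mx (resSub W ex M N B p v) (by
    intro F hF
    -- the coefficients lie in `W`
    have hW : ∀ j, (fun e => (F e).coeff j) ∈ W := by
      intro j
      rw [hc]
      intro r
      have h1 := congrArg (fun q : ℂ[X] => q.coeff j) (hF (Sum.inl r))
      rw [coeff_zero, finsetSum_coeff] at h1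
      refine Eq.trans ?_ h1
      refine sum_congr rfl fun e _ => ?_
      show c r e * (F e).coeff j = (F e * C (c r e)).coeff j
      rw [coeff_mul_C, mul_comm]
    have hH : ∀ s, ∀ b : ι → ℕ, ∑ i, b i < M → mH univ ex F (p s) (v s) b = 0 := by
      intro s b hb
      have h1 := hF (Sum.inr (s, fun i => ⟨b i, hlt b hb i⟩))
      refine Eq.trans ?_ h1
      unfold mH
      refine sum_congr rfl fun e _ => ?_
      show F e * tcr (mv (p s) (v s)) (ex e) b = F e * (if ∑ i, b i < M then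
        tcr (mv (p s) (v s)) (ex e) (fun i => b i) else 0)
      rw [if_pos hb]
    have h0 : ∀ j < M, ∀ e, (∀ i ∈ B, ex e i = 0) → (F e).coeff j = 0 := by
      intro j hj
      refine htr _ (hW j) fun s => ?_
      exact dh_trace univ ex F B (p s) (v s) (hp s) M (hH s) j hj
    have hdvd : ∀ e ∈ (univ : Finset E), (∀ i ∈ B, ex e i = 0) → X ^ M ∣ F e := by
      intro e _ he
      rw [X_pow_dvd_iff]
      intro j hj
      exact h0 j hj e he
    refine ⟨?_, ?_, ?_, ?_⟩
    · have h1 := hW 0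
      simpa only [coeff_zero_eq_eval_zero] using h1
    · intro e he
      have h1 := h0 0 (by omega) e he
      rw [coeff_zero_eq_eval_zero] at h1
      exact h1
    · intro s b hb
      exact dh_fat univ ex F (p s) (v s) M (hH s) b hb
    · intro s a ha h1 h2
      exact dh_swap univ ex F B (p s) (v s) (hp s) M N (fun e _ => hN e) (hH s) hdvd a ha h1 h2)
  refine ⟨t, le_trans (le_of_eq ?_) ht⟩
  have h1 : fatSub W ex M (fun s i => p s i + t * v s i) = solAt Mx t := by
    ext f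
    rw [mem_solAt]
    constructor
    · rintro ⟨hf, hf2⟩ (r | ⟨s, b⟩)
      · have h2 := (hc f).1 hf r
        refine Eq.trans ?_ h2
        refine sum_congr rfl fun e _ => ?_
        show f e * (C (c r e)).eval t = c r e * f e
        rw [eval_C, mul_comm]
      · by_cases hb : ∑ i, (b i : ℕ) < M
        · have h2 := hf2 s (fun i => (b i : ℕ)) hb
          refine Eq.trans ?_ h2
          refine sum_congr rfl fun e _ => ?_
          show f e * (if ∑ i, (b i : ℕ) < M then
            tcr (mv (p s) (v s)) (ex e) (fun i => (b i : ℕ)) else 0).eval t = _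
          rw [if_pos hb, eval_tcr_mv_gen]
        · refine sum_eq_zero fun e _ => ?_
          show f e * (if ∑ i, (b i : ℕ) < M then
            tcr (mv (p s) (v s)) (ex e) (fun i => (b i : ℕ)) else 0).eval t = _
          rw [if_neg hb, eval_zero, mul_zero]
    · intro h
      refine ⟨(hc f).2 fun r => ?_, fun s b hb => ?_⟩
      · refine Eq.trans ?_ (h (Sum.inl r))
        refine sum_congr rfl fun e _ => ?_
        show c r e * f e = f e * (C (c r e)).eval t
        rw [eval_C, mul_comm]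
      · refine Eq.trans ?_ (h (Sum.inr (s, fun i => ⟨b i, hlt b hb i⟩)))
        refine sum_congr rfl fun e _ => ?_
        show _ = f e * (if ∑ i, b i < M then
          tcr (mv (p s) (v s)) (ex e) (fun i => b i) else 0).eval t
        rw [if_pos hb, eval_tcr_mv_gen]
  rw [h1]

end

end Pool.Agent.H54.V7

end

section

/-!
# V7, block ALPHA, module Span: the span property of the level `l`

The spaces of solutions at general positions (kinds of the level `l`) are not contained in a fixed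
hyperplane, unless their dimension is at most the number of exponents whose degree in the variables
of the blocks `≥ l` is less than `2 M - 1 - l`.

Proof.  Let `F` be a solution at `p₀`, `φ` a functional which vanishes on the general solutions.  For
a matrix `A` which preserves the subspaces `L_i`, `i < l`, the form `F_A(x) = F(A x)` is a solution at
the positions `adj(A) p₀`; so `φ(F_A) * det A * G(adj(A) p₀) = 0` for all these `A`, hence
`φ(F_A) = 0`.  Take `A` of rank one on every block: `A s t = c s * v t` on the blocks `< l`,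
`A s t = c s * w t` (all `t`) for the other `s`.  The coefficient of `c^a` in `φ(F_A)` is
`f_a * φ(∏_{i < l} λ_i^{a_i} * λ^{a_Z})`, where `λ_i = ∑ v t x_t` over the block `i` and
`λ = ∑ w t x_t`.  For `a` of degree `2 M - 1 - l` in the variables of the blocks `≥ l` all `a_i` are
`1`; if `v` is the indicator of one variable in every block the product is this monomial times
`λ^{2M-1-l}`, and as `w` is arbitrary `f_a ≠ 0` would imply `φ = 0`.
-/

set_option autoImplicit false
set_option linter.unusedSectionVars false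

namespace Pool.Agent.V7

open Finset MvPolynomial Pool.Agent.H51.TB Pool.Agent.H54.V7
open Pool.Agent.H18.Ex (tcr)

section

variable {ν : Type} [Fintype ν] [DecidableEq ν]

/-- The finitely supported function of a function. -/
private noncomputable def SpX.sf (α : ν → ℕ) : ν →₀ ℕ := Finsupp.equivFunOnFinite.symm α

private lemma SpX.sf_coe (α : ν → ℕ) : ⇑(SpX.sf α) = α := rfl

private lemma SpX.sf_eta (α : ν →₀ ℕ) : SpX.sf ⇑α = α := by
  ext i
  rfl

private lemma SpX.sf_inj {α β : ν → ℕ} : SpX.sf α = SpX.sf β ↔ α = β :=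
  Finsupp.equivFunOnFinite.symm.injective.eq_iff

private lemma SpX.sf_degree (α : ν → ℕ) : (SpX.sf α).degree = ∑ s, α s := by
  rw [Finsupp.degree_eq_sum]
  rfl

/-- The Taylor coefficients of a monomial. -/
private lemma SpX.shift_monomial (q : ν → ℂ) (α β : ν → ℕ) (c : ℂ) :
    coeff (SpX.sf β) (aeval (fun i => X i + C (q i)) (monomial (SpX.sf α) c) :
      MvPolynomial ν ℂ) = c * tcr q α β := by
  classical
  rw [aeval_monomial, algebraMap_eq, coeff_C_mul, Finsupp.prod_fintype _ _ (by intro i; simp)]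
  congr 1
  have h1 : ∀ j : ν, (X j + C (q j) : MvPolynomial ν ℂ) ^ (SpX.sf α j) =
      ∑ b ∈ range (α j + 1), monomial (Finsupp.single j b)
        (((α j).choose b : ℂ) * q j ^ (α j - b)) := by
    intro j
    rw [SpX.sf_coe, add_pow]
    refine sum_congr rfl fun b _ => ?_
    rw [X_pow_eq_monomial, ← C_pow, mul_assoc, mul_comm (C (q j ^ (α j - b)))]
    rw [← C_eq_coe_nat, ← C_mul, mul_comm, C_mul_monomial, mul_one]
  simp_rw [h1]
  rw [prod_univ_sum, coeff_sum]
  have h2 : ∀ x ∈ Fintype.piFinset fun j => range (α j + 1),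
      coeff (SpX.sf β) (∏ j, monomial (Finsupp.single j (x j))
        (((α j).choose (x j) : ℂ) * q j ^ (α j - x j)) : MvPolynomial ν ℂ) =
      if x = β then tcr q α β else 0 := by
    intro x _
    rw [← monomial_sum_prod, coeff_monomial]
    have h4 : (∑ j, Finsupp.single j (x j)) = SpX.sf x := by
      unfold SpX.sf
      rw [Finsupp.equivFunOnFinite_symm_eq_sum]
    rw [h4]
    by_cases hx : x = β
    · subst hx
      simp [tcr]
    · rw [if_neg, if_neg hx]
      intro h5
      exact hx (SpX.sf_inj.1 h5)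
  rw [sum_congr rfl h2, sum_ite_eq']
  split_ifs with h
  · rfl
  · rw [Fintype.mem_piFinset] at h
    push Not at h
    obtain ⟨j, hj⟩ := h
    rw [mem_range] at hj
    symm
    unfold tcr
    apply prod_eq_zero (mem_univ j)
    rw [Nat.choose_eq_zero_of_lt (by omega)]
    simp

/-- The polynomial of a coefficient vector. -/
private noncomputable def SpX.P {A : Finset (ν → ℕ)} (f : {a // a ∈ A} → ℂ) :
    MvPolynomial ν ℂ := ∑ α : {a // a ∈ A}, monomial (SpX.sf α.1) (f α)

private lemma SpX.coeff_P {A : Finset (ν → ℕ)} (f : {a // a ∈ A} → ℂ)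
    (α : {a // a ∈ A}) : coeff (SpX.sf α.1) (SpX.P f) = f α := by
  classical
  unfold SpX.P
  rw [coeff_sum]
  simp only [coeff_monomial, SpX.sf_inj, Subtype.coe_inj]
  simp

private lemma SpX.coeff_P_zero {A : Finset (ν → ℕ)} (f : {a // a ∈ A} → ℂ)
    (α : ν → ℕ) (hα : α ∉ A) : coeff (SpX.sf α) (SpX.P f) = 0 := by
  classical
  unfold SpX.P
  rw [coeff_sum]
  refine sum_eq_zero fun β _ => ?_
  rw [coeff_monomial, if_neg]
  intro h
  rw [SpX.sf_inj] at h
  exact hα (h ▸ β.2)

/-- The shift. -/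
private noncomputable def SpX.sh (q : ν → ℂ) (F : MvPolynomial ν ℂ) : MvPolynomial ν ℂ :=
  aeval (fun i => X i + C (q i)) F

private lemma SpX.shift_P {A : Finset (ν → ℕ)} (q : ν → ℂ) (f : {a // a ∈ A} → ℂ)
    (β : ν → ℕ) :
    coeff (SpX.sf β) (SpX.sh q (SpX.P f)) = ∑ α : {a // a ∈ A}, f α * tcr q α.1 β := by
  unfold SpX.P SpX.sh
  rw [map_sum, coeff_sum]
  refine sum_congr rfl fun α _ => ?_
  rw [SpX.shift_monomial]

/-- The linear substitution. -/
private noncomputable def SpX.g (A : Matrix ν ν ℂ) (s : ν) : MvPolynomial ν ℂ :=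
  ∑ t, C (A s t) * X t

/-- The matrices which preserve the subspaces `L_i`, `i < l`. -/
private def SpX.Ad {R : Type} [Zero R] (β : ν → ℕ) (l : ℕ) (A : Matrix ν ν R) : Prop :=
  ∀ s t, β s < l → β t ≠ β s → A s t = 0

private lemma SpX.key {β : ν → ℕ} {l : ℕ} {A : Matrix ν ν ℂ} (hA : SpX.Ad β l A) (a b : ν → ℕ)
    (c : ℂ) (h : ∑ s, b s ≠ ∑ s, a s ∨
      ∃ i < l, (∃ s, β s = i ∧ a s ≠ 0) ∧ ∀ s, β s = i → b s = 0) :
    coeff (SpX.sf b) (aeval (SpX.g A) (monomial (SpX.sf a) c)) = 0 := by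
  classical
  rcases h with h | ⟨i, hi, ⟨s₀, hs0, ha⟩, hb⟩
  · have h1 : (monomial (SpX.sf a) c : MvPolynomial ν ℂ).IsHomogeneous (∑ s, a s) := by
      apply isHomogeneous_monomial
      rw [SpX.sf_degree]
    have h2 : ∀ s, (SpX.g A s).IsHomogeneous 1 := by
      intro s
      unfold SpX.g
      refine IsHomogeneous.sum _ _ _ fun t _ => ?_
      simpa using (isHomogeneous_C ν (A s t)).mul (isHomogeneous_X ℂ t)
    have h3 := h1.aeval (SpX.g A) h2
    refine h3.coeff_eq_zero ?_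
    rw [SpX.sf_degree, one_mul]
    exact h
  · by_contra hne
    have h1 : aeval (SpX.g A) (monomial (SpX.sf a) c) ∈
        Ideal.span ((X : ν → MvPolynomial ν ℂ) '' {t | β t = i}) := by
      rw [aeval_monomial, Finsupp.prod_fintype _ _ (by intro i; simp),
        ← mul_prod_erase univ _ (mem_univ s₀)]
      refine Ideal.mul_mem_left _ _ (Ideal.mul_mem_right _ _ ?_)
      rw [SpX.sf_coe]
      refine Ideal.pow_mem_of_mem _ ?_ _ (Nat.pos_of_ne_zero ha)
      unfold SpX.g
      refine Ideal.sum_mem _ fun t _ => ?_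
      by_cases ht : β t = i
      · exact Ideal.mul_mem_left _ _ (Ideal.subset_span ⟨t, ht, rfl⟩)
      · rw [hA s₀ t (by omega) (by omega), C_0, zero_mul]
        exact Ideal.zero_mem _
    rw [mem_ideal_span_X_image] at h1
    obtain ⟨t, ht, ht0⟩ := h1 (SpX.sf b) (mem_support_iff.2 hne)
    exact ht0 (hb t ht)

private lemma SpX.pres {β : ν → ℕ} {l : ℕ} {A : Matrix ν ν ℂ} (hA : SpX.Ad β l A) (k : ℕ)
    (I : Finset ℕ) (hI : ∀ i ∈ I, i < l) {H : MvPolynomial ν ℂ}
    (hH : ∀ b : ν → ℕ, ∑ s, b s = k → (∀ s, β s ∈ I → b s = 0) → coeff (SpX.sf b) H = 0)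
    (b : ν → ℕ) (hb : ∑ s, b s = k) (hb' : ∀ s, β s ∈ I → b s = 0) :
    coeff (SpX.sf b) (aeval (SpX.g A) H) = 0 := by
  classical
  rw [H.as_sum, map_sum, coeff_sum]
  refine sum_eq_zero fun α hα => ?_
  rw [← SpX.sf_eta α]
  by_cases h1 : ∑ s, α s = k
  · by_cases h2 : ∀ s, β s ∈ I → α s = 0
    · have h3 := hH ⇑α h1 h2
      rw [SpX.sf_eta] at h3
      exact absurd h3 (mem_support_iff.1 hα)
    · push Not at h2
      obtain ⟨s, hs, hs0⟩ := h2
      refine SpX.key hA _ _ _ (Or.inr ⟨β s, hI _ hs, ⟨s, rfl, hs0⟩, fun t ht => ?_⟩)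
      exact hb' t (by rw [ht]; exact hs)
  · refine SpX.key hA _ _ _ (Or.inl ?_)
    rw [hb]
    exact Ne.symm h1

private lemma SpX.shift_comm (A : Matrix ν ν ℂ) (q : ν → ℂ) (F : MvPolynomial ν ℂ) :
    SpX.sh q (aeval (SpX.g A) F) = aeval (SpX.g A) (SpX.sh (A.mulVec q) F) := by
  unfold SpX.sh
  have h : (aeval (fun j => X j + C (q j)) :
      MvPolynomial ν ℂ →ₐ[ℂ] MvPolynomial ν ℂ).comp (aeval (SpX.g A)) =
      (aeval (SpX.g A)).comp (aeval (fun j => X j + C (A.mulVec q j))) := by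
    apply algHom_ext
    intro i
    simp only [SpX.g, AlgHom.comp_apply, aeval_X, map_sum, map_mul, aeval_C,
      algebraMap_eq, map_add, mul_add, sum_add_distrib, Matrix.mulVec, dotProduct]
  exact DFunLike.congr_fun h F

/-- The coefficients of the transformed polynomial. -/
private noncomputable def SpX.T {E : Finset (ν → ℕ)} (A : Matrix ν ν ℂ) (f : {a // a ∈ E} → ℂ) :
    {a // a ∈ E} → ℂ :=
  fun α => coeff (SpX.sf α.1) (aeval (SpX.g A) (SpX.P f))

private lemma SpX.P_T {β : ν → ℕ} {l d : ℕ} {A : Matrix ν ν ℂ} (hA : SpX.Ad β l A)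
    (f : {a // a ∈ Ex β d l} → ℂ) : SpX.P (SpX.T A f) = aeval (SpX.g A) (SpX.P f) := by
  classical
  ext γ
  rw [← SpX.sf_eta γ]
  by_cases hγ : ⇑γ ∈ Ex β d l
  · exact SpX.coeff_P (SpX.T A f) ⟨⇑γ, hγ⟩
  · rw [SpX.coeff_P_zero _ _ hγ]
    symm
    unfold SpX.P
    rw [map_sum, coeff_sum]
    refine sum_eq_zero fun α _ => SpX.key hA _ _ _ ?_
    have h1 := mem_Ex.1 α.2
    by_cases h2 : ∑ s, γ s = d
    · right
      rw [mem_Ex] at hγ
      push Not at hγ
      obtain ⟨i, hi, h3⟩ := hγ h2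
      exact ⟨i, hi, h1.2 i hi, h3⟩
    · left
      rw [h1.1]
      exact h2

private lemma SpX.tcr_sm (l : ℂ) (q : ν → ℂ) (e b : ν → ℕ) :
    tcr (fun i => l * q i) e b = l ^ (∑ i, e i - ∑ i, b i) * tcr q e b := by
  by_cases h : ∀ i, b i ≤ e i
  · exact tcr_smul l q e b h
  · rw [tcr_eq_zero _ _ _ h, tcr_eq_zero _ _ _ h, mul_zero]

private lemma SpX.fat {β : ν → ℕ} {l d μ : ℕ} {A : Matrix ν ν ℂ} (hA : SpX.Ad β l A)
    (f : {a // a ∈ Ex β d l} → ℂ) (q q' : ν → ℂ) (u : ℂ) (hq : A.mulVec q' = fun s => u * q s)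
    (h : Fat (fun e : {a // a ∈ Ex β d l} => e.1) μ q f) :
    Fat (fun e : {a // a ∈ Ex β d l} => e.1) μ q' (SpX.T A f) := by
  intro b hb
  rw [← SpX.shift_P, SpX.P_T hA, SpX.shift_comm, hq]
  refine SpX.pres hA (∑ s, b s) ∅ (fun i hi => absurd hi (notMem_empty i)) ?_ b rfl
    (fun s hs => absurd hs (notMem_empty _))
  intro b' hb' _
  rw [SpX.shift_P]
  have h1 : ∀ e : {a // a ∈ Ex β d l}, f e * tcr (fun s => u * q s) e.1 b' =
      u ^ (d - ∑ s, b s) * (f e * tcr q e.1 b') := by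
    intro e
    rw [SpX.tcr_sm, (mem_Ex.1 e.2).1, hb']
    ring
  rw [sum_congr rfl fun e _ => h1 e, ← mul_sum, h b' (by omega), mul_zero]

/-- The homogeneous component of degree `M` of the Taylor expansion at `p`. -/
private noncomputable def SpX.H {E : Finset (ν → ℕ)} (N M : ℕ) (p : ν → ℂ)
    (f : {a // a ∈ E} → ℂ) : MvPolynomial ν ℂ :=
  SpX.P (fun b : {b // b ∈ bxd ν N M} => ∑ e, f e * tcr p e.1 b.1)

private lemma SpX.mem_bxd {N M : ℕ} {b : ν → ℕ} (hN : M < N) : b ∈ bxd ν N M ↔ ∑ i, b i = M := by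
  unfold bxd
  rw [mem_filter, mem_bx]
  refine ⟨fun h => h.2, fun h => ⟨fun i => ?_, h⟩⟩
  have := single_le_sum (f := b) (fun _ _ => Nat.zero_le _) (mem_univ i)
  omega

private lemma SpX.coeff_H {E : Finset (ν → ℕ)} {N M : ℕ} (hN : M < N) (p : ν → ℂ)
    (f : {a // a ∈ E} → ℂ) (b : ν → ℕ) : coeff (SpX.sf b) (SpX.H N M p f) =
      if ∑ i, b i = M then ∑ e, f e * tcr p e.1 b else 0 := by
  unfold SpX.H
  split_ifs with h
  · exact SpX.coeff_P (fun b : {b // b ∈ bxd ν N M} => ∑ e, f e * tcr p e.1 b.1)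
      ⟨b, (SpX.mem_bxd hN).2 h⟩
  · exact SpX.coeff_P_zero _ b fun h1 => h ((SpX.mem_bxd hN).1 h1)

private lemma SpX.sw_sum {E : Finset (ν → ℕ)} (N M : ℕ) (p v : ν → ℂ)
    (f : {a // a ∈ E} → ℂ) (a : ν → ℕ) :
    ∑ b ∈ bxd ν N M, tcr v b a * ∑ e, f e * tcr p e.1 b =
      coeff (SpX.sf a) (SpX.sh v (SpX.H N M p f)) := by
  unfold SpX.H
  rw [SpX.shift_P, ← sum_coe_sort (bxd ν N M)]
  exact sum_congr rfl fun b _ => mul_comm _ _

private lemma SpX.H_T {β : ν → ℕ} {l d N M : ℕ} (hN : M < N) {A : Matrix ν ν ℂ}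
    (hA : SpX.Ad β l A) (f : {a // a ∈ Ex β d l} → ℂ) (p p' : ν → ℂ) (u : ℂ)
    (hp : A.mulVec p' = fun s => u * p s) :
    SpX.H N M p' (SpX.T A f) = C (u ^ (d - M)) * aeval (SpX.g A) (SpX.H N M p f) := by
  classical
  ext γ
  rw [← SpX.sf_eta γ, SpX.coeff_H hN]
  split_ifs with h
  · rw [← SpX.shift_P, SpX.P_T hA, SpX.shift_comm, hp]
    have h1 : coeff (SpX.sf ⇑γ) (aeval (SpX.g A) (SpX.sh (fun s => u * p s) (SpX.P f) -
        C (u ^ (d - M)) * SpX.H N M p f)) = 0 := by
      refine SpX.pres hA M ∅ (fun i hi => absurd hi (notMem_empty i)) ?_ _ h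
        (fun s hs => absurd hs (notMem_empty _))
      intro b hb _
      rw [coeff_sub, SpX.shift_P, coeff_C_mul, SpX.coeff_H hN, if_pos hb, mul_sum,
        ← sum_sub_distrib]
      refine sum_eq_zero fun e _ => ?_
      rw [SpX.tcr_sm, (mem_Ex.1 e.2).1, hb]
      ring
    rw [map_sub, map_mul, coeff_sub, sub_eq_zero] at h1
    rw [h1]
    simp
  · rw [coeff_C_mul]
    have h1 : coeff (SpX.sf ⇑γ) (aeval (SpX.g A) (SpX.H N M p f)) = 0 := by
      refine SpX.pres hA (∑ s, γ s) ∅ (fun i hi => absurd hi (notMem_empty i)) ?_ _ rfl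
        (fun s hs => absurd hs (notMem_empty _))
      intro b hb _
      rw [SpX.coeff_H hN, if_neg (by rw [hb]; exact h)]
    rw [h1, mul_zero]

private lemma SpX.sw {β : ν → ℕ} {l d N M i : ℕ} (hi : i < l) (hN : M < N) {A : Matrix ν ν ℂ}
    (hA : SpX.Ad β l A) (f : {a // a ∈ Ex β d l} → ℂ) (p p' v v' : ν → ℂ) (u : ℂ)
    (hp : A.mulVec p' = fun s => u * p s) (hv : A.mulVec v' = fun s => u * v s)
    (h : Sw (fun e : {a // a ∈ Ex β d l} => e.1) M N (univ.filter fun s => β s = i) p v f) :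
    Sw (fun e : {a // a ∈ Ex β d l} => e.1) M N (univ.filter fun s => β s = i) p' v'
      (SpX.T A f) := by
  intro a ha ha1 haM
  rw [SpX.sw_sum, SpX.H_T hN hA f p p' u hp]
  have h0 : SpX.sh v' (C (u ^ (d - M)) * aeval (SpX.g A) (SpX.H N M p f)) =
      C (u ^ (d - M)) * aeval (SpX.g A) (SpX.sh (fun s => u * v s) (SpX.H N M p f)) := by
    rw [← hv, ← SpX.shift_comm]
    unfold SpX.sh
    rw [map_mul]
    congr 1
    simp
  rw [h0, coeff_C_mul]
  have h1 : coeff (SpX.sf a) (aeval (SpX.g A) (SpX.sh (fun s => u * v s) (SpX.H N M p f))) = 0 := by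
    refine SpX.pres hA (∑ s, a s) {i} (fun j hj => by rw [mem_singleton.1 hj]; exact hi) ?_ a rfl
      (fun s hs => ha s (by rw [mem_filter]; exact ⟨mem_univ s, mem_singleton.1 hs⟩))
    intro b hb hb'
    rw [← SpX.sw_sum]
    have h2 := h b (fun s hs => hb' s (by rw [mem_filter] at hs; exact mem_singleton.2 hs.2))
      (by omega) (by omega)
    have h3 : ∀ x ∈ bxd ν N M, tcr (fun s => u * v s) x b * ∑ e, f e * tcr p e.1 x =
        u ^ (M - ∑ s, b s) * (tcr v x b * ∑ e, f e * tcr p e.1 x) := by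
      intro x hx
      rw [SpX.tcr_sm, (SpX.mem_bxd hN).1 hx]
      ring
    rw [sum_congr rfl h3, ← mul_sum, h2, mul_zero]
  rw [h1, mul_zero]

/-! ### The transformed positions -/

/-- The transformed position. -/
private noncomputable def SpX.tr {R : Type} [CommRing R] (β : ν → ℕ) (A : Matrix ν ν R)
    (I : Finset ℕ) (q : ν → R) : ν → R :=
  fun s => if β s ∈ I then q s else A.adjugate.mulVec (msk β I q) s

private lemma SpX.tr_one {β : ν → ℕ} (I : Finset ℕ) (q : ν → ℂ) :
    SpX.tr β (1 : Matrix ν ν ℂ) I q = q := by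
  funext s
  unfold SpX.tr
  split_ifs with h
  · rfl
  · rw [Matrix.adjugate_one, Matrix.one_mulVec]
    unfold msk
    rw [if_neg h]

private lemma SpX.mul_tr {β : ν → ℕ} {l : ℕ} {A : Matrix ν ν ℂ} (hA : SpX.Ad β l A)
    (hdet : A.det ≠ 0) (I : Finset ℕ) (hI : ∀ i ∈ I, i < l) (q : ν → ℂ) :
    A.mulVec (msk β I (SpX.tr β A I q)) = fun s => A.det * msk β I q s := by
  classical
  -- the subspace of the vectors which vanish on the blocks of `I`
  let W : Submodule ℂ (ν → ℂ) :=
    { carrier := {x | ∀ s, β s ∈ I → x s = 0}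
      zero_mem' := fun s _ => rfl
      add_mem' := fun {a b} ha hb s hs => by rw [Pi.add_apply, ha s hs, hb s hs, add_zero]
      smul_mem' := fun c x hx s hs => by rw [Pi.smul_apply, hx s hs, smul_zero] }
  have hW : ∀ x ∈ W, A.mulVec x ∈ W := by
    intro x hx s hs
    unfold Matrix.mulVec dotProduct
    refine sum_eq_zero fun t _ => ?_
    by_cases ht : β t = β s
    · rw [hx t (by rw [ht]; exact hs), mul_zero]
    · show A s t * x t = 0
      rw [hA s t (hI _ hs) ht, zero_mul]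
  have hinj : Function.Injective A.mulVec := by
    intro x y hxy
    have h1 := congrArg A.adjugate.mulVec hxy
    rw [Matrix.mulVec_mulVec, Matrix.mulVec_mulVec, Matrix.adjugate_mul, Matrix.smul_mulVec,
      Matrix.smul_mulVec, Matrix.one_mulVec, Matrix.one_mulVec] at h1
    exact smul_right_injective _ hdet h1
  let L : W →ₗ[ℂ] W := (A.mulVecLin).restrict hW
  have hL : Function.Injective L := by
    intro x y hxy
    apply Subtype.ext
    apply hinj
    exact congrArg Subtype.val hxy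
  have hsurj : Function.Surjective L := LinearMap.injective_iff_surjective.1 hL
  have hm : msk β I q ∈ W := fun s hs => by
    unfold msk
    rw [if_pos hs]
  obtain ⟨y, hy⟩ := hsurj (A.det • (⟨msk β I q, hm⟩ : W))
  have hy1 : A.mulVec y.1 = A.det • msk β I q := congrArg Subtype.val hy
  have hy2 : A.adjugate.mulVec (msk β I q) = y.1 := by
    apply hinj
    rw [hy1, Matrix.mulVec_mulVec, Matrix.mul_adjugate, Matrix.smul_mulVec, Matrix.one_mulVec]
  have h3 : msk β I (SpX.tr β A I q) = y.1 := by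
    funext s
    unfold msk
    split_ifs with hs
    · exact (y.2 s hs).symm
    · show SpX.tr β A I q s = _
      unfold SpX.tr
      rw [if_neg hs, hy2]
  rw [h3, hy1]
  rfl

/-- The blocks on which the position of the point vanishes. -/
private def SpX.I1 : Kd → Finset ℕ
  | .ord _ I => I
  | .sw i I => insert i I

/-- The blocks on which the direction vanishes. -/
private def SpX.I2 : Kd → Finset ℕ
  | .ord _ I => I
  | .sw _ I => I

/-- The transformed positions. -/
private noncomputable def SpX.np {R : Type} [CommRing R] (β : ν → ℕ) (A : Matrix ν ν R) (k : Kd)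
    (q : ν ⊕ ν → R) : ν ⊕ ν → R :=
  Sum.elim (SpX.tr β A (SpX.I1 k) fun s => q (Sum.inl s))
    (SpX.tr β A (SpX.I2 k) fun s => q (Sum.inr s))

private lemma SpX.np_one {β : ν → ℕ} (k : Kd) (q : ν ⊕ ν → ℂ) :
    SpX.np β (1 : Matrix ν ν ℂ) k q = q := by
  funext s
  unfold SpX.np
  rw [SpX.tr_one, SpX.tr_one]
  rcases s with s | s <;> rfl

private lemma SpX.satK {M l : ℕ} {β : ν → ℕ} {A : Matrix ν ν ℂ} (hA : SpX.Ad β l A)
    (hdet : A.det ≠ 0) (k : Kd) (hk : k.Ok M l) (q : ν ⊕ ν → ℂ)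
    (f : {a // a ∈ Ex β (2 * M - 1) l} → ℂ) (h : SatK M β k q f) :
    SatK M β k (SpX.np β A k q) (SpX.T A f) := by
  rcases k with ⟨μ, I⟩ | ⟨i, I⟩
  · have hI : ∀ i ∈ I, i < l := fun i hi => mem_range.1 (hk.2.2 hi)
    exact SpX.fat hA f _ _ A.det (SpX.mul_tr hA hdet I hI _) h
  · obtain ⟨hi, hk2⟩ := hk
    have hI : ∀ j ∈ I, j < l := fun j hj => (mem_Ico.1 (hk2 hj)).2
    have hI' : ∀ j ∈ insert i I, j < l := fun j hj => by
      rcases mem_insert.1 hj with h | h
      · rw [h]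
        exact hi
      · exact hI j h
    refine ⟨SpX.fat hA f _ _ A.det (SpX.mul_tr hA hdet (insert i I) hI' _) h.1, ?_⟩
    by_cases hM : M = 0
    · intro a _ h1 h2
      omega
    · exact SpX.sw hi (by omega) hA f _ _ _ _ A.det
        (SpX.mul_tr hA hdet (insert i I) hI' _) (SpX.mul_tr hA hdet I hI _) h.2

private lemma SpX.mem {M l : ℕ} {β : ν → ℕ} {κ : Type} (m : κ → Kd) (hm : ∀ x, (m x).Ok M l)
    {A : Matrix ν ν ℂ} (hA : SpX.Ad β l A) (hdet : A.det ≠ 0) (p : κ → ν ⊕ ν → ℂ)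
    (f : {a // a ∈ Ex β (2 * M - 1) l} → ℂ) (hf : f ∈ (LS M β l).V m p) :
    SpX.T A f ∈ (LS M β l).V m fun x => SpX.np β A (m x) (p x) := by
  rw [mem_LSA] at hf ⊢
  exact fun x => SpX.satK hA hdet (m x) (hm x) (p x) f (hf x)

/-! ### The parameters -/

/-- The matrix of the parameters. -/
private def SpX.mk {R : Type} [Zero R] (β : ν → ℕ) (l : ℕ) (t : ν × ν → R) : Matrix ν ν R :=
  Matrix.of fun r s => if β r < l ∧ β s ≠ β r then 0 else t (r, s)

private lemma SpX.mk_ad {R : Type} [Zero R] (β : ν → ℕ) (l : ℕ) (t : ν × ν → R) :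
    SpX.Ad β l (SpX.mk β l t) := by
  intro r s h1 h2
  unfold SpX.mk
  rw [Matrix.of_apply, if_pos ⟨h1, h2⟩]

private lemma SpX.mk_self {R : Type} [Zero R] {β : ν → ℕ} {l : ℕ} {A : Matrix ν ν R}
    (hA : SpX.Ad β l A) : SpX.mk β l (fun x => A x.1 x.2) = A := by
  ext r s
  unfold SpX.mk
  rw [Matrix.of_apply]
  split_ifs with h
  · exact (hA r s h.1 h.2).symm
  · rfl

private lemma SpX.one_ad (β : ν → ℕ) (l : ℕ) : SpX.Ad β l (1 : Matrix ν ν ℂ) := by
  intro r s _ h2
  rw [Matrix.one_apply, if_neg]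
  rintro rfl
  exact h2 rfl

/-- The generic matrix. -/
private noncomputable def SpX.gm (β : ν → ℕ) (l : ℕ) : Matrix ν ν (MvPolynomial (ν × ν) ℂ) :=
  SpX.mk β l X

private lemma SpX.gm_map (β : ν → ℕ) (l : ℕ) (t : ν × ν → ℂ) :
    (eval t).mapMatrix (SpX.gm β l) = SpX.mk β l t := by
  ext r s
  unfold SpX.gm SpX.mk
  rw [RingHom.mapMatrix_apply, Matrix.map_apply, Matrix.of_apply, Matrix.of_apply]
  split_ifs
  · rw [map_zero]
  · rw [eval_X]

private lemma SpX.eval_det (β : ν → ℕ) (l : ℕ) (t : ν × ν → ℂ) :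
    eval t (SpX.gm β l).det = (SpX.mk β l t).det := by
  rw [RingHom.map_det, SpX.gm_map]

private lemma SpX.eval_tr (β : ν → ℕ) (l : ℕ) (t : ν × ν → ℂ) (I : Finset ℕ) (q : ν → ℂ)
    (s : ν) : eval t (SpX.tr β (SpX.gm β l) I (fun s => C (q s)) s) =
      SpX.tr β (SpX.mk β l t) I q s := by
  unfold SpX.tr
  split_ifs
  · rw [eval_C]
  · unfold Matrix.mulVec dotProduct
    rw [map_sum]
    refine sum_congr rfl fun k _ => ?_
    rw [map_mul]
    congr 1
    · have h3 := RingHom.map_adjugate (eval t) (SpX.gm β l)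
      rw [SpX.gm_map] at h3
      rw [← h3]
      rfl
    · unfold msk
      split_ifs
      · rw [map_zero]
      · rw [eval_C]

private lemma SpX.eval_np (β : ν → ℕ) (l : ℕ) (t : ν × ν → ℂ) (k : Kd) (q : ν ⊕ ν → ℂ)
    (s : ν ⊕ ν) : eval t (SpX.np β (SpX.gm β l) k (fun s => C (q s)) s) =
      SpX.np β (SpX.mk β l t) k q s := by
  unfold SpX.np
  rcases s with s | s
  · exact SpX.eval_tr β l t _ _ s
  · exact SpX.eval_tr β l t _ _ s

private lemma SpX.exists_D {β : ν → ℕ} {l : ℕ} {κ : Type} (m : κ → Kd)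
    (G : MvPolynomial (κ × (ν ⊕ ν)) ℂ) (p : κ → ν ⊕ ν → ℂ) :
    ∃ D : MvPolynomial (ν × ν) ℂ, ∀ t, eval t D =
      eval (fun x : κ × (ν ⊕ ν) => SpX.np β (SpX.mk β l t) (m x.1) (p x.1) x.2) G := by
  refine ⟨aeval (fun x : κ × (ν ⊕ ν) =>
    SpX.np β (SpX.gm β l) (m x.1) (fun s => C (p x.1 s)) x.2) G, fun t => ?_⟩
  have h : ∀ F : MvPolynomial (κ × (ν ⊕ ν)) ℂ, eval t (aeval (fun x : κ × (ν ⊕ ν) =>
      SpX.np β (SpX.gm β l) (m x.1) (fun s => C (p x.1 s)) x.2) F) =
      eval (fun x : κ × (ν ⊕ ν) => SpX.np β (SpX.mk β l t) (m x.1) (p x.1) x.2) F := by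
    intro F
    induction F using MvPolynomial.induction_on with
    | C c => simp
    | add p q hp hq => rw [map_add, map_add, map_add, hp, hq]
    | mul_X p i hp => rw [map_mul, map_mul, map_mul, hp, aeval_X, eval_X, SpX.eval_np]
  exact h G

/-- The generic substitution. -/
private noncomputable def SpX.gF (β : ν → ℕ) (l : ℕ) : MvPolynomial ν ℂ →+*
    MvPolynomial ν (MvPolynomial (ν × ν) ℂ) :=
  eval₂Hom (C.comp C) fun s => ∑ t, C (SpX.gm β l s t) * X t

private lemma SpX.map_gF (β : ν → ℕ) (l : ℕ) (t : ν × ν → ℂ) (F : MvPolynomial ν ℂ) :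
    MvPolynomial.map (eval t) (SpX.gF β l F) = aeval (SpX.g (SpX.mk β l t)) F := by
  have h : (MvPolynomial.map (eval t)).comp (SpX.gF β l) =
      (aeval (SpX.g (SpX.mk β l t)) : MvPolynomial ν ℂ →ₐ[ℂ] MvPolynomial ν ℂ).toRingHom := by
    apply ringHom_ext
    · intro c
      simp [SpX.gF]
    · intro s
      have h2 : ∀ r, eval t (SpX.gm β l s r) = SpX.mk β l t s r := by
        intro r
        rw [← SpX.gm_map]
        rfl
      simp [SpX.gF, SpX.g, h2]
  exact DFunLike.congr_fun h F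

private lemma SpX.functional {E : Finset (ν → ℕ)} (φ : ({a // a ∈ E} → ℂ) →ₗ[ℂ] ℂ)
    (f : {a // a ∈ E} → ℂ) :
    φ f = ∑ α, φ (Pi.single α 1) * f α := by
  classical
  rw [LinearMap.pi_apply_eq_sum_univ φ f]
  refine sum_congr rfl fun α _ => ?_
  rw [smul_eq_mul, mul_comm]
  congr 2
  funext β
  by_cases h : α = β
  · subst h; simp
  · rw [if_neg h, Pi.single_eq_of_ne (Ne.symm h)]

private lemma SpX.functional_poly (β : ν → ℕ) (l : ℕ) {E : Finset (ν → ℕ)}
    (φ : ({a // a ∈ E} → ℂ) →ₗ[ℂ] ℂ) (f : {a // a ∈ E} → ℂ) :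
    ∃ Q : MvPolynomial (ν × ν) ℂ, ∀ t, eval t Q = φ (SpX.T (SpX.mk β l t) f) := by
  classical
  refine ⟨∑ α : {a // a ∈ E},
    C (φ (Pi.single α 1)) * coeff (SpX.sf α.1) (SpX.gF β l (SpX.P f)), fun t => ?_⟩
  rw [SpX.functional, map_sum]
  refine sum_congr rfl fun α _ => ?_
  rw [map_mul, eval_C]
  congr 1
  unfold SpX.T
  rw [← SpX.map_gF, coeff_map]

/-- Step 1: `φ` vanishes on all transformed solutions. -/
private lemma SpX.all {M l : ℕ} {β : ν → ℕ} {κ : Type} (m : κ → Kd) (hm : ∀ x, (m x).Ok M l)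
    (φ : ({a // a ∈ Ex β (2 * M - 1) l} → ℂ) →ₗ[ℂ] ℂ) (G : MvPolynomial (κ × (ν ⊕ ν)) ℂ)
    (hG : ∀ p : κ → ν ⊕ ν → ℂ, eval (fun x => p x.1 x.2) G ≠ 0 →
      (LS M β l).V m p ≤ LinearMap.ker φ)
    (p₀ : κ → ν ⊕ ν → ℂ) (hp₀ : eval (fun x => p₀ x.1 x.2) G ≠ 0)
    (f : {a // a ∈ Ex β (2 * M - 1) l} → ℂ) (hf : f ∈ (LS M β l).V m p₀)
    (A : Matrix ν ν ℂ) (hA : SpX.Ad β l A) : φ (SpX.T A f) = 0 := by
  classical
  obtain ⟨Q, hQ⟩ := SpX.functional_poly β l φ f
  obtain ⟨D, hD⟩ := SpX.exists_D (β := β) (l := l) m G p₀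
  have hQD : Q * ((SpX.gm β l).det * D) = 0 := by
    apply MvPolynomial.funext
    intro t
    rw [map_mul, map_mul, map_zero, SpX.eval_det, hQ, hD]
    by_cases hdet : (SpX.mk β l t).det = 0
    · rw [hdet, zero_mul, mul_zero]
    by_cases hGA : eval (fun x : κ × (ν ⊕ ν) =>
        SpX.np β (SpX.mk β l t) (m x.1) (p₀ x.1) x.2) G = 0
    · rw [hGA, mul_zero, mul_zero]
    have h1 : φ (SpX.T (SpX.mk β l t) f) = 0 :=
      hG (fun x => SpX.np β (SpX.mk β l t) (m x) (p₀ x)) hGA
        (SpX.mem m hm (SpX.mk_ad β l t) hdet p₀ f hf)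
    rw [h1, zero_mul]
  have h1 : SpX.mk β l (fun x : ν × ν => (1 : Matrix ν ν ℂ) x.1 x.2) = 1 :=
    SpX.mk_self (SpX.one_ad β l)
  have hdet0 : (SpX.gm β l).det ≠ 0 := by
    intro h0
    have h2 := SpX.eval_det β l (fun x : ν × ν => (1 : Matrix ν ν ℂ) x.1 x.2)
    rw [h0, map_zero, h1, Matrix.det_one] at h2
    exact zero_ne_one h2
  have hD0 : D ≠ 0 := by
    intro h0
    have h2 := hD (fun x : ν × ν => (1 : Matrix ν ν ℂ) x.1 x.2)
    rw [h0, map_zero, h1] at h2
    apply hp₀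
    rw [h2]
    simp only [SpX.np_one]
  have hQ0 : Q = 0 := (mul_eq_zero.1 hQD).resolve_right (mul_ne_zero hdet0 hD0)
  have h2 := hQ (fun x => A x.1 x.2)
  rw [hQ0, map_zero, SpX.mk_self hA] at h2
  exact h2.symm

/-! ### Rank one -/

/-- The matrix of rank one on every block. -/
private def SpX.rk (β : ν → ℕ) (l : ℕ) (c v w : ν → ℂ) : Matrix ν ν ℂ :=
  Matrix.of fun s t => if β s < l then (if β t = β s then c s * v t else 0) else c s * w t

private lemma SpX.rk_ad (β : ν → ℕ) (l : ℕ) (c v w : ν → ℂ) : SpX.Ad β l (SpX.rk β l c v w) := by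
  intro s t h1 h2
  unfold SpX.rk
  rw [Matrix.of_apply, if_pos h1, if_neg h2]

/-- The linear form of the variable `s`. -/
private noncomputable def SpX.lam (β : ν → ℕ) (l : ℕ) (v w : ν → ℂ) (s : ν) : MvPolynomial ν ℂ :=
  if β s < l then ∑ t, (if β t = β s then C (v t) * X t else 0) else ∑ t, C (w t) * X t

private lemma SpX.g_rk (β : ν → ℕ) (l : ℕ) (c v w : ν → ℂ) (s : ν) :
    SpX.g (SpX.rk β l c v w) s = C (c s) * SpX.lam β l v w s := by
  unfold SpX.g SpX.lam SpX.rk
  split_ifs with h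
  · rw [mul_sum]
    refine sum_congr rfl fun t _ => ?_
    rw [Matrix.of_apply, if_pos h]
    split_ifs
    · rw [C_mul, mul_assoc]
    · rw [C_0, zero_mul, mul_zero]
  · rw [mul_sum]
    refine sum_congr rfl fun t _ => ?_
    rw [Matrix.of_apply, if_neg h, C_mul, mul_assoc]

/-- Step 2: the coefficients in `c`. -/
private lemma SpX.coef {d l : ℕ} {β : ν → ℕ} (φ : ({a // a ∈ Ex β d l} → ℂ) →ₗ[ℂ] ℂ)
    (f : {a // a ∈ Ex β d l} → ℂ)
    (h : ∀ A : Matrix ν ν ℂ, SpX.Ad β l A → φ (SpX.T A f) = 0)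
    (v w : ν → ℂ) (a : {a // a ∈ Ex β d l}) :
    f a * φ (fun e => coeff (SpX.sf e.1) (∏ s, SpX.lam β l v w s ^ a.1 s)) = 0 := by
  classical
  -- the polynomial in `c`
  have h1 : ∀ c : ν → ℂ, φ (SpX.T (SpX.rk β l c v w) f) = ∑ a : {a // a ∈ Ex β d l},
      (f a * φ (fun e => coeff (SpX.sf e.1) (∏ s, SpX.lam β l v w s ^ a.1 s))) *
        ∏ s, c s ^ a.1 s := by
    intro c
    have h2 : SpX.T (SpX.rk β l c v w) f = ∑ a : {a // a ∈ Ex β d l},
        (f a * ∏ s, c s ^ a.1 s) •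
          (fun e : {a // a ∈ Ex β d l} =>
            coeff (SpX.sf e.1) (∏ s, SpX.lam β l v w s ^ a.1 s)) := by
      funext e
      rw [Finset.sum_apply]
      unfold SpX.T SpX.P
      rw [map_sum, coeff_sum]
      refine sum_congr rfl fun a _ => ?_
      rw [Pi.smul_apply, smul_eq_mul, aeval_monomial, Finsupp.prod_fintype _ _ (by intro i; simp),
        algebraMap_eq, SpX.sf_coe]
      simp_rw [SpX.g_rk, mul_pow]
      rw [prod_mul_distrib, ← mul_assoc]
      have h3 : (∏ s, (C (c s) : MvPolynomial ν ℂ) ^ a.1 s) = C (∏ s, c s ^ a.1 s) := by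
        rw [map_prod]
        simp only [C_pow]
      rw [h3, ← C_mul, coeff_C_mul]
    rw [h2, map_sum]
    refine sum_congr rfl fun a _ => ?_
    rw [map_smul, smul_eq_mul]
    ring
  have h2 : SpX.P (fun a : {a // a ∈ Ex β d l} =>
      f a * φ (fun e => coeff (SpX.sf e.1) (∏ s, SpX.lam β l v w s ^ a.1 s))) = 0 := by
    apply MvPolynomial.funext
    intro c
    rw [map_zero, ← h _ (SpX.rk_ad β l c v w), h1 c]
    unfold SpX.P
    rw [map_sum]
    refine sum_congr rfl fun a _ => ?_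
    rw [eval_monomial, Finsupp.prod_fintype _ _ (by intro i; simp), SpX.sf_coe]
  rw [← SpX.coeff_P (fun a : {a // a ∈ Ex β d l} =>
      f a * φ (fun e => coeff (SpX.sf e.1) (∏ s, SpX.lam β l v w s ^ a.1 s))) a, h2, coeff_zero]

/-- The exponent of one variable in every block `< l`. -/
private def SpX.dl (l : ℕ) (σ : ℕ → ν) (t : ν) : ℕ := ∑ i ∈ range l, if σ i = t then 1 else 0

private lemma SpX.sf_dl (l : ℕ) (σ : ℕ → ν) :
    ∏ i ∈ range l, (X (σ i) : MvPolynomial ν ℂ) = monomial (SpX.sf (SpX.dl l σ)) 1 := by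
  classical
  have h1 : SpX.sf (SpX.dl l σ) = ∑ i ∈ range l, Finsupp.single (σ i) 1 := by
    ext t
    rw [SpX.sf_coe, Finsupp.finset_sum_apply]
    unfold SpX.dl
    refine sum_congr rfl fun i _ => ?_
    rw [Finsupp.single_apply]
  rw [h1]
  have h2 := monomial_sum_prod (R := ℂ) (range l) (fun i => Finsupp.single (σ i) 1)
    (fun _ => (1 : ℂ))
  rw [prod_const_one] at h2
  rw [h2]
  rfl

private lemma SpX.prod_lam {d l : ℕ} {β : ν → ℕ} {a : ν → ℕ} (ha : a ∈ Ex β d l)
    (htop : d ≤ (∑ s ∈ univ.filter (fun s => l ≤ β s), a s) + l) (σ : ℕ → ν)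
    (hσ : ∀ i < l, β (σ i) = i) (w : ν → ℂ) :
    ∏ s, SpX.lam β l (fun t => if σ (β t) = t then 1 else 0) w s ^ a s =
      monomial (SpX.sf (SpX.dl l σ)) 1 * (∑ t, C (w t) * X t) ^ (d - l) := by
  classical
  obtain ⟨h1, h2⟩ := mem_Ex.1 ha
  -- the degrees on the blocks
  have h3 : ∀ i < l, 1 ≤ ∑ s ∈ univ.filter (fun s => β s = i), a s := by
    intro i hi
    obtain ⟨s, hs, hs0⟩ := h2 i hi
    refine (Nat.pos_of_ne_zero hs0).trans_le ?_
    exact single_le_sum (f := a) (fun _ _ => Nat.zero_le _) (by rw [mem_filter]; exact ⟨mem_univ s, hs⟩)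
  have h4 : ∑ i ∈ range l, ∑ s ∈ univ.filter (fun s => β s = i), a s =
      ∑ s ∈ univ.filter (fun s => β s < l), a s := by
    rw [← sum_fiberwise_of_maps_to (s := univ.filter (fun s => β s < l)) (t := range l)
      (g := β) (fun s hs => by rw [mem_filter] at hs; exact mem_range.2 hs.2)]
    refine sum_congr rfl fun i hi => ?_
    refine sum_congr ?_ fun _ _ => rfl
    ext s
    simp only [mem_filter, mem_univ, true_and]
    constructor
    · intro h
      exact ⟨by rw [h]; exact mem_range.1 hi, h⟩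
    · exact fun h => h.2
  have h5 : ∑ s ∈ univ.filter (fun s => β s < l), a s +
      ∑ s ∈ univ.filter (fun s => l ≤ β s), a s = d := by
    rw [← h1, ← sum_filter_add_sum_filter_not univ (fun s => β s < l)]
    congr 1
    refine sum_congr ?_ fun _ _ => rfl
    ext s
    simp only [mem_filter, mem_univ, true_and, not_lt]
  have h6 : l ≤ ∑ s ∈ univ.filter (fun s => β s < l), a s := by
    rw [← h4]
    calc l = ∑ i ∈ range l, 1 := by simp
      _ ≤ _ := sum_le_sum fun i hi => h3 i (mem_range.1 hi)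
  have h7 : ∑ s ∈ univ.filter (fun s => β s < l), a s = l := by omega
  have h8 : ∑ s ∈ univ.filter (fun s => l ≤ β s), a s = d - l := by omega
  have h9 : ∀ i ∈ range l, ∑ s ∈ univ.filter (fun s => β s = i), a s = 1 := by
    intro i hi
    have h10 : ∑ i ∈ range l, (1 : ℕ) =
        ∑ i ∈ range l, ∑ s ∈ univ.filter (fun s => β s = i), a s := by
      rw [h4, h7]
      simp
    exact ((sum_eq_sum_iff_of_le fun i hi => h3 i (mem_range.1 hi)).1 h10 i hi).symm
  rw [← prod_filter_mul_prod_filter_not univ (fun s => β s < l)]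
  congr 1
  · rw [← SpX.sf_dl, ← prod_fiberwise_of_maps_to (s := univ.filter (fun s => β s < l))
      (t := range l) (g := β) (fun s hs => by rw [mem_filter] at hs; exact mem_range.2 hs.2)]
    refine prod_congr rfl fun i hi => ?_
    have h11 : ∀ s ∈ (univ.filter (fun s => β s < l)).filter (fun s => β s = i),
        SpX.lam β l (fun t => if σ (β t) = t then 1 else 0) w s ^ a s = X (σ i) ^ a s := by
      intro s hs
      rw [mem_filter] at hs
      congr 1
      have hsl : β s < l := by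
        rw [hs.2]
        exact mem_range.1 hi
      unfold SpX.lam
      rw [if_pos hsl, sum_eq_single (σ i)]
      · have e1 : β (σ i) = β s := by rw [hσ i (mem_range.1 hi), hs.2]
        have e2 : σ (β (σ i)) = σ i := by rw [hσ i (mem_range.1 hi)]
        rw [if_pos e1]
        show C (if σ (β (σ i)) = σ i then (1 : ℂ) else 0) * X (σ i) = X (σ i)
        rw [if_pos e2, C_1, one_mul]
      · intro t _ ht
        by_cases h12 : β t = β s
        · rw [if_pos h12]
          show C (if σ (β t) = t then (1 : ℂ) else 0) * X t = 0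
          rw [if_neg, C_0, zero_mul]
          intro h13
          apply ht
          rw [← h13, h12, hs.2]
        · rw [if_neg h12]
      · intro h
        exact absurd (mem_univ _) h
    rw [prod_congr rfl h11, prod_pow_eq_pow_sum]
    have h12 : (univ.filter (fun s => β s < l)).filter (fun s => β s = i) =
        univ.filter (fun s => β s = i) := by
      ext s
      simp only [mem_filter, mem_univ, true_and]
      constructor
      · exact fun h => h.2
      · intro h
        exact ⟨by rw [h]; exact mem_range.1 hi, h⟩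
    rw [h12, h9 i hi, pow_one]
  · have h11 : ∀ s ∈ univ.filter (fun s => ¬ β s < l),
        SpX.lam β l (fun t => if σ (β t) = t then 1 else 0) w s ^ a s =
          (∑ t, C (w t) * X t) ^ a s := by
      intro s hs
      rw [mem_filter] at hs
      unfold SpX.lam
      rw [if_neg hs.2]
    rw [prod_congr rfl h11, prod_pow_eq_pow_sum]
    congr 1
    rw [← h8]
    refine sum_congr ?_ fun _ _ => rfl
    ext s
    simp only [mem_filter, mem_univ, true_and, not_lt]

private lemma SpX.dl_sum (l : ℕ) (σ : ℕ → ν) : ∑ t, SpX.dl l σ t = l := by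
  unfold SpX.dl
  rw [sum_comm]
  simp

private lemma SpX.dl_mem {d l : ℕ} {β : ν → ℕ} (hl : l ≤ d) (σ : ℕ → ν)
    (hσ : ∀ i < l, β (σ i) = i) {b : ν → ℕ} (hb : ∑ s, b s = d - l) :
    (fun t => SpX.dl l σ t + b t) ∈ Ex β d l := by
  rw [mem_Ex]
  constructor
  · rw [sum_add_distrib, SpX.dl_sum, hb]
    omega
  · intro i hi
    refine ⟨σ i, hσ i hi, ?_⟩
    have h1 : 1 ≤ SpX.dl l σ (σ i) := by
      unfold SpX.dl
      have h2 := single_le_sum (f := fun j => if σ j = σ i then 1 else 0)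
        (fun _ _ => Nat.zero_le _) (mem_range.2 hi)
      simpa using h2
    omega

/-- Step 3: the coefficients in `w`. -/
private lemma SpX.fin {d l : ℕ} {β : ν → ℕ} (hl : l ≤ d)
    (φ : ({a // a ∈ Ex β d l} → ℂ) →ₗ[ℂ] ℂ) (σ : ℕ → ν) (hσ : ∀ i < l, β (σ i) = i)
    (h : ∀ w : ν → ℂ, φ (fun e => coeff (SpX.sf e.1)
      (monomial (SpX.sf (SpX.dl l σ)) 1 * (∑ t, C (w t) * X t) ^ (d - l))) = 0)
    (b : ν → ℕ) (hb : ∑ s, b s = d - l) :
    φ (Pi.single ⟨fun t => SpX.dl l σ t + b t, SpX.dl_mem hl σ hσ hb⟩ 1) = 0 := by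
  classical
  let B : Finset (ν → ℕ) := piAntidiag univ (d - l)
  have hB : ∀ b : {b // b ∈ B}, ∑ s, b.1 s = d - l := fun b => (mem_piAntidiag.1 b.2).1
  let c : {b // b ∈ B} → ℂ := fun b =>
    ((Nat.multinomial univ b.1 : ℕ) : ℂ) *
      φ (Pi.single ⟨fun t => SpX.dl l σ t + b.1 t, SpX.dl_mem hl σ hσ (hB b)⟩ 1)
  have h1 : SpX.P c = 0 := by
    apply MvPolynomial.funext
    intro w
    rw [map_zero, ← h w]
    have h2 : (fun e : {a // a ∈ Ex β d l} => coeff (SpX.sf e.1)
        (monomial (SpX.sf (SpX.dl l σ)) 1 * (∑ t, C (w t) * X t) ^ (d - l) :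
          MvPolynomial ν ℂ)) = ∑ b : {b // b ∈ B},
        (((Nat.multinomial univ b.1 : ℕ) : ℂ) * ∏ s, w s ^ b.1 s) •
          (Pi.single ⟨fun t => SpX.dl l σ t + b.1 t, SpX.dl_mem hl σ hσ (hB b)⟩ 1 :
            {a // a ∈ Ex β d l} → ℂ) := by
      funext e
      rw [Finset.sum_apply, sum_pow_eq_sum_piAntidiag, mul_sum, coeff_sum]
      rw [← sum_coe_sort (piAntidiag (univ : Finset ν) (d - l))]
      refine sum_congr rfl fun b _ => ?_
      have h3 : (monomial (SpX.sf (SpX.dl l σ)) 1 * ((Nat.multinomial univ b.1 : MvPolynomial ν ℂ) *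
          ∏ s, (C (w s) * X s) ^ b.1 s) : MvPolynomial ν ℂ) =
          monomial (SpX.sf fun t => SpX.dl l σ t + b.1 t)
            (((Nat.multinomial univ b.1 : ℕ) : ℂ) * ∏ s, w s ^ b.1 s) := by
        have h4 : SpX.sf (fun t => SpX.dl l σ t + b.1 t) =
            SpX.sf (SpX.dl l σ) + SpX.sf b.1 := by
          ext t
          rfl
        have h5 : (∏ s, (C (w s) * X s) ^ b.1 s : MvPolynomial ν ℂ) =
            monomial (SpX.sf b.1) (∏ s, w s ^ b.1 s) := by
          rw [monomial_eq, Finsupp.prod_fintype _ _ (by intro i; simp), SpX.sf_coe]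
          simp only [mul_pow, prod_mul_distrib, map_prod, C_pow]
        rw [h4, h5, ← C_eq_coe_nat, C_mul_monomial, monomial_mul, one_mul]
      rw [h3, coeff_monomial, Pi.smul_apply, smul_eq_mul]
      by_cases h6 : (fun t => SpX.dl l σ t + b.1 t) = e.1
      · rw [if_pos (by rw [h6])]
        have h7 : (⟨fun t => SpX.dl l σ t + b.1 t, SpX.dl_mem hl σ hσ (hB b)⟩ :
            {a // a ∈ Ex β d l}) = e := Subtype.ext h6
        rw [h7, Pi.single_eq_same, mul_one]
      · rw [if_neg (fun h8 => h6 (SpX.sf_inj.1 h8)), Pi.single_eq_of_ne, mul_zero]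
        intro h8
        exact h6 (congrArg Subtype.val h8).symm
    rw [h2, map_sum]
    unfold SpX.P
    rw [map_sum]
    refine sum_congr rfl fun b _ => ?_
    rw [map_smul, smul_eq_mul, eval_monomial, Finsupp.prod_fintype _ _ (by intro i; simp),
      SpX.sf_coe]
    show ((Nat.multinomial univ b.1 : ℕ) : ℂ) * _ * _ = _
    ring
  have hbB : b ∈ B := mem_piAntidiag.2 ⟨hb, fun i _ => mem_univ i⟩
  have h2 := SpX.coeff_P c ⟨b, hbB⟩
  rw [h1, coeff_zero] at h2
  have h6 : ((Nat.multinomial univ b : ℕ) : ℂ) ≠ 0 := by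
    rw [Nat.cast_ne_zero]
    exact (Nat.multinomial_pos _ _).ne'
  exact (mul_eq_zero.1 h2.symm).resolve_left h6

/-- The number of exponents of the level `l` whose degree in the variables of the blocks `≥ l` is
less than `2 M - 1 - l`. -/
def dzb (M : ℕ) (β : ν → ℕ) (l : ℕ) : ℕ :=
  ((Ex β (2 * M - 1) l).filter fun a =>
    (∑ s ∈ univ.filter (fun s => l ≤ β s), a s) + l < 2 * M - 1).card

/-- The span property of the level `l`, for the kinds of this level. -/
theorem span_LS (M : ℕ) (β : ν → ℕ) (l : ℕ) {κ : Type} [Fintype κ] (m : κ → Kd)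
    (hm : ∀ x, (m x).Ok M l) (φ : ({a // a ∈ Ex β (2 * M - 1) l} → ℂ) →ₗ[ℂ] ℂ) (hφ : φ ≠ 0)
    (hgn : Gn κ (ν ⊕ ν) fun p => (LS M β l).V m p ≤ LinearMap.ker φ) :
    (LS M β l).gd m ≤ dzb M β l := by
  classical
  obtain ⟨G, hG0, hG⟩ := hgn
  obtain ⟨t, ht⟩ : ∃ t, eval t G ≠ 0 := by
    by_contra hcon
    push Not at hcon
    exact hG0 (MvPolynomial.funext fun t => by rw [hcon t, map_zero])
  let p₀ : κ → ν ⊕ ν → ℂ := fun i k => t (i, k)
  have hp₀ : eval (fun x : κ × (ν ⊕ ν) => p₀ x.1 x.2) G ≠ 0 := ht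
  -- the top coefficients of the solutions vanish
  have hf : ∀ f ∈ (LS M β l).V m p₀, ∀ a : {a // a ∈ Ex β (2 * M - 1) l},
      2 * M - 1 ≤ (∑ s ∈ univ.filter (fun s => l ≤ β s), a.1 s) + l → f a = 0 := by
    intro f hf a ha
    by_contra hfa
    apply hφ
    have h1 := SpX.all m hm φ G hG p₀ hp₀ f hf
    have hl : l ≤ 2 * M - 1 := by
      obtain ⟨h2, h3⟩ := mem_Ex.1 a.2
      have h4 : ∀ i ∈ range l, 1 ≤ ∑ s ∈ univ.filter (fun s => β s = i), a.1 s := by
        intro i hi
        obtain ⟨s, hs, hs0⟩ := h3 i (mem_range.1 hi)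
        refine (Nat.pos_of_ne_zero hs0).trans_le ?_
        exact single_le_sum (f := a.1) (fun _ _ => Nat.zero_le _)
          (by rw [mem_filter]; exact ⟨mem_univ s, hs⟩)
      calc l = ∑ i ∈ range l, 1 := by simp
        _ ≤ ∑ i ∈ range l, ∑ s ∈ univ.filter (fun s => β s = i), a.1 s := sum_le_sum h4
        _ = ∑ s ∈ univ.filter (fun s => β s < l), a.1 s := by
            rw [← sum_fiberwise_of_maps_to (s := univ.filter (fun s => β s < l)) (t := range l)
              (g := β) (fun s hs => by rw [mem_filter] at hs; exact mem_range.2 hs.2)]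
            refine sum_congr rfl fun i hi => ?_
            refine sum_congr ?_ fun _ _ => rfl
            ext s
            simp only [mem_filter, mem_univ, true_and]
            constructor
            · intro h
              exact ⟨by rw [h]; exact mem_range.1 hi, h⟩
            · exact fun h => h.2
        _ ≤ ∑ s, a.1 s := sum_le_sum_of_subset (filter_subset _ _)
        _ = 2 * M - 1 := h2
    ext e
    obtain ⟨h2, h3⟩ := mem_Ex.1 e.2
    rcases isEmpty_or_nonempty ν with hemp | ⟨⟨s₀⟩⟩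
    · have h4 : ∀ x y : {a // a ∈ Ex β (2 * M - 1) l}, x = y := fun x y =>
        Subtype.ext (funext fun s => hemp.elim s)
      have h5 : f = f a • (Pi.single a 1 : {a // a ∈ Ex β (2 * M - 1) l} → ℂ) := by
        funext x
        rw [h4 x a, Pi.smul_apply, Pi.single_eq_same, smul_eq_mul, mul_one]
      have h6 : φ f = 0 := hG p₀ hp₀ hf
      rw [h5, map_smul, smul_eq_mul] at h6
      have h7 := (mul_eq_zero.1 h6).resolve_left hfa
      rw [h4 e a]
      simpa using h7
    let σ : ℕ → ν := fun i => if h : i < l then (h3 i h).choose else s₀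
    have hσ : ∀ i < l, β (σ i) = i := by
      intro i hi
      simp only [σ, dif_pos hi]
      exact (h3 i hi).choose_spec.1
    have hσe : ∀ i < l, e.1 (σ i) ≠ 0 := by
      intro i hi
      simp only [σ, dif_pos hi]
      exact (h3 i hi).choose_spec.2
    have hle : ∀ t, SpX.dl l σ t ≤ e.1 t := by
      intro t
      unfold SpX.dl
      by_cases h5 : ∃ i < l, σ i = t
      · obtain ⟨i, hi, h6⟩ := h5
        rw [sum_eq_single i]
        · rw [if_pos h6]
          have := hσe i hi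
          rw [h6] at this
          omega
        · intro j hj hji
          rw [if_neg]
          intro h7
          apply hji
          rw [← hσ j (mem_range.1 hj), h7, ← h6, hσ i hi]
        · intro h7
          exact absurd (mem_range.2 hi) h7
      · rw [sum_eq_zero]
        · exact Nat.zero_le _
        · intro i hi
          rw [if_neg]
          intro h6
          exact h5 ⟨i, mem_range.1 hi, h6⟩
    have hb : ∑ t, (e.1 t - SpX.dl l σ t) = 2 * M - 1 - l := by
      rw [sum_tsub_distrib _ fun t _ => hle t, h2, SpX.dl_sum]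
    have h4 := SpX.fin hl φ σ hσ (by
      intro w
      have h5 := SpX.coef φ f h1 (fun t => if σ (β t) = t then 1 else 0) w a
      rw [SpX.prod_lam a.2 ha σ hσ w] at h5
      exact (mul_eq_zero.1 h5).resolve_left hfa) (fun t => e.1 t - SpX.dl l σ t) hb
    have h5 : (⟨fun t => SpX.dl l σ t + (e.1 t - SpX.dl l σ t), SpX.dl_mem hl σ hσ hb⟩ :
        {a // a ∈ Ex β (2 * M - 1) l}) = e := by
      apply Subtype.ext
      funext t
      have := hle t
      show SpX.dl l σ t + (e.1 t - SpX.dl l σ t) = e.1 t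
      omega
    rw [h5] at h4
    simpa using h4
  -- the dimension
  let D : Finset (ν → ℕ) := (Ex β (2 * M - 1) l).filter fun a =>
    (∑ s ∈ univ.filter (fun s => l ≤ β s), a s) + l < 2 * M - 1
  let L : (LS M β l).V m p₀ →ₗ[ℂ] ({a // a ∈ D} → ℂ) :=
    { toFun := fun f a => f.1 ⟨a.1, (mem_filter.1 a.2).1⟩
      map_add' := fun _ _ => rfl
      map_smul' := fun _ _ => rfl }
  have hL : Function.Injective L := by
    rw [← LinearMap.ker_eq_bot, Submodule.eq_bot_iff]
    intro f hf0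
    apply Subtype.ext
    funext a
    by_cases ha : (∑ s ∈ univ.filter (fun s => l ≤ β s), a.1 s) + l < 2 * M - 1
    · have h1 : L f = 0 := hf0
      exact congrFun h1 ⟨a.1, mem_filter.2 ⟨a.2, ha⟩⟩
    · exact hf f.1 f.2 a (not_lt.1 ha)
  have h1 := LinearMap.finrank_le_finrank_of_injective hL
  rw [Module.finrank_fintype_fun_eq_card, Fintype.card_coe] at h1
  exact (gd_le (LS M β l) m p₀).trans h1

theorem spanP_LS (M : ℕ) (β : ν → ℕ) (l : ℕ) :
    SpanP (LS M β l) (fun k => k.Ok M l) (dzb M β l) :=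
  fun _ _ m φ hm hφ h => span_LS M β l m hm φ hφ h

end

/-- The number of the exponents of the level `l` whose degree in the variables of the blocks `≥ l` is
less than `2 M - 1 - l`, for the canonical variables. -/
def dz (M c l n : ℕ) : ℕ :=
  ((Ex (blk c n) (2 * M - 1) l).filter fun a =>
    ∑ s ∈ univ.filter (fun s => l ≤ blk c n s), a s < 2 * M - 1 - l).card

theorem dzb_blk (M c l n : ℕ) : dzb M (blk c n) l = dz M c l n := by
  unfold dzb dz
  congr 1
  refine filter_congr fun a _ => ?_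
  omega

/-- The span property of the level `l`, for the canonical variables. -/
theorem spanP_blk (M c l n : ℕ) :
    SpanP (LS M (blk c n) l) (fun k => k.Ok M l) (dz M c l n) := by
  rw [← dzb_blk]
  exact spanP_LS M (blk c n) l

end Pool.Agent.V7

end

section

/-!
# V7, block ALPHA, N3: the number of exponents which are not linear in all blocks

Such an exponent is the sum of one variable in every block `i < l`, one more variable of these blocks
and `2M - 2 - l` arbitrary variables.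
-/

set_option autoImplicit false

namespace Pool.Agent.V7

open Finset

namespace N3X

variable {n : ℕ}

/-- The indicator of the variable with the number `m`. -/
def ev (n m : ℕ) : Fin n → ℕ := fun s => if s.1 = m then 1 else 0

theorem sum_ev (s : Fin n) (P : Fin n → Prop) [DecidablePred P] (h : P s) :
    ∑ t ∈ univ.filter P, ev n s.1 t = 1 := by
  rw [Finset.sum_eq_single_of_mem s (mem_filter.2 ⟨mem_univ s, h⟩)]
  · unfold ev
    rw [if_pos rfl]
  · intro t _ ht
    unfold ev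
    rw [if_neg fun h => ht (Fin.ext h)]

theorem exists_seq (d : ℕ) : ∀ a : Fin n → ℕ, ∑ s, a s = d →
    ∃ u : Fin d → Fin n, ∀ s, a s = ∑ t, ev n (u t).1 s := by
  induction d with
  | zero =>
    intro a ha
    refine ⟨fun t => t.elim0, fun s => ?_⟩
    have h1 := (sum_eq_zero_iff.1 ha) s (mem_univ s)
    rw [h1]
    simp
  | succ d ih =>
    intro a ha
    obtain ⟨s₀, hs₀⟩ : ∃ s, a s ≠ 0 := by
      by_contra h
      push Not at h
      rw [sum_eq_zero fun s _ => h s] at ha
      omega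
    have h1 : ∀ s, a s = (a s - ev n s₀.1 s) + ev n s₀.1 s := by
      intro s
      refine (Nat.sub_add_cancel ?_).symm
      unfold ev
      split_ifs with h
      · rw [Fin.ext h]
        omega
      · exact Nat.zero_le _
    have h2 : ∑ s, (a s - ev n s₀.1 s) = d := by
      have h3 : ∑ s, a s = ∑ s, (a s - ev n s₀.1 s) + ∑ s, ev n s₀.1 s := by
        rw [← sum_add_distrib]
        exact sum_congr rfl fun s _ => h1 s
      have h4 : ∑ s, ev n s₀.1 s = 1 := by
        have h5 := sum_ev s₀ (fun _ => True) trivial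
        rwa [filter_true] at h5
      omega
    obtain ⟨u, hu⟩ := ih _ h2
    refine ⟨Fin.cons s₀ u, fun s => ?_⟩
    rw [Fin.sum_univ_succ]
    simp only [Fin.cons_zero, Fin.cons_succ]
    rw [← hu s, add_comm]
    exact h1 s

end N3X

open N3X

theorem dz_le (M c l n : ℕ) (hc : 1 ≤ c) (hl : l + 2 ≤ 2 * M) :
    dz M c l n ≤ c ^ l * (l * c) * n ^ (2 * M - 2 - l) := by
  classical
  let F : (Fin l → Fin c) × Fin (l * c) × (Fin (2 * M - 2 - l) → Fin n) → Fin n → ℕ := fun x s =>
    ∑ i : Fin l, ev n (i.1 * c + (x.1 i).1) s + ev n x.2.1.1 s + ∑ t, ev n (x.2.2 t).1 s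
  have hF : ((Ex (blk c n) (2 * M - 1) l).filter fun a =>
      ∑ s ∈ univ.filter (fun s => l ≤ blk c n s), a s < 2 * M - 1 - l) ⊆ univ.image F := by
    intro a ha
    rw [mem_filter] at ha
    obtain ⟨ha1, ha2⟩ := ha
    obtain ⟨ha3, ha4⟩ := mem_Ex.1 ha1
    have ha5 : ∀ i : Fin l, ∃ s, blk c n s = i.1 ∧ a s ≠ 0 := fun i => ha4 i.1 i.2
    choose g hg1 hg2 using ha5
    have hgt : ∀ i : Fin l, (g i).1 = i.1 * c + (g i).1 % c := by
      intro i
      have h1 := Nat.div_add_mod' (g i).1 c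
      have h2 : (g i).1 / c = i.1 := hg1 i
      rw [h2] at h1
      exact h1.symm
    set b : Fin n → ℕ := fun s => ∑ i : Fin l, ev n (g i).1 s with hb
    have hinj : ∀ i j : Fin l, g i = g j → i = j := by
      intro i j h
      refine Fin.ext ?_
      rw [← hg1 i, ← hg1 j, h]
    have hb1 : ∀ s, b s ≤ a s := by
      intro s
      by_cases h : ∃ i : Fin l, g i = s
      · obtain ⟨i, rfl⟩ := h
        have h1 : b (g i) = 1 := by
          show ∑ j : Fin l, ev n (g j).1 (g i) = 1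
          rw [Finset.sum_eq_single_of_mem i (mem_univ i)]
          · unfold ev
            rw [if_pos rfl]
          · intro j _ hj
            unfold ev
            rw [if_neg fun h => hj (hinj j i (Fin.ext h.symm))]
        rw [h1]
        exact Nat.one_le_iff_ne_zero.2 (hg2 i)
      · have h1 : b s = 0 := by
          refine sum_eq_zero fun i _ => ?_
          unfold ev
          rw [if_neg fun h2 => h ⟨i, Fin.ext h2.symm⟩]
        rw [h1]
        exact Nat.zero_le _
    have hbs : ∀ P : Fin n → Prop, ∀ [DecidablePred P], (∀ i : Fin l, P (g i)) →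
        ∑ s ∈ univ.filter P, b s = l := by
      intro P _ hP
      show ∑ s ∈ univ.filter P, ∑ i : Fin l, ev n (g i).1 s = l
      rw [sum_comm, sum_congr rfl fun i _ => sum_ev (g i) P (hP i)]
      simp
    have hsplit : ∀ P : Fin n → Prop, ∀ [DecidablePred P],
        ∑ s ∈ univ.filter P, a s = ∑ s ∈ univ.filter P, (a s - b s) +
          ∑ s ∈ univ.filter P, b s := by
      intro P _
      rw [← sum_add_distrib]
      exact sum_congr rfl fun s _ => (Nat.sub_add_cancel (hb1 s)).symm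
    have h1 : ∑ s, (a s - b s) = 2 * M - 1 - l := by
      have h2 := hsplit fun _ => True
      have h3 := hbs (fun _ => True) fun _ => trivial
      rw [filter_true] at h2 h3
      omega
    have h2 : 1 ≤ ∑ s ∈ univ.filter (fun s => blk c n s < l), (a s - b s) := by
      have h3 := hsplit fun s => blk c n s < l
      have h4 := hbs (fun s => blk c n s < l) fun i => by
        rw [hg1 i]
        exact i.2
      have h5 := Finset.sum_filter_add_sum_filter_not univ (fun s => l ≤ blk c n s) a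
      have h6 : (univ.filter fun s => ¬ l ≤ blk c n s) = univ.filter fun s => blk c n s < l :=
        filter_congr fun s _ => not_le
      rw [h6, ha3] at h5
      omega
    obtain ⟨s₀, hs₀, hs₁⟩ : ∃ s ∈ univ.filter (fun s => blk c n s < l), a s - b s ≠ 0 := by
      by_contra h
      push Not at h
      rw [sum_eq_zero h] at h2
      omega
    rw [mem_filter] at hs₀
    have h3 : ∀ s, a s - b s = (a s - b s - ev n s₀.1 s) + ev n s₀.1 s := by
      intro s
      refine (Nat.sub_add_cancel ?_).symm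
      unfold ev
      split_ifs with h
      · rw [Fin.ext h]
        omega
      · exact Nat.zero_le _
    have h4 : ∑ s, (a s - b s - ev n s₀.1 s) = 2 * M - 2 - l := by
      have h5 : ∑ s, (a s - b s) = ∑ s, (a s - b s - ev n s₀.1 s) + ∑ s, ev n s₀.1 s := by
        rw [← sum_add_distrib]
        exact sum_congr rfl fun s _ => h3 s
      have h6 : ∑ s, ev n s₀.1 s = 1 := by
        have h7 := sum_ev s₀ (fun _ => True) trivial
        rwa [filter_true] at h7
      omega
    obtain ⟨u, hu⟩ := exists_seq _ _ h4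
    have hr : s₀.1 < l * c := (Nat.div_lt_iff_lt_mul hc).1 hs₀.2
    rw [mem_image]
    refine ⟨(fun i => ⟨(g i).1 % c, Nat.mod_lt _ hc⟩, ⟨s₀.1, hr⟩, u), mem_univ _, ?_⟩
    funext s
    show ∑ i : Fin l, ev n (i.1 * c + (g i).1 % c) s + ev n s₀.1 s + ∑ t, ev n (u t).1 s = a s
    have h5 : ∑ i : Fin l, ev n (i.1 * c + (g i).1 % c) s = b s :=
      sum_congr rfl fun i _ => by rw [← hgt i]
    rw [h5, ← hu s]
    have h6 := h3 s
    have h7 := hb1 s
    omega
  have hcard : dz M c l n ≤ (univ.image F).card := card_le_card hF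
  refine hcard.trans (card_image_le.trans (le_of_eq ?_))
  rw [card_univ, Fintype.card_prod, Fintype.card_prod, Fintype.card_fun, Fintype.card_fun,
    Fintype.card_fin, Fintype.card_fin, Fintype.card_fin, Fintype.card_fin, Fintype.card_fin]
  ring

end Pool.Agent.V7

end

section

/-!
# V7, block DH: the differential Horace step for configurations of kinds
-/

set_option autoImplicit false
set_option linter.unusedSectionVars false

namespace Pool.Agent.V7

open Finset MvPolynomial Pool.Agent.H51.TB Pool.Agent.H54.V7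
open Pool.Agent.H18.Ex (tcr)

section

variable {ν : Type} [Fintype ν] [DecidableEq ν]

theorem mem_Bj {β : ν → ℕ} {j : ℕ} {s : ν} : s ∈ Bj β j ↔ β s = j := by
  rw [mem_filter]
  exact ⟨fun h => h.2, fun h => ⟨mem_univ s, h⟩⟩

/-- The trace of the conditions of a point of the subspace. -/
theorem SatK_trace (M : ℕ) (β : ν → ℕ) (j : ℕ) (A : Finset (ν → ℕ)) (k : Kd) (q : ν ⊕ ν → ℂ)
    (f : {a // a ∈ A} → ℂ) (h : SatK M β k (mq β j q) f) :
    SatK M β k q (rs (filter_subset (fun a : ν → ℕ => ∀ s ∈ Bj β j, a s = 0) A) f) := by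
  have h1 : ∀ (I : Finset ℕ) (g : ν → ℂ), ∀ s ∈ Bj β j, msk β I (msk β {j} g) s = 0 := by
    intro I g s hs
    unfold msk
    rw [mem_Bj] at hs
    split_ifs with h2 h3
    · rfl
    · rfl
    · exact absurd (mem_singleton.2 hs) h3
  have h2 : ∀ (I : Finset ℕ) (g : ν → ℂ), ∀ s, s ∉ Bj β j →
      msk β I g s = msk β I (msk β {j} g) s := by
    intro I g s hs
    unfold msk
    rw [mem_Bj] at hs
    split_ifs with h2 h3
    · rfl
    · exact absurd (mem_singleton.1 h3) hs
    · rfl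
  rcases k with ⟨μ, I⟩ | ⟨i, I⟩
  · exact Fat_trace β j A μ f _ _ (h1 I _) (h2 I _) h
  · exact ⟨Fat_trace β j A M f _ _ (h1 (insert i I) _) (h2 (insert i I) _) h.1,
      Sw_trace β j A M (2 * M) _ f _ _ _ _ (h1 (insert i I) _) (h2 (insert i I) _) (h1 I _)
        (h2 I _) h.2⟩

/-- The residual of the conditions of a point of the subspace. -/
theorem SatK_resid_add (M : ℕ) (β : ν → ℕ) (j : ℕ) (A : Finset (ν → ℕ)) (k : Kd)
    (q : ν ⊕ ν → ℂ) (f : {a // a ∈ A} → ℂ)
    (hf : ∀ e : {a // a ∈ A}, (∀ s ∈ Bj β j, e.1 s = 0) → f e = 0)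
    (h : SatK M β k (mq β j q) f) :
    SatK M β (k.add j) q (rs (filter_subset (fun a : ν → ℕ => ¬ ∀ s ∈ Bj β j, a s = 0) A) f) := by
  have h1 : ∀ (I : Finset ℕ) (g : ν → ℂ), msk β I (msk β {j} g) = msk β (insert j I) g := by
    intro I g
    funext s
    unfold msk
    by_cases h2 : β s ∈ I
    · rw [if_pos h2, if_pos (mem_insert_of_mem h2)]
    · rw [if_neg h2]
      by_cases h3 : β s = j
      · rw [if_pos (mem_singleton.2 h3), if_pos (mem_insert.2 (Or.inl h3))]
      · rw [if_neg (fun h => h3 (mem_singleton.1 h)), if_neg]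
        intro h
        rcases mem_insert.1 h with h | h
        · exact h3 h
        · exact h2 h
  rcases k with ⟨μ, I⟩ | ⟨i, I⟩
  · have h2 : Fat (fun e : {a // a ∈ A} => e.1) μ (msk β I (msk β {j} fun s => q (Sum.inl s))) f :=
      h
    rw [h1] at h2
    exact Fat_resid β j A μ f hf _ h2
  · have h2 : Fat (fun e : {a // a ∈ A} => e.1) M
        (msk β (insert i I) (msk β {j} fun s => q (Sum.inl s))) f := h.1
    have h3 : Sw (fun e : {a // a ∈ A} => e.1) M (2 * M) (univ.filter fun s => β s = i)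
        (msk β (insert i I) (msk β {j} fun s => q (Sum.inl s)))
        (msk β I (msk β {j} fun s => q (Sum.inr s))) f := h.2
    rw [h1, insert_comm] at h2
    rw [h1, h1, insert_comm] at h3
    exact ⟨Fat_resid β j A M f hf _ h2, Sw_resid β j A M (2 * M) _ f hf _ _ h3⟩

/-- The residual of the conditions of any point. -/
theorem SatK_resid (M : ℕ) (β : ν → ℕ) (j : ℕ) (A : Finset (ν → ℕ)) (k : Kd)
    (q : ν ⊕ ν → ℂ) (f : {a // a ∈ A} → ℂ)
    (hf : ∀ e : {a // a ∈ A}, (∀ s ∈ Bj β j, e.1 s = 0) → f e = 0)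
    (h : SatK M β k q f) :
    SatK M β k q (rs (filter_subset (fun a : ν → ℕ => ¬ ∀ s ∈ Bj β j, a s = 0) A) f) := by
  rcases k with ⟨μ, I⟩ | ⟨i, I⟩
  · exact Fat_resid β j A μ f hf _ h
  · exact ⟨Fat_resid β j A M f hf _ h.1, Sw_resid β j A M (2 * M) _ f hf _ _ h.2⟩

theorem msk_empty (β : ν → ℕ) (g : ν → ℂ) : msk β ∅ g = g := by
  funext s
  unfold msk
  rw [if_neg (notMem_empty _)]

/-- **The differential Horace step**, for families of points. -/
theorem dh_gd (M : ℕ) (hM : 1 ≤ M) (β : ν → ℕ) (j : ℕ) (A : Finset (ν → ℕ))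
    (hA : ∀ a ∈ A, ∀ s, a s < 2 * M) {κL κO : Type} [Fintype κL] [Fintype κO]
    (mL : κL → Kd) (mO : κO → Kd) (y a : ℕ)
    (h0 : (LSA M β (A0 β j A)).gd (Sum.elim mL fun _ : Fin y ⊕ Fin a => Kd.sm) = 0) :
    (LSA M β A).gd (Sum.elim mL (Sum.elim mO (Sum.elim (fun _ : Fin y => Kd.ord M ∅)
      fun _ : Fin a => Kd.sm))) ≤
      (LSA M β (A1 β j A)).gd (Sum.elim (fun x => (mL x).add j)
        (Sum.elim mO fun _ : Fin y => Kd.sw j ∅)) := by
  classical
  -- the positions
  obtain ⟨P, hP1, hP2⟩ : ∃ P : κL ⊕ (κO ⊕ (Fin y ⊕ Fin a)) → ν ⊕ ν → ℂ,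
      Module.finrank ℂ ((LSA M β (A0 β j A)).V (Sum.elim mL fun _ : Fin y ⊕ Fin a => Kd.sm)
        fun x => P (Sum.map id Sum.inr x)) = 0 ∧
      Module.finrank ℂ ((LSA M β (A1 β j A)).V (Sum.elim (fun x => (mL x).add j)
        (Sum.elim mO fun _ : Fin y => Kd.sw j ∅))
        fun x => P (Sum.map id (Sum.map id Sum.inl) x)) =
      (LSA M β (A1 β j A)).gd (Sum.elim (fun x => (mL x).add j)
        (Sum.elim mO fun _ : Fin y => Kd.sw j ∅)) := by
    have g1 := (gn_gd (LSA M β (A0 β j A)) (Sum.elim mL fun _ : Fin y ⊕ Fin a => Kd.sm)).comap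
      (Sum.map id Sum.inr : κL ⊕ (Fin y ⊕ Fin a) → κL ⊕ (κO ⊕ (Fin y ⊕ Fin a)))
      (Sum.map_injective.2 ⟨Function.injective_id, Sum.inr_injective⟩)
    have g2 := (gn_gd (LSA M β (A1 β j A)) (Sum.elim (fun x => (mL x).add j)
      (Sum.elim mO fun _ : Fin y => Kd.sw j ∅))).comap
      (Sum.map id (Sum.map id Sum.inl) : κL ⊕ (κO ⊕ Fin y) → κL ⊕ (κO ⊕ (Fin y ⊕ Fin a)))
      (Sum.map_injective.2 ⟨Function.injective_id,
        Sum.map_injective.2 ⟨Function.injective_id, Sum.inl_injective⟩⟩)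
    obtain ⟨P, h1, h2⟩ := (g1.and g2).exists
    rw [h0] at h1
    exact ⟨P, h1, h2⟩
  set p : Fin y → ν → ℂ := fun s => msk β {j} fun x => P (Sum.inr (Sum.inr (Sum.inl s))) (Sum.inl x)
    with hp
  set v : Fin y → ν → ℂ := fun s x => P (Sum.inr (Sum.inr (Sum.inl s))) (Sum.inr x) with hv
  set W : Submodule ℂ ({a // a ∈ A} → ℂ) :=
    (LSA M β A).V (Sum.elim mL (Sum.elim mO fun _ : Fin a => Kd.sm))
      (Sum.elim (fun i => mq β j (P (Sum.inl i))) (Sum.elim (fun i => P (Sum.inr (Sum.inl i)))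
        fun i => mq β j (P (Sum.inr (Sum.inr (Sum.inr i)))))) with hW
  have hpB : ∀ s, ∀ x ∈ Bj β j, p s x = 0 := by
    intro s x hx
    rw [hp]
    show msk β {j} _ x = 0
    unfold msk
    rw [if_pos (mem_singleton.2 (mem_Bj.1 hx))]
  have hWL : ∀ f ∈ W, ∀ i, SatK M β (mL i) (mq β j (P (Sum.inl i))) f := by
    intro f hf i
    rw [hW, mem_LSA] at hf
    exact hf (Sum.inl i)
  have hWO : ∀ f ∈ W, ∀ i, SatK M β (mO i) (P (Sum.inr (Sum.inl i))) f := by
    intro f hf i
    rw [hW, mem_LSA] at hf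
    exact hf (Sum.inr (Sum.inl i))
  have hWa : ∀ f ∈ W, ∀ i, SatK M β Kd.sm (mq β j (P (Sum.inr (Sum.inr (Sum.inr i))))) f := by
    intro f hf i
    rw [hW, mem_LSA] at hf
    exact hf (Sum.inr (Sum.inr i))
  obtain ⟨t, ht⟩ := dh_step (fun e : {a // a ∈ A} => e.1) M (2 * M) hM (fun e i => hA e.1 e.2 i)
    (Bj β j) W p v hpB (by
    intro f hf hsim e he
    have h1 : rs (filter_subset (fun a : ν → ℕ => ∀ s ∈ Bj β j, a s = 0) A) f ∈
        (LSA M β (A0 β j A)).V (Sum.elim mL fun _ : Fin y ⊕ Fin a => Kd.sm)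
          fun x => P (Sum.map id Sum.inr x) := by
      rw [mem_LSA]
      rintro (i | i | i)
      · exact SatK_trace M β j A (mL i) (P (Sum.inl i)) f (hWL f hf i)
      · show SatK M β Kd.sm (P (Sum.inr (Sum.inr (Sum.inl i)))) _
        intro b hb
        have hb0 : b = 0 := by
          funext x
          have h2 : b x ≤ ∑ x, b x := single_le_sum (f := b) (fun _ _ => Nat.zero_le _) (mem_univ x)
          have h3 : b x = 0 := by omega
          rw [h3]
          rfl
        have h2 : TC (fun e : {a // a ∈ A0 β j A} => e.1)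
            (rs (filter_subset (fun a : ν → ℕ => ∀ s ∈ Bj β j, a s = 0) A) f)
            (msk β ∅ fun x => P (Sum.inr (Sum.inr (Sum.inl i))) (Sum.inl x)) b = 0 := by
          rw [hb0, TC_A0 β j A _ _ (p i), TC_trace β j A f (p i) (hpB i) 0 (fun _ _ => rfl)]
          · refine Eq.trans ?_ (hsim i)
            unfold TC
            symm
            refine sum_subset (filter_subset _ _) fun e _ he => ?_
            rw [mem_filter] at he
            rw [tcr_off (Bj β j) (p i) (hpB i) e.1 0 (fun _ _ => rfl), mul_zero]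
            intro h3
            exact he ⟨mem_univ e, h3⟩
          · intro x hx
            rw [msk_empty, hp]
            show _ = msk β {j} (fun x => P (Sum.inr (Sum.inr (Sum.inl i))) (Sum.inl x)) x
            unfold msk
            rw [if_neg fun h3 => hx (mem_Bj.2 (mem_singleton.1 h3))]
        exact h2
      · exact SatK_trace M β j A Kd.sm (P (Sum.inr (Sum.inr (Sum.inr i)))) f (hWa f hf i)
    rw [Submodule.finrank_eq_zero.1 hP1, Submodule.mem_bot] at h1
    exact congrFun h1 ⟨e.1, mem_filter.2 ⟨e.2, he⟩⟩)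
  set Q : κL ⊕ (κO ⊕ (Fin y ⊕ Fin a)) → ν ⊕ ν → ℂ :=
    Sum.elim (fun i => mq β j (P (Sum.inl i))) (Sum.elim (fun i => P (Sum.inr (Sum.inl i)))
      (Sum.elim (fun s => Sum.elim (fun x => p s x + t * v s x) 0)
        fun i => mq β j (P (Sum.inr (Sum.inr (Sum.inr i)))))) with hQ
  refine (gd_le _ _ Q).trans ?_
  refine (Submodule.finrank_mono (t := fatSub W (fun e : {a // a ∈ A} => e.1) M
    fun s i => p s i + t * v s i) ?_).trans (ht.trans ?_)
  · intro f hf
    rw [mem_LSA] at hf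
    refine ⟨?_, fun s => ?_⟩
    · rw [hW, mem_LSA]
      rintro (i | i | i)
      · exact hf (Sum.inl i)
      · exact hf (Sum.inr (Sum.inl i))
      · exact hf (Sum.inr (Sum.inr (Sum.inr i)))
    · have h1 : Fat (fun e : {a // a ∈ A} => e.1) M (msk β ∅ fun x => p s x + t * v s x) f :=
        hf (Sum.inr (Sum.inr (Sum.inl s)))
      rw [msk_empty] at h1
      exact h1
  · rw [← hP2]
    let L : resSub W (fun e : {a // a ∈ A} => e.1) M (2 * M) (Bj β j) p v →ₗ[ℂ]
        (LSA M β (A1 β j A)).V (Sum.elim (fun x => (mL x).add j)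
        (Sum.elim mO fun _ : Fin y => Kd.sw j ∅))
        fun x => P (Sum.map id (Sum.map id Sum.inl) x) :=
      { toFun := fun f => ⟨rs (filter_subset (fun a : ν → ℕ => ¬ ∀ s ∈ Bj β j, a s = 0) A) f.1, by
          obtain ⟨f, hfW, hf0, hfF, hfS⟩ := f
          rw [mem_LSA]
          rintro (i | i | i)
          · exact SatK_resid_add M β j A (mL i) (P (Sum.inl i)) f hf0 (hWL f hfW i)
          · exact SatK_resid M β j A (mO i) (P (Sum.inr (Sum.inl i))) f hf0 (hWO f hfW i)
          · have e1 : (insert j ∅ : Finset ℕ) = {j} := insert_empty_eq j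
            show SatK M β (Kd.sw j ∅) (P (Sum.inr (Sum.inr (Sum.inl i)))) _
            refine ⟨?_, ?_⟩
            · rw [e1]
              exact Fat_resid β j A M f hf0 (p i) (hfF i)
            · rw [e1, msk_empty]
              exact Sw_resid β j A M (2 * M) _ f hf0 (p i) (v i) (hfS i)⟩
        map_add' := fun _ _ => rfl
        map_smul' := fun _ _ => rfl }
    refine LinearMap.finrank_le_finrank_of_injective (f := L) ?_
    intro f f' hff
    have h1 : ∀ e : {a // a ∈ A1 β j A}, rs (filter_subset _ A) f.1 e =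
        rs (filter_subset _ A) f'.1 e := fun e => congrFun (congrArg Subtype.val hff) e
    apply Subtype.ext
    funext e
    by_cases he : ∀ s ∈ Bj β j, e.1 s = 0
    · rw [f.2.2.1 e he, f'.2.2.1 e he]
    · exact h1 ⟨e.1, mem_filter.2 ⟨e.2, he⟩⟩

end

end Pool.Agent.V7

end

section

/-!
# V7, block DH: the differential Horace step for multisets of kinds, `n` numbered variables
-/

set_option autoImplicit false
set_option linter.unusedSectionVars false

namespace Pool.Agent.V7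

open Finset MvPolynomial Pool.Agent.H51.TB Pool.Agent.H54.V7 Pool.Agent.V7.ST
open Pool.Agent.H18.Ex (tcr)

section

variable {ν ν' : Type} [Fintype ν] [DecidableEq ν] [Fintype ν'] [DecidableEq ν']

/-- Extension by zero of an exponent. -/
noncomputable def xt (σ : ν' → ν) (a : ν' → ℕ) : ν → ℕ := Function.extend σ a 0

theorem xt_apply {σ : ν' → ν} (hσ : Function.Injective σ) (a : ν' → ℕ) (s : ν') :
    xt σ a (σ s) = a s := hσ.extend_apply a 0 s

theorem xt_zero {σ : ν' → ν} (a : ν' → ℕ) (s : ν) (h : ¬ ∃ x, σ x = s) : xt σ a s = 0 := by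
  unfold xt
  rw [Function.extend_apply' _ _ _ h]
  rfl

theorem xt_comp {σ : ν' → ν} (hσ : Function.Injective σ) (a : ν → ℕ)
    (h : ∀ s, (¬ ∃ x, σ x = s) → a s = 0) : xt σ (fun x => a (σ x)) = a := by
  funext s
  by_cases hs : ∃ x, σ x = s
  · obtain ⟨x, rfl⟩ := hs
    rw [xt_apply hσ]
  · rw [xt_zero _ _ hs, h s hs]

theorem sum_xt {σ : ν' → ν} (hσ : Function.Injective σ) (a : ν' → ℕ) :
    ∑ s, xt σ a s = ∑ x, a x := by
  symm
  refine Fintype.sum_of_injective σ hσ _ _ ?_ fun x => ?_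
  · intro s hs
    exact xt_zero a s hs
  · rw [xt_apply hσ]

theorem tcr_xt {σ : ν' → ν} (hσ : Function.Injective σ) (p : ν → ℂ) (a b : ν' → ℕ) :
    tcr p (xt σ a) (xt σ b) = tcr (fun x => p (σ x)) a b := by
  unfold tcr
  symm
  refine Fintype.prod_of_injective σ hσ _ _ ?_ fun x => ?_
  · intro s hs
    rw [xt_zero a s hs, xt_zero b s hs]
    simp
  · rw [xt_apply hσ, xt_apply hσ]

/-- The exponents of the trace, with the variables of the block left out. -/
theorem mem_xt {β : ν → ℕ} {β' : ν' → ℕ} {j d : ℕ} {σ : ν' → ν} (hσ : Function.Injective σ)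
    (him : ∀ s, (∃ x, σ x = s) ↔ β s ≠ j) (hβ : ∀ x, ∀ i < j, β (σ x) = i ↔ β' x = i)
    (a : ν' → ℕ) : xt σ a ∈ A0 β j (Ex β d j) ↔ a ∈ Ex β' d j := by
  rw [mem_filter, mem_Ex, mem_Ex, sum_xt hσ]
  constructor
  · rintro ⟨⟨h1, h2⟩, -⟩
    refine ⟨h1, fun i hi => ?_⟩
    obtain ⟨s, hs, h3⟩ := h2 i hi
    obtain ⟨x, rfl⟩ := (him s).2 (by omega)
    rw [xt_apply hσ] at h3
    exact ⟨x, (hβ x i hi).1 hs, h3⟩
  · rintro ⟨h1, h2⟩
    refine ⟨⟨h1, fun i hi => ?_⟩, fun s hs => ?_⟩
    · obtain ⟨x, hx, h3⟩ := h2 i hi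
      refine ⟨σ x, (hβ x i hi).2 hx, ?_⟩
      rw [xt_apply hσ]
      exact h3
    · rw [mem_Bj] at hs
      refine xt_zero a s fun h => ?_
      exact (him s).1 h hs

/-- A trace exponent as an exponent in the remaining variables. -/
noncomputable def xtE {β : ν → ℕ} {β' : ν' → ℕ} {j d : ℕ} {σ : ν' → ν}
    (hσ : Function.Injective σ) (him : ∀ s, (∃ x, σ x = s) ↔ β s ≠ j)
    (hβ : ∀ x, ∀ i < j, β (σ x) = i ↔ β' x = i) (a : {a // a ∈ Ex β' d j}) :
    {a // a ∈ A0 β j (Ex β d j)} := ⟨xt σ a.1, (mem_xt hσ him hβ a.1).2 a.2⟩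

theorem TC_xt {β : ν → ℕ} {β' : ν' → ℕ} {j d : ℕ} {σ : ν' → ν}
    (hσ : Function.Injective σ) (him : ∀ s, (∃ x, σ x = s) ↔ β s ≠ j)
    (hβ : ∀ x, ∀ i < j, β (σ x) = i ↔ β' x = i)
    (f : {a // a ∈ A0 β j (Ex β d j)} → ℂ) (p : ν → ℂ) (b : ν' → ℕ) :
    TC (fun e : {a // a ∈ Ex β' d j} => e.1) (fun a => f (xtE hσ him hβ a)) (fun x => p (σ x)) b =
      TC (fun e : {a // a ∈ A0 β j (Ex β d j)} => e.1) f p (xt σ b) := by
  unfold TC
  refine Fintype.sum_of_injective (xtE hσ him hβ) ?_ _ _ ?_ fun e => ?_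
  · intro a a' h
    apply Subtype.ext
    funext x
    have h1 : xt σ a.1 = xt σ a'.1 := congrArg Subtype.val h
    have h2 := congrFun h1 (σ x)
    rwa [xt_apply hσ, xt_apply hσ] at h2
  · intro e he
    exfalso
    apply he
    have h1 : xt σ (fun x => e.1 (σ x)) = e.1 := by
      refine xt_comp hσ e.1 fun s hs => ?_
      refine (mem_filter.1 e.2).2 s (mem_Bj.2 ?_)
      by_contra h2
      exact hs ((him s).2 h2)
    refine ⟨⟨fun x => e.1 (σ x), (mem_xt hσ him hβ _).1 (by rw [h1]; exact e.2)⟩, ?_⟩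
    exact Subtype.ext h1
  · show f (xtE hσ him hβ e) * tcr (fun x => p (σ x)) e.1 b =
      f (xtE hσ him hβ e) * tcr p (xt σ e.1) (xt σ b)
    rw [tcr_xt hσ]

theorem msk_xt {β : ν → ℕ} {β' : ν' → ℕ} {j : ℕ} {σ : ν' → ν}
    (hβ : ∀ x, ∀ i < j, β (σ x) = i ↔ β' x = i) (I : Finset ℕ) (hI : ∀ i ∈ I, i < j)
    (p : ν → ℂ) : (fun x => msk β I p (σ x)) = msk β' I fun x => p (σ x) := by
  funext x
  unfold msk
  have h : β (σ x) ∈ I ↔ β' x ∈ I := by
    constructor
    · intro h
      rwa [← (hβ x _ (hI _ h)).1 rfl] at h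
    · intro h
      rwa [← (hβ x _ (hI _ h)).2 rfl] at h
  by_cases h1 : β (σ x) ∈ I
  · rw [if_pos h1, if_pos (h.1 h1)]
  · rw [if_neg h1, if_neg fun h2 => h1 (h.2 h2)]

theorem Fat_xt {β : ν → ℕ} {β' : ν' → ℕ} {j d : ℕ} {σ : ν' → ν}
    (hσ : Function.Injective σ) (him : ∀ s, (∃ x, σ x = s) ↔ β s ≠ j)
    (hβ : ∀ x, ∀ i < j, β (σ x) = i ↔ β' x = i)
    (f : {a // a ∈ A0 β j (Ex β d j)} → ℂ) (p : ν → ℂ) (μ : ℕ)
    (h : Fat (fun e : {a // a ∈ A0 β j (Ex β d j)} => e.1) μ p f) :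
    Fat (fun e : {a // a ∈ Ex β' d j} => e.1) μ (fun x => p (σ x))
      fun a => f (xtE hσ him hβ a) := by
  intro b hb
  show TC (fun e : {a // a ∈ Ex β' d j} => e.1) (fun a => f (xtE hσ him hβ a))
    (fun x => p (σ x)) b = 0
  rw [TC_xt hσ him hβ]
  exact h (xt σ b) (by rw [sum_xt hσ]; exact hb)

theorem Sw_xt {β : ν → ℕ} {β' : ν' → ℕ} {j d : ℕ} {σ : ν' → ν}
    (hσ : Function.Injective σ) (him : ∀ s, (∃ x, σ x = s) ↔ β s ≠ j)
    (hβ : ∀ x, ∀ i < j, β (σ x) = i ↔ β' x = i)
    (f : {a // a ∈ A0 β j (Ex β d j)} → ℂ) (p v : ν → ℂ) (M N : ℕ) (B : Finset ν) (B' : Finset ν')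
    (hB : ∀ x, σ x ∈ B → x ∈ B') (hBj : ∀ s ∈ B, β s ≠ j)
    (h : Sw (fun e : {a // a ∈ A0 β j (Ex β d j)} => e.1) M N B p v f) :
    Sw (fun e : {a // a ∈ Ex β' d j} => e.1) M N B' (fun x => p (σ x)) (fun x => v (σ x))
      fun a => f (xtE hσ him hβ a) := by
  intro a ha h1 h2
  have h3 := h (xt σ a) (by
    intro s hs
    obtain ⟨x, rfl⟩ := (him s).2 (hBj s hs)
    rw [xt_apply hσ]
    exact ha x (hB x hs)) (by rw [sum_xt hσ]; exact h1) (by rw [sum_xt hσ]; exact h2)
  refine Eq.trans ?_ h3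
  refine sum_of_injOn (xt σ) ?_ ?_ ?_ ?_
  · intro b _ b' _ hbb
    funext x
    have h4 := congrFun hbb (σ x)
    rwa [xt_apply hσ, xt_apply hσ] at h4
  · intro b hb
    rw [mem_coe] at hb ⊢
    unfold bxd at hb ⊢
    rw [mem_filter, mem_bx] at hb ⊢
    refine ⟨fun s => ?_, ?_⟩
    · by_cases hs : ∃ x, σ x = s
      · obtain ⟨x, rfl⟩ := hs
        rw [xt_apply hσ]
        exact hb.1 x
      · rw [xt_zero _ _ hs]
        by_cases hN : N = 0
        · exfalso
          subst hN
          by_cases hne : Nonempty ν'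
          · exact absurd (hb.1 hne.some) (Nat.not_lt_zero _)
          · have h5 : ∑ x, a x = 0 := sum_eq_zero fun x _ => absurd ⟨x⟩ hne
            omega
        · omega
    · rw [sum_xt hσ]
      exact hb.2
  · intro b hb hb'
    show tcr v b (xt σ a) * TC (fun e : {a // a ∈ A0 β j (Ex β d j)} => e.1) f p b = 0
    by_cases h5 : ∀ s ∈ Bj β j, b s = 0
    · exfalso
      apply hb'
      have h6 : xt σ (fun x => b (σ x)) = b := by
        refine xt_comp hσ b fun s hs => h5 s (mem_Bj.2 ?_)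
        by_contra h7
        exact hs ((him s).2 h7)
      refine ⟨fun x => b (σ x), ?_, h6⟩
      rw [mem_coe]
      unfold bxd at hb ⊢
      rw [mem_filter, mem_bx] at hb ⊢
      refine ⟨fun x => hb.1 (σ x), ?_⟩
      rw [← sum_xt hσ, h6]
      exact hb.2
    · rw [TC_A0_zero β j _ _ p b h5, mul_zero]
  · intro b _
    show tcr (fun x => v (σ x)) b a * TC (fun e : {a // a ∈ Ex β' d j} => e.1)
      (fun a => f (xtE hσ him hβ a)) (fun x => p (σ x)) b =
      tcr v (xt σ b) (xt σ a) * TC (fun e : {a // a ∈ A0 β j (Ex β d j)} => e.1) f p (xt σ b)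
    rw [TC_xt hσ him hβ, tcr_xt hσ]

/-- The trace system in the remaining variables. -/
theorem gd_A0_le (M : ℕ) {β : ν → ℕ} {β' : ν' → ℕ} {j : ℕ} {σ : ν' → ν}
    (hσ : Function.Injective σ) (him : ∀ s, (∃ x, σ x = s) ↔ β s ≠ j)
    (hβ : ∀ x, ∀ i < j, β (σ x) = i ↔ β' x = i) {κ : Type} (m : κ → Kd)
    (hm : ∀ i, (m i).Ok M j) :
    (LSA M β (A0 β j (Ex β (2 * M - 1) j))).gd m ≤ (LS M β' j).gd m := by
  obtain ⟨q, hq⟩ := gd_attained (LS M β' j) m
  set Q : κ → ν ⊕ ν → ℂ := fun i => Sum.elim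
    (Function.extend σ (fun x => q i (Sum.inl x)) 0) (Function.extend σ (fun x => q i (Sum.inr x)) 0)
    with hQ
  refine (gd_le _ _ Q).trans ?_
  rw [← hq]
  have e1 : ∀ i, (fun x => Q i (Sum.inl (σ x))) = fun x => q i (Sum.inl x) := by
    intro i
    funext x
    show Function.extend σ (fun x => q i (Sum.inl x)) 0 (σ x) = q i (Sum.inl x)
    exact hσ.extend_apply _ _ x
  have e2 : ∀ i, (fun x => Q i (Sum.inr (σ x))) = fun x => q i (Sum.inr x) := by
    intro i
    funext x
    show Function.extend σ (fun x => q i (Sum.inr x)) 0 (σ x) = q i (Sum.inr x)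
    exact hσ.extend_apply _ _ x
  have key : ∀ (i : κ) (k : Kd) (f : {a // a ∈ A0 β j (Ex β (2 * M - 1) j)} → ℂ), k.Ok M j →
      SatK M β k (Q i) f → SatK M β' k (q i) fun a => f (xtE hσ him hβ a) := by
    intro i k f h2 h1
    rcases k with ⟨μ, I⟩ | ⟨i', I⟩
    · have h3 : ∀ x ∈ I, x < j := fun x hx => mem_range.1 (h2.2.2 hx)
      have h4 := Fat_xt hσ him hβ f _ μ h1
      rw [msk_xt hβ I h3, e1] at h4
      exact h4
    · have h3 : ∀ x ∈ I, x < j := fun x hx => (mem_Ico.1 (h2.2 hx)).2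
      have h3' : ∀ x ∈ insert i' I, x < j := by
        intro x hx
        rcases mem_insert.1 hx with h | h
        · rw [h]
          exact h2.1
        · exact h3 x h
      have h4 := Fat_xt hσ him hβ f _ M h1.1
      have h5 := Sw_xt hσ him hβ f _ _ M (2 * M) _ (univ.filter fun s => β' s = i') (by
        intro x hx
        rw [mem_filter] at hx ⊢
        exact ⟨mem_univ x, (hβ x i' h2.1).1 hx.2⟩) (by
        intro s hs
        rw [mem_filter] at hs
        have := h2.1
        omega) h1.2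
      rw [msk_xt hβ _ h3', e1] at h4
      rw [msk_xt hβ _ h3', msk_xt hβ _ h3, e1, e2] at h5
      exact ⟨h4, h5⟩
  let L : (LSA M β (A0 β j (Ex β (2 * M - 1) j))).V m Q →ₗ[ℂ] (LS M β' j).V m q :=
    { toFun := fun f => ⟨fun a => f.1 (xtE hσ him hβ a), by
        obtain ⟨f, hf⟩ := f
        rw [mem_LSA] at hf
        rw [mem_LSA]
        intro i
        exact key i (m i) f (hm i) (hf i)⟩
      map_add' := fun _ _ => rfl
      map_smul' := fun _ _ => rfl }
  refine LinearMap.finrank_le_finrank_of_injective (f := L) ?_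
  intro f f' hff
  apply Subtype.ext
  funext e
  have h1 : xt σ (fun x => e.1 (σ x)) = e.1 := by
    refine xt_comp hσ e.1 fun s hs => ?_
    refine (mem_filter.1 e.2).2 s (mem_Bj.2 ?_)
    by_contra h2
    exact hs ((him s).2 h2)
  have h2 : (fun x => e.1 (σ x)) ∈ Ex β' (2 * M - 1) j :=
    (mem_xt hσ him hβ _).1 (by rw [h1]; exact e.2)
  have h3 : f.1 (xtE hσ him hβ ⟨fun x => e.1 (σ x), h2⟩) =
      f'.1 (xtE hσ him hβ ⟨fun x => e.1 (σ x), h2⟩) :=
    congrFun (congrArg Subtype.val hff) ⟨fun x => e.1 (σ x), h2⟩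
  have h4 : xtE hσ him hβ ⟨fun x => e.1 (σ x), h2⟩ = e := Subtype.ext h1
  rwa [h4] at h3

theorem A1_Ex (β : ν → ℕ) (d j : ℕ) : A1 β j (Ex β d j) = Ex β d (j + 1) := by
  ext a
  rw [mem_filter, mem_Ex, mem_Ex]
  constructor
  · rintro ⟨⟨h1, h2⟩, h3⟩
    refine ⟨h1, fun i hi => ?_⟩
    rcases Nat.lt_or_ge i j with h | h
    · exact h2 i h
    · have h4 : i = j := by omega
      subst h4
      push Not at h3
      obtain ⟨s, hs, h3⟩ := h3
      exact ⟨s, mem_Bj.1 hs, h3⟩
  · rintro ⟨h1, h2⟩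
    refine ⟨⟨h1, fun i hi => h2 i (by omega)⟩, fun h => ?_⟩
    obtain ⟨s, hs, h3⟩ := h2 j (by omega)
    exact h3 (h s (mem_Bj.2 hs))

end

/-- The variables off the block `j`. -/
def sg (c j n : ℕ) (hn : c ≤ n) (s : Fin (n - c)) : Fin n :=
  if h : s.1 < j * c then ⟨s.1, by omega⟩ else ⟨s.1 + c, by omega⟩

theorem sg_val (c j n : ℕ) (hn : c ≤ n) (s : Fin (n - c)) :
    (sg c j n hn s).1 = if s.1 < j * c then s.1 else s.1 + c := by
  unfold sg
  split_ifs <;> rfl

/-- **The differential Horace step** for multisets of kinds. -/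
theorem gM_dh (M c j n : ℕ) (hM : 1 ≤ M) (hc : 1 ≤ c) (hn : (j + 1) * c ≤ n)
    (sL sO : Multiset Kd) (y a : ℕ) (hL : ∀ τ ∈ sL, τ.Ok M j)
    (h0 : gM (LS M (blk c (n - c)) j) (sL + Multiset.replicate (y + a) Kd.sm) = 0) :
    gM (LS M (blk c n) j) (sL + sO + Multiset.replicate y (Kd.ord M ∅) +
      Multiset.replicate a Kd.sm) ≤
      gM (LS M (blk c n) (j + 1)) (sL.map (Kd.add j) + sO + Multiset.replicate y (Kd.sw j ∅)) := by
  classical
  have hcn : c ≤ n := by nlinarith
  obtain ⟨mL, hmL, -⟩ := exists_conf (LS M (blk c n) j) sL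
  obtain ⟨mO, hmO, -⟩ := exists_conf (LS M (blk c n) j) sO
  have hval := sg_val c j n hcn
  have hjc : (j + 1) * c = j * c + c := by ring
  have hinj : Function.Injective (sg c j n hcn) := by
    intro s s' h
    have h1 := congrArg Fin.val h
    rw [hval, hval] at h1
    apply Fin.ext
    split_ifs at h1 <;> omega
  have him : ∀ s : Fin n, (∃ x, sg c j n hcn x = s) ↔ blk c n s ≠ j := by
    intro s
    have hdiv : blk c n s = j ↔ j * c ≤ s.1 ∧ s.1 < (j + 1) * c := by
      show s.1 / c = j ↔ _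
      rw [Nat.div_eq_iff (by omega)]
      constructor
      · rintro ⟨h1, h2⟩
        constructor
        · exact h1
        · rw [hjc]
          omega
      · rintro ⟨h1, h2⟩
        rw [hjc] at h2
        exact ⟨h1, by omega⟩
    constructor
    · rintro ⟨x, rfl⟩ h
      have h1 := hdiv.1 h
      rw [hval] at h1
      split_ifs at h1 <;> omega
    · intro h
      rcases Nat.lt_or_ge s.1 (j * c) with h1 | h1
      · refine ⟨⟨s.1, by omega⟩, ?_⟩
        apply Fin.ext
        rw [hval, if_pos h1]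
      · have h2 : (j + 1) * c ≤ s.1 := by
          by_contra h3
          exact h (hdiv.2 ⟨h1, by omega⟩)
        have h3 := s.2
        refine ⟨⟨s.1 - c, by omega⟩, ?_⟩
        apply Fin.ext
        rw [hval, if_neg (by simp only; omega)]
        simp only
        omega
  have hβ : ∀ x, ∀ i < j, blk c n (sg c j n hcn x) = i ↔ blk c (n - c) x = i := by
    intro x i hi
    show (sg c j n hcn x).1 / c = i ↔ x.1 / c = i
    rw [hval]
    split_ifs with h
    · exact Iff.rfl
    · have h1 : j ≤ x.1 / c := (Nat.le_div_iff_mul_le (by omega)).2 (by omega)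
      have h2 : (x.1 + c) / c = x.1 / c + 1 := Nat.add_div_right _ (by omega)
      omega
  have hLm : ∀ i, (mL i).Ok M j := by
    intro i
    refine hL _ ?_
    rw [← hmL]
    exact Multiset.mem_map_of_mem _ (mem_univ i)
  have h1 : (LSA M (blk c n) (A0 (blk c n) j (Ex (blk c n) (2 * M - 1) j))).gd
      (Sum.elim mL fun _ : Fin y ⊕ Fin a => Kd.sm) = 0 := by
    have h2 := gd_A0_le M hinj him hβ (Sum.elim mL fun _ : Fin y ⊕ Fin a => Kd.sm) (by
      rintro (i | i)
      · exact hLm i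
      · exact ⟨le_rfl, hM, empty_subset _⟩)
    have h3 : (LS M (blk c (n - c)) j).gd (Sum.elim mL fun _ : Fin y ⊕ Fin a => Kd.sm) = 0 := by
      rw [gd_eq_gM, map_elim, hmL, ST.map_const, Fintype.card_sum, Fintype.card_fin, Fintype.card_fin]
      exact h0
    omega
  have h2 := dh_gd M hM (blk c n) j (Ex (blk c n) (2 * M - 1) j) (by
    intro e he s
    have h3 := (mem_Ex.1 he).1
    have h4 : e s ≤ ∑ s, e s := single_le_sum (f := e) (fun _ _ => Nat.zero_le _) (mem_univ s)
    omega) mL mO y a h1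
  rw [A1_Ex] at h2
  rw [gd_eq_gM, gd_eq_gM, map_elim, map_elim, map_elim, map_elim, map_elim, ST.map_const, ST.map_const,
    ST.map_const, hmL, hmO, Fintype.card_fin, Fintype.card_fin] at h2
  have h3 : (univ : Finset (Fin sL.toList.length)).val.map (fun x => (mL x).add j) =
      sL.map (Kd.add j) := by
    have h4 := congrArg (Multiset.map (Kd.add j)) hmL
    rw [Multiset.map_map] at h4
    exact h4
  rw [h3] at h2
  have e1 : sL + sO + Multiset.replicate y (Kd.ord M ∅) + Multiset.replicate a Kd.sm =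
      sL + (sO + (Multiset.replicate y (Kd.ord M ∅) + Multiset.replicate a Kd.sm)) := by
    simp only [add_assoc]
  have e2 : sL.map (Kd.add j) + sO + Multiset.replicate y (Kd.sw j ∅) =
      sL.map (Kd.add j) + (sO + Multiset.replicate y (Kd.sw j ∅)) := by
    simp only [add_assoc]
  rw [e1, e2]
  exact h2

end Pool.Agent.V7

end

section

/-!
# V7: the trace inequality for multisets of kinds, `n` numbered variables
-/

set_option autoImplicit false
set_option linter.unusedSectionVars false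
set_option linter.unusedVariables false

namespace Pool.Agent.V7

open Finset MvPolynomial Pool.Agent.H51.TB Pool.Agent.H54.V7 Pool.Agent.V7.ST
open Pool.Agent.H18.Ex (tcr)

section

variable {ν : Type} [Fintype ν] [DecidableEq ν]

/-- The trace inequality for families. -/
theorem gd_tr (M : ℕ) (β : ν → ℕ) (j : ℕ) (A : Finset (ν → ℕ)) {κL κO : Type} [Fintype κL]
    [Fintype κO] (mL : κL → Kd) (mO : κO → Kd) :
    (LSA M β A).gd (Sum.elim mL mO) ≤ (LSA M β (A0 β j A)).gd mL +
      (LSA M β (A1 β j A)).gd (Sum.elim (fun x => (mL x).add j) mO) := by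
  classical
  obtain ⟨P, hP1, hP2⟩ := ((gn_gd (LSA M β (A0 β j A)) mL).comap
    (Sum.inl : κL → κL ⊕ κO) Sum.inl_injective |>.and
    (gn_gd (LSA M β (A1 β j A)) (Sum.elim (fun x => (mL x).add j) mO))).exists
  rw [← hP1, ← hP2]
  set Q : κL ⊕ κO → ν ⊕ ν → ℂ :=
    Sum.elim (fun i => mq β j (P (Sum.inl i))) fun i => P (Sum.inr i) with hQ
  refine (gd_le _ _ Q).trans ?_
  refine finrank_split (fun e : {a // a ∈ A0 β j A} => (⟨e.1, (mem_filter.1 e.2).1⟩ : {a // a ∈ A}))
    (fun e : {a // a ∈ A1 β j A} => (⟨e.1, (mem_filter.1 e.2).1⟩ : {a // a ∈ A})) ?_ _ _ _ ?_ ?_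
  · intro e
    by_cases he : ∀ s ∈ Bj β j, e.1 s = 0
    · exact Or.inl ⟨⟨e.1, mem_filter.2 ⟨e.2, he⟩⟩, rfl⟩
    · exact Or.inr ⟨⟨e.1, mem_filter.2 ⟨e.2, he⟩⟩, rfl⟩
  · intro f hf
    rw [mem_LSA] at hf ⊢
    intro i
    exact SatK_trace M β j A (mL i) (P (Sum.inl i)) f (hf (Sum.inl i))
  · intro f hf hf0
    have hf1 : ∀ e : {a // a ∈ A}, (∀ s ∈ Bj β j, e.1 s = 0) → f e = 0 :=
      fun e he => hf0 ⟨e.1, mem_filter.2 ⟨e.2, he⟩⟩
    rw [mem_LSA] at hf ⊢
    rintro (i | i)
    · exact SatK_resid_add M β j A (mL i) (P (Sum.inl i)) f hf1 (hf (Sum.inl i))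
    · exact SatK_resid M β j A (mO i) (P (Sum.inr i)) f hf1 (hf (Sum.inr i))

end

/-- The inclusion of the variables off the block `j`. -/
theorem sg_facts (c j n : ℕ) (hc : 1 ≤ c) (hn : (j + 1) * c ≤ n) (hcn : c ≤ n) :
    Function.Injective (sg c j n hcn) ∧
      (∀ s : Fin n, (∃ x, sg c j n hcn x = s) ↔ blk c n s ≠ j) ∧
      ∀ x, ∀ i < j, blk c n (sg c j n hcn x) = i ↔ blk c (n - c) x = i := by
  have hval := sg_val c j n hcn
  have hjc : (j + 1) * c = j * c + c := by ring
  refine ⟨?_, ?_, ?_⟩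
  · intro s s' h
    have h1 := congrArg Fin.val h
    rw [hval, hval] at h1
    apply Fin.ext
    split_ifs at h1 <;> omega
  · intro s
    have hdiv : blk c n s = j ↔ j * c ≤ s.1 ∧ s.1 < (j + 1) * c := by
      show s.1 / c = j ↔ _
      rw [Nat.div_eq_iff (by omega)]
      constructor
      · rintro ⟨h1, h2⟩
        constructor
        · exact h1
        · rw [hjc]
          omega
      · rintro ⟨h1, h2⟩
        rw [hjc] at h2
        exact ⟨h1, by omega⟩
    constructor
    · rintro ⟨x, rfl⟩ h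
      have h1 := hdiv.1 h
      rw [hval] at h1
      split_ifs at h1 <;> omega
    · intro h
      rcases Nat.lt_or_ge s.1 (j * c) with h1 | h1
      · refine ⟨⟨s.1, by omega⟩, ?_⟩
        apply Fin.ext
        rw [hval, if_pos h1]
      · have h2 : (j + 1) * c ≤ s.1 := by
          by_contra h3
          exact h (hdiv.2 ⟨h1, by omega⟩)
        have h3 := s.2
        refine ⟨⟨s.1 - c, by omega⟩, ?_⟩
        apply Fin.ext
        rw [hval, if_neg (by simp only; omega)]
        simp only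
        omega
  · intro x i hi
    show (sg c j n hcn x).1 / c = i ↔ x.1 / c = i
    rw [hval]
    split_ifs with h
    · exact Iff.rfl
    · have h1 : j ≤ x.1 / c := (Nat.le_div_iff_mul_le (by omega)).2 (by omega)
      have h2 : (x.1 + c) / c = x.1 / c + 1 := Nat.add_div_right _ (by omega)
      omega

/-- **The trace inequality** for multisets of kinds. -/
theorem gM_tr (M c l n : ℕ) (hM : 1 ≤ M) (hc : 1 ≤ c) (hn : (l + 1) * c ≤ n)
    (sL sO : Multiset Kd) (hL : ∀ k ∈ sL, k.Ok M l) :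
    gM (LS M (blk c n) l) (sL + sO) ≤ gM (LS M (blk c (n - c)) l) sL +
      gM (LS M (blk c n) (l + 1)) (sL.map (Kd.add l) + sO) := by
  classical
  have hcn : c ≤ n := by nlinarith
  obtain ⟨mL, hmL, hL0⟩ := exists_conf (LS M (blk c (n - c)) l) sL
  obtain ⟨mO, hmO, -⟩ := exists_conf (LS M (blk c n) l) sO
  obtain ⟨hinj, him, hβ⟩ := sg_facts c l n hc hn hcn
  have hLm : ∀ i, (mL i).Ok M l := by
    intro i
    refine hL _ ?_
    rw [← hmL]
    exact Multiset.mem_map_of_mem _ (mem_univ i)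
  have h1 := gd_A0_le M hinj him hβ mL hLm
  have h2 := gd_tr M (blk c n) l (Ex (blk c n) (2 * M - 1) l) mL mO
  rw [A1_Ex] at h2
  rw [gd_eq_gM _ (Sum.elim mL mO), gd_eq_gM _ (Sum.elim (fun x => (mL x).add l) mO), map_elim,
    map_elim, hmL, hmO] at h2
  have h3 : (univ : Finset (Fin sL.toList.length)).val.map (fun x => (mL x).add l) =
      sL.map (Kd.add l) := by
    have h4 := congrArg (Multiset.map (Kd.add l)) hmL
    rw [Multiset.map_map] at h4
    exact h4
  rw [h3] at h2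
  rw [hL0] at h1
  exact h2.trans (Nat.add_le_add_right h1 _)

end Pool.Agent.V7

end
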