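import Pool.Agent.H94.LP7.M08
import Pool.Agent.H94.LP7.M11
import Pool.Agent.H94.LP7.M12

/-! The parts of this file: GD.AL.Pull_1, GD.ST.Ctr. -/

section

/-!
# General d: linear maps

`π : ν → ν' → ℂ` is the linear map `e_s ↦ ∑ π s s' e_s'`; it is compatible with the blocks `< J` if it maps
`L_i` into `L_i'`.  Solutions on `ν'` at the image of a position pull back to solutions on `ν`
(`sat_pull`, `pullL_mem`).
-/

set_option autoImplicit false
set_option linter.unusedSectionVars false

namespace Pool.Agent.GD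

open Finset MvPolynomial Pool.Agent.H51.TB
open Pool.Agent.V7 (msk)

section

variable {ν : Type} [Fintype ν] [DecidableEq ν]

theorem ext0_off {β : ν → ℕ} {D i : ℕ} {I : Finset ℕ} (hi : i ∈ I) (f : {a // a ∈ Ex β D I} → ℂ)
    {b : ν → ℕ} (hb : ∀ s, β s = i → b s = 0) : ext0 (Ex β D I) f b = 0 := by
  refine ext0_not f fun h => ?_
  obtain ⟨s, hs, h1⟩ := (mem_Ex.1 h).2 i hi
  exact h1 (hb s hs)

end

section

variable {ν ν' : Type} [Fintype ν] [DecidableEq ν] [Fintype ν'] [DecidableEq ν']

theorem Sp_lf (π : ν → ν' → ℂ) (p : ν → ℂ) : Sp π (lf p) = lf (app π p) := by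
  have h1 : lf (app π p) = ∑ s, C (p s) * lf (π s) := by
    have h2 : ∀ s, C (p s) * lf (π s) = lf (fun s' => p s * π s s') := fun s => (lf_smul _ _).symm
    rw [sum_congr rfl fun s _ => h2 s, ← lf_sum]
    rfl
  rw [h1]
  conv_lhs => rw [lf]
  unfold Sp
  rw [map_sum]
  refine sum_congr rfl fun s _ => ?_
  rw [map_mul, aeval_X, algHom_C]
  rfl

variable {β : ν → ℕ} {β' : ν' → ℕ} {J : ℕ} {π : ν → ν' → ℂ}

variable {d : ℕ}

theorem pt_pull (hπ : Cpt β β' J π) (k : Kd) (hk : k.Ok d J) (q : ν × Fin (d + 1) → ℂ)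
    (x : Fin (d + 1)) (hx : x.1 < k.nm) (s' : ν') :
    pt β' k x (pullP β π k q) s' = app π (pt β k x q) s' := by
  rcases k with ⟨e, A⟩ | ⟨e, dl, i, As⟩
  · show (if β' s' ∈ A then 0 else app π (pt β (.ord e A) 0 q) s') = app π (pt β (.ord e A) 0 q) s'
    by_cases h : β' s' ∈ A
    · rw [if_pos h]
      symm
      refine app_off hπ (i := β' s') (mem_range.1 (hk.2.2 h)) (fun s hs => ?_) rfl
      simp only [pt, msk]
      rw [if_pos (hs ▸ h)]
    · rw [if_neg h]
  · have hlen := ok_len hk
    obtain ⟨he, hl, htr, hi, hAs⟩ := hk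
    have hx' : x.1 < As.length := hx
    have hiA : ∀ A ∈ As, i ∉ A := fun A hA h => (mem_erase.1 (hAs A hA h)).1 rfl
    have hne : ∀ y : Fin (d + 1), y.1 < As.length → y ≠ Fin.last d := by
      intro y hy h
      rw [h] at hy
      have : (Fin.last d).1 = d := rfl
      omega
    have hq : ∀ y : Fin (d + 1), y.1 < As.length → pullP β π (.cl e dl i As) q (s', y) =
        app π (pt β (.cl e dl i As) y q) s' := by
      intro y hy
      show (if y = Fin.last d then app π (zz β i q) s' else
        app π (pt β (.cl e dl i As) y q) s') = _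
      rw [if_neg (hne y hy)]
    show (if β' s' ∈ As.getD x ∅ then (0 : ℂ) else
      if β' s' = i ∧ x.1 + 1 = As.length then
        - ∑ y : Fin (d + 1), (if y.1 + 1 < As.length then pullP β π (.cl e dl i As) q (s', y) else 0)
      else pullP β π (.cl e dl i As) q (s', x)) = app π (pt β (.cl e dl i As) x q) s'
    by_cases h : β' s' ∈ As.getD x ∅
    · rw [if_pos h]
      symm
      have h1 : β' s' < J := by
        have h2 := hAs _ (getD_mem hx') h
        exact mem_range.1 (mem_of_mem_erase h2)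
      refine app_off hπ h1 (fun s hs => ?_) rfl
      simp only [pt, msk]
      rw [if_pos (hs ▸ h)]
    · rw [if_neg h]
      by_cases h2 : β' s' = i ∧ x.1 + 1 = As.length
      · rw [if_pos h2]
        have h3 : app π (uu β (.cl e dl i As) q) s' = 0 :=
          app_off hπ hi (fun s hs => uu_zero hl (by omega) hiA q hs) h2.1
        have h4 : app π (uu β (.cl e dl i As) q) s' = ∑ y : Fin (d + 1),
            ((if y.1 + 1 < As.length then pullP β π (.cl e dl i As) q (s', y) else 0) +
              (if y.1 + 1 = As.length then app π (pt β (.cl e dl i As) y q) s' else 0)) := by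
          have h5 := app_sum π (univ : Finset (Fin (d + 1))) (fun x s =>
            if x.1 < As.length then pt β (.cl e dl i As) x q s else 0) s'
          refine Eq.trans ?_ (h5.trans (sum_congr rfl fun y _ => ?_))
          · rfl
          · rcases Nat.lt_trichotomy (y.1 + 1) As.length with h7 | h7 | h7
            · rw [if_pos h7, if_neg h7.ne, add_zero, hq y (by omega)]
              congr 1
              funext s
              rw [if_pos (by omega)]
            · rw [if_neg (by omega), if_pos h7, zero_add]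
              congr 1
              funext s
              rw [if_pos (by omega)]
            · rw [if_neg (by omega), if_neg (by omega), zero_add]
              unfold app
              refine sum_eq_zero fun s _ => ?_
              simp only [if_neg (show ¬ y.1 < As.length by omega), zero_mul]
        rw [sum_add_distrib] at h4
        have h6 : ∑ y : Fin (d + 1), (if y.1 + 1 = As.length then
            app π (pt β (.cl e dl i As) y q) s' else 0) = app π (pt β (.cl e dl i As) x q) s' := by
          rw [sum_eq_single x]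
          · rw [if_pos h2.2]
          · intro y _ hy
            rw [if_neg]
            intro h8
            exact hy (Fin.ext (by omega))
          · intro h8
            exact absurd (mem_univ _) h8
        rw [h6, h3] at h4
        linear_combination h4
      · rw [if_neg h2, hq x hx']

theorem uu_pull (hπ : Cpt β β' J π) (k : Kd) (hk : k.Ok d J) (q : ν × Fin (d + 1) → ℂ) (s' : ν') :
    uu β' k (pullP β π k q) s' = app π (uu β k q) s' := by
  have h5 : app π (uu β k q) s' = ∑ x : Fin (d + 1),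
      app π (fun s => if x.1 < k.nm then pt β k x q s else 0) s' :=
    app_sum π (univ : Finset (Fin (d + 1))) (fun x s => if x.1 < k.nm then pt β k x q s else 0) s'
  rw [h5]
  show (∑ x : Fin (d + 1), if x.1 < k.nm then pt β' k x (pullP β π k q) s' else 0) = _
  refine sum_congr rfl fun x _ => ?_
  by_cases h : x.1 < k.nm
  · rw [if_pos h, pt_pull hπ k hk q x h]
    simp only [if_pos h]
  · rw [if_neg h]
    symm
    unfold app
    refine sum_eq_zero fun s _ => ?_
    simp only [if_neg h, zero_mul]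

/-- Pull back of the conditions. -/
theorem sat_pull (hπ : Cpt β β' J π) (k : Kd) (hk : k.Ok d J) (q : ν × Fin (d + 1) → ℂ)
    {I : Finset ℕ} (Φ' : MvPolynomial ν' ℂ →ₗ[ℂ] ℂ) (h0 : ∀ i ∈ I, ∀ P, Φ' (rho β' i P) = 0)
    (h : Sat β' I k (pullP β π k q) Φ') : Sat β I k q (Φ'.comp (Sp π).toLinearMap) := by
  refine ⟨fun x hx y => ?_, ?_⟩
  · show Φ' (Sp π (lf (pt β k x q) ^ k.ex * y)) = 0
    rw [map_mul, map_pow, Sp_lf]
    have h1 := h.1 x hx (Sp π y)
    rw [show pt β' k x (pullP β π k q) = app π (pt β k x q) from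
      funext fun s' => pt_pull hπ k hk q x hx s'] at h1
    exact h1
  · rcases k with ⟨e, A⟩ | ⟨e, dl, i, As⟩
    · trivial
    · intro hi κ h1 h2 b hb
      have hiJ : i < J := hk.2.2.2.1
      have hlen := ok_len hk
      have hiA : ∀ A ∈ As, i ∉ A := fun A hA h => (mem_erase.1 (hk.2.2.2.2 A hA h)).1 rfl
      have hSb := h.2 hi
      set u' : ν' → ℂ := app π (uu β (.cl e dl i As) q) with hu'
      set r : ν' → ℂ := fun s' => if β' s' = i then 0 else app π (zz β i q) s' with hr
      set z' : ν' → ℂ := fun s' => if β' s' = i then app π (zz β i q) s' else 0 with hz'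
      have hz : app π (zz β i q) = fun s' => z' s' + r s' := by
        funext s'
        simp only [hr, hz']
        split_ifs
        · rw [add_zero]
        · rw [zero_add]
      have hu0 : ∀ s', β' s' = i → u' s' = 0 := fun s' hs' =>
        app_off hπ hiJ (fun s hs => uu_zero hk.2.1 (by omega) hiA q hs) hs'
      have hr0 : ∀ s', β' s' = i → r s' = 0 := fun s' hs' => by simp only [hr, if_pos hs']
      have hSb' : ∀ m, 1 ≤ m → m ≤ dl → ∀ P,
          Φ' (lf u' ^ (As.length * (e - 1)) * (lf z' ^ m * rho β' i P)) = 0 := by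
        intro m hm1 hm2 P
        have h3 : Φ'.comp ((LinearMap.mulLeft ℂ (lf u' ^ (As.length * (e - 1)) * lf z' ^ m)).comp
            (rho β' i).toLinearMap) = 0 := by
          refine mon_span _ fun b => ?_
          show Φ' (lf u' ^ (As.length * (e - 1)) * lf z' ^ m * rho β' i (mon ℂ b)) = 0
          by_cases hb : ∀ s, β' s = i → b s = 0
          · rw [rho_mon hb, mul_assoc]
            have h4 := hSb m hm1 hm2 b hb
            rw [show uu β' (.cl e dl i As) (pullP β π (.cl e dl i As) q) = u' from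
              funext fun s' => uu_pull hπ _ hk q s',
              show zz β' i (pullP β π (.cl e dl i As) q) = z' from
              funext fun s' => zz_pull q s'] at h4
            exact h4
          · rw [rho_mon0 hb, mul_zero, map_zero]
        have h4 := LinearMap.congr_fun h3 P
        rw [← mul_assoc]
        exact h4
      show Φ' (Sp π (lf (uu β (.cl e dl i As) q) ^ (As.length * (e - 1)) *
        (lf (zz β i q) ^ κ * mon ℂ b))) = 0
      have e0 : Sp π (lf (uu β (.cl e dl i As) q) ^ (As.length * (e - 1)) *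
          (lf (zz β i q) ^ κ * mon ℂ b)) = lf u' ^ (As.length * (e - 1)) *
            ((lf z' + lf r) ^ κ * Sp π (mon ℂ b)) := by
        rw [map_mul, map_pow, map_mul, map_pow, Sp_lf, Sp_lf, hz, lf_add]
      rw [e0, add_pow, sum_mul, mul_sum, map_sum]
      refine sum_eq_zero fun m hm => ?_
      rw [mem_range] at hm
      have e1 : rho β' i (lf r ^ (κ - m) * Sp π (mon ℂ b)) = lf r ^ (κ - m) * Sp π (mon ℂ b) := by
        rw [map_mul, map_pow, rho_lf hr0, rho_Sp hπ hiJ hb]
      rcases Nat.eq_zero_or_pos m with h3 | h3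
      · have e2 : lf u' ^ (As.length * (e - 1)) * (lf z' ^ m * lf r ^ (κ - m) *
            ((κ.choose m : ℕ) : MvPolynomial ν' ℂ) * Sp π (mon ℂ b)) =
            rho β' i (((κ.choose m : ℕ) : MvPolynomial ν' ℂ) * (lf u' ^ (As.length * (e - 1)) *
              (lf r ^ (κ - m) * Sp π (mon ℂ b)))) := by
          rw [map_mul, map_natCast, map_mul, e1, map_pow, rho_lf hu0, h3, pow_zero]
          ring
        rw [e2]
        exact h0 i hi _
      · have e2 : lf u' ^ (As.length * (e - 1)) * (lf z' ^ m * lf r ^ (κ - m) *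
            ((κ.choose m : ℕ) : MvPolynomial ν' ℂ) * Sp π (mon ℂ b)) =
            lf u' ^ (As.length * (e - 1)) * (lf z' ^ m *
              rho β' i (((κ.choose m : ℕ) : MvPolynomial ν' ℂ) *
                (lf r ^ (κ - m) * Sp π (mon ℂ b)))) := by
          rw [map_mul, map_natCast, e1]
          ring
        rw [e2]
        exact hSb' m h3 (by omega) _

/-! ### Pull back of solutions -/

/-- The functional of a form of degree `D` kills the polynomials of other degrees. -/
theorem Fn_homog {D m : ℕ} {A : Finset (ν → ℕ)} (hA : ∀ a ∈ A, ∑ s, a s = D)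
    (f : {a // a ∈ A} → ℂ) {P : MvPolynomial ν ℂ} (hP : P.IsHomogeneous m) (hm : m ≠ D) :
    Fn (ext0 A f) P = 0 := by
  have h1 : P = ∑ b ∈ P.support, monomial b (coeff b P) := (support_sum_monomial_coeff P).symm
  rw [h1, map_sum]
  refine sum_eq_zero fun b hb => ?_
  have h2 : monomial b (coeff b P) = C (coeff b P) * mon ℂ (b : ν → ℕ) := by
    rw [mon_eq, Finsupp.equivFunOnFinite_symm_coe, C_mul_monomial, mul_one]
  rw [h2, C_mul_eq_smul, (Fn (ext0 A f)).map_smul, Fn_mon, ext0_not f, mul_zero, smul_zero]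
  intro h3
  have h4 := hA _ h3
  have h5 := hP (mem_support_iff.1 hb)
  rw [Finsupp.weight_apply, Finsupp.sum_fintype _ _ (by simp)] at h5
  simp only [Pi.one_apply, smul_eq_mul, mul_one] at h5
  exact hm (h5.symm.trans h4)

theorem pullF_supp (hπ : Cpt β β' J π) {D : ℕ} {I : Finset ℕ} (hI : I ⊆ range J)
    (f : {a // a ∈ Ex β' D I} → ℂ) {a : ν → ℕ} (ha : a ∉ Ex β D I) :
    pullF π (ext0 (Ex β' D I) f) a = 0 := by
  unfold pullF
  suffices h : Fn (ext0 (Ex β' D I) f) (Sp π (mon ℂ a)) = 0 by rw [h, zero_div]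
  by_cases h1 : ∑ s, a s = D
  · have h2 : ∃ i ∈ I, ∀ s, β s = i → a s = 0 := by
      by_contra h2
      push Not at h2
      exact ha (mem_Ex.2 ⟨h1, h2⟩)
    obtain ⟨i, hi, h2⟩ := h2
    rw [← rho_Sp hπ (mem_range.1 (hI hi)) h2]
    exact Fn_rho (fun b hb => ext0_off hi f hb) _
  · exact Fn_homog (fun _ h => Ex_sum h) f (Sp_homog π a) h1

/-- Pull back of solutions. -/
noncomputable def pullL (β : ν → ℕ) (β' : ν' → ℕ) (D : ℕ) (I : Finset ℕ) (π : ν → ν' → ℂ) :
    ({a // a ∈ Ex β' D I} → ℂ) →ₗ[ℂ] ({a // a ∈ Ex β D I} → ℂ) where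
  toFun f a := pullF π (ext0 (Ex β' D I) f) a.1
  map_add' f g := by
    funext a
    have h : Fn (ext0 (Ex β' D I) (f + g)) =
        Fn (ext0 (Ex β' D I) f) + Fn (ext0 (Ex β' D I) g) := by
      refine mon_ext fun b => ?_
      rw [LinearMap.add_apply, Fn_mon, Fn_mon, Fn_mon]
      unfold ext0
      split_ifs
      · rw [Pi.add_apply]
        ring
      · ring
    unfold pullF
    rw [Pi.add_apply, h, LinearMap.add_apply, add_div]
  map_smul' r f := by
    funext a
    have h : Fn (ext0 (Ex β' D I) (r • f)) = r • Fn (ext0 (Ex β' D I) f) := by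
      refine mon_ext fun b => ?_
      rw [LinearMap.smul_apply, Fn_mon, Fn_mon, smul_eq_mul]
      unfold ext0
      split_ifs
      · rw [Pi.smul_apply, smul_eq_mul]
        ring
      · ring
    unfold pullF
    rw [RingHom.id_apply, Pi.smul_apply, h, LinearMap.smul_apply, smul_eq_mul, smul_eq_mul,
      mul_div_assoc]

theorem ext0_pullL (hπ : Cpt β β' J π) {D : ℕ} {I : Finset ℕ} (hI : I ⊆ range J)
    (f : {a // a ∈ Ex β' D I} → ℂ) :
    ext0 (Ex β D I) (pullL β β' D I π f) = pullF π (ext0 (Ex β' D I) f) := by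
  funext a
  by_cases ha : a ∈ Ex β D I
  · exact ext0_mem _ ⟨a, ha⟩
  · rw [ext0_not _ ha, pullF_supp hπ hI f ha]

theorem Fn_pullL (hπ : Cpt β β' J π) {D : ℕ} {I : Finset ℕ} (hI : I ⊆ range J)
    (f : {a // a ∈ Ex β' D I} → ℂ) :
    Fn (ext0 (Ex β D I) (pullL β β' D I π f)) =
      (Fn (ext0 (Ex β' D I) f)).comp (Sp π).toLinearMap := by
  rw [ext0_pullL hπ hI, Fn_pullF]

/-- The pull back of a solution at the image of a position is a solution. -/
theorem pullL_mem (hπ : Cpt β β' J π) {D : ℕ} (hD : D ≤ d) {I : Finset ℕ} (hI : I ⊆ range J)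
    {κ : Type} (m : κ → Kd) (hm : ∀ i, (m i).Ok d J) (p : κ → ν × Fin (d + 1) → ℂ)
    (f : {a // a ∈ Ex β' D I} → ℂ)
    (hf : f ∈ (LS d D β' I).V m fun i => pullP β π (m i) (p i)) :
    pullL β β' D I π f ∈ (LS d D β I).V m p := by
  rw [mem_LS hD] at hf ⊢
  intro i
  rw [Fn_pullL hπ hI]
  exact sat_pull hπ (m i) (hm i) (p i) _ (fun i hi P => Fn_rho (fun b hb => ext0_off hi f hb) P)
    (hf i)

end

end Pool.Agent.GD

end

section

/-!
# General d: contraction by a point (FACT 4) and simple points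

`F ↦ F(q^e ·)` maps the solutions of degree `D` of the level `I` into the solutions of degree `D - e` of the
level `I ∩ A` (`A` = the blocks on which `q` vanishes), its kernel is the solutions of `ord e A ::ₘ ms`.
Use `mem_LS`, `Fn_ctn` and `gn_gd` (three general statements for the same positions).
-/

set_option autoImplicit false
set_option linter.unusedSectionVars false

namespace Pool.Agent.GD

open Finset MvPolynomial Pool.Agent.H51.TB Pool.Agent.V7.ST
open Pool.Agent.H18.Ex (tcr)
open Pool.Agent.H21.NX (Sx mem_Sx)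
open Pool.Agent.V7 (msk)

section

variable {ν : Type} [Fintype ν] [DecidableEq ν]

/-- Functionals which vanish on the monomials off a block. -/
theorem ctr_avoid {R : Type} [CommRing R] (Ψ : MvPolynomial ν R →ₗ[R] R) {β : ν → ℕ} {i : ℕ}
    (h : ∀ b : ν → ℕ, (∀ s, β s = i → b s = 0) → Ψ (mon R b) = 0) {u : ν → R}
    (hu : ∀ s, β s = i → u s = 0) :
    ∀ (m : ℕ) (b : ν → ℕ), (∀ s, β s = i → b s = 0) → Ψ (lf u ^ m * mon R b) = 0 := by
  intro m
  induction m with
  | zero =>
    intro b hb
    rw [pow_zero, one_mul]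
    exact h b hb
  | succ m ih =>
    intro b hb
    have h1 : lf u ^ (m + 1) * mon R b =
        ∑ l, C (u l) * (lf u ^ m * mon R (b + Pi.single l 1)) := by
      rw [pow_succ]
      conv_lhs => rw [lf]
      rw [mul_sum, sum_mul]
      refine sum_congr rfl fun l _ => ?_
      rw [mon_add, mon_single]
      show lf u ^ m * (C (u l) * X l) * mon R b = _
      ring
    rw [h1, map_sum]
    refine sum_eq_zero fun l _ => ?_
    rw [C_mul_eq_smul, map_smul, smul_eq_mul]
    by_cases hl : β l = i
    · rw [hu l hl, zero_mul]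
    · refine mul_eq_zero_of_right _ (ih _ fun s hs => ?_)
      rw [Pi.add_apply, hb s hs, Pi.single_eq_of_ne (fun h' : s = l => hl (by rw [← h']; exact hs)), add_zero]

/-- Contraction of a functional by a point which vanishes on the blocks of `A`. -/
theorem ctr_sat {R : Type} [CommRing R] {d : ℕ} {β : ν → ℕ} {I A : Finset ℕ} {k : Kd}
    {q : ν × Fin (d + 1) → R} {Φ Φ' : MvPolynomial ν R →ₗ[R] R} (h : Sat β I k q Φ) {u : ν → R}
    (hu : ∀ s, β s ∈ A → u s = 0) (e : ℕ) (hΦ : ∀ P, Φ' P = Φ (lf u ^ e * P)) :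
    Sat β (I ∩ A) k q Φ' := by
  constructor
  · intro x hx y
    rw [hΦ, ← h.1 x hx (lf u ^ e * y)]
    congr 1
    ring
  · have h2 := h.2
    rcases k with ⟨e', A'⟩ | ⟨e', dl, i, As⟩
    · trivial
    · intro hi κ h3 h4 b hb
      rw [mem_inter] at hi
      rw [hΦ]
      have h5 := ctr_avoid (Φ.comp (LinearMap.mulLeft R
        (lf (uu β (.cl e' dl i As) q) ^ (As.length * (e' - 1)) * lf (zz β i q) ^ κ)))
        (β := β) (i := i) (fun b' hb' => by
          rw [LinearMap.comp_apply, LinearMap.mulLeft_apply, mul_assoc]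
          exact h2 hi.1 κ h3 h4 b' hb') (u := u)
        (fun s hs => hu s (by rw [hs]; exact hi.2)) e b hb
      rw [LinearMap.comp_apply, LinearMap.mulLeft_apply] at h5
      rw [← h5]
      congr 1
      ring

theorem ctr_ext {D e : ℕ} (he : e ≤ D) (β : ν → ℕ) (I A : Finset ℕ) {u : ν → ℂ}
    (hu : ∀ s, β s ∈ A → u s = 0) (f : {a // a ∈ Ex β D I} → ℂ) (g : ν → ℕ)
    (hg : g ∉ Ex β (D - e) (I ∩ A)) : ctn u e (ext0 (Ex β D I) f) g = 0 := by
  unfold ctn
  refine mul_eq_zero_of_right _ (sum_eq_zero fun a ha => ?_)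
  by_cases h : a ∈ Ex β D I
  · rw [mem_Sx] at ha
    have h1 := mem_Ex.1 h
    rw [mem_Ex] at hg
    push Not at hg
    obtain ⟨i, hi, h2⟩ := hg (by omega)
    rw [mem_inter] at hi
    obtain ⟨s, hs, has⟩ := h1.2 i hi.1
    refine mul_eq_zero_of_right _ ?_
    unfold tcr
    refine prod_eq_zero (mem_univ s) ?_
    rw [h2 s hs, Nat.sub_zero, hu s (by rw [hs]; exact hi.2), zero_pow has, mul_zero]
  · rw [ext0_not f h, zero_mul]

/-- The contraction of the solutions. -/
noncomputable def ctrF (D e : ℕ) (β : ν → ℕ) (I A : Finset ℕ) (u : ν → ℂ) :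
    ({a // a ∈ Ex β D I} → ℂ) →ₗ[ℂ] ({a // a ∈ Ex β (D - e) (I ∩ A)} → ℂ) where
  toFun f := fun g => ctn u e (ext0 (Ex β D I) f) g.1
  map_add' f f' := by
    funext g
    show ctn u e (ext0 (Ex β D I) (f + f')) g.1 = ctn u e (ext0 (Ex β D I) f) g.1 +
      ctn u e (ext0 (Ex β D I) f') g.1
    unfold ctn
    rw [← mul_add, ← sum_add_distrib]
    congr 1
    refine sum_congr rfl fun a _ => ?_
    rw [← add_mul]
    congr 1
    unfold ext0
    split_ifs
    · rfl
    · rw [add_zero]
  map_smul' c f := by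
    funext g
    show ctn u e (ext0 (Ex β D I) (c • f)) g.1 = c * ctn u e (ext0 (Ex β D I) f) g.1
    unfold ctn
    have h1 : ∑ a ∈ Sx ν (e + ∑ s, g.1 s), ext0 (Ex β D I) (c • f) a * tcr u a g.1 =
        c * ∑ a ∈ Sx ν (e + ∑ s, g.1 s), ext0 (Ex β D I) f a * tcr u a g.1 := by
      rw [mul_sum]
      refine sum_congr rfl fun a _ => ?_
      rw [← mul_assoc]
      congr 1
      unfold ext0
      split_ifs
      · rfl
      · rw [mul_zero]
    rw [h1]
    ring

theorem ctrF_ext {D e : ℕ} (he : e ≤ D) (β : ν → ℕ) (I A : Finset ℕ) {u : ν → ℂ}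
    (hu : ∀ s, β s ∈ A → u s = 0) (f : {a // a ∈ Ex β D I} → ℂ) :
    ext0 (Ex β (D - e) (I ∩ A)) (ctrF D e β I A u f) = ctn u e (ext0 (Ex β D I) f) := by
  funext g
  by_cases hg : g ∈ Ex β (D - e) (I ∩ A)
  · have h1 := ext0_mem (ctrF D e β I A u f) (⟨g, hg⟩ : {a // a ∈ Ex β (D - e) (I ∩ A)})
    exact h1
  · rw [ext0_not _ hg, ctr_ext he β I A hu f g hg]

theorem ctr_Fn_zero (A : Finset (ν → ℕ)) (P : MvPolynomial ν ℂ) :
    Fn (ext0 A (0 : {a // a ∈ A} → ℂ)) P = 0 := by
  have h1 : Fn (ext0 A (0 : {a // a ∈ A} → ℂ)) = 0 := by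
    refine mon_span _ fun b => ?_
    rw [Fn_mon]
    have h2 : ext0 A (0 : {a // a ∈ A} → ℂ) b = 0 := by
      unfold ext0
      split_ifs <;> rfl
    rw [h2, mul_zero]
  rw [h1, LinearMap.zero_apply]

end

/-- One more point costs at most the dimension of the level `I ∩ A` in degree `D - e`. -/
theorem HI_ctr {ν : Type} [Fintype ν] [DecidableEq ν] {d D e : ℕ} (hD : D ≤ d) (he : e ≤ D)
    (β : ν → ℕ) (I A : Finset ℕ) (ms : Multiset Kd) :
    HI d D β I ms ≤ HI d D β I (.ord e A ::ₘ ms) + HI d (D - e) β (I ∩ A) ms := by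
  classical
  obtain ⟨m, hm, -⟩ := exists_conf (LS d D β I) ms
  unfold HI
  have e1 : gM (LS d D β I) ms = (LS d D β I).gd m := by rw [gd_eq_gM, hm]
  have e2 : gM (LS d D β I) (.ord e A ::ₘ ms) = (LS d D β I).gd (ad m (.ord e A)) := by
    rw [gd_eq_gM, map_ad, hm]
  have e3 : gM (LS d (D - e) β (I ∩ A)) ms = (LS d (D - e) β (I ∩ A)).gd m := by
    rw [gd_eq_gM, hm]
  rw [e1, e2, e3]
  obtain ⟨r, h1, h2⟩ := ((gn_gd (LS d D β I) (ad m (.ord e A))).and
    ((gn_gd (LS d (D - e) β (I ∩ A)) m).comap Sum.inl Sum.inl_injective)).exists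
  let p : Fin ms.toList.length → ν × Fin (d + 1) → ℂ := fun i => r (Sum.inl i)
  let q : ν × Fin (d + 1) → ℂ := r (Sum.inr ())
  let u : ν → ℂ := msk β A fun s => q (s, 0)
  have hu : ∀ s, β s ∈ A → u s = 0 := fun s hs => if_pos hs
  have h3 := gd_le (LS d D β I) m p
  let W : Submodule ℂ ({a // a ∈ Ex β (D - e) (I ∩ A)} → ℂ) := (LS d (D - e) β (I ∩ A)).V m p
  let Φ : (LS d D β I).V m p →ₗ[ℂ] W := ((ctrF D e β I A u).comp
    (Submodule.subtype _)).codRestrict W fun F => by
      show ctrF D e β I A u F.1 ∈ (LS d (D - e) β (I ∩ A)).V m p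
      rw [mem_LS (by omega)]
      intro i
      have h4 := (mem_LS hD β I m p F.1).1 F.2 i
      refine ctr_sat h4 hu e fun P => ?_
      rw [ctrF_ext he β I A hu, Fn_ctn]
  have h5 := LinearMap.finrank_range_add_finrank_ker Φ
  have h6 : Module.finrank ℂ (LinearMap.range Φ) ≤ Module.finrank ℂ W := Submodule.finrank_le _
  have h7 : Module.finrank ℂ (LinearMap.ker Φ) ≤
      Module.finrank ℂ ((LS d D β I).V (ad m (.ord e A)) r) := by
    rw [← Submodule.finrank_map_subtype_eq]
    refine Submodule.finrank_mono ?_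
    rintro _ ⟨F, hF, rfl⟩
    rw [mem_LS hD]
    rintro (i | i)
    · exact (mem_LS hD β I m p F.1).1 F.2 i
    · refine ⟨fun x _ y => ?_, trivial⟩
      have h8 : ctrF D e β I A u F.1 = 0 := congrArg Subtype.val (hF : Φ F = 0)
      have h9 := Fn_ctn u e (ext0 (Ex β D I) F.1) y
      rw [← ctrF_ext he β I A hu, h8, ctr_Fn_zero] at h9
      exact h9.symm
  have h8 : Module.finrank ℂ W = (LS d (D - e) β (I ∩ A)).gd m := h2
  rw [h1] at h7
  omega

/-- The dimension of the forms of degree `0`. -/
theorem HI_zero_le {ν : Type} [Fintype ν] [DecidableEq ν] {d : ℕ} (β : ν → ℕ) (I : Finset ℕ)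
    (ms : Multiset Kd) : HI d 0 β I ms ≤ 1 := by
  classical
  obtain ⟨m, hm, -⟩ := exists_conf (LS d 0 β I) ms
  have e1 : HI d 0 β I ms = (LS d 0 β I).gd m := by
    unfold HI
    rw [gd_eq_gM, hm]
  rw [e1]
  refine (gd_le_card (LS d 0 β I) m).trans ?_
  rw [Fintype.card_le_one_iff]
  rintro ⟨a, ha⟩ ⟨b, hb⟩
  refine Subtype.ext ?_
  have h1 := Ex_sum ha
  have h2 := Ex_sum hb
  funext s
  have h3 : a s ≤ ∑ s, a s := single_le_sum (f := a) (fun _ _ => Nat.zero_le _) (mem_univ s)
  have h4 : b s ≤ ∑ s, b s := single_le_sum (f := b) (fun _ _ => Nat.zero_le _) (mem_univ s)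
  show a s = b s
  omega

/-- A simple point imposes one condition. -/
theorem HI_simple {ν : Type} [Fintype ν] [DecidableEq ν] {d D : ℕ} (hD : D ≤ d) (β : ν → ℕ)
    (I : Finset ℕ) (ms : Multiset Kd) :
    HI d D β I (.ord D ∅ ::ₘ ms) = HI d D β I ms - 1 := by
  classical
  have h1 := HI_ctr hD le_rfl β I ∅ ms
  rw [Nat.sub_self] at h1
  have h2 := HI_zero_le (d := d) β (I ∩ ∅) ms
  obtain ⟨m, hm, -⟩ := exists_conf (LS d D β I) ms
  have e1 : HI d D β I ms = (LS d D β I).gd m := by
    unfold HI
    rw [gd_eq_gM, hm]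
  have e2 : HI d D β I (.ord D ∅ ::ₘ ms) = (LS d D β I).gd (ad m (.ord D ∅)) := by
    unfold HI
    rw [gd_eq_gM, map_ad, hm]
  have h3 : HI d D β I (.ord D ∅ ::ₘ ms) ≤ HI d D β I ms - 1 := by
    by_cases h0 : HI d D β I ms = 0
    · have h4 := gd_ad_le (LS d D β I) m (.ord D ∅)
      rw [← e1, ← e2] at h4
      omega
    · obtain ⟨p, hp⟩ := gd_attained (LS d D β I) m
      rw [← e1] at hp
      -- a solution
      obtain ⟨F, hF, hF0⟩ : ∃ F ∈ (LS d D β I).V m p, F ≠ 0 := by
        by_contra hcon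
        push Not at hcon
        refine h0 ?_
        rw [← hp, Submodule.finrank_eq_zero, Submodule.eq_bot_iff]
        exact hcon
      -- its polynomial
      let G : MvPolynomial ν ℂ := ∑ a : {a // a ∈ Ex β D I}, C (F a) * mon ℂ a.1
      have hG : G ≠ 0 := by
        intro h
        refine hF0 (funext fun a => ?_)
        have h5 := congrArg (coeff (Finsupp.equivFunOnFinite.symm a.1)) h
        rw [coeff_sum, coeff_zero, sum_eq_single a] at h5
        · rw [mon_eq, coeff_C_mul, coeff_monomial, if_pos rfl, mul_one] at h5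
          exact h5
        · intro b _ hb
          rw [mon_eq, coeff_C_mul, coeff_monomial, if_neg, mul_zero]
          intro h'
          exact hb (Subtype.ext (Finsupp.equivFunOnFinite.symm.injective h'))
        · exact fun h' => absurd (mem_univ a) h'
      obtain ⟨q, hq⟩ : ∃ q : ν → ℂ, eval q G ≠ 0 := by
        by_contra hcon
        push Not at hcon
        exact hG (MvPolynomial.funext fun q => by rw [hcon q, map_zero])
      let Q : Unit → ν × Fin (d + 1) → ℂ := fun _ x => q x.1
      have h4 : (LS d D β I).V (ad m (.ord D ∅)) (Sum.elim p Q) < (LS d D β I).V m p := by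
        refine lt_of_le_of_ne ?_ fun heq => ?_
        · intro f hf
          rw [mem_LS hD] at hf ⊢
          exact fun i => hf (Sum.inl i)
        · rw [← heq, mem_LS hD] at hF
          have h5 := (hF (Sum.inr ())).1 0 (by show 0 < 1; omega) (mon ℂ 0)
          have h6 : pt β (Kd.ord D ∅) 0 (Q ()) = q := by
            funext s
            show msk β ∅ (fun s => q s) s = q s
            unfold msk
            rw [if_neg (notMem_empty _)]
          have h7 : Fn (ext0 (Ex β D I) F) (lf (pt β (Kd.ord D ∅) 0 (Q ())) ^ D * mon ℂ 0) = 0 := h5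
          rw [h6, Fn_lf] at h7
          have h8 : D + ∑ s : ν, (0 : ν → ℕ) s = D := by simp
          rw [h8, sum_ext0 (fun a ha => Ex_sum ha) F fun g => tcr q g 0] at h7
          have h9 := (mul_eq_zero.1 h7).resolve_left (cast_fac_ne D (0 : ν → ℕ))
          refine hq ?_
          rw [← h9]
          show eval q (∑ a : {a // a ∈ Ex β D I}, C (F a) * mon ℂ a.1) = _
          rw [map_sum]
          refine sum_congr rfl fun a _ => ?_
          rw [map_mul, eval_C]
          congr 1
          unfold mon tcr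
          rw [map_prod]
          refine prod_congr rfl fun s _ => ?_
          rw [map_pow, eval_X]
          simp
      have h5 := Submodule.finrank_lt_finrank_of_lt h4
      have h6 := gd_le (LS d D β I) (ad m (.ord D ∅)) (Sum.elim p Q)
      rw [← e2] at h6
      omega
  omega

/-- `r` simple points. -/
theorem HL_simple {d j n : ℕ} (c : ℕ → ℕ) (r : ℕ) (ms : Multiset Kd) :
    HL d d c n j (ms + Multiset.replicate r (sm d)) = HL d d c n j ms - r := by
  induction r with
  | zero => simp
  | succ r ih =>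
    rw [Multiset.replicate_succ, Multiset.add_cons]
    have h1 : HL d d c n j (sm d ::ₘ (ms + Multiset.replicate r (sm d))) =
        HL d d c n j (ms + Multiset.replicate r (sm d)) - 1 := HI_simple le_rfl (blk c n) (range j) _
    rw [h1, ih]
    omega

end Pool.Agent.GD

end
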