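import Pool.Agent.H94.LP7.H21.NX.VNumI
import Pool.Agent.H94.LP7.M127
import Pool.Agent.H94.LP7.M128
import Pool.Agent.H94.LP7.M129

/-! The parts of this file: H18.Ex.Norm, H21.NX.VReg. -/

section

/-!
# Module Norm: reduction to normalised regions and the induction on the dimension
-/

namespace Pool.Agent.H18.Ex

open Finset

section

variable {ι : Type} [Fintype ι] [DecidableEq ι]

theorem Rg_trunc (σ : ℕ) (w : ι → ℕ) : Rg σ (fun i => min (w i) σ) = Rg σ w := by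
  ext a
  rw [mem_Rg, mem_Rg]
  constructor
  · rintro ⟨h1, h2⟩
    exact ⟨fun i => (h1 i).trans (min_le_left _ _), h2⟩
  · rintro ⟨h1, h2⟩
    refine ⟨fun i => le_min (h1 i) ?_, h2⟩
    rw [← h2]
    exact single_le_sum (fun _ _ => Nat.zero_le _) (mem_univ i)

theorem Exa.reflect {n M σ : ℕ} {w : ι → ℕ} (hσ : σ ≤ ∑ i, w i)
    (h : Exa n M (Rg (∑ i, w i - σ) w)) : Exa n M (Rg σ w) := by
  intro G hG hs
  exact GM.reflect σ w hσ G (h G hG (by rw [card_reflect σ w hσ]; exact hs))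

theorem exists_max (w : ι → ℕ) (h : ∃ i, 0 < w i) : ∃ o, 0 < w o ∧ ∀ i, w i ≤ w o := by
  obtain ⟨j, hj⟩ := h
  obtain ⟨o, _, ho⟩ := exists_max_image univ w ⟨j, mem_univ _⟩
  exact ⟨o, lt_of_lt_of_le hj (ho j (mem_univ _)), fun i => ho i (mem_univ _)⟩

omit [DecidableEq ι] in
theorem filter_min_eq (w : ι → ℕ) (s : ℕ) (hs : 1 ≤ s) :
    (univ.filter fun i => 0 < min (w i) s) = univ.filter fun i => 0 < w i := by
  ext i
  rw [mem_filter, mem_filter]
  simp only [mem_univ, true_and, lt_min_iff]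
  exact ⟨fun h => h.1, fun h => ⟨h, by omega⟩⟩

theorem two_le_sum (v : ι → ℕ) {a b : ι} (hab : a ≠ b) : v a + v b ≤ ∑ i, v i := by
  rw [← sum_pair hab]
  exact sum_le_sum_of_subset (subset_univ _)

/-- Fat regions are normalised up to truncation and reflection. -/
theorem exa_of_fat {n M D : ℕ} (hn : 1 ≤ n) (hD : 1 ≤ D)
    (h : ∀ (o : ι) (σ : ℕ) (w : ι → ℕ), Nrm n D o σ w → Exa n M (Rg σ w))
    (σ : ℕ) (w : ι → ℕ) (hF : Fat n D σ w) : Exa n M (Rg σ w) := by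
  obtain ⟨hcard, hσD, hwD, hsum⟩ := hF
  -- two active coordinates
  have hother : ∀ a, ∃ b, b ≠ a ∧ 0 < w b := by
    intro a
    by_contra hcon
    push Not at hcon
    have h1 : (univ.filter fun i => 0 < w i) ⊆ {a} := by
      intro i hi
      rw [mem_filter] at hi
      rw [mem_singleton]
      by_contra h2
      have := hcon i h2
      omega
    have h2 := card_le_card h1
    rw [card_singleton] at h2
    omega
  have hne : ∃ a, 0 < w a := by
    have h1 : 0 < (univ.filter fun i => 0 < w i).card := by omega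
    obtain ⟨a, ha⟩ := card_pos.1 h1
    rw [mem_filter] at ha
    exact ⟨a, ha.2⟩
  rw [← Rg_trunc]
  set w1 : ι → ℕ := fun i => min (w i) σ with hw1
  have hw1σ : ∀ i, w1 i ≤ σ := fun i => min_le_right _ _
  have hw1D : ∀ i, 0 < w i → D ≤ w1 i := fun i hi => le_min (hwD i hi) hσD
  have hsupp1 : (univ.filter fun i => 0 < w1 i) = univ.filter fun i => 0 < w i :=
    filter_min_eq w σ (by omega)
  have hsum1 : σ + D ≤ ∑ i, w1 i := by
    by_cases hall : ∀ i, w i ≤ σ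
    · have : ∑ i, w1 i = ∑ i, w i := sum_congr rfl fun i _ => min_eq_left (hall i)
      rw [this]
      exact hsum
    · push Not at hall
      obtain ⟨a, ha⟩ := hall
      obtain ⟨b, hb, hb'⟩ := hother a
      have h1 := two_le_sum w1 (Ne.symm hb)
      have h2 : w1 a = σ := min_eq_right ha.le
      have h3 := hw1D b hb'
      omega
  have hpos1 : ∀ i, 0 < w1 i → 0 < w i := fun i hi => lt_of_lt_of_le hi (min_le_left _ _)
  by_cases h2 : 2 * σ ≤ ∑ i, w1 i
  · obtain ⟨o, ho, ho'⟩ := exists_max w1 (by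
      obtain ⟨a, ha⟩ := hne
      exact ⟨a, lt_of_lt_of_le (by omega) (hw1D a ha)⟩)
    exact h o σ w1 ⟨by rw [hsupp1]; exact hcard, ho, ho', hw1σ, h2,
      fun i hi => hw1D i (hpos1 i hi)⟩
  · push Not at h2
    apply Exa.reflect (by omega)
    set τ := ∑ i, w1 i - σ with hτ
    have hτσ : τ < σ := by omega
    have hτD : D ≤ τ := by omega
    rw [← Rg_trunc]
    set w2 : ι → ℕ := fun i => min (w1 i) τ with hw2
    have hsum2 : 2 * τ ≤ ∑ i, w2 i := by
      by_cases hall : ∀ i, w1 i ≤ τ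
      · have : ∑ i, w2 i = ∑ i, w1 i := sum_congr rfl fun i _ => min_eq_left (hall i)
        omega
      · push Not at hall
        obtain ⟨a, ha⟩ := hall
        have h3 : w2 a = τ := min_eq_right ha.le
        by_cases hb : ∃ b, b ≠ a ∧ τ ≤ w1 b
        · obtain ⟨b, hb, hb'⟩ := hb
          have h4 := two_le_sum w2 (Ne.symm hb)
          have h5 : w2 b = τ := min_eq_right hb'
          omega
        · push Not at hb
          have h4 : ∑ i ∈ univ.erase a, w2 i = ∑ i ∈ univ.erase a, w1 i :=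
            sum_congr rfl fun i hi => min_eq_left (hb i (ne_of_mem_erase hi)).le
          have h5 := add_sum_erase univ w2 (mem_univ a)
          have h6 := add_sum_erase univ w1 (mem_univ a)
          have h7 := hw1σ a
          omega
    have hsupp2 : (univ.filter fun i => 0 < w2 i) = univ.filter fun i => 0 < w1 i :=
      filter_min_eq w1 τ (by omega)
    have hw2D : ∀ i, 0 < w2 i → D ≤ w2 i := by
      intro i hi
      have h3 : 0 < w1 i := lt_of_lt_of_le hi (min_le_left _ _)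
      exact le_min (hw1D i (hpos1 i h3)) hτD
    obtain ⟨o, ho, ho'⟩ := exists_max w2 (by
      obtain ⟨a, ha⟩ := hne
      exact ⟨a, lt_of_lt_of_le (by omega) (le_min (hw1D a ha) hτD)⟩)
    exact h o τ w2 ⟨by rw [hsupp2, hsupp1]; exact hcard, ho, ho', fun i => min_le_right _ _,
      hsum2, hw2D⟩

end

/-- The required width in dimension `n + 1`. -/
def cF (M : ℕ) : ℕ → ℕ
  | 0 => 1
  | n + 1 => cD (n + 1) M (cF M n) (cC (n + 1) M) + 1

theorem cF_pos (M n : ℕ) : 1 ≤ cF M n := by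
  cases n with
  | zero => exact le_rfl
  | succ n => exact Nat.le_add_left 1 _

/-- Exactness of all sufficiently fat regions. -/
theorem exa_fat (M : ℕ) (hM : 1 ≤ M) : ∀ n : ℕ,
    ∀ (ι : Type) [Fintype ι] [DecidableEq ι] (σ : ℕ) (w : ι → ℕ),
      Fat (n + 1) (cF M n) σ w → Exa (n + 1) M (Rg σ w) := by
  intro n
  induction n with
  | zero => exact fun ι _ _ σ w h => base_one M σ w h.1
  | succ n ih =>
    intro ι _ _ σ w h
    have hD := exa_nrm (n + 1) M (by omega) hM (cF M n) ih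
    refine exa_of_fat (D := cF M (n + 1)) (by omega) (cF_pos _ _) ?_ σ w h
    intro o σ w hN
    exact hD ι o σ w ⟨hN.hcard, hN.ho, hN.hwo, hN.hwσ, hN.hσ, fun i hi => by
      have h1 := hN.hD i hi
      have h2 : cF M (n + 1) = cD (n + 1) M (cF M n) (cC (n + 1) M) + 1 := rfl
      omega⟩

/-! ### Polynomial growth -/

/-- Bounded by a polynomial for arguments at least one. -/
def PolyB (f : ℕ → ℕ) : Prop := ∃ K e : ℕ, ∀ M, 1 ≤ M → f M ≤ K * M ^ e

theorem PolyB.const (c : ℕ) : PolyB fun _ => c := ⟨c, 0, fun M _ => by simp⟩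

theorem PolyB.id : PolyB fun M => M := ⟨1, 1, fun M _ => by simp⟩

theorem PolyB.add {f g : ℕ → ℕ} (hf : PolyB f) (hg : PolyB g) : PolyB fun M => f M + g M := by
  obtain ⟨K, e, h⟩ := hf
  obtain ⟨K', e', h'⟩ := hg
  refine ⟨K + K', e + e', fun M hM => ?_⟩
  have h1 : M ^ e ≤ M ^ (e + e') := Nat.pow_le_pow_right hM (by omega)
  have h2 : M ^ e' ≤ M ^ (e + e') := Nat.pow_le_pow_right hM (by omega)
  calc f M + g M ≤ K * M ^ e + K' * M ^ e' := add_le_add (h M hM) (h' M hM)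
    _ ≤ K * M ^ (e + e') + K' * M ^ (e + e') := by gcongr
    _ = (K + K') * M ^ (e + e') := by ring

theorem PolyB.mul {f g : ℕ → ℕ} (hf : PolyB f) (hg : PolyB g) : PolyB fun M => f M * g M := by
  obtain ⟨K, e, h⟩ := hf
  obtain ⟨K', e', h'⟩ := hg
  refine ⟨K * K', e + e', fun M hM => ?_⟩
  calc f M * g M ≤ (K * M ^ e) * (K' * M ^ e') := Nat.mul_le_mul (h M hM) (h' M hM)
    _ = (K * K') * M ^ (e + e') := by ring

theorem PolyB.pow {f : ℕ → ℕ} (hf : PolyB f) (k : ℕ) : PolyB fun M => f M ^ k := by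
  induction k with
  | zero => simpa using PolyB.const 1
  | succ k ih =>
    simp only [pow_succ]
    exact ih.mul hf

theorem PolyB.ell (n : ℕ) : PolyB fun M => ell n M := by
  have h : PolyB fun M => (M + n) ^ n := (PolyB.id.add (PolyB.const n)).pow n
  obtain ⟨K, e, h⟩ := h
  refine ⟨K, e, fun M hM => le_trans ?_ (h M hM)⟩
  unfold Pool.Agent.H18.Ex.ell
  exact (Nat.choose_le_pow _ _).trans (Nat.pow_le_pow_left (by omega) _)

end Pool.Agent.H18.Ex

end

section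

/-!
# Module VReg: the region of exactness, every dimension
-/

namespace Pool.Agent.H21.NX

open Finset Pool.Agent.H18.Ex
open Pool.Agent.H18.Fat

/-- Bounded by a multiple of `M ^ e`. -/
def PE (e : ℕ) (f : ℕ → ℕ) : Prop := ∃ K : ℕ, ∀ M, 1 ≤ M → f M ≤ K * M ^ e

theorem PE.const (c e : ℕ) : PE e fun _ => c :=
  ⟨c, fun _ hM => Nat.le_mul_of_pos_right _ (Nat.pow_pos hM)⟩

theorem PE.mono {e e' : ℕ} {f : ℕ → ℕ} (h : PE e f) (he : e ≤ e') : PE e' f := by
  obtain ⟨K, h⟩ := h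
  exact ⟨K, fun M hM => le_trans (h M hM) (Nat.mul_le_mul_left _ (Nat.pow_le_pow_right hM he))⟩

theorem PE.id : PE 1 fun M => M := ⟨1, fun M _ => by simp⟩

theorem PE.add {e : ℕ} {f g : ℕ → ℕ} (hf : PE e f) (hg : PE e g) : PE e fun M => f M + g M := by
  obtain ⟨K, h⟩ := hf
  obtain ⟨L, h'⟩ := hg
  refine ⟨K + L, fun M hM => ?_⟩
  rw [Nat.add_mul]
  exact Nat.add_le_add (h M hM) (h' M hM)

theorem PE.mul {e e' : ℕ} {f g : ℕ → ℕ} (hf : PE e f) (hg : PE e' g) :
    PE (e + e') fun M => f M * g M := by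
  obtain ⟨K, h⟩ := hf
  obtain ⟨L, h'⟩ := hg
  refine ⟨K * L, fun M hM => ?_⟩
  calc f M * g M ≤ (K * M ^ e) * (L * M ^ e') := Nat.mul_le_mul (h M hM) (h' M hM)
    _ = _ := by ring

theorem PE.sq {e : ℕ} {f : ℕ → ℕ} (hf : PE e f) : PE (e + e) fun M => f M ^ 2 := by
  have h := hf.mul hf
  have e1 : (fun M => f M ^ 2) = fun M => f M * f M := funext fun M => pow_two (f M)
  rw [e1]
  exact h

theorem PE.ell1 : PE 1 fun M => ell 1 M := by
  refine ⟨1, fun M _ => ?_⟩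
  change (M + 1 - 1).choose 1 ≤ 1 * M ^ 1
  rw [Nat.add_sub_cancel, Nat.choose_one_right]
  simp

theorem PE.ell2 : PE 2 fun M => ell (1 + 1) M := by
  refine ⟨1, fun M _ => ?_⟩
  have h := ell_le_mul 1 M
  have h1 : ell 1 M = M := by
    unfold ell
    rw [Nat.add_sub_cancel, Nat.choose_one_right]
  rw [h1] at h
  calc ell (1 + 1) M ≤ M * M := h
    _ = _ := by ring

theorem PE.cC : PE 5 fun M => cC 1 M := by
  unfold Pool.Agent.H18.Ex.cC
  have h1 : PE 3 fun M => 2 * (1 + ell (1 + 1) M * M) :=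
    (((PE.const 2 0).mul (((PE.const 1 3).add (PE.ell2.mul PE.id)))).mono (by omega))
  have h2 : PE 2 fun M => ell (1 + 1) M + 1 := PE.ell2.add (PE.const 1 2)
  have h3 : PE 1 fun M => 2 * ell 1 M := ((PE.const 2 0).mul PE.ell1).mono (by omega)
  have h4 : PE 1 fun M => 2 * M := ((PE.const 2 0).mul PE.id).mono (by omega)
  have h5 : PE 2 fun M => ell (1 + 1) M + M * (1 + 1) :=
    PE.ell2.add ((PE.id.mul (PE.const (1 + 1) 0)).mono (by omega))
  exact ((((h1.mul h2).mono (by omega)).add ((h3.mul h2).mono (by omega))).add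
    ((h4.mul h5).mono (by omega))).add (PE.const 1 5)

theorem PE.cb : PE 5 fun M => cb 1 M 1 (Pool.Agent.H18.Ex.cC 1 M) := by
  unfold Pool.Agent.H18.Ex.cb
  have h1 : PE 5 fun M => 2 * (1 + 1) ^ 2 * (M * (1 + 1) + 2 * ell (1 + 1) M + 2) := by
    refine ((PE.const (2 * (1 + 1) ^ 2) 0).mul ((((PE.id.mul (PE.const (1 + 1) 0)).mono
      (by omega : 1 + 0 ≤ 2)).add (((PE.const 2 0).mul PE.ell2).mono
      (by omega))).add (PE.const 2 2))).mono (by omega)
  have h2 : PE 5 fun M => 16 * M ^ 2 * ell 1 M ^ 2 :=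
    (((PE.const 16 0).mul PE.id.sq).mul PE.ell1.sq).mono (by omega)
  exact (((PE.const 1 5).add h1).add h2).add PE.cC

theorem PE.cB : PE 5 fun M => cB 1 M 1 (Pool.Agent.H18.Ex.cC 1 M) := by
  unfold Pool.Agent.H18.Ex.cB
  have h1 : PE 1 fun M => cq 1 M := by
    unfold cq
    exact (((PE.const 32 0).mul PE.id).mul (PE.const ((1 + 1) ^ 3) 0)).mono (by omega)
  have h2 : PE 1 fun M => M + 1 := PE.id.add (PE.const 1 1)
  exact ((((PE.const 2 0).mul PE.cb).mono (by omega)).add ((h1.mul h2).mono (by omega))).add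
    (PE.const 1 5)

theorem PE.cF : PE 15 fun M => cF M 1 := by
  have h0 : (fun M => Pool.Agent.H18.Ex.cF M 1) = fun M => (1 + 1) ^ 1 *
      Pool.Agent.H18.Ex.cC 1 M * (4 * Pool.Agent.H18.Ex.cB 1 M 1 (Pool.Agent.H18.Ex.cC 1 M) +
        cq 1 M + 2) ^ (1 + 1) + 2 * M + Pool.Agent.H18.Ex.cB 1 M 1 (Pool.Agent.H18.Ex.cC 1 M) +
      2 * Pool.Agent.H18.Ex.cB 1 M 1 (Pool.Agent.H18.Ex.cC 1 M) + 2 * M + 2 + 1 := rfl
  rw [h0]
  have hq : PE 5 fun M => cq 1 M := by
    unfold cq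
    exact (((PE.const 32 0).mul PE.id).mul (PE.const ((1 + 1) ^ 3) 0)).mono (by omega)
  have h1 : PE 5 fun M => 4 * Pool.Agent.H18.Ex.cB 1 M 1 (Pool.Agent.H18.Ex.cC 1 M) +
      cq 1 M + 2 := ((((PE.const 4 0).mul PE.cB).mono (by omega)).add hq).add (PE.const 2 5)
  have h2 : PE 15 fun M => (1 + 1) ^ 1 * Pool.Agent.H18.Ex.cC 1 M *
      (4 * Pool.Agent.H18.Ex.cB 1 M 1 (Pool.Agent.H18.Ex.cC 1 M) + cq 1 M + 2) ^ (1 + 1) :=
    (((PE.const ((1 + 1) ^ 1) 0).mul PE.cC).mul h1.sq).mono (by omega)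
  have h3 : PE 15 fun M => 2 * M := ((PE.const 2 0).mul PE.id).mono (by omega)
  have h4 : PE 15 fun M => Pool.Agent.H18.Ex.cB 1 M 1 (Pool.Agent.H18.Ex.cC 1 M) :=
    PE.cB.mono (by omega)
  have h5 : PE 15 fun M => 2 * Pool.Agent.H18.Ex.cB 1 M 1 (Pool.Agent.H18.Ex.cC 1 M) :=
    ((PE.const 2 0).mul PE.cB).mono (by omega)
  exact (((((h2.add h3).add h4).add h5).add h3).add (PE.const 2 15)).add (PE.const 1 15)

/-- Exactness from the theorem for a fixed dimension. -/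
theorem exact_fat (s M : ℕ) (hM : 1 ≤ M) : ∀ d, cF M s ≤ d →
    ∀ (k : ℕ) (m : Fin k → ℕ), (∀ i, m i ≤ M) →
    ForGeneralPoints (s + 1) k fun p => ImposesMaximalConditions (s + 1) d p m := by
  intro d hd k m hm
  have hpos := cF_pos M s
  have hE : Exa (s + 1) M (Rg d fun _ : Fin (s + 2) => d) := by
    apply exa_fat M hM s
    refine ⟨?_, hd, fun l _ => hd, ?_⟩
    · rw [filter_true_of_mem fun l _ => (by omega : 0 < d), card_univ, Fintype.card_fin]
    · rw [sum_const, card_univ, Fintype.card_fin, smul_eq_mul]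
      have : (s + 2) * d = s * d + 2 * d := by ring
      omega
  rw [Rg_eq_Sx] at hE
  refine max_of_GM (s + 1) k d (by omega) m ?_
  rw [← aug_map]
  refine hE (aug (s + 1) d m) (mem_aug hM hm) ?_
  rw [card_Sx]
  exact le_tot_aug _ _ m

/-- The case `r - 1 < M`, `r ≥ 3`, with real numbers. -/
theorem region_mid (s M : ℕ) (hs : 2 ≤ s) (hM : 1 ≤ M) (hsM : s ≤ M) (d : ℕ)
    (hd : (2 : ℝ) ^ 37 * (M : ℝ) ^ (12 / (s : ℝ)) * M ^ 4 / s ^ 3 ≤ d) :
    ∀ (k : ℕ) (m : Fin k → ℕ), (∀ i, m i ≤ M) →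
    ForGeneralPoints (s + 1) k fun p => ImposesMaximalConditions (s + 1) d p m := by
  have hs0 : (0 : ℝ) < s := by
    have : 0 < s := by omega
    exact_mod_cast this
  have hM0 : (1 : ℝ) ≤ M := by exact_mod_cast hM
  have hMpos : (0 : ℝ) < M := by linarith only [hM0]
  -- `t`
  obtain ⟨t, ht⟩ : ∃ t, t = (M + s - 1) / s := ⟨_, rfl⟩
  have ht1 : t * s ≤ M + s - 1 := by rw [ht]; exact Nat.div_mul_le_self _ _
  have ht2 : M ≤ t * s := by
    have h1 := Nat.div_add_mod (M + s - 1) s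
    have h2 := Nat.mod_lt (M + s - 1) (show 0 < s by omega)
    rw [← ht, mul_comm] at h1
    omega
  have ht3 : 1 ≤ t := by
    rcases Nat.eq_zero_or_pos t with h | h
    · rw [h, Nat.zero_mul] at ht2
      omega
    · exact h
  have ht4 : t ≤ M := by
    by_contra hcon
    have h1 : (M + 1) * s ≤ t * s := Nat.mul_le_mul_right _ (by omega)
    have h2 : (M + 1) * s = M * s + s := by ring
    have h3 : M * 1 ≤ M * s := Nat.mul_le_mul_left _ (by omega)
    omega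
  -- `c`
  obtain ⟨x, hx⟩ : ∃ x : ℝ, x = (M : ℝ) ^ (4 / (s : ℝ)) := ⟨_, rfl⟩
  have hx1 : 1 ≤ x := by
    rw [hx]
    exact Real.one_le_rpow hM0 (by positivity)
  have hxs : x ^ s = (M : ℝ) ^ 4 := by
    rw [hx, ← Real.rpow_natCast, ← Real.rpow_mul hMpos.le, div_mul_cancel₀ _ hs0.ne']
    norm_cast
  have hx3 : x ^ 3 = (M : ℝ) ^ (12 / (s : ℝ)) := by
    rw [hx, ← Real.rpow_natCast, ← Real.rpow_mul hMpos.le]
    congr 1
    push_cast
    ring
  have hx2 : x ≤ (M : ℝ) ^ 2 := by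
    rw [hx, ← Real.rpow_natCast]
    refine Real.rpow_le_rpow_of_exponent_le hM0 ?_
    rw [div_le_iff₀ hs0]
    have : (2 : ℝ) ≤ s := by exact_mod_cast hs
    push_cast
    linarith only [this]
  obtain ⟨c, hc⟩ : ∃ c, c = ⌈x⌉₊ := ⟨_, rfl⟩
  have hcx : x ≤ c := by rw [hc]; exact Nat.le_ceil x
  have hc2 : (c : ℝ) ≤ 2 * x := by
    have := Nat.ceil_lt_add_one (show 0 ≤ x by linarith only [hx1])
    rw [← hc] at this
    linarith only [hx1, this]
  have hc1 : 1 ≤ c := by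
    have : (1 : ℝ) ≤ c := le_trans hx1 hcx
    exact_mod_cast this
  have hcM : c ≤ M ^ 2 := by
    rw [hc]
    refine Nat.ceil_le.2 ?_
    push_cast
    exact hx2
  have hcs : M ^ 4 ≤ c ^ s := by
    have h1 : (M : ℝ) ^ 4 ≤ (c : ℝ) ^ s := by
      rw [← hxs]
      exact pow_le_pow_left₀ (by linarith only [hx1]) hcx s
    exact_mod_cast h1
  refine region_one s M t c hs hM ht2 ht3 ht4 (by omega) hcs hcM hc1 d ?_
  have hts : (t : ℝ) * s ≤ 2 * M := by
    have : t * s ≤ 2 * M := by omega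
    exact_mod_cast this
  have hfin : (2 : ℝ) ^ 30 * (c : ℝ) ^ 3 * (t : ℝ) ^ 4 * s ≤ d := by
    refine le_trans ?_ hd
    rw [le_div_iff₀ (by positivity)]
    have h1 : (c : ℝ) ^ 3 ≤ 8 * x ^ 3 := by
      calc (c : ℝ) ^ 3 ≤ (2 * x) ^ 3 := pow_le_pow_left₀ (by positivity) hc2 3
        _ = 8 * x ^ 3 := by ring
    have h2 : ((t : ℝ) * s) ^ 4 ≤ 16 * (M : ℝ) ^ 4 := by
      calc ((t : ℝ) * s) ^ 4 ≤ (2 * (M : ℝ)) ^ 4 := pow_le_pow_left₀ (by positivity) hts 4
        _ = _ := by ring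
    calc (2 : ℝ) ^ 30 * (c : ℝ) ^ 3 * (t : ℝ) ^ 4 * s * s ^ 3 =
        (2 : ℝ) ^ 30 * (c : ℝ) ^ 3 * ((t : ℝ) * s) ^ 4 := by ring
      _ ≤ (2 : ℝ) ^ 30 * (8 * x ^ 3) * (16 * (M : ℝ) ^ 4) :=
          mul_le_mul (mul_le_mul_of_nonneg_left h1 (by positivity)) h2 (by positivity)
            (by positivity)
      _ = _ := by rw [← hx3]; ring
  exact_mod_cast hfin

/-- The region of exactness, every dimension. -/
theorem region_real : ∃ C : ℝ, 0 < C ∧ ∀ r M : ℕ, 1 ≤ r → 1 ≤ M → ∀ d : ℕ,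
    C * M * (1 + (M : ℝ) / r) ^ 3 * (M : ℝ) ^ (22 / (r : ℝ)) ≤ d →
    ∀ (k : ℕ) (m : Fin k → ℕ), (∀ i, m i ≤ M) →
    ForGeneralPoints r k fun p => ImposesMaximalConditions r d p m := by
  obtain ⟨K, hK⟩ := PE.cF
  refine ⟨2 ^ 162 + 8 * K, by positivity, fun r M hr hM d hd k m hm => ?_⟩
  have hM0 : (1 : ℝ) ≤ M := by exact_mod_cast hM
  have hMpos : (0 : ℝ) < M := by linarith only [hM0]
  have hK0 : (0 : ℝ) ≤ K := Nat.cast_nonneg K
  have hr0 : (0 : ℝ) < r := by exact_mod_cast hr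
  have hpow : 1 ≤ (M : ℝ) ^ (22 / (r : ℝ)) := Real.one_le_rpow hM0 (by positivity)
  have hq : 1 ≤ 1 + (M : ℝ) / r := by
    have : 0 ≤ (M : ℝ) / r := by positivity
    linarith only [this]
  have hq3 : 1 ≤ (1 + (M : ℝ) / r) ^ 3 := one_le_pow₀ hq
  have hlin : (2 : ℝ) ^ 162 * M ≤ d := by
    refine le_trans ?_ hd
    calc (2 : ℝ) ^ 162 * M = 2 ^ 162 * M * 1 * 1 := by ring
      _ ≤ (2 ^ 162 + 8 * K) * M * (1 + (M : ℝ) / r) ^ 3 * (M : ℝ) ^ (22 / (r : ℝ)) := by
          refine mul_le_mul (mul_le_mul (mul_le_mul_of_nonneg_right (by linarith only) hMpos.le) hq3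
            (by norm_num) (by positivity)) hpow (by norm_num) (by positivity)
  rcases Nat.lt_or_ge r 3 with h3 | h3
  · rcases Nat.lt_or_ge r 2 with h2 | h2
    · obtain rfl : r = 1 := by omega
      refine exact_fat 0 M hM d ?_ k m hm
      change 1 ≤ d
      have : (1 : ℝ) ≤ d := le_trans (by nlinarith only [hM0]) hlin
      exact_mod_cast this
    · obtain rfl : r = 2 := by omega
      refine exact_fat 1 M hM d (le_trans (hK M hM) ?_) k m hm
      have h4 : (K : ℝ) * (M : ℝ) ^ 15 ≤ d := by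
        refine le_trans ?_ hd
        have e1 : (M : ℝ) ^ (22 / ((2 : ℕ) : ℝ)) = (M : ℝ) ^ 11 := by
          rw [← Real.rpow_natCast]
          congr 1
          norm_num
        rw [e1]
        have e2 : (M : ℝ) ^ 3 / 8 ≤ (1 + (M : ℝ) / ((2 : ℕ) : ℝ)) ^ 3 := by
          calc (M : ℝ) ^ 3 / 8 = ((M : ℝ) / ((2 : ℕ) : ℝ)) ^ 3 := by
                push_cast
                ring
            _ ≤ _ := pow_le_pow_left₀ (by positivity) (by linarith only) 3
        calc (K : ℝ) * (M : ℝ) ^ 15 = (8 * K) * M * ((M : ℝ) ^ 3 / 8) * (M : ℝ) ^ 11 := by ring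
          _ ≤ (2 ^ 162 + 8 * K) * M * (1 + (M : ℝ) / ((2 : ℕ) : ℝ)) ^ 3 * (M : ℝ) ^ 11 := by
              refine mul_le_mul_of_nonneg_right (mul_le_mul (mul_le_mul_of_nonneg_right
                ?_ hMpos.le) e2 (by positivity) (by positivity)) (by positivity)
              have : (0 : ℝ) ≤ 2 ^ 162 := by positivity
              linarith only
      exact_mod_cast h4
  · obtain ⟨s, rfl⟩ : ∃ s, r = s + 1 := ⟨r - 1, by omega⟩
    rcases Nat.lt_or_ge s M with hsM | hsM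
    · refine region_mid s M (by omega) hM hsM.le d ?_ k m hm
      refine le_trans ?_ hd
      have hs2 : (2 : ℝ) ≤ s := by
        have : 2 ≤ s := by omega
        exact_mod_cast this
      have hs0 : (0 : ℝ) < s := by linarith only [hs2]
      have e1 : (M : ℝ) ^ (12 / (s : ℝ)) ≤ (M : ℝ) ^ (22 / ((s + 1 : ℕ) : ℝ)) := by
        refine Real.rpow_le_rpow_of_exponent_le hM0 ?_
        rw [div_le_div_iff₀ hs0 (by positivity)]
        push_cast
        linarith only [hs2]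
      have e2 : (M : ℝ) ^ 3 / s ^ 3 ≤ 4 * (1 + (M : ℝ) / ((s + 1 : ℕ) : ℝ)) ^ 3 := by
        have h5 : (M : ℝ) / s ≤ 3 / 2 * ((M : ℝ) / ((s + 1 : ℕ) : ℝ)) := by
          rw [← mul_div_assoc, div_le_div_iff₀ hs0 (by positivity)]
          push_cast
          nlinarith only [hs2]
        have h6 : 0 ≤ (M : ℝ) / ((s + 1 : ℕ) : ℝ) := by positivity
        calc (M : ℝ) ^ 3 / s ^ 3 = ((M : ℝ) / s) ^ 3 := by rw [div_pow]
          _ ≤ (3 / 2 * ((M : ℝ) / ((s + 1 : ℕ) : ℝ))) ^ 3 :=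
              pow_le_pow_left₀ (by positivity) h5 3
          _ = 27 / 8 * ((M : ℝ) / ((s + 1 : ℕ) : ℝ)) ^ 3 := by ring
          _ ≤ 4 * ((M : ℝ) / ((s + 1 : ℕ) : ℝ)) ^ 3 :=
              mul_le_mul_of_nonneg_right (by norm_num) (by positivity)
          _ ≤ _ := mul_le_mul_of_nonneg_left (pow_le_pow_left₀ h6 (by linarith only) 3) (by norm_num)
      calc (2 : ℝ) ^ 37 * (M : ℝ) ^ (12 / (s : ℝ)) * M ^ 4 / s ^ 3 =
          (2 : ℝ) ^ 37 * M * ((M : ℝ) ^ 3 / s ^ 3) * (M : ℝ) ^ (12 / (s : ℝ)) := by ring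
        _ ≤ (2 : ℝ) ^ 37 * M * (4 * (1 + (M : ℝ) / ((s + 1 : ℕ) : ℝ)) ^ 3) *
            (M : ℝ) ^ (22 / ((s + 1 : ℕ) : ℝ)) :=
            mul_le_mul (mul_le_mul_of_nonneg_left e2 (by positivity)) e1 (by positivity)
              (by positivity)
        _ = (2 ^ 37 * 4) * M * (1 + (M : ℝ) / ((s + 1 : ℕ) : ℝ)) ^ 3 *
            (M : ℝ) ^ (22 / ((s + 1 : ℕ) : ℝ)) := by ring
        _ ≤ _ := by
            refine mul_le_mul_of_nonneg_right (mul_le_mul_of_nonneg_right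
              (mul_le_mul_of_nonneg_right ?_ hMpos.le) (by positivity)) (by positivity)
            have : (2 : ℝ) ^ 37 * 4 ≤ 2 ^ 162 := by norm_num
            linarith only
    · refine region_two s M (by omega) hM hsM d ?_ k m hm
      exact_mod_cast hlin

end Pool.Agent.H21.NX

end
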