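import Pool.Agent.H94.LP7.H51.TB.Core
import Pool.Agent.H94.LP7.M125
import Pool.Agent.H94.LP7.M91

/-! The parts of this file: H51.TB.Cone, H51.TB.Pair. -/

section

/-!
# Module E5 (TB): one large point and simple points

`simple_add`: adding a simple point lowers `gdim` by one unless it is `0` (`le_gdim_elim` with
`ell r 1 = 1`, `gdim_elim_le`, `gdim_simple`).  Then induction on the number of simple points, starting
from `gdim_single`.  From `gdim` to general points: `gen_gdim` (`Gen r (Fin k)` is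
`ForGeneralPoints r k`), see the end of `Pool/Agent/H21/NX/Window.lean` (`window_fin`).

`cone`: let `m i₀` be the largest multiplicity, `m i₀ ≥ d`.  If `m i₀ ≥ d + 1` there is no other point
(`1 ≤ m j ≤ 0`), `V = 0` (`MainX.big_mult`) and `ell r (m i₀) ≥ ell r (d + 1) = binom (d + r, r)`.  If
`m i₀ = d` all other points are simple.
-/

namespace Pool.Agent.H51.TB

open Finset MvPolynomial Pool.Agent.H18.Fat Pool.Agent.H18.Ex Pool.Agent.H21.NX

theorem simple_add (r d : ℕ) (hr : 1 ≤ r) {κ : Type} [Fintype κ] (m : κ → ℕ) :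
    gdim r d (Sum.elim m fun _ : Unit => 1) = gdim r d m - 1 := by
  have h1 := gdim_elim_le r d m (fun _ : Unit => 1)
  have h2 := le_gdim_elim r d hr m (fun _ : Unit => 1)
  have h3 : ∑ _j : Unit, ell r 1 = 1 := by
    rw [Fintype.sum_unique]
    unfold ell
    rw [Nat.add_sub_cancel_left, Nat.choose_self]
  rw [h3] at h2
  have h4 := gdim_simple r d m 1 le_rfl
  by_cases h5 : gdim r d (Sum.elim m fun _ : Unit => 1) = gdim r d m
  · have h6 := h4 h5
    omega
  · omega

private theorem Cone_many (r d : ℕ) (hr : 1 ≤ r) {κ : Type} [Fintype κ] (m : κ → ℕ) (n : ℕ) :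
    gdim r d (Sum.elim m fun _ : Fin n => 1) = gdim r d m - n := by
  induction n with
  | zero =>
    rw [Nat.sub_zero]
    have h := gdim_comp_equiv r d (Equiv.sumEmpty κ (Fin 0)) m
    rw [← h]
    congr 1
    funext x
    rcases x with i | j
    · rfl
    · exact j.elim0
  | succ n ih =>
    have h1 := simple_add r d hr (Sum.elim m fun _ : Fin n => 1)
    rw [ih] at h1
    let e : κ ⊕ Fin (n + 1) ≃ (κ ⊕ Fin n) ⊕ Unit :=
      ((Equiv.refl κ).sumCongr ((finSuccEquiv n).trans (Equiv.optionEquivSumPUnit.{0, 0} _))).trans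
        (Equiv.sumAssoc _ _ _).symm
    have h2 := gdim_comp_equiv r d e (Sum.elim (Sum.elim m fun _ : Fin n => 1) fun _ : Unit => 1)
    have h3 : (fun i => Sum.elim (Sum.elim m fun _ : Fin n => 1) (fun _ : Unit => 1) (e i)) =
        Sum.elim m fun _ : Fin (n + 1) => 1 := by
      funext x
      rcases x with i | j
      · rfl
      · refine Fin.cases ?_ (fun j => ?_) j
        · simp [e]
        · simp [e]
    rw [h3, h1] at h2
    rw [h2]
    omega

theorem cone (r d k : ℕ) (hr : 1 ≤ r) (m : Fin k → ℕ) (hm : ∀ i, 1 ≤ m i)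
    (hp : ∀ i j, i ≠ j → m i + m j ≤ d + 1) (i₀ : Fin k) (h0 : d ≤ m i₀) :
    ForGeneralPoints r k fun p => ImposesMaximalConditions r d p m := by
  classical
  rcases Nat.lt_or_ge d (m i₀) with hlt | hge
  · -- a multiplicity larger than the degree
    have h1 : (d + r).choose r ≤ ∑ i, (m i + r - 1).choose r := by
      refine le_trans ?_ (Finset.single_le_sum (f := fun i => (m i + r - 1).choose r)
        (fun i _ => Nat.zero_le _) (Finset.mem_univ i₀))
      exact Nat.choose_le_choose r (by omega)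
    refine ⟨1, one_ne_zero, fun p _ => ?_⟩
    change ImposesMaximalConditions r d p m
    unfold ImposesMaximalConditions
    rw [Pool.Agent.H21.HD.MainX.big_mult p m i₀ hlt]
    have h2 : (((d + r).choose r : ℕ) : ℤ) ≤ ∑ i, (((m i + r - 1).choose r : ℕ) : ℤ) := by
      exact_mod_cast h1
    rw [max_eq_left (by linarith)]
    simp
  · have hd : m i₀ = d := le_antisymm hge h0
    have hs : ∀ j, j ≠ i₀ → m j = 1 := by
      intro j hj
      have h1 := hm j
      have h2 := hp i₀ j (Ne.symm hj)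
      omega
    obtain ⟨n, hn⟩ : ∃ n, Fintype.card {j : Fin k // ¬ j = i₀} = n := ⟨_, rfl⟩
    let e2 : {j : Fin k // ¬ j = i₀} ≃ Fin n := Fintype.equivFinOfCardEq hn
    let e1 : {j : Fin k // j = i₀} ≃ Unit := Equiv.ofUnique _ _
    let e : Unit ⊕ Fin n ≃ Fin k := (Equiv.sumCongr e1.symm e2.symm).trans (Equiv.sumCompl fun j => j = i₀)
    have he : (fun i => m (e i)) = Sum.elim (fun _ : Unit => d) fun _ : Fin n => 1 := by
      funext x
      rcases x with u | j
      · have h1 : e (Sum.inl u) = i₀ := by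
          change ((e1.symm u : {j : Fin k // j = i₀}) : Fin k) = i₀
          exact (e1.symm u).2
        change m (e (Sum.inl u)) = d
        rw [h1, hd]
      · have h1 : e (Sum.inr j) ≠ i₀ := by
          change ((e2.symm j : {j : Fin k // ¬ j = i₀}) : Fin k) ≠ i₀
          exact (e2.symm j).2
        exact hs _ h1
    have h3 : gdim r d m = gdim r d (fun _ : Unit => d) - n := by
      rw [← gdim_comp_equiv r d e m, he]
      exact Cone_many r d hr _ n
    have h4 := gdim_single r d hr d (Nat.le_succ d)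
    have h5 : ∑ i, ell r (m i) = ell r d + n := by
      rw [← Equiv.sum_comp e (fun i => ell r (m i)), Fintype.sum_sum_type]
      have h6 : ∀ u : Unit, ell r (m (e (Sum.inl u))) = ell r d := by
        intro u
        have := congrFun he (Sum.inl u)
        change m (e (Sum.inl u)) = d at this
        rw [this]
      have h7 : ∀ j : Fin n, ell r (m (e (Sum.inr j))) = 1 := by
        intro j
        have := congrFun he (Sum.inr j)
        change m (e (Sum.inr j)) = 1 at this
        rw [this]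
        unfold ell
        rw [Nat.add_sub_cancel_left, Nat.choose_self]
      rw [Finset.sum_congr rfl fun u _ => h6 u, Finset.sum_congr rfl fun j _ => h7 j]
      simp
    have hg : Gen r (Fin k) fun p => ImposesMaximalConditions r d p m := by
      refine (gen_gdim r d m).mono fun p hp => ?_
      unfold ImposesMaximalConditions
      rw [hp, h3]
      have e3 : ∑ i, (((m i + r - 1).choose r : ℕ) : ℤ) = ((∑ i, ell r (m i) : ℕ) : ℤ) := by
        push_cast
        rfl
      rw [e3, h5]
      omega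
    exact hg

end Pool.Agent.H51.TB

end

section

/-!
# Module E6 (TB): the theorem on pair sums

`pairs`: `k = 0`: `window_fin`.  Let `m i₀ = M` be the largest multiplicity.  If `M ≥ d` use `cone`.
Otherwise let `S` be the multiset of the `m i`, `i ≠ i₀`, together with
`binom (d + r, r) - ∑ ell r (m i)` simple points.  Then `1 ≤ x ≤ M`, `x + M ≤ d + 1` for `x ∈ S`,
`ell r M + tot r S ≥ binom (d + r, r) = ell r (d + 1)`, and the part of `tot r S` with `x + M = d + 1` is at
most the sum in `hH` (simple points do not contribute as `M ≤ d - 1`).  So the part with `x + M ≤ d` is at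
least `η N - ell r M ≥ (η / 2) N` (`grow_one`), and for one of the at most `d` values `μ`, `1 ≤ μ`,
`μ + M ≤ d`, `S.count μ * ell r μ ≥ η / (2 (d + 1)) * N`.  Apply `core` (with `η / (2 (d + 1))`) and
`max_of_GM`.

`pairs_le`: the sum in `hH` is over `i` with `m i + M = d + 1`, which can only be `i₀` (if `2 M = d + 1`),
so it is at most `ell r M ≤ N / 2`.
-/

namespace Pool.Agent.H51.TB

open Finset Pool.Agent.H18.Fat Pool.Agent.H18.Ex Pool.Agent.H21.NX

private theorem Pair_ell (r d : ℕ) : ell (r - 1) (d + 1) ≤ ell r (d + 1) := by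
  rcases Nat.eq_zero_or_pos r with rfl | hr
  · exact le_rfl
  · obtain ⟨s, rfl⟩ : ∃ s, r = s + 1 := ⟨r - 1, by omega⟩
    rw [Nat.add_sub_cancel, ell_succ]
    exact Nat.le_add_left _ _

private theorem Pair_tot (n D : ℕ) (S : Multiset ℕ) (hS : ∀ m ∈ S, m ≤ D) :
    tot n S = ∑ μ ∈ Finset.range (D + 1), S.count μ * ell n μ := by
  unfold tot
  have h2 := Finset.sum_multiset_map_count S (ell n)
  rw [h2]
  rw [Finset.sum_subset (s₂ := Finset.range (D + 1))]
  · exact Finset.sum_congr rfl fun x _ => by rw [smul_eq_mul]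
  · intro x hx
    rw [Finset.mem_range, Nat.lt_succ_iff]
    exact hS x (Multiset.mem_toFinset.1 hx)
  · intro x _ hx
    rw [Multiset.count_eq_zero_of_notMem (fun h => hx (Multiset.mem_toFinset.2 h)), zero_smul]

/-- the points other than `i₀` and simple points -/
private def Pair_S (r d : ℕ) {k : ℕ} (m : Fin k → ℕ) (i₀ : Fin k) : Multiset ℕ :=
  ((univ : Finset (Fin k)).erase i₀).val.map m +
    Multiset.replicate ((d + r).choose r - ∑ i, ell r (m i)) 1

private theorem Pair_aug (r d : ℕ) {k : ℕ} (m : Fin k → ℕ) (i₀ : Fin k) :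
    m i₀ ::ₘ Pair_S r d m i₀ = aug r d m := by
  unfold Pair_S aug
  rw [← Multiset.cons_add, ← Multiset.map_cons]
  congr 2
  rw [Finset.erase_val]
  exact Multiset.cons_erase (Finset.mem_univ i₀)

private theorem Pair_mem {r d k : ℕ} {m : Fin k → ℕ} {i₀ : Fin k} {x : ℕ} (hx : x ∈ Pair_S r d m i₀) :
    (∃ j, j ≠ i₀ ∧ m j = x) ∨ x = 1 := by
  rcases Multiset.mem_add.1 hx with hx | hx
  · obtain ⟨j, hj, rfl⟩ := Multiset.mem_map.1 hx
    exact Or.inl ⟨j, Finset.ne_of_mem_erase (Finset.mem_def.2 hj), rfl⟩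
  · exact Or.inr (Multiset.eq_of_mem_replicate hx)

private theorem Pair_hi (r d : ℕ) {k : ℕ} (m : Fin k → ℕ) (i₀ : Fin k) (M : ℕ) (hMd : M < d)
    (hm : ∀ j, j ≠ i₀ → m j + M ≤ d + 1) :
    tot r ((Pair_S r d m i₀).filter fun x => ¬ (x + M ≤ d)) ≤
      ∑ i ∈ univ.filter (fun i => m i + M = d + 1), ell r (m i) := by
  unfold Pair_S
  rw [Multiset.filter_add, tot_add]
  have h1 : (Multiset.replicate ((d + r).choose r - ∑ i, ell r (m i)) 1).filter (fun x => ¬ (x + M ≤ d)) = 0 := by
    rw [Multiset.filter_eq_nil]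
    intro x hx
    rw [Multiset.eq_of_mem_replicate hx]
    omega
  rw [h1, tot_zero, add_zero, Multiset.filter_map]
  unfold tot
  rw [Multiset.map_map, ← Finset.filter_val]
  change ∑ i ∈ (univ.erase i₀).filter (fun x => ¬ (m x + M ≤ d)), ell r (m i) ≤ _
  apply Finset.sum_le_sum_of_subset
  intro j hj
  rw [Finset.mem_filter, Finset.mem_erase] at hj
  rw [Finset.mem_filter]
  refine ⟨Finset.mem_univ _, ?_⟩
  have := hm j hj.1.1
  have h2 := hj.2
  omega

theorem pairs (d : ℕ) (η : ℝ) (hη : 0 < η) : ∃ r₀ : ℕ, ∀ r : ℕ, r₀ ≤ r → ∀ (k : ℕ)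
    (m : Fin k → ℕ), (∀ i, 1 ≤ m i) → (∀ i j, i ≠ j → m i + m j ≤ d + 1) →
    ∀ M : ℕ, (∀ i, m i ≤ M) → (∃ i, m i = M) →
    (M < d → ((∑ i ∈ univ.filter (fun i => m i + M = d + 1), ell r (m i) : ℕ) : ℝ) ≤
      (1 - η) * ((d + r).choose r : ℝ)) →
    ForGeneralPoints r k fun p => ImposesMaximalConditions r d p m := by
  have hd1 : (0 : ℝ) < (d : ℝ) + 1 := by positivity
  obtain ⟨r₁, hcore⟩ := core d (η / (2 * (d + 1))) (by positivity)
  obtain ⟨n₀, hgrow⟩ := grow_one d (2 / η)
  refine ⟨max (max r₁ n₀) 1, ?_⟩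
  intro r hr k m hm hp M hM hex hH
  have hr1 : r₁ ≤ r := le_trans (le_max_left _ _) (le_trans (le_max_left _ _) hr)
  have hr2 : n₀ ≤ r := le_trans (le_max_right _ _) (le_trans (le_max_left _ _) hr)
  have hr3 : 1 ≤ r := le_trans (le_max_right _ _) hr
  obtain ⟨i₀, hi₀⟩ := hex
  rcases le_or_gt d M with hdM | hMd
  · exact cone r d k hr3 m hm hp i₀ (by rw [hi₀]; exact hdM)
  have hH' := hH hMd
  set N : ℕ := ell r (d + 1) with hN
  have hNc : (d + r).choose r = N := (ell_eq_choose r d).symm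
  rw [hNc] at hH'
  have hN1 : 1 ≤ N := ell_pos r (by omega)
  have hN0 : (0 : ℝ) < N := by exact_mod_cast hN1
  have hM1 : 1 ≤ M := by rw [← hi₀]; exact hm i₀
  have hpM : ∀ j, j ≠ i₀ → m j + M ≤ d + 1 := by
    intro j hj
    rw [← hi₀]
    exact hp j i₀ hj
  set S := Pair_S r d m i₀ with hS
  have hSmem : ∀ x ∈ S, 1 ≤ x ∧ x ≤ M ∧ x + M ≤ d + 1 := by
    intro x hx
    rcases Pair_mem hx with ⟨j, hj, rfl⟩ | rfl
    · exact ⟨hm j, hM j, hpM j hj⟩
    · exact ⟨le_rfl, hM1, by omega⟩
  have haug : M ::ₘ S = aug r d m := by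
    rw [hS, ← hi₀]
    exact Pair_aug r d m i₀
  have htot : N ≤ ell r M + tot r S := by
    rw [← tot_cons, haug]
    exact le_tot_aug r d m
  have hellM : (ell r M : ℝ) ≤ η / 2 * N := by
    have h1 := hgrow r hr2 M hMd.le
    have h2 : ((ell (r - 1) (d + 1) : ℕ) : ℝ) ≤ N := by exact_mod_cast Pair_ell r d
    have h3 : 2 / η * (ell r M : ℝ) ≤ N := h1.trans h2
    have h4 : η / 2 * (2 / η * (ell r M : ℝ)) ≤ η / 2 * N := mul_le_mul_of_nonneg_left h3 (by positivity)
    have h5 : η / 2 * (2 / η * (ell r M : ℝ)) = ell r M := by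
      field_simp
    rwa [h5] at h4
  set S' := S.filter fun x => x + M ≤ d with hS'
  have hsplit : tot r S = tot r S' + tot r (S.filter fun x => ¬ (x + M ≤ d)) := by
    rw [← tot_add, Multiset.filter_add_not]
  have hhi := Pair_hi r d m i₀ M hMd hpM
  rw [← hS] at hhi
  have hlow : η / 2 * N ≤ (tot r S' : ℝ) := by
    have h1 : (N : ℝ) ≤ ell r M + tot r S := by exact_mod_cast htot
    have h2 : (tot r S : ℝ) = tot r S' + tot r (S.filter fun x => ¬ (x + M ≤ d)) := by exact_mod_cast hsplit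
    have h3 : (tot r (S.filter fun x => ¬ (x + M ≤ d)) : ℝ) ≤
        ((∑ i ∈ univ.filter (fun i => m i + M = d + 1), ell r (m i) : ℕ) : ℝ) := by exact_mod_cast hhi
    nlinarith
  obtain ⟨μ, hμ1, hμ2, hμ3⟩ : ∃ μ : ℕ, 1 ≤ μ ∧ μ + M ≤ d ∧
      η / (2 * (d + 1)) * (N : ℝ) ≤ ((S.count μ * ell r μ : ℕ) : ℝ) := by
    by_contra hcon
    push Not at hcon
    have hS'm : ∀ x ∈ S', x ≤ d - M := by
      intro x hx
      have := (Multiset.mem_filter.1 hx).2
      omega
    have h1 := Pair_tot r (d - M) S' hS'm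
    have h2 : (tot r S' : ℝ) = ∑ μ ∈ Finset.range (d - M + 1), ((S'.count μ * ell r μ : ℕ) : ℝ) := by
      rw [h1]
      push_cast
      rfl
    have h3 : ∑ μ ∈ Finset.range (d - M + 1), ((S'.count μ * ell r μ : ℕ) : ℝ) ≤
        ∑ μ ∈ Finset.range (d - M + 1), η / (2 * (d + 1)) * (N : ℝ) := by
      apply Finset.sum_le_sum
      intro μ hμ
      rw [Finset.mem_range] at hμ
      rcases Nat.eq_zero_or_pos μ with h0 | h0
      · rw [h0, ell_zero hr3, mul_zero, Nat.cast_zero]
        positivity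
      · have h4 : S'.count μ = S.count μ := Multiset.count_filter_of_pos (p := fun x => x + M ≤ d) (by omega)
        rw [h4]
        exact (hcon μ h0 (by omega)).le
    rw [Finset.sum_const, Finset.card_range, nsmul_eq_mul] at h3
    have h5 : ((d - M + 1 : ℕ) : ℝ) ≤ (d : ℝ) := by
      have : d - M + 1 ≤ d := by omega
      exact_mod_cast this
    have h6 : ((d - M + 1 : ℕ) : ℝ) * (η / (2 * (d + 1)) * (N : ℝ)) ≤ d * (η / (2 * (d + 1)) * (N : ℝ)) :=
      mul_le_mul_of_nonneg_right h5 (by positivity)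
    have h7 : (d : ℝ) * (η / (2 * (d + 1)) * (N : ℝ)) < η / 2 * N := by
      have h8 : (d : ℝ) * (η / (2 * (d + 1)) * (N : ℝ)) = η / 2 * N * (d / (d + 1)) := by
        field_simp
      rw [h8]
      have h9 : (d : ℝ) / (d + 1) < 1 := by
        rw [div_lt_one hd1]
        linarith
      have h10 : 0 < η / 2 * (N : ℝ) := by positivity
      nlinarith
    linarith
  have hμM : μ ≤ M := by
    have h1 : 0 < S.count μ := by
      rcases Nat.eq_zero_or_pos (S.count μ) with h0 | h0
      · rw [h0, zero_mul, Nat.cast_zero] at hμ3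
        have : 0 < η / (2 * ((d : ℝ) + 1)) * (N : ℝ) := by positivity
        linarith
      · exact h0
    exact (hSmem μ (Multiset.count_pos.1 h1)).2.1
  refine max_of_GM r k d hr3 m ?_
  rw [← aug_map, ← haug]
  exact hcore r hr1 M μ M S hμ1 hμM hμ2 le_rfl hSmem htot hμ3

end Pool.Agent.H51.TB

end
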