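import Pool.Agent.H94.LP7.M104
import Pool.Agent.H94.LP7.M11
import Pool.Agent.H94.LP7.M14

/-! The parts of this file: H51.TB.Para, V7.AL.Tens. -/

section

/-!
# Module U3 (TB2): the parabolic argument

Compare `Pool/Agent/H51/TB/LSpan.lean` (delivered, complete): its private lemmas can be copied (rename them
`Para_...`; replace `Bx a b d j` by `Bu a b d j o e` where needed).

Let `f ∈ V m p₀`, `F = ∑ f_α z^α`, a polynomial of degree at most `e` in `x_o`.  For `A` with
`A k o = 0` for `k ≠ o` (the substitution `x_o → λ x_o + ℓ(x')`, `x_k → A'(x')_k`), and any `B`, the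
polynomial `F_{A,B}` is again of degree `≤ e` in `x_o`, and if `det A ≠ 0`, `det B ≠ 0` its
coefficients are in `V m p` for `p_i = (adj(A) x_i, adj(B) y_i)`.  So
`φ(F_{A,B}) * det A * det B * G(p) = 0` for all such `A`, `B` (polynomials in the entries of such `A`
and of `B`); the last three factors are not the zero polynomial, hence `φ(F_{A,B}) = 0` for all such
`A`, `B`.  Use the substitutions `x_o → λ x_o + μ v(x')`, `x_k → c_k v(x')` (`k ≠ o`,
`v(x') = ∑_{k ≠ o} v_k x_k`), `y_k → c'_k w(y)`.  With `F = ∑_{i ≤ e} x_o^i F_i(x', y)`,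
`F_{A,B} = ∑_i (λ x_o + μ v)^i v^(d-j-i) w^j F_i(c, c')`, so
`∑_k λ^k φ(x_o^k v^(d-j-k) w^j) ∑_{i ≥ k} binom (i, k) μ^(i-k) F_i(c, c') = 0`; the coefficient of
`λ^k μ^(e-k)` is `binom (e, k) F_e(c, c') φ(x_o^k v^(d-j-k) w^j) = 0` for all `k ≤ e`.  If `F_e ≠ 0`
choose `(c, c')` with `F_e(c, c') ≠ 0`; then `φ(x_o^k v^(d-j-k) w^j) = 0` for all `k ≤ e`, `v`, `w`; as
a polynomial in `v`, `w` this vanishes identically, so `φ(e_α) = 0` for all `α` in `Bu a b d j o e`
(characteristic 0), contradicting `φ ≠ 0`.
-/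

namespace Pool.Agent.H51.TB

open Finset MvPolynomial Pool.Agent.H18.Ex Pool.Agent.H21.NX Pool.Agent.H18.Ta

private lemma Para_mem_Bu {a b d j e : ℕ} {o : Fin a} {α : Z a b → ℕ} :
    α ∈ Bu a b d j o e ↔ (xd α + yd α = d ∧ yd α = j) ∧ α (Sum.inl o) ≤ e := by
  unfold Bu
  rw [mem_filter, mem_Bx]

private theorem Para_eval {a b : ℕ} (q : Z a b → ℂ) (α β : Z a b → ℕ) :
    eval q (tcr (fun i => (X i : MvPolynomial (Z a b) ℂ)) α β) = tcr q α β := by
  unfold tcr
  rw [map_prod]
  refine prod_congr rfl fun i _ => ?_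
  rw [map_mul, map_natCast, map_pow, eval_X]

private theorem Para_mem_AV {a b : ℕ} {A : Finset (Z a b → ℕ)} {κ : Type}
    (m : κ → Finset (ℕ × ℕ)) (p : κ → Z a b → ℂ) (f : {α // α ∈ A} → ℂ) :
    f ∈ (ASys A).V m p ↔ ∀ i (β : Z a b → ℕ), (xd β, yd β) ∈ m i →
      ∑ α : {α // α ∈ A}, tcr (p i) α.1 β * f α = 0 := by
  rw [Sys.mem_V]
  constructor
  · intro h i β hβ
    have h1 := h i ⟨β, hβ⟩
    refine Eq.trans (sum_congr rfl fun α _ => ?_) h1
    rw [← Para_eval (p i) α.1 β]
    rfl
  · intro h i r
    have h1 := h i r.1 r.2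
    refine Eq.trans (sum_congr rfl fun α _ => ?_) h1
    rw [← Para_eval (p i) α.1 r.1]
    rfl

/-- The weights of the variables. -/
private def Para_w (a b : ℕ) : Z a b → ℕ × ℕ := Sum.elim (fun _ => (1, 0)) fun _ => (0, 1)

private lemma Para_weight {a b : ℕ} (α : Z a b →₀ ℕ) :
    Finsupp.weight (Para_w a b) α = (xd α, yd α) := by
  rw [Finsupp.weight_apply, Finsupp.sum_fintype _ _ (by intro i; simp),
    Fintype.sum_sum_type]
  unfold xd yd Para_w
  ext <;> simp [Prod.fst_sum, Prod.snd_sum]

/-- The finitely supported function of a function. -/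
private noncomputable def Para_sf {a b : ℕ} (α : Z a b → ℕ) : Z a b →₀ ℕ :=
  Finsupp.equivFunOnFinite.symm α

private lemma Para_sf_coe {a b : ℕ} (α : Z a b → ℕ) : ⇑(Para_sf α) = α := rfl

private lemma Para_sf_eta {a b : ℕ} (α : Z a b →₀ ℕ) : Para_sf ⇑α = α := by
  ext i
  rfl

private lemma Para_sf_inj {a b : ℕ} {α β : Z a b → ℕ} : Para_sf α = Para_sf β ↔ α = β :=
  Finsupp.equivFunOnFinite.symm.injective.eq_iff

/-- The Taylor coefficients of a monomial. -/
private lemma Para_shift_monomial {a b : ℕ} (q : Z a b → ℂ) (α β : Z a b → ℕ) (c : ℂ) :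
    coeff (Para_sf β) (aeval (fun i => X i + C (q i)) (monomial (Para_sf α) c) :
      MvPolynomial (Z a b) ℂ) = c * tcr q α β := by
  classical
  rw [aeval_monomial, algebraMap_eq, coeff_C_mul, Finsupp.prod_fintype _ _ (by intro i; simp)]
  congr 1
  have h1 : ∀ j : Z a b, (X j + C (q j) : MvPolynomial (Z a b) ℂ) ^ (Para_sf α j) =
      ∑ b ∈ range (α j + 1), monomial (Finsupp.single j b)
        (((α j).choose b : ℂ) * q j ^ (α j - b)) := by
    intro j
    rw [Para_sf_coe, add_pow]
    refine sum_congr rfl fun b _ => ?_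
    rw [X_pow_eq_monomial, ← C_pow, mul_assoc, mul_comm (C (q j ^ (α j - b)))]
    rw [← C_eq_coe_nat, ← C_mul, mul_comm, C_mul_monomial, mul_one]
  simp_rw [h1]
  rw [prod_univ_sum, coeff_sum]
  have h2 : ∀ x ∈ Fintype.piFinset fun j => range (α j + 1),
      coeff (Para_sf β) (∏ j, monomial (Finsupp.single j (x j))
        (((α j).choose (x j) : ℂ) * q j ^ (α j - x j)) : MvPolynomial (Z a b) ℂ) =
      if x = β then tcr q α β else 0 := by
    intro x _
    rw [← monomial_sum_prod, coeff_monomial]
    have h4 : (∑ j, Finsupp.single j (x j)) = Para_sf x := by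
      unfold Para_sf
      rw [Finsupp.equivFunOnFinite_symm_eq_sum]
    rw [h4]
    by_cases hx : x = β
    · subst hx
      simp [tcr]
    · rw [if_neg, if_neg hx]
      intro h5
      exact hx (Para_sf_inj.1 h5)
  rw [sum_congr rfl h2, sum_ite_eq']
  split_ifs with h
  · rfl
  · rw [Fintype.mem_piFinset] at h
    push Not at h
    obtain ⟨j, hj⟩ := h
    rw [mem_range] at hj
    symm
    unfold tcr
    apply prod_eq_zero (mem_univ j)
    rw [Nat.choose_eq_zero_of_lt (by omega)]
    simp

/-- The polynomial of a coefficient vector. -/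
private noncomputable def Para_P {a b d j e : ℕ} {o : Fin a} (f : {α // α ∈ Bu a b d j o e} → ℂ) :
    MvPolynomial (Z a b) ℂ := ∑ α : {α // α ∈ Bu a b d j o e}, monomial (Para_sf α.1) (f α)

private lemma Para_coeff_P {a b d j e : ℕ} {o : Fin a} (f : {α // α ∈ Bu a b d j o e} → ℂ)
    (α : {α // α ∈ Bu a b d j o e}) : coeff (Para_sf α.1) (Para_P f) = f α := by
  classical
  unfold Para_P
  rw [coeff_sum]
  simp only [coeff_monomial, Para_sf_inj, Subtype.coe_inj]
  simp

private lemma Para_coeff_P_zero {a b d j e : ℕ} {o : Fin a} (f : {α // α ∈ Bu a b d j o e} → ℂ)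
    (α : Z a b → ℕ) (hα : α ∉ Bu a b d j o e) : coeff (Para_sf α) (Para_P f) = 0 := by
  classical
  unfold Para_P
  rw [coeff_sum]
  refine sum_eq_zero fun β _ => ?_
  rw [coeff_monomial, if_neg]
  intro h
  rw [Para_sf_inj] at h
  exact hα (h ▸ β.2)

private lemma Para_shift_P {a b d j e : ℕ} {o : Fin a} (q : Z a b → ℂ) (f : {α // α ∈ Bu a b d j o e} → ℂ)
    (β : Z a b → ℕ) :
    coeff (Para_sf β) (aeval (fun i => X i + C (q i)) (Para_P f) : MvPolynomial (Z a b) ℂ) =
      ∑ α : {α // α ∈ Bu a b d j o e}, tcr q α.1 β * f α := by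
  unfold Para_P
  rw [map_sum, coeff_sum]
  refine sum_congr rfl fun α _ => ?_
  rw [Para_shift_monomial, mul_comm]

/-- Substitutions respecting the weights. -/
private lemma Para_mono_hom {a b : ℕ} {g : Z a b → MvPolynomial (Z a b) ℂ}
    (hg : ∀ i, IsWeightedHomogeneous (Para_w a b) (g i) (Para_w a b i)) (α : Z a b →₀ ℕ)
    (c : ℂ) : IsWeightedHomogeneous (Para_w a b) (aeval g (monomial α c)) (xd α, yd α) := by
  rw [aeval_monomial, algebraMap_eq, Finsupp.prod_fintype _ _ (by intro i; simp)]
  have h1 : IsWeightedHomogeneous (Para_w a b) (∏ i, g i ^ α i) (xd α, yd α) := by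
    rw [← Para_weight, Finsupp.weight_apply, Finsupp.sum_fintype _ _ (by intro i; simp)]
    exact IsWeightedHomogeneous.prod _ _ _ fun i _ => (hg i).pow (α i)
  exact h1.C_mul c

private lemma Para_pres {a b : ℕ} {g : Z a b → MvPolynomial (Z a b) ℂ}
    (hg : ∀ i, IsWeightedHomogeneous (Para_w a b) (g i) (Para_w a b i)) (n : ℕ × ℕ)
    {H : MvPolynomial (Z a b) ℂ} (hH : ∀ β : Z a b →₀ ℕ, (xd β, yd β) = n → coeff β H = 0)
    (β : Z a b →₀ ℕ) (hβ : (xd β, yd β) = n) : coeff β (aeval g H) = 0 := by
  classical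
  rw [H.as_sum, map_sum, coeff_sum]
  refine sum_eq_zero fun α hα => ?_
  by_cases h : (xd α, yd α) = n
  · exact absurd (hH α h) (mem_support_iff.1 hα)
  · refine (Para_mono_hom hg α _).coeff_eq_zero β ?_
    rw [Para_weight, hβ]
    exact Ne.symm h

/-- The block substitution. -/
private noncomputable def Para_g {a b : ℕ} (A : Matrix (Fin a) (Fin a) ℂ)
    (B : Matrix (Fin b) (Fin b) ℂ) : Z a b → MvPolynomial (Z a b) ℂ :=
  Sum.elim (fun i => ∑ k, C (A i k) * X (Sum.inl k)) fun i => ∑ k, C (B i k) * X (Sum.inr k)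

private lemma Para_g_hom {a b : ℕ} (A : Matrix (Fin a) (Fin a) ℂ)
    (B : Matrix (Fin b) (Fin b) ℂ) (i : Z a b) :
    IsWeightedHomogeneous (Para_w a b) (Para_g A B i) (Para_w a b i) := by
  rcases i with i | i
  · show IsWeightedHomogeneous (Para_w a b) (∑ k, C (A i k) * X (Sum.inl k)) (1, 0)
    exact IsWeightedHomogeneous.sum _ _ _ fun k _ =>
      (isWeightedHomogeneous_X ℂ (Para_w a b) (Sum.inl k)).C_mul _
  · show IsWeightedHomogeneous (Para_w a b) (∑ k, C (B i k) * X (Sum.inr k)) (0, 1)
    exact IsWeightedHomogeneous.sum _ _ _ fun k _ =>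
      (isWeightedHomogeneous_X ℂ (Para_w a b) (Sum.inr k)).C_mul _

/-- The point `(A x, B y)`. -/
private def Para_mv {a b : ℕ} (A : Matrix (Fin a) (Fin a) ℂ)
    (B : Matrix (Fin b) (Fin b) ℂ) (q : Z a b → ℂ) : Z a b → ℂ :=
  Sum.elim (A.mulVec fun k => q (Sum.inl k)) (B.mulVec fun k => q (Sum.inr k))

private lemma Para_shift_comm {a b : ℕ} (A : Matrix (Fin a) (Fin a) ℂ)
    (B : Matrix (Fin b) (Fin b) ℂ) (q : Z a b → ℂ) (F : MvPolynomial (Z a b) ℂ) :
    aeval (fun i => X i + C (q i)) (aeval (Para_g A B) F) =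
      aeval (Para_g A B) (aeval (fun i => X i + C (Para_mv A B q i)) F) := by
  have h : (aeval (fun j => X j + C (q j)) :
      MvPolynomial (Z a b) ℂ →ₐ[ℂ] MvPolynomial (Z a b) ℂ).comp (aeval (Para_g A B)) =
      (aeval (Para_g A B)).comp (aeval (fun j => X j + C (Para_mv A B q j))) := by
    apply algHom_ext
    rintro (i | i)
    · simp only [Para_g, Para_mv, AlgHom.comp_apply, aeval_X, map_sum, map_mul, aeval_C,
        algebraMap_eq, map_add, mul_add, sum_add_distrib, Matrix.mulVec, dotProduct, Sum.elim_inl]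
    · simp only [Para_g, Para_mv, AlgHom.comp_apply, aeval_X, map_sum, map_mul, aeval_C,
        algebraMap_eq, map_add, mul_add, sum_add_distrib, Matrix.mulVec, dotProduct, Sum.elim_inr]
  exact DFunLike.congr_fun h F

/-- Scalar multiples of the two blocks. -/
private lemma Para_tcr_smul {a b : ℕ} (l m : ℂ) (x : Fin a → ℂ) (y : Fin b → ℂ)
    (α β : Z a b → ℕ) :
    tcr (Sum.elim (fun k => l * x k) fun k => m * y k : Z a b → ℂ) α β =
      l ^ (xd α - xd β) * m ^ (yd α - yd β) * tcr (Sum.elim x y : Z a b → ℂ) α β := by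
  by_cases h : ∀ i, β i ≤ α i
  · unfold tcr
    rw [Fintype.prod_sum_type, Fintype.prod_sum_type]
    simp only [Sum.elim_inl, Sum.elim_inr, mul_pow]
    have e1 : ∑ i, (α (Sum.inl i) - β (Sum.inl i)) = xd α - xd β := by
      unfold xd
      rw [Finset.sum_tsub_distrib _ fun i _ => h _]
    have e2 : ∑ i, (α (Sum.inr i) - β (Sum.inr i)) = yd α - yd β := by
      unfold yd
      rw [Finset.sum_tsub_distrib _ fun i _ => h _]
    rw [← e1, ← e2, ← prod_pow_eq_pow_sum, ← prod_pow_eq_pow_sum]
    simp only [prod_mul_distrib]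
    ring
  · push Not at h
    obtain ⟨i, hi⟩ := h
    have h0 : ∀ q : Z a b → ℂ, tcr q α β = 0 := by
      intro q
      unfold tcr
      apply prod_eq_zero (mem_univ i)
      rw [Nat.choose_eq_zero_of_lt hi]
      simp
    rw [h0, h0, mul_zero]

/-- The coefficients of the transformed polynomial. -/
private noncomputable def Para_T {a b d j e : ℕ} {o : Fin a} (A : Matrix (Fin a) (Fin a) ℂ)
    (B : Matrix (Fin b) (Fin b) ℂ) (f : {α // α ∈ Bu a b d j o e} → ℂ) :
    {α // α ∈ Bu a b d j o e} → ℂ :=
  fun α => coeff (Para_sf α.1) (aeval (Para_g A B) (Para_P f))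

/-- The degree in the variable `o` does not grow. -/
private lemma Para_deg_g {a b : ℕ} {o : Fin a} (A : Matrix (Fin a) (Fin a) ℂ)
    (B : Matrix (Fin b) (Fin b) ℂ) (hA : ∀ k, k ≠ o → A k o = 0) (i : Z a b) :
    degreeOf (Sum.inl o) (Para_g A B i) ≤ if i = Sum.inl o then 1 else 0 := by
  classical
  rcases i with i | i
  · show degreeOf (Sum.inl o) (∑ k, C (A i k) * X (Sum.inl k) : MvPolynomial (Z a b) ℂ) ≤ _
    refine (degreeOf_sum_le _ _ _).trans (Finset.sup_le fun k _ => ?_)
    by_cases hk : k = o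
    · subst hk
      by_cases hi : i = k
      · subst hi
        rw [if_pos rfl]
        refine (degreeOf_C_mul_le _ _ _).trans ?_
        rw [degreeOf_X, if_pos rfl]
      · rw [hA i hi, C_0, zero_mul, degreeOf_zero]
        exact Nat.zero_le _
    · refine (degreeOf_C_mul_le _ _ _).trans ?_
      rw [degreeOf_X, if_neg]
      · exact Nat.zero_le _
      · intro h
        exact hk (Sum.inl.inj h).symm
  · show degreeOf (Sum.inl o) (∑ k, C (B i k) * X (Sum.inr k) : MvPolynomial (Z a b) ℂ) ≤ _
    refine (degreeOf_sum_le _ _ _).trans (Finset.sup_le fun k _ => ?_)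
    refine (degreeOf_C_mul_le _ _ _).trans ?_
    rw [degreeOf_X, if_neg]
    · exact Nat.zero_le _
    · intro h
      exact Sum.inl_ne_inr h

private lemma Para_deg {a b : ℕ} {o : Fin a} (A : Matrix (Fin a) (Fin a) ℂ)
    (B : Matrix (Fin b) (Fin b) ℂ) (hA : ∀ k, k ≠ o → A k o = 0) (α : Z a b → ℕ) (c : ℂ) :
    degreeOf (Sum.inl o) (aeval (Para_g A B) (monomial (Para_sf α) c) :
      MvPolynomial (Z a b) ℂ) ≤ α (Sum.inl o) := by
  classical
  rw [aeval_monomial, algebraMap_eq, Finsupp.prod_fintype _ _ (by intro i; simp)]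
  refine (degreeOf_C_mul_le _ _ _).trans ?_
  refine (degreeOf_prod_le _ _ _).trans ?_
  have h1 : ∀ i ∈ (univ : Finset (Z a b)), degreeOf (Sum.inl o) (Para_g A B i ^ (Para_sf α i)) ≤
      if i = Sum.inl o then α i else 0 := by
    intro i _
    refine (degreeOf_pow_le _ _ _).trans ?_
    have h2 := Nat.mul_le_mul_left (Para_sf α i) (Para_deg_g A B hA i)
    refine h2.trans ?_
    rw [Para_sf_coe]
    split_ifs <;> simp
  refine (sum_le_sum h1).trans ?_
  rw [sum_ite_eq' univ (Sum.inl o) α, if_pos (mem_univ _)]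

private lemma Para_P_T {a b d j e : ℕ} {o : Fin a} (A : Matrix (Fin a) (Fin a) ℂ)
    (B : Matrix (Fin b) (Fin b) ℂ) (hA : ∀ k, k ≠ o → A k o = 0)
    (f : {α // α ∈ Bu a b d j o e} → ℂ) :
    Para_P (Para_T A B f) = aeval (Para_g A B) (Para_P f) := by
  classical
  ext γ
  rw [← Para_sf_eta γ]
  by_cases hγ : ⇑γ ∈ Bu a b d j o e
  · exact Para_coeff_P (Para_T A B f) ⟨⇑γ, hγ⟩
  · rw [Para_coeff_P_zero _ _ hγ]
    symm
    unfold Para_P
    rw [map_sum, coeff_sum]
    refine sum_eq_zero fun α _ => ?_
    have h1 := Para_mem_Bu.1 α.2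
    by_cases hx : (xd γ, yd γ) = (xd α.1, yd α.1)
    · have hγe : ¬ γ (Sum.inl o) ≤ e := by
        intro hle
        apply hγ
        rw [Prod.mk.injEq] at hx
        rw [Para_mem_Bu, hx.1, hx.2]
        exact ⟨h1.1, hle⟩
      have h2 := Para_deg A B hA α.1 (f α)
      by_contra h3
      have h4 := monomial_le_degreeOf (Sum.inl o) (mem_support_iff.2 h3)
      rw [Para_sf_eta] at h4
      omega
    · refine (Para_mono_hom (Para_g_hom A B) _ _).coeff_eq_zero _ ?_
      rw [Para_weight, Para_sf_coe, Para_sf_coe]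
      exact hx

private lemma Para_mem {a b d j e : ℕ} {o : Fin a} {κ : Type} (m : κ → Finset (ℕ × ℕ)) (p : κ → Z a b → ℂ)
    (f : {α // α ∈ Bu a b d j o e} → ℂ) (hf : f ∈ (ASys (Bu a b d j o e)).V m p)
    (A : Matrix (Fin a) (Fin a) ℂ) (B : Matrix (Fin b) (Fin b) ℂ)
    (hA : ∀ k, k ≠ o → A k o = 0) :
    Para_T A B f ∈ (ASys (Bu a b d j o e)).V m fun i => Para_mv A.adjugate B.adjugate (p i) := by
  rw [Para_mem_AV] at hf ⊢
  intro i β hβ
  rw [← Para_shift_P, Para_P_T A B hA, Para_shift_comm]
  refine Para_pres (Para_g_hom A B) (xd β, yd β) ?_ _ rfl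
  intro γ hγ
  rw [← Para_sf_eta γ, Para_shift_P]
  have h1 : Para_mv A B (Para_mv A.adjugate B.adjugate (p i)) =
      Sum.elim (fun k => A.det * p i (Sum.inl k)) fun k => B.det * p i (Sum.inr k) := by
    have e1 : A.mulVec (A.adjugate.mulVec fun k => p i (Sum.inl k)) =
        fun k => A.det * p i (Sum.inl k) := by
      rw [Matrix.mulVec_mulVec, Matrix.mul_adjugate, Matrix.smul_mulVec, Matrix.one_mulVec]
      rfl
    have e2 : B.mulVec (B.adjugate.mulVec fun k => p i (Sum.inr k)) =
        fun k => B.det * p i (Sum.inr k) := by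
      rw [Matrix.mulVec_mulVec, Matrix.mul_adjugate, Matrix.smul_mulVec, Matrix.one_mulVec]
      rfl
    unfold Para_mv
    simp only [Sum.elim_inl, Sum.elim_inr]
    rw [e1, e2]
  rw [h1]
  have h2 : (Sum.elim (fun k => p i (Sum.inl k)) fun k => p i (Sum.inr k) : Z a b → ℂ) = p i := by
    funext x
    rcases x with x | x <;> rfl
  have h3 : ∀ α : {α // α ∈ Bu a b d j o e},
      tcr (Sum.elim (fun k => A.det * p i (Sum.inl k)) fun k => B.det * p i (Sum.inr k) :
        Z a b → ℂ) α.1 ⇑γ * f α =
      A.det ^ (d - j - xd γ) * B.det ^ (j - yd γ) * (tcr (p i) α.1 ⇑γ * f α) := by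
    intro α
    have h4 := (Para_mem_Bu.1 α.2).1
    rw [Para_tcr_smul, h2, show xd α.1 = d - j by omega, show yd α.1 = j by omega]
    ring
  simp_rw [h3]
  rw [← mul_sum, hf i ⇑γ (by rw [hγ]; exact hβ), mul_zero]

/-- The parameters of the pair `(A, B)`. -/
private def Para_t {a b : ℕ} (A : Matrix (Fin a) (Fin a) ℂ) (B : Matrix (Fin b) (Fin b) ℂ) :
    (Fin a × Fin a) ⊕ (Fin b × Fin b) → ℂ :=
  Sum.elim (fun x => A x.1 x.2) fun x => B x.1 x.2

/-- The generic substitution. -/
private noncomputable def Para_gF {a b : ℕ} : MvPolynomial (Z a b) ℂ →+*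
    MvPolynomial (Z a b) (MvPolynomial ((Fin a × Fin a) ⊕ (Fin b × Fin b)) ℂ) :=
  eval₂Hom (C.comp C) (Sum.elim (fun i => ∑ k, C (X (Sum.inl (i, k))) * X (Sum.inl k))
    fun i => ∑ k, C (X (Sum.inr (i, k))) * X (Sum.inr k))

private lemma Para_map_gF {a b : ℕ} (A : Matrix (Fin a) (Fin a) ℂ)
    (B : Matrix (Fin b) (Fin b) ℂ) (F : MvPolynomial (Z a b) ℂ) :
    MvPolynomial.map (eval (Para_t A B)) (Para_gF F) = aeval (Para_g A B) F := by
  have h : (MvPolynomial.map (eval (Para_t A B))).comp Para_gF =
      (aeval (Para_g A B) : MvPolynomial (Z a b) ℂ →ₐ[ℂ] MvPolynomial (Z a b) ℂ).toRingHom := by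
    apply ringHom_ext
    · intro c
      simp [Para_gF]
    · rintro (i | i)
      · simp [Para_gF, Para_g, Para_t]
      · simp [Para_gF, Para_g, Para_t]
  exact DFunLike.congr_fun h F

private lemma Para_functional {a b d j e : ℕ} {o : Fin a} (φ : ({α // α ∈ Bu a b d j o e} → ℂ) →ₗ[ℂ] ℂ)
    (f : {α // α ∈ Bu a b d j o e} → ℂ) :
    φ f = ∑ α, φ (Pi.single α 1) * f α := by
  classical
  rw [LinearMap.pi_apply_eq_sum_univ φ f]
  refine sum_congr rfl fun α _ => ?_
  rw [smul_eq_mul, mul_comm]
  congr 2
  funext β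
  by_cases h : α = β
  · subst h; simp
  · rw [if_neg h, Pi.single_eq_of_ne (Ne.symm h)]

private lemma Para_functional_poly {a b d j e : ℕ} {o : Fin a} (φ : ({α // α ∈ Bu a b d j o e} → ℂ) →ₗ[ℂ] ℂ)
    (f : {α // α ∈ Bu a b d j o e} → ℂ) :
    ∃ Q : MvPolynomial ((Fin a × Fin a) ⊕ (Fin b × Fin b)) ℂ,
      ∀ (A : Matrix (Fin a) (Fin a) ℂ) (B : Matrix (Fin b) (Fin b) ℂ),
      eval (Para_t A B) Q = φ (Para_T A B f) := by
  classical
  refine ⟨∑ α : {α // α ∈ Bu a b d j o e},
    C (φ (Pi.single α 1)) * coeff (Para_sf α.1) (Para_gF (Para_P f)), fun A B => ?_⟩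
  rw [Para_functional, map_sum]
  refine sum_congr rfl fun α _ => ?_
  rw [map_mul, eval_C]
  unfold Para_T
  rw [← Para_map_gF, coeff_map]

private lemma Para_eval_aeval {σ τ : Type*} (a : τ → ℂ) (g : σ → MvPolynomial τ ℂ)
    (G : MvPolynomial σ ℂ) : eval a (aeval g G) = eval (fun x => eval a (g x)) G := by
  induction G using MvPolynomial.induction_on with
  | C c => simp
  | add p q hp hq => rw [map_add, map_add, map_add, hp, hq]
  | mul_X p i hp => rw [map_mul, map_mul, map_mul, hp, aeval_X, eval_X]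

/-- The polynomial `G(p_{A,B})`. -/
private lemma Para_D {a b : ℕ} {κ : Type} (G : MvPolynomial (κ × Z a b) ℂ)
    (p₀ : κ → Z a b → ℂ) :
    ∃ D : MvPolynomial ((Fin a × Fin a) ⊕ (Fin b × Fin b)) ℂ,
      ∀ (A : Matrix (Fin a) (Fin a) ℂ) (B : Matrix (Fin b) (Fin b) ℂ),
      eval (Para_t A B) D =
        eval (fun x : κ × Z a b => Para_mv A.adjugate B.adjugate (p₀ x.1) x.2) G := by
  classical
  let NA : Matrix (Fin a) (Fin a) (MvPolynomial ((Fin a × Fin a) ⊕ (Fin b × Fin b)) ℂ) :=
    Matrix.of fun i k => X (Sum.inl (i, k))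
  let NB : Matrix (Fin b) (Fin b) (MvPolynomial ((Fin a × Fin a) ⊕ (Fin b × Fin b)) ℂ) :=
    Matrix.of fun i k => X (Sum.inr (i, k))
  have hNA : ∀ (A : Matrix (Fin a) (Fin a) ℂ) (B : Matrix (Fin b) (Fin b) ℂ),
      (eval (Para_t A B)).mapMatrix NA = A := by
    intro A B
    ext i k
    simp [NA, Para_t]
  have hNB : ∀ (A : Matrix (Fin a) (Fin a) ℂ) (B : Matrix (Fin b) (Fin b) ℂ),
      (eval (Para_t A B)).mapMatrix NB = B := by
    intro A B
    ext i k
    simp [NB, Para_t]
  refine ⟨aeval (fun x : κ × Z a b => Sum.elim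
    (fun i => ∑ k, NA.adjugate i k * C (p₀ x.1 (Sum.inl k)))
    (fun i => ∑ k, NB.adjugate i k * C (p₀ x.1 (Sum.inr k))) x.2) G, fun A B => ?_⟩
  rw [Para_eval_aeval]
  have h1 : ∀ i k, eval (Para_t A B) (NA.adjugate i k) = A.adjugate i k := by
    intro i k
    have h3 := RingHom.map_adjugate (eval (Para_t A B)) NA
    rw [hNA] at h3
    have h4 := congrFun (congrFun h3 i) k
    simpa using h4
  have h2 : ∀ i k, eval (Para_t A B) (NB.adjugate i k) = B.adjugate i k := by
    intro i k
    have h3 := RingHom.map_adjugate (eval (Para_t A B)) NB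
    rw [hNB] at h3
    have h4 := congrFun (congrFun h3 i) k
    simpa using h4
  have h3 : (fun x : κ × Z a b => eval (Para_t A B) (Sum.elim
      (fun i => ∑ k, NA.adjugate i k * C (p₀ x.1 (Sum.inl k)))
      (fun i => ∑ k, NB.adjugate i k * C (p₀ x.1 (Sum.inr k))) x.2)) =
      fun x : κ × Z a b => Para_mv A.adjugate B.adjugate (p₀ x.1) x.2 := by
    funext x
    obtain ⟨x, i | i⟩ := x
    · simp only [Sum.elim_inl, map_sum, map_mul, h1, eval_C]
      rfl
    · simp only [Sum.elim_inr, map_sum, map_mul, h2, eval_C]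
      rfl
  rw [h3]

/-- Step 1: `φ` vanishes on all transformed solutions. -/
private lemma Para_all {a b d j e : ℕ} {o : Fin a} {κ : Type} (m : κ → Finset (ℕ × ℕ))
    (φ : ({α // α ∈ Bu a b d j o e} → ℂ) →ₗ[ℂ] ℂ) (G : MvPolynomial (κ × Z a b) ℂ)
    (hG : ∀ p : κ → Z a b → ℂ, eval (fun x => p x.1 x.2) G ≠ 0 →
      (ASys (Bu a b d j o e)).V m p ≤ LinearMap.ker φ)
    (p₀ : κ → Z a b → ℂ) (hp₀ : eval (fun x => p₀ x.1 x.2) G ≠ 0)
    (f : {α // α ∈ Bu a b d j o e} → ℂ) (hf : f ∈ (ASys (Bu a b d j o e)).V m p₀)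
    (A : Matrix (Fin a) (Fin a) ℂ) (B : Matrix (Fin b) (Fin b) ℂ)
    (hA : ∀ k, k ≠ o → A k o = 0) :
    φ (Para_T A B f) = 0 := by
  classical
  obtain ⟨Q, hQ⟩ := Para_functional_poly φ f
  obtain ⟨D, hD⟩ := Para_D G p₀
  let π : (Fin a × Fin a) ⊕ (Fin b × Fin b) →
      MvPolynomial ((Fin a × Fin a) ⊕ (Fin b × Fin b)) ℂ :=
    Sum.elim (fun x => if x.2 = o ∧ x.1 ≠ o then 0 else X (Sum.inl x)) fun x => X (Sum.inr x)
  have hπ : ∀ t : (Fin a × Fin a) ⊕ (Fin b × Fin b) → ℂ, (fun x => eval t (π x)) =
      Para_t (Matrix.of fun i k => if k = o ∧ i ≠ o then 0 else t (Sum.inl (i, k)))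
        (Matrix.of fun i k => t (Sum.inr (i, k))) := by
    intro t
    funext x
    rcases x with ⟨i, k⟩ | x
    · show eval t (if k = o ∧ i ≠ o then 0 else X (Sum.inl (i, k))) =
        if k = o ∧ i ≠ o then 0 else t (Sum.inl (i, k))
      by_cases h : k = o ∧ i ≠ o
      · rw [if_pos h, if_pos h, map_zero]
      · rw [if_neg h, if_neg h, eval_X]
    · show eval t (X (Sum.inr x)) = t (Sum.inr x)
      rw [eval_X]
  have hπA : ∀ (A : Matrix (Fin a) (Fin a) ℂ) (B : Matrix (Fin b) (Fin b) ℂ),
      (∀ k, k ≠ o → A k o = 0) → (fun x => eval (Para_t A B) (π x)) = Para_t A B := by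
    intro A B hA
    rw [hπ]
    funext x
    rcases x with ⟨i, k⟩ | x
    · show (if k = o ∧ i ≠ o then 0 else A i k) = A i k
      by_cases h : k = o ∧ i ≠ o
      · rw [if_pos h, h.1, hA i h.2]
      · rw [if_neg h]
    · rfl
  have hQD : aeval π Q * aeval π D = 0 := by
    apply MvPolynomial.funext
    intro t
    rw [map_mul, map_zero, Para_eval_aeval, Para_eval_aeval, hπ, hQ, hD]
    by_cases hGA : eval (fun x : κ × Z a b => Para_mv
        (Matrix.of fun i k => if k = o ∧ i ≠ o then 0 else t (Sum.inl (i, k)) :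
          Matrix (Fin a) (Fin a) ℂ).adjugate
        (Matrix.of fun i k => t (Sum.inr (i, k)) : Matrix (Fin b) (Fin b) ℂ).adjugate
        (p₀ x.1) x.2) G = 0
    · rw [hGA, mul_zero]
    have h1 := hG (fun i => Para_mv
        (Matrix.of fun i k => if k = o ∧ i ≠ o then 0 else t (Sum.inl (i, k)) :
          Matrix (Fin a) (Fin a) ℂ).adjugate
        (Matrix.of fun i k => t (Sum.inr (i, k)) : Matrix (Fin b) (Fin b) ℂ).adjugate
        (p₀ i)) hGA (Para_mem m p₀ f hf
          (Matrix.of fun i k => if k = o ∧ i ≠ o then 0 else t (Sum.inl (i, k)))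
          (Matrix.of fun i k => t (Sum.inr (i, k))) (by
            intro k hk
            show (if o = o ∧ k ≠ o then (0 : ℂ) else _) = 0
            rw [if_pos ⟨rfl, hk⟩]))
    rw [LinearMap.mem_ker] at h1
    rw [h1, zero_mul]
  have hD0 : aeval π D ≠ 0 := by
    intro h0
    have h1 := Para_eval_aeval (Para_t 1 1) π D
    rw [h0, map_zero, hπA 1 1 (fun k hk => Matrix.one_apply_ne hk), hD] at h1
    apply hp₀
    rw [h1]
    have h2 : (fun x : κ × Z a b => p₀ x.1 x.2) = fun x : κ × Z a b =>
        Para_mv (1 : Matrix (Fin a) (Fin a) ℂ).adjugate (1 : Matrix (Fin b) (Fin b) ℂ).adjugate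
          (p₀ x.1) x.2 := by
      funext x
      rw [Matrix.adjugate_one, Matrix.adjugate_one]
      unfold Para_mv
      rw [Matrix.one_mulVec, Matrix.one_mulVec]
      obtain ⟨x, i | i⟩ := x <;> rfl
    rw [h2]
  have hQ0 : aeval π Q = 0 := (mul_eq_zero.1 hQD).resolve_right hD0
  have h3 := Para_eval_aeval (Para_t A B) π Q
  rw [hQ0, map_zero, hπA A B hA, hQ] at h3
  exact h3.symm

/-- The product of the powers of the linear forms. -/
private noncomputable def Para_K {a b : ℕ} (d j : ℕ) (o : Fin a) (v : Z a b → ℂ) (i : ℕ) :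
    MvPolynomial (Z a b) ℂ :=
  (∑ k, C (v (Sum.inl k)) * X (Sum.inl k)) ^ i *
  (∑ k ∈ univ.erase o, C (v (Sum.inl k)) * X (Sum.inl k)) ^ (d - j - i) *
  (∑ k, C (v (Sum.inr k)) * X (Sum.inr k)) ^ j

/-- Step 2: special matrices. -/
private lemma Para_sub {a b d j e : ℕ} {o : Fin a} (f : {α // α ∈ Bu a b d j o e} → ℂ)
    (c v : Z a b → ℂ) :
    aeval (Para_g (Matrix.of fun i k => if k = o ∧ i ≠ o then 0
        else c (Sum.inl i) * v (Sum.inl k))
      (Matrix.of fun i k => c (Sum.inr i) * v (Sum.inr k))) (Para_P f) =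
      ∑ α : {α // α ∈ Bu a b d j o e},
        C (f α * ∏ i, c i ^ α.1 i) * Para_K d j o v (α.1 (Sum.inl o)) := by
  classical
  unfold Para_P
  rw [map_sum]
  refine sum_congr rfl fun α _ => ?_
  have h4 := (Para_mem_Bu.1 α.2).1
  have e0 := add_sum_erase univ (fun i : Fin a => α.1 (Sum.inl i)) (mem_univ o)
  have e1 : ∑ i ∈ univ.erase o, α.1 (Sum.inl i) = d - j - α.1 (Sum.inl o) := by
    have e3 : ∑ i, α.1 (Sum.inl i) = d - j := by
      have : xd α.1 = d - j := by omega
      exact this
    rw [e3] at e0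
    omega
  have e2 : ∑ i, α.1 (Sum.inr i) = j := h4.2
  rw [aeval_monomial, algebraMap_eq, Finsupp.prod_fintype _ _ (by intro i; simp),
    Fintype.prod_sum_type, Fintype.prod_sum_type, Para_sf_coe]
  have h5 : Para_g (Matrix.of fun i k => if k = o ∧ i ≠ o then 0
        else c (Sum.inl i) * v (Sum.inl k))
      (Matrix.of fun i k => c (Sum.inr i) * v (Sum.inr k)) (Sum.inl o) =
      C (c (Sum.inl o)) * ∑ k, C (v (Sum.inl k)) * X (Sum.inl k) := by
    simp only [Para_g, Sum.elim_inl, Matrix.of_apply, mul_sum]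
    refine sum_congr rfl fun k _ => ?_
    rw [if_neg (by tauto), C_mul, mul_assoc]
  have h5' : ∀ i ∈ univ.erase o, Para_g (Matrix.of fun i k => if k = o ∧ i ≠ o then 0
        else c (Sum.inl i) * v (Sum.inl k))
      (Matrix.of fun i k => c (Sum.inr i) * v (Sum.inr k)) (Sum.inl i) =
      C (c (Sum.inl i)) * ∑ k ∈ univ.erase o, C (v (Sum.inl k)) * X (Sum.inl k) := by
    intro i hi
    simp only [Para_g, Sum.elim_inl, Matrix.of_apply, mul_sum]
    rw [← add_sum_erase univ _ (mem_univ o), if_pos ⟨rfl, ne_of_mem_erase hi⟩, C_0, zero_mul,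
      zero_add]
    refine sum_congr rfl fun k hk => ?_
    rw [if_neg (by intro h; exact ne_of_mem_erase hk h.1), C_mul, mul_assoc]
  have h6 : ∀ i : Fin b, Para_g (Matrix.of fun i k => if k = o ∧ i ≠ o then 0
        else c (Sum.inl i) * v (Sum.inl k))
      (Matrix.of fun i k => c (Sum.inr i) * v (Sum.inr k)) (Sum.inr i) =
      C (c (Sum.inr i)) * ∑ k, C (v (Sum.inr k)) * X (Sum.inr k) := by
    intro i
    simp only [Para_g, Sum.elim_inr, Matrix.of_apply, mul_sum, C_mul, mul_assoc]
  rw [← mul_prod_erase univ _ (mem_univ o), ← mul_prod_erase univ (fun i : Fin a =>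
    c (Sum.inl i) ^ α.1 (Sum.inl i)) (mem_univ o), h5]
  have h7 : ∏ x ∈ univ.erase o, Para_g (Matrix.of fun i k => if k = o ∧ i ≠ o then 0
        else c (Sum.inl i) * v (Sum.inl k))
      (Matrix.of fun i k => c (Sum.inr i) * v (Sum.inr k)) (Sum.inl x) ^ α.1 (Sum.inl x) =
      (∏ x ∈ univ.erase o, C (c (Sum.inl x)) ^ α.1 (Sum.inl x)) *
        (∑ k ∈ univ.erase o, C (v (Sum.inl k)) * X (Sum.inl k)) ^ (d - j - α.1 (Sum.inl o)) := by
    rw [← e1, ← prod_pow_eq_pow_sum, ← prod_mul_distrib]
    refine prod_congr rfl fun i hi => ?_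
    rw [h5' i hi, mul_pow]
  rw [h7]
  simp_rw [h6, mul_pow]
  rw [prod_mul_distrib, prod_pow_eq_pow_sum, e2]
  unfold Para_K
  simp only [C_mul, map_prod, C_pow]
  ring

/-- The coefficients of the products. -/
private lemma Para_coeff_term {a b d j : ℕ} {o : Fin a} (v : Z a b → ℂ) (β : Z a b → ℕ)
    (hβ : xd β + yd β = d ∧ yd β = j) (k : ℕ) :
    coeff (Para_sf β) ((C (v (Sum.inl o)) * X (Sum.inl o)) ^ k *
      (∑ i ∈ univ.erase o, C (v (Sum.inl i)) * X (Sum.inl i)) ^ (d - j - k) *
      (∑ i, C (v (Sum.inr i)) * X (Sum.inr i)) ^ j : MvPolynomial (Z a b) ℂ) =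
    if k = β (Sum.inl o) then ((Nat.multinomial (univ.erase o) (fun i => β (Sum.inl i)) *
        Nat.multinomial univ (fun i => β (Sum.inr i)) : ℕ) : ℂ) * ∏ i, v i ^ β i else 0 := by
  classical
  rw [sum_pow_eq_sum_piAntidiag, sum_pow_eq_sum_piAntidiag,
    mul_sum _ _ ((C (v (Sum.inl o)) * X (Sum.inl o)) ^ k), sum_mul_sum, coeff_sum]
  have h1 : ∀ (κ : Fin a → ℕ) (l : Fin b → ℕ),
      (C (v (Sum.inl o)) * X (Sum.inl o)) ^ k *
      ((Nat.multinomial (univ.erase o) κ : MvPolynomial (Z a b) ℂ) *
        ∏ i ∈ univ.erase o, (C (v (Sum.inl i)) * X (Sum.inl i)) ^ κ i) *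
      ((Nat.multinomial univ l : MvPolynomial (Z a b) ℂ) *
        ∏ i, (C (v (Sum.inr i)) * X (Sum.inr i)) ^ l i) =
      monomial (Para_sf (Sum.elim (Function.update κ o k) l))
        (((Nat.multinomial (univ.erase o) κ * Nat.multinomial univ l : ℕ) : ℂ)
        * ((v (Sum.inl o) ^ k * ∏ i ∈ univ.erase o, v (Sum.inl i) ^ κ i) *
          ∏ i, v (Sum.inr i) ^ l i)) := by
    intro κ l
    rw [monomial_eq, Finsupp.prod_fintype _ _ (by intro i; simp), Fintype.prod_sum_type,
      Para_sf_coe]
    simp only [Sum.elim_inl, Sum.elim_inr]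
    have h2 : ∏ x : Fin a, (X (Sum.inl x) : MvPolynomial (Z a b) ℂ) ^ (Function.update κ o k x) =
        X (Sum.inl o) ^ k * ∏ x ∈ univ.erase o, X (Sum.inl x) ^ κ x := by
      rw [← mul_prod_erase univ _ (mem_univ o), Function.update_self]
      congr 1
      refine prod_congr rfl fun x hx => ?_
      rw [Function.update_of_ne (ne_of_mem_erase hx)]
    rw [h2]
    simp only [mul_pow, prod_mul_distrib, C_mul, map_prod, C_pow,
      Nat.cast_mul, ← C_eq_coe_nat]
    ring
  have e0 := add_sum_erase univ (fun i : Fin a => β (Sum.inl i)) (mem_univ o)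
  have e3 : ∑ i, β (Sum.inl i) = d - j := by
    have : xd β = d - j := by omega
    exact this
  have e2 : ∑ i, β (Sum.inr i) = j := hβ.2
  by_cases hk : k = β (Sum.inl o)
  · rw [if_pos hk]
    have e1 : ∑ i ∈ univ.erase o, β (Sum.inl i) = d - j - k := by
      rw [e3] at e0
      omega
    have h2 : ∀ κ ∈ piAntidiag (univ.erase o) (d - j - k),
        coeff (Para_sf β) (∑ l ∈ piAntidiag (univ : Finset (Fin b)) j,
        (C (v (Sum.inl o)) * X (Sum.inl o)) ^ k *
        ((Nat.multinomial (univ.erase o) κ : MvPolynomial (Z a b) ℂ) *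
          ∏ i ∈ univ.erase o, (C (v (Sum.inl i)) * X (Sum.inl i)) ^ κ i) *
        ((Nat.multinomial univ l : MvPolynomial (Z a b) ℂ) *
          ∏ i, (C (v (Sum.inr i)) * X (Sum.inr i)) ^ l i)) =
        if κ = Function.update (fun i => β (Sum.inl i)) o 0 then
          ((Nat.multinomial (univ.erase o) (fun i => β (Sum.inl i)) *
            Nat.multinomial univ (fun i => β (Sum.inr i)) : ℕ) : ℂ) * ∏ i, v i ^ β i else 0 := by
      intro κ hκ
      rw [coeff_sum]
      have h3 : ∀ l ∈ piAntidiag (univ : Finset (Fin b)) j, coeff (Para_sf β)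
        ((C (v (Sum.inl o)) * X (Sum.inl o)) ^ k *
        ((Nat.multinomial (univ.erase o) κ : MvPolynomial (Z a b) ℂ) *
          ∏ i ∈ univ.erase o, (C (v (Sum.inl i)) * X (Sum.inl i)) ^ κ i) *
        ((Nat.multinomial univ l : MvPolynomial (Z a b) ℂ) *
          ∏ i, (C (v (Sum.inr i)) * X (Sum.inr i)) ^ l i)) =
          if l = (fun i => β (Sum.inr i)) then
            (if κ = Function.update (fun i => β (Sum.inl i)) o 0 then
            ((Nat.multinomial (univ.erase o) (fun i => β (Sum.inl i)) *
              Nat.multinomial univ (fun i => β (Sum.inr i)) : ℕ) : ℂ) * ∏ i, v i ^ β i else 0)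
          else 0 := by
        intro l _
        rw [h1, coeff_monomial]
        by_cases hκ2 : κ = Function.update (fun i => β (Sum.inl i)) o 0
        · by_cases hl : l = (fun i => β (Sum.inr i))
          · have h5 : Para_sf (Sum.elim (Function.update κ o k) l) = Para_sf β := by
              rw [Para_sf_inj, hκ2, hl, Function.update_idem, hk]
              funext x
              rcases x with x | x
              · simp only [Sum.elim_inl]
                by_cases hx : x = o
                · rw [hx, Function.update_self]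
                · rw [Function.update_of_ne hx]
              · rfl
            have h6 : ∀ i ∈ univ.erase o, κ i = β (Sum.inl i) := by
              intro i hi
              rw [hκ2, Function.update_of_ne (ne_of_mem_erase hi)]
            rw [if_pos hκ2, if_pos hl, if_pos h5, Fintype.prod_sum_type, hl,
              Nat.multinomial_congr h6, ← mul_prod_erase univ (fun i : Fin a =>
                v (Sum.inl i) ^ β (Sum.inl i)) (mem_univ o), ← hk,
              prod_congr rfl fun i hi => by rw [h6 i hi]]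
          · rw [if_neg hl, if_neg]
            intro h
            apply hl
            rw [Para_sf_inj] at h
            funext x
            exact congrFun h (Sum.inr x)
        · rw [if_neg hκ2, ite_self, if_neg]
          intro h
          apply hκ2
          rw [Para_sf_inj] at h
          funext x
          by_cases hx : x = o
          · rw [hx, Function.update_self]
            by_contra h7
            exact ne_of_mem_erase ((mem_piAntidiag.1 hκ).2 o h7) rfl
          · rw [Function.update_of_ne hx]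
            have h8 := congrFun h (Sum.inl x)
            simp only [Sum.elim_inl] at h8
            rw [Function.update_of_ne hx] at h8
            exact h8
      rw [sum_congr rfl h3, sum_ite_eq', if_pos]
      rw [mem_piAntidiag]
      exact ⟨e2, fun i _ => mem_univ i⟩
    rw [sum_congr rfl h2, sum_ite_eq', if_pos]
    rw [mem_piAntidiag]
    constructor
    · rw [← e1]
      refine sum_congr rfl fun i hi => ?_
      rw [Function.update_of_ne (ne_of_mem_erase hi)]
    · intro i hi
      rw [mem_erase]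
      refine ⟨?_, mem_univ _⟩
      intro hio
      apply hi
      rw [hio, Function.update_self]
  · rw [if_neg hk]
    refine sum_eq_zero fun κ _ => ?_
    rw [coeff_sum]
    refine sum_eq_zero fun l _ => ?_
    rw [h1, coeff_monomial, if_neg]
    intro h
    apply hk
    rw [Para_sf_inj] at h
    have h8 := congrFun h (Sum.inl o)
    simp only [Sum.elim_inl] at h8
    rw [Function.update_self] at h8
    exact h8

/-- The number. -/
private def Para_N {a b : ℕ} (o : Fin a) (e : ℕ) (β : Z a b → ℕ) : ℕ :=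
  e.choose (β (Sum.inl o)) * (Nat.multinomial (univ.erase o) (fun i => β (Sum.inl i)) *
    Nat.multinomial univ (fun i => β (Sum.inr i)))

private lemma Para_coeff_K {a b d j e : ℕ} {o : Fin a} (he : e ≤ d - j) (v : Z a b → ℂ)
    (β : Z a b → ℕ) (hβ : β ∈ Bu a b d j o e) :
    coeff (Para_sf β) (Para_K d j o v e) = (Para_N o e β : ℂ) * ∏ i, v i ^ β i := by
  classical
  have hβ' := Para_mem_Bu.1 hβ
  unfold Para_K
  rw [← add_sum_erase univ (fun k => (C (v (Sum.inl k)) * X (Sum.inl k) :
    MvPolynomial (Z a b) ℂ)) (mem_univ o), add_pow, sum_mul, sum_mul, coeff_sum]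
  have h1 : ∀ k ∈ range (e + 1), coeff (Para_sf β)
      ((C (v (Sum.inl o)) * X (Sum.inl o)) ^ k *
        (∑ i ∈ univ.erase o, C (v (Sum.inl i)) * X (Sum.inl i)) ^ (e - k) *
        ((e.choose k : ℕ) : MvPolynomial (Z a b) ℂ) *
        (∑ i ∈ univ.erase o, C (v (Sum.inl i)) * X (Sum.inl i)) ^ (d - j - e) *
        (∑ i, C (v (Sum.inr i)) * X (Sum.inr i)) ^ j : MvPolynomial (Z a b) ℂ) =
      if k = β (Sum.inl o) then (Para_N o e β : ℂ) * ∏ i, v i ^ β i else 0 := by
    intro k hk
    rw [mem_range] at hk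
    have h2 : ((C (v (Sum.inl o)) * X (Sum.inl o)) ^ k *
        (∑ i ∈ univ.erase o, C (v (Sum.inl i)) * X (Sum.inl i)) ^ (e - k) *
        ((e.choose k : ℕ) : MvPolynomial (Z a b) ℂ) *
        (∑ i ∈ univ.erase o, C (v (Sum.inl i)) * X (Sum.inl i)) ^ (d - j - e) *
        (∑ i, C (v (Sum.inr i)) * X (Sum.inr i)) ^ j : MvPolynomial (Z a b) ℂ) =
        C ((e.choose k : ℕ) : ℂ) * ((C (v (Sum.inl o)) * X (Sum.inl o)) ^ k *
          (∑ i ∈ univ.erase o, C (v (Sum.inl i)) * X (Sum.inl i)) ^ (d - j - k) *
          (∑ i, C (v (Sum.inr i)) * X (Sum.inr i)) ^ j) := by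
      rw [show d - j - k = (e - k) + (d - j - e) by omega, pow_add, map_natCast]
      ring
    rw [h2, coeff_C_mul, Para_coeff_term v β hβ'.1 k]
    by_cases h3 : k = β (Sum.inl o)
    · rw [if_pos h3, if_pos h3, h3]
      unfold Para_N
      push_cast
      ring
    · rw [if_neg h3, if_neg h3, mul_zero]
  rw [sum_congr rfl h1, sum_ite_eq', if_pos]
  rw [mem_range]
  omega

theorem top_zero {a b d j e : ℕ} (ha : 2 ≤ a) (hb : 1 ≤ b) (hj : j ≤ d) (o : Fin a) {κ : Type}
    [Fintype κ] (m : κ → Finset (ℕ × ℕ))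
    (φ : ({α // α ∈ Bu a b d j o e} → ℂ) →ₗ[ℂ] ℂ) (hφ : φ ≠ 0)
    (G : MvPolynomial (κ × Z a b) ℂ)
    (hG : ∀ p : κ → Z a b → ℂ, eval (fun x => p x.1 x.2) G ≠ 0 →
      (ASys (Bu a b d j o e)).V m p ≤ LinearMap.ker φ)
    (p₀ : κ → Z a b → ℂ) (hp₀ : eval (fun x => p₀ x.1 x.2) G ≠ 0)
    (f : {α // α ∈ Bu a b d j o e} → ℂ) (hf : f ∈ (ASys (Bu a b d j o e)).V m p₀)
    (α : {α // α ∈ Bu a b d j o e}) (hα : α.1 (Sum.inl o) = e) : f α = 0 := by
  classical
  have he : e ≤ d - j := by
    have h1 := (Para_mem_Bu.1 α.2).1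
    have h2 : α.1 (Sum.inl o) ≤ xd α.1 :=
      single_le_sum (f := fun i => α.1 (Sum.inl i)) (fun i _ => Nat.zero_le _) (mem_univ o)
    omega
  -- the value of `φ` at the products
  let ψ : (Z a b → ℂ) → ℕ → ℂ := fun v i =>
    ∑ β : {α // α ∈ Bu a b d j o e}, φ (Pi.single β 1) * coeff (Para_sf β.1) (Para_K d j o v i)
  by_contra hfα
  have h1 : ∀ v : Z a b → ℂ, ψ v e = 0 := by
    intro v
    have h2 : Para_P (fun γ : {α // α ∈ Bu a b d j o e} => f γ * ψ v (γ.1 (Sum.inl o))) = 0 := by
      apply MvPolynomial.funext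
      intro c
      rw [map_zero]
      have h3 := Para_all m φ G hG p₀ hp₀ f hf
        (Matrix.of fun i k => if k = o ∧ i ≠ o then 0 else c (Sum.inl i) * v (Sum.inl k))
        (Matrix.of fun i k => c (Sum.inr i) * v (Sum.inr k)) (by
            intro k hk
            show (if o = o ∧ k ≠ o then (0 : ℂ) else _) = 0
            rw [if_pos ⟨rfl, hk⟩])
      rw [Para_functional] at h3
      rw [← h3]
      unfold Para_T Para_P
      rw [map_sum]
      have h4 : ∀ β : {α // α ∈ Bu a b d j o e}, φ (Pi.single β 1) * coeff (Para_sf β.1)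
          (aeval (Para_g (Matrix.of fun i k => if k = o ∧ i ≠ o then 0
              else c (Sum.inl i) * v (Sum.inl k))
            (Matrix.of fun i k => c (Sum.inr i) * v (Sum.inr k)))
            (∑ α : {α // α ∈ Bu a b d j o e}, monomial (Para_sf α.1) (f α))) =
          ∑ γ : {α // α ∈ Bu a b d j o e}, (f γ * ∏ i, c i ^ γ.1 i) * (φ (Pi.single β 1) *
            coeff (Para_sf β.1) (Para_K d j o v (γ.1 (Sum.inl o)))) := by
        intro β
        have h5 := Para_sub f c v
        unfold Para_P at h5
        rw [h5, coeff_sum, mul_sum]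
        refine sum_congr rfl fun γ _ => ?_
        rw [coeff_C_mul]
        ring
      simp_rw [h4]
      rw [sum_comm]
      refine sum_congr rfl fun γ _ => ?_
      rw [← mul_sum, eval_monomial, Finsupp.prod_fintype _ _ (by intro i; simp), Para_sf_coe]
      ring
    have h3 := Para_coeff_P
      (fun γ : {α // α ∈ Bu a b d j o e} => f γ * ψ v (γ.1 (Sum.inl o))) α
    rw [h2, coeff_zero, hα] at h3
    exact (mul_eq_zero.1 h3.symm).resolve_left hfα
  have h4 : Para_P (fun β : {α // α ∈ Bu a b d j o e} => φ (Pi.single β 1) *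
      (Para_N o e β.1 : ℂ)) = 0 := by
    apply MvPolynomial.funext
    intro v
    rw [map_zero, ← h1 v]
    unfold Para_P
    rw [map_sum]
    refine sum_congr rfl fun β _ => ?_
    rw [eval_monomial, Finsupp.prod_fintype _ _ (by intro i; simp), Para_sf_coe,
      Para_coeff_K he v β.1 β.2]
    ring
  apply hφ
  ext β
  have h5 := Para_coeff_P (fun β : {α // α ∈ Bu a b d j o e} => φ (Pi.single β 1) *
      (Para_N o e β.1 : ℂ)) β
  rw [h4, coeff_zero] at h5
  have h6 : (Para_N o e β.1 : ℂ) ≠ 0 := by
    rw [Nat.cast_ne_zero]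
    unfold Para_N
    have h8 := (Para_mem_Bu.1 β.2).2
    exact Nat.mul_ne_zero (Nat.choose_pos h8).ne'
      (Nat.mul_ne_zero (Nat.multinomial_pos _ _).ne' (Nat.multinomial_pos _ _).ne')
  have h7 : φ (Pi.single β 1) = 0 := (mul_eq_zero.1 h5.symm).resolve_right h6
  simpa using h7

end Pool.Agent.H51.TB

end

section

/-!
# V7, the tensor lemma, one slot at a time

For an intersecting family of kinds `S` with weights `w S`, total weight `W`, the `w S c^|S| / W`
general pure tensors of every kind kill all tensors.  Proof: give the points whose kind contains a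
slot a coordinate vector in this slot.  The coordinate `x` of the slot (a *line*) is pure of a kind
`T`: only points of kind `T ∪ {slot}` are put on it, and the slice is again an intersecting problem
with total weight `W`, the kind `T` has the weight `W₁` = sum of the weights of the kinds containing
the slot.
-/

namespace Pool.Agent.V7

open Finset MvPolynomial Pool.Agent.H51.TB

section cut

variable {α : Type} [Fintype α] [DecidableEq α] {c : ℕ}

/-- adding a coordinate -/
def tensCons (x : Fin c) (u : α → Fin c) : Option α → Fin c := fun o => o.elim x u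

theorem tens_sum (f : (Option α → Fin c) → ℂ) :
    ∑ e : Option α → Fin c, f e = ∑ x : Fin c, ∑ u : α → Fin c, f (tensCons x u) := by
  rw [← Fintype.sum_prod_type' (fun (x : Fin c) (u : α → Fin c) => f (tensCons x u))]
  refine Fintype.sum_equiv Equiv.piOptionEquivProd _ _ fun e => ?_
  refine congrArg f (funext fun o => ?_)
  cases o <;> rfl

theorem tens_ctr_some (S : Finset α) (y : Option α × Fin c → ℂ) (F : (Option α → Fin c) → ℂ)
    (x : Fin c) (w : α → Fin c) : ctr (S.map Function.Embedding.some) y F (tensCons x w) =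
      ctr S (fun z => y (some z.1, z.2)) (fun u => F (tensCons x u)) w := by
  unfold ctr
  rw [tens_sum, Finset.sum_eq_single x]
  · refine Finset.sum_congr rfl fun u _ => ?_
    have h : (∀ j, j ∉ S.map Function.Embedding.some → tensCons x u j = tensCons x w j) ↔
        ∀ a, a ∉ S → u a = w a := by
      constructor
      · intro h a ha
        exact h (some a) fun h' => ha (by simpa using h')
      · intro h j hj
        cases j with
        | none => rfl
        | some a => exact h a fun h' => hj (by simpa using h')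
    by_cases h' : ∀ a, a ∉ S → u a = w a
    · rw [if_pos h', if_pos (h.2 h'), Finset.prod_map]
      rfl
    · rw [if_neg h', if_neg fun h1 => h' (h.1 h1)]
  · intro x' _ hx'
    refine Finset.sum_eq_zero fun u _ => if_neg fun h => hx' ?_
    exact h none (by simp)
  · exact fun h => absurd (Finset.mem_univ x) h

theorem tens_ctr_none (S : Finset α) (y : Option α × Fin c → ℂ) (F : (Option α → Fin c) → ℂ)
    (x : Fin c) (w : α → Fin c) : ctr (insertNone S) y F (tensCons x w) =
      ∑ x', y (none, x') * ctr S (fun z => y (some z.1, z.2)) (fun u => F (tensCons x' u)) w := by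
  unfold ctr
  rw [tens_sum]
  refine Finset.sum_congr rfl fun x' _ => ?_
  rw [Finset.mul_sum]
  refine Finset.sum_congr rfl fun u _ => ?_
  have h : (∀ j, j ∉ insertNone S → tensCons x' u j = tensCons x w j) ↔
      ∀ a, a ∉ S → u a = w a := by
    constructor
    · intro h a ha
      exact h (some a) fun h' => ha (some_mem_insertNone.1 h')
    · intro h j hj
      cases j with
      | none => exact absurd none_mem_insertNone hj
      | some a => exact h a fun h' => hj (some_mem_insertNone.2 h')
  by_cases h' : ∀ a, a ∉ S → u a = w a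
  · rw [if_pos h', if_pos (h.2 h'), Finset.prod_insertNone, ← mul_assoc]
    rfl
  · rw [if_neg h', if_neg fun h1 => h' (h.1 h1), mul_zero]

omit [Fintype α] in
theorem tens_eq_map {S : Finset (Option α)} (h : none ∉ S) :
    S = (eraseNone S).map Function.Embedding.some := by
  ext (_ | a)
  · simp [h]
  · simp

omit [Fintype α] in
theorem tens_eq_ins {S : Finset (Option α)} (h : none ∈ S) : S = insertNone (eraseNone S) := by
  ext (_ | a)
  · simp [h]
  · simp

/-- The slot step: if all slices are killed, everything is killed. -/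
theorem tens_step {κ : Type} [Fintype κ] (m : κ → Finset (Option α)) (line : κ → Fin c)
    (h : ∀ x : Fin c, (TSys α c).gd (fun i : {i // none ∉ m i ∨ line i = x} =>
      eraseNone (m i.1)) = 0) : (TSys (Option α) c).gd m = 0 := by
  classical
  have h1 : ∀ x ∈ (Finset.univ : Finset (Fin c)), Gn κ (α × Fin c) fun p =>
      Module.finrank ℂ ((TSys α c).V (fun i : {i // none ∉ m i ∨ line i = x} =>
        eraseNone (m i.1)) fun i => p i.1) = 0 := by
    intro x _
    have h2 := gn_gd (TSys α c) fun i : {i // none ∉ m i ∨ line i = x} => eraseNone (m i.1)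
    have h3 := Gn.comap (κ := κ) (fun i : {i // none ∉ m i ∨ line i = x} => i.1)
      Subtype.val_injective h2
    refine h3.mono fun p hp => ?_
    rw [h x] at hp
    exact hp
  obtain ⟨p, hp⟩ := (Gn.all Finset.univ h1).exists
  let P : κ → Option α × Fin c → ℂ := fun i z =>
    match z.1 with
    | none => if z.2 = line i then 1 else 0
    | some a => p i (a, z.2)
  have hV : (TSys (Option α) c).V m P = ⊥ := by
    rw [Submodule.eq_bot_iff]
    intro F hF
    rw [mem_TSys] at hF
    have h3 : ∀ x : Fin c, (fun u : α → Fin c => F (tensCons x u)) = 0 := by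
      intro x
      have h4 : (TSys α c).V (fun i : {i // none ∉ m i ∨ line i = x} =>
          eraseNone (m i.1)) (fun i => p i.1) = ⊥ := Submodule.finrank_eq_zero.1 (hp x (mem_univ x))
      have h5 : (fun u : α → Fin c => F (tensCons x u)) ∈
          (TSys α c).V (fun i : {i // none ∉ m i ∨ line i = x} =>
            eraseNone (m i.1)) (fun i => p i.1) := by
        rw [mem_TSys]
        rintro ⟨i, hi⟩ w
        by_cases hn : none ∈ m i
        · have hl : line i = x := hi.resolve_left fun h' => h' hn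
          have h6 := hF i (tensCons x w)
          rw [tens_eq_ins hn, tens_ctr_none, Finset.sum_eq_single x] at h6
          · have e1 : P i (none, x) = 1 := if_pos hl.symm
            rw [e1, one_mul] at h6
            exact h6
          · intro x' _ hx'
            have e1 : P i (none, x') = 0 := if_neg fun h' => hx' (h'.trans hl)
            rw [e1, zero_mul]
          · exact fun h' => absurd (mem_univ x) h'
        · have h6 := hF i (tensCons x w)
          rw [tens_eq_map hn, tens_ctr_some] at h6
          exact h6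
      rw [h4, Submodule.mem_bot] at h5
      exact h5
    funext e
    have h7 := congrFun (h3 (e none)) fun a => e (some a)
    have h8 : tensCons (e none) (fun a => e (some a)) = e := by
      funext o
      cases o <;> rfl
    simp only [h8] at h7
    exact h7
  have h9 := gd_le (TSys (Option α) c) m P
  rw [hV, finrank_bot] at h9
  omega

/-- The distribution of the points on the lines. -/
theorem tens_lines {κ : Type} [Fintype κ] (m : κ → Finset (Option α)) (hc : 0 < c)
    (L q : Finset α → ℕ) (hL : ∑ T, L T = c)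
    (hcard : ∀ T, (univ.filter fun i => m i = insertNone T).card = L T * q T) :
    ∃ (τ : Fin c → Finset α) (line : κ → Fin c), (∀ x, L (τ x) ≠ 0) ∧
      (∀ i, none ∈ m i → m i = insertNone (τ (line i))) ∧
      ∀ x, (univ.filter fun i => none ∈ m i ∧ line i = x).card = q (τ x) := by
  classical
  have e1 : Fin c ≃ Σ T : Finset α, Fin (L T) := by
    refine Fintype.equivOfCardEq ?_
    rw [Fintype.card_sigma]
    simp only [Fintype.card_fin]
    exact hL.symm
  let τ : Fin c → Finset α := fun x => (e1 x).1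
  have hτ : ∀ T, Fintype.card {x // τ x = T} = L T := by
    intro T
    have h1 : {x // τ x = T} ≃ {z : Σ T : Finset α, Fin (L T) // z.1 = T} :=
      e1.subtypeEquiv fun x => Iff.rfl
    have h2 : {z : Σ T : Finset α, Fin (L T) // z.1 = T} ≃ Fin (L T) :=
      { toFun := fun z => Fin.cast (congrArg L z.2) z.1.2
        invFun := fun v => ⟨⟨T, v⟩, rfl⟩
        left_inv := by
          rintro ⟨⟨T', v⟩, h⟩
          cases h
          rfl
        right_inv := fun v => rfl }
    rw [Fintype.card_congr (h1.trans h2), Fintype.card_fin]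
  have hE : ∀ T, Nonempty ({i // m i = insertNone T} ≃ {x // τ x = T} × Fin (q T)) := by
    intro T
    refine ⟨Fintype.equivOfCardEq ?_⟩
    rw [Fintype.card_prod, hτ, Fintype.card_fin, ← hcard T, Fintype.card_subtype]
  have E : ∀ T, {i // m i = insertNone T} ≃ {x // τ x = T} × Fin (q T) := fun T =>
    Classical.choice (hE T)
  let line : κ → Fin c := fun i =>
    if h : none ∈ m i then ((E (eraseNone (m i)) ⟨i, tens_eq_ins h⟩).1).1 else ⟨0, hc⟩
  have hl : ∀ (T : Finset α) (i : κ) (h : m i = insertNone T), line i = ((E T ⟨i, h⟩).1).1 := by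
    intro T i h
    have h1 : none ∈ m i := by
      rw [h]
      exact none_mem_insertNone
    have h2 : T = eraseNone (m i) := by
      rw [h, eraseNone_insertNone]
    subst h2
    exact dif_pos h1
  refine ⟨τ, line, ?_, ?_, ?_⟩
  · intro x h
    have h1 : (e1 x).2.1 < L (τ x) := (e1 x).2.2
    omega
  · intro i hi
    have h1 := hl (eraseNone (m i)) i (tens_eq_ins hi)
    rw [h1, ((E (eraseNone (m i)) ⟨i, tens_eq_ins hi⟩).1).2]
    exact tens_eq_ins hi
  · intro x
    have h3 : Fintype.card (Fin (q (τ x))) = q (τ x) := Fintype.card_fin _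
    rw [← h3, ← Finset.card_univ]
    symm
    refine Finset.card_bij (fun j _ => ((E (τ x)).symm (⟨x, rfl⟩, j)).1) ?_ ?_ ?_
    · intro j _
      have h4 := ((E (τ x)).symm (⟨x, rfl⟩, j)).2
      rw [mem_filter]
      refine ⟨mem_univ _, ?_, ?_⟩
      · rw [h4]
        exact none_mem_insertNone
      · rw [hl (τ x) _ h4]
        have h5 : (⟨((E (τ x)).symm (⟨x, rfl⟩, j)).1, h4⟩ : {i // m i = insertNone (τ x)}) =
            (E (τ x)).symm (⟨x, rfl⟩, j) := rfl
        rw [h5, Equiv.apply_symm_apply]
    · intro j _ j' _ h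
      have h4 := (E (τ x)).symm.injective (Subtype.ext h)
      exact (Prod.ext_iff.1 h4).2
    · intro i hi
      rw [mem_filter] at hi
      obtain ⟨-, hi1, hi2⟩ := hi
      have h4 : m i = insertNone (τ x) := by
        have h5 := hl (eraseNone (m i)) i (tens_eq_ins hi1)
        have h6 := ((E (eraseNone (m i)) ⟨i, tens_eq_ins hi1⟩).1).2
        rw [← h5, hi2] at h6
        rw [h6]
        exact tens_eq_ins hi1
      refine ⟨(E (τ x) ⟨i, h4⟩).2, mem_univ _, ?_⟩
      have h7 : (E (τ x) ⟨i, h4⟩).1 = ⟨x, rfl⟩ := Subtype.ext ((hl _ _ h4).symm.trans hi2)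
      have h8 : ((⟨x, rfl⟩ : {y // τ y = τ x}), (E (τ x) ⟨i, h4⟩).2) = E (τ x) ⟨i, h4⟩ := by
        rw [← h7]
      show ((E (τ x)).symm (⟨x, rfl⟩, (E (τ x) ⟨i, h4⟩).2)).1 = i
      rw [h8, Equiv.symm_apply_apply]

theorem tens_sum_opt (f : Finset (Option α) → ℕ) : ∑ S, f S =
    ∑ T : Finset α, f (T.map Function.Embedding.some) + ∑ T : Finset α, f (insertNone T) := by
  classical
  rw [← Finset.sum_filter_add_sum_filter_not univ (fun S : Finset (Option α) => none ∉ S) f]
  congr 1
  · refine Finset.sum_nbij' (i := fun S => eraseNone S)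
      (j := fun T => T.map Function.Embedding.some) ?_ ?_ ?_ ?_ ?_
    · intro S _
      exact mem_univ _
    · intro T _
      rw [mem_filter]
      exact ⟨mem_univ _, by simp⟩
    · intro S hS
      exact (tens_eq_map (mem_filter.1 hS).2).symm
    · intro T _
      ext a
      simp
    · intro S hS
      show f S = f ((eraseNone S).map Function.Embedding.some)
      rw [← tens_eq_map (mem_filter.1 hS).2]
  · refine Finset.sum_nbij' (i := fun S => eraseNone S) (j := fun T => insertNone T) ?_ ?_ ?_ ?_ ?_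
    · intro S _
      exact mem_univ _
    · intro T _
      rw [mem_filter]
      exact ⟨mem_univ _, by simp⟩
    · intro S hS
      have h := (mem_filter.1 hS).2
      rw [not_not] at h
      exact (tens_eq_ins h).symm
    · intro T _
      exact eraseNone_insertNone T
    · intro S hS
      have h := (mem_filter.1 hS).2
      rw [not_not] at h
      show f S = f (insertNone (eraseNone S))
      rw [← tens_eq_ins h]

/-- The numbers of lines of every kind and of points on every line. -/
theorem tens_data {W : ℕ} (hW : 1 ≤ W) (hdiv : W.factorial ∣ c)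
    (w : Finset (Option α) → ℕ) (hsum : ∑ S, w S = W) (hint : Inter w) (n : Finset α → ℕ)
    (hn : ∀ T, n T * W = w (insertNone T) * c ^ (T.card + 1)) :
    ∃ L q : Finset α → ℕ, ∑ T, L T = c ∧ (∀ T, n T = L T * q T) ∧
      (∀ T, L T ≠ 0 → q T * W = (∑ T, w (insertNone T)) * c ^ T.card) ∧
      ∀ T, L T ≠ 0 → (∑ T, w (insertNone T)) ≠ 0 → w (insertNone T) ≠ 0 := by
  classical
  set W1 := ∑ T, w (insertNone T) with hW1
  rcases Nat.eq_zero_or_pos W1 with h0 | h0
  · have h1 : ∀ T, w (insertNone T) = 0 := fun T => by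
      rw [hW1] at h0
      exact (Finset.sum_eq_zero_iff.1 h0) T (mem_univ T)
    refine ⟨fun T => if T = ∅ then c else 0, fun _ => 0, ?_, ?_, ?_, ?_⟩
    · simp
    · intro T
      have h2 := hn T
      rw [h1, zero_mul] at h2
      rw [mul_zero]
      exact (Nat.mul_eq_zero.1 h2).resolve_right (by omega)
    · intro T _
      rw [h0, zero_mul, zero_mul]
    · intro T _ h
      exact absurd h0 h
  · have hle : W1 ≤ W := by
      rw [← hsum, tens_sum_opt]
      exact Nat.le_add_left _ _
    obtain ⟨c1, hc1⟩ : W1 ∣ c := (Nat.dvd_factorial h0 hle).trans hdiv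
    have hdW : W ∣ c := (Nat.dvd_factorial hW le_rfl).trans hdiv
    have hq : ∀ T : Finset α, w (insertNone T) ≠ 0 →
        (W1 * c ^ T.card / W) * W = W1 * c ^ T.card := by
      intro T hT
      refine Nat.div_mul_cancel ?_
      rcases T.eq_empty_or_nonempty with hT0 | hT0
      · subst hT0
        have h2 : ∑ T : Finset α, w (T.map Function.Embedding.some) = 0 := by
          refine Finset.sum_eq_zero fun T _ => ?_
          by_contra h3
          rcases hint _ _ h3 hT with h4 | h4
          · obtain ⟨o, ho⟩ := h4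
            rw [mem_inter] at ho
            cases o with
            | none => simp at ho
            | some a => simp at ho
          · have h5 : (none : Option α) ∈ insertNone (∅ : Finset α) := none_mem_insertNone
            rw [h4.2] at h5
            exact absurd h5 (Finset.notMem_empty _)
        have h3 : W1 = W := by
          have h4 := tens_sum_opt w
          rw [hsum, h2, zero_add] at h4
          exact h4.symm
        rw [h3]
        exact Dvd.intro _ rfl
      · refine Dvd.dvd.mul_left (hdW.trans (dvd_pow_self c ?_)) _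
        exact (Finset.card_pos.2 hT0).ne'
    refine ⟨fun T => c1 * w (insertNone T), fun T => W1 * c ^ T.card / W, ?_, ?_, ?_, ?_⟩
    · rw [← Finset.mul_sum, ← hW1, hc1]
      ring
    · intro T
      by_cases hT : w (insertNone T) = 0
      · have h2 := hn T
        rw [hT, zero_mul] at h2
        show n T = c1 * w (insertNone T) * _
        rw [hT, mul_zero, zero_mul]
        exact (Nat.mul_eq_zero.1 h2).resolve_right (by omega)
      · refine Nat.eq_of_mul_eq_mul_right (show 0 < W by omega) ?_
        show n T * W = c1 * w (insertNone T) * (W1 * c ^ T.card / W) * W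
        rw [hn, mul_assoc (c1 * w (insertNone T)), hq T hT, pow_succ]
        conv_lhs => rw [hc1]
        rw [← hc1]
        conv_lhs =>
          rw [show w (insertNone T) * (c ^ T.card * c) = w (insertNone T) * c ^ T.card * c by ring]
        nth_rewrite 2 [hc1]
        ring
    · intro T hT
      refine hq T fun h => hT ?_
      show c1 * w (insertNone T) = 0
      rw [h, mul_zero]
    · intro T hT _ h
      refine hT ?_
      show c1 * w (insertNone T) = 0
      rw [h, mul_zero]

end cut

/-- The statement of the lemma with numbers of points instead of index types. -/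
def TKill (ι : Type) [Fintype ι] [DecidableEq ι] : Prop :=
  ∀ (c W : ℕ), 1 ≤ W → 1 ≤ c → W.factorial ∣ c → ∀ w : Finset ι → ℕ, ∑ S, w S = W → Inter w →
    ∀ (κ : Type) [Fintype κ] (m : κ → Finset ι),
      (∀ S, (univ.filter fun i => m i = S).card * W = w S * c ^ S.card) → (TSys ι c).gd m = 0

theorem tens_option {α : Type} [Fintype α] [DecidableEq α] (h : TKill α) : TKill (Option α) := by
  intro c W hW hc hdiv w hsum hint κ _ m hm
  classical
  obtain ⟨L, q, hL, hLq, hq, hw⟩ := tens_data hW hdiv w hsum hint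
    (fun T => (univ.filter fun i => m i = insertNone T).card)
    (fun T => by rw [hm, Finset.card_insertNone])
  obtain ⟨τ, line, hτ, hline, hcard⟩ := tens_lines m hc L q hL hLq
  set W1 := ∑ T, w (insertNone T) with hW1
  refine tens_step m line fun x => ?_
  refine h c W hW hc hdiv
    (fun S => w (S.map Function.Embedding.some) + if S = τ x then W1 else 0) ?_ ?_ _ _ ?_
  · rw [Finset.sum_add_distrib, Finset.sum_ite_eq' univ (τ x) fun _ => W1, if_pos (mem_univ _),
      hW1, ← tens_sum_opt, hsum]
  · intro S S' hS hS'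
    have k1 : ∀ A B : Finset α, w (A.map Function.Embedding.some) ≠ 0 →
        w (B.map Function.Embedding.some) ≠ 0 → (A ∩ B).Nonempty ∨ (A = ∅ ∧ B = ∅) := by
      intro A B hA hB
      rcases hint _ _ hA hB with h1 | h1
      · left
        rw [← Finset.map_inter, Finset.map_nonempty] at h1
        exact h1
      · right
        rw [Finset.map_eq_empty, Finset.map_eq_empty] at h1
        exact h1
    have k2 : ∀ B : Finset α, W1 ≠ 0 → w (B.map Function.Embedding.some) ≠ 0 →
        (τ x ∩ B).Nonempty := by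
      intro B h0 hB
      rcases hint _ _ (hw _ (hτ x) h0) hB with h1 | h1
      · obtain ⟨o, ho⟩ := h1
        rw [mem_inter] at ho
        cases o with
        | none => simp at ho
        | some a =>
          refine ⟨a, ?_⟩
          rw [mem_inter]
          simpa using ho
      · have h5 : (none : Option α) ∈ insertNone (τ x) := none_mem_insertNone
        rw [h1.1] at h5
        exact absurd h5 (Finset.notMem_empty _)
    have k3 : ∀ A, (w (A.map Function.Embedding.some) + if A = τ x then W1 else 0) ≠ 0 →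
        w (A.map Function.Embedding.some) ≠ 0 ∨ (A = τ x ∧ W1 ≠ 0) := by
      intro A hA
      by_cases h1 : A = τ x
      · rw [if_pos h1] at hA
        by_cases h2 : W1 = 0
        · left
          omega
        · right
          exact ⟨h1, h2⟩
      · rw [if_neg h1] at hA
        left
        omega
    rcases k3 S hS with h1 | h1 <;> rcases k3 S' hS' with h2 | h2
    · exact k1 _ _ h1 h2
    · left
      rw [h2.1, Finset.inter_comm]
      exact k2 S h2.2 h1
    · left
      rw [h1.1]
      exact k2 S' h1.2 h2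
    · rw [h1.1, h2.1]
      rcases (τ x).eq_empty_or_nonempty with h3 | h3
      · right
        exact ⟨h3, h3⟩
      · left
        rw [Finset.inter_self]
        exact h3
  · intro S
    have h1 : (univ.filter fun i : {i // none ∉ m i ∨ line i = x} => eraseNone (m i.1) = S).card =
        (univ.filter fun i => (none ∉ m i ∨ line i = x) ∧ eraseNone (m i) = S).card := by
      refine Finset.card_bij (fun i _ => i.1) ?_ ?_ ?_
      · intro i hi
        rw [mem_filter] at hi ⊢
        exact ⟨mem_univ _, i.2, hi.2⟩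
      · intro i _ j _ hij
        exact Subtype.ext hij
      · intro i hi
        rw [mem_filter] at hi
        exact ⟨⟨i, hi.2.1⟩, by rw [mem_filter]; exact ⟨mem_univ _, hi.2.2⟩, rfl⟩
    have h2 : (univ.filter fun i => (none ∉ m i ∨ line i = x) ∧ eraseNone (m i) = S) =
        (univ.filter fun i => m i = S.map Function.Embedding.some) ∪
          univ.filter fun i => none ∈ m i ∧ line i = x ∧ S = τ x := by
      ext i
      rw [mem_union, mem_filter, mem_filter, mem_filter]
      constructor
      · rintro ⟨-, h3, h4⟩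
        by_cases h5 : none ∈ m i
        · right
          have h6 := h3.resolve_left fun h => h h5
          refine ⟨mem_univ _, h5, h6, ?_⟩
          rw [← h4, hline i h5, h6, eraseNone_insertNone]
        · left
          refine ⟨mem_univ _, ?_⟩
          rw [← h4]
          exact tens_eq_map h5
      · rintro (⟨-, h3⟩ | ⟨-, h3, h4, h5⟩)
        · refine ⟨mem_univ _, Or.inl ?_, ?_⟩
          · rw [h3]
            simp
          · rw [h3]
            ext a
            simp
        · refine ⟨mem_univ _, Or.inr h4, ?_⟩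
          rw [hline i h3, h4, eraseNone_insertNone, h5]
    have h3 : Disjoint (univ.filter fun i => m i = S.map Function.Embedding.some)
        (univ.filter fun i => none ∈ m i ∧ line i = x ∧ S = τ x) := by
      rw [Finset.disjoint_left]
      intro i hi hi'
      rw [mem_filter] at hi hi'
      have h4 := hi'.2.1
      rw [hi.2] at h4
      simp at h4
    have h4 : (univ.filter fun i => none ∈ m i ∧ line i = x ∧ S = τ x).card =
        if S = τ x then q (τ x) else 0 := by
      split_ifs with hS
      · rw [← hcard x]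
        congr 1
        ext i
        rw [mem_filter, mem_filter]
        tauto
      · rw [Finset.card_eq_zero, Finset.filter_eq_empty_iff]
        intro i _ hi
        exact hS hi.2.2
    rw [h1, h2, Finset.card_union_of_disjoint h3, h4, add_mul, hm, Finset.card_map, add_mul (w _)]
    congr 1
    split_ifs with hS
    · rw [hq _ (hτ x), hS]
    · rw [zero_mul, zero_mul]

/-- A point of kind `∅` kills everything. -/
theorem tens_point {ι : Type} [Fintype ι] [DecidableEq ι] {c : ℕ} {κ : Type} (m : κ → Finset ι)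
    (i : κ) (hi : m i = ∅) : (TSys ι c).gd m = 0 := by
  have h : (TSys ι c).V m 0 = ⊥ := by
    rw [Submodule.eq_bot_iff]
    intro F hF
    rw [mem_TSys] at hF
    funext w
    have h1 := hF i w
    rw [hi] at h1
    unfold ctr at h1
    rw [Finset.sum_eq_single w] at h1
    · simpa using h1
    · intro e _ he
      refine if_neg fun h => he ?_
      funext j
      exact h j (Finset.notMem_empty j)
    · exact fun h => absurd (mem_univ w) h
  have h2 := gd_le (TSys ι c) m 0
  rw [h, finrank_bot] at h2
  omega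

/-- Renaming of the slots. -/
theorem tens_equiv {ι ι' : Type} [Fintype ι] [DecidableEq ι] [Fintype ι'] [DecidableEq ι']
    (e : ι ≃ ι') {c : ℕ} {κ : Type} (m : κ → Finset ι')
    (h : (TSys ι c).gd (fun i => (m i).map e.symm.toEmbedding) = 0) : (TSys ι' c).gd m = 0 := by
  obtain ⟨p, hp⟩ := gd_attained (TSys ι c) fun i => (m i).map e.symm.toEmbedding
  rw [h] at hp
  have h1 := Submodule.finrank_eq_zero.1 hp
  let p' : κ → ι' × Fin c → ℂ := fun i z => p i (e.symm z.1, z.2)
  have h2 : (TSys ι' c).V m p' = ⊥ := by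
    rw [Submodule.eq_bot_iff]
    intro F hF
    rw [mem_TSys] at hF
    have h3 : (fun u : ι → Fin c => F fun j => u (e.symm j)) ∈
        (TSys ι c).V (fun i => (m i).map e.symm.toEmbedding) p := by
      rw [mem_TSys]
      intro i w
      rw [← hF i fun j => w (e.symm j)]
      unfold ctr
      refine Fintype.sum_equiv (Equiv.arrowCongr e (Equiv.refl (Fin c))) _ _ fun u => ?_
      have h4 : (Equiv.arrowCongr e (Equiv.refl (Fin c))) u = fun j => u (e.symm j) := rfl
      rw [h4]
      have h5 : (∀ j, j ∉ (m i).map e.symm.toEmbedding → u j = w j) ↔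
          ∀ j, j ∉ m i → u (e.symm j) = w (e.symm j) := by
        constructor
        · intro h6 j hj
          refine h6 _ fun h7 => hj ?_
          rw [Finset.mem_map_equiv] at h7
          simpa using h7
        · intro h6 j hj
          have h7 := h6 (e j) fun h8 => hj (by
            rw [Finset.mem_map_equiv]
            simpa using h8)
          simpa using h7
      by_cases h6 : ∀ j, j ∉ m i → u (e.symm j) = w (e.symm j)
      · rw [if_pos h6, if_pos (h5.2 h6), Finset.prod_map]
        rfl
      · rw [if_neg h6, if_neg fun h7 => h6 (h5.1 h7)]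
    rw [h1, Submodule.mem_bot] at h3
    funext u
    have h4 := congrFun h3 fun j => u (e j)
    simp only [Equiv.apply_symm_apply] at h4
    exact h4
  have h3 := gd_le (TSys ι' c) m p'
  rw [h2, finrank_bot] at h3
  omega

theorem tens_all (ι : Type) [Fintype ι] : ∀ [DecidableEq ι], TKill ι := by
  refine Fintype.induction_empty_option (P := fun ι _ => ∀ [DecidableEq ι], TKill ι) ?_ ?_ ?_ ι
  · intro α β _ e h _
    classical
    let _ : Fintype α := Fintype.ofEquiv β e.symm
    intro c W hW hc hdiv w hsum hint κ _ m hm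
    refine tens_equiv e m ?_
    refine h c W hW hc hdiv (fun S => w (S.map e.toEmbedding)) ?_ ?_ κ _ ?_
    · rw [← hsum]
      exact Fintype.sum_equiv e.finsetCongr _ _ fun S => rfl
    · intro S S' hS hS'
      rcases hint _ _ hS hS' with h1 | h1
      · left
        rw [← Finset.map_inter, Finset.map_nonempty] at h1
        exact h1
      · right
        rw [Finset.map_eq_empty, Finset.map_eq_empty] at h1
        exact h1
    · intro S
      have h1 := hm (S.map e.toEmbedding)
      rw [Finset.card_map] at h1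
      rw [← h1]
      congr 2
      ext i
      rw [mem_filter, mem_filter]
      have h2 : (m i).map e.symm.toEmbedding = S ↔ m i = S.map e.toEmbedding := by
        constructor
        · rintro rfl
          ext a
          simp
        · intro h3
          rw [h3]
          ext a
          simp
      rw [h2]
  · intro _ c W hW hc hdiv w hsum hint κ _ m hm
    have h1 : ∑ S, w S = w ∅ := by
      refine Fintype.sum_eq_single _ fun S hS => absurd ?_ hS
      ext a
      exact a.elim
    have h2 := hm ∅
    rw [← h1, hsum, Finset.card_empty, pow_zero, mul_one] at h2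
    have h3 : (univ.filter fun i => m i = ∅).card ≠ 0 := by
      intro h3
      rw [h3, zero_mul] at h2
      omega
    obtain ⟨i, hi⟩ := Finset.card_ne_zero.1 h3
    exact tens_point m i (mem_filter.1 hi).2
  · intro α _ h _
    classical
    have h1 := tens_option (@h fun a b => Classical.propDecidable _)
    have h2 : ∀ D E : DecidableEq (Option α), @TKill (Option α) _ D → @TKill (Option α) _ E := by
      intro D E hD
      rw [Subsingleton.elim E D]
      exact hD
    exact h2 _ _ h1

section gen

variable {E ν T : Type} [Fintype E] (S : Sys E ν T) {κ : Type}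

/-- Further points impose at most the sum of their sizes. -/
theorem tens_gd_le_add [Fintype κ] (m : κ → T) (κ' : Type) [Fintype κ'] : ∀ n : κ' → T,
    S.gd m ≤ S.gd (Sum.elim m n) + ∑ i, S.size (n i) := by
  refine Fintype.induction_empty_option (P := fun κ' _ => ∀ n : κ' → T,
    S.gd m ≤ S.gd (Sum.elim m n) + ∑ i, S.size (n i)) ?_ ?_ ?_ κ'
  · intro α β _ e h n
    let _ : Fintype α := Fintype.ofEquiv β e.symm
    have h1 := h fun a => n (e a)
    have h2 : S.gd (Sum.elim m fun a => n (e a)) = S.gd (Sum.elim m n) := by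
      rw [← gd_comp_equiv S (Equiv.sumCongr (Equiv.refl κ) e)]
      congr 1
      funext i
      rcases i with i | i <;> rfl
    have h3 : ∑ a, S.size (n (e a)) = ∑ b, S.size (n b) :=
      Equiv.sum_comp e fun b => S.size (n b)
    rw [h2, h3] at h1
    exact h1
  · intro n
    have h2 : S.gd (Sum.elim m n) = S.gd m := by
      rw [← gd_comp_equiv S (Equiv.sumEmpty κ PEmpty)]
      congr 1
      funext i
      rcases i with i | i
      · rfl
      · exact i.elim
    rw [h2]
    exact Nat.le_add_right _ _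
  · intro α _ h n
    have h1 := h fun a => n (some a)
    have h2 := gd_le_ad S (Sum.elim m fun a => n (some a)) (n none)
    have h3 : S.gd (ad (Sum.elim m fun a => n (some a)) (n none)) = S.gd (Sum.elim m n) := by
      rw [← gd_comp_equiv S ((Equiv.sumAssoc κ α Unit).trans
        (Equiv.sumCongr (Equiv.refl κ) (Equiv.optionEquivSumPUnit α).symm))]
      congr 1
      funext i
      rcases i with (i | i) | i <;> rfl
    rw [Fintype.sum_option]
    omega

end gen

section main

variable {ι : Type} [Fintype ι] [DecidableEq ι] {c W : ℕ}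

theorem tens_dvd (hW : 1 ≤ W) (hdiv : W.factorial ∣ c) (w : Finset ι → ℕ)
    (hsum : ∑ S, w S = W) (hint : Inter w) (S : Finset ι) : W ∣ w S * c ^ S.card := by
  rcases S.eq_empty_or_nonempty with hS | hS
  · subst hS
    by_cases h0 : w ∅ = 0
    · rw [h0, zero_mul]
      exact dvd_zero W
    · have h1 : ∑ S, w S = w ∅ := by
        refine Finset.sum_eq_single_of_mem _ (mem_univ _) fun S _ hS => ?_
        by_contra h2
        rcases hint _ _ h0 h2 with h3 | h3
        · rw [Finset.empty_inter] at h3
          exact absurd h3 Finset.not_nonempty_empty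
        · exact hS h3.2
      rw [← h1, hsum]
      exact Dvd.intro _ rfl
  · exact Dvd.dvd.mul_left (((Nat.dvd_factorial hW le_rfl).trans hdiv).trans
      (dvd_pow_self c (Finset.card_pos.2 hS).ne')) _

theorem tens_tcard (w : Finset ι → ℕ) (S : Finset ι) :
    (univ.filter fun x : TIdx ι c W w => x.1 = S).card = w S * c ^ S.card / W := by
  classical
  rw [← Fintype.card_subtype]
  have h2 : {z : TIdx ι c W w // z.1 = S} ≃ Fin (w S * c ^ S.card / W) :=
    { toFun := fun z => Fin.cast (congrArg (fun S : Finset ι => w S * c ^ S.card / W) z.2) z.1.2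
      invFun := fun v => ⟨⟨S, v⟩, rfl⟩
      left_inv := by
        rintro ⟨⟨T', v⟩, h⟩
        cases h
        rfl
      right_inv := fun v => rfl }
  rw [Fintype.card_congr h2, Fintype.card_fin]

theorem tens_kill (hW : 1 ≤ W) (hc : 1 ≤ c) (hdiv : W.factorial ∣ c) (w : Finset ι → ℕ)
    (hsum : ∑ S, w S = W) (hint : Inter w) :
    (TSys ι c).gd (fun x : TIdx ι c W w => x.1) = 0 := by
  refine tens_all ι c W hW hc hdiv w hsum hint _ _ fun S => ?_
  rw [tens_tcard]
  exact Nat.div_mul_cancel (tens_dvd hW hdiv w hsum hint S)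

/-- The number of conditions of a point. -/
theorem tens_size (hc : 1 ≤ c) (S : Finset ι) :
    (TSys ι c).size S ≤ c ^ (Fintype.card ι - S.card) := by
  classical
  obtain ⟨p, hp⟩ := gd_attained (TSys ι c) fun _ : Unit => S
  let ex : ({j // j ∉ S} → Fin c) → ι → Fin c := fun u j =>
    if h : j ∉ S then u ⟨j, h⟩ else ⟨0, hc⟩
  let Φ : ((ι → Fin c) → ℂ) →ₗ[ℂ] (({j // j ∉ S} → Fin c) → ℂ) :=
    { toFun := fun F u => ctr S (p ()) F (ex u)
      map_add' := fun F G => by
        funext u
        unfold ctr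
        rw [Pi.add_apply, ← Finset.sum_add_distrib]
        refine Finset.sum_congr rfl fun e _ => ?_
        split_ifs
        · rw [Pi.add_apply, mul_add]
        · rw [add_zero]
      map_smul' := fun a F => by
        funext u
        unfold ctr
        rw [RingHom.id_apply, Pi.smul_apply, smul_eq_mul, Finset.mul_sum]
        refine Finset.sum_congr rfl fun e _ => ?_
        split_ifs
        · rw [Pi.smul_apply, smul_eq_mul]
          ring
        · rw [mul_zero] }
  have h1 : LinearMap.ker Φ ≤ (TSys ι c).V (fun _ : Unit => S) p := by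
    intro F hF
    rw [mem_TSys]
    rintro ⟨⟩ w
    have h2 : ctr S (p ()) F (ex fun j => w j.1) = 0 :=
      congrFun (LinearMap.mem_ker.1 hF) fun j => w j.1
    rw [← h2]
    unfold ctr
    refine Finset.sum_congr rfl fun e _ => ?_
    have h3 : (∀ j, j ∉ S → e j = w j) ↔ ∀ j, j ∉ S → e j = ex (fun j => w j.1) j := by
      refine forall_congr' fun j => forall_congr' fun hj => ?_
      have h4 : ex (fun j => w j.1) j = w j := dif_pos hj
      rw [h4]
    by_cases h4 : ∀ j, j ∉ S → e j = w j
    · rw [if_pos h4, if_pos (h3.1 h4)]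
    · rw [if_neg h4, if_neg fun h5 => h4 (h3.2 h5)]
  have h2 := LinearMap.finrank_range_add_finrank_ker Φ
  have h3 := Submodule.finrank_le (LinearMap.range Φ)
  rw [Module.finrank_fintype_fun_eq_card] at h2 h3
  have h4 := Submodule.finrank_mono h1
  rw [hp] at h4
  have h5 : Fintype.card ({j // j ∉ S} → Fin c) = c ^ (Fintype.card ι - S.card) := by
    rw [Fintype.card_fun, Fintype.card_fin, Fintype.card_subtype_compl, Fintype.card_coe]
  unfold Sys.size
  omega

theorem tens_sum_kinds {κ : Type} [Fintype κ] (m : κ → Finset ι) (g : Finset ι → ℕ) :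
    ∑ i, g (m i) = ∑ S, (univ.filter fun i => m i = S).card * g S := by
  classical
  have h1 : ∀ i, g (m i) = ∑ S, if m i = S then g S else 0 := fun i => by
    rw [Finset.sum_ite_eq univ (m i) g, if_pos (mem_univ _)]
  rw [Finset.sum_congr rfl fun i _ => h1 i, Finset.sum_comm]
  refine Finset.sum_congr rfl fun S _ => ?_
  rw [← Finset.sum_filter, Finset.sum_const, smul_eq_mul]

/-- At most the given numbers of points impose independent conditions. -/
theorem tens_indep (hW : 1 ≤ W) (hc : 1 ≤ c) (hdiv : W.factorial ∣ c) (w : Finset ι → ℕ)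
    (hsum : ∑ S, w S = W) (hint : Inter w) {κ : Type} [Fintype κ] (m : κ → Finset ι)
    (hcnt : ∀ S, (univ.filter fun i => m i = S).card * W ≤ w S * c ^ S.card) :
    (TSys ι c).gd m + ∑ i, c ^ (Fintype.card ι - (m i).card) = c ^ Fintype.card ι := by
  classical
  let n : Finset ι → ℕ := fun S =>
    w S * c ^ S.card / W - (univ.filter fun i => m i = S).card
  have hn : ∀ S, (univ.filter fun i => m i = S).card + n S = w S * c ^ S.card / W := by
    intro S
    have h1 := (Nat.le_div_iff_mul_le (show 0 < W by omega)).2 (hcnt S)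
    show _ + (w S * c ^ S.card / W - _) = _
    omega
  have hf : ∀ S, (univ.filter fun x : (Σ S : Finset ι, Fin (n S)) => x.1 = S).card = n S := by
    intro S
    rw [← Fintype.card_subtype]
    have h2 : {z : (Σ S : Finset ι, Fin (n S)) // z.1 = S} ≃ Fin (n S) :=
      { toFun := fun z => Fin.cast (congrArg n z.2) z.1.2
        invFun := fun v => ⟨⟨S, v⟩, rfl⟩
        left_inv := by
          rintro ⟨⟨T', v⟩, h⟩
          cases h
          rfl
        right_inv := fun v => rfl }
    rw [Fintype.card_congr h2, Fintype.card_fin]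
  have h1 : (TSys ι c).gd (Sum.elim m fun x : (Σ S : Finset ι, Fin (n S)) => x.1) = 0 := by
    refine tens_all ι c W hW hc hdiv w hsum hint _ _ fun S => ?_
    have h2 : (univ.filter fun y : κ ⊕ (Σ S : Finset ι, Fin (n S)) =>
        Sum.elim m (fun x => x.1) y = S).card =
        (univ.filter fun i => m i = S).card +
          (univ.filter fun x : (Σ S : Finset ι, Fin (n S)) => x.1 = S).card := by
      rw [Finset.card_filter, Fintype.sum_sum_type, Finset.card_filter, Finset.card_filter]
      rfl
    rw [h2, hf, hn]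
    exact Nat.div_mul_cancel (tens_dvd hW hdiv w hsum hint S)
  have h2 := tens_gd_le_add (TSys ι c) m (Σ S : Finset ι, Fin (n S)) fun x => x.1
  rw [h1, zero_add] at h2
  have h3 := tens_gd_le_add (TSys ι c) (fun x : PEmpty => (x.elim : Finset ι)) κ m
  have h4 : (TSys ι c).gd (Sum.elim (fun x : PEmpty => (x.elim : Finset ι)) m) =
      (TSys ι c).gd m := by
    rw [← gd_comp_equiv (TSys ι c) (Equiv.emptySum PEmpty κ)]
    congr 1
    funext i
    rcases i with i | i
    · exact i.elim
    · rfl
  rw [gd_empty, h4, Fintype.card_fun, Fintype.card_fin] at h3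
  have h5 : ∑ i, (TSys ι c).size (m i) ≤ ∑ i, c ^ (Fintype.card ι - (m i).card) :=
    Finset.sum_le_sum fun i _ => tens_size hc (m i)
  have h6 : ∑ x : (Σ S : Finset ι, Fin (n S)), (TSys ι c).size x.1 ≤
      ∑ x : (Σ S : Finset ι, Fin (n S)), c ^ (Fintype.card ι - x.1.card) :=
    Finset.sum_le_sum fun i _ => tens_size hc i.1
  have h7 : ∑ i, c ^ (Fintype.card ι - (m i).card) +
      ∑ x : (Σ S : Finset ι, Fin (n S)), c ^ (Fintype.card ι - x.1.card) =
      c ^ Fintype.card ι := by
    rw [tens_sum_kinds m fun S => c ^ (Fintype.card ι - S.card),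
      tens_sum_kinds (fun x : (Σ S : Finset ι, Fin (n S)) => x.1)
        fun S => c ^ (Fintype.card ι - S.card), ← Finset.sum_add_distrib]
    refine Nat.eq_of_mul_eq_mul_right (show 0 < W by omega) ?_
    rw [Finset.sum_mul]
    have h8 : ∀ S : Finset ι, ((univ.filter fun i => m i = S).card *
        c ^ (Fintype.card ι - S.card) + (univ.filter fun x : (Σ S : Finset ι, Fin (n S)) =>
          x.1 = S).card * c ^ (Fintype.card ι - S.card)) * W = w S * c ^ Fintype.card ι := by
      intro S
      rw [hf, ← add_mul, hn, mul_right_comm,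
        Nat.div_mul_cancel (tens_dvd hW hdiv w hsum hint S), mul_assoc, ← pow_add]
      congr 2
      have := Finset.card_le_univ S
      omega
    rw [Finset.sum_congr rfl fun S _ => h8 S, ← Finset.sum_mul, hsum, mul_comm]
  omega

end main

end Pool.Agent.V7

end
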