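import Pool.Agent.H94.LP7.H51.TB.Num
import Pool.Agent.H94.LP7.M117
import Pool.Agent.H94.LP7.M118
import Pool.Agent.H94.LP7.M119
import Pool.Agent.H94.LP7.M122
import Pool.Agent.H94.LP7.M133

/-! The parts of this file: H51.TB.USpan, H51.TB.UCnt, H51.TB.UCore. -/

section

/-!
# Module U4 (TB2): the span property for forms with a bounded exponent

If `d - j ≤ e` then `Bu a b d j o e = Bx a b d j` and `span_L` applies.  Let `e < d - j`, `φ ≠ 0`,
`V m p ≤ ker φ` for `G(p) ≠ 0`, and suppose `gd m ≠ 0`.  All sections `F` (`Sec (Bu a b d j o e) m F`)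
satisfy `F α = 0` for all `α ∈ Bu a b d j o e` with `α_o ≥ k`, for `k = e, e - 1, …, 0`:
* `k = e`: otherwise choose `p` with `G(p) ≠ 0` and `F α (p) ≠ 0` and use `top_zero` for the value
  of `F` at `p` (`section_mem`);
* from `k + 1` to `k`: let `F` be a section (make it `0` off `Bu a b d j o e`) and `α'` with `α'_o = k`.
  Since `xd α' = d - j > e ≥ k` there is `c ≠ o` with `α'_c ≥ 1`.  By `lie_sec` `Lie o c F` is a section,
  so `Lie o c F α = 0` for `α = α' - e_c + e_o` (`α_o = k + 1`); here `F α = 0`, so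
  `(α_c + 1) F α' = 0`.
So every section vanishes, which contradicts `exists_section`.
-/

namespace Pool.Agent.H51.TB

open Finset MvPolynomial Pool.Agent.H18.Ex Pool.Agent.H21.NX Pool.Agent.H18.Ta

private theorem USpan_rename {a b : ℕ} {κ : Type} (i : κ) (α β : Z a b → ℕ) :
    rename (fun v => (i, v)) (tcr (fun v => (X v : MvPolynomial (Z a b) ℂ)) α β) =
      tcr (fun v => (X (i, v) : MvPolynomial (κ × Z a b) ℂ)) α β := by
  unfold tcr
  rw [map_prod]
  refine prod_congr rfl fun v _ => ?_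
  rw [map_mul, map_natCast, map_pow, rename_X]

private theorem USpan_iff {a b : ℕ} {κ : Type} (A : Finset (Z a b → ℕ)) (m : κ → Finset (ℕ × ℕ))
    (F : (Z a b → ℕ) → MvPolynomial (κ × Z a b) ℂ) :
    Sec A m F ↔ ∀ i (r : (ASys A).R (m i)), ∑ x : {α // α ∈ A},
      rename (fun v => (i, v)) ((ASys A).co (m i) r x) * F x.1 = 0 := by
  have key : ∀ (i : κ) (β : Z a b → ℕ), ∑ α ∈ A, F α * tcr (fun v => X (i, v)) α β =
      ∑ x : {α // α ∈ A}, rename (fun v => (i, v))
        (tcr (fun v => (X v : MvPolynomial (Z a b) ℂ)) x.1 β) * F x.1 := by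
    intro i β
    rw [← Finset.sum_coe_sort A (fun α => F α * tcr (fun v => X (i, v)) α β)]
    refine sum_congr rfl fun x _ => ?_
    rw [USpan_rename, mul_comm]
  constructor
  · intro h i r
    have h1 := h i r.1 r.2
    rw [key] at h1
    exact h1
  · intro h i β hβ
    rw [key]
    exact h i ⟨β, hβ⟩

private theorem USpan_sh {a b : ℕ} (o c : Fin a) (hoc : c ≠ o) (α : Z a b → ℕ)
    (hα : 1 ≤ α (Sum.inl c)) : sh o c (sh c o α) = α := by
  funext v
  unfold sh
  have hne : (Sum.inl c : Z a b) ≠ Sum.inl o := fun h => hoc (Sum.inl_injective h)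
  by_cases h1 : v = Sum.inl c
  · subst h1
    rw [Function.update_self, Function.update_of_ne hne, Function.update_self]
    omega
  · rw [Function.update_of_ne h1]
    by_cases h2 : v = Sum.inl o
    · subst h2
      rw [Function.update_self, Function.update_self]
      omega
    · rw [Function.update_of_ne h2, Function.update_of_ne h2, Function.update_of_ne h1]

private theorem USpan_sh_apply {a b : ℕ} (o c : Fin a) (hoc : c ≠ o) (α : Z a b → ℕ) :
    sh c o α (Sum.inl o) = α (Sum.inl o) + 1 := by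
  unfold sh
  have hne : (Sum.inl c : Z a b) ≠ Sum.inl o := fun h => hoc (Sum.inl_injective h)
  rw [Function.update_self]

private theorem USpan_sh_xd {a b : ℕ} (o c : Fin a) (hoc : c ≠ o) (α : Z a b → ℕ)
    (hα : 1 ≤ α (Sum.inl c)) : xd (sh c o α) = xd α ∧ yd (sh c o α) = yd α := by
  classical
  have hne : (Sum.inl c : Z a b) ≠ Sum.inl o := fun h => hoc (Sum.inl_injective h)
  constructor
  · unfold xd
    have h1 : ∀ f : Fin a → ℕ, ∑ i, f i = f o + (f c + ∑ i ∈ (univ.erase o).erase c, f i) := by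
      intro f
      rw [add_sum_erase (univ.erase o) f (mem_erase.2 ⟨hoc, mem_univ c⟩),
        add_sum_erase univ f (mem_univ o)]
    rw [h1, h1 fun i => α (Sum.inl i)]
    have h2 : ∑ i ∈ (univ.erase o).erase c, sh c o α (Sum.inl i) =
        ∑ i ∈ (univ.erase o).erase c, α (Sum.inl i) := by
      refine sum_congr rfl fun i hi => ?_
      rw [mem_erase, mem_erase] at hi
      unfold sh
      rw [Function.update_of_ne (fun h => hi.2.1 (Sum.inl_injective h)),
        Function.update_of_ne (fun h => hi.1 (Sum.inl_injective h))]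
    rw [h2, USpan_sh_apply o c hoc]
    have h3 : sh c o α (Sum.inl c) = α (Sum.inl c) - 1 := by
      unfold sh
      rw [Function.update_of_ne hne, Function.update_self]
    rw [h3]
    omega
  · unfold yd
    refine sum_congr rfl fun i _ => ?_
    unfold sh
    rw [Function.update_of_ne Sum.inr_ne_inl, Function.update_of_ne Sum.inr_ne_inl]

private theorem USpan_mem {a b d j e : ℕ} {o : Fin a} {α : Z a b → ℕ} :
    α ∈ Bu a b d j o e ↔ α ∈ Bx a b d j ∧ α (Sum.inl o) ≤ e := by
  unfold Bu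
  rw [mem_filter]

private theorem USpan_step {a b d j e : ℕ} (o : Fin a) {κ : Type} [Fintype κ]
    (m : κ → Finset (ℕ × ℕ)) (k : ℕ) (hk : k < e) (hde : e < d - j)
    (ih : ∀ F : (Z a b → ℕ) → MvPolynomial (κ × Z a b) ℂ, Sec (Bu a b d j o e) m F →
      ∀ α ∈ Bu a b d j o e, k + 1 ≤ α (Sum.inl o) → F α = 0)
    (F : (Z a b → ℕ) → MvPolynomial (κ × Z a b) ℂ) (hF : Sec (Bu a b d j o e) m F)
    (α : Z a b → ℕ) (hα : α ∈ Bu a b d j o e) (hαk : k ≤ α (Sum.inl o)) : F α = 0 := by
  classical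
  rcases Nat.lt_or_ge k (α (Sum.inl o)) with hlt | hge
  · exact ih F hF α hα hlt
  have hαo : α (Sum.inl o) = k := le_antisymm hge hαk
  have hα' := USpan_mem.1 hα
  have hBx := mem_Bx.1 hα'.1
  obtain ⟨c, hoc, hc⟩ : ∃ c : Fin a, c ≠ o ∧ 1 ≤ α (Sum.inl c) := by
    by_contra hcon
    push Not at hcon
    have h1 : xd α = α (Sum.inl o) := by
      unfold xd
      refine sum_eq_single o (fun c _ hco => ?_) (fun h => absurd (mem_univ o) h)
      have := hcon c hco
      omega
    omega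
  let F' : (Z a b → ℕ) → MvPolynomial (κ × Z a b) ℂ :=
    fun γ => if γ ∈ Bu a b d j o e then F γ else 0
  have hF' : Sec (Bu a b d j o e) m F' := by
    intro i β hβ
    refine Eq.trans (sum_congr rfl fun γ hγ => ?_) (hF i β hβ)
    have : F' γ = F γ := if_pos hγ
    rw [this]
  have h0 : ∀ γ ∈ Bx a b d j, k < γ (Sum.inl o) → F' γ = 0 := by
    intro γ hγ hγk
    by_cases hmem : γ ∈ Bu a b d j o e
    · have : F' γ = F γ := if_pos hmem
      rw [this]
      exact ih F hF γ hmem hγk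
    · exact if_neg hmem
  have hL := lie_sec o c hoc hk m F' hF' h0
  have hsx := USpan_sh_xd o c hoc α hc
  have hso := USpan_sh_apply o c hoc α
  have hshB : sh c o α ∈ Bx a b d j := by
    rw [mem_Bx, hsx.1, hsx.2]
    exact hBx
  have hshU : sh c o α ∈ Bu a b d j o e := USpan_mem.2 ⟨hshB, by omega⟩
  have h1 := ih _ hL (sh c o α) hshU (by omega)
  unfold Lie at h1
  rw [h0 _ hshB (by omega), USpan_sh o c hoc α hc, if_pos (by omega)] at h1
  simp only [map_zero, mul_zero, sum_const_zero, zero_add] at h1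
  have h2 : F' α = 0 := by
    rcases mul_eq_zero.1 h1 with h | h
    · exact absurd h (Nat.cast_ne_zero.2 (Nat.succ_ne_zero _))
    · exact h
  have h3 : F' α = F α := if_pos hα
  rw [← h3]
  exact h2

theorem span_U {a b d j : ℕ} (ha : 2 ≤ a) (hb : 1 ≤ b) (hj : j ≤ d) (o : Fin a) (e : ℕ) :
    (ASys (Bu a b d j o e)).Span := by
  classical
  rcases Nat.lt_or_ge e (d - j) with hde | hde
  swap
  · have hB : Bu a b d j o e = Bx a b d j := by
      unfold Bu
      apply filter_true_of_mem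
      intro α hα
      have h1 := mem_Bx.1 hα
      have h2 : α (Sum.inl o) ≤ xd α := by
        unfold xd
        exact single_le_sum (f := fun i => α (Sum.inl i)) (fun i _ => Nat.zero_le _) (mem_univ o)
      omega
    rw [hB, ASys_Bx]
    exact span_L (by omega) hb hj
  intro κ _ m φ hφ hgn
  by_contra hgd
  obtain ⟨G, hG0, hG⟩ := hgn
  have htop : ∀ F : (Z a b → ℕ) → MvPolynomial (κ × Z a b) ℂ, Sec (Bu a b d j o e) m F →
      ∀ α ∈ Bu a b d j o e, e ≤ α (Sum.inl o) → F α = 0 := by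
    intro F hF α hα hαe
    by_contra hne
    obtain ⟨t, ht⟩ : ∃ t, eval t (G * F α) ≠ 0 := by
      by_contra hcon
      push Not at hcon
      exact mul_ne_zero hG0 hne (MvPolynomial.funext fun t => by rw [hcon t, map_zero])
    rw [map_mul] at ht
    have hle := (USpan_mem.1 hα).2
    have h1 := section_mem (ASys (Bu a b d j o e)) m (fun x => F x.1)
      ((USpan_iff _ m F).1 hF) (fun i v => t (i, v))
    have h2 := top_zero ha hb hj o m φ hφ G hG (fun i v => t (i, v))
      (left_ne_zero_of_mul ht) _ h1 ⟨α, hα⟩ (le_antisymm hle hαe)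
    exact right_ne_zero_of_mul ht h2
  have hall : ∀ n k : ℕ, k + n = e → ∀ F : (Z a b → ℕ) → MvPolynomial (κ × Z a b) ℂ,
      Sec (Bu a b d j o e) m F → ∀ α ∈ Bu a b d j o e, k ≤ α (Sum.inl o) → F α = 0 := by
    intro n
    induction n with
    | zero =>
      intro k hk
      have hke : k = e := by omega
      rw [hke]
      exact htop
    | succ n ih =>
      intro k hk F hF α hα hαk
      exact USpan_step o m k (by omega) hde (ih (k + 1) (by omega)) F hF α hα hαk
  obtain ⟨F, ⟨x, hx⟩, hF⟩ := exists_section (ASys (Bu a b d j o e)) m hgd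
  let F' : (Z a b → ℕ) → MvPolynomial (κ × Z a b) ℂ :=
    fun γ => if h : γ ∈ Bu a b d j o e then F ⟨γ, h⟩ else 0
  have hF'x : ∀ y : {α // α ∈ Bu a b d j o e}, F' y.1 = F y := fun y => dif_pos y.2
  have hS : Sec (Bu a b d j o e) m F' := by
    rw [USpan_iff]
    intro i r
    refine Eq.trans (sum_congr rfl fun y _ => ?_) (hF i r)
    rw [hF'x y]
  have h1 := hall e 0 (by omega) F' hS x.1 x.2 (Nat.zero_le _)
  rw [hF'x x] at h1
  exact hx h1

end Pool.Agent.H51.TB

end

section

/-!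
# Module U8 (TB2): from the numbers of points in the cells to `GM`, with one large point

As `GM_of_counts` in `Pool/Agent/H51/TB/Cnt.lean` (delivered, complete; the proof can be adapted).
Differences: the large point (multiplicity `m₀`) is put at the coordinate point `o = ⟨0, _⟩` of the
`X`-variables (`GM_cons`): it remains to show `GM` for the other points on the exponents with
`α_o + m₀ ≤ d`, i.e. `α_o ≤ e = d - m₀`.  Index type as in `Cnt` but the point `Sum.inl ()` has
multiplicity `0` (type `∅` on all levels, size `0`; remove it at the end or use `GM.mono`-free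
reasoning: the multiset of kinds is `Kind.free 0 ::ₘ S`; a position for it is not needed, e.g. apply
`limit_A` to the family, then `GI.of_comp`-like restriction, or show directly that the conditions of
`Kind.free 0` are empty).  On the level `j` the system is `ASys (Bu a b d j o e)`, with
`span_U`, `dom_A`, `size_le_A`, `le_size_U` (`g.1 ≤ M - 1 ≤ d - m₀ = e` for `g` in the types),
`card_Bu_add` (the number of exponents is `bet a b d j - wt a b d m₀ (0, 0) j`).
-/

namespace Pool.Agent.H51.TB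

open Finset Pool.Agent.H18.Ex Pool.Agent.H21.NX Pool.Agent.H18.Ta

private abbrev UCnt_I (d : ℕ) (c : ℕ → ℕ × ℕ → ℕ) : Type :=
  Σ y : {y : ℕ × (ℕ × ℕ) // y ∈ range (d + 1) ×ˢ KK d}, Fin (c y.1.1 y.1.2)

private theorem UCnt_sum {M : Type} [AddCommMonoid M] (d : ℕ) (c : ℕ → ℕ × ℕ → ℕ)
    (F : ℕ → ℕ × ℕ → M) :
    ∑ s : UCnt_I d c, F s.1.1.1 s.1.1.2 = ∑ m ∈ range (d + 1), ∑ x ∈ KK d, c m x • F m x := by
  rw [Fintype.sum_sigma]
  have h1 : ∀ y : {y : ℕ × (ℕ × ℕ) // y ∈ range (d + 1) ×ˢ KK d},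
      ∑ _t : Fin (c y.1.1 y.1.2), F y.1.1 y.1.2 =
        (fun z : ℕ × (ℕ × ℕ) => c z.1 z.2 • F z.1 z.2) y.1 := by
    intro y
    rw [sum_const, card_univ, Fintype.card_fin]
  rw [sum_congr rfl fun y _ => h1 y]
  rw [← Finset.sum_product']
  exact Finset.sum_coe_sort (range (d + 1) ×ˢ KK d) fun z : ℕ × (ℕ × ℕ) => c z.1 z.2 • F z.1 z.2

private theorem UCnt_univ_map {κ X : Type} [Fintype κ] (f : κ → X) :
    (univ : Finset κ).val.map f = ∑ i, ({f i} : Multiset X) := by
  show _ = ((univ : Finset κ).val.map fun i => ({f i} : Multiset X)).sum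
  have h := Multiset.sum_map_singleton ((univ : Finset κ).val.map f)
  rw [Multiset.map_map] at h
  exact h.symm

/-- a point without conditions can be removed -/
private theorem UCnt_drop {a b : ℕ} (A : Finset (Z a b → ℕ)) {κ : Type}
    (m : κ → Finset (ℕ × ℕ))
    (h : (ASys A).gd (Sum.elim (fun _ : Unit => (∅ : Finset (ℕ × ℕ))) m) = 0) :
    (ASys A).gd m = 0 := by
  obtain ⟨p, hp⟩ := gd_attained (ASys A) (Sum.elim (fun _ : Unit => (∅ : Finset (ℕ × ℕ))) m)
  rw [h] at hp
  have h1 : (ASys A).V m (fun i => p (Sum.inr i)) ≤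
      (ASys A).V (Sum.elim (fun _ : Unit => (∅ : Finset (ℕ × ℕ))) m) p := by
    intro f hf
    rw [mem_AV] at hf ⊢
    rintro (i | i) β hβ
    · exact absurd hβ (Finset.notMem_empty _)
    · exact hf i β hβ
  have h2 := gd_le (ASys A) m fun i => p (Sum.inr i)
  have h3 := Submodule.finrank_mono h1
  omega

theorem GM_of_counts_U {a b d M μ m₀ : ℕ} (ha : 2 ≤ a) (hb : 2 ≤ b) (hμ : 1 ≤ μ) (hμM : μ ≤ M)
    (hM : μ + M ≤ d) (hm₀ : M + m₀ ≤ d + 1) (A : ℕ → ℕ)
    (hA : ∀ m, A m ≠ 0 → 1 ≤ m ∧ m ≤ M ∧ m + M ≤ d + 1) (c : ℕ → ℕ × ℕ → ℕ)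
    (hc : ∀ m ∈ range (d + 1), ∑ x ∈ KK d, c m x = A m)
    (h1 : ∀ j ≤ d, bet a b d j ≤ wt a b d m₀ (0, 0) j +
      ∑ m ∈ range (d + 1), ∑ x ∈ KK d, c m x * wt a b d m x j)
    (h2 : ∀ j ≤ d, ∀ t, 1 ≤ t → t < μ → ell (a + b) (t + 1) * ell (a + b) M ≤
      ∑ m ∈ range (d + 1), ∑ x ∈ KK d, if cls d m x j = t then c m x * wt a b d m x j else 0)
    (h3 : ∀ j ≤ d, ell (a + b) (d + 1 - M) * ell (a + b) M ≤
      ∑ m ∈ range (d + 1), ∑ x ∈ KK d,
        if cls d m x j = μ then c m x * wt a b d m x j else 0) :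
    GM (Sx (Z a b) d) ((m₀ ::ₘ ∑ m ∈ range (d + 1), Multiset.replicate (A m) m).map
      Kind.free) := by
  classical
  have hn1 : 1 ≤ a + b := by omega
  have hm₀d : m₀ ≤ d := by omega
  let o : Fin a := ⟨0, by omega⟩
  rw [Multiset.map_cons]
  refine GM_cons (Sum.inl o) d m₀ _ ?_
  let mult : UCnt_I d c → ℕ := fun s => s.1.1.1
  let cell : UCnt_I d c → ℕ × ℕ := fun s => s.1.1.2
  have hmul : (univ : Finset (UCnt_I d c)).val.map mult =
      ∑ m ∈ range (d + 1), Multiset.replicate (A m) m := by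
    rw [UCnt_univ_map]
    refine (UCnt_sum d c (fun m _ => ({m} : Multiset ℕ))).trans ?_
    refine sum_congr rfl fun m hm => ?_
    rw [← Finset.sum_smul, hc m hm, Multiset.nsmul_singleton]
  rw [← hmul, Multiset.map_map, GM_iff]
  -- the range of the multiplicities
  have hi : ∀ s : UCnt_I d c, A s.1.1.1 ≠ 0 := by
    intro s
    have h5 := s.1.2
    rw [mem_product] at h5
    rw [← hc _ h5.1]
    have h6 : 0 < c s.1.1.1 s.1.1.2 := lt_of_le_of_lt (Nat.zero_le _) s.2.2
    have h7 : c s.1.1.1 s.1.1.2 ≤ ∑ x ∈ KK d, c s.1.1.1 x :=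
      single_le_sum (fun x _ => Nat.zero_le (c s.1.1.1 x)) h5.2
    omega
  have hcell : ∀ i, (cell i).1 + (cell i).2 ≤ d := by
    intro s
    have h5 := s.1.2
    rw [mem_product] at h5
    exact mem_KK.1 h5.2
  have hmM : ∀ i, mult i ≤ M := fun s => (hA _ (hi s)).2.1
  refine limit_A _ (filter_subset _ _) mult cell hcell fun j hj => ?_
  have hlev : ((Sx (Z a b) d).filter fun α => α (Sum.inl o) + m₀ ≤ d).filter (fun α => yd α = j) =
      Bu a b d j o (d - m₀) := by
    unfold Bu Bx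
    ext α
    simp only [mem_filter]
    constructor
    · rintro ⟨⟨h4, h5⟩, h6⟩
      exact ⟨⟨h4, h6⟩, by omega⟩
    · rintro ⟨⟨h4, h6⟩, h5⟩
      exact ⟨⟨h4, by omega⟩, h6⟩
  rw [hlev]
  refine UCnt_drop _ _ ?_
  let ty : Unit ⊕ UCnt_I d c → Finset (ℕ × ℕ) :=
    Sum.elim (fun _ : Unit => (∅ : Finset (ℕ × ℕ))) fun i => Lam d (mult i) (cell i) j
  let cl : Unit ⊕ UCnt_I d c → ℕ := Sum.elim (fun _ => 0) fun i => cls d (mult i) (cell i) j
  show (ASys (Bu a b d j o (d - m₀))).gd ty = 0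
  -- sizes
  have hle : ∀ i, wt a b d (mult i) (cell i) j ≤
      (ASys (Bu a b d j o (d - m₀))).size (Lam d (mult i) (cell i) j) := by
    intro i
    refine le_size_U (by omega) (by omega) hj o (d - m₀) _ fun g hg => ?_
    have h5 := hmM i
    unfold Lam at hg
    rw [mem_filter] at hg
    exact ⟨hg.2.2.1, hg.2.1, by omega⟩
  have hsz : ∀ i t, cls d (mult i) (cell i) j ≤ t →
      (ASys (Bu a b d j o (d - m₀))).size (Lam d (mult i) (cell i) j) ≤ ell (a + b) t := by
    intro i t ht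
    refine size_le_A (by omega) _ _ t fun g hg => ?_
    have h5 : g.1 + g.2 + 1 ≤ cls d (mult i) (cell i) j :=
      le_sup (f := fun g : ℕ × ℕ => g.1 + g.2 + 1) hg
    omega
  let B : Finset (ℕ × ℕ) := (range M ×ˢ range M).filter fun g => g.1 + g.2 < M
  have hB : (ASys (Bu a b d j o (d - m₀))).size B ≤ ell (a + b) M := by
    refine size_le_A (by omega) _ _ M fun g hg => ?_
    exact (mem_filter.1 hg).2
  have hdom : ∀ i, (ASys (Bu a b d j o (d - m₀))).Dom B (ty i) := by
    rintro (i | i)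
    · exact dom_A _ (empty_subset _)
    · refine dom_A _ fun g hg => ?_
      have h5 := hmM i
      have hg' : g ∈ Lam d (mult i) (cell i) j := hg
      unfold Lam at hg'
      rw [mem_filter] at hg'
      rw [mem_filter, mem_product, mem_range, mem_range]
      omega
  -- sums
  have hsumF : ∀ F : ℕ → ℕ × ℕ → ℕ, (∑ s : UCnt_I d c, F (mult s) (cell s)) =
      ∑ m ∈ range (d + 1), ∑ x ∈ KK d, c m x * F m x := by
    intro F
    exact UCnt_sum d c F
  have hsumt : ∀ t, (∑ m ∈ range (d + 1), ∑ x ∈ KK d,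
      if cls d m x j = t then c m x * wt a b d m x j else 0) ≤
      ∑ i ∈ univ.filter (fun i : Unit ⊕ UCnt_I d c => i ≠ Sum.inl () ∧ cl i = t),
        (ASys (Bu a b d j o (d - m₀))).size (ty i) := by
    intro t
    rw [sum_filter, Fintype.sum_sum_type]
    have h5 := hsumF fun m x => if cls d m x j = t then wt a b d m x j else 0
    have h6 : (∑ m ∈ range (d + 1), ∑ x ∈ KK d,
        if cls d m x j = t then c m x * wt a b d m x j else 0) =
        ∑ m ∈ range (d + 1), ∑ x ∈ KK d, c m x * if cls d m x j = t then wt a b d m x j else 0 := by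
      refine sum_congr rfl fun m _ => sum_congr rfl fun x _ => ?_
      split_ifs
      · rfl
      · rw [mul_zero]
    rw [h6, ← h5]
    refine le_trans (sum_le_sum fun s _ => ?_) (Nat.le_add_left _ _)
    by_cases h7 : cls d (mult s) (cell s) j = t
    · rw [if_pos h7, if_pos ⟨Sum.inr_ne_inl, h7⟩]
      exact hle s
    · rw [if_neg h7]
      exact Nat.zero_le _
  refine level (ASys (Bu a b d j o (d - m₀))) (span_U ha (by omega) hj o (d - m₀))
    ty B hdom (Sum.inl ()) cl μ hμ
    (fun t => if t ≤ 1 then 0 else ell (a + b) t * ell (a + b) M)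
    (ell (a + b) (d + 1 - M) * ell (a + b) M) (if_pos (by omega)) (if_pos (by omega))
    ?_ ?_ ?_ ?_ ?_
  · rintro (i | i) hne _
    · exact absurd rfl hne
    · show ((ASys (Bu a b d j o (d - m₀))).size (Lam d (mult i) (cell i) j) - 1) *
        (ASys (Bu a b d j o (d - m₀))).size B ≤
        if cls d (mult i) (cell i) j ≤ 1 then 0
          else ell (a + b) (cls d (mult i) (cell i) j) * ell (a + b) M
      split_ifs with h5
      · have h6 := hsz i 1 h5
        rw [ell_one] at h6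
        have h7 : (ASys (Bu a b d j o (d - m₀))).size (Lam d (mult i) (cell i) j) - 1 = 0 := by
          omega
        rw [h7, zero_mul]
      · exact Nat.mul_le_mul ((Nat.sub_le _ _).trans (hsz i _ le_rfl)) hB
  · rintro (i | s) hne _
    · exact absurd rfl hne
    · have h5 := (hA _ (hi s)).2.2
      have h6 : cls d (mult s) (cell s) j ≤ d + 1 - M := by
        refine (cls_le _).trans ?_
        show s.1.1.1 ≤ d + 1 - M
        omega
      exact Nat.mul_le_mul ((Nat.sub_le _ _).trans (hsz _ _ h6)) hB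
  · intro t ht1 htμ
    show (if t + 1 ≤ 1 then 0 else ell (a + b) (t + 1) * ell (a + b) M) ≤ _
    rw [if_neg (by omega)]
    exact (h2 j hj t ht1 htμ).trans (hsumt t)
  · exact (h3 j hj).trans (hsumt μ)
  · rw [Fintype.card_coe, Fintype.sum_sum_type]
    have h5 := card_Bu_add (a := a) (by omega : 1 ≤ b) hj hm₀d o
    have h6 := h1 j hj
    have h7 : (Bu a b d j o (d - m₀)).card ≤
        ∑ m ∈ range (d + 1), ∑ x ∈ KK d, c m x * wt a b d m x j := by
      unfold Bu
      omega
    refine h7.trans (le_trans ?_ (Nat.le_add_left _ _))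
    rw [← hsumF fun m x => wt a b d m x j]
    exact sum_le_sum fun s _ => hle s

end Pool.Agent.H51.TB

end

section

/-!
# Module U9 (TB2): the core theorem with one large point

As `core` in `Pool/Agent/H51/TB/Core.lean` (delivered, complete; the proof can be adapted), with
`GM_of_counts_U` instead of `GM_of_counts`.  `μ` by pigeonhole (as in `NX/Final.lean`, `exists_count`):
`tot r S ≥ N - ell r m₀ ≥ N / 2` (`grow_one`, `m₀ ≤ d`), so for one of the at most `d` values
`μ ∈ [1, M]`, `S.count μ * ell r μ ≥ N / (2 (d + 1))`; `μ + M ≤ 2 M ≤ d`.  (`num` is stated for `m₀ ≤ d`.)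
-/

namespace Pool.Agent.H51.TB

open Finset Pool.Agent.H18.Ex Pool.Agent.H21.NX

private theorem UCore_ell_up (r c : ℕ) (hr : 1 ≤ r) : ell (r - 1) (c + 1) ≤ ell r (c + 1) := by
  obtain ⟨k, rfl⟩ : ∃ k, r = k + 1 := ⟨r - 1, by omega⟩
  rw [Nat.add_sub_cancel, ell_succ k c]
  exact Nat.le_add_left _ _

private theorem UCore_sum_replicate (d : ℕ) (T : Multiset ℕ) (hT : ∀ m ∈ T, m ≤ d) :
    ∑ m ∈ range (d + 1), Multiset.replicate (T.count m) m = T := by
  ext x
  rw [Multiset.count_sum']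
  simp only [Multiset.count_replicate]
  by_cases hx : x ∈ T
  · have h1 : x ∈ range (d + 1) := mem_range.2 (Nat.lt_succ_of_le (hT x hx))
    rw [Finset.sum_ite_eq' (range (d + 1)) x (fun m => T.count m), if_pos h1]
  · rw [Multiset.count_eq_zero_of_notMem hx]
    apply Finset.sum_eq_zero
    intro m _
    split_ifs with h
    · rw [h]
      exact Multiset.count_eq_zero_of_notMem hx
    · rfl

private theorem UCore_sum_tot (r d : ℕ) (T : Multiset ℕ) (hT : ∀ m ∈ T, m ≤ d) :
    ∑ m ∈ range (d + 1), T.count m * ell r m = (T.map (ell r)).sum := by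
  rw [Finset.sum_multiset_map_count]
  symm
  have h1 : T.toFinset ⊆ range (d + 1) := by
    intro x hx
    exact mem_range.2 (Nat.lt_succ_of_le (hT x (Multiset.mem_toFinset.1 hx)))
  refine (Finset.sum_subset h1 ?_).trans ?_
  · intro x _ hx
    rw [Multiset.mem_toFinset] at hx
    rw [Multiset.count_eq_zero_of_notMem hx, zero_smul]
  · exact Finset.sum_congr rfl fun m _ => smul_eq_mul _ _

private theorem UCore_pigeon (r d : ℕ) (S : Multiset ℕ) (hS : ∀ m ∈ S, m ≤ d) (N : ℕ)
    (hN : N ≤ 2 * (S.map (ell r)).sum) :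
    ∃ μ, N ≤ 2 * (d + 1) * (S.count μ * ell r μ) := by
  by_contra hcon
  push Not at hcon
  have h1 := UCore_sum_tot r d S hS
  have h2 : ∑ m ∈ range (d + 1), 2 * (d + 1) * (S.count m * ell r m) <
      ∑ _m ∈ range (d + 1), N :=
    Finset.sum_lt_sum_of_nonempty ⟨0, by simp⟩ fun m _ => hcon m
  rw [← Finset.mul_sum, h1, Finset.sum_const, card_range, smul_eq_mul] at h2
  have h3 : 2 * (d + 1) * (S.map (ell r)).sum = (d + 1) * (2 * (S.map (ell r)).sum) := by ring
  rw [h3] at h2
  have h4 := Nat.lt_of_mul_lt_mul_left h2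
  omega

theorem core_U (d : ℕ) : ∃ r₀ : ℕ, ∀ r : ℕ, r₀ ≤ r → ∀ (M m₀ : ℕ) (S : Multiset ℕ), 1 ≤ M →
    2 * M ≤ d → M + m₀ ≤ d + 1 → (∀ m ∈ S, 1 ≤ m ∧ m ≤ M) → ell r (d + 1) ≤ ell r m₀ + tot r S →
    GM (Sx (Fin (r + 1)) d) ((m₀ ::ₘ S).map Kind.free) := by
  set η : ℝ := 1 / (2 * ((d : ℝ) + 1)) with hηdef
  have hη : 0 < η := by positivity
  obtain ⟨n₁, h₁⟩ := num d (min η (1 / 2)) (lt_min hη (by norm_num))
  obtain ⟨n₂, h₂⟩ := grow_one d 2
  refine ⟨max n₁ (max n₂ 1), fun r hr M m₀ S hM1 h2M hm₀ hS' hN => ?_⟩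
  have hr1 : n₁ ≤ r + 1 := ((le_max_left _ _).trans hr).trans (Nat.le_succ r)
  have hr2 : n₂ ≤ r := ((le_max_left _ _).trans (le_max_right _ _)).trans hr
  have hr3 : 1 ≤ r := ((le_max_right _ _).trans (le_max_right _ _)).trans hr
  have hS : ∀ m ∈ S, 1 ≤ m ∧ m ≤ M ∧ m + M ≤ d + 1 := fun m hm => by
    have := hS' m hm
    exact ⟨this.1, this.2, by omega⟩
  have he : 2 * ell r m₀ ≤ ell r (d + 1) := by
    have h3 := h₂ r hr2 m₀ (by omega)
    have h4 : 2 * ell r m₀ ≤ ell (r - 1) (d + 1) := by exact_mod_cast h3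
    exact h4.trans (UCore_ell_up r d hr3)
  have hNpos : 1 ≤ ell r (d + 1) := ell_pos r (by omega)
  obtain ⟨μ, hpig⟩ := UCore_pigeon r d S (fun m hm => by have := hS m hm; omega) (ell r (d + 1))
    (by unfold tot at hN; omega)
  have hμS : μ ∈ S := by
    rw [← Multiset.count_ne_zero]
    intro h0
    rw [h0, Nat.zero_mul, Nat.mul_zero] at hpig
    omega
  have hμ : 1 ≤ μ := (hS μ hμS).1
  have hμM : μ ≤ M := (hS μ hμS).2.1
  have hM : μ + M ≤ d := by omega
  have hη' : η * (ell r (d + 1) : ℝ) ≤ ((S.count μ * ell r μ : ℕ) : ℝ) := by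
    have h3 : (ell r (d + 1) : ℝ) ≤ 2 * ((d : ℝ) + 1) * ((S.count μ * ell r μ : ℕ) : ℝ) := by
      exact_mod_cast hpig
    rw [hηdef, div_mul_eq_mul_div, one_mul, div_le_iff₀ (by positivity)]
    linarith
  obtain ⟨T, hTS, hT1, hT2, hT3⟩ := choose_part (ell r) (ell r d) (ell r (d + 1)) (ell r m₀) μ S
    (fun m hm => ell_mono r (by have := hS m hm; omega)) he hN
  have hTm : ∀ m ∈ T, 1 ≤ m ∧ m ≤ M ∧ m + M ≤ d + 1 := fun m hm => hS m (Multiset.mem_of_le hTS hm)
  have hTd : ∀ m ∈ T, m ≤ d := fun m hm => by have := hTm m hm; omega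
  have hsum := UCore_sum_tot r d T hTd
  obtain ⟨a, b, ha, hb, hab, hnum⟩ := h₁ (r + 1) hr1
  have habr : a + b - 1 = r := by omega
  rw [habr] at hnum
  have hA : ∀ m, T.count m ≠ 0 → 1 ≤ m ∧ m ≤ M ∧ m + M ≤ d + 1 := fun m hm =>
    hTm m (Multiset.count_ne_zero.1 hm)
  have hdom : min η (1 / 2) * (ell r (d + 1) : ℝ) ≤ ((T.count μ * ell r μ : ℕ) : ℝ) := by
    have h0 : (0 : ℝ) ≤ (ell r (d + 1) : ℝ) := Nat.cast_nonneg _
    rcases hT3 with h | h
    · rw [h]
      exact (mul_le_mul_of_nonneg_right (min_le_left _ _) h0).trans hη'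
    · have h5 : (ell r (d + 1) : ℝ) ≤ 2 * ((T.count μ * ell r μ : ℕ) : ℝ) := by exact_mod_cast h
      have h6 := mul_le_mul_of_nonneg_right (min_le_right η (1 / 2)) h0
      linarith
  obtain ⟨c, hc, k1, k2, k3⟩ := hnum M μ m₀ (fun m => T.count m) hμ hμM hM (by omega) hA
    (by rw [hsum]; exact hT1) (by rw [hsum]; exact hT2) hdom
  have hGM := GM_of_counts_U ha hb hμ hμM hM hm₀ (fun m => T.count m) hA c hc k1 k2 k3
  rw [UCore_sum_replicate d T hTd] at hGM
  have hGM2 := GM_equiv (finSumFinEquiv.trans (finCongr hab)) d (m₀ ::ₘ T) hGM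
  exact GM.mono (Multiset.map_le_map ((Multiset.cons_le_cons_iff m₀).2 hTS)) hGM2

end Pool.Agent.H51.TB

end
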