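import Pool.Agent.H94.LP7.M127
import Pool.Agent.H94.LP7.M132
import Pool.Agent.H94.LP7.M134

/-! The parts of this file: H51.TB.UPair, H51.TB.Fin, H74.V7.FinC. -/

section

/-!
# Module U10 (TB2): pair sums at most `d + 1`

`k = 0`: `window_fin`.  Let `m i₀ = M₀` be the largest multiplicity.
* `d ≤ M₀`: `cone`.
* `2 * M₀ ≤ d + 1`: `pairs` with `M = M₀`; the sum in `hH` there is over the `i` with
  `m i + M₀ = d + 1`, which (as `m i ≤ M₀`) are those with `2 * m i = d + 1`.
* `d + 2 ≤ 2 * M₀`, `M₀ < d`: the other multiplicities are at most `M = d + 1 - M₀`, `2 ≤ M`, `2 * M ≤ d`.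
  Let `S` be the multiset of the `m i`, `i ≠ i₀`, together with `binom (d + r, r) - ∑ ell r (m i)`
  simple points; `core_U` (with `m₀ = M₀`) and `max_of_GM`.
-/

namespace Pool.Agent.H51.TB

open Finset Pool.Agent.H18.Fat Pool.Agent.H18.Ex Pool.Agent.H21.NX

private theorem UPair_val {k : ℕ} (m : Fin k → ℕ) (i₀ : Fin k) :
    (univ : Finset (Fin k)).val.map m = m i₀ ::ₘ (univ.erase i₀).val.map m := by
  have h1 : (univ : Finset (Fin k)).val = i₀ ::ₘ (univ.erase i₀).val := by
    rw [← Finset.insert_val_of_notMem (Finset.notMem_erase i₀ _), Finset.insert_erase (mem_univ _)]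
  rw [h1, Multiset.map_cons]

theorem pairs_all (d : ℕ) (η : ℝ) (hη : 0 < η) : ∃ r₀ : ℕ, ∀ r : ℕ, r₀ ≤ r → ∀ (k : ℕ)
    (m : Fin k → ℕ), (∀ i, 1 ≤ m i) → (∀ i j, i ≠ j → m i + m j ≤ d + 1) →
    ((∑ i ∈ univ.filter (fun i => 2 * m i = d + 1), ell r (m i) : ℕ) : ℝ) ≤
      (1 - η) * ((d + r).choose r : ℝ) →
    ForGeneralPoints r k fun p => ImposesMaximalConditions r d p m := by
  obtain ⟨r1, h1⟩ := pairs d η hη
  obtain ⟨r2, h2⟩ := core_U d
  refine ⟨max r1 r2 + 1, fun r hr k m hm hp hH => ?_⟩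
  have hr1 : r1 ≤ r := (le_max_left r1 r2).trans (by omega)
  have hr2 : r2 ≤ r := (le_max_right r1 r2).trans (by omega)
  have hr0 : 1 ≤ r := by omega
  rcases Nat.eq_zero_or_pos k with rfl | hk
  · exact window_fin r d hr0 0 m (fun i => i.elim0) (fun i _ => i.elim0)
  obtain ⟨i₀, -, hi₀⟩ := Finset.exists_max_image (univ : Finset (Fin k)) m ⟨⟨0, hk⟩, mem_univ _⟩
  have hmax : ∀ i, m i ≤ m i₀ := fun i => hi₀ i (mem_univ _)
  rcases Nat.lt_or_ge (m i₀) d with hd | hd
  swap
  · exact cone r d k hr0 m hm hp i₀ hd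
  rcases Nat.lt_or_ge (d + 1) (2 * m i₀) with h3 | h3
  swap
  · refine h1 r hr1 k m hm hp (m i₀) hmax ⟨i₀, rfl⟩ fun _ => ?_
    refine le_trans ?_ hH
    have h4 : ∑ i ∈ univ.filter (fun i => m i + m i₀ = d + 1), ell r (m i) ≤
        ∑ i ∈ univ.filter (fun i => 2 * m i = d + 1), ell r (m i) := by
      refine Finset.sum_le_sum_of_subset fun i hi => ?_
      rw [Finset.mem_filter] at hi ⊢
      have := hmax i
      exact ⟨hi.1, by omega⟩
    exact_mod_cast h4
  -- one large point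
  set M := d + 1 - m i₀ with hM
  have haug : aug r d m = m i₀ ::ₘ ((univ.erase i₀).val.map m +
      Multiset.replicate ((d + r).choose r - ∑ i, ell r (m i)) 1) := by
    unfold aug
    rw [UPair_val m i₀, Multiset.cons_add]
  refine max_of_GM r k d hr0 m ?_
  rw [← aug_map, haug]
  refine h2 r hr2 M (m i₀) _ (by omega) (by omega) (by omega) ?_ ?_
  · intro x hx
    rcases Multiset.mem_add.1 hx with hx | hx
    · obtain ⟨i, hi, rfl⟩ := Multiset.mem_map.1 hx
      have hi' : i ≠ i₀ := Finset.ne_of_mem_erase (show i ∈ univ.erase i₀ from hi)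
      have := hp i i₀ hi'
      exact ⟨hm i, by omega⟩
    · rw [Multiset.eq_of_mem_replicate hx]
      exact ⟨le_rfl, by omega⟩
  · have h5 := le_tot_aug r d m
    rw [haug] at h5
    refine h5.trans (le_of_eq ?_)
    unfold tot
    rw [Multiset.map_cons, Multiset.sum_cons]

end Pool.Agent.H51.TB

end

section

/-!
# Project TB: final theorems
-/

namespace Pool.Agent.H51.TB

open Finset MvPolynomial Pool.Agent.H18.Fat Pool.Agent.H18.Ex Pool.Agent.H21.NX

/-- Pair sums at most `d + 1`. -/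
theorem fixed_one (d : ℕ) (η : ℝ) (hη : 0 < η) : ∃ r₀ K : ℕ, ∀ r : ℕ, r₀ ≤ r → ∀ (k : ℕ)
    (m : Fin k → ℕ), (∀ i, 1 ≤ m i) → (∀ i j, i ≠ j → m i + m j ≤ d + 1) →
    (((∑ i ∈ univ.filter (fun i => 2 * m i = d + 1), ell r (m i) : ℕ) : ℝ) ≤
      (1 - η) * ((d + r).choose r : ℝ) ∨
      ∃ μ, 1 ≤ μ ∧ 4 * μ ≤ d + 1 ∧ K * r ^ (d - μ) ≤ (univ.filter fun i => m i = μ).card) →
    ForGeneralPoints r k fun p => ImposesMaximalConditions r d p m := by
  obtain ⟨r₁, h₁⟩ := pairs_all d (min η 1) (lt_min hη one_pos)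
  obtain ⟨K, r₂, h₂⟩ := exact_many d
  refine ⟨r₁ + r₂, K, fun r hr k m hm hp hcase => ?_⟩
  have hN : (0 : ℝ) ≤ ((d + r).choose r : ℝ) := Nat.cast_nonneg _
  rcases hcase with h | ⟨μ, hμ1, hμ4, hμ⟩
  · refine h₁ r (by omega) k m hm hp (h.trans ?_)
    have : min η 1 ≤ η := min_le_left _ _
    nlinarith
  · by_cases hbig : ∃ i, d + 2 ≤ 2 * m i
    · obtain ⟨i₀, hi₀⟩ := hbig
      refine h₁ r (by omega) k m hm hp ?_
      have hempty : (univ.filter fun i => 2 * m i = d + 1) = ∅ := by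
        rw [filter_eq_empty_iff]
        intro i _ hi
        by_cases hii : i = i₀
        · subst hii
          omega
        · have := hp i i₀ hii
          omega
      rw [hempty, sum_empty, Nat.cast_zero]
      have : min η 1 ≤ 1 := min_le_right _ _
      nlinarith
    · push Not at hbig
      refine h₂ r (by omega) μ ((d + 1) / 2) hμ1 (by omega) (by omega) (by omega) k m
        (fun i => by have := hbig i; omega) hμ

/-- Pair sums at least `d + 2`. -/
theorem fixed_two (r d k : ℕ) (hr : 1 ≤ r) (m : Fin k → ℕ) (hm : ∀ i, 1 ≤ m i)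
    (hp : ∃ i j, i ≠ j ∧ d + 2 ≤ m i + m j) :
    ForGeneralPoints r k fun p => (¬ ImposesMaximalConditions r d p m ↔
      0 < Module.finrank ℂ (fatForms r d p m)) := by
  refine (ForGeneralPoints.coord_ne_zero r k).mono fun p hp0 => ?_
  have hge := finrank_fatForms_ge (d := d) hr (fun i => hp0 i 0) m
  constructor
  · intro h
    by_contra h0
    have h1 : Module.finrank ℂ (fatForms r d p m) = 0 := by omega
    apply h
    unfold ImposesMaximalConditions
    rw [h1] at hge ⊢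
    omega
  · intro h
    by_cases hbig : ∃ i, d < m i
    · obtain ⟨i, hi⟩ := hbig
      have := Pool.Agent.H21.HD.MainX.big_mult p m i hi
      omega
    · push Not at hbig
      obtain ⟨i, j, hij, hd⟩ := hp
      exact Pool.Agent.H21.HD.not_maximal_of_pair hr d p (fun i => hp0 i 0) m
        (fun i => ⟨hm i, hbig i⟩) i j hij hd h

end Pool.Agent.H51.TB

end

section

/-!
# The set of the pairs `(r, d)` with a failing tuple

`final_set`: if `Crit M` holds for all `M ≥ 2`, then for every `M ≥ 1` there is a finite set `S` of pairs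
`(r, d)` such that for all `(r, d) ∉ S`, `r ≥ 2`, there is a failing tuple with multiplicities at most
`M` if and only if `2 ≤ d ≤ 2 M - 2`.
-/

namespace Pool.Agent.H74.V7

open Finset MvPolynomial Pool.Agent.H18.Fat Pool.Agent.H18.Ex Pool.Agent.H21.NX Pool.Agent.H21.NX.GenBX

/-- A power of a linear form through the point. -/
theorem vanishes_linear_pow {n d m : ℕ} (c q : Fin n → ℂ) (hq : ∑ j, c j * q j = 0) (hm : m ≤ d) :
    VanishesToOrder ((∑ j, C (c j) * X j : MvPolynomial (Fin n) ℂ) ^ d) q m := by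
  intro β hβ
  have h1 : shift q (∑ j, C (c j) * X j : MvPolynomial (Fin n) ℂ) = ∑ j, C (c j) * X j := by
    unfold shift
    rw [map_sum]
    have h2 : ∀ j, aeval (fun j => X j + C (q j) : Fin n → MvPolynomial (Fin n) ℂ) (C (c j) * X j) =
        C (c j) * X j + C (c j * q j) := by
      intro j
      rw [map_mul, aeval_X, aeval_C, algebraMap_eq, mul_add, C_mul]
    rw [Finset.sum_congr rfl fun j _ => h2 j, Finset.sum_add_distrib, ← map_sum, hq, C_0, add_zero]
  have h3 : shift q ((∑ j, C (c j) * X j : MvPolynomial (Fin n) ℂ) ^ d) =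
      (∑ j, C (c j) * X j) ^ d := by
    rw [← h1]
    conv_rhs => rw [h1]
    unfold shift at h1 ⊢
    rw [map_pow, h1]
    rw [h1]
  rw [h3]
  have h4 : (∑ j, C (c j) * X j : MvPolynomial (Fin n) ℂ).IsHomogeneous 1 := by
    refine IsHomogeneous.sum _ _ _ fun j _ => ?_
    exact (isHomogeneous_C_mul_X (c j) j)
  have h5 := h4.pow d
  rw [one_mul] at h5
  exact h5.coeff_eq_zero (by omega)

/-- Two points always lie on a hyperplane. -/
theorem two_alive (r d : ℕ) (hr : 2 ≤ r) (p : Fin 2 → Fin (r + 1) → ℂ) (m : Fin 2 → ℕ)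
    (hm : ∀ i, m i ≤ d) : 0 < Module.finrank ℂ (fatForms r d p m) := by
  classical
  let L : (Fin (r + 1) → ℂ) →ₗ[ℂ] (Fin 2 → ℂ) := Matrix.mulVecLin (Matrix.of p)
  have hker : LinearMap.ker L ≠ ⊥ := by
    intro h
    have h1 := LinearMap.finrank_le_finrank_of_injective (LinearMap.ker_eq_bot.1 h)
    simp at h1
    omega
  obtain ⟨c, hc, hc0⟩ := Submodule.exists_mem_ne_zero_of_ne_bot hker
  have hcp : ∀ i, ∑ j, c j * p i j = 0 := by
    intro i
    have h2 := congrFun (LinearMap.mem_ker.1 hc) i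
    have h3 : L c i = ∑ j, p i j * c j := rfl
    rw [h3] at h2
    rw [← h2.trans (Pi.zero_apply i).symm.symm]
    exact Finset.sum_congr rfl fun j _ => mul_comm _ _
  have hlin : (∑ j, C (c j) * X j : MvPolynomial (Fin (r + 1)) ℂ) ≠ 0 := by
    obtain ⟨j, hj⟩ := Function.ne_iff.1 hc0
    intro h
    have h4 := congrArg (MvPolynomial.coeff (Finsupp.single j 1)) h
    rw [coeff_sum, coeff_zero, Finset.sum_eq_single j] at h4
    · rw [coeff_C_mul, coeff_X, if_pos rfl, mul_one] at h4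
      exact hj h4
    · intro b _ hb
      rw [coeff_C_mul, coeff_X, if_neg, mul_zero]
      intro h5
      exact hb (Finsupp.single_left_injective one_ne_zero h5)
    · intro h5
      exact absurd (Finset.mem_univ j) h5
  have hmem : (∑ j, C (c j) * X j : MvPolynomial (Fin (r + 1)) ℂ) ^ d ∈ fatForms r d p m := by
    refine ⟨?_, fun i => vanishes_linear_pow c (p i) (hcp i) (hm i)⟩
    have h4 : (∑ j, C (c j) * X j : MvPolynomial (Fin (r + 1)) ℂ).IsHomogeneous 1 :=
      IsHomogeneous.sum _ _ _ fun j _ => isHomogeneous_C_mul_X (c j) j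
    have h5 := h4.pow d
    rwa [one_mul] at h5
  have hfin := finite_fat (d := d) p m
  rw [Module.finrank_pos_iff_exists_ne_zero]
  exact ⟨⟨_, hmem⟩, fun h => pow_ne_zero d hlin (congrArg Subtype.val h)⟩

/-- Two points fail for `2 ≤ d ≤ 2 M - 2`. -/
theorem two_fail (r d M : ℕ) (hr : 2 ≤ r) (hd : 2 ≤ d) (hM : d + 2 ≤ 2 * M) :
    ∃ m : Fin 2 → ℕ, (∀ i, 1 ≤ m i ∧ m i ≤ M) ∧
      ForGeneralPoints r 2 fun p => ¬ ImposesMaximalConditions r d p m := by
  have h1 : 1 ≤ (d + 3) / 2 ∧ (d + 3) / 2 ≤ M := ⟨by omega, by omega⟩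
  refine ⟨fun _ => (d + 3) / 2, fun _ => h1, ?_⟩
  refine (Pool.Agent.H51.TB.fixed_two r d 2 (by omega) (fun _ => (d + 3) / 2) (fun _ => by omega)
    ⟨0, 1, by decide, by omega⟩).mono fun p hp => hp.2 ?_
  exact two_alive r d hr p _ fun _ => by omega

end Pool.Agent.H74.V7

end
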