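import Pool.Agent.H94.LP7.M09
import Pool.Agent.H94.LP7.M15

/-! The parts of this file: V7.BE.Dir, V7.BE.Rest, V7.BE.Wts, V7.BE.Slice. -/

section

/-!
# V7, block BETA, module Dir: directions

`exists_dir`: for every proper nonzero subspace `E` of `(ℂ^c)^{⊗ k}` there are a factor `i` and a
vector `x` such that the contraction `E → E ⌟ x` has rank greater than `dim E / c`.

`tele`: dimension of a subspace from its successive images.
-/

namespace Pool.Agent.V7.BE

open Finset Module Pool.Agent.V7

/-! ### Telescoping -/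

section tele

variable {V V' : Type*} [AddCommGroup V] [Module ℂ V] [AddCommGroup V'] [Module ℂ V']

/-- The successive kernels. -/
def cut (φ : ℕ → V →ₗ[ℂ] V') (E : Submodule ℂ V) : ℕ → Submodule ℂ V
  | 0 => E
  | n + 1 => cut φ E n ⊓ LinearMap.ker (φ n)

theorem mem_cut (φ : ℕ → V →ₗ[ℂ] V') (E : Submodule ℂ V) (n : ℕ) (v : V) :
    v ∈ cut φ E n ↔ v ∈ E ∧ ∀ a < n, φ a v = 0 := by
  induction n with
  | zero => simp [cut]
  | succ n ih =>
    rw [cut, Submodule.mem_inf, ih, LinearMap.mem_ker]
    constructor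
    · rintro ⟨⟨h1, h2⟩, h3⟩
      refine ⟨h1, fun a ha => ?_⟩
      rcases Nat.lt_succ_iff_lt_or_eq.1 ha with h | h
      · exact h2 a h
      · rw [h]
        exact h3
    · rintro ⟨h1, h2⟩
      exact ⟨⟨h1, fun a ha => h2 a (by omega)⟩, h2 n (by omega)⟩

theorem finrank_map_add (P : Submodule ℂ V) [FiniteDimensional ℂ P] (φ : V →ₗ[ℂ] V') :
    finrank ℂ (P.map φ) + finrank ℂ (P ⊓ LinearMap.ker φ : Submodule ℂ V) = finrank ℂ P := by
  have h := LinearMap.finrank_range_add_finrank_ker (φ.domRestrict P)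
  have h1 : LinearMap.range (φ.domRestrict P) = P.map φ := by
    ext x
    constructor
    · rintro ⟨v, rfl⟩
      exact ⟨v.1, v.2, rfl⟩
    · rintro ⟨v, hv, rfl⟩
      exact ⟨⟨v, hv⟩, rfl⟩
  have h2 : finrank ℂ (LinearMap.ker (φ.domRestrict P)) =
      finrank ℂ (P ⊓ LinearMap.ker φ : Submodule ℂ V) := by
    have h3 : (LinearMap.ker (φ.domRestrict P)).map P.subtype = P ⊓ LinearMap.ker φ := by
      ext x
      constructor
      · rintro ⟨v, hv, rfl⟩
        exact ⟨v.2, hv⟩
      · rintro ⟨hx, hx'⟩
        exact ⟨⟨x, hx⟩, hx', rfl⟩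
    rw [← h3]
    exact (LinearEquiv.finrank_eq (Submodule.equivMapOfInjective P.subtype
      P.injective_subtype _))
  rw [h1, h2] at h
  exact h

theorem tele [FiniteDimensional ℂ V] (φ : ℕ → V →ₗ[ℂ] V') (E : Submodule ℂ V) (n : ℕ) :
    finrank ℂ E = ∑ a ∈ range n, finrank ℂ ((cut φ E a).map (φ a)) + finrank ℂ (cut φ E n) := by
  induction n with
  | zero =>
    rw [range_zero, sum_empty, zero_add]
    rfl
  | succ n ih =>
    rw [sum_range_succ, add_assoc, cut, finrank_map_add (cut φ E n) (φ n)]
    exact ih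

end tele

/-! ### Directions -/

section dir

variable {ι : Type} [Fintype ι] [DecidableEq ι] {c : ℕ}

/-- The tensor `e_a ⊗ w` (slot `i`), for `w` independent of the slot `i`. -/
noncomputable def ep (i : ι) (a : Fin c) : ((ι → Fin c) → ℂ) →ₗ[ℂ] ((ι → Fin c) → ℂ) where
  toFun w s := if s i = a then w s else 0
  map_add' v w := by
    funext s
    simp only [Pi.add_apply]
    split_ifs <;> simp
  map_smul' x v := by
    funext s
    simp only [Pi.smul_apply, smul_eq_mul, RingHom.id_apply]
    split_ifs <;> simp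

theorem ep_apply (i : ι) (a : Fin c) (w : (ι → Fin c) → ℂ) (s : ι → Fin c) :
    ep i a w s = if s i = a then w s else 0 := rfl

theorem Dk_single (i : ι) (a : Fin c) (v : (ι → Fin c) → ℂ) (s : ι → Fin c) :
    Dk i (Pi.single a 1) v s = v (Function.update s i a) := by
  rw [Dk_apply, sum_eq_single a]
  · simp
  · intro b _ hb
    rw [Pi.single_eq_of_ne hb, zero_mul]
  · intro h
    exact absurd (mem_univ a) h

theorem sum_ep (i : ι) (v : (ι → Fin c) → ℂ) :
    ∑ a, ep i a (Dk i (Pi.single a 1) v) = v := by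
  funext s
  rw [Finset.sum_apply, sum_eq_single (s i)]
  · rw [ep_apply, if_pos rfl, Dk_single, Function.update_eq_self]
  · intro b _ hb
    rw [ep_apply, if_neg hb.symm]
  · intro h
    exact absurd (mem_univ _) h

theorem Dk_ep (i : ι) (x : Fin c → ℂ) (a : Fin c) (w : (ι → Fin c) → ℂ)
    (hw : ∀ s b, w (Function.update s i b) = w s) :
    Dk i x (ep i a w) = x a • w := by
  funext s
  rw [Dk_apply, sum_eq_single a]
  · rw [ep_apply, Function.update_self, if_pos rfl, hw, Pi.smul_apply, smul_eq_mul]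
  · intro b _ hb
    rw [ep_apply, Function.update_self, if_neg hb, mul_zero]
  · intro h
    exact absurd (mem_univ _) h

/-- If contraction never has rank greater than `dim E / c` then `E` is saturated in the factor. -/
theorem closed_of_le (hc : 0 < c) (E : Submodule ℂ ((ι → Fin c) → ℂ)) (i : ι)
    (h : ∀ x : Fin c → ℂ, x ≠ 0 → c * finrank ℂ (E.map (Dk i x)) ≤ finrank ℂ E)
    (a b : Fin c) {v : (ι → Fin c) → ℂ} (hv : v ∈ E) : ep i a (Dk i (Pi.single b 1) v) ∈ E := by
  classical
  set Ea : Fin c → Submodule ℂ ((ι → Fin c) → ℂ) := fun a => E.map (Dk i (Pi.single a 1)) with hEa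
  set F := E.map (Dk i (fun _ : Fin c => (1 : ℂ))) with hF
  have hne : ∀ a : Fin c, (Pi.single a 1 : Fin c → ℂ) ≠ 0 := fun a h => by
    have := congrFun h a
    simp at this
  have hne1 : (fun _ : Fin c => (1 : ℂ)) ≠ 0 := fun h => by
    have := congrFun h ⟨0, hc⟩
    simp at this
  have h1 : ∀ a, c * finrank ℂ (Ea a) ≤ finrank ℂ E := fun a => h _ (hne a)
  have h2 : c * finrank ℂ F ≤ finrank ℂ E := h _ hne1
  let L : (∀ a, Ea a) →ₗ[ℂ] ((ι → Fin c) → ℂ) :=
    ∑ a, (ep i a) ∘ₗ (Ea a).subtype ∘ₗ LinearMap.proj a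
  have hL : ∀ w, L w = ∑ a, ep i a (w a : (ι → Fin c) → ℂ) := by
    intro w
    simp [L, LinearMap.sum_apply]
  have hEL : E ≤ LinearMap.range L := by
    intro u hu
    refine ⟨fun a => ⟨Dk i (Pi.single a 1) u, ⟨u, hu, rfl⟩⟩, ?_⟩
    rw [hL]
    exact sum_ep i u
  have hdim : finrank ℂ (∀ a, Ea a) = ∑ a, finrank ℂ (Ea a) := Module.finrank_pi_fintype ℂ
  have hsum : ∑ a, finrank ℂ (Ea a) ≤ finrank ℂ E := by
    have : c * ∑ a, finrank ℂ (Ea a) ≤ c * finrank ℂ E := by
      rw [mul_sum]
      calc ∑ a, c * finrank ℂ (Ea a) ≤ ∑ _a : Fin c, finrank ℂ E := sum_le_sum fun a _ => h1 a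
        _ = c * finrank ℂ E := by simp
    exact Nat.le_of_mul_le_mul_left this hc
  have hrange : finrank ℂ (LinearMap.range L) ≤ finrank ℂ E := by
    have := LinearMap.finrank_range_le L
    omega
  have hEq : E = LinearMap.range L := Submodule.eq_of_le_of_finrank_le hEL hrange
  have hge : finrank ℂ E ≤ ∑ a, finrank ℂ (Ea a) := by
    have := LinearMap.finrank_range_le L
    rw [← hEq] at this
    omega
  have hep : ∀ a, ∀ w ∈ Ea a, ep i a w ∈ E := by
    intro a w hw
    rw [hEq]
    refine ⟨Pi.single a ⟨w, hw⟩, ?_⟩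
    rw [hL, sum_eq_single a]
    · simp
    · intro b _ hb
      rw [Pi.single_eq_of_ne hb]
      simp
    · intro h
      exact absurd (mem_univ _) h
  have hindep : ∀ a, ∀ w ∈ Ea a, ∀ s b, w (Function.update s i b) = w s := by
    rintro a w ⟨u, _, rfl⟩ s b
    exact Dk_update i _ u s b
  have hle : ∀ a, Ea a ≤ F := by
    intro a w hw
    refine ⟨ep i a w, hep a w hw, ?_⟩
    rw [Dk_ep i _ a w (hindep a w hw), one_smul]
  have hle' : ∀ a, finrank ℂ (Ea a) ≤ finrank ℂ F := fun a => Submodule.finrank_mono (hle a)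
  have hall : ∀ a, finrank ℂ (Ea a) = finrank ℂ F := by
    intro a
    by_contra hcon
    have hlt : finrank ℂ (Ea a) < finrank ℂ F := lt_of_le_of_ne (hle' a) hcon
    have : ∑ a, finrank ℂ (Ea a) < ∑ _a : Fin c, finrank ℂ F :=
      sum_lt_sum (fun a _ => hle' a) ⟨a, mem_univ a, hlt⟩
    rw [sum_const, card_univ, Fintype.card_fin, smul_eq_mul] at this
    omega
  have hEF : ∀ a, Ea a = F := fun a => Submodule.eq_of_le_of_finrank_eq (hle a) (hall a)
  apply hep a
  rw [hEF a, ← hEF b]
  exact ⟨v, hv, rfl⟩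

/-- A nonzero subspace which is saturated in all factors is everything. -/
theorem eq_top_of_closed (E : Submodule ℂ ((ι → Fin c) → ℂ)) (h0 : E ≠ ⊥)
    (h : ∀ (i : ι) (a b : Fin c), ∀ v ∈ E, ep i a (Dk i (Pi.single b 1) v) ∈ E) : E = ⊤ := by
  classical
  obtain ⟨v, hv, hv0⟩ := (Submodule.ne_bot_iff E).1 h0
  obtain ⟨s0, hs0⟩ : ∃ s, v s ≠ 0 := by
    by_contra hcon
    push Not at hcon
    exact hv0 (funext hcon)
  have key : ∀ (t : ι → Fin c) (I : Finset ι), (fun s : ι → Fin c =>
      if ∀ i ∈ I, s i = t i then v (fun j => if j ∈ I then s0 j else s j) else 0) ∈ E := by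
    intro t I
    induction I using Finset.induction_on with
    | empty => simpa using hv
    | insert i I hi ih =>
      have h1 := h i (t i) (s0 i) _ ih
      have h2 : ep i (t i) (Dk i (Pi.single (s0 i) 1) (fun s : ι → Fin c =>
          if ∀ i ∈ I, s i = t i then v (fun j => if j ∈ I then s0 j else s j) else 0)) =
          fun s : ι → Fin c => if ∀ i' ∈ insert i I, s i' = t i' then
            v (fun j => if j ∈ insert i I then s0 j else s j) else 0 := by
        funext s
        rw [ep_apply, Dk_single]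
        by_cases hsi : s i = t i
        · rw [if_pos hsi]
          by_cases hI : ∀ i' ∈ I, s i' = t i'
          · have e1 : ∀ i' ∈ I, Function.update s i (s0 i) i' = t i' := by
              intro i' hi'
              rw [Function.update_of_ne]
              · exact hI i' hi'
              · rintro rfl
                exact hi hi'
            have e2 : ∀ i' ∈ insert i I, s i' = t i' := by
              intro i' hi'
              rcases mem_insert.1 hi' with h | h
              · rw [h]
                exact hsi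
              · exact hI i' h
            rw [if_pos e1, if_pos e2]
            congr 1
            funext j
            by_cases hj : j = i
            · subst hj
              rw [if_neg hi, if_pos (mem_insert_self _ _), Function.update_self]
            · by_cases hjI : j ∈ I
              · rw [if_pos hjI, if_pos (mem_insert_of_mem hjI)]
              · rw [if_neg hjI, if_neg, Function.update_of_ne hj]
                intro h
                rcases mem_insert.1 h with h | h
                · exact hj h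
                · exact hjI h
          · rw [if_neg, if_neg]
            · intro h
              exact hI fun i' hi' => h i' (mem_insert_of_mem hi')
            · intro h
              apply hI
              intro i' hi'
              have := h i' hi'
              rwa [Function.update_of_ne] at this
              rintro rfl
              exact hi hi'
        · rw [if_neg hsi, if_neg]
          intro h
          exact hsi (h i (mem_insert_self _ _))
      rw [h2] at h1
      exact h1
  rw [eq_top_iff]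
  intro w _
  have hsing : ∀ t, (Pi.single t 1 : (ι → Fin c) → ℂ) ∈ E := by
    intro t
    have h1 := key t univ
    have h2 : (fun s : ι → Fin c => if ∀ i ∈ (univ : Finset ι), s i = t i then
        v (fun j => if j ∈ (univ : Finset ι) then s0 j else s j) else 0) =
        v s0 • (Pi.single t 1 : (ι → Fin c) → ℂ) := by
      funext s
      by_cases hst : s = t
      · subst hst
        simp
      · rw [if_neg, Pi.smul_apply, Pi.single_eq_of_ne hst, smul_zero]
        intro h
        exact hst (funext fun i => h i (mem_univ i))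
    rw [h2] at h1
    have h3 := E.smul_mem (v s0)⁻¹ h1
    rwa [smul_smul, inv_mul_cancel₀ hs0, one_smul] at h3
  rw [pi_eq_sum_univ w]
  refine E.sum_mem fun t _ => ?_
  have h1 := E.smul_mem (w t) (hsing t)
  convert h1 using 1
  congr 1
  funext s
  by_cases hst : t = s
  · subst hst
    simp
  · rw [if_neg hst, Pi.single_eq_of_ne (Ne.symm hst)]

theorem exists_dir (hc : 0 < c) (E : Submodule ℂ ((ι → Fin c) → ℂ)) (h0 : E ≠ ⊥) (h1 : E ≠ ⊤) :
    ∃ (i : ι) (x : Fin c → ℂ), x ≠ 0 ∧ finrank ℂ E < c * finrank ℂ (E.map (Dk i x)) := by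
  by_contra hcon
  push Not at hcon
  exact h1 (eq_top_of_closed E h0 fun i a b v hv =>
    closed_of_le hc E i (fun x hx => hcon i x hx) a b hv)

end dir

end Pool.Agent.V7.BE

end

section

/-!
# V7, block BETA, module Rest: tensors which do not depend on one slot
-/

namespace Pool.Agent.V7.BE

open Finset Module Pool.Agent.V7

variable {ι : Type} [Fintype ι] [DecidableEq ι] {c : ℕ}

/-- The embedding of the remaining slots. -/
abbrev em (i : ι) : {j : ι // j ≠ i} ↪ ι := Function.Embedding.subtype _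

/-- Restriction of an index to the remaining slots. -/
def rs (i : ι) (e : ι → Fin c) : {j : ι // j ≠ i} → Fin c := fun j => e j.1

/-- Extension of an index by the value `b` in the slot `i`. -/
def ex (i : ι) (b : Fin c) (e : {j : ι // j ≠ i} → Fin c) : ι → Fin c :=
  fun j => if h : j = i then b else e ⟨j, h⟩

theorem rs_ex (i : ι) (b : Fin c) (e : {j : ι // j ≠ i} → Fin c) : rs i (ex i b e) = e := by
  funext j
  unfold rs ex
  rw [dif_neg j.2]

theorem ex_rs (i : ι) (b : Fin c) (e : ι → Fin c) : ex i b (rs i e) = Function.update e i b := by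
  funext j
  unfold rs ex
  by_cases h : j = i
  · subst h
    simp
  · rw [dif_neg h, Function.update_of_ne h]

/-- The tensor on the remaining slots. -/
def down (i : ι) (b : Fin c) (H : (ι → Fin c) → ℂ) : ({j : ι // j ≠ i} → Fin c) → ℂ :=
  fun e => H (ex i b e)

theorem down_apply (i : ι) (b : Fin c) {H : (ι → Fin c) → ℂ}
    (hH : ∀ e b', H (Function.update e i b') = H e) (e : ι → Fin c) :
    down i b H (rs i e) = H e := by
  unfold down
  rw [ex_rs, hH]

/-- Contraction in the remaining slots. -/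
theorem ctr_down (i : ι) (b : Fin c) {H : (ι → Fin c) → ℂ}
    (hH : ∀ e b', H (Function.update e i b') = H e) (S : Finset {j : ι // j ≠ i})
    (q : ι × Fin c → ℂ) (p : {j : ι // j ≠ i} × Fin c → ℂ)
    (hpq : ∀ j x, p (j, x) = q (j.1, x)) (w : ι → Fin c) :
    ctr (S.map (em i)) q H w = ctr S p (down i b H) (rs i w) := by
  rw [ctr_eq, ctr_eq]
  refine sum_nbij' (fun e => rs i e) (fun e => ex i (w i) e) ?_ ?_ ?_ ?_ ?_
  · intro e he
    rw [mem_filter] at he ⊢
    refine ⟨mem_univ _, fun j hj => ?_⟩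
    refine he.2 j.1 fun h => hj ?_
    rw [mem_map] at h
    obtain ⟨j', hj', h2⟩ := h
    rwa [show j' = j from Subtype.ext h2] at hj'
  · intro e he
    rw [mem_filter] at he ⊢
    refine ⟨mem_univ _, fun j hj => ?_⟩
    unfold ex
    by_cases h : j = i
    · rw [dif_pos h, h]
    · rw [dif_neg h]
      refine he.2 ⟨j, h⟩ fun h2 => hj ?_
      exact mem_map.2 ⟨⟨j, h⟩, h2, rfl⟩
  · intro e he
    rw [mem_filter] at he
    have h1 : e i = w i := by
      refine he.2 i fun h => ?_
      rw [mem_map] at h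
      obtain ⟨j', _, h2⟩ := h
      exact j'.2 h2
    rw [ex_rs, ← h1, Function.update_eq_self]
  · intro e _
    exact rs_ex i _ e
  · intro e _
    rw [down_apply i b hH, prod_map]
    congr 1
    refine prod_congr rfl fun j _ => ?_
    rw [hpq]
    rfl

theorem mem_map_em (i : ι) (S : Finset {j : ι // j ≠ i}) : i ∉ S.map (em i) := by
  intro h
  rw [mem_map] at h
  obtain ⟨j', _, h2⟩ := h
  exact j'.2 h2

/-- The set in the remaining slots. -/
def sub (i : ι) (S : Finset ι) : Finset {j : ι // j ≠ i} := S.subtype fun j => j ≠ i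

theorem sub_map (i : ι) (S : Finset {j : ι // j ≠ i}) : sub i (S.map (em i)) = S := by
  ext j
  unfold sub
  rw [mem_subtype, mem_map]
  constructor
  · rintro ⟨j', hj', h2⟩
    rwa [show j' = j from Subtype.ext h2] at hj'
  · intro h
    exact ⟨j, h, rfl⟩

theorem sub_insert (i : ι) (S : Finset {j : ι // j ≠ i}) : sub i (insert i (S.map (em i))) = S := by
  ext j
  unfold sub
  rw [mem_subtype, mem_insert, mem_map]
  constructor
  · rintro (h | ⟨j', hj', h2⟩)
    · exact absurd h j.2
    · rwa [show j' = j from Subtype.ext h2] at hj'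
  · intro h
    exact Or.inr ⟨j, h, rfl⟩

/-- `ctr` does not depend on the index inside `S`. -/
theorem ctr_congr (S : Finset ι) (q : ι × Fin c → ℂ) (F : (ι → Fin c) → ℂ) {w w' : ι → Fin c}
    (h : ∀ j, j ∉ S → w j = w' j) : ctr S q F w = ctr S q F w' := by
  rw [ctr_eq, ctr_eq]
  congr 1
  ext e
  rw [mem_filter, mem_filter]
  constructor
  · rintro ⟨h1, h2⟩
    exact ⟨h1, fun j hj => (h2 j hj).trans (h j hj)⟩
  · rintro ⟨h1, h2⟩
    exact ⟨h1, fun j hj => (h2 j hj).trans (h j hj).symm⟩

section slots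

variable {k M : ℕ}

theorem notMem_S0 (j : Fin k) : (Sum.inl j : Slot k M) ∉ S0 k M := by
  unfold S0
  simp

theorem mem_S0 (j : Fin M) : (Sum.inr j : Slot k M) ∈ S0 k M := by
  unfold S0
  simp

theorem card_S0 : (S0 k M).card = M := by
  have : S0 k M = univ.map (Function.Embedding.inr : Fin M ↪ Slot k M) := by
    ext j
    rcases j with j | j
    · simp [S0]
    · simp [S0]
  rw [this, card_map, card_univ, Fintype.card_fin]

/-- Contraction with a point of kind `S₀` in terms of the `z`-indices. -/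
theorem ctr_S0 (q : Slot k M × Fin c → ℂ) (F : (Slot k M → Fin c) → ℂ) (s : Fin k → Fin c)
    (u₀ : Fin M → Fin c) :
    ctr (S0 k M) q F (Sum.elim s u₀) =
      ∑ u : Fin M → Fin c, (∏ j, q (Sum.inr j, u j)) * F (Sum.elim s u) := by
  rw [ctr_eq]
  refine sum_nbij' (fun e j => e (Sum.inr j)) (fun u => Sum.elim s u) ?_ ?_ ?_ ?_ ?_
  · intro e _
    exact mem_univ _
  · intro u _
    rw [mem_filter]
    refine ⟨mem_univ _, ?_⟩
    rintro (j | j) hj
    · rfl
    · exact absurd (mem_S0 j) hj
  · intro e he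
    rw [mem_filter] at he
    funext j
    rcases j with j | j
    · exact (he.2 (Sum.inl j) (notMem_S0 j)).symm
    · rfl
  · intro u _
    rfl
  · intro e he
    rw [mem_filter] at he
    have e1 : e = Sum.elim s fun j => e (Sum.inr j) := by
      funext j
      rcases j with j | j
      · exact he.2 (Sum.inl j) (notMem_S0 j)
      · rfl
    have e2 : ∏ j ∈ S0 k M, q (j, e j) = ∏ j : Fin M, q (Sum.inr j, e (Sum.inr j)) := by
      have : S0 k M = univ.map (Function.Embedding.inr : Fin M ↪ Slot k M) := by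
        ext j
        rcases j with j | j
        · simp [S0]
        · simp [S0]
      rw [this, prod_map]
      rfl
    rw [e2, ← e1]

/-- The `E`-part of a contraction in the slot `inl i`. -/
theorem Dk_elim (i : Fin k) (y : Fin c → ℂ) (G : (Slot k M → Fin c) → ℂ) (u : Fin M → Fin c) :
    (fun s => Dk (Sum.inl i) y G (Sum.elim s u)) = Dk i y (fun s => G (Sum.elim s u)) := by
  funext s
  rw [Dk_apply, Dk_apply]
  refine sum_congr rfl fun b _ => ?_
  congr 2
  funext j
  rcases j with j | j
  · by_cases h : j = i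
    · subst h
      simp
    · rw [Function.update_of_ne (by simpa using h)]
      simp [Function.update_of_ne h]
  · rw [Function.update_of_ne (by simp)]
    rfl

end slots

end Pool.Agent.V7.BE

end

section

/-!
# V7, block BETA, module Wts: weights of the slices, distribution of the kinds
-/

namespace Pool.Agent.V7.BE

open Finset Module Pool.Agent.V7

/-- `W = 2 binom(2M-1, M)`. -/
def Wt (M : ℕ) : ℕ := 2 * (2 * M - 1).choose M

/-- The number of kinds `S'` of pure slices. -/
def K1 (M : ℕ) : ℕ := (2 * M - 2).choose (M - 1)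

/-- Weights of a slice: `M`-subsets get `2` (`S₀`: `z`), `T` (of cardinality `M - 1`) gets `x`. -/
def wS {ρ : Type} [DecidableEq ρ] (M : ℕ) (S₀ T : Finset ρ) (x z : ℕ) (S : Finset ρ) : ℕ :=
  if S = S₀ then z else if S.card = M then 2 else if S = T then x else 0

theorem sum_wS {ρ : Type} [Fintype ρ] [DecidableEq ρ] {M : ℕ} (hM : 2 ≤ M)
    (hρ : Fintype.card ρ = 2 * M - 2) {S₀ T : Finset ρ} (h0 : S₀.card = M) (hT : T.card = M - 1)
    {x z : ℕ} (hxz : x + z = 2 * K1 M + 2) : ∑ S, wS M S₀ T x z S = Wt M := by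
  classical
  have h1 : ∑ S, wS M S₀ T x z S =
      ∑ S, ((if S = S₀ then z else 0) + (if S.card = M ∧ S ≠ S₀ then 2 else 0) +
        (if S = T then x else 0)) := by
    refine sum_congr rfl fun S _ => ?_
    unfold wS
    by_cases hS : S = S₀
    · subst hS
      have : S ≠ T := fun h => by
        rw [h] at h0
        omega
      simp [this]
    · by_cases hc : S.card = M
      · have : S ≠ T := fun h => by
          rw [h] at hc
          omega
        simp [hS, hc, this]
      · simp [hS, hc]
  rw [h1, sum_add_distrib, sum_add_distrib, sum_ite_eq' univ S₀, if_pos (mem_univ _),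
    sum_ite_eq' univ T, if_pos (mem_univ _)]
  have h2 : ∑ S : Finset ρ, (if S.card = M ∧ S ≠ S₀ then 2 else 0) =
      2 * ((2 * M - 2).choose M - 1) := by
    rw [← sum_filter, sum_const, smul_eq_mul, mul_comm]
    congr 1
    have : (univ.filter fun S : Finset ρ => S.card = M ∧ S ≠ S₀) =
        ((univ : Finset ρ).powersetCard M).erase S₀ := by
      ext S
      simp [mem_powersetCard, and_comm]
    rw [this, card_erase_of_mem, card_powersetCard, card_univ, hρ]
    rw [mem_powersetCard]
    exact ⟨subset_univ _, h0⟩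
  rw [h2]
  have h3 : (2 * M - 1).choose M = (2 * M - 2).choose (M - 1) + (2 * M - 2).choose M := by
    obtain ⟨m, rfl⟩ : ∃ m, M = m + 2 := ⟨M - 2, by omega⟩
    have e1 : 2 * (m + 2) - 1 = (2 * m + 2) + 1 := by omega
    have e2 : 2 * (m + 2) - 2 = 2 * m + 2 := by omega
    have e3 : m + 2 - 1 = m + 1 := by omega
    rw [e1, e2, e3]
    exact Nat.choose_succ_succ (2 * m + 2) (m + 1)
  have h4 : 0 < (2 * M - 2).choose M := Nat.choose_pos (by omega)
  unfold Wt
  rw [h3]
  unfold K1 at hxz
  omega

theorem inter_wS {ρ : Type} [Fintype ρ] [DecidableEq ρ] {M : ℕ} (hM : 2 ≤ M)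
    (hρ : Fintype.card ρ = 2 * M - 2) {S₀ T : Finset ρ} (h0 : S₀.card = M) (hT : T.card = M - 1)
    {x z : ℕ} : Inter (wS M S₀ T x z) := by
  intro S S' hS hS'
  left
  have key : ∀ S, wS M S₀ T x z S ≠ 0 → S.card = M ∨ S = T := by
    intro S hS
    unfold wS at hS
    split_ifs at hS with h1 h2 h3
    · left
      rw [h1, h0]
    · left
      exact h2
    · right
      exact h3
    · exact absurd rfl hS
  have hcard : ∀ S, wS M S₀ T x z S ≠ 0 → M - 1 ≤ S.card := by
    intro S hS
    rcases key S hS with h | h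
    · omega
    · rw [h, hT]
  by_contra hcon
  rw [not_nonempty_iff_eq_empty, ← disjoint_iff_inter_eq_empty] at hcon
  have h1 := card_union_of_disjoint hcon
  have h2 : (S ∪ S').card ≤ 2 * M - 2 := by
    rw [← hρ, ← card_univ]
    exact card_le_card (subset_univ _)
  have h3 := hcard S hS
  have h4 := hcard S' hS'
  rcases key S hS with h | h
  · omega
  · rcases key S' hS' with h' | h'
    · omega
    · rw [h, h', disjoint_self_iff_empty] at hcon
      rw [hcon, card_empty] at hT
      omega

/-- Distribution of the slices `Fin c` to the kinds `X`, equally often, with `a ≠ a'` of the same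
kind. -/
theorem exists_dist {X : Type} [Fintype X] [DecidableEq X] {c m : ℕ} (hc : c = Fintype.card X * m)
    (hm : 2 ≤ m) (a a' : Fin c) (ha : a ≠ a') :
    ∃ σ : Fin c → X, σ a = σ a' ∧ ∀ x, (univ.filter fun b => σ b = x).card = m := by
  classical
  let e : Fin c ≃ X × Fin m := Fintype.equivOfCardEq (by
    rw [Fintype.card_fin, Fintype.card_prod, Fintype.card_fin, hc])
  obtain ⟨j, hj⟩ : ∃ j : Fin m, j ≠ (e a).2 := by
    have : Nontrivial (Fin m) := Fin.nontrivial_iff_two_le.2 hm
    exact exists_ne _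
  let z : X × Fin m := ((e a).1, j)
  have hz : z ≠ e a := by
    intro h
    exact hj (congrArg Prod.snd h)
  let e' : Fin c ≃ X × Fin m := e.trans (Equiv.swap (e a') z)
  have h1 : e' a = e a := by
    show Equiv.swap (e a') z (e a) = e a
    refine Equiv.swap_apply_of_ne_of_ne ?_ hz.symm
    intro h
    exact ha (e.injective h)
  have h2 : e' a' = z := by
    show Equiv.swap (e a') z (e a') = z
    exact Equiv.swap_apply_left _ _
  refine ⟨fun b => (e' b).1, ?_, fun x => ?_⟩
  · show (e' a).1 = (e' a').1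
    rw [h1, h2]
  · have : (univ.filter fun b => (e' b).1 = x) = univ.map
        ((⟨fun i : Fin m => e'.symm (x, i), fun i i' h => by
          have := e'.symm.injective h
          exact congrArg Prod.snd this⟩ : Fin m ↪ Fin c)) := by
      ext b
      rw [mem_filter, mem_map]
      constructor
      · rintro ⟨_, h⟩
        refine ⟨(e' b).2, mem_univ _, ?_⟩
        show e'.symm (x, (e' b).2) = b
        rw [← h]
        exact e'.symm_apply_apply b
      · rintro ⟨i, _, rfl⟩
        refine ⟨mem_univ _, ?_⟩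
        show (e' (e'.symm (x, i))).1 = x
        rw [e'.apply_symm_apply]
    rw [this, card_map, card_univ, Fintype.card_fin]

/-- The arithmetic of the numbers of points. -/
theorem arith {M c : ℕ} (hM : 2 ≤ M) (hc : 0 < c) (hdiv : (Wt M).factorial ∣ c) :
    ∃ v₀ u₀ m : ℕ, 0 < u₀ ∧ 2 ≤ m ∧ c = K1 M * m ∧ c ^ (M - 1) = Wt M * v₀ ∧
      c ^ M = Wt M * u₀ ∧ lam M c = 2 * u₀ ∧ m * (2 * K1 M * v₀) = lam M c := by
  have hC : 0 < (2 * M - 1).choose M := Nat.choose_pos (by omega)
  have hW : 0 < Wt M := by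
    unfold Wt
    omega
  have hWc : Wt M ∣ c := dvd_trans (Nat.dvd_factorial hW le_rfl) hdiv
  have hK : 0 < K1 M := Nat.choose_pos (by omega)
  have hKC : K1 M ≤ (2 * M - 1).choose M := by
    unfold K1
    obtain ⟨m, rfl⟩ : ∃ m, M = m + 2 := ⟨M - 2, by omega⟩
    have e1 : 2 * (m + 2) - 1 = (2 * m + 2) + 1 := by omega
    have e2 : 2 * (m + 2) - 2 = 2 * m + 2 := by omega
    have e3 : m + 2 - 1 = m + 1 := by omega
    rw [e1, e2, e3, Nat.choose_succ_succ (2 * m + 2) (m + 1)]
    omega
  have hKW : 2 * K1 M ≤ Wt M := by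
    unfold Wt
    omega
  have hKc : 2 * K1 M ∣ c := dvd_trans (Nat.dvd_factorial (by omega) hKW) hdiv
  obtain ⟨m', hm'⟩ := hKc
  have hm'0 : 0 < m' := by
    rcases Nat.eq_zero_or_pos m' with h | h
    · rw [h, mul_zero] at hm'
      omega
    · exact h
  obtain ⟨v₀, hv₀⟩ : Wt M ∣ c ^ (M - 1) := dvd_pow hWc (by omega)
  have hpow : c ^ M = c * c ^ (M - 1) := by
    obtain ⟨m, rfl⟩ : ∃ m, M = m + 1 := ⟨M - 1, by omega⟩
    rw [Nat.add_sub_cancel, pow_succ, mul_comm]
  have hu : c ^ M = Wt M * (c * v₀) := by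
    rw [hpow, hv₀]
    ring
  have hv0 : 0 < v₀ := by
    rcases Nat.eq_zero_or_pos v₀ with h | h
    · rw [h, mul_zero] at hv₀
      have := pow_pos hc (M - 1)
      omega
    · exact h
  have hlam : lam M c = 2 * (c * v₀) := by
    unfold lam
    rw [hu]
    unfold Wt
    rw [show 2 * (2 * M - 1).choose M * (c * v₀) = (2 * M - 1).choose M * (2 * (c * v₀)) by ring]
    exact Nat.mul_div_cancel_left _ hC
  refine ⟨v₀, c * v₀, 2 * m', Nat.mul_pos hc hv0, by omega, ?_, hv₀, hu, hlam, ?_⟩
  · rw [hm']
    ring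
  · rw [hlam]
    calc 2 * m' * (2 * K1 M * v₀) = 2 * ((2 * K1 M * m') * v₀) := by ring
      _ = 2 * (c * v₀) := by rw [← hm']

end Pool.Agent.V7.BE

end

section

/-!
# V7, block BETA, module Slice: semistability and strictness

`KE_le`: if `ω` together with `lam` points of kind `S₀` kills every tensor then
`finrank (KE ω E) ≤ lam * finrank E` for all `E`.

`strict`: for every `E ≠ ⊥, ⊤` there is a configuration `ω` with
`finrank (KE ω E) < lam * finrank E`.

Proof of `strict`: choose `i`, `x` with `c * finrank (E ⌟ x) > finrank E` (`exists_dir`), complete `x`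
to a basis `y_0 = x, y_1, ...` of the `i`-th factor, filter `E` by the `E_a`.  The points with a
factor in the slot `i` get this factor in `{y_a}`; the slices decouple; the slice `a` is pure of a
kind `σ a`; the slices `0` and `a₀` (of the same kind) exchange points.
-/

namespace Pool.Agent.V7.BE

open Finset Module Pool.Agent.V7 Pool.Agent.H51.TB

/-- The exactness of tensor systems of total weight `W` (helper18's lemma). -/
def TK (c W : ℕ) : Prop :=
  ∀ (ι : Type) [Fintype ι] [DecidableEq ι] (w : Finset ι → ℕ), ∑ S, w S = W → Inter w →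
    (TSys ι c).gd (fun x : TIdx ι c W w => x.1) = 0

variable {k M c : ℕ}

/-- Exactness of a configuration together with auxiliary points of kind `S₀`. -/
def Exact (ω : Pts k M c) (l : Fin (lam M c) → Slot k M × Fin c → ℂ) : Prop :=
  ∀ G : (Slot k M → Fin c) → ℂ,
    (∀ S : Finset (Slot k M), S.card = M → S ≠ S0 k M → ∀ t w, ctr S (ω S t) G w = 0) →
    (∀ t w, ctr (S0 k M) (l t) G w = 0) → G = 0

/-- Auxiliary points of kind `S₀` bound the dimension. -/
theorem finrank_le_aux (hc : 0 < c) {L : ℕ} (l : Fin L → Slot k M × Fin c → ℂ)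
    (V : Submodule ℂ ((Slot k M → Fin c) → ℂ)) (F : Submodule ℂ ((Fin k → Fin c) → ℂ))
    (hVF : ∀ H ∈ V, ∀ u : Fin M → Fin c, (fun s => H (Sum.elim s u)) ∈ F)
    (hinj : ∀ H ∈ V, (∀ t w, ctr (S0 k M) (l t) H w = 0) → H = 0) :
    finrank ℂ V ≤ L * finrank ℂ F := by
  let u₀ : Fin M → Fin c := fun _ => ⟨0, hc⟩
  have hmem : ∀ (H : V) (t : Fin L), (fun s => ctr (S0 k M) (l t) H.1 (Sum.elim s u₀)) ∈ F := by
    intro H t
    have : (fun s => ctr (S0 k M) (l t) H.1 (Sum.elim s u₀)) =
        ∑ u : Fin M → Fin c, (∏ j, l t (Sum.inr j, u j)) • (fun s => H.1 (Sum.elim s u)) := by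
      funext s
      rw [ctr_S0, Finset.sum_apply]
      rfl
    rw [this]
    exact F.sum_mem fun u _ => F.smul_mem _ (hVF H.1 H.2 u)
  let Ψ : V →ₗ[ℂ] (Fin L → F) :=
    { toFun := fun H t => ⟨fun s => ctr (S0 k M) (l t) H.1 (Sum.elim s u₀), hmem H t⟩
      map_add' := by
        intro H H'
        funext t
        apply Subtype.ext
        funext s
        exact congrFun ((ctrL (S0 k M) (l t)).map_add H.1 H'.1) (Sum.elim s u₀)
      map_smul' := by
        intro x H
        funext t
        apply Subtype.ext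
        funext s
        exact congrFun ((ctrL (S0 k M) (l t)).map_smul x H.1) (Sum.elim s u₀) }
  have hker : LinearMap.ker Ψ = ⊥ := by
    rw [LinearMap.ker_eq_bot']
    intro H hH
    apply Subtype.ext
    refine hinj H.1 H.2 fun t w => ?_
    have h1 := congrFun (congrArg Subtype.val (congrFun hH t)) (fun j => w (Sum.inl j))
    have h2 : ctr (S0 k M) (l t) H.1 (Sum.elim (fun j => w (Sum.inl j)) u₀) = 0 := h1
    rw [← h2]
    refine ctr_congr _ _ _ ?_
    rintro (j | j) hj
    · rfl
    · exact absurd (mem_S0 j) hj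
  have h1 := LinearMap.finrank_le_finrank_of_injective (LinearMap.ker_eq_bot.1 hker)
  rw [Module.finrank_pi_fintype, sum_const, card_univ, Fintype.card_fin, smul_eq_mul] at h1
  exact h1

theorem KE_le (hc : 0 < c) {ω : Pts k M c} {l : Fin (lam M c) → Slot k M × Fin c → ℂ}
    (h : Exact ω l) (E : Submodule ℂ ((Fin k → Fin c) → ℂ)) :
    finrank ℂ (KE ω E) ≤ lam M c * finrank ℂ E :=
  finrank_le_aux hc l _ E (fun _ hH => hH.1) fun H hH hl => h H hH.2 hl

section basis

variable {ι : Type} [Fintype ι] [DecidableEq ι]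

/-- The basis `y`. -/
noncomputable def yb (x : Fin c → ℂ) (z b : Fin c) (a : Fin c) : Fin c → ℂ :=
  if a = z then x else Pi.single (Equiv.swap z b a) 1

theorem yb_inj {x : Fin c → ℂ} {z b : Fin c} (hb : x b ≠ 0) (i : ι) (v : (ι → Fin c) → ℂ)
    (h : ∀ a, Dk i (yb x z b a) v = 0) : v = 0 := by
  have h1 : ∀ j, j ≠ b → ∀ s, v (Function.update s i j) = 0 := by
    intro j hj s
    have h2 := congrFun (h (Equiv.swap z b j)) s
    have h3 : Equiv.swap z b j ≠ z := by
      intro h4
      have h5 := congrArg (Equiv.swap z b) h4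
      rw [Equiv.swap_apply_self, Equiv.swap_apply_left] at h5
      exact hj h5
    unfold yb at h2
    rw [if_neg h3, Equiv.swap_apply_self, Dk_single] at h2
    exact h2
  have h2 : ∀ s, v (Function.update s i b) = 0 := by
    intro s
    have h3 := congrFun (h z) s
    unfold yb at h3
    rw [if_pos rfl, Dk_apply, sum_eq_single b] at h3
    · rcases mul_eq_zero.1 h3 with h4 | h4
      · exact absurd h4 hb
      · exact h4
    · intro j _ hj
      rw [h1 j hj, mul_zero]
    · intro h4
      exact absurd (mem_univ _) h4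
  funext s
  by_cases hs : s i = b
  · have := h2 s
    rwa [← hs, Function.update_eq_self] at this
  · have := h1 (s i) hs s
    rwa [Function.update_eq_self] at this

end basis

/-- The shifted weights. -/
def xn (K a₀ a : ℕ) : ℕ := if a = 0 then 2 * K + 1 else if a = a₀ then 2 * K - 1 else 2 * K

/-- The shifted weights. -/
def zn (a₀ a : ℕ) : ℕ := if a = 0 then 1 else if a = a₀ then 3 else 2

theorem xn_zn {K : ℕ} (hK : 1 ≤ K) (a₀ a : ℕ) : xn K a₀ a + zn a₀ a = 2 * K + 2 := by
  unfold xn zn
  split_ifs <;> omega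

/-- The total weight of a class of slices which contains both or none of `0`, `a₀`. -/
theorem sum_xn {K a₀ : ℕ} (hK : 1 ≤ K) (ha₀ : a₀ ≠ 0) (A : Finset ℕ) (hA : 0 ∈ A ↔ a₀ ∈ A) :
    ∑ a ∈ A, xn K a₀ a = A.card * (2 * K) := by
  classical
  have h1 : ∀ a ∈ A, xn K a₀ a + (if a = a₀ then 1 else 0) = 2 * K + (if a = 0 then 1 else 0) := by
    intro a _
    unfold xn
    split_ifs <;> omega
  have h2 := sum_congr (rfl : A = A) h1
  rw [sum_add_distrib, sum_add_distrib, sum_ite_eq' A a₀, sum_ite_eq' A 0, sum_const,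
    smul_eq_mul] at h2
  by_cases h : 0 ∈ A
  · rw [if_pos h, if_pos (hA.1 h)] at h2
    omega
  · rw [if_neg h, if_neg (fun h' => h (hA.2 h'))] at h2
    omega

set_option maxHeartbeats 8000000 in
theorem strict (hT : TK c (Wt M)) (hk : k + 1 = M) (hc : 0 < c) (hdiv : (Wt M).factorial ∣ c)
    (E : Submodule ℂ ((Fin k → Fin c) → ℂ)) (h0 : E ≠ ⊥) (h1 : E ≠ ⊤) :
    ∃ ω : Pts k M c, finrank ℂ (KE ω E) < lam M c * finrank ℂ E := by
  classical
  obtain ⟨i, x, hx, hdim⟩ := exists_dir hc E h0 h1
  have hM : 2 ≤ M := by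
    have := i.2
    omega
  obtain ⟨b, hb⟩ : ∃ b, x b ≠ 0 := by
    by_contra hcon
    push Not at hcon
    exact hx (funext hcon)
  obtain ⟨v₀, u₀, m, hu₀, hm, hcm, hv, hu, hlam, hmlam⟩ := arith hM hc hdiv
  have hK : 1 ≤ K1 M := Nat.choose_pos (by omega)
  have hW : 0 < Wt M := by
    unfold Wt
    have : 0 < (2 * M - 1).choose M := Nat.choose_pos (by omega)
    omega
  let z : Fin c := ⟨0, hc⟩
  let y : Fin c → Fin c → ℂ := yb x z b
  let yn : ℕ → Fin c → ℂ := fun a => if h : a < c then y ⟨a, h⟩ else 0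
  have hyn : ∀ a : Fin c, yn a.1 = y a := fun a => by
    show (if h : a.1 < c then y ⟨a.1, h⟩ else 0) = y a
    rw [dif_pos a.2]
  let I : Slot k M := Sum.inl i
  let φ : ℕ → ((Slot k M → Fin c) → ℂ) →ₗ[ℂ] ((Slot k M → Fin c) → ℂ) := fun a => Dk I (yn a)
  let φ' : ℕ → ((Fin k → Fin c) → ℂ) →ₗ[ℂ] ((Fin k → Fin c) → ℂ) := fun a => Dk i (yn a)
  -- dimensions of the filtration of `E`
  let e' : ℕ → ℕ := fun a => finrank ℂ ((cut φ' E a).map (φ' a))
  have hE : finrank ℂ E = ∑ a ∈ range c, e' a := by
    have h := tele φ' E c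
    have hbot : cut φ' E c = ⊥ := by
      rw [eq_bot_iff]
      intro v hv
      rw [mem_cut] at hv
      rw [Submodule.mem_bot]
      refine yb_inj (z := z) hb i v fun a => ?_
      have := hv.2 a.1 a.2
      show Dk i (y a) v = 0
      rw [← hyn a]
      exact this
    rw [hbot, finrank_bot, add_zero] at h
    exact h
  have he0 : finrank ℂ E < c * e' 0 := by
    have : e' 0 = finrank ℂ (E.map (Dk i x)) := by
      show finrank ℂ (E.map (Dk i (yn 0))) = _
      have h2 : yn 0 = x := by
        have := hyn z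
        rw [show z.1 = 0 from rfl] at this
        rw [this]
        show (if z = z then x else _) = x
        rw [if_pos rfl]
      rw [h2]
    rw [this]
    exact hdim
  obtain ⟨a₀, ha₀c, ha₀⟩ : ∃ a₀ < c, e' a₀ < e' 0 := by
    by_contra hcon
    push Not at hcon
    have h2 : ∑ a ∈ range c, e' 0 ≤ ∑ a ∈ range c, e' a :=
      sum_le_sum fun a ha => hcon a (mem_range.1 ha)
    rw [sum_const, card_range, smul_eq_mul] at h2
    omega
  have ha₀0 : a₀ ≠ 0 := by
    rintro rfl
    exact lt_irrefl _ ha₀
  -- remaining slots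
  let ρ : Type := {j : Slot k M // j ≠ I}
  have hρ : Fintype.card ρ = 2 * M - 2 := by
    show Fintype.card {j : Slot k M // j ≠ I} = _
    rw [Fintype.card_subtype_compl, Fintype.card_sum, Fintype.card_fin, Fintype.card_fin,
      Fintype.card_unique]
    omega
  let S₀' : Finset ρ := sub I (S0 k M)
  have hS₀map : S₀'.map (em I) = S0 k M := by
    ext j
    rw [mem_map]
    constructor
    · rintro ⟨j', hj', h2⟩
      rw [← h2]
      exact mem_subtype.1 hj'
    · intro hj
      refine ⟨⟨j, ?_⟩, mem_subtype.2 hj, rfl⟩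
      rintro rfl
      exact notMem_S0 i hj
  have hS₀c : S₀'.card = M := by
    rw [← card_map (em I), hS₀map, card_S0]
  -- distribution of the kinds
  let X : Type := {T : Finset ρ // T.card = M - 1}
  have hX : Fintype.card X = K1 M := by
    show Fintype.card {T : Finset ρ // T.card = M - 1} = _
    rw [Fintype.card_finset_len, hρ]
    rfl
  obtain ⟨σ, hσ, hσc⟩ := exists_dist (X := X) (by rw [hX]; exact hcm) hm z ⟨a₀, ha₀c⟩ (by
    intro h
    exact ha₀0 (congrArg Fin.val h).symm)
  let w : Fin c → Finset ρ → ℕ := fun a => wS M S₀' (σ a).1 (xn (K1 M) a₀ a.1) (zn a₀ a.1)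
  have hσS : ∀ a, (σ a).1 ≠ S₀' := fun a h => by
    have h2 := (σ a).2
    rw [h, hS₀c] at h2
    omega
  have hw0 : ∀ a, w a S₀' = zn a₀ a.1 := fun a => by
    show wS M S₀' (σ a).1 _ _ S₀' = _
    unfold wS
    rw [if_pos rfl]
  have hw1 : ∀ a S, S.card = M → S ≠ S₀' → w a S = 2 := fun a S hS hS' => by
    show wS M S₀' (σ a).1 _ _ S = _
    unfold wS
    rw [if_neg hS', if_pos hS]
  have hw2 : ∀ a, w a (σ a).1 = xn (K1 M) a₀ a.1 := fun a => by
    show wS M S₀' (σ a).1 _ _ (σ a).1 = _
    unfold wS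
    have h2 := (σ a).2
    rw [if_neg (hσS a), if_neg (by omega), if_pos rfl]
  have hw3 : ∀ a S, S.card ≠ M → S ≠ (σ a).1 → w a S = 0 := fun a S hS hS' => by
    show wS M S₀' (σ a).1 _ _ S = _
    unfold wS
    rw [if_neg, if_neg hS, if_neg hS']
    rintro rfl
    exact hS hS₀c
  -- numbers
  have hn0 : ∀ a, w a S₀' * c ^ S₀'.card / Wt M = zn a₀ a.1 * u₀ := fun a => by
    rw [hw0, hS₀c, hu, show zn a₀ a.1 * (Wt M * u₀) = Wt M * (zn a₀ a.1 * u₀) by ring]
    exact Nat.mul_div_cancel_left _ hW
  have hn1 : ∀ a S, S.card = M → S ≠ S₀' → w a S * c ^ S.card / Wt M = lam M c :=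
    fun a S hS hS' => by
      rw [hw1 a S hS hS', hS, hu, hlam, show 2 * (Wt M * u₀) = Wt M * (2 * u₀) by ring]
      exact Nat.mul_div_cancel_left _ hW
  have hn2 : ∀ a, w a (σ a).1 * c ^ (σ a).1.card / Wt M = xn (K1 M) a₀ a.1 * v₀ := fun a => by
    rw [hw2, (σ a).2, hv, show xn (K1 M) a₀ a.1 * (Wt M * v₀) = Wt M * (xn (K1 M) a₀ a.1 * v₀) by
      ring]
    exact Nat.mul_div_cancel_left _ hW
  -- positions
  let Kx : Type := (Finset ρ × Fin (lam M c)) ⊕ (Σ a : Fin c, TIdx ρ c (Wt M) (w a))
  let ψ : ∀ a : Fin c, TIdx ρ c (Wt M) (w a) → Kx := fun a x =>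
    if h : x.1.card = M ∧ x.1 ≠ S₀' then
      Sum.inl (x.1, ⟨x.2.1, lt_of_lt_of_eq x.2.2 (hn1 a x.1 h.1 h.2)⟩)
    else Sum.inr ⟨a, x⟩
  have hψinj : ∀ a, Function.Injective (ψ a) := by
    rintro a ⟨S, t⟩ ⟨S', t'⟩ h
    simp only [ψ] at h
    split_ifs at h with h1 h2 h2
    · rw [Sum.inl.injEq, Prod.mk.injEq, Fin.mk.injEq] at h
      obtain ⟨h3, h4⟩ := h
      subst h3
      congr 1
      exact Fin.ext h4
    · have := Sum.inr_injective h
      simpa using this
  have hgn : ∀ a ∈ (univ : Finset (Fin c)), Gn Kx (ρ × Fin c) fun p =>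
      Module.finrank ℂ ((TSys ρ c).V (fun x : TIdx ρ c (Wt M) (w a) => x.1)
        fun x => p (ψ a x)) = 0 := by
    intro a _
    have h2 := (gn_gd (TSys ρ c) (fun x : TIdx ρ c (Wt M) (w a) => x.1)).comap (ψ a) (hψinj a)
    rw [hT ρ (w a) (sum_wS hM hρ hS₀c (σ a).2 (xn_zn hK a₀ a.1))
      (inter_wS hM hρ hS₀c (σ a).2)] at h2
    exact h2
  obtain ⟨P, hP⟩ := (Gn.all _ hgn).exists
  have hPker : ∀ a (H : (ρ → Fin c) → ℂ),
      (∀ (x : TIdx ρ c (Wt M) (w a)) v, ctr x.1 (P (ψ a x)) H v = 0) → H = 0 := by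
    intro a H hH
    have h2 := hP a (mem_univ a)
    rw [Submodule.finrank_eq_zero] at h2
    have h3 : H ∈ (TSys ρ c).V (fun x : TIdx ρ c (Wt M) (w a) => x.1) fun x => P (ψ a x) := by
      rw [mem_TSys]
      exact hH
    rw [h2, Submodule.mem_bot] at h3
    exact h3
  -- the points with a factor in the slot `I`
  let QT : Finset ρ → Type := fun T => Σ a : {a : Fin c // (σ a).1 = T}, Fin (xn (K1 M) a₀ a.1.1 * v₀)
  have hcast : ∀ T (a : {a : Fin c // (σ a).1 = T}), xn (K1 M) a₀ a.1.1 * v₀ =
      w a.1 T * c ^ T.card / Wt M := by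
    rintro T ⟨a, rfl⟩
    exact (hn2 a).symm
  let f : ∀ T, QT T → Slot k M × Fin c → ℂ := fun T q p =>
    if h : p.1 = I then y q.1.1 p.2 else
      P (Sum.inr ⟨q.1.1, ⟨T, Fin.cast (hcast T q.1) q.2⟩⟩) (⟨p.1, h⟩, p.2)
  have hQT : ∀ T, Fintype.card (QT T) ≤ Fintype.card (Fin (lam M c)) := by
    intro T
    show Fintype.card (Σ a : {a : Fin c // (σ a).1 = T}, Fin (xn (K1 M) a₀ a.1.1 * v₀)) ≤ _
    rw [Fintype.card_sigma, Fintype.card_fin]
    simp only [Fintype.card_fin]
    rw [← sum_mul]
    have h2 : ∑ a : {a : Fin c // (σ a).1 = T}, xn (K1 M) a₀ a.1.1 =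
        ∑ a ∈ (univ.filter fun a : Fin c => (σ a).1 = T).map Fin.valEmbedding,
          xn (K1 M) a₀ a := by
      rw [sum_map]
      exact (sum_subtype (univ.filter fun a : Fin c => (σ a).1 = T) (by simp)
        (fun a => xn (K1 M) a₀ (Fin.valEmbedding a))).symm
    rw [h2, sum_xn hK ha₀0, card_map]
    · by_cases hTc : T.card = M - 1
      · have h3 : (univ.filter fun a : Fin c => (σ a).1 = T) =
            univ.filter fun a : Fin c => σ a = (⟨T, hTc⟩ : X) := by
          ext a
          rw [mem_filter, mem_filter, Subtype.ext_iff]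
        rw [h3, hσc, ← hmlam]
        exact le_of_eq (by ring)
      · have h3 : (univ.filter fun a : Fin c => (σ a).1 = T) = ∅ := by
          rw [filter_eq_empty_iff]
          intro a _ h4
          exact hTc (by rw [← h4]; exact (σ a).2)
        rw [h3, card_empty]
        simp
    · rw [mem_map, mem_map]
      constructor
      · rintro ⟨a, ha, h3⟩
        refine ⟨⟨a₀, ha₀c⟩, ?_, rfl⟩
        rw [mem_filter] at ha ⊢
        have h4 : a = z := Fin.ext h3
        rw [h4, hσ] at ha
        exact ⟨mem_univ _, ha.2⟩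
      · rintro ⟨a, ha, h3⟩
        refine ⟨z, ?_, rfl⟩
        rw [mem_filter] at ha ⊢
        have h4 : a = ⟨a₀, ha₀c⟩ := Fin.ext h3
        rw [h4, ← hσ] at ha
        exact ⟨mem_univ _, ha.2⟩
  have hinj : ∀ T, Nonempty (QT T ↪ Fin (lam M c)) := fun T =>
    Function.Embedding.nonempty_of_card_le (hQT T)
  obtain ⟨inj⟩ := Classical.nonempty_pi.2 hinj
  let ω : Pts k M c := fun S t =>
    if I ∈ S then Function.extend (inj (sub I S)) (f (sub I S)) 0 t
    else fun p => if h : p.1 = I then 0 else P (Sum.inl (sub I S, t)) (⟨p.1, h⟩, p.2)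
  refine ⟨ω, ?_⟩
  -- the slices
  have hslice : ∀ a : Fin c, finrank ℂ ((cut φ (KE ω E) a.1).map (φ a.1)) ≤
      zn a₀ a.1 * u₀ * e' a.1 := by
    intro a
    let l : Fin (zn a₀ a.1 * u₀) → Slot k M × Fin c → ℂ := fun t p =>
      if h : p.1 = I then 0 else
        P (Sum.inr ⟨a, ⟨S₀', Fin.cast (hn0 a).symm t⟩⟩) (⟨p.1, h⟩, p.2)
    refine finrank_le_aux hc l _ ((cut φ' E a.1).map (φ' a.1)) ?_ ?_
    · rintro H ⟨G, hG, rfl⟩ u
      rw [SetLike.mem_coe, mem_cut] at hG
      refine ⟨fun s => G (Sum.elim s u), ?_, ?_⟩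
      · rw [SetLike.mem_coe, mem_cut]
        refine ⟨hG.1.1 u, fun a' ha' => ?_⟩
        have h2 := hG.2 a' ha'
        show Dk i (yn a') (fun s => G (Sum.elim s u)) = 0
        rw [← Dk_elim]
        funext s
        exact congrFun h2 (Sum.elim s u)
      · exact (Dk_elim i (yn a.1) G u).symm
    · rintro H ⟨G, hG, rfl⟩ hl
      rw [SetLike.mem_coe, mem_cut] at hG
      have hindep : ∀ (e : Slot k M → Fin c) b',
          φ a.1 G (Function.update e I b') = φ a.1 G e := fun e b' =>
        Dk_update I (yn a.1) G e b'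
      have hzero : down I z (φ a.1 G) = 0 := by
        refine hPker a _ ?_
        rintro ⟨S, t⟩ v
        have hrs : rs I (ex I z v) = v := rs_ex I z v
        by_cases hS0 : S = S₀'
        · subst hS0
          have hψ : ψ a ⟨S₀', t⟩ = Sum.inr ⟨a, ⟨S₀', t⟩⟩ := by
            simp only [ψ]
            rw [dif_neg (by simp)]
          have h2 := hl (Fin.cast (hn0 a) t) (ex I z v)
          rw [← hS₀map, ctr_down I z hindep S₀' _ (P (ψ a ⟨S₀', t⟩)) ?_, hrs] at h2
          · exact h2
          · intro j x'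
            simp only [l]
            rw [dif_neg j.2, hψ]
            rfl
        · by_cases hSM : S.card = M
          · have hψ : ψ a ⟨S, t⟩ = Sum.inl (S, ⟨t.1, lt_of_lt_of_eq t.2 (hn1 a S hSM hS0)⟩) := by
              simp only [ψ]
              rw [dif_pos ⟨hSM, hS0⟩]
            set t' : Fin (lam M c) := ⟨t.1, lt_of_lt_of_eq t.2 (hn1 a S hSM hS0)⟩ with ht'
            have h2 : ∀ w, ctr (S.map (em I)) (ω (S.map (em I)) t') G w = 0 := by
              refine hG.1.2 (S.map (em I)) (by rw [card_map, hSM]) ?_ t'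
              intro h3
              apply hS0
              rw [← sub_map I S, h3]
            have h3 : ctr (S.map (em I)) (ω (S.map (em I)) t') (φ a.1 G) (ex I z v) = 0 := by
              show ctr (S.map (em I)) (ω (S.map (em I)) t') (Dk I (yn a.1) G) (ex I z v) = 0
              rw [ctr_Dk (mem_map_em I S), Dk_apply]
              refine sum_eq_zero fun b' _ => ?_
              rw [h2, mul_zero]
            rw [ctr_down I z hindep S _ (P (ψ a ⟨S, t⟩)) ?_, hrs] at h3
            · exact h3
            · intro j x'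
              simp only [ω]
              rw [if_neg (mem_map_em I S)]
              simp only
              rw [dif_neg j.2, hψ, sub_map]
          · by_cases hST : S = (σ a).1
            · have hψ : ψ a ⟨S, t⟩ = Sum.inr ⟨a, ⟨S, t⟩⟩ := by
                simp only [ψ]
                rw [dif_neg (by intro h; exact hSM h.1)]
              let q₀ : QT S := ⟨⟨a, hST.symm⟩, Fin.cast (hcast S ⟨a, hST.symm⟩).symm t⟩
              set St := insert I (S.map (em I)) with hSt
              have hIn : I ∈ St := mem_insert_self _ _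
              have h2 : ∀ w, ctr St (ω St (inj S q₀)) G w = 0 := by
                refine hG.1.2 St ?_ ?_ (inj S q₀)
                · rw [hSt, card_insert_of_notMem (mem_map_em I S), card_map, hST, (σ a).2]
                  omega
                · intro h3
                  rw [h3] at hIn
                  exact notMem_S0 i hIn
              have hωt : ω St (inj S q₀) = f S q₀ := by
                simp only [ω]
                rw [if_pos hIn, hSt, sub_insert]
                exact (inj S).injective.extend_apply _ _ _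
              rw [hωt] at h2
              have h3 := h2 (ex I z v)
              have hy : (fun b' => f S q₀ (I, b')) = yn a.1 := by
                funext b'
                simp only [f]
                rw [dif_pos trivial, hyn]
              rw [ctr_erase hIn, hy, hSt, erase_insert (mem_map_em I S)] at h3
              rw [show Dk I (yn a.1) G = φ a.1 G from rfl,
                ctr_down I z hindep S _ (P (ψ a ⟨S, t⟩)) ?_, hrs] at h3
              · exact h3
              · intro j x'
                simp only [f]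
                rw [dif_neg j.2, hψ]
                rfl
            · exfalso
              have h2 := t.2
              simp only [hw3 a S hSM hST, zero_mul, Nat.zero_div] at h2
              exact absurd h2 (Nat.not_lt_zero _)
      funext e
      rw [← down_apply I z hindep e, hzero]
      rfl
  have htot : finrank ℂ (KE ω E) ≤ ∑ a ∈ range c, zn a₀ a * u₀ * e' a := by
    have h := tele φ (KE ω E) c
    have hbot : cut φ (KE ω E) c = ⊥ := by
      rw [eq_bot_iff]
      intro v hv
      rw [mem_cut] at hv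
      rw [Submodule.mem_bot]
      refine yb_inj (z := z) hb I v fun a => ?_
      have := hv.2 a.1 a.2
      show Dk I (y a) v = 0
      rw [← hyn a]
      exact this
    rw [hbot, finrank_bot, add_zero] at h
    rw [h]
    exact sum_le_sum fun a ha => hslice ⟨a, mem_range.1 ha⟩
  have hfin : ∑ a ∈ range c, zn a₀ a * u₀ * e' a + u₀ * e' 0 =
      2 * u₀ * ∑ a ∈ range c, e' a + u₀ * e' a₀ := by
    have h2 : ∀ a ∈ range c, zn a₀ a * u₀ * e' a + (if a = 0 then u₀ * e' 0 else 0) =
        2 * u₀ * e' a + (if a = a₀ then u₀ * e' a₀ else 0) := by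
      intro a _
      unfold zn
      by_cases h3 : a = 0
      · subst h3
        rw [if_pos rfl, if_pos rfl, if_neg (Ne.symm ha₀0)]
        ring
      · by_cases h4 : a = a₀
        · subst h4
          rw [if_neg h3, if_neg h3, if_pos rfl, if_pos rfl]
          ring
        · rw [if_neg h3, if_neg h3, if_neg h4, if_neg h4]
    have h3 := sum_congr (rfl : range c = range c) h2
    rw [sum_add_distrib, sum_add_distrib, sum_ite_eq' (range c) 0, sum_ite_eq' (range c) a₀,
      if_pos (mem_range.2 hc), if_pos (mem_range.2 ha₀c), ← mul_sum] at h3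
    exact h3
  rw [hE, hlam]
  have h5 : u₀ * e' a₀ < u₀ * e' 0 := Nat.mul_lt_mul_of_pos_left ha₀ hu₀
  omega

end Pool.Agent.V7.BE

end
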