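import Pool.Agent.H94.LP7.M35
import Pool.Agent.H94.LP7.M37
import Pool.Agent.H94.LP7.M48
import Pool.Agent.H94.LP7.M53

/-! The parts of this file: H54.V7.Red, H54.V7.Size, GD.AL.Rot, V7.F1, XD.Vars. -/

section

/-!
# Reduction of the conditions to few of them
-/

namespace Pool.Agent.H54.V7

open Finset Pool.Agent.H18.Ex

section

set_option linter.unusedSectionVars false

variable {ι : Type} [Fintype ι] [DecidableEq ι] {E : Type} [Fintype E] (ex : E → ι → ℕ)

theorem fat_iff (M : ℕ) (p : ι → ℂ) (f : E → ℂ) :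
    Fat ex M p f ↔ ∀ b : ι → ℕ, ∑ i, b i < M → TC ex f p b = 0 := Iff.rfl

theorem sw_iff (M N : ℕ) (B : Finset ι) (p v : ι → ℂ) (f : E → ℂ) :
    Sw ex M N B p v f ↔ ∀ a : ι → ℕ, (∀ i ∈ B, a i = 0) → 1 ≤ ∑ i, a i → ∑ i, a i ≤ M →
      SC ex N M f p v a = 0 := Iff.rfl

/-- A Taylor coefficient which misses a block met by all monomials. -/
theorem TC_miss (s : Finset ι) (hs : ∀ e, ¬ ∀ i ∈ s, ex e i = 0) (f : E → ℂ) (p : ι → ℂ)
    (hp : ∀ i ∈ s, p i = 0) (b : ι → ℕ) (hb : ∀ i ∈ s, b i = 0) : TC ex f p b = 0 := by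
  unfold TC
  refine sum_eq_zero fun e _ => ?_
  rw [tcr_off s p hp (ex e) b hb (hs e), mul_zero]

/-- A swapped condition which misses a block met by all monomials. -/
theorem SC_miss (N m : ℕ) (s : Finset ι) (hs : ∀ e, ¬ ∀ i ∈ s, ex e i = 0) (f : E → ℂ)
    (p v : ι → ℂ) (hp : ∀ i ∈ s, p i = 0) (hv : ∀ i ∈ s, v i = 0) (a : ι → ℕ)
    (ha : ∀ i ∈ s, a i = 0) : SC ex N m f p v a = 0 := by
  unfold SC
  refine sum_eq_zero fun b _ => ?_
  by_cases hb : ∀ i ∈ s, b i = 0
  · rw [TC_miss ex s hs f p hp b hb, mul_zero]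
  · rw [tcr_off s v hv b a ha hb, zero_mul]

/-- A swapped condition of top order is a Taylor coefficient. -/
theorem SC_top (N m : ℕ) (f : E → ℂ) (p v : ι → ℂ) (a : ι → ℕ) (ha : ∑ i, a i = m)
    (h0 : TC ex f p a = 0) : SC ex N m f p v a = 0 := by
  unfold SC
  refine sum_eq_zero fun b hb => ?_
  unfold bxd at hb
  rw [mem_filter] at hb
  by_cases hab : ∀ i, a i ≤ b i
  · rw [tcr_self v b a hab (by omega)]
    split_ifs with h
    · rw [h, h0, mul_zero]
    · rw [zero_mul]
  · rw [tcr_eq_zero _ _ _ hab, zero_mul]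

/-- The swapped conditions follow from those without the variable `s₀`. -/
theorem SC_reduce (d N M : ℕ) (hE : ∀ e, ∑ i, ex e i = d) (hN : d < N) (hM : M ≤ d)
    (f : E → ℂ) (p v : ι → ℂ) (B : Finset ι) (hpB : ∀ i ∈ B, p i = 0) (s₀ : ι) (hsB : s₀ ∉ B)
    (hps : p s₀ ≠ 0) (hfat : ∀ b : ι → ℕ, ∑ i, b i < M → TC ex f p b = 0)
    (h0 : ∀ a : ι → ℕ, (∀ i ∈ B, a i = 0) → a s₀ = 0 → 1 ≤ ∑ i, a i → ∑ i, a i < M →
      SC ex N M f p v a = 0) :
    ∀ a : ι → ℕ, (∀ i ∈ B, a i = 0) → 1 ≤ ∑ i, a i → ∑ i, a i < M →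
      SC ex N M f p v a = 0 := by
  have key : ∀ k : ℕ, ∀ a : ι → ℕ, (∀ i ∈ B, a i = 0) → a s₀ = k → 1 ≤ ∑ i, a i →
      ∑ i, a i < M → SC ex N M f p v a = 0 := by
    intro k
    induction k with
    | zero =>
      intro a ha h1 h2 h3
      exact h0 a ha h1 h2 h3
    | succ k ih =>
      intro a ha h1 h2 h3
      set a' : ι → ℕ := a - Pi.single s₀ 1 with ha'
      have haa : a' + Pi.single s₀ 1 = a := by
        funext i
        rw [ha', Pi.add_apply, Pi.sub_apply]
        by_cases hi : i = s₀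
        · subst hi
          rw [Pi.single_eq_same]
          omega
        · rw [Pi.single_eq_of_ne hi]
          omega
      have hsum : ∀ k : ι, ∑ i, (a' + Pi.single k 1 : ι → ℕ) i = ∑ i, a i := by
        intro k
        have h4 : ∀ l : ι, ∑ i, (a' + Pi.single l 1 : ι → ℕ) i = ∑ i, a' i + 1 := by
          intro l
          simp [sum_add_distrib]
        rw [h4 k, ← h4 s₀, haa]
      have h4 := euler_SC ex d N (M - 1) hE hN (by omega) f p v a'
      have h5 : M - 1 + 1 = M := by omega
      have h6 : SC ex N (M - 1) f p v a' = 0 := by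
        unfold SC
        refine sum_eq_zero fun b hb => ?_
        unfold bxd at hb
        rw [mem_filter] at hb
        rw [hfat b (by omega), mul_zero]
      rw [h5, h6, mul_zero] at h4
      rw [sum_eq_single s₀] at h4
      · rw [haa] at h4
        rcases mul_eq_zero.1 h4 with h7 | h7
        · rcases mul_eq_zero.1 h7 with h8 | h8
          · exact absurd h8 (Nat.cast_ne_zero.2 (Nat.succ_ne_zero _))
          · exact absurd h8 hps
        · exact h7
      · intro l _ hl
        by_cases hlB : l ∈ B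
        · rw [hpB l hlB, mul_zero, zero_mul]
        · rw [ih (a' + Pi.single l 1) ?_ ?_ ?_ ?_, mul_zero]
          · intro i hi
            have h7 : i ≠ l := fun h => hlB (h ▸ hi)
            have h8 : i ≠ s₀ := fun h => hsB (h ▸ hi)
            rw [Pi.add_apply, Pi.single_eq_of_ne h7, Nat.add_zero, ha', Pi.sub_apply,
              Pi.single_eq_of_ne h8, Nat.sub_zero]
            exact ha i hi
          · rw [Pi.add_apply, Pi.single_eq_of_ne (Ne.symm hl), Nat.add_zero, ha', Pi.sub_apply,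
              Pi.single_eq_same, h1]
            omega
          · rw [hsum l]
            exact h2
          · rw [hsum l]
            exact h3
      · intro h
        exact absurd (mem_univ s₀) h
  intro a ha h1 h2
  exact key (a s₀) a ha rfl h1 h2

/-- Finitely many linear conditions lower the dimension by at most their number. -/
theorem finrank_le_add {κ : Type} (V V' : Submodule ℂ (E → ℂ)) (s : Finset κ)
    (c : κ → E → ℂ) (h : ∀ f ∈ V, (∀ r ∈ s, ∑ e, c r e * f e = 0) → f ∈ V') :
    Module.finrank ℂ V ≤ Module.finrank ℂ V' + s.card := by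
  classical
  let L : (E → ℂ) →ₗ[ℂ] (s → ℂ) := LinearMap.pi fun r => ∑ e, c r.1 e • LinearMap.proj e
  have hL : ∀ f r, L f r = ∑ e, c r.1 e * f e := by
    intro f r
    simp [L]
  let L' : V →ₗ[ℂ] (s → ℂ) := L ∘ₗ V.subtype
  have h1 := LinearMap.finrank_range_add_finrank_ker L'
  have h2 : Module.finrank ℂ (LinearMap.range L') ≤ s.card := by
    have h3 := Submodule.finrank_le (LinearMap.range L')
    rw [Module.finrank_fintype_fun_eq_card, Fintype.card_coe] at h3
    exact h3
  have h3 : Module.finrank ℂ (LinearMap.ker L') ≤ Module.finrank ℂ V' := by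
    let g : LinearMap.ker L' →ₗ[ℂ] V' :=
      { toFun := fun x => ⟨x.1.1, h x.1.1 x.1.2 (by
          intro r hr
          have h4 : L x.1.1 = 0 := x.2
          have h5 := congrFun h4 ⟨r, hr⟩
          rw [hL] at h5
          exact h5)⟩
        map_add' := fun _ _ => rfl
        map_smul' := fun _ _ => rfl }
    refine LinearMap.finrank_le_finrank_of_injective (f := g) ?_
    intro x y hxy
    have h4 : (g x).1 = (g y).1 := congrArg Subtype.val hxy
    apply Subtype.ext
    apply Subtype.ext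
    exact h4
  omega

end

end Pool.Agent.H54.V7

end

section

/-!
# The numbers of conditions of an ordinary and of a swapped point
-/

namespace Pool.Agent.H54.V7

open Finset Pool.Agent.H18.Ex

section

set_option linter.unusedSectionVars false

variable {ι : Type} [Fintype ι] [DecidableEq ι] {κ : Type} [DecidableEq κ] {E : Type} [Fintype E]
  (ex : E → ι → ℕ)

/-- The vanishing to order `M` at a point of the subspace given by the blocks of `I` follows from
the Taylor coefficients of order `M - 1` which meet the blocks of `I`. -/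
theorem fat_of_mset (d M : ℕ) (hM : 1 ≤ M) (hMd : M ≤ d) (hE : ∀ e, ∑ i, ex e i = d)
    (blk : κ → Finset ι) (I : Finset κ) (hI : ∀ k ∈ I, ∀ e, ¬ ∀ x ∈ blk k, ex e x = 0)
    (p : ι → ℂ) (hp : ∀ k ∈ I, ∀ x ∈ blk k, p x = 0) (f : E → ℂ)
    (h : ∀ b ∈ mset blk univ I (M - 1), TC ex f p b = 0) : Fat ex M p f := by
  rw [fat_iff]
  intro b hb
  refine TC_lower ex d hE f p (M - 1) (by omega) ?_ b (by omega)
  intro b hb
  by_cases h1 : ∀ k ∈ I, ¬ ∀ x ∈ blk k, b x = 0
  · exact h b (mem_mset.2 ⟨⟨hb, fun x _ => mem_univ x⟩, h1⟩)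
  · push Not at h1
    obtain ⟨k, hk, h1⟩ := h1
    exact TC_miss ex (blk k) (hI k hk) f p (hp k hk) b h1

/-- The coefficients of a swapped condition. -/
noncomputable def swc (N M : ℕ) (p v : ι → ℂ) (a : ι → ℕ) (e : E) : ℂ :=
  ∑ b ∈ bxd ι N M, tcr v b a * tcr p (ex e) b

theorem swc_sum (N M : ℕ) (f : E → ℂ) (p v : ι → ℂ) (a : ι → ℕ) :
    ∑ e, swc ex N M p v a e * f e = SC ex N M f p v a := by
  unfold swc SC TC
  simp only [sum_mul, mul_sum]
  rw [sum_comm]
  refine sum_congr rfl fun b _ => sum_congr rfl fun e _ => ?_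
  ring

theorem tc_sum (f : E → ℂ) (p : ι → ℂ) (b : ι → ℕ) :
    ∑ e, tcr p (ex e) b * f e = TC ex f p b := by
  unfold TC
  exact sum_congr rfl fun e _ => mul_comm _ _

/-- The number of conditions of an ordinary point. -/
theorem fat_card (d M c : ℕ) (hM : 1 ≤ M) (hMd : M ≤ d) (hE : ∀ e, ∑ i, ex e i = d)
    (blk : κ → Finset ι) (I : Finset κ) (hI : ∀ k ∈ I, ∀ e, ¬ ∀ x ∈ blk k, ex e x = 0)
    (hc : ∀ k ∈ I, (blk k).card = c) (hd : ∀ k ∈ I, ∀ l ∈ I, k ≠ l → Disjoint (blk k) (blk l))
    (p : ι → ℂ) (hp : ∀ k ∈ I, ∀ x ∈ blk k, p x = 0) (V V' : Submodule ℂ (E → ℂ))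
    (h : ∀ f ∈ V, Fat ex M p f → f ∈ V') :
    Module.finrank ℂ V ≤ Module.finrank ℂ V' + bbc c (M - 1) I.card (Fintype.card ι) := by
  have h1 := finrank_le_add V V' (mset blk univ I (M - 1)) (fun b e => tcr p (ex e) b) (by
    intro f hf h2
    refine h f hf (fat_of_mset ex d M hM hMd hE blk I hI p hp f fun b hb => ?_)
    rw [← tc_sum]
    exact h2 b hb)
  rw [card_mset blk c (M - 1) I univ (fun k hk => ⟨subset_univ _, hc k hk⟩) hd, card_univ] at h1
  exact h1

/-- The number of conditions of a swapped point. -/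
theorem sw_card (d M N c : ℕ) (hM : 1 ≤ M) (hMd : M ≤ d) (hN : d < N)
    (hE : ∀ e, ∑ i, ex e i = d)
    (blk : κ → Finset ι) (I : Finset κ) (i : κ) (hiI : i ∉ I)
    (hI : ∀ k ∈ insert i I, ∀ e, ¬ ∀ x ∈ blk k, ex e x = 0)
    (hc : ∀ k ∈ insert i I, (blk k).card = c)
    (hd : ∀ k ∈ insert i I, ∀ l ∈ insert i I, k ≠ l → Disjoint (blk k) (blk l))
    (p v : ι → ℂ) (hp : ∀ k ∈ insert i I, ∀ x ∈ blk k, p x = 0)
    (hv : ∀ k ∈ I, ∀ x ∈ blk k, v x = 0) (s₀ : ι) (hs₀ : ∀ k ∈ insert i I, s₀ ∉ blk k)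
    (hps : p s₀ ≠ 0) (V V' : Submodule ℂ (E → ℂ))
    (h : ∀ f ∈ V, Fat ex M p f → Sw ex M N (blk i) p v f → f ∈ V') :
    Module.finrank ℂ V ≤ Module.finrank ℂ V' +
      (bbc c (M - 1) I.card (Fintype.card ι) - if I = ∅ then 1 else 0) := by
  classical
  have hii : i ∈ insert i I := mem_insert_self i I
  set T : Finset (ι → ℕ) := mset blk (univ \ blk i) I (M - 1) with hT
  have hIne : ∀ a : ι → ℕ, a ∈ T ↔ (∑ x, a x = M - 1 ∧ ∀ x ∈ blk i, a x = 0) ∧
      ∀ k ∈ I, ¬ ∀ x ∈ blk k, a x = 0 := by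
    intro a
    rw [hT, mem_mset]
    constructor
    · rintro ⟨⟨h1, h2⟩, h3⟩
      refine ⟨⟨h1, fun x hx => ?_⟩, h3⟩
      by_contra h4
      exact (mem_sdiff.1 (h2 x h4)).2 hx
    · rintro ⟨⟨h1, h2⟩, h3⟩
      refine ⟨⟨h1, fun x hx => ?_⟩, h3⟩
      rw [mem_sdiff]
      exact ⟨mem_univ x, fun h4 => hx (h2 x h4)⟩
  set T' : Finset (ι → ℕ) := if I = ∅ then T.erase (Pi.single s₀ (M - 1)) else T with hT'
  have hcardT' : T'.card = T.card - if I = ∅ then 1 else 0 := by
    rw [hT']
    split_ifs with h1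
    · refine card_erase_of_mem ?_
      rw [hIne]
      refine ⟨⟨?_, fun x hx => ?_⟩, fun k hk => ?_⟩
      · rw [sum_pi_single']
        simp
      · have h2 : x ≠ s₀ := fun h3 => hs₀ i hii (h3 ▸ hx)
        rw [Pi.single_eq_of_ne h2]
      · rw [h1] at hk
        exact absurd hk (notMem_empty k)
    · rfl
  have h1 := finrank_le_add V V' ((mset blk univ (insert i I) (M - 1)).disjSum T')
    (Sum.elim (fun b e => tcr p (ex e) b) fun a e => swc ex N M p v (Function.update a s₀ 0) e) (by
    intro f hf h2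
    have hfat : Fat ex M p f :=
      fat_of_mset ex d M hM hMd hE blk (insert i I) hI p hp f fun b hb => by
        rw [← tc_sum]
        exact h2 (Sum.inl b) (inl_mem_disjSum.2 hb)
    refine h f hf hfat ?_
    rw [sw_iff]
    intro a ha h3 h4
    rcases Nat.lt_or_ge (∑ x, a x) M with h5 | h5
    · refine SC_reduce ex d N M hE hN hMd f p v (blk i) (hp i hii) s₀ (hs₀ i hii) hps
        ((fat_iff ex M p f).1 hfat) ?_ a ha h3 h5
      clear ha h3 h4 h5 a
      intro a ha h6 h3 h5
      by_cases h7 : ∀ k ∈ I, ¬ ∀ x ∈ blk k, a x = 0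
      · set a' : ι → ℕ := Function.update a s₀ (M - 1 - ∑ x, a x) with ha'
        have h8 : ∑ x, a' x = M - 1 := by
          rw [ha', ← add_sum_erase univ _ (mem_univ s₀), Function.update_self]
          have h9 : ∑ x ∈ univ.erase s₀, Function.update a s₀ (M - 1 - ∑ x, a x) x = ∑ x, a x := by
            rw [← add_sum_erase univ a (mem_univ s₀), h6, zero_add]
            exact sum_congr rfl fun x hx => by rw [Function.update_of_ne (ne_of_mem_erase hx)]
          rw [h9]
          omega
        have h9 : a' ∈ T := by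
          rw [hIne]
          refine ⟨⟨h8, fun x hx => ?_⟩, fun k hk h10 => h7 k hk fun x hx => ?_⟩
          · have h2 : x ≠ s₀ := fun h3 => hs₀ i hii (h3 ▸ hx)
            rw [ha', Function.update_of_ne h2]
            exact ha x hx
          · have h2 : x ≠ s₀ := fun h3 => hs₀ k (mem_insert_of_mem hk) (h3 ▸ hx)
            have h11 := h10 x hx
            rwa [ha', Function.update_of_ne h2] at h11
        have h10 : Function.update a' s₀ 0 = a := by
          rw [ha', Function.update_idem, ← h6, Function.update_eq_self]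
        have h11 : a' ∈ T' := by
          rw [hT']
          split_ifs with h12
          · refine mem_erase.2 ⟨?_, h9⟩
            intro h13
            rw [h13] at h10
            have h14 : a = 0 := by
              rw [← h10]
              funext x
              by_cases hx : x = s₀
              · subst hx
                rw [Function.update_self]
                rfl
              · rw [Function.update_of_ne hx, Pi.single_eq_of_ne hx]
                rfl
            rw [h14] at h3
            simp at h3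
          · exact h9
        have h12 := h2 (Sum.inr a') (inr_mem_disjSum.2 h11)
        have h13 : ∑ e, swc ex N M p v (Function.update a' s₀ 0) e * f e = 0 := h12
        rw [h10, swc_sum] at h13
        exact h13
      · push Not at h7
        obtain ⟨k, hk, h7⟩ := h7
        exact SC_miss ex N M (blk k) (hI k (mem_insert_of_mem hk)) f p v
          (hp k (mem_insert_of_mem hk)) (hv k hk) a h7
    · exact SC_top ex N M f p v a (by omega)
        (TC_miss ex (blk i) (hI i hii) f p (hp i hii) a ha))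
  rw [card_disjSum, hcardT'] at h1
  have h2 := card_mset_insert blk univ I i (M - 1)
  have h3 := card_mset blk c (M - 1) I univ
    (fun k hk => ⟨subset_univ _, hc k (mem_insert_of_mem hk)⟩)
    (fun k hk l hl => hd k (mem_insert_of_mem hk) l (mem_insert_of_mem hl))
  rw [card_univ] at h3
  rw [← hT] at h2
  have h4 : (if I = ∅ then 1 else 0) ≤ T.card := by
    split_ifs with h5
    · refine card_pos.2 ⟨Pi.single s₀ (M - 1), ?_⟩
      rw [hIne]
      refine ⟨⟨?_, fun x hx => ?_⟩, fun k hk => ?_⟩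
      · rw [sum_pi_single']
        simp
      · have h2 : x ≠ s₀ := fun h3 => hs₀ i hii (h3 ▸ hx)
        rw [Pi.single_eq_of_ne h2]
      · rw [h5] at hk
        exact absurd hk (notMem_empty k)
    · exact Nat.zero_le _
  omega

end

end Pool.Agent.H54.V7

end

section

/-!
# General d, ALPHA, clusters: the order of the members

`HI_perm`: the general dimension does not depend on the order of the members of a cluster; `HI_rot`: the
first member is moved to the end.
-/

set_option autoImplicit false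
set_option linter.unusedSectionVars false

namespace Pool.Agent.GD.AL

open Finset MvPolynomial Pool.Agent.H51.TB Pool.Agent.V7.ST
open Pool.Agent.V7 (msk)

section

variable {ν : Type} [Fintype ν] [DecidableEq ν] {d : ℕ} {β : ν → ℕ}

/-- The members of a cluster, for all natural numbers. -/
def ptn (β : ν → ℕ) (k : Kd) (x : ℕ) (q : ν × Fin (d + 1) → ℂ) (s : ν) : ℂ :=
  if h : x < d + 1 then pt β k ⟨x, h⟩ q s else 0

theorem ptn_eq (k : Kd) (x : Fin (d + 1)) (q : ν × Fin (d + 1) → ℂ) (s : ν) :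
    ptn β k x.1 q s = pt β k x q s := by
  unfold ptn
  rw [dif_pos x.2]

theorem uu_ptn {e dl i : ℕ} {As : List (Finset ℕ)} (hl : As.length ≤ d + 1)
    (q : ν × Fin (d + 1) → ℂ) (s : ν) : uu β (.cl e dl i As) q s =
      ∑ x : Fin As.length, ptn β (.cl e dl i As) x.1 q s := by
  rw [uu_cl, Fin.sum_univ_eq_sum_range (fun x => ptn β (.cl e dl i As) x q s) As.length]
  have h1 : ∀ x : Fin (d + 1), (if x.1 < As.length then pt β (.cl e dl i As) x q s else 0) =
      if x.1 < As.length then ptn β (.cl e dl i As) x.1 q s else 0 := by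
    intro x
    rw [ptn_eq]
  rw [sum_congr rfl fun x _ => h1 x,
    Fin.sum_univ_eq_sum_range (fun x => if x < As.length then ptn β (.cl e dl i As) x q s else 0)
      (d + 1), ← sum_filter]
  refine sum_congr ?_ fun _ _ => rfl
  ext x
  rw [mem_filter, mem_range, mem_range]
  omega

/-- The position of the permuted cluster. -/
def pr {k : ℕ} (β : ν → ℕ) (o : Kd) (σ : Equiv.Perm (Fin k)) (q : ν × Fin (d + 1) → ℂ)
    (z : ν × Fin (d + 1)) : ℂ :=
  if h : z.2.1 < k then ptn β o (σ ⟨z.2.1, h⟩).1 q z.1 else q z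

theorem pt_pr {e dl i : ℕ} {As As' : List (Finset ℕ)} (h0 : 1 ≤ As.length)
    (hi : ∀ A ∈ As, i ∉ A) (hl : As.length ≤ d) (hlen : As'.length = As.length)
    (σ : Equiv.Perm (Fin As.length))
    (hσ : ∀ x : Fin As.length, As'.getD x.1 ∅ = As.getD (σ x).1 ∅)
    (q : ν × Fin (d + 1) → ℂ) (x : Fin (d + 1)) (hx : x.1 < As.length) :
    pt β (.cl e dl i As') x (pr β (.cl e dl i As) σ q) =
      ptn β (.cl e dl i As) (σ ⟨x.1, hx⟩).1 q := by
  funext s
  have hsx : (σ ⟨x.1, hx⟩).1 < d + 1 := by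
    have := (σ ⟨x.1, hx⟩).2
    omega
  show (if β s ∈ As'.getD x.1 ∅ then (0 : ℂ) else if β s = i ∧ x.1 + 1 = As'.length then
    - ∑ y : Fin (d + 1), (if y.1 + 1 < As'.length then pr β (.cl e dl i As) σ q (s, y) else 0)
    else pr β (.cl e dl i As) σ q (s, x)) = _
  have h1 := hσ ⟨x.1, hx⟩
  change As'.getD x.1 ∅ = As.getD (σ ⟨x.1, hx⟩).1 ∅ at h1
  rw [h1]
  by_cases h2 : β s ∈ As.getD (σ ⟨x.1, hx⟩).1 ∅
  · rw [if_pos h2]
    unfold ptn
    rw [dif_pos hsx]
    symm
    exact if_pos h2
  · rw [if_neg h2]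
    by_cases h3 : β s = i ∧ x.1 + 1 = As'.length
    · rw [if_pos h3]
      have h4 : ∑ z : Fin As.length, ptn β (.cl e dl i As) z.1 q s = 0 := by
        rw [← uu_ptn (by omega)]
        exact uu_zero h0 (by omega) hi q h3.1
      rw [← Equiv.sum_comp σ] at h4
      obtain ⟨l, hl'⟩ : ∃ l, As.length = l + 1 := ⟨As.length - 1, by omega⟩
      have h5 : ∑ z : Fin As.length, ptn β (.cl e dl i As) (σ z).1 q s =
          ∑ y : Fin (d + 1), (if y.1 + 1 < As'.length then pr β (.cl e dl i As) σ q (s, y) else 0) +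
            ptn β (.cl e dl i As) (σ ⟨x.1, hx⟩).1 q s := by
        have h6 : ∀ z : Fin As.length, ptn β (.cl e dl i As) (σ z).1 q s =
            (fun y : ℕ => if h : y < As.length then ptn β (.cl e dl i As) (σ ⟨y, h⟩).1 q s else 0)
              z.1 := by
          intro z
          show _ = dite _ _ _
          rw [dif_pos z.2]
        rw [sum_congr rfl fun z _ => h6 z, Fin.sum_univ_eq_sum_range (fun y : ℕ =>
          if h : y < As.length then ptn β (.cl e dl i As) (σ ⟨y, h⟩).1 q s else 0) As.length]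
        rw [show range As.length = range (x.1 + 1) by rw [h3.2, hlen], sum_range_succ]
        congr 1
        · have h7 : ∀ y : Fin (d + 1), (if y.1 + 1 < As'.length then
              pr β (.cl e dl i As) σ q (s, y) else 0) = (fun y : ℕ => if y < x.1 then
                (if h : y < As.length then ptn β (.cl e dl i As) (σ ⟨y, h⟩).1 q s else 0) else 0)
                y.1 := by
            intro y
            show _ = ite _ _ _
            by_cases h8 : y.1 + 1 < As'.length
            · rw [if_pos h8, if_pos (show y.1 < x.1 by omega), dif_pos (show y.1 < As.length by omega)]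
              unfold pr
              rw [dif_pos (show y.1 < As.length by omega)]
            · rw [if_neg h8, if_neg (show ¬ y.1 < x.1 by omega)]
          rw [sum_congr rfl fun y _ => h7 y, Fin.sum_univ_eq_sum_range (fun y : ℕ => if y < x.1 then
                (if h : y < As.length then ptn β (.cl e dl i As) (σ ⟨y, h⟩).1 q s else 0) else 0)
                (d + 1), ← sum_filter]
          refine sum_congr ?_ fun _ _ => rfl
          ext y
          rw [mem_filter, mem_range, mem_range]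
          omega
        · rw [dif_pos hx]
      rw [h5] at h4
      linear_combination -h4
    · rw [if_neg h3]
      unfold pr
      rw [dif_pos hx]

theorem sat_pr {e dl i : ℕ} {As As' : List (Finset ℕ)} (h0 : 1 ≤ As.length)
    (hi : ∀ A ∈ As, i ∉ A) (hl : As.length ≤ d) (hlen : As'.length = As.length)
    (σ : Equiv.Perm (Fin As.length))
    (hσ : ∀ x : Fin As.length, As'.getD x.1 ∅ = As.getD (σ x).1 ∅) {I : Finset ℕ}
    (q : ν × Fin (d + 1) → ℂ) {Φ : MvPolynomial ν ℂ →ₗ[ℂ] ℂ}
    (h : Sat β I (.cl e dl i As') (pr β (.cl e dl i As) σ q) Φ) : Sat β I (.cl e dl i As) q Φ := by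
  have hpt := fun x hx => pt_pr (β := β) (e := e) (dl := dl) h0 hi hl hlen σ hσ q x hx
  refine ⟨fun x hx y => ?_, ?_⟩
  · have hx' : x.1 < As.length := hx
    have hy : (σ.symm ⟨x.1, hx'⟩).1 < d + 1 := by
      have := (σ.symm ⟨x.1, hx'⟩).2
      omega
    have h1 := h.1 ⟨(σ.symm ⟨x.1, hx'⟩).1, hy⟩ (by
      show (σ.symm ⟨x.1, hx'⟩).1 < As'.length
      have := (σ.symm ⟨x.1, hx'⟩).2
      omega) y
    rw [hpt ⟨(σ.symm ⟨x.1, hx'⟩).1, hy⟩ (σ.symm ⟨x.1, hx'⟩).2] at h1
    have h2 : (σ ⟨(σ.symm ⟨x.1, hx'⟩).1, (σ.symm ⟨x.1, hx'⟩).2⟩).1 = x.1 := by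
      show (σ (σ.symm ⟨x.1, hx'⟩)).1 = x.1
      rw [Equiv.apply_symm_apply]
    have h3 : ptn β (.cl e dl i As) (σ ⟨(σ.symm ⟨x.1, hx'⟩).1, (σ.symm ⟨x.1, hx'⟩).2⟩).1 q =
        pt β (.cl e dl i As) x q := by
      funext s
      rw [h2, ptn_eq]
    change Φ (lf (ptn β (.cl e dl i As) (σ ⟨(σ.symm ⟨x.1, hx'⟩).1, (σ.symm ⟨x.1, hx'⟩).2⟩).1 q) ^ e
      * y) = 0 at h1
    rw [h3] at h1
    exact h1
  · intro hiI κ h1 h2 b hb
    have h3 := h.2 hiI κ h1 h2 b hb
    have h4 : uu β (.cl e dl i As') (pr β (.cl e dl i As) σ q) = uu β (.cl e dl i As) q := by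
      funext s
      rw [uu_ptn (by omega), uu_ptn (by omega), ← Equiv.sum_comp σ]
      rw [← Equiv.sum_comp (finCongr hlen.symm)]
      refine sum_congr rfl fun x _ => ?_
      have hx : x.1 < d + 1 := by
        have := x.2
        omega
      show ptn β (.cl e dl i As') x.1 _ s = _
      rw [show ptn β (.cl e dl i As') x.1 (pr β (.cl e dl i As) σ q) s =
        pt β (.cl e dl i As') ⟨x.1, hx⟩ (pr β (.cl e dl i As) σ q) s from ptn_eq _ ⟨x.1, hx⟩ _ _,
        hpt ⟨x.1, hx⟩ x.2]
    have h5 : zz β i (pr β (.cl e dl i As) σ q) = zz β i q := by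
      funext s
      show (if β s = i then pr β (.cl e dl i As) σ q (s, Fin.last d) else 0) = _
      unfold pr
      rw [dif_neg (show ¬ (Fin.last d).1 < As.length by rw [Fin.val_last]; omega)]
      rfl
    rw [h4, h5, hlen] at h3
    exact h3

/-- The order of the members. -/
theorem HI_perm {D : ℕ} (hD : D ≤ d) {e dl i : ℕ} {As As' : List (Finset ℕ)} (h0 : 1 ≤ As.length)
    (hi : ∀ A ∈ As, i ∉ A) (hl : As.length ≤ d) (hlen : As'.length = As.length)
    (σ : Equiv.Perm (Fin As.length))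
    (hσ : ∀ x : Fin As.length, As'.getD x.1 ∅ = As.getD (σ x).1 ∅) (I : Finset ℕ)
    (ms : Multiset Kd) :
    HI d D β I (.cl e dl i As' ::ₘ ms) ≤ HI d D β I (.cl e dl i As ::ₘ ms) :=
  HI_repl hD β I _ _ (pr β (.cl e dl i As) σ) (fun q _ h => sat_pr h0 hi hl hlen σ hσ q h) ms

/-- The first member is moved to the end. -/
theorem HI_rot {D : ℕ} (hD : D ≤ d) {e dl i : ℕ} {A : Finset ℕ} {L : List (Finset ℕ)}
    (hiA : i ∉ A) (hi : ∀ A' ∈ L, i ∉ A') (hl : L.length + 1 ≤ d) (I : Finset ℕ)
    (ms : Multiset Kd) :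
    HI d D β I (.cl e dl i (A :: L) ::ₘ ms) = HI d D β I (.cl e dl i (L ++ [A]) ::ₘ ms) := by
  have h1 : (L ++ [A]).length = L.length + 1 := by
    rw [List.length_append, List.length_singleton]
  have key : ∀ x : Fin (L.length + 1), (L ++ [A]).getD x.1 ∅ =
      (A :: L).getD (finRotate (L.length + 1) x).1 ∅ := by
    intro x
    by_cases hx : x.1 < L.length
    · have h2 : (finRotate (L.length + 1) x).1 = x.1 + 1 := by
        have h3 : x = ⟨x.1, by omega⟩ := rfl
        rw [h3, finRotate_of_lt hx]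
      rw [h2, List.getD_cons_succ, List.getD_append _ _ _ _ hx]
    · have h2 : x = Fin.last L.length := by
        apply Fin.ext
        rw [Fin.val_last]
        have := x.2
        omega
      rw [h2, finRotate_last, Fin.val_last, Fin.val_zero, List.getD_cons_zero,
        List.getD_append_right _ _ _ _ le_rfl]
      simp
  apply le_antisymm
  · let σ : Equiv.Perm (Fin (L ++ [A]).length) :=
      (finCongr h1).trans ((finRotate (L.length + 1)).symm.trans (finCongr h1.symm))
    refine HI_perm hD (by omega) ?_ (by omega) (by rw [h1]; rfl) σ (fun x => ?_) I ms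
    · intro A' hA'
      rw [List.mem_append, List.mem_singleton] at hA'
      rcases hA' with h | h
      · exact hi _ h
      · rw [h]
        exact hiA
    · have h2 := key ((finRotate (L.length + 1)).symm (finCongr h1 x))
      rw [Equiv.apply_symm_apply] at h2
      exact h2.symm
  · refine HI_perm hD (As := A :: L) (by simp) ?_ (by simpa using hl) (by rw [h1]; rfl)
      (finRotate (L.length + 1)) (fun x => key x) I ms
    intro A' hA'
    rcases List.mem_cons.1 hA' with h | h
    · rw [h]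
      exact hiA
    · exact hi _ h

end

end Pool.Agent.GD.AL

end

section

/-!
# V7: the dimension is at least the virtual dimension

The size of a kind is at most its weight (`Pool.Agent.H54.V7.Size`), and the number of the exponents
which meet `j` blocks of size `c` is `bb c (2 M - 1) j n`.
-/

set_option autoImplicit false
set_option linter.unusedSectionVars false

namespace Pool.Agent.V7

open Finset MvPolynomial Pool.Agent.H51.TB Pool.Agent.H54.V7
open Pool.Agent.V7.ST (gM gM_zero gM_le_cons)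

theorem bb_eq_bbc (c s : ℕ) : ∀ k n, bb c s k n = bbc c s k n
  | 0, n => Nat.multichoose_eq n s
  | k + 1, n => by
    show bb c s k n - bb c s k (n - c) = bbc c s k n - bbc c s k (n - c)
    rw [bb_eq_bbc c s k n, bb_eq_bbc c s k (n - c)]

variable {ν : Type} [Fintype ν] [DecidableEq ν]

/-- The variables of the block `i`. -/
abbrev blo (β : ν → ℕ) (i : ℕ) : Finset ν := univ.filter fun s => β s = i

theorem blo_disjoint (β : ν → ℕ) {i k : ℕ} (h : i ≠ k) : Disjoint (blo β i) (blo β k) := by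
  rw [disjoint_left]
  intro s hs hs'
  rw [mem_filter] at hs hs'
  exact h (hs.2.symm.trans hs'.2)

theorem card_Ex {c j : ℕ} {β : ν → ℕ} (hβ : ∀ i < j, (blo β i).card = c) (d : ℕ) :
    (Ex β d j).card = bb c d j (Fintype.card ν) := by
  have h1 : Ex β d j = mset (blo β) univ (range j) d := by
    ext a
    rw [mem_Ex, mem_mset]
    constructor
    · rintro ⟨h1, h2⟩
      refine ⟨⟨h1, fun x _ => mem_univ x⟩, fun i hi h3 => ?_⟩
      obtain ⟨s, hs, hs'⟩ := h2 i (mem_range.1 hi)
      exact hs' (h3 s (mem_filter.2 ⟨mem_univ s, hs⟩))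
    · rintro ⟨⟨h1, -⟩, h2⟩
      refine ⟨h1, fun i hi => ?_⟩
      by_contra h3
      push Not at h3
      exact h2 i (mem_range.2 hi) fun x hx => h3 x (mem_filter.1 hx).2
  rw [h1, card_mset (blo β) c d (range j) univ
    (fun i hi => ⟨subset_univ _, hβ i (mem_range.1 hi)⟩)
    (fun i _ k _ hik => blo_disjoint β hik), card_range, card_univ, bb_eq_bbc]

theorem Ex_miss {j d : ℕ} {β : ν → ℕ} {i : ℕ} (hi : i < j) (e : {a // a ∈ Ex β d j}) :
    ¬ ∀ x ∈ blo β i, e.1 x = 0 := by
  intro h
  obtain ⟨s, hs, hs'⟩ := (mem_Ex.1 e.2).2 i hi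
  exact hs' (h s (mem_filter.2 ⟨mem_univ s, hs⟩))

theorem msk_blo (β : ν → ℕ) {I : Finset ℕ} (q : ν → ℂ) {i : ℕ} (hi : i ∈ I) :
    ∀ x ∈ blo β i, msk β I q x = 0 := by
  intro x hx
  unfold msk
  rw [if_pos]
  rw [(mem_filter.1 hx).2]
  exact hi

/-- The number of conditions of a kind. -/
theorem size_le_wt {M c j : ℕ} (hM : 1 ≤ M) {β : ν → ℕ} (hβ : ∀ i < j, (blo β i).card = c)
    {s₀ : ν} (hs₀ : j ≤ β s₀) {k : Kd} (hk : k.Ok M j) :
    (LS M β j).size k ≤ wt M c (Fintype.card ν) k := by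
  have hE : ∀ e : Ex β (2 * M - 1) j, ∑ s, e.1 s = 2 * M - 1 := fun e =>
    (mem_Ex.1 e.2).1
  have hu := gd_unit (LS M β j) k
  have key : ∃ q : Unit → ν ⊕ ν → ℂ, q () (Sum.inl s₀) ≠ 0 ∧
      Module.finrank ℂ ((LS M β j).V (fun _ : Unit => k) q) =
        (LS M β j).gd fun _ : Unit => k := by
    have h1 : Gn Unit (ν ⊕ ν) fun q => q () (Sum.inl s₀) ≠ 0 :=
      ⟨X ((), Sum.inl s₀), X_ne_zero _, fun p hp => by rwa [eval_X] at hp⟩
    exact (h1.and (gn_gd (LS M β j) fun _ : Unit => k)).exists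
  obtain ⟨q, hq0, hq⟩ := key
  suffices h : Fintype.card (Ex β (2 * M - 1) j) ≤
      Module.finrank ℂ ((LS M β j).V (fun _ : Unit => k) q) + wt M c (Fintype.card ν) k by
    omega
  have htop : Module.finrank ℂ (⊤ : Submodule ℂ (Ex β (2 * M - 1) j → ℂ)) =
      Fintype.card (Ex β (2 * M - 1) j) := by
    rw [finrank_top, Module.finrank_fintype_fun_eq_card]
  rw [← htop]
  rcases k with ⟨μ, I⟩ | ⟨i, I⟩
  · obtain ⟨h1, h2, h3⟩ := hk
    have h4 := fat_card (fun e : Ex β (2 * M - 1) j => e.1) (2 * M - 1) μ c h1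
      (by omega) hE (blo β) I (fun k hk e => Ex_miss (mem_range.1 (h3 hk)) e)
      (fun k hk => hβ k (mem_range.1 (h3 hk))) (fun k _ l _ hkl => blo_disjoint β hkl)
      (msk β I fun s => q () (Sum.inl s)) (fun k hk => msk_blo β _ hk) ⊤
      ((LS M β j).V (fun _ : Unit => Kd.ord μ I) q) (fun f _ hf => by
        rw [mem_LSA]
        exact fun _ => hf)
    rw [← bb_eq_bbc] at h4
    exact h4
  · obtain ⟨h1, h2⟩ := hk
    have hiI : i ∉ I := fun h => by
      have := mem_Ico.1 (h2 h)
      omega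
    have hlt : ∀ k ∈ insert i I, k < j := fun k hk => by
      rcases mem_insert.1 hk with h | h
      · rw [h]
        exact h1
      · exact (mem_Ico.1 (h2 h)).2
    have hs₀' : ∀ k ∈ insert i I, s₀ ∉ blo β k := fun k hk h => by
      have h3 := (mem_filter.1 h).2
      have h4 := hlt k hk
      omega
    have hne : β s₀ ∉ insert i I := fun h => by
      have h4 := hlt _ h
      omega
    have h4 := sw_card (fun e : Ex β (2 * M - 1) j => e.1) (2 * M - 1) M (2 * M) c hM
      (by omega) (by omega) hE (blo β) I i hiI (fun k hk e => Ex_miss (hlt k hk) e)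
      (fun k hk => hβ k (hlt k hk)) (fun k _ l _ hkl => blo_disjoint β hkl)
      (msk β (insert i I) fun s => q () (Sum.inl s)) (msk β I fun s => q () (Sum.inr s))
      (fun k hk => msk_blo β _ hk) (fun k hk => msk_blo β _ hk) s₀ hs₀'
      (by
        unfold msk
        rw [if_neg hne]
        exact hq0) ⊤
      ((LS M β j).V (fun _ : Unit => Kd.sw i I) q) (fun f _ hf hf' => by
        rw [mem_LSA]
        exact fun _ => ⟨hf, hf'⟩)
    rw [← bb_eq_bbc] at h4
    exact h4

/-- **F1.** The dimension is at least the virtual dimension. -/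
theorem vd_le_gM {M c j : ℕ} (hM : 1 ≤ M) {β : ν → ℕ} (hβ : ∀ i < j, (blo β i).card = c)
    {s₀ : ν} (hs₀ : j ≤ β s₀) (s : Multiset Kd) (hs : ∀ k ∈ s, k.Ok M j) :
    vd M c j (Fintype.card ν) s ≤ gM (LS M β j) s := by
  induction s using Multiset.induction_on with
  | empty =>
    rw [gM_zero, Fintype.card_coe, card_Ex hβ]
    unfold vd
    simp
  | cons k s ih =>
    have h1 := ih fun k' hk' => hs k' (Multiset.mem_cons_of_mem hk')
    have h2 := gM_le_cons (LS M β j) s k
    have h3 := size_le_wt hM hβ hs₀ (hs k (Multiset.mem_cons_self k s))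
    unfold vd at h1 ⊢
    rw [Multiset.map_cons, Multiset.sum_cons]
    push_cast
    push_cast at h1
    have h4 : (gM (LS M β j) s : ℤ) ≤ gM (LS M β j) (k ::ₘ s) + wt M c (Fintype.card ν) k := by
      exact_mod_cast h2.trans (Nat.add_le_add_left h3 _)
    linarith

/-! ### The canonical variables -/

theorem card_blo_blk {c n i : ℕ} (hc : 0 < c) (h : (i + 1) * c ≤ n) :
    (blo (blk c n) i).card = c := by
  have h1 : (blo (blk c n) i).card = (Ico (i * c) ((i + 1) * c)).card := by
    refine card_bij (fun s _ => s.1) ?_ ?_ ?_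
    · intro s hs
      have h2 : s.1 / c = i := (mem_filter.1 hs).2
      rw [mem_Ico]
      constructor
      · rw [← h2]
        exact Nat.div_mul_le_self _ _
      · rw [← h2]
        exact Nat.lt_mul_of_div_lt (Nat.lt_succ_self _) hc
    · intro s _ t _ hst
      exact Fin.ext hst
    · intro x hx
      rw [mem_Ico] at hx
      refine ⟨⟨x, lt_of_lt_of_le hx.2 h⟩, mem_filter.2 ⟨mem_univ _, ?_⟩, rfl⟩
      exact Nat.div_eq_of_lt_le hx.1 hx.2
  rw [h1, Nat.card_Ico, add_mul, one_mul]
  omega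

theorem card_Ex_blk {c n j : ℕ} (hc : 0 < c) (h : j * c ≤ n) (d : ℕ) :
    (Ex (blk c n) d j).card = bb c d j n := by
  rw [card_Ex (fun i hi => card_blo_blk hc
    ((Nat.mul_le_mul_right c (Nat.succ_le_of_lt hi)).trans h)) d, Fintype.card_fin]

theorem size_blk {M c j n : ℕ} (hM : 1 ≤ M) (hc : 0 < c) (h : j * c < n) {k : Kd}
    (hk : k.Ok M j) : (LS M (blk c n) j).size k ≤ wt M c n k := by
  have h1 := size_le_wt (ν := Fin n) (c := c) hM (fun i hi => card_blo_blk hc
    ((Nat.mul_le_mul_right c (Nat.succ_le_of_lt hi)).trans h.le)) (s₀ := ⟨j * c, h⟩)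
    (show j ≤ j * c / c by rw [Nat.mul_div_cancel _ hc]) hk
  rwa [Fintype.card_fin] at h1

/-- **F1**, canonical variables. -/
theorem vd_le_gM_blk {M c j n : ℕ} (hM : 1 ≤ M) (hc : 0 < c) (h : j * c < n) (s : Multiset Kd)
    (hs : ∀ k ∈ s, k.Ok M j) : vd M c j n s ≤ gM (LS M (blk c n) j) s := by
  have h1 := vd_le_gM (ν := Fin n) (c := c) hM (fun i hi => card_blo_blk hc
    ((Nat.mul_le_mul_right c (Nat.succ_le_of_lt hi)).trans h.le)) (s₀ := ⟨j * c, h⟩)
    (show j ≤ j * c / c by rw [Nat.mul_div_cancel _ hc]) s hs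
  rwa [Fintype.card_fin] at h1

end Pool.Agent.V7

end

section

/-!
# Project XD: fewer variables, the coordinate point, derivatives
-/

set_option autoImplicit false

namespace Pool.Agent.XD

open Finset MvPolynomial Pool.Agent.H18.Fat Pool.Agent.H21.NX Pool.Agent.H51.TB

/-! ### Fewer variables -/

/-- The exponents of degree `j` in the first `i + 1` variables. -/
noncomputable def Lv (r j i : ℕ) : Finset (Fin (r + 1) →₀ ℕ) := by
  classical
  exact (mons (r + 1) j).filter fun v => ∀ l : Fin (r + 1), i < l.1 → v l = 0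

theorem mem_Lv {r j i : ℕ} {v : Fin (r + 1) →₀ ℕ} :
    v ∈ Lv r j i ↔ v ∈ mons (r + 1) j ∧ ∀ l : Fin (r + 1), i < l.1 → v l = 0 := by
  classical
  unfold Lv
  rw [mem_filter]

private theorem Vars_shift_rename {n n' : ℕ} (c : Fin n' → Fin n) (q : Fin n → ℂ)
    (F : MvPolynomial (Fin n') ℂ) :
    shift q (rename c F) = rename c (shift (fun x => q (c x)) F) := by
  unfold shift
  rw [aeval_rename]
  have h : (aeval ((fun j => X j + C (q j)) ∘ c) :
      MvPolynomial (Fin n') ℂ →ₐ[ℂ] MvPolynomial (Fin n) ℂ) =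
      (rename c).comp (aeval fun j => X j + C (q (c j))) := by
    apply algHom_ext
    intro x
    rw [AlgHom.comp_apply, aeval_X, aeval_X, map_add, rename_X, rename_C]
    rfl
  exact DFunLike.congr_fun h F

private theorem Vars_vanish {n n' : ℕ} {c : Fin n' → Fin n} (hc : Function.Injective c)
    (q : Fin n → ℂ) (F : MvPolynomial (Fin n') ℂ) (m : ℕ) :
    VanishesToOrder (rename c F) q m ↔ VanishesToOrder F (fun x => q (c x)) m := by
  unfold VanishesToOrder
  rw [Vars_shift_rename]
  constructor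
  · intro h β hβ
    have h1 := h (Finsupp.mapDomain c β) (by rw [Finsupp.degree_mapDomain]; exact hβ)
    rwa [coeff_rename_mapDomain c hc] at h1
  · intro h β hβ
    by_contra hne
    obtain ⟨u, hu, hu0⟩ := coeff_rename_ne_zero c _ β hne
    apply hu0
    refine h u ?_
    rw [← hu, Finsupp.degree_mapDomain] at hβ
    exact hβ

theorem finrank_Lv {r j i : ℕ} (hi : i ≤ r) {κ : Type} (m : κ → ℕ) (p : κ → Fin (r + 1) → ℂ) :
    Module.finrank ℂ (fatForms r j p m ⊓ sup (Lv r j i) :
      Submodule ℂ (MvPolynomial (Fin (r + 1)) ℂ)) =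
      Module.finrank ℂ (fatForms i j (fun s x => p s (Fin.castLE (by omega) x)) m) := by
  classical
  let c : Fin (i + 1) → Fin (r + 1) := Fin.castLE (by omega)
  have hc : Function.Injective c := Fin.castLE_injective _
  have h3 : (fatForms i j (fun s x => p s (Fin.castLE (by omega) x)) m).map
      (rename c).toLinearMap = fatForms r j p m ⊓ sup (Lv r j i) := by
    ext F
    constructor
    · rintro ⟨G, hG, rfl⟩
      refine ⟨⟨hG.1.rename_isHomogeneous, fun s => ?_⟩, fun α hα => ?_⟩
      · exact (Vars_vanish hc (p s) G (m s)).2 (hG.2 s)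
      · by_contra hne
        obtain ⟨u, hu, hu0⟩ := coeff_rename_ne_zero c _ α hne
        apply hα
        rw [mem_Lv, mem_mons]
        refine ⟨?_, fun l hl => ?_⟩
        · rw [← hu, Finsupp.degree_mapDomain]
          by_contra h1
          exact hu0 (hG.1.coeff_eq_zero h1)
        · rw [← hu]
          apply Finsupp.mapDomain_notin_range
          rintro ⟨x, hx⟩
          rw [← hx] at hl
          have h1 : (c x).1 = x.1 := rfl
          omega
    · rintro ⟨hF1, hF2⟩
      obtain ⟨G, hG⟩ := exists_rename_eq_of_vars_subset_range F c hc (by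
        intro l hl
        rw [mem_coe, mem_vars] at hl
        obtain ⟨α, hα, hl⟩ := hl
        have h1 : α ∈ Lv r j i := by
          by_contra h1
          exact (mem_support_iff.1 hα) (hF2 α h1)
        have h2 := (mem_Lv.1 h1).2 l
        have h3 : l.1 ≤ i := by
          by_contra h3
          exact (Finsupp.mem_support_iff.1 hl) (h2 (by omega))
        exact ⟨⟨l.1, by omega⟩, Fin.ext rfl⟩)
      refine ⟨G, ⟨?_, fun s => ?_⟩, hG⟩
      · rw [← IsHomogeneous.rename_isHomogeneous_iff hc, hG]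
        exact hF1.1
      · refine (Vars_vanish hc (p s) G (m s)).1 ?_
        rw [hG]
        exact hF1.2 s
  rw [← h3]
  exact ((Submodule.equivMapOfInjective _ (rename_injective c hc) _).finrank_eq).symm

/-! ### The coordinate point -/

private theorem Vars_le {n d : ℕ} {α : Fin n →₀ ℕ} (hα : α ∈ mons n d) (l : Fin n) :
    α l ≤ d := by
  rw [mem_mons, Finsupp.degree_eq_sum] at hα
  rw [← hα]
  exact single_le_sum (fun _ _ => Nat.zero_le _) (mem_univ l)

/-- The exponents of degree `d` with last exponent less than `c`. -/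
noncomputable def Lc (r d c : ℕ) : Finset (Fin (r + 1) →₀ ℕ) := by
  classical
  exact (mons (r + 1) d).filter fun v => v (Fin.last r) < c

theorem mem_Lc {r d c : ℕ} {v : Fin (r + 1) →₀ ℕ} :
    v ∈ Lc r d c ↔ v ∈ mons (r + 1) d ∧ v (Fin.last r) < c := by
  classical
  unfold Lc
  rw [mem_filter]

theorem fat_last {r d c : ℕ} (hc : 1 ≤ c) {κ : Type} (m : κ → ℕ)
    (p : κ → Fin (r + 1) → ℂ) :
    fatForms r d (Sum.elim p fun _ : Unit => (Pi.single (Fin.last r) 1 : Fin (r + 1) → ℂ))
      (Sum.elim m fun _ : Unit => d + 1 - c) = fatForms r d p m ⊓ sup (Lc r d c) := by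
  classical
  ext F
  constructor
  · intro hF
    refine ⟨⟨hF.1, fun s => hF.2 (Sum.inl s)⟩, fun α hα => ?_⟩
    by_contra hne
    have hαd : α ∈ mons (r + 1) d := by
      rw [mem_mons]
      by_contra h1
      exact hne (hF.1.coeff_eq_zero h1)
    have h1 := hF.2 (Sum.inr ())
    have h1' : VanishesToOrder F (Pi.single (Fin.last r) 1) (d + 1 - c) := h1
    rw [← exists_toPoly hF.1, vanishes_coord_iff] at h1'
    have h2 := h1' ⟨α, hαd⟩ hne
    apply hα
    rw [mem_Lc]
    refine ⟨hαd, ?_⟩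
    have h3 : α (Fin.last r) + (d + 1 - c) ≤ d := h2
    have h4 := Vars_le hαd (Fin.last r)
    omega
  · rintro ⟨hF1, hF2⟩
    refine ⟨hF1.1, fun s => ?_⟩
    rcases s with s | s
    · exact hF1.2 s
    · show VanishesToOrder F (Pi.single (Fin.last r) 1) (d + 1 - c)
      rw [← exists_toPoly hF1.1, vanishes_coord_iff]
      intro α hα
      have h1 : α.1 ∈ Lc r d c := by
        by_contra h1
        exact hα (hF2 α.1 h1)
      have h2 := (mem_Lc.1 h1).2
      have h3 := Vars_le α.2 (Fin.last r)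
      omega

/-- Moving a point with nonzero last coordinate to the last coordinate point. -/
private theorem Vars_move {n : ℕ} (l : Fin n) (q : Fin n → ℂ) (hq : q l ≠ 0) :
    ∃ A B : Matrix (Fin n) (Fin n) ℂ, A * B = 1 ∧ A.mulVec q = Pi.single l 1 := by
  classical
  let b : Fin n → ℂ := q - Pi.single l 1
  let A : Matrix (Fin n) (Fin n) ℂ := 1 - Matrix.vecMulVec ((q l)⁻¹ • b) (Pi.single l 1)
  let B : Matrix (Fin n) (Fin n) ℂ := 1 + Matrix.vecMulVec b (Pi.single l 1)
  have hA : ∀ x : Fin n → ℂ, A.mulVec x = x - (x l * (q l)⁻¹) • b := by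
    intro x
    have h1 : (Matrix.vecMulVec ((q l)⁻¹ • b) (Pi.single l 1 : Fin n → ℂ)).mulVec x =
        (x l * (q l)⁻¹) • b := by
      rw [Matrix.vecMulVec_mulVec]
      funext i
      simp
      ring
    rw [Matrix.sub_mulVec, Matrix.one_mulVec, h1]
  have hB : ∀ x : Fin n → ℂ, B.mulVec x = x + x l • b := by
    intro x
    have h1 : (Matrix.vecMulVec b (Pi.single l 1 : Fin n → ℂ)).mulVec x = x l • b := by
      rw [Matrix.vecMulVec_mulVec]
      funext i
      simp
      ring
    rw [Matrix.add_mulVec, Matrix.one_mulVec, h1]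
  have hbl : b l = q l - 1 := by
    simp [b]
  refine ⟨A, B, ?_, ?_⟩
  · apply Matrix.mulVec_injective
    funext x
    rw [← Matrix.mulVec_mulVec, Matrix.one_mulVec, hA, hB]
    have h1 : (x + x l • b) l * (q l)⁻¹ = x l := by
      rw [Pi.add_apply, Pi.smul_apply, hbl, smul_eq_mul]
      field_simp
      ring
    rw [h1]
    abel
  · rw [hA, mul_inv_cancel₀ hq, one_smul]
    simp [b]

/-- The dimension with a further general point of multiplicity `d + 1 - c`. -/
theorem exists_last {r d c : ℕ} (hc : 1 ≤ c) {κ : Type} [Fintype κ] (m : κ → ℕ) :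
    ∃ p : κ → Fin (r + 1) → ℂ, Module.finrank ℂ (fatForms r d p m ⊓ sup (Lc r d c) :
      Submodule ℂ (MvPolynomial (Fin (r + 1)) ℂ)) =
      gdim r d (Sum.elim m fun _ : Unit => d + 1 - c) := by
  classical
  have h1 : Gn (κ ⊕ Unit) (Fin (r + 1)) fun p => p (Sum.inr ()) (Fin.last r) ≠ 0 :=
    ⟨X (Sum.inr (), Fin.last r), X_ne_zero _, fun p hp => by rwa [eval_X] at hp⟩
  have h2 : Gn (κ ⊕ Unit) (Fin (r + 1)) fun p => Module.finrank ℂ
      (fatForms r d p (Sum.elim m fun _ : Unit => d + 1 - c)) =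
      gdim r d (Sum.elim m fun _ : Unit => d + 1 - c) := gen_gdim r d _
  obtain ⟨p, hp1, hp2⟩ := (h1.and h2).exists
  obtain ⟨A, B, hAB, hA⟩ := Vars_move (Fin.last r) (p (Sum.inr ())) hp1
  refine ⟨fun s => A.mulVec (p (Sum.inl s)), ?_⟩
  have h3 : (Sum.elim (fun s => A.mulVec (p (Sum.inl s)))
      fun _ : Unit => (Pi.single (Fin.last r) 1 : Fin (r + 1) → ℂ)) = fun s => A.mulVec (p s) := by
    funext s
    rcases s with s | s
    · rfl
    · exact hA.symm
  rw [← fat_last hc, h3, ← hp2]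
  exact finrank_linSubst p _ hAB

/-! ### Derivatives -/

theorem pderiv_fat {r j : ℕ} {κ : Type} (e : κ → ℕ) (p : κ → Fin (r + 1) → ℂ)
    (i : Fin (r + 1)) {F : MvPolynomial (Fin (r + 1)) ℂ}
    (hF : F ∈ fatForms r (j + 1) p fun s => j + 1 + 1 - e s) :
    pderiv i F ∈ fatForms r j p fun s => j + 1 - e s := by
  refine ⟨?_, fun s β hβ => ?_⟩
  · have h1 := hF.1.pderiv (i := i)
    rwa [Nat.add_sub_cancel] at h1
  · rw [Pool.Agent.H21.HD.BridgeCX.shift_pderiv, coeff_pderiv]
    have hβ' : β.degree < j + 1 - e s := hβ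
    have h1 := hF.2 s (β + Finsupp.single i 1) (by
      rw [map_add, Finsupp.degree_single]
      show β.degree + 1 < j + 1 + 1 - e s
      omega)
    rw [h1, zero_mul]

/-- Divisors of leading exponents, one step. -/
theorem Ld_pderiv {r j : ℕ} {κ : Type} (e : κ → ℕ) (p : κ → Fin (r + 1) → ℂ)
    (i : Fin (r + 1)) {v : Fin (r + 1) →₀ ℕ}
    (hv : v + Finsupp.single i 1 ∈ Ld (j + 1) (fatForms r (j + 1) p fun s => j + 1 + 1 - e s)) :
    v ∈ Ld j (fatForms r j p fun s => j + 1 - e s) := by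
  obtain ⟨hvd, F, hF, hFv, hFu⟩ := mem_Ld.1 hv
  rw [mem_Ld]
  refine ⟨?_, pderiv i F, pderiv_fat e p i hF, ?_, fun u hu => ?_⟩
  · rw [mem_mons] at hvd ⊢
    rw [map_add, Finsupp.degree_single] at hvd
    omega
  · rw [coeff_pderiv]
    refine mul_ne_zero hFv ?_
    exact_mod_cast Nat.succ_ne_zero (v i)
  · rw [coeff_pderiv, hFu _ ((clt_add_iff _).2 hu), zero_mul]

end Pool.Agent.XD

end
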