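import Pool.Agent.H94.LP7.M109
import Pool.Agent.H94.LP7.M116
import Pool.Agent.H94.LP7.M123
import Pool.Agent.H94.LP7.M133
import Pool.Agent.H94.LP7.M136
import Pool.Agent.H94.LP7.M17
import Pool.Agent.H94.LP7.M54

/-! The parts of this file: H74.SC.WinD, H74.V7.Fin, V7.BE.Gen, V7.Bridge, V7.ST.Step. -/

section

/-!
# The window for arbitrary multiplicities at most `M`

Let `ℓ = binom(M + r - 1, r)`, `N = binom(d + r, r)`, `M ≤ d + 1`, all `m a ≤ M`, `L` the sum of the
lengths.  If `V(m, M, …, M) ≠ 0` with `ℓ - 1` copies of `M`, then `dim V(m) + L = N`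
(`decouple`, point after point).  Hence `V(m) = 0` if at least `ℓ - 1` of the `m a` are equal to `M`
and `N + (ℓ - 1) ℓ < L`, and always `dim V(m) ≤ max (N - L) 0 + ℓ (ℓ + 1)`.
-/

namespace Pool.Agent.H74.SC.WinD

open Finset MvPolynomial Pool.Agent.H18.Fat Pool.Agent.H18.Ex Pool.Agent.H21.NX Pool.Agent.H21.NX.GenBX

theorem gdim_le_comp (r d : ℕ) {κ κ' : Type} [Fintype κ] [Fintype κ'] (φ : κ' → κ)
    (hφ : Function.Injective φ) (m : κ → ℕ) : gdim r d m ≤ gdim r d fun i => m (φ i) := by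
  obtain ⟨p₀, hp₀⟩ := gdim_attained r d fun i => m (φ i)
  have hfin := finite_fat (d := d) p₀ fun i => m (φ i)
  have h1 := gdim_le r d m (Function.extend φ p₀ fun _ _ => 0)
  have h2 : fatForms r d (Function.extend φ p₀ fun _ _ => 0) m ≤
      fatForms r d p₀ fun i => m (φ i) := by
    have h3 := fat_comp_le (d := d) φ (Function.extend φ p₀ fun _ _ => 0) m
    have h4 : (fun i => Function.extend φ p₀ (fun _ _ => 0) (φ i)) = p₀ :=
      funext fun i => hφ.extend_apply p₀ _ i
    rwa [h4] at h3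
  have h3 := Submodule.finrank_mono h2
  omega

theorem gdim_isEmpty (r d : ℕ) {κ : Type} [IsEmpty κ] (m : κ → ℕ) :
    gdim r d m = (d + r).choose r := by
  rw [← gdim_empty r d (fun i => i.elim0), ← gdim_comp_equiv r d
    (Equiv.equivOfIsEmpty κ (Fin 0)) (fun i => i.elim0)]
  congr 1
  funext i
  exact isEmptyElim i

theorem alive (r d : ℕ) (hr : 1 ≤ r) (M : ℕ) (hMd : M ≤ d + 1) (κ : Type) [Fintype κ] :
    ∀ m : κ → ℕ, (∀ a, m a ≤ M) →
      gdim r d (Sum.elim m fun _ : Fin (ell r M - 1) => M) ≠ 0 →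
      gdim r d m + ∑ a, ell r (m a) = (d + r).choose r := by
  refine Fintype.induction_empty_option (P := fun κ _ => ∀ m : κ → ℕ, (∀ a, m a ≤ M) →
      gdim r d (Sum.elim m fun _ : Fin (ell r M - 1) => M) ≠ 0 →
      gdim r d m + ∑ a, ell r (m a) = (d + r).choose r) ?_ ?_ ?_ κ
  · intro α β inst1 e ih m hm hne
    let _ : Fintype α := Fintype.ofEquiv β e.symm
    have h1 := ih (fun a => m (e a)) (fun a => hm _) (by
      intro h0
      apply hne
      have h2 := gdim_le_comp r d (Sum.map e id : α ⊕ Fin (ell r M - 1) → β ⊕ Fin (ell r M - 1))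
        (Function.Injective.sumMap e.injective Function.injective_id)
        (Sum.elim m fun _ : Fin (ell r M - 1) => M)
      have h3 : (fun i => Sum.elim m (fun _ : Fin (ell r M - 1) => M)
          ((Sum.map e id : α ⊕ Fin (ell r M - 1) → β ⊕ Fin (ell r M - 1)) i)) =
          Sum.elim (fun a => m (e a)) fun _ : Fin (ell r M - 1) => M := by
        funext i
        rcases i with i | i <;> rfl
      rw [h3, h0] at h2
      omega)
    rw [gdim_comp_equiv r d e m] at h1
    rw [← h1]
    congr 1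
    exact (Fintype.sum_equiv e _ _ fun a => rfl).symm
  · intro m _ _
    rw [gdim_isEmpty, Fintype.sum_empty, Nat.add_zero]
  · intro α inst1 ih m hm hne
    classical
    have hcomp : ∀ e : ℕ, e ≤ ell r M - 1 →
        gdim r d (Sum.elim (fun a => m (some a)) fun _ : Fin e => M) ≠ 0 := by
      intro e he h0
      apply hne
      have h2 := gdim_le_comp r d
        (Sum.map some (Fin.castLE he) : α ⊕ Fin e → Option α ⊕ Fin (ell r M - 1))
        (Function.Injective.sumMap (Option.some_injective α) (Fin.castLE_injective he))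
        (Sum.elim m fun _ : Fin (ell r M - 1) => M)
      have h3 : (fun i => Sum.elim m (fun _ : Fin (ell r M - 1) => M)
          ((Sum.map some (Fin.castLE he) : α ⊕ Fin e → Option α ⊕ Fin (ell r M - 1)) i)) =
          Sum.elim (fun a => m (some a)) fun _ : Fin e => M := by
        funext i
        rcases i with i | i <;> rfl
      rw [h3, h0] at h2
      omega
    have h1 := ih (fun a => m (some a)) (fun a => hm _) (hcomp _ le_rfl)
    have hle : ell r (m none) ≤ ell r M := ell_mono r (hm none)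
    have h2 := decouple r d hr (fun a => m (some a)) (m none) M (fun a => hm _) (hm none)
      ((hm none).trans hMd) (hcomp _ (by omega))
    have h3 : gdim r d (Sum.elim (fun a => m (some a)) fun _ : Unit => m none) = gdim r d m := by
      rw [← gdim_comp_equiv r d (Equiv.optionEquivSumPUnit.{0, 0} α).symm m]
      congr 1
      funext i
      rcases i with i | i <;> rfl
    rw [h3] at h2
    rw [Fintype.sum_option]
    omega

end Pool.Agent.H74.SC.WinD

end

section

/-!
# The critical degree `d = 2 M - 1`: from the critical density to all tuples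

`Crit M`: in degree `2 M - 1` and for `r` large the dimension is the expected one if the `M`-fold
points carry between `(1 - ε) N` and `(1 + ε) N` conditions and the others at most `ε N`,
`N = binom(2 M - 1 + r, r)`.  Then this holds for all tuples with multiplicities at most `M`.
-/

namespace Pool.Agent.H74.V7

open Finset MvPolynomial Pool.Agent.H18.Fat Pool.Agent.H18.Ex Pool.Agent.H21.NX Pool.Agent.H74.SC.WinD Pool.Agent.H21.NX.GenBX

/-- The assertion near the critical density. -/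
def Crit (M : ℕ) : Prop :=
  ∃ ε : ℝ, 0 < ε ∧ ∃ r₀ : ℕ, ∀ r, r₀ ≤ r → ∀ (k : ℕ) (m : Fin k → ℕ), (∀ i, 1 ≤ m i ∧ m i ≤ M) →
    |(((univ.filter fun i => m i = M).card * ell r M : ℕ) : ℝ) - ((2 * M - 1 + r).choose r : ℝ)| ≤
      ε * ((2 * M - 1 + r).choose r : ℝ) →
    ((∑ i ∈ univ.filter fun i => m i < M, ell r (m i) : ℕ) : ℝ) ≤
      ε * ((2 * M - 1 + r).choose r : ℝ) →
    gdim r (2 * M - 1) m = (2 * M - 1 + r).choose r - ∑ i, ell r (m i)

theorem le_gdim (r d : ℕ) (hr : 1 ≤ r) {κ : Type} [Fintype κ] (m : κ → ℕ) :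
    (d + r).choose r ≤ gdim r d m + ∑ i, ell r (m i) := by
  have h1 := le_gdim_elim r d hr (fun i : Fin 0 => i.elim0) m
  rw [gdim_empty] at h1
  have h2 := gdim_comp_equiv r d (Equiv.emptySum (Fin 0) κ).symm
    (Sum.elim (fun i : Fin 0 => i.elim0) m)
  have h3 : (fun i => Sum.elim (fun i : Fin 0 => i.elim0) m
      ((Equiv.emptySum (Fin 0) κ).symm i)) = m := by
    funext i
    rfl
  rw [h3] at h2
  omega

theorem max_of_gdim (r d : ℕ) {k : ℕ} (m : Fin k → ℕ)
    (h : gdim r d m = (d + r).choose r - ∑ i, ell r (m i)) :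
    ForGeneralPoints r k fun p => ImposesMaximalConditions r d p m := by
  have hg : Gen r (Fin k) fun p => ImposesMaximalConditions r d p m := by
    refine (gen_gdim r d m).mono fun p hp => ?_
    unfold ImposesMaximalConditions
    rw [hp, h]
    have e1 : (((∑ i, ell r (m i) : ℕ)) : ℤ) = ∑ i, (((m i + r - 1).choose r : ℕ) : ℤ) := by
      rw [Nat.cast_sum]
      rfl
    rw [← e1]
    omega
  exact hg

/-- The dimension of a subfamily is zero: the dimension is zero. -/
theorem gdim_zero_of_sub (r d : ℕ) {k : ℕ} (m : Fin k → ℕ) (S : Finset (Fin k))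
    (h : gdim r d (fun i : Fin S.card => m (S.equivFin.symm i)) = 0) : gdim r d m = 0 := by
  have h1 := gdim_le_comp r d (fun i : Fin S.card => ((S.equivFin.symm i : S) : Fin k))
    (fun a b hab => S.equivFin.symm.injective (Subtype.ext hab)) m
  omega

theorem sum_sub {k : ℕ} (S : Finset (Fin k)) (f : Fin k → ℕ) :
    ∑ i : Fin S.card, f (S.equivFin.symm i) = ∑ i ∈ S, f i := by
  rw [Equiv.sum_comp S.equivFin.symm fun i : S => f i]
  exact Finset.sum_coe_sort S f

theorem sum_filter_sub {k : ℕ} (S : Finset (Fin k)) (P : Fin k → Prop) [DecidablePred P]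
    (f : Fin k → ℕ) :
    ∑ i ∈ univ.filter (fun i : Fin S.card => P (S.equivFin.symm i)), f (S.equivFin.symm i) =
      ∑ i ∈ S.filter P, f i := by
  rw [Finset.sum_filter, Finset.sum_filter]
  exact sum_sub S fun i => if P i then f i else 0

theorem card_filter_sub {k : ℕ} (S : Finset (Fin k)) (P : Fin k → Prop) [DecidablePred P] :
    (univ.filter (fun i : Fin S.card => P (S.equivFin.symm i))).card = (S.filter P).card := by
  rw [Finset.card_eq_sum_ones (S.filter P), ← sum_filter_sub S P fun _ => 1]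
  exact Finset.card_eq_sum_ones _

theorem exists_sub_sum {ι : Type} [DecidableEq ι] (f : ι → ℕ) (ℓ : ℕ) (t : ℝ) (ht : 0 ≤ t)
    (U : Finset ι) : (∀ i ∈ U, f i ≤ ℓ) → t < ((∑ i ∈ U, f i : ℕ) : ℝ) →
    ∃ T ⊆ U, ((∑ i ∈ T, f i : ℕ) : ℝ) ≤ t ∧ t < ((∑ i ∈ T, f i : ℕ) : ℝ) + ℓ := by
  induction U using Finset.induction_on with
  | empty =>
    intro _ h
    rw [Finset.sum_empty, Nat.cast_zero] at h
    linarith
  | insert a s ha ih =>
    intro hf h
    by_cases h1 : t < ((∑ i ∈ s, f i : ℕ) : ℝ)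
    · obtain ⟨T, hT, h2, h3⟩ := ih (fun i hi => hf i (Finset.mem_insert_of_mem hi)) h1
      exact ⟨T, hT.trans (Finset.subset_insert _ _), h2, h3⟩
    · refine ⟨s, Finset.subset_insert _ _, not_lt.1 h1, lt_of_lt_of_le h ?_⟩
      rw [Finset.sum_insert ha, Nat.cast_add, add_comm]
      have : ((f a : ℕ) : ℝ) ≤ ℓ := by exact_mod_cast hf a (Finset.mem_insert_self _ _)
      linarith

/-- One point carries a small share of the conditions. -/
theorem ell_small (M : ℕ) (hM : 1 ≤ M) (ε : ℝ) (hε : 0 < ε) : ∃ r₀ : ℕ, ∀ r, r₀ ≤ r →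
    ((ell r M : ℕ) : ℝ) ≤ ε * ((2 * M - 1 + r).choose r : ℝ) := by
  obtain ⟨R, hR⟩ := exists_nat_ge ((2 ^ (M - 1) * (2 * M) ^ (2 * M) : ℝ) / ε)
  refine ⟨R + M + 1, fun r hr => ?_⟩
  have h1 := ell_le_pow r M hM (by omega)
  have h2 := pow_le_ell r (2 * M) (by omega)
  have h3 : ell r (2 * M) = (2 * M - 1 + r).choose r := by
    unfold ell
    rw [show 2 * M + r - 1 = 2 * M - 1 + r by omega]
  rw [h3] at h2
  have hr1 : (1 : ℝ) ≤ r := by exact_mod_cast (show 1 ≤ r by omega)
  have h4 : (2 ^ (M - 1) * (2 * M) ^ (2 * M) : ℝ) ≤ ε * r := by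
    rw [div_le_iff₀ hε] at hR
    have : (R : ℝ) ≤ r := by exact_mod_cast (show R ≤ r by omega)
    nlinarith
  have h5 : (ell r M : ℝ) ≤ (2 * r) ^ (M - 1) := by exact_mod_cast h1
  have h6 : (r : ℝ) ^ (2 * M - 1) ≤ (2 * M) ^ (2 * M) * ((2 * M - 1 + r).choose r : ℝ) := by
    exact_mod_cast h2
  have h7 : (r : ℝ) ≤ r ^ M := by
    calc (r : ℝ) = r ^ 1 := (pow_one _).symm
      _ ≤ r ^ M := pow_le_pow_right₀ hr1 hM
  have hN : (0 : ℝ) ≤ ((2 * M - 1 + r).choose r : ℝ) := Nat.cast_nonneg _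
  have hrpos : (0 : ℝ) < (r : ℝ) ^ M := by positivity
  refine le_of_mul_le_mul_right ?_ hrpos
  calc (ell r M : ℝ) * r ^ M ≤ (2 * r) ^ (M - 1) * r ^ M :=
        mul_le_mul_of_nonneg_right h5 hrpos.le
    _ = 2 ^ (M - 1) * r ^ (2 * M - 1) := by
      rw [mul_pow, mul_assoc, ← pow_add]
      congr 2
      omega
    _ ≤ 2 ^ (M - 1) * ((2 * M) ^ (2 * M) * ((2 * M - 1 + r).choose r : ℝ)) :=
        mul_le_mul_of_nonneg_left h6 (by positivity)
    _ = (2 ^ (M - 1) * (2 * M) ^ (2 * M)) * ((2 * M - 1 + r).choose r : ℝ) := by ring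
    _ ≤ (ε * r) * ((2 * M - 1 + r).choose r : ℝ) := mul_le_mul_of_nonneg_right h4 hN
    _ ≤ (ε * r ^ M) * ((2 * M - 1 + r).choose r : ℝ) :=
        mul_le_mul_of_nonneg_right (mul_le_mul_of_nonneg_left h7 hε.le) hN
    _ = ε * ((2 * M - 1 + r).choose r : ℝ) * r ^ M := by ring

end Pool.Agent.H74.V7

end

section

/-!
# V7, block BETA, module Gen: the result of the tensor part

`exists_omega`: for every `q₀` there is a configuration `Ω` for `q = M r q₀` blocks such that for all
`E ≠ ⊥, ⊤` the sum over all `α` of `finrank (KE (res Ω α) E)` is at most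
`lam * finrank E * binom(q, M) - q₀ ^ M`.
-/

namespace Pool.Agent.V7.BE

open Finset Module Pool.Agent.V7 Pool.Agent.H51.TB

variable {k M c : ℕ}

theorem tk (hM : 1 ≤ M) (hc : 0 < c) (hdiv : (Wt M).factorial ∣ c) : TK c (Wt M) := by
  intro ι _ _ w hsum hint
  refine tens_kill ?_ hc hdiv w hsum hint
  unfold Wt
  have : 0 < (2 * M - 1).choose M := Nat.choose_pos (by omega)
  omega

/-- Generic exactness. -/
theorem gen_exact (hk : k + 1 = M) (hc : 0 < c) (hdiv : (Wt M).factorial ∣ c) :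
    Gn (Finset (Slot k M) × Fin (lam M c)) (Slot k M × Fin c) fun p =>
      Exact (fun S t => p (S, t)) (fun t => p (S0 k M, t)) := by
  classical
  have hC : 0 < (2 * M - 1).choose M := Nat.choose_pos (by omega)
  have hW : 0 < Wt M := by
    unfold Wt
    omega
  have hcard : Fintype.card (Slot k M) = 2 * M - 1 := by
    rw [Fintype.card_sum, Fintype.card_fin, Fintype.card_fin]
    omega
  let w : Finset (Slot k M) → ℕ := fun S => if S.card = M then 2 else 0
  have hsum : ∑ S, w S = Wt M := by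
    show ∑ S : Finset (Slot k M), (if S.card = M then 2 else 0) = Wt M
    rw [← sum_filter, sum_const, smul_eq_mul]
    have : (univ.filter fun S : Finset (Slot k M) => S.card = M) =
        (univ : Finset (Slot k M)).powersetCard M := by
      ext S
      simp [mem_powersetCard]
    rw [this, card_powersetCard, card_univ, hcard]
    unfold Wt
    ring
  have hint : Inter w := by
    intro S S' hS hS'
    left
    have h1 : S.card = M := by
      by_contra h
      exact hS (if_neg h)
    have h2 : S'.card = M := by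
      by_contra h
      exact hS' (if_neg h)
    by_contra hcon
    rw [not_nonempty_iff_eq_empty, ← disjoint_iff_inter_eq_empty] at hcon
    have h3 := card_union_of_disjoint hcon
    have h4 : (S ∪ S').card ≤ 2 * M - 1 := by
      rw [← hcard, ← card_univ]
      exact card_le_card (subset_univ _)
    omega
  have hWc : Wt M ∣ c ^ M := dvd_pow (dvd_trans (Nat.dvd_factorial hW le_rfl) hdiv) (by omega)
  have hn : ∀ S : Finset (Slot k M), S.card = M → w S * c ^ S.card / Wt M = lam M c := by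
    intro S hS
    obtain ⟨u, hu⟩ := hWc
    have h1 : w S = 2 := if_pos hS
    rw [h1, hS]
    unfold lam
    rw [hu]
    have e1 : 2 * (Wt M * u) = Wt M * (2 * u) := by ring
    have e2 : Wt M * u = (2 * M - 1).choose M * (2 * u) := by
      unfold Wt
      ring
    rw [e1, Nat.mul_div_cancel_left _ hW, e2, Nat.mul_div_cancel_left _ hC]
  have hlt : ∀ x : TIdx (Slot k M) c (Wt M) w, x.1.card = M := by
    rintro ⟨S, t⟩
    by_contra h
    have h1 : w S = 0 := if_neg h
    have h2 := t.2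
    simp only [h1, zero_mul, Nat.zero_div] at h2
    exact absurd h2 (Nat.not_lt_zero _)
  let ψ : TIdx (Slot k M) c (Wt M) w → Finset (Slot k M) × Fin (lam M c) := fun x =>
    (x.1, Fin.cast (hn x.1 (hlt x)) x.2)
  have hψ : Function.Injective ψ := by
    rintro ⟨S, t⟩ ⟨S', t'⟩ h
    rw [Prod.mk.injEq] at h
    obtain ⟨h1, h2⟩ := h
    simp only at h1
    subst h1
    congr 1
    exact Fin.ext (congrArg (fun z : Fin (lam M c) => z.val) h2)
  have h1 := (gn_gd (TSys (Slot k M) c) (fun x : TIdx (Slot k M) c (Wt M) w => x.1)).comap ψ hψ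
  rw [tk (by omega) hc hdiv (Slot k M) w hsum hint] at h1
  refine h1.mono fun p hp => ?_
  intro G hG hl
  have h2 : (TSys (Slot k M) c).V (fun x : TIdx (Slot k M) c (Wt M) w => x.1)
      (fun x => p (ψ x)) = ⊥ := Submodule.finrank_eq_zero.1 hp
  have h3 : G ∈ (TSys (Slot k M) c).V (fun x : TIdx (Slot k M) c (Wt M) w => x.1)
      (fun x => p (ψ x)) := by
    rw [mem_TSys]
    rintro ⟨S, t⟩ v
    have hS := hlt ⟨S, t⟩
    simp only at hS
    by_cases hS0 : S = S0 k M
    · subst hS0
      exact hl (Fin.cast (hn _ hS) t) v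
    · exact hG S hS hS0 (Fin.cast (hn S hS) t) v
  rw [h2, Submodule.mem_bot] at h3
  exact h3

theorem exists_omega (hk : k + 1 = M) (hc : 0 < c) (hdiv : (Wt M).factorial ∣ c) :
    ∃ r : ℕ, 0 < r ∧ ∀ q₀ : ℕ, ∃ Ω : PtsQ k M c (M * r * q₀),
      ∀ E : Submodule ℂ ((Fin k → Fin c) → ℂ), E ≠ ⊥ → E ≠ ⊤ →
        ∑ α : Fin M ↪o Fin (M * r * q₀), finrank ℂ (KE (res Ω α) E) + q₀ ^ M ≤
          lam M c * finrank ℂ E * (M * r * q₀).choose M := by
  refine exists_good (by omega) ?_ ?_
  · refine (gen_exact hk hc hdiv).mono fun p hp E => ?_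
    exact KE_le hc hp E
  · intro E h0 h1
    exact strict (tk (by omega) hc hdiv) hk hc hdiv E h0 h1

end Pool.Agent.V7.BE

end

section

/-!
# V7: `PROP M c 0` implies `Crit M`
-/

namespace Pool.Agent.V7

open Finset MvPolynomial Pool.Agent.H51.TB Pool.Agent.V7.ST
open Pool.Agent.H18.Ex (ell ell_mono ell_pos)
open Pool.Agent.H21.NX (gdim)

private theorem Bridge_count {k : ℕ} (m : Fin k → ℕ) (μ : ℕ) :
    ((univ : Finset (Fin k)).val.map fun i => Kd.ord (m i) ∅).count (Kd.ord μ ∅) =
      (univ.filter fun i => m i = μ).card := by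
  rw [Multiset.count_map, ← Finset.filter_val, Finset.card_val]
  congr 1
  refine Finset.filter_congr fun i _ => ?_
  constructor
  · intro h
    exact (Kd.ord.inj h).1.symm
  · intro h
    rw [h]

/-- BRIDGE. -/
theorem crit_of_prop (M c : ℕ) (hM : 2 ≤ M) (h : PROP M c 0) : Pool.Agent.H74.V7.Crit M := by
  classical
  obtain ⟨e, he, n₀, hP⟩ := h
  obtain ⟨ε₁, hε₁, r₁, h₁⟩ := critB_top M (by omega) e he
  obtain ⟨ε₂, hε₂, h₂⟩ := critB_sml M (by omega) e he
  refine ⟨min ε₁ ε₂, lt_min hε₁ hε₂, r₁ + n₀ + 2 * M + 1, fun r hr k m hm htop hsml => ?_⟩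
  obtain ⟨N, hN⟩ : ∃ N, N = (2 * M - 1 + r).choose r := ⟨_, rfl⟩
  have hNnn : (0 : ℝ) ≤ ((2 * M - 1 + r).choose r : ℝ) := Nat.cast_nonneg _
  have hm1 : min ε₁ ε₂ ≤ ε₁ := min_le_left _ _
  have hm2 : min ε₁ ε₂ ≤ ε₂ := min_le_right _ _
  obtain ⟨s, hs⟩ : ∃ s : Multiset Kd,
      s = (univ : Finset (Fin k)).val.map fun i => Kd.ord (m i) ∅ := ⟨_, rfl⟩
  have hcls : Cls M c 0 (r + 1) e (fun τ => s.count τ) := by
    refine ⟨⟨?_, ?_, ?_, ?_⟩, ?_⟩
    · intro τ hτ
      have h3 : τ ∈ s := by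
        by_contra h3
        exact hτ (Multiset.count_eq_zero_of_notMem h3)
      rw [hs] at h3
      obtain ⟨i, _, hi⟩ := Multiset.mem_map.1 h3
      rw [mem_kds, ← hi]
      exact ⟨(hm i).1, (hm i).2, Finset.empty_subset _⟩
    · intro I hI hI'
      rw [Finset.range_zero, Finset.subset_empty] at hI
      exact absurd (hI.trans Finset.range_zero.symm) hI'
    · intro i hi
      exact absurd hi (Nat.not_lt_zero i)
    · intro μ hμ1 hμM I hI
      rw [Finset.range_zero, Finset.subset_empty] at hI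
      subst hI
      have h3 := h₂ r (by omega) μ hμ1 hμM (univ.filter fun i => m i = μ).card (by
        refine le_trans ?_ (hsml.trans (mul_le_mul_of_nonneg_right hm2 hNnn))
        have h4 : (univ.filter fun i => m i = μ).card * ell r μ =
            ∑ i ∈ univ.filter (fun i => m i = μ), ell r (m i) := by
          rw [Finset.sum_congr rfl fun i hi => by rw [(mem_filter.1 hi).2], Finset.sum_const,
            smul_eq_mul]
        rw [h4]
        exact_mod_cast Finset.sum_le_sum_of_subset (fun i hi => by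
          rw [mem_filter] at hi ⊢
          exact ⟨hi.1, by omega⟩))
      rw [hs, Bridge_count]
      simpa using h3
    · have h3 := h₁ r (by omega) (univ.filter fun i => m i = M).card
        (htop.trans (mul_le_mul_of_nonneg_right hm1 hNnn))
      rw [Finset.range_zero, hs, Bridge_count]
      have h4 : nom M c 0 ∅ = 1 / (((2 * M - 1).choose M : ℝ) * (M.factorial : ℝ)) := by
        unfold nom
        simp
      rw [h4]
      exact h3
  have h3 := hP (r + 1) (by omega) s hcls
  have h4 := critA_gdim_le M r (blk c (r + 1)) m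
  rw [gd_eq_gM, ← hs] at h4
  have h5 : vd M c 0 (r + 1) s = (N : ℤ) - ((∑ i, ell r (m i) : ℕ) : ℤ) := by
    unfold vd
    have h6 : bb c (2 * M - 1) 0 (r + 1) = N := by
      have := critA_bb c (2 * M) r (by omega)
      rw [this, hN]
      unfold ell
      rw [show 2 * M + r - 1 = 2 * M - 1 + r by omega]
    have h7 : (s.map (wt M c (r + 1))).sum = ∑ i, ell r (m i) := by
      rw [hs, Multiset.map_map]
      show ∑ i, wt M c (r + 1) (Kd.ord (m i) ∅) = _
      refine Finset.sum_congr rfl fun i _ => ?_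
      show bb c (m i - 1) (∅ : Finset ℕ).card (r + 1) = _
      rw [Finset.card_empty, critA_bb c (m i) r (hm i).1]
    rw [h6, h7]
  have h6 := Pool.Agent.H74.V7.le_gdim r (2 * M - 1) (by omega) m
  rw [h5] at h3
  rw [← hN] at h6 ⊢
  have h7 : (gdim r (2 * M - 1) m : ℤ) ≤ max 0 ((N : ℤ) - ((∑ i, ell r (m i) : ℕ) : ℤ)) :=
    le_trans (by exact_mod_cast h4) h3
  omega

end Pool.Agent.V7

end

section

/-!
# V7, block STEP: exactness on the level `j` from exactness on the level `j + 1`
-/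

set_option autoImplicit false

namespace Pool.Agent.V7

open Finset Pool.Agent.H51.TB Pool.Agent.V7.ST

theorem Cls0.mono {M c j n : ℕ} {e e' : ℝ} {N : Kd → ℕ} (h : Cls0 M c j n e N) (he : e ≤ e') :
    Cls0 M c j n e' N := by
  have hn : ∀ k : ℕ, (0 : ℝ) ≤ (n : ℝ) ^ k := fun k => by positivity
  exact ⟨h.ok, fun I h1 h2 => (h.big I h1 h2).trans (mul_le_mul_of_nonneg_right he (hn _)),
    fun i hi I hI => (h.swp i hi I hI).trans (mul_le_mul_of_nonneg_right (by linarith) (hn _)),
    fun μ h1 h2 I hI => (h.sml μ h1 h2 I hI).trans (mul_le_mul_of_nonneg_right he (hn _))⟩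

/-- Nothing is required about the points of the kind `ord M (range j)`. -/
theorem Cls0.cons_top {M c j n : ℕ} (hM : 1 ≤ M) {e : ℝ} {s : Multiset Kd} :
    Cls0 M c j n e (fun τ => (Kd.ord M (range j) ::ₘ s).count τ) ↔
      Cls0 M c j n e (fun τ => s.count τ) := by
  have h1 : ∀ τ, τ ≠ Kd.ord M (range j) →
      (Kd.ord M (range j) ::ₘ s).count τ = s.count τ := fun τ hτ => Multiset.count_cons_of_ne hτ _
  have h2 : ∀ I, I ≠ range j →
      tot M j (fun τ => (Kd.ord M (range j) ::ₘ s).count τ) I = tot M j (fun τ => s.count τ) I := by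
    intro I hI
    unfold tot
    dsimp only
    rw [h1 _ fun h => hI (Kd.ord.inj h).2]
    congr 1
    exact sum_congr rfl fun i _ => h1 _ fun h => Kd.noConfusion h
  constructor
  · intro h
    refine ⟨fun τ hτ => h.ok τ ?_, fun I hI hI' => ?_, fun i hi I hI => ?_,
      fun μ h3 h4 I hI => ?_⟩
    · by_cases h3 : τ = Kd.ord M (range j)
      · rw [h3, Multiset.count_cons_self]
        omega
      · rw [h1 τ h3]
        exact hτ
    · rw [← h2 I hI']
      exact h.big I hI hI'
    · have h3 := h.swp i hi I hI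
      rwa [h1 _ fun h => Kd.noConfusion h] at h3
    · have h5 := h.sml μ h3 h4 I hI
      rwa [h1 _ fun h => absurd (Kd.ord.inj h).1 h4.ne] at h5
  · intro h
    refine ⟨fun τ hτ => ?_, fun I hI hI' => ?_, fun i hi I hI => ?_,
      fun μ h3 h4 I hI => ?_⟩
    · by_cases h3 : τ = Kd.ord M (range j)
      · rw [h3, mem_kds]
        exact ⟨hM, le_rfl, subset_rfl⟩
      · refine h.ok τ ?_
        rwa [h1 τ h3] at hτ
    · rw [h2 I hI']
      exact h.big I hI hI'
    · have h3 := h.swp i hi I hI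
      rwa [h1 _ fun h => Kd.noConfusion h]
    · have h5 := h.sml μ h3 h4 I hI
      rwa [h1 _ fun h => absurd (Kd.ord.inj h).1 h4.ne]

theorem Cls0.ok' {M c j n : ℕ} {e : ℝ} {s : Multiset Kd}
    (h : Cls0 M c j n e (fun τ => s.count τ)) : ∀ k ∈ s, k.Ok M j := by
  intro k hk
  refine mem_kds.1 (h.ok k ?_)
  exact (Multiset.count_pos.2 hk).ne'

theorem gM_add_le {E ν T : Type} [Fintype E] (S : Sys E ν T) (s : Multiset T) :
    gM S s ≤ Fintype.card E := by
  induction s using Multiset.induction_on with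
  | empty => exact (gM_zero S).le
  | cons t s ih => exact (gM_cons_le S s t).trans ih

/-- STEP, from DH and NUM. -/
theorem step_of (M c j : ℕ) (hj : j + 2 ≤ M) (hc : 0 < c)
    (dh : ∀ (n : ℕ) (sL sO : Multiset Kd) (y a : ℕ), (j + 1) * c + 1 ≤ n →
      (∀ k ∈ sL, k.Ok M j) →
      gM (LS M (blk c (n - c)) j) (sL + Multiset.replicate (y + a) Kd.sm) = 0 →
      gM (LS M (blk c n) j) (sL + sO + Multiset.replicate y (Kd.ord M ∅) +
        Multiset.replicate a Kd.sm) ≤
      gM (LS M (blk c n) (j + 1)) (sL.map (Kd.add j) + sO + Multiset.replicate y (Kd.sw j ∅)))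
    (num : ∀ e' : ℝ, 0 < e' → ∃ e₀ : ℝ, 0 < e₀ ∧ ∀ e : ℝ, 0 < e → e ≤ e₀ → ∀ X : ℕ, ∃ n₁ : ℕ,
      ∀ n : ℕ, n₁ ≤ n → ∀ s : Multiset Kd, Cls0 M c j n (e + 1 / (n : ℝ)) (fun τ => s.count τ) →
      -(bb c (M - 1) j n : ℤ) ≤ vd M c j n s → vd M c j n s < (X + 1) * bb c (M - 1) j n →
      ∀ x, x ≤ X → ∃ sL sO : Multiset Kd,
        s = sL + sO + Multiset.replicate (2 * bb c (M - 1) j (n - c)) (Kd.ord M ∅) ∧
        Cls0 M c j (n - c) (e + 1 / ((n - c : ℕ) : ℝ)) (fun τ => sL.count τ) ∧
        (x : ℤ) * bb c (M - 1) j (n - c) ≤ vd M c j (n - c) sL ∧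
        vd M c j (n - c) sL < (x + 1) * bb c (M - 1) j (n - c) ∧
        ∀ y, y ≤ 2 * bb c (M - 1) j (n - c) → Cls M c (j + 1) n e' (fun τ =>
          (sL.map (Kd.add j) +
            (sO + Multiset.replicate (2 * bb c (M - 1) j (n - c) - y) (Kd.ord M ∅)) +
            Multiset.replicate y (Kd.sw j ∅)).count τ))
    (hO : OJ M c j) (hP : PROP M c (j + 1)) : PROP M c j := by
  obtain ⟨e', he', n₂, hP⟩ := hP
  obtain ⟨eO, heO, n₃, hO⟩ := hO
  obtain ⟨e₀, he₀, hnum⟩ := num e' he'
  obtain ⟨n₄, hn₄⟩ := exists_nat_gt (2 / eO)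
  set e : ℝ := min e₀ (eO / 2) with he
  have hepos : 0 < e := lt_min he₀ (by positivity)
  have hrad : ∀ n : ℕ, n₄ + 1 ≤ n → e + 1 / (n : ℝ) ≤ eO := by
    intro n hn
    have h1 : (2 / eO : ℝ) < n := by
      refine hn₄.trans ?_
      exact_mod_cast hn
    have h2 : (0 : ℝ) < n := lt_trans (by positivity) h1
    have h3 : 1 / (n : ℝ) ≤ eO / 2 := by
      rw [div_le_iff₀ h2]
      rw [div_lt_iff₀ heO] at h1
      linarith
    have h4 : e ≤ eO / 2 := min_le_right _ _
    linarith
  set n₀ : ℕ := n₂ + n₃ + n₄ + 1 + ((j + 1) * c + 1) with hn₀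
  have hjc : j * c ≤ (j + 1) * c := Nat.mul_le_mul_right c (Nat.le_succ j)
  have hjc' : (j + 1) * c = j * c + c := by ring
  obtain ⟨n₅, h⟩ := step_abs c hc (fun n s => gM (LS M (blk c n) j) s)
    (fun n s => gM (LS M (blk c n) (j + 1)) s) (fun n s => vd M c j n s)
    (fun n s => vd M c (j + 1) n s) (fun n => bb c (M - 1) j n)
    (fun n s => Cls0 M c j n (e + 1 / (n : ℝ)) fun τ => s.count τ)
    (fun n s => Cls M c (j + 1) n e' fun τ => s.count τ) Kd.sm (Kd.ord M ∅) (Kd.sw j ∅)
    (Kd.ord M (range j)) (Kd.add j) n₀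
    (fun n hn => bb_pos hc (M - 1) (by omega) (by omega))
    (fun n hn => bb_mono hc (M - 1) (by omega) (Nat.sub_le n c))
    (fun n => ⟨_, fun s => gM_add_le (LS M (blk c n) j) s⟩)
    (fun n s hn hs => vd_le_gM_blk (by omega) hc (by omega) s hs.ok')
    (fun n s a _ => gM_add_sm M (blk c n) (Ex (blk c n) (2 * M - 1) j) s a)
    (fun n s => gM_cons_le (LS M (blk c n) j) s _)
    (fun n s hn => by
      have h1 := gM_le_cons (LS M (blk c n) j) s (Kd.ord M (range j))
      have h2 := size_blk (M := M) (c := c) (j := j) (n := n) (by omega) hc (by omega)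
        (k := Kd.ord M (range j)) ⟨by omega, le_rfl, subset_rfl⟩
      have h3 : wt M c n (Kd.ord M (range j)) = bb c (M - 1) j n := by
        show bb c (M - 1) (range j).card n = _
        rw [card_range]
      rw [h3] at h2
      exact h1.trans (Nat.add_le_add_left h2 _))
    (fun n s => gM_submod (LS M (blk c n) j) s _ _)
    (fun n s _ => by
      have h3 : wt M c n (Kd.ord M (range j)) = bb c (M - 1) j n := by
        show bb c (M - 1) (range j).card n = _
        rw [card_range]
      unfold vd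
      rw [Multiset.map_cons, Multiset.sum_cons, h3]
      push_cast
      ring)
    (fun n s => Cls0.cons_top (by omega))
    (fun n s hn hs hns => hO n (by omega) s (hs.mono (hrad n (by omega))) hns)
    (fun n sL sO y a hn hs h0 => dh n sL sO y a (by omega)
      (fun k hk => hs.ok' k (Multiset.mem_add.2 (Or.inl (Multiset.mem_add.2 (Or.inl hk))))) h0)
    (fun n s hn hs => hP n (by omega) s hs)
    (fun n sL sO y hn hs => vd_res hc (by omega) sL sO y
      (fun k hk => hs.ok' k (Multiset.mem_add.2 (Or.inl (Multiset.mem_add.2 (Or.inl hk))))))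
    (hnum e hepos (min_le_left _ _))
  refine ⟨e, hepos, n₅, fun n hn s hs => h n hn s (hs.toCls0.mono ?_)⟩
  have h1 : (0 : ℝ) ≤ 1 / (n : ℝ) := by positivity
  linarith

end Pool.Agent.V7

end
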