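import Pool.Agent.H94.LP7.M130
import Pool.Agent.H94.LP7.M135
import Pool.Agent.H94.LP7.M137

/-! The parts of this file: H51.TB.Fin_1, H74.V7.Fin_1, H74.V7.FinB, H74.V7.FinC_1. -/

section

/-!
# Project TB: final theorems
-/

namespace Pool.Agent.H51.TB

open Finset MvPolynomial Pool.Agent.H18.Fat Pool.Agent.H18.Ex Pool.Agent.H21.NX

/-- Bounded multiplicities. -/
theorem bounded (η : ℝ) (hη : 0 < η) : ∃ C : ℝ, 0 < C ∧ ∃ r₀ K : ℕ → ℕ, ∀ r M d k : ℕ, 1 ≤ r →
    1 ≤ M → ∀ m : Fin k → ℕ, (∀ i, 1 ≤ m i ∧ m i ≤ M) →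
    (C * M * (1 + (M : ℝ) / r) ^ 3 * (M : ℝ) ^ (22 / (r : ℝ)) ≤ d ∨
      (r₀ M ≤ r ∧ 2 * M ≤ d) ∨
      (r₀ M ≤ r ∧ 2 * M ≤ d + 1 ∧
        (((univ.filter fun i => m i = M).card * (M + r - 1).choose r : ℕ) : ℝ) ≤
          (1 - η) * ((d + r).choose r : ℝ)) ∨
      (r₀ M ≤ r ∧ 2 * M ≤ d + 1 ∧ ∃ μ, 1 ≤ μ ∧ 2 * μ + M ≤ d + 1 ∧
        K M * r ^ (d - μ) ≤ (univ.filter fun i => m i = μ).card)) →
    ForGeneralPoints r k fun p => ImposesMaximalConditions r d p m := by
  obtain ⟨C, hC, h1⟩ := Pool.Agent.H21.NX.region_real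
  choose r₁ K h2 using Pool.Agent.H21.NX.exact_high
  choose R hR using fun d => pairs_all d (min η 1) (lt_min hη one_pos)
  have key : ∀ M r d k : ℕ, r₁ M + (range (3 * M)).sup R ≤ r → 2 * M ≤ d + 1 →
      ∀ m : Fin k → ℕ, (∀ i, 1 ≤ m i ∧ m i ≤ M) →
      (2 * M ≤ d ∨ (((univ.filter fun i => m i = M).card * (M + r - 1).choose r : ℕ) : ℝ) ≤
          (1 - η) * ((d + r).choose r : ℝ)) →
      ForGeneralPoints r k fun p => ImposesMaximalConditions r d p m := by
    intro M r d k hr hd m hm hcase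
    by_cases h3 : 3 * M ≤ d + 1
    · exact h2 M r d (by omega) hd k m (fun i => (hm i).2) (Or.inl h3)
    · have hRd : R d ≤ (range (3 * M)).sup R := le_sup (f := R) (mem_range.2 (by omega))
      refine hR d r (by omega) k m (fun i => (hm i).1) (fun i j _ => ?_) ?_
      · have := (hm i).2
        have := (hm j).2
        omega
      · have hN : (0 : ℝ) ≤ ((d + r).choose r : ℝ) := Nat.cast_nonneg _
        have e1 : min η 1 ≤ η := min_le_left _ _
        have e2 : min η 1 ≤ 1 := min_le_right _ _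
        by_cases h4 : 2 * M ≤ d
        · have hempty : (univ.filter fun i => 2 * m i = d + 1) = ∅ := by
            rw [filter_eq_empty_iff]
            intro i _ hi
            have := (hm i).2
            omega
          rw [hempty, sum_empty, Nat.cast_zero]
          nlinarith
        · rcases hcase with h5 | h5
          · exact absurd h5 h4
          · have hf : (univ.filter fun i => 2 * m i = d + 1) = univ.filter fun i => m i = M := by
              refine filter_congr fun i _ => ?_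
              constructor <;> intro h <;> omega
            have hs : ∑ i ∈ univ.filter (fun i => 2 * m i = d + 1), ell r (m i) =
                (univ.filter fun i => m i = M).card * (M + r - 1).choose r := by
              rw [hf]
              rw [sum_congr rfl (g := fun _ => (M + r - 1).choose r)]
              · rw [sum_const, smul_eq_mul]
              · intro i hi
                rw [(mem_filter.1 hi).2]
                rfl
            rw [hs]
            refine h5.trans ?_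
            nlinarith
  refine ⟨C, hC, fun M => r₁ M + (range (3 * M)).sup R, K, fun r M d k hr hM m hm hcase => ?_⟩
  rcases hcase with h | ⟨h3, h4⟩ | ⟨h3, h4, h5⟩ | ⟨h3, h4, h5⟩
  · exact h1 r M hr hM d h k m (fun i => (hm i).2)
  · exact key M r d k h3 (by omega) m hm (Or.inl h4)
  · exact key M r d k h3 h4 m hm (Or.inr h5)
  · have h6 : r₁ M + (range (3 * M)).sup R ≤ r := h3
    exact h2 M r d (by omega) h4 k m (fun i => (hm i).2) (Or.inr h5)

end Pool.Agent.H51.TB

end

section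

/-!
# The critical degree `d = 2 M - 1`: from the critical density to all tuples

`Crit M`: in degree `2 M - 1` and for `r` large the dimension is the expected one if the `M`-fold
points carry between `(1 - ε) N` and `(1 + ε) N` conditions and the others at most `ε N`,
`N = binom(2 M - 1 + r, r)`.  Then this holds for all tuples with multiplicities at most `M`.
-/

namespace Pool.Agent.H74.V7

open Finset MvPolynomial Pool.Agent.H18.Fat Pool.Agent.H18.Ex Pool.Agent.H21.NX Pool.Agent.H74.SC.WinD Pool.Agent.H21.NX.GenBX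

/-- All tuples with multiplicities at most `M` in degree `2 M - 1`. -/
theorem crit_all (M : ℕ) (hM : 1 ≤ M) (hc : Crit M) : ∃ r₀ : ℕ, ∀ r, r₀ ≤ r → ∀ (k : ℕ)
    (m : Fin k → ℕ), (∀ i, 1 ≤ m i ∧ m i ≤ M) →
    ForGeneralPoints r k fun p => ImposesMaximalConditions r (2 * M - 1) p m := by
  classical
  obtain ⟨ε, hε, r₁, h1⟩ := hc
  obtain ⟨C, hC, r₂, K, h2⟩ := Pool.Agent.H51.TB.bounded (ε / 2) (by linarith)
  obtain ⟨r₃, h3⟩ := ell_small M hM (ε / 2) (by linarith)
  refine ⟨r₁ + r₂ M + r₃ + 1, fun r hr k m hm => ?_⟩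
  have hr1 : 1 ≤ r := by omega
  have hsub := fun S : Finset (Fin k) => h1 r (by omega) S.card
    (fun i => m (S.equivFin.symm i)) (fun i => hm _)
  obtain ⟨N, hN⟩ : ∃ N, N = (2 * M - 1 + r).choose r := ⟨_, rfl⟩
  obtain ⟨ℓ, hℓ⟩ : ∃ ℓ, ℓ = ell r M := ⟨_, rfl⟩
  have hsmall : (ℓ : ℝ) ≤ ε / 2 * N := by
    rw [hℓ, hN]
    exact h3 r (by omega)
  have hNnn : (0 : ℝ) ≤ N := Nat.cast_nonneg _
  have hℓpos : 1 ≤ ℓ := by
    rw [hℓ]
    exact ell_pos r hM
  rw [← hN, ← hℓ] at hsub
  obtain ⟨A, hA⟩ : ∃ A : Finset (Fin k), A = univ.filter fun i => m i = M := ⟨_, rfl⟩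
  by_cases hlow : ((A.card * ℓ : ℕ) : ℝ) ≤ (1 - ε / 2) * N
  · refine h2 r M (2 * M - 1) k hr1 hM m hm (Or.inr (Or.inr (Or.inl ⟨by omega, by omega, ?_⟩)))
    rw [hA, hℓ, hN] at hlow
    exact hlow
  push Not at hlow
  have hsumS : ∀ S : Finset (Fin k), (∀ i ∈ S, m i = M) →
      ∑ i ∈ S, ell r (m i) = S.card * ℓ := by
    intro S hS
    rw [Finset.sum_congr rfl fun i hi => by rw [hS i hi], Finset.sum_const, smul_eq_mul, hℓ]
  -- a subfamily which kills everything
  have hkill : ∀ S : Finset (Fin k),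
      |((((S.filter fun i => m i = M).card * ℓ : ℕ) : ℝ)) - N| ≤ ε * N →
      ((∑ i ∈ S.filter fun i => m i < M, ell r (m i) : ℕ) : ℝ) ≤ ε * N →
      (N : ℝ) ≤ ((∑ i ∈ S, ell r (m i) : ℕ) : ℝ) →
      ForGeneralPoints r k fun p => ImposesMaximalConditions r (2 * M - 1) p m := by
    intro S hS1 hS2 hS3
    have h5 := hsub S (by rw [card_filter_sub S fun i => m i = M]; exact hS1) (by
      rw [sum_filter_sub S (fun i => m i < M) fun i => ell r (m i)]
      exact hS2)
    rw [sum_sub S fun i => ell r (m i)] at h5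
    have h6 : N ≤ ∑ i ∈ S, ell r (m i) := by exact_mod_cast hS3
    have h7 := gdim_zero_of_sub r (2 * M - 1) m S (by omega)
    have h8 : ∑ i ∈ S, ell r (m i) ≤ ∑ i, ell r (m i) :=
      Finset.sum_le_sum_of_subset (Finset.subset_univ S)
    refine max_of_gdim r (2 * M - 1) m ?_
    rw [← hN]
    omega
  by_cases hover : N < A.card * ℓ
  · -- case A
    obtain ⟨S, hS, hcard⟩ := Finset.exists_subset_card_eq
      (show N / ℓ + 1 ≤ A.card from (Nat.div_lt_iff_lt_mul hℓpos).2 hover)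
    have hSM : ∀ i ∈ S, m i = M := fun i hi => by
      have := hS hi
      rw [hA, mem_filter] at this
      exact this.2
    have hf1 : S.filter (fun i => m i = M) = S := Finset.filter_true_of_mem hSM
    have hf2 : S.filter (fun i => m i < M) = ∅ := by
      rw [Finset.filter_eq_empty_iff]
      intro i hi
      have := hSM i hi
      omega
    have hd1 : N < (N / ℓ + 1) * ℓ := by
      have := Nat.lt_div_mul_add (a := N) hℓpos
      rw [Nat.add_mul, Nat.one_mul]
      exact this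
    have hd2 : (N / ℓ + 1) * ℓ ≤ N + ℓ := by
      rw [Nat.add_mul, Nat.one_mul]
      have := Nat.div_mul_le_self N ℓ
      omega
    have hd1' : (N : ℝ) < (((N / ℓ + 1) * ℓ : ℕ) : ℝ) := by exact_mod_cast hd1
    have hd2' : (((N / ℓ + 1) * ℓ : ℕ) : ℝ) ≤ N + ℓ := by exact_mod_cast hd2
    refine hkill S ?_ ?_ ?_
    · rw [hf1, hcard, abs_le]
      constructor <;> nlinarith
    · rw [hf2, Finset.sum_empty, Nat.cast_zero]
      positivity
    · rw [hsumS S hSM, hcard]
      exact hd1'.le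
  · push Not at hover
    have hover' : ((A.card * ℓ : ℕ) : ℝ) ≤ N := by exact_mod_cast hover
    have habs : |((A.card * ℓ : ℕ) : ℝ) - N| ≤ ε * N := by
      rw [abs_le]
      constructor <;> nlinarith
    by_cases hQ : ((∑ i ∈ univ.filter fun i => m i < M, ell r (m i) : ℕ) : ℝ) ≤ ε * N
    · -- directly
      have h5 := h1 r (by omega) k m hm (by rw [← hN, ← hℓ, ← hA]; exact habs)
        (by rw [← hN]; exact hQ)
      exact max_of_gdim r (2 * M - 1) m h5
    · push Not at hQ
      obtain ⟨T, hT, hT1, hT2⟩ := exists_sub_sum (fun i => ell r (m i)) ℓ (ε * N) (by positivity)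
        (univ.filter fun i => m i < M) (fun i _ => by rw [hℓ]; exact ell_mono r (hm i).2) hQ
      have hTM : ∀ i ∈ T, m i < M := fun i hi => (mem_filter.1 (hT hi)).2
      have hAM : ∀ i ∈ A, m i = M := fun i hi => by
        rw [hA, mem_filter] at hi
        exact hi.2
      have hdisj : Disjoint A T := by
        rw [Finset.disjoint_left]
        intro i hi hi'
        have := hAM i hi
        have := hTM i hi'
        omega
      have hf1 : (A ∪ T).filter (fun i => m i = M) = A := by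
        rw [Finset.filter_union, Finset.filter_true_of_mem hAM, Finset.filter_false_of_mem
          (fun i hi => (hTM i hi).ne), Finset.union_empty]
      have hf2 : (A ∪ T).filter (fun i => m i < M) = T := by
        rw [Finset.filter_union, Finset.filter_true_of_mem hTM, Finset.filter_false_of_mem
          (fun i hi => by rw [hAM i hi]; exact lt_irrefl _), Finset.empty_union]
      refine hkill (A ∪ T) ?_ ?_ ?_
      · rw [hf1]
        exact habs
      · rw [hf2]
        exact hT1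
      · rw [Finset.sum_union hdisj, hsumS A hAM, Nat.cast_add]
        nlinarith

end Pool.Agent.H74.V7

end

section

/-!
# The final theorems from `Crit M`

* `exact_crit`: for `r ≥ r₀(M)` no tuple with multiplicities at most `M` fails in degree `2 M - 1`;
* `bounded_final`: bounded multiplicities, all degrees `d ≥ 2 M - 1`;
* `fixed_final`: fixed degree, all tuples with `m_i + m_j ≤ d + 1`.
-/

namespace Pool.Agent.H74.V7

open Finset MvPolynomial Pool.Agent.H18.Fat Pool.Agent.H18.Ex Pool.Agent.H21.NX Pool.Agent.H74.SC.WinD Pool.Agent.H21.NX.GenBX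

/-- Simple points. -/
theorem simple_exact (r d : ℕ) (hr : 1 ≤ r) {k : ℕ} (m : Fin k → ℕ) (hm : ∀ i, m i ≤ 1) :
    gdim r d m = (d + r).choose r - ∑ i, ell r (m i) := by
  have h1 := le_gdim r d hr m
  have hℓ : ell r 1 - 1 = 0 := by
    unfold ell
    rw [show 1 + r - 1 = r by omega, Nat.choose_self]
  by_cases h0 : gdim r d m = 0
  · omega
  · have h2 := alive r d hr 1 (by omega) (Fin k) m hm (by
      intro h3
      apply h0
      have : IsEmpty (Fin (ell r 1 - 1)) := by
        rw [hℓ]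
        infer_instance
      have h4 := gdim_comp_equiv r d (Equiv.sumEmpty (Fin k) (Fin (ell r 1 - 1))).symm
        (Sum.elim m fun _ : Fin (ell r 1 - 1) => 1)
      have h5 : (fun i => Sum.elim m (fun _ : Fin (ell r 1 - 1) => 1)
          ((Equiv.sumEmpty (Fin k) (Fin (ell r 1 - 1))).symm i)) = m := by
        funext i
        rfl
      rw [h5, h3] at h4
      exact h4)
    omega

/-- No tuple with multiplicities at most `M` fails in degree `2 M - 1`, `r ≥ r₀(M)`. -/
theorem exact_crit (hc : ∀ M, 2 ≤ M → Crit M) (M : ℕ) (hM : 1 ≤ M) : ∃ r₀ : ℕ, ∀ r, r₀ ≤ r →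
    ∀ (k : ℕ) (m : Fin k → ℕ), (∀ i, 1 ≤ m i ∧ m i ≤ M) →
    ForGeneralPoints r k fun p => ImposesMaximalConditions r (2 * M - 1) p m := by
  rcases Nat.lt_or_ge 1 M with h | h
  · exact crit_all M hM (hc M h)
  · refine ⟨1, fun r hr k m hm => max_of_gdim r _ m (simple_exact r _ hr m fun i => ?_)⟩
    have := (hm i).2
    omega

/-- Bounded multiplicities. -/
theorem bounded_final (hc : ∀ M, 2 ≤ M → Crit M) : ∃ C : ℝ, 0 < C ∧ ∃ r₀ : ℕ → ℕ,
    ∀ r M d k : ℕ, 1 ≤ r → 1 ≤ M → ∀ m : Fin k → ℕ, (∀ i, 1 ≤ m i ∧ m i ≤ M) →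
    (C * M * (1 + (M : ℝ) / r) ^ 3 * (M : ℝ) ^ (22 / (r : ℝ)) ≤ d ∨
      (r₀ M ≤ r ∧ 2 * M ≤ d + 1)) →
    ForGeneralPoints r k fun p => ImposesMaximalConditions r d p m := by
  obtain ⟨C, hC, r₁, K, h1⟩ := Pool.Agent.H51.TB.bounded 1 one_pos
  have h2 : ∀ M : ℕ, ∃ r₂ : ℕ, 1 ≤ M → ∀ r, r₂ ≤ r → ∀ (k : ℕ) (m : Fin k → ℕ),
      (∀ i, 1 ≤ m i ∧ m i ≤ M) →
      ForGeneralPoints r k fun p => ImposesMaximalConditions r (2 * M - 1) p m := by
    intro M
    by_cases hM : 1 ≤ M
    · obtain ⟨r₂, h⟩ := exact_crit hc M hM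
      exact ⟨r₂, fun _ => h⟩
    · exact ⟨0, fun h => absurd h hM⟩
  choose r₂ h2 using h2
  refine ⟨C, hC, fun M => r₁ M + r₂ M, fun r M d k hr hM m hm hcase => ?_⟩
  rcases hcase with h | ⟨h3, h4⟩
  · exact h1 r M d k hr hM m hm (Or.inl h)
  · have h3' : r₁ M + r₂ M ≤ r := h3
    by_cases h5 : 2 * M ≤ d
    · exact h1 r M d k hr hM m hm (Or.inr (Or.inl ⟨by omega, h5⟩))
    · have h6 := h2 M hM r (by omega) k m hm
      rwa [show 2 * M - 1 = d by omega] at h6

/-- Fixed degree, pair sums at most `d + 1`. -/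
theorem fixed_final (hc : ∀ M, 2 ≤ M → Crit M) (d : ℕ) : ∃ r₀ : ℕ, ∀ r : ℕ, r₀ ≤ r → ∀ (k : ℕ)
    (m : Fin k → ℕ), (∀ i, 1 ≤ m i) → (∀ i j, i ≠ j → m i + m j ≤ d + 1) →
    ForGeneralPoints r k fun p => ImposesMaximalConditions r d p m := by
  obtain ⟨r₁, K, h₁⟩ := Pool.Agent.H51.TB.fixed_one d 1 one_pos
  obtain ⟨r₂, h₂⟩ : ∃ r₂ : ℕ, ∀ M, 2 * M = d + 1 → ∀ r, r₂ ≤ r → ∀ (k : ℕ) (m : Fin k → ℕ),
      (∀ i, 1 ≤ m i ∧ m i ≤ M) →
      ForGeneralPoints r k fun p => ImposesMaximalConditions r d p m := by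
    by_cases hd : ∃ M, 2 * M = d + 1
    · obtain ⟨M, hM⟩ := hd
      obtain ⟨r₂, h⟩ := exact_crit hc M (by omega)
      refine ⟨r₂, fun M' hM' r hr k m hm => ?_⟩
      have h6 := h r hr k m fun i => ⟨(hm i).1, (hm i).2.trans (by omega)⟩
      rwa [show 2 * M - 1 = d by omega] at h6
    · exact ⟨0, fun M hM => absurd ⟨M, hM⟩ hd⟩
  refine ⟨r₁ + r₂, fun r hr k m hm hp => ?_⟩
  by_cases hne : (univ.filter fun i => 2 * m i = d + 1).Nonempty
  · obtain ⟨i₀, hi₀⟩ := hne
    rw [mem_filter] at hi₀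
    refine h₂ (m i₀) hi₀.2 r (by omega) k m fun i => ⟨hm i, ?_⟩
    by_cases hi : i = i₀
    · rw [hi]
    · have := hp i i₀ hi
      omega
  · rw [Finset.not_nonempty_iff_eq_empty] at hne
    refine h₁ r (by omega) k m hm hp (Or.inl ?_)
    rw [hne, sum_empty, Nat.cast_zero]
    simp

end Pool.Agent.H74.V7

end

section

/-!
# The set of the pairs `(r, d)` with a failing tuple

`final_set`: if `Crit M` holds for all `M ≥ 2`, then for every `M ≥ 1` there is a finite set `S` of pairs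
`(r, d)` such that for all `(r, d) ∉ S`, `r ≥ 2`, there is a failing tuple with multiplicities at most
`M` if and only if `2 ≤ d ≤ 2 M - 2`.
-/

namespace Pool.Agent.H74.V7

open Finset MvPolynomial Pool.Agent.H18.Fat Pool.Agent.H18.Ex Pool.Agent.H21.NX Pool.Agent.H21.NX.GenBX

/-- Degrees `0` and `1`. -/
theorem low_degree (r d k : ℕ) (hr : 1 ≤ r) (hd : d ≤ 1) (m : Fin k → ℕ) :
    ForGeneralPoints r k fun p => ImposesMaximalConditions r d p m := by
  by_cases hall : ∀ i, m i ≤ d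
  · exact max_of_gdim r d m (simple_exact r d hr m fun i => (hall i).trans hd)
  · push Not at hall
    obtain ⟨i, hi⟩ := hall
    refine max_of_gdim r d m ?_
    obtain ⟨p, hp⟩ := gdim_attained r d m
    have h0 := Pool.Agent.H21.HD.MainX.big_mult p m i hi
    rw [hp] at h0
    rw [h0]
    have h1 : (d + r).choose r ≤ ell r (m i) := by
      unfold ell
      exact Nat.choose_le_choose r (by omega)
    have h2 : ell r (m i) ≤ ∑ i, ell r (m i) :=
      Finset.single_le_sum (f := fun i => ell r (m i)) (fun _ _ => Nat.zero_le _)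
        (Finset.mem_univ i)
    omega

/-- The pairs `(r, d)` with a failing tuple with multiplicities at most `M`. -/
theorem final_set (hc : ∀ M, 2 ≤ M → Crit M) (M : ℕ) (hM : 1 ≤ M) : ∃ S : Finset (ℕ × ℕ),
    ∀ r d : ℕ, 1 ≤ r → (r, d) ∉ S →
      ((d ≤ 1 ∨ 2 * M ≤ d + 1) → ∀ (k : ℕ) (m : Fin k → ℕ), (∀ i, 1 ≤ m i ∧ m i ≤ M) →
        ForGeneralPoints r k fun p => ImposesMaximalConditions r d p m) ∧
      (2 ≤ r → 2 ≤ d → d + 2 ≤ 2 * M → ∃ m : Fin 2 → ℕ, (∀ i, 1 ≤ m i ∧ m i ≤ M) ∧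
        ForGeneralPoints r 2 fun p => ¬ ImposesMaximalConditions r d p m) := by
  classical
  obtain ⟨C, hC, r₀, h⟩ := bounded_final hc
  -- for every `r` a bound for the degree
  let D : ℕ → ℕ := fun r => ⌈C * M * (1 + (M : ℝ) / r) ^ 3 * (M : ℝ) ^ (22 / (r : ℝ))⌉₊
  refine ⟨(Finset.range (r₀ M)).sigma (fun r => Finset.range (D r)) |>.image
    (fun x => (x.1, x.2)), fun r d hr hS => ⟨fun hd k m hm => ?_, fun hr2 hd1 hd2 =>
      two_fail r d M hr2 hd1 hd2⟩⟩
  by_cases hd1 : d ≤ 1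
  · exact low_degree r d k hr hd1 m
  · have hd2 : 2 * M ≤ d + 1 := by omega
    refine h r M d k hr hM m hm ?_
    by_cases hr0 : r₀ M ≤ r
    · exact Or.inr ⟨hr0, hd2⟩
    · left
      have h1 : D r ≤ d := by
        by_contra h2
        apply hS
        rw [Finset.mem_image]
        have h3 : r ∈ Finset.range (r₀ M) := Finset.mem_range.2 (by omega)
        have h4 : d ∈ Finset.range (D r) := Finset.mem_range.2 (by omega)
        exact ⟨⟨r, d⟩, Finset.mem_sigma.2 ⟨h3, h4⟩, rfl⟩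
      have h2 : (D r : ℝ) ≤ d := by exact_mod_cast h1
      exact (Nat.le_ceil _).trans h2

end Pool.Agent.H74.V7

end
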