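import Pool.Agent.H94.LP7.M117
import Pool.Agent.H94.LP7.M118

/-! The parts of this file: V7.AL.N1, V7.AL.N5, V7.AL.NumB. -/

section

/-!
# V7, block ALPHA: the virtual dimension on the top level of the chain
-/

set_option autoImplicit false

namespace Pool.Agent.V7

open Finset Pool.Agent.H51.TB Pool.Agent.V7.ST

open Classical in
/-- The number of `M - 1`-sets which do not contain `range j`. -/
theorem card_top_ord (M j : ℕ) (hM : 2 ≤ M) (hj : j < M) :
    ((kds M (2 * M - 1)).filter fun k => ∃ I, k = Kd.ord M I ∧ I.card = M - 1 ∧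
      ¬ range j ⊆ I).card + 1 ≤ (2 * M - 1).choose M := by

  have h1 : ((kds M (2 * M - 1)).filter fun k => ∃ I, k = Kd.ord M I ∧ I.card = M - 1 ∧
      ¬ range j ⊆ I) ⊆ (((range (2 * M - 1)).powersetCard (M - 1)).erase (range (M - 1))).image
        (Kd.ord M) := by
    intro k hk
    rw [mem_filter] at hk
    obtain ⟨h2, I, rfl, h3, h4⟩ := hk
    rw [mem_kds] at h2
    rw [mem_image]
    refine ⟨I, ?_, rfl⟩
    rw [mem_erase, mem_powersetCard]
    refine ⟨?_, h2.2.2, h3⟩
    rintro rfl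
    exact h4 (range_subset_range.2 (by omega))
  have h2 := (card_le_card h1).trans card_image_le
  have h3 : range (M - 1) ∈ (range (2 * M - 1)).powersetCard (M - 1) := by
    rw [mem_powersetCard, card_range]
    exact ⟨range_subset_range.2 (by omega), rfl⟩
  have h4 := card_erase_add_one h3
  rw [card_powersetCard, card_range] at h4
  have h5 : (2 * M - 1).choose (M - 1) = (2 * M - 1).choose M :=
    Nat.choose_symm_of_eq_add (by omega)
  omega

open Classical in
/-- The bound for one kind. -/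
theorem nmb_wt_top {M c j n ν : ℕ} (hM : 2 ≤ M) (hc : 1 ≤ c) (hn : (2 * M - 1) * c ≤ n) {k : Kd}
    (hk : k ∈ kds M (2 * M - 1)) :
    nmb M c j (2 * M - 1) ν k * wt M c n k ≤
      (if ∃ I, k = Kd.ord M I ∧ I.card = M - 1 ∧ ¬ range j ⊆ I then
        c ^ M / (2 * M - 1).choose M * c ^ (M - 1) else 0) + 3 * c ^ (2 * M - 2) := by

  by_cases h0 : k ∈ kds M (2 * M - 1) ∧ k.In M j ∧ 2 * M - 1 ≤ dgr M k
  swap
  · rw [nmb_neg h0, zero_mul]
    exact Nat.zero_le _
  rw [nmb_pos h0.1 h0.2.1 h0.2.2]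
  have hok := mem_kds.1 hk
  have hpow : c ^ (M - 1) * c ^ (M - 1) = c ^ (2 * M - 2) := by
    rw [← pow_add]
    congr 1
    omega
  have hcard : ∀ I : Finset ℕ, I ⊆ range (2 * M - 1) → I.card * c ≤ n := by
    intro I hI
    have h1 := card_le_card hI
    rw [card_range] at h1
    exact (Nat.mul_le_mul_right c h1).trans hn
  cases k with
  | ord μ I =>
    obtain ⟨h1, h2, h3⟩ := hok
    have h4 : 2 * M - 1 ≤ 2 * M - μ + I.card := h0.2.2
    show rho M c (Kd.ord μ I) * (ν - (2 * M - 1 - j)).choose (2 * M - μ + I.card - (2 * M - 1)) *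
      bb c (μ - 1) I.card n ≤ _
    rcases Nat.lt_or_ge (μ - 1) I.card with h5 | h5
    · rw [bb_zero c _ _ n (hcard I h3) h5, mul_zero]
      exact Nat.zero_le _
    · have h6 : I.card = μ - 1 := by omega
      have h7 : 2 * M - μ + I.card - (2 * M - 1) = 0 := by omega
      rw [h7, Nat.choose_zero_right, mul_one, h6, bb_self c _ n (h6 ▸ hcard I h3)]
      by_cases h8 : μ = M
      · subst h8
        have h9 : ∃ I', Kd.ord μ I = Kd.ord μ I' ∧ I'.card = μ - 1 ∧ ¬ range j ⊆ I' :=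
          ⟨I, rfl, h6, h0.2.1 rfl⟩
        rw [if_pos h9]
        show (if μ = μ then c ^ μ / (2 * μ - 1).choose μ + c ^ (μ - 1) else 1) * c ^ (μ - 1) ≤ _
        rw [if_pos rfl, add_mul, hpow]
        omega
      · show (if μ = M then c ^ M / (2 * M - 1).choose M + c ^ (M - 1) else 1) * c ^ (μ - 1) ≤ _
        rw [if_neg h8, one_mul]
        have h9 : c ^ (μ - 1) ≤ c ^ (2 * M - 2) := Nat.pow_le_pow_right hc (by omega)
        omega
  | sw i I =>
    obtain ⟨h1, h3'⟩ := hok
    have h3 : I ⊆ range (2 * M - 1) := fun x hx => mem_range.2 (mem_Ico.1 (h3' hx)).2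
    have h4 : 2 * M - 1 ≤ M + I.card := h0.2.2
    show 3 * c ^ (M - 1) * (ν - (2 * M - 1 - j)).choose (M + I.card - (2 * M - 1)) *
      (bb c (M - 1) I.card n - if I = ∅ then 1 else 0) ≤ _
    rcases Nat.lt_or_ge (M - 1) I.card with h5 | h5
    · rw [bb_zero c _ _ n (hcard I h3) h5, Nat.zero_sub, mul_zero]
      exact Nat.zero_le _
    · have h6 : I.card = M - 1 := by omega
      have h7 : M + I.card - (2 * M - 1) = 0 := by omega
      rw [h7, Nat.choose_zero_right, mul_one, h6, bb_self c _ n (h6 ▸ hcard I h3)]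
      have h8 : 3 * c ^ (M - 1) * (c ^ (M - 1) - if I = ∅ then 1 else 0) ≤ 3 * c ^ (2 * M - 2) := by
        rw [← hpow, ← mul_assoc]
        exact Nat.mul_le_mul_left _ (Nat.sub_le _ _)
      omega

/-- N1 (helper72), file AL/N1.lean -/
theorem top_low (M j : ℕ) (hM : 2 ≤ M) (hj : j < M) : ∃ c₀ : ℕ, ∀ c, c₀ ≤ c →
    (2 * M - 1).choose M ∣ c → ∀ n ν, (2 * M - 1) * c ≤ n →
    ((c ^ (2 * M - 1) : ℕ) : ℤ) ≤
      2 * ((2 * M - 1).choose M : ℤ) * vd M c (2 * M - 1) n (cfg M c j (2 * M - 1) ν) := by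
  classical

  refine ⟨6 * (2 * M - 1).choose M * (kds M (2 * M - 1)).card + 1, fun c hc hdiv n ν hn => ?_⟩
  have hc1 : 1 ≤ c := by omega
  obtain ⟨m, hm⟩ := hdiv
  set C := (2 * M - 1).choose M with hC
  set K := (kds M (2 * M - 1)).card with hK
  have hCpos : 0 < C := Nat.choose_pos (by omega)
  -- the sum of the weights
  have hsum : ((cfg M c j (2 * M - 1) ν).map (wt M c n)).sum ≤
      (C - 1) * (c ^ M / C * c ^ (M - 1)) + K * (3 * c ^ (2 * M - 2)) := by
    have e1 : ((cfg M c j (2 * M - 1) ν).map (wt M c n)).sum =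
        ∑ k ∈ kds M (2 * M - 1), nmb M c j (2 * M - 1) ν k * wt M c n k := by
      unfold cfg
      have e : (∑ k ∈ kds M (2 * M - 1), Multiset.replicate (nmb M c j (2 * M - 1) ν k) k).map
          (wt M c n) = ∑ k ∈ kds M (2 * M - 1),
            (Multiset.replicate (nmb M c j (2 * M - 1) ν k) k).map (wt M c n) :=
        map_sum (Multiset.mapAddMonoidHom (wt M c n)) _ _
      rw [e]
      have e2 : (∑ k ∈ kds M (2 * M - 1),
          (Multiset.replicate (nmb M c j (2 * M - 1) ν k) k).map (wt M c n)).sum =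
          ∑ k ∈ kds M (2 * M - 1),
            ((Multiset.replicate (nmb M c j (2 * M - 1) ν k) k).map (wt M c n)).sum :=
        map_sum (Multiset.sumAddMonoidHom : Multiset ℕ →+ ℕ) _ _
      rw [e2]
      refine Finset.sum_congr rfl fun k _ => ?_
      rw [Multiset.map_replicate, Multiset.sum_replicate, smul_eq_mul]
    rw [e1]
    refine (Finset.sum_le_sum fun k hk => nmb_wt_top (j := j) (ν := ν) hM hc1 hn hk).trans ?_
    rw [Finset.sum_add_distrib, Finset.sum_const, smul_eq_mul, ← Finset.sum_filter,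
      Finset.sum_const, smul_eq_mul]
    have h1 := card_top_ord M j hM hj
    have h2 : ((kds M (2 * M - 1)).filter fun k => ∃ I, k = Kd.ord M I ∧ I.card = M - 1 ∧
        ¬ range j ⊆ I).card ≤ C - 1 := by omega
    exact Nat.add_le_add_right (Nat.mul_le_mul_right _ h2) _
  have hCM : C * (c ^ M / C) = c ^ M := by
    refine Nat.mul_div_cancel' ?_
    exact (Dvd.intro m hm.symm).trans (dvd_pow_self c (by omega))
  have hp1 : c ^ M * c ^ (M - 1) = c ^ (2 * M - 1) := by
    rw [← pow_add]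
    congr 1
    omega
  have hp2 : c ^ (2 * M - 1) = c * c ^ (2 * M - 2) := by
    rw [← pow_succ']
    congr 1
    omega
  have hvd : vd M c (2 * M - 1) n (cfg M c j (2 * M - 1) ν) =
      ((c ^ (2 * M - 1) : ℕ) : ℤ) - (((cfg M c j (2 * M - 1) ν).map (wt M c n)).sum : ℕ) := by
    unfold vd
    rw [bb_self c (2 * M - 1) n hn]
  rw [hvd]
  set S := ((cfg M c j (2 * M - 1) ν).map (wt M c n)).sum with hS
  have h3 : C * S ≤ (C - 1) * c ^ (2 * M - 1) + C * (K * (3 * c ^ (2 * M - 2))) := by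
    calc C * S ≤ C * ((C - 1) * (c ^ M / C * c ^ (M - 1)) + K * (3 * c ^ (2 * M - 2))) :=
          Nat.mul_le_mul_left _ hsum
      _ = (C - 1) * (C * (c ^ M / C) * c ^ (M - 1)) + C * (K * (3 * c ^ (2 * M - 2))) := by ring
      _ = _ := by rw [hCM, hp1]
  have h4 : 6 * C * K * c ^ (2 * M - 2) ≤ c ^ (2 * M - 1) := by
    rw [hp2]
    exact Nat.mul_le_mul_right _ (by omega)
  set X := c ^ (2 * M - 1) with hX
  set Y := c ^ (2 * M - 2) with hY
  have h5 : 2 * (C * S) ≤ 2 * ((C - 1) * X) + X := by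
    have h6 : 2 * (C * (K * (3 * Y))) = 6 * C * K * Y := by ring
    omega
  have h6 : (C - 1) * X + X = C * X := by
    rw [← Nat.succ_mul]
    congr 1
    omega
  have h7 : 2 * (C * S) + X ≤ 2 * (C * X) := by omega
  have h8 : (2 * ((C : ℤ) * S) + X) ≤ 2 * ((C : ℤ) * X) := by exact_mod_cast h7
  linarith

end Pool.Agent.V7

end

section

/-!
# V7, block ALPHA: the configurations of the classes are contained in those of the chain
-/

set_option autoImplicit false

namespace Pool.Agent.V7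

open Finset

/-- Binomial coefficients against powers. -/
theorem choose_large (c d : ℕ) (hc : 1 ≤ c) (a b : ℝ) (ha : 0 ≤ a)
    (hab : a * ((c : ℝ) ^ d * (d.factorial : ℝ)) < b) : ∃ e : ℝ, 0 < e ∧ ∃ n₀ : ℕ, ∀ n, n₀ ≤ n →
    (a + e) * (n : ℝ) ^ d ≤ b * ((n / c).choose d : ℝ) := by
  have hF : (0 : ℝ) < (c : ℝ) ^ d * (d.factorial : ℝ) := by
    have h1 : (0 : ℝ) < (c : ℝ) := by exact_mod_cast hc
    have h2 : (0 : ℝ) < (d.factorial : ℝ) := by exact_mod_cast d.factorial_pos
    positivity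
  set F : ℝ := (c : ℝ) ^ d * (d.factorial : ℝ) with hFd
  have hb : 0 < b := lt_of_le_of_lt (mul_nonneg ha hF.le) hab
  set e : ℝ := (b - a * F) / (2 * F) with he
  have hepos : 0 < e := div_pos (by linarith) (by linarith)
  have hb' : (a + e) * F = (a * F + b) / 2 := by
    rw [he]
    field_simp
    ring
  set b' : ℝ := (a * F + b) / 2 with hb'd
  have hb'b : b' < b := by rw [hb'd]; linarith
  obtain ⟨N₀, hN₀⟩ := exists_nat_gt (b * (d : ℝ) ^ 2 / (b - b'))
  refine ⟨e, hepos, c * (N₀ + d), fun n hn => ?_⟩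
  set ν : ℕ := n / c with hν
  have hνd : N₀ + d ≤ ν := by
    rw [hν, Nat.le_div_iff_mul_le (by omega), mul_comm]
    exact hn
  have hn' : n < c * (ν + 1) := Nat.lt_mul_div_succ n (by omega)
  set X : ℝ := (ν : ℝ) + 1 with hX
  have hXpos : 0 < X := by positivity
  have hXN : (N₀ : ℝ) + d ≤ X := by
    have : ((N₀ + d : ℕ) : ℝ) ≤ ν := by exact_mod_cast hνd
    push_cast at this
    rw [hX]
    linarith
  have hXd : (d : ℝ) ≤ X := by
    have : (0 : ℝ) ≤ N₀ := Nat.cast_nonneg _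
    linarith
  -- upper bound
  have h1 : (n : ℝ) ^ d ≤ ((c : ℝ) * X) ^ d := by
    refine pow_le_pow_left₀ (Nat.cast_nonneg _) ?_ d
    have : (n : ℝ) ≤ ((c * (ν + 1) : ℕ) : ℝ) := by exact_mod_cast hn'.le
    push_cast at this
    exact this
  -- lower bound
  have h2 : ((ν + 1 - d : ℕ) : ℝ) ^ d / (d.factorial : ℝ) ≤ (ν.choose d : ℝ) :=
    Nat.pow_le_choose d ν
  have h3 : ((ν + 1 - d : ℕ) : ℝ) = X - d := by
    rw [Nat.cast_sub (by omega)]
    push_cast
    rfl
  rw [h3] at h2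
  have hdf : (0 : ℝ) < (d.factorial : ℝ) := by exact_mod_cast d.factorial_pos
  have h4 : X ^ d * (1 - (d : ℝ) ^ 2 / X) ≤ (X - d) ^ d := by
    have h5 : X - d = X * (1 + -((d : ℝ) / X)) := by
      field_simp
      ring
    have h6 : -2 ≤ -((d : ℝ) / X) := by
      have : (d : ℝ) / X ≤ 1 := (div_le_one hXpos).2 hXd
      linarith
    have h7 := one_add_mul_le_pow h6 d
    rw [h5, mul_pow]
    refine mul_le_mul_of_nonneg_left (le_trans (le_of_eq ?_) h7) (pow_nonneg hXpos.le d)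
    field_simp
    ring
  have h5 : b * (d : ℝ) ^ 2 / X ≤ b - b' := by
    rw [div_le_iff₀ hXpos]
    rw [div_lt_iff₀ (by linarith)] at hN₀
    have h6 : (N₀ : ℝ) * (b - b') ≤ (b - b') * X := by
      rw [mul_comm]
      refine mul_le_mul_of_nonneg_left ?_ (by linarith)
      have : (0 : ℝ) ≤ d := Nat.cast_nonneg _
      linarith
    linarith
  have hXdp : 0 < X ^ d := pow_pos hXpos d
  have h6 : b' * X ^ d ≤ b * (X - d) ^ d := by
    refine le_trans ?_ (mul_le_mul_of_nonneg_left h4 hb.le)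
    have h7 : b * (X ^ d * (1 - (d : ℝ) ^ 2 / X)) = (b - b * (d : ℝ) ^ 2 / X) * X ^ d := by
      ring
    rw [h7]
    refine mul_le_mul_of_nonneg_right ?_ hXdp.le
    linarith
  calc (a + e) * (n : ℝ) ^ d ≤ (a + e) * ((c : ℝ) * X) ^ d :=
        mul_le_mul_of_nonneg_left h1 (by linarith)
    _ = (b' * X ^ d) / (d.factorial : ℝ) := by
        rw [← hb', hFd, mul_pow]
        field_simp
    _ ≤ (b * (X - d) ^ d) / (d.factorial : ℝ) := div_le_div_of_nonneg_right h6 hdf.le
    _ = b * ((X - d) ^ d / (d.factorial : ℝ)) := by ring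
    _ ≤ b * (ν.choose d : ℝ) := mul_le_mul_of_nonneg_left h2 hb.le

/-- The bound of the number of the points of a kind in a class. -/
theorem cls_kind (M c j : ℕ) (hM : 2 ≤ M) (hj : j < M) (hc : 1 ≤ c)
    (hdiv : (2 * M - 1).choose M ∣ c) (k : Kd) : ∃ e : ℝ, 0 < e ∧ ∃ n₀ : ℕ, ∀ n, n₀ ≤ n →
    ∀ e' : ℝ, e' ≤ e → ∀ N : Kd → ℕ, Cls0 M c j n e' N → N (Kd.ord M (range j)) = 0 →
      N k ≤ nmb M c j j (n / c) k := by
  by_cases hk : k ∈ kds M j
  swap
  · refine ⟨1, one_pos, 0, fun n _ e' _ N hN _ => ?_⟩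
    have h1 : N k = 0 := by
      by_contra h
      exact hk (hN.ok k h)
    omega
  have hCpos : 0 < (2 * M - 1).choose M := Nat.choose_pos (by omega)
  have hC0 : (0 : ℝ) < ((2 * M - 1).choose M : ℝ) := by exact_mod_cast hCpos
  have hc0 : (0 : ℝ) < (c : ℝ) := by exact_mod_cast hc
  have hk' := mem_kds.1 hk
  -- the nominal density
  have hnom : ∀ I : Finset ℕ, I ⊆ range j →
      nom M c j I * ((c : ℝ) ^ (M + I.card - j) * ((M + I.card - j).factorial : ℝ)) =
        (c : ℝ) ^ M / ((2 * M - 1).choose M : ℝ) := by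
    intro I hI
    have h1 : I.card ≤ j := by
      have := card_le_card hI
      rwa [card_range] at this
    have h2 : (c : ℝ) ^ M = (c : ℝ) ^ (j - I.card) * (c : ℝ) ^ (M + I.card - j) := by
      rw [← pow_add]
      congr 1
      omega
    have h3 : ((M + I.card - j).factorial : ℝ) ≠ 0 := by exact_mod_cast Nat.factorial_ne_zero _
    rw [h2]
    unfold nom
    field_simp
  have hnom0 : ∀ I : Finset ℕ, 0 ≤ nom M c j I := by
    intro I
    unfold nom
    positivity
  cases k with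
  | ord μ I =>
    obtain ⟨hμ1, hμM, hI⟩ := hk'
    have h1 : I.card ≤ j := by
      have := card_le_card hI
      rwa [card_range] at this
    rcases Nat.lt_or_ge μ M with hμ | hμ
    · -- small multiplicity
      obtain ⟨e, he, n₀, h⟩ := choose_large c (2 * M - μ + I.card - j) hc 0 1 le_rfl (by simp)
      refine ⟨e, he, n₀, fun n hn e' he' N hN _ => ?_⟩
      have h2 := hN.sml μ hμ1 hμ I hI
      have h3 := h n hn
      have h4 : nmb M c j j (n / c) (Kd.ord μ I) =
          (n / c).choose (2 * M - μ + I.card - j) := by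
        rw [nmb_pos hk (fun h => absurd h hμ.ne) (show j ≤ 2 * M - μ + I.card by omega)]
        show (if μ = M then _ else 1) * _ = _
        rw [if_neg hμ.ne, one_mul, Nat.sub_self, Nat.sub_zero]
        rfl
      rw [h4]
      have h5 : (N (Kd.ord μ I) : ℝ) ≤ ((n / c).choose (2 * M - μ + I.card - j) : ℝ) := by
        refine h2.trans (le_trans ?_ (h3.trans (le_of_eq (one_mul _))))
        refine mul_le_mul_of_nonneg_right ?_ (by positivity)
        linarith
      exact_mod_cast h5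
    · obtain rfl : μ = M := le_antisymm hμM hμ
      by_cases hIj : I = range j
      · refine ⟨1, one_pos, 0, fun n _ e' _ N _ h0 => ?_⟩
        rw [hIj, h0]
        exact Nat.zero_le _
      · have hdvd : (2 * μ - 1).choose μ ∣ c ^ μ := dvd_pow hdiv (by omega)
        have hcast : (((c ^ μ / (2 * μ - 1).choose μ + c ^ (μ - 1) : ℕ)) : ℝ) =
            (c : ℝ) ^ μ / ((2 * μ - 1).choose μ : ℝ) + (c : ℝ) ^ (μ - 1) := by
          rw [Nat.cast_add, Nat.cast_div hdvd hC0.ne']
          push_cast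
          rfl
        obtain ⟨e, he, n₀, h⟩ := choose_large c (μ + I.card - j) hc (nom μ c j I)
          ((c ^ μ / (2 * μ - 1).choose μ + c ^ (μ - 1) : ℕ) : ℝ) (hnom0 I) (by
            rw [hnom I hI, hcast]
            have : (0 : ℝ) < (c : ℝ) ^ (μ - 1) := by positivity
            linarith)
        refine ⟨e, he, n₀, fun n hn e' he' N hN _ => ?_⟩
        have h2 := hN.big I hI hIj
        have h3 := h n hn
        have h4 : nmb μ c j j (n / c) (Kd.ord μ I) =
            (c ^ μ / (2 * μ - 1).choose μ + c ^ (μ - 1)) * (n / c).choose (μ + I.card - j) := by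
          rw [nmb_pos hk (fun _ h => hIj (subset_antisymm hI h))
            (show j ≤ 2 * μ - μ + I.card by omega)]
          show (if μ = μ then _ else 1) * _ = _
          rw [if_pos rfl, Nat.sub_self, Nat.sub_zero]
          congr 2
          show 2 * μ - μ + I.card - j = _
          omega
        rw [h4]
        have h5 : (N (Kd.ord μ I) : ℝ) ≤ (tot μ j N I : ℝ) := by
          unfold tot
          exact_mod_cast Nat.le_add_right _ _
        have h6 := (abs_le.1 h2).2
        have h7 : (N (Kd.ord μ I) : ℝ) ≤ ((c ^ μ / (2 * μ - 1).choose μ + c ^ (μ - 1) : ℕ) : ℝ) *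
            ((n / c).choose (μ + I.card - j) : ℝ) := by
          refine le_trans ?_ h3
          have h8 : e' * (n : ℝ) ^ (μ + I.card - j) ≤ e * (n : ℝ) ^ (μ + I.card - j) :=
            mul_le_mul_of_nonneg_right he' (by positivity)
          rw [add_mul]
          linarith
        exact_mod_cast h7
  | sw i I =>
    obtain ⟨hi, hI⟩ := hk'
    have hI' : I ⊆ range j := fun x hx => by
      have := mem_Ico.1 (hI hx)
      rw [mem_range]
      exact this.2
    have h1 : I.card ≤ j := by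
      have := card_le_card hI'
      rwa [card_range] at this
    have hpow : (c : ℝ) ^ M = (c : ℝ) ^ (M - 1) * c := by
      rw [← pow_succ]
      congr 1
      omega
    obtain ⟨e, he, n₀, h⟩ := choose_large c (M + I.card - j) hc
      (2 * ((2 * M - 1).choose M : ℝ) / c * nom M c j I)
      ((3 * c ^ (M - 1) : ℕ) : ℝ) (by have := hnom0 I; positivity) (by
        have h2 : 2 * ((2 * M - 1).choose M : ℝ) / c * nom M c j I *
            ((c : ℝ) ^ (M + I.card - j) * ((M + I.card - j).factorial : ℝ)) =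
            2 * (c : ℝ) ^ (M - 1) := by
          rw [mul_assoc, hnom I hI', hpow]
          field_simp
        rw [h2]
        push_cast
        have : (0 : ℝ) < (c : ℝ) ^ (M - 1) := by positivity
        linarith)
    refine ⟨e, he, n₀, fun n hn e' he' N hN _ => ?_⟩
    have h2 := hN.swp i hi I hI'
    have h3 := h n hn
    have h4 : nmb M c j j (n / c) (Kd.sw i I) =
        (3 * c ^ (M - 1)) * (n / c).choose (M + I.card - j) := by
      rw [nmb_pos hk hi (show j ≤ M + I.card by omega)]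
      rw [Nat.sub_self, Nat.sub_zero]
      rfl
    rw [h4]
    have h7 : (N (Kd.sw i I) : ℝ) ≤ ((3 * c ^ (M - 1) : ℕ) : ℝ) *
        ((n / c).choose (M + I.card - j) : ℝ) := by
      refine h2.trans (le_trans ?_ h3)
      refine mul_le_mul_of_nonneg_right ?_ (by positivity)
      linarith
    exact_mod_cast h7

/-- N5 -/
theorem cls_le_cfg (M c j : ℕ) (hM : 2 ≤ M) (hj : j < M) (hc : 1 ≤ c)
    (hdiv : (2 * M - 1).choose M ∣ c) : ∃ e : ℝ, 0 < e ∧ ∃ n₀ : ℕ, ∀ n, n₀ ≤ n →
    ∀ s : Multiset Kd, Cls0 M c j n e (fun τ => s.count τ) → Kd.ord M (range j) ∉ s →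
      s ≤ cfg M c j j (n / c) := by
  choose e he n₀ h using cls_kind M c j hM hj hc hdiv
  refine ⟨1 / (1 + ∑ k ∈ kds M j, 1 / e k), ?_, ∑ k ∈ kds M j, n₀ k, fun n hn s hs hns => ?_⟩
  · have : 0 ≤ ∑ k ∈ kds M j, 1 / e k := sum_nonneg fun k _ => (one_div_pos.2 (he k)).le
    positivity
  rw [Multiset.le_iff_count]
  intro k
  rw [count_cfg]
  by_cases hk : s.count k = 0
  · rw [hk]
    exact Nat.zero_le _
  have hkk : k ∈ kds M j := hs.ok k hk
  refine h k n ((single_le_sum (f := n₀) (fun _ _ => Nat.zero_le _) hkk).trans hn) _ ?_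
    (fun τ => s.count τ) hs (Multiset.count_eq_zero_of_notMem hns)
  have h1 : 1 / e k ≤ ∑ k ∈ kds M j, 1 / e k :=
    single_le_sum (f := fun k => 1 / e k) (fun k _ => (one_div_pos.2 (he k)).le) hkk
  have h2 : 0 < 1 / e k := one_div_pos.2 (he k)
  rw [one_div_le (by linarith) (he k)]
  linarith

end Pool.Agent.V7

end

section

/-!
# V7, block ALPHA, the chain: growth of the virtual dimensions

`growth`: if `f (ν + 1) = f ν + g (ν + 1)`, `g ν ≥ a ν ^ e` and `f K ≥ - b` then `f` grows like `ν ^ (e+1)`.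
-/

set_option autoImplicit false

namespace Pool.Agent.V7

open Finset Pool.Agent.H51.TB Pool.Agent.V7.ST

/-- Summation of a lower bound. -/
theorem growth (f g : ℕ → ℝ) (K e : ℕ) (a b : ℝ) (ha : 0 < a)
    (hf : ∀ ν, K ≤ ν → f (ν + 1) = f ν + g (ν + 1)) (hg : ∀ ν, K ≤ ν → a * (ν : ℝ) ^ e ≤ g ν)
    (hK : -b ≤ f K) : ∀ ν, 2 * K + 2 ≤ ν → -b + a * ((ν : ℝ) / 4) ^ (e + 1) ≤ f ν := by
  have h1 : ∀ i, ∀ K', K ≤ K' → f K' + i * (a * (K' : ℝ) ^ e) ≤ f (K' + i) := by
    intro i
    induction i with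
    | zero => intro K' _; simp
    | succ i ih =>
      intro K' hK'
      have h2 := ih K' hK'
      have h3 := hf (K' + i) (by omega)
      have h4 := hg (K' + i + 1) (by omega)
      have h5 : (K' : ℝ) ^ e ≤ ((K' + i + 1 : ℕ) : ℝ) ^ e := by
        refine pow_le_pow_left₀ (Nat.cast_nonneg _) ?_ e
        exact_mod_cast (by omega : K' ≤ K' + i + 1)
      have h6 : a * (K' : ℝ) ^ e ≤ a * ((K' + i + 1 : ℕ) : ℝ) ^ e :=
        mul_le_mul_of_nonneg_left h5 ha.le
      have h7 : f (K' + (i + 1)) = f (K' + i) + g (K' + i + 1) := h3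
      rw [h7]
      push_cast
      push_cast at h4 h6
      linarith
  intro ν hν
  set K' := ν / 2 with hK'
  have h2 : K ≤ K' := by omega
  have h3 := h1 (K' - K) K le_rfl
  have h4 := h1 (ν - K') K' h2
  have e3 : K + (K' - K) = K' := by omega
  have e4 : K' + (ν - K') = ν := by omega
  rw [e3] at h3
  rw [e4] at h4
  have h5 : 0 ≤ ((K' - K : ℕ) : ℝ) * (a * (K : ℝ) ^ e) := by positivity
  have h6 : (ν : ℝ) / 4 ≤ K' := by
    have h7 : ν ≤ 2 * K' + 1 := by omega
    have h8 : (ν : ℝ) ≤ 2 * K' + 1 := by exact_mod_cast h7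
    have h9 : (1 : ℝ) ≤ K' := by exact_mod_cast (by omega : 1 ≤ K')
    linarith
  have h7 : (ν : ℝ) / 4 ≤ ((ν - K' : ℕ) : ℝ) := by
    have h8 : K' ≤ ν - K' := by omega
    have h9 : (K' : ℝ) ≤ ((ν - K' : ℕ) : ℝ) := by exact_mod_cast h8
    linarith
  have h8 : (0 : ℝ) ≤ (ν : ℝ) / 4 := by positivity
  have h9 : a * ((ν : ℝ) / 4) ^ (e + 1) ≤ ((ν - K' : ℕ) : ℝ) * (a * (K' : ℝ) ^ e) := by
    have h10 : ((ν : ℝ) / 4) ^ (e + 1) ≤ ((ν - K' : ℕ) : ℝ) * (K' : ℝ) ^ e := by
      rw [pow_succ, mul_comm]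
      exact mul_le_mul h7 (pow_le_pow_left₀ h8 h6 e) (pow_nonneg h8 e) (Nat.cast_nonneg _)
    calc a * ((ν : ℝ) / 4) ^ (e + 1) ≤ a * (((ν - K' : ℕ) : ℝ) * (K' : ℝ) ^ e) :=
          mul_le_mul_of_nonneg_left h10 ha.le
      _ = _ := by ring
  linarith

theorem bb_le_mc (c k : ℕ) : ∀ j n, bb c k j n ≤ n.multichoose k
  | 0, _ => le_rfl
  | j + 1, n => (Nat.sub_le _ _).trans (bb_le_mc c k j n)

theorem mc_le (n k : ℕ) : n.multichoose k ≤ (n + k) ^ k := by
  rw [Nat.multichoose_eq]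
  refine (Nat.choose_le_pow _ _).trans (Nat.pow_le_pow_left (by omega) k)

/-- The number of conditions of a point is at most `const * c ^ (M - 1)`. -/
theorem wt_le {M c l n ν : ℕ} (hM : 1 ≤ M) (hc : 1 ≤ c) (hn : n ≤ c * (ν + 1)) {k : Kd}
    (hk : k.Ok M l) : wt M c n k ≤ (ν + 1 + M) ^ (M - 1) * c ^ (M - 1) := by
  have h1 : ∀ μ, μ ≤ M → ∀ a, bb c (μ - 1) a n ≤ (ν + 1 + M) ^ (M - 1) * c ^ (M - 1) := by
    intro μ hμ a
    refine ((bb_le_mc c (μ - 1) a n).trans (mc_le n (μ - 1))).trans ?_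
    rw [← mul_pow]
    have h2 : n + (μ - 1) ≤ (ν + 1 + M) * c := by
      have h3 : (ν + 1 + M) * c = c * (ν + 1) + M * c := by ring
      have h4 : M ≤ M * c := Nat.le_mul_of_pos_right M hc
      omega
    refine (Nat.pow_le_pow_left h2 _).trans (Nat.pow_le_pow_right ?_ (by omega))
    exact Nat.mul_pos (by omega) hc
  cases k with
  | ord μ I => exact h1 μ hk.2.1 _
  | sw i I => exact (Nat.sub_le _ _).trans (h1 M le_rfl _)

theorem rho_le {M c : ℕ} (hM : 1 ≤ M) (hc : 1 ≤ c) (k : Kd) : rho M c k ≤ 3 * c ^ M := by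
  have h1 : c ^ (M - 1) ≤ c ^ M := Nat.pow_le_pow_right hc (by omega)
  have h2 : 1 ≤ c ^ M := Nat.one_le_pow _ _ hc
  cases k with
  | ord μ I =>
    show (if μ = M then c ^ M / (2 * M - 1).choose M + c ^ (M - 1) else 1) ≤ 3 * c ^ M
    have h3 := Nat.div_le_self (c ^ M) ((2 * M - 1).choose M)
    split_ifs <;> omega
  | sw i I =>
    show 3 * c ^ (M - 1) ≤ 3 * c ^ M
    omega

theorem nmb_le {M c j l ν : ℕ} (hM : 1 ≤ M) (hc : 1 ≤ c) (k : Kd) :
    nmb M c j l ν k ≤ 3 * 2 ^ ν * c ^ M := by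
  unfold nmb
  split_ifs
  · have h1 := rho_le hM hc k
    have h2 : (ν - (l - j)).choose (dgr M k - l) ≤ 2 ^ ν :=
      (Nat.choose_le_two_pow _ _).trans (Nat.pow_le_pow_right (by norm_num) (by omega))
    calc rho M c k * (ν - (l - j)).choose (dgr M k - l) ≤ (3 * c ^ M) * 2 ^ ν :=
          Nat.mul_le_mul h1 h2
      _ = _ := by ring
  · exact Nat.zero_le _

theorem sum_wt_cfg (M c j l ν n : ℕ) :
    ((cfg M c j l ν).map (wt M c n)).sum = ∑ k ∈ kds M l, nmb M c j l ν k * wt M c n k := by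
  unfold cfg
  have e : (∑ k ∈ kds M l, Multiset.replicate (nmb M c j l ν k) k).map (wt M c n) =
      ∑ k ∈ kds M l, (Multiset.replicate (nmb M c j l ν k) k).map (wt M c n) :=
    map_sum (Multiset.mapAddMonoidHom (wt M c n)) _ _
  rw [e]
  have e2 : (∑ k ∈ kds M l, (Multiset.replicate (nmb M c j l ν k) k).map (wt M c n)).sum =
      ∑ k ∈ kds M l, ((Multiset.replicate (nmb M c j l ν k) k).map (wt M c n)).sum :=
    map_sum (Multiset.sumAddMonoidHom : Multiset ℕ →+ ℕ) _ _
  rw [e2]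
  refine Finset.sum_congr rfl fun k _ => ?_
  rw [Multiset.map_replicate, Multiset.sum_replicate, smul_eq_mul]

/-- The virtual dimension is at least `- const * c ^ (2M-1)`. -/
theorem vd_low {M c j l ν n : ℕ} (hM : 1 ≤ M) (hc : 1 ≤ c) (hn : n ≤ c * (ν + 1)) :
    -(((kds M l).card * (3 * 2 ^ ν) * (ν + 1 + M) ^ (M - 1) * c ^ (2 * M - 1) : ℕ) : ℤ) ≤
      vd M c l n (cfg M c j l ν) := by
  unfold vd
  have h1 : ((cfg M c j l ν).map (wt M c n)).sum ≤
      (kds M l).card * (3 * 2 ^ ν) * (ν + 1 + M) ^ (M - 1) * c ^ (2 * M - 1) := by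
    rw [sum_wt_cfg]
    have h2 : ∀ k ∈ kds M l, nmb M c j l ν k * wt M c n k ≤
        3 * 2 ^ ν * (ν + 1 + M) ^ (M - 1) * c ^ (2 * M - 1) := by
      intro k hk
      have h3 := nmb_le (j := j) (l := l) (ν := ν) hM hc k
      have h4 := wt_le hM hc hn (mem_kds.1 hk)
      have h5 : c ^ (2 * M - 1) = c ^ M * c ^ (M - 1) := by
        rw [← pow_add]
        congr 1
        omega
      calc nmb M c j l ν k * wt M c n k ≤
          (3 * 2 ^ ν * c ^ M) * ((ν + 1 + M) ^ (M - 1) * c ^ (M - 1)) := Nat.mul_le_mul h3 h4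
        _ = _ := by
          rw [h5]
          ring
    refine (Finset.sum_le_card_nsmul _ _ _ h2).trans (le_of_eq ?_)
    rw [smul_eq_mul]
    ring
  have h2 : (0 : ℤ) ≤ (bb c (2 * M - 1) l n : ℤ) := Int.natCast_nonneg _
  have h3 : ((((cfg M c j l ν).map (wt M c n)).sum : ℕ) : ℤ) ≤
      (((kds M l).card * (3 * 2 ^ ν) * (ν + 1 + M) ^ (M - 1) * c ^ (2 * M - 1) : ℕ) : ℤ) := by
    exact_mod_cast h1
  omega

/-- Additivity of the virtual dimensions of the chain. -/
theorem vd_chain {M c j l n ν : ℕ} (hc : 0 < c) (hjl : j ≤ l) (hν : l ≤ ν + j)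
    (hn : (l + 1) * c + 1 ≤ n) :
    vd M c l n (cfg M c j l (ν + 1)) =
      vd M c l (n - c) (cfg M c j l ν) + vd M c (l + 1) n (cfg M c j (l + 1) (ν + 1)) := by
  have h1 := vd_res (M := M) hc hn (cfg M c j l ν) (cfg M c j l (ν + 1) - cfg M c j l ν) 0
    fun k hk => (mem_cfg hk).1
  rw [Multiset.replicate_zero, Multiset.replicate_zero, add_zero, add_zero, cfg_step hjl hν,
    add_tsub_cancel_of_le cfg_mono, Nat.cast_zero, add_zero] at h1
  omega

end Pool.Agent.V7

end
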