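import Pool.Agent.H94.LP7.M123
import Pool.Agent.H94.LP7.M129
import Pool.Agent.H94.LP7.M139
import Pool.Agent.H94.LP7.M140
import Pool.Agent.H94.LP7.M54

/-! The parts of this file: V7.AL.Size, V7.AL.Base, V7.AL.Chain. -/

section

/-!
# V7, ALPHA: the size of a kind is at least its weight

`V` at one position meets the coordinate subspace of `wt` exponents only in `0`.
-/

set_option autoImplicit false
set_option linter.unusedSectionVars false

namespace Pool.Agent.V7

open Finset MvPolynomial Pool.Agent.H51.TB Pool.Agent.H54.V7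
open Pool.Agent.H18.Ex (tcr)

/-! ### A criterion -/

theorem finrank_add_card_le {E : Type} [Fintype E] [DecidableEq E] (V : Submodule ℂ (E → ℂ))
    (A : Finset E) (h : ∀ f ∈ V, (∀ e, e ∉ A → f e = 0) → f = 0) :
    Module.finrank ℂ V + A.card ≤ Fintype.card E := by
  let L : V →ₗ[ℂ] ({e : E // e ∉ A} → ℂ) :=
    (LinearMap.funLeft ℂ ℂ (Subtype.val : {e : E // e ∉ A} → E)).comp V.subtype
  have hL : Function.Injective L := by
    rw [← LinearMap.ker_eq_bot, LinearMap.ker_eq_bot']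
    intro f hf
    refine Subtype.ext (h f.1 f.2 fun e he => ?_)
    exact congrFun hf ⟨e, he⟩
  have h1 := LinearMap.finrank_le_finrank_of_injective hL
  rw [Module.finrank_fintype_fun_eq_card, Fintype.card_subtype_compl, Fintype.card_coe] at h1
  have h2 : A.card ≤ Fintype.card E := card_le_univ A
  omega

theorem sum_supp {E ω : Type} [Fintype E] [Fintype ω] (ε : ω → E)
    (hε : Function.Injective ε) (f g : E → ℂ) (hf : ∀ e, (∀ w, ε w ≠ e) → f e = 0) :
    ∑ e, f e * g e = ∑ w, f (ε w) * g (ε w) := by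
  classical
  rw [← sum_image (f := fun e => f e * g e) (s := (univ : Finset ω)) (g := ε)
    (fun x _ y _ h => hε h)]
  symm
  refine sum_subset (subset_univ _) fun e _ he => ?_
  rw [hf e fun w hw => he (mem_image.2 ⟨w, mem_univ w, hw⟩), zero_mul]

theorem card_le_size {E ν T : Type} [Fintype E] (S : Sys E ν T) (t : T) {ω : Type} [Fintype ω]
    (ε : ω → E) (hε : Function.Injective ε) (q : ν → ℂ)
    (h : ∀ f ∈ S.V (fun _ : Unit => t) (fun _ => q), (∀ e, (∀ w, ε w ≠ e) → f e = 0) →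
      ∀ w, f (ε w) = 0) : Fintype.card ω ≤ S.size t := by
  classical
  have h1 := finrank_add_card_le (S.V (fun _ : Unit => t) fun _ => q) (univ.image ε) (by
    intro f hf h2
    have h3 : ∀ e, (∀ w, ε w ≠ e) → f e = 0 := fun e he =>
      h2 e fun h4 => by
        obtain ⟨w, -, hw⟩ := mem_image.1 h4
        exact he w hw
    funext e
    by_cases he : ∀ w, ε w ≠ e
    · exact h3 e he
    · push Not at he
      obtain ⟨w, rfl⟩ := he
      exact h f hf h3 w)
  rw [card_image_of_injective _ hε, card_univ] at h1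
  have h2 := gd_le S (fun _ : Unit => t) fun _ => q
  have h3 := gd_unit S t
  omega

variable {ν : Type} [Fintype ν] [DecidableEq ν]

/-! ### Products -/

theorem choose_mul_pow (x : ℂ) (u e b : ℕ) :
    (((u + e).choose b : ℕ) : ℂ) * x ^ (u + e - b) = ∑ k ∈ range (b + 1),
      ((u.choose (b - k) : ℕ) : ℂ) * x ^ (u - (b - k)) *
        (((e.choose k : ℕ) : ℂ) * x ^ (e - k)) := by
  have h1 : (u + e).choose b = ∑ k ∈ range (b + 1), e.choose k * u.choose (b - k) := by
    rw [Nat.add_comm u e, Nat.add_choose_eq]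
    exact Nat.sum_antidiagonal_eq_sum_range_succ (fun i j => e.choose i * u.choose j) b
  rw [h1, Nat.cast_sum, sum_mul]
  refine sum_congr rfl fun k hk => ?_
  have hkb : k ≤ b := Nat.lt_succ_iff.1 (mem_range.1 hk)
  by_cases h2 : k ≤ e
  · by_cases h3 : b - k ≤ u
    · have h4 : u + e - b = (u - (b - k)) + (e - k) := by omega
      rw [h4, pow_add, Nat.cast_mul]
      ring
    · rw [Nat.choose_eq_zero_of_lt (Nat.lt_of_not_le h3)]
      simp
  · rw [Nat.choose_eq_zero_of_lt (Nat.lt_of_not_le h2)]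
    simp

/-- The Leibniz rule. -/
theorem tcr_mul (p : ν → ℂ) (u e b : ν → ℕ) : tcr p (u + e) b =
    ∑ k ∈ Fintype.piFinset fun i => range (b i + 1), tcr p u (b - k) * tcr p e k := by
  unfold tcr
  have h1 : ∀ i ∈ (univ : Finset ν), ((((u + e) i).choose (b i) : ℕ) : ℂ) *
      p i ^ ((u + e) i - b i) = ∑ k ∈ range (b i + 1),
        (((u i).choose (b i - k) : ℕ) : ℂ) * p i ^ (u i - (b i - k)) *
          ((((e i).choose k : ℕ) : ℂ) * p i ^ (e i - k)) := fun i _ =>
    choose_mul_pow (p i) (u i) (e i) (b i)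
  rw [prod_congr rfl h1, prod_univ_sum]
  refine sum_congr rfl fun k _ => ?_
  rw [prod_mul_distrib]
  rfl

/-- Division by a monomial which does not vanish at `p`. -/
theorem div_fat {ω : Type} (W : Finset ω) (φ : ω → ℂ) (h : ω → ν → ℕ) (u : ν → ℕ) (p : ν → ℂ)
    (hu : tcr p u 0 = 1) (m : ℕ)
    (hF : ∀ b : ν → ℕ, ∑ i, b i < m → ∑ w ∈ W, φ w * tcr p (u + h w) b = 0) :
    (∀ b : ν → ℕ, ∑ i, b i < m → ∑ w ∈ W, φ w * tcr p (h w) b = 0) ∧
      ∀ b : ν → ℕ, ∑ i, b i ≤ m → ∑ w ∈ W, φ w * tcr p (u + h w) b =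
        ∑ w ∈ W, φ w * tcr p (h w) b := by
  have key : ∀ b : ν → ℕ, (∀ k : ν → ℕ, ∑ i, k i < ∑ i, b i →
      ∑ w ∈ W, φ w * tcr p (h w) k = 0) →
      ∑ w ∈ W, φ w * tcr p (u + h w) b = ∑ w ∈ W, φ w * tcr p (h w) b := by
    intro b hb
    have h1 : ∑ w ∈ W, φ w * tcr p (u + h w) b =
        ∑ k ∈ Fintype.piFinset fun i => range (b i + 1), tcr p u (b - k) *
          ∑ w ∈ W, φ w * tcr p (h w) k := by
      simp only [mul_sum]
      rw [sum_comm]
      refine sum_congr rfl fun w _ => ?_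
      rw [tcr_mul, mul_sum]
      refine sum_congr rfl fun k _ => ?_
      ring
    rw [h1, sum_eq_single b]
    · rw [tsub_self, hu, one_mul]
    · intro k hk hkb
      rw [Fintype.mem_piFinset] at hk
      have hle : ∀ i, k i ≤ b i := fun i => Nat.lt_succ_iff.1 (mem_range.1 (hk i))
      have hlt : ∑ i, k i < ∑ i, b i := by
        obtain ⟨i, hi⟩ := Function.ne_iff.1 hkb
        exact sum_lt_sum (fun i _ => hle i) ⟨i, mem_univ i, lt_of_le_of_ne (hle i) hi⟩
      rw [hb k hlt, mul_zero]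
    · intro h2
      exfalso
      refine h2 (Fintype.mem_piFinset.2 fun i => mem_range.2 (Nat.lt_succ_self _))
  have hG : ∀ n : ℕ, n < m → ∀ b : ν → ℕ, ∑ i, b i = n →
      ∑ w ∈ W, φ w * tcr p (h w) b = 0 := by
    intro n
    induction n using Nat.strong_induction_on with
    | _ n ih =>
      intro hn b hb
      rw [← key b fun k hk => ih _ (hb ▸ hk) (by omega) k rfl]
      exact hF b (by omega)
  exact ⟨fun b hb => hG _ hb b rfl, fun b hb => key b fun k hk => hG _ (by omega) k rfl⟩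

theorem tcr_same (p : ν → ℂ) (e b : ν → ℕ) (h : ∑ i, e i = ∑ i, b i) :
    tcr p e b = if e = b then 1 else 0 := by
  by_cases h1 : ∀ i, b i ≤ e i
  · exact tcr_self p e b h1 h.le
  · rw [tcr_eq_zero p e b h1, if_neg]
    rintro rfl
    exact h1 fun i => le_rfl

theorem tcr_one {β : ν → ℕ} {I : Finset ℕ} {u : ν → ℕ} (hu : ∀ s, β s ∈ I → u s = 0) :
    tcr (msk β I fun _ => (1 : ℂ)) u 0 = 1 := by
  unfold tcr
  refine prod_eq_one fun s _ => ?_
  unfold msk
  by_cases h : β s ∈ I
  · rw [hu s h]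
    simp
  · rw [if_neg h]
    simp

/-! ### The exponent `u` -/

/-- One variable of every block of `J`, and `r` times `s₀`. -/
def uu (sf : ℕ → ν) (J : Finset ℕ) (s₀ : ν) (r : ℕ) : ν → ℕ := fun s =>
  (∑ i ∈ J, if sf i = s then 1 else 0) + if s₀ = s then r else 0

theorem uu_sum (sf : ℕ → ν) (J : Finset ℕ) (s₀ : ν) (r : ℕ) :
    ∑ s, uu sf J s₀ r s = J.card + r := by
  unfold uu
  rw [sum_add_distrib, sum_comm]
  simp

theorem uu_pos (sf : ℕ → ν) {J : Finset ℕ} (s₀ : ν) (r : ℕ) {i : ℕ} (hi : i ∈ J) :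
    uu sf J s₀ r (sf i) ≠ 0 := by
  unfold uu
  have h1 : 1 ≤ ∑ k ∈ J, if sf k = sf i then 1 else 0 := by
    refine le_trans ?_ (single_le_sum (f := fun k => if sf k = sf i then 1 else 0)
      (fun k _ => Nat.zero_le _) hi)
    simp
  omega

theorem uu_supp {sf : ℕ → ν} {J : Finset ℕ} {s₀ : ν} {r : ℕ} {s : ν}
    (h : uu sf J s₀ r s ≠ 0) : (∃ i ∈ J, sf i = s) ∨ s₀ = s := by
  by_contra hcon
  push Not at hcon
  refine h ?_
  unfold uu
  rw [if_neg hcon.2, sum_eq_zero fun i hi => if_neg (hcon.1 i hi)]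

theorem exists_sf {c l : ℕ} {β : ν → ℕ} (hβ : ∀ i < l, (blo β i).card = c) (hc : 1 ≤ c) (s₀ : ν) :
    ∃ sf : ℕ → ν, ∀ i < l, β (sf i) = i := by
  have h1 : ∀ i, ∃ s, i < l → β s = i := by
    intro i
    by_cases hi : i < l
    · have h2 : (blo β i).Nonempty := by
        rw [← card_pos, hβ i hi]
        exact hc
      obtain ⟨s, hs⟩ := h2
      exact ⟨s, fun _ => (mem_filter.1 hs).2⟩
    · exact ⟨s₀, fun h => absurd h hi⟩
  choose sf hsf using h1
  exact ⟨sf, hsf⟩

/-! ### Ordinary points -/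

theorem wt_le_size_ord {M c l : ℕ} {β : ν → ℕ}
    (hβ : ∀ i < l, (blo β i).card = c) (hc : 1 ≤ c) {s₀ : ν} (hs₀ : l ≤ β s₀) {μ : ℕ}
    {I : Finset ℕ} (h1 : 1 ≤ μ) (h2 : μ ≤ M) (h3 : I ⊆ range l) (hd : l ≤ 2 * M - μ + I.card) :
    wt M c (Fintype.card ν) (.ord μ I) ≤ (LS M β l).size (.ord μ I) := by
  obtain ⟨sf, hsf⟩ := exists_sf hβ hc s₀
  have hcardJ : (range l \ I).card = l - I.card := by
    rw [card_sdiff_of_subset h3, card_range]
  have hIl : I.card ≤ l := by
    have := card_le_card h3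
    rwa [card_range] at this
  set J : Finset ℕ := range l \ I with hJ
  set u : ν → ℕ := uu sf J s₀ (2 * M - μ - J.card) with hu
  have husum : ∑ s, u s = 2 * M - μ := by
    rw [hu, uu_sum]
    omega
  have hu0 : ∀ s, β s ∈ I → u s = 0 := by
    intro s hs
    by_contra h
    rcases uu_supp h with ⟨i, hi, rfl⟩ | rfl
    · rw [hJ, mem_sdiff, mem_range] at hi
      rw [hsf i hi.1] at hs
      exact hi.2 hs
    · have := mem_range.1 (h3 hs)
      omega
  have hmem : ∀ w ∈ mset (blo β) univ I (μ - 1), u + w ∈ Ex β (2 * M - 1) l := by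
    intro w hw
    rw [mem_mset] at hw
    rw [mem_Ex]
    refine ⟨?_, fun i hi => ?_⟩
    · simp only [Pi.add_apply]
      rw [sum_add_distrib, husum, hw.1.1]
      omega
    · by_cases hiI : i ∈ I
      · have h4 := hw.2 i hiI
        push Not at h4
        obtain ⟨s, hs, hs'⟩ := h4
        refine ⟨s, (mem_filter.1 hs).2, ?_⟩
        rw [Pi.add_apply]
        omega
      · refine ⟨sf i, hsf i hi, ?_⟩
        have h4 : u (sf i) ≠ 0 := uu_pos sf s₀ _ (by
          rw [hJ, mem_sdiff, mem_range]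
          exact ⟨hi, hiI⟩)
        rw [Pi.add_apply]
        omega
  let ε : mset (blo β) univ I (μ - 1) → Ex β (2 * M - 1) l := fun w => ⟨u + w.1, hmem w.1 w.2⟩
  have hε : Function.Injective ε := fun w w' h =>
    Subtype.ext (add_left_cancel (congrArg Subtype.val h))
  have key := card_le_size (LS M β l) (.ord μ I) ε hε (fun _ => 1) (by
    intro f hf hsupp w
    rw [mem_LSA] at hf
    have hfat := hf ()
    have hF : ∀ b : ν → ℕ, ∑ i, b i < μ → ∑ w : mset (blo β) univ I (μ - 1),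
        f (ε w) * tcr (msk β I fun _ => (1 : ℂ)) (u + w.1) b = 0 := by
      intro b hb
      have h4 := hfat b hb
      rw [sum_supp ε hε f (fun e => tcr (msk β I fun _ => (1 : ℂ)) e.1 b) hsupp] at h4
      exact h4
    have h5 := (div_fat univ (fun w => f (ε w)) (fun w => w.1) u _ (tcr_one hu0) μ hF).1 w.1 (by
      rw [(mem_mset.1 w.2).1.1]
      omega)
    rw [sum_eq_single w] at h5
    · rw [tcr_same _ _ _ rfl, if_pos rfl, mul_one] at h5
      exact h5
    · intro w' _ hw'
      rw [tcr_same _ _ _ (by rw [(mem_mset.1 w.2).1.1, (mem_mset.1 w'.2).1.1]),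
        if_neg fun h => hw' (Subtype.ext h), mul_zero]
    · intro h
      exact absurd (mem_univ w) h)
  rw [Fintype.card_coe, card_mset (blo β) c (μ - 1) I univ
    (fun i hi => ⟨subset_univ _, hβ i (mem_range.1 (h3 hi))⟩)
    (fun i _ k _ hik => blo_disjoint β hik), card_univ, ← bb_eq_bbc] at key
  exact key

/-! ### Swapped points -/

/-- A Taylor coefficient at the point `(1, 0, …, 0)`. -/
theorem tcr_dir (x₀ : ν) (e a : ν → ℕ) (ha : a x₀ = 0) :
    tcr (fun s => if s = x₀ then (1 : ℂ) else 0) e a =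
      if ∀ s, s ≠ x₀ → e s = a s then 1 else 0 := by
  classical
  unfold tcr
  split_ifs with h
  · refine prod_eq_one fun s _ => ?_
    by_cases hs : s = x₀
    · rw [hs, ha]
      simp
    · rw [h s hs]
      simp
  · push Not at h
    obtain ⟨s, hs, hne⟩ := h
    refine prod_eq_zero (mem_univ s) ?_
    show (((e s).choose (a s) : ℕ) : ℂ) * (if s = x₀ then (1 : ℂ) else 0) ^ (e s - a s) = 0
    rw [if_neg hs]
    rcases Nat.lt_or_gt_of_ne hne with h1 | h1
    · rw [Nat.choose_eq_zero_of_lt h1]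
      simp
    · rw [zero_pow (by omega), mul_zero]

theorem wt_le_size_sw {M c l : ℕ} (hM : 1 ≤ M) {β : ν → ℕ}
    (hβ : ∀ i < l, (blo β i).card = c) (hc : 1 ≤ c) {s₀ : ν} (hs₀ : l ≤ β s₀) {i : ℕ}
    {I : Finset ℕ} (h1 : i < l) (h2 : I ⊆ Ico (i + 1) l) (hd : l ≤ M + I.card) :
    wt M c (Fintype.card ν) (.sw i I) ≤ (LS M β l).size (.sw i I) := by
  classical
  obtain ⟨sf, hsf⟩ := exists_sf hβ hc s₀
  obtain ⟨x₀, hx₀⟩ : ∃ x₀, β x₀ = i := ⟨sf i, hsf i h1⟩
  have hiI : i ∉ I := fun h => by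
    have := mem_Ico.1 (h2 h)
    omega
  have hIr : I ⊆ range l := fun k hk => mem_range.2 (mem_Ico.1 (h2 hk)).2
  have hins : insert i I ⊆ range l := insert_subset (mem_range.2 h1) hIr
  have hcardJ : (range l \ insert i I).card = l - (I.card + 1) := by
    rw [card_sdiff_of_subset hins, card_range, card_insert_of_notMem hiI]
  have hIl : I.card + 1 ≤ l := by
    have := card_le_card hins
    rwa [card_range, card_insert_of_notMem hiI] at this
  have hsx : s₀ ≠ x₀ := by
    rintro rfl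
    omega
  set J : Finset ℕ := range l \ insert i I with hJ
  set u : ν → ℕ := uu sf J s₀ (M - 1 - J.card) with hu
  have husum : ∑ s, u s = M - 1 := by
    rw [hu, uu_sum]
    omega
  have hu0 : ∀ s, β s ∈ insert i I → u s = 0 := by
    intro s hs
    by_contra h
    rcases uu_supp h with ⟨k, hk, rfl⟩ | rfl
    · rw [hJ, mem_sdiff, mem_range] at hk
      rw [hsf k hk.1] at hs
      exact hk.2 hs
    · have := mem_range.1 (hins hs)
      omega
  -- the index set
  set W₀ : Finset (ν → ℕ) := mset (blo β) univ I (M - 1) with hW₀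
  set W : Finset (ν → ℕ) := if I = ∅ then W₀.erase (Pi.single x₀ (M - 1)) else W₀ with hW
  have hWW₀ : ∀ w ∈ W, w ∈ W₀ := by
    intro w hw
    rw [hW] at hw
    split_ifs at hw with h
    · exact mem_of_mem_erase hw
    · exact hw
  have hWsum : ∀ w ∈ W, ∑ s, w s = M - 1 := fun w hw => (mem_mset.1 (hWW₀ w hw)).1.1
  have hWI : ∀ w ∈ W, ∀ k ∈ I, ∃ s, β s = k ∧ w s ≠ 0 := by
    intro w hw k hk
    have h4 := (mem_mset.1 (hWW₀ w hw)).2 k hk
    push Not at h4
    obtain ⟨s, hs, hs'⟩ := h4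
    exact ⟨s, (mem_filter.1 hs).2, hs'⟩
  have hWne : ∀ w ∈ W, w ≠ Pi.single x₀ (M - 1) := by
    intro w hw h
    by_cases hI : I = ∅
    · rw [hW, if_pos hI] at hw
      exact (mem_erase.1 hw).1 h
    · obtain ⟨k, hk⟩ := nonempty_iff_ne_empty.2 hI
      obtain ⟨s, hs, hs'⟩ := hWI w hw k hk
      have h4 : s ≠ x₀ := by
        rintro rfl
        rw [hx₀] at hs
        exact hiI (hs ▸ hk)
      rw [h, Pi.single_eq_of_ne h4] at hs'
      exact hs' rfl
  have hWcard : W.card = bb c (M - 1) I.card (Fintype.card ν) - if I = ∅ then 1 else 0 := by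
    have h4 : W₀.card = bb c (M - 1) I.card (Fintype.card ν) := by
      rw [hW₀, card_mset (blo β) c (M - 1) I univ
        (fun i hi => ⟨subset_univ _, hβ i (mem_range.1 (hIr hi))⟩)
        (fun i _ k _ hik => blo_disjoint β hik), card_univ, ← bb_eq_bbc]
    rw [hW, ← h4]
    split_ifs with hI
    · refine card_erase_of_mem ?_
      rw [hW₀, mem_mset]
      refine ⟨⟨?_, fun x _ => mem_univ x⟩, fun k hk => ?_⟩
      · rw [sum_pi_single']
        simp
      · rw [hI] at hk
        exact absurd hk (notMem_empty k)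
    · rfl
  -- the exponents
  let Q : (ν → ℕ) → Prop := fun w => ∃ s, β s = i ∧ s ≠ x₀ ∧ w s ≠ 0
  let t : (ν → ℕ) → ν := fun w => if Q w then s₀ else x₀
  let hh : (ν → ℕ) → ν → ℕ := fun w => w + Pi.single (t w) 1
  have hoff : ∀ w s, β s = i → s ≠ x₀ → hh w s = w s := by
    intro w s hs hsx'
    show w s + (Pi.single (t w) 1 : ν → ℕ) s = w s
    have h4 : s ≠ t w := by
      show s ≠ if Q w then s₀ else x₀
      split_ifs
      · rintro rfl
        omega
      · exact hsx'
    rw [Pi.single_eq_of_ne h4, Nat.add_zero]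
  have hQ : ∀ w, Q (hh w) ↔ Q w := by
    intro w
    constructor
    · rintro ⟨s, hs, hs', h4⟩
      exact ⟨s, hs, hs', by rwa [hoff w s hs hs'] at h4⟩
    · rintro ⟨s, hs, hs', h4⟩
      exact ⟨s, hs, hs', by rwa [hoff w s hs hs']⟩
  have hhinj : ∀ w w', hh w = hh w' → w = w' := by
    intro w w' h
    have h4 : Q w ↔ Q w' := by rw [← hQ w, ← hQ w', h]
    have h5 : t w = t w' := by
      show (if Q w then s₀ else x₀) = if Q w' then s₀ else x₀
      by_cases h6 : Q w
      · rw [if_pos h6, if_pos (h4.1 h6)]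
      · rw [if_neg h6, if_neg fun h7 => h6 (h4.2 h7)]
    have h6 : w + Pi.single (t w) 1 = w' + Pi.single (t w') 1 := h
    rw [h5] at h6
    exact add_right_cancel h6
  have hhsum : ∀ w ∈ W, ∑ s, hh w s = M := by
    intro w hw
    show ∑ s, (w s + (Pi.single (t w) 1 : ν → ℕ) s) = M
    rw [sum_add_distrib, hWsum w hw, sum_pi_single']
    simp
    omega
  have hmem : ∀ w ∈ W, u + hh w ∈ Ex β (2 * M - 1) l := by
    intro w hw
    rw [mem_Ex]
    refine ⟨?_, fun k hk => ?_⟩
    · simp only [Pi.add_apply]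
      rw [sum_add_distrib, husum, hhsum w hw]
      omega
    · have hle : ∀ s, w s ≤ hh w s := fun s => Nat.le_add_right _ _
      by_cases hki : k = i
      · by_cases hQw : Q w
        · obtain ⟨s, hs, -, hs'⟩ := hQw
          refine ⟨s, by rw [hs, hki], ?_⟩
          have := hle s
          rw [Pi.add_apply]
          omega
        · refine ⟨x₀, by rw [hx₀, hki], ?_⟩
          have h4 : hh w x₀ = w x₀ + 1 := by
            show w x₀ + (Pi.single (t w) 1 : ν → ℕ) x₀ = w x₀ + 1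
            have h5 : t w = x₀ := if_neg hQw
            rw [h5, Pi.single_eq_same]
          rw [Pi.add_apply]
          omega
      · by_cases hkI : k ∈ I
        · obtain ⟨s, hs, hs'⟩ := hWI w hw k hkI
          refine ⟨s, hs, ?_⟩
          have := hle s
          rw [Pi.add_apply]
          omega
        · refine ⟨sf k, hsf k hk, ?_⟩
          have h4 : u (sf k) ≠ 0 := uu_pos sf s₀ _ (by
            rw [hJ, mem_sdiff, mem_range, mem_insert]
            exact ⟨hk, fun h => h.elim hki hkI⟩)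
          rw [Pi.add_apply]
          omega
  let ε : W → Ex β (2 * M - 1) l := fun w => ⟨u + hh w.1, hmem w.1 w.2⟩
  have hε : Function.Injective ε := fun w w' h =>
    Subtype.ext (hhinj _ _ (add_left_cancel (congrArg Subtype.val h)))
  have key := card_le_size (LS M β l) (.sw i I) ε hε
    (Sum.elim (fun _ => 1) fun s => if s = x₀ then 1 else 0) (by
    intro f hf hsupp
    rw [mem_LSA] at hf
    obtain ⟨hfat, hsw⟩ := hf ()
    set p : ν → ℂ := msk β (insert i I) fun _ => (1 : ℂ) with hp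
    have hv : (msk β I fun s => if s = x₀ then (1 : ℂ) else 0) =
        fun s => if s = x₀ then (1 : ℂ) else 0 := by
      funext s
      show (if β s ∈ I then (0 : ℂ) else if s = x₀ then 1 else 0) = if s = x₀ then 1 else 0
      by_cases h4 : s = x₀
      · rw [h4, hx₀, if_neg hiI]
      · rw [if_neg h4, ite_self]
    have hSF : ∀ b : ν → ℕ, ∑ e : Ex β (2 * M - 1) l, f e * tcr p e.1 b =
        ∑ w : W, f (ε w) * tcr p (u + hh w.1) b := fun b =>
      sum_supp ε hε f (fun e => tcr p e.1 b) hsupp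
    have hF : ∀ b : ν → ℕ, ∑ i, b i < M → ∑ w : W, f (ε w) * tcr p (u + hh w.1) b = 0 := by
      intro b hb
      rw [← hSF]
      exact hfat b hb
    obtain ⟨hA, hB⟩ := div_fat univ (fun w : W => f (ε w)) (fun w => hh w.1) u p (tcr_one hu0) M hF
    -- the swapped conditions
    have hS : ∀ a : ν → ℕ, (∀ s, β s = i → a s = 0) → 1 ≤ ∑ s, a s → ∑ s, a s ≤ M →
        ∑ w : W, f (ε w) * (if ∀ s, s ≠ x₀ → hh w.1 s = a s then 1 else 0) = 0 := by
      intro a ha ha1 ha2
      have h4 := hsw a (fun s hs => ha s (mem_filter.1 hs).2) ha1 ha2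
      refine Eq.trans ?_ h4
      have h5 : ∀ b ∈ bxd ν (2 * M) M,
          tcr (msk β I fun s => if s = x₀ then (1 : ℂ) else 0) b a *
            ∑ e : Ex β (2 * M - 1) l, f e * tcr p e.1 b =
          ∑ w : W, f (ε w) * ((if hh w.1 = b then 1 else 0) *
            (if ∀ s, s ≠ x₀ → b s = a s then 1 else 0)) := by
        intro b hb
        have hbs : ∑ s, b s = M := by
          unfold bxd at hb
          exact (mem_filter.1 hb).2
        rw [hSF, hB b hbs.le, hv, tcr_dir x₀ b a (ha x₀ hx₀), mul_sum]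
        refine sum_congr rfl fun w _ => ?_
        rw [tcr_same p _ b (by rw [hhsum w.1 w.2, hbs])]
        ring
      refine Eq.trans ?_ (sum_congr rfl h5).symm
      rw [sum_comm]
      refine sum_congr rfl fun w _ => ?_
      rw [← mul_sum]
      congr 1
      rw [sum_eq_single (hh w.1)]
      · rw [if_pos rfl, one_mul]
      · intro b _ hb
        rw [if_neg fun h => hb h.symm, zero_mul]
      · intro h
        exfalso
        refine h ?_
        unfold bxd
        rw [mem_filter, mem_bx]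
        refine ⟨fun s => ?_, hhsum w.1 w.2⟩
        have h6 := single_le_sum (f := hh w.1) (fun _ _ => Nat.zero_le _) (mem_univ s)
        rw [hhsum w.1 w.2] at h6
        omega
    -- the exponents with a pure power of `x₀` in the block `i`
    have hN : ∀ w : W, ¬ Q w.1 → f (ε w) = 0 := by
      intro w hw
      have hw0 : ∀ s, β s = i → s ≠ x₀ → w.1 s = 0 := by
        intro s hs hs'
        by_contra h
        exact hw ⟨s, hs, hs', h⟩
      have ha : ∀ s, s ≠ x₀ → Function.update w.1 x₀ 0 s = w.1 s := fun s hs =>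
        Function.update_of_ne hs _ _
      have hsum : ∑ s, Function.update w.1 x₀ 0 s + w.1 x₀ = M - 1 := by
        rw [← hWsum w.1 w.2, ← add_sum_erase univ (Function.update w.1 x₀ 0) (mem_univ x₀),
          ← add_sum_erase univ w.1 (mem_univ x₀), Function.update_self, zero_add, add_comm]
        congr 1
        exact sum_congr rfl fun s hs => ha s (ne_of_mem_erase hs)
      have h4 := hS (Function.update w.1 x₀ 0) (fun s hs => by
        by_cases hs' : s = x₀
        · rw [hs', Function.update_self]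
        · rw [ha s hs']
          exact hw0 s hs hs') (by
        by_contra hcon
        have h5 : ∑ s, Function.update w.1 x₀ 0 s = 0 := by omega
        refine hWne w.1 w.2 (funext fun s => ?_)
        by_cases hs' : s = x₀
        · rw [hs', Pi.single_eq_same]
          omega
        · rw [Pi.single_eq_of_ne hs', ← ha s hs']
          exact (sum_eq_zero_iff.1 h5) s (mem_univ s)) (by omega)
      rw [sum_eq_single w] at h4
      · rw [if_pos, mul_one] at h4
        · exact h4
        · intro s hs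
          rw [ha s hs]
          show w.1 s + (Pi.single (t w.1) 1 : ν → ℕ) s = w.1 s
          have h5 : t w.1 = x₀ := if_neg hw
          rw [h5, Pi.single_eq_of_ne hs, Nat.add_zero]
      · intro w' _ hw'
        rw [if_neg, mul_zero]
        intro h5
        refine hw' (Subtype.ext ?_)
        have h6 : ¬ Q w'.1 := by
          rintro ⟨s, hs, hs', h7⟩
          rw [← hoff w'.1 s hs hs', h5 s hs', ha s hs'] at h7
          exact h7 (hw0 s hs hs')
        have h7 : ∀ s, s ≠ x₀ → w'.1 s = w.1 s := by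
          intro s hs
          have h8 := h5 s hs
          rw [ha s hs] at h8
          rw [← h8]
          show w'.1 s = w'.1 s + (Pi.single (t w'.1) 1 : ν → ℕ) s
          have h9 : t w'.1 = x₀ := if_neg h6
          rw [h9, Pi.single_eq_of_ne hs, Nat.add_zero]
        have h8 : w'.1 x₀ = w.1 x₀ := by
          have e1 := hWsum w.1 w.2
          have e2 := hWsum w'.1 w'.2
          have e3 := add_sum_erase univ w.1 (mem_univ x₀)
          have e4 := add_sum_erase univ w'.1 (mem_univ x₀)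
          have e5 : ∑ s ∈ univ.erase x₀, w'.1 s = ∑ s ∈ univ.erase x₀, w.1 s :=
            sum_congr rfl fun s hs => h7 s (ne_of_mem_erase hs)
          omega
        funext s
        by_cases hs : s = x₀
        · rw [hs, h8]
        · exact h7 s hs
      · intro h
        exact absurd (mem_univ w) h
    -- the other exponents
    have hA' : ∀ b : ν → ℕ, ∑ i, b i < M →
        ∑ w : W, f (ε w) * tcr p (Pi.single s₀ 1 + w.1) b = 0 := by
      intro b hb
      rw [← hA b hb]
      refine sum_congr rfl fun w _ => ?_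
      by_cases hw : Q w.1
      · have h5 : hh w.1 = w.1 + Pi.single s₀ 1 := by
          show w.1 + Pi.single (t w.1) 1 = w.1 + Pi.single s₀ 1
          have h6 : t w.1 = s₀ := if_pos hw
          rw [h6]
        rw [h5, add_comm]
      · rw [hN w hw, zero_mul, zero_mul]
    intro w
    have h5 := (div_fat univ (fun w : W => f (ε w)) (fun w => w.1) (Pi.single s₀ 1) p
      (tcr_one fun s hs => by
        rw [Pi.single_eq_of_ne]
        rintro rfl
        have := mem_range.1 (hins hs)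
        omega) M hA').1 w.1 (by
      rw [hWsum w.1 w.2]
      omega)
    rw [sum_eq_single w] at h5
    · rw [tcr_same _ _ _ rfl, if_pos rfl, mul_one] at h5
      exact h5
    · intro w' _ hw'
      rw [tcr_same _ _ _ (by rw [hWsum w.1 w.2, hWsum w'.1 w'.2]),
        if_neg fun h => hw' (Subtype.ext h), mul_zero]
    · intro h
      exact absurd (mem_univ w) h)
  rw [Fintype.card_coe, hWcard] at key
  exact key

/-- The size of a kind is at least its weight. -/
theorem wt_le_size {M c l : ℕ} (hM : 2 ≤ M) {β : ν → ℕ} (hβ : ∀ i < l, (blo β i).card = c)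
    (hc : 1 ≤ c) {s₀ : ν} (hs₀ : l ≤ β s₀) {k : Kd} (hk : k.Ok M l) (hd : l ≤ dgr M k) :
    wt M c (Fintype.card ν) k ≤ (LS M β l).size k := by
  rcases k with ⟨μ, I⟩ | ⟨i, I⟩
  · exact wt_le_size_ord hβ hc hs₀ hk.1 hk.2.1 hk.2.2 hd
  · exact wt_le_size_sw (by omega) hβ hc hs₀ hk.1 hk.2 hd

theorem wt_le_size_blk {M c l n : ℕ} (hM : 2 ≤ M) (hc : 1 ≤ c) (h : l * c < n) {k : Kd}
    (hk : k.Ok M l) (hd : l ≤ dgr M k) : wt M c n k ≤ (LS M (blk c n) l).size k := by
  have h1 := wt_le_size (ν := Fin n) (c := c) hM (fun i hi => card_blo_blk hc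
    ((Nat.mul_le_mul_right c (Nat.succ_le_of_lt hi)).trans h.le)) hc (s₀ := ⟨l * c, h⟩)
    (show l ≤ l * c / c by rw [Nat.mul_div_cancel _ hc]) hk hd
  rwa [Fintype.card_fin] at h1

end Pool.Agent.V7

end

section

/-!
# V7, block ALPHA, module Base: exactness on the levels up to `2 M - 2` with room

If the virtual dimension exceeds `dz + |kds| B²` (`B` a bound of the weights of the kinds which occur)
then the configuration is independent: every further point imposes `size = wt` conditions, by the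
window lemma and the span property.
-/

set_option autoImplicit false

namespace Pool.Agent.V7

open Finset MvPolynomial Pool.Agent.H51.TB Pool.Agent.V7.ST

/-- **Exactness with room** on the canonical variables. -/
theorem base_exact {M c l n : ℕ} (hM : 2 ≤ M) (hc : 1 ≤ c) (hn : (l + 1) * c ≤ n) (s : Multiset Kd)
    (hs : ∀ k ∈ s, k.Ok M l ∧ l ≤ dgr M k) (B : ℕ) (hB : ∀ k ∈ s, wt M c n k ≤ B)
    (hroom : ((dz M c l n + (kds M l).card * B * B : ℕ) : ℤ) < vd M c l n s) :
    (gM (LS M (blk c n) l) s : ℤ) ≤ vd M c l n s := by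
  have hln : l * c < n := by nlinarith
  have hsz : ∀ k ∈ s, (LS M (blk c n) l).size k = wt M c n k := fun k hk =>
    le_antisymm (size_blk (by omega) (by omega) hln (hs k hk).1)
      (wt_le_size_blk hM hc hln (hs k hk).1 (hs k hk).2)
  have hmap : s.map (LS M (blk c n) l).size = s.map (wt M c n) := Multiset.map_congr rfl hsz
  have hE : Fintype.card (Ex (blk c n) (2 * M - 1) l) = bb c (2 * M - 1) l n :=
    (Fintype.card_coe _).trans (card_Ex_blk (by omega) hln.le _)
  have hKc : s.toFinset.card ≤ (kds M l).card :=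
    card_le_card fun k hk => mem_kds.2 (hs k (Multiset.mem_toFinset.1 hk)).1
  have hKB : s.toFinset.card * B * B ≤ (kds M l).card * B * B :=
    Nat.mul_le_mul_right _ (Nat.mul_le_mul_right _ hKc)
  unfold vd at hroom ⊢
  have h := base_abs (LS M (blk c n) l) (spanP_blk M c l n) s.toFinset
    (fun k hk => (hs k (Multiset.mem_toFinset.1 hk)).1) B
    (fun k hk => by
      rw [hsz k (Multiset.mem_toFinset.1 hk)]
      exact hB k (Multiset.mem_toFinset.1 hk)) s (fun k hk => Multiset.mem_toFinset.2 hk)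
    (by
      rw [hmap, hE]
      have h1 : ((dz M c l n + (kds M l).card * B * B + (s.map (wt M c n)).sum : ℕ) : ℤ) <
          (bb c (2 * M - 1) l n : ℕ) := by
        push_cast at hroom ⊢
        linarith
      have h2 : dz M c l n + (kds M l).card * B * B + (s.map (wt M c n)).sum <
          bb c (2 * M - 1) l n := by exact_mod_cast h1
      omega)
  rw [hmap, hE] at h
  have h3 : ((gM (LS M (blk c n) l) s + (s.map (wt M c n)).sum : ℕ) : ℤ) =
      (bb c (2 * M - 1) l n : ℕ) := by exact_mod_cast h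
  push_cast at h3 ⊢
  linarith

end Pool.Agent.V7

end

section

/-!
# V7, block ALPHA: the chain

For `c` large and divisible by a constant, the configurations of the chain impose independent
conditions on all levels `j, …, 2M-1` for all `ν ≥ K`: at `ν = K` by the window lemma
(`base_exact`), on the level `2M-1` by the tensor lemma (`top_level`), in general by the trace
inequality `gM_tr` and induction over `ν` and the level.  The configurations in the class `Cls0` are
contained in those of the chain.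
-/

set_option autoImplicit false

namespace Pool.Agent.V7

open Finset Pool.Agent.H51.TB Pool.Agent.V7.ST

/-- The virtual dimensions of the chain grow. -/
theorem chain_low (M j : ℕ) (hM : 2 ≤ M) (hj : j < M) : ∀ i, i + j + 1 ≤ 2 * M →
    ∃ δ : ℝ, 0 < δ ∧ ∃ K c₀ : ℕ, ∀ c, c₀ ≤ c → 1 ≤ c → (2 * M - 1).choose M ∣ c → ∀ r < c,
      ∀ ν, K ≤ ν → δ * (c : ℝ) ^ (2 * M - 1) * (ν : ℝ) ^ i ≤
        ((vd M c (2 * M - 1 - i) (c * ν + r) (cfg M c j (2 * M - 1 - i) ν) : ℤ) : ℝ) := by
  intro i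
  induction i with
  | zero =>
    intro _
    obtain ⟨c₀, h⟩ := top_low M j hM hj
    have hC : 0 < (2 * M - 1).choose M := Nat.choose_pos (by omega)
    have hC' : (0 : ℝ) < ((2 * M - 1).choose M : ℝ) := by exact_mod_cast hC
    refine ⟨1 / (2 * ((2 * M - 1).choose M : ℝ)), by positivity, 2 * M, c₀, ?_⟩
    intro c hc hc1 hdiv r hr ν hν
    have h1 := h c hc hdiv (c * ν + r) ν (by
      have h2 : (2 * M - 1) * c ≤ ν * c := Nat.mul_le_mul_right c (by omega)
      have h3 : ν * c = c * ν := mul_comm _ _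
      omega)
    have h2 : ((c : ℝ) ^ (2 * M - 1)) ≤ 2 * ((2 * M - 1).choose M : ℝ) *
        ((vd M c (2 * M - 1) (c * ν + r) (cfg M c j (2 * M - 1) ν) : ℤ) : ℝ) := by
      exact_mod_cast h1
    rw [Nat.sub_zero, pow_zero, mul_one, one_div, inv_mul_le_iff₀ (by positivity)]
    exact h2
  | succ i ih =>
    intro hi
    obtain ⟨δ, hδ, K, c₀, h⟩ := ih (by omega)
    set l := 2 * M - 1 - (i + 1) with hl
    have hl1 : 2 * M - 1 - i = l + 1 := by omega
    rw [hl1] at h
    set K' := max K (2 * M) with hK'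
    have hKK' : K ≤ K' := le_max_left _ _
    have hMK' : 2 * M ≤ K' := le_max_right _ _
    obtain ⟨B, hB⟩ : ∃ B : ℕ, B = (kds M l).card * (3 * 2 ^ K') * (K' + 1 + M) ^ (M - 1) :=
      ⟨_, rfl⟩
    obtain ⟨Q, hQ⟩ := exists_nat_ge (2 * (B : ℝ) / δ)
    refine ⟨δ / (2 * 4 ^ (i + 1)), by positivity, 2 * K' + 2 + 4 * (Q + 1), c₀, ?_⟩
    intro c hc hc1 hdiv r hr ν hν
    have hcp : (0 : ℝ) < (c : ℝ) := by exact_mod_cast hc1
    have h1 := growth
      (fun ν => ((vd M c l (c * ν + r) (cfg M c j l ν) : ℤ) : ℝ))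
      (fun ν => ((vd M c (l + 1) (c * ν + r) (cfg M c j (l + 1) ν) : ℤ) : ℝ)) K' i
      (δ * (c : ℝ) ^ (2 * M - 1)) (B * (c : ℝ) ^ (2 * M - 1)) (by positivity) ?_ ?_ ?_ ν (by omega)
    · refine le_trans ?_ h1
      have h2 : (1 : ℝ) ≤ (ν : ℝ) / 4 := by
        rw [le_div_iff₀ (by norm_num)]
        exact_mod_cast (by omega : 1 * 4 ≤ ν)
      have h3 : 2 * (B : ℝ) / δ ≤ (ν : ℝ) / 4 := by
        refine hQ.trans ?_
        rw [le_div_iff₀ (by norm_num)]
        exact_mod_cast (by omega : Q * 4 ≤ ν)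
      have h4 : (ν : ℝ) / 4 ≤ ((ν : ℝ) / 4) ^ (i + 1) := le_self_pow₀ h2 (by omega)
      have h5 : (B : ℝ) ≤ δ / 2 * ((ν : ℝ) / 4) ^ (i + 1) := by
        have h6 := h3.trans h4
        rw [div_le_iff₀ hδ] at h6
        linarith only [h6]
      have h6 : (0 : ℝ) < (c : ℝ) ^ (2 * M - 1) := by positivity
      have h7 := mul_le_mul_of_nonneg_left h5 h6.le
      have h8 : δ / (2 * 4 ^ (i + 1)) * (c : ℝ) ^ (2 * M - 1) * (ν : ℝ) ^ (i + 1) =
          (c : ℝ) ^ (2 * M - 1) * (δ / 2 * ((ν : ℝ) / 4) ^ (i + 1)) := by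
        rw [div_pow]
        field_simp
      rw [h8]
      have h9 : δ * (c : ℝ) ^ (2 * M - 1) * ((ν : ℝ) / 4) ^ (i + 1) =
          2 * ((c : ℝ) ^ (2 * M - 1) * (δ / 2 * ((ν : ℝ) / 4) ^ (i + 1))) := by ring
      rw [h9]
      linarith only [h7]
    · intro ν' hν'
      have h2 : (l + 1) * c + 1 ≤ c * (ν' + 1) + r := by
        have h3 : (l + 2) * c ≤ (ν' + 1) * c := Nat.mul_le_mul_right c (by omega)
        have h4 : (l + 2) * c = (l + 1) * c + c := by ring
        have h5 : (ν' + 1) * c = c * (ν' + 1) := mul_comm _ _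
        omega
      have h3 := vd_chain (M := M) (j := j) (l := l) (ν := ν') (by omega) (by omega) (by omega) h2
      have h4 : c * (ν' + 1) + r - c = c * ν' + r := by
        rw [mul_add, mul_one]
        omega
      rw [h4] at h3
      show ((vd M c l (c * (ν' + 1) + r) (cfg M c j l (ν' + 1)) : ℤ) : ℝ) =
        ((vd M c l (c * ν' + r) (cfg M c j l ν') : ℤ) : ℝ) +
          ((vd M c (l + 1) (c * (ν' + 1) + r) (cfg M c j (l + 1) (ν' + 1)) : ℤ) : ℝ)
      rw [h3]
      push_cast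
      ring
    · intro ν' hν'
      exact h c hc hc1 hdiv r hr ν' (hKK'.trans hν')
    · have h2 := vd_low (M := M) (c := c) (j := j) (l := l) (ν := K') (n := c * K' + r) (by omega)
        hc1 (by
          rw [mul_add, mul_one]
          omega)
      rw [← hB] at h2
      have h3 : ((-((B * c ^ (2 * M - 1) : ℕ) : ℤ) : ℤ) : ℝ) ≤
          ((vd M c l (c * K' + r) (cfg M c j l K') : ℤ) : ℝ) := by exact_mod_cast h2
      push_cast at h3
      exact h3

/-- Uniform choice of the constants. -/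
theorem unif (P : ℕ → ℕ → ℕ → Prop) (N : ℕ)
    (h : ∀ i < N, ∃ K₀, ∀ K, K₀ ≤ K → ∃ c₀, ∀ c, c₀ ≤ c → P i K c) :
    ∃ K₀, ∀ K, K₀ ≤ K → ∃ c₀, ∀ c, c₀ ≤ c → ∀ i < N, P i K c := by
  induction N with
  | zero => exact ⟨0, fun K _ => ⟨0, fun c _ i hi => absurd hi (Nat.not_lt_zero i)⟩⟩
  | succ N ih =>
    obtain ⟨K₁, h1⟩ := ih fun i hi => h i (by omega)
    obtain ⟨K₂, h2⟩ := h N (by omega)
    refine ⟨max K₁ K₂, fun K hK => ?_⟩
    obtain ⟨c₁, h3⟩ := h1 K ((le_max_left _ _).trans hK)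
    obtain ⟨c₂, h4⟩ := h2 K ((le_max_right _ _).trans hK)
    refine ⟨max c₁ c₂, fun c hc i hi => ?_⟩
    rcases Nat.lt_succ_iff_lt_or_eq.1 hi with h5 | h5
    · exact h3 c ((le_max_left _ _).trans hc) i h5
    · rw [h5]
      exact h4 c ((le_max_right _ _).trans hc)

/-- There is room for the window lemma. -/
theorem chain_room (M j : ℕ) (hM : 2 ≤ M) (hj : j < M) (i : ℕ) (hi : i + 1 + j + 1 ≤ 2 * M) :
    ∃ K₀, ∀ K, K₀ ≤ K → ∃ c₀, ∀ c, c₀ ≤ c → 1 ≤ c → (2 * M - 1).choose M ∣ c → ∀ r < c,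
      ((dz M c (2 * M - 1 - (i + 1)) (c * K + r) + (kds M (2 * M - 1 - (i + 1))).card *
        ((K + 1 + M) ^ (M - 1) * c ^ (M - 1)) * ((K + 1 + M) ^ (M - 1) * c ^ (M - 1)) : ℕ) : ℤ) <
        vd M c (2 * M - 1 - (i + 1)) (c * K + r) (cfg M c j (2 * M - 1 - (i + 1)) K) := by
  obtain ⟨δ, hδ, K₁, c₁, h⟩ := chain_low M j hM hj (i + 1) (by omega)
  set l := 2 * M - 1 - (i + 1) with hl
  obtain ⟨Q, hQ⟩ := exists_nat_gt (4 * (M : ℝ) * 2 ^ i / δ)
  refine ⟨K₁ + Q + 1, fun K hK => ?_⟩
  obtain ⟨D, hD⟩ : ∃ D : ℕ, D = (kds M l).card * (K + 1 + M) ^ (M - 1) * (K + 1 + M) ^ (M - 1) :=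
    ⟨_, rfl⟩
  obtain ⟨Q', hQ'⟩ := exists_nat_gt (2 * (D : ℝ) / δ)
  refine ⟨c₁ + Q' + 1, fun c hc hc1 hdiv r hr => ?_⟩
  have h1 := h c (by omega) hc1 hdiv r hr K (by omega)
  have hcp : (0 : ℝ) < (c : ℝ) := by exact_mod_cast hc1
  have hKp : (1 : ℝ) ≤ (K : ℝ) := by exact_mod_cast (by omega : 1 ≤ K)
  have hcpow : (0 : ℝ) < (c : ℝ) ^ (2 * M - 1) := by positivity
  -- the number `dz`
  have h2 := dz_le M c l (c * K + r) hc1 (by omega)
  have e1 : 2 * M - 2 - l = i := by omega
  rw [e1] at h2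
  have h3 : dz M c l (c * K + r) ≤ 2 * M * 2 ^ i * (c ^ (2 * M - 1) * K ^ i) := by
    refine h2.trans ?_
    have h4 : c * K + r ≤ 2 * (c * K) := by
      have h5 : c * 1 ≤ c * K := Nat.mul_le_mul_left c (by omega)
      omega
    calc c ^ l * (l * c) * (c * K + r) ^ i ≤ c ^ l * (2 * M * c) * (2 * (c * K)) ^ i :=
          Nat.mul_le_mul (Nat.mul_le_mul_left _ (Nat.mul_le_mul_right c (by omega)))
            (Nat.pow_le_pow_left h4 i)
      _ = 2 * M * 2 ^ i * ((c ^ l * c * c ^ i) * K ^ i) := by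
          rw [mul_pow, mul_pow]
          ring
      _ = 2 * M * 2 ^ i * (c ^ (2 * M - 1) * K ^ i) := by
          rw [← pow_succ, ← pow_add]
          congr 4
          omega
  have h4 : (dz M c l (c * K + r) : ℝ) ≤ 2 * M * 2 ^ i * ((c : ℝ) ^ (2 * M - 1) * (K : ℝ) ^ i) := by
    exact_mod_cast h3
  have h5 : 2 * (M : ℝ) * 2 ^ i < δ / 2 * K := by
    have h6 : 4 * (M : ℝ) * 2 ^ i / δ < K := hQ.trans_le (by exact_mod_cast (by omega : Q ≤ K))
    rw [div_lt_iff₀ hδ] at h6
    linarith only [h6]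
  have hKi : (0 : ℝ) < (K : ℝ) ^ i := by positivity
  have h6 : (dz M c l (c * K + r) : ℝ) < δ / 2 * (c : ℝ) ^ (2 * M - 1) * (K : ℝ) ^ (i + 1) := by
    refine h4.trans_lt ?_
    have h7 := mul_lt_mul_of_pos_right h5 (mul_pos hcpow hKi)
    calc _ < δ / 2 * K * ((c : ℝ) ^ (2 * M - 1) * (K : ℝ) ^ i) := h7
      _ = _ := by ring
  -- the window
  have h7 : (kds M l).card * ((K + 1 + M) ^ (M - 1) * c ^ (M - 1)) *
      ((K + 1 + M) ^ (M - 1) * c ^ (M - 1)) = D * c ^ (2 * M - 2) := by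
    have h8 : c ^ (2 * M - 2) = c ^ (M - 1) * c ^ (M - 1) := by
      rw [← pow_add]
      congr 1
      omega
    rw [h8, hD]
    ring
  have h8 : (D : ℝ) * (c : ℝ) ^ (2 * M - 2) ≤ δ / 2 * (c : ℝ) ^ (2 * M - 1) * (K : ℝ) ^ (i + 1) := by
    have h9 : 2 * (D : ℝ) / δ < c := hQ'.trans_le (by exact_mod_cast (by omega : Q' ≤ c))
    rw [div_lt_iff₀ hδ] at h9
    have h10 : (c : ℝ) ^ (2 * M - 1) = c * (c : ℝ) ^ (2 * M - 2) := by
      rw [← pow_succ']
      congr 1
      omega
    have h11 : (1 : ℝ) ≤ (K : ℝ) ^ (i + 1) := one_le_pow₀ hKp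
    have h12 : (0 : ℝ) < (c : ℝ) ^ (2 * M - 2) := by positivity
    calc (D : ℝ) * (c : ℝ) ^ (2 * M - 2) ≤ (δ / 2 * c) * (c : ℝ) ^ (2 * M - 2) :=
          mul_le_mul_of_nonneg_right (by linarith only [h9]) h12.le
      _ = δ / 2 * (c : ℝ) ^ (2 * M - 1) * 1 := by
          rw [h10]
          ring
      _ ≤ _ := mul_le_mul_of_nonneg_left h11 (by positivity)
  rw [h7]
  have h9 : (((dz M c l (c * K + r) + D * c ^ (2 * M - 2) : ℕ) : ℤ) : ℝ) <
      ((vd M c l (c * K + r) (cfg M c j l K) : ℤ) : ℝ) := by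
    push_cast
    calc (dz M c l (c * K + r) : ℝ) + D * (c : ℝ) ^ (2 * M - 2) <
        δ / 2 * (c : ℝ) ^ (2 * M - 1) * (K : ℝ) ^ (i + 1) +
          δ / 2 * (c : ℝ) ^ (2 * M - 1) * (K : ℝ) ^ (i + 1) := by linarith only [h6, h8]
      _ = δ * (c : ℝ) ^ (2 * M - 1) * (K : ℝ) ^ (i + 1) := by ring
      _ ≤ _ := h1
  exact_mod_cast h9

/-- Fewer points. -/
theorem gM_le_wt {M c l n : ℕ} (hM : 1 ≤ M) (hc : 1 ≤ c) (hn : (l + 1) * c ≤ n) (s : Multiset Kd) :
    ∀ u : Multiset Kd, (∀ k ∈ u, k.Ok M l) →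
      gM (LS M (blk c n) l) s ≤ gM (LS M (blk c n) l) (u + s) + (u.map (wt M c n)).sum := by
  intro u
  induction u using Multiset.induction_on with
  | empty =>
    intro _
    rw [zero_add, Multiset.map_zero, Multiset.sum_zero, add_zero]
  | cons k u ih =>
    intro hu
    have h1 := ih fun k' hk' => hu k' (Multiset.mem_cons_of_mem hk')
    have h2 := gM_le_cons (LS M (blk c n) l) (u + s) k
    have h3 : (LS M (blk c n) l).size k ≤ wt M c n k := by
      refine size_blk hM (by omega) ?_ (hu k (Multiset.mem_cons_self k u))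
      have h4 : (l + 1) * c = l * c + c := by ring
      omega
    rw [Multiset.cons_add, Multiset.map_cons, Multiset.sum_cons]
    omega

/-- The chain. -/
theorem chain (M j : ℕ) (hM : 2 ≤ M) (hj : j < M) : ∃ c₀ L : ℕ, 1 ≤ L ∧ ∀ c, c₀ ≤ c → L ∣ c →
    ∃ K, ∀ r < c, ∀ ν, K ≤ ν → ∀ i, i + j + 1 ≤ 2 * M →
      (gM (LS M (blk c (c * ν + r)) (2 * M - 1 - i)) (cfg M c j (2 * M - 1 - i) ν) : ℤ) ≤
        vd M c (2 * M - 1 - i) (c * ν + r) (cfg M c j (2 * M - 1 - i) ν) := by
  obtain ⟨K₀, hK₀⟩ := unif (fun i K c => 1 ≤ c → (2 * M - 1).choose M ∣ c → ∀ r < c,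
      ((dz M c (2 * M - 1 - (i + 1)) (c * K + r) + (kds M (2 * M - 1 - (i + 1))).card *
        ((K + 1 + M) ^ (M - 1) * c ^ (M - 1)) * ((K + 1 + M) ^ (M - 1) * c ^ (M - 1)) : ℕ) : ℤ) <
        vd M c (2 * M - 1 - (i + 1)) (c * K + r) (cfg M c j (2 * M - 1 - (i + 1)) K))
    (2 * M - 1 - j) fun i hi => chain_room M j hM hj i (by omega)
  set K := max K₀ (2 * M) with hK
  obtain ⟨c₁, hc₁⟩ := hK₀ K (le_max_left _ _)
  have hMK : 2 * M ≤ K := le_max_right _ _
  obtain ⟨W, c₂, w, hW, hsum, hint, hcnt⟩ := top_weights M j hM hj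
  have hC : 1 ≤ (2 * M - 1).choose M := Nat.choose_pos (by omega)
  refine ⟨c₁ + c₂ + 1, W.factorial * (2 * M - 1).choose M,
    Nat.mul_pos (Nat.factorial_pos W) hC, fun c hc hdiv => ⟨K, ?_⟩⟩
  intro r hr
  have hc1 : 1 ≤ c := by omega
  have hdW : W.factorial ∣ c := (Dvd.intro _ rfl).trans hdiv
  have hdC : (2 * M - 1).choose M ∣ c := (Dvd.intro_left _ rfl).trans hdiv
  -- the top level
  have htop : ∀ ν, K ≤ ν → (gM (LS M (blk c (c * ν + r)) (2 * M - 1))
      (cfg M c j (2 * M - 1) ν) : ℤ) ≤ vd M c (2 * M - 1) (c * ν + r) (cfg M c j (2 * M - 1) ν) := by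
    intro ν hν
    refine top_level hM hc1 ?_ _ (fun k hk => ⟨(mem_cfg hk).1, (mem_cfg hk).2.2⟩) W hW hdW w hsum
      hint fun S hS => hcnt c (by omega) hdC ν S hS
    have h2 : (2 * M - 1) * c ≤ ν * c := Nat.mul_le_mul_right c (by omega)
    have h3 : ν * c = c * ν := mul_comm _ _
    omega
  intro ν hν
  induction ν, hν using Nat.le_induction with
  | base =>
    intro i hi
    rcases i with _ | i
    · exact htop K le_rfl
    · have hlr : (2 * M - 1 - (i + 1) + 1) * c ≤ c * K + r := by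
        have h2 : (2 * M - 1 - (i + 1) + 1) * c ≤ K * c := Nat.mul_le_mul_right c (by omega)
        have h3 : K * c = c * K := mul_comm _ _
        omega
      refine base_exact hM hc1 hlr _ (fun k hk => ⟨(mem_cfg hk).1, (mem_cfg hk).2.2⟩)
        ((K + 1 + M) ^ (M - 1) * c ^ (M - 1)) (fun k hk => ?_)
        (hc₁ c (by omega) i (by omega) hc1 hdC r hr)
      refine wt_le (by omega) hc1 ?_ (mem_cfg hk).1
      rw [mul_add, mul_one]
      omega
  | succ ν hν ih =>
    intro i
    induction i with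
    | zero => exact fun _ => htop (ν + 1) (by omega)
    | succ i ihi =>
      intro hi
      have h1 := ih (i + 1) hi
      have h2 := ihi (by omega)
      set l := 2 * M - 1 - (i + 1) with hl
      have hl1 : 2 * M - 1 - i = l + 1 := by omega
      rw [hl1] at h2
      have h3 : (l + 1) * c + 1 ≤ c * (ν + 1) + r := by
        have h3 : (l + 2) * c ≤ (ν + 1) * c := Nat.mul_le_mul_right c (by omega)
        have h4 : (l + 2) * c = (l + 1) * c + c := by ring
        have h5 : (ν + 1) * c = c * (ν + 1) := mul_comm _ _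
        omega
      have h4 : c * (ν + 1) + r - c = c * ν + r := by
        rw [mul_add, mul_one]
        omega
      have h5 := gM_tr M c l (c * (ν + 1) + r) (by omega) hc1 (by omega) (cfg M c j l ν)
        (cfg M c j l (ν + 1) - cfg M c j l ν) fun k hk => (mem_cfg hk).1
      rw [cfg_step (by omega) (by omega), add_tsub_cancel_of_le cfg_mono, h4] at h5
      have h6 := vd_chain (M := M) (c := c) (j := j) (l := l) (ν := ν) (by omega) (by omega)
        (by omega) h3
      rw [h4] at h6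
      rw [h6]
      have h7 : (gM (LS M (blk c (c * (ν + 1) + r)) l) (cfg M c j l (ν + 1)) : ℤ) ≤
          (gM (LS M (blk c (c * ν + r)) l) (cfg M c j l ν) : ℤ) +
            (gM (LS M (blk c (c * (ν + 1) + r)) (l + 1)) (cfg M c j (l + 1) (ν + 1)) : ℤ) := by
        exact_mod_cast h5
      linarith only [h2, h1, h5]

/-- ALPHA for one level. -/
theorem alpha_one (M j : ℕ) (hM : 2 ≤ M) (hj : j < M) : ∃ c₀ L : ℕ, 1 ≤ L ∧
    ∀ c, c₀ ≤ c → L ∣ c → OJ M c j := by
  obtain ⟨c₀, L, hL, h⟩ := chain M j hM hj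
  have hC : 1 ≤ (2 * M - 1).choose M := Nat.choose_pos (by omega)
  refine ⟨c₀ + 1, L * (2 * M - 1).choose M, Nat.mul_pos hL hC, fun c hc hdiv => ?_⟩
  have hc1 : 1 ≤ c := by omega
  obtain ⟨K, hK⟩ := h c (by omega) ((Dvd.intro _ rfl).trans hdiv)
  obtain ⟨e, he, n₀, hcl⟩ := cls_le_cfg M c j hM hj hc1 ((Dvd.intro_left _ rfl).trans hdiv)
  refine ⟨e, he, n₀ + c * (K + 2 * M), fun n hn s hs htop => ?_⟩
  have h1 := hcl n (by omega) s hs htop
  set ν := n / c with hν
  have hn' : c * ν + n % c = n := Nat.div_add_mod n c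
  have hνK : K + 2 * M ≤ ν := by
    rw [hν, Nat.le_div_iff_mul_le (by omega), mul_comm]
    omega
  have h2 := hK (n % c) (Nat.mod_lt _ (by omega)) ν (by omega) (2 * M - 1 - j) (by omega)
  have e1 : 2 * M - 1 - (2 * M - 1 - j) = j := by omega
  rw [e1, hn'] at h2
  set t := cfg M c j j ν with ht
  have hlr : (j + 1) * c ≤ n := by
    have h3 : (j + 1) * c ≤ ν * c := Nat.mul_le_mul_right c (by omega)
    have h4 : ν * c = c * ν := mul_comm _ _
    omega
  have h3 := gM_le_wt (M := M) (by omega) hc1 hlr s (t - s) fun k hk =>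
    (mem_cfg (Multiset.mem_of_le (Multiset.sub_le_self t s) hk)).1
  have e2 : t - s + s = t := tsub_add_cancel_of_le h1
  rw [e2] at h3
  have h4 : (t.map (wt M c n)).sum = ((t - s).map (wt M c n)).sum + (s.map (wt M c n)).sum := by
    rw [← Multiset.sum_add, ← Multiset.map_add, e2]
  unfold vd at h2 ⊢
  have h5 : (gM (LS M (blk c n) j) s : ℤ) ≤ gM (LS M (blk c n) j) t +
      (((t - s).map (wt M c n)).sum : ℕ) := by exact_mod_cast h3
  rw [h4, Nat.cast_add] at h2
  linarith only [h2, h5]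

/-- **ALPHA.** -/
theorem alpha (M : ℕ) (hM : 2 ≤ M) : ∃ c₀ L : ℕ, 1 ≤ L ∧ ∀ c, c₀ ≤ c → L ∣ c →
    ∀ j < M, OJ M c j := by
  have key : ∀ N, N ≤ M → ∃ c₀ L : ℕ, 1 ≤ L ∧ ∀ c, c₀ ≤ c → L ∣ c → ∀ j < N, OJ M c j := by
    intro N
    induction N with
    | zero => exact fun _ => ⟨0, 1, le_rfl, fun c _ _ j hj => absurd hj (Nat.not_lt_zero j)⟩
    | succ N ih =>
      intro hN
      obtain ⟨c₁, L₁, h1, h2⟩ := ih (by omega)
      obtain ⟨c₂, L₂, h3, h4⟩ := alpha_one M N hM (by omega)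
      refine ⟨max c₁ c₂, L₁ * L₂, Nat.mul_pos h1 h3, fun c hc hdiv j hj => ?_⟩
      rcases Nat.lt_succ_iff_lt_or_eq.1 hj with h5 | h5
      · exact h2 c ((le_max_left _ _).trans hc) ((Dvd.intro _ rfl).trans hdiv) j h5
      · rw [h5]
        exact h4 c ((le_max_right _ _).trans hc) ((Dvd.intro_left _ rfl).trans hdiv)
  exact key M le_rfl

end Pool.Agent.V7

end
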