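import Pool.Agent.H94.LP7.M18
import Pool.Agent.H94.LP7.M23
import Pool.Agent.H94.LP7.M54

/-! The parts of this file: KZ.Top.Exact, KZ.Top.Rel, V7.Top.Inp, V7.Top.Prop. -/

section

/-!
# KZ4, TOP: exactness of the evaluation of vector valued forms for `N ≥ N₀ + 1` points

As `V7/Top/Main.lean` and `V7/Top/Asm.lean`, without the lower bound for the dimension: if the space for
`N ≥ N₀ + 1` points is not zero, then all drops are `b`.
-/

namespace Pool.Agent.KZ.Top

open Module MvPolynomial Pool.Agent.H51.TB Pool.Agent.V7.Top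

variable {R b m M : ℕ}

/-- As `coord_exact`, for `N ≥ N₀ + 1` without a lower bound for `R`. -/
theorem coord_exact' {S : Set ℂ} (hS : S.Countable) {H : Fin R → Fin b → Ex m M → ℂ}
    (hH : ∀ D ∈ Pool.Agent.V7.Top.Kd S, ∀ j a α, D (H j a α) = 0)
    (hinj : ∀ u : Fin R → ℂ, (∀ a α, GH H u a α = 0) → u = 0) (N₀ : ℕ)
    (h1 : (m + M - 1).choose M < N₀ + (m - (2 * b - 2) + M - 1).choose M)
    (h2 : ∀ E : Submodule ℂ (Fin b → ℂ), E ≠ ⊥ → E ≠ ⊤ →
      finrank ℂ (secU H E) + finrank ℂ E * (b - finrank ℂ E) < finrank ℂ E * N₀)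
    (N : ℕ) (h3 : N₀ + 1 ≤ N) :
    ∃ l : Fin N → Fin m → ℂ, finrank ℂ (VS H (Set.range l)) ≤ R - b * N := by
  classical
  have hN' := h3
  obtain ⟨t, ht⟩ := exists_gen hS ((Fin N × Fin m) ⊕ Fin R)
  let L : Fin N → Fin m → ℂ := fun s i => t (Sum.inl (s, i))
  let W : Finset (Fin N) → Submodule ℂ (Fin R → ℂ) := fun A => VS H (L '' A)
  have hWi : ∀ (A : Finset (Fin N)) (q : Fin N), W (insert q A) = VS H (insert (L q) (L '' A)) := by
    intro A q
    simp only [W, Finset.coe_insert, Set.image_insert_eq]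
  have hdrop : ∀ (A : Finset (Fin N)) (q : Fin N), q ∉ A → N₀ ≤ A.card →
      W (insert q A) ≠ ⊥ → finrank ℂ (W (insert q A)) + b ≤ finrank ℂ (W A) := by
    intro A q hq hA hne
    have hr : Set.range (fun s : A => L s) = L '' A := by
      ext x
      constructor
      · rintro ⟨s, rfl⟩
        exact ⟨s, s.2, rfl⟩
      · rintro ⟨s, hs, rfl⟩
        exact ⟨⟨s, hs⟩, rfl⟩
    let f : (A × Fin m) ⊕ (Fin m ⊕ Fin R) → (Fin N × Fin m) ⊕ Fin R :=
      Sum.elim (fun p => Sum.inl (p.1.1, p.2)) (Sum.elim (fun i => Sum.inl (q, i)) Sum.inr)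
    have hf : Function.Injective f := by
      rintro (⟨⟨s, hs⟩, i⟩ | (i | j)) (⟨⟨s', hs'⟩, i'⟩ | (i' | j')) h
      · simp only [f, Sum.elim_inl, Sum.inl.injEq, Prod.mk.injEq] at h
        obtain ⟨h4, h5⟩ := h
        subst h4
        subst h5
        rfl
      · simp only [f, Sum.elim_inl, Sum.elim_inr, Sum.inl.injEq, Prod.mk.injEq] at h
        exact absurd (h.1 ▸ hs) hq
      · simp [f] at h
      · simp only [f, Sum.elim_inl, Sum.elim_inr, Sum.inl.injEq, Prod.mk.injEq] at h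
        exact absurd (h.1.symm ▸ hs') hq
      · simp only [f, Sum.elim_inl, Sum.elim_inr, Sum.inl.injEq, Prod.mk.injEq, true_and] at h
        rw [h]
      · simp [f] at h
      · simp [f] at h
      · simp [f] at h
      · simp only [f, Sum.elim_inr, Sum.inr.injEq] at h
        rw [h]
    have hgen : Gen S (Sum.elim (fun p : A × Fin m => L p.1 p.2)
        (Sum.elim (L q) (fun j => t (Sum.inr j)))) := by
      have h4 := ht.comp f hf
      have h5 : (fun k => t (f k)) = Sum.elim (fun p : A × Fin m => L p.1 p.2)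
          (Sum.elim (L q) (fun j => t (Sum.inr j))) := by
        funext k
        rcases k with p | (i | j) <;> rfl
      rw [h5] at h4
      exact h4
    have h4 := main_claim hH hinj (fun s : A => L s) (L q) (fun j => t (Sum.inr j)) hgen N₀
      (by rw [Fintype.card_coe]; exact hA) h1 h2 (by rw [hr, ← hWi]; exact hne)
    rw [hr, ← hWi] at h4
    exact h4
  have hanti : ∀ A : Finset (Fin N), W Finset.univ ≤ W A := fun A u hu y hy =>
    hu y (Set.image_mono (Finset.coe_subset.2 (Finset.subset_univ A)) hy)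
  refine ⟨L, ?_⟩
  have hrange : Set.range L = L '' ((Finset.univ : Finset (Fin N)) : Set (Fin N)) := by
    rw [Finset.coe_univ, Set.image_univ]
  rw [hrange]
  by_cases hz : W Finset.univ = ⊥
  · have h4 : finrank ℂ (W Finset.univ) = 0 := by rw [hz, finrank_bot]
    have h5 : finrank ℂ (W Finset.univ) =
        finrank ℂ (VS H (L '' ((Finset.univ : Finset (Fin N)) : Set (Fin N)))) := rfl
    omega
  have hnz : ∀ A : Finset (Fin N), W A ≠ ⊥ := fun A hA => hz (eq_bot_iff.2 (hA ▸ hanti A))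
  have hP : ∀ (A : Finset (Fin N)) (q : Fin N), q ∉ A → A.card = N₀ →
      finrank ℂ (W (insert q A)) + b ≤ finrank ℂ (W A) := by
    intro A q hq hA
    exact hdrop A q hq hA.ge (hnz _)
  have hsmall : ∀ (A : Finset (Fin N)) (q : Fin N), q ∉ A → A.card ≤ N₀ →
      finrank ℂ (W (insert q A)) + b ≤ finrank ℂ (W A) := by
    intro A q hq hA
    have h4 : A ⊆ Finset.univ.erase q := by
      intro x hx
      rw [Finset.mem_erase]
      refine ⟨?_, Finset.mem_univ _⟩
      rintro rfl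
      exact hq hx
    have h5 : N₀ ≤ (Finset.univ.erase q).card := by
      rw [Finset.card_erase_of_mem (Finset.mem_univ _), Finset.card_univ, Fintype.card_fin]
      omega
    obtain ⟨B, hAB, hB, hBc⟩ := Finset.exists_subsuperset_card_eq h4 hA h5
    have hqB : q ∉ B := fun h => (Finset.mem_erase.1 (hB h)).1 rfl
    have h6 := hP B q hqB hBc
    have h7 := VS_drop_mono H (A := L '' A) (B := L '' B)
      (Set.image_mono (Finset.coe_subset.2 hAB)) (L q)
    rw [← hWi, ← hWi] at h7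
    have h8 : finrank ℂ (W A) = finrank ℂ (VS H (L '' A)) := rfl
    have h9 : finrank ℂ (W B) = finrank ℂ (VS H (L '' B)) := rfl
    omega
  have hmain : ∀ A : Finset (Fin N), finrank ℂ (W A) ≤ R - b * A.card := by
    intro A
    induction A using Finset.induction_on with
    | empty =>
      have h4 := Submodule.finrank_le (W ∅)
      rw [finrank_fintype_fun_eq_card, Fintype.card_fin] at h4
      rw [Finset.card_empty, mul_zero, Nat.sub_zero]
      exact h4
    | insert q A hq ih =>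
      rw [Finset.card_insert_of_notMem hq, mul_add, mul_one]
      by_cases hA : A.card ≤ N₀
      · have h4 := hsmall A q hq hA
        omega
      · have h4 := hdrop A q hq (by omega) (hnz _)
        omega
  have h4 := hmain Finset.univ
  rw [Finset.card_univ, Fintype.card_fin] at h4
  exact h4

/-- Exactness of the evaluation of vector valued forms at general points: if the slope condition
`h2` holds, `N` general points impose `min (b * N) (dim V)` conditions on `V`. -/
theorem top_exact' (V : Submodule ℂ (Fin b → MvPolynomial (Fin m) ℂ)) [FiniteDimensional ℂ V]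
    (hV : ∀ G ∈ V, ∀ a, (G a).IsHomogeneous M) (N₀ : ℕ)
    (h1 : (m + M - 1).choose M < N₀ + (m - (2 * b - 2) + M - 1).choose M)
    (h2 : ∀ E : Submodule ℂ (Fin b → ℂ), E ≠ ⊥ → E ≠ ⊤ →
      finrank ℂ (secE V E) + finrank ℂ E * (b - finrank ℂ E) < finrank ℂ E * N₀)
    (N : ℕ) (h3 : N₀ + 1 ≤ N) :
    ∃ l : Fin N → Fin m → ℂ, finrank ℂ (vanish V l) ≤ finrank ℂ V - b * N := by
  classical
  let B := Module.finBasis ℂ V
  let H : Fin (finrank ℂ V) → Fin b → Ex m M → ℂ :=
    fun j a α => coeff α.1 (((B j : V) : Fin b → MvPolynomial (Fin m) ℂ) a)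
  let S : Set ℂ := Set.range (fun q : Fin (finrank ℂ V) × Fin b × Ex m M => H q.1 q.2.1 q.2.2)
  have hS : S.Countable := Set.countable_range _
  have hH : ∀ D ∈ Pool.Agent.V7.Top.Kd S, ∀ j a α, D (H j a α) = 0 := fun D hD j a α => hD _ ⟨(j, a, α), rfl⟩
  let f : (Fin (finrank ℂ V) → ℂ) →ₗ[ℂ] (Fin b → MvPolynomial (Fin m) ℂ) :=
    V.subtype.comp B.equivFun.symm.toLinearMap
  have hf : Function.Injective f :=
    Subtype.val_injective.comp B.equivFun.symm.injective
  have hfV : ∀ u, f u ∈ V := fun u => (B.equivFun.symm u).2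
  have hfP : ∀ u a, f u a = Pg (GH H u a) := by
    intro u a
    have h4 : f u a = ∑ j, u j • ((B j : V) : Fin b → MvPolynomial (Fin m) ℂ) a := by
      show ((B.equivFun.symm u : V) : Fin b → MvPolynomial (Fin m) ℂ) a = _
      rw [Basis.equivFun_symm_apply, Submodule.coe_sum, Finset.sum_apply]
      rfl
    ext α
    by_cases h : α ∈ Finset.finsuppAntidiag (Finset.univ : Finset (Fin m)) M
    · have h5 := coeff_Pg (GH H u a) ⟨α, h⟩
      simp only at h5
      rw [h5, GH_apply, h4, coeff_sum]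
      apply Finset.sum_congr rfl
      intro j _
      rw [coeff_smul, smul_eq_mul]
    · rw [coeff_Pg' _ _ h]
      apply (hV _ (hfV u) a).coeff_eq_zero
      intro h5
      apply h
      rw [Finset.mem_finsuppAntidiag]
      refine ⟨?_, Finset.subset_univ _⟩
      rw [← h5, Finsupp.degree_eq_sum]
  have hinj : ∀ u : Fin (finrank ℂ V) → ℂ, (∀ a α, GH H u a α = 0) → u = 0 := by
    intro u hu
    apply hf
    rw [map_zero]
    funext a
    rw [hfP, Pi.zero_apply, ← map_zero Pg]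
    congr 1
    funext α
    exact hu a α
  have hsurj : ∀ G ∈ V, ∃ u, f u = G := by
    intro G hG
    refine ⟨B.equivFun ⟨G, hG⟩, ?_⟩
    show ((B.equivFun.symm (B.equivFun ⟨G, hG⟩) : V) : Fin b → MvPolynomial (Fin m) ℂ) = G
    rw [LinearEquiv.symm_apply_apply]
  have hsec : ∀ E : Submodule ℂ (Fin b → ℂ), finrank ℂ (secU H E) = finrank ℂ (secE V E) := by
    intro E
    have h4 : (secU H E).map f = secE V E := by
      ext G
      constructor
      · rintro ⟨u, hu, rfl⟩
        refine ⟨hfV u, fun α => ?_⟩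
        by_cases h : α ∈ Finset.finsuppAntidiag (Finset.univ : Finset (Fin m)) M
        · have h5 := hu ⟨α, h⟩
          have h6 : (fun a => coeff α (f u a)) = col H u ⟨α, h⟩ := by
            funext a
            rw [hfP]
            exact coeff_Pg (GH H u a) ⟨α, h⟩
          rw [h6]
          exact h5
        · have h6 : (fun a => coeff α (f u a)) = 0 := by
            funext a
            rw [hfP, coeff_Pg' _ _ h]
            rfl
          rw [h6]
          exact E.zero_mem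
      · rintro ⟨hG, hG'⟩
        obtain ⟨u, rfl⟩ := hsurj G hG
        refine ⟨u, fun α => ?_, rfl⟩
        have h6 : (fun a => coeff α.1 (f u a)) = col H u α := by
          funext a
          rw [hfP]
          exact coeff_Pg (GH H u a) α
        rw [← h6]
        exact hG' α.1
    rw [← h4]
    exact (Submodule.equivMapOfInjective f hf (secU H E)).finrank_eq
  obtain ⟨l, hl⟩ := coord_exact' hS hH hinj N₀ h1 (fun E hE hE' => by
    rw [hsec]
    exact h2 E hE hE') N h3
  refine ⟨l, ?_⟩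
  have h4 : (VS H (Set.range l)).map f = vanish V l := by
    ext G
    constructor
    · rintro ⟨u, hu, rfl⟩
      refine ⟨hfV u, fun s a => ?_⟩
      rw [hfP]
      exact hu (l s) ⟨s, rfl⟩ a
    · rintro ⟨hG, hG'⟩
      obtain ⟨u, rfl⟩ := hsurj G hG
      refine ⟨u, ?_, rfl⟩
      rintro x ⟨s, rfl⟩ a
      rw [← hfP]
      exact hG' s a
  rw [← h4, ← (Submodule.equivMapOfInjective f hf (VS H (Set.range l))).finrank_eq]
  exact hl

/-- The points of type `top` impose the expected number of conditions on the solutions for the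
points `rest`, if their conditions are the vanishing of a vector valued form at a point. -/
theorem assemble' {E ν T : Type} [Fintype E] (S : Sys E ν T) {κ : Type} (rest : κ → T) (top : T)
    {b m M : ℕ} (Γ : (E → ℂ) →ₗ[ℂ] (Fin b → MvPolynomial (Fin m) ℂ))
    (hhom : ∀ f a, (Γ f a).IsHomogeneous M) (pos : (Fin m → ℂ) → ν → ℂ)
    (htop : ∀ (z : Fin m → ℂ) (f : E → ℂ), f ∈ S.V (fun _ : Unit => top) (fun _ => pos z) →
      ∀ a, eval z (Γ f a) = 0)
    (p₀ : κ → ν → ℂ) (hinj : ∀ f ∈ S.V rest p₀, Γ f = 0 → f = 0) (N₀ : ℕ)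
    (h1 : (m + M - 1).choose M < N₀ + (m - (2 * b - 2) + M - 1).choose M)
    (h2 : ∀ F : Submodule ℂ (Fin b → ℂ), F ≠ ⊥ → F ≠ ⊤ →
      finrank ℂ (secE ((S.V rest p₀).map Γ) F) + finrank ℂ F * (b - finrank ℂ F) <
        finrank ℂ F * N₀)
    (N : ℕ) (h3 : N₀ + 1 ≤ N) :
    S.gd (Sum.elim rest fun _ : Fin N => top) ≤ finrank ℂ (S.V rest p₀) - b * N := by
  classical
  set V := (S.V rest p₀).map Γ with hV
  have hfin : FiniteDimensional ℂ V := inferInstance
  let Γ' : S.V rest p₀ →ₗ[ℂ] (Fin b → MvPolynomial (Fin m) ℂ) := Γ.domRestrict _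
  have hΓ' : Function.Injective Γ' := by
    rw [← LinearMap.ker_eq_bot, eq_bot_iff]
    intro f hf
    rw [Submodule.mem_bot]
    exact Subtype.ext (hinj f.1 f.2 hf)
  have hfr : finrank ℂ V = finrank ℂ (S.V rest p₀) := by
    have h4 : LinearMap.range Γ' = V := LinearMap.range_domRestrict _ _
    rw [← h4]
    exact LinearMap.finrank_range_of_inj hΓ'
  obtain ⟨l, hl⟩ := top_exact' V (M := M) (by
    rintro _ ⟨f, _, rfl⟩ a
    exact hhom f a) N₀ h1 h2 N h3
  rw [hfr] at hl
  refine le_trans ?_ hl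
  refine (gd_le S _ (Sum.elim p₀ fun s => pos (l s))).trans ?_
  have hle : ∀ f ∈ S.V (Sum.elim rest fun _ : Fin N => top) (Sum.elim p₀ fun s => pos (l s)),
      f ∈ S.V rest p₀ ∧ Γ f ∈ vanish V l := by
    intro f hf
    rw [V_elim, Submodule.mem_inf] at hf
    refine ⟨hf.1, Submodule.mem_map_of_mem hf.1, fun s a => htop (l s) f ?_ a⟩
    intro _ r
    exact hf.2 s r
  have hfd : FiniteDimensional ℂ (vanish V l) :=
    Submodule.finiteDimensional_of_le (S₂ := V) fun G hG => hG.1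
  let Δ : S.V (Sum.elim rest fun _ : Fin N => top) (Sum.elim p₀ fun s => pos (l s)) →ₗ[ℂ]
      vanish V l := (Γ.domRestrict _).codRestrict (vanish V l) fun f => (hle f.1 f.2).2
  refine LinearMap.finrank_le_finrank_of_injective (f := Δ) ?_
  rw [← LinearMap.ker_eq_bot, eq_bot_iff]
  intro f hf
  rw [Submodule.mem_bot]
  have h4 : Γ f.1 = 0 := congrArg Subtype.val hf
  exact Subtype.ext (hinj f.1 (hle f.1 f.2).1 h4)

end Pool.Agent.KZ.Top

end

section

/-!
# KZ4, TOP: the relative form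

All coefficient vectors of the solutions at the position `p₀` lie in a subspace `B`; the slopes are
compared with `B`.
-/

set_option autoImplicit false
set_option linter.unusedSectionVars false

namespace Pool.Agent.KZ.Top

open Finset Module MvPolynomial Pool.Agent.H51.TB Pool.Agent.V7.Top

variable {ν : Type} [Fintype ν] [DecidableEq ν] {k c m : ℕ}

/-- A linear map in coordinates, on vector valued forms. -/
noncomputable def mapv {I : Type} [Fintype I] [DecidableEq I] {b : ℕ}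
    (π : (I → ℂ) →ₗ[ℂ] (Fin b → ℂ)) :
    (I → MvPolynomial (Fin m) ℂ) →ₗ[ℂ] (Fin b → MvPolynomial (Fin m) ℂ) :=
  LinearMap.pi fun j => ∑ a : I, π (Pi.single a 1) j • LinearMap.proj a

theorem mapv_apply {I : Type} [Fintype I] [DecidableEq I] {b : ℕ}
    (π : (I → ℂ) →ₗ[ℂ] (Fin b → ℂ)) (G : I → MvPolynomial (Fin m) ℂ) (j : Fin b) :
    mapv π G j = ∑ a : I, π (Pi.single a 1) j • G a := by
  simp [mapv]

theorem coeff_mapv {I : Type} [Fintype I] [DecidableEq I] {b : ℕ}
    (π : (I → ℂ) →ₗ[ℂ] (Fin b → ℂ)) (G : I → MvPolynomial (Fin m) ℂ) (α : Fin m →₀ ℕ) :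
    (fun j => coeff α (mapv π G j)) = π fun a => coeff α (G a) := by
  funext j
  rw [mapv_apply, coeff_sum]
  have h1 : (fun a => coeff α (G a)) = ∑ a : I, coeff α (G a) • (Pi.single a (1 : ℂ) : I → ℂ) := by
    funext a
    rw [Finset.sum_apply, Finset.sum_eq_single a]
    · simp
    · intro b _ hb
      rw [Pi.smul_apply, Pi.single_eq_of_ne (Ne.symm hb), smul_zero]
    · intro h
      exact absurd (mem_univ a) h
  rw [h1, map_sum, Finset.sum_apply]
  refine sum_congr rfl fun a _ => ?_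
  rw [map_smul, Pi.smul_apply, coeff_smul, smul_eq_mul, smul_eq_mul, mul_comm]

theorem top_rel (φ : (Fin k × Fin c) ⊕ Fin m ≃ ν) {A : Finset (ν → ℕ)} {T ν' : Type}
    (S : Sys {e // e ∈ A} ν' T) {κ : Type} (rest : κ → T) (top : T) {M : ℕ}
    (hhom : ∀ (f : {e // e ∈ A} → ℂ) a, (Gam φ f a).IsHomogeneous M)
    (pos : (Fin m → ℂ) → ν' → ℂ)
    (htop : ∀ (z : Fin m → ℂ) (f : {e // e ∈ A} → ℂ),
      f ∈ S.V (fun _ : Unit => top) (fun _ => pos z) → ∀ a, eval z (Gam φ f a) = 0)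
    (p₀ : κ → ν' → ℂ) (B : Submodule ℂ ((Fin k → Fin c) → ℂ))
    (hB : ∀ f ∈ S.V rest p₀, ∀ α, (fun a => coeff α (Gam φ f a)) ∈ B)
    (hinj : ∀ f ∈ S.V rest p₀, Gam φ f = 0 → f = 0) (N₀ : ℕ)
    (h1 : (m + M - 1).choose M < N₀ + (m - (2 * finrank ℂ B - 2) + M - 1).choose M)
    (h2 : ∀ F : Submodule ℂ ((Fin k → Fin c) → ℂ), F ≤ B → F ≠ ⊥ → F ≠ B →
      finrank ℂ (SF φ (S.V rest p₀) F) + finrank ℂ F * (finrank ℂ B - finrank ℂ F) <
        finrank ℂ F * N₀)
    (N : ℕ) (h3 : N₀ + 1 ≤ N) :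
    S.gd (Sum.elim rest fun _ : Fin N => top) ≤ finrank ℂ (S.V rest p₀) - finrank ℂ B * N := by
  classical
  obtain ⟨l, hl⟩ := LinearMap.exists_leftInverse_of_injective B.subtype (by
    rw [Submodule.ker_subtype])
  let e : B ≃ₗ[ℂ] (Fin (finrank ℂ B) → ℂ) := (Module.finBasis ℂ B).equivFun
  let π : ((Fin k → Fin c) → ℂ) →ₗ[ℂ] (Fin (finrank ℂ B) → ℂ) := e.toLinearMap ∘ₗ l
  have hπB : ∀ x : B, π x = e x := by
    intro x
    show e (l x) = e x
    have h4 : l (B.subtype x) = x := LinearMap.congr_fun hl x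
    exact congrArg e h4
  have hπ0 : ∀ x ∈ B, π x = 0 → x = 0 := by
    intro x hx h
    have h4 := hπB ⟨x, hx⟩
    have h5 : π x = e ⟨x, hx⟩ := h4
    rw [h5] at h
    have h6 := (LinearEquiv.map_eq_zero_iff e).1 h
    exact congrArg Subtype.val h6
  have hπs : ∀ y, ∃ x ∈ B, π x = y := by
    intro y
    refine ⟨(e.symm y : B), (e.symm y).2, ?_⟩
    rw [hπB, LinearEquiv.apply_symm_apply]
  refine assemble' S rest top (M := M) (mapv π ∘ₗ Gam φ) ?_ pos ?_ p₀ ?_ N₀ h1 ?_ N h3
  · intro f j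
    show (mapv π (Gam φ f) j).IsHomogeneous M
    rw [mapv_apply]
    refine IsHomogeneous.sum _ _ _ fun a _ => ?_
    rw [smul_eq_C_mul]
    have h4 := (isHomogeneous_C (Fin m) (π (Pi.single a 1) j)).mul (hhom f a)
    rwa [zero_add] at h4
  · intro z f hf j
    show eval z (mapv π (Gam φ f) j) = 0
    rw [mapv_apply, map_sum]
    refine sum_eq_zero fun a _ => ?_
    rw [smul_eval, htop z f hf a, mul_zero]
  · intro f hf h4
    refine hinj f hf (funext fun a => ?_)
    ext α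
    have h5 : π (fun a => coeff α (Gam φ f a)) = 0 := by
      rw [← coeff_mapv]
      have h6 : mapv π (Gam φ f) = 0 := h4
      rw [h6]
      funext j
      exact coeff_zero _
    exact congrFun (hπ0 _ (hB f hf α) h5) a
  · intro F' hF' hF''
    set F : Submodule ℂ ((Fin k → Fin c) → ℂ) := B ⊓ F'.comap π with hF
    have hmap : F.map π = F' := by
      refine le_antisymm ?_ ?_
      · rintro _ ⟨x, hx, rfl⟩
        exact hx.2
      · intro y hy
        obtain ⟨x, hx, rfl⟩ := hπs y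
        exact ⟨x, ⟨hx, hy⟩, rfl⟩
    have hfr : finrank ℂ F = finrank ℂ F' := by
      have h4 := LinearMap.finrank_range_add_finrank_ker (π.domRestrict F)
      have h5 : LinearMap.range (π.domRestrict F) = F' := by
        rw [LinearMap.range_domRestrict, hmap]
      have h6 : LinearMap.ker (π.domRestrict F) = ⊥ := by
        rw [eq_bot_iff]
        rintro ⟨x, hx⟩ h
        rw [Submodule.mem_bot]
        exact Subtype.ext (hπ0 x hx.1 h)
      rw [h5, h6, finrank_bot, add_zero] at h4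
      exact h4.symm
    have hb : F ≠ ⊥ := by
      intro h
      rw [h, finrank_bot] at hfr
      exact hF' (Submodule.finrank_eq_zero.1 hfr.symm)
    have ht : F ≠ B := by
      intro h
      apply hF''
      rw [eq_top_iff]
      intro y _
      obtain ⟨x, hx, rfl⟩ := hπs y
      rw [← h] at hx
      exact hx.2
    have h4 := h2 F inf_le_left hb ht
    rw [hfr] at h4
    refine lt_of_le_of_lt ?_ h4
    gcongr
    refine le_trans ?_ (Submodule.finrank_map_le (mapv π ∘ₗ Gam φ) _)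
    refine Submodule.finrank_mono ?_
    rintro G ⟨⟨f, hf, rfl⟩, h5⟩
    refine ⟨f, ⟨hf, fun α => ⟨hB f hf α, ?_⟩⟩, rfl⟩
    have h6 := h5 α
    have h7 : (fun j => coeff α ((mapv π ∘ₗ Gam φ) f j)) = π fun a => coeff α (Gam φ f a) :=
      coeff_mapv π (Gam φ f) α
    rw [h7] at h6
    exact h6

end Pool.Agent.KZ.Top

end

section

/-!
# The top level: the input statements
-/

set_option autoImplicit false

namespace Pool.Agent.V7

open Finset Module Pool.Agent.H51.TB Pool.Agent.V7.ST Topology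

/-- GAMMA: at general positions of the points a form of the level `k = M - 1` which satisfies their
conditions is zero if its part of degree `k` in the variables of the blocks `0, …, k - 1` is. -/
def GAMMA (M c k : ℕ) : Prop :=
  ∃ e : ℝ, 0 < e ∧ ∃ n₀ : ℕ, ∀ n : ℕ, n₀ ≤ n → ∀ (κ : Type) [Fintype κ] (rest : κ → Kd),
    Cls0 M c k n e (fun τ => ((univ : Finset κ).val.map rest).count τ) →
    Gn κ (Fin n ⊕ Fin n) fun p => ∀ f ∈ (LS M (blk c n) k).V rest p,
      (∀ a : {a // a ∈ Ex (blk c n) (2 * M - 1) k},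
        ∑ s ∈ univ.filter (fun s => blk c n s < k), a.1 s ≤ k → f a = 0) → f = 0

/-- BETA: near some position of the points (none of the type `range k`) the solutions with
coefficient vectors in a proper subspace `F ≠ 0` are too few. -/
def BETA (M c k : ℕ) : Prop :=
  ∃ δ : ℝ, 0 < δ ∧ ∃ e : ℝ, 0 < e ∧ ∃ n₀ : ℕ, ∀ n : ℕ, n₀ ≤ n →
    ∀ (m : ℕ) (φ : (Fin k × Fin c) ⊕ Fin m ≃ Fin n), Top.IsB φ (blk c n) →
    ∀ (κ : Type) [Fintype κ] (rest : κ → Kd),
    Cls0 M c k n e (fun τ => ((univ : Finset κ).val.map rest).count τ) →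
    (∀ i, rest i ≠ Kd.ord M (range k)) →
    ∃ p₁ : κ → Fin n ⊕ Fin n → ℂ, ∀ᶠ p in 𝓝 p₁, ∀ F : Submodule ℂ ((Fin k → Fin c) → ℂ),
      F ≠ ⊥ → F ≠ ⊤ → (finrank ℂ (Top.SF φ ((LS M (blk c n) k).V rest p) F) : ℝ) ≤
        (1 - δ) * finrank ℂ F * ((n : ℝ) ^ M / (((2 * M - 1).choose M : ℝ) * (M.factorial : ℝ)))

/-- The virtual dimension of the points which are not of the type `range k`. -/
def VAS (M c k : ℕ) : Prop :=
  ∃ K : ℝ, 0 < K ∧ ∃ n₀ : ℕ, ∀ n : ℕ, n₀ ≤ n → ∀ e : ℝ, 0 ≤ e → e ≤ 1 → ∀ N : Kd → ℕ,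
    Cls0 M c k n e N → N (.ord M (range k)) = 0 →
    |(vN M c k n N : ℝ) - (c : ℝ) ^ k *
      ((n : ℝ) ^ M / (((2 * M - 1).choose M : ℝ) * (M.factorial : ℝ)))| ≤
      (K * e + K / n) * (n : ℝ) ^ M

/-- The numbering of the variables. -/
def phn (c k n : ℕ) (h : k * c ≤ n) : (Fin k × Fin c) ⊕ Fin (n - k * c) ≃ Fin n :=
  ((Equiv.sumCongr finProdFinEquiv (Equiv.refl _)).trans finSumFinEquiv).trans
    (finCongr (Nat.add_sub_cancel' h))

theorem phn_inl (c k n : ℕ) (h : k * c ≤ n) (x : Fin k × Fin c) :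
    (phn c k n h (Sum.inl x)).1 = x.2 + c * x.1 := rfl

theorem phn_inr (c k n : ℕ) (h : k * c ≤ n) (t : Fin (n - k * c)) :
    (phn c k n h (Sum.inr t)).1 = k * c + t := rfl

theorem isB_phn (c k n : ℕ) (hc : 0 < c) (h : k * c ≤ n) : Top.IsB (phn c k n h) (blk c n) := by
  constructor
  · intro x
    show (phn c k n h (Sum.inl x)).1 / c = x.1
    rw [phn_inl, Nat.add_mul_div_left _ _ hc, Nat.div_eq_of_lt x.2.2, zero_add]
  · intro t
    show k ≤ (phn c k n h (Sum.inr t)).1 / c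
    rw [phn_inr, Nat.le_div_iff_mul_le hc]
    omega

end Pool.Agent.V7

end

section

/-!
# Exactness on the top level
-/

set_option autoImplicit false

namespace Pool.Agent.V7

open Finset Module Pool.Agent.H51.TB Pool.Agent.V7.ST Topology

theorem choose_add_le (M a s : ℕ) :
    (a + s).choose (M + 1) ≤ a.choose (M + 1) + s * (a + s).choose M := by
  induction s with
  | zero => simp
  | succ s ih =>
    have h1 : (a + (s + 1)).choose (M + 1) = (a + s).choose M + (a + s).choose (M + 1) :=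
      Nat.choose_succ_succ' _ _
    have h2 : (a + s).choose M ≤ (a + (s + 1)).choose M := Nat.choose_le_choose M (by omega)
    have h3 : s * (a + s).choose M ≤ s * (a + (s + 1)).choose M := Nat.mul_le_mul_left _ h2
    rw [h1, add_mul, one_mul]
    omega

/-- The hypothesis `h1` of `top_gen`. -/
theorem top_h1 {M m n r N₀ : ℕ} (hM : 1 ≤ M) (hmn : m ≤ n) (hMn : M ≤ n)
    (h : r * (2 * n) ^ (M - 1) < N₀) :
    (m + M - 1).choose M < N₀ + (m - r + M - 1).choose M := by
  obtain ⟨M', rfl⟩ : ∃ M', M = M' + 1 := ⟨M - 1, by omega⟩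
  obtain ⟨s, hs⟩ : ∃ s, m + (M' + 1) - 1 = (m - r + (M' + 1) - 1) + s := ⟨m - (m - r), by omega⟩
  have hsr : s ≤ r := by omega
  have h1 := choose_add_le M' (m - r + (M' + 1) - 1) s
  rw [← hs] at h1
  have h2 : (m + (M' + 1) - 1).choose M' ≤ (2 * n) ^ M' := by
    refine (Nat.choose_le_pow _ _).trans ?_
    exact Nat.pow_le_pow_left (by omega) _
  have h3 : s * (m + (M' + 1) - 1).choose M' ≤ r * (2 * n) ^ M' := Nat.mul_le_mul hsr h2
  rw [Nat.add_sub_cancel] at h
  omega

/-- The choice of the numbers. -/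
theorem nums {M D r : ℕ} (hM : 1 ≤ M) (hD : 1 ≤ D) {Q δ K : ℝ} (hQ : 0 < Q) (hδ : 0 < δ)
    (hδ1 : δ ≤ 1) (hK : 0 < K) : ∃ e₀ : ℝ, 0 < e₀ ∧ e₀ ≤ 1 ∧ ∃ n₀ : ℕ, 1 ≤ n₀ ∧ ∀ n : ℕ, n₀ ≤ n →
      ∀ e : ℝ, 0 ≤ e → e ≤ e₀ → ∃ N₀ : ℕ, r * (2 * n) ^ (M - 1) < N₀ ∧
        (1 - δ) * ((n : ℝ) ^ M / Q) + D < N₀ ∧
        (D : ℝ) * (N₀ + 1) + (K * e + K / n) * (n : ℝ) ^ M ≤ D * ((n : ℝ) ^ M / Q) := by
  have hD' : (1 : ℝ) ≤ D := by exact_mod_cast hD
  refine ⟨min 1 (D * δ / (8 * K * Q)), lt_min one_pos (by positivity), min_le_left _ _, ?_⟩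
  obtain ⟨n₁, hn₁⟩ := exists_nat_ge (4 * Q / δ + 2 * (D + 1) * Q / δ +
    2 * Q * (r * 2 ^ (M - 1) + 1) + 8 * K * Q / (D * δ))
  refine ⟨n₁ + 1, by omega, fun n hn e he he' => ?_⟩
  have hn0 : 1 ≤ n := by omega
  have hnR : (1 : ℝ) ≤ n := by exact_mod_cast hn0
  have hn' : 4 * Q / δ + 2 * (D + 1) * Q / δ + 2 * Q * (r * 2 ^ (M - 1) + 1) +
      8 * K * Q / (D * δ) ≤ (n : ℝ) := by
    refine hn₁.trans ?_
    exact_mod_cast (by omega : n₁ ≤ n)
  have p1 : (0 : ℝ) ≤ 4 * Q / δ := by positivity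
  have p2 : (0 : ℝ) ≤ 2 * (D + 1) * Q / δ := by positivity
  have p3 : (0 : ℝ) ≤ 2 * Q * (r * 2 ^ (M - 1) + 1) := by positivity
  have p4 : (0 : ℝ) ≤ 8 * K * Q / (D * δ) := by positivity
  have q1 : 4 * Q / δ ≤ n := by linarith only [hn', p2, p3, p4]
  have q2 : 2 * (D + 1) * Q / δ ≤ n := by linarith only [hn', p1, p3, p4]
  have q3 : 2 * Q * (r * 2 ^ (M - 1) + 1) ≤ n := by linarith only [hn', p1, p2, p4]
  have q4 : 8 * K * Q / (D * δ) ≤ n := by linarith only [hn', p1, p2, p3]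
  set X : ℝ := (n : ℝ) ^ M / Q with hX
  have hpow : (n : ℝ) ^ M = n * (n : ℝ) ^ (M - 1) := by
    rw [← pow_succ', Nat.sub_add_cancel hM]
  have hpow1 : (1 : ℝ) ≤ (n : ℝ) ^ (M - 1) := one_le_pow₀ hnR
  have hXn : (n : ℝ) / Q ≤ X := by
    rw [hX]
    apply div_le_div_of_nonneg_right _ hQ.le
    rw [hpow]
    nlinarith only [hpow1]
  have hXQ : (n : ℝ) ^ M = Q * X := by
    rw [hX]
    field_simp
  have hX0 : 0 < X := lt_of_lt_of_le (by positivity) hXn
  have a1 : 4 / δ ≤ X := by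
    refine le_trans ?_ hXn
    rw [le_div_iff₀ hQ]
    calc 4 / δ * Q = 4 * Q / δ := by ring
      _ ≤ n := q1
  have a2 : 2 * (D + 1) / δ ≤ X := by
    refine le_trans ?_ hXn
    rw [le_div_iff₀ hQ]
    calc 2 * (D + 1) / δ * Q = 2 * (D + 1) * Q / δ := by ring
      _ ≤ n := q2
  have a1' : 4 ≤ δ * X := by
    rw [div_le_iff₀ hδ] at a1
    linarith only [a1]
  have a2' : 2 * (D + 1) ≤ δ * X := by
    rw [div_le_iff₀ hδ] at a2
    linarith only [a2]
  have a3 : (r : ℝ) * (2 * n) ^ (M - 1) + 1 ≤ X / 2 := by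
    rw [hX, le_div_iff₀ two_pos, le_div_iff₀ hQ, hpow]
    have b1 : (r : ℝ) * (2 * n) ^ (M - 1) + 1 ≤ (r * 2 ^ (M - 1) + 1) * (n : ℝ) ^ (M - 1) := by
      rw [mul_pow]
      nlinarith only [hpow1]
    have b2 : ((r : ℝ) * (2 * n) ^ (M - 1) + 1) * 2 * Q ≤
        (2 * Q * (r * 2 ^ (M - 1) + 1)) * (n : ℝ) ^ (M - 1) := by
      have := mul_le_mul_of_nonneg_left b1 (by positivity : (0 : ℝ) ≤ 2 * Q)
      nlinarith only [this]
    exact b2.trans (mul_le_mul_of_nonneg_right q3 (by positivity))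
  have a4 : K / n * Q ≤ D * δ / 8 := by
    rw [div_mul_eq_mul_div, div_le_iff₀ (by positivity)]
    rw [div_le_iff₀ (by positivity)] at q4
    nlinarith only [q4]
  have a5 : K * e * Q ≤ D * δ / 8 := by
    have := he'.trans (min_le_right _ _)
    rw [le_div_iff₀ (by positivity)] at this
    nlinarith only [this]
  have hY0 : 0 ≤ (1 - δ / 2) * X := mul_nonneg (by linarith only [hδ1]) hX0.le
  have hf1 := Nat.floor_le hY0
  have hf2 := Nat.lt_floor_add_one ((1 - δ / 2) * X)
  refine ⟨⌊(1 - δ / 2) * X⌋₊, ?_, ?_, ?_⟩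
  · have h : ((r * (2 * n) ^ (M - 1) : ℕ) : ℝ) < (⌊(1 - δ / 2) * X⌋₊ : ℝ) := by
      push_cast
      nlinarith only [a3, hf2, hδ1, hX0]
    exact_mod_cast h
  · nlinarith only [a2', hf2]
  · rw [hXQ]
    have b1 : (K * e + K / n) * (Q * X) ≤ D * δ / 4 * X := by
      have : (K * e + K / n) * Q ≤ D * δ / 4 := by
        calc (K * e + K / n) * Q = K * e * Q + K / n * Q := by ring
          _ ≤ D * δ / 8 + D * δ / 8 := add_le_add a5 a4
          _ = D * δ / 4 := by ring
      calc (K * e + K / n) * (Q * X) = ((K * e + K / n) * Q) * X := by ring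
        _ ≤ D * δ / 4 * X := mul_le_mul_of_nonneg_right this hX0.le
    have b2 : (D : ℝ) * (⌊(1 - δ / 2) * X⌋₊ + 1) ≤ D * ((1 - δ / 2) * X + 1) := by
      apply mul_le_mul_of_nonneg_left _ (by linarith only [hD'])
      linarith only [hf1]
    nlinarith only [b1, b2, a1']

theorem Cls0.wk {M c j n : ℕ} {e e' : ℝ} {N : Kd → ℕ} (h : Cls0 M c j n e N) (he : e ≤ e') :
    Cls0 M c j n e' N where
  ok := h.ok
  big I hI hI' := (h.big I hI hI').trans (mul_le_mul_of_nonneg_right he (by positivity))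
  swp i hi I hI := (h.swp i hi I hI).trans (mul_le_mul_of_nonneg_right (by linarith only [he]) (by positivity))
  sml μ h1 h2 I hI := (h.sml μ h1 h2 I hI).trans (mul_le_mul_of_nonneg_right he (by positivity))

/-- Without the points of the type `range k`. -/
theorem Cls0.flt {M c k n : ℕ} {e : ℝ} {s : Multiset Kd}
    (h : Cls0 M c k n e fun τ => s.count τ) :
    Cls0 M c k n e fun τ => (s.filter fun τ => τ ≠ Kd.ord M (range k)).count τ := by
  have hc : ∀ τ, τ ≠ Kd.ord M (range k) →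
      (s.filter fun τ => τ ≠ Kd.ord M (range k)).count τ = s.count τ := by
    intro τ hτ
    rw [Multiset.count_filter, if_pos hτ]
  refine ⟨fun τ hτ => ?_, fun I hI hI' => ?_, fun i hi I hI => ?_, fun μ h1 h2 I hI => ?_⟩
  · refine h.ok τ fun h0 => hτ ?_
    have h1 : (s.filter fun τ => τ ≠ Kd.ord M (range k)).count τ ≤ s.count τ :=
      Multiset.count_le_of_le τ (Multiset.filter_le _ _)
    exact Nat.le_zero.1 (h1.trans h0.le)
  · have h1 := h.big I hI hI'
    unfold tot at h1 ⊢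
    simp only at h1 ⊢
    rw [hc _ (by
      intro h2
      rw [Kd.ord.injEq] at h2
      exact hI' h2.2)]
    rw [sum_congr rfl fun i _ => hc (Kd.sw i I) (by simp)]
    exact h1
  · have h1 := h.swp i hi I hI
    rw [hc _ (by simp)]
    exact h1
  · have h3 := h.sml μ h1 h2 I hI
    rw [hc _ (by
      intro h4
      rw [Kd.ord.injEq] at h4
      omega)]
    exact h3

/-- **TOP.** Exactness on the level `k = M - 1`. -/
theorem prop_of (M c k : ℕ) (hM : 2 ≤ M) (hk : k + 1 = M) (hc : 1 ≤ c)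
    (hbb : ∀ n, k * c ≤ n → bb c k k n = c ^ k)
    (hO : OJ M c k) (hG : GAMMA M c k) (hB : BETA M c k) (hV : VAS M c k) : PROP M c k := by
  classical
  obtain ⟨eA, heA, nA, hA⟩ := hO
  obtain ⟨eG, heG, nG, hG⟩ := hG
  obtain ⟨δ, hδ, eB, heB, nB, hB⟩ := hB
  obtain ⟨K, hK, nV, hV⟩ := hV
  have hD : 1 ≤ c ^ k := Nat.one_le_pow _ _ hc
  have hC : 0 < (2 * M - 1).choose M := Nat.choose_pos (by omega)
  set Q : ℝ := ((2 * M - 1).choose M : ℝ) * (M.factorial : ℝ) with hQdef
  have hQ : 0 < Q := by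
    have h1 : (0 : ℝ) < (2 * M - 1).choose M := by exact_mod_cast hC
    positivity
  obtain ⟨e₀, he₀, he₀1, n₀, hn₀1, hnum⟩ := nums (M := M) (D := c ^ k) (r := 2 * c ^ k - 2)
    (by omega) hD hQ (lt_min hδ one_pos) (min_le_right δ 1) hK
  refine ⟨min e₀ (min eA (min eG eB)), lt_min he₀ (lt_min heA (lt_min heG heB)),
    n₀ + nA + nG + nB + nV + k * c + 1 + M, fun n hn s hs => ?_⟩
  set e := min e₀ (min eA (min eG eB)) with he
  have he0 : 0 ≤ e := (lt_min he₀ (lt_min heA (lt_min heG heB))).le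
  have e1 : e ≤ e₀ := min_le_left _ _
  have e2 : e ≤ eA := (min_le_right _ _).trans (min_le_left _ _)
  have e3 : e ≤ eG := (min_le_right _ _).trans ((min_le_right _ _).trans (min_le_left _ _))
  have e4 : e ≤ eB := (min_le_right _ _).trans ((min_le_right _ _).trans (min_le_right _ _))
  have hkc : k * c < n := by omega
  set τ₀ := Kd.ord M (range k) with hτ₀
  set r := s.filter fun τ => τ ≠ τ₀ with hr
  set N := s.count τ₀ with hN
  have hsr : s = r + Multiset.replicate N τ₀ := by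
    have h1 := Multiset.filter_add_not (fun τ => τ ≠ τ₀) s
    have h2 : (s.filter fun τ => ¬ (τ ≠ τ₀)) = Multiset.replicate N τ₀ := by
      rw [hN, ← Multiset.filter_eq']
      refine Multiset.filter_congr fun τ _ => ?_
      exact not_not
    rw [h2] at h1
    exact h1.symm
  have hrc : Cls0 M c k n e fun τ => r.count τ := hs.toCls0.flt
  have hrok : ∀ τ ∈ r, τ ∈ kds M k := fun τ hτ => hrc.ok τ (Multiset.count_ne_zero.2 hτ)
  have hr0 : τ₀ ∉ r := fun h => (Multiset.mem_filter.1 h).2 rfl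
  obtain ⟨rest, hrest, hgd⟩ := exists_conf (LS M (blk c n) k) r
  -- the virtual dimension
  have hvr := hV n (by omega) e he0 (e1.trans he₀1) (fun τ => r.count τ) hrc
    (Multiset.count_eq_zero.2 hr0)
  rw [← vd_eq_vN M c k n r hrok] at hvr
  have hle : vd M c k n r ≤ gM (LS M (blk c n) k) r :=
    vd_le_gM_blk (by omega) hc hkc r fun τ hτ => mem_kds.1 (hrok τ hτ)
  have hge : (gM (LS M (blk c n) k) r : ℤ) ≤ vd M c k n r :=
    hA n (by omega) r (hrc.wk e2) hr0
  have hvs : vd M c k n s = vd M c k n r - N * (c ^ k : ℕ) := by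
    unfold vd
    rw [hsr, Multiset.map_add, Multiset.sum_add, Multiset.map_replicate, Multiset.sum_replicate]
    have h1 : wt M c n τ₀ = c ^ k := by
      show bb c (M - 1) (range k).card n = c ^ k
      rw [card_range, show M - 1 = k by omega, hbb n hkc.le]
    rw [h1, smul_eq_mul]
    push_cast
    ring
  -- the numbers
  obtain ⟨N₀, hN1, hN2, hN3⟩ := hnum n (by omega) e he0 e1
  have hX0 : (0 : ℝ) ≤ (n : ℝ) ^ M / Q := by positivity
  have h3 : c ^ k * (N₀ + 1) ≤ (LS M (blk c n) k).gd rest := by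
    rw [hgd]
    have h4 : ((c ^ k * (N₀ + 1) : ℕ) : ℝ) ≤ ((vd M c k n r : ℤ) : ℝ) := by
      push_cast
      push_cast at hN3
      have h5 := (abs_le.1 hvr).1
      linarith only [hN3, h5]
    have h5 : ((c ^ k * (N₀ + 1) : ℕ) : ℤ) ≤ vd M c k n r := by exact_mod_cast h4
    have h6 := h5.trans hle
    exact_mod_cast h6
  have hcnt : (fun τ => ((univ : Finset (Fin r.toList.length)).val.map rest).count τ) =
      fun τ => r.count τ := by
    rw [hrest]
  have key := Top.top_gen (isB_phn c k n hc hkc.le) hk rest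
    (hG n (by omega) _ rest (by rw [hcnt]; exact hrc.wk e3)) N₀
    (top_h1 (by omega) (Nat.sub_le _ _) (by omega) hN1) (by
      obtain ⟨p₁, hp₁⟩ := hB n (by omega) _ (phn c k n hkc.le) (isB_phn c k n hc hkc.le) _ rest
        (by rw [hcnt]; exact hrc.wk e4) (fun i h => hr0 (by
          rw [← hrest, Multiset.mem_map]
          exact ⟨i, Finset.mem_univ_val i, h⟩))
      refine ⟨p₁, hp₁.mono fun p hp F hF hF' => ?_⟩
      have h4 := hp F hF hF'
      have hf : 1 ≤ finrank ℂ F := Nat.one_le_iff_ne_zero.2 fun h => hF (Submodule.finrank_eq_zero.1 h)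
      have hf' : (1 : ℝ) ≤ finrank ℂ F := by exact_mod_cast hf
      have h5 : ((finrank ℂ F * (c ^ k - finrank ℂ F) : ℕ) : ℝ) ≤ finrank ℂ F * (c ^ k : ℕ) := by
        have : finrank ℂ F * (c ^ k - finrank ℂ F) ≤ finrank ℂ F * c ^ k :=
          Nat.mul_le_mul_left _ (Nat.sub_le _ _)
        exact_mod_cast this
      have h6 : (1 - δ) * (finrank ℂ F : ℝ) * ((n : ℝ) ^ M / Q) ≤
          (1 - min δ 1) * (finrank ℂ F : ℝ) * ((n : ℝ) ^ M / Q) := by
        apply mul_le_mul_of_nonneg_right _ hX0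
        apply mul_le_mul_of_nonneg_right _ (by linarith only [hf'])
        have := min_le_left δ 1
        linarith only [this]
      have h7 : (finrank ℂ F : ℝ) * ((1 - min δ 1) * ((n : ℝ) ^ M / Q) + (c ^ k : ℕ)) <
          finrank ℂ F * N₀ := mul_lt_mul_of_pos_left hN2 (by linarith only [hf'])
      have h8 : ((finrank ℂ (Top.SF (phn c k n hkc.le) ((LS M (blk c n) k).V rest p) F) +
          finrank ℂ F * (c ^ k - finrank ℂ F) : ℕ) : ℝ) < ((finrank ℂ F * N₀ : ℕ) : ℝ) := by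
        rw [Nat.cast_add, Nat.cast_mul (finrank ℂ F) N₀]
        nlinarith only [hkc, h4, h5, h6, h7]
      exact_mod_cast h8) h3 N
  -- conclusion
  have hgs : gM (LS M (blk c n) k) s =
      (LS M (blk c n) k).gd (Sum.elim rest fun _ : Fin N => τ₀) := by
    rw [gd_eq_gM, map_elim, hrest, ST.map_const, Fintype.card_fin, ← hsr]
  rw [hgs, hvs]
  rw [hgd] at key
  have h9 : ((gM (LS M (blk c n) k) r - c ^ k * N : ℕ) : ℤ) ≤
      max 0 ((gM (LS M (blk c n) k) r : ℤ) - (c ^ k * N : ℕ)) := by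
    omega
  have h10 : ((LS M (blk c n) k).gd (Sum.elim rest fun _ : Fin N => τ₀) : ℤ) ≤
      max 0 ((gM (LS M (blk c n) k) r : ℤ) - (c ^ k * N : ℕ)) := by
    refine le_trans ?_ h9
    exact_mod_cast key
  refine h10.trans ?_
  apply max_le_max le_rfl
  have h11 : ((c ^ k * N : ℕ) : ℤ) = N * (c ^ k : ℕ) := by
    push_cast
    ring
  rw [h11]
  linarith only [hge]

end Pool.Agent.V7

end
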