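import Pool.Agent.H94.LP7.M118
import Pool.Agent.H94.LP7.M137
import Pool.Agent.H94.LP7.M55
import Pool.Agent.H94.LP7.V7.BE.Num

/-! The parts of this file: V7.BE.Open, V7.BE.Pos, V7.BE.Form, V7.BE.Tau, V7.BE.Beta. -/

section

/-!
# V7, block BETA: the bound for all subspaces is an open condition on the position

* `SysX.near`: for any system with finitely many points;
* `SF_near`, `SF_near_real`: the form used by the assembly of the top level.
-/

set_option autoImplicit false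

namespace Pool.Agent.V7.BE

open Finset Module MvPolynomial Pool.Agent.H51.TB Pool.Agent.V7 Pool.Agent.V7.Top Topology

section

variable {E ν T : Type} [Fintype E] (S : Sys E ν T) {κ : Type} (m : κ → T)

/-- The matrix of the conditions. -/
noncomputable def OpenX.mat (p : κ → ν → ℂ) : Matrix (Σ i : κ, S.R (m i)) E ℂ :=
  fun x e => eval (p x.1) (S.co (m x.1) x.2 e)

theorem OpenX.mem (p : κ → ν → ℂ) (f : E → ℂ) :
    Matrix.mulVec (OpenX.mat S m p) f = 0 ↔ f ∈ S.V m p := by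
  rw [Sys.mem_V]
  constructor
  · intro h i r
    exact congrFun h ⟨i, r⟩
  · intro h
    funext x
    exact h x.1 x.2

theorem OpenX.continuous [Fintype ν] : Continuous (OpenX.mat S m) := by
  refine continuous_matrix fun x e => ?_
  show Continuous fun p : κ → ν → ℂ => eval (p x.1) (S.co (m x.1) x.2 e)
  exact (MvPolynomial.continuous_eval _).comp (continuous_apply x.1)

variable {U ι : Type} [Fintype U] [Fintype ι]

/-- The solutions with all slices in `F`. -/
noncomputable def SysX (σ : U → ι → E) (p : κ → ν → ℂ) (F : Submodule ℂ (ι → ℂ)) :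
    Submodule ℂ (E → ℂ) := Kx (OpenX.mat S m p) σ F

omit [Fintype U] in
theorem SysX.mem (σ : U → ι → E) (p : κ → ν → ℂ) (F : Submodule ℂ (ι → ℂ)) (f : E → ℂ) :
    f ∈ SysX S m σ p F ↔ f ∈ S.V m p ∧ ∀ u, (fun i => f (σ u i)) ∈ F := by
  unfold SysX
  rw [mem_Kx, OpenX.mem, and_comm]

/-- Openness of the bound. -/
theorem SysX.near [Fintype ν] [Fintype κ] (σ : U → ι → E) (b : ℕ → ℕ) (p₁ : κ → ν → ℂ)
    (h : ∀ F : Submodule ℂ (ι → ℂ), finrank ℂ (SysX S m σ p₁ F) ≤ b (finrank ℂ F)) :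
    ∀ᶠ p in 𝓝 p₁, ∀ F : Submodule ℂ (ι → ℂ),
      finrank ℂ (SysX S m σ p F) ≤ b (finrank ℂ F) := by
  classical
  have hfin : ∀ i : κ, Finite (S.R (m i)) := fun i => S.fin (m i)
  have : Finite (Σ i : κ, S.R (m i)) := inferInstance
  have := Fintype.ofFinite (Σ i : κ, S.R (m i))
  exact Kx_near (OpenX.mat S m) (OpenX.continuous S m) σ b p₁ h

end

section

variable {ν : Type} [Fintype ν] [DecidableEq ν] {k c n : ℕ}

/-- The exponents of degree `M` in the last variables. -/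
abbrev OpenX.U (n M : ℕ) : Type := {α : Fin n → ℕ // ∑ t, α t = M}

theorem OpenX.finite (n M : ℕ) : Finite (OpenX.U n M) :=
  finite_lt M _ fun _ hb => hb.le

theorem SF_eq {φ : (Fin k × Fin c) ⊕ Fin n ≃ ν} {β : ν → ℕ} (hβ : IsB φ β) {M : ℕ}
    (hk : k + 1 = M) {κ : Type} (rest : κ → Kd) (p : κ → ν ⊕ ν → ℂ)
    (F : Submodule ℂ ((Fin k → Fin c) → ℂ)) :
    SF φ ((LS M β k).V rest p) F = SysX (LS M β k) rest
      (fun (α : OpenX.U n M) (a : Fin k → Fin c) =>
        (⟨Pool.Agent.V7.Top.sl φ a α.1, sl_mem hβ hk a α.2⟩ : {e // e ∈ Ex β (2 * M - 1) k})) p F := by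
  ext f
  rw [mem_SF hβ hk, SysX.mem]
  refine and_congr_right fun _ => ?_
  constructor
  · exact fun h α => h α.1 α.2
  · exact fun h α hα => h ⟨α, hα⟩

/-- Openness for the spaces `SF`. -/
theorem SF_near {φ : (Fin k × Fin c) ⊕ Fin n ≃ ν} {β : ν → ℕ} (hβ : IsB φ β) {M : ℕ}
    (hk : k + 1 = M) {κ : Type} [Fintype κ] (rest : κ → Kd) (b : ℕ → ℕ) (p₁ : κ → ν ⊕ ν → ℂ)
    (h : ∀ F : Submodule ℂ ((Fin k → Fin c) → ℂ),
      finrank ℂ (SF φ ((LS M β k).V rest p₁) F) ≤ b (finrank ℂ F)) :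
    ∀ᶠ p in 𝓝 p₁, ∀ F : Submodule ℂ ((Fin k → Fin c) → ℂ),
      finrank ℂ (SF φ ((LS M β k).V rest p) F) ≤ b (finrank ℂ F) := by
  classical
  have := OpenX.finite n M
  have := Fintype.ofFinite (OpenX.U n M)
  have h1 := SysX.near (LS M β k) rest (fun (α : OpenX.U n M) (a : Fin k → Fin c) =>
    (⟨Pool.Agent.V7.Top.sl φ a α.1, sl_mem hβ hk a α.2⟩ : {e // e ∈ Ex β (2 * M - 1) k})) b p₁ fun F => by
      rw [← SF_eq hβ hk rest p₁ F]
      exact h F
  refine h1.mono fun p hp F => ?_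
  rw [SF_eq hβ hk rest p F]
  exact hp F

/-- Openness for the spaces `SF`, proper subspaces and a linear bound. -/
theorem SF_near_real {φ : (Fin k × Fin c) ⊕ Fin n ≃ ν} {β : ν → ℕ} (hβ : IsB φ β) {M : ℕ}
    (hk : k + 1 = M) {κ : Type} [Fintype κ] (rest : κ → Kd) (B : ℝ) (p₁ : κ → ν ⊕ ν → ℂ)
    (h : ∀ F : Submodule ℂ ((Fin k → Fin c) → ℂ), F ≠ ⊥ → F ≠ ⊤ →
      (finrank ℂ (SF φ ((LS M β k).V rest p₁) F) : ℝ) ≤ B * finrank ℂ F) :
    ∀ᶠ p in 𝓝 p₁, ∀ F : Submodule ℂ ((Fin k → Fin c) → ℂ), F ≠ ⊥ → F ≠ ⊤ →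
      (finrank ℂ (SF φ ((LS M β k).V rest p) F) : ℝ) ≤ B * finrank ℂ F := by
  classical
  have hE : ∀ F : Submodule ℂ ((Fin k → Fin c) → ℂ), (F ≠ ⊥ ∧ F ≠ ⊤) ↔
      (0 < finrank ℂ F ∧ finrank ℂ F < c ^ k) := by
    intro F
    have h1 : finrank ℂ ((Fin k → Fin c) → ℂ) = c ^ k := by simp
    constructor
    · rintro ⟨h2, h3⟩
      refine ⟨?_, ?_⟩
      · rw [Nat.pos_iff_ne_zero]
        intro h0
        exact h2 (Submodule.finrank_eq_zero.1 h0)
      · rw [← h1]
        exact Submodule.finrank_lt h3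
    · rintro ⟨h2, h3⟩
      refine ⟨?_, ?_⟩
      · rintro rfl
        rw [finrank_bot] at h2
        exact lt_irrefl _ h2
      · rintro rfl
        rw [finrank_top, h1] at h3
        exact lt_irrefl _ h3
  let D : ℕ := finrank ℂ ({e // e ∈ Ex β (2 * M - 1) k} → ℂ)
  let b : ℕ → ℕ := fun e => if 0 < e ∧ e < c ^ k then ⌊B * e⌋₊ else D
  by_cases hB : 0 ≤ B
  · have h1 := SF_near hβ hk rest b p₁ (by
      intro F
      show _ ≤ if _ then _ else _
      by_cases hF : F ≠ ⊥ ∧ F ≠ ⊤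
      · rw [if_pos ((hE F).1 hF)]
        exact Nat.le_floor (h F hF.1 hF.2)
      · rw [if_neg (fun h' => hF ((hE F).2 h'))]
        exact Submodule.finrank_le _)
    refine h1.mono fun p hp F hF1 hF2 => ?_
    have h2 := hp F
    have h3 : b (finrank ℂ F) = ⌊B * (finrank ℂ F : ℝ)⌋₊ := by
      show (if _ then _ else _) = _
      rw [if_pos ((hE F).1 ⟨hF1, hF2⟩)]
    rw [h3] at h2
    have h4 : (0 : ℝ) ≤ B * finrank ℂ F := by positivity
    exact le_trans (by exact_mod_cast h2) (Nat.floor_le h4)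
  · refine Filter.Eventually.of_forall fun p F hF1 hF2 => ?_
    exfalso
    have h2 := h F hF1 hF2
    have h3 := (hE F).1 ⟨hF1, hF2⟩
    have h4 : (0 : ℝ) < finrank ℂ F := by exact_mod_cast h3.1
    have h5 : (0 : ℝ) ≤ (finrank ℂ (SF φ ((LS M β k).V rest p₁) F) : ℝ) := Nat.cast_nonneg _
    push Not at hB
    nlinarith

end

end Pool.Agent.V7.BE

end

section

/-!
# V7, block BETA, module Pos: positions of the points of the level `k = M - 1`

The variables are numbered by `φ`; `vr φ vz` numbers the variables of the first `k` blocks and of `q`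
blocks of last variables.  `ptS v S y` is the point with the coordinates `y` on the blocks of `S`.
`ctr_sat`: the conditions of a point of the type `typ S` at the position `posK β (ptS v S y)` give the
contraction of the tensors of all `α` with `S = emα α S'`.
-/

set_option autoImplicit false
set_option linter.unusedSectionVars false

namespace Pool.Agent.V7.BE

open Finset Pool.Agent.V7 Pool.Agent.H54.V7
open Pool.Agent.V7.Top (IsB)
open Pool.Agent.H18.Ex (tcr)

variable {ν : Type} [Fintype ν] [DecidableEq ν] {k M c m q : ℕ}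

/-- The numbering of the variables of the blocks. -/
def vr (φ : (Fin k × Fin c) ⊕ Fin m ≃ ν) (vz : Fin q × Fin c → Fin m)
    (x : (Fin k ⊕ Fin q) × Fin c) : ν :=
  φ (Sum.elim (fun i => Sum.inl (i, x.2)) (fun h => Sum.inr (vz (h, x.2))) x.1)

theorem vr_inl (φ : (Fin k × Fin c) ⊕ Fin m ≃ ν) (vz : Fin q × Fin c → Fin m) (i : Fin k)
    (t : Fin c) : vr φ vz (Sum.inl i, t) = φ (Sum.inl (i, t)) := rfl

theorem vr_inr (φ : (Fin k × Fin c) ⊕ Fin m ≃ ν) (vz : Fin q × Fin c → Fin m) (h : Fin q)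
    (t : Fin c) : vr φ vz (Sum.inr h, t) = φ (Sum.inr (vz (h, t))) := rfl

theorem vr_inj (φ : (Fin k × Fin c) ⊕ Fin m ≃ ν) {vz : Fin q × Fin c → Fin m}
    (hvz : Function.Injective vz) : Function.Injective (vr φ vz) := by
  rintro ⟨i | h, t⟩ ⟨i' | h', t'⟩ e
  · have h1 : (i, t) = (i', t') := Sum.inl_injective (φ.injective e)
    rw [Prod.mk.injEq] at h1
    rw [h1.1, h1.2]
  · exact absurd (φ.injective e) Sum.inl_ne_inr
  · exact absurd (φ.injective e) Sum.inr_ne_inl
  · have h1 : (h, t) = (h', t') := hvz (Sum.inr_injective (φ.injective e))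
    rw [Prod.mk.injEq] at h1
    rw [h1.1, h1.2]

/-- The point with the coordinates `y` on the blocks of `S`. -/
noncomputable def ptS (v : (Fin k ⊕ Fin q) × Fin c → ν) (S : Finset (Fin k ⊕ Fin q))
    (y : (Fin k ⊕ Fin q) × Fin c → ℂ) : ν → ℂ :=
  Function.extend v (fun x => if x.1 ∈ S then y x else 0) 0

theorem ptS_apply {v : (Fin k ⊕ Fin q) × Fin c → ν} (hv : Function.Injective v)
    (S : Finset (Fin k ⊕ Fin q)) (y : (Fin k ⊕ Fin q) × Fin c → ℂ) (x : (Fin k ⊕ Fin q) × Fin c) :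
    ptS v S y (v x) = if x.1 ∈ S then y x else 0 :=
  hv.extend_apply _ _ _

theorem ptS_ne {v : (Fin k ⊕ Fin q) × Fin c → ν} (hv : Function.Injective v)
    {S : Finset (Fin k ⊕ Fin q)} {y : (Fin k ⊕ Fin q) × Fin c → ℂ} {s : ν} (h : ptS v S y s ≠ 0) :
    ∃ x ∈ S, ∃ t, v (x, t) = s := by
  by_cases h1 : ∃ a, v a = s
  · obtain ⟨⟨x, t⟩, rfl⟩ := h1
    rw [ptS_apply hv] at h
    split_ifs at h with h2
    · exact ⟨x, h2, t, rfl⟩
    · exact absurd rfl h
  · exact absurd (Function.extend_apply' _ _ _ h1) h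

/-- The position of a point of a given kind. -/
noncomputable def posK (β : ν → ℕ) (P : ν → ℂ) : Kd → ν ⊕ ν → ℂ
  | .ord _ _ => Sum.elim P 0
  | .sw i _ => Sum.elim P fun s => if β s = i then P s else 0

/-- The type of the points on the blocks of `S`. -/
def typ (S : Finset (Fin k ⊕ Fin q)) : Finset ℕ :=
  (univ.filter fun i : Fin k => Sum.inl i ∉ S).map Fin.valEmbedding

theorem mem_typ {S : Finset (Fin k ⊕ Fin q)} {j : ℕ} :
    j ∈ typ S ↔ ∃ i : Fin k, Sum.inl i ∉ S ∧ i.1 = j := by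
  unfold typ
  rw [mem_map]
  constructor
  · rintro ⟨i, hi, rfl⟩
    exact ⟨i, (mem_filter.1 hi).2, rfl⟩
  · rintro ⟨i, hi, rfl⟩
    exact ⟨i, mem_filter.2 ⟨mem_univ i, hi⟩, rfl⟩

theorem typ_lt {S : Finset (Fin k ⊕ Fin q)} {j : ℕ} (h : j ∈ typ S) : j < k := by
  obtain ⟨i, _, rfl⟩ := mem_typ.1 h
  exact i.2

theorem notMem_typ {S : Finset (Fin k ⊕ Fin q)} {i : Fin k} :
    i.1 ∉ typ S ↔ Sum.inl i ∈ S := by
  rw [mem_typ]
  constructor
  · intro h
    by_contra h1
    exact h ⟨i, h1, rfl⟩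
  · rintro h ⟨i', h1, h2⟩
    rw [Fin.ext h2] at h1
    exact h1 h

/-- The kinds which impose the conditions of the type `I`. -/
def Gdk (M k : ℕ) (I : Finset ℕ) (κ : Kd) : Prop := κ = .ord M I ∨ ∃ i < k, κ = .sw i I

variable {φ : (Fin k × Fin c) ⊕ Fin m ≃ ν} {vz : Fin q × Fin c → Fin m} {β : ν → ℕ}

/-- The block number of a variable of a block of `S` is not in the type of `S`. -/
theorem beta_notMem (hβ : IsB φ β) {S : Finset (Fin k ⊕ Fin q)} {x : Fin k ⊕ Fin q} (hx : x ∈ S)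
    (t : Fin c) : β (vr φ vz (x, t)) ∉ typ S := by
  rcases x with i | h
  · rw [vr_inl, hβ.1 (i, t)]
    exact notMem_typ.2 hx
  · intro h1
    have h2 := typ_lt h1
    rw [vr_inr] at h2
    have h3 := hβ.2 (vz (h, t))
    omega

theorem beta_eq (hβ : IsB φ β) {x : Fin k ⊕ Fin q} {t : Fin c} {i : ℕ} (hi : i < k)
    (h : β (vr φ vz (x, t)) = i) : x = Sum.inl ⟨i, hi⟩ := by
  rcases x with i' | h'
  · rw [vr_inl, hβ.1 (i', t)] at h
    exact congrArg Sum.inl (Fin.ext h)
  · rw [vr_inr] at h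
    have h3 := hβ.2 (vz (h', t))
    omega

/-- The contraction of the tensor of `α` from the conditions of a point. -/
theorem ctr_sat (hβ : IsB φ β) (hvz : Function.Injective vz) (hk : k + 1 = M) (hM : 2 ≤ M)
    {A : Finset (ν → ℕ)} {f : {a // a ∈ A} → ℂ}
    (hA : ∀ (α : Fin M ↪o Fin q) (w : Slot k M → Fin c), mn (vr φ vz) α w ∈ A)
    (hf : ∀ e, f e ≠ 0 → ∃ (α : Fin M ↪o Fin q) (w : Slot k M → Fin c), e.1 = mn (vr φ vz) α w)
    (α : Fin M ↪o Fin q) {S : Finset (Slot k M)} (hS : S.card = M)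
    (y : (Fin k ⊕ Fin q) × Fin c → ℂ) {κ : Kd} (hκ : Gdk M k (typ (S.map (emα k α))) κ)
    (hok : κ.Ok M k)
    (hsat : SatK M β κ (posK β (ptS (vr φ vz) (S.map (emα k α)) y) κ) f) (w : Slot k M → Fin c) :
    ctr S (fun x => y (Sum.map id α x.1, x.2))
      (fun w' => f ⟨mn (vr φ vz) α w', hA α w'⟩) w = 0 := by
  classical
  have hv : Function.Injective (vr φ vz) := vr_inj φ hvz
  set S' := S.map (emα k α) with hS'
  set P := ptS (vr φ vz) S' y with hP
  have hmem : ∀ x ∈ S, emα k α x ∈ S' := fun x hx => mem_map_of_mem _ hx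
  have hPv : ∀ x ∈ S, ∀ t, P (vr φ vz (emα k α x, t)) = y (Sum.map id α x, t) := by
    intro x hx t
    rw [hP, ptS_apply hv, if_pos (hmem x hx), emα_apply]
  have hPn : ∀ s, P s ≠ 0 → ∃ x ∈ S, ∃ t, vr φ vz (emα k α x, t) = s := by
    intro s hs
    obtain ⟨x', hx', t, ht⟩ := ptS_ne hv hs
    obtain ⟨x, hx, rfl⟩ := mem_map.1 hx'
    exact ⟨x, hx, t, ht⟩
  rcases hκ with rfl | ⟨i, hi, rfl⟩
  · refine ctr_of_Fat hv hA hf (by omega) α hS _ (P := msk β (typ S') P) ?_ ?_ hsat w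
    · intro x hx t
      unfold msk
      rw [if_neg (beta_notMem hβ (hmem x hx) t)]
      exact hPv x hx t
    · intro s hs
      unfold msk at hs
      split_ifs at hs with h1
      · exact absurd rfl hs
      · exact hPn s hs
  · have hiI : i ∉ typ S' := by
      intro h1
      have := mem_Ico.1 (hok.2 h1)
      omega
    have hiS' : (Sum.inl ⟨i, hi⟩ : Fin k ⊕ Fin q) ∈ S' :=
      (notMem_typ (i := (⟨i, hi⟩ : Fin k))).1 hiI
    have hiS : (Sum.inl ⟨i, hi⟩ : Slot k M) ∈ S := by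
      obtain ⟨x, hx, hx'⟩ := mem_map.1 hiS'
      have h2 : emα k α x = emα k α (Sum.inl ⟨i, hi⟩) := hx'
      have h3 := (emα k α).injective h2
      rwa [h3] at hx
    have hne : ∀ x : Slot k M, x ≠ Sum.inl ⟨i, hi⟩ → ∀ t, β (vr φ vz (emα k α x, t)) ≠ i := by
      intro x hx t h1
      have h2 := beta_eq hβ hi h1
      have h3 : emα k α x = emα k α (Sum.inl ⟨i, hi⟩) := h2
      exact hx ((emα k α).injective h3)
    refine ctr_of_Sw hv hA hf hk hM α hS hiS _
      (P := msk β (insert i (typ S')) P)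
      (V := msk β (typ S') fun s => if β s = i then P s else 0) ?_ ?_ ?_ ?_
      (B := univ.filter fun s => β s = i) ?_ hsat.2 w
    · intro x hx t
      rw [mem_erase] at hx
      unfold msk
      rw [if_neg, hPv x hx.2 t]
      rw [mem_insert]
      rintro (h1 | h1)
      · exact hne x hx.1 t h1
      · exact beta_notMem hβ (hmem x hx.2) t h1
    · intro s hs
      unfold msk at hs
      split_ifs at hs with h1
      · exact absurd rfl hs
      · obtain ⟨x, hx, t, ht⟩ := hPn s hs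
        refine ⟨x, mem_erase.2 ⟨?_, hx⟩, t, ht⟩
        rintro rfl
        apply h1
        rw [mem_insert, ← ht]
        left
        exact hβ.1 (⟨i, hi⟩, t)
    · intro t
      have h1 : β (vr φ vz (emα k α (Sum.inl ⟨i, hi⟩), t)) = i := hβ.1 (⟨i, hi⟩, t)
      unfold msk
      rw [if_neg (beta_notMem hβ (hmem _ hiS) t)]
      beta_reduce
      rw [if_pos h1]
      exact hPv _ hiS t
    · intro s hs
      unfold msk at hs
      beta_reduce at hs
      split_ifs at hs with h1 h2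
      · exact absurd rfl hs
      · obtain ⟨x, hx, t, ht⟩ := hPn s hs
        have h3 : x = Sum.inl ⟨i, hi⟩ := by
          by_contra h4
          apply hne x h4 t
          rw [ht]
          exact h2
        rw [h3] at ht
        exact ⟨t, ht⟩
      · exact absurd rfl hs
    · intro x hx t h1
      rw [mem_filter] at h1
      exact hne x hx t h1.2

/-- The exponents `mn` belong to the level. -/
theorem mn_mem (hβ : IsB φ β) (hvz : Function.Injective vz) (hk : k + 1 = M)
    (α : Fin M ↪o Fin q) (w : Slot k M → Fin c) :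
    mn (vr φ vz) α w ∈ Pool.Agent.V7.Ex β (2 * M - 1) k := by
  rw [Pool.Agent.V7.mem_Ex]
  constructor
  · unfold mn
    rw [sum_ind, card_pS (vr_inj φ hvz), card_univ, Fintype.card_sum, Fintype.card_fin,
      Fintype.card_fin]
    omega
  · intro i hi
    refine ⟨vr φ vz (emα k α (Sum.inl ⟨i, hi⟩), w (Sum.inl ⟨i, hi⟩)), hβ.1 (⟨i, hi⟩, _), ?_⟩
    unfold mn ind
    rw [if_pos (mem_pS.2 ⟨_, mem_univ _, rfl⟩)]
    exact one_ne_zero

/-- The exponent of the last variables. -/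
def zx (vz : Fin q × Fin c → Fin m) (α : Fin M ↪o Fin q) (u : Fin M → Fin c) : Fin m → ℕ :=
  ind (univ.image fun h => vz (α h, u h))

theorem sum_zx (hvz : Function.Injective vz) (α : Fin M ↪o Fin q) (u : Fin M → Fin c) :
    ∑ t, zx vz α u t = M := by
  unfold zx
  rw [sum_ind, card_image_of_injective, card_univ, Fintype.card_fin]
  intro h h' e
  have h1 := congrArg Prod.fst (hvz e)
  exact α.injective h1

theorem sl_zx (φ : (Fin k × Fin c) ⊕ Fin m ≃ ν) (vz : Fin q × Fin c → Fin m)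
    (α : Fin M ↪o Fin q) (s : Fin k → Fin c) (u : Fin M → Fin c) :
    Pool.Agent.V7.Top.sl φ s (zx vz α u) = mn (vr φ vz) α (Sum.elim s u) := by
  classical
  funext x
  obtain ⟨x, rfl⟩ := φ.surjective x
  rcases x with ⟨i, t⟩ | t
  · rw [Pool.Agent.V7.Top.sl_inl]
    unfold mn ind
    by_cases h : t = s i
    · rw [if_pos h, if_pos]
      rw [mem_pS]
      refine ⟨Sum.inl i, mem_univ _, ?_⟩
      show φ (Sum.inl (i, s i)) = φ (Sum.inl (i, t))
      rw [h]
    · rw [if_neg h, if_neg]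
      intro h1
      obtain ⟨y, _, hy⟩ := mem_pS.1 h1
      rcases y with i' | h'
      · have h2 := Sum.inl_injective (φ.injective hy)
        rw [Prod.mk.injEq] at h2
        obtain ⟨h3, h4⟩ := h2
        have h5 : i' = i := h3
        subst h5
        exact h h4.symm
      · exact absurd (φ.injective hy) Sum.inr_ne_inl
  · rw [Pool.Agent.V7.Top.sl_inr]
    unfold zx mn ind
    congr 1
    rw [mem_pS, mem_image, eq_iff_iff]
    constructor
    · rintro ⟨h, _, h1⟩
      exact ⟨Sum.inr h, mem_univ _, congrArg (fun z => φ (Sum.inr z)) h1⟩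
    · rintro ⟨y, _, hy⟩
      rcases y with i' | h'
      · exact absurd (φ.injective hy) Sum.inl_ne_inr
      · exact ⟨h', mem_univ _, Sum.inr_injective (φ.injective hy)⟩

end Pool.Agent.V7.BE

end

section

/-!
# V7, block BETA, module Form: the dimension at the block configuration and near it

`fin_bound`: the solutions whose coefficient vectors lie in `F`, in terms of the tensors `KE`.
`near_SF`: a bound for all `F` at one position holds at all positions near it.
-/

set_option autoImplicit false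
set_option linter.unusedSectionVars false

namespace Pool.Agent.V7.BE

open Finset Module MvPolynomial Pool.Agent.H51.TB Pool.Agent.V7 Topology
open Pool.Agent.V7.Top (IsB SF)

theorem le_card_oemb (M q : ℕ) : q.choose M ≤ Fintype.card (Fin M ↪o Fin q) := by
  classical
  have h1 : q.choose M = Fintype.card {s : Finset (Fin q) // s.card = M} := by
    rw [Fintype.card_finset_len, Fintype.card_fin]
  rw [h1]
  refine Fintype.card_le_of_injective
    (fun s : {s : Finset (Fin q) // s.card = M} => s.1.orderEmbOfFin s.2) ?_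
  intro s s' h
  apply Subtype.ext
  have h2 := Finset.range_orderEmbOfFin s.1 s.2
  have h3 := Finset.range_orderEmbOfFin s'.1 s'.2
  have h4 : s.1.orderEmbOfFin s.2 = s'.1.orderEmbOfFin s'.2 := h
  rw [h4, h3] at h2
  exact_mod_cast h2.symm

variable {ν : Type} [Fintype ν] [DecidableEq ν] {k M c m q : ℕ}
variable {φ : (Fin k × Fin c) ⊕ Fin m ≃ ν} {vz : Fin q × Fin c → Fin m} {β : ν → ℕ}

/-- The exponents of the form `mn`. -/
def IsMn (φ : (Fin k × Fin c) ⊕ Fin m ≃ ν) (vz : Fin q × Fin c → Fin m) (M : ℕ) (β : ν → ℕ)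
    (e : {a // a ∈ Pool.Agent.V7.Ex β (2 * M - 1) k}) : Prop :=
  ∃ (α : Fin M ↪o Fin q) (w : Slot k M → Fin c), e.1 = mn (vr φ vz) α w

open Classical in
theorem card_junk (hβ : IsB φ β) (hvz : Function.Injective vz) (hk : k + 1 = M) :
    Fintype.card {e // ¬ IsMn φ vz M β e} + c ^ (k + M) * q.choose M ≤
      (Pool.Agent.V7.Ex β (2 * M - 1) k).card := by
  have h1 := Fintype.card_congr (Equiv.sumCompl (IsMn φ vz M β))
  rw [Fintype.card_sum, Fintype.card_coe] at h1
  have h2 : Fintype.card ((Fin M ↪o Fin q) × (Slot k M → Fin c)) ≤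
      Fintype.card {e // IsMn φ vz M β e} := by
    refine Fintype.card_le_of_injective
      (fun x => ⟨⟨mn (vr φ vz) x.1 x.2, mn_mem hβ hvz hk x.1 x.2⟩, x.1, x.2, rfl⟩) ?_
    rintro ⟨α, w⟩ ⟨α', w'⟩ h
    have h3 : mn (vr φ vz) α w = mn (vr φ vz) α' w' :=
      congrArg (fun z : {e // IsMn φ vz M β e} => z.1.1) h
    have h4 := mn_inj (vr_inj φ hvz) h3
    rw [h4.1, h4.2]
  rw [Fintype.card_prod, Fintype.card_fun, Fintype.card_fin, Fintype.card_sum, Fintype.card_fin,
    Fintype.card_fin] at h2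
  have h3 := Nat.mul_le_mul_right (c ^ (k + M)) (le_card_oemb M q)
  rw [mul_comm (q.choose M)] at h3
  omega

theorem fin_bound (hβ : IsB φ β) (hvz : Function.Injective vz) (hk : k + 1 = M)
    (V : Submodule ℂ ({e // e ∈ Pool.Agent.V7.Ex β (2 * M - 1) k} → ℂ)) (Ω : PtsQ k M c q)
    (hV : ∀ f ∈ V, (∀ e, f e ≠ 0 → IsMn φ vz M β e) →
      ∀ (α : Fin M ↪o Fin q) (S : Finset (Slot k M)), S.card = M → S ≠ S0 k M → ∀ t w,
        ctr S (res Ω α S t) (fun w' => f ⟨mn (vr φ vz) α w', mn_mem hβ hvz hk α w'⟩) w = 0)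
    (F : Submodule ℂ ((Fin k → Fin c) → ℂ)) :
    finrank ℂ (SF φ V F) + c ^ (k + M) * q.choose M ≤
      (Pool.Agent.V7.Ex β (2 * M - 1) k).card +
        ∑ α : Fin M ↪o Fin q, finrank ℂ (KE (res Ω α) F) := by
  classical
  set W := SF φ V F with hW
  let ρ : W →ₗ[ℂ] ({e // ¬ IsMn φ vz M β e} → ℂ) :=
    (LinearMap.funLeft ℂ ℂ Subtype.val) ∘ₗ W.subtype
  have h1 := ρ.finrank_range_add_finrank_ker
  have h2 : finrank ℂ (LinearMap.range ρ) ≤ Fintype.card {e // ¬ IsMn φ vz M β e} :=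
    (Submodule.finrank_le _).trans (Module.finrank_fintype_fun_eq_card ℂ).le
  let L : (α : Fin M ↪o Fin q) → ({e // e ∈ Pool.Agent.V7.Ex β (2 * M - 1) k} → ℂ) →ₗ[ℂ]
      ((Slot k M → Fin c) → ℂ) := fun α =>
    LinearMap.funLeft ℂ ℂ fun w' => ⟨mn (vr φ vz) α w', mn_mem hβ hvz hk α w'⟩
  have hker : ∀ x : LinearMap.ker ρ, ∀ e, ((x : W) : {e // e ∈ Pool.Agent.V7.Ex β (2 * M - 1) k} → ℂ) e ≠ 0 →
      IsMn φ vz M β e := by
    intro x e he
    by_contra hcon
    apply he
    have h3 : ρ x.1 = 0 := x.2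
    exact congrFun h3 ⟨e, hcon⟩
  have hmem : ∀ (α : Fin M ↪o Fin q) (x : LinearMap.ker ρ),
      (L α ∘ₗ W.subtype ∘ₗ (LinearMap.ker ρ).subtype) x ∈ KE (res Ω α) F := by
    intro α x
    have hx := (Pool.Agent.V7.Top.mem_SF hβ hk V F _).1 (x : W).2
    refine ⟨fun u => ?_, fun S h3 h4 t w => ?_⟩
    · have h5 := hx.2 (zx vz α u) (sum_zx hvz α u)
      have h6 : (fun s => (L α ∘ₗ W.subtype ∘ₗ (LinearMap.ker ρ).subtype) x (Sum.elim s u)) =
          fun a => ((x : W) : {e // e ∈ Pool.Agent.V7.Ex β (2 * M - 1) k} → ℂ)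
            ⟨Pool.Agent.V7.Top.sl φ a (zx vz α u),
              Pool.Agent.V7.Top.sl_mem hβ hk a (sum_zx hvz α u)⟩ := by
        funext s
        show ((x : W) : {e // e ∈ Pool.Agent.V7.Ex β (2 * M - 1) k} → ℂ)
          ⟨mn (vr φ vz) α (Sum.elim s u), _⟩ = _
        exact congrArg (fun e => ((x : W) : {e // e ∈ Pool.Agent.V7.Ex β (2 * M - 1) k} → ℂ) e)
          (Subtype.ext (sl_zx φ vz α s u).symm)
      rw [h6]
      exact h5
    · exact hV _ hx.1 (hker x) α S h3 h4 t w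
  let θ : LinearMap.ker ρ →ₗ[ℂ] ((α : Fin M ↪o Fin q) → KE (res Ω α) F) :=
    LinearMap.pi fun α => LinearMap.codRestrict (KE (res Ω α) F)
      (L α ∘ₗ W.subtype ∘ₗ (LinearMap.ker ρ).subtype) (hmem α)
  have hθ : Function.Injective θ := by
    intro x y hxy
    apply Subtype.ext
    apply Subtype.ext
    funext e
    show ((x : W) : {e // e ∈ Pool.Agent.V7.Ex β (2 * M - 1) k} → ℂ) e =
      ((y : W) : {e // e ∈ Pool.Agent.V7.Ex β (2 * M - 1) k} → ℂ) e
    by_cases he : IsMn φ vz M β e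
    · obtain ⟨α, w, hα⟩ := he
      have h3 := congrArg Subtype.val (congrFun hxy α)
      have h4 := congrFun h3 w
      have h5 : e = ⟨mn (vr φ vz) α w, mn_mem hβ hvz hk α w⟩ := Subtype.ext hα
      rw [h5]
      exact h4
    · have h3 : ∀ z : LinearMap.ker ρ,
          ((z : W) : {e // e ∈ Pool.Agent.V7.Ex β (2 * M - 1) k} → ℂ) e = 0 := by
        intro z
        by_contra hne
        exact he (hker z e hne)
      rw [h3 x, h3 y]
  have h3 := LinearMap.finrank_le_finrank_of_injective hθ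
  rw [Module.finrank_pi_fintype] at h3
  have h4 := card_junk hβ hvz hk (c := c) (q := q) (M := M)
  omega

end Pool.Agent.V7.BE

end

section

/-!
# V7, block BETA, module Tau: the points of a configuration of the class `Cls0` and the block points

`exists_tau`: an injection of the block points `(S, t)`, `S` an `M`-set of the blocks which contains
one of the first `k` blocks, `t < l`, into the points of the configuration, compatible with the types.
`at_p1`: the bound at the position which it gives.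
-/

set_option autoImplicit false
set_option linter.unusedSectionVars false

namespace Pool.Agent.V7.BE

open Finset Module Pool.Agent.H51.TB Pool.Agent.V7
open Pool.Agent.V7.Top (IsB SF)

variable {k M c m q : ℕ}

theorem Gdk.inj {I I' : Finset ℕ} {κ : Kd} (h : Gdk M k I κ) (h' : Gdk M k I' κ) : I = I' := by
  rcases h with rfl | ⟨i, _, rfl⟩
  · rcases h' with h' | ⟨i', _, h'⟩
    · injection h'
    · injection h'
  · rcases h' with h' | ⟨i', _, h'⟩
    · injection h'
    · injection h'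

open Classical in
theorem tot_le {κ : Type} [Fintype κ] (rest : κ → Kd) (I : Finset ℕ) :
    tot M k (fun τ => ((univ : Finset κ).val.map rest).count τ) I ≤
      Fintype.card {i : κ // Gdk M k I (rest i)} := by
  set K : Finset Kd := insert (Kd.ord M I) ((range k).image fun i => Kd.sw i I) with hK
  have hcount : ∀ τ : Kd, ((univ : Finset κ).val.map rest).count τ =
      (univ.filter fun i => rest i = τ).card := by
    intro τ
    rw [Multiset.count_map, ← Finset.filter_val, Finset.card_val]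
    congr 1
    ext i
    rw [mem_filter, mem_filter]
    exact and_congr_right fun _ => eq_comm
  have hGK : ∀ κ : Kd, Gdk M k I κ ↔ κ ∈ K := by
    intro κ
    rw [hK, mem_insert, mem_image]
    constructor
    · rintro (h | ⟨i, hi, h⟩)
      · exact Or.inl h
      · exact Or.inr ⟨i, mem_range.2 hi, h.symm⟩
    · rintro (h | ⟨i, hi, h⟩)
      · exact Or.inl h
      · exact Or.inr ⟨i, mem_range.1 hi, h.symm⟩
  have h1 : tot M k (fun τ => ((univ : Finset κ).val.map rest).count τ) I =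
      ∑ τ ∈ K, (univ.filter fun i => rest i = τ).card := by
    unfold tot
    rw [hK, sum_insert, sum_image]
    · simp only [hcount]
    · intro a _ b _ h
      injection h
    · intro h
      obtain ⟨i, _, hi⟩ := mem_image.1 h
      injection hi
  rw [h1, Fintype.card_subtype]
  have h2 := Finset.card_eq_sum_card_fiberwise (f := rest)
    (s := univ.filter fun i => Gdk M k I (rest i)) (t := K) (fun i hi => by
      rw [mem_coe, mem_filter] at hi
      exact (hGK _).1 hi.2)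
  rw [h2]
  refine sum_le_sum fun τ hτ => card_le_card fun i hi => ?_
  rw [mem_filter] at hi
  rw [mem_filter, mem_filter]
  refine ⟨⟨mem_univ i, ?_⟩, hi.2⟩
  rw [hi.2]
  exact (hGK τ).2 hτ

theorem typ_card {S : Finset (Fin k ⊕ Fin q)} :
    (typ S).card + S.toLeft.card = k := by
  classical
  unfold typ
  rw [card_map]
  have h1 : (univ.filter fun i : Fin k => Sum.inl i ∉ S) = (S.toLeft)ᶜ := by
    ext i
    rw [mem_filter, mem_compl, mem_toLeft]
    exact ⟨fun h => h.2, fun h => ⟨mem_univ i, h⟩⟩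
  rw [h1, card_compl, Fintype.card_fin]
  have h2 : S.toLeft.card ≤ k := by
    have := card_le_univ S.toLeft
    rwa [Fintype.card_fin] at this
  omega

open Classical in
theorem card_typ (hk : k + 1 = M) (I : Finset ℕ) :
    Fintype.card {S : Finset (Fin k ⊕ Fin q) // S.card = M ∧ typ S = I} ≤
      q.choose (I.card + 1) := by
  have h1 : q.choose (I.card + 1) = Fintype.card {s : Finset (Fin q) // s.card = I.card + 1} := by
    rw [Fintype.card_finset_len, Fintype.card_fin]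
  rw [h1]
  have hc : ∀ S : Finset (Fin k ⊕ Fin q), S.card = M → typ S = I →
      S.toRight.card = I.card + 1 := by
    intro S h2 h3
    have h4 := typ_card (S := S)
    have h5 := card_toLeft_add_card_toRight (u := S)
    rw [h3] at h4
    omega
  refine Fintype.card_le_of_injective
    (fun S : {S : Finset (Fin k ⊕ Fin q) // S.card = M ∧ typ S = I} =>
      (⟨S.1.toRight, hc S.1 S.2.1 S.2.2⟩ : {s : Finset (Fin q) // s.card = I.card + 1})) ?_
  rintro ⟨S, h2, h3⟩ ⟨S', h2', h3'⟩ h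
  have h4 : S.toRight = S'.toRight := congrArg Subtype.val h
  apply Subtype.ext
  ext x
  rcases x with i | i
  · rw [← notMem_typ, ← notMem_typ, h3, h3']
  · rw [← mem_toRight, ← mem_toRight, h4]

/-- The block points. -/
abbrev Zt (k q M l : ℕ) : Type :=
  {S : Finset (Fin k ⊕ Fin q) // S.card = M ∧ ∃ i, Sum.inl i ∈ S} × Fin l

theorem exists_tau {κ : Type} [Fintype κ] (rest : κ → Kd) (hk : k + 1 = M) (l : ℕ)
    (hnum : ∀ I, I ⊆ range k → I ≠ range k → l * q.choose (I.card + 1) ≤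
      tot M k (fun τ => ((univ : Finset κ).val.map rest).count τ) I) :
    ∃ τ : Zt k q M l → κ, Function.Injective τ ∧ ∀ z, Gdk M k (typ z.1.1) (rest (τ z)) := by
  classical
  have h1 : ∀ I, I ⊆ range k → I ≠ range k →
      Nonempty ({z : Zt k q M l // typ z.1.1 = I} ↪ {i : κ // Gdk M k I (rest i)}) := by
    intro I hI hI'
    refine Function.Embedding.nonempty_of_card_le ?_
    refine le_trans ?_ ((hnum I hI hI').trans (tot_le rest I))
    have h2 : Fintype.card {z : Zt k q M l // typ z.1.1 = I} ≤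
        Fintype.card ({S : Finset (Fin k ⊕ Fin q) // S.card = M ∧ typ S = I} × Fin l) := by
      refine Fintype.card_le_of_injective
        (fun z => (⟨z.1.1.1, z.1.1.2.1, z.2⟩, z.1.2)) ?_
      intro z z' h
      rw [Prod.mk.injEq, Subtype.mk.injEq] at h
      exact Subtype.ext (Prod.ext (Subtype.ext h.1) h.2)
    rw [Fintype.card_prod, Fintype.card_fin] at h2
    refine h2.trans ?_
    rw [mul_comm l]
    exact Nat.mul_le_mul_right l (card_typ hk I)
  have hs : ∀ S : Finset (Fin k ⊕ Fin q), typ S ⊆ range k := fun S j hj =>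
    mem_range.2 (typ_lt hj)
  have hs' : ∀ z : Zt k q M l, typ z.1.1 ≠ range k := by
    intro z h
    obtain ⟨i, hi⟩ := z.1.2.2
    have h2 := notMem_typ.2 hi
    rw [h] at h2
    exact h2 (mem_range.2 i.2)
  let g := fun (I : Finset ℕ) (h : I ⊆ range k) (h' : I ≠ range k) => (h1 I h h').some
  let τ : Zt k q M l → κ := fun z => (g (typ z.1.1) (hs _) (hs' z) ⟨z, rfl⟩).1
  refine ⟨τ, ?_, fun z => (g (typ z.1.1) (hs _) (hs' z) ⟨z, rfl⟩).2⟩
  intro z z' h
  have h2 : typ z.1.1 = typ z'.1.1 := by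
    have h3 := (g (typ z.1.1) (hs _) (hs' z) ⟨z, rfl⟩).2
    have h4 := (g (typ z'.1.1) (hs _) (hs' z') ⟨z', rfl⟩).2
    have h5 : (g (typ z.1.1) (hs _) (hs' z) ⟨z, rfl⟩).1 =
      (g (typ z'.1.1) (hs _) (hs' z') ⟨z', rfl⟩).1 := h
    rw [← h5] at h4
    exact h3.inj h4
  have h3 : ∀ (I : Finset ℕ) (hI : I ⊆ range k) (hI' : I ≠ range k) (e : typ z'.1.1 = I),
      (g (typ z'.1.1) (hs _) (hs' z') ⟨z', rfl⟩).1 = (g I hI hI' ⟨z', e⟩).1 := by
    rintro I hI hI' rfl
    rfl
  have h4 : (g (typ z.1.1) (hs _) (hs' z) ⟨z, rfl⟩).1 =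
      (g (typ z.1.1) (hs _) (hs' z) ⟨z', h2.symm⟩).1 := by
    rw [← h3 (typ z.1.1) (hs _) (hs' z) h2.symm]
    exact h
  have h5 := (g (typ z.1.1) (hs _) (hs' z)).injective (Subtype.ext h4)
  exact congrArg Subtype.val h5

theorem exists_inl {S : Finset (Slot k M)} (hS : S.card = M) (h0 : S ≠ S0 k M) :
    ∃ i, (Sum.inl i : Slot k M) ∈ S := by
  by_contra hcon
  push Not at hcon
  apply h0
  refine eq_of_subset_of_card_le (fun x hx => ?_) (by rw [card_S0, hS])
  unfold S0
  rw [mem_filter]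
  refine ⟨mem_univ x, ?_⟩
  rcases x with i | h
  · exact absurd hx (hcon i)
  · rfl

variable {ν : Type} [Fintype ν] [DecidableEq ν]
variable {φ : (Fin k × Fin c) ⊕ Fin m ≃ ν} {vz : Fin q × Fin c → Fin m} {β : ν → ℕ}

theorem at_p1 (hβ : IsB φ β) (hvz : Function.Injective vz) (hk : k + 1 = M) (hM : 2 ≤ M)
    {κ : Type} [Fintype κ] (rest : κ → Kd) (hok : ∀ i, (rest i).Ok M k) (Ω : PtsQ k M c q)
    (τ : Zt k q M (lam M c) → κ) (hτ : Function.Injective τ)
    (hτ' : ∀ z, Gdk M k (typ z.1.1) (rest (τ z))) :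
    ∃ p₁ : κ → ν ⊕ ν → ℂ, ∀ F : Submodule ℂ ((Fin k → Fin c) → ℂ),
      finrank ℂ (SF φ ((LS M β k).V rest p₁) F) + c ^ (k + M) * q.choose M ≤
        (Pool.Agent.V7.Ex β (2 * M - 1) k).card +
          ∑ α : Fin M ↪o Fin q, finrank ℂ (KE (res Ω α) F) := by
  classical
  let p₁ : κ → ν ⊕ ν → ℂ := Function.extend τ
    (fun z => posK β (ptS (vr φ vz) z.1.1 (Ω z.1.1 z.2)) (rest (τ z))) 0
  refine ⟨p₁, fun F => fin_bound hβ hvz hk _ Ω ?_ F⟩
  intro f hf hf' α S hS hS0 t w
  obtain ⟨i, hi⟩ := exists_inl hS hS0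
  let z : Zt k q M (lam M c) := (⟨S.map (emα k α), by rw [card_map, hS],
    i, mem_map_of_mem (emα k α) hi⟩, t)
  rw [mem_LSA] at hf
  have h1 := hf (τ z)
  have h2 : p₁ (τ z) = posK β (ptS (vr φ vz) z.1.1 (Ω z.1.1 z.2)) (rest (τ z)) :=
    hτ.extend_apply _ _ _
  rw [h2] at h1
  exact ctr_sat hβ hvz hk hM (fun α w => mn_mem hβ hvz hk α w) hf' α hS _ (hτ' z) (hok _) h1 w

end Pool.Agent.V7.BE

end

section

/-!
# V7, block BETA: the result
-/

set_option autoImplicit false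
set_option linter.unusedSectionVars false

namespace Pool.Agent.V7

open Finset Module Pool.Agent.H51.TB Topology Pool.Agent.V7.BE

private theorem beta_num {M c q n : ℕ} (hM : 2 ≤ M) (hc : 1 ≤ c) {ε₀ : ℝ} (h0 : 0 ≤ ε₀) (h1 : ε₀ ≤ 1)
    (hq : (q : ℝ) * c ≤ (1 - ε₀) * n) {N : Kd → ℕ}
    (hcls : Cls0 M c (M - 1) n (ε₀ / (((2 * M - 1).choose M : ℕ) * M.factorial : ℝ)) N)
    {I : Finset ℕ} (hI : I ⊆ range (M - 1)) (hI' : I ≠ range (M - 1)) :
    lam M c * q.choose (I.card + 1) ≤ tot M (M - 1) N I := by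
  have hlt : I.card < M - 1 := by
    have := card_lt_card (lt_of_le_of_ne hI hI')
    rwa [card_range] at this
  have hC : 1 ≤ (2 * M - 1).choose M := Nat.choose_pos (by omega)
  have h2 := num_pts (M := M) (c := c) (q := q) hc rfl hC (x := (n : ℝ)) (Nat.cast_nonneg n) h0 h1 hq
    (i := I.card) (by omega)
  have h3 := hcls.big I hI hI'
  have e1 : M + I.card - (M - 1) = I.card + 1 := by omega
  unfold nom at h3
  rw [e1] at h3
  have h4 := (abs_le.1 h3).1
  have h5 : ((lam M c * q.choose (I.card + 1) : ℕ) : ℝ) ≤ (tot M (M - 1) N I : ℝ) := by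
    push_cast
    linarith
  exact_mod_cast h5

/-- BETA. -/
theorem beta (M : ℕ) (hM : 2 ≤ M) : ∃ c₀ L : ℕ, 1 ≤ L ∧ ∀ c, c₀ ≤ c → L ∣ c →
    BETA M c (M - 1) := by
  refine ⟨1, (Wt M).factorial, Nat.factorial_pos _, fun c hc hdiv => ?_⟩
  have hk : M - 1 + 1 = M := by omega
  obtain ⟨r, hr, hΩ⟩ := exists_omega hk hc hdiv
  obtain ⟨ε₀, δ, hε₀, hε₀1, hδ, hδ1, hmain⟩ := num_main M c r (by omega) hc hr (M - 1)
  obtain ⟨K, hK, hasym⟩ := bb_asym c (2 * M - 1) (M - 1) (by omega)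
  obtain ⟨n₁, hn₁⟩ := hmain K hK.le
  have hC : 1 ≤ (2 * M - 1).choose M := Nat.choose_pos (by omega)
  have hC' : (0 : ℝ) < ((2 * M - 1).choose M : ℕ) := by exact_mod_cast hC
  refine ⟨δ, hδ, ε₀ / (((2 * M - 1).choose M : ℕ) * M.factorial : ℝ), by positivity, max n₁ 1,
    fun n hn m φ hφ κ _ rest hcls _ => ?_⟩
  have hn1 : n₁ ≤ n := (le_max_left _ _).trans hn
  have hn0 : 1 ≤ n := (le_max_right _ _).trans hn
  obtain ⟨q₀, hq1, hq2, hq3⟩ := hn₁ n hn1
  set q := M * r * q₀ with hq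
  have hm : (M - 1) * c + m = n := by
    have h1 := Fintype.card_congr φ
    rw [Fintype.card_sum, Fintype.card_prod, Fintype.card_fin, Fintype.card_fin, Fintype.card_fin,
      Fintype.card_fin] at h1
    exact h1
  have hqm : q * c ≤ m := by omega
  let vz : Fin q × Fin c → Fin m := fun x => Fin.castLE hqm (finProdFinEquiv x)
  have hvz : Function.Injective vz := fun x y h =>
    finProdFinEquiv.injective (Fin.castLE_injective hqm h)
  obtain ⟨Ω, hΩ'⟩ := hΩ q₀
  have hok : ∀ i, (rest i).Ok M (M - 1) := by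
    intro i
    refine mem_kds.1 (hcls.ok (rest i) ?_)
    exact Multiset.count_ne_zero.2 (Multiset.mem_map_of_mem rest (Finset.mem_univ_val i))
  obtain ⟨τ, hτ, hτ'⟩ := exists_tau (q := q) rest hk (lam M c) fun I hI hI' =>
    beta_num hM hc hε₀.le hε₀1 hq2 hcls hI hI'
  obtain ⟨p₁, hp₁⟩ := at_p1 hφ hvz hk hM rest hok Ω τ hτ hτ'
  refine ⟨p₁, ?_⟩
  have hX : ((Pool.Agent.V7.Ex (blk c n) (2 * M - 1) (M - 1)).card : ℝ) ≤
      (c : ℝ) ^ (M - 1) * (n : ℝ) ^ M / M.factorial + K * (n : ℝ) ^ (M - 1) := by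
    rw [ST.card_Ex hc (2 * M - 1) (by omega : (M - 1) * c ≤ n)]
    have h1 := (abs_le.1 (hasym n hn0 (by omega))).2
    have e1 : 2 * M - 1 - (M - 1) = M := by omega
    rw [e1] at h1
    have hn' : (n : ℝ) ≠ 0 := by
      have : n ≠ 0 := by omega
      exact_mod_cast this
    have e2 : K / n * (n : ℝ) ^ M = K * (n : ℝ) ^ (M - 1) := by
      have e3 : (n : ℝ) ^ M = (n : ℝ) ^ (M - 1) * n := by
        rw [← pow_succ, hk]
      rw [e3]
      field_simp
    rw [e2] at h1
    have e4 : (c : ℝ) ^ (M - 1) / (M.factorial : ℝ) * (n : ℝ) ^ M =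
        (c : ℝ) ^ (M - 1) * (n : ℝ) ^ M / M.factorial := by ring
    rw [e4] at h1
    linarith
  have hnear := SF_near_real hφ hk rest
    ((1 - δ) * ((n : ℝ) ^ M / (((2 * M - 1).choose M : ℝ) * (M.factorial : ℝ)))) p₁ ?_
  · refine hnear.mono fun p hp F h0 h1 => ?_
    refine (hp F h0 h1).trans (le_of_eq ?_)
    ring
  · intro F h0 h1
    have h2 := hp₁ F
    have h3 := hΩ' F h0 h1
    have hfr : finrank ℂ ((Fin (M - 1) → Fin c) → ℂ) = c ^ (M - 1) := by
      rw [Module.finrank_fintype_fun_eq_card, Fintype.card_fun, Fintype.card_fin, Fintype.card_fin]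
    have he1 : (1 : ℝ) ≤ (finrank ℂ F : ℝ) := by
      have : 0 < finrank ℂ F := Nat.pos_of_ne_zero fun h => h0 (Submodule.finrank_eq_zero.1 h)
      exact_mod_cast this
    have he2 : (finrank ℂ F : ℝ) ≤ (c : ℝ) ^ (M - 1) := by
      have := Submodule.finrank_le F
      rw [hfr] at this
      exact_mod_cast this
    have h4 := hq3 _ hX (finrank ℂ F : ℝ) _ he1 he2 le_rfl
    have h5' : finrank ℂ (Top.SF φ ((LS M (blk c n) (M - 1)).V rest p₁) F) +
        c ^ (M - 1 + M) * q.choose M + q₀ ^ M ≤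
        (Pool.Agent.V7.Ex (blk c n) (2 * M - 1) (M - 1)).card +
          lam M c * finrank ℂ F * q.choose M := by
      linarith
    have h5 : ((finrank ℂ (Top.SF φ ((LS M (blk c n) (M - 1)).V rest p₁) F) +
        c ^ (M - 1 + M) * q.choose M + q₀ ^ M : ℕ) : ℝ) ≤
        (((Pool.Agent.V7.Ex (blk c n) (2 * M - 1) (M - 1)).card +
          lam M c * finrank ℂ F * q.choose M : ℕ) : ℝ) := Nat.cast_le.2 h5'
    push_cast at h5
    have h6 : 0 ≤ (finrank ℂ F : ℝ) * ((c : ℝ) ^ (M - 1) - finrank ℂ F) :=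
      mul_nonneg (by linarith) (by linarith)
    have e5 : (c : ℝ) ^ (M - 1 + M) = (c : ℝ) ^ (M - 1) * (c : ℝ) ^ M := pow_add _ _ _
    rw [e5] at h5
    have e6 : (finrank ℂ F : ℝ) *
        ((1 - δ) * ((n : ℝ) ^ M / (((2 * M - 1).choose M : ℝ) * (M.factorial : ℝ)))) =
        ((1 - δ) * ((n : ℝ) ^ M / (((2 * M - 1).choose M : ℝ) * (M.factorial : ℝ)))) *
          finrank ℂ F := by ring
    rw [e6] at h4
    linarith

end Pool.Agent.V7

end
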