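import Pool.Agent.H94.LP7.M11
import Pool.Agent.H94.LP7.M23
import Pool.Agent.H94.LP7.M28
import Pool.Agent.H94.LP7.M32

/-! The parts of this file: GD.Top.Vd_1, GD.Top.Lead, V7.GA.Basic, V7.GA.Kill, V7.GA.Trace, GD.GA.Lvl, V7.GA.Ind. -/

section

/-!
# GD, TOP: the virtual dimensions in small degrees

`lead`: for the configurations of the classes `vd D I = 0` for `D < |I|`, and `vd |I| I` is the number of the
partial partitions (`FF`).  `v_replicate`: the effect of the points of the main kind on the last level.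
-/

set_option autoImplicit false

namespace Pool.Agent.GD

open Finset

/-! ### Powers of `1 / (1 - X)` -/

/-! ### Alternating sums -/

/-! ### The leading terms -/

/-- The densities of the points of `W`-degree `0`. -/
noncomputable def dnS (c : ℕ → ℕ) (J : ℕ) (ms : Multiset Kd) (S : Finset ℕ) : ℚ :=
  (npt ms S.card (range J \ S) : ℚ) / ∏ i ∈ S, (c i : ℚ)

/-- The leading terms. -/
def Lead (c : ℕ → ℕ) (J n : ℕ) (ms : Multiset Kd) : Prop := ∀ I ⊆ range J,
  (∀ D < I.card, vd D I c n ms = 0) ∧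
    (vd I.card I c n ms : ℚ) = (∏ i ∈ I, (c i : ℚ)) * FF (dnS c J ms) I

theorem FF_congr' {ι : Type} [DecidableEq ι] {κ κ' : Finset ι → ℚ} {J : Finset ι}
    (h : ∀ S ⊆ J, S ≠ ∅ → κ S = κ' S) : FF κ J = FF κ' J := by
  unfold FF
  refine Finset.sum_congr rfl fun P hP => Finset.prod_congr rfl fun S hS => ?_
  rw [mem_Dj] at hP
  rw [h S (hP.1 S hS) fun h0 => hP.2.1 (h0 ▸ hS)]

theorem lead_zero {c : ℕ → ℕ} {J n : ℕ} (hn : ∑ i ∈ range J, c i ≤ n) : Lead c J n 0 := by
  classical
  intro I hI
  have hle : ∑ i ∈ I, c i ≤ n := (sum_le_sum_of_subset hI).trans hn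
  have h1 : hs (n - ∑ i ∈ I, c i) * ∏ i ∈ I, (hs (c i) - 1) =
      PowerSeries.X ^ I.card * (hs (n - ∑ i ∈ I, c i) *
        ∏ i ∈ I, PowerSeries.mk fun k => (Nat.multichoose (c i) (k + 1) : ℤ)) := by
    rw [prod_congr rfl fun i _ => hs_sub_one (c i), prod_mul_distrib, prod_const]
    ring
  refine ⟨fun D hD => ?_, ?_⟩
  · rw [vd_zero_ms D c n hle, h1, PowerSeries.coeff_X_pow_mul', if_neg (by omega)]
  · rw [vd_zero_ms _ c n hle, h1, PowerSeries.coeff_X_pow_mul', if_pos le_rfl, Nat.sub_self,
      PowerSeries.coeff_zero_eq_constantCoeff_apply, map_mul, map_prod]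
    have h2 : PowerSeries.constantCoeff (hs (n - ∑ i ∈ I, c i)) = 1 := by
      rw [← PowerSeries.coeff_zero_eq_constantCoeff_apply]
      unfold hs
      rw [PowerSeries.coeff_mk, Nat.multichoose_zero_right, Nat.cast_one]
    have h3 : ∀ i ∈ I, PowerSeries.constantCoeff
        (PowerSeries.mk fun k => (Nat.multichoose (c i) (k + 1) : ℤ)) = (c i : ℤ) := by
      intro i _
      rw [← PowerSeries.coeff_zero_eq_constantCoeff_apply, PowerSeries.coeff_mk, zero_add,
        Nat.multichoose_one_right]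
    have h4 : FF (dnS c J 0) I = 1 := by
      have h5 : ∀ S, dnS c J 0 S = 0 := by
        intro S
        unfold dnS npt
        simp
      have h6 : ∀ I : Finset ℕ, FF (dnS c J 0) I = 1 := by
        intro I
        induction I using Finset.induction_on with
        | empty => exact (isF_FF _).empty
        | insert i I hi ih =>
          rw [(isF_FF _).step I i hi, ih, sum_eq_zero fun B _ => by rw [h5, zero_mul], sub_zero]
      exact h6 I
    rw [h2, one_mul, prod_congr rfl h3, h4, mul_one]
    push_cast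
    rfl

theorem npt_cons (k : Kd) (ms : Multiset Kd) (x : ℕ) (A : Finset ℕ) :
    npt (k ::ₘ ms) x A = k.pts.count (x, A) + npt ms x A := by
  unfold npt
  rw [Multiset.cons_bind, Multiset.count_add]

theorem lead_ord {c : ℕ → ℕ} {J n : ℕ} (hc : ∀ i < J, 1 ≤ c i) {x : ℕ} {A : Finset ℕ}
    (hx : 1 ≤ x) (hA : A ⊆ range J) (hAx : (range J \ A).card ≤ x) {ms : Multiset Kd}
    (h : Lead c J n ms) : Lead c J n (Kd.ord x A ::ₘ ms) := by
  classical
  intro I hI
  obtain ⟨K, hK⟩ : ∃ K, K = range J \ A := ⟨_, rfl⟩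
  have hIA : I ∩ A = I \ K := by
    ext i
    rw [mem_inter, mem_sdiff, hK, mem_sdiff, not_and_not_right]
    exact ⟨fun h => ⟨h.1, fun _ => h.2⟩, fun h => ⟨h.1, h.2 (hI h.1)⟩⟩
  have hcard : (I \ K).card + (I ∩ K).card = I.card := card_sdiff_add_card_inter I K
  have hIK : (I ∩ K).card ≤ K.card := card_le_card inter_subset_right
  have hKx : K.card ≤ x := by rw [hK]; exact hAx
  have hKJ : K ⊆ range J := by rw [hK]; exact sdiff_subset
  have hsd : I \ K ⊆ range J := sdiff_subset.trans hI
  refine ⟨fun D hD => ?_, ?_⟩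
  · rw [vd_ord, (h I hI).1 D hD, hIA]
    split_ifs with h1
    · rw [(h (I \ K) hsd).1 (D - x) (by omega), sub_zero]
    · rfl
  · rw [vd_ord, hIA]
    have hAK : A = range J \ K := by
      rw [hK, Finset.sdiff_sdiff_eq_self hA]
    by_cases hKe : K.card = x
    · have hK0 : K ≠ ∅ := by
        rintro rfl
        rw [card_empty] at hKe
        omega
      have h2 : FF (dnS c J (Kd.ord x A ::ₘ ms)) I = FF (modK (dnS c J ms) K (1 / ∏ i ∈ K, (c i : ℚ))) I := by
        refine FF_congr' fun S hS _ => ?_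
        unfold dnS modK
        rw [npt_cons]
        have h3 : (Kd.ord x A).pts = {(x, A)} := rfl
        rw [h3, Multiset.count_singleton]
        have h4 : (S.card, range J \ S) = (x, A) ↔ S = K := by
          rw [Prod.mk.injEq]
          constructor
          · rintro ⟨_, h5⟩
            rw [hK, ← h5, Finset.sdiff_sdiff_eq_self (hS.trans hI)]
          · rintro rfl
            exact ⟨hKe, hAK.symm⟩
        by_cases h5 : S = K
        · rw [if_pos h5, if_pos (h4.2 h5), h5]
          push_cast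
          ring
        · rw [if_neg h5, if_neg fun h6 => h5 (h4.1 h6)]
          push_cast
          ring
      have h3 := (isF_FF (dnS c J ms)).mod hK0 (1 / ∏ i ∈ K, (c i : ℚ))
      rw [h2, (isF_FF _).unique h3]
      unfold modF
      by_cases hKI : K ⊆ I
      · have h4 : (I ∩ K).card = K.card := by rw [inter_eq_right.2 hKI]
        have h5 : I.card - x = (I \ K).card := by omega
        rw [if_pos (by omega), if_pos hKI, h5]
        push_cast
        rw [(h I hI).2, (h (I \ K) hsd).2]
        have h6 : ∏ i ∈ K, (c i : ℚ) ≠ 0 := by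
          rw [prod_ne_zero_iff]
          intro i hi
          have := hc i (mem_range.1 (hKJ hi))
          positivity
        rw [← prod_sdiff hKI]
        field_simp
      · have h4 : (I ∩ K).card < K.card := by
          apply card_lt_card
          rw [Finset.ssubset_iff_subset_ne]
          refine ⟨inter_subset_right, fun h5 => hKI ?_⟩
          rw [← h5]
          exact inter_subset_left
        rw [if_neg hKI, sub_zero]
        split_ifs with h5
        · rw [(h (I \ K) hsd).1 _ (by omega), sub_zero, (h I hI).2]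
        · rw [sub_zero, (h I hI).2]
    · have h2 : FF (dnS c J (Kd.ord x A ::ₘ ms)) I = FF (dnS c J ms) I := by
        refine FF_congr' fun S hS _ => ?_
        unfold dnS
        rw [npt_cons]
        have h3 : (Kd.ord x A).pts = {(x, A)} := rfl
        rw [h3, Multiset.count_singleton, if_neg, zero_add]
        rw [Prod.mk.injEq]
        rintro ⟨h4, h5⟩
        apply hKe
        have h6 : S = K := by rw [hK, ← h5, Finset.sdiff_sdiff_eq_self (hS.trans hI)]
        rw [← h6, h4]
      rw [h2]
      split_ifs with h5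
      · rw [(h (I \ K) hsd).1 _ (by omega), sub_zero, (h I hI).2]
      · rw [sub_zero, (h I hI).2]

/-- Several ordinary objects. -/
theorem lead_ords {c : ℕ → ℕ} {J n : ℕ} (hc : ∀ i < J, 1 ≤ c i) {x : ℕ} (hx : 1 ≤ x)
    (As : List (Finset ℕ)) (hA : ∀ A ∈ As, A ⊆ range J ∧ (range J \ A).card ≤ x) {ms : Multiset Kd}
    (h : Lead c J n ms) : Lead c J n (((As.map fun A => Kd.ord x A : List Kd) : Multiset Kd) + ms) := by
  induction As with
  | nil =>
    rw [List.map_nil, Multiset.coe_nil, zero_add]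
    exact h
  | cons A As ih =>
    rw [List.map_cons, ← Multiset.cons_coe, Multiset.cons_add]
    have h1 := hA A List.mem_cons_self
    exact lead_ord hc hx h1.1 h1.2 (ih fun B hB => hA B (List.mem_cons_of_mem _ hB))

theorem npt_cl (e dl i : ℕ) (As : List (Finset ℕ)) (ms : Multiset Kd) :
    npt (Kd.cl e dl i As ::ₘ ms) = npt (((As.map fun A => Kd.ord e A : List Kd) : Multiset Kd) + ms) := by
  funext x A
  unfold npt
  rw [Multiset.cons_bind, Multiset.add_bind]
  congr 2
  show ((As.map fun A => (e, A) : List (ℕ × Finset ℕ)) : Multiset (ℕ × Finset ℕ)) = _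
  induction As with
  | nil => rfl
  | cons A As ih =>
    rw [List.map_cons, List.map_cons, ← Multiset.cons_coe, ← Multiset.cons_coe, Multiset.cons_bind, ih]
    rfl

theorem lead_cl {c : ℕ → ℕ} {J n : ℕ} (hc : ∀ i < J, 1 ≤ c i) {e dl i : ℕ} {As : List (Finset ℕ)}
    (he : 1 ≤ e) (hA : ∀ A ∈ As, A ⊆ (range J).erase i ∧ (range J \ A).card ≤ e)
    (ht : ((range J).erase i \ inter As).card + 2 ≤ trx e dl As.length) {ms : Multiset Kd}
    (h : Lead c J n ms) : Lead c J n (Kd.cl e dl i As ::ₘ ms) := by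
  classical
  have h0 := lead_ords hc he As (fun A hA' => ⟨(hA A hA').1.trans (erase_subset _ _), (hA A hA').2⟩) h
  have hi : ∀ A ∈ As, i ∉ A := fun A hA' h1 => notMem_erase i _ ((hA A hA').1 h1)
  have key : ∀ I ⊆ range J, ∀ D ≤ I.card, vd D I c n (Kd.cl e dl i As ::ₘ ms) =
      vd D I c n (((As.map fun A => Kd.ord e A : List Kd) : Multiset Kd) + ms) := by
    intro I hI D hD
    rw [vd_cl D I c n e dl i As hi]
    split_ifs with h1
    · have h2 : I.erase i ∩ inter As ⊆ range J := inter_subset_left.trans ((erase_subset _ _).trans hI)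
      have h3 : insert i (I.erase i ∩ inter As) ⊆ range J := insert_subset (hI h1.1) h2
      have hnot : i ∉ I.erase i ∩ inter As := by
        rw [mem_inter]
        exact fun h => notMem_erase i I h.1
      have h4 : (I.erase i \ inter As).card ≤ ((range J).erase i \ inter As).card :=
        card_le_card (sdiff_subset_sdiff (erase_subset_erase _ hI) le_rfl)
      have h5 := card_sdiff_add_card_inter (I.erase i) (inter As)
      have h6 := card_erase_of_mem h1.1
      have h7 : 1 ≤ I.card := card_pos.2 ⟨i, h1.1⟩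
      rw [(h0 _ h3).1 _ (by rw [card_insert_of_notMem hnot]; omega), (h0 _ h2).1 _ (by omega),
        sub_zero, sub_zero]
    · rw [sub_zero]
  have hd : dnS c J (Kd.cl e dl i As ::ₘ ms) =
      dnS c J (((As.map fun A => Kd.ord e A : List Kd) : Multiset Kd) + ms) := by
    funext S
    unfold dnS
    rw [npt_cl]
  intro I hI
  refine ⟨fun D hD => ?_, ?_⟩
  · rw [key I hI D hD.le]
    exact (h0 I hI).1 D hD
  · rw [key I hI _ le_rfl, hd]
    exact (h0 I hI).2

end Pool.Agent.GD

end

section

/-!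
# GD, TOP: the leading terms for the classes
-/

set_option autoImplicit false

namespace Pool.Agent.GD

open Finset

theorem mem_inter_iff {As : List (Finset ℕ)} (h : As ≠ []) (x : ℕ) : x ∈ inter As ↔ ∀ A ∈ As, x ∈ A := by
  unfold inter
  rw [mem_filter]
  constructor
  · exact fun h => h.2
  · intro h'
    refine ⟨?_, h'⟩
    obtain ⟨A, As', rfl⟩ := List.exists_cons_of_ne_nil h
    exact h' A List.mem_cons_self

/-- The conditions on the clusters of the classes. -/
theorem CT.good {d e i j : ℕ} (he : 2 ≤ e) (hj : j ≤ d - e) (hi : i < j) {τ : CT} (hτ : τ.Ok d e i j) :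
    ∃ (dl : ℕ) (As : List (Finset ℕ)), τ.kd d e i j = Kd.cl e dl i As ∧ As ≠ [] ∧
      (∀ A ∈ As, A ⊆ (range j).erase i ∧ (range j \ A).card ≤ e) ∧
      ((range j).erase i \ inter As).card + 2 ≤ trx e dl As.length := by
  classical
  have hiJ : i ∈ range j := mem_range.2 hi
  have hE : ∀ S : Finset ℕ, (range j \ ((range j).erase i \ S)).card ≤ S.card + 1 := by
    intro S
    refine (card_le_card ?_).trans (card_insert_le i S)
    intro x hx
    rw [mem_sdiff, mem_sdiff, mem_erase, not_and_not_right] at hx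
    rw [mem_insert]
    by_cases hxi : x = i
    · exact Or.inl hxi
    · exact Or.inr (hx.2 ⟨hxi, hx.1⟩)
  have hmb : ∀ (k : ℕ) (S : Finset ℕ), 1 ≤ k → S.card + 1 ≤ e → mbs i j k S ≠ [] ∧
      (∀ A ∈ mbs i j k S, A ⊆ (range j).erase i ∧ (range j \ A).card ≤ e) ∧
      ((range j).erase i \ inter (mbs i j k S)).card ≤ S.card ∧ (mbs i j k S).length = k := by
    intro k S hk hS
    have hne : mbs i j k S ≠ [] := by
      unfold mbs
      split_ifs
      · exact List.cons_ne_nil _ _
      · exact List.cons_ne_nil _ _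
    have hmem : ∀ A ∈ mbs i j k S, A = (range j).erase i ∨ A = (range j).erase i \ S := by
      intro A hA
      unfold mbs at hA
      split_ifs at hA
      · exact Or.inr (List.mem_singleton.1 hA)
      · rcases List.mem_cons.1 hA with hA | hA
        · exact Or.inl hA
        · exact Or.inr (List.eq_of_mem_replicate hA)
    refine ⟨hne, fun A hA => ?_, ?_, ?_⟩
    · rcases hmem A hA with rfl | rfl
      · refine ⟨le_rfl, ?_⟩
        have := hE ∅
        rw [sdiff_empty, card_empty] at this
        omega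
      · refine ⟨sdiff_subset, ?_⟩
        have := hE S
        omega
    · refine card_le_card fun x hx => ?_
      rw [mem_sdiff, mem_inter_iff hne] at hx
      by_contra hxS
      refine hx.2 fun A hA => ?_
      rcases hmem A hA with rfl | rfl
      · exact hx.1
      · exact mem_sdiff.2 ⟨hx.1, hxS⟩
    · unfold mbs
      split_ifs with h
      · rw [List.length_singleton, h]
      · rw [List.length_cons, List.length_replicate]
        omega
  rcases τ with ⟨k, S⟩ | S | r
  · obtain ⟨h1, h2, h3, h4⟩ := hτ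
    obtain ⟨a1, a2, a3, a4⟩ := hmb k S (by omega) (by omega)
    refine ⟨0, mbs i j k S, rfl, a1, a2, ?_⟩
    rw [a4]
    unfold trx
    have h5 : 2 * (e - 1) ≤ k * (e - 1) := Nat.mul_le_mul_right _ h1
    omega
  · obtain ⟨h1, h2, h3⟩ := hτ
    have hk : 1 ≤ (d - i - 1) / (e - 1) := (Nat.one_le_div_iff (by omega)).2 (by omega)
    obtain ⟨a1, a2, a3, a4⟩ := hmb ((d - i - 1) / (e - 1)) S hk (by omega)
    refine ⟨(d - i - 1) % (e - 1), mbs i j ((d - i - 1) / (e - 1)) S, rfl, a1, a2, ?_⟩
    rw [a4]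
    unfold trx
    have h5 := Nat.div_add_mod' (d - i - 1) (e - 1)
    omega
  · obtain ⟨h1, h2⟩ := hτ
    have hk : 1 ≤ (d - i + r - 1) / (e - 1) := (Nat.one_le_div_iff (by omega)).2 (by omega)
    have hlen : (mbr i j ((d - i + r - 1) / (e - 1)) e r).length = (d - i + r - 1) / (e - 1) := by
      unfold mbr
      rw [List.length_map, List.length_range]
    have hne : mbr i j ((d - i + r - 1) / (e - 1)) e r ≠ [] := by
      intro h
      rw [h, List.length_nil] at hlen
      omega
    have hmem : ∀ A ∈ mbr i j ((d - i + r - 1) / (e - 1)) e r, ∃ s : ℕ, A = (range j).erase i \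
        (Ico (s * (e - 1)) ((s + 1) * (e - 1)) ∩ range r) := by
      intro A hA
      unfold mbr at hA
      obtain ⟨s, _, rfl⟩ := List.mem_map.1 hA
      exact ⟨s, rfl⟩
    refine ⟨(d - i + r - 1) % (e - 1), mbr i j ((d - i + r - 1) / (e - 1)) e r, rfl, hne,
      fun A hA => ?_, ?_⟩
    · obtain ⟨s, rfl⟩ := hmem A hA
      refine ⟨sdiff_subset, (hE _).trans ?_⟩
      have h3 : (Ico (s * (e - 1)) ((s + 1) * (e - 1)) ∩ range r).card ≤ e - 1 := by
        refine (card_le_card inter_subset_left).trans ?_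
        rw [Nat.card_Ico]
        have : (s + 1) * (e - 1) = s * (e - 1) + (e - 1) := by ring
        omega
      omega
    · rw [hlen]
      have h3 : ((range j).erase i \ inter (mbr i j ((d - i + r - 1) / (e - 1)) e r)).card ≤ r := by
        refine (card_le_card (t := range r) fun x hx => ?_).trans_eq (card_range r)
        rw [mem_sdiff, mem_inter_iff hne] at hx
        by_contra hxr
        refine hx.2 fun A hA => ?_
        obtain ⟨s, rfl⟩ := hmem A hA
        exact mem_sdiff.2 ⟨hx.1, fun h => hxr (mem_inter.1 h).2⟩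
      unfold trx
      have h5 := Nat.div_add_mod' (d - i + r - 1) (e - 1)
      omega

theorem Cls.lead {P : Par} (he : 2 ≤ P.e) {j n : ℕ} (hj : j ≤ P.J) (hc : ∀ i < j, 1 ≤ P.c i)
    (hn : ∑ i ∈ range j, P.c i ≤ n) {ms : Multiset Kd} (h : Cls P j n ms) : Lead P.c j n ms := by
  have h1 := h.mem
  clear h
  induction ms using Multiset.induction_on with
  | empty => exact lead_zero hn
  | cons k ms ih =>
    have h2 := ih fun k' hk' => h1 k' (Multiset.mem_cons_of_mem hk')
    rcases h1 k (Multiset.mem_cons_self k ms) with ⟨x, A, rfl, h3, _, h4, h5⟩ | ⟨i, hi, τ, hτ, rfl⟩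
    · exact lead_ord hc (by omega) h4 h5 h2
    · obtain ⟨dl, As, h6, _, h7, h8⟩ := CT.good he hj hi hτ
      rw [h6]
      exact lead_cl hc (by omega) h7 h8 h2

theorem lead_replicate {c : ℕ → ℕ} {J n e : ℕ} (hc : ∀ i < J, 1 ≤ c i) (he : 1 ≤ e) {ms : Multiset Kd}
    (h : Lead c J n ms) (N : ℕ) : Lead c J n (ms + Multiset.replicate N (Kd.ord e (range J))) := by
  induction N with
  | zero => rwa [Multiset.replicate_zero, add_zero]
  | succ N ih =>
    rw [Multiset.replicate_succ, Multiset.add_cons]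
    exact lead_ord hc he le_rfl (by simp) ih

/-- The effect of the points of the main kind. -/
theorem vd_replicate {c : ℕ → ℕ} {J n e d : ℕ} (hc : ∀ i < J, 1 ≤ c i) (he : 1 ≤ e) (hd : d = e + J)
    {ms : Multiset Kd} (h : Lead c J n ms) (N : ℕ) :
    vd d (range J) c n (ms + Multiset.replicate N (Kd.ord e (range J))) =
      vd d (range J) c n ms - N * vd J (range J) c n ms := by
  have h1 : ∀ N, vd J (range J) c n (ms + Multiset.replicate N (Kd.ord e (range J))) =
      vd J (range J) c n ms := by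
    intro N
    induction N with
    | zero => rw [Multiset.replicate_zero, add_zero]
    | succ N ih =>
      rw [Multiset.replicate_succ, Multiset.add_cons, vd_ord, ih, inter_self]
      split_ifs with h2
      · rw [(lead_replicate hc he h N (range J) le_rfl).1 _ (by rw [card_range]; omega), sub_zero]
      · rw [sub_zero]
  induction N with
  | zero =>
    rw [Multiset.replicate_zero, add_zero]
    push_cast
    ring
  | succ N ih =>
    rw [Multiset.replicate_succ, Multiset.add_cons, vd_ord, inter_self, if_pos (by omega), ih]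
    have h2 : d - e = J := by omega
    rw [h2, h1]
    push_cast
    ring

end Pool.Agent.GD

end

section

/-!
# V7, block GAMMA: ordinary `M`-fold points on forms of a given set of exponents

`SG M β A` is the system of the forms with the exponents `A` and of the ordinary points of
multiplicity `M` (types: the sets `I` of blocks where the point vanishes).
-/

set_option autoImplicit false
set_option linter.unusedSectionVars false

namespace Pool.Agent.V7.GA

open Finset MvPolynomial Pool.Agent.H51.TB Pool.Agent.H54.V7 Pool.Agent.V7.ST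
open Pool.Agent.H18.Ex (tcr)

/-! ### Multisets of types -/

theorem gM_anti {E ν T : Type} [Fintype E] (S : Sys E ν T) {s t : Multiset T} (h : s ≤ t) :
    gM S t ≤ gM S s := by
  obtain ⟨u, rfl⟩ := Multiset.le_iff_exists_add.mp h
  induction u using Multiset.induction_on with
  | empty => rw [add_zero]
  | cons a u ih =>
    rw [Multiset.add_cons]
    exact (gM_cons_le S _ a).trans (ih (Multiset.le_add_right _ _))

/-- If every nonzero element violates the conditions of a point of one of the types of `T₀`, then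
`H` rounds of points of these types kill a solution space of dimension at most `H`. -/
theorem gM_kill {E ν T : Type} [Fintype E] (S : Sys E ν T) (T₀ : Set T) [DecidableEq T]
    (hT : ∀ F : E → ℂ, F ≠ 0 → ∃ t ∈ T₀, ∃ q : ν → ℂ, F ∉ S.V (fun _ : Unit => t) fun _ => q)
    (H : ℕ) : ∀ s₀ s₁ : Multiset T, gM S s₀ ≤ H → (∀ t ∈ T₀, H ≤ s₁.count t) →
      gM S (s₀ + s₁) = 0 := by
  induction H with
  | zero =>
    intro s₀ s₁ h0 _
    have h1 := gM_anti S (Multiset.le_add_right s₀ s₁)
    omega
  | succ H ih =>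
    intro s₀ s₁ h0 h1
    by_cases hz : gM S s₀ = 0
    · have h2 := gM_anti S (Multiset.le_add_right s₀ s₁)
      omega
    obtain ⟨m, hm, hmg⟩ := exists_conf S s₀
    obtain ⟨p, hp⟩ := gd_attained S m
    have hne : S.V m p ≠ ⊥ := by
      intro hb
      rw [hb, finrank_bot] at hp
      omega
    obtain ⟨F, hF, hF0⟩ := Submodule.exists_mem_ne_zero_of_ne_bot hne
    obtain ⟨t, ht, q, hq⟩ := hT F hF0
    have hlt : S.V (ad m t) (Sum.elim p fun _ => q) < S.V m p := by
      unfold ad
      rw [V_elim]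
      refine lt_of_le_of_ne inf_le_left fun he => hq ?_
      have h3 : F ∈ S.V m p ⊓ S.V (fun _ : Unit => t) fun _ => q := by
        rw [he]
        exact hF
      exact h3.2
    have h4 := Submodule.finrank_lt_finrank_of_lt hlt
    have h5 := gd_le S (ad m t) (Sum.elim p fun _ => q)
    rw [gd_eq_gM S (ad m t), map_ad, hm] at h5
    have h6 : 0 < s₁.count t := lt_of_lt_of_le (Nat.succ_pos H) (h1 t ht)
    rw [Multiset.count_pos] at h6
    have h7 := ih (t ::ₘ s₀) (s₁.erase t) (by omega) (by
      intro u hu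
      by_cases hut : u = t
      · subst hut
        rw [Multiset.count_erase_self]
        have := h1 u hu
        omega
      · rw [Multiset.count_erase_of_ne hut]
        exact (Nat.le_succ H).trans (h1 u hu))
    rw [Multiset.cons_add, ← Multiset.add_cons, Multiset.cons_erase h6] at h7
    exact h7

/-! ### The systems -/

variable {ν : Type} [Fintype ν] [DecidableEq ν]

/-- Forms with the exponents `A`, ordinary points of multiplicity `M`. -/
noncomputable def SG (M : ℕ) (β : ν → ℕ) (A : Finset (ν → ℕ)) :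
    Sys {a // a ∈ A} ν (Finset ℕ) where
  R := fun _ => {b : ν → ℕ // ∑ s, b s < M}
  fin := fun _ => finite_lt M _ fun _ hb => hb.le
  co := fun I r e => tcr (msk β I fun s => X s) e.1 r.1

theorem eval_tcr_X (β : ν → ℕ) (I : Finset ℕ) (q : ν → ℂ) (e b : ν → ℕ) :
    eval q (tcr (msk β I fun s => (X s : MvPolynomial ν ℂ)) e b) = tcr (msk β I q) e b := by
  unfold tcr
  rw [map_prod]
  refine prod_congr rfl fun s _ => ?_
  rw [map_mul, map_pow, map_natCast]
  congr 2
  unfold msk
  split_ifs
  · rw [map_zero]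
  · rw [eval_X]

theorem mem_SG (M : ℕ) (β : ν → ℕ) (A : Finset (ν → ℕ)) {κ : Type} (m : κ → Finset ℕ)
    (p : κ → ν → ℂ) (f : {a // a ∈ A} → ℂ) :
    f ∈ (SG M β A).V m p ↔ ∀ i, Fat (fun e : {a // a ∈ A} => e.1) M (msk β (m i) (p i)) f := by
  rw [Sys.mem_V]
  refine forall_congr' fun x => ?_
  constructor
  · intro h b hb
    rw [← h (⟨b, hb⟩ : {b : ν → ℕ // ∑ s, b s < M})]
    refine sum_congr rfl fun e _ => ?_
    show _ = eval (p x) (tcr (msk β (m x) fun s => (X s : MvPolynomial ν ℂ)) e.1 b) * f e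
    rw [eval_tcr_X, mul_comm]
  · intro h r
    rw [← h r.1 r.2]
    refine sum_congr rfl fun e _ => ?_
    show eval (p x) (tcr (msk β (m x) fun s => (X s : MvPolynomial ν ℂ)) e.1 r.1) * f e = _
    rw [eval_tcr_X, mul_comm]

/-- A sum over a smaller set of exponents. -/
theorem sum_sub {A A₂ : Finset (ν → ℕ)} (h : A₂ ⊆ A) (F : {a // a ∈ A} → ℂ)
    (h0 : ∀ e : {a // a ∈ A}, e.1 ∉ A₂ → F e = 0) :
    ∑ e : {a // a ∈ A₂}, F ⟨e.1, h e.2⟩ = ∑ e : {a // a ∈ A}, F e := by
  refine Fintype.sum_of_injective (fun e : {a // a ∈ A₂} => (⟨e.1, h e.2⟩ : {a // a ∈ A})) ?_ _ _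
    ?_ fun _ => rfl
  · intro x y hxy
    exact Subtype.ext (congrArg (fun z : {a // a ∈ A} => z.1) hxy)
  · intro e he
    refine h0 e fun h1 => he ⟨⟨e.1, h1⟩, rfl⟩

theorem tcr_zero_of {q : ν → ℂ} {e b : ν → ℕ} (s : ν)
    (h : (((e s).choose (b s) : ℕ) : ℂ) * q s ^ (e s - b s) = 0) : tcr q e b = 0 := by
  unfold tcr
  exact prod_eq_zero (mem_univ s) h

/-! ### The exponents -/

/-- The exponents of degree `2 M - 1` which meet the blocks `0, …, j - 1`, have degree at least `M`
in the blocks `0, …, M - 2` and are supported on `W`. -/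
def Ag (M : ℕ) (β : ν → ℕ) (j : ℕ) (W : Finset ν) : Finset (ν → ℕ) :=
  (Ex β (2 * M - 1) j).filter fun a =>
    (∀ s, a s ≠ 0 → s ∈ W) ∧ M ≤ ∑ s ∈ univ.filter (fun s => β s < M - 1), a s

theorem mem_Ag {M : ℕ} {β : ν → ℕ} {j : ℕ} {W : Finset ν} {a : ν → ℕ} :
    a ∈ Ag M β j W ↔ (∑ s, a s = 2 * M - 1 ∧ ∀ i < j, ∃ s, β s = i ∧ a s ≠ 0) ∧
      (∀ s, a s ≠ 0 → s ∈ W) ∧ M ≤ ∑ s ∈ univ.filter (fun s => β s < M - 1), a s := by
  unfold Ag
  rw [mem_filter, mem_Ex]

/-- An exponent which meets the blocks of `T` has degree at least `|T|` there. -/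
theorem card_le_deg (β : ν → ℕ) (a : ν → ℕ) (T : Finset ℕ)
    (h : ∀ i ∈ T, ∃ s, β s = i ∧ a s ≠ 0) :
    T.card ≤ ∑ s ∈ univ.filter (fun s => β s ∈ T), a s := by
  have h1 : ∑ s ∈ univ.filter (fun s => β s ∈ T), a s =
      ∑ i ∈ T, ∑ s ∈ (univ.filter (fun s => β s ∈ T)).filter (fun s => β s = i), a s :=
    (sum_fiberwise_of_maps_to (fun s hs => (mem_filter.mp hs).2) _).symm
  rw [h1, card_eq_sum_ones]
  refine sum_le_sum fun i hi => ?_
  obtain ⟨s, hs, has⟩ := h i hi
  have h2 : s ∈ (univ.filter (fun s => β s ∈ T)).filter (fun s => β s = i) := by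
    rw [mem_filter, mem_filter]
    exact ⟨⟨mem_univ s, by rw [hs]; exact hi⟩, hs⟩
  have h3 := single_le_sum (f := a) (fun _ _ => Nat.zero_le _) h2
  omega

/-- The number of exponents is bounded in terms of `|W|`. -/
theorem card_Ag_le {M : ℕ} (hM : 1 ≤ M) (β : ν → ℕ) (j : ℕ) (W : Finset ν) :
    (Ag M β j W).card ≤ (2 * M) ^ W.card := by
  classical
  have hlt : ∀ a ∈ Ag M β j W, ∀ s, a s < 2 * M := by
    intro a ha s
    have h1 := (mem_Ag.mp ha).1.1
    have h2 := single_le_sum (f := a) (fun _ _ => Nat.zero_le _) (mem_univ s)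
    omega
  have h1 : Fintype.card {a // a ∈ Ag M β j W} ≤ Fintype.card ({s // s ∈ W} → Fin (2 * M)) := by
    refine Fintype.card_le_of_injective
      (fun a s => ⟨a.1 s.1, hlt a.1 a.2 s.1⟩) ?_
    intro a b hab
    apply Subtype.ext
    funext s
    by_cases hs : s ∈ W
    · exact congrArg Fin.val (congrFun hab ⟨s, hs⟩)
    · have ha := (mem_Ag.mp a.2).2.1 s
      have hb := (mem_Ag.mp b.2).2.1 s
      by_contra hne
      by_cases h0 : a.1 s = 0
      · exact hs (hb fun h => hne (by rw [h0, h]))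
      · exact hs (ha h0)
  rw [Fintype.card_coe] at h1
  refine h1.trans ?_
  rw [Fintype.card_fun, Fintype.card_fin, Fintype.card_coe]

end Pool.Agent.V7.GA

end

section

/-!
# V7, block GAMMA: a nonzero form is not `M`-fold at general points of some type
-/

set_option autoImplicit false
set_option linter.unusedSectionVars false

namespace Pool.Agent.V7.GA

open Finset MvPolynomial Pool.Agent.H51.TB Pool.Agent.H54.V7 Pool.Agent.V7.ST
open Pool.Agent.H18.Ex (tcr)

variable {ν : Type} [Fintype ν] [DecidableEq ν]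

/-- The types of the level `j` which are used. -/
def Good (M j : ℕ) (I : Finset ℕ) : Prop :=
  I ⊆ range j ∧ j + 1 ≤ I.card + M ∧ ¬ range (M - 1) ⊆ I

/-- The part of an exponent on the blocks of `I`. -/
def inI (β : ν → ℕ) (I : Finset ℕ) (a : ν → ℕ) : ν → ℕ := fun s => if β s ∈ I then a s else 0

/-- The part of an exponent off the blocks of `I`. -/
noncomputable def offI (β : ν → ℕ) (I : Finset ℕ) (a : ν → ℕ) : ν →₀ ℕ :=
  Finsupp.equivFunOnFinite.symm fun s => if β s ∈ I then 0 else a s

theorem offI_apply (β : ν → ℕ) (I : Finset ℕ) (a : ν → ℕ) (s : ν) :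
    offI β I a s = if β s ∈ I then 0 else a s := rfl

/-- The Taylor coefficient of order `b` (on the blocks of `I`) at a point which vanishes on the
blocks of `I`. -/
theorem tcr_inI (β : ν → ℕ) (I : Finset ℕ) (a e : ν → ℕ) :
    tcr (msk β I fun s => (X s : MvPolynomial ν ℂ)) e (inI β I a) =
      if (∀ s, β s ∈ I → e s = a s) then monomial (offI β I e) (1 : ℂ) else 0 := by
  split_ifs with h
  · have h1 : (monomial (offI β I e) (1 : ℂ) : MvPolynomial ν ℂ) =
        ∏ s, (X s : MvPolynomial ν ℂ) ^ (offI β I e s) := by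
      rw [monomial_eq, C_1, one_mul]
      exact Finsupp.prod_fintype _ _ fun s => pow_zero _
    rw [h1]
    unfold tcr
    refine prod_congr rfl fun s _ => ?_
    rw [offI_apply]
    unfold inI msk
    by_cases hs : β s ∈ I
    · rw [if_pos hs, if_pos hs, if_pos hs, h s hs, Nat.choose_self, Nat.sub_self, pow_zero,
        pow_zero, Nat.cast_one, one_mul]
    · rw [if_neg hs, if_neg hs, if_neg hs, Nat.choose_zero_right, Nat.sub_zero, Nat.cast_one,
        one_mul]
  · push Not at h
    obtain ⟨s, hs, hne⟩ := h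
    unfold tcr
    refine prod_eq_zero (mem_univ s) ?_
    unfold inI msk
    rw [if_pos hs, if_pos hs]
    rcases Nat.lt_or_gt_of_ne hne with h1 | h1
    · rw [Nat.choose_eq_zero_of_lt h1, Nat.cast_zero, zero_mul]
    · rw [zero_pow (by omega), mul_zero]

/-- A form with a nonzero coefficient at `a` is not `M`-fold at a general point of type `I`, if the
degree of `a` in the blocks of `I` is less than `M`. -/
theorem exists_not_mem {M : ℕ} {β : ν → ℕ} {A : Finset (ν → ℕ)} (I : Finset ℕ)
    (F : {a // a ∈ A} → ℂ) (a : {a // a ∈ A}) (ha : F a ≠ 0)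
    (hd : ∑ s ∈ univ.filter (fun s => β s ∈ I), a.1 s < M) :
    ∃ q : ν → ℂ, F ∉ (SG M β A).V (fun _ : Unit => I) fun _ => q := by
  classical
  let G : MvPolynomial ν ℂ := ∑ e : {a // a ∈ A},
    C (F e) * tcr (msk β I fun s => (X s : MvPolynomial ν ℂ)) e.1 (inI β I a.1)
  have hG : G ≠ 0 := by
    intro h0
    apply ha
    have h1 : coeff (offI β I a.1) G = F a := by
      show coeff (offI β I a.1) (∑ e : {a // a ∈ A},
        C (F e) * tcr (msk β I fun s => (X s : MvPolynomial ν ℂ)) e.1 (inI β I a.1)) = F a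
      rw [coeff_sum]
      rw [sum_eq_single a]
      · rw [coeff_C_mul, tcr_inI, if_pos fun s _ => rfl, coeff_monomial, if_pos rfl, mul_one]
      · intro e _ he
        rw [coeff_C_mul, tcr_inI]
        split_ifs with h
        · rw [coeff_monomial, if_neg, mul_zero]
          intro h2
          apply he
          apply Subtype.ext
          funext s
          by_cases hs : β s ∈ I
          · exact h s hs
          · have h3 := DFunLike.congr_fun h2 s
            rw [offI_apply, offI_apply, if_neg hs, if_neg hs] at h3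
            exact h3
        · rw [coeff_zero, mul_zero]
      · intro h
        exact absurd (mem_univ a) h
    rw [← h1, h0, coeff_zero]
  have hex : ∃ q : ν → ℂ, eval q G ≠ 0 := by
    by_contra hc
    push Not at hc
    exact hG (MvPolynomial.funext fun q => by rw [hc q, map_zero])
  obtain ⟨q, hq⟩ := hex
  refine ⟨q, fun hF => hq ?_⟩
  rw [mem_SG] at hF
  have h1 := hF () (inI β I a.1) (by
    have h2 : ∑ s, inI β I a.1 s = ∑ s ∈ univ.filter (fun s => β s ∈ I), a.1 s := by
      rw [sum_filter]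
      rfl
    rw [h2]
    exact hd)
  show eval q (∑ e : {a // a ∈ A},
        C (F e) * tcr (msk β I fun s => (X s : MvPolynomial ν ℂ)) e.1 (inI β I a.1)) = 0
  rw [map_sum, ← h1]
  refine sum_congr rfl fun e _ => ?_
  rw [map_mul, eval_C, eval_tcr_X]

/-- Every nonzero form violates the conditions of a point of one of the smallest types. -/
theorem exists_type {M j : ℕ} {β : ν → ℕ} {W : Finset ν} (hj : M - 1 ≤ j) (hj2 : j + 1 < 2 * M)
    (F : {a // a ∈ Ag M β j W} → ℂ) (hF : F ≠ 0) :
    ∃ I ∈ {I : Finset ℕ | Good M j I ∧ I.card + M = j + 1}, ∃ q : ν → ℂ,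
      F ∉ (SG M β (Ag M β j W)).V (fun _ : Unit => I) fun _ => q := by
  classical
  obtain ⟨a, ha⟩ := Function.ne_iff.mp hF
  have hA := mem_Ag.mp a.2
  obtain ⟨⟨hdeg, hmeet⟩, hW, hx⟩ := hA
  -- a block of degree at least two
  have h0 : ∃ i₀ < M - 1, 2 ≤ ∑ s ∈ univ.filter (fun s => β s = i₀), a.1 s := by
    by_contra hc
    push Not at hc
    have h1 : ∑ s ∈ univ.filter (fun s => β s < M - 1), a.1 s =
        ∑ i ∈ range (M - 1), ∑ s ∈ (univ.filter (fun s => β s < M - 1)).filter (fun s => β s = i),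
          a.1 s :=
      (sum_fiberwise_of_maps_to (fun s hs => mem_range.mpr (mem_filter.mp hs).2) _).symm
    have h2 : ∑ i ∈ range (M - 1), ∑ s ∈ (univ.filter (fun s => β s < M - 1)).filter
        (fun s => β s = i), a.1 s ≤ ∑ i ∈ range (M - 1), 1 := by
      refine sum_le_sum fun i hi => ?_
      have h3 := hc i (mem_range.mp hi)
      have h4 : (univ.filter (fun s => β s < M - 1)).filter (fun s => β s = i) =
          univ.filter fun s => β s = i := by
        ext s
        simp only [mem_filter, mem_univ, true_and]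
        have := mem_range.mp hi
        constructor
        · exact fun h => h.2
        · exact fun h => ⟨by omega, h⟩
      rw [h4]
      omega
    rw [sum_const, card_range, smul_eq_mul, mul_one] at h2
    omega
  obtain ⟨i₀, hi₀, h2⟩ := h0
  have hi₀j : i₀ ∈ range j := mem_range.mpr (by omega)
  obtain ⟨I, hI, hIc⟩ := exists_subset_card_eq (s := (range j).erase i₀) (n := j + 1 - M) (by
    rw [card_erase_of_mem hi₀j, card_range]
    omega)
  have hI₀ : i₀ ∉ I := fun h => (mem_erase.mp (hI h)).1 rfl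
  have hIj : I ⊆ range j := fun i hi => (mem_erase.mp (hI hi)).2
  have hd : ∑ s ∈ univ.filter (fun s => β s ∈ I), a.1 s < M := by
    have h3 := card_le_deg β a.1 (((range j) \ I).erase i₀) fun i hi =>
      hmeet i (mem_range.mp (mem_sdiff.mp (mem_erase.mp hi).2).1)
    have h4 : (((range j) \ I).erase i₀).card + (j + 1 - M) + 1 = j := by
      rw [card_erase_of_mem (mem_sdiff.mpr ⟨hi₀j, hI₀⟩), card_sdiff_of_subset hIj, card_range, hIc]
      have : 1 ≤ j - (j + 1 - M) := by omega
      omega
    have h5 : ∑ s ∈ univ.filter (fun s => β s ∈ I), a.1 s +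
        ∑ s ∈ univ.filter (fun s => β s ∈ ((range j) \ I).erase i₀), a.1 s +
        ∑ s ∈ univ.filter (fun s => β s = i₀), a.1 s ≤ ∑ s, a.1 s := by
      rw [← sum_union, ← sum_union]
      · exact sum_le_sum_of_subset (subset_univ _)
      · rw [disjoint_left]
        intro s hs hs'
        rw [mem_filter] at hs'
        rw [mem_union, mem_filter, mem_filter] at hs
        rcases hs with hs | hs
        · exact hI₀ (by rw [← hs'.2]; exact hs.2)
        · exact (mem_erase.mp hs.2).1 hs'.2
      · rw [disjoint_left]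
        intro s hs hs'
        rw [mem_filter] at hs hs'
        exact (mem_sdiff.mp (mem_erase.mp hs'.2).2).2 hs.2
    omega
  obtain ⟨q, hq⟩ := exists_not_mem I F a ha hd
  refine ⟨I, ⟨⟨hIj, by omega, fun h => hI₀ (h (mem_range.mpr hi₀))⟩, by omega⟩, q, hq⟩

end Pool.Agent.V7.GA

end

section

/-!
# V7, block GAMMA: the trace step

A set `Bk` of variables with block numbers `≥ j` becomes the block `j`.
-/

set_option autoImplicit false
set_option linter.unusedSectionVars false

namespace Pool.Agent.V7.GA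

open Finset MvPolynomial Pool.Agent.H51.TB Pool.Agent.H54.V7 Pool.Agent.V7.ST
open Pool.Agent.H18.Ex (tcr)

variable {ν : Type} [Fintype ν] [DecidableEq ν]

/-- The new block numbers: `Bk` becomes the block `j`. -/
def nb (β : ν → ℕ) (j : ℕ) (Bk : Finset ν) : ν → ℕ := fun s =>
  if s ∈ Bk then j else if β s < j then β s else j + 1

theorem nb_lt {β : ν → ℕ} {j : ℕ} {Bk : Finset ν} (hB : ∀ s ∈ Bk, j ≤ β s) {s : ν} {i : ℕ}
    (hi : i < j) : nb β j Bk s = i ↔ β s = i := by
  unfold nb
  by_cases h1 : s ∈ Bk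
  · rw [if_pos h1]
    have := hB s h1
    omega
  · rw [if_neg h1]
    split_ifs <;> omega

theorem nb_eq {β : ν → ℕ} {j : ℕ} {Bk : Finset ν} {s : ν} :
    nb β j Bk s = j ↔ s ∈ Bk := by
  unfold nb
  by_cases h1 : s ∈ Bk
  · rw [if_pos h1]
    exact ⟨fun _ => h1, fun _ => rfl⟩
  · rw [if_neg h1]
    constructor
    · intro h
      exfalso
      split_ifs at h <;> omega
    · intro h
      exact absurd h h1

theorem nb_mem {β : ν → ℕ} {j : ℕ} {Bk : Finset ν} (hB : ∀ s ∈ Bk, j ≤ β s) {s : ν}
    {I : Finset ℕ} (hI : I ⊆ range j) : nb β j Bk s ∈ I ↔ β s ∈ I := by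
  constructor
  · intro h
    have h1 := mem_range.mp (hI h)
    have h2 := (nb_lt hB h1).mp rfl
    rw [h2]
    exact h
  · intro h
    have h1 := mem_range.mp (hI h)
    have h2 := (nb_lt (Bk := Bk) hB h1).mpr rfl
    rw [h2]
    exact h

theorem nb_lt_iff {β : ν → ℕ} {j : ℕ} {Bk : Finset ν} (hB : ∀ s ∈ Bk, j ≤ β s) {s : ν} {i : ℕ}
    (hi : i ≤ j) : nb β j Bk s < i ↔ β s < i := by
  have h1 := nb_mem (s := s) hB (I := range i) (range_subset_range.mpr hi)
  rw [mem_range, mem_range] at h1
  exact h1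

theorem msk_nb {β : ν → ℕ} {j : ℕ} {Bk : Finset ν} (hB : ∀ s ∈ Bk, j ≤ β s)
    {I : Finset ℕ} (hI : I ⊆ range j) (q : ν → ℂ) : msk (nb β j Bk) I q = msk β I q := by
  funext s
  unfold msk
  by_cases h : β s ∈ I
  · rw [if_pos h, if_pos ((nb_mem hB hI).mpr h)]
  · rw [if_neg h, if_neg fun h' => h ((nb_mem hB hI).mp h')]

/-- The position on the subspace where the variables of `Bk` vanish. -/
def zb (Bk : Finset ν) (q : ν → ℂ) : ν → ℂ := fun s => if s ∈ Bk then 0 else q s

theorem msk_nb_insert {β : ν → ℕ} {j : ℕ} {Bk : Finset ν} (hB : ∀ s ∈ Bk, j ≤ β s)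
    {I : Finset ℕ} (hI : I ⊆ range j) (q : ν → ℂ) :
    msk (nb β j Bk) (insert j I) q = msk β I (zb Bk q) := by
  funext s
  unfold msk zb
  by_cases h : s ∈ Bk
  · rw [if_pos (mem_insert.mpr (Or.inl (nb_eq.mpr h))), if_pos h]
    split_ifs <;> rfl
  · rw [if_neg h]
    by_cases h' : β s ∈ I
    · rw [if_pos h', if_pos (mem_insert.mpr (Or.inr ((nb_mem hB hI).mpr h')))]
    · rw [if_neg h', if_neg]
      intro h2
      rcases mem_insert.mp h2 with h2 | h2
      · exact h (nb_eq.mp h2)
      · exact h' ((nb_mem hB hI).mp h2)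

theorem Ag_sdiff_subset (M : ℕ) (β : ν → ℕ) (j : ℕ) (W Bk : Finset ν) :
    Ag M β j (W \ Bk) ⊆ Ag M β j W := by
  intro a ha
  rw [mem_Ag] at ha ⊢
  exact ⟨ha.1, fun s hs => (mem_sdiff.mp (ha.2.1 s hs)).1, ha.2.2⟩

theorem Ag_nb_subset {M : ℕ} {β : ν → ℕ} {j : ℕ} {W Bk : Finset ν} (hj : M - 1 ≤ j)
    (hB : ∀ s ∈ Bk, j ≤ β s) : Ag M (nb β j Bk) (j + 1) W ⊆ Ag M β j W := by
  intro a ha
  rw [mem_Ag] at ha ⊢
  refine ⟨⟨ha.1.1, fun i hi => ?_⟩, ha.2.1, ?_⟩
  · obtain ⟨s, hs, h0⟩ := ha.1.2 i (by omega)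
    exact ⟨s, (nb_lt hB hi).mp hs, h0⟩
  · have h1 : univ.filter (fun s => nb β j Bk s < M - 1) = univ.filter fun s => β s < M - 1 :=
      filter_congr fun s _ => nb_lt_iff hB hj
    rw [← h1]
    exact ha.2.2

theorem Ag_cover {M : ℕ} {β : ν → ℕ} {j : ℕ} {W Bk : Finset ν} (hj : M - 1 ≤ j)
    (hB : ∀ s ∈ Bk, j ≤ β s) {a : ν → ℕ} (ha : a ∈ Ag M β j W) :
    a ∈ Ag M β j (W \ Bk) ∨ a ∈ Ag M (nb β j Bk) (j + 1) W := by
  rw [mem_Ag] at ha
  by_cases h : ∃ s ∈ Bk, a s ≠ 0
  · right
    rw [mem_Ag]
    refine ⟨⟨ha.1.1, fun i hi => ?_⟩, ha.2.1, ?_⟩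
    · rcases Nat.lt_succ_iff_lt_or_eq.mp hi with hi | hi
      · obtain ⟨s, hs, h0⟩ := ha.1.2 i hi
        exact ⟨s, (nb_lt hB hi).mpr hs, h0⟩
      · obtain ⟨s, hs, h0⟩ := h
        exact ⟨s, by rw [hi]; exact nb_eq.mpr hs, h0⟩
    · have h1 : univ.filter (fun s => nb β j Bk s < M - 1) = univ.filter fun s => β s < M - 1 :=
        filter_congr fun s _ => nb_lt_iff hB hj
      rw [h1]
      exact ha.2.2
  · left
    push Not at h
    rw [mem_Ag]
    exact ⟨ha.1, fun s hs => mem_sdiff.mpr ⟨ha.2.1 s hs, fun hsB => hs (h s hsB)⟩, ha.2.2⟩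

theorem Ag_zero_of_mem {M : ℕ} {β : ν → ℕ} {j : ℕ} {W Bk : Finset ν} {a : ν → ℕ}
    (ha : a ∈ Ag M β j (W \ Bk)) : ∀ s ∈ Bk, a s = 0 := by
  intro s hs
  by_contra h0
  exact (mem_sdiff.mp ((mem_Ag.mp ha).2.1 s h0)).2 hs

theorem exists_ne_of_not_mem {M : ℕ} {β : ν → ℕ} {j : ℕ} {W Bk : Finset ν} {a : ν → ℕ}
    (ha : a ∈ Ag M β j W) (h : a ∉ Ag M β j (W \ Bk)) : ∃ s ∈ Bk, a s ≠ 0 := by
  by_contra hc
  push Not at hc
  apply h
  rw [mem_Ag] at ha ⊢
  exact ⟨ha.1, fun s hs => mem_sdiff.mpr ⟨ha.2.1 s hs, fun hsB => hs (hc s hsB)⟩, ha.2.2⟩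

/-- The restriction of a form which is `M`-fold at a point of the subspace. -/
theorem fat_trace {M : ℕ} {β : ν → ℕ} {j : ℕ} {W Bk : Finset ν} (I : Finset ℕ) (q : ν → ℂ)
    (f : {a // a ∈ Ag M β j W} → ℂ)
    (h : Fat (fun e : {a // a ∈ Ag M β j W} => e.1) M (msk β I (zb Bk q)) f) :
    Fat (fun e : {a // a ∈ Ag M β j (W \ Bk)} => e.1) M (msk β I q)
      fun e => f ⟨e.1, Ag_sdiff_subset M β j W Bk e.2⟩ := by
  intro b hb
  by_cases hbB : ∃ s ∈ Bk, b s ≠ 0
  · obtain ⟨s, hs, hb0⟩ := hbB
    refine sum_eq_zero fun e _ => ?_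
    rw [tcr_zero_of s, mul_zero]
    show (((e.1 s).choose (b s) : ℕ) : ℂ) * msk β I q s ^ (e.1 s - b s) = 0
    rw [Ag_zero_of_mem e.2 s hs, Nat.choose_eq_zero_of_lt (Nat.pos_of_ne_zero hb0), Nat.cast_zero,
      zero_mul]
  · push Not at hbB
    have h1 := sum_sub (Ag_sdiff_subset M β j W Bk)
      (fun e : {a // a ∈ Ag M β j W} => f e * tcr (msk β I (zb Bk q)) e.1 b) (by
        intro e he
        obtain ⟨s, hs, h0⟩ := exists_ne_of_not_mem e.2 he
        show f e * tcr (msk β I (zb Bk q)) e.1 b = 0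
        rw [tcr_zero_of s, mul_zero]
        have h2 : msk β I (zb Bk q) s = 0 := by
          unfold msk zb
          rw [if_pos hs]
          split_ifs <;> rfl
        rw [h2, hbB s hs, Nat.sub_zero, zero_pow h0, mul_zero])
    rw [← h b hb, ← h1]
    refine sum_congr rfl fun e _ => ?_
    show _ = f _ * tcr (msk β I (zb Bk q)) e.1 b
    congr 1
    unfold tcr
    refine prod_congr rfl fun s _ => ?_
    show (((e.1 s).choose (b s) : ℕ) : ℂ) * msk β I q s ^ (e.1 s - b s) =
      (((e.1 s).choose (b s) : ℕ) : ℂ) * msk β I (zb Bk q) s ^ (e.1 s - b s)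
    by_cases hs : s ∈ Bk
    · rw [Ag_zero_of_mem e.2 s hs, Nat.zero_sub, pow_zero, pow_zero]
    · congr 2
      unfold msk zb
      rw [if_neg hs]

/-- A form which vanishes on the subspace has its conditions on the remaining exponents. -/
theorem fat_res {M : ℕ} {β : ν → ℕ} {j : ℕ} {W Bk : Finset ν} (hj : M - 1 ≤ j)
    (hB : ∀ s ∈ Bk, j ≤ β s) (p : ν → ℂ) (f : {a // a ∈ Ag M β j W} → ℂ)
    (h : Fat (fun e : {a // a ∈ Ag M β j W} => e.1) M p f)
    (h0 : ∀ e : {a // a ∈ Ag M β j (W \ Bk)}, f ⟨e.1, Ag_sdiff_subset M β j W Bk e.2⟩ = 0) :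
    Fat (fun e : {a // a ∈ Ag M (nb β j Bk) (j + 1) W} => e.1) M p
      fun e => f ⟨e.1, Ag_nb_subset hj hB e.2⟩ := by
  intro b hb
  rw [← h b hb]
  refine sum_sub (Ag_nb_subset hj hB)
      (fun e : {a // a ∈ Ag M β j W} => f e * tcr p e.1 b) ?_
  intro e he
  show f e * tcr p e.1 b = 0
  rcases Ag_cover hj hB e.2 with h1 | h1
  · have h2 : f e = 0 := h0 ⟨e.1, h1⟩
    rw [h2, zero_mul]
  · exact absurd h1 he

/-- The trace step: the points of `s` are put on the subspace where the variables of `Bk`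
vanish. -/
theorem gM_trace {M : ℕ} {β : ν → ℕ} {j : ℕ} {W Bk : Finset ν} (hj : M - 1 ≤ j)
    (hB : ∀ s ∈ Bk, j ≤ β s) (s t : Multiset (Finset ℕ)) (hs : ∀ I ∈ s, I ⊆ range j)
    (ht : ∀ I ∈ t, I ⊆ range j) :
    gM (SG M β (Ag M β j W)) (s + t) ≤ gM (SG M β (Ag M β j (W \ Bk))) s +
      gM (SG M (nb β j Bk) (Ag M (nb β j Bk) (j + 1) W)) (s.map (insert j) + t) := by
  obtain ⟨m, hm, hmg⟩ := exists_conf (SG M β (Ag M β j (W \ Bk))) s
  obtain ⟨n, hn, _⟩ := exists_conf (SG M β (Ag M β j (W \ Bk))) t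
  have hms : ∀ i, m i ⊆ range j := by
    intro i
    apply hs
    rw [← hm]
    exact Multiset.mem_map_of_mem m (mem_univ i)
  have hnt : ∀ i, n i ⊆ range j := by
    intro i
    apply ht
    rw [← hn]
    exact Multiset.mem_map_of_mem n (mem_univ i)
  have h1 := gd_trace (SG M β (Ag M β j W)) (SG M β (Ag M β j (W \ Bk)))
    (SG M (nb β j Bk) (Ag M (nb β j Bk) (j + 1) W))
    (fun e => ⟨e.1, Ag_sdiff_subset M β j W Bk e.2⟩) (fun e => ⟨e.1, Ag_nb_subset hj hB e.2⟩)
    (by
      intro e
      rcases Ag_cover hj hB e.2 with h | h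
      · exact Or.inl ⟨⟨e.1, h⟩, rfl⟩
      · exact Or.inr ⟨⟨e.1, h⟩, rfl⟩)
    id Function.injective_id (zb Bk) m (fun i => insert j (m i)) n
    (by
      intro i q f hf
      rw [mem_SG] at hf ⊢
      exact fun u => fat_trace (m i) q f (hf u))
    (by
      intro i q f hf h0
      rw [mem_SG] at hf ⊢
      intro u
      rw [msk_nb_insert hB (hms i)]
      exact fat_res hj hB _ f (hf u) h0)
    (by
      intro i q f hf h0
      rw [mem_SG] at hf ⊢
      intro u
      rw [msk_nb hB (hnt i)]
      exact fat_res hj hB _ f (hf u) h0)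
  rw [gd_eq_gM, gd_eq_gM, gd_eq_gM, map_elim, map_elim, hm, hn] at h1
  have h2 : (univ : Finset (Fin s.toList.length)).val.map (fun i => insert j (m i)) =
      s.map (insert j) := by
    have h3 := congrArg (Multiset.map (insert j)) hm
    rw [Multiset.map_map] at h3
    exact h3
  rw [h2] at h1
  exact h1

end Pool.Agent.V7.GA

end

section

/-!
# General d, block GAMMA: the systems and the trace step

As `V7/GA`, for forms of degree `e + J` and points of multiplicity `J + 1` (exponent `e`).
-/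

set_option autoImplicit false
set_option linter.unusedSectionVars false

namespace Pool.Agent.GD.GA

open Finset MvPolynomial Pool.Agent.H51.TB Pool.Agent.H54.V7 Pool.Agent.V7.ST
open Pool.Agent.V7 (Ex mem_Ex msk)
open Pool.Agent.V7.GA (SG mem_SG sum_sub tcr_zero_of gM_anti gM_kill card_le_deg nb nb_lt nb_eq nb_mem nb_lt_iff msk_nb zb msk_nb_insert exists_not_mem)
open Pool.Agent.H18.Ex (tcr)

variable {ν : Type} [Fintype ν] [DecidableEq ν]

/-- The exponents of degree `e + J` which meet the blocks `0, …, j - 1`, have degree at least `J + 1`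
in the blocks `0, …, J - 1` and are supported on `W`. -/
def Ag (e J : ℕ) (β : ν → ℕ) (j : ℕ) (W : Finset ν) : Finset (ν → ℕ) :=
  (Pool.Agent.V7.Ex β (e + J) j).filter fun a =>
    (∀ s, a s ≠ 0 → s ∈ W) ∧ J + 1 ≤ ∑ s ∈ univ.filter (fun s => β s < J), a s

theorem mem_Ag {e J : ℕ} {β : ν → ℕ} {j : ℕ} {W : Finset ν} {a : ν → ℕ} :
    a ∈ Ag e J β j W ↔ (∑ s, a s = e + J ∧ ∀ i < j, ∃ s, β s = i ∧ a s ≠ 0) ∧
      (∀ s, a s ≠ 0 → s ∈ W) ∧ J + 1 ≤ ∑ s ∈ univ.filter (fun s => β s < J), a s := by
  unfold Ag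
  rw [mem_filter, Pool.Agent.V7.mem_Ex]

/-- The number of exponents is bounded in terms of `|W|`. -/
theorem card_Ag_le (e J : ℕ) (β : ν → ℕ) (j : ℕ) (W : Finset ν) :
    (Ag e J β j W).card ≤ (e + J + 1) ^ W.card := by
  classical
  have hlt : ∀ a ∈ Ag e J β j W, ∀ s, a s < e + J + 1 := by
    intro a ha s
    have h1 := (mem_Ag.mp ha).1.1
    have h2 := single_le_sum (f := a) (fun _ _ => Nat.zero_le _) (mem_univ s)
    omega
  have h1 : Fintype.card {a // a ∈ Ag e J β j W} ≤
      Fintype.card ({s // s ∈ W} → Fin (e + J + 1)) := by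
    refine Fintype.card_le_of_injective
      (fun a s => ⟨a.1 s.1, hlt a.1 a.2 s.1⟩) ?_
    intro a b hab
    apply Subtype.ext
    funext s
    by_cases hs : s ∈ W
    · exact congrArg Fin.val (congrFun hab ⟨s, hs⟩)
    · have ha := (mem_Ag.mp a.2).2.1 s
      have hb := (mem_Ag.mp b.2).2.1 s
      by_contra hne
      by_cases h0 : a.1 s = 0
      · exact hs (hb fun h => hne (by rw [h0, h]))
      · exact hs (ha h0)
  rw [Fintype.card_coe] at h1
  refine h1.trans ?_
  rw [Fintype.card_fun, Fintype.card_fin, Fintype.card_coe]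

theorem Ag_sdiff_subset (e J : ℕ) (β : ν → ℕ) (j : ℕ) (W Bk : Finset ν) :
    Ag e J β j (W \ Bk) ⊆ Ag e J β j W := by
  intro a ha
  rw [mem_Ag] at ha ⊢
  exact ⟨ha.1, fun s hs => (mem_sdiff.mp (ha.2.1 s hs)).1, ha.2.2⟩

theorem Ag_nb_subset {e J : ℕ} {β : ν → ℕ} {j : ℕ} {W Bk : Finset ν} (hj : J ≤ j)
    (hB : ∀ s ∈ Bk, j ≤ β s) : Ag e J (nb β j Bk) (j + 1) W ⊆ Ag e J β j W := by
  intro a ha
  rw [mem_Ag] at ha ⊢
  refine ⟨⟨ha.1.1, fun i hi => ?_⟩, ha.2.1, ?_⟩
  · obtain ⟨s, hs, h0⟩ := ha.1.2 i (by omega)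
    exact ⟨s, (nb_lt hB hi).mp hs, h0⟩
  · have h1 : univ.filter (fun s => nb β j Bk s < J) = univ.filter fun s => β s < J :=
      filter_congr fun s _ => nb_lt_iff hB hj
    rw [← h1]
    exact ha.2.2

theorem Ag_cover {e J : ℕ} {β : ν → ℕ} {j : ℕ} {W Bk : Finset ν} (hj : J ≤ j)
    (hB : ∀ s ∈ Bk, j ≤ β s) {a : ν → ℕ} (ha : a ∈ Ag e J β j W) :
    a ∈ Ag e J β j (W \ Bk) ∨ a ∈ Ag e J (nb β j Bk) (j + 1) W := by
  rw [mem_Ag] at ha
  by_cases h : ∃ s ∈ Bk, a s ≠ 0
  · right
    rw [mem_Ag]
    refine ⟨⟨ha.1.1, fun i hi => ?_⟩, ha.2.1, ?_⟩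
    · rcases Nat.lt_succ_iff_lt_or_eq.mp hi with hi | hi
      · obtain ⟨s, hs, h0⟩ := ha.1.2 i hi
        exact ⟨s, (nb_lt hB hi).mpr hs, h0⟩
      · obtain ⟨s, hs, h0⟩ := h
        exact ⟨s, by rw [hi]; exact nb_eq.mpr hs, h0⟩
    · have h1 : univ.filter (fun s => nb β j Bk s < J) = univ.filter fun s => β s < J :=
        filter_congr fun s _ => nb_lt_iff hB hj
      rw [h1]
      exact ha.2.2
  · left
    push Not at h
    rw [mem_Ag]
    exact ⟨ha.1, fun s hs => mem_sdiff.mpr ⟨ha.2.1 s hs, fun hsB => hs (h s hsB)⟩, ha.2.2⟩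

theorem Ag_zero_of_mem {e J : ℕ} {β : ν → ℕ} {j : ℕ} {W Bk : Finset ν} {a : ν → ℕ}
    (ha : a ∈ Ag e J β j (W \ Bk)) : ∀ s ∈ Bk, a s = 0 := by
  intro s hs
  by_contra h0
  exact (mem_sdiff.mp ((mem_Ag.mp ha).2.1 s h0)).2 hs

theorem exists_ne_of_not_mem {e J : ℕ} {β : ν → ℕ} {j : ℕ} {W Bk : Finset ν} {a : ν → ℕ}
    (ha : a ∈ Ag e J β j W) (h : a ∉ Ag e J β j (W \ Bk)) : ∃ s ∈ Bk, a s ≠ 0 := by
  by_contra hc
  push Not at hc
  apply h
  rw [mem_Ag] at ha ⊢
  exact ⟨ha.1, fun s hs => mem_sdiff.mpr ⟨ha.2.1 s hs, fun hsB => hs (hc s hsB)⟩, ha.2.2⟩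

/-- The restriction of a form which is `M`-fold at a point of the subspace. -/
theorem fat_trace {M e J : ℕ} {β : ν → ℕ} {j : ℕ} {W Bk : Finset ν} (I : Finset ℕ) (q : ν → ℂ)
    (f : {a // a ∈ Ag e J β j W} → ℂ)
    (h : Fat (fun e : {a // a ∈ Ag e J β j W} => e.1) M (msk β I (zb Bk q)) f) :
    Fat (fun e : {a // a ∈ Ag e J β j (W \ Bk)} => e.1) M (msk β I q)
      fun x => f ⟨x.1, Ag_sdiff_subset e J β j W Bk x.2⟩ := by
  intro b hb
  by_cases hbB : ∃ s ∈ Bk, b s ≠ 0
  · obtain ⟨s, hs, hb0⟩ := hbB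
    refine sum_eq_zero fun x _ => ?_
    rw [tcr_zero_of s, mul_zero]
    show (((x.1 s).choose (b s) : ℕ) : ℂ) * msk β I q s ^ (x.1 s - b s) = 0
    rw [Ag_zero_of_mem x.2 s hs, Nat.choose_eq_zero_of_lt (Nat.pos_of_ne_zero hb0), Nat.cast_zero,
      zero_mul]
  · push Not at hbB
    have h1 := sum_sub (Ag_sdiff_subset e J β j W Bk)
      (fun x : {a // a ∈ Ag e J β j W} => f x * tcr (msk β I (zb Bk q)) x.1 b) (by
        intro x he
        obtain ⟨s, hs, h0⟩ := exists_ne_of_not_mem x.2 he
        show f x * tcr (msk β I (zb Bk q)) x.1 b = 0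
        rw [tcr_zero_of s, mul_zero]
        have h2 : msk β I (zb Bk q) s = 0 := by
          unfold msk zb
          rw [if_pos hs]
          split_ifs <;> rfl
        rw [h2, hbB s hs, Nat.sub_zero, zero_pow h0, mul_zero])
    rw [← h b hb, ← h1]
    refine sum_congr rfl fun x _ => ?_
    show _ = f _ * tcr (msk β I (zb Bk q)) x.1 b
    congr 1
    unfold tcr
    refine prod_congr rfl fun s _ => ?_
    show (((x.1 s).choose (b s) : ℕ) : ℂ) * msk β I q s ^ (x.1 s - b s) =
      (((x.1 s).choose (b s) : ℕ) : ℂ) * msk β I (zb Bk q) s ^ (x.1 s - b s)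
    by_cases hs : s ∈ Bk
    · rw [Ag_zero_of_mem x.2 s hs, Nat.zero_sub, pow_zero, pow_zero]
    · congr 2
      unfold msk zb
      rw [if_neg hs]

/-- A form which vanishes on the subspace has its conditions on the remaining exponents. -/
theorem fat_res {M e J : ℕ} {β : ν → ℕ} {j : ℕ} {W Bk : Finset ν} (hj : J ≤ j)
    (hB : ∀ s ∈ Bk, j ≤ β s) (p : ν → ℂ) (f : {a // a ∈ Ag e J β j W} → ℂ)
    (h : Fat (fun e : {a // a ∈ Ag e J β j W} => e.1) M p f)
    (h0 : ∀ x : {a // a ∈ Ag e J β j (W \ Bk)}, f ⟨x.1, Ag_sdiff_subset e J β j W Bk x.2⟩ = 0) :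
    Fat (fun e : {a // a ∈ Ag e J (nb β j Bk) (j + 1) W} => e.1) M p
      fun x => f ⟨x.1, Ag_nb_subset hj hB x.2⟩ := by
  intro b hb
  rw [← h b hb]
  refine sum_sub (Ag_nb_subset hj hB)
      (fun x : {a // a ∈ Ag e J β j W} => f x * tcr p x.1 b) ?_
  intro x he
  show f x * tcr p x.1 b = 0
  rcases Ag_cover hj hB x.2 with h1 | h1
  · have h2 : f x = 0 := h0 ⟨x.1, h1⟩
    rw [h2, zero_mul]
  · exact absurd h1 he

/-- The trace step: the points of `s` are put on the subspace where the variables of `Bk`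
vanish. -/
theorem gM_trace {M e J : ℕ} {β : ν → ℕ} {j : ℕ} {W Bk : Finset ν} (hj : J ≤ j)
    (hB : ∀ s ∈ Bk, j ≤ β s) (s t : Multiset (Finset ℕ)) (hs : ∀ I ∈ s, I ⊆ range j)
    (ht : ∀ I ∈ t, I ⊆ range j) :
    gM (SG M β (Ag e J β j W)) (s + t) ≤ gM (SG M β (Ag e J β j (W \ Bk))) s +
      gM (SG M (nb β j Bk) (Ag e J (nb β j Bk) (j + 1) W)) (s.map (insert j) + t) := by
  obtain ⟨m, hm, hmg⟩ := exists_conf (SG M β (Ag e J β j (W \ Bk))) s
  obtain ⟨n, hn, _⟩ := exists_conf (SG M β (Ag e J β j (W \ Bk))) t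
  have hms : ∀ i, m i ⊆ range j := by
    intro i
    apply hs
    rw [← hm]
    exact Multiset.mem_map_of_mem m (mem_univ i)
  have hnt : ∀ i, n i ⊆ range j := by
    intro i
    apply ht
    rw [← hn]
    exact Multiset.mem_map_of_mem n (mem_univ i)
  have h1 := gd_trace (SG M β (Ag e J β j W)) (SG M β (Ag e J β j (W \ Bk)))
    (SG M (nb β j Bk) (Ag e J (nb β j Bk) (j + 1) W))
    (fun x => ⟨x.1, Ag_sdiff_subset e J β j W Bk x.2⟩) (fun x => ⟨x.1, Ag_nb_subset hj hB x.2⟩)
    (by
      intro x
      rcases Ag_cover hj hB x.2 with h | h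
      · exact Or.inl ⟨⟨x.1, h⟩, rfl⟩
      · exact Or.inr ⟨⟨x.1, h⟩, rfl⟩)
    id Function.injective_id (zb Bk) m (fun i => insert j (m i)) n
    (by
      intro i q f hf
      rw [mem_SG] at hf ⊢
      exact fun u => fat_trace (m i) q f (hf u))
    (by
      intro i q f hf h0
      rw [mem_SG] at hf ⊢
      intro u
      rw [msk_nb_insert hB (hms i)]
      exact fat_res hj hB _ f (hf u) h0)
    (by
      intro i q f hf h0
      rw [mem_SG] at hf ⊢
      intro u
      rw [msk_nb hB (hnt i)]
      exact fat_res hj hB _ f (hf u) h0)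
  rw [gd_eq_gM, gd_eq_gM, gd_eq_gM, map_elim, map_elim, hm, hn] at h1
  have h2 : (univ : Finset (Fin s.toList.length)).val.map (fun i => insert j (m i)) =
      s.map (insert j) := by
    have h3 := congrArg (Multiset.map (insert j)) hm
    rw [Multiset.map_map] at h3
    exact h3
  rw [h2] at h1
  exact h1

/-- The types of the level `j` which are used. -/
def Good (e J j : ℕ) (I : Finset ℕ) : Prop :=
  I ⊆ range j ∧ j + 1 ≤ I.card + e ∧ ¬ range J ⊆ I

/-- Every nonzero form violates the conditions of a point of one of the smallest types. -/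
theorem exists_type {e J j : ℕ} (he : 2 ≤ e) {β : ν → ℕ} {W : Finset ν} (hj : J ≤ j)
    (hj2 : j < e + J) (F : {a // a ∈ Ag e J β j W} → ℂ) (hF : F ≠ 0) :
    ∃ I ∈ {I : Finset ℕ | Good e J j I ∧ I.card = j + 1 - e}, ∃ q : ν → ℂ,
      F ∉ (SG (J + 1) β (Ag e J β j W)).V (fun _ : Unit => I) fun _ => q := by
  classical
  obtain ⟨a, ha⟩ := Function.ne_iff.mp hF
  have hA := mem_Ag.mp a.2
  obtain ⟨⟨hdeg, hmeet⟩, hW, hx⟩ := hA
  -- a block of degree at least two
  have h0 : ∃ i₀ < J, 2 ≤ ∑ s ∈ univ.filter (fun s => β s = i₀), a.1 s := by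
    by_contra hc
    push Not at hc
    have h1 : ∑ s ∈ univ.filter (fun s => β s < J), a.1 s =
        ∑ i ∈ range J, ∑ s ∈ (univ.filter (fun s => β s < J)).filter (fun s => β s = i),
          a.1 s :=
      (sum_fiberwise_of_maps_to (fun s hs => mem_range.mpr (mem_filter.mp hs).2) _).symm
    have h2 : ∑ i ∈ range J, ∑ s ∈ (univ.filter (fun s => β s < J)).filter
        (fun s => β s = i), a.1 s ≤ ∑ i ∈ range J, 1 := by
      refine sum_le_sum fun i hi => ?_
      have h3 := hc i (mem_range.mp hi)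
      have h4 : (univ.filter (fun s => β s < J)).filter (fun s => β s = i) =
          univ.filter fun s => β s = i := by
        ext s
        simp only [mem_filter, mem_univ, true_and]
        have := mem_range.mp hi
        constructor
        · exact fun h => h.2
        · exact fun h => ⟨by omega, h⟩
      rw [h4]
      omega
    rw [sum_const, card_range, smul_eq_mul, mul_one] at h2
    omega
  obtain ⟨i₀, hi₀, h2⟩ := h0
  have hi₀j : i₀ ∈ range j := mem_range.mpr (by omega)
  obtain ⟨I, hI, hIc⟩ := exists_subset_card_eq (s := (range j).erase i₀) (n := j + 1 - e) (by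
    rw [card_erase_of_mem hi₀j, card_range]
    omega)
  have hI₀ : i₀ ∉ I := fun h => (mem_erase.mp (hI h)).1 rfl
  have hIj : I ⊆ range j := fun i hi => (mem_erase.mp (hI hi)).2
  have hd : ∑ s ∈ univ.filter (fun s => β s ∈ I), a.1 s < J + 1 := by
    by_cases hje : j + 1 ≤ e
    · have h3 : I = ∅ := card_eq_zero.mp (by omega)
      rw [h3]
      simp
    have h3 := card_le_deg β a.1 (((range j) \ I).erase i₀) fun i hi =>
      hmeet i (mem_range.mp (mem_sdiff.mp (mem_erase.mp hi).2).1)
    have h4 : (((range j) \ I).erase i₀).card + (j + 1 - e) + 1 = j := by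
      rw [card_erase_of_mem (mem_sdiff.mpr ⟨hi₀j, hI₀⟩), card_sdiff_of_subset hIj, card_range, hIc]
      have : 1 ≤ j - (j + 1 - e) := by omega
      omega
    have h5 : ∑ s ∈ univ.filter (fun s => β s ∈ I), a.1 s +
        ∑ s ∈ univ.filter (fun s => β s ∈ ((range j) \ I).erase i₀), a.1 s +
        ∑ s ∈ univ.filter (fun s => β s = i₀), a.1 s ≤ ∑ s, a.1 s := by
      rw [← sum_union, ← sum_union]
      · exact sum_le_sum_of_subset (subset_univ _)
      · rw [disjoint_left]
        intro s hs hs'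
        rw [mem_filter] at hs'
        rw [mem_union, mem_filter, mem_filter] at hs
        rcases hs with hs | hs
        · exact hI₀ (by rw [← hs'.2]; exact hs.2)
        · exact (mem_erase.mp hs.2).1 hs'.2
      · rw [disjoint_left]
        intro s hs hs'
        rw [mem_filter] at hs hs'
        exact (mem_sdiff.mp (mem_erase.mp hs'.2).2).2 hs.2
    omega
  obtain ⟨q, hq⟩ := exists_not_mem I F a ha hd
  refine ⟨I, ⟨⟨hIj, by omega, fun h => hI₀ (h (mem_range.mpr hi₀))⟩, hIc⟩, q, hq⟩

end Pool.Agent.GD.GA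

end

section

/-!
# V7, block GAMMA: the induction
-/

set_option autoImplicit false
set_option linter.unusedSectionVars false

namespace Pool.Agent.V7.GA

open Finset MvPolynomial Pool.Agent.H51.TB Pool.Agent.H54.V7 Pool.Agent.V7.ST

/-- `κ q.choose (|I| - (j + 1 - M))` points of each good type `I` kill all forms, if the blocks
`0, …, j - 1` have at most `c` variables and there are less than `(q + 1) c` other variables. -/
def PP (M c j κ : ℕ) : Prop :=
  ∀ (ν : Type) [Fintype ν] [DecidableEq ν] (β : ν → ℕ) (W : Finset ν) (q : ℕ),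
    (∀ i < j, (W.filter fun s => β s = i).card ≤ c) →
    (W.filter fun s => j ≤ β s).card < (q + 1) * c →
    ∀ s : Multiset (Finset ℕ), (∀ I ∈ s, I ⊆ range j) →
      (∀ I, Good M j I → κ * q.choose (I.card + M - (j + 1)) ≤ s.count I) →
      gM (SG M β (Ag M β j W)) s = 0

theorem pp_top {M : ℕ} (c κ : ℕ) (hM : 1 ≤ M) : PP M c (2 * M - 1) κ := by
  intro ν _ _ β W q _ _ s _ _
  have h1 : Ag M β (2 * M - 1) W = ∅ := by
    rw [eq_empty_iff_forall_notMem]
    intro a ha
    obtain ⟨⟨hdeg, hmeet⟩, _, hx⟩ := mem_Ag.mp ha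
    have h2 := card_le_deg β a (Ico (M - 1) (2 * M - 1)) fun i hi =>
      hmeet i (mem_Ico.mp hi).2
    rw [Nat.card_Ico] at h2
    have h3 : ∑ s ∈ univ.filter (fun s => β s < M - 1), a s +
        ∑ s ∈ univ.filter (fun s => β s ∈ Ico (M - 1) (2 * M - 1)), a s ≤ ∑ s, a s := by
      rw [← sum_union]
      · exact sum_le_sum_of_subset (subset_univ _)
      · rw [disjoint_left]
        intro s hs hs'
        rw [mem_filter] at hs hs'
        have := (mem_Ico.mp hs'.2).1
        omega
    omega
  have h2 := gM_anti (SG M β (Ag M β (2 * M - 1) W)) (Multiset.zero_le s)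
  rw [gM_zero, Fintype.card_coe, h1, card_empty] at h2
  rw [h1]
  omega

open Classical in
/-- The points which are put on the subspace. -/
noncomputable def onp (M j κ q : ℕ) : Multiset (Finset ℕ) :=
  ∑ I ∈ (range j).powerset.filter (Good M j),
    Multiset.replicate (κ * q.choose (I.card + M - (j + 1))) I

theorem count_onp (M j κ q : ℕ) (J : Finset ℕ) (hJ : Good M j J) :
    (onp M j κ q).count J = κ * q.choose (J.card + M - (j + 1)) := by
  classical
  unfold onp
  rw [Multiset.count_sum', sum_eq_single J]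
  · rw [Multiset.count_replicate_self]
  · intro I _ hIJ
    rw [Multiset.count_replicate, if_neg hIJ]
  · intro h
    exfalso
    apply h
    rw [mem_filter, mem_powerset]
    exact ⟨hJ.1, hJ⟩

theorem count_onp_not (M j κ q : ℕ) (J : Finset ℕ) (hJ : ¬ Good M j J) :
    (onp M j κ q).count J = 0 := by
  classical
  unfold onp
  rw [Multiset.count_sum']
  refine sum_eq_zero fun I hI => ?_
  rw [Multiset.count_replicate, if_neg]
  intro h
  exact hJ (by rw [← h]; exact (mem_filter.mp hI).2)

theorem mem_onp {M j κ q : ℕ} {J : Finset ℕ} (h : J ∈ onp M j κ q) : Good M j J := by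
  by_contra hc
  have := count_onp_not M j κ q J hc
  rw [Multiset.count_eq_zero] at this
  exact this h

theorem onp_le {M j κ q : ℕ} {s : Multiset (Finset ℕ)}
    (h : ∀ I, Good M j I → κ * q.choose (I.card + M - (j + 1)) ≤ s.count I) :
    onp M j κ q ≤ s := by
  rw [Multiset.le_iff_count]
  intro J
  by_cases hJ : Good M j J
  · rw [count_onp M j κ q J hJ]
    exact h J hJ
  · rw [count_onp_not M j κ q J hJ]
    exact Nat.zero_le _

theorem card_W {ν : Type} [Fintype ν] [DecidableEq ν] (β : ν → ℕ) (W : Finset ν) (j c : ℕ)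
    (h1 : ∀ i < j, (W.filter fun s => β s = i).card ≤ c)
    (h2 : (W.filter fun s => j ≤ β s).card < c) : W.card ≤ (j + 1) * c := by
  have e1 : (W.filter fun s => β s < j).card = ∑ i ∈ range j,
      ((W.filter fun s => β s < j).filter fun s => β s = i).card :=
    card_eq_sum_card_fiberwise fun s hs => by
      have := (mem_filter.mp hs).2
      exact mem_coe.mpr (mem_range.mpr this)
  have e2 : ∑ i ∈ range j, ((W.filter fun s => β s < j).filter fun s => β s = i).card ≤
      ∑ i ∈ range j, c := by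
    refine sum_le_sum fun i hi => ?_
    refine le_trans (card_le_card ?_) (h1 i (mem_range.mp hi))
    intro s hs
    rw [mem_filter, mem_filter] at hs
    rw [mem_filter]
    exact ⟨hs.1.1, hs.2⟩
  rw [sum_const, card_range, smul_eq_mul] at e2
  have e3 : (W.filter fun s => β s < j).card + (W.filter fun s => ¬ β s < j).card = W.card :=
    card_filter_add_card_filter_not _
  have e4 : W.filter (fun s => ¬ β s < j) = W.filter fun s => j ≤ β s :=
    filter_congr fun s _ => not_lt
  rw [e4] at e3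
  have e5 : (j + 1) * c = j * c + c := by ring
  omega

/-- The dimension is bounded. -/
theorem bound {M c j κ : ℕ} (hM : 1 ≤ M) (hj : M - 1 ≤ j) (hP : PP M c (j + 1) κ)
    {ν : Type} [Fintype ν] [DecidableEq ν] (β : ν → ℕ) (q : ℕ) : ∀ W : Finset ν,
    (∀ i < j, (W.filter fun s => β s = i).card ≤ c) →
    (W.filter fun s => j ≤ β s).card < (q + 1) * c →
    ∀ s : Multiset (Finset ℕ), (∀ I ∈ s, I ⊆ range j) →
      (∀ I, Good M j I → κ * q.choose (I.card + M - (j + 1)) ≤ s.count I) →
      gM (SG M β (Ag M β j W)) s ≤ (2 * M) ^ ((j + 1) * c) := by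
  induction q with
  | zero =>
    intro W hW1 hW2 s _ _
    refine (gM_anti _ (Multiset.zero_le s)).trans ?_
    rw [gM_zero, Fintype.card_coe]
    refine (card_Ag_le hM β j W).trans (Nat.pow_le_pow_right (by omega) ?_)
    rw [zero_add, one_mul] at hW2
    exact card_W β W j c hW1 hW2
  | succ q ih =>
    intro W hW1 hW2 s hs hc
    by_cases hz : (W.filter fun s => j ≤ β s).card < (q + 1) * c
    · refine ih W hW1 hz s hs fun I hI => le_trans ?_ (hc I hI)
      exact Nat.mul_le_mul_left _ (Nat.choose_le_choose _ (Nat.le_succ q))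
    · have hc1 : c ≤ (W.filter fun s => j ≤ β s).card := by
        have : (q + 1) * c = q * c + c := by ring
        have := Nat.zero_le (q * c)
        omega
      obtain ⟨Bk, hBk, hBc⟩ := exists_subset_card_eq hc1
      have hB : ∀ s ∈ Bk, j ≤ β s := fun s hs => (mem_filter.mp (hBk hs)).2
      have hBW : ∀ s ∈ Bk, s ∈ W := fun s hs => (mem_filter.mp (hBk hs)).1
      have hle : onp M j κ q ≤ s := onp_le fun I hI => le_trans
        (Nat.mul_le_mul_left _ (Nat.choose_le_choose _ (Nat.le_succ q))) (hc I hI)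
      have hst : onp M j κ q + (s - onp M j κ q) = s := add_tsub_cancel_of_le hle
      have hon : ∀ I ∈ onp M j κ q, I ⊆ range j := fun I hI => (mem_onp hI).1
      have hoff : ∀ I ∈ s - onp M j κ q, I ⊆ range j := fun I hI =>
        hs I (Multiset.mem_of_le tsub_le_self hI)
      have h1 := gM_trace (M := M) (W := W) hj hB (onp M j κ q) (s - onp M j κ q) hon hoff
      rw [hst] at h1
      refine h1.trans ?_
      have hcard : ((W \ Bk).filter fun s => j ≤ β s).card + c =
          (W.filter fun s => j ≤ β s).card := by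
        have e1 : ((W \ Bk).filter fun s => j ≤ β s) = (W.filter fun s => j ≤ β s) \ Bk := by
          ext s
          simp only [mem_filter, mem_sdiff]
          tauto
        rw [e1, card_sdiff_of_subset hBk, hBc]
        omega
      have h2 := ih (W \ Bk) (fun i hi => le_trans (card_le_card (by
          intro s hs
          rw [mem_filter, mem_sdiff] at hs
          rw [mem_filter]
          exact ⟨hs.1.1, hs.2⟩)) (hW1 i hi)) (by
          have : (q + 1 + 1) * c = (q + 1) * c + c := by ring
          omega) (onp M j κ q) hon fun I hI => le_of_eq (count_onp M j κ q I hI).symm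
      have h3 : gM (SG M (nb β j Bk) (Ag M (nb β j Bk) (j + 1) W))
          ((onp M j κ q).map (insert j) + (s - onp M j κ q)) = 0 := by
        refine hP ν (nb β j Bk) W q ?_ ?_ _ ?_ ?_
        · intro i hi
          rcases Nat.lt_succ_iff_lt_or_eq.mp hi with hi | hi
          · have e1 : (W.filter fun s => nb β j Bk s = i) = W.filter fun s => β s = i :=
              filter_congr fun s _ => nb_lt hB hi
            rw [e1]
            exact hW1 i hi
          · rw [hi, ← hBc]
            refine card_le_card fun s hs => ?_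
            exact nb_eq.mp (mem_filter.mp hs).2
        · have e1 : (W.filter fun s => j + 1 ≤ nb β j Bk s) ⊆
              (W \ Bk).filter fun s => j ≤ β s := by
            intro s hs
            rw [mem_filter] at hs ⊢
            rw [mem_sdiff]
            have h5 : s ∉ Bk := by
              intro h
              have := (nb_eq (β := β) (j := j)).mpr h
              omega
            refine ⟨⟨hs.1, h5⟩, ?_⟩
            by_contra h6
            have h7 := (nb_lt (Bk := Bk) hB (i := β s) (s := s) (by omega)).mpr rfl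
            omega
          have e2 := card_le_card e1
          have : (q + 1 + 1) * c = (q + 1) * c + c := by ring
          omega
        · intro I hI
          rcases Multiset.mem_add.mp hI with hI | hI
          · obtain ⟨J, hJ, rfl⟩ := Multiset.mem_map.mp hI
            intro i hi
            rcases mem_insert.mp hi with hi | hi
            · rw [hi]
              exact mem_range.mpr (Nat.lt_succ_self j)
            · exact mem_range.mpr (Nat.lt_succ_of_lt (mem_range.mp (hon J hJ hi)))
          · exact (hoff I hI).trans (range_subset_range.mpr (Nat.le_succ j))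
        · intro J hJ
          rw [Multiset.count_add]
          by_cases hjJ : j ∈ J
          · have hg : Good M j (J.erase j) := by
              refine ⟨?_, ?_, ?_⟩
              · intro i hi
                have h5 := mem_range.mp (hJ.1 (mem_erase.mp hi).2)
                have h6 := (mem_erase.mp hi).1
                exact mem_range.mpr (by omega)
              · rw [card_erase_of_mem hjJ]
                have h5 := hJ.2.1
                have h6 := card_pos.mpr ⟨j, hjJ⟩
                omega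
              · intro h
                exact hJ.2.2 (h.trans (erase_subset _ _))
            have h5 : κ * q.choose (J.card + M - (j + 1 + 1)) ≤
                ((onp M j κ q).map (insert j)).count J := by
              have h6 := Multiset.count_map (b := J) (insert j) (onp M j κ q)
              rw [h6]
              have h7 : Multiset.replicate ((onp M j κ q).count (J.erase j)) (J.erase j) ≤
                  Multiset.filter (fun a => J = insert j a) (onp M j κ q) := by
                rw [Multiset.le_iff_count]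
                intro K
                rw [Multiset.count_replicate]
                split_ifs with hK
                · rw [← hK, Multiset.count_filter_of_pos (p := fun a => J = insert j a) (insert_erase hjJ).symm]
                · exact Nat.zero_le _
              have h8 := Multiset.card_le_card h7
              rw [Multiset.card_replicate, count_onp M j κ q _ hg, card_erase_of_mem hjJ] at h8
              have h9 := card_pos.mpr ⟨j, hjJ⟩
              have h10 : J.card - 1 + M - (j + 1) = J.card + M - (j + 1 + 1) := by omega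
              rw [h10] at h8
              exact h8
            omega
          · have hJj : J ⊆ range j := by
              intro i hi
              have h5 := mem_range.mp (hJ.1 hi)
              have h6 : i ≠ j := fun h => hjJ (by rw [← h]; exact hi)
              exact mem_range.mpr (by omega)
            have hg : Good M j J := ⟨hJj, by have := hJ.2.1; omega, hJ.2.2⟩
            have h5 := hc J hg
            rw [Multiset.count_sub, count_onp M j κ q J hg]
            have h6 : J.card + M - (j + 1) = J.card + M - (j + 1 + 1) + 1 := by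
              have := hJ.2.1
              omega
            rw [h6, Nat.choose_succ_succ', mul_add] at h5
            rw [h6]
            omega
      omega

/-- The induction step. -/
theorem pp_step {M c j κ : ℕ} (hM : 1 ≤ M) (hj : M - 1 ≤ j) (hj2 : j + 1 < 2 * M)
    (hP : PP M c (j + 1) κ) : PP M c j (κ + (2 * M) ^ ((j + 1) * c)) := by
  classical
  intro ν _ _ β W q hW1 hW2 s hs hc
  have hle : onp M j κ q ≤ s := onp_le fun I hI => le_trans
        (Nat.mul_le_mul_right _ (Nat.le_add_right _ _)) (hc I hI)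
  have hst : onp M j κ q + (s - onp M j κ q) = s := add_tsub_cancel_of_le hle
  have h1 := bound hM hj hP β q W hW1 hW2 (onp M j κ q) (fun I hI => (mem_onp hI).1)
    fun I hI => le_of_eq (count_onp M j κ q I hI).symm
  have h2 := gM_kill (SG M β (Ag M β j W)) _ (exists_type hj hj2) _ (onp M j κ q)
    (s - onp M j κ q) h1 (by
      rintro I ⟨hI, hIc⟩
      have h3 := hc I hI
      rw [Multiset.count_sub, count_onp M j κ q I hI]
      have h4 : I.card + M - (j + 1) = 0 := by omega
      rw [h4, Nat.choose_zero_right, mul_one] at h3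
      rw [h4, Nat.choose_zero_right, mul_one]
      omega)
  rw [hst] at h2
  exact h2

/-- The statement at all levels `M - 1 ≤ j ≤ 2 M - 1`. -/
theorem exists_pp {M : ℕ} (c : ℕ) (hM : 1 ≤ M) (d : ℕ) : ∀ j, j + d = 2 * M - 1 → M - 1 ≤ j →
    ∃ κ, PP M c j κ := by
  induction d with
  | zero =>
    intro j hj _
    have h1 : j = 2 * M - 1 := by omega
    rw [h1]
    exact ⟨0, pp_top c 0 hM⟩
  | succ d ih =>
    intro j hj hj2
    obtain ⟨κ, hκ⟩ := ih (j + 1) (by omega) (by omega)
    exact ⟨_, pp_step hM hj2 (by omega) hκ⟩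

end Pool.Agent.V7.GA

end
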