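import Pool.Agent.H94.LP7.M120
import Pool.Agent.H94.LP7.M33
import Pool.Agent.H94.LP7.M55

/-! The parts of this file: V7.GA.Main, V7.GA.Inp, V7.Top.Vas. -/

section

/-!
# V7, block GAMMA: the result

On the level `M - 1` no nonzero form which is `M`-fold at many general points of the types
`I ≠ {0, …, M - 2}` has all its coefficients of degree `M - 1` in the blocks `0, …, M - 2` equal to
zero.
-/

set_option autoImplicit false
set_option linter.unusedSectionVars false

namespace Pool.Agent.V7.GA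

open Finset MvPolynomial Pool.Agent.H51.TB Pool.Agent.H54.V7 Pool.Agent.V7.ST

/-- GAMMA with numbers: `κ q.choose |I|` ordinary points of each type `I` suffice. -/
theorem gamma_gn {M : ℕ} (c : ℕ) (hM : 1 ≤ M) : ∃ κ : ℕ, ∀ (ν : Type) [Fintype ν] [DecidableEq ν]
    (β : ν → ℕ), (∀ i < M - 1, (univ.filter fun s => β s = i).card ≤ c) →
    ∀ q : ℕ, Fintype.card ν < (q + 1) * c → ∀ (ι : Type) [Fintype ι] (m : ι → Kd),
    (∀ I, I ⊂ range (M - 1) → κ * q.choose I.card ≤
      ((univ : Finset ι).val.map m).count (Kd.ord M I)) →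
    Gn ι (ν ⊕ ν) fun p => ∀ f ∈ (LS M β (M - 1)).V m p,
      (∀ e : {a // a ∈ Ex β (2 * M - 1) (M - 1)},
        ∑ s ∈ univ.filter (fun s => β s < M - 1), e.1 s = M - 1 → f e = 0) → f = 0 := by
  classical
  obtain ⟨κ, hκ⟩ := exists_pp (M := M) c hM M (M - 1) (by omega) le_rfl
  refine ⟨κ, fun ν _ _ β hβ q hq ι _ m hm => ?_⟩
  -- the points which are used
  let ι' := {i : ι // ∃ I, I ⊆ range (M - 1) ∧ m i = Kd.ord M I}
  have hch : ∀ i : ι', ∃ I, I ⊆ range (M - 1) ∧ m i.1 = Kd.ord M I := fun i => i.2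
  choose m' hm' hmm' using hch
  have hcount : ∀ I, I ⊆ range (M - 1) → ((univ : Finset ι').val.map m').count I =
      ((univ : Finset ι).val.map m).count (Kd.ord M I) := by
    intro I hI
    rw [Multiset.count_map, Multiset.count_map, ← Finset.filter_val, ← Finset.filter_val,
      Finset.card_val, Finset.card_val]
    refine card_bij (fun i _ => i.1) ?_ ?_ ?_
    · intro i hi
      rw [mem_filter] at hi ⊢
      refine ⟨mem_univ _, ?_⟩
      rw [hmm' i, ← hi.2]
    · intro i _ j _ hij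
      exact Subtype.ext hij
    · intro i hi
      rw [mem_filter] at hi
      refine ⟨⟨i, I, hI, hi.2.symm⟩, ?_, rfl⟩
      rw [mem_filter]
      refine ⟨mem_univ _, ?_⟩
      have h1 := hmm' ⟨i, I, hI, hi.2.symm⟩
      exact (Kd.ord.inj (hi.2.trans h1)).2
  have h1 := hκ ν β univ q (fun i hi => hβ i hi) (lt_of_le_of_lt (card_le_univ _) hq)
    ((univ : Finset ι').val.map m') (by
      intro I hI
      obtain ⟨i, _, rfl⟩ := Multiset.mem_map.mp hI
      exact hm' i) (by
      intro I hI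
      rw [hcount I hI.1]
      have h2 : I.card + M - (M - 1 + 1) = I.card := by omega
      rw [h2]
      exact hm I ⟨hI.1, hI.2.2⟩)
  rw [← gd_eq_gM] at h1
  have h2 := gn_pull (κ := ι) (fun i : ι' => i.1) Subtype.val_injective
    (Sum.inl : ν → ν ⊕ ν) Sum.inl_injective (gn_gd (SG M β (Ag M β (M - 1) univ)) m')
  refine h2.mono fun p hp f hf h0 => ?_
  rw [h1] at hp
  have hbot := Submodule.finrank_eq_zero.mp hp
  rw [mem_LSA] at hf
  have hsub : Ag M β (M - 1) univ ⊆ Ex β (2 * M - 1) (M - 1) := filter_subset _ _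
  -- the coefficients which do not belong to `Ag` vanish
  have hz : ∀ e : {a // a ∈ Ex β (2 * M - 1) (M - 1)}, e.1 ∉ Ag M β (M - 1) univ → f e = 0 := by
    intro e he
    apply h0
    have h3 := mem_Ex.mp e.2
    have h4 : ¬ M ≤ ∑ s ∈ univ.filter (fun s => β s < M - 1), e.1 s := by
      intro h
      apply he
      rw [mem_Ag]
      exact ⟨h3, fun s _ => mem_univ s, h⟩
    have h5 := card_le_deg β e.1 (range (M - 1)) fun i hi => h3.2 i (mem_range.mp hi)
    have h6 : univ.filter (fun s => β s ∈ range (M - 1)) = univ.filter fun s => β s < M - 1 :=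
      filter_congr fun s _ => mem_range
    rw [h6, card_range] at h5
    omega
  have hmem : (fun e : {a // a ∈ Ag M β (M - 1) univ} => f ⟨e.1, hsub e.2⟩) ∈
      (SG M β (Ag M β (M - 1) univ)).V m' fun i x => p i.1 (Sum.inl x) := by
    rw [mem_SG]
    intro i b hb
    have h3 := hf i.1
    rw [hmm' i] at h3
    rw [← h3 b hb]
    exact sum_sub hsub (fun e : {a // a ∈ Ex β (2 * M - 1) (M - 1)} => f e *
      Pool.Agent.H18.Ex.tcr (msk β (m' i) fun s => p i.1 (Sum.inl s)) e.1 b) fun e he => by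
        show f e * _ = 0
        rw [hz e he, zero_mul]
  rw [hbot, Submodule.mem_bot] at hmem
  funext e
  by_cases he : e.1 ∈ Ag M β (M - 1) univ
  · exact congrFun hmem ⟨e.1, he⟩
  · exact hz e he

theorem card_blk_le {c : ℕ} (hc : 1 ≤ c) (n i : ℕ) :
    (univ.filter fun s : Fin n => blk c n s = i).card ≤ c := by
  have h1 : (univ.filter fun s : Fin n => blk c n s = i).card ≤ (range c).card := by
    refine card_le_card_of_injOn (fun s => s.1 % c) ?_ ?_
    · intro s _
      exact mem_coe.mpr (mem_range.mpr (Nat.mod_lt _ hc))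
    · intro s hs t ht hst
      have h2 : s.1 / c = i := (mem_filter.mp (mem_coe.mp hs)).2
      have h3 : t.1 / c = i := (mem_filter.mp (mem_coe.mp ht)).2
      have h4 : s.1 % c = t.1 % c := hst
      apply Fin.ext
      rw [← Nat.div_add_mod s.1 c, ← Nat.div_add_mod t.1 c, h2, h3, h4]
  rwa [card_range] at h1

/-- The number of ordinary points of a class is large. -/
theorem ord_ge {M c n : ℕ} (hM : 2 ≤ M) (hc : 2 * (2 * M - 1).choose M * M < c) {e : ℝ}
    (he : e * (2 * M ^ 2 * ((2 * M - 1).choose M * M.factorial)) ≤ 1) {N : Kd → ℕ}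
    (h : Cls0 M c (M - 1) n e N) {I : Finset ℕ} (hI : I ⊂ range (M - 1)) :
    (n : ℝ) ^ (I.card + 1) ≤ 2 * M * ((2 * M - 1).choose M * M.factorial) * N (.ord M I) := by
  have hIc : I.card < M - 1 := by
    have := card_lt_card hI
    rwa [card_range] at this
  have hdeg : M + I.card - (M - 1) = I.card + 1 := by omega
  have h1 := h.big I hI.1 hI.ne
  rw [hdeg] at h1
  have h2 : ∀ i ∈ range (M - 1), (N (.sw i I) : ℝ) ≤
      (2 * ((2 * M - 1).choose M : ℝ) / c * nom M c (M - 1) I + e) * (n : ℝ) ^ (I.card + 1) := by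
    intro i hi
    have := h.swp i (mem_range.mp hi) I hI.1
    rwa [hdeg] at this
  have h3 := sum_le_sum h2
  rw [sum_const, card_range, nsmul_eq_mul] at h3
  have h4 : (tot M (M - 1) N I : ℝ) = N (.ord M I) + ∑ i ∈ range (M - 1), (N (.sw i I) : ℝ) := by
    unfold tot
    push_cast
    rfl
  have h5 := (abs_le.mp h1).1
  rw [h4] at h5
  -- the nominal density
  have hC : (0 : ℝ) < ((2 * M - 1).choose M : ℝ) := by
    exact_mod_cast Nat.choose_pos (by omega)
  have hc0 : (0 : ℝ) < c := by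
    have : 0 < c := by omega
    exact_mod_cast this
  have hF : (0 : ℝ) < (M.factorial : ℝ) := by exact_mod_cast Nat.factorial_pos M
  have hM0 : (0 : ℝ) < M := by
    have : 0 < M := by omega
    exact_mod_cast this
  have hnom : 1 ≤ nom M c (M - 1) I * (((2 * M - 1).choose M : ℝ) * (M.factorial : ℝ)) := by
    unfold nom
    rw [hdeg]
    have hf1 : ((I.card + 1).factorial : ℝ) ≤ M.factorial := by
      exact_mod_cast Nat.factorial_le (by omega)
    have hf0 : (0 : ℝ) < ((I.card + 1).factorial : ℝ) := by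
      exact_mod_cast Nat.factorial_pos _
    have hp1 : (1 : ℝ) ≤ (c : ℝ) ^ (M - 1 - I.card) := by
      apply one_le_pow₀
      have : 1 ≤ c := by omega
      exact_mod_cast this
    rw [div_mul_eq_mul_div, le_div_iff₀ (mul_pos hC hf0), one_mul]
    calc ((2 * M - 1).choose M : ℝ) * ((I.card + 1).factorial : ℝ)
        ≤ ((2 * M - 1).choose M : ℝ) * (M.factorial : ℝ) := by gcongr
      _ = 1 * (((2 * M - 1).choose M : ℝ) * (M.factorial : ℝ)) := (one_mul _).symm
      _ ≤ _ := by gcongr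
  set ν := nom M c (M - 1) I with hν
  set D := ((2 * M - 1).choose M : ℝ) * (M.factorial : ℝ) with hD
  have hD0 : 0 < D := mul_pos hC hF
  have hν0 : 0 < ν := by
    by_contra hcon
    have : ν * D ≤ 0 := mul_nonpos_of_nonpos_of_nonneg (not_lt.mp hcon) hD0.le
    linarith
  have hx : (0 : ℝ) ≤ (n : ℝ) ^ (I.card + 1) := by positivity
  set x := (n : ℝ) ^ (I.card + 1) with hxd
  have hM1 : ((M - 1 : ℕ) : ℝ) = M - 1 := by
    rw [Nat.cast_sub (by omega), Nat.cast_one]
  rw [hM1] at h3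
  -- the share of the swapped points
  have hsh : 2 * ((2 * M - 1).choose M : ℝ) / c * M ≤ 1 := by
    rw [div_mul_eq_mul_div, div_le_one hc0]
    have : 2 * (2 * M - 1).choose M * M ≤ c := hc.le
    exact_mod_cast this
  set r := 2 * ((2 * M - 1).choose M : ℝ) / c with hr
  have hr0 : 0 ≤ r := by positivity
  have hM2 : (2 : ℝ) ≤ M := by exact_mod_cast hM
  -- lower bound
  have h6 : (N (.ord M I) : ℝ) ≥ x * (ν - (M - 1) * r * ν - M * e) := by nlinarith
  have h7 : (M - 1) * r ≤ 1 - 1 / (M : ℝ) := by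
    have h8 : (M - 1) * r * M ≤ (M - 1) := by nlinarith
    have h9 : 1 - 1 / (M : ℝ) = (M - 1) / M := by field_simp
    rw [h9, le_div_iff₀ hM0]
    exact h8
  have h8 : ν - (M - 1) * r * ν ≥ ν / M := by
    have h10 : (M - 1) * r * ν ≤ (1 - 1 / (M : ℝ)) * ν := by gcongr
    have h11 : (1 - 1 / (M : ℝ)) * ν = ν - ν / M := by ring
    linarith
  have h9 : (M : ℝ) * e ≤ ν / M / 2 := by
    rw [div_div, le_div_iff₀ (by positivity)]
    have h10 : e * (2 * M ^ 2) * D ≤ ν * D := by
      calc e * (2 * M ^ 2) * D = e * (2 * M ^ 2 * D) := by ring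
        _ ≤ 1 := he
        _ ≤ ν * D := hnom
    have h11 := le_of_mul_le_mul_right h10 hD0
    calc (M : ℝ) * e * (M * 2) = e * (2 * M ^ 2) := by ring
      _ ≤ ν := h11
  have h10 : (N (.ord M I) : ℝ) ≥ x * (ν / M / 2) := by
    refine le_trans ?_ h6
    apply mul_le_mul_of_nonneg_left _ hx
    linarith
  calc x = x * 1 := (mul_one x).symm
    _ ≤ x * (ν * D) := by gcongr
    _ = 2 * M * D * (x * (ν / M / 2)) := by field_simp
    _ ≤ 2 * M * D * N (.ord M I) := by gcongr

/-- GAMMA for the classes. -/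
theorem gamma (M c : ℕ) (hM : 2 ≤ M) (hc : 2 * (2 * M - 1).choose M * M < c) :
    ∃ e : ℝ, 0 < e ∧ ∃ n₀ : ℕ, ∀ n : ℕ, n₀ ≤ n → ∀ s : Multiset Kd,
      Cls0 M c (M - 1) n e (fun τ => s.count τ) → ∀ (ι : Type) [Fintype ι] (m : ι → Kd),
      (univ : Finset ι).val.map m = s → Gn ι (Fin n ⊕ Fin n) fun p =>
        ∀ f ∈ (LS M (blk c n) (M - 1)).V m p,
          (∀ e : {a // a ∈ Ex (blk c n) (2 * M - 1) (M - 1)},
            ∑ s ∈ univ.filter (fun s => blk c n s < M - 1), e.1 s = M - 1 → f e = 0) → f = 0 := by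
  obtain ⟨κ, hκ⟩ := gamma_gn (M := M) c (by omega)
  have hD : (0 : ℝ) < 2 * M ^ 2 * ((2 * M - 1).choose M * M.factorial) := by
    have h1 : 0 < (2 * M - 1).choose M := Nat.choose_pos (by omega)
    have h2 := Nat.factorial_pos M
    have h3 : 0 < M := by omega
    positivity
  refine ⟨1 / (2 * M ^ 2 * ((2 * M - 1).choose M * M.factorial)), by positivity,
    2 * M * ((2 * M - 1).choose M * M.factorial) * κ + 1, fun n hn s hs ι _ m hm => ?_⟩
  have hc1 : 1 ≤ c := by omega
  refine hκ (Fin n) (blk c n) (fun i _ => card_blk_le hc1 n i) (n / c) ?_ ι m ?_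
  · rw [Fintype.card_fin, add_mul, one_mul]
    have h1 := Nat.div_add_mod n c
    have h2 := Nat.mod_lt n hc1
    have h3 : c * (n / c) = n / c * c := mul_comm _ _
    omega
  · intro I hI
    rw [hm]
    have h1 := ord_ge hM hc (by rw [one_div, inv_mul_cancel₀ hD.ne']) hs hI
    have h2 : n ^ (I.card + 1) ≤ 2 * M * ((2 * M - 1).choose M * M.factorial) *
        s.count (Kd.ord M I) := by exact_mod_cast h1
    have h3 : (n / c).choose I.card ≤ n ^ I.card :=
      (Nat.choose_le_pow _ _).trans (Nat.pow_le_pow_left (Nat.div_le_self _ _) _)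
    have h4 : 0 < 2 * M * ((2 * M - 1).choose M * M.factorial) := by
      have h1 : 0 < (2 * M - 1).choose M := Nat.choose_pos (by omega)
      have h2 := Nat.factorial_pos M
      have h3 : 0 < M := by omega
      positivity
    have h5 : 2 * M * ((2 * M - 1).choose M * M.factorial) * (κ * n ^ I.card) ≤
        2 * M * ((2 * M - 1).choose M * M.factorial) * s.count (Kd.ord M I) := by
      calc 2 * M * ((2 * M - 1).choose M * M.factorial) * (κ * n ^ I.card)
          = 2 * M * ((2 * M - 1).choose M * M.factorial) * κ * n ^ I.card := by ring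
        _ ≤ n * n ^ I.card := Nat.mul_le_mul_right _ (by omega)
        _ = n ^ (I.card + 1) := by ring
        _ ≤ _ := h2
    exact (Nat.mul_le_mul_left κ h3).trans (Nat.le_of_mul_le_mul_left h5 h4)

end Pool.Agent.V7.GA

end

section

/-!
# V7, block GAMMA: the form used in the block TOP
-/

set_option autoImplicit false

namespace Pool.Agent.V7.GA

open Finset Pool.Agent.H51.TB Pool.Agent.H54.V7

theorem gamma_inp (M c k : ℕ) (hk : k + 1 = M) (hM : 2 ≤ M)
    (hc : 2 * (2 * M - 1).choose M * M < c) :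
    ∃ e : ℝ, 0 < e ∧ ∃ n₀ : ℕ, ∀ n : ℕ, n₀ ≤ n → ∀ (κ : Type) [Fintype κ] (rest : κ → Kd),
      Cls0 M c k n e (fun τ => ((univ : Finset κ).val.map rest).count τ) →
      Gn κ (Fin n ⊕ Fin n) fun p => ∀ f ∈ (LS M (blk c n) k).V rest p,
        (∀ a : {a // a ∈ Ex (blk c n) (2 * M - 1) k},
          ∑ s ∈ univ.filter (fun s => blk c n s < k), a.1 s ≤ k → f a = 0) → f = 0 := by
  obtain rfl : k = M - 1 := by omega
  obtain ⟨e, he, n₀, h⟩ := gamma M c hM hc
  refine ⟨e, he, n₀, fun n hn κ _ rest hr => ?_⟩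
  refine (h n hn _ hr κ rest rfl).mono fun p hp f hf h0 => hp f hf fun a ha => h0 a (le_of_eq ha)

end Pool.Agent.V7.GA

end

section

/-!
# The virtual dimension of the points which are not of the top type
-/

set_option autoImplicit false

namespace Pool.Agent.V7

open Finset Pool.Agent.H51.TB

theorem nom_le {M c k : ℕ} (hc : 1 ≤ c) (hC : 0 < (2 * M - 1).choose M) (I : Finset ℕ) :
    nom M c k I ≤ (c : ℝ) ^ k / ((2 * M - 1).choose M : ℝ) := by
  have hC' : (0 : ℝ) < (2 * M - 1).choose M := by exact_mod_cast hC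
  have hc' : (1 : ℝ) ≤ c := by exact_mod_cast hc
  have hf : (1 : ℝ) ≤ ((M + I.card - k).factorial : ℝ) := by
    exact_mod_cast Nat.one_le_iff_ne_zero.2 (Nat.factorial_ne_zero _)
  unfold nom
  apply div_le_div₀ (by positivity) (pow_le_pow_right₀ hc' (Nat.sub_le _ _)) hC'
  nlinarith

theorem vas (M c k : ℕ) (hM : 2 ≤ M) (hk : k + 1 = M) (hc : 1 ≤ c) : VAS M c k := by
  classical
  have hC : 0 < (2 * M - 1).choose M := Nat.choose_pos (by omega)
  have hC' : (0 : ℝ) < (2 * M - 1).choose M := by exact_mod_cast hC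
  have hc' : (1 : ℝ) ≤ c := by exact_mod_cast hc
  have hck : (1 : ℝ) ≤ (c : ℝ) ^ k := one_le_pow₀ hc'
  obtain ⟨K, hK, n₀, hsol⟩ := solve M c k (3 * (c : ℝ) ^ k) (by omega) hM hc
  refine ⟨(c : ℝ) ^ k * K, by positivity, n₀ + k * c, fun n hn e he he1 N hN hN0 => ?_⟩
  set τ₀ := Kd.ord M (range k) with hτ₀
  set v : ℝ := (vN M c k n N : ℝ) with hv
  have hwt : (wt M c n τ₀ : ℝ) = (c : ℝ) ^ k := by
    have h1 : wt M c n τ₀ = c ^ k := by
      show bb c (M - 1) (range k).card n = c ^ k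
      rw [card_range, show M - 1 = k by omega, bb_self c k n (by omega)]
    rw [h1]
    push_cast
    rfl
  have hmem : τ₀ ∈ kds M k := mem_kds.2 ⟨by omega, le_rfl, Subset.refl _⟩
  let N' : Kd → ℝ := fun τ => (N τ : ℝ) + if τ = τ₀ then v / (c : ℝ) ^ k else 0
  have hN'sw : ∀ i I, N' (.sw i I) = N (.sw i I) := by
    intro i I
    simp [N', hτ₀]
  have hN'ord : ∀ μ I, (μ ≠ M ∨ I ≠ range k) → N' (.ord μ I) = N (.ord μ I) := by
    intro μ I h
    simp only [N']
    rw [if_neg, add_zero]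
    rw [hτ₀, Kd.ord.injEq]
    rintro ⟨h1, h2⟩
    rcases h with h | h
    · exact h h1
    · exact h h2
  have hN'0 : N' τ₀ = v / (c : ℝ) ^ k := by
    simp only [N', if_true]
    rw [hN0, Nat.cast_zero, zero_add]
  have hsw0 : ∀ i, ∀ I, (.sw i I) ∉ kds M k → N (.sw i I) = 0 := by
    intro i I h
    by_contra h1
    exact h (hN.ok _ h1)
  have key := hsol n (by omega) e he N' (range k) (Subset.refl _) ?_ ?_ ?_ ?_ ?_
  · rw [hN'0] at key
    have h1 : ∑ i ∈ range k, N' (.sw i (range k)) = 0 := by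
      refine sum_eq_zero fun i hi => ?_
      rw [hN'sw, hsw0 i (range k), Nat.cast_zero]
      intro h
      have h2 := (mem_kds.1 h).2 hi
      have := (mem_Ico.1 h2).1
      omega
    rw [h1, add_zero, card_range, Nat.add_sub_cancel] at key
    have h2 : nom M c k (range k) = 1 / (((2 * M - 1).choose M : ℝ) * (M.factorial : ℝ)) := by
      unfold nom
      rw [card_range, Nat.sub_self, pow_zero, Nat.add_sub_cancel]
    rw [h2] at key
    have h3 : v - (c : ℝ) ^ k * ((n : ℝ) ^ M / (((2 * M - 1).choose M : ℝ) * (M.factorial : ℝ))) =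
        (c : ℝ) ^ k * (v / (c : ℝ) ^ k -
          1 / (((2 * M - 1).choose M : ℝ) * (M.factorial : ℝ)) * (n : ℝ) ^ M) := by
      have : (c : ℝ) ^ k ≠ 0 := by positivity
      field_simp
    rw [h3, abs_mul, abs_of_pos (by positivity)]
    calc (c : ℝ) ^ k * |v / (c : ℝ) ^ k -
          1 / (((2 * M - 1).choose M : ℝ) * (M.factorial : ℝ)) * (n : ℝ) ^ M| ≤
        (c : ℝ) ^ k * ((K * e + K / n) * (n : ℝ) ^ M) :=
          mul_le_mul_of_nonneg_left key (by positivity)
      _ = ((c : ℝ) ^ k * K * e + (c : ℝ) ^ k * K / n) * (n : ℝ) ^ M := by ring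
  · intro I hI hI'
    have h1 := hN.big I hI hI'
    unfold tot at h1
    push_cast at h1
    rw [hN'ord M I (Or.inr hI'), sum_congr rfl fun i _ => hN'sw i I]
    exact h1
  · intro i hi I hI
    rw [hN'sw, abs_of_nonneg (by positivity)]
    refine (hN.swp i hi I hI).trans (mul_le_mul_of_nonneg_right ?_ (by positivity))
    have h1 := nom_le (M := M) (k := k) hc hC I
    have h0 : 0 ≤ nom M c k I := by
      unfold nom
      positivity
    have h2 : 2 * ((2 * M - 1).choose M : ℝ) / c * nom M c k I ≤ 2 * (c : ℝ) ^ k := by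
      have h3 : 2 * ((2 * M - 1).choose M : ℝ) / c ≤ 2 * ((2 * M - 1).choose M : ℝ) := by
        apply div_le_self (by positivity) hc'
      calc 2 * ((2 * M - 1).choose M : ℝ) / c * nom M c k I ≤
          2 * ((2 * M - 1).choose M : ℝ) * nom M c k I := mul_le_mul_of_nonneg_right h3 h0
        _ ≤ 2 * ((2 * M - 1).choose M : ℝ) * ((c : ℝ) ^ k / ((2 * M - 1).choose M : ℝ)) :=
          mul_le_mul_of_nonneg_left h1 (by positivity)
        _ = 2 * (c : ℝ) ^ k := by
          field_simp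
    linarith
  · intro i _ I _ h
    rw [hN'sw, hsw0 i I h, Nat.cast_zero]
  · intro μ h1 h2 I hI
    rw [hN'ord μ I (Or.inl h2.ne), abs_of_nonneg (by positivity)]
    exact hN.sml μ h1 h2 I hI
  · have h1 : ∑ τ ∈ kds M k, N' τ * (wt M c n τ : ℝ) =
        ∑ τ ∈ kds M k, (N τ : ℝ) * (wt M c n τ : ℝ) + v := by
      have h2 : ∀ τ ∈ kds M k, N' τ * (wt M c n τ : ℝ) = (N τ : ℝ) * (wt M c n τ : ℝ) +
          if τ = τ₀ then v / (c : ℝ) ^ k * (wt M c n τ : ℝ) else 0 := by
        intro τ _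
        simp only [N']
        split_ifs
        · ring
        · ring
      rw [sum_congr rfl h2, sum_add_distrib, sum_ite_eq' (kds M k) τ₀, if_pos hmem, hwt,
        div_mul_cancel₀ v (by positivity)]
    have h3 : v = (bb c (2 * M - 1) k n : ℝ) - ∑ τ ∈ kds M k, (N τ : ℝ) * (wt M c n τ : ℝ) := by
      rw [hv]
      unfold vN
      push_cast
      rfl
    rw [h1, show (bb c (2 * M - 1) k n : ℝ) -
      (∑ τ ∈ kds M k, (N τ : ℝ) * (wt M c n τ : ℝ) + v) = 0 by rw [h3]; ring, abs_zero]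
    positivity

end Pool.Agent.V7

end
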