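import Pool.Agent.H94.LP7.M108
import Pool.Agent.H94.LP7.M116
import Pool.Agent.H94.LP7.M23

/-! The parts of this file: V7.Num.StepB, V7.Num.StepC. -/

section

/-!
# V7: the numbers of one step, the kinds of the next level
-/

set_option autoImplicit false

namespace Pool.Agent.V7

open Finset Pool.Agent.V7.ST

namespace NumStep

/-! ### The kinds of the next level -/

theorem sub_of_succ {j : ℕ} {I : Finset ℕ} (h : I ⊆ range (j + 1)) (hj : j ∉ I) :
    I ⊆ range j := by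
  intro x hx
  have h1 := mem_range.1 (h hx)
  have h2 : x ≠ j := fun h => hj (h ▸ hx)
  rw [mem_range]
  omega

theorem cases_sub {j : ℕ} {I : Finset ℕ} (h : I ⊆ range (j + 1)) :
    (j ∉ I ∧ I ⊆ range j) ∨ ∃ I', I' ⊆ range j ∧ I = insert j I' := by
  by_cases hj : j ∈ I
  · right
    refine ⟨I.erase j, sub_of_succ ((erase_subset j I).trans h) (notMem_erase j I), ?_⟩
    rw [insert_erase hj]
  · exact Or.inl ⟨hj, sub_of_succ h hj⟩

theorem off {j : ℕ} {I : Finset ℕ} (h : I ⊆ range j) : j ∉ I := fun h1 =>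
  absurd (mem_range.1 (h h1)) (lt_irrefl j)

theorem ok_succ {M j : ℕ} {τ : Kd} :
    τ.Ok M (j + 1) ↔ τ.Ok M j ∨ (∃ σ : Kd, σ.Ok M j ∧ σ.add j = τ) ∨ τ = .sw j ∅ := by
  rcases τ with ⟨μ, I⟩ | ⟨i, I⟩
  · constructor
    · rintro ⟨h1, h2, h3⟩
      by_cases hj : j ∈ I
      · refine Or.inr (Or.inl ⟨.ord μ (I.erase j), ⟨h1, h2, ?_⟩, ?_⟩)
        · exact sub_of_succ ((erase_subset j I).trans h3) (notMem_erase j I)
        · show Kd.ord μ (insert j (I.erase j)) = _
          rw [insert_erase hj]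
      · exact Or.inl ⟨h1, h2, sub_of_succ h3 hj⟩
    · rintro (h | ⟨σ, hσ, h⟩ | h)
      · exact ⟨h.1, h.2.1, h.2.2.trans (range_mono (Nat.le_succ j))⟩
      · rcases σ with ⟨μ', I'⟩ | ⟨i', I'⟩
        · have h' : Kd.ord μ' (insert j I') = .ord μ I := h
          rw [Kd.ord.injEq] at h'
          obtain ⟨e1, e2⟩ := h'
          rw [← e1, ← e2]
          refine ⟨hσ.1, hσ.2.1, ?_⟩
          rw [range_add_one]
          exact insert_subset_insert j hσ.2.2
        · have h' : Kd.sw i' (insert j I') = .ord μ I := h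
          exact absurd h' (by simp)
      · exact absurd h (by simp)
  · constructor
    · rintro ⟨h1, h2⟩
      by_cases hi : i = j
      · subst hi
        have h3 : I = ∅ := by
          rw [Ico_self] at h2
          exact subset_empty.1 h2
        rw [h3]
        exact Or.inr (Or.inr rfl)
      · have hi' : i < j := by omega
        by_cases hj : j ∈ I
        · refine Or.inr (Or.inl ⟨.sw i (I.erase j), ⟨hi', fun x hx => ?_⟩, ?_⟩)
          · rw [mem_erase] at hx
            have h4 := mem_Ico.1 (h2 hx.2)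
            rw [mem_Ico]
            have h5 := hx.1
            omega
          · show Kd.sw i (insert j (I.erase j)) = _
            rw [insert_erase hj]
        · refine Or.inl ⟨hi', fun x hx => ?_⟩
          have h4 := mem_Ico.1 (h2 hx)
          have h5 : x ≠ j := fun h => hj (h ▸ hx)
          rw [mem_Ico]
          omega
    · rintro (h | ⟨σ, hσ, h⟩ | h)
      · refine ⟨by have := h.1; omega, h.2.trans fun x hx => ?_⟩
        have h4 := mem_Ico.1 hx
        rw [mem_Ico]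
        omega
      · rcases σ with ⟨μ', I'⟩ | ⟨i', I'⟩
        · have h' : Kd.ord μ' (insert j I') = .sw i I := h
          exact absurd h' (by simp)
        · have h' : Kd.sw i' (insert j I') = .sw i I := h
          rw [Kd.sw.injEq] at h'
          obtain ⟨e1, e2⟩ := h'
          rw [← e1, ← e2]
          have h3 := hσ.1
          refine ⟨by omega, fun x hx => ?_⟩
          rw [mem_insert] at hx
          rw [mem_Ico]
          rcases hx with rfl | hx
          · omega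
          · have h4 := mem_Ico.1 (hσ.2 hx)
            omega
      · rw [Kd.sw.injEq] at h
        obtain ⟨e1, e2⟩ := h
        rw [e1, e2]
        exact ⟨Nat.lt_succ_self j, empty_subset _⟩

theorem add_inj {M j : ℕ} {σ τ : Kd} (hσ : σ.Ok M j) (hτ : τ.Ok M j) (h : σ.add j = τ.add j) :
    σ = τ := by
  have h1 := Off.of_ok hσ
  have h2 := Off.of_ok hτ
  rcases σ with ⟨μ, I⟩ | ⟨i, I⟩ <;> rcases τ with ⟨μ', I'⟩ | ⟨i', I'⟩
  · have h' : Kd.ord μ (insert j I) = .ord μ' (insert j I') := h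
    rw [Kd.ord.injEq] at h'
    have h3 : j ∉ I := h1
    have h4 : j ∉ I' := h2
    rw [h'.1, ← erase_insert h3, h'.2, erase_insert h4]
  · have h' : Kd.ord μ (insert j I) = .sw i' (insert j I') := h
    exact absurd h' (by simp)
  · have h' : Kd.sw i (insert j I) = .ord μ' (insert j I') := h
    exact absurd h' (by simp)
  · have h' : Kd.sw i (insert j I) = .sw i' (insert j I') := h
    rw [Kd.sw.injEq] at h'
    have h3 : j ∉ I := h1
    have h4 : j ∉ I' := h2
    rw [h'.1, ← erase_insert h3, h'.2, erase_insert h4]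

theorem kds_succ (M j : ℕ) :
    kds M (j + 1) = kds M j ∪ ((kds M j).image (Kd.add j) ∪ {Kd.sw j ∅}) := by
  ext τ
  rw [mem_kds, ok_succ, mem_union, mem_union, mem_image, mem_singleton, mem_kds]
  constructor
  · rintro (h | ⟨σ, hσ, h⟩ | h)
    · exact Or.inl h
    · exact Or.inr (Or.inl ⟨σ, mem_kds.2 hσ, h⟩)
    · exact Or.inr (Or.inr h)
  · rintro (h | ⟨σ, hσ, h⟩ | h)
    · exact Or.inl h
    · exact Or.inr (Or.inl ⟨σ, mem_kds.1 hσ, h⟩)
    · exact Or.inr (Or.inr h)

theorem add_not_ok {M j : ℕ} {σ : Kd} : ¬ (σ.add j).Ok M j := by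
  intro h
  have h1 := Off.of_ok h
  rcases σ with ⟨μ, I⟩ | ⟨i, I⟩
  · exact h1 (mem_insert_self j I)
  · exact h1 (mem_insert_self j I)

theorem sum_kds_succ (M j : ℕ) (f : Kd → ℝ) :
    ∑ τ ∈ kds M (j + 1), f τ =
      ∑ τ ∈ kds M j, f τ + (∑ τ ∈ kds M j, f (τ.add j) + f (.sw j ∅)) := by
  rw [kds_succ, sum_union, sum_union, sum_image, sum_singleton]
  · intro σ hσ τ hτ h
    exact add_inj (mem_kds.1 hσ) (mem_kds.1 hτ) h
  · rw [disjoint_singleton_right, mem_image]
    rintro ⟨σ, -, h⟩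
    rcases σ with ⟨μ, I⟩ | ⟨i, I⟩
    · have h' : Kd.ord μ (insert j I) = .sw j ∅ := h
      exact absurd h' (by simp)
    · have h' : Kd.sw i (insert j I) = .sw j ∅ := h
      rw [Kd.sw.injEq] at h'
      exact insert_ne_empty j I h'.2
  · rw [disjoint_left]
    intro τ hτ h
    rw [mem_union, mem_image, mem_singleton] at h
    rcases h with ⟨σ, -, h⟩ | h
    · rw [← h] at hτ
      exact add_not_ok (mem_kds.1 hτ)
    · rw [h] at hτ
      exact absurd (mem_kds.1 hτ).1 (lt_irrefl j)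

/-! ### The residual numbers -/

/-- Real version of `resN`. -/
noncomputable def resR (M j : ℕ) (N P : Kd → ℝ) (y : ℝ) : Kd → ℝ
  | .ord μ I => if j ∈ I then P (.ord μ (I.erase j)) else
      N (.ord μ I) - P (.ord μ I) - if μ = M ∧ I = ∅ then y else 0
  | .sw i I => if i = j then (if I = ∅ then y else 0) else
      if j ∈ I then P (.sw i (I.erase j)) else N (.sw i I) - P (.sw i I)

/-- Real version of `tot`. -/
noncomputable def totR (M l : ℕ) (N : Kd → ℝ) (I : Finset ℕ) : ℝ :=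
  N (.ord M I) + ∑ i ∈ range l, N (.sw i I)

/-- Real version of `vN`. -/
noncomputable def vR (M c j n : ℕ) (N : Kd → ℝ) : ℝ :=
  (bb c (2 * M - 1) j n : ℝ) - ∑ τ ∈ kds M j, N τ * (wt M c n τ : ℝ)

theorem vR_cast (M c j n : ℕ) (N : Kd → ℕ) :
    vR M c j n (fun τ => (N τ : ℝ)) = ((vN M c j n N : ℤ) : ℝ) := by
  unfold vR vN
  push_cast
  rfl

theorem totR_cast (M l : ℕ) (N : Kd → ℕ) (I : Finset ℕ) :
    totR M l (fun τ => (N τ : ℝ)) I = (tot M l N I : ℝ) := by
  unfold totR tot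
  push_cast
  rfl

section

variable {M j : ℕ} {N P : Kd → ℝ} {y : ℝ}

theorem resR_sw_off {i : ℕ} {I : Finset ℕ} (hi : i < j) (hI : j ∉ I) :
    resR M j N P y (.sw i I) = N (.sw i I) - P (.sw i I) := by
  show (if i = j then (if I = ∅ then y else 0) else
      if j ∈ I then P (.sw i (I.erase j)) else N (.sw i I) - P (.sw i I)) = _
  rw [if_neg (by omega), if_neg hI]

theorem resR_sw_on {i : ℕ} {I : Finset ℕ} (hi : i < j) (hI : j ∉ I) :
    resR M j N P y (.sw i (insert j I)) = P (.sw i I) := by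
  show (if i = j then (if insert j I = ∅ then y else 0) else
      if j ∈ insert j I then P (.sw i ((insert j I).erase j)) else
        N (.sw i (insert j I)) - P (.sw i (insert j I))) = _
  rw [if_neg (by omega), if_pos (mem_insert_self j I), erase_insert hI]

theorem resR_sw_self {I : Finset ℕ} :
    resR M j N P y (.sw j I) = if I = ∅ then y else 0 := by
  show (if j = j then (if I = ∅ then y else 0) else
      if j ∈ I then P (.sw j (I.erase j)) else N (.sw j I) - P (.sw j I)) = _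
  rw [if_pos rfl]

theorem resR_ord_off {μ : ℕ} {I : Finset ℕ} (hI : j ∉ I) :
    resR M j N P y (.ord μ I) =
      N (.ord μ I) - P (.ord μ I) - if μ = M ∧ I = ∅ then y else 0 := by
  show (if j ∈ I then P (.ord μ (I.erase j)) else
      N (.ord μ I) - P (.ord μ I) - if μ = M ∧ I = ∅ then y else 0) = _
  rw [if_neg hI]

theorem resR_ord_on {μ : ℕ} {I : Finset ℕ} (hI : j ∉ I) :
    resR M j N P y (.ord μ (insert j I)) = P (.ord μ I) := by
  show (if j ∈ insert j I then P (.ord μ ((insert j I).erase j)) else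
      N (.ord μ (insert j I)) - P (.ord μ (insert j I)) -
        if μ = M ∧ insert j I = ∅ then y else 0) = _
  rw [if_pos (mem_insert_self j I), erase_insert hI]

theorem totR_off {I : Finset ℕ} (hI : j ∉ I) :
    totR M (j + 1) (resR M j N P y) I = totR M j N I - totR M j P I := by
  unfold totR
  rw [sum_range_succ, resR_sw_self, resR_ord_off hI,
    sum_congr rfl fun i hi => resR_sw_off (M := M) (N := N) (P := P) (y := y) (mem_range.1 hi) hI,
    sum_sub_distrib]
  by_cases h : I = ∅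
  · rw [if_pos h, if_pos ⟨rfl, h⟩]
    ring
  · rw [if_neg h, if_neg (fun h' => h h'.2)]
    ring

theorem totR_on {I : Finset ℕ} (hI : j ∉ I) :
    totR M (j + 1) (resR M j N P y) (insert j I) = totR M j P I := by
  unfold totR
  rw [sum_range_succ, resR_sw_self, resR_ord_on hI,
    sum_congr rfl fun i hi => resR_sw_on (M := M) (N := N) (P := P) (y := y) (mem_range.1 hi) hI,
    if_neg (insert_ne_empty j I), add_zero]

theorem resR_add {τ : Kd} (hτ : τ.Ok M j) : resR M j N P y (τ.add j) = P τ := by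
  have h1 := Off.of_ok hτ
  rcases τ with ⟨μ, I⟩ | ⟨i, I⟩
  · exact resR_ord_on h1
  · exact resR_sw_on hτ.1 h1

theorem resR_ok {τ : Kd} (hτ : τ.Ok M j) :
    resR M j N P y τ = N τ - P τ - if τ = .ord M ∅ then y else 0 := by
  have h1 := Off.of_ok hτ
  rcases τ with ⟨μ, I⟩ | ⟨i, I⟩
  · rw [resR_ord_off (μ := μ) h1]
    simp only [Kd.ord.injEq]
  · rw [resR_sw_off hτ.1 h1, if_neg (by simp), sub_zero]

theorem vR_res {c n m : ℕ} (hM : 1 ≤ M) (hc : 0 < c) (hm : m = n + c)
    (hn : (j + 1) * c + 1 ≤ m) :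
    vR M c (j + 1) m (resR M j N P y) = vR M c j m N - vR M c j n P + y := by
  unfold vR
  have hmn : m - c = n := by omega
  have hb := bb_succ_add (c := c) (j := j) (n := m) hc (2 * M - 1) (Nat.le_of_succ_le hn)
  rw [hmn] at hb
  have hb' : (bb c (2 * M - 1) (j + 1) m : ℝ) + bb c (2 * M - 1) j n = bb c (2 * M - 1) j m := by
    exact_mod_cast hb
  have h0 : Kd.ord M ∅ ∈ kds M j := mem_kds.2 ⟨hM, le_rfl, empty_subset _⟩
  rw [sum_kds_succ]
  have h1 : ∑ τ ∈ kds M j, resR M j N P y τ * (wt M c m τ : ℝ) =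
      ∑ τ ∈ kds M j, N τ * (wt M c m τ : ℝ) - ∑ τ ∈ kds M j, P τ * (wt M c m τ : ℝ) -
        y * (wt M c m (.ord M ∅) : ℝ) := by
    have h2 : ∀ τ ∈ kds M j, resR M j N P y τ * (wt M c m τ : ℝ) =
        N τ * (wt M c m τ : ℝ) - P τ * (wt M c m τ : ℝ) -
          (if τ = .ord M ∅ then y * (wt M c m τ : ℝ) else 0) := by
      intro τ hτ
      rw [resR_ok (mem_kds.1 hτ)]
      split_ifs <;> ring
    rw [sum_congr rfl h2, sum_sub_distrib, sum_sub_distrib, sum_ite_eq', if_pos h0]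
  have h3 : ∑ τ ∈ kds M j, resR M j N P y (τ.add j) * (wt M c m (τ.add j) : ℝ) =
      ∑ τ ∈ kds M j, P τ * (wt M c m τ : ℝ) - ∑ τ ∈ kds M j, P τ * (wt M c n τ : ℝ) := by
    rw [← sum_sub_distrib]
    refine sum_congr rfl fun τ hτ => ?_
    have h4 := wt_add (M := M) (c := c) (j := j) (n := m) hc hn (mem_kds.1 hτ)
    rw [hmn] at h4
    have h5 : (wt M c m (τ.add j) : ℝ) + wt M c n τ = wt M c m τ := by exact_mod_cast h4
    rw [resR_add (mem_kds.1 hτ), ← h5]
    ring
  have h6 : resR M j N P y (.sw j ∅) * (wt M c m (.sw j ∅) : ℝ) =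
      y * (wt M c m (.ord M ∅) : ℝ) - y := by
    have h7 := wt_sj (M := M) (c := c) (j := j) (n := m) hc (by omega)
    have h8 : (wt M c m (.sw j ∅) : ℝ) + 1 = wt M c m (.ord M ∅) := by exact_mod_cast h7
    rw [resR_sw_self, if_pos rfl, ← h8]
    ring
  rw [h1, h3, h6]
  linarith

end

theorem resN_cast {M j y : ℕ} {N N' : Kd → ℕ} (h : ∀ τ, N' τ ≤ N τ)
    (hy : y + N' (.ord M ∅) ≤ N (.ord M ∅)) (τ : Kd) :
    (resN M j N N' y τ : ℝ) = resR M j (fun τ => (N τ : ℝ)) (fun τ => (N' τ : ℝ)) y τ := by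
  rcases τ with ⟨μ, I⟩ | ⟨i, I⟩
  · show ((if j ∈ I then N' (.ord μ (I.erase j)) else
      N (.ord μ I) - N' (.ord μ I) - if μ = M ∧ I = ∅ then y else 0 : ℕ) : ℝ) =
      (if j ∈ I then (N' (.ord μ (I.erase j)) : ℝ) else
      (N (.ord μ I) : ℝ) - N' (.ord μ I) - if μ = M ∧ I = ∅ then (y : ℝ) else 0)
    split_ifs with h1 h2
    · rfl
    · rw [h2.1, h2.2, Nat.cast_sub (by omega), Nat.cast_sub (h _)]
    · rw [Nat.sub_zero, Nat.cast_sub (h _), sub_zero]
  · show ((if i = j then (if I = ∅ then y else 0) else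
      if j ∈ I then N' (.sw i (I.erase j)) else N (.sw i I) - N' (.sw i I) : ℕ) : ℝ) =
      (if i = j then (if I = ∅ then (y : ℝ) else 0) else
      if j ∈ I then (N' (.sw i (I.erase j)) : ℝ) else (N (.sw i I) : ℝ) - N' (.sw i I))
    split_ifs with h1 h2 h3
    · rfl
    · exact Nat.cast_zero
    · rfl
    · rw [Nat.cast_sub (h _)]

theorem resN_ok {M j y : ℕ} {N N' : Kd → ℕ} (h : ∀ τ, N τ ≠ 0 → τ ∈ kds M j)
    (h' : ∀ τ, N' τ ≠ 0 → τ ∈ kds M j) (τ : Kd) (hτ : resN M j N N' y τ ≠ 0) :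
    τ ∈ kds M (j + 1) := by
  rw [mem_kds, ok_succ]
  rcases τ with ⟨μ, I⟩ | ⟨i, I⟩
  · have hτ' : (if j ∈ I then N' (.ord μ (I.erase j)) else
      N (.ord μ I) - N' (.ord μ I) - if μ = M ∧ I = ∅ then y else 0) ≠ 0 := hτ
    by_cases hj : j ∈ I
    · rw [if_pos hj] at hτ'
      refine Or.inr (Or.inl ⟨_, mem_kds.1 (h' _ hτ'), ?_⟩)
      show Kd.ord μ (insert j (I.erase j)) = _
      rw [insert_erase hj]
    · rw [if_neg hj] at hτ'
      exact Or.inl (mem_kds.1 (h _ fun h0 => hτ' (by rw [h0]; omega)))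
  · have hτ' : (if i = j then (if I = ∅ then y else 0) else
      if j ∈ I then N' (.sw i (I.erase j)) else N (.sw i I) - N' (.sw i I)) ≠ 0 := hτ
    by_cases hi : i = j
    · rw [if_pos hi] at hτ'
      by_cases hI : I = ∅
      · rw [hi, hI]
        exact Or.inr (Or.inr rfl)
      · rw [if_neg hI] at hτ'
        exact absurd rfl hτ'
    · rw [if_neg hi] at hτ'
      by_cases hj : j ∈ I
      · rw [if_pos hj] at hτ'
        refine Or.inr (Or.inl ⟨_, mem_kds.1 (h' _ hτ'), ?_⟩)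
        show Kd.sw i (insert j (I.erase j)) = _
        rw [insert_erase hj]
      · rw [if_neg hj] at hτ'
        exact Or.inl (mem_kds.1 (h _ fun h0 => hτ' (by rw [h0]; omega)))

/-! ### The nominal densities of the next level -/

theorem nom_on {M c j : ℕ} {I : Finset ℕ} (hI : I ⊆ range j) :
    nom M c (j + 1) (insert j I) = nom M c j I := by
  unfold nom
  rw [card_insert_of_notMem (off hI)]
  have h1 : j + 1 - (I.card + 1) = j - I.card := by omega
  have h2 : M + (I.card + 1) - (j + 1) = M + I.card - j := by omega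
  rw [h1, h2]

theorem nom_off {M c j : ℕ} {I : Finset ℕ} (hj : j + 1 ≤ M) (hI : I ⊆ range j) :
    nom M c (j + 1) I = nom M c j I * ((M + I.card - (j + 1) + 1 : ℕ) : ℝ) * c := by
  unfold nom
  have h0 : I.card ≤ j := by
    have := card_le_card hI
    rwa [card_range] at this
  have h1 : j + 1 - I.card = (j - I.card) + 1 := by omega
  have h2 : M + I.card - j = (M + I.card - (j + 1)) + 1 := by omega
  rw [h1, h2, pow_succ, Nat.factorial_succ]
  have h3 : ((M + I.card - (j + 1)).factorial : ℝ) ≠ 0 :=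
    Nat.cast_ne_zero.2 (Nat.factorial_ne_zero _)
  have h4 : ((M + I.card - (j + 1) + 1 : ℕ) : ℝ) ≠ 0 :=
    Nat.cast_ne_zero.2 (Nat.succ_ne_zero _)
  have h5 : ((2 * M - 1).choose M : ℝ) ≠ 0 := by
    have : 0 < (2 * M - 1).choose M := Nat.choose_pos (by omega)
    exact_mod_cast this.ne'
  rw [Nat.cast_mul]
  field_simp

theorem nom_nonneg (M c j : ℕ) (I : Finset ℕ) : 0 ≤ nom M c j I := by
  unfold nom
  positivity

theorem nom_pos {M c j : ℕ} (hM : 1 ≤ M) (hc : 1 ≤ c) (I : Finset ℕ) : 0 < nom M c j I := by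
  unfold nom
  have h5 : 0 < (2 * M - 1).choose M := Nat.choose_pos (by omega)
  have h6 : 0 < (M + I.card - j).factorial := Nat.factorial_pos _
  positivity

theorem nom_le {M c j : ℕ} (hM : 1 ≤ M) (hc : 1 ≤ c) (I : Finset ℕ) :
    nom M c j I ≤ (c : ℝ) ^ j := by
  unfold nom
  have h5 : 0 < (2 * M - 1).choose M := Nat.choose_pos (by omega)
  have h6 : 0 < (M + I.card - j).factorial := Nat.factorial_pos _
  have h7 : (1 : ℝ) ≤ ((2 * M - 1).choose M : ℝ) * ((M + I.card - j).factorial : ℝ) := by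
    exact_mod_cast Nat.mul_pos h5 h6
  have hc' : (1 : ℝ) ≤ c := by exact_mod_cast hc
  calc (c : ℝ) ^ (j - I.card) / (((2 * M - 1).choose M : ℝ) * ((M + I.card - j).factorial : ℝ))
      ≤ (c : ℝ) ^ (j - I.card) := div_le_self (by positivity) h7
    _ ≤ (c : ℝ) ^ j := pow_le_pow_right₀ hc' (Nat.sub_le _ _)

end NumStep

end Pool.Agent.V7

end

section

/-!
# V7: the numbers of one step, the classes
-/

set_option autoImplicit false

namespace Pool.Agent.V7

open Finset Pool.Agent.V7.ST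

namespace NumStep

/-! ### The floors -/

/-- the exponent of the number of the points of a kind on the level `l` -/
def dd (M l : ℕ) : Kd → ℕ
  | .ord μ I => 2 * M - μ + I.card - l
  | .sw _ I => M + I.card - l

/-- the number of the points of a kind which are specialised -/
noncomputable def Fl (M j n m : ℕ) (N : Kd → ℕ) (τ : Kd) : ℕ :=
  ⌊((n : ℝ) / m) ^ (dd M j τ) * (N τ : ℝ)⌋₊

section

variable {M j n m : ℕ} {N : Kd → ℕ}

theorem Fl_le (τ : Kd) : (Fl M j n m N τ : ℝ) ≤ ((n : ℝ) / m) ^ (dd M j τ) * (N τ : ℝ) :=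
  Nat.floor_le (by positivity)

theorem le_Fl (τ : Kd) : ((n : ℝ) / m) ^ (dd M j τ) * (N τ : ℝ) - 1 ≤ (Fl M j n m N τ : ℝ) := by
  have := (Nat.lt_floor_add_one (((n : ℝ) / m) ^ (dd M j τ) * (N τ : ℝ))).le
  unfold Fl
  linarith

theorem Fl_zero {τ : Kd} (h : N τ = 0) : Fl M j n m N τ = 0 := by
  unfold Fl
  rw [h, Nat.cast_zero, mul_zero, Nat.floor_zero]

theorem Fl_le_self {c : ℕ} {δ : ℝ} (S : Set' c n m δ) (τ : Kd) : Fl M j n m N τ ≤ N τ := by
  have h1 := Fl_le (M := M) (j := j) (n := n) (m := m) (N := N) τ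
  have h2 := mul_le_mul_of_nonneg_right (S.q_pow_le (dd M j τ)) (Nat.cast_nonneg (α := ℝ) (N τ))
  rw [one_mul] at h2
  exact_mod_cast h1.trans h2

theorem dd_M (I : Finset ℕ) : dd M j (.ord M I) = M + I.card - j := by
  show 2 * M - M + I.card - j = _
  have : 2 * M - M = M := by omega
  rw [this]

theorem tot_Fl_le (I : Finset ℕ) :
    totR M j (fun τ => (Fl M j n m N τ : ℝ)) I ≤ ((n : ℝ) / m) ^ (M + I.card - j) * (tot M j N I : ℝ) := by
  rw [← totR_cast]
  unfold totR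
  rw [mul_add, mul_sum]
  refine add_le_add ?_ (sum_le_sum fun i _ => ?_)
  · have := Fl_le (M := M) (j := j) (n := n) (m := m) (N := N) (.ord M I)
    rwa [dd_M] at this
  · exact Fl_le (M := M) (j := j) (n := n) (m := m) (N := N) (.sw i I)

theorem le_tot_Fl (I : Finset ℕ) :
    ((n : ℝ) / m) ^ (M + I.card - j) * (tot M j N I : ℝ) - (j + 1 : ℕ) ≤
      totR M j (fun τ => (Fl M j n m N τ : ℝ)) I := by
  rw [← totR_cast]
  unfold totR
  rw [mul_add, mul_sum]
  have h1 := le_Fl (M := M) (j := j) (n := n) (m := m) (N := N) (.ord M I)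
  rw [dd_M] at h1
  have h2 : ∑ i ∈ range j, (((n : ℝ) / m) ^ (M + I.card - j) * (N (.sw i I) : ℝ) - 1) ≤
      ∑ i ∈ range j, (Fl M j n m N (.sw i I) : ℝ) :=
    sum_le_sum fun i _ => le_Fl (M := M) (j := j) (n := n) (m := m) (N := N) (.sw i I)
  rw [sum_sub_distrib, sum_const, card_range, nsmul_eq_mul, mul_one] at h2
  push_cast
  linarith

end

/-! ### Classes with real numbers -/

/-- the class of the level `l`, with real numbers and one free type -/
structure RCls (M c l m : ℕ) (ε : ℝ) (R : Kd → ℝ) (I₀ : Finset ℕ) : Prop where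
  big : ∀ I, I ⊆ range l → I ≠ I₀ →
    |totR M l R I - nom M c l I * (m : ℝ) ^ (M + I.card - l)| ≤ ε * (m : ℝ) ^ (M + I.card - l)
  swp0 : ∀ i < l, ∀ I, I ⊆ range l → 0 ≤ R (.sw i I)
  swp : ∀ i < l, ∀ I, I ⊆ range l → R (.sw i I) ≤
    (2 * ((2 * M - 1).choose M : ℝ) / c * nom M c l I + ε) * (m : ℝ) ^ (M + I.card - l)
  zer : ∀ i < l, ∀ I, I ⊆ range l → (.sw i I) ∉ kds M l → R (.sw i I) = 0
  sml0 : ∀ μ, 1 ≤ μ → μ < M → ∀ I, I ⊆ range l → 0 ≤ R (.ord μ I)
  sml : ∀ μ, 1 ≤ μ → μ < M → ∀ I, I ⊆ range l →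
    R (.ord μ I) ≤ ε * (m : ℝ) ^ (2 * M - μ + I.card - l)

/-- the numbers of the specialised points -/
noncomputable def PP (M j n m : ℕ) (N : Kd → ℕ) (t : ℝ) (τ : Kd) : ℝ :=
  if τ = .ord M (range j) then t else (Fl M j n m N τ : ℝ)

section

variable {M j n m : ℕ} {N : Kd → ℕ} {t : ℝ}

theorem PP_sw (i : ℕ) (I : Finset ℕ) : PP M j n m N t (.sw i I) = (Fl M j n m N (.sw i I) : ℝ) := by
  unfold PP
  rw [if_neg (by simp)]

theorem PP_ord {μ : ℕ} (hμ : μ < M) (I : Finset ℕ) :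
    PP M j n m N t (.ord μ I) = (Fl M j n m N (.ord μ I) : ℝ) := by
  unfold PP
  rw [if_neg]
  rw [Kd.ord.injEq]
  exact fun h => absurd h.1 (by omega)

theorem PP_top : PP M j n m N t (.ord M (range j)) = t := by
  unfold PP
  rw [if_pos rfl]

theorem PP_ne {I : Finset ℕ} (hI : I ≠ range j) :
    PP M j n m N t (.ord M I) = (Fl M j n m N (.ord M I) : ℝ) := by
  unfold PP
  rw [if_neg]
  rw [Kd.ord.injEq]
  exact fun h => hI h.2

theorem totR_PP {I : Finset ℕ} (hI : I ≠ range j) :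
    totR M j (PP M j n m N t) I = totR M j (fun τ => (Fl M j n m N τ : ℝ)) I := by
  unfold totR
  rw [PP_ne hI, sum_congr rfl fun i _ => PP_sw i I]

theorem sw_range_notMem {i : ℕ} (hi : i < j) : (.sw i (range j)) ∉ kds M j := by
  intro h
  have h1 := (mem_kds.1 h).2 (mem_range.2 hi)
  exact absurd (mem_Ico.1 h1).1 (by omega)

theorem totR_PP_top (h : ∀ τ, N τ ≠ 0 → τ ∈ kds M j) :
    totR M j (PP M j n m N t) (range j) = t := by
  unfold totR
  rw [PP_top, sum_eq_zero, add_zero]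
  intro i hi
  rw [PP_sw, Fl_zero, Nat.cast_zero]
  by_contra h0
  exact sw_range_notMem (mem_range.1 hi) (h _ h0)

end

theorem card_le {j : ℕ} {I : Finset ℕ} (h : I ⊆ range j) : I.card ≤ j := by
  have := card_le_card h
  rwa [card_range] at this

/-- the class of the specialised points -/
theorem P_cls {M c j n m : ℕ} {δ e t : ℝ} {N : Kd → ℕ} (S : Set' c n m δ) (hj : j + 2 ≤ M)
    (hc2 : 2 * (j + 1) ≤ c) (h : Cls0 M c j m (e + 1 / (m : ℝ)) N) :
    RCls M c j n (e + 1 / (n : ℝ)) (PP M j n m N t) (range j) := by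
  have hn0 := S.n0
  have hm0 := S.m0
  have hmn : 1 / (m : ℝ) ≤ 1 / (n : ℝ) := one_div_le_one_div_of_le hn0 S.nm
  refine ⟨fun I hI hI' => ?_, fun i hi I hI => ?_, fun i hi I hI => ?_, fun i hi I hI h0 => ?_,
    fun μ h1 h2 I hI => ?_, fun μ h1 h2 I hI => ?_⟩
  · rw [totR_PP hI']
    have hI2 := card_le hI
    have h1 := h.big I hI hI'
    have h2 := tot_Fl_le (M := M) (j := j) (n := n) (m := m) (N := N) I
    have h3 := le_tot_Fl (M := M) (j := j) (n := n) (m := m) (N := N) I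
    obtain ⟨k, hk⟩ : ∃ k, M + I.card - j = k + 2 := ⟨M + I.card - j - 2, by omega⟩
    rw [hk] at h1 h2 h3 ⊢
    have hQ0 : 0 ≤ ((n : ℝ) / m) ^ (k + 2) := pow_nonneg S.q0 _
    have hqm := S.qm (k + 2)
    obtain ⟨h1a, h1b⟩ := abs_le.1 h1
    have h4 := mul_le_mul_of_nonneg_left h1a hQ0
    have h5 := mul_le_mul_of_nonneg_left h1b hQ0
    have h6 : ((n : ℝ) / m) ^ (k + 2) * -((e + 1 / (m : ℝ)) * (m : ℝ) ^ (k + 2)) =
        - ((e + 1 / (m : ℝ)) * (n : ℝ) ^ (k + 2)) := by
      rw [← hqm]; ring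
    have h7 : ((n : ℝ) / m) ^ (k + 2) * ((e + 1 / (m : ℝ)) * (m : ℝ) ^ (k + 2)) =
        ((e + 1 / (m : ℝ)) * (n : ℝ) ^ (k + 2)) := by
      rw [← hqm]; ring
    have h8 : ((n : ℝ) / m) ^ (k + 2) * ((tot M j N I : ℝ) - nom M c j I * (m : ℝ) ^ (k + 2)) =
        ((n : ℝ) / m) ^ (k + 2) * (tot M j N I : ℝ) - nom M c j I * (n : ℝ) ^ (k + 2) := by
      rw [← hqm]; ring
    rw [h6, h8] at h4
    rw [h7, h8] at h5
    -- the radius
    have h9 : ((j + 1 : ℕ) : ℝ) ≤ (1 / (n : ℝ) - 1 / m) * (n : ℝ) ^ (k + 2) := by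
      have e1 : (1 / (n : ℝ) - 1 / m) * (n : ℝ) ^ (k + 2) = (c * (n : ℝ) ^ (k + 1)) / m := by
        rw [S.mc]
        have : (n : ℝ) + c ≠ 0 := by rw [← S.mc]; exact hm0.ne'
        field_simp
        ring
      rw [e1, le_div_iff₀ hm0]
      have e2 : (m : ℝ) ≤ 2 * n := by
        rw [S.mc]
        have : (c : ℝ) ≤ n := by exact_mod_cast S.hcn
        linarith
      have e3 : (n : ℝ) ≤ (n : ℝ) ^ (k + 1) := by
        calc (n : ℝ) = (n : ℝ) ^ 1 := (pow_one _).symm
          _ ≤ (n : ℝ) ^ (k + 1) := pow_le_pow_right₀ S.n1 (by omega)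
      have e4 : (2 : ℝ) * ((j + 1 : ℕ) : ℝ) ≤ c := by exact_mod_cast hc2
      calc ((j + 1 : ℕ) : ℝ) * m ≤ ((j + 1 : ℕ) : ℝ) * (2 * n) := by gcongr
        _ = (2 * ((j + 1 : ℕ) : ℝ)) * n := by ring
        _ ≤ c * (n : ℝ) ^ (k + 1) := by gcongr
    have h10 : (1 / (n : ℝ) - 1 / m) * (n : ℝ) ^ (k + 2) =
        (e + 1 / (n : ℝ)) * (n : ℝ) ^ (k + 2) - (e + 1 / (m : ℝ)) * (n : ℝ) ^ (k + 2) := by ring
    rw [h10] at h9
    have h11 : (0 : ℝ) ≤ ((j + 1 : ℕ) : ℝ) := Nat.cast_nonneg _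
    rw [abs_le]
    constructor <;> linarith
  · rw [PP_sw]
    exact Nat.cast_nonneg _
  · rw [PP_sw]
    have h1 := h.swp i hi I hI
    have h2 := Fl_le (M := M) (j := j) (n := n) (m := m) (N := N) (.sw i I)
    have h3 : dd M j (.sw i I) = M + I.card - j := rfl
    rw [h3] at h2
    have hQ0 : 0 ≤ ((n : ℝ) / m) ^ (M + I.card - j) := pow_nonneg S.q0 _
    have hqm := S.qm (M + I.card - j)
    refine h2.trans ((mul_le_mul_of_nonneg_left h1 hQ0).trans ?_)
    have h4 : ((n : ℝ) / m) ^ (M + I.card - j) * ((2 * ((2 * M - 1).choose M : ℝ) / c *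
        nom M c j I + (e + 1 / (m : ℝ))) * (m : ℝ) ^ (M + I.card - j)) =
        (2 * ((2 * M - 1).choose M : ℝ) / c * nom M c j I + (e + 1 / (m : ℝ))) *
          (n : ℝ) ^ (M + I.card - j) := by
      rw [← hqm]; ring
    rw [h4]
    gcongr
  · rw [PP_sw, Fl_zero, Nat.cast_zero]
    by_contra h1
    exact h0 (h.ok _ h1)
  · rw [PP_ord h2]
    exact Nat.cast_nonneg _
  · rw [PP_ord h2]
    have h3 := h.sml μ h1 h2 I hI
    have h4 := Fl_le (M := M) (j := j) (n := n) (m := m) (N := N) (.ord μ I)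
    have h5 : dd M j (.ord μ I) = 2 * M - μ + I.card - j := rfl
    rw [h5] at h4
    have hQ0 : 0 ≤ ((n : ℝ) / m) ^ (2 * M - μ + I.card - j) := pow_nonneg S.q0 _
    have hqm := S.qm (2 * M - μ + I.card - j)
    refine h4.trans ((mul_le_mul_of_nonneg_left h3 hQ0).trans ?_)
    have h6 : ((n : ℝ) / m) ^ (2 * M - μ + I.card - j) * ((e + 1 / (m : ℝ)) *
        (m : ℝ) ^ (2 * M - μ + I.card - j)) =
        (e + 1 / (m : ℝ)) * (n : ℝ) ^ (2 * M - μ + I.card - j) := by
      rw [← hqm]; ring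
    rw [h6]
    gcongr

/-- the constant of the class of the residual -/
noncomputable def KK (M c j : ℕ) (κ : ℝ) : ℝ :=
  ((j + 1 : ℕ) : ℝ) + ((c : ℝ) ^ j + 1) * ((2 * M : ℕ) : ℝ) ^ 2 * (c : ℝ) ^ 2 +
    ((c : ℝ) ^ j + 1) * ((2 * M : ℕ) : ℝ) * c + ((2 * M : ℕ) : ℝ) * c + 1 + κ

theorem KK_parts {M c j : ℕ} {κ : ℝ} (hκ : 0 ≤ κ) :
    ((j + 1 : ℕ) : ℝ) + ((c : ℝ) ^ j + 1) * ((2 * M : ℕ) : ℝ) ^ 2 * (c : ℝ) ^ 2 +
      ((2 * M : ℕ) : ℝ) * c ≤ KK M c j κ ∧
    ((j + 1 : ℕ) : ℝ) + ((c : ℝ) ^ j + 1) * ((2 * M : ℕ) : ℝ) * c + 1 ≤ KK M c j κ ∧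
    ((2 * M : ℕ) : ℝ) * c + 1 ≤ KK M c j κ ∧
    κ + ((c : ℝ) ^ j + 1) * ((2 * M : ℕ) : ℝ) * c ≤ KK M c j κ ∧ κ ≤ KK M c j κ ∧
    1 ≤ KK M c j κ := by
  unfold KK
  have h1 : (0 : ℝ) ≤ ((j + 1 : ℕ) : ℝ) := Nat.cast_nonneg _
  have h2 : (0 : ℝ) ≤ ((c : ℝ) ^ j + 1) * ((2 * M : ℕ) : ℝ) ^ 2 * (c : ℝ) ^ 2 := by positivity
  have h3 : (0 : ℝ) ≤ ((c : ℝ) ^ j + 1) * ((2 * M : ℕ) : ℝ) * c := by positivity
  have h4 : (0 : ℝ) ≤ ((2 * M : ℕ) : ℝ) * c := by positivity
  refine ⟨?_, ?_, ?_, ?_, ?_, ?_⟩ <;> linarith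

theorem top_shift {M c j n m : ℕ} {δ κ t : ℝ} (S : Set' c n m δ) (hM : 1 ≤ M)
    (hκ : 0 ≤ κ) (ht : |t - nom M c j (range j) * (n : ℝ) ^ M| ≤ κ * δ * (n : ℝ) ^ M) :
    |t - nom M c j (range j) * (m : ℝ) ^ M| ≤ KK M c j κ * δ * (m : ℝ) ^ M := by
  obtain ⟨k1, k2, k3, k4, k5, k6⟩ := KK_parts (M := M) (c := c) (j := j) hκ
  have hδ0 := S.δ0
  have hm0 := S.m0
  have h1 := S.q_ge M
  have h2 := S.qm M
  have h3 := nom_nonneg M c j (range j)
  have h4 := nom_le (j := j) hM S.hc (range j)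
  set ν := nom M c j (range j) with hν
  set W : ℝ := (m : ℝ) ^ M with hW
  have hW0 : 0 < W := pow_pos hm0 M
  have h5 : (n : ℝ) ^ M ≤ W := by
    have h6 := mul_le_mul_of_nonneg_right (S.q_pow_le M) hW0.le
    rw [one_mul, h2] at h6
    exact h6
  have h7 : W - (n : ℝ) ^ M ≤ M * (c / m) * W := by
    have h8 := mul_le_mul_of_nonneg_right h1 hW0.le
    rw [h2] at h8
    linarith
  have h9 : (M : ℝ) * (c / m) * W ≤ ((2 * M : ℕ) : ℝ) * c * δ * W := by
    have h10 : (c : ℝ) / m ≤ c * δ := by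
      have : (c : ℝ) / m = c * (1 / m) := by ring
      rw [this]
      exact mul_le_mul_of_nonneg_left S.mδ S.c0.le
    have h11 : (M : ℝ) ≤ ((2 * M : ℕ) : ℝ) := Nat.cast_le.2 (by omega)
    have h12 : (0 : ℝ) ≤ c / m := S.h0
    calc (M : ℝ) * (c / m) * W ≤ ((2 * M : ℕ) : ℝ) * (c * δ) * W := by gcongr
      _ = ((2 * M : ℕ) : ℝ) * c * δ * W := by ring
  have h13 : ν * (W - (n : ℝ) ^ M) ≤ ((c : ℝ) ^ j + 1) * (((2 * M : ℕ) : ℝ) * c * δ * W) := by
    have h14 : ν ≤ (c : ℝ) ^ j + 1 := by linarith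
    have h15 : 0 ≤ W - (n : ℝ) ^ M := by linarith
    exact mul_le_mul h14 (h7.trans h9) h15 (by positivity)
  have h16 : 0 ≤ ν * (W - (n : ℝ) ^ M) := mul_nonneg h3 (by linarith)
  have h17 : κ * δ * (n : ℝ) ^ M ≤ κ * δ * W := mul_le_mul_of_nonneg_left h5 (by positivity)
  have h18 : (κ + ((c : ℝ) ^ j + 1) * ((2 * M : ℕ) : ℝ) * c) * (δ * W) ≤ KK M c j κ * (δ * W) :=
    mul_le_mul_of_nonneg_right k4 (by positivity)
  obtain ⟨h19, h20⟩ := abs_le.1 ht
  rw [abs_le]
  constructor <;> nlinarith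

/-- the class of the residual -/
theorem R_cls {M c j n m : ℕ} {δ κ t y : ℝ} {N : Kd → ℕ} (S : Set' c n m δ) (hj : j + 2 ≤ M)
    (hκ : 0 ≤ κ) (h : Cls0 M c j m δ N)
    (ht : |t - nom M c j (range j) * (n : ℝ) ^ M| ≤ κ * δ * (n : ℝ) ^ M)
    (hy0 : 0 ≤ y)
    (hy : y ≤ (2 * ((2 * M - 1).choose M : ℝ) / c * nom M c (j + 1) ∅ + κ * δ) *
      (m : ℝ) ^ (M - (j + 1))) :
    RCls M c (j + 1) m (KK M c j κ * δ)
      (resR M j (fun τ => (N τ : ℝ)) (PP M j n m N t) y) (range j) := by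
  have hM : 1 ≤ M := by omega
  have hc := S.hc
  have hδ0 := S.δ0
  obtain ⟨k1, k2, k3, k4, k5, k6⟩ := KK_parts (M := M) (c := c) (j := j) hκ
  have hC0 : (0 : ℝ) ≤ 2 * ((2 * M - 1).choose M : ℝ) / c := by positivity
  have hm0 := S.m0
  have hKK0 : 0 ≤ KK M c j κ * δ := mul_nonneg (by linarith) hδ0.le
  have hδK : δ ≤ KK M c j κ * δ := by
    have := mul_le_mul_of_nonneg_right k6 hδ0.le
    linarith
  refine ⟨fun I hI hI' => ?_, fun i hi I hI => ?_, fun i hi I hI => ?_, fun i hi I hI h0 => ?_,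
    fun μ h1 h2 I hI => ?_, fun μ h1 h2 I hI => ?_⟩
  · rcases cases_sub hI with ⟨hjI, hI2⟩ | ⟨I', hI2, rfl⟩
    · -- the difference
      rw [totR_off hjI, totR_PP hI', totR_cast, nom_off (by omega) hI2]
      have hcI := card_le hI2
      obtain ⟨e, he⟩ : ∃ e, M + I.card - j = e + 1 := ⟨M + I.card - j - 1, by omega⟩
      have he' : M + I.card - (j + 1) = e := by omega
      rw [he']
      have h1 := h.big I hI2 hI'
      have h2 := tot_Fl_le (M := M) (j := j) (n := n) (m := m) (N := N) I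
      have h3 := le_tot_Fl (M := M) (j := j) (n := n) (m := m) (N := N) I
      rw [he] at h1 h2 h3
      have h4 := S.diff (e := e) (E := 2 * M) (J := ((j + 1 : ℕ) : ℝ)) (ν₁ := (c : ℝ) ^ j)
        (by omega) (by omega) (Nat.cast_nonneg _) (nom_nonneg M c j I) (nom_le hM hc I)
        (Nat.cast_nonneg _) h1 h3 h2
      refine h4.trans ?_
      gcongr
    · rw [totR_on (off hI2), nom_on hI2, card_insert_of_notMem (off hI2)]
      have hcI := card_le hI2
      have he : M + (I'.card + 1) - (j + 1) = M + I'.card - j := by omega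
      rw [he]
      by_cases hI3 : I' = range j
      · subst hI3
        rw [totR_PP_top h.ok, card_range]
        have he2 : M + j - j = M := by omega
        rw [he2]
        exact top_shift S hM hκ ht
      · rw [totR_PP hI3]
        have h1 := h.big I' hI2 hI3
        have h2 := tot_Fl_le (M := M) (j := j) (n := n) (m := m) (N := N) I'
        have h3 := le_tot_Fl (M := M) (j := j) (n := n) (m := m) (N := N) I'
        have h4 := S.same (d := M + I'.card - j) (E := 2 * M) (J := ((j + 1 : ℕ) : ℝ))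
          (ν₁ := (c : ℝ) ^ j)
          (by omega) (by omega) (Nat.cast_nonneg _) (nom_nonneg M c j I') (nom_le hM hc I')
          (Nat.cast_nonneg _) h1 h3 h2
        refine h4.trans ?_
        gcongr
  · by_cases hij : i = j
    · subst hij
      rw [resR_sw_self]
      split_ifs
      · exact hy0
      · exact le_rfl
    · have hi' : i < j := by omega
      rcases cases_sub hI with ⟨hjI, hI2⟩ | ⟨I', hI2, rfl⟩
      · rw [resR_sw_off hi' hjI, PP_sw]
        have := Fl_le_self (M := M) (j := j) (N := N) S (.sw i I)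
        have : (Fl M j n m N (.sw i I) : ℝ) ≤ N (.sw i I) := by exact_mod_cast this
        linarith
      · rw [resR_sw_on hi' (off hI2), PP_sw]
        exact Nat.cast_nonneg _
  · by_cases hij : i = j
    · subst hij
      rw [resR_sw_self]
      split_ifs with hI0
      · subst hI0
        rw [card_empty, add_zero]
        refine hy.trans ?_
        have h1 : κ * δ ≤ KK M c i κ * δ := mul_le_mul_of_nonneg_right k5 hδ0.le
        gcongr
      · have h2 := nom_nonneg M c (i + 1) I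
        positivity
    · have hi' : i < j := by omega
      rcases cases_sub hI with ⟨hjI, hI2⟩ | ⟨I', hI2, rfl⟩
      · rw [resR_sw_off hi' hjI, PP_sw]
        have hcI := card_le hI2
        obtain ⟨e, he⟩ : ∃ e, M + I.card - j = e + 1 := ⟨M + I.card - j - 1, by omega⟩
        have he' : M + I.card - (j + 1) = e := by omega
        rw [nom_off (by omega) hI2, he']
        have h1 := h.swp i hi' I hI2
        have h3 := le_Fl (M := M) (j := j) (n := n) (m := m) (N := N) (.sw i I)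
        have h4 : dd M j (.sw i I) = M + I.card - j := rfl
        rw [h4] at h3
        rw [he] at h1 h3
        have h5 := S.one_res (e := e) (E := 2 * M) (by omega) (by omega) (Nat.cast_nonneg _) h1 h3
        refine h5.trans ?_
        have h6 : 2 * ((2 * M - 1).choose M : ℝ) / c * nom M c j I * ((e + 1 : ℕ) : ℝ) * c =
          2 * ((2 * M - 1).choose M : ℝ) / c * (nom M c j I * ((e + 1 : ℕ) : ℝ) * c) := by ring
        rw [h6]
        gcongr
      · rw [resR_sw_on hi' (off hI2), PP_sw, nom_on hI2, card_insert_of_notMem (off hI2)]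
        have hcI := card_le hI2
        have he : M + (I'.card + 1) - (j + 1) = M + I'.card - j := by omega
        rw [he]
        have h1 := h.swp i hi' I' hI2
        have h2 := Fl_le (M := M) (j := j) (n := n) (m := m) (N := N) (.sw i I')
        have h4 : dd M j (.sw i I') = M + I'.card - j := rfl
        rw [h4] at h2
        have h5 := S.one_tr (Nat.cast_nonneg _) h1 h2
        refine h5.trans ?_
        gcongr
  · by_cases hij : i = j
    · subst hij
      rw [resR_sw_self, if_neg]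
      rintro rfl
      exact h0 (mem_kds.2 (ok_succ.2 (Or.inr (Or.inr rfl))))
    · have hi' : i < j := by omega
      rcases cases_sub hI with ⟨hjI, hI2⟩ | ⟨I', hI2, rfl⟩
      · rw [resR_sw_off hi' hjI, PP_sw]
        have h1 : N (.sw i I) = 0 := by
          by_contra h2
          exact h0 (mem_kds.2 (ok_succ.2 (Or.inl (mem_kds.1 (h.ok _ h2)))))
        rw [Fl_zero h1, h1, sub_self]
      · rw [resR_sw_on hi' (off hI2), PP_sw]
        have h1 : N (.sw i I') = 0 := by
          by_contra h2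
          exact h0 (mem_kds.2 (ok_succ.2 (Or.inr (Or.inl ⟨_, mem_kds.1 (h.ok _ h2), rfl⟩))))
        rw [Fl_zero h1, Nat.cast_zero]
  · rcases cases_sub hI with ⟨hjI, hI2⟩ | ⟨I', hI2, rfl⟩
    · rw [resR_ord_off hjI, PP_ord h2, if_neg (by omega), sub_zero]
      have := Fl_le_self (M := M) (j := j) (N := N) S (.ord μ I)
      have : (Fl M j n m N (.ord μ I) : ℝ) ≤ N (.ord μ I) := by exact_mod_cast this
      linarith
    · rw [resR_ord_on (off hI2), PP_ord h2]
      exact Nat.cast_nonneg _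
  · rcases cases_sub hI with ⟨hjI, hI2⟩ | ⟨I', hI2, rfl⟩
    · rw [resR_ord_off hjI, PP_ord h2, if_neg (by omega), sub_zero]
      have hcI := card_le hI2
      obtain ⟨e, he⟩ : ∃ e, 2 * M - μ + I.card - j = e + 1 := ⟨2 * M - μ + I.card - j - 1, by omega⟩
      have he' : 2 * M - μ + I.card - (j + 1) = e := by omega
      rw [he']
      have h3 := h.sml μ h1 h2 I hI2
      have h4 := le_Fl (M := M) (j := j) (n := n) (m := m) (N := N) (.ord μ I)
      have h5 : dd M j (.ord μ I) = 2 * M - μ + I.card - j := rfl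
      rw [h5] at h4
      rw [he] at h3 h4
      have h3' : (N (.ord μ I) : ℝ) ≤ (0 + δ) * (m : ℝ) ^ (e + 1) := by rw [zero_add]; exact h3
      have h6 := S.one_res (e := e) (E := 2 * M) (by omega) (by omega) (Nat.cast_nonneg _) h3' h4
      refine h6.trans ?_
      rw [zero_mul, zero_mul, zero_add]
      gcongr
    · rw [resR_ord_on (off hI2), PP_ord h2, card_insert_of_notMem (off hI2)]
      have hcI := card_le hI2
      have he : 2 * M - μ + (I'.card + 1) - (j + 1) = 2 * M - μ + I'.card - j := by omega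
      rw [he]
      have h3 := h.sml μ h1 h2 I' hI2
      have h4 := Fl_le (M := M) (j := j) (n := n) (m := m) (N := N) (.ord μ I')
      have h5 : dd M j (.ord μ I') = 2 * M - μ + I'.card - j := rfl
      rw [h5] at h4
      have h3' : (N (.ord μ I') : ℝ) ≤ (0 + δ) * (m : ℝ) ^ (2 * M - μ + I'.card - j) := by
        rw [zero_add]; exact h3
      have h6 := S.one_tr (Nat.cast_nonneg _) h3' h4
      refine h6.trans ?_
      rw [zero_add]
      gcongr

end NumStep

end Pool.Agent.V7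

end
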