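import Pool.Agent.H94.LP7.M141
import Pool.Agent.H94.LP7.M142
import Pool.Agent.H94.LP7.M143
import Pool.Agent.H94.LP7.M145

/-! The parts of this file: V7.Top.Fin, V7.Step, V7.Final. -/

section

/-!
# The top level: exactness from ALPHA and BETA
-/

set_option autoImplicit false

namespace Pool.Agent.V7

/-- Exactness on the top level, from independence (ALPHA) and the slopes (BETA). -/
theorem prop_top_of (M : ℕ) (hM : 2 ≤ M)
    (hA : ∃ c₀ L : ℕ, 1 ≤ L ∧ ∀ c, c₀ ≤ c → L ∣ c → ∀ j < M, OJ M c j)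
    (hB : ∃ c₀ L : ℕ, 1 ≤ L ∧ ∀ c, c₀ ≤ c → L ∣ c → BETA M c (M - 1)) :
    ∃ c₀ L : ℕ, 1 ≤ L ∧ ∀ c, c₀ ≤ c → L ∣ c → PROP M c (M - 1) := by
  obtain ⟨c₁, L₁, hL₁, h₁⟩ := hA
  obtain ⟨c₂, L₂, hL₂, h₂⟩ := hB
  refine ⟨c₁ + c₂ + 2 * (2 * M - 1).choose M * M + 1, L₁ * L₂, Nat.mul_pos hL₁ hL₂,
    fun c hc hL => ?_⟩
  have hk : M - 1 + 1 = M := by omega
  have hc1 : 1 ≤ c := by omega
  exact prop_of M c (M - 1) hM hk hc1 (fun n hn => bb_self c (M - 1) n hn)
    (h₁ c (by omega) (dvd_trans (Dvd.intro _ rfl) hL) (M - 1) (by omega))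
    (GA.gamma_inp M c (M - 1) hk hM (by omega))
    (h₂ c (by omega) (dvd_trans (Dvd.intro_left _ rfl) hL))
    (vas M c (M - 1) hM hk hc1)

end Pool.Agent.V7

end

section

/-!
# V7: exactness on the level `j` from exactness on the level `j + 1`
-/

set_option autoImplicit false

namespace Pool.Agent.V7

open Finset Pool.Agent.H51.TB Pool.Agent.V7.ST

/-- STEP -/
theorem step (M c j : ℕ) (hj : j + 2 ≤ M) (hc : 2 * (2 * M - 1).choose M * M < c)
    (hO : OJ M c j) (hP : PROP M c (j + 1)) : PROP M c j :=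
  step_of M c j hj (by omega)
    (fun n sL sO y a hn hL h0 => gM_dh M c j n (by omega) (by omega) (by omega) sL sO y a hL h0)
    (num_ms M c j hj hc) hO hP

end Pool.Agent.V7

end

section

/-!
# V7: the critical half, assembly

`PROP M c j` (exactness on the level `j`) holds for `j = M - 1` (`prop_top_of`, from ALPHA, BETA,
GAMMA), passes from `j + 1` to `j` (`step`), and `PROP M c 0` is the exactness of all systems of
general fat points of degree `2M - 1` in the class of the critical half (`crit_of_prop`).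
-/

set_option autoImplicit false

namespace Pool.Agent.V7

open Finset Pool.Agent.H51.TB Pool.Agent.V7.ST

/-- Exactness on the top level. -/
theorem prop_top (M : ℕ) (hM : 2 ≤ M) : ∃ c₀ L : ℕ, 1 ≤ L ∧ ∀ c, c₀ ≤ c → L ∣ c →
    PROP M c (M - 1) :=
  prop_top_of M hM (alpha M hM) (beta M hM)

/-- Exactness on the level `0`. -/
theorem prop_zero (M : ℕ) (hM : 2 ≤ M) : ∃ c, 1 ≤ c ∧ PROP M c 0 := by
  obtain ⟨c₁, L₁, hL₁, h₁⟩ := alpha M hM
  obtain ⟨c₂, L₂, hL₂, h₂⟩ := prop_top M hM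
  obtain ⟨c, hc⟩ : ∃ c, c = L₁ * L₂ * (c₁ + c₂ + 2 * (2 * M - 1).choose M * M + 1) := ⟨_, rfl⟩
  have hpos : 1 ≤ L₁ * L₂ := Nat.mul_pos hL₁ hL₂
  have hge : c₁ + c₂ + 2 * (2 * M - 1).choose M * M + 1 ≤ c := by
    rw [hc]
    exact Nat.le_mul_of_pos_left _ hpos
  have h1 := h₁ c (by omega) (by rw [hc, mul_assoc, mul_assoc]; exact Dvd.intro _ rfl)
  have h2 := h₂ c (by omega) (by rw [hc, mul_comm L₁ L₂, mul_assoc, mul_assoc]; exact Dvd.intro _ rfl)
  refine ⟨c, by omega, ?_⟩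
  have key : ∀ i, i < M → PROP M c (M - 1 - i) := by
    intro i
    induction i with
    | zero => exact fun _ => h2
    | succ i ih =>
      intro hi
      refine step M c (M - 1 - (i + 1)) (by omega) (by omega) (h1 _ (by omega)) ?_
      have h3 := ih (by omega)
      rwa [show M - 1 - (i + 1) + 1 = M - 1 - i by omega]
  have h3 := key (M - 1) (by omega)
  rwa [Nat.sub_self] at h3

/-- V7: the critical half. -/
theorem crit (M : ℕ) (hM : 2 ≤ M) : Pool.Agent.H74.V7.Crit M := by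
  obtain ⟨c, _, h⟩ := prop_zero M hM
  exact crit_of_prop M c hM h

end Pool.Agent.V7

end
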