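import Mathlib

/-! The parts of this file: H21.HD.Distribute, V7.Top.Ext, V7.Top.Basic, V7.Top.Chain. -/

section

/-!
Distribution of points to slices.
-/

namespace Pool.Agent.H21.HD

open MvPolynomial
open scoped Classical

namespace DistributeX

/-- An enumeration of a finset. -/
theorem exists_index {α : Type} (S : Finset α) :
    ∃ f : α → ℕ, (∀ p ∈ S, f p < S.card) ∧ Set.InjOn f S := by
  refine ⟨fun p => if h : p ∈ S then (S.equivFin ⟨p, h⟩ : ℕ) else 0, ?_, ?_⟩
  · intro p hp
    simp only [hp, dite_true]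
    exact (S.equivFin ⟨p, hp⟩).2
  · intro p hp q hq hpq
    have hp' : p ∈ S := hp
    have hq' : q ∈ S := hq
    simp only [hp', hq', dite_true] at hpq
    have h1 := S.equivFin.injective (Fin.ext hpq)
    exact congrArg Subtype.val h1

/-- The number of points with given quotient index is at most the capacity. -/
theorem card_group {α : Type} (S : Finset α) (f : α → ℕ) (hf : Set.InjOn f S) (C g : ℕ)
    (hC : 0 < C) (hS : ∀ p ∈ S, f p / C = g) : S.card ≤ C := by
  have h1 : S.card ≤ (Finset.Ico (g * C) ((g + 1) * C)).card := by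
    refine Finset.card_le_card_of_injOn f ?_ hf
    intro p hp
    have h2 := hS p hp
    rw [Finset.mem_coe, Finset.mem_Ico]
    constructor
    · rw [← h2]
      exact Nat.div_mul_le_self _ _
    · rw [← h2]
      exact Nat.lt_mul_of_div_lt (Nat.lt_succ_self _) hC
  rw [Nat.card_Ico] at h1
  have h3 : (g + 1) * C - g * C = C := by
    rw [Nat.add_mul, Nat.one_mul, Nat.add_sub_cancel_left]
  omega

end DistributeX

open DistributeX

/-- Distribution of the points whose type contains `i` to the slices. -/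
theorem distribute (j s : ℕ) (ε : ℝ) (hε : 0 < ε) : ∃ W : ℕ, ∀ (ι A α : Type) [Fintype A],
    W ≤ Fintype.card A → ∀ (J : Finset ι), J.card = j → ∀ i ∈ J, ∀ (P : Finset α)
    (c : α → Finset ι), (∀ p ∈ P, c p ⊆ J) → ∀ (R : Finset A), R.card ≤ s →
    ∑ p ∈ P, (1 : ℝ) / (Fintype.card A : ℝ) ^ (c p).card ≤ 1 - ε →
    ∃ t : α → A, (∀ p ∈ P, i ∈ c p → t p ∉ R) ∧
      (∀ p ∈ P, ∀ p' ∈ P, i ∈ c p → i ∈ c p' → t p = t p' → c p = c p') ∧
      (∀ p ∈ P, ∀ p' ∈ P, i ∈ c p → i ∈ c p' → t p = t p' → c p = {i} → p = p') ∧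
      (∀ a : A, (∀ p ∈ P, i ∈ c p → t p = a → c p ≠ {i}) →
        ∑ p ∈ P.filter (fun p => i ∈ c p → t p = a),
          (1 : ℝ) / (Fintype.card A : ℝ) ^ ((c p).erase i).card ≤ 1 - ε / 2) := by
  refine ⟨⌈8 / ε ^ 2⌉₊ + ⌈4 * (s + 2 ^ j) / ε⌉₊ + ⌈2 / ε⌉₊ + 1, ?_⟩
  intro ι A α _ hW J hJ i hi P c hc R hR hload
  -- the number of slices
  set w : ℝ := (Fintype.card A : ℝ) with hw
  have hwW : ((⌈8 / ε ^ 2⌉₊ + ⌈4 * (s + 2 ^ j) / ε⌉₊ + ⌈2 / ε⌉₊ + 1 : ℕ) : ℝ) ≤ w := by
    rw [hw]
    exact_mod_cast hW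
  push_cast at hwW
  have hc1 : 8 / ε ^ 2 ≤ (⌈8 / ε ^ 2⌉₊ : ℝ) := Nat.le_ceil _
  have hc2 : 4 * (s + 2 ^ j) / ε ≤ (⌈4 * (s + 2 ^ j) / ε⌉₊ : ℝ) := Nat.le_ceil _
  have hc3 : 2 / ε ≤ (⌈2 / ε⌉₊ : ℝ) := Nat.le_ceil _
  have hp1 : 0 < 8 / ε ^ 2 := by positivity
  have hp2 : 0 < 4 * ((s : ℝ) + 2 ^ j) / ε := by positivity
  have hp3 : 0 < 2 / ε := by positivity
  have hw1 : 1 ≤ w := by linarith only [hwW, hc1, hc2, hc3, hp1, hp2, hp3]
  have hw8 : 8 / ε ^ 2 ≤ w := by linarith only [hwW, hc1, hc2, hc3, hp2, hp3]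
  have hw4 : 4 * (s + 2 ^ j) / ε ≤ w := by linarith only [hwW, hc1, hc2, hc3, hp1, hp3]
  have hw2 : 2 / ε ≤ w := by linarith only [hwW, hc1, hc2, hc3, hp1, hp2]
  have hw0 : 0 < w := by linarith only [hwW, hc1, hc2, hc3, hp1, hp2, hp3]
  have hcardA : 0 < Fintype.card A := by
    have : (0 : ℝ) < (Fintype.card A : ℝ) := hw0
    exact_mod_cast this
  have hne : Nonempty A := Fintype.card_pos_iff.mp hcardA
  -- split the load
  set L0 : ℝ := ∑ p ∈ P.filter (fun p => i ∉ c p), (1 : ℝ) / w ^ (c p).card with hL0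
  have hL0nn : 0 ≤ L0 := Finset.sum_nonneg (fun p _ => by positivity)
  set P1 : Finset α := P.filter (fun p => i ∈ c p) with hP1
  have hsplit : L0 + ∑ p ∈ P1, (1 : ℝ) / w ^ (c p).card ≤ 1 - ε := by
    rw [add_comm, hL0, hP1, Finset.sum_filter_add_sum_filter_not]
    exact hload
  have hP1nn : 0 ≤ ∑ p ∈ P1, (1 : ℝ) / w ^ (c p).card :=
    Finset.sum_nonneg (fun p _ => by positivity)
  set x : ℝ := 1 - ε / 2 - L0 with hx
  have hε1 : ε ≤ 1 := by linarith only [hL0nn, hsplit, hP1nn]
  have hxlo : ε / 2 ≤ x := by linarith only [hsplit, hP1nn, hx]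
  have hxhi : x ≤ 1 := by linarith only [hε, hL0nn, hx]
  have hx0 : 0 < x := by linarith only [hε, hsplit, hP1nn, hx]
  -- types
  set TT : Finset (Finset ι) := J.powerset.filter (fun T => i ∈ T) with hTT
  have hTTcard : (TT.card : ℝ) ≤ 2 ^ j := by
    have h1 : TT.card ≤ J.powerset.card := Finset.card_filter_le _ _
    rw [Finset.card_powerset, hJ] at h1
    exact_mod_cast h1
  set PT : Finset ι → Finset α := fun T => P1.filter (fun p => c p = T) with hPT
  set Cap : Finset ι → ℕ := fun T => if T = {i} then 1 else ⌊x * w ^ (T.card - 1)⌋₊ with hCap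
  have hcard1 : ∀ T ∈ TT, T ≠ {i} → 1 ≤ T.card - 1 := by
    intro T hT hne'
    rw [hTT, Finset.mem_filter] at hT
    have h1 : 1 < T.card := by
      by_contra hcon
      push Not at hcon
      apply hne'
      have h2 : T.card = 1 := le_antisymm hcon (Finset.card_pos.mpr ⟨i, hT.2⟩)
      obtain ⟨b, hb⟩ := Finset.card_eq_one.mp h2
      have h3 : i ∈ T := hT.2
      rw [hb, Finset.mem_singleton] at h3
      rw [hb, h3]
    omega
  have hbig : ∀ T ∈ TT, T ≠ {i} → 1 ≤ x * w ^ (T.card - 1) := by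
    intro T hT hne'
    have h1 := hcard1 T hT hne'
    have h2 : w ≤ w ^ (T.card - 1) := by
      calc w = w ^ 1 := (pow_one w).symm
        _ ≤ w ^ (T.card - 1) := pow_le_pow_right₀ hw1 h1
    calc (1 : ℝ) = ε / 2 * (2 / ε) := by field_simp
      _ ≤ x * w ^ (T.card - 1) := by
        apply mul_le_mul hxlo (le_trans hw2 h2) (by positivity) hx0.le
  have hCappos : ∀ T ∈ TT, 0 < Cap T := by
    intro T hT
    by_cases h : T = {i}
    · simp only [hCap, h, if_true]
      norm_num
    · simp only [hCap, h, if_false]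
      exact Nat.floor_pos.mpr (hbig T hT h)
  have hCaphi : ∀ T ∈ TT, T ≠ {i} → (Cap T : ℝ) ≤ x * w ^ (T.card - 1) := by
    intro T hT h
    simp only [hCap, h, if_false]
    exact Nat.floor_le (by positivity)
  -- δ
  have hδ : ∀ T ∈ TT, x * (1 - ε / 4) * w ^ (T.card - 1) ≤ (Cap T : ℝ) := by
    intro T hT
    by_cases h : T = {i}
    · simp only [hCap, h, if_true, Finset.card_singleton, Nat.sub_self, pow_zero, mul_one,
        Nat.cast_one]
      nlinarith only [hε, hL0nn, hx, hsplit, hP1nn]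
    · have h1 := hcard1 T hT h
      have h2 : w ≤ w ^ (T.card - 1) := by
        calc w = w ^ 1 := (pow_one w).symm
          _ ≤ w ^ (T.card - 1) := pow_le_pow_right₀ hw1 h1
      have h3 : x * w ^ (T.card - 1) - 1 ≤ (Cap T : ℝ) := by
        simp only [hCap, h, if_false]
        exact (Nat.sub_one_lt_floor _).le
      have h4 : 1 ≤ x * (ε / 4) * w ^ (T.card - 1) := by
        calc (1 : ℝ) = (ε / 2) * (ε / 4) * (8 / ε ^ 2) := by field_simp; norm_num
          _ ≤ x * (ε / 4) * w ^ (T.card - 1) := by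
            apply mul_le_mul _ (le_trans hw8 h2) (by positivity) (by positivity)
            apply mul_le_mul_of_nonneg_right hxlo (by positivity)
      nlinarith only [h3, h4]
  -- labels
  choose idx hidx1 hidx2 using fun T : Finset ι => exists_index (PT T)
  set nT : Finset ι → ℕ := fun T => (PT T).card / Cap T + 1 with hnT
  set Lab : Finset (Σ _ : Finset ι, ℕ) := TT.sigma (fun T => Finset.range (nT T)) with hLab
  have hsumPT : ∑ T ∈ TT, ((PT T).card : ℝ) / w ^ T.card = ∑ p ∈ P1, (1 : ℝ) / w ^ (c p).card := by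
    have hmaps : ∀ p ∈ P1, c p ∈ TT := by
      intro p hp
      rw [hP1, Finset.mem_filter] at hp
      rw [hTT, Finset.mem_filter, Finset.mem_powerset]
      exact ⟨hc p hp.1, hp.2⟩
    rw [← Finset.sum_fiberwise_of_maps_to hmaps]
    apply Finset.sum_congr rfl
    intro T _
    rw [Finset.sum_congr rfl (g := fun _ => (1 : ℝ) / w ^ T.card)]
    · rw [Finset.sum_const, nsmul_eq_mul]
      simp only [hPT]
      ring
    · intro p hp
      rw [(Finset.mem_filter.mp hp).2]
  have hLabcard : (Lab.card : ℝ) ≤ w - s := by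
    have h1 : (Lab.card : ℝ) = ∑ T ∈ TT, (nT T : ℝ) := by
      rw [hLab, Finset.card_sigma]
      push_cast
      apply Finset.sum_congr rfl
      intro T _
      rw [Finset.card_range]
    have hq : 0 < x * (1 - ε / 4) := by
      apply mul_pos hx0
      linarith only [hL0nn, hsplit, hP1nn]
    have h2 : ∀ T ∈ TT, (nT T : ℝ) ≤ w / (x * (1 - ε / 4)) * (((PT T).card : ℝ) / w ^ T.card) + 1 := by
      intro T hT
      have hcp : (0 : ℝ) < Cap T := by exact_mod_cast hCappos T hT
      have h3 : (((PT T).card / Cap T : ℕ) : ℝ) ≤ ((PT T).card : ℝ) / (Cap T : ℝ) := Nat.cast_div_le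
      have h4 : ((PT T).card : ℝ) / (Cap T : ℝ) ≤
          w / (x * (1 - ε / 4)) * (((PT T).card : ℝ) / w ^ T.card) := by
        have h5 : 1 ≤ T.card := by
          rw [hTT, Finset.mem_filter] at hT
          exact Finset.card_pos.mpr ⟨i, hT.2⟩
        have h6 : w ^ T.card = w * w ^ (T.card - 1) := by
          conv_lhs => rw [← Nat.sub_add_cancel h5]
          rw [pow_succ]
          ring
        have h7 : w / (x * (1 - ε / 4)) * (((PT T).card : ℝ) / w ^ T.card) =
            ((PT T).card : ℝ) / (x * (1 - ε / 4) * w ^ (T.card - 1)) := by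
          rw [h6]
          field_simp
        rw [h7]
        apply div_le_div_of_nonneg_left (by positivity) (by positivity) (hδ T hT)
      simp only [hnT]
      push_cast
      linarith only [h3, h4]
    have h3 : (Lab.card : ℝ) ≤ w / (x * (1 - ε / 4)) * (x - ε / 2) + 2 ^ j := by
      rw [h1]
      calc ∑ T ∈ TT, (nT T : ℝ)
          ≤ ∑ T ∈ TT, (w / (x * (1 - ε / 4)) * (((PT T).card : ℝ) / w ^ T.card) + 1) :=
            Finset.sum_le_sum h2
        _ = w / (x * (1 - ε / 4)) * (∑ T ∈ TT, ((PT T).card : ℝ) / w ^ T.card) + TT.card := by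
            rw [Finset.sum_add_distrib, Finset.mul_sum]
            simp
        _ ≤ _ := by
            apply add_le_add _ hTTcard
            apply mul_le_mul_of_nonneg_left _ (by positivity)
            rw [hsumPT]
            linarith only [hsplit, hx]
    have h4 : w / (x * (1 - ε / 4)) * (x - ε / 2) ≤ w * (1 - ε / 4) := by
      rw [div_mul_eq_mul_div, div_le_iff₀ hq]
      have h5 : x - ε / 2 ≤ (1 - ε / 4) * (x * (1 - ε / 4)) := by nlinarith
      calc w * (x - ε / 2) ≤ w * ((1 - ε / 4) * (x * (1 - ε / 4))) :=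
            mul_le_mul_of_nonneg_left h5 hw0.le
        _ = w * (1 - ε / 4) * (x * (1 - ε / 4)) := by ring
    have h5 : (s : ℝ) + 2 ^ j ≤ w * (ε / 4) := by
      have h6 : 4 * ((s : ℝ) + 2 ^ j) / ε * (ε / 4) = s + 2 ^ j := by
        field_simp
      rw [← h6]
      exact mul_le_mul_of_nonneg_right hw4 (by positivity)
    nlinarith only [h3, h4, h5]
  have hemb : Nonempty (Lab ↪ (Rᶜ : Finset A)) := by
    apply Function.Embedding.nonempty_of_card_le
    rw [Fintype.card_coe, Fintype.card_coe, Finset.card_compl]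
    have h1 : (Lab.card : ℝ) ≤ (Fintype.card A : ℝ) - s := hLabcard
    have h2 : Lab.card + s ≤ Fintype.card A := by
      have : ((Lab.card + s : ℕ) : ℝ) ≤ (Fintype.card A : ℝ) := by
        push_cast
        linarith only [hLabcard]
      exact_mod_cast this
    omega
  obtain ⟨φ⟩ := hemb
  have hlab : ∀ p ∈ P, i ∈ c p →
      (⟨c p, idx (c p) p / Cap (c p)⟩ : Σ _ : Finset ι, ℕ) ∈ Lab := by
    intro p hp hip
    rw [hLab, Finset.mem_sigma]
    refine ⟨?_, ?_⟩
    · rw [hTT, Finset.mem_filter, Finset.mem_powerset]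
      exact ⟨hc p hp, hip⟩
    · rw [Finset.mem_range]
      have h1 : p ∈ PT (c p) := by
        simp only [hPT, hP1, Finset.mem_filter]
        exact ⟨⟨hp, hip⟩, trivial⟩
      have h2 := hidx1 (c p) p h1
      have h3 : idx (c p) p / Cap (c p) ≤ (PT (c p)).card / Cap (c p) := Nat.div_le_div_right h2.le
      simp only [hnT]
      omega
  set t : α → A := fun p => if h : p ∈ P ∧ i ∈ c p then (φ ⟨_, hlab p h.1 h.2⟩ : A)
    else Classical.choice hne with ht
  have htval : ∀ p (hp : p ∈ P) (hip : i ∈ c p), t p = (φ ⟨_, hlab p hp hip⟩ : A) := by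
    intro p hp hip
    have h : p ∈ P ∧ i ∈ c p := ⟨hp, hip⟩
    simp only [ht]
    rw [dif_pos h]
  have htinj : ∀ p ∈ P, ∀ p' ∈ P, i ∈ c p → i ∈ c p' → t p = t p' →
      c p = c p' ∧ idx (c p) p / Cap (c p) = idx (c p') p' / Cap (c p') := by
    intro p hp p' hp' hip hip' htt
    rw [htval p hp hip, htval p' hp' hip'] at htt
    have h1 := φ.injective (Subtype.ext htt)
    have h2 := congrArg Subtype.val h1
    simp only [Sigma.mk.injEq, heq_eq_eq] at h2
    exact h2
  refine ⟨t, ?_, ?_, ?_, ?_⟩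
  · intro p hp hip
    rw [htval p hp hip]
    have h1 := (φ ⟨_, hlab p hp hip⟩).2
    exact Finset.mem_compl.mp h1
  · intro p hp p' hp' hip hip' htt
    exact (htinj p hp p' hp' hip hip' htt).1
  · intro p hp p' hp' hip hip' htt hci
    obtain ⟨h1, h2⟩ := htinj p hp p' hp' hip hip' htt
    rw [← h1] at h2
    have hcap : Cap (c p) = 1 := by
      simp only [hCap, hci, if_true]
    rw [hcap, Nat.div_one, Nat.div_one] at h2
    apply hidx2 (c p) _ _ h2
    · simp only [hPT, hP1, Finset.mem_coe, Finset.mem_filter]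
      exact ⟨⟨hp, hip⟩, trivial⟩
    · simp only [hPT, hP1, Finset.mem_coe, Finset.mem_filter]
      exact ⟨⟨hp', hip'⟩, h1.symm⟩
  · intro a ha
    -- split the points of the slice
    set Q : Finset α := P.filter (fun p => i ∈ c p ∧ t p = a) with hQ
    have hsum : ∑ p ∈ P.filter (fun p => i ∈ c p → t p = a),
        (1 : ℝ) / w ^ ((c p).erase i).card = L0 + ∑ p ∈ Q, (1 : ℝ) / w ^ ((c p).card - 1) := by
      have h1 : P.filter (fun p => i ∈ c p → t p = a) =
          P.filter (fun p => i ∉ c p) ∪ Q := by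
        ext p
        simp only [hQ, Finset.mem_filter, Finset.mem_union]
        tauto
      have h2 : Disjoint (P.filter (fun p => i ∉ c p)) Q := by
        rw [Finset.disjoint_left]
        intro p hp hq
        simp only [hQ, Finset.mem_filter] at hp hq
        exact hp.2 hq.2.1
      rw [h1, Finset.sum_union h2]
      congr 1
      · rw [hL0]
        apply Finset.sum_congr rfl
        intro p hp
        rw [Finset.erase_eq_of_notMem (Finset.mem_filter.mp hp).2]
      · apply Finset.sum_congr rfl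
        intro p hp
        rw [Finset.card_erase_of_mem (Finset.mem_filter.mp hp).2.1]
    rw [hsum]
    rcases Q.eq_empty_or_nonempty with hQe | ⟨p0, hp0⟩
    · rw [hQe, Finset.sum_empty]
      linarith only [hε, hsplit, hP1nn]
    · have hp0' : p0 ∈ P ∧ i ∈ c p0 ∧ t p0 = a := by
        simpa only [hQ, Finset.mem_filter] using hp0
      have hT : c p0 ∈ TT := by
        rw [hTT, Finset.mem_filter, Finset.mem_powerset]
        exact ⟨hc p0 hp0'.1, hp0'.2.1⟩
      have hTne : c p0 ≠ {i} := ha p0 hp0'.1 hp0'.2.1 hp0'.2.2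
      have hsame : ∀ p ∈ Q, c p = c p0 ∧
          idx (c p0) p / Cap (c p0) = idx (c p0) p0 / Cap (c p0) := by
        intro p hp
        simp only [hQ, Finset.mem_filter] at hp
        obtain ⟨h1, h2⟩ := htinj p hp.1 p0 hp0'.1 hp.2.1 hp0'.2.1 (hp.2.2.trans hp0'.2.2.symm)
        refine ⟨h1, ?_⟩
        rw [h1] at h2
        exact h2
      have hQcard : Q.card ≤ Cap (c p0) := by
        apply card_group Q (idx (c p0)) _ (Cap (c p0)) (idx (c p0) p0 / Cap (c p0))
          (hCappos _ hT) (fun p hp => (hsame p hp).2)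
        intro p hp q hq hpq
        apply hidx2 (c p0) _ _ hpq
        · have hp' := Finset.mem_coe.mp hp
          have h1 := (hsame p hp').1
          simp only [hQ, Finset.mem_filter] at hp'
          simp only [hPT, hP1, Finset.mem_coe, Finset.mem_filter]
          exact ⟨⟨hp'.1, hp'.2.1⟩, h1⟩
        · have hq' := Finset.mem_coe.mp hq
          have h1 := (hsame q hq').1
          simp only [hQ, Finset.mem_filter] at hq'
          simp only [hPT, hP1, Finset.mem_coe, Finset.mem_filter]
          exact ⟨⟨hq'.1, hq'.2.1⟩, h1⟩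
      have h1 : ∑ p ∈ Q, (1 : ℝ) / w ^ ((c p).card - 1) ≤ x := by
        calc ∑ p ∈ Q, (1 : ℝ) / w ^ ((c p).card - 1)
            = ∑ p ∈ Q, (1 : ℝ) / w ^ ((c p0).card - 1) := by
              apply Finset.sum_congr rfl
              intro p hp
              rw [(hsame p hp).1]
          _ = (Q.card : ℝ) * (1 / w ^ ((c p0).card - 1)) := by
              rw [Finset.sum_const, nsmul_eq_mul]
          _ ≤ (x * w ^ ((c p0).card - 1)) * (1 / w ^ ((c p0).card - 1)) := by
              apply mul_le_mul_of_nonneg_right _ (by positivity)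
              calc (Q.card : ℝ) ≤ (Cap (c p0) : ℝ) := by exact_mod_cast hQcard
                _ ≤ _ := hCaphi _ hT hTne
          _ = x := by
              have : w ^ ((c p0).card - 1) ≠ 0 := by positivity
              field_simp
      linarith only [hx, h1]

end Pool.Agent.H21.HD

end

section

/-!
# Derivations of the complex numbers

For a countable set `S` of complex numbers and every `k` there are complex numbers `t 0, …, t (k-1)`
and derivations of `ℂ` which vanish on `S` and are dual to them.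
-/

namespace Pool.Agent.V7.Top

open Module

/-- The derivations of `ℂ` which vanish on `S`. -/
noncomputable def Kd (S : Set ℂ) : Submodule ℂ (Derivation ℚ ℂ ℂ) where
  carrier := {D | ∀ x ∈ S, D x = 0}
  add_mem' := by
    intro D D' h h' x hx
    have h1 : D x = 0 := h x hx
    have h2 : D' x = 0 := h' x hx
    simp [h1, h2]
  zero_mem' := by
    intro x _
    rfl
  smul_mem' := by
    intro c D h x hx
    have h1 : D x = 0 := h x hx
    simp [h1]

theorem ext_lift {R A B : Type*} [CommRing R] [CommRing A] [CommRing B] [Algebra R A]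
    [Algebra.FormallySmooth R A] (φ : R →+* B) (π : B →+* A) (hπ : Function.Surjective π)
    (hker : ∀ r s, π r = 0 → π s = 0 → r * s = 0) (hcomp : ∀ r, π (φ r) = algebraMap R A r) :
    ∃ ψ : A →+* B, (∀ r, ψ (algebraMap R A r) = φ r) ∧ ∀ a, π (ψ a) = a := by
  let _ : Algebra R B := φ.toAlgebra
  let g : B →ₐ[R] A := { π with commutes' := fun r => hcomp r }
  have hg' : IsNilpotent (RingHom.ker (g : B →+* A)) := by
    refine ⟨2, ?_⟩
    rw [pow_two, Ideal.zero_eq_bot, eq_bot_iff, Ideal.mul_le]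
    intro r hr s hs
    rw [RingHom.mem_ker] at hr hs
    rw [Ideal.mem_bot]
    exact hker r s hr hs
  let f : A →ₐ[R] B := Algebra.FormallySmooth.liftOfSurjective (AlgHom.id R A) g hπ hg'
  refine ⟨f.toRingHom, fun r => f.commutes r, fun a => ?_⟩
  exact Algebra.FormallySmooth.liftOfSurjective_apply (AlgHom.id R A) g hπ hg' a

/-- The projection of the dual numbers. -/
noncomputable def ext_pi : TrivSqZeroExt ℂ ℂ →+* ℂ := (TrivSqZeroExt.fstHom ℂ ℂ ℂ).toRingHom

theorem ext_ker_nil (r s : TrivSqZeroExt ℂ ℂ) (hr : ext_pi r = 0) (hs : ext_pi s = 0) :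
    r * s = 0 := by
  have hr' : r.fst = 0 := hr
  have hs' : s.fst = 0 := hs
  apply TrivSqZeroExt.ext
  · simp [hr']
  · simp [hr', hs']

/-- A ring homomorphism to the dual numbers over the identity is a derivation. -/
theorem ext_toDer (ψ : ℂ →+* TrivSqZeroExt ℂ ℂ) (h : ∀ a, (ψ a).fst = a) :
    ∃ D : Derivation ℚ ℂ ℂ, ∀ a, D a = (ψ a).snd := by
  let L : ℂ →+ ℂ := { toFun := fun a => (ψ a).snd, map_zero' := by simp, map_add' := by simp }
  refine ⟨Derivation.mk' L.toRatLinearMap ?_, fun a => rfl⟩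
  intro a b
  show (ψ (a * b)).snd = a • (ψ b).snd + b • (ψ a).snd
  rw [map_mul, TrivSqZeroExt.snd_mul, h, h]
  simp [mul_comm]

open scoped IntermediateField.algebraAdjoinAdjoin in
/-- Derivations with arbitrary values on a transcendence basis. -/
theorem exists_der_basis {K : Type*} [Field K] [Algebra K ℂ] [CharZero K] {ι : Type*} {v : ι → ℂ}
    (hv : IsTranscendenceBasis K v) (a : ι → ℂ) :
    ∃ D : Derivation ℚ ℂ ℂ, (∀ x : K, D (algebraMap K ℂ x) = 0) ∧ ∀ i, D (v i) = a i := by
  have h1 : Algebra.FormallySmooth (Algebra.adjoin K (Set.range v))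
      (IntermediateField.adjoin K (Set.range v)) := .of_isLocalization (nonZeroDivisors _)
  have halg : Algebra.IsAlgebraic (IntermediateField.adjoin K (Set.range v)) ℂ :=
    hv.isAlgebraic_field
  have h2 : Algebra.FormallyEtale (IntermediateField.adjoin K (Set.range v)) ℂ :=
    Algebra.FormallyEtale.of_isSeparable _ _
  have h3 : Algebra.FormallySmooth (Algebra.adjoin K (Set.range v)) ℂ :=
    .comp _ (IntermediateField.adjoin K (Set.range v)) _
  let φ₀ : MvPolynomial ι K →ₐ[K] TrivSqZeroExt ℂ ℂ :=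
    MvPolynomial.aeval (fun i => TrivSqZeroExt.inl (v i) + TrivSqZeroExt.inr (a i))
  let φ : Algebra.adjoin K (Set.range v) →+* TrivSqZeroExt ℂ ℂ :=
    (φ₀.comp (hv.1.aevalEquiv.symm : _ →ₐ[K] MvPolynomial ι K)).toRingHom
  have hφ : ∀ p : MvPolynomial ι K, φ (hv.1.aevalEquiv p) = φ₀ p := by
    intro p
    show φ₀ (hv.1.aevalEquiv.symm (hv.1.aevalEquiv p)) = φ₀ p
    rw [AlgEquiv.symm_apply_apply]
  have hcomp : ∀ r, ext_pi (φ r) =
      algebraMap (Algebra.adjoin K (Set.range v)) ℂ r := by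
    intro r
    obtain ⟨p, rfl⟩ := hv.1.aevalEquiv.surjective r
    rw [hφ]
    have h4 : algebraMap (Algebra.adjoin K (Set.range v)) ℂ (hv.1.aevalEquiv p) =
        MvPolynomial.aeval v p := hv.1.algebraMap_aevalEquiv p
    rw [h4]
    have h5 : ((TrivSqZeroExt.fstHom K ℂ ℂ).comp φ₀) = MvPolynomial.aeval v := by
      apply MvPolynomial.algHom_ext
      intro i
      simp [φ₀]
    exact DFunLike.congr_fun h5 p
  obtain ⟨ψ, hψ1, hψ2⟩ := ext_lift φ ext_pi TrivSqZeroExt.fst_surjective ext_ker_nil hcomp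
  obtain ⟨D, hD⟩ := ext_toDer ψ hψ2
  refine ⟨D, ?_, ?_⟩
  · intro x
    rw [hD]
    have h6 : algebraMap K ℂ x = algebraMap (Algebra.adjoin K (Set.range v)) ℂ
        (hv.1.aevalEquiv (MvPolynomial.C x)) := by
      rw [hv.1.algebraMap_aevalEquiv, MvPolynomial.aeval_C]
    rw [h6, hψ1, hφ]
    simp only [φ₀, MvPolynomial.aeval_C]
    rfl
  · intro i
    rw [hD]
    have h6 : v i = algebraMap (Algebra.adjoin K (Set.range v)) ℂ
        (hv.1.aevalEquiv (MvPolynomial.X i)) := by
      rw [hv.1.algebraMap_aevalEquiv, MvPolynomial.aeval_X]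
    conv_lhs => rw [h6]
    rw [hψ1, hφ]
    simp [φ₀]

theorem exists_der (S : Set ℂ) (hS : S.Countable) (k : ℕ) :
    ∃ (t : Fin k → ℂ) (D : Fin k → Derivation ℚ ℂ ℂ), (∀ i, D i ∈ Kd S) ∧
      ∀ i j, D i (t j) = if i = j then 1 else 0 := by
  classical
  let K : Subfield ℂ := Subfield.closure S
  have hK : Cardinal.mk K ≤ Cardinal.aleph0 := by
    refine (Subfield.cardinalMk_closure_le_max S).trans ?_
    simp only [max_le_iff, le_refl, and_true]
    exact hS.le_aleph0
  obtain ⟨ι, v, hv⟩ := exists_isTranscendenceBasis' K ℂ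
  have hinf : Infinite ι := by
    by_contra hfin
    rw [not_infinite_iff_finite] at hfin
    have h1 := IsAlgClosed.cardinal_le_max_transcendence_basis' v hv
    have h2 : Cardinal.mk ι ≤ Cardinal.aleph0 := (Cardinal.lt_aleph0_of_finite ι).le
    have h3 : Cardinal.mk ℂ ≤ Cardinal.aleph0 := by
      refine h1.trans ?_
      simp only [max_le_iff, le_refl, and_true]
      exact ⟨hK, h2⟩
    rw [Cardinal.mk_complex] at h3
    exact absurd h3 (not_le.2 Cardinal.aleph0_lt_continuum)
  let e : Fin k ↪ ι := (Fin.valEmbedding).trans (Infinite.natEmbedding ι)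
  choose D hD1 hD2 using fun i : Fin k => exists_der_basis hv (Pi.single (e i) 1)
  refine ⟨fun j => v (e j), D, ?_, ?_⟩
  · intro i x hx
    exact hD1 i ⟨x, Subfield.subset_closure hx⟩
  · intro i j
    rw [hD2, Pi.single_apply]
    by_cases h : i = j
    · simp [h]
    · rw [if_neg h, if_neg]
      intro h'
      exact h (e.injective h').symm

end Pool.Agent.V7.Top

end

section

/-!
# Ranks of tuples of complex numbers with respect to derivations
-/

namespace Pool.Agent.V7.Top

open Module MvPolynomial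

theorem Kd_anti {S S' : Set ℂ} (h : S ⊆ S') : Kd S' ≤ Kd S := fun _ hD x hx => hD x (h hx)

/-- The values of a derivation on a tuple. -/
noncomputable def dv {ι : Type*} (y : ι → ℂ) : Derivation ℚ ℂ ℂ →ₗ[ℂ] (ι → ℂ) where
  toFun D := fun i => D (y i)
  map_add' _ _ := rfl
  map_smul' _ _ := rfl

@[simp] theorem dv_apply {ι : Type*} (y : ι → ℂ) (D : Derivation ℚ ℂ ℂ) (i : ι) :
    dv y D i = D (y i) := rfl

/-- The values on a tuple of the derivations which vanish on `S`. -/
noncomputable def im {ι : Type*} (S : Set ℂ) (y : ι → ℂ) : Submodule ℂ (ι → ℂ) :=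
  (Kd S).map (dv y)

/-- The number of independent values. -/
noncomputable def rk {ι : Type*} (S : Set ℂ) (y : ι → ℂ) : ℕ := finrank ℂ (im S y)

theorem rk_anti {ι : Type*} [Finite ι] {S S' : Set ℂ} (h : S ⊆ S') (y : ι → ℂ) :
    rk S' y ≤ rk S y :=
  Submodule.finrank_mono (Submodule.map_mono (Kd_anti h))

theorem rk_le_card {ι : Type*} [Fintype ι] (S : Set ℂ) (y : ι → ℂ) :
    rk S y ≤ Fintype.card ι := by
  refine (Submodule.finrank_le _).trans ?_
  simp

theorem Kd_inf_ker {ι : Type*} (S : Set ℂ) (y : ι → ℂ) :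
    Kd S ⊓ LinearMap.ker (dv y) = Kd (S ∪ Set.range y) := by
  ext D
  rw [Submodule.mem_inf, LinearMap.mem_ker]
  constructor
  · rintro ⟨h1, h2⟩ x (hx | ⟨i, rfl⟩)
    · exact h1 x hx
    · exact congrFun h2 i
  · intro h
    exact ⟨fun x hx => h x (Or.inl hx), funext fun i => h _ (Or.inr ⟨i, rfl⟩)⟩

theorem finrank_map_prod {V A B : Type*} [AddCommGroup V] [Module ℂ V] [AddCommGroup A]
    [Module ℂ A] [AddCommGroup B] [Module ℂ B] [FiniteDimensional ℂ A] [FiniteDimensional ℂ B]
    (P : Submodule ℂ V) (f : V →ₗ[ℂ] A) (g : V →ₗ[ℂ] B) :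
    finrank ℂ (P.map (f.prod g)) =
      finrank ℂ (P.map f) + finrank ℂ ((P ⊓ LinearMap.ker f).map g) := by
  set Q := P.map (f.prod g) with hQ
  have h1 := LinearMap.finrank_range_add_finrank_ker ((LinearMap.fst ℂ A B).domRestrict Q)
  rw [← h1]
  congr 1
  · have h3 : LinearMap.range ((LinearMap.fst ℂ A B).domRestrict Q) = P.map f := by
      rw [LinearMap.range_domRestrict, hQ, ← Submodule.map_comp]
      rfl
    rw [h3]
  · have h2 : (LinearMap.ker ((LinearMap.fst ℂ A B).domRestrict Q)).map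
        ((LinearMap.snd ℂ A B).domRestrict Q) = (P ⊓ LinearMap.ker f).map g := by
      ext y
      constructor
      · rintro ⟨⟨q, hq⟩, hq1, rfl⟩
        obtain ⟨v, hv, rfl⟩ := hq
        refine ⟨v, ⟨hv, ?_⟩, rfl⟩
        exact hq1
      · rintro ⟨v, ⟨hv, hv2⟩, rfl⟩
        refine ⟨⟨(f.prod g) v, Submodule.mem_map_of_mem hv⟩, ?_, rfl⟩
        exact hv2
    have h4 : LinearMap.range (((LinearMap.snd ℂ A B).domRestrict Q).domRestrict
        (LinearMap.ker ((LinearMap.fst ℂ A B).domRestrict Q))) = (P ⊓ LinearMap.ker f).map g := by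
      rw [LinearMap.range_domRestrict, h2]
    rw [← h4]
    symm
    apply LinearMap.finrank_range_of_inj
    intro x y hxy
    apply Subtype.ext
    apply Subtype.ext
    apply Prod.ext
    · have hx : (x : Q).1.1 = 0 := x.2
      have hy : (y : Q).1.1 = 0 := y.2
      rw [hx, hy]
    · exact hxy

theorem rk_joint {ι κ : Type*} [Finite ι] [Finite κ] (S : Set ℂ) (y : ι → ℂ) (y' : κ → ℂ) :
    finrank ℂ ((Kd S).map ((dv y).prod (dv y'))) = rk S y + rk (S ∪ Set.range y) y' := by
  rw [finrank_map_prod, Kd_inf_ker]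
  rfl

theorem rk_le_add {ι κ : Type*} [Finite ι] [Finite κ] (S : Set ℂ) (y : ι → ℂ) (y' : κ → ℂ) :
    rk S y' ≤ rk S y + rk (S ∪ Set.range y) y' := by
  rw [← rk_joint]
  have h : im S y' = ((Kd S).map ((dv y).prod (dv y'))).map (LinearMap.snd ℂ (ι → ℂ) (κ → ℂ)) := by
    rw [← Submodule.map_comp]
    rfl
  rw [rk, h]
  exact Submodule.finrank_map_le _ _

/-- A subspace of a space of functions has a basis in echelon form. -/
theorem exists_pivot {ι : Type*} [Finite ι] (W : Submodule ℂ (ι → ℂ)) :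
    ∃ (a : Fin (finrank ℂ W) → ι) (b : Fin (finrank ℂ W) → ι → ℂ), Function.Injective a ∧
      (∀ k, b k ∈ W) ∧ (∀ k k', b k (a k') = if k = k' then 1 else 0) ∧
      ∀ w ∈ W, w = ∑ k, w (a k) • b k := by
  classical
  let φ : ι → Dual ℂ W := fun i => (LinearMap.proj i).comp W.subtype
  have hspan : Submodule.span ℂ (Set.range φ) = ⊤ := by
    by_contra hne
    obtain ⟨x, hx0, hx⟩ : ∃ x : W, x ≠ 0 ∧ ∀ f ∈ Submodule.span ℂ (Set.range φ), f x = 0 := by
      by_contra hcon
      push Not at hcon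
      apply hne
      have h1 : (Submodule.span ℂ (Set.range φ)).dualCoannihilator = ⊥ := by
        rw [eq_bot_iff]
        intro x hx
        rw [Submodule.mem_bot]
        by_contra hx0
        obtain ⟨f, hf, hf'⟩ := hcon x hx0
        rw [Submodule.mem_dualCoannihilator] at hx
        exact hf' (hx f hf)
      have h2 := Subspace.dualCoannihilator_dualAnnihilator_eq
        (W := Submodule.span ℂ (Set.range φ))
      rw [← h2, h1, Submodule.dualAnnihilator_bot]
    apply hx0
    apply Subtype.ext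
    funext i
    exact hx (φ i) (Submodule.subset_span ⟨i, rfl⟩)
  obtain ⟨κ, a, ha, hsp, hli⟩ := exists_linearIndependent' ℂ φ
  rw [hspan] at hsp
  have : Finite κ := Finite.of_injective a ha
  have : Fintype κ := Fintype.ofFinite κ
  let B : Basis κ ℂ (Dual ℂ W) := Basis.mk hli hsp.ge
  have hcard : Fintype.card κ = finrank ℂ W := by
    rw [← finrank_eq_card_basis B, Subspace.dual_finrank_eq]
  let Φ : W →ₗ[ℂ] (κ → ℂ) := LinearMap.pi fun k => φ (a k)
  have hinj : Function.Injective Φ := by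
    rw [← LinearMap.ker_eq_bot, eq_bot_iff]
    intro x hx
    rw [Submodule.mem_bot]
    rw [LinearMap.mem_ker] at hx
    have h1 : ∀ f ∈ Submodule.span ℂ (Set.range (φ ∘ a)), f x = 0 := by
      intro f hf
      induction hf using Submodule.span_induction with
      | mem f hf =>
        obtain ⟨k, rfl⟩ := hf
        exact congrFun hx k
      | zero => rfl
      | add f g _ _ h1 h2 => rw [LinearMap.add_apply, h1, h2, add_zero]
      | smul c f _ h1 => rw [LinearMap.smul_apply, h1, smul_zero]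
    apply Subtype.ext
    funext i
    apply h1 (φ i)
    rw [hsp]
    trivial
  have hfr : finrank ℂ W = finrank ℂ (κ → ℂ) := by
    rw [finrank_fintype_fun_eq_card, hcard]
  let e : W ≃ₗ[ℂ] (κ → ℂ) := LinearEquiv.ofInjectiveOfFinrankEq Φ hinj hfr
  let r : Fin (finrank ℂ W) ≃ κ := (Fintype.equivFinOfCardEq hcard).symm
  have he : ∀ (w : W) (k : κ), e w k = (w : ι → ℂ) (a k) := fun w k => rfl
  have hb : ∀ k k', ((e.symm (Pi.single (r k) 1) : W) : ι → ℂ) (a (r k')) =
      if k = k' then 1 else 0 := by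
    intro k k'
    rw [← he, LinearEquiv.apply_symm_apply, Pi.single_apply]
    by_cases h : k = k'
    · simp [h]
    · rw [if_neg h, if_neg]
      intro h'
      exact h (r.injective h').symm
  refine ⟨fun k => a (r k), fun k => ((e.symm (Pi.single (r k) 1) : W) : ι → ℂ), ?_, ?_, hb, ?_⟩
  · exact ha.comp r.injective
  · intro k
    exact (e.symm _).2
  · intro w hw
    have h1 : (⟨w, hw⟩ : W) = ∑ k, w (a (r k)) • e.symm (Pi.single (r k) 1) := by
      apply e.injective
      rw [map_sum]
      funext k'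
      obtain ⟨k'', rfl⟩ := r.surjective k'
      rw [he, Finset.sum_apply]
      simp only [map_smul, LinearEquiv.apply_symm_apply, Pi.smul_apply, Pi.single_apply,
        smul_eq_mul, mul_ite, mul_one, mul_zero, EmbeddingLike.apply_eq_iff_eq]
      simp
    have h2 := congrArg (Subtype.val) h1
    simp only [Submodule.coe_sum, Submodule.coe_smul] at h2
    exact h2

/-- The echelon basis of a subspace which is stable under derivations consists of constants. -/
theorem pivot_const {ι : Type*} [Finite ι] {S : Set ℂ} {W : Submodule ℂ (ι → ℂ)}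
    (hW : ∀ D ∈ Kd S, ∀ w ∈ W, (fun i => D (w i)) ∈ W)
    {a : Fin (finrank ℂ W) → ι} {b : Fin (finrank ℂ W) → ι → ℂ} (hb : ∀ k, b k ∈ W)
    (hab : ∀ k k', b k (a k') = if k = k' then 1 else 0) (hs : ∀ w ∈ W, w = ∑ k, w (a k) • b k)
    (k : Fin (finrank ℂ W)) (i : ι) (D : Derivation ℚ ℂ ℂ) (hD : D ∈ Kd S) : D (b k i) = 0 := by
  have h1 := hs _ (hW D hD _ (hb k))
  have h2 : ∀ k', D (b k (a k')) = 0 := by
    intro k'
    rw [hab]
    split_ifs
    · exact D.map_one_eq_zero
    · exact map_zero D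
  have h3 := congrFun h1 i
  rw [h3, Finset.sum_apply]
  apply Finset.sum_eq_zero
  intro k' _
  rw [Pi.smul_apply, h2, zero_smul]

theorem exists_const {ι : Type*} [Finite ι] {S : Set ℂ} {W : Submodule ℂ (ι → ℂ)}
    (hW : ∀ D ∈ Kd S, ∀ w ∈ W, (fun i => D (w i)) ∈ W) (h0 : W ≠ ⊥) :
    ∃ w ∈ W, w ≠ 0 ∧ ∀ D ∈ Kd S, ∀ i, D (w i) = 0 := by
  obtain ⟨a, b, ha, hb, hab, hs⟩ := exists_pivot W
  have hpos : 0 < finrank ℂ W := by
    rw [pos_iff_ne_zero]
    intro h
    exact h0 (Submodule.finrank_eq_zero.1 h)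
  refine ⟨b ⟨0, hpos⟩, hb _, ?_, fun D hD i => pivot_const hW hb hab hs _ i D hD⟩
  intro h
  have h1 := hab ⟨0, hpos⟩ ⟨0, hpos⟩
  rw [h] at h1
  simp at h1

end Pool.Agent.V7.Top

end

section

/-!
# The chain rule for polynomials, and values at independent points
-/

namespace Pool.Agent.V7.Top

open MvPolynomial

variable {σ : Type*}

/-- A derivation applied to the coefficients of a polynomial. -/
noncomputable def Dc (D : Derivation ℚ ℂ ℂ) (p : MvPolynomial σ ℂ) : MvPolynomial σ ℂ :=
  ∑ α ∈ p.support, monomial α (D (coeff α p))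

theorem coeff_Dc (D : Derivation ℚ ℂ ℂ) (p : MvPolynomial σ ℂ) (α : σ →₀ ℕ) :
    coeff α (Dc D p) = D (coeff α p) := by
  classical
  rw [Dc, coeff_sum]
  simp only [coeff_monomial]
  rw [Finset.sum_ite_eq' p.support α]
  split_ifs with h
  · rfl
  · rw [notMem_support_iff.1 h, map_zero]

theorem Dc_add (D : Derivation ℚ ℂ ℂ) (p q : MvPolynomial σ ℂ) :
    Dc D (p + q) = Dc D p + Dc D q := by
  ext α
  simp [coeff_Dc]

theorem Dc_C (D : Derivation ℚ ℂ ℂ) (a : ℂ) : Dc D (C a : MvPolynomial σ ℂ) = C (D a) := by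
  classical
  ext α
  rw [coeff_Dc, coeff_C, coeff_C]
  split_ifs
  · rfl
  · exact map_zero D

theorem Dc_mul_X (D : Derivation ℚ ℂ ℂ) (p : MvPolynomial σ ℂ) (i : σ) :
    Dc D (p * X i) = Dc D p * X i := by
  classical
  ext α
  rw [coeff_Dc, coeff_mul_X', coeff_mul_X']
  split_ifs
  · rw [coeff_Dc]
  · exact map_zero D

/-- The chain rule. -/
theorem chain [Fintype σ] (D : Derivation ℚ ℂ ℂ) (x : σ → ℂ) (p : MvPolynomial σ ℂ) :
    D (eval x p) = eval x (Dc D p) + ∑ i, eval x (pderiv i p) * D (x i) := by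
  classical
  induction p using MvPolynomial.induction_on with
  | C a => simp [Dc_C]
  | add p q hp hq =>
    rw [map_add, map_add, hp, hq, Dc_add, map_add]
    simp only [map_add, add_mul, Finset.sum_add_distrib]
    ring
  | mul_X p j hp =>
    have h0 : eval x (p * X j) = eval x p * x j := by rw [map_mul, eval_X]
    have h0' : eval x (Dc D p * X j) = eval x (Dc D p) * x j := by rw [map_mul, eval_X]
    rw [Dc_mul_X, h0, h0', Derivation.leibniz, hp]
    have h1 : ∀ i, eval x (pderiv i (p * X j)) * D (x i) =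
        x j * (eval x (pderiv i p) * D (x i)) + if i = j then eval x p * D (x j) else 0 := by
      intro i
      rw [pderiv_mul, map_add, map_mul, map_mul, eval_X, pderiv_X]
      by_cases h : i = j
      · subst h
        simp
        ring
      · simp [h]
        ring
    simp only [h1, Finset.sum_add_distrib, ← Finset.mul_sum, Finset.sum_ite_eq',
      Finset.mem_univ, if_true, smul_eq_mul]
    ring

theorem Dc_eq_zero {D : Derivation ℚ ℂ ℂ} {p : MvPolynomial σ ℂ} (h : ∀ α, D (coeff α p) = 0) :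
    Dc D p = 0 := by
  ext α
  rw [coeff_Dc, h, coeff_zero]

theorem pderiv_const {D : Derivation ℚ ℂ ℂ} {p : MvPolynomial σ ℂ}
    (h : ∀ α, D (coeff α p) = 0) (i : σ) (α : σ →₀ ℕ) : D (coeff α (pderiv i p)) = 0 := by
  rw [coeff_pderiv, Derivation.leibniz, h]
  have h1 : D ((α i : ℂ) + 1) = 0 := by
    have h2 : ((α i : ℂ) + 1) = ((α i + 1 : ℕ) : ℂ) := by push_cast; rfl
    rw [h2]
    exact D.map_natCast _
  rw [h1]
  simp

/-- A polynomial all of whose derivatives vanish is constant. -/
theorem eq_C_of_pderiv [Fintype σ] {p : MvPolynomial σ ℂ} (h : ∀ i, pderiv i p = 0) :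
    p = C (coeff 0 p) := by
  classical
  ext α
  rw [coeff_C]
  split_ifs with h0
  · rw [h0]
  · obtain ⟨i, hi⟩ : ∃ i, α i ≠ 0 := by
      by_contra hcon
      push Not at hcon
      apply h0
      ext i
      rw [hcon i]
      rfl
    have h1 : coeff (α - Finsupp.single i 1) (pderiv i p) = 0 := by rw [h i, coeff_zero]
    rw [coeff_pderiv] at h1
    have h2 : α - Finsupp.single i 1 + Finsupp.single i 1 = α := by
      apply tsub_add_cancel_of_le
      rw [Finsupp.single_le_iff]
      omega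
    rw [h2] at h1
    rcases mul_eq_zero.1 h1 with h3 | h3
    · exact h3
    · exfalso
      have h4 : ((((α - Finsupp.single i 1 : σ →₀ ℕ) i + 1 : ℕ)) : ℂ) = 0 := by
        push_cast
        exact h3
      exact absurd (Nat.cast_eq_zero.1 h4) (Nat.succ_ne_zero _)

theorem pderiv_comm (i j : σ) (p : MvPolynomial σ ℂ) :
    pderiv i (pderiv j p) = pderiv j (pderiv i p) := by
  classical
  ext α
  rw [coeff_pderiv, coeff_pderiv, coeff_pderiv, coeff_pderiv, add_right_comm]
  by_cases h : i = j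
  · rw [h]
  · have h1 : (α + Finsupp.single i 1 : σ →₀ ℕ) j = α j := by
      rw [Finsupp.add_apply, Finsupp.single_eq_of_ne (Ne.symm h), add_zero]
    have h2 : (α + Finsupp.single j 1 : σ →₀ ℕ) i = α i := by
      rw [Finsupp.add_apply, Finsupp.single_eq_of_ne h, add_zero]
    rw [h1, h2]
    ring

theorem totalDegree_pderiv_lt' {p : MvPolynomial σ ℂ} (i : σ) (h : pderiv i p ≠ 0) :
    (pderiv i p).totalDegree < p.totalDegree := by
  classical
  obtain ⟨α, hα, hd⟩ : ∃ α ∈ (pderiv i p).support,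
      (α.sum fun _ e => e) = (pderiv i p).totalDegree := by
    have h1 : (pderiv i p).support.Nonempty := by
      rw [Finset.nonempty_iff_ne_empty, Ne, support_eq_empty]
      exact h
    obtain ⟨α, hα, h2⟩ := Finset.exists_mem_eq_sup (pderiv i p).support h1
      (fun s => s.sum fun _ e => e)
    exact ⟨α, hα, h2.symm⟩
  rw [mem_support_iff, coeff_pderiv] at hα
  have h3 : coeff (α + Finsupp.single i 1) p ≠ 0 := left_ne_zero_of_mul hα
  have h4 := le_totalDegree (mem_support_iff.2 h3)
  rw [Finsupp.sum_add_index' (fun _ => rfl) (fun _ _ _ => rfl),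
    Finsupp.sum_single_index rfl] at h4
  omega

/-- A polynomial with constant coefficients, in independent variables, does not vanish. -/
theorem gen_eval [Fintype σ] [DecidableEq σ] {S : Set ℂ} (J : Finset σ) (x : σ → ℂ)
    (Dl : σ → Derivation ℚ ℂ ℂ) (hD : ∀ i ∈ J, Dl i ∈ Kd S)
    (hx : ∀ i ∈ J, ∀ i' ∈ J, Dl i (x i') = if i = i' then 1 else 0) (n : ℕ) :
    ∀ p : MvPolynomial σ ℂ, p.totalDegree ≤ n → (∀ α, ∀ D ∈ Kd S, D (coeff α p) = 0) →
      (∀ i ∉ J, pderiv i p = 0) → eval x p = 0 → p = 0 := by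
  classical
  induction n with
  | zero =>
    intro p hp _ _ h0
    rw [totalDegree_eq_zero_iff_eq_C.1 (Nat.le_zero.1 hp)] at h0 ⊢
    rw [eval_C] at h0
    rw [h0, C_0]
  | succ n ih =>
    intro p hp hc hv h0
    have h1 : ∀ i, pderiv i p = 0 := by
      intro i
      by_cases hi : i ∈ J
      · by_contra hne
        apply hne
        apply ih
        · have := totalDegree_pderiv_lt' i hne
          omega
        · intro α D hD'
          exact pderiv_const (fun β => hc β D hD') i α
        · intro j hj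
          rw [pderiv_comm, hv j hj, map_zero]
        · have h2 := chain (Dl i) x p
          rw [h0, map_zero, Dc_eq_zero (fun α => hc α _ (hD i hi)), map_zero, zero_add] at h2
          rw [Finset.sum_eq_single i] at h2
          · rw [hx i hi i hi, if_pos rfl, mul_one] at h2
            exact h2.symm
          · intro j _ hj
            by_cases hjJ : j ∈ J
            · rw [hx i hi j hjJ, if_neg (Ne.symm hj), mul_zero]
            · rw [hv j hjJ, map_zero, zero_mul]
          · intro h
            exact absurd (Finset.mem_univ i) h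
      · exact hv i hi
    rw [eq_C_of_pderiv h1] at h0 ⊢
    rw [eval_C] at h0
    rw [h0, C_0]

end Pool.Agent.V7.Top

end
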