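import Pool.Agent.H94.LP7.M16
import Pool.Agent.H94.LP7.M24
import Pool.Agent.H94.LP7.M40
import Pool.Agent.H94.LP7.M44

/-! The parts of this file: GD.AL.BT0, GD.AL.BTs, GD.AL.Prod, GD.AL.BTb, GD.AL.BTw. -/

section

/-!
# General d, ALPHA: the finite systems, the pairs `(I', |I'|)`

`BTS`: the states of `BT`.  `V_ord_low`: at the pairs `(I', |I'|)` only the objects with `|I' \ A| = x` have
an effect; `bt_unif`: constants for finitely many degrees.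
-/

set_option autoImplicit false

namespace Pool.Agent.GD.AL

open Finset

/-- The states of the finite systems. -/
structure BTS (d J i : ℕ) (c0 : ℕ → ℕ) (η : ℝ) (K W : ℕ) (I : Finset ℕ) (σ : St) : Prop where
  hI : I ⊆ range J
  hK : ∀ l ∈ I, K ≤ c0 l
  hc : ∀ l, σ.c l ≤ c0 l
  adm : ∀ k ∈ σ.ms, AdmO d J k
  hT : ∀ x A, .ord x A ∈ σ.ms → (I \ A).card = x → I \ A ⊆ Ico i J
  hV : ∀ I' ⊆ I, η * ∏ l ∈ I', (c0 l : ℝ) ≤ (σ.V J I' I'.card : ℝ)
  hw : W + d * σ.ms.card ≤ σ.w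

section low

variable {d J : ℕ} {σ : St} {I : Finset ℕ}

/-- The effect of an object at the pairs `(I, |I|)`. -/
theorem V_ord_low (hI : I ⊆ range J) (hm : ∀ k ∈ σ.ms, AdmO d J k) {x : ℕ} {A : Finset ℕ}
    (hx : 1 ≤ x) (hA : (range J \ A).card ≤ x) :
    (σ.ad (.ord x A)).V J I I.card =
      σ.V J I I.card - if (I \ A).card = x then σ.V J (I ∩ A) (I ∩ A).card else 0 := by
  have h1 := card_inter_add_card_sdiff I A
  have h2 : (I \ A).card ≤ x := (card_le_card (sdiff_subset_sdiff hI subset_rfl)).trans hA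
  rcases Nat.lt_or_ge I.card x with h3 | h3
  · rw [St.V_ord_lt A h3, if_neg (by omega), sub_zero]
  · rw [St.V_ord A h3]
    by_cases h4 : (I \ A).card = x
    · rw [if_pos h4]
      have h5 : I.card - x = (I ∩ A).card := by omega
      rw [h5]
    · rw [if_neg h4, St.V_low (inter_subset_left.trans hI) hm (by omega)]

theorem AdmO.x_pos {k : Kd} {x : ℕ} {A : Finset ℕ} (h : AdmO d J k) (hk : k = .ord x A) :
    1 ≤ x ∧ x ≤ d ∧ A ⊆ range J ∧ (range J \ A).card ≤ x := by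
  obtain ⟨y, B, h1, h2, h3, h4, h5⟩ := h
  rw [hk] at h1
  cases h1
  exact ⟨h2, h3, h4, h5⟩

/-- Fewer objects: larger values at the pairs `(I, |I|)`. -/
theorem V_sub_low (hI : I ⊆ range J) (hm : ∀ k ∈ σ.ms, AdmO d J k)
    (h0 : ∀ I' ⊆ I, 0 ≤ σ.V J I' I'.card) : ∀ (N : ℕ), ∀ I' ⊆ I, I'.card ≤ N → ∀ S ≤ σ.ms,
      σ.V J I' I'.card ≤ (σ.wm S).V J I' I'.card := by
  intro N
  induction N using Nat.strong_induction_on with
  | _ N ih =>
    intro I' hI' hN S hS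
    obtain ⟨u, hu⟩ := Multiset.le_iff_exists_add.1 hS
    have key : ∀ u S : Multiset Kd, S + u ≤ σ.ms →
        (σ.wm (S + u)).V J I' I'.card ≤ (σ.wm S).V J I' I'.card := by
      intro u
      induction u using Multiset.induction_on with
      | empty =>
        intro S _
        rw [Multiset.add_zero]
      | cons k u ihu =>
        intro S hS
        rw [Multiset.add_cons] at hS ⊢
        refine le_trans ?_ (ihu S (le_trans (Multiset.le_cons_self _ _) hS))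
        obtain ⟨x, A, rfl, h1, h2, h3, h4⟩ := hm k (Multiset.mem_of_le hS (Multiset.mem_cons_self _ _))
        have h5 := V_ord_low (σ := σ.wm (S + u)) (hI'.trans hI) (fun k hk => hm k
          (Multiset.mem_of_le (le_trans (Multiset.le_cons_self _ _) hS) hk)) h1 h4
        have h6 : (σ.wm (S + u)).ad (.ord x A) = σ.wm (.ord x A ::ₘ (S + u)) := rfl
        rw [h6] at h5
        rw [h5]
        by_cases h7 : (I' \ A).card = x
        · rw [if_pos h7]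
          have h8 := card_inter_add_card_sdiff I' A
          have h9 := ih (I' ∩ A).card (by omega) (I' ∩ A) (inter_subset_left.trans hI') le_rfl
            (S + u) (le_trans (Multiset.le_cons_self _ _) hS)
          have h10 := h0 (I' ∩ A) (inter_subset_left.trans hI')
          omega
        · rw [if_neg h7]
          omega
    have h1 := key u S (le_of_eq hu.symm)
    rw [← hu] at h1
    exact h1

theorem V_nil_le (c : ℕ → ℕ) (w : ℕ) (hI : I ⊆ range J) :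
    (St.mk c w 0).V J I I.card ≤ ∏ l ∈ I, (c l : ℤ) := by
  have h1 : ∑ i ∈ I, c i ≤ (St.mk c w 0).n J := by
    unfold St.n
    exact (sum_le_sum_of_subset hI).trans (Nat.le_add_right _ _)
  have h2 := vd_empty_le I.card h1
  rw [Nat.sub_self, pow_zero, mul_one] at h2
  exact h2

theorem V_le_prod (hI : I ⊆ range J) (hm : ∀ k ∈ σ.ms, AdmO d J k)
    (h0 : ∀ I' ⊆ I, 0 ≤ σ.V J I' I'.card) {I' : Finset ℕ} (hI' : I' ⊆ I) :
    σ.V J I' I'.card ≤ ∏ l ∈ I', (σ.c l : ℤ) :=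
  (V_sub_low hI hm h0 _ I' hI' le_rfl 0 (Multiset.zero_le _)).trans
    (V_nil_le σ.c σ.w (hI'.trans hI))

theorem lo_zero (σ : St) (a : ℕ) : σ.lo a 0 = σ := by
  unfold St.lo
  rw [Nat.sub_zero, Function.update_eq_self]

theorem V_lw_low (hI : I ⊆ range J) (hm : ∀ k ∈ σ.ms, AdmO d J k) (hw : 1 ≤ σ.w) :
    (σ.lw 1).V J I I.card = σ.V J I I.card := by
  rcases Nat.eq_zero_or_pos I.card with h | h
  · rw [h]
    exact vd_deg_zero _ _ _ _ _ _
  · obtain ⟨D, hD⟩ : ∃ D, I.card = D + 1 := ⟨I.card - 1, by omega⟩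
    rw [hD, St.V_lw hI hw, St.V_low hI hm (D := D) (by omega), sub_zero]

theorem V_lo_low' {a : ℕ} (ha : a ∉ I) (haJ : a < J) (hI : I ⊆ range J)
    (hm : ∀ k ∈ σ.ms, AdmO d J k) (hc : 1 ≤ σ.c a) :
    (σ.lo a 1).V J I I.card = σ.V J I I.card := by
  rcases Nat.eq_zero_or_pos I.card with h | h
  · rw [h]
    exact vd_deg_zero _ _ _ _ _ _
  · obtain ⟨D, hD⟩ : ∃ D, I.card = D + 1 := ⟨I.card - 1, by omega⟩
    rw [hD, St.V_lo' ha haJ hI hc, St.V_low hI hm (D := D) (by omega), sub_zero]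

theorem V_lo_low {a : ℕ} (ha : a ∈ I) (hI : I ⊆ range J) (hc : 1 ≤ σ.c a) :
    (σ.lo a 1).V J I I.card = σ.V J I I.card - σ.V J (I.erase a) (I.erase a).card := by
  have h1 := card_erase_of_mem ha
  have h2 : 0 < I.card := card_pos.2 ⟨a, ha⟩
  obtain ⟨D, hD⟩ : ∃ D, I.card = D + 1 := ⟨I.card - 1, by omega⟩
  have h3 : (I.erase a).card = D := by omega
  rw [hD, h3, St.V_lo ha hI hc]

end low

namespace BTS

variable {d J i : ℕ} {c0 : ℕ → ℕ} {η : ℝ} {K W : ℕ} {I : Finset ℕ} {σ : St}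

theorem prod_nonneg (c0 : ℕ → ℕ) (I' : Finset ℕ) : 0 ≤ ∏ l ∈ I', (c0 l : ℝ) :=
  Finset.prod_nonneg fun _ _ => Nat.cast_nonneg _

theorem V0 (h : BTS d J i c0 η K W I σ) (hη : 0 ≤ η) : ∀ I' ⊆ I, 0 ≤ σ.V J I' I'.card := by
  intro I' hI'
  have h1 := h.hV I' hI'
  have h2 := mul_nonneg hη (prod_nonneg c0 I')
  exact_mod_cast h2.trans h1

theorem Vle (h : BTS d J i c0 η K W I σ) (hη : 0 ≤ η) {I' : Finset ℕ} (hI' : I' ⊆ I) :
    (σ.V J I' I'.card : ℝ) ≤ ∏ l ∈ I', (σ.c l : ℝ) := by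
  have h1 := V_le_prod h.hI h.adm (h.V0 hη) hI'
  exact_mod_cast h1

theorem Vle' (h : BTS d J i c0 η K W I σ) (hη : 0 ≤ η) {I' : Finset ℕ} (hI' : I' ⊆ I) :
    (σ.V J I' I'.card : ℝ) ≤ ∏ l ∈ I', (c0 l : ℝ) :=
  (h.Vle hη hI').trans (prod_le_prod (fun _ _ => Nat.cast_nonneg _) fun l _ =>
    Nat.cast_le.2 (h.hc l))

theorem c_ge (h : BTS d J i c0 η K W I σ) (hη : 0 ≤ η) {a : ℕ} (ha : a ∈ I) :
    η * c0 a ≤ σ.c a := by
  have h1 := h.hV {a} (singleton_subset_iff.2 ha)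
  have h2 := h.Vle hη (singleton_subset_iff.2 ha)
  rw [prod_singleton] at h1 h2
  exact h1.trans h2

theorem T_sub {I' : Finset ℕ} (hI' : I' ⊆ I) (hI : I ⊆ range J)
    (hT : ∀ x A, .ord x A ∈ σ.ms → (I \ A).card = x → I \ A ⊆ Ico i J)
    (hm : ∀ k ∈ σ.ms, AdmO d J k) :
    ∀ x A, .ord x A ∈ σ.ms → (I' \ A).card = x → I' \ A ⊆ Ico i J := by
  intro x A hk hc
  obtain ⟨-, -, -, h4⟩ := (hm _ hk).x_pos rfl
  have h1 : (I \ A).card ≤ x := (card_le_card (sdiff_subset_sdiff hI subset_rfl)).trans h4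
  have h2 : I' \ A ⊆ I \ A := sdiff_subset_sdiff hI' subset_rfl
  have h3 := card_le_card h2
  exact h2.trans (hT x A hk (by omega))

/-- Smaller levels. -/
theorem lev (h : BTS d J i c0 η K W I σ) {I' : Finset ℕ} (hI' : I' ⊆ I) :
    BTS d J i c0 η K W I' σ :=
  ⟨hI'.trans h.hI, fun l hl => h.hK l (hI' hl), h.hc, h.adm, T_sub hI' h.hI h.hT h.adm,
    fun I'' hI'' => h.hV I'' (hI''.trans hI'), h.hw⟩

/-- Weaker constants. -/
theorem weak (h : BTS d J i c0 η K W I σ) {η' : ℝ} {K' W' : ℕ} (h1 : η' ≤ η) (h2 : K' ≤ K)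
    (h3 : W' ≤ W) : BTS d J i c0 η' K' W' I σ :=
  ⟨h.hI, fun l hl => h2.trans (h.hK l hl), h.hc, h.adm, h.hT, fun I' hI' =>
    (mul_le_mul_of_nonneg_right h1 (prod_nonneg c0 I')).trans (h.hV I' hI'),
    (Nat.add_le_add_right h3 _).trans h.hw⟩

/-- Fewer objects. -/
theorem sub (h : BTS d J i c0 η K W I σ) (hη : 0 ≤ η) {S : Multiset Kd} (hS : S ≤ σ.ms) :
    BTS d J i c0 η K W I (σ.wm S) :=
  ⟨h.hI, h.hK, h.hc, fun k hk => h.adm k (Multiset.mem_of_le hS hk),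
    fun x A hk => h.hT x A (Multiset.mem_of_le hS hk), fun I' hI' =>
      (h.hV I' hI').trans (Int.cast_le.2 (V_sub_low h.hI h.adm (h.V0 hη) _ I' hI' le_rfl S hS)),
    (Nat.add_le_add_left (Nat.mul_le_mul_left _ (Multiset.card_le_card hS)) _).trans h.hw⟩

theorem ex_of (h : BTS d J i c0 η K W I σ) {D k : ℕ} {F q : (ℕ → ℕ) → ℕ} {K' : ℕ}
    (hb : ∀ c0 : ℕ → ℕ,
      Hr i J F c0 → ∀ (σ : St) (I : Finset ℕ), I ⊆ range J → (∀ l ∈ I, K' ≤ c0 l) →
        (∀ l, σ.c l ≤ c0 l) → (∀ k ∈ σ.ms, AdmO d J k) →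
        (∀ x A, .ord x A ∈ σ.ms → (I \ A).card = x → I \ A ⊆ Ico i J) →
        (∀ I' ⊆ I, η * ∏ l ∈ I', (c0 l : ℝ) ≤ (σ.V J I' I'.card : ℝ)) →
        q (rs (i + 1) J c0) * (rs i J c0 i + 1) ^ k + d * σ.ms.card ≤ σ.w → σ.Ex d J I D)
    (hF : Hr i J F c0) (hK : K' ≤ K) (hW : q (rs (i + 1) J c0) * (rs i J c0 i + 1) ^ k ≤ W) :
    σ.Ex d J I D :=
  hb c0 hF σ I h.hI (fun l hl => hK.trans (h.hK l hl)) h.hc h.adm h.hT h.hV
    ((Nat.add_le_add_right hW _).trans h.hw)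

end BTS

/-- Constants for finitely many degrees. -/
theorem bt_unif {d J i : ℕ} (P : Finset ℕ) (h : ∀ D ∈ P, BT d J i D) {η : ℝ} (hη : 0 < η) :
    ∃ (K k : ℕ) (F q : (ℕ → ℕ) → ℕ), ∀ c0 : ℕ → ℕ, Hr i J F c0 → ∀ (σ : St) (I : Finset ℕ),
      BTS d J i c0 η K (q (rs (i + 1) J c0) * (rs i J c0 i + 1) ^ k) I σ →
        ∀ D ∈ P, σ.Ex d J I D := by
  classical
  induction P using Finset.induction_on with
  | empty => exact ⟨0, 0, fun _ => 0, fun _ => 0, fun c0 _ σ I _ D hD => absurd hD (notMem_empty _)⟩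
  | insert D P hD ih =>
    obtain ⟨K1, k1, F1, q1, h1⟩ := ih fun D' hD' => h D' (mem_insert_of_mem hD')
    obtain ⟨K2, k2, F2, q2, h2⟩ := h D (mem_insert_self _ _) η hη
    refine ⟨max K1 K2, max k1 k2, fun r => max (F1 r) (F2 r), fun r => max (q1 r) (q2 r),
      fun c0 hF σ I hs D' hD' => ?_⟩
    have e1 : q1 (rs (i + 1) J c0) * (rs i J c0 i + 1) ^ k1 ≤
        max (q1 (rs (i + 1) J c0)) (q2 (rs (i + 1) J c0)) * (rs i J c0 i + 1) ^ max k1 k2 :=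
      Nat.mul_le_mul (le_max_left _ _) (Nat.pow_le_pow_right (Nat.succ_pos _) (le_max_left _ _))
    have e2 : q2 (rs (i + 1) J c0) * (rs i J c0 i + 1) ^ k2 ≤
        max (q1 (rs (i + 1) J c0)) (q2 (rs (i + 1) J c0)) * (rs i J c0 i + 1) ^ max k1 k2 :=
      Nat.mul_le_mul (le_max_right _ _) (Nat.pow_le_pow_right (Nat.succ_pos _) (le_max_right _ _))
    rcases mem_insert.1 hD' with rfl | hD'
    · exact hs.ex_of h2 (fun l hl hl' => (le_max_right _ _).trans (hF l hl hl'))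
        (le_max_right _ _) e2
    · exact h1 c0 (fun l hl hl' => (le_max_left _ _).trans (hF l hl hl')) σ I
        (hs.weak le_rfl (le_max_left _ _) e1) D' hD'

end Pool.Agent.GD.AL

end

section

/-!
# General d, ALPHA: the finite systems, one stage

`card_low`: the number of the objects is bounded; `stage_orc`, `stage_end`: the hypotheses of the transport
theorem for the states which live on the blocks `i, …, J - 1`.
-/

set_option autoImplicit false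

namespace Pool.Agent.GD.AL

open Finset

section rs

variable {i J : ℕ} {c0 : ℕ → ℕ}

theorem rs_of_mem {l : ℕ} (h : l ∈ Ico i J) : rs i J c0 l = c0 l := by
  rw [mem_Ico] at h
  exact if_pos h

theorem rs_le (i J : ℕ) (c0 : ℕ → ℕ) (l : ℕ) : rs i J c0 l ≤ c0 l := by
  unfold rs
  split_ifs
  · exact le_rfl
  · exact Nat.zero_le _

theorem rs_rs {i' : ℕ} (h : i ≤ i') : rs i' J (rs i J c0) = rs i' J c0 := by
  funext l
  unfold rs
  by_cases h1 : i' ≤ l ∧ l < J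
  · rw [if_pos h1, if_pos h1, if_pos ⟨h.trans h1.1, h1.2⟩]
  · rw [if_neg h1, if_neg h1]

theorem rs_split (hi : i < J) (l : ℕ) :
    rs i J c0 l = (if l = i then c0 i else 0) + rs (i + 1) J c0 l := by
  unfold rs
  by_cases h1 : l = i
  · subst h1
    rw [if_pos ⟨le_rfl, hi⟩, if_pos rfl, if_neg fun h => absurd h.1 (by omega), add_zero]
  · rw [if_neg h1, zero_add]
    by_cases h2 : i + 1 ≤ l ∧ l < J
    · rw [if_pos h2, if_pos ⟨by omega, h2.2⟩]
    · rw [if_neg h2, if_neg fun h => h2 ⟨by omega, h.2⟩]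

theorem sum_rs (hi : i < J) :
    ∑ l ∈ range J, rs i J c0 l = c0 i + ∑ l ∈ range J, rs (i + 1) J c0 l := by
  rw [sum_congr rfl fun l _ => rs_split (c0 := c0) hi l, sum_add_distrib, sum_ite_eq' (range J) i,
    if_pos (mem_range.2 hi)]

theorem prod_rs (hi : i < J) {I : Finset ℕ} (hI : I ⊆ Ico i J) :
    ∏ l ∈ I, c0 l ≤ (c0 i + 1) * ∏ l ∈ range J, (rs (i + 1) J c0 l + 1) := by
  have h1 : ∏ l ∈ I, c0 l ≤ ∏ l ∈ range J, (rs i J c0 l + 1) := by
    calc ∏ l ∈ I, c0 l ≤ ∏ l ∈ I, (rs i J c0 l + 1) :=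
          prod_le_prod' fun l hl => by rw [rs_of_mem (hI hl)]; omega
      _ ≤ ∏ l ∈ range J, (rs i J c0 l + 1) := by
        refine prod_le_prod_of_subset_of_one_le' (fun l hl => ?_) fun l _ _ => by omega
        exact mem_range.2 (mem_Ico.1 (hI hl)).2
  refine h1.trans (le_of_eq ?_)
  have h2 : ∀ l ∈ range J, rs i J c0 l + 1 =
      (if l = i then c0 i + 1 else 1) * (rs (i + 1) J c0 l + 1) := by
    intro l _
    by_cases h3 : l = i
    · subst h3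
      have h4 : rs (l + 1) J c0 l = 0 := if_neg fun h => absurd h.1 (by omega)
      rw [if_pos rfl, rs_split hi, if_pos rfl, h4]
      ring
    · rw [if_neg h3, rs_split hi, if_neg h3]
      ring
  rw [prod_congr rfl h2, prod_mul_distrib, prod_ite_eq' (range J) i, if_pos (mem_range.2 hi)]

end rs

section stage

variable {d J : ℕ}

theorem Ex_low {σ : St} {I : Finset ℕ} {D : ℕ} (hI : I ⊆ range J) (hm : ∀ k ∈ σ.ms, AdmO d J k)
    (h : D < I.card) : σ.Ex d J I D := by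
  unfold St.Ex
  rw [St.H_low h, St.V_low hI hm h]
  rfl

/-- The number of the objects. -/
theorem card_low {σ : St} {I : Finset ℕ} {η : ℝ} (hI : I ⊆ range J) (hm : ∀ k ∈ σ.ms, AdmO d J k)
    (h0 : ∀ I' ⊆ I, 0 ≤ σ.V J I' I'.card) (h1 : ∀ I' ⊆ I, η ≤ (σ.V J I' I'.card : ℝ))
    (hT : ∀ x A, .ord x A ∈ σ.ms → (I \ A).card = x) :
    η * σ.ms.card ≤ ∏ l ∈ I, (σ.c l : ℝ) := by
  have key : ∀ S : Multiset Kd, S ≤ σ.ms →
      ((σ.wm S).V J I I.card : ℝ) + η * S.card ≤ ∏ l ∈ I, (σ.c l : ℝ) := by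
    intro S
    induction S using Multiset.induction_on with
    | empty =>
      intro _
      rw [Multiset.card_zero, Nat.cast_zero, mul_zero, add_zero]
      have h2 := V_nil_le σ.c σ.w hI
      exact_mod_cast h2
    | cons k S ih =>
      intro hS
      have hS' := le_trans (Multiset.le_cons_self S k) hS
      have h2 := ih hS'
      obtain ⟨x, A, rfl, h3, h4, h5, h6⟩ := hm k (Multiset.mem_of_le hS (Multiset.mem_cons_self _ _))
      have h7 := V_ord_low (σ := σ.wm S) hI (fun k hk => hm k (Multiset.mem_of_le hS' hk)) h3 h6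
      rw [if_pos (hT x A (Multiset.mem_of_le hS (Multiset.mem_cons_self _ _)))] at h7
      have h8 := V_sub_low hI hm h0 _ (I ∩ A) inter_subset_left le_rfl S hS'
      have h9 := h1 (I ∩ A) inter_subset_left
      have h10 : (σ.wm (.ord x A ::ₘ S)).V J I I.card = (σ.wm S).V J I I.card -
          (σ.wm S).V J (I ∩ A) (I ∩ A).card := h7
      rw [h10, Multiset.card_cons]
      push_cast
      have h11 : (σ.V J (I ∩ A) (I ∩ A).card : ℝ) ≤ ((σ.wm S).V J (I ∩ A) (I ∩ A).card : ℝ) := by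
        exact_mod_cast h8
      nlinarith [h2, h9, h11]
  have h2 := key σ.ms le_rfl
  have h3 : (0 : ℝ) ≤ ((σ.wm σ.ms).V J I I.card : ℝ) := by
    exact_mod_cast h0 I subset_rfl
  linarith

/-- A state of the transport theorem is a state of the finite systems. -/
theorem bts_of_pos {i i' : ℕ} {c0 : ℕ → ℕ} {n0 m K W D : ℕ} {η ϖ : ℝ} {I I' : Finset ℕ} {σ : St}
    (hI : I ⊆ Ico i J) (hK : ∀ l ∈ I, K ≤ c0 l) (ho : InO d J (rs i J c0) n0 ϖ I σ)
    (hm : σ.ms.card ≤ m) (hw : ((W + d * m : ℕ) : ℝ) ≤ ϖ * n0) (hI' : I' ⊆ I) (hD : I'.card ≤ D)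
    (hp : Pos J (rs i J c0) n0 η σ I' D)
    (hT : ∀ x A, .ord x A ∈ σ.ms → (I' \ A).card = x → I' \ A ⊆ Ico i' J) :
    BTS d J i' c0 η K W I' σ := by
  refine ⟨?_, fun l hl => hK l (hI' hl), fun l => (ho.c l).trans (rs_le i J c0 l), ho.adm, hT, ?_, ?_⟩
  · exact fun l hl => mem_range.2 (mem_Ico.1 (hI (hI' hl))).2
  · intro I'' hI''
    have h1 := card_le_card hI''
    have h2 := card_sdiff_add_card_eq_card hI''
    have h3 := hp I'' hI'' I''.card le_rfl (by omega)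
    unfold nz at h3
    rw [Nat.sub_self, pow_zero, mul_one] at h3
    rw [prod_congr rfl fun l hl => by rw [rs_of_mem (hI (hI' (hI'' hl)))]] at h3
    exact h3
  · have h1 : ((W + d * m : ℕ) : ℝ) ≤ ((σ.w : ℕ) : ℝ) := hw.trans ho.w
    have h2 : W + d * m ≤ σ.w := by exact_mod_cast h1
    exact (Nat.add_le_add_left (Nat.mul_le_mul_left _ hm) _).trans h2

theorem stage_orc {i : ℕ} {c0 : ℕ → ℕ} {n0 m K W D : ℕ} {η ϖ : ℝ} {I : Finset ℕ}
    (hI : I ⊆ Ico i J) (hK : ∀ l ∈ I, K ≤ c0 l) (hw : ((W + d * m : ℕ) : ℝ) ≤ ϖ * n0)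
    (ex : ∀ (σ : St) (I : Finset ℕ), BTS d J i c0 η K W I σ → ∀ D' ∈ range D, σ.Ex d J I D') :
    Orc d J (rs i J c0) n0 (fun ms => ms.card ≤ m) I D η ϖ := by
  intro σ ho hm I' hI' D' hD' hp
  have hIr : I' ⊆ range J := fun l hl => mem_range.2 (mem_Ico.1 (hI (hI' hl))).2
  rcases Nat.lt_or_ge D' I'.card with h1 | h1
  · exact Ex_low hIr ho.adm h1
  · refine ex σ I' (bts_of_pos hI hK ho hm hw hI' h1 hp fun x A _ _ => ?_) D' (mem_range.2 hD')
    exact sdiff_subset.trans (hI'.trans hI)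

theorem stage_end {i : ℕ} {c0 : ℕ → ℕ} {n0 m K W D : ℕ} {η ϖ : ℝ} {I : Finset ℕ}
    (hI : I ⊆ Ico i J) (hK : ∀ l ∈ I, K ≤ c0 l) (hw : ((W + d * m : ℕ) : ℝ) ≤ ϖ * n0)
    (ex : ∀ (σ : St) (I : Finset ℕ), BTS d J (i + 1) c0 η K W I σ →
      ∀ D' ∈ range (D + 1), σ.Ex d J I D') :
    ∀ σ : St, InO d J (rs i J c0) n0 ϖ I σ → σ.ms.card ≤ m →
      (∀ k ∈ σ.ms, ∃ x A, k = .ord x A ∧ ¬ ((I \ A).card = x ∧ i ∈ I \ A)) →
      Pos J (rs i J c0) n0 η σ I D → σ.dl d J I D ≤ 0 := by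
  intro σ ho hm hk hp
  have hIr : I ⊆ range J := fun l hl => mem_range.2 (mem_Ico.1 (hI hl)).2
  have hex : σ.Ex d J I D := by
    rcases Nat.lt_or_ge D I.card with h1 | h1
    · exact Ex_low hIr ho.adm h1
    · refine ex σ I (bts_of_pos hI hK ho hm hw subset_rfl h1 hp fun x A hxA hc => ?_) D
        (mem_range.2 (Nat.lt_succ_self D))
      obtain ⟨x', A', h2, h3⟩ := hk _ hxA
      cases h2
      intro l hl
      have h4 := mem_Ico.1 (hI (mem_sdiff.1 hl).1)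
      rw [mem_Ico]
      refine ⟨?_, h4.2⟩
      rcases Nat.eq_or_lt_of_le h4.1 with h5 | h5
      · exact absurd ⟨hc, h5.symm ▸ hl⟩ h3
      · exact h5
  unfold St.dl
  unfold St.Ex at hex
  omega

end stage

end Pool.Agent.GD.AL

end

section

/-!
# General d, ALPHA: configurations which split

`HI_prod`: the objects of `S₁` at positions on the variables `ν₁`, the objects of `S₂` at positions on the
variables `ν₂`; the blocks of `I₁` do not occur in `ν₂`, the blocks of `I₂` do not occur in `ν₁`.  The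
solutions are (slice by slice) in the tensor products of the solutions in both factors, so
`HI (I₁ ∪ I₂) (S₁ + S₂) ≤ ∑ HI s I₁ S₁ * HI (D - s) I₂ S₂`.
-/

set_option autoImplicit false
set_option linter.unusedSectionVars false

namespace Pool.Agent.GD.AL

open Finset MvPolynomial Pool.Agent.H51.TB Pool.Agent.V7.ST
open Pool.Agent.H21.NX (Sx mem_Sx)
open Pool.Agent.V7 (msk)

section

variable {ν₁ ν₂ : Type} [Fintype ν₁] [DecidableEq ν₁] [Fintype ν₂] [DecidableEq ν₂] {d : ℕ}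

theorem rename_inl_lf (p : ν₁ → ℂ) :
    rename (Sum.inl : ν₁ → ν₁ ⊕ ν₂) (lf p) = lf (Sum.elim p (0 : ν₂ → ℂ)) := by
  unfold lf
  rw [map_sum, Fintype.sum_sum_type]
  simp only [map_mul, rename_C, rename_X, Sum.elim_inl, Sum.elim_inr, Pi.zero_apply, map_zero,
    zero_mul, sum_const_zero, add_zero]

theorem rename_inr_lf (p : ν₂ → ℂ) :
    rename (Sum.inr : ν₂ → ν₁ ⊕ ν₂) (lf p) = lf (Sum.elim (0 : ν₁ → ℂ) p) := by
  unfold lf
  rw [map_sum, Fintype.sum_sum_type]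
  simp only [map_mul, rename_C, rename_X, Sum.elim_inl, Sum.elim_inr, Pi.zero_apply, map_zero,
    zero_mul, sum_const_zero, zero_add]

theorem rename_mon_mul (a : ν₁ → ℕ) (b : ν₂ → ℕ) :
    rename (Sum.inl : ν₁ → ν₁ ⊕ ν₂) (mon ℂ a) * rename (Sum.inr : ν₂ → ν₁ ⊕ ν₂) (mon ℂ b) =
      mon ℂ (Sum.elim a b) := by
  unfold mon
  rw [map_prod, map_prod, Fintype.prod_sum_type]
  simp only [map_pow, rename_X, Sum.elim_inl, Sum.elim_inr]

/-- The slice of a functional at a monomial of the second factor. -/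
noncomputable def slL (b : ν₂ → ℕ) : Dl (ν₁ ⊕ ν₂) →ₗ[ℂ] Dl ν₁ :=
  (LinearMap.lcomp ℂ ℂ (rename (Sum.inl : ν₁ → ν₁ ⊕ ν₂) :
    MvPolynomial ν₁ ℂ →ₐ[ℂ] MvPolynomial (ν₁ ⊕ ν₂) ℂ).toLinearMap) ∘ₗ
      ct (rename (Sum.inr : ν₂ → ν₁ ⊕ ν₂) (mon ℂ b))

theorem slL_apply (b : ν₂ → ℕ) (Φ : Dl (ν₁ ⊕ ν₂)) (y : MvPolynomial ν₁ ℂ) :
    slL b Φ y = Φ (rename Sum.inr (mon ℂ b) * rename Sum.inl y) := rfl

/-- The slice of a functional at a monomial of the first factor. -/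
noncomputable def slR (a : ν₁ → ℕ) : Dl (ν₁ ⊕ ν₂) →ₗ[ℂ] Dl ν₂ :=
  (LinearMap.lcomp ℂ ℂ (rename (Sum.inr : ν₂ → ν₁ ⊕ ν₂) :
    MvPolynomial ν₂ ℂ →ₐ[ℂ] MvPolynomial (ν₁ ⊕ ν₂) ℂ).toLinearMap) ∘ₗ
      ct (rename (Sum.inl : ν₁ → ν₁ ⊕ ν₂) (mon ℂ a))

theorem slR_apply (a : ν₁ → ℕ) (Φ : Dl (ν₁ ⊕ ν₂)) (y : MvPolynomial ν₂ ℂ) :
    slR a Φ y = Φ (rename Sum.inl (mon ℂ a) * rename Sum.inr y) := rfl

theorem slL_mon (b : ν₂ → ℕ) (Φ : Dl (ν₁ ⊕ ν₂)) (a : ν₁ → ℕ) :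
    slL b Φ (mon ℂ a) = Φ (mon ℂ (Sum.elim a b)) := by
  rw [slL_apply, mul_comm, rename_mon_mul]

theorem slR_mon (a : ν₁ → ℕ) (Φ : Dl (ν₁ ⊕ ν₂)) (b : ν₂ → ℕ) :
    slR a Φ (mon ℂ b) = Φ (mon ℂ (Sum.elim a b)) := by
  rw [slR_apply, rename_mon_mul]

/-! ### Positions -/

/-- A position on the first factor. -/
def pL (ν₂ : Type) (q : ν₁ × Fin (d + 1) → ℂ) (z : (ν₁ ⊕ ν₂) × Fin (d + 1)) : ℂ :=
  Sum.elim (fun s => q (s, z.2)) (fun _ => 0) z.1

/-- A position on the second factor. -/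
def pR (ν₁ : Type) (q : ν₂ × Fin (d + 1) → ℂ) (z : (ν₁ ⊕ ν₂) × Fin (d + 1)) : ℂ :=
  Sum.elim (fun _ => 0) (fun s => q (s, z.2)) z.1

theorem pt_pL (β₁ : ν₁ → ℕ) (β₂ : ν₂ → ℕ) (k : Kd) (x : Fin (d + 1)) (q : ν₁ × Fin (d + 1) → ℂ) :
    pt (Sum.elim β₁ β₂) k x (pL ν₂ q) = Sum.elim (pt β₁ k x q) (0 : ν₂ → ℂ) := by
  funext s
  rcases k with ⟨e, A⟩ | ⟨e, dl, i, As⟩ <;> rcases s with s | s
  · rfl
  · show (if β₂ s ∈ A then (0 : ℂ) else 0) = 0
    rw [ite_self]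
  · rfl
  · show (if β₂ s ∈ As.getD x ∅ then (0 : ℂ) else if β₂ s = i ∧ x.1 + 1 = As.length then
      - ∑ y : Fin (d + 1), (if y.1 + 1 < As.length then (0 : ℂ) else 0) else 0) = 0
    simp only [ite_self, sum_const_zero, neg_zero]

theorem pt_pR (β₁ : ν₁ → ℕ) (β₂ : ν₂ → ℕ) (k : Kd) (x : Fin (d + 1)) (q : ν₂ × Fin (d + 1) → ℂ) :
    pt (Sum.elim β₁ β₂) k x (pR ν₁ q) = Sum.elim (0 : ν₁ → ℂ) (pt β₂ k x q) := by
  funext s
  rcases k with ⟨e, A⟩ | ⟨e, dl, i, As⟩ <;> rcases s with s | s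
  · show (if β₁ s ∈ A then (0 : ℂ) else 0) = 0
    rw [ite_self]
  · rfl
  · show (if β₁ s ∈ As.getD x ∅ then (0 : ℂ) else if β₁ s = i ∧ x.1 + 1 = As.length then
      - ∑ y : Fin (d + 1), (if y.1 + 1 < As.length then (0 : ℂ) else 0) else 0) = 0
    simp only [ite_self, sum_const_zero, neg_zero]
  · rfl

theorem uu_pL (β₁ : ν₁ → ℕ) (β₂ : ν₂ → ℕ) (k : Kd) (q : ν₁ × Fin (d + 1) → ℂ) :
    uu (Sum.elim β₁ β₂) k (pL ν₂ q) = Sum.elim (uu β₁ k q) (0 : ν₂ → ℂ) := by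
  funext s
  unfold uu
  simp only [pt_pL]
  rcases s with s | s
  · rfl
  · simp only [Sum.elim_inr, Pi.zero_apply, ite_self, sum_const_zero]

theorem zz_pL (β₁ : ν₁ → ℕ) (β₂ : ν₂ → ℕ) (i : ℕ) (q : ν₁ × Fin (d + 1) → ℂ) :
    zz (Sum.elim β₁ β₂) i (pL ν₂ q) = Sum.elim (zz β₁ i q) (0 : ν₂ → ℂ) := by
  funext s
  rcases s with s | s
  · rfl
  · show (if β₂ s = i then (0 : ℂ) else 0) = 0
    rw [ite_self]

theorem uu_pR (β₁ : ν₁ → ℕ) (β₂ : ν₂ → ℕ) (k : Kd) (q : ν₂ × Fin (d + 1) → ℂ) :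
    uu (Sum.elim β₁ β₂) k (pR ν₁ q) = Sum.elim (0 : ν₁ → ℂ) (uu β₂ k q) := by
  funext s
  unfold uu
  simp only [pt_pR]
  rcases s with s | s
  · simp only [Sum.elim_inl, Pi.zero_apply, ite_self, sum_const_zero]
  · rfl

theorem zz_pR (β₁ : ν₁ → ℕ) (β₂ : ν₂ → ℕ) (i : ℕ) (q : ν₂ × Fin (d + 1) → ℂ) :
    zz (Sum.elim β₁ β₂) i (pR ν₁ q) = Sum.elim (0 : ν₁ → ℂ) (zz β₂ i q) := by
  funext s
  rcases s with s | s
  · show (if β₁ s = i then (0 : ℂ) else 0) = 0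
    rw [ite_self]
  · rfl

/-! ### The slices -/

theorem slL_sat {β₁ : ν₁ → ℕ} {β₂ : ν₂ → ℕ} {I I₁ : Finset ℕ} (hI : I₁ ⊆ I) (h1 : ∀ t, β₂ t ∉ I₁)
    {k : Kd} {q : ν₁ × Fin (d + 1) → ℂ} {Φ : Dl (ν₁ ⊕ ν₂)}
    (h : Sat (Sum.elim β₁ β₂) I k (pL ν₂ q) Φ) (b : ν₂ → ℕ) : Sat β₁ I₁ k q (slL b Φ) := by
  constructor
  · intro x hx y
    have h2 := h.1 x hx (rename Sum.inr (mon ℂ b) * rename Sum.inl y)
    rw [pt_pL, ← rename_inl_lf, ← map_pow] at h2
    have e : rename (Sum.inr : ν₂ → ν₁ ⊕ ν₂) (mon ℂ b) * rename Sum.inl (lf (pt β₁ k x q) ^ k.ex * y) =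
        rename Sum.inl (lf (pt β₁ k x q) ^ k.ex) *
          (rename Sum.inr (mon ℂ b) * rename Sum.inl y) := by
      rw [map_mul (rename _)]
      ring
    rw [slL_apply, e]
    exact h2
  · rcases k with ⟨e, A⟩ | ⟨e, dl, i, As⟩
    · trivial
    · intro hi κ hκ hκ' c hc
      have h2 := h.2 (hI hi) κ hκ hκ' (Sum.elim c b) (by
        rintro (s | s) hs
        · exact hc s hs
        · exact absurd (show β₂ s ∈ I₁ from (show β₂ s = i from hs) ▸ hi) (h1 s))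
      rw [uu_pL, zz_pL, ← rename_inl_lf, ← rename_inl_lf, ← rename_mon_mul] at h2
      have e' : ∀ U Z M : MvPolynomial ν₁ ℂ, ∀ r : ℕ,
          rename (Sum.inr : ν₂ → ν₁ ⊕ ν₂) (mon ℂ b) * rename Sum.inl (U ^ r * (Z ^ κ * M)) =
          rename Sum.inl U ^ r * (rename Sum.inl Z ^ κ *
            (rename Sum.inl M * rename Sum.inr (mon ℂ b))) := by
        intro U Z M r
        rw [map_mul (rename _), map_mul (rename _), map_pow (rename _), map_pow (rename _)]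
        ring
      rw [slL_apply, e']
      exact h2

theorem slR_sat {β₁ : ν₁ → ℕ} {β₂ : ν₂ → ℕ} {I I₂ : Finset ℕ} (hI : I₂ ⊆ I) (h1 : ∀ t, β₁ t ∉ I₂)
    {k : Kd} {q : ν₂ × Fin (d + 1) → ℂ} {Φ : Dl (ν₁ ⊕ ν₂)}
    (h : Sat (Sum.elim β₁ β₂) I k (pR ν₁ q) Φ) (a : ν₁ → ℕ) : Sat β₂ I₂ k q (slR a Φ) := by
  constructor
  · intro x hx y
    have h2 := h.1 x hx (rename Sum.inl (mon ℂ a) * rename Sum.inr y)
    rw [pt_pR, ← rename_inr_lf, ← map_pow] at h2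
    have e : rename (Sum.inl : ν₁ → ν₁ ⊕ ν₂) (mon ℂ a) * rename Sum.inr (lf (pt β₂ k x q) ^ k.ex * y) =
        rename Sum.inr (lf (pt β₂ k x q) ^ k.ex) *
          (rename Sum.inl (mon ℂ a) * rename Sum.inr y) := by
      rw [map_mul (rename _)]
      ring
    rw [slR_apply, e]
    exact h2
  · rcases k with ⟨e, A⟩ | ⟨e, dl, i, As⟩
    · trivial
    · intro hi κ hκ hκ' c hc
      have h2 := h.2 (hI hi) κ hκ hκ' (Sum.elim a c) (by
        rintro (s | s) hs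
        · exact absurd (show β₁ s ∈ I₂ from (show β₁ s = i from hs) ▸ hi) (h1 s)
        · exact hc s hs)
      rw [uu_pR, zz_pR, ← rename_inr_lf, ← rename_inr_lf, ← rename_mon_mul] at h2
      have e' : ∀ U Z M : MvPolynomial ν₂ ℂ, ∀ r : ℕ,
          rename (Sum.inl : ν₁ → ν₁ ⊕ ν₂) (mon ℂ a) * rename Sum.inr (U ^ r * (Z ^ κ * M)) =
          rename Sum.inr U ^ r * (rename Sum.inr Z ^ κ *
            (rename Sum.inl (mon ℂ a) * rename Sum.inr M)) := by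
        intro U Z M r
        rw [map_mul (rename _), map_mul (rename _), map_pow (rename _), map_pow (rename _)]
        ring
      rw [slR_apply, e']
      exact h2

theorem slL_lv {β₁ : ν₁ → ℕ} {β₂ : ν₂ → ℕ} {I I₁ : Finset ℕ} (hI : I₁ ⊆ I) (h1 : ∀ t, β₂ t ∉ I₁)
    {D s : ℕ} {Φ : Dl (ν₁ ⊕ ν₂)} (h : Φ ∈ Lv (Sum.elim β₁ β₂) D I) {b : ν₂ → ℕ}
    (hb : s + ∑ t, b t = D) : slL b Φ ∈ Lv β₁ s I₁ := by
  intro a ha
  rw [slL_mon]
  refine h _ fun h2 => ha ?_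
  rw [mem_Ex] at h2 ⊢
  obtain ⟨h2, h3⟩ := h2
  rw [Fintype.sum_sum_type] at h2
  simp only [Sum.elim_inl, Sum.elim_inr] at h2
  refine ⟨by omega, fun i hi => ?_⟩
  obtain ⟨x, hx, hx'⟩ := h3 i (hI hi)
  rcases x with x | x
  · exact ⟨x, hx, hx'⟩
  · exact absurd (show β₂ x ∈ I₁ from (show β₂ x = i from hx) ▸ hi) (h1 x)

theorem slR_lv {β₁ : ν₁ → ℕ} {β₂ : ν₂ → ℕ} {I I₂ : Finset ℕ} (hI : I₂ ⊆ I) (h1 : ∀ t, β₁ t ∉ I₂)
    {D s : ℕ} {Φ : Dl (ν₁ ⊕ ν₂)} (h : Φ ∈ Lv (Sum.elim β₁ β₂) D I) {a : ν₁ → ℕ}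
    (ha : ∑ t, a t + s = D) : slR a Φ ∈ Lv β₂ s I₂ := by
  intro b hb
  rw [slR_mon]
  refine h _ fun h2 => hb ?_
  rw [mem_Ex] at h2 ⊢
  obtain ⟨h2, h3⟩ := h2
  rw [Fintype.sum_sum_type] at h2
  simp only [Sum.elim_inl, Sum.elim_inr] at h2
  refine ⟨by omega, fun i hi => ?_⟩
  obtain ⟨x, hx, hx'⟩ := h3 i (hI hi)
  rcases x with x | x
  · exact absurd (show β₁ x ∈ I₂ from (show β₁ x = i from hx) ▸ hi) (h1 x)
  · exact ⟨x, hx, hx'⟩

/-! ### Pivots -/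

theorem exists_piv {ν : Type} [Fintype ν] [DecidableEq ν] (β : ν → ℕ) (D : ℕ) (I : Finset ℕ)
    (V : Submodule ℂ (Dl ν)) (hV : V ≤ Lv β D I) :
    ∃ a : Fin (Module.finrank ℂ V) → ν → ℕ, (∀ k, ∑ s, a k s = D) ∧
      ∀ Φ ∈ V, (∀ k, Φ (mon ℂ (a k)) = 0) → Φ = 0 := by
  let T := toDl (Ex β D I)
  have hT : Function.Injective T := toDl_inj _
  let U : Submodule ℂ ({a // a ∈ Ex β D I} → ℂ) := V.comap T
  have hUV : U.map T = V := by
    refine le_antisymm (Submodule.map_comap_le _ _) fun Φ hΦ => ?_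
    obtain ⟨f, hf⟩ := exists_toDl (hV hΦ)
    exact ⟨f, show T f ∈ V from hf.symm ▸ hΦ, hf⟩
  have hr : Module.finrank ℂ U = Module.finrank ℂ V := by
    rw [← hUV]
    exact (Submodule.equivMapOfInjective T hT U).finrank_eq
  obtain ⟨a, b, -, -, -, hs⟩ := Pool.Agent.V7.Top.exists_pivot U
  rw [← hr]
  refine ⟨fun k => (a k).1, fun k => (mem_Ex.1 (a k).2).1, fun Φ hΦ h0 => ?_⟩
  obtain ⟨f, rfl⟩ := exists_toDl (hV hΦ)
  have h1 := hs f hΦ
  have h2 : ∀ k, f (a k) = 0 := by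
    intro k
    have h3 := h0 k
    rw [toDl_apply, Fn_mon, ext0_mem] at h3
    exact (mul_eq_zero.1 h3).resolve_left (Nat.cast_ne_zero.2 (fac_pos _).ne')
  have h3 : f = 0 := by
    rw [h1]
    refine sum_eq_zero fun k _ => ?_
    rw [h2 k, zero_smul]
  rw [h3, map_zero]

/-! ### The product -/

theorem finrank_le_prod {D : ℕ} (β₁ : ν₁ → ℕ) (β₂ : ν₂ → ℕ) {I I₁ I₂ : Finset ℕ}
    (hI₁ : I₁ ⊆ I) (hI₂ : I₂ ⊆ I) (h12 : ∀ t, β₁ t ∉ I₂) (h21 : ∀ t, β₂ t ∉ I₁)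
    {κ₁ κ₂ : Type} (m₁ : κ₁ → Kd) (m₂ : κ₂ → Kd)
    (p₁ : κ₁ → ν₁ × Fin (d + 1) → ℂ) (p₂ : κ₂ → ν₂ × Fin (d + 1) → ℂ) :
    Module.finrank ℂ (XX (Sum.elim β₁ β₂) D I (Sum.elim m₁ m₂)
      (Sum.elim (fun i => pL ν₂ (p₁ i)) fun i => pR ν₁ (p₂ i))) ≤
      ∑ s ∈ range (D + 1), Module.finrank ℂ (XX β₁ s I₁ m₁ p₁) *
        Module.finrank ℂ (XX β₂ (D - s) I₂ m₂ p₂) := by
  classical
  have hp : ∀ s : ℕ, ∃ a : Fin (Module.finrank ℂ (XX β₁ s I₁ m₁ p₁)) → ν₁ → ℕ,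
      (∀ k, ∑ x, a k x = s) ∧ ∀ Φ ∈ XX β₁ s I₁ m₁ p₁, (∀ k, Φ (mon ℂ (a k)) = 0) → Φ = 0 :=
    fun s => exists_piv β₁ s I₁ _ (XX_le_Lv _ _ _ _ _)
  choose a ha hpiv using hp
  have hmem : ∀ Φ ∈ XX (Sum.elim β₁ β₂) D I (Sum.elim m₁ m₂)
      (Sum.elim (fun i => pL ν₂ (p₁ i)) fun i => pR ν₁ (p₂ i)), ∀ (s : Fin (D + 1))
      (k : Fin (Module.finrank ℂ (XX β₁ s I₁ m₁ p₁))),
      slR (a s k) Φ ∈ XX β₂ (D - s) I₂ m₂ p₂ := by
    intro Φ hΦ s k
    rw [mem_XX] at hΦ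
    rw [mem_XX]
    refine ⟨slR_lv hI₂ h12 hΦ.1 (by rw [ha]; have := s.2; omega), fun i => ?_⟩
    exact slR_sat hI₂ h12 (hΦ.2 (Sum.inr i)) _
  have hfin : ∀ s, Module.Finite ℂ (XX β₂ s I₂ m₂ p₂) := fun s => finite_XX _ _ _ _ _
  let G : XX (Sum.elim β₁ β₂) D I (Sum.elim m₁ m₂)
      (Sum.elim (fun i => pL ν₂ (p₁ i)) fun i => pR ν₁ (p₂ i)) →ₗ[ℂ]
        ((s : Fin (D + 1)) → Fin (Module.finrank ℂ (XX β₁ s I₁ m₁ p₁)) →
          XX β₂ (D - s) I₂ m₂ p₂) :=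
    LinearMap.pi fun s => LinearMap.pi fun k =>
      LinearMap.codRestrict _ ((slR (a s k)) ∘ₗ Submodule.subtype _) fun Φ => hmem Φ.1 Φ.2 s k
  have hG : Function.Injective G := by
    rw [← LinearMap.ker_eq_bot, LinearMap.ker_eq_bot']
    intro Φ hΦ
    apply Subtype.ext
    have h0 : ∀ (s : Fin (D + 1)) (k : Fin (Module.finrank ℂ (XX β₁ s I₁ m₁ p₁))),
        slR (a s k) Φ.1 = 0 := by
      intro s k
      exact congrArg Subtype.val (congrFun (congrFun hΦ s) k)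
    have hX := mem_XX.1 Φ.2
    refine mon_ext fun g => ?_
    show Φ.1 (mon ℂ g) = 0
    by_cases hg : ∑ x, g x = D
    · have hg' : ∑ x, g (Sum.inl x) + ∑ x, g (Sum.inr x) = D := by
        rw [← hg, Fintype.sum_sum_type]
      have e : g = Sum.elim (fun x => g (Sum.inl x)) fun x => g (Sum.inr x) := by
        funext x
        rcases x with x | x <;> rfl
      have h1 : slL (fun x => g (Sum.inr x)) Φ.1 ∈ XX β₁ (∑ x, g (Sum.inl x)) I₁ m₁ p₁ := by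
        rw [mem_XX]
        exact ⟨slL_lv hI₁ h21 hX.1 hg', fun i => slL_sat hI₁ h21 (hX.2 (Sum.inl i)) _⟩
      have h2 := hpiv _ _ h1 fun k => by
        have h4 : slR (a (∑ x, g (Sum.inl x)) k) Φ.1 = 0 :=
          h0 ⟨∑ x, g (Sum.inl x), by omega⟩ k
        rw [slL_mon, ← slR_mon, h4]
        rfl
      rw [e, ← slL_mon, h2]
      rfl
    · exact hX.1 g fun h1 => hg (mem_Ex.1 h1).1
  have h1 := LinearMap.finrank_le_finrank_of_injective hG
  refine h1.trans (le_of_eq ?_)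
  rw [Module.finrank_pi_fintype, ← Fin.sum_univ_eq_sum_range (fun s =>
    Module.finrank ℂ (XX β₁ s I₁ m₁ p₁) * Module.finrank ℂ (XX β₂ (D - s) I₂ m₂ p₂)) (D + 1)]
  refine sum_congr rfl fun s _ => ?_
  rw [Module.finrank_pi_fintype, sum_const, card_univ, Fintype.card_fin, smul_eq_mul]

/-- **Configurations which split.** -/
theorem HI_prod {D : ℕ} (hD : D ≤ d) (β₁ : ν₁ → ℕ) (β₂ : ν₂ → ℕ) {I₁ I₂ : Finset ℕ}
    (h12 : ∀ t, β₁ t ∉ I₂) (h21 : ∀ t, β₂ t ∉ I₁) (S₁ S₂ : Multiset Kd) :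
    HI d D (Sum.elim β₁ β₂) (I₁ ∪ I₂) (S₁ + S₂) ≤
      ∑ s ∈ range (D + 1), HI d s β₁ I₁ S₁ * HI d (D - s) β₂ I₂ S₂ := by
  obtain ⟨m₁, hm₁, -⟩ := exists_conf (LS d D β₁ I₁) S₁
  obtain ⟨m₂, hm₂, -⟩ := exists_conf (LS d D β₂ I₂) S₂
  obtain ⟨p₁, hp₁⟩ := (Gn.all (range (D + 1)) fun s hs =>
    gn_XX (d := d) (show s ≤ d by rw [mem_range] at hs; omega) β₁ I₁ m₁).exists
  obtain ⟨p₂, hp₂⟩ := (Gn.all (range (D + 1)) fun s hs =>
    gn_XX (d := d) (show s ≤ d by rw [mem_range] at hs; omega) β₂ I₂ m₂).exists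
  have h1 := HI_le hD (Sum.elim β₁ β₂) (I₁ ∪ I₂) (Sum.elim m₁ m₂)
    (Sum.elim (fun i => pL ν₂ (p₁ i)) fun i => pR ν₁ (p₂ i))
  rw [map_elim, hm₁, hm₂] at h1
  refine (h1.trans (finrank_le_prod β₁ β₂ subset_union_left subset_union_right h12 h21
    m₁ m₂ p₁ p₂)).trans (le_of_eq ?_)
  refine sum_congr rfl fun s hs => ?_
  rw [hp₁ s hs, hp₂ (D - s) (by rw [mem_range] at hs ⊢; omega), hm₁, hm₂]

/-- The second factor without blocks. -/
theorem HI_prod_zero {D : ℕ} (hD : D ≤ d) (β₁ : ν₁ → ℕ) (β₂ : ν₂ → ℕ) {I : Finset ℕ}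
    (hI : ∀ t, β₂ t ∉ I) (S₁ S₂ : Multiset Kd) :
    HI d D (Sum.elim β₁ β₂) I (S₁ + S₂) ≤
      ∑ s ∈ range (D + 1), HI d s β₁ I S₁ * HI d (D - s) β₂ ∅ S₂ := by
  have h := HI_prod hD β₁ β₂ (I₁ := I) (I₂ := ∅) (fun t => notMem_empty _) hI S₁ S₂
  rwa [union_empty] at h

end

end Pool.Agent.GD.AL

end

section

/-!
# General d, ALPHA: finite systems, the free blocks

`dl_cut`: the blocks of `I` on which no object lives and all but `w1` of the variables of `W` split off.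
-/

set_option autoImplicit false

namespace Pool.Agent.GD.AL

open Finset

/-- Only the blocks of `I1` and `w1` of the variables of `W`. -/
def St.cut (σ : St) (I1 : Finset ℕ) (w1 : ℕ) : St := ⟨fun l => if l ∈ I1 then σ.c l else 0, w1, σ.ms⟩

/-- A sum over the subsets of a disjoint union. -/
theorem sum_powerset_union {M : Type} [AddCommMonoid M] {I₁ I₂ : Finset ℕ} (h : Disjoint I₁ I₂)
    (f : Finset ℕ → M) :
    ∑ I' ∈ (I₁ ∪ I₂).powerset, f I' = ∑ A ∈ I₁.powerset, ∑ B ∈ I₂.powerset, f (A ∪ B) := by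
  rw [← sum_product']
  refine sum_bij' (fun I' _ => (I' ∩ I₁, I' ∩ I₂)) (fun p _ => p.1 ∪ p.2) ?_ ?_ ?_ ?_ ?_
  · intro I' _
    rw [mem_product, mem_powerset, mem_powerset]
    exact ⟨inter_subset_right, inter_subset_right⟩
  · intro p hp
    rw [mem_product, mem_powerset, mem_powerset] at hp
    rw [mem_powerset]
    exact union_subset_union hp.1 hp.2
  · intro I' hI'
    rw [mem_powerset] at hI'
    show I' ∩ I₁ ∪ I' ∩ I₂ = I'
    rw [← inter_union_distrib_left]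
    exact inter_eq_left.2 hI'
  · rintro ⟨A, B⟩ hp
    rw [mem_product, mem_powerset, mem_powerset] at hp
    have hA : A ⊆ I₁ := hp.1
    have hB : B ⊆ I₂ := hp.2
    have h1 : B ∩ I₁ = ∅ := by
      rw [← disjoint_iff_inter_eq_empty]
      exact (h.mono_right hB).symm
    have h2 : A ∩ I₂ = ∅ := by
      rw [← disjoint_iff_inter_eq_empty]
      exact h.mono_left hA
    show ((A ∪ B) ∩ I₁, (A ∪ B) ∩ I₂) = (A, B)
    rw [union_inter_distrib_right, union_inter_distrib_right, h1, h2, union_empty, empty_union,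
      inter_eq_left.2 hA, inter_eq_left.2 hB]
  · intro I' hI'
    rw [mem_powerset] at hI'
    show f I' = f (I' ∩ I₁ ∪ I' ∩ I₂)
    rw [← inter_union_distrib_left, inter_eq_left.2 hI']

/-- Product with free blocks: the virtual dimensions. -/
theorem vd_prod_free (D : ℕ) {I₁ I₂ : Finset ℕ} (h : Disjoint I₁ I₂) {c : ℕ → ℕ} {n₁ n₂ : ℕ}
    (h1 : ∑ i ∈ I₁, c i ≤ n₁) (h2 : ∑ i ∈ I₂, c i ≤ n₂) (ms : Multiset Kd)
    (hm : ∀ k ∈ ms, ∃ x A, k = .ord x A ∧ I₂ ⊆ A) :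
    vd D (I₁ ∪ I₂) c (n₁ + n₂) ms =
      ∑ s ∈ range (D + 1), vd s I₁ c n₁ ms * vd (D - s) I₂ c n₂ 0 := by
  unfold vd
  rw [sum_powerset_union h]
  have e1 : ∀ A ∈ I₁.powerset, ∀ B ∈ I₂.powerset,
      (-1 : ℤ) ^ (A ∪ B).card * PowerSeries.coeff D ((ms.map (Kd.P (A ∪ B))).prod *
        hs (n₁ + n₂ - ∑ i ∈ A ∪ B, c i)) =
      ∑ s ∈ range (D + 1), ((-1 : ℤ) ^ A.card * PowerSeries.coeff s ((ms.map (Kd.P A)).prod *
        hs (n₁ - ∑ i ∈ A, c i))) * ((-1 : ℤ) ^ B.card * PowerSeries.coeff (D - s)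
          (((0 : Multiset Kd).map (Kd.P B)).prod * hs (n₂ - ∑ i ∈ B, c i))) := by
    intro A hA B hB
    rw [mem_powerset] at hA hB
    have hAB : Disjoint A B := h.mono hA hB
    have h3 : ∑ i ∈ A, c i ≤ n₁ := (sum_le_sum_of_subset hA).trans h1
    have h4 : ∑ i ∈ B, c i ≤ n₂ := (sum_le_sum_of_subset hB).trans h2
    have h5 : n₁ + n₂ - ∑ i ∈ A ∪ B, c i = (n₁ - ∑ i ∈ A, c i) + (n₂ - ∑ i ∈ B, c i) := by
      rw [sum_union hAB]
      omega
    have h6 : (ms.map (Kd.P (A ∪ B))).prod = (ms.map (Kd.P A)).prod := by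
      congr 1
      refine Multiset.map_congr rfl fun k hk => ?_
      obtain ⟨x, A', rfl, hA'⟩ := hm k hk
      have h7 : A ∪ B ⊆ A' ↔ A ⊆ A' :=
        ⟨fun h => subset_union_left.trans h, fun h => union_subset h (hB.trans hA')⟩
      show (if A ∪ B ⊆ A' then 1 - PowerSeries.X ^ x else 1 : PowerSeries ℤ) =
        if A ⊆ A' then 1 - PowerSeries.X ^ x else 1
      simp only [h7]
    rw [h5, h6, hs_add, card_union_of_disjoint hAB, Multiset.map_zero, Multiset.prod_zero, one_mul,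
      ← mul_assoc, PowerSeries.coeff_mul, Finset.Nat.sum_antidiagonal_eq_sum_range_succ_mk, mul_sum]
    refine sum_congr rfl fun s _ => ?_
    rw [pow_add]
    ring
  rw [sum_congr rfl fun A hA => sum_congr rfl fun B hB => e1 A hA B hB]
  rw [sum_congr rfl fun A _ => sum_comm, sum_comm]
  refine sum_congr rfl fun s _ => ?_
  rw [sum_mul_sum]

section free

variable {d J D : ℕ}

/-- The numbers of the variables of the two parts. -/
theorem card_elim (c₁ c₂ : ℕ → ℕ) (w₁ w₂ : ℕ) {i : ℕ} (hi : i < J) :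
    (univ.filter fun s : Vr J c₁ w₁ ⊕ Vr J c₂ w₂ => Sum.elim (bt J c₁ w₁) (bt J c₂ w₂) s = i).card =
      c₁ i + c₂ i := by
  rw [card_filter, Fintype.sum_sum_type, ← card_filter, ← card_filter]
  exact congrArg₂ (· + ·) (card_bt c₁ w₁ hi) (card_bt c₂ w₂ hi)

/-- A variable of a nonempty block. -/
theorem bt_cases {c : ℕ → ℕ} {w : ℕ} (t : Vr J c w) : bt J c w t = J ∨
    (bt J c w t < J ∧ c (bt J c w t) ≠ 0) := by
  rcases t with ⟨l, x⟩ | x
  · right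
    refine ⟨l.2, ?_⟩
    intro h0
    have h1 : c l.1 = 0 := h0
    exact absurd x.2 (by omega)
  · left
    rfl

/-- The blocks without objects may be removed. -/
theorem dl_cut {σ : St} {I I₁ : Finset ℕ} {w₁ : ℕ} (hD : D ≤ d) (hI : I ⊆ range J) (h1 : I₁ ⊆ I)
    (hw : w₁ ≤ σ.w) (hadm : ∀ k ∈ σ.ms, AdmO d J k) (hA : ∀ x A, .ord x A ∈ σ.ms → I \ I₁ ⊆ A)
    (h : ∀ s ≤ D, (σ.cut I₁ w₁).dl d J I₁ s ≤ 0) :
    σ.dl d J I D ≤ 0 := by
  have hm : ∀ k ∈ σ.ms, ∃ x A, k = .ord x A ∧ I \ I₁ ⊆ A := by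
    intro k hk
    obtain ⟨x, A, rfl, -⟩ := hadm k hk
    exact ⟨x, A, rfl, hA x A hk⟩
  unfold St.cut at h
  set c₁ : ℕ → ℕ := fun l => if l ∈ I₁ then σ.c l else 0 with hc1
  set c₂ : ℕ → ℕ := fun l => if l ∈ I₁ then 0 else σ.c l with hc2
  set w₂ := σ.w - w₁ with hw2
  set σ₂ : St := ⟨c₂, w₂, 0⟩ with hs2
  have hI1 : I₁ ⊆ range J := h1.trans hI
  have hI2 : I \ I₁ ⊆ range J := sdiff_subset.trans hI
  have hun : I₁ ∪ (I \ I₁) = I := union_sdiff_of_subset h1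
  have hdis : Disjoint I₁ (I \ I₁) := disjoint_sdiff
  have hcs : ∀ l, c₁ l + c₂ l = σ.c l := by
    intro l
    rw [hc1, hc2]
    by_cases hl : l ∈ I₁
    · simp only [if_pos hl, add_zero]
    · simp only [if_neg hl, zero_add]
  have hn : (∑ l ∈ range J, c₁ l + w₁) + (∑ l ∈ range J, c₂ l + w₂) = σ.n J := by
    have e1 : ∑ l ∈ range J, c₁ l + ∑ l ∈ range J, c₂ l = ∑ l ∈ range J, σ.c l := by
      rw [← sum_add_distrib]
      exact sum_congr rfl fun l _ => hcs l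
    unfold St.n
    omega
  -- the general dimension
  have hH : σ.H d J I D ≤ ∑ s ∈ range (D + 1),
      (St.mk c₁ w₁ σ.ms).H d J I₁ s * σ₂.H d J (I \ I₁) (D - s) := by
    have e1 := St.H_eq (d := d) (J := J) (D := D) hD
      (Sum.elim (bt J c₁ w₁) (bt J c₂ w₂)) σ (by
        rw [Fintype.card_sum, card_Vr, card_Vr]
        exact hn) (fun i hi => by
        rw [card_elim c₁ c₂ w₁ w₂ hi]
        exact hcs i) hI (fun k hk => ok_blk (hadm k hk).ok)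
    have e2 := HI_prod (d := d) hD (bt J c₁ w₁) (bt J c₂ w₂) (I₁ := I₁) (I₂ := I \ I₁) (by
        intro t ht
        rcases bt_cases t with h3 | ⟨h3, h4⟩
        · rw [h3] at ht
          exact absurd (mem_range.1 (hI2 ht)) (lt_irrefl _)
        · exact h4 (if_neg (mem_sdiff.1 ht).2)) (by
        intro t ht
        rcases bt_cases t with h3 | ⟨h3, h4⟩
        · rw [h3] at ht
          exact absurd (mem_range.1 (hI1 ht)) (lt_irrefl _)
        · exact h4 (if_pos ht)) σ.ms 0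
    rw [hun, add_zero, e1] at e2
    exact e2
  -- the virtual dimension
  have hV : σ.V J I D = ∑ s ∈ range (D + 1),
      (St.mk c₁ w₁ σ.ms).V J I₁ s * σ₂.V J (I \ I₁) (D - s) := by
    have e3 : ∀ i ∈ I₁, σ.c i = c₁ i := fun i hi => (if_pos hi).symm
    have e4 : ∀ i ∈ I \ I₁, σ.c i = c₂ i := fun i hi => (if_neg (mem_sdiff.1 hi).2).symm
    have e5 : ∑ i ∈ I₁, σ.c i ≤ ∑ l ∈ range J, c₁ l + w₁ := by
      rw [sum_congr rfl e3]
      exact (sum_le_sum_of_subset hI1).trans (Nat.le_add_right _ _)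
    have e6 : ∑ i ∈ I \ I₁, σ.c i ≤ ∑ l ∈ range J, c₂ l + w₂ := by
      rw [sum_congr rfl e4]
      exact (sum_le_sum_of_subset hI2).trans (Nat.le_add_right _ _)
    have e7 := vd_prod_free D hdis (c := σ.c) e5 e6 σ.ms hm
    rw [hun, hn] at e7
    show vd D I σ.c (σ.n J) σ.ms = _
    rw [e7]
    refine sum_congr rfl fun s _ => ?_
    rw [vd_congr_c e3, vd_congr_c e4]
    rfl
  have hEx : ∀ s, (σ₂.H d J (I \ I₁) (D - s) : ℤ) = σ₂.V J (I \ I₁) (D - s) := fun s =>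
    St.Ex_nil ((Nat.sub_le _ _).trans hD) hI2 rfl
  unfold St.dl
  rw [hV]
  have hH' : (σ.H d J I D : ℤ) ≤ ∑ s ∈ range (D + 1),
      ((St.mk c₁ w₁ σ.ms).H d J I₁ s : ℤ) * (σ₂.H d J (I \ I₁) (D - s) : ℤ) := by
    exact_mod_cast hH
  refine sub_nonpos.2 (hH'.trans (sum_le_sum fun s hs => ?_))
  rw [← hEx s]
  refine mul_le_mul_of_nonneg_right ?_ (Int.natCast_nonneg _)
  have h5 := h s (Nat.lt_succ_iff.1 (mem_range.1 hs))
  unfold St.dl at h5
  exact sub_nonpos.1 h5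

/-- The pairs `(I', #I')` do not see the cut. -/
theorem V_cut_low {σ : St} {I1 : Finset ℕ} {w1 : ℕ} (h1 : I1 ⊆ range J) (hw : w1 ≤ σ.w)
    (hm : ∀ k ∈ σ.ms, AdmO d J k) {I' : Finset ℕ} (hI' : I' ⊆ I1) :
    (σ.cut I1 w1).V J I' I'.card = σ.V J I' I'.card := by
  set c₁ : ℕ → ℕ := fun l => if l ∈ I1 then σ.c l else 0 with hc1
  have hI'J : I' ⊆ range J := hI'.trans h1
  have e3 : ∀ i ∈ I', c₁ i = σ.c i := fun i hi => if_pos (hI' hi)
  have hle : ∑ l ∈ range J, c₁ l ≤ ∑ l ∈ range J, σ.c l := by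
    refine sum_le_sum fun l _ => ?_
    rw [hc1]
    by_cases hl : l ∈ I1
    · simp only [if_pos hl, le_refl]
    · simp only [if_neg hl, Nat.zero_le]
  obtain ⟨t, ht⟩ : ∃ t, σ.n J = (∑ l ∈ range J, c₁ l + w1) + t := by
    refine ⟨σ.n J - (∑ l ∈ range J, c₁ l + w1), ?_⟩
    unfold St.n
    omega
  have hsum : ∑ i ∈ I', c₁ i ≤ ∑ l ∈ range J, c₁ l + w1 :=
    (sum_le_sum_of_subset hI'J).trans (Nat.le_add_right _ _)
  have hlowk : ∀ k ∈ σ.ms, k.Low I' := by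
    intro k hk
    obtain ⟨x, A, rfl, h1, h2, h3, h4⟩ := hm k hk
    exact (card_le_card (sdiff_subset_sdiff hI'J le_rfl)).trans h4
  show vd I'.card I' c₁ (∑ l ∈ range J, c₁ l + w1) σ.ms = vd I'.card I' σ.c (σ.n J) σ.ms
  rw [vd_congr_c (c := σ.c) (c' := c₁) fun i hi => (e3 i hi).symm, ht]
  have e1 := vd_prod I'.card (c := c₁) t hsum σ.ms 0 (fun k hk => absurd hk (Multiset.notMem_zero k))
  rw [add_zero] at e1
  rw [e1, sum_eq_single_of_mem I'.card (self_mem_range_succ _)]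
  · rw [Nat.sub_self, vd_nil, Multiset.map_zero, Multiset.prod_zero, one_mul]
    unfold hs
    rw [PowerSeries.coeff_mk, Nat.multichoose_zero_right, Nat.cast_one, mul_one]
  · intro s hs hne
    rw [vd_low hsum σ.ms hlowk I' le_rfl s (by have := mem_range.1 hs; omega), zero_mul]

end free

end Pool.Agent.GD.AL

end

section

/-!
# General d, ALPHA, finite systems: a point of the variables `W`

`dl_wpt`: one more point of the kind `ord x (range J)`, `x ≥ 1`, is compared with one variable of `W` less in all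
degrees: `HI_prod` with `ν₂` = one variable of `W`.
-/

set_option autoImplicit false

namespace Pool.Agent.GD.AL

open Finset MvPolynomial Pool.Agent.H51.TB Pool.Agent.H54.V7 Pool.Agent.V7.ST
open Pool.Agent.V7 (msk)

section

private theorem lf_one : lf (fun _ : Fin 1 => (1 : ℂ)) = X 0 := by
  unfold lf
  rw [Fin.sum_univ_one, C_1, one_mul]

private theorem mon_one (b : Fin 1 → ℕ) : mon ℂ b = (X 0 : MvPolynomial (Fin 1) ℂ) ^ b 0 := by
  unfold mon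
  rw [Fin.prod_univ_one]

/-- One variable: the forms of degree `r`. -/
private theorem one_var {d r J : ℕ} (hr : r ≤ d) (x : ℕ) :
    HI d r (fun _ : Fin 1 => J) ∅ {.ord x (range J)} ≤ if r < x then 1 else 0 := by
  have h1 := HI_le hr (fun _ : Fin 1 => J) ∅ (fun _ : Unit => Kd.ord x (range J))
    (fun _ _ => (1 : ℂ))
  have e : ((univ : Finset Unit).val.map fun _ : Unit => Kd.ord x (range J)) =
      {Kd.ord x (range J)} := rfl
  rw [e] at h1
  refine h1.trans ?_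
  have hz : ∀ Φ : Dl (Fin 1), Φ ∈ Lv (fun _ : Fin 1 => J) r ∅ → Φ (mon ℂ fun _ => r) = 0 →
      Φ = 0 := by
    intro Φ hΦ h0
    refine mon_ext fun b => ?_
    show Φ (mon ℂ b) = 0
    by_cases hb : b = fun _ => r
    · rw [hb, h0]
    · refine hΦ b fun h2 => hb ?_
      have h3 := (mem_Ex.1 h2).1
      rw [Fin.sum_univ_one] at h3
      funext s
      rw [Subsingleton.elim s 0, h3]
  split_ifs with h
  · let T : XX (fun _ : Fin 1 => J) r ∅ (fun _ : Unit => Kd.ord x (range J))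
        (fun _ (_ : Fin 1 × Fin (d + 1)) => (1 : ℂ)) →ₗ[ℂ] ℂ :=
      { toFun := fun Φ => Φ.1 (mon ℂ fun _ => r)
        map_add' := fun _ _ => rfl
        map_smul' := fun _ _ => rfl }
    have hT : Function.Injective T := by
      rw [← LinearMap.ker_eq_bot, LinearMap.ker_eq_bot']
      intro Φ hΦ
      exact Subtype.ext (hz Φ.1 (mem_XX.1 Φ.2).1 hΦ)
    have h2 := LinearMap.finrank_le_finrank_of_injective hT
    rwa [Module.finrank_self] at h2
  · have h2 : XX (fun _ : Fin 1 => J) r ∅ (fun _ : Unit => Kd.ord x (range J))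
        (fun _ (_ : Fin 1 × Fin (d + 1)) => (1 : ℂ)) = ⊥ := by
      rw [eq_bot_iff]
      intro Φ hΦ
      obtain ⟨h3, h4⟩ := mem_XX.1 hΦ
      have h5 := sat_ord.1 (h4 ())
      have h6 : opt (fun _ : Fin 1 => J) (range J) (fun _ : Fin 1 × Fin (d + 1) => (1 : ℂ)) =
          fun _ => (1 : ℂ) := by
        funext s
        show (if J ∈ range J then (0 : ℂ) else 1) = 1
        rw [if_neg notMem_range_self]
      rw [h6, lf_one] at h5
      rw [Submodule.mem_bot]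
      refine hz Φ h3 ?_
      have h7 : (mon ℂ fun _ : Fin 1 => r) = X 0 ^ x * (X 0 : MvPolynomial (Fin 1) ℂ) ^ (r - x) := by
        rw [mon_one, ← pow_add]
        congr 1
        omega
      rw [h7, ← ct_apply, h5]
      rfl
    rw [h2, finrank_bot]

private theorem vd_one_var (r x : ℕ) (A : Finset ℕ) (c : ℕ → ℕ) :
    vd r ∅ c 1 {.ord x A} = if r < x then 1 else 0 := by
  rw [vd_nil, Multiset.map_singleton, Multiset.prod_singleton]
  have h1 : Kd.P ∅ (.ord x A) = 1 - PowerSeries.X ^ x := by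
    show (if ∅ ⊆ A then 1 - PowerSeries.X ^ x else (1 : PowerSeries ℤ)) = _
    rw [if_pos (empty_subset A)]
  have h2 : ∀ k : ℕ, PowerSeries.coeff k (hs 1) = 1 := by
    intro k
    unfold hs
    rw [PowerSeries.coeff_mk, Nat.multichoose_one]
    rfl
  rw [h1, sub_mul, one_mul, map_sub, PowerSeries.coeff_X_pow_mul', h2]
  by_cases h : r < x
  · rw [if_pos h, if_neg (by omega), sub_zero]
  · rw [if_neg h, if_pos (by omega), h2, sub_self]

theorem dl_wpt {d J D : ℕ} {σ : St} {I : Finset ℕ} (hD : D ≤ d) (hI : I ⊆ range J)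
    (hm : ∀ k ∈ σ.ms, AdmO d J k) (hw : 1 ≤ σ.w) {x : ℕ} (_hx : 1 ≤ x)
    (h : ∀ s ≤ D, (σ.lw 1).dl d J I s ≤ 0) : (σ.ad (.ord x (range J))).dl d J I D ≤ 0 := by
  classical
  have hwe : σ.w = (σ.w - 1) + 1 := by omega
  -- the general dimension
  let β : Vr J σ.c (σ.w - 1) ⊕ Fin 1 → ℕ := Sum.elim (bt J σ.c (σ.w - 1)) fun _ => J
  have e1 : HI d D β I (σ.ad (.ord x (range J))).ms =
      (σ.ad (.ord x (range J))).H d J I D := by
    refine St.H_eq hD β (σ.ad (.ord x (range J))) ?_ (fun i hi => ?_) hI fun k hk => ?_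
    · rw [Fintype.card_sum, card_Vr, Fintype.card_fin]
      show _ = ∑ l ∈ range J, σ.c l + σ.w
      omega
    · have h2 : (univ.filter fun s => β s = i) =
          (univ.filter fun s : Vr J σ.c (σ.w - 1) => bt J σ.c (σ.w - 1) s = i).map
            Function.Embedding.inl := by
        ext s
        rw [mem_filter, mem_map]
        constructor
        · rintro ⟨-, hs⟩
          rcases s with s | s
          · exact ⟨s, mem_filter.2 ⟨mem_univ _, hs⟩, rfl⟩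
          · exact absurd (show J = i from hs) (by omega)
        · rintro ⟨t, ht, rfl⟩
          exact ⟨mem_univ _, (mem_filter.1 ht).2⟩
      rw [h2, card_map, card_bt _ _ hi]
      rfl
    · rcases Multiset.mem_cons.1 hk with rfl | hk
      · exact subset_rfl
      · exact ok_blk (hm k hk).ok
  have e2 := HI_prod_zero hD (bt J σ.c (σ.w - 1)) (fun _ : Fin 1 => J) (I := I)
    (fun _ h' => absurd (mem_range.1 (hI h')) (lt_irrefl J)) σ.ms {.ord x (range J)}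
  have e3 : (σ.ad (.ord x (range J))).ms = σ.ms + {.ord x (range J)} := by
    rw [Multiset.add_comm, Multiset.singleton_add]
    rfl
  have e4 : ((σ.ad (.ord x (range J))).H d J I D : ℤ) ≤
      ∑ s ∈ range (D + 1), ((σ.lw 1).H d J I s : ℤ) * (if D - s < x then 1 else 0) := by
    rw [← e1, e3]
    have e5 : (HI d D β I (σ.ms + {.ord x (range J)}) : ℤ) ≤
        ((∑ s ∈ range (D + 1), HI d s (bt J σ.c (σ.w - 1)) I σ.ms *
          HI d (D - s) (fun _ : Fin 1 => J) ∅ {.ord x (range J)} : ℕ) : ℤ) := by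
      exact_mod_cast e2
    refine e5.trans ?_
    push_cast
    refine sum_le_sum fun s hs => ?_
    have e6 : ((HI d (D - s) (fun _ : Fin 1 => J) ∅ {.ord x (range J)} : ℕ) : ℤ) ≤
        if D - s < x then 1 else 0 := by
      have e7 := one_var (J := J) (show D - s ≤ d by omega) x
      split_ifs with h8
      · rw [if_pos h8] at e7
        exact_mod_cast e7
      · rw [if_neg h8] at e7
        exact_mod_cast e7
    exact mul_le_mul_of_nonneg_left e6 (Nat.cast_nonneg _)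
  -- the virtual dimension
  have hsum : ∑ i ∈ I, σ.c i ≤ ∑ l ∈ range J, σ.c l := sum_le_sum_of_subset hI
  have v1 : (σ.ad (.ord x (range J))).V J I D =
      ∑ s ∈ range (D + 1), (σ.lw 1).V J I s * (if D - s < x then 1 else 0) := by
    have v2 := vd_prod D (I := I) (c := σ.c) (n₁ := ∑ l ∈ range J, σ.c l + (σ.w - 1)) 1
      (by omega) σ.ms {.ord x (range J)} fun k hk => by
        rw [Multiset.mem_singleton] at hk
        exact ⟨x, range J, hk, hI⟩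
    unfold St.V
    rw [e3]
    have v3 : (σ.ad (.ord x (range J))).n J = ∑ l ∈ range J, σ.c l + (σ.w - 1) + 1 := by
      show ∑ l ∈ range J, σ.c l + σ.w = _
      omega
    rw [v3]
    refine v2.trans (sum_congr rfl fun s _ => ?_)
    rw [vd_one_var]
    rfl
  unfold St.dl
  rw [v1]
  have h9 : ∑ s ∈ range (D + 1), ((σ.lw 1).H d J I s : ℤ) * (if D - s < x then 1 else 0) ≤
      ∑ s ∈ range (D + 1), (σ.lw 1).V J I s * (if D - s < x then 1 else 0) := by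
    refine sum_le_sum fun s hs => ?_
    have h10 := h s (by rw [mem_range] at hs; omega)
    unfold St.dl at h10
    split_ifs
    · rw [mul_one, mul_one]
      linarith
    · rw [mul_zero, mul_zero]
  linarith

end

end Pool.Agent.GD.AL

end
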