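import Pool.Agent.H94.LP7.GD.AL.AV_1
import Pool.Agent.H94.LP7.M31
import Pool.Agent.H94.LP7.M33
import Pool.Agent.H94.LP7.M45
import Pool.Agent.H94.LP7.M46
import Pool.Agent.H94.LP7.M47
import Pool.Agent.H94.LP7.M49

/-! The parts of this file: GD.AL.AVst, GD.AL.BTa, GD.AL.BT, GD.Top.CvN. -/

section

/-!
# General d, ALPHA: the replacement of an ordinary object, for states
-/

set_option autoImplicit false

namespace Pool.Agent.GD.AL

open Finset

/-- The replacement of an ordinary object. -/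
theorem av_st {d J D : ℕ} {σ : St} {I : Finset ℕ} (hD : D ≤ d) (hI : I ⊆ range J)
    (hm : ∀ k ∈ σ.ms, k.Ok d J) {x : ℕ} {A : Finset ℕ} {a c' : ℕ} (hx : 2 ≤ x) (hxD : x ≤ D)
    (hA : A ⊆ range J) (ha : a ∈ I) (haA : a ∉ A) (hc1 : 1 ≤ c') (hc2 : c' < σ.c a) (hw : 2 ≤ σ.w)
    (h1 : ∀ t ≤ c', ∀ s ≤ 1, ∀ D' ≤ D - x + 1, ((σ.lo a t).lw s).Ex d J (insert a (I ∩ A)) D')
    (h2 : ∀ t ≤ c', ∀ s ≤ 1, ∀ D' ≤ D - x, ((σ.lo a t).lw s).Ex d J (I ∩ A) D') :
    (c' : ℤ) * (σ.ad (.ord x A)).dl d J I D ≤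
      (c' - 1 : ℤ) * (σ.ad (.ord x (insert a A))).dl d J I D +
        (σ.ad (.ord (x - 1) (insert a A))).dl d J I D :=
  av hD hI hm hx hxD hA ha haA hc1 hc2 hw h1 h2

end Pool.Agent.GD.AL

end

section

/-!
# General d, ALPHA: the finite systems, objects of positive `W`-degree
-/

set_option autoImplicit false

namespace Pool.Agent.GD.AL

open Finset

/-- The measure for the removal of the objects of positive `W`-degree. -/
def muW (I : Finset ℕ) : Kd → ℕ
  | .ord x A => if (I \ A).card < x then 1 + (I \ A).card else 0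
  | .cl _ _ _ _ => 0

theorem Ex.dl_le {d J D : ℕ} {σ : St} {I : Finset ℕ} (h : σ.Ex d J I D) : σ.dl d J I D ≤ 0 := by
  unfold St.Ex at h
  unfold St.dl
  omega

namespace BTS

variable {d J i : ℕ} {c0 : ℕ → ℕ} {η : ℝ} {K W : ℕ} {I : Finset ℕ} {σ : St}

/-- One object less, one variable of `W` less. -/
theorem lw_sub (h : BTS d J i c0 η K W I σ) (hη : 0 ≤ η) {k : Kd} {ms' : Multiset Kd}
    (hms : σ.ms = k ::ₘ ms') {s : ℕ} (hs : s ≤ 1) :
    BTS d J i c0 η K W I ((σ.wm ms').lw s) := by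
  have hsub : BTS d J i c0 η K W I (σ.wm ms') := h.sub hη (by rw [hms]; exact Multiset.le_cons_self _ _)
  have hd : 1 ≤ d := by
    obtain ⟨x, A, -, h1, h2, -⟩ := h.adm k (by rw [hms]; exact Multiset.mem_cons_self _ _)
    omega
  have hw := h.hw
  rw [hms, Multiset.card_cons, mul_add, mul_one] at hw
  have hw' : W + d * ms'.card ≤ σ.w - s := by omega
  refine ⟨hsub.hI, hsub.hK, hsub.hc, hsub.adm, hsub.hT, fun I' hI' => ?_, hw'⟩
  rcases Nat.eq_zero_or_pos s with rfl | hs0
  · exact hsub.hV I' hI'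
  · obtain rfl : s = 1 := by omega
    rw [V_lw_low (hI'.trans hsub.hI) hsub.adm (by show 1 ≤ σ.w; omega)]
    exact hsub.hV I' hI'

/-- One variable less in the block `a`. -/
theorem lo_half (h : BTS d J i c0 η K W I σ) (hη : 0 < η) (hK : 2 ≤ η * K) {a t : ℕ} (ha : a ∈ I)
    (ht : t ≤ 1) : BTS d J i c0 (η / 2) K W I (σ.lo a t) := by
  have hwk := h.weak (η' := η / 2) (by linarith) le_rfl le_rfl
  have haJ : a < J := mem_range.1 (h.hI ha)
  have hc0a : 2 ≤ η * c0 a :=
    hK.trans (mul_le_mul_of_nonneg_left (by exact_mod_cast h.hK a ha) hη.le)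
  have hca : 1 ≤ σ.c a := by
    have h1 := h.c_ge hη.le ha
    have h2 : (1 : ℝ) ≤ σ.c a := by linarith
    exact_mod_cast h2
  refine ⟨h.hI, h.hK, fun l => ?_, h.adm, h.hT, fun I' hI' => ?_, h.hw⟩
  · show Function.update σ.c a (σ.c a - t) l ≤ c0 l
    by_cases hl : l = a
    · subst hl
      rw [Function.update_self]
      exact (Nat.sub_le _ _).trans (h.hc l)
    · rw [Function.update_of_ne hl]
      exact h.hc l
  · rcases Nat.eq_zero_or_pos t with rfl | ht0
    · rw [lo_zero]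
      exact hwk.hV I' hI'
    · obtain rfl : t = 1 := by omega
      by_cases haI' : a ∈ I'
      · rw [V_lo_low haI' (hI'.trans h.hI) hca]
        have h1 := h.hV I' hI'
        have h2 := h.Vle' hη.le ((erase_subset a I').trans hI')
        have h3 : ∏ l ∈ I', (c0 l : ℝ) = c0 a * ∏ l ∈ I'.erase a, (c0 l : ℝ) :=
          (mul_prod_erase I' (fun l => (c0 l : ℝ)) haI').symm
        have h4 : 0 ≤ ∏ l ∈ I'.erase a, (c0 l : ℝ) := prod_nonneg c0 _
        rw [h3] at h1 ⊢
        push_cast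
        have h5 : (1 : ℝ) * ∏ l ∈ I'.erase a, (c0 l : ℝ) ≤
            (η * c0 a / 2) * ∏ l ∈ I'.erase a, (c0 l : ℝ) :=
          mul_le_mul_of_nonneg_right (by linarith) h4
        nlinarith
      · rw [V_lo_low' haI' haJ (hI'.trans h.hI) h.adm hca]
        exact hwk.hV I' hI'

/-- The object `ord x A` of positive `W`-degree is replaced. -/
theorem repl (h : BTS d J i c0 η K W I σ) (hη : 0 ≤ η) {x a : ℕ} {A : Finset ℕ}
    {ms' : Multiset Kd} (hms : σ.ms = .ord x A ::ₘ ms') (ha : a ∈ I) (haA : a ∉ A)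
    (hx : (I \ A).card < x) :
    BTS d J i c0 η K W I ((σ.wm ms').ad (.ord (x - 1) (insert a A))) := by
  have hsub : BTS d J i c0 η K W I (σ.wm ms') := h.sub hη (by rw [hms]; exact Multiset.le_cons_self _ _)
  obtain ⟨h1, h2, h3, h4⟩ := (h.adm (.ord x A) (by rw [hms]; exact Multiset.mem_cons_self _ _)).x_pos rfl
  have haJ : a ∈ range J := h.hI ha
  have haT : a ∈ I \ A := mem_sdiff.2 ⟨ha, haA⟩
  have hT1 : 1 ≤ (I \ A).card := card_pos.2 ⟨a, haT⟩
  have e1 : range J \ insert a A = (range J \ A).erase a := by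
    rw [sdiff_insert]
  have e2 : I \ insert a A = (I \ A).erase a := by
    rw [sdiff_insert]
  have c1 := card_erase_of_mem (mem_sdiff.2 ⟨haJ, haA⟩ : a ∈ range J \ A)
  have c2 := card_erase_of_mem haT
  have hadm : AdmO d J (.ord (x - 1) (insert a A)) :=
    ⟨x - 1, insert a A, rfl, by omega, by omega, insert_subset haJ h3, by rw [e1, c1]; omega⟩
  refine ⟨hsub.hI, hsub.hK, hsub.hc, ?_, ?_, fun I' hI' => ?_, ?_⟩
  · intro k hk
    rcases Multiset.mem_cons.1 hk with rfl | hk
    · exact hadm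
    · exact hsub.adm k hk
  · intro y B hk hc
    rcases Multiset.mem_cons.1 hk with hk | hk
    · cases hk
      rw [e2, c2] at hc
      omega
    · exact hsub.hT y B hk hc
  · rw [V_ord_low (hI'.trans hsub.hI) hsub.adm (x := x - 1) (by omega) (by rw [e1, c1]; omega),
      if_neg, sub_zero]
    · exact hsub.hV I' hI'
    · intro hc
      have h5 : (I' \ insert a A).card ≤ (I \ insert a A).card :=
        card_le_card (sdiff_subset_sdiff hI' le_rfl)
      rw [e2, c2] at h5
      omega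
  · have hw := h.hw
    rw [hms, Multiset.card_cons] at hw
    show W + d * (.ord (x - 1) (insert a A) ::ₘ ms' : Multiset Kd).card ≤ σ.w
    rw [Multiset.card_cons]
    exact hw

end BTS

/-- It is enough to have the states whose objects all have `|I \ A| = x`. -/
theorem bt_W {d J i D : ℕ} (hD : D ≤ d) {c0 : ℕ → ℕ} {η : ℝ} {K W : ℕ} (hη : 0 < η)
    (hK : 2 ≤ η * K)
    (orc : ∀ (σ : St) (I : Finset ℕ), BTS d J i c0 (η / 2) K W I σ → ∀ D' < D, σ.Ex d J I D')
    (term : ∀ (σ : St) (I : Finset ℕ), BTS d J i c0 η K W I σ →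
      (∀ x A, .ord x A ∈ σ.ms → (I \ A).card = x) → σ.dl d J I D ≤ 0) :
    ∀ (σ : St) (I : Finset ℕ), BTS d J i c0 η K W I σ → σ.Ex d J I D := by
  intro σ I hσ
  -- the upper bound
  have hup : ∀ (N : ℕ) (σ : St), BTS d J i c0 η K W I σ → (σ.ms.map (muW I)).sum ≤ N →
      σ.dl d J I D ≤ 0 := by
    intro N
    induction N with
    | zero =>
      intro σ hσ hN
      refine term σ I hσ fun x A hk => ?_
      obtain ⟨h1, h2, h3, h4⟩ := (hσ.adm _ hk).x_pos rfl
      have h5 : (I \ A).card ≤ x := (card_le_card (sdiff_subset_sdiff hσ.hI subset_rfl)).trans h4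
      by_contra hne
      have h6 : muW I (.ord x A) ≤ (σ.ms.map (muW I)).sum :=
        Multiset.single_le_sum (fun _ _ => Nat.zero_le _) _ (Multiset.mem_map_of_mem _ hk)
      have h7 : muW I (.ord x A) = 1 + (I \ A).card := if_pos (by omega)
      omega
    | succ N ih =>
      intro σ hσ hN
      by_cases hall : ∀ x A, .ord x A ∈ σ.ms → (I \ A).card = x
      · exact term σ I hσ hall
      push Not at hall
      obtain ⟨x, A, hk, hne⟩ := hall
      obtain ⟨h1, h2, h3, h4⟩ := (hσ.adm _ hk).x_pos rfl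
      have h5 : (I \ A).card ≤ x := (card_le_card (sdiff_subset_sdiff hσ.hI subset_rfl)).trans h4
      have h6 : (I \ A).card < x := by omega
      obtain ⟨ms', hms⟩ := Multiset.exists_cons_of_mem hk
      have hσ' : (σ.wm ms').ad (.ord x A) = σ := by
        unfold St.wm St.ad
        rw [← hms]
      have hmu : muW I (.ord x A) = 1 + (I \ A).card := if_pos h6
      rw [hms, Multiset.map_cons, Multiset.sum_cons, hmu] at hN
      have hsub : BTS d J i c0 η K W I (σ.wm ms') :=
        hσ.sub hη.le (by rw [hms]; exact Multiset.le_cons_self _ _)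
      have hIH' : (σ.wm ms').dl d J I D ≤ 0 := ih _ hsub (by show (ms'.map (muW I)).sum ≤ N; omega)
      have hw := hσ.hw
      rw [hms, Multiset.card_cons, mul_add, mul_one] at hw
      rcases (I \ A).eq_empty_or_nonempty with hT | ⟨a, haT⟩
      · -- a point of `W`
        have hIA : I ⊆ A := sdiff_eq_empty_iff_subset.1 hT
        have h7 := St.dl_spec (d := d) (J := J) (σ := σ.wm ms') (I := I) hD (x := x) h3 (by
          rw [inter_eq_left.2 hIA, inter_eq_left.2 hσ.hI])
        rw [hσ'] at h7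
        refine h7.trans (dl_wpt hD hσ.hI hsub.adm (by show 1 ≤ σ.w; omega) h1 fun s hs => ?_)
        have h8 := hσ.lw_sub hη.le hms (s := 1) le_rfl
        rcases Nat.lt_or_ge s D with h9 | h9
        · exact Ex.dl_le (orc _ I (h8.weak (by linarith) le_rfl le_rfl) s h9)
        · obtain rfl : s = D := le_antisymm hs h9
          exact ih _ h8 (by show (ms'.map (muW I)).sum ≤ N; omega)
      · -- a point with a block of `I`
        obtain ⟨haI, haA⟩ := mem_sdiff.1 haT
        have hT1 : 1 ≤ (I \ A).card := card_pos.2 ⟨a, haT⟩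
        rcases Nat.lt_or_ge D x with hxD | hxD
        · obtain ⟨e1, e2⟩ := St.dl_drop (σ := σ.wm ms') hD hσ.hI hsub.adm A
            (Or.inl hxD : D < x ∨ D - x < (I ∩ A).card)
          rw [hσ'] at e1 e2
          unfold St.dl at hIH' ⊢
          rw [e1, e2]
          exact hIH'
        · have hexm : ∀ t ≤ 1, ∀ s ≤ 1, ∀ D' < D, ∀ I' ⊆ I,
              (((σ.wm ms').lo a t).lw s).Ex d J I' D' := by
            intro t ht s hs D' hD' I' hI'
            have g1 := (hσ.lw_sub hη.le hms hs).lo_half hη hK haI ht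
            exact orc _ I' (g1.lev hI') D' hD'
          have h8 := av_st (σ := σ.wm ms') (c' := 1) hD hσ.hI (fun k hk => (hsub.adm k hk).ok)
            (x := x) (A := A) (a := a) (by omega) hxD h3 haI haA le_rfl (by
              have g1 := hσ.c_ge hη.le haI
              have g2 : η * K ≤ η * c0 a :=
                mul_le_mul_of_nonneg_left (by exact_mod_cast hσ.hK a haI) hη.le
              have g3 : (2 : ℝ) ≤ σ.c a := by linarith
              have g4 : 2 ≤ σ.c a := by exact_mod_cast g3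
              exact g4) (by show 2 ≤ σ.w; omega)
            (fun t ht s hs D' hD' => hexm t ht s hs D' (by omega) _
              (insert_subset haI inter_subset_left))
            (fun t ht s hs D' hD' => hexm t ht s hs D' (by omega) _ inter_subset_left)
          rw [hσ'] at h8
          have h9 := ih _ (hσ.repl hη.le hms haI haA h6) (by
            show ((.ord (x - 1) (insert a A) ::ₘ ms' : Multiset Kd).map (muW I)).sum ≤ N
            rw [Multiset.map_cons, Multiset.sum_cons]
            have e2 : I \ insert a A = (I \ A).erase a := by rw [sdiff_insert]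
            have c2 := card_erase_of_mem haT
            have h10 : muW I (.ord (x - 1) (insert a A)) ≤ (I \ A).card := by
              show (if (I \ insert a A).card < x - 1 then 1 + (I \ insert a A).card else 0) ≤ _
              rw [e2, c2]
              split_ifs <;> omega
            omega)
          push_cast at h8
          linarith
  have h1 := hup _ σ hσ le_rfl
  have h2 := lbO (σ := σ) hD hσ.hI hσ.adm fun S hS I' hI' D' hD' _ =>
    Ex.dl_le (orc _ I' (((hσ.sub hη.le hS).lev hI').weak (by linarith) le_rfl le_rfl) D' hD')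
  unfold St.dl at h1
  unfold St.Ex
  omega

end Pool.Agent.GD.AL

end

section

/-!
# General d, ALPHA: the finite systems

`bt_all`: the states with few objects of positive `W`-degree are exact.
-/

set_option autoImplicit false

namespace Pool.Agent.GD.AL

open Finset

section num

/-- The sum of the sizes. -/
def SF (J : ℕ) (r : ℕ → ℕ) (x : ℕ) : ℕ := x + ∑ l ∈ range J, r l

/-- The bound for the number of the objects. -/
def mFb (J M : ℕ) (r : ℕ → ℕ) (x : ℕ) : ℕ := M * ((x + 1) * ∏ l ∈ range J, (r l + 1))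

/-- The number of the variables of `W` of the small system. -/
def w1F (d J C B Q M k2 k4 : ℕ) (q2 q4 G3 G5 : (ℕ → ℕ) → ℕ) (r : ℕ → ℕ) (x : ℕ) : ℕ :=
  Q * (q2 r * (x + 1) ^ k2 + G3 r + q4 r * (x + 1) ^ k4 + G5 r + d * mFb J M r x) +
    C * (mFb J M r x + SF J r x + 1) ^ (d + 1) + B * (1 + SF J r x) ^ (d + 1) + SF J r x

theorem SF_pb (J : ℕ) : Pb (SF J) :=
  Pb.id.add (Pb.coef fun r => ∑ l ∈ range J, r l)

theorem succ_pb : Pb fun _ x => x + 1 := Pb.id.add (Pb.coef fun _ => 1)

theorem mF_pb (J M : ℕ) : Pb (mFb J M) :=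
  (Pb.coef fun _ => M).mul (succ_pb.mul (Pb.coef fun r => ∏ l ∈ range J, (r l + 1)))

theorem w1F_pb (d J C B Q M k2 k4 : ℕ) (q2 q4 G3 G5 : (ℕ → ℕ) → ℕ) :
    Pb (w1F d J C B Q M k2 k4 q2 q4 G3 G5) := by
  have h1 : Pb fun r x => Q * (q2 r * (x + 1) ^ k2 + G3 r + q4 r * (x + 1) ^ k4 + G5 r +
      d * mFb J M r x) :=
    (Pb.coef fun _ => Q).mul ((((((Pb.coef q2).mul (succ_pb.pow k2)).add (Pb.coef G3)).add
      ((Pb.coef q4).mul (succ_pb.pow k4))).add (Pb.coef G5)).add
        ((Pb.coef fun _ => d).mul (mF_pb J M)))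
  have h2 : Pb fun r x => C * (mFb J M r x + SF J r x + 1) ^ (d + 1) :=
    (Pb.coef fun _ => C).mul ((((mF_pb J M).add (SF_pb J)).add (Pb.coef fun _ => 1)).pow (d + 1))
  have h3 : Pb fun r x => B * (1 + SF J r x) ^ (d + 1) :=
    (Pb.coef fun _ => B).mul (((Pb.coef fun _ => 1).add (SF_pb J)).pow (d + 1))
  exact ((h1.add h2).add h3).add (SF_pb J)

end num

section stage

variable {d J : ℕ}

/-- The cut state. -/
theorem bts_cut {i i' : ℕ} {c0 : ℕ → ℕ} {η : ℝ} {K W W' w1 m : ℕ} {I I1 : Finset ℕ} {σ : St}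
    (h : BTS d J i c0 η K W I σ) (h1 : I1 ⊆ I) (hw : w1 ≤ σ.w) (hm : σ.ms.card ≤ m)
    (hW : W' + d * m ≤ w1)
    (hT : ∀ x A, .ord x A ∈ σ.ms → (I1 \ A).card = x → I1 \ A ⊆ Ico i' J) :
    BTS d J i' c0 η K W' I1 (σ.cut I1 w1) := by
  refine ⟨h1.trans h.hI, fun l hl => h.hK l (h1 hl), fun l => ?_, h.adm, hT, fun I' hI' => ?_, ?_⟩
  · show (if l ∈ I1 then σ.c l else 0) ≤ c0 l
    split_ifs
    · exact h.hc l
    · exact Nat.zero_le _
  · rw [V_cut_low (h1.trans h.hI) hw h.adm hI']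
    exact h.hV I' (hI'.trans h1)
  · exact (Nat.add_le_add_left (Nat.mul_le_mul_left _ hm) _).trans hW

/-- The transport theorem for the stage `i`. -/
theorem stage_top {i D : ℕ} (hD : D ≤ d) {c0 : ℕ → ℕ} {ηt ϖt η₁ ϖ₁ K₁ : ℝ}
    (tr : ∀ (c0 : ℕ → ℕ) (n0 N : ℕ) (I : Finset ℕ) (D : ℕ) (G : Multiset Kd → Prop)
        (Kp : ℕ → Finset ℕ → Prop), I ⊆ range J → D ≤ d → Big d J c0 n0 I K₁ →
        K₁ * (1 + Real.log n0) ≤ (N : ℝ) → N ≤ n0 →
        (∀ x A ms, G (.ord x A ::ₘ ms) → G ms) →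
        (∀ x A a ms, a ∈ range J → a ∉ A → G (.ord x A ::ₘ ms) → G (.ord x (insert a A) ::ₘ ms)) →
        (∀ x A a ms, 2 ≤ x → a ∈ I → a ∉ A → G (.ord x A ::ₘ ms) →
          G (.ord (x - 1) (insert a A) ::ₘ ms)) →
        (∀ x T, T ⊆ I → T.card ≤ x → 1 ≤ x → ¬ Kp x T → x = 1 ∨
          ∃ a ∈ T, (N : ℝ) ≤ (∏ l ∈ T.erase a, (c0 l : ℝ)) * (n0 : ℝ) ^ (x - T.card)) →
        Orc d J c0 n0 G I D η₁ ϖ₁ →
        (∀ σ : St, InO d J c0 n0 ϖ₁ I σ → G σ.ms →
          (∀ k ∈ σ.ms, ∃ x A, k = .ord x A ∧ Kp x (I \ A)) → Pos J c0 n0 η₁ σ I D →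
          σ.dl d J I D ≤ 0) →
        ∀ σ : St, InO d J c0 n0 ϖt I σ → G σ.ms → Pos J c0 n0 ηt σ I D → σ.dl d J I D ≤ 0)
    {n0 m : ℕ} {I : Finset ℕ} (hI : I ⊆ Ico i J) (hi : i < J)
    (hBig : Big d J (rs i J c0) n0 I K₁) (hlog : K₁ * (1 + Real.log n0) ≤ (c0 i : ℝ))
    (hN : c0 i ≤ n0) (h1 : ∀ l ∈ I, 1 ≤ c0 l)
    (orc : Orc d J (rs i J c0) n0 (fun ms => ms.card ≤ m) I D η₁ ϖ₁)
    (fin : ∀ σ : St, InO d J (rs i J c0) n0 ϖ₁ I σ → σ.ms.card ≤ m →
      (∀ k ∈ σ.ms, ∃ x A, k = .ord x A ∧ ¬ ((I \ A).card = x ∧ i ∈ I \ A)) →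
      Pos J (rs i J c0) n0 η₁ σ I D → σ.dl d J I D ≤ 0) :
    ∀ τ : St, InO d J (rs i J c0) n0 ϖt I τ → τ.ms.card ≤ m → Pos J (rs i J c0) n0 ηt τ I D →
      τ.dl d J I D ≤ 0 := by
  have hIr : I ⊆ range J := fun l hl => mem_range.2 (mem_Ico.1 (hI hl)).2
  refine tr (rs i J c0) n0 (c0 i) I D (fun ms => ms.card ≤ m)
    (fun x T => ¬ (T.card = x ∧ i ∈ T)) hIr hD hBig hlog hN ?_ ?_ ?_ ?_ orc fin
  · intro x A ms h
    rw [Multiset.card_cons] at h
    show ms.card ≤ m
    omega
  · intro x A a ms _ _ h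
    rw [Multiset.card_cons] at h
    show (_ ::ₘ ms).card ≤ m
    rw [Multiset.card_cons]
    exact h
  · intro x A a ms _ _ _ h
    rw [Multiset.card_cons] at h
    show (_ ::ₘ ms).card ≤ m
    rw [Multiset.card_cons]
    exact h
  · intro x T hT _ hx hn
    obtain ⟨h2, h3⟩ := not_not.1 hn
    rcases Nat.eq_or_lt_of_le hx with h4 | h4
    · exact Or.inl h4.symm
    · right
      have h5 : (T.erase i).card = x - 1 := by rw [card_erase_of_mem h3, h2]
      obtain ⟨a, ha⟩ := card_pos.1 (show 0 < (T.erase i).card by omega)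
      obtain ⟨h6, h7⟩ := mem_erase.1 ha
      refine ⟨a, h7, ?_⟩
      rw [h2, Nat.sub_self, pow_zero, mul_one]
      have h8 : c0 i ≤ ∏ l ∈ T.erase a, rs i J c0 l := by
        have h9 : rs i J c0 i = c0 i := if_pos ⟨le_rfl, hi⟩
        rw [← h9]
        refine single_le_prod' (f := fun l => rs i J c0 l) (fun l hl => ?_)
          (mem_erase.2 ⟨Ne.symm h6, h3⟩)
        have h10 := hT (mem_of_mem_erase hl)
        show 1 ≤ rs i J c0 l
        rw [rs_of_mem (hI h10)]
        exact h1 l h10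
      exact_mod_cast h8

end stage

/-! ### The base -/

theorem bt_base {d J D : ℕ} (hD : D ≤ d) (ih : ∀ D' < D, BT d J J D') : BT d J J D := by
  intro η hη
  obtain ⟨K4, k4, F4, q4, h4⟩ := bt_unif (range D) (fun D' hD' => ih D' (mem_range.1 hD'))
    (half_pos hη)
  refine ⟨max K4 ⌈2 / η⌉₊, k4, F4, q4, fun c0 hF σ I hI hK hc hm hT hV hw => ?_⟩
  have h2 : (2 : ℝ) ≤ η * (max K4 ⌈2 / η⌉₊ : ℕ) := by
    have h3 : 2 / η ≤ ((max K4 ⌈2 / η⌉₊ : ℕ) : ℝ) :=
      (Nat.le_ceil _).trans (Nat.cast_le.2 (le_max_right _ _))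
    rw [div_le_iff₀ hη] at h3
    linarith only [h3]
  refine bt_W (i := J) (c0 := c0) (K := max K4 ⌈2 / η⌉₊)
    (W := q4 (rs (J + 1) J c0) * (rs J J c0 J + 1) ^ k4) hD hη h2 ?_ ?_ σ I
    ⟨hI, hK, hc, hm, hT, hV, hw⟩
  · intro σ I hs D' hD'
    exact h4 c0 hF σ I (hs.weak le_rfl (le_max_left _ _) le_rfl) D' (mem_range.2 hD')
  · intro σ I hs hx
    have h0 : σ.ms = 0 := by
      refine Multiset.eq_zero_of_forall_notMem fun k hk => ?_
      obtain ⟨x, A, rfl, h5, -, -, -⟩ := hs.adm k hk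
      have h6 := hs.hT x A hk (hx x A hk)
      rw [Ico_self, subset_empty] at h6
      have h7 := hx x A hk
      rw [h6, card_empty] at h7
      omega
    have h5 := St.Ex_nil (J := J) hD hs.hI h0
    unfold St.Ex at h5
    unfold St.dl
    omega

/-! ### The step -/

end Pool.Agent.GD.AL

end

section

/-!
# GD, TOP: CVJ from the exactness of the base tensor systems
-/

set_option autoImplicit false
set_option linter.unusedSectionVars false

namespace Pool.Agent.GD

open Finset Module MvPolynomial Pool.Agent.H51.TB Pool.Agent.V7.ST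
open Pool.Agent.GD.Top (Bl TI Gam IsB)
open Pool.Agent.GD.BE (pc dn Exac)

theorem FF_map {ι ι' : Type} [DecidableEq ι] [DecidableEq ι'] (f : ι ↪ ι') (κ : Finset ι' → ℚ)
    (I : Finset ι) : FF κ (I.map f) = FF (fun S => κ (S.map f)) I := by
  have h : IsF (fun S => κ (S.map f)) (fun I => FF κ (I.map f)) := by
    constructor
    · show FF κ ((∅ : Finset ι).map f) = 1
      rw [map_empty]
      exact (isF_FF κ).empty
    · intro I i hi
      show FF κ ((insert i I).map f) = FF κ (I.map f) -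
        ∑ B ∈ I.powerset, κ ((insert i B).map f) * FF κ ((I \ B).map f)
      rw [map_insert, (isF_FF κ).step (I.map f) (f i) (by rwa [mem_map'])]
      congr 1
      symm
      refine sum_bij (fun B _ => B.map f) ?_ ?_ ?_ ?_
      · intro B hB
        rw [mem_powerset] at hB ⊢
        exact map_subset_map.2 hB
      · intro B _ B' _ hBB
        exact map_injective f hBB
      · intro B hB
        rw [mem_powerset] at hB
        obtain ⟨u, hu, rfl⟩ := subset_map_iff.1 hB
        exact ⟨u, mem_powerset.2 hu, rfl⟩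
      · intro B _
        rw [map_insert, Finset.map_sdiff]
  have h1 := (isF_FF _).unique h
  rw [h1]

/-! ### The numbers of the members -/

theorem pts_eq (k : Kd) : k.pts = (univ : Finset (Fin k.nm)).val.map fun y => (k.ex, k.mA y.1) := by
  rcases k with ⟨e, A⟩ | ⟨e, dl, i, As⟩
  · rfl
  · rw [Fin.univ_val_map]
    show ((As.map fun A => (e, A) : List (ℕ × Finset ℕ)) : Multiset (ℕ × Finset ℕ)) = _
    congr 1
    apply List.ext_getElem
    · rw [List.length_map, List.length_ofFn]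
      rfl
    · intro y h1 h2
      rw [List.getElem_map, List.getElem_ofFn]
      rw [List.length_map] at h1
      show (e, As[y]) = (e, As.getD y ∅)
      rw [List.getD_eq_getElem _ _ h1]

theorem npt_sum {κ : Type} [Fintype κ] (rest : κ → Kd) (y : ℕ) (B : Finset ℕ) :
    npt ((univ : Finset κ).val.map rest) y B = ∑ i, (rest i).pts.count (y, B) := by
  unfold npt
  rw [Multiset.count_bind, Multiset.map_map]
  rfl

/-- The members are as expected. -/
def Kd.Gm (d J : ℕ) (k : Kd) : Prop := k.nm ≤ d + 1 ∧ ∀ y < k.nm, k.mA y ⊆ range J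

theorem sp_map {J : ℕ} (k : Kd) (y : ℕ) : (k.sp J y).map Fin.valEmbedding = range J \ k.mA y := by
  ext x
  rw [mem_map, mem_sdiff, mem_range]
  unfold Kd.sp
  constructor
  · rintro ⟨i, hi, rfl⟩
    exact ⟨i.2, (mem_filter.1 hi).2⟩
  · rintro ⟨h1, h2⟩
    exact ⟨⟨x, h1⟩, mem_filter.2 ⟨mem_univ _, h2⟩, rfl⟩

theorem map_sub {J : ℕ} (S : Finset (Fin J)) : S.map Fin.valEmbedding ⊆ range J := by
  intro x hx
  obtain ⟨i, _, rfl⟩ := mem_map.1 hx
  exact mem_range.2 i.2

theorem card_mem {d J : ℕ} {k : Kd} (hk : k.Gm d J) (S : Finset (Fin J)) :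
    Nat.card {y : Fin (d + 1) // k.isz J y.1 ∧ k.sp J y.1 = S} =
      k.pts.count (S.card, range J \ S.map Fin.valEmbedding) := by
  classical
  have h1 : ∀ y < k.nm, ((S.card, range J \ S.map Fin.valEmbedding) = (k.ex, k.mA y) ↔
      k.isz J y ∧ k.sp J y = S) := by
    intro y hy
    have h2 : k.sp J y = S ↔ range J \ S.map Fin.valEmbedding = k.mA y := by
      rw [← (map_injective (Fin.valEmbedding : Fin J ↪ ℕ)).eq_iff, sp_map]
      constructor
      · intro h
        rw [← h, Finset.sdiff_sdiff_eq_self (hk.2 y hy)]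
      · intro h
        rw [← h, Finset.sdiff_sdiff_eq_self (map_sub S)]
    rw [Prod.mk.injEq]
    unfold Kd.isz
    constructor
    · rintro ⟨h3, h4⟩
      have h5 := h2.2 h4
      exact ⟨⟨hy, by rw [h5, h3]⟩, h5⟩
    · rintro ⟨⟨_, h3⟩, h4⟩
      exact ⟨by rw [← h3, h4], h2.1 h4⟩
  rw [pts_eq, Multiset.count_map, ← Finset.filter_val, Finset.card_val, ← Fintype.card_subtype,
    ← Nat.card_eq_fintype_card]
  refine Nat.card_congr ⟨fun y => ⟨⟨y.1.1, y.2.1.1⟩, (h1 _ y.2.1.1).2 y.2⟩,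
    fun y => ⟨⟨y.1.1, by have := y.1.2; have := hk.1; omega⟩, (h1 _ y.1.2).1 y.2⟩, ?_, ?_⟩
  · rintro ⟨y, hy⟩
    rfl
  · rintro ⟨y, hy⟩
    rfl

theorem card_mz {d J : ℕ} {κ : Type} [Fintype κ] {rest : κ → Kd} (hk : ∀ i, (rest i).Gm d J)
    (S : Finset (Fin J)) : Nat.card {x : Mz J d rest // mz J d rest x = S} =
      npt ((univ : Finset κ).val.map rest) S.card (range J \ S.map Fin.valEmbedding) := by
  classical
  rw [npt_sum, ← sum_congr rfl fun i _ => card_mem (hk i) S, ← Nat.card_sigma]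
  refine Nat.card_congr ⟨fun x => ⟨x.1.1.1, ⟨x.1.1.2, x.1.2, x.2⟩⟩,
    fun x => ⟨⟨(x.1, x.2.1), x.2.2.1⟩, x.2.2.2⟩, ?_, ?_⟩
  · rintro ⟨⟨⟨i, y⟩, h⟩, h'⟩
    rfl
  · rintro ⟨i, ⟨y, h⟩⟩
    rfl

/-! ### The kinds of the classes -/

theorem sp_card {J : ℕ} (k : Kd) (y : ℕ) : (k.sp J y).card = (range J \ k.mA y).card := by
  rw [← sp_map, card_map]

theorem sp_card_le {J i : ℕ} {k : Kd} {y : ℕ} (X : Finset ℕ) (h : k.mA y = (range J).erase i \ X) :
    (k.sp J y).card ≤ X.card + 1 := by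
  classical
  rw [sp_card, h]
  refine (card_le_card ?_).trans (card_insert_le i X)
  intro x hx
  rw [mem_sdiff, mem_sdiff, mem_erase, not_and_not_right] at hx
  rw [mem_insert]
  by_cases hxi : x = i
  · exact Or.inl hxi
  · exact Or.inr (hx.2 ⟨hxi, hx.1⟩)

theorem CT.gd {d e i J : ℕ} (he : 2 ≤ e) (hJ : J ≤ d - e) (hi : i < J) {τ : CT}
    (hτ : τ.Ok d e i J) : (τ.kd d e i J).Gd d J ∧ (τ.kd d e i J).Gm d J := by
  classical
  have hmbs : ∀ (k dl : ℕ) (S : Finset ℕ), 1 ≤ k → k ≤ d → (k = 1 → S.card + 2 ≤ e) →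
      (Kd.cl e dl i (mbs i J k S)).Gd d J ∧ (Kd.cl e dl i (mbs i J k S)).Gm d J := by
    intro k dl S hk hkd hk1
    have hlen : (mbs i J k S).length = k := by
      unfold mbs
      split_ifs with h
      · rw [List.length_singleton, h]
      · rw [List.length_cons, List.length_replicate]
        omega
    refine ⟨⟨by omega, 0, by omega, fun h => ?_⟩, ?_, ?_⟩
    · have h1 : ((Kd.cl e dl i (mbs i J k S)).sp J 0).card < e := by
        by_cases h2 : k = 1
        · have h3 : (Kd.cl e dl i (mbs i J k S)).mA 0 = (range J).erase i \ S := by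
            show (mbs i J k S).getD 0 ∅ = _
            unfold mbs
            rw [if_pos h2]
            rfl
          have h4 := sp_card_le S h3
          have h5 := hk1 h2
          omega
        · have h3 : (Kd.cl e dl i (mbs i J k S)).mA 0 = (range J).erase i \ ∅ := by
            rw [sdiff_empty]
            show (mbs i J k S).getD 0 ∅ = _
            unfold mbs
            rw [if_neg h2]
            rfl
          have h4 := sp_card_le ∅ h3
          rw [card_empty] at h4
          omega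
      have h2 : ((Kd.cl e dl i (mbs i J k S)).sp J 0).card = e := h.2
      omega
    · show (mbs i J k S).length ≤ d + 1
      omega
    · intro y hy
      have hy' : y < (mbs i J k S).length := hy
      show (mbs i J k S).getD y ∅ ⊆ range J
      rw [List.getD_eq_getElem _ _ hy']
      have h1 : ∀ A ∈ mbs i J k S, A ⊆ range J := by
        intro A hA
        unfold mbs at hA
        split_ifs at hA
        · rw [List.mem_singleton.1 hA]
          exact sdiff_subset.trans (erase_subset _ _)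
        · rcases List.mem_cons.1 hA with hA | hA
          · rw [hA]
            exact erase_subset _ _
          · rw [List.eq_of_mem_replicate hA]
            exact sdiff_subset.trans (erase_subset _ _)
      exact h1 _ (List.getElem_mem _)
  rcases τ with ⟨k, S⟩ | S | r
  · obtain ⟨h1, h2, h3, h4⟩ := hτ
    have h5 : k ≤ d := by
      have := h2.trans (Nat.div_le_self _ _)
      omega
    exact hmbs k 0 S (by omega) h5 fun h => by omega
  · obtain ⟨h1, h2, h3⟩ := hτ
    have hk : 1 ≤ (d - i - 1) / (e - 1) := (Nat.one_le_div_iff (by omega)).2 (by omega)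
    have h5 : (d - i - 1) / (e - 1) ≤ d := by
      have := Nat.div_le_self (d - i - 1) (e - 1)
      omega
    refine hmbs _ _ S hk h5 fun h => ?_
    have h6 := Nat.div_add_mod' (d - i - 1) (e - 1)
    omega
  · obtain ⟨h1, h2⟩ := hτ
    obtain ⟨k, hk⟩ : ∃ k, k = (d - i + r - 1) / (e - 1) := ⟨_, rfl⟩
    have hk1 : 1 ≤ k := by
      rw [hk]
      exact (Nat.one_le_div_iff (by omega)).2 (by omega)
    have hkd : k ≤ d := by
      have := Nat.div_le_self (d - i + r - 1) (e - 1)
      omega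
    have hkr : r + 2 ≤ k * (e - 1) := by
      have h5 := Nat.div_add_mod' (d - i + r - 1) (e - 1)
      have h6 := Nat.mod_lt (d - i + r - 1) (by omega : e - 1 > 0)
      rw [← hk] at h5
      omega
    have hlen : (mbr i J k e r).length = k := by
      unfold mbr
      rw [List.length_map, List.length_range]
    have hgetD : ∀ y < k, (mbr i J k e r).getD y ∅ =
        (range J).erase i \ (Ico (y * (e - 1)) ((y + 1) * (e - 1)) ∩ range r) := by
      intro y hy
      rw [List.getD_eq_getElem _ _ (by rw [hlen]; exact hy)]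
      unfold mbr
      rw [List.getElem_map, List.getElem_range]
    have hkd' : (CT.br r).kd d e i J = Kd.cl e ((d - i + r - 1) % (e - 1)) i (mbr i J k e r) := by
      rw [hk]
      rfl
    rw [hkd']
    refine ⟨⟨by omega, k - 1, by omega, fun h => ?_⟩, ?_, ?_⟩
    · have h3 := sp_card_le (J := J) (i := i)
        (k := Kd.cl e ((d - i + r - 1) % (e - 1)) i (mbr i J k e r)) (y := k - 1) _
        (hgetD (k - 1) (by omega))
      have h4 : (Ico ((k - 1) * (e - 1)) ((k - 1 + 1) * (e - 1)) ∩ range r).card ≤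
          r - (k - 1) * (e - 1) := by
        refine (card_le_card (t := Ico ((k - 1) * (e - 1)) r) fun x hx => ?_).trans_eq
          (Nat.card_Ico _ _)
        rw [mem_inter, mem_Ico, mem_range] at hx
        rw [mem_Ico]
        omega
      have h5 : (k - 1) * (e - 1) + (e - 1) = k * (e - 1) := by
        obtain ⟨k', rfl⟩ : ∃ k', k = k' + 1 := ⟨k - 1, by omega⟩
        rw [Nat.add_sub_cancel]
        ring
      have h6 : ((Kd.cl e ((d - i + r - 1) % (e - 1)) i (mbr i J k e r)).sp J (k - 1)).card = e :=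
        h.2
      omega
    · show (mbr i J k e r).length ≤ d + 1
      omega
    · intro y hy
      have hy' : y < (mbr i J k e r).length := hy
      show (mbr i J k e r).getD y ∅ ⊆ range J
      rw [hgetD y (by omega)]
      exact sdiff_subset.trans (erase_subset _ _)

theorem Cls.gd {P : Par} (he : 2 ≤ P.e) {n : ℕ} {ms : Multiset Kd} (h : Cls P P.J n ms) (k : Kd)
    (hk : k ∈ ms) : k.Gd P.d P.J ∧ k.Gm P.d P.J := by
  rcases h.mem k hk with ⟨x, A, rfl, h3, _, h4, h5⟩ | ⟨i, hi, τ, hτ, rfl⟩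
  · refine ⟨trivial, ?_, fun y _ => h4⟩
    show 1 ≤ P.d + 1
    omega
  · exact CT.gd he le_rfl hi hτ

theorem Cls.ex_ge {P : Par} (he : 2 ≤ P.e) {n : ℕ} {ms : Multiset Kd} (h : Cls P P.J n ms) (k : Kd)
    (hk : k ∈ ms) : 2 ≤ k.ex := by
  rcases h.mem k hk with ⟨x, A, rfl, h3, _, h4, h5⟩ | ⟨i, hi, τ, hτ, rfl⟩
  · exact h3
  · rcases τ with ⟨k, S⟩ | S | r
    · exact he
    · exact he
    · exact he

theorem cvJ_of (P : Par) (he : 2 ≤ P.e) (hlt : P.e < P.d) (hc : ∀ i < P.J, 1 ≤ P.c i)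
    (κ : Finset (Fin P.J) → ℚ) (hκ0 : ∀ S, 0 ≤ κ S)
    (hκ : ∀ S, 2 ≤ S.card → P.xp S.card (S.map Fin.valEmbedding) ≤ κ S ∧
      P.xm S.card (S.map Fin.valEmbedding) ≤ κ S)
    (hE : Exac (fun i : Fin P.J => P.c i) κ univ) : CVJ P := by
  classical
  refine ⟨∑ i ∈ range P.J, P.c i, fun n hn m φ hφ ms hms _ κ' _ rest hrest => ?_⟩
  have hmem : ∀ i, rest i ∈ ms := by
    intro i
    rw [← hrest]
    exact Multiset.mem_map_of_mem rest (mem_univ_val i)
  have hGd : ∀ i, (rest i).Gd P.d P.J := fun i => (hms.gd he (rest i) (hmem i)).1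
  have hGm : ∀ i, (rest i).Gm P.d P.J := fun i => (hms.gd he (rest i) (hmem i)).2
  refine (gn_cvS (d := P.d) hφ rest hGd).mono fun p hp => ⟨(cvS P.d φ (blk P.c n)).V rest p, ?_,
    fun f hf α => mem_B hφ rest p f hf α⟩
  have hcp : ∀ S : Finset (Fin P.J), pc (fun i : Fin P.J => P.c i) S =
      ∏ i ∈ S.map Fin.valEmbedding, (P.c i : ℚ) := by
    intro S
    rw [prod_map]
    rfl
  have hJd : P.J < P.d := by
    unfold Par.J
    omega
  have hcard := card_mz (d := P.d) hGm
  rw [hrest] at hcard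
  have hnpt1 : ∀ y A, y < 2 → npt ms y A = 0 := by
    intro y A hy
    unfold npt
    rw [Multiset.count_eq_zero]
    intro h1
    obtain ⟨k, hk, hk'⟩ := Multiset.mem_bind.1 h1
    have h2 := hms.ex_ge he k hk
    rw [pts_eq] at hk'
    obtain ⟨z, _, hz⟩ := Multiset.mem_map.1 hk'
    have h3 := congrArg Prod.fst hz
    have h4 : k.ex = y := h3
    omega
  -- the dimension of the tensor system
  have h1 := hE (Mz P.J P.d rest) (mz P.J P.d rest) (fun x => ⟨subset_univ _, fun h0 => by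
    have h2 : (mz P.J P.d rest x).card = (rest x.1.1).ex := x.2.2
    rw [h0, card_empty] at h2
    have h3 := hms.ex_ge he _ (hmem x.1.1)
    omega⟩) (fun S _ hS0 => by
    rw [hcard]
    have hS1 : 1 ≤ S.card := card_pos.2 (nonempty_iff_ne_empty.2 hS0)
    by_cases hS2 : S.card < 2
    · rw [hnpt1 _ _ hS2]
      push_cast
      refine mul_nonneg (hκ0 S) ?_
      unfold pc
      exact prod_nonneg fun i _ => Nat.cast_nonneg _
    · push Not at hS2
      have hSJ : S.card ≤ P.J := by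
        have := card_le_univ S
        rwa [Fintype.card_fin] at this
      have h5 : range P.J \ (range P.J \ S.map Fin.valEmbedding) = S.map Fin.valEmbedding :=
        Finset.sdiff_sdiff_eq_self (map_sub S)
      have h6 := hms.zero S.card (range P.J \ S.map Fin.valEmbedding) hS2 (by
        omega) sdiff_subset (by rw [h5, card_map])
      rw [h5] at h6
      have h7 : (P.cc (S.map Fin.valEmbedding) : ℚ) = pc (fun i : Fin P.J => P.c i) S := by
        rw [hcp]
        unfold Par.cc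
        push_cast
        rfl
      have h8 : 0 ≤ pc (fun i : Fin P.J => P.c i) S := by
        unfold pc
        exact prod_nonneg fun i _ => Nat.cast_nonneg _
      obtain ⟨h9, h10⟩ := hκ S hS2
      rcases h6 with h6 | h6
      · rw [h6, h7]
        exact mul_le_mul_of_nonneg_right h9 h8
      · rw [h6, h7]
        exact mul_le_mul_of_nonneg_right h10 h8)
  -- the virtual dimension
  have h2 := (hms.lead he le_rfl hc hn (range P.J) le_rfl).2
  rw [card_range] at h2
  have h3 : (range P.J) = (univ : Finset (Fin P.J)).map Fin.valEmbedding := by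
    ext x
    rw [mem_range, mem_map]
    constructor
    · intro h
      exact ⟨⟨x, h⟩, mem_univ _, rfl⟩
    · rintro ⟨i, _, rfl⟩
      exact i.2
  have h4 : FF (dnS P.c P.J ms) (range P.J) =
      FF (dn (fun i : Fin P.J => P.c i) (mz P.J P.d rest)) univ := by
    rw [h3, FF_map]
    refine FF_congr' fun S _ _ => ?_
    unfold dnS dn
    rw [card_map, hcard, hcp]
  have h5 : (∏ i ∈ range P.J, (P.c i : ℚ)) = pc (fun i : Fin P.J => P.c i) univ := by
    rw [hcp, ← h3]
  rw [h4, h5, ← h1] at h2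
  have h6 : ((finrank ℂ ((cvS P.d φ (blk P.c n)).V rest p) : ℤ) : ℚ) = (P.b n ms : ℚ) := by
    rw [hp]
    unfold Par.b
    rw [h2]
    push_cast
    rfl
  exact_mod_cast h6

end Pool.Agent.GD

end
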