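import Pool.Agent.H94.LP7.GD.VT.Exf
import Pool.Agent.H94.LP7.M50
import Pool.Agent.H94.LP7.M52
import Pool.Agent.H94.LP7.M55

/-! The parts of this file: GD.Top.Rel, GD.Top.Prop, GD.Top.Main, GD.Top.Box. -/

section

/-!
# GD, TOP: the relative form

All coefficient vectors of the solutions at the position `p₀` lie in a subspace `B`; the slopes are
compared with `B`.
-/

set_option autoImplicit false
set_option linter.unusedSectionVars false

namespace Pool.Agent.GD.Top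

open Finset Module MvPolynomial Pool.Agent.H51.TB Pool.Agent.KZ.Top

variable {ν : Type} [Fintype ν] [DecidableEq ν] {c : ℕ → ℕ} {J m : ℕ}

theorem top_rel (φ : Bl c J ⊕ Fin m ≃ ν) {A : Finset (ν → ℕ)} {T ν' : Type}
    (S : Sys {e // e ∈ A} ν' T) {κ : Type} (rest : κ → T) (top : T) {M : ℕ}
    (hhom : ∀ (f : {e // e ∈ A} → ℂ) a, (Gam φ f a).IsHomogeneous M)
    (pos : (Fin m → ℂ) → ν' → ℂ)
    (htop : ∀ (z : Fin m → ℂ) (f : {e // e ∈ A} → ℂ),
      f ∈ S.V (fun _ : Unit => top) (fun _ => pos z) → ∀ a, eval z (Gam φ f a) = 0)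
    (p₀ : κ → ν' → ℂ) (B : Submodule ℂ (TI c J → ℂ))
    (hB : ∀ f ∈ S.V rest p₀, ∀ α, (fun a => coeff α (Gam φ f a)) ∈ B)
    (hinj : ∀ f ∈ S.V rest p₀, Gam φ f = 0 → f = 0) (N₀ : ℕ)
    (h1 : (m + M - 1).choose M < N₀ + (m - (2 * finrank ℂ B - 2) + M - 1).choose M)
    (h2 : ∀ F : Submodule ℂ (TI c J → ℂ), F ≤ B → F ≠ ⊥ → F ≠ B →
      finrank ℂ (SF φ (S.V rest p₀) F) + finrank ℂ F * (finrank ℂ B - finrank ℂ F) <
        finrank ℂ F * N₀)
    (N : ℕ) (h3 : N₀ + 1 ≤ N) :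
    S.gd (Sum.elim rest fun _ : Fin N => top) ≤ finrank ℂ (S.V rest p₀) - finrank ℂ B * N := by
  classical
  obtain ⟨l, hl⟩ := LinearMap.exists_leftInverse_of_injective B.subtype (by
    rw [Submodule.ker_subtype])
  let e : B ≃ₗ[ℂ] (Fin (finrank ℂ B) → ℂ) := (Module.finBasis ℂ B).equivFun
  let π : (TI c J → ℂ) →ₗ[ℂ] (Fin (finrank ℂ B) → ℂ) := e.toLinearMap ∘ₗ l
  have hπB : ∀ x : B, π x = e x := by
    intro x
    show e (l x) = e x
    have h4 : l (B.subtype x) = x := LinearMap.congr_fun hl x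
    exact congrArg e h4
  have hπ0 : ∀ x ∈ B, π x = 0 → x = 0 := by
    intro x hx h
    have h4 := hπB ⟨x, hx⟩
    have h5 : π x = e ⟨x, hx⟩ := h4
    rw [h5] at h
    have h6 := (LinearEquiv.map_eq_zero_iff e).1 h
    exact congrArg Subtype.val h6
  have hπs : ∀ y, ∃ x ∈ B, π x = y := by
    intro y
    refine ⟨(e.symm y : B), (e.symm y).2, ?_⟩
    rw [hπB, LinearEquiv.apply_symm_apply]
  refine assemble' S rest top (M := M) (mapv π ∘ₗ Gam φ) ?_ pos ?_ p₀ ?_ N₀ h1 ?_ N h3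
  · intro f j
    show (mapv π (Gam φ f) j).IsHomogeneous M
    rw [mapv_apply]
    refine IsHomogeneous.sum _ _ _ fun a _ => ?_
    rw [smul_eq_C_mul]
    have h4 := (isHomogeneous_C (Fin m) (π (Pi.single a 1) j)).mul (hhom f a)
    rwa [zero_add] at h4
  · intro z f hf j
    show eval z (mapv π (Gam φ f) j) = 0
    rw [mapv_apply, map_sum]
    refine sum_eq_zero fun a _ => ?_
    rw [smul_eval, htop z f hf a, mul_zero]
  · intro f hf h4
    refine hinj f hf (funext fun a => ?_)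
    ext α
    have h5 : π (fun a => coeff α (Gam φ f a)) = 0 := by
      rw [← coeff_mapv]
      have h6 : mapv π (Gam φ f) = 0 := h4
      rw [h6]
      funext j
      exact coeff_zero _
    exact congrFun (hπ0 _ (hB f hf α) h5) a
  · intro F' hF' hF''
    set F : Submodule ℂ (TI c J → ℂ) := B ⊓ F'.comap π with hF
    have hmap : F.map π = F' := by
      refine le_antisymm ?_ ?_
      · rintro _ ⟨x, hx, rfl⟩
        exact hx.2
      · intro y hy
        obtain ⟨x, hx, rfl⟩ := hπs y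
        exact ⟨x, ⟨hx, hy⟩, rfl⟩
    have hfr : finrank ℂ F = finrank ℂ F' := by
      have h4 := LinearMap.finrank_range_add_finrank_ker (π.domRestrict F)
      have h5 : LinearMap.range (π.domRestrict F) = F' := by
        rw [LinearMap.range_domRestrict, hmap]
      have h6 : LinearMap.ker (π.domRestrict F) = ⊥ := by
        rw [eq_bot_iff]
        rintro ⟨x, hx⟩ h
        rw [Submodule.mem_bot]
        exact Subtype.ext (hπ0 x hx.1 h)
      rw [h5, h6, finrank_bot, add_zero] at h4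
      exact h4.symm
    have hb : F ≠ ⊥ := by
      intro h
      rw [h, finrank_bot] at hfr
      exact hF' (Submodule.finrank_eq_zero.1 hfr.symm)
    have ht : F ≠ B := by
      intro h
      apply hF''
      rw [eq_top_iff]
      intro y _
      obtain ⟨x, hx, rfl⟩ := hπs y
      rw [← h] at hx
      exact hx.2
    have h4 := h2 F inf_le_left hb ht
    rw [hfr] at h4
    refine lt_of_le_of_lt ?_ h4
    gcongr
    refine le_trans ?_ (Submodule.finrank_map_le (mapv π ∘ₗ Gam φ) _)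
    refine Submodule.finrank_mono ?_
    rintro G ⟨⟨f, hf, rfl⟩, h5⟩
    refine ⟨f, ⟨hf, fun α => ⟨hB f hf α, ?_⟩⟩, rfl⟩
    have h6 := h5 α
    have h7 : (fun j => coeff α ((mapv π ∘ₗ Gam φ) f j)) = π fun a => coeff α (Gam φ f a) :=
      coeff_mapv π (Gam φ f) α
    rw [h7] at h6
    exact h6

end Pool.Agent.GD.Top

end

section

/-!
# GD, TOP: exactness on the last level
-/

set_option autoImplicit false
set_option linter.unusedSectionVars false

namespace Pool.Agent.GD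

open Finset Module MvPolynomial Pool.Agent.H51.TB Pool.Agent.V7.ST Topology
open Pool.Agent.GD.Top (Bl TI Gam IsB SF posz)

/-! ### The standard blocks if only the first `J` sizes are positive -/

theorem bidx_eq' {c : ℕ → ℕ} {J : ℕ} (hc : ∀ i < J, 1 ≤ c i) (i x : ℕ) (hi : i < J) (hx : x < c i) :
    bidx c (∑ j ∈ range i, c j + x) = i := by
  have hle : ∀ k ≤ J, k ≤ ∑ j ∈ range k, c j := by
    intro k hk
    calc k = ∑ _j ∈ range k, 1 := by simp
      _ ≤ _ := sum_le_sum fun j hj => hc j (by have := mem_range.1 hj; omega)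
  have hmono : ∀ a b, a ≤ b → ∑ j ∈ range a, c j ≤ ∑ j ∈ range b, c j := fun a b hab =>
    sum_le_sum_of_subset (range_mono hab)
  have h1 : (range (∑ j ∈ range i, c j + x + 1)).filter
      (fun k => ∑ j ∈ range (k + 1), c j ≤ ∑ j ∈ range i, c j + x) = range i := by
    ext k
    rw [mem_filter, mem_range, mem_range]
    constructor
    · rintro ⟨-, h⟩
      by_contra hcon
      push Not at hcon
      have h2 := hmono (i + 1) (k + 1) (by omega)
      rw [sum_range_succ] at h2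
      omega
    · intro h
      refine ⟨?_, ?_⟩
      · have := hle i hi.le
        omega
      · have := hmono (k + 1) i (by omega)
        omega
  unfold bidx
  rw [h1, card_range]

theorem le_bidx' {c : ℕ → ℕ} {J : ℕ} (hc : ∀ i < J, 1 ≤ c i) (s : ℕ) (hs : ∑ j ∈ range J, c j ≤ s) :
    J ≤ bidx c s := by
  unfold bidx
  rw [← card_range J]
  refine card_le_card fun k hk => ?_
  rw [mem_range] at hk
  rw [mem_filter, mem_range]
  have h1 : ∑ j ∈ range (k + 1), c j ≤ ∑ j ∈ range J, c j :=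
    sum_le_sum_of_subset (range_mono (by omega))
  have h2 : J ≤ ∑ j ∈ range J, c j := by
    calc J = ∑ _j ∈ range J, 1 := by simp
      _ ≤ _ := sum_le_sum fun j hj => hc j (mem_range.1 hj)
  exact ⟨by omega, by omega⟩

theorem isB_phn' (c : ℕ → ℕ) (J n : ℕ) (hc : ∀ i < J, 1 ≤ c i) (h : ∑ i ∈ range J, c i ≤ n) :
    IsB (Pool.Agent.GD.Top.phn c J n h) (blk c n) := by
  constructor
  · intro x
    show bidx c (Pool.Agent.GD.Top.phn c J n h (Sum.inl x)).1 = x.1
    rw [Pool.Agent.GD.Top.phn_inl]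
    exact bidx_eq' hc x.1 x.2 x.1.2 x.2.2
  · intro t
    show J ≤ bidx c (Pool.Agent.GD.Top.phn c J n h (Sum.inr t)).1
    rw [Pool.Agent.GD.Top.phn_inr]
    exact le_bidx' hc _ (by omega)

/-! ### Removing the points of the main kind -/

theorem npt_add (ms ms' : Multiset Kd) (x : ℕ) (A : Finset ℕ) :
    npt (ms + ms') x A = npt ms x A + npt ms' x A := by
  unfold npt
  rw [Multiset.add_bind, Multiset.count_add]

theorem npt_replicate (N e : ℕ) (B : Finset ℕ) (x : ℕ) (A : Finset ℕ) :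
    npt (Multiset.replicate N (Kd.ord e B)) x A = if x = e ∧ A = B then N else 0 := by
  induction N with
  | zero =>
    rw [Multiset.replicate_zero]
    unfold npt
    simp
  | succ N ih =>
    rw [Multiset.replicate_succ, npt_cons, ih]
    have h3 : (Kd.ord e B).pts = {(e, B)} := rfl
    rw [h3, Multiset.count_singleton]
    by_cases h : x = e ∧ A = B
    · rw [if_pos h, if_pos h, if_pos (by rw [h.1, h.2]), add_comm]
    · rw [if_neg h, if_neg h, if_neg]
      intro h'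
      exact h (Prod.mk.injEq _ _ _ _ ▸ h')

/-- The configuration without the points of the main kind. -/
theorem Cls.strip {P : Par} {j n : ℕ} {ms : Multiset Kd} (h : Cls P j n ms) :
    ∃ a : Multiset Kd, ms = a + Multiset.replicate (ms.count (P.u j)) (P.u j) ∧ a.count (P.u j) = 0 ∧
      Cls P j n a := by
  classical
  obtain ⟨a, ha⟩ : ∃ a, a = ms.filter fun k => ¬ k = P.u j := ⟨_, rfl⟩
  have h1 : ms = a + Multiset.replicate (ms.count (P.u j)) (P.u j) := by
    rw [ha, ← Multiset.filter_eq', add_comm]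
    exact (Multiset.filter_add_not _ ms).symm
  have h2 : a.count (P.u j) = 0 := by
    rw [ha, Multiset.count_eq_zero]
    intro h
    exact (Multiset.mem_filter.1 h).2 rfl
  have hnpt : ∀ x A, (x ≠ P.e ∨ A ≠ range j) → npt ms x A = npt a x A := by
    intro x A hxA
    rw [h1, npt_add, npt_replicate, if_neg, add_zero]
    rintro ⟨h3, h4⟩
    rcases hxA with h5 | h5
    · exact h5 h3
    · exact h5 h4
  have hle : a ≤ ms := by
    rw [ha]
    exact Multiset.filter_le _ _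
  refine ⟨a, h1, h2, ⟨fun k hk => h.mem k (Multiset.mem_of_le hle hk), ?_, ?_, ?_⟩⟩
  · intro x A hx hxd hA hK hxA
    rw [← hnpt x A hxA]
    exact h.win x A hx hxd hA hK hxA
  · intro x A hx hxd hA hK
    have h3 : A ≠ range j := by
      rintro rfl
      rw [sdiff_self, bot_eq_empty, card_empty] at hK
      omega
    rw [← hnpt x A (Or.inr h3)]
    exact h.zero x A hx hxd hA hK
  · intro i hi τ hτ
    exact (Multiset.count_le_of_le _ hle).trans (h.cnt i hi τ hτ)

/-! ### The numbers -/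

/-- The number of the values is bounded, the virtual dimension is large. -/
theorem num_J {e : ℕ} (he : 2 ≤ e) (C : ℕ) {η δ : ℝ} (hη : 0 < η) (hδ : 0 < δ) (hδ1 : δ ≤ 1) :
    ∃ n₀ : ℕ, 1 ≤ n₀ ∧ ∀ n : ℕ, n₀ ≤ n → ∀ (b : ℕ) (v : ℝ), 1 ≤ b → b ≤ C → η * (n : ℝ) ^ e ≤ v →
      ∃ N₀ : ℕ, (2 * C) * (2 * n) ^ (e - 1) < N₀ ∧ (1 - δ) * (v / b) + C < N₀ ∧
        ((N₀ + 1 : ℕ) : ℝ) * b ≤ v := by
  obtain ⟨n₂, hn₂⟩ := exists_nat_ge (2 * ((2 : ℝ) ^ e * C + 1 + (C + 2)) * C / (η * δ))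
  refine ⟨n₂ + 1, by omega, fun n hn b v hb hbC hv => ?_⟩
  have hn1 : (1 : ℝ) ≤ n := by
    have : 1 ≤ n := by omega
    exact_mod_cast this
  have hnn : (n₂ : ℝ) < n := by
    have : n₂ < n := by omega
    exact_mod_cast this
  have hb' : (1 : ℝ) ≤ b := by exact_mod_cast hb
  have hbC' : (b : ℝ) ≤ C := by exact_mod_cast hbC
  have hC1 : (1 : ℝ) ≤ C := hb'.trans hbC'
  have hηδ : 0 < η * δ := mul_pos hη hδ
  set K : ℝ := (2 : ℝ) ^ e * C + 1 + (C + 2) with hK
  have hK0 : 0 < K := by positivity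
  have h1 : 2 * K * C < n * (η * δ) := by
    rw [← div_lt_iff₀ hηδ]
    exact lt_of_le_of_lt hn₂ hnn
  -- `v / b` is large
  have hpow : (n : ℝ) ^ e = n * (n : ℝ) ^ (e - 1) := by
    rw [← pow_succ']
    congr 1
    omega
  have hpow1 : (1 : ℝ) ≤ (n : ℝ) ^ (e - 1) := one_le_pow₀ hn1
  have h2 : 2 * K * (n : ℝ) ^ (e - 1) < δ * (v / b) := by
    have h3 : η * (n : ℝ) ^ e / C ≤ v / b := by
      rw [div_le_div_iff₀ (by linarith only [hb', hbC']) (by linarith only [hb'])]
      have h4 : 0 ≤ η * (n : ℝ) ^ e := by positivity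
      nlinarith only [hv, hbC', h4]
    have h5 : 2 * K * (n : ℝ) ^ (e - 1) < δ * (η * (n : ℝ) ^ e / C) := by
      rw [hpow, ← mul_div_assoc, lt_div_iff₀ (by linarith only [hb', hbC'])]
      have h6 : 0 < (n : ℝ) ^ (e - 1) := by linarith only [hpow1]
      nlinarith only [h1, hpow1]
    have h7 : δ * (η * (n : ℝ) ^ e / C) ≤ δ * (v / b) := mul_le_mul_of_nonneg_left h3 hδ.le
    linarith only [h5, h7]
  have hvb : 0 < v / b := by
    have h3 : 0 < 2 * K * (n : ℝ) ^ (e - 1) := by positivity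
    by_contra hcon
    push Not at hcon
    nlinarith only [h2, h3, hδ, hcon]
  have hY : 0 ≤ (1 - δ / 2) * (v / b) := mul_nonneg (by linarith only [hδ1]) hvb.le
  have hf1 := Nat.floor_le hY
  have hf2 := Nat.lt_floor_add_one ((1 - δ / 2) * (v / b))
  have hK1 : K ≤ K * (n : ℝ) ^ (e - 1) := le_mul_of_one_le_right hK0.le hpow1
  have hKC : (C : ℝ) + 2 ≤ K := by
    rw [hK]
    have : 0 ≤ (2 : ℝ) ^ e * C := by positivity
    linarith only [this]
  refine ⟨⌊(1 - δ / 2) * (v / b)⌋₊, ?_, ?_, ?_⟩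
  · have h : (((2 * C) * (2 * n) ^ (e - 1) : ℕ) : ℝ) < (⌊(1 - δ / 2) * (v / b)⌋₊ : ℝ) := by
      push_cast
      have h4 : 2 * (C : ℝ) * (2 * n) ^ (e - 1) = (2 : ℝ) ^ e * C * (n : ℝ) ^ (e - 1) := by
        rw [mul_pow]
        have h5 : (2 : ℝ) ^ e = 2 * 2 ^ (e - 1) := by
          rw [← pow_succ']
          congr 1
          omega
        rw [h5]
        ring
      rw [h4]
      have h5 : δ * (v / b) ≤ v / b := by nlinarith only [hδ1, hvb]
      have h6 : (1 : ℝ) / 2 * (v / b) ≤ (1 - δ / 2) * (v / b) := by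
        apply mul_le_mul_of_nonneg_right _ hvb.le
        linarith only [hδ1]
      have h7 : (2 : ℝ) ^ e * C * (n : ℝ) ^ (e - 1) + (n : ℝ) ^ (e - 1) ≤ K * (n : ℝ) ^ (e - 1) := by
        rw [hK]
        have h8 : 0 ≤ (C + 2 : ℝ) * (n : ℝ) ^ (e - 1) := by positivity
        nlinarith only [h8]
      linarith only [hpow1, h2, hf2, h5, h7]
    exact_mod_cast h
  · nlinarith only [h2, hf2, hK1, hKC]
  · push_cast
    have h3 : ((⌊(1 - δ / 2) * (v / b)⌋₊ : ℝ) + 1) ≤ v / b := by nlinarith only [hb', hbC', h2, hf1, hK1, hKC]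
    calc ((⌊(1 - δ / 2) * (v / b)⌋₊ : ℝ) + 1) * b ≤ v / b * b :=
          mul_le_mul_of_nonneg_right h3 (by linarith only [hb'])
      _ = v := div_mul_cancel₀ v (by linarith only [hb'] : (b : ℝ) ≠ 0)

theorem finrank_TI (c : ℕ → ℕ) (J : ℕ) : finrank ℂ (TI c J → ℂ) = ∏ i ∈ range J, c i := by
  rw [finrank_fintype_fun_eq_card, Fintype.card_pi]
  simp only [Fintype.card_fin]
  exact Fin.prod_univ_eq_prod_range c J

/-- The virtual dimension without the points of the main kind. -/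
def POSE (P : Par) (η : ℝ) : Prop := ∃ n₀ : ℕ, ∀ n, n₀ ≤ n → ∀ ms, Cls P P.J n ms →
  ms.count (P.u P.J) = 0 →
    η * P.cc (range P.J) * (n : ℝ) ^ P.e ≤ (P.v P.J n ms : ℝ) ∧ 1 ≤ vd P.J (range P.J) P.c n ms

/-- **TOP.** Exactness on the last level. -/
theorem propJ_core (P : Par) (he : 2 ≤ P.e) (hlt : P.e < P.d) (hk : 0 ≤ P.kap P.e)
    (hc : ∀ i < P.J, 1 ≤ P.c i) {η : ℝ} (hη : 0 < η)
    (hS : SUB P P.J η 0) (hB : BETJ P) (hG : GAMJ P) (hC : CVJ P) (hV : POSE P η) :
    PROP P P.J := by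
  classical
  have hdJ : P.d = P.e + P.J := by
    unfold Par.J
    omega
  have hdJe : P.d - P.J = P.e := by omega
  obtain ⟨nV, hV⟩ := hV
  obtain ⟨δ, hδ, nB, hB⟩ := hB
  obtain ⟨nG, hG⟩ := hG
  obtain ⟨nC, hC⟩ := hC
  have hδ' : 0 < min δ 1 := lt_min hδ one_pos
  have hccN : 1 ≤ P.cc (range P.J) := by
    unfold Par.cc
    exact Nat.one_le_iff_ne_zero.2 (prod_ne_zero_iff.2 fun i hi => by
      have := hc i (mem_range.1 hi)
      omega)
  have hcc : (1 : ℝ) ≤ P.cc (range P.J) := by exact_mod_cast hccN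
  have hη₁ : 0 < η * P.cc (range P.J) := by positivity
  obtain ⟨nS, hS⟩ := hS
  obtain ⟨n₀, hn₀1, hnum⟩ := num_J he (P.cc (range P.J)) hη₁ hδ' (min_le_right δ 1)
  refine ⟨n₀ + nV + nB + nG + nC + nS + ∑ i ∈ range P.J, P.c i + P.d, fun n hn ms hms => ?_⟩
  obtain ⟨a, hma, ha0, hcls⟩ := hms.strip
  set N := ms.count (P.u P.J) with hN
  have hcn : ∑ i ∈ range P.J, P.c i ≤ n := by omega
  have hlead := hcls.lead he le_rfl hc hcn
  obtain ⟨hv1, hb1⟩ := hV n (by omega) a hcls ha0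
  have hv : P.v P.J n ms = P.v P.J n a - N * P.b n a := by
    unfold Par.v Par.b
    conv_lhs => rw [hma]
    exact vd_replicate hc (by omega) hdJ hlead N
  have hnp : (0 : ℝ) ≤ (n : ℝ) ^ P.e := by positivity
  have hHa : (P.H P.J n a : ℤ) ≤ P.v P.J n a := by
    refine hS n (by omega) a hcls ?_ ?_
    · rw [ha0, Nat.cast_zero, add_zero]
      exact mul_nonneg hk hnp
    · rw [hdJe]
      exact hv1
  obtain ⟨b, hb⟩ : ∃ b : ℕ, (b : ℤ) = P.b n a :=
    ⟨(P.b n a).toNat, Int.toNat_of_nonneg (le_trans (by norm_num) hb1)⟩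
  have hbR : (b : ℝ) = P.b n a := by exact_mod_cast hb
  obtain ⟨rest, hrest, hgd⟩ := exists_conf (LS P.d P.d (blk P.c n) (range P.J)) a
  have hφ := isB_phn' P.c P.J n hc hcn
  obtain ⟨p₁, hp₁⟩ := hB n (by omega) _ (Top.phn P.c P.J n hcn) hφ a hcls ha0 _ rest hrest
  have hCr := hC n (by omega) _ (Top.phn P.c P.J n hcn) hφ a hcls ha0 _ rest hrest
  have hg := (hG n (by omega) _ (Top.phn P.c P.J n hcn) hφ a hcls ha0 _ rest hrest).and
    (hCr.and (gn_gd (LS P.d P.d (blk P.c n) (range P.J)) rest))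
  obtain ⟨p, hp, hpG, ⟨B, hBb, hpB⟩, hpd⟩ := Pool.Agent.V7.BE.Gn.near hg p₁ _ hp₁
  have hBf : finrank ℂ B = b := by
    have : (finrank ℂ B : ℤ) = (b : ℤ) := by rw [hBb, hb]
    exact_mod_cast this
  have hbC : b ≤ P.cc (range P.J) := by
    rw [← hBf]
    refine (Submodule.finrank_le B).trans ?_
    rw [finrank_TI]
    exact le_rfl
  have hb1N : 1 ≤ b := by
    have : (1 : ℤ) ≤ (b : ℤ) := by rw [hb]; exact hb1
    exact_mod_cast this
  obtain ⟨N₀, hN1, hN2, hN3⟩ := hnum n (by omega) b (P.v P.J n a) hb1N hbC hv1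
  have hv0 : (0 : ℝ) ≤ P.v P.J n a := le_trans (by positivity) hv1
  have hb0 : (0 : ℝ) < b := by
    have : (1 : ℝ) ≤ b := by exact_mod_cast hb1N
    linarith only [this]
  have key := Top.top_rel (Top.phn P.c P.J n hcn) (LS P.d P.d (blk P.c n) (range P.J)) rest (P.u P.J)
    (M := P.e) (fun f x => by
      have h1 := Top.Gam_hom (Top.phn P.c P.J n hcn) (blk P.c n) (range P.J) f x
      rwa [hdJe] at h1)
    (posz P.d (Top.phn P.c P.J n hcn))
    (fun z f hf x => Top.htop hφ (by omega) z f hf x) p B hpB hpG N₀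
    (Pool.Agent.V7.top_h1 (by omega) (Nat.sub_le _ _) (by omega) (lt_of_le_of_lt
      (Nat.mul_le_mul_right _ (by omega : 2 * finrank ℂ B - 2 ≤ 2 * P.cc (range P.J))) hN1)) (by
      intro F hFB hF hF'
      have hlt : finrank ℂ F < finrank ℂ B :=
        Submodule.finrank_lt_finrank_of_lt (lt_of_le_of_ne hFB hF')
      have h4 := hp F hF (by rw [← hb]; exact_mod_cast (by omega : finrank ℂ F < b))
      rw [← hbR] at h4
      have hf : 1 ≤ finrank ℂ F := Nat.one_le_iff_ne_zero.2 fun h => hF (Submodule.finrank_eq_zero.1 h)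
      have hf' : (1 : ℝ) ≤ finrank ℂ F := by exact_mod_cast hf
      have h5 : ((finrank ℂ F * (finrank ℂ B - finrank ℂ F) : ℕ) : ℝ) ≤
          finrank ℂ F * (P.cc (range P.J) : ℝ) := by
        have : finrank ℂ F * (finrank ℂ B - finrank ℂ F) ≤ finrank ℂ F * P.cc (range P.J) :=
          Nat.mul_le_mul_left _ (by omega)
        exact_mod_cast this
      have h6 : (1 - δ) * (finrank ℂ F : ℝ) * P.v P.J n a ≤
          (1 - min δ 1) * (finrank ℂ F : ℝ) * P.v P.J n a := by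
        apply mul_le_mul_of_nonneg_right _ hv0
        apply mul_le_mul_of_nonneg_right _ (by linarith only [hf'])
        have := min_le_left δ 1
        linarith only [this]
      have h6' : (finrank ℂ (SF (Top.phn P.c P.J n hcn)
          ((LS P.d P.d (blk P.c n) (range P.J)).V rest p) F) : ℝ) ≤
          finrank ℂ F * ((1 - min δ 1) * (P.v P.J n a / b)) := by
        have h7 : (finrank ℂ F : ℝ) * ((1 - min δ 1) * (P.v P.J n a / b)) =
            (1 - min δ 1) * (finrank ℂ F : ℝ) * P.v P.J n a / b := by ring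
        rw [h7, le_div_iff₀ hb0]
        exact h4.trans h6
      have h7 : (finrank ℂ F : ℝ) * ((1 - min δ 1) * (P.v P.J n a / b) + (P.cc (range P.J) : ℝ)) <
          finrank ℂ F * N₀ := mul_lt_mul_of_pos_left hN2 (by linarith only [hf'])
      have h8 : ((finrank ℂ (SF (Top.phn P.c P.J n hcn)
          ((LS P.d P.d (blk P.c n) (range P.J)).V rest p) F) +
          finrank ℂ F * (finrank ℂ B - finrank ℂ F) : ℕ) : ℝ) < ((finrank ℂ F * N₀ : ℕ) : ℝ) := by
        rw [Nat.cast_add, Nat.cast_mul (finrank ℂ F) N₀]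
        nlinarith only [hcn, h5, h6', h7]
      exact_mod_cast h8)
  have hH : P.H P.J n a = finrank ℂ ((LS P.d P.d (blk P.c n) (range P.J)).V rest p) := by
    rw [hpd, hgd]
    rfl
  -- large numbers
  have hbig : ∀ N, N₀ + 1 ≤ N → (((LS P.d P.d (blk P.c n) (range P.J)).gd
      (Sum.elim rest fun _ : Fin N => P.u P.J) : ℕ) : ℤ) ≤ max 0 (P.v P.J n a - N * b) := by
    intro N hN
    have h1 := key N hN
    rw [← hH, hBf] at h1
    have h9 : (((LS P.d P.d (blk P.c n) (range P.J)).gd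
        (Sum.elim rest fun _ : Fin N => P.u P.J) : ℕ) : ℤ) ≤
        max 0 ((P.H P.J n a : ℤ) - (b * N : ℕ)) := by
      omega
    refine h9.trans (max_le_max le_rfl ?_)
    push_cast
    linarith only [hHa]
  have hgs : P.H P.J n ms = (LS P.d P.d (blk P.c n) (range P.J)).gd
      (Sum.elim rest fun _ : Fin N => P.u P.J) := by
    unfold Par.H HL HI
    rw [gd_eq_gM, map_elim, hrest, Pool.Agent.V7.ST.map_const, Fintype.card_fin, ← hma]
  rw [hgs, hv, ← hb]
  rcases le_or_gt (N₀ + 1) N with hcase | hcase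
  · exact hbig N hcase
  -- small numbers
  obtain ⟨k, hk⟩ : ∃ k, N₀ + 1 = N + k := ⟨N₀ + 1 - N, by omega⟩
  have h1 := Top.gd_drops hφ (by omega : P.d ≤ P.J + P.e) rest b (hCr.mono fun p hp => by
    obtain ⟨B, h1, h2⟩ := hp
    exact ⟨B, by exact_mod_cast (h1.trans hb.symm), h2⟩) N k
  have h2 := hbig (N₀ + 1) le_rfl
  rw [hk] at h2 hN3
  have h3 : (0 : ℤ) ≤ P.v P.J n a - (N + k : ℕ) * b := by
    have h4 : (((N + k : ℕ) * b : ℤ) : ℝ) ≤ (P.v P.J n a : ℝ) := by
      push_cast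
      push_cast at hN3
      linarith only [hN3]
    have h5 : (((N + k : ℕ) : ℤ) * b) ≤ P.v P.J n a := by exact_mod_cast h4
    linarith only [h5]
  rw [max_eq_right h3] at h2
  refine le_trans ?_ (le_max_right _ _)
  have h6 : (((LS P.d P.d (blk P.c n) (range P.J)).gd
      (Sum.elim rest fun _ : Fin N => P.u P.J) : ℕ) : ℤ) ≤
      (((LS P.d P.d (blk P.c n) (range P.J)).gd
        (Sum.elim rest fun _ : Fin (N + k) => P.u P.J) : ℕ) : ℤ) + k * b := by
    exact_mod_cast h1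
  push_cast at h2 h6 ⊢
  linarith only [h1, h2]

end Pool.Agent.GD

end

section

/-!
# GD, TOP: `TargetTop` from the inputs
-/

set_option autoImplicit false

namespace Pool.Agent.GD

open Finset

/-- Positivity of the virtual dimension on the last level. -/
def TargetPos : Prop := ∀ (d e : ℕ) (kap : ℕ → ℝ), Crit d e kap → ∃ η E : ℝ, 0 < η ∧ 0 < E ∧
  ∀ P : Par, P.d = d → P.e = e → P.kap = kap → P.Ok 1 E → (∀ i < P.J, 1 ≤ P.c i) → POSE P η

theorem Par.Ok.epos {P : Par} {Cs E : ℝ} (h : P.Ok Cs E) (hC : 1 ≤ Cs) :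
    ∀ j ≤ P.J, 0 < P.eps j ∧ (j < P.J → 0 < P.bet (j + 1)) := by
  intro j
  induction j with
  | zero =>
    intro _
    refine ⟨h.eps0, fun h0 => ?_⟩
    have h1 := h.eb 0 h0
    have h2 := h.eps0
    nlinarith
  | succ j ih =>
    intro hj
    obtain ⟨h1, h2⟩ := ih (by omega)
    have h3 := h2 (by omega)
    have h4 := h.be j (by omega)
    have h5 : 0 < P.eps (j + 1) := by nlinarith
    refine ⟨h5, fun h0 => ?_⟩
    have h6 := h.eb (j + 1) h0
    nlinarith

theorem Par.Ok.mono' {P : Par} {Cs E Cs' E' : ℝ} (h : P.Ok Cs E) (h1 : 1 ≤ Cs') (h2 : Cs' ≤ Cs)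
    (h3 : E ≤ E') : P.Ok Cs' E' := by
  have hp := h.epos (h1.trans h2)
  refine ⟨h.toCrit, h.eps0, fun j hj => ?_, fun j hj => ?_, h.epsJ.trans h3, h.xp, h.xm, h.xm0⟩
  · have h4 := h.eb j hj
    have h5 := (hp j hj.le).1
    nlinarith
  · have h4 := h.be j hj
    have h5 := (hp j hj.le).2 hj
    nlinarith

theorem Par.Ok.wc' {P : Par} {Cs E : ℝ} (h : P.Ok Cs E) (c : ℕ → ℕ) : (P.wc c).Ok Cs E :=
  ⟨h.toCrit, h.eps0, h.eb, h.be, h.epsJ, h.xp, h.xm, h.xm0⟩

theorem Hier.mono' {N N' : ℕ} {F F' : (ℕ → ℕ) → ℕ} {J : ℕ} {c : ℕ → ℕ} (h : Hier N F J c)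
    (hN : N' ∣ N) (hF : ∀ x, F' x ≤ F x) : Hier N' F' J c := fun i hi =>
  ⟨hN.trans (h i hi).1, (h i hi).2.1, (hF _).trans (h i hi).2.2⟩

theorem targetTop_of (hB : TargetT BETJ) (hG : TargetT GAMJ) (hC : TargetT CVJ) (hV : TargetPos) :
    TargetTop := by
  intro d e kap hk
  obtain ⟨C₁, E₁, hC₁, hE₁, h₁⟩ := hB d e kap hk
  obtain ⟨C₂, E₂, hC₂, hE₂, h₂⟩ := hG d e kap hk
  obtain ⟨C₃, E₃, hC₃, hE₃, h₃⟩ := hC d e kap hk
  obtain ⟨η, E₄, hη, hE₄, h₄⟩ := hV d e kap hk
  refine ⟨max C₁ (max C₂ C₃), min E₁ (min E₂ (min E₃ E₄)), η, le_max_of_le_left hC₁,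
    lt_min hE₁ (lt_min hE₂ (lt_min hE₃ hE₄)), hη, fun P hPd hPe hPk hOk => ?_⟩
  have q1 : min E₁ (min E₂ (min E₃ E₄)) ≤ E₁ := min_le_left _ _
  have q2 : min E₁ (min E₂ (min E₃ E₄)) ≤ E₂ := (min_le_right _ _).trans (min_le_left _ _)
  have q3 : min E₁ (min E₂ (min E₃ E₄)) ≤ E₃ :=
    (min_le_right _ _).trans ((min_le_right _ _).trans (min_le_left _ _))
  have q4 : min E₁ (min E₂ (min E₃ E₄)) ≤ E₄ :=
    (min_le_right _ _).trans ((min_le_right _ _).trans (min_le_right _ _))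
  have r1 : C₁ ≤ max C₁ (max C₂ C₃) := le_max_left _ _
  have r2 : C₂ ≤ max C₁ (max C₂ C₃) := (le_max_left _ _).trans (le_max_right _ _)
  have r3 : C₃ ≤ max C₁ (max C₂ C₃) := (le_max_right _ _).trans (le_max_right _ _)
  obtain ⟨N₁, F₁, hN₁, z₁⟩ := h₁ P hPd hPe hPk (hOk.mono' hC₁ r1 q1)
  obtain ⟨N₂, F₂, hN₂, z₂⟩ := h₂ P hPd hPe hPk (hOk.mono' hC₂ r2 q2)
  obtain ⟨N₃, F₃, hN₃, z₃⟩ := h₃ P hPd hPe hPk (hOk.mono' hC₃ r3 q3)
  refine ⟨N₁ * (N₂ * N₃), fun x => F₁ x + (F₂ x + F₃ x), Nat.mul_pos hN₁ (Nat.mul_pos hN₂ hN₃),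
    fun c hc hS => ?_⟩
  have w1 := z₁ c (hc.mono' (Dvd.intro _ rfl) fun x => Nat.le_add_right _ _)
  have w2 := z₂ c (hc.mono' ((Dvd.intro _ rfl).trans (Dvd.intro_left _ rfl)) fun x => by
    show F₂ x ≤ F₁ x + (F₂ x + F₃ x)
    omega)
  have w3 := z₃ c (hc.mono' ((Dvd.intro_left _ rfl).trans (Dvd.intro_left _ rfl)) fun x => by
    show F₃ x ≤ F₁ x + (F₂ x + F₃ x)
    omega)
  have hc1 : ∀ i < P.J, 1 ≤ c i := fun i hi => (hc i hi).2.1
  have w4 := h₄ (P.wc c) hPd hPe hPk ((hOk.mono' le_rfl (hC₁.trans r1) q4).wc' c) hc1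
  subst hPe
  exact propJ_core (P.wc c) hOk.two hOk.lt (hOk.nonneg _) hc1 hη hS w1 w2 w3 w4

/-! ### The values -/

/-- Positivity near the natural densities. -/
def TargetBox : Prop := ∀ (d e : ℕ) (kap : ℕ → ℝ), Crit d e kap → ∃ E : ℝ, 0 < E ∧
  ∀ κ : Finset (Fin (d - e)) → ℚ, (∀ S, S ≠ ∅ → |(κ S : ℝ) - S.card.factorial * kap S.card| ≤ E) →
    ∀ I, 0 < FF κ I

theorem targetCv_of (hX : TargetBox) : TargetT CVJ := by
  classical
  intro d e kap hk
  obtain ⟨E, hE, hX⟩ := hX d e kap hk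
  refine ⟨1, E, le_rfl, hE, fun P hPd hPe hPk hOk => ?_⟩
  subst hPd hPe hPk
  obtain ⟨κ, hκ⟩ : ∃ κ : Finset (Fin P.J) → ℚ, κ = fun S => if 2 ≤ S.card then
    max (P.xp S.card (S.map Fin.valEmbedding)) (P.xm S.card (S.map Fin.valEmbedding)) else 0 := ⟨_, rfl⟩
  have hp := hOk.epos le_rfl
  -- the distances
  have hbetE : ∀ i < P.J, P.bet (i + 1) ≤ E := by
    intro i hi
    have h1 : ∀ k, i + 1 + k ≤ P.J → P.bet (i + 1) ≤ P.eps (i + 1 + k) := by
      intro k
      induction k with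
      | zero =>
        intro _
        have h2 := hOk.be i hi
        rw [one_mul] at h2
        exact h2
      | succ k ih =>
        intro h3
        have h4 := ih (by omega)
        have h5 := hOk.eb (i + 1 + k) (by omega)
        have h6 := hOk.be (i + 1 + k) (by omega)
        rw [one_mul] at h5 h6
        have h7 : i + 1 + (k + 1) = i + 1 + k + 1 := by ring
        rw [h7]
        linarith
    have h2 := h1 (P.J - (i + 1)) (by omega)
    rw [show i + 1 + (P.J - (i + 1)) = P.J by omega] at h2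
    exact h2.trans hOk.epsJ
  have hmax : ∀ S : Finset (Fin P.J), 2 ≤ S.card → ∃ i < P.J, (S.map Fin.valEmbedding).max = i := by
    intro S hS
    have hne : (S.map Fin.valEmbedding).Nonempty := by
      rw [map_nonempty]
      exact card_pos.1 (by omega)
    obtain ⟨i, hi⟩ := max_of_nonempty hne
    exact ⟨i, mem_range.1 (map_sub S (mem_of_max hi)), hi⟩
  have hnat : ∀ S : Finset (Fin P.J), P.nat S.card (S.map Fin.valEmbedding) =
      S.card.factorial * P.kap S.card := by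
    intro S
    unfold Par.nat
    rw [card_map, Nat.descFactorial_self, mul_comm]
  have hkx : ∀ S : Finset (Fin P.J), 2 ≤ S.card →
      |((κ S : ℚ) : ℝ) - S.card.factorial * P.kap S.card| ≤ E := by
    intro S hS
    obtain ⟨i, hi, hi'⟩ := hmax S hS
    have hsub := map_sub S
    have hcd : (S.map Fin.valEmbedding).card = S.card := card_map _
    have h1 := hOk.xp S.card (S.map Fin.valEmbedding) hS hsub hcd i hi'
    have h2 := hbetE i hi
    have h3 := (hp i hi.le).2 hi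
    rw [hnat] at h1
    rw [hκ]
    show |((if 2 ≤ S.card then max (P.xp S.card (S.map Fin.valEmbedding))
      (P.xm S.card (S.map Fin.valEmbedding)) else 0 : ℚ) : ℝ) - _| ≤ E
    rw [if_pos hS, Rat.cast_max]
    have h4 : (P.xm S.card (S.map Fin.valEmbedding) : ℝ) ≤ P.xp S.card (S.map Fin.valEmbedding) := by
      by_cases h5 : P.kap S.card = 0
      · rw [hOk.xm0 S.card _ h5]
        rw [h5, mul_zero] at h1
        push_cast
        linarith [h1.1]
      · have h6 := (hOk.xm S.card (S.map Fin.valEmbedding) hS hsub hcd i hi' h5).1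
        rw [hnat] at h6
        linarith [h1.1]
    rw [max_eq_left h4, abs_le]
    constructor
    · linarith [h1.1]
    · linarith [h1.2]
  have hkap1 : P.kap 1 = 0 := by
    by_contra h
    have := (hOk.supp 1 h).1
    omega
  have hF := hX κ fun S hS => by
    by_cases h2 : 2 ≤ S.card
    · exact hkx S h2
    · have h1 : S.card = 1 := by
        have := card_pos.2 (nonempty_iff_ne_empty.2 hS)
        omega
      rw [hκ]
      show |((if 2 ≤ S.card then _ else 0 : ℚ) : ℝ) - _| ≤ E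
      rw [if_neg h2, h1, hkap1, mul_zero, Rat.cast_zero, sub_zero, abs_zero]
      exact hE.le
  have hκ0 : ∀ S, 0 ≤ κ S := by
    intro S
    by_cases h2 : 2 ≤ S.card
    · obtain ⟨i, hi, hi'⟩ := hmax S h2
      have h1 := (hOk.xp S.card (S.map Fin.valEmbedding) h2 (map_sub S) (card_map _) i hi').1
      have h3 := (hp i hi.le).2 hi
      rw [hnat] at h1
      have h4 : (0 : ℝ) ≤ S.card.factorial * P.kap S.card :=
        mul_nonneg (Nat.cast_nonneg _) (hOk.nonneg _)
      have h5 : (0 : ℝ) ≤ P.xp S.card (S.map Fin.valEmbedding) := by linarith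
      have h6 : (0 : ℚ) ≤ P.xp S.card (S.map Fin.valEmbedding) := by exact_mod_cast h5
      rw [hκ]
      show 0 ≤ if 2 ≤ S.card then _ else _
      rw [if_pos h2]
      exact le_max_of_le_left h6
    · rw [hκ]
      show 0 ≤ if 2 ≤ S.card then _ else (0 : ℚ)
      rw [if_neg h2]
  obtain ⟨N, hN, hEx⟩ := Pool.Agent.GD.BE.exact_le κ hκ0 univ fun J _ => hF J
  refine ⟨N, fun _ => 0, hN, fun c hc => ?_⟩
  refine cvJ_of (P.wc c) hOk.two hOk.lt (fun i hi => (hc i hi).2.1) κ hκ0 (fun S hS => ?_) ?_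
  · have h1 : κ S = max (P.xp S.card (S.map Fin.valEmbedding)) (P.xm S.card (S.map Fin.valEmbedding)) := by
      rw [hκ]
      exact if_pos hS
    rw [h1]
    exact ⟨le_max_left _ _, le_max_right _ _⟩
  · intro Q _ m hm hcard
    exact hEx (fun i : Fin P.J => c i) (fun i => ⟨(hc i.1 i.2).2.1, (hc i.1 i.2).1⟩) Q m hm hcard

end Pool.Agent.GD

end

section

/-!
# GD, TOP: positivity of the virtual dimensions near the natural densities
-/

set_option autoImplicit false

namespace Pool.Agent.GD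

open Finset Pool.Agent.GD.BE Pool.Agent.GD.VT Topology

theorem continuous_FR {ι : Type} [DecidableEq ι] (I : Finset ι) :
    Continuous fun κ : Finset ι → ℝ => FR κ I := by
  unfold FR
  fun_prop

theorem box {ι : Type} [Fintype ι] [DecidableEq ι] (κ₀ : Finset ι → ℝ) (h : ∀ I, 0 < FR κ₀ I) :
    ∃ E : ℝ, 0 < E ∧ ∀ κ : Finset ι → ℝ, (∀ S, S ≠ ∅ → |κ S - κ₀ S| ≤ E) → ∀ I, 0 < FR κ I := by
  classical
  have h1 : ∀ᶠ κ in 𝓝 κ₀, ∀ I, 0 < FR κ I := by
    rw [Filter.eventually_all]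
    intro I
    exact (continuous_FR I).continuousAt.eventually (lt_mem_nhds (h I))
  obtain ⟨ε, hε, h2⟩ := Metric.eventually_nhds_iff.1 h1
  refine ⟨ε / 2, by linarith, fun κ hκ I => ?_⟩
  have h3 : FR κ I = FR (fun S => if S = ∅ then κ₀ ∅ else κ S) I :=
    FR_congr fun S _ hS => by rw [if_neg hS]
  rw [h3]
  refine h2 ?_ I
  refine lt_of_le_of_lt ((dist_pi_le_iff (by linarith : (0 : ℝ) ≤ ε / 2)).2 fun S => ?_)
    (by linarith : ε / 2 < ε)
  rw [Real.dist_eq]
  by_cases hS : S = ∅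
  · rw [hS, if_pos rfl, sub_self, abs_zero]
    linarith
  · rw [if_neg hS]
    exact hκ S hS

theorem targetBox : TargetBox := by
  intro d e kap hk
  have h1 : kap 1 = 0 := by
    by_contra h
    have := (hk.supp 1 h).1
    omega
  obtain ⟨E, hE, h2⟩ := box (ι := Fin (d - e)) (fun S => (S.card.factorial : ℝ) * kap S.card)
    (fun I => by
      rw [FR_nat kap h1 I]
      have h3 := card_le_univ I
      rw [Fintype.card_fin] at h3
      have h4 := hk.two
      have h5 := hk.lt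
      exact mul_pos (by positivity) (hk.gpos _ (by omega)))
  refine ⟨E, hE, fun κ hκ I => ?_⟩
  have h3 := h2 (fun S => (κ S : ℝ)) hκ I
  rw [FR_cast] at h3
  exact_mod_cast h3

/-- The values of the vector valued forms. -/
theorem targetCv : TargetT CVJ := targetCv_of targetBox

end Pool.Agent.GD

end
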