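import Pool.Agent.H94.LP7.GD.BE.Gain_1
import Pool.Agent.H94.LP7.GD.BE.NumF
import Pool.Agent.H94.LP7.M31
import Pool.Agent.H94.LP7.M66

/-! The parts of this file: GD.BE.Asm, GD.BE.Bet. -/

section

/-!
# General d, block BETA, module Asm: strictness on the last level

`asm_fix`: for fixed base numbers; `targetBet`: `TargetT BETJ`.
-/

set_option autoImplicit false
set_option linter.unusedSectionVars false

namespace Pool.Agent.GD.BE

open Finset MvPolynomial Module Pool.Agent.H51.TB Topology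
open Pool.Agent.GD.Top (Bl TI Gam IsB SF)

/-- The output of `gain`. -/
def Gn4 (P : Par) (kb : Finset (Fin P.J) → ℚ) (cz : ℕ) (lo hi : Finset (Fin P.J) → ℕ → ℕ)
    (b : ℕ) : Prop :=
  ∃ (P₀ : Type) (_ : Fintype P₀) (m₀ : P₀ → Finset (Fin P.J ⊕ Fin P.e))
    (r : P₀ → (Σ i : Fin P.J ⊕ Fin P.e, Fin (cd P.c cz i)) → ℂ) (s : ℕ),
    (∀ z, m₀ z ⊆ tb P.J P.e) ∧
    (∀ K, (Nat.card {z // lf (m₀ z) = K} : ℚ) = kb K * ∏ i ∈ K, (P.c i : ℚ)) ∧ 0 < s ∧
    ∀ ν : Nos P.J, ν.lo = lo → ν.hi = hi → ∀ (q₀ : ℕ) (δ : Dpn ν (P.e * (2 * s) * q₀)), δ.Ok →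
      (∀ u ∈ δ.D, ∀ (j : Fin s) (f : Fin P.e → Fin q₀), ¬ Sees (gb j f) u) →
      ∃ p : PB ν (P.e * (2 * s) * q₀) → RC P.c cz P.J (P.e * (2 * s) * q₀) → ℂ,
        ∀ F : Submodule ℂ (TI P.c P.J → ℂ), F ≠ ⊥ → finrank ℂ F < b →
          ((∑ α ∈ univ \ bad P.e δ, finrank ℂ (KE (tb P.J P.e)
              (Sum.elim m₀ (mC (nhi ν) (cor ν α)))
              (Sum.elim r (pos ν α (vis δ p))) (ext P.e cz F)) + q₀ ^ P.e : ℕ) : ℝ) * b ≤
            finrank ℂ F * ((∏ i ∈ range P.J, (P.c i : ℝ)) * (cz : ℝ) ^ P.e *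
              ∑ α : Fin P.e ↪o Fin (P.e * (2 * s) * q₀),
                FR (kcor (kbR kb) (DD P.c cz) (cor ν α)) univ)

theorem card_phi {c : ℕ → ℕ} {J m n : ℕ} (φ : Bl c J ⊕ Fin m ≃ Fin n) :
    m + ∑ i ∈ range J, c i = n := by
  have h := Fintype.card_congr φ
  rw [Fintype.card_sum, Fintype.card_sigma, Fintype.card_fin, Fintype.card_fin] at h
  simp only [Fintype.card_fin] at h
  rw [Fin.sum_univ_eq_sum_range c J] at h
  omega

theorem exists_vz {q cz m : ℕ} (h : q * cz ≤ m) :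
    ∃ vz : Fin q × Fin cz → Fin m, Function.Injective vz :=
  ⟨fun x => Fin.castLE h (finProdFinEquiv x), fun _ _ hxy =>
    finProdFinEquiv.injective (Fin.castLE_injective h hxy)⟩

/-- The final inequality. -/
theorem fin_ineq (e : ℕ) (g V η C₃ : ℝ) (hg : 0 < g) (hη : η = g / 4)
    (δ : ℝ) (hδ0 : 0 < δ) (hδ : δ * V ≤ g / 4) (he : 1 ≤ e) :
    ∃ n₀ : ℕ, ∀ n : ℕ, n₀ ≤ n → ∀ (b h : ℕ) (v S q Q jk : ℝ), 1 ≤ b → h ≤ b → v ≤ V * (n : ℝ) ^ e →
      g * (n : ℝ) ^ e ≤ q → (S + q) * b ≤ h * (v + η * (n : ℝ) ^ e) → Q ≤ S + jk →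
      b * jk ≤ C₃ * (n : ℝ) ^ (e - 1) → Q * b ≤ (1 - δ) * h * v := by
  obtain ⟨n₀, hn₀⟩ := exists_nat_ge (2 * C₃ / g)
  refine ⟨n₀ + 1, fun n hn b h v S q Q jk hb hhb hv hq hS hQ hjk => ?_⟩
  have hn1 : (1 : ℝ) ≤ n := by
    have : 1 ≤ n := by omega
    exact_mod_cast this
  have hnn : 2 * C₃ / g ≤ n := hn₀.trans (by exact_mod_cast (by omega : n₀ ≤ n))
  have hb' : (1 : ℝ) ≤ b := by exact_mod_cast hb
  have hh' : (h : ℝ) ≤ b := by exact_mod_cast hhb
  have hh0 : (0 : ℝ) ≤ h := Nat.cast_nonneg h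
  have hne : (0 : ℝ) < (n : ℝ) ^ e := by positivity
  have hne1 : (0 : ℝ) < (n : ℝ) ^ (e - 1) := by positivity
  have hpow : (n : ℝ) ^ e = n * (n : ℝ) ^ (e - 1) := by
    rw [← pow_succ']
    congr 1
    omega
  have h1 : C₃ * (n : ℝ) ^ (e - 1) ≤ g / 2 * (n : ℝ) ^ e := by
    rw [hpow]
    have h2 : C₃ ≤ g / 2 * n := by
      rw [div_le_iff₀ hg] at hnn
      linarith only [hnn]
    nlinarith only [hne1, h2]
  have h3 : Q * b ≤ S * b + C₃ * (n : ℝ) ^ (e - 1) := by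
    have : Q * b ≤ (S + jk) * b := by nlinarith only [hQ]
    nlinarith only [hjk, this]
  have h4 : g * (n : ℝ) ^ e * b ≤ q * b := by nlinarith only [hq]
  have h5 : δ * h * v ≤ g / 4 * b * (n : ℝ) ^ e := by
    have h6 : δ * h * v ≤ δ * h * (V * (n : ℝ) ^ e) := by
      apply mul_le_mul_of_nonneg_left hv
      positivity
    have h7 : δ * h * (V * (n : ℝ) ^ e) = δ * V * (h * (n : ℝ) ^ e) := by ring
    have h8 : δ * V * (h * (n : ℝ) ^ e) ≤ g / 4 * (h * (n : ℝ) ^ e) := by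
      apply mul_le_mul_of_nonneg_right hδ
      positivity
    have h9 : g / 4 * (h * (n : ℝ) ^ e) ≤ g / 4 * (b * (n : ℝ) ^ e) := by
      have : (h : ℝ) * (n : ℝ) ^ e ≤ b * (n : ℝ) ^ e := mul_le_mul_of_nonneg_right hh' hne.le
      nlinarith only [hg, this]
    nlinarith only [h6, h8, h9]
  have h10 : (h : ℝ) * (η * (n : ℝ) ^ e) ≤ g / 4 * b * (n : ℝ) ^ e := by
    rw [hη]
    have : (h : ℝ) * (n : ℝ) ^ e ≤ b * (n : ℝ) ^ e := mul_le_mul_of_nonneg_right hh' hne.le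
    nlinarith only [hg, this]
  have h11 : g / 2 * (n : ℝ) ^ e ≤ g / 2 * (n : ℝ) ^ e * b := by
    have : 0 ≤ g / 2 * (n : ℝ) ^ e := by positivity
    nlinarith only [hb', this]
  nlinarith only [hS, h1, h3, h4, h5, h10, h11]

open Classical in
theorem asm_fix (P : Par) {E : ℝ} {kl kh : ℕ → ℚ} {kb : Finset (Fin P.J) → ℚ} {cz : ℕ}
    {lo hi : Finset (Fin P.J) → ℕ → ℕ} (h : Dc P E kl kh kb cz lo hi)
    (hM : ∀ i < P.J, 16 * ((P.e - 1).factorial : ℝ) * 2 ^ (P.e - 1) * (P.d ^ 2 * P.M : ℕ) ≤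
      (kl P.e : ℝ) * P.c i)
    (b : ℕ)
    (hb : (b : ℝ) = (∏ i ∈ range P.J, (P.c i : ℝ)) * FR (kbR (e := P.e) kb) (tb P.J P.e))
    (hG : Gn4 P kb cz lo hi b) :
    ∃ δ : ℝ, 0 < δ ∧ δ ≤ 1 / 2 ∧ ∃ n₀ : ℕ, ∀ n, n₀ ≤ n →
      ∀ (m : ℕ) (φ : Bl P.c P.J ⊕ Fin m ≃ Fin n), IsB φ (blk P.c n) →
      ∀ ms, Ck P kb n ms →
      ∀ (κ : Type) [Fintype κ] (rest : κ → Kd), (univ : Finset κ).val.map rest = ms →
        ∃ p₁ : κ → Fin n × Fin (P.d + 1) → ℂ, ∀ᶠ p in 𝓝 p₁, ∀ F : Submodule ℂ (TI P.c P.J → ℂ),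
          F ≠ ⊥ → (finrank ℂ F : ℤ) < P.b n ms →
            (finrank ℂ (SF φ ((LS P.d P.d (blk P.c n) (range P.J)).V rest p) F) : ℝ) *
                P.b n ms ≤ (1 - δ) * finrank ℂ F * P.v P.J n ms := by
  obtain ⟨P₀, _, m₀, r, s, hm₀, hcard, hs, hgain⟩ := hG
  have he := h.he
  have hed := h.hed
  have hcz := h.hcz
  have hJ : P.e + P.J = P.d := by
    unfold Par.J
    omega
  obtain ⟨C₁, hC₁, hasg⟩ := asg P he hed
  obtain ⟨g, hgdef⟩ : ∃ g : ℝ, g = (1 / (4 * P.e * s * cz)) ^ P.e := ⟨_, rfl⟩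
  have heR : (0 : ℝ) < P.e := by exact_mod_cast (by omega : 0 < P.e)
  have hsR : (0 : ℝ) < s := by exact_mod_cast hs
  have hczR : (0 : ℝ) < cz := by exact_mod_cast hcz
  have hg : 0 < g := by
    rw [hgdef]
    positivity
  obtain ⟨V, hV, nV, hnV⟩ := numV P h
  obtain ⟨LA, hLA, hlch⟩ := lch P h
  obtain ⟨LF, hLF, hnumF⟩ := numF P h s hs (g / 4) (by positivity)
  obtain ⟨L, hLdef⟩ : ∃ L, L = max LA LF := ⟨_, rfl⟩
  have hL : 0 < L := by
    rw [hLdef]
    exact lt_of_lt_of_le hLA (le_max_left _ _)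
  obtain ⟨nF, hnF⟩ := hnumF L (by rw [hLdef]; exact le_max_right _ _)
  obtain ⟨nU, hnU⟩ := numU P h s hs L hL C₁
  obtain ⟨nD, hnD⟩ := numD P h s (by omega) L hL hM
  obtain ⟨nB, hnB⟩ := b_eq P he hed h.hc kb b hb
  obtain ⟨Cj, hCj, hjk⟩ := jk_le P.c P.J P.e cz (fun i hi => h.hc i hi) hcz (by omega)
    (P.e * (2 * s) * L * cz)
  obtain ⟨W, hW⟩ : ∃ W : ℕ, W = (∏ i ∈ range P.J, P.c i) * cz ^ P.e := ⟨_, rfl⟩
  obtain ⟨nI, hnI⟩ := fin_ineq P.e g V (g / 4) (b * (Cj + C₁ * W)) hg rfl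
    (min (1 / 2) (g / (4 * (V + 1)))) (by positivity) (by
      have h1 : min (1 / 2) (g / (4 * (V + 1))) ≤ g / (4 * (V + 1)) := min_le_right _ _
      have h2 : g / (4 * (V + 1)) * V ≤ g / 4 := by
        rw [div_mul_eq_mul_div, div_le_div_iff₀ (by positivity) (by norm_num)]
        nlinarith only [hg]
      exact (mul_le_mul_of_nonneg_right h1 hV).trans h2) (by omega)
  refine ⟨min (1 / 2) (g / (4 * (V + 1))), by positivity, min_le_left _ _,
    1 + nV + nF + nU + nD + nB + nI + 2 * (P.e * (2 * s) * L * cz + ∑ i ∈ range P.J, P.c i),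
    fun n hn m φ hφ ms hms κ _ rest hrest => ?_⟩
  obtain ⟨δ₁, hδ₁⟩ : ∃ δ₁ : ℝ, δ₁ = min (1 / 2) (g / (4 * (V + 1))) := ⟨_, rfl⟩
  rw [← hδ₁] at hnI ⊢
  have hmn := card_phi φ
  have hn1 : 1 ≤ n := by omega
  obtain ⟨l, hl⟩ := hlch L (by rw [hLdef]; exact le_max_left _ _) n hn1 ms hms.cls
  obtain ⟨q₀, hq₀⟩ : ∃ q₀, q₀ = qz P.e s L cz m := ⟨_, rfl⟩
  obtain ⟨hq1, hq2, hq3⟩ := qz_bd (e := P.e) (s := s) (L := L) (cz := cz) (by omega) hs hL hcz m
  have hU := hnU n (by omega) m hmn ms hms l hl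
  have hD := hnD n (by omega) m hmn l
  have hFv := hnF n (by omega) m hmn ms hms l hl
  rw [← hq₀] at hq1 hq2 hq3 hU hD hFv
  obtain ⟨vz, hvz⟩ := exists_vz hq2
  obtain ⟨δp, hok, hcls, hcd, hsum, hreal⟩ := hasg n hn1 ms hms.cls κ rest hrest m φ hφ s q₀ cz
    (by omega) ⟨lo, hi, l, L⟩ vz hU hD P₀ m₀ hm₀ (by
      intro K
      have h1 := hcard K
      have h2 := hms.base K
      rw [← h2, Nat.card_eq_fintype_card, Fintype.card_subtype] at h1
      have h3 : ((univ : Finset P₀).filter fun z => lf (m₀ z) = K).card =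
          npt ms K.card (range P.J \ K.map Fin.valEmbedding) := by exact_mod_cast h1
      exact h3.le) r
  obtain ⟨p, hp⟩ := hgain ⟨lo, hi, l, L⟩ rfl rfl q₀ δp hok
    (fun u hu j f => cls_not_sees (by omega) u (hcls u hu) j f)
  obtain ⟨p₁, hbase, hadd⟩ := hreal p
  have hPb : P.b n ms = b := hnB n (by omega) ms hms.cls hms.u fun K _ => hms.base K
  have hbad : ((bad P.e δp).card : ℝ) ≤ C₁ * (n : ℝ) ^ (P.e - 1) := by
    refine le_trans ?_ hsum
    exact_mod_cast bad_card δp hcd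
  have hjk' := hjk n (P.e * (2 * s) * q₀) hn1 (by omega) (by omega) (by omega)
  rw [hJ] at hjk'
  have hqn : g * (n : ℝ) ^ P.e ≤ ((q₀ ^ P.e : ℕ) : ℝ) := by
    rw [hgdef, ← mul_pow]
    push_cast
    apply pow_le_pow_left₀ (by positivity)
    rw [one_div, inv_mul_le_iff₀ (by positivity)]
    have h1 : n ≤ 4 * P.e * s * cz * q₀ := by
      have h2 : P.e * (2 * s) * q₀ * cz * 2 = 4 * P.e * s * cz * q₀ := by ring
      omega
    calc (n : ℝ) ≤ ((4 * P.e * s * cz * q₀ : ℕ) : ℝ) := by exact_mod_cast h1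
      _ = _ := by push_cast; ring
  have key : ∀ F : Submodule ℂ (TI P.c P.J → ℂ), F ≠ ⊥ → finrank ℂ F < b →
      (finrank ℂ (SF φ ((LS P.d P.d (blk P.c n) (range P.J)).V rest p₁) F) : ℝ) * b ≤
        (1 - δ₁) * finrank ℂ F * P.v P.J n ms := by
    intro F hF hFb
    have h1 := frm (d := P.d) hJ.symm (fun i hi => h.hc i hi) hcz φ hφ vz hvz ⟨lo, hi, l, L⟩ rest
      p₁ m₀ hm₀ r hbase (vis δp p) hadd (bad P.e δp) F
    have h2 := hp F hF hFb
    refine hnI n (by omega) b (finrank ℂ F) (P.v P.J n ms)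
      ((∑ α ∈ univ \ bad P.e δp, finrank ℂ (KE (tb P.J P.e)
              (Sum.elim m₀ (mC (nhi ⟨lo, hi, l, L⟩) (cor ⟨lo, hi, l, L⟩ α)))
              (Sum.elim r (pos ⟨lo, hi, l, L⟩ α (vis δp p))) (ext P.e cz F)) : ℕ) : ℝ)
      ((q₀ ^ P.e : ℕ) : ℝ) _
      ((jk P.c cz P.J P.e (P.e * (2 * s) * q₀) n P.d : ℝ) + (bad P.e δp).card * W)
      (by omega) hFb.le (hnV n (by omega) ms hms) hqn ?_ ?_ ?_
    · rw [← Nat.cast_add]
      refine h2.trans ?_
      apply mul_le_mul_of_nonneg_left hFv (Nat.cast_nonneg _)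
    · rw [← hW] at h1
      have h3 := (Nat.cast_le (α := ℝ)).2 h1
      push_cast at h3 ⊢
      linarith only [h3]
    · have h4 : (jk P.c cz P.J P.e (P.e * (2 * s) * q₀) n P.d : ℝ) + (bad P.e δp).card * W ≤
          (Cj + C₁ * W) * (n : ℝ) ^ (P.e - 1) := by
        have h5 : ((bad P.e δp).card : ℝ) * W ≤ C₁ * (n : ℝ) ^ (P.e - 1) * W :=
          mul_le_mul_of_nonneg_right hbad (Nat.cast_nonneg _)
        nlinarith only [hjk', h5]
      calc (b : ℝ) * ((jk P.c cz P.J P.e (P.e * (2 * s) * q₀) n P.d : ℝ) +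
            (bad P.e δp).card * W) ≤ b * ((Cj + C₁ * W) * (n : ℝ) ^ (P.e - 1)) :=
          mul_le_mul_of_nonneg_left h4 (Nat.cast_nonneg _)
        _ = _ := by ring
  refine ⟨p₁, ?_⟩
  have hnear := frm_near φ rest (fun x => if 0 < x ∧ x < b then
      ⌊(1 - δ₁) * x * (P.v P.J n ms : ℝ) / b⌋₊ else
        finrank ℂ ({e // e ∈ Pool.Agent.GD.Ex (blk P.c n) P.d (range P.J)} → ℂ)) p₁ (d := P.d) (by
    intro F
    by_cases hF : 0 < finrank ℂ F ∧ finrank ℂ F < b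
    · simp only [if_pos hF]
      have hF0 : F ≠ ⊥ := by
        rintro rfl
        simp at hF
      have hb0 : (0 : ℝ) < b := by exact_mod_cast (by omega : 0 < b)
      apply Nat.le_floor
      rw [le_div_iff₀ hb0]
      exact key F hF0 hF.2
    · simp only [if_neg hF]
      exact Submodule.finrank_le _)
  filter_upwards [hnear] with p' hp' F hF hFb
  rw [hPb] at hFb ⊢
  have hFb' : finrank ℂ F < b := by exact_mod_cast hFb
  have hF0 : 0 < finrank ℂ F := by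
    rw [Nat.pos_iff_ne_zero]
    intro h0
    exact hF (Submodule.finrank_eq_zero.1 h0)
  have hb0 : (0 : ℝ) < b := by exact_mod_cast (by omega : 0 < b)
  have h5 := hp' F
  simp only [if_pos (And.intro hF0 hFb')] at h5
  have h6 := key F hF hFb'
  have h7 : 0 ≤ (1 - δ₁) * finrank ℂ F * (P.v P.J n ms : ℝ) / b := by
    apply div_nonneg _ hb0.le
    refine le_trans ?_ h6
    positivity
  have h8 := (Nat.cast_le (α := ℝ)).2 h5
  have h9 := h8.trans (Nat.floor_le h7)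
  rw [le_div_iff₀ hb0] at h9
  exact_mod_cast h9

end Pool.Agent.GD.BE

end

section

/-!
# General d, block BETA: `TargetT BETJ`
-/

set_option autoImplicit false
set_option linter.unusedSectionVars false

namespace Pool.Agent.GD.BE

open Finset MvPolynomial Module Pool.Agent.H51.TB Topology
open Pool.Agent.GD.Top (Bl TI Gam IsB SF)

/-- The choices of the base numbers. -/
def kbx (P : Par) (χ : Finset (Fin P.J) → Bool) (K : Finset (Fin P.J)) : ℚ :=
  if K.card ≤ 1 then 0 else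
    if χ K then P.xp K.card (K.map Fin.valEmbedding) else P.xm K.card (K.map Fin.valEmbedding)

theorem eps_mono {P : Par} {E : ℝ} (h : P.Ok 1 E) : ∀ i ≤ P.J, ∀ j ≤ i,
    0 < P.eps j ∧ P.eps j ≤ P.eps i := by
  have hpos : ∀ j ≤ P.J, 0 < P.eps j := by
    intro j
    induction j with
    | zero => exact fun _ => h.eps0
    | succ j ih =>
      intro hj
      have h1 := ih (by omega)
      have h2 := h.eb j (by omega)
      have h3 := h.be j (by omega)
      linarith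
  intro i
  induction i with
  | zero =>
    intro _ j hj
    have : j = 0 := by omega
    rw [this]
    exact ⟨h.eps0, le_refl _⟩
  | succ i ih =>
    intro hi j hj
    refine ⟨hpos j (by omega), ?_⟩
    rcases Nat.lt_or_ge i j with h1 | h1
    · have : j = i + 1 := by omega
      rw [this]
    · have h2 := (ih (by omega) j h1).2
      have h3 := h.eb i (by omega)
      have h4 := h.be i (by omega)
      linarith

theorem bet_le {P : Par} {E : ℝ} (h : P.Ok 1 E) {i : ℕ} (hi : i < P.J) :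
    0 < P.bet (i + 1) ∧ P.bet (i + 1) ≤ E := by
  have h1 := h.eb i hi
  have h2 := h.be i hi
  have h3 := (eps_mono h P.J (le_refl _) i hi.le).1
  have h4 := (eps_mono h P.J (le_refl _) (i + 1) hi).2
  have h5 := h.epsJ
  constructor <;> linarith

/-- The largest element. -/
theorem exists_max {J : ℕ} {K : Finset (Fin J)} (hK : 2 ≤ K.card) :
    ∃ i < J, (K.map Fin.valEmbedding).max = (i : ℕ) := by
  have h1 : (K.map Fin.valEmbedding).Nonempty := by
    rw [Finset.map_nonempty, ← Finset.card_pos]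
    omega
  obtain ⟨i, hi⟩ := Finset.max_of_nonempty h1
  refine ⟨i, ?_, hi⟩
  have h2 := Finset.mem_of_max hi
  obtain ⟨x, _, hx⟩ := Finset.mem_map.1 h2
  rw [← hx]
  exact x.2

theorem nat_eq (P : Par) {K : Finset (Fin P.J)} :
    P.nat K.card (K.map Fin.valEmbedding) = (K.card.factorial : ℝ) * P.kap K.card := by
  unfold Par.nat
  rw [Finset.card_map, Nat.descFactorial_self, mul_comm]

theorem kbx_ok {P : Par} {E : ℝ} (h : P.Ok 1 E) {d : ℕ} {kl : ℕ → ℚ} (hE : 0 < E)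
    (hkl : ∀ x, P.kap x ≠ 0 → 0 < kl x ∧ (kl x : ℝ) + d.factorial * E ≤ x.factorial * P.kap x)
    (χ : Finset (Fin P.J) → Bool) : (∀ K, 0 ≤ kbx P χ K) ∧ (∀ K, K.card ≤ 1 → kbx P χ K = 0) ∧
      ∀ K : Finset (Fin P.J), 2 ≤ K.card →
        |(kbx P χ K : ℝ) - (K.card.factorial : ℝ) * P.kap K.card| ≤ E := by
  have main : ∀ K : Finset (Fin P.J), 2 ≤ K.card → 0 ≤ kbx P χ K ∧
      |(kbx P χ K : ℝ) - (K.card.factorial : ℝ) * P.kap K.card| ≤ E := by
    intro K hK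
    obtain ⟨i, hi, hmax⟩ := exists_max hK
    have hb := bet_le h hi
    have hsub : K.map Fin.valEmbedding ⊆ range P.J := by
      intro y hy
      obtain ⟨x, _, rfl⟩ := Finset.mem_map.1 hy
      exact mem_range.2 x.2
    have hcard : (K.map Fin.valEmbedding).card = K.card := Finset.card_map _
    unfold kbx
    rw [if_neg (by omega)]
    split_ifs with hχ
    · have h1 := h.xp K.card (K.map Fin.valEmbedding) hK hsub hcard i hmax
      rw [nat_eq] at h1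
      have h2 : 0 ≤ (K.card.factorial : ℝ) * P.kap K.card :=
        mul_nonneg (Nat.cast_nonneg _) (h.nonneg _)
      constructor
      · have h3 : (0 : ℝ) ≤ P.xp K.card (K.map Fin.valEmbedding) := by linarith
        exact_mod_cast h3
      · rw [abs_le]
        constructor <;> linarith
    · by_cases hk : P.kap K.card = 0
      · have h1 := h.xm0 K.card (K.map Fin.valEmbedding) hk
        rw [h1, hk]
        constructor
        · exact le_refl _
        · simp [hE.le]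
      · have h1 := h.xm K.card (K.map Fin.valEmbedding) hK hsub hcard i hmax hk
        rw [nat_eq] at h1
        have h2 := hkl K.card hk
        have h4 : (0 : ℝ) < kl K.card := by exact_mod_cast h2.1
        have h5 : E ≤ d.factorial * E := by
          have : (1 : ℝ) ≤ d.factorial := by exact_mod_cast Nat.factorial_pos d
          nlinarith
        constructor
        · have h3 : (0 : ℝ) ≤ P.xm K.card (K.map Fin.valEmbedding) := by linarith [h2.2]
          exact_mod_cast h3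
        · rw [abs_le]
          constructor <;> linarith
  refine ⟨fun K => ?_, fun K hK => ?_, fun K hK => (main K hK).2⟩
  · by_cases hK : K.card ≤ 1
    · unfold kbx
      rw [if_pos hK]
    · exact (main K (by omega)).1
  · unfold kbx
    rw [if_pos hK]

/-- The base numbers of a configuration. -/
theorem exists_chi {P : Par} (he : 2 ≤ P.e) (hed : P.e < P.d) {n : ℕ} (hn : 1 ≤ n)
    {ms : Multiset Kd} (hcls : Cls P P.J n ms) (hu : ms.count (P.u P.J) = 0) :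
    ∃ χ, Ck P (kbx P χ) n ms := by
  classical
  have hJ : P.J < P.d := by
    unfold Par.J
    omega
  have hsd : ∀ K : Finset (Fin P.J), range P.J \ (range P.J \ K.map Fin.valEmbedding) =
      K.map Fin.valEmbedding := by
    intro K
    rw [Finset.sdiff_sdiff_eq_self]
    intro y hy
    obtain ⟨x, _, rfl⟩ := Finset.mem_map.1 hy
    exact mem_range.2 x.2
  have hcc : ∀ K : Finset (Fin P.J), (P.cc (K.map Fin.valEmbedding) : ℚ) =
      ∏ i ∈ K, (P.c i : ℚ) := by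
    intro K
    unfold Par.cc
    rw [Finset.prod_map]
    push_cast
    rfl
  refine ⟨fun K => decide ((npt ms K.card (range P.J \ K.map Fin.valEmbedding) : ℚ) =
    P.xp K.card (K.map Fin.valEmbedding) * P.cc (K.map Fin.valEmbedding)), hcls, hu,
    fun K => ?_⟩
  by_cases hK : K.card ≤ 1
  · obtain ⟨C₀, _, hC₀⟩ := Pool.Agent.GD.VT.npt_bd P he hed (le_refl P.J) 0
    have h1 := hC₀ n hn ms hcls (by
      rw [npt_u P he hed hcls hu]
      simp) (K.map Fin.valEmbedding) (by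
      intro y hy
      obtain ⟨x, _, rfl⟩ := Finset.mem_map.1 hy
      exact mem_range.2 x.2) K.card
    rw [h1.1 (Or.inr (Or.inr hK))]
    unfold kbx
    rw [if_pos hK]
    simp
  · have h1 := hcls.zero K.card (range P.J \ K.map Fin.valEmbedding) (by omega) (by
      have h2 := Finset.card_le_univ K
      rw [Fintype.card_fin] at h2
      omega) Finset.sdiff_subset (by rw [hsd, Finset.card_map])
    rw [hsd] at h1
    unfold kbx
    rw [if_neg hK, ← hcc]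
    by_cases h2 : (npt ms K.card (range P.J \ K.map Fin.valEmbedding) : ℚ) =
      P.xp K.card (K.map Fin.valEmbedding) * P.cc (K.map Fin.valEmbedding)
    · rw [if_pos (by simpa using h2)]
      exact h2
    · rw [if_neg (by simpa using h2)]
      exact h1.resolve_left h2

/-- STRICTNESS ON THE LAST LEVEL. -/
theorem targetBet : TargetT BETJ := by
  classical
  intro d e kap hcrit
  obtain ⟨J, hJ⟩ : ∃ J, J + e = d := ⟨d - e, Nat.sub_add_cancel hcrit.lt.le⟩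
  obtain ⟨E, kl, kh, hE, h0, hk0, hkl, hkh, hA⟩ := dens d e J kap hcrit hJ
  refine ⟨1, E, le_refl _, hE, ?_⟩
  intro P hd he hk hOk
  subst hd he hk
  have hJ' : J = P.J := by
    unfold Par.J
    omega
  subst hJ'
  have he2 := hcrit.two
  have hed := hcrit.lt
  have hkle : (0 : ℝ) < kl P.e := by exact_mod_cast (hkl P.e hcrit.pos.ne').1
  have hch : ∀ χ : Finset (Fin P.J) → Bool, ∃ N : ℕ, 0 < N ∧
      ∀ (c : ℕ → ℕ) (cz : ℕ), (∀ i < P.J, 0 < c i ∧ N ∣ c i) → 0 < cz → N ∣ cz →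
      ∃ (lo hi : Finset (Fin P.J) → ℕ → ℕ) (b : ℕ),
        (∀ K a, (lo K a : ℚ) = dK P.d P.e kl K a * (∏ i ∈ K, (c i : ℚ)) * (cz : ℚ) ^ a ∧
          (hi K a : ℚ) = dK P.d P.e kh K a * (∏ i ∈ K, (c i : ℚ)) * (cz : ℚ) ^ a) ∧
        (b : ℝ) = (∏ i ∈ range P.J, (c i : ℝ)) * FR (kbR (e := P.e) (kbx P χ)) (tb P.J P.e) ∧
        Gn4 (P.wc c) (kbx P χ) cz lo hi b := by
    intro χ
    obtain ⟨h1, h2, h3⟩ := kbx_ok hOk hE hkl χ
    exact gain P.d P.e P.J he2 hJ kl kh h0 (kbx P χ) h1 (h2 ∅ (by simp)) (hA (kbx P χ) h1 h2 h3)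
  choose N hN0 hN using hch
  refine ⟨∏ χ, N χ, fun _ => ⌈16 * ((P.e - 1).factorial : ℝ) * 2 ^ (P.e - 1) *
    (P.d ^ 2 * P.M : ℕ) / kl P.e⌉₊, Finset.prod_pos fun χ _ => hN0 χ, fun c hc => ?_⟩
  have hc1 : ∀ i < P.J, 0 < c i := fun i hi => (hc i hi).2.1
  have hcM : ∀ i < (P.wc c).J, 16 * (((P.wc c).e - 1).factorial : ℝ) * 2 ^ ((P.wc c).e - 1) *
      ((P.wc c).d ^ 2 * (P.wc c).M : ℕ) ≤ (kl (P.wc c).e : ℝ) * (P.wc c).c i := by
    intro i hi
    have h1 := (Nat.le_ceil _).trans ((Nat.cast_le (α := ℝ)).2 (hc i hi).2.2)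
    rw [div_le_iff₀ hkle] at h1
    refine le_trans ?_ (h1.trans (le_of_eq (mul_comm _ _)))
    exact le_refl _
  have main : ∀ χ : Finset (Fin P.J) → Bool, ∃ δ : ℝ, 0 < δ ∧ δ ≤ 1 / 2 ∧ ∃ n₀ : ℕ, ∀ n, n₀ ≤ n →
      ∀ (m : ℕ) (φ : Bl (P.wc c).c (P.wc c).J ⊕ Fin m ≃ Fin n), IsB φ (blk (P.wc c).c n) →
      ∀ ms, Ck (P.wc c) (kbx P χ) n ms →
      ∀ (κ : Type) [Fintype κ] (rest : κ → Kd), (univ : Finset κ).val.map rest = ms →
        ∃ p₁ : κ → Fin n × Fin ((P.wc c).d + 1) → ℂ, ∀ᶠ p in 𝓝 p₁,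
          ∀ F : Submodule ℂ (TI (P.wc c).c (P.wc c).J → ℂ),
          F ≠ ⊥ → (finrank ℂ F : ℤ) < (P.wc c).b n ms →
            (finrank ℂ (SF φ ((LS (P.wc c).d (P.wc c).d (blk (P.wc c).c n)
              (range (P.wc c).J)).V rest p) F) : ℝ) * (P.wc c).b n ms ≤
              (1 - δ) * finrank ℂ F * (P.wc c).v (P.wc c).J n ms := by
    intro χ
    obtain ⟨lo, hi, b, h1, h2, h3⟩ := hN χ c (∏ χ, N χ)
      (fun i hi => ⟨hc1 i hi, (Finset.dvd_prod_of_mem N (mem_univ χ)).trans (hc i hi).1⟩)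
      (Finset.prod_pos fun χ _ => hN0 χ) (Finset.dvd_prod_of_mem N (mem_univ χ))
    have hDc : Dc (P.wc c) E kl kh (kbx P χ) (∏ χ, N χ) lo hi :=
      { he := he2
        hed := hed
        hc := hc1
        hE := hE
        h0 := h0
        hk0 := hk0
        hpos := hcrit.pos
        hkl := hkl
        hkh := hkh
        heps := hOk.epsJ
        hkb0 := (kbx_ok hOk hE hkl χ).2.1 ∅ (by simp)
        hcz := Finset.prod_pos fun χ _ => hN0 χ
        hlo := fun K a => (h1 K a).1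
        hhi := fun K a => (h1 K a).2 }
    exact asm_fix (P.wc c) hDc hcM b h2 h3
  choose δ hδ0 hδ1 n₀ hn₀ using main
  obtain ⟨χ₀, hχ₀⟩ := Finite.exists_min δ
  refine ⟨δ χ₀, hδ0 χ₀, 1 + ∑ χ, n₀ χ, fun n hn m φ hφ ms hms hu κ _ rest hrest => ?_⟩
  have hn1 : 1 ≤ n := by omega
  obtain ⟨χ, hχ⟩ := exists_chi (P := P.wc c) he2 hed hn1 hms hu
  have hχ' : Ck (P.wc c) (kbx P χ) n ms := hχ
  have hle : n₀ χ ≤ n := by
    have h1 : n₀ χ ≤ ∑ χ, n₀ χ := Finset.single_le_sum (fun _ _ => Nat.zero_le _) (mem_univ χ)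
    omega
  obtain ⟨p₁, hp₁⟩ := hn₀ χ n hle m φ hφ ms hχ' κ rest hrest
  refine ⟨p₁, ?_⟩
  filter_upwards [hp₁] with p hp F hF hFb
  have h1 := hp F hF hFb
  refine h1.trans ?_
  have h2 : (0 : ℝ) ≤ (1 - δ χ) * finrank ℂ F * (P.wc c).v (P.wc c).J n ms := by
    refine le_trans ?_ h1
    have h3 : (0 : ℝ) ≤ (P.wc c).b n ms := by
      have h4 : (0 : ℤ) ≤ (P.wc c).b n ms := le_trans (Nat.cast_nonneg _) hFb.le
      exact_mod_cast h4
    positivity
  have hF0 : (0 : ℝ) ≤ finrank ℂ F := Nat.cast_nonneg _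
  have h5 : (0 : ℝ) < 1 - δ χ := by linarith [hδ1 χ]
  have h6 : (0 : ℝ) ≤ finrank ℂ F * ((P.wc c).v (P.wc c).J n ms : ℝ) := by
    rw [mul_assoc] at h2
    exact nonneg_of_mul_nonneg_right h2 h5
  rw [mul_assoc, mul_assoc]
  exact mul_le_mul_of_nonneg_right (by linarith [hχ₀ χ]) h6

end Pool.Agent.GD.BE

end
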