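import Pool.Agent.H94.LP7.GD.ST.Fro
import Pool.Agent.H94.LP7.M31
import Pool.Agent.H94.LP7.M33
import Pool.Agent.H94.LP7.M45
import Pool.Agent.H94.LP7.M52
import Pool.Agent.H94.LP7.M69
import Pool.Agent.H94.LP7.M70

/-! The parts of this file: GD.GA.Ind, GD.GA.Main, GD.GA.Fin, GD.AL.LastW, GD.AL.Last. -/

section

/-!
# General d, block GAMMA: the induction
-/

set_option autoImplicit false
set_option linter.unusedSectionVars false

namespace Pool.Agent.GD.GA

open Finset MvPolynomial Pool.Agent.H51.TB Pool.Agent.H54.V7 Pool.Agent.V7.ST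
open Pool.Agent.V7 (Ex mem_Ex msk)
open Pool.Agent.V7.GA (SG mem_SG gM_anti gM_kill card_le_deg nb nb_lt nb_eq nb_mem nb_lt_iff card_W)

/-- The number of the points of a type. -/
def nn (κ q t : ℕ) : ℕ := κ * (q + t).choose t

theorem nn_mono (κ q t : ℕ) : nn κ q t ≤ nn κ (q + 1) t :=
  Nat.mul_le_mul_left _ (Nat.choose_le_choose _ (by omega))

theorem nn_ge (κ q t : ℕ) : κ ≤ nn κ q t := by
  unfold nn
  have h1 : 1 ≤ (q + t).choose t := Nat.choose_pos (Nat.le_add_left t q)
  nlinarith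

theorem nn_add (κ κ' q t : ℕ) : nn (κ + κ') q t = nn κ q t + nn κ' q t := by
  unfold nn
  ring

theorem nn_step (κ q t : ℕ) : nn κ q (t + 1) + nn κ q t ≤ nn κ (q + 1) (t + 1) := by
  unfold nn
  have e1 : q + 1 + (t + 1) = (q + (t + 1)) + 1 := by ring
  have h1 : (q + 1 + (t + 1)).choose (t + 1) =
      (q + (t + 1)).choose t + (q + (t + 1)).choose (t + 1) := by
    rw [e1]
    exact Nat.choose_succ_succ' _ _
  have h2 : (q + t).choose t ≤ (q + (t + 1)).choose t := Nat.choose_le_choose _ (by omega)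
  rw [h1, mul_add]
  have h3 := Nat.mul_le_mul_left κ h2
  omega

/-- `nn κ q (|I| + e - (j + 1))` points of each good type `I` kill all forms, if the blocks
`0, …, j - 1` have at most `c` variables and there are less than `(q + 1) c` other variables. -/
def PP (e J c j κ : ℕ) : Prop :=
  ∀ (ν : Type) [Fintype ν] [DecidableEq ν] (β : ν → ℕ) (W : Finset ν) (q : ℕ),
    (∀ i < j, (W.filter fun s => β s = i).card ≤ c) →
    (W.filter fun s => j ≤ β s).card < (q + 1) * c →
    ∀ s : Multiset (Finset ℕ), (∀ I ∈ s, I ⊆ range j) →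
      (∀ I, Good e J j I → nn κ q (I.card + e - (j + 1)) ≤ s.count I) →
      gM (SG (J + 1) β (Ag e J β j W)) s = 0

theorem pp_top (e J c κ : ℕ) : PP e J c (e + J) κ := by
  intro ν _ _ β W q _ _ s _ _
  have h1 : Ag e J β (e + J) W = ∅ := by
    rw [eq_empty_iff_forall_notMem]
    intro a ha
    obtain ⟨⟨hdeg, hmeet⟩, _, hx⟩ := mem_Ag.mp ha
    have h2 := card_le_deg β a (Ico J (e + J)) fun i hi =>
      hmeet i (mem_Ico.mp hi).2
    rw [Nat.card_Ico] at h2
    have h3 : ∑ s ∈ univ.filter (fun s => β s < J), a s +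
        ∑ s ∈ univ.filter (fun s => β s ∈ Ico J (e + J)), a s ≤ ∑ s, a s := by
      rw [← sum_union]
      · exact sum_le_sum_of_subset (subset_univ _)
      · rw [disjoint_left]
        intro s hs hs'
        rw [mem_filter] at hs hs'
        have := (mem_Ico.mp hs'.2).1
        omega
    omega
  have h2 := gM_anti (SG (J + 1) β (Ag e J β (e + J) W)) (Multiset.zero_le s)
  rw [gM_zero, Fintype.card_coe, h1, card_empty] at h2
  rw [h1]
  omega

open Classical in
/-- The points which are put on the subspace. -/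
noncomputable def onp (e J j κ q : ℕ) : Multiset (Finset ℕ) :=
  ∑ I ∈ (range j).powerset.filter (Good e J j),
    Multiset.replicate (nn κ q (I.card + e - (j + 1))) I

theorem count_onp (e J j κ q : ℕ) (A : Finset ℕ) (hA : Good e J j A) :
    (onp e J j κ q).count A = nn κ q (A.card + e - (j + 1)) := by
  classical
  unfold onp
  rw [Multiset.count_sum', sum_eq_single A]
  · rw [Multiset.count_replicate_self]
  · intro I _ hIJ
    rw [Multiset.count_replicate, if_neg hIJ]
  · intro h
    exfalso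
    apply h
    rw [mem_filter, mem_powerset]
    exact ⟨hA.1, hA⟩

theorem count_onp_not (e J j κ q : ℕ) (A : Finset ℕ) (hA : ¬ Good e J j A) :
    (onp e J j κ q).count A = 0 := by
  classical
  unfold onp
  rw [Multiset.count_sum']
  refine sum_eq_zero fun I hI => ?_
  rw [Multiset.count_replicate, if_neg]
  intro h
  exact hA (by rw [← h]; exact (mem_filter.mp hI).2)

theorem mem_onp {e J j κ q : ℕ} {A : Finset ℕ} (h : A ∈ onp e J j κ q) : Good e J j A := by
  by_contra hc
  have := count_onp_not e J j κ q A hc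
  rw [Multiset.count_eq_zero] at this
  exact this h

theorem onp_le {e J j κ q : ℕ} {s : Multiset (Finset ℕ)}
    (h : ∀ I, Good e J j I → nn κ q (I.card + e - (j + 1)) ≤ s.count I) :
    onp e J j κ q ≤ s := by
  rw [Multiset.le_iff_count]
  intro A
  by_cases hA : Good e J j A
  · rw [count_onp e J j κ q A hA]
    exact h A hA
  · rw [count_onp_not e J j κ q A hA]
    exact Nat.zero_le _

/-- The dimension is bounded. -/
theorem bound {e J c j κ : ℕ} (hj : J ≤ j) (hP : PP e J c (j + 1) κ)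
    {ν : Type} [Fintype ν] [DecidableEq ν] (β : ν → ℕ) (q : ℕ) : ∀ W : Finset ν,
    (∀ i < j, (W.filter fun s => β s = i).card ≤ c) →
    (W.filter fun s => j ≤ β s).card < (q + 1) * c →
    ∀ s : Multiset (Finset ℕ), (∀ I ∈ s, I ⊆ range j) →
      (∀ I, Good e J j I → nn κ q (I.card + e - (j + 1)) ≤ s.count I) →
      gM (SG (J + 1) β (Ag e J β j W)) s ≤ (e + J + 1) ^ ((j + 1) * c) := by
  induction q with
  | zero =>
    intro W hW1 hW2 s _ _
    refine (gM_anti _ (Multiset.zero_le s)).trans ?_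
    rw [gM_zero, Fintype.card_coe]
    refine (card_Ag_le e J β j W).trans (Nat.pow_le_pow_right (by omega) ?_)
    rw [zero_add, one_mul] at hW2
    exact card_W β W j c hW1 hW2
  | succ q ih =>
    intro W hW1 hW2 s hs hc
    by_cases hz : (W.filter fun s => j ≤ β s).card < (q + 1) * c
    · exact ih W hW1 hz s hs fun I hI => le_trans (nn_mono _ _ _) (hc I hI)
    · have hc1 : c ≤ (W.filter fun s => j ≤ β s).card := by
        have : (q + 1) * c = q * c + c := by ring
        have := Nat.zero_le (q * c)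
        omega
      obtain ⟨Bk, hBk, hBc⟩ := exists_subset_card_eq hc1
      have hB : ∀ s ∈ Bk, j ≤ β s := fun s hs => (mem_filter.mp (hBk hs)).2
      have hBW : ∀ s ∈ Bk, s ∈ W := fun s hs => (mem_filter.mp (hBk hs)).1
      have hle : onp e J j κ q ≤ s := onp_le fun I hI => le_trans (nn_mono _ _ _) (hc I hI)
      have hst : onp e J j κ q + (s - onp e J j κ q) = s := add_tsub_cancel_of_le hle
      have hon : ∀ I ∈ onp e J j κ q, I ⊆ range j := fun I hI => (mem_onp hI).1
      have hoff : ∀ I ∈ s - onp e J j κ q, I ⊆ range j := fun I hI =>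
        hs I (Multiset.mem_of_le tsub_le_self hI)
      have h1 := gM_trace (M := J + 1) (e := e) (W := W) hj hB (onp e J j κ q) (s - onp e J j κ q) hon hoff
      rw [hst] at h1
      refine h1.trans ?_
      have hcard : ((W \ Bk).filter fun s => j ≤ β s).card + c =
          (W.filter fun s => j ≤ β s).card := by
        have e1 : ((W \ Bk).filter fun s => j ≤ β s) = (W.filter fun s => j ≤ β s) \ Bk := by
          ext s
          simp only [mem_filter, mem_sdiff]
          tauto
        rw [e1, card_sdiff_of_subset hBk, hBc]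
        omega
      have h2 := ih (W \ Bk) (fun i hi => le_trans (card_le_card (by
          intro s hs
          rw [mem_filter, mem_sdiff] at hs
          rw [mem_filter]
          exact ⟨hs.1.1, hs.2⟩)) (hW1 i hi)) (by
          have : (q + 1 + 1) * c = (q + 1) * c + c := by ring
          omega) (onp e J j κ q) hon fun I hI => le_of_eq (count_onp e J j κ q I hI).symm
      have h3 : gM (SG (J + 1) (nb β j Bk) (Ag e J (nb β j Bk) (j + 1) W))
          ((onp e J j κ q).map (insert j) + (s - onp e J j κ q)) = 0 := by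
        refine hP ν (nb β j Bk) W q ?_ ?_ _ ?_ ?_
        · intro i hi
          rcases Nat.lt_succ_iff_lt_or_eq.mp hi with hi | hi
          · have e1 : (W.filter fun s => nb β j Bk s = i) = W.filter fun s => β s = i :=
              filter_congr fun s _ => nb_lt hB hi
            rw [e1]
            exact hW1 i hi
          · rw [hi, ← hBc]
            refine card_le_card fun s hs => ?_
            exact nb_eq.mp (mem_filter.mp hs).2
        · have e1 : (W.filter fun s => j + 1 ≤ nb β j Bk s) ⊆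
              (W \ Bk).filter fun s => j ≤ β s := by
            intro s hs
            rw [mem_filter] at hs ⊢
            rw [mem_sdiff]
            have h5 : s ∉ Bk := by
              intro h
              have := (nb_eq (β := β) (j := j)).mpr h
              omega
            refine ⟨⟨hs.1, h5⟩, ?_⟩
            by_contra h6
            have h7 := (nb_lt (Bk := Bk) hB (i := β s) (s := s) (by omega)).mpr rfl
            omega
          have e2 := card_le_card e1
          have : (q + 1 + 1) * c = (q + 1) * c + c := by ring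
          omega
        · intro I hI
          rcases Multiset.mem_add.mp hI with hI | hI
          · obtain ⟨A, hA, rfl⟩ := Multiset.mem_map.mp hI
            intro i hi
            rcases mem_insert.mp hi with hi | hi
            · rw [hi]
              exact mem_range.mpr (Nat.lt_succ_self j)
            · exact mem_range.mpr (Nat.lt_succ_of_lt (mem_range.mp (hon A hA hi)))
          · exact (hoff I hI).trans (range_subset_range.mpr (Nat.le_succ j))
        · intro A hA
          rw [Multiset.count_add]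
          by_cases hjA : j ∈ A
          · have hg : Good e J j (A.erase j) := by
              refine ⟨?_, ?_, ?_⟩
              · intro i hi
                have h5 := mem_range.mp (hA.1 (mem_erase.mp hi).2)
                have h6 := (mem_erase.mp hi).1
                exact mem_range.mpr (by omega)
              · rw [card_erase_of_mem hjA]
                have h5 := hA.2.1
                have h6 := card_pos.mpr ⟨j, hjA⟩
                omega
              · intro h
                exact hA.2.2 (h.trans (erase_subset _ _))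
            have h5 : nn κ q (A.card + e - (j + 1 + 1)) ≤
                ((onp e J j κ q).map (insert j)).count A := by
              have h6 := Multiset.count_map (b := A) (insert j) (onp e J j κ q)
              rw [h6]
              have h7 : Multiset.replicate ((onp e J j κ q).count (A.erase j)) (A.erase j) ≤
                  Multiset.filter (fun a => A = insert j a) (onp e J j κ q) := by
                rw [Multiset.le_iff_count]
                intro K
                rw [Multiset.count_replicate]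
                split_ifs with hK
                · rw [← hK, Multiset.count_filter_of_pos (p := fun a => A = insert j a)
                    (insert_erase hjA).symm]
                · exact Nat.zero_le _
              have h8 := Multiset.card_le_card h7
              rw [Multiset.card_replicate, count_onp e J j κ q _ hg, card_erase_of_mem hjA] at h8
              have h9 := card_pos.mpr ⟨j, hjA⟩
              have h10 : A.card - 1 + e - (j + 1) = A.card + e - (j + 1 + 1) := by omega
              rw [h10] at h8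
              exact h8
            omega
          · have hAj : A ⊆ range j := by
              intro i hi
              have h5 := mem_range.mp (hA.1 hi)
              have h6 : i ≠ j := fun h => hjA (by rw [← h]; exact hi)
              exact mem_range.mpr (by omega)
            have hg : Good e J j A := ⟨hAj, by have := hA.2.1; omega, hA.2.2⟩
            have h5 := hc A hg
            rw [Multiset.count_sub, count_onp e J j κ q A hg]
            have h6 : A.card + e - (j + 1) = A.card + e - (j + 1 + 1) + 1 := by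
              have := hA.2.1
              omega
            have h7 := nn_step κ q (A.card + e - (j + 1 + 1))
            rw [← h6] at h7
            omega
      omega

/-- The induction step. -/
theorem pp_step {e J c j κ : ℕ} (he : 2 ≤ e) (hj : J ≤ j) (hj2 : j < e + J)
    (hP : PP e J c (j + 1) κ) : PP e J c j (κ + (e + J + 1) ^ ((j + 1) * c)) := by
  classical
  intro ν _ _ β W q hW1 hW2 s hs hc
  have hle : onp e J j κ q ≤ s := onp_le fun I hI => le_trans
        (by rw [nn_add]; exact Nat.le_add_right _ _) (hc I hI)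
  have hst : onp e J j κ q + (s - onp e J j κ q) = s := add_tsub_cancel_of_le hle
  have h1 := bound hj hP β q W hW1 hW2 (onp e J j κ q) (fun I hI => (mem_onp hI).1)
    fun I hI => le_of_eq (count_onp e J j κ q I hI).symm
  have h2 := gM_kill (SG (J + 1) β (Ag e J β j W)) _ (exists_type he hj hj2) _ (onp e J j κ q)
    (s - onp e J j κ q) h1 (by
      rintro I ⟨hI, hIc⟩
      have h3 := hc I hI
      rw [Multiset.count_sub, count_onp e J j κ q I hI]
      rw [nn_add] at h3
      have h4 := nn_ge ((e + J + 1) ^ ((j + 1) * c)) q (I.card + e - (j + 1))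
      omega)
  rw [hst] at h2
  exact h2

/-- The statement at all levels `J ≤ j ≤ e + J`. -/
theorem exists_pp {e J : ℕ} (c : ℕ) (he : 2 ≤ e) (d : ℕ) : ∀ j, j + d = e + J → J ≤ j →
    ∃ κ, PP e J c j κ := by
  induction d with
  | zero =>
    intro j hj _
    have h1 : j = e + J := by omega
    rw [h1]
    exact ⟨0, pp_top e J c 0⟩
  | succ d ih =>
    intro j hj hj2
    obtain ⟨κ, hκ⟩ := ih (j + 1) (by omega) (by omega)
    exact ⟨_, pp_step he hj2 (by omega) hκ⟩

end Pool.Agent.GD.GA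

end

section

/-!
# General d, block GAMMA: the result with numbers

On the level `J = d - e` no nonzero form which satisfies the conditions of many general points of the kinds
`ord e A`, `A ≠ {0, …, J - 1}`, `|A| + e ≥ J + 1`, has all its coefficients of degree `J` in the blocks
`0, …, J - 1` equal to zero.
-/

set_option autoImplicit false
set_option linter.unusedSectionVars false

namespace Pool.Agent.GD.GA

open Finset MvPolynomial Pool.Agent.H51.TB Pool.Agent.H54.V7 Pool.Agent.V7.ST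
open Pool.Agent.V7 (msk)
open Pool.Agent.V7.GA (SG mem_SG sum_sub gM_anti card_le_deg)
open Pool.Agent.H18.Ex (tcr)

/-- The conditions of an ordinary point. -/
theorem fat_of_mem {ν : Type} [Fintype ν] [DecidableEq ν] {d D : ℕ} {β : ν → ℕ} {I : Finset ℕ}
    {A : Finset (ν → ℕ)} {ι : Type} {m : ι → Kd} {p : ι → ν × Fin (d + 1) → ℂ}
    {f : {a // a ∈ A} → ℂ} (hf : f ∈ (LSA d D β I A).V m p) {i : ι} {e : ℕ} {S : Finset ℕ}
    (hi : m i = Kd.ord e S) :
    Fat (fun x : {a // a ∈ A} => x.1) (D + 1 - e) (msk β S fun s => p i (s, 0)) f := by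
  rw [Sys.mem_V] at hf
  have h1 := hf i
  rw [hi] at h1
  intro b hb
  have h2 := h1 (Sum.inl (⟨(0, b), by
    show (0 : ℕ) < 1
    omega, by
    show ∑ s, b s + e ≤ D
    omega⟩ : Ra d D ν (Kd.ord e S)))
  rw [← h2]
  refine sum_congr rfl fun x _ => ?_
  have h3 : eval (p i) (tcr (msk β S fun s => (X (s, 0) : MvPolynomial (ν × Fin (d + 1)) ℂ))
      x.1 b) = tcr (msk β S fun s => p i (s, 0)) x.1 b := by
    unfold tcr
    rw [map_prod]
    refine prod_congr rfl fun s _ => ?_
    rw [map_mul, map_pow, map_natCast]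
    congr 2
    unfold msk
    split_ifs
    · rw [map_zero]
    · rw [eval_X]
  show _ = eval (p i) (tcr (msk β S fun s => (X (s, 0) : MvPolynomial (ν × Fin (d + 1)) ℂ))
      x.1 b) * f x
  rw [h3, mul_comm]

/-- **GAMMA** with numbers: `nn κ q t`, `t = |A| + e - (J + 1)`, ordinary points of each kind
`ord e A`, `A ⊂ range J`, `J + 1 ≤ |A| + e`, suffice. -/
theorem gamma_gn {d e J : ℕ} (he : 2 ≤ e) (hd : d = e + J) (c : ℕ) : ∃ κ : ℕ,
    ∀ (ν : Type) [Fintype ν] [DecidableEq ν]
    (β : ν → ℕ), (∀ i < J, (univ.filter fun s => β s = i).card ≤ c) →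
    ∀ q : ℕ, Fintype.card ν < (q + 1) * c → ∀ (ι : Type) [Fintype ι] (m : ι → Kd),
    (∀ A, A ⊂ range J → J + 1 ≤ A.card + e → nn κ q (A.card + e - (J + 1)) ≤
      ((univ : Finset ι).val.map m).count (Kd.ord e A)) →
    Gn ι (ν × Fin (d + 1)) fun p => ∀ f ∈ (LS d d β (range J)).V m p,
      (∀ x : {a // a ∈ Ex β d (range J)},
        ∑ s ∈ univ.filter (fun s => β s < J), x.1 s = J → f x = 0) → f = 0 := by
  classical
  subst hd
  obtain ⟨κ, hκ⟩ := exists_pp (J := J) c he e J (by omega) le_rfl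
  refine ⟨κ, fun ν _ _ β hβ q hq ι _ m hm => ?_⟩
  -- the points which are used
  let ι' := {i : ι // ∃ I, I ⊆ range J ∧ m i = Kd.ord e I}
  have hch : ∀ i : ι', ∃ I, I ⊆ range J ∧ m i.1 = Kd.ord e I := fun i => i.2
  choose m' hm' hmm' using hch
  have hcount : ∀ I, I ⊆ range J → ((univ : Finset ι').val.map m').count I =
      ((univ : Finset ι).val.map m).count (Kd.ord e I) := by
    intro I hI
    rw [Multiset.count_map, Multiset.count_map, ← Finset.filter_val, ← Finset.filter_val,
      Finset.card_val, Finset.card_val]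
    refine card_bij (fun i _ => i.1) ?_ ?_ ?_
    · intro i hi
      rw [mem_filter] at hi ⊢
      refine ⟨mem_univ _, ?_⟩
      rw [hmm' i, ← hi.2]
    · intro i _ j _ hij
      exact Subtype.ext hij
    · intro i hi
      rw [mem_filter] at hi
      refine ⟨⟨i, I, hI, hi.2.symm⟩, ?_, rfl⟩
      rw [mem_filter]
      refine ⟨mem_univ _, ?_⟩
      have h1 := hmm' ⟨i, I, hI, hi.2.symm⟩
      exact (Kd.ord.inj (hi.2.trans h1)).2
  have h1 := hκ ν β univ q (fun i hi => hβ i hi) (lt_of_le_of_lt (card_le_univ _) hq)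
    ((univ : Finset ι').val.map m') (by
      intro I hI
      obtain ⟨i, _, rfl⟩ := Multiset.mem_map.mp hI
      exact hm' i) (by
      intro I hI
      rw [hcount I hI.1]
      exact hm I ⟨hI.1, hI.2.2⟩ hI.2.1)
  rw [← gd_eq_gM] at h1
  have h2 := gn_pull (κ := ι) (fun i : ι' => i.1) Subtype.val_injective
    (fun s : ν => (s, (0 : Fin (e + J + 1)))) (fun s t hst => (Prod.mk.inj hst).1)
    (gn_gd (SG (J + 1) β (Ag e J β J univ)) m')
  refine h2.mono fun p hp f hf h0 => ?_
  rw [h1] at hp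
  have hbot := Submodule.finrank_eq_zero.mp hp
  have hsub : Ag e J β J univ ⊆ Ex β (e + J) (range J) := by
    intro a ha
    rw [mem_Ag] at ha
    rw [mem_Ex]
    exact ⟨ha.1.1, fun i hi => ha.1.2 i (mem_range.mp hi)⟩
  -- the coefficients which do not belong to `Ag` vanish
  have hz : ∀ x : {a // a ∈ Ex β (e + J) (range J)}, x.1 ∉ Ag e J β J univ → f x = 0 := by
    intro x hx
    apply h0
    have h3 := mem_Ex.mp x.2
    have h4 : ¬ J + 1 ≤ ∑ s ∈ univ.filter (fun s => β s < J), x.1 s := by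
      intro h
      apply hx
      rw [mem_Ag]
      exact ⟨⟨h3.1, fun i hi => h3.2 i (mem_range.mpr hi)⟩, fun s _ => mem_univ s, h⟩
    have h5 := card_le_deg β x.1 (range J) fun i hi => h3.2 i hi
    have h6 : univ.filter (fun s => β s ∈ range J) = univ.filter fun s => β s < J :=
      filter_congr fun s _ => mem_range
    rw [h6, card_range] at h5
    omega
  have hmem : (fun x : {a // a ∈ Ag e J β J univ} => f ⟨x.1, hsub x.2⟩) ∈
      (SG (J + 1) β (Ag e J β J univ)).V m' fun i s => p i.1 (s, 0) := by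
    rw [mem_SG]
    intro i b hb
    have h3 := fat_of_mem hf (hmm' i)
    have h4 : e + J + 1 - e = J + 1 := by omega
    rw [h4] at h3
    rw [← h3 b hb]
    exact sum_sub hsub (fun x : {a // a ∈ Ex β (e + J) (range J)} => f x *
      tcr (msk β (m' i) fun s => p i.1 (s, 0)) x.1 b) fun x hx => by
        show f x * _ = 0
        rw [hz x hx, zero_mul]
  rw [hbot, Submodule.mem_bot] at hmem
  funext x
  by_cases hx : x.1 ∈ Ag e J β J univ
  · exact congrFun hmem ⟨x.1, hx⟩
  · exact hz x hx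

/-- A bound for the numbers: `nn κ q t` is at most a constant times `(q + 1) ^ t`. -/
theorem nn_le (κ q t : ℕ) : nn κ q t ≤ κ * (t + 1) ^ t * (q + 1) ^ t := by
  unfold nn
  rw [mul_assoc, ← mul_pow]
  refine Nat.mul_le_mul_left _ ((Nat.choose_le_pow _ _).trans (Nat.pow_le_pow_left ?_ _))
  nlinarith [Nat.zero_le (t * q)]

end Pool.Agent.GD.GA

end

section

/-!
# General d, block GAMMA: the result for the classes
-/

set_option autoImplicit false
set_option linter.unusedSectionVars false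

namespace Pool.Agent.GD.GA

open Finset MvPolynomial Pool.Agent.H51.TB Pool.Agent.H54.V7 Pool.Agent.V7.ST
open Pool.Agent.GD.Top (Bl TI Gam IsB Gam_zero)

theorem card_block {c : ℕ → ℕ} {J m n : ℕ} {φ : Bl c J ⊕ Fin m ≃ Fin n} {β : Fin n → ℕ}
    (hφ : IsB φ β) {i : ℕ} (hi : i < J) :
    (univ.filter fun s => β s = i).card ≤ c i := by
  classical
  have h1 : (univ.filter fun s => β s = i) ⊆
      (univ : Finset (Fin (c i))).image fun r => φ (Sum.inl ⟨⟨i, hi⟩, r⟩) := by
    intro s hs
    have hs' := (mem_filter.1 hs).2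
    obtain ⟨x, rfl⟩ := φ.surjective s
    rcases x with ⟨i', r⟩ | t
    · have h2 := hφ.1 ⟨i', r⟩
      rw [hs'] at h2
      have h3 : i' = ⟨i, hi⟩ := Fin.ext h2.symm
      subst h3
      exact mem_image.2 ⟨r, mem_univ _, rfl⟩
    · have h2 := hφ.2 t
      omega
  refine (card_le_card h1).trans (card_image_le.trans ?_)
  rw [card_univ, Fintype.card_fin]

theorem nn_real {κ q t e n : ℕ} (hq : q ≤ n) (hn : 1 ≤ n) (ht : t + 1 ≤ e) {k : ℝ}
    (hk : (κ : ℝ) * (e + 1) ^ e * 2 ^ e ≤ k / 4 * n) :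
    (nn κ q t : ℝ) ≤ k / 4 * (n : ℝ) ^ (t + 1) := by
  have h1 : nn κ q t ≤ κ * (e + 1) ^ e * (2 ^ e * n ^ t) := by
    refine (nn_le κ q t).trans ?_
    refine Nat.mul_le_mul (Nat.mul_le_mul_left _ ?_) ?_
    · exact (Nat.pow_le_pow_left (by omega) t).trans (Nat.pow_le_pow_right (by omega) (by omega))
    · calc (q + 1) ^ t ≤ (2 * n) ^ t := Nat.pow_le_pow_left (by omega) t
        _ = 2 ^ t * n ^ t := mul_pow _ _ _
        _ ≤ 2 ^ e * n ^ t := Nat.mul_le_mul_right _ (Nat.pow_le_pow_right (by norm_num) (by omega))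
  have h2 : (nn κ q t : ℝ) ≤ κ * (e + 1) ^ e * (2 ^ e * (n : ℝ) ^ t) := by exact_mod_cast h1
  have h3 : (0 : ℝ) ≤ (n : ℝ) ^ t := by positivity
  calc (nn κ q t : ℝ) ≤ (κ * (e + 1) ^ e * 2 ^ e) * (n : ℝ) ^ t := by
        rw [mul_assoc]
        exact h2
    _ ≤ (k / 4 * n) * (n : ℝ) ^ t := mul_le_mul_of_nonneg_right hk h3
    _ = _ := by ring

/-- **GAMMA** for the classes. -/
theorem targetGam : TargetT GAMJ := by
  intro d e kap hcr
  have hk := hcr.pos
  refine ⟨1, kap e / 4, le_rfl, by linarith, fun P hPd hPe hPk hOk => ?_⟩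
  obtain ⟨F₀, hF₀⟩ := exists_nat_ge
    (4 * (((P.d * ∑ J ∈ range (P.d + 1), (cts P.d J).card : ℕ) : ℝ) *
      (P.M * (P.d : ℝ) ^ (P.d + 1))) / P.kap P.e)
  refine ⟨1, fun _ => F₀ + 1, one_pos, fun c hc => ?_⟩
  have hcrP : Crit P.d P.e P.kap := hOk.toCrit
  have hkP := hcrP.pos
  have hcF : ∀ i < P.J, F₀ + 1 ≤ c i := fun i hi => (hc i hi).2.2
  have heps : P.eps P.J ≤ P.kap P.e / 4 := by
    have := hOk.epsJ
    rw [hPk, hPe]
    exact this
  have hF4 : 4 * (((P.d * ∑ J ∈ range (P.d + 1), (cts P.d J).card : ℕ) : ℝ) *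
      (P.M * (P.d : ℝ) ^ (P.d + 1))) ≤ P.kap P.e * ((F₀ + 1 : ℕ) : ℝ) := by
    rw [div_le_iff₀ hkP] at hF₀
    refine hF₀.trans ?_
    rw [mul_comm]
    apply mul_le_mul_of_nonneg_left _ hkP.le
    push_cast
    linarith
  obtain ⟨n₁, hn₁1, hord⟩ := ord_ge (P.wc c) hcrP heps (F₀ + 1) (by omega) hcF hF4
  have hJ : P.J = P.d - P.e := rfl
  have hlt := hcrP.lt
  have htwo := hcrP.two
  obtain ⟨κ, hκ⟩ := gamma_gn (d := P.d) (e := P.e) (J := P.J) hcrP.two (by omega)
    (∑ i ∈ range P.J, c i + 1)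
  obtain ⟨n₂, hn₂⟩ := exists_nat_ge ((κ : ℝ) * (P.e + 1) ^ P.e * 2 ^ P.e / (P.kap P.e / 4))
  refine ⟨n₁ + n₂, fun n hn m φ hφ ms hms _ ι _ rest hrest => ?_⟩
  have hn1 : 1 ≤ n := by omega
  have hkn : (κ : ℝ) * (P.e + 1) ^ P.e * 2 ^ P.e ≤ P.kap P.e / 4 * n := by
    rw [div_le_iff₀ (by linarith)] at hn₂
    refine hn₂.trans ?_
    rw [mul_comm]
    apply mul_le_mul_of_nonneg_left _ (by linarith)
    have : n₂ ≤ n := by omega
    exact_mod_cast this
  have hblk : ∀ i < P.J, (univ.filter fun s => blk c n s = i).card ≤ ∑ i ∈ range P.J, c i + 1 := by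
    intro i hi
    have h1 := card_block (β := blk c n) hφ hi
    have h2 : c i ≤ ∑ i ∈ range P.J, c i :=
      single_le_sum (f := c) (fun _ _ => Nat.zero_le _) (mem_range.2 hi)
    have h3 : (univ.filter fun s => blk c n s = i).card ≤ c i := h1
    omega
  have hq : Fintype.card (Fin n) < (n / (∑ i ∈ range P.J, c i + 1) + 1) *
      (∑ i ∈ range P.J, c i + 1) := by
    rw [Fintype.card_fin]
    have hs : 0 < ∑ i ∈ range P.J, c i + 1 := Nat.succ_pos _
    generalize ∑ i ∈ range P.J, c i + 1 = s₀ at hs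
    have h1 := Nat.div_add_mod n s₀
    have h2 := Nat.mod_lt n hs
    have h3 : s₀ * (n / s₀) = n / s₀ * s₀ := mul_comm _ _
    rw [add_mul, one_mul]
    omega
  have h := hκ (Fin n) (blk c n) hblk (n / (∑ i ∈ range P.J, c i + 1)) hq ι rest (by
    intro A hA hAc
    have hAJ : A.card < P.J := by
      have := card_lt_card hA
      rwa [card_range] at this
    have h1 := hord n (by omega) ms hms A hA hAc
    have h2 : A.card + P.e - P.J = A.card + P.e - (P.J + 1) + 1 := by omega
    have h3 : (nn κ (n / (∑ i ∈ range P.J, c i + 1)) (A.card + P.e - (P.J + 1)) : ℝ) ≤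
        P.kap P.e / 4 * (n : ℝ) ^ (A.card + P.e - (P.J + 1) + 1) :=
      nn_real (Nat.div_le_self _ _) hn1 (by omega) hkn
    rw [← h2] at h3
    have h4 : (nn κ (n / (∑ i ∈ range P.J, c i + 1)) (A.card + P.e - (P.J + 1)) : ℝ) ≤
        ms.count (Kd.ord P.e A) := h3.trans h1
    rw [hrest]
    exact_mod_cast h4)
  refine h.mono fun p hp f hf h0 => hp f hf fun x hx => ?_
  exact Gam_zero hφ f h0 x hx.le

end Pool.Agent.GD.GA

end

section

/-!
# General d, ALPHA: the last stage, the factor without blocks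

`last_W`: points of exponents `≥ 2` in variables off all blocks, by the theorem `xd`.
-/

set_option autoImplicit false

namespace Pool.Agent.GD.AL

open Finset

/-- Off the blocks the vanishing sets are irrelevant. -/
theorem HI_forget {ν : Type} [Fintype ν] [DecidableEq ν] {d D J : ℕ} (hD : D ≤ d) {β : ν → ℕ}
    (hβ : ∀ s, β s = J) (I : Finset ℕ) (SW R : Multiset Kd)
    (h : ∀ k ∈ SW, ∃ x A, k = .ord x A ∧ A ⊆ range J) :
    HI d D β I (SW + R) ≤ HI d D β I (SW.map (fun k => Kd.ord k.ex ∅) + R) := by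
  induction SW using Multiset.induction_on generalizing R with
  | empty => exact le_rfl
  | cons k SW ih =>
    obtain ⟨x, A, rfl, hA⟩ := h k (Multiset.mem_cons_self k SW)
    have h1 : HI d D β I (.ord x A ::ₘ (SW + R)) ≤ HI d D β I (.ord x ∅ ::ₘ (SW + R)) := by
      refine HI_repl hD β I (.ord x A) (.ord x ∅) id (fun q Φ hq => ⟨fun y hy z => ?_, trivial⟩) _
      have h2 := hq.1 y hy z
      have h3 : pt β (.ord x A) y (id q) = pt β (.ord x ∅) y q := by
        funext s
        show (if β s ∈ A then 0 else q (s, 0)) = (if β s ∈ (∅ : Finset ℕ) then 0 else q (s, 0))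
        rw [if_neg, if_neg (notMem_empty _)]
        intro h4
        have := mem_range.1 (hA h4)
        rw [hβ s] at this
        exact lt_irrefl _ this
      rw [h3] at h2
      exact h2
    have h2 := ih (.ord x ∅ ::ₘ R) fun k hk => h k (Multiset.mem_cons_of_mem hk)
    rw [Multiset.cons_add, Multiset.map_cons, Multiset.cons_add]
    refine h1.trans ?_
    rw [← Multiset.add_cons]
    refine h2.trans (le_of_eq ?_)
    rw [Multiset.add_cons]
    rfl

theorem HI_le_pow {ν : Type} [Fintype ν] [DecidableEq ν] {d : ℕ} (β : ν → ℕ) (ms : Multiset Kd) :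
    ∀ r ≤ d, HI d r β ∅ ms ≤ Fintype.card ν ^ r := by
  intro r
  induction r with
  | zero =>
    intro _
    exact (HI_zero_le β ∅ ms).trans (by rw [pow_zero])
  | succ r ih =>
    intro hr
    refine (up0 hr β ms).trans ?_
    rw [pow_succ, mul_comm]
    exact Nat.mul_le_mul_right _ (ih (by omega))

/-- The exponents as a sequence. -/
theorem exists_seq_ex (s : Multiset ℕ) (hs : ∀ x ∈ s, 2 ≤ x) :
    ∃ (e : ℕ → ℕ) (t : ℕ), (∀ i, 2 ≤ e i) ∧ s = (Multiset.range t).map e := by
  refine ⟨fun i => s.toList.getD i 2, s.toList.length, fun i => ?_, ?_⟩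
  · by_cases h : i < s.toList.length
    · show 2 ≤ s.toList.getD i 2
      rw [List.getD_eq_getElem _ _ h]
      exact hs _ (Multiset.mem_toList.1 (List.getElem_mem h))
    · show 2 ≤ s.toList.getD i 2
      rw [List.getD_eq_default _ _ (not_lt.1 h)]
  · conv_lhs => rw [← s.coe_toList]
    show _ = Multiset.map _ ((List.range s.toList.length : List ℕ) : Multiset ℕ)
    rw [Multiset.map_coe]
    congr 1
    refine List.ext_getElem (by simp) fun i h1 h2 => ?_
    rw [List.getElem_map, List.getElem_range, List.getD_eq_getElem _ _ h1]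

/-- The factor without blocks. -/
theorem last_W (d J : ℕ) {η : ℝ} (hη : 0 < η) : ∃ n₁ : ℕ, ∀ n, n₁ ≤ n → ∀ (w : ℕ) (c : ℕ → ℕ)
    (SW : Multiset Kd), 1 ≤ w → w ≤ n → (∀ k ∈ SW, ∃ x A, k = .ord x A ∧ 2 ≤ x ∧ A ⊆ range J) →
    ∀ r ≤ d, (∀ j ≤ r, η * (n : ℝ) ^ j ≤ (vd j ∅ c w SW : ℝ)) →
      (HI d r (fun _ : Fin w => J) ∅ SW : ℤ) ≤ vd r ∅ c w SW ∧ vd r ∅ c w SW ≤ (n : ℤ) ^ r := by
  have hx : ∀ r : Fin (d + 1), ∃ n₀ : ℕ, Pool.Agent.XD.Exact r.1 η n₀ := fun r =>
    Pool.Agent.XD.xd r.1 η hη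
  choose N hN using hx
  refine ⟨∑ r, N r, fun n hn w c SW hw hwn hSW r hr hpos => ?_⟩
  obtain ⟨e, t, he, hs⟩ := exists_seq_ex (SW.map Kd.ex) (by
    intro x hx
    obtain ⟨k, hk, rfl⟩ := Multiset.mem_map.1 hx
    obtain ⟨x, A, rfl, h2, -⟩ := hSW k hk
    exact h2)
  have hmap : SW.map (fun k => Kd.ord k.ex ∅) = (Multiset.range t).map fun i => Kd.ord (e i) ∅ := by
    have h1 : SW.map (fun k => Kd.ord k.ex ∅) = (SW.map Kd.ex).map fun x => Kd.ord x ∅ := by
      rw [Multiset.map_map]
      rfl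
    rw [h1, hs, Multiset.map_map]
    rfl
  have hvd : ∀ j, vd j ∅ c w SW = Pool.Agent.XD.A e w t j := by
    intro j
    rw [A_eq_vd c e, ← hmap]
    have h1 : vd j ∅ c w SW = vd j ∅ c w (SW.map id) := by rw [Multiset.map_id]
    rw [h1]
    refine vd_congr_map SW fun k hk I' hI' => ?_
    obtain ⟨x, A, rfl, -, -⟩ := hSW k hk
    exact P_ord_congr hI' x (by rw [inter_empty, inter_empty])
  have hH : HI d r (fun _ : Fin w => J) ∅ SW ≤ Pool.Agent.XD.FF e w t r := by
    have h1 := HI_forget hr (β := fun _ : Fin w => J) (fun _ => rfl) ∅ SW 0 fun k hk => by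
      obtain ⟨x, A, rfl, -, h3⟩ := hSW k hk
      exact ⟨x, A, rfl, h3⟩
    rw [add_zero, add_zero, hmap] at h1
    refine h1.trans (le_of_eq ?_)
    rw [FF_eq_HL hr hw c e]
    unfold HL
    rw [range_zero]
    refine HI_size hr rfl (J := 0) (fun i hi => absurd hi (Nat.not_lt_zero i)) (empty_subset _) _ ?_
    intro k hk
    obtain ⟨i, -, rfl⟩ := Multiset.mem_map.1 hk
    exact empty_subset _
  have hF := hN ⟨r, by omega⟩ n ((single_le_sum (f := N) (fun _ _ => Nat.zero_le _)
    (mem_univ (⟨r, by omega⟩ : Fin (d + 1)))).trans hn) e (Pool.Agent.XD.FF e) he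
    (Pool.Agent.XD.sys_FF r e fun i => le_trans (by norm_num) (he i)) w t hwn fun j hj => by
      rw [← hvd j]
      exact hpos j hj
  have hF' : (Pool.Agent.XD.FF e w t r : ℤ) = Pool.Agent.XD.A e w t r := hF
  rw [hvd r, ← hF']
  refine ⟨by exact_mod_cast hH, ?_⟩
  have h2 : Pool.Agent.XD.FF e w t r ≤ n ^ r := by
    rw [FF_eq_HL hr hw c e]
    unfold HL
    rw [range_zero]
    refine (HI_le_pow _ _ r hr).trans ?_
    rw [Fintype.card_fin]
    exact Nat.pow_le_pow_left hwn r
  exact_mod_cast h2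

/-- The lower bounds for the factor without blocks. -/
theorem last_ind {η P f : ℝ} {n R : ℕ} (hη : 0 < η) (hP : 1 ≤ P) (v a U : ℕ → ℝ)
    (hU : ∀ r ≤ R, η * P * (n : ℝ) ^ r ≤ U r)
    (hid : ∀ r ≤ R, U r = ∑ t ∈ range (r + 1), v t * a (r - t)) (hv0 : 0 < v 0) (hvP : v 0 ≤ P)
    (hv : ∀ t ≤ R, 0 ≤ v t ∧ v t ≤ f)
    (ha : ∀ r ≤ R, (∀ j ≤ r, η / 2 * (n : ℝ) ^ j ≤ a j) → a r ≤ (n : ℝ) ^ r)
    (hn : 2 * (R + 1) * f ≤ η * n) (hn1 : 1 ≤ n) : ∀ r ≤ R, η / 2 * (n : ℝ) ^ r ≤ a r := by
  intro r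
  induction r using Nat.strong_induction_on with
  | _ r ih =>
    intro hr
    have hn0 : (1 : ℝ) ≤ n := by exact_mod_cast hn1
    have hf : 0 ≤ f := (hv 0 (Nat.zero_le R)).1.trans (hv 0 (Nat.zero_le R)).2
    have h1 := hid r hr
    rw [sum_range_succ'] at h1
    rw [Nat.sub_zero] at h1
    have h2 : ∑ t ∈ range r, v (t + 1) * a (r - (t + 1)) ≤ r * (f * (n : ℝ) ^ (r - 1)) := by
      have h3 : ∀ t ∈ range r, v (t + 1) * a (r - (t + 1)) ≤ f * (n : ℝ) ^ (r - 1) := by
        intro t ht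
        rw [mem_range] at ht
        have h4 := hv (t + 1) (by omega)
        have h5 := ha (r - (t + 1)) (by omega) fun j hj => ih j (by omega) (by omega)
        have h6 : (n : ℝ) ^ (r - (t + 1)) ≤ (n : ℝ) ^ (r - 1) := pow_le_pow_right₀ hn0 (by omega)
        calc v (t + 1) * a (r - (t + 1)) ≤ v (t + 1) * (n : ℝ) ^ (r - 1) :=
              mul_le_mul_of_nonneg_left (h5.trans h6) h4.1
          _ ≤ f * (n : ℝ) ^ (r - 1) := mul_le_mul_of_nonneg_right h4.2 (by positivity)
      refine (sum_le_card_nsmul _ _ _ h3).trans (le_of_eq ?_)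
      rw [card_range, nsmul_eq_mul]
    have h3 : (r : ℝ) * (f * (n : ℝ) ^ (r - 1)) ≤ η / 2 * (P * (n : ℝ) ^ r) := by
      rcases r with _ | r
      · rw [Nat.cast_zero, zero_mul]
        positivity
      · rw [Nat.add_sub_cancel, pow_succ]
        have h4 : ((r + 1 : ℕ) : ℝ) ≤ R + 1 := by
          have : ((r + 1 : ℕ) : ℝ) ≤ (R : ℝ) := by exact_mod_cast hr
          linarith
        have h5 : ((r + 1 : ℕ) : ℝ) * f ≤ η / 2 * n := by
          have h6 : ((r + 1 : ℕ) : ℝ) * f ≤ (R + 1) * f := mul_le_mul_of_nonneg_right h4 hf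
          linarith
        calc ((r + 1 : ℕ) : ℝ) * (f * (n : ℝ) ^ r) = ((r + 1 : ℕ) : ℝ) * f * (n : ℝ) ^ r := by ring
          _ ≤ η / 2 * n * (n : ℝ) ^ r := mul_le_mul_of_nonneg_right h5 (by positivity)
          _ = η / 2 * (1 * ((n : ℝ) ^ r * n)) := by ring
          _ ≤ η / 2 * (P * ((n : ℝ) ^ r * n)) := by
              refine mul_le_mul_of_nonneg_left ?_ (by positivity)
              exact mul_le_mul_of_nonneg_right hP (by positivity)
    have h4 : η / 2 * (P * (n : ℝ) ^ r) ≤ v 0 * a r := by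
      have h5 := hU r hr
      rw [h1] at h5
      have h6 : η * P * (n : ℝ) ^ r = η / 2 * (P * (n : ℝ) ^ r) + η / 2 * (P * (n : ℝ) ^ r) := by
        ring
      linarith
    have h5 : 0 < η / 2 * (P * (n : ℝ) ^ r) := by positivity
    have h6 : 0 < a r := by
      by_contra hcon
      push Not at hcon
      have := mul_nonpos_of_nonneg_of_nonpos hv0.le hcon
      linarith
    have h7 : v 0 * a r ≤ P * a r := mul_le_mul_of_nonneg_right hvP h6.le
    have h8 : P * (η / 2 * (n : ℝ) ^ r) ≤ P * a r := by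
      calc P * (η / 2 * (n : ℝ) ^ r) = η / 2 * (P * (n : ℝ) ^ r) := by ring
        _ ≤ P * a r := h4.trans h7
    exact le_of_mul_le_mul_left h8 (by linarith)

end Pool.Agent.GD.AL

end

section

/-!
# General d, ALPHA: the last stage

Only the points with `|I \ A| = x` (`S0`) and the points which vanish on all blocks of `I` (`SW`) are left.
`S0` lives on all blocks and `w1` of the variables of `W` (exact by `BT`), `SW` on the other ones
(exact by `XD`): the product.
-/

set_option autoImplicit false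

namespace Pool.Agent.GD.AL

open Finset

section Last

private theorem Last_const {n : ℕ} (c : ℕ → ℕ) (SW : Multiset Kd)
    (h : ∀ k ∈ SW, ∃ x A, k = .ord x A ∧ 2 ≤ x) : vd 0 ∅ c n SW = 1 := by
  rw [vd_nil, PowerSeries.coeff_zero_eq_constantCoeff, map_mul, map_multiset_prod,
    Multiset.map_map]
  have h1 : (SW.map ((PowerSeries.constantCoeff : PowerSeries ℤ →+* ℤ) ∘ Kd.P ∅)).prod = 1 := by
    refine Multiset.prod_eq_one fun y hy => ?_
    obtain ⟨k, hk, rfl⟩ := Multiset.mem_map.1 hy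
    obtain ⟨x, A, rfl, hx⟩ := h k hk
    show PowerSeries.constantCoeff (if ∅ ⊆ A then (1 - PowerSeries.X ^ x : PowerSeries ℤ) else 1) = 1
    rw [if_pos (empty_subset _), map_sub, map_pow, PowerSeries.constantCoeff_X, map_one,
      zero_pow (by omega), sub_zero]
  rw [h1, one_mul, ← PowerSeries.coeff_zero_eq_constantCoeff]
  unfold hs
  rw [PowerSeries.coeff_mk]
  simp

/-- Splitting a state. -/
private theorem Last_split {d J D w1 w2 : ℕ} {σ : St} {I : Finset ℕ} (hD : D ≤ d)
    (hI : I ⊆ range J) {S0 SW : Multiset Kd} (hms : σ.ms = S0 + SW) (hw : σ.w = w1 + w2)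
    (hm : ∀ k ∈ σ.ms, k.Blk J) :
    σ.H d J I D ≤ ∑ s ∈ range (D + 1), (⟨σ.c, w1, S0⟩ : St).H d J I s *
      HI d (D - s) (fun _ : Fin w2 => J) ∅ SW := by
  have h1 : HI d D (Sum.elim (bt J σ.c w1) fun _ : Fin w2 => J) I σ.ms = σ.H d J I D := by
    refine St.H_eq hD _ σ ?_ (fun i hi => ?_) hI hm
    · rw [Fintype.card_sum, card_Vr, Fintype.card_fin]
      unfold St.n
      omega
    · have e : (univ.filter fun s : Vr J σ.c w1 ⊕ Fin w2 =>
          Sum.elim (bt J σ.c w1) (fun _ : Fin w2 => J) s = i) =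
          (univ.filter fun s : Vr J σ.c w1 => bt J σ.c w1 s = i).map Function.Embedding.inl := by
        ext s
        rw [mem_filter, mem_map]
        constructor
        · rintro ⟨-, hs⟩
          rcases s with s | s
          · exact ⟨s, mem_filter.2 ⟨mem_univ _, hs⟩, rfl⟩
          · exact absurd hs (Nat.ne_of_gt hi)
        · rintro ⟨x, hx, rfl⟩
          exact ⟨mem_univ _, (mem_filter.1 hx).2⟩
      rw [e, card_map, card_bt _ _ hi]
  rw [← h1, hms]
  refine HI_prod_zero hD _ _ (fun t h => ?_) S0 SW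
  exact absurd (mem_range.1 (hI h)) (lt_irrefl J)

/-- The virtual dimensions. -/
private theorem Last_V {J w1 w2 : ℕ} {σ : St} {I : Finset ℕ} (hI : I ⊆ range J)
    {S0 SW : Multiset Kd} (hms : σ.ms = S0 + SW) (hw : σ.w = w1 + w2)
    (hSW : ∀ k ∈ SW, ∃ x A, k = .ord x A ∧ I ⊆ A) (I' : Finset ℕ) (hI' : I' ⊆ I) (D : ℕ) :
    σ.V J I' D = ∑ s ∈ range (D + 1), (⟨σ.c, w1, S0⟩ : St).V J I' s * vd (D - s) ∅ σ.c w2 SW := by
  have hn : σ.n J = (⟨σ.c, w1, S0⟩ : St).n J + w2 := by
    unfold St.n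
    simp only
    omega
  have h1 : ∑ i ∈ I', σ.c i ≤ (⟨σ.c, w1, S0⟩ : St).n J :=
    (sum_le_sum_of_subset (f := σ.c) (hI'.trans hI)).trans (Nat.le_add_right _ _)
  unfold St.V
  rw [hn, hms]
  refine vd_prod D w2 h1 S0 SW fun k hk => ?_
  obtain ⟨x, A, rfl, hA⟩ := hSW k hk
  exact ⟨x, A, rfl, hI'.trans hA⟩

/-- The end of the last stage. -/
theorem term_last (d J : ℕ) (hBT : ∀ D ≤ d, BT d J 0 D) {η ϖ : ℝ} (hη : 0 < η) (hϖ : 0 < ϖ) :
    ∃ F : (ℕ → ℕ) → ℕ, ∀ c0 : ℕ → ℕ, Hr 0 J F c0 → ∃ n1 : ℕ, ∀ n0, n1 ≤ n0 →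
      ∀ (σ : St) (I : Finset ℕ) (D : ℕ), I ⊆ range J → D ≤ d → InO d J c0 n0 ϖ I σ →
        (∀ k ∈ σ.ms, ∃ x A, k = .ord x A ∧ ((I \ A).card = x ∨ (I ⊆ A ∧ 2 ≤ x))) →
        Pos J c0 n0 η σ I D → σ.dl d J I D ≤ 0 := by
  classical
  have hB := fun D : Fin (d + 1) => hBT D.1 (Nat.lt_succ_iff.1 D.2) η hη
  choose K k F q hq using hB
  obtain ⟨nX, hX⟩ := last_W d J (half_pos hη)
  refine ⟨fun r => ∑ D, (F D r + K D + 1), fun c0 hc0 => ?_⟩
  have hF : ∀ D : Fin (d + 1), Hr 0 J (F D) c0 ∧ ∀ l < J, K D + 1 ≤ c0 l := by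
    intro D
    have h1 : ∀ r, F D r + K D + 1 ≤ ∑ D, (F D r + K D + 1) := fun r =>
      single_le_sum (f := fun D => F D r + K D + 1) (fun _ _ => Nat.zero_le _) (mem_univ D)
    constructor
    · intro l h0 hl
      have h2 : ∑ D, (F D (rs (l + 1) J c0) + K D + 1) ≤ c0 l := hc0 l h0 hl
      have h3 := h1 (rs (l + 1) J c0)
      omega
    · intro l hl
      have h2 : ∑ D, (F D (rs (l + 1) J c0) + K D + 1) ≤ c0 l := hc0 l (Nat.zero_le l) hl
      have h3 := h1 (rs (l + 1) J c0)
      omega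
  have hc1 : ∀ l < J, 1 ≤ c0 l := fun l hl => by
    have := (hF ⟨0, Nat.succ_pos d⟩).2 l hl
    omega
  -- the constants
  set Pc : ℝ := ∏ l ∈ range J, (c0 l : ℝ) with hPc
  set m0 : ℕ := ⌈Pc / η⌉₊ with hm0
  set w1 : ℕ := ∑ D : Fin (d + 1), q D (rs 1 J c0) * (rs 0 J c0 0 + 1) ^ k D + d * m0 with hw1
  set f : ℝ := Pc * ((∑ l ∈ range J, c0 l + w1 + 1 : ℕ) : ℝ) ^ d with hf
  refine ⟨nX + ⌈((w1 : ℝ) + 1) / ϖ⌉₊ + ⌈2 * (d + 1) * f / η⌉₊ + 1,
    fun n0 hn0 σ I D hI hD ho hms hpos => ?_⟩
  have hPI : ∀ I' ⊆ range J, 1 ≤ ∏ l ∈ I', (c0 l : ℝ) := by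
    intro I' hI'
    have h1 : ∏ l ∈ I', (1 : ℝ) ≤ ∏ l ∈ I', (c0 l : ℝ) :=
      prod_le_prod (fun _ _ => zero_le_one) fun l hl => by
        exact_mod_cast hc1 l (mem_range.1 (hI' hl))
    rwa [prod_const_one] at h1
  have hPle : ∀ I' ⊆ range J, ∏ l ∈ I', (c0 l : ℝ) ≤ Pc := by
    intro I' hI'
    rw [hPc, ← prod_sdiff hI']
    have h1 := hPI (range J \ I') sdiff_subset
    have h2 : 0 ≤ ∏ l ∈ I', (c0 l : ℝ) := prod_nonneg fun _ _ => Nat.cast_nonneg _
    nlinarith
  have hmR : ∀ k ∈ σ.ms, k.Blk J := fun k hk => ok_blk (ho.adm k hk).ok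
  rcases lt_or_ge D I.card with hlow | hID
  · unfold St.dl
    rw [σ.H_low hlow, σ.V_low hI ho.adm hlow]
    simp
  -- the two parts
  set S0 := σ.ms.filter (fun k => ¬ ∃ x A, k = Kd.ord x A ∧ I ⊆ A) with hS0
  set SW := σ.ms.filter (fun k => ∃ x A, k = Kd.ord x A ∧ I ⊆ A) with hSW
  have hsplit : σ.ms = S0 + SW := by
    rw [hS0, hSW, add_comm]
    exact (Multiset.filter_add_not _ _).symm
  have hS0k : ∀ k ∈ S0, ∃ x A, k = .ord x A ∧ (I \ A).card = x := by
    intro k hk
    rw [hS0, Multiset.mem_filter] at hk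
    obtain ⟨x, A, rfl, h1⟩ := hms k hk.1
    refine ⟨x, A, rfl, h1.resolve_right fun h2 => hk.2 ⟨x, A, rfl, h2.1⟩⟩
  have hSWk : ∀ k ∈ SW, ∃ x A, k = .ord x A ∧ 2 ≤ x ∧ A ⊆ range J ∧ I ⊆ A := by
    intro k hk
    rw [hSW, Multiset.mem_filter] at hk
    obtain ⟨hk1, x, A, rfl, hIA⟩ := hk
    obtain ⟨x', A', h0, h1⟩ := hms _ hk1
    obtain ⟨x'', A'', h0', h3, h4, h5, h6⟩ := ho.adm _ hk1
    injection h0 with e1 e2
    injection h0' with e3 e4
    subst e1 e2 e3 e4
    refine ⟨x, A, rfl, ?_, h5, hIA⟩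
    rcases h1 with h1 | h1
    · rw [sdiff_eq_empty_iff_subset.2 hIA, card_empty] at h1
      omega
    · exact h1.2
  have hwle : w1 + 1 ≤ σ.w := by
    have h1 : ((w1 : ℝ) + 1) / ϖ ≤ n0 := by
      refine (Nat.le_ceil _).trans ?_
      have : ⌈((w1 : ℝ) + 1) / ϖ⌉₊ ≤ n0 := by omega
      exact_mod_cast this
    have h2 : (w1 : ℝ) + 1 ≤ ϖ * n0 := by
      rw [div_le_iff₀ hϖ] at h1
      linarith
    have h3 := h2.trans ho.w
    exact_mod_cast h3
  obtain ⟨w2, hw2⟩ : ∃ w2, σ.w = w1 + w2 := ⟨σ.w - w1, by omega⟩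
  have hw2' : 1 ≤ w2 := by omega
  have hwn : w2 ≤ n0 := by
    have h1 := ho.n
    unfold St.n at h1
    omega
  set σ1 : St := ⟨σ.c, w1, S0⟩ with hσ1
  have hS0le : S0 ≤ σ.ms := by
    rw [hsplit]
    exact Multiset.le_add_right _ _
  have hadm1 : ∀ k ∈ σ1.ms, AdmO d J k := fun k hk => ho.adm k (Multiset.mem_of_le hS0le hk)
  have hV := fun (I' : Finset ℕ) (hI' : I' ⊆ I) (D' : ℕ) =>
    Last_V (w1 := w1) hI hsplit hw2 (fun k hk => by
      obtain ⟨x, A, rfl, -, -, h3⟩ := hSWk k hk
      exact ⟨x, A, rfl, h3⟩) I' hI' D'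
  -- the pairs `(I', |I'|)`
  have hVlow : ∀ I' ⊆ I, σ1.V J I' I'.card = σ.V J I' I'.card := by
    intro I' hI'
    rw [hV I' hI' I'.card, sum_range_succ, sum_eq_zero, zero_add, Nat.sub_self,
      Last_const σ.c SW fun k hk => by
        obtain ⟨x, A, rfl, h2, -, -⟩ := hSWk k hk
        exact ⟨x, A, rfl, h2⟩, mul_one]
    intro s hs
    have h1 : σ1.V J I' s = 0 := σ1.V_low (hI'.trans hI) hadm1 (mem_range.1 hs)
    show σ1.V J I' s * _ = 0
    rw [h1, zero_mul]
  have hposlow : ∀ I' ⊆ I, η * ∏ l ∈ I', (c0 l : ℝ) ≤ (σ1.V J I' I'.card : ℝ) := by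
    intro I' hI'
    rw [hVlow I' hI']
    have h1 := hpos I' hI' I'.card le_rfl (by
      have := card_sdiff_add_card_eq_card hI'
      omega)
    unfold nz at h1
    rwa [Nat.sub_self, pow_zero, mul_one] at h1
  -- the number of the objects of `S0`
  have hcard : Multiset.card S0 ≤ m0 := by
    have h1 := numb (D := I.card) (hID.trans hD) hI le_rfl ho hη
      (fun I' hI' D' h1 h2 => hpos I' hI' D' h1 (h2.trans hID))
    have h2 : (Multiset.card S0 : ℝ) ≤ (σ.ms.map (nk c0 n0 I I.card)).sum := by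
      rw [hsplit, Multiset.map_add, Multiset.sum_add]
      have h3 : ∀ k, 0 ≤ nk c0 n0 I I.card k := by
        intro k
        rcases k with ⟨x, A⟩ | ⟨e, dl, i, As⟩
        · show 0 ≤ (if _ then nz c0 n0 (I ∩ A) (I.card - x) else 0)
          split_ifs
          · unfold nz
            positivity
          · exact le_rfl
        · exact le_rfl
      have h4 : 0 ≤ (SW.map (nk c0 n0 I I.card)).sum := by
        refine Multiset.sum_nonneg fun y hy => ?_
        obtain ⟨k, -, rfl⟩ := Multiset.mem_map.1 hy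
        exact h3 k
      have h5 : (Multiset.card S0 : ℝ) ≤ (S0.map (nk c0 n0 I I.card)).sum := by
        have h6 : ∀ k ∈ S0, (1 : ℝ) ≤ nk c0 n0 I I.card k := by
          intro k hk
          obtain ⟨x, A, rfl, hx⟩ := hS0k k hk
          have h7 := card_sdiff_add_card_inter I A
          show 1 ≤ (if x ≤ I.card ∧ (I ∩ A).card ≤ I.card - x then
            nz c0 n0 (I ∩ A) (I.card - x) else 0)
          rw [if_pos ⟨by omega, by omega⟩]
          unfold nz
          have h8 : I.card - x - (I ∩ A).card = 0 := by omega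
          rw [h8, pow_zero, mul_one]
          exact hPI _ (inter_subset_left.trans hI)
        have h9 := Multiset.card_nsmul_le_sum (s := S0.map (nk c0 n0 I I.card)) (a := (1 : ℝ))
          (fun y hy => by
            obtain ⟨k, hk, rfl⟩ := Multiset.mem_map.1 hy
            exact h6 k hk)
        rw [Multiset.card_map, nsmul_eq_mul, mul_one] at h9
        exact h9
      linarith
    have h3 : (Multiset.card S0 : ℝ) ≤ Pc / η := by
      rw [le_div_iff₀ hη]
      have h4 : nz c0 n0 I I.card ≤ Pc := by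
        unfold nz
        rw [Nat.sub_self, pow_zero, mul_one]
        exact hPle I hI
      calc (Multiset.card S0 : ℝ) * η = η * Multiset.card S0 := mul_comm _ _
        _ ≤ η * (σ.ms.map (nk c0 n0 I I.card)).sum := mul_le_mul_of_nonneg_left h2 hη.le
        _ ≤ _ := h1.trans h4
    have h4 : (Multiset.card S0 : ℝ) ≤ m0 := h3.trans (Nat.le_ceil _)
    exact_mod_cast h4
  -- exactness of the first factor
  have hEx : ∀ s ≤ D, σ1.Ex d J I s := by
    intro s hs
    have hsd : s < d + 1 := by omega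
    refine hq ⟨s, hsd⟩ c0 (hF _).1 σ1 I hI (fun l hl => ?_) ho.c hadm1 (fun x A _ _ => ?_)
      hposlow ?_
    · have := (hF ⟨s, hsd⟩).2 l (mem_range.1 (hI hl))
      omega
    · intro y hy
      exact mem_Ico.2 ⟨Nat.zero_le _, mem_range.1 (hI (mem_sdiff.1 hy).1)⟩
    · show q ⟨s, hsd⟩ (rs (0 + 1) J c0) * (rs 0 J c0 0 + 1) ^ k ⟨s, hsd⟩ +
        d * Multiset.card S0 ≤ w1
      have h1 : q ⟨s, hsd⟩ (rs 1 J c0) * (rs 0 J c0 0 + 1) ^ k ⟨s, hsd⟩ ≤
          ∑ D : Fin (d + 1), q D (rs 1 J c0) * (rs 0 J c0 0 + 1) ^ k D :=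
        single_le_sum (f := fun D => q D (rs 1 J c0) * (rs 0 J c0 0 + 1) ^ k D)
          (fun _ _ => Nat.zero_le _) (mem_univ (⟨s, hsd⟩ : Fin (d + 1)))
      have h2 := Nat.mul_le_mul_left d hcard
      rw [hw1]
      exact Nat.add_le_add h1 h2
  -- the numbers `v t`, `a r`
  set v : ℕ → ℝ := fun t => (σ1.V J I (I.card + t) : ℝ) with hv
  set a : ℕ → ℝ := fun r => (vd r ∅ σ.c w2 SW : ℝ) with ha
  have hvH : ∀ t, I.card + t ≤ D → v t = (σ1.H d J I (I.card + t) : ℝ) := by
    intro t ht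
    have h1 := hEx (I.card + t) ht
    unfold St.Ex at h1
    rw [hv]
    show ((σ1.V J I (I.card + t) : ℤ) : ℝ) = _
    rw [← h1]
    push_cast
    rfl
  have hn1 : σ1.n J ≤ ∑ l ∈ range J, c0 l + w1 := by
    unfold St.n
    show ∑ l ∈ range J, σ.c l + w1 ≤ _
    exact Nat.add_le_add_right (sum_le_sum fun l _ => ho.c l) _
  have hvnz : ∀ t, I.card + t ≤ D → v t ≤ (∏ i ∈ I, (c0 i : ℝ)) *
      ((∑ l ∈ range J, c0 l + w1 : ℕ) : ℝ) ^ t := by
    intro t ht
    rw [hvH t ht]
    have h1 := σ1.H_le (d := d) (D := I.card + t) (I := I) (c0 := c0) (n0 := ∑ l ∈ range J, c0 l + w1)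
      (ht.trans hD) hI (fun l _ => ho.c l) hn1 (Nat.le_add_right _ _)
    unfold nz at h1
    rwa [Nat.add_sub_cancel_left] at h1
  have hf0 : 0 ≤ f := by
    rw [hf, hPc]
    positivity
  have hR : ∀ r ≤ D - I.card, η / 2 * (n0 : ℝ) ^ r ≤ a r := by
    refine last_ind (η := η) (P := ∏ i ∈ I, (c0 i : ℝ)) (f := f) (n := n0) (R := D - I.card) hη
      (hPI I hI) v a (fun r => (σ.V J I (I.card + r) : ℝ)) (fun r hr => ?_) (fun r hr => ?_) ?_ ?_
      (fun t ht => ⟨?_, ?_⟩) (fun r hr hj => ?_) ?_ (by omega)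
    · have h0 : (I \ I).card = 0 := by simp
      have h1 := hpos I subset_rfl (I.card + r) (Nat.le_add_right _ _) (by omega)
      unfold nz at h1
      rw [Nat.add_sub_cancel_left, ← mul_assoc] at h1
      exact h1
    · show ((σ.V J I (I.card + r) : ℤ) : ℝ) = _
      rw [hV I subset_rfl (I.card + r)]
      push_cast
      have e : I.card + r + 1 = I.card + (r + 1) := by ring
      rw [e, sum_range_add]
      have h0 : ∑ x ∈ range I.card, ((σ1.V J I x : ℤ) : ℝ) * (vd (I.card + r - x) ∅ σ.c w2 SW : ℝ) = 0 := by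
        refine sum_eq_zero fun s hs => ?_
        rw [σ1.V_low hI hadm1 (mem_range.1 hs)]
        push_cast
        rw [zero_mul]
      rw [h0, zero_add]
      refine sum_congr rfl fun t ht => ?_
      rw [hv, ha]
      show _ = ((σ1.V J I (I.card + t) : ℤ) : ℝ) * (vd (r - t) ∅ σ.c w2 SW : ℝ)
      rw [Nat.add_sub_add_left]
    · have h1 := hposlow I subset_rfl
      have h2 := hPI I hI
      show 0 < ((σ1.V J I (I.card + 0) : ℤ) : ℝ)
      rw [Nat.add_zero]
      refine lt_of_lt_of_le ?_ h1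
      positivity
    · have h1 := hvnz 0 (by omega)
      rwa [pow_zero, mul_one] at h1
    · rw [hvH t (by omega)]
      exact Nat.cast_nonneg _
    · refine (hvnz t (by omega)).trans ?_
      rw [hf]
      refine mul_le_mul (hPle I hI) ?_ (by positivity) (by rw [hPc]; positivity)
      have h1 : ((∑ l ∈ range J, c0 l + w1 : ℕ) : ℝ) ≤ ((∑ l ∈ range J, c0 l + w1 + 1 : ℕ) : ℝ) := by
        exact_mod_cast Nat.le_succ _
      have h2 : (1 : ℝ) ≤ ((∑ l ∈ range J, c0 l + w1 + 1 : ℕ) : ℝ) := by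
        exact_mod_cast Nat.succ_pos _
      exact (pow_le_pow_left₀ (Nat.cast_nonneg _) h1 t).trans (pow_le_pow_right₀ h2 (by omega))
    · have h1 := (hX n0 (by omega) w2 σ.c SW hw2' hwn (fun k hk => by
        obtain ⟨x, A, rfl, h2, h3, -⟩ := hSWk k hk
        exact ⟨x, A, rfl, h2, h3⟩) r (by omega) hj).2
      show ((vd r ∅ σ.c w2 SW : ℤ) : ℝ) ≤ _
      exact_mod_cast h1
    · have h1 : 2 * ((d : ℝ) + 1) * f / η ≤ n0 := by
        refine (Nat.le_ceil _).trans ?_
        have : ⌈2 * ((d : ℝ) + 1) * f / η⌉₊ ≤ n0 := by omega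
        exact_mod_cast this
      rw [div_le_iff₀ hη] at h1
      have h2 : ((D - I.card : ℕ) : ℝ) ≤ d := by
        have : D - I.card ≤ d := by omega
        exact_mod_cast this
      have h3 : 2 * (((D - I.card : ℕ) : ℝ) + 1) * f ≤ 2 * ((d : ℝ) + 1) * f := by
        refine mul_le_mul_of_nonneg_right ?_ hf0
        linarith
      linarith
  -- the end
  have hfin : ∀ s ∈ range (D + 1), ((σ1.H d J I s : ℤ) * (HI d (D - s) (fun _ : Fin w2 => J) ∅ SW : ℤ)) ≤
      σ1.V J I s * vd (D - s) ∅ σ.c w2 SW := by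
    intro s hs
    rw [mem_range, Nat.lt_succ_iff] at hs
    rcases lt_or_ge s I.card with h1 | h1
    · rw [σ1.H_low h1, σ1.V_low hI hadm1 h1]
      simp
    · have h2 := hEx s hs
      unfold St.Ex at h2
      rw [← h2]
      refine mul_le_mul_of_nonneg_left ?_ (Nat.cast_nonneg _)
      refine (hX n0 (by omega) w2 σ.c SW hw2' hwn (fun k hk => by
        obtain ⟨x, A, rfl, h2, h3, -⟩ := hSWk k hk
        exact ⟨x, A, rfl, h2, h3⟩) (D - s) (by omega) fun j hj => ?_).1
      exact hR j (by omega)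
  have h1 := Last_split hD hI hsplit hw2 hmR
  have h2 : (σ.H d J I D : ℤ) ≤ σ.V J I D := by
    rw [hV I subset_rfl D]
    refine le_trans ?_ (sum_le_sum hfin)
    exact_mod_cast h1
  unfold St.dl
  omega

end Last

end Pool.Agent.GD.AL

end
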