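import Pool.Agent.H94.LP7.GD.AL.ClW0
import Pool.Agent.H94.LP7.M44
import Pool.Agent.H94.LP7.M60

/-! The parts of this file: GD.AL.Ph2a, GD.AL.Ph2b. -/

section

/-!
# General d, ALPHA, part C: phase 2, preparations
-/

set_option autoImplicit false

namespace Pool.Agent.GD.AL

open Finset

/-! ### Numbers -/

section

variable {d J D e : ℕ} {σ : St} {I : Finset ℕ} {c0 : ℕ → ℕ} {n0 : ℕ} {η ϖ θ : ℝ}

/-! ### The kinds -/

theorem adm_low {k : Kd} (h : AdmO d J k ∨ AdmC d J e k) : k.Low (range J) := by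
  rcases h with ⟨x, A, rfl, -, -, -, h⟩ | ⟨dl, i, As, rfl, h1, h2, -, hi, h3⟩
  · exact h
  · refine ⟨h2, fun A hA => ⟨fun hiA => notMem_erase i _ ((h3 A hA).1 hiA), ?_⟩⟩
    have h4 := (h3 A hA).2
    have h5 : range J \ A ⊆ insert i ((range J).erase i \ A) := by
      intro y hy
      rw [mem_sdiff] at hy
      rw [mem_insert, mem_sdiff, mem_erase]
      by_cases h6 : y = i
      · exact Or.inl h6
      · exact Or.inr ⟨⟨h6, hy.1⟩, hy.2⟩
    have h6 := (card_le_card h5).trans (card_insert_le _ _)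
    omega

theorem V_lowC (hI : I ⊆ range J) (hm : ∀ k ∈ σ.ms, AdmO d J k ∨ AdmC d J e k) (hD : D < I.card) :
    σ.V J I D = 0 :=
  vd_low (J := range J) (by unfold St.n; omega) σ.ms (fun k hk => adm_low (hm k hk)) I hI D hD

theorem inter_rep {m : ℕ} (hm : 1 ≤ m) (B : Finset ℕ) : inter (List.replicate m B) = B := by
  ext x
  rw [Pool.Agent.GD.mem_inter (by rw [List.length_replicate]; exact hm)]
  constructor
  · intro h
    exact h B (List.mem_replicate.2 ⟨by omega, rfl⟩)
  · intro h A hA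
    rw [(List.mem_replicate.1 hA).2]
    exact h

/-- The virtual dimension of a cluster of phase 2. -/
theorem V_pl (hI : I ⊆ range J) {i m : ℕ} (hi : i ∈ I) (hm : 1 ≤ m) (X : Multiset Kd) :
    (σ.wm (.cl e 0 i (List.replicate m ((range J).erase i)) ::ₘ X)).V J I D =
      (σ.wm (Multiset.replicate m (.ord e ((range J).erase i)) + X)).V J I D +
        if m * (e - 1) + 1 ≤ D then
          (σ.wm X).V J (I.erase i) (D - (m * (e - 1) + 1)) -
            (σ.wm X).V J I (D - (m * (e - 1) + 1)) else 0 := by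
  have h1 : ∀ A ∈ List.replicate m ((range J).erase i), i ∉ A := by
    intro A hA
    rw [(List.mem_replicate.1 hA).2]
    exact notMem_erase i _
  have h2 := vd_clu D σ.c (σ.n J) e 0 h1 hi X
  have h3 : I.erase i ∩ (range J).erase i = I.erase i :=
    inter_eq_left.2 (erase_subset_erase i hI)
  rw [inter_rep hm, h3, insert_erase hi, List.length_replicate, List.map_replicate,
    Multiset.coe_replicate] at h2
  exact h2

theorem nz_nn2 (c0 : ℕ → ℕ) (n0 : ℕ) (I : Finset ℕ) (D : ℕ) : 0 ≤ nz c0 n0 I D := by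
  unfold nz
  exact mul_nonneg (prod_nonneg fun _ _ => Nat.cast_nonneg _) (pow_nonneg (Nat.cast_nonneg _) _)

/-- The next smaller sizes. -/
theorem nz_sub {x : ℕ} (h : x + I.card ≤ D) :
    nz c0 n0 I (D - x) * (n0 : ℝ) ^ x = nz c0 n0 I D := by
  unfold nz
  rw [mul_assoc, ← pow_add]
  congr 2
  omega

end

end Pool.Agent.GD.AL

end

section

/-!
# General d, ALPHA, part C: phase 2, the virtual dimensions of the new states
-/

set_option autoImplicit false

namespace Pool.Agent.GD.AL

open Finset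

section

variable {d J D e : ℕ} {σ : St} {I : Finset ℕ} {c0 : ℕ → ℕ} {n0 : ℕ} {η ϖ θ : ℝ}

theorem mul_le_div_pow {a A : ℝ} {n x : ℕ} (hn : 1 ≤ n) (h : a * (n : ℝ) ^ x ≤ A) :
    a ≤ A / (n : ℝ) ^ x := by
  have h1 : (0 : ℝ) < (n : ℝ) ^ x := pow_pos (by exact_mod_cast hn) x
  rwa [le_div_iff₀ h1]

/-- The effect of an ordinary object which vanishes on all blocks. -/
theorem p2_eff (hR : Rf J c0 n0 1) (hI : I ⊆ range J) (hID : I.card ≤ D) {R : Multiset Kd}
    (hm : ∀ k ∈ R, AdmO d J k ∨ AdmC d J e k) (hη : 0 ≤ η)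
    (hb : BP J c0 n0 η (σ.wm R) I D) {x : ℕ} (hx : 1 ≤ x) :
    ((σ.wm R).V J I D : ℝ) - 2 * nz c0 n0 I D / (n0 : ℝ) ^ x ≤
        (σ.wm (.ord x (range J) ::ₘ R)).V J I D ∧
      ((σ.wm (.ord x (range J) ::ₘ R)).V J I D : ℝ) ≤ (σ.wm R).V J I D := by
  have hn : 1 ≤ n0 := by
    have h1 := hR.n
    have h2 : (0 : ℝ) ≤ ∑ l ∈ range J, (c0 l : ℝ) := sum_nonneg fun _ _ => Nat.cast_nonneg _
    have h3 : (1 : ℝ) ≤ n0 := by linarith
    exact_mod_cast h3
  have hnn := nz_nn2 c0 n0 I D
  have hpp : (0 : ℝ) ≤ 2 * nz c0 n0 I D / (n0 : ℝ) ^ x := by positivity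
  by_cases hxD : x ≤ D
  · have h1 : (σ.wm (.ord x (range J) ::ₘ R)).V J I D =
        (σ.wm R).V J I D - (σ.wm R).V J (I ∩ range J) (D - x) :=
      St.V_ord (σ := σ.wm R) (range J) hxD
    rw [inter_eq_left.2 hI] at h1
    rw [h1]
    push_cast
    by_cases h2 : I.card ≤ D - x
    · obtain ⟨h3, h4⟩ := hb I Subset.rfl (D - x) h2 (by omega) (by rw [sdiff_self]; simp)
      have h5 := nz_sub (c0 := c0) (n0 := n0) (I := I) (D := D) (x := x) (by omega)
      have h6 : 2 * nz c0 n0 I (D - x) ≤ 2 * nz c0 n0 I D / (n0 : ℝ) ^ x :=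
        mul_le_div_pow hn (by rw [mul_assoc, h5])
      have h7 : 0 ≤ η * nz c0 n0 I (D - x) := mul_nonneg hη (nz_nn2 _ _ _ _)
      constructor <;> linarith
    · have h3 : (σ.wm R).V J I (D - x) = 0 := V_lowC (e := e) hI hm (by omega)
      rw [h3]
      constructor <;> push_cast <;> linarith
  · have h1 : (σ.wm (.ord x (range J) ::ₘ R)).V J I D = (σ.wm R).V J I D :=
      St.V_ord_lt (σ := σ.wm R) (range J) (by omega)
    rw [h1]
    constructor <;> linarith

/-- The two new states. -/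
theorem p2_V (hR : Rf J c0 n0 1) (hI : I ⊆ range J) (hID : I.card ≤ D) {X : Multiset Kd} {i m : ℕ}
    (hX : ∀ k ∈ X, AdmO d J k ∨ AdmC d J e k) (he : 2 ≤ e) (hed : e ≤ d) (hi : i ∈ I) (hm : 2 ≤ m)
    (hη : 0 ≤ η) (hbX : BP J c0 n0 η (σ.wm X) I D)
    (hbR : BP J c0 n0 η
      (σ.wm (Multiset.replicate (m - 1) (.ord e ((range J).erase i)) + X)) I D) :
    ((σ.wm (.cl e 0 i (List.replicate m ((range J).erase i)) ::ₘ X)).V J I D : ℝ) -
        (σ.wm (.ord e (range J) ::ₘ
          (Multiset.replicate (m - 1) (.ord e ((range J).erase i)) + X))).V J I D ≤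
      4 * nz c0 n0 I D / (n0 : ℝ) ^ e ∧
    ((σ.wm (.cl e 0 i (List.replicate m ((range J).erase i)) ::ₘ X)).V J I D : ℝ) -
        (σ.wm (.ord (e - 1) (range J) ::ₘ
          (Multiset.replicate (m - 1) (.ord e ((range J).erase i)) + X))).V J I D ≤
      4 * nz c0 n0 I D / (n0 : ℝ) ^ (e - 1) := by
  set B := (range J).erase i with hB
  set R := Multiset.replicate (m - 1) (Kd.ord e B) + X with hRdef
  have hn : 1 ≤ n0 := by
    have h1 := hR.n
    have h2 : (0 : ℝ) ≤ ∑ l ∈ range J, (c0 l : ℝ) := sum_nonneg fun _ _ => Nat.cast_nonneg _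
    have h3 : (1 : ℝ) ≤ n0 := by linarith
    exact_mod_cast h3
  have hn' : (1 : ℝ) ≤ n0 := by exact_mod_cast hn
  have hmR : ∀ k ∈ R, AdmO d J k ∨ AdmC d J e k := by
    intro k hk
    rcases Multiset.mem_add.1 hk with h | h
    · rw [Multiset.eq_of_mem_replicate h]
      refine Or.inl ⟨e, B, rfl, by omega, hed, erase_subset _ _, ?_⟩
      have h1 : range J \ B ⊆ {i} := by
        intro y hy
        rw [mem_sdiff, hB, mem_erase] at hy
        rw [mem_singleton]
        by_contra h2
        exact hy.2 ⟨h2, hy.1⟩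
      have h2 := card_le_card h1
      rw [card_singleton] at h2
      omega
    · exact hX k h
  have hV := V_pl (e := e) (σ := σ) (D := D) hI hi (show 1 ≤ m by omega) X
  -- the points
  have h1 : ((σ.wm (Multiset.replicate m (Kd.ord e B) + X)).V J I D : ℝ) ≤ (σ.wm R).V J I D := by
    have h2 : Multiset.replicate m (Kd.ord e B) + X = .ord e B ::ₘ R := by
      rw [hRdef, ← Multiset.cons_add, ← Multiset.replicate_succ]
      congr 2
      omega
    rw [h2]
    by_cases heD : e ≤ D
    · have h3 : (σ.wm (.ord e B ::ₘ R)).V J I D =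
          (σ.wm R).V J I D - (σ.wm R).V J (I ∩ B) (D - e) :=
        St.V_ord (σ := σ.wm R) B heD
      have h4 : I ∩ B = I.erase i := by
        ext y
        rw [Finset.mem_inter, hB, mem_erase, mem_erase]
        exact ⟨fun h => ⟨h.2.1, h.1⟩, fun h => ⟨h.2, h.1, hI h.2⟩⟩
      rw [h3, h4]
      have h5 : 0 ≤ (σ.wm R).V J (I.erase i) (D - e) := by
        by_cases h6 : (I.erase i).card ≤ D - e
        · have h7 := (hbR (I.erase i) (erase_subset _ _) (D - e) h6 (by omega) (by
            have h8 : I \ I.erase i = {i} := by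
              ext y
              rw [mem_sdiff, mem_erase, mem_singleton]
              constructor
              · rintro ⟨h9, h10⟩
                by_contra h11
                exact h10 ⟨h11, h9⟩
              · rintro rfl
                exact ⟨hi, fun h => h.1 rfl⟩
            rw [h8, card_singleton]
            omega)).1
          have h8 := mul_nonneg hη (nz_nn2 c0 n0 (I.erase i) (D - e))
          exact_mod_cast h8.trans h7
        · exact (V_lowC (e := e) ((erase_subset _ _).trans hI) hmR (by omega)).ge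
      have h6 : (0 : ℝ) ≤ (σ.wm R).V J (I.erase i) (D - e) := by exact_mod_cast h5
      push_cast
      linarith
    · have h3 : (σ.wm (.ord e B ::ₘ R)).V J I D = (σ.wm R).V J I D :=
        St.V_ord_lt (σ := σ.wm R) B (by omega)
      rw [h3]
  -- the bracket
  have h2 : (((if m * (e - 1) + 1 ≤ D then
      (σ.wm X).V J (I.erase i) (D - (m * (e - 1) + 1)) -
        (σ.wm X).V J I (D - (m * (e - 1) + 1)) else 0 : ℤ)) : ℝ) ≤
      2 * nz c0 n0 I D / (n0 : ℝ) ^ e := by
    have hpp : (0 : ℝ) ≤ 2 * nz c0 n0 I D / (n0 : ℝ) ^ e := by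
      have := nz_nn2 c0 n0 I D
      positivity
    by_cases hE : m * (e - 1) + 1 ≤ D
    · rw [if_pos hE]
      have hme : e ≤ m * (e - 1) := by
        have : 2 * (e - 1) ≤ m * (e - 1) := Nat.mul_le_mul_right _ hm
        omega
      set E := m * (e - 1) + 1 with hEdef
      have h3 : 0 ≤ (σ.wm X).V J I (D - E) := by
        by_cases h6 : I.card ≤ D - E
        · have h7 := (hbX I Subset.rfl (D - E) h6 (by omega) (by rw [sdiff_self]; simp)).1
          have h8 := mul_nonneg hη (nz_nn2 c0 n0 I (D - E))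
          exact_mod_cast h8.trans h7
        · exact (V_lowC (e := e) hI hX (by omega)).ge
      have h3' : (0 : ℝ) ≤ (σ.wm X).V J I (D - E) := by exact_mod_cast h3
      have h4 : ((σ.wm X).V J (I.erase i) (D - E) : ℝ) ≤ 2 * nz c0 n0 I D / (n0 : ℝ) ^ e := by
        by_cases h6 : (I.erase i).card ≤ D - E
        · have h7 := (hbX (I.erase i) (erase_subset _ _) (D - E) h6 (by omega) (by
            have h8 : I \ I.erase i = {i} := by
              ext y
              rw [mem_sdiff, mem_erase, mem_singleton]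
              constructor
              · rintro ⟨h9, h10⟩
                by_contra h11
                exact h10 ⟨h11, h9⟩
              · rintro rfl
                exact ⟨hi, fun h => h.1 rfl⟩
            rw [h8, card_singleton]
            omega)).2
          refine h7.trans (mul_le_div_pow hn ?_)
          rw [mul_assoc]
          refine mul_le_mul_of_nonneg_left ?_ zero_le_two
          unfold nz
          rw [← mul_prod_erase I (fun l => (c0 l : ℝ)) hi]
          have h8 : (1 : ℝ) ≤ c0 i := hR.c i (mem_range.1 (hI hi))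
          have h9 : (0 : ℝ) ≤ ∏ l ∈ I.erase i, (c0 l : ℝ) :=
            prod_nonneg fun _ _ => Nat.cast_nonneg _
          have h10 : (n0 : ℝ) ^ (D - E - (I.erase i).card) * (n0 : ℝ) ^ e ≤
              (n0 : ℝ) ^ (D - I.card) := by
            rw [← pow_add]
            refine pow_le_pow_right₀ hn' ?_
            have h11 := card_erase_of_mem hi
            have h12 : 1 ≤ I.card := card_pos.2 ⟨i, hi⟩
            omega
          calc (∏ l ∈ I.erase i, (c0 l : ℝ)) * (n0 : ℝ) ^ (D - E - (I.erase i).card) *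
                (n0 : ℝ) ^ e = (∏ l ∈ I.erase i, (c0 l : ℝ)) *
                  ((n0 : ℝ) ^ (D - E - (I.erase i).card) * (n0 : ℝ) ^ e) := by ring
            _ ≤ (∏ l ∈ I.erase i, (c0 l : ℝ)) * (n0 : ℝ) ^ (D - I.card) :=
                mul_le_mul_of_nonneg_left h10 h9
            _ = 1 * ((∏ l ∈ I.erase i, (c0 l : ℝ)) * (n0 : ℝ) ^ (D - I.card)) := by ring
            _ ≤ (c0 i : ℝ) * ((∏ l ∈ I.erase i, (c0 l : ℝ)) * (n0 : ℝ) ^ (D - I.card)) :=
                mul_le_mul_of_nonneg_right h8 (by positivity)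
            _ = _ := by ring
        · rw [V_lowC (e := e) ((erase_subset _ _).trans hI) hX (by omega)]
          exact_mod_cast hpp
      push_cast
      linarith
    · rw [if_neg hE]
      exact_mod_cast hpp
  have h3 : ((σ.wm (.cl e 0 i (List.replicate m B) ::ₘ X)).V J I D : ℝ) ≤
      (σ.wm R).V J I D + 2 * nz c0 n0 I D / (n0 : ℝ) ^ e := by
    rw [hV]
    rw [Int.cast_add]
    linarith
  have h4 := (p2_eff (σ := σ) (x := e) hR hI hID hmR hη hbR (by omega)).1
  have h5 := (p2_eff (σ := σ) (x := e - 1) hR hI hID hmR hη hbR (by omega)).1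
  have h6 : 2 * nz c0 n0 I D / (n0 : ℝ) ^ e ≤ 2 * nz c0 n0 I D / (n0 : ℝ) ^ (e - 1) := by
    refine div_le_div_of_nonneg_left ?_ (by positivity) (pow_le_pow_right₀ hn' (Nat.sub_le e 1))
    have := nz_nn2 c0 n0 I D
    positivity
  have h7 : 4 * nz c0 n0 I D / (n0 : ℝ) ^ e =
      2 * nz c0 n0 I D / (n0 : ℝ) ^ e + 2 * nz c0 n0 I D / (n0 : ℝ) ^ e := by ring
  have h8 : 4 * nz c0 n0 I D / (n0 : ℝ) ^ (e - 1) =
      2 * nz c0 n0 I D / (n0 : ℝ) ^ (e - 1) + 2 * nz c0 n0 I D / (n0 : ℝ) ^ (e - 1) := by ring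
  constructor <;> linarith

end

end Pool.Agent.GD.AL

end
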