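import Pool.Agent.H94.LP7.M38
import Pool.Agent.H94.LP7.M52
import Pool.Agent.H94.LP7.M54
import Pool.Agent.H94.LP7.M61
import Pool.Agent.H94.LP7.M75
import Pool.Agent.H94.LP7.M76

/-! The parts of this file: GD.AL.ClV, GD.AL.CSt, GD.AL.Ph1. -/

section

/-!
# General d, ALPHA: clusters, the virtual dimensions and the defects

`vd_cl1`, `vd_cl1a`: the virtual versions of `cl1`, `cl1a` are equalities.  `cl1_dl`, `cl1a_dl`: the defect of
a state with a cluster is at most the one with the points and `(T, e - 1)`, if the lower defects are `≤ 0`.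
-/

set_option autoImplicit false
set_option linter.unusedSectionVars false

namespace Pool.Agent.GD.AL

open Finset

/-- A point of exponent `1` telescopes. -/
theorem vd_tele1 (N : ℕ) {I' A : Finset ℕ} (hA : I' ⊆ A) (c : ℕ → ℕ) (n : ℕ) (X : Multiset Kd) :
    ∑ s ∈ range (N + 1), vd s I' c n (.ord 1 A ::ₘ X) = vd N I' c n X := by
  induction N with
  | zero => rw [sum_range_one, vd_cons_lt 0 I' c n X 1 A Nat.zero_lt_one]
  | succ N ih =>
    rw [sum_range_succ, ih, vd_cons (N + 1) I' c n X 1 A (by omega), inter_eq_left.2 hA]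
    ring_nf
    rw [show 1 + N - 1 = N by omega]
    ring

theorem mem_inter_append {L : List (Finset ℕ)} {A : Finset ℕ} (hL : 1 ≤ L.length) {x : ℕ} :
    x ∈ inter (L ++ [A]) ↔ x ∈ inter L ∧ x ∈ A := by
  rw [Pool.Agent.GD.mem_inter (by rw [List.length_append, List.length_singleton]; omega),
    Pool.Agent.GD.mem_inter hL]
  constructor
  · intro h
    exact ⟨fun A' hA' => h A' (List.mem_append_left _ hA'),
      h A (List.mem_append_right _ (List.mem_singleton_self A))⟩
  · rintro ⟨h1, h2⟩ A' hA'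
    rcases List.mem_append.1 hA' with h3 | h3
    · exact h1 A' h3
    · rw [List.mem_singleton.1 h3]
      exact h2

/-- The virtual version of `cl1`. -/
theorem vd_cl1 (D : ℕ) {I A B : Finset ℕ} (c : ℕ → ℕ) (n : ℕ) {i E dl : ℕ} {L : List (Finset ℕ)}
    (hE : 1 ≤ E) (hL : 1 ≤ L.length) (hi : i ∈ I) (hiL : ∀ A' ∈ L, i ∉ A') (hiB : i ∉ B)
    (hAB : A ⊆ B) (ms : Multiset Kd) :
    vd D I c n (.cl (E + 1) dl i (L ++ [A]) ::ₘ ms) =
      vd D I c n (.ord E (insert i A) ::ₘ (((L.map (Kd.ord (E + 1)) : List Kd) : Multiset Kd) + ms)) +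
      ∑ s ∈ range (D + 1 - E), vd s (I ∩ insert i A) c n
        (.cl (E + 1) dl i L ::ₘ .ord 1 (insert i A) ::ₘ .ord 1 B ::ₘ ms) := by
  have hiA : i ∉ A := fun h => hiB (hAB h)
  have hmem : ∀ A' ∈ L ++ [A], i ∉ A' := by
    intro A' hA'
    rcases List.mem_append.1 hA' with h | h
    · exact hiL _ h
    · rw [List.mem_singleton.1 h]
      exact hiA
  have hlen : (L ++ [A]).length = L.length + 1 := by
    rw [List.length_append, List.length_singleton]
  have hmap : (((L ++ [A]).map (fun A => Kd.ord (E + 1) A) : List Kd) : Multiset Kd) + ms =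
      .ord (E + 1) A ::ₘ (((L.map (Kd.ord (E + 1)) : List Kd) : Multiset Kd) + ms) := by
    rw [List.map_append, List.map_singleton, ← Multiset.coe_add, Multiset.coe_singleton,
      add_assoc, Multiset.singleton_add, Multiset.add_cons]
  set pts : Multiset Kd := ((L.map (Kd.ord (E + 1)) : List Kd) : Multiset Kd) with hpts
  rw [vd_clu D c n (E + 1) dl hmem hi ms, hmap, hlen]
  have htrx : trx (E + 1) dl (L.length + 1) = trx (E + 1) dl L.length + E := by
    unfold trx
    rw [Nat.add_sub_cancel, add_mul, one_mul]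
    omega
  have htr1 : E + 1 ≤ trx (E + 1) dl L.length + E := by
    unfold trx
    omega
  by_cases hD : E ≤ D
  · obtain ⟨N, rfl⟩ : ∃ N, D = N + E := ⟨D - E, by omega⟩
    have h1 : N + E + 1 - E = N + 1 := by omega
    have h2 : ∀ s ∈ range (N + 1), vd s (I ∩ insert i A) c n
        (.cl (E + 1) dl i L ::ₘ .ord 1 (insert i A) ::ₘ .ord 1 B ::ₘ ms) =
        vd s (I ∩ insert i A) c n
          (.ord 1 (insert i A) ::ₘ (.cl (E + 1) dl i L ::ₘ .ord 1 B ::ₘ ms)) := by
      intro s _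
      rw [Multiset.cons_swap]
    rw [h1, sum_congr rfl h2, vd_tele1 N inter_subset_right, Multiset.cons_swap]
    have hiI' : i ∈ I ∩ insert i A := Finset.mem_inter.2 ⟨hi, mem_insert_self i A⟩
    have hIB : (I ∩ insert i A) ∩ B = I ∩ A := by
      ext x
      rw [Finset.mem_inter, Finset.mem_inter, Finset.mem_inter, mem_insert]
      constructor
      · rintro ⟨⟨h3, h4⟩, h5⟩
        refine ⟨h3, h4.resolve_left ?_⟩
        rintro rfl
        exact hiB h5
      · rintro ⟨h3, h4⟩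
        exact ⟨⟨h3, Or.inr h4⟩, hAB h4⟩
    have hiIA : i ∉ I ∩ A := fun h => hiA (Finset.mem_inter.1 h).2
    have hJ1 : I.erase i ∩ inter (L ++ [A]) = (I ∩ insert i A).erase i ∩ inter L := by
      ext x
      rw [Finset.mem_inter, Finset.mem_inter, mem_inter_append hL, mem_erase, mem_erase,
        Finset.mem_inter, mem_insert]
      constructor
      · rintro ⟨⟨h3, h4⟩, h5, h6⟩
        exact ⟨⟨h3, h4, Or.inr h6⟩, h5⟩
      · rintro ⟨⟨h3, h4, h5⟩, h6⟩
        exact ⟨⟨h3, h4⟩, h6, h5.resolve_left h3⟩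
    have e0 : vd (N + E) I c n (.ord E (insert i A) ::ₘ (pts + ms)) =
        vd (N + E) I c n (pts + ms) - vd N (I ∩ insert i A) c n (pts + ms) := by
      rw [vd_cons _ _ _ _ _ E _ (by omega), Nat.add_sub_cancel]
    have e1 : vd N (I ∩ insert i A) c n (.cl (E + 1) dl i L ::ₘ ms) =
        vd N (I ∩ insert i A) c n (pts + ms) +
          if trx (E + 1) dl L.length ≤ N then
            vd (N - trx (E + 1) dl L.length) ((I ∩ insert i A).erase i ∩ inter L) c n ms -
              vd (N - trx (E + 1) dl L.length)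
                (insert i ((I ∩ insert i A).erase i ∩ inter L)) c n ms else 0 :=
      vd_clu N c n (E + 1) dl hiL hiI' ms
    have e2 : (if trx (E + 1) dl L.length + E ≤ N + E then
          vd (N + E - (trx (E + 1) dl L.length + E)) (I.erase i ∩ inter (L ++ [A])) c n ms -
            vd (N + E - (trx (E + 1) dl L.length + E))
              (insert i (I.erase i ∩ inter (L ++ [A]))) c n ms else (0 : ℤ)) =
        if trx (E + 1) dl L.length ≤ N then
          vd (N - trx (E + 1) dl L.length) ((I ∩ insert i A).erase i ∩ inter L) c n ms -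
            vd (N - trx (E + 1) dl L.length)
              (insert i ((I ∩ insert i A).erase i ∩ inter L)) c n ms else 0 := by
      rw [hJ1, Nat.add_sub_add_right]
      by_cases h3 : trx (E + 1) dl L.length ≤ N
      · rw [if_pos h3, if_pos (by omega)]
      · rw [if_neg h3, if_neg (by omega)]
    rw [htrx, e2, e0]
    rcases Nat.eq_zero_or_pos N with hN | hN
    · rw [vd_cons_lt N (I ∩ insert i A) c n _ 1 B (by omega), e1,
        vd_cons_lt (N + E) I c n _ (E + 1) A (by omega)]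
      ring
    · rw [vd_cons N (I ∩ insert i A) c n _ 1 B (by omega), hIB, e1,
        vd_cons (N + E) I c n _ (E + 1) A (by omega), vd_clu_not (N - 1) c n (E + 1) dl hiIA ms,
        show N + E - (E + 1) = N - 1 by omega]
      ring
  · have h1 : D + 1 - E = 0 := by omega
    rw [h1, range_zero, sum_empty, add_zero, vd_cons_lt D I c n _ (E + 1) A (by omega),
      vd_cons_lt D I c n _ E (insert i A) (by omega), if_neg (by omega), add_zero]

/-- The virtual version of `cl1a`. -/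
theorem vd_cl1a (D : ℕ) {I A B : Finset ℕ} (c : ℕ → ℕ) (n : ℕ) {i E dl : ℕ} (hE : 1 ≤ E)
    (hED : E ≤ D) (hi : i ∈ I) (hiB : i ∉ B) (hAB : A ⊆ B) (ms : Multiset Kd) :
    vd D I c n (.cl (E + 1) dl i [A] ::ₘ ms) =
      vd D I c n (.ord E (insert i A) ::ₘ ms) +
      (∑ j ∈ (range dl).filter (fun j => j ≤ D - E), vd (D - E - j) (I ∩ insert i A) c n
        (.ord 1 (insert i A) ::ₘ .ord 1 B ::ₘ ms) +
        if dl ≤ D - E then vd (D - E - dl) (I ∩ insert i A) c n (.ord 1 (insert i A) ::ₘ ms)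
          else 0) := by
  have hiA : i ∉ A := fun h => hiB (hAB h)
  obtain ⟨N, rfl⟩ : ∃ N, D = N + E := ⟨D - E, by omega⟩
  rw [Nat.add_sub_cancel]
  have hIB : (I ∩ insert i A) ∩ B = I ∩ A := by
    ext x
    rw [Finset.mem_inter, Finset.mem_inter, Finset.mem_inter, mem_insert]
    constructor
    · rintro ⟨⟨h3, h4⟩, h5⟩
      refine ⟨h3, h4.resolve_left ?_⟩
      rintro rfl
      exact hiB h5
    · rintro ⟨h3, h4⟩
      exact ⟨⟨h3, Or.inr h4⟩, hAB h4⟩
  -- the numbers
  set f : ℕ → ℤ := fun s => vd s (I ∩ insert i A) c n ms with hf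
  set k : ℕ → ℤ := fun s => vd s (I ∩ A) c n ms with hk
  have key : ∀ (dl N : ℕ), ∑ j ∈ (range dl).filter (fun j => j ≤ N), vd (N - j) (I ∩ insert i A) c n
        (.ord 1 (insert i A) ::ₘ .ord 1 B ::ₘ ms) +
        (if dl ≤ N then vd (N - dl) (I ∩ insert i A) c n (.ord 1 (insert i A) ::ₘ ms) else 0) =
      f N - (if 1 ≤ N then k (N - 1) else 0) +
        (if dl + 1 ≤ N then k (N - dl - 1) - f (N - dl - 1) else 0) := by
    intro dl N
    have hg : ∀ s, vd s (I ∩ insert i A) c n (.ord 1 (insert i A) ::ₘ ms) =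
        f s - if 1 ≤ s then f (s - 1) else 0 := by
      intro s
      rcases Nat.eq_zero_or_pos s with rfl | hs
      · rw [vd_cons_lt 0 _ c n ms 1 _ (by omega), if_neg (by omega), sub_zero]
      · rw [vd_cons s _ c n ms 1 _ hs, if_pos (show 1 ≤ s from hs), inter_assoc, inter_self]
    have hh : ∀ s, vd s (I ∩ insert i A) c n (.ord 1 (insert i A) ::ₘ .ord 1 B ::ₘ ms) =
        (f s - if 1 ≤ s then f (s - 1) else 0) - (if 1 ≤ s then
          (k (s - 1) - if 2 ≤ s then k (s - 2) else 0) else 0) := by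
      intro s
      rw [Multiset.cons_swap]
      rcases Nat.eq_zero_or_pos s with rfl | hs
      · rw [vd_cons_lt 0 _ c n _ 1 _ (by omega), hg, if_neg (show ¬ 1 ≤ 0 by omega),
          if_neg (show ¬ 1 ≤ 0 by omega), sub_zero, sub_zero]
      · rw [vd_cons s _ c n _ 1 B hs, hg, hIB, if_pos (show 1 ≤ s from hs),
          if_pos (show 1 ≤ s from hs)]
        congr 1
        rcases Nat.lt_or_ge s 2 with h2 | h2
        · rw [vd_cons_lt (s - 1) _ c n ms 1 _ (by omega), if_neg (by omega), sub_zero]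
        · rw [vd_cons (s - 1) _ c n ms 1 _ (by omega), if_pos h2, Nat.sub_sub,
            inter_eq_left.2 (inter_subset_right.trans (subset_insert i A))]
    induction dl generalizing N with
    | zero =>
      rw [range_zero, filter_empty, sum_empty, zero_add, if_pos (Nat.zero_le _), Nat.sub_zero, hg]
      rcases Nat.eq_zero_or_pos N with rfl | hN
      · rw [if_neg (show ¬ 1 ≤ 0 by omega), if_neg (show ¬ 1 ≤ 0 by omega),
          if_neg (show ¬ 0 + 1 ≤ 0 by omega)]
        ring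
      · rw [if_pos (show 1 ≤ N from hN), if_pos (show 1 ≤ N from hN),
          if_pos (show 0 + 1 ≤ N by omega)]
        ring
    | succ dl ih =>
      rcases Nat.eq_zero_or_pos N with rfl | hN
      · have h1 : (range (dl + 1)).filter (fun j => j ≤ 0) = {0} := by
          ext j
          rw [mem_filter, mem_range, mem_singleton]
          omega
        rw [h1, sum_singleton, if_neg (by omega), Nat.sub_zero, hh, if_neg (by omega),
          if_neg (by omega), if_neg (by omega), if_neg (by omega)]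
        ring
      · obtain ⟨N', rfl⟩ : ∃ N', N = N' + 1 := ⟨N - 1, by omega⟩
        have h3 : ∑ j ∈ (range (dl + 1)).filter (fun j => j ≤ N' + 1),
            vd (N' + 1 - j) (I ∩ insert i A) c n (.ord 1 (insert i A) ::ₘ .ord 1 B ::ₘ ms) =
            vd (N' + 1) (I ∩ insert i A) c n (.ord 1 (insert i A) ::ₘ .ord 1 B ::ₘ ms) +
            ∑ j ∈ (range dl).filter (fun j => j ≤ N'), vd (N' - j) (I ∩ insert i A) c n
              (.ord 1 (insert i A) ::ₘ .ord 1 B ::ₘ ms) := by
          rw [sum_filter, sum_filter, sum_range_succ', Nat.sub_zero, if_pos (Nat.zero_le _),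
            add_comm]
          congr 1
          refine sum_congr rfl fun j _ => ?_
          by_cases h4 : j ≤ N'
          · rw [if_pos h4, if_pos (by omega), Nat.add_sub_add_right]
          · rw [if_neg h4, if_neg (by omega)]
        have h4 : (if dl + 1 ≤ N' + 1 then vd (N' + 1 - (dl + 1)) (I ∩ insert i A) c n
            (.ord 1 (insert i A) ::ₘ ms) else 0) = if dl ≤ N' then vd (N' - dl)
              (I ∩ insert i A) c n (.ord 1 (insert i A) ::ₘ ms) else 0 := by
          by_cases h4 : dl ≤ N'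
          · rw [if_pos h4, if_pos (by omega), Nat.add_sub_add_right]
          · rw [if_neg h4, if_neg (by omega)]
        rw [h3, h4, add_assoc, ih N', hh]
        have h5 : N' + 1 - (dl + 1) - 1 = N' - dl - 1 := by omega
        rw [h5, if_pos (show 1 ≤ N' + 1 by omega), if_pos (show 1 ≤ N' + 1 by omega),
          if_pos (show 1 ≤ N' + 1 by omega), Nat.add_sub_cancel]
        have h6 : (if 2 ≤ N' + 1 then k (N' + 1 - 2) else 0) = if 1 ≤ N' then k (N' - 1) else 0 := by
          by_cases h6 : 1 ≤ N'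
          · rw [if_pos h6, if_pos (by omega)]
            rfl
          · rw [if_neg h6, if_neg (by omega)]
        have h7 : (if dl + 1 + 1 ≤ N' + 1 then k (N' - dl - 1) - f (N' - dl - 1) else 0) =
            if dl + 1 ≤ N' then k (N' - dl - 1) - f (N' - dl - 1) else 0 := by
          by_cases h7 : dl + 1 ≤ N'
          · rw [if_pos h7, if_pos (by omega)]
          · rw [if_neg h7, if_neg (by omega)]
        rw [h6, h7]
        ring
  rw [key dl N, vd_clu (N + E) c n (E + 1) dl (As := [A]) (fun A' hA' => by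
    rw [List.mem_singleton.1 hA']
    exact hiA) hi ms]
  have hmap : ((([A] : List (Finset ℕ)).map (fun A => Kd.ord (E + 1) A) : List Kd) : Multiset Kd) +
      ms = .ord (E + 1) A ::ₘ ms := by
    rw [List.map_singleton, Multiset.coe_singleton, Multiset.singleton_add]
  have hin : inter [A] = A := by
    ext x
    rw [Pool.Agent.GD.mem_inter (by simp)]
    simp
  have hJ1 : I.erase i ∩ A = I ∩ A := by
    ext x
    rw [Finset.mem_inter, Finset.mem_inter, mem_erase]
    constructor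
    · rintro ⟨⟨-, h1⟩, h2⟩
      exact ⟨h1, h2⟩
    · rintro ⟨h1, h2⟩
      exact ⟨⟨fun h => hiA (h ▸ h2), h1⟩, h2⟩
  have hJ2 : insert i (I ∩ A) = I ∩ insert i A := by
    ext x
    rw [mem_insert, Finset.mem_inter, Finset.mem_inter, mem_insert]
    constructor
    · rintro (rfl | ⟨h1, h2⟩)
      · exact ⟨hi, Or.inl rfl⟩
      · exact ⟨h1, Or.inr h2⟩
    · rintro ⟨h1, h2⟩
      rcases h2 with h2 | h2
      · exact Or.inl h2
      · exact Or.inr ⟨h1, h2⟩
  have htr : trx (E + 1) dl 1 = E + (dl + 1) := by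
    unfold trx
    rw [Nat.add_sub_cancel]
    ring
  rw [hmap, hin, hJ1, hJ2, List.length_singleton, htr, vd_cons (N + E) I c n ms E (insert i A)
    (by omega), Nat.add_sub_cancel]
  have h8 : (if E + (dl + 1) ≤ N + E then vd (N + E - (E + (dl + 1))) (I ∩ A) c n ms -
      vd (N + E - (E + (dl + 1))) (I ∩ insert i A) c n ms else 0) =
      if dl + 1 ≤ N then k (N - dl - 1) - f (N - dl - 1) else 0 := by
    by_cases h8 : dl + 1 ≤ N
    · rw [if_pos h8, if_pos (by omega), show N + E - (E + (dl + 1)) = N - dl - 1 by omega]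
    · rw [if_neg h8, if_neg (by omega)]
  rw [h8]
  rcases Nat.eq_zero_or_pos N with hN | hN
  · rw [vd_cons_lt (N + E) I c n ms (E + 1) A (by omega), if_neg (show ¬ 1 ≤ N by omega)]
    ring
  · rw [vd_cons (N + E) I c n ms (E + 1) A (by omega), if_pos (show 1 ≤ N by omega),
      show N + E - (E + 1) = N - 1 by omega]
    ring

/-- The virtual dimension does not depend on the position of the first member. -/
theorem vd_rot (D : ℕ) (I : Finset ℕ) (c : ℕ → ℕ) (n e dl i : ℕ) {A : Finset ℕ}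
    {L : List (Finset ℕ)} (ms : Multiset Kd) :
    vd D I c n (.cl e dl i (A :: L) ::ₘ ms) = vd D I c n (.cl e dl i (L ++ [A]) ::ₘ ms) := by
  refine vd_congr (fun _ _ => rfl) fun I' _ => ?_
  rw [Multiset.map_cons, Multiset.map_cons, Multiset.prod_cons, Multiset.prod_cons]
  congr 1
  have h1 : inter (A :: L) = inter (L ++ [A]) := by
    ext x
    rw [Pool.Agent.GD.mem_inter (by simp), Pool.Agent.GD.mem_inter (by simp)]
    simp only [List.mem_cons, List.mem_append, List.mem_singleton, List.not_mem_nil, or_false]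
    constructor
    · intro h A' hA'
      exact h A' hA'.symm
    · intro h A' hA'
      exact h A' hA'.symm
  have h2 : (A :: L).length = (L ++ [A]).length := by simp
  show (if i ∈ I' then (if I'.erase i ⊆ inter (A :: L) then
      1 - PowerSeries.X ^ trx e dl (A :: L).length else 1)
    else (((A :: L).map fun A => if I' ⊆ A then 1 - PowerSeries.X ^ e else 1).prod :
      PowerSeries ℤ)) = if i ∈ I' then (if I'.erase i ⊆ inter (L ++ [A]) then
      1 - PowerSeries.X ^ trx e dl (L ++ [A]).length else 1)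
    else ((L ++ [A]).map fun A => if I' ⊆ A then 1 - PowerSeries.X ^ e else 1).prod
  rw [h1, h2]
  congr 1
  rw [List.map_cons, List.prod_cons, List.map_append, List.prod_append, List.map_singleton,
    List.prod_singleton, mul_comm]

/-! ### The defects -/

section dl

variable {d J D : ℕ} {σ : St} {I : Finset ℕ}

/-- The dimension of a state with two killed vectors. -/
theorem H_kill2 (hD : D ≤ d) (hd : 1 ≤ d) (hI : I ⊆ range J) {i : ℕ} (hiJ : i < J)
    (hc : 1 ≤ σ.c i) (hw : 1 ≤ σ.w) {A : Finset ℕ} (hA : A ⊆ range J)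
    (hm : ∀ k ∈ σ.ms, k.Ok d J) :
    HI d D (bt J σ.c σ.w) I (.ord 1 A ::ₘ .ord 1 ((range J).erase i) ::ₘ σ.ms) ≤
      ((σ.lo i 1).lw 1).H d J I D := by
  refine (HI_ord_le hD (bt J σ.c σ.w) I 1 hA _).trans (le_of_eq ?_)
  rw [Multiset.cons_swap]
  have h1 := St.H_kill (σ := σ.ad (.ord 1 (range J))) (D := D) hD hiJ hc hI (by
    intro k hk
    rcases Multiset.mem_cons.1 hk with rfl | hk
    · exact ⟨le_rfl, hd, Subset.rfl⟩
    · exact hm k hk)
  have h2 := St.H_killw (σ := σ.lo i 1) (D := D) hD hw hI hm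
  exact h1.trans h2

theorem V_kill2 {i : ℕ} (hI : I ⊆ range J) (hiJ : i < J) (hc : 1 ≤ σ.c i) (hw : 1 ≤ σ.w)
    {A : Finset ℕ} (hIA : I ⊆ A) :
    vd D I σ.c (σ.n J) (.ord 1 A ::ₘ .ord 1 ((range J).erase i) ::ₘ σ.ms) =
      ((σ.lo i 1).lw 1).V J I D := by
  rw [vd_ord_congr D I σ.c (σ.n J) 1 (A := A) (A' := range J) (by
    rw [inter_eq_right.2 hIA, inter_eq_right.2 hI]), Multiset.cons_swap]
  have h1 := St.V_kill (σ := σ.ad (.ord 1 (range J))) (D := D) hiJ hc hI
  have h2 := St.V_killw (σ := σ.lo i 1) (D := D) hw hI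
  exact h1.trans h2

/-- **CL1 for the defects.** -/
theorem cl1_dl (hD : D ≤ d) (hI : I ⊆ range J) (hm : ∀ k ∈ σ.ms, k.Ok d J) {i e dl : ℕ}
    {L : List (Finset ℕ)} {A : Finset ℕ} (hk : (Kd.cl e dl i (L ++ [A])).Ok d J)
    (hL : 1 ≤ L.length) (hi : i ∈ I) (hc : 1 ≤ σ.c i) (hw : 1 ≤ σ.w)
    (h : ∀ s, s + e ≤ D + 1 →
      (((σ.lo i 1).lw 1).ad (.cl e dl i L)).dl d J (I ∩ insert i A) s ≤ 0) :
    (σ.ad (.cl e dl i (L ++ [A]))).dl d J I D ≤
      (σ.wm (.ord (e - 1) (insert i A) ::ₘ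
        (((L.map (Kd.ord e) : List Kd) : Multiset Kd) + σ.ms))).dl d J I D := by
  obtain ⟨he, -, htr, hiJ, hAs⟩ := hk
  obtain ⟨E, rfl⟩ : ∃ E, e = E + 1 := ⟨e - 1, by omega⟩
  have hE : 1 ≤ E := by omega
  have hlen : (L ++ [A]).length = L.length + 1 := by
    rw [List.length_append, List.length_singleton]
  have hl : L.length + 1 + 1 ≤ d := by
    unfold trx at htr
    rw [hlen, Nat.add_sub_cancel] at htr
    have h1 : (L.length + 1) * 1 ≤ (L.length + 1) * E := Nat.mul_le_mul_left _ hE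
    omega
  have hA : A ⊆ (range J).erase i := hAs A (List.mem_append_right _ (List.mem_singleton_self A))
  have hLs : ∀ A' ∈ L, A' ⊆ (range J).erase i := fun A' hA' =>
    hAs A' (List.mem_append_left _ hA')
  have hiB : i ∉ (range J).erase i := notMem_erase i _
  have hiL : ∀ A' ∈ L, i ∉ A' := fun A' hA' h => hiB (hLs A' hA' h)
  have hins : insert i A ⊆ range J := by
    rw [insert_subset_iff]
    exact ⟨mem_range.2 hiJ, hA.trans (erase_subset _ _)⟩
  have h1 := cl1 (β := bt J σ.c σ.w) (dl := dl) hD hE hL (by omega) hiL hiB hLs hA hi σ.ms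
  have h2 := vd_cl1 D σ.c (σ.n J) (dl := dl) hE hL hi hiL hiB hA σ.ms
  have hLok : (Kd.cl (E + 1) dl i L).Ok d J := by
    refine ⟨he, hL, ?_, hiJ, hLs⟩
    refine le_trans ?_ htr
    unfold trx
    rw [hlen, Nat.add_sub_cancel, add_mul]
    omega
  have h3 : ∀ s ∈ range (D + 1 - E), (HI d s (bt J σ.c σ.w) (I ∩ insert i A)
      (.cl (E + 1) dl i L ::ₘ .ord 1 (insert i A) ::ₘ .ord 1 ((range J).erase i) ::ₘ σ.ms) : ℤ) ≤
      vd s (I ∩ insert i A) σ.c (σ.n J)
      (.cl (E + 1) dl i L ::ₘ .ord 1 (insert i A) ::ₘ .ord 1 ((range J).erase i) ::ₘ σ.ms) := by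
    intro s hs
    rw [mem_range] at hs
    have e1 : (Kd.cl (E + 1) dl i L ::ₘ .ord 1 (insert i A) ::ₘ .ord 1 ((range J).erase i) ::ₘ
        σ.ms) = .ord 1 (insert i A) ::ₘ .ord 1 ((range J).erase i) ::ₘ
          (σ.ad (.cl (E + 1) dl i L)).ms := by
      show _ = _ ::ₘ _ ::ₘ (_ ::ₘ σ.ms)
      rw [Multiset.cons_swap, Multiset.cons_swap (Kd.cl (E + 1) dl i L)]
    have h4 := H_kill2 (σ := σ.ad (.cl (E + 1) dl i L)) (D := s) (d := d) (by omega) (by omega)
      (inter_subset_left.trans hI : I ∩ insert i A ⊆ range J) hiJ hc hw hins (by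
        intro k hk
        rcases Multiset.mem_cons.1 hk with rfl | hk
        · exact hLok
        · exact hm k hk)
    have h5 := V_kill2 (σ := σ.ad (.cl (E + 1) dl i L)) (D := s) (J := J)
      (inter_subset_left.trans hI : I ∩ insert i A ⊆ range J) hiJ hc hw
      (inter_subset_right : I ∩ insert i A ⊆ insert i A)
    have h6 := h s (by omega)
    unfold St.dl at h6
    rw [e1]
    change (HI d s (bt J σ.c σ.w) (I ∩ insert i A) _ : ℤ) ≤
      vd s (I ∩ insert i A) (σ.ad (.cl (E + 1) dl i L)).c ((σ.ad (.cl (E + 1) dl i L)).n J) _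
    rw [h5]
    have h7 : (HI d s (bt J σ.c σ.w) (I ∩ insert i A) (.ord 1 (insert i A) ::ₘ
      .ord 1 ((range J).erase i) ::ₘ (σ.ad (.cl (E + 1) dl i L)).ms) : ℤ) ≤
      (((σ.ad (.cl (E + 1) dl i L)).lo i 1).lw 1).H d J (I ∩ insert i A) s := by
      exact_mod_cast h4
    change (((((σ.ad (.cl (E + 1) dl i L)).lo i 1).lw 1).H d J (I ∩ insert i A) s : ℕ) : ℤ) -
      (((σ.ad (.cl (E + 1) dl i L)).lo i 1).lw 1).V J (I ∩ insert i A) s ≤ 0 at h6
    linarith
  have h4 := sum_le_sum h3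
  unfold St.dl
  show (HI d D (bt J σ.c σ.w) I (.cl (E + 1) dl i (L ++ [A]) ::ₘ σ.ms) : ℤ) -
      vd D I σ.c (σ.n J) (.cl (E + 1) dl i (L ++ [A]) ::ₘ σ.ms) ≤
    (HI d D (bt J σ.c σ.w) I (.ord (E + 1 - 1) (insert i A) ::ₘ
      (((L.map (Kd.ord (E + 1)) : List Kd) : Multiset Kd) + σ.ms)) : ℤ) -
    vd D I σ.c (σ.n J) (.ord (E + 1 - 1) (insert i A) ::ₘ
      (((L.map (Kd.ord (E + 1)) : List Kd) : Multiset Kd) + σ.ms))
  rw [Nat.add_sub_cancel, h2]
  have h5 : (HI d D (bt J σ.c σ.w) I (.cl (E + 1) dl i (L ++ [A]) ::ₘ σ.ms) : ℤ) ≤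
      HI d D (bt J σ.c σ.w) I (.ord E (insert i A) ::ₘ
        (((L.map (Kd.ord (E + 1)) : List Kd) : Multiset Kd) + σ.ms)) +
      ∑ s ∈ range (D + 1 - E), (HI d s (bt J σ.c σ.w) (I ∩ insert i A) (.cl (E + 1) dl i L ::ₘ
        .ord 1 (insert i A) ::ₘ .ord 1 ((range J).erase i) ::ₘ σ.ms) : ℤ) := by
    exact_mod_cast h1
  linarith

/-- CL1 with the first member tied. -/
theorem cl1_dl' (hD : D ≤ d) (hI : I ⊆ range J) (hm : ∀ k ∈ σ.ms, k.Ok d J) {i e dl : ℕ}
    {L : List (Finset ℕ)} {A : Finset ℕ} (hk : (Kd.cl e dl i (A :: L)).Ok d J)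
    (hL : 1 ≤ L.length) (hi : i ∈ I) (hc : 1 ≤ σ.c i) (hw : 1 ≤ σ.w)
    (h : ∀ s, s + e ≤ D + 1 →
      (((σ.lo i 1).lw 1).ad (.cl e dl i L)).dl d J (I ∩ insert i A) s ≤ 0) :
    (σ.ad (.cl e dl i (A :: L))).dl d J I D ≤
      (σ.wm (.ord (e - 1) (insert i A) ::ₘ
        (((L.map (Kd.ord e) : List Kd) : Multiset Kd) + σ.ms))).dl d J I D := by
  obtain ⟨he, -, htr, hiJ, hAs⟩ := hk
  have hlen : (L ++ [A]).length = (A :: L).length := by simp
  have hl : L.length + 1 + 1 ≤ d := by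
    unfold trx at htr
    rw [List.length_cons] at htr
    have h1 : (L.length + 1) * 1 ≤ (L.length + 1) * (e - 1) := Nat.mul_le_mul_left _ (by omega)
    omega
  have hiB : i ∉ (range J).erase i := notMem_erase i _
  have hk' : (Kd.cl e dl i (L ++ [A])).Ok d J := by
    refine ⟨he, by simp, by rw [hlen]; exact htr, hiJ, fun A' hA' => hAs A' ?_⟩
    rcases List.mem_append.1 hA' with h1 | h1
    · exact List.mem_cons_of_mem _ h1
    · rw [List.mem_singleton.1 h1]
      exact List.mem_cons_self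
  refine le_trans (le_of_eq ?_) (cl1_dl hD hI hm hk' hL hi hc hw h)
  unfold St.dl
  show (HI d D (bt J σ.c σ.w) I (.cl e dl i (A :: L) ::ₘ σ.ms) : ℤ) -
      vd D I σ.c (σ.n J) (.cl e dl i (A :: L) ::ₘ σ.ms) =
    (HI d D (bt J σ.c σ.w) I (.cl e dl i (L ++ [A]) ::ₘ σ.ms) : ℤ) -
      vd D I σ.c (σ.n J) (.cl e dl i (L ++ [A]) ::ₘ σ.ms)
  rw [vd_rot, HI_rot hD (fun h => hiB (hAs A List.mem_cons_self h))
    (fun A' hA' h => hiB (hAs A' (List.mem_cons_of_mem _ hA') h)) (by omega)]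

/-- **CL1 for single-point clusters, for the defects.** -/
theorem cl1a_dl (hD : D ≤ d) (hI : I ⊆ range J) (hm : ∀ k ∈ σ.ms, k.Ok d J) {i e dl : ℕ}
    {A : Finset ℕ} (hk : (Kd.cl e dl i [A]).Ok d J) (hi : i ∈ I) (heD : e ≤ D + 1)
    (hc : 1 ≤ σ.c i) (hw : 1 ≤ σ.w)
    (hH : 1 ≤ dl → ∀ e' dl' As, .cl e' dl' i As ∈ σ.ms → 1 ≤ dl' →
      D + 1 - e ≤ As.length * (e' - 1) + 1 + (((I ∩ insert i A).erase i) ∩ inter As).card)
    (h1 : ∀ s, s + e ≤ D + 1 → ((σ.lo i 1).lw 1).dl d J (I ∩ insert i A) s ≤ 0)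
    (h2 : ∀ s, s + e ≤ D + 1 → (σ.lw 1).dl d J (I ∩ insert i A) s ≤ 0) :
    (σ.ad (.cl e dl i [A])).dl d J I D ≤ (σ.ad (.ord (e - 1) (insert i A))).dl d J I D := by
  obtain ⟨he, -, htr, hiJ, hAs⟩ := hk
  obtain ⟨E, rfl⟩ : ∃ E, e = E + 1 := ⟨e - 1, by omega⟩
  have hE : 1 ≤ E := by omega
  have hd : 1 ≤ d := by
    unfold trx at htr
    omega
  have hA : A ⊆ (range J).erase i := hAs A (List.mem_singleton_self A)
  have hiB : i ∉ (range J).erase i := notMem_erase i _
  have hins : insert i A ⊆ range J := by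
    rw [insert_subset_iff]
    exact ⟨mem_range.2 hiJ, hA.trans (erase_subset _ _)⟩
  have hI' : I ∩ insert i A ⊆ range J := inter_subset_left.trans hI
  have g1 := cl1a (β := bt J σ.c σ.w) (dl := dl) hD hE (by omega) hiB hA hi σ.ms
    (fun h0 e' dl' As h3 h4 => by
      have h5 := hH h0 e' dl' As h3 h4
      omega)
  have g2 := vd_cl1a D σ.c (σ.n J) (dl := dl) hE (by omega) hi hiB hA σ.ms
  have a1 : ∀ s ≤ D - E, (HI d s (bt J σ.c σ.w) (I ∩ insert i A)
      (.ord 1 (insert i A) ::ₘ .ord 1 ((range J).erase i) ::ₘ σ.ms) : ℤ) ≤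
      vd s (I ∩ insert i A) σ.c (σ.n J)
        (.ord 1 (insert i A) ::ₘ .ord 1 ((range J).erase i) ::ₘ σ.ms) := by
    intro s hs
    have h4 := H_kill2 (σ := σ) (D := s) (d := d) (by omega) hd hI' hiJ hc hw hins hm
    have h5 := V_kill2 (σ := σ) (D := s) (J := J) hI' hiJ hc hw
      (inter_subset_right : I ∩ insert i A ⊆ insert i A)
    have h6 := h1 s (by omega)
    unfold St.dl at h6
    rw [h5]
    have h7 : (HI d s (bt J σ.c σ.w) (I ∩ insert i A) (.ord 1 (insert i A) ::ₘ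
      .ord 1 ((range J).erase i) ::ₘ σ.ms) : ℤ) ≤ ((σ.lo i 1).lw 1).H d J (I ∩ insert i A) s := by
      exact_mod_cast h4
    linarith
  have a2 : ∀ s ≤ D - E, (HI d s (bt J σ.c σ.w) (I ∩ insert i A)
      (.ord 1 (insert i A) ::ₘ σ.ms) : ℤ) ≤
      vd s (I ∩ insert i A) σ.c (σ.n J) (.ord 1 (insert i A) ::ₘ σ.ms) := by
    intro s hs
    have h4 : HI d s (bt J σ.c σ.w) (I ∩ insert i A) (.ord 1 (insert i A) ::ₘ σ.ms) ≤
        (σ.lw 1).H d J (I ∩ insert i A) s :=
      (HI_ord_le (by omega) (bt J σ.c σ.w) (I ∩ insert i A) 1 hins _).trans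
        (le_of_eq (St.H_killw (σ := σ) (D := s) (by omega) hw hI' hm))
    have h5 : vd s (I ∩ insert i A) σ.c (σ.n J) (.ord 1 (insert i A) ::ₘ σ.ms) =
        (σ.lw 1).V J (I ∩ insert i A) s := by
      rw [vd_ord_congr s (I ∩ insert i A) σ.c (σ.n J) 1 (A := insert i A) (A' := range J) (by
        rw [inter_eq_right.2 inter_subset_right, inter_eq_right.2 hI'])]
      exact St.V_killw (σ := σ) (D := s) hw hI'
    have h6 := h2 s (by omega)
    unfold St.dl at h6
    rw [h5]
    have h7 : (HI d s (bt J σ.c σ.w) (I ∩ insert i A) (.ord 1 (insert i A) ::ₘ σ.ms) : ℤ) ≤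
        (σ.lw 1).H d J (I ∩ insert i A) s := by
      exact_mod_cast h4
    linarith
  have a3 : (∑ j ∈ (range dl).filter (fun j => j ≤ D - E), (HI d (D - E - j) (bt J σ.c σ.w)
      (I ∩ insert i A) (.ord 1 (insert i A) ::ₘ .ord 1 ((range J).erase i) ::ₘ σ.ms) : ℤ)) ≤
      ∑ j ∈ (range dl).filter (fun j => j ≤ D - E), vd (D - E - j) (I ∩ insert i A) σ.c (σ.n J)
        (.ord 1 (insert i A) ::ₘ .ord 1 ((range J).erase i) ::ₘ σ.ms) :=
    sum_le_sum fun j _ => a1 _ (by omega)
  have a4 : (((if dl ≤ D - E then HI d (D - E - dl) (bt J σ.c σ.w) (I ∩ insert i A)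
      (.ord 1 (insert i A) ::ₘ σ.ms) else 0 : ℕ)) : ℤ) ≤
      if dl ≤ D - E then vd (D - E - dl) (I ∩ insert i A) σ.c (σ.n J)
        (.ord 1 (insert i A) ::ₘ σ.ms) else 0 := by
    split_ifs
    · exact a2 _ (by omega)
    · exact le_rfl
  have g3 : (HI d D (bt J σ.c σ.w) I (.cl (E + 1) dl i [A] ::ₘ σ.ms) : ℤ) ≤
      HI d D (bt J σ.c σ.w) I (.ord E (insert i A) ::ₘ σ.ms) +
      ((∑ j ∈ (range dl).filter (fun j => j ≤ D - E), (HI d (D - E - j) (bt J σ.c σ.w)
      (I ∩ insert i A) (.ord 1 (insert i A) ::ₘ .ord 1 ((range J).erase i) ::ₘ σ.ms) : ℤ)) +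
      ((if dl ≤ D - E then HI d (D - E - dl) (bt J σ.c σ.w) (I ∩ insert i A)
      (.ord 1 (insert i A) ::ₘ σ.ms) else 0 : ℕ) : ℤ)) := by
    exact_mod_cast g1
  unfold St.dl
  show (HI d D (bt J σ.c σ.w) I (.cl (E + 1) dl i [A] ::ₘ σ.ms) : ℤ) -
      vd D I σ.c (σ.n J) (.cl (E + 1) dl i [A] ::ₘ σ.ms) ≤
    (HI d D (bt J σ.c σ.w) I (.ord (E + 1 - 1) (insert i A) ::ₘ σ.ms) : ℤ) -
    vd D I σ.c (σ.n J) (.ord (E + 1 - 1) (insert i A) ::ₘ σ.ms)
  rw [Nat.add_sub_cancel, g2]
  linarith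

end dl

end Pool.Agent.GD.AL

end

section

/-!
# General d, ALPHA, part C: the forms of `CL1` for states

A cluster off its level (`St.cl_inact`), a cluster with one member and without derivatives (`St.cl_one`), `CL1`
with any tied member (`St.cl1`), `CL1` for one member (`St.cl1a`), the condition on pairs (`hh_drop'`).
-/

set_option autoImplicit false

namespace Pool.Agent.GD.AL

open Finset MvPolynomial Pool.Agent.H51.TB Pool.Agent.V7.ST
open Pool.Agent.V7 (msk)

section

variable {ν : Type} [Fintype ν] [DecidableEq ν] {d D : ℕ} {β : ν → ℕ} {I : Finset ℕ}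

/-- The points of a cluster off its level at a special position. -/
theorem HI_inact (hD : D ≤ d) {e dl i : ℕ} {As : List (Finset ℕ)} (hl : As.length ≤ d)
    (ms : Multiset Kd) :
    HI d D β I (.cl e dl i As ::ₘ ms) ≤ HI d D β I (mbI e i As + ms) := by
  obtain ⟨m, hm, -⟩ := exists_conf (LS d D β I) ms
  let n : Fin As.length → Kd := fun x => .ord e (insert i (As.getD x ∅))
  obtain ⟨P, hP⟩ := (gn_XX (d := d) hD β I (Sum.elim m n)).exists
  let q : ν × Fin (d + 1) → ℂ := fun z =>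
    if h : z.2.1 < As.length then (if β z.1 = i then 0 else P (Sum.inr ⟨z.2.1, h⟩) (z.1, 0)) else 0
  have h1 := HI_le (d := d) hD β I (Sum.elim m fun _ : Unit => Kd.cl e dl i As)
    (Sum.elim (fun x => P (Sum.inl x)) fun _ : Unit => q)
  rw [map_elim, map_unit, hm] at h1
  rw [map_elim, hm] at hP
  have h2 : (univ : Finset (Fin As.length)).val.map n = mbI e i As :=
    map_getD As fun A => Kd.ord e (insert i A)
  rw [h2] at hP
  have h3 : ms + ({Kd.cl e dl i As} : Multiset Kd) = .cl e dl i As ::ₘ ms := by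
    rw [add_comm, Multiset.singleton_add]
  rw [h3] at h1
  rw [add_comm (mbI e i As) ms, ← hP]
  have := finite_XX (d := d) β D I (Sum.elim m n) P
  refine h1.trans (Submodule.finrank_mono fun Φ hΦ => ?_)
  rw [mem_XX] at hΦ ⊢
  refine ⟨hΦ.1, ?_⟩
  rintro (x | x)
  · exact hΦ.2 (Sum.inl x)
  · have h4 := (hΦ.2 (Sum.inr ())).1 ⟨x.1, by have := x.2; omega⟩ x.2
    have h5 : pt β (.cl e dl i As) ⟨x.1, by have := x.2; omega⟩ q =
        opt β (insert i (As.getD x ∅)) (P (Sum.inr x)) := by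
      funext s
      show (if β s ∈ As.getD x ∅ then 0 else if β s = i ∧ x.1 + 1 = As.length then
          - ∑ y : Fin (d + 1), (if y.1 + 1 < As.length then q (s, y) else 0)
        else q (s, ⟨x.1, _⟩)) = if β s ∈ insert i (As.getD x ∅) then 0 else P (Sum.inr x) (s, 0)
      by_cases h6 : β s ∈ As.getD x ∅
      · rw [if_pos h6, if_pos (mem_insert_of_mem h6)]
      · rw [if_neg h6]
        by_cases h7 : β s = i
        · rw [if_pos (mem_insert.2 (Or.inl h7))]
          have h8 : ∀ y : Fin (d + 1), q (s, y) = 0 := by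
            intro y
            show (if h : y.1 < As.length then (if β s = i then 0 else _) else 0) = _
            split_ifs <;> rfl
          split_ifs with h9
          · rw [neg_eq_zero]
            refine sum_eq_zero fun y _ => ?_
            rw [h8]
            split_ifs <;> rfl
          · exact h8 _
        · rw [if_neg (fun h => h7 h.1), if_neg (fun h => (mem_insert.1 h).elim h7 h6)]
          show (if h : x.1 < As.length then (if β s = i then 0 else P (Sum.inr ⟨x.1, h⟩) (s, 0))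
            else 0) = _
          rw [dif_pos x.2, if_neg h7]
    show Sat β I (.ord e (insert i (As.getD x ∅))) (P (Sum.inr x)) Φ
    rw [sat_ord]
    refine LinearMap.ext fun y => ?_
    have h6 := h4 y
    show Φ (lf (opt β (insert i (As.getD x ∅)) (P (Sum.inr x))) ^ e * y) = 0
    rw [← h5]
    exact h6

/-- A cluster with one member. -/
theorem HI_one_mb (hD : D ≤ d) {e i : ℕ} {A : Finset ℕ} (ms : Multiset Kd) :
    HI d D β I (.cl e 0 i [A] ::ₘ ms) ≤ HI d D β I (.ord e (insert i A) ::ₘ ms) := by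
  refine HI_repl hD β I (.cl e 0 i [A]) (.ord e (insert i A)) id (fun q Φ hq => ⟨?_, trivial⟩) ms
  intro x hx y
  have hx0 : x = 0 := by
    apply Fin.ext
    show x.1 = 0
    have : x.1 < 1 := hx
    omega
  subst hx0
  have h1 := hq.1 0 (by show (0 : ℕ) < 1; omega) y
  have h2 : pt β (.cl e 0 i [A]) 0 (id q) = pt β (.ord e (insert i A)) 0 q := by
    funext s
    show (if β s ∈ A then 0 else if β s = i ∧ (0 : Fin (d + 1)).1 + 1 = 1 then
        - ∑ y : Fin (d + 1), (if y.1 + 1 < 1 then q (s, y) else 0)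
      else q (s, 0)) = if β s ∈ insert i A then 0 else q (s, 0)
    by_cases h6 : β s ∈ A
    · rw [if_pos h6, if_pos (mem_insert_of_mem h6)]
    · rw [if_neg h6]
      by_cases h7 : β s = i
      · rw [if_pos (mem_insert.2 (Or.inl h7)), if_pos ⟨h7, rfl⟩, neg_eq_zero]
        exact sum_eq_zero fun y _ => if_neg (by omega)
      · rw [if_neg (fun h => h7 h.1), if_neg (fun h => (mem_insert.1 h).elim h7 h6)]
  rw [h2] at h1
  exact h1

end

/-- The members of a cluster may be specialised off the level. -/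
theorem vd_mbI (D : ℕ) (I : Finset ℕ) (c : ℕ → ℕ) (n e : ℕ) {i : ℕ} (hi : i ∉ I)
    (As : List (Finset ℕ)) (ms : Multiset Kd) :
    vd D I c n (mb e As + ms) = vd D I c n (mbI e i As + ms) := by
  refine vd_congr (fun _ _ => rfl) fun I' hI' => ?_
  rw [Multiset.map_add, Multiset.map_add, Multiset.prod_add, Multiset.prod_add]
  congr 1
  unfold mb mbI
  rw [Multiset.map_coe, Multiset.map_coe, List.map_map, List.map_map]
  rw [List.map_congr_left (g := Kd.P I' ∘ fun A => Kd.ord e (insert i A))]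
  intro A _
  show Kd.P I' (.ord e A) = Kd.P I' (.ord e (insert i A))
  refine P_ord_congr hI' e ?_
  ext x
  rw [Finset.mem_inter, Finset.mem_inter, mem_insert]
  constructor
  · rintro ⟨h1, h2⟩
    exact ⟨Or.inr h1, h2⟩
  · rintro ⟨h1 | h1, h2⟩
    · exact absurd (h1 ▸ h2) hi
    · exact ⟨h1, h2⟩

theorem vd_one_mb (D : ℕ) (I : Finset ℕ) (c : ℕ → ℕ) (n : ℕ) {e i : ℕ} (he : 1 ≤ e)
    {A : Finset ℕ} (ms : Multiset Kd) :
    vd D I c n (.cl e 0 i [A] ::ₘ ms) = vd D I c n (.ord e (insert i A) ::ₘ ms) := by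
  refine vd_congr (fun _ _ => rfl) fun I' hI' => ?_
  rw [Multiset.map_cons, Multiset.map_cons, Multiset.prod_cons, Multiset.prod_cons]
  congr 1
  have h1 : trx e 0 [A].length = e := by
    unfold trx
    rw [List.length_singleton]
    omega
  have h2 : inter [A] = A := by
    ext x
    rw [Pool.Agent.GD.mem_inter (by simp)]
    simp
  show (if i ∈ I' then (if I'.erase i ⊆ inter [A] then 1 - PowerSeries.X ^ trx e 0 [A].length else 1)
    else (([A].map fun A => if I' ⊆ A then 1 - PowerSeries.X ^ e else 1).prod : PowerSeries ℤ)) =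
    if I' ⊆ insert i A then 1 - PowerSeries.X ^ e else 1
  rw [h1, h2, List.map_singleton, List.prod_singleton]
  by_cases h3 : i ∈ I'
  · rw [if_pos h3]
    have h4 : I'.erase i ⊆ A ↔ I' ⊆ insert i A := subset_insert_iff.symm
    by_cases h5 : I' ⊆ insert i A
    · rw [if_pos (h4.2 h5), if_pos h5]
    · rw [if_neg (fun h => h5 (h4.1 h)), if_neg h5]
  · rw [if_neg h3]
    have h4 : I' ⊆ A ↔ I' ⊆ insert i A :=
      ⟨fun h => h.trans (subset_insert _ _), fun h x hx => by
        rcases mem_insert.1 (h hx) with h5 | h5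
        · exact absurd (h5 ▸ hx) h3
        · exact h5⟩
    by_cases h5 : I' ⊆ insert i A
    · rw [if_pos (h4.2 h5), if_pos h5]
    · rw [if_neg (fun h => h5 (h4.1 h)), if_neg h5]

section

variable {d J D : ℕ} {σ : St} {I : Finset ℕ}

theorem AdmC.len {e dl i : ℕ} {As : List (Finset ℕ)} (hk : AdmC d J e (.cl e dl i As)) :
    As.length ≤ d := by
  obtain ⟨dl', i', As', h, he, -, htr, -⟩ := hk
  injection h with h1 h2 h3 h4
  subst h4
  unfold trx at htr
  have h5 : As.length * 1 ≤ As.length * (e - 1) := Nat.mul_le_mul_left _ (by omega)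
  omega

/-- A cluster off its level. -/
theorem St.cl_inact (hD : D ≤ d) (_hI : I ⊆ range J) {e dl i : ℕ} {As : List (Finset ℕ)}
    (hk : AdmC d J e (.cl e dl i As)) (hi : i ∉ I) :
    (σ.ad (.cl e dl i As)).H d J I D ≤ (σ.wm (mbI e i As + σ.ms)).H d J I D ∧
      (σ.ad (.cl e dl i As)).V J I D = (σ.wm (mbI e i As + σ.ms)).V J I D := by
  refine ⟨HI_inact hD hk.len σ.ms, ?_⟩
  show vd D I σ.c (σ.n J) (.cl e dl i As ::ₘ σ.ms) = vd D I σ.c (σ.n J) (mbI e i As + σ.ms)
  rw [vd_clu_not D σ.c (σ.n J) e dl hi σ.ms]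
  exact vd_mbI D I σ.c (σ.n J) e hi As σ.ms

/-- A cluster with one member and without derivatives. -/
theorem St.cl_one (hD : D ≤ d) (_hI : I ⊆ range J) {e i : ℕ} {A : Finset ℕ}
    (hk : AdmC d J e (.cl e 0 i [A])) :
    (σ.ad (.cl e 0 i [A])).H d J I D ≤ (σ.ad (.ord e (insert i A))).H d J I D ∧
      (σ.ad (.cl e 0 i [A])).V J I D = (σ.ad (.ord e (insert i A))).V J I D := by
  have he := hk.ok.1
  exact ⟨HI_one_mb hD σ.ms, vd_one_mb D I σ.c (σ.n J) (by omega) σ.ms⟩

/-- The order of the members. -/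
theorem dl_rot (hD : D ≤ d) {e dl i : ℕ} {A : Finset ℕ} (hiA : i ∉ A) (L₁ : List (Finset ℕ)) :
    ∀ L₂ : List (Finset ℕ), (∀ A' ∈ L₁, i ∉ A') → (∀ A' ∈ L₂, i ∉ A') →
      L₁.length + 1 + L₂.length ≤ d →
      (σ.ad (.cl e dl i (L₁ ++ A :: L₂))).dl d J I D =
        (σ.ad (.cl e dl i (A :: (L₂ ++ L₁)))).dl d J I D := by
  induction L₁ with
  | nil =>
    intro L₂ _ _ _
    rw [List.nil_append, List.append_nil]
  | cons a L₁ ih =>
    intro L₂ h1 h2 hl
    have h3 : (σ.ad (.cl e dl i (a :: L₁ ++ A :: L₂))).dl d J I D =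
        (σ.ad (.cl e dl i ((L₁ ++ A :: L₂) ++ [a]))).dl d J I D := by
      unfold St.dl
      show (HI d D (bt J σ.c σ.w) I (.cl e dl i (a :: (L₁ ++ A :: L₂)) ::ₘ σ.ms) : ℤ) -
          vd D I σ.c (σ.n J) (.cl e dl i (a :: (L₁ ++ A :: L₂)) ::ₘ σ.ms) =
        (HI d D (bt J σ.c σ.w) I (.cl e dl i ((L₁ ++ A :: L₂) ++ [a]) ::ₘ σ.ms) : ℤ) -
          vd D I σ.c (σ.n J) (.cl e dl i ((L₁ ++ A :: L₂) ++ [a]) ::ₘ σ.ms)
      rw [vd_rot, HI_rot hD (h1 a List.mem_cons_self) (fun A' hA' => by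
        rw [List.mem_append, List.mem_cons] at hA'
        rcases hA' with h | h | h
        · exact h1 A' (List.mem_cons_of_mem _ h)
        · rw [h]
          exact hiA
        · exact h2 A' h) (by
          rw [List.length_cons] at hl
          rw [List.length_append, List.length_cons]
          omega)]
    have h4 : (L₁ ++ A :: L₂) ++ [a] = L₁ ++ A :: (L₂ ++ [a]) := by simp
    have h5 : (L₂ ++ [a]) ++ L₁ = L₂ ++ a :: L₁ := by simp
    rw [h3, h4, ih (L₂ ++ [a]) (fun A' hA' => h1 A' (List.mem_cons_of_mem _ hA')) (fun A' hA' => by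
      rw [List.mem_append, List.mem_singleton] at hA'
      rcases hA' with h | h
      · exact h2 A' h
      · rw [h]
        exact h1 a List.mem_cons_self) (by
        rw [List.length_cons] at hl
        rw [List.length_append, List.length_singleton]
        omega), h5]

theorem hh_rots {e dl i : ℕ} {A : Finset ℕ} {ms : Multiset Kd} (L₁ : List (Finset ℕ)) :
    ∀ L₂ : List (Finset ℕ), HH D I (.cl e dl i (L₁ ++ A :: L₂) ::ₘ ms) →
      HH D I (.cl e dl i ((L₂ ++ L₁) ++ [A]) ::ₘ ms) := by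
  induction L₁ with
  | nil =>
    intro L₂ h
    rw [List.append_nil]
    exact hh_rot h
  | cons a L₁ ih =>
    intro L₂ h
    have h3 : HH D I (.cl e dl i ((L₁ ++ A :: L₂) ++ [a]) ::ₘ ms) := hh_rot h
    have h4 : (L₁ ++ A :: L₂) ++ [a] = L₁ ++ A :: (L₂ ++ [a]) := by simp
    have h5 : (L₂ ++ [a]) ++ L₁ = L₂ ++ a :: L₁ := by simp
    rw [h4] at h3
    have h6 := ih (L₂ ++ [a]) h3
    rw [h5] at h6
    exact h6

/-- `CL1`, the tied member is `A`. -/
theorem St.cl1 (hD : D ≤ d) (hI : I ⊆ range J) {e dl i : ℕ} {L₁ L₂ : List (Finset ℕ)}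
    {A : Finset ℕ} (hm : ∀ k ∈ σ.ms, k.Ok d J) (hk : AdmC d J e (.cl e dl i (L₁ ++ A :: L₂)))
    (hi : i ∈ I) (h2 : 1 ≤ (L₂ ++ L₁).length) (hc : 1 ≤ σ.c i) (hw : 1 ≤ σ.w)
    (hlow : ∀ s, s + e ≤ D + 1 →
      (((σ.lo i 1).lw 1).ad (.cl e dl i (L₂ ++ L₁))).dl d J (I ∩ insert i A) s ≤ 0) :
    (σ.ad (.cl e dl i (L₁ ++ A :: L₂))).dl d J I D ≤
      (σ.wm (.ord (e - 1) (insert i A) ::ₘ (mb e (L₂ ++ L₁) + σ.ms))).dl d J I D := by
  have hlen := hk.len
  obtain ⟨he, -, htr, hiJ, hAs⟩ := hk.ok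
  have hiB : i ∉ (range J).erase i := notMem_erase i _
  have hlen2 : (L₁ ++ A :: L₂).length = (A :: (L₂ ++ L₁)).length := by
    simp only [List.length_append, List.length_cons]
    omega
  have hk' : (Kd.cl e dl i (A :: (L₂ ++ L₁))).Ok d J := by
    refine ⟨he, by simp, by rw [← hlen2]; exact htr, hiJ, fun A' hA' => hAs A' ?_⟩
    rw [List.mem_cons, List.mem_append] at hA'
    rw [List.mem_append, List.mem_cons]
    tauto
  rw [dl_rot hD (fun h => hiB (hAs A (by simp) h)) L₁ L₂ (fun A' hA' h => hiB (hAs A' (by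
    rw [List.mem_append]
    exact Or.inl hA') h)) (fun A' hA' h => hiB (hAs A' (by
    rw [List.mem_append, List.mem_cons]
    exact Or.inr (Or.inr hA')) h)) (by
    rw [List.length_append, List.length_cons] at hlen
    omega)]
  exact cl1_dl' hD hI hm hk' h2 hi hc hw hlow

/-- The condition on pairs is inherited. -/
theorem hh_drop' {s : ℕ} {e dl i : ℕ} {L₁ L₂ : List (Finset ℕ)} {A : Finset ℕ} {ms : Multiset Kd}
    (h2 : 1 ≤ (L₂ ++ L₁).length) (hs : s + e ≤ D + 1) (hT : (I \ insert i A).card + 1 ≤ e)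
    (h : HH D I (.cl e dl i (L₁ ++ A :: L₂) ::ₘ ms)) :
    HH s (I ∩ insert i A) (.cl e dl i (L₂ ++ L₁) ::ₘ ms) :=
  hh_drop h2 hs hT (hh_rots L₁ L₂ h)

/-- `CL1` for one member. -/
theorem St.cl1a (hD : D ≤ d) (hI : I ⊆ range J) {e dl i : ℕ} {A : Finset ℕ}
    (hm : ∀ k ∈ σ.ms, k.Ok d J) (hk : AdmC d J e (.cl e dl i [A])) (hi : i ∈ I)
    (hc : 1 ≤ σ.c i) (hw : 1 ≤ σ.w) (_hdl : 1 ≤ dl)
    (heD : e ≤ D + 1) (hH : HH D I (.cl e dl i [A] ::ₘ σ.ms))
    (hlow : ∀ s, s + e ≤ D + 1 → ((σ.lo i 1).lw 1).dl d J (I ∩ insert i A) s ≤ 0)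
    (hlow' : ∀ s, s + e ≤ D + 1 → (σ.lw 1).dl d J (I ∩ insert i A) s ≤ 0) :
    (σ.ad (.cl e dl i [A])).dl d J I D ≤ (σ.ad (.ord (e - 1) (insert i A))).dl d J I D :=
  cl1a_dl hD hI hm hk.ok hi heD hc hw (hh_one (by have := hk.ok.1; omega) hi hH) hlow hlow'

end

end Pool.Agent.GD.AL

end

section

/-!
# General d, ALPHA, part C: phase 1 (the other clusters)

The clusters which are not clusters for `CL2` at a level of `I` are removed one after the other (`ph1_core`); every
removal costs at most four times the weight of the cluster.  The lower terms are treated by `XC` in smaller degrees.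
-/

set_option autoImplicit false

namespace Pool.Agent.GD.AL

open Finset

section

variable {d J D e : ℕ} {σ : St} {I : Finset ℕ} {c0 : ℕ → ℕ} {n0 : ℕ}

/-- Bounds from both sides at all pairs. -/
def Bq (J : ℕ) (c0 : ℕ → ℕ) (n0 : ℕ) (η : ℝ) (σ : St) (I : Finset ℕ) (D : ℕ) : Prop :=
  ∀ I' ⊆ I, ∀ D' : ℕ, I'.card ≤ D' → D' + (I \ I').card ≤ D →
    η * nz c0 n0 I' D' ≤ (σ.V J I' D' : ℝ) ∧ (σ.V J I' D' : ℝ) ≤ 2 * nz c0 n0 I' D'

theorem Bq.bp {η : ℝ} (h : Bq J c0 n0 η σ I D) : BP J c0 n0 η σ I D :=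
  fun I' hI' D' h1 _ h3 => h I' hI' D' h1 h3

theorem Bq.lo {η m0 : ℝ} (hm0 : 1 ≤ m0) (hR : Rf J c0 n0 m0) (hI : I ⊆ range J) (hD : D ≤ d)
    (hm : ∀ k ∈ σ.ms, AdmO d J k ∨ AdmC d J e k) {a : ℕ} (ha : a < J) (hc : 1 ≤ σ.c a)
    (hη : 2 / m0 ≤ η) (hb : Bq J c0 n0 η σ I D) : Bq J c0 n0 (η - 2 / m0) (σ.lo a 1) I D := by
  have h0 : 2 * ((1 : ℕ) : ℝ) / c0 a ≤ 2 / m0 := by
    rw [Nat.cast_one, mul_one]
    exact div_le_div_of_nonneg_left (by norm_num) (by linarith only [hm0]) (hR.c a ha)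
  intro I' hI' D' h1 h2
  obtain ⟨h3, h4⟩ := near_lo (hR.mono hm0) hI hD hm ha hc (h0.trans hη) hb.bp I' hI' D' h1 h2
  obtain ⟨h5, h6⟩ := hb I' hI' D' h1 h2
  have h7 := mul_le_mul_of_nonneg_right h0 (nz_nn c0 n0 I' D')
  have h8 : ((σ.lo a 1).V J I' D' : ℝ) ≤ (σ.V J I' D' : ℝ) := by exact_mod_cast h4
  constructor <;> nlinarith only [h3, h5, h7, h6, h8]

theorem Bq.lw {η m0 : ℝ} (hm0 : 1 ≤ m0) (hR : Rf J c0 n0 m0) (hI : I ⊆ range J) (hD : D ≤ d)
    (hm : ∀ k ∈ σ.ms, AdmO d J k ∨ AdmC d J e k) (hw : 1 ≤ σ.w)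
    (hη : 2 / m0 ≤ η) (hb : Bq J c0 n0 η σ I D) : Bq J c0 n0 (η - 2 / m0) (σ.lw 1) I D := by
  have h0 : 2 * ((1 : ℕ) : ℝ) / n0 ≤ 2 / m0 := by
    rw [Nat.cast_one, mul_one]
    exact div_le_div_of_nonneg_left (by norm_num) (by linarith only [hm0]) (hR.le_n0 (by linarith only [hm0]))
  intro I' hI' D' h1 h2
  obtain ⟨h3, h4⟩ := near_lw (hR.mono hm0) hI hD hm hw (h0.trans hη) hb.bp I' hI' D' h1 h2
  obtain ⟨h5, h6⟩ := hb I' hI' D' h1 h2
  have h7 := mul_le_mul_of_nonneg_right h0 (nz_nn c0 n0 I' D')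
  have h8 : ((σ.lw 1).V J I' D' : ℝ) ≤ (σ.V J I' D' : ℝ) := by exact_mod_cast h4
  constructor <;> nlinarith only [h3, h5, h7, h6, h8]

/-- The pairs below `(I ∩ insert i A, s)`. -/
theorem pos_pairs {η : ℝ} {I₁ : Finset ℕ} {s : ℕ} (hI₁ : I₁ ⊆ I) (hs : s + (I \ I₁).card ≤ D)
    (h : ∀ I' ⊆ I, ∀ D' : ℕ, I'.card ≤ D' → D' + (I \ I').card ≤ D →
      η * nz c0 n0 I' D' ≤ (σ.V J I' D' : ℝ)) : Pos J c0 n0 η σ I₁ s := by
  intro I' hI' D' h1 h2
  refine h I' (hI'.trans hI₁) D' h1 ?_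
  have h3 : I \ I' ⊆ (I \ I₁) ∪ (I₁ \ I') := by
    intro x hx
    rw [mem_sdiff] at hx
    rw [mem_union, mem_sdiff, mem_sdiff]
    by_cases h : x ∈ I₁
    · exact Or.inr ⟨h, hx.2⟩
    · exact Or.inl ⟨hx.1, h⟩
  have h4 := (card_le_card h3).trans (card_union_le _ _)
  omega

theorem InC.mono {ϖ ϖ' θ θ' : ℝ} {I₁ : Finset ℕ} (h : InC d J e c0 n0 ϖ θ I σ) (hI : I₁ ⊆ I)
    (hϖ : ϖ' ≤ ϖ) (hθ : θ ≤ θ') : InC d J e c0 n0 ϖ' θ' I₁ σ where
  c := h.c
  c' := fun l hl => (mul_le_mul_of_nonneg_right hϖ (Nat.cast_nonneg _)).trans (h.c' l (hI hl))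
  n := h.n
  w := (mul_le_mul_of_nonneg_right hϖ (Nat.cast_nonneg _)).trans h.w
  adm := h.adm
  om := h.om.trans hθ

theorem InC.lw {ϖ θ m0 : ℝ} (h : InC d J e c0 n0 ϖ θ I σ) (hϖ : 0 < ϖ) (hm0 : 0 < m0)
    (hϖm : 2 ≤ ϖ * m0) (hR : Rf J c0 n0 m0) : InC d J e c0 n0 (ϖ / 2) θ I (σ.lw 1) where
  c := h.c
  c' := fun l hl => (mul_le_mul_of_nonneg_right (by linarith only [hϖ]) (Nat.cast_nonneg _)).trans (h.c' l hl)
  n := by
    have h1 := h.n
    unfold St.n St.lw at *
    simp only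
    omega
  w := by
    have h1 := h.w
    have h2 := mul_le_mul_of_nonneg_left (hR.le_n0 hm0.le) hϖ.le
    have h3 : (1 : ℝ) ≤ (σ.w : ℝ) := by linarith only [hϖm, h1, h2]
    have h4 : 1 ≤ σ.w := by exact_mod_cast h3
    show ϖ / 2 * n0 ≤ ((σ.w - 1 : ℕ) : ℝ)
    rw [Nat.cast_sub h4, Nat.cast_one]
    linarith only [hϖm, h1, h2]
  adm := h.adm
  om := h.om

theorem InC.lo {ϖ θ m0 : ℝ} (h : InC d J e c0 n0 ϖ θ I σ) (hϖ : 0 < ϖ)
    (hϖm : 2 ≤ ϖ * m0) (hR : Rf J c0 n0 m0) {i : ℕ} (hi : i ∈ I) (hI : I ⊆ range J) :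
    InC d J e c0 n0 (ϖ / 2) θ I (σ.lo i 1) where
  c := fun l => by
    show Function.update σ.c i (σ.c i - 1) l ≤ c0 l
    by_cases h1 : l = i
    · subst h1
      rw [Function.update_self]
      exact (Nat.sub_le _ _).trans (h.c l)
    · rw [Function.update_of_ne h1]
      exact h.c l
  c' := fun l hl => by
    show ϖ / 2 * c0 l ≤ ((Function.update σ.c i (σ.c i - 1) l : ℕ) : ℝ)
    have h0 := h.c' l hl
    have h00 : (0 : ℝ) ≤ c0 l := Nat.cast_nonneg _
    by_cases h1 : l = i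
    · subst h1
      have h2 := mul_le_mul_of_nonneg_left (hR.c l (mem_range.1 (hI hi))) hϖ.le
      have h3 : (1 : ℝ) ≤ (σ.c l : ℝ) := by linarith
      have h4 : 1 ≤ σ.c l := by exact_mod_cast h3
      rw [Function.update_self, Nat.cast_sub h4, Nat.cast_one]
      linarith only [hϖm, h0, h2]
    · rw [Function.update_of_ne h1]
      nlinarith only [h0]
  n := by
    have h1 := h.n
    have h2 : (σ.lo i 1).n J ≤ σ.n J := by
      unfold St.n St.lo
      refine Nat.add_le_add_right (sum_le_sum fun l _ => ?_) _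
      show Function.update σ.c i (σ.c i - 1) l ≤ σ.c l
      by_cases h3 : l = i
      · subst h3
        rw [Function.update_self]
        exact Nat.sub_le _ _
      · rw [Function.update_of_ne h3]
    exact h2.trans h1
  w := (mul_le_mul_of_nonneg_right (by linarith) (Nat.cast_nonneg _)).trans h.w
  adm := h.adm
  om := h.om

theorem InC.ad {ϖ θ θ' : ℝ} (h : InC d J e c0 n0 ϖ θ I σ) {k : Kd} (hk : AdmC d J e k)
    (hθ : θ + Pool.Agent.GD.AL.om c0 n0 J k ≤ θ') : InC d J e c0 n0 ϖ θ' I (σ.ad k) where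
  c := h.c
  c' := h.c'
  n := h.n
  w := h.w
  adm := fun k' hk' => by
    rcases Multiset.mem_cons.1 hk' with rfl | h1
    · exact Or.inr hk
    · exact h.adm k' h1
  om := by
    show ((k ::ₘ σ.ms).map (Pool.Agent.GD.AL.om c0 n0 J)).sum ≤ θ'
    rw [Multiset.map_cons, Multiset.sum_cons]
    have := h.om
    linarith

theorem IP.of {N N' : ℕ} {ms ms' : Multiset Kd} (h : IP J e c0 N ms) (hN : N' ≤ N)
    (hcl : ∀ i < J, ∀ m, 2 ≤ m → .cl e 0 i (List.replicate m ((range J).erase i)) ∈ ms' →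
      .cl e 0 i (List.replicate m ((range J).erase i)) ∈ ms)
    (hct : ∀ i < J, ms.count (.ord e ((range J).erase i)) ≤
      ms'.count (.ord e ((range J).erase i))) : IP J e c0 N' ms' := by
  rintro i hi ⟨m, hm, hmem⟩
  exact (Nat.mul_le_mul_right _ hN).trans ((h i hi ⟨m, hm, hcl i hi m hm hmem⟩).trans (hct i hi))

/-- The objects for phase 2. -/
def Gk (d J e : ℕ) (I : Finset ℕ) (k : Kd) : Prop :=
  AdmO d J k ∨ ∃ i ∈ I, ∃ m, 2 ≤ m ∧ k = .cl e 0 i (List.replicate m ((range J).erase i))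

theorem om_ords {S : Multiset Kd} (hS : ∀ k ∈ S, AdmO d J k) :
    (S.map (om c0 n0 J)).sum = 0 := by
  apply Multiset.sum_eq_zero
  intro x hx
  obtain ⟨k, hk, rfl⟩ := Multiset.mem_map.1 hx
  obtain ⟨y, A, rfl, -⟩ := hS k hk
  rfl

theorem admO_mbI {dl i : ℕ} {As : List (Finset ℕ)} (hk : AdmC d J e (.cl e dl i As)) :
    ∀ k ∈ mbI e i As, AdmO d J k := by
  intro k h
  unfold mbI at h
  rw [Multiset.mem_coe, List.mem_map] at h
  obtain ⟨A, hA, rfl⟩ := h
  exact (admO_mb hk hA).2.1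

theorem admO_mbs {dl i : ℕ} {As L : List (Finset ℕ)} (hk : AdmC d J e (.cl e dl i As))
    (hL : ∀ A ∈ L, A ∈ As) : ∀ k ∈ mb e L, AdmO d J k := by
  intro k h
  unfold mb at h
  rw [Multiset.mem_coe, List.mem_map] at h
  obtain ⟨A, hA, rfl⟩ := h
  exact (admO_mb hk (hL A hA)).1

open Classical in
/-- **The removal of the clusters.** -/
theorem ph1_core {η ϖ θ θm m0 : ℝ} (hη : 0 < η) (hϖ : 0 < ϖ) (hθ0 : 0 < θ) (hθη : 32 * θ ≤ η)
    (hθ1 : 3 * θ ≤ 1) (hθm : θ + 1 / m0 ≤ θm) (hm0 : 1 ≤ m0) (hm0η : 16 * (2 * d + 6) ≤ η * m0)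
    (hm0ϖ : 4 ≤ ϖ * m0) (hD : D ≤ d) (hR : Rf J c0 n0 m0) (hI : I ⊆ range J)
    (hP : ∀ σ : St, InC d J e c0 n0 ϖ θ I σ → (∀ k ∈ σ.ms, Gk d J e I k) →
      IP J e c0 ((D + 1) * d) σ.ms → Pos J c0 n0 (η / 2) σ I D → σ.dl d J I D ≤ 0)
    (hC : ∀ s < D, ∀ (σ : St) (I₁ : Finset ℕ), I₁ ⊆ range J →
      InC d J e c0 n0 (ϖ / 4) θm I₁ σ → HH s I₁ σ.ms → IP J e c0 ((s + 1) * d) σ.ms →
      Pos J c0 n0 (η / 4) σ I₁ s → σ.dl d J I₁ s ≤ 0) :
    ∀ (N : ℕ) (σ : St), σ.ms.countP (fun k => ¬ Gk d J e I k) = N →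
      InC d J e c0 n0 ϖ θ I σ → HH D I σ.ms → IP J e c0 ((D + 1) * d) σ.ms →
      Pos J c0 n0 (η / 2 + 4 * (σ.ms.map (om c0 n0 J)).sum) σ I D → σ.dl d J I D ≤ 0 := by
  have hR1 : Rf J c0 n0 1 := hR.mono hm0
  have hm00 : (0 : ℝ) < m0 := by linarith only [hθ0, hθ1, hm0]
  have homs : ∀ M : Multiset Kd, 0 ≤ (M.map (om c0 n0 J)).sum := fun M =>
    Multiset.sum_nonneg fun x hx => by
      obtain ⟨k, -, rfl⟩ := Multiset.mem_map.1 hx
      exact om_nonneg k
  intro N
  induction N with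
  | zero =>
    intro σ hN hin _ hip hp
    refine hP σ hin (fun k hk => ?_) hip fun I' hI' D' h1 h2 => ?_
    · by_contra h
      exact (Multiset.countP_pos.2 ⟨k, hk, h⟩).ne' hN
    · refine le_trans ?_ (hp I' hI' D' h1 h2)
      exact mul_le_mul_of_nonneg_right (by linarith only [homs, homs σ.ms]) (nz_nn _ _ _ _)
  | succ N ih =>
    intro σ hN hin hh hip hp
    obtain ⟨k, hk, hkG⟩ := Multiset.countP_pos.1 (by rw [hN]; omega)
    obtain ⟨c, w, M⟩ := σ
    obtain ⟨ms, rfl⟩ := Multiset.exists_cons_of_mem hk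
    have hN' : ms.countP (fun k => ¬ Gk d J e I k) = N := by
      change (k ::ₘ ms).countP (fun k => ¬ Gk d J e I k) = N + 1 at hN
      rw [Multiset.countP_cons_of_pos (p := fun k => ¬ Gk d J e I k) ms hkG] at hN
      omega
    have hkC : AdmC d J e k := (hin.adm k (Multiset.mem_cons_self _ _)).resolve_left
      fun h => hkG (Or.inl h)
    obtain ⟨dl, i, As, rfl, -⟩ := id hkC
    set σ₁ : St := ⟨c, w, ms⟩ with hσ₁
    have hkO := hkC.ok
    obtain ⟨he, hlen, htr, hiJ, hAs⟩ := id hkO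
    have hmsA : ∀ k' ∈ ms, AdmO d J k' ∨ AdmC d J e k' := fun k' hk' =>
      hin.adm k' (Multiset.mem_cons_of_mem hk')
    have hsum : ((.cl e dl i As ::ₘ ms).map (om c0 n0 J)).sum =
        om c0 n0 J (.cl e dl i As) + (ms.map (om c0 n0 J)).sum := by
      rw [Multiset.map_cons, Multiset.sum_cons]
    have homk : 0 ≤ om c0 n0 J (.cl e dl i As) := om_nonneg _
    have homms := homs ms
    have hom0 : om c0 n0 J (.cl e dl i As) + (ms.map (om c0 n0 J)).sum ≤ θ := by
      rw [← hsum]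
      exact hin.om
    have hp' : ∀ I' ⊆ I, ∀ D' : ℕ, I'.card ≤ D' → D' + (I \ I').card ≤ D →
        (η / 2 + 4 * (om c0 n0 J (.cl e dl i As) + (ms.map (om c0 n0 J)).sum)) *
          nz c0 n0 I' D' ≤ ((σ₁.ad (.cl e dl i As)).V J I' D' : ℝ) := by
      intro I' hI' D' h1 h2
      rw [← hsum]
      exact hp I' hI' D' h1 h2
    -- the state without the cluster
    have hin₁ : InC d J e c0 n0 ϖ θ I σ₁ :=
      ⟨hin.c, hin.c', hin.n, hin.w, hmsA, by
        show (ms.map (om c0 n0 J)).sum ≤ θ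
        linarith only [homk, hom0]⟩
    have hct₁ : ∀ j < J, (.cl e dl i As ::ₘ ms).count (.ord e ((range J).erase j)) ≤
        ms.count (.ord e ((range J).erase j)) := fun j _ =>
      le_of_eq (Multiset.count_cons_of_ne (by simp) _)
    -- the next state
    have hnext : ∀ S : Multiset Kd, (∀ k ∈ S, AdmO d J k) →
        (∀ I' ⊆ I, ∀ D' : ℕ, I'.card ≤ D' → D' + (I \ I').card ≤ D →
          (η / 2 + 4 * (ms.map (om c0 n0 J)).sum) * nz c0 n0 I' D' ≤
            ((σ₁.wm (S + ms)).V J I' D' : ℝ)) → (σ₁.wm (S + ms)).dl d J I D ≤ 0 := by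
      intro S hS hpS
      have hsum' : ((S + ms).map (om c0 n0 J)).sum = (ms.map (om c0 n0 J)).sum := by
        rw [Multiset.map_add, Multiset.sum_add, om_ords hS, zero_add]
      refine ih (σ₁.wm (S + ms)) ?_ ⟨hin.c, hin.c', hin.n, hin.w, ?_, ?_⟩ ?_ ?_ ?_
      · show (S + ms).countP (fun k => ¬ Gk d J e I k) = N
        rw [Multiset.countP_add, hN', Multiset.countP_eq_zero.2 fun k hk h => h (Or.inl (hS k hk)),
          zero_add]
      · intro k' hk'
        rcases Multiset.mem_add.1 hk' with h | h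
        · exact Or.inl (hS k' h)
        · exact hmsA k' h
      · show ((S + ms).map (om c0 n0 J)).sum ≤ θ
        rw [hsum']
        linarith only [homk, hom0]
      · refine hh_ords (hh_sub (Multiset.le_cons_self _ _) hh) fun k hk => ?_
        obtain ⟨x, A, h, -⟩ := hS k hk
        exact ⟨x, A, h⟩
      · refine hip.of le_rfl (fun j _ m _ hmem => ?_) fun j hj => (hct₁ j hj).trans ?_
        · rcases Multiset.mem_add.1 hmem with h | h
          · obtain ⟨x, A, h', -⟩ := hS _ h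
            exact Kd.noConfusion h'
          · exact Multiset.mem_cons_of_mem h
        · show _ ≤ (S + ms).count _
          rw [Multiset.count_add]
          exact Nat.le_add_left _ _
      · intro I' hI' D' h1 h2
        show (η / 2 + 4 * ((S + ms).map (om c0 n0 J)).sum) * _ ≤ _
        rw [hsum']
        exact hpS I' hI' D' h1 h2
    by_cases hiI : i ∈ I
    swap
    · -- off the level
      obtain ⟨h1, h2⟩ := St.cl_inact (σ := σ₁) hD hI hkC hiI
      have h3 := hnext (mbI e i As) (admO_mbI hkC) fun I' hI' D' h3 h4 => by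
        rw [← (St.cl_inact (σ := σ₁) (D := D') (by omega) (hI'.trans hI) hkC
          fun h => hiI (hI' h)).2]
        refine le_trans ?_ (hp' I' hI' D' h3 h4)
        exact mul_le_mul_of_nonneg_right (by linarith only [homk]) (nz_nn _ _ _ _)
      refine le_trans ?_ h3
      show ((σ₁.ad (.cl e dl i As)).H d J I D : ℤ) - (σ₁.ad (.cl e dl i As)).V J I D ≤ _
      unfold St.dl
      rw [h2]
      have h5 : ((σ₁.ad (.cl e dl i As)).H d J I D : ℤ) ≤
          ((σ₁.wm (mbI e i As + σ₁.ms)).H d J I D : ℤ) := by exact_mod_cast h1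
      show _ ≤ ((σ₁.wm (mbI e i As + σ₁.ms)).H d J I D : ℤ) -
        (σ₁.wm (mbI e i As + σ₁.ms)).V J I D
      omega
    have hnP : ¬ Pl J (.cl e dl i As) := by
      rintro ⟨h1, h2, h3⟩
      refine hkG (Or.inr ⟨i, hiI, As.length, h2, ?_⟩)
      rw [h1, ← List.eq_replicate_of_mem h3]
    obtain ⟨A, hA, homA⟩ := om_ex hR1 hkC hnP
    obtain ⟨L₁, L₂, rfl⟩ := List.append_of_mem hA
    have hTA : ((range J).erase i \ A).card ≤ e - 1 := by
      obtain ⟨dl', i', As', h, -, -, -, -, hA'⟩ := hkC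
      injection h with _ _ h3 h4
      subst h3
      subst h4
      exact (hA' A hA).2
    have hIA : (I \ insert i A).card + 1 ≤ e := by
      have h1 : I \ insert i A ⊆ (range J).erase i \ A := by
        intro x hx
        rw [mem_sdiff, mem_insert, not_or] at hx
        rw [mem_sdiff, mem_erase]
        exact ⟨⟨hx.2.1, hI hx.1⟩, hx.2.2⟩
      have h2 := card_le_card h1
      omega
    have hIA' : I \ (I ∩ insert i A) = I \ insert i A := by
      rw [sdiff_inter_self_left]
    -- the family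
    have hPosL : PosL J c0 n0 (η / 2) (σ₁.ad (.cl e dl i (L₁ ++ A :: L₂))) I D := by
      intro I' hI' D' h1 _ h3
      refine le_trans ?_ (hp' I' hI' D' h1 h3)
      exact mul_le_mul_of_nonneg_right (by linarith only [homms, homk]) (nz_nn _ _ _ _)
    have hfam : ∀ R : Multiset Kd, Fam (.cl e dl i (L₁ ++ A :: L₂) ::ₘ ms) R →
        Bq J c0 n0 (η / 2 - 3 * θ) (σ₁.wm R) I D := by
      intro R hF I' hI' D' h1 h2
      obtain ⟨h3, h4⟩ := cmp (σ := σ₁.ad (.cl e dl i (L₁ ++ A :: L₂))) hR1 hI hD hin.c hin.n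
        hin.adm hin.om (by linarith only [hθ0, hθη] : (0 : ℝ) ≤ η / 2) (by linarith only [hθ0, hθη]) hθ1 hPosL hF I' hI' D' h1 h2
      have h5 := hp' I' hI' D' h1 h2
      have h6 := nz_nn c0 n0 I' D'
      constructor
      · refine le_trans ?_ h3
        nlinarith only [h5, hθ0, hθ1, homms, h6, homk]
      · refine h4.trans ?_
        nlinarith only [hθ1, h6]
    have hF1 : Fam (.cl e dl i (L₁ ++ A :: L₂) ::ₘ ms) ms :=
      ⟨ms, 0, 0, by rw [add_zero]; exact Multiset.le_cons_self _ _, Multiset.zero_le _, by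
        rw [add_zero]⟩
    have hF2 : Fam (.cl e dl i (L₁ ++ A :: L₂) ::ₘ ms) (mb e (L₂ ++ L₁) + ms) := by
      refine ⟨ms, {.cl e dl i (L₁ ++ A :: L₂)}, mb e (L₂ ++ L₁), ?_, ?_, add_comm _ _⟩
      · rw [add_comm, Multiset.singleton_add]
      · rw [Multiset.singleton_bind]
        show mb e (L₂ ++ L₁) ≤ mb e (L₁ ++ A :: L₂)
        rw [mb_split]
        exact Multiset.le_cons_self _ _
    have hB1 := hfam _ hF1
    have hB2 := hfam _ hF2
    have hbd : ∀ R : Multiset Kd, Bq J c0 n0 (η / 2 - 3 * θ) (σ₁.wm R) I D →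
        Bd J c0 n0 I D (σ₁.wm R) := fun R h I' hI' D' h1 h2 => by
      obtain ⟨h3, h4⟩ := h I' hI' D' h1 h2
      refine ⟨le_trans ?_ h3, h4⟩
      exact mul_nonneg (by linarith only [hθ0, hθη]) (nz_nn _ _ _ _)
    -- sizes
    have hci : 1 ≤ σ₁.c i := by
      have h1 := hin.c' i hiI
      have h2 := mul_le_mul_of_nonneg_left (hR.c i hiJ) hϖ.le
      have h3 : (1 : ℝ) ≤ (c i : ℝ) := by
        have h4 : ϖ * c0 i ≤ (c i : ℝ) := h1
        linarith only [hθ0, hθ1, hm0ϖ, h1, h2]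
      exact_mod_cast h3
    have hw1 : 1 ≤ σ₁.w := by
      have h1 := hin.w
      have h2 := mul_le_mul_of_nonneg_left (hR.le_n0 hm00.le) hϖ.le
      have h3 : (1 : ℝ) ≤ (w : ℝ) := by
        have h4 : ϖ * n0 ≤ (w : ℝ) := h1
        linarith only [hθ0, hθ1, hm0ϖ, h1, h2]
      exact_mod_cast h3
    have hm0' : 2 / m0 ≤ η / 16 := by
      rw [div_le_iff₀ hm00]
      have : (0 : ℝ) ≤ d := Nat.cast_nonneg _
      nlinarith only [hθ0, hθ1, hm0η]
    have hm0'' : (2 * d + 6) / m0 ≤ η / 16 := by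
      rw [div_le_iff₀ hm00]
      linarith only [hm0η]
    -- the lower states
    have hBlo : Bq J c0 n0 (η / 2 - 3 * θ - 2 / m0) (σ₁.lo i 1) I D :=
      Bq.lo hm0 hR hI hD hmsA hiJ hci (by linarith only [hθ0, hθη, hm0']) hB1
    have hBlolw : Bq J c0 n0 (η / 2 - 3 * θ - 2 / m0 - 2 / m0) ((σ₁.lo i 1).lw 1) I D :=
      Bq.lw (σ := σ₁.lo i 1) hm0 hR hI hD hmsA hw1 (by linarith only [hθ0, hθη, hm0']) hBlo
    have hBlw : Bq J c0 n0 (η / 2 - 3 * θ - 2 / m0) (σ₁.lw 1) I D :=
      Bq.lw hm0 hR hI hD hmsA hw1 (by linarith only [hθ0, hθη, hm0']) hB1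
    have hIlo : InC d J e c0 n0 (ϖ / 4) θ I ((σ₁.lo i 1).lw 1) := by
      have h1 := (hin₁.lo hϖ (by linarith only [hθ0, hθ1, hm0ϖ]) hR hiI hI).lw (m0 := m0) (by linarith only [hϖ]) hm00
        (by linarith only [hm0ϖ]) hR
      have h2 : ϖ / 2 / 2 = ϖ / 4 := by ring
      rw [h2] at h1
      exact h1
    have hIlw : InC d J e c0 n0 (ϖ / 4) θ I (σ₁.lw 1) :=
      (hin₁.lw hϖ hm00 (by linarith only [hθ0, hθ1, hm0ϖ]) hR).mono subset_rfl (by linarith only [hϖ]) le_rfl
    have hmθ : 0 < 1 / m0 := by positivity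
    by_cases hlen2 : 1 ≤ (L₂ ++ L₁).length
    · -- at least two members
      have hk2 : AdmC d J e (.cl e dl i (L₂ ++ L₁)) := by
        obtain ⟨dl', i', As', h, h1, h2, h3, h4, h5⟩ := id hkC
        injection h with _ hdl hi' hAs'
        subst hdl
        subst hi'
        subst hAs'
        refine ⟨dl, i, L₂ ++ L₁, rfl, h1, hlen2, ?_, h4, fun A' hA' => h5 A' ?_⟩
        · unfold trx at h3 ⊢
          have h6 : (L₂ ++ L₁).length * (e - 1) ≤ (L₁ ++ A :: L₂).length * (e - 1) := by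
            refine Nat.mul_le_mul_right _ ?_
            simp only [List.length_append, List.length_cons]
            omega
          omega
        · rw [List.mem_append] at hA'
          rw [List.mem_append, List.mem_cons]
          tauto
      have hlow : ∀ s, s + e ≤ D + 1 →
          (((σ₁.lo i 1).lw 1).ad (.cl e dl i (L₂ ++ L₁))).dl d J (I ∩ insert i A) s ≤ 0 := by
        intro s hs
        refine hC s (by omega) _ _ (inter_subset_left.trans hI)
          ((hIlo.mono inter_subset_left le_rfl le_rfl).ad hk2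
            ((add_le_add_right (om_small hm0 hR hk2) θ).trans hθm))
          (hh_drop' hlen2 hs hIA hh) ?_ ?_
        · refine hip.of (Nat.mul_le_mul_right _ (by omega)) (fun j hj m hm2 hmem => ?_) fun j hj => ?_
          · rcases Multiset.mem_cons.1 hmem with h | h
            · exfalso
              injection h with _ hdl0 hij hrep
              subst hij
              have hall : ∀ A' ∈ L₂ ++ L₁, A' = (range J).erase j := by
                rw [← hrep]
                intro A' hA'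
                exact (List.mem_replicate.1 hA').2
              have hAne : A ≠ (range J).erase j := by
                intro hAe
                refine hnP ⟨hdl0.symm, ?_, ?_⟩
                · simp only [List.length_append, List.length_cons] at hlen2 ⊢
                  omega
                · intro A' hA'
                  rw [List.mem_append, List.mem_cons] at hA'
                  rcases hA' with h | h | h
                  · exact hall A' (List.mem_append_right _ h)
                  · rw [h]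
                    exact hAe
                  · exact hall A' (List.mem_append_left _ h)
              obtain ⟨A', hA'⟩ : ∃ A', A' ∈ L₂ ++ L₁ := List.exists_mem_of_length_pos hlen2
              have h1 := om_le (c0 := c0) (n0 := n0) hnP A' (by
                rw [List.mem_append] at hA'
                rw [List.mem_append, List.mem_cons]
                tauto)
              rw [hall A' hA', sdiff_self, homA] at h1
              refine absurd (rl_lt hR1 (T := (range J).erase j \ A)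
                (sdiff_subset.trans (erase_subset _ _)) ?_ hTA) (not_lt.2 h1)
              rw [nonempty_iff_ne_empty]
              intro h2
              exact hAne (Subset.antisymm (hAs A hA) (sdiff_eq_empty_iff_subset.1 h2))
            · exact Multiset.mem_cons_of_mem h
          · refine (hct₁ j hj).trans ?_
            exact Multiset.count_le_count_cons _ _ _
        · refine pos_pairs (D := D) inter_subset_left (by rw [hIA']; omega) fun I' hI' D' h1 h2 => ?_
          have h3 := near_cl (σ := (σ₁.lo i 1).lw 1) hm0 hR hI hD hmsA (by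
            have h4 : 2 * (d : ℝ) / m0 ≤ (2 * d + 6) / m0 :=
              div_le_div_of_nonneg_right (by linarith only [hθ0, hθ1]) hm00.le
            linarith only [hθ0, hθη, hm0', hm0'', h4]) hBlolw.bp hk2 I' hI' D' h1 h2
          obtain ⟨h4, -⟩ := hBlolw I' hI' D' h1 h2
          refine le_trans ?_ h3
          have h5 := nz_nn c0 n0 I' D'
          have h6 : 2 / m0 + 2 / m0 + (2 * d + 2) / m0 = (2 * d + 6) / m0 := by
            rw [← add_div, ← add_div]
            congr 1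
            ring
          have h7 : η / 4 ≤ (η / 2 - 3 * θ - 2 / m0 - 2 / m0) - (2 * d + 2) / m0 := by
            linarith only [hθ0, hθη, hm0'', h6]
          nlinarith only [h4, hη, h5, hθ0, hθη, hθ1, hm0'', h6]
      have h1 := St.cl1 (σ := σ₁) hD hI (fun k' hk' => (hmsA k' hk').elim AdmO.ok AdmC.ok) hkC hiI
        hlen2 hci hw1 hlow
      refine h1.trans ?_
      have h2 : σ₁.wm (.ord (e - 1) (insert i A) ::ₘ (mb e (L₂ ++ L₁) + σ₁.ms)) =
          σ₁.wm ((.ord (e - 1) (insert i A) ::ₘ mb e (L₂ ++ L₁)) + ms) := by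
        rw [Multiset.cons_add]
      rw [h2]
      refine hnext _ ?_ fun I' hI' D' h3 h4 => ?_
      · intro k' hk'
        rcases Multiset.mem_cons.1 hk' with rfl | h
        · exact (admO_mb hkC hA).2.2
        · refine admO_mbs hkC (fun A' hA' => ?_) k' h
          rw [List.mem_append] at hA'
          rw [List.mem_append, List.mem_cons]
          tauto
      · have h5 := tie_pos (σ := σ₁) hR1 hI hmsA hkC (hbd _ hB2) (hbd _ hB1) homA I' hI' D' h3 h4
        have h6 := hp' I' hI' D' h3 h4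
        rw [Multiset.cons_add]
        refine le_trans ?_ h5
        refine le_trans ?_ (sub_le_sub_right h6 _)
        rw [← sub_mul]
        exact mul_le_mul_of_nonneg_right (by linarith only) (nz_nn _ _ _ _)
    · -- one member
      have hL2 : L₂ = [] := by
        rw [List.length_append] at hlen2
        exact List.length_eq_zero_iff.1 (by omega)
      have hL1 : L₁ = [] := by
        rw [List.length_append] at hlen2
        exact List.length_eq_zero_iff.1 (by omega)
      subst hL1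
      subst hL2
      rcases Nat.eq_zero_or_pos dl with hdl | hdl
      · subst hdl
        obtain ⟨h1, h2⟩ := St.cl_one (σ := σ₁) hD hI hkC
        have h3 := hnext {.ord e (insert i A)} (fun k' hk' => by
          rw [Multiset.mem_singleton.1 hk']
          exact (admO_mb hkC hA).2.1) fun I' hI' D' h3 h4 => by
          rw [Multiset.singleton_add]
          show _ ≤ ((σ₁.ad (.ord e (insert i A))).V J I' D' : ℝ)
          rw [← (St.cl_one (σ := σ₁) (D := D') (by omega) (hI'.trans hI) hkC).2]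
          refine le_trans ?_ (hp' I' hI' D' h3 h4)
          exact mul_le_mul_of_nonneg_right (by linarith only [homk]) (nz_nn _ _ _ _)
        refine le_trans ?_ h3
        rw [Multiset.singleton_add]
        show ((σ₁.ad (.cl e 0 i [A])).H d J I D : ℤ) - (σ₁.ad (.cl e 0 i [A])).V J I D ≤
          ((σ₁.ad (.ord e (insert i A))).H d J I D : ℤ) - (σ₁.ad (.ord e (insert i A))).V J I D
        rw [h2]
        have h5 : ((σ₁.ad (.cl e 0 i [A])).H d J I D : ℤ) ≤
          ((σ₁.ad (.ord e (insert i A))).H d J I D : ℤ) := by exact_mod_cast h1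
        omega
      · by_cases heD : e ≤ D + 1
        · have hHH : ∀ s, s + e ≤ D + 1 → HH s (I ∩ insert i A) ms := fun s hs =>
            hh_mono inter_subset_left (by rw [hIA']; omega)
              (hh_sub (Multiset.le_cons_self _ _) hh)
          have hIPs : ∀ s, s + e ≤ D + 1 → IP J e c0 ((s + 1) * d) ms := fun s hs =>
            hip.of (Nat.mul_le_mul_right _ (by omega)) (fun j _ m _ hmem =>
              Multiset.mem_cons_of_mem hmem) hct₁
          have h1 := St.cl1a (σ := σ₁) hD hI (fun k' hk' => (hmsA k' hk').elim AdmO.ok AdmC.ok)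
            hkC hiI hci hw1 hdl heD hh (fun s hs => by
              refine hC s (by omega) _ _ (inter_subset_left.trans hI)
                (hIlo.mono inter_subset_left le_rfl (by linarith only [hθm, hmθ])) (hHH s hs) (hIPs s hs) ?_
              refine pos_pairs (D := D) inter_subset_left (by rw [hIA']; omega) fun I' hI' D' h1 h2 => ?_
              refine le_trans ?_ (hBlolw I' hI' D' h1 h2).1
              exact mul_le_mul_of_nonneg_right (by linarith only [hθ0, hθη, hm0']) (nz_nn _ _ _ _)) (fun s hs => by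
              refine hC s (by omega) _ _ (inter_subset_left.trans hI)
                (hIlw.mono inter_subset_left le_rfl (by linarith only [hθm, hmθ])) (hHH s hs) (hIPs s hs) ?_
              refine pos_pairs (D := D) inter_subset_left (by rw [hIA']; omega) fun I' hI' D' h1 h2 => ?_
              refine le_trans ?_ (hBlw I' hI' D' h1 h2).1
              exact mul_le_mul_of_nonneg_right (by linarith only [hθ0, hθη, hm0']) (nz_nn _ _ _ _))
          refine h1.trans ?_
          have h2 := hnext {.ord (e - 1) (insert i A)} (fun k' hk' => by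
            rw [Multiset.mem_singleton.1 hk']
            exact (admO_mb hkC hA).2.2) fun I' hI' D' h3 h4 => by
            have h5 := tie_pos (σ := σ₁) hR1 hI hmsA hkC (hbd _ hB2) (hbd _ hB1) homA I' hI' D' h3 h4
            have h6 := hp' I' hI' D' h3 h4
            have h7 : (.ord (e - 1) (insert i A) ::ₘ (mb e ([] ++ []) + ms) : Multiset Kd) =
                {.ord (e - 1) (insert i A)} + ms := by
              rw [Multiset.singleton_add]
              congr 1
              exact zero_add ms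
            rw [h7] at h5
            refine le_trans ?_ h5
            refine le_trans ?_ (sub_le_sub_right h6 _)
            rw [← sub_mul]
            exact mul_le_mul_of_nonneg_right (by linarith only) (nz_nn _ _ _ _)
          rw [Multiset.singleton_add] at h2
          exact h2
        · -- no effect
          have hV : ∀ I' : Finset ℕ, ∀ D' ≤ D, (σ₁.ad (.cl e dl i ([] ++ A :: []))).V J I' D' =
              (σ₁.wm (0 + ms)).V J I' D' := by
            intro I' D' hD'
            have h1 := V_tie (σ := σ₁) (J := J) (e := e) (I' := I') (D' := D') (dl := dl)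
              (i := i) (L₁ := []) (L₂ := []) (A := A) (ms := ms) (fun A' hA' h =>
                notMem_erase i (range J) (hAs A' hA' h))
            rw [if_neg (by omega), if_neg (by
              rintro ⟨-, h2⟩
              unfold trx at h2
              simp only [List.nil_append, List.length_singleton, one_mul] at h2
              omega), sub_zero, add_zero] at h1
            exact h1
          have h3 := hnext 0 (fun k' hk' => absurd hk' (Multiset.notMem_zero _))
            fun I' hI' D' h3 h4 => by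
            rw [← hV I' D' (by omega)]
            refine le_trans ?_ (hp' I' hI' D' h3 h4)
            exact mul_le_mul_of_nonneg_right (by linarith only [homk]) (nz_nn _ _ _ _)
          refine le_trans ?_ h3
          show ((σ₁.ad (.cl e dl i ([] ++ A :: []))).H d J I D : ℤ) -
            (σ₁.ad (.cl e dl i ([] ++ A :: []))).V J I D ≤
            ((σ₁.wm (0 + ms)).H d J I D : ℤ) - (σ₁.wm (0 + ms)).V J I D
          rw [hV I D le_rfl]
          have h5 : (σ₁.ad (.cl e dl i ([] ++ A :: []))).H d J I D ≤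
              (σ₁.wm (0 + ms)).H d J I D := by
            rw [zero_add]
            exact HI_cons_le D _ I _ _
          have h6 : ((σ₁.ad (.cl e dl i ([] ++ A :: []))).H d J I D : ℤ) ≤
              ((σ₁.wm (0 + ms)).H d J I D : ℤ) := by exact_mod_cast h5
          omega

theorem ex_lower (f : ℕ → ℝ) (hf : ∀ s, 0 < f s) (D : ℕ) : ∃ t : ℝ, 0 < t ∧ ∀ s < D, t ≤ f s := by
  induction D with
  | zero => exact ⟨1, one_pos, fun s hs => absurd hs (Nat.not_lt_zero s)⟩
  | succ D ih =>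
    obtain ⟨t, ht, h⟩ := ih
    refine ⟨min t (f D), lt_min ht (hf D), fun s hs => ?_⟩
    rcases Nat.lt_succ_iff_lt_or_eq.1 hs with h1 | h1
    · exact (min_le_left _ _).trans (h s h1)
    · rw [h1]
      exact min_le_right _ _

theorem Hr.mono {F F' : (ℕ → ℕ) → ℕ} {i : ℕ} (h : Hr i J F c0) (hF : ∀ c, F' c ≤ F c) :
    Hr i J F' c0 := fun l h1 h2 => (hF _).trans (h l h1 h2)

/-- Phase 1. -/
theorem xc_of (hD : D ≤ d) (hXC : ∀ s < D, XC d J e s) (hXP : XP d J e D) : XC d J e D := by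
  intro η ϖ hη hϖ
  obtain ⟨θP, hθP, FP, hFP⟩ := hXP (η / 2) ϖ (by linarith only [hη]) hϖ
  have hex : ∀ s : ℕ, ∃ θ : ℝ, 0 < θ ∧ ∃ F : (ℕ → ℕ) → ℕ, s < D →
      ∀ c0 : ℕ → ℕ, Hr 0 J F c0 → ∃ n1 : ℕ, ∀ n0, n1 ≤ n0 → ∀ (σ : St) (I : Finset ℕ),
        I ⊆ range J → InC d J e c0 n0 (ϖ / 4) θ I σ → HH s I σ.ms →
        IP J e c0 ((s + 1) * d) σ.ms → Pos J c0 n0 (η / 4) σ I s → σ.dl d J I s ≤ 0 := by
    intro s
    by_cases hs : s < D
    · obtain ⟨θ, hθ, F, hF⟩ := hXC s hs (η / 4) (ϖ / 4) (by linarith only [hη]) (by linarith)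
      exact ⟨θ, hθ, F, fun _ => hF⟩
    · exact ⟨1, one_pos, fun _ => 0, fun h => absurd h hs⟩
  choose θs hθs Fs hFs using hex
  obtain ⟨θm, hθm, hθms⟩ := ex_lower θs hθs D
  set m0 : ℝ := max (max 1 (16 * (2 * d + 6) / η)) (max (4 / ϖ) (2 / θm)) with hm0d
  have hm0 : 1 ≤ m0 := (le_max_left _ _).trans (le_max_left _ _)
  have hm1 : 16 * (2 * d + 6) / η ≤ m0 := (le_max_right _ _).trans (le_max_left _ _)
  have hm2 : 4 / ϖ ≤ m0 := (le_max_left _ _).trans (le_max_right _ _)
  have hm3 : 2 / θm ≤ m0 := (le_max_right _ _).trans (le_max_right _ _)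
  have hm00 : 0 < m0 := by linarith only [hm0]
  set θ : ℝ := min (min (η / 32) (1 / 3)) (min (θm / 2) θP) with hθd
  have ht1 : θ ≤ η / 32 := (min_le_left _ _).trans (min_le_left _ _)
  have ht2 : θ ≤ 1 / 3 := (min_le_left _ _).trans (min_le_right _ _)
  have ht3 : θ ≤ θm / 2 := (min_le_right _ _).trans (min_le_left _ _)
  have ht4 : θ ≤ θP := (min_le_right _ _).trans (min_le_right _ _)
  have ht0 : 0 < θ := lt_min (lt_min (by linarith only [hη]) (by norm_num)) (lt_min (by linarith only [hθm]) hθP)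
  refine ⟨θ, ht0, fun c => ∑ s ∈ range D, Fs s c + FP c + ⌈m0⌉₊, fun c0 hH => ?_⟩
  obtain ⟨n1P, hn1P⟩ := hFP c0 (hH.mono fun c => by omega)
  have hHs : ∀ s < D, Hr 0 J (Fs s) c0 := fun s hs => hH.mono fun c => by
    have h1 : Fs s c ≤ ∑ s ∈ range D, Fs s c :=
      single_le_sum (f := fun s => Fs s c) (fun _ _ => Nat.zero_le _) (mem_range.2 hs)
    omega
  have hex2 : ∀ s : ℕ, ∃ n1 : ℕ, s < D → ∀ n0, n1 ≤ n0 → ∀ (σ : St) (I : Finset ℕ),
      I ⊆ range J → InC d J e c0 n0 (ϖ / 4) (θs s) I σ → HH s I σ.ms →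
      IP J e c0 ((s + 1) * d) σ.ms → Pos J c0 n0 (η / 4) σ I s → σ.dl d J I s ≤ 0 := by
    intro s
    by_cases hs : s < D
    · obtain ⟨n1, h⟩ := hFs s hs c0 (hHs s hs)
      exact ⟨n1, fun _ => h⟩
    · exact ⟨0, fun h => absurd h hs⟩
  choose ns hns using hex2
  refine ⟨∑ s ∈ range D, ns s + n1P + ⌈m0 * (1 + ∑ l ∈ range J, (c0 l : ℝ))⌉₊, fun n0 hn0 σ I hI
    hin hh hip hp => ?_⟩
  have hRf : Rf J c0 n0 m0 := by
    refine ⟨fun l hl => ?_, ?_⟩
    · have h1 := hH l (Nat.zero_le l) hl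
      have h2 : ⌈m0⌉₊ ≤ c0 l := by
        beta_reduce at h1
        omega
      exact (Nat.le_ceil m0).trans (by exact_mod_cast h2)
    · refine (Nat.le_ceil _).trans ?_
      have h2 : ⌈m0 * (1 + ∑ l ∈ range J, (c0 l : ℝ))⌉₊ ≤ n0 := by omega
      exact_mod_cast h2
  classical
  refine ph1_core (c0 := c0) (n0 := n0) (θm := θm) (m0 := m0) hη hϖ ht0 (by linarith only [ht1]) (by linarith only [ht2])
    ?_ hm0 ?_ ?_ hD hRf hI ?_ ?_ _ σ rfl hin hh hip ?_
  · have h1 : 1 / m0 ≤ θm / 2 := by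
      rw [div_le_iff₀ hm00]
      rw [div_le_iff₀ hθm] at hm3
      linarith only [hm3]
    linarith only [ht3, h1]
  · rw [div_le_iff₀ hη] at hm1
    linarith only [hm1]
  · rw [div_le_iff₀ hϖ] at hm2
    linarith only [hm2]
  · intro σ' h1 h2 h3 h4
    exact hn1P n0 (by omega) σ' I hI (h1.mono subset_rfl le_rfl ht4) h2 h3 h4
  · intro s hs σ' I₁ hI₁ h1 h2 h3 h4
    have h5 : ns s ≤ ∑ s ∈ range D, ns s :=
      single_le_sum (f := fun s => ns s) (fun _ _ => Nat.zero_le _) (mem_range.2 hs)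
    exact hns s hs n0 (by omega) σ' I₁ hI₁ (h1.mono subset_rfl le_rfl (hθms s hs)) h2 h3 h4
  · intro I' hI' D' h1 h2
    refine le_trans ?_ (hp I' hI' D' h1 h2)
    have h3 := hin.om
    exact mul_le_mul_of_nonneg_right (by linarith only [ht1, ht0, h3]) (nz_nn _ _ _ _)

end

end Pool.Agent.GD.AL

end
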