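import Pool.Agent.H94.LP7.GD.N.Cost
import Pool.Agent.H94.LP7.M31
import Pool.Agent.H94.LP7.M62
import Pool.Agent.H94.LP7.M64
import Pool.Agent.H94.LP7.M81

/-! The parts of this file: GD.N.Pack, GD.N.Greedy_1, GD.N.Num. -/

section

/-!
# General d, numerical block: all steps with a given number of main points off `L_j`
-/

set_option autoImplicit false

namespace Pool.Agent.GD

open Finset Filter NU

/-- The numbers with `t` main points off `L_j`. -/
def setT (e j t : ℕ) (T : ℕ → Finset ℕ → ℕ) (x : ℕ) (B : Finset ℕ) : ℕ :=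
  if x = e ∧ B = range j then t else T x B

/-- The numbers of the clusters which are moved off `L_j`. -/
def ocF (P : Par) (j n : ℕ) (ms : Multiset Kd) (i : ℕ) (τ : CT) : ℕ :=
  ms.count (τ.kd P.d P.e i j) - τ.mm P * (n - P.c j) ^ τ.w P.e

/-- The same constants with finer windows on the level `j + 1`. -/
def Par.fin (P : Par) (j : ℕ) : Par := { P with eps := Function.update P.eps (j + 1) (P.bet (j + 1)) }

theorem NU.newP_zero (d e j : ℕ) : newP d e j (fun _ => 0) = 0 := by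
  unfold newP
  exact sum_eq_zero fun τ _ => by
    split_ifs
    · rfl
    · exact zero_nsmul _

theorem NU.newR_zero (d e j : ℕ) : newR d e j (fun _ => 0) = 0 := by
  unfold newR
  exact sum_eq_zero fun τ _ => by simp

theorem NU.nwB_mono (e : ℕ) (c : ℕ → ℕ) (M : ℕ) {n n' : ℕ} (h : n' ≤ n) (τ : CT) :
    nwB e c M n' τ ≤ nwB e c M n τ := by
  cases τ with
  | pl k S => exact Nat.mul_le_mul_left _ (Nat.pow_le_pow_left h _)
  | b0 S => exact Nat.mul_le_mul_left _ (Nat.pow_le_pow_left h _)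
  | br r => exact le_rfl

/-- The steps. -/
theorem pack (d e : ℕ) (kap : ℕ → ℝ) (hk : Crit d e kap) (M₀ : ℕ) : ∃ Cs E : ℝ, 1 ≤ Cs ∧ 0 < E ∧ E ≤ 1 ∧
    ∀ M : ℕ, M₀ ≤ M → ∃ M₁ : ℕ, ∀ P : Par, P.d = d → P.e = e → P.kap = kap → P.M = M → P.Ok Cs E →
      ∀ j < P.J, P.Sz j M₁ → ∀ᶠ n : ℕ in atTop, ∀ ms, Cls P j n ms →
        ∃ X₀ : Multiset Kd, ∀ t : ℕ, t ≤ ms.count (P.u j) →
          |(t : ℝ) - P.kap P.e * P.e * P.c j * (n : ℝ) ^ (P.e - 1)| ≤
            P.eps (j + 1) * P.c j * (n : ℝ) ^ (P.e - 1) →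
          ∀ nw : CT → ℕ, (∀ τ ∈ newT d e j, nw τ ≤ nwB e P.c M₀ n τ) →
            Cls P j (n - P.c j) (X₀ + Multiset.replicate (ms.count (P.u j) - t) (P.u j) + newP d e j nw) ∧
            (X₀ + Multiset.replicate (ms.count (P.u j) - t) (P.u j) + newP d e j nw).count (P.u j) =
              ms.count (P.u j) - t ∧
            ∃ ms' : Multiset Kd, Cls P (j + 1) n ms' ∧ ms'.bind (un j) = ms ∧
              ms'.bind (tr j) = X₀ + Multiset.replicate (ms.count (P.u j) - t) (P.u j) + newP d e j nw +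
                Multiset.replicate (newR d e j nw) (sm P.d) ∧
              ms'.count (P.u (j + 1)) = ms.count (P.u j) - t ∧
              (|(t : ℝ) - P.kap P.e * P.e * P.c j * (n : ℝ) ^ (P.e - 1)| ≤
                P.bet (j + 1) * P.c j * (n : ℝ) ^ (P.e - 1) → Cls (P.fin j) (j + 1) n ms') := by
  obtain ⟨Cs, E3, hCs, hE3, hT⟩ := exists_T d e kap hk
  obtain ⟨E4, hE4, hok⟩ := dat_ok d e kap hk M₀
  refine ⟨Cs, min 1 (min E3 E4), hCs, lt_min one_pos (lt_min hE3 hE4), min_le_left _ _, fun M hM => ?_⟩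
  obtain ⟨M₁, hM₁⟩ := hok M
  refine ⟨M₁, fun P hd he hkap hPM hP j hj hs => ?_⟩
  have hs1 : P.Sz j 1 := ⟨hs.one, hs.one, hs.dec, hs.int⟩
  have hP3 : P.Ok Cs E3 := hP.mono le_rfl (by linarith) ((min_le_right _ _).trans (min_le_left _ _))
  have hP4 : P.Ok 1 E4 := hP.mono hCs (by norm_num) ((min_le_right _ _).trans (min_le_right _ _))
  have hP1 : P.Ok 1 1 := hP.mono hCs (by norm_num) (min_le_left _ _)
  obtain ⟨θ, n1, hθ, h1⟩ := hT P hd he hkap hP3 j hj hs1
  obtain ⟨n2, h2⟩ := hM₁ P hd he hkap hPM hP4 j hj hs θ hθ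
  obtain ⟨n3, h3⟩ := dat_cls d e kap hk M₀ P hd he hkap (hPM ▸ hM) hP1 j hj hs1 θ hθ
  obtain ⟨n4, h4⟩ := dat_cls' d e kap hk M₀ P hd he hkap (hPM ▸ hM) hP1 j hj hs1 θ hθ
  subst hd he
  filter_upwards [eventually_ge_atTop n1, eventually_ge_atTop n2, eventually_ge_atTop n3,
    eventually_ge_atTop n4] with n hn1 hn2 hn3 hn4 ms hms
  obtain ⟨T, hT⟩ := h1 n hn1 ms hms
  obtain ⟨A₀, hA₀, hst⟩ := exists_step P.d P.e j hk.two hj ms (fun k hk => by
    rcases hms.mem k hk with ⟨x, A, h5, h6, h7, h8, _⟩ | h5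
    · exact Or.inl ⟨x, A, h5, h6, h7, h8⟩
    · exact Or.inr h5)
  refine ⟨A₀ T (ocF P j n ms), fun t ht1 ht2 nw hnw => ?_⟩
  obtain ⟨s, hs⟩ : ∃ s : Stp, s = ⟨setT P.e j t T, ocF P j n ms, nw⟩ := ⟨_, rfl⟩
  have hsT : s.T = setT P.e j t T := by rw [hs]
  have hso : s.oc = ocF P j n ms := by rw [hs]
  have hsn : s.nw = nw := by rw [hs]
  have hst' : s.T P.e (range j) = t := by
    rw [hsT]
    unfold setT
    rw [if_pos ⟨rfl, rfl⟩]
  have hne : ∀ x B, (x ≠ P.e ∨ B ≠ range j) → s.T x B = T x B := by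
    intro x B h5
    rw [hsT]
    unfold setT
    rw [if_neg]
    rintro ⟨h6, h7⟩
    rcases h5 with h5 | h5
    · exact h5 h6
    · exact h5 h7
  have hD : P.Dat j n θ M₀ ms s := by
    refine ⟨⟨fun x B hB h5 => ?_, fun x B hx hxd hB hc h5 => ?_⟩, ?_, ?_, ?_, ?_⟩
    · by_cases h6 : x ≠ P.e ∨ B ≠ range j
      · rw [hne x B h6]
        exact hT.out x B hB h5
      · push Not at h6
        obtain ⟨rfl, rfl⟩ := h6
        exact absurd ⟨hk.two, hk.lt, by rw [sdiff_self]; simp⟩ h5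
    · rw [hne x B h5]
      exact hT.gt x B hx hxd hB hc h5
    · rw [hst']
      exact ht1
    · rw [hst']
      exact ht2
    · intro i τ
      rw [hso]
      rfl
    · rw [hsn]
      exact hnw
  obtain ⟨ms', hR⟩ := hst s (h2 n hn2 ms hms s hD)
  have e1 : A₀ s.T s.oc = A₀ T (ocF P j n ms) := by
    rw [hso]
    exact hA₀ s.T _ T fun x B _ h5 => hne x B h5
  rw [e1, hst', hsn] at hR
  have hu : P.u j = Kd.ord P.e (range j) := rfl
  rw [← hu] at hR
  have hR' : s.Res P.d P.e j ms ms' (A₀ T (ocF P j n ms) +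
      Multiset.replicate (ms.count (P.u j) - t) (P.u j) + newP P.d P.e j nw) := hR
  obtain ⟨h5, h6⟩ := h3 n hn3 ms hms s hD ms' _ hR'
  refine ⟨h6, ?_, ms', h5, hR'.un, ?_, ?_, fun h7 => ?_⟩
  · have h7 := hR'.uA
    rw [hst', ← hu] at h7
    omega
  · rw [hR'.tr]
    congr 2
    unfold Stp.r newR
    rw [hsn]
  · have h7 := hR'.on P.e (range j) Subset.rfl
    rw [← range_add_one, hst', npt_u h5, npt_u hms] at h7
    omega
  · refine h4 n hn4 ms hms s hD ms' _ hR' ?_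
    rw [hst']
    exact h7

end Pool.Agent.GD

end

section

/-!
# General d, numerical block: the ladder

The digits of the level `j` in decreasing order of the cost: `pl k ∅` (`k = 2, …`), `b0 ∅` (if it exists),
`br 1, …, br j`; the last one has the exponent `d` and the support `range j`: a simple point.  Adding a trace
point `(E, A)` to `X` lowers `v` by `vd (d - E) (range j ∩ A) c n X` (`vd_cons`), which is in `[lo, hi] * cc A *
n ^ (d - E - |A|)` by `cost` (`A = range j`, `d - E ≥ j`, or `A = Ico r j`, `d - E = j - r`), if `E < d`.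
Start: `0 < v - g ≤ B cc n ^ (d - e - j)`.  `greedy` for every digit: the number of the points of the digit is at
most the ratio of the previous bound and the new cost: `pl k`: `(max B hi / lo) * n ^ (e - 1)`; `b0`: `(max B hi / lo) *
n ^ (e - 2)`; `br r`: `(hi / lo) * c (r - 1)` (for `r = 1` the previous cost is that of `E = d - j`, the last `pl` or
`b0`).  The last digit (`E = d`; `j = 0`: `b0` or the last `pl`; `j ≥ 1`: `br j`) is the number of the simple points: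
`newR` = what remains, exactly.  All partial configurations are in the class by hypothesis (`nw ≤` bound).
-/

set_option autoImplicit false

namespace Pool.Agent.GD

open Finset

/-! ### Auxiliary facts -/

/-- The ladder. -/
theorem ladder (d e : ℕ) (kap : ℕ → ℝ) (hk : Crit d e kap) (B : ℝ) : ∃ (ρ E : ℝ) (M₀ : ℕ), 0 < ρ ∧ 0 < E ∧
    ∀ P : Par, P.d = d → P.e = e → P.kap = kap → P.Ok 1 E → (∀ i < P.J, 1 ≤ P.c i) → ∀ j < P.J, ∃ n₀ : ℕ, ∀ n, n₀ ≤ n →
      ∀ X : Multiset Kd, (X.count (P.u j) : ℝ) ≤ (kap e + ρ) * (n : ℝ) ^ e →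
        (∀ nw : CT → ℕ, (∀ τ ∈ newT d e j, nw τ ≤ nwB e P.c M₀ n τ) → Cls P j n (X + newP d e j nw)) →
          ∀ g : ℤ, 0 < P.v j n X - g → ((P.v j n X - g : ℤ) : ℝ) ≤ B * P.cc (range j) * (n : ℝ) ^ (d - e - j) →
            ∃ nw : CT → ℕ, (∀ τ ∈ newT d e j, nw τ ≤ nwB e P.c M₀ n τ) ∧
              P.v j n (X + newP d e j nw) = g + newR d e j nw ∧ 1 ≤ newR d e j nw := by
  obtain ⟨lo, hi, ρ, E, hlo, hhi, hρ, hE, hcost⟩ := cost d e kap hk
  set C : ℝ := max B hi with hC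
  have hCB : B ≤ C := le_max_left _ _
  have hCh : hi ≤ C := le_max_right _ _
  have hC1 : 1 ≤ C := hhi.trans hCh
  set M₀ : ℕ := ⌈max (C / lo) C⌉₊ with hM₀
  have hM1 : C ≤ lo * M₀ := by
    have h1 : C / lo ≤ M₀ := (le_max_left _ _).trans (Nat.le_ceil _)
    rw [div_le_iff₀ hlo] at h1
    linarith
  have hM2 : C ≤ M₀ := (le_max_right _ _).trans (Nat.le_ceil _)
  refine ⟨ρ, E, M₀, hρ, hE, fun P hd he hkap hOk hc j hj => ?_⟩
  obtain ⟨n₁, hn₁⟩ := hcost P hd he hkap hOk hc j hj.le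
  refine ⟨max n₁ 1, fun n hn X hX hcls g hg0 hg1 => ?_⟩
  have hn1 : n₁ ≤ n := (le_max_left _ _).trans hn
  have hn0 : 1 ≤ n := (le_max_right _ _).trans hn
  have hnR : (1 : ℝ) ≤ n := by exact_mod_cast hn0
  have hJ : P.J = d - e := by unfold Par.J; rw [hd, he]
  have he2 : 2 ≤ e := hk.two
  have hed : e < d := hk.lt
  have hjd : j < d - e := hJ ▸ hj
  have hccpos : ∀ I ⊆ range j, (0 : ℝ) < P.cc I := by
    intro I hI
    have h1 : 0 < P.cc I := Finset.prod_pos fun i hi => hc i ((mem_range.1 (hI hi)).trans hj)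
    exact_mod_cast h1
  have hcc0 : (0 : ℝ) < P.cc (range j) := hccpos _ (Subset.refl _)
  let T := newT d e j
  let b := nwB e P.c M₀ n
  let V : (CT → ℕ) → ℤ := fun nw => P.v j n (X + newP d e j nw) - g
  -- the costs
  have key : ∀ τ ∈ T, τ.E d e j ≠ d → (range j ∩ τ.A j).card ≤ d - τ.E d e j →
      ∀ nw : CT → ℕ, (∀ τ' ∈ T, nw τ' ≤ b τ') →
        lo * P.cc (range j ∩ τ.A j) * (n : ℝ) ^ (d - τ.E d e j - (range j ∩ τ.A j).card) ≤
          ((V nw - V (Function.update nw τ (nw τ + 1)) : ℤ) : ℝ) ∧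
        ((V nw - V (Function.update nw τ (nw τ + 1)) : ℤ) : ℝ) ≤
          hi * P.cc (range j ∩ τ.A j) * (n : ℝ) ^ (d - τ.E d e j - (range j ∩ τ.A j).card) := by
    intro τ hτ hEd hcard nw hnw
    obtain ⟨hE1, hE2⟩ := gr_E he2 hjd hτ
    have h1 : V nw - V (Function.update nw τ (nw τ + 1)) =
        vd (d - τ.E d e j) (range j ∩ τ.A j) P.c n (X + newP d e j nw) := by
      show (P.v j n (X + newP d e j nw) - g) -
        (P.v j n (X + newP d e j (Function.update nw τ (nw τ + 1))) - g) = _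
      rw [gr_succ d e j nw hτ hEd, Multiset.add_cons]
      unfold Par.v
      rw [vd_cons _ _ _ _ _ _ _ (by rw [hd]; exact hE2), hd]
      ring
    rw [h1]
    refine hn₁ n hn1 _ (hcls nw hnw) ?_ (d - τ.E d e j) (by omega) _ inter_subset_left hcard
    have h2 : (X + newP d e j nw).count (P.u j) = X.count (P.u j) := by
      rw [Multiset.count_add]
      have h3 : (newP d e j nw).count (P.u j) = 0 := by
        show (newP d e j nw).count (Kd.ord P.e (range j)) = 0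
        rw [he]
        exact gr_count he2 hjd nw _
      rw [h3, add_zero]
    rw [h2]
    exact hX
  -- the exponents
  let W : ℕ → ℕ := fun i => (d - j - 1) - (i + 1) * (e - 1)
  set K : ℕ := (d - j - 1) / (e - 1) with hK
  set R : ℕ := (d - j - 1) % (e - 1) with hR
  have hKR : K * (e - 1) + R = d - j - 1 := by
    rw [hK, hR, mul_comm]
    exact Nat.div_add_mod _ _
  have hRlt : R < e - 1 := Nat.mod_lt _ (by omega)
  have hK1 : 1 ≤ K := Nat.div_pos (by omega) (by omega)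
  let PL : ℕ → Set CT := fun i => {τ | ∃ k < i + 2, τ = CT.pl k ∅}
  have hpow : ∀ a a' m : ℕ, a ≤ a' + m → (n : ℝ) ^ a ≤ (n : ℝ) ^ a' * (n : ℝ) ^ m := by
    intro a a' m h
    rw [← pow_add]
    exact pow_le_pow_right₀ hnR h
  have stageA : ∀ i, (∀ i' < i, i' + 2 ≤ K ∧ (i' + 2) * (e - 1) + 1 < d) →
      St V T b (PL i) (C * P.cc (range j) * (n : ℝ) ^ W i) := by
    intro i
    induction i with
    | zero =>
      intro _
      refine ⟨fun _ => 0, fun _ _ => Nat.zero_le _, fun _ _ => rfl, ?_, ?_⟩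
      · show 0 < P.v j n (X + newP d e j fun _ => 0) - g
        rw [gr_zero, add_zero]
        exact hg0
      · show ((P.v j n (X + newP d e j fun _ => 0) - g : ℤ) : ℝ) ≤ _
        rw [gr_zero, add_zero]
        refine hg1.trans ?_
        have h1 : W 0 = d - e - j := by
          show (d - j - 1) - (0 + 1) * (e - 1) = d - e - j
          rw [zero_add, one_mul]
          omega
        rw [h1]
        have h2 : 0 < (n : ℝ) ^ (d - e - j) := by positivity
        have h3 : 0 < (P.cc (range j) : ℝ) * (n : ℝ) ^ (d - e - j) := mul_pos hcc0 h2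
        rw [mul_assoc, mul_assoc]
        exact mul_le_mul_of_nonneg_right hCB h3.le
    | succ i ih =>
      intro h
      have hS := ih fun i' hi' => h i' (by omega)
      obtain ⟨hiK, hid⟩ := h i (Nat.lt_succ_self i)
      have hτ : CT.pl (i + 2) ∅ ∈ T := gr_mem.2 (Or.inl ⟨i + 2, by omega, hiK, rfl⟩)
      have hEt : (CT.pl (i + 2) ∅).E d e j = (i + 2) * (e - 1) + 1 := rfl
      have hI : range j ∩ (CT.pl (i + 2) ∅).A j = range j := inter_self _
      have h5 : (i + 2) * (e - 1) ≤ K * (e - 1) := Nat.mul_le_mul_right _ hiK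
      have h6 : W (i + 1) = (d - j - 1) - (i + 2) * (e - 1) := rfl
      have h7 : d - ((i + 2) * (e - 1) + 1) - j = W (i + 1) := by
        rw [h6]
        omega
      have hk1 := key _ hτ (by rw [hEt]; omega) (by
        rw [hI, card_range, hEt]
        omega)
      rw [hI, card_range, hEt, h7] at hk1
      refine hS.digit (τ := CT.pl (i + 2) ∅) ?_ (mul_pos (mul_pos hlo hcc0) (by positivity)) ?_ hk1
        ?_ ?_
      · rintro ⟨k, hk, h8⟩
        injection h8 with h9 h10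
        omega
      · show _ ≤ lo * P.cc (range j) * (n : ℝ) ^ W (i + 1) * ((M₀ * n ^ (e - 1) : ℕ) : ℝ)
        have h8 := hpow (W i) (W (i + 1)) (e - 1) (by
          show (d - j - 1) - (i + 1) * (e - 1) ≤ (d - j - 1) - (i + 1 + 1) * (e - 1) + (e - 1)
          have h9 : (i + 1 + 1) * (e - 1) = (i + 1) * (e - 1) + (e - 1) := by ring
          omega)
        push_cast
        calc C * P.cc (range j) * (n : ℝ) ^ W i
            ≤ (lo * M₀) * P.cc (range j) * ((n : ℝ) ^ W (i + 1) * (n : ℝ) ^ (e - 1)) := by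
              refine mul_le_mul (mul_le_mul_of_nonneg_right hM1 hcc0.le) h8 (by positivity) ?_
              have := hcc0.le
              have := hlo.le
              positivity
          _ = _ := by ring
      · intro τ hτ'
        rcases hτ' with rfl | ⟨k, hk, rfl⟩
        · exact ⟨i + 2, by omega, rfl⟩
        · exact ⟨k, by omega, rfl⟩
      · rw [mul_assoc, mul_assoc]
        refine mul_le_mul_of_nonneg_right hCh ?_
        have := hcc0.le
        positivity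
  rcases Nat.eq_zero_or_pos j with hj0 | hj0
  · -- the level `0`
    subst hj0
    have hcc1 : (P.cc (range 0) : ℝ) = 1 := by
      unfold Par.cc
      simp
    by_cases hR0 : R = 0
    · -- the last digit is the last `pl`
      have hK2 : 2 ≤ K := by
        by_contra h
        have h1 : K = 1 := by omega
        rw [h1] at hKR
        omega
      obtain ⟨K', hK'⟩ : ∃ K', K = K' + 2 := ⟨K - 2, by omega⟩
      have h2 : K * (e - 1) = (K' + 1) * (e - 1) + (e - 1) := by rw [hK']; ring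
      have hS := stageA K' fun i' hi' => ⟨by omega, by
        have h3 : (i' + 2) * (e - 1) ≤ (K' + 1) * (e - 1) := Nat.mul_le_mul_right _ (by omega)
        omega⟩
      have hW : W K' = e - 1 := by
        show (d - 0 - 1) - (K' + 1) * (e - 1) = e - 1
        omega
      refine St.last (w := P.v 0 n) hS (τ := CT.pl K ∅)
        (gr_mem.2 (Or.inl ⟨K, hK2, le_rfl, rfl⟩)) ?_ ?_ ?_
      · show K * (e - 1) + 1 = d
        omega
      · intro τ' hτ' hE'
        rcases gr_mem.1 hτ' with ⟨k, h3, h4, rfl⟩ | ⟨h3, -⟩ | ⟨r, h3, h4, -⟩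
        · have h5 : k * (e - 1) + 1 = d := hE'
          have h6 : k = K := by
            have h7 : k * (e - 1) = K * (e - 1) := by omega
            exact Nat.eq_of_mul_eq_mul_right (by omega) h7
          rw [h6]
        · exact absurd hR0 h3
        · omega
      · rw [hW, hcc1, mul_one]
        show _ ≤ ((M₀ * n ^ (e - 1) : ℕ) : ℝ)
        push_cast
        exact mul_le_mul_of_nonneg_right hM2 (by positivity)
    · -- the last digit is `b0`
      obtain ⟨K', hK'⟩ : ∃ K', K = K' + 1 := ⟨K - 1, by omega⟩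
      have hS := stageA K' fun i' hi' => ⟨by omega, by
        have h3 : (i' + 2) * (e - 1) ≤ K * (e - 1) := Nat.mul_le_mul_right _ (by omega)
        omega⟩
      have hW : W K' = R := by
        show (d - 0 - 1) - (K' + 1) * (e - 1) = R
        rw [← hK']
        omega
      refine St.last (w := P.v 0 n) hS (τ := CT.b0 ∅)
        (gr_mem.2 (Or.inr (Or.inl ⟨hR0, rfl⟩))) ?_ ?_ ?_
      · show d - 0 = d
        omega
      · intro τ' hτ' hE'
        rcases gr_mem.1 hτ' with ⟨k, h3, h4, rfl⟩ | ⟨h3, rfl⟩ | ⟨r, h3, h4, -⟩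
        · have h5 : k * (e - 1) + 1 = d := hE'
          have h6 : k * (e - 1) ≤ K * (e - 1) := Nat.mul_le_mul_right _ h4
          omega
        · rfl
        · omega
      · rw [hW, hcc1, mul_one]
        show _ ≤ ((M₀ * n ^ (e - 2) : ℕ) : ℝ)
        push_cast
        exact mul_le_mul hM2 (pow_le_pow_right₀ hnR (by omega)) (by positivity) (by positivity)
  · -- the higher levels
    obtain ⟨K', hK'⟩ : ∃ K', K = K' + 1 := ⟨K - 1, by omega⟩
    have hS := stageA K' fun i' hi' => ⟨by omega, by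
      have h3 : (i' + 2) * (e - 1) ≤ K * (e - 1) := Nat.mul_le_mul_right _ (by omega)
      omega⟩
    have hW : W K' = R := by
      show (d - j - 1) - (K' + 1) * (e - 1) = R
      rw [← hK']
      omega
    rw [hW] at hS
    let LB : Set CT := insert (CT.b0 ∅) (PL K')
    have stageB : St V T b LB (C * P.cc (range j)) := by
      by_cases hR0 : R = 0
      · refine hS.mono (Set.subset_insert _ _) ?_
        rw [hR0, pow_zero, mul_one]
      · have hτ : CT.b0 ∅ ∈ T := gr_mem.2 (Or.inr (Or.inl ⟨hR0, rfl⟩))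
        have hEt : (CT.b0 ∅).E d e j = d - j := rfl
        have hI : range j ∩ (CT.b0 ∅).A j = range j := inter_self _
        have hk1 := key _ hτ (by rw [hEt]; omega) (by
          rw [hI, card_range, hEt]
          omega)
        have h7 : d - (d - j) - j = 0 := by omega
        rw [hI, card_range, hEt, h7, pow_zero, mul_one, mul_one] at hk1
        refine hS.digit (τ := CT.b0 ∅) ?_ (mul_pos hlo hcc0) ?_ hk1 (Set.Subset.refl _) ?_
        · rintro ⟨k, hk, h8⟩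
          injection h8
        · show _ ≤ lo * P.cc (range j) * ((M₀ * n ^ (e - 2) : ℕ) : ℝ)
          push_cast
          have h8 : (n : ℝ) ^ R ≤ (n : ℝ) ^ (e - 2) := pow_le_pow_right₀ hnR (by omega)
          calc C * P.cc (range j) * (n : ℝ) ^ R
              ≤ (lo * M₀) * P.cc (range j) * (n : ℝ) ^ (e - 2) := by
                refine mul_le_mul (mul_le_mul_of_nonneg_right hM1 hcc0.le) h8 (by positivity) ?_
                have := hcc0.le
                have := hlo.le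
                positivity
            _ = _ := by ring
        · exact mul_le_mul_of_nonneg_right hCh hcc0.le
    have stageC : ∀ r, r < j → St V T b (LB ∪ {τ | ∃ r' ≤ r, τ = CT.br r'})
        (C * P.cc (Ico r j)) := by
      intro r
      induction r with
      | zero =>
        intro _
        refine stageB.mono Set.subset_union_left (le_of_eq ?_)
        rw [Finset.range_eq_Ico]
      | succ r ih =>
        intro hr
        have hS' := ih (by omega)
        have hτ : CT.br (r + 1) ∈ T := gr_mem.2 (Or.inr (Or.inr ⟨r + 1, by omega, by omega, rfl⟩))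
        have hEt : (CT.br (r + 1)).E d e j = d - j + (r + 1) := rfl
        have hsub : Ico (r + 1) j ⊆ range j := fun x hx => mem_range.2 (mem_Ico.1 hx).2
        have hI : range j ∩ (CT.br (r + 1)).A j = Ico (r + 1) j := inter_eq_right.2 hsub
        have hk1 := key _ hτ (by rw [hEt]; omega) (by
          rw [hI, Nat.card_Ico, hEt]
          omega)
        have h7 : d - (d - j + (r + 1)) - (j - (r + 1)) = 0 := by omega
        rw [hI, Nat.card_Ico, hEt, h7, pow_zero, mul_one, mul_one] at hk1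
        have hcc2 := hccpos _ hsub
        have hprod : (P.cc (Ico r j) : ℝ) = P.c r * P.cc (Ico (r + 1) j) := by
          have h8 : P.cc (Ico r j) = P.c r * P.cc (Ico (r + 1) j) := by
            unfold Par.cc
            exact Finset.prod_eq_prod_Ico_succ_bot (by omega) _
          rw [h8]
          push_cast
          rfl
        refine hS'.digit (τ := CT.br (r + 1)) ?_ (mul_pos hlo hcc2) ?_ hk1 ?_ ?_
        · rintro ((h8 | ⟨k, -, h8⟩) | ⟨r', hr', h8⟩)
          · injection h8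
          · injection h8
          · injection h8 with h9
            omega
        · show _ ≤ lo * P.cc (Ico (r + 1) j) * ((M₀ * P.c (r + 1 - 1) : ℕ) : ℝ)
          rw [Nat.add_sub_cancel, hprod]
          push_cast
          have h9 : (0 : ℝ) ≤ P.c r * P.cc (Ico (r + 1) j) := by positivity
          calc C * (P.c r * P.cc (Ico (r + 1) j)) ≤ (lo * M₀) * (P.c r * P.cc (Ico (r + 1) j)) :=
                mul_le_mul_of_nonneg_right hM1 h9
            _ = _ := by ring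
        · intro τ hτ'
          rcases hτ' with rfl | h8 | ⟨r', hr', rfl⟩
          · exact Or.inr ⟨r + 1, le_rfl, rfl⟩
          · exact Or.inl h8
          · exact Or.inr ⟨r', by omega, rfl⟩
        · exact mul_le_mul_of_nonneg_right hCh hcc2.le
    have hS' := stageC (j - 1) (by omega)
    refine St.last (w := P.v j n) hS' (τ := CT.br j)
      (gr_mem.2 (Or.inr (Or.inr ⟨j, hj0, le_rfl, rfl⟩))) ?_ ?_ ?_
    · show d - j + j = d
      omega
    · intro τ' hτ' hE'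
      rcases gr_mem.1 hτ' with ⟨k, h3, h4, rfl⟩ | ⟨h3, rfl⟩ | ⟨r, h3, h4, rfl⟩
      · have h5 : k * (e - 1) + 1 = d := hE'
        have h6 : k * (e - 1) ≤ K * (e - 1) := Nat.mul_le_mul_right _ h4
        omega
      · have h5 : d - j = d := hE'
        omega
      · have h5 : d - j + r = d := hE'
        have h6 : r = j := by omega
        rw [h6]
    · have h1 : P.cc (Ico (j - 1) j) = P.c (j - 1) := by
        unfold Par.cc
        have h2 : Ico (j - 1) j = {j - 1} := by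
          ext x
          rw [mem_Ico, mem_singleton]
          omega
        rw [h2, Finset.prod_singleton]
      rw [h1]
      show _ ≤ ((M₀ * P.c (j - 1) : ℕ) : ℝ)
      push_cast
      exact mul_le_mul_of_nonneg_right hM2 (by positivity)

end Pool.Agent.GD

end

section

/-!
# General d, numerical block: the step `NUM`
-/

set_option autoImplicit false

namespace Pool.Agent.GD

open Finset Filter NU

theorem NU.cc_succ (P : Par) (j : ℕ) : P.cc (range (j + 1)) = P.cc (range j) * P.c j := by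
  unfold Par.cc
  rw [prod_range_succ]

/-- Linear growth along a window. -/
theorem NU.grow_line (f : ℕ → ℝ) (a b : ℕ) (l : ℝ) (h : ∀ t, a ≤ t → t < b → f t + l ≤ f (t + 1)) :
    ∀ k, a + k ≤ b → f a + k * l ≤ f (a + k) := by
  intro k
  induction k with
  | zero => intro _; simp
  | succ k ih =>
    intro hk
    have h1 := ih (by omega)
    have h2 := h (a + k) (by omega) (by omega)
    rw [← add_assoc]
    push_cast
    linarith only [h1, h2]

private theorem ar2 {ε c X : ℝ} (h : 4 ≤ ε * X) (hc : 1 ≤ c) : 1 ≤ ε / 4 * (c * X) := by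
  have h1 : ε / 4 * (c * X) = ε * X / 4 * c := by ring
  rw [h1]
  nlinarith only [h, hc]

private theorem ar3 {ε κ c X W t0 K1 : ℝ} (hWa : W ≤ ε / 2 * c * X) (hεκ : ε ≤ κ / 4) (hcX : 0 < c * X)
    (h2 : κ * c * X ≤ K1 * X) (h3 : K1 * X < t0 + 1) (h4 : 4 ≤ κ * (c * X)) : W ≤ t0 := by
  have h1 : ε / 2 * (c * X) ≤ κ / 8 * (c * X) := by
    apply mul_le_mul_of_nonneg_right _ hcX.le
    linarith only [hεκ]
  nlinarith only [hWa, h2, h3, h4, h1]

private theorem ar6 {ε c X W t0 K1 t : ℝ} (hWa : W ≤ ε / 2 * c * X) (hε : ε ≤ 1) (hcX : 0 < c * X)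
    (h3 : t0 ≤ K1 * X) (h4 : t ≤ t0 + W) : t ≤ (K1 + c) * X := by
  nlinarith only [hWa, hcX, h3, h4, hε]

private theorem ar6' {κ kap K1 c X Z Nu t Cw eps : ℝ} (h1 : t ≤ (K1 + c) * X) (h2 : (K1 + c) * X ≤ κ / 4 * Z)
    (h3 : -(Cw * eps * Z) ≤ Nu - kap * Z) (h4 : Cw * eps ≤ κ / 4) (h5 : κ ≤ kap) (hZ : 0 < Z) (hκ : 0 < κ) :
    t ≤ Nu := by
  have h6 : Cw * eps * Z ≤ κ / 4 * Z := mul_le_mul_of_nonneg_right h4 hZ.le
  have h7 : κ * Z ≤ kap * Z := mul_le_mul_of_nonneg_right h5 hZ.le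
  have h8 : 0 < κ * Z := by positivity
  linarith only [h1, h2, h3, h6, h7, h8]

private theorem ar7 {ε c X W t0 K1 t : ℝ} (hWa : W ≤ ε / 2 * c * X) (hq : 1 ≤ ε / 4 * (c * X))
    (h3 : t0 ≤ K1 * X) (h3' : K1 * X < t0 + 1) (h4 : t ≤ t0 + W) (h5 : t0 ≤ t + W) :
    |t - K1 * X| ≤ ε * c * X := by
  rw [abs_le]
  constructor <;> linarith only [hWa, hq, h3', h5, h3, h4]

private theorem ar8 {kap ρm Z Nu Cw eps : ℝ} (h2 : Nu - kap * Z ≤ Cw * eps * Z) (h4 : Cw * eps ≤ ρm / 4)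
    (hZ : 0 < Z) : Nu ≤ (kap + ρm / 4) * Z := by
  have h6 : Cw * eps * Z ≤ ρm / 4 * Z := mul_le_mul_of_nonneg_right h4 hZ.le
  linarith only [h2, h6]

private theorem ar9 {kap ρm ρ' z Nu a : ℝ} (h1 : a ≤ Nu) (h2 : Nu ≤ (kap + ρm) * z) (h3 : ρm ≤ ρ') (h4 : 0 ≤ z) :
    a ≤ (kap + ρ') * z := by
  have h5 : ρm * z ≤ ρ' * z := mul_le_mul_of_nonneg_right h3 h4
  linarith

private theorem ar10 {b c X t0 K1 : ℝ} (q1 : 1 ≤ b * X) (hc : 1 ≤ c) (h3 : t0 ≤ K1 * X)
    (h3' : K1 * X < t0 + 1) : |t0 - K1 * X| ≤ b * c * X := by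
  have h1 : b * X ≤ b * c * X := by
    have h2 : b * c * X = b * X * c := by ring
    rw [h2]
    nlinarith only [hc, q1]
  rw [abs_le]
  constructor <;> linarith

private theorem ar11 {b c X t0 K1 Z Nu kap Cw eps : ℝ} (h1 : t0 ≤ K1 * X) (h0 : 0 ≤ t0) (hcX : 0 < c * X)
    (h2 : (K1 + c) * X ≤ b / 2 * Z) (h3 : -(Cw * eps * Z) ≤ Nu - kap * Z)
    (h4 : Nu - kap * Z ≤ Cw * eps * Z) (h5 : Cw * eps ≤ b / 2) (hZ : 0 < Z) (hb : 0 < b) :
    |Nu - t0 - kap * Z| ≤ b * Z := by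
  have h6 : Cw * eps * Z ≤ b / 2 * Z := mul_le_mul_of_nonneg_right h5 hZ.le
  have h7 : 0 < b * Z := by positivity
  rw [abs_le]
  constructor <;> linarith only [h1, hcX, h2, h3, h6, h0, h4]

private theorem ar12 {ε c X W : ℝ} (hWb : ε / 2 * c * X < W + 1) (hq : 1 ≤ ε / 4 * (c * X)) :
    ε / 4 * (c * X) ≤ W := by
  linarith only [hWb, hq]

private theorem ar13 {Cs Cw eps b : ℝ} (h1 : 2 * Cw ≤ Cs) (h2 : Cs * eps ≤ b) (h3 : 0 < eps) :
    Cw * eps ≤ b / 2 := by
  have := mul_le_mul_of_nonneg_right h1 h3.le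
  linarith only [h2, this]

theorem num_aux (h2 : ∀ d, ADD d) (d e : ℕ) (kap : ℕ → ℝ) (hk : Crit d e kap) (Cw ρ : ℝ) (hCw : 1 ≤ Cw)
    (hρ : 0 < ρ) (κ : ℝ) (hκ : 0 < κ) (hκm : ∀ x, kap x ≠ 0 → κ ≤ kap x) :
    ∃ Cs E : ℝ, 1 ≤ Cs ∧ 0 < E ∧ E ≤ κ ∧ ∃ M₀ : ℕ, ∀ M : ℕ, M₀ ≤ M → ∃ M₁ : ℕ,
      ∀ P : Par, P.d = d → P.e = e → P.kap = kap → P.M = M → P.Ok Cs E → ∀ j < P.J, P.Sz j M₁ →
        (∀ i < P.J, 1 ≤ P.c i) → ∀ η : ℝ, 0 < η → η ≤ P.eps 0 → NUM P j η Cw ρ := by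
  obtain ⟨lo, hi, ρ1, E1, hlo, hhi, hρ1, hE1, hcost⟩ := cost d e kap hk
  obtain ⟨ρ2, E2, M₀, hρ2, hE2, hlad⟩ := ladder d e kap hk hi
  obtain ⟨C, hC, hva⟩ := va d e kap hk
  obtain ⟨Cs3, E3, hCs3, hE3, hE31, hpack⟩ := pack d e kap hk M₀
  obtain ⟨ρm, hρm0, hρmρ, hρm1, hρm2⟩ : ∃ ρm : ℝ, 0 < ρm ∧ ρm ≤ ρ ∧ ρm ≤ ρ1 ∧ ρm ≤ ρ2 :=
    ⟨min ρ (min ρ1 ρ2), lt_min hρ (lt_min hρ1 hρ2), min_le_left _ _,
      (min_le_right _ _).trans (min_le_left _ _), (min_le_right _ _).trans (min_le_right _ _)⟩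
  obtain ⟨Cs, hCsA, hCsB, hCsC⟩ : ∃ Cs : ℝ, Cs3 ≤ Cs ∧ 2 * Cw ≤ Cs ∧ 16 * (C + 1) / lo ≤ Cs :=
    ⟨max Cs3 (max (2 * Cw) (16 * (C + 1) / lo)), le_max_left _ _,
      (le_max_left _ _).trans (le_max_right _ _), (le_max_right _ _).trans (le_max_right _ _)⟩
  obtain ⟨E, hE0, hEA, hEB, hEC, hED, hEE⟩ : ∃ E : ℝ, 0 < E ∧ E ≤ E1 ∧ E ≤ E2 ∧ E ≤ E3 ∧
      Cw * E ≤ ρm / 4 ∧ Cw * E ≤ κ / 4 := by
    refine ⟨min (min E1 (min E2 E3)) (min (ρm / (4 * Cw)) (κ / (4 * Cw))), ?_, ?_, ?_, ?_, ?_, ?_⟩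
    · refine lt_min (lt_min hE1 (lt_min hE2 hE3)) (lt_min ?_ ?_) <;> positivity
    · exact (min_le_left _ _).trans (min_le_left _ _)
    · exact (min_le_left _ _).trans ((min_le_right _ _).trans (min_le_left _ _))
    · exact (min_le_left _ _).trans ((min_le_right _ _).trans (min_le_right _ _))
    · have h1 : min (min E1 (min E2 E3)) (min (ρm / (4 * Cw)) (κ / (4 * Cw))) ≤ ρm / (4 * Cw) :=
        (min_le_right _ _).trans (min_le_left _ _)
      calc _ ≤ Cw * (ρm / (4 * Cw)) := by gcongr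
        _ = ρm / 4 := by field_simp
    · have h1 : min (min E1 (min E2 E3)) (min (ρm / (4 * Cw)) (κ / (4 * Cw))) ≤ κ / (4 * Cw) :=
        (min_le_right _ _).trans (min_le_right _ _)
      calc _ ≤ Cw * (κ / (4 * Cw)) := by gcongr
        _ = κ / 4 := by field_simp
  have hE1' : E ≤ κ / 4 := by nlinarith only [hEE, hCw, hE0]
  refine ⟨Cs, E, by linarith only [hCw, hCsB], hE0, by linarith, M₀, fun M hM => ?_⟩
  obtain ⟨M₁, hM₁⟩ := hpack M hM
  refine ⟨M₁, fun P hd he hkap hPM hP j hj hs hc1 η hη hη0 => ?_⟩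
  have hP3 : P.Ok Cs3 E3 := hP.mono hCsA (by linarith only [hCs3]) hEC
  have hP1 : P.Ok 1 E1 := hP.mono (by linarith only [hCw, hCsB]) (by norm_num) hEA
  have hP2 : P.Ok 1 E2 := hP.mono (by linarith only [hCw, hCsB]) (by norm_num) hEB
  have hP11 : P.Ok 1 1 := hP.mono (by linarith only [hCw, hCsB]) (by norm_num) (hEC.trans hE31)
  have hPf : (P.fin j).Ok 1 1 := hP11.upd hj
  have hpk := hM₁ P hd he hkap hPM hP3 j hj hs
  obtain ⟨n5, h5⟩ := hcost P hd he hkap hP1 hc1 j hj.le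
  obtain ⟨n6, h6⟩ := hlad P hd he hkap hP2 hc1 j hj
  -- the windows
  obtain ⟨he0, he1, he2⟩ := hP11.eps_mono (i := 0) (j := j) (by omega) hj.le
  obtain ⟨he3, he4, he5⟩ := hP11.eps_mono (i := j) (j := j + 1) (by omega) hj
  obtain ⟨he5, hb0⟩ := he5 (by omega)
  have hεJ : P.eps (j + 1) ≤ E := by
    have h1 := (hP11.eps_mono (i := j + 1) (j := P.J) hj le_rfl).2.1
    linarith only [h1, hP, hP.epsJ]
  have hεJ' : P.eps j ≤ E := by linarith only [he4, hεJ]
  have hceb := hP.eb j hj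
  have hcbe := hP.be j hj
  obtain ⟨b, hbdef⟩ : ∃ b, b = P.bet (j + 1) := ⟨_, rfl⟩
  obtain ⟨ε, hεdef⟩ : ∃ ε, ε = P.eps (j + 1) := ⟨_, rfl⟩
  have hva' := hva (P.fin j) hd he hkap hPf (fun i hi => hc1 i hi) (j + 1) hj (P.bet (j + 1))
    (by
      show Function.update P.eps (j + 1) (P.bet (j + 1)) (j + 1) ≤ P.bet (j + 1)
      rw [Function.update_self]) (by linarith only [hE31, hEC, he5, hεJ])
  obtain ⟨n7, h7⟩ := hva'
  have hcj : (1 : ℝ) ≤ P.c j := by exact_mod_cast hc1 j hj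
  have hcj' : 1 ≤ P.c j := hc1 j hj
  have hcc1 : (1 : ℝ) ≤ P.cc (range j) := by
    have h1 : 1 ≤ P.cc (range j) := Finset.one_le_prod' fun i hi => hc1 i (by
      have := mem_range.1 hi
      omega)
    exact_mod_cast h1
  have hcc2 : ((P.cc (range (j + 1)) : ℕ) : ℝ) = P.cc (range j) * P.c j := by
    rw [cc_succ]
    push_cast
    ring
  subst hd he hkap
  have hκe : κ ≤ P.kap P.e := hκm _ hk.pos.ne'
  have hkp : 0 < P.kap P.e := hk.pos
  have hJ : j < P.d - P.e := hj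
  have he2 := hk.two
  have hed := hk.lt
  obtain ⟨D, hD⟩ : ∃ D, D = P.d - P.e - j := ⟨_, rfl⟩
  have hsub : Tendsto (fun n : ℕ => n - P.c j) atTop atTop := tendsto_sub_atTop_nat _
  obtain ⟨δ, hδ, hδ1⟩ : ∃ δ : ℝ, 0 < δ ∧ (P.kap P.e + ρm / 4) * (1 + δ) ≤ P.kap P.e + ρm := by
    refine ⟨ρm / 2 / (P.kap P.e + ρm / 4), by positivity, ?_⟩
    have h1 : (P.kap P.e + ρm / 4) * (1 + ρm / 2 / (P.kap P.e + ρm / 4)) =
        P.kap P.e + ρm / 4 + ρm / 2 := by
      have : P.kap P.e + ρm / 4 ≠ 0 := by positivity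
      field_simp
    rw [h1]
    linarith only [hρm0]
  suffices hmain : ∀ᶠ n : ℕ in atTop, ∀ ms, Cls P j n ms → ∀ g : ℕ,
      (g : ℝ) ≤ η * P.cc (range j) * (n : ℝ) ^ (P.d - j) →
      |(P.v j n ms : ℝ) - g| ≤ η * P.cc (range j) * (n : ℝ) ^ (P.d - j - 1) →
      |(ms.count (P.u j) : ℝ) - P.kap P.e * (n : ℝ) ^ P.e| ≤ Cw * P.eps j * (n : ℝ) ^ P.e →
        ∃ (ms' A : Multiset Kd) (r : ℕ), Cls P (j + 1) n ms' ∧ Cls P j (n - P.c j) A ∧ 1 ≤ r ∧
          (A.count (P.u j) : ℝ) ≤ (P.kap P.e + ρ) * ((n - P.c j : ℕ) : ℝ) ^ P.e ∧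
          P.v j (n - P.c j) A = g + r ∧ ms'.bind (un j) = ms ∧
          ms'.bind (tr j) = A + Multiset.replicate r (sm P.d) by
    obtain ⟨n₀, h⟩ := eventually_atTop.1 hmain
    exact ⟨n₀, h⟩
  have hXe : P.e - 1 + 1 = P.e := by omega
  filter_upwards [hpk, hsub.eventually_ge_atTop n5, hsub.eventually_ge_atTop n6,
    eventually_ge_atTop n7, ev_le 1 b (hbdef ▸ hb0) (P.e - 1) (by omega),
    ev_pow (P.kap P.e * P.e * P.c j + P.c j) (b / 2) (by rw [hbdef]; linarith only [hb0]) (P.e - 1),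
    ev_pow (P.kap P.e * P.e * P.c j + P.c j) (κ / 4) (by linarith only [hE0, hE1']) (P.e - 1),
    ev_ratio (P.c j) P.e δ hδ, ev_ratio (P.c j) D 1 one_pos,
    ev_le 4 ε (by rw [hεdef]; linarith only [hη, hη0, he1, he4]) (P.e - 1) (by omega),
    ev_le 4 κ hκ (P.e - 1) (by omega), eventually_ge_atTop 1] with n hpk hn5 hn6 hn7 q1 q2 q2' q3 q4 q5 q6 hn1
    ms hms g hg hvg hNu
  rw [hXe] at q2 q2'
  rw [← hbdef] at hb0 he5 hceb hcbe h7
  rw [← hεdef] at hεJ he5 hcbe he4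
  obtain ⟨n', hn'⟩ : ∃ n', n' = n - P.c j := ⟨_, rfl⟩
  rw [← hn'] at hn5 hn6 q3 q4
  obtain ⟨X, hX⟩ : ∃ X, X = (n : ℝ) ^ (P.e - 1) := ⟨_, rfl⟩
  obtain ⟨Z, hZ⟩ : ∃ Z, Z = (n : ℝ) ^ P.e := ⟨_, rfl⟩
  obtain ⟨Nu, hNudef⟩ : ∃ Nu, Nu = ms.count (P.u j) := ⟨_, rfl⟩
  obtain ⟨X₀, hX₀⟩ := hpk ms hms
  rw [← hNudef, ← hεdef, ← hbdef, ← hX, ← hn'] at hX₀
  rw [← hX] at q1 q2 q2' q5 q6
  rw [← hZ] at q2 q2' q3
  rw [← hNudef, ← hZ] at hNu
  have hn0 : (0 : ℝ) < n := by exact_mod_cast hn1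
  have hX0 : 0 < X := by rw [hX]; positivity
  have hZ0 : 0 < Z := by rw [hZ]; positivity
  have hb0' : 0 < b := hb0
  have hε1 : ε ≤ 1 := by linarith only [hE31, hEC, hεJ]
  have hε0' : 0 < ε := by linarith only [hη, hη0, he1, he4]
  -- constants
  obtain ⟨K1, hK1⟩ : ∃ K1, K1 = P.kap P.e * P.e * P.c j := ⟨_, rfl⟩
  rw [← hK1] at hX₀ q2 q2'
  have hee : (1 : ℝ) ≤ P.e := by exact_mod_cast (show 1 ≤ P.e by omega)
  have hK1κ : κ * P.c j ≤ K1 := by
    rw [hK1]
    have h1 : κ ≤ P.kap P.e * P.e := hκe.trans (le_mul_of_one_le_right hkp.le hee)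
    exact mul_le_mul_of_nonneg_right h1 (by linarith only [hcj])
  have hK10 : 0 < K1 := by
    rw [hK1]
    have : (0 : ℝ) < P.e := by linarith only [hee]
    have : (0 : ℝ) < P.c j := by linarith only [hcj]
    positivity
  have ht0a : (⌊K1 * X⌋₊ : ℝ) ≤ K1 * X := Nat.floor_le (by positivity)
  have ht0b : K1 * X < ⌊K1 * X⌋₊ + 1 := Nat.lt_floor_add_one _
  have hWa : (⌊ε / 2 * P.c j * X⌋₊ : ℝ) ≤ ε / 2 * P.c j * X := Nat.floor_le (by positivity)
  have hWb : ε / 2 * P.c j * X < ⌊ε / 2 * P.c j * X⌋₊ + 1 := Nat.lt_floor_add_one _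
  obtain ⟨t0, ht0⟩ : ∃ t0, t0 = ⌊K1 * X⌋₊ := ⟨_, rfl⟩
  obtain ⟨W, hW⟩ : ∃ W, W = ⌊ε / 2 * P.c j * X⌋₊ := ⟨_, rfl⟩
  rw [← ht0] at ht0a ht0b
  rw [← hW] at hWa hWb
  have hcX : X ≤ P.c j * X := le_mul_of_one_le_left hX0.le hcj
  have hcX0 : 0 < P.c j * X := lt_of_lt_of_le hX0 hcX
  have q5' : 1 ≤ ε / 4 * (P.c j * X) := ar2 q5 hcj
  have hWt : (W : ℝ) ≤ t0 := by
    refine ar3 hWa (by linarith only [hE1', hεJ]) hcX0 (mul_le_mul_of_nonneg_right hK1κ hX0.le) ht0b ?_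
    have h1 : κ * X ≤ κ * (P.c j * X) := mul_le_mul_of_nonneg_left hcX hκ.le
    linarith only [q6, h1]
  have hWt' : W ≤ t0 := by exact_mod_cast hWt
  have hNu1 := (abs_le.1 hNu).1
  have hNu2 := (abs_le.1 hNu).2
  have hCwE : Cw * P.eps j ≤ Cw * E := mul_le_mul_of_nonneg_left hεJ' (by linarith only [hCw])
  have hCwε : Cw * P.eps j ≤ κ / 4 := hCwE.trans hEE
  have hCwε' : Cw * P.eps j ≤ ρm / 4 := hCwE.trans hED
  have hCwb : Cw * P.eps j ≤ b / 2 := ar13 hCsB hceb he3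
  have hWn : ∀ t : ℕ, t0 - W ≤ t → t ≤ t0 + W → t ≤ Nu ∧ |(t : ℝ) - K1 * X| ≤ ε * P.c j * X := by
    intro t h1 h2'
    have h3 : (t0 : ℝ) ≤ t + W := by exact_mod_cast (show t0 ≤ t + W by omega)
    have h4 : (t : ℝ) ≤ t0 + W := by exact_mod_cast h2'
    refine ⟨?_, ?_⟩
    · have h5 : (t : ℝ) ≤ (K1 + P.c j) * X := ar6 hWa hε1 hcX0 ht0a h4
      have h6 : (t : ℝ) ≤ Nu := ar6' h5 q2' hNu1 hCwε hκe hZ0 hκ
      exact_mod_cast h6
    · exact ar7 hWa q5' ht0a ht0b h4 h3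
  have hZn' : Z ≤ (1 + δ) * (n' : ℝ) ^ P.e := q3
  have hcnt : (Nu : ℝ) ≤ (P.kap P.e + ρm) * (n' : ℝ) ^ P.e := by
    have h1 : (Nu : ℝ) ≤ (P.kap P.e + ρm / 4) * Z := ar8 hNu2 hCwε' hZ0
    calc (Nu : ℝ) ≤ (P.kap P.e + ρm / 4) * Z := h1
      _ ≤ (P.kap P.e + ρm / 4) * ((1 + δ) * (n' : ℝ) ^ P.e) :=
          mul_le_mul_of_nonneg_left hZn' (by positivity)
      _ = ((P.kap P.e + ρm / 4) * (1 + δ)) * (n' : ℝ) ^ P.e := by ring
      _ ≤ _ := mul_le_mul_of_nonneg_right hδ1 (by positivity)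
  have hcnt' : ∀ (ρ' : ℝ) (t : ℕ), ρm ≤ ρ' →
      ((Nu - t : ℕ) : ℝ) ≤ (P.kap P.e + ρ') * (n' : ℝ) ^ P.e := by
    intro ρ' t h1
    have h3 : ((Nu - t : ℕ) : ℝ) ≤ Nu := by exact_mod_cast Nat.sub_le _ _
    exact ar9 h3 hcnt h1 (by positivity)
  -- the configurations without new clusters
  obtain ⟨Y, hY⟩ : ∃ Y : ℕ → Multiset Kd, Y = fun t => X₀ + Multiset.replicate (Nu - t) (P.u j) :=
    ⟨_, rfl⟩
  have hYt : ∀ t, X₀ + Multiset.replicate (Nu - t) (P.u j) = Y t := fun t => by rw [hY]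
  simp only [hYt] at hX₀
  have hY0 : ∀ t, t0 - W ≤ t → t ≤ t0 + W → Cls P j n' (Y t) ∧ (Y t).count (P.u j) = Nu - t := by
    intro t h1 h2'
    obtain ⟨h3, h4⟩ := hWn t h1 h2'
    obtain ⟨h5, h6, _⟩ := hX₀ t h3 h4 (fun _ => 0) (fun _ _ => Nat.zero_le _)
    rw [newP_zero, add_zero] at h5 h6
    exact ⟨h5, h6⟩
  have hcst : ∀ t, t0 - W ≤ t → t < t0 + W →
      P.v j n' (Y (t + 1)) = P.v j n' (Y t) + vd (P.d - P.e) (range j) P.c n' (Y (t + 1)) ∧
      lo * P.cc (range j) * (n' : ℝ) ^ D ≤ (vd (P.d - P.e) (range j) P.c n' (Y (t + 1)) : ℝ) ∧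
      (vd (P.d - P.e) (range j) P.c n' (Y (t + 1)) : ℝ) ≤ hi * P.cc (range j) * (n' : ℝ) ^ D := by
    intro t h1 h2'
    obtain ⟨h3, h4⟩ := hY0 (t + 1) (by omega) (by omega)
    have h5' := h5 n' hn5 (Y (t + 1)) h3 (by rw [h4]; exact hcnt' ρ1 (t + 1) hρm1) (P.d - P.e)
      (by omega) (range j) Subset.rfl (by rw [card_range]; omega)
    rw [card_range, ← hD] at h5'
    refine ⟨?_, h5'⟩
    have h6 : Y t = P.u j ::ₘ Y (t + 1) := by
      have h7 := (hWn (t + 1) (by omega) (by omega)).1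
      rw [← hYt, ← hYt, show Nu - t = Nu - (t + 1) + 1 by omega, Multiset.replicate_succ,
        Multiset.add_cons]
    have h7 := vd_cons P.d (range j) P.c n' (Y (t + 1)) P.e (range j) hed.le
    rw [inter_self] at h7
    rw [h6]
    unfold Par.v
    rw [h7]
    ring
  -- the value at `t0`
  have hf0 : |(P.v j n' (Y t0) : ℝ) - g| ≤ (C + 1) * b * (P.cc (range j) * P.c j) * (n : ℝ) ^ (P.d - j - 1) := by
    obtain ⟨h3, h4⟩ := hWn t0 (by omega) (by omega)
    obtain ⟨_, _, ms', h5, h6, h7', h8, h9⟩ := hX₀ t0 h3 h4 (fun _ => 0) (fun _ _ => Nat.zero_le _)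
    rw [newP_zero, add_zero, newR_zero, Multiset.replicate_zero, add_zero] at h7'
    have h10 : |(t0 : ℝ) - K1 * X| ≤ b * P.c j * X := ar10 q1 hcj ht0a ht0b
    have h11 := h9 h10
    have h12 := h7 n hn7 ms' h11 (by
      show |((ms'.count (P.u (j + 1)) : ℕ) : ℝ) - P.kap P.e * (n : ℝ) ^ P.e| ≤ b * (n : ℝ) ^ P.e
      rw [h8, ← hZ, Nat.cast_sub h3]
      exact ar11 ht0a (Nat.cast_nonneg _) hcX0 q2 hNu1 hNu2 hCwb hZ0 hb0) P.d le_rfl (range (j + 1)) Subset.rfl (by rw [card_range]; omega)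
    rw [hk.crit, card_range, mul_zero, zero_mul, zero_mul, sub_zero] at h12
    have h13 := h2 P.d j P.c n ms' (h5.ok hk.two hj)
    rw [h6, h7', ← hn'] at h13
    have h14 : (P.v j n ms : ℝ) = P.v j n' (Y t0) + (vd P.d (range (j + 1)) P.c n ms' : ℝ) := by
      unfold Par.v
      rw [h13]
      push_cast
      ring
    have h15 : (P.v j n' (Y t0) : ℝ) - g = (P.v j n ms - g) - (vd P.d (range (j + 1)) P.c n ms' : ℝ) := by
      rw [h14]
      ring
    rw [h15]
    refine (abs_sub _ _).trans ?_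
    have h16 : ((P.fin j).cc (range (j + 1)) : ℝ) = P.cc (range j) * P.c j := hcc2
    rw [h16, show P.d - (j + 1) = P.d - j - 1 by omega] at h12
    have h17 : η * P.cc (range j) * (n : ℝ) ^ (P.d - j - 1) ≤
        b * (P.cc (range j) * P.c j) * (n : ℝ) ^ (P.d - j - 1) := by
      apply mul_le_mul_of_nonneg_right _ (by positivity)
      have h18 : η ≤ b := by
        have h21 : P.eps j ≤ Cs * P.eps j := le_mul_of_one_le_left he3.le (by linarith only [hCw, hCsB])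
        linarith only [hη0, he1, hceb, h21]
      have h19 : (P.cc (range j) : ℝ) ≤ P.cc (range j) * P.c j :=
        le_mul_of_one_le_right (by positivity) hcj
      exact mul_le_mul h18 h19 (by positivity) hb0.le
    have h20 : |(vd P.d (range (j + 1)) P.c n ms' : ℝ)| ≤
        C * b * (P.cc (range j) * P.c j) * (n : ℝ) ^ (P.d - j - 1) := h12
    calc _ ≤ _ := add_le_add (hvg.trans h17) h20
      _ = _ := by ring
  -- growth over the window
  have hgr : (C + 1) * b * (P.cc (range j) * P.c j) * (n : ℝ) ^ (P.d - j - 1) <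
      W * (lo * P.cc (range j) * (n' : ℝ) ^ D) := by
    have h1 : (n : ℝ) ^ (P.d - j - 1) = X * (n : ℝ) ^ D := by
      rw [hX, ← pow_add]
      congr 1
      omega
    have h3 : (n : ℝ) ^ D ≤ 2 * (n' : ℝ) ^ D := by linarith only [q4]
    have h4 : ε / 4 * (P.c j * X) ≤ W := ar12 hWb q5'
    have h5 : 2 * ((C + 1) * b) ≤ ε * lo / 8 := by
      have h6 : 16 * (C + 1) / lo * b ≤ ε := (mul_le_mul_of_nonneg_right hCsC hb0.le).trans hcbe
      have h7 : 16 * (C + 1) / lo * b = (16 * (C + 1) * b) / lo := by ring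
      rw [h7, div_le_iff₀ hlo] at h6
      linarith only [h6]
    have h6 : 0 < (P.cc (range j) : ℝ) * P.c j * (X * (n : ℝ) ^ D) := by positivity
    have h7 : (C + 1) * b < 2 * ((C + 1) * b) := by
      have : 0 < (C + 1) * b := by positivity
      linarith only [this]
    calc _ = (C + 1) * b * (P.cc (range j) * P.c j * (X * (n : ℝ) ^ D)) := by rw [h1]; ring
      _ < 2 * ((C + 1) * b) * (P.cc (range j) * P.c j * (X * (n : ℝ) ^ D)) :=
          mul_lt_mul_of_pos_right h7 h6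
      _ ≤ ε * lo / 8 * (P.cc (range j) * P.c j * (X * (n : ℝ) ^ D)) :=
          mul_le_mul_of_nonneg_right h5 h6.le
      _ = ε / 4 * (P.c j * X) * (lo * P.cc (range j) * ((n : ℝ) ^ D / 2)) := by ring
      _ ≤ W * (lo * P.cc (range j) * (n' : ℝ) ^ D) := by
          apply mul_le_mul h4 _ (by positivity) (by positivity)
          apply mul_le_mul_of_nonneg_left _ (by positivity)
          linarith only [q4]
  have hline := grow_line (fun t => (P.v j n' (Y t) : ℝ)) (t0 - W) (t0 + W)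
    (lo * P.cc (range j) * (n' : ℝ) ^ D) (fun t h1 h2' => by
      obtain ⟨h3, h4, _⟩ := hcst t h1 h2'
      show (P.v j n' (Y t) : ℝ) + _ ≤ (P.v j n' (Y (t + 1)) : ℝ)
      rw [h3]
      push_cast
      linarith only [h4])
  have hline' := grow_line (fun t => (P.v j n' (Y t) : ℝ)) t0 (t0 + W)
    (lo * P.cc (range j) * (n' : ℝ) ^ D) (fun t h1 h2' => by
      obtain ⟨h3, h4, _⟩ := hcst t (by omega) h2'
      show (P.v j n' (Y t) : ℝ) + _ ≤ (P.v j n' (Y (t + 1)) : ℝ)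
      rw [h3]
      push_cast
      linarith only [h4])
  have hlow := hline W (by omega)
  have hup := hline' W le_rfl
  rw [show t0 - W + W = t0 by omega] at hlow
  obtain ⟨hf1, hf2⟩ := abs_le.1 hf0
  have hneg : P.v j n' (Y (t0 - W)) - (g : ℤ) ≤ 0 := by
    have h1 : (P.v j n' (Y (t0 - W)) : ℝ) - g ≤ 0 := by
      have h3 : (P.v j n' (Y (t0 - W)) : ℝ) + W * (lo * P.cc (range j) * (n' : ℝ) ^ D) ≤
        (P.v j n' (Y t0) : ℝ) := hlow
      linarith only [hgr, hlow, hf2]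
    exact_mod_cast h1
  have hpos : 0 < P.v j n' (Y (t0 + W)) - (g : ℤ) := by
    have h1 : (0 : ℝ) < (P.v j n' (Y (t0 + W)) : ℝ) - g := by
      have h3 : (P.v j n' (Y t0) : ℝ) + W * (lo * P.cc (range j) * (n' : ℝ) ^ D) ≤
        (P.v j n' (Y (t0 + W)) : ℝ) := hup
      linarith only [hgr, hup, hf1]
    exact_mod_cast h1
  obtain ⟨t, ht1, ht2, ht3, ht4⟩ := first_pos (fun t => P.v j n' (Y t) - (g : ℤ)) (t0 - W) (t0 + W)
    (by omega) hneg hpos
  obtain ⟨h8, h9, h10⟩ := hcst t ht1 ht2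
  obtain ⟨h11, h12⟩ := hY0 (t + 1) (by omega) (by omega)
  obtain ⟨h13, h14⟩ := hWn (t + 1) (by omega) (by omega)
  obtain ⟨nw, hnw, hv, hr⟩ := h6 n' hn6 (Y (t + 1)) (by rw [h12]; exact hcnt' ρ2 (t + 1) hρm2)
    (fun nw hnw => (hX₀ (t + 1) h13 h14 nw fun τ hτ => (hnw τ hτ).trans
      (nwB_mono _ _ _ (by omega) τ)).1) g ht4 (by
      have h15 : ((P.v j n' (Y (t + 1)) - g : ℤ) : ℝ) =
          ((P.v j n' (Y t) - g : ℤ) : ℝ) + (vd (P.d - P.e) (range j) P.c n' (Y (t + 1)) : ℝ) := by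
        rw [h8]
        push_cast
        ring
      have h16 : ((P.v j n' (Y t) - g : ℤ) : ℝ) ≤ 0 := by exact_mod_cast ht3
      rw [h15, ← hD]
      linarith only [h10, h16])
  obtain ⟨h15, h16, ms', h17, h18, h19, _, _⟩ := hX₀ (t + 1) h13 h14 nw fun τ hτ =>
    (hnw τ hτ).trans (nwB_mono _ _ _ (by omega) τ)
  rw [← hn']
  refine ⟨ms', Y (t + 1) + newP P.d P.e j nw, newR P.d P.e j nw, h17, h15, hr, ?_, hv, h18, h19⟩
  rw [h16]
  exact hcnt' ρ (t + 1) hρmρ

theorem targetNum (h2 : ∀ d, ADD d) : TargetNum := by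
  intro d e kap hk Cw ρ hCw hρ
  obtain ⟨κ, hκ, hκm⟩ := exists_kapm hk
  obtain ⟨Cs, E, hCs, hE, hEκ, M₀, h⟩ := num_aux h2 d e kap hk Cw ρ hCw hρ κ hκ hκm
  refine ⟨Cs, E, hCs, hE, M₀, fun P hd he hkap hP hM => ?_⟩
  obtain ⟨M₁, hM₁⟩ := h P.M hM
  obtain ⟨N, F, hN, hsz⟩ := exists_sz P hP hCs (fun x hx => by rw [hkap] at hx ⊢; exact hκm x hx) hEκ M₁
  refine ⟨N, F, hN, fun c hc j hj η hη hη0 => ?_⟩
  exact hM₁ (P.wc c) hd he hkap rfl (hP.wc c) j hj (hsz c hc j hj) (fun i hi => (hc i hi).2.1) η hη hη0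

end Pool.Agent.GD

end
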