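import Pool.Agent.H94.LP7.GD.AL.Tr_2
import Pool.Agent.H94.LP7.M50
import Pool.Agent.H94.LP7.M71

/-! The parts of this file: GD.AL.BT_1, GD.AL.XO_1. -/

section

/-!
# General d, ALPHA: the finite systems

`bt_all`: the states with few objects of positive `W`-degree are exact.
-/

set_option autoImplicit false

namespace Pool.Agent.GD.AL

open Finset

section num

end num

section stage

variable {d J : ℕ}

end stage

/-! ### The base -/

/-! ### The step -/

theorem bt_step {d J i D : ℕ} (hD : D ≤ d) (hi : i < J) (ih : ∀ D' < D, BT d J i D')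
    (h : ∀ D' ≤ D, BT d J (i + 1) D') : BT d J i D := by
  intro η' hη'
  set η : ℝ := min η' 1 with hηdef
  have hη : 0 < η := lt_min hη' one_pos
  have hη1 : η ≤ 1 := min_le_right _ _
  obtain ⟨C, hC⟩ := pos_low d J hη hη1
  have hd0 : (0 : ℝ) < 2 ^ (d + 1) * d.factorial :=
    mul_pos (pow_pos two_pos _) (Nat.cast_pos.2 (Nat.factorial_pos d))
  have hd1 : (1 : ℝ) ≤ 2 ^ (d + 1) * d.factorial := by
    have e1 : (1 : ℝ) ≤ 2 ^ (d + 1) := one_le_pow₀ one_le_two
    have e2 : (1 : ℝ) ≤ d.factorial := by exact_mod_cast Nat.factorial_pos d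
    nlinarith only [e2, e1]
  obtain ⟨η₁, ϖ₁, K₁, hη₁, hη₁1, hϖ₁, hϖ₁1, hK₁, tr⟩ := tr_ord d J
    (η := η / (2 ^ (d + 1) * d.factorial)) (ϖ := η / 2) (div_pos hη hd0)
    ((div_le_one hd0).2 (hη1.trans hd1)) (half_pos hη) (by linarith)
  obtain ⟨K2, k2, F2, q2, h2⟩ := bt_unif (range D) (fun D' hD' => ih D' (mem_range.1 hD')) hη₁
  obtain ⟨K4, k4, F4, q4, h4⟩ := bt_unif (range D) (fun D' hD' => ih D' (mem_range.1 hD'))
    (half_pos hη)
  obtain ⟨K3, k3, F3, q3, h3⟩ := bt_unif (range (D + 1))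
    (fun D' hD' => h D' (Nat.lt_succ_iff.1 (mem_range.1 hD'))) hη₁
  obtain ⟨K5, k5, F5, q5, h5⟩ := bt_unif (range (D + 1))
    (fun D' hD' => h D' (Nat.lt_succ_iff.1 (mem_range.1 hD'))) hη
  set G3 : (ℕ → ℕ) → ℕ := fun r => q3 (rs (i + 1 + 1) J r) * (r (i + 1) + 1) ^ k3 with hG3
  set G5 : (ℕ → ℕ) → ℕ := fun r => q5 (rs (i + 1 + 1) J r) * (r (i + 1) + 1) ^ k5 with hG5
  set M := ⌈1 / η⌉₊ with hM
  set Q := ⌈1 / ϖ₁⌉₊ with hQ
  set B := ⌈K₁⌉₊ with hB
  obtain ⟨k, q, hq⟩ := w1F_pb d J C B Q M k2 k4 q2 q4 G3 G5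
  obtain ⟨Fl, hFl⟩ := ((SF_pb J).add (w1F_pb d J C B Q M k2 k4 q2 q4 G3 G5)).log K₁
  refine ⟨K2 + K3 + K4 + K5 + B + ⌈2 / η⌉₊ + 1, k, fun r => F2 r + F3 r + F4 r + F5 r + Fl r, q,
    fun c0 hF σ I hI hK hc hm hT hV hw => ?_⟩
  set K := K2 + K3 + K4 + K5 + B + ⌈2 / η⌉₊ + 1 with hKdef
  set r := rs (i + 1) J c0 with hr
  have hx : rs i J c0 i = c0 i := if_pos ⟨le_rfl, hi⟩
  rw [hx] at hw
  set x := c0 i with hxdef
  have hFF : ∀ l, i ≤ l → l < J → F2 (rs (l + 1) J c0) + F3 (rs (l + 1) J c0) +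
      F4 (rs (l + 1) J c0) + F5 (rs (l + 1) J c0) + Fl (rs (l + 1) J c0) ≤ c0 l := hF
  have hF2 : Hr i J F2 c0 := fun l hl hl' => le_trans (by omega) (hFF l hl hl')
  have hF4 : Hr i J F4 c0 := fun l hl hl' => le_trans (by omega) (hFF l hl hl')
  have hF3 : Hr (i + 1) J F3 c0 := fun l hl hl' => le_trans (by omega) (hFF l (by omega) hl')
  have hF5 : Hr (i + 1) J F5 c0 := fun l hl hl' => le_trans (by omega) (hFF l (by omega) hl')
  have hFlx : Fl r ≤ x := by
    have e1 := hFF i le_rfl hi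
    show Fl (rs (i + 1) J c0) ≤ c0 i
    omega
  set w1 := w1F d J C B Q M k2 k4 q2 q4 G3 G5 r x with hw1
  set m := mFb J M r x with hmdef
  set S := SF J r x with hS
  have hw1eq : w1 = Q * (q2 r * (x + 1) ^ k2 + G3 r + q4 r * (x + 1) ^ k4 + G5 r + d * m) +
    C * (m + S + 1) ^ (d + 1) + B * (1 + S) ^ (d + 1) + S := rfl
  have hw1W : w1 ≤ q r * (x + 1) ^ k := hq r x
  have hQ1 : 1 ≤ Q := by
    have e1 : (0 : ℝ) < 1 / ϖ₁ := one_div_pos.2 hϖ₁
    exact Nat.one_le_iff_ne_zero.2 (Nat.ceil_pos.2 e1).ne'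
  have hQϖ : (1 : ℝ) ≤ ϖ₁ * Q := by
    have e1 : 1 / ϖ₁ ≤ (Q : ℝ) := Nat.le_ceil _
    rw [div_le_iff₀ hϖ₁] at e1
    linarith only [e1]
  -- the constants
  have hηη' : η ≤ η' := min_le_left _ _
  have hWle : q4 r * (x + 1) ^ k4 ≤ w1 := by
    have e1 : q4 r * (x + 1) ^ k4 ≤ Q * (q2 r * (x + 1) ^ k2 + G3 r + q4 r * (x + 1) ^ k4 + G5 r +
      d * m) := by
      refine le_trans ?_ (Nat.le_mul_of_pos_left _ hQ1)
      omega
    omega
  have hηK : (2 : ℝ) ≤ η * (K : ℕ) := by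
    have e1 : 2 / η ≤ ((K : ℕ) : ℝ) :=
      (Nat.le_ceil _).trans (Nat.cast_le.2 (by omega))
    rw [div_le_iff₀ hη] at e1
    linarith only [e1]
  refine bt_W (i := i) (c0 := c0) (K := K) (W := q r * (x + 1) ^ k) hD hη hηK ?_ ?_ σ I
    ⟨hI, hK, hc, hm, hT, fun I' hI' => (mul_le_mul_of_nonneg_right hηη'
      (BTS.prod_nonneg c0 I')).trans (hV I' hI'), hw⟩
  · intro σ I hs D' hD'
    refine h4 c0 hF4 σ I (hs.weak le_rfl (by omega) ?_) D' (mem_range.2 hD')
    rw [hx]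
    exact hWle.trans hw1W
  clear hw hV hT hm hc hK hI
  intro σ I hs hfull
  set I1 := I ∩ Ico i J with hI1
  have h1I : I1 ⊆ I := inter_subset_left
  have h1J : I1 ⊆ Ico i J := inter_subset_right
  have h1R : I1 ⊆ range J := h1I.trans hs.hI
  have hTi : ∀ y A, .ord y A ∈ σ.ms → I \ A ⊆ Ico i J := fun y A hk => hs.hT y A hk (hfull y A hk)
  have hI1A : ∀ y A, .ord y A ∈ σ.ms → I1 \ A = I \ A := by
    intro y A hk
    refine subset_antisymm (sdiff_subset_sdiff h1I subset_rfl) fun l hl => ?_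
    rw [mem_sdiff] at hl ⊢
    exact ⟨Finset.mem_inter.2 ⟨hl.1, hTi y A hk (mem_sdiff.2 hl)⟩, hl.2⟩
  have hc1 : ∀ l ∈ I, 1 ≤ c0 l := fun l hl => le_trans (by omega) (hs.hK l hl)
  have hprod1 : ∀ I' ⊆ I, (1 : ℝ) ≤ ∏ l ∈ I', (c0 l : ℝ) := by
    intro I' hI'
    have e1 : 1 ≤ ∏ l ∈ I', c0 l := one_le_prod' fun l hl => hc1 l (hI' hl)
    exact_mod_cast e1
  -- the number of the objects
  have hcard : σ.ms.card ≤ m := by
    have e1 := card_low (σ := σ) (η := η) h1R hs.adm (fun I' hI' => hs.V0 hη.le I' (hI'.trans h1I))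
      (fun I' hI' => le_trans (by nlinarith only [hη, hprod1, hI', h1I, hprod1 I' (hI'.trans h1I)])
        (hs.hV I' (hI'.trans h1I))) (fun y A hk => by rw [hI1A y A hk]; exact hfull y A hk)
    have e2 : ∏ l ∈ I1, (σ.c l : ℝ) ≤ ∏ l ∈ I1, (c0 l : ℝ) :=
      prod_le_prod (fun _ _ => Nat.cast_nonneg _) fun l _ => Nat.cast_le.2 (hs.hc l)
    have e3 : ∏ l ∈ I1, (c0 l : ℝ) ≤ (((x + 1) * ∏ l ∈ range J, (r l + 1) : ℕ) : ℝ) := by
      have e4 := prod_rs (c0 := c0) hi h1J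
      exact_mod_cast e4
    have e4 : (1 : ℝ) ≤ η * M := by
      have e5 : 1 / η ≤ (M : ℝ) := Nat.le_ceil _
      rw [div_le_iff₀ hη] at e5
      linarith only [e5]
    set P : ℕ := (x + 1) * ∏ l ∈ range J, (r l + 1) with hP
    have e5 : (σ.ms.card : ℝ) ≤ ((M * P : ℕ) : ℝ) := by
      push_cast
      have e6 : η * σ.ms.card ≤ (P : ℝ) := e1.trans (e2.trans e3)
      have e7 : (P : ℝ) ≤ η * (M * P) := by
        have e8 : (0 : ℝ) ≤ P := Nat.cast_nonneg _
        nlinarith only [e4]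
      exact le_of_mul_le_mul_left (e6.trans e7) hη
    exact_mod_cast e5
  have hw1σ : w1 ≤ σ.w := by
    have e1 := hs.hw
    omega
  refine dl_cut hD hs.hI h1I hw1σ hs.adm (fun y A hk l hl => ?_) fun s hsD => ?_
  · rw [mem_sdiff] at hl
    by_contra hlA
    exact hl.2 (Finset.mem_inter.2 ⟨hl.1, hTi y A hk (mem_sdiff.2 ⟨hl.1, hlA⟩)⟩)
  have hdl : (σ.cut I1 w1).Ex d J I1 s → (σ.cut I1 w1).dl d J I1 s ≤ 0 := by
    intro hex
    unfold St.Ex at hex
    unfold St.dl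
    omega
  by_cases hiI : i ∈ I1
  · rcases Nat.lt_or_ge s D with hs1 | hs1
    · -- smaller degrees
      refine hdl (h4 c0 hF4 _ I1 ?_ s (mem_range.2 hs1))
      rw [hx]
      refine (bts_cut (W' := q4 r * (x + 1) ^ k4) (i' := i) hs h1I hw1σ hcard ?_ ?_).weak
        (by linarith only [hη]) (by omega) le_rfl
      · have e1 : q4 r * (x + 1) ^ k4 + d * m ≤ Q * (q2 r * (x + 1) ^ k2 + G3 r +
            q4 r * (x + 1) ^ k4 + G5 r + d * m) := by
          refine le_trans ?_ (Nat.le_mul_of_pos_left _ hQ1)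
          omega
        omega
      · intro y A hk _
        rw [hI1A y A hk]
        exact hTi y A hk
    · -- the degree `D`
      have hsD' : s = D := le_antisymm hsD hs1
      subst hsD'
      set n0 := S + w1 with hn0
      have hSsum : ∑ l ∈ range J, rs i J c0 l = S := sum_rs hi
      have hSw : S ≤ w1 := by omega
      have hQw : ((Q * (q2 r * (x + 1) ^ k2 + G3 r + q4 r * (x + 1) ^ k4 + G5 r + d * m) : ℕ) : ℝ) ≤
          (n0 : ℝ) := Nat.cast_le.2 (by omega)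
      have hbound : ∀ W' : ℕ, W' ≤ q2 r * (x + 1) ^ k2 + G3 r + q4 r * (x + 1) ^ k4 + G5 r →
          ((W' + d * m : ℕ) : ℝ) ≤ ϖ₁ * n0 := by
        intro W' hW'
        set Y : ℕ := q2 r * (x + 1) ^ k2 + G3 r + q4 r * (x + 1) ^ k4 + G5 r + d * m with hY
        have e1 : ((W' + d * m : ℕ) : ℝ) ≤ (Y : ℝ) := Nat.cast_le.2 (by omega)
        have e2 : ((Q * Y : ℕ) : ℝ) ≤ (n0 : ℝ) := hQw
        push_cast at e2
        have e3 : (0 : ℝ) ≤ Y := Nat.cast_nonneg _
        have e4 : (Y : ℝ) ≤ ϖ₁ * (Q * Y) := by nlinarith only [hQϖ]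
        exact e1.trans (e4.trans (mul_le_mul_of_nonneg_left e2 hϖ₁.le))
      have hBig : Big d J (rs i J c0) n0 I1 K₁ := by
        refine ⟨fun l hl => ?_, ?_⟩
        · rw [rs_of_mem (h1J hl)]
          exact (Nat.le_ceil _).trans (Nat.cast_le.2 (le_trans (by omega) (hs.hK l (h1I hl))))
        · have e1 : (1 + ∑ l ∈ range J, ((rs i J c0 l : ℕ) : ℝ)) = ((1 + S : ℕ) : ℝ) := by
            rw [← hSsum]
            push_cast
            ring
          rw [e1]
          have e2 : ((B * (1 + S) ^ (d + 1) : ℕ) : ℝ) ≤ (n0 : ℝ) := Nat.cast_le.2 (by omega)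
          refine le_trans ?_ e2
          push_cast
          refine mul_le_mul_of_nonneg_right (Nat.le_ceil _) (by positivity)
      have hin : InO d J (rs i J c0) n0 (η / 2) I1 (σ.cut I1 w1) := by
        have hcl : ∀ l, (σ.cut I1 w1).c l ≤ rs i J c0 l := by
          intro l
          show (if l ∈ I1 then σ.c l else 0) ≤ rs i J c0 l
          by_cases hl : l ∈ I1
          · rw [if_pos hl, rs_of_mem (h1J hl)]
            exact hs.hc l
          · rw [if_neg hl]
            exact Nat.zero_le _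
        refine ⟨hcl, fun l hl => ?_, ?_, ?_, hs.adm⟩
        · show η / 2 * ((rs i J c0 l : ℕ) : ℝ) ≤ (((if l ∈ I1 then σ.c l else 0) : ℕ) : ℝ)
          rw [if_pos hl, rs_of_mem (h1J hl)]
          have e1 := hs.c_ge hη.le (h1I hl)
          have e2 : (0 : ℝ) ≤ η * c0 l := mul_nonneg hη.le (Nat.cast_nonneg _)
          linarith only [e1]
        · show ∑ l ∈ range J, (σ.cut I1 w1).c l + w1 ≤ n0
          have e1 : ∑ l ∈ range J, (σ.cut I1 w1).c l ≤ ∑ l ∈ range J, rs i J c0 l :=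
            sum_le_sum fun l _ => hcl l
          omega
        · show η / 2 * (n0 : ℝ) ≤ ((w1 : ℕ) : ℝ)
          have e1 : (n0 : ℝ) ≤ 2 * w1 := by
            have e2 : n0 ≤ 2 * w1 := by omega
            exact_mod_cast e2
          have e3 : (0 : ℝ) ≤ (w1 : ℝ) := Nat.cast_nonneg _
          nlinarith only [e1, hη1]
      have hpos : Pos J (rs i J c0) n0 (η / (2 ^ (d + 1) * d.factorial)) (σ.cut I1 w1) I1 s := by
        refine hC s (rs i J c0) n0 m (σ.cut I1 w1) I1 hD h1R hin.c (fun l hl => ?_) hs.adm hcard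
          (fun I' hI' => ?_) ?_ ?_
        · rw [rs_of_mem (h1J hl)]
          exact hc1 l (h1I hl)
        · rw [V_cut_low h1R hw1σ hs.adm hI',
            prod_congr rfl fun l hl => by rw [rs_of_mem (h1J (hI' hl))]]
          exact hs.hV I' (hI'.trans h1I)
        · rw [hSsum]
          show C * (m + S + 1) ^ (d + 1) ≤ w1
          omega
        · show n0 ≤ 2 * w1
          omega
      have hWr : q3 (rs (i + 1 + 1) J c0) * (rs (i + 1) J c0 (i + 1) + 1) ^ k3 = G3 r := by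
        rw [hG3]
        show _ = q3 (rs (i + 1 + 1) J (rs (i + 1) J c0)) * _
        rw [rs_rs (Nat.le_succ (i + 1))]
      refine stage_top hD tr (n0 := n0) (m := m) (I := I1) h1J hi hBig ?_ ?_
        (fun l hl => hc1 l (h1I hl)) ?_ ?_ (σ.cut I1 w1) hin hcard hpos
      · have e1 := hFl r x hFlx
        exact e1
      · have e1 : x ≤ S := Nat.le_add_right _ _
        omega
      · refine stage_orc (K := K2) (W := q2 r * (x + 1) ^ k2) h1J
          (fun l hl => le_trans (by omega) (hs.hK l (h1I hl))) (hbound _ (by omega)) ?_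
        intro σ' I' hs' D' hD'
        refine h2 c0 hF2 σ' I' ?_ D' hD'
        rw [hx]
        exact hs'
      · refine stage_end (K := K3) (W := G3 r) h1J
          (fun l hl => le_trans (by omega) (hs.hK l (h1I hl))) (hbound _ (by omega)) ?_
        intro σ' I' hs' D' hD'
        refine h3 c0 hF3 σ' I' ?_ D' hD'
        rw [hWr]
        exact hs'
  · -- the block `i` does not occur
    have hWr : q5 (rs (i + 1 + 1) J c0) * (rs (i + 1) J c0 (i + 1) + 1) ^ k5 = G5 r := by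
      rw [hG5]
      show _ = q5 (rs (i + 1 + 1) J (rs (i + 1) J c0)) * _
      rw [rs_rs (Nat.le_succ (i + 1))]
    refine hdl (h5 c0 hF5 _ I1 ?_ s (mem_range.2 (Nat.lt_succ_of_le hsD)))
    rw [hWr]
    refine (bts_cut (W' := G5 r) (i' := i + 1) hs h1I hw1σ hcard ?_ ?_).weak le_rfl (by omega)
      le_rfl
    · have e1 : G5 r + d * m ≤ Q * (q2 r * (x + 1) ^ k2 + G3 r +
          q4 r * (x + 1) ^ k4 + G5 r + d * m) := by
        refine le_trans ?_ (Nat.le_mul_of_pos_left _ hQ1)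
        omega
      omega
    · intro y A _ _ l hl
      have e1 := mem_Ico.1 (h1J (mem_sdiff.1 hl).1)
      rw [mem_Ico]
      refine ⟨?_, e1.2⟩
      rcases Nat.eq_or_lt_of_le e1.1 with e2 | e2
      · exact absurd (e2.symm ▸ (mem_sdiff.1 hl).1) hiI
      · exact e2

theorem bt_all (d J : ℕ) : ∀ D ≤ d, BT d J 0 D := by
  have key : ∀ D ≤ d, ∀ t, t ≤ J → BT d J (J - t) D := by
    intro D
    induction D using Nat.strong_induction_on with
    | _ D ihD =>
      intro hD t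
      induction t with
      | zero =>
        intro _
        exact bt_base hD fun D' hD' => ihD D' hD' (by omega) 0 (Nat.zero_le _)
      | succ t iht =>
        intro ht
        have e1 : J - (t + 1) + 1 = J - t := by omega
        refine bt_step hD (by omega) (fun D' hD' => ihD D' hD' (by omega) (t + 1) ht) ?_
        rw [e1]
        intro D' hD'
        rcases Nat.eq_or_lt_of_le hD' with h1 | h1
        · rw [h1]
          exact iht (by omega)
        · exact ihD D' h1 (by omega) t (by omega)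
  intro D hD
  have h1 := key D hD J le_rfl
  rwa [Nat.sub_self] at h1

end Pool.Agent.GD.AL

end

section

/-!
# General d, ALPHA: exactness of the states with ordinary objects
-/

set_option autoImplicit false

namespace Pool.Agent.GD.AL

open Finset

section XO

theorem xo_all (d J : ℕ) : ∀ D ≤ d, XO d J D := by
  intro D
  induction D using Nat.strong_induction_on with
  | _ D ih =>
    intro hD η' ϖ' hη' hϖ'
    -- at most one
    set η : ℝ := min η' 1 with hηdef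
    set ϖ : ℝ := min ϖ' 1 with hϖdef
    have hη : 0 < η := lt_min hη' one_pos
    have hϖ : 0 < ϖ := lt_min hϖ' one_pos
    obtain ⟨η₁, ϖ₁, K, hη₁, hη₁', hϖ₁, hϖ₁', hK, htr⟩ := tr_ord d J hη (min_le_right _ _) hϖ
      (min_le_right _ _)
    obtain ⟨Ft, hFt⟩ := term_last d J (bt_all d J) hη₁ hϖ₁
    have hη₂ : 0 < min η η₁ := lt_min hη hη₁
    have hϖ₂ : 0 < min ϖ ϖ₁ := lt_min hϖ hϖ₁
    have hih : ∀ D' : ℕ, ∃ F : (ℕ → ℕ) → ℕ, D' < D → ∀ c0 : ℕ → ℕ,
        Hr 0 J F c0 → ∃ n1 : ℕ, ∀ n0, n1 ≤ n0 → ∀ (σ : St) (I : Finset ℕ), I ⊆ range J →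
          InO d J c0 n0 (min ϖ ϖ₁) I σ → Pos J c0 n0 (min η η₁) σ I D' → σ.Ex d J I D' := by
      intro D'
      by_cases h : D' < D
      · obtain ⟨F, hF⟩ := ih D' h (by omega) (min η η₁) (min ϖ ϖ₁) hη₂ hϖ₂
        exact ⟨F, fun _ => hF⟩
      · exact ⟨fun _ => 0, fun h' => absurd h' h⟩
    choose Fi hFi using hih
    refine ⟨fun r => ∑ D' ∈ range D, Fi D' r + Ft r + ⌈K⌉₊, fun c0 hr => ?_⟩
    have hrt : Hr 0 J Ft c0 := hr_mono (fun r => by
      show Ft r ≤ ∑ D' ∈ range D, Fi D' r + Ft r + ⌈K⌉₊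
      omega) hr
    have hri : ∀ D' < D, Hr 0 J (Fi D') c0 := fun D' h => hr_mono (fun r => by
      show Fi D' r ≤ ∑ D' ∈ range D, Fi D' r + Ft r + ⌈K⌉₊
      have h1 : Fi D' r ≤ ∑ D' ∈ range D, Fi D' r :=
        single_le_sum (f := fun x => Fi x r) (fun _ _ => Nat.zero_le _) (mem_range.2 h)
      omega) hr
    have hcK : ∀ l < J, K ≤ (c0 l : ℝ) := by
      intro l hl
      have h1 : ∑ D' ∈ range D, Fi D' (rs (l + 1) J c0) + Ft (rs (l + 1) J c0) + ⌈K⌉₊ ≤ c0 l :=
        hr l (Nat.zero_le _) hl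
      have h2 : ⌈K⌉₊ ≤ c0 l := by omega
      exact (Nat.le_ceil K).trans (by exact_mod_cast h2)
    obtain ⟨nt, hnt⟩ := hFt c0 hrt
    have hni : ∀ D' : ℕ, ∃ n1 : ℕ, D' < D → ∀ n0, n1 ≤ n0 → ∀ (σ : St) (I : Finset ℕ),
        I ⊆ range J → InO d J c0 n0 (min ϖ ϖ₁) I σ → Pos J c0 n0 (min η η₁) σ I D' →
          σ.Ex d J I D' := by
      intro D'
      by_cases h : D' < D
      · obtain ⟨n1, hn1⟩ := hFi D' h c0 (hri D' h)
        exact ⟨n1, fun _ => hn1⟩
      · exact ⟨0, fun h' => absurd h' h⟩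
    choose ni hni using hni
    obtain ⟨nl, hnl⟩ := ev_log K hK
    obtain ⟨nb, hnb⟩ := exists_nat_ge (K * (1 + ∑ l ∈ range J, (c0 l : ℝ)) ^ (d + 1))
    refine ⟨∑ D' ∈ range D, ni D' + nt + nl + nb, fun n0 hn0 σ I hI ho' hp' => ?_⟩
    have ho : InO d J c0 n0 ϖ I σ := inO_anti (min_le_left _ _) ho'
    have hp : Pos J c0 n0 η σ I D := pos_anti (min_le_left _ _) hp'
    have horc : ∀ η₀ ϖ₀ : ℝ, min η η₁ ≤ η₀ → min ϖ ϖ₁ ≤ ϖ₀ →
        Orc d J c0 n0 (fun _ => True) I D η₀ ϖ₀ := by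
      intro η₀ ϖ₀ h1 h2 τ hτ _ I' hI' D' hD' hpτ
      refine hni D' hD' n0 ?_ τ I' (hI'.trans hI) (inO_sub hI' (inO_anti h2 hτ)) (pos_anti h1 hpτ)
      have := single_le_sum (f := ni) (fun _ _ => Nat.zero_le _) (mem_range.2 hD')
      omega
    have hlo := (lb_orc (G := fun _ => True) hD hI ho (fun _ _ => trivial) hη.le
      (fun I' hI' D' h1 _ h2 => hp I' hI' D' h1 h2)
      (horc η ϖ (min_le_left _ _) (min_le_left _ _))).1
    have hup := htr c0 n0 n0 I D (fun _ => True) (fun x T => T.card = x ∨ (T = ∅ ∧ 2 ≤ x)) hI hD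
      ⟨fun l hl => hcK l (mem_range.1 (hI hl)), hnb.trans (by exact_mod_cast (by omega : nb ≤ n0))⟩
      (hnl n0 (by omega)) le_rfl (fun _ _ _ _ => trivial) (fun _ _ _ _ _ _ _ => trivial)
      (fun _ _ _ _ _ _ _ _ => trivial) (by
        intro x T hT hTx hx hkp
        by_cases hx1 : x = 1
        · exact Or.inl hx1
        right
        push Not at hkp
        obtain ⟨hk1, hk2⟩ := hkp
        have hTne : T.Nonempty := by
          rw [nonempty_iff_ne_empty]
          intro h0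
          have := hk2 h0
          omega
        obtain ⟨a, ha⟩ := hTne
        refine ⟨a, ha, ?_⟩
        have h1 : (1 : ℝ) ≤ ∏ l ∈ T.erase a, (c0 l : ℝ) := by
          have h2 : ∀ l ∈ T.erase a, (1 : ℝ) ≤ (c0 l : ℝ) := by
            intro l hl
            have h3 := hcK l (mem_range.1 (hI (hT (mem_of_mem_erase hl))))
            have h4 : (0 : ℝ) < c0 l := hK.trans_le h3
            have h5 : 0 < c0 l := by exact_mod_cast h4
            exact_mod_cast h5
          calc (1 : ℝ) = ∏ _l ∈ T.erase a, (1 : ℝ) := by rw [prod_const_one]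
            _ ≤ _ := prod_le_prod (fun _ _ => zero_le_one) h2
        have h2 : (n0 : ℝ) ≤ (n0 : ℝ) ^ (x - T.card) := by
          rcases Nat.eq_zero_or_pos n0 with h0 | h0
          · rw [h0, Nat.cast_zero]
            positivity
          · have h3 : (1 : ℝ) ≤ n0 := by exact_mod_cast h0
            exact le_self_pow₀ h3 (by omega)
        have h3 : (0 : ℝ) ≤ (n0 : ℝ) ^ (x - T.card) := by positivity
        nlinarith)
      (horc η₁ ϖ₁ (min_le_right _ _) (min_le_right _ _))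
      (fun τ hτ _ hk hpτ => hnt n0 (by omega) τ I D hI hD hτ (fun k hkm => by
        obtain ⟨x, A, rfl, h1⟩ := hk k hkm
        refine ⟨x, A, rfl, h1.imp_right fun h2 => ⟨?_, h2.2⟩⟩
        exact sdiff_eq_empty_iff_subset.1 h2.1) hpτ)
      σ ho trivial hp
    unfold St.dl at hup
    unfold St.Ex
    omega

end XO

end Pool.Agent.GD.AL

end
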