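import Pool.Agent.H94.LP7.GD.ST.Fro
import Pool.Agent.H94.LP7.M44
import Pool.Agent.H94.LP7.M49
import Pool.Agent.H94.LP7.M52
import Pool.Agent.H94.LP7.M60
import Pool.Agent.H94.LP7.M62
import Pool.Agent.H94.LP7.M70
import Pool.Agent.H94.LP7.XD.Comb.P

/-! The parts of this file: H74.V8.Cone, GD.ST.Blk, GD.AL.Sub, GD.N.Zero, GD.ST.Step, GD.Fin.Final, GD.Fin.Lim, GD.Fin.Cpt, GD.Fin.Zero, XD.Seq. -/

section

/-!
# Points of multiplicity `d`: forms of degree `d` in one variable less
-/

set_option autoImplicit false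

namespace Pool.Agent.H74.V8C

open Finset MvPolynomial Pool.Agent.H18.Fat Pool.Agent.H18.Ex Pool.Agent.H21.NX Pool.Agent.H21.HD

/-- Simple points. -/
theorem gdim_simples (r d : ℕ) {κ : Type} [Fintype κ] (m : κ → ℕ) (n : ℕ) :
    gdim r d (Sum.elim m fun _ : Fin n => 1) ≤ gdim r d m - n := by
  induction n with
  | zero =>
    have h1 := gdim_comp_equiv r d (Equiv.sumEmpty κ (Fin 0)).symm (Sum.elim m fun _ : Fin 0 => 1)
    have h2 : (fun i => Sum.elim m (fun _ : Fin 0 => 1) ((Equiv.sumEmpty κ (Fin 0)).symm i)) = m := by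
      funext i
      rfl
    rw [h2] at h1
    omega
  | succ n ih =>
    let e : κ ⊕ Fin (n + 1) ≃ (κ ⊕ Fin n) ⊕ Unit :=
      (Equiv.sumCongr (Equiv.refl κ) ((finSuccEquiv n).trans (Equiv.optionEquivSumPUnit (Fin n)))).trans
        (Equiv.sumAssoc κ (Fin n) Unit).symm
    have h1 := gdim_comp_equiv r d e (Sum.elim (Sum.elim m fun _ : Fin n => 1) fun _ : Unit => 1)
    have h2 : (fun i => Sum.elim (Sum.elim m fun _ : Fin n => 1) (fun _ : Unit => 1) (e i)) =
        Sum.elim m fun _ : Fin (n + 1) => 1 := by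
      funext i
      rcases i with i | i
      · rfl
      · refine Fin.cases ?_ (fun j => ?_) i <;> simp [e]
    rw [h2] at h1
    rw [h1]
    have h3 := gdim_elim_le r d (Sum.elim m fun _ : Fin n => 1) (fun _ : Unit => 1)
    by_cases h4 : gdim r d (Sum.elim (Sum.elim m fun _ : Fin n => 1) fun _ : Unit => 1) =
        gdim r d (Sum.elim m fun _ : Fin n => 1)
    · have h5 := gdim_simple r d (Sum.elim m fun _ : Fin n => 1) 1 le_rfl h4
      omega
    · omega

/-! ### The expected dimension -/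

theorem fro_map {P P' : Type} (r : ℕ) (e : P → ℕ) (f : P' ↪ P) (I : Finset P') (j : ℕ) :
    fro r e (I.map f) j = fro r (fun i => e (f i)) I j := by
  classical
  unfold fro
  rw [Finset.map_eq_image, Finset.powerset_image,
    Finset.sum_image (fun a _ b _ hab => Finset.image_injective f.injective hab)]
  refine sum_congr rfl fun T _ => ?_
  rw [Finset.card_image_of_injective _ f.injective,
    Finset.sum_image (fun a _ b _ hab => f.injective hab)]

/-- A factor `1 - t`. -/
theorem fro_cone {P : Type} [DecidableEq P] (r : ℕ) (e : P → ℕ) (I : Finset P) (i : P)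
    (hi : i ∉ I) (he : e i = 1) (j : ℕ) : fro (r + 1) e (insert i I) j = fro r e I j := by
  rw [fro_insert' (r + 1) e I i hi j, he]
  unfold fro
  by_cases hj : 1 ≤ j
  · rw [if_pos hj, ← Finset.sum_sub_distrib]
    refine sum_congr rfl fun T _ => ?_
    rw [← mul_sub]
    congr 1
    rcases Nat.lt_or_ge j (∑ x ∈ T, e x) with h1 | h1
    · rw [if_neg (by omega), if_neg (by omega), if_neg (by omega), sub_zero]
    · rcases Nat.eq_or_lt_of_le h1 with h2 | h2
      · rw [if_pos (by omega), if_neg (by omega), if_pos (by omega), ← h2,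
          show r + 1 + ∑ x ∈ T, e x - ∑ x ∈ T, e x = r + 1 by omega,
          show r + ∑ x ∈ T, e x - ∑ x ∈ T, e x = r by omega, Nat.choose_self, Nat.choose_self,
          sub_zero]
      · rw [if_pos (by omega), if_pos (by omega), if_pos (by omega)]
        obtain ⟨x, hx⟩ : ∃ x, j = ∑ x ∈ T, e x + (x + 1) := ⟨j - ∑ x ∈ T, e x - 1, by omega⟩
        rw [hx, show r + 1 + (∑ x ∈ T, e x + (x + 1)) - ∑ x ∈ T, e x = (r + x + 1) + 1 by omega,
          show r + 1 + (∑ x ∈ T, e x + (x + 1) - 1) - ∑ x ∈ T, e x = r + x + 1 by omega,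
          show r + (∑ x ∈ T, e x + (x + 1)) - ∑ x ∈ T, e x = r + x + 1 by omega,
          Nat.choose_succ_succ]
        push_cast
        ring
  · rw [if_neg hj, sub_zero]
    refine sum_congr rfl fun T _ => ?_
    congr 1
    by_cases h1 : ∑ x ∈ T, e x ≤ j
    · rw [if_pos h1, if_pos h1, show r + 1 + j - ∑ x ∈ T, e x = r + 1 by omega,
        show r + j - ∑ x ∈ T, e x = r by omega, Nat.choose_self, Nat.choose_self]
    · rw [if_neg h1, if_neg h1]

end Pool.Agent.H74.V8C

end

section

/-!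
# General d: the blocks of the numbered variables
-/

set_option autoImplicit false

namespace Pool.Agent.GD

open Finset

private theorem add_one_le_psum {c : ℕ → ℕ} {i : ℕ} (hc : ∀ k ≤ i, 1 ≤ c k) :
    i + 1 ≤ ∑ k ∈ range (i + 1), c k := by
  calc i + 1 = ∑ _k ∈ range (i + 1), 1 := by simp
    _ ≤ _ := sum_le_sum fun k hk => hc k (by rw [mem_range] at hk; omega)

private theorem psum_mono (c : ℕ → ℕ) {k l : ℕ} (h : k ≤ l) :
    ∑ i ∈ range k, c i ≤ ∑ i ∈ range l, c i :=
  sum_le_sum_of_subset (range_mono h)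

private theorem down_eq_range (F : Finset ℕ) (h : ∀ k ∈ F, ∀ l < k, l ∈ F) : F = range F.card := by
  refine eq_of_subset_of_card_le ?_ (by rw [card_range])
  intro k hk
  rw [mem_range]
  have h1 : range (k + 1) ⊆ F := by
    intro l hl
    rw [mem_range] at hl
    rcases Nat.lt_or_ge l k with h2 | h2
    · exact h k hk l h2
    · have : l = k := by omega
      rw [this]
      exact hk
  have h2 := card_le_card h1
  rw [card_range] at h2
  omega

private theorem bidx_iff {c : ℕ → ℕ} {i : ℕ} (hc : ∀ k ≤ i, 1 ≤ c k) (s : ℕ) :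
    bidx c s = i ↔ ∑ k ∈ range i, c k ≤ s ∧ s < ∑ k ∈ range (i + 1), c k := by
  unfold bidx
  set F := (range (s + 1)).filter fun k => ∑ i ∈ range (k + 1), c i ≤ s with hF
  have hmem : ∀ k, k ∈ F ↔ k < s + 1 ∧ ∑ i ∈ range (k + 1), c i ≤ s := by
    intro k
    rw [hF, mem_filter, mem_range]
  constructor
  · intro h
    have h1 : F = range i := by
      rw [← h]
      refine down_eq_range F fun k hk l hl => ?_
      rw [hmem] at hk ⊢
      exact ⟨by omega, (psum_mono c (by omega)).trans hk.2⟩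
    constructor
    · rcases Nat.eq_zero_or_pos i with h0 | h0
      · rw [h0, sum_range_zero]
        exact Nat.zero_le _
      · have h2 : i - 1 ∈ F := by
          rw [h1, mem_range]
          omega
        have h3 := ((hmem _).1 h2).2
        rwa [Nat.sub_add_cancel h0] at h3
    · by_contra hlt
      have h2 := add_one_le_psum hc
      have h3 : i ∈ F := (hmem i).2 ⟨by omega, by omega⟩
      rw [h1, mem_range] at h3
      omega
  · rintro ⟨h1, h2⟩
    have h3 : F = range i := by
      ext k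
      rw [hmem, mem_range]
      constructor
      · rintro ⟨_, h4⟩
        by_contra hk
        have := psum_mono c (show i + 1 ≤ k + 1 by omega)
        omega
      · intro hk
        have h4 := psum_mono c (show k + 1 ≤ i by omega)
        have h5 := add_one_le_psum (i := k) fun l hl => hc l (by omega)
        exact ⟨by omega, by omega⟩
    rw [h3, card_range]

theorem blk_iff {c : ℕ → ℕ} {i n : ℕ} (hc : ∀ k ≤ i, 1 ≤ c k) (s : Fin n) :
    blk c n s = i ↔ ∑ k ∈ range i, c k ≤ s.1 ∧ s.1 < ∑ k ∈ range (i + 1), c k :=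
  bidx_iff hc s.1

/-- The inclusion of the variables off the block `j`. -/
theorem sg_facts {c : ℕ → ℕ} {j n : ℕ} (hc : ∀ k ≤ j, 1 ≤ c k) (hn : ∑ k ∈ range (j + 1), c k ≤ n) :
    ∃ σ : Fin (n - c j) → Fin n, Function.Injective σ ∧
      (∀ s, (∃ x, σ x = s) ↔ blk c n s ≠ j) ∧
        ∀ x, ∀ i < j, blk c n (σ x) = i ↔ blk c (n - c j) x = i := by
  have hS := sum_range_succ c j
  set S := ∑ k ∈ range j, c k with hSdef
  have hlt : ∀ x : Fin (n - c j), (if x.1 < S then x.1 else x.1 + c j) < n := by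
    intro x
    have := x.2
    split_ifs <;> omega
  refine ⟨fun x => ⟨if x.1 < S then x.1 else x.1 + c j, hlt x⟩, ?_, ?_, ?_⟩
  · intro x y hxy
    have h := congrArg Fin.val hxy
    apply Fin.ext
    simp only at h
    split_ifs at h <;> omega
  · intro s
    rw [Ne, blk_iff hc s, hS, ← hSdef]
    have hs := s.2
    constructor
    · rintro ⟨x, rfl⟩
      have hx := x.2
      simp only
      split_ifs <;> omega
    · intro h
      by_cases hs1 : s.1 < S
      · refine ⟨⟨s.1, by omega⟩, Fin.ext ?_⟩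
        simp only [if_pos hs1]
      · have h2 : ¬ (s.1 - c j < S) := by omega
        refine ⟨⟨s.1 - c j, by omega⟩, Fin.ext ?_⟩
        simp only [if_neg h2]
        omega
  · intro x i hi
    rw [blk_iff (fun k hk => hc k (by omega)), blk_iff (fun k hk => hc k (by omega))]
    have h1 := psum_mono c (show i + 1 ≤ j by omega)
    have h2 := psum_mono c (show i ≤ i + 1 by omega)
    rw [← hSdef] at h1
    simp only
    split_ifs with hx
    · exact Iff.rfl
    · constructor
      · rintro ⟨_, h3⟩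
        omega
      · rintro ⟨_, h3⟩
        omega

theorem card_blk {c : ℕ → ℕ} {i n : ℕ} (hc : ∀ k ≤ i, 1 ≤ c k) (hn : ∑ k ∈ range (i + 1), c k ≤ n) :
    (univ.filter fun s : Fin n => blk c n s = i).card = c i := by
  have h1 : (univ.filter fun s : Fin n => blk c n s = i).map Fin.valEmbedding =
      Ico (∑ k ∈ range i, c k) (∑ k ∈ range (i + 1), c k) := by
    ext s
    rw [mem_map, mem_Ico]
    constructor
    · rintro ⟨t, ht, rfl⟩
      exact (blk_iff hc t).1 (mem_filter.1 ht).2
    · intro hs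
      exact ⟨⟨s, by omega⟩, mem_filter.2 ⟨mem_univ _, (blk_iff hc _).2 hs⟩, rfl⟩
  rw [← card_map Fin.valEmbedding, h1, Nat.card_Ico, sum_range_succ]
  omega

end Pool.Agent.GD

end

section

/-!
# General d, ALPHA: the target
-/

set_option autoImplicit false

namespace Pool.Agent.GD.AL

open Finset

private theorem sub_mbs_length {i j k : ℕ} (hk : 1 ≤ k) (S : Finset ℕ) :
    (mbs i j k S).length = k := by
  unfold mbs
  split_ifs with h
  · rw [h]
    rfl
  · rw [List.length_cons, List.length_replicate]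
    omega

private theorem sub_mem_mbs {i j k : ℕ} {S A : Finset ℕ} (h : A ∈ mbs i j k S) :
    A = (range j).erase i ∨ A = (range j).erase i \ S := by
  unfold mbs at h
  split_ifs at h
  · exact Or.inr (List.mem_singleton.1 h)
  · rcases List.mem_cons.1 h with h | h
    · exact Or.inl h
    · exact Or.inr (List.eq_of_mem_replicate h)

private theorem sub_mbr_length (i j k e r : ℕ) : (mbr i j k e r).length = k := by
  unfold mbr
  simp

private theorem sub_mem_mbr {i j k e r : ℕ} {A : Finset ℕ} (h : A ∈ mbr i j k e r) :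
    ∃ s, A = (range j).erase i \ (Ico (s * (e - 1)) ((s + 1) * (e - 1)) ∩ range r) := by
  unfold mbr at h
  obtain ⟨s, -, rfl⟩ := List.mem_map.1 h
  exact ⟨s, rfl⟩

private theorem sub_card {E X : Finset ℕ} {m : ℕ} (h : X.card ≤ m) :
    E \ X ⊆ E ∧ (E \ (E \ X)).card ≤ m := by
  refine ⟨sdiff_subset, le_trans (card_le_card ?_) h⟩
  intro x hx
  rw [mem_sdiff, mem_sdiff, not_and, not_not] at hx
  exact hx.2 hx.1

theorem adm_kd {d e i j : ℕ} (he : 2 ≤ e) (hj : j + e ≤ d) (hi : i < j) {τ : CT}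
    (h : τ.Ok d e i j) : AdmC d j e (τ.kd d e i j) := by
  have hq : 1 ≤ (d - i - 1) / (e - 1) := by
    rw [Nat.one_le_div_iff (by omega)]
    omega
  have hE : ∀ {X : Finset ℕ}, X.card ≤ e - 1 → (range j).erase i \ X ⊆ (range j).erase i ∧
      ((range j).erase i \ ((range j).erase i \ X)).card ≤ e - 1 := fun hX => sub_card hX
  have hE0 : (range j).erase i ⊆ (range j).erase i ∧
      ((range j).erase i \ (range j).erase i).card ≤ e - 1 := by
    refine ⟨Subset.refl _, ?_⟩
    rw [sdiff_self]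
    simp
  cases τ with
  | pl k S =>
    obtain ⟨h1, h2, h3, h4⟩ := h
    refine ⟨0, i, mbs i j k S, rfl, he, ?_, ?_, hi, fun A hA => ?_⟩
    · rw [sub_mbs_length (by omega)]
      omega
    · rw [sub_mbs_length (by omega)]
      unfold trx
      have h5 : k * (e - 1) ≤ d - i - 1 := (Nat.mul_le_mul_right _ h2).trans (Nat.div_mul_le_self _ _)
      omega
    · rcases sub_mem_mbs hA with rfl | rfl
      · exact hE0
      · exact hE h4
  | b0 S =>
    obtain ⟨h1, h2, h3⟩ := h
    refine ⟨_, i, _, rfl, he, ?_, ?_, hi, fun A hA => ?_⟩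
    · rw [sub_mbs_length hq]
      exact hq
    · rw [sub_mbs_length hq]
      unfold trx
      have h5 := Nat.div_add_mod' (d - i - 1) (e - 1)
      omega
    · rcases sub_mem_mbs hA with rfl | rfl
      · exact hE0
      · exact hE (by omega)
  | br r =>
    obtain ⟨h1, h2⟩ := h
    have hq' : 1 ≤ (d - i + r - 1) / (e - 1) := by
      rw [Nat.one_le_div_iff (by omega)]
      omega
    refine ⟨_, i, _, rfl, he, ?_, ?_, hi, fun A hA => ?_⟩
    · rw [sub_mbr_length]
      exact hq'
    · rw [sub_mbr_length]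
      unfold trx
      have h5 := Nat.div_add_mod' (d - i + r - 1) (e - 1)
      omega
    · obtain ⟨s, rfl⟩ := sub_mem_mbr hA
      refine hE ((card_le_card inter_subset_left).trans ?_)
      rw [Nat.card_Ico, add_mul, one_mul]
      omega

theorem adm_cls {P : Par} (he : 2 ≤ P.e) (hed : P.e < P.d) {j n : ℕ} (hj : j ≤ P.J)
    {ms : Multiset Kd} (h : Cls P j n ms) : ∀ k ∈ ms, AdmO P.d j k ∨ AdmC P.d j P.e k := by
  intro k hk
  unfold Par.J at hj
  rcases h.mem k hk with ⟨x, A, rfl, h1, h2, h3, h4⟩ | ⟨i, hi, τ, hτ, rfl⟩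
  · exact Or.inl ⟨x, A, rfl, by omega, h2.le, h3, h4⟩
  · exact Or.inr (adm_kd he (by omega) hi hτ)

theorem hr_cls {P : Par} (he : 2 ≤ P.e) (hed : P.e < P.d) {j n : ℕ} (hj : j ≤ P.J)
    {ms : Multiset Kd} (h : Cls P j n ms) : HH P.d (range j) ms := by
  unfold Par.J at hj
  refine hh_top he (by omega) fun k hk => ?_
  rcases h.mem k hk with ⟨x, A, rfl, -⟩ | ⟨i, hi, τ, hτ, rfl⟩
  · exact Or.inl ⟨x, A, rfl⟩
  · exact Or.inr ⟨i, hi, τ, hτ, rfl⟩

theorem st_HL {d j n : ℕ} {c : ℕ → ℕ} (hc : ∀ l < j, 1 ≤ c l) (hn : ∑ l ∈ range j, c l ≤ n)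
    {ms : Multiset Kd} (hm : ∀ k ∈ ms, k.Ok d j) :
    HL d d c n j ms = (St.mk c (n - ∑ l ∈ range j, c l) ms).H d j (range j) d ∧
      ∀ I D, vd D I c n ms = (St.mk c (n - ∑ l ∈ range j, c l) ms).V j I D := by
  have hnn : (St.mk c (n - ∑ l ∈ range j, c l) ms).n j = n := by
    unfold St.n
    simp only
    omega
  constructor
  · refine St.H_eq (le_refl d) (blk c n) (St.mk c (n - ∑ l ∈ range j, c l) ms) ?_ ?_
      (Subset.refl _) fun k hk => ok_blk (hm k hk)
    · rw [hnn, Fintype.card_fin]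
    · intro i hi
      refine card_blk (fun k hk => hc k (by omega)) ?_
      exact (sum_le_sum_of_subset (range_mono (by omega))).trans hn
  · intro I D
    unfold St.V
    rw [hnn]

theorem ok_wc {P : Par} {E E' : ℝ} (h : P.Ok 1 E) (hE : E ≤ E') (c : ℕ → ℕ) :
    (P.wc c).Ok 1 E' :=
  { toCrit := h.toCrit
    eps0 := h.eps0
    eb := h.eb
    be := h.be
    epsJ := h.epsJ.trans hE
    xp := h.xp
    xm := h.xm
    xm0 := h.xm0 }

end Pool.Agent.GD.AL

end

section

/-!
# General d: the result for a critical vector of densities from the targets of the blocks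

Choose `ρ` (`TargetSub`, `TargetWin`), `Cw`, `Cs, E` = the maximum / minimum of the constants of the four targets (`Par.Ok` is
monotone in both), the chain `eps j`, `bet j` (geometric, `Cw * eps J < ρ`), rational `xp`, `xm`, `M`, then `N`, `F`
(product, maximum; `Hier` is monotone), then `c` (`exists_hier`), then `PROP J`, …, `PROP 0` (`close`).
-/

set_option autoImplicit false

namespace Pool.Agent.GD

open Finset

/-- Sizes exist. -/
theorem exists_hier (N : ℕ) (hN : 0 < N) (F : (ℕ → ℕ) → ℕ) (J : ℕ) : ∃ c : ℕ → ℕ, (∀ i, 1 ≤ c i) ∧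
    Hier N F J c := by
  have key : ∀ m ≤ J, ∃ c : ℕ → ℕ, (∀ i, 1 ≤ c i) ∧ ∀ i, J - m ≤ i → i < J →
      N ∣ c i ∧ 1 ≤ c i ∧ F (fun x => if i < x ∧ x < J then c x else 0) ≤ c i := by
    intro m
    induction m with
    | zero => exact fun _ => ⟨fun _ => 1, fun _ => le_rfl, fun i h1 h2 => absurd h1 (by omega)⟩
    | succ m ih =>
      intro hm
      obtain ⟨c, hc, h⟩ := ih (by omega)
      set i₀ := J - (m + 1) with hi₀
      set F₀ := F (fun x => if i₀ < x ∧ x < J then c x else 0) with hF₀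
      refine ⟨Function.update c i₀ (N * (F₀ + 1)), fun i => ?_, fun i h1 h2 => ?_⟩
      · by_cases hi : i = i₀
        · subst hi
          rw [Function.update_self]
          exact Nat.one_le_iff_ne_zero.2 (by positivity)
        · rw [Function.update_of_ne hi]
          exact hc i
      · have h3 : (fun x => if i < x ∧ x < J then Function.update c i₀ (N * (F₀ + 1)) x else 0) =
            fun x => if i < x ∧ x < J then c x else 0 := by
          funext x
          by_cases hx : i < x ∧ x < J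
          · rw [if_pos hx, if_pos hx, Function.update_of_ne (by omega)]
          · rw [if_neg hx, if_neg hx]
        rw [h3]
        by_cases hi : i = i₀
        · subst hi
          rw [Function.update_self]
          refine ⟨dvd_mul_right _ _, Nat.one_le_iff_ne_zero.2 (by positivity), ?_⟩
          rw [← hF₀]
          nlinarith
        · rw [Function.update_of_ne hi]
          exact h i (by omega) h2
  obtain ⟨c, hc, h⟩ := key J le_rfl
  exact ⟨c, hc, fun i hi => h i (by omega) hi⟩

/-- The constants exist. -/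
theorem exists_par (d e : ℕ) (kap : ℕ → ℝ) (hk : Crit d e kap) (Cs E : ℝ) (hCs : 1 ≤ Cs) (hE : 0 < E) :
    ∃ (eps bet : ℕ → ℝ) (xp xm : ℕ → Finset ℕ → ℚ), ∀ (M : ℕ) (c : ℕ → ℕ),
      (⟨d, e, kap, eps, bet, xp, xm, M, c⟩ : Par).Ok Cs E := by
  have hC0 : 0 < Cs := by linarith
  set eps : ℕ → ℝ := fun j => E * Cs ^ (2 * j) / Cs ^ (2 * (d - e)) with heps
  set bet : ℕ → ℝ := fun j => Cs * eps (j - 1) with hbet
  have hep : ∀ j, 0 < eps j := fun j => by
    rw [heps]
    positivity
  have hbp : ∀ j, 0 < bet j := fun j => mul_pos hC0 (hep _)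
  have hxp : ∀ (x : ℕ) (K : Finset ℕ), ∃ q : ℚ, ∀ i : ℕ, K.max = i →
      kap x * (x.descFactorial K.card : ℕ) + bet (i + 1) / 2 ≤ q ∧
        (q : ℝ) ≤ kap x * (x.descFactorial K.card : ℕ) + bet (i + 1) := by
    intro x K
    induction hm : K.max using WithBot.recBotCoe with
    | bot => exact ⟨0, fun i hi => absurd hi (by simp)⟩
    | coe i₀ =>
      obtain ⟨q, h1, h2⟩ := exists_rat_btwn (show kap x * (x.descFactorial K.card : ℕ) + bet (i₀ + 1) / 2 <
        kap x * (x.descFactorial K.card : ℕ) + bet (i₀ + 1) by linarith [hbp (i₀ + 1)])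
      refine ⟨q, fun i hi => ?_⟩
      have h3 : i₀ = i := WithBot.coe_injective hi
      subst h3
      exact ⟨h1.le, h2.le⟩
  have hxm : ∀ (x : ℕ) (K : Finset ℕ), ∃ q : ℚ, (kap x = 0 → q = 0) ∧ ∀ i : ℕ, K.max = i → kap x ≠ 0 →
      (q : ℝ) ≤ kap x * (x.descFactorial K.card : ℕ) - bet (i + 1) / 2 ∧
        kap x * (x.descFactorial K.card : ℕ) - bet (i + 1) ≤ q := by
    intro x K
    by_cases hx : kap x = 0
    · exact ⟨0, fun _ => rfl, fun i _ h => absurd hx h⟩
    induction hm : K.max using WithBot.recBotCoe with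
    | bot => exact ⟨0, fun _ => rfl, fun i hi => absurd hi (by simp)⟩
    | coe i₀ =>
      obtain ⟨q, h1, h2⟩ := exists_rat_btwn (show kap x * (x.descFactorial K.card : ℕ) - bet (i₀ + 1) <
        kap x * (x.descFactorial K.card : ℕ) - bet (i₀ + 1) / 2 by linarith [hbp (i₀ + 1)])
      refine ⟨q, fun h => absurd h hx, fun i hi _ => ?_⟩
      have h3 : i₀ = i := WithBot.coe_injective hi
      subst h3
      exact ⟨h2.le, h1.le⟩
  choose xp hxp using hxp
  choose xm hxm0 hxm using hxm
  refine ⟨eps, bet, xp, xm, fun M c => ⟨hk, hep 0, ?_, ?_, ?_, ?_, ?_, ?_⟩⟩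
  · intro j _
    exact le_rfl
  · intro j _
    apply le_of_eq
    change Cs * (Cs * (E * Cs ^ (2 * j) / Cs ^ (2 * (d - e)))) = E * Cs ^ (2 * (j + 1)) / Cs ^ (2 * (d - e))
    rw [show 2 * (j + 1) = 2 * j + 2 by ring, pow_add]
    ring
  · apply le_of_eq
    change E * Cs ^ (2 * (d - e)) / Cs ^ (2 * (d - e)) = E
    field_simp
  · intro x K _ _ _ i hi
    exact hxp x K i hi
  · intro x K _ _ _ i hi hx
    exact hxm x K i hi hx
  · intro x K hx
    exact hxm0 x K hx

/-- On the level `0` the sizes do not matter. -/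
theorem HL_zero (d : ℕ) (c c' : ℕ → ℕ) (n : ℕ) (ms : Multiset Kd) (h : ∀ k ∈ ms, ∃ x, k = .ord x ∅) :
    HL d d c n 0 ms = HL d d c' n 0 ms := by
  refine HI_equiv (J := 0) le_rfl (Equiv.refl _) (fun s i hi => absurd hi (Nat.not_lt_zero _)) subset_rfl ms ?_
  intro k hk
  obtain ⟨x, rfl⟩ := h k hk
  exact empty_subset _

private theorem eps_pos {P : Par} {Cs E : ℝ} (h : P.Ok Cs E) (hCs : 1 ≤ Cs) : ∀ j ≤ P.J, 0 < P.eps j := by
  intro j
  induction j with
  | zero => exact fun _ => h.eps0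
  | succ j ih =>
    intro hj
    have h0 := ih (by omega)
    have h1 := h.eb j (by omega)
    have h2 := h.be j (by omega)
    have h3 : 0 < P.bet (j + 1) := lt_of_lt_of_le (mul_pos (by linarith) h0) h1
    exact lt_of_lt_of_le (mul_pos (by linarith) h3) h2

private theorem bet_pos {P : Par} {Cs E : ℝ} (h : P.Ok Cs E) (hCs : 1 ≤ Cs) {j : ℕ} (hj : j < P.J) : 0 < P.bet (j + 1) :=
  lt_of_lt_of_le (mul_pos (by linarith) (eps_pos h hCs j hj.le)) (h.eb j hj)

private theorem eps_le {P : Par} {Cs E : ℝ} (h : P.Ok Cs E) (hCs : 1 ≤ Cs) {j : ℕ} (hj : j ≤ P.J) : P.eps j ≤ E := by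
  have key : ∀ m ≤ P.J, P.eps (P.J - m) ≤ E := by
    intro m
    induction m with
    | zero => exact fun _ => h.epsJ
    | succ m ih =>
      intro hm
      have h0 := ih (by omega)
      set i := P.J - (m + 1) with hi
      have e1 : P.J - m = i + 1 := by omega
      rw [e1] at h0
      have h1 := h.eb i (by omega)
      have h2 := h.be i (by omega)
      have h3 := eps_pos h hCs i (by omega)
      have h4 := bet_pos h hCs (j := i) (by omega)
      nlinarith
  have h1 := key (P.J - j) (by omega)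
  rwa [show P.J - (P.J - j) = j by omega] at h1

private theorem ok_mono {P : Par} {Cs E Cs' E' : ℝ} (h : P.Ok Cs E) (hCs : 1 ≤ Cs) (h1 : Cs' ≤ Cs) (h2 : E ≤ E') : P.Ok Cs' E' := by
  refine ⟨h.toCrit, h.eps0, fun j hj => ?_, fun j hj => ?_, h.epsJ.trans h2, h.xp, h.xm, h.xm0⟩
  · exact (mul_le_mul_of_nonneg_right h1 (eps_pos h hCs j hj.le).le).trans (h.eb j hj)
  · exact (mul_le_mul_of_nonneg_right h1 (bet_pos h hCs hj).le).trans (h.be j hj)

private theorem hier_mono {N N' : ℕ} {F F' : (ℕ → ℕ) → ℕ} {J : ℕ} {c : ℕ → ℕ} (h : Hier N F J c) (h1 : N' ∣ N) (h2 : ∀ x, F' x ≤ F x) : Hier N' F' J c :=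
  fun i hi => ⟨h1.trans (h i hi).1, (h i hi).2.1, (h2 _).trans (h i hi).2.2⟩

private theorem npt_ord (ms : Multiset Kd) (h : ∀ k ∈ ms, ∃ x, k = .ord x ∅) (x : ℕ) : npt ms x ∅ = ms.count (.ord x ∅) := by
  unfold npt
  induction ms using Multiset.induction_on with
  | empty => simp
  | cons k s ih =>
    obtain ⟨y, rfl⟩ := h k (Multiset.mem_cons_self _ _)
    rw [Multiset.cons_bind, Multiset.count_add, ih fun k hk => h k (Multiset.mem_cons_of_mem hk), Multiset.count_cons]
    have h1 : (Kd.ord y ∅).pts = {(y, ∅)} := rfl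
    rw [h1, Multiset.count_singleton, add_comm]
    congr 1
    by_cases hxy : x = y
    · subst hxy
      simp
    · rw [if_neg, if_neg]
      · intro h2
        exact hxy (by injection h2)
      · intro h2
        exact hxy (congrArg Prod.fst h2)

private theorem sub_mono {P : Par} {j : ℕ} {η ρ ρ' : ℝ} (h : SUB P j η ρ) (hρ : ρ' ≤ ρ) : SUB P j η ρ' := by
  obtain ⟨n₀, h⟩ := h
  refine ⟨n₀, fun n hn ms hms h1 h2 => h n hn ms hms (h1.trans ?_) h2⟩
  exact mul_le_mul_of_nonneg_right (by linarith) (by positivity)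

/-- The result. -/
theorem targetZero (h1 : ∀ d, STEP d) (h2 : ∀ d, ADD d) (h3 : ∀ d, SMP d) (hS : TargetSub) (hT : TargetTop)
    (hN : TargetNum) (hW : TargetWin) : TargetZero := by
  intro d e kap hk
  obtain ⟨Cs2, E2, ρS, hCs2, hE2, hρS, hS'⟩ := hS d e kap hk
  obtain ⟨ρW, hρW, hW⟩ := hW d e kap hk
  obtain ⟨ρ, hρ, hρ1, hρ2, hρ3⟩ : ∃ ρ : ℝ, 0 < ρ ∧ ρ ≤ ρS ∧ ρ ≤ ρW ∧ ρ ≤ kap e :=
    ⟨min (min ρS ρW) (kap e), lt_min (lt_min hρS hρW) hk.pos, (min_le_left _ _).trans (min_le_left _ _),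
      (min_le_left _ _).trans (min_le_right _ _), min_le_right _ _⟩
  obtain ⟨Cw, Cs1, E1, hCw, hCs1, hE1, hW'⟩ := hW ρ hρ hρ2
  obtain ⟨Cs3, E3, ηT, hCs3, hE3, hηT, hT'⟩ := hT d e kap hk
  obtain ⟨Cs4, E4, hCs4, hE4, M₀, hN'⟩ := hN d e kap hk Cw ρ hCw hρ
  -- the constants
  obtain ⟨Cs, hCs, c1, c2, c3, c4⟩ : ∃ Cs : ℝ, 1 ≤ Cs ∧ Cs1 ≤ Cs ∧ Cs2 ≤ Cs ∧ Cs3 ≤ Cs ∧ Cs4 ≤ Cs :=
    ⟨Cs1 + Cs2 + Cs3 + Cs4, by linarith, by linarith, by linarith, by linarith, by linarith⟩
  obtain ⟨E, hE, e1, e2, e3, e4, e5⟩ : ∃ E : ℝ, 0 < E ∧ E ≤ E1 ∧ E ≤ E2 ∧ E ≤ E3 ∧ E ≤ E4 ∧ E ≤ ρ / (2 * Cw) := by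
    refine ⟨min (min E1 E2) (min (min E3 E4) (ρ / (2 * Cw))), ?_, ?_, ?_, ?_, ?_, ?_⟩
    · exact lt_min (lt_min hE1 hE2) (lt_min (lt_min hE3 hE4) (by positivity))
    · exact (min_le_left _ _).trans (min_le_left _ _)
    · exact (min_le_left _ _).trans (min_le_right _ _)
    · exact (min_le_right _ _).trans ((min_le_left _ _).trans (min_le_left _ _))
    · exact (min_le_right _ _).trans ((min_le_left _ _).trans (min_le_right _ _))
    · exact (min_le_right _ _).trans (min_le_right _ _)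
  obtain ⟨eps, bet, xp, xm, hP⟩ := exists_par d e kap hk Cs E hCs hE
  set P₀ : Par := ⟨d, e, kap, eps, bet, xp, xm, M₀, fun _ => 1⟩ with hP₀
  have hok₀ : P₀.Ok Cs E := hP M₀ fun _ => 1
  obtain ⟨N1, F1, hN1, hS1⟩ := hS' P₀ rfl rfl rfl (ok_mono hok₀ hCs c2 e2) (eps 0) hok₀.eps0
  obtain ⟨N2, F2, hN2, hS2⟩ := hS' P₀ rfl rfl rfl (ok_mono hok₀ hCs c2 e2) ηT hηT
  obtain ⟨N3, F3, hN3, hT3⟩ := hT' P₀ rfl rfl rfl (ok_mono hok₀ hCs c3 e3)
  obtain ⟨N4, F4, hN4, hN4'⟩ := hN' P₀ rfl rfl rfl (ok_mono hok₀ hCs c4 e4) le_rfl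
  obtain ⟨c, hc, hH⟩ := exists_hier (N1 * N2 * N3 * N4) (by positivity) (fun x => F1 x + F2 x + F3 x + F4 x) P₀.J
  have hH1 : Hier N1 F1 P₀.J c := hier_mono hH ⟨N2 * N3 * N4, by ring⟩ fun x => by omega
  have hH2 : Hier N2 F2 P₀.J c := hier_mono hH ⟨N1 * N3 * N4, by ring⟩ fun x => by omega
  have hH3 : Hier N3 F3 P₀.J c := hier_mono hH ⟨N1 * N2 * N4, by ring⟩ fun x => by omega
  have hH4 : Hier N4 F4 P₀.J c := hier_mono hH ⟨N1 * N2 * N3, by ring⟩ fun x => by omega
  set P : Par := P₀.wc c with hPdef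
  have hok : P.Ok Cs E := hP M₀ c
  have hJ : P.J = P₀.J := rfl
  have htop : PROP P P.J := hT3 c hH3 (sub_mono (hS2 c hH2 P₀.J le_rfl) hρS.le)
  have hall : ∀ m ≤ P.J, PROP P (P.J - m) := by
    intro m
    induction m with
    | zero => exact fun _ => htop
    | succ m ih =>
      intro hm
      have h0 := ih (by omega)
      set j := P.J - (m + 1) with hj
      rw [show P.J - m = j + 1 by omega] at h0
      have hjJ : j < P.J := by omega
      have hCw' : Cw * P.eps j < ρ := by
        have h4 := (eps_le hok hCs hjJ.le).trans e5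
        have h5 : Cw * P.eps j ≤ Cw * (ρ / (2 * Cw)) := mul_le_mul_of_nonneg_left h4 (by linarith)
        have h6 : Cw * (ρ / (2 * Cw)) = ρ / 2 := by
          have : Cw ≠ 0 := by linarith
          field_simp
        linarith
      exact close P Cs E hok hc j hjJ (h1 _) (h2 _) (h3 _) (eps 0) Cw ρ hok₀.eps0 hρ hρ3 hCw'
        (sub_mono (hS1 c hH1 j hjJ.le) hρ1) (hN4' c hH4 j hjJ (eps 0) hok₀.eps0 le_rfl)
        (hW' P rfl rfl rfl (ok_mono hok hCs c1 e1) hc j hjJ.le (eps 0) hok₀.eps0 le_rfl) h0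
  have hzero : PROP P 0 := by
    have h0 := hall P.J le_rfl
    rwa [Nat.sub_self] at h0
  obtain ⟨n₀, hn₀⟩ := hzero
  refine ⟨eps 0, n₀, hok₀.eps0, fun n hn ms hms hcnt c' => ?_⟩
  have hord : ∀ k ∈ ms, ∃ x, k = .ord x ∅ := fun k hk => by
    obtain ⟨x, hx, -⟩ := hms k hk
    exact ⟨x, hx⟩
  have hcls : Cls P 0 n ms := by
    refine ⟨?_, ?_, ?_, ?_⟩
    · intro k hk
      obtain ⟨x, rfl, hx1, hx2⟩ := hms k hk
      refine Or.inl ⟨x, ∅, rfl, hx1, hx2, empty_subset _, ?_⟩
      simp
    · intro x A hx1 hx2 hA _ _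
      have hA0 : A = ∅ := by
        rw [range_zero] at hA
        exact subset_empty.1 hA
      subst hA0
      have hr : range 0 \ (∅ : Finset ℕ) = ∅ := by simp
      rw [hr, npt_ord ms hord]
      have h4 := hcnt x
      have h5 : P.nat x ∅ = kap x := by
        unfold Par.nat
        rw [card_empty, Nat.descFactorial_zero, Nat.cast_one, mul_one]
        rfl
      have h6 : P.cc ∅ = 1 := by
        unfold Par.cc
        rw [prod_empty]
      rw [h5, h6, card_empty, Nat.sub_zero, Nat.cast_one, mul_one, mul_one]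
      exact h4
    · intro x A hx1 _ hA hcard
      exfalso
      have : (range 0 \ A).card = 0 := by simp
      omega
    · intro i hi
      exact absurd hi (Nat.not_lt_zero _)
  have h4 := hn₀ n hn ms hcls
  have h5 : P.H 0 n ms = HL d d c' n 0 ms := HL_zero d c c' n ms hord
  have h6 : P.v 0 n ms = vd d ∅ c' n ms := by
    change vd d (range 0) c n ms = vd d ∅ c' n ms
    rw [range_zero]
    unfold vd
    simp only [powerset_empty, sum_singleton, sum_empty]
  rwa [h5, h6] at h4

end Pool.Agent.GD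

end

section

/-!
# General d: the differential Horace step

`step`: if the trace has no solutions, the general dimension of the level `j` is at most the one of the
residual of the level `j + 1`.
-/

set_option autoImplicit false
set_option linter.unusedSectionVars false

namespace Pool.Agent.GD

open Finset Pool.Agent.H51.TB Pool.Agent.V7.ST
open Pool.Agent.V7 (msk)

section

variable {ν ν' : Type} [Fintype ν] [DecidableEq ν] [Fintype ν'] [DecidableEq ν'] {d : ℕ}
  {β : ν → ℕ} {β' : ν' → ℕ} {σ : ν' → ν} {j : ℕ}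

theorem psi_map {R S : Type} [CommRing R] [CommRing S] (g : R →+* S) (k : Kd) (x : Fin (d + 1))
    (q : ν × Fin (d + 1) → R) (δ : ν' × Fin (d + 1) → R) (z : ν' × Fin (d + 1)) :
    g (Psi β β' σ j k x q δ z) =
      Psi β β' σ j k x (fun z => g (q z)) (fun z => g (δ z)) z := by
  rcases k with ⟨e, A⟩ | ⟨e, dl, i, As⟩
  · simp only [Psi]
    split_ifs <;> rfl
  · simp only [Psi]
    split_ifs
    · exact uu_map g β _ q _
    · rfl
    · rfl
    · exact pt_map g β _ x q _
    · rfl

theorem mem_Ex_extend (hσ : Function.Injective σ) (him : ∀ s, (∃ x, σ x = s) ↔ β s ≠ j)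
    (hβ : ∀ x, ∀ i < j, β (σ x) = i ↔ β' x = i) {D : ℕ} (a : ν' → ℕ) :
    Function.extend σ a 0 ∈ Ex β D (range j) ↔ a ∈ Ex β' D (range j) := by
  rw [mem_Ex, mem_Ex]
  have h1 : ∑ s, Function.extend σ a 0 s = ∑ x, a x := by
    symm
    refine Fintype.sum_of_injective σ hσ _ _ ?_ fun x => ?_
    · intro s hs
      exact Function.extend_apply' _ _ _ fun h => hs h
    · rw [hσ.extend_apply]
  rw [h1]
  refine and_congr_right fun _ => ?_
  constructor
  · intro h i hi
    obtain ⟨s, hs, h3⟩ := h i hi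
    rw [mem_range] at hi
    obtain ⟨x, rfl⟩ := (him s).2 (by omega)
    rw [hσ.extend_apply] at h3
    exact ⟨x, (hβ x i hi).1 hs, h3⟩
  · intro h i hi
    obtain ⟨x, hx, h3⟩ := h i hi
    rw [mem_range] at hi
    refine ⟨σ x, (hβ x i hi).2 hx, ?_⟩
    rw [hσ.extend_apply]
    exact h3

/-- The exponents of the level `j + 1`. -/
theorem mem_Ex_succ {D : ℕ} {a : ν → ℕ} : a ∈ Ex β D (range (j + 1)) ↔
    a ∈ Ex β D (range j) ∧ ∃ s, β s = j ∧ a s ≠ 0 := by
  rw [mem_Ex, mem_Ex]
  constructor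
  · rintro ⟨h1, h2⟩
    exact ⟨⟨h1, fun i hi => h2 i (mem_range.2 (by rw [mem_range] at hi; omega))⟩,
      h2 j (mem_range.2 (by omega))⟩
  · rintro ⟨⟨h1, h2⟩, h3⟩
    refine ⟨h1, fun i hi => ?_⟩
    rw [mem_range] at hi
    rcases Nat.lt_or_ge i j with h | h
    · exact h2 i (mem_range.2 h)
    · obtain rfl : i = j := by omega
      exact h3

theorem extend_comp (hσ : Function.Injective σ) (him : ∀ s, (∃ x, σ x = s) ↔ β s ≠ j) {a : ν → ℕ}
    (ha : ∀ s, β s = j → a s = 0) : Function.extend σ (fun x => a (σ x)) 0 = a := by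
  funext s
  by_cases hs : ∃ x, σ x = s
  · obtain ⟨x, rfl⟩ := hs
    rw [hσ.extend_apply]
  · rw [Function.extend_apply' _ _ _ hs, ha s (not_im him hs)]
    rfl

/-- Extension by zero. -/
noncomputable def extL (A A' : Finset (ν → ℕ)) :
    ({a // a ∈ A'} → ℂ) →ₗ[ℂ] ({a // a ∈ A} → ℂ) where
  toFun g e := ext0 A' g e.1
  map_add' g g' := by
    funext e
    unfold ext0
    rw [Pi.add_apply]
    split_ifs
    · rfl
    · rw [add_zero]
  map_smul' r g := by
    funext e
    unfold ext0
    rw [Pi.smul_apply, smul_eq_mul, RingHom.id_apply]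
    split_ifs
    · rfl
    · rw [mul_zero]

/-- The positions of the objects of the trace as polynomials. -/
noncomputable def PhP (β : ν → ℕ) (β' : ν' → ℕ) (σ : ν' → ν) (j : ℕ) {κ : Type} (kk : κ → Kd)
    (y : κ × Fin (d + 1)) (z : ν' × Fin (d + 1)) :
    MvPolynomial ((κ ⊕ (κ × Fin (d + 1))) × (ν × Fin (d + 1))) ℂ :=
  Psi β β' σ j (kk y.1) y.2 (fun w => MvPolynomial.X (Sum.inl y.1, w))
    (fun w => MvPolynomial.X (Sum.inr y, (σ w.1, w.2))) z

theorem eval_PhP {κ : Type} (kk : κ → Kd) (P : κ ⊕ (κ × Fin (d + 1)) → ν × Fin (d + 1) → ℂ)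
    (y : κ × Fin (d + 1)) (z : ν' × Fin (d + 1)) :
    MvPolynomial.eval (fun x => P x.1 x.2) (PhP β β' σ j kk y z) =
      Psi β β' σ j (kk y.1) y.2 (P (Sum.inl y.1)) (fun w => P (Sum.inr y) (σ w.1, w.2)) z := by
  have h := psi_map (β := β) (β' := β') (σ := σ) (j := j)
    (MvPolynomial.eval fun x : (κ ⊕ (κ × Fin (d + 1))) × (ν × Fin (d + 1)) => P x.1 x.2)
    (kk y.1) y.2 (fun w => MvPolynomial.X (Sum.inl y.1, w))
    (fun w => MvPolynomial.X (Sum.inr y, (σ w.1, w.2))) z
  simp only [MvPolynomial.eval_X] at h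
  exact h

theorem PhP_surj (hσ : Function.Injective σ)
    (him : ∀ s, (∃ x, σ x = s) ↔ β s ≠ j) (hβ : ∀ x, ∀ i < j, β (σ x) = i ↔ β' x = i)
    {κ : Type} (kk : κ → Kd) (hk : ∀ i, (kk i).Ok d (j + 1))
    (p : Sm (fun y : κ × Fin (d + 1) => trO j (kk y.1) y.2.1) → ν' × Fin (d + 1) → ℂ) :
    ∃ p' : κ ⊕ (κ × Fin (d + 1)) → ν × Fin (d + 1) → ℂ, ∀ y z,
      MvPolynomial.eval (fun x => p' x.1 x.2) (PhP β β' σ j kk y.1 z) = p y z := by
  classical
  have h1 : ∀ i : κ, ∃ (q : ν × Fin (d + 1) → ℂ) (δ : Fin (d + 1) → ν' × Fin (d + 1) → ℂ),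
      ∀ x : Fin (d + 1), ∀ hx : (trO j (kk i) x.1).isSome, ∀ z,
        Psi β β' σ j (kk i) x q (δ x) z = p ⟨(i, x), hx⟩ z := by
    intro i
    obtain ⟨q, δ, h2⟩ := psi_surj β β' hσ him hβ (kk i) (hk i)
      (fun x => if hx : (trO j (kk i) x.1).isSome then p ⟨(i, x), hx⟩ else 0)
    refine ⟨q, δ, fun x hx z => ?_⟩
    rw [h2 x hx z, dif_pos hx]
  choose q δ h1 using h1
  have hinj : Function.Injective fun w : ν' × Fin (d + 1) => (σ w.1, w.2) := by
    intro w w' h
    have h2 : (σ w.1, w.2) = (σ w'.1, w'.2) := h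
    exact Prod.ext (hσ (Prod.ext_iff.1 h2).1) (Prod.ext_iff.1 h2).2
  refine ⟨Sum.elim q fun y => Function.extend (fun w : ν' × Fin (d + 1) => (σ w.1, w.2))
    (δ y.1 y.2) 0, ?_⟩
  rintro ⟨⟨i, x⟩, hx⟩ z
  rw [eval_PhP, ← h1 i x hx z]
  congr 1
  funext w
  exact hinj.extend_apply _ _ w

/-- **The step**, for families. -/
theorem step_gd {D : ℕ} (hD : D ≤ d) (hσ : Function.Injective σ)
    (him : ∀ s, (∃ x, σ x = s) ↔ β s ≠ j) (hβ : ∀ x, ∀ i < j, β (σ x) = i ↔ β' x = i)
    {κ : Type} [Fintype κ] (kk : κ → Kd) (hk : ∀ i, (kk i).Ok d (j + 1))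
    (h0 : (LS d D β' (range j)).gd
      (Sm.k fun y : κ × Fin (d + 1) => trO j (kk y.1) y.2.1) = 0) :
    (LS d D β (range j)).gd (Sm.k fun y : κ × Fin (d + 1) => unO j (kk y.1) y.2.1) ≤
      (LS d D β (range (j + 1))).gd kk := by
  classical
  have g1 := gn_gd (LS d D β' (range j)) (Sm.k fun y : κ × Fin (d + 1) => trO j (kk y.1) y.2.1)
  have g2 := Pool.Agent.KZ.gn_sub
    (fun y : Sm (fun y : κ × Fin (d + 1) => trO j (kk y.1) y.2.1) => PhP β β' σ j kk y.1)
    (PhP_surj hσ him hβ kk hk) g1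
  have g3 := (gn_gd (LS d D β (range (j + 1))) kk).comap
    (Sum.inl : κ → κ ⊕ (κ × Fin (d + 1))) Sum.inl_injective
  obtain ⟨P, hP1, hP2⟩ := (g2.and g3).exists
  rw [h0] at hP1
  rw [← hP2]
  have hAj : ∀ a ∈ Ex β D (range j), ∑ s, a s = D := fun a ha => Ex_sum ha
  refine (gd_lim (LS d D β (range j)) _ (fun y => Qn β j (kk y.1.1) y.1.2 (P (Sum.inl y.1.1)))
    (Submodule.map (extL (Ex β D (range j)) (Ex β D (range (j + 1))))
      ((LS d D β (range (j + 1))).V kk fun i => P (Sum.inl i))) ?_).trans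
    (Submodule.finrank_map_le _ _)
  intro F hF
  set φ : (ν → ℕ) → Polynomial ℂ := ext0 (Ex β D (range j)) F with hφ
  have hUS : ∀ i, US β j (kk i) (P (Sum.inl i)) (Fn φ) := by
    intro i x k' hk'
    have hs : (trO j (kk i) x.1).isSome ∨ True := Or.inr trivial
    have hx : (unO j (kk i) x.1).isSome := by rw [hk']; rfl
    have h1 := (sat_iff hD β (range j) hAj _ _ F).1 (hF ⟨(i, x), hx⟩)
    have h2 : Sm.k (fun y : κ × Fin (d + 1) => unO j (kk y.1) y.2.1) ⟨(i, x), hx⟩ = k' := by
      unfold Sm.k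
      simp only [hk', Option.get_some]
    rw [h2] at h1
    exact h1
  have hφ0 : ∀ a, a ∉ Ex β D (range j) → φ a = 0 := fun a ha => ext0_not F ha
  -- the trace
  have htr : ∀ B < (d + 1).factorial, ∀ a, trC σ B φ a = 0 := by
    intro B hB
    have h1 : (fun a : {a // a ∈ Ex β' D (range j)} => trC σ B φ a.1) ∈
        (LS d D β' (range j)).V (Sm.k fun y : κ × Fin (d + 1) => trO j (kk y.1) y.2.1)
          fun y z => MvPolynomial.eval (fun x => P x.1 x.2) (PhP β β' σ j kk y.1 z) := by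
      rw [mem_LS hD]
      intro y
      have h2 : ext0 (Ex β' D (range j)) (fun a : {a // a ∈ Ex β' D (range j)} => trC σ B φ a.1) =
          trC σ B φ := by
        funext a
        by_cases ha : a ∈ Ex β' D (range j)
        · exact ext0_mem _ ⟨a, ha⟩
        · rw [ext0_not _ ha]
          unfold trC
          rw [hφ0 _ fun h => ha ((mem_Ex_extend hσ him hβ a).1 h), Polynomial.coeff_zero]
      rw [h2, show (fun z => MvPolynomial.eval (fun x => P x.1 x.2) (PhP β β' σ j kk y.1 z)) =
        Psi β β' σ j (kk y.1.1) y.1.2 (P (Sum.inl y.1.1)) (fun w => P (Sum.inr y.1) (σ w.1, w.2)) from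
        funext fun z => eval_PhP kk P y.1 z]
      exact sat_trace hσ him hβ (kk y.1.1) (hk _) _ φ (hUS _) hB y.1.2 _ _
        (Option.some_get y.2).symm
    rw [Submodule.finrank_eq_zero.1 hP1, Submodule.mem_bot] at h1
    intro a
    by_cases ha : a ∈ Ex β' D (range j)
    · exact congrFun h1 ⟨a, ha⟩
    · unfold trC
      rw [hφ0 _ fun h => ha ((mem_Ex_extend hσ him hβ a).1 h), Polynomial.coeff_zero]
  have hdvd : ∀ a : ν' → ℕ,
      Polynomial.X ^ (d + 1).factorial ∣ φ (Function.extend σ a 0) := by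
    intro a
    rw [Polynomial.X_pow_dvd_iff]
    exact fun B hB => htr B hB a
  have hoff : ∀ a, (∀ s, β s = j → a s = 0) → (φ a).eval 0 = 0 := by
    intro a ha
    obtain ⟨r, hr⟩ := hdvd fun x => a (σ x)
    rw [extend_comp hσ him ha] at hr
    rw [hr, Polynomial.eval_mul, Polynomial.eval_pow, Polynomial.eval_X,
      zero_pow (Nat.factorial_ne_zero _), zero_mul]
  have hz : ∀ a, a ∉ Ex β D (range (j + 1)) → (φ a).eval 0 = 0 := by
    intro a ha
    by_cases h1 : a ∈ Ex β D (range j)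
    · refine hoff a fun s hs => ?_
      by_contra h2
      exact ha (mem_Ex_succ.2 ⟨h1, s, hs, h2⟩)
    · rw [hφ0 a h1, Polynomial.eval_zero]
  refine ⟨fun e => (φ e.1).eval 0, ?_, ?_⟩
  · rw [SetLike.mem_coe, mem_LS hD]
    intro i
    have h2 : ext0 (Ex β D (range (j + 1)))
        (fun e : {a // a ∈ Ex β D (range (j + 1))} => (φ e.1).eval 0) =
        fun a => (φ a).eval 0 := by
      funext a
      by_cases ha : a ∈ Ex β D (range (j + 1))
      · exact ext0_mem _ ⟨a, ha⟩
      · rw [ext0_not _ ha, hz a ha]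
    rw [h2]
    exact sat_resid hσ him (kk i) (hk i) _ φ (hUS i) hdvd
  · funext e
    show ext0 (Ex β D (range (j + 1)))
      (fun e : {a // a ∈ Ex β D (range (j + 1))} => (φ e.1).eval 0) e.1 = (F e).eval 0
    have h3 : φ e.1 = F e := ext0_mem F e
    by_cases ha : e.1 ∈ Ex β D (range (j + 1))
    · rw [← h3]
      exact ext0_mem _ ⟨e.1, ha⟩
    · rw [ext0_not _ ha, ← h3, hz e.1 ha]

end

/-- **The step** (`D = d` is the main case). -/
theorem step' {d D j n : ℕ} (hD : D ≤ d) {c : ℕ → ℕ} (hc : ∀ k ≤ j, 1 ≤ c k)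
    (hn : ∑ k ∈ range (j + 1), c k ≤ n) (ms : Multiset Kd) (hk : ∀ k ∈ ms, k.Ok d (j + 1))
    (h0 : HL d D c (n - c j) j (ms.bind (tr j)) = 0) :
    HL d D c n j (ms.bind (un j)) ≤ HL d D c n (j + 1) ms := by
  classical
  obtain ⟨σ, hσ, him, hβ⟩ := sg_facts hc hn
  obtain ⟨m, hm, hm'⟩ := exists_conf (LS d D (blk c n) (range (j + 1))) ms
  have hkm : ∀ i, (m i).Ok d (j + 1) := by
    intro i
    refine hk _ ?_
    rw [← hm]
    exact Multiset.mem_map_of_mem _ (mem_univ i)
  have h1 : (LS d D (blk c (n - c j)) (range j)).gd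
      (Sm.k fun y : Fin ms.toList.length × Fin (d + 1) => trO j (m y.1) y.2.1) = 0 := by
    rw [gd_eq_gM, map_trO m hkm, hm]
    exact h0
  have h2 := step_gd hD hσ him hβ m hkm h1
  rw [gd_eq_gM, map_unO m hkm, hm, hm'] at h2
  exact h2

theorem step {d j n : ℕ} {c : ℕ → ℕ} (hc : ∀ k ≤ j, 1 ≤ c k)
    (hn : ∑ k ∈ range (j + 1), c k ≤ n) (ms : Multiset Kd) (hk : ∀ k ∈ ms, k.Ok d (j + 1))
    (h0 : HL d d c (n - c j) j (ms.bind (tr j)) = 0) :
    HL d d c n j (ms.bind (un j)) ≤ HL d d c n (j + 1) ms :=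
  step' le_rfl hc hn ms hk h0

end Pool.Agent.GD

end

section

/-!
# General d, the final part: simple points, and the dimension for all configurations
-/

set_option autoImplicit false

namespace Pool.Agent.GD.FIN

open Finset Pool.Agent.XD Pool.Agent.H18.Fat Pool.Agent.H21.HD Pool.Agent.H21.NX Pool.Agent.H74.V8C

/-- Without the simple points (as `Pool.Agent.H74.V9.simple_exact`). -/
theorem simple_exact2 (r d k : ℕ) (m : Fin k → ℕ) (hd : 2 ≤ d) (hm : ∀ i, 1 ≤ m i ∧ m i ≤ d) :
    ∃ (k' : ℕ) (m' : Fin k' → ℕ), (∀ i, 1 ≤ m' i ∧ m' i ≤ d) ∧ (∀ i, m' i ≠ 1) ∧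
      (univ.filter fun i => m' i = d).card = (univ.filter fun i => m i = d).card ∧
      (∀ j < d, fro r (fun i => d + 1 - m' i) univ j = fro r (fun i => d + 1 - m i) univ j) ∧
      fro r (fun i => d + 1 - m' i) univ d =
        fro r (fun i => d + 1 - m i) univ d + (univ.filter fun i => m i = 1).card ∧
      gdim r d m ≤ gdim r d m' - (univ.filter fun i => m i = 1).card := by
  classical
  obtain ⟨S, hS⟩ : ∃ S : Finset (Fin k), S = univ.filter fun i => m i = 1 := ⟨_, rfl⟩
  have hSm : ∀ i, i ∈ S ↔ m i = 1 := by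
    intro i
    rw [hS, mem_filter]
    simp
  obtain ⟨T, hT⟩ : ∃ T : Finset (Fin k), T = univ.filter fun i => m i ≠ 1 := ⟨_, rfl⟩
  have hTm : ∀ i, i ∈ T ↔ m i ≠ 1 := by
    intro i
    rw [hT, mem_filter]
    simp
  have hdis : Disjoint T S := by
    rw [disjoint_left]
    intro i hi hi'
    rw [hTm] at hi
    rw [hSm] at hi'
    exact hi hi'
  have hun : (univ : Finset (Fin k)) = T ∪ S := by
    ext i
    rw [mem_union, hTm, hSm]
    simp only [mem_univ, true_iff]
    tauto
  obtain ⟨t, ht⟩ : ∃ t, t = Fintype.card {i : Fin k // m i ≠ 1} := ⟨_, rfl⟩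
  subst ht
  let g : {i : Fin k // m i ≠ 1} ≃ Fin (Fintype.card {i : Fin k // m i ≠ 1}) := Fintype.equivFin _
  let g' : {i : Fin k // ¬ m i ≠ 1} ≃ Fin (Fintype.card {i : Fin k // ¬ m i ≠ 1}) :=
    Fintype.equivFin _
  let f : Fin (Fintype.card {i : Fin k // m i ≠ 1}) ↪ Fin k :=
    g.symm.toEmbedding.trans (Function.Embedding.subtype _)
  have hf : (univ : Finset (Fin (Fintype.card {i : Fin k // m i ≠ 1}))).map f = T := by
    ext i
    rw [mem_map, hTm]
    constructor
    · rintro ⟨j, _, rfl⟩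
      exact (g.symm j).2
    · intro hi
      refine ⟨g ⟨i, hi⟩, mem_univ _, ?_⟩
      show ((g.symm (g ⟨i, hi⟩) : {i : Fin k // m i ≠ 1}) : Fin k) = i
      rw [Equiv.symm_apply_apply]
  have hfr : ∀ j, fro r (fun i => d + 1 - m (f i)) univ j = fro r (fun i => d + 1 - m i) T j := by
    intro j
    rw [← hf, Pool.Agent.H74.V8C.fro_map]
  have hcard : Fintype.card {i : Fin k // ¬ m i ≠ 1} = S.card := by
    rw [Fintype.card_subtype, hS]
    congr 1
    ext i
    rw [mem_filter, mem_filter, not_not]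
  rw [← hS]
  refine ⟨_, fun i => m (f i), fun i => hm _, fun i => (g.symm i).2, ?_, ?_, ?_, ?_⟩
  · have h1 : (univ.filter fun i => m i = d) = (univ.filter fun i => m (f i) = d).map f := by
      ext i
      rw [mem_map, mem_filter]
      constructor
      · rintro ⟨_, hi⟩
        have h2 : i ∈ T := by
          rw [hTm]
          omega
        rw [← hf, mem_map] at h2
        obtain ⟨j, _, rfl⟩ := h2
        exact ⟨j, by rw [mem_filter]; exact ⟨mem_univ _, hi⟩, rfl⟩
      · rintro ⟨j, hj, rfl⟩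
        rw [mem_filter] at hj
        exact ⟨mem_univ _, hj.2⟩
    rw [h1, card_map]
  · intro j hj
    have h0 : ∀ D : DecidableEq (Fin k), @Union.union _ (@Finset.instUnion _ D) T S =
        T.disjUnion S hdis := fun D => (disjUnion_eq_union T S hdis).symm
    have h1 := fro_union_large r j (fun i => d + 1 - m i) T S hdis fun i hi => by
      rw [hSm] at hi
      omega
    rw [h0] at h1
    rw [hfr, hun, h0, h1]
  · have h1 : fro r (fun i => d + 1 - m i) (T ∪ S) d =
        fro r (fun i => d + 1 - m i) T d - S.card :=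
      fro_simple' r d (fun i => d + 1 - m i) T S hdis (fun i _ => by have := hm i; omega) (by omega)
        fun i hi => by
          rw [hSm] at hi
          omega
    rw [hfr, hun, h1]
    ring
  · have h1 := gdim_simples r d (fun i => m (f i)) (Fintype.card {i : Fin k // ¬ m i ≠ 1})
    let e : Fin k ≃ Fin (Fintype.card {i : Fin k // m i ≠ 1}) ⊕
        Fin (Fintype.card {i : Fin k // ¬ m i ≠ 1}) :=
      (Equiv.sumCompl fun i : Fin k => m i ≠ 1).symm.trans (Equiv.sumCongr g g')
    have h2 := gdim_comp_equiv r d e (Sum.elim (fun i => m (f i))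
      fun _ : Fin (Fintype.card {i : Fin k // ¬ m i ≠ 1}) => 1)
    have h3 : (fun i => Sum.elim (fun i => m (f i))
        (fun _ : Fin (Fintype.card {i : Fin k // ¬ m i ≠ 1}) => 1) (e i)) = m := by
      funext i
      by_cases hi : m i ≠ 1
      · have h4 : e i = Sum.inl (g ⟨i, hi⟩) := by
          show Sum.map g g' ((Equiv.sumCompl fun i : Fin k => m i ≠ 1).symm i) = _
          rw [Equiv.sumCompl_symm_apply_of_pos (a := i) hi]
          rfl
        rw [h4]
        show m ((g.symm (g ⟨i, hi⟩) : {i : Fin k // m i ≠ 1}) : Fin k) = m i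
        rw [Equiv.symm_apply_apply]
      · have h4 : e i = Sum.inr (g' ⟨i, hi⟩) := by
          show Sum.map g g' ((Equiv.sumCompl fun i : Fin k => m i ≠ 1).symm i) = _
          rw [Equiv.sumCompl_symm_apply_of_neg (a := i) hi]
          rfl
        rw [h4]
        show 1 = m i
        rw [not_not] at hi
        exact hi.symm
    rw [h3] at h2
    rw [h2, ← hcard]
    exact h1

theorem fro_fin (r k : ℕ) (e : ℕ → ℕ) (j : ℕ) :
    fro r (fun s : Fin k => e s) univ j = A e (r + 1) k j := by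
  rw [← fro_range, ← Nat.Iio_eq_range, ← Fin.map_valEmbedding_univ, Pool.Agent.H74.V8C.fro_map]
  rfl

end Pool.Agent.GD.FIN

end

section

/-!
# General d, the final part: the limits of the numbers `A / m^D`

If `m → ∞` and `#{s | e s = x} / m^x → kap x` for all `x` then `A e m t D / m^D → gg kap D`.
-/

set_option autoImplicit false

namespace Pool.Agent.GD.FIN

open Finset Filter Topology Pool.Agent.XD

/-- The number of the exponents `x`. -/
def cnt (e : ℕ → ℕ) (t x : ℕ) : ℕ := ((range t).filter fun s => e s = x).card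

theorem sum_dvd (e : ℕ → ℕ) (t k : ℕ) (hk : k ≠ 0) :
    ∑ s ∈ (range t).filter (fun s => e s ∣ k), e s = ∑ x ∈ k.divisors, x * cnt e t x := by
  rw [← sum_fiberwise_of_maps_to (s := (range t).filter (fun s => e s ∣ k)) (t := k.divisors)
    (g := e)]
  · refine sum_congr rfl fun x hx => ?_
    have h1 : ((range t).filter (fun s => e s ∣ k)).filter (fun s => e s = x) =
        (range t).filter fun s => e s = x := by
      ext s
      simp only [mem_filter]
      constructor
      · rintro ⟨⟨h1, _⟩, h3⟩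
        exact ⟨h1, h3⟩
      · rintro ⟨h1, h3⟩
        exact ⟨⟨h1, by rw [h3]; exact Nat.dvd_of_mem_divisors hx⟩, h3⟩
    rw [h1, sum_congr rfl (fun s hs => (mem_filter.1 hs).2), sum_const, smul_eq_mul, mul_comm]
    rfl
  · intro s hs
    rw [mem_filter] at hs
    exact Nat.mem_divisors.2 ⟨hs.2, hk⟩

theorem gg_zero (kap : ℕ → ℝ) : gg kap 0 = 1 := by rw [gg]

theorem gg_succ (kap : ℕ → ℝ) (D : ℕ) : ((D : ℝ) + 1) * gg kap (D + 1) =
    gg kap D - ∑ l ∈ range D, ((l : ℝ) + 2) * kap (l + 2) * gg kap (D - 1 - l) := by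
  rw [gg]
  have h1 : ∑ x : Fin D, ((D + 1 - x.1 : ℕ) : ℝ) * kap (D + 1 - x.1) * gg kap x.1 =
      ∑ l ∈ range D, ((l : ℝ) + 2) * kap (l + 2) * gg kap (D - 1 - l) := by
    rw [Fin.sum_univ_eq_sum_range (fun x => ((D + 1 - x : ℕ) : ℝ) * kap (D + 1 - x) * gg kap x) D,
      ← sum_range_reflect]
    refine sum_congr rfl fun l hl => ?_
    rw [mem_range] at hl
    have h2 : D + 1 - (D - 1 - l) = l + 2 := by omega
    rw [h2]
    push_cast
    rfl
  rw [h1]
  field_simp

section

variable {kap : ℕ → ℝ} {m : ℕ → ℕ} {e : ℕ → ℕ → ℕ} {t : ℕ → ℕ}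

theorem pow_inv_lim (hm : Tendsto m atTop atTop) {k : ℕ} (hk : k ≠ 0) :
    Tendsto (fun i => ((m i : ℝ) ^ k)⁻¹) atTop (𝓝 0) := by
  have h1 : Tendsto (fun i => (m i : ℝ)) atTop atTop := tendsto_natCast_atTop_atTop.comp hm
  exact tendsto_inv_atTop_zero.comp ((tendsto_pow_atTop hk).comp h1)

theorem sum_lim (hm : Tendsto m atTop atTop)
    (hk : ∀ x, Tendsto (fun i => (cnt (e i) (t i) x : ℝ) / (m i : ℝ) ^ x) atTop (𝓝 (kap x)))
    (k : ℕ) (hk0 : k ≠ 0) : Tendsto (fun i =>
      ((∑ s ∈ (range (t i)).filter (fun s => e i s ∣ k), e i s : ℕ) : ℝ) / (m i : ℝ) ^ k) atTop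
      (𝓝 (k * kap k)) := by
  have h1 : ∀ i, ((∑ s ∈ (range (t i)).filter (fun s => e i s ∣ k), e i s : ℕ) : ℝ) / (m i : ℝ) ^ k =
      ∑ x ∈ k.divisors, (x : ℝ) * ((cnt (e i) (t i) x : ℝ) / (m i : ℝ) ^ k) := by
    intro i
    rw [sum_dvd _ _ _ hk0]
    push_cast
    rw [sum_div]
    refine sum_congr rfl fun x _ => ?_
    ring
  have h2 : ((k : ℝ) * kap k) = ∑ x ∈ k.divisors, if x = k then (x : ℝ) * kap x else 0 := by
    rw [sum_ite_eq' k.divisors k]
    rw [if_pos (Nat.mem_divisors_self k hk0)]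
  rw [tendsto_congr h1, h2]
  refine tendsto_finsetSum _ fun x hx => ?_
  split_ifs with hxk
  · subst hxk
    exact (hk x).const_mul _
  · have hlt : x < k := lt_of_le_of_ne (Nat.divisor_le hx) hxk
    have h3 : Tendsto (fun i => (x : ℝ) * (((cnt (e i) (t i) x : ℝ) / (m i : ℝ) ^ x) *
        ((m i : ℝ) ^ (k - x))⁻¹)) atTop (𝓝 ((x : ℝ) * (kap x * 0))) :=
      ((hk x).mul (pow_inv_lim hm (by omega))).const_mul _
    rw [mul_zero, mul_zero] at h3
    refine h3.congr' ?_
    filter_upwards [hm.eventually_ge_atTop 1] with i hi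
    have hmi : (0 : ℝ) < m i := by exact_mod_cast hi
    have h4 : (m i : ℝ) ^ k = (m i : ℝ) ^ x * (m i : ℝ) ^ (k - x) := by
      rw [← pow_add]
      congr 1
      omega
    rw [h4]
    field_simp

theorem lim_A (hm : Tendsto m atTop atTop) (he : ∀ i s, 2 ≤ e i s)
    (hk : ∀ x, Tendsto (fun i => (cnt (e i) (t i) x : ℝ) / (m i : ℝ) ^ x) atTop (𝓝 (kap x)))
    (D : ℕ) : Tendsto (fun i => (A (e i) (m i) (t i) D : ℝ) / (m i : ℝ) ^ D) atTop
      (𝓝 (gg kap D)) := by
  have he1 : ∀ i s, 1 ≤ e i s := fun i s => by have := he i s; omega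
  induction D using Nat.strong_induction_on with
  | _ D ih =>
    rcases D with _ | D
    · rw [gg_zero]
      refine tendsto_const_nhds.congr fun i => ?_
      rw [A_deg_zero (he1 i)]
      simp
    · -- the coefficients
      have hc : ∀ l, Tendsto (fun i => ((m i : ℝ) -
          ((∑ s ∈ (range (t i)).filter (fun s => e i s ∣ l + 1), e i s : ℕ) : ℝ)) /
            (m i : ℝ) ^ (l + 1)) atTop (𝓝 (if l = 0 then 1 else -(((l : ℝ) + 1) * kap (l + 1)))) := by
        intro l
        have h1 := sum_lim hm hk (l + 1) (by omega)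
        rcases Nat.eq_zero_or_pos l with hl | hl
        · subst hl
          rw [if_pos rfl]
          have h2 : ∀ i, ∑ s ∈ (range (t i)).filter (fun s => e i s ∣ 0 + 1), e i s = 0 := by
            intro i
            refine sum_eq_zero fun s hs => ?_
            have h3 := Nat.dvd_one.1 (mem_filter.1 hs).2
            have h4 := he i s
            omega
          refine (tendsto_const_nhds (x := (1 : ℝ))).congr' ?_
          filter_upwards [hm.eventually_ge_atTop 1] with i hi
          have hmi : (0 : ℝ) < m i := by exact_mod_cast hi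
          rw [h2]
          push_cast
          rw [sub_zero, pow_one, div_self hmi.ne']
        · rw [if_neg (by omega)]
          have h2 : Tendsto (fun i => ((m i : ℝ) ^ l)⁻¹ -
              ((∑ s ∈ (range (t i)).filter (fun s => e i s ∣ l + 1), e i s : ℕ) : ℝ) /
                (m i : ℝ) ^ (l + 1)) atTop (𝓝 (0 - ((l + 1 : ℕ) : ℝ) * kap (l + 1))) :=
            (pow_inv_lim hm (by omega)).sub h1
          rw [zero_sub] at h2
          push_cast at h2 ⊢
          refine h2.congr' ?_
          filter_upwards [hm.eventually_ge_atTop 1] with i hi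
          have hmi : (0 : ℝ) < m i := by exact_mod_cast hi
          rw [sub_div, pow_succ (m i : ℝ) l]
          congr 1
          field_simp
      have h1 : Tendsto (fun i => ∑ l ∈ range (D + 1), (((m i : ℝ) -
          ((∑ s ∈ (range (t i)).filter (fun s => e i s ∣ l + 1), e i s : ℕ) : ℝ)) /
            (m i : ℝ) ^ (l + 1)) * ((A (e i) (m i) (t i) (D - l) : ℝ) / (m i : ℝ) ^ (D - l))) atTop
          (𝓝 (∑ l ∈ range (D + 1), (if l = 0 then 1 else -(((l : ℝ) + 1) * kap (l + 1))) *
            gg kap (D - l))) :=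
        tendsto_finsetSum _ fun l hl => (hc l).mul (ih (D - l) (by omega))
      have h2 : ∑ l ∈ range (D + 1), (if l = 0 then 1 else -(((l : ℝ) + 1) * kap (l + 1))) *
            gg kap (D - l) = ((D : ℝ) + 1) * gg kap (D + 1) := by
        rw [gg_succ, sum_range_succ']
        simp only [if_true, Nat.sub_zero, one_mul, Nat.succ_ne_zero, if_false]
        rw [add_comm, sub_eq_add_neg, ← sum_neg_distrib]
        congr 1
        refine sum_congr rfl fun l hl => ?_
        have h3 : D - (l + 1) = D - 1 - l := by omega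
        rw [h3]
        push_cast
        ring
      rw [h2] at h1
      have h3 := h1.const_mul (((D : ℝ) + 1)⁻¹)
      rw [← mul_assoc, inv_mul_cancel₀ (by positivity), one_mul] at h3
      refine h3.congr' ?_
      filter_upwards [hm.eventually_ge_atTop 1] with i hi
      have hmi : (0 : ℝ) < m i := by exact_mod_cast hi
      have h4 := congrArg (Int.cast (R := ℝ)) (A_euler (he1 i) (m i) (t i) D hi)
      push_cast at h4
      rw [inv_mul_eq_div, div_eq_div_iff (by positivity) (by positivity), mul_comm (A _ _ _ _ : ℝ),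
        h4, sum_mul]
      refine sum_congr rfl fun l hl => ?_
      rw [mem_range] at hl
      have h5 : (m i : ℝ) ^ (D + 1) = (m i : ℝ) ^ (l + 1) * (m i : ℝ) ^ (D - l) := by
        rw [← pow_add]
        congr 1
        omega
      rw [h5]
      push_cast
      field_simp

end

end Pool.Agent.GD.FIN

end

section

/-!
# General d, the final part: compactness

`Zero d`: near every critical vector of densities the dimension is at most `max 0 a_d`.  Then this holds for
all sequences of exponents `< d` with `a_j > 0` (`j < d`) and a large number of variables: off the layer by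
`xe2`; a sequence of counterexamples in the layer has a subsequence whose densities converge, the limit is
critical by `lim_A`, `Pool.Agent.XD.layer` and `Pool.Agent.XD.step`.
-/

set_option autoImplicit false

namespace Pool.Agent.GD.FIN

open Finset Filter Topology Pool.Agent.XD

/-- The result for the critical vectors of densities. -/
def Zero (d : ℕ) : Prop := ∀ kap : ℕ → ℝ, (∀ x, 0 ≤ kap x) → (∀ x, kap x ≠ 0 → 2 ≤ x ∧ x < d) →
  gg kap d = 0 → (∀ D < d, 0 < gg kap D) → ∃ (η : ℝ) (n₀ : ℕ), 0 < η ∧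
    ∀ n, n₀ ≤ n → ∀ (e : ℕ → ℕ) (t : ℕ), (∀ s, 2 ≤ e s) → (∀ s < t, e s < d) →
      (∀ x, |(cnt e t x : ℝ) - kap x * (n : ℝ) ^ x| ≤ η * (n : ℝ) ^ x) →
        (Pool.Agent.XD.FF e n t d : ℤ) ≤ max 0 (A e n t d)

theorem cnt_le {e : ℕ → ℕ} (he : ∀ s, 1 ≤ e s) {m t J : ℕ} (h : ∀ j < J, 0 ≤ A e m t j)
    {a : ℕ} (ha : a < J) : cnt e t a ≤ m ^ a := by
  have key : ∀ T, T ≤ t → A e m T a + (cnt e T a : ℤ) ≤ (Nat.multichoose m a : ℤ) := by
    intro T
    induction T with
    | zero =>
      intro _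
      simp [cnt, A_zero]
    | succ T ih =>
      intro hT
      have h1 := ih (by omega)
      have hc : cnt e (T + 1) a = cnt e T a + if e T = a then 1 else 0 := by
        unfold cnt
        rw [range_add_one, filter_insert]
        split_ifs with hh
        · rw [card_insert_of_notMem (by simp)]
        · simp
      rw [A_succ, hc]
      by_cases h2 : e T = a
      · rw [if_pos h2, if_pos h2.le, h2, Nat.sub_self, A_deg_zero he]
        push_cast
        linarith
      · rw [if_neg h2]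
        by_cases h3 : e T ≤ a
        · rw [if_pos h3]
          have h4 : A e m t (a - e T) ≤ A e m T (a - e T) :=
            A_anti_t he h (by omega) (by omega)
          have h5 := h (a - e T) (by omega)
          push_cast
          linarith
        · rw [if_neg h3]
          push_cast
          linarith
  have h1 := key t le_rfl
  have h2 := h a ha
  have h3 : (Nat.multichoose m a : ℤ) ≤ (m : ℤ) ^ a := by exact_mod_cast multichoose_le_pow m a
  have h4 : (cnt e t a : ℤ) ≤ ((m ^ a : ℕ) : ℤ) := by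
    push_cast
    linarith
  exact_mod_cast h4

theorem cnt_zero {e : ℕ → ℕ} {t x : ℕ} (h : ∀ s < t, e s ≠ x) : cnt e t x = 0 := by
  unfold cnt
  rw [card_eq_zero, filter_eq_empty_iff]
  intro s hs
  rw [mem_range] at hs
  exact h s hs

theorem log_lim (C : ℝ) {m : ℕ → ℕ} (hm : Tendsto m atTop atTop) :
    Tendsto (fun i => C * Real.log (m i) / (m i : ℝ)) atTop (𝓝 0) := by
  have h1 : Tendsto (fun i => (m i : ℝ)) atTop atTop := tendsto_natCast_atTop_atTop.comp hm
  have h2 : Tendsto (fun x : ℝ => Real.log x / x) atTop (𝓝 0) := by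
    have := Real.isLittleO_log_id_atTop.tendsto_div_nhds_zero
    exact this
  have h3 := (h2.comp h1).const_mul C
  rw [mul_zero] at h3
  refine h3.congr fun i => ?_
  simp only [Function.comp]
  ring

end Pool.Agent.GD.FIN

end

section

/-!
# General d, the final part: `TargetZero` and the complete answer
-/

set_option autoImplicit false

namespace Pool.Agent.GD.FIN

open Finset Pool.Agent.XD Pool.Agent.H18.Fat Pool.Agent.H21.HD Pool.Agent.H21.NX

theorem gg_pos_of_zero {kap : ℕ → ℝ} (h : ∀ x, kap x = 0) (D : ℕ) : 0 < gg kap D := by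
  induction D with
  | zero =>
    rw [gg_zero]
    exact one_pos
  | succ D ih =>
    have h1 := gg_succ kap D
    have h2 : ∑ l ∈ range D, ((l : ℝ) + 2) * kap (l + 2) * gg kap (D - 1 - l) = 0 := by
      refine sum_eq_zero fun l _ => ?_
      rw [h]
      ring
    rw [h2, sub_zero] at h1
    by_contra hc
    push Not at hc
    have h3 : ((D : ℝ) + 1) * gg kap (D + 1) ≤ 0 :=
      mul_nonpos_of_nonneg_of_nonpos (by positivity) hc
    linarith

theorem exists_crit {d : ℕ} {kap : ℕ → ℝ} (h0 : ∀ x, 0 ≤ kap x)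
    (hs : ∀ x, kap x ≠ 0 → 2 ≤ x ∧ x < d) (hd : gg kap d = 0) (hp : ∀ D < d, 0 < gg kap D) :
    ∃ e, Crit d e kap := by
  classical
  have hne : ((range d).filter fun x => kap x ≠ 0).Nonempty := by
    by_contra hc
    rw [not_nonempty_iff_eq_empty, filter_eq_empty_iff] at hc
    have h1 : ∀ x, kap x = 0 := by
      intro x
      by_contra hx
      exact hc (mem_range.2 (hs x hx).2) hx
    have h2 := gg_pos_of_zero h1 d
    rw [hd] at h2
    exact lt_irrefl _ h2
  have h1 := mem_filter.1 (max'_mem _ hne)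
  refine ⟨_, h0, fun x hx => ⟨(hs x hx).1, ?_⟩, lt_of_le_of_ne (h0 _) (Ne.symm h1.2),
    (hs _ h1.2).1, (hs _ h1.2).2, hd, hp⟩
  exact le_max' _ _ (mem_filter.2 ⟨mem_range.2 (hs x hx).2, hx⟩)

theorem zero_of_target (hT : TargetZero) (d : ℕ) : Zero d := by
  classical
  intro kap h0 hs hd hp
  obtain ⟨x₀, hcrit⟩ := exists_crit h0 hs hd hp
  obtain ⟨η, n₀, hη, h⟩ := hT d x₀ kap hcrit
  refine ⟨η, n₀ + 1, hη, fun n hn e t he ht hcnt => ?_⟩
  rw [FF_eq_HL (d := d) le_rfl (by omega) (fun _ => 1) e, A_eq_vd (fun _ => 1) e]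
  refine h n (by omega) _ (fun k hk => ?_) (fun x => ?_) _
  · rw [Multiset.mem_map] at hk
    obtain ⟨s, hs, rfl⟩ := hk
    exact ⟨e s, rfl, he s, ht s (Multiset.mem_range.1 hs)⟩
  · have h1 : ((Multiset.range t).map fun i => Kd.ord (e i) ∅).count (.ord x ∅) = cnt e t x := by
      rw [Multiset.count_map]
      unfold cnt
      rw [card_def, filter_val, range_val]
      congr 1
      refine Multiset.filter_congr fun s _ => ?_
      constructor
      · intro h
        injection h with h2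
        exact h2.symm
      · intro h
        rw [h]
    rw [h1]
    exact hcnt x

end Pool.Agent.GD.FIN

end

section

/-!
# XD, module B: sequences; the exponents `1`

An exponent `1` (a point of multiplicity `d`) lowers the number of variables by one (`gdim_one`, `fro_cone`).
Without such points `e s = d + 1 - m s` for `s < k`.
-/

set_option autoImplicit false

namespace Pool.Agent.XD

open Finset Pool.Agent.H21.NX Pool.Agent.H21.HD

/-- A general linear form. -/
theorem Seq_FF_one (d : ℕ) (e : ℕ → ℕ) (he : ∀ t, 1 ≤ e t) (r n : ℕ) (h1 : e n = 1) :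
    FF e (r + 2) (n + 1) d = FF e (r + 1) n d := by
  classical
  obtain ⟨N, hN, hF⟩ := (sys_FF d e he).stair (r + 2) n (by omega)
  rw [hF d le_rfl, ← hN.cnt (r + 1) (by omega) d le_rfl]
  congr 1
  ext v
  rw [mem_filter, mem_lay, mem_lay, h1, Nat.lt_one_iff, Multiset.count_eq_zero]
  constructor
  · rintro ⟨⟨h2, h3, h4⟩, h5⟩
    refine ⟨h2, h3, fun x hx => ?_⟩
    have h6 := h4 x hx
    have h7 : x ≠ r + 2 - 1 := fun h => h5 (h ▸ hx)
    omega
  · rintro ⟨h2, h3, h4⟩
    refine ⟨⟨h2, h3, fun x hx => ?_⟩, fun h => ?_⟩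
    · have := h4 x hx
      omega
    · have := h4 _ h
      omega

/-- A point of multiplicity `d` lowers the number of variables by one. -/
theorem gdim_one (r d n : ℕ) (m : Fin n → ℕ) (hm : ∀ i, 1 ≤ m i ∧ m i ≤ d) :
    gdim (r + 1) d (Sum.elim m fun _ : Unit => d) = gdim r d m := by
  obtain ⟨e, he⟩ : ∃ e : ℕ → ℕ, e = fun s => if h : s < n then d + 1 - m ⟨s, h⟩ else 1 := ⟨_, rfl⟩
  have he1 : ∀ s, 1 ≤ e s := by
    intro s
    rw [he]
    show 1 ≤ if h : s < n then d + 1 - m ⟨s, h⟩ else 1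
    split_ifs with h
    · have := hm ⟨s, h⟩
      omega
    · exact le_rfl
  have hn : e n = 1 := by
    rw [he]
    exact dif_neg (lt_irrefl n)
  have hs : ∀ s : Fin n, d + 1 - e s = m s := by
    intro s
    have h1 : e s = d + 1 - m s := by
      rw [he]
      exact dif_pos s.2
    have := hm s
    omega
  have h1 := Seq_FF_one d e he1 r n hn
  have h2 : FF e (r + 1) n d = gdim r d m := by
    show gdim r d (fun s : Fin n => d + 1 - e s) = gdim r d m
    congr 1
    funext s
    exact hs s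
  have h3 : FF e (r + 2) (n + 1) d = gdim (r + 1) d (Sum.elim m fun _ : Unit => d) := by
    show gdim (r + 1) d (fun s : Fin (n + 1) => d + 1 - e s) = _
    let f : Fin n ⊕ Unit ≃ Fin (n + 1) :=
      (Equiv.optionEquivSumPUnit (Fin n)).symm.trans (finSuccEquivLast).symm
    rw [← gdim_comp_equiv (r + 1) d f (fun s : Fin (n + 1) => d + 1 - e s)]
    congr 1
    funext x
    rcases x with i | i
    · have h4 : f (Sum.inl i) = Fin.castSucc i := by simp [f]
      rw [h4]
      exact hs i
    · have h4 : f (Sum.inr i) = Fin.last n := by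
        simp [f]
      rw [h4]
      show d + 1 - e n = d
      omega
  rw [← h3, h1, h2]

private theorem Seq_fro_zero {P : Type} (r : ℕ) (E : P → ℕ) (I : Finset P) (hE : ∀ i, 1 ≤ E i) :
    fro r E I 0 = 1 := by
  classical
  unfold fro
  rw [Finset.sum_eq_single (∅ : Finset P)]
  · simp
  · intro T _ hT
    obtain ⟨x, hx⟩ := Finset.nonempty_iff_ne_empty.2 hT
    have h1 := Finset.single_le_sum (f := E) (fun _ _ => Nat.zero_le _) hx
    have h2 := hE x
    rw [if_neg (by omega), mul_zero]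
  · intro h
    exact absurd (Finset.empty_mem_powerset I) h

private theorem Seq_fro_le {P : Type} (r : ℕ) (E : P → ℕ) (I : Finset P) (hE : ∀ i, 1 ≤ E i) :
    fro r E I 1 ≤ r + 1 := by
  classical
  induction I using Finset.induction_on with
  | empty =>
    unfold fro
    simp
  | insert a s ha ih =>
    rw [fro_insert' r E s a ha 1]
    split_ifs with h
    · have h1 : 1 - E a = 0 := by
        have := hE a
        omega
      rw [h1, Seq_fro_zero r E s hE]
      omega
    · omega

private theorem Seq_card {n : ℕ} (i : Fin (n + 1)) (P : Fin (n + 1) → Prop) [DecidablePred P] :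
    (univ.filter P).card = (if P i then 1 else 0) + (univ.filter fun j => P (i.succAbove j)).card := by
  rw [Finset.card_filter, Finset.card_filter, Fin.sum_univ_succAbove _ i]

private theorem Seq_A (r : ℕ) (e : ℕ → ℕ) (k : ℕ) (j : ℕ) :
    fro r (fun s : Fin k => e s) univ j = A e (r + 1) k j := by
  induction k generalizing j with
  | zero =>
    unfold fro A
    have h1 : (univ : Finset (Fin 0)) = ∅ := rfl
    rw [h1]
    simp only [Finset.powerset_empty, Finset.sum_singleton, Finset.card_empty, pow_zero,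
      Finset.sum_empty, Nat.zero_le, if_true, Nat.sub_zero, one_mul]
    rw [Nat.multichoose_eq, show r + 1 + j - 1 = r + j by omega]
    congr 1
    rw [← Nat.choose_symm (show r ≤ r + j by omega)]
    congr 1
    omega
  | succ k ih =>
    have h1 : ∀ j, fro r (fun s : Fin (k + 1) => e s) ((univ : Finset (Fin k)).map Fin.castSuccEmb) j =
        A e (r + 1) k j := by
      intro j
      rw [Pool.Agent.H74.V8C.fro_map, ← ih j]
      rfl
    have h2 : e ((Fin.last k : Fin (k + 1)) : ℕ) = e k := rfl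
    rw [Fin.univ_castSuccEmb, Finset.cons_eq_insert, fro_insert' _ _ _ _ (by simp), h2, h1, h1]
    rfl

private theorem Seq_A_one {e : ℕ → ℕ} (he : ∀ s, 2 ≤ e s) (m t : ℕ) : A e m t 1 = m := by
  induction t with
  | zero =>
    show ((Nat.multichoose m 1 : ℕ) : ℤ) = m
    rw [Nat.multichoose_one_right]
  | succ t ih =>
    show A e m t 1 - (if e t ≤ 1 then A e m t (1 - e t) else 0) = m
    have := he t
    rw [if_neg (by omega), sub_zero, ih]

private theorem Seq_aux (r d k : ℕ) (m : Fin k → ℕ) (hm : ∀ i, 1 ≤ m i ∧ m i ≤ d)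
    (h1 : 0 < fro r (fun i => d + 1 - m i) univ 1) :
    ∃ (e : ℕ → ℕ) (m' t : ℕ), (∀ s, 2 ≤ e s) ∧ (∀ s < t, e s ≤ d) ∧ m' ≤ r + 1 ∧
      (∀ j, fro r (fun i => d + 1 - m i) univ j = A e m' t j) ∧
      gdim r d m = FF e m' t d := by
  classical
  obtain ⟨c, hc⟩ : ∃ c, c = (univ.filter fun i => m i = d).card := ⟨_, rfl⟩
  induction c generalizing r k m with
  | zero =>
    -- no points of multiplicity `d`
    have h2 : ∀ i, m i + 1 ≤ d := by
      intro i
      have h3 := hc.symm
      rw [card_eq_zero, filter_eq_empty_iff] at h3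
      have h4 := h3 (mem_univ i)
      have h5 := hm i
      omega
    obtain ⟨e, he⟩ : ∃ e : ℕ → ℕ, e = fun s => if h : s < k then d + 1 - m ⟨s, h⟩ else 2 :=
      ⟨_, rfl⟩
    have hes : ∀ s : Fin k, e s = d + 1 - m s := by
      intro s
      rw [he]
      exact dif_pos s.2
    refine ⟨e, r + 1, k, ?_, ?_, le_rfl, ?_, ?_⟩
    · intro s
      rw [he]
      show 2 ≤ if h : s < k then d + 1 - m ⟨s, h⟩ else 2
      split_ifs with h
      · have := h2 ⟨s, h⟩
        omega
      · exact le_rfl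
    · intro s hs
      have h3 : e s = d + 1 - m ⟨s, hs⟩ := hes ⟨s, hs⟩
      have := hm ⟨s, hs⟩
      omega
    · intro j
      rw [← Seq_A]
      congr 1
      funext s
      exact (hes s).symm
    · show gdim r d m = gdim r d (fun s : Fin k => d + 1 - e s)
      congr 1
      funext s
      rw [hes s]
      have := hm s
      omega
  | succ c ih =>
    obtain ⟨i, hi⟩ : (univ.filter fun i => m i = d).Nonempty := by
      rw [← card_pos]
      omega
    have hi2 : m i = d := (mem_filter.1 hi).2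
    obtain ⟨n, rfl⟩ : ∃ n, k = n + 1 := by
      rcases k with _ | n
      · exact i.elim0
      · exact ⟨n, rfl⟩
    have hE1 : (fun i => d + 1 - m i) i = 1 := by
      show d + 1 - m i = 1
      omega
    have huniv : (univ : Finset (Fin (n + 1))) = insert i (univ.map i.succAboveEmb) := by
      rw [Fin.univ_succAbove n i, Finset.cons_eq_insert]
    have hnot : i ∉ (univ : Finset (Fin n)).map i.succAboveEmb := by simp
    obtain ⟨s, rfl⟩ : ∃ s, r = s + 1 := by
      rcases r with _ | s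
      · exfalso
        have hE2 : d + 1 - m i = 1 := hE1
        rw [huniv, fro_insert' 0 _ _ i hnot 1, hE2, if_pos le_rfl, Nat.sub_self,
          Seq_fro_zero 0 _ _ (fun i => by have := hm i; omega)] at h1
        have h2 := Seq_fro_le 0 (fun i => d + 1 - m i) ((univ : Finset (Fin n)).map i.succAboveEmb)
          (fun i => by have := hm i; omega)
        push_cast at h2
        omega
      · exact ⟨s, rfl⟩
    have hfro : ∀ j, fro (s + 1) (fun i => d + 1 - m i) univ j =
        fro s (fun j => d + 1 - m (i.succAbove j)) univ j := by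
      intro j
      rw [huniv, Pool.Agent.H74.V8C.fro_cone s (fun i => d + 1 - m i) _ i hnot hE1 j,
        Pool.Agent.H74.V8C.fro_map]
      rfl
    have hc' : c = (univ.filter fun j => m (i.succAbove j) = d).card := by
      rw [Seq_card i, if_pos hi2] at hc
      omega
    obtain ⟨e, m', t, he, hed, hm', hA, hF⟩ := ih s n (fun j => m (i.succAbove j)) (fun j => hm _)
      (by rw [← hfro]; exact h1) hc'
    refine ⟨e, m', t, he, hed, by omega, fun j => by rw [hfro j, hA j], ?_⟩
    let f : Fin (n + 1) ≃ Fin n ⊕ Unit :=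
      (finSuccEquiv' i).trans (Equiv.optionEquivSumPUnit (Fin n))
    have h2 := gdim_comp_equiv (s + 1) d f
      (Sum.elim (fun j => m (i.succAbove j)) fun _ : Unit => d)
    have h3 : (fun j => Sum.elim (fun j => m (i.succAbove j)) (fun _ : Unit => d) (f j)) = m := by
      funext j
      by_cases hj : j = i
      · rw [hj]
        simp [f, hi2]
      · obtain ⟨y, rfl⟩ := Fin.exists_succAbove_eq hj
        simp [f]
    rw [h3, gdim_one s d n _ fun j => hm _] at h2
    rw [h2, hF]

theorem exists_seq (r d k : ℕ) (m : Fin k → ℕ) (hm : ∀ i, 1 ≤ m i ∧ m i ≤ d)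
    (h1 : 0 < fro r (fun i => d + 1 - m i) univ 1) :
    ∃ (e : ℕ → ℕ) (m' t : ℕ), (∀ s, 2 ≤ e s) ∧ (∀ s < t, e s ≤ d) ∧ m' ≤ r + 1 ∧
      (m' : ℤ) = fro r (fun i => d + 1 - m i) univ 1 ∧
      (∀ j, fro r (fun i => d + 1 - m i) univ j = A e m' t j) ∧
      gdim r d m = FF e m' t d := by
  obtain ⟨e, m', t, he, hed, hm', hA, hF⟩ := Seq_aux r d k m hm h1
  exact ⟨e, m', t, he, hed, hm', by rw [hA 1, Seq_A_one he], hA, hF⟩

end Pool.Agent.XD

end
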