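import Pool.Agent.H94.LP7.GD.AL.Ph2
import Pool.Agent.H94.LP7.M56
import Pool.Agent.H94.LP7.M67
import Pool.Agent.H94.LP7.M80
import Pool.Agent.H94.LP7.M82
import Pool.Agent.H94.LP7.M84
import Pool.Agent.H94.LP7.M85

/-! The parts of this file: GD.Main.Zero, GD.AL.XC, GD.AL.Sub_1, GD.Main.Final. -/

section

/-!
# General d: the assembly from the two blocks ALPHA (`TargetSub`) and BETA (`TargetT BETJ`)
-/

set_option autoImplicit false

namespace Pool.Agent.GD

theorem target_num : TargetNum :=
  targetNum fun _ _ c n ms h => vd_add _ c n ms h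

theorem target_pos : TargetPos := by
  intro d e kap hk
  obtain ⟨η, E, h1, h2, h⟩ := posJ d e kap hk
  refine ⟨η, E, h1, h2, fun P hd he hkap hP hc => ?_⟩
  subst hd he
  exact h P rfl rfl hkap hP hc

theorem target_top (hB : TargetT BETJ) : TargetTop :=
  targetTop_of hB GA.targetGam targetCv target_pos

theorem target_zero (hS : TargetSub) (hB : TargetT BETJ) : TargetZero :=
  targetZero (fun _ _ _ _ ms hk hc hn h0 => step (fun k _ => hc k) hn ms hk h0)
    (fun _ _ c n ms h => vd_add _ c n ms h) (fun _ _ c _ r ms => HL_simple c r ms) hS (target_top hB)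
    target_num targetWin

end Pool.Agent.GD

end

section

/-!
# General d, ALPHA, part C: the upper bound for the states with clusters
-/

set_option autoImplicit false

namespace Pool.Agent.GD.AL

open Finset

theorem xc_all (d J e : ℕ) : ∀ D ≤ d, XC d J e D := by
  intro D
  induction D using Nat.strong_induction_on with
  | _ D ih =>
    intro hD
    have h1 : ∀ s < D, XC d J e s := fun s hs => ih s hs (by omega)
    exact xc_of hD h1 (xp_of hD h1 fun s hs => xo_all d J s (by omega))

end Pool.Agent.GD.AL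

end

section

/-!
# General d, ALPHA: the target
-/

set_option autoImplicit false

namespace Pool.Agent.GD.AL

open Finset

theorem targetSub : TargetSub := by
  intro d e kap hk
  obtain ⟨lo, hi, ρ, E₁, hlo, hhi, hρ, hE₁, hcost⟩ := cost d e kap hk
  obtain ⟨E₂, hE₂, hip⟩ := ip_cls d e kap hk
  refine ⟨1, min E₁ E₂, ρ, le_refl _, lt_min hE₁ hE₂, hρ, fun P hPd hPe hPk hOk η hη => ?_⟩
  subst hPd hPe hPk
  have he := hk.two
  have hed := hk.lt
  -- the constants of the upper bounds
  obtain ⟨η', hη', hη'1, hη'2⟩ : ∃ η' : ℝ, 0 < η' ∧ η' ≤ η ∧ η' ≤ lo :=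
    ⟨min η lo, lt_min hη hlo, min_le_left _ _, min_le_right _ _⟩
  have hxc := fun j : ℕ => xc_all P.d j P.e P.d (le_refl _) η' (1 / 2) hη' (by norm_num)
  choose θ hθ F hF using hxc
  obtain ⟨θ₀, hθ₀, hθle⟩ : ∃ θ₀ : ℝ, 0 < θ₀ ∧ ∀ j ≤ P.J, θ₀ ≤ θ j := by
    obtain ⟨j₀, _, hj₀⟩ := Finset.exists_min_image (range (P.J + 1)) θ ⟨0, by simp⟩
    exact ⟨θ j₀, hθ j₀, fun j hj => hj₀ j (mem_range.2 (by omega))⟩
  obtain ⟨K₁, hK₁⟩ := om_cls P.d P.e P.M he hed hθ₀
  obtain ⟨K₂, hK₂⟩ := hip P.M
  refine ⟨1, fun g => K₁ + K₂ + ∑ j ∈ range (P.J + 1), F j (fun x => if x < j then g x else 0),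
    one_pos, fun c hc j hj => ?_⟩
  have hc1 : ∀ i < P.J, 1 ≤ c i := fun i hi => (hc i hi).2.1
  have hsumle : ∀ i < P.J, K₁ + K₂ + F j (rs (i + 1) j c) ≤ c i := by
    intro i hi
    refine le_trans ?_ (hc i hi).2.2
    have h1 : F j (rs (i + 1) j c) ≤ ∑ j ∈ range (P.J + 1),
        F j (fun x => if x < j then (if i < x ∧ x < P.J then c x else 0) else 0) := by
      have h2 := single_le_sum (f := fun j =>
        F j (fun x => if x < j then (if i < x ∧ x < P.J then c x else 0) else 0))
        (fun _ _ => Nat.zero_le _) (mem_range.2 (Nat.lt_succ_of_le hj))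
      refine le_trans (le_of_eq ?_) h2
      have h3 : rs (i + 1) j c = fun x => if x < j then (if i < x ∧ x < P.J then c x else 0) else 0 := by
        funext x
        unfold rs
        by_cases h4 : x < j
        · rw [if_pos h4]
          by_cases h5 : i < x
          · rw [if_pos ⟨h5, h4⟩, if_pos ⟨h5, by omega⟩]
          · rw [if_neg (by omega), if_neg (by omega)]
        · rw [if_neg h4, if_neg (by omega)]
      rw [h3]
    exact Nat.add_le_add_left h1 _
  have hHr : Hr 0 j (F j) c := fun l _ hl => by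
    have := hsumle l (by omega)
    omega
  obtain ⟨n₁, hn₁⟩ := hF j c hHr
  obtain ⟨n₂, hn₂⟩ := hcost (P.wc c) rfl rfl rfl (ok_wc hOk (min_le_left _ _) c) hc1 j hj
  obtain ⟨n₃, hn₃⟩ := hK₁ (P.wc c) rfl rfl rfl (fun l hl => by
    have := hsumle l hl
    show K₁ ≤ c l
    omega) j hj
  obtain ⟨n₄, hn₄⟩ := hK₂ (P.wc c) rfl rfl rfl rfl (ok_wc hOk (min_le_right _ _) c) (fun l hl => by
    have := hsumle l hl
    show K₂ ≤ c l
    omega) j hj
  refine ⟨1 + n₁ + n₂ + n₃ + n₄ + 2 * ∑ l ∈ range j, c l, fun n hn ms hms hu hv => ?_⟩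
  have hsum : ∑ l ∈ range j, c l ≤ n := by omega
  have hadm := adm_cls (P := P.wc c) he hed hj hms
  obtain ⟨hH, hV⟩ := st_HL (d := P.d) (fun l hl => hc1 l (by omega)) hsum
    (fun k hk => (hadm k hk).elim AdmO.ok AdmC.ok)
  obtain ⟨σ, hσ⟩ : ∃ σ : St, σ = St.mk c (n - ∑ l ∈ range j, c l) ms := ⟨_, rfl⟩
  rw [← hσ] at hH
  simp only [← hσ] at hV
  have hnn : σ.n j = n := by
    rw [hσ]
    unfold St.n
    simp only
    omega
  have hJd : j < P.d := by
    have h1 : P.J = P.d - P.e := rfl
    omega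
  have hInC : InC P.d j P.e c n (1 / 2) (θ j) (range j) σ :=
    { c := fun l => by rw [hσ]
      c' := fun l _ => by
        rw [hσ]
        have : (0 : ℝ) ≤ c l := Nat.cast_nonneg _
        show 1 / 2 * (c l : ℝ) ≤ c l
        linarith
      n := hnn.le
      w := by
        rw [hσ]
        show 1 / 2 * (n : ℝ) ≤ ((n - ∑ l ∈ range j, c l : ℕ) : ℝ)
        have h1 : n ≤ 2 * (n - ∑ l ∈ range j, c l) := by omega
        have h2 : (n : ℝ) ≤ 2 * ((n - ∑ l ∈ range j, c l : ℕ) : ℝ) := by exact_mod_cast h1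
        linarith
      adm := by
        rw [hσ]
        exact hadm
      om := by
        rw [hσ]
        exact (hn₃ n (by omega) ms hms).trans (hθle j hj) }
  have hPos : Pos j c n η' σ (range j) P.d := by
    intro I' hI' D' hID hD'
    rw [← hV I' D']
    have hcc : ∀ I : Finset ℕ, ((P.wc c).cc I : ℝ) = ∏ i ∈ I, (c i : ℝ) := fun I => by
      unfold Par.cc
      push_cast
      rfl
    have hnz : nz c n I' D' = (P.wc c).cc I' * (n : ℝ) ^ (D' - I'.card) := by
      rw [hcc]
      rfl
    have hnz0 : 0 ≤ ((P.wc c).cc I' : ℝ) * (n : ℝ) ^ (D' - I'.card) := by positivity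
    rw [hnz]
    by_cases hlt : D' < P.d
    · have h1 := (hn₂ n (by omega) ms hms hu D' hlt I' hI' hID).1
      refine le_trans ?_ h1
      rw [mul_assoc]
      exact mul_le_mul_of_nonneg_right hη'2 hnz0
    · have h2 : (range j \ I').card = 0 := by omega
      have h3 : I' = range j := by
        rw [card_eq_zero, sdiff_eq_empty_iff_subset] at h2
        exact Subset.antisymm hI' h2
      have h4 : D' = P.d := by omega
      subst h3
      rw [h4, card_range] at *
      refine le_trans ?_ hv
      rw [mul_assoc]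
      exact mul_le_mul_of_nonneg_right hη'1 hnz0
  have hIP : IP j P.e c ((P.d + 1) * P.d) σ.ms := by
    rw [hσ]
    exact hn₄ n (by omega) ms hms
  have hHH : HH P.d (range j) σ.ms := by
    rw [hσ]
    exact hr_cls (P := P.wc c) he hed hj hms
  have hfin := hn₁ n (by omega) σ (range j) (Subset.refl _) hInC hHH hIP hPos
  unfold St.dl at hfin
  have hH' : ((P.wc c).H j n ms : ℤ) = σ.H P.d j (range j) P.d := by
    show ((HL P.d P.d c n j ms : ℕ) : ℤ) = _
    rw [hH]
  have hV' : (P.wc c).v j n ms = σ.V j (range j) P.d := hV (range j) P.d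
  rw [hH', hV']
  linarith

end Pool.Agent.GD.AL

end

section

/-!
# General d: the main theorem
-/

set_option autoImplicit false

namespace Pool.Agent.GD

/-- The result for all critical vectors of densities. -/
theorem targetZero_main : TargetZero :=
  target_zero AL.targetSub BE.targetBet

end Pool.Agent.GD

end
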